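import Pool.Agent.Strip051.G.I5_16_3_8.Gn
import Pool.Agent.Strip051.PB.Corns

/-! # Certificates of the aligned corners (generated) -/

set_option linter.all false

namespace Pool.Agent.Strip051.G.I5_16_3_8.Tab.CF

open Pool.Agent.Strip051.PB

def A011E_000 :
    ∃ t, chk3 (onCell 0 67108864 0 1073741824 335544320 67108864 (corT true 1 c0F cA011E gF0q0 gF0q1 gF0q1 gF1q1 true false)) t 1 1 1 = true :=
  ⟨(T.l 1), by decide +kernel⟩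

def A011L_001 :
    ∃ t, chk3 (onCell 0 67108864 0 1073741824 335544320 67108864 (corT true 1 c0F cA011L gF0q0 gF0q1 gF1q1 gF2q1 false true)) t 1 1 1 = true :=
  ⟨(T.l 2), by decide +kernel⟩

def A011L_002 :
    ∃ t, chk3 (onCell 0 67108864 0 1073741824 335544320 67108864 (corT true 1 c0F cA011L gF0q0 gF0q1 gF2q1 gF3q1 true true)) t 1 1 1 = true :=
  ⟨(T.l 2), by decide +kernel⟩

def A011L_003 :
    ∃ t, chk3 (onCell 0 67108864 0 1073741824 335544320 67108864 (corT true 1 c0F cA011L gF0q0 gF0q1 gF3q1 gF4q1 true true)) t 1 1 1 = true :=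
  ⟨(T.l 2), by decide +kernel⟩

def A011R_020 :
    ∃ t, chk3 (onCell 0 67108864 0 1073741824 335544320 67108864 (corT true 1 c0F cA011R gF0q0 gF2q1 gF0q1 gF1q1 true false)) t 1 1 1 = true :=
  ⟨(T.b (T.b (T.b (T.b (T.a (T.l 204) (T.a (T.l 204) (T.l 204))) (T.l 1)) (T.l 1)) (T.l 1)) (T.l 1)), by decide +kernel⟩

def A011R_030 :
    ∃ t, chk3 (onCell 0 67108864 0 1073741824 335544320 67108864 (corT true 1 c0F cA011R gF0q0 gF3q1 gF0q1 gF1q1 true false)) t 1 1 1 = true :=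
  ⟨(T.b (T.b (T.a (T.b (T.b (T.l 204) (T.l 204)) (T.b (T.b (T.c (T.l 204) (T.l 204)) (T.b (T.c (T.l 220) (T.l 204)) (T.l 1))) (T.l 1))) (T.a (T.b (T.l 204) (T.b (T.b (T.l 204) (T.b (T.l 220) (T.l 1))) (T.l 1))) (T.b (T.b (T.l 204) (T.a (T.l 204) (T.l 204))) (T.b (T.a (T.c (T.b (T.l 204) (T.b (T.l 204) (T.l 1))) (T.b (T.l 204) (T.b (T.l 204) (T.l 1)))) (T.c (T.b (T.l 204) (T.b (T.l 220) (T.l 1))) (T.b (T.l 204) (T.b (T.l 204) (T.l 1))))) (T.l 1))))) (T.l 1)) (T.l 1)), by decide +kernel⟩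

def A011R_040 :
    ∃ t, chk3 (onCell 0 67108864 0 1073741824 335544320 67108864 (corX 1 c0F cA011R tA011R gF0q0 gF4q1 gF0q1 gF1q1 gF0q1 true false)) t 1 1 1 = true :=
  ⟨(T.b (T.b (T.b (T.l 0) (T.l 3)) (T.b (T.l 3) (T.l 1))) (T.l 1)), by decide +kernel⟩

def A011R_120 :
    ∃ t, chk3 (onCell 0 67108864 0 1073741824 335544320 67108864 (corT true 1 c0F cA011R gF1q0 gF2q1 gF0q1 gF1q1 true false)) t 1 1 1 = true :=
  ⟨(T.l 1), by decide +kernel⟩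

def A011R_130 :
    ∃ t, chk3 (onCell 0 67108864 0 1073741824 335544320 67108864 (corT true 1 c0F cA011R gF1q0 gF3q1 gF0q1 gF1q1 true false)) t 1 1 1 = true :=
  ⟨(T.l 1), by decide +kernel⟩

def A011R_140 :
    ∃ t, chk3 (onCell 0 67108864 0 1073741824 335544320 67108864 (corT true 1 c0F cA011R gF1q0 gF4q1 gF0q1 gF1q1 true false)) t 1 1 1 = true :=
  ⟨(T.l 1), by decide +kernel⟩

def A012E_000_1_2_1 :
    ∃ t, chk3 (onCell 0 67108864 0 1073741824 335544320 67108864 (corX 1 c0F cA012E tA012E gF0q0 gF0q1 gF0q2 gF1q2 gF0q2 true true)) t 1 2 1 = true :=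
  ⟨(T.b (T.l 1) (T.b (T.l 1) (T.b (T.l 1) (T.b (T.l 1) (T.a (T.b (T.l 1) (T.a (T.c (T.l 819) (T.l 819)) (T.c (T.l 819) (T.l 819)))) (T.a (T.c (T.a (T.l 819) (T.l 883)) (T.a (T.l 819) (T.l 883))) (T.a (T.c (T.l 883) (T.l 883)) (T.b (T.b (T.c (T.l 883) (T.l 883)) (T.c (T.c (T.l 883) (T.l 883)) (T.c (T.l 883) (T.l 883)))) (T.a (T.c (T.l 883) (T.l 883)) (T.b (T.c (T.l 883) (T.l 883)) (T.a (T.c (T.l 883) (T.l 883)) (T.c (T.b (T.l 883) (T.a (T.l 883) (T.c (T.l 880) (T.l 880)))) (T.b (T.l 883) (T.a (T.l 883) (T.c (T.l 880) (T.l 880)))))))))))))))), by decide +kernel⟩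

def A012E_000_2_6_1 :
    ∃ t, chk3 (onCell 0 67108864 0 1073741824 335544320 67108864 (corX 1 c0F cA012E tA012E gF0q0 gF0q1 gF0q2 gF1q2 gF0q2 true true)) t 2 6 1 = true :=
  ⟨(T.a (T.a (T.c (T.b (T.l 819) (T.l 819)) (T.b (T.l 819) (T.l 819))) (T.c (T.b (T.l 819) (T.l 819)) (T.b (T.l 819) (T.l 819)))) (T.a (T.c (T.b (T.l 819) (T.b (T.l 819) (T.l 819))) (T.b (T.l 819) (T.b (T.l 819) (T.l 819)))) (T.b (T.c (T.l 819) (T.l 887)) (T.c (T.b (T.l 819) (T.l 823)) (T.b (T.l 819) (T.l 823)))))), by decide +kernel⟩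

def A012E_000_6_12_1 :
    ∃ t, chk3 (onCell 0 67108864 0 1073741824 335544320 67108864 (corX 1 c0F cA012E tA012E gF0q0 gF0q1 gF0q2 gF1q2 gF0q2 true true)) t 6 12 1 = true :=
  ⟨(T.c (T.a (T.l 887) (T.b (T.l 883) (T.l 819))) (T.a (T.l 887) (T.b (T.l 883) (T.l 887)))), by decide +kernel⟩

def A012E_000_14_24_1 :
    ∃ t, chk3 (onCell 0 67108864 0 1073741824 335544320 67108864 (corX 1 c0F cA012E tA012E gF0q0 gF0q1 gF0q2 gF1q2 gF0q2 true true)) t 14 24 1 = true :=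
  ⟨(T.b (T.c (T.l 883) (T.l 883)) (T.a (T.c (T.l 819) (T.l 819)) (T.c (T.l 883) (T.l 883)))), by decide +kernel⟩

def A012E_000_15_48_1 :
    ∃ t, chk3 (onCell 0 67108864 0 1073741824 335544320 67108864 (corX 1 c0F cA012E tA012E gF0q0 gF0q1 gF0q2 gF1q2 gF0q2 true true)) t 15 48 1 = true :=
  ⟨(T.a (T.c (T.l 883) (T.l 883)) (T.b (T.c (T.a (T.b (T.l 883) (T.b (T.l 883) (T.c (T.l 880) (T.l 880)))) (T.b (T.c (T.b (T.a (T.l 819) (T.l 880)) (T.c (T.l 880) (T.l 880))) (T.b (T.c (T.l 880) (T.l 880)) (T.c (T.l 880) (T.l 880)))) (T.c (T.a (T.l 880) (T.l 880)) (T.a (T.l 880) (T.l 880))))) (T.a (T.b (T.l 883) (T.b (T.l 883) (T.c (T.l 880) (T.l 880)))) (T.b (T.c (T.b (T.c (T.l 880) (T.l 880)) (T.c (T.l 880) (T.l 880))) (T.b (T.c (T.l 880) (T.l 880)) (T.c (T.l 880) (T.l 880)))) (T.c (T.a (T.l 880) (T.l 880)) (T.a (T.l 880) (T.l 880)))))) (T.c (T.a (T.b (T.c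 (T.c (T.l 880) (T.l 880)) (T.c (T.l 880) (T.l 880))) (T.c (T.c (T.l 880) (T.l 880)) (T.c (T.l 880) (T.l 880)))) (T.b (T.c (T.l 880) (T.l 880)) (T.c (T.l 880) (T.l 880)))) (T.a (T.b (T.c (T.c (T.l 880) (T.l 880)) (T.c (T.l 880) (T.l 880))) (T.c (T.c (T.l 880) (T.l 880)) (T.c (T.l 880) (T.l 880)))) (T.b (T.c (T.c (T.l 880) (T.l 880)) (T.c (T.l 880) (T.l 880))) (T.c (T.l 880) (T.l 880))))))), by decide +kernel⟩

def A012E_000_15_49_1 :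
    ∃ t, chk3 (onCell 0 67108864 0 1073741824 335544320 67108864 (corX 1 c0F cA012E tA012E gF0q0 gF0q1 gF0q2 gF1q2 gF0q2 true true)) t 15 49 1 = true :=
  ⟨(T.a (T.b (T.a (T.c (T.l 819) (T.l 883)) (T.c (T.b (T.c (T.l 880) (T.l 880)) (T.c (T.l 880) (T.l 880))) (T.b (T.c (T.l 880) (T.l 880)) (T.c (T.l 880) (T.l 880))))) (T.c (T.a (T.c (T.b (T.l 880) (T.l 880)) (T.b (T.l 880) (T.l 880))) (T.b (T.c (T.l 880) (T.l 880)) (T.l 880))) (T.a (T.c (T.b (T.l 880) (T.l 880)) (T.b (T.l 880) (T.l 880))) (T.b (T.c (T.l 880) (T.l 880)) (T.l 880))))) (T.b (T.c (T.a (T.b (T.c (T.l 880) (T.l 880)) (T.l 880)) (T.b (T.c (T.l 880) (T.l 880)) (T.l 880))) (T.a (T.b (T.c (T.l 880) (T.l 880)) (T.c (T.l 880) (T.l 880))) (T.b (T.c (T.l 880) (T.l 880)) (T.c (T.l 880) (T.l 880))))) (T.c (T.a (T.c (T.l 880) (T.l 880)) (T.c (T.l 880) (T.l 880))) (T.a (T.b (T.l 880) (T.l 880))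 (T.b (T.l 880) (T.l 880)))))), by decide +kernel⟩

def A012E_000_7_25_1 :
    ∃ t, chk3 (onCell 0 67108864 0 1073741824 335544320 67108864 (corX 1 c0F cA012E tA012E gF0q0 gF0q1 gF0q2 gF1q2 gF0q2 true true)) t 7 25 1 = true :=
  ⟨(T.a (T.b (T.a (T.c (T.l 883) (T.l 887)) (T.b (T.a (T.l 887) (T.a (T.l 887) (T.c (T.l 880) (T.c (T.l 880) (T.l 880))))) (T.c (T.a (T.c (T.l 880) (T.l 880)) (T.c (T.l 880) (T.l 880))) (T.a (T.c (T.l 884) (T.l 884)) (T.c (T.l 880) (T.l 884)))))) (T.a (T.a (T.c (T.l 819) (T.l 819)) (T.b (T.l 887) (T.c (T.l 884) (T.c (T.l 880) (T.l 884))))) (T.a (T.c (T.b (T.c (T.l 816) (T.l 880)) (T.l 884)) (T.b (T.c (T.l 880) (T.l 884)) (T.c (T.l 880) (T.l 884)))) (T.c (T.b (T.l 884) (T.l 884)) (T.b (T.c (T.l 880) (T.l 884)) (T.l 884)))))) (T.b (T.a (T.b (T.c (T.a (T.c (T.l 880) (T.l 880)) (T.c (T.l 880) (T.l 880))) (T.a (T.c (T.l 884) (T.b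 (T.l 880) (T.l 880))) (T.c (T.l 880) (T.l 884)))) (T.c (T.a (T.l 884) (T.l 884)) (T.a (T.c (T.l 880) (T.l 884)) (T.c (T.l 880) (T.l 884))))) (T.b (T.c (T.a (T.c (T.l 880) (T.l 880)) (T.c (T.l 880) (T.l 880))) (T.a (T.c (T.l 880) (T.l 884)) (T.c (T.l 880) (T.l 884)))) (T.c (T.a (T.l 884) (T.l 884)) (T.a (T.c (T.l 880) (T.l 884)) (T.c (T.l 880) (T.l 884)))))) (T.a (T.b (T.c (T.a (T.l 884) (T.l 884)) (T.a (T.c (T.l 880) (T.l 880)) (T.c (T.l 880) (T.l 880)))) (T.c (T.b (T.l 884) (T.l 884)) (T.a (T.l 884) (T.l 884)))) (T.b (T.c (T.b (T.l 884) (T.l 884)) (T.a (T.l 884) (T.l 884))) (T.c (T.c (T.l 884) (T.l 884)) (T.a (T.l 884) (T.l 884))))))), by decide +kernel⟩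

def A012E_000_3_26_1 :
    ∃ t, chk3 (onCell 0 67108864 0 1073741824 335544320 67108864 (corX 1 c0F cA012E tA012E gF0q0 gF0q1 gF0q2 gF1q2 gF0q2 true true)) t 3 26 1 = true :=
  ⟨(T.b (T.a (T.a (T.c (T.l 819) (T.l 819)) (T.a (T.c (T.l 819) (T.l 819)) (T.c (T.l 819) (T.l 823)))) (T.a (T.a (T.c (T.a (T.b (T.l 884) (T.l 884)) (T.b (T.l 884) (T.l 820))) (T.a (T.b (T.c (T.l 820) (T.l 884)) (T.c (T.l 820) (T.l 820))) (T.b (T.c (T.l 816) (T.l 884)) (T.l 884)))) (T.c (T.b (T.b (T.l 884) (T.l 884)) (T.b (T.l 884) (T.l 884))) (T.b (T.a (T.l 884) (T.l 884)) (T.a (T.l 884) (T.l 884))))) (T.a (T.c (T.b (T.c (T.l 884) (T.l 884)) (T.c (T.l 884) (T.l 884))) (T.b (T.a (T.l 884) (T.l 884)) (T.a (T.l 884) (T.l 884)))) (T.c (T.b (T.c (T.l 884) (T.l 884)) (T.c (T.l 884) (T.l 884))) (T.b (T.a (T.l 884) (T.l 884)) (T.a (T.l 884) (T.l 884))))))) (T.a (T.a (T.c (T.l 819)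 (T.l 819)) (T.a (T.c (T.l 819) (T.l 819)) (T.a (T.c (T.l 819) (T.l 819)) (T.c (T.b (T.c (T.l 816) (T.l 816)) (T.c (T.l 816) (T.l 816))) (T.b (T.c (T.l 820) (T.l 820)) (T.c (T.l 820) (T.l 820))))))) (T.a (T.a (T.a (T.c (T.b (T.l 820) (T.l 820)) (T.b (T.c (T.l 820) (T.l 820)) (T.l 820))) (T.c (T.b (T.l 820) (T.l 820)) (T.b (T.l 884) (T.l 820)))) (T.c (T.a (T.b (T.l 820) (T.l 820)) (T.b (T.l 820) (T.l 820))) (T.a (T.b (T.l 884) (T.l 820)) (T.b (T.l 884) (T.l 820))))) (T.a (T.c (T.b (T.b (T.l 820) (T.l 820)) (T.a (T.l 820) (T.l 820))) (T.a (T.b (T.l 884) (T.l 820)) (T.b (T.l 884) (T.l 884)))) (T.c (T.b (T.c (T.l 820) (T.l 884)) (T.a (T.l 820) (T.l 820))) (T.b (T.a (T.l 884) (T.l 884)) (T.a (T.l 884) (T.l 884)))))))), by decide +kernel⟩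

def A012E_000_3_27_1 :
    ∃ t, chk3 (onCell 0 67108864 0 1073741824 335544320 67108864 (corX 1 c0F cA012E tA012E gF0q0 gF0q1 gF0q2 gF1q2 gF0q2 true true)) t 3 27 1 = true :=
  ⟨(T.b (T.b (T.b (T.a (T.a (T.c (T.l 819) (T.l 819)) (T.a (T.c (T.l 819) (T.l 819)) (T.c (T.a (T.l 820) (T.l 820)) (T.a (T.l 820) (T.l 820))))) (T.a (T.a (T.c (T.c (T.l 820) (T.l 820)) (T.a (T.l 820) (T.l 820))) (T.c (T.c (T.l 820) (T.l 820)) (T.c (T.l 820) (T.l 820)))) (T.a (T.c (T.c (T.l 820) (T.l 820)) (T.c (T.l 820) (T.l 820))) (T.c (T.c (T.l 820) (T.l 820)) (T.c (T.l 820) (T.l 820)))))) (T.a (T.a (T.c (T.l 819) (T.l 819)) (T.a (T.c (T.l 819) (T.l 823)) (T.c (T.a (T.l 820) (T.l 816)) (T.a (T.l 820) (T.l 820))))) (T.b (T.a (T.a (T.c (T.c (T.l 820) (T.l 820)) (T.c (T.l 820) (T.l 820))) (T.c (T.l 820) (T.c (T.l 820) (T.l 820)))) (T.b (T.a (T.c (T.l 820) (T.l 820)) (T.c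 (T.l 820) (T.l 820))) (T.l 2))) (T.a (T.a (T.a (T.c (T.l 816) (T.l 820)) (T.l 2)) (T.l 2)) (T.l 2))))) (T.a (T.a (T.c (T.l 819) (T.l 819)) (T.l 2)) (T.l 2))) (T.l 2)), by decide +kernel⟩

def A012E_000_1_7_1 :
    ∃ t, chk3 (onCell 0 67108864 0 1073741824 335544320 67108864 (corX 1 c0F cA012E tA012E gF0q0 gF0q1 gF0q2 gF1q2 gF0q2 true true)) t 1 7 1 = true :=
  ⟨(T.l 2), by decide +kernel⟩

theorem A012E_000_3_13_1 :
    ∃ t, chk3 (onCell 0 67108864 0 1073741824 335544320 67108864 (corX 1 c0F cA012E tA012E gF0q0 gF0q1 gF0q2 gF1q2 gF0q2 true true)) t 3 13 1 = true :=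
  ex3_b A012E_000_3_26_1 A012E_000_3_27_1
theorem A012E_000_15_24_1 :
    ∃ t, chk3 (onCell 0 67108864 0 1073741824 335544320 67108864 (corX 1 c0F cA012E tA012E gF0q0 gF0q1 gF0q2 gF1q2 gF0q2 true true)) t 15 24 1 = true :=
  ex3_b A012E_000_15_48_1 A012E_000_15_49_1
theorem A012E_000_7_24_1 :
    ∃ t, chk3 (onCell 0 67108864 0 1073741824 335544320 67108864 (corX 1 c0F cA012E tA012E gF0q0 gF0q1 gF0q2 gF1q2 gF0q2 true true)) t 7 24 1 = true :=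
  ex3_a A012E_000_14_24_1 A012E_000_15_24_1
theorem A012E_000_7_12_1 :
    ∃ t, chk3 (onCell 0 67108864 0 1073741824 335544320 67108864 (corX 1 c0F cA012E tA012E gF0q0 gF0q1 gF0q2 gF1q2 gF0q2 true true)) t 7 12 1 = true :=
  ex3_b A012E_000_7_24_1 A012E_000_7_25_1
theorem A012E_000_3_12_1 :
    ∃ t, chk3 (onCell 0 67108864 0 1073741824 335544320 67108864 (corX 1 c0F cA012E tA012E gF0q0 gF0q1 gF0q2 gF1q2 gF0q2 true true)) t 3 12 1 = true :=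
  ex3_a A012E_000_6_12_1 A012E_000_7_12_1
theorem A012E_000_3_6_1 :
    ∃ t, chk3 (onCell 0 67108864 0 1073741824 335544320 67108864 (corX 1 c0F cA012E tA012E gF0q0 gF0q1 gF0q2 gF1q2 gF0q2 true true)) t 3 6 1 = true :=
  ex3_b A012E_000_3_12_1 A012E_000_3_13_1
theorem A012E_000_1_6_1 :
    ∃ t, chk3 (onCell 0 67108864 0 1073741824 335544320 67108864 (corX 1 c0F cA012E tA012E gF0q0 gF0q1 gF0q2 gF1q2 gF0q2 true true)) t 1 6 1 = true :=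
  ex3_a A012E_000_2_6_1 A012E_000_3_6_1
theorem A012E_000_1_3_1 :
    ∃ t, chk3 (onCell 0 67108864 0 1073741824 335544320 67108864 (corX 1 c0F cA012E tA012E gF0q0 gF0q1 gF0q2 gF1q2 gF0q2 true true)) t 1 3 1 = true :=
  ex3_b A012E_000_1_6_1 A012E_000_1_7_1
theorem A012E_000 :
    ∃ t, chk3 (onCell 0 67108864 0 1073741824 335544320 67108864 (corX 1 c0F cA012E tA012E gF0q0 gF0q1 gF0q2 gF1q2 gF0q2 true true)) t 1 1 1 = true :=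
  ex3_b A012E_000_1_2_1 A012E_000_1_3_1

def A012E_001_1_2_1 :
    ∃ t, chk3 (onCell 0 67108864 0 1073741824 335544320 67108864 (corT true 1 c0F cA012E gF0q0 gF0q1 gF1q2 gF2q2 true false)) t 1 2 1 = true :=
  ⟨(T.l 1), by decide +kernel⟩

def A012E_001_1_6_1 :
    ∃ t, chk3 (onCell 0 67108864 0 1073741824 335544320 67108864 (corT true 1 c0F cA012E gF0q0 gF0q1 gF1q2 gF2q2 true false)) t 1 6 1 = true :=
  ⟨(T.b (T.l 1) (T.b (T.l 1) (T.a (T.c (T.a (T.l 820) (T.b (T.l 816) (T.l 816))) (T.b (T.a (T.l 816) (T.l 820)) (T.l 820))) (T.a (T.a (T.c (T.l 820) (T.b (T.l 820) (T.l 816))) (T.c (T.b (T.a (T.b (T.l 820) (T.l 816)) (T.b (T.l 820) (T.l 816))) (T.a (T.l 816) (T.l 816))) (T.b (T.a (T.c (T.l 820) (T.l 820)) (T.b (T.l 820) (T.l 816))) (T.a (T.l 820) (T.l 816))))) (T.a (T.b (T.c (T.a (T.l 820) (T.l 820)) (T.a (T.b (T.l 820) (T.l 816)) (T.b (T.l 820) (T.l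 816)))) (T.c (T.b (T.l 820) (T.l 816)) (T.b (T.l 820) (T.l 816)))) (T.b (T.c (T.a (T.l 820) (T.l 820)) (T.b (T.c (T.l 820) (T.l 820)) (T.l 820))) (T.c (T.l 820) (T.b (T.l 820) (T.l 816))))))))), by decide +kernel⟩

def A012E_001_1_7_1 :
    ∃ t, chk3 (onCell 0 67108864 0 1073741824 335544320 67108864 (corT true 1 c0F cA012E gF0q0 gF0q1 gF1q2 gF2q2 true false)) t 1 7 1 = true :=
  ⟨(T.a (T.a (T.b (T.c (T.b (T.l 816) (T.l 816)) (T.b (T.l 816) (T.l 816))) (T.c (T.b (T.l 816) (T.l 816)) (T.b (T.l 816) (T.l 816)))) (T.a (T.b (T.c (T.b (T.l 816) (T.l 816)) (T.l 820)) (T.c (T.l 816) (T.l 816))) (T.b (T.c (T.b (T.l 816) (T.l 816)) (T.l 820)) (T.b (T.l 816) (T.a (T.l 816) (T.b (T.l 816) (T.l 816))))))) (T.a (T.b (T.a (T.b (T.a (T.b (T.l 816) (T.l 816)) (T.c (T.b (T.l 816) (T.l 816)) (T.b (T.l 816) (T.l 816)))) (T.c (T.a (T.l 816) (T.l 816)) (T.b (T.l 884)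 (T.l 816)))) (T.b (T.c (T.a (T.l 820) (T.l 820)) (T.a (T.l 884) (T.l 820))) (T.c (T.b (T.l 816) (T.l 816)) (T.b (T.l 816) (T.l 816))))) (T.a (T.b (T.c (T.b (T.l 816) (T.l 816)) (T.b (T.l 816) (T.l 816))) (T.c (T.b (T.l 816) (T.l 816)) (T.b (T.l 816) (T.l 816)))) (T.b (T.c (T.b (T.l 816) (T.l 816)) (T.b (T.l 816) (T.l 816))) (T.c (T.l 816) (T.l 880))))) (T.b (T.b (T.a (T.c (T.b (T.l 820) (T.l 816)) (T.b (T.l 884) (T.l 816))) (T.c (T.b (T.l 820) (T.l 816)) (T.b (T.l 880) (T.l 880)))) (T.a (T.c (T.b (T.l 816) (T.l 816)) (T.b (T.l 816) (T.l 816))) (T.c (T.l 884) (T.b (T.l 816) (T.l 816))))) (T.a (T.b (T.c (T.l 880) (T.b (T.l 816) (T.l 816))) (T.c (T.l 816) (T.l 816))) (T.b (T.c (T.l 880) (T.l 880)) (T.c (T.l 816) (T.l 816))))))), by decide +kernel⟩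

theorem A012E_001_1_3_1 :
    ∃ t, chk3 (onCell 0 67108864 0 1073741824 335544320 67108864 (corT true 1 c0F cA012E gF0q0 gF0q1 gF1q2 gF2q2 true false)) t 1 3 1 = true :=
  ex3_b A012E_001_1_6_1 A012E_001_1_7_1
theorem A012E_001 :
    ∃ t, chk3 (onCell 0 67108864 0 1073741824 335544320 67108864 (corT true 1 c0F cA012E gF0q0 gF0q1 gF1q2 gF2q2 true false)) t 1 1 1 = true :=
  ex3_b A012E_001_1_2_1 A012E_001_1_3_1

def A012L_003 :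
    ∃ t, chk3 (onCell 0 67108864 0 1073741824 335544320 67108864 (corT true 1 c0F cA012L gF0q0 gF0q1 gF3q2 gF4q2 false true)) t 1 1 1 = true :=
  ⟨(T.l 2), by decide +kernel⟩

def A012R_020 :
    ∃ t, chk3 (onCell 0 67108864 0 1073741824 335544320 67108864 (corT true 1 c0F cA012R gF0q0 gF2q1 gF0q2 gF1q2 true true)) t 1 1 1 = true :=
  ⟨(T.b (T.l 2) (T.l 2)), by decide +kernel⟩

def A012R_021 :
    ∃ t, chk3 (onCell 0 67108864 0 1073741824 335544320 67108864 (corT true 1 c0F cA012R gF0q0 gF2q1 gF1q2 gF2q2 true false)) t 1 1 1 = true :=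
  ⟨(T.b (T.a (T.b (T.l 0) (T.l 0)) (T.a (T.b (T.l 0) (T.l 816)) (T.b (T.b (T.b (T.l 204) (T.l 0)) (T.l 0)) (T.b (T.l 816) (T.l 880))))) (T.b (T.a (T.l 816) (T.a (T.b (T.l 816) (T.a (T.l 816) (T.l 816))) (T.b (T.b (T.l 816) (T.l 816)) (T.b (T.l 816) (T.l 816))))) (T.a (T.a (T.b (T.l 816) (T.l 816)) (T.a (T.l 816) (T.b (T.l 816) (T.a (T.l 816) (T.b (T.l 816) (T.l 816)))))) (T.a (T.b (T.a (T.b (T.l 816) (T.l 816)) (T.b (T.l 816) (T.l 816))) (T.a (T.c (T.b (T.l 816) (T.l 816)) (T.l 816)) (T.c (T.l 816) (T.l 816)))) (T.b (T.a (T.l 880) (T.l 880)) (T.a (T.c (T.l 816) (T.l 816)) (T.b (T.l 816) (T.l 880)))))))), by decide +kernel⟩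

def A012R_030 :
    ∃ t, chk3 (onCell 0 67108864 0 1073741824 335544320 67108864 (corT true 1 c0F cA012R gF0q0 gF3q1 gF0q2 gF1q2 true true)) t 1 1 1 = true :=
  ⟨(T.l 2), by decide +kernel⟩

def A012R_031 :
    ∃ t, chk3 (onCell 0 67108864 0 1073741824 335544320 67108864 (corT true 1 c0F cA012R gF0q0 gF3q1 gF1q2 gF2q2 true false)) t 1 1 1 = true :=
  ⟨(T.b (T.a (T.b (T.l 0) (T.l 0)) (T.a (T.b (T.l 0) (T.l 0)) (T.b (T.b (T.a (T.l 220) (T.l 204)) (T.l 0)) (T.b (T.l 0) (T.l 880))))) (T.b (T.a (T.l 816) (T.a (T.b (T.l 816) (T.a (T.l 816) (T.l 816))) (T.b (T.b (T.l 816) (T.l 816)) (T.b (T.l 816) (T.l 816))))) (T.a (T.a (T.b (T.l 816) (T.l 816)) (T.a (T.l 816) (T.b (T.l 816) (T.a (T.l 816) (T.b (T.l 816) (T.l 816)))))) (T.a (T.b (T.a (T.b (T.l 816) (T.l 816)) (T.b (T.l 816) (T.l 816))) (T.a (T.c (T.b (T.l 816) (T.l 816)) (T.l 816)) (T.c (T.l 816) (T.l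 816)))) (T.b (T.a (T.l 880) (T.l 880)) (T.a (T.c (T.l 816) (T.l 816)) (T.b (T.l 816) (T.l 880)))))))), by decide +kernel⟩

def A012R_040 :
    ∃ t, chk3 (onCell 0 67108864 0 1073741824 335544320 67108864 (corT true 1 c0F cA012R gF0q0 gF4q1 gF0q2 gF1q2 true true)) t 1 1 1 = true :=
  ⟨(T.l 2), by decide +kernel⟩

def A012R_041 :
    ∃ t, chk3 (onCell 0 67108864 0 1073741824 335544320 67108864 (corT true 1 c0F cA012R gF0q0 gF4q1 gF1q2 gF2q2 true false)) t 1 1 1 = true :=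
  ⟨(T.b (T.b (T.l 0) (T.b (T.l 816) (T.a (T.l 816) (T.a (T.l 816) (T.b (T.l 816) (T.l 816)))))) (T.b (T.a (T.l 816) (T.a (T.b (T.l 816) (T.a (T.l 816) (T.l 816))) (T.b (T.b (T.l 816) (T.l 816)) (T.b (T.l 816) (T.l 816))))) (T.a (T.a (T.b (T.l 816) (T.l 816)) (T.a (T.l 816) (T.b (T.l 816) (T.a (T.l 816) (T.b (T.l 816) (T.l 816)))))) (T.a (T.b (T.a (T.b (T.l 816) (T.l 816)) (T.b (T.l 816) (T.l 816))) (T.a (T.c (T.b (T.l 816) (T.l 816)) (T.l 816)) (T.c (T.l 816) (T.l 816)))) (T.b (T.a (T.b (T.l 816) (T.l 816)) (T.l 880)) (T.a (T.c (T.l 816) (T.l 816)) (T.b (T.l 816) (T.l 880)))))))), by decide +kernel⟩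

def A012R_120 :
    ∃ t, chk3 (onCell 0 67108864 0 1073741824 335544320 67108864 (corT true 1 c0F cA012R gF1q0 gF2q1 gF0q2 gF1q2 true true)) t 1 1 1 = true :=
  ⟨(T.b (T.b (T.l 1) (T.a (T.l 1) (T.b (T.l 1) (T.b (T.l 1) (T.l 816))))) (T.b (T.a (T.l 816) (T.a (T.b (T.l 816) (T.l 816)) (T.b (T.l 816) (T.l 816)))) (T.a (T.b (T.l 816) (T.a (T.l 816) (T.a (T.l 816) (T.l 816)))) (T.a (T.a (T.b (T.l 816) (T.l 816)) (T.b (T.l 816) (T.l 816))) (T.b (T.l 816) (T.l 816)))))), by decide +kernel⟩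

def A012R_121 :
    ∃ t, chk3 (onCell 0 67108864 0 1073741824 335544320 67108864 (corT true 1 c0F cA012R gF1q0 gF2q1 gF1q2 gF2q2 true false)) t 1 1 1 = true :=
  ⟨(T.l 1), by decide +kernel⟩

def A012R_130 :
    ∃ t, chk3 (onCell 0 67108864 0 1073741824 335544320 67108864 (corT true 1 c0F cA012R gF1q0 gF3q1 gF0q2 gF1q2 true true)) t 1 1 1 = true :=
  ⟨(T.b (T.b (T.l 1) (T.a (T.l 816) (T.b (T.l 1) (T.b (T.l 816) (T.l 816))))) (T.b (T.a (T.l 816) (T.b (T.a (T.l 816) (T.l 816)) (T.a (T.l 816) (T.l 816)))) (T.a (T.b (T.l 816) (T.a (T.l 816) (T.a (T.l 816) (T.l 816)))) (T.a (T.a (T.b (T.l 816) (T.l 816)) (T.l 880)) (T.b (T.l 816) (T.l 816)))))), by decide +kernel⟩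

def A012R_131 :
    ∃ t, chk3 (onCell 0 67108864 0 1073741824 335544320 67108864 (corT true 1 c0F cA012R gF1q0 gF3q1 gF1q2 gF2q2 true false)) t 1 1 1 = true :=
  ⟨(T.l 1), by decide +kernel⟩

def A012R_140 :
    ∃ t, chk3 (onCell 0 67108864 0 1073741824 335544320 67108864 (corT true 1 c0F cA012R gF1q0 gF4q1 gF0q2 gF1q2 true true)) t 1 1 1 = true :=
  ⟨(T.b (T.b (T.l 1) (T.a (T.l 816) (T.b (T.l 816) (T.a (T.l 816) (T.l 816))))) (T.a (T.a (T.l 816) (T.b (T.l 816) (T.a (T.l 816) (T.b (T.l 816) (T.l 816))))) (T.b (T.a (T.b (T.l 816) (T.l 816)) (T.b (T.l 816) (T.l 816))) (T.a (T.a (T.b (T.l 816) (T.l 816)) (T.l 816)) (T.b (T.l 816) (T.l 816)))))), by decide +kernel⟩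

def A012R_141 :
    ∃ t, chk3 (onCell 0 67108864 0 1073741824 335544320 67108864 (corT true 1 c0F cA012R gF1q0 gF4q1 gF1q2 gF2q2 true false)) t 1 1 1 = true :=
  ⟨(T.l 1), by decide +kernel⟩

def A022E_000 :
    ∃ t, chk3 (onCell 0 67108864 0 1073741824 335544320 67108864 (corT true 1 c0F cA022E gF0q0 gF0q2 gF0q2 gF1q2 true true)) t 1 1 1 = true :=
  ⟨(T.l 2), by decide +kernel⟩

def A022E_001 :
    ∃ t, chk3 (onCell 0 67108864 0 1073741824 335544320 67108864 (corT true 1 c0F cA022E gF0q0 gF0q2 gF1q2 gF2q2 true false)) t 1 1 1 = true :=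
  ⟨(T.b (T.b (T.a (T.a (T.b (T.c (T.b (T.l 204) (T.l 204)) (T.l 204)) (T.l 204)) (T.a (T.c (T.l 204) (T.l 204)) (T.b (T.a (T.l 204) (T.b (T.b (T.l 204) (T.l 204)) (T.l 204))) (T.l 204)))) (T.a (T.a (T.b (T.a (T.b (T.b (T.l 204) (T.l 204)) (T.l 204)) (T.b (T.l 204) (T.l 204))) (T.a (T.l 204) (T.b (T.l 204) (T.l 204)))) (T.b (T.a (T.b (T.l 204) (T.l 204)) (T.b (T.l 204) (T.l 204))) (T.b (T.l 204) (T.l 204)))) (T.b (T.a (T.b (T.b (T.l 204) (T.l 204)) (T.l 204)) (T.b (T.b (T.l 204) (T.l 204)) (T.l 204))) (T.a (T.b (T.l 204) (T.l 204)) (T.b (T.l 204) (T.l 204)))))) (T.a (T.a (T.l 0) (T.a (T.l 0) (T.l 0))) (T.a (T.a (T.l 0) (T.b (T.b (T.l 204) (T.l 204)) (T.l 204))) (T.b (T.a (T.b (T.l 204) (T.l 204)) (T.l 220)) (T.a (T.b (T.l 204) (T.l 204)) (T.l 16)))))) (T.b (T.b (T.a (T.a (T.l 0) (T.a (T.l 0) (T.l 0))) (T.a (T.l 0) (T.b (T.l 16) (T.l 0)))) (T.a (T.a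 (T.l 816) (T.a (T.l 816) (T.l 816))) (T.a (T.l 0) (T.l 0)))) (T.a (T.a (T.b (T.l 816) (T.c (T.l 816) (T.l 816))) (T.a (T.b (T.l 816) (T.l 816)) (T.b (T.l 816) (T.c (T.l 816) (T.l 816))))) (T.a (T.b (T.b (T.l 816) (T.l 816)) (T.a (T.b (T.l 816) (T.l 820)) (T.b (T.l 816) (T.l 816)))) (T.b (T.l 816) (T.c (T.l 880) (T.b (T.l 816) (T.l 816)))))))), by decide +kernel⟩

def A022E_010 :
    ∃ t, chk3 (onCell 0 67108864 0 1073741824 335544320 67108864 (corT true 1 c0F cA022E gF0q0 gF1q2 gF0q2 gF1q2 true true)) t 1 1 1 = true :=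
  ⟨(T.l 2), by decide +kernel⟩

def A022E_011 :
    ∃ t, chk3 (onCell 0 67108864 0 1073741824 335544320 67108864 (corT true 1 c0F cA022E gF0q0 gF1q2 gF1q2 gF2q2 true false)) t 1 1 1 = true :=
  ⟨(T.b (T.b (T.a (T.a (T.c (T.b (T.l 204) (T.l 204)) (T.l 204)) (T.a (T.c (T.l 204) (T.l 204)) (T.b (T.a (T.c (T.l 204) (T.l 204)) (T.b (T.c (T.b (T.l 204) (T.l 204)) (T.l 204)) (T.l 204))) (T.b (T.l 220) (T.l 204))))) (T.a (T.a (T.b (T.a (T.c (T.b (T.l 204) (T.l 204)) (T.l 220)) (T.c (T.b (T.l 204) (T.l 204)) (T.l 204))) (T.a (T.b (T.l 204) (T.l 204)) (T.b (T.l 204) (T.l 204)))) (T.b (T.c (T.b (T.a (T.l 204) (T.l 204)) (T.l 204)) (T.b (T.l 220) (T.l 204))) (T.c (T.l 220) (T.l 204)))) (T.b (T.a (T.c (T.b (T.b (T.l 204) (T.l 204)) (T.l 204)) (T.b (T.l 204) (T.l 204))) (T.c (T.b (T.l 204) (T.l 204)) (T.b (T.l 204) (T.l 204)))) (T.a (T.b (T.l 204) (T.l 204))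 (T.b (T.l 204) (T.l 204)))))) (T.a (T.a (T.l 0) (T.a (T.l 0) (T.l 0))) (T.a (T.a (T.l 0) (T.b (T.b (T.l 204) (T.l 204)) (T.l 0))) (T.b (T.a (T.l 204) (T.l 204)) (T.b (T.l 0) (T.l 0)))))) (T.b (T.a (T.a (T.l 0) (T.a (T.l 0) (T.l 0))) (T.a (T.l 0) (T.b (T.b (T.l 0) (T.l 0)) (T.l 0)))) (T.a (T.a (T.c (T.b (T.l 816) (T.l 816)) (T.l 816)) (T.a (T.b (T.l 816) (T.l 816)) (T.c (T.b (T.l 816) (T.l 816)) (T.l 816)))) (T.a (T.a (T.c (T.l 816) (T.l 816)) (T.b (T.l 816) (T.l 816))) (T.b (T.l 816) (T.c (T.l 816) (T.l 816))))))), by decide +kernel⟩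

def A022E_110 :
    ∃ t, chk3 (onCell 0 67108864 0 1073741824 335544320 67108864 (corT true 1 c0F cA022E gF1q0 gF1q2 gF0q2 gF1q2 true true)) t 1 1 1 = true :=
  ⟨(T.l 2), by decide +kernel⟩

def A022E_111 :
    ∃ t, chk3 (onCell 0 67108864 0 1073741824 335544320 67108864 (corT true 1 c0F cA022E gF1q0 gF1q2 gF1q2 gF2q2 true false)) t 1 1 1 = true :=
  ⟨(T.b (T.a (T.a (T.b (T.c (T.b (T.l 204) (T.l 0)) (T.l 0)) (T.l 816)) (T.b (T.a (T.c (T.b (T.l 204) (T.l 0)) (T.l 0)) (T.b (T.b (T.a (T.c (T.l 204) (T.l 204)) (T.c (T.b (T.l 204) (T.l 204)) (T.l 204))) (T.l 204)) (T.l 0))) (T.l 0))) (T.b (T.a (T.b (T.a (T.b (T.b (T.c (T.a (T.l 204) (T.l 204)) (T.b (T.l 204) (T.l 204))) (T.l 204)) (T.l 204)) (T.b (T.c (T.a (T.l 204) (T.l 204)) (T.l 220)) (T.l 204))) (T.l 0)) (T.b (T.b (T.a (T.c (T.b (T.l 204) (T.l 204)) (T.l 204)) (T.c (T.l 220) (T.l 204))) (T.l 204))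 (T.l 0))) (T.a (T.l 0) (T.l 0)))) (T.b (T.a (T.a (T.l 816) (T.l 816)) (T.b (T.l 0) (T.l 816))) (T.a (T.a (T.l 816) (T.l 816)) (T.l 816)))), by decide +kernel⟩

def A022L_003_1_4_1 :
    ∃ t, chk3 (onCell 0 67108864 0 1073741824 335544320 67108864 (corX 1 c0F cA022L tA022L gF0q0 gF0q2 gF3q2 gF4q2 gF4q2 false true)) t 1 4 1 = true :=
  ⟨(T.a (T.a (T.a (T.c (T.a (T.l 207) (T.l 207)) (T.b (T.l 207) (T.l 207))) (T.c (T.b (T.l 207) (T.l 207)) (T.b (T.l 207) (T.l 207)))) (T.a (T.c (T.b (T.l 207) (T.l 207)) (T.b (T.l 207) (T.l 207))) (T.b (T.a (T.c (T.l 207) (T.l 207)) (T.b (T.c (T.b (T.l 204) (T.l 207)) (T.l 204)) (T.l 223))) (T.c (T.l 207) (T.l 207))))) (T.a (T.b (T.a (T.a (T.c (T.b (T.b (T.l 204) (T.l 204)) (T.l 220)) (T.b (T.l 204) (T.l 204))) (T.c (T.b (T.l 204) (T.l 204)) (T.b (T.l 204) (T.l 204)))) (T.b (T.c (T.b (T.l 204) (T.l 204)) (T.l 204))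 (T.c (T.b (T.l 204) (T.l 204)) (T.l 204)))) (T.a (T.a (T.l 223) (T.c (T.b (T.l 204) (T.l 204)) (T.b (T.l 204) (T.l 204)))) (T.b (T.c (T.b (T.l 204) (T.l 204)) (T.l 220)) (T.c (T.b (T.l 220) (T.l 220)) (T.b (T.l 204) (T.l 204)))))) (T.b (T.a (T.b (T.c (T.l 220) (T.l 204)) (T.c (T.l 220) (T.l 204))) (T.b (T.b (T.l 204) (T.l 204)) (T.b (T.l 204) (T.l 204)))) (T.a (T.b (T.c (T.l 220) (T.l 204)) (T.c (T.l 220) (T.l 204))) (T.b (T.b (T.l 204) (T.l 204)) (T.b (T.l 204) (T.l 204))))))), by decide +kernel⟩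

def A022L_003_1_5_1 :
    ∃ t, chk3 (onCell 0 67108864 0 1073741824 335544320 67108864 (corX 1 c0F cA022L tA022L gF0q0 gF0q2 gF3q2 gF4q2 gF4q2 false true)) t 1 5 1 = true :=
  ⟨(T.a (T.a (T.a (T.c (T.a (T.l 207) (T.l 207)) (T.b (T.l 207) (T.l 207))) (T.c (T.b (T.l 207) (T.l 207)) (T.l 223))) (T.b (T.c (T.b (T.l 207) (T.l 207)) (T.l 223)) (T.c (T.b (T.l 207) (T.l 207)) (T.l 207)))) (T.a (T.b (T.a (T.b (T.l 207) (T.l 207)) (T.b (T.c (T.b (T.l 204) (T.l 204)) (T.b (T.l 204) (T.l 204))) (T.a (T.l 207) (T.b (T.l 220) (T.l 207))))) (T.b (T.l 223) (T.l 223))) (T.b (T.a (T.b (T.b (T.l 220) (T.l 220)) (T.c (T.b (T.l 204) (T.l 204)) (T.l 220))) (T.b (T.b (T.l 204) (T.l 220)) (T.b (T.l 220) (T.l 220)))) (T.b (T.a (T.c (T.b (T.l 204) (T.l 204)) (T.b (T.l 204) (T.l 204))) (T.b (T.l 220) (T.c (T.l 204) (T.l 204)))) (T.a (T.l 207) (T.b (T.c (T.l 204) (T.l 204))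 (T.c (T.l 204) (T.l 204)))))))), by decide +kernel⟩

def A022L_003_1_3_1 :
    ∃ t, chk3 (onCell 0 67108864 0 1073741824 335544320 67108864 (corX 1 c0F cA022L tA022L gF0q0 gF0q2 gF3q2 gF4q2 gF4q2 false true)) t 1 3 1 = true :=
  ⟨(T.b (T.a (T.a (T.a (T.c (T.a (T.l 207) (T.l 207)) (T.b (T.l 207) (T.l 207))) (T.c (T.b (T.l 207) (T.l 207)) (T.l 207))) (T.a (T.c (T.l 223) (T.l 207)) (T.b (T.l 223) (T.l 207)))) (T.b (T.a (T.b (T.l 223) (T.l 207)) (T.b (T.a (T.l 207) (T.b (T.c (T.l 220) (T.l 204)) (T.l 207))) (T.l 207))) (T.a (T.l 223) (T.l 223)))) (T.l 2)), by decide +kernel⟩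

theorem A022L_003_1_2_1 :
    ∃ t, chk3 (onCell 0 67108864 0 1073741824 335544320 67108864 (corX 1 c0F cA022L tA022L gF0q0 gF0q2 gF3q2 gF4q2 gF4q2 false true)) t 1 2 1 = true :=
  ex3_b A022L_003_1_4_1 A022L_003_1_5_1
theorem A022L_003 :
    ∃ t, chk3 (onCell 0 67108864 0 1073741824 335544320 67108864 (corX 1 c0F cA022L tA022L gF0q0 gF0q2 gF3q2 gF4q2 gF4q2 false true)) t 1 1 1 = true :=
  ex3_b A022L_003_1_2_1 A022L_003_1_3_1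

def A022L_013 :
    ∃ t, chk3 (onCell 0 67108864 0 1073741824 335544320 67108864 (corT true 1 c0F cA022L gF0q0 gF1q2 gF3q2 gF4q2 false true)) t 1 1 1 = true :=
  ⟨(T.b (T.b (T.b (T.a (T.a (T.l 204) (T.a (T.l 204) (T.l 204))) (T.a (T.l 204) (T.l 204))) (T.a (T.l 204) (T.a (T.l 0) (T.l 204)))) (T.l 2)) (T.l 2)), by decide +kernel⟩

def A022L_113 :
    ∃ t, chk3 (onCell 0 67108864 0 1073741824 335544320 67108864 (corT true 1 c0F cA022L gF1q0 gF1q2 gF3q2 gF4q2 false true)) t 1 1 1 = true :=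
  ⟨(T.b (T.b (T.b (T.a (T.a (T.l 0) (T.a (T.l 204) (T.l 0))) (T.a (T.l 0) (T.l 0))) (T.l 2)) (T.l 2)) (T.l 2)), by decide +kernel⟩

def A022R_040 :
    ∃ t, chk3 (onCell 0 67108864 0 1073741824 335544320 67108864 (corT true 1 c0F cA022R gF0q0 gF4q2 gF0q2 gF1q2 true true)) t 1 1 1 = true :=
  ⟨(T.l 2), by decide +kernel⟩

def A022R_041 :
    ∃ t, chk3 (onCell 0 67108864 0 1073741824 335544320 67108864 (corT true 1 c0F cA022R gF0q0 gF4q2 gF1q2 gF2q2 true false)) t 1 1 1 = true :=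
  ⟨(T.a (T.a (T.b (T.l 0) (T.b (T.l 816) (T.l 816))) (T.b (T.b (T.l 0) (T.l 0)) (T.a (T.b (T.l 816) (T.l 816)) (T.c (T.l 880) (T.l 816))))) (T.b (T.a (T.l 0) (T.l 0)) (T.a (T.b (T.l 816) (T.b (T.l 816) (T.c (T.l 880) (T.l 816)))) (T.b (T.l 816) (T.c (T.l 816) (T.l 816)))))), by decide +kernel⟩

def A022R_140 :
    ∃ t, chk3 (onCell 0 67108864 0 1073741824 335544320 67108864 (corT true 1 c0F cA022R gF1q0 gF4q2 gF0q2 gF1q2 true true)) t 1 1 1 = true :=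
  ⟨(T.b (T.b (T.a (T.a (T.l 0) (T.l 2)) (T.l 2)) (T.a (T.a (T.l 816) (T.a (T.l 816) (T.l 816))) (T.a (T.l 0) (T.l 816)))) (T.b (T.a (T.a (T.l 816) (T.c (T.l 0) (T.l 0))) (T.a (T.l 816) (T.l 816))) (T.a (T.a (T.l 816) (T.b (T.l 880) (T.l 816))) (T.a (T.l 816) (T.l 816))))), by decide +kernel⟩

def A022R_141 :
    ∃ t, chk3 (onCell 0 67108864 0 1073741824 335544320 67108864 (corT true 1 c0F cA022R gF1q0 gF4q2 gF1q2 gF2q2 true false)) t 1 1 1 = true :=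
  ⟨(T.b (T.a (T.a (T.l 0) (T.l 256)) (T.b (T.l 0) (T.l 816))) (T.a (T.l 1) (T.l 816))), by decide +kernel⟩

def A101E_000 :
    ∃ t, chk3 (onCell 0 67108864 0 1073741824 335544320 67108864 (corT true 1 c0F cA101E gF0q1 gF0q0 gF0q1 gF1q1 true false)) t 1 1 1 = true :=
  ⟨(T.l 1), by decide +kernel⟩

def A101E_010 :
    ∃ t, chk3 (onCell 0 67108864 0 1073741824 335544320 67108864 (corT true 1 c0F cA101E gF0q1 gF1q0 gF0q1 gF1q1 true false)) t 1 1 1 = true :=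
  ⟨(T.l 1), by decide +kernel⟩

def A101R_001 :
    ∃ t, chk3 (onCell 0 67108864 0 1073741824 335544320 67108864 (corT true 1 c0F cA101R gF0q1 gF0q0 gF1q1 gF2q1 false true)) t 1 1 1 = true :=
  ⟨(T.l 2), by decide +kernel⟩

def A101R_002 :
    ∃ t, chk3 (onCell 0 67108864 0 1073741824 335544320 67108864 (corT true 1 c0F cA101R gF0q1 gF0q0 gF2q1 gF3q1 true true)) t 1 1 1 = true :=
  ⟨(T.l 2), by decide +kernel⟩

def A101R_003 :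
    ∃ t, chk3 (onCell 0 67108864 0 1073741824 335544320 67108864 (corT true 1 c0F cA101R gF0q1 gF0q0 gF3q1 gF4q1 true true)) t 1 1 1 = true :=
  ⟨(T.l 2), by decide +kernel⟩

def A101R_011 :
    ∃ t, chk3 (onCell 0 67108864 0 1073741824 335544320 67108864 (corT true 1 c0F cA101R gF0q1 gF1q0 gF1q1 gF2q1 false true)) t 1 1 1 = true :=
  ⟨(T.l 2), by decide +kernel⟩

def A101R_012 :
    ∃ t, chk3 (onCell 0 67108864 0 1073741824 335544320 67108864 (corT true 1 c0F cA101R gF0q1 gF1q0 gF2q1 gF3q1 true true)) t 1 1 1 = true :=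
  ⟨(T.l 2), by decide +kernel⟩

def A101R_013 :
    ∃ t, chk3 (onCell 0 67108864 0 1073741824 335544320 67108864 (corT true 1 c0F cA101R gF0q1 gF1q0 gF3q1 gF4q1 true true)) t 1 1 1 = true :=
  ⟨(T.l 2), by decide +kernel⟩

def A102E_000_1_4_1 :
    ∃ t, chk3 (onCell 0 67108864 0 1073741824 335544320 67108864 (corX 1 c0F cA102E tA102E gF0q1 gF0q0 gF0q2 gF1q2 gF0q2 true true)) t 1 4 1 = true :=
  ⟨(T.l 2), by decide +kernel⟩

def A102E_000_2_5_1 :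
    ∃ t, chk3 (onCell 0 67108864 0 1073741824 335544320 67108864 (corX 1 c0F cA102E tA102E gF0q1 gF0q0 gF0q2 gF1q2 gF0q2 true true)) t 2 5 1 = true :=
  ⟨(T.b (T.a (T.a (T.c (T.b (T.l 207) (T.l 207)) (T.b (T.l 207) (T.l 207))) (T.c (T.a (T.l 207) (T.l 463)) (T.b (T.l 463) (T.l 207)))) (T.a (T.c (T.a (T.l 463) (T.b (T.l 207) (T.l 207))) (T.b (T.b (T.l 2) (T.l 207)) (T.l 463))) (T.c (T.b (T.b (T.l 2) (T.l 463)) (T.b (T.l 207) (T.l 207))) (T.b (T.b (T.l 2) (T.l 463)) (T.b (T.l 207) (T.l 207)))))) (T.b (T.a (T.a (T.c (T.l 207) (T.l 207)) (T.c (T.l 207) (T.l 207))) (T.a (T.c (T.l 463) (T.l 463)) (T.c (T.l 463) (T.l 479)))) (T.a (T.a (T.c (T.l 207) (T.l 207)) (T.c (T.l 207) (T.l 207))) (T.a (T.c (T.l 207) (T.l 207)) (T.c (T.l 223) (T.l 479)))))), by decide +kernel⟩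

def A102E_000_3_20_1 :
    ∃ t, chk3 (onCell 0 67108864 0 1073741824 335544320 67108864 (corX 1 c0F cA102E tA102E gF0q1 gF0q0 gF0q2 gF1q2 gF0q2 true true)) t 3 20 1 = true :=
  ⟨(T.b (T.l 2) (T.b (T.a (T.a (T.c (T.l 207) (T.l 463)) (T.l 2)) (T.l 2)) (T.b (T.a (T.a (T.c (T.l 207) (T.l 207)) (T.a (T.c (T.l 207) (T.l 463)) (T.c (T.a (T.l 460) (T.l 204)) (T.a (T.l 460) (T.l 460))))) (T.b (T.a (T.a (T.c (T.l 460) (T.c (T.l 460) (T.l 460))) (T.l 2)) (T.l 2)) (T.a (T.a (T.c (T.l 460) (T.c (T.l 460) (T.l 460))) (T.c (T.l 460) (T.c (T.l 460) (T.l 460)))) (T.b (T.l 2) (T.a (T.c (T.l 460) (T.l 460)) (T.c (T.l 460) (T.l 460))))))) (T.a (T.a (T.c (T.l 207) (T.l 207)) (T.a (T.c (T.l 207) (T.l 207)) (T.c (T.a (T.l 460) (T.l 460)) (T.a (T.l 460) (T.l 460))))) (T.a (T.a (T.c (T.c (T.l 460) (T.l 460)) (T.c (T.l 460) (T.l 460))) (T.c (T.c (T.l 460) (T.l 460)) (T.c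 (T.l 460) (T.l 460)))) (T.a (T.c (T.c (T.l 460) (T.l 460)) (T.c (T.l 460) (T.l 460))) (T.c (T.l 460) (T.c (T.l 460) (T.l 460))))))))), by decide +kernel⟩

def A102E_000_3_21_1 :
    ∃ t, chk3 (onCell 0 67108864 0 1073741824 335544320 67108864 (corX 1 c0F cA102E tA102E gF0q1 gF0q0 gF0q2 gF1q2 gF0q2 true true)) t 3 21 1 = true :=
  ⟨(T.a (T.a (T.c (T.b (T.l 463) (T.l 207)) (T.b (T.l 463) (T.l 463))) (T.a (T.c (T.l 463) (T.l 463)) (T.b (T.a (T.c (T.l 207) (T.l 463)) (T.c (T.b (T.l 460) (T.l 460)) (T.b (T.c (T.l 460) (T.l 460)) (T.c (T.l 460) (T.l 460))))) (T.c (T.l 463) (T.l 463))))) (T.a (T.a (T.b (T.c (T.a (T.b (T.l 460) (T.l 460)) (T.b (T.l 460) (T.l 460))) (T.a (T.b (T.l 460) (T.c (T.l 460) (T.l 460))) (T.b (T.l 460) (T.l 460)))) (T.c (T.a (T.b (T.l 476) (T.l 476)) (T.b (T.l 460) (T.l 476))) (T.a (T.b (T.c (T.l 204) (T.l 460)) (T.c (T.l 204) (T.l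 460))) (T.b (T.l 476) (T.c (T.l 204) (T.l 460)))))) (T.b (T.c (T.a (T.b (T.l 460) (T.l 460)) (T.b (T.l 460) (T.l 460))) (T.a (T.b (T.l 460) (T.l 460)) (T.b (T.l 460) (T.l 476)))) (T.c (T.b (T.c (T.l 460) (T.l 476)) (T.c (T.l 476) (T.l 476))) (T.b (T.a (T.l 476) (T.l 476)) (T.a (T.l 476) (T.l 476)))))) (T.b (T.a (T.c (T.b (T.c (T.l 460) (T.l 460)) (T.c (T.l 460) (T.l 460))) (T.b (T.a (T.l 460) (T.l 460)) (T.a (T.l 476) (T.l 476)))) (T.c (T.b (T.c (T.l 460) (T.l 460)) (T.c (T.l 460) (T.l 460))) (T.b (T.a (T.l 460) (T.l 460)) (T.a (T.l 476) (T.l 476))))) (T.a (T.c (T.b (T.c (T.l 460) (T.l 476)) (T.c (T.l 476) (T.l 476))) (T.b (T.b (T.l 476) (T.l 476)) (T.b (T.l 476) (T.l 476)))) (T.c (T.b (T.c (T.l 460) (T.l 476)) (T.c (T.l 476) (T.l 476))) (T.b (T.b (T.l 476) (T.l 476)) (T.c (T.l 476) (T.l 476)))))))), by decide +kernel⟩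

def A102E_000_6_11_1 :
    ∃ t, chk3 (onCell 0 67108864 0 1073741824 335544320 67108864 (corX 1 c0F cA102E tA102E gF0q1 gF0q0 gF0q2 gF1q2 gF0q2 true true)) t 6 11 1 = true :=
  ⟨(T.b (T.a (T.c (T.l 479) (T.b (T.l 207) (T.l 207))) (T.c (T.b (T.l 207) (T.l 223)) (T.b (T.l 479) (T.l 223)))) (T.b (T.c (T.a (T.l 207) (T.l 223)) (T.a (T.l 223) (T.l 223))) (T.c (T.a (T.l 207) (T.l 223)) (T.a (T.l 223) (T.l 223))))), by decide +kernel⟩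

def A102E_000_7_22_1 :
    ∃ t, chk3 (onCell 0 67108864 0 1073741824 335544320 67108864 (corX 1 c0F cA102E tA102E gF0q1 gF0q0 gF0q2 gF1q2 gF0q2 true true)) t 7 22 1 = true :=
  ⟨(T.a (T.b (T.a (T.a (T.c (T.l 207) (T.l 207)) (T.b (T.c (T.l 476) (T.c (T.l 204) (T.l 476))) (T.l 479))) (T.c (T.a (T.b (T.l 476) (T.c (T.l 204) (T.l 220))) (T.b (T.l 220) (T.l 220))) (T.a (T.b (T.c (T.l 204) (T.l 476)) (T.c (T.l 220) (T.l 476))) (T.b (T.l 476) (T.l 476))))) (T.a (T.c (T.l 223) (T.l 479)) (T.c (T.b (T.a (T.c (T.l 220) (T.l 220)) (T.c (T.l 220) (T.l 220))) (T.a (T.l 207) (T.c (T.l 220) (T.l 220)))) (T.b (T.a (T.c (T.l 220) (T.l 476)) (T.c (T.l 220) (T.l 476))) (T.a (T.l 207) (T.b (T.l 476) (T.l 476))))))) (T.b (T.a (T.c (T.b (T.c (T.l 476) (T.l 476)) (T.b (T.l 476) (T.l 476))) (T.b (T.a (T.l 476) (T.l 476)) (T.a (T.l 476) (T.l 476)))) (T.c (T.b (T.c (T.l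 476) (T.l 476)) (T.c (T.l 476) (T.l 476))) (T.b (T.b (T.l 476) (T.l 476)) (T.a (T.l 476) (T.l 476))))) (T.a (T.b (T.c (T.a (T.l 220) (T.l 220)) (T.a (T.c (T.l 220) (T.l 220)) (T.c (T.l 220) (T.l 220)))) (T.c (T.a (T.c (T.l 220) (T.l 220)) (T.c (T.l 220) (T.l 220))) (T.a (T.b (T.l 476) (T.l 476)) (T.c (T.l 220) (T.l 220))))) (T.b (T.c (T.a (T.l 220) (T.l 220)) (T.a (T.c (T.l 220) (T.l 220)) (T.c (T.l 220) (T.l 220)))) (T.c (T.a (T.c (T.l 220) (T.l 220)) (T.c (T.l 220) (T.l 220))) (T.a (T.c (T.l 220) (T.l 220)) (T.c (T.l 220) (T.l 220)))))))), by decide +kernel⟩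

def A102E_000_14_23_1 :
    ∃ t, chk3 (onCell 0 67108864 0 1073741824 335544320 67108864 (corX 1 c0F cA102E tA102E gF0q1 gF0q0 gF0q2 gF1q2 gF0q2 true true)) t 14 23 1 = true :=
  ⟨(T.b (T.a (T.c (T.l 207) (T.l 223)) (T.c (T.l 223) (T.l 479))) (T.c (T.l 223) (T.l 223))), by decide +kernel⟩

def A102E_000_15_46_1 :
    ∃ t, chk3 (onCell 0 67108864 0 1073741824 335544320 67108864 (corX 1 c0F cA102E tA102E gF0q1 gF0q0 gF0q2 gF1q2 gF0q2 true true)) t 15 46 1 = true :=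
  ⟨(T.a (T.b (T.c (T.a (T.b (T.l 220) (T.c (T.l 220) (T.l 220))) (T.b (T.l 220) (T.c (T.l 220) (T.l 220)))) (T.a (T.c (T.b (T.l 220) (T.l 220)) (T.b (T.l 220) (T.l 220))) (T.b (T.l 220) (T.c (T.l 220) (T.l 220))))) (T.a (T.c (T.l 207) (T.l 223)) (T.c (T.b (T.c (T.l 220) (T.l 220)) (T.c (T.l 220) (T.l 220))) (T.b (T.c (T.l 220) (T.l 220)) (T.c (T.l 220) (T.l 220)))))) (T.b (T.c (T.a (T.c (T.l 220) (T.l 220)) (T.c (T.l 220) (T.l 220))) (T.a (T.b (T.l 220) (T.l 220)) (T.b (T.l 220) (T.l 220)))) (T.c (T.a (T.b (T.l 220) (T.c (T.l 220) (T.l 220))) (T.b (T.l 220) (T.c (T.l 220) (T.l 220)))) (T.a (T.b (T.c (T.l 220) (T.l 220)) (T.c (T.l 220) (T.l 220))) (T.b (T.c (T.l 220) (T.l 220)) (T.c (T.l 220) (T.l 220))))))), by decide +kernel⟩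

def A102E_000_15_47_1 :
    ∃ t, chk3 (onCell 0 67108864 0 1073741824 335544320 67108864 (corX 1 c0F cA102E tA102E gF0q1 gF0q0 gF0q2 gF1q2 gF0q2 true true)) t 15 47 1 = true :=
  ⟨(T.a (T.c (T.b (T.l 223) (T.l 223)) (T.b (T.l 223) (T.l 223))) (T.b (T.c (T.a (T.b (T.c (T.l 220) (T.l 220)) (T.c (T.c (T.l 220) (T.l 220)) (T.c (T.l 220) (T.l 220)))) (T.b (T.c (T.l 220) (T.l 220)) (T.c (T.l 220) (T.l 220)))) (T.a (T.b (T.c (T.l 220) (T.c (T.l 220) (T.l 220))) (T.c (T.c (T.l 220) (T.l 220)) (T.c (T.l 220) (T.l 220)))) (T.b (T.c (T.l 220) (T.l 220)) (T.c (T.l 220) (T.l 220))))) (T.c (T.a (T.b (T.b (T.c (T.l 220) (T.l 220)) (T.l 223)) (T.l 223)) (T.b (T.c (T.a (T.l 220) (T.l 220)) (T.b (T.l 220) (T.l 220))) (T.c (T.b (T.c (T.l 220) (T.l 220)) (T.c (T.l 220) (T.l 220))) (T.b (T.c (T.l 220) (T.l 220)) (T.c (T.l 220) (T.l 220)))))) (T.a (T.b (T.b (T.c (T.l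 220) (T.l 220)) (T.l 223)) (T.l 223)) (T.b (T.c (T.b (T.l 220) (T.l 220)) (T.b (T.l 220) (T.l 220))) (T.c (T.b (T.c (T.l 220) (T.l 220)) (T.c (T.l 220) (T.l 220))) (T.b (T.c (T.l 220) (T.l 220)) (T.c (T.l 220) (T.l 220))))))))), by decide +kernel⟩

def A102E_000_1_3_1 :
    ∃ t, chk3 (onCell 0 67108864 0 1073741824 335544320 67108864 (corX 1 c0F cA102E tA102E gF0q1 gF0q0 gF0q2 gF1q2 gF0q2 true true)) t 1 3 1 = true :=
  ⟨(T.b (T.b (T.b (T.b (T.a (T.b (T.a (T.c (T.l 207) (T.l 207)) (T.c (T.l 223) (T.l 223))) (T.l 1)) (T.a (T.c (T.a (T.l 223) (T.l 223)) (T.a (T.l 223) (T.l 223))) (T.a (T.c (T.b (T.l 223) (T.l 223)) (T.b (T.l 223) (T.l 223))) (T.b (T.a (T.c (T.l 223) (T.l 223)) (T.b (T.c (T.a (T.l 223) (T.b (T.a (T.l 223) (T.c (T.l 220) (T.l 220))) (T.l 223))) (T.a (T.l 223) (T.b (T.a (T.l 223) (T.c (T.l 220) (T.l 220))) (T.l 223)))) (T.c (T.l 223)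 (T.l 223)))) (T.b (T.c (T.a (T.l 223) (T.l 223)) (T.c (T.l 223) (T.l 223))) (T.c (T.c (T.l 223) (T.l 223)) (T.l 223))))))) (T.l 1)) (T.l 1)) (T.l 1)) (T.l 1)), by decide +kernel⟩

theorem A102E_000_15_23_1 :
    ∃ t, chk3 (onCell 0 67108864 0 1073741824 335544320 67108864 (corX 1 c0F cA102E tA102E gF0q1 gF0q0 gF0q2 gF1q2 gF0q2 true true)) t 15 23 1 = true :=
  ex3_b A102E_000_15_46_1 A102E_000_15_47_1
theorem A102E_000_7_23_1 :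
    ∃ t, chk3 (onCell 0 67108864 0 1073741824 335544320 67108864 (corX 1 c0F cA102E tA102E gF0q1 gF0q0 gF0q2 gF1q2 gF0q2 true true)) t 7 23 1 = true :=
  ex3_a A102E_000_14_23_1 A102E_000_15_23_1
theorem A102E_000_7_11_1 :
    ∃ t, chk3 (onCell 0 67108864 0 1073741824 335544320 67108864 (corX 1 c0F cA102E tA102E gF0q1 gF0q0 gF0q2 gF1q2 gF0q2 true true)) t 7 11 1 = true :=
  ex3_b A102E_000_7_22_1 A102E_000_7_23_1
theorem A102E_000_3_11_1 :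
    ∃ t, chk3 (onCell 0 67108864 0 1073741824 335544320 67108864 (corX 1 c0F cA102E tA102E gF0q1 gF0q0 gF0q2 gF1q2 gF0q2 true true)) t 3 11 1 = true :=
  ex3_a A102E_000_6_11_1 A102E_000_7_11_1
theorem A102E_000_3_10_1 :
    ∃ t, chk3 (onCell 0 67108864 0 1073741824 335544320 67108864 (corX 1 c0F cA102E tA102E gF0q1 gF0q0 gF0q2 gF1q2 gF0q2 true true)) t 3 10 1 = true :=
  ex3_b A102E_000_3_20_1 A102E_000_3_21_1
theorem A102E_000_3_5_1 :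
    ∃ t, chk3 (onCell 0 67108864 0 1073741824 335544320 67108864 (corX 1 c0F cA102E tA102E gF0q1 gF0q0 gF0q2 gF1q2 gF0q2 true true)) t 3 5 1 = true :=
  ex3_b A102E_000_3_10_1 A102E_000_3_11_1
theorem A102E_000_1_5_1 :
    ∃ t, chk3 (onCell 0 67108864 0 1073741824 335544320 67108864 (corX 1 c0F cA102E tA102E gF0q1 gF0q0 gF0q2 gF1q2 gF0q2 true true)) t 1 5 1 = true :=
  ex3_a A102E_000_2_5_1 A102E_000_3_5_1
theorem A102E_000_1_2_1 :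
    ∃ t, chk3 (onCell 0 67108864 0 1073741824 335544320 67108864 (corX 1 c0F cA102E tA102E gF0q1 gF0q0 gF0q2 gF1q2 gF0q2 true true)) t 1 2 1 = true :=
  ex3_b A102E_000_1_4_1 A102E_000_1_5_1
theorem A102E_000 :
    ∃ t, chk3 (onCell 0 67108864 0 1073741824 335544320 67108864 (corX 1 c0F cA102E tA102E gF0q1 gF0q0 gF0q2 gF1q2 gF0q2 true true)) t 1 1 1 = true :=
  ex3_b A102E_000_1_2_1 A102E_000_1_3_1

def A102E_001_1_4_1 :
    ∃ t, chk3 (onCell 0 67108864 0 1073741824 335544320 67108864 (corT true 1 c0F cA102E gF0q1 gF0q0 gF1q2 gF2q2 true false)) t 1 4 1 = true :=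
  ⟨(T.a (T.a (T.b (T.c (T.b (T.l 204) (T.l 204)) (T.b (T.l 204) (T.l 204))) (T.c (T.b (T.l 204) (T.l 204)) (T.b (T.l 204) (T.l 204)))) (T.a (T.b (T.c (T.l 204) (T.l 204)) (T.c (T.b (T.l 204) (T.l 204)) (T.b (T.l 204) (T.l 204)))) (T.b (T.b (T.a (T.l 204) (T.b (T.l 204) (T.l 204))) (T.l 204)) (T.c (T.b (T.l 204) (T.l 204)) (T.b (T.l 204) (T.l 204)))))) (T.a (T.b (T.a (T.b (T.c (T.b (T.l 204) (T.l 204)) (T.l 220)) (T.c (T.b (T.l 204) (T.l 204)) (T.b (T.l 204) (T.l 204)))) (T.b (T.c (T.l 204) (T.l 204)) (T.c (T.l 204) (T.l 220)))) (T.a (T.b (T.c (T.b (T.l 204) (T.l 460)) (T.b (T.l 204) (T.l 204))) (T.a (T.b (T.l 204) (T.l 204)) (T.c (T.l 460) (T.l 460)))) (T.b (T.c (T.b (T.l 204) (T.l 204)) (T.b (T.l 204) (T.l 204))) (T.c (T.b (T.l 204) (T.l 460)) (T.b (T.l 204) (T.l 476)))))) (T.b (T.b (T.a (T.c (T.l 204) (T.l 204)) (T.c (T.l 204) (T.l 204))) (T.a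 (T.c (T.l 204) (T.l 220)) (T.c (T.l 204) (T.l 220)))) (T.b (T.a (T.c (T.l 476) (T.b (T.l 204) (T.l 204))) (T.c (T.l 220) (T.b (T.l 204) (T.l 204)))) (T.a (T.c (T.b (T.l 204) (T.l 204)) (T.b (T.l 204) (T.l 204))) (T.c (T.b (T.l 204) (T.l 204)) (T.b (T.l 204) (T.l 220)))))))), by decide +kernel⟩

def A102E_001_1_5_1 :
    ∃ t, chk3 (onCell 0 67108864 0 1073741824 335544320 67108864 (corT true 1 c0F cA102E gF0q1 gF0q0 gF1q2 gF2q2 true false)) t 1 5 1 = true :=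
  ⟨(T.b (T.b (T.a (T.c (T.b (T.l 460) (T.a (T.l 204) (T.l 204))) (T.b (T.l 460) (T.a (T.l 204) (T.l 460)))) (T.a (T.a (T.c (T.l 460) (T.b (T.l 204) (T.l 460))) (T.c (T.b (T.b (T.l 204) (T.l 460)) (T.a (T.b (T.l 204) (T.l 460)) (T.l 460))) (T.b (T.a (T.l 204) (T.l 204)) (T.a (T.b (T.l 460) (T.l 460)) (T.b (T.l 204) (T.l 460)))))) (T.a (T.b (T.c (T.b (T.l 204) (T.l 460)) (T.b (T.l 204) (T.l 460))) (T.c (T.a (T.l 460) (T.l 460)) (T.a (T.b (T.l 204) (T.l 460)) (T.b (T.l 204) (T.l 460))))) (T.b (T.c (T.l 460) (T.l 476)) (T.c (T.a (T.l 460) (T.l 460)) (T.b (T.l 460) (T.c (T.l 460) (T.l 460)))))))) (T.l 1)) (T.l 1)), by decide +kernel⟩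

def A102E_001_1_3_1 :
    ∃ t, chk3 (onCell 0 67108864 0 1073741824 335544320 67108864 (corT true 1 c0F cA102E gF0q1 gF0q0 gF1q2 gF2q2 true false)) t 1 3 1 = true :=
  ⟨(T.l 1), by decide +kernel⟩

theorem A102E_001_1_2_1 :
    ∃ t, chk3 (onCell 0 67108864 0 1073741824 335544320 67108864 (corT true 1 c0F cA102E gF0q1 gF0q0 gF1q2 gF2q2 true false)) t 1 2 1 = true :=
  ex3_b A102E_001_1_4_1 A102E_001_1_5_1
theorem A102E_001 :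
    ∃ t, chk3 (onCell 0 67108864 0 1073741824 335544320 67108864 (corT true 1 c0F cA102E gF0q1 gF0q0 gF1q2 gF2q2 true false)) t 1 1 1 = true :=
  ex3_b A102E_001_1_2_1 A102E_001_1_3_1

def A102E_010 :
    ∃ t, chk3 (onCell 0 67108864 0 1073741824 335544320 67108864 (corT true 1 c0F cA102E gF0q1 gF1q0 gF0q2 gF1q2 true true)) t 1 1 1 = true :=
  ⟨(T.b (T.l 2) (T.b (T.b (T.l 2) (T.a (T.l 204) (T.a (T.l 204) (T.l 204)))) (T.b (T.a (T.l 204) (T.b (T.a (T.l 204) (T.l 204)) (T.l 1))) (T.l 1)))), by decide +kernel⟩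

def A102E_011 :
    ∃ t, chk3 (onCell 0 67108864 0 1073741824 335544320 67108864 (corT true 1 c0F cA102E gF0q1 gF1q0 gF1q2 gF2q2 true false)) t 1 1 1 = true :=
  ⟨(T.b (T.b (T.a (T.a (T.l 204) (T.l 204)) (T.b (T.l 204) (T.l 204))) (T.a (T.l 204) (T.b (T.l 204) (T.l 204)))) (T.b (T.a (T.l 204) (T.b (T.b (T.l 204) (T.l 204)) (T.b (T.l 204) (T.l 716)))) (T.l 1))), by decide +kernel⟩

def A102R_003 :
    ∃ t, chk3 (onCell 0 67108864 0 1073741824 335544320 67108864 (corT true 1 c0F cA102R gF0q1 gF0q0 gF3q2 gF4q2 false true)) t 1 1 1 = true :=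
  ⟨(T.l 2), by decide +kernel⟩

def A102R_013 :
    ∃ t, chk3 (onCell 0 67108864 0 1073741824 335544320 67108864 (corT true 1 c0F cA102R gF0q1 gF1q0 gF3q2 gF4q2 false true)) t 1 1 1 = true :=
  ⟨(T.l 2), by decide +kernel⟩

def A202E_000 :
    ∃ t, chk3 (onCell 0 67108864 0 1073741824 335544320 67108864 (corT true 1 c0F cA202E gF0q2 gF0q0 gF0q2 gF1q2 true true)) t 1 1 1 = true :=
  ⟨(T.l 2), by decide +kernel⟩

def A202E_001 :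
    ∃ t, chk3 (onCell 0 67108864 0 1073741824 335544320 67108864 (corT true 1 c0F cA202E gF0q2 gF0q0 gF1q2 gF2q2 true false)) t 1 1 1 = true :=
  ⟨(T.b (T.b (T.a (T.a (T.b (T.c (T.l 204) (T.l 204)) (T.l 204)) (T.a (T.b (T.l 204) (T.l 204)) (T.b (T.c (T.l 204) (T.l 204)) (T.l 204)))) (T.a (T.b (T.a (T.b (T.l 460) (T.l 204)) (T.b (T.l 204) (T.l 204))) (T.b (T.l 460) (T.l 204))) (T.b (T.b (T.c (T.l 204) (T.l 204)) (T.l 204)) (T.l 204)))) (T.b (T.a (T.a (T.l 204) (T.a (T.l 204) (T.l 204))) (T.a (T.l 0) (T.l 0))) (T.a (T.a (T.l 0) (T.a (T.l 0) (T.l 0))) (T.a (T.l 0) (T.a (T.l 0) (T.l 64)))))) (T.b (T.a (T.a (T.b (T.l 0) (T.l 0)) (T.a (T.l 0) (T.b (T.l 0) (T.l 816)))) (T.a (T.a (T.l 0) (T.b (T.l 816) (T.b (T.l 816) (T.l 816)))) (T.b (T.a (T.b (T.l 816) (T.l 816)) (T.b (T.l 816) (T.l 816))) (T.a (T.b (T.l 816) (T.l 816)) (T.b (T.l 816) (T.l 816))))))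 (T.a (T.a (T.b (T.b (T.l 816) (T.l 816)) (T.c (T.a (T.l 816) (T.l 816)) (T.b (T.l 816) (T.l 816)))) (T.a (T.b (T.l 816) (T.b (T.l 816) (T.l 816))) (T.b (T.b (T.l 816) (T.l 816)) (T.a (T.l 816) (T.b (T.l 816) (T.c (T.l 816) (T.l 816))))))) (T.a (T.a (T.b (T.a (T.l 816) (T.b (T.l 816) (T.l 816))) (T.a (T.b (T.l 816) (T.b (T.l 816) (T.l 816))) (T.b (T.l 816) (T.l 816)))) (T.b (T.a (T.b (T.l 816) (T.l 816)) (T.l 880)) (T.a (T.b (T.l 816) (T.l 816)) (T.b (T.l 816) (T.l 816))))) (T.b (T.a (T.b (T.l 816) (T.l 816)) (T.b (T.l 816) (T.l 816))) (T.a (T.b (T.b (T.l 816) (T.l 816)) (T.c (T.l 816) (T.l 816))) (T.b (T.b (T.l 816) (T.l 816)) (T.b (T.l 816) (T.l 880))))))))), by decide +kernel⟩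

def A202E_010 :
    ∃ t, chk3 (onCell 0 67108864 0 1073741824 335544320 67108864 (corT true 1 c0F cA202E gF0q2 gF1q0 gF0q2 gF1q2 true true)) t 1 1 1 = true :=
  ⟨(T.l 2), by decide +kernel⟩

def A202E_011 :
    ∃ t, chk3 (onCell 0 67108864 0 1073741824 335544320 67108864 (corT true 1 c0F cA202E gF0q2 gF1q0 gF1q2 gF2q2 true false)) t 1 1 1 = true :=
  ⟨(T.b (T.b (T.a (T.a (T.l 204) (T.l 204)) (T.l 204)) (T.a (T.a (T.l 204) (T.l 204)) (T.a (T.l 204) (T.b (T.l 204) (T.l 204))))) (T.b (T.a (T.a (T.l 204) (T.l 0)) (T.a (T.b (T.l 204) (T.l 0)) (T.b (T.l 0) (T.l 0)))) (T.a (T.a (T.b (T.l 0) (T.b (T.l 816) (T.c (T.b (T.l 816) (T.l 816)) (T.l 816)))) (T.a (T.b (T.l 0) (T.b (T.l 816) (T.l 816))) (T.b (T.l 0) (T.a (T.l 816) (T.b (T.l 816) (T.c (T.l 816) (T.l 816))))))) (T.a (T.b (T.a (T.l 0) (T.l 0)) (T.a (T.b (T.l 816) (T.a (T.b (T.l 816) (T.l 816)) (T.l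 816))) (T.b (T.l 816) (T.a (T.l 816) (T.l 816))))) (T.b (T.l 64) (T.b (T.b (T.l 816) (T.l 816)) (T.a (T.c (T.l 816) (T.l 816)) (T.b (T.l 816) (T.l 880))))))))), by decide +kernel⟩

def A202E_110 :
    ∃ t, chk3 (onCell 0 67108864 0 1073741824 335544320 67108864 (corT true 1 c0F cA202E gF1q2 gF1q0 gF0q2 gF1q2 true true)) t 1 1 1 = true :=
  ⟨(T.l 2), by decide +kernel⟩

def A202E_111 :
    ∃ t, chk3 (onCell 0 67108864 0 1073741824 335544320 67108864 (corT true 1 c0F cA202E gF1q2 gF1q0 gF1q2 gF2q2 true false)) t 1 1 1 = true :=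
  ⟨(T.b (T.b (T.a (T.a (T.l 204) (T.l 204)) (T.l 204)) (T.a (T.a (T.l 204) (T.l 204)) (T.b (T.l 204) (T.l 0)))) (T.a (T.a (T.b (T.l 204) (T.b (T.l 0) (T.c (T.b (T.l 816) (T.l 816)) (T.l 816)))) (T.b (T.l 0) (T.a (T.c (T.b (T.l 0) (T.l 816)) (T.l 0)) (T.b (T.l 0) (T.b (T.l 816) (T.a (T.c (T.l 816) (T.l 816)) (T.c (T.b (T.l 816) (T.l 816)) (T.l 816)))))))) (T.b (T.a (T.b (T.l 204) (T.l 0)) (T.l 0)) (T.a (T.b (T.l 0) (T.a (T.b (T.l 816) (T.b (T.l 816) (T.c (T.a (T.l 816) (T.l 816)) (T.c (T.l 816) (T.l 816))))) (T.b (T.l 816) (T.b (T.l 816) (T.c (T.c (T.l 816) (T.l 816)) (T.l 816)))))) (T.b (T.l 0) (T.b (T.l 816) (T.a (T.c (T.a (T.l 816) (T.l 816)) (T.l 816)) (T.c (T.b (T.l 816) (T.l 816)) (T.l 816))))))))), by decide +kernel⟩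

def A202R_003_1_2_1 :
    ∃ t, chk3 (onCell 0 67108864 0 1073741824 335544320 67108864 (corX 1 c0F cA202R tA202R gF0q2 gF0q0 gF3q2 gF4q2 gF4q2 false true)) t 1 2 1 = true :=
  ⟨(T.b (T.l 2) (T.a (T.a (T.a (T.c (T.a (T.b (T.l 819) (T.l 819)) (T.l 819)) (T.b (T.l 819) (T.l 819))) (T.c (T.b (T.l 819) (T.l 819)) (T.b (T.l 819) (T.l 819)))) (T.a (T.c (T.b (T.l 819) (T.l 819)) (T.l 883)) (T.b (T.l 883) (T.l 883)))) (T.b (T.a (T.b (T.l 2) (T.l 883)) (T.l 883)) (T.a (T.b (T.l 883) (T.l 883)) (T.b (T.l 819) (T.a (T.l 819) (T.b (T.l 819) (T.c (T.l 880) (T.l 816))))))))), by decide +kernel⟩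

def A202R_003_1_6_1 :
    ∃ t, chk3 (onCell 0 67108864 0 1073741824 335544320 67108864 (corX 1 c0F cA202R tA202R gF0q2 gF0q0 gF3q2 gF4q2 gF4q2 false true)) t 1 6 1 = true :=
  ⟨(T.a (T.a (T.a (T.c (T.b (T.b (T.l 819) (T.l 819)) (T.b (T.l 819) (T.l 819))) (T.a (T.l 819) (T.l 819))) (T.c (T.a (T.l 819) (T.l 819)) (T.b (T.l 819) (T.l 819)))) (T.a (T.b (T.c (T.l 819) (T.l 819)) (T.c (T.l 819) (T.l 819))) (T.b (T.b (T.l 819) (T.l 883)) (T.c (T.l 819) (T.l 819))))) (T.a (T.b (T.a (T.l 883) (T.l 883)) (T.a (T.b (T.l 883) (T.l 883)) (T.b (T.a (T.l 819) (T.b (T.l 819) (T.l 880))) (T.c (T.b (T.l 880) (T.l 880)) (T.b (T.l 816) (T.l 816)))))) (T.b (T.b (T.a (T.l 819) (T.b (T.c (T.l 880) (T.l 816)) (T.c (T.l 816) (T.l 816)))) (T.a (T.b (T.c (T.l 880) (T.l 816)) (T.c (T.l 880) (T.l 816))) (T.b (T.c (T.l 816) (T.l 816)) (T.l 880)))) (T.a (T.b (T.a (T.b (T.l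 880) (T.l 880)) (T.b (T.l 816) (T.l 816))) (T.c (T.b (T.l 816) (T.l 816)) (T.l 880))) (T.b (T.b (T.l 880) (T.l 880)) (T.b (T.l 880) (T.l 880))))))), by decide +kernel⟩

def A202R_003_1_7_1 :
    ∃ t, chk3 (onCell 0 67108864 0 1073741824 335544320 67108864 (corX 1 c0F cA202R tA202R gF0q2 gF0q0 gF3q2 gF4q2 gF4q2 false true)) t 1 7 1 = true :=
  ⟨(T.a (T.a (T.a (T.c (T.b (T.b (T.l 819) (T.l 819)) (T.b (T.l 819) (T.l 819))) (T.a (T.l 819) (T.l 819))) (T.c (T.b (T.b (T.l 819) (T.l 819)) (T.b (T.l 819) (T.l 819))) (T.b (T.l 819) (T.l 819)))) (T.a (T.b (T.c (T.b (T.l 819) (T.l 819)) (T.l 819)) (T.c (T.b (T.l 819) (T.l 819)) (T.l 819))) (T.b (T.c (T.l 883) (T.l 819)) (T.a (T.c (T.l 819) (T.l 819)) (T.b (T.b (T.l 819) (T.l 883)) (T.c (T.b (T.l 819) (T.l 816)) (T.l 816))))))) (T.a (T.a (T.b (T.a (T.b (T.l 819) (T.l 883)) (T.b (T.c (T.l 880) (T.l 816)) (T.c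 (T.l 880) (T.l 816)))) (T.a (T.c (T.b (T.b (T.l 816) (T.l 816)) (T.b (T.l 816) (T.l 816))) (T.b (T.l 816) (T.l 816))) (T.b (T.c (T.l 880) (T.l 816)) (T.c (T.l 880) (T.l 816))))) (T.b (T.b (T.a (T.c (T.l 880) (T.l 816)) (T.b (T.l 880) (T.l 880))) (T.c (T.b (T.l 880) (T.l 880)) (T.b (T.l 816) (T.l 816)))) (T.b (T.c (T.b (T.l 880) (T.l 880)) (T.b (T.l 816) (T.l 816))) (T.c (T.a (T.l 816) (T.l 816)) (T.b (T.l 816) (T.l 816)))))) (T.b (T.a (T.b (T.c (T.b (T.l 816) (T.l 816)) (T.l 880)) (T.c (T.b (T.l 816) (T.l 816)) (T.l 880))) (T.b (T.b (T.l 880) (T.l 880)) (T.b (T.l 880) (T.l 880)))) (T.a (T.b (T.c (T.b (T.l 816) (T.l 816)) (T.l 880)) (T.c (T.b (T.l 816) (T.l 816)) (T.l 816))) (T.b (T.c (T.l 880) (T.l 816)) (T.c (T.l 880) (T.l 816))))))), by decide +kernel⟩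

theorem A202R_003_1_3_1 :
    ∃ t, chk3 (onCell 0 67108864 0 1073741824 335544320 67108864 (corX 1 c0F cA202R tA202R gF0q2 gF0q0 gF3q2 gF4q2 gF4q2 false true)) t 1 3 1 = true :=
  ex3_b A202R_003_1_6_1 A202R_003_1_7_1
theorem A202R_003 :
    ∃ t, chk3 (onCell 0 67108864 0 1073741824 335544320 67108864 (corX 1 c0F cA202R tA202R gF0q2 gF0q0 gF3q2 gF4q2 gF4q2 false true)) t 1 1 1 = true :=
  ex3_b A202R_003_1_2_1 A202R_003_1_3_1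

def A202R_013 :
    ∃ t, chk3 (onCell 0 67108864 0 1073741824 335544320 67108864 (corT true 1 c0F cA202R gF0q2 gF1q0 gF3q2 gF4q2 false true)) t 1 1 1 = true :=
  ⟨(T.b (T.l 2) (T.b (T.a (T.l 0) (T.a (T.b (T.l 204) (T.l 0)) (T.b (T.l 204) (T.l 0)))) (T.b (T.a (T.l 816) (T.a (T.b (T.l 0) (T.l 0)) (T.l 0))) (T.a (T.a (T.b (T.l 816) (T.b (T.l 816) (T.c (T.a (T.l 816) (T.l 816)) (T.l 816)))) (T.a (T.c (T.b (T.l 816) (T.l 816)) (T.l 816)) (T.b (T.l 816) (T.b (T.l 816) (T.b (T.l 816) (T.b (T.l 816) (T.a (T.l 816) (T.c (T.l 816) (T.l 816))))))))) (T.a (T.a (T.b (T.l 816) (T.b (T.l 816) (T.c (T.a (T.l 816) (T.l 816)) (T.b (T.l 816) (T.l 816))))) (T.b (T.l 816) (T.b (T.l 816) (T.c (T.b (T.l 816) (T.l 816)) (T.l 816))))) (T.b (T.l 880) (T.a (T.c (T.b (T.l 816) (T.l 816)) (T.l 816)) (T.c (T.l 880) (T.l 816))))))))), by decide +kernel⟩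

def A202R_113 :
    ∃ t, chk3 (onCell 0 67108864 0 1073741824 335544320 67108864 (corT true 1 c0F cA202R gF1q2 gF1q0 gF3q2 gF4q2 false true)) t 1 1 1 = true :=
  ⟨(T.b (T.l 2) (T.b (T.l 2) (T.b (T.l 2) (T.a (T.a (T.l 0) (T.a (T.l 816) (T.l 0))) (T.a (T.l 0) (T.l 0)))))), by decide +kernel⟩

def B011E_000 :
    ∃ t, chk3 (onCell 0 67108864 0 1073741824 335544320 67108864 (corT true 1 c0F cB011E gF0q0 gF0q1 gF0q1 gF1q1 true false)) t 1 1 1 = true :=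
  ⟨(T.l 1), by decide +kernel⟩

def B011E_100 :
    ∃ t, chk3 (onCell 0 67108864 0 1073741824 335544320 67108864 (corT true 1 c0F cB011E gF1q0 gF0q1 gF0q1 gF1q1 true false)) t 1 1 1 = true :=
  ⟨(T.l 1), by decide +kernel⟩

def B011L_020 :
    ∃ t, chk3 (onCell 0 67108864 0 1073741824 335544320 67108864 (corT true 1 c0F cB011L gF0q0 gF2q1 gF0q1 gF1q1 true false)) t 1 1 1 = true :=
  ⟨(T.l 1), by decide +kernel⟩

def B011L_030 :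
    ∃ t, chk3 (onCell 0 67108864 0 1073741824 335544320 67108864 (corT true 1 c0F cB011L gF0q0 gF3q1 gF0q1 gF1q1 true false)) t 1 1 1 = true :=
  ⟨(T.l 1), by decide +kernel⟩

def B011L_040 :
    ∃ t, chk3 (onCell 0 67108864 0 1073741824 335544320 67108864 (corT true 1 c0F cB011L gF0q0 gF4q1 gF0q1 gF1q1 true false)) t 1 1 1 = true :=
  ⟨(T.l 1), by decide +kernel⟩

def B011L_120 :
    ∃ t, chk3 (onCell 0 67108864 0 1073741824 335544320 67108864 (corT true 1 c0F cB011L gF1q0 gF2q1 gF0q1 gF1q1 true false)) t 1 1 1 = true :=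
  ⟨(T.l 1), by decide +kernel⟩

def B011L_130 :
    ∃ t, chk3 (onCell 0 67108864 0 1073741824 335544320 67108864 (corT true 1 c0F cB011L gF1q0 gF3q1 gF0q1 gF1q1 true false)) t 1 1 1 = true :=
  ⟨(T.l 1), by decide +kernel⟩

def B011L_140 :
    ∃ t, chk3 (onCell 0 67108864 0 1073741824 335544320 67108864 (corT true 1 c0F cB011L gF1q0 gF4q1 gF0q1 gF1q1 true false)) t 1 1 1 = true :=
  ⟨(T.l 1), by decide +kernel⟩

def B011R_001 :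
    ∃ t, chk3 (onCell 0 67108864 0 1073741824 335544320 67108864 (corT true 1 c0F cB011R gF0q0 gF0q1 gF1q1 gF2q1 false true)) t 1 1 1 = true :=
  ⟨(T.b (T.b (T.b (T.a (T.l 204) (T.a (T.l 204) (T.c (T.l 0) (T.l 0)))) (T.l 2)) (T.l 2)) (T.l 2)), by decide +kernel⟩

def B011R_002 :
    ∃ t, chk3 (onCell 0 67108864 0 1073741824 335544320 67108864 (corT true 1 c0F cB011R gF0q0 gF0q1 gF2q1 gF3q1 true true)) t 1 1 1 = true :=
  ⟨(T.b (T.b (T.b (T.a (T.b (T.l 204) (T.l 204)) (T.a (T.b (T.l 204) (T.l 204)) (T.a (T.b (T.l 204) (T.c (T.l 204) (T.l 204))) (T.c (T.b (T.l 204) (T.l 204)) (T.l 220))))) (T.b (T.a (T.b (T.c (T.l 204) (T.l 204)) (T.b (T.c (T.a (T.l 204) (T.l 204)) (T.l 204)) (T.l 2))) (T.a (T.b (T.l 204) (T.b (T.c (T.l 204) (T.l 204)) (T.l 2))) (T.a (T.a (T.c (T.a (T.l 220) (T.b (T.l 204) (T.l 220))) (T.b (T.l 204) (T.b (T.l 204) (T.l 2)))) (T.c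 (T.b (T.l 204) (T.b (T.l 204) (T.l 2))) (T.b (T.l 204) (T.b (T.l 204) (T.l 2))))) (T.c (T.b (T.b (T.l 204) (T.l 220)) (T.b (T.a (T.l 204) (T.l 204)) (T.l 2))) (T.b (T.b (T.l 204) (T.l 220)) (T.b (T.a (T.l 204) (T.l 204)) (T.l 2))))))) (T.l 2))) (T.l 2)) (T.l 2)), by decide +kernel⟩

def B011R_003 :
    ∃ t, chk3 (onCell 0 67108864 0 1073741824 335544320 67108864 (corX 1 c0F cB011R tB011R gF0q0 gF0q1 gF3q1 gF4q1 gF4q1 true true)) t 1 1 1 = true :=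
  ⟨(T.b (T.a (T.a (T.b (T.b (T.l 1) (T.c (T.b (T.l 207) (T.l 207)) (T.l 207))) (T.b (T.c (T.b (T.l 207) (T.l 207)) (T.l 207)) (T.l 2))) (T.b (T.b (T.l 1) (T.c (T.l 207) (T.l 207))) (T.b (T.c (T.l 207) (T.l 207)) (T.l 2)))) (T.a (T.b (T.b (T.l 1) (T.c (T.l 207) (T.l 207))) (T.b (T.c (T.l 207) (T.l 207)) (T.l 2))) (T.a (T.b (T.b (T.l 1) (T.c (T.l 223) (T.l 479))) (T.b (T.c (T.l 223) (T.l 223)) (T.l 2))) (T.b (T.b (T.l 1) (T.c (T.l 223) (T.l 479))) (T.b (T.c (T.l 223) (T.l 223)) (T.l 2)))))) (T.l 2)), by decide +kernel⟩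

def B011R_101 :
    ∃ t, chk3 (onCell 0 67108864 0 1073741824 335544320 67108864 (corT true 1 c0F cB011R gF1q0 gF0q1 gF1q1 gF2q1 false true)) t 1 1 1 = true :=
  ⟨(T.l 2), by decide +kernel⟩

def B011R_102 :
    ∃ t, chk3 (onCell 0 67108864 0 1073741824 335544320 67108864 (corT true 1 c0F cB011R gF1q0 gF0q1 gF2q1 gF3q1 true true)) t 1 1 1 = true :=
  ⟨(T.l 2), by decide +kernel⟩

def B011R_103 :
    ∃ t, chk3 (onCell 0 67108864 0 1073741824 335544320 67108864 (corT true 1 c0F cB011R gF1q0 gF0q1 gF3q1 gF4q1 true true)) t 1 1 1 = true :=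
  ⟨(T.l 2), by decide +kernel⟩

def B012E_000 :
    ∃ t, chk3 (onCell 0 67108864 0 1073741824 335544320 67108864 (corX 1 c0F cB012E tB012E gF0q0 gF0q2 gF0q1 gF1q1 gF0q1 true false)) t 1 1 1 = true :=
  ⟨(T.b (T.b (T.l 1) (T.b (T.l 1) (T.b (T.l 1) (T.b (T.l 1) (T.a (T.a (T.c (T.l 819) (T.l 819)) (T.l 819)) (T.a (T.l 819) (T.b (T.l 819) (T.a (T.l 819) (T.a (T.l 819) (T.b (T.l 819) (T.c (T.l 0) (T.l 0)))))))))))) (T.b (T.a (T.a (T.a (T.c (T.b (T.l 819) (T.l 819)) (T.l 819)) (T.l 819)) (T.b (T.l 819) (T.l 819))) (T.a (T.b (T.l 819) (T.a (T.l 819) (T.b (T.b (T.l 819) (T.l 816)) (T.b (T.l 816) (T.l 816))))) (T.b (T.b (T.a (T.l 819) (T.b (T.a (T.l 819) (T.b (T.c (T.l 0) (T.l 0)) (T.l 816))) (T.b (T.c (T.l 0) (T.l 0)) (T.l 64)))) (T.a (T.b (T.c (T.l 0) (T.l 0)) (T.c (T.l 0) (T.l 0))) (T.b (T.c (T.l 0) (T.l 0)) (T.l 0)))) (T.b (T.a (T.b (T.l 816) (T.l 816))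 (T.b (T.l 816) (T.l 816))) (T.a (T.l 0) (T.l 816)))))) (T.a (T.a (T.a (T.c (T.b (T.l 819) (T.l 819)) (T.l 819)) (T.l 819)) (T.a (T.l 819) (T.b (T.l 819) (T.a (T.l 819) (T.b (T.l 819) (T.l 816)))))) (T.a (T.b (T.a (T.a (T.l 819) (T.b (T.l 816) (T.l 816))) (T.b (T.b (T.l 816) (T.l 816)) (T.l 816))) (T.a (T.a (T.b (T.l 816) (T.l 816)) (T.b (T.l 816) (T.l 816))) (T.b (T.l 816) (T.l 816)))) (T.b (T.a (T.b (T.l 816) (T.l 816)) (T.b (T.l 816) (T.l 816))) (T.a (T.b (T.l 816) (T.l 816)) (T.b (T.l 816) (T.l 816)))))))), by decide +kernel⟩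

def B012E_010_1_2_1 :
    ∃ t, chk3 (onCell 0 67108864 0 1073741824 335544320 67108864 (corT true 1 c0F cB012E gF0q0 gF1q2 gF0q1 gF1q1 true false)) t 1 2 1 = true :=
  ⟨(T.l 1), by decide +kernel⟩

def B012E_010_1_6_1 :
    ∃ t, chk3 (onCell 0 67108864 0 1073741824 335544320 67108864 (corT true 1 c0F cB012E gF0q0 gF1q2 gF0q1 gF1q1 true false)) t 1 6 1 = true :=
  ⟨(T.b (T.l 1) (T.b (T.l 1) (T.a (T.c (T.a (T.l 820) (T.b (T.l 816) (T.l 816))) (T.a (T.l 884) (T.b (T.l 820) (T.l 816)))) (T.a (T.a (T.c (T.l 820) (T.b (T.l 820) (T.l 816))) (T.b (T.c (T.a (T.b (T.l 820) (T.l 816)) (T.b (T.l 820) (T.l 816))) (T.a (T.c (T.l 820) (T.b (T.l 820) (T.l 816))) (T.c (T.l 820) (T.l 820)))) (T.c (T.b (T.l 820) (T.l 816)) (T.a (T.l 816) (T.l 816))))) (T.a (T.b (T.c (T.b (T.c (T.l 820) (T.l 820)) (T.l 820)) (T.a (T.b (T.l 820) (T.l 816)) (T.b (T.l 820) (T.l 816))))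 (T.c (T.b (T.l 816) (T.l 816)) (T.b (T.l 820) (T.l 816)))) (T.b (T.c (T.a (T.l 820) (T.l 820)) (T.b (T.a (T.l 820) (T.l 820)) (T.l 820))) (T.c (T.l 820) (T.l 820)))))))), by decide +kernel⟩

def B012E_010_1_7_1 :
    ∃ t, chk3 (onCell 0 67108864 0 1073741824 335544320 67108864 (corT true 1 c0F cB012E gF0q0 gF1q2 gF0q1 gF1q1 true false)) t 1 7 1 = true :=
  ⟨(T.a (T.a (T.b (T.c (T.b (T.l 816) (T.l 816)) (T.b (T.l 816) (T.l 816))) (T.c (T.l 820) (T.l 816))) (T.a (T.b (T.c (T.l 816) (T.l 816)) (T.b (T.l 816) (T.l 816))) (T.b (T.c (T.l 816) (T.l 816)) (T.b (T.l 816) (T.a (T.l 816) (T.b (T.l 816) (T.l 816))))))) (T.a (T.b (T.a (T.b (T.a (T.l 820) (T.c (T.l 820) (T.l 820))) (T.a (T.b (T.l 816) (T.l 816)) (T.b (T.l 816) (T.l 816)))) (T.b (T.c (T.b (T.l 820) (T.l 816)) (T.b (T.l 820) (T.l 816))) (T.c (T.b (T.l 816) (T.l 816)) (T.l 820)))) (T.a (T.b (T.c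 (T.b (T.l 816) (T.l 816)) (T.b (T.l 816) (T.l 816))) (T.c (T.b (T.l 816) (T.l 816)) (T.l 816))) (T.b (T.c (T.l 816) (T.l 816)) (T.b (T.l 816) (T.l 816))))) (T.b (T.b (T.a (T.c (T.b (T.l 816) (T.l 816)) (T.b (T.l 816) (T.l 816))) (T.b (T.c (T.l 816) (T.l 816)) (T.l 820))) (T.a (T.c (T.l 816) (T.l 816)) (T.b (T.l 816) (T.l 816)))) (T.a (T.b (T.b (T.l 816) (T.l 816)) (T.b (T.l 816) (T.l 816))) (T.b (T.b (T.l 816) (T.l 816)) (T.l 816)))))), by decide +kernel⟩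

theorem B012E_010_1_3_1 :
    ∃ t, chk3 (onCell 0 67108864 0 1073741824 335544320 67108864 (corT true 1 c0F cB012E gF0q0 gF1q2 gF0q1 gF1q1 true false)) t 1 3 1 = true :=
  ex3_b B012E_010_1_6_1 B012E_010_1_7_1
theorem B012E_010 :
    ∃ t, chk3 (onCell 0 67108864 0 1073741824 335544320 67108864 (corT true 1 c0F cB012E gF0q0 gF1q2 gF0q1 gF1q1 true false)) t 1 1 1 = true :=
  ex3_b B012E_010_1_2_1 B012E_010_1_3_1

def B012E_100 :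
    ∃ t, chk3 (onCell 0 67108864 0 1073741824 335544320 67108864 (corT true 1 c0F cB012E gF1q0 gF0q2 gF0q1 gF1q1 true false)) t 1 1 1 = true :=
  ⟨(T.b (T.a (T.b (T.b (T.l 1) (T.l 816)) (T.l 816)) (T.b (T.b (T.l 1) (T.b (T.l 1) (T.a (T.l 816) (T.l 816)))) (T.b (T.b (T.l 816) (T.l 816)) (T.b (T.l 816) (T.l 816))))) (T.b (T.a (T.l 816) (T.a (T.b (T.l 816) (T.l 816)) (T.l 816))) (T.a (T.a (T.l 816) (T.b (T.l 816) (T.l 816))) (T.a (T.b (T.l 816) (T.l 816)) (T.l 816))))), by decide +kernel⟩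

def B012E_110 :
    ∃ t, chk3 (onCell 0 67108864 0 1073741824 335544320 67108864 (corT true 1 c0F cB012E gF1q0 gF1q2 gF0q1 gF1q1 true false)) t 1 1 1 = true :=
  ⟨(T.b (T.b (T.l 1) (T.a (T.l 816) (T.b (T.b (T.l 816) (T.l 816)) (T.b (T.l 816) (T.l 816))))) (T.b (T.a (T.l 816) (T.b (T.l 816) (T.l 816))) (T.a (T.a (T.l 816) (T.l 816)) (T.b (T.l 816) (T.l 816))))), by decide +kernel⟩

def B012L_040 :
    ∃ t, chk3 (onCell 0 67108864 0 1073741824 335544320 67108864 (corT true 1 c0F cB012L gF0q0 gF4q2 gF0q1 gF1q1 true false)) t 1 1 1 = true :=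
  ⟨(T.l 1), by decide +kernel⟩

def B012L_140 :
    ∃ t, chk3 (onCell 0 67108864 0 1073741824 335544320 67108864 (corT true 1 c0F cB012L gF1q0 gF4q2 gF0q1 gF1q1 true false)) t 1 1 1 = true :=
  ⟨(T.l 1), by decide +kernel⟩

def B012R_001 :
    ∃ t, chk3 (onCell 0 67108864 0 1073741824 335544320 67108864 (corT true 1 c0F cB012R gF0q0 gF0q2 gF1q1 gF2q1 false true)) t 1 1 1 = true :=
  ⟨(T.b (T.a (T.b (T.b (T.l 204) (T.l 204)) (T.l 204)) (T.a (T.b (T.b (T.l 204) (T.l 204)) (T.l 204)) (T.b (T.b (T.b (T.a (T.l 204) (T.l 204)) (T.b (T.l 204) (T.l 204))) (T.b (T.l 204) (T.l 204))) (T.b (T.l 204) (T.b (T.l 204) (T.l 204)))))) (T.b (T.a (T.l 204) (T.a (T.b (T.l 204) (T.b (T.l 204) (T.l 204))) (T.b (T.b (T.l 204) (T.l 204)) (T.b (T.l 204) (T.l 204))))) (T.a (T.a (T.l 204) (T.a (T.l 204) (T.b (T.l 204) (T.l 204)))) (T.a (T.b (T.b (T.l 204) (T.l 204)) (T.b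 (T.l 204) (T.l 204))) (T.b (T.l 204) (T.l 204)))))), by decide +kernel⟩

def B012R_002 :
    ∃ t, chk3 (onCell 0 67108864 0 1073741824 335544320 67108864 (corT true 1 c0F cB012R gF0q0 gF0q2 gF2q1 gF3q1 true true)) t 1 1 1 = true :=
  ⟨(T.b (T.l 1) (T.l 1)), by decide +kernel⟩

def B012R_003 :
    ∃ t, chk3 (onCell 0 67108864 0 1073741824 335544320 67108864 (corT true 1 c0F cB012R gF0q0 gF0q2 gF3q1 gF4q1 true true)) t 1 1 1 = true :=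
  ⟨(T.b (T.l 1) (T.l 1)), by decide +kernel⟩

def B012R_011 :
    ∃ t, chk3 (onCell 0 67108864 0 1073741824 335544320 67108864 (corT true 1 c0F cB012R gF0q0 gF1q2 gF1q1 gF2q1 false true)) t 1 1 1 = true :=
  ⟨(T.b (T.a (T.b (T.b (T.l 204) (T.l 204)) (T.l 0)) (T.a (T.b (T.l 204) (T.l 0)) (T.b (T.b (T.b (T.c (T.l 204) (T.l 204)) (T.l 204)) (T.l 204)) (T.b (T.l 204) (T.l 0))))) (T.b (T.a (T.l 0) (T.a (T.b (T.l 0) (T.l 0)) (T.b (T.l 0) (T.l 0)))) (T.a (T.a (T.l 816) (T.a (T.l 816) (T.l 0))) (T.a (T.b (T.l 0) (T.l 816)) (T.b (T.l 0) (T.l 816)))))), by decide +kernel⟩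

def B012R_012 :
    ∃ t, chk3 (onCell 0 67108864 0 1073741824 335544320 67108864 (corT true 1 c0F cB012R gF0q0 gF1q2 gF2q1 gF3q1 true true)) t 1 1 1 = true :=
  ⟨(T.b (T.l 1) (T.l 1)), by decide +kernel⟩

def B012R_013 :
    ∃ t, chk3 (onCell 0 67108864 0 1073741824 335544320 67108864 (corT true 1 c0F cB012R gF0q0 gF1q2 gF3q1 gF4q1 true true)) t 1 1 1 = true :=
  ⟨(T.l 1), by decide +kernel⟩

def B012R_101 :
    ∃ t, chk3 (onCell 0 67108864 0 1073741824 335544320 67108864 (corT true 1 c0F cB012R gF1q0 gF0q2 gF1q1 gF2q1 false true)) t 1 1 1 = true :=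
  ⟨(T.b (T.b (T.l 2) (T.a (T.l 2) (T.b (T.l 2) (T.b (T.l 2) (T.l 816))))) (T.b (T.a (T.l 816) (T.a (T.b (T.l 816) (T.l 816)) (T.l 816))) (T.a (T.a (T.l 816) (T.b (T.l 816) (T.l 816))) (T.a (T.l 816) (T.l 816))))), by decide +kernel⟩

def B012R_102 :
    ∃ t, chk3 (onCell 0 67108864 0 1073741824 335544320 67108864 (corT true 1 c0F cB012R gF1q0 gF0q2 gF2q1 gF3q1 true true)) t 1 1 1 = true :=
  ⟨(T.b (T.b (T.l 2) (T.a (T.l 816) (T.b (T.l 2) (T.b (T.l 816) (T.l 816))))) (T.b (T.a (T.l 816) (T.b (T.b (T.l 816) (T.l 1)) (T.l 1))) (T.l 1))), by decide +kernel⟩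

def B012R_103 :
    ∃ t, chk3 (onCell 0 67108864 0 1073741824 335544320 67108864 (corT true 1 c0F cB012R gF1q0 gF0q2 gF3q1 gF4q1 true true)) t 1 1 1 = true :=
  ⟨(T.b (T.b (T.l 2) (T.b (T.l 816) (T.a (T.l 816) (T.b (T.l 816) (T.l 816))))) (T.b (T.a (T.l 816) (T.l 1)) (T.l 1))), by decide +kernel⟩

def B012R_111 :
    ∃ t, chk3 (onCell 0 67108864 0 1073741824 335544320 67108864 (corT true 1 c0F cB012R gF1q0 gF1q2 gF1q1 gF2q1 false true)) t 1 1 1 = true :=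
  ⟨(T.l 2), by decide +kernel⟩

def B012R_112 :
    ∃ t, chk3 (onCell 0 67108864 0 1073741824 335544320 67108864 (corT true 1 c0F cB012R gF1q0 gF1q2 gF2q1 gF3q1 true true)) t 1 1 1 = true :=
  ⟨(T.l 2), by decide +kernel⟩

def B012R_113 :
    ∃ t, chk3 (onCell 0 67108864 0 1073741824 335544320 67108864 (corT true 1 c0F cB012R gF1q0 gF1q2 gF3q1 gF4q1 true true)) t 1 1 1 = true :=
  ⟨(T.l 2), by decide +kernel⟩

def B022E_000 :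
    ∃ t, chk3 (onCell 0 67108864 0 1073741824 335544320 67108864 (corT true 1 c0F cB022E gF0q0 gF0q2 gF0q2 gF1q2 true true)) t 1 1 1 = true :=
  ⟨(T.l 2), by decide +kernel⟩

def B022E_001 :
    ∃ t, chk3 (onCell 0 67108864 0 1073741824 335544320 67108864 (corT true 1 c0F cB022E gF0q0 gF0q2 gF1q2 gF2q2 true false)) t 1 1 1 = true :=
  ⟨(T.b (T.a (T.a (T.b (T.b (T.c (T.b (T.l 204) (T.l 204)) (T.l 204)) (T.l 204)) (T.l 0)) (T.a (T.b (T.c (T.l 204) (T.l 204)) (T.l 0)) (T.b (T.a (T.l 220) (T.b (T.c (T.l 204) (T.l 204)) (T.l 204))) (T.l 0)))) (T.a (T.b (T.a (T.b (T.a (T.b (T.l 204) (T.l 204)) (T.l 220)) (T.b (T.l 204) (T.l 204))) (T.b (T.a (T.l 204) (T.l 204)) (T.l 204))) (T.a (T.l 0) (T.b (T.l 204) (T.l 204)))) (T.b (T.b (T.a (T.b (T.l 220) (T.l 204)) (T.b (T.l 204) (T.l 204))) (T.a (T.l 204) (T.l 204))) (T.b (T.b (T.l 204) (T.l 204)) (T.l 0))))) (T.b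 (T.a (T.a (T.l 0) (T.a (T.l 0) (T.l 0))) (T.a (T.b (T.l 0) (T.l 0)) (T.b (T.l 0) (T.l 0)))) (T.a (T.a (T.b (T.l 816) (T.c (T.b (T.l 816) (T.a (T.l 816) (T.l 816))) (T.l 816))) (T.a (T.c (T.b (T.l 816) (T.l 816)) (T.l 816)) (T.b (T.l 816) (T.a (T.b (T.l 816) (T.l 816)) (T.c (T.b (T.l 816) (T.l 816)) (T.l 816)))))) (T.a (T.a (T.b (T.l 816) (T.b (T.l 816) (T.c (T.a (T.l 816) (T.l 816)) (T.b (T.l 816) (T.l 816))))) (T.b (T.l 816) (T.b (T.l 816) (T.c (T.a (T.l 816) (T.l 816)) (T.l 880))))) (T.b (T.l 816) (T.a (T.b (T.l 816) (T.c (T.c (T.l 880) (T.l 816)) (T.l 816))) (T.b (T.l 816) (T.c (T.b (T.l 816) (T.l 880)) (T.l 816))))))))), by decide +kernel⟩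

def B022E_010 :
    ∃ t, chk3 (onCell 0 67108864 0 1073741824 335544320 67108864 (corT true 1 c0F cB022E gF0q0 gF1q2 gF0q2 gF1q2 true true)) t 1 1 1 = true :=
  ⟨(T.l 2), by decide +kernel⟩

def B022E_011 :
    ∃ t, chk3 (onCell 0 67108864 0 1073741824 335544320 67108864 (corT true 1 c0F cB022E gF0q0 gF1q2 gF1q2 gF2q2 true false)) t 1 1 1 = true :=
  ⟨(T.b (T.b (T.a (T.a (T.c (T.b (T.l 204) (T.l 204)) (T.l 204)) (T.a (T.c (T.b (T.l 204) (T.l 204)) (T.l 204)) (T.b (T.a (T.c (T.l 204) (T.l 204)) (T.b (T.c (T.b (T.l 204) (T.l 204)) (T.l 204)) (T.l 204))) (T.b (T.l 204) (T.l 204))))) (T.a (T.a (T.b (T.a (T.c (T.b (T.l 204) (T.l 204)) (T.b (T.l 204) (T.l 204))) (T.c (T.b (T.l 204) (T.l 204)) (T.l 204))) (T.c (T.b (T.l 204) (T.l 204)) (T.l 220))) (T.b (T.c (T.b (T.a (T.l 204) (T.l 204)) (T.l 204)) (T.a (T.l 204) (T.l 204))) (T.c (T.l 220) (T.l 204))))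 (T.b (T.a (T.c (T.b (T.b (T.l 204) (T.l 204)) (T.l 204)) (T.b (T.l 204) (T.l 204))) (T.c (T.b (T.l 220) (T.l 204)) (T.b (T.l 204) (T.l 204)))) (T.a (T.b (T.l 204) (T.l 204)) (T.b (T.l 204) (T.l 204)))))) (T.a (T.a (T.l 0) (T.a (T.l 0) (T.l 0))) (T.a (T.a (T.l 0) (T.b (T.l 16) (T.l 0))) (T.b (T.a (T.l 204) (T.l 204)) (T.b (T.l 0) (T.l 0)))))) (T.b (T.a (T.a (T.l 0) (T.a (T.l 0) (T.l 0))) (T.a (T.l 0) (T.b (T.l 0) (T.l 0)))) (T.a (T.a (T.b (T.l 816) (T.c (T.l 816) (T.l 816))) (T.a (T.b (T.l 816) (T.l 816)) (T.c (T.b (T.l 816) (T.l 816)) (T.l 820)))) (T.a (T.a (T.c (T.l 816) (T.l 816)) (T.b (T.l 816) (T.l 820))) (T.b (T.l 816) (T.c (T.l 816) (T.l 816))))))), by decide +kernel⟩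

def B022E_100 :
    ∃ t, chk3 (onCell 0 53687091 0 1073741824 335544320 67108864 (corT true 1 c0F cB022E gF1q0 gF0q2 gF0q2 gF1q2 true true)) t 1 1 1 = true :=
  ⟨(T.l 2), by decide +kernel⟩

def B022E_101 :
    ∃ t, chk3 (onCell 0 53687091 0 1073741824 335544320 67108864 (corT true 1 c0F cB022E gF1q0 gF0q2 gF1q2 gF2q2 true false)) t 1 1 1 = true :=
  ⟨(T.a (T.b (T.b (T.b (T.b (T.c (T.a (T.l 204) (T.l 204)) (T.l 204)) (T.l 204)) (T.l 0)) (T.l 0)) (T.l 816)) (T.b (T.b (T.a (T.b (T.a (T.a (T.l 204) (T.b (T.l 204) (T.l 204))) (T.a (T.b (T.l 204) (T.l 204)) (T.l 204))) (T.l 0)) (T.b (T.b (T.a (T.l 220) (T.l 204)) (T.l 204)) (T.l 0))) (T.a (T.l 0) (T.l 0))) (T.l 0))), by decide +kernel⟩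

def B022E_110 :
    ∃ t, chk3 (onCell 0 67108864 0 1073741824 335544320 67108864 (corT true 1 c0F cB022E gF1q0 gF1q2 gF0q2 gF1q2 true true)) t 1 1 1 = true :=
  ⟨(T.l 2), by decide +kernel⟩

def B022E_111 :
    ∃ t, chk3 (onCell 0 67108864 0 1073741824 335544320 67108864 (corT true 1 c0F cB022E gF1q0 gF1q2 gF1q2 gF2q2 true false)) t 1 1 1 = true :=
  ⟨(T.b (T.a (T.a (T.b (T.b (T.c (T.b (T.l 204) (T.l 204)) (T.l 204)) (T.l 0)) (T.l 816)) (T.b (T.a (T.c (T.b (T.l 204) (T.l 0)) (T.l 0)) (T.b (T.b (T.a (T.c (T.l 204) (T.l 204)) (T.c (T.b (T.l 204) (T.l 204)) (T.l 204))) (T.l 204)) (T.l 0))) (T.l 0))) (T.b (T.a (T.b (T.a (T.b (T.b (T.c (T.a (T.l 204) (T.l 204)) (T.b (T.l 204) (T.l 204))) (T.l 204)) (T.l 204)) (T.b (T.b (T.c (T.c (T.l 204) (T.l 204)) (T.l 204)) (T.l 204)) (T.l 204))) (T.l 0)) (T.b (T.b (T.a (T.c (T.b (T.l 204) (T.l 204)) (T.l 204))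 (T.c (T.b (T.l 204) (T.l 204)) (T.l 204))) (T.l 204)) (T.l 0))) (T.a (T.l 0) (T.l 0)))) (T.b (T.a (T.a (T.l 816) (T.l 816)) (T.b (T.l 0) (T.l 816))) (T.a (T.a (T.l 816) (T.l 816)) (T.l 816)))), by decide +kernel⟩

def B022L_040 :
    ∃ t, chk3 (onCell 0 67108864 0 1073741824 335544320 67108864 (corX 1 c0F cB022L tB022L gF0q0 gF4q2 gF0q2 gF1q2 gF0q2 true true)) t 1 1 1 = true :=
  ⟨(T.b (T.b (T.b (T.l 2) (T.a (T.l 207) (T.b (T.l 2) (T.b (T.a (T.a (T.l 204) (T.l 204)) (T.l 256)) (T.a (T.a (T.l 207) (T.l 204)) (T.c (T.l 0) (T.l 0))))))) (T.a (T.b (T.l 207) (T.l 207)) (T.b (T.b (T.a (T.a (T.l 207) (T.b (T.l 204) (T.l 204))) (T.a (T.l 0) (T.l 204))) (T.a (T.a (T.l 207) (T.b (T.l 204) (T.l 207))) (T.a (T.b (T.l 204) (T.l 204)) (T.l 204)))) (T.a (T.l 207) (T.b (T.a (T.b (T.l 204) (T.l 204)) (T.b (T.l 204) (T.l 204))) (T.a (T.l 207) (T.b (T.l 204) (T.l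 204)))))))) (T.b (T.a (T.b (T.l 207) (T.l 207)) (T.b (T.a (T.l 207) (T.b (T.a (T.l 207) (T.b (T.l 204) (T.l 207))) (T.l 207))) (T.l 207))) (T.l 1))), by decide +kernel⟩

def B022L_041 :
    ∃ t, chk3 (onCell 0 67108864 0 1073741824 335544320 67108864 (corT true 1 c0F cB022L gF0q0 gF4q2 gF1q2 gF2q2 true false)) t 1 1 1 = true :=
  ⟨(T.b (T.b (T.b (T.a (T.a (T.l 204) (T.a (T.l 204) (T.l 204))) (T.a (T.l 0) (T.l 204))) (T.a (T.l 204) (T.a (T.l 0) (T.l 204)))) (T.l 1)) (T.l 1)), by decide +kernel⟩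

def B022L_140 :
    ∃ t, chk3 (onCell 0 67108864 0 1073741824 335544320 67108864 (corT true 1 c0F cB022L gF1q0 gF4q2 gF0q2 gF1q2 true true)) t 1 1 1 = true :=
  ⟨(T.b (T.b (T.b (T.b (T.a (T.l 2) (T.l 2)) (T.a (T.l 204) (T.a (T.a (T.l 0) (T.l 0)) (T.l 0)))) (T.a (T.l 0) (T.a (T.a (T.l 0) (T.l 0)) (T.b (T.l 0) (T.l 0))))) (T.a (T.l 816) (T.b (T.a (T.b (T.l 0) (T.l 0)) (T.b (T.l 0) (T.l 0))) (T.a (T.l 816) (T.l 0))))) (T.l 1)), by decide +kernel⟩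

def B022L_141 :
    ∃ t, chk3 (onCell 0 67108864 0 1073741824 335544320 67108864 (corT true 1 c0F cB022L gF1q0 gF4q2 gF1q2 gF2q2 true false)) t 1 1 1 = true :=
  ⟨(T.b (T.b (T.b (T.a (T.a (T.l 204) (T.b (T.l 0) (T.l 204))) (T.b (T.l 256) (T.l 0))) (T.l 1)) (T.l 1)) (T.l 1)), by decide +kernel⟩

def B022R_003 :
    ∃ t, chk3 (onCell 0 67108864 0 1073741824 335544320 67108864 (corT true 1 c0F cB022R gF0q0 gF0q2 gF3q2 gF4q2 false true)) t 1 1 1 = true :=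
  ⟨(T.a (T.a (T.b (T.b (T.b (T.c (T.b (T.l 220) (T.l 204)) (T.l 220)) (T.l 204)) (T.l 204)) (T.l 204)) (T.a (T.b (T.b (T.c (T.b (T.l 204) (T.l 204)) (T.l 204)) (T.l 204)) (T.l 204)) (T.b (T.b (T.b (T.c (T.a (T.l 204) (T.l 204)) (T.c (T.l 204) (T.l 204))) (T.l 204)) (T.l 204)) (T.l 204)))) (T.a (T.b (T.b (T.a (T.c (T.c (T.l 220) (T.l 204)) (T.l 220)) (T.c (T.b (T.l 204) (T.l 204)) (T.l 204))) (T.b (T.l 220) (T.l 204))) (T.l 256)) (T.b (T.b (T.b (T.a (T.c (T.l 204) (T.l 204)) (T.l 220)) (T.l 204)) (T.l 204)) (T.l 204)))), by decide +kernel⟩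

def B022R_013 :
    ∃ t, chk3 (onCell 0 67108864 0 1073741824 335544320 67108864 (corT true 1 c0F cB022R gF0q0 gF1q2 gF3q2 gF4q2 false true)) t 1 1 1 = true :=
  ⟨(T.a (T.a (T.l 0) (T.a (T.l 0) (T.l 64))) (T.b (T.b (T.l 0) (T.l 0)) (T.a (T.l 0) (T.l 0)))), by decide +kernel⟩

def B022R_103 :
    ∃ t, chk3 (onCell 0 67108864 0 1073741824 335544320 67108864 (corT true 1 c0F cB022R gF1q0 gF0q2 gF3q2 gF4q2 false true)) t 1 1 1 = true :=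
  ⟨(T.a (T.a (T.b (T.b (T.b (T.b (T.c (T.b (T.l 204) (T.l 204)) (T.l 204)) (T.l 204)) (T.l 204)) (T.l 0)) (T.l 816)) (T.b (T.a (T.b (T.c (T.b (T.l 204) (T.l 204)) (T.l 204)) (T.l 0)) (T.b (T.b (T.b (T.b (T.c (T.c (T.l 204) (T.l 204)) (T.l 204)) (T.l 204)) (T.l 204)) (T.l 204)) (T.l 0))) (T.l 0))) (T.b (T.a (T.b (T.b (T.b (T.a (T.c (T.l 204) (T.l 204)) (T.c (T.l 204) (T.l 204))) (T.l 204)) (T.l 204)) (T.l 0)) (T.b (T.b (T.c (T.a (T.l 204) (T.l 204)) (T.l 220)) (T.l 204)) (T.l 0))) (T.l 0))), by decide +kernel⟩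

def B022R_113 :
    ∃ t, chk3 (onCell 0 67108864 0 1073741824 335544320 67108864 (corT true 1 c0F cB022R gF1q0 gF1q2 gF3q2 gF4q2 false true)) t 1 1 1 = true :=
  ⟨(T.b (T.a (T.a (T.l 0) (T.b (T.l 0) (T.l 816))) (T.b (T.l 256) (T.l 0))) (T.a (T.l 2) (T.l 816))), by decide +kernel⟩

def B101E_000 :
    ∃ t, chk3 (onCell 0 33554432 0 1073741824 335544320 67108864 (corT true 1 c0F cB101E gF0q1 gF0q1 gF0q0 gF1q0 true true)) t 1 1 1 = true :=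
  ⟨(T.l 2), by decide +kernel⟩

def B101E_001 :
    ∃ t, chk3 (onCell 0 33554432 0 1073741824 335544320 67108864 (corT true 1 c0F cB101E gF0q1 gF0q1 gF1q0 gF2q0 true false)) t 1 1 1 = true :=
  ⟨(T.b (T.b (T.l 204) (T.l 204)) (T.b (T.l 204) (T.l 204))), by decide +kernel⟩

def B101L_200 :
    ∃ t, chk3 (onCell 0 67108864 0 1073741824 335544320 67108864 (corT true 1 c0F cB101L gF2q1 gF0q1 gF0q0 gF1q0 true true)) t 1 1 1 = true :=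
  ⟨(T.b (T.l 1) (T.b (T.l 1) (T.b (T.l 1) (T.b (T.l 1) (T.a (T.a (T.l 816) (T.l 880)) (T.a (T.b (T.l 816) (T.l 816)) (T.b (T.a (T.c (T.l 816) (T.l 816)) (T.l 880)) (T.l 816)))))))), by decide +kernel⟩

def B101L_201 :
    ∃ t, chk3 (onCell 0 67108864 0 1073741824 335544320 67108864 (corT true 1 c0F cB101L gF2q1 gF0q1 gF1q0 gF2q0 true false)) t 1 1 1 = true :=
  ⟨(T.l 1), by decide +kernel⟩

def B101L_300 :
    ∃ t, chk3 (onCell 0 67108864 0 1073741824 335544320 67108864 (corT true 1 c0F cB101L gF3q1 gF0q1 gF0q0 gF1q0 true true)) t 1 1 1 = true :=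
  ⟨(T.b (T.l 1) (T.b (T.l 1) (T.b (T.b (T.l 1) (T.b (T.b (T.l 1) (T.b (T.b (T.l 1) (T.b (T.b (T.l 1) (T.a (T.c (T.l 816) (T.l 816)) (T.a (T.l 816) (T.b (T.l 1) (T.c (T.a (T.l 816) (T.l 816)) (T.a (T.l 816) (T.l 816))))))) (T.a (T.a (T.l 816) (T.l 816)) (T.a (T.l 816) (T.a (T.c (T.l 816) (T.l 816)) (T.c (T.l 816) (T.l 816))))))) (T.a (T.l 816) (T.a (T.l 816) (T.a (T.l 816) (T.l 816)))))) (T.a (T.l 816) (T.a (T.l 816) (T.c (T.l 816) (T.l 816)))))) (T.a (T.l 0) (T.a (T.l 0) (T.l 0)))))), by decide +kernel⟩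

def B101L_301 :
    ∃ t, chk3 (onCell 0 67108864 0 1073741824 335544320 67108864 (corT true 1 c0F cB101L gF3q1 gF0q1 gF1q0 gF2q0 true false)) t 1 1 1 = true :=
  ⟨(T.l 1), by decide +kernel⟩

def B101L_400 :
    ∃ t, chk3 (onCell 0 67108864 0 1073741824 335544320 67108864 (corX 1 c0F cB101L tB101L gF4q1 gF0q1 gF0q0 gF1q0 gF0q0 true true)) t 1 1 1 = true :=
  ⟨(T.b (T.l 1) (T.l 207)), by decide +kernel⟩

def B101L_401 :
    ∃ t, chk3 (onCell 0 67108864 0 1073741824 335544320 67108864 (corT true 1 c0F cB101L gF4q1 gF0q1 gF1q0 gF2q0 true false)) t 1 1 1 = true :=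
  ⟨(T.l 1), by decide +kernel⟩

def B101R_020 :
    ∃ t, chk3 (onCell 0 67108864 0 1073741824 335544320 67108864 (corT true 1 c0F cB101R gF0q1 gF2q1 gF0q0 gF1q0 true true)) t 1 1 1 = true :=
  ⟨(T.l 1), by decide +kernel⟩

def B101R_021 :
    ∃ t, chk3 (onCell 0 67108864 0 1073741824 335544320 67108864 (corT true 1 c0F cB101R gF0q1 gF2q1 gF1q0 gF2q0 true false)) t 1 1 1 = true :=
  ⟨(T.l 1), by decide +kernel⟩

def B101R_030 :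
    ∃ t, chk3 (onCell 0 67108864 0 1073741824 335544320 67108864 (corT true 1 c0F cB101R gF0q1 gF3q1 gF0q0 gF1q0 true true)) t 1 1 1 = true :=
  ⟨(T.l 1), by decide +kernel⟩

def B101R_031 :
    ∃ t, chk3 (onCell 0 67108864 0 1073741824 335544320 67108864 (corT true 1 c0F cB101R gF0q1 gF3q1 gF1q0 gF2q0 true false)) t 1 1 1 = true :=
  ⟨(T.l 1), by decide +kernel⟩

def B101R_040 :
    ∃ t, chk3 (onCell 0 67108864 0 1073741824 335544320 67108864 (corT true 1 c0F cB101R gF0q1 gF4q1 gF0q0 gF1q0 true true)) t 1 1 1 = true :=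
  ⟨(T.l 1), by decide +kernel⟩

def B101R_041 :
    ∃ t, chk3 (onCell 0 67108864 0 1073741824 335544320 67108864 (corT true 1 c0F cB101R gF0q1 gF4q1 gF1q0 gF2q0 true false)) t 1 1 1 = true :=
  ⟨(T.l 1), by decide +kernel⟩

def B102E_000 :
    ∃ t, chk3 (onCell 0 67108864 0 1073741824 335544320 67108864 (corX 1 c0F cB102E tB102E gF0q1 gF0q2 gF0q0 gF1q0 gF0q0 true true)) t 1 1 1 = true :=
  ⟨(T.b (T.b (T.l 1) (T.a (T.l 207) (T.b (T.l 1) (T.l 1)))) (T.b (T.a (T.l 207) (T.b (T.a (T.l 207) (T.b (T.a (T.l 207) (T.b (T.b (T.l 1) (T.l 207)) (T.b (T.l 207) (T.l 204)))) (T.a (T.l 204) (T.b (T.l 204) (T.l 204))))) (T.a (T.b (T.l 207) (T.l 204)) (T.b (T.b (T.l 204) (T.l 204)) (T.l 204))))) (T.b (T.a (T.l 207) (T.a (T.b (T.l 204) (T.l 2)) (T.b (T.l 204) (T.l 2)))) (T.l 2)))), by decide +kernel⟩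

def B102E_001 :
    ∃ t, chk3 (onCell 0 67108864 0 1073741824 335544320 67108864 (corT true 1 c0F cB102E gF0q1 gF0q2 gF1q0 gF2q0 true false)) t 1 1 1 = true :=
  ⟨(T.b (T.l 1) (T.b (T.l 1) (T.a (T.b (T.l 204) (T.l 204)) (T.b (T.b (T.b (T.l 1) (T.a (T.l 204) (T.l 204))) (T.a (T.l 204) (T.l 204))) (T.a (T.l 204) (T.l 204)))))), by decide +kernel⟩

end Pool.Agent.Strip051.G.I5_16_3_8.Tab.CF
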