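import Pool.Agent.Strip051.G.I5_16_3_8.Gn
import Pool.Agent.Strip051.PB.Corns

/-! # Certificates of the aligned corners (generated) -/

set_option linter.all false

namespace Pool.Agent.Strip051.G.I5_16_3_8.Tab.CF

open Pool.Agent.Strip051.PB

def B102E_010 :
    ∃ t, chk3 (onCell 0 67108864 0 1073741824 335544320 67108864 (corT true 1 c0F cB102E gF0q1 gF1q2 gF0q0 gF1q0 true true)) t 1 1 1 = true :=
  ⟨(T.b (T.b (T.l 1) (T.a (T.b (T.b (T.b (T.l 1) (T.b (T.b (T.a (T.b (T.l 1) (T.c (T.a (T.l 204) (T.a (T.l 460) (T.l 1))) (T.a (T.l 204) (T.a (T.l 204) (T.l 1))))) (T.l 1)) (T.a (T.c (T.l 204) (T.l 204)) (T.c (T.b (T.a (T.l 460) (T.b (T.l 1) (T.c (T.l 460) (T.l 460)))) (T.l 204)) (T.b (T.a (T.l 460) (T.b (T.l 1) (T.c (T.l 460) (T.l 460)))) (T.l 460))))) (T.c (T.l 204) (T.l 204)))) (T.l 204)) (T.l 204)) (T.b (T.b (T.b (T.l 1) (T.b (T.a (T.a (T.b (T.l 1) (T.b (T.l 1) (T.b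 (T.l 1) (T.c (T.l 460) (T.l 460))))) (T.l 1)) (T.l 1)) (T.a (T.a (T.c (T.l 204) (T.l 204)) (T.c (T.b (T.a (T.l 460) (T.c (T.l 460) (T.c (T.l 460) (T.l 460)))) (T.l 204)) (T.b (T.b (T.a (T.c (T.l 460) (T.l 460)) (T.b (T.l 1) (T.l 460))) (T.l 460)) (T.l 204)))) (T.a (T.b (T.b (T.a (T.a (T.b (T.l 1) (T.c (T.l 460) (T.l 460))) (T.l 1)) (T.l 1)) (T.c (T.c (T.l 460) (T.l 460)) (T.a (T.l 460) (T.l 460)))) (T.c (T.l 204) (T.l 460))) (T.b (T.b (T.l 1) (T.b (T.l 1) (T.c (T.a (T.l 460) (T.c (T.l 460) (T.l 460))) (T.a (T.l 460) (T.c (T.l 460) (T.l 460)))))) (T.b (T.c (T.l 460) (T.c (T.l 460) (T.l 460))) (T.l 460))))))) (T.a (T.a (T.l 204) (T.b (T.l 460) (T.l 204))) (T.b (T.a (T.l 460) (T.c (T.l 204) (T.l 204))) (T.l 204)))) (T.a (T.l 204) (T.l 204))))) (T.a (T.l 204) (T.b (T.a (T.b (T.l 204) (T.l 204)) (T.b (T.l 204) (T.l 204))) (T.l 2)))), by decide +kernel⟩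

def B102E_011 :
    ∃ t, chk3 (onCell 0 67108864 0 1073741824 335544320 67108864 (corT true 1 c0F cB102E gF0q1 gF1q2 gF1q0 gF2q0 true false)) t 1 1 1 = true :=
  ⟨(T.b (T.l 1) (T.a (T.b (T.b (T.l 1) (T.l 204)) (T.l 204)) (T.b (T.b (T.l 1) (T.b (T.l 1) (T.l 204))) (T.a (T.b (T.l 204) (T.l 204)) (T.l 204))))), by decide +kernel⟩

def B102L_200 :
    ∃ t, chk3 (onCell 0 67108864 0 1073741824 335544320 67108864 (corT true 1 c0F cB102L gF2q1 gF0q2 gF0q0 gF1q0 true true)) t 1 1 1 = true :=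
  ⟨(T.b (T.b (T.l 2) (T.a (T.l 204) (T.b (T.l 2) (T.b (T.l 2) (T.l 204))))) (T.a (T.b (T.l 204) (T.l 0)) (T.b (T.b (T.b (T.l 204) (T.l 204)) (T.l 204)) (T.a (T.l 0) (T.b (T.l 204) (T.l 0)))))), by decide +kernel⟩

def B102L_201 :
    ∃ t, chk3 (onCell 0 67108864 0 1073741824 335544320 67108864 (corT true 1 c0F cB102L gF2q1 gF0q2 gF1q0 gF2q0 true false)) t 1 1 1 = true :=
  ⟨(T.b (T.b (T.a (T.a (T.l 204) (T.b (T.l 204) (T.l 204))) (T.b (T.l 204) (T.l 204))) (T.a (T.l 204) (T.b (T.l 204) (T.b (T.l 204) (T.l 204))))) (T.b (T.a (T.l 1) (T.b (T.b (T.l 204) (T.l 1)) (T.l 1))) (T.l 1))), by decide +kernel⟩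

def B102L_210 :
    ∃ t, chk3 (onCell 0 67108864 0 1073741824 335544320 67108864 (corT true 1 c0F cB102L gF2q1 gF1q2 gF0q0 gF1q0 true true)) t 1 1 1 = true :=
  ⟨(T.b (T.b (T.a (T.a (T.l 204) (T.b (T.l 204) (T.l 204))) (T.b (T.l 204) (T.l 204))) (T.a (T.l 204) (T.b (T.l 204) (T.l 204)))) (T.a (T.l 0) (T.a (T.l 0) (T.b (T.b (T.l 204) (T.l 204)) (T.b (T.l 204) (T.l 0)))))), by decide +kernel⟩

def B102L_211 :
    ∃ t, chk3 (onCell 0 67108864 0 1073741824 335544320 67108864 (corT true 1 c0F cB102L gF2q1 gF1q2 gF1q0 gF2q0 true false)) t 1 1 1 = true :=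
  ⟨(T.l 1), by decide +kernel⟩

def B102L_300 :
    ∃ t, chk3 (onCell 0 67108864 0 1073741824 335544320 67108864 (corT true 1 c0F cB102L gF3q1 gF0q2 gF0q0 gF1q0 true true)) t 1 1 1 = true :=
  ⟨(T.b (T.b (T.l 2) (T.a (T.l 204) (T.l 2))) (T.a (T.l 0) (T.b (T.b (T.b (T.l 204) (T.l 204)) (T.l 204)) (T.a (T.l 204) (T.l 0))))), by decide +kernel⟩

def B102L_301 :
    ∃ t, chk3 (onCell 0 67108864 0 1073741824 335544320 67108864 (corT true 1 c0F cB102L gF3q1 gF0q2 gF1q0 gF2q0 true false)) t 1 1 1 = true :=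
  ⟨(T.b (T.b (T.a (T.a (T.l 204) (T.b (T.l 204) (T.l 204))) (T.b (T.l 204) (T.l 204))) (T.a (T.l 204) (T.b (T.l 204) (T.l 204)))) (T.b (T.a (T.l 204) (T.b (T.b (T.l 204) (T.l 204)) (T.l 1))) (T.l 1))), by decide +kernel⟩

def B102L_310 :
    ∃ t, chk3 (onCell 0 67108864 0 1073741824 335544320 67108864 (corT true 1 c0F cB102L gF3q1 gF1q2 gF0q0 gF1q0 true true)) t 1 1 1 = true :=
  ⟨(T.b (T.b (T.a (T.a (T.l 204) (T.b (T.l 204) (T.l 204))) (T.b (T.l 204) (T.l 204))) (T.a (T.l 204) (T.b (T.l 204) (T.l 204)))) (T.a (T.l 0) (T.a (T.l 204) (T.b (T.l 0) (T.l 0))))), by decide +kernel⟩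

def B102L_311 :
    ∃ t, chk3 (onCell 0 67108864 0 1073741824 335544320 67108864 (corT true 1 c0F cB102L gF3q1 gF1q2 gF1q0 gF2q0 true false)) t 1 1 1 = true :=
  ⟨(T.l 1), by decide +kernel⟩

def B102L_400 :
    ∃ t, chk3 (onCell 0 67108864 0 1073741824 335544320 67108864 (corT true 1 c0F cB102L gF4q1 gF0q2 gF0q0 gF1q0 true true)) t 1 1 1 = true :=
  ⟨(T.b (T.b (T.l 2) (T.l 2)) (T.b (T.b (T.a (T.l 204) (T.l 2)) (T.l 204)) (T.l 204))), by decide +kernel⟩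

def B102L_401 :
    ∃ t, chk3 (onCell 0 67108864 0 1073741824 335544320 67108864 (corT true 1 c0F cB102L gF4q1 gF0q2 gF1q0 gF2q0 true false)) t 1 1 1 = true :=
  ⟨(T.b (T.b (T.a (T.a (T.l 204) (T.b (T.l 204) (T.l 204))) (T.b (T.l 204) (T.l 204))) (T.a (T.l 204) (T.b (T.l 204) (T.l 204)))) (T.b (T.a (T.l 204) (T.b (T.l 220) (T.l 204))) (T.l 1))), by decide +kernel⟩

def B102L_410 :
    ∃ t, chk3 (onCell 0 67108864 0 1073741824 335544320 67108864 (corT true 1 c0F cB102L gF4q1 gF1q2 gF0q0 gF1q0 true true)) t 1 1 1 = true :=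
  ⟨(T.b (T.a (T.a (T.l 204) (T.b (T.b (T.l 204) (T.l 204)) (T.l 204))) (T.b (T.b (T.l 204) (T.l 204)) (T.b (T.l 204) (T.l 204)))) (T.a (T.l 204) (T.b (T.b (T.l 204) (T.l 204)) (T.l 204)))), by decide +kernel⟩

def B102L_411 :
    ∃ t, chk3 (onCell 0 67108864 0 1073741824 335544320 67108864 (corT true 1 c0F cB102L gF4q1 gF1q2 gF1q0 gF2q0 true false)) t 1 1 1 = true :=
  ⟨(T.l 1), by decide +kernel⟩

def B102R_040 :
    ∃ t, chk3 (onCell 0 67108864 0 1073741824 335544320 67108864 (corT true 1 c0F cB102R gF0q1 gF4q2 gF0q0 gF1q0 true true)) t 1 1 1 = true :=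
  ⟨(T.l 1), by decide +kernel⟩

def B102R_041 :
    ∃ t, chk3 (onCell 0 67108864 0 1073741824 335544320 67108864 (corT true 1 c0F cB102R gF0q1 gF4q2 gF1q0 gF2q0 true false)) t 1 1 1 = true :=
  ⟨(T.l 1), by decide +kernel⟩

def B202E_000 :
    ∃ t, chk3 (onCell 0 67108864 0 1073741824 335544320 67108864 (corT true 1 c0F cB202E gF0q2 gF0q2 gF0q0 gF1q0 true true)) t 1 1 1 = true :=
  ⟨(T.l 1), by decide +kernel⟩

def B202E_001 :
    ∃ t, chk3 (onCell 0 67108864 0 1073741824 335544320 67108864 (corT true 1 c0F cB202E gF0q2 gF0q2 gF1q0 gF2q0 true false)) t 1 1 1 = true :=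
  ⟨(T.l 1), by decide +kernel⟩

def B202E_010 :
    ∃ t, chk3 (onCell 0 67108864 0 1073741824 335544320 67108864 (corT true 1 c0F cB202E gF0q2 gF1q2 gF0q0 gF1q0 true true)) t 1 1 1 = true :=
  ⟨(T.l 1), by decide +kernel⟩

def B202E_011 :
    ∃ t, chk3 (onCell 0 67108864 0 1073741824 335544320 67108864 (corT true 1 c0F cB202E gF0q2 gF1q2 gF1q0 gF2q0 true false)) t 1 1 1 = true :=
  ⟨(T.l 1), by decide +kernel⟩

def B202E_100 :
    ∃ t, chk3 (onCell 0 67108864 0 1073741824 335544320 67108864 (corT true 1 c0F cB202E gF1q2 gF0q2 gF0q0 gF1q0 true true)) t 1 1 1 = true :=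
  ⟨(T.l 1), by decide +kernel⟩

def B202E_101 :
    ∃ t, chk3 (onCell 0 67108864 0 1073741824 335544320 67108864 (corT true 1 c0F cB202E gF1q2 gF0q2 gF1q0 gF2q0 true false)) t 1 1 1 = true :=
  ⟨(T.l 1), by decide +kernel⟩

def B202E_110 :
    ∃ t, chk3 (onCell 0 67108864 0 1073741824 335544320 67108864 (corT true 1 c0F cB202E gF1q2 gF1q2 gF0q0 gF1q0 true true)) t 1 1 1 = true :=
  ⟨(T.l 1), by decide +kernel⟩

def B202E_111 :
    ∃ t, chk3 (onCell 0 67108864 0 1073741824 335544320 67108864 (corT true 1 c0F cB202E gF1q2 gF1q2 gF1q0 gF2q0 true false)) t 1 1 1 = true :=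
  ⟨(T.l 1), by decide +kernel⟩

def B202L_400 :
    ∃ t, chk3 (onCell 0 67108864 0 1073741824 335544320 67108864 (corT true 1 c0F cB202L gF4q2 gF0q2 gF0q0 gF1q0 true true)) t 1 1 1 = true :=
  ⟨(T.l 2), by decide +kernel⟩

def B202L_401 :
    ∃ t, chk3 (onCell 0 67108864 0 1073741824 335544320 67108864 (corT true 1 c0F cB202L gF4q2 gF0q2 gF1q0 gF2q0 true false)) t 1 1 1 = true :=
  ⟨(T.a (T.a (T.l 204) (T.l 0)) (T.b (T.l 204) (T.l 0))), by decide +kernel⟩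

def B202L_410 :
    ∃ t, chk3 (onCell 0 67108864 0 1073741824 335544320 67108864 (corT true 1 c0F cB202L gF4q2 gF1q2 gF0q0 gF1q0 true true)) t 1 1 1 = true :=
  ⟨(T.a (T.a (T.l 0) (T.l 0)) (T.b (T.l 204) (T.l 0))), by decide +kernel⟩

def B202L_411 :
    ∃ t, chk3 (onCell 0 67108864 0 1073741824 335544320 67108864 (corT true 1 c0F cB202L gF4q2 gF1q2 gF1q0 gF2q0 true false)) t 1 1 1 = true :=
  ⟨(T.b (T.a (T.l 1) (T.l 204)) (T.a (T.a (T.l 0) (T.l 0)) (T.l 0))), by decide +kernel⟩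

def B202R_040 :
    ∃ t, chk3 (onCell 0 67108864 0 1073741824 335544320 67108864 (corX 1 c0F cB202R tB202R gF0q2 gF4q2 gF0q0 gF1q0 gF0q0 true true)) t 1 1 1 = true :=
  ⟨(T.b (T.b (T.l 1) (T.a (T.l 207) (T.b (T.l 207) (T.a (T.l 207) (T.b (T.l 207) (T.l 204)))))) (T.b (T.a (T.l 204) (T.b (T.a (T.l 204) (T.l 204)) (T.l 2))) (T.l 2))), by decide +kernel⟩

def B202R_041 :
    ∃ t, chk3 (onCell 0 67108864 0 1073741824 335544320 67108864 (corT true 1 c0F cB202R gF0q2 gF4q2 gF1q0 gF2q0 true false)) t 1 1 1 = true :=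
  ⟨(T.b (T.l 1) (T.b (T.a (T.l 204) (T.b (T.a (T.l 204) (T.l 204)) (T.b (T.l 0) (T.l 0)))) (T.a (T.a (T.l 204) (T.b (T.l 204) (T.l 16))) (T.a (T.b (T.l 204) (T.l 204)) (T.l 0))))), by decide +kernel⟩

def B202R_140 :
    ∃ t, chk3 (onCell 0 67108864 0 1073741824 335544320 67108864 (corT true 1 c0F cB202R gF1q2 gF4q2 gF0q0 gF1q0 true true)) t 1 1 1 = true :=
  ⟨(T.b (T.l 1) (T.b (T.l 1) (T.b (T.a (T.l 816) (T.a (T.a (T.l 816) (T.l 816)) (T.b (T.l 816) (T.l 816)))) (T.b (T.a (T.l 816) (T.a (T.l 0) (T.l 0))) (T.a (T.l 2) (T.l 2)))))), by decide +kernel⟩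

def B202R_141 :
    ∃ t, chk3 (onCell 0 67108864 0 1073741824 335544320 67108864 (corT true 1 c0F cB202R gF1q2 gF4q2 gF1q0 gF2q0 true false)) t 1 1 1 = true :=
  ⟨(T.b (T.l 1) (T.b (T.l 1) (T.b (T.l 1) (T.a (T.a (T.l 816) (T.b (T.l 816) (T.l 0))) (T.b (T.l 0) (T.l 0)))))), by decide +kernel⟩

end Pool.Agent.Strip051.G.I5_16_3_8.Tab.CF
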