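import Pool.Agent.Strip051.PB.Cuts

/-! # Tables I5_16_3_8 (generated) -/

namespace Pool.Agent.Strip051.G.I5_16_3_8.Tab

open Pool.Agent.Strip051.PB

noncomputable def c1g : Fn1 := ⟨_, _, fun h1 => (enc_sqrtg (enc_sub (enc_pnc _ 1) (enc_scale 3 4 (enc_sq h1))))⟩
noncomputable def kcg_3 : Fn2 := ⟨_, _, fun h1 h2 => (enc_subr 11 32 h2)⟩
noncomputable def kcg_6 : Fn2 := ⟨_, _, fun h1 h2 => (enc_add h1 (enc_rat _ 11 50))⟩
noncomputable def kcg_9 : Fn2 := ⟨_, _, fun h1 h2 => (enc_add h1 (enc_rat _ 39 100))⟩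
noncomputable def kcg_12 : Fn2 := ⟨_, _, fun h1 h2 => (enc_add h1 (enc_rat _ 9 20))⟩
noncomputable def kcg_13 : Fn2 := ⟨_, _, fun h1 h2 => (enc_scale 1527 50000 h1)⟩
noncomputable def kcg_16 : Fn2 := ⟨_, _, fun h1 h2 => (enc_scale 6233 2500 h1)⟩
noncomputable def kcg_28 : Fn2 := ⟨_, _, fun h1 h2 => (enc_sub (enc_rat _ 1699 500000) (enc_scale 63 1250 (kcg_3.enc h1 h2)))⟩
noncomputable def kcg_36 : Fn2 := ⟨_, _, fun h1 h2 => (enc_scale 607 20000 h1)⟩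
noncomputable def kcg_39 : Fn2 := ⟨_, _, fun h1 h2 => (enc_scale 1249 500 h1)⟩
noncomputable def kcg_49 : Fn2 := ⟨_, _, fun h1 h2 => (enc_add (enc_scale 6037 50000 (kcg_3.enc h1 h2)) (enc_rat _ 101 250000))⟩
noncomputable def kcg_57 : Fn2 := ⟨_, _, fun h1 h2 => (enc_add h1 (enc_rat _ 33 100))⟩
noncomputable def kcg_58 : Fn2 := ⟨_, _, fun h1 h2 => (enc_scale 961 60000 h1)⟩
noncomputable def kcg_61 : Fn2 := ⟨_, _, fun h1 h2 => (enc_scale 13249 6000 h1)⟩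
noncomputable def kcg_73 : Fn2 := ⟨_, _, fun h1 h2 => (enc_sub (enc_rat _ 23849 100000) (enc_scale 495221 100000 (kcg_3.enc h1 h2)))⟩
noncomputable def kcg_80 : Fn2 := ⟨_, _, fun h1 h2 => (enc_add h1 (enc_rat _ 229 829))⟩
noncomputable def kcg_81 : Fn2 := ⟨_, _, fun h1 h2 => (enc_scale 1029618 2785625 h1)⟩
noncomputable def kcg_85 : Fn2 := ⟨_, _, fun h1 h2 => (enc_scale 383827 4457000 h1)⟩
noncomputable def kcg_97 : Fn2 := ⟨_, _, fun h1 h2 => (enc_sub (enc_rat _ 6906591 1000000) (enc_scale 1697153 50000 (kcg_3.enc h1 h2)))⟩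
noncomputable def kcg_102 : Fn2 := ⟨_, _, fun h1 h2 => (enc_scale 17318639 23310000 h1)⟩
noncomputable def kcg_107 : Fn2 := ⟨_, _, fun h1 h2 => (enc_scale 1368679 466200 h1)⟩
noncomputable def kcg_117 : Fn2 := ⟨_, _, fun h1 h2 => (enc_sub (enc_rat _ 36117 1000000) (enc_scale 532087 25000 (kcg_3.enc h1 h2)))⟩
noncomputable def kcg_127 : Fn2 := ⟨_, _, fun h1 h2 => (enc_add h1 (enc_rat _ 3 25))⟩
noncomputable def kcg_130 : Fn2 := ⟨_, _, fun h1 h2 => (enc_add h1 (enc_rat _ 121 746))⟩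
noncomputable def kcg_131 : Fn2 := ⟨_, _, fun h1 h2 => (enc_scale 633727 862400 h1)⟩
noncomputable def kcg_136 : Fn2 := ⟨_, _, fun h1 h2 => (enc_scale 8898661 2156000 h1)⟩
noncomputable def kcg_145 : Fn2 := ⟨_, _, fun h1 h2 => (enc_subr 175999 1000000 (enc_scale 9037 100000 (kcg_3.enc h1 h2)))⟩
noncomputable def kcg_150 : Fn2 := ⟨_, _, fun h1 h2 => (enc_scale 11410443 15740000 h1)⟩
noncomputable def kcg_155 : Fn2 := ⟨_, _, fun h1 h2 => (enc_scale 4277937 1574000 h1)⟩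
noncomputable def kcg_163 : Fn2 := ⟨_, _, fun h1 h2 => (enc_add (enc_scale 3328093 100000 (kcg_3.enc h1 h2)) (enc_rat _ 839 125000))⟩
noncomputable def kcg_171 : Fn2 := ⟨_, _, fun h1 h2 => (enc_add h1 (enc_rat _ 2 25))⟩
noncomputable def kcg_172 : Fn2 := ⟨_, _, fun h1 h2 => (enc_scale 25621 40000 h1)⟩
noncomputable def kcg_177 : Fn2 := ⟨_, _, fun h1 h2 => (enc_scale 11 250 h1)⟩
noncomputable def kcg_186 : Fn2 := ⟨_, _, fun h1 h2 => (enc_subr 211771 100000 (enc_scale 198349 6250 (kcg_3.enc h1 h2)))⟩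
noncomputable def kcg_194 : Fn2 := ⟨_, _, fun h1 h2 => (enc_scale 10999 45000 h1)⟩
noncomputable def kcg_199 : Fn2 := ⟨_, _, fun h1 h2 => (enc_scale 3133 2250 h1)⟩
noncomputable def kcg_209 : Fn2 := ⟨_, _, fun h1 h2 => (enc_subr 1729907 250000 (enc_scale 185401 50000 (kcg_3.enc h1 h2)))⟩
noncomputable def kcg_214 : Fn2 := ⟨_, _, fun h1 h2 => (enc_scale 293 4375 h1)⟩
noncomputable def kcg_218 : Fn2 := ⟨_, _, fun h1 h2 => (enc_mul (enc_norm (kcg_3.enc h1 h2)) (enc_scale 5457 3500 h1))⟩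
noncomputable def kcg_226 : Fn2 := ⟨_, _, fun h1 h2 => (enc_sub (enc_rat _ 11 50) h1)⟩
noncomputable def kcg_227 : Fn2 := ⟨_, _, fun h1 h2 => (enc_sub (enc_rat _ 39 100) h1)⟩
noncomputable def kcg_228 : Fn2 := ⟨_, _, fun h1 h2 => (enc_sub (enc_rat _ 9 20) h1)⟩
noncomputable def kcg_249 : Fn2 := ⟨_, _, fun h1 h2 => (enc_sub (enc_rat _ 33 100) h1)⟩
noncomputable def kcg_259 : Fn2 := ⟨_, _, fun h1 h2 => (enc_sub (enc_rat _ 229 829) h1)⟩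
noncomputable def kcg_280 : Fn2 := ⟨_, _, fun h1 h2 => (enc_sub (enc_rat _ 3 25) h1)⟩
noncomputable def kcg_281 : Fn2 := ⟨_, _, fun h1 h2 => (enc_sub (enc_rat _ 121 746) h1)⟩
noncomputable def kcg_301 : Fn2 := ⟨_, _, fun h1 h2 => (enc_sub (enc_rat _ 2 25) h1)⟩
noncomputable def kcg : Fn2 := ⟨_, _, fun h1 h2 => (enc_norm (enc_case h1 (enc_case (kcg_6.enc h1 h2) (enc_case (kcg_9.enc h1 h2) (enc_case (kcg_12.enc h1 h2) (enc_add (enc_add (enc_add (kcg_13.enc h1 h2) (enc_rat _ 179957 1000000)) (enc_mul (enc_norm (kcg_3.enc h1 h2)) (enc_norm (enc_subr 123783 100000 (enc_neg (kcg_16.enc h1 h2)))))) (enc_mul (enc_norm (kcg_28.enc h1 h2)) (enc_norm (enc_mul (enc_norm (enc_add h1 (enc_rat _ 1 2))) (enc_norm (enc_sub (enc_neg (enc_rat _ 9 20)) h1)))))) (enc_add (enc_add (enc_add (kcg_36.enc h1 h2) (enc_rat _ 359743 2000000)) (enc_mul (enc_norm (kcg_3.enc h1 h2)) (enc_norm (enc_subr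 123999 100000 (enc_neg (kcg_39.enc h1 h2)))))) (enc_mul (enc_norm (kcg_49.enc h1 h2)) (enc_norm (enc_mul (enc_norm (kcg_12.enc h1 h2)) (enc_norm (enc_sub (enc_neg (enc_rat _ 39 100)) h1))))))) (enc_case (kcg_57.enc h1 h2) (enc_add (enc_add (enc_add (kcg_58.enc h1 h2) (enc_rat _ 348563 2000000)) (enc_mul (enc_norm (kcg_3.enc h1 h2)) (enc_norm (enc_subr 225391 200000 (enc_neg (kcg_61.enc h1 h2)))))) (enc_mul (enc_norm (kcg_73.enc h1 h2)) (enc_norm (enc_mul (enc_norm (kcg_9.enc h1 h2)) (enc_norm (enc_sub (enc_neg (enc_rat _ 33 100)) h1)))))) (enc_case (kcg_80.enc h1 h2) (enc_add (enc_add (enc_sub (enc_rat _ 52394217 1114250000) (kcg_81.enc h1 h2)) (enc_mul (enc_norm (kcg_3.enc h1 h2)) (enc_norm (enc_subr 190170773 445700000 (enc_neg (kcg_85.enc h1 h2)))))) (enc_mul (enc_norm (kcg_97.enc h1 h2)) (enc_norm (enc_mul (enc_norm (kcg_57.enc h1 h2)) (enc_norm (enc_sub (enc_neg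 (enc_rat _ 229 829)) h1)))))) (enc_add (enc_add (enc_subr 8174741 145687500 (enc_neg (kcg_102.enc h1 h2))) (enc_mul (enc_norm (kcg_3.enc h1 h2)) (enc_norm (enc_add (kcg_107.enc h1 h2) (enc_rat _ 95125841 233100000))))) (enc_mul (enc_norm (kcg_117.enc h1 h2)) (enc_norm (enc_mul (enc_norm (kcg_80.enc h1 h2)) (enc_norm (enc_sub (enc_neg (enc_rat _ 11 50)) h1))))))))) (enc_case (kcg_127.enc h1 h2) (enc_case (kcg_130.enc h1 h2) (enc_add (enc_add (enc_subr 5323659 98000000 (enc_neg (kcg_131.enc h1 h2))) (enc_mul (enc_norm (kcg_3.enc h1 h2)) (enc_norm (enc_add (kcg_136.enc h1 h2) (enc_rat _ 6568319 9800000))))) (enc_mul (enc_norm (kcg_145.enc h1 h2)) (enc_norm (enc_mul (enc_norm (kcg_6.enc h1 h2)) (enc_norm (enc_sub (enc_neg (enc_rat _ 121 746)) h1)))))) (enc_add (enc_add (enc_subr 20743723 393500000 (enc_neg (kcg_150.enc h1 h2))) (enc_mul (enc_norm (kcg_3.enc h1 h2)) (enc_norm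 (enc_add (kcg_155.enc h1 h2) (enc_rat _ 34755111 78700000))))) (enc_mul (enc_norm (kcg_163.enc h1 h2)) (enc_norm (enc_mul (enc_norm (kcg_130.enc h1 h2)) (enc_norm (enc_sub (enc_neg (enc_rat _ 3 25)) h1))))))) (enc_case (kcg_171.enc h1 h2) (enc_add (enc_add (enc_subr 42587 1000000 (enc_neg (kcg_172.enc h1 h2))) (enc_mul (enc_norm (kcg_3.enc h1 h2)) (enc_norm (enc_add (kcg_177.enc h1 h2) (enc_rat _ 483 4000))))) (enc_mul (enc_norm (kcg_186.enc h1 h2)) (enc_norm (enc_mul (enc_norm (kcg_127.enc h1 h2)) (enc_norm (enc_sub (enc_neg (enc_rat _ 2 25)) h1)))))) (enc_case (enc_add h1 (enc_rat _ 7 200)) (enc_add (enc_add (enc_subr 98089 9000000 (enc_neg (kcg_194.enc h1 h2))) (enc_mul (enc_norm (kcg_3.enc h1 h2)) (enc_norm (enc_sub (enc_rat _ 5251 900000) (kcg_199.enc h1 h2))))) (enc_mul (enc_norm (kcg_209.enc h1 h2)) (enc_norm (enc_mul (enc_norm (kcg_171.enc h1 h2)) (enc_norm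 (enc_sub (enc_neg (enc_rat _ 7 200)) h1)))))) (enc_sub (kcg_214.enc h1 h2) (kcg_218.enc h1 h2)))))) (enc_neg (enc_case (kcg_226.enc h1 h2) (enc_case (kcg_227.enc h1 h2) (enc_case (kcg_228.enc h1 h2) (enc_add (enc_add (enc_sub (enc_rat _ 179957 1000000) (kcg_13.enc h1 h2)) (enc_mul (enc_norm (kcg_3.enc h1 h2)) (enc_norm (enc_subr 123783 100000 (kcg_16.enc h1 h2))))) (enc_mul (enc_norm (kcg_28.enc h1 h2)) (enc_norm (enc_mul (enc_norm (enc_sub (enc_rat _ 1 2) h1)) (enc_norm (enc_subr 9 20 h1)))))) (enc_add (enc_add (enc_sub (enc_rat _ 359743 2000000) (kcg_36.enc h1 h2)) (enc_mul (enc_norm (kcg_3.enc h1 h2)) (enc_norm (enc_subr 123999 100000 (kcg_39.enc h1 h2))))) (enc_mul (enc_norm (kcg_49.enc h1 h2)) (enc_norm (enc_mul (enc_norm (kcg_228.enc h1 h2)) (enc_norm (enc_subr 39 100 h1))))))) (enc_case (kcg_249.enc h1 h2) (enc_add (enc_add (enc_sub (enc_rat _ 348563 2000000)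 (kcg_58.enc h1 h2)) (enc_mul (enc_norm (kcg_3.enc h1 h2)) (enc_norm (enc_subr 225391 200000 (kcg_61.enc h1 h2))))) (enc_mul (enc_norm (kcg_73.enc h1 h2)) (enc_norm (enc_mul (enc_norm (kcg_227.enc h1 h2)) (enc_norm (enc_subr 33 100 h1)))))) (enc_case (kcg_259.enc h1 h2) (enc_add (enc_add (enc_add (kcg_81.enc h1 h2) (enc_rat _ 52394217 1114250000)) (enc_mul (enc_norm (kcg_3.enc h1 h2)) (enc_norm (enc_subr 190170773 445700000 (kcg_85.enc h1 h2))))) (enc_mul (enc_norm (kcg_97.enc h1 h2)) (enc_norm (enc_mul (enc_norm (kcg_249.enc h1 h2)) (enc_norm (enc_subr 229 829 h1)))))) (enc_add (enc_add (enc_subr 8174741 145687500 (kcg_102.enc h1 h2)) (enc_mul (enc_norm (kcg_3.enc h1 h2)) (enc_norm (enc_sub (enc_rat _ 95125841 233100000) (kcg_107.enc h1 h2))))) (enc_mul (enc_norm (kcg_117.enc h1 h2)) (enc_norm (enc_mul (enc_norm (kcg_259.enc h1 h2)) (enc_norm (enc_subr 11 50 h1)))))))))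 (enc_case (kcg_280.enc h1 h2) (enc_case (kcg_281.enc h1 h2) (enc_add (enc_add (enc_subr 5323659 98000000 (kcg_131.enc h1 h2)) (enc_mul (enc_norm (kcg_3.enc h1 h2)) (enc_norm (enc_sub (enc_rat _ 6568319 9800000) (kcg_136.enc h1 h2))))) (enc_mul (enc_norm (kcg_145.enc h1 h2)) (enc_norm (enc_mul (enc_norm (kcg_226.enc h1 h2)) (enc_norm (enc_subr 121 746 h1)))))) (enc_add (enc_add (enc_subr 20743723 393500000 (kcg_150.enc h1 h2)) (enc_mul (enc_norm (kcg_3.enc h1 h2)) (enc_norm (enc_sub (enc_rat _ 34755111 78700000) (kcg_155.enc h1 h2))))) (enc_mul (enc_norm (kcg_163.enc h1 h2)) (enc_norm (enc_mul (enc_norm (kcg_281.enc h1 h2)) (enc_norm (enc_subr 3 25 h1))))))) (enc_case (kcg_301.enc h1 h2) (enc_add (enc_add (enc_subr 42587 1000000 (kcg_172.enc h1 h2)) (enc_mul (enc_norm (kcg_3.enc h1 h2)) (enc_norm (enc_sub (enc_rat _ 483 4000) (kcg_177.enc h1 h2))))) (enc_mul (enc_norm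 (kcg_186.enc h1 h2)) (enc_norm (enc_mul (enc_norm (kcg_280.enc h1 h2)) (enc_norm (enc_subr 2 25 h1)))))) (enc_case (enc_sub (enc_rat _ 7 200) h1) (enc_add (enc_add (enc_subr 98089 9000000 (kcg_194.enc h1 h2)) (enc_mul (enc_norm (kcg_3.enc h1 h2)) (enc_norm (enc_add (kcg_199.enc h1 h2) (enc_rat _ 5251 900000))))) (enc_mul (enc_norm (kcg_209.enc h1 h2)) (enc_norm (enc_mul (enc_norm (kcg_301.enc h1 h2)) (enc_norm (enc_subr 7 200 h1)))))) (enc_sub (kcg_218.enc h1 h2) (kcg_214.enc h1 h2)))))))))⟩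
noncomputable def kf0q0_9 : Fn2 := ⟨_, _, fun h1 h2 => (enc_scale 3 2 h1)⟩
noncomputable def kf0q0_12 : Fn2 := ⟨_, _, fun h1 h2 => (enc_add (enc_pnc _ 1) (c1g.enc h1))⟩
noncomputable def kf0q0 : Fn2 := ⟨_, _, fun h1 h2 => (enc_norm (enc_add (enc_mul (enc_norm (enc_mul (enc_norm (enc_sub (c1g.enc h1) (kf0q0_9.enc h1 h2))) (enc_norm (kf0q0_12.enc h1 h2)))) (enc_inv (enc_sub (kf0q0_12.enc h1 h2) (kf0q0_9.enc h1 h2)))) (enc_mul h1 (kcg.enc (enc_norm (enc_sub (enc_scale 3 4 h1) (enc_half (c1g.enc h1)))) h2))))⟩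
noncomputable def txg_4 : Fn3 := ⟨_, _, fun h1 h2 h3 => (enc_subr 11 32 h3)⟩
noncomputable def txg_6 : Fn3 := ⟨_, _, fun h1 h2 h3 => (enc_add h1 (enc_half h2))⟩
noncomputable def txg_27 : Fn3 := ⟨_, _, fun h1 h2 h3 => (enc_add h1 (enc_rat _ 39 100))⟩
noncomputable def txg_30 : Fn3 := ⟨_, _, fun h1 h2 h3 => (enc_add h1 (enc_rat _ 9 20))⟩
noncomputable def txg_71 : Fn3 := ⟨_, _, fun h1 h2 h3 => (enc_add h1 (enc_rat _ 33 100))⟩
noncomputable def txg_104 : Fn3 := ⟨_, _, fun h1 h2 h3 => (enc_sq (enc_norm (txg_4.enc h1 h2 h3)))⟩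
noncomputable def txg_122 : Fn3 := ⟨_, _, fun h1 h2 h3 => (enc_add h1 (enc_rat _ 121 746))⟩
noncomputable def txg_124 : Fn3 := ⟨_, _, fun h1 h2 h3 => (enc_subr 3 25 h1)⟩
noncomputable def txg_127 : Fn3 := ⟨_, _, fun h1 h2 h3 => (enc_add h1 (enc_rat _ 7 200))⟩
noncomputable def txg_129 : Fn3 := ⟨_, _, fun h1 h2 h3 => (enc_add h1 (enc_rat _ 3 25))⟩
noncomputable def txg_157 : Fn3 := ⟨_, _, fun h1 h2 h3 => (enc_add h1 (enc_rat _ 2 25))⟩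
noncomputable def txg_200 : Fn3 := ⟨_, _, fun h1 h2 h3 => (enc_subr 7 200 h1)⟩
noncomputable def txg_221 : Fn3 := ⟨_, _, fun h1 h2 h3 => (enc_subr 2 25 h1)⟩
noncomputable def txg_266 : Fn3 := ⟨_, _, fun h1 h2 h3 => (enc_subr 3453 12500 h1)⟩
noncomputable def txg_268 : Fn3 := ⟨_, _, fun h1 h2 h3 => (enc_subr 811 5000 h1)⟩
noncomputable def txg_290 : Fn3 := ⟨_, _, fun h1 h2 h3 => (enc_subr 11 50 h1)⟩
noncomputable def txg_331 : Fn3 := ⟨_, _, fun h1 h2 h3 => (enc_subr 39 100 h1)⟩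
noncomputable def txg_332 : Fn3 := ⟨_, _, fun h1 h2 h3 => (enc_subr 33 100 h1)⟩
noncomputable def txg_376 : Fn3 := ⟨_, _, fun h1 h2 h3 => (enc_subr 9 20 h1)⟩
noncomputable def txg : Fn3 := ⟨_, _, fun h1 h2 h3 => (enc_case (enc_add h1 (enc_rat _ 229 829)) (enc_case (txg_27.enc h1 h2 h3) (enc_case (txg_30.enc h1 h2 h3) (enc_add (enc_add (enc_add (enc_scale 601 6250 h1) (enc_rat _ 601 12500)) (enc_mul (enc_norm (txg_4.enc h1 h2 h3)) (enc_norm (enc_add (enc_scale 1201 2500 h1) (enc_rat _ 1201 5000))))) (enc_mul (enc_norm (enc_subr 186 3125 (enc_scale 359859 100000 (txg_4.enc h1 h2 h3)))) (enc_norm (enc_mul (enc_norm (enc_add h1 (enc_rat _ 1 2))) (enc_norm (enc_sub (enc_neg (enc_rat _ 9 20)) h1)))))) (enc_add (enc_add (enc_add (enc_scale 553 5000 h1) (enc_rat _ 27289 500000)) (enc_mul (enc_norm (txg_4.enc h1 h2 h3)) (enc_norm (enc_add (enc_scale 529 3000 h1) (enc_rat _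 10337 100000))))) (enc_mul (enc_norm (enc_subr 190847 1000000 (enc_scale 103179 50000 (txg_4.enc h1 h2 h3)))) (enc_norm (enc_mul (enc_norm (txg_30.enc h1 h2 h3)) (enc_norm (enc_sub (enc_neg (enc_rat _ 39 100)) h1))))))) (enc_case (txg_71.enc h1 h2 h3) (enc_add (enc_add (enc_add (enc_scale 1483 10000 h1) (enc_rat _ 69281 1000000)) (enc_mul (enc_norm (txg_4.enc h1 h2 h3)) (enc_norm (enc_sub (enc_rat _ 899 100000) (enc_scale 197 3000 h1))))) (enc_mul (enc_norm (enc_subr 54707 125000 (enc_scale 196787 100000 (txg_4.enc h1 h2 h3)))) (enc_norm (enc_mul (enc_norm (txg_27.enc h1 h2 h3)) (enc_norm (enc_sub (enc_neg (enc_rat _ 33 100)) h1)))))) (enc_add (enc_add (enc_add (enc_add (enc_scale 26379544429 147794120000 h1) (enc_rat _ 1171167765061 14779412000000)) (enc_mul (enc_norm (txg_4.enc h1 h2 h3)) (enc_norm (enc_sub (enc_rat _ 238725870663 29558824000000) (enc_scale 20228717369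 295588240000 h1))))) (enc_mul (txg_104.enc h1 h2 h3) (enc_norm (enc_subr 120987867 222850000 (enc_neg (enc_scale 3666299 2228500 h1)))))) (enc_mul (enc_norm (enc_subr 4311 100000 (enc_neg (enc_scale 214341 100000 (txg_4.enc h1 h2 h3))))) (enc_norm (enc_mul (enc_norm (txg_71.enc h1 h2 h3)) (enc_norm (enc_sub (enc_neg (enc_rat _ 229 829)) h1)))))))) (enc_case (txg_122.enc h1 h2 h3) (enc_sub (enc_mul (enc_norm (enc_sub (enc_pnc _ 1) h2)) (enc_norm (enc_subn 1 (enc_nat 2 h2)))) (enc_mul (enc_norm (enc_nat 2 (enc_sub (enc_scale 4 3 (txg_6.enc h1 h2 h3)) h3))) (enc_norm (enc_mul (enc_norm (enc_subn 1 (enc_add (enc_scale 2 3 (txg_6.enc h1 h2 h3)) h2))) (kcg.enc h1 h3))))) (enc_case (txg_124.enc h1 h2 h3) (enc_case (txg_127.enc h1 h2 h3) (enc_case (txg_129.enc h1 h2 h3) (enc_add (enc_add (enc_add (enc_add (enc_scale 211454731 939363200 h1) (enc_rat _ 53673757543 587102000000))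 (enc_mul (enc_norm (txg_4.enc h1 h2 h3)) (enc_norm (enc_subr 1670081981 73387750000 (enc_neg (enc_scale 1477880479 5871020000 h1)))))) (enc_mul (txg_104.enc h1 h2 h3) (enc_norm (enc_subr 1521 2459375 (enc_neg (enc_scale 507 98375 h1)))))) (enc_mul (enc_norm (enc_add (enc_scale 753 50000 (txg_4.enc h1 h2 h3)) (enc_rat _ 785143 1000000))) (enc_norm (enc_mul (enc_norm (txg_122.enc h1 h2 h3)) (enc_norm (enc_sub (enc_neg (enc_rat _ 3 25)) h1)))))) (enc_case (txg_157.enc h1 h2 h3) (enc_add (enc_add (enc_add (enc_scale 7507 40000 h1) (enc_rat _ 8693 100000)) (enc_mul (enc_norm (txg_4.enc h1 h2 h3)) (enc_norm (enc_subr 307 20000 (enc_neg (enc_scale 19 100 h1)))))) (enc_mul (enc_norm (enc_sub (enc_rat _ 53441 500000) (enc_scale 3101 2000 (txg_4.enc h1 h2 h3)))) (enc_norm (enc_mul (enc_norm (txg_129.enc h1 h2 h3)) (enc_norm (enc_sub (enc_neg (enc_rat _ 2 25)) h1)))))) (enc_add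 (enc_add (enc_add (enc_scale 2233 22500 h1) (enc_rat _ 7187 90000)) (enc_mul (enc_norm (txg_4.enc h1 h2 h3)) (enc_norm (enc_subr 1997 300000 (enc_neg (enc_scale 61 750 h1)))))) (enc_mul (enc_norm (enc_sub (enc_rat _ 1870537 1000000) (enc_scale 104399 100000 (txg_4.enc h1 h2 h3)))) (enc_norm (enc_mul (enc_norm (txg_157.enc h1 h2 h3)) (enc_norm (enc_sub (enc_neg (enc_rat _ 7 200)) h1)))))))) (enc_case (txg_200.enc h1 h2 h3) (enc_add (enc_add (enc_sub (enc_rat _ 30297 400000) (enc_scale 1279 70000 h1)) (enc_mul (enc_norm (txg_4.enc h1 h2 h3)) (enc_norm (enc_subr 147 40000 (enc_scale 27 7000 h1))))) (enc_mul (enc_norm (enc_sub (enc_rat _ 95237 200000) (enc_scale 5449 10000 (txg_4.enc h1 h2 h3)))) (enc_norm (enc_mul (enc_norm (txg_127.enc h1 h2 h3)) (enc_norm (enc_sub (enc_rat _ 7 200) h1)))))) (enc_case (txg_221.enc h1 h2 h3) (enc_add (enc_add (enc_sub (enc_rat _ 715421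 9000000) (enc_scale 2821 22500 h1)) (enc_mul (enc_norm (txg_4.enc h1 h2 h3)) (enc_norm (enc_subr 179 30000 (enc_scale 26 375 h1))))) (enc_mul (enc_norm (enc_sub (enc_rat _ 819769 500000) (enc_scale 12109 20000 (txg_4.enc h1 h2 h3)))) (enc_norm (enc_mul (enc_norm (txg_200.enc h1 h2 h3)) (enc_norm (enc_sub (enc_rat _ 2 25) h1)))))) (enc_add (enc_add (enc_sub (enc_rat _ 85401 1000000) (enc_scale 797 4000 h1)) (enc_mul (enc_norm (txg_4.enc h1 h2 h3)) (enc_norm (enc_subr 361 25000 (enc_scale 701 4000 h1))))) (enc_mul (enc_norm (enc_sub (enc_rat _ 531 250000) (enc_scale 39213 20000 (txg_4.enc h1 h2 h3)))) (enc_norm (enc_mul (enc_norm (txg_221.enc h1 h2 h3)) (enc_norm (enc_sub (enc_rat _ 3 25) h1))))))))) (enc_case (txg_266.enc h1 h2 h3) (enc_case (txg_268.enc h1 h2 h3) (enc_add (enc_add (enc_sub (enc_rat _ 18611601 211000000) (enc_scale 1879 8440 h1)) (enc_mul (enc_norm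 (txg_4.enc h1 h2 h3)) (enc_norm (enc_subr 541951 21100000 (enc_scale 227 844 h1))))) (enc_mul (enc_norm (enc_sub (enc_rat _ 552457 1000000) (enc_scale 9293 25000 (txg_4.enc h1 h2 h3)))) (enc_norm (enc_mul (enc_norm (txg_124.enc h1 h2 h3)) (enc_norm (enc_sub (enc_rat _ 811 5000) h1)))))) (enc_case (txg_290.enc h1 h2 h3) (enc_add (enc_add (enc_sub (enc_rat _ 25922333 289000000) (enc_scale 13399 57800 h1)) (enc_mul (enc_norm (txg_4.enc h1 h2 h3)) (enc_norm (enc_subr 40837 14450000 (enc_scale 37 289 h1))))) (enc_mul (enc_norm (enc_subr 244717 1000000 (enc_scale 6781 2500 (txg_4.enc h1 h2 h3)))) (enc_norm (enc_mul (enc_norm (txg_268.enc h1 h2 h3)) (enc_norm (enc_sub (enc_rat _ 11 50) h1)))))) (enc_add (enc_add (enc_sub (enc_rat _ 57310991 703000000) (enc_scale 2737 14060 h1)) (enc_mul (enc_norm (txg_4.enc h1 h2 h3)) (enc_norm (enc_sub (enc_rat _ 1209701 35150000) (enc_scale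 29 703 h1))))) (enc_mul (enc_norm (enc_subr 204553 500000 (enc_scale 557 2500 (txg_4.enc h1 h2 h3)))) (enc_norm (enc_mul (enc_norm (txg_290.enc h1 h2 h3)) (enc_norm (enc_sub (enc_rat _ 3453 12500) h1)))))))) (enc_case (txg_331.enc h1 h2 h3) (enc_case (txg_332.enc h1 h2 h3) (enc_add (enc_add (enc_sub (enc_rat _ 514221 7000000) (enc_scale 139 840 h1)) (enc_mul (enc_norm (txg_4.enc h1 h2 h3)) (enc_norm (enc_sub (enc_rat _ 58701 1600000) (enc_scale 19 384 h1))))) (enc_mul (enc_norm (enc_subr 114971 1000000 (enc_neg (enc_scale 8149 100000 (txg_4.enc h1 h2 h3))))) (enc_norm (enc_mul (enc_norm (txg_266.enc h1 h2 h3)) (enc_norm (enc_sub (enc_rat _ 33 100) h1)))))) (enc_add (enc_add (enc_sub (enc_rat _ 131613 2000000) (enc_scale 8537 60000 h1)) (enc_mul (enc_norm (txg_4.enc h1 h2 h3)) (enc_norm (enc_sub (enc_rat _ 6613 200000) (enc_scale 77 2000 h1))))) (enc_mul (enc_norm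 (enc_subr 283221 1000000 (enc_neg (enc_scale 10901 100000 (txg_4.enc h1 h2 h3))))) (enc_norm (enc_mul (enc_norm (txg_332.enc h1 h2 h3)) (enc_norm (enc_sub (enc_rat _ 39 100) h1))))))) (enc_case (txg_376.enc h1 h2 h3) (enc_add (enc_add (enc_sub (enc_rat _ 107511 2000000) (enc_scale 6683 60000 h1)) (enc_mul (enc_norm (txg_4.enc h1 h2 h3)) (enc_norm (enc_sub (enc_rat _ 3573 100000) (enc_scale 17 375 h1))))) (enc_mul (enc_norm (enc_subr 232199 1000000 (enc_scale 11143 50000 (txg_4.enc h1 h2 h3)))) (enc_norm (enc_mul (enc_norm (txg_331.enc h1 h2 h3)) (enc_norm (enc_sub (enc_rat _ 9 20) h1)))))) (enc_add (enc_add (enc_sub (enc_rat _ 3633 100000) (enc_scale 3633 50000 h1)) (enc_mul (enc_norm (txg_4.enc h1 h2 h3)) (enc_norm (enc_sub (enc_rat _ 1533 10000) (enc_scale 1533 5000 h1))))) (enc_mul (enc_norm (enc_subr 247771 500000 (enc_scale 124027 25000 (txg_4.enc h1 h2 h3))))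 (enc_norm (enc_mul (enc_norm (txg_376.enc h1 h2 h3)) (enc_norm (enc_sub (enc_rat _ 1 2) h1))))))))))))⟩
noncomputable def l0q0 : Fn2 := ⟨_, _, fun h1 h2 => (enc_norm (txg.enc (enc_norm (enc_sub (enc_scale 3 4 h1) (enc_half (c1g.enc h1)))) (c1g.enc h1) h2))⟩
noncomputable def kf0q1_10 : Fn2 := ⟨_, _, fun h1 h2 => (enc_scale 3 2 h1)⟩
noncomputable def kf0q1 : Fn2 := ⟨_, _, fun h1 h2 => (enc_norm (enc_add (enc_mul (enc_norm (enc_mul (enc_norm (enc_add (enc_pnc _ 1) (enc_nat 2 (c1g.enc h1)))) (enc_norm (enc_sub (kf0q1_10.enc h1 h2) (c1g.enc h1))))) (enc_inv (enc_nat 2 (enc_sub (enc_add (enc_pnc _ 1) (kf0q1_10.enc h1 h2)) (c1g.enc h1))))) (enc_mul (enc_norm (enc_subn 1 h1)) (kcg.enc (enc_norm (enc_sub (enc_scale 3 4 h1) (enc_half (c1g.enc h1)))) h2))))⟩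
noncomputable def l0q1 : Fn2 := ⟨_, _, fun h1 h2 => (enc_norm (txg.enc (enc_norm (enc_sub (enc_scale 3 4 h1) (enc_half (c1g.enc h1)))) (c1g.enc h1) h2))⟩
noncomputable def yag : Fn1 := ⟨_, _, fun h1 => (enc_sqrt (enc_scale 4 3 (enc_sub (enc_pnc _ 1) (enc_sq h1))))⟩
noncomputable def kfc02 : Fn2 := ⟨_, _, fun h1 h2 => (enc_norm (enc_add h1 (enc_mul (enc_norm (enc_subn 1 (yag.enc h1))) (kcg.enc (enc_neg h1) h2))))⟩
noncomputable def lc02_7 : Fn2 := ⟨_, _, fun h1 h2 => (enc_scale 3 4 (yag.enc h1))⟩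
noncomputable def lc02_8 : Fn2 := ⟨_, _, fun h1 h2 => (enc_half h1)⟩
noncomputable def lc02 : Fn2 := ⟨_, _, fun h1 h2 => (enc_norm (enc_sub (txg.enc (enc_neg h1) (enc_norm (enc_add (lc02_7.enc h1 h2) (lc02_8.enc h1 h2))) h2) (txg.enc h1 (enc_norm (enc_sub (lc02_7.enc h1 h2) (lc02_8.enc h1 h2))) h2)))⟩
noncomputable def swg : Fn1 := ⟨_, _, fun h1 => (enc_sqrt (enc_sub (enc_pnc _ 1) (enc_scale 3 4 (enc_sq (enc_norm (enc_subn 1 h1))))))⟩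
noncomputable def cv1m : Fn1 := ⟨_, _, fun h1 => (enc_norm (enc_add (enc_scale 2 5 (c1g.enc h1)) (enc_scale 3 5 (enc_add (swg.enc h1) (enc_rat _ 1 2)))))⟩
noncomputable def bf1q0 : Fn2 := ⟨_, _, fun h1 h2 => (enc_norm (enc_add (enc_sub (enc_pnc _ 1) (enc_scale 974407 500000 h1)) (enc_mul (enc_norm (enc_subr 11 32 h2)) (enc_scale 21 25000 h1))))⟩
noncomputable def kf1q0 : Fn2 := ⟨_, _, fun h1 h2 => (enc_norm (enc_mul (cv1m.enc h1) (bf1q0.enc h1 h2)))⟩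
noncomputable def bx1q0 : Fn2 := ⟨_, _, fun h1 h2 => (enc_norm (enc_add (enc_scale 43949 500000 h1) (enc_mul (enc_norm (enc_subr 11 32 h2)) (enc_scale 291 50000 h1))))⟩
noncomputable def l1q0 : Fn2 := ⟨_, _, fun h1 h2 => (enc_norm (enc_mul (cv1m.enc h1) (bx1q0.enc h1 h2)))⟩
noncomputable def bf1q1_3 : Fn2 := ⟨_, _, fun h1 h2 => (enc_subr 11 32 h2)⟩
noncomputable def bf1q1 : Fn2 := ⟨_, _, fun h1 h2 => (enc_norm (enc_case (enc_subr 4 5 h1) (enc_case (enc_subr 7 10 h1) (enc_add (enc_subr 791729 500000 (enc_scale 48029 20000 h1)) (enc_mul (enc_norm (bf1q1_3.enc h1 h2)) (enc_norm (enc_subr 3413 200000 (enc_scale 163 4000 h1))))) (enc_add (enc_subr 1583451 1000000 (enc_scale 15009 6250 h1)) (enc_mul (enc_norm (bf1q1_3.enc h1 h2)) (enc_norm (enc_subr 1703 100000 (enc_scale 407 10000 h1)))))) (enc_case (enc_subr 7 8 h1) (enc_add (enc_subr 4750321 3000000 (enc_scale 180107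 75000 h1)) (enc_mul (enc_norm (bf1q1_3.enc h1 h2)) (enc_norm (enc_subr 1743 100000 (enc_scale 103 2500 h1))))) (enc_case (enc_subr 19 20 h1) (enc_add (enc_subr 4750181 3000000 (enc_scale 180103 75000 h1)) (enc_mul (enc_norm (bf1q1_3.enc h1 h2)) (enc_norm (enc_subr 5369 300000 (enc_scale 313 7500 h1))))) (enc_add (enc_subr 7917 5000 (enc_scale 120069 50000 h1)) (enc_mul (enc_norm (bf1q1_3.enc h1 h2)) (enc_norm (enc_subr 363 20000 (enc_scale 21 500 h1)))))))))⟩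
noncomputable def kf1q1 : Fn2 := ⟨_, _, fun h1 h2 => (enc_norm (enc_mul (cv1m.enc h1) (bf1q1.enc h1 h2)))⟩
noncomputable def bx1q1_3 : Fn2 := ⟨_, _, fun h1 h2 => (enc_subr 11 32 h2)⟩
noncomputable def bx1q1 : Fn2 := ⟨_, _, fun h1 h2 => (enc_norm (enc_case (enc_subr 4 5 h1) (enc_case (enc_subr 7 10 h1) (enc_add (enc_sub (enc_rat _ 24189 200000) (enc_scale 653 6250 h1)) (enc_mul (enc_norm (bx1q1_3.enc h1 h2)) (enc_norm (enc_subr 12653 50000 (enc_scale 3267 10000 h1))))) (enc_add (enc_sub (enc_rat _ 120973 1000000) (enc_scale 2613 25000 h1)) (enc_mul (enc_norm (bx1q1_3.enc h1 h2)) (enc_norm (enc_subr 2539 10000 (enc_scale 3279 10000 h1)))))) (enc_case (enc_subr 7 8 h1) (enc_add (enc_sub (enc_rat _ 24201 200000) (enc_scale 1307 12500 h1)) (enc_mul (enc_norm (bx1q1_3.enc h1 h2)) (enc_norm (enc_subr 12747 50000 (enc_scale 823 2500 h1))))) (enc_case (enc_subr 19 20 h1) (enc_add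 (enc_sub (enc_rat _ 72631 600000) (enc_scale 3923 37500 h1)) (enc_mul (enc_norm (bx1q1_3.enc h1 h2)) (enc_norm (enc_subr 38381 150000 (enc_scale 2477 7500 h1))))) (enc_add (enc_sub (enc_rat _ 60529 500000) (enc_scale 5231 50000 h1)) (enc_mul (enc_norm (bx1q1_3.enc h1 h2)) (enc_norm (enc_subr 25619 100000 (enc_scale 1653 5000 h1)))))))))⟩
noncomputable def l1q1 : Fn2 := ⟨_, _, fun h1 h2 => (enc_norm (enc_mul (cv1m.enc h1) (bx1q1.enc h1 h2)))⟩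
noncomputable def xc12a : Fn1 := ⟨_, _, fun h1 => (enc_norm (enc_add (enc_scale 2 5 h1) (enc_scale 3 5 (enc_subr 1 2 (swg.enc (yag.enc h1))))))⟩
noncomputable def bf1q2_3 : Fn2 := ⟨_, _, fun h1 h2 => (enc_subr 11 32 h2)⟩
noncomputable def bf1q2 : Fn2 := ⟨_, _, fun h1 h2 => (enc_norm (enc_case (enc_subr 11 10 h1) (enc_case (enc_subr 53 50 h1) (enc_case (enc_subr 103 100 h1) (enc_add (enc_sub (enc_rat _ 32053 30000) (enc_scale 2053 30000 h1)) (enc_mul (enc_norm (bf1q2_3.enc h1 h2)) (enc_norm (enc_subr 4669 3000 (enc_scale 4669 3000 h1))))) (enc_add (enc_sub (enc_rat _ 42703 40000) (enc_scale 169 2500 h1)) (enc_mul (enc_norm (bf1q2_3.enc h1 h2)) (enc_norm (enc_subr 467003 300000 (enc_scale 467 300 h1)))))) (enc_case (enc_subr 107 100 h1) (enc_add (enc_sub (enc_rat _ 1066727 1000000) (enc_scale 167 2500 h1)) (enc_mul (enc_norm (bf1q2_3.enc h1 h2)) (enc_norm (enc_subr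 31183 20000 (enc_scale 1559 1000 h1))))) (enc_add (enc_sub (enc_rat _ 66637 62500) (enc_scale 663 10000 h1)) (enc_mul (enc_norm (bf1q2_3.enc h1 h2)) (enc_norm (enc_subr 11707 7500 (enc_scale 2341 1500 h1))))))) (enc_case (enc_subr 231 200 h1) (enc_case (enc_subr 577 500 h1) (enc_add (enc_sub (enc_rat _ 14392327 13500000) (enc_scale 8939 135000 h1)) (enc_mul (enc_norm (bf1q2_3.enc h1 h2)) (enc_norm (enc_subr 105407 67500 (enc_scale 21077 13500 h1))))) (enc_add (enc_sub (enc_rat _ 4668 4375) (enc_scale 293 4375 h1)) (enc_mul (enc_norm (bf1q2_3.enc h1 h2)) (enc_norm (enc_subr 5457 3500 (enc_scale 5457 3500 h1)))))) (enc_case (enc_subr 5 4 h1) (enc_add (enc_sub (enc_rat _ 3548373 3325000) (enc_scale 5582 83125 h1)) (enc_mul (enc_norm (bf1q2_3.enc h1 h2)) (enc_norm (enc_subr 10388859 6650000 (enc_scale 103861 66500 h1))))) (enc_case (enc_subr 27 20 h1) (enc_add (enc_sub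 (enc_rat _ 426911 400000) (enc_scale 6723 100000 h1)) (enc_mul (enc_norm (bf1q2_3.enc h1 h2)) (enc_norm (enc_subr 312417 200000 (enc_scale 15617 10000 h1))))) (enc_add (enc_sub (enc_rat _ 533641 500000) (enc_scale 2017 30000 h1)) (enc_mul (enc_norm (bf1q2_3.enc h1 h2)) (enc_norm (enc_subr 78057 50000 (enc_scale 1561 1000 h1))))))))))⟩
noncomputable def kfc12a : Fn2 := ⟨_, _, fun h1 h2 => (enc_norm (enc_mul (enc_norm (enc_add (enc_scale 2 5 h1) (enc_scale 3 5 (enc_subr 1 2 (swg.enc (yag.enc h1)))))) (bf1q2.enc (yag.enc h1) h2)))⟩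
noncomputable def bx1q2_3 : Fn2 := ⟨_, _, fun h1 h2 => (enc_subr 11 32 h2)⟩
noncomputable def bx1q2_13 : Fn2 := ⟨_, _, fun h1 h2 => (enc_subr 2203 15000 (enc_scale 2203 15000 h1))⟩
noncomputable def bx1q2 : Fn2 := ⟨_, _, fun h1 h2 => (enc_norm (enc_case (enc_subr 11 10 h1) (enc_case (enc_subr 53 50 h1) (enc_case (enc_subr 103 100 h1) (enc_add (bx1q2_13.enc h1 h2) (enc_mul (enc_norm (bx1q2_3.enc h1 h2)) (enc_norm (enc_subr 1691 3000 (enc_scale 1691 3000 h1))))) (enc_add (bx1q2_13.enc h1 h2) (enc_mul (enc_norm (bx1q2_3.enc h1 h2)) (enc_norm (enc_subr 82271 300000 (enc_scale 106 375 h1)))))) (enc_case (enc_subr 107 100 h1) (enc_add (enc_subr 2297 15625 (enc_scale 147 1000 h1)) (enc_mul (enc_norm (bx1q2_3.enc h1 h2)) (enc_norm (enc_subr 25233 100000 (enc_scale 131 500 h1))))) (enc_add (enc_subr 73611 500000 (enc_scale 92 625 h1)) (enc_mul (enc_norm (bx1q2_3.enc h1 h2))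 (enc_norm (enc_subr 34051 150000 (enc_scale 143 600 h1))))))) (enc_case (enc_subr 231 200 h1) (enc_case (enc_subr 577 500 h1) (enc_add (enc_subr 40662389 94500000 (enc_scale 76457 189000 h1)) (enc_mul (enc_norm (bx1q2_3.enc h1 h2)) (enc_norm (enc_sub (enc_rat _ 1430927 1575000) (enc_scale 2501 3150 h1))))) (enc_sub (enc_rat _ 1279 35000) (enc_scale 27 3500 (bx1q2_3.enc h1 h2)))) (enc_case (enc_subr 5 4 h1) (enc_add (enc_subr 111353821 133000000 (enc_scale 503091 665000 h1)) (enc_mul (enc_norm (bx1q2_3.enc h1 h2)) (enc_norm (enc_subr 18592071 13300000 (enc_scale 80041 66500 h1))))) (enc_case (enc_subr 27 20 h1) (enc_add (enc_subr 714437 1000000 (enc_scale 16457 25000 h1)) (enc_mul (enc_norm (bx1q2_3.enc h1 h2)) (enc_norm (enc_subr 288699 200000 (enc_scale 12401 10000 h1))))) (enc_add (enc_subr 178607 250000 (enc_scale 98741 150000 h1)) (enc_mul (enc_norm (bx1q2_3.enc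 h1 h2)) (enc_norm (enc_subr 144219 100000 (enc_scale 18587 15000 h1))))))))))⟩
noncomputable def lc12a : Fn2 := ⟨_, _, fun h1 h2 => (enc_norm (enc_mul (enc_norm (enc_add (enc_scale 2 5 h1) (enc_scale 3 5 (enc_subr 1 2 (swg.enc (yag.enc h1)))))) (bx1q2.enc (yag.enc h1) h2)))⟩
noncomputable def xc12b : Fn1 := ⟨_, _, fun h1 => (enc_norm (enc_scale 3 5 (enc_subr 1 2 (swg.enc h1))))⟩
noncomputable def kfc12b : Fn2 := ⟨_, _, fun h1 h2 => (enc_norm (enc_mul (enc_norm (enc_scale 3 5 (enc_subr 1 2 (swg.enc h1)))) (bf1q2.enc h1 h2)))⟩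
noncomputable def lc12b : Fn2 := ⟨_, _, fun h1 h2 => (enc_norm (enc_mul (enc_norm (enc_scale 3 5 (enc_subr 1 2 (swg.enc h1)))) (bx1q2.enc h1 h2)))⟩
noncomputable def cv1r : Fn1 := ⟨_, _, fun h1 => (enc_norm (enc_scale 3 5 (enc_subr 1 2 (swg.enc h1))))⟩
noncomputable def bf1q3 : Fn2 := ⟨_, _, fun h1 h2 => (enc_norm (enc_add (enc_sub (enc_rat _ 1150147 500000) (enc_scale 739331 500000 h1)) (enc_mul (enc_norm (enc_subr 11 32 h2)) (enc_norm (enc_subr 19 5000 (enc_scale 9 5000 h1))))))⟩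
noncomputable def kf1q3 : Fn2 := ⟨_, _, fun h1 h2 => (enc_norm (enc_mul (cv1r.enc h1) (bf1q3.enc h1 h2)))⟩
noncomputable def bx1q3 : Fn2 := ⟨_, _, fun h1 h2 => (enc_norm (enc_add (enc_sub (enc_rat _ 1608069 1000000) (enc_scale 93251 100000 h1)) (enc_mul (enc_norm (enc_subr 11 32 h2)) (enc_norm (enc_sub (enc_rat _ 567 25000) (enc_scale 513 50000 h1))))))⟩
noncomputable def l1q3 : Fn2 := ⟨_, _, fun h1 h2 => (enc_norm (enc_mul (cv1r.enc h1) (bx1q3.enc h1 h2)))⟩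
noncomputable def c3g : Fn1 := ⟨_, _, fun h1 => (enc_sqrtg (enc_sub (enc_pnc _ 3) (enc_scale 3 4 (enc_sq h1))))⟩
noncomputable def cv2m : Fn1 := ⟨_, _, fun h1 => (enc_norm (enc_add (enc_scale 17 20 (enc_add (swg.enc h1) (enc_rat _ 1 2))) (enc_scale 3 20 (c3g.enc h1))))⟩
noncomputable def bf2q0 : Fn2 := ⟨_, _, fun h1 h2 => (enc_norm (enc_add (enc_sub (enc_rat _ 878139 1000000) (enc_scale 22048 15625 h1)) (enc_mul (enc_norm (enc_subr 11 32 h2)) (enc_norm (enc_sub (enc_rat _ 71 12500) (enc_scale 273 25000 h1))))))⟩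
noncomputable def kf2q0 : Fn2 := ⟨_, _, fun h1 h2 => (enc_norm (enc_mul (cv2m.enc h1) (bf2q0.enc h1 h2)))⟩
noncomputable def bx2q0 : Fn2 := ⟨_, _, fun h1 h2 => (enc_norm (enc_add (enc_add (enc_scale 29619 500000 h1) (enc_rat _ 16423 500000)) (enc_mul (enc_norm (enc_subr 11 32 h2)) (enc_norm (enc_subr 17 6250 (enc_neg (enc_scale 17 12500 h1)))))))⟩
noncomputable def l2q0 : Fn2 := ⟨_, _, fun h1 h2 => (enc_norm (enc_mul (cv2m.enc h1) (bx2q0.enc h1 h2)))⟩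
noncomputable def gsg : Fn1 := ⟨_, _, fun h1 => (enc_sqrt (enc_sub (enc_pnc _ 1) (enc_scale 3 4 (enc_sq h1))))⟩
noncomputable def esg : Fn1 := ⟨_, _, fun h1 => (enc_norm (enc_subn 1 (enc_add (enc_half h1) (gsg.enc h1))))⟩
noncomputable def kf2q1_4 : Fn2 := ⟨_, _, fun h1 h2 => (enc_subr 11 32 h2)⟩
noncomputable def kf2q1_65 : Fn2 := ⟨_, _, fun h1 h2 => (enc_sub (enc_pnc _ 1) h1)⟩
noncomputable def kf2q1_66 : Fn2 := ⟨_, _, fun h1 h2 => (gsg.enc (enc_norm (kf2q1_65.enc h1 h2)))⟩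
noncomputable def kf2q1_72 : Fn2 := ⟨_, _, fun h1 h2 => (enc_scale 3 2 (kf2q1_65.enc h1 h2))⟩
noncomputable def kf2q1_74 : Fn2 := ⟨_, _, fun h1 h2 => (enc_add (enc_pnc _ 1) (kf2q1_66.enc h1 h2))⟩
noncomputable def kf2q1_93 : Fn2 := ⟨_, _, fun h1 h2 => (enc_mul (cv1m.enc h1) (bf1q1.enc h1 h2))⟩
noncomputable def kf2q1 : Fn2 := ⟨_, _, fun h1 h2 => (enc_norm (enc_case (enc_subr 19 32 h1) (enc_mul (cv2m.enc h1) (enc_norm (enc_add (enc_subr 242923003 93750000 (enc_scale 1010054137 187500000 h1)) (enc_mul (enc_norm (kf2q1_4.enc h1 h2)) (enc_norm (enc_subr 58003 37500000 (enc_neg (enc_scale 8311 9375000 h1)))))))) (enc_case (enc_subr 23 32 h1) (enc_add (kf2q1_93.enc h1 h2) (enc_mul (enc_norm (enc_mul (enc_norm (enc_sub (enc_add (enc_add (enc_mul (enc_norm (enc_mul (enc_norm (enc_sub (kf2q1_66.enc h1 h2) (kf2q1_72.enc h1 h2))) (enc_norm (kf2q1_74.enc h1 h2)))) (enc_inv (enc_sub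 (kf2q1_74.enc h1 h2) (kf2q1_72.enc h1 h2)))) (enc_mul (enc_norm (enc_sub (enc_half (kf2q1_65.enc h1 h2)) (enc_mul (enc_scale 3 4 (enc_sq (enc_norm (kf2q1_65.enc h1 h2)))) (enc_inv (kf2q1_66.enc h1 h2))))) (enc_inv (enc_nat 2 (esg.enc (enc_norm (kf2q1_65.enc h1 h2))))))) (enc_mul (kcg.enc (enc_norm (enc_sub (enc_scale 3 4 (kf2q1_65.enc h1 h2)) (enc_half (kf2q1_66.enc h1 h2)))) h2) (enc_norm (kf2q1_65.enc h1 h2)))) (kf2q1_93.enc h1 h2))) (enc_norm (enc_sub (cv2m.enc h1) (cv1m.enc h1))))) (enc_inv (enc_sub (enc_add (swg.enc h1) (enc_rat _ 1 2)) (cv1m.enc h1))))) (enc_mul (cv2m.enc h1) (enc_norm (enc_case (enc_subr 7 8 h1) (enc_case (enc_subr 4 5 h1) (enc_add (enc_add (enc_scale 20398621 20312500 h1) (enc_rat _ 104219631 1625000000)) (enc_mul (enc_norm (kf2q1_4.enc h1 h2)) (enc_norm (enc_subr 11192393 40625000 (enc_scale 4375009 16250000 h1))))) (enc_add (enc_add (enc_scale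 65003 75000 h1) (enc_rat _ 104497 600000)) (enc_mul (enc_norm (kf2q1_4.enc h1 h2)) (enc_norm (enc_subr 4369 15000 (enc_scale 2167 7500 h1)))))) (enc_case (enc_subr 19 20 h1) (enc_add (enc_add (enc_scale 1013 1875 h1) (enc_rat _ 137939 300000)) (enc_mul (enc_norm (kf2q1_4.enc h1 h2)) (enc_norm (enc_subr 9109 30000 (enc_scale 2273 7500 h1))))) (enc_add (enc_add (enc_scale 539 1000 h1) (enc_rat _ 461 1000)) (enc_mul (enc_norm (kf2q1_4.enc h1 h2)) (enc_norm (enc_subr 393 1250 (enc_scale 393 1250 h1))))))))))))⟩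
noncomputable def qsg : Fn1 := ⟨_, _, fun h1 => (enc_norm (enc_mul (enc_norm (enc_sub (enc_pnc _ 1) (gsg.enc h1))) (enc_norm (enc_subn 1 (enc_nat 2 (gsg.enc h1))))))⟩
noncomputable def l2q1_4 : Fn2 := ⟨_, _, fun h1 h2 => (enc_subr 11 32 h2)⟩
noncomputable def l2q1_19 : Fn2 := ⟨_, _, fun h1 h2 => (enc_sq (enc_norm (l2q1_4.enc h1 h2)))⟩
noncomputable def l2q1_81 : Fn2 := ⟨_, _, fun h1 h2 => (enc_sub (enc_pnc _ 1) h1)⟩
noncomputable def l2q1_96 : Fn2 := ⟨_, _, fun h1 h2 => (enc_mul (cv1m.enc h1) (bx1q1.enc h1 h2))⟩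
noncomputable def l2q1 : Fn2 := ⟨_, _, fun h1 h2 => (enc_norm (enc_case (enc_subr 19 32 h1) (enc_mul (cv2m.enc h1) (enc_norm (enc_add (enc_add (enc_sub (enc_rat _ 165716237 1875000000) (enc_scale 83321237 937500000 h1)) (enc_mul (enc_norm (l2q1_4.enc h1 h2)) (enc_norm (enc_subr 860361 12500000 (enc_scale 59171 390625 h1))))) (enc_mul (l2q1_19.enc h1 h2) (enc_norm (enc_sub (enc_rat _ 427 93750) (enc_scale 427 46875 h1))))))) (enc_case (enc_subr 23 32 h1) (enc_add (l2q1_96.enc h1 h2) (enc_mul (enc_norm (enc_mul (enc_norm (enc_sub (enc_sub (qsg.enc (enc_norm (l2q1_81.enc h1 h2))) (enc_mul (enc_norm (enc_nat 2 (enc_sub (l2q1_81.enc h1 h2) h2))) (enc_norm (enc_mul (esg.enc (enc_norm (l2q1_81.enc h1 h2))) (kcg.enc (enc_norm (enc_sub (enc_scale 3 4 (l2q1_81.enc h1 h2)) (enc_half (gsg.enc (enc_norm (l2q1_81.enc h1 h2)))))) h2))))) (l2q1_96.enc h1 h2))) (enc_norm (enc_sub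 (cv2m.enc h1) (cv1m.enc h1))))) (enc_inv (enc_sub (enc_add (swg.enc h1) (enc_rat _ 1 2)) (cv1m.enc h1))))) (enc_mul (cv2m.enc h1) (enc_norm (enc_case (enc_subr 7 8 h1) (enc_case (enc_subr 4 5 h1) (enc_add (enc_add (enc_sub (enc_rat _ 696402229 8125000000) (enc_scale 75381763 812500000 h1)) (enc_mul (enc_norm (l2q1_4.enc h1 h2)) (enc_norm (enc_subr 59733229 812500000 (enc_scale 10658763 81250000 h1))))) (enc_mul (l2q1_19.enc h1 h2) (enc_norm (enc_subr 25528 40625 (enc_scale 6382 8125 h1))))) (enc_add (enc_sub (enc_rat _ 60353 1000000) (enc_scale 1527 25000 h1)) (enc_mul (enc_norm (l2q1_4.enc h1 h2)) (enc_norm (enc_sub (enc_rat _ 30293 300000) (enc_scale 163 1875 h1)))))) (enc_case (enc_subr 19 20 h1) (enc_add (enc_sub (enc_rat _ 14117 250000) (enc_scale 177 3125 h1)) (enc_mul (enc_norm (l2q1_4.enc h1 h2)) (enc_norm (enc_sub (enc_rat _ 53813 300000) (enc_scale 331 1875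 h1))))) (enc_add (enc_sub (enc_rat _ 133 2500) (enc_scale 133 2500 h1)) (enc_mul (enc_norm (l2q1_4.enc h1 h2)) (enc_norm (enc_sub (enc_rat _ 1167 5000) (enc_scale 1167 5000 h1))))))))))))⟩
noncomputable def cv2p : Fn1 := ⟨_, _, fun h1 => (enc_norm (enc_add (enc_scale 17 20 (enc_subr 1 2 (swg.enc h1))) (enc_scale 3 20 (c3g.enc h1))))⟩
noncomputable def cv1p : Fn1 := ⟨_, _, fun h1 => (enc_norm (enc_add (enc_scale 2 5 (c1g.enc h1)) (enc_scale 3 5 (enc_subr 1 2 (swg.enc h1)))))⟩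
noncomputable def kf2q2_4 : Fn2 := ⟨_, _, fun h1 h2 => (enc_subr 11 32 h2)⟩
noncomputable def kf2q2_93 : Fn2 := ⟨_, _, fun h1 h2 => (enc_subn 1 h1)⟩
noncomputable def kf2q2_94 : Fn2 := ⟨_, _, fun h1 h2 => (gsg.enc (enc_norm (kf2q2_93.enc h1 h2)))⟩
noncomputable def kf2q2_100 : Fn2 := ⟨_, _, fun h1 h2 => (enc_scale 3 2 (kf2q2_93.enc h1 h2))⟩
noncomputable def kf2q2_102 : Fn2 := ⟨_, _, fun h1 h2 => (enc_add (enc_pnc _ 1) (kf2q2_94.enc h1 h2))⟩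
noncomputable def kf2q2_121 : Fn2 := ⟨_, _, fun h1 h2 => (enc_mul (cv1p.enc h1) (bf1q2.enc h1 h2))⟩
noncomputable def kf2q2 : Fn2 := ⟨_, _, fun h1 h2 => (enc_norm (enc_case (enc_subr 41 32 h1) (enc_mul (cv2p.enc h1) (enc_norm (enc_case (enc_subr 11 10 h1) (enc_case (enc_subr 103 100 h1) (enc_add (enc_sub (enc_rat _ 4969637 3000000) (enc_scale 21197 30000 h1)) (enc_mul (enc_norm (kf2q2_4.enc h1 h2)) (enc_norm (enc_sub (enc_rat _ 108959 60000) (enc_scale 1333 750 h1))))) (enc_case (enc_subr 53 50 h1) (enc_add (enc_sub (enc_rat _ 4969843 3000000) (enc_scale 21199 30000 h1)) (enc_mul (enc_norm (kf2q2_4.enc h1 h2)) (enc_norm (enc_sub (enc_rat _ 13607 7500) (enc_scale 5327 3000 h1))))) (enc_add (enc_sub (enc_rat _ 1656791 1000000) (enc_scale 1767 2500 h1)) (enc_mul (enc_norm (kf2q2_4.enc h1 h2)) (enc_norm (enc_sub (enc_rat _ 362129 200000) (enc_scale 7089 4000 h1)))))))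 (enc_case (enc_subr 29 25 h1) (enc_add (enc_sub (enc_rat _ 4971253 3000000) (enc_scale 5303 7500 h1)) (enc_mul (enc_norm (kf2q2_4.enc h1 h2)) (enc_norm (enc_sub (enc_rat _ 180377 100000) (enc_scale 883 500 h1))))) (enc_case (enc_subr 5 4 h1) (enc_add (enc_sub (enc_rat _ 14918167 9000000) (enc_scale 31837 45000 h1)) (enc_mul (enc_norm (kf2q2_4.enc h1 h2)) (enc_norm (enc_sub (enc_rat _ 1613881 900000) (enc_scale 3953 2250 h1))))) (enc_add (enc_sub (enc_rat _ 414434927 250000000) (enc_scale 221131677 312500000 h1)) (enc_mul (enc_norm (kf2q2_4.enc h1 h2)) (enc_norm (enc_sub (enc_rat _ 44732761 25000000) (enc_scale 54805511 31250000 h1)))))))))) (enc_case (enc_subr 45 32 h1) (enc_add (kf2q2_121.enc h1 h2) (enc_mul (enc_norm (enc_mul (enc_norm (enc_sub (enc_add (enc_sub (enc_mul (enc_norm (enc_mul (enc_norm (enc_sub (kf2q2_94.enc h1 h2) (kf2q2_100.enc h1 h2))) (enc_norm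 (kf2q2_102.enc h1 h2)))) (enc_inv (enc_sub (kf2q2_102.enc h1 h2) (kf2q2_100.enc h1 h2)))) (enc_mul (enc_norm (enc_sub (enc_half (kf2q2_93.enc h1 h2)) (enc_mul (enc_scale 3 4 (enc_sq (enc_norm (kf2q2_93.enc h1 h2)))) (enc_inv (kf2q2_94.enc h1 h2))))) (enc_inv (enc_nat 2 (esg.enc (enc_norm (kf2q2_93.enc h1 h2))))))) (enc_mul (kcg.enc (enc_norm (enc_sub (enc_scale 3 4 (kf2q2_93.enc h1 h2)) (enc_half (kf2q2_94.enc h1 h2)))) h2) (enc_norm (kf2q2_93.enc h1 h2)))) (kf2q2_121.enc h1 h2))) (enc_norm (enc_sub (cv2p.enc h1) (cv1p.enc h1))))) (enc_inv (enc_sub (enc_subr 1 2 (swg.enc h1)) (cv1p.enc h1))))) (enc_mul (cv2p.enc h1) (enc_norm (enc_add (enc_subr 4932944719 625000000 (enc_scale 5555732219 937500000 h1)) (enc_mul (enc_norm (kf2q2_4.enc h1 h2)) (enc_norm (enc_subr 261417 78125 (enc_scale 8365169 3750000 h1))))))))))⟩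
noncomputable def l2q2_4 : Fn2 := ⟨_, _, fun h1 h2 => (enc_subr 11 32 h2)⟩
noncomputable def l2q2_81 : Fn2 := ⟨_, _, fun h1 h2 => (enc_sq (enc_norm (l2q2_4.enc h1 h2)))⟩
noncomputable def l2q2_106 : Fn2 := ⟨_, _, fun h1 h2 => (enc_subn 1 h1)⟩
noncomputable def l2q2_121 : Fn2 := ⟨_, _, fun h1 h2 => (enc_mul (cv1p.enc h1) (bx1q2.enc h1 h2))⟩
noncomputable def l2q2 : Fn2 := ⟨_, _, fun h1 h2 => (enc_norm (enc_case (enc_subr 41 32 h1) (enc_mul (cv2p.enc h1) (enc_norm (enc_case (enc_subr 11 10 h1) (enc_case (enc_subr 103 100 h1) (enc_add (enc_subr 18323 250000 (enc_scale 743 10000 h1)) (enc_mul (enc_norm (l2q2_4.enc h1 h2)) (enc_norm (enc_subr 11633 50000 (enc_scale 247 1000 h1))))) (enc_case (enc_subr 53 50 h1) (enc_add (enc_subr 73601 1000000 (enc_scale 373 5000 h1)) (enc_mul (enc_norm (l2q2_4.enc h1 h2)) (enc_norm (enc_subr 2831 12500 (enc_scale 241 1000 h1))))) (enc_add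 (enc_subr 148421 2000000 (enc_scale 3007 40000 h1)) (enc_mul (enc_norm (l2q2_4.enc h1 h2)) (enc_norm (enc_subr 10529 50000 (enc_scale 113 500 h1))))))) (enc_case (enc_subr 29 25 h1) (enc_add (enc_subr 29367 250000 (enc_scale 229 2000 h1)) (enc_mul (enc_norm (l2q2_4.enc h1 h2)) (enc_norm (enc_subr 14719 300000 (enc_scale 19 240 h1))))) (enc_case (enc_subr 5 4 h1) (enc_add (enc_subr 116369 562500 (enc_scale 8621 45000 h1)) (enc_mul (enc_norm (l2q2_4.enc h1 h2)) (enc_norm (enc_sub (enc_rat _ 540773 900000) (enc_scale 433 900 h1))))) (enc_add (enc_add (enc_subr 51726567 125000000 (enc_scale 55800817 156250000 h1)) (enc_mul (enc_norm (l2q2_4.enc h1 h2)) (enc_norm (enc_subr 14914223 12500000 (enc_scale 7453799 7812500 h1))))) (enc_mul (l2q2_81.enc h1 h2) (enc_norm (enc_sub (enc_rat _ 124129 12500) (enc_scale 124129 15625 h1)))))))))) (enc_case (enc_subr 45 32 h1) (enc_add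 (l2q2_121.enc h1 h2) (enc_mul (enc_norm (enc_mul (enc_norm (enc_sub (enc_sub (qsg.enc (enc_norm (l2q2_106.enc h1 h2))) (enc_mul (enc_norm (enc_nat 2 (enc_sub (l2q2_106.enc h1 h2) h2))) (enc_norm (enc_mul (esg.enc (enc_norm (l2q2_106.enc h1 h2))) (kcg.enc (enc_norm (enc_sub (enc_scale 3 4 (l2q2_106.enc h1 h2)) (enc_half (gsg.enc (enc_norm (l2q2_106.enc h1 h2)))))) h2))))) (l2q2_121.enc h1 h2))) (enc_norm (enc_sub (cv2p.enc h1) (cv1p.enc h1))))) (enc_inv (enc_sub (enc_subr 1 2 (swg.enc h1)) (cv1p.enc h1))))) (enc_mul (cv2p.enc h1) (enc_norm (enc_add (enc_add (enc_subr 18201637 31250000 (enc_scale 90663173 187500000 h1)) (enc_mul (enc_norm (l2q2_4.enc h1 h2)) (enc_norm (enc_subr 17910793 31250000 (enc_scale 2955653 7812500 h1))))) (enc_mul (l2q2_81.enc h1 h2) (enc_norm (enc_subr 1667 31250 (enc_scale 1667 46875 h1))))))))))⟩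
noncomputable def ycg : Fn1 := ⟨_, _, fun h1 => (enc_sqrtg (enc_scale 4 3 (enc_sub (enc_pnc _ 3) (enc_sq h1))))⟩
noncomputable def xc23 : Fn1 := ⟨_, _, fun h1 => (enc_norm (enc_add (enc_scale 17 20 (enc_subr 1 2 (swg.enc (ycg.enc h1)))) (enc_scale 3 20 h1)))⟩
noncomputable def bf2q3 : Fn2 := ⟨_, _, fun h1 h2 => (enc_norm (enc_add (enc_subr 992253 250000 (enc_scale 1117253 500000 h1)) (enc_mul (enc_norm (enc_subr 11 32 h2)) (enc_norm (enc_subr 141 12500 (enc_scale 141 25000 h1))))))⟩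
noncomputable def kfc23 : Fn2 := ⟨_, _, fun h1 h2 => (enc_norm (enc_mul (enc_norm (enc_add (enc_scale 17 20 (enc_subr 1 2 (swg.enc (ycg.enc h1)))) (enc_scale 3 20 h1))) (bf2q3.enc (ycg.enc h1) h2)))⟩
noncomputable def bx2q3 : Fn2 := ⟨_, _, fun h1 h2 => (enc_norm (enc_add (enc_sub (enc_rat _ 6119913 10000000) (enc_scale 1526751 5000000 h1)) (enc_mul (enc_norm (enc_subr 11 32 h2)) (enc_norm (enc_subr 2643951 4000000 (enc_scale 885477 2000000 h1))))))⟩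
noncomputable def lc23 : Fn2 := ⟨_, _, fun h1 h2 => (enc_norm (enc_mul (enc_norm (enc_add (enc_scale 17 20 (enc_subr 1 2 (swg.enc (ycg.enc h1)))) (enc_scale 3 20 h1))) (bx2q3.enc (ycg.enc h1) h2)))⟩
noncomputable def cv3m : Fn1 := ⟨_, _, fun h1 => (enc_norm (enc_add (enc_half (enc_add (swg.enc h1) (enc_rat _ 1 2))) (enc_half (c3g.enc h1))))⟩
noncomputable def bf3q0 : Fn2 := ⟨_, _, fun h1 h2 => (enc_norm (enc_add (enc_sub (enc_rat _ 518397 1000000) (enc_scale 220051 125000 h1)) (enc_mul (enc_norm (enc_subr 11 32 h2)) (enc_norm (enc_sub (enc_rat _ 679 100000) (enc_scale 159 12500 h1))))))⟩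
noncomputable def kf3q0 : Fn2 := ⟨_, _, fun h1 h2 => (enc_norm (enc_mul (cv3m.enc h1) (bf3q0.enc h1 h2)))⟩
noncomputable def bx3q0 : Fn2 := ⟨_, _, fun h1 h2 => (enc_norm (enc_add (enc_sub (enc_rat _ 73231 1000000) (enc_scale 29803 500000 h1)) (enc_mul (enc_norm (enc_subr 11 32 h2)) (enc_norm (enc_subr 119 100000 (enc_scale 3451 50000 h1))))))⟩
noncomputable def l3q0 : Fn2 := ⟨_, _, fun h1 h2 => (enc_norm (enc_mul (cv3m.enc h1) (bx3q0.enc h1 h2)))⟩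
noncomputable def bf3q1_3 : Fn2 := ⟨_, _, fun h1 h2 => (enc_subr 11 32 h2)⟩
noncomputable def bf3q1 : Fn2 := ⟨_, _, fun h1 h2 => (enc_norm (enc_case (enc_subr 4 5 h1) (enc_case (enc_subr 7 10 h1) (enc_add (enc_add (enc_scale 70539 100000 h1) (enc_rat _ 302693 1000000)) (enc_mul (enc_norm (bf3q1_3.enc h1 h2)) (enc_norm (enc_subr 176923 200000 (enc_scale 17789 20000 h1))))) (enc_add (enc_add (enc_scale 70503 100000 h1) (enc_rat _ 60589 200000)) (enc_mul (enc_norm (bf3q1_3.enc h1 h2)) (enc_norm (enc_subr 88101 100000 (enc_scale 8843 10000 h1)))))) (enc_case (enc_subr 7 8 h1) (enc_add (enc_add (enc_scale 4399 6250 h1) (enc_rat _ 303897 1000000)) (enc_mul (enc_norm (bf3q1_3.enc h1 h2)) (enc_norm (enc_subr 87469 100000 (enc_scale 2191 2500 h1))))) (enc_case (enc_subr 19 20 h1) (enc_add (enc_add (enc_scale 2491 3750 h1) (enc_rat _ 1015571 3000000)) (enc_mul (enc_norm (bf3q1_3.enc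 h1 h2)) (enc_norm (enc_subr 43297 50000 (enc_scale 1083 1250 h1))))) (enc_add (enc_add (enc_scale 30423 50000 h1) (enc_rat _ 19577 50000)) (enc_mul (enc_norm (bf3q1_3.enc h1 h2)) (enc_norm (enc_subr 2143 2500 (enc_scale 2143 2500 h1)))))))))⟩
noncomputable def kf3q1 : Fn2 := ⟨_, _, fun h1 h2 => (enc_norm (enc_mul (cv3m.enc h1) (bf3q1.enc h1 h2)))⟩
noncomputable def bx3q1_3 : Fn2 := ⟨_, _, fun h1 h2 => (enc_subr 11 32 h2)⟩
noncomputable def bx3q1 : Fn2 := ⟨_, _, fun h1 h2 => (enc_norm (enc_case (enc_subr 4 5 h1) (enc_case (enc_subr 7 10 h1) (enc_add (enc_sub (enc_rat _ 107201 1000000) (enc_scale 6319 50000 h1)) (enc_mul (enc_norm (bx3q1_3.enc h1 h2)) (enc_norm (enc_sub (enc_rat _ 1279 25000) (enc_scale 207 5000 h1))))) (enc_add (enc_sub (enc_rat _ 72383 1000000) (enc_scale 479 6250 h1)) (enc_mul (enc_norm (bx3q1_3.enc h1 h2)) (enc_norm (enc_sub (enc_rat _ 4983 100000)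 (enc_scale 79 2000 h1)))))) (enc_case (enc_subr 7 8 h1) (enc_add (enc_sub (enc_rat _ 1409 24000) (enc_scale 2233 37500 h1)) (enc_mul (enc_norm (bx3q1_3.enc h1 h2)) (enc_norm (enc_sub (enc_rat _ 16253 300000) (enc_scale 337 7500 h1))))) (enc_case (enc_subr 19 20 h1) (enc_add (enc_sub (enc_rat _ 5319 100000) (enc_scale 1331 25000 h1)) (enc_mul (enc_norm (bx3q1_3.enc h1 h2)) (enc_norm (enc_sub (enc_rat _ 10489 150000) (enc_scale 118 1875 h1))))) (enc_add (enc_sub (enc_rat _ 653 12500) (enc_scale 653 12500 h1)) (enc_mul (enc_norm (bx3q1_3.enc h1 h2)) (enc_norm (enc_sub (enc_rat _ 507 2500) (enc_scale 507 2500 h1)))))))))⟩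
noncomputable def l3q1 : Fn2 := ⟨_, _, fun h1 h2 => (enc_norm (enc_mul (cv3m.enc h1) (bx3q1.enc h1 h2)))⟩
noncomputable def cv3p : Fn1 := ⟨_, _, fun h1 => (enc_norm (enc_add (enc_half (enc_subr 1 2 (swg.enc h1))) (enc_half (c3g.enc h1))))⟩
noncomputable def bf3q2_3 : Fn2 := ⟨_, _, fun h1 h2 => (enc_subr 11 32 h2)⟩
noncomputable def bf3q2_28 : Fn2 := ⟨_, _, fun h1 h2 => (enc_mul (enc_norm (bf3q2_3.enc h1 h2)) (enc_norm (enc_subr 2497 50000 (enc_scale 33 1000 h1))))⟩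
noncomputable def bf3q2_67 : Fn2 := ⟨_, _, fun h1 h2 => (enc_subr 292469 500000 (enc_scale 3437 2500 h1))⟩
noncomputable def bf3q2 : Fn2 := ⟨_, _, fun h1 h2 => (enc_norm (enc_case (enc_subr 11 10 h1) (enc_case (enc_subr 103 100 h1) (enc_add (enc_subr 73131 125000 (enc_scale 13749 10000 h1)) (enc_mul (enc_norm (bf3q2_3.enc h1 h2)) (enc_norm (enc_subr 14879 300000 (enc_scale 49 1500 h1))))) (enc_case (enc_subr 53 50 h1) (enc_add (enc_subr 1755041 3000000 (enc_scale 20623 15000 h1)) (bf3q2_28.enc h1 h2)) (enc_add (enc_subr 146249 250000 (enc_scale 27497 20000 h1)) (bf3q2_28.enc h1 h2)))) (enc_case (enc_subr 5 4 h1) (enc_case (enc_subr 29 25 h1) (enc_add (enc_subr 1754933 3000000 (enc_scale 8249 6000 h1)) (enc_mul (enc_norm (bf3q2_3.enc h1 h2)) (enc_norm (enc_subr 15037 300000 (enc_scale 199 6000 h1))))) (enc_add (enc_subr 5264567 9000000 (enc_scale 123733 90000 h1))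 (enc_mul (enc_norm (bf3q2_3.enc h1 h2)) (enc_norm (enc_subr 45053 900000 (enc_scale 149 4500 h1)))))) (enc_case (enc_subr 27 20 h1) (enc_add (bf3q2_67.enc h1 h2) (enc_mul (enc_norm (bf3q2_3.enc h1 h2)) (enc_norm (enc_subr 9959 200000 (enc_scale 329 10000 h1))))) (enc_add (bf3q2_67.enc h1 h2) (enc_mul (enc_norm (bf3q2_3.enc h1 h2)) (enc_norm (enc_subr 623 12500 (enc_scale 247 7500 h1)))))))))⟩
noncomputable def kf3q2 : Fn2 := ⟨_, _, fun h1 h2 => (enc_norm (enc_mul (cv3p.enc h1) (bf3q2.enc h1 h2)))⟩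
noncomputable def bx3q2_3 : Fn2 := ⟨_, _, fun h1 h2 => (enc_subr 11 32 h2)⟩
noncomputable def bx3q2 : Fn2 := ⟨_, _, fun h1 h2 => (enc_norm (enc_case (enc_subr 11 10 h1) (enc_case (enc_subr 103 100 h1) (enc_add (enc_sub (enc_rat _ 2759 500000) (enc_scale 1 2500 h1)) (enc_mul (enc_norm (bx3q2_3.enc h1 h2)) (enc_norm (enc_subr 165917 300000 (enc_scale 1649 3000 h1))))) (enc_case (enc_subr 53 50 h1) (enc_add (enc_sub (enc_rat _ 8071 1500000) (enc_scale 1 3750 h1)) (enc_mul (enc_norm (bx3q2_3.enc h1 h2)) (enc_norm (enc_subr 33101 60000 (enc_scale 329 600 h1))))) (enc_add (enc_sub (enc_rat _ 10567 2000000) (enc_scale 7 40000 h1)) (enc_mul (enc_norm (bx3q2_3.enc h1 h2)) (enc_norm (enc_subr 55133 100000 (enc_scale 137 250 h1))))))) (enc_case (enc_subr 5 4 h1) (enc_case (enc_subr 29 25 h1) (enc_add (enc_sub (enc_rat _ 15493 3000000) (enc_scale 1 15000 h1)) (enc_mul (enc_norm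 (bx3q2_3.enc h1 h2)) (enc_norm (enc_subr 27539 50000 (enc_scale 219 400 h1))))) (enc_add (enc_add (enc_scale 1 22500 h1) (enc_rat _ 45319 9000000)) (enc_mul (enc_norm (bx3q2_3.enc h1 h2)) (enc_norm (enc_subr 41323 75000 (enc_scale 1643 3000 h1)))))) (enc_case (enc_subr 27 20 h1) (enc_add (enc_add (enc_scale 3 20000 h1) (enc_rat _ 9807 2000000)) (enc_mul (enc_norm (bx3q2_3.enc h1 h2)) (enc_norm (enc_subr 110353 200000 (enc_scale 5483 10000 h1))))) (enc_add (enc_add (enc_scale 11 50000 h1) (enc_rat _ 4809 1000000)) (enc_mul (enc_norm (bx3q2_3.enc h1 h2)) (enc_norm (enc_subr 55253 100000 (enc_scale 8233 15000 h1)))))))))⟩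
noncomputable def l3q2 : Fn2 := ⟨_, _, fun h1 h2 => (enc_norm (enc_mul (cv3p.enc h1) (bx3q2.enc h1 h2)))⟩
noncomputable def xc33 : Fn1 := ⟨_, _, fun h1 => (enc_norm (enc_add (enc_half (enc_subr 1 2 (swg.enc (ycg.enc h1)))) (enc_half h1)))⟩
noncomputable def bf3q3 : Fn2 := ⟨_, _, fun h1 h2 => (enc_norm (enc_add (enc_subr 372347 125000 (enc_scale 434847 250000 h1)) (enc_mul (enc_norm (enc_subr 11 32 h2)) (enc_norm (enc_subr 57 12500 (enc_scale 57 25000 h1))))))⟩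
noncomputable def kfc33 : Fn2 := ⟨_, _, fun h1 h2 => (enc_norm (enc_mul (enc_norm (enc_add (enc_half (enc_subr 1 2 (swg.enc (ycg.enc h1)))) (enc_half h1))) (bf3q3.enc (ycg.enc h1) h2)))⟩
noncomputable def bx3q3 : Fn2 := ⟨_, _, fun h1 h2 => (enc_norm (enc_add (enc_sub (enc_rat _ 3459953 10000000) (enc_scale 861761 5000000 h1)) (enc_mul (enc_norm (enc_subr 11 32 h2)) (enc_norm (enc_subr 2693711 4000000 (enc_scale 897917 2000000 h1))))))⟩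
noncomputable def lc33 : Fn2 := ⟨_, _, fun h1 h2 => (enc_norm (enc_mul (enc_norm (enc_add (enc_half (enc_subr 1 2 (swg.enc (ycg.enc h1)))) (enc_half h1))) (bx3q3.enc (ycg.enc h1) h2)))⟩
noncomputable def kf4q0 : Fn2 := ⟨_, _, fun h1 h2 => (enc_norm (enc_sub (enc_mul h1 (kcg.enc (enc_half h1) h2)) (enc_mul (enc_norm (enc_mul (enc_sq h1) (enc_norm (enc_add (c3g.enc h1) (enc_rat _ 3 2))))) (enc_inv (enc_mul (enc_norm (enc_sub (enc_pnc _ 1) h1)) (enc_norm (enc_add (enc_pnc _ 1) h1)))))))⟩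
noncomputable def l4q0_6 : Fn2 := ⟨_, _, fun h1 h2 => (enc_half h1)⟩
noncomputable def l4q0_7 : Fn2 := ⟨_, _, fun h1 h2 => (enc_half (c3g.enc h1))⟩
noncomputable def l4q0_8 : Fn2 := ⟨_, _, fun h1 h2 => (enc_scale 1 4 h1)⟩
noncomputable def l4q0 : Fn2 := ⟨_, _, fun h1 h2 => (enc_norm (enc_add (txg.enc (l4q0_6.enc h1 h2) (enc_norm (enc_sub (l4q0_7.enc h1 h2) (l4q0_8.enc h1 h2))) h2) (txg.enc (enc_neg (l4q0_6.enc h1 h2)) (enc_norm (enc_add (l4q0_7.enc h1 h2) (l4q0_8.enc h1 h2))) h2)))⟩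
noncomputable def kf4q1 : Fn2 := ⟨_, _, fun h1 h2 => (enc_norm (enc_add (enc_mul (enc_norm (enc_mul h1 (enc_norm (enc_add (c3g.enc h1) (enc_rat _ 3 2))))) (enc_inv (enc_add (enc_pnc _ 1) h1))) (enc_mul (enc_norm (enc_subn 1 h1)) (kcg.enc (enc_half h1) h2))))⟩
noncomputable def l4q1_7 : Fn2 := ⟨_, _, fun h1 h2 => (enc_half h1)⟩
noncomputable def l4q1_8 : Fn2 := ⟨_, _, fun h1 h2 => (enc_half (c3g.enc h1))⟩
noncomputable def l4q1_9 : Fn2 := ⟨_, _, fun h1 h2 => (enc_scale 1 4 h1)⟩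
noncomputable def l4q1 : Fn2 := ⟨_, _, fun h1 h2 => (enc_norm (enc_add (txg.enc (l4q1_7.enc h1 h2) (enc_norm (enc_sub (l4q1_8.enc h1 h2) (l4q1_9.enc h1 h2))) h2) (txg.enc (enc_neg (l4q1_7.enc h1 h2)) (enc_norm (enc_add (l4q1_8.enc h1 h2) (l4q1_9.enc h1 h2))) h2)))⟩
noncomputable def kf4q2 : Fn2 := ⟨_, _, fun h1 h2 => (enc_norm (enc_add (enc_mul (enc_norm (enc_mul (enc_norm (enc_sub (enc_nat 2 (c3g.enc h1)) h1)) (enc_norm (enc_sub (enc_add (c3g.enc h1) (enc_pnc _ 3)) (enc_scale 3 2 h1))))) (enc_inv (enc_nat 4 (enc_sub (enc_pnc _ 2) h1)))) (enc_mul (enc_norm (enc_subn 1 h1)) (kcg.enc (enc_norm (enc_sub (enc_scale 1 4 h1) (enc_half (c3g.enc h1)))) h2))))⟩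
noncomputable def l4q2_7 : Fn2 := ⟨_, _, fun h1 h2 => (enc_half (c3g.enc h1))⟩
noncomputable def l4q2_8 : Fn2 := ⟨_, _, fun h1 h2 => (enc_scale 1 4 h1)⟩
noncomputable def l4q2_9 : Fn2 := ⟨_, _, fun h1 h2 => (enc_sub (l4q2_7.enc h1 h2) (l4q2_8.enc h1 h2))⟩
noncomputable def l4q2_12 : Fn2 := ⟨_, _, fun h1 h2 => (enc_add (enc_scale 1 4 (c3g.enc h1)) (enc_scale 3 8 h1))⟩
noncomputable def l4q2_14 : Fn2 := ⟨_, _, fun h1 h2 => (enc_half (l4q2_9.enc h1 h2))⟩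
noncomputable def l4q2 : Fn2 := ⟨_, _, fun h1 h2 => (enc_norm (enc_sub (enc_nat 2 (txg.enc (enc_norm (enc_sub (l4q2_8.enc h1 h2) (l4q2_7.enc h1 h2))) (enc_norm (enc_add (l4q2_12.enc h1 h2) (l4q2_14.enc h1 h2))) h2)) (txg.enc (enc_norm (l4q2_9.enc h1 h2)) (enc_norm (enc_sub (l4q2_12.enc h1 h2) (l4q2_14.enc h1 h2))) h2)))⟩
noncomputable def kfc43 : Fn2 := ⟨_, _, fun h1 h2 => (enc_norm (enc_sub (enc_mul (enc_norm (enc_subn 2 (ycg.enc h1))) (kcg.enc (enc_norm (enc_sub (enc_scale 1 4 (ycg.enc h1)) (enc_half h1))) h2)) (enc_mul (enc_norm (enc_mul (enc_norm (enc_sub (enc_nat 2 h1) (ycg.enc h1))) (enc_norm (enc_sub (enc_add h1 (enc_pnc _ 3)) (enc_scale 3 2 (ycg.enc h1)))))) (enc_inv (enc_nat 4 (enc_subn 1 (ycg.enc h1)))))))⟩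
noncomputable def lc43_7 : Fn2 := ⟨_, _, fun h1 h2 => (enc_half h1)⟩
noncomputable def lc43_8 : Fn2 := ⟨_, _, fun h1 h2 => (enc_scale 1 4 (ycg.enc h1))⟩
noncomputable def lc43_9 : Fn2 := ⟨_, _, fun h1 h2 => (enc_sub (lc43_7.enc h1 h2) (lc43_8.enc h1 h2))⟩
noncomputable def lc43_12 : Fn2 := ⟨_, _, fun h1 h2 => (enc_add (enc_scale 1 4 h1) (enc_scale 3 8 (ycg.enc h1)))⟩
noncomputable def lc43_14 : Fn2 := ⟨_, _, fun h1 h2 => (enc_half (lc43_9.enc h1 h2))⟩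
noncomputable def lc43 : Fn2 := ⟨_, _, fun h1 h2 => (enc_norm (enc_sub (enc_nat 2 (txg.enc (enc_norm (enc_sub (lc43_8.enc h1 h2) (lc43_7.enc h1 h2))) (enc_norm (enc_add (lc43_12.enc h1 h2) (lc43_14.enc h1 h2))) h2)) (txg.enc (enc_norm (lc43_9.enc h1 h2)) (enc_norm (enc_sub (lc43_12.enc h1 h2) (lc43_14.enc h1 h2))) h2)))⟩
noncomputable def lm3m : Fn2 := ⟨_, _, fun h1 h2 => (enc_lam (enc_norm (enc_sub h1 (cv3m.enc h2))) (enc_sub (c3g.enc h2) (cv3m.enc h2)))⟩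
noncomputable def lm2m : Fn2 := ⟨_, _, fun h1 h2 => (enc_lam (enc_norm (enc_sub h1 (cv2m.enc h2))) (enc_sub (cv3m.enc h2) (cv2m.enc h2)))⟩
noncomputable def lm1m : Fn2 := ⟨_, _, fun h1 h2 => (enc_lam (enc_norm (enc_sub h1 (cv1m.enc h2))) (enc_sub (cv2m.enc h2) (cv1m.enc h2)))⟩
noncomputable def lm0m : Fn2 := ⟨_, _, fun h1 h2 => (enc_lam (enc_norm (enc_sub h1 (c1g.enc h2))) (enc_sub (cv1m.enc h2) (c1g.enc h2)))⟩
noncomputable def rkfq0 : Fn3 := ⟨_, _, fun h1 h2 h3 => (enc_case (enc_sub h1 (cv1m.enc h2)) (enc_add (enc_mul h1 (bf1q0.enc h2 h3)) (enc_mul (enc_norm (enc_sub (enc_pnc _ 1) (lm0m.enc h1 h2))) (enc_norm (enc_sub (kf0q0.enc h2 h3) (enc_mul (c1g.enc h2) (bf1q0.enc h2 h3)))))) (enc_case (enc_sub h1 (cv2m.enc h2)) (enc_add (enc_mul h1 (bf2q0.enc h2 h3)) (enc_mul (enc_norm (enc_mul (enc_norm (enc_sub (enc_pnc _ 1) (lm1m.enc h1 h2))) (cv1m.enc h2))) (enc_norm (enc_sub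 (bf1q0.enc h2 h3) (bf2q0.enc h2 h3))))) (enc_case (enc_sub h1 (cv3m.enc h2)) (enc_add (enc_mul h1 (bf3q0.enc h2 h3)) (enc_mul (enc_norm (enc_mul (enc_norm (enc_sub (enc_pnc _ 1) (lm2m.enc h1 h2))) (cv2m.enc h2))) (enc_norm (enc_sub (bf2q0.enc h2 h3) (bf3q0.enc h2 h3))))) (enc_add (kf3q0.enc h2 h3) (enc_mul (lm3m.enc h1 h2) (enc_norm (enc_sub (kf4q0.enc h2 h3) (kf3q0.enc h2 h3))))))))⟩
noncomputable def rsfq0 : Fn3 := ⟨_, _, fun h1 h2 h3 => (enc_case h1 (enc_neg (rkfq0.enc (enc_neg h1) h2 h3)) (rkfq0.enc h1 h2 h3))⟩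
noncomputable def bf2q1_3 : Fn2 := ⟨_, _, fun h1 h2 => (enc_subr 11 32 h2)⟩
noncomputable def bf2q1 : Fn2 := ⟨_, _, fun h1 h2 => (enc_norm (enc_case (enc_subr 21 32 h1) (enc_add (enc_subr 242923003 93750000 (enc_scale 1010054137 187500000 h1)) (enc_mul (enc_norm (bf2q1_3.enc h1 h2)) (enc_norm (enc_subr 58003 37500000 (enc_neg (enc_scale 8311 9375000 h1)))))) (enc_case (enc_subr 7 8 h1) (enc_case (enc_subr 4 5 h1) (enc_add (enc_add (enc_scale 20398621 20312500 h1) (enc_rat _ 104219631 1625000000)) (enc_mul (enc_norm (bf2q1_3.enc h1 h2)) (enc_norm (enc_subr 11192393 40625000 (enc_scale 4375009 16250000 h1))))) (enc_add (enc_add (enc_scale 65003 75000 h1) (enc_rat _ 104497 600000)) (enc_mul (enc_norm (bf2q1_3.enc h1 h2)) (enc_norm (enc_subr 4369 15000 (enc_scale 2167 7500 h1)))))) (enc_case (enc_subr 19 20 h1) (enc_add (enc_add (enc_scale 1013 1875 h1) (enc_rat _ 137939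 300000)) (enc_mul (enc_norm (bf2q1_3.enc h1 h2)) (enc_norm (enc_subr 9109 30000 (enc_scale 2273 7500 h1))))) (enc_add (enc_add (enc_scale 539 1000 h1) (enc_rat _ 461 1000)) (enc_mul (enc_norm (bf2q1_3.enc h1 h2)) (enc_norm (enc_subr 393 1250 (enc_scale 393 1250 h1)))))))))⟩
noncomputable def rkfq1_35 : Fn3 := ⟨_, _, fun h1 h2 h3 => (enc_add (enc_mul h1 (bf2q1.enc h2 h3)) (enc_mul (enc_norm (enc_mul (enc_norm (enc_sub (enc_pnc _ 1) (lm1m.enc h1 h2))) (cv1m.enc h2))) (enc_norm (enc_sub (bf1q1.enc h2 h3) (bf2q1.enc h2 h3)))))⟩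
noncomputable def rkfq1_37 : Fn3 := ⟨_, _, fun h1 h2 h3 => (enc_sub (enc_pnc _ 1) h2)⟩
noncomputable def rkfq1_38 : Fn3 := ⟨_, _, fun h1 h2 h3 => (gsg.enc (enc_norm (rkfq1_37.enc h1 h2 h3)))⟩
noncomputable def rkfq1_44 : Fn3 := ⟨_, _, fun h1 h2 h3 => (enc_scale 3 2 (rkfq1_37.enc h1 h2 h3))⟩
noncomputable def rkfq1_46 : Fn3 := ⟨_, _, fun h1 h2 h3 => (enc_add (enc_pnc _ 1) (rkfq1_38.enc h1 h2 h3))⟩
noncomputable def rkfq1_67 : Fn3 := ⟨_, _, fun h1 h2 h3 => (enc_sub h1 (cv1m.enc h2))⟩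
noncomputable def rkfq1 : Fn3 := ⟨_, _, fun h1 h2 h3 => (enc_case (rkfq1_67.enc h1 h2 h3) (enc_add (enc_mul h1 (bf1q1.enc h2 h3)) (enc_mul (enc_norm (enc_sub (enc_pnc _ 1) (lm0m.enc h1 h2))) (enc_norm (enc_sub (kf0q1.enc h2 h3) (enc_mul (c1g.enc h2) (bf1q1.enc h2 h3)))))) (enc_case (enc_sub h1 (cv2m.enc h2)) (enc_case (enc_subr 19 32 h2) (rkfq1_35.enc h1 h2 h3) (enc_case (enc_subr 23 32 h2) (enc_add (kf1q1.enc h2 h3) (enc_mul (enc_norm (enc_mul (enc_norm (rkfq1_67.enc h1 h2 h3)) (enc_inv (enc_sub (enc_add (swg.enc h2) (enc_rat _ 1 2)) (cv1m.enc h2))))) (enc_norm (enc_sub (enc_add (enc_add (enc_mul (enc_norm (enc_mul (enc_norm (enc_sub (rkfq1_38.enc h1 h2 h3) (rkfq1_44.enc h1 h2 h3))) (enc_norm (rkfq1_46.enc h1 h2 h3)))) (enc_inv (enc_sub (rkfq1_46.enc h1 h2 h3) (rkfq1_44.enc h1 h2 h3)))) (enc_mul (enc_norm (enc_sub (enc_half (rkfq1_37.enc h1 h2 h3)) (enc_mul (enc_scale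 3 4 (enc_sq (enc_norm (rkfq1_37.enc h1 h2 h3)))) (enc_inv (rkfq1_38.enc h1 h2 h3))))) (enc_inv (enc_nat 2 (esg.enc (enc_norm (rkfq1_37.enc h1 h2 h3))))))) (enc_mul (kcg.enc (enc_norm (enc_sub (enc_scale 3 4 (rkfq1_37.enc h1 h2 h3)) (enc_half (rkfq1_38.enc h1 h2 h3)))) h3) (enc_norm (rkfq1_37.enc h1 h2 h3)))) (kf1q1.enc h2 h3))))) (rkfq1_35.enc h1 h2 h3))) (enc_case (enc_sub h1 (cv3m.enc h2)) (enc_add (enc_mul h1 (bf3q1.enc h2 h3)) (enc_mul (enc_norm (enc_sub (enc_pnc _ 1) (lm2m.enc h1 h2))) (enc_norm (enc_sub (kf2q1.enc h2 h3) (enc_mul (cv2m.enc h2) (bf3q1.enc h2 h3)))))) (enc_add (kf3q1.enc h2 h3) (enc_mul (lm3m.enc h1 h2) (enc_norm (enc_sub (kf4q1.enc h2 h3) (kf3q1.enc h2 h3))))))))⟩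
noncomputable def rsfq1 : Fn3 := ⟨_, _, fun h1 h2 h3 => (enc_case h1 (enc_neg (rkfq1.enc (enc_neg h1) h2 h3)) (rkfq1.enc h1 h2 h3))⟩
noncomputable def lm3p : Fn2 := ⟨_, _, fun h1 h2 => (enc_lam (enc_norm (enc_sub h1 (cv3p.enc h2))) (enc_sub (c3g.enc h2) (cv3p.enc h2)))⟩
noncomputable def lm2p : Fn2 := ⟨_, _, fun h1 h2 => (enc_lam (enc_norm (enc_sub h1 (cv2p.enc h2))) (enc_sub (cv3p.enc h2) (cv2p.enc h2)))⟩
noncomputable def bf2q2_3 : Fn2 := ⟨_, _, fun h1 h2 => (enc_subr 11 32 h2)⟩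
noncomputable def bf2q2 : Fn2 := ⟨_, _, fun h1 h2 => (enc_norm (enc_case (enc_subr 43 32 h1) (enc_case (enc_subr 11 10 h1) (enc_case (enc_subr 103 100 h1) (enc_add (enc_sub (enc_rat _ 4969637 3000000) (enc_scale 21197 30000 h1)) (enc_mul (enc_norm (bf2q2_3.enc h1 h2)) (enc_norm (enc_sub (enc_rat _ 108959 60000) (enc_scale 1333 750 h1))))) (enc_case (enc_subr 53 50 h1) (enc_add (enc_sub (enc_rat _ 4969843 3000000) (enc_scale 21199 30000 h1)) (enc_mul (enc_norm (bf2q2_3.enc h1 h2)) (enc_norm (enc_sub (enc_rat _ 13607 7500) (enc_scale 5327 3000 h1))))) (enc_add (enc_sub (enc_rat _ 1656791 1000000) (enc_scale 1767 2500 h1)) (enc_mul (enc_norm (bf2q2_3.enc h1 h2)) (enc_norm (enc_sub (enc_rat _ 362129 200000) (enc_scale 7089 4000 h1))))))) (enc_case (enc_subr 29 25 h1) (enc_add (enc_sub (enc_rat _ 4971253 3000000) (enc_scale 5303 7500 h1)) (enc_mul (enc_norm (bf2q2_3.enc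 h1 h2)) (enc_norm (enc_sub (enc_rat _ 180377 100000) (enc_scale 883 500 h1))))) (enc_case (enc_subr 5 4 h1) (enc_add (enc_sub (enc_rat _ 14918167 9000000) (enc_scale 31837 45000 h1)) (enc_mul (enc_norm (bf2q2_3.enc h1 h2)) (enc_norm (enc_sub (enc_rat _ 1613881 900000) (enc_scale 3953 2250 h1))))) (enc_add (enc_sub (enc_rat _ 414434927 250000000) (enc_scale 221131677 312500000 h1)) (enc_mul (enc_norm (bf2q2_3.enc h1 h2)) (enc_norm (enc_sub (enc_rat _ 44732761 25000000) (enc_scale 54805511 31250000 h1)))))))) (enc_add (enc_subr 4932944719 625000000 (enc_scale 5555732219 937500000 h1)) (enc_mul (enc_norm (bf2q2_3.enc h1 h2)) (enc_norm (enc_subr 261417 78125 (enc_scale 8365169 3750000 h1)))))))⟩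
noncomputable def lm1p : Fn2 := ⟨_, _, fun h1 h2 => (enc_lam (enc_norm (enc_sub h1 (cv1p.enc h2))) (enc_sub (cv2p.enc h2) (cv1p.enc h2)))⟩
noncomputable def kf1q2 : Fn2 := ⟨_, _, fun h1 h2 => (enc_norm (enc_mul (cv1p.enc h1) (bf1q2.enc h1 h2)))⟩
noncomputable def kf0q2 : Fn2 := ⟨_, _, fun h1 h2 => (enc_norm (enc_add (c1g.enc h1) (enc_mul (enc_norm (enc_subn 1 h1)) (kcg.enc (enc_neg (c1g.enc h1)) h2))))⟩
noncomputable def lm0p : Fn2 := ⟨_, _, fun h1 h2 => (enc_lam (enc_norm (enc_sub h1 (c1g.enc h2))) (enc_sub (cv1p.enc h2) (c1g.enc h2)))⟩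
noncomputable def n0b : Fn2 := ⟨_, _, fun h1 h2 => (enc_norm (enc_sub (enc_pnc _ 1) (enc_mul (enc_norm (enc_subn 1 h1)) (enc_norm (enc_sub (enc_rat _ 293 4375) (enc_scale 5457 3500 (enc_subr 11 32 h2)))))))⟩
noncomputable def rkfq2_35 : Fn3 := ⟨_, _, fun h1 h2 h3 => (enc_add (enc_mul h1 (bf2q2.enc h2 h3)) (enc_mul (enc_norm (enc_mul (enc_norm (enc_sub (enc_pnc _ 1) (lm1p.enc h1 h2))) (cv1p.enc h2))) (enc_norm (enc_sub (bf1q2.enc h2 h3) (bf2q2.enc h2 h3)))))⟩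
noncomputable def rkfq2_36 : Fn3 := ⟨_, _, fun h1 h2 h3 => (enc_subn 1 h2)⟩
noncomputable def rkfq2_37 : Fn3 := ⟨_, _, fun h1 h2 h3 => (gsg.enc (enc_norm (rkfq2_36.enc h1 h2 h3)))⟩
noncomputable def rkfq2_43 : Fn3 := ⟨_, _, fun h1 h2 h3 => (enc_scale 3 2 (rkfq2_36.enc h1 h2 h3))⟩
noncomputable def rkfq2_45 : Fn3 := ⟨_, _, fun h1 h2 h3 => (enc_add (enc_pnc _ 1) (rkfq2_37.enc h1 h2 h3))⟩
noncomputable def rkfq2_67 : Fn3 := ⟨_, _, fun h1 h2 h3 => (enc_sub h1 (cv1p.enc h2))⟩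
noncomputable def rkfq2_84 : Fn3 := ⟨_, _, fun h1 h2 h3 => (enc_mul h1 (bf1q2.enc h2 h3))⟩
noncomputable def rkfq2_86 : Fn3 := ⟨_, _, fun h1 h2 h3 => (enc_sub (enc_pnc _ 1) (lm0p.enc h1 h2))⟩
noncomputable def rkfq2 : Fn3 := ⟨_, _, fun h1 h2 h3 => (enc_case (rkfq2_67.enc h1 h2 h3) (enc_case (enc_subr 577 500 h2) (enc_add (rkfq2_84.enc h1 h2 h3) (enc_mul (enc_norm (rkfq2_86.enc h1 h2 h3)) (enc_norm (enc_sub (kf0q2.enc h2 h3) (enc_mul (c1g.enc h2) (bf1q2.enc h2 h3)))))) (enc_case (enc_subr 2887 2500 h2) (enc_add (rkfq2_84.enc h1 h2 h3) (enc_mul (enc_norm (rkfq2_86.enc h1 h2 h3)) (enc_norm (enc_mul (c1g.enc h2) (enc_norm (enc_sub (n0b.enc h2 h3) (bf1q2.enc h2 h3))))))) (rkfq2_84.enc h1 h2 h3))) (enc_case (enc_sub h1 (cv2p.enc h2)) (enc_case (enc_subr 41 32 h2) (rkfq2_35.enc h1 h2 h3) (enc_case (enc_subr 45 32 h2) (enc_add (kf1q2.enc h2 h3) (enc_mul (enc_norm (enc_mul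 (enc_norm (rkfq2_67.enc h1 h2 h3)) (enc_inv (enc_sub (enc_subr 1 2 (swg.enc h2)) (cv1p.enc h2))))) (enc_norm (enc_sub (enc_add (enc_sub (enc_mul (enc_norm (enc_mul (enc_norm (enc_sub (rkfq2_37.enc h1 h2 h3) (rkfq2_43.enc h1 h2 h3))) (enc_norm (rkfq2_45.enc h1 h2 h3)))) (enc_inv (enc_sub (rkfq2_45.enc h1 h2 h3) (rkfq2_43.enc h1 h2 h3)))) (enc_mul (enc_norm (enc_sub (enc_half (rkfq2_36.enc h1 h2 h3)) (enc_mul (enc_scale 3 4 (enc_sq (enc_norm (rkfq2_36.enc h1 h2 h3)))) (enc_inv (rkfq2_37.enc h1 h2 h3))))) (enc_inv (enc_nat 2 (esg.enc (enc_norm (rkfq2_36.enc h1 h2 h3))))))) (enc_mul (kcg.enc (enc_norm (enc_sub (enc_scale 3 4 (rkfq2_36.enc h1 h2 h3)) (enc_half (rkfq2_37.enc h1 h2 h3)))) h3) (enc_norm (rkfq2_36.enc h1 h2 h3)))) (kf1q2.enc h2 h3))))) (rkfq2_35.enc h1 h2 h3))) (enc_case (enc_sub h1 (cv3p.enc h2)) (enc_add (enc_mul h1 (bf3q2.enc h2 h3)) (enc_mul (enc_norm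 (enc_sub (enc_pnc _ 1) (lm2p.enc h1 h2))) (enc_norm (enc_sub (kf2q2.enc h2 h3) (enc_mul (cv2p.enc h2) (bf3q2.enc h2 h3)))))) (enc_add (kf3q2.enc h2 h3) (enc_mul (lm3p.enc h1 h2) (enc_norm (enc_sub (kf4q2.enc h2 h3) (kf3q2.enc h2 h3))))))))⟩
noncomputable def rsfq2 : Fn3 := ⟨_, _, fun h1 h2 h3 => (enc_case h1 (enc_neg (rkfq2.enc (enc_neg h1) h2 h3)) (rkfq2.enc h1 h2 h3))⟩
noncomputable def cv2r : Fn1 := ⟨_, _, fun h1 => (enc_norm (enc_add (enc_scale 17 20 (enc_subr 1 2 (swg.enc h1))) (enc_scale 3 20 (c3g.enc h1))))⟩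
noncomputable def cv3r : Fn1 := ⟨_, _, fun h1 => (enc_norm (enc_add (enc_half (enc_subr 1 2 (swg.enc h1))) (enc_half (c3g.enc h1))))⟩
noncomputable def kf3q3 : Fn2 := ⟨_, _, fun h1 h2 => (enc_norm (enc_mul (cv3r.enc h1) (bf3q3.enc h1 h2)))⟩
noncomputable def kf4q3 : Fn2 := ⟨_, _, fun h1 h2 => (enc_norm (enc_sub (enc_mul (enc_norm (enc_subn 2 h1)) (kcg.enc (enc_norm (enc_sub (enc_scale 1 4 h1) (enc_half (c3g.enc h1)))) h2)) (enc_mul (enc_norm (enc_mul (enc_norm (enc_sub (enc_nat 2 (c3g.enc h1)) h1)) (enc_norm (enc_sub (enc_add (c3g.enc h1) (enc_pnc _ 3)) (enc_scale 3 2 h1))))) (enc_inv (enc_nat 4 (enc_subn 1 h1))))))⟩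
noncomputable def lm3r : Fn2 := ⟨_, _, fun h1 h2 => (enc_lam (enc_norm (enc_sub h1 (cv3r.enc h2))) (enc_sub (c3g.enc h2) (cv3r.enc h2)))⟩
noncomputable def lm2r : Fn2 := ⟨_, _, fun h1 h2 => (enc_lam (enc_norm (enc_sub h1 (cv2r.enc h2))) (enc_sub (cv3r.enc h2) (cv2r.enc h2)))⟩
noncomputable def lm1r : Fn2 := ⟨_, _, fun h1 h2 => (enc_lam (enc_norm (enc_sub h1 (cv1r.enc h2))) (enc_sub (cv2r.enc h2) (cv1r.enc h2)))⟩
noncomputable def rkfq3 : Fn3 := ⟨_, _, fun h1 h2 h3 => (enc_case (enc_sub h1 (cv1r.enc h2)) (enc_mul h1 (bf1q3.enc h2 h3)) (enc_case (enc_sub h1 (cv2r.enc h2)) (enc_add (enc_mul h1 (bf2q3.enc h2 h3)) (enc_mul (enc_norm (enc_mul (enc_norm (enc_sub (enc_pnc _ 1) (lm1r.enc h1 h2))) (cv1r.enc h2))) (enc_norm (enc_sub (bf1q3.enc h2 h3) (bf2q3.enc h2 h3))))) (enc_case (enc_sub h1 (cv3r.enc h2)) (enc_add (enc_mul h1 (bf3q3.enc h2 h3)) (enc_mul (enc_norm (enc_mul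 (enc_norm (enc_sub (enc_pnc _ 1) (lm2r.enc h1 h2))) (cv2r.enc h2))) (enc_norm (enc_sub (bf2q3.enc h2 h3) (bf3q3.enc h2 h3))))) (enc_add (kf3q3.enc h2 h3) (enc_mul (lm3r.enc h1 h2) (enc_norm (enc_sub (kf4q3.enc h2 h3) (kf3q3.enc h2 h3))))))))⟩
noncomputable def rsfq3 : Fn3 := ⟨_, _, fun h1 h2 h3 => (enc_case h1 (enc_neg (rkfq3.enc (enc_neg h1) h2 h3)) (rkfq3.enc h1 h2 h3))⟩
noncomputable def rxq0 : Fn3 := ⟨_, _, fun h1 h2 h3 => (enc_case (enc_sub h1 (cv1m.enc h2)) (enc_add (enc_mul h1 (bx1q0.enc h2 h3)) (enc_mul (enc_norm (enc_sub (enc_pnc _ 1) (lm0m.enc h1 h2))) (enc_norm (enc_sub (l0q0.enc h2 h3) (enc_mul (c1g.enc h2) (bx1q0.enc h2 h3)))))) (enc_case (enc_sub h1 (cv2m.enc h2)) (enc_add (enc_mul h1 (bx2q0.enc h2 h3)) (enc_mul (enc_norm (enc_mul (enc_norm (enc_sub (enc_pnc _ 1) (lm1m.enc h1 h2))) (cv1m.enc h2))) (enc_norm (enc_sub (bx1q0.enc h2 h3) (bx2q0.enc h2 h3)))))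 (enc_case (enc_sub h1 (cv3m.enc h2)) (enc_add (enc_mul h1 (bx3q0.enc h2 h3)) (enc_mul (enc_norm (enc_mul (enc_norm (enc_sub (enc_pnc _ 1) (lm2m.enc h1 h2))) (cv2m.enc h2))) (enc_norm (enc_sub (bx2q0.enc h2 h3) (bx3q0.enc h2 h3))))) (enc_add (l3q0.enc h2 h3) (enc_mul (lm3m.enc h1 h2) (enc_norm (enc_sub (l4q0.enc h2 h3) (l3q0.enc h2 h3))))))))⟩
noncomputable def rlq0 : Fn3 := ⟨_, _, fun h1 h2 h3 => (enc_case h1 (enc_neg (rxq0.enc (enc_neg h1) h2 h3)) (rxq0.enc h1 h2 h3))⟩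
noncomputable def bx2q1_3 : Fn2 := ⟨_, _, fun h1 h2 => (enc_subr 11 32 h2)⟩
noncomputable def bx2q1_18 : Fn2 := ⟨_, _, fun h1 h2 => (enc_sq (enc_norm (bx2q1_3.enc h1 h2)))⟩
noncomputable def bx2q1 : Fn2 := ⟨_, _, fun h1 h2 => (enc_norm (enc_case (enc_subr 21 32 h1) (enc_add (enc_add (enc_sub (enc_rat _ 165716237 1875000000) (enc_scale 83321237 937500000 h1)) (enc_mul (enc_norm (bx2q1_3.enc h1 h2)) (enc_norm (enc_subr 860361 12500000 (enc_scale 59171 390625 h1))))) (enc_mul (bx2q1_18.enc h1 h2) (enc_norm (enc_sub (enc_rat _ 427 93750) (enc_scale 427 46875 h1))))) (enc_case (enc_subr 7 8 h1) (enc_case (enc_subr 4 5 h1) (enc_add (enc_add (enc_sub (enc_rat _ 696402229 8125000000) (enc_scale 75381763 812500000 h1)) (enc_mul (enc_norm (bx2q1_3.enc h1 h2)) (enc_norm (enc_subr 59733229 812500000 (enc_scale 10658763 81250000 h1))))) (enc_mul (bx2q1_18.enc h1 h2) (enc_norm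 (enc_subr 25528 40625 (enc_scale 6382 8125 h1))))) (enc_add (enc_sub (enc_rat _ 60353 1000000) (enc_scale 1527 25000 h1)) (enc_mul (enc_norm (bx2q1_3.enc h1 h2)) (enc_norm (enc_sub (enc_rat _ 30293 300000) (enc_scale 163 1875 h1)))))) (enc_case (enc_subr 19 20 h1) (enc_add (enc_sub (enc_rat _ 14117 250000) (enc_scale 177 3125 h1)) (enc_mul (enc_norm (bx2q1_3.enc h1 h2)) (enc_norm (enc_sub (enc_rat _ 53813 300000) (enc_scale 331 1875 h1))))) (enc_add (enc_sub (enc_rat _ 133 2500) (enc_scale 133 2500 h1)) (enc_mul (enc_norm (bx2q1_3.enc h1 h2)) (enc_norm (enc_sub (enc_rat _ 1167 5000) (enc_scale 1167 5000 h1)))))))))⟩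
noncomputable def rxq1_35 : Fn3 := ⟨_, _, fun h1 h2 h3 => (enc_add (enc_mul h1 (bx2q1.enc h2 h3)) (enc_mul (enc_norm (enc_mul (enc_norm (enc_sub (enc_pnc _ 1) (lm1m.enc h1 h2))) (cv1m.enc h2))) (enc_norm (enc_sub (bx1q1.enc h2 h3) (bx2q1.enc h2 h3)))))⟩
noncomputable def rxq1_37 : Fn3 := ⟨_, _, fun h1 h2 h3 => (enc_sub (enc_pnc _ 1) h2)⟩
noncomputable def rxq1_54 : Fn3 := ⟨_, _, fun h1 h2 h3 => (enc_sub h1 (cv1m.enc h2))⟩
noncomputable def rxq1 : Fn3 := ⟨_, _, fun h1 h2 h3 => (enc_case (rxq1_54.enc h1 h2 h3) (enc_add (enc_mul h1 (bx1q1.enc h2 h3)) (enc_mul (enc_norm (enc_sub (enc_pnc _ 1) (lm0m.enc h1 h2))) (enc_norm (enc_sub (l0q1.enc h2 h3) (enc_mul (c1g.enc h2) (bx1q1.enc h2 h3)))))) (enc_case (enc_sub h1 (cv2m.enc h2)) (enc_case (enc_subr 19 32 h2) (rxq1_35.enc h1 h2 h3) (enc_case (enc_subr 23 32 h2) (enc_add (l1q1.enc h2 h3) (enc_mul (enc_norm (enc_mul (enc_norm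 (rxq1_54.enc h1 h2 h3)) (enc_inv (enc_sub (enc_add (swg.enc h2) (enc_rat _ 1 2)) (cv1m.enc h2))))) (enc_norm (enc_sub (enc_sub (qsg.enc (enc_norm (rxq1_37.enc h1 h2 h3))) (enc_mul (enc_norm (enc_nat 2 (enc_sub (rxq1_37.enc h1 h2 h3) h3))) (enc_norm (enc_mul (esg.enc (enc_norm (rxq1_37.enc h1 h2 h3))) (kcg.enc (enc_norm (enc_sub (enc_scale 3 4 (rxq1_37.enc h1 h2 h3)) (enc_half (gsg.enc (enc_norm (rxq1_37.enc h1 h2 h3)))))) h3))))) (l1q1.enc h2 h3))))) (rxq1_35.enc h1 h2 h3))) (enc_case (enc_sub h1 (cv3m.enc h2)) (enc_add (enc_mul h1 (bx3q1.enc h2 h3)) (enc_mul (enc_norm (enc_sub (enc_pnc _ 1) (lm2m.enc h1 h2))) (enc_norm (enc_sub (l2q1.enc h2 h3) (enc_mul (cv2m.enc h2) (bx3q1.enc h2 h3)))))) (enc_add (l3q1.enc h2 h3) (enc_mul (lm3m.enc h1 h2) (enc_norm (enc_sub (l4q1.enc h2 h3) (l3q1.enc h2 h3))))))))⟩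
noncomputable def rlq1 : Fn3 := ⟨_, _, fun h1 h2 h3 => (enc_case h1 (enc_neg (rxq1.enc (enc_neg h1) h2 h3)) (rxq1.enc h1 h2 h3))⟩
noncomputable def bx2q2_3 : Fn2 := ⟨_, _, fun h1 h2 => (enc_subr 11 32 h2)⟩
noncomputable def bx2q2_80 : Fn2 := ⟨_, _, fun h1 h2 => (enc_sq (enc_norm (bx2q2_3.enc h1 h2)))⟩
noncomputable def bx2q2 : Fn2 := ⟨_, _, fun h1 h2 => (enc_norm (enc_case (enc_subr 43 32 h1) (enc_case (enc_subr 11 10 h1) (enc_case (enc_subr 103 100 h1) (enc_add (enc_subr 18323 250000 (enc_scale 743 10000 h1)) (enc_mul (enc_norm (bx2q2_3.enc h1 h2)) (enc_norm (enc_subr 11633 50000 (enc_scale 247 1000 h1))))) (enc_case (enc_subr 53 50 h1) (enc_add (enc_subr 73601 1000000 (enc_scale 373 5000 h1)) (enc_mul (enc_norm (bx2q2_3.enc h1 h2)) (enc_norm (enc_subr 2831 12500 (enc_scale 241 1000 h1))))) (enc_add (enc_subr 148421 2000000 (enc_scale 3007 40000 h1)) (enc_mul (enc_norm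 (bx2q2_3.enc h1 h2)) (enc_norm (enc_subr 10529 50000 (enc_scale 113 500 h1))))))) (enc_case (enc_subr 29 25 h1) (enc_add (enc_subr 29367 250000 (enc_scale 229 2000 h1)) (enc_mul (enc_norm (bx2q2_3.enc h1 h2)) (enc_norm (enc_subr 14719 300000 (enc_scale 19 240 h1))))) (enc_case (enc_subr 5 4 h1) (enc_add (enc_subr 116369 562500 (enc_scale 8621 45000 h1)) (enc_mul (enc_norm (bx2q2_3.enc h1 h2)) (enc_norm (enc_sub (enc_rat _ 540773 900000) (enc_scale 433 900 h1))))) (enc_add (enc_add (enc_subr 51726567 125000000 (enc_scale 55800817 156250000 h1)) (enc_mul (enc_norm (bx2q2_3.enc h1 h2)) (enc_norm (enc_subr 14914223 12500000 (enc_scale 7453799 7812500 h1))))) (enc_mul (bx2q2_80.enc h1 h2) (enc_norm (enc_sub (enc_rat _ 124129 12500) (enc_scale 124129 15625 h1)))))))) (enc_add (enc_add (enc_subr 18201637 31250000 (enc_scale 90663173 187500000 h1)) (enc_mul (enc_norm (bx2q2_3.enc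 h1 h2)) (enc_norm (enc_subr 17910793 31250000 (enc_scale 2955653 7812500 h1))))) (enc_mul (bx2q2_80.enc h1 h2) (enc_norm (enc_subr 1667 31250 (enc_scale 1667 46875 h1)))))))⟩
noncomputable def l1q2 : Fn2 := ⟨_, _, fun h1 h2 => (enc_norm (enc_mul (cv1p.enc h1) (bx1q2.enc h1 h2)))⟩
noncomputable def l0q2_7 : Fn2 := ⟨_, _, fun h1 h2 => (enc_scale 3 4 h1)⟩
noncomputable def l0q2_8 : Fn2 := ⟨_, _, fun h1 h2 => (enc_half (c1g.enc h1))⟩
noncomputable def l0q2 : Fn2 := ⟨_, _, fun h1 h2 => (enc_norm (enc_sub (txg.enc (enc_neg (c1g.enc h1)) (enc_norm (enc_add (l0q2_7.enc h1 h2) (l0q2_8.enc h1 h2))) h2) (txg.enc (c1g.enc h1) (enc_norm (enc_sub (l0q2_7.enc h1 h2) (l0q2_8.enc h1 h2))) h2)))⟩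
noncomputable def n0x : Fn2 := ⟨_, _, fun h1 h2 => (enc_norm (enc_sub (enc_rat _ 1279 35000) (enc_scale 27 3500 (enc_subr 11 32 h2))))⟩
noncomputable def rxq2_35 : Fn3 := ⟨_, _, fun h1 h2 h3 => (enc_add (enc_mul h1 (bx2q2.enc h2 h3)) (enc_mul (enc_norm (enc_mul (enc_norm (enc_sub (enc_pnc _ 1) (lm1p.enc h1 h2))) (cv1p.enc h2))) (enc_norm (enc_sub (bx1q2.enc h2 h3) (bx2q2.enc h2 h3)))))⟩
noncomputable def rxq2_36 : Fn3 := ⟨_, _, fun h1 h2 h3 => (enc_subn 1 h2)⟩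
noncomputable def rxq2_54 : Fn3 := ⟨_, _, fun h1 h2 h3 => (enc_sub h1 (cv1p.enc h2))⟩
noncomputable def rxq2_71 : Fn3 := ⟨_, _, fun h1 h2 h3 => (enc_mul h1 (bx1q2.enc h2 h3))⟩
noncomputable def rxq2_73 : Fn3 := ⟨_, _, fun h1 h2 h3 => (enc_sub (enc_pnc _ 1) (lm0p.enc h1 h2))⟩
noncomputable def rxq2 : Fn3 := ⟨_, _, fun h1 h2 h3 => (enc_case (rxq2_54.enc h1 h2 h3) (enc_case (enc_subr 577 500 h2) (enc_add (rxq2_71.enc h1 h2 h3) (enc_mul (enc_norm (rxq2_73.enc h1 h2 h3)) (enc_norm (enc_sub (l0q2.enc h2 h3) (enc_mul (c1g.enc h2) (bx1q2.enc h2 h3)))))) (enc_case (enc_subr 2887 2500 h2) (enc_add (rxq2_71.enc h1 h2 h3) (enc_mul (enc_norm (rxq2_73.enc h1 h2 h3)) (enc_norm (enc_mul (c1g.enc h2) (enc_norm (enc_sub (n0x.enc h2 h3) (bx1q2.enc h2 h3))))))) (rxq2_71.enc h1 h2 h3))) (enc_case (enc_sub h1 (cv2p.enc h2)) (enc_case (enc_subr 41 32 h2) (rxq2_35.enc h1 h2 h3) (enc_case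 (enc_subr 45 32 h2) (enc_add (l1q2.enc h2 h3) (enc_mul (enc_norm (enc_mul (enc_norm (rxq2_54.enc h1 h2 h3)) (enc_inv (enc_sub (enc_subr 1 2 (swg.enc h2)) (cv1p.enc h2))))) (enc_norm (enc_sub (enc_sub (qsg.enc (enc_norm (rxq2_36.enc h1 h2 h3))) (enc_mul (enc_norm (enc_nat 2 (enc_sub (rxq2_36.enc h1 h2 h3) h3))) (enc_norm (enc_mul (esg.enc (enc_norm (rxq2_36.enc h1 h2 h3))) (kcg.enc (enc_norm (enc_sub (enc_scale 3 4 (rxq2_36.enc h1 h2 h3)) (enc_half (gsg.enc (enc_norm (rxq2_36.enc h1 h2 h3)))))) h3))))) (l1q2.enc h2 h3))))) (rxq2_35.enc h1 h2 h3))) (enc_case (enc_sub h1 (cv3p.enc h2)) (enc_add (enc_mul h1 (bx3q2.enc h2 h3)) (enc_mul (enc_norm (enc_sub (enc_pnc _ 1) (lm2p.enc h1 h2))) (enc_norm (enc_sub (l2q2.enc h2 h3) (enc_mul (cv2p.enc h2) (bx3q2.enc h2 h3)))))) (enc_add (l3q2.enc h2 h3) (enc_mul (lm3p.enc h1 h2) (enc_norm (enc_sub (l4q2.enc h2 h3) (l3q2.enc h2 h3))))))))⟩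
noncomputable def rlq2 : Fn3 := ⟨_, _, fun h1 h2 h3 => (enc_case h1 (enc_neg (rxq2.enc (enc_neg h1) h2 h3)) (rxq2.enc h1 h2 h3))⟩
noncomputable def l3q3 : Fn2 := ⟨_, _, fun h1 h2 => (enc_norm (enc_mul (cv3r.enc h1) (bx3q3.enc h1 h2)))⟩
noncomputable def l4q3_7 : Fn2 := ⟨_, _, fun h1 h2 => (enc_half (c3g.enc h1))⟩
noncomputable def l4q3_8 : Fn2 := ⟨_, _, fun h1 h2 => (enc_scale 1 4 h1)⟩
noncomputable def l4q3_9 : Fn2 := ⟨_, _, fun h1 h2 => (enc_sub (l4q3_7.enc h1 h2) (l4q3_8.enc h1 h2))⟩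
noncomputable def l4q3_12 : Fn2 := ⟨_, _, fun h1 h2 => (enc_add (enc_scale 1 4 (c3g.enc h1)) (enc_scale 3 8 h1))⟩
noncomputable def l4q3_14 : Fn2 := ⟨_, _, fun h1 h2 => (enc_half (l4q3_9.enc h1 h2))⟩
noncomputable def l4q3 : Fn2 := ⟨_, _, fun h1 h2 => (enc_norm (enc_sub (enc_nat 2 (txg.enc (enc_norm (enc_sub (l4q3_8.enc h1 h2) (l4q3_7.enc h1 h2))) (enc_norm (enc_add (l4q3_12.enc h1 h2) (l4q3_14.enc h1 h2))) h2)) (txg.enc (enc_norm (l4q3_9.enc h1 h2)) (enc_norm (enc_sub (l4q3_12.enc h1 h2) (l4q3_14.enc h1 h2))) h2)))⟩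
noncomputable def rxq3 : Fn3 := ⟨_, _, fun h1 h2 h3 => (enc_case (enc_sub h1 (cv1r.enc h2)) (enc_mul h1 (bx1q3.enc h2 h3)) (enc_case (enc_sub h1 (cv2r.enc h2)) (enc_add (enc_mul h1 (bx2q3.enc h2 h3)) (enc_mul (enc_norm (enc_mul (enc_norm (enc_sub (enc_pnc _ 1) (lm1r.enc h1 h2))) (cv1r.enc h2))) (enc_norm (enc_sub (bx1q3.enc h2 h3) (bx2q3.enc h2 h3))))) (enc_case (enc_sub h1 (cv3r.enc h2)) (enc_add (enc_mul h1 (bx3q3.enc h2 h3)) (enc_mul (enc_norm (enc_mul (enc_norm (enc_sub (enc_pnc _ 1) (lm2r.enc h1 h2))) (cv2r.enc h2))) (enc_norm (enc_sub (bx2q3.enc h2 h3) (bx3q3.enc h2 h3))))) (enc_add (l3q3.enc h2 h3) (enc_mul (lm3r.enc h1 h2) (enc_norm (enc_sub (l4q3.enc h2 h3) (l3q3.enc h2 h3))))))))⟩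
noncomputable def rlq3 : Fn3 := ⟨_, _, fun h1 h2 h3 => (enc_case h1 (enc_neg (rxq3.enc (enc_neg h1) h2 h3)) (rxq3.enc h1 h2 h3))⟩
noncomputable def mug3 : Fn1 := ⟨_, _, fun h1 => (enc_inv (enc_add (enc_nat 2 (gsg.enc h1)) (enc_pnc _ 3)))⟩
noncomputable def gug : Fn1 := ⟨_, _, fun h1 => (enc_norm (enc_add (enc_scale 3 4 h1) (enc_scale 3 2 (enc_sub (enc_pnc _ 1) (gsg.enc h1)))))⟩
noncomputable def kug_2 : Fn1 := ⟨_, _, fun h1 => (enc_sq h1)⟩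
noncomputable def kug : Fn1 := ⟨_, _, fun h1 => (enc_norm (enc_add (enc_add (enc_scale 3 4 h1) (enc_scale 3 2 (kug_2.enc h1))) (enc_mul (enc_norm (enc_mul (enc_scale 3 4 (kug_2.enc h1)) (enc_inv (gsg.enc h1)))) (gug.enc h1))))⟩
noncomputable def kp0q0_3 : Fn2 := ⟨_, _, fun h1 h2 => (enc_subr 11 32 h2)⟩
noncomputable def kp0q0_8 : Fn2 := ⟨_, _, fun h1 h2 => (enc_sub (enc_scale 3 4 h1) (enc_half (c1g.enc h1)))⟩
noncomputable def kp0q0 : Fn2 := ⟨_, _, fun h1 h2 => (enc_norm (enc_case (enc_add (kp0q0_8.enc h1 h2) (enc_rat _ 229 829)) (enc_mul h1 (enc_norm (enc_add (enc_subr 1736655665741 3710000000000 (enc_neg (enc_scale 9155705905741 1855000000000 (kp0q0_8.enc h1 h2)))) (enc_mul (enc_norm (kp0q0_3.enc h1 h2)) (enc_norm (enc_add (enc_scale 115267500041 231875000000 (kp0q0_8.enc h1 h2)) (enc_rat _ 473648862541 463750000000))))))) (enc_case (enc_add (kp0q0_8.enc h1 h2)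 (enc_rat _ 121 746)) (enc_sub (kug.enc h1) (enc_mul h1 (enc_norm (enc_mul (kcg.enc (enc_norm (kp0q0_8.enc h1 h2)) h2) (enc_norm (enc_add (gug.enc h1) (enc_nat 2 (c1g.enc h1)))))))) (enc_mul h1 (enc_norm (enc_add (enc_sub (enc_rat _ 51954178931 98800000000) (enc_scale 249528886131 49400000000 (kp0q0_8.enc h1 h2))) (enc_mul (enc_norm (kp0q0_3.enc h1 h2)) (enc_norm (enc_subr 58855643753 308750000000 (enc_neg (enc_scale 179743268747 154375000000 (kp0q0_8.enc h1 h2))))))))))))⟩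
noncomputable def kn0q0 : Fn2 := ⟨_, _, fun h1 h2 => (enc_norm (enc_add (enc_mul (enc_norm (enc_add (enc_pnc _ 1) (enc_mul (mug3.enc h2) (gug.enc h2)))) (kf0q0.enc h1 h2)) (enc_mul (mug3.enc h2) (kp0q0.enc h1 h2))))⟩
noncomputable def kp0q1_9 : Fn2 := ⟨_, _, fun h1 h2 => (enc_sub (enc_scale 3 4 h1) (enc_half (c1g.enc h1)))⟩
noncomputable def kp0q1 : Fn2 := ⟨_, _, fun h1 h2 => (enc_norm (enc_mul (enc_norm (enc_subn 1 h1)) (enc_norm (enc_add (enc_sub (enc_rat _ 51954178931 98800000000) (enc_scale 249528886131 49400000000 (kp0q1_9.enc h1 h2))) (enc_mul (enc_norm (enc_subr 11 32 h2)) (enc_norm (enc_subr 58855643753 308750000000 (enc_neg (enc_scale 179743268747 154375000000 (kp0q1_9.enc h1 h2))))))))))⟩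
noncomputable def kn0q1 : Fn2 := ⟨_, _, fun h1 h2 => (enc_norm (enc_add (enc_mul (enc_norm (enc_add (enc_pnc _ 1) (enc_mul (mug3.enc h2) (gug.enc h2)))) (kf0q1.enc h1 h2)) (enc_mul (mug3.enc h2) (kp0q1.enc h1 h2))))⟩
noncomputable def kpc02_4 : Fn2 := ⟨_, _, fun h1 h2 => (enc_subr 11 32 h2)⟩
noncomputable def kpc02 : Fn2 := ⟨_, _, fun h1 h2 => (enc_norm (enc_mul (enc_norm (enc_subn 1 (yag.enc h1))) (enc_norm (enc_case (enc_subr 1 10 h1) (enc_add (enc_scale 199637 50000 h1) (enc_mul (enc_norm (kpc02_4.enc h1 h2)) (enc_scale 3013 5000 h1))) (enc_add (enc_subr 1687 2000000 (enc_scale 160047 40000 h1)) (enc_mul (enc_norm (kpc02_4.enc h1 h2)) (enc_norm (enc_subr 47149 400000 (enc_scale 71253 40000 h1)))))))))⟩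
noncomputable def knc02 : Fn2 := ⟨_, _, fun h1 h2 => (enc_norm (enc_add (enc_mul (enc_norm (enc_add (enc_pnc _ 1) (enc_mul (mug3.enc h2) (gug.enc h2)))) (kfc02.enc h1 h2)) (enc_mul (mug3.enc h2) (kpc02.enc h1 h2))))⟩
noncomputable def bd1q0 : Fn2 := ⟨_, _, fun h1 h2 => (enc_norm (enc_sub (enc_scale 1725401 250000 h1) (enc_mul (enc_norm (enc_subr 11 32 h2)) (enc_scale 1 25000 h1))))⟩
noncomputable def kp1q0 : Fn2 := ⟨_, _, fun h1 h2 => (enc_norm (enc_mul (cv1m.enc h1) (bd1q0.enc h1 h2)))⟩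
noncomputable def kn1q0 : Fn2 := ⟨_, _, fun h1 h2 => (enc_norm (enc_add (enc_mul (enc_norm (enc_add (enc_pnc _ 1) (enc_mul (mug3.enc h2) (gug.enc h2)))) (kf1q0.enc h1 h2)) (enc_mul (mug3.enc h2) (kp1q0.enc h1 h2))))⟩
noncomputable def bd1q1_3 : Fn2 := ⟨_, _, fun h1 h2 => (enc_subr 11 32 h2)⟩
noncomputable def bd1q1 : Fn2 := ⟨_, _, fun h1 h2 => (enc_norm (enc_case (enc_subr 4 5 h1) (enc_case (enc_subr 7 10 h1) (enc_add (enc_add (enc_scale 11369 200000 h1) (enc_rat _ 123957 2000000)) (enc_mul (enc_norm (bd1q1_3.enc h1 h2)) (enc_norm (enc_add (enc_scale 57 20000 h1) (enc_rat _ 63 200000))))) (enc_add (enc_add (enc_scale 1137 20000 h1) (enc_rat _ 2479 40000)) (enc_mul (enc_norm (bd1q1_3.enc h1 h2)) (enc_norm (enc_add (enc_scale 1 400 h1) (enc_rat _ 7 12500)))))) (enc_case (enc_subr 7 8 h1) (enc_add (enc_add (enc_scale 71 1250 h1) (enc_rat _ 12403 200000)) (enc_mul (enc_norm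 (bd1q1_3.enc h1 h2)) (enc_scale 2 625 h1))) (enc_case (enc_subr 19 20 h1) (enc_add (enc_add (enc_scale 532 9375 h1) (enc_rat _ 37237 600000)) (enc_mul (enc_norm (bd1q1_3.enc h1 h2)) (enc_norm (enc_subr 7 15000 (enc_scale 7 1875 h1))))) (enc_add (enc_add (enc_scale 709 12500 h1) (enc_rat _ 62087 1000000)) (enc_mul (enc_norm (bd1q1_3.enc h1 h2)) (enc_norm (enc_subr 91 100000 (enc_scale 21 5000 h1)))))))))⟩
noncomputable def kp1q1 : Fn2 := ⟨_, _, fun h1 h2 => (enc_norm (enc_mul (cv1m.enc h1) (bd1q1.enc h1 h2)))⟩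
noncomputable def kn1q1 : Fn2 := ⟨_, _, fun h1 h2 => (enc_norm (enc_add (enc_mul (enc_norm (enc_add (enc_pnc _ 1) (enc_mul (mug3.enc h2) (gug.enc h2)))) (kf1q1.enc h1 h2)) (enc_mul (mug3.enc h2) (kp1q1.enc h1 h2))))⟩
noncomputable def bd1q2_3 : Fn2 := ⟨_, _, fun h1 h2 => (enc_subr 11 32 h2)⟩
noncomputable def bd1q2 : Fn2 := ⟨_, _, fun h1 h2 => (enc_norm (enc_case (enc_subr 11 10 h1) (enc_case (enc_subr 53 50 h1) (enc_case (enc_subr 103 100 h1) (enc_add (enc_subr 119747 30000 (enc_scale 119747 30000 h1)) (enc_mul (enc_norm (bd1q2_3.enc h1 h2)) (enc_norm (enc_subr 153 250 (enc_scale 153 250 h1))))) (enc_add (enc_subr 1996161 500000 (enc_scale 39923 10000 h1)) (enc_mul (enc_norm (bd1q2_3.enc h1 h2)) (enc_norm (enc_subr 180407 300000 (enc_scale 361 600 h1)))))) (enc_case (enc_subr 107 100 h1) (enc_add (enc_subr 998213 250000 (enc_scale 4991 1250 h1)) (enc_mul (enc_norm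 (bd1q2_3.enc h1 h2)) (enc_norm (enc_subr 59959 100000 (enc_scale 3 5 h1))))) (enc_add (enc_subr 5990027 1500000 (enc_scale 59899 15000 h1)) (enc_mul (enc_norm (bd1q2_3.enc h1 h2)) (enc_norm (enc_subr 179663 300000 (enc_scale 899 1500 h1))))))) (enc_case (enc_subr 231 200 h1) (enc_case (enc_subr 577 500 h1) (enc_add (enc_subr 26955611 6750000 (enc_scale 5390999 1350000 h1)) (enc_mul (enc_norm (bd1q2_3.enc h1 h2)) (enc_norm (enc_subr 1619519 2700000 (enc_scale 40513 67500 h1))))) (enc_add (enc_subr 199637 50000 (enc_scale 199637 50000 h1)) (enc_mul (enc_norm (bd1q2_3.enc h1 h2)) (enc_norm (enc_subr 3013 5000 (enc_scale 3013 5000 h1)))))) (enc_case (enc_subr 5 4 h1) (enc_add (enc_subr 75861829 19000000 (enc_scale 3793093 950000 h1)) (enc_mul (enc_norm (bd1q2_3.enc h1 h2)) (enc_norm (enc_subr 1074947 1900000 (enc_scale 54217 95000 h1))))) (enc_case (enc_subr 27 20 h1)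 (enc_add (enc_subr 7985457 2000000 (enc_scale 399273 100000 h1)) (enc_mul (enc_norm (bd1q2_3.enc h1 h2)) (enc_norm (enc_subr 109251 200000 (enc_scale 5551 10000 h1))))) (enc_add (enc_subr 998181 250000 (enc_scale 598909 150000 h1)) (enc_mul (enc_norm (bd1q2_3.enc h1 h2)) (enc_norm (enc_subr 13437 25000 (enc_scale 2743 5000 h1))))))))))⟩
noncomputable def kpc12a : Fn2 := ⟨_, _, fun h1 h2 => (enc_norm (enc_mul (enc_norm (enc_add (enc_scale 2 5 h1) (enc_scale 3 5 (enc_subr 1 2 (swg.enc (yag.enc h1)))))) (bd1q2.enc (yag.enc h1) h2)))⟩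
noncomputable def knc12a : Fn2 := ⟨_, _, fun h1 h2 => (enc_norm (enc_add (enc_mul (enc_norm (enc_add (enc_pnc _ 1) (enc_mul (mug3.enc h2) (gug.enc h2)))) (kfc12a.enc h1 h2)) (enc_mul (mug3.enc h2) (kpc12a.enc h1 h2))))⟩
noncomputable def kpc12b : Fn2 := ⟨_, _, fun h1 h2 => (enc_norm (enc_mul (enc_norm (enc_scale 3 5 (enc_subr 1 2 (swg.enc h1)))) (bd1q2.enc h1 h2)))⟩
noncomputable def knc12b : Fn2 := ⟨_, _, fun h1 h2 => (enc_norm (enc_add (enc_mul (enc_norm (enc_add (enc_pnc _ 1) (enc_mul (mug3.enc h2) (gug.enc h2)))) (kfc12b.enc h1 h2)) (enc_mul (mug3.enc h2) (kpc12b.enc h1 h2))))⟩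
noncomputable def bd1q3 : Fn2 := ⟨_, _, fun h1 h2 => (enc_norm (enc_add (enc_subr 5084549 1000000 (enc_scale 141361 31250 h1)) (enc_mul (enc_norm (enc_subr 11 32 h2)) (enc_norm (enc_subr 13 100000 (enc_scale 3 50000 h1))))))⟩
noncomputable def kp1q3 : Fn2 := ⟨_, _, fun h1 h2 => (enc_norm (enc_mul (cv1r.enc h1) (bd1q3.enc h1 h2)))⟩
noncomputable def kn1q3 : Fn2 := ⟨_, _, fun h1 h2 => (enc_norm (enc_add (enc_mul (enc_norm (enc_add (enc_pnc _ 1) (enc_mul (mug3.enc h2) (gug.enc h2)))) (kf1q3.enc h1 h2)) (enc_mul (mug3.enc h2) (kp1q3.enc h1 h2))))⟩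
noncomputable def bd2q0 : Fn2 := ⟨_, _, fun h1 h2 => (enc_norm (enc_add (enc_subr 117683 500000 (enc_neg (enc_scale 1130281 250000 h1))) (enc_mul (enc_norm (enc_subr 11 32 h2)) (enc_norm (enc_sub (enc_rat _ 7 20000) (enc_scale 2 3125 h1))))))⟩
noncomputable def kp2q0 : Fn2 := ⟨_, _, fun h1 h2 => (enc_norm (enc_mul (cv2m.enc h1) (bd2q0.enc h1 h2)))⟩
noncomputable def kn2q0 : Fn2 := ⟨_, _, fun h1 h2 => (enc_norm (enc_add (enc_mul (enc_norm (enc_add (enc_pnc _ 1) (enc_mul (mug3.enc h2) (gug.enc h2)))) (kf2q0.enc h1 h2)) (enc_mul (mug3.enc h2) (kp2q0.enc h1 h2))))⟩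
noncomputable def kp2q1_4 : Fn2 := ⟨_, _, fun h1 h2 => (enc_subr 11 32 h2)⟩
noncomputable def kp2q1_68 : Fn2 := ⟨_, _, fun h1 h2 => (enc_sub (enc_pnc _ 1) h1)⟩
noncomputable def kp2q1_69 : Fn2 := ⟨_, _, fun h1 h2 => (gsg.enc (enc_norm (kp2q1_68.enc h1 h2)))⟩
noncomputable def kp2q1_73 : Fn2 := ⟨_, _, fun h1 h2 => (esg.enc (enc_norm (kp2q1_68.enc h1 h2)))⟩
noncomputable def kp2q1_81 : Fn2 := ⟨_, _, fun h1 h2 => (enc_mul (enc_scale 3 4 (enc_sq (enc_norm (kp2q1_68.enc h1 h2)))) (enc_inv (kp2q1_69.enc h1 h2)))⟩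
noncomputable def kp2q1_106 : Fn2 := ⟨_, _, fun h1 h2 => (enc_mul (cv1m.enc h1) (bd1q1.enc h1 h2))⟩
noncomputable def kp2q1 : Fn2 := ⟨_, _, fun h1 h2 => (enc_norm (enc_case (enc_subr 19 32 h1) (enc_mul (cv2m.enc h1) (enc_norm (enc_add (enc_sub (enc_rat _ 1377093511 625000000) (enc_scale 425421443 156250000 h1)) (enc_mul (enc_norm (kp2q1_4.enc h1 h2)) (enc_norm (enc_subr 997657 46875000 (enc_scale 248008 5859375 h1))))))) (enc_case (enc_subr 23 32 h1) (enc_add (kp2q1_106.enc h1 h2) (enc_mul (enc_norm (enc_mul (enc_norm (enc_sub (enc_sub (enc_add (kug.enc (enc_norm (kp2q1_68.enc h1 h2))) (enc_mul (enc_norm (enc_sub (enc_mul (enc_norm (enc_mul (enc_norm (kp2q1_81.enc h1 h2)) (enc_norm (enc_subn 3 (enc_nat 4 (kp2q1_69.enc h1 h2)))))) (kp2q1_73.enc h1 h2)) (enc_mul (qsg.enc (enc_norm (kp2q1_68.enc h1 h2))) (enc_norm (enc_sub (enc_half (kp2q1_68.enc h1 h2)) (kp2q1_81.enc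 h1 h2)))))) (enc_inv (enc_mul (enc_nat 2 (kp2q1_73.enc h1 h2)) (kp2q1_73.enc h1 h2))))) (enc_mul (enc_norm (enc_mul (enc_norm (kp2q1_68.enc h1 h2)) (kcg.enc (enc_norm (enc_sub (enc_scale 3 4 (kp2q1_68.enc h1 h2)) (enc_half (kp2q1_69.enc h1 h2)))) h2))) (enc_norm (enc_add (enc_add (enc_pnc _ 1) (gug.enc (enc_norm (kp2q1_68.enc h1 h2)))) (enc_nat 2 (kp2q1_69.enc h1 h2)))))) (kp2q1_106.enc h1 h2))) (enc_norm (enc_sub (cv2m.enc h1) (cv1m.enc h1))))) (enc_inv (enc_sub (enc_add (swg.enc h1) (enc_rat _ 1 2)) (cv1m.enc h1))))) (enc_mul (cv2m.enc h1) (enc_norm (enc_case (enc_subr 7 8 h1) (enc_case (enc_subr 4 5 h1) (enc_add (enc_sub (enc_rat _ 1482870217 1625000000) (enc_scale 18527603 20312500 h1)) (enc_mul (enc_norm (kp2q1_4.enc h1 h2)) (enc_norm (enc_sub (enc_rat _ 48083327 50781250) (enc_scale 77714779 81250000 h1))))) (enc_add (enc_sub (enc_rat _ 2740307 3000000) (enc_scale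 34247 37500 h1)) (enc_mul (enc_norm (kp2q1_4.enc h1 h2)) (enc_norm (enc_sub (enc_rat _ 34673 37500) (enc_scale 1393 1500 h1)))))) (enc_case (enc_subr 19 20 h1) (enc_add (enc_sub (enc_rat _ 1371641 1500000) (enc_scale 68579 75000 h1)) (enc_mul (enc_norm (kp2q1_4.enc h1 h2)) (enc_norm (enc_sub (enc_rat _ 22567 25000) (enc_scale 2259 2500 h1))))) (enc_add (enc_sub (enc_rat _ 572 625) (enc_scale 572 625 h1)) (enc_mul (enc_norm (kp2q1_4.enc h1 h2)) (enc_norm (enc_sub (enc_rat _ 2213 2500) (enc_scale 2213 2500 h1))))))))))))⟩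
noncomputable def kn2q1 : Fn2 := ⟨_, _, fun h1 h2 => (enc_norm (enc_add (enc_mul (enc_norm (enc_add (enc_pnc _ 1) (enc_mul (mug3.enc h2) (gug.enc h2)))) (kf2q1.enc h1 h2)) (enc_mul (mug3.enc h2) (kp2q1.enc h1 h2))))⟩
noncomputable def kp2q2_4 : Fn2 := ⟨_, _, fun h1 h2 => (enc_subr 11 32 h2)⟩
noncomputable def kp2q2_12 : Fn2 := ⟨_, _, fun h1 h2 => (enc_subr 81611 62500 (enc_scale 10531 10000 h1))⟩
noncomputable def kp2q2_85 : Fn2 := ⟨_, _, fun h1 h2 => (enc_subn 1 h1)⟩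
noncomputable def kp2q2_86 : Fn2 := ⟨_, _, fun h1 h2 => (gsg.enc (enc_norm (kp2q2_85.enc h1 h2)))⟩
noncomputable def kp2q2_90 : Fn2 := ⟨_, _, fun h1 h2 => (esg.enc (enc_norm (kp2q2_85.enc h1 h2)))⟩
noncomputable def kp2q2_98 : Fn2 := ⟨_, _, fun h1 h2 => (enc_mul (enc_scale 3 4 (enc_sq (enc_norm (kp2q2_85.enc h1 h2)))) (enc_inv (kp2q2_86.enc h1 h2)))⟩
noncomputable def kp2q2_121 : Fn2 := ⟨_, _, fun h1 h2 => (enc_mul (cv1p.enc h1) (bd1q2.enc h1 h2))⟩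
noncomputable def kp2q2 : Fn2 := ⟨_, _, fun h1 h2 => (enc_norm (enc_case (enc_subr 41 32 h1) (enc_mul (cv2p.enc h1) (enc_norm (enc_case (enc_subr 11 10 h1) (enc_case (enc_subr 103 100 h1) (enc_add (kp2q2_12.enc h1 h2) (enc_mul (enc_norm (kp2q2_4.enc h1 h2)) (enc_norm (enc_subr 436189 300000 (enc_scale 4159 3000 h1))))) (enc_case (enc_subr 53 50 h1) (enc_add (kp2q2_12.enc h1 h2) (enc_mul (enc_norm (kp2q2_4.enc h1 h2)) (enc_norm (enc_subr 29093 20000 (enc_scale 1387 1000 h1))))) (enc_add (kp2q2_12.enc h1 h2) (enc_mul (enc_norm (kp2q2_4.enc h1 h2)) (enc_norm (enc_subr 291513 200000 (enc_scale 5559 4000 h1))))))) (enc_case (enc_subr 29 25 h1) (enc_add (enc_subr 3917273 3000000 (enc_scale 12637 12000 h1)) (enc_mul (enc_norm (kp2q2_4.enc h1 h2)) (enc_norm (enc_subr 9139 6250 (enc_scale 697 500 h1))))) (enc_case (enc_subr 5 4 h1) (enc_add (enc_subr 783443 600000 (enc_scale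 3949 3750 h1)) (enc_mul (enc_norm (kp2q2_4.enc h1 h2)) (enc_norm (enc_subr 8257 5625 (enc_scale 1259 900 h1))))) (enc_add (enc_subr 20402137 15625000 (enc_scale 164541471 156250000 h1)) (enc_mul (enc_norm (kp2q2_4.enc h1 h2)) (enc_norm (enc_subr 36773337 25000000 (enc_scale 43790837 31250000 h1)))))))))) (enc_case (enc_subr 45 32 h1) (enc_add (kp2q2_121.enc h1 h2) (enc_mul (enc_norm (enc_mul (enc_norm (enc_sub (enc_add (enc_sub (kug.enc (enc_norm (kp2q2_85.enc h1 h2))) (enc_mul (enc_norm (enc_sub (enc_mul (enc_norm (enc_mul (enc_norm (kp2q2_98.enc h1 h2)) (enc_norm (enc_subn 3 (enc_nat 4 (kp2q2_86.enc h1 h2)))))) (kp2q2_90.enc h1 h2)) (enc_mul (qsg.enc (enc_norm (kp2q2_85.enc h1 h2))) (enc_norm (enc_sub (enc_half (kp2q2_85.enc h1 h2)) (kp2q2_98.enc h1 h2)))))) (enc_inv (enc_mul (enc_nat 2 (kp2q2_90.enc h1 h2)) (kp2q2_90.enc h1 h2))))) (enc_mul (enc_norm (enc_mul (enc_norm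 (kp2q2_85.enc h1 h2)) (kcg.enc (enc_norm (enc_sub (enc_scale 3 4 (kp2q2_85.enc h1 h2)) (enc_half (kp2q2_86.enc h1 h2)))) h2))) (enc_norm (enc_sub (enc_sub (enc_pnc _ 1) (gug.enc (enc_norm (kp2q2_85.enc h1 h2)))) (enc_nat 2 (kp2q2_86.enc h1 h2)))))) (kp2q2_121.enc h1 h2))) (enc_norm (enc_sub (cv2p.enc h1) (cv1p.enc h1))))) (enc_inv (enc_sub (enc_subr 1 2 (swg.enc h1)) (cv1p.enc h1))))) (enc_mul (cv2p.enc h1) (enc_norm (enc_add (enc_subr 9422625109 156250000 (enc_scale 6750172781 156250000 h1)) (enc_mul (enc_norm (kp2q2_4.enc h1 h2)) (enc_norm (enc_subr 8652251 7812500 (enc_scale 8652251 11718750 h1))))))))))⟩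
noncomputable def kn2q2 : Fn2 := ⟨_, _, fun h1 h2 => (enc_norm (enc_add (enc_mul (enc_norm (enc_add (enc_pnc _ 1) (enc_mul (mug3.enc h2) (gug.enc h2)))) (kf2q2.enc h1 h2)) (enc_mul (mug3.enc h2) (kp2q2.enc h1 h2))))⟩
noncomputable def bd2q3 : Fn2 := ⟨_, _, fun h1 h2 => (enc_norm (enc_add (enc_sub (enc_rat _ 179953 25000) (enc_scale 179953 50000 h1)) (enc_mul (enc_norm (enc_subr 11 32 h2)) (enc_norm (enc_subr 13 25000 (enc_scale 13 50000 h1))))))⟩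
noncomputable def kpc23 : Fn2 := ⟨_, _, fun h1 h2 => (enc_norm (enc_mul (enc_norm (enc_add (enc_scale 17 20 (enc_subr 1 2 (swg.enc (ycg.enc h1)))) (enc_scale 3 20 h1))) (bd2q3.enc (ycg.enc h1) h2)))⟩
noncomputable def knc23 : Fn2 := ⟨_, _, fun h1 h2 => (enc_norm (enc_add (enc_mul (enc_norm (enc_add (enc_pnc _ 1) (enc_mul (mug3.enc h2) (gug.enc h2)))) (kfc23.enc h1 h2)) (enc_mul (mug3.enc h2) (kpc23.enc h1 h2))))⟩
noncomputable def bd3q0 : Fn2 := ⟨_, _, fun h1 h2 => (enc_norm (enc_add (enc_subr 137493 500000 (enc_scale 129593 250000 h1)) (enc_mul (enc_norm (enc_subr 11 32 h2)) (enc_norm (enc_sub (enc_rat _ 47 100000) (enc_scale 43 50000 h1))))))⟩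
noncomputable def kp3q0 : Fn2 := ⟨_, _, fun h1 h2 => (enc_norm (enc_mul (cv3m.enc h1) (bd3q0.enc h1 h2)))⟩
noncomputable def kn3q0 : Fn2 := ⟨_, _, fun h1 h2 => (enc_norm (enc_add (enc_mul (enc_norm (enc_add (enc_pnc _ 1) (enc_mul (mug3.enc h2) (gug.enc h2)))) (kf3q0.enc h1 h2)) (enc_mul (mug3.enc h2) (kp3q0.enc h1 h2))))⟩
noncomputable def bd3q1_3 : Fn2 := ⟨_, _, fun h1 h2 => (enc_subr 11 32 h2)⟩
noncomputable def bd3q1 : Fn2 := ⟨_, _, fun h1 h2 => (enc_norm (enc_case (enc_subr 4 5 h1) (enc_case (enc_subr 7 10 h1) (enc_add (enc_sub (enc_rat _ 110223 80000) (enc_scale 275521 200000 h1)) (enc_mul (enc_norm (bd3q1_3.enc h1 h2)) (enc_norm (enc_subr 1097 200000 (enc_scale 181 20000 h1))))) (enc_add (enc_sub (enc_rat _ 1377917 1000000) (enc_scale 137779 100000 h1)) (enc_mul (enc_norm (bd3q1_3.enc h1 h2)) (enc_norm (enc_subr 143 50000 (enc_scale 53 10000 h1)))))) (enc_case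 (enc_subr 7 8 h1) (enc_add (enc_sub (enc_rat _ 1378149 1000000) (enc_scale 8613 6250 h1)) (enc_mul (enc_norm (bd3q1_3.enc h1 h2)) (enc_norm (enc_sub (enc_rat _ 239 150000) (enc_scale 1 3750 h1))))) (enc_case (enc_subr 19 20 h1) (enc_add (enc_sub (enc_rat _ 2067731 1500000) (enc_scale 20677 15000 h1)) (enc_mul (enc_norm (bd3q1_3.enc h1 h2)) (enc_norm (enc_sub (enc_rat _ 801 100000) (enc_scale 19 2500 h1))))) (enc_add (enc_sub (enc_rat _ 4309 3125) (enc_scale 4309 3125 h1)) (enc_mul (enc_norm (bd3q1_3.enc h1 h2)) (enc_norm (enc_sub (enc_rat _ 79 5000) (enc_scale 79 5000 h1)))))))))⟩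
noncomputable def kp3q1 : Fn2 := ⟨_, _, fun h1 h2 => (enc_norm (enc_mul (cv3m.enc h1) (bd3q1.enc h1 h2)))⟩
noncomputable def kn3q1 : Fn2 := ⟨_, _, fun h1 h2 => (enc_norm (enc_add (enc_mul (enc_norm (enc_add (enc_pnc _ 1) (enc_mul (mug3.enc h2) (gug.enc h2)))) (kf3q1.enc h1 h2)) (enc_mul (mug3.enc h2) (kp3q1.enc h1 h2))))⟩
noncomputable def bd3q2_3 : Fn2 := ⟨_, _, fun h1 h2 => (enc_subr 11 32 h2)⟩
noncomputable def bd3q2_8 : Fn2 := ⟨_, _, fun h1 h2 => (enc_scale 20909 3000 h1)⟩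
noncomputable def bd3q2_15 : Fn2 := ⟨_, _, fun h1 h2 => (enc_scale 1 50000 (bd3q2_3.enc h1 h2))⟩
noncomputable def bd3q2 : Fn2 := ⟨_, _, fun h1 h2 => (enc_norm (enc_case (enc_subr 11 10 h1) (enc_case (enc_subr 103 100 h1) (enc_sub (enc_sub (enc_rat _ 24101357 3000000) (bd3q2_8.enc h1 h2)) (bd3q2_15.enc h1 h2)) (enc_case (enc_subr 53 50 h1) (enc_sub (enc_sub (enc_rat _ 12050627 1500000) (enc_scale 209089 30000 h1)) (bd3q2_15.enc h1 h2)) (enc_sub (enc_sub (enc_rat _ 16067591 2000000) (enc_scale 278787 40000 h1)) (bd3q2_15.enc h1 h2)))) (enc_case (enc_subr 5 4 h1) (enc_case (enc_subr 29 25 h1) (enc_sub (enc_sub (enc_rat _ 1004221 125000) (enc_scale 139393 20000 h1)) (bd3q2_15.enc h1 h2)) (enc_sub (enc_sub (enc_rat _ 12050681 1500000) (bd3q2_8.enc h1 h2)) (bd3q2_15.enc h1 h2))) (enc_case (enc_subr 27 20 h1) (enc_add (enc_sub (enc_rat _ 16067583 2000000) (enc_scale 696967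 100000 h1)) (enc_mul (enc_norm (bd3q2_3.enc h1 h2)) (enc_norm (enc_sub (enc_rat _ 21 200000) (enc_scale 1 10000 h1))))) (enc_sub (enc_sub (enc_rat _ 8033787 1000000) (bd3q2_8.enc h1 h2)) (enc_scale 3 100000 (bd3q2_3.enc h1 h2)))))))⟩
noncomputable def kp3q2 : Fn2 := ⟨_, _, fun h1 h2 => (enc_norm (enc_mul (cv3p.enc h1) (bd3q2.enc h1 h2)))⟩
noncomputable def kn3q2 : Fn2 := ⟨_, _, fun h1 h2 => (enc_norm (enc_add (enc_mul (enc_norm (enc_add (enc_pnc _ 1) (enc_mul (mug3.enc h2) (gug.enc h2)))) (kf3q2.enc h1 h2)) (enc_mul (mug3.enc h2) (kp3q2.enc h1 h2))))⟩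
noncomputable def bd3q3 : Fn2 := ⟨_, _, fun h1 h2 => (enc_norm (enc_add (enc_sub (enc_rat _ 382843 62500) (enc_scale 382843 125000 h1)) (enc_mul (enc_norm (enc_subr 11 32 h2)) (enc_norm (enc_subr 9 25000 (enc_scale 9 50000 h1))))))⟩
noncomputable def kpc33 : Fn2 := ⟨_, _, fun h1 h2 => (enc_norm (enc_mul (enc_norm (enc_add (enc_half (enc_subr 1 2 (swg.enc (ycg.enc h1)))) (enc_half h1))) (bd3q3.enc (ycg.enc h1) h2)))⟩
noncomputable def knc33 : Fn2 := ⟨_, _, fun h1 h2 => (enc_norm (enc_add (enc_mul (enc_norm (enc_add (enc_pnc _ 1) (enc_mul (mug3.enc h2) (gug.enc h2)))) (kfc33.enc h1 h2)) (enc_mul (mug3.enc h2) (kpc33.enc h1 h2))))⟩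
noncomputable def kp4q0 : Fn2 := ⟨_, _, fun h1 h2 => (enc_norm (enc_mul h1 (enc_norm (enc_add (enc_sub (enc_rat _ 187541 1000000) (enc_scale 437457 200000 h1)) (enc_mul (enc_norm (enc_subr 11 32 h2)) (enc_norm (enc_subr 21 20000 (enc_neg (enc_scale 38587 50000 h1)))))))))⟩
noncomputable def kn4q0 : Fn2 := ⟨_, _, fun h1 h2 => (enc_norm (enc_add (enc_mul (enc_norm (enc_add (enc_pnc _ 1) (enc_mul (mug3.enc h2) (gug.enc h2)))) (kf4q0.enc h1 h2)) (enc_mul (mug3.enc h2) (kp4q0.enc h1 h2))))⟩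
noncomputable def kp4q1 : Fn2 := ⟨_, _, fun h1 h2 => (enc_norm (enc_mul (enc_norm (enc_subn 1 h1)) (enc_norm (enc_add (enc_sub (enc_rat _ 187541 1000000) (enc_scale 437457 200000 h1)) (enc_mul (enc_norm (enc_subr 11 32 h2)) (enc_norm (enc_subr 21 20000 (enc_neg (enc_scale 38587 50000 h1)))))))))⟩
noncomputable def kn4q1 : Fn2 := ⟨_, _, fun h1 h2 => (enc_norm (enc_add (enc_mul (enc_norm (enc_add (enc_pnc _ 1) (enc_mul (mug3.enc h2) (gug.enc h2)))) (kf4q1.enc h1 h2)) (enc_mul (mug3.enc h2) (kp4q1.enc h1 h2))))⟩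
noncomputable def kp4q2_9 : Fn2 := ⟨_, _, fun h1 h2 => (enc_sub (enc_half (c3g.enc h1)) (enc_scale 1 4 h1))⟩
noncomputable def kp4q2 : Fn2 := ⟨_, _, fun h1 h2 => (enc_norm (enc_mul (enc_norm (enc_subn 1 h1)) (enc_norm (enc_add (enc_subr 467707 2000000 (enc_scale 893439 200000 (kp4q2_9.enc h1 h2))) (enc_mul (enc_norm (enc_subr 11 32 h2)) (enc_norm (enc_add (enc_scale 38649 50000 (kp4q2_9.enc h1 h2)) (enc_rat _ 3863 10000))))))))⟩
noncomputable def kn4q2 : Fn2 := ⟨_, _, fun h1 h2 => (enc_norm (enc_add (enc_mul (enc_norm (enc_add (enc_pnc _ 1) (enc_mul (mug3.enc h2) (gug.enc h2)))) (kf4q2.enc h1 h2)) (enc_mul (mug3.enc h2) (kp4q2.enc h1 h2))))⟩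
noncomputable def kpc43_9 : Fn2 := ⟨_, _, fun h1 h2 => (enc_sub (enc_half h1) (enc_scale 1 4 (ycg.enc h1)))⟩
noncomputable def kpc43 : Fn2 := ⟨_, _, fun h1 h2 => (enc_norm (enc_mul (enc_norm (enc_subn 2 (ycg.enc h1))) (enc_norm (enc_add (enc_subr 467707 2000000 (enc_scale 893439 200000 (kpc43_9.enc h1 h2))) (enc_mul (enc_norm (enc_subr 11 32 h2)) (enc_norm (enc_add (enc_scale 38649 50000 (kpc43_9.enc h1 h2)) (enc_rat _ 3863 10000))))))))⟩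
noncomputable def knc43 : Fn2 := ⟨_, _, fun h1 h2 => (enc_norm (enc_add (enc_mul (enc_norm (enc_add (enc_pnc _ 1) (enc_mul (mug3.enc h2) (gug.enc h2)))) (kfc43.enc h1 h2)) (enc_mul (mug3.enc h2) (kpc43.enc h1 h2))))⟩
noncomputable def bn3q0 : Fn2 := ⟨_, _, fun h1 h2 => (enc_norm (enc_add (enc_mul (enc_norm (enc_add (enc_pnc _ 1) (enc_mul (mug3.enc h2) (gug.enc h2)))) (bf3q0.enc h1 h2)) (enc_mul (mug3.enc h2) (bd3q0.enc h1 h2))))⟩
noncomputable def bn2q0 : Fn2 := ⟨_, _, fun h1 h2 => (enc_norm (enc_add (enc_mul (enc_norm (enc_add (enc_pnc _ 1) (enc_mul (mug3.enc h2) (gug.enc h2)))) (bf2q0.enc h1 h2)) (enc_mul (mug3.enc h2) (bd2q0.enc h1 h2))))⟩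
noncomputable def bn1q0 : Fn2 := ⟨_, _, fun h1 h2 => (enc_norm (enc_add (enc_mul (enc_norm (enc_add (enc_pnc _ 1) (enc_mul (mug3.enc h2) (gug.enc h2)))) (bf1q0.enc h1 h2)) (enc_mul (mug3.enc h2) (bd1q0.enc h1 h2))))⟩
noncomputable def rknq0 : Fn3 := ⟨_, _, fun h1 h2 h3 => (enc_case (enc_sub h1 (cv1m.enc h2)) (enc_add (enc_mul h1 (bn1q0.enc h2 h3)) (enc_mul (enc_norm (enc_sub (enc_pnc _ 1) (lm0m.enc h1 h2))) (enc_norm (enc_sub (kn0q0.enc h2 h3) (enc_mul (c1g.enc h2) (bn1q0.enc h2 h3)))))) (enc_case (enc_sub h1 (cv2m.enc h2)) (enc_add (enc_mul h1 (bn2q0.enc h2 h3)) (enc_mul (enc_norm (enc_mul (enc_norm (enc_sub (enc_pnc _ 1) (lm1m.enc h1 h2))) (cv1m.enc h2))) (enc_norm (enc_sub (bn1q0.enc h2 h3) (bn2q0.enc h2 h3))))) (enc_case (enc_sub h1 (cv3m.enc h2)) (enc_add (enc_mul h1 (bn3q0.enc h2 h3)) (enc_mul (enc_norm (enc_mul (enc_norm (enc_sub (enc_pnc _ 1) (lm2m.enc h1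 h2))) (cv2m.enc h2))) (enc_norm (enc_sub (bn2q0.enc h2 h3) (bn3q0.enc h2 h3))))) (enc_add (kn3q0.enc h2 h3) (enc_mul (lm3m.enc h1 h2) (enc_norm (enc_sub (kn4q0.enc h2 h3) (kn3q0.enc h2 h3))))))))⟩
noncomputable def rsnq0 : Fn3 := ⟨_, _, fun h1 h2 h3 => (enc_case h1 (enc_neg (rknq0.enc (enc_neg h1) h2 h3)) (rknq0.enc h1 h2 h3))⟩
noncomputable def bn3q1 : Fn2 := ⟨_, _, fun h1 h2 => (enc_norm (enc_add (enc_mul (enc_norm (enc_add (enc_pnc _ 1) (enc_mul (mug3.enc h2) (gug.enc h2)))) (bf3q1.enc h1 h2)) (enc_mul (mug3.enc h2) (bd3q1.enc h1 h2))))⟩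
noncomputable def bd2q1_3 : Fn2 := ⟨_, _, fun h1 h2 => (enc_subr 11 32 h2)⟩
noncomputable def bd2q1 : Fn2 := ⟨_, _, fun h1 h2 => (enc_norm (enc_case (enc_subr 21 32 h1) (enc_add (enc_sub (enc_rat _ 1377093511 625000000) (enc_scale 425421443 156250000 h1)) (enc_mul (enc_norm (bd2q1_3.enc h1 h2)) (enc_norm (enc_subr 997657 46875000 (enc_scale 248008 5859375 h1))))) (enc_case (enc_subr 7 8 h1) (enc_case (enc_subr 4 5 h1) (enc_add (enc_sub (enc_rat _ 1482870217 1625000000) (enc_scale 18527603 20312500 h1)) (enc_mul (enc_norm (bd2q1_3.enc h1 h2)) (enc_norm (enc_sub (enc_rat _ 48083327 50781250) (enc_scale 77714779 81250000 h1))))) (enc_add (enc_sub (enc_rat _ 2740307 3000000) (enc_scale 34247 37500 h1)) (enc_mul (enc_norm (bd2q1_3.enc h1 h2)) (enc_norm (enc_sub (enc_rat _ 34673 37500) (enc_scale 1393 1500 h1)))))) (enc_case (enc_subr 19 20 h1) (enc_add (enc_sub (enc_rat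 _ 1371641 1500000) (enc_scale 68579 75000 h1)) (enc_mul (enc_norm (bd2q1_3.enc h1 h2)) (enc_norm (enc_sub (enc_rat _ 22567 25000) (enc_scale 2259 2500 h1))))) (enc_add (enc_sub (enc_rat _ 572 625) (enc_scale 572 625 h1)) (enc_mul (enc_norm (bd2q1_3.enc h1 h2)) (enc_norm (enc_sub (enc_rat _ 2213 2500) (enc_scale 2213 2500 h1)))))))))⟩
noncomputable def bn2q1 : Fn2 := ⟨_, _, fun h1 h2 => (enc_norm (enc_add (enc_mul (enc_norm (enc_add (enc_pnc _ 1) (enc_mul (mug3.enc h2) (gug.enc h2)))) (bf2q1.enc h1 h2)) (enc_mul (mug3.enc h2) (bd2q1.enc h1 h2))))⟩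
noncomputable def bn1q1 : Fn2 := ⟨_, _, fun h1 h2 => (enc_norm (enc_add (enc_mul (enc_norm (enc_add (enc_pnc _ 1) (enc_mul (mug3.enc h2) (gug.enc h2)))) (bf1q1.enc h1 h2)) (enc_mul (mug3.enc h2) (bd1q1.enc h1 h2))))⟩
noncomputable def rknq1_35 : Fn3 := ⟨_, _, fun h1 h2 h3 => (enc_add (enc_mul h1 (bn2q1.enc h2 h3)) (enc_mul (enc_norm (enc_mul (enc_norm (enc_sub (enc_pnc _ 1) (lm1m.enc h1 h2))) (cv1m.enc h2))) (enc_norm (enc_sub (bn1q1.enc h2 h3) (bn2q1.enc h2 h3)))))⟩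
noncomputable def rknq1_41 : Fn3 := ⟨_, _, fun h1 h2 h3 => (enc_sub (enc_pnc _ 1) h2)⟩
noncomputable def rknq1_42 : Fn3 := ⟨_, _, fun h1 h2 h3 => (gsg.enc (enc_norm (rknq1_41.enc h1 h2 h3)))⟩
noncomputable def rknq1_46 : Fn3 := ⟨_, _, fun h1 h2 h3 => (esg.enc (enc_norm (rknq1_41.enc h1 h2 h3)))⟩
noncomputable def rknq1_47 : Fn3 := ⟨_, _, fun h1 h2 h3 => (kcg.enc (enc_norm (enc_sub (enc_scale 3 4 (rknq1_41.enc h1 h2 h3)) (enc_half (rknq1_42.enc h1 h2 h3)))) h3)⟩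
noncomputable def rknq1_48 : Fn3 := ⟨_, _, fun h1 h2 h3 => (enc_scale 3 2 (rknq1_41.enc h1 h2 h3))⟩
noncomputable def rknq1_50 : Fn3 := ⟨_, _, fun h1 h2 h3 => (enc_add (enc_pnc _ 1) (rknq1_42.enc h1 h2 h3))⟩
noncomputable def rknq1_59 : Fn3 := ⟨_, _, fun h1 h2 h3 => (enc_mul (enc_scale 3 4 (enc_sq (enc_norm (rknq1_41.enc h1 h2 h3)))) (enc_inv (rknq1_42.enc h1 h2 h3)))⟩
noncomputable def rknq1_60 : Fn3 := ⟨_, _, fun h1 h2 h3 => (enc_sub (enc_half (rknq1_41.enc h1 h2 h3)) (rknq1_59.enc h1 h2 h3))⟩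
noncomputable def rknq1_61 : Fn3 := ⟨_, _, fun h1 h2 h3 => (enc_nat 2 (rknq1_46.enc h1 h2 h3))⟩
noncomputable def rknq1_96 : Fn3 := ⟨_, _, fun h1 h2 h3 => (enc_sub h1 (cv1m.enc h2))⟩
noncomputable def rknq1 : Fn3 := ⟨_, _, fun h1 h2 h3 => (enc_case (rknq1_96.enc h1 h2 h3) (enc_add (enc_mul h1 (bn1q1.enc h2 h3)) (enc_mul (enc_norm (enc_sub (enc_pnc _ 1) (lm0m.enc h1 h2))) (enc_norm (enc_sub (kn0q1.enc h2 h3) (enc_mul (c1g.enc h2) (bn1q1.enc h2 h3)))))) (enc_case (enc_sub h1 (cv2m.enc h2)) (enc_case (enc_subr 19 32 h2) (rknq1_35.enc h1 h2 h3) (enc_case (enc_subr 23 32 h2) (enc_add (kn1q1.enc h2 h3) (enc_mul (enc_norm (enc_mul (enc_norm (rknq1_96.enc h1 h2 h3)) (enc_inv (enc_sub (enc_add (swg.enc h2) (enc_rat _ 1 2)) (cv1m.enc h2))))) (enc_norm (enc_sub (enc_add (enc_mul (enc_norm (enc_add (enc_pnc _ 1) (enc_mul (mug3.enc h3) (gug.enc h3)))) (enc_norm (enc_add (enc_add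 (enc_mul (enc_norm (enc_mul (enc_norm (enc_sub (rknq1_42.enc h1 h2 h3) (rknq1_48.enc h1 h2 h3))) (enc_norm (rknq1_50.enc h1 h2 h3)))) (enc_inv (enc_sub (rknq1_50.enc h1 h2 h3) (rknq1_48.enc h1 h2 h3)))) (enc_mul (enc_norm (rknq1_60.enc h1 h2 h3)) (enc_inv (rknq1_61.enc h1 h2 h3)))) (enc_mul (rknq1_47.enc h1 h2 h3) (enc_norm (rknq1_41.enc h1 h2 h3)))))) (enc_mul (mug3.enc h3) (enc_norm (enc_sub (enc_add (kug.enc (enc_norm (rknq1_41.enc h1 h2 h3))) (enc_mul (enc_norm (enc_sub (enc_mul (enc_norm (enc_mul (enc_norm (rknq1_59.enc h1 h2 h3)) (enc_norm (enc_subn 3 (enc_nat 4 (rknq1_42.enc h1 h2 h3)))))) (rknq1_46.enc h1 h2 h3)) (enc_mul (qsg.enc (enc_norm (rknq1_41.enc h1 h2 h3))) (enc_norm (rknq1_60.enc h1 h2 h3))))) (enc_inv (enc_mul (rknq1_61.enc h1 h2 h3) (rknq1_46.enc h1 h2 h3))))) (enc_mul (enc_norm (enc_mul (enc_norm (rknq1_41.enc h1 h2 h3)) (rknq1_47.enc h1 h2 h3)))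 (enc_norm (enc_add (enc_add (enc_pnc _ 1) (gug.enc (enc_norm (rknq1_41.enc h1 h2 h3)))) (enc_nat 2 (rknq1_42.enc h1 h2 h3))))))))) (kn1q1.enc h2 h3))))) (rknq1_35.enc h1 h2 h3))) (enc_case (enc_sub h1 (cv3m.enc h2)) (enc_add (enc_mul h1 (bn3q1.enc h2 h3)) (enc_mul (enc_norm (enc_sub (enc_pnc _ 1) (lm2m.enc h1 h2))) (enc_norm (enc_sub (kn2q1.enc h2 h3) (enc_mul (cv2m.enc h2) (bn3q1.enc h2 h3)))))) (enc_add (kn3q1.enc h2 h3) (enc_mul (lm3m.enc h1 h2) (enc_norm (enc_sub (kn4q1.enc h2 h3) (kn3q1.enc h2 h3))))))))⟩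
noncomputable def rsnq1 : Fn3 := ⟨_, _, fun h1 h2 h3 => (enc_case h1 (enc_neg (rknq1.enc (enc_neg h1) h2 h3)) (rknq1.enc h1 h2 h3))⟩
noncomputable def bn3q2 : Fn2 := ⟨_, _, fun h1 h2 => (enc_norm (enc_add (enc_mul (enc_norm (enc_add (enc_pnc _ 1) (enc_mul (mug3.enc h2) (gug.enc h2)))) (bf3q2.enc h1 h2)) (enc_mul (mug3.enc h2) (bd3q2.enc h1 h2))))⟩
noncomputable def bd2q2_3 : Fn2 := ⟨_, _, fun h1 h2 => (enc_subr 11 32 h2)⟩
noncomputable def bd2q2_11 : Fn2 := ⟨_, _, fun h1 h2 => (enc_subr 81611 62500 (enc_scale 10531 10000 h1))⟩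
noncomputable def bd2q2 : Fn2 := ⟨_, _, fun h1 h2 => (enc_norm (enc_case (enc_subr 43 32 h1) (enc_case (enc_subr 11 10 h1) (enc_case (enc_subr 103 100 h1) (enc_add (bd2q2_11.enc h1 h2) (enc_mul (enc_norm (bd2q2_3.enc h1 h2)) (enc_norm (enc_subr 436189 300000 (enc_scale 4159 3000 h1))))) (enc_case (enc_subr 53 50 h1) (enc_add (bd2q2_11.enc h1 h2) (enc_mul (enc_norm (bd2q2_3.enc h1 h2)) (enc_norm (enc_subr 29093 20000 (enc_scale 1387 1000 h1))))) (enc_add (bd2q2_11.enc h1 h2) (enc_mul (enc_norm (bd2q2_3.enc h1 h2)) (enc_norm (enc_subr 291513 200000 (enc_scale 5559 4000 h1))))))) (enc_case (enc_subr 29 25 h1) (enc_add (enc_subr 3917273 3000000 (enc_scale 12637 12000 h1)) (enc_mul (enc_norm (bd2q2_3.enc h1 h2)) (enc_norm (enc_subr 9139 6250 (enc_scale 697 500 h1))))) (enc_case (enc_subr 5 4 h1) (enc_add (enc_subr 783443 600000 (enc_scale 3949 3750 h1)) (enc_mul (enc_norm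 (bd2q2_3.enc h1 h2)) (enc_norm (enc_subr 8257 5625 (enc_scale 1259 900 h1))))) (enc_add (enc_subr 20402137 15625000 (enc_scale 164541471 156250000 h1)) (enc_mul (enc_norm (bd2q2_3.enc h1 h2)) (enc_norm (enc_subr 36773337 25000000 (enc_scale 43790837 31250000 h1)))))))) (enc_add (enc_subr 9422625109 156250000 (enc_scale 6750172781 156250000 h1)) (enc_mul (enc_norm (bd2q2_3.enc h1 h2)) (enc_norm (enc_subr 8652251 7812500 (enc_scale 8652251 11718750 h1)))))))⟩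
noncomputable def bn2q2 : Fn2 := ⟨_, _, fun h1 h2 => (enc_norm (enc_add (enc_mul (enc_norm (enc_add (enc_pnc _ 1) (enc_mul (mug3.enc h2) (gug.enc h2)))) (bf2q2.enc h1 h2)) (enc_mul (mug3.enc h2) (bd2q2.enc h1 h2))))⟩
noncomputable def bn1q2 : Fn2 := ⟨_, _, fun h1 h2 => (enc_norm (enc_add (enc_mul (enc_norm (enc_add (enc_pnc _ 1) (enc_mul (mug3.enc h2) (gug.enc h2)))) (bf1q2.enc h1 h2)) (enc_mul (mug3.enc h2) (bd1q2.enc h1 h2))))⟩
noncomputable def kp1q2 : Fn2 := ⟨_, _, fun h1 h2 => (enc_norm (enc_mul (cv1p.enc h1) (bd1q2.enc h1 h2)))⟩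
noncomputable def kn1q2 : Fn2 := ⟨_, _, fun h1 h2 => (enc_norm (enc_add (enc_mul (enc_norm (enc_add (enc_pnc _ 1) (enc_mul (mug3.enc h2) (gug.enc h2)))) (kf1q2.enc h1 h2)) (enc_mul (mug3.enc h2) (kp1q2.enc h1 h2))))⟩
noncomputable def kp0q2_3 : Fn2 := ⟨_, _, fun h1 h2 => (enc_subr 11 32 h2)⟩
noncomputable def kp0q2 : Fn2 := ⟨_, _, fun h1 h2 => (enc_norm (enc_mul (enc_norm (enc_subn 1 h1)) (enc_norm (enc_case (enc_subr 1 10 (c1g.enc h1)) (enc_add (enc_scale 199637 50000 (c1g.enc h1)) (enc_mul (enc_norm (kp0q2_3.enc h1 h2)) (enc_scale 3013 5000 (c1g.enc h1)))) (enc_add (enc_subr 1687 2000000 (enc_scale 160047 40000 (c1g.enc h1))) (enc_mul (enc_norm (kp0q2_3.enc h1 h2)) (enc_norm (enc_subr 47149 400000 (enc_scale 71253 40000 (c1g.enc h1))))))))))⟩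
noncomputable def kn0q2 : Fn2 := ⟨_, _, fun h1 h2 => (enc_norm (enc_add (enc_mul (enc_norm (enc_add (enc_pnc _ 1) (enc_mul (mug3.enc h2) (gug.enc h2)))) (kf0q2.enc h1 h2)) (enc_mul (mug3.enc h2) (kp0q2.enc h1 h2))))⟩
noncomputable def n0d : Fn2 := ⟨_, _, fun h1 h2 => (enc_norm (enc_mul (enc_norm (enc_subn 1 h1)) (enc_norm (enc_add (enc_scale 3013 5000 (enc_subr 11 32 h2)) (enc_rat _ 199637 50000)))))⟩
noncomputable def n0n : Fn2 := ⟨_, _, fun h1 h2 => (enc_norm (enc_add (enc_mul (enc_norm (enc_add (enc_pnc _ 1) (enc_mul (mug3.enc h2) (gug.enc h2)))) (n0b.enc h1 h2)) (enc_mul (mug3.enc h2) (n0d.enc h1 h2))))⟩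
noncomputable def rknq2_35 : Fn3 := ⟨_, _, fun h1 h2 h3 => (enc_add (enc_mul h1 (bn2q2.enc h2 h3)) (enc_mul (enc_norm (enc_mul (enc_norm (enc_sub (enc_pnc _ 1) (lm1p.enc h1 h2))) (cv1p.enc h2))) (enc_norm (enc_sub (bn1q2.enc h2 h3) (bn2q2.enc h2 h3)))))⟩
noncomputable def rknq2_40 : Fn3 := ⟨_, _, fun h1 h2 h3 => (enc_subn 1 h2)⟩
noncomputable def rknq2_41 : Fn3 := ⟨_, _, fun h1 h2 h3 => (gsg.enc (enc_norm (rknq2_40.enc h1 h2 h3)))⟩
noncomputable def rknq2_45 : Fn3 := ⟨_, _, fun h1 h2 h3 => (esg.enc (enc_norm (rknq2_40.enc h1 h2 h3)))⟩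
noncomputable def rknq2_46 : Fn3 := ⟨_, _, fun h1 h2 h3 => (kcg.enc (enc_norm (enc_sub (enc_scale 3 4 (rknq2_40.enc h1 h2 h3)) (enc_half (rknq2_41.enc h1 h2 h3)))) h3)⟩
noncomputable def rknq2_47 : Fn3 := ⟨_, _, fun h1 h2 h3 => (enc_scale 3 2 (rknq2_40.enc h1 h2 h3))⟩
noncomputable def rknq2_49 : Fn3 := ⟨_, _, fun h1 h2 h3 => (enc_add (enc_pnc _ 1) (rknq2_41.enc h1 h2 h3))⟩
noncomputable def rknq2_58 : Fn3 := ⟨_, _, fun h1 h2 h3 => (enc_mul (enc_scale 3 4 (enc_sq (enc_norm (rknq2_40.enc h1 h2 h3)))) (enc_inv (rknq2_41.enc h1 h2 h3)))⟩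
noncomputable def rknq2_59 : Fn3 := ⟨_, _, fun h1 h2 h3 => (enc_sub (enc_half (rknq2_40.enc h1 h2 h3)) (rknq2_58.enc h1 h2 h3))⟩
noncomputable def rknq2_60 : Fn3 := ⟨_, _, fun h1 h2 h3 => (enc_nat 2 (rknq2_45.enc h1 h2 h3))⟩
noncomputable def rknq2_94 : Fn3 := ⟨_, _, fun h1 h2 h3 => (enc_sub h1 (cv1p.enc h2))⟩
noncomputable def rknq2_111 : Fn3 := ⟨_, _, fun h1 h2 h3 => (enc_mul h1 (bn1q2.enc h2 h3))⟩
noncomputable def rknq2_113 : Fn3 := ⟨_, _, fun h1 h2 h3 => (enc_sub (enc_pnc _ 1) (lm0p.enc h1 h2))⟩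
noncomputable def rknq2 : Fn3 := ⟨_, _, fun h1 h2 h3 => (enc_case (rknq2_94.enc h1 h2 h3) (enc_case (enc_subr 577 500 h2) (enc_add (rknq2_111.enc h1 h2 h3) (enc_mul (enc_norm (rknq2_113.enc h1 h2 h3)) (enc_norm (enc_sub (kn0q2.enc h2 h3) (enc_mul (c1g.enc h2) (bn1q2.enc h2 h3)))))) (enc_case (enc_subr 2887 2500 h2) (enc_add (rknq2_111.enc h1 h2 h3) (enc_mul (enc_norm (rknq2_113.enc h1 h2 h3)) (enc_norm (enc_mul (c1g.enc h2) (enc_norm (enc_sub (n0n.enc h2 h3) (bn1q2.enc h2 h3))))))) (rknq2_111.enc h1 h2 h3))) (enc_case (enc_sub h1 (cv2p.enc h2)) (enc_case (enc_subr 41 32 h2) (rknq2_35.enc h1 h2 h3) (enc_case (enc_subr 45 32 h2) (enc_add (kn1q2.enc h2 h3) (enc_mul (enc_norm (enc_mul (enc_norm (rknq2_94.enc h1 h2 h3)) (enc_inv (enc_sub (enc_subr 1 2 (swg.enc h2)) (cv1p.enc h2))))) (enc_norm (enc_sub (enc_add (enc_mul (enc_norm (enc_add (enc_pnc _ 1) (enc_mul (mug3.enc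 h3) (gug.enc h3)))) (enc_norm (enc_add (enc_sub (enc_mul (enc_norm (enc_mul (enc_norm (enc_sub (rknq2_41.enc h1 h2 h3) (rknq2_47.enc h1 h2 h3))) (enc_norm (rknq2_49.enc h1 h2 h3)))) (enc_inv (enc_sub (rknq2_49.enc h1 h2 h3) (rknq2_47.enc h1 h2 h3)))) (enc_mul (enc_norm (rknq2_59.enc h1 h2 h3)) (enc_inv (rknq2_60.enc h1 h2 h3)))) (enc_mul (rknq2_46.enc h1 h2 h3) (enc_norm (rknq2_40.enc h1 h2 h3)))))) (enc_mul (mug3.enc h3) (enc_norm (enc_add (enc_sub (kug.enc (enc_norm (rknq2_40.enc h1 h2 h3))) (enc_mul (enc_norm (enc_sub (enc_mul (enc_norm (enc_mul (enc_norm (rknq2_58.enc h1 h2 h3)) (enc_norm (enc_subn 3 (enc_nat 4 (rknq2_41.enc h1 h2 h3)))))) (rknq2_45.enc h1 h2 h3)) (enc_mul (qsg.enc (enc_norm (rknq2_40.enc h1 h2 h3))) (enc_norm (rknq2_59.enc h1 h2 h3))))) (enc_inv (enc_mul (rknq2_60.enc h1 h2 h3) (rknq2_45.enc h1 h2 h3))))) (enc_mul (enc_norm (enc_mul (enc_norm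 (rknq2_40.enc h1 h2 h3)) (rknq2_46.enc h1 h2 h3))) (enc_norm (enc_sub (enc_sub (enc_pnc _ 1) (gug.enc (enc_norm (rknq2_40.enc h1 h2 h3)))) (enc_nat 2 (rknq2_41.enc h1 h2 h3))))))))) (kn1q2.enc h2 h3))))) (rknq2_35.enc h1 h2 h3))) (enc_case (enc_sub h1 (cv3p.enc h2)) (enc_add (enc_mul h1 (bn3q2.enc h2 h3)) (enc_mul (enc_norm (enc_sub (enc_pnc _ 1) (lm2p.enc h1 h2))) (enc_norm (enc_sub (kn2q2.enc h2 h3) (enc_mul (cv2p.enc h2) (bn3q2.enc h2 h3)))))) (enc_add (kn3q2.enc h2 h3) (enc_mul (lm3p.enc h1 h2) (enc_norm (enc_sub (kn4q2.enc h2 h3) (kn3q2.enc h2 h3))))))))⟩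
noncomputable def rsnq2 : Fn3 := ⟨_, _, fun h1 h2 h3 => (enc_case h1 (enc_neg (rknq2.enc (enc_neg h1) h2 h3)) (rknq2.enc h1 h2 h3))⟩
noncomputable def kp3q3 : Fn2 := ⟨_, _, fun h1 h2 => (enc_norm (enc_mul (cv3r.enc h1) (bd3q3.enc h1 h2)))⟩
noncomputable def kn3q3 : Fn2 := ⟨_, _, fun h1 h2 => (enc_norm (enc_add (enc_mul (enc_norm (enc_add (enc_pnc _ 1) (enc_mul (mug3.enc h2) (gug.enc h2)))) (kf3q3.enc h1 h2)) (enc_mul (mug3.enc h2) (kp3q3.enc h1 h2))))⟩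
noncomputable def kp4q3_9 : Fn2 := ⟨_, _, fun h1 h2 => (enc_sub (enc_half (c3g.enc h1)) (enc_scale 1 4 h1))⟩
noncomputable def kp4q3 : Fn2 := ⟨_, _, fun h1 h2 => (enc_norm (enc_mul (enc_norm (enc_subn 2 h1)) (enc_norm (enc_add (enc_subr 467707 2000000 (enc_scale 893439 200000 (kp4q3_9.enc h1 h2))) (enc_mul (enc_norm (enc_subr 11 32 h2)) (enc_norm (enc_add (enc_scale 38649 50000 (kp4q3_9.enc h1 h2)) (enc_rat _ 3863 10000))))))))⟩
noncomputable def kn4q3 : Fn2 := ⟨_, _, fun h1 h2 => (enc_norm (enc_add (enc_mul (enc_norm (enc_add (enc_pnc _ 1) (enc_mul (mug3.enc h2) (gug.enc h2)))) (kf4q3.enc h1 h2)) (enc_mul (mug3.enc h2) (kp4q3.enc h1 h2))))⟩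
noncomputable def bn3q3 : Fn2 := ⟨_, _, fun h1 h2 => (enc_norm (enc_add (enc_mul (enc_norm (enc_add (enc_pnc _ 1) (enc_mul (mug3.enc h2) (gug.enc h2)))) (bf3q3.enc h1 h2)) (enc_mul (mug3.enc h2) (bd3q3.enc h1 h2))))⟩
noncomputable def bn2q3 : Fn2 := ⟨_, _, fun h1 h2 => (enc_norm (enc_add (enc_mul (enc_norm (enc_add (enc_pnc _ 1) (enc_mul (mug3.enc h2) (gug.enc h2)))) (bf2q3.enc h1 h2)) (enc_mul (mug3.enc h2) (bd2q3.enc h1 h2))))⟩
noncomputable def bn1q3 : Fn2 := ⟨_, _, fun h1 h2 => (enc_norm (enc_add (enc_mul (enc_norm (enc_add (enc_pnc _ 1) (enc_mul (mug3.enc h2) (gug.enc h2)))) (bf1q3.enc h1 h2)) (enc_mul (mug3.enc h2) (bd1q3.enc h1 h2))))⟩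
noncomputable def rknq3 : Fn3 := ⟨_, _, fun h1 h2 h3 => (enc_case (enc_sub h1 (cv1r.enc h2)) (enc_mul h1 (bn1q3.enc h2 h3)) (enc_case (enc_sub h1 (cv2r.enc h2)) (enc_add (enc_mul h1 (bn2q3.enc h2 h3)) (enc_mul (enc_norm (enc_mul (enc_norm (enc_sub (enc_pnc _ 1) (lm1r.enc h1 h2))) (cv1r.enc h2))) (enc_norm (enc_sub (bn1q3.enc h2 h3) (bn2q3.enc h2 h3))))) (enc_case (enc_sub h1 (cv3r.enc h2)) (enc_add (enc_mul h1 (bn3q3.enc h2 h3)) (enc_mul (enc_norm (enc_mul (enc_norm (enc_sub (enc_pnc _ 1) (lm2r.enc h1 h2))) (cv2r.enc h2))) (enc_norm (enc_sub (bn2q3.enc h2 h3) (bn3q3.enc h2 h3))))) (enc_add (kn3q3.enc h2 h3) (enc_mul (lm3r.enc h1 h2) (enc_norm (enc_sub (kn4q3.enc h2 h3) (kn3q3.enc h2 h3))))))))⟩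
noncomputable def rsnq3 : Fn3 := ⟨_, _, fun h1 h2 h3 => (enc_case h1 (enc_neg (rknq3.enc (enc_neg h1) h2 h3)) (rknq3.enc h1 h2 h3))⟩

noncomputable def ndF0q0 : Node := ⟨idf, c1g, kf0q0, l0q0⟩
noncomputable def ndF0q1 : Node := ⟨idf, c1g, kf0q1, l0q1⟩
noncomputable def ndF0q2 : Node := ⟨yag, idf, kfc02, lc02⟩
noncomputable def ndF1q0 : Node := ⟨idf, cv1m, kf1q0, l1q0⟩
noncomputable def ndF1q1 : Node := ⟨idf, cv1m, kf1q1, l1q1⟩
noncomputable def ndF1q2a : Node := ⟨yag, xc12a, kfc12a, lc12a⟩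
noncomputable def ndF1q2b : Node := ⟨idf, xc12b, kfc12b, lc12b⟩
noncomputable def ndF1q3 : Node := ⟨idf, cv1r, kf1q3, l1q3⟩
noncomputable def ndF2q0 : Node := ⟨idf, cv2m, kf2q0, l2q0⟩
noncomputable def ndF2q1 : Node := ⟨idf, cv2m, kf2q1, l2q1⟩
noncomputable def ndF2q2 : Node := ⟨idf, cv2p, kf2q2, l2q2⟩
noncomputable def ndF2q3 : Node := ⟨ycg, xc23, kfc23, lc23⟩
noncomputable def ndF3q0 : Node := ⟨idf, cv3m, kf3q0, l3q0⟩
noncomputable def ndF3q1 : Node := ⟨idf, cv3m, kf3q1, l3q1⟩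
noncomputable def ndF3q2 : Node := ⟨idf, cv3p, kf3q2, l3q2⟩
noncomputable def ndF3q3 : Node := ⟨ycg, xc33, kfc33, lc33⟩
noncomputable def ndF4q0 : Node := ⟨idf, c3g, kf4q0, l4q0⟩
noncomputable def ndF4q1 : Node := ⟨idf, c3g, kf4q1, l4q1⟩
noncomputable def ndF4q2 : Node := ⟨idf, c3g, kf4q2, l4q2⟩
noncomputable def ndF4q3 : Node := ⟨ycg, idf, kfc43, lc43⟩
noncomputable def pcF0 : Piece := ⟨rsfq0, rlq0⟩
noncomputable def pcF1 : Piece := ⟨rsfq1, rlq1⟩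
noncomputable def pcF2 : Piece := ⟨rsfq2, rlq2⟩
noncomputable def pcF3 : Piece := ⟨rsfq3, rlq3⟩
noncomputable def ndN0q0 : Node := ⟨idf, c1g, kn0q0, l0q0⟩
noncomputable def ndN0q1 : Node := ⟨idf, c1g, kn0q1, l0q1⟩
noncomputable def ndN0q2 : Node := ⟨yag, idf, knc02, lc02⟩
noncomputable def ndN1q0 : Node := ⟨idf, cv1m, kn1q0, l1q0⟩
noncomputable def ndN1q1 : Node := ⟨idf, cv1m, kn1q1, l1q1⟩
noncomputable def ndN1q2a : Node := ⟨yag, xc12a, knc12a, lc12a⟩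
noncomputable def ndN1q2b : Node := ⟨idf, xc12b, knc12b, lc12b⟩
noncomputable def ndN1q3 : Node := ⟨idf, cv1r, kn1q3, l1q3⟩
noncomputable def ndN2q0 : Node := ⟨idf, cv2m, kn2q0, l2q0⟩
noncomputable def ndN2q1 : Node := ⟨idf, cv2m, kn2q1, l2q1⟩
noncomputable def ndN2q2 : Node := ⟨idf, cv2p, kn2q2, l2q2⟩
noncomputable def ndN2q3 : Node := ⟨ycg, xc23, knc23, lc23⟩
noncomputable def ndN3q0 : Node := ⟨idf, cv3m, kn3q0, l3q0⟩
noncomputable def ndN3q1 : Node := ⟨idf, cv3m, kn3q1, l3q1⟩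
noncomputable def ndN3q2 : Node := ⟨idf, cv3p, kn3q2, l3q2⟩
noncomputable def ndN3q3 : Node := ⟨ycg, xc33, knc33, lc33⟩
noncomputable def ndN4q0 : Node := ⟨idf, c3g, kn4q0, l4q0⟩
noncomputable def ndN4q1 : Node := ⟨idf, c3g, kn4q1, l4q1⟩
noncomputable def ndN4q2 : Node := ⟨idf, c3g, kn4q2, l4q2⟩
noncomputable def ndN4q3 : Node := ⟨ycg, idf, knc43, lc43⟩
noncomputable def pcN0 : Piece := ⟨rsnq0, rlq0⟩
noncomputable def pcN1 : Piece := ⟨rsnq1, rlq1⟩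
noncomputable def pcN2 : Piece := ⟨rsnq2, rlq2⟩
noncomputable def pcN3 : Piece := ⟨rsnq3, rlq3⟩
noncomputable def ndF1q2 : Node := ⟨idf, cv1p, kf1q2, l1q2⟩
noncomputable def ndN1q2 : Node := ⟨idf, cv1p, kn1q2, l1q2⟩
end Pool.Agent.Strip051.G.I5_16_3_8.Tab
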