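import Pool.Agent.Strip051.G.I5_16_3_8.MolD

/-! # The tight charts of a table: certificates (generated) -/

set_option linter.all false
set_option maxRecDepth 100000

namespace Pool.Agent.Strip051.G.I5_16_3_8.Tab.Mo

open Pool.Agent.Strip051.PB Pool.Agent.Strip051.PB.Mol Pool.Agent.Strip051.PB.T
open Pool.Agent.Strip051.G.I5_16_3_8.Tab

noncomputable def f0Ap : ℕ → ℕ → ℕ → ℕ → Bool :=
  onCell 0 67108864 0 33554432 335544320 67108864 (c0_Ap.row false 33554432)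

theorem h0_0Ap : ∃ t, chk3 f0Ap t 1 1 1 = true :=
  ⟨(c (a (b (a (c (l 8) (l 8)) (c (l 10) (l 10))) (c (a (l 10) (l 10)) (a (l 10) (l 10)))) (b (c (a (l 10) (l 2)) (a (l 10) (l 2))) (c (a (l 2) (l 2)) (a (l 2) (l 2))))) (a (b (a (l 8) (c (l 10) (l 10))) (c (a (l 10) (l 10)) (a (l 10) (l 10)))) (b (a (c (l 10) (l 10)) (l 2)) (c (a (l 2) (l 2)) (a (l 2) (l 2)))))), by decide +kernel⟩

theorem ct_0Ap : ∃ t, chk3 f0Ap t 1 1 1 = true := h0_0Ap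

noncomputable def f0Apk1 : ℕ → ℕ → ℕ → ℕ → Bool :=
  onCell 0 67108864 0 33554432 335544320 67108864 (c0_Apk1.row false 33554432)

theorem h0_0Apk1 : ∃ t, chk3 f0Apk1 t 1 1 1 = true :=
  ⟨(c (a (b (a (l 8) (l 10)) (a (l 10) (l 10))) (a (b (l 10) (l 2)) (l 2))) (a (c (l 10) (l 10)) (b (a (l 10) (l 2)) (l 2)))), by decide +kernel⟩

theorem ct_0Apk1 : ∃ t, chk3 f0Apk1 t 1 1 1 = true := h0_0Apk1

noncomputable def f0Am : ℕ → ℕ → ℕ → ℕ → Bool :=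
  onCell 0 67108864 0 33554432 335544320 67108864 (c0_Am.row true 33554432)

theorem h0_0Am : ∃ t, chk3 f0Am t 2 1 2 = true :=
  ⟨(b (b (a (c (a (c (b (a (l 8) (l 8)) (l 8)) (b (a (l 8) (l 8)) (l 8))) (c (b (a (l 8) (l 8)) (l 8)) (c (l 8) (l 8)))) (a (c (a (l 8) (l 8)) (a (l 8) (l 8))) (c (a (l 8) (l 8)) (a (l 8) (l 8))))) (c (a (c (b (a (l 8) (l 8)) (l 8)) (a (l 8) (l 8))) (b (c (a (l 8) (l 10)) (a (l 8) (l 10))) (c (l 8) (l 8)))) (a (c (a (l 8) (l 8)) (a (l 8) (l 8))) (b (c (l 10) (l 10)) (c (l 8) (l 8)))))) (c (a (c (a (a (l 3) (l 8)) (l 8)) (a (l 8) (l 8))) (c (a (l 8) (l 8)) (a (l 8) (l 8)))) (a (c (a (l 8) (l 8)) (a (l 8) (l 8))) (c (a (l 8) (l 8)) (a (l 8) (l 8)))))) (c (a (b (a (l 3) (c (l 8) (l 8))) (l 3)) (b (c (a (l 8) (l 8)) (a (l 8) (l 8))) (c (a (l 8) (l 8)) (a (l 8) (l 8))))) (a (b (a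 (l 3) (c (l 8) (l 8))) (l 3)) (b (c (a (l 8) (l 8)) (a (l 8) (l 8))) (c (l 8) (l 8)))))), by decide +kernel⟩

theorem h1_0Am : ∃ t, chk3 f0Am t 3 1 2 = true :=
  ⟨(b (a (c (b (a (c (b (a (l 10) (c (l 2) (l 2))) (a (l 10) (l 2))) (b (a (l 10) (l 2)) (l 10))) (c (b (a (l 4) (l 4)) (a (l 2) (l 4))) (b (a (l 4) (l 4)) (a (l 2) (l 2))))) (a (c (a (l 10) (l 10)) (l 10)) (c (a (l 2) (l 2)) (a (l 2) (l 2))))) (b (a (c (b (a (l 10) (l 2)) (l 10)) (b (a (l 10) (l 2)) (l 10))) (c (b (a (l 4) (l 4)) (a (l 2) (l 2))) (b (a (l 2) (l 4)) (l 2)))) (a (c (l 10) (l 10)) (c (a (l 2) (l 2)) (a (l 2) (l 2)))))) (c (b (a (b (l 4) (c (l 4) (l 4))) (l 4)) (a (c (a (l 4) (l 4)) (a (l 2) (l 4))) (c (l 4) (l 4)))) (b (a (b (l 4) (c (l 4) (l 4))) (l 4)) (a (c (a (l 2) (l 4)) (a (l 2) (l 2))) (c (l 4) (l 4)))))) (c (a (b (a (c (l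 10) (l 10)) (c (l 2) (l 2))) (a (c (l 10) (l 10)) (c (l 10) (l 10)))) (b (a (c (l 4) (l 2)) (c (l 4) (l 4))) (a (c (l 2) (l 2)) (c (l 2) (l 2))))) (a (b (a (c (l 10) (l 10)) (c (l 2) (l 2))) (c (a (l 10) (l 10)) (a (l 10) (l 10)))) (b (a (c (l 2) (l 2)) (c (l 4) (l 4))) (a (c (l 2) (l 2)) (c (l 2) (l 2))))))), by decide +kernel⟩

theorem h2_0Am : ∃ t, chk3 f0Am t 2 1 3 = true :=
  ⟨(b (b (a (c (a (c (a (l 8) (l 8)) (a (l 8) (l 8))) (c (a (l 8) (l 8)) (a (l 8) (l 8)))) (a (c (a (l 8) (l 8)) (l 8)) (c (l 8) (l 8)))) (c (a (c (a (l 8) (l 8)) (l 8)) (c (a (l 8) (l 10)) (l 10))) (a (c (l 8) (l 8)) (c (l 10) (l 10))))) (c (a (c (a (l 8) (l 8)) (a (l 8) (l 8))) (c (a (l 8) (l 8)) (a (l 8) (l 8)))) (a (c (a (l 8) (l 8)) (a (l 8) (l 8))) (c (a (l 8) (l 8)) (a (l 8) (l 8)))))) (c (a (b (a (l 3) (c (l 8) (l 8)))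 (l 3)) (b (c (a (l 8) (l 8)) (a (l 8) (l 8))) (a (l 8) (l 8)))) (a (b (a (l 3) (c (l 8) (l 8))) (l 3)) (b (c (l 8) (l 8)) (a (l 8) (l 8)))))), by decide +kernel⟩

theorem h3_0Am : ∃ t, chk3 f0Am t 3 1 3 = true :=
  ⟨(b (a (c (b (a (c (a (l 10) (l 2)) (a (l 10) (l 2))) (c (b (a (l 2) (l 2)) (l 2)) (a (l 2) (l 2)))) (a (c (l 10) (l 10)) (c (l 2) (l 2)))) (b (a (c (l 10) (l 10)) (c (a (l 2) (l 2)) (l 2))) (a (c (l 10) (l 10)) (c (l 2) (l 2))))) (c (b (a (b (l 4) (l 4)) (l 4)) (a (c (l 4) (l 2)) (c (l 4) (l 4)))) (b (a (b (l 4) (l 4)) (l 4)) (a (c (l 2) (l 2)) (c (l 2) (l 2)))))) (c (a (b (a (c (l 10) (l 10)) (c (l 2) (l 2))) (c (a (l 10) (l 10)) (l 10))) (b (a (c (l 2) (l 2)) (c (l 2) (l 2))) (a (c (l 2) (l 2)) (c (l 2) (l 2))))) (a (b (c (a (l 10) (l 10)) (l 10)) (a (l 10) (l 10))) (b (a (c (l 2) (l 2))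 (l 4)) (a (l 2) (l 4)))))), by decide +kernel⟩

theorem h4_0Am : ∃ t, chk3 f0Am t 1 1 3 = true := ex3_a h2_0Am h3_0Am

theorem h5_0Am : ∃ t, chk3 f0Am t 1 1 2 = true := ex3_a h0_0Am h1_0Am

theorem h6_0Am : ∃ t, chk3 f0Am t 1 1 1 = true := ex3_c h5_0Am h4_0Am

theorem ct_0Am : ∃ t, chk3 f0Am t 1 1 1 = true := h6_0Am

noncomputable def f0Bp : ℕ → ℕ → ℕ → ℕ → Bool :=
  onCell 0 67108864 0 33554432 335544320 67108864 (c0_Bp.row false 33554432)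

theorem h0_0Bp : ∃ t, chk3 f0Bp t 1 1 1 = true :=
  ⟨(c (a (b (a (c (l 8) (l 8)) (c (l 10) (l 10))) (b (a (l 8) (l 8)) (a (l 3) (l 8)))) (b (a (c (l 10) (l 10)) (l 2)) (c (a (l 10) (l 2)) (a (l 10) (l 2))))) (a (b (b (a (l 8) (l 10)) (a (l 8) (l 8))) (a (c (l 8) (l 8)) (c (l 8) (l 8)))) (b (c (l 10) (l 10)) (a (c (l 10) (l 10)) (c (l 2) (l 2)))))), by decide +kernel⟩

theorem ct_0Bp : ∃ t, chk3 f0Bp t 1 1 1 = true := h0_0Bp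

noncomputable def f0Bpk1 : ℕ → ℕ → ℕ → ℕ → Bool :=
  onCell 0 67108864 0 33554432 335544320 67108864 (c0_Bpk1.row false 33554432)

theorem h0_0Bpk1 : ∃ t, chk3 f0Bpk1 t 1 1 1 = true :=
  ⟨(c (a (b (a (l 8) (l 10)) (a (l 8) (c (l 10) (l 8)))) (b (a (l 10) (l 2)) (a (l 10) (l 2)))) (a (b (a (l 8) (l 10)) (a (l 8) (l 10))) (b (a (l 10) (l 2)) (a (l 10) (l 2))))), by decide +kernel⟩

theorem ct_0Bpk1 : ∃ t, chk3 f0Bpk1 t 1 1 1 = true := h0_0Bpk1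

noncomputable def f0Bm : ℕ → ℕ → ℕ → ℕ → Bool :=
  onCell 0 67108864 0 33554432 335544320 67108864 (c0_Bm.row true 33554432)

theorem h0_0Bm : ∃ t, chk3 f0Bm t 2 2 2 = true :=
  ⟨(c (a (b (a (c (l 8) (l 8)) (c (l 8) (l 8))) (b (a (c (l 8) (l 8)) (c (l 8) (l 8))) (a (c (b (l 8) (l 8)) (a (l 8) (l 8))) (c (b (l 8) (a (l 8) (l 8))) (a (l 8) (l 8)))))) (b (a (c (l 8) (l 8)) (c (a (l 10) (l 10)) (a (l 10) (l 10)))) (b (a (c (a (l 8) (l 10)) (a (l 8) (l 10))) (c (a (l 10) (l 2)) (a (l 10) (l 2)))) (a (c (b (l 12) (a (c (l 12) (l 12)) (c (l 12) (l 10)))) (b (l 12) (a (l 12) (l 12)))) (c (b (l 4) (a (c (l 2) (l 2)) (l 2))) (a (c (l 2) (l 2)) (l 2))))))) (a (b (a (c (l 8) (l 8)) (c (l 8) (l 8))) (a (c (b (l 8) (a (l 8) (l 8))) (a (l 8) (l 8))) (c (b (l 8) (a (l 8) (l 8))) (a (l 8) (l 8))))) (b (a (c (l 8) (l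 8)) (c (l 10) (l 10))) (a (c (b (l 10) (a (l 12) (l 10))) (b (l 10) (l 12))) (c (b (l 10) (a (l 2) (l 2))) (a (l 10) (l 2))))))), by decide +kernel⟩

theorem h1_0Bm : ∃ t, chk3 f0Bm t 3 2 2 = true :=
  ⟨(b (a (c (a (c (a (l 10) (l 2)) (a (l 10) (l 2))) (c (l 2) (l 2))) (a (a (c (l 10) (l 10)) (l 2)) (c (l 2) (l 2)))) (c (a (c (l 2) (l 2)) (c (l 2) (l 2))) (a (c (l 2) (l 2)) (c (l 2) (l 2))))) (a (c (a (c (b (l 2) (a (l 2) (l 2))) (b (l 2) (a (l 2) (l 2)))) (c (b (l 2) (a (l 2) (l 2))) (a (l 2) (l 2)))) (a (c (a (l 2) (l 2)) (l 2)) (c (l 2) (l 2)))) (c (a (c (a (l 2) (l 4)) (l 4)) (c (l 4) (l 4))) (a (c (l 2) (l 2)) (c (l 2) (l 2)))))), by decide +kernel⟩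

theorem h2_0Bm : ∃ t, chk3 f0Bm t 1 2 3 = true :=
  ⟨(a (a (c (b (a (l 8) (c (l 8) (l 8))) (a (c (l 8) (l 8)) (c (l 8) (l 8)))) (b (a (l 8) (l 8)) (c (a (l 8) (l 8)) (a (l 8) (l 8))))) (c (b (a (c (l 8) (l 8)) (c (l 10) (l 10))) (a (c (a (l 10) (l 10)) (l 10)) (c (a (l 10) (l 2)) (l 10)))) (b (a (l 8) (c (l 10) (l 10))) (a (c (l 10) (l 10)) (c (l 10) (l 10)))))) (a (c (b (a (c (l 10) (l 10)) (l 2)) (a (c (l 2) (l 2)) (c (l 2) (l 2)))) (b (a (c (l 10) (l 10)) (l 2)) (a (c (l 2) (l 2)) (c (l 2) (l 2))))) (c (b (a (c (l 2) (l 2)) (c (l 2) (l 2))) (a (c (l 2) (l 2)) (c (l 2) (l 4)))) (b (a (c (l 2) (l 2)) (c (l 4) (l 4))) (a (c (l 2) (l 4)) (c (l 4) (l 4))))))), by decide +kernel⟩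

theorem h3_0Bm : ∃ t, chk3 f0Bm t 2 6 2 = true :=
  ⟨(c (a (a (b (c (a (l 8) (l 8)) (a (l 8) (l 8))) (c (a (l 8) (l 8)) (l 8))) (b (c (b (l 8) (l 12)) (b (l 8) (l 12))) (c (a (l 12) (l 12)) (a (l 12) (l 12))))) (b (a (c (b (a (l 12) (l 4)) (a (l 10) (l 2))) (b (a (l 12) (l 2)) (l 12))) (c (b (a (l 2) (l 2)) (l 2)) (b (a (l 2) (l 2)) (l 2)))) (a (c (a (l 4) (l 2)) (a (l 4) (l 2))) (c (a (l 2) (l 2)) (a (l 2) (l 2)))))) (a (a (b (c (l 8) (l 8)) (c (l 8) (l 8))) (b (c (b (l 8) (l 12)) (b (l 8) (l 12))) (c (a (l 12) (l 12)) (a (l 12) (l 10))))) (b (a (c (b (a (l 10) (l 2)) (l 12)) (b (a (l 10) (l 2)) (l 10))) (c (b (a (l 2) (l 2)) (l 2)) (b (a (l 2) (l 2)) (l 2)))) (a (c (a (l 2) (l 2)) (a (l 2) (l 2))) (c (a (l 2) (l 2)) (l 2)))))), by decide +kernel⟩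

theorem h4_0Bm : ∃ t, chk3 f0Bm t 2 7 2 = true :=
  ⟨(c (a (b (a (c (a (l 8) (l 12)) (a (l 8) (l 12))) (c (a (l 12) (l 4)) (a (l 12) (l 4)))) (a (c (a (l 12) (l 12)) (a (l 12) (l 12))) (c (a (l 12) (l 4)) (a (l 12) (l 2))))) (b (a (c (a (l 2) (l 2)) (a (l 2) (l 2))) (c (l 2) (l 2))) (a (c (a (l 2) (l 2)) (a (l 2) (l 2))) (c (a (l 2) (l 2)) (l 2))))) (a (b (a (c (a (l 8) (l 12)) (l 12)) (c (a (l 12) (l 2)) (l 12))) (a (c (a (l 8) (l 12)) (l 12)) (c (a (l 12) (l 2)) (l 12)))) (b (a (c (a (l 2) (l 2)) (l 2)) (c (l 2) (l 2))) (c (a (a (l 2) (l 2)) (l 2)) (a (a (l 2) (l 2)) (l 2)))))), by decide +kernel⟩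

theorem h5_0Bm : ∃ t, chk3 f0Bm t 3 3 2 = true :=
  ⟨(b (c (a (b (a (c (b (a (l 2) (l 2)) (l 2)) (b (a (l 2) (l 2)) (l 2))) (c (b (a (l 2) (l 2)) (l 2)) (b (a (l 2) (l 2)) (l 2)))) (a (c (a (l 2) (l 2)) (l 2)) (c (l 2) (l 2)))) (b (a (b (c (l 4) (l 4)) (l 1)) (l 1)) (l 1))) (a (b (a (c (b (a (l 2) (l 2)) (l 2)) (b (l 2) (l 2))) (c (b (a (l 2) (l 2)) (l 2)) (b (l 2) (l 2)))) (a (c (l 2) (l 2)) (c (a (l 2) (l 2)) (a (l 2) (l 2))))) (b (a (b (c (l 2) (l 2)) (l 1)) (l 1)) (l 1)))) (a (c (b (a (c (l 2) (l 2)) (c (l 2) (l 2))) (a (c (l 2) (l 2)) (l 1))) (b (c (a (l 2) (a (l 2) (l 1))) (a (l 2) (a (l 2) (l 1)))) (a (c (l 2) (a (l 2) (l 2))) (l 1)))) (l 1))), by decide +kernel⟩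

theorem h6_0Bm : ∃ t, chk3 f0Bm t 2 3 3 = true :=
  ⟨(b (c (a (b (a (c (l 8) (l 8)) (c (b (l 8) (l 12)) (a (l 8) (l 12)))) (a (c (l 8) (l 8)) (c (a (l 10) (l 10)) (l 12)))) (b (a (c (b (a (l 10) (l 2)) (l 10)) (b (l 10) (l 10))) (c (b (l 2) (l 2)) (a (l 2) (l 2)))) (a (c (a (l 2) (l 2)) (l 2)) (c (l 2) (l 2))))) (a (b (a (c (l 8) (l 8)) (c (a (l 8) (l 12)) (a (l 8) (l 10)))) (a (c (l 8) (l 8)) (c (l 10) (l 10)))) (b (a (c (a (l 10) (l 2)) (a (l 10) (l 2))) (c (a (l 2) (l 2)) (a (l 2) (l 2)))) (a (c (l 2) (l 2)) (c (l 2) (l 2)))))) (c (a (b (a (c (l 12) (l 12)) (c (l 12) (l 12))) (a (c (l 12) (l 12)) (c (l 12) (l 12)))) (b (a (c (l 2) (l 2)) (c (l 2) (l 2))) (c (a (a (l 2) (l 2)) (a (l 2) (l 2))) (a (a (l 2) (l 2)) (a (l 2) (l 2)))))) (a (b (a (c (l 12) (l 8)) (c (l 12) (l 10))) (a (c (l 12) (l 12))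 (c (l 12) (l 12)))) (b (a (c (l 2) (l 2)) (c (l 2) (a (l 2) (l 2)))) (a (c (a (l 2) (l 2)) (a (l 2) (l 2))) (c (a (l 2) (l 2)) (l 2))))))), by decide +kernel⟩

theorem h7_0Bm : ∃ t, chk3 f0Bm t 3 3 3 = true :=
  ⟨(b (a (b (c (a (c (b (l 2) (l 2)) (a (l 2) (l 2))) (c (b (l 2) (l 2)) (a (l 2) (l 2)))) (a (b (l 2) (c (l 2) (l 2))) (b (l 2) (c (l 2) (l 4))))) (c (a (c (l 2) (l 2)) (c (a (l 2) (l 2)) (a (l 2) (l 2)))) (c (a (l 2) (a (l 2) (l 2))) (a (a (l 2) (l 2)) (b (l 4) (a (l 2) (l 1))))))) (b (b (a (c (l 4) (l 4)) (l 1)) (l 1)) (l 1))) (a (c (b (c (a (l 2) (a (l 2) (l 1))) (a (a (l 2) (l 2)) (a (l 2) (l 1)))) (a (c (a (l 2) (l 2)) (l 2)) (l 1))) (b (c (a (a (l 2) (l 2)) (a (l 2) (l 1))) (a (a (l 2) (c (l 2) (l 2))) (a (c (l 2) (l 4)) (l 1)))) (a (c (l 2) (a (c (l 2) (l 2)) (b (l 4) (l 1)))) (l 1))))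 (l 1))), by decide +kernel⟩

theorem h8_0Bm : ∃ t, chk3 f0Bm t 1 3 3 = true := ex3_a h6_0Bm h7_0Bm

theorem h9_0Bm : ∃ t, chk3 f0Bm t 2 3 2 = true := ex3_b h3_0Bm h4_0Bm

theorem h10_0Bm : ∃ t, chk3 f0Bm t 1 3 2 = true := ex3_a h9_0Bm h5_0Bm

theorem h11_0Bm : ∃ t, chk3 f0Bm t 1 3 1 = true := ex3_c h10_0Bm h8_0Bm

theorem h12_0Bm : ∃ t, chk3 f0Bm t 1 2 2 = true := ex3_a h0_0Bm h1_0Bm

theorem h13_0Bm : ∃ t, chk3 f0Bm t 1 2 1 = true := ex3_c h12_0Bm h2_0Bm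

theorem h14_0Bm : ∃ t, chk3 f0Bm t 1 1 1 = true := ex3_b h13_0Bm h11_0Bm

theorem ct_0Bm : ∃ t, chk3 f0Bm t 1 1 1 = true := h14_0Bm

end Pool.Agent.Strip051.G.I5_16_3_8.Tab.Mo
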