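import Pool.Agent.Strip051.G.I5_16_3_8.MolD

/-! # The tight charts of a table: certificates (generated) -/

set_option linter.all false
set_option maxRecDepth 100000

namespace Pool.Agent.Strip051.G.I5_16_3_8.Tab.Mo

open Pool.Agent.Strip051.PB Pool.Agent.Strip051.PB.Mol Pool.Agent.Strip051.PB.T
open Pool.Agent.Strip051.G.I5_16_3_8.Tab

noncomputable def f1Ap : ℕ → ℕ → ℕ → ℕ → Bool :=
  onCell 0 67108864 0 33554432 335544320 67108864 (c1_Ap.row false 33554432)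

theorem h0_1Ap : ∃ t, chk3 f1Ap t 1 1 1 = true :=
  ⟨(c (a (b (a (c (l 8) (l 8)) (c (l 10) (l 10))) (c (a (l 10) (l 10)) (a (l 10) (l 10)))) (b (b (a (c (l 10) (l 10)) (l 2)) (a (l 2) (l 2))) (c (a (l 2) (l 2)) (a (l 2) (l 2))))) (a (b (a (c (l 8) (l 8)) (c (l 10) (l 10))) (c (a (l 10) (l 10)) (a (l 10) (l 10)))) (b (c (a (l 10) (l 2)) (a (l 10) (l 2))) (c (a (l 2) (l 2)) (a (l 2) (l 2)))))), by decide +kernel⟩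

theorem ct_1Ap : ∃ t, chk3 f1Ap t 1 1 1 = true := h0_1Ap

noncomputable def f1Apk1 : ℕ → ℕ → ℕ → ℕ → Bool :=
  onCell 0 67108864 0 33554432 335544320 67108864 (c1_Apk1.row false 33554432)

theorem h0_1Apk1 : ∃ t, chk3 f1Apk1 t 1 1 1 = true :=
  ⟨(c (a (b (a (l 8) (l 10)) (c (l 10) (l 10))) (b (a (l 10) (l 2)) (a (l 2) (l 2)))) (a (b (a (l 8) (l 10)) (a (l 10) (l 10))) (b (a (l 10) (l 2)) (l 2)))), by decide +kernel⟩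

theorem ct_1Apk1 : ∃ t, chk3 f1Apk1 t 1 1 1 = true := h0_1Apk1

noncomputable def f1Am : ℕ → ℕ → ℕ → ℕ → Bool :=
  onCell 0 67108864 0 33554432 335544320 67108864 (c1_Am.row true 33554432)

theorem h0_1Am : ∃ t, chk3 f1Am t 2 1 2 = true :=
  ⟨(b (b (a (c (c (a (b (b (l 16) (l 16)) (a (l 8) (l 8))) (b (a (l 8) (l 8)) (l 8))) (a (b (a (l 16) (l 8)) (a (l 8) (l 8))) (b (a (l 8) (l 8)) (l 8)))) (a (c (b (a (l 16) (l 8)) (a (l 8) (l 8))) (b (a (l 16) (l 8)) (a (l 8) (l 8)))) (c (b (a (l 8) (l 8)) (l 8)) (c (l 8) (l 8))))) (c (a (c (a (l 8) (l 8)) (a (l 8) (l 8))) (c (l 10) (l 10))) (a (c (a (l 8) (l 8)) (a (l 8) (l 8))) (c (l 10) (l 10))))) (c (a (c (a (a (l 3) (l 8)) (a (l 8) (l 8))) (a (a (l 3) (l 8)) (l 8))) (c (a (l 8) (l 8)) (a (l 8) (l 8)))) (a (c (a (a (l 3) (l 8)) (l 8)) (a (a (l 3) (l 8)) (l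 8))) (c (a (l 8) (l 8)) (a (l 8) (l 8)))))) (c (a (b (a (l 3) (c (l 8) (l 8))) (l 3)) (b (c (a (l 8) (l 8)) (a (l 8) (l 8))) (c (a (l 8) (l 8)) (a (l 8) (l 8))))) (a (b (a (l 3) (c (l 8) (l 8))) (l 3)) (b (c (a (l 8) (l 8)) (a (l 8) (l 8))) (c (a (l 8) (l 8)) (l 8)))))), by decide +kernel⟩

theorem h1_1Am : ∃ t, chk3 f1Am t 3 1 2 = true :=
  ⟨(b (a (c (b (a (c (l 10) (l 10)) (c (l 2) (l 2))) (a (c (l 10) (l 10)) (c (l 2) (l 2)))) (b (a (c (l 10) (l 10)) (c (l 2) (l 2))) (a (c (l 10) (l 10)) (c (l 2) (l 2))))) (c (b (a (c (l 2) (l 2)) (l 4)) (a (c (l 2) (l 2)) (l 4))) (b (a (c (l 2) (l 2)) (l 4)) (a (l 2) (l 2))))) (c (a (b (c (a (l 10) (l 2)) (l 10)) (c (l 10) (l 10))) (b (a (l 2) (l 4)) (a (l 2) (l 2)))) (a (b (a (l 10) (l 2)) (a (l 10) (l 10))) (b (a (l 2) (l 2)) (a (l 2) (l 2)))))), by decide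 +kernel⟩

theorem h2_1Am : ∃ t, chk3 f1Am t 2 1 3 = true :=
  ⟨(b (b (a (c (a (c (b (a (l 16) (l 8)) (a (l 8) (l 8))) (b (a (l 16) (l 8)) (a (l 8) (l 8)))) (c (c (l 8) (l 8)) (a (l 8) (l 8)))) (c (a (b (a (l 16) (l 8)) (a (l 8) (l 8))) (a (l 8) (l 8))) (a (b (a (l 16) (l 8)) (a (l 8) (l 8))) (a (l 8) (l 8))))) (c (a (c (l 8) (l 8)) (c (l 10) (l 10))) (a (c (l 8) (l 8)) (c (l 10) (l 10))))) (c (a (c (a (a (l 3) (l 8)) (l 8)) (a (a (l 3) (l 8)) (l 8))) (c (a (l 8) (l 8)) (a (l 8) (l 8)))) (a (c (a (a (l 3) (l 8)) (l 8)) (a (a (l 3) (l 8)) (l 8))) (c (a (l 8) (l 8)) (a (l 8) (l 8)))))) (c (a (b (a (l 3) (c (l 8) (l 8))) (l 3)) (b (a (c (l 8) (l 8)) (l 8)) (c (l 8) (l 8)))) (a (b (a (l 3) (c (l 8) (l 8))) (l 3)) (b (c (a (l 8) (l 8)) (l 8)) (a (l 8) (l 8)))))), by decide +kernel⟩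

theorem h3_1Am : ∃ t, chk3 f1Am t 3 1 3 = true :=
  ⟨(b (a (c (b (a (c (l 10) (l 10)) (c (l 2) (l 2))) (c (l 10) (l 10))) (b (c (a (l 10) (l 2)) (l 10)) (a (l 10) (l 2)))) (c (b (a (l 2) (l 2)) (a (l 2) (l 2))) (b (a (l 2) (l 2)) (a (l 2) (l 2))))) (c (a (b (a (l 10) (l 2)) (a (l 10) (l 10))) (b (a (l 2) (l 2)) (a (l 2) (l 2)))) (a (b (a (l 10) (l 2)) (a (l 10) (l 10))) (b (a (l 2) (l 2)) (a (l 2) (l 2)))))), by decide +kernel⟩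

theorem h4_1Am : ∃ t, chk3 f1Am t 1 1 3 = true := ex3_a h2_1Am h3_1Am

theorem h5_1Am : ∃ t, chk3 f1Am t 1 1 2 = true := ex3_a h0_1Am h1_1Am

theorem h6_1Am : ∃ t, chk3 f1Am t 1 1 1 = true := ex3_c h5_1Am h4_1Am

theorem ct_1Am : ∃ t, chk3 f1Am t 1 1 1 = true := h6_1Am

noncomputable def f1Bp : ℕ → ℕ → ℕ → ℕ → Bool :=
  onCell 0 67108864 0 33554432 335544320 67108864 (c1_Bp.row false 33554432)

theorem h0_1Bp : ∃ t, chk3 f1Bp t 1 1 1 = true :=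
  ⟨(c (a (b (b (a (c (a (l 8) (l 8)) (a (l 8) (l 8))) (c (l 10) (l 10))) (a (c (a (l 8) (l 8)) (l 8)) (c (l 8) (l 8)))) (b (a (c (l 8) (l 8)) (c (l 8) (l 8))) (a (l 3) (c (l 8) (l 8))))) (b (b (a (c (l 10) (l 10)) (c (l 2) (l 2))) (a (c (l 10) (l 10)) (c (l 2) (l 2)))) (c (a (l 10) (l 2)) (a (l 10) (l 2))))) (a (b (b (a (c (a (l 8) (l 8)) (a (l 8) (l 8))) (c (l 10) (l 10))) (a (c (l 8) (a (l 8) (l 8))) (c (l 8) (l 8)))) (a (b (c (l 8) (l 8)) (l 3)) (c (a (l 8) (l 8)) (a (l 8) (l 8))))) (b (b (a (c (l 10) (l 10)) (c (l 2) (l 2))) (a (c (l 10) (l 10)) (c (l 2) (l 2)))) (c (a (l 10) (l 2)) (a (l 10) (l 2)))))), by decide +kernel⟩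

theorem ct_1Bp : ∃ t, chk3 f1Bp t 1 1 1 = true := h0_1Bp

noncomputable def f1Bpk1 : ℕ → ℕ → ℕ → ℕ → Bool :=
  onCell 0 67108864 0 33554432 335544320 67108864 (c1_Bpk1.row false 33554432)

theorem h0_1Bpk1 : ∃ t, chk3 f1Bpk1 t 1 1 1 = true :=
  ⟨(c (a (b (a (c (l 8) (l 8)) (c (l 10) (l 10))) (a (c (l 8) (l 8)) (c (l 10) (l 10)))) (b (b (a (l 10) (l 2)) (a (l 10) (l 2))) (a (c (l 10) (l 10)) (c (l 2) (l 2))))) (a (b (a (c (l 8) (l 8)) (c (l 10) (l 10))) (b (c (l 8) (l 8)) (a (l 3) (l 8)))) (b (a (c (l 10) (l 10)) (l 2)) (c (a (l 10) (l 2)) (a (l 10) (l 2)))))), by decide +kernel⟩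

theorem ct_1Bpk1 : ∃ t, chk3 f1Bpk1 t 1 1 1 = true := h0_1Bpk1

noncomputable def f1Bm : ℕ → ℕ → ℕ → ℕ → Bool :=
  onCell 0 67108864 0 33554432 335544320 67108864 (c1_Bm.row true 33554432)

theorem h0_1Bm : ∃ t, chk3 f1Bm t 2 2 2 = true :=
  ⟨(b (a (c (a (c (l 8) (l 8)) (c (l 8) (l 8))) (a (l 8) (c (l 8) (l 8)))) (c (a (c (l 8) (l 8)) (c (b (l 10) (a (l 10) (l 10))) (b (l 10) (a (l 10) (l 10))))) (a (c (l 8) (l 8)) (c (c (l 10) (l 10)) (a (l 10) (l 10)))))) (c (a (b (a (c (l 8) (l 8)) (c (l 8) (l 8))) (a (b (l 8) (c (l 8) (l 8))) (c (a (l 8) (c (l 8) (l 8))) (a (l 8) (l 8))))) (b (a (c (a (l 8) (l 10)) (a (l 8) (l 10))) (c (a (l 10) (l 2)) (a (l 10) (l 2)))) (a (c (b (a (l 10) (l 10)) (a (l 12) (c (l 4) (l 2)))) (b (l 12) (a (l 12) (l 4)))) (c (a (b (l 2) (c (l 2) (l 2))) (c (a (l 2) (l 2)) (l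 2))) (a (c (l 2) (l 2)) (c (l 2) (l 2))))))) (a (a (b (l 8) (c (l 8) (l 8))) (c (b (l 8) (a (l 8) (l 8))) (a (l 8) (l 8)))) (a (c (b (l 10) (a (l 12) (l 10))) (b (l 10) (a (l 10) (l 10)))) (c (b (a (l 10) (l 2)) (a (l 2) (l 2))) (b (a (l 10) (l 2)) (a (l 2) (l 2)))))))), by decide +kernel⟩

theorem h1_1Bm : ∃ t, chk3 f1Bm t 3 2 2 = true :=
  ⟨(c (a (b (a (c (b (a (l 10) (l 2)) (l 2)) (b (a (l 10) (l 2)) (l 2))) (c (b (l 2) (a (l 2) (l 2))) (b (l 2) (a (l 2) (l 2))))) (a (c (b (a (l 2) (l 2)) (a (c (a (l 2) (l 2)) (l 2)) (c (l 4) (l 2)))) (b (a (l 2) (l 2)) (a (c (l 2) (l 2)) (c (l 2) (l 2))))) (c (b (a (l 4) (l 4)) (a (c (l 4) (l 2)) (l 4))) (b (a (l 2) (l 4)) (a (l 4) (l 4)))))) (b (a (b (l 4) (c (l 4) (l 4))) (c (l 4) (l 4))) (a (c (a (b (l 4) (l 4)) (l 4)) (b (l 4) (a (l 4) (l 4)))) (b (l 4)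 (l 1))))) (a (b (a (c (b (a (l 10) (l 2)) (l 2)) (b (a (l 10) (l 2)) (l 2))) (c (b (l 2) (a (l 2) (l 2))) (b (l 2) (a (l 2) (l 2))))) (a (c (b (a (l 2) (l 2)) (a (l 2) (l 4))) (b (a (l 2) (l 2)) (a (l 2) (l 2)))) (c (b (a (l 2) (l 4)) (a (l 4) (l 4))) (b (a (l 2) (l 2)) (a (l 4) (l 4)))))) (b (a (b (l 4) (c (l 4) (l 4))) (c (l 4) (l 4))) (a (c (a (l 4) (l 4)) (a (l 4) (l 4))) (c (l 4) (l 4)))))), by decide +kernel⟩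

theorem h2_1Bm : ∃ t, chk3 f1Bm t 2 2 3 = true :=
  ⟨(c (a (b (a (l 8) (c (l 8) (l 8))) (a (c (l 8) (l 8)) (c (l 8) (l 8)))) (b (a (c (l 8) (l 8)) (c (a (l 10) (l 10)) (a (l 10) (l 10)))) (a (c (a (l 10) (l 10)) (a (l 10) (l 10))) (c (b (a (l 10) (l 2)) (l 2)) (b (a (l 10) (l 2)) (l 2)))))) (a (b (a (l 8) (l 8)) (a (c (l 8) (l 8)) (c (l 8) (l 8)))) (b (a (c (l 8) (l 8)) (c (l 10) (l 10))) (a (c (l 10) (l 10)) (c (a (l 10) (l 2)) (a (l 10) (l 2))))))), by decide +kernel⟩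

theorem h3_1Bm : ∃ t, chk3 f1Bm t 3 2 3 = true :=
  ⟨(b (a (c (a (c (b (a (l 10) (l 2)) (l 2)) (b (a (l 10) (l 2)) (l 2))) (c (a (l 2) (l 2)) (a (l 2) (l 2)))) (a (c (a (l 10) (l 2)) (a (l 10) (l 2))) (c (a (l 2) (l 2)) (a (l 2) (l 2))))) (c (a (b (l 4) (c (l 4) (l 4))) (c (l 4) (l 4))) (a (c (a (l 4) (l 4)) (a (l 4) (l 4))) (c (l 4) (l 4))))) (a (c (a (c (b (l 2) (a (l 2) (l 2))) (b (l 2) (a (l 2) (l 2)))) (c (b (a (l 2) (l 2)) (a (l 2) (l 4))) (b (l 4) (a (l 2) (l 4))))) (a (c (a (l 2) (l 2)) (a (l 2) (l 2))) (c (b (l 4) (l 4)) (b (l 4) (l 4))))) (c (a (c (a (l 4) (l 4)) (a (l 4) (l 4))) (b (c (l 4) (l 4)) (l 1))) (a (c (a (l 4) (l 4)) (b (l 4) (l 4))) (b (c (l 4) (l 4)) (l 1)))))), by decide +kernel⟩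

theorem h4_1Bm : ∃ t, chk3 f1Bm t 2 6 4 = true :=
  ⟨(a (a (b (c (a (l 8) (l 8)) (a (l 8) (l 8))) (c (a (l 8) (l 8)) (a (l 8) (l 8)))) (b (c (a (l 8) (c (l 12) (l 12))) (b (l 12) (l 12))) (c (a (c (l 12) (l 12)) (c (l 12) (l 12))) (b (l 12) (l 12))))) (b (a (c (b (a (l 12) (l 4)) (a (l 4) (l 2))) (b (a (l 12) (l 2)) (a (l 2) (l 2)))) (c (b (a (c (l 2) (l 2)) (c (l 2) (l 2))) (a (l 2) (l 2))) (b (a (c (l 2) (l 2)) (c (l 2) (l 2))) (a (l 2) (l 2))))) (a (c (a (c (l 4) (l 4)) (c (l 2) (l 2))) (a (c (l 2) (l 2)) (c (l 2) (l 2)))) (c (b (a (l 2) (l 2)) (a (l 2) (l 2))) (b (a (l 2) (l 2)) (a (l 2) (l 2))))))), by decide +kernel⟩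

theorem h5_1Bm : ∃ t, chk3 f1Bm t 2 6 5 = true :=
  ⟨(a (a (b (c (l 8) (l 8)) (c (a (l 8) (l 8)) (l 8))) (b (c (b (l 12) (l 12)) (b (l 12) (l 12))) (c (a (l 12) (l 12)) (a (l 12) (l 12))))) (b (a (c (b (a (l 10) (l 4)) (a (l 2) (l 2))) (b (a (l 10) (l 2)) (a (l 2) (l 2)))) (c (b (a (c (l 2) (l 2)) (c (l 2) (l 2))) (a (l 2) (l 2))) (b (a (c (l 2) (l 2)) (c (l 2) (l 2))) (a (l 2) (l 2))))) (a (c (a (c (l 2) (l 2)) (c (l 2) (l 2))) (a (c (l 2) (l 2)) (c (l 2) (l 2)))) (c (b (a (l 2) (l 2)) (a (l 2) (l 2))) (b (a (l 2) (l 2)) (l 2)))))), by decide +kernel⟩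

theorem h6_1Bm : ∃ t, chk3 f1Bm t 2 7 2 = true :=
  ⟨(c (a (b (a (c (a (l 8) (l 12)) (a (l 8) (l 12))) (c (a (c (l 12) (l 12)) (c (l 4) (l 4))) (a (l 12) (c (l 4) (l 2))))) (a (c (a (l 12) (c (l 12) (l 12))) (a (l 12) (l 12))) (c (a (c (l 4) (l 4)) (c (l 4) (l 4))) (a (l 4) (c (l 2) (l 2)))))) (b (a (c (a (c (l 2) (l 2)) (c (l 2) (l 2))) (a (c (l 2) (l 2)) (c (l 2) (l 2)))) (c (a (c (l 2) (l 2)) (c (l 2) (l 2))) (a (c (l 2) (l 2)) (c (l 2) (l 2))))) (a (c (a (c (l 2) (l 2)) (c (l 2) (l 2))) (a (c (l 2) (l 2)) (c (l 2) (l 2)))) (c (c (a (l 2) (l 2)) (a (l 2) (l 2))) (a (c (l 2) (l 2)) (c (l 2) (l 2))))))) (a (b (a (c (a (l 8) (l 12)) (a (l 8) (l 12))) (c (a (l 12) (l 4)) (a (l 12) (l 4)))) (a (c (a (l 12) (l 12)) (a (l 12) (l 12))) (c (a (l 4) (l 4)) (a (l 4) (l 4))))) (b (a (c (a (c (l 2) (l 2))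 (c (l 2) (l 2))) (a (l 4) (l 2))) (c (c (a (l 2) (l 2)) (l 2)) (c (l 2) (a (l 2) (l 2))))) (c (a (a (c (l 2) (l 2)) (c (l 2) (l 2))) (a (c (l 2) (l 2)) (c (l 2) (l 2)))) (a (a (c (l 2) (l 2)) (c (l 2) (l 2))) (a (c (l 2) (l 2)) (c (l 2) (l 2)))))))), by decide +kernel⟩

theorem h7_1Bm : ∃ t, chk3 f1Bm t 3 6 4 = true :=
  ⟨(a (b (a (c (b (a (c (l 2) (l 2)) (c (l 2) (a (l 2) (l 2)))) (a (l 2) (c (l 2) (l 2)))) (b (a (c (l 2) (l 2)) (b (c (l 2) (l 2)) (l 2))) (a (l 2) (c (l 2) (l 2))))) (c (b (a (c (l 4) (a (l 4) (l 4))) (c (l 4) (l 4))) (a (c (l 2) (l 2)) (l 4))) (b (a (b (c (l 4) (l 2)) (l 4)) (c (l 4) (l 4))) (a (l 4) (l 4))))) (a (c (b (a (l 2) (l 2)) (a (l 2) (l 2))) (b (a (l 2) (l 2)) (a (l 2) (l 2)))) (c (b (a (l 2) (l 4)) (a (l 2) (l 1))) (b (a (l 2) (l 4)) (a (l 2) (l 1)))))) (b (a (b (a (b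 (c (l 4) (l 4)) (l 1)) (l 1)) (l 1)) (l 1)) (l 1))), by decide +kernel⟩

theorem h8_1Bm : ∃ t, chk3 f1Bm t 3 6 5 = true :=
  ⟨(a (b (a (c (b (c (a (l 2) (a (l 2) (l 2))) (b (l 4) (l 2))) (c (l 2) (l 2))) (b (c (a (l 2) (l 4)) (a (l 2) (l 2))) (a (l 2) (l 4)))) (c (b (a (b (l 4) (l 4)) (c (l 4) (l 4))) (a (c (l 2) (l 2)) (l 4))) (b (a (c (l 4) (l 4)) (c (l 4) (l 4))) (a (l 4) (l 4))))) (c (a (b (a (l 2) (l 2)) (a (l 2) (l 2))) (b (a (l 2) (l 4)) (a (l 2) (l 1)))) (a (b (a (l 2) (l 2)) (a (l 2) (l 2))) (b (a (l 2) (l 4)) (a (l 2) (l 1)))))) (b (b (a (a (c (l 4) (l 4)) (l 1)) (l 1)) (l 1)) (l 1))), by decide +kernel⟩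

theorem h9_1Bm : ∃ t, chk3 f1Bm t 3 7 2 = true :=
  ⟨(a (c (c (b (a (b (a (l 2) (l 2)) (a (l 2) (l 2))) (a (c (l 2) (l 2)) (l 1))) (a (c (a (l 2) (l 2)) (a (l 2) (l 2))) (l 1))) (b (a (b (a (l 2) (l 2)) (a (l 2) (l 2))) (a (c (l 2) (l 2)) (l 1))) (a (c (a (l 2) (l 2)) (a (l 2) (l 2))) (l 1)))) (b (c (a (b (a (l 2) (l 2)) (a (l 2) (l 2))) (a (c (l 2) (l 2)) (l 1))) (a (b (a (l 2) (l 2)) (a (l 2) (l 2))) (a (c (l 2) (l 2)) (l 1)))) (a (c (c (a (l 2) (l 2)) (a (l 2) (l 2))) (c (a (l 2) (l 2)) (a (l 2) (l 2)))) (l 1)))) (l 1)), by decide +kernel⟩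

theorem h10_1Bm : ∃ t, chk3 f1Bm t 2 6 3 = true :=
  ⟨(c (a (b (a (c (l 8) (l 8)) (c (b (l 12) (l 12)) (b (l 12) (l 10)))) (a (c (l 8) (l 8)) (c (a (l 12) (l 12)) (a (l 10) (l 10))))) (b (a (c (b (a (l 10) (l 2)) (a (l 10) (l 2))) (b (a (l 10) (l 2)) (l 10))) (c (b (a (l 2) (c (l 2) (l 2))) (a (l 2) (l 2))) (b (a (l 2) (l 2)) (a (l 2) (l 2))))) (a (c (a (l 2) (l 2)) (a (l 2) (l 2))) (c (b (a (l 2) (l 2)) (l 2)) (b (l 2) (l 2)))))) (a (b (a (c (l 8) (l 8)) (c (b (l 12) (l 10)) (a (l 8) (l 12)))) (a (c (l 8) (l 8)) (c (a (l 10) (l 10)) (a (l 10) (l 10))))) (b (a (c (b (l 10) (l 10)) (b (l 10) (l 10))) (c (b (l 2) (l 2)) (b (l 2) (a (l 2) (l 2))))) (a (c (a (l 2) (l 2)) (a (l 2) (l 2))) (c (b (l 2) (l 2)) (b (l 2) (l 2))))))), by decide +kernel⟩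

theorem h11_1Bm : ∃ t, chk3 f1Bm t 2 7 3 = true :=
  ⟨(c (a (b (a (c (a (l 8) (l 12)) (l 12)) (c (a (l 12) (l 4)) (a (l 12) (l 4)))) (a (c (a (l 12) (l 12)) (a (l 12) (l 12))) (c (a (l 4) (l 4)) (a (l 4) (l 4))))) (b (a (c (a (l 2) (l 2)) (a (l 2) (l 2))) (c (a (c (l 2) (l 2)) (c (l 2) (l 2))) (a (l 2) (c (l 2) (l 2))))) (c (a (a (c (l 2) (l 2)) (c (l 2) (l 2))) (a (c (l 2) (l 2)) (c (l 2) (l 2)))) (a (a (c (l 2) (l 2)) (c (l 2) (l 2))) (a (c (l 2) (l 2)) (c (l 2) (l 2))))))) (a (b (a (c (l 12) (l 12)) (c (a (l 12) (l 2)) (a (l 10) (l 2)))) (a (c (a (l 12) (l 12)) (a (l 12) (l 12))) (c (a (l 4) (l 4)) (a (l 4) (l 4))))) (b (a (c (a (l 2) (l 2)) (a (l 2) (l 2))) (c (a (c (l 2) (l 2)) (c (l 2) (l 2))) (a (c (l 2) (l 2)) (c (l 2) (l 2))))) (a (c (a (l 4) (c (l 2) (l 2))) (a (l 4) (c (l 2) (l 2))))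 (c (a (c (l 2) (l 2)) (c (l 2) (l 2))) (a (c (l 2) (l 2)) (c (l 2) (l 2)))))))), by decide +kernel⟩

theorem h12_1Bm : ∃ t, chk3 f1Bm t 3 6 3 = true :=
  ⟨(b (c (a (c (a (b (b (l 4) (a (l 2) (l 2))) (a (l 2) (l 2))) (b (a (c (l 2) (l 2)) (l 4)) (a (l 4) (l 4)))) (a (b (a (l 2) (l 2)) (a (l 2) (l 2))) (b (a (l 2) (l 4)) (a (c (l 2) (l 2)) (c (l 4) (l 4)))))) (b (a (c (l 4) (l 4)) (l 1)) (l 1))) (a (a (c (b (a (l 2) (l 2)) (a (l 2) (c (l 2) (l 2)))) (b (l 2) (a (l 2) (c (l 2) (l 2))))) (c (b (l 4) (a (c (l 2) (l 2)) (c (l 4) (l 4)))) (b (l 4) (a (c (l 4) (l 4)) (b (l 4) (l 4)))))) (b (a (c (l 4) (l 4)) (l 1)) (l 1)))) (a (c (c (a (b (a (l 2) (l 2)) (a (l 2) (l 2))) (b (a (l 2) (l 4)) (a (l 2) (l 1)))) (a (b (a (l 2) (l 2)) (a (l 2) (l 2))) (b (a (l 2) (l 4)) (a (l 2) (l 1))))) (a (c (b (a (l 2) (l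 2)) (a (l 2) (l 2))) (b (a (l 2) (l 2)) (a (l 2) (l 2)))) (c (b (a (l 4) (l 4)) (a (l 4) (l 1))) (b (c (a (l 2) (l 4)) (a (l 2) (l 4))) (a (c (l 2) (l 4)) (l 1)))))) (l 1))), by decide +kernel⟩

theorem h13_1Bm : ∃ t, chk3 f1Bm t 3 7 3 = true :=
  ⟨(a (c (b (c (a (b (a (l 2) (l 2)) (a (l 2) (l 2))) (a (c (l 2) (l 2)) (l 1))) (a (b (a (l 2) (l 2)) (a (l 2) (l 2))) (a (c (l 2) (l 4)) (l 1)))) (a (c (c (a (l 2) (l 2)) (a (l 2) (l 2))) (c (a (l 2) (l 2)) (a (l 2) (l 2)))) (l 1))) (b (c (a (b (a (l 2) (l 2)) (a (l 2) (l 2))) (a (b (l 4) (l 1)) (l 1))) (a (a (c (l 2) (l 2)) (c (l 2) (b (l 2) (a (l 2) (l 2))))) (b (a (c (l 4) (a (l 2) (l 1))) (l 1)) (l 1)))) (a (c (c (a (l 2) (l 2)) (a (l 2) (l 2))) (a (c (l 2) (b (l 2) (a (l 2) (l 2)))) (b (c (l 2) (a (l 2) (l 1))) (l 1)))) (l 1)))) (l 1)), by decide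 +kernel⟩

theorem h14_1Bm : ∃ t, chk3 f1Bm t 3 3 3 = true := ex3_b h12_1Bm h13_1Bm

theorem h15_1Bm : ∃ t, chk3 f1Bm t 2 3 3 = true := ex3_b h10_1Bm h11_1Bm

theorem h16_1Bm : ∃ t, chk3 f1Bm t 1 3 3 = true := ex3_a h15_1Bm h14_1Bm

theorem h17_1Bm : ∃ t, chk3 f1Bm t 3 6 2 = true := ex3_c h7_1Bm h8_1Bm

theorem h18_1Bm : ∃ t, chk3 f1Bm t 3 3 2 = true := ex3_b h17_1Bm h9_1Bm

theorem h19_1Bm : ∃ t, chk3 f1Bm t 2 6 2 = true := ex3_c h4_1Bm h5_1Bm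

theorem h20_1Bm : ∃ t, chk3 f1Bm t 2 3 2 = true := ex3_b h19_1Bm h6_1Bm

theorem h21_1Bm : ∃ t, chk3 f1Bm t 1 3 2 = true := ex3_a h20_1Bm h18_1Bm

theorem h22_1Bm : ∃ t, chk3 f1Bm t 1 3 1 = true := ex3_c h21_1Bm h16_1Bm

theorem h23_1Bm : ∃ t, chk3 f1Bm t 1 2 3 = true := ex3_a h2_1Bm h3_1Bm

theorem h24_1Bm : ∃ t, chk3 f1Bm t 1 2 2 = true := ex3_a h0_1Bm h1_1Bm

theorem h25_1Bm : ∃ t, chk3 f1Bm t 1 2 1 = true := ex3_c h24_1Bm h23_1Bm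

theorem h26_1Bm : ∃ t, chk3 f1Bm t 1 1 1 = true := ex3_b h25_1Bm h22_1Bm

theorem ct_1Bm : ∃ t, chk3 f1Bm t 1 1 1 = true := h26_1Bm

end Pool.Agent.Strip051.G.I5_16_3_8.Tab.Mo
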