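import Pool.Agent.Strip051.G.I5_16_3_8.StF

/-! # Unit strips 1 (generated) -/

set_option linter.all false
set_option maxRecDepth 100000

namespace Pool.Agent.Strip051.G.I5_16_3_8.Tab.St.C

open Pool.Agent.Strip051.PB Pool.Agent.Strip051.PB.T Pool.Agent.StripNear Pool.Agent.Strip051.LC
open Pool.Agent.Strip051.G.I5_16_3_8.Tab Pool.Agent.Strip051.G.I5_16_3_8.Tab.St

noncomputable def cut_A00pm_012_s1 : Cut := Cut.of [[⟨4, 0, 0, 1449551462⟩], [⟨0, 0, 0, 67108864⟩, ⟨1, 1, 0, 67108864⟩, ⟨2, 1, 0, 67108864⟩], [⟨0, 0, 1, 33554432⟩, ⟨1, 1, 0, 33554432⟩, ⟨2, 1, 1, 33554432⟩]]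

noncomputable def xt_A00pm_012_s1 : Ext := strExt dd true true false .u0 .u0m .u2 .pnp 0 1 2 rfl rfl gf2 vv ndF0q0 ndF0q1

noncomputable def f_A00pm_012_s1 : ℕ → ℕ → ℕ → ℕ → Bool := onCell 1073741824 536870912 536870912 536870912 335544320 67108864
    (rowF 2 true true false .pnp 0 1 2 (qsf 0 536870912 536870912 536870912 2) ndF0q0 ndF0q1 pcF2 cut_A00pm_012_s1 xt_A00pm_012_s1)

def k0_A00pm_012_s1 : ∃ t, chk3 f_A00pm_012_s1 t 4 2 1 = true :=
  ⟨(a (l 3) (l 3)), by decide +kernel⟩

def k1_A00pm_012_s1 : ∃ t, chk3 f_A00pm_012_s1 t 4 12 1 = true :=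
  ⟨(a (l 3) (a (l 3) (a (l 3) (a (b (l 3) (b (l 3) (b (l 3) (a (l 3) (a (l 3) (a (l 3) (c (l 535858303) (l 535921023)))))))) (b (l 3) (a (b (l 3) (c (a (b (l 3) (l 535882367)) (c (l 535921791) (l 535979391))) (c (b (l 536038271) (l 535955071)) (b (l 536050815) (l 535966079))))) (a (b (a (l 3) (b (l 3) (c (l 536114303) (l 536194943)))) (c (b (l 536027007) (l 535948415)) (c (l 536049279) (l 536062591)))) (b (b (b (l 3) (c (l 536196223) (l 536284031))) (c (l 536137087) (l 536220799))) (c (b (l 536059263) (l 535981695)) (l 536094591)))))))))), by decide +kernel⟩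

def k2_A00pm_012_s1 : ∃ t, chk3 f_A00pm_012_s1 t 8 13 1 = true :=
  ⟨(l 3), by decide +kernel⟩

def k3_A00pm_012_s1 : ∃ t, chk3 f_A00pm_012_s1 t 18 13 1 = true :=
  ⟨(b (l 3) (b (l 3) (b (l 3) (a (l 3) (a (l 3) (a (l 3) (a (b (l 3) (c (l 535288703) (l 535253775))) (l 535286655)))))))), by decide +kernel⟩

def k4_A00pm_012_s1 : ∃ t, chk3 f_A00pm_012_s1 t 38 13 1 = true :=
  ⟨(b (a (l 3) (b (l 3) (a (b (l 3) (c (l 535507071) (l 535522943))) (b (b (l 3) (c (l 535513983) (l 535549567))) (c (l 535456127) (l 535492223)))))) (a (c (b (a (l 535472255) (b (l 535472255) (l 535388799))) (a (l 535301247) (l 535536511))) (b (a (c (l 535464575) (l 535436671)) (a (l 535703567) (l 535691023))) (a (c (l 535297151) (l 535405951)) (a (l 535544079) (l 535536143))))) (b (a (c (b (l 535426175) (l 535349119)) (b (l 535443583) (l 535367295))) (c (l 535613055) (l 535380607))) (a (c (l 535237759) (c (l 535257983) (l 535247487))) (c (l 535211135) (l 535243391)))))), by decide +kernel⟩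

def k5_A00pm_012_s1 : ∃ t, chk3 f_A00pm_012_s1 t 39 26 1 = true :=
  ⟨(a (b (b (a (l 3) (c (a (l 535736079) (l 535769215)) (c (l 535802751) (l 535810175)))) (a (a (a (l 3) (c (l 535597951) (l 535648639))) (c (l 535622271) (l 535674751))) (c (a (l 535655807) (l 535689599)) (l 535726207)))) (a (c (b (a (b (b (a (a (l 3) (l 535535999)) (l 535548287)) (a (c (a (b (l 535489807) (l 535480335)) (l 535490575)) (a (l 535529999) (l 535535743))) (b (l 535533439) (l 535522687)))) (a (a (l 535485055) (c (l 535451919) (l 535497855))) (c (b (l 535476495) (l 535449215)) (l 535509775)))) (b (l 535562879) (b (l 535529743) (l 535497231)))) (a (a (l 535428367) (b (l 535443839) (l 535406463))) (a (l 535429903) (l 535440399)))) (b (a (b (a (c (a (l 535563535) (l 535569935)) (a (l 535566863) (l 535573631))) (l 535587343)) (a (a (l 535532415) (l 535527439)) (c (l 535535119) (l 535539471)))) (b (l 535613311) (b (l 535580031) (l 535549567)))) (a (a (l 535476607) (l 535475983)) (c (l 535483663) (l 535490063))))) (b (c (b (l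 535612543) (a (l 535551871) (l 535586175))) (b (l 535665279) (l 535620879))) (b (c (a (l 535489151) (l 535527039)) (a (l 535544703) (l 535582591))) (c (l 535452431) (l 535510287)))))) (b (a (c (a (b (l 535802495) (l 535723647)) (l 535795583)) (c (l 535830143) (l 535838591))) (c (a (l 535829887) (l 535864703)) (a (l 535893119) (l 535929471)))) (a (b (c (b (l 535681407) (l 535638655)) (l 535713663)) (c (a (l 535535631) (l 535575167)) (a (l 535592575) (l 535631999)))) (b (c (l 535731071) (l 535787903)) (c (l 535633791) (l 535690111)))))), by decide +kernel⟩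

def k6_A00pm_012_s1 : ∃ t, chk3 f_A00pm_012_s1 t 39 27 1 = true :=
  ⟨(a (a (b (a (c (b (l 535355663) (l 535290239)) (l 535369231)) (b (c (l 535356175) (l 535410815)) (l 535324943))) (a (c (l 535196543) (l 535239039)) (c (l 535194495) (l 535242367)))) (b (c (b (a (l 535371903) (l 535396735)) (l 535305743)) (b (a (l 535430271) (l 535456895)) (l 535364111))) (a (c (l 535201151) (l 535253119)) (b (l 535287055) (l 535223935))))) (a (b (b (c (l 535443471) (l 535504399)) (a (l 535382287) (l 535411471))) (c (b (l 535278719) (l 16770904)) (b (l 535337855) (l 16771288)))) (b (b (c (l 535518991) (l 535579151)) (c (l 535417983) (l 535479423))) (c (b (l 535335039) (l 16764384)) (b (l 16772096) (l 16764832)))))), by decide +kernel⟩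

def k7_A00pm_012_s1 : ∃ t, chk3 f_A00pm_012_s1 t 8 14 1 = true :=
  ⟨(b (l 3) (a (l 3) (a (l 3) (b (l 3) (b (a (l 3) (c (a (l 534853135) (l 534612607)) (a (b (l 3) (l 534501647)) (b (l 534562175) (l 534530943))))) (b (a (l 3) (c (a (l 534543999) (l 534571647)) (a (l 534471039) (l 534500479)))) (a (a (l 3) (c (l 534487935) (c (l 534436479) (l 534384767)))) (c (a (l 534515583) (l 534542975)) (a (l 534441599) (l 534470783)))))))))), by decide +kernel⟩

def k8_A00pm_012_s1 : ∃ t, chk3 f_A00pm_012_s1 t 16 30 1 = true :=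
  ⟨(b (l 3) (a (l 3) (a (l 3) (b (l 3) (a (l 3) (b (l 3) (a (b (l 3) (b (l 3) (l 14))) (b (c (a (b (l 3) (l 534146431)) (b (c (l 534173711) (l 534139007)) (l 534152575))) (a (b (l 3) (l 534051711)) (b (l 534063887) (l 534058367)))) (c (a (l 534137359) (l 534143759)) (a (l 534042495) (l 534049151))))))))))), by decide +kernel⟩

def k9_A00pm_012_s1 : ∃ t, chk3 f_A00pm_012_s1 t 34 60 1 = true :=
  ⟨(b (l 3) (a (l 3) (a (a (l 3) (b (l 3) (c (l 534311551) (l 534226303)))) (c (b (l 534352911) (l 534596111)) (b (a (l 534266751) (l 534280831)) (a (l 534240383) (l 534254463))))))), by decide +kernel⟩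

def k10_A00pm_012_s1 : ∃ t, chk3 f_A00pm_012_s1 t 34 61 1 = true :=
  ⟨(a (b (b (a (l 3) (a (l 3) (c (l 534260863) (b (l 3) (l 534168703))))) (a (a (l 3) (a (l 3) (b (l 3) (l 534173567)))) (a (c (b (l 534232447) (l 534220927)) (b (l 534142847) (l 534130815))) (c (l 534237311) (b (l 534156671) (l 534144639)))))) (a (b (b (a (l 3) (c (l 534196863) (l 534105215))) (a (c (a (l 534171519) (l 534177919)) (a (l 534078335) (l 534084991))) (c (l 534185855) (l 534093695)))) (a (b (c (a (b (a (l 534162959) (l 534166399)) (l 534158863)) (l 534167167)) (a (c (l 534094863) (l 534035727)) (l 534073727))) (c (a (l 534150159) (l 534156559)) (a (l 534055695) (l 534062463)))) (b (c (a (l 534173567) (l 534179967)) (a (l 534080383) (l 534087295))) (c (a (l 534163071) (l 534169215)) (a (l 534069375) (l 534076031)))))) (b (a (c (b (l 534209919) (l 534198655)) (b (l 534119039) (l 534107263))) (c (l 534482815) (b (l 534132607) (l 534121087)))) (a (b (c (l 534187903) (l 534095999)) (c (l 534177151) (l 534084735))) (b (c (l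 534200959) (l 534109567)) (c (l 534190207) (l 534098303))))))) (b (a (b (c (a (l 534273919) (l 534287231)) (a (l 534321023) (l 534200703))) (c (a (l 534250367) (l 534263679)) (a (l 534296335) (l 534175871)))) (b (c (a (l 534300543) (l 534313599)) (a (l 534214783) (l 534228863))) (c (a (l 534276735) (l 534290047)) (a (l 534189951) (l 534203775))))) (a (c (b (a (l 534227583) (l 534240639)) (a (b (l 534213759) (l 534203007)) (l 534218623))) (b (a (b (l 534146431) (l 534134655)) (l 534151807)) (a (b (l 534123135) (l 534111871)) (b (l 534136703) (l 534125439))))) (b (c (a (l 534253951) (l 534267007)) (a (l 534165631) (l 534179711))) (c (a (l 534231679) (l 534244735)) (a (l 534142335) (l 534156159))))))), by decide +kernel⟩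

def k11_A00pm_012_s1 : ∃ t, chk3 f_A00pm_012_s1 t 35 30 1 = true :=
  ⟨(b (a (c (a (b (b (l 534432895) (l 534406015)) (b (l 534379903) (l 534354559))) (b (b (l 534460287) (l 534433407)) (b (l 534407039) (l 534381695)))) (b (a (b (a (l 3) (l 534364287)) (a (l 534322047) (l 534336383))) (b (c (l 534407807) (l 534355583)) (l 534489615))) (a (b (a (l 534294911) (l 534309247)) (a (l 534268543) (l 534282623))) (b (a (l 534323327) (l 534337663)) (a (l 534296703) (l 534311039)))))) (b (c (a (b (l 534487679) (l 534460543)) (l 534765695)) (a (b (l 534412415) (l 534384255)) (b (l 534441599) (l 534413183)))) (a (c (b (l 534434431) (l 534408575)) (b (l 534356607) (l 534329727))) (c (b (l 534461567) (l 534435967)) (b (l 534385535) (l 534358655)))))) (a (a (c (b (b (l 534329727) (l 534305919)) (b (l 534282623) (a (l 534257791) (l 534270847)))) (b (b (a (l 534242687) (l 534256767)) (a (l 534217855) (l 534231679))) (b (a (l 534193535) (l 534207359)) (a (l 534169983) (l 534183807))))) (b (a (c (l 534738703) (b (l 534270847)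 (l 534245759))) (b (l 534332431) (l 534375039))) (b (c (l 534309247) (a (l 534221439) (l 534235263))) (c (a (l 534284159) (l 16761984)) (a (l 534197631) (l 534211455)))))) (b (a (c (b (l 534383743) (l 534359679)) (b (l 534303615) (l 534546559))) (c (b (l 534410879) (l 534386559)) (b (l 534332287) (l 534306687)))) (b (a (c (l 534336127) (l 534253327)) (c (l 534363007) (l 534281855))) (a (c (b (l 16760752) (l 16759640)) (b (l 16762832) (l 16759056))) (c (b (l 16758424) (l 16757304)) (b (l 16757800) (l 16756648)))))))), by decide +kernel⟩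

def k12_A00pm_012_s1 : ∃ t, chk3 f_A00pm_012_s1 t 16 31 1 = true :=
  ⟨(b (a (l 14) (a (l 14) (b (a (l 14) (b (a (l 14) (a (l 14) (a (l 14) (b (l 534094095) (l 14))))) (l 14))) (l 14)))) (l 14)), by decide +kernel⟩

def k13_A00pm_012_s1 : ∃ t, chk3 f_A00pm_012_s1 t 34 62 1 = true :=
  ⟨(a (b (a (a (b (a (b (c (l 534140031) (l 534045055)) (l 14)) (b (c (l 534146175) (l 534051711)) (c (l 534136191) (l 534040959)))) (l 14)) (b (b (c (l 534153999) (l 534060047)) (c (l 534143759) (l 534049039))) (a (l 14) (b (l 534097279) (l 14))))) (b (a (b (c (l 534166911) (l 534073471)) (c (l 534156415) (l 534062719))) (c (b (l 534179711) (l 534169215)) (b (l 534087039) (l 534076287)))) (a (c (b (l 534146431) (l 534136447)) (b (l 534051967) (l 534041471))) (c (b (l 534159231) (l 16769360)) (b (l 534065535) (l 534054783)))))) (a (l 14) (a (l 14) (b (b (c (l 16765528) (l 534044543)) (l 14)) (l 14))))) (c (b (b (a (a (l 534452607) (l 534197119)) (a (l 534210175) (l 534223231))) (a (a (l 534431759) (l 534444815)) (a (l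 534457983) (l 534470783)))) (b (a (a (b (l 16764248) (l 16763016)) (b (l 16762968) (l 16761744))) (a (b (l 16761704) (l 16760440)) (b (l 16760456) (b (l 16759504) (l 16758896))))) (a (b (a (l 14) (b (l 16760776) (l 14))) (l 14)) (b (a (b (l 16759520) (l 16758792)) (l 16757808)) (l 16757032))))) (b (b (a (a (b (l 534100607) (l 534089599)) (b (l 534114175) (l 534103167))) (a (l 534387983) (l 534133375))) (a (a (b (l 534078847) (l 534068351)) (b (l 16764960) (l 16763728))) (a (b (l 16763656) (l 16762424)) (b (l 16762360) (l 16761128))))) (b (a (a (b (l 16763792) (l 16762520)) (b (l 16762472) (l 16761200))) (a (b (l 16761168) (b (l 16760216) (l 16759552))) (b (l 16759872) (b (l 16758896) (l 16758240))))) (a (b (a (l 14) (b (l 16760208) (l 14))) (l 14)) (b (a (b (l 16758888) (l 16758120)) (l 16757088)) (l 16756240))))))), by decide +kernel⟩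

def k14_A00pm_012_s1 : ∃ t, chk3 f_A00pm_012_s1 t 35 62 1 = true :=
  ⟨(b (a (c (b (a (a (l 534236287) (l 534249343)) (b (l 16760888) (l 16759736))) (a (a (l 534483727) (b (l 16760384) (l 16759192))) (b (l 16758560) (a (l 16757944) (l 16756728))))) (a (b (a (l 534147199) (l 534160767)) (a (b (l 16761080) (l 16759848)) (b (l 16759816) (l 16758576)))) (b (a (l 534174591) (l 534188415)) (a (b (l 16758560) (l 16757288)) (b (l 16757312) (b (l 16756360) (l 16755712))))))) (b (a (c (b (l 16758504) (l 16757352)) (b (l 16757880) (l 16756680))) (c (b (l 16756168) (a (l 16755544) (l 16754392))) (b (l 16755472) (a (l 16754832) (l 16756240))))) (a (c (b (a (l 16756728) (l 16755544)) (a (l 16755512) (l 16754168))) (b (a (l 16756048) (b (l 16755136) (l 16754496))) (a (l 16757360) (l 16753336)))) (a (b (c (l 16754328) (l 16753528)) (l 16752464)) (b (l 16752616) (l 16751120)))))) (a (b (c (a (b (a (l 16759176) (b (l 16758256) (l 16757656))) (a (l 16760560) (l 16756576))) (b (a (l 16756712) (l 16755360)) (l 16754576)))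 (a (b (a (l 16758568) (b (l 16757616) (l 16756968))) (a (b (l 16757600) (l 16756832)) (l 16755816))) (b (a (b (l 16756336) (l 16755568)) (l 16754560)) (l 16753712)))) (c (a (b (l 16755792) (l 16754328)) (b (l 16753112) (l 16751640))) (a (b (l 16754968) (l 16753400)) (b (l 16752144) (l 16750560))))) (b (c (a (b (l 16753376) (l 16751920)) (l 16750016)) (a (b (l 16752472) (l 16750912)) (l 16748912))) (c (a (l 16749704) (l 16747032)) (a (l 16748536) (l 16745720)))))), by decide +kernel⟩

def k15_A00pm_012_s1 : ∃ t, chk3 f_A00pm_012_s1 t 17 63 1 = true :=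
  ⟨(a (b (a (l 14) (a (l 14) (a (l 14) (b (b (l 16754464) (l 14)) (l 14))))) (l 14)) (b (a (b (c (a (l 16754728) (l 16749384)) (a (b (l 16751816) (l 16750208)) (l 16750776))) (c (a (l 16749064) (l 16746320)) (a (b (l 16748584) (l 14)) (l 16744872)))) (b (c (a (l 16746680) (l 16743984)) (a (l 16745296) (l 16742456))) (c (a (l 16743584) (l 16740856)) (a (l 16741992) (l 16739120))))) (b (b (a (c (l 16745344) (l 16743816)) (c (l 16739832) (l 16738008))) (a (l 14) (c (l 16738216) (l 16736296)))) (a (l 14) (c (b (l 16736592) (l 16734944)) (b (l 16734560) (l 16732808))))))), by decide +kernel⟩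

def k16_A00pm_012_s1 : ∃ t, chk3 f_A00pm_012_s1 t 18 28 1 = true :=
  ⟨(a (b (l 3) (a (l 3) (c (b (l 535236479) (l 534898703)) (b (a (l 3) (l 534936447)) (a (l 534834047) (l 534864511)))))) (a (c (b (a (l 535122303) (l 535149695)) (b (l 535023743) (l 534953343))) (b (b (l 3) (a (l 535041407) (l 535071871))) (b (a (l 534966911) (l 534997375)) (a (l 534894719) (l 534925183))))) (c (b (a (l 535177343) (b (a (l 535497231) (b (l 535235199) (l 535212671))) (a (l 535164287) (l 535165823)))) (a (l 535031167) (a (l 535053951) (l 535062143)))) (a (b (b (l 535179135) (l 535102335)) (b (l 535028095) (l 534955903))) (a (b (b (c (l 535208975) (b (l 535194895) (l 535165199))) (l 535125375)) (b (l 535051647) (l 534979967))) (b (b (b (l 535207951) (l 535181439)) (l 535130895)) (b (l 535061119) (l 534991487)))))))), by decide +kernel⟩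

def k17_A00pm_012_s1 : ∃ t, chk3 f_A00pm_012_s1 t 18 29 1 = true :=
  ⟨(a (b (b (a (a (l 3) (c (l 534794879) (c (l 534755199) (l 534709631)))) (c (a (l 534822527) (l 534850175)) (a (l 534764415) (l 534794623)))) (a (a (c (a (l 534698255) (l 534711935)) (a (c (l 534654223) (b (l 3) (l 534592271))) (l 534647167))) (c (l 534729855) (c (l 534688639) (l 534642303)))) (c (a (l 534757503) (l 534785151)) (a (l 534697343) (l 534727551))))) (a (c (b (a (a (l 534636303) (l 534649871)) (b (l 534685823) (l 534655871))) (a (a (l 534577535) (l 534591359)) (l 534609423))) (a (b (a (c (l 534724879) (b (l 534560271) (l 534529039))) (b (l 534600975) (l 534569855))) (a (c (l 534530175) (l 534480655)) (b (l 534539391) (l 534509439)))) (b (b (l 534621567) (l 534624015)) (b (l 534559759) (l 534529807))))) (b (c (a (l 534695295) (l 534722943)) (a (c (l 534654079) (l 534607999)) (l 534663039))) (a (c (l 534636815) (a (l 534566271) (l 534581119))) (c (l 534664319) (b (l 534619007) (l 534589055))))))) (a (b (c (b (l 534885503)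 (l 535088767)) (b (a (l 534825087) (l 534855551)) (a (l 534757759) (l 534788223)))) (b (c (a (l 534750847) (l 534779007)) (a (l 534693247) (l 534723455))) (c (a (l 534691967) (l 534719871)) (a (l 534631295) (l 534661503))))) (b (a (c (l 535163775) (b (l 534886015) (l 534818687))) (c (b (l 534961023) (l 534897023)) (b (l 534916367) (l 534849295)))) (a (b (c (l 534807167) (l 534753919)) (c (l 534748287) (l 534691967))) (c (b (l 534835327) (l 534776703)) (b (l 534784783) (b (l 16758176) (l 16756424)))))))), by decide +kernel⟩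

def k18_A00pm_012_s1 : ∃ t, chk3 f_A00pm_012_s1 t 38 14 1 = true :=
  ⟨(b (b (a (c (a (b (b (l 535211647) (l 535189119)) (l 535154447)) (b (l 535169407) (l 535132943))) (a (b (b (l 535196287) (l 535170063)) (a (l 535131151) (l 535128703))) (b (c (l 535175295) (l 535156095)) (c (l 535130495) (l 535107343))))) (a (b (c (l 535147391) (l 535160079)) (c (l 535110527) (l 535113487))) (c (b (l 535127167) (l 535092863)) (b (l 535153279) (l 535108479))))) (a (c (a (b (l 535098639) (l 535038335)) (b (l 535091327) (l 535041663))) (a (b (c (l 535081343) (l 535048975)) (c (l 535017599) (l 534983439))) (b (c (l 535082367) (l 535055119)) (c (l 535027327) (l 534997007))))) (a (c (b (l 535080831) (l 535041919)) (b (l 535072015) (l 535023631))) (c (b (l 535070079) (l 16762160)) (b (l 535072383) (l 535032447)))))) (a (b (a (c (b (l 534977407) (l 534917247)) (b (c (l 534953599) (l 534917903)) (l 534873871))) (c (b (l 534988415) (l 535202431)) (b (c (l 534969727) (l 534936847)) (c (l 534911103) (l 534876175))))) (a (c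 (b (l 534858367) (l 534801791)) (b (l 534811407) (b (l 16756312) (l 16754560)))) (c (b (l 534880271) (l 534826879)) (b (b (l 534853135) (l 16758808)) (b (l 16754496) (l 16752736)))))) (b (a (c (b (l 534997375) (l 16763928)) (b (l 534971151) (l 534916879))) (b (c (l 16759656) (l 534986879)) (c (l 16756928) (l 534938239)))) (a (c (b (l 16755680) (l 16752440)) (b (a (l 16760928) (l 16754816)) (c (l 16752088) (l 16756856)))) (b (b (l 16754616) (l 16753048)) (b (l 16751416) (c (l 16749928) (l 16749304)))))))), by decide +kernel⟩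

def k19_A00pm_012_s1 : ∃ t, chk3 f_A00pm_012_s1 t 78 14 1 = true :=
  ⟨(b (b (a (a (b (l 535145743) (l 535241855)) (b (l 535147647) (l 535110015))) (c (l 535375119) (b (l 535172735) (l 16768488)))) (a (b (c (l 16762584) (l 535076623)) (c (l 16760352) (l 16765576))) (b (c (l 16760856) (l 16761032)) (b (l 16759328) (l 16758160))))) (b (a (b (b (l 16758560) (l 16757256)) (b (l 16755888) (l 16754464))) (b (b (l 16756936) (l 16755656)) (c (b (l 16754328) (l 16752976)) (l 16753392)))) (a (c (b (b (l 16753080) (l 16751568)) (b (l 16750008) (l 16748272))) (b (b (l 16752680) (l 16751096)) (b (l 16749448) (l 16747632)))) (c (b (b (l 16751560) (l 16750088)) (b (a (l 16748912) (l 16748160)) (a (l 16749752) (b (l 16746840) (l 16745488))))) (a (b (l 16750760) (b (l 16748328) (l 16746424))) (b (l 16750040) (b (l 16747560) (l 16745432)))))))), by decide +kernel⟩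

def k20_A00pm_012_s1 : ∃ t, chk3 f_A00pm_012_s1 t 79 14 1 = true :=
  ⟨(b (b (a (c (b (l 16763560) (l 16761432)) (b (l 16763952) (l 16761776))) (c (b (l 16762240) (l 16760072)) (b (l 16762688) (l 16760472)))) (a (b (b (l 16760048) (l 16758936)) (b (l 16757808) (l 16756648))) (c (b (l 16757904) (l 16755720)) (b (l 16758200) (l 16755848))))) (b (b (a (b (l 16755448) (l 16754200)) (c (l 16753424) (l 16753352))) (a (c (b (l 16752888) (l 16751568)) (b (l 16752664) (l 16751248))) (c (b (l 16751600) (l 16750320)) (b (l 16751368) (l 16749968))))) (b (a (c (b (l 16750192) (a (l 16749080) (l 16748400))) (b (l 16749768) (a (l 16748560) (l 16747864)))) (b (c (a (l 16749272) (l 16748656)) (l 16748472)) (c (a (b (l 16748184) (l 16747296)) (b (l 16747448) (l 16746160))) (a (b (l 16747640) (l 16746664)) (b (l 16746840) (l 16745448)))))) (a (b (c (a (b (l 16747912) (l 16746992)) (b (l 16747144) (l 16745848))) (b (a (l 16747312) (l 16746488)) (a (l 16746304) (l 16745080)))) (c (l 16744376) (l 16743480))) (c (b (c (l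 16744768) (l 16744600)) (l 16741952)) (b (l 16743872) (l 16740872))))))), by decide +kernel⟩

def k21_A00pm_012_s1 : ∃ t, chk3 f_A00pm_012_s1 t 36 30 1 = true :=
  ⟨(b (a (c (a (b (l 534793743) (a (l 534468223) (l 534482047))) (b (l 534553103) (l 534499343))) (a (b (b (l 534471183) (l 534442767)) (b (l 534414863) (l 534521727))) (a (b (l 534477839) (l 534690431)) (b (l 534492687) (l 534436367))))) (c (b (a (l 534580607) (l 534608255)) (a (l 534527247) (l 534554751))) (c (b (a (l 534534783) (l 534563967)) (a (l 534478975) (l 534508159))) (b (a (b (l 534504063) (l 534475135)) (l 534516751)) (a (b (l 534446975) (l 16761440)) (b (l 16758640) (l 16756632))))))) (a (c (a (b (b (l 534438015) (l 534413695)) (b (l 534390143) (b (l 16756136) (l 16755016)))) (b (b (l 16759744) (l 16757680)) (b (l 16755552) (b (l 16753880) (a (l 16753280) (l 16752168)))))) (a (b (b (l 534361215) (l 534335359)) (b (l 534310415) (b (l 16755448) (l 16754296)))) (b (b (l 534390143) (l 534364287)) (b (l 534339343) (b (l 16753136) (a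 (l 16752504) (l 16751328))))))) (b (a (b (c (l 16757576) (l 534419327)) (c (l 16755512) (l 16757448))) (b (c (l 16755456) (l 16754784)) (c (l 16753384) (l 16752648)))) (b (a (a (l 534408207) (b (l 16753064) (l 16751920))) (c (b (l 16751704) (l 16750592)) (b (l 16750920) (a (l 16750328) (l 16749096))))) (a (c (b (a (l 16752208) (l 16751080)) (l 16750256)) (b (a (l 16751400) (l 16750208)) (l 16749320))) (c (l 16748448) (l 16747424))))))), by decide +kernel⟩

def k22_A00pm_012_s1 : ∃ t, chk3 f_A00pm_012_s1 t 37 30 1 = true :=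
  ⟨(b (c (a (b (a (l 534636159) (l 534664063)) (a (l 534582655) (l 534610559))) (a (b (l 534692223) (l 534638719)) (b (l 534720895) (b (l 16751480) (l 16749408))))) (a (b (a (b (l 534589311) (l 534560639)) (b (l 534619263) (l 16756632))) (a (b (l 16759360) (l 16754744)) (b (l 16754696) (l 16752688)))) (a (b (l 534632463) (b (l 16752704) (l 16750680))) (b (b (l 16754608) (l 16752720)) (b (l 16750768) (c (l 16748888) (l 16748320))))))) (b (a (a (b (a (l 534514559) (l 534528895)) (b (l 16751520) (c (l 16750696) (l 16749880)))) (c (b (l 16751376) (b (l 16749720) (l 16748520))) (b (l 16750600) (b (l 16748880) (l 16747584))))) (c (b (a (l 16749272) (l 16747200)) (a (l 16746744) (l 16744280))) (b (a (b (l 16749064) (l 16747912)) (b (l 16746952) (l 16745424))) (a (l 16745728) (l 16743112))))) (a (b (a (b (c (l 16749552) (l 16748648)) (l 16745048)) (c (l 16746336) (l 16745240))) (c (a (l 16745936) (l 16743432)) (a (l 16744760) (l 16742104)))) (c (b (a (l 16743856) (l 16741376)) (a (l 16740920) (l 16738416)))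 (b (a (l 16742608) (l 16739976)) (a (l 16739440) (l 16736776))))))), by decide +kernel⟩

def k23_A00pm_012_s1 : ∃ t, chk3 f_A00pm_012_s1 t 18 62 1 = true :=
  ⟨(a (b (a (b (a (c (b (a (l 16754400) (l 16753264)) (l 16752528)) (b (a (l 16753648) (l 16752456)) (a (l 16752328) (l 16750952)))) (c (b (l 16751376) (l 16749928)) (b (l 16750472) (l 16748912)))) (c (a (l 16750328) (l 16747736)) (a (l 16749296) (l 16746560)))) (b (c (a (l 16748096) (l 16745544)) (a (l 16746992) (l 16744296))) (c (a (l 16745152) (l 16742576)) (a (l 16743832) (l 16741104))))) (a (b (c (a (l 16747384) (l 16744768)) (a (l 16746136) (l 16743368))) (c (a (l 16744376) (l 16741720)) (a (l 16742912) (l 16740112)))) (b (c (a (l 16742152) (l 16739544)) (a (l 16740608) (l 16737848))) (c (a (l 16739080) (l 16736440)) (a (l 16737320) (l 16734528)))))) (b (a (b (c (a (l 16743000) (l 16740464)) (a (l 16741600) (l 16738912))) (c (a (l 16740000) (l 16737432)) (a (l 16738376) (l 16735656)))) (c (b (a (l 16737928) (l 16735392)) (a (l 16734872) (l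 16732312))) (b (a (l 16736216) (l 16733528)) (a (l 16732936) (l 16730216))))) (a (b (c (a (l 16736944) (l 16734344)) (a (l 16735096) (l 16732344))) (c (a (l 16733816) (l 16731192)) (a (l 16731744) (l 16728968)))) (b (c (a (l 16731752) (l 16729168)) (a (l 16729592) (l 16726848))) (c (a (l 16728576) (l 16725968)) (a (l 16726192) (l 16723424))))))), by decide +kernel⟩

def k24_A00pm_012_s1 : ∃ t, chk3 f_A00pm_012_s1 t 18 63 1 = true :=
  ⟨(b (a (a (b (c (a (l 16741288) (l 16738608)) (a (l 16739616) (l 16736784))) (c (a (l 16738136) (l 16735432)) (a (l 16736248) (l 16733392)))) (b (c (a (l 16735936) (l 16733280)) (a (l 16733960) (l 16731144))) (c (l 16731376) (b (l 16729976) (l 16728240))))) (a (b (c (a (l 16730624) (l 16727976)) (a (l 16728336) (l 16725528))) (c (l 16726024) (l 16723440))) (b (c (a (l 16725336) (l 16722704)) (a (l 16722736) (l 16719936))) (c (a (l 16722032) (l 16719376)) (l 16717792))))) (b (a (a (c (l 16733536) (b (l 16732232) (l 16730488))) (c (l 16728096) (l 16725608))) (a (c (l 16722688)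 (l 16719888)) (c (l 16717320) (l 16714200)))) (b (a (a (c (l 16731064) (l 16728736)) (l 16724296)) (a (l 16718704) (l 16713144))) (a (a (c (l 16729392) (l 16726960)) (l 16722552)) (a (l 16716936) (l 16711352)))))), by decide +kernel⟩

def k25_A00pm_012_s1 : ∃ t, chk3 f_A00pm_012_s1 t 38 30 1 = true :=
  ⟨(b (a (c (b (a (l 16752456) (l 534775167)) (b (a (l 16749592) (l 16747688)) (a (l 16747480) (l 16745136)))) (b (a (b (l 16752736) (l 16750840)) (b (l 16750920) (l 16749032))) (b (a (l 16748848) (b (l 16747472) (c (l 16746640) (l 16746016)))) (a (b (l 16747240) (l 16745952)) (l 16744120))))) (b (a (c (b (l 16749840) (l 16747872)) (b (l 16749168) (a (l 16747648) (l 16746720)))) (b (c (l 16748072) (l 16747376)) (c (l 16746016) (l 16745136)))) (c (b (a (l 16745624) (l 16743168)) (l 16741504)) (a (b (a (l 16745304) (l 16743992)) (l 16741560)) (l 16740536))))) (a (b (c (b (a (l 16744712) (l 16742280)) (a (l 16741832) (l 16739376))) (b (a (l 16743616) (c (l 16741416) (l 16740608))) (a (l 16740504) (c (l 16738328)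 (l 16737416))))) (c (b (a (l 16738896) (l 16736416)) (a (l 16735904) (c (l 16733792) (l 16732968)))) (b (a (l 16737336) (c (l 16735184) (l 16734160))) (a (l 16734112) (c (l 16731992) (l 16730856)))))) (b (c (a (b (l 16739848) (l 16736912)) (l 16735936)) (a (b (l 16738440) (l 16735272)) (b (l 16735832) (l 16732632)))) (c (b (a (l 16733928) (l 16731424)) (a (l 16730880) (l 16728360))) (a (b (l 16732040) (l 16728768)) (b (l 16729384) (l 16726080))))))), by decide +kernel⟩

def k26_A00pm_012_s1 : ∃ t, chk3 f_A00pm_012_s1 t 39 30 1 = true :=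
  ⟨(b (b (a (b (a (c (b (l 16746928) (l 16745728)) (b (l 16746176) (l 16744872))) (c (l 16744000) (l 16743040))) (c (l 16747616) (l 16751744))) (a (b (c (l 16741592) (l 16740456)) (l 16743424)) (c (l 16742960) (l 16736288)))) (a (c (b (l 16739528) (l 16736632)) (b (l 16738176) (l 16735040))) (c (b (l 16734592) (l 16731656)) (b (l 16732896) (l 16729712))))) (b (a (c (b (l 16733680) (l 16730680)) (a (l 16731600) (l 16728936))) (c (l 16727152) (l 16724856))) (a (c (b (l 16727632) (l 16724536)) (a (l 16725048) (l 16722344))) (c (l 16720976) (b (l 16719880) (l 16716504)))))), by decide +kernel⟩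

def k27_A00pm_012_s1 : ∃ t, chk3 f_A00pm_012_s1 t 19 31 1 = true :=
  ⟨(b (a (a (b (c (b (a (l 16732856) (a (l 16730960) (l 16729688))) (a (l 16729752) (a (l 16727832) (l 16726552)))) (b (a (l 16730832) (a (l 16728816) (l 16727464))) (a (l 16727496) (a (l 16725456) (l 16724096))))) (b (c (a (l 16726584) (l 16726624)) (a (l 16724104) (c (l 16722064) (l 16720616)))) (c (a (l 16723360) (l 16726000)) (a (l 16720656) (l 16717880))))) (b (c (a (b (l 16727784) (l 16724632)) (b (l 16725240) (l 16722064))) (a (b (l 16725432) (l 16722048)) (b (l 16722720) (l 16719312)))) (c (b (a (l 16721416) (l 16718832)) (a (l 16718152) (l 16715544))) (b (a (l 16718608) (l 16715856)) (a (l 16715112) (l 16712336)))))) (b (a (c (b (l 16721384) (l 16718184)) (a (l 16718296) (l 16715544))) (c (l 16714600) (b (l 16713080) (l 16709616)))) (a (c (b (l 16714928) (l 16711616)) (b (l 16711688) (l 16708144))) (c (l 16708032) (l 16709568))))) (b (a (a (b (c (a (l 16720072) (l 16717448)) (a (l 16717144) (l 16714352))) (c (a (l 16716728)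 (l 16714088)) (a (l 16713584) (l 16710768)))) (b (c (a (l 16714824) (l 16712208)) (l 16715400)) (c (l 16720600) (l 16706544)))) (a (c (b (l 16708248) (l 16704832)) (b (l 16704552) (l 16700912))) (c (l 16701256) (l 16697088)))) (a (b (a (c (a (l 16713328) (l 16710664)) (l 16708528)) (c (l 16706664) (l 16702880))) (a (c (b (l 16709384) (l 16707632)) (l 16710088)) (c (l 16703160) (l 16699152)))) (a (b (l 16704568) (l 16700920)) (b (l 16693816) (l 16690152)))))), by decide +kernel⟩

def k28_A00pm_012_s1 : ∃ t, chk3 f_A00pm_012_s1 t 80 2 1 = true :=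
  ⟨(b (l 3) (l 3)), by decide +kernel⟩

def k29_A00pm_012_s1 : ∃ t, chk3 f_A00pm_012_s1 t 81 2 2 = true :=
  ⟨(a (b (l 2) (b (l 3) (b (l 3) (b (l 3) (a (l 3) (l 536827263)))))) (b (l 2) (b (l 3) (b (l 3) (b (a (l 3) (b (a (l 3) (b (l 3) (l 537298559))) (a (b (l 3) (a (b (l 3) (l 536944511)) (b (a (b (l 3) (b (c (a (l 3) (l 536949775)) (l 536997135)) (l 536958079))) (b (l 537507967) (c (b (l 536959759) (a (l 536939135) (l 536945535))) (a (l 536997135) (l 536998783))))) (a (l 536948607) (c (b (a (l 537180943) (l 536919167)) (l 536905999)) (b (l 536989967) (l 536982399))))))) (b (l 536999551) (b (b (l 536980607) (a (l 536969087) (l 536977023))) (a (a (b (l 536959103) (l 536951167)) (l 536958991)) (l 537233423))))))) (a (c (l 536814463) (l 536887679)) (a (a (l 536873087) (a (l 536877951) (b (c (l 536873087) (l 536946559)) (l 536851071)))) (b (b (a (b (a (l 536939647) (l 536943487)) (l 537462911)) (b (l 536949119) (l 536933503))) (a (l 536903039) (l 537447295))) (a (l 536856191) (l 537132047)))))))))),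 by decide +kernel⟩

def k30_A00pm_012_s1 : ∃ t, chk3 f_A00pm_012_s1 t 81 2 3 = true :=
  ⟨(a (b (l 2) (b (l 3) (b (l 3) (b (l 3) (a (l 3) (l 536923775)))))) (b (l 2) (b (l 3) (b (l 3) (b (a (l 3) (b (a (l 3) (a (l 3) (a (l 3) (l 537124223)))) (a (b (l 3) (a (b (l 3) (l 537043327)) (b (a (a (l 3) (b (l 3) (b (c (l 537047935) (l 537070607)) (l 537058175)))) (b (l 537068047) (c (a (l 537046543) (l 537046911)) (b (l 537069839) (a (l 537066623) (l 537066111)))))) (a (l 537046911) (c (b (l 537038863) (l 537030783)) (b (a (l 537060879) (l 537060479)) (l 537051919))))))) (b (l 537083775) (b (b (l 537066111) (a (l 537059711) (l 537058175))) (a (a (b (l 537053055) (l 537045375)) (l 537048847)) (l 537047311))))))) (a (c (l 536934015) (l 536953983)) (a (b (a (l 536999551) (a (l 537003391) (c (l 536992639) (l 537012351)))) (l 536931199)) (b (b (a (b (c (l 537020543) (l 537039375)) (l 537016959)) (b (l 537033343) (l 537017983))) (a (l 536991359) (l 536993663))) (a (l 536939391) (l 536942975)))))))))), by decide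 +kernel⟩

def k31_A00pm_012_s1 : ∃ t, chk3 f_A00pm_012_s1 t 41 4 1 = true :=
  ⟨(l 2), by decide +kernel⟩

def k32_A00pm_012_s1 : ∃ t, chk3 f_A00pm_012_s1 t 82 10 1 = true :=
  ⟨(a (l 3) (b (l 3) (b (l 3) (a (l 3) (a (a (l 3) (b (l 3) (b (l 3) (l 537472639)))) (c (b (a (l 3) (l 538448767)) (a (l 538254207) (l 538272895))) (a (l 537273215) (l 537283711)))))))), by decide +kernel⟩

def k33_A00pm_012_s1 : ∃ t, chk3 f_A00pm_012_s1 t 83 20 1 = true :=
  ⟨(a (a (l 3) (a (b (l 2) (a (l 3) (b (l 2) (b (a (l 3) (c (l 539029631) (l 537644927))) (a (b (a (l 3) (l 538217343)) (a (b (l 3) (a (b (l 3) (l 538155391)) (c (l 538666111) (l 537398143)))) (b (l 538187391) (c (b (l 538942079) (l 538933119)) (l 537426047))))) (b (l 537962367) (b (l 538200703) (a (c (l 538942591) (l 537468799)) (l 538184831))))))))) (b (l 2) (b (l 2) (a (a (b (l 538309759) (b (l 538250367) (c (l 538963583) (l 537600383)))) (b (l 538332031) (l 537714559))) (b (l 538370431) (a (l 538274943) (l 538301567)))))))) (b (l 2) (a (b (l 2) (a (a (a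 (l 538373759) (l 538487935)) (c (l 539139711) (l 538414975))) (a (a (l 538907775) (l 539072383)) (a (a (l 539208575) (l 539307135)) (l 539449215))))) (b (l 2) (b (l 2) (b (a (l 16780080) (l 2)) (a (l 16780144) (l 16781344)))))))), by decide +kernel⟩

def k34_A00pm_012_s1 : ∃ t, chk3 f_A00pm_012_s1 t 166 21 1 = true :=
  ⟨(a (a (a (b (l 3) (c (b (l 538466175) (l 538291583)) (l 537293183))) (b (b (l 3) (c (l 538646399) (l 537367423))) (c (b (l 538483327) (l 538310527)) (l 537301631)))) (b (b (a (l 3) (c (c (l 539225983) (l 538435967)) (l 537402495))) (a (c (l 538662271) (l 537371775)) (c (l 538678143) (l 537373823)))) (c (a (b (l 538500735) (l 538329215)) (b (l 538517887) (l 538347647))) (a (l 537309055) (l 537314687))))) (a (a (b (c (b (c (l 539238527) (l 538451839)) (l 538694015)) (b (l 537398655) (l 537373567))) (c (c (l 538868351) (l 538039679)) (l 537318527))) (b (b (a (a (c (l 538853247) (l 537396607)) (b (b (b (c (l 538919551) (l 537406847)) (l 537589887)) (l 537828479)) (l 537768575))) (b (b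 (a (c (l 538915199) (l 537438335)) (l 537883775)) (a (l 537566335) (l 538110847))) (c (l 538826879) (l 537414015)))) (a (c (l 538705791) (l 537373311)) (c (l 538714495) (l 537385599)))) (a (c (l 538465151) (l 537322111)) (c (b (l 538557055) (l 538390143)) (l 537329535))))) (b (a (b (a (b (b (l 537897855) (l 537586815)) (c (l 538836607) (l 537467263))) (b (c (l 538921599) (l 537610111)) (c (l 538847871) (l 537537151)))) (a (c (l 538724223) (l 537420415)) (c (l 538735231) (l 537470847)))) (b (a (b (l 538186879) (l 538099071)) (b (l 538211711) (l 538121855))) (a (c (l 538747519) (l 537533055)) (c (l 538761343) (l 537604991))))) (a (a (c (b (l 538567295) (l 538400895)) (l 537349759)) (c (b (l 538578303) (l 538412415)) (l 537380991))) (a (c (l 537703295) (l 537421695)) (b (c (l 538604159) (l 537512831)) (l 537636991))))))), by decide +kernel⟩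

def k35_A00pm_012_s1 : ∃ t, chk3 f_A00pm_012_s1 t 167 21 1 = true :=
  ⟨(b (a (b (a (a (b (a (l 538242431) (l 538287999)) (a (l 538147711) (l 538176639))) (a (b (l 538412927) (l 538273663)) (c (l 539005311) (l 538212223)))) (a (c (a (l 539038847) (l 539080831)) (a (l 538345855) (l 538492543))) (a (c (l 539225983) (a (l 538614399) (l 538702719))) (b (l 16779440) (l 16779520))))) (a (a (a (l 538013823) (l 538039935)) (a (l 538116735) (l 538229375))) (a (a (l 538353279) (l 538490495)) (a (a (l 538605695) (l 538689407)) (l 538813567))))) (a (a (b (b (c (l 16780240) (l 16779592)) (l 16780000)) (b (l 16780072) (l 16780144))) (a (a (b (b (c (l 16780664) (l 16779952)) (l 16780392)) (c (l 16780936) (l 538872991))) (a (b (b (l 539354783) (l 16780512)) (c (l 16781064) (l 538913439))) (a (b (b (l 539642783) (l 16780568)) (c (l 16781128) (l 538933151))) (b (b (b (l 16780496) (l 16780544)) (l 16780608)) (b (l 16780688) (l 16780760)))))) (b (c (b (l 16781080) (l 16781200)) (b (l 16780296) (l 16780360))) (b (l 16780864)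 (l 16780928))))) (b (c (b (l 16781904) (l 16782032)) (b (l 16780984) (l 16781056))) (c (l 16782192) (b (l 16781112) (l 16781160)))))) (b (b (a (a (a (a (l 537880447) (l 537906047)) (a (l 537996671) (l 16778632))) (a (a (l 16778856) (l 16779104)) (a (l 538473599) (l 16779720)))) (a (l 16780528) (l 16781768))) (a (a (a (a (l 537789823) (l 537844351)) (a (l 16778512) (l 16778696))) (a (a (l 16778912) (l 16779168)) (a (l 16779456) (l 16779784)))) (a (l 16780584) (l 16781824)))) (b (a (a (a (a (l 537719679) (l 537788287)) (a (l 16778568) (l 16778760))) (a (a (l 16778976) (l 16779224)) (a (l 16779512) (l 16779832)))) (l 16781256)) (a (a (a (a (l 537673599) (l 537736575)) (a (l 16778624) (l 16778816))) (a (a (l 16779024) (l 16779272)) (a (l 16779560) (l 16779880)))) (l 16781304))))), by decide +kernel⟩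

def k36_A00pm_012_s1 : ∃ t, chk3 f_A00pm_012_s1 t 82 22 1 = true :=
  ⟨(a (b (l 3) (a (b (l 3) (b (l 3) (a (l 3) (c (l 537111935) (l 537148543))))) (c (a (b (a (l 3) (b (l 3) (l 537403775))) (l 537483135)) (b (a (l 537482623) (l 537503615)) (l 537259903))) (a (b (a (l 3) (b (l 3) (l 537175935))) (a (l 537151103) (l 537144191))) (b (a (l 537175935) (l 537165695)) (l 537131903)))))) (a (b (a (b (l 3) (a (a (l 3) (c (l 537748095) (l 537181823))) (c (l 537494143) (l 537170559)))) (a (b (l 3) (c (l 537781631) (l 537154943))) (a (b (b (l 3) (b (l 3) (l 537207679))) (c (l 537795967) (l 537142911))) (b (b (l 3) (c (b (c (l 538434943) (l 537544831)) (l 537934207)) (b (c (l 537185663) (l 537118847)) (l 537141631)))) (c (l 537805439) (l 537134975)))))) (a (c (b (l 537266047) (l 537304447)) (b (l 537147775) (l 537113983))) (c (b (l 537306751) (l 537347967)) (b (l 537121919) (l 537092735))))) (b (c (b (a (b (l 538083967) (a (b (c (l 538448767) (l 537561471)) (a (l 537944447) (l 537955199))) (b (l 538020991) (l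 537970815)))) (b (l 538123903) (b (l 538051711) (l 537465215)))) (a (a (b (a (l 537867135) (l 537877375)) (l 537767551)) (b (l 537892991) (l 537788543))) (b (a (l 537914239) (l 537935743)) (l 537283967)))) (b (a (b (l 537190783) (a (b (b (l 537167487) (l 537160319)) (a (l 537147263) (l 537152895))) (b (l 537177471) (l 537162623)))) (b (l 537216383) (b (l 537196415) (l 537181567)))) (a (a (b (a (l 537134463) (l 537135487)) (l 537122175)) (b (l 537140607) (l 537122943))) (b (a (l 537151103) (l 537162879)) (l 537131903))))) (a (b (a (l 537424511) (l 537159807)) (c (l 537391487) (l 537073535))) (b (c (l 537391743) (a (l 537102719) (l 537107327))) (c (l 537437311) (l 537071487))))))), by decide +kernel⟩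

def k37_A00pm_012_s1 : ∃ t, chk3 f_A00pm_012_s1 t 166 22 1 = true :=
  ⟨(a (b (b (a (c (b (l 538163583) (a (l 538058111) (l 538078847))) (b (l 537239167) (a (l 537208191) (l 537219711)))) (b (a (l 537380223) (l 537399679)) (c (a (l 538099327) (l 538119807)) (a (l 537230207) (l 537239679))))) (a (c (b (l 537431167) (l 537864575)) (b (l 537180031) (l 537151103))) (a (c (l 537949311) (l 537181823)) (c (l 537971071) (l 537192063))))) (a (b (c (l 537705343) (l 537116287)) (c (l 537484671) (l 537079423))) (b (c (l 537482623) (l 537132671)) (c (l 537532543) (l 537091455))))) (a (b (b (a (b (l 537418367) (c (l 538140543) (l 537248127))) (b (a (l 537432447) (l 537445503)) (a (l 537403519) (l 537416575)))) (a (c (l 537992831) (l 537201535)) (b (c (l 538065023) (l 537228159)) (l 537335423)))) (a (b (l 537266303) (l 537212543)) (c (l 537702015) (l 537129087)))) (c (b (a (b (a (l 538223999) (l 538236287)) (b (l 538088575) (l 537988479))) (b (l 537719167) (b (l 538115711) (l 538016127)))) (a (l 537727615) (l 537756287)))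 (b (a (b (a (l 537286527) (l 537309567)) (b (l 537256063) (l 537222271))) (b (a (l 537339263) (l 537376127)) (b (l 537309311) (l 537271679)))) (a (l 537150079) (l 537189503)))))), by decide +kernel⟩

def k38_A00pm_012_s1 : ∃ t, chk3 f_A00pm_012_s1 t 167 22 1 = true :=
  ⟨(b (b (b (a (a (a (a (l 537629567) (l 537687935)) (a (l 16778672) (l 16778864))) (a (a (l 16779072) (l 16779320)) (a (l 16779600) (l 16779920)))) (l 16781336)) (a (a (a (a (l 537587327) (l 537641343)) (a (l 16778720) (l 16778904))) (a (a (l 16779112) (l 16779352)) (a (l 16779640) (l 16779952)))) (l 16781360))) (b (a (a (a (a (l 537542527) (l 537592703)) (a (l 16778752) (l 16778928))) (a (a (l 16779144) (l 16779376)) (a (l 16779664) (l 16779976)))) (l 16781376)) (a (a (a (a (l 537493375) (l 16778600)) (c (l 16779840) (l 16778448))) (a (a (l 16779144) (l 16779384)) (a (l 16779664) (l 16779976)))) (l 16781360)))) (b (c (a (a (a (l 537894015) (l 537930367)) (a (b (l 16780064) (l 16780000)) (a (l 16780256) (l 16780488)))) (l 16782000))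 (a (a (a (l 537284735) (l 537369727)) (a (a (l 16778688) (l 16778896)) (a (l 16779136) (l 16779408)))) (l 16780632))) (b (a (a (a (l 16778544) (l 16778848)) (a (b (l 16779240) (l 16779240)) (a (l 16779624) (l 16779928)))) (l 16781264)) (a (a (a (l 16778544) (l 16778840)) (a (l 16781848) (a (l 16779608) (l 16779904)))) (l 16781224))))), by decide +kernel⟩

def k39_A00pm_012_s1 : ∃ t, chk3 f_A00pm_012_s1 t 82 23 1 = true :=
  ⟨(a (b (a (b (c (a (b (l 537072767) (l 537043839)) (l 537070207)) (a (c (l 537113727) (l 537118591)) (l 537111167))) (b (c (l 537556607) (a (l 537079167) (l 537073279))) (a (b (l 537038095) (c (l 536976511) (l 537044607))) (c (l 536998783) (l 537046655))))) (b (a (c (l 537081215) (l 537101439)) (c (l 537091199) (l 537089663))) (c (a (l 537026175) (l 537038207)) (a (l 537052543) (l 537044095))))) (a (b (a (b (c (a (l 536948863) (l 536956799)) (a (l 537025151) (l 537024127))) (c (a (l 536917887) (l 536925823)) (a (l 536994687) (l 536994943)))) (b (c (b (l 536975743) (l 536960127))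 (l 537021455)) (c (l 536937087) (l 536993663)))) (a (c (b (a (l 536887167) (l 536895103)) (l 537396751)) (b (a (l 536962431) (l 536963711)) (l 536929919))) (c (b (l 536906367) (l 536875903)) (b (l 536964223) (l 536933247))))) (b (b (a (c (l 536982655) (l 537016191)) (l 537416831)) (a (c (l 536952191) (l 536991103)) (l 536987775))) (a (c (b (l 536921983) (l 536891775)) (b (l 536963455) (l 536934271))) (c (l 536921727) (l 536946815)))))) (b (a (a (b (l 537366143) (c (l 537048959) (l 537033343))) (b (l 537091711) (l 537585791))) (a (c (l 537357439) (l 537023359)) (c (b (l 537202559) (l 537091455)) (l 537019775)))) (a (b (a (b (l 537015423) (l 536990591)) (b (l 537015423) (l 537260415))) (a (c (l 536936575) (l 536943231)) (c (l 536950399) (l 536937599)))) (b (a (c (b (l 16777584) (l 16777552)) (l 536969599)) (c (b (l 16777680) (l 16777656)) (l 536968319))) (a (c (l 536964991) (l 536931455)) (c (l 536987519) (l 16777416))))))), by decide +kernel⟩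

def k40_A00pm_012_s1 : ∃ t, chk3 f_A00pm_012_s1 t 83 46 1 = true :=
  ⟨(a (a (a (c (b (l 537252223) (l 537123455)) (l 537024127)) (a (c (l 537445247) (l 537032575)) (c (l 537601151) (l 537037695)))) (a (c (a (b (l 537341567) (l 537196927)) (b (l 537367167) (l 537220479))) (a (l 537043327) (l 537049727))) (a (c (b (l 537394815) (l 537252991)) (l 537065087)) (c (b (l 537425023) (l 537298303)) (l 537094271))))) (b (b (a (a (a (l 16778544) (l 16778832)) (a (b (l 16779216) (l 16779208)) (a (l 16779584) (l 16779872)))) (l 16781176)) (a (a (a (l 16778528) (l 16781440)) (a (b (l 16779192) (l 16781808)) (a (l 16779560) (l 16779840)))) (l 16783744))) (a (b (a (a (l 16781136) (l 16781416)) (a (c (l 16779672) (l 16778632)) (a (l 16779520) (l 16779800)))) (a (a (c (l 16778896) (l 16778048)) (c (l 16779224) (l 16778280))) (a (a (l 16779032) (l 16779240)) (a (l 16782104) (l 16779752))))) (b (a (l 16780504) (l 16781616)) (b (l 16786248) (l 16786216)))))), by decide +kernel⟩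

def k41_A00pm_012_s1 : ∃ t, chk3 f_A00pm_012_s1 t 83 47 1 = true :=
  ⟨(a (a (a (b (c (b (l 16777816) (l 16777784)) (l 536972415)) (a (l 537518207) (l 538064767))) (b (c (b (l 16777992) (l 16777960)) (l 536980607)) (c (b (l 16777912) (l 16777848)) (l 16777496)))) (a (b (c (a (l 537141375) (l 537163647)) (a (l 16777624) (l 16777664))) (a (b (l 16777840) (l 16777784)) (b (l 16780536) (l 16777864)))) (b (a (c (l 537193855) (l 16777728)) (c (l 537503103) (l 16777840))) (a (b (l 16780640) (l 16777960)) (b (l 16780792) (l 16778112)))))) (b (b (c (b (a (a (a (l 16778872) (l 16779192)) (a (l 16779608) (a (l 16780008) (l 16780304)))) (l 16781672)) (a (a (a (l 16778856) (l 16779176)) (a (l 16779584) (a (l 16779976) (l 16780280)))) (l 16781632))) (b (c (a (a (a (l 16778248) (l 16778496)) (a (l 16778824) (a (l 16779152) (l 16779408)))) (l 16780552)) (a (a (a (l 16777784) (l 16777984)) (a (l 16778264) (a (l 16778544) (l 16778768)))) (l 16779768))) (a (a (a (l 16778000) (l 16778224)) (a (l 16778520) (a (l 16778824)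 (l 16779056)))) (l 16780120)))) (c (a (a (a (l 16778824) (l 16779144)) (a (c (l 16779792) (l 16779296)) (a (l 16779936) (l 16780232)))) (a (l 16780976) (l 16782160))) (a (a (a (l 16777968) (l 16778192)) (a (l 16778480) (a (l 16778776) (l 16779008)))) (l 16780056)))) (b (c (a (a (a (l 16778768) (l 16779080)) (a (l 16779480) (a (l 16779864) (l 16780152)))) (a (l 16780888) (l 16782048))) (a (a (a (l 16777920) (l 16778136)) (a (l 16778424) (a (l 16778712) (l 16778936)))) (l 16779960))) (a (a (a (l 16778312) (l 16781192)) (a (c (l 16779400) (l 16778360)) (a (l 16779232) (l 16779488)))) (c (l 16781360) (l 16779864)))))), by decide +kernel⟩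

def k42_A00pm_012_s1 : ∃ t, chk3 f_A00pm_012_s1 t 21 4 1 = true :=
  ⟨(l 2), by decide +kernel⟩

def k43_A00pm_012_s1 : ∃ t, chk3 f_A00pm_012_s1 t 21 10 1 = true :=
  ⟨(a (a (b (a (b (l 2) (a (b (l 2) (b (l 2) (b (l 2) (l 16780472)))) (l 2))) (l 2)) (a (b (b (a (b (b (l 16780552) (l 16780624)) (b (l 16780680) (l 16780728))) (c (b (l 16786344) (l 16786512)) (b (l 16784696) (l 16784800)))) (b (c (l 16782760) (a (l 16782744) (l 16784872))) (c (l 16785488) (l 16781240)))) (c (b (b (l 16785592) (l 16785680)) (b (l 16785760) (l 16785824))) (b (b (l 16783904) (l 16783936)) (b (l 16783960) (l 16783976))))) (b (c (b (b (l 16790080) (l 16790280)) (b (l 16790440) (l 16790568))) (b (b (c (l 16788384) (l 16784616)) (c (l 16788528) (l 16784736))) (b (c (l 16788632) (l 16787424)) (l 16785472)))) (b (c (l 16790720) (b (l 16788128) (l 16788160))) (b (l 16789512) (l 16789544)))))) (b (l 2) (a (b (b (c (l 16795168) (b (l 2) (l 16786872))) (c (l 16795544) (b (l 16792232) (l 16792296)))) (b (c (l 16795784) (b (l 16792344)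 (l 16792352))) (c (l 16795928) (l 16792360)))) (b (b (l 2) (c (l 16800584) (b (l 16796432) (l 16796528)))) (b (c (l 16800848) (b (l 16796568) (l 16796584))) (c (l 16800984) (l 16796568))))))) (b (l 2) (a (c (b (b (l 2) (a (l 16805640) (l 2))) (b (l 16798000) (l 16808656))) (b (b (l 2) (a (b (l 2) (l 16800768)) (l 2))) (b (a (b (l 16800832) (l 16800848)) (c (l 16806632) (l 16803664))) (b (l 16797744) (l 16802952))))) (b (l 2) (b (c (l 16818792) (a (l 16809480) (l 2))) (c (l 16819016) (a (l 16809488) (l 16813896)))))))), by decide +kernel⟩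

def k44_A00pm_012_s1 : ∃ t, chk3 f_A00pm_012_s1 t 42 11 1 = true :=
  ⟨(a (b (b (a (b (b (l 16779688) (l 16779704)) (b (l 16784944) (l 16779672))) (b (c (l 16790992) (l 16788160)) (c (l 16791008) (l 16788072)))) (a (b (b (l 16779624) (l 16779552)) (b (c (l 16785784) (l 16783648)) (l 16782016))) (b (c (l 16790912) (l 16787888)) (b (l 16789240) (l 16789112))))) (b (a (b (b (c (l 16785640) (l 16783448)) (c (l 16785552) (l 16783336))) (b (c (l 16785456) (l 16783216)) (c (l 16785344) (l 16783096)))) (b (b (l 16788976) (l 16788824)) (b (l 16788664) (c (l 16790096) (l 16786880))))) (a (b (c (b (l 16782600) (a (l 16783920) (l 16786248))) (b (l 16782960) (l 16782816))) (c (b (c (l 16785480) (l 16784376)) (l 16784768)) (b (l 16782672) (l 16782520)))) (b (c (b (l 16789920) (l 16789728)) (b (l 16786688) (l 16786488))) (c (b (l 16789520) (l 16789288)) (b (l 16786280) (l 16786064))))))) (b (b (b (c (l 16793288) (b (l 16794416) (l 16794368))) (a (l 16788864) (l 16798688))) (b (c (l 16793136) (b (l 16794080) (l 16793920)))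 (c (a (l 16795664) (l 16800624)) (b (l 16793752) (l 16793552))))) (b (b (b (c (l 16797864) (l 16793328)) (c (l 16797672) (l 16793096))) (b (c (l 16792208) (l 16792856)) (c (l 16791976) (l 16792592)))) (b (c (b (a (l 16794616) (l 16799352)) (a (l 16794376) (l 16799056))) (b (a (l 16790432) (l 16794232)) (a (l 16790184) (l 16793928)))) (c (b (a (l 16794112) (l 16798744)) (a (l 16793824) (l 16798408))) (b (a (l 16789912) (l 16793608)) (a (l 16789640) (l 16793280)))))))), by decide +kernel⟩

def k45_A00pm_012_s1 : ∃ t, chk3 f_A00pm_012_s1 t 43 11 1 = true :=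
  ⟨(b (b (b (a (b (l 16800536) (l 16795256)) (c (l 16819072) (b (l 16811576) (l 16811480)))) (a (c (l 16808640) (l 16802632)) (c (l 16818968) (l 16811240)))) (b (a (c (l 16808456) (l 16802304)) (l 16804296)) (a (c (l 16808112) (l 16796592)) (c (l 16818336) (l 16810296))))) (b (b (a (c (l 16797168) (b (l 16801432) (l 16801120))) (c (l 16817776) (l 16809608))) (a (c (b (l 16807216) (l 16806896)) (b (l 16800784) (l 16800432))) (c (l 16806592) (b (l 16809024) (l 16808592))))) (b (a (c (b (l 16806560) (l 16806200)) (b (l 16800064) (l 16799680))) (c (b (l 16816456) (l 16816008)) (b (l 16808136) (l 16807656)))) (a (c (b (l 16800568) (l 16805400)) (b (l 16799288) (l 16798872))) (c (b (l 16815528) (l 16815024)) (b (l 16807160) (l 16806656))))))), by decide +kernel⟩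

def k46_A00pm_012_s1 : ∃ t, chk3 f_A00pm_012_s1 t 11 2 1 = true :=
  ⟨(b (l 2) (b (b (l 2) (a (a (a (a (a (b (l 2) (b (l 2) (l 16821408))) (l 2)) (l 2)) (l 2)) (l 2)) (l 2))) (a (b (a (a (b (c (b (l 16829648) (l 16829560)) (b (c (l 16822752) (l 16818136)) (l 16820144))) (b (l 16813968) (l 16813432))) (b (c (b (l 16840416) (l 16840376)) (b (l 16829560) (l 16829288))) (b (c (l 16840096) (l 16828792)) (l 16812856)))) (b (a (c (l 16851408) (b (l 2) (l 16838664))) (l 2)) (a (c (l 16850976) (b (l 16838192) (l 16837488))) (b (l 16834184) (l 16833624))))) (a (b (b (c (l 16823016) (a (l 16818272) (l 16827240))) (a (c (l 16827400) (l 16817344)) (c (l 16838056) (l 16826232)))) (b (a (c (l 16815960) (b (l 16816576) (l 16816016))) (c (l 16836992) (l 16825056))) (a (c (b (l 16825616) (l 16825024)) (b (l 16815424) (l 16814824))) (c (l 16835768) (l 16813272))))) (a (b (b (l 16843240) (l 16821256)) (b (c (l 16847912) (l 16834200)) (c (l 16846568) (l 16832768)))) (b (b (l 16832792) (l 16831704)) (b (l 16830440) (l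 16828984)))))) (b (a (a (b (l 2) (b (l 2) (l 16844392))) (l 2)) (l 2)) (a (b (a (b (l 16843600) (l 16842528)) (b (l 16875656) (l 16853656))) (a (b (l 16862160) (l 16839656)) (b (l 16852336) (l 16871696)))) (b (a (b (l 2) (l 16886040)) (l 2)) (c (b (l 16901312) (l 16899888)) (b (l 16858872) (l 16878216))))))))), by decide +kernel⟩

def k47_A00pm_012_s1 : ∃ t, chk3 f_A00pm_012_s1 t 80 12 1 = true :=
  ⟨(b (b (a (l 3) (a (l 3) (c (l 536622207) (l 536716671)))) (a (a (l 3) (b (l 3) (c (l 536360063) (l 536454783)))) (c (a (c (l 536396671) (l 536467327)) (l 536472703)) (a (l 536526207) (l 536557695))))) (a (b (c (a (b (a (b (b (l 3) (l 536248447)) (l 536219519)) (b (c (a (l 536228991) (l 536238719)) (a (l 536302207) (l 536311423))) (l 536233231))) (a (l 536161151) (l 536177023))) (b (b (a (l 536292623) (l 536312191)) (a (l 536252543) (l 536271743))) (a (l 536193919) (l 536212351)))) (a (b (a (c (l 536317199) (l 536338815)) (b (c (l 536354831) (l 536378383)) (l 536328463))) (a (l 536247935) (l 536265599)))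 (b (b (a (l 536386063) (l 536402559)) (a (l 536344959) (l 536361855))) (a (l 536283007) (l 536300159))))) (a (c (b (l 536091775) (l 536015487)) (b (l 536173183) (l 536090495))) (c (b (l 536126079) (l 536050303)) (b (l 536208767) (l 536126847))))) (b (b (a (c (b (l 536340863) (l 536300927)) (b (l 536426623) (l 536386175))) (c (l 536360319) (l 536438911))) (a (c (l 536241167) (l 536325391)) (c (l 536280703) (l 536359039)))) (a (c (b (l 536163711) (l 536088191)) (b (l 536244095) (l 536162687))) (c (b (l 536203391) (l 536127615)) (b (l 536278911) (l 536198527))))))), by decide +kernel⟩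

def k48_A00pm_012_s1 : ∃ t, chk3 f_A00pm_012_s1 t 81 12 1 = true :=
  ⟨(b (a (c (a (b (l 536656255) (l 536510079)) (b (l 536689279) (l 536546943))) (b (a (l 536745343) (l 536773503)) (a (l 536588927) (l 536619903)))) (a (c (b (l 537258367) (l 536583295)) (b (l 536800639) (l 536650367))) (a (c (b (c (l 536712063) (l 536775039)) (l 536611967)) (b (l 536821887) (l 536674175))) (b (c (b (c (l 536761471) (l 536824191)) (l 536731263)) (b (l 536870783) (l 536799103))) (c (c (l 536600447) (l 536653439)) (l 536688511)))))) (a (b (c (a (b (l 536399743) (l 536321663)) (c (l 536369535) (l 536424831))) (a (b (l 536471679) (l 536392831)) (b (l 536504447) (l 536426623)))) (c (a (l 536204671) (l 536246143)) (a (l 536272767) (l 536308095)))) (b (a (c (c (l 536411263) (l 536462975)) (l 536497279)) (c (a (l 536471423) (c (l 536465279) (l 536511871))) (a (l 536523135) (l 536539263)))) (a (c (c (l 536260479) (l 536310655)) (l 536343423)) (c (a (l 536321919) (l 536343423)) (b (l 16774992) (l 16774256))))))), by decide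 +kernel⟩

def k49_A00pm_012_s1 : ∃ t, chk3 f_A00pm_012_s1 t 40 26 1 = true :=
  ⟨(a (b (a (a (c (l 535899775) (l 535966079)) (c (l 535935871) (l 536002943))) (c (a (l 535974271) (l 536014207)) (a (l 536039551) (l 536076415)))) (a (c (b (a (l 535787647) (l 535825023)) (a (l 535693951) (l 535733887))) (b (l 535863055) (l 535767423))) (c (b (a (l 535863935) (l 535904639)) (a (l 535774847) (l 535817087))) (b (l 535936639) (l 535844991))))) (a (b (c (a (c (l 536026751) (l 536078463)) (c (l 536070527) (l 536119423))) (a (l 536113279) (l 536150143))) (c (b (a (l 535946623) (l 535990031)) (a (l 535860607) (l 535905295))) (b (a (l 16771680) (l 16771488)) (a (l 16770320) (l 16770128))))) (b (a (c (c (l 536115583) (l 536161151)) (l 536187519)) (c (a (b (l 16773144) (l 16772144)) (b (l 16773120) (l 16772120))) (b (l 16773384) (l 16772384)))) (a (c (b (c (l 16770896) (l 16771200)) (c (l 16769520) (l 16769832))) (b (l 16771344) (l 16769976))) (c (b (c (l 16770832) (l 16771120)) (c (l 16769464) (l 16769760))) (b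 (l 16771240) (l 16769872))))))), by decide +kernel⟩

def k50_A00pm_012_s1 : ∃ t, chk3 f_A00pm_012_s1 t 40 27 1 = true :=
  ⟨(a (b (a (b (c (a (l 16772152) (l 16769152)) (l 535659535)) (c (l 535494415) (l 16773088))) (c (b (a (l 16768816) (l 16768552)) (a (l 16766896) (l 16766600))) (b (l 536009087) (l 16767160)))) (a (c (b (l 535404303) (l 16763312)) (b (l 16765888) (l 16763808))) (c (b (c (l 16764400) (l 16764832)) (l 16762472)) (b (l 16765120) (l 16762968))))) (c (a (b (a (b (l 16768328) (l 16766368)) (b (l 535806079) (l 16766200))) (b (c (l 16763872) (l 16764304)) (l 16761888))) (b (a (b (l 535853839) (l 16766088)) (b (c (l 16767792) (l 16768120)) (l 16766048))) (a (b (l 16763928) (l 16761640)) (b (l 16763872) (l 16761560))))) (a (b (b (a (l 16768680) (l 16768488)) (l 16771896)) (b (l 16764552) (l 16762336))) (b (a (b (l 16768336) (l 16766416)) (b (l 16768224) (l 16766320))) (b (l 16764208) (l 16761928)))))), by decide +kernel⟩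

def k51_A00pm_012_s1 : ∃ t, chk3 f_A00pm_012_s1 t 82 24 1 = true :=
  ⟨(a (a (b (a (c (b (c (l 536779903) (l 536838271)) (l 536748415)) (b (l 536878975) (l 536809343))) (b (c (c (l 536799871) (l 536851839)) (b (l 536901247) (l 536868479))) (c (c (l 536738175) (l 536787839)) (l 536817535)))) (c (a (c (l 536620671) (l 536670335)) (c (l 536641919) (l 536687231))) (a (l 536701055) (l 536712063)))) (b (b (a (c (a (l 536842111) (l 536850303)) (l 536888191)) (c (l 536862079) (l 536889983))) (a (c (b (l 536799871) (l 16776912)) (l 536823935)) (c (l 536801407) (l 536828799)))) (a (c (c (l 536663935) (l 536703871)) (l 536721791)) (c (b (l 536739199) (l 536675711)) (b (l 536764543) (l 16776496)))))) (a (b (a (b (c (l 536878207) (l 536889983)) (c (l 536818815) (l 536831871))) (b (c (l 536893823) (l 536887935)) (c (l 536835967) (l 16777088)))) (a (c (b (l 536757887) (l 536695423)) (b (l 16776832) (l 16776488))) (c (b (l 536776319) (l 16776488)) (b (l 16776824) (l 16776480))))) (b (a (b (b (l 16777376) (l 16777296))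 (c (l 16777160) (l 16777080))) (b (c (l 16777448) (l 16777288)) (c (l 16777248) (l 16777096)))) (a (c (b (l 16776896) (l 16776552)) (b (l 16776816) (l 16776472))) (c (b (l 16776984) (l 16776648)) (l 536756351)))))), by decide +kernel⟩

def k52_A00pm_012_s1 : ∃ t, chk3 f_A00pm_012_s1 t 82 25 1 = true :=
  ⟨(a (b (a (c (c (a (l 536487295) (l 536510079)) (b (l 536576127) (l 16775472))) (b (l 536598143) (l 16775568))) (a (c (b (l 536589695) (l 16775416)) (l 536581247)) (c (b (l 536610687) (l 16775448)) (l 536593535)))) (a (c (c (b (l 536390527) (l 16773840)) (b (l 16774832) (l 16774080))) (b (l 16774936) (l 16774192))) (c (a (b (l 16774768) (l 16774008)) (b (l 16774800) (l 16774040))) (b (l 16774904) (l 16774152))))) (c (a (b (a (b (l 16776016) (l 16775488)) (b (l 16776064) (l 16775536))) (a (b (l 16774840) (l 16774088)) (b (l 16774896) (l 16774144)))) (b (a (b (l 16776128) (l 16775608)) (b (l 16776224) (l 16775712))) (b (l 16775008) (l 16774264)))) (a (b (b (a (l 16776056) (l 16776048)) (l 16775504))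 (b (l 16774872) (l 16774128))) (b (b (l 16776032) (l 16775504)) (b (l 16774880) (l 16774144)))))), by decide +kernel⟩

def k53_A00pm_012_s1 : ∃ t, chk3 f_A00pm_012_s1 t 83 24 1 = true :=
  ⟨(a (a (b (a (c (b (l 16777576) (l 16777376)) (b (l 16777320) (l 16777120))) (c (b (l 16777744) (l 16777544)) (b (l 16777360) (l 16777168)))) (a (c (b (l 16777112) (l 16776776)) (b (l 16776856) (l 16776512))) (b (c (l 16777280) (l 16776904)) (l 16782048)))) (c (a (b (b (c (l 16778032) (l 16777840)) (l 16777744)) (b (l 16777480) (l 16777144))) (b (b (b (l 16778272) (l 16778184)) (l 16778032)) (b (l 16777768) (l 16777432)))) (a (b (b (l 16777424) (l 16777232)) (b (l 16776968) (l 16776632))) (b (b (l 16777552) (l 16777360)) (b (l 16777096) (l 16776752)))))) (b (b (b (c (b (a (a (a (l 16778640) (l 16778944)) (a (l 16779336) (a (l 16779704) (l 16779984)))) (l 16781264)) (a (a (l 16781352) (a (l 16779288) (a (l 16779656) (l 16779936)))) (l 16781192))) (a (a (l 16777880) (a (l 16778280) (a (l 16778560) (l 16778776)))) (l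 16779752))) (c (a (a (a (l 16778528) (l 16778832)) (a (l 16779208) (a (l 16779568) (l 16779848)))) (l 16781088)) (a (a (l 16777800) (a (l 16778184) (l 16778560))) (l 16779632)))) (c (a (a (a (l 16778376) (l 16778664)) (a (l 16779040) (a (l 16779384) (l 16779656)))) (l 16780864)) (c (a (a (l 16777888) (a (l 16778304) (l 16778688))) (l 16779800)) (a (a (l 16777392) (a (l 16777728) (l 16778064))) (l 16779016))))) (c (b (a (a (l 16783472) (a (l 16778744) (a (l 16779080) (l 16779336)))) (l 16780496)) (b (a (a (l 16777968) (a (l 16778472) (l 16778920))) (l 16780168)) (a (a (l 16777776) (a (l 16778272) (l 16778712))) (l 16779936)))) (b (c (a (a (l 16777616) (a (l 16778016) (l 16778392))) (l 16779456)) (a (a (l 16777112) (a (l 16777440) (l 16777760))) (l 16778672))) (a (a (l 16777032) (a (l 16777384) (l 16777712))) (l 16778648)))))), by decide +kernel⟩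

def k54_A00pm_012_s1 : ∃ t, chk3 f_A00pm_012_s1 t 83 25 1 = true :=
  ⟨(a (a (b (a (b (c (l 16776360) (l 16776080)) (l 16775760)) (b (l 16776384) (l 16775880))) (a (b (l 16775144) (l 16774424)) (b (l 16775264) (l 16774544)))) (a (b (b (l 16776520) (l 16776016)) (b (l 16775416) (l 16774696))) (b (b (l 16776728) (l 16776224)) (b (l 16775624) (l 16774920))))) (c (c (b (b (a (a (l 16777616) (a (l 16778136) (l 16778592))) (l 16779848)) (a (a (l 16777096) (a (l 16777600) (l 16778032))) (l 16779232))) (a (a (b (l 16776472) (l 16775728)) (a (l 16776624) (l 16777032))) (l 16778144))) (b (c (b (a (a (l 16777376) (a (l 16777848) (l 16778256))) (l 16779400)) (a (a (l 16776872) (a (l 16777320) (l 16777712))) (l 16778800))) (a (a (b (l 16777192) (l 16776680)) (a (l 16777400) (a (l 16777672) (l 16777880)))) (a (l 16778400) (l 16779240)))) (a (a (l 16775856) (a (l 16776264) (l 16776616))) (l 16777592)))) (c (b (a (a (b (l 16776856) (l 16776344)) (a (l 16777008) (a (l 16777256) (l 16777440)))) (a (l 16777904) (l 16778656)))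 (a (a (l 16775424) (a (l 16775768) (l 16781312))) (l 16776912))) (b (c (a (a (b (l 16776472) (l 16775952)) (a (l 16776560) (a (l 16776776) (l 16776944)))) (l 16782928)) (a (a (b (l 16776176) (l 16775648)) (a (l 16776232) (a (l 16776424) (l 16776576)))) (l 16777264))) (a (a (l 16774864) (a (l 16775144) (l 16780640))) (l 16776104)))))), by decide +kernel⟩

def k55_A00pm_012_s1 : ∃ t, chk3 f_A00pm_012_s1 t 82 13 1 = true :=
  ⟨(b (a (b (a (c (c (b (l 16772952) (l 16771952)) (b (l 16773216) (l 16772224))) (b (l 16773320) (l 16772320))) (c (c (b (l 16773008) (l 16772016)) (b (l 16773232) (l 16772248))) (b (l 16773280) (l 16772280)))) (a (c (b (c (l 16770824) (l 16771096)) (c (l 16769464) (l 16769744))) (b (l 16771168) (l 16769800))) (c (b (c (l 16770896) (l 16771128)) (c (l 16769552) (l 16769792))) (b (l 16771136) (l 16769768))))) (a (b (c (a (b (l 16773216) (l 16772240)) (b (l 16773280) (l 16772304))) (b (l 16773264) (l 16772264))) (c (b (c (l 16771040) (l 16771216)) (c (l 16769712) (l 16769888))) (b (l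 16771128) (l 16769776)))) (b (c (b (l 16773408) (l 16772448)) (b (l 16773280) (l 16772296))) (c (b (l 16771360) (l 16770048)) (b (l 16771176) (l 16769840)))))) (a (c (b (a (b (c (l 16767816) (l 16768112)) (l 16766072)) (b (c (l 16767912) (l 16768168)) (l 16766168))) (a (b (l 16763896) (l 16761568)) (b (l 16764000) (l 16761656)))) (b (a (b (l 16768160) (l 16766264)) (b (l 16768136) (l 16766248))) (b (l 16764080) (l 16761752)))) (a (b (c (b (c (l 16768096) (l 16768288)) (l 16766336)) (b (l 16768160) (l 16766280))) (c (b (l 16764184) (l 16761856)) (b (l 16764144) (l 16761816)))) (b (c (b (l 16768464) (l 16766600)) (b (l 16768240) (l 16766384))) (c (b (l 16764488) (l 16762152)) (b (l 16764272) (l 16761936))))))), by decide +kernel⟩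

def k56_A00pm_012_s1 : ∃ t, chk3 f_A00pm_012_s1 t 166 13 1 = true :=
  ⟨(b (c (a (b (b (l 16773712) (l 16772760)) (b (l 16771688) (l 16770400))) (a (b (b (l 16774056) (l 16773112)) (b (l 16772048) (l 16770776))) (b (b (l 16774352) (l 16773416)) (b (l 16772352) (l 16771088))))) (b (a (b (l 16773384) (l 16772416)) (b (l 16773584) (l 16772632))) (a (b (l 16771312) (l 16769992)) (b (l 16771544) (l 16770248))))) (a (c (b (b (l 16768832) (l 16767000)) (b (l 16764912) (l 16762592))) (b (b (l 16768408) (l 16766576)) (b (l 16764488) (l 16762168)))) (a (b (b (c (l 16769216) (l 16768616)) (l 16767224)) (b (l 16765160) (l 16762864))) (b (b (l 16769280) (l 16767488)) (b (l 16765440) (l 16763152)))))), by decide +kernel⟩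

def k57_A00pm_012_s1 : ∃ t, chk3 f_A00pm_012_s1 t 334 13 1 = true :=
  ⟨(a (b (b (b (l 16774432) (l 16773496)) (b (c (l 16772768) (l 16771912)) (l 16771160))) (b (b (l 16769616) (l 16767816)) (b (l 16765776) (c (l 16763528) (l 16762680))))) (a (b (b (b (l 16774792) (l 16773840)) (b (l 16772768) (l 16771480))) (b (b (l 16769928) (l 16768128)) (b (l 16766072) (c (l 16763344) (l 16762392))))) (a (a (b (b (b (l 16774976) (l 16774016)) (b (l 16772936) (l 16771640))) (b (c (l 16769648) (l 16768600)) (b (l 16766208) (l 16762656)))) (a (b (b (b (l 16775040) (l 16774072)) (b (l 16772984) (l 16771688))) (b (c (l 16769696) (l 16768640)) (b (l 16766248) (l 16762424)))) (a (b (b (b (l 16775064) (l 16774104)) (b (l 16773016) (l 16771712))) (b (c (l 16769728) (l 16768656)) (b (l 16766264) (l 16762280)))) (b (b (b (l 16775088) (l 16774120)) (b (l 16773032) (l 16771728))) (b (c (l 16769744) (l 16768672)) (b (l 16766264) (l 16762168))))))) (b (b (b (l 16775184) (l 16774208)) (b (l 16773112) (l 16771808))) (b (c (l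 16769824) (l 16768728)) (b (l 16766144) (l 16761672))))))), by decide +kernel⟩

def k58_A00pm_012_s1 : ∃ t, chk3 f_A00pm_012_s1 t 335 13 1 = true :=
  ⟨(a (a (b (b (b (l 16775432) (l 16774448)) (b (l 16773336) (l 16772016))) (b (b (l 16770432) (a (l 16768528) (a (l 16768560) (c (l 16768848) (l 16767680))))) (b (a (c (l 16766200) (l 16765112)) (a (c (l 16765488) (l 16764376)) (l 16763968))) (c (l 16759848) (a (l 16759936) (l 16758160)))))) (a (a (b (b (c (l 16775720) (l 16774496)) (b (l 16773520) (l 16772184))) (b (b (l 16770592) (l 16768384)) (b (l 16763464) (l 16757760)))) (a (b (b (c (l 16775784) (l 16774544)) (b (l 16773576) (l 16772240))) (b (b (l 16770640) (l 16768432)) (b (l 16763504) (l 16757800)))) (a (b (b (c (l 16775824) (l 16774576)) (b (l 16773600) (l 16772264))) (b (b (l 16770664) (l 16768456)) (b (l 16763528) (l 16757816)))) (b (b (b (l 16775760) (l 16774752)) (b (l 16773624) (l 16772280))) (b (b (l 16770680) (l 16768472)) (b (l 16763544) (l 16757832))))))) (b (b (b (l 16775848) (l 16774840))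 (b (l 16773704) (l 16772360))) (b (b (l 16770752) (l 16768544)) (b (l 16763616) (l 16757896)))))) (b (b (b (l 16776272) (l 16775232)) (b (l 16774072) (l 16772704))) (b (b (l 16771072) (l 16768848)) (b (l 16763920) (l 16758168))))), by decide +kernel⟩

def k59_A00pm_012_s1 : ∃ t, chk3 f_A00pm_012_s1 t 21 12 1 = true :=
  ⟨(a (b (b (c (b (a (b (a (l 16784584) (l 16789040)) (a (l 16784384) (l 16788776))) (b (a (l 16793520) (l 16798048)) (l 16795424))) (a (a (b (l 16784176) (l 16783952)) (l 16788352)) (b (l 16795048) (l 16794656)))) (b (a (b (a (l 16782352) (l 16785832)) (l 16783872)) (b (l 16791128) (l 16790800))) (a (b (l 16783656) (l 16783416)) (b (l 16790456) (l 16790104))))) (c (a (b (a (l 16783584) (l 16787728)) (b (l 16785168) (l 16784832))) (b (b (l 16794240) (l 16793808)) (l 16793112))) (a (b (b (l 16783152) (l 16782880)) (l 16782432)) (b (l 16789528) (l 16788696))))) (b (a (b (c (l 16784296) (l 16781752)) (c (l 16783496) (l 16780992))) (b (c (l 16792120) (l 16787776)) (c (l 16791024) (l 16786760))))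 (b (a (c (l 16782584) (l 16780136)) (l 16787776)) (a (c (l 16781568) (l 16779176)) (l 16786512))))) (b (b (b (a (c (b (l 16804968) (l 16804512)) (b (l 16798448) (l 16798008))) (c (b (l 16814496) (l 16813936)) (b (l 16806128) (l 16805584)))) (a (c (b (l 16804032) (l 16803520)) (b (l 16797552) (l 16797088))) (c (b (l 16813352) (l 16812736)) (b (l 16805016) (l 16804432))))) (b (a (c (b (l 16802984) (l 16802432)) (b (l 16796592) (l 16796088))) (c (b (l 16812096) (l 16811424)) (b (l 16803832) (l 16803216)))) (a (c (l 16801544) (l 16795288)) (c (l 16810368) (l 16802248))))) (b (b (a (c (l 16800288) (l 16794128)) (c (l 16808856) (l 16800880))) (a (l 16795928) (l 16803336))) (b (a (l 16794512) (l 16801672)) (a (l 16792984) (l 16799888)))))), by decide +kernel⟩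

def k60_A00pm_012_s1 : ∃ t, chk3 f_A00pm_012_s1 t 21 13 1 = true :=
  ⟨(b (a (b (a (b (c (l 16780432) (l 16778112)) (c (l 16779192) (l 16776920))) (b (l 16785136) (l 16783640))) (b (a (c (l 16777824) (l 16775608)) (l 16782016)) (a (l 16775264) (l 16780184)))) (b (b (a (l 16791336) (l 16797984)) (a (l 16789568) (l 16795952))) (b (a (l 16787664) (l 16793784)) (a (l 16785560) (l 16791400))))) (a (a (b (b (l 16773472) (c (l 16772024) (l 16769976))) (b (c (l 16767064) (l 16765096)) (c (l 16761040) (l 16759168)))) (b (b (l 16778104) (c (l 16777160) (l 16773800))) (b (c (l 16772144) (l 16768928)) (l 16764288)))) (b (a (b (l 16783192) (c (l 16782752) (l 16778032))) (b (l 16788768) (c (l 16788824) (l 16782696)))) (b (c (a (l 16777752) (l 16783920)) (a (l 16773232) (l 16778040))) (c (l 16773648) (a (l 16766560) (l 16770984))))))), by decide +kernel⟩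

def k61_A00pm_012_s1 : ∃ t, chk3 f_A00pm_012_s1 t 11 12 1 = true :=
  ⟨(a (b (a (b (b (a (c (b (l 16824400) (l 16823752)) (b (l 16814200) (l 16813552))) (c (l 16834352) (l 16817080))) (a (c (b (l 16823064) (l 16822352)) (b (l 16812888) (l 16812200))) (c (l 16832800) (l 16815544)))) (b (a (c (l 16821224) (l 16811128)) (c (l 16831120) (l 16819168))) (a (c (l 16819608) (l 16809632)) (c (l 16829296) (l 16817448))))) (b (b (a (c (l 16845048) (l 16831200)) (c (l 16856136) (l 16840488))) (a (c (l 16843328) (l 16829480)) (c (l 16854304) (l 16838640)))) (b (a (c (l 16841456) (l 16827656)) (c (l 16852256) (l 16836624))) (a (c (l 16839440) (l 16825736)) (c (l 16850056) (l 16834496)))))) (b (a (a (b (c (l 16817864) (l 16808032)) (l 16811176)) (b (c (l 16827328) (l 16815640)) (l 16819472))) (b (c (a (l 16837272) (l 16847688)) (a (l 16823704) (l 16832264))) (c (l 16839952) (l 16820424)))) (a (b (c (l 16818384) (l 16808032)) (c (l 16816112) (l 16805992))) (b (c (l 16837360) (l 16823296)) (c (l 16834592) (l 16820816))))))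 (b (a (b (b (c (l 16873512) (l 16855184)) (a (c (l 16865696) (l 16848216)) (l 16867848))) (b (a (l 16833800) (l 16844600)) (a (l 16831456) (l 16863104)))) (b (b (c (l 16898120) (l 16876288)) (c (l 16895992) (l 16874048))) (b (c (l 16893640) (l 16871648)) (c (l 16890968) (l 16868992))))) (b (a (b (c (l 16864224) (l 16835528)) (c (l 16861392) (l 16843344))) (b (c (l 16888096) (l 16866176)) (c (l 16884936) (l 16863152)))) (a (b (c (l 16858376) (l 16840552)) (l 16825424)) (b (l 16849728) (l 16867224)))))), by decide +kernel⟩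

def k62_A00pm_012_s1 : ∃ t, chk3 f_A00pm_012_s1 t 11 13 1 = true :=
  ⟨(b (a (a (b (b (l 16808792) (l 16806376)) (b (l 16803816) (c (l 16805496) (l 16796448)))) (b (b (l 16824960) (l 16822056)) (b (l 16819000) (l 16815720)))) (b (a (b (l 16843184) (l 16839816)) (b (l 16863584) (l 16859768))) (a (l 16834424) (l 16853680)))) (a (b (a (b (c (l 16802280) (l 16793568)) (c (l 16798808) (a (l 16787760) (l 16793296)))) (b (c (l 16818096) (l 16806104)) (c (l 16814056) (a (l 16799336) (l 16805872))))) (a (b (c (a (l 16790552) (l 16797664)) (a (c (l 16785168) (l 16781296)) (b (l 16790512) (l 16787240)))) (c (l 16786240) (a (l 16775920) (l 16781376)))) (b (c (a (l 16805280) (l 16813400)) (b (a (l 16796504) (l 16802936)) (a (l 16793512) (l 16800232)))) (c (l 16801192) (a (l 16787368) (l 16793912)))))) (b (a (c (l 16833888) (b (l 16820696) (l 16816640))) (c (l 16854008) (l 16835232))) (c (a (b (l 16826472) (l 16818608)) (b (l 16846008) (l 16838504))) (a (b (a (b (l 16809824) (l 16807328)) (l 16816008)) (c (l 16808296)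 (l 16801176))) (b (l 16828160) (a (l 16817016) (l 16825808)))))))), by decide +kernel⟩

def k63_A00pm_012_s1 : ∃ t, chk3 f_A00pm_012_s1 t 40 14 1 = true :=
  ⟨(b (c (b (a (a (b (l 16761128) (l 16758928)) (b (l 16760240) (l 16758008))) (a (b (l 16759608) (l 16757336)) (b (l 16759248) (l 16756952)))) (b (a (a (l 16756736) (l 16755792)) (a (l 16755104) (l 16754696))) (a (a (l 16754520) (l 16753568)) (a (l 16752872) (b (l 16753016) (l 16751800)))))) (a (b (a (b (l 16761608) (l 16759352)) (b (l 16760720) (l 16758424))) (a (b (l 16757040) (l 16754656)) (b (l 16756080) (l 16753672)))) (a (b (b (l 16760040) (l 16757688)) (b (l 16755312) (l 16752880))) (b (b (l 16759576) (l 16757184)) (b (l 16754776) (l 16752192)))))) (a (b (b (a (c (b (l 16752832) (l 16751680)) (l 16752176)) (c (b (l 16751872) (l 16750744)) (l 16751184))) (a (c (b (l 16750488) (b (l 16749568) (l 16748848))) (b (l 16750216) (l 16748760))) (b (c (b (l 16749864) (l 16749128)) (l 16749072)) (c (a (c (l 16748224) (l 16748256)) (l 16747280)) (a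 (l 16747776) (l 16746696)))))) (a (b (b (c (a (b (l 16748464) (l 16747600)) (b (l 16747736) (l 16746416))) (a (b (l 16747976) (l 16747016)) (l 16746488))) (c (c (l 16745032) (l 16744896)) (l 16744200))) (c (b (l 16742256) (l 16739464)) (b (l 16741224) (l 16738200)))) (b (c (b (l 16745192) (l 16742472)) (b (l 16744432) (l 16741480))) (c (l 16738312) (l 16736968))))) (b (b (a (a (c (l 16750720) (l 16750504)) (b (l 16751096) (c (l 16749616) (l 16749240)))) (c (b (a (l 16750656) (l 16749984)) (l 16748008)) (b (l 16755112) (l 16747472)))) (a (c (b (a (l 16748536) (l 16747296)) (l 16745264)) (b (a (l 16748064) (l 16746728)) (l 16744536))) (c (l 16743896) (l 16743048)))) (b (a (c (l 16746456) (l 16740136)) (c (l 16738408) (l 16737128))) (c (a (l 16735648) (l 16732824)) (l 16743024)))))), by decide +kernel⟩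

def k64_A00pm_012_s1 : ∃ t, chk3 f_A00pm_012_s1 t 82 14 1 = true :=
  ⟨(b (b (a (a (b (l 16759432) (l 16757072)) (b (l 16759448) (l 16757072))) (c (b (l 16759560) (l 16757176)) (b (l 16759408) (l 16756904)))) (a (b (c (l 16754552) (l 16754424)) (c (a (l 16757168) (l 16756472)) (b (l 16752216) (l 16750136)))) (b (a (c (l 16754392) (l 16754040)) (b (l 16754896) (l 16752224))) (c (l 16748888) (l 16748216))))) (b (b (a (c (l 16746472) (l 16745776)) (l 16748128)) (a (c (l 16740928) (l 16739856)) (l 16731824))) (b (a (l 16734760) (c (l 16732000) (l 16730272))) (c (l 16727920) (a (l 16727824) (l 16724184)))))), by decide +kernel⟩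

def k65_A00pm_012_s1 : ∃ t, chk3 f_A00pm_012_s1 t 166 14 1 = true :=
  ⟨(b (b (a (b (l 16760088) (c (l 16757016) (l 16756472))) (b (c (b (l 16761192) (l 16759400)) (l 16759464)) (c (l 16755504) (l 16754760)))) (b (a (l 16751712) (l 16749280)) (c (l 16744816) (l 16743824)))) (b (b (c (l 16739088) (l 16737824)) (c (l 16733416) (l 16731824))) (b (c (l 16727776) (l 16725800)) (c (l 16722152) (l 16719760))))), by decide +kernel⟩

def k66_A00pm_012_s1 : ∃ t, chk3 f_A00pm_012_s1 t 334 14 1 = true :=
  ⟨(a (b (b (b (c (l 16759264) (l 16758416)) (l 16752960)) (b (l 16747008) (l 16741096))) (b (b (l 16735232) (c (l 16730168) (l 16728400))) (b (c (l 16724544) (l 16722416)) (c (l 16718960) (l 16716416))))) (a (b (b (b (l 16757472) (l 16751448)) (b (l 16745504) (l 16739616))) (b (b (l 16733776) (c (l 16728768) (l 16726944))) (b (c (l 16723168) (l 16720992)) (c (l 16717608) (l 16715024))))) (a (a (b (b (b (l 16756688) (l 16750680)) (b (l 16744744) (l 16738864))) (b (b (l 16733040) (l 16727248)) (b (c (l 16722480)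 (l 16720288)) (c (l 16716944) (l 16714344))))) (a (b (b (b (l 16756424) (l 16750416)) (b (l 16744480) (l 16738608))) (b (b (l 16732792) (l 16727008)) (b (c (l 16722248) (l 16720048)) (c (l 16716712) (l 16714112))))) (a (b (b (b (l 16756280) (l 16750272)) (b (l 16744344) (l 16738480))) (b (b (l 16732656) (l 16726880)) (b (l 16718504) (c (l 16716600) (l 16713992))))) (b (b (b (l 16756184) (l 16750176)) (b (l 16744256) (l 16738384))) (b (b (l 16732568) (l 16726792)) (b (l 16718424) (c (l 16716520) (l 16713912)))))))) (b (b (b (l 16755696) (l 16749696)) (b (l 16743784) (l 16737928))) (b (b (c (l 16732784) (l 16731224)) (c (l 16727184) (l 16725320))) (b (c (l 16721632) (l 16719416)) (c (l 16716120) (l 16713504)))))))), by decide +kernel⟩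

def k67_A00pm_012_s1 : ∃ t, chk3 f_A00pm_012_s1 t 1340 14 1 = true :=
  ⟨(b (a (b (b (l 16754624) (l 16748648)) (b (l 16737512) (c (l 16737480) (l 16736136)))) (b (b (c (l 16753288) (l 16752256)) (c (l 16747376) (a (l 16746824) (l 16745768)))) (b (c (a (l 16742088) (l 16741072)) (a (l 16740912) (l 16739896))) (c (a (l 16736384) (l 16735408)) (a (l 16735040) (l 16734056)))))) (b (b (a (c (l 16731832) (l 16730248)) (c (a (l 16730776) (l 16729840)) (a (l 16729192) (l 16728248)))) (a (c (l 16726256) (l 16724384)) (c (a (l 16725248) (b (l 16725704) (l 16722976))) (a (l 16723360) (b (l 16723896) (l 16721008)))))) (b (a (c (l 16720744) (l 16718512)) (c (a (l 16719776) (b (l 16720256) (l 16717552))) (a (l 16717544) (b (l 16718120) (l 16715224))))) (c (a (l 16715264) (a (l 16714336) (b (l 16714856) (l 16712168)))) (a (l 16712640) (a (l 16711712) (b (l 16712336) (l 16709440)))))))), by decide +kernel⟩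

def k68_A00pm_012_s1 : ∃ t, chk3 f_A00pm_012_s1 t 1341 14 1 = true :=
  ⟨(a (a (b (b (b (l 16751856) (l 16745944)) (b (c (l 16740608) (l 16739424)) (c (l 16734960) (l 16733592)))) (b (b (c (l 16729400) (l 16727800)) (c (l 16723928) (l 16722024))) (b (c (l 16718504) (l 16716264)) (c (l 16713128) (l 16710496))))) (a (b (b (b (l 16751888) (l 16745976)) (b (c (l 16740640) (l 16739440)) (c (l 16734984) (l 16733608)))) (b (b (c (l 16729416) (l 16727808)) (c (l 16723928) (l 16722024))) (b (c (l 16718504) (l 16716256)) (c (l 16713128) (l 16710480))))) (a (b (b (b (l 16751904) (l 16745992)) (b (c (l 16740656) (l 16739448)) (c (l 16734992) (l 16733608)))) (b (b (c (l 16729424) (l 16727808)) (c (l 16723936) (l 16722024))) (b (c (l 16718504) (l 16716256)) (c (l 16713120) (l 16710480))))) (b (b (b (l 16751920) (l 16746000)) (b (c (l 16740664) (l 16739448)) (c (l 16735000) (l 16733616)))) (b (b (c (l 16729424) (l 16727808)) (c (l 16723936) (l 16722024))) (b (c (l 16718504) (l 16716248)) (c (l 16713120) (l 16710472))))))))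 (b (b (b (l 16751968) (l 16746040)) (b (c (l 16740704) (l 16739472)) (c (l 16735024) (l 16733632)))) (b (b (c (l 16729448) (l 16727816)) (c (l 16723944) (l 16722024))) (b (c (l 16718512) (l 16716240)) (c (l 16713112) (l 16710456)))))), by decide +kernel⟩

def k69_A00pm_012_s1 : ∃ t, chk3 f_A00pm_012_s1 t 671 14 1 = true :=
  ⟨(b (b (b (l 16746968) (c (l 16746720) (l 16745520))) (b (c (l 16740888) (l 16739584)) (c (l 16735160) (l 16733696)))) (b (b (c (l 16729536) (l 16727840)) (c (l 16723992) (l 16722008))) (b (c (l 16718512) (l 16716192)) (c (c (l 16713648) (l 16712464)) (l 16710368))))), by decide +kernel⟩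

def k70_A00pm_012_s1 : ∃ t, chk3 f_A00pm_012_s1 t 21 14 1 = true :=
  ⟨(b (a (b (a (b (c (l 16754792) (l 16752992)) (c (a (l 16747688) (l 16749400)) (a (l 16746168) (l 16747344)))) (b (c (l 16759032) (l 16756080)) (c (l 16752224) (l 16749360)))) (a (b (c (a (l 16741656) (l 16743040)) (a (l 16740064) (l 16740960))) (c (a (l 16735744) (l 16736816)) (a (l 16734008) (l 16734632)))) (b (c (l 16745448) (l 16742600)) (c (l 16738728) (l 16735832))))) (a (b (b (l 16761832) (l 16754656)) (b (c (l 16749216) (l 16745288)) (c (l 16741912) (l 16738008)))) (b (b (l 16766496) (l 16758904)) (b (l 16751200) (l 16743384))))) (a (b (b (a (c (a (l 16729936) (l 16730704)) (a (l 16727992) (l 16728344))) (c (l 16732152) (l 16729144))) (b (a (c (l 16725880) (l 16723544)) (c (l 16727296) (l 16724152))) (a (c (a (l 16722784) (l 16723200)) (l 16720496)) (c (l 16724088) (l 16720840))))) (b (a (c (a (b (l 16719960) (l 16717152)) (b (l 16720232) (l 16717288))) (a (b (l 16717512) (l 16714528)) (l 16715880))) (c (a (l 16719112) (l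 16719616)) (a (l 16715864) (l 16715976)))) (a (c (a (b (l 16714352) (l 16711568)) (b (l 16714360) (l 16711440))) (a (b (l 16711552) (l 16708560)) (l 16709672))) (c (b (l 16714624) (l 16711504)) (a (l 16709416) (l 16709280)))))) (b (b (a (c (l 16734680) (l 16730736)) (c (l 16737936) (l 16732976))) (a (c (l 16727600) (l 16723544)) (c (l 16730184) (l 16725192)))) (b (a (c (l 16720648) (l 16716408)) (c (l 16722608) (l 16717504))) (c (a (b (l 16715504) (l 16712112)) (l 16715168)) (a (l 16709328) (l 16709888))))))), by decide +kernel⟩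

def k71_A00pm_012_s1 : ∃ t, chk3 f_A00pm_012_s1 t 20 60 1 = true :=
  ⟨(c (a (a (b (a (l 16735200) (l 16732600)) (l 16738480)) (b (l 16728440) (l 16722520))) (a (b (l 16722200) (a (l 16718104) (l 16714736))) (a (b (l 16716488) (l 16710672)) (a (b (a (l 16713344) (l 16711408)) (a (l 16707624) (l 16705768))) (a (a (b (a (l 16709792) (a (l 16708920) (b (l 16709488) (l 16706784)))) (a (l 16704232) (a (l 16703400) (b (l 16704048) (l 16701272))))) (a (a (b (c (l 16708448) (l 16707056)) (c (l 16703120) (l 16701488))) (a (b (c (l 16708432) (l 16707048)) (c (l 16703104) (l 16701472))) (a (b (c (l 16708432) (l 16707040)) (c (l 16703096) (l 16701464))) (b (c (l 16708432) (l 16707032)) (c (l 16703096) (l 16701456)))))) (b (c (l 16708416) (l 16707016)) (c (l 16703072) (l 16701432))))) (b (c (l 16708352) (l 16706936)) (c (l 16702992) (l 16701328)))))))) (a (b (a (a (l 16733576) (l 16730792)) (l 16726328)) (a (l 16725808) (l 16719944))) (a (b (a (l 16721600) (l 16717992)) (a (l 16715216) (l 16711640))) (a (b (l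 16713632) (l 16707368)) (a (b (a (l 16710360) (l 16708368)) (a (l 16704184) (l 16702280))) (b (a (a (a (l 16706736) (a (l 16705856) (b (l 16706536) (l 16703608)))) (l 16704664)) (l 16704528)) (a (a (a (l 16700720) (a (l 16699888) (b (l 16700648) (l 16697656)))) (l 16698760)) (l 16698592)))))))), by decide +kernel⟩

def k72_A00pm_012_s1 : ∃ t, chk3 f_A00pm_012_s1 t 20 61 1 = true :=
  ⟨(c (b (b (a (a (l 16723472) (l 16717968)) (a (l 16711768) (a (l 16706208) (a (l 16702144) (a (a (a (l 16699944) (a (l 16699152) (l 16698464))) (l 16698088)) (l 16697952)))))) (a (a (l 16720400) (l 16714880)) (a (l 16708696) (a (l 16703184) (a (l 16699192) (a (a (a (l 16697048) (a (l 16696280) (l 16695616))) (l 16695240)) (l 16695088))))))) (b (a (a (l 16717280) (l 16711752)) (a (l 16705584) (a (l 16700120) (a (l 16696208) (a (a (a (l 16694112) (a (l 16693376) (l 16697968))) (l 16692360)) (l 16692192)))))) (a (a (l 16714120) (l 16708576)) (a (l 16702432) (a (l 16697024) (a (l 16693176) (a (a (a (l 16691144) (a (l 16690424)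 (c (l 16690880) (l 16688696)))) (l 16689440)) (l 16689264)))))))) (b (a (a (l 16719280) (l 16713384)) (a (a (l 16708664) (l 16705120)) (a (l 16700936) (a (a (l 16697856) (l 16696032)) (a (a (a (l 16694552) (a (l 16693776) (c (l 16694120) (l 16692032)))) (l 16692704)) (l 16692504)))))) (a (a (l 16712568) (l 16706648)) (a (a (l 16701944) (l 16698448)) (a (l 16694360) (a (a (l 16691376) (l 16689632)) (a (a (a (l 16688232) (b (l 16694000) (l 16690840))) (l 16686488)) (l 16686264)))))))), by decide +kernel⟩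

def k73_A00pm_012_s1 : ∃ t, chk3 f_A00pm_012_s1 t 21 30 1 = true :=
  ⟨(b (a (b (a (c (b (a (l 16708792) (l 16708536)) (a (l 16706008) (l 16705648))) (a (b (l 16705584) (l 16702576)) (l 16706112))) (c (b (l 16708408) (l 16705320)) (b (l 16704408) (l 16701128)))) (c (a (a (b (l 16703208) (l 16700384)) (b (l 16702744) (l 16699832))) (b (c (l 16703272) (l 16701224)) (c (l 16700248) (l 16698088)))) (a (b (l 16704408) (l 16696072)) (b (l 16697872) (l 16694584))))) (b (c (a (b (l 16708736) (l 16705384)) (l 16707848)) (a (l 16702288) (l 16702328))) (c (a (c (l 16701584) (l 16699168)) (b (l 16702424) (l 16698840))) (a (l 16695272) (l 16694824))))) (a (b (c (a (b (c (l 16698168) (l 16696168)) (c (l 16695288) (l 16693168))) (b (c (l 16697224) (l 16694944)) (c (l 16694192) (l 16691792)))) (a (b (l 16692944) (l 16689784)) (b (l 16691288) (l 16687976)))) (c (a (a (b (l 16691664) (l 16688688)) (b (l 16690888) (l 16687840))) (b (c (l 16691128) (l 16688600)) (c (l 16688024) (l 16685376)))) (a (b (l 16686584) (l 16683344))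 (b (l 16684624) (l 16681240))))) (b (c (a (b (l 16695448) (l 16692136)) (c (l 16694952) (l 16692016))) (a (l 16693520) (l 16687352))) (b (c (a (l 16688832) (l 16688216)) (a (l 16683000) (l 16681768))) (c (a (l 16685512) (l 16684680)) (a (l 16679464) (l 16678040))))))), by decide +kernel⟩

def k74_A00pm_012_s1 : ∃ t, chk3 f_A00pm_012_s1 t 20 31 1 = true :=
  ⟨(b (c (b (b (a (a (l 16710912) (l 16705360)) (a (l 16699232) (a (l 16693880) (a (l 16690112) (a (a (a (l 16688128) (a (l 16687432) (l 16692072))) (l 16686480)) (l 16686288)))))) (a (a (l 16707648) (l 16702096)) (a (l 16696000) (a (l 16690696) (a (l 16687008) (a (a (a (l 16685072) (a (l 16684408) (l 16683824))) (l 16683480)) (l 16683272))))))) (a (a (l 16702680) (l 16697120)) (a (a (l 16692760) (l 16689552)) (a (a (l 16686936) (l 16684920)) (a (a (l 16683184) (l 16686896)) (a (a (a (l 16680424) (a (l 16690280) (b (l 16680776) (l 16677688)))) (a (l 16684192) (l 16684112))) (c (l 16680008) (l 16677360)))))))) (b (a (a (l 16705680) (l 16699744)) (a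 (a (l 16695056) (l 16691608)) (a (l 16687616) (a (a (l 16684736) (l 16683080)) (a (a (a (l 16681760) (a (l 16681080) (l 16690976))) (l 16680120)) (l 16679872)))))) (a (a (l 16698608) (l 16692672)) (a (a (l 16688008) (l 16684608)) (a (l 16680720) (a (l 16677008) (a (a (a (l 16675120) (a (l 16674496) (l 16673944))) (l 16673592)) (l 16673320)))))))) (c (a (b (a (l 16695880) (l 16690328)) (b (l 16687744) (l 16684200))) (a (b (a (l 16685984) (l 16682832)) (b (l 16679152) (l 16675656))) (b (a (l 16679240) (a (a (l 16676664) (l 16675216)) (a (a (a (l 16674072) (b (l 16685304) (l 16671632))) (l 16672656)) (l 16672416)))) (a (l 16672448) (a (l 16669184) (a (b (l 16679096) (l 16665320)) (l 16665968))))))) (a (b (a (l 16691344) (l 16685416)) (a (l 16683896) (l 16677984))) (a (b (l 16679032) (l 16671672)) (b (a (l 16673656) (a (l 16670104) (a (b (l 16679896) (l 16665992)) (l 16666608)))) (a (l 16666424) (a (l 16663032) (b (l 16662320) (l 16658808))))))))), by decide +kernel⟩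

def k75_A00pm_012_s1 : ∃ t, chk3 f_A00pm_012_s1 t 21 31 1 = true :=
  ⟨(b (c (a (b (a (b (c (l 16691672) (l 16683936)) (c (l 16683400) (l 16680784))) (c (b (l 16684880) (l 16681712)) (b (l 16682120) (l 16678824)))) (a (b (c (l 16680328) (l 16677592)) (c (l 16677224) (l 16674368))) (b (l 16677000) (l 16673696)))) (b (a (b (l 16682160) (l 16678776)) (b (l 16681152) (l 16677616))) (b (c (l 16676336) (l 16672912)) (c (l 16672872) (l 16669328))))) (a (b (a (b (l 16680072) (l 16676760)) (b (l 16677824) (l 16674368))) (a (b (l 16673408) (l 16670016)) (l 16679616))) (b (a (l 16674104) (l 16672424)) (a (l 16666840) (l 16664872))))) (b (a (c (b (a (l 16672592) (l 16670352)) (a (l 16669336) (l 16666968))) (a (l 16675352) (l 16662008))) (c (b (c (l 16669376) (l 16665712)) (l 16663960)) (b (l 16660152) (l 16656352)))) (a (c (b (a (l 16666048) (l 16663552)) (l 16671832)) (b (l 16658040) (l 16654432))) (c (b (l 16660336) (l 16656688)) (b (l 16652520) (l 16648656)))))), by decide +kernel⟩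

def k76_A00pm_012_s1 : ∃ t, chk3 f_A00pm_012_s1 t 11 14 1 = true :=
  ⟨(b (a (b (a (c (b (l 16778048) (l 16769688)) (b (c (l 16772608) (l 16768672)) (l 16762576))) (c (b (l 16792136) (l 16782872)) (b (c (l 16784544) (l 16779192)) (c (l 16775568) (l 16770408))))) (a (b (c (l 16761224) (l 16754336)) (c (l 16752672) (l 16745952))) (c (b (l 16773480) (l 16763976)) (b (l 16763952) (l 16754728))))) (c (b (a (a (l 16799448) (l 16808152)) (l 16801424)) (a (b (l 16788232) (l 16777760)) (l 16778928))) (b (b (a (c (l 16798776) (l 16791896)) (l 16811184)) (a (c (l 16788992) (l 16782344)) (l 16800728))) (a (b (l 16775808) (l 16765736)) (b (l 16790024) (l 16779096)))))) (a (c (b (a (b (l 16744008) (l 16735400)) (b (l 16754392) (l 16744736))) (a (b (a (l 16725256) (l 16728656)) (a (l 16717184) (l 16719896))) (b (l 16734992) (l 16725344)))) (b (a (b (l 16737408) (l 16728864)) (b (l 16745368) (l 16735896))) (a (b (a (l 16719224) (l 16721608)) (a (l 16711040) (l 16712816))) (b (l 16726288) (l 16716704))))) (b (a (c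 (b (l 16767184) (l 16756536)) (b (l 16755504) (l 16745136))) (c (b (l 16782608) (l 16770920)) (b (l 16767976) (l 16756704)))) (a (b (c (l 16745824) (l 16734664)) (c (l 16735080) (l 16724104))) (c (b (l 16759160) (l 16747360)) (b (l 16745304) (l 16733792))))))), by decide +kernel⟩

def k77_A00pm_012_s1 : ∃ t, chk3 f_A00pm_012_s1 t 11 30 1 = true :=
  ⟨(a (b (a (b (c (a (l 16709256) (l 16711328)) (a (l 16702936) (l 16704144))) (c (a (l 16701456) (l 16702920)) (a (l 16694904) (l 16695560)))) (b (c (a (l 16714112) (l 16717664)) (a (l 16705976) (l 16708504))) (c (a (l 16705056) (l 16707904)) (a (l 16696824) (l 16698720))))) (b (a (c (a (c (l 16695400) (l 16692128)) (c (l 16696456) (l 16692816))) (a (l 16686936) (l 16687064))) (c (a (l 16696168) (l 16698360)) (a (l 16687768) (l 16689080)))) (a (c (b (a (l 16688080) (l 16688536)) (c (l 16686128) (l 16682448))) (a (l 16679016) (l 16678640))) (c (b (c (l 16692504) (l 16688168)) (c (l 16688056) (l 16683656))) (b (l 16681384) (l 16676792)))))) (b (a (b (c (l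 16724272) (l 16713432)) (c (a (l 16711536) (l 16715888)) (a (l 16701312) (l 16704552)))) (b (c (l 16735536) (l 16722208)) (c (a (l 16720976) (l 16726680)) (l 16710576)))) (a (b (c (b (l 16705664) (l 16700376)) (b (l 16694912) (l 16689624))) (c (b (a (l 16693736) (l 16696888)) (c (l 16692680) (l 16687408))) (b (l 16684408) (l 16679240)))) (b (c (a (l 16709424) (l 16714600)) (a (l 16697016) (l 16700992))) (c (b (a (l 16700840) (l 16705536)) (a (l 16695160) (l 16699544))) (b (a (l 16688480) (l 16692024)) (a (l 16682816) (l 16686080)))))))), by decide +kernel⟩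

def k78_A00pm_012_s1 : ∃ t, chk3 f_A00pm_012_s1 t 11 62 1 = true :=
  ⟨(a (b (a (c (a (c (l 16685768) (l 16676840)) (c (l 16680464) (l 16676472))) (a (l 16671136) (l 16670280))) (c (a (c (l 16681000) (l 16676656)) (b (l 16682088) (l 16677536))) (a (l 16669944) (l 16670152)))) (a (c (a (c (l 16673144) (l 16669224)) (c (l 16683128) (l 16668432))) (a (l 16663224) (l 16661968))) (c (a (c (l 16677864) (l 16668088)) (b (l 16673016) (l 16668528))) (a (l 16661144) (l 16660840))))) (b (a (c (b (c (l 16692872) (l 16682312)) (c (a (l 16681560) (l 16683920)) (l 16682504))) (a (c (l 16673608) (l 16668248)) (c (l 16675240) (l 16669432)))) (c (b (a (l 16689552) (c (l 16696856) (l 16690272))) (a (c (l 16687032) (l 16680960)) (c (l 16690936) (l 16684344)))) (a (c (l 16677552) (l 16671256)) (b (l 16680144) (c (l 16677640) (l 16670816)))))) (a (c (a (c (b (l 16676776) (l 16672032)) (l 16669144)) (c (b (l 16678808) (l 16673744)) (b (l 16673168) (l 16668048)))) (a (c (l 16663792) (l 16658352)) (c (l 16664840) (l 16658976))))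 (a (b (c (c (l 16681568) (l 16675464)) (l 16666120)) (c (c (a (l 16675504) (l 16676896)) (l 16670024)) (l 16671120))) (l 6))))), by decide +kernel⟩

def k79_A00pm_012_s1 : ∃ t, chk3 f_A00pm_012_s1 t 11 63 1 = true :=
  ⟨(a (b (b (a (c (a (l 16665536) (l 16664592)) (l 16656408)) (c (a (l 16664088) (l 16664072)) (l 16654200))) (a (c (l 16671592) (l 16652336)) (c (a (l 16659904) (l 16659648)) (l 16649704)))) (a (c (b (l 16657192) (l 16653248)) (b (l 16648216) (l 16644072))) (c (b (a (l 16655736) (l 16655264)) (a (l 16651560) (l 16650872))) (b (l 16645224) (l 16640752))))) (b (b (a (c (a (c (l 16667336) (l 16661960)) (c (l 16668736) (l 16662968))) (a (l 16653768) (l 16654184))) (a (a (c (c (l 16670240) (l 16664160)) (l 16654888)) (l 6)) (l 6))) (a (c (a (c (l 16662680) (l 16657216)) (c (l 16663776) (l 16657936))) (a (l 16648920) (l 16649072))) (l 6))) (a (c (a (b (l 16665768) (l 16650648)) (b (c (l 16658864) (l 16652944)) (l 6))) (a (b (l 16644096) (l 16639296)) (c (l 16654952) (l 16638448)))) (l 6)))),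 by decide +kernel⟩

def k80_A00pm_012_s1 : ∃ t, chk3 f_A00pm_012_s1 t 3 2 1 = true :=
  ⟨(a (b (l 2) (a (b (l 2) (a (b (l 2) (a (b (l 2) (c (l 16905504) (b (l 2) (l 16900736)))) (l 2))) (l 2))) (l 2))) (l 2)), by decide +kernel⟩

def k81_A00pm_012_s1 : ∃ t, chk3 f_A00pm_012_s1 t 3 6 1 = true :=
  ⟨(a (a (b (a (b (b (a (c (l 16923128) (a (l 16892064) (l 16903712))) (b (l 2) (l 16893248))) (a (b (c (l 16919592) (l 16894192)) (l 16904112)) (a (l 16882984) (l 16896304)))) (b (a (b (l 16901072) (l 16897720)) (b (l 16927008) (l 16923504))) (a (c (l 16906312) (l 16879712)) (b (l 16919768) (l 16915720))))) (b (a (b (l 2) (c (l 16968008) (l 16942744))) (l 2)) (b (a (c (l 16964416) (l 16936712)) (l 16932936)) (a (b (l 16946256) (l 16942728)) (l 16927784))))) (b (a (b (a (b (l 16886272) (l 16882032)) (l 16867232)) (a (l 16875288) (l 16899336))) (b (a (l 16936968) (l 16879672)) (a (l 16928312) (l 16956040)))) (a (b (a (l 16865336) (l 16888496)) (a (c (l 16864072) (b (l 16846312) (a (l 16835096) (l 16844896))))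 (b (l 16879576) (c (l 16892800) (l 16860568))))) (b (a (l 16917744) (l 16947168)) (a (b (l 16908328) (l 16901272)) (l 16936232)))))) (a (a (b (b (l 2) (b (l 2) (l 16992800))) (b (b (l 16988032) (l 16982160)) (b (l 16974624) (l 6)))) (b (l 2) (l 6))) (l 6))) (l 6)), by decide +kernel⟩

def k82_A00pm_012_s1 : ∃ t, chk3 f_A00pm_012_s1 t 3 7 1 = true :=
  ⟨(a (a (b (a (b (c (a (b (l 16843792) (l 16819528)) (b (l 16875744) (l 16847200))) (b (a (a (l 16819248) (l 16828848)) (l 16844456)) (a (a (l 16796584) (l 16805368)) (a (l 16814816) (l 16824944))))) (c (b (a (l 16752480) (l 16814960)) (a (b (l 16775240) (l 16762344)) (b (l 16794200) (l 16780216)))) (b (a (b (l 16782928) (l 16770728)) (b (l 16800496) (l 16787376))) (a (b (l 16758376) (l 16745904)) (b (l 16774064) (l 16739632)))))) (b (b (a (c (l 16911960) (l 16867616)) (l 16919176)) (a (c (l 16886824) (l 16840776)) (l 6))) (b (a (c (l 16856240) (a (l 16808056) (l 6))) (l 6)) (l 6)))) (b (a (b (b (a (c (l 16749416) (l 16733336)) (c (l 16766168) (c (l 16751872)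 (l 16742136)))) (a (c (l 16736472) (l 16720696)) (l 6))) (a (a (b (c (l 16720416) (l 16705544)) (c (b (l 16710952) (l 16704664)) (b (l 16696216) (l 16690000)))) (b (c (l 16726912) (l 16710704)) (l 6))) (l 6))) (l 6)) (l 6))) (b (l 6) (l 6))) (l 6)), by decide +kernel⟩

theorem t83_A00pm_012_s1 : ∃ t, chk3 f_A00pm_012_s1 t 3 3 1 = true := ex3_b k81_A00pm_012_s1 k82_A00pm_012_s1

theorem t84_A00pm_012_s1 : ∃ t, chk3 f_A00pm_012_s1 t 3 1 1 = true := ex3_b k80_A00pm_012_s1 t83_A00pm_012_s1

theorem t85_A00pm_012_s1 : ∃ t, chk3 f_A00pm_012_s1 t 11 31 1 = true := ex3_b k78_A00pm_012_s1 k79_A00pm_012_s1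

theorem t86_A00pm_012_s1 : ∃ t, chk3 f_A00pm_012_s1 t 11 15 1 = true := ex3_b k77_A00pm_012_s1 t85_A00pm_012_s1

theorem t87_A00pm_012_s1 : ∃ t, chk3 f_A00pm_012_s1 t 11 7 1 = true := ex3_b k76_A00pm_012_s1 t86_A00pm_012_s1

theorem t88_A00pm_012_s1 : ∃ t, chk3 f_A00pm_012_s1 t 10 31 1 = true := ex3_a k74_A00pm_012_s1 k75_A00pm_012_s1

theorem t89_A00pm_012_s1 : ∃ t, chk3 f_A00pm_012_s1 t 20 30 1 = true := ex3_b k71_A00pm_012_s1 k72_A00pm_012_s1

theorem t90_A00pm_012_s1 : ∃ t, chk3 f_A00pm_012_s1 t 10 30 1 = true := ex3_a t89_A00pm_012_s1 k73_A00pm_012_s1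

theorem t91_A00pm_012_s1 : ∃ t, chk3 f_A00pm_012_s1 t 10 15 1 = true := ex3_b t90_A00pm_012_s1 t88_A00pm_012_s1

theorem t92_A00pm_012_s1 : ∃ t, chk3 f_A00pm_012_s1 t 670 14 1 = true := ex3_a k67_A00pm_012_s1 k68_A00pm_012_s1

theorem t93_A00pm_012_s1 : ∃ t, chk3 f_A00pm_012_s1 t 335 14 1 = true := ex3_a t92_A00pm_012_s1 k69_A00pm_012_s1

theorem t94_A00pm_012_s1 : ∃ t, chk3 f_A00pm_012_s1 t 167 14 1 = true := ex3_a k66_A00pm_012_s1 t93_A00pm_012_s1

theorem t95_A00pm_012_s1 : ∃ t, chk3 f_A00pm_012_s1 t 83 14 1 = true := ex3_a k65_A00pm_012_s1 t94_A00pm_012_s1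

theorem t96_A00pm_012_s1 : ∃ t, chk3 f_A00pm_012_s1 t 41 14 1 = true := ex3_a k64_A00pm_012_s1 t95_A00pm_012_s1

theorem t97_A00pm_012_s1 : ∃ t, chk3 f_A00pm_012_s1 t 20 14 1 = true := ex3_a k63_A00pm_012_s1 t96_A00pm_012_s1

theorem t98_A00pm_012_s1 : ∃ t, chk3 f_A00pm_012_s1 t 10 14 1 = true := ex3_a t97_A00pm_012_s1 k70_A00pm_012_s1

theorem t99_A00pm_012_s1 : ∃ t, chk3 f_A00pm_012_s1 t 10 7 1 = true := ex3_b t98_A00pm_012_s1 t91_A00pm_012_s1

theorem t100_A00pm_012_s1 : ∃ t, chk3 f_A00pm_012_s1 t 5 7 1 = true := ex3_a t99_A00pm_012_s1 t87_A00pm_012_s1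

theorem t101_A00pm_012_s1 : ∃ t, chk3 f_A00pm_012_s1 t 11 6 1 = true := ex3_b k61_A00pm_012_s1 k62_A00pm_012_s1

theorem t102_A00pm_012_s1 : ∃ t, chk3 f_A00pm_012_s1 t 21 6 1 = true := ex3_b k59_A00pm_012_s1 k60_A00pm_012_s1

theorem t103_A00pm_012_s1 : ∃ t, chk3 f_A00pm_012_s1 t 167 13 1 = true := ex3_a k57_A00pm_012_s1 k58_A00pm_012_s1

theorem t104_A00pm_012_s1 : ∃ t, chk3 f_A00pm_012_s1 t 83 13 1 = true := ex3_a k56_A00pm_012_s1 t103_A00pm_012_s1

theorem t105_A00pm_012_s1 : ∃ t, chk3 f_A00pm_012_s1 t 41 13 1 = true := ex3_a k55_A00pm_012_s1 t104_A00pm_012_s1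

theorem t106_A00pm_012_s1 : ∃ t, chk3 f_A00pm_012_s1 t 83 12 1 = true := ex3_b k53_A00pm_012_s1 k54_A00pm_012_s1

theorem t107_A00pm_012_s1 : ∃ t, chk3 f_A00pm_012_s1 t 82 12 1 = true := ex3_b k51_A00pm_012_s1 k52_A00pm_012_s1

theorem t108_A00pm_012_s1 : ∃ t, chk3 f_A00pm_012_s1 t 41 12 1 = true := ex3_a t107_A00pm_012_s1 t106_A00pm_012_s1

theorem t109_A00pm_012_s1 : ∃ t, chk3 f_A00pm_012_s1 t 41 6 1 = true := ex3_b t108_A00pm_012_s1 t105_A00pm_012_s1

theorem t110_A00pm_012_s1 : ∃ t, chk3 f_A00pm_012_s1 t 40 13 1 = true := ex3_b k49_A00pm_012_s1 k50_A00pm_012_s1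

theorem t111_A00pm_012_s1 : ∃ t, chk3 f_A00pm_012_s1 t 40 12 1 = true := ex3_a k47_A00pm_012_s1 k48_A00pm_012_s1

theorem t112_A00pm_012_s1 : ∃ t, chk3 f_A00pm_012_s1 t 40 6 1 = true := ex3_b t111_A00pm_012_s1 t110_A00pm_012_s1

theorem t113_A00pm_012_s1 : ∃ t, chk3 f_A00pm_012_s1 t 20 6 1 = true := ex3_a t112_A00pm_012_s1 t109_A00pm_012_s1

theorem t114_A00pm_012_s1 : ∃ t, chk3 f_A00pm_012_s1 t 10 6 1 = true := ex3_a t113_A00pm_012_s1 t102_A00pm_012_s1

theorem t115_A00pm_012_s1 : ∃ t, chk3 f_A00pm_012_s1 t 5 6 1 = true := ex3_a t114_A00pm_012_s1 t101_A00pm_012_s1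

theorem t116_A00pm_012_s1 : ∃ t, chk3 f_A00pm_012_s1 t 5 3 1 = true := ex3_b t115_A00pm_012_s1 t100_A00pm_012_s1

theorem t117_A00pm_012_s1 : ∃ t, chk3 f_A00pm_012_s1 t 21 11 1 = true := ex3_a k44_A00pm_012_s1 k45_A00pm_012_s1

theorem t118_A00pm_012_s1 : ∃ t, chk3 f_A00pm_012_s1 t 21 5 1 = true := ex3_b k43_A00pm_012_s1 t117_A00pm_012_s1

theorem t119_A00pm_012_s1 : ∃ t, chk3 f_A00pm_012_s1 t 21 2 1 = true := ex3_b k42_A00pm_012_s1 t118_A00pm_012_s1

theorem t120_A00pm_012_s1 : ∃ t, chk3 f_A00pm_012_s1 t 83 23 1 = true := ex3_b k40_A00pm_012_s1 k41_A00pm_012_s1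

theorem t121_A00pm_012_s1 : ∃ t, chk3 f_A00pm_012_s1 t 41 23 1 = true := ex3_a k39_A00pm_012_s1 t120_A00pm_012_s1

theorem t122_A00pm_012_s1 : ∃ t, chk3 f_A00pm_012_s1 t 83 22 1 = true := ex3_a k37_A00pm_012_s1 k38_A00pm_012_s1

theorem t123_A00pm_012_s1 : ∃ t, chk3 f_A00pm_012_s1 t 41 22 1 = true := ex3_a k36_A00pm_012_s1 t122_A00pm_012_s1

theorem t124_A00pm_012_s1 : ∃ t, chk3 f_A00pm_012_s1 t 41 11 1 = true := ex3_b t123_A00pm_012_s1 t121_A00pm_012_s1

theorem t125_A00pm_012_s1 : ∃ t, chk3 f_A00pm_012_s1 t 83 21 1 = true := ex3_a k34_A00pm_012_s1 k35_A00pm_012_s1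

theorem t126_A00pm_012_s1 : ∃ t, chk3 f_A00pm_012_s1 t 83 10 1 = true := ex3_b k33_A00pm_012_s1 t125_A00pm_012_s1

theorem t127_A00pm_012_s1 : ∃ t, chk3 f_A00pm_012_s1 t 41 10 1 = true := ex3_a k32_A00pm_012_s1 t126_A00pm_012_s1

theorem t128_A00pm_012_s1 : ∃ t, chk3 f_A00pm_012_s1 t 41 5 1 = true := ex3_b t127_A00pm_012_s1 t124_A00pm_012_s1

theorem t129_A00pm_012_s1 : ∃ t, chk3 f_A00pm_012_s1 t 41 2 1 = true := ex3_b k31_A00pm_012_s1 t128_A00pm_012_s1

theorem t130_A00pm_012_s1 : ∃ t, chk3 f_A00pm_012_s1 t 81 2 1 = true := ex3_c k29_A00pm_012_s1 k30_A00pm_012_s1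

theorem t131_A00pm_012_s1 : ∃ t, chk3 f_A00pm_012_s1 t 40 2 1 = true := ex3_a k28_A00pm_012_s1 t130_A00pm_012_s1

theorem t132_A00pm_012_s1 : ∃ t, chk3 f_A00pm_012_s1 t 20 2 1 = true := ex3_a t131_A00pm_012_s1 t129_A00pm_012_s1

theorem t133_A00pm_012_s1 : ∃ t, chk3 f_A00pm_012_s1 t 10 2 1 = true := ex3_a t132_A00pm_012_s1 t119_A00pm_012_s1

theorem t134_A00pm_012_s1 : ∃ t, chk3 f_A00pm_012_s1 t 5 2 1 = true := ex3_a t133_A00pm_012_s1 k46_A00pm_012_s1

theorem t135_A00pm_012_s1 : ∃ t, chk3 f_A00pm_012_s1 t 5 1 1 = true := ex3_b t134_A00pm_012_s1 t116_A00pm_012_s1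

theorem t136_A00pm_012_s1 : ∃ t, chk3 f_A00pm_012_s1 t 19 30 1 = true := ex3_a k25_A00pm_012_s1 k26_A00pm_012_s1

theorem t137_A00pm_012_s1 : ∃ t, chk3 f_A00pm_012_s1 t 19 15 1 = true := ex3_b t136_A00pm_012_s1 k27_A00pm_012_s1

theorem t138_A00pm_012_s1 : ∃ t, chk3 f_A00pm_012_s1 t 18 31 1 = true := ex3_b k23_A00pm_012_s1 k24_A00pm_012_s1

theorem t139_A00pm_012_s1 : ∃ t, chk3 f_A00pm_012_s1 t 18 30 1 = true := ex3_a k21_A00pm_012_s1 k22_A00pm_012_s1

theorem t140_A00pm_012_s1 : ∃ t, chk3 f_A00pm_012_s1 t 18 15 1 = true := ex3_b t139_A00pm_012_s1 t138_A00pm_012_s1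

theorem t141_A00pm_012_s1 : ∃ t, chk3 f_A00pm_012_s1 t 9 15 1 = true := ex3_a t140_A00pm_012_s1 t137_A00pm_012_s1

theorem t142_A00pm_012_s1 : ∃ t, chk3 f_A00pm_012_s1 t 39 14 1 = true := ex3_a k19_A00pm_012_s1 k20_A00pm_012_s1

theorem t143_A00pm_012_s1 : ∃ t, chk3 f_A00pm_012_s1 t 19 14 1 = true := ex3_a k18_A00pm_012_s1 t142_A00pm_012_s1

theorem t144_A00pm_012_s1 : ∃ t, chk3 f_A00pm_012_s1 t 18 14 1 = true := ex3_b k16_A00pm_012_s1 k17_A00pm_012_s1

theorem t145_A00pm_012_s1 : ∃ t, chk3 f_A00pm_012_s1 t 9 14 1 = true := ex3_a t144_A00pm_012_s1 t143_A00pm_012_s1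

theorem t146_A00pm_012_s1 : ∃ t, chk3 f_A00pm_012_s1 t 9 7 1 = true := ex3_b t145_A00pm_012_s1 t141_A00pm_012_s1

theorem t147_A00pm_012_s1 : ∃ t, chk3 f_A00pm_012_s1 t 17 62 1 = true := ex3_a k13_A00pm_012_s1 k14_A00pm_012_s1

theorem t148_A00pm_012_s1 : ∃ t, chk3 f_A00pm_012_s1 t 17 31 1 = true := ex3_b t147_A00pm_012_s1 k15_A00pm_012_s1

theorem t149_A00pm_012_s1 : ∃ t, chk3 f_A00pm_012_s1 t 8 31 1 = true := ex3_a k12_A00pm_012_s1 t148_A00pm_012_s1

theorem t150_A00pm_012_s1 : ∃ t, chk3 f_A00pm_012_s1 t 34 30 1 = true := ex3_b k9_A00pm_012_s1 k10_A00pm_012_s1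

theorem t151_A00pm_012_s1 : ∃ t, chk3 f_A00pm_012_s1 t 17 30 1 = true := ex3_a t150_A00pm_012_s1 k11_A00pm_012_s1

theorem t152_A00pm_012_s1 : ∃ t, chk3 f_A00pm_012_s1 t 8 30 1 = true := ex3_a k8_A00pm_012_s1 t151_A00pm_012_s1

theorem t153_A00pm_012_s1 : ∃ t, chk3 f_A00pm_012_s1 t 8 15 1 = true := ex3_b t152_A00pm_012_s1 t149_A00pm_012_s1

theorem t154_A00pm_012_s1 : ∃ t, chk3 f_A00pm_012_s1 t 8 7 1 = true := ex3_b k7_A00pm_012_s1 t153_A00pm_012_s1

theorem t155_A00pm_012_s1 : ∃ t, chk3 f_A00pm_012_s1 t 4 7 1 = true := ex3_a t154_A00pm_012_s1 t146_A00pm_012_s1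

theorem t156_A00pm_012_s1 : ∃ t, chk3 f_A00pm_012_s1 t 39 13 1 = true := ex3_b k5_A00pm_012_s1 k6_A00pm_012_s1

theorem t157_A00pm_012_s1 : ∃ t, chk3 f_A00pm_012_s1 t 19 13 1 = true := ex3_a k4_A00pm_012_s1 t156_A00pm_012_s1

theorem t158_A00pm_012_s1 : ∃ t, chk3 f_A00pm_012_s1 t 9 13 1 = true := ex3_a k3_A00pm_012_s1 t157_A00pm_012_s1

theorem t159_A00pm_012_s1 : ∃ t, chk3 f_A00pm_012_s1 t 4 13 1 = true := ex3_a k2_A00pm_012_s1 t158_A00pm_012_s1

theorem t160_A00pm_012_s1 : ∃ t, chk3 f_A00pm_012_s1 t 4 6 1 = true := ex3_b k1_A00pm_012_s1 t159_A00pm_012_s1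

theorem t161_A00pm_012_s1 : ∃ t, chk3 f_A00pm_012_s1 t 4 3 1 = true := ex3_b t160_A00pm_012_s1 t155_A00pm_012_s1

theorem t162_A00pm_012_s1 : ∃ t, chk3 f_A00pm_012_s1 t 4 1 1 = true := ex3_b k0_A00pm_012_s1 t161_A00pm_012_s1

theorem t163_A00pm_012_s1 : ∃ t, chk3 f_A00pm_012_s1 t 2 1 1 = true := ex3_a t162_A00pm_012_s1 t135_A00pm_012_s1

theorem t164_A00pm_012_s1 : ∃ t, chk3 f_A00pm_012_s1 t 1 1 1 = true := ex3_a t163_A00pm_012_s1 t84_A00pm_012_s1

theorem c_A00pm_012_s1 : CertF 0 536870912 536870912 536870912 335544320 67108864 true true false .pnp 0 1 2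
    ndF0q0 ndF0q1 pcF2 cut_A00pm_012_s1 xt_A00pm_012_s1 :=
  certF2 (fam := true) (s1 := true) (s2 := false) (a := 0) (b := 1) (c := 2) (cn := .pnp) (n1 := ndF0q0) (n2 := ndF0q1) (pc := pcF2) (cut := cut_A00pm_012_s1) (xt := xt_A00pm_012_s1) (P1 := 0) (W1 := 536870912) (P2 := 536870912) (W2 := 536870912) (P3 := 335544320) (W3 := 67108864)
    rfl (fun _ => rfl) t164_A00pm_012_s1

theorem s_A00pm_012_s1 {κ x : ℝ} (hκ : κ * h0 = ken x) (hx : ((335544320 : ℕ) : ℝ) / S ≤ x)
    (hx' : x ≤ (((335544320 : ℕ) : ℝ) + (67108864 : ℕ)) / S)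
    (H : CutA (VF κ) PP tKF tL pcF (Cut.of [[⟨0, 0, 0, 67108864⟩, ⟨1, 1, 0, 67108864⟩, ⟨2, 1, 0, 67108864⟩], [⟨0, 0, 1, 33554432⟩, ⟨1, 1, 0, 33554432⟩, ⟨2, 1, 1, 33554432⟩]]) 0 1 2 0 0 (sgb true) (sgb false) x) :
    AltA (VF κ) PP tKF tL pcF [⟨3, 0, 0, 1449551462⟩] 0 1 2 0 0 (sgb true) (sgb false) x :=
  strip_altA (m := 1449551462) true rfl hκ covF00 covF01 hx hx' c_A00pm_012_s1 H ((okx hx hx').extA (T := tt) (sideF hx hx') hκ rfl rfl (.O 0 true) (.O 1 false) rfl)

end Pool.Agent.Strip051.G.I5_16_3_8.Tab.St.C
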