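import Pool.Agent.Strip051.G.I5_16_3_8.StF

/-! # Unit strips 3 (generated) -/

set_option linter.all false
set_option maxRecDepth 100000

namespace Pool.Agent.Strip051.G.I5_16_3_8.Tab.St.C

open Pool.Agent.Strip051.PB Pool.Agent.Strip051.PB.T Pool.Agent.StripNear Pool.Agent.Strip051.LC
open Pool.Agent.Strip051.G.I5_16_3_8.Tab Pool.Agent.Strip051.G.I5_16_3_8.Tab.St

noncomputable def cut_A00pm_102_s1 : Cut := Cut.of [[⟨4, 0, 0, 1449551462⟩], [⟨0, 1, 0, 67108864⟩, ⟨1, 0, 0, 67108864⟩, ⟨2, 1, 0, 67108864⟩], [⟨0, 1, 0, 33554432⟩, ⟨1, 0, 1, 33554432⟩, ⟨2, 1, 1, 33554432⟩]]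

noncomputable def xt_A00pm_102_s1 : Ext := strExt dd true true false .u0 .u0m .u2 .npp 1 0 2 rfl rfl gf2 vv ndF0q1 ndF0q0

noncomputable def f_A00pm_102_s1 : ℕ → ℕ → ℕ → ℕ → Bool := onCell 536870912 536870912 1073741824 536870912 335544320 67108864
    (rowF 1 true true false .npp 1 0 2 (qsf 536870912 536870912 0 536870912 2) ndF0q1 ndF0q0 pcF2 cut_A00pm_102_s1 xt_A00pm_102_s1)

def k0_A00pm_102_s1 : ∃ t, chk3 f_A00pm_102_s1 t 2 4 1 = true :=
  ⟨(b (l 3) (l 3)), by decide +kernel⟩

def k1_A00pm_102_s1 : ∃ t, chk3 f_A00pm_102_s1 t 2 80 1 = true :=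
  ⟨(a (l 3) (l 3)), by decide +kernel⟩

def k2_A00pm_102_s1 : ∃ t, chk3 f_A00pm_102_s1 t 2 81 2 = true :=
  ⟨(b (a (l 2) (a (l 3) (a (l 3) (a (l 3) (b (l 3) (l 537364111)))))) (a (l 2) (a (l 3) (a (l 3) (a (b (l 3) (a (b (l 3) (a (l 3) (l 537298575))) (b (a (l 3) (a (b (l 3) (b (a (l 3) (a (b (l 3) (c (l 536950159) (l 536998031))) (l 536958095))) (a (l 536971151) (c (a (b (l 536956559) (l 536963215)) (b (l 536938895) (l 536945551))) (a (l 536999823) (l 536995983)))))) (b (l 536944527) (b (l 536948623) (a (b (b (l 536954255) (l 536955023)) (l 536956303)) (l 536947855)))))) (a (l 536999567) (a (a (l 536980623) (a (l 536974735) (l 537239439))) (b (b (a (l 536959119) (l 536951183)) (l 537495951)) (a (l 536969103) (l 536960911)))))))) (b (c (l 536814223) (l 536887439)) (a (b (b (l 536905615) (b (l 536910223) (c (l 536872847) (l 536946319)))) (a (b (a (b (l 536939663) (l 536943503)) (l 536926095)) (a (l 536949135) (l 536933519))) (b (l 536903055) (l 536910223)))) (b (c (l 536807567) (l 536876687)) (b (l 536855951)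 (l 537131919)))))))))), by decide +kernel⟩

def k3_A00pm_102_s1 : ∃ t, chk3 f_A00pm_102_s1 t 2 81 3 = true :=
  ⟨(b (a (l 2) (a (l 3) (a (l 3) (a (l 3) (b (l 3) (l 536923535)))))) (a (l 2) (a (l 3) (a (l 3) (a (b (l 3) (a (a (l 3) (a (l 3) (b (l 3) (l 537105551)))) (b (a (l 3) (a (b (l 3) (b (a (l 3) (a (b (l 3) (c (l 537047951) (l 537070223))) (l 537057679))) (a (l 537068175) (c (a (l 537049231) (l 537045135)) (a (b (l 537070991) (l 537069711)) (b (l 537066639) (l 537066127))))))) (b (l 537043343) (b (l 537046927) (a (b (b (l 537052815) (l 537053071)) (l 537053327)) (l 537044623)))))) (a (l 537083791) (a (a (l 537066127) (a (l 537060495) (b (l 537057935) (l 537056399)))) (b (b (a (l 537053071) (l 537045391)) (a (l 537052559) (l 537045391))) (a (l 537051535) (l 537044623)))))))) (b (c (l 536933775) (l 536953743)) (a (b (b (l 536999311) (b (l 537003407) (c (l 536992655) (l 537012111)))) (a (b (a (b (l 537033103) (l 537033615)) (l 537016975)) (a (l 537033359) (l 537017999))) (b (l 536991375) (l 536993679))))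 (b (l 536931215) (b (l 536939151) (l 536942735)))))))))), by decide +kernel⟩

def k4_A00pm_102_s1 : ∃ t, chk3 f_A00pm_102_s1 t 4 41 1 = true :=
  ⟨(l 2), by decide +kernel⟩

def k5_A00pm_102_s1 : ∃ t, chk3 f_A00pm_102_s1 t 10 82 1 = true :=
  ⟨(a (l 3) (a (l 3) (b (l 3) (b (l 3) (b (a (l 3) (c (b (l 3) (l 538235279)) (l 537230991))) (c (a (b (l 3) (l 538448783)) (b (l 538254223) (l 538272911))) (b (l 537272975) (l 537283471)))))))), by decide +kernel⟩

def k6_A00pm_102_s1 : ∃ t, chk3 f_A00pm_102_s1 t 20 83 1 = true :=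
  ⟨(b (b (l 3) (b (a (l 2) (a (l 2) (b (l 3) (a (b (l 3) (c (l 539029647) (l 537644943))) (b (a (b (l 3) (l 538217359)) (b (a (l 3) (a (c (l 538937999) (l 537408655)) (l 537720207))) (a (l 538187407) (c (a (l 538673295) (l 538933135)) (a (l 537418127) (l 537416847)))))) (a (l 537962383) (a (l 538200719) (b (l 537705871) (l 538184847))))))))) (a (l 2) (a (l 2) (b (a (b (l 538309775) (l 538332047)) (b (a (l 538250383) (l 537673615)) (l 537985679))) (b (a (l 538356879) (l 538278031)) (l 538350223))))))) (a (l 2) (b (a (l 2) (b (b (b (l 538386831) (l 538487695)) (c (l 539139727) (l 538414735))) (b (b (l 538907535) (l 539071887)) (b (b (l 539208335) (l 539306895)) (l 539448975))))) (a (l 2) (a (l 2) (a (b (l 16780080) (l 2)) (b (l 16780144) (l 16781344)))))))), by decide +kernel⟩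

def k7_A00pm_102_s1 : ∃ t, chk3 f_A00pm_102_s1 t 21 166 1 = true :=
  ⟨(b (b (b (a (l 3) (c (a (l 538466191) (l 538291599)) (l 537292943))) (a (a (l 3) (c (l 538646415) (l 537367439))) (c (a (l 538483343) (l 538310543)) (l 537301647)))) (a (a (b (l 3) (c (c (l 539225999) (l 538435983)) (l 537402511))) (b (c (l 538662287) (l 537371791)) (c (l 538678159) (l 537373839)))) (c (b (a (l 538500751) (l 538329231)) (a (l 538517903) (l 538347663))) (b (l 537308815) (l 537314447))))) (b (b (a (c (a (c (l 539238543) (l 538451855)) (l 538694031)) (a (l 537398671) (l 537373583))) (c (a (l 538535055) (l 538366351)) (l 537318287))) (a (a (b (a (b (c (l 538889359) (l 537402255)) (a (c (b (l 538909839) (l 538911887)) (l 537548687)) (l 537560207))) (b (l 538032527) (l 537500047))) (a (a (b (c (l 538915215) (l 537438351)) (l 537615503)) (b (l 537834895) (l 537842319))) (c (l 538826895) (l 537414031)))) (b (c (l 538705807) (l 537373327)) (c (l 538714511) (l 537385359)))) (b (c (a (l 538547855) (l 538380431)) (l 537321871))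 (c (a (l 538557071) (l 538390159)) (l 537329295))))) (a (b (a (b (a (a (l 537897615) (c (l 538891663) (l 537504143))) (c (l 538836623) (l 537467279))) (a (l 537896079) (c (l 538847887) (l 537537167)))) (b (c (l 538724239) (l 537420431)) (c (l 538735247) (l 537470607)))) (a (b (a (l 538186895) (l 538099087)) (a (l 538211727) (l 538121871))) (b (c (l 538747535) (l 537532815)) (c (l 538761359) (l 537604751))))) (a (b (b (c (l 538567311) (l 537375119)) (c (l 538578319) (l 537410959))) (b (c (l 538590863) (l 537457295)) (c (l 538604175) (l 537512591)))) (b (b (l 537445775) (l 537594767)) (b (l 537611407) (l 537637007))))))), by decide +kernel⟩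

def k8_A00pm_102_s1 : ∃ t, chk3 f_A00pm_102_s1 t 42 167 1 = true :=
  ⟨(b (b (a (b (a (b (l 538239631) (l 538281615)) (b (l 538147727) (l 538176655))) (c (a (l 539026575) (l 538945167)) (a (l 538208143) (l 538077071)))) (b (b (a (l 538058383) (l 537969807)) (l 538039951)) (b (l 538116495) (l 538229135)))) (a (a (b (b (l 538684047) (c (l 16779056) (l 538560911))) (b (b (l 538972303) (l 539066767)) (l 16779440))) (b (b (l 538536591) (l 538687119)) (b (b (l 16779120) (l 538902671)) (l 16779520)))) (b (b (l 538353039) (l 538490255)) (b (b (l 538605455) (l 538688911)) (l 538813071))))) (b (b (a (a (c (l 16780240) (l 16779592)) (l 16780000)) (a (l 16780072) (l 16780144))) (b (b (a (a (c (l 16780664) (l 16779952)) (l 16780392)) (c (l 16780936) (l 538871711))) (b (a (a (c (l 16780792) (l 16780056)) (l 16780512)) (c (l 16781064) (l 538912415))) (b (a (a (c (l 16780856) (l 16780104)) (l 16780568)) (c (l 16781128) (l 538932127))) (a (a (a (l 16780496) (l 16780544)) (l 16780608)) (a (l 16780688) (l 16780760))))))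 (a (c (a (l 16781080) (l 16781200)) (a (l 16780296) (l 16780360))) (a (l 16780864) (l 16780928))))) (a (c (a (l 16781904) (l 16782032)) (a (l 16780984) (l 16781056))) (c (l 16782192) (a (l 16781112) (l 16781160)))))), by decide +kernel⟩

def k9_A00pm_102_s1 : ∃ t, chk3 f_A00pm_102_s1 t 43 167 1 = true :=
  ⟨(a (a (b (b (b (b (l 537880463) (l 537906063)) (b (l 537996687) (l 16778632))) (b (b (l 16778856) (l 16779104)) (b (l 538473615) (l 16779720)))) (b (l 16780528) (l 16781768))) (b (b (b (b (l 537789839) (l 537844111)) (b (l 16778512) (l 16778696))) (b (b (l 16778912) (l 16779168)) (b (l 16779456) (l 16779784)))) (b (l 16780584) (l 16781824)))) (a (b (b (b (b (l 537719695) (l 537788303)) (b (l 16778568) (l 16778760))) (b (b (l 16778976) (l 16779224)) (b (l 16779512) (l 16779832)))) (l 16781256)) (b (b (b (b (l 537673615) (l 537736591)) (b (l 16778624) (l 16778816))) (b (b (l 16779024) (l 16779272)) (b (l 16779560) (l 16779880)))) (l 16781304)))), by decide +kernel⟩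

def k10_A00pm_102_s1 : ∃ t, chk3 f_A00pm_102_s1 t 22 82 1 = true :=
  ⟨(b (a (l 3) (b (a (l 3) (a (l 3) (b (l 3) (c (l 537111951) (l 537148559))))) (a (b (a (l 3) (a (l 3) (c (l 537363855) (l 537174671)))) (c (b (l 537482639) (l 537503631)) (b (l 537175951) (l 537165711)))) (b (c (l 537483151) (b (l 537151119) (l 537144207))) (c (l 537259919) (l 537131919)))))) (b (a (b (a (l 3) (b (a (l 3) (c (l 537689487) (l 537178255))) (c (l 537762447) (l 537170575)))) (b (a (l 3) (c (l 537781647) (l 537154959))) (b (a (a (l 3) (a (l 3) (l 537207695))) (c (l 537795983) (l 537142671))) (a (a (l 3) (a (c (a (l 537997455) (l 537972367)) (a (l 537158287) (l 537149839))) (c (l 537934479) (l 537146255)))) (a (b (l 537194639) (l 537192079)) (l 537181071)))))) (b (c (a (l 537266063) (l 537304463)) (a (l 537147791) (l 537113999))) (b (c (l 537452431) (l 537113231)) (c (l 537473423) (l 537100431))))) (a (c (a (b (a (l 538083983) (a (b (l 538000783) (l 538021007)) (b (b (l 537944207) (l 537954703)) (l 537970575)))) (a (l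 538123919) (a (l 538051727) (l 537465231)))) (b (a (b (a (l 537898127) (l 537846415)) (l 537893007)) (b (l 537767567) (l 537788559))) (a (l 537656463) (l 537283983)))) (a (b (a (l 537190799) (a (b (l 537166479) (l 537177487)) (b (b (l 537143951) (l 537151631)) (l 537161359)))) (a (l 537216399) (a (l 537196431) (l 537180815)))) (b (a (b (a (l 537138319) (l 537131407)) (l 537140623)) (b (l 537122191) (l 537122959))) (a (l 537155727) (l 537131919))))) (b (b (c (l 537494415) (l 537089679)) (c (l 537516175) (l 537084815))) (a (c (l 537391759) (l 537103503)) (c (l 537437327) (l 537071503))))))), by decide +kernel⟩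

def k11_A00pm_102_s1 : ∃ t, chk3 f_A00pm_102_s1 t 22 166 1 = true :=
  ⟨(b (a (c (a (b (a (l 538163599) (b (l 538058639) (l 538079375))) (b (l 537611919) (l 537632143))) (b (a (l 537968015) (l 537864591)) (a (l 537473935) (l 537908623)))) (a (b (a (l 537239439) (b (l 537210511) (l 537222543))) (b (a (l 537255823) (l 537233551)) (l 537260175))) (b (a (l 537179791) (l 537151119)) (a (l 537202319) (l 537171343))))) (b (a (c (l 537437071) (l 537116303)) (c (l 537484687) (l 537079439))) (a (c (l 537751183) (l 537132687)) (c (l 537532559) (l 537091471))))) (b (c (a (a (b (l 537652367) (b (l 538204559) (l 538212751))) (b (l 537992847) (a (l 538064783) (l 537964175)))) (b (l 537678479) (l 537702031))) (a (a (b (l 537402511) (b (l 537274511) (l 537270927))) (b (l 537200783) (a (l 537227663) (l 537196175)))) (b (l 537121167) (l 537128847)))) (a (a (b (c (b (l 538224015) (l 538236303)) (b (l 537286543) (l 537309327))) (c (l 537719183) (b (l 537339279) (l 537375887)))) (b (a (c (l 538088591) (l 537255823)) (l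 537372559)) (c (a (l 538115727) (l 538016143)) (a (l 537309071) (l 537271695))))) (b (c (l 537727631) (l 537149839)) (a (c (l 537862287) (l 537221519)) (l 537305231)))))), by decide +kernel⟩

def k12_A00pm_102_s1 : ∃ t, chk3 f_A00pm_102_s1 t 22 167 1 = true :=
  ⟨(a (a (a (b (b (b (b (l 537629583) (l 537687951)) (b (l 16778672) (l 16778864))) (b (b (l 16779072) (l 16779320)) (b (l 16779600) (l 16779920)))) (l 16781336)) (b (b (b (b (l 537587343) (l 537641359)) (b (l 16778720) (l 16778904))) (b (b (l 16779112) (l 16779352)) (b (l 16779640) (l 16779952)))) (l 16781360))) (a (b (b (b (b (l 537542287) (l 537592719)) (b (l 16778752) (l 16778928))) (b (b (l 16779144) (l 16779376)) (b (l 16779664) (l 16779976)))) (l 16781376)) (b (b (b (b (l 537493391) (l 16778600)) (c (l 16779840) (l 16778448))) (b (b (l 16779144) (l 16779384)) (b (l 16779664) (l 16779976)))) (l 16781360)))) (a (c (b (b (b (l 537894031) (l 537930127)) (b (a (l 16780064) (l 16780000)) (b (l 16780256) (l 16780488)))) (l 16782000)) (b (b (b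 (l 537284751) (l 537369487)) (b (b (l 16778688) (l 16778896)) (b (l 16779136) (l 16779408)))) (l 16780632))) (a (b (b (b (l 16778544) (l 16778848)) (b (a (l 16779240) (l 16779240)) (b (l 16779624) (l 16779928)))) (l 16781264)) (b (b (b (l 16778544) (l 16778840)) (b (l 16781848) (b (l 16779608) (l 16779904)))) (l 16781224))))), by decide +kernel⟩

def k13_A00pm_102_s1 : ∃ t, chk3 f_A00pm_102_s1 t 23 164 1 = true :=
  ⟨(a (a (b (c (b (a (l 537073039) (l 537043855)) (l 537070223)) (b (c (l 537113743) (l 537118607)) (l 537111183))) (b (c (l 537081231) (l 537101455)) (c (l 537090959) (l 537089679)))) (b (a (c (l 537288335) (b (l 537079183) (l 537073295))) (a (b (c (l 536991887) (l 537058447)) (l 537042063)) (b (c (a (l 536980367) (l 536972431)) (a (l 537048463) (l 537041807))) (c (l 536991375) (l 537040527))))) (a (b (l 537064847) (l 537065359)) (c (a (l 537024911) (l 537010575)) (b (l 537039759) (l 537031567)))))) (b (a (b (a (a (c (l 536960399) (l 537031567)) (c (l 537213327) (l 537017487))) (c (b (l 536917903)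 (l 536925839)) (b (l 536994703) (l 536994959)))) (a (c (l 536967823) (l 537021327)) (c (l 536937103) (l 536993679)))) (b (c (a (b (l 536887183) (l 536894863)) (c (l 536826255) (l 536886671))) (a (l 536962703) (l 536929935))) (c (a (l 536906383) (l 536875919)) (a (l 536964239) (l 536933263))))) (a (b (a (c (l 536982671) (l 537016463)) (c (l 536952207) (l 536991119))) (a (c (l 536996495) (l 537009807)) (c (l 536966799) (l 536986255)))) (b (c (a (l 536921999) (l 536891791)) (a (l 536963471) (l 536934287))) (c (l 536921743) (l 536946831)))))), by decide +kernel⟩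

def k14_A00pm_102_s1 : ∃ t, chk3 f_A00pm_102_s1 t 23 165 1 = true :=
  ⟨(a (b (a (b (l 537366159) (l 537091727)) (b (a (l 537064079) (c (l 537036943) (l 537022607))) (c (l 537058191) (l 537020303)))) (a (b (l 537086863) (l 537633423)) (b (c (a (l 537081231) (l 16777600)) (l 537007247)) (c (a (l 16777704) (l 16777704)) (l 537004431))))) (b (a (a (c (b (l 537009295) (l 537020559)) (b (l 537001359) (l 16777456))) (b (l 536990607) (l 537260431))) (b (c (l 536936591) (l 536943247)) (c (l 536950415) (l 536937615)))) (a (b (c (a (l 16777584) (l 16777552)) (c (l 16777504) (l 16777408))) (c (a (l 16777680) (l 16777656)) (c (l 16777544) (l 16777408)))) (b (c (l 536964751) (l 536931471)) (c (l 536987535) (l 16777416)))))), by decide +kernel⟩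

def k15_A00pm_102_s1 : ∃ t, chk3 f_A00pm_102_s1 t 46 83 1 = true :=
  ⟨(b (b (a (b (c (l 537252239) (l 537044367)) (c (l 537302927) (l 537054095))) (b (c (a (l 16777848) (l 16777840)) (l 537008527)) (c (a (l 16778016) (l 16778008)) (c (l 16777736) (l 16777504))))) (b (a (b (l 537432719) (l 537448079)) (b (a (l 16780576) (l 16780560)) (a (l 16780648) (l 16780632)))) (a (b (l 537474191) (a (l 16778320) (l 16778312))) (b (a (l 16778136) (l 16780744)) (a (l 16778296) (l 16780896)))))) (a (a (b (b (b (l 16778544) (l 16778832)) (b (a (l 16779216) (l 16779208)) (b (l 16779584) (l 16779872)))) (l 16781176)) (b (b (b (l 16778528) (l 16781440)) (b (a (l 16779192) (l 16781808)) (b (l 16779560) (l 16779840)))) (l 16783744))) (b (a (b (b (l 16781136) (l 16781416)) (b (c (l 16779672) (l 16778632)) (b (l 16779520) (l 16779800)))) (b (b (c (l 16778896) (l 16778048)) (c (l 16779224) (l 16778280))) (b (b (l 16779032) (l 16779240)) (b (l 16782104) (l 16779752))))) (a (b (l 16780504) (l 16781616)) (a (l 16786248) (l 16786216)))))),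 by decide +kernel⟩

def k16_A00pm_102_s1 : ∃ t, chk3 f_A00pm_102_s1 t 47 166 1 = true :=
  ⟨(b (a (b (c (a (l 16777816) (l 16777784)) (c (l 16777608) (l 16777424))) (c (a (l 16777992) (l 16777960)) (c (l 16777696) (l 16777448)))) (b (c (a (l 16777744) (l 16777680)) (l 16777448)) (c (a (l 16777912) (l 16777848)) (l 16777496)))) (b (a (b (c (c (l 16778752) (l 16778032)) (l 16777624)) (c (a (l 16778264) (l 16778232)) (l 16777664))) (b (a (l 16777840) (l 16777784)) (a (l 16780536) (l 16777864)))) (a (b (c (c (l 16779072) (l 16778248)) (l 16777728)) (c (c (l 16779256) (l 16778424)) (l 16777840))) (b (a (l 16780640) (l 16777960)) (a (l 16780792) (l 16778112)))))), by decide +kernel⟩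

def k17_A00pm_102_s1 : ∃ t, chk3 f_A00pm_102_s1 t 47 167 1 = true :=
  ⟨(a (a (c (a (b (b (b (l 16778872) (l 16779192)) (b (l 16779608) (b (l 16780008) (l 16780304)))) (l 16781672)) (b (b (b (l 16778856) (l 16779176)) (b (l 16779584) (b (l 16779976) (l 16780280)))) (l 16781632))) (a (c (b (b (b (l 16778248) (l 16778496)) (b (l 16778824) (b (l 16779152) (l 16779408)))) (l 16780552)) (b (b (b (l 16777784) (l 16777984)) (b (l 16778264) (b (l 16778544) (l 16778768)))) (l 16779768))) (b (b (b (l 16778000) (l 16778224)) (b (l 16778520) (b (l 16778824) (l 16779056)))) (l 16780120)))) (c (b (b (b (l 16778824) (l 16779144)) (b (c (l 16779792) (l 16779296)) (b (l 16779936) (l 16780232)))) (b (l 16780976) (l 16782160))) (a (b (b (b (l 16777984) (l 16778200)) (b (l 16778496) (b (l 16778792) (l 16779024)))) (l 16780080)) (b (b (b (l 16777960) (l 16778176)) (b (l 16778464) (b (l 16778760) (l 16778992)))) (l 16780032))))) (a (c (b (b (b (l 16778768) (l 16779080)) (b (l 16779480) (b (l 16779864) (l 16780152)))) (b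 (l 16780888) (l 16782048))) (b (b (b (l 16777920) (l 16778136)) (b (l 16778424) (b (l 16778712) (l 16778936)))) (l 16779960))) (b (b (b (l 16778312) (l 16781192)) (b (c (l 16779400) (l 16778360)) (b (l 16779232) (l 16779488)))) (c (l 16781360) (l 16779864))))), by decide +kernel⟩

def k18_A00pm_102_s1 : ∃ t, chk3 f_A00pm_102_s1 t 4 21 1 = true :=
  ⟨(l 2), by decide +kernel⟩

def k19_A00pm_102_s1 : ∃ t, chk3 f_A00pm_102_s1 t 10 21 1 = true :=
  ⟨(b (b (a (b (a (l 2) (b (a (l 2) (a (l 2) (a (l 2) (l 16780472)))) (l 2))) (l 2)) (b (a (a (b (a (a (l 16780552) (l 16780624)) (a (l 16780680) (l 16780728))) (c (a (l 16786344) (l 16786512)) (a (l 16784696) (l 16784800)))) (a (c (l 16782760) (b (l 16782744) (l 16784872))) (c (l 16785488) (l 16781240)))) (c (a (a (l 16785592) (l 16785680)) (a (l 16785760) (l 16785824))) (a (a (l 16783904) (l 16783936)) (a (l 16783960) (l 16783976))))) (a (c (a (a (l 16790080) (l 16790280)) (a (l 16790440) (l 16790568))) (a (a (c (l 16788384) (l 16784616)) (c (l 16788528) (l 16784736)))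 (a (c (l 16788632) (l 16787424)) (l 16785472)))) (a (c (l 16790720) (a (l 16788128) (l 16788160))) (a (l 16789512) (l 16789544)))))) (a (l 2) (b (a (a (c (l 16795168) (a (l 2) (l 16786872))) (c (l 16795544) (a (l 16792232) (l 16792296)))) (a (c (l 16795784) (a (l 16792344) (l 16792352))) (c (l 16795928) (l 16792360)))) (a (a (l 2) (c (l 16800584) (a (l 16796432) (l 16796528)))) (a (c (l 16800848) (a (l 16796568) (l 16796584))) (c (l 16800984) (l 16796568))))))) (a (l 2) (b (c (a (a (l 2) (b (l 16805640) (l 2))) (a (l 16798000) (l 16808656))) (a (a (l 2) (b (a (l 2) (l 16800768)) (l 2))) (a (b (a (l 16800832) (l 16800848)) (c (l 16806632) (l 16803664))) (a (l 16797744) (l 16802952))))) (a (l 2) (a (c (l 16818792) (b (l 16809480) (l 2))) (c (l 16819016) (a (l 16811696) (l 16811656)))))))), by decide +kernel⟩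

def k20_A00pm_102_s1 : ∃ t, chk3 f_A00pm_102_s1 t 11 42 1 = true :=
  ⟨(b (a (a (b (a (a (l 16779688) (l 16779704)) (a (l 16784944) (l 16779672))) (a (c (l 16790992) (l 16788160)) (c (l 16791008) (l 16788072)))) (b (a (a (l 16779624) (l 16779552)) (a (c (l 16785784) (l 16783648)) (l 16782016))) (a (c (l 16790912) (l 16787888)) (a (l 16789240) (l 16789112))))) (a (b (a (a (c (l 16785640) (l 16783448)) (c (l 16785552) (l 16783336))) (a (c (l 16785456) (l 16783216)) (c (l 16785344) (l 16783096)))) (a (a (l 16788976) (l 16788824)) (a (l 16788664) (c (l 16790096) (l 16786880))))) (b (a (c (a (l 16782600) (b (l 16783920) (l 16786248))) (a (l 16782960) (l 16782816))) (c (a (c (l 16785480) (l 16784376)) (l 16784768)) (a (l 16782672) (l 16782520)))) (a (c (a (l 16789920) (l 16789728)) (a (l 16786688) (l 16786488))) (c (a (l 16789520) (l 16789288)) (a (l 16786280) (l 16786064))))))) (a (a (a (c (l 16793288) (a (l 16794416) (l 16794368))) (a (l 16791176) (l 16785864))) (a (c (l 16793136) (a (l 16794080) (l 16793920)))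 (c (b (l 16795664) (l 16800624)) (a (l 16793752) (l 16793552))))) (a (a (a (c (l 16797864) (l 16793328)) (c (l 16797672) (l 16793096))) (a (c (l 16792208) (l 16792856)) (c (l 16791976) (l 16792592)))) (a (c (a (b (l 16794616) (l 16799352)) (b (l 16794376) (l 16799056))) (a (b (l 16790432) (l 16794232)) (b (l 16790184) (l 16793928)))) (c (a (b (l 16794112) (l 16798744)) (b (l 16793824) (l 16798408))) (a (b (l 16789912) (l 16793608)) (b (l 16789640) (l 16793280)))))))), by decide +kernel⟩

def k21_A00pm_102_s1 : ∃ t, chk3 f_A00pm_102_s1 t 11 43 1 = true :=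
  ⟨(a (a (a (b (a (l 16800536) (l 16795256)) (c (l 16819072) (a (l 16811576) (l 16811480)))) (b (c (l 16808640) (l 16802632)) (c (l 16818968) (l 16811240)))) (a (b (c (l 16808456) (l 16802304)) (l 16804296)) (b (c (l 16808112) (l 16796592)) (c (l 16818336) (l 16810296))))) (a (a (b (c (l 16797168) (a (l 16801432) (l 16801120))) (c (l 16817776) (l 16809608))) (b (c (a (l 16807216) (l 16806896)) (a (l 16800784) (l 16800432))) (c (l 16806592) (a (l 16809024) (l 16808592))))) (a (b (c (a (l 16806560) (l 16806200)) (a (l 16800064) (l 16799680))) (c (a (l 16816456) (l 16816008)) (a (l 16808136) (l 16807656)))) (b (c (a (l 16800568) (l 16805400)) (a (l 16799288) (l 16798872))) (c (a (l 16815528) (l 16815024)) (a (l 16807160) (l 16806656))))))), by decide +kernel⟩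

def k22_A00pm_102_s1 : ∃ t, chk3 f_A00pm_102_s1 t 2 11 1 = true :=
  ⟨(a (l 2) (a (a (l 2) (b (b (b (a (l 2) (a (l 2) (a (l 2) (a (l 2) (l 16804112))))) (l 2)) (l 2)) (l 2))) (b (a (b (b (a (c (a (l 16829648) (l 16829560)) (a (c (l 16822752) (l 16818136)) (l 16820144))) (a (l 16813968) (l 16813432))) (a (c (a (l 16840416) (l 16840376)) (a (l 16829560) (l 16829288))) (a (c (l 16840096) (l 16828792)) (l 16812856)))) (a (b (c (l 16851408) (a (l 2) (l 16838664))) (l 2)) (a (b (a (l 16844808) (l 16844560)) (l 16834184)) (b (l 16823104) (l 16833624))))) (b (a (a (c (l 16823016) (b (l 16818272) (l 16827240))) (b (c (l 16827400) (l 16817344)) (c (l 16838056) (l 16826232)))) (a (b (c (l 16815960) (a (l 16816576) (l 16816016))) (c (l 16836992) (l 16825056))) (b (c (a (l 16825616) (l 16825024)) (a (l 16815424) (l 16814824))) (c (l 16835768) (l 16813272))))) (b (a (a (l 16843240) (l 16821256)) (a (c (l 16847912) (l 16834200)) (c (l 16846568) (l 16832768)))) (a (a (l 16832792) (l 16831704)) (a (l 16830440) (l 16828984))))))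 (a (b (a (l 2) (a (l 2) (b (l 16844392) (l 2)))) (l 2)) (b (a (a (b (l 16843600) (l 16875656)) (b (l 16842528) (l 16853656))) (a (b (l 16862160) (l 16852336)) (c (l 16875240) (l 16857016)))) (a (a (l 2) (b (l 16886040) (l 2))) (c (a (l 16901312) (l 16899888)) (a (l 16858872) (l 16878216))))))))), by decide +kernel⟩

def k23_A00pm_102_s1 : ∃ t, chk3 f_A00pm_102_s1 t 2 3 1 = true :=
  ⟨(a (l 2) (b (b (a (l 2) (b (a (l 2) (b (a (l 2) (c (l 16905504) (a (l 2) (l 16900736)))) (l 2))) (l 2))) (l 2)) (l 2))), by decide +kernel⟩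

def k24_A00pm_102_s1 : ∃ t, chk3 f_A00pm_102_s1 t 12 4 1 = true :=
  ⟨(b (l 3) (b (l 3) (b (l 3) (a (l 3) (b (b (l 3) (b (l 3) (a (l 3) (a (l 3) (a (l 3) (c (l 535829903) (l 535891087))))))) (a (b (l 3) (b (a (l 3) (a (l 3) (c (l 536086671) (l 536165007)))) (a (a (l 3) (c (l 536196383) (l 536284047))) (c (c (l 536101263) (l 536167055)) (l 536220815))))) (b (c (a (b (l 3) (c (l 535962511) (l 536021135))) (b (c (l 535851919) (l 535906703)) (l 535915151))) (c (a (l 536038287) (l 535955343)) (a (l 536050831) (l 535966351)))) (c (a (b (l 536026767) (l 536059279)) (b (l 535948175) (l 535981455))) (a (c (l 536107663) (l 536123023)) (c (l 536025743) (l 536038799))))))))))), by decide +kernel⟩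

def k25_A00pm_102_s1 : ∃ t, chk3 f_A00pm_102_s1 t 13 8 1 = true :=
  ⟨(l 3), by decide +kernel⟩

def k26_A00pm_102_s1 : ∃ t, chk3 f_A00pm_102_s1 t 13 18 1 = true :=
  ⟨(a (l 3) (b (l 3) (a (l 3) (a (l 3) (b (l 3) (a (b (l 3) (b (l 3) (l 535307919))) (b (l 3) (b (c (l 535562639) (b (c (l 535273359) (l 535237519)) (l 535251599))) (l 535267215))))))))), by decide +kernel⟩

def k27_A00pm_102_s1 : ∃ t, chk3 f_A00pm_102_s1 t 26 38 1 = true :=
  ⟨(a (l 3) (b (l 3) (a (b (l 3) (a (l 3) (c (l 535514255) (l 535549839)))) (c (b (l 535507087) (l 535456143)) (b (l 535522959) (l 535492495)))))), by decide +kernel⟩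

def k28_A00pm_102_s1 : ∃ t, chk3 f_A00pm_102_s1 t 52 39 1 = true :=
  ⟨(a (b (b (l 3) (c (c (b (l 535708047) (l 535740559)) (l 535773839)) (c (l 535802767) (l 535810191)))) (b (c (b (l 535802255) (l 535836047)) (l 535880335)) (c (l 535885711) (l 535952271)))) (b (b (b (b (l 3) (c (l 535597455) (l 535648399))) (c (l 535622031) (l 535674511))) (c (b (l 535655567) (l 535689359)) (l 535726479))) (b (c (l 535739279) (l 535797903)) (c (l 535808655) (l 535870095))))), by decide +kernel⟩

def k29_A00pm_102_s1 : ∃ t, chk3 f_A00pm_102_s1 t 53 39 1 = true :=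
  ⟨(b (c (b (a (a (b (a (b (b (l 3) (l 535536015)) (l 535548303)) (a (b (b (c (l 535493007) (l 535537551)) (l 535521167)) (l 535533455)) (b (c (b (l 535483279) (l 535481231)) (b (l 535527567) (l 535526799))) (c (l 535497871) (l 535543183))))) (a (l 535573135) (a (l 535558543) (l 535551887)))) (b (b (b (c (l 535460239) (l 535504783)) (c (l 535458959) (l 535504527))) (a (c (l 535474063) (l 535520143)) (l 535475343))) (a (c (l 535499919) (l 535546767)) (l 535496847)))) (b (b (l 535427983) (l 535424143)) (a (l 535457567) (l 535413903)))) (a (a (b (l 535596943) (l 535630991)) (b (a (l 535563919) (l 535534479)) (l 535586191))) (b (a (l 535488911) (l 535437455)) (a (l 535526543) (l 535469455))))) (b (a (a (b (c (a (l 535585055) (b (a (b (l 535561103) (l 535565199)) (b (l 535551375) (l 535551375))) (l 535576719))) (a (l 535588751) (b (a (l 535563919) (l 535554447)) (l 535580047)))) (a (l 535624079) (a (l 535608719) (l 535601295)))) (b (b (b (l 535532431) (c (l 535528847) (l 535532431))) (a (l 535550095) (l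 535526543))) (a (l 535576975) (l 535549327)))) (b (b (l 535476111) (l 535475855)) (a (l 535511951) (l 535468943)))) (a (a (c (l 535660431) (l 535665551)) (b (l 535734303) (l 535639183))) (b (a (l 535544463) (l 535494799)) (l 535553167))))) (a (a (b (c (l 535681679) (l 535737231)) (c (l 535752335) (l 535809935))) (b (c (l 535639183) (l 535693455)) (c (l 535711375) (l 535766927)))) (b (c (a (l 535584399) (l 535524239)) (a (l 535640207) (l 535582863))) (c (a (l 535661711) (l 535605391)) (a (l 535717263) (l 535662735)))))), by decide +kernel⟩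

def k30_A00pm_102_s1 : ∃ t, chk3 f_A00pm_102_s1 t 27 19 1 = true :=
  ⟨(b (b (c (b (a (a (l 3) (l 535430799)) (a (l 535345295) (l 535264655))) (a (a (l 535472527) (l 535388815)) (a (l 535309199) (l 535233935)))) (a (b (a (l 3) (l 535412623)) (a (l 535470479) (l 535389071))) (a (b (l 535329679) (l 535310479)) (b (l 535250063) (l 535235215))))) (b (a (c (a (l 535426447) (l 535349135)) (a (l 535443855) (l 535367311))) (c (a (l 535275919) (l 535206287)) (a (l 535293327) (l 535222671)))) (a (c (a (l 535382671) (l 535312527)) (a (l 535418767) (l 535347599))) (c (a (l 535245711) (l 535182479)) (a (l 535278991) (l 535213199)))))) (b (a (b (b (c (a (l 535355279) (l 535289743)) (a (l 535404431) (l 535336847))) (c (a (l 535355535) (l 535287439)) (a (l 535410575) (l 535340431)))) (a (c (b (l 535371663) (l 535396495)) (b (l 535429775) (l 535456399))) (c (b (l 535297679) (l 535316111)) (l 535363215)))) (a (b (b (c (l 535227535) (l 535271823)) (l 535528847)) (c (l 535238031) (l 535293583))) (b (c (l 535165583) (l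 535208847)) (c (l 535178383) (l 535229583))))) (a (b (c (a (b (l 535426959) (l 535461519)) (b (l 535340431) (l 16769216))) (a (b (l 535487631) (l 535522191)) (b (l 16772752) (l 16769544)))) (a (c (l 535517327) (l 535577487)) (c (l 535417743) (l 535479183)))) (b (a (c (l 535278223) (l 535337615)) (c (l 16770904) (l 16771288))) (c (a (l 535334799) (l 16764384)) (a (l 16772096) (l 16764832))))))), by decide +kernel⟩

def k31_A00pm_102_s1 : ∃ t, chk3 f_A00pm_102_s1 t 14 8 1 = true :=
  ⟨(a (l 3) (b (l 3) (b (l 3) (a (l 3) (b (a (l 3) (b (l 3) (a (l 3) (c (l 534488975) (a (l 534422415) (l 534407823)))))) (c (a (a (b (l 3) (l 534631823)) (b (l 534574223) (l 534601615))) (a (b (l 534544783) (l 534572431)) (b (l 534516367) (l 534543503)))) (a (a (b (l 3) (c (l 534585487) (l 534536591))) (b (c (l 534525583) (l 534475663)) (c (l 534554511) (l 534505359)))) (a (b (c (l 534495375) (l 534444943)) (c (l 534524303) (l 534474639))) (b (c (l 534465935) (l 534683423)) (c (l 534494607) (l 534444431))))))))))), by decide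 +kernel⟩

def k32_A00pm_102_s1 : ∃ t, chk3 f_A00pm_102_s1 t 30 16 1 = true :=
  ⟨(a (l 3) (b (l 3) (a (l 3) (b (l 3) (a (l 3) (b (l 3) (a (b (l 3) (b (a (l 3) (c (l 534146447) (l 534051727))) (a (a (l 3) (b (l 3) (c (l 534158991) (l 534064783)))) (c (c (l 534168719) (l 534133903)) (l 534058383))))) (a (b (l 3) (c (b (l 534141327) (l 534147471)) (b (l 534046351) (l 534053007)))) (b (l 14) (c (b (l 534136207) (l 534142351)) (b (l 534040719) (l 534047375)))))))))))), by decide +kernel⟩

def k33_A00pm_102_s1 : ∃ t, chk3 f_A00pm_102_s1 t 60 17 1 = true :=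
  ⟨(b (a (l 3) (b (l 3) (a (b (l 3) (c (a (l 534363535) (l 534350735)) (a (l 534281103) (l 534267791)))) (b (b (l 3) (a (a (l 3) (l 534281615)) (a (l 534275215) (l 534269071)))) (c (a (l 534338191) (l 534325903)) (a (l 534254735) (l 534241679))))))) (a (b (c (a (b (l 534702735) (l 534461327)) (b (a (l 534416271) (l 534403215)) (l 534434191))) (a (b (a (l 3) (l 534350735)) (a (l 534393487) (l 534379407))) (b (a (l 534336655) (l 534323087)) (a (l 534365327) (l 534351503))))) (c (a (b (l 534488463) (l 534515599)) (b (l 534461071) (l 534488207))) (a (a (b (l 534422415) (l 534451343)) (b (l 534408079) (l 534437007))) (b (a (l 534393999) (l 534380175)) (a (l 534422927) (l 534408847)))))) (b (a (c (b (a (l 534390159) (l 534377359)) (a (l 534417039) (l 534404239))) (b (a (l 534309519) (l 534295951)) (a (l 534337935) (l 534324367)))) (b (c (a (l 534364815) (l 534352527)) (a (l 534282895) (l 534269839))) (c (a (l 534391439) (l 534378895)) (a (l 534311055) (l 534297999))))) (a (c (b (l 534434447) (l 534461327))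 (b (a (l 534366351) (l 534352783)) (a (l 534395023) (l 534381455)))) (c (b (a (l 534418319) (l 534405775)) (b (l 534429327) (l 16768248))) (b (a (l 534339471) (l 534326159)) (a (l 534367887) (l 534354575)))))))), by decide +kernel⟩

def k34_A00pm_102_s1 : ∃ t, chk3 f_A00pm_102_s1 t 122 17 1 = true :=
  ⟨(b (b (b (a (l 3) (a (l 3) (a (l 3) (b (l 3) (b (l 3) (l 534171535)))))) (b (a (l 3) (a (c (l 534232975) (l 534143119)) (c (l 534221455) (a (l 534135439) (l 534129551))))) (a (a (l 3) (c (l 534257551) (l 534169231))) (a (c (l 534245775) (l 534156943)) (c (l 534234255) (l 534144655)))))) (a (b (a (c (l 534287247) (b (l 534195343) (l 534209167))) (c (l 534275471) (b (l 534182799) (l 534196623)))) (c (a (l 534313615) (l 534301839)) (a (l 534229023) (b (l 534210447) (l 534224271))))) (b (a (c (l 534397839) (b (l 534170511) (l 534184335))) (c (b (l 534247311) (l 534260111)) (b (l 534158479) (l 534172047)))) (a (c (l 534289807) (b (l 534198159) (l 534211727))) (c (l 534278287) (b (l 534185871) (l 534199439)))))))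 (b (c (a (b (a (l 534340239) (l 534328207)) (a (l 534366607) (l 534354575))) (b (a (l 534316175) (l 534304399)) (a (l 534342543) (l 534330767)))) (a (b (a (l 534257039) (l 534244239)) (a (l 534284943) (l 534272143))) (a (b (l 534231695) (l 534259599)) (b (l 534219295) (l 534247055))))) (c (a (b (a (l 534393231) (l 534380943)) (b (l 16764800) (l 16763656))) (a (b (l 534368911) (l 16762696)) (b (l 16766600) (l 16761656)))) (a (a (b (l 534313103) (l 534341519)) (b (l 534300303) (l 534328719))) (a (b (l 534287503) (l 534315919)) (b (l 534274959) (l 16763776))))))), by decide +kernel⟩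

def k35_A00pm_102_s1 : ∃ t, chk3 f_A00pm_102_s1 t 123 34 1 = true :=
  ⟨(a (b (b (b (a (l 3) (c (a (l 534177679) (l 534172303)) (a (l 534085007) (l 534079375)))) (a (c (a (l 534201487) (l 534196111)) (a (l 534110095) (l 534104207))) (c (a (l 534190479) (l 534185103)) (a (l 534098575) (l 534092687))))) (a (a (c (l 534218895) (l 534129183)) (c (l 534213519) (l 534123295))) (a (c (l 534207887) (l 534117407)) (c (l 534202511) (l 534178847))))) (c (b (a (b (l 534235791) (l 534248591)) (b (l 534224527) (l 534237327))) (a (l 534266767) (l 534255503))) (a (b (b (l 534146447) (l 534160015)) (a (l 534183823) (l 534177935))) (b (a (l 534144655) (l 534139023)) (a (l 534172047) (l 534166159)))))) (b (b (a (b (c (a (b (a (l 534166159) (l 534163599)) (l 534170767)) (b (c (l 534174863) (l 534140303)) (l 534165391))) (a (b (l 534070671) (l 534077327)) (b (l 534065039) (l 534071695)))) (a (c (l 534179727) (l 534087055)) (c (l 534174351) (l 534081423)))) (b (a (c (b (l 534153871) (l 534160271)) (b (l 534059663) (l 534066319)))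 (c (b (l 534148751) (l 534154895)) (b (l 534054031) (l 534060687)))) (a (c (l 534169231) (l 534075791)) (c (l 534163855) (l 534070415))))) (c (a (a (l 534197135) (a (l 534193551) (l 534190991))) (a (b (l 534181775) (l 534194575)) (b (l 534176655) (l 534189455)))) (a (a (b (l 534100623) (l 534113935)) (b (l 534094991) (l 534108303))) (a (b (l 534089359) (l 534102671)) (b (l 534083727) (l 534097039)))))) (b (c (a (a (l 534222991) (l 534217615)) (a (l 534212239) (l 534206863))) (a (a (l 534133135) (l 534127503)) (a (l 534121871) (l 534116239)))) (c (a (b (l 534239119) (l 16767408)) (b (l 16770168) (l 16766304))) (a (a (l 534160527) (l 534154639)) (a (l 534149007) (l 534143375))))))), by decide +kernel⟩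

def k36_A00pm_102_s1 : ∃ t, chk3 f_A00pm_102_s1 t 123 35 1 = true :=
  ⟨(a (b (a (b (c (l 534292879) (a (l 534211471) (l 534205583))) (c (l 534318991) (l 534234767))) (b (c (l 534281615) (b (l 534189199) (l 16765664))) (c (l 534307727) (b (l 16764416) (l 16763176))))) (a (c (b (l 16762928) (l 16760600)) (b (l 534262671) (l 16760056))) (b (c (l 16761848) (l 534518927)) (c (l 16759520) (l 16758936))))) (b (a (b (c (l 534270351) (b (l 16765800) (l 16764536))) (c (l 534296207) (c (l 16762808) (l 16765120)))) (b (c (b (l 16765064) (l 16763840)) (b (l 16764656) (l 16763384))) (c (l 16762016) (c (l 16761664) (l 16761336))))) (a (b (c (l 16760752) (l 16762832)) (c (l 16758424) (l 16757800))) (b (c (l 16759640) (l 16759056)) (c (l 16757304) (l 16756648)))))), by decide +kernel⟩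

def k37_A00pm_102_s1 : ∃ t, chk3 f_A00pm_102_s1 t 31 16 1 = true :=
  ⟨(a (b (l 14) (a (b (l 14) (a (b (l 14) (a (b (l 14) (a (c (b (l 14) (l 534137231)) (l 534038159)) (l 14))) (l 14))) (l 14))) (l 14))) (l 14)), by decide +kernel⟩

def k38_A00pm_102_s1 : ∃ t, chk3 f_A00pm_102_s1 t 62 68 1 = true :=
  ⟨(a (a (b (a (b (a (c (l 534146191) (l 534051471)) (c (l 534141071) (l 534046095))) (a (c (l 534158735) (l 534064783)) (c (l 534153615) (l 534059407)))) (b (a (c (l 534135951) (l 534040719)) (l 14)) (a (c (l 534148495) (l 534054031)) (c (l 534143375) (l 534048655))))) (c (a (a (b (l 534171535) (l 534184079)) (b (l 534166159) (l 534178959))) (a (b (l 534161039) (l 534173839)) (b (l 534156175) (l 16768800)))) (a (a (b (l 534078351) (l 534091663)) (b (l 534072719) (l 534086031))) (a (b (l 534067343) (l 534080655)) (b (l 534061967) (l 534075279)))))) (b (a (a (a (b (l 14) (l 534099087)) (l 14)) (l 14)) (l 14)) (b (a (a (c (l 534151055) (l 534056591)) (c (l 16768928) (l 534051471))) (a (c (l 16768336) (l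 16768024)) (l 14))) (a (a (c (l 16768224) (l 16767912)) (c (l 16767632) (l 16767296))) (c (l 16769360) (c (l 16766480) (l 16766256))))))) (b (l 14) (b (l 14) (a (a (c (l 16765528) (c (l 16765248) (l 16764992))) (l 14)) (l 14))))), by decide +kernel⟩

def k39_A00pm_102_s1 : ∃ t, chk3 f_A00pm_102_s1 t 62 69 2 = true :=
  ⟨(b (c (a (a (a (b (l 534207119) (l 16767736)) (b (l 16767864) (l 16766600))) (a (b (l 16766704) (l 16765440)) (b (l 16765520) (l 16764256)))) (a (a (b (l 16764320) (l 16763056)) (b (l 16763104) (l 16761832))) (a (b (l 14) (l 16760560)) (l 14)))) (b (a (a (a (l 534173327) (l 16767744)) (a (l 16766568) (l 16765376))) (a (a (l 16764152) (l 16762912)) (l 14))) (a (a (a (l 16767616) (l 16766464)) (a (l 16765288) (l 16764088))) (b (a (l 16762576) (l 14)) (a (l 16761936) (a (l 16760024) (l 14))))))) (c (b (a (a (a (l 16766480) (l 16765344)) (l 16763592)) (a (a (l 16761800) (l 16760536)) (a (l 16759304) (l 16757856)))) (a (a (a (l 16765240) (l 16764096)) (l 16762352)) (a (a (l 16760552) (l 16759296))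 (l 16757232)))) (a (a (a (b (l 16766352) (l 16765088)) (b (l 16765192) (l 16763936))) (a (l 16763384) (l 16762184))) (a (a (l 16760968) (b (l 16760328) (l 16759056))) (a (b (l 16759048) (l 16757656)) (l 16756864)))))), by decide +kernel⟩

def k40_A00pm_102_s1 : ∃ t, chk3 f_A00pm_102_s1 t 62 69 3 = true :=
  ⟨(c (a (a (b (a (b (l 534396047) (l 16767456)) (b (l 16767584) (l 16766280))) (a (b (l 16766168) (l 16764888)) (b (l 16764992) (l 16763712)))) (a (b (b (l 16766384) (l 16765080)) (b (l 16763792) (l 16762512))) (b (b (l 16765168) (l 16763864)) (l 16761928)))) (a (b (a (b (l 16763928) (l 16762624)) (a (l 16762328) (l 16761696))) (b (a (l 16761328) (l 16760040)) (a (l 16760048) (a (l 16759080) (l 16758432))))) (b (a (b (l 14) (a (l 16760376) (l 14))) (l 14)) (a (b (l 16761336) (l 16757296)) (l 16756472))))) (a (a (b (a (a (l 534080143) (l 534074511)) (a (l 534069135) (l 534063503))) (a (b (l 16765928) (l 16764624)) (b (l 16764728) (l 16763424)))) (a (b (b (l 16766152) (l 16764824)) (b (l 16763504) (l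 16762200))) (b (b (l 16764912) (l 16763576)) (b (l 16762256) (l 16760952))))) (a (b (a (b (l 16763648) (l 16762312)) (a (l 16762008) (l 16761360))) (b (a (l 16760992) (l 16759672)) (a (l 16759680) (a (l 16758696) (l 16758024))))) (b (a (b (l 14) (a (l 16760016) (l 14))) (l 14)) (a (b (a (l 16758680) (l 16757896)) (l 16756856)) (l 16756000)))))), by decide +kernel⟩

def k41_A00pm_102_s1 : ∃ t, chk3 f_A00pm_102_s1 t 62 35 1 = true :=
  ⟨(a (b (c (a (a (b (b (l 16763936) (l 16762712)) (l 16760888)) (b (b (l 16762784) (l 16761560)) (l 16759736))) (b (a (b (l 16761616) (l 16760384)) (b (l 16760424) (l 16759192))) (a (l 16758560) (b (l 16757944) (l 16756728))))) (a (a (b (b (l 16763480) (l 16762216)) (c (l 16760504) (l 16760152))) (b (c (l 16761808) (l 16761480)) (c (l 16759328) (l 16758944)))) (b (a (c (l 16760608) (l 16760256)) (c (l 16759392) (l 16759008))) (b (a (l 16758560) (l 16757288)) (a (l 16757312) (a (l 16756360) (l 16755712))))))) (a (c (a (b (l 16758504) (l 16756168)) (b (l 16757352) (b (l 16755544)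 (l 16754392)))) (c (a (b (l 16758072) (l 16755688)) (b (l 16756888) (b (l 16755048) (l 16753856)))) (a (b (l 16757664) (l 16755232)) (b (l 16756456) (b (l 16754584) (l 16753352)))))) (b (c (a (b (l 16756728) (l 16755544)) (b (l 16755512) (l 16754168))) (a (b (l 16756048) (a (l 16755136) (l 16754496))) (b (l 16757360) (l 16753336)))) (a (b (c (l 16754328) (l 16753528)) (l 16752616)) (b (l 16752464) (l 16751120)))))) (b (a (c (b (a (b (l 16759176) (a (l 16758256) (l 16757656))) (b (l 16760560) (l 16756576))) (a (b (l 16756712) (l 16755360)) (l 16754576))) (b (a (b (l 16758568) (a (l 16757616) (l 16756968))) (b (a (l 16757600) (l 16756832)) (l 16755816))) (a (b (a (l 16756336) (l 16755568)) (l 16754560)) (l 16753712)))) (c (b (a (l 16755792) (l 16754328)) (a (l 16753112) (l 16751640))) (b (a (l 16754968) (l 16753400)) (a (l 16752144) (l 16750560))))) (a (c (b (a (l 16753376) (l 16751920)) (l 16750016)) (b (a (l 16752472) (l 16750912)) (l 16748912))) (c (b (l 16749704) (l 16747032)) (b (l 16748536) (l 16745720)))))),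 by decide +kernel⟩

def k42_A00pm_102_s1 : ∃ t, chk3 f_A00pm_102_s1 t 63 17 1 = true :=
  ⟨(b (a (b (l 14) (a (a (b (l 14) (b (l 14) (l 16754464))) (l 14)) (l 14))) (l 14)) (a (b (a (c (b (l 16754728) (l 16749384)) (b (a (l 16751816) (l 16750208)) (l 16750776))) (c (b (l 16749064) (l 16746320)) (b (a (l 16748584) (l 14)) (l 16744872)))) (a (c (b (l 16746680) (l 16743984)) (b (l 16745296) (l 16742456))) (c (b (l 16743584) (l 16740856)) (b (l 16741992) (l 16739120))))) (a (a (b (c (l 16745344) (l 16743816)) (c (l 16739832) (l 16738008))) (b (l 14) (c (l 16738216) (l 16736296)))) (b (l 14) (c (a (l 16736592) (l 16734944)) (a (l 16734560) (l 16732808))))))), by decide +kernel⟩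

def k43_A00pm_102_s1 : ∃ t, chk3 f_A00pm_102_s1 t 28 18 1 = true :=
  ⟨(b (a (l 3) (b (l 3) (b (a (l 3) (a (l 3) (a (l 534864671) (l 534847263)))) (a (c (l 534988175) (l 535070751)) (c (l 534917263) (c (l 534882959) (l 534840463))))))) (a (a (a (b (l 3) (b (c (l 535239823) (l 535200143)) (b (c (l 535253903) (c (l 535233423) (c (l 535208591) (l 535186831)))) (c (a (l 535242895) (l 535232143)) (a (l 535216527) (l 535203471)))))) (b (l 3) (b (l 535189903) (c (b (l 535215503) (l 535212687)) (b (l 535178895) (l 535181455)))))) (c (b (l 535098767) (b (l 535143567) (b (l 535163023) (l 535164559)))) (b (a (l 535075871) (l 535037983)) (b (l 535102095) (b (l 535124111) (l 535129743)))))) (c (b (a (l 535025807) (l 535224863)) (b (a (l 535070607) (l 535000207)) (a (l 535094671) (l 535026063)))) (b (a (b (l 534966671) (l 534996879)) (b (c (l 534912655) (l 534871439)) (l 535058719))) (b (a (l 535027343) (l 535223327)) (a (a (l 535075471) (l 535039887)) (a (l 535004303) (l 534969487)))))))), by decide +kernel⟩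

def k44_A00pm_102_s1 : ∃ t, chk3 f_A00pm_102_s1 t 29 36 1 = true :=
  ⟨(a (b (a (b (l 3) (c (l 534794127) (a (l 3) (l 534720143)))) (c (b (a (l 534722079) (b (l 534684303) (l 534697871))) (a (l 534749071) (l 534717327))) (b (a (b (l 3) (l 534665359)) (c (b (l 534640015) (l 534654351)) (b (a (l 534601359) (l 534585231)) (l 534606991)))) (a (l 534686863) (c (l 534675343) (l 534629007)))))) (c (a (b (l 534821519) (l 534848911)) (b (l 535024015) (l 534783119))) (a (b (a (l 534784143) (l 534750095)) (a (l 534814351) (l 534780047))) (a (b (l 534716559) (l 534746511)) (b (l 534683791) (l 534713743)))))) (b (c (a (b (a (b (l 534653583) (l 534667151)) (b (l 534623375) (l 534636943))) (a (l 534686351) (l 534656399))) (b (a (l 534599823) (l 534571151)) (a (l 534627215) (l 534598287)))) (a (b (a (b (c (l 534608271) (a (l 534569103) (l 534553231))) (c (l 534622863) (l 534574991))) (b (l 534554511) (l 534569359))) (a (a (l 534631055) (l 534615439)) (c (l 534612623) (l 534565263)))) (b (a (b (l 534524047) (l 534538639))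 (a (l 534509711) (l 534495119))) (a (c (l 534582159) (l 534534287)) (c (l 534552463) (l 534503823)))))) (a (c (a (b (l 534713487) (l 534740879)) (b (l 534683535) (l 534710671))) (a (b (l 534651535) (l 534681487)) (b (l 534687263) (l 534649743)))) (a (c (b (l 534654095) (l 534681487)) (b (c (l 534611087) (l 534564239)) (l 534619023))) (c (b (l 534625423) (l 534652815)) (b (c (l 534581135) (l 534533775)) (b (l 534581903) (l 16763864)))))))), by decide +kernel⟩

def k45_A00pm_102_s1 : ∃ t, chk3 f_A00pm_102_s1 t 29 37 1 = true :=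
  ⟨(a (b (c (a (b (l 534876559) (l 534904207)) (a (l 534841999) (l 534810255))) (a (a (b (l 534844303) (l 534874767)) (b (l 534810255) (l 534840463))) (a (b (l 534776719) (l 534806927)) (b (l 534743695) (l 534773903))))) (c (a (b (l 534932111) (l 534958991)) (b (l 534866319) (l 535162911))) (a (b (a (l 534905231) (l 534870927)) (a (l 534934927) (l 534900879))) (b (a (l 534837391) (l 534804111)) (a (l 534867343) (l 534834575)))))) (a (c (b (a (l 534779279) (l 534749071)) (b (a (l 16763696) (l 16762136)) (a (l 16761856) (l 16760288)))) (b (a (b (l 534711439) (l 534741391)) (b (l 534679695) (l 534709903))) (b (a (l 534771855) (l 534740111)) (a (l 534802063) (l 16762480))))) (c (b (a (b (l 534708879) (l 16762424)) (b (l 16762720) (l 16760744))) (a (b (l 16760512) (l 16758648)) (b (l 16758824) (l 16756952)))) (b (a (b (l 534648719) (l 534678671)) (b (l 534618511) (l 534648463))) (a (b (l 16762688) (l 16758176)) (b (l 16758328) (l 16756424))))))), by decide +kernel⟩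

def k46_A00pm_102_s1 : ∃ t, chk3 f_A00pm_102_s1 t 28 19 1 = true :=
  ⟨(b (a (b (c (b (a (a (l 535210127) (l 535190415)) (b (l 535158927) (l 535149967))) (a (a (l 535183247) (l 535160207)) (a (l 535143311) (l 535125135)))) (b (a (a (c (l 535205775) (l 535180831)) (c (l 535182479) (l 535154831))) (c (l 535141007) (a (l 535127695) (l 535097743)))) (a (a (c (l 535190415) (l 535171983)) (c (l 535164303) (l 535144079))) (c (l 535130511) (a (l 535120783) (l 535096463)))))) (c (a (b (a (l 535159951) (l 535136399)) (l 535126415)) (b (l 535110543) (l 535092111))) (a (b (a (l 535174287) (l 535147151)) (a (l 535167887) (l 535141775))) (a (b (l 535124367) (l 535119759)) (b (l 535104655) (l 535100303)))))) (b (c (a (b (l 535097487) (l 535090319)) (b (l 535036815) (a (l 535056015) (l 16765208)))) (a (b (a (l 535084431) (l 535052687)) (c (l 535081359) (a (l 535070095) (l 535041935)))) (a (b (l 535020175) (a (l 535037839) (l 535023503))) (b (l 534987919) (l 535000975))))) (c (a (b (l 535079567) (l 535069071)) (b (l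 535040143) (l 16762160))) (b (a (c (l 535079567) (l 535057295)) (a (l 535037071) (l 535011727))) (a (a (l 16765008) (l 16763872)) (b (l 16762528) (l 16761640))))))) (b (a (b (a (c (l 535516815) (b (l 535151759) (l 16766576))) (c (l 535082127) (b (l 16765312) (l 16764456)))) (a (c (l 16770312) (l 535171983)) (c (l 16762968) (l 16768488)))) (a (b (c (l 16762584) (c (l 16762712) (l 16762616))) (c (l 16760856) (l 16761032))) (b (c (l 16760352) (l 16765576)) (a (l 16759328) (l 16758160))))) (a (b (a (c (l 16763560) (l 16763952)) (c (l 16761432) (l 16761776))) (a (c (l 16762240) (l 16762688)) (c (l 16760072) (l 16760472)))) (a (b (a (l 16760048) (l 16758936)) (c (l 16757904) (l 16758200))) (b (a (l 16757808) (l 16756648)) (a (l 16756448) (l 16755296))))))), by decide +kernel⟩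

def k47_A00pm_102_s1 : ∃ t, chk3 f_A00pm_102_s1 t 29 19 2 = true :=
  ⟨(c (a (b (b (a (b (l 16770328) (l 534984079)) (b (l 16762304) (l 16760480))) (a (b (l 16761424) (l 16759600)) (b (l 16758672) (l 16756896)))) (b (a (b (l 16757824) (l 16756168)) (b (l 16755184) (l 16753600))) (a (b (l 16754648) (l 16753288)) (b (l 16752160) (a (l 16751504) (l 16750248)))))) (a (b (b (b (l 16759280) (l 16757464)) (b (l 16755680) (l 16753952))) (b (b (l 16752320) (a (l 16751520) (l 16750072))) (b (a (l 16750144) (l 16748672)) (a (l 16748904) (b (l 16747664) (l 16746848)))))) (b (b (a (l 16755920) (l 16754232)) (b (l 16752464) (l 16750784))) (b (b (a (l 16750008) (l 16748296)) (a (l 16748480) (b (l 16747152) (l 16746256)))) (a (b (a (l 16747472) (l 16746480)) (l 16744768)) (b (l 16744448) (l 16742072))))))) (a (b (b (a (b (l 534971535) (l 534984079)) (b (l 16767496) (l 534927247))) (a (b (l 16761456) (l 16759672)) (b (l 16758664) (l 16756920)))) (b (a (b (l 16757936) (l 16756312)) (b (l 16755240) (l 16753680))) (a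 (b (l 16754832) (l 16753496)) (b (l 16752256) (l 16750992))))) (b (b (a (b (l 16759208) (l 16757400)) (a (l 16761072) (l 16754120))) (a (b (l 16755640) (l 16753928)) (b (l 16752368) (l 16750704)))) (b (b (a (l 16752312) (a (l 16749952) (l 16748200))) (a (l 16750808) (a (l 16748424) (a (l 16747112) (l 16746008))))) (a (b (a (l 16750176) (l 16748656)) (a (l 16748920) (b (l 16747632) (l 16746776)))) (a (b (b (l 16747328) (l 16746456)) (l 16744600)) (b (l 16744248) (l 16741768)))))))), by decide +kernel⟩

def k48_A00pm_102_s1 : ∃ t, chk3 f_A00pm_102_s1 t 29 19 3 = true :=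
  ⟨(c (a (b (b (a (b (l 534951567) (a (l 16763800) (l 16762432))) (b (a (l 16762816) (l 16761328)) (a (l 16761008) (l 16759520)))) (a (b (l 534981519) (l 16759576)) (b (l 16758504) (l 16756768)))) (b (a (b (l 16757864) (l 16756256)) (b (l 16755096) (l 16753544))) (a (b (l 16754792) (l 16753456)) (b (l 16752120) (l 16750848))))) (b (b (a (a (b (l 16759784) (l 16757976)) (b (l 16758168) (l 16756360))) (b (l 16758264) (a (l 16754688) (l 16752952)))) (a (b (l 16755416) (l 16753712)) (b (l 16752088) (l 16750416)))) (b (b (a (l 16752088) (a (l 16749664) (l 16747880))) (a (l 16750584) (a (l 16748136) (a (l 16746768) (l 16745608))))) (a (b (a (l 16749960) (l 16748392)) (a (l 16748688) (b (l 16747336) (l 16746448)))) (a (b (a (l 16747088) (l 16746000)) (l 16744176)) (b (l 16743800) (l 16741232))))))) (a (b (b (a (b (a (l 16768000) (l 16763992)) (a (l 534953103) (l 16764792))) (b (a (l 16762544) (l 16761024)) (a (l 16760720) (l 16759200)))) (b (a (b (l 16761536) (l 16760648)) (b (l 16758632) (l 16757744))) (a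 (l 16759320) (l 16756432)))) (b (a (b (l 16757608) (l 16756008)) (b (l 16754760) (l 16753192))) (a (b (l 16754528) (l 16753184)) (b (l 16751752) (l 16750448))))) (b (b (a (a (b (l 16759448) (l 16757616)) (b (l 16757800) (l 16755968))) (a (b (l 16756096) (l 16754264)) (b (l 16754320) (l 16752480)))) (a (b (b (l 16755472) (l 16754592)) (l 16753304)) (b (l 16756856) (l 16749912)))) (b (b (a (l 16751664) (a (l 16749168) (l 16747328))) (a (l 16750136) (a (l 16747600) (a (l 16746184) (l 16744976))))) (a (b (a (l 16749504) (l 16747880)) (a (l 16748192) (b (l 16746784) (l 16745848)))) (b (a (a (l 16746520) (l 16745384)) (l 16743104)) (a (l 16743504) (l 16740448)))))))), by decide +kernel⟩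

def k49_A00pm_102_s1 : ∃ t, chk3 f_A00pm_102_s1 t 30 72 1 = true :=
  ⟨(c (a (b (a (a (l 534542991) (l 534515343)) (a (l 534488463) (b (l 16764496) (l 16763384)))) (a (a (l 534570127) (l 534542735)) (a (l 534515599) (l 534757775)))) (a (a (b (a (l 16762456) (l 16761448)) (l 16759744)) (b (a (l 16760424) (l 16759384)) (l 16757680))) (c (a (b (l 16757872) (l 16755656)) (b (l 16755688) (a (l 16753992) (l 16752832)))) (a (b (l 16757664) (l 16755424)) (b (l 16755448) (a (l 16753736) (l 16752552))))))) (a (a (a (a (b (l 534480527) (l 534509711)) (b (l 534466191) (l 534495375))) (b (a (l 534451855) (l 534437775)) (a (l 534481039) (l 534466959)))) (a (b (a (l 534423951) (l 534410383)) (a (l 534453135) (l 534439311))) (b (a (l 534396815) (l 534383503)) (b (l 16764432) (l 16760680))))) (c (c (a (a (b (l 16761696) (l 16759440)) (b (l 16759608) (l 16757344))) (a (b (l 16757440) (l 16755176)) (b (l 16755192) (a (l 16753472) (l 16752256))))) (a (a (b (l 16764176) (l 16759280)) (b (l 16759440) (l 16757168))) (a (b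 (l 16757256) (l 16754968)) (b (l 16754992) (a (l 16753256) (l 16752024)))))) (c (a (a (b (a (l 16761904) (l 16760864)) (l 16759096)) (b (l 16759256) (l 16756952))) (a (b (l 16757048) (l 16754736)) (b (l 16754760) (a (l 16753008) (l 16757000))))) (a (a (b (a (l 16761728) (l 16760672)) (l 16758880)) (b (l 16761672) (l 16756720))) (a (b (l 16756808) (l 16754480)) (b (l 16754496) (a (l 16752728) (b (l 16752088) (l 16750880)))))))))), by decide +kernel⟩

def k50_A00pm_102_s1 : ∃ t, chk3 f_A00pm_102_s1 t 30 73 1 = true :=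
  ⟨(c (c (a (a (a (l 534883983) (b (l 16763384) (l 16761296))) (a (b (l 16761544) (l 16759448)) (b (l 16759632) (l 16757528)))) (b (a (a (l 16757656) (l 16755600)) (a (l 16753408) (a (l 16751760) (l 16750408)))) (a (a (l 16755544) (l 16753480)) (a (a (l 16751816) (l 16750720)) (l 16748624))))) (a (a (a (b (l 16767672) (l 16762952)) (b (l 16763256) (l 16761160))) (a (b (l 16761400) (l 16759288)) (b (l 16759464) (l 16757344)))) (b (a (a (l 16757464) (l 16755384)) (a (l 16753168) (a (l 16751472) (l 16750072)))) (a (a (l 16755336) (l 16753248)) (a (a (l 16751568) (l 16750424)) (l 16748248)))))) (a (a (a (b (c (l 534551951) (l 534503823)) (b (l 16763144) (l 16762088))) (b (b (l 534493839) (l 16762376)) (b (l 16761296) (l 16760240)))) (a (b (b (l 16761552) (l 16760464)) (c (l 16759016) (l 16758640))) (b (c (l 16759192) (l 16761440)) (c (l 16757048) (l 16756632))))) (b (a (a (c (l 16757160) (l 16756736)) (l 16757448)) (a (a (l 16753176) (l 16752000)) (a (b (l 16751400) (l 16750208)) (l 16749320)))) (a (a (l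 16754784) (l 16752648)) (a (a (l 16750920) (b (l 16750328) (l 16749096))) (l 16747424)))))), by decide +kernel⟩

def k51_A00pm_102_s1 : ∃ t, chk3 f_A00pm_102_s1 t 30 37 1 = true :=
  ⟨(a (c (a (b (a (b (l 16760992) (l 16759008)) (b (l 16759192) (l 16757200))) (a (c (l 16756168) (l 16761272)) (b (l 16755256) (l 16753368)))) (a (b (b (l 16757328) (l 16755328)) (b (l 16753376) (l 16751480))) (b (b (l 16755392) (l 16753384)) (b (l 16751432) (l 16749408))))) (c (a (b (a (b (l 16760680) (l 16758672)) (b (l 16758840) (l 16756824))) (a (b (l 16756712) (l 16754808)) (b (l 16754856) (l 16752944)))) (b (a (b (l 16756936) (l 16754904)) (b (l 16754952) (l 16752912))) (a (l 16757192) (b (l 16750928) (l 16748888))))) (c (a (b (a (b (l 16760440) (l 16758400)) (b (l 16758568) (l 16756520))) (b (a (l 16756416) (l 16754528)) (l 16756176))) (a (b (b (l 16756632) (l 16754576)) (b (l 16752576) (l 16750624))) (b (b (l 16754624) (l 16752552)) (b (l 16750544) (l 16748480))))) (a (b (a (b (l 16760240) (l 16758176)) (b (l 16758352)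 (l 16756280))) (a (b (l 16756176) (l 16754224)) (b (l 16754264) (l 16752312)))) (a (b (b (l 16756392) (l 16754312)) (b (l 16752288) (l 16750320))) (b (b (l 16754360) (l 16752272)) (b (l 16750232) (l 16748152)))))))) (a (b (b (a (c (l 16753384) (l 16752664)) (a (l 16751520) (c (l 16750696) (l 16749880)))) (c (a (l 16751376) (a (l 16749720) (l 16748520))) (a (l 16750600) (a (l 16748880) (l 16747584))))) (c (a (b (l 16749272) (l 16747200)) (b (l 16746744) (l 16744280))) (a (b (a (l 16749064) (l 16747912)) (a (l 16746952) (l 16745424))) (b (l 16745728) (l 16743112))))) (b (a (b (a (c (l 16749552) (l 16748648)) (l 16745048)) (c (l 16746336) (l 16745240))) (c (b (l 16745936) (l 16743432)) (b (l 16744760) (l 16742104)))) (c (a (b (l 16743856) (l 16741376)) (b (l 16740920) (l 16738416))) (a (b (l 16742608) (l 16739976)) (b (l 16739440) (l 16736776))))))), by decide +kernel⟩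

def k52_A00pm_102_s1 : ∃ t, chk3 f_A00pm_102_s1 t 62 18 1 = true :=
  ⟨(b (a (b (a (b (c (a (b (l 16754400) (l 16753264)) (l 16752528)) (a (b (l 16753648) (l 16752456)) (b (l 16752328) (l 16750952)))) (c (a (l 16751376) (l 16749928)) (a (l 16750472) (l 16748912)))) (c (b (l 16750328) (l 16747736)) (b (l 16749296) (l 16746560)))) (a (c (b (l 16748096) (l 16745544)) (b (l 16746992) (l 16744296))) (c (b (l 16745152) (l 16742576)) (b (l 16743832) (l 16741104))))) (b (a (c (b (l 16747384) (l 16744768)) (b (l 16746136) (l 16743368))) (c (b (l 16744376) (l 16741720)) (b (l 16742912) (l 16740112)))) (a (c (b (l 16742152) (l 16739544)) (b (l 16740608) (l 16737848))) (c (b (l 16739080) (l 16736440)) (b (l 16737320) (l 16734528)))))) (a (b (a (c (b (l 16743000) (l 16740464)) (b (l 16741600) (l 16738912))) (c (b (l 16740000) (l 16737432)) (b (l 16738376) (l 16735656)))) (c (a (b (l 16737928) (l 16735392)) (b (l 16734872) (l 16732312))) (a (b (l 16736216) (l 16733528)) (b (l 16732936) (l 16730216))))) (b (a (c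 (b (l 16736944) (l 16734344)) (b (l 16735096) (l 16732344))) (c (b (l 16733816) (l 16731192)) (b (l 16731744) (l 16728968)))) (a (c (b (l 16731752) (l 16729168)) (b (l 16729592) (l 16726848))) (c (b (l 16728576) (l 16725968)) (b (l 16726192) (l 16723424))))))), by decide +kernel⟩

def k53_A00pm_102_s1 : ∃ t, chk3 f_A00pm_102_s1 t 63 18 1 = true :=
  ⟨(a (b (b (a (c (b (l 16741288) (l 16738608)) (b (l 16739616) (l 16736784))) (c (b (l 16738136) (l 16735432)) (b (l 16736248) (l 16733392)))) (a (c (b (l 16735936) (l 16733280)) (b (l 16733960) (l 16731144))) (c (l 16731376) (a (l 16729976) (l 16728240))))) (b (a (c (b (l 16730624) (l 16727976)) (b (l 16728336) (l 16725528))) (c (l 16726024) (l 16723440))) (a (c (b (l 16725336) (l 16722704)) (b (l 16722736) (l 16719936))) (c (b (l 16722032) (l 16719376)) (l 16717792))))) (a (b (b (c (l 16733536) (a (l 16732232) (l 16730488))) (c (l 16728096) (l 16725608))) (b (c (l 16722688) (l 16719888)) (c (l 16717320) (l 16714200)))) (a (b (b (c (l 16731064) (l 16728736))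 (l 16724296)) (b (l 16718704) (l 16713144))) (b (b (c (l 16729392) (l 16726960)) (l 16722552)) (b (l 16716936) (l 16711352)))))), by decide +kernel⟩

def k54_A00pm_102_s1 : ∃ t, chk3 f_A00pm_102_s1 t 30 38 1 = true :=
  ⟨(a (b (a (c (b (l 16752456) (a (l 16751560) (l 16749744))) (a (b (l 16752736) (l 16750920)) (b (l 16750840) (l 16749032)))) (a (c (b (l 16749592) (l 16747688)) (b (l 16748848) (a (l 16747472) (c (l 16746640) (l 16746016))))) (b (c (l 16747480) (a (l 16747240) (l 16745952))) (c (l 16745136) (l 16744120))))) (a (b (c (a (l 16749840) (l 16747872)) (a (l 16749168) (b (l 16747648) (l 16746720)))) (a (c (l 16748072) (l 16747376)) (c (l 16746016) (l 16745136)))) (c (a (b (l 16745624) (l 16743168)) (l 16741504)) (b (a (b (l 16745304) (l 16743992)) (l 16741560)) (l 16740536))))) (b (a (c (a (b (l 16744712) (l 16742280)) (b (l 16741832) (l 16739376))) (a (b (l 16743616) (c (l 16741416) (l 16740608))) (b (l 16740504) (c (l 16738328) (l 16737416))))) (c (a (b (l 16738896) (l 16736416)) (b (l 16735904)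 (c (l 16733792) (l 16732968)))) (a (b (l 16737336) (c (l 16735184) (l 16734160))) (b (l 16734112) (c (l 16731992) (l 16730856)))))) (a (c (b (a (l 16739848) (l 16736912)) (l 16735936)) (b (a (l 16738440) (l 16735272)) (a (l 16735832) (l 16732632)))) (c (a (b (l 16733928) (l 16731424)) (b (l 16730880) (l 16728360))) (b (a (l 16732040) (l 16728768)) (a (l 16729384) (l 16726080))))))), by decide +kernel⟩

def k55_A00pm_102_s1 : ∃ t, chk3 f_A00pm_102_s1 t 30 39 1 = true :=
  ⟨(a (a (b (a (b (c (a (l 16746928) (l 16745728)) (a (l 16746176) (l 16744872))) (c (l 16744000) (l 16743040))) (c (l 16747616) (l 16751744))) (b (a (c (l 16741592) (l 16740456)) (l 16743424)) (c (l 16742960) (l 16736288)))) (b (c (a (l 16739528) (l 16736632)) (a (l 16738176) (l 16735040))) (c (a (l 16734592) (l 16731656)) (a (l 16732896) (l 16729712))))) (a (b (c (a (l 16733680) (l 16730680)) (b (l 16731600) (l 16728936))) (c (l 16727152) (l 16724856))) (b (c (a (l 16727632) (l 16724536)) (b (l 16725048) (l 16722344))) (c (l 16720976)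 (a (l 16719880) (l 16716504)))))), by decide +kernel⟩

def k56_A00pm_102_s1 : ∃ t, chk3 f_A00pm_102_s1 t 31 19 1 = true :=
  ⟨(a (b (b (a (c (a (b (l 16732856) (b (l 16730960) (l 16729688))) (b (l 16729752) (b (l 16727832) (l 16726552)))) (a (b (l 16730832) (b (l 16728816) (l 16727464))) (b (l 16727496) (b (l 16725456) (l 16724096))))) (a (c (b (l 16726584) (l 16726624)) (b (l 16724104) (c (l 16722064) (l 16720616)))) (c (b (l 16723360) (l 16726000)) (b (l 16720656) (l 16717880))))) (a (c (b (a (l 16727784) (l 16724632)) (a (l 16725240) (l 16722064))) (b (a (l 16725432) (l 16722048)) (a (l 16722720) (l 16719312)))) (c (a (b (l 16721416) (l 16718832)) (b (l 16718152) (l 16715544))) (a (b (l 16718608) (l 16715856)) (b (l 16715112) (l 16712336)))))) (a (b (c (a (l 16721384) (l 16718184)) (b (l 16718296) (l 16715544))) (c (l 16714600) (a (l 16713080) (l 16709616)))) (b (c (a (l 16714928) (l 16711616)) (a (l 16711688) (l 16708144))) (c (l 16708032) (l 16709568))))) (a (b (b (a (c (b (l 16720072) (l 16717448))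 (b (l 16717144) (l 16714352))) (c (b (l 16716728) (l 16714088)) (b (l 16713584) (l 16710768)))) (a (c (b (l 16714824) (l 16712208)) (l 16715400)) (c (l 16720600) (l 16706544)))) (b (c (a (l 16708248) (l 16704832)) (a (l 16704552) (l 16700912))) (c (l 16701256) (l 16697088)))) (b (a (b (c (b (l 16713328) (l 16710664)) (l 16708528)) (c (l 16706664) (l 16702880))) (b (c (a (l 16709384) (l 16707632)) (l 16704840)) (c (l 16703160) (l 16699152)))) (a (b (l 16704568) (l 16693816)) (b (l 16700920) (l 16690152)))))), by decide +kernel⟩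

def k57_A00pm_102_s1 : ∃ t, chk3 f_A00pm_102_s1 t 12 80 1 = true :=
  ⟨(a (a (b (l 3) (b (l 3) (c (l 536621967) (l 536716431)))) (b (a (l 3) (b (l 3) (c (l 536359823) (l 536454799)))) (c (b (c (l 536396175) (l 536466831)) (l 536472207)) (b (c (l 536512399) (l 536533135)) (l 536557199))))) (b (a (b (b (a (a (a (l 3) (c (l 536248463) (l 536342159))) (c (l 536219535) (l 536310671))) (c (l 536161167) (l 536247695))) (c (a (a (c (a (l 536243087) (l 536224399)) (a (l 536316559) (l 536296847))) (b (l 536230799) (l 536238991))) (l 536176783)) (a (c (a (l 536354703) (l 536313999)) (a (l 536378255) (l 536336015))) (l 536265359)))) (b (c (a (a (a (l 536302479) (l 536280975)) (l 536252303)) (l 536193679)) (a (a (a (l 536396431) (l 536376207)) (l 536345231)) (l 536282767))) (c (a (a (l 536312719) (l 536271759)) (l 536212367)) (a (a (l 536402319) (l 536361871)) (l 536299919))))) (b (c (a (l 536091791) (l 536015247)) (a (l 536173199) (l 536090511))) (c (a (l 536125839) (l 536050063)) (a (l 536208783) (l 536126607)))))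 (a (a (c (b (a (l 536341903) (l 536300943)) (l 536360591)) (b (a (l 536426383) (l 536386447)) (l 536438671))) (b (c (c (l 536204431) (l 536270991)) (c (l 536312975) (l 536331151))) (c (l 536280719) (l 536359055)))) (c (b (a (l 536163727) (l 536087951)) (a (l 536203407) (l 536127375))) (b (a (l 536243855) (l 536162447)) (a (l 536278671) (l 536198287))))))), by decide +kernel⟩

def k58_A00pm_102_s1 : ∃ t, chk3 f_A00pm_102_s1 t 12 81 1 = true :=
  ⟨(a (b (c (a (b (l 536655759) (l 536689039)) (b (l 536509583) (l 536546447))) (a (b (l 536745103) (l 536773007)) (b (l 536588431) (l 536619407)))) (b (c (a (c (l 536685455) (l 536750479)) (l 536582799)) (a (l 536800399) (l 536649871))) (b (a (c (c (l 536711567) (l 536774543)) (l 536821391)) (c (l 536611215) (l 536673423))) (a (c (a (c (l 536761487) (l 536824207)) (l 536731279)) (a (l 536870799) (l 536799119))) (c (c (l 536599695) (l 536652687)) (l 536687759)))))) (b (a (c (b (a (l 536400527) (l 536321423)) (c (l 536367503) (l 536423567))) (a (b (l 536471439)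 (l 536504207)) (b (l 536392847) (l 536426639)))) (c (b (c (l 536171663) (l 536229263)) (c (l 536214927) (l 536269199))) (b (a (l 536313743) (l 536233871)) (l 536306831)))) (a (b (c (c (l 536409999) (l 536461967)) (l 536496527)) (c (b (c (l 536443023) (l 536491663)) (c (l 536464271) (l 536510863))) (b (l 536522127) (l 536538255)))) (b (c (c (l 536258959) (l 536309391)) (l 536342159)) (c (c (a (l 536343695) (l 16773856)) (l 536350351)) (a (l 16774992) (l 16774256))))))), by decide +kernel⟩

def k59_A00pm_102_s1 : ∃ t, chk3 f_A00pm_102_s1 t 26 40 1 = true :=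
  ⟨(b (a (b (c (b (l 535897999) (l 535934095)) (b (l 535964559) (l 536001167))) (b (c (l 535972495) (l 536038031)) (c (a (l 536052623) (l 535978383)) (l 536074639)))) (a (b (c (a (l 535824527) (l 535785103)) (a (l 535883663) (l 535841423))) (c (a (c (l 16771856) (l 16772128)) (c (l 16771240) (l 16771520))) (b (l 16774792) (l 16771904)))) (b (c (b (l 535693711) (l 535733391)) (b (l 535749007) (l 16771136))) (c (c (b (l 16770344) (l 16770056)) (l 535814799)) (b (l 16770824) (l 16770552)))))) (a (b (c (c (b (l 536024975) (l 536068751)) (b (l 536076687) (l 536117647))) (b (l 536111503) (l 536148623))) (b (c (c (a (l 16773048) (l 16772040)) (l 536159375)) (a (l 16773480) (l 16772488))) (c (c (a (l 16772968) (l 16771968)) (a (l 16773240) (l 16772248))) (a (l 16773384) (l 16772384))))) (b (a (c (b (c (l 16771208) (l 16771504)) (c (l 16771024) (l 16771328))) (b (l 16771680) (l 16771488))) (c (b (c (l 16769824) (l 16770136)) (c (l 16769640) (l 16769960))) (b (l 16770320) (l 16770128)))) (a (b (c (c (l 16770896)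 (l 16771200)) (l 16771344)) (c (c (l 16770832) (l 16771120)) (l 16771240))) (b (c (c (l 16769520) (l 16769832)) (l 16769976)) (c (c (l 16769464) (l 16769760)) (l 16769872))))))), by decide +kernel⟩

def k60_A00pm_102_s1 : ∃ t, chk3 f_A00pm_102_s1 t 27 40 1 = true :=
  ⟨(b (a (b (c (a (b (l 16772152) (l 16769152)) (c (l 16767224) (l 16767584))) (a (b (l 16769872) (l 16769512)) (l 16773088))) (c (a (b (l 16768816) (l 16768552)) (b (l 16766896) (l 16766600))) (a (b (l 16769184) (l 16768920)) (l 16767160)))) (b (c (a (c (l 16765200) (l 16765600)) (l 16763312)) (a (l 16765888) (l 16763808))) (c (a (c (l 16764400) (l 16764832)) (l 16762472)) (a (l 16765120) (l 16762968))))) (c (a (b (a (b (l 16768328) (c (l 16767960) (l 16768304))) (b (l 16766368) (l 16766200))) (b (a (c (l 16767848) (l 16768184)) (l 16766088)) (a (c (l 16767792) (l 16768120)) (l 16766048)))) (b (a (c (l 16763872) (l 16764304)) (l 16761888)) (b (a (l 16763928) (l 16761640)) (a (l 16763872) (l 16761560))))) (a (b (a (b (l 16768680) (l 16768488))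 (l 16771896)) (b (a (l 16768336) (l 16766416)) (a (l 16768224) (l 16766320)))) (b (a (l 16764552) (l 16762336)) (a (l 16764208) (l 16761928)))))), by decide +kernel⟩

def k61_A00pm_102_s1 : ∃ t, chk3 f_A00pm_102_s1 t 12 164 1 = true :=
  ⟨(a (a (b (b (c (a (c (l 536779919) (l 536838031)) (l 536748431)) (a (l 536878735) (l 536809359))) (c (a (c (l 536799631) (l 536851855)) (l 536765839)) (a (l 536884367) (l 536817551)))) (a (b (c (c (l 536820367) (l 536864911)) (l 536887951)) (c (l 537130639) (l 536889743))) (c (b (l 536783503) (l 536801423)) (b (l 536823951) (l 536828559))))) (b (c (b (c (l 536619919) (l 536669583)) (c (l 536641167) (l 536686479))) (b (l 536700303) (l 536711311))) (c (b (c (l 536662927) (l 536703119)) (c (l 536685455) (l 536719503))) (b (l 536989583) (a (l 536764303) (l 16776496)))))) (a (b (c (c (a (l 536533135) (l 536463503)) (a (l 536575887) (l 16775472))) (a (l 536597903) (l 16775568))) (b (c (a (l 536589455) (l 16775416)) (l 536580239)) (c (a (l 536610447) (l 16775448)) (a (l 16776064)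 (l 16775536))))) (b (c (c (a (l 536390287) (l 16773840)) (a (l 16774832) (l 16774080))) (a (l 16774936) (l 16774192))) (c (c (a (l 16774656) (l 16773888)) (a (l 16774848) (l 16774096))) (a (l 16774904) (l 16774152)))))), by decide +kernel⟩

def k62_A00pm_102_s1 : ∃ t, chk3 f_A00pm_102_s1 t 12 165 1 = true :=
  ⟨(a (b (a (a (b (c (l 536878223) (l 536889743)) (c (l 536893839) (l 536887951))) (b (c (l 536818831) (l 536831887)) (c (l 536835727) (l 16777088)))) (a (b (c (l 536757903) (l 16776832)) (c (l 536776335) (l 16776824))) (c (b (l 536695439) (l 16776488)) (b (l 16776488) (l 16776480))))) (c (a (b (a (l 16779976) (l 16777160)) (a (l 16777448) (l 16777248))) (b (a (l 16776896) (l 16776552)) (a (l 16776984) (l 16776648)))) (a (b (a (l 16777272) (l 16777080)) (a (l 16777288) (l 16777096))) (a (b (l 16776816) (l 16776832)) (l 16776464))))) (c (b (a (b (a (l 16776016) (l 16775488)) (a (l 16776064) (l 16775536))) (b (a (l 16774840) (l 16774088)) (a (l 16774896) (l 16774144)))) (a (b (a (l 16776128) (l 16775608))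 (a (l 16776224) (l 16775712))) (a (l 16775008) (l 16774264)))) (b (a (a (b (l 16776056) (l 16776048)) (l 16775504)) (a (l 16774872) (l 16774128))) (a (a (l 16776032) (l 16775504)) (a (l 16774880) (l 16774144)))))), by decide +kernel⟩

def k63_A00pm_102_s1 : ∃ t, chk3 f_A00pm_102_s1 t 24 83 1 = true :=
  ⟨(b (b (a (b (c (a (l 16777576) (l 16777376)) (a (l 16777320) (l 16777120))) (c (a (l 16777744) (l 16777544)) (a (l 16777360) (l 16777168)))) (b (a (c (l 16777112) (l 16776856)) (c (l 16776776) (l 16776512))) (a (c (l 16777280) (l 16776904)) (l 16782048)))) (c (b (a (a (c (l 16778032) (l 16777840)) (l 16777744)) (a (l 16777480) (l 16777144))) (a (a (a (l 16778272) (l 16778184)) (l 16778032)) (a (l 16777768) (l 16777432)))) (b (a (a (l 16777424) (l 16777232)) (a (l 16776968) (l 16776632))) (a (a (l 16777552) (l 16777360)) (a (l 16777096) (l 16776752)))))) (a (a (a (c (a (b (b (b (l 16778640) (l 16778944)) (b (l 16779336) (b (l 16779704) (l 16779984)))) (l 16781264)) (b (b (l 16781352) (b (l 16779288)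 (b (l 16779656) (l 16779936)))) (l 16781192))) (b (b (l 16777880) (b (l 16778280) (b (l 16778560) (l 16778776)))) (l 16779752))) (c (b (b (b (l 16778528) (l 16778832)) (b (l 16779208) (b (l 16779568) (l 16779848)))) (l 16781088)) (b (b (l 16777800) (b (l 16778184) (l 16778560))) (l 16779632)))) (c (b (b (b (l 16778376) (l 16778664)) (b (l 16779040) (b (l 16779384) (l 16779656)))) (l 16780864)) (c (b (b (l 16777888) (b (l 16778304) (l 16778688))) (l 16779800)) (b (b (l 16777392) (b (l 16777728) (l 16778064))) (l 16779016))))) (c (a (b (b (l 16783472) (b (l 16778744) (b (l 16779080) (l 16779336)))) (l 16780496)) (a (b (b (l 16777968) (b (l 16778472) (l 16778920))) (l 16780168)) (b (b (l 16777776) (b (l 16778272) (l 16778712))) (l 16779936)))) (a (c (b (b (l 16777616) (b (l 16778016) (l 16778392))) (l 16779456)) (b (b (l 16777112) (b (l 16777440) (l 16777760))) (l 16778672))) (b (b (l 16777032) (b (l 16777384) (l 16777712))) (l 16778648)))))), by decide +kernel⟩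

def k64_A00pm_102_s1 : ∃ t, chk3 f_A00pm_102_s1 t 25 83 1 = true :=
  ⟨(b (b (a (b (a (c (l 16776360) (l 16776080)) (l 16775760)) (a (l 16776384) (l 16775880))) (b (a (l 16775144) (l 16774424)) (a (l 16775264) (l 16774544)))) (b (a (a (l 16776520) (l 16776016)) (a (l 16775416) (l 16774696))) (a (a (l 16776728) (l 16776224)) (a (l 16775624) (l 16774920))))) (c (c (a (a (b (b (l 16777616) (b (l 16778136) (l 16778592))) (l 16779848)) (b (b (l 16777096) (b (l 16777600) (l 16778032))) (l 16779232))) (b (b (a (l 16776472) (l 16775728)) (b (l 16776624) (l 16777032))) (l 16778144))) (a (c (a (b (b (l 16777376) (b (l 16777848) (l 16778256))) (l 16779400)) (b (b (l 16776872) (b (l 16777320) (l 16777712))) (l 16778800))) (b (b (a (l 16777192) (l 16776680)) (b (l 16777400) (b (l 16777672) (l 16777880)))) (b (l 16778400) (l 16779240)))) (c (b (b (l 16775936) (b (l 16776368) (l 16776736))) (l 16777744)) (b (b (l 16775760) (b (l 16776152) (l 16776496))) (l 16777432))))) (c (a (b (b (a (l 16776856) (l 16776344)) (b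 (l 16777008) (b (l 16777256) (l 16777440)))) (b (l 16777904) (l 16778656))) (c (b (b (l 16775544) (b (l 16775904) (l 16776224))) (l 16777096)) (b (b (l 16775296) (b (l 16775624) (l 16775912))) (l 16776720)))) (a (c (b (b (a (l 16776472) (l 16775952)) (b (l 16776560) (b (l 16776776) (l 16776944)))) (l 16782928)) (b (b (a (l 16776176) (l 16775648)) (b (l 16776232) (b (l 16776424) (l 16776576)))) (l 16777264))) (c (b (b (l 16775016) (b (l 16775312) (l 16775576))) (l 16776320)) (b (b (l 16774704) (b (l 16774960) (l 16775200))) (l 16775880))))))), by decide +kernel⟩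

def k65_A00pm_102_s1 : ∃ t, chk3 f_A00pm_102_s1 t 26 41 1 = true :=
  ⟨(b (b (a (b (c (c (a (l 16772952) (l 16771952)) (a (l 16773216) (l 16772224))) (a (l 16773320) (l 16772320))) (c (c (a (l 16773008) (l 16772016)) (a (l 16773232) (l 16772248))) (a (l 16773280) (l 16772280)))) (a (b (c (c (l 16770824) (l 16771096)) (l 16771168)) (c (c (l 16770896) (l 16771128)) (l 16771136))) (b (c (c (l 16769464) (l 16769744)) (l 16769800)) (c (c (l 16769552) (l 16769792)) (l 16769768))))) (a (b (c (b (a (l 16773216) (l 16772240)) (a (l 16773280) (l 16772304))) (a (l 16773264) (l 16772264))) (c (a (l 16773408) (l 16772448)) (a (l 16773280) (l 16772296)))) (b (a (c (c (l 16771040) (l 16771216)) (l 16771128)) (c (c (l 16769712) (l 16769888)) (l 16769776))) (a (c (l 16771360) (l 16771176)) (c (l 16770048) (l 16769840)))))) (b (b (a (c (a (l 16773712) (l 16772760)) (a (l 16773384) (l 16772416))) (a (c (l 16771688) (l 16771312)) (c (l 16770400) (l 16769992)))) (a (b (a (l 16773872) (l 16772936)) (a (l 16774096) (l 16773160)))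 (a (c (b (l 16772048) (l 16772352)) (l 16771544)) (b (c (l 16770776) (l 16770184)) (l 16770824))))) (c (c (a (b (b (a (l 16774880) (l 16773928)) (b (l 16774904) (l 16775272))) (l 16776272)) (a (b (b (l 16772856) (l 16773448)) (l 16774536)) (b (b (l 16771576) (l 16772152)) (l 16773168)))) (a (b (b (l 16774200) (b (l 16774584) (l 16774904))) (l 16775776)) (b (b (a (l 16772624) (l 16771352)) (b (l 16772400) (l 16772680))) (l 16773448)))) (c (a (b (b (l 16773784) (b (l 16774104) (l 16774376))) (l 16775120)) (b (b (l 16771600) (b (l 16771904) (l 16772144))) (l 16772800))) (a (b (b (l 16773200) (b (l 16773456) (l 16773680))) (l 16774304)) (b (b (l 16770968) (b (l 16771208) (l 16771408))) (l 16771952))))))), by decide +kernel⟩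

def k66_A00pm_102_s1 : ∃ t, chk3 f_A00pm_102_s1 t 27 82 1 = true :=
  ⟨(b (c (a (b (a (c (l 16767816) (l 16768112)) (l 16766072)) (a (c (l 16767912) (l 16768168)) (l 16766168))) (b (a (l 16763896) (l 16761568)) (a (l 16764000) (l 16761656)))) (a (b (a (l 16768160) (l 16766264)) (a (l 16768136) (l 16766248))) (a (l 16764080) (l 16761752)))) (c (a (b (a (c (l 16768096) (l 16768288)) (l 16766336)) (a (l 16768464) (l 16766600))) (b (a (l 16764184) (l 16761856)) (a (l 16764488) (l 16762152)))) (a (b (a (l 16768160) (l 16766280)) (a (l 16768240) (l 16766384))) (a (b (l 16764144) (l 16764272)) (l 16761848))))), by decide +kernel⟩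

def k67_A00pm_102_s1 : ∃ t, chk3 f_A00pm_102_s1 t 27 83 1 = true :=
  ⟨(b (b (a (c (a (l 16768832) (l 16767000)) (a (l 16768408) (l 16766576))) (c (a (l 16764912) (l 16762592)) (a (l 16764488) (l 16762168)))) (a (b (a (c (l 16769216) (l 16768616)) (l 16767224)) (a (l 16769280) (l 16767488))) (b (a (l 16765160) (l 16762864)) (a (l 16765440) (l 16763152))))) (b (b (a (a (l 16769616) (l 16767816)) (a (l 16765776) (c (l 16763528) (l 16762680)))) (b (a (a (l 16769928) (l 16768128)) (a (l 16766072) (c (l 16763344) (l 16762392)))) (a (a (l 16770176) (l 16768352)) (a (b (l 16766216) (l 16766144)) (b (l 16762480) (l 16761672)))))) (b (b (a (a (l 16770432) (b (l 16768528) (b (l 16768560) (c (l 16768848) (l 16767680))))) (a (b (c (l 16766200) (l 16765112)) (b (c (l 16765488) (l 16764376)) (l 16763968))) (c (l 16759848) (b (l 16759936) (l 16758160))))) (b (b (a (a (l 16770592) (l 16768384)) (a (l 16763464) (l 16757760))) (b (a (a (l 16770640) (l 16768432)) (a (l 16763504) (l 16757800))) (b (a (a (l 16770664) (l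 16768456)) (a (l 16763528) (l 16757816))) (a (a (l 16770680) (l 16768472)) (a (l 16763544) (l 16757832)))))) (a (a (l 16770752) (l 16768544)) (a (l 16763616) (l 16757896))))) (a (a (l 16771072) (l 16768848)) (a (l 16763920) (l 16758168)))))), by decide +kernel⟩

def k68_A00pm_102_s1 : ∃ t, chk3 f_A00pm_102_s1 t 12 21 1 = true :=
  ⟨(b (a (a (c (a (b (a (b (l 16784584) (l 16789040)) (b (l 16784384) (l 16788776))) (a (b (l 16793520) (l 16798048)) (l 16795424))) (b (b (a (l 16784176) (l 16783952)) (l 16788352)) (a (l 16795048) (l 16794656)))) (a (b (a (b (l 16782352) (l 16785832)) (l 16783872)) (a (l 16791128) (l 16790800))) (b (a (l 16783656) (l 16783416)) (a (l 16790456) (l 16790104))))) (c (b (a (b (l 16783584) (l 16787728)) (a (l 16785168) (l 16784832))) (a (a (l 16794240) (l 16793808)) (l 16793112))) (b (a (a (l 16783152) (l 16782880)) (l 16782432)) (a (l 16789528) (l 16788696))))) (a (b (a (c (l 16784296) (l 16781752)) (c (l 16783496) (l 16780992))) (a (c (l 16792120) (l 16787776)) (c (l 16791024)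 (l 16786760)))) (a (b (c (l 16782584) (l 16780136)) (l 16787776)) (b (c (l 16781568) (l 16779176)) (l 16786512))))) (a (a (a (b (c (a (l 16804968) (l 16804512)) (a (l 16798448) (l 16798008))) (c (a (l 16814496) (l 16813936)) (a (l 16806128) (l 16805584)))) (b (c (a (l 16804032) (l 16803520)) (a (l 16797552) (l 16797088))) (c (a (l 16813352) (l 16812736)) (a (l 16805016) (l 16804432))))) (a (b (c (a (l 16802984) (l 16802432)) (a (l 16796592) (l 16796088))) (c (a (l 16812096) (l 16811424)) (a (l 16803832) (l 16803216)))) (b (c (l 16801544) (l 16795288)) (c (l 16810368) (l 16802248))))) (a (a (b (c (l 16800288) (l 16794128)) (c (l 16808856) (l 16800880))) (b (l 16795928) (l 16803336))) (a (b (l 16794512) (l 16801672)) (b (l 16792984) (l 16799888)))))), by decide +kernel⟩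

def k69_A00pm_102_s1 : ∃ t, chk3 f_A00pm_102_s1 t 13 21 1 = true :=
  ⟨(a (b (a (b (a (c (l 16780432) (l 16778112)) (c (l 16779192) (l 16776920))) (a (l 16785136) (l 16783640))) (a (b (c (l 16777824) (l 16775608)) (l 16782016)) (b (l 16775264) (l 16780184)))) (a (a (b (l 16791336) (l 16797984)) (b (l 16789568) (l 16795952))) (a (b (l 16787664) (l 16793784)) (b (l 16785560) (l 16791400))))) (b (b (a (a (l 16773472) (c (l 16772024) (l 16769976))) (a (c (l 16767064) (l 16765096)) (c (l 16761040) (l 16759168)))) (a (a (l 16778104) (c (l 16777160) (l 16773800))) (a (c (l 16772144) (l 16768928)) (l 16764288)))) (a (b (a (l 16783192) (c (l 16782752) (l 16778032))) (a (l 16788768) (c (l 16788824) (l 16782696)))) (a (c (b (l 16777752) (l 16783920)) (b (l 16773232) (l 16778040))) (c (l 16773648) (b (l 16766560) (l 16770984))))))), by decide +kernel⟩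

def k70_A00pm_102_s1 : ∃ t, chk3 f_A00pm_102_s1 t 12 11 1 = true :=
  ⟨(b (a (b (a (a (b (c (a (l 16824400) (l 16823752)) (a (l 16814200) (l 16813552))) (c (l 16834352) (l 16817080))) (b (c (a (l 16823064) (l 16822352)) (a (l 16812888) (l 16812200))) (c (l 16832800) (l 16815544)))) (a (b (c (l 16821224) (l 16811128)) (c (l 16831120) (l 16819168))) (b (c (l 16819608) (l 16809632)) (c (l 16829296) (l 16817448))))) (a (a (b (c (l 16845048) (l 16831200)) (c (l 16856136) (l 16840488))) (b (c (l 16843328) (l 16829480)) (c (l 16854304) (l 16838640)))) (a (b (c (l 16841456) (l 16827656)) (c (l 16852256) (l 16836624))) (b (c (l 16839440) (l 16825736)) (c (l 16850056) (l 16834496)))))) (a (b (b (a (c (l 16817864) (l 16808032)) (l 16811176)) (a (c (l 16827328) (l 16815640)) (l 16819472))) (a (c (b (l 16837272) (l 16847688)) (b (l 16823704) (l 16832264))) (c (l 16839952) (l 16820424)))) (b (a (c (l 16818384) (l 16808032)) (c (l 16816112) (l 16805992))) (a (c (l 16837360) (l 16823296)) (c (l 16834592) (l 16820816))))))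 (a (b (a (a (c (l 16873512) (l 16855184)) (b (c (l 16865696) (l 16848216)) (l 16867848))) (a (b (l 16833800) (l 16844600)) (b (l 16831456) (l 16863104)))) (a (a (c (l 16898120) (l 16876288)) (c (l 16895992) (l 16874048))) (a (c (l 16893640) (l 16871648)) (c (l 16890968) (l 16868992))))) (a (b (a (c (l 16864224) (l 16835528)) (c (l 16861392) (l 16843344))) (a (c (l 16888096) (l 16866176)) (c (l 16884936) (l 16863152)))) (b (a (c (l 16858376) (l 16840552)) (l 16825424)) (a (l 16849728) (l 16867224)))))), by decide +kernel⟩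

def k71_A00pm_102_s1 : ∃ t, chk3 f_A00pm_102_s1 t 13 11 1 = true :=
  ⟨(a (b (b (a (a (l 16808792) (l 16806376)) (a (l 16803816) (c (l 16805496) (l 16796448)))) (a (a (l 16824960) (l 16822056)) (a (l 16819000) (l 16815720)))) (a (b (a (l 16843184) (l 16839816)) (a (l 16863584) (l 16859768))) (b (l 16834424) (l 16853680)))) (b (a (b (a (c (l 16802280) (l 16793568)) (c (l 16798808) (b (l 16787760) (l 16793296)))) (a (c (l 16818096) (l 16806104)) (c (l 16814056) (b (l 16799336) (l 16805872))))) (b (a (c (b (l 16790552) (l 16797664)) (b (c (l 16785168) (l 16781296)) (a (l 16790512) (l 16787240)))) (c (l 16786240) (a (l 16780488) (l 16776608)))) (a (c (b (l 16805280) (l 16813400)) (a (b (l 16796504) (l 16802936)) (b (l 16793512) (l 16800232)))) (c (l 16801192) (a (l 16792656) (l 16788408)))))) (a (b (c (l 16833888) (a (l 16820696) (l 16816640))) (c (l 16854008) (l 16835232))) (c (b (a (l 16826472) (l 16818608)) (a (l 16846008) (l 16838504))) (b (a (b (a (l 16809824) (l 16807328)) (l 16816008)) (c (l 16808296)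 (l 16801176))) (a (l 16828160) (a (l 16802680) (l 16818840)))))))), by decide +kernel⟩

def k72_A00pm_102_s1 : ∃ t, chk3 f_A00pm_102_s1 t 28 40 1 = true :=
  ⟨(c (c (b (a (b (a (l 16760872) (l 16758680)) (a (l 16759976) (l 16757752))) (b (a (l 16756512) (l 16754336)) (a (l 16755560) (l 16753384)))) (b (a (a (l 16759344) (l 16757088)) (a (l 16754880) (l 16752696))) (a (a (l 16759008) (l 16756720)) (a (l 16754504) (l 16752176))))) (b (a (b (a (l 16761328) (l 16759112)) (a (l 16760440) (l 16758200))) (b (a (l 16756904) (l 16754648)) (a (l 16755960) (l 16753696)))) (b (a (a (l 16759808) (l 16757520)) (a (l 16755256) (l 16752984))) (a (a (l 16759432) (l 16757112)) (a (l 16754824) (l 16752400)))))) (c (b (a (b (a (l 16761568) (l 16759328)) (a (l 16760688) (l 16758408))) (b (a (l 16757056) (l 16754720)) (a (l 16756104) (l 16753744)))) (b (a (a (l 16760024) (l 16757704)) (a (l 16755368) (l 16752984))) (a (a (l 16759592) (l 16757232)) (a (l 16754864) (l 16752336))))) (b (a (b (a (l 16761600) (l 16759320)) (a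 (l 16760704) (l 16758376))) (b (a (l 16756976) (l 16754536)) (a (l 16755992) (l 16753528)))) (a (b (a (l 16759992) (l 16757616)) (a (l 16759488) (l 16757072))) (a (b (l 16755200) (l 16754616)) (b (l 16752712) (l 16751968))))))), by decide +kernel⟩

def k73_A00pm_102_s1 : ∃ t, chk3 f_A00pm_102_s1 t 29 40 1 = true :=
  ⟨(b (a (a (b (c (a (l 16752832) (l 16751680)) (l 16752176)) (c (a (l 16751872) (l 16750744)) (l 16751184))) (b (c (a (l 16750488) (a (l 16749568) (l 16748848))) (a (l 16750216) (l 16748760))) (a (c (a (l 16749864) (l 16749128)) (l 16749072)) (c (b (c (l 16748224) (l 16748256)) (l 16747280)) (b (l 16747776) (l 16746696)))))) (b (a (a (c (b (a (l 16748464) (l 16747600)) (a (l 16747736) (l 16746416))) (b (a (l 16747976) (l 16747016)) (l 16746488))) (c (c (l 16745032) (l 16744896)) (l 16744200))) (c (a (l 16742256) (l 16739464)) (a (l 16741224) (l 16738200)))) (a (c (a (l 16745192) (l 16742472)) (a (l 16744432) (l 16741480))) (c (l 16738312) (l 16736968))))) (a (a (b (b (c (l 16750720) (l 16750504))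 (a (l 16751096) (c (l 16749616) (l 16749240)))) (c (a (b (l 16750656) (l 16749984)) (l 16748008)) (a (l 16755112) (l 16747472)))) (b (c (a (b (l 16748536) (l 16747296)) (l 16745264)) (a (b (l 16748064) (l 16746728)) (l 16744536))) (c (l 16743896) (l 16743048)))) (a (b (c (l 16746456) (l 16740136)) (c (l 16738408) (l 16737128))) (c (b (l 16735648) (l 16732824)) (l 16743024))))), by decide +kernel⟩

def k74_A00pm_102_s1 : ∃ t, chk3 f_A00pm_102_s1 t 14 82 1 = true :=
  ⟨(a (a (b (b (a (l 16759432) (l 16757072)) (a (l 16759448) (l 16757072))) (c (a (l 16759560) (l 16757176)) (a (l 16759408) (l 16756904)))) (b (a (c (l 16754552) (l 16754424)) (c (b (l 16757168) (l 16756472)) (a (l 16752216) (l 16750136)))) (a (b (c (l 16754392) (l 16754040)) (a (l 16754896) (l 16752224))) (c (l 16748888) (l 16748216))))) (a (a (b (c (l 16746472) (l 16745776)) (l 16748128)) (b (c (l 16740928) (l 16739856)) (l 16731824))) (a (b (l 16734760) (c (l 16732000) (l 16730272))) (c (l 16727920) (b (l 16727824) (l 16724184)))))), by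 decide +kernel⟩

def k75_A00pm_102_s1 : ∃ t, chk3 f_A00pm_102_s1 t 14 166 1 = true :=
  ⟨(a (a (b (a (l 16760088) (c (l 16757016) (l 16756472))) (a (c (a (l 16761192) (l 16759400)) (l 16759464)) (c (l 16755504) (l 16754760)))) (a (b (l 16751712) (l 16749280)) (c (l 16744816) (l 16743824)))) (a (a (c (l 16739088) (l 16737824)) (c (l 16733416) (l 16731824))) (a (c (l 16727776) (l 16725800)) (c (l 16722152) (l 16719760))))), by decide +kernel⟩

def k76_A00pm_102_s1 : ∃ t, chk3 f_A00pm_102_s1 t 14 334 1 = true :=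
  ⟨(b (a (a (a (c (l 16759264) (l 16758416)) (l 16752960)) (a (l 16747008) (l 16741096))) (a (a (l 16735232) (c (l 16730168) (l 16728400))) (a (c (l 16724544) (l 16722416)) (c (l 16718960) (l 16716416))))) (b (a (a (a (l 16757472) (l 16751448)) (a (l 16745504) (l 16739616))) (a (a (l 16733776) (c (l 16728768) (l 16726944))) (a (c (l 16723168) (l 16720992)) (c (l 16717608) (l 16715024))))) (b (b (a (a (a (l 16756688) (l 16750680)) (a (l 16744744) (l 16738864))) (a (a (l 16733040) (l 16727248)) (a (c (l 16722480) (l 16720288)) (c (l 16716944) (l 16714344))))) (b (a (a (a (l 16756424) (l 16750416)) (a (l 16744480) (l 16738608))) (a (a (l 16732792) (l 16727008)) (a (c (l 16722248) (l 16720048)) (c (l 16716712) (l 16714112))))) (b (a (a (a (l 16756280) (l 16750272)) (a (l 16744344) (l 16738480))) (a (a (l 16732656) (l 16726880)) (a (l 16718504) (c (l 16716600) (l 16713992))))) (a (a (a (l 16756184) (l 16750176)) (a (l 16744256) (l 16738384))) (a (a (l 16732568) (l 16726792)) (a (l 16718424) (c (l 16716520)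 (l 16713912)))))))) (a (a (a (l 16755696) (l 16749696)) (a (l 16743784) (l 16737928))) (a (a (c (l 16732784) (l 16731224)) (c (l 16727184) (l 16725320))) (a (c (l 16721632) (l 16719416)) (c (l 16716120) (l 16713504)))))))), by decide +kernel⟩

def k77_A00pm_102_s1 : ∃ t, chk3 f_A00pm_102_s1 t 14 1340 1 = true :=
  ⟨(a (b (a (a (l 16754624) (l 16748648)) (a (l 16737512) (c (l 16737480) (l 16736136)))) (a (a (c (l 16753288) (l 16752256)) (c (l 16747376) (b (l 16746824) (l 16745768)))) (a (c (b (l 16742088) (l 16741072)) (b (l 16740912) (l 16739896))) (c (b (l 16736384) (l 16735408)) (b (l 16735040) (l 16734056)))))) (a (a (b (c (l 16731832) (l 16730248)) (c (b (l 16730776) (l 16729840)) (b (l 16729192) (l 16728248)))) (b (c (l 16726256) (l 16724384)) (c (b (l 16725248) (a (l 16725704) (l 16722976))) (b (l 16723360) (a (l 16723896) (l 16721008)))))) (a (b (c (l 16720744) (l 16718512)) (c (b (l 16719776) (a (l 16720256) (l 16717552))) (b (l 16717544) (a (l 16718120) (l 16715224))))) (c (b (l 16715264) (b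 (l 16714336) (a (l 16714856) (l 16712168)))) (b (l 16712640) (b (l 16711712) (a (l 16712336) (l 16709440)))))))), by decide +kernel⟩

def k78_A00pm_102_s1 : ∃ t, chk3 f_A00pm_102_s1 t 14 1341 1 = true :=
  ⟨(b (b (a (a (a (l 16751856) (l 16745944)) (a (c (l 16740608) (l 16739424)) (c (l 16734960) (l 16733592)))) (a (a (c (l 16729400) (l 16727800)) (c (l 16723928) (l 16722024))) (a (c (l 16718504) (l 16716264)) (c (l 16713128) (l 16710496))))) (b (a (a (a (l 16751888) (l 16745976)) (a (c (l 16740640) (l 16739440)) (c (l 16734984) (l 16733608)))) (a (a (c (l 16729416) (l 16727808)) (c (l 16723928) (l 16722024))) (a (c (l 16718504) (l 16716256)) (c (l 16713128) (l 16710480))))) (b (a (a (a (l 16751904) (l 16745992)) (a (c (l 16740656) (l 16739448)) (c (l 16734992) (l 16733608)))) (a (a (c (l 16729424) (l 16727808)) (c (l 16723936) (l 16722024))) (a (c (l 16718504) (l 16716256)) (c (l 16713120) (l 16710480))))) (a (a (a (l 16751920) (l 16746000)) (a (c (l 16740664) (l 16739448)) (c (l 16735000) (l 16733616))))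 (a (a (c (l 16729424) (l 16727808)) (c (l 16723936) (l 16722024))) (a (c (l 16718504) (l 16716248)) (c (l 16713120) (l 16710472)))))))) (a (a (a (l 16751968) (l 16746040)) (a (c (l 16740704) (l 16739472)) (c (l 16735024) (l 16733632)))) (a (a (c (l 16729448) (l 16727816)) (c (l 16723944) (l 16722024))) (a (c (l 16718512) (l 16716240)) (c (l 16713112) (l 16710456)))))), by decide +kernel⟩

def k79_A00pm_102_s1 : ∃ t, chk3 f_A00pm_102_s1 t 14 671 1 = true :=
  ⟨(a (a (a (l 16746968) (c (l 16746720) (l 16745520))) (a (c (l 16740888) (l 16739584)) (c (l 16735160) (l 16733696)))) (a (a (c (l 16729536) (l 16727840)) (c (l 16723992) (l 16722008))) (a (c (l 16718512) (l 16716192)) (c (c (l 16713648) (l 16712464)) (l 16710368))))), by decide +kernel⟩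

def k80_A00pm_102_s1 : ∃ t, chk3 f_A00pm_102_s1 t 14 21 1 = true :=
  ⟨(a (b (a (b (a (c (l 16754792) (l 16752992)) (c (b (l 16747688) (l 16749400)) (b (l 16746168) (l 16747344)))) (a (c (l 16759032) (l 16756080)) (c (l 16752224) (l 16749360)))) (b (a (c (b (l 16741656) (l 16743040)) (b (l 16740064) (l 16740960))) (c (b (l 16735744) (l 16736816)) (b (l 16734008) (l 16734632)))) (a (c (l 16745448) (l 16742600)) (c (l 16738728) (l 16735832))))) (b (a (a (l 16761832) (l 16754656)) (a (c (l 16749216) (l 16745288)) (c (l 16741912) (l 16738008)))) (a (a (l 16766496) (l 16758904)) (a (l 16751200) (l 16743384))))) (b (a (a (b (c (b (l 16729936) (l 16730704)) (b (l 16727992) (l 16728344))) (c (l 16732152) (l 16729144))) (a (b (c (l 16725880) (l 16723544)) (c (l 16727296) (l 16724152))) (b (c (b (l 16722784) (l 16723200)) (l 16720496)) (c (l 16724088) (l 16720840))))) (a (b (c (b (a (l 16719960) (l 16717152)) (a (l 16720232) (l 16717288))) (b (a (l 16717512) (l 16714528)) (l 16715880))) (c (b (l 16719112) (l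 16719616)) (b (l 16715864) (l 16715976)))) (b (c (b (a (l 16714352) (l 16711568)) (a (l 16714360) (l 16711440))) (b (a (l 16711552) (l 16708560)) (l 16709672))) (c (a (l 16714624) (l 16711504)) (b (l 16709416) (l 16709280)))))) (a (a (b (c (l 16734680) (l 16730736)) (c (l 16737936) (l 16732976))) (b (c (l 16727600) (l 16723544)) (c (l 16730184) (l 16725192)))) (a (b (c (l 16720648) (l 16716408)) (c (l 16722608) (l 16717504))) (c (b (a (l 16715504) (l 16712112)) (l 16715168)) (b (l 16709328) (l 16709888))))))), by decide +kernel⟩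

def k81_A00pm_102_s1 : ∃ t, chk3 f_A00pm_102_s1 t 60 20 1 = true :=
  ⟨(c (b (b (a (b (l 16735200) (l 16732600)) (l 16738480)) (a (l 16728440) (l 16722520))) (b (a (l 16722200) (b (l 16718104) (l 16714736))) (b (a (l 16716488) (l 16710672)) (b (a (b (l 16713344) (l 16711408)) (b (l 16707624) (l 16705768))) (b (b (a (b (l 16709792) (b (l 16708920) (a (l 16709488) (l 16706784)))) (b (l 16704232) (b (l 16703400) (a (l 16704048) (l 16701272))))) (b (b (a (c (l 16708448) (l 16707056)) (c (l 16703120) (l 16701488))) (b (a (c (l 16708432) (l 16707048)) (c (l 16703104) (l 16701472))) (b (a (c (l 16708432) (l 16707040)) (c (l 16703096) (l 16701464))) (a (c (l 16708432) (l 16707032)) (c (l 16703096) (l 16701456)))))) (a (c (l 16708416) (l 16707016)) (c (l 16703072) (l 16701432))))) (a (c (l 16708352) (l 16706936)) (c (l 16702992) (l 16701328)))))))) (b (a (b (b (l 16733576) (l 16730792)) (l 16726328)) (b (l 16725808) (l 16719944))) (b (a (b (l 16721600) (l 16717992)) (b (l 16715216) (l 16711640))) (b (a (l 16713632)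 (l 16707368)) (b (a (b (l 16710360) (l 16708368)) (b (l 16704184) (l 16702280))) (a (b (b (b (l 16706736) (b (l 16705856) (a (l 16706536) (l 16703608)))) (l 16704664)) (l 16704528)) (b (b (b (l 16700720) (b (l 16699888) (a (l 16700648) (l 16697656)))) (l 16698760)) (l 16698592)))))))), by decide +kernel⟩

def k82_A00pm_102_s1 : ∃ t, chk3 f_A00pm_102_s1 t 61 20 1 = true :=
  ⟨(c (a (a (b (b (l 16723472) (l 16717968)) (b (l 16711768) (b (l 16706208) (b (l 16702144) (b (b (b (l 16699944) (b (l 16699152) (l 16698464))) (l 16698088)) (l 16697952)))))) (b (b (l 16720400) (l 16714880)) (b (l 16708696) (b (l 16703184) (b (l 16699192) (b (b (b (l 16697048) (b (l 16696280) (l 16695616))) (l 16695240)) (l 16695088))))))) (a (b (b (l 16717280) (l 16711752)) (b (l 16705584) (b (l 16700120) (b (l 16696208) (b (b (b (l 16694112) (b (l 16693376) (l 16697968))) (l 16692360)) (l 16692192)))))) (b (b (l 16714120) (l 16708576)) (b (l 16702432) (b (l 16697024) (b (l 16693176) (b (b (b (l 16691144) (b (l 16690424) (c (l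 16690880) (l 16688696)))) (l 16689440)) (l 16689264)))))))) (a (b (b (l 16719280) (l 16713384)) (b (b (l 16708664) (l 16705120)) (b (l 16700936) (b (b (l 16697856) (l 16696032)) (b (b (b (l 16694552) (b (l 16693776) (c (l 16694120) (l 16692032)))) (l 16692704)) (l 16692504)))))) (b (b (l 16712568) (l 16706648)) (b (b (l 16701944) (l 16698448)) (b (l 16694360) (b (b (l 16691376) (l 16689632)) (b (b (b (l 16688232) (a (l 16694000) (l 16690840))) (l 16686488)) (l 16686264)))))))), by decide +kernel⟩

def k83_A00pm_102_s1 : ∃ t, chk3 f_A00pm_102_s1 t 30 21 1 = true :=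
  ⟨(a (b (a (b (c (a (b (l 16708792) (l 16708536)) (b (l 16706008) (l 16705648))) (b (a (l 16705584) (l 16702576)) (l 16706112))) (c (a (l 16708408) (l 16705320)) (a (l 16704408) (l 16701128)))) (c (b (a (b (l 16703208) (l 16702744)) (c (l 16701016) (l 16699136))) (a (c (l 16703272) (l 16701224)) (c (l 16700248) (l 16698088)))) (b (a (l 16704408) (l 16696072)) (a (l 16697872) (l 16694584))))) (a (c (b (a (l 16708736) (l 16705384)) (l 16707848)) (b (l 16702288) (l 16702328))) (c (b (c (l 16701584) (l 16699168)) (a (l 16702424) (l 16698840))) (b (l 16695272) (l 16694824))))) (b (a (c (b (a (c (l 16698168) (l 16696168)) (c (l 16695288) (l 16693168))) (a (c (l 16697224) (l 16694944)) (c (l 16694192) (l 16691792)))) (b (a (l 16692944) (l 16689784)) (a (l 16691288) (l 16687976)))) (c (b (a (c (l 16692368) (l 16690128)) (b (l 16688688) (l 16687840))) (a (c (l 16691128) (l 16688600)) (c (l 16688024) (l 16685376)))) (b (a (l 16686584) (l 16683344)) (a (l 16684624) (l 16681240))))) (a (c (a (b (l 16695448) (l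 16695272)) (b (l 16692136) (l 16691728))) (b (l 16693520) (l 16687352))) (a (c (b (l 16688832) (l 16688216)) (b (l 16683000) (l 16681768))) (c (b (l 16685512) (l 16684680)) (b (l 16679464) (l 16678040))))))), by decide +kernel⟩

def k84_A00pm_102_s1 : ∃ t, chk3 f_A00pm_102_s1 t 31 20 1 = true :=
  ⟨(a (c (a (a (b (b (l 16710912) (l 16705360)) (b (l 16699232) (b (l 16693880) (b (l 16690112) (b (b (b (l 16688128) (b (l 16687432) (l 16692072))) (l 16686480)) (l 16686288)))))) (b (b (l 16707648) (l 16702096)) (b (l 16696000) (b (l 16690696) (b (l 16687008) (b (b (b (l 16685072) (b (l 16684408) (l 16683824))) (l 16683480)) (l 16683272))))))) (b (b (l 16702680) (l 16697120)) (b (b (l 16692760) (l 16689552)) (b (b (l 16686936) (l 16684920)) (b (b (l 16683184) (l 16686896)) (b (b (b (l 16680424) (b (l 16690280) (a (l 16680776) (l 16677688)))) (b (l 16684192) (l 16684112))) (c (l 16680008) (l 16677360)))))))) (a (b (b (l 16705680) (l 16699744)) (b (b (l 16695056) (l 16691608)) (b (l 16687616) (b (b (l 16684736)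 (l 16683080)) (b (b (b (l 16681760) (b (l 16681080) (l 16690976))) (l 16680120)) (l 16679872)))))) (b (b (l 16698608) (l 16692672)) (b (b (l 16688008) (l 16684608)) (b (l 16680720) (b (l 16677008) (b (b (b (l 16675120) (b (l 16674496) (l 16673944))) (l 16673592)) (l 16673320)))))))) (c (b (a (b (l 16695880) (l 16690328)) (a (l 16687744) (l 16684200))) (b (a (b (l 16685984) (l 16682832)) (a (l 16679152) (l 16675656))) (a (b (l 16679240) (b (b (l 16676664) (l 16675216)) (b (b (b (l 16674072) (a (l 16685304) (l 16671632))) (l 16672656)) (l 16672416)))) (b (l 16672448) (b (l 16669184) (a (a (l 16679736) (l 16667616)) (l 16675624))))))) (b (a (b (l 16691344) (l 16685416)) (b (l 16683896) (l 16677984))) (b (a (l 16679032) (l 16671672)) (a (b (l 16673656) (b (l 16670104) (a (a (l 16680552) (l 16668360)) (l 16676272)))) (b (l 16666424) (b (l 16663032) (a (l 16662320) (l 16658808))))))))), by decide +kernel⟩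

def k85_A00pm_102_s1 : ∃ t, chk3 f_A00pm_102_s1 t 31 21 1 = true :=
  ⟨(a (c (b (a (b (a (c (l 16691672) (l 16683936)) (c (l 16683400) (l 16680784))) (c (a (l 16684880) (l 16681712)) (a (l 16682120) (l 16678824)))) (b (a (c (l 16680328) (l 16677592)) (c (l 16677224) (l 16674368))) (a (l 16677000) (l 16673696)))) (a (a (b (l 16682160) (l 16681152)) (b (l 16678776) (l 16677616))) (a (c (l 16676336) (l 16672912)) (c (l 16672872) (l 16669328))))) (b (a (b (a (l 16680072) (l 16676760)) (a (l 16677824) (l 16674368))) (b (a (l 16673408) (l 16670016)) (l 16679616))) (a (b (l 16674104) (l 16672424)) (b (l 16666840) (l 16664872))))) (a (b (c (a (b (l 16672592) (l 16670352)) (b (l 16669336) (l 16666968))) (b (l 16675352) (l 16662008))) (c (a (c (l 16669376) (l 16665712)) (l 16663960)) (a (l 16660152) (l 16656352)))) (b (c (a (b (l 16666048) (l 16663552)) (l 16671832)) (a (l 16658040) (l 16654432))) (c (a (l 16660336) (l 16656688)) (a (l 16652520) (l 16648656)))))), by decide +kernel⟩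

def k86_A00pm_102_s1 : ∃ t, chk3 f_A00pm_102_s1 t 14 11 1 = true :=
  ⟨(a (b (a (b (c (a (l 16778048) (l 16769688)) (a (c (l 16772608) (l 16768672)) (l 16762576))) (c (a (l 16792136) (l 16782872)) (a (c (l 16784544) (l 16779192)) (c (l 16775568) (l 16770408))))) (b (a (c (l 16761224) (l 16754336)) (c (l 16752672) (l 16745952))) (c (a (l 16773480) (l 16763976)) (a (l 16763952) (l 16754728))))) (c (a (b (b (l 16799448) (l 16808152)) (l 16801424)) (b (a (l 16788232) (l 16777760)) (l 16778928))) (a (a (b (c (l 16798776) (l 16791896)) (l 16811184)) (b (c (l 16788992) (l 16782344)) (l 16800728))) (b (a (l 16775808) (l 16765736)) (a (l 16790024) (l 16779096)))))) (b (c (a (b (a (l 16744008) (l 16735400)) (a (l 16754392) (l 16744736))) (b (a (b (l 16725256) (l 16728656)) (b (l 16717184) (l 16719896))) (a (l 16734992) (l 16725344)))) (a (b (a (l 16737408) (l 16728864)) (a (l 16745368) (l 16735896))) (b (a (b (l 16719224) (l 16721608)) (b (l 16711040) (l 16712816))) (a (l 16726288) (l 16716704))))) (a (b (c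 (a (l 16767184) (l 16756536)) (a (l 16755504) (l 16745136))) (c (a (l 16782608) (l 16770920)) (a (l 16767976) (l 16756704)))) (b (a (c (l 16745824) (l 16734664)) (c (l 16735080) (l 16724104))) (c (a (l 16759160) (l 16747360)) (a (l 16745304) (l 16733792))))))), by decide +kernel⟩

def k87_A00pm_102_s1 : ∃ t, chk3 f_A00pm_102_s1 t 30 11 1 = true :=
  ⟨(b (a (b (a (c (b (l 16709256) (l 16711328)) (b (l 16702936) (l 16704144))) (c (b (l 16701456) (l 16702920)) (b (l 16694904) (l 16695560)))) (a (c (b (l 16714112) (l 16717664)) (b (l 16705976) (l 16708504))) (c (b (l 16705056) (l 16707904)) (b (l 16696824) (l 16698720))))) (a (b (c (b (c (l 16695400) (l 16692128)) (c (l 16696456) (l 16692816))) (b (l 16686936) (l 16687064))) (c (b (l 16696168) (l 16698360)) (b (l 16687768) (l 16689080)))) (b (c (a (b (l 16688080) (l 16688536)) (c (l 16686128) (l 16682448))) (b (l 16679016) (l 16678640))) (c (a (c (l 16692504) (l 16688168)) (c (l 16688056) (l 16683656))) (a (l 16681384) (l 16676792)))))) (a (b (a (c (l 16724272)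 (l 16713432)) (c (b (l 16711536) (l 16715888)) (b (l 16701312) (l 16704552)))) (a (c (l 16735536) (l 16722208)) (c (b (l 16720976) (l 16726680)) (l 16710576)))) (b (a (c (a (l 16705664) (l 16700376)) (a (l 16694912) (l 16689624))) (c (a (b (l 16693736) (l 16696888)) (c (l 16692680) (l 16687408))) (a (l 16684408) (l 16679240)))) (a (c (b (l 16709424) (l 16714600)) (b (l 16697016) (l 16700992))) (c (a (b (l 16700840) (l 16705536)) (b (l 16695160) (l 16699544))) (a (b (l 16688480) (l 16692024)) (b (l 16682816) (l 16686080)))))))), by decide +kernel⟩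

def k88_A00pm_102_s1 : ∃ t, chk3 f_A00pm_102_s1 t 62 11 1 = true :=
  ⟨(b (a (b (c (b (c (l 16685768) (l 16676840)) (c (l 16680464) (l 16676472))) (b (l 16671136) (l 16670280))) (c (a (c (l 16683656) (l 16679176)) (b (l 16676712) (l 16677536))) (b (l 16669944) (l 16670152)))) (b (c (b (c (l 16673144) (l 16669224)) (c (l 16683128) (l 16668432))) (b (l 16663224) (l 16661968))) (c (a (b (l 16672472) (l 16673016)) (b (l 16668256) (l 16668528))) (b (l 16661144) (l 16660840))))) (a (b (c (a (c (l 16692872) (l 16682312)) (c (b (l 16681560) (l 16683920)) (l 16682504))) (b (c (l 16673608) (l 16668248)) (c (l 16675240) (l 16669432)))) (c (a (b (l 16689552) (c (l 16696856) (l 16690272))) (b (c (l 16687032) (l 16680960)) (c (l 16690936) (l 16684344)))) (b (c (l 16677552) (l 16671256)) (a (l 16680144) (c (l 16677640) (l 16670816)))))) (b (c (b (c (a (l 16676776) (l 16672032)) (l 16669144)) (c (a (l 16678808) (l 16673744)) (a (l 16673168) (l 16668048)))) (b (c (l 16663792) (l 16658352)) (c (l 16664840) (l 16658976))))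 (b (a (c (c (l 16681568) (l 16675464)) (l 16666120)) (c (c (b (l 16675504) (l 16676896)) (l 16670024)) (l 16671120))) (l 6))))), by decide +kernel⟩

def k89_A00pm_102_s1 : ∃ t, chk3 f_A00pm_102_s1 t 63 11 1 = true :=
  ⟨(b (a (a (b (c (b (l 16665536) (l 16664592)) (l 16656408)) (c (b (l 16664088) (l 16664072)) (l 16654200))) (b (c (l 16671592) (l 16652336)) (c (b (l 16659904) (l 16659648)) (l 16649704)))) (b (c (a (l 16657192) (l 16653248)) (a (l 16648216) (l 16644072))) (c (a (b (l 16655736) (l 16655264)) (b (l 16651560) (l 16650872))) (a (l 16645224) (l 16640752))))) (a (a (b (c (b (c (l 16667336) (l 16661960)) (c (l 16668736) (l 16662968))) (b (l 16653768) (l 16654184))) (a (b (c (c (l 16672152) (l 16665968)) (l 16656552)) (l 6)) (l 6))) (b (c (b (c (l 16662680) (l 16657216)) (c (l 16663776) (l 16657936))) (b (l 16648920) (l 16649072))) (l 6))) (b (c (b (a (l 16665768) (l 16650648)) (a (c (l 16658864) (l 16652944)) (l 6))) (b (a (l 16644096) (l 16639296)) (c (l 16654952) (l 16638448)))) (l 6)))),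 by decide +kernel⟩

def k90_A00pm_102_s1 : ∃ t, chk3 f_A00pm_102_s1 t 6 3 1 = true :=
  ⟨(b (b (a (b (a (a (a (b (a (l 16870056) (l 16869056)) (l 2)) (b (l 16888408) (l 16893248))) (a (b (c (l 16919592) (l 16894192)) (l 16890880)) (b (l 16904112) (l 16930112)))) (a (a (b (l 16901072) (l 16927008)) (b (l 16897720) (l 16923504))) (b (c (l 16906312) (l 16879712)) (a (l 16919768) (l 16915720))))) (a (b (a (l 2) (c (l 16968008) (l 16942744))) (l 2)) (a (b (c (l 16964416) (l 16936712)) (l 16932936)) (b (a (l 16946256) (l 16942728)) (l 16927784))))) (a (b (a (b (a (l 16886272) (l 16882032)) (l 16867232)) (b (l 16875288) (l 16899336))) (a (b (l 16936968) (l 16879672)) (b (l 16928312) (l 16956040)))) (b (a (b (l 16865336) (l 16888496)) (b (c (l 16864072) (a (l 16846312) (b (l 16835096) (l 16844896)))) (a (l 16879576) (c (l 16892800) (l 16860568))))) (a (b (l 16917744) (l 16947168)) (b (a (l 16908328) (l 16901272)) (l 16936232)))))) (b (b (a (a (l 2) (a (l 2) (l 16992800))) (a (a (l 16988032) (l 16982160)) (a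 (l 16974624) (l 6)))) (a (l 2) (l 6))) (l 6))) (l 6)), by decide +kernel⟩

def k91_A00pm_102_s1 : ∃ t, chk3 f_A00pm_102_s1 t 7 3 1 = true :=
  ⟨(b (b (a (b (a (c (b (a (l 16843792) (l 16819528)) (a (l 16875744) (l 16847200))) (a (b (b (l 16819248) (l 16828848)) (l 16844456)) (b (b (l 16796584) (l 16805368)) (b (l 16814816) (l 16824944))))) (c (a (b (l 16752480) (l 16814960)) (b (a (l 16775240) (l 16762344)) (a (l 16794200) (l 16780216)))) (a (b (a (l 16782928) (l 16770728)) (a (l 16800496) (l 16787376))) (b (a (l 16758376) (l 16745904)) (a (l 16774064) (l 16739632)))))) (a (a (b (c (l 16911960) (l 16867616)) (l 16919176)) (b (c (l 16886824) (l 16840776)) (l 6))) (a (b (c (l 16856240) (b (l 16808056) (l 6))) (l 6)) (l 6)))) (a (b (a (a (b (c (l 16749416) (l 16733336)) (c (l 16766168) (c (l 16751872) (l 16742136)))) (b (c (l 16736472) (l 16720696)) (l 6))) (b (b (a (c (l 16720416) (l 16705544)) (c (a (l 16710952) (l 16704664)) (a (l 16696216) (l 16690000)))) (a (c (l 16726912) (l 16710704)) (l 6))) (l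 6))) (l 6)) (l 6))) (a (l 6) (l 6))) (l 6)), by decide +kernel⟩

theorem t92_A00pm_102_s1 : ∃ t, chk3 f_A00pm_102_s1 t 3 3 1 = true := ex3_a k90_A00pm_102_s1 k91_A00pm_102_s1

theorem t93_A00pm_102_s1 : ∃ t, chk3 f_A00pm_102_s1 t 31 11 1 = true := ex3_a k88_A00pm_102_s1 k89_A00pm_102_s1

theorem t94_A00pm_102_s1 : ∃ t, chk3 f_A00pm_102_s1 t 15 11 1 = true := ex3_a k87_A00pm_102_s1 t93_A00pm_102_s1

theorem t95_A00pm_102_s1 : ∃ t, chk3 f_A00pm_102_s1 t 7 11 1 = true := ex3_a k86_A00pm_102_s1 t94_A00pm_102_s1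

theorem t96_A00pm_102_s1 : ∃ t, chk3 f_A00pm_102_s1 t 31 10 1 = true := ex3_b k84_A00pm_102_s1 k85_A00pm_102_s1

theorem t97_A00pm_102_s1 : ∃ t, chk3 f_A00pm_102_s1 t 30 20 1 = true := ex3_a k81_A00pm_102_s1 k82_A00pm_102_s1

theorem t98_A00pm_102_s1 : ∃ t, chk3 f_A00pm_102_s1 t 30 10 1 = true := ex3_b t97_A00pm_102_s1 k83_A00pm_102_s1

theorem t99_A00pm_102_s1 : ∃ t, chk3 f_A00pm_102_s1 t 15 10 1 = true := ex3_a t98_A00pm_102_s1 t96_A00pm_102_s1

theorem t100_A00pm_102_s1 : ∃ t, chk3 f_A00pm_102_s1 t 14 670 1 = true := ex3_b k77_A00pm_102_s1 k78_A00pm_102_s1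

theorem t101_A00pm_102_s1 : ∃ t, chk3 f_A00pm_102_s1 t 14 335 1 = true := ex3_b t100_A00pm_102_s1 k79_A00pm_102_s1

theorem t102_A00pm_102_s1 : ∃ t, chk3 f_A00pm_102_s1 t 14 167 1 = true := ex3_b k76_A00pm_102_s1 t101_A00pm_102_s1

theorem t103_A00pm_102_s1 : ∃ t, chk3 f_A00pm_102_s1 t 14 83 1 = true := ex3_b k75_A00pm_102_s1 t102_A00pm_102_s1

theorem t104_A00pm_102_s1 : ∃ t, chk3 f_A00pm_102_s1 t 14 41 1 = true := ex3_b k74_A00pm_102_s1 t103_A00pm_102_s1

theorem t105_A00pm_102_s1 : ∃ t, chk3 f_A00pm_102_s1 t 14 40 1 = true := ex3_a k72_A00pm_102_s1 k73_A00pm_102_s1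

theorem t106_A00pm_102_s1 : ∃ t, chk3 f_A00pm_102_s1 t 14 20 1 = true := ex3_b t105_A00pm_102_s1 t104_A00pm_102_s1

theorem t107_A00pm_102_s1 : ∃ t, chk3 f_A00pm_102_s1 t 14 10 1 = true := ex3_b t106_A00pm_102_s1 k80_A00pm_102_s1

theorem t108_A00pm_102_s1 : ∃ t, chk3 f_A00pm_102_s1 t 7 10 1 = true := ex3_a t107_A00pm_102_s1 t99_A00pm_102_s1

theorem t109_A00pm_102_s1 : ∃ t, chk3 f_A00pm_102_s1 t 7 5 1 = true := ex3_b t108_A00pm_102_s1 t95_A00pm_102_s1

theorem t110_A00pm_102_s1 : ∃ t, chk3 f_A00pm_102_s1 t 6 11 1 = true := ex3_a k70_A00pm_102_s1 k71_A00pm_102_s1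

theorem t111_A00pm_102_s1 : ∃ t, chk3 f_A00pm_102_s1 t 6 21 1 = true := ex3_a k68_A00pm_102_s1 k69_A00pm_102_s1

theorem t112_A00pm_102_s1 : ∃ t, chk3 f_A00pm_102_s1 t 27 41 1 = true := ex3_b k66_A00pm_102_s1 k67_A00pm_102_s1

theorem t113_A00pm_102_s1 : ∃ t, chk3 f_A00pm_102_s1 t 13 41 1 = true := ex3_a k65_A00pm_102_s1 t112_A00pm_102_s1

theorem t114_A00pm_102_s1 : ∃ t, chk3 f_A00pm_102_s1 t 12 83 1 = true := ex3_a k63_A00pm_102_s1 k64_A00pm_102_s1

theorem t115_A00pm_102_s1 : ∃ t, chk3 f_A00pm_102_s1 t 12 82 1 = true := ex3_b k61_A00pm_102_s1 k62_A00pm_102_s1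

theorem t116_A00pm_102_s1 : ∃ t, chk3 f_A00pm_102_s1 t 12 41 1 = true := ex3_b t115_A00pm_102_s1 t114_A00pm_102_s1

theorem t117_A00pm_102_s1 : ∃ t, chk3 f_A00pm_102_s1 t 6 41 1 = true := ex3_a t116_A00pm_102_s1 t113_A00pm_102_s1

theorem t118_A00pm_102_s1 : ∃ t, chk3 f_A00pm_102_s1 t 13 40 1 = true := ex3_a k59_A00pm_102_s1 k60_A00pm_102_s1

theorem t119_A00pm_102_s1 : ∃ t, chk3 f_A00pm_102_s1 t 12 40 1 = true := ex3_b k57_A00pm_102_s1 k58_A00pm_102_s1

theorem t120_A00pm_102_s1 : ∃ t, chk3 f_A00pm_102_s1 t 6 40 1 = true := ex3_a t119_A00pm_102_s1 t118_A00pm_102_s1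

theorem t121_A00pm_102_s1 : ∃ t, chk3 f_A00pm_102_s1 t 6 20 1 = true := ex3_b t120_A00pm_102_s1 t117_A00pm_102_s1

theorem t122_A00pm_102_s1 : ∃ t, chk3 f_A00pm_102_s1 t 6 10 1 = true := ex3_b t121_A00pm_102_s1 t111_A00pm_102_s1

theorem t123_A00pm_102_s1 : ∃ t, chk3 f_A00pm_102_s1 t 6 5 1 = true := ex3_b t122_A00pm_102_s1 t110_A00pm_102_s1

theorem t124_A00pm_102_s1 : ∃ t, chk3 f_A00pm_102_s1 t 3 5 1 = true := ex3_a t123_A00pm_102_s1 t109_A00pm_102_s1

theorem t125_A00pm_102_s1 : ∃ t, chk3 f_A00pm_102_s1 t 30 19 1 = true := ex3_b k54_A00pm_102_s1 k55_A00pm_102_s1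

theorem t126_A00pm_102_s1 : ∃ t, chk3 f_A00pm_102_s1 t 15 19 1 = true := ex3_a t125_A00pm_102_s1 k56_A00pm_102_s1

theorem t127_A00pm_102_s1 : ∃ t, chk3 f_A00pm_102_s1 t 31 18 1 = true := ex3_a k52_A00pm_102_s1 k53_A00pm_102_s1

theorem t128_A00pm_102_s1 : ∃ t, chk3 f_A00pm_102_s1 t 30 36 1 = true := ex3_b k49_A00pm_102_s1 k50_A00pm_102_s1

theorem t129_A00pm_102_s1 : ∃ t, chk3 f_A00pm_102_s1 t 30 18 1 = true := ex3_b t128_A00pm_102_s1 k51_A00pm_102_s1

theorem t130_A00pm_102_s1 : ∃ t, chk3 f_A00pm_102_s1 t 15 18 1 = true := ex3_a t129_A00pm_102_s1 t127_A00pm_102_s1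

theorem t131_A00pm_102_s1 : ∃ t, chk3 f_A00pm_102_s1 t 15 9 1 = true := ex3_b t130_A00pm_102_s1 t126_A00pm_102_s1

theorem t132_A00pm_102_s1 : ∃ t, chk3 f_A00pm_102_s1 t 29 19 1 = true := ex3_c k47_A00pm_102_s1 k48_A00pm_102_s1

theorem t133_A00pm_102_s1 : ∃ t, chk3 f_A00pm_102_s1 t 14 19 1 = true := ex3_a k46_A00pm_102_s1 t132_A00pm_102_s1

theorem t134_A00pm_102_s1 : ∃ t, chk3 f_A00pm_102_s1 t 29 18 1 = true := ex3_b k44_A00pm_102_s1 k45_A00pm_102_s1

theorem t135_A00pm_102_s1 : ∃ t, chk3 f_A00pm_102_s1 t 14 18 1 = true := ex3_a k43_A00pm_102_s1 t134_A00pm_102_s1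

theorem t136_A00pm_102_s1 : ∃ t, chk3 f_A00pm_102_s1 t 14 9 1 = true := ex3_b t135_A00pm_102_s1 t133_A00pm_102_s1

theorem t137_A00pm_102_s1 : ∃ t, chk3 f_A00pm_102_s1 t 7 9 1 = true := ex3_a t136_A00pm_102_s1 t131_A00pm_102_s1

theorem t138_A00pm_102_s1 : ∃ t, chk3 f_A00pm_102_s1 t 62 69 1 = true := ex3_c k39_A00pm_102_s1 k40_A00pm_102_s1

theorem t139_A00pm_102_s1 : ∃ t, chk3 f_A00pm_102_s1 t 62 34 1 = true := ex3_b k38_A00pm_102_s1 t138_A00pm_102_s1

theorem t140_A00pm_102_s1 : ∃ t, chk3 f_A00pm_102_s1 t 62 17 1 = true := ex3_b t139_A00pm_102_s1 k41_A00pm_102_s1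

theorem t141_A00pm_102_s1 : ∃ t, chk3 f_A00pm_102_s1 t 31 17 1 = true := ex3_a t140_A00pm_102_s1 k42_A00pm_102_s1

theorem t142_A00pm_102_s1 : ∃ t, chk3 f_A00pm_102_s1 t 31 8 1 = true := ex3_b k37_A00pm_102_s1 t141_A00pm_102_s1

theorem t143_A00pm_102_s1 : ∃ t, chk3 f_A00pm_102_s1 t 123 17 1 = true := ex3_b k35_A00pm_102_s1 k36_A00pm_102_s1

theorem t144_A00pm_102_s1 : ∃ t, chk3 f_A00pm_102_s1 t 61 17 1 = true := ex3_a k34_A00pm_102_s1 t143_A00pm_102_s1

theorem t145_A00pm_102_s1 : ∃ t, chk3 f_A00pm_102_s1 t 30 17 1 = true := ex3_a k33_A00pm_102_s1 t144_A00pm_102_s1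

theorem t146_A00pm_102_s1 : ∃ t, chk3 f_A00pm_102_s1 t 30 8 1 = true := ex3_b k32_A00pm_102_s1 t145_A00pm_102_s1

theorem t147_A00pm_102_s1 : ∃ t, chk3 f_A00pm_102_s1 t 15 8 1 = true := ex3_a t146_A00pm_102_s1 t142_A00pm_102_s1

theorem t148_A00pm_102_s1 : ∃ t, chk3 f_A00pm_102_s1 t 7 8 1 = true := ex3_a k31_A00pm_102_s1 t147_A00pm_102_s1

theorem t149_A00pm_102_s1 : ∃ t, chk3 f_A00pm_102_s1 t 7 4 1 = true := ex3_b t148_A00pm_102_s1 t137_A00pm_102_s1

theorem t150_A00pm_102_s1 : ∃ t, chk3 f_A00pm_102_s1 t 26 39 1 = true := ex3_a k28_A00pm_102_s1 k29_A00pm_102_s1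

theorem t151_A00pm_102_s1 : ∃ t, chk3 f_A00pm_102_s1 t 26 19 1 = true := ex3_b k27_A00pm_102_s1 t150_A00pm_102_s1

theorem t152_A00pm_102_s1 : ∃ t, chk3 f_A00pm_102_s1 t 13 19 1 = true := ex3_a t151_A00pm_102_s1 k30_A00pm_102_s1

theorem t153_A00pm_102_s1 : ∃ t, chk3 f_A00pm_102_s1 t 13 9 1 = true := ex3_b k26_A00pm_102_s1 t152_A00pm_102_s1

theorem t154_A00pm_102_s1 : ∃ t, chk3 f_A00pm_102_s1 t 13 4 1 = true := ex3_b k25_A00pm_102_s1 t153_A00pm_102_s1

theorem t155_A00pm_102_s1 : ∃ t, chk3 f_A00pm_102_s1 t 6 4 1 = true := ex3_a k24_A00pm_102_s1 t154_A00pm_102_s1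

theorem t156_A00pm_102_s1 : ∃ t, chk3 f_A00pm_102_s1 t 3 4 1 = true := ex3_a t155_A00pm_102_s1 t149_A00pm_102_s1

theorem t157_A00pm_102_s1 : ∃ t, chk3 f_A00pm_102_s1 t 3 2 1 = true := ex3_b t156_A00pm_102_s1 t124_A00pm_102_s1

theorem t158_A00pm_102_s1 : ∃ t, chk3 f_A00pm_102_s1 t 3 1 1 = true := ex3_b t157_A00pm_102_s1 t92_A00pm_102_s1

theorem t159_A00pm_102_s1 : ∃ t, chk3 f_A00pm_102_s1 t 11 21 1 = true := ex3_b k20_A00pm_102_s1 k21_A00pm_102_s1

theorem t160_A00pm_102_s1 : ∃ t, chk3 f_A00pm_102_s1 t 5 21 1 = true := ex3_a k19_A00pm_102_s1 t159_A00pm_102_s1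

theorem t161_A00pm_102_s1 : ∃ t, chk3 f_A00pm_102_s1 t 2 21 1 = true := ex3_a k18_A00pm_102_s1 t160_A00pm_102_s1

theorem t162_A00pm_102_s1 : ∃ t, chk3 f_A00pm_102_s1 t 47 83 1 = true := ex3_b k16_A00pm_102_s1 k17_A00pm_102_s1

theorem t163_A00pm_102_s1 : ∃ t, chk3 f_A00pm_102_s1 t 23 83 1 = true := ex3_a k15_A00pm_102_s1 t162_A00pm_102_s1

theorem t164_A00pm_102_s1 : ∃ t, chk3 f_A00pm_102_s1 t 23 82 1 = true := ex3_b k13_A00pm_102_s1 k14_A00pm_102_s1

theorem t165_A00pm_102_s1 : ∃ t, chk3 f_A00pm_102_s1 t 23 41 1 = true := ex3_b t164_A00pm_102_s1 t163_A00pm_102_s1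

theorem t166_A00pm_102_s1 : ∃ t, chk3 f_A00pm_102_s1 t 22 83 1 = true := ex3_b k11_A00pm_102_s1 k12_A00pm_102_s1

theorem t167_A00pm_102_s1 : ∃ t, chk3 f_A00pm_102_s1 t 22 41 1 = true := ex3_b k10_A00pm_102_s1 t166_A00pm_102_s1

theorem t168_A00pm_102_s1 : ∃ t, chk3 f_A00pm_102_s1 t 11 41 1 = true := ex3_a t167_A00pm_102_s1 t165_A00pm_102_s1

theorem t169_A00pm_102_s1 : ∃ t, chk3 f_A00pm_102_s1 t 21 167 1 = true := ex3_a k8_A00pm_102_s1 k9_A00pm_102_s1

theorem t170_A00pm_102_s1 : ∃ t, chk3 f_A00pm_102_s1 t 21 83 1 = true := ex3_b k7_A00pm_102_s1 t169_A00pm_102_s1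

theorem t171_A00pm_102_s1 : ∃ t, chk3 f_A00pm_102_s1 t 10 83 1 = true := ex3_a k6_A00pm_102_s1 t170_A00pm_102_s1

theorem t172_A00pm_102_s1 : ∃ t, chk3 f_A00pm_102_s1 t 10 41 1 = true := ex3_b k5_A00pm_102_s1 t171_A00pm_102_s1

theorem t173_A00pm_102_s1 : ∃ t, chk3 f_A00pm_102_s1 t 5 41 1 = true := ex3_a t172_A00pm_102_s1 t168_A00pm_102_s1

theorem t174_A00pm_102_s1 : ∃ t, chk3 f_A00pm_102_s1 t 2 41 1 = true := ex3_a k4_A00pm_102_s1 t173_A00pm_102_s1

theorem t175_A00pm_102_s1 : ∃ t, chk3 f_A00pm_102_s1 t 2 81 1 = true := ex3_c k2_A00pm_102_s1 k3_A00pm_102_s1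

theorem t176_A00pm_102_s1 : ∃ t, chk3 f_A00pm_102_s1 t 2 40 1 = true := ex3_b k1_A00pm_102_s1 t175_A00pm_102_s1

theorem t177_A00pm_102_s1 : ∃ t, chk3 f_A00pm_102_s1 t 2 20 1 = true := ex3_b t176_A00pm_102_s1 t174_A00pm_102_s1

theorem t178_A00pm_102_s1 : ∃ t, chk3 f_A00pm_102_s1 t 2 10 1 = true := ex3_b t177_A00pm_102_s1 t161_A00pm_102_s1

theorem t179_A00pm_102_s1 : ∃ t, chk3 f_A00pm_102_s1 t 2 5 1 = true := ex3_b t178_A00pm_102_s1 k22_A00pm_102_s1

theorem t180_A00pm_102_s1 : ∃ t, chk3 f_A00pm_102_s1 t 2 2 1 = true := ex3_b k0_A00pm_102_s1 t179_A00pm_102_s1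

theorem t181_A00pm_102_s1 : ∃ t, chk3 f_A00pm_102_s1 t 2 1 1 = true := ex3_b t180_A00pm_102_s1 k23_A00pm_102_s1

theorem t182_A00pm_102_s1 : ∃ t, chk3 f_A00pm_102_s1 t 1 1 1 = true := ex3_a t181_A00pm_102_s1 t158_A00pm_102_s1

theorem c_A00pm_102_s1 : CertF 536870912 536870912 0 536870912 335544320 67108864 true true false .npp 1 0 2
    ndF0q1 ndF0q0 pcF2 cut_A00pm_102_s1 xt_A00pm_102_s1 :=
  certF1 (fam := true) (s1 := true) (s2 := false) (a := 1) (b := 0) (c := 2) (cn := .npp) (n1 := ndF0q1) (n2 := ndF0q0) (pc := pcF2) (cut := cut_A00pm_102_s1) (xt := xt_A00pm_102_s1) (P1 := 536870912) (W1 := 536870912) (P2 := 0) (W2 := 536870912) (P3 := 335544320) (W3 := 67108864)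
    rfl (fun _ => rfl) t182_A00pm_102_s1

theorem s_A00pm_102_s1 {κ x : ℝ} (hκ : κ * h0 = ken x) (hx : ((335544320 : ℕ) : ℝ) / S ≤ x)
    (hx' : x ≤ (((335544320 : ℕ) : ℝ) + (67108864 : ℕ)) / S)
    (H : CutA (VF κ) PP tKF tL pcF (Cut.of [[⟨0, 1, 0, 67108864⟩, ⟨1, 0, 0, 67108864⟩, ⟨2, 1, 0, 67108864⟩], [⟨0, 1, 0, 33554432⟩, ⟨1, 0, 1, 33554432⟩, ⟨2, 1, 1, 33554432⟩]]) 1 0 2 0 0 (sgb true) (sgb false) x) :
    AltA (VF κ) PP tKF tL pcF [⟨3, 0, 0, 1449551462⟩] 1 0 2 0 0 (sgb true) (sgb false) x :=
  strip_altA (m := 1449551462) true rfl hκ covF01 covF00 hx hx' c_A00pm_102_s1 H ((okx hx hx').extA (T := tt) (sideF hx hx') hκ rfl rfl (.O 1 true) (.O 0 false) rfl)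

end Pool.Agent.Strip051.G.I5_16_3_8.Tab.St.C
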