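import Pool.Agent.Strip051.G.I5_16_3_8.StF

/-! # Unit strips 4 (generated) -/

set_option linter.all false
set_option maxRecDepth 100000

namespace Pool.Agent.Strip051.G.I5_16_3_8.Tab.St.C

open Pool.Agent.Strip051.PB Pool.Agent.Strip051.PB.T Pool.Agent.StripNear Pool.Agent.Strip051.LC
open Pool.Agent.Strip051.G.I5_16_3_8.Tab Pool.Agent.Strip051.G.I5_16_3_8.Tab.St

noncomputable def cut_A00pm_102_s3 : Cut := Cut.of [[⟨3, 0, 0, 2845415833⟩], [⟨0, 1, 0, 67108864⟩, ⟨1, 0, 0, 67108864⟩, ⟨2, 1, 0, 67108864⟩], [⟨0, 1, 0, 33554432⟩, ⟨1, 0, 1, 33554432⟩, ⟨2, 1, 1, 33554432⟩]]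

noncomputable def f_A00pm_102_s3 : ℕ → ℕ → ℕ → ℕ → Bool := onCell 536870912 536870912 0 536870912 335544320 67108864
    (rowF 0 true true false .npp 1 0 2 (qsf 536870912 536870912 0 536870912 2) ndF0q1 ndF0q0 pcF2 cut_A00pm_102_s3 Ext.none)

def k0_A00pm_102_s3 : ∃ t, chk3 f_A00pm_102_s3 t 1 1 1 = true :=
  ⟨(l 6), by decide +kernel⟩

theorem c_A00pm_102_s3 : CertF 536870912 536870912 0 536870912 335544320 67108864 true true false .npp 1 0 2
    ndF0q1 ndF0q0 pcF2 cut_A00pm_102_s3 Ext.none :=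
  certF0 (fam := true) (s1 := true) (s2 := false) (a := 1) (b := 0) (c := 2) (cn := .npp) (n1 := ndF0q1) (n2 := ndF0q0) (pc := pcF2) (cut := cut_A00pm_102_s3) (xt := Ext.none) (P1 := 536870912) (W1 := 536870912) (P2 := 0) (W2 := 536870912) (P3 := 335544320) (W3 := 67108864)
    rfl k0_A00pm_102_s3

theorem s_A00pm_102_s3 {κ x : ℝ} (hκ : κ * h0 = ken x) (hx : ((335544320 : ℕ) : ℝ) / S ≤ x)
    (hx' : x ≤ (((335544320 : ℕ) : ℝ) + (67108864 : ℕ)) / S)
    (H : CutA (VF κ) PP tKF tL pcF (Cut.of [[⟨0, 1, 0, 67108864⟩, ⟨1, 0, 0, 67108864⟩, ⟨2, 1, 0, 67108864⟩], [⟨0, 1, 0, 33554432⟩, ⟨1, 0, 1, 33554432⟩, ⟨2, 1, 1, 33554432⟩]]) 1 0 2 0 0 (sgb true) (sgb false) x) :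
    AltA (VF κ) PP tKF tL pcF [⟨4, 0, 0, 2845415833⟩] 1 0 2 0 0 (sgb true) (sgb false) x :=
  strip_altA (m := 2845415833) false rfl hκ covF01 covF00 hx hx' c_A00pm_102_s3 H (noExt_A)

noncomputable def cut_A00pm_112_s1 : Cut := Cut.of [[⟨4, 0, 0, 1449551462⟩]]

noncomputable def xt_A00pm_112_s1 : Ext := strExt dd true true false .u0 .u0m .u2 .dn 1 1 2 rfl rfl gf2 vv ndF0q1 ndF0q1

noncomputable def f_A00pm_112_s1 : ℕ → ℕ → ℕ → ℕ → Bool := onCell 1073741824 536870912 536870912 536870912 335544320 67108864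
    (rowF 2 true true false .dn 1 1 2 (qsf 536870912 536870912 536870912 536870912 2) ndF0q1 ndF0q1 pcF2 cut_A00pm_112_s1 xt_A00pm_112_s1)

def k0_A00pm_112_s1 : ∃ t, chk3 f_A00pm_112_s1 t 4 2 1 = true :=
  ⟨(a (l 3) (l 3)), by decide +kernel⟩

def k1_A00pm_112_s1 : ∃ t, chk3 f_A00pm_112_s1 t 40 2 1 = true :=
  ⟨(b (l 3) (b (l 3) (l 1))), by decide +kernel⟩

def k2_A00pm_112_s1 : ∃ t, chk3 f_A00pm_112_s1 t 82 4 1 = true :=
  ⟨(l 3), by decide +kernel⟩

def k3_A00pm_112_s1 : ∃ t, chk3 f_A00pm_112_s1 t 166 4 1 = true :=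
  ⟨(a (l 3) (b (b (b (a (l 3) (a (b (a (c (l 539082895) (l 537825679)) (l 538383503)) (l 3)) (a (c (l 539162767) (l 538139023)) (l 538508431)))) (l 3)) (l 3)) (l 3))), by decide +kernel⟩

def k4_A00pm_112_s1 : ∃ t, chk3 f_A00pm_112_s1 t 167 16 1 = true :=
  ⟨(b (a (a (a (a (l 538620047) (l 538741647)) (a (l 538869903) (l 539006863))) (a (a (l 539154831) (b (l 539171471) (l 539477647))) (a (a (l 539453071) (l 539550607)) (b (l 539533967) (l 539852943))))) (a (b (b (b (l 16780096) (l 16780024)) (a (l 16779608) (l 16780224))) (b (a (l 16779448) (l 16780056)) (a (l 16779272) (l 16779872)))) (b (b (c (l 16781720) (l 16780864)) (c (l 16781528) (l 16780728))) (b (l 16780952) (l 16780760))))) (a (a (a (a (l 539178639) (l 539311247)) (a (l 539451279) (l 539599759))) (a (a (l 539759247) (l 539932559)) (a (a (l 540074639) (l 540175247)) (b (l 540161679) (l 540439695))))) (a (a (b (b (l 16779088) (c (l 16779048) (l 16778728)))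 (b (a (l 540473999) (l 16778832)) (b (l 16778528) (l 16778432)))) (a (a (b (b (l 16779456) (l 16779256)) (b (l 16779048) (l 16778840))) (a (b (b (l 16779568) (l 16779360)) (b (l 16779152) (l 16778944))) (a (b (b (l 16779616) (l 16779416)) (b (l 16779208) (l 16779000))) (b (b (l 16779656) (l 16779456)) (b (l 16779248) (l 16779032)))))) (b (b (l 16779824) (l 16779616)) (b (l 16779408) (l 16779192))))) (b (b (l 16780552) (l 16780344)) (b (l 16780128) (l 16779904)))))), by decide +kernel⟩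

def k5_A00pm_112_s1 : ∃ t, chk3 f_A00pm_112_s1 t 167 17 1 = true :=
  ⟨(b (a (b (a (l 3) (a (a (l 540197519) (l 540361359)) (a (a (l 540488335) (l 540568975)) (a (b (l 540586383) (l 540674959)) (l 540664463))))) (b (a (l 3) (a (l 3) (a (a (l 540639375) (l 540702351)) (a (l 540738447) (l 540724367))))) (l 540730959))) (a (a (b (b (b (l 16778328) (l 16778224)) (a (l 540712079) (b (l 16778264) (l 16778168)))) (b (a (l 540726927) (b (l 16778072) (l 16777976))) (l 540732207))) (a (a (b (b (l 16778632) (l 16778424)) (b (c (l 16778328) (l 16778144)) (l 540732463))) (a (b (b (l 16778736) (l 16778528)) (b (l 16778336) (l 16778160))) (a (b (b (l 16778792) (l 16778584)) (b (l 16778392) (l 16778216))) (b (b (l 16778824) (l 16778616)) (b (l 16778424) (l 16778248)))))) (b (b (l 16778984) (l 16778776)) (b (l 16778584) (l 16778408))))) (b (b (l 16779688) (l 16779480)) (b (l 16779280) (c (l 16779272) (l 16778936)))))) (a (l 540755023)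 (a (a (l 540756783) (a (a (l 540757295) (a (l 540757295) (a (l 540757295) (b (b (l 16778096) (l 16777968)) (b (c (l 16777912) (l 16777792)) (c (l 16777808) (l 16777712))))))) (l 540757599))) (l 540758623)))), by decide +kernel⟩

def k6_A00pm_112_s1 : ∃ t, chk3 f_A00pm_112_s1 t 167 9 1 = true :=
  ⟨(a (a (b (l 3) (l 3)) (b (l 3) (b (l 540750399) (b (b (a (l 3) (a (a (l 3) (l 540719999)) (l 540724607))) (a (a (l 3) (l 540464255)) (a (a (l 540585343) (l 540698751)) (a (l 540703103) (l 540716671))))) (a (a (l 540098175) (l 540275071)) (a (a (l 540413567) (l 540508031)) (a (l 540580735) (l 540623487)))))))) (a (a (b (l 540780847) (b (l 540752943) (a (b (b (l 540727167) (l 540723327)) (a (l 540650879) (l 540670079))) (b (b (b (l 16777880) (l 16777960)) (b (l 16778056) (l 16778152))) (b (c (l 16778392) (l 16778200)) (c (l 16778616) (l 16778384))))))) (a (a (b (l 540781615) (b (l 540754223) (b (b (c (l 16778200) (l 16778040))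 (c (l 16778400) (l 16778200))) (b (l 16778496) (l 16778704))))) (a (b (l 540781871) (b (l 540754479) (b (b (l 540729247) (l 16778400)) (b (l 16778600) (l 16778808))))) (a (b (l 540781871) (b (l 540754735) (b (b (l 16778272) (l 16778456)) (b (l 16778648) (l 16778856))))) (b (b (c (b (b (l 16777720) (l 16777664)) (b (l 16777624) (l 16777600))) (b (b (l 16777640) (c (l 16777608) (l 16777568))) (b (c (l 16777576) (l 16777536)) (c (l 16777560) (l 16777528))))) (c (b (b (l 16777608) (l 16777632)) (b (l 16777680) (l 16777744))) (b (b (c (l 16777560) (l 16777528)) (c (l 16777584) (l 16777544))) (b (c (l 16777624) (l 16777584)) (l 16777656))))) (b (b (b (c (l 16777832) (l 16777736)) (l 16777888)) (b (l 16778008) (l 16778144))) (b (b (l 16778304) (l 16778488)) (b (l 16778680) (l 16778888)))))))) (b (l 540782431) (b (l 540755295) (b (b (c (l 16778568) (l 16778344)) (l 16778640)) (b (l 16778832) (l 16779040))))))) (b (l 540783967)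 (b (l 540757343) (b (b (c (l 16779296) (l 16778952)) (l 16779304)) (b (l 16779504) (l 16779720))))))), by decide +kernel⟩

def k7_A00pm_112_s1 : ∃ t, chk3 f_A00pm_112_s1 t 82 10 1 = true :=
  ⟨(b (l 3) (l 1)), by decide +kernel⟩

def k8_A00pm_112_s1 : ∃ t, chk3 f_A00pm_112_s1 t 83 20 1 = true :=
  ⟨(a (a (l 3) (a (b (l 3) (a (l 3) (b (l 3) (b (a (l 3) (c (l 539029631) (l 537644927))) (l 1))))) (b (a (l 3) (a (l 3) (c (l 539356799) (l 538634879)))) (a (b (a (l 3) (l 538448767)) (b (a (l 538309759) (l 538332031)) (l 1))) (b (a (l 538475903) (l 538507135)) (b (l 538370431) (a (l 1) (l 538301567)))))))) (b (a (a (a (a (l 539041151) (l 539180415)) (a (l 539327615) (l 539483775))) (a (a (l 539651199) (l 539833471)) (a (a (l 539982975) (l 540089215)) (b (l 540370815) (l 540081791))))) (a (a (b (a (b (l 540532095) (l 16778632)) (b (l 16778704) (l 16778912))) (b (l 16778976) (l 16779168))) (a (a (b (b (l 16778912) (l 16779120))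 (b (l 16779328) (l 16779520))) (a (b (b (l 16779016) (l 16779224)) (b (l 16779432) (l 16779632))) (a (b (b (l 16779064) (l 16779280)) (b (l 16779480) (l 16779680))) (b (b (l 16779104) (l 16779312)) (b (l 16779520) (l 16779720)))))) (b (b (l 16779256) (l 16779464)) (b (l 16779672) (l 16779880))))) (b (b (l 16779936) (l 16780152)) (b (l 16780368) (l 16780576))))) (a (b (a (a (a (l 538630527) (l 538760831)) (a (l 538898559) (l 539045247))) (a (a (l 539203455) (l 539376767)) (a (l 539570559) (l 539768703)))) (a (a (a (l 538373759) (l 538487935)) (c (l 539139711) (l 538414975))) (a (a (l 538907775) (l 539072383)) (a (a (l 539208575) (l 539307135)) (l 539449215))))) (a (b (b (a (l 16779352) (l 16779928)) (a (l 16779520) (l 16780104))) (b (a (l 16779672) (l 16780272)) (b (l 16780080) (l 16780144)))) (b (b (l 16780784) (l 16780976)) (b (c (l 16781552) (l 16780744)) (c (l 16781736) (l 16780880)))))))), by decide +kernel⟩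

def k9_A00pm_112_s1 : ∃ t, chk3 f_A00pm_112_s1 t 83 21 1 = true :=
  ⟨(a (l 1) (b (a (l 1) (a (l 1) (b (b (b (l 16781416) (l 1)) (l 1)) (l 1)))) (l 1))), by decide +kernel⟩

def k10_A00pm_112_s1 : ∃ t, chk3 f_A00pm_112_s1 t 41 11 1 = true :=
  ⟨(l 1), by decide +kernel⟩

def k11_A00pm_112_s1 : ∃ t, chk3 f_A00pm_112_s1 t 21 8 1 = true :=
  ⟨(b (a (b (a (b (a (b (a (b (l 16780520) (l 16780432)) (b (l 16785520) (l 16785440))) (c (a (l 16783488) (l 16786080)) (b (l 16780856) (l 16783392)))) (b (c (l 16790192) (c (l 16788472) (l 16787312))) (c (l 16789968) (l 16785112)))) (a (a (b (a (l 16782136) (l 16783320)) (l 16782520)) (b (l 16785088) (l 16784872))) (b (c (l 16789720) (l 16787560)) (l 16788408)))) (a (b (c (l 16795288) (b (l 16792184) (l 16792048))) (b (l 16788160) (l 16793160))) (b (c (l 16800504) (b (l 16796488) (l 16796376))) (b (l 16798192) (l 16797960))))) (b (a (a (b (a (l 16782304) (l 16784640)) (a (l 16782080)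 (l 16784400))) (b (l 16788160) (l 16787912))) (b (c (l 16796968) (l 16793632)) (l 16795024))) (a (a (a (b (l 16781856) (l 16781624)) (c (l 16784672) (l 16783416))) (b (l 16787656) (l 16787400))) (a (l 16792224) (l 16796984))))) (b (c (b (a (l 16808384) (l 16818968)) (a (l 16807960) (l 16818632))) (b (a (b (l 16797744) (l 16797672)) (a (l 16809512) (l 16813904))) (a (b (l 16802792) (l 16802624)) (b (l 16811624) (l 16811504))))) (b (a (c (l 16807368) (l 16797064)) (c (l 16818104) (l 16811256))) (a (l 16804256) (l 16814096))))) (a (a (b (b (a (a (b (l 16781400) (l 16781176)) (l 16783568)) (l 16787016)) (a (a (b (l 16780960) (l 16780776)) (l 16783128)) (l 16786528))) (b (a (l 540752735) (l 16786168)) (l 540772959))) (b (b (l 16788784) (l 16793456)) (a (l 16790592) (l 16795184)))) (b (b (a (l 16803584) (l 16813416)) (l 16797296)) (a (l 16802224) (l 16811760))))), by decide +kernel⟩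

def k12_A00pm_112_s1 : ∃ t, chk3 f_A00pm_112_s1 t 21 9 1 = true :=
  ⟨(a (a (b (l 540794975) (b (l 540773215) (b (a (a (b (l 16780736) (l 16780912)) (l 16782992)) (l 16786240)) (a (a (b (l 16781120) (l 16781336)) (l 16783384)) (l 16786640))))) (a (b (l 540810079) (b (l 16790352) (b (l 16790632) (l 16791008)))) (c (b (l 541165407) (b (l 16796392) (l 16796840))) (b (l 540472159) (b (l 16793288) (l 16793656)))))) (a (a (b (l 540830303) (b (l 16799392) (l 16799744))) (b (l 540840799) (b (l 16803992) (l 16804288)))) (b (l 540860271) (b (l 16811000) (l 16811224))))), by decide +kernel⟩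

def k13_A00pm_112_s1 : ∃ t, chk3 f_A00pm_112_s1 t 42 10 1 = true :=
  ⟨(b (a (a (b (b (a (b (l 16781568) (l 16781792)) (l 16783864)) (b (a (l 16782024) (l 16784224)) (a (l 16782248) (l 16784464)))) (b (b (a (l 16782464) (l 16784696)) (c (l 16779184) (a (l 16782144) (l 16784192)))) (b (a (c (l 16783424) (l 16782312)) (l 16785136)) (a (b (l 16783008) (l 16780472)) (a (l 16784776) (l 16785912)))))) (b (b (l 16787136) (b (l 16787520) (l 16787776))) (b (b (l 16788032) (l 16788280)) (b (c (l 16789584) (l 16787448)) (c (l 16789840) (l 16785016)))))) (b (b (l 16788472) (a (l 16792080) (l 16796528))) (b (a (c (l 16794040) (l 16791208)) (l 16797120)) (a (b (l 16793024) (l 16788032)) (c (l 16799576) (l 16795792)))))) (a (b (a (b (a (b (b (l 2717915671) (l 16780624)) (l 1)) (c (b (l 16786344) (l 16786512)) (b (l 16784696) (l 16784800)))) (l 1)) (a (b (c (l 16788944) (b (l 16786776) (l 16786896))) (l 1)) (b (c (l 16791432) (b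 (l 16788848) (l 16788984))) (c (l 16791768) (b (l 16789080) (l 1)))))) (l 1)) (a (b (b (c (l 16792544) (b (l 16791960) (c (l 16792912) (l 16791320)))) (c (l 16795536) (b (l 16792232) (l 16792296)))) (l 1)) (b (c (b (l 16800152) (l 16800584)) (b (b (l 16796120) (l 16796296)) (b (l 16796432) (l 16796520)))) (b (c (l 16800840) (b (l 16796568) (l 1))) (l 1)))))), by decide +kernel⟩

def k14_A00pm_112_s1 : ∃ t, chk3 f_A00pm_112_s1 t 43 10 1 = true :=
  ⟨(a (b (b (b (l 16802624) (l 16803224)) (b (l 16803896) (a (l 16802248) (l 16806824)))) (c (b (b (l 16807664) (a (l 16805640) (l 16810712))) (b (l 16803240) (l 16808648))) (b (b (b (l 16802400) (l 16797368)) (a (b (l 16800656) (l 16800768)) (b (l 16804904) (l 16805032)))) (a (b (b (l 16800832) (l 16800848)) (l 1)) (b (c (l 16806632) (l 16803664)) (l 16802512)))))) (b (b (l 16812064) (b (l 16813000) (l 16813736))) (b (b (c (l 16817760) (l 16811008)) (c (l 16818360) (a (l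 16809264) (l 16813584)))) (b (c (l 16818792) (a (l 16804232) (l 16813832))) (c (l 16819008) (b (l 16811688) (l 16811648))))))), by decide +kernel⟩

def k15_A00pm_112_s1 : ∃ t, chk3 f_A00pm_112_s1 t 21 11 1 = true :=
  ⟨(a (l 1) (a (l 1) (b (b (b (c (l 16819064) (b (l 16811576) (l 1))) (l 1)) (l 1)) (l 1)))), by decide +kernel⟩

def k16_A00pm_112_s1 : ∃ t, chk3 f_A00pm_112_s1 t 11 4 1 = true :=
  ⟨(b (b (a (a (a (b (b (c (l 16829664) (c (l 16822848) (l 16818280))) (c (l 16829424) (l 16820544))) (b (l 16814184) (l 16824152))) (b (c (b (l 16840464) (l 16840360)) (b (l 16829496) (l 16829624))) (b (l 16834776) (l 16834352)))) (b (a (c (l 16851456) (b (l 16838504) (l 16838800))) (b (l 16833984) (l 16855336))) (a (b (l 16845032) (l 16844712)) (b (l 16855416) (l 16855232))))) (b (a (a (b (l 16865048) (l 16865648)) (b (l 16875224) (l 16876056))) (c (b (l 16901464) (l 16902520)) (b (l 16879984) (l 16881288)))) (a (c (l 16879832)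 (b (l 16862704) (l 16862896))) (b (l 16871744) (l 16893184))))) (a (b (a (b (l 16828600) (l 16827816)) (b (l 16849496) (l 16848816))) (a (l 16826832) (l 16847720))) (b (a (b (l 16871080) (l 16870600)) (b (l 16893304) (l 16893104))) (a (l 16869720) (l 16892592))))) (b (a (a (b (l 16825880) (l 16825416)) (b (l 16846520) (l 16845728))) (b (l 16859000) (l 16878872))) (a (l 540935023) (a (l 16866568) (l 16889536))))), by decide +kernel⟩

def k17_A00pm_112_s1 : ∃ t, chk3 f_A00pm_112_s1 t 11 5 1 = true :=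
  ⟨(b (b (a (a (b (l 16826136) (b (l 16827056) (l 16806800))) (b (l 16845920) (l 16846984))) (a (l 16867472) (l 16889480))) (a (a (a (b (b (l 16823808) (c (l 16828672) (l 16820128))) (b (b (l 16824744) (l 16814416)) (c (l 16829536) (a (l 16818328) (l 16822792))))) (b (b (l 16833336) (l 16834048)) (b (l 16824080) (c (l 16840184) (l 16829568))))) (b (a (l 16843464) (l 16853496)) (a (b (l 16844448) (l 16844872)) (b (l 16854464) (l 16855008))))) (a (b (l 16869024) (a (l 16865040) (l 16875632))) (b (l 16891032) (l 16892056))))) (a (b (b (a (b (a (b (l 6476080135) (l 16814536)) (c (l 16840408) (l 16829560))) (c (a (l 16829552) (l 16840368)) (a (l 16820144) (l 16829288)))) (a (c (l 16840912) (b (l 16838824) (l 16838656))) (b (l 16855328) (l 16834416)))) (a (b (a (l 1) (c (l 16840088) (l 16828792))) (l 1)) (b (c (l 16856744) (a (l 16838192) (l 16847832))) (a (l 16833584) (l 16833616))))) (a (l 1) (a (l 1) (b (b (l 16832784)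 (l 1)) (l 1))))) (b (a (b (a (b (l 16865744) (l 16865920)) (c (l 16885176) (l 16867752))) (a (b (l 16865792) (l 16844384)) (b (l 16876624) (l 16876304)))) (b (a (l 16887376) (l 16898600)) (b (l 16893184) (c (l 16903416) (l 16882784))))) (a (b (a (b (l 16843600) (l 16842520)) (b (l 16854680) (l 16853656))) (a (l 1) (b (l 16852328) (l 1)))) (b (a (b (l 16886920) (l 16886032)) (b (l 16898416) (l 16897648))) (c (l 11844929879) (b (l 9697404631) (l 16878200)))))))), by decide +kernel⟩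

def k18_A00pm_112_s1 : ∃ t, chk3 f_A00pm_112_s1 t 2 3 1 = true :=
  ⟨(a (l 1) (b (a (l 1) (b (a (l 1) (b (a (l 1) (b (b (c (l 16898096) (l 16855296)) (l 1)) (l 1))) (l 1))) (l 1))) (l 1))), by decide +kernel⟩

def k19_A00pm_112_s1 : ∃ t, chk3 f_A00pm_112_s1 t 3 2 1 = true :=
  ⟨(a (b (b (a (a (a (b (b (c (l 16925224) (b (l 16899008) (l 16900824))) (a (l 16888600) (l 16899824))) (b (l 16916312) (l 16916288))) (b (b (b (l 16891048) (l 16935296)) (c (l 16949568) (l 16923712))) (b (l 16940000) (l 16940808)))) (b (b (a (c (l 16966528) (l 16940136)) (l 16930704)) (a (c (l 16969552) (l 16945184)) (l 16893248))) (b (a (l 16962648) (l 16980504)) (l 16933080)))) (a (b (a (b (l 16990768) (l 16994848)) (b (l 6) (l 17012024))) (b (a (l 16997784) (l 17014472)) (l 16924696))) (l 6))) (a (a (b (b (l 16928464) (l 16927920)) (b (l 16926872) (l 16925872))) (b (b (l 16978776) (l 16981584)) (l 16981824))) (a (b (b (l 17011144) (l 17014424))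 (l 17021552)) (l 6)))) (a (b (a (a (b (l 16913200) (l 16915104)) (b (l 16939072) (l 16939960))) (b (l 16981080) (l 16940160))) (a (b (b (l 16928280) (a (l 16874400) (l 16940912))) (a (b (b (l 16916000) (l 16873560)) (c (l 16905488) (b (l 16902168) (l 16900728)))) (b (l 16898504) (b (l 16939448) (l 16938488))))) (b (b (l 16981464) (l 16981472)) (b (l 16978464) (a (l 16964224) (l 16984952)))))) (a (b (b (l 17039840) (l 17044904)) (b (l 16946272) (b (l 17018272) (l 17014184)))) (l 6)))) (b (l 6) (l 6))), by decide +kernel⟩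

def k20_A00pm_112_s1 : ∃ t, chk3 f_A00pm_112_s1 t 3 3 1 = true :=
  ⟨(a (b (a (b (a (b (b (a (c (l 16923104) (a (l 16892048) (l 16903704))) (b (l 16895104) (l 16893240))) (a (b (c (l 16919568) (l 16894168)) (l 1)) (a (l 16903936) (l 16896288)))) (b (a (l 1) (b (l 16885040) (l 1))) (l 1))) (b (a (b (c (l 16970400) (l 16946784)) (c (l 16967992) (l 16942728))) (b (l 16981872) (l 16936696))) (b (a (c (l 16964384) (l 16936688)) (l 16932928)) (a (l 68753302967) (l 16969696))))) (b (a (l 1) (b (a (l 1) (l 16879624)) (l 1))) (l 1))) (a (a (b (b (b (l 17001456) (l 16998912)) (b (l 16996144) (l 16992792))) (b (b (l 16988000) (l 16982112)) (l 1))) (b (b (l 17018672) (b (l 17015352) (l 17013096))) (l 6))) (l 6))) (a (l 1) (b (l 6) (l 1)))) (l 6)), by decide +kernel⟩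

theorem t21_A00pm_112_s1 : ∃ t, chk3 f_A00pm_112_s1 t 3 1 1 = true := ex3_b k19_A00pm_112_s1 k20_A00pm_112_s1

theorem t22_A00pm_112_s1 : ∃ t, chk3 f_A00pm_112_s1 t 11 2 1 = true := ex3_b k16_A00pm_112_s1 k17_A00pm_112_s1

theorem t23_A00pm_112_s1 : ∃ t, chk3 f_A00pm_112_s1 t 21 10 1 = true := ex3_a k13_A00pm_112_s1 k14_A00pm_112_s1

theorem t24_A00pm_112_s1 : ∃ t, chk3 f_A00pm_112_s1 t 21 5 1 = true := ex3_b t23_A00pm_112_s1 k15_A00pm_112_s1

theorem t25_A00pm_112_s1 : ∃ t, chk3 f_A00pm_112_s1 t 21 4 1 = true := ex3_b k11_A00pm_112_s1 k12_A00pm_112_s1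

theorem t26_A00pm_112_s1 : ∃ t, chk3 f_A00pm_112_s1 t 21 2 1 = true := ex3_b t25_A00pm_112_s1 t24_A00pm_112_s1

theorem t27_A00pm_112_s1 : ∃ t, chk3 f_A00pm_112_s1 t 83 10 1 = true := ex3_b k8_A00pm_112_s1 k9_A00pm_112_s1

theorem t28_A00pm_112_s1 : ∃ t, chk3 f_A00pm_112_s1 t 41 10 1 = true := ex3_a k7_A00pm_112_s1 t27_A00pm_112_s1

theorem t29_A00pm_112_s1 : ∃ t, chk3 f_A00pm_112_s1 t 41 5 1 = true := ex3_b t28_A00pm_112_s1 k10_A00pm_112_s1

theorem t30_A00pm_112_s1 : ∃ t, chk3 f_A00pm_112_s1 t 167 8 1 = true := ex3_b k4_A00pm_112_s1 k5_A00pm_112_s1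

theorem t31_A00pm_112_s1 : ∃ t, chk3 f_A00pm_112_s1 t 167 4 1 = true := ex3_b t30_A00pm_112_s1 k6_A00pm_112_s1

theorem t32_A00pm_112_s1 : ∃ t, chk3 f_A00pm_112_s1 t 83 4 1 = true := ex3_a k3_A00pm_112_s1 t31_A00pm_112_s1

theorem t33_A00pm_112_s1 : ∃ t, chk3 f_A00pm_112_s1 t 41 4 1 = true := ex3_a k2_A00pm_112_s1 t32_A00pm_112_s1

theorem t34_A00pm_112_s1 : ∃ t, chk3 f_A00pm_112_s1 t 41 2 1 = true := ex3_b t33_A00pm_112_s1 t29_A00pm_112_s1

theorem t35_A00pm_112_s1 : ∃ t, chk3 f_A00pm_112_s1 t 20 2 1 = true := ex3_a k1_A00pm_112_s1 t34_A00pm_112_s1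

theorem t36_A00pm_112_s1 : ∃ t, chk3 f_A00pm_112_s1 t 10 2 1 = true := ex3_a t35_A00pm_112_s1 t26_A00pm_112_s1

theorem t37_A00pm_112_s1 : ∃ t, chk3 f_A00pm_112_s1 t 5 2 1 = true := ex3_a t36_A00pm_112_s1 t22_A00pm_112_s1

theorem t38_A00pm_112_s1 : ∃ t, chk3 f_A00pm_112_s1 t 2 2 1 = true := ex3_a k0_A00pm_112_s1 t37_A00pm_112_s1

theorem t39_A00pm_112_s1 : ∃ t, chk3 f_A00pm_112_s1 t 2 1 1 = true := ex3_b t38_A00pm_112_s1 k18_A00pm_112_s1

theorem t40_A00pm_112_s1 : ∃ t, chk3 f_A00pm_112_s1 t 1 1 1 = true := ex3_a t39_A00pm_112_s1 t21_A00pm_112_s1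

theorem c_A00pm_112_s1 : CertF 536870912 536870912 536870912 536870912 335544320 67108864 true true false .dn 1 1 2
    ndF0q1 ndF0q1 pcF2 cut_A00pm_112_s1 xt_A00pm_112_s1 :=
  certF2 (fam := true) (s1 := true) (s2 := false) (a := 1) (b := 1) (c := 2) (cn := .dn) (n1 := ndF0q1) (n2 := ndF0q1) (pc := pcF2) (cut := cut_A00pm_112_s1) (xt := xt_A00pm_112_s1) (P1 := 536870912) (W1 := 536870912) (P2 := 536870912) (W2 := 536870912) (P3 := 335544320) (W3 := 67108864)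
    rfl (fun _ => rfl) t40_A00pm_112_s1

theorem s_A00pm_112_s1 {κ x : ℝ} (hκ : κ * h0 = ken x) (hx : ((335544320 : ℕ) : ℝ) / S ≤ x)
    (hx' : x ≤ (((335544320 : ℕ) : ℝ) + (67108864 : ℕ)) / S) :
    AltA (VF κ) PP tKF tL pcF [⟨3, 0, 0, 1449551462⟩] 1 1 2 0 0 (sgb true) (sgb false) x :=
  strip_altA (m := 1449551462) true rfl hκ covF01 covF01 hx hx' c_A00pm_112_s1 cutA_nil ((okx hx hx').extA (T := tt) (sideF hx hx') hκ rfl rfl (.O 1 true) (.O 1 false) rfl)

noncomputable def cut_A00pm_112_s3 : Cut := Cut.of [[⟨3, 0, 0, 2845415833⟩]]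

noncomputable def f_A00pm_112_s3 : ℕ → ℕ → ℕ → ℕ → Bool := onCell 536870912 536870912 1073741824 536870912 335544320 67108864
    (rowF 1 true true false .dn 1 1 2 (qsf 536870912 536870912 536870912 536870912 2) ndF0q1 ndF0q1 pcF2 cut_A00pm_112_s3 Ext.none)

def k0_A00pm_112_s3 : ∃ t, chk3 f_A00pm_112_s3 t 1 1 1 = true :=
  ⟨(l 6), by decide +kernel⟩

theorem c_A00pm_112_s3 : CertF 536870912 536870912 536870912 536870912 335544320 67108864 true true false .dn 1 1 2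
    ndF0q1 ndF0q1 pcF2 cut_A00pm_112_s3 Ext.none :=
  certF1 (fam := true) (s1 := true) (s2 := false) (a := 1) (b := 1) (c := 2) (cn := .dn) (n1 := ndF0q1) (n2 := ndF0q1) (pc := pcF2) (cut := cut_A00pm_112_s3) (xt := Ext.none) (P1 := 536870912) (W1 := 536870912) (P2 := 536870912) (W2 := 536870912) (P3 := 335544320) (W3 := 67108864)
    rfl (fun _ => rfl) k0_A00pm_112_s3

theorem s_A00pm_112_s3 {κ x : ℝ} (hκ : κ * h0 = ken x) (hx : ((335544320 : ℕ) : ℝ) / S ≤ x)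
    (hx' : x ≤ (((335544320 : ℕ) : ℝ) + (67108864 : ℕ)) / S) :
    AltA (VF κ) PP tKF tL pcF [⟨4, 0, 0, 2845415833⟩] 1 1 2 0 0 (sgb true) (sgb false) x :=
  strip_altA (m := 2845415833) false rfl hκ covF01 covF01 hx hx' c_A00pm_112_s3 cutA_nil (noExt_A)

noncomputable def cut_A00pm_113_s1 : Cut := Cut.of [[⟨4, 0, 0, 1449551462⟩], [⟨0, 1, 0, 67108864⟩, ⟨1, 1, 0, 67108864⟩, ⟨2, 2, 0, 16777216⟩]]

noncomputable def f_A00pm_113_s1 : ℕ → ℕ → ℕ → ℕ → Bool := onCell 536870912 536870912 1610612736 536870912 335544320 67108864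
    (rowF 1 true true false .nn 1 1 3 (qsf 536870912 536870912 536870912 536870912 3) ndF0q1 ndF0q1 pcF3 cut_A00pm_113_s1 Ext.none)

def k0_A00pm_113_s1 : ∃ t, chk3 f_A00pm_113_s1 t 1 1 1 = true :=
  ⟨(b (a (b (l 6) (l 6)) (l 6)) (l 6)), by decide +kernel⟩

theorem c_A00pm_113_s1 : CertF 536870912 536870912 536870912 536870912 335544320 67108864 true true false .nn 1 1 3
    ndF0q1 ndF0q1 pcF3 cut_A00pm_113_s1 Ext.none :=
  certF1 (fam := true) (s1 := true) (s2 := false) (a := 1) (b := 1) (c := 3) (cn := .nn) (n1 := ndF0q1) (n2 := ndF0q1) (pc := pcF3) (cut := cut_A00pm_113_s1) (xt := Ext.none) (P1 := 536870912) (W1 := 536870912) (P2 := 536870912) (W2 := 536870912) (P3 := 335544320) (W3 := 67108864)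
    rfl (fun _ => rfl) k0_A00pm_113_s1

theorem s_A00pm_113_s1 {κ x : ℝ} (hκ : κ * h0 = ken x) (hx : ((335544320 : ℕ) : ℝ) / S ≤ x)
    (hx' : x ≤ (((335544320 : ℕ) : ℝ) + (67108864 : ℕ)) / S)
    (H : CutA (VF κ) PP tKF tL pcF (Cut.of [[⟨0, 1, 0, 67108864⟩, ⟨1, 1, 0, 67108864⟩, ⟨2, 2, 0, 16777216⟩]]) 1 1 3 0 0 (sgb true) (sgb false) x) :
    AltA (VF κ) PP tKF tL pcF [⟨3, 0, 0, 1449551462⟩] 1 1 3 0 0 (sgb true) (sgb false) x :=
  strip_altA (m := 1449551462) true rfl hκ covF01 covF01 hx hx' c_A00pm_113_s1 H (noExt_A)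

noncomputable def cut_A00pm_113_s3 : Cut := Cut.of [[⟨3, 0, 0, 2845415833⟩], [⟨0, 1, 0, 67108864⟩, ⟨1, 1, 0, 67108864⟩, ⟨2, 2, 0, 16777216⟩]]

noncomputable def f_A00pm_113_s3 : ℕ → ℕ → ℕ → ℕ → Bool := onCell 536870912 536870912 536870912 536870912 335544320 67108864
    (rowF 0 true true false .nn 1 1 3 (qsf 536870912 536870912 536870912 536870912 3) ndF0q1 ndF0q1 pcF3 cut_A00pm_113_s3 Ext.none)

def k0_A00pm_113_s3 : ∃ t, chk3 f_A00pm_113_s3 t 1 1 1 = true :=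
  ⟨(a (l 6) (b (l 6) (a (b (l 6) (b (l 6) (b (l 6) (a (l 6) (a (l 6) (l 17026768)))))) (b (a (l 6) (a (l 6) (b (l 6) (b (l 6) (l 17026768))))) (a (b (l 6) (b (a (l 6) (l 16913184)) (b (a (l 16924256) (c (l 16896688) (l 16977064))) (a (l 16900672) (a (l 16879008) (l 16865368)))))) (b (a (b (l 6) (l 16913184)) (a (b (l 16924256) (c (l 16896688) (l 16977064))) (b (l 16900672) (a (l 16879984) (l 16864328))))) (b (a (l 16875856) (a (a (l 16861976) (l 16856320)) (b (a (c (l 16944648) (l 16899488)) (l 16842984)) (a (a (l 16843584) (l 16882160)) (b (l 16832096) (l 16824752)))))) (a (b (b (l 16861976) (l 16856320)) (a (b (c (l 16944648) (l 16899488)) (l 16842984)) (b (b (l 16843584) (l 16882160)) (a (l 16832096) (l 16824752))))) (b (a (l 16826592) (a (a (l 16821344) (l 16819128)) (a (b (l 16842192) (a (l 16812216) (l 16810528))) (b (l 16812264) (a (l 16806752) (l 16780880)))))) (a (b (b (l 16821344) (l 16819128)) (b (a (l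 16842192) (b (l 16812216) (l 16810528))) (a (l 16812264) (b (l 16806752) (l 16780880))))) (b (a (l 16801864) (a (l 16799288) (a (b (l 16800168) (a (l 16795232) (l 14))) (b (l 16795600) (l 14))))) (a (b (l 16799288) (b (a (l 16800168) (b (l 16795232) (l 14))) (a (l 16795600) (l 14)))) (b (a (l 16789528) (l 14)) (l 14)))))))))))))), by decide +kernel⟩

theorem c_A00pm_113_s3 : CertF 536870912 536870912 536870912 536870912 335544320 67108864 true true false .nn 1 1 3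
    ndF0q1 ndF0q1 pcF3 cut_A00pm_113_s3 Ext.none :=
  certF0 (fam := true) (s1 := true) (s2 := false) (a := 1) (b := 1) (c := 3) (cn := .nn) (n1 := ndF0q1) (n2 := ndF0q1) (pc := pcF3) (cut := cut_A00pm_113_s3) (xt := Ext.none) (P1 := 536870912) (W1 := 536870912) (P2 := 536870912) (W2 := 536870912) (P3 := 335544320) (W3 := 67108864)
    rfl k0_A00pm_113_s3

theorem s_A00pm_113_s3 {κ x : ℝ} (hκ : κ * h0 = ken x) (hx : ((335544320 : ℕ) : ℝ) / S ≤ x)
    (hx' : x ≤ (((335544320 : ℕ) : ℝ) + (67108864 : ℕ)) / S)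
    (H : CutA (VF κ) PP tKF tL pcF (Cut.of [[⟨0, 1, 0, 67108864⟩, ⟨1, 1, 0, 67108864⟩, ⟨2, 2, 0, 16777216⟩]]) 1 1 3 0 0 (sgb true) (sgb false) x) :
    AltA (VF κ) PP tKF tL pcF [⟨4, 0, 0, 2845415833⟩] 1 1 3 0 0 (sgb true) (sgb false) x :=
  strip_altA (m := 2845415833) false rfl hκ covF01 covF01 hx hx' c_A00pm_113_s3 H (noExt_A)

noncomputable def cut_A00pm_123_s1 : Cut := Cut.of [[⟨4, 0, 0, 1449551462⟩], [⟨0, 1, 0, 67108864⟩, ⟨1, 1, 0, 67108864⟩, ⟨2, 2, 0, 16777216⟩]]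

noncomputable def f_A00pm_123_s1 : ℕ → ℕ → ℕ → ℕ → Bool := onCell 536870912 536870912 0 536870912 335544320 67108864
    (rowF 0 true true false .npn 1 2 3 (qsf 536870912 536870912 0 536870912 3) ndF0q1 ndF0q2 pcF3 cut_A00pm_123_s1 Ext.none)

def k0_A00pm_123_s1 : ∃ t, chk3 f_A00pm_123_s1 t 1 1 1 = true :=
  ⟨(l 6), by decide +kernel⟩

theorem c_A00pm_123_s1 : CertF 536870912 536870912 0 536870912 335544320 67108864 true true false .npn 1 2 3
    ndF0q1 ndF0q2 pcF3 cut_A00pm_123_s1 Ext.none :=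
  certF0 (fam := true) (s1 := true) (s2 := false) (a := 1) (b := 2) (c := 3) (cn := .npn) (n1 := ndF0q1) (n2 := ndF0q2) (pc := pcF3) (cut := cut_A00pm_123_s1) (xt := Ext.none) (P1 := 536870912) (W1 := 536870912) (P2 := 0) (W2 := 536870912) (P3 := 335544320) (W3 := 67108864)
    rfl k0_A00pm_123_s1

theorem s_A00pm_123_s1 {κ x : ℝ} (hκ : κ * h0 = ken x) (hx : ((335544320 : ℕ) : ℝ) / S ≤ x)
    (hx' : x ≤ (((335544320 : ℕ) : ℝ) + (67108864 : ℕ)) / S)
    (H : CutA (VF κ) PP tKF tL pcF (Cut.of [[⟨0, 1, 0, 67108864⟩, ⟨1, 1, 0, 67108864⟩, ⟨2, 2, 0, 16777216⟩]]) 1 2 3 0 0 (sgb true) (sgb false) x) :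
    AltA (VF κ) PP tKF tL pcF [⟨3, 0, 0, 1449551462⟩] 1 2 3 0 0 (sgb true) (sgb false) x :=
  strip_altA (m := 1449551462) true rfl hκ covF01 covF02 hx hx' c_A00pm_123_s1 H (noExt_A)

noncomputable def cut_A00pm_123_s3 : Cut := Cut.of [[⟨3, 0, 0, 2845415833⟩], [⟨0, 1, 0, 67108864⟩, ⟨1, 1, 0, 67108864⟩, ⟨2, 2, 0, 16777216⟩]]

noncomputable def xt_A00pm_123_s3 : Ext := strExt dd true true false .u0 .u2 .s2 .npn 1 2 3 rfl rfl gl3 vv ndF0q1 ndF0q2

noncomputable def f_A00pm_123_s3 : ℕ → ℕ → ℕ → ℕ → Bool := onCell 1610612736 536870912 0 536870912 335544320 67108864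
    (rowF 2 true true false .npn 1 2 3 (qsf 536870912 536870912 0 536870912 3) ndF0q1 ndF0q2 pcF3 cut_A00pm_123_s3 xt_A00pm_123_s3)

def k0_A00pm_123_s3 : ∃ t, chk3 f_A00pm_123_s3 t 2 1 1 = true :=
  ⟨(b (a (b (l 1) (l 6)) (b (a (b (b (a (l 16827928) (l 538597135)) (a (l 16842080) (l 16830536))) (a (l 16864120) (b (l 16846432) (l 16862960)))) (b (b (l 539255823) (a (l 538676495) (l 538739983))) (a (b (l 16833456) (l 16850840)) (b (l 538800655) (l 16836136))))) (b (a (a (l 16894856) (l 16888024)) (a (a (l 16880200) (l 16873936)) (a (l 16866880) (l 16859176)))) (a (l 6) (a (b (l 16903736) (l 6)) (b (a (l 16893880) (l 16886304)) (a (l 16912056) (l 16904488)))))))) (a (l 6) (b (a (l 6) (l 6)) (l 6)))), by decide +kernel⟩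

def k1_A00pm_123_s3 : ∃ t, chk3 f_A00pm_123_s3 t 6 1 1 = true :=
  ⟨(a (b (b (b (a (b (l 538786319) (a (l 538807311) (l 538856975))) (b (l 4) (l 538938383))) (a (b (a (l 538872335) (l 538927375)) (a (l 16823720) (l 16793840))) (b (a (b (l 538966287) (l 539008015)) (b (l 539026703) (l 539048719))) (a (b (l 539026447) (l 16809800)) (l 539074063))))) (b (a (b (a (l 16841848) (l 16832904)) (a (l 16859904) (l 16850904))) (b (a (l 16823272) (l 539106831)) (a (l 16841160) (l 16830776)))) (a (a (b (l 16877968) (l 16896072)) (b (l 16868848) (l 16886784))) (b (a (l 16858952) (l 16848416)) (a (l 16876736) (l 16865984)))))) (b (a (b (b (a (l 16914280) (l 16904800)) (b (a (l 6) (l 16918296)) (l 6))) (l 6)) (b (a (b (l 16894520) (b (l 16907784) (l 16916528))) (b (l 16883560) (l 16900904))) (b (b (l 16919432) (l 16927856)) (l 16940296)))) (l 6))) (b (b (b (l 4) (a (b (b (l 4) (l 539089935)) (a (l 539102735) (l 539130895))) (b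 (l 4) (l 4)))) (a (b (b (a (l 539132943) (l 539151887)) (a (l 539157007) (b (l 539168015) (l 16813008)))) (b (a (l 16837360) (l 16815416)) (a (l 16854720) (l 16843016)))) (b (b (a (l 539163919) (l 539171599)) (a (b (l 539180047) (l 539192335)) (b (l 539188495) (l 539335951)))) (b (a (l 539213839) (a (l 539221263) (l 539225359))) (a (l 16830976) (a (l 16821776) (l 16815560))))))) (b (b (a (b (a (l 16872024) (l 16860040)) (a (l 16889040) (l 16876720))) (b (a (l 16847672) (l 16835000)) (a (l 16863976) (l 16850888)))) (a (b (b (a (l 16901384) (l 16888760)) (l 16902976)) (l 16914504)) (b (a (b (l 16875712) (l 16883272)) (l 16865920)) (b (l 16883736) (l 16890728))))) (b (a (b (l 16929520) (l 16943824)) (b (l 16900944) (l 16913824))) (a (l 6) (a (l 17021680) (l 17026440))))))), by decide +kernel⟩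

def k2_A00pm_123_s3 : ∃ t, chk3 f_A00pm_123_s3 t 14 1 1 = true :=
  ⟨(b (b (l 4) (b (a (b (l 4) (a (b (l 539194383) (l 539207951)) (l 4))) (l 4)) (a (b (a (l 539230479) (l 539234319)) (a (l 539262735) (l 539266575))) (a (b (l 539235599) (l 539267599)) (b (l 4) (l 539533839)))))) (b (a (b (b (a (l 539297295) (l 540374799)) (a (l 16837512) (a (l 16827336) (l 16820480)))) (a (b (l 16852080) (b (l 16862600) (l 16869320))) (b (l 16837952) (b (l 16848088) (l 16854672))))) (a (b (b (b (l 539292687) (l 539310863)) (a (l 16813576) (l 539863567))) (a (b (l 16827224) (l 16840168)) (b (l 16819984) (l 16832792)))) (b (b (b (l 539290895) (l 540661519)) (a (b (l 539321615) (l 16803016)) (b (l 539314447) (l 539311119)))) (b (a (l 16812744) (b (l 16802376) (l 16808624))) (a (l 16825296) (l 16817840)))))) (b (a (b (a (l 16878800) (l 16863808)) (l 16883112)) (b (a (b (l 16845944) (l 16851640)) (b (a (l 16834576) (l 16826944)) (l 16836672)))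 (a (l 16859968) (l 16844424)))) (b (a (a (l 16901624) (l 16885776)) (a (l 16953712) (l 16895640))) (a (l 16898480) (a (l 16873264) (l 16856536))))))), by decide +kernel⟩

def k3_A00pm_123_s3 : ∃ t, chk3 f_A00pm_123_s3 t 30 1 1 = true :=
  ⟨(b (l 4) (b (b (a (b (a (b (l 4) (l 539576079)) (l 4)) (a (b (l 539304719) (l 539301647)) (l 540636431))) (b (l 4) (a (b (l 4) (l 539286031)) (l 4)))) (a (b (a (b (l 539302415) (l 16801352)) (b (l 539295503) (l 539836687))) (a (b (l 16807408) (l 16813416)) (b (l 16800040) (l 16805904)))) (b (a (b (l 539289615) (l 540910863)) (a (b (l 539286799) (l 539303951)) (b (l 4) (l 539572495)))) (a (a (b (l 16794480) (l 16800224)) (b (l 539336207) (l 16796408))) (b (b (l 540669455) (l 540955663)) (a (l 16792560) (l 540451087))))))) (b (b (a (a (b (l 16819376) (l 16835616)) (b (l 16811664) (b (l 16815928) (l 16818632)))) (a (b (l 16803872) (l 16809280)) (b (a (l 16797944) (l 16793952)) (a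 (l 16803176) (l 16799056))))) (a (a (l 16832688) (b (l 16822544) (l 16827008))) (a (b (b (l 16813144) (l 16815704)) (l 16818800)) (b (a (b (l 16806992) (l 16809408)) (l 16803896)) (a (l 16812584) (l 16819008)))))) (a (b (l 16837400) (a (l 16843992) (l 16877472))) (b (b (l 16818496) (l 16821992)) (b (a (l 16870416) (l 16861536)) (l 16820232))))))), by decide +kernel⟩

def k4_A00pm_123_s3 : ∃ t, chk3 f_A00pm_123_s3 t 31 2 1 = true :=
  ⟨(l 4), by decide +kernel⟩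

def k5_A00pm_123_s3 : ∃ t, chk3 f_A00pm_123_s3 t 31 6 1 = true :=
  ⟨(b (l 4) (a (b (a (b (l 4) (a (l 539571727) (l 4))) (l 4)) (a (b (a (l 540144143) (l 540679439)) (a (l 540988175) (b (l 539366159) (l 539386383)))) (b (l 4) (a (a (l 540449807) (l 540716303)) (a (l 540109583) (l 4)))))) (l 4))), by decide +kernel⟩

def k6_A00pm_123_s3 : ∃ t, chk3 f_A00pm_123_s3 t 62 7 1 = true :=
  ⟨(b (a (a (b (b (b (l 16788664) (l 16791192)) (l 16794896)) (b (l 16799680) (b (l 16803048) (l 16805144)))) (b (b (b (l 539944719) (l 540504335)) (b (l 16789528) (l 16791896))) (b (l 16795336) (b (l 16798680) (a (l 16801920) (l 16799624)))))) (b (b (b (a (l 540747279) (a (l 539403791) (l 539399951))) (a (c (l 541112591) (l 540962319)) (b (l 540758031) (l 541038351)))) (a (b (a (l 16786400) (l 16784304)) (a (l 16788704) (l 16786568))) (b (a (l 539720463) (l 540522255)) (a (l 16784432) (l 540817679))))) (a (c (a (b (l 16792496) (b (l 16795840)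 (l 16797880))) (b (l 16790232) (l 16794552))) (a (b (l 16791616) (l 16798280)) (b (l 16789480) (l 16793544)))) (b (b (a (l 16786600) (l 16784408)) (a (l 16788712) (l 16786480))) (a (l 16791752) (l 16789440)))))) (b (a (b (l 16805464) (l 16808512)) (b (a (b (a (l 16799224) (l 16802248)) (l 16799568)) (b (a (b (l 16794160) (l 16795120)) (l 16792192)) (a (l 16796168) (l 16793984)))) (l 16799264))) (b (a (b (l 16810528) (l 16852976)) (a (l 16824568) (l 16819832))) (a (l 16807504) (a (l 16801216) (l 16797096)))))), by decide +kernel⟩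

def k7_A00pm_123_s3 : ∃ t, chk3 f_A00pm_123_s3 t 63 7 1 = true :=
  ⟨(a (b (b (a (b (b (l 4) (a (l 540492047) (l 4))) (b (a (l 540785679) (l 540241935)) (a (b (l 539463695) (l 539477775)) (a (l 540004879) (l 540269327))))) (b (l 4) (a (b (l 4) (b (l 4) (l 540803087))) (l 4)))) (b (a (b (a (a (l 16782768) (l 540574223)) (a (l 540839695) (l 541104399))) (a (a (l 16784792) (l 16783672)) (a (l 16782552) (b (l 16780952) (l 14))))) (a (b (a (b (l 539481359) (l 539496719)) (l 540825871)) (b (a (l 539512591) (l 14)) (l 14))) (b (a (b (l 4) (l 539484687)) (l 4)) (l 14)))) (a (a (a (l 16787704) (l 14)) (l 14)) (l 14)))) (a (a (b (b (b (l 16789880) (b (l 16791120) (l 16791992))) (l 16793408)) (b (l 16795424) (l 16794040))) (l 14)) (l 14))) (b (b (l 4) (b (b (l 4) (l 14)) (l 14))) (l 14))), by decide +kernel⟩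

theorem t8_A00pm_123_s3 : ∃ t, chk3 f_A00pm_123_s3 t 31 7 1 = true := ex3_a k6_A00pm_123_s3 k7_A00pm_123_s3

theorem t9_A00pm_123_s3 : ∃ t, chk3 f_A00pm_123_s3 t 31 3 1 = true := ex3_b k5_A00pm_123_s3 t8_A00pm_123_s3

theorem t10_A00pm_123_s3 : ∃ t, chk3 f_A00pm_123_s3 t 31 1 1 = true := ex3_b k4_A00pm_123_s3 t9_A00pm_123_s3

theorem t11_A00pm_123_s3 : ∃ t, chk3 f_A00pm_123_s3 t 15 1 1 = true := ex3_a k3_A00pm_123_s3 t10_A00pm_123_s3

theorem t12_A00pm_123_s3 : ∃ t, chk3 f_A00pm_123_s3 t 7 1 1 = true := ex3_a k2_A00pm_123_s3 t11_A00pm_123_s3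

theorem t13_A00pm_123_s3 : ∃ t, chk3 f_A00pm_123_s3 t 3 1 1 = true := ex3_a k1_A00pm_123_s3 t12_A00pm_123_s3

theorem t14_A00pm_123_s3 : ∃ t, chk3 f_A00pm_123_s3 t 1 1 1 = true := ex3_a k0_A00pm_123_s3 t13_A00pm_123_s3

theorem c_A00pm_123_s3 : CertF 536870912 536870912 0 536870912 335544320 67108864 true true false .npn 1 2 3
    ndF0q1 ndF0q2 pcF3 cut_A00pm_123_s3 xt_A00pm_123_s3 :=
  certF2 (fam := true) (s1 := true) (s2 := false) (a := 1) (b := 2) (c := 3) (cn := .npn) (n1 := ndF0q1) (n2 := ndF0q2) (pc := pcF3) (cut := cut_A00pm_123_s3) (xt := xt_A00pm_123_s3) (P1 := 536870912) (W1 := 536870912) (P2 := 0) (W2 := 536870912) (P3 := 335544320) (W3 := 67108864)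
    rfl (fun _ => rfl) t14_A00pm_123_s3

theorem s_A00pm_123_s3 {κ x : ℝ} (hκ : κ * h0 = ken x) (hx : ((335544320 : ℕ) : ℝ) / S ≤ x)
    (hx' : x ≤ (((335544320 : ℕ) : ℝ) + (67108864 : ℕ)) / S)
    (H : CutA (VF κ) PP tKF tL pcF (Cut.of [[⟨0, 1, 0, 67108864⟩, ⟨1, 1, 0, 67108864⟩, ⟨2, 2, 0, 16777216⟩]]) 1 2 3 0 0 (sgb true) (sgb false) x) :
    AltA (VF κ) PP tKF tL pcF [⟨4, 0, 0, 2845415833⟩] 1 2 3 0 0 (sgb true) (sgb false) x :=
  strip_altA (m := 2845415833) false rfl hκ covF01 covF02 hx hx' c_A00pm_123_s3 H ((okx hx hx').extA (T := tt) (sideF hx hx') hκ rfl rfl (.O 1 true) (.O 2 false) (Or.inr rfl))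

noncomputable def cut_A00pm_202_s1 : Cut := Cut.of [[⟨4, 0, 0, 1449551462⟩], [⟨0, 1, 0, 67108864⟩, ⟨1, 0, 0, 67108864⟩, ⟨2, 1, 0, 67108864⟩], [⟨0, 1, 0, 33554432⟩, ⟨1, 0, 1, 33554432⟩, ⟨2, 1, 1, 33554432⟩]]

noncomputable def f_A00pm_202_s1 : ℕ → ℕ → ℕ → ℕ → Bool := onCell 0 536870912 1073741824 536870912 335544320 67108864
    (rowF 1 true true false .pp 2 0 2 (qsf 0 536870912 0 536870912 2) ndF0q2 ndF0q0 pcF2 cut_A00pm_202_s1 Ext.none)

def k0_A00pm_202_s1 : ∃ t, chk3 f_A00pm_202_s1 t 2 1 1 = true :=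
  ⟨(b (b (b (l 1) (l 6)) (l 6)) (l 6)), by decide +kernel⟩

def k1_A00pm_202_s1 : ∃ t, chk3 f_A00pm_202_s1 t 6 4 1 = true :=
  ⟨(b (l 1) (a (b (l 1) (l 6)) (b (a (b (l 1) (b (a (l 1) (l 16646280)) (a (l 16633952) (l 16640536)))) (b (b (l 1) (a (a (l 1) (l 16659464)) (a (l 16661640) (l 16663328)))) (a (b (a (l 16651040) (l 16654120)) (l 16647040)) (b (l 16657040) (l 16651520))))) (b (a (b (a (l 16627824) (l 16634592)) (l 16625048)) (a (l 16638368) (l 16643024))) (a (l 6) (a (l 16626088) (l 16631216))))))), by decide +kernel⟩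

def k2_A00pm_202_s1 : ∃ t, chk3 f_A00pm_202_s1 t 7 4 1 = true :=
  ⟨(b (a (b (l 1) (a (b (l 1) (b (l 1) (a (l 1) (a (b (l 1) (l 16679208)) (b (l 14) (l 16681144)))))) (b (l 14) (b (l 14) (a (a (l 16684736) (l 16686576)) (l 16699680)))))) (b (l 14) (b (l 14) (b (l 14) (b (l 14) (a (a (l 16690192) (l 16692608)) (a (l 16728096) (a (l 16719400) (a (l 16725520) (l 16729592)))))))))) (a (b (b (a (a (b (a (b (l 1) (l 16669336)) (l 16672648)) (l 16665784)) (b (a (l 16674440) (l 16676160)) (l 16668792))) (a (b (l 16678608) (l 16671480)) (b (l 16681512) (l 16673784)))) (a (a (b (l 16659752) (l 16653664)) (l 16658904)) (a (l 16660728) (l 16683104)))) (a (b (a (l 16644432) (l 16645504)) (l 16631976)) (b (b (l 16692160) (l 16684544)) (l 16673072)))) (a (b (b (a (a (l 16700280) (l 16701224)) (l 16704392)) (a (l 16684008) (l 16693112))) (b (b (l 16687128) (l 16692144)) (c (l 16684864) (l 16683128)))) (a (b (b (a (l 16716776) (l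 16725000)) (c (l 16710464) (l 16708752))) (b (l 16719480) (l 16708496))) (a (b (b (c (l 16713128) (l 16711288)) (l 16700952)) (b (l 16689824) (l 16678792))) (b (a (b (l 16728848) (l 16707088)) (b (b (l 16727928) (l 16719632)) (b (l 16714000) (l 16708408)))) (a (b (l 16706440) (l 16684904)) (b (b (a (l 16701832) (l 16703872)) (l 16707808)) (b (l 16691800) (l 16686272)))))))))), by decide +kernel⟩

def k3_A00pm_202_s1 : ∃ t, chk3 f_A00pm_202_s1 t 3 5 1 = true :=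
  ⟨(a (b (a (l 6) (b (b (a (l 6) (l 16657872)) (l 6)) (l 6))) (l 6)) (b (a (b (b (a (l 16618584) (l 16657608)) (a (b (l 16608336) (l 16663760)) (b (l 16604016) (l 16638784)))) (a (l 16625008) (l 16617024))) (a (b (b (l 16673176) (b (l 16665008) (a (l 16650624) (l 16666280)))) (b (l 16651600) (l 16645304))) (a (b (b (l 16697440) (b (l 16646984) (a (l 16677984) (l 16680552)))) (l 16671648)) (b (b (a (l 16667624) (b (l 16678672) (l 16672968))) (a (b (l 16658944) (b (l 16654040) (l 16670888))) (b (a (l 16664928) (l 16668920)) (b (l 16661928) (b (l 16669200) (c (l 16659504) (l 16653312))))))) (a (l 16662424) (b (c (l 16676600) (l 16648864)) (b (l 16669040) (l 16666608)))))))) (a (l 6) (b (a (a (l 16629448) (l 16645736)) (a (c (l 16666296) (l 16616056)) (a (c (l 16637064) (l 16628008)) (b (c (l 16647048) (l 16638040)) (a (l 16637408) (c (l 16646808) (l 16636472))))))) (a (l 6) (a (l 6) (a (l 6) (b (b (c (l 16643848) (l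 16632704)) (l 6)) (l 6))))))))), by decide +kernel⟩

def k4_A00pm_202_s1 : ∃ t, chk3 f_A00pm_202_s1 t 3 3 1 = true :=
  ⟨(l 6), by decide +kernel⟩

theorem t5_A00pm_202_s1 : ∃ t, chk3 f_A00pm_202_s1 t 3 4 1 = true := ex3_a k1_A00pm_202_s1 k2_A00pm_202_s1

theorem t6_A00pm_202_s1 : ∃ t, chk3 f_A00pm_202_s1 t 3 2 1 = true := ex3_b t5_A00pm_202_s1 k3_A00pm_202_s1

theorem t7_A00pm_202_s1 : ∃ t, chk3 f_A00pm_202_s1 t 3 1 1 = true := ex3_b t6_A00pm_202_s1 k4_A00pm_202_s1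

theorem t8_A00pm_202_s1 : ∃ t, chk3 f_A00pm_202_s1 t 1 1 1 = true := ex3_a k0_A00pm_202_s1 t7_A00pm_202_s1

theorem c_A00pm_202_s1 : CertF 0 536870912 0 536870912 335544320 67108864 true true false .pp 2 0 2
    ndF0q2 ndF0q0 pcF2 cut_A00pm_202_s1 Ext.none :=
  certF1 (fam := true) (s1 := true) (s2 := false) (a := 2) (b := 0) (c := 2) (cn := .pp) (n1 := ndF0q2) (n2 := ndF0q0) (pc := pcF2) (cut := cut_A00pm_202_s1) (xt := Ext.none) (P1 := 0) (W1 := 536870912) (P2 := 0) (W2 := 536870912) (P3 := 335544320) (W3 := 67108864)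
    rfl (fun _ => rfl) t8_A00pm_202_s1

theorem s_A00pm_202_s1 {κ x : ℝ} (hκ : κ * h0 = ken x) (hx : ((335544320 : ℕ) : ℝ) / S ≤ x)
    (hx' : x ≤ (((335544320 : ℕ) : ℝ) + (67108864 : ℕ)) / S)
    (H : CutA (VF κ) PP tKF tL pcF (Cut.of [[⟨0, 1, 0, 67108864⟩, ⟨1, 0, 0, 67108864⟩, ⟨2, 1, 0, 67108864⟩], [⟨0, 1, 0, 33554432⟩, ⟨1, 0, 1, 33554432⟩, ⟨2, 1, 1, 33554432⟩]]) 2 0 2 0 0 (sgb true) (sgb false) x) :
    AltA (VF κ) PP tKF tL pcF [⟨3, 0, 0, 1449551462⟩] 2 0 2 0 0 (sgb true) (sgb false) x :=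
  strip_altA (m := 1449551462) true rfl hκ covF02 covF00 hx hx' c_A00pm_202_s1 H (noExt_A)

noncomputable def cut_A00pm_202_s3 : Cut := Cut.of [[⟨3, 0, 0, 2845415833⟩], [⟨0, 1, 0, 67108864⟩, ⟨1, 0, 0, 67108864⟩, ⟨2, 1, 0, 67108864⟩], [⟨0, 1, 0, 33554432⟩, ⟨1, 0, 1, 33554432⟩, ⟨2, 1, 1, 33554432⟩]]

noncomputable def f_A00pm_202_s3 : ℕ → ℕ → ℕ → ℕ → Bool := onCell 0 536870912 1073741824 536870912 335544320 67108864
    (rowF 1 true true false .pp 2 0 2 (qsf 0 536870912 0 536870912 2) ndF0q2 ndF0q0 pcF2 cut_A00pm_202_s3 Ext.none)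

def k0_A00pm_202_s3 : ∃ t, chk3 f_A00pm_202_s3 t 1 1 1 = true :=
  ⟨(a (b (l 6) (l 6)) (l 6)), by decide +kernel⟩

theorem c_A00pm_202_s3 : CertF 0 536870912 0 536870912 335544320 67108864 true true false .pp 2 0 2
    ndF0q2 ndF0q0 pcF2 cut_A00pm_202_s3 Ext.none :=
  certF1 (fam := true) (s1 := true) (s2 := false) (a := 2) (b := 0) (c := 2) (cn := .pp) (n1 := ndF0q2) (n2 := ndF0q0) (pc := pcF2) (cut := cut_A00pm_202_s3) (xt := Ext.none) (P1 := 0) (W1 := 536870912) (P2 := 0) (W2 := 536870912) (P3 := 335544320) (W3 := 67108864)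
    rfl (fun _ => rfl) k0_A00pm_202_s3

theorem s_A00pm_202_s3 {κ x : ℝ} (hκ : κ * h0 = ken x) (hx : ((335544320 : ℕ) : ℝ) / S ≤ x)
    (hx' : x ≤ (((335544320 : ℕ) : ℝ) + (67108864 : ℕ)) / S)
    (H : CutA (VF κ) PP tKF tL pcF (Cut.of [[⟨0, 1, 0, 67108864⟩, ⟨1, 0, 0, 67108864⟩, ⟨2, 1, 0, 67108864⟩], [⟨0, 1, 0, 33554432⟩, ⟨1, 0, 1, 33554432⟩, ⟨2, 1, 1, 33554432⟩]]) 2 0 2 0 0 (sgb true) (sgb false) x) :
    AltA (VF κ) PP tKF tL pcF [⟨4, 0, 0, 2845415833⟩] 2 0 2 0 0 (sgb true) (sgb false) x :=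
  strip_altA (m := 2845415833) false rfl hκ covF02 covF00 hx hx' c_A00pm_202_s3 H (noExt_A)

noncomputable def cut_A00pm_203_s1 : Cut := Cut.of [[⟨4, 0, 0, 1449551462⟩]]

noncomputable def f_A00pm_203_s1 : ℕ → ℕ → ℕ → ℕ → Bool := onCell 0 536870912 1610612736 536870912 335544320 67108864
    (rowF 1 true true false .up 2 0 3 (qsf 0 536870912 0 536870912 3) ndF0q2 ndF0q0 pcF3 cut_A00pm_203_s1 Ext.none)

def k0_A00pm_203_s1 : ∃ t, chk3 f_A00pm_203_s1 t 1 1 1 = true :=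
  ⟨(l 6), by decide +kernel⟩

theorem c_A00pm_203_s1 : CertF 0 536870912 0 536870912 335544320 67108864 true true false .up 2 0 3
    ndF0q2 ndF0q0 pcF3 cut_A00pm_203_s1 Ext.none :=
  certF1 (fam := true) (s1 := true) (s2 := false) (a := 2) (b := 0) (c := 3) (cn := .up) (n1 := ndF0q2) (n2 := ndF0q0) (pc := pcF3) (cut := cut_A00pm_203_s1) (xt := Ext.none) (P1 := 0) (W1 := 536870912) (P2 := 0) (W2 := 536870912) (P3 := 335544320) (W3 := 67108864)
    rfl (fun _ => rfl) k0_A00pm_203_s1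

theorem s_A00pm_203_s1 {κ x : ℝ} (hκ : κ * h0 = ken x) (hx : ((335544320 : ℕ) : ℝ) / S ≤ x)
    (hx' : x ≤ (((335544320 : ℕ) : ℝ) + (67108864 : ℕ)) / S) :
    AltA (VF κ) PP tKF tL pcF [⟨3, 0, 0, 1449551462⟩] 2 0 3 0 0 (sgb true) (sgb false) x :=
  strip_altA (m := 1449551462) true rfl hκ covF02 covF00 hx hx' c_A00pm_203_s1 cutA_nil (noExt_A)

noncomputable def cut_A00pm_203_s3 : Cut := Cut.of [[⟨3, 0, 0, 2845415833⟩]]

noncomputable def f_A00pm_203_s3 : ℕ → ℕ → ℕ → ℕ → Bool := onCell 0 536870912 0 536870912 335544320 67108864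
    (rowF 0 true true false .up 2 0 3 (qsf 0 536870912 0 536870912 3) ndF0q2 ndF0q0 pcF3 cut_A00pm_203_s3 Ext.none)

def k0_A00pm_203_s3 : ∃ t, chk3 f_A00pm_203_s3 t 1 1 1 = true :=
  ⟨(a (b (l 1) (b (b (l 1) (a (b (l 6) (a (l 16832808) (l 6))) (l 6))) (a (b (a (b (l 16843768) (l 16847040)) (l 6)) (a (b (l 16843904) (a (l 16828552) (l 16842976))) (b (l 16869584) (l 16865672)))) (b (l 6) (l 6))))) (l 6)), by decide +kernel⟩

theorem c_A00pm_203_s3 : CertF 0 536870912 0 536870912 335544320 67108864 true true false .up 2 0 3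
    ndF0q2 ndF0q0 pcF3 cut_A00pm_203_s3 Ext.none :=
  certF0 (fam := true) (s1 := true) (s2 := false) (a := 2) (b := 0) (c := 3) (cn := .up) (n1 := ndF0q2) (n2 := ndF0q0) (pc := pcF3) (cut := cut_A00pm_203_s3) (xt := Ext.none) (P1 := 0) (W1 := 536870912) (P2 := 0) (W2 := 536870912) (P3 := 335544320) (W3 := 67108864)
    rfl k0_A00pm_203_s3

theorem s_A00pm_203_s3 {κ x : ℝ} (hκ : κ * h0 = ken x) (hx : ((335544320 : ℕ) : ℝ) / S ≤ x)
    (hx' : x ≤ (((335544320 : ℕ) : ℝ) + (67108864 : ℕ)) / S) :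
    AltA (VF κ) PP tKF tL pcF [⟨4, 0, 0, 2845415833⟩] 2 0 3 0 0 (sgb true) (sgb false) x :=
  strip_altA (m := 2845415833) false rfl hκ covF02 covF00 hx hx' c_A00pm_203_s3 cutA_nil (noExt_A)

noncomputable def cut_A00pm_213_s1 : Cut := Cut.of [[⟨4, 0, 0, 1449551462⟩], [⟨0, 1, 0, 67108864⟩, ⟨1, 1, 0, 67108864⟩, ⟨2, 2, 0, 16777216⟩]]

noncomputable def f_A00pm_213_s1 : ℕ → ℕ → ℕ → ℕ → Bool := onCell 0 536870912 536870912 536870912 335544320 67108864
    (rowF 0 true true false .pnn 2 1 3 (qsf 0 536870912 536870912 536870912 3) ndF0q2 ndF0q1 pcF3 cut_A00pm_213_s1 Ext.none)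

def k0_A00pm_213_s1 : ∃ t, chk3 f_A00pm_213_s1 t 1 1 1 = true :=
  ⟨(l 6), by decide +kernel⟩

theorem c_A00pm_213_s1 : CertF 0 536870912 536870912 536870912 335544320 67108864 true true false .pnn 2 1 3
    ndF0q2 ndF0q1 pcF3 cut_A00pm_213_s1 Ext.none :=
  certF0 (fam := true) (s1 := true) (s2 := false) (a := 2) (b := 1) (c := 3) (cn := .pnn) (n1 := ndF0q2) (n2 := ndF0q1) (pc := pcF3) (cut := cut_A00pm_213_s1) (xt := Ext.none) (P1 := 0) (W1 := 536870912) (P2 := 536870912) (W2 := 536870912) (P3 := 335544320) (W3 := 67108864)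
    rfl k0_A00pm_213_s1

theorem s_A00pm_213_s1 {κ x : ℝ} (hκ : κ * h0 = ken x) (hx : ((335544320 : ℕ) : ℝ) / S ≤ x)
    (hx' : x ≤ (((335544320 : ℕ) : ℝ) + (67108864 : ℕ)) / S)
    (H : CutA (VF κ) PP tKF tL pcF (Cut.of [[⟨0, 1, 0, 67108864⟩, ⟨1, 1, 0, 67108864⟩, ⟨2, 2, 0, 16777216⟩]]) 2 1 3 0 0 (sgb true) (sgb false) x) :
    AltA (VF κ) PP tKF tL pcF [⟨3, 0, 0, 1449551462⟩] 2 1 3 0 0 (sgb true) (sgb false) x :=
  strip_altA (m := 1449551462) true rfl hκ covF02 covF01 hx hx' c_A00pm_213_s1 H (noExt_A)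

noncomputable def cut_A00pm_213_s3 : Cut := Cut.of [[⟨3, 0, 0, 2845415833⟩], [⟨0, 1, 0, 67108864⟩, ⟨1, 1, 0, 67108864⟩, ⟨2, 2, 0, 16777216⟩]]

noncomputable def xt_A00pm_213_s3 : Ext := strExt dd true true false .u2 .u0m .s2m .pnn 2 1 3 rfl rfl gl3 vv ndF0q2 ndF0q1

noncomputable def f_A00pm_213_s3 : ℕ → ℕ → ℕ → ℕ → Bool := onCell 0 536870912 1610612736 536870912 335544320 67108864
    (rowF 1 true true false .pnn 2 1 3 (qsf 0 536870912 536870912 536870912 3) ndF0q2 ndF0q1 pcF3 cut_A00pm_213_s3 xt_A00pm_213_s3)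

def k0_A00pm_213_s3 : ∃ t, chk3 f_A00pm_213_s3 t 1 2 1 = true :=
  ⟨(a (b (a (l 1) (l 6)) (b (b (a (a (a (l 16827928) (l 16842080)) (l 16864120)) (a (l 16894856) (l 6))) (a (a (a (l 538596879) (l 16830536)) (a (l 16846432) (l 16862960))) (a (l 16888024) (l 6)))) (a (a (a (b (l 538679567) (l 538749967)) (b (l 538944783) (a (l 538752271) (l 538762767)))) (a (b (l 16833456) (b (l 16822280) (l 16814184))) (b (l 16850840) (l 16836136)))) (a (b (b (l 16880200) (l 16873936)) (b (l 16866880) (l 16859176))) (b (a (l 16903736) (l 6)) (a (b (l 16893880) (l 16886304)) (b (l 16912056) (l 16904488)))))))) (b (l 6) (a (b (l 6) (l 6)) (l 6)))), by decide +kernel⟩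

def k1_A00pm_213_s3 : ∃ t, chk3 f_A00pm_213_s3 t 1 12 1 = true :=
  ⟨(a (a (a (b (a (b (l 538790671) (l 4)) (b (a (l 538794767) (l 538811663)) (a (l 538827023) (l 538874127)))) (a (l 4) (b (l 538910735) (l 4)))) (b (a (b (a (l 16801248) (l 16810184)) (a (l 538910479) (l 16790792))) (b (l 16823720) (l 16793840))) (a (a (b (l 538966031) (b (l 539005711) (l 539029775))) (b (a (l 538993167) (l 539008783)) (b (l 539039759) (l 539063311)))) (b (b (l 16807736) (l 16792336)) (b (l 539334415) (l 539350031)))))) (b (a (a (b (l 16841848) (l 16832904)) (b (l 16859904) (l 16850904))) (b (a (l 16877968) (l 16896072)) (a (l 16868848) (l 16886784)))) (a (a (b (l 16823272) (b (l 16815664) (l 16810408))) (b (l 16841160) (l 16830776))) (a (b (l 16858952) (l 16848416)) (b (l 16876736) (l 16865984)))))) (a (b (a (a (b (l 16914280) (l 16904800)) (a (b (l 6) (l 16918296)) (l 6))) (l 6)) (a (a (b (l 16894520) (l 16883560)) (b (a (l 16907784)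 (l 16916528)) (l 16900904))) (a (a (l 16919432) (l 16927856)) (l 16940296)))) (l 6))), by decide +kernel⟩

def k2_A00pm_213_s3 : ∃ t, chk3 f_A00pm_213_s3 t 1 13 1 = true :=
  ⟨(a (a (a (l 4) (b (a (a (l 4) (b (l 539077391) (l 4))) (b (l 539907343) (a (l 539117071) (b (l 539129103) (l 539139599))))) (a (l 4) (l 4)))) (a (b (a (a (b (l 539126031) (l 539149839)) (b (l 16806760) (l 539156751))) (b (a (l 16815552) (l 16824296)) (a (l 539168015) (l 16813008)))) (a (b (l 539163151) (l 539975951)) (b (a (l 539179791) (l 539192335)) (a (b (l 539186191) (l 539189775)) (b (l 539198991) (l 539203087)))))) (b (a (b (l 16837360) (l 16815416)) (b (l 16854720) (l 16843016))) (a (b (b (l 16817120) (l 16811176)) (b (l 539220495) (l 539224591))) (b (l 16830976) (b (l 16821776) (l 16815560))))))) (a (a (c (a (b (b (l 16877984) (l 16865024)) (b (l 16851736) (l 16838184))) (b (b (l 16895552) (l 16882232)) (b (l 16868552) (l 16854584))))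 (a (b (b (l 16866184) (l 16855144)) (b (l 16843680) (l 16831848))) (b (b (l 16882640) (l 16871280)) (b (l 16859448) (l 16847208))))) (b (a (a (b (l 16901384) (l 16888760)) (l 16902976)) (l 16914504)) (a (b (a (l 16875712) (l 16883272)) (l 16865920)) (a (l 16883736) (l 16890728))))) (a (b (a (l 16929520) (l 16943824)) (a (l 16900944) (l 16913824))) (b (l 6) (b (l 17021680) (l 17026440)))))), by decide +kernel⟩

def k3_A00pm_213_s3 : ∃ t, chk3 f_A00pm_213_s3 t 1 14 1 = true :=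
  ⟨(a (a (l 4) (a (a (l 4) (b (a (a (l 4) (l 539199503)) (l 539209999)) (l 4))) (b (a (b (l 539229455) (l 539233295)) (b (a (l 539253775) (l 16810152)) (c (l 540471311) (l 540745999)))) (a (b (a (l 4) (l 539242511)) (l 4)) (b (a (l 539258895) (l 539275023)) (a (l 4) (l 539272975))))))) (a (b (a (a (b (b (l 16825336) (l 16818808)) (a (l 539291407) (l 16812744))) (b (l 16837512) (b (l 16827336) (l 16820480)))) (b (a (l 16852080) (a (l 16862600) (l 16869320))) (a (l 16837952) (a (l 16848088) (l 16854672))))) (a (a (b (a (l 539292175) (l 539578383)) (a (l 539290127) (a (l 539303695) (l 540117263)))) (b (a (l 540934415) (l 16813584)) (a (b (l 539321359) (l 539857423)) (b (l 16803016) (l 539311375))))) (b (b (a (l 16827224) (l 16840168)) (a (l 16819984) (l 16832792))) (a (b (l 16812744) (a (l 16802376) (l 16808624))) (b (l 16825296) (l 16817840)))))) (a (b (a (b (l 16878800) (l 16863808)) (l 16883112)) (a (a (b (l 16845944)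 (a (l 16829232) (l 16832280))) (b (l 16851640) (l 16836672))) (b (l 16859968) (l 16844424)))) (a (b (b (l 16901624) (l 16885776)) (b (l 16953712) (l 16895640))) (b (l 16898480) (b (l 16873264) (l 16856536))))))), by decide +kernel⟩

def k4_A00pm_213_s3 : ∃ t, chk3 f_A00pm_213_s3 t 1 30 1 = true :=
  ⟨(a (l 4) (a (a (b (a (a (l 4) (b (a (l 539301647) (l 539309071)) (l 4))) (b (a (l 539838735) (l 539301135)) (a (l 539294479) (l 539292943)))) (a (l 4) (b (a (l 4) (l 539285263)) (l 4)))) (a (b (a (b (l 539570191) (l 539563279)) (b (l 16801352) (b (l 16795920) (l 16792288)))) (a (b (l 540094223) (b (l 539286799) (l 4))) (b (b (l 540108303) (l 540642831)) (b (l 540642063) (l 540910095))))) (b (a (b (l 16807408) (l 16800040)) (b (l 16813416) (l 16805904))) (a (b (b (l 16794480) (l 540677647)) (b (l 540680207) (l 540949775))) (b (b (l 16800224) (l 16796408)) (a (l 540973071) (b (l 16793928) (l 16790024)))))))) (a (a (b (b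 (a (l 16819376) (l 16835616)) (a (l 16811664) (a (l 16815928) (l 16818632)))) (a (b (l 16803872) (b (l 16797944) (l 16793952))) (b (l 16809280) (b (l 16803176) (l 16799056))))) (b (b (l 16832688) (a (l 16822544) (l 16827008))) (b (a (a (l 16813144) (l 16815704)) (l 16818800)) (a (b (a (l 16806992) (l 16809408)) (l 16803896)) (b (l 16812584) (l 16819008)))))) (b (a (l 16837400) (b (l 16843992) (l 16877472))) (a (a (l 16818496) (l 16821992)) (a (a (l 16865944) (l 16866040)) (l 16820232))))))), by decide +kernel⟩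

def k5_A00pm_213_s3 : ∃ t, chk3 f_A00pm_213_s3 t 2 31 1 = true :=
  ⟨(l 4), by decide +kernel⟩

def k6_A00pm_213_s3 : ∃ t, chk3 f_A00pm_213_s3 t 6 31 1 = true :=
  ⟨(b (a (l 4) (a (b (a (l 4) (b (l 540376847) (l 4))) (l 4)) (b (a (a (l 540934671) (b (l 539347727) (l 539346191))) (b (a (l 539366927) (l 539386895)) (a (l 539365647) (l 539654415)))) (a (l 4) (b (a (l 539630607) (l 540187919)) (a (l 4) (l 540718351))))))) (l 4)), by decide +kernel⟩

def k7_A00pm_213_s3 : ∃ t, chk3 f_A00pm_213_s3 t 7 62 1 = true :=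
  ⟨(a (b (b (a (a (a (l 16788664) (l 16791192)) (l 16794896)) (a (l 16799680) (a (l 16803048) (l 16805144)))) (a (a (a (l 540212495) (l 540771855)) (a (l 16789528) (l 16791896))) (a (l 16795336) (a (l 16798680) (b (l 16801920) (l 16799624)))))) (a (a (b (a (l 540746511) (b (l 16784040) (l 539429391))) (a (b (l 539403535) (l 539399695)) (b (l 539963919) (l 540228623)))) (a (b (b (l 16786400) (l 16784304)) (a (l 540781327) (l 541062415))) (b (b (l 16788704) (l 16786568)) (b (l 16784432) (a (l 539468047) (l 16782824)))))) (b (c (a (a (l 16790248) (l 16792488)) (b (a (l 16795840) (l 16797880)) (l 16794552))) (b (a (l 16791616) (l 16798280)) (a (l 16789480) (l 16793544)))) (a (a (b (l 16786600) (l 16784408)) (b (l 16788712) (l 16786480))) (b (l 16791752) (l 16789440)))))) (a (b (a (l 16805464) (l 16808512)) (a (b (a (b (l 16799224) (l 16802248)) (l 16799568)) (a (b (a (l 16794160) (l 16795120)) (l 16792192)) (b (l 16796168)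 (l 16793984)))) (l 16799264))) (a (b (a (l 16810528) (l 16852976)) (b (l 16824568) (l 16819832))) (b (l 16807504) (b (l 16801216) (l 16797096)))))), by decide +kernel⟩

def k8_A00pm_213_s3 : ∃ t, chk3 f_A00pm_213_s3 t 7 63 1 = true :=
  ⟨(b (a (a (a (b (a (l 4) (b (l 540760335) (l 4))) (l 4)) (b (a (b (a (l 539436815) (l 539449871)) (l 540778511)) (b (b (l 540547855) (l 540813583)) (a (l 539456527) (l 539470351)))) (a (l 4) (b (a (l 4) (l 540265999)) (l 4))))) (a (b (a (b (a (l 539491599) (l 16782728)) (a (l 540021775) (l 540573711))) (b (b (l 16784792) (l 16783672)) (b (l 16782552) (a (l 16780952) (l 14))))) (a (a (b (l 540548879) (l 4)) (b (c (l 540906255) (l 540756751)) (a (l 540278031) (l 14)))) (b (a (b (l 539512335) (l 14)) (l 14)) (l 14)))) (b (b (a (l 16786184) (l 16788064)) (l 14)) (l 14)))) (b (b (a (a (a (l 16789880) (a (l 16791120) (l 16791992))) (l 16793408)) (a (l 16795424) (l 16794040))) (l 14)) (l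 14))) (a (a (l 4) (a (a (l 4) (l 14)) (l 14))) (l 14))), by decide +kernel⟩

theorem t9_A00pm_213_s3 : ∃ t, chk3 f_A00pm_213_s3 t 7 31 1 = true := ex3_b k7_A00pm_213_s3 k8_A00pm_213_s3

theorem t10_A00pm_213_s3 : ∃ t, chk3 f_A00pm_213_s3 t 3 31 1 = true := ex3_a k6_A00pm_213_s3 t9_A00pm_213_s3

theorem t11_A00pm_213_s3 : ∃ t, chk3 f_A00pm_213_s3 t 1 31 1 = true := ex3_a k5_A00pm_213_s3 t10_A00pm_213_s3

theorem t12_A00pm_213_s3 : ∃ t, chk3 f_A00pm_213_s3 t 1 15 1 = true := ex3_b k4_A00pm_213_s3 t11_A00pm_213_s3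

theorem t13_A00pm_213_s3 : ∃ t, chk3 f_A00pm_213_s3 t 1 7 1 = true := ex3_b k3_A00pm_213_s3 t12_A00pm_213_s3

theorem t14_A00pm_213_s3 : ∃ t, chk3 f_A00pm_213_s3 t 1 6 1 = true := ex3_b k1_A00pm_213_s3 k2_A00pm_213_s3

theorem t15_A00pm_213_s3 : ∃ t, chk3 f_A00pm_213_s3 t 1 3 1 = true := ex3_b t14_A00pm_213_s3 t13_A00pm_213_s3

theorem t16_A00pm_213_s3 : ∃ t, chk3 f_A00pm_213_s3 t 1 1 1 = true := ex3_b k0_A00pm_213_s3 t15_A00pm_213_s3

theorem c_A00pm_213_s3 : CertF 0 536870912 536870912 536870912 335544320 67108864 true true false .pnn 2 1 3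
    ndF0q2 ndF0q1 pcF3 cut_A00pm_213_s3 xt_A00pm_213_s3 :=
  certF1 (fam := true) (s1 := true) (s2 := false) (a := 2) (b := 1) (c := 3) (cn := .pnn) (n1 := ndF0q2) (n2 := ndF0q1) (pc := pcF3) (cut := cut_A00pm_213_s3) (xt := xt_A00pm_213_s3) (P1 := 0) (W1 := 536870912) (P2 := 536870912) (W2 := 536870912) (P3 := 335544320) (W3 := 67108864)
    rfl (fun _ => rfl) t16_A00pm_213_s3

theorem s_A00pm_213_s3 {κ x : ℝ} (hκ : κ * h0 = ken x) (hx : ((335544320 : ℕ) : ℝ) / S ≤ x)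
    (hx' : x ≤ (((335544320 : ℕ) : ℝ) + (67108864 : ℕ)) / S)
    (H : CutA (VF κ) PP tKF tL pcF (Cut.of [[⟨0, 1, 0, 67108864⟩, ⟨1, 1, 0, 67108864⟩, ⟨2, 2, 0, 16777216⟩]]) 2 1 3 0 0 (sgb true) (sgb false) x) :
    AltA (VF κ) PP tKF tL pcF [⟨4, 0, 0, 2845415833⟩] 2 1 3 0 0 (sgb true) (sgb false) x :=
  strip_altA (m := 2845415833) false rfl hκ covF02 covF01 hx hx' c_A00pm_213_s3 H ((okx hx hx').extA (T := tt) (sideF hx hx') hκ rfl rfl (.O 2 true) (.O 1 false) (Or.inr rfl))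

noncomputable def cut_A00mm_001_s1 : Cut := Cut.of [[⟨4, 0, 0, 1449551462⟩]]

noncomputable def f_A00mm_001_s1 : ℕ → ℕ → ℕ → ℕ → Bool := onCell 0 536870912 0 536870912 335544320 67108864
    (rowF 0 true false false .up 0 0 1 (qsf 0 536870912 0 536870912 1) ndF0q0 ndF0q0 pcF1 cut_A00mm_001_s1 Ext.none)

def k0_A00mm_001_s1 : ∃ t, chk3 f_A00mm_001_s1 t 1 1 1 = true :=
  ⟨(l 4), by decide +kernel⟩

theorem c_A00mm_001_s1 : CertF 0 536870912 0 536870912 335544320 67108864 true false false .up 0 0 1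
    ndF0q0 ndF0q0 pcF1 cut_A00mm_001_s1 Ext.none :=
  certF0 (fam := true) (s1 := false) (s2 := false) (a := 0) (b := 0) (c := 1) (cn := .up) (n1 := ndF0q0) (n2 := ndF0q0) (pc := pcF1) (cut := cut_A00mm_001_s1) (xt := Ext.none) (P1 := 0) (W1 := 536870912) (P2 := 0) (W2 := 536870912) (P3 := 335544320) (W3 := 67108864)
    rfl k0_A00mm_001_s1

theorem s_A00mm_001_s1 {κ x : ℝ} (hκ : κ * h0 = ken x) (hx : ((335544320 : ℕ) : ℝ) / S ≤ x)
    (hx' : x ≤ (((335544320 : ℕ) : ℝ) + (67108864 : ℕ)) / S) :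
    AltA (VF κ) PP tKF tL pcF [⟨3, 0, 0, 1449551462⟩] 0 0 1 0 0 (sgb false) (sgb false) x :=
  strip_altA (m := 1449551462) true rfl hκ covF00 covF00 hx hx' c_A00mm_001_s1 cutA_nil (noExt_A)

noncomputable def cut_A00mm_001_s3 : Cut := Cut.of [[⟨3, 0, 0, 2845415833⟩]]

noncomputable def f_A00mm_001_s3 : ℕ → ℕ → ℕ → ℕ → Bool := onCell 0 536870912 0 536870912 335544320 67108864
    (rowF 0 true false false .up 0 0 1 (qsf 0 536870912 0 536870912 1) ndF0q0 ndF0q0 pcF1 cut_A00mm_001_s3 Ext.none)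

def k0_A00mm_001_s3 : ∃ t, chk3 f_A00mm_001_s3 t 1 1 1 = true :=
  ⟨(l 4), by decide +kernel⟩

theorem c_A00mm_001_s3 : CertF 0 536870912 0 536870912 335544320 67108864 true false false .up 0 0 1
    ndF0q0 ndF0q0 pcF1 cut_A00mm_001_s3 Ext.none :=
  certF0 (fam := true) (s1 := false) (s2 := false) (a := 0) (b := 0) (c := 1) (cn := .up) (n1 := ndF0q0) (n2 := ndF0q0) (pc := pcF1) (cut := cut_A00mm_001_s3) (xt := Ext.none) (P1 := 0) (W1 := 536870912) (P2 := 0) (W2 := 536870912) (P3 := 335544320) (W3 := 67108864)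
    rfl k0_A00mm_001_s3

theorem s_A00mm_001_s3 {κ x : ℝ} (hκ : κ * h0 = ken x) (hx : ((335544320 : ℕ) : ℝ) / S ≤ x)
    (hx' : x ≤ (((335544320 : ℕ) : ℝ) + (67108864 : ℕ)) / S) :
    AltA (VF κ) PP tKF tL pcF [⟨4, 0, 0, 2845415833⟩] 0 0 1 0 0 (sgb false) (sgb false) x :=
  strip_altA (m := 2845415833) false rfl hκ covF00 covF00 hx hx' c_A00mm_001_s3 cutA_nil (noExt_A)

noncomputable def cut_A00mm_011_s1 : Cut := Cut.of [[⟨4, 0, 0, 1449551462⟩]]

noncomputable def f_A00mm_011_s1 : ℕ → ℕ → ℕ → ℕ → Bool := onCell 0 536870912 536870912 536870912 335544320 67108864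
    (rowF 0 true false false .pnn 0 1 1 (qsf 0 536870912 536870912 536870912 1) ndF0q0 ndF0q1 pcF1 cut_A00mm_011_s1 Ext.none)

def k0_A00mm_011_s1 : ∃ t, chk3 f_A00mm_011_s1 t 1 1 1 = true :=
  ⟨(l 6), by decide +kernel⟩

theorem c_A00mm_011_s1 : CertF 0 536870912 536870912 536870912 335544320 67108864 true false false .pnn 0 1 1
    ndF0q0 ndF0q1 pcF1 cut_A00mm_011_s1 Ext.none :=
  certF0 (fam := true) (s1 := false) (s2 := false) (a := 0) (b := 1) (c := 1) (cn := .pnn) (n1 := ndF0q0) (n2 := ndF0q1) (pc := pcF1) (cut := cut_A00mm_011_s1) (xt := Ext.none) (P1 := 0) (W1 := 536870912) (P2 := 536870912) (W2 := 536870912) (P3 := 335544320) (W3 := 67108864)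
    rfl k0_A00mm_011_s1

theorem s_A00mm_011_s1 {κ x : ℝ} (hκ : κ * h0 = ken x) (hx : ((335544320 : ℕ) : ℝ) / S ≤ x)
    (hx' : x ≤ (((335544320 : ℕ) : ℝ) + (67108864 : ℕ)) / S) :
    AltA (VF κ) PP tKF tL pcF [⟨3, 0, 0, 1449551462⟩] 0 1 1 0 0 (sgb false) (sgb false) x :=
  strip_altA (m := 1449551462) true rfl hκ covF00 covF01 hx hx' c_A00mm_011_s1 cutA_nil (noExt_A)

noncomputable def cut_A00mm_011_s3 : Cut := Cut.of [[⟨3, 0, 0, 2845415833⟩]]

noncomputable def f_A00mm_011_s3 : ℕ → ℕ → ℕ → ℕ → Bool := onCell 0 536870912 536870912 536870912 335544320 67108864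
    (rowF 0 true false false .pnn 0 1 1 (qsf 0 536870912 536870912 536870912 1) ndF0q0 ndF0q1 pcF1 cut_A00mm_011_s3 Ext.none)

def k0_A00mm_011_s3 : ∃ t, chk3 f_A00mm_011_s3 t 1 1 1 = true :=
  ⟨(a (l 5) (l 4)), by decide +kernel⟩

theorem c_A00mm_011_s3 : CertF 0 536870912 536870912 536870912 335544320 67108864 true false false .pnn 0 1 1
    ndF0q0 ndF0q1 pcF1 cut_A00mm_011_s3 Ext.none :=
  certF0 (fam := true) (s1 := false) (s2 := false) (a := 0) (b := 1) (c := 1) (cn := .pnn) (n1 := ndF0q0) (n2 := ndF0q1) (pc := pcF1) (cut := cut_A00mm_011_s3) (xt := Ext.none) (P1 := 0) (W1 := 536870912) (P2 := 536870912) (W2 := 536870912) (P3 := 335544320) (W3 := 67108864)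
    rfl k0_A00mm_011_s3

theorem s_A00mm_011_s3 {κ x : ℝ} (hκ : κ * h0 = ken x) (hx : ((335544320 : ℕ) : ℝ) / S ≤ x)
    (hx' : x ≤ (((335544320 : ℕ) : ℝ) + (67108864 : ℕ)) / S) :
    AltA (VF κ) PP tKF tL pcF [⟨4, 0, 0, 2845415833⟩] 0 1 1 0 0 (sgb false) (sgb false) x :=
  strip_altA (m := 2845415833) false rfl hκ covF00 covF01 hx hx' c_A00mm_011_s3 cutA_nil (noExt_A)

noncomputable def cut_A00mm_012_s1 : Cut := Cut.of [[⟨4, 0, 0, 1449551462⟩]]

noncomputable def f_A00mm_012_s1 : ℕ → ℕ → ℕ → ℕ → Bool := onCell 0 536870912 536870912 536870912 335544320 67108864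
    (rowF 0 true false false .pnp 0 1 2 (qsf 0 536870912 536870912 536870912 2) ndF0q0 ndF0q1 pcF2 cut_A00mm_012_s1 Ext.none)

def k0_A00mm_012_s1 : ∃ t, chk3 f_A00mm_012_s1 t 1 1 1 = true :=
  ⟨(l 6), by decide +kernel⟩

theorem c_A00mm_012_s1 : CertF 0 536870912 536870912 536870912 335544320 67108864 true false false .pnp 0 1 2
    ndF0q0 ndF0q1 pcF2 cut_A00mm_012_s1 Ext.none :=
  certF0 (fam := true) (s1 := false) (s2 := false) (a := 0) (b := 1) (c := 2) (cn := .pnp) (n1 := ndF0q0) (n2 := ndF0q1) (pc := pcF2) (cut := cut_A00mm_012_s1) (xt := Ext.none) (P1 := 0) (W1 := 536870912) (P2 := 536870912) (W2 := 536870912) (P3 := 335544320) (W3 := 67108864)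
    rfl k0_A00mm_012_s1

theorem s_A00mm_012_s1 {κ x : ℝ} (hκ : κ * h0 = ken x) (hx : ((335544320 : ℕ) : ℝ) / S ≤ x)
    (hx' : x ≤ (((335544320 : ℕ) : ℝ) + (67108864 : ℕ)) / S) :
    AltA (VF κ) PP tKF tL pcF [⟨3, 0, 0, 1449551462⟩] 0 1 2 0 0 (sgb false) (sgb false) x :=
  strip_altA (m := 1449551462) true rfl hκ covF00 covF01 hx hx' c_A00mm_012_s1 cutA_nil (noExt_A)

noncomputable def cut_A00mm_012_s3 : Cut := Cut.of [[⟨3, 0, 0, 2845415833⟩]]

noncomputable def f_A00mm_012_s3 : ℕ → ℕ → ℕ → ℕ → Bool := onCell 0 536870912 536870912 536870912 335544320 67108864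
    (rowF 0 true false false .pnp 0 1 2 (qsf 0 536870912 536870912 536870912 2) ndF0q0 ndF0q1 pcF2 cut_A00mm_012_s3 Ext.none)

def k0_A00mm_012_s3 : ∃ t, chk3 f_A00mm_012_s3 t 1 1 1 = true :=
  ⟨(b (l 4) (l 5)), by decide +kernel⟩

theorem c_A00mm_012_s3 : CertF 0 536870912 536870912 536870912 335544320 67108864 true false false .pnp 0 1 2
    ndF0q0 ndF0q1 pcF2 cut_A00mm_012_s3 Ext.none :=
  certF0 (fam := true) (s1 := false) (s2 := false) (a := 0) (b := 1) (c := 2) (cn := .pnp) (n1 := ndF0q0) (n2 := ndF0q1) (pc := pcF2) (cut := cut_A00mm_012_s3) (xt := Ext.none) (P1 := 0) (W1 := 536870912) (P2 := 536870912) (W2 := 536870912) (P3 := 335544320) (W3 := 67108864)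
    rfl k0_A00mm_012_s3

theorem s_A00mm_012_s3 {κ x : ℝ} (hκ : κ * h0 = ken x) (hx : ((335544320 : ℕ) : ℝ) / S ≤ x)
    (hx' : x ≤ (((335544320 : ℕ) : ℝ) + (67108864 : ℕ)) / S) :
    AltA (VF κ) PP tKF tL pcF [⟨4, 0, 0, 2845415833⟩] 0 1 2 0 0 (sgb false) (sgb false) x :=
  strip_altA (m := 2845415833) false rfl hκ covF00 covF01 hx hx' c_A00mm_012_s3 cutA_nil (noExt_A)

noncomputable def cut_A00mm_022_s1 : Cut := Cut.of [[⟨4, 0, 0, 1449551462⟩]]

noncomputable def f_A00mm_022_s1 : ℕ → ℕ → ℕ → ℕ → Bool := onCell 0 536870912 0 536870912 335544320 67108864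
    (rowF 0 true false false .pp 0 2 2 (qsf 0 536870912 0 536870912 2) ndF0q0 ndF0q2 pcF2 cut_A00mm_022_s1 Ext.none)

def k0_A00mm_022_s1 : ∃ t, chk3 f_A00mm_022_s1 t 1 1 1 = true :=
  ⟨(l 5), by decide +kernel⟩

theorem c_A00mm_022_s1 : CertF 0 536870912 0 536870912 335544320 67108864 true false false .pp 0 2 2
    ndF0q0 ndF0q2 pcF2 cut_A00mm_022_s1 Ext.none :=
  certF0 (fam := true) (s1 := false) (s2 := false) (a := 0) (b := 2) (c := 2) (cn := .pp) (n1 := ndF0q0) (n2 := ndF0q2) (pc := pcF2) (cut := cut_A00mm_022_s1) (xt := Ext.none) (P1 := 0) (W1 := 536870912) (P2 := 0) (W2 := 536870912) (P3 := 335544320) (W3 := 67108864)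
    rfl k0_A00mm_022_s1

theorem s_A00mm_022_s1 {κ x : ℝ} (hκ : κ * h0 = ken x) (hx : ((335544320 : ℕ) : ℝ) / S ≤ x)
    (hx' : x ≤ (((335544320 : ℕ) : ℝ) + (67108864 : ℕ)) / S) :
    AltA (VF κ) PP tKF tL pcF [⟨3, 0, 0, 1449551462⟩] 0 2 2 0 0 (sgb false) (sgb false) x :=
  strip_altA (m := 1449551462) true rfl hκ covF00 covF02 hx hx' c_A00mm_022_s1 cutA_nil (noExt_A)

noncomputable def cut_A00mm_022_s3 : Cut := Cut.of [[⟨3, 0, 0, 2845415833⟩]]

noncomputable def f_A00mm_022_s3 : ℕ → ℕ → ℕ → ℕ → Bool := onCell 0 536870912 0 536870912 335544320 67108864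
    (rowF 0 true false false .pp 0 2 2 (qsf 0 536870912 0 536870912 2) ndF0q0 ndF0q2 pcF2 cut_A00mm_022_s3 Ext.none)

def k0_A00mm_022_s3 : ∃ t, chk3 f_A00mm_022_s3 t 1 1 1 = true :=
  ⟨(l 5), by decide +kernel⟩

theorem c_A00mm_022_s3 : CertF 0 536870912 0 536870912 335544320 67108864 true false false .pp 0 2 2
    ndF0q0 ndF0q2 pcF2 cut_A00mm_022_s3 Ext.none :=
  certF0 (fam := true) (s1 := false) (s2 := false) (a := 0) (b := 2) (c := 2) (cn := .pp) (n1 := ndF0q0) (n2 := ndF0q2) (pc := pcF2) (cut := cut_A00mm_022_s3) (xt := Ext.none) (P1 := 0) (W1 := 536870912) (P2 := 0) (W2 := 536870912) (P3 := 335544320) (W3 := 67108864)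
    rfl k0_A00mm_022_s3

theorem s_A00mm_022_s3 {κ x : ℝ} (hκ : κ * h0 = ken x) (hx : ((335544320 : ℕ) : ℝ) / S ≤ x)
    (hx' : x ≤ (((335544320 : ℕ) : ℝ) + (67108864 : ℕ)) / S) :
    AltA (VF κ) PP tKF tL pcF [⟨4, 0, 0, 2845415833⟩] 0 2 2 0 0 (sgb false) (sgb false) x :=
  strip_altA (m := 2845415833) false rfl hκ covF00 covF02 hx hx' c_A00mm_022_s3 cutA_nil (noExt_A)

noncomputable def cut_A00mm_023_s1 : Cut := Cut.of [[⟨4, 0, 0, 1449551462⟩]]

noncomputable def f_A00mm_023_s1 : ℕ → ℕ → ℕ → ℕ → Bool := onCell 0 536870912 0 536870912 335544320 67108864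
    (rowF 0 true false false .up 0 2 3 (qsf 0 536870912 0 536870912 3) ndF0q0 ndF0q2 pcF3 cut_A00mm_023_s1 Ext.none)

def k0_A00mm_023_s1 : ∃ t, chk3 f_A00mm_023_s1 t 1 1 1 = true :=
  ⟨(l 5), by decide +kernel⟩

theorem c_A00mm_023_s1 : CertF 0 536870912 0 536870912 335544320 67108864 true false false .up 0 2 3
    ndF0q0 ndF0q2 pcF3 cut_A00mm_023_s1 Ext.none :=
  certF0 (fam := true) (s1 := false) (s2 := false) (a := 0) (b := 2) (c := 3) (cn := .up) (n1 := ndF0q0) (n2 := ndF0q2) (pc := pcF3) (cut := cut_A00mm_023_s1) (xt := Ext.none) (P1 := 0) (W1 := 536870912) (P2 := 0) (W2 := 536870912) (P3 := 335544320) (W3 := 67108864)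
    rfl k0_A00mm_023_s1

theorem s_A00mm_023_s1 {κ x : ℝ} (hκ : κ * h0 = ken x) (hx : ((335544320 : ℕ) : ℝ) / S ≤ x)
    (hx' : x ≤ (((335544320 : ℕ) : ℝ) + (67108864 : ℕ)) / S) :
    AltA (VF κ) PP tKF tL pcF [⟨3, 0, 0, 1449551462⟩] 0 2 3 0 0 (sgb false) (sgb false) x :=
  strip_altA (m := 1449551462) true rfl hκ covF00 covF02 hx hx' c_A00mm_023_s1 cutA_nil (noExt_A)

noncomputable def cut_A00mm_023_s3 : Cut := Cut.of [[⟨3, 0, 0, 2845415833⟩]]

noncomputable def f_A00mm_023_s3 : ℕ → ℕ → ℕ → ℕ → Bool := onCell 0 536870912 0 536870912 335544320 67108864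
    (rowF 0 true false false .up 0 2 3 (qsf 0 536870912 0 536870912 3) ndF0q0 ndF0q2 pcF3 cut_A00mm_023_s3 Ext.none)

def k0_A00mm_023_s3 : ∃ t, chk3 f_A00mm_023_s3 t 1 1 1 = true :=
  ⟨(l 5), by decide +kernel⟩

theorem c_A00mm_023_s3 : CertF 0 536870912 0 536870912 335544320 67108864 true false false .up 0 2 3
    ndF0q0 ndF0q2 pcF3 cut_A00mm_023_s3 Ext.none :=
  certF0 (fam := true) (s1 := false) (s2 := false) (a := 0) (b := 2) (c := 3) (cn := .up) (n1 := ndF0q0) (n2 := ndF0q2) (pc := pcF3) (cut := cut_A00mm_023_s3) (xt := Ext.none) (P1 := 0) (W1 := 536870912) (P2 := 0) (W2 := 536870912) (P3 := 335544320) (W3 := 67108864)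
    rfl k0_A00mm_023_s3

theorem s_A00mm_023_s3 {κ x : ℝ} (hκ : κ * h0 = ken x) (hx : ((335544320 : ℕ) : ℝ) / S ≤ x)
    (hx' : x ≤ (((335544320 : ℕ) : ℝ) + (67108864 : ℕ)) / S) :
    AltA (VF κ) PP tKF tL pcF [⟨4, 0, 0, 2845415833⟩] 0 2 3 0 0 (sgb false) (sgb false) x :=
  strip_altA (m := 2845415833) false rfl hκ covF00 covF02 hx hx' c_A00mm_023_s3 cutA_nil (noExt_A)

noncomputable def cut_A00mm_101_s1 : Cut := Cut.of [[⟨4, 0, 0, 1449551462⟩], [⟨0, 1, 0, 67108864⟩, ⟨1, 0, 0, 67108864⟩, ⟨2, 1, 0, 67108864⟩]]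

noncomputable def f_A00mm_101_s1 : ℕ → ℕ → ℕ → ℕ → Bool := onCell 536870912 536870912 0 536870912 335544320 67108864
    (rowF 0 true false false .npn 1 0 1 (qsf 536870912 536870912 0 536870912 1) ndF0q1 ndF0q0 pcF1 cut_A00mm_101_s1 Ext.none)

def k0_A00mm_101_s1 : ∃ t, chk3 f_A00mm_101_s1 t 1 1 1 = true :=
  ⟨(l 6), by decide +kernel⟩

theorem c_A00mm_101_s1 : CertF 536870912 536870912 0 536870912 335544320 67108864 true false false .npn 1 0 1
    ndF0q1 ndF0q0 pcF1 cut_A00mm_101_s1 Ext.none :=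
  certF0 (fam := true) (s1 := false) (s2 := false) (a := 1) (b := 0) (c := 1) (cn := .npn) (n1 := ndF0q1) (n2 := ndF0q0) (pc := pcF1) (cut := cut_A00mm_101_s1) (xt := Ext.none) (P1 := 536870912) (W1 := 536870912) (P2 := 0) (W2 := 536870912) (P3 := 335544320) (W3 := 67108864)
    rfl k0_A00mm_101_s1

theorem s_A00mm_101_s1 {κ x : ℝ} (hκ : κ * h0 = ken x) (hx : ((335544320 : ℕ) : ℝ) / S ≤ x)
    (hx' : x ≤ (((335544320 : ℕ) : ℝ) + (67108864 : ℕ)) / S)
    (H : CutA (VF κ) PP tKF tL pcF (Cut.of [[⟨0, 1, 0, 67108864⟩, ⟨1, 0, 0, 67108864⟩, ⟨2, 1, 0, 67108864⟩]]) 1 0 1 0 0 (sgb false) (sgb false) x) :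
    AltA (VF κ) PP tKF tL pcF [⟨3, 0, 0, 1449551462⟩] 1 0 1 0 0 (sgb false) (sgb false) x :=
  strip_altA (m := 1449551462) true rfl hκ covF01 covF00 hx hx' c_A00mm_101_s1 H (noExt_A)

noncomputable def cut_A00mm_101_s3 : Cut := Cut.of [[⟨3, 0, 0, 2845415833⟩], [⟨0, 1, 0, 67108864⟩, ⟨1, 0, 0, 67108864⟩, ⟨2, 1, 0, 67108864⟩]]

noncomputable def f_A00mm_101_s3 : ℕ → ℕ → ℕ → ℕ → Bool := onCell 536870912 536870912 0 536870912 335544320 67108864
    (rowF 0 true false false .npn 1 0 1 (qsf 536870912 536870912 0 536870912 1) ndF0q1 ndF0q0 pcF1 cut_A00mm_101_s3 Ext.none)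

def k0_A00mm_101_s3 : ∃ t, chk3 f_A00mm_101_s3 t 1 1 1 = true :=
  ⟨(a (l 4) (b (a (l 4) (b (a (l 4) (b (a (l 4) (b (l 14) (l 4))) (l 4))) (l 4))) (l 4))), by decide +kernel⟩

theorem c_A00mm_101_s3 : CertF 536870912 536870912 0 536870912 335544320 67108864 true false false .npn 1 0 1
    ndF0q1 ndF0q0 pcF1 cut_A00mm_101_s3 Ext.none :=
  certF0 (fam := true) (s1 := false) (s2 := false) (a := 1) (b := 0) (c := 1) (cn := .npn) (n1 := ndF0q1) (n2 := ndF0q0) (pc := pcF1) (cut := cut_A00mm_101_s3) (xt := Ext.none) (P1 := 536870912) (W1 := 536870912) (P2 := 0) (W2 := 536870912) (P3 := 335544320) (W3 := 67108864)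
    rfl k0_A00mm_101_s3

theorem s_A00mm_101_s3 {κ x : ℝ} (hκ : κ * h0 = ken x) (hx : ((335544320 : ℕ) : ℝ) / S ≤ x)
    (hx' : x ≤ (((335544320 : ℕ) : ℝ) + (67108864 : ℕ)) / S)
    (H : CutA (VF κ) PP tKF tL pcF (Cut.of [[⟨0, 1, 0, 67108864⟩, ⟨1, 0, 0, 67108864⟩, ⟨2, 1, 0, 67108864⟩]]) 1 0 1 0 0 (sgb false) (sgb false) x) :
    AltA (VF κ) PP tKF tL pcF [⟨4, 0, 0, 2845415833⟩] 1 0 1 0 0 (sgb false) (sgb false) x :=
  strip_altA (m := 2845415833) false rfl hκ covF01 covF00 hx hx' c_A00mm_101_s3 H (noExt_A)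

noncomputable def cut_A00mm_102_s1 : Cut := Cut.of [[⟨4, 0, 0, 1449551462⟩], [⟨0, 1, 0, 67108864⟩, ⟨1, 0, 0, 67108864⟩, ⟨2, 1, 0, 67108864⟩]]

noncomputable def f_A00mm_102_s1 : ℕ → ℕ → ℕ → ℕ → Bool := onCell 536870912 536870912 0 536870912 335544320 67108864
    (rowF 0 true false false .npp 1 0 2 (qsf 536870912 536870912 0 536870912 2) ndF0q1 ndF0q0 pcF2 cut_A00mm_102_s1 Ext.none)

def k0_A00mm_102_s1 : ∃ t, chk3 f_A00mm_102_s1 t 1 1 1 = true :=
  ⟨(l 6), by decide +kernel⟩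

theorem c_A00mm_102_s1 : CertF 536870912 536870912 0 536870912 335544320 67108864 true false false .npp 1 0 2
    ndF0q1 ndF0q0 pcF2 cut_A00mm_102_s1 Ext.none :=
  certF0 (fam := true) (s1 := false) (s2 := false) (a := 1) (b := 0) (c := 2) (cn := .npp) (n1 := ndF0q1) (n2 := ndF0q0) (pc := pcF2) (cut := cut_A00mm_102_s1) (xt := Ext.none) (P1 := 536870912) (W1 := 536870912) (P2 := 0) (W2 := 536870912) (P3 := 335544320) (W3 := 67108864)
    rfl k0_A00mm_102_s1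

theorem s_A00mm_102_s1 {κ x : ℝ} (hκ : κ * h0 = ken x) (hx : ((335544320 : ℕ) : ℝ) / S ≤ x)
    (hx' : x ≤ (((335544320 : ℕ) : ℝ) + (67108864 : ℕ)) / S)
    (H : CutA (VF κ) PP tKF tL pcF (Cut.of [[⟨0, 1, 0, 67108864⟩, ⟨1, 0, 0, 67108864⟩, ⟨2, 1, 0, 67108864⟩]]) 1 0 2 0 0 (sgb false) (sgb false) x) :
    AltA (VF κ) PP tKF tL pcF [⟨3, 0, 0, 1449551462⟩] 1 0 2 0 0 (sgb false) (sgb false) x :=
  strip_altA (m := 1449551462) true rfl hκ covF01 covF00 hx hx' c_A00mm_102_s1 H (noExt_A)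

noncomputable def cut_A00mm_102_s3 : Cut := Cut.of [[⟨3, 0, 0, 2845415833⟩], [⟨0, 1, 0, 67108864⟩, ⟨1, 0, 0, 67108864⟩, ⟨2, 1, 0, 67108864⟩]]

noncomputable def f_A00mm_102_s3 : ℕ → ℕ → ℕ → ℕ → Bool := onCell 536870912 536870912 0 536870912 335544320 67108864
    (rowF 0 true false false .npp 1 0 2 (qsf 536870912 536870912 0 536870912 2) ndF0q1 ndF0q0 pcF2 cut_A00mm_102_s3 Ext.none)

def k0_A00mm_102_s3 : ∃ t, chk3 f_A00mm_102_s3 t 1 1 1 = true :=
  ⟨(a (l 4) (b (a (l 4) (b (a (l 4) (a (l 4) (b (b (l 14) (l 4)) (l 4)))) (l 4))) (l 4))), by decide +kernel⟩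

theorem c_A00mm_102_s3 : CertF 536870912 536870912 0 536870912 335544320 67108864 true false false .npp 1 0 2
    ndF0q1 ndF0q0 pcF2 cut_A00mm_102_s3 Ext.none :=
  certF0 (fam := true) (s1 := false) (s2 := false) (a := 1) (b := 0) (c := 2) (cn := .npp) (n1 := ndF0q1) (n2 := ndF0q0) (pc := pcF2) (cut := cut_A00mm_102_s3) (xt := Ext.none) (P1 := 536870912) (W1 := 536870912) (P2 := 0) (W2 := 536870912) (P3 := 335544320) (W3 := 67108864)
    rfl k0_A00mm_102_s3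

theorem s_A00mm_102_s3 {κ x : ℝ} (hκ : κ * h0 = ken x) (hx : ((335544320 : ℕ) : ℝ) / S ≤ x)
    (hx' : x ≤ (((335544320 : ℕ) : ℝ) + (67108864 : ℕ)) / S)
    (H : CutA (VF κ) PP tKF tL pcF (Cut.of [[⟨0, 1, 0, 67108864⟩, ⟨1, 0, 0, 67108864⟩, ⟨2, 1, 0, 67108864⟩]]) 1 0 2 0 0 (sgb false) (sgb false) x) :
    AltA (VF κ) PP tKF tL pcF [⟨4, 0, 0, 2845415833⟩] 1 0 2 0 0 (sgb false) (sgb false) x :=
  strip_altA (m := 2845415833) false rfl hκ covF01 covF00 hx hx' c_A00mm_102_s3 H (noExt_A)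

noncomputable def cut_A00mm_112_s1 : Cut := Cut.of [[⟨4, 0, 0, 1449551462⟩]]

noncomputable def f_A00mm_112_s1 : ℕ → ℕ → ℕ → ℕ → Bool := onCell 536870912 536870912 536870912 536870912 335544320 67108864
    (rowF 0 true false false .dn 1 1 2 (qsf 536870912 536870912 536870912 536870912 2) ndF0q1 ndF0q1 pcF2 cut_A00mm_112_s1 Ext.none)

def k0_A00mm_112_s1 : ∃ t, chk3 f_A00mm_112_s1 t 1 1 1 = true :=
  ⟨(l 4), by decide +kernel⟩

theorem c_A00mm_112_s1 : CertF 536870912 536870912 536870912 536870912 335544320 67108864 true false false .dn 1 1 2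
    ndF0q1 ndF0q1 pcF2 cut_A00mm_112_s1 Ext.none :=
  certF0 (fam := true) (s1 := false) (s2 := false) (a := 1) (b := 1) (c := 2) (cn := .dn) (n1 := ndF0q1) (n2 := ndF0q1) (pc := pcF2) (cut := cut_A00mm_112_s1) (xt := Ext.none) (P1 := 536870912) (W1 := 536870912) (P2 := 536870912) (W2 := 536870912) (P3 := 335544320) (W3 := 67108864)
    rfl k0_A00mm_112_s1

theorem s_A00mm_112_s1 {κ x : ℝ} (hκ : κ * h0 = ken x) (hx : ((335544320 : ℕ) : ℝ) / S ≤ x)
    (hx' : x ≤ (((335544320 : ℕ) : ℝ) + (67108864 : ℕ)) / S) :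
    AltA (VF κ) PP tKF tL pcF [⟨3, 0, 0, 1449551462⟩] 1 1 2 0 0 (sgb false) (sgb false) x :=
  strip_altA (m := 1449551462) true rfl hκ covF01 covF01 hx hx' c_A00mm_112_s1 cutA_nil (noExt_A)

noncomputable def cut_A00mm_112_s3 : Cut := Cut.of [[⟨3, 0, 0, 2845415833⟩]]

noncomputable def f_A00mm_112_s3 : ℕ → ℕ → ℕ → ℕ → Bool := onCell 536870912 536870912 536870912 536870912 335544320 67108864
    (rowF 0 true false false .dn 1 1 2 (qsf 536870912 536870912 536870912 536870912 2) ndF0q1 ndF0q1 pcF2 cut_A00mm_112_s3 Ext.none)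

def k0_A00mm_112_s3 : ∃ t, chk3 f_A00mm_112_s3 t 1 1 1 = true :=
  ⟨(l 4), by decide +kernel⟩

theorem c_A00mm_112_s3 : CertF 536870912 536870912 536870912 536870912 335544320 67108864 true false false .dn 1 1 2
    ndF0q1 ndF0q1 pcF2 cut_A00mm_112_s3 Ext.none :=
  certF0 (fam := true) (s1 := false) (s2 := false) (a := 1) (b := 1) (c := 2) (cn := .dn) (n1 := ndF0q1) (n2 := ndF0q1) (pc := pcF2) (cut := cut_A00mm_112_s3) (xt := Ext.none) (P1 := 536870912) (W1 := 536870912) (P2 := 536870912) (W2 := 536870912) (P3 := 335544320) (W3 := 67108864)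
    rfl k0_A00mm_112_s3

theorem s_A00mm_112_s3 {κ x : ℝ} (hκ : κ * h0 = ken x) (hx : ((335544320 : ℕ) : ℝ) / S ≤ x)
    (hx' : x ≤ (((335544320 : ℕ) : ℝ) + (67108864 : ℕ)) / S) :
    AltA (VF κ) PP tKF tL pcF [⟨4, 0, 0, 2845415833⟩] 1 1 2 0 0 (sgb false) (sgb false) x :=
  strip_altA (m := 2845415833) false rfl hκ covF01 covF01 hx hx' c_A00mm_112_s3 cutA_nil (noExt_A)

noncomputable def cut_A00mm_113_s1 : Cut := Cut.of [[⟨4, 0, 0, 1449551462⟩]]

noncomputable def f_A00mm_113_s1 : ℕ → ℕ → ℕ → ℕ → Bool := onCell 536870912 536870912 536870912 536870912 335544320 67108864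
    (rowF 0 true false false .nn 1 1 3 (qsf 536870912 536870912 536870912 536870912 3) ndF0q1 ndF0q1 pcF3 cut_A00mm_113_s1 Ext.none)

def k0_A00mm_113_s1 : ∃ t, chk3 f_A00mm_113_s1 t 1 1 1 = true :=
  ⟨(l 4), by decide +kernel⟩

theorem c_A00mm_113_s1 : CertF 536870912 536870912 536870912 536870912 335544320 67108864 true false false .nn 1 1 3
    ndF0q1 ndF0q1 pcF3 cut_A00mm_113_s1 Ext.none :=
  certF0 (fam := true) (s1 := false) (s2 := false) (a := 1) (b := 1) (c := 3) (cn := .nn) (n1 := ndF0q1) (n2 := ndF0q1) (pc := pcF3) (cut := cut_A00mm_113_s1) (xt := Ext.none) (P1 := 536870912) (W1 := 536870912) (P2 := 536870912) (W2 := 536870912) (P3 := 335544320) (W3 := 67108864)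
    rfl k0_A00mm_113_s1

theorem s_A00mm_113_s1 {κ x : ℝ} (hκ : κ * h0 = ken x) (hx : ((335544320 : ℕ) : ℝ) / S ≤ x)
    (hx' : x ≤ (((335544320 : ℕ) : ℝ) + (67108864 : ℕ)) / S) :
    AltA (VF κ) PP tKF tL pcF [⟨3, 0, 0, 1449551462⟩] 1 1 3 0 0 (sgb false) (sgb false) x :=
  strip_altA (m := 1449551462) true rfl hκ covF01 covF01 hx hx' c_A00mm_113_s1 cutA_nil (noExt_A)

noncomputable def cut_A00mm_113_s3 : Cut := Cut.of [[⟨3, 0, 0, 2845415833⟩]]

noncomputable def f_A00mm_113_s3 : ℕ → ℕ → ℕ → ℕ → Bool := onCell 536870912 536870912 536870912 536870912 335544320 67108864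
    (rowF 0 true false false .nn 1 1 3 (qsf 536870912 536870912 536870912 536870912 3) ndF0q1 ndF0q1 pcF3 cut_A00mm_113_s3 Ext.none)

def k0_A00mm_113_s3 : ∃ t, chk3 f_A00mm_113_s3 t 1 1 1 = true :=
  ⟨(l 4), by decide +kernel⟩

theorem c_A00mm_113_s3 : CertF 536870912 536870912 536870912 536870912 335544320 67108864 true false false .nn 1 1 3
    ndF0q1 ndF0q1 pcF3 cut_A00mm_113_s3 Ext.none :=
  certF0 (fam := true) (s1 := false) (s2 := false) (a := 1) (b := 1) (c := 3) (cn := .nn) (n1 := ndF0q1) (n2 := ndF0q1) (pc := pcF3) (cut := cut_A00mm_113_s3) (xt := Ext.none) (P1 := 536870912) (W1 := 536870912) (P2 := 536870912) (W2 := 536870912) (P3 := 335544320) (W3 := 67108864)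
    rfl k0_A00mm_113_s3

theorem s_A00mm_113_s3 {κ x : ℝ} (hκ : κ * h0 = ken x) (hx : ((335544320 : ℕ) : ℝ) / S ≤ x)
    (hx' : x ≤ (((335544320 : ℕ) : ℝ) + (67108864 : ℕ)) / S) :
    AltA (VF κ) PP tKF tL pcF [⟨4, 0, 0, 2845415833⟩] 1 1 3 0 0 (sgb false) (sgb false) x :=
  strip_altA (m := 2845415833) false rfl hκ covF01 covF01 hx hx' c_A00mm_113_s3 cutA_nil (noExt_A)

noncomputable def cut_A00mm_123_s1 : Cut := Cut.of [[⟨4, 0, 0, 1449551462⟩]]

noncomputable def f_A00mm_123_s1 : ℕ → ℕ → ℕ → ℕ → Bool := onCell 536870912 536870912 0 536870912 335544320 67108864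
    (rowF 0 true false false .npn 1 2 3 (qsf 536870912 536870912 0 536870912 3) ndF0q1 ndF0q2 pcF3 cut_A00mm_123_s1 Ext.none)

def k0_A00mm_123_s1 : ∃ t, chk3 f_A00mm_123_s1 t 1 1 1 = true :=
  ⟨(l 6), by decide +kernel⟩

theorem c_A00mm_123_s1 : CertF 536870912 536870912 0 536870912 335544320 67108864 true false false .npn 1 2 3
    ndF0q1 ndF0q2 pcF3 cut_A00mm_123_s1 Ext.none :=
  certF0 (fam := true) (s1 := false) (s2 := false) (a := 1) (b := 2) (c := 3) (cn := .npn) (n1 := ndF0q1) (n2 := ndF0q2) (pc := pcF3) (cut := cut_A00mm_123_s1) (xt := Ext.none) (P1 := 536870912) (W1 := 536870912) (P2 := 0) (W2 := 536870912) (P3 := 335544320) (W3 := 67108864)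
    rfl k0_A00mm_123_s1

theorem s_A00mm_123_s1 {κ x : ℝ} (hκ : κ * h0 = ken x) (hx : ((335544320 : ℕ) : ℝ) / S ≤ x)
    (hx' : x ≤ (((335544320 : ℕ) : ℝ) + (67108864 : ℕ)) / S) :
    AltA (VF κ) PP tKF tL pcF [⟨3, 0, 0, 1449551462⟩] 1 2 3 0 0 (sgb false) (sgb false) x :=
  strip_altA (m := 1449551462) true rfl hκ covF01 covF02 hx hx' c_A00mm_123_s1 cutA_nil (noExt_A)

noncomputable def cut_A00mm_123_s3 : Cut := Cut.of [[⟨3, 0, 0, 2845415833⟩]]

noncomputable def f_A00mm_123_s3 : ℕ → ℕ → ℕ → ℕ → Bool := onCell 536870912 536870912 0 536870912 335544320 67108864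
    (rowF 0 true false false .npn 1 2 3 (qsf 536870912 536870912 0 536870912 3) ndF0q1 ndF0q2 pcF3 cut_A00mm_123_s3 Ext.none)

def k0_A00mm_123_s3 : ∃ t, chk3 f_A00mm_123_s3 t 1 1 1 = true :=
  ⟨(a (l 5) (l 4)), by decide +kernel⟩

theorem c_A00mm_123_s3 : CertF 536870912 536870912 0 536870912 335544320 67108864 true false false .npn 1 2 3
    ndF0q1 ndF0q2 pcF3 cut_A00mm_123_s3 Ext.none :=
  certF0 (fam := true) (s1 := false) (s2 := false) (a := 1) (b := 2) (c := 3) (cn := .npn) (n1 := ndF0q1) (n2 := ndF0q2) (pc := pcF3) (cut := cut_A00mm_123_s3) (xt := Ext.none) (P1 := 536870912) (W1 := 536870912) (P2 := 0) (W2 := 536870912) (P3 := 335544320) (W3 := 67108864)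
    rfl k0_A00mm_123_s3

theorem s_A00mm_123_s3 {κ x : ℝ} (hκ : κ * h0 = ken x) (hx : ((335544320 : ℕ) : ℝ) / S ≤ x)
    (hx' : x ≤ (((335544320 : ℕ) : ℝ) + (67108864 : ℕ)) / S) :
    AltA (VF κ) PP tKF tL pcF [⟨4, 0, 0, 2845415833⟩] 1 2 3 0 0 (sgb false) (sgb false) x :=
  strip_altA (m := 2845415833) false rfl hκ covF01 covF02 hx hx' c_A00mm_123_s3 cutA_nil (noExt_A)

noncomputable def cut_A00mm_202_s1 : Cut := Cut.of [[⟨4, 0, 0, 1449551462⟩], [⟨0, 1, 0, 67108864⟩, ⟨1, 0, 0, 67108864⟩, ⟨2, 1, 0, 67108864⟩]]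

noncomputable def f_A00mm_202_s1 : ℕ → ℕ → ℕ → ℕ → Bool := onCell 0 536870912 0 536870912 335544320 67108864
    (rowF 0 true false false .pp 2 0 2 (qsf 0 536870912 0 536870912 2) ndF0q2 ndF0q0 pcF2 cut_A00mm_202_s1 Ext.none)

def k0_A00mm_202_s1 : ∃ t, chk3 f_A00mm_202_s1 t 1 1 1 = true :=
  ⟨(l 6), by decide +kernel⟩

theorem c_A00mm_202_s1 : CertF 0 536870912 0 536870912 335544320 67108864 true false false .pp 2 0 2
    ndF0q2 ndF0q0 pcF2 cut_A00mm_202_s1 Ext.none :=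
  certF0 (fam := true) (s1 := false) (s2 := false) (a := 2) (b := 0) (c := 2) (cn := .pp) (n1 := ndF0q2) (n2 := ndF0q0) (pc := pcF2) (cut := cut_A00mm_202_s1) (xt := Ext.none) (P1 := 0) (W1 := 536870912) (P2 := 0) (W2 := 536870912) (P3 := 335544320) (W3 := 67108864)
    rfl k0_A00mm_202_s1

theorem s_A00mm_202_s1 {κ x : ℝ} (hκ : κ * h0 = ken x) (hx : ((335544320 : ℕ) : ℝ) / S ≤ x)
    (hx' : x ≤ (((335544320 : ℕ) : ℝ) + (67108864 : ℕ)) / S)
    (H : CutA (VF κ) PP tKF tL pcF (Cut.of [[⟨0, 1, 0, 67108864⟩, ⟨1, 0, 0, 67108864⟩, ⟨2, 1, 0, 67108864⟩]]) 2 0 2 0 0 (sgb false) (sgb false) x) :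
    AltA (VF κ) PP tKF tL pcF [⟨3, 0, 0, 1449551462⟩] 2 0 2 0 0 (sgb false) (sgb false) x :=
  strip_altA (m := 1449551462) true rfl hκ covF02 covF00 hx hx' c_A00mm_202_s1 H (noExt_A)

noncomputable def cut_A00mm_202_s3 : Cut := Cut.of [[⟨3, 0, 0, 2845415833⟩], [⟨0, 1, 0, 67108864⟩, ⟨1, 0, 0, 67108864⟩, ⟨2, 1, 0, 67108864⟩]]

noncomputable def xt_A00mm_202_s3 : Ext := strExt dd true false false .u2 .u0m .s2m .pp 2 0 2 rfl rfl gl2 vv ndF0q2 ndF0q0

noncomputable def f_A00mm_202_s3 : ℕ → ℕ → ℕ → ℕ → Bool := onCell 0 536870912 0 536870912 335544320 67108864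
    (rowF 0 true false false .pp 2 0 2 (qsf 0 536870912 0 536870912 2) ndF0q2 ndF0q0 pcF2 cut_A00mm_202_s3 xt_A00mm_202_s3)

def k0_A00mm_202_s3 : ∃ t, chk3 f_A00mm_202_s3 t 2 2 1 = true :=
  ⟨(b (b (l 6) (a (l 6) (a (l 6) (b (l 16613496) (l 16677296))))) (a (b (l 6) (a (l 6) (b (l 6) (l 16791696)))) (a (b (b (l 6) (l 16695432)) (b (l 16730912) (l 16812296))) (b (b (l 16717528) (a (l 16689808) (l 16776648))) (a (b (l 16722128) (l 16747744)) (b (l 16744336) (b (l 16741808) (l 16752160)))))))), by decide +kernel⟩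

def k1_A00mm_202_s3 : ∃ t, chk3 f_A00mm_202_s3 t 6 4 1 = true :=
  ⟨(b (a (a (b (l 6) (l 16643472)) (b (b (b (l 6) (l 16620464)) (l 16623464)) (b (l 16627744) (l 16632400)))) (a (b (b (b (a (l 16634896) (l 16645800)) (l 16643296)) (b (l 16646216) (l 16649192))) (b (l 16685224) (l 16702200))) (b (b (b (a (l 16656864) (b (l 16667232) (l 16669136))) (a (l 16660328) (l 16672008))) (a (b (l 16663840) (l 16667416)) (b (l 16675888) (l 16679824)))) (a (b (l 16672904) (l 16680584)) (b (l 16706816) (l 16694240)))))) (a (b (a (l 16649272) (b (l 16721400) (l 16643184))) (a (l 16713528) (l 16694768))) (a (b (b (l 16709160) (l 16716704)) (b (l 16724912) (l 16733896))) (a (b (b (l 16688736) (l 16697456)) (b (l 16748800) (l 16758968))) (b (b (l 16703096) (l 16733496)) (b (l 16743576) (l 16754424))))))), by decide +kernel⟩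

def k2_A00mm_202_s3 : ∃ t, chk3 f_A00mm_202_s3 t 7 16 1 = true :=
  ⟨(a (a (a (b (b (b (l 16699712) (l 16680816)) (b (l 16682904) (l 16684992))) (b (l 16709120) (l 16692424))) (b (b (a (b (l 16687552) (l 16689744)) (b (l 16693552) (l 16695824))) (b (c (l 16697824) (l 16692264)) (l 16718256))) (b (b (l 16699552) (l 16701824)) (a (l 16702008) (l 16708488))))) (a (b (a (b (b (l 14) (l 16701984)) (b (l 16704336) (l 16706696))) (b (l 14) (b (l 16710664) (l 16713088)))) (a (b (b (l 16709064) (l 16711448)) (l 16715040)) (b (b (l 16715528) (l 16717976)) (b (l 16720440) (l 16722920))))) (b (a (b (l 14) (b (l 14) (l 16730064))) (l 14)) (a (b (b (l 16722080) (l 16724592)) (b (l 16727120) (l 16729656))) (b (b (l 14) (l 16741792)) (b (l 16733896) (l 16736488))))))) (a (a (b (l 14) (b (l 14) (b (a (c (l 16741976) (l 16739552)) (l 14)) (a (b (l 16742752) (l 16744088)) (a (l 16748672) (l 16757456)))))) (l 14)) (l 14))), by decide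 +kernel⟩

def k3_A00mm_202_s3 : ∃ t, chk3 f_A00mm_202_s3 t 7 17 1 = true :=
  ⟨(a (a (b (a (b (l 16696768) (l 16701192)) (b (a (l 16706584) (l 16713208)) (l 16735600))) (a (b (l 16705720) (l 16710352)) (b (l 16740424) (l 16745344)))) (a (a (b (b (l 16719896) (l 16724832)) (b (l 16729856) (l 16734984))) (b (b (l 16726656) (l 16731720)) (b (l 16736872) (l 16742128)))) (a (a (b (b (l 16731776) (l 16736928)) (l 533991439)) (b (b (l 16735216) (l 16740432)) (l 534251791))) (b (b (b (l 16739104) (l 16741736)) (b (l 16744384) (l 16747056))) (b (b (l 16760232) (l 16757704)) (b (l 16760440) (l 535014415))))))) (b (a (a (a (b (a (b (l 16744328) (l 16747000)) (b (l 16747840) (l 16750536))) (a (l 534274319) (l 534532367))) (a (b (b (l 16751384) (l 16754104)) (b (l 16756848) (l 16764848))) (b (b (l 16760192) (l 534799631)) (a (l 533979151) (l 533973775))))) (a (a (a (b (l 533993999) (l 533968399)) (b (l 533988111) (l 533962767)))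 (a (b (l 534250511) (l 533957135)) (b (b (l 14) (l 533970191)) (l 533951503)))) (a (a (b (b (l 14) (l 533964047)) (l 534214159)) (b (a (l 533966095) (l 14)) (l 534476559))) (b (l 14) (a (a (l 533936399) (l 533933583)) (a (l 533930511) (l 533927695))))))) (b (l 14) (b (b (l 14) (b (l 14) (l 4))) (l 4)))) (a (a (a (a (a (l 533961999) (l 533957647)) (b (l 534233871) (l 533933327))) (a (b (l 534760975) (l 534461455)) (b (a (l 533950479) (l 533945615)) (l 534720527)))) (a (a (b (a (l 533940495) (l 533935375)) (a (l 533910799) (l 533906191))) (a (a (l 533917711) (l 533915151)) (a (l 534181135) (l 534178575)))) (a (b (a (l 533919503) (l 533914127)) (l 4)) (l 4)))) (l 4)))), by decide +kernel⟩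

def k4_A00mm_202_s3 : ∃ t, chk3 f_A00mm_202_s3 t 7 9 1 = true :=
  ⟨(b (a (a (a (a (l 534720271) (b (l 16721096) (l 16752272))) (a (b (l 16749296) (l 16749304)) (b (l 533942031) (l 533847567)))) (a (a (b (l 534468623) (l 534109199)) (b (l 534994191) (l 534369807))) (a (b (a (l 533914639) (l 533908495)) (l 534897423)) (a (b (l 533902095) (l 533820943)) (b (l 534163727) (l 533815823)))))) (a (a (a (a (b (l 534425359) (l 533810703)) (b (b (l 533899279) (l 533863439)) (l 4))) (b (a (b (l 534159631) (l 533856271)) (b (l 534688271) (l 4))) (l 4))) (l 4)) (l 4))) (a (a (a (b (l 534816783) (a (l 533623311) (l 533627151))) (a (b (l 533746191) (l 533629711)) (l 534761231))) (a (a (b (l 533741071) (l 533900815)) (b (l 534273807) (l 534169103))) (a (a (l 534222351) (l 534489103)) (l 4)))) (l 4))), by decide +kernel⟩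

def k5_A00mm_202_s3 : ∃ t, chk3 f_A00mm_202_s3 t 3 5 1 = true :=
  ⟨(b (a (a (a (b (l 16709312) (l 16743512)) (b (b (l 16759176) (l 16776528)) (b (l 16750960) (l 16745264)))) (a (a (b (l 533722895) (l 534011151)) (b (l 533607951) (l 533557519))) (a (b (l 533904911) (l 533374223)) (b (b (l 533470479) (l 533316623)) (l 533726479))))) (a (a (a (b (b (l 534293007) (l 533611535)) (l 534443023)) (b (a (b (l 533503247) (l 533366287)) (b (l 533509391) (l 4))) (l 4))) (l 4)) (l 4))) (a (a (a (b (b (l 16723848) (l 16778856)) (a (l 535328271) (l 535373839))) (b (a (l 534512911) (l 535414287)) (l 535577615))) (a (b (a (l 535145231) (l 534948111)) (a (l 534427151) (l 4))) (b (a (l 533676047) (l 4)) (l 4)))) (l 4))), by decide +kernel⟩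

def k6_A00mm_202_s3 : ∃ t, chk3 f_A00mm_202_s3 t 1 3 1 = true :=
  ⟨(b (b (a (a (a (b (l 6) (l 16917576)) (b (l 16871888) (a (l 16876136) (l 16851080)))) (a (a (b (l 16801912) (l 16828688)) (b (l 16787368) (l 538065167))) (b (a (l 537105423) (b (l 16764208) (l 536753935))) (a (l 537821711) (l 537534479))))) (a (a (a (b (a (b (l 16786296) (l 536410639)) (b (l 535501583) (a (l 536268303) (l 536135695)))) (a (l 537281807) (a (l 537139983) (l 537029135)))) (b (a (l 535566607) (l 535230223)) (l 4))) (l 4)) (l 4))) (a (a (b (a (l 16936184) (a (l 16889248) (l 16860720))) (a (l 15670112759) (a (l 16885904) (l 26944301527)))) (a (a (b (l 538661135) (b (l 16829792) (l 16802032))) (b (l 538754063) (a (l 539302927) (l 539225359)))) (a (b (l 538559503) (l 539103247)) (b (l 538336527) (l 538925327))))) (a (a (l 4) (l 4)) (l 4)))) (a (a (l 2) (a (l 2) (a (l 2) (l 4)))) (l 4))), by decide +kernel⟩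

theorem t7_A00mm_202_s3 : ∃ t, chk3 f_A00mm_202_s3 t 7 8 1 = true := ex3_b k2_A00mm_202_s3 k3_A00mm_202_s3

theorem t8_A00mm_202_s3 : ∃ t, chk3 f_A00mm_202_s3 t 7 4 1 = true := ex3_b t7_A00mm_202_s3 k4_A00mm_202_s3

theorem t9_A00mm_202_s3 : ∃ t, chk3 f_A00mm_202_s3 t 3 4 1 = true := ex3_a k1_A00mm_202_s3 t8_A00mm_202_s3

theorem t10_A00mm_202_s3 : ∃ t, chk3 f_A00mm_202_s3 t 3 2 1 = true := ex3_b t9_A00mm_202_s3 k5_A00mm_202_s3

theorem t11_A00mm_202_s3 : ∃ t, chk3 f_A00mm_202_s3 t 1 2 1 = true := ex3_a k0_A00mm_202_s3 t10_A00mm_202_s3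

theorem t12_A00mm_202_s3 : ∃ t, chk3 f_A00mm_202_s3 t 1 1 1 = true := ex3_b t11_A00mm_202_s3 k6_A00mm_202_s3

theorem c_A00mm_202_s3 : CertF 0 536870912 0 536870912 335544320 67108864 true false false .pp 2 0 2
    ndF0q2 ndF0q0 pcF2 cut_A00mm_202_s3 xt_A00mm_202_s3 :=
  certF0 (fam := true) (s1 := false) (s2 := false) (a := 2) (b := 0) (c := 2) (cn := .pp) (n1 := ndF0q2) (n2 := ndF0q0) (pc := pcF2) (cut := cut_A00mm_202_s3) (xt := xt_A00mm_202_s3) (P1 := 0) (W1 := 536870912) (P2 := 0) (W2 := 536870912) (P3 := 335544320) (W3 := 67108864)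
    rfl t12_A00mm_202_s3

theorem s_A00mm_202_s3 {κ x : ℝ} (hκ : κ * h0 = ken x) (hx : ((335544320 : ℕ) : ℝ) / S ≤ x)
    (hx' : x ≤ (((335544320 : ℕ) : ℝ) + (67108864 : ℕ)) / S)
    (H : CutA (VF κ) PP tKF tL pcF (Cut.of [[⟨0, 1, 0, 67108864⟩, ⟨1, 0, 0, 67108864⟩, ⟨2, 1, 0, 67108864⟩]]) 2 0 2 0 0 (sgb false) (sgb false) x) :
    AltA (VF κ) PP tKF tL pcF [⟨4, 0, 0, 2845415833⟩] 2 0 2 0 0 (sgb false) (sgb false) x :=
  strip_altA (m := 2845415833) false rfl hκ covF02 covF00 hx hx' c_A00mm_202_s3 H ((okx hx hx').extA (T := tt) (sideF hx hx') hκ rfl rfl (.O 2 false) (.O 0 false) (Or.inl rfl))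

noncomputable def cut_A00mm_203_s1 : Cut := Cut.of [[⟨4, 0, 0, 1449551462⟩]]

noncomputable def f_A00mm_203_s1 : ℕ → ℕ → ℕ → ℕ → Bool := onCell 0 536870912 0 536870912 335544320 67108864
    (rowF 0 true false false .up 2 0 3 (qsf 0 536870912 0 536870912 3) ndF0q2 ndF0q0 pcF3 cut_A00mm_203_s1 Ext.none)

def k0_A00mm_203_s1 : ∃ t, chk3 f_A00mm_203_s1 t 1 1 1 = true :=
  ⟨(l 6), by decide +kernel⟩

theorem c_A00mm_203_s1 : CertF 0 536870912 0 536870912 335544320 67108864 true false false .up 2 0 3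
    ndF0q2 ndF0q0 pcF3 cut_A00mm_203_s1 Ext.none :=
  certF0 (fam := true) (s1 := false) (s2 := false) (a := 2) (b := 0) (c := 3) (cn := .up) (n1 := ndF0q2) (n2 := ndF0q0) (pc := pcF3) (cut := cut_A00mm_203_s1) (xt := Ext.none) (P1 := 0) (W1 := 536870912) (P2 := 0) (W2 := 536870912) (P3 := 335544320) (W3 := 67108864)
    rfl k0_A00mm_203_s1

theorem s_A00mm_203_s1 {κ x : ℝ} (hκ : κ * h0 = ken x) (hx : ((335544320 : ℕ) : ℝ) / S ≤ x)
    (hx' : x ≤ (((335544320 : ℕ) : ℝ) + (67108864 : ℕ)) / S) :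
    AltA (VF κ) PP tKF tL pcF [⟨3, 0, 0, 1449551462⟩] 2 0 3 0 0 (sgb false) (sgb false) x :=
  strip_altA (m := 1449551462) true rfl hκ covF02 covF00 hx hx' c_A00mm_203_s1 cutA_nil (noExt_A)

noncomputable def cut_A00mm_203_s3 : Cut := Cut.of [[⟨3, 0, 0, 2845415833⟩]]

noncomputable def xt_A00mm_203_s3 : Ext := strExt dd true false false .u2 .u0m .s2m .up 2 0 3 rfl rfl gl3 vv ndF0q2 ndF0q0

noncomputable def f_A00mm_203_s3 : ℕ → ℕ → ℕ → ℕ → Bool := onCell 0 536870912 1610612736 536870912 335544320 67108864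
    (rowF 1 true false false .up 2 0 3 (qsf 0 536870912 0 536870912 3) ndF0q2 ndF0q0 pcF3 cut_A00mm_203_s3 xt_A00mm_203_s3)

def k0_A00mm_203_s3 : ∃ t, chk3 f_A00mm_203_s3 t 1 1 1 = true :=
  ⟨(a (b (a (b (b (a (b (a (l 16825136) (l 16818256)) (l 16826920)) (a (b (l 16810376) (l 16811416)) (b (b (l 16800856) (l 16801648)) (b (l 16800568) (l 16797872))))) (a (a (b (l 16830912) (l 16824368)) (b (l 16819104) (b (l 16813152) (l 16807776)))) (a (b (b (l 16807792) (l 16803656)) (a (l 538524431) (l 538548751))) (b (b (l 538313231) (l 538432271)) (a (l 538570767) (l 538595855)))))) (b (a (b (a (b (l 16816472) (l 16810104)) (b (l 16780520) (l 538634511))) (l 2)) (b (a (a (b (l 538638607) (l 538702095)) (b (l 538666255) (l 538729487))) (b (l 538699535) (l 4))) (l 2))) (l 2))) (b (b (a (a (b (b (l 16792216) (a (l 16793904) (l 16788536))) (b (l 538058511) (l 538209039))) (b (a (l 537810703) (l 537815055)) (b (a (l 538074639)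 (l 538084367)) (a (l 538228239) (l 4))))) (b (a (l 537818895) (l 4)) (l 4))) (a (a (b (l 538406671) (l 4)) (l 4)) (l 4))) (l 4))) (l 2)) (b (l 4) (l 2))), by decide +kernel⟩

theorem c_A00mm_203_s3 : CertF 0 536870912 0 536870912 335544320 67108864 true false false .up 2 0 3
    ndF0q2 ndF0q0 pcF3 cut_A00mm_203_s3 xt_A00mm_203_s3 :=
  certF1 (fam := true) (s1 := false) (s2 := false) (a := 2) (b := 0) (c := 3) (cn := .up) (n1 := ndF0q2) (n2 := ndF0q0) (pc := pcF3) (cut := cut_A00mm_203_s3) (xt := xt_A00mm_203_s3) (P1 := 0) (W1 := 536870912) (P2 := 0) (W2 := 536870912) (P3 := 335544320) (W3 := 67108864)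
    rfl (fun _ => rfl) k0_A00mm_203_s3

theorem s_A00mm_203_s3 {κ x : ℝ} (hκ : κ * h0 = ken x) (hx : ((335544320 : ℕ) : ℝ) / S ≤ x)
    (hx' : x ≤ (((335544320 : ℕ) : ℝ) + (67108864 : ℕ)) / S) :
    AltA (VF κ) PP tKF tL pcF [⟨4, 0, 0, 2845415833⟩] 2 0 3 0 0 (sgb false) (sgb false) x :=
  strip_altA (m := 2845415833) false rfl hκ covF02 covF00 hx hx' c_A00mm_203_s3 cutA_nil ((okx hx hx').extA (T := tt) (sideF hx hx') hκ rfl rfl (.O 2 false) (.O 0 false) (Or.inr rfl))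

noncomputable def cut_A00mm_213_s1 : Cut := Cut.of [[⟨4, 0, 0, 1449551462⟩]]

noncomputable def f_A00mm_213_s1 : ℕ → ℕ → ℕ → ℕ → Bool := onCell 0 536870912 536870912 536870912 335544320 67108864
    (rowF 0 true false false .pnn 2 1 3 (qsf 0 536870912 536870912 536870912 3) ndF0q2 ndF0q1 pcF3 cut_A00mm_213_s1 Ext.none)

def k0_A00mm_213_s1 : ∃ t, chk3 f_A00mm_213_s1 t 1 1 1 = true :=
  ⟨(l 6), by decide +kernel⟩

theorem c_A00mm_213_s1 : CertF 0 536870912 536870912 536870912 335544320 67108864 true false false .pnn 2 1 3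
    ndF0q2 ndF0q1 pcF3 cut_A00mm_213_s1 Ext.none :=
  certF0 (fam := true) (s1 := false) (s2 := false) (a := 2) (b := 1) (c := 3) (cn := .pnn) (n1 := ndF0q2) (n2 := ndF0q1) (pc := pcF3) (cut := cut_A00mm_213_s1) (xt := Ext.none) (P1 := 0) (W1 := 536870912) (P2 := 536870912) (W2 := 536870912) (P3 := 335544320) (W3 := 67108864)
    rfl k0_A00mm_213_s1

theorem s_A00mm_213_s1 {κ x : ℝ} (hκ : κ * h0 = ken x) (hx : ((335544320 : ℕ) : ℝ) / S ≤ x)
    (hx' : x ≤ (((335544320 : ℕ) : ℝ) + (67108864 : ℕ)) / S) :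
    AltA (VF κ) PP tKF tL pcF [⟨3, 0, 0, 1449551462⟩] 2 1 3 0 0 (sgb false) (sgb false) x :=
  strip_altA (m := 1449551462) true rfl hκ covF02 covF01 hx hx' c_A00mm_213_s1 cutA_nil (noExt_A)

noncomputable def cut_A00mm_213_s3 : Cut := Cut.of [[⟨3, 0, 0, 2845415833⟩]]

noncomputable def xt_A00mm_213_s3 : Ext := strExt dd true false false .u2 .u0m .s2m .pnn 2 1 3 rfl rfl gl3 vv ndF0q2 ndF0q1

noncomputable def f_A00mm_213_s3 : ℕ → ℕ → ℕ → ℕ → Bool := onCell 0 536870912 536870912 536870912 335544320 67108864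
    (rowF 0 true false false .pnn 2 1 3 (qsf 0 536870912 536870912 536870912 3) ndF0q2 ndF0q1 pcF3 cut_A00mm_213_s3 xt_A00mm_213_s3)

def k0_A00mm_213_s3 : ∃ t, chk3 f_A00mm_213_s3 t 1 1 1 = true :=
  ⟨(a (b (b (a (b (a (b (a (b (l 16803904) (l 538633487)) (l 538680847)) (a (b (l 539725327) (l 538704655)) (b (a (l 538691599) (l 4)) (l 4)))) (b (a (a (l 538738959) (l 4)) (l 4)) (l 4))) (a (a (b (l 538755087) (l 4)) (l 4)) (l 4))) (l 4)) (l 4)) (l 4)) (l 4)), by decide +kernel⟩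

theorem c_A00mm_213_s3 : CertF 0 536870912 536870912 536870912 335544320 67108864 true false false .pnn 2 1 3
    ndF0q2 ndF0q1 pcF3 cut_A00mm_213_s3 xt_A00mm_213_s3 :=
  certF0 (fam := true) (s1 := false) (s2 := false) (a := 2) (b := 1) (c := 3) (cn := .pnn) (n1 := ndF0q2) (n2 := ndF0q1) (pc := pcF3) (cut := cut_A00mm_213_s3) (xt := xt_A00mm_213_s3) (P1 := 0) (W1 := 536870912) (P2 := 536870912) (W2 := 536870912) (P3 := 335544320) (W3 := 67108864)
    rfl k0_A00mm_213_s3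

theorem s_A00mm_213_s3 {κ x : ℝ} (hκ : κ * h0 = ken x) (hx : ((335544320 : ℕ) : ℝ) / S ≤ x)
    (hx' : x ≤ (((335544320 : ℕ) : ℝ) + (67108864 : ℕ)) / S) :
    AltA (VF κ) PP tKF tL pcF [⟨4, 0, 0, 2845415833⟩] 2 1 3 0 0 (sgb false) (sgb false) x :=
  strip_altA (m := 2845415833) false rfl hκ covF02 covF01 hx hx' c_A00mm_213_s3 cutA_nil ((okx hx hx').extA (T := tt) (sideF hx hx') hκ rfl rfl (.O 2 false) (.O 1 false) (Or.inr rfl))

noncomputable def cut_A04pp_001_s1 : Cut := Cut.of [[⟨4, 0, 0, 1449551462⟩]]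

noncomputable def f_A04pp_001_s1 : ℕ → ℕ → ℕ → ℕ → Bool := onCell 0 536870912 0 536870912 335544320 67108864
    (rowF 0 true true true .up 0 0 1 (qsf 0 536870912 0 536870912 1) ndF0q0 ndF4q0 pcF1 cut_A04pp_001_s1 Ext.none)

def k0_A04pp_001_s1 : ∃ t, chk3 f_A04pp_001_s1 t 1 1 1 = true :=
  ⟨(l 4), by decide +kernel⟩

theorem c_A04pp_001_s1 : CertF 0 536870912 0 536870912 335544320 67108864 true true true .up 0 0 1
    ndF0q0 ndF4q0 pcF1 cut_A04pp_001_s1 Ext.none :=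
  certF0 (fam := true) (s1 := true) (s2 := true) (a := 0) (b := 0) (c := 1) (cn := .up) (n1 := ndF0q0) (n2 := ndF4q0) (pc := pcF1) (cut := cut_A04pp_001_s1) (xt := Ext.none) (P1 := 0) (W1 := 536870912) (P2 := 0) (W2 := 536870912) (P3 := 335544320) (W3 := 67108864)
    rfl k0_A04pp_001_s1

theorem s_A04pp_001_s1 {κ x : ℝ} (hκ : κ * h0 = ken x) (hx : ((335544320 : ℕ) : ℝ) / S ≤ x)
    (hx' : x ≤ (((335544320 : ℕ) : ℝ) + (67108864 : ℕ)) / S) :
    AltA (VF κ) PP tKF tL pcF [⟨3, 0, 0, 1449551462⟩] 0 0 1 0 4 (sgb true) (sgb true) x :=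
  strip_altA (m := 1449551462) true rfl hκ covF00 covF40 hx hx' c_A04pp_001_s1 cutA_nil (noExt_A)

noncomputable def cut_A04pp_011_s1 : Cut := Cut.of [[⟨4, 0, 0, 1449551462⟩]]

noncomputable def f_A04pp_011_s1 : ℕ → ℕ → ℕ → ℕ → Bool := onCell 0 536870912 536870912 536870912 335544320 67108864
    (rowF 0 true true true .pnn 0 1 1 (qsf 0 536870912 536870912 536870912 1) ndF0q0 ndF4q1 pcF1 cut_A04pp_011_s1 Ext.none)

def k0_A04pp_011_s1 : ∃ t, chk3 f_A04pp_011_s1 t 1 1 1 = true :=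
  ⟨(l 4), by decide +kernel⟩

theorem c_A04pp_011_s1 : CertF 0 536870912 536870912 536870912 335544320 67108864 true true true .pnn 0 1 1
    ndF0q0 ndF4q1 pcF1 cut_A04pp_011_s1 Ext.none :=
  certF0 (fam := true) (s1 := true) (s2 := true) (a := 0) (b := 1) (c := 1) (cn := .pnn) (n1 := ndF0q0) (n2 := ndF4q1) (pc := pcF1) (cut := cut_A04pp_011_s1) (xt := Ext.none) (P1 := 0) (W1 := 536870912) (P2 := 536870912) (W2 := 536870912) (P3 := 335544320) (W3 := 67108864)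
    rfl k0_A04pp_011_s1

theorem s_A04pp_011_s1 {κ x : ℝ} (hκ : κ * h0 = ken x) (hx : ((335544320 : ℕ) : ℝ) / S ≤ x)
    (hx' : x ≤ (((335544320 : ℕ) : ℝ) + (67108864 : ℕ)) / S) :
    AltA (VF κ) PP tKF tL pcF [⟨3, 0, 0, 1449551462⟩] 0 1 1 0 4 (sgb true) (sgb true) x :=
  strip_altA (m := 1449551462) true rfl hκ covF00 covF41 hx hx' c_A04pp_011_s1 cutA_nil (noExt_A)

noncomputable def cut_A04pp_012_s1 : Cut := Cut.of [[⟨4, 0, 0, 1449551462⟩]]

noncomputable def f_A04pp_012_s1 : ℕ → ℕ → ℕ → ℕ → Bool := onCell 0 536870912 536870912 536870912 335544320 67108864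
    (rowF 0 true true true .pnp 0 1 2 (qsf 0 536870912 536870912 536870912 2) ndF0q0 ndF4q1 pcF2 cut_A04pp_012_s1 Ext.none)

def k0_A04pp_012_s1 : ∃ t, chk3 f_A04pp_012_s1 t 1 1 1 = true :=
  ⟨(l 4), by decide +kernel⟩

theorem c_A04pp_012_s1 : CertF 0 536870912 536870912 536870912 335544320 67108864 true true true .pnp 0 1 2
    ndF0q0 ndF4q1 pcF2 cut_A04pp_012_s1 Ext.none :=
  certF0 (fam := true) (s1 := true) (s2 := true) (a := 0) (b := 1) (c := 2) (cn := .pnp) (n1 := ndF0q0) (n2 := ndF4q1) (pc := pcF2) (cut := cut_A04pp_012_s1) (xt := Ext.none) (P1 := 0) (W1 := 536870912) (P2 := 536870912) (W2 := 536870912) (P3 := 335544320) (W3 := 67108864)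
    rfl k0_A04pp_012_s1

theorem s_A04pp_012_s1 {κ x : ℝ} (hκ : κ * h0 = ken x) (hx : ((335544320 : ℕ) : ℝ) / S ≤ x)
    (hx' : x ≤ (((335544320 : ℕ) : ℝ) + (67108864 : ℕ)) / S) :
    AltA (VF κ) PP tKF tL pcF [⟨3, 0, 0, 1449551462⟩] 0 1 2 0 4 (sgb true) (sgb true) x :=
  strip_altA (m := 1449551462) true rfl hκ covF00 covF41 hx hx' c_A04pp_012_s1 cutA_nil (noExt_A)

noncomputable def cut_A04pp_022_s1 : Cut := Cut.of [[⟨4, 0, 0, 1449551462⟩]]

noncomputable def f_A04pp_022_s1 : ℕ → ℕ → ℕ → ℕ → Bool := onCell 0 536870912 1073741824 536870912 335544320 67108864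
    (rowF 0 true true true .pp 0 2 2 (qsf 0 536870912 1073741824 536870912 2) ndF0q0 ndF4q2 pcF2 cut_A04pp_022_s1 Ext.none)

def k0_A04pp_022_s1 : ∃ t, chk3 f_A04pp_022_s1 t 1 1 1 = true :=
  ⟨(l 4), by decide +kernel⟩

theorem c_A04pp_022_s1 : CertF 0 536870912 1073741824 536870912 335544320 67108864 true true true .pp 0 2 2
    ndF0q0 ndF4q2 pcF2 cut_A04pp_022_s1 Ext.none :=
  certF0 (fam := true) (s1 := true) (s2 := true) (a := 0) (b := 2) (c := 2) (cn := .pp) (n1 := ndF0q0) (n2 := ndF4q2) (pc := pcF2) (cut := cut_A04pp_022_s1) (xt := Ext.none) (P1 := 0) (W1 := 536870912) (P2 := 1073741824) (W2 := 536870912) (P3 := 335544320) (W3 := 67108864)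
    rfl k0_A04pp_022_s1

theorem s_A04pp_022_s1 {κ x : ℝ} (hκ : κ * h0 = ken x) (hx : ((335544320 : ℕ) : ℝ) / S ≤ x)
    (hx' : x ≤ (((335544320 : ℕ) : ℝ) + (67108864 : ℕ)) / S) :
    AltA (VF κ) PP tKF tL pcF [⟨3, 0, 0, 1449551462⟩] 0 2 2 0 4 (sgb true) (sgb true) x :=
  strip_altA (m := 1449551462) true rfl hκ covF00 covF42 hx hx' c_A04pp_022_s1 cutA_nil (noExt_A)

noncomputable def cut_A04pp_023_s1 : Cut := Cut.of [[⟨4, 0, 0, 1449551462⟩]]

noncomputable def f_A04pp_023_s1 : ℕ → ℕ → ℕ → ℕ → Bool := onCell 0 536870912 1073741824 536870912 335544320 67108864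
    (rowF 0 true true true .up 0 2 3 (qsf 0 536870912 1073741824 536870912 3) ndF0q0 ndF4q2 pcF3 cut_A04pp_023_s1 Ext.none)

def k0_A04pp_023_s1 : ∃ t, chk3 f_A04pp_023_s1 t 1 1 1 = true :=
  ⟨(l 4), by decide +kernel⟩

theorem c_A04pp_023_s1 : CertF 0 536870912 1073741824 536870912 335544320 67108864 true true true .up 0 2 3
    ndF0q0 ndF4q2 pcF3 cut_A04pp_023_s1 Ext.none :=
  certF0 (fam := true) (s1 := true) (s2 := true) (a := 0) (b := 2) (c := 3) (cn := .up) (n1 := ndF0q0) (n2 := ndF4q2) (pc := pcF3) (cut := cut_A04pp_023_s1) (xt := Ext.none) (P1 := 0) (W1 := 536870912) (P2 := 1073741824) (W2 := 536870912) (P3 := 335544320) (W3 := 67108864)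
    rfl k0_A04pp_023_s1

theorem s_A04pp_023_s1 {κ x : ℝ} (hκ : κ * h0 = ken x) (hx : ((335544320 : ℕ) : ℝ) / S ≤ x)
    (hx' : x ≤ (((335544320 : ℕ) : ℝ) + (67108864 : ℕ)) / S) :
    AltA (VF κ) PP tKF tL pcF [⟨3, 0, 0, 1449551462⟩] 0 2 3 0 4 (sgb true) (sgb true) x :=
  strip_altA (m := 1449551462) true rfl hκ covF00 covF42 hx hx' c_A04pp_023_s1 cutA_nil (noExt_A)

noncomputable def cut_A04pp_033_s1 : Cut := Cut.of [[⟨4, 0, 0, 1449551462⟩]]

noncomputable def f_A04pp_033_s1 : ℕ → ℕ → ℕ → ℕ → Bool := onCell 0 536870912 0 1230186008 335544320 67108864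
    (rowF 0 true true true .pnn 0 3 3 (qsf 0 536870912 0 1230186008 3) ndF0q0 ndF4q3 pcF3 cut_A04pp_033_s1 Ext.none)

def k0_A04pp_033_s1 : ∃ t, chk3 f_A04pp_033_s1 t 1 1 1 = true :=
  ⟨(l 4), by decide +kernel⟩

theorem c_A04pp_033_s1 : CertF 0 536870912 0 1230186008 335544320 67108864 true true true .pnn 0 3 3
    ndF0q0 ndF4q3 pcF3 cut_A04pp_033_s1 Ext.none :=
  certF0 (fam := true) (s1 := true) (s2 := true) (a := 0) (b := 3) (c := 3) (cn := .pnn) (n1 := ndF0q0) (n2 := ndF4q3) (pc := pcF3) (cut := cut_A04pp_033_s1) (xt := Ext.none) (P1 := 0) (W1 := 536870912) (P2 := 0) (W2 := 1230186008) (P3 := 335544320) (W3 := 67108864)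
    rfl k0_A04pp_033_s1

theorem s_A04pp_033_s1 {κ x : ℝ} (hκ : κ * h0 = ken x) (hx : ((335544320 : ℕ) : ℝ) / S ≤ x)
    (hx' : x ≤ (((335544320 : ℕ) : ℝ) + (67108864 : ℕ)) / S) :
    AltA (VF κ) PP tKF tL pcF [⟨3, 0, 0, 1449551462⟩] 0 3 3 0 4 (sgb true) (sgb true) x :=
  strip_altA (m := 1449551462) true rfl hκ covF00 covF43 hx hx' c_A04pp_033_s1 cutA_nil (noExt_A)

noncomputable def cut_A04pp_101_s1 : Cut := Cut.of [[⟨4, 0, 0, 1449551462⟩]]

noncomputable def f_A04pp_101_s1 : ℕ → ℕ → ℕ → ℕ → Bool := onCell 536870912 536870912 0 536870912 335544320 67108864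
    (rowF 0 true true true .npn 1 0 1 (qsf 536870912 536870912 0 536870912 1) ndF0q1 ndF4q0 pcF1 cut_A04pp_101_s1 Ext.none)

def k0_A04pp_101_s1 : ∃ t, chk3 f_A04pp_101_s1 t 1 1 1 = true :=
  ⟨(l 4), by decide +kernel⟩

theorem c_A04pp_101_s1 : CertF 536870912 536870912 0 536870912 335544320 67108864 true true true .npn 1 0 1
    ndF0q1 ndF4q0 pcF1 cut_A04pp_101_s1 Ext.none :=
  certF0 (fam := true) (s1 := true) (s2 := true) (a := 1) (b := 0) (c := 1) (cn := .npn) (n1 := ndF0q1) (n2 := ndF4q0) (pc := pcF1) (cut := cut_A04pp_101_s1) (xt := Ext.none) (P1 := 536870912) (W1 := 536870912) (P2 := 0) (W2 := 536870912) (P3 := 335544320) (W3 := 67108864)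
    rfl k0_A04pp_101_s1

theorem s_A04pp_101_s1 {κ x : ℝ} (hκ : κ * h0 = ken x) (hx : ((335544320 : ℕ) : ℝ) / S ≤ x)
    (hx' : x ≤ (((335544320 : ℕ) : ℝ) + (67108864 : ℕ)) / S) :
    AltA (VF κ) PP tKF tL pcF [⟨3, 0, 0, 1449551462⟩] 1 0 1 0 4 (sgb true) (sgb true) x :=
  strip_altA (m := 1449551462) true rfl hκ covF01 covF40 hx hx' c_A04pp_101_s1 cutA_nil (noExt_A)

noncomputable def cut_A04pp_102_s1 : Cut := Cut.of [[⟨4, 0, 0, 1449551462⟩]]

noncomputable def f_A04pp_102_s1 : ℕ → ℕ → ℕ → ℕ → Bool := onCell 536870912 536870912 0 536870912 335544320 67108864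
    (rowF 0 true true true .npp 1 0 2 (qsf 536870912 536870912 0 536870912 2) ndF0q1 ndF4q0 pcF2 cut_A04pp_102_s1 Ext.none)

def k0_A04pp_102_s1 : ∃ t, chk3 f_A04pp_102_s1 t 1 1 1 = true :=
  ⟨(l 4), by decide +kernel⟩

theorem c_A04pp_102_s1 : CertF 536870912 536870912 0 536870912 335544320 67108864 true true true .npp 1 0 2
    ndF0q1 ndF4q0 pcF2 cut_A04pp_102_s1 Ext.none :=
  certF0 (fam := true) (s1 := true) (s2 := true) (a := 1) (b := 0) (c := 2) (cn := .npp) (n1 := ndF0q1) (n2 := ndF4q0) (pc := pcF2) (cut := cut_A04pp_102_s1) (xt := Ext.none) (P1 := 536870912) (W1 := 536870912) (P2 := 0) (W2 := 536870912) (P3 := 335544320) (W3 := 67108864)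
    rfl k0_A04pp_102_s1

theorem s_A04pp_102_s1 {κ x : ℝ} (hκ : κ * h0 = ken x) (hx : ((335544320 : ℕ) : ℝ) / S ≤ x)
    (hx' : x ≤ (((335544320 : ℕ) : ℝ) + (67108864 : ℕ)) / S) :
    AltA (VF κ) PP tKF tL pcF [⟨3, 0, 0, 1449551462⟩] 1 0 2 0 4 (sgb true) (sgb true) x :=
  strip_altA (m := 1449551462) true rfl hκ covF01 covF40 hx hx' c_A04pp_102_s1 cutA_nil (noExt_A)

noncomputable def cut_A04pp_112_s1 : Cut := Cut.of [[⟨4, 0, 0, 1449551462⟩]]

noncomputable def f_A04pp_112_s1 : ℕ → ℕ → ℕ → ℕ → Bool := onCell 536870912 536870912 536870912 536870912 335544320 67108864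
    (rowF 0 true true true .dn 1 1 2 (qsf 536870912 536870912 536870912 536870912 2) ndF0q1 ndF4q1 pcF2 cut_A04pp_112_s1 Ext.none)

def k0_A04pp_112_s1 : ∃ t, chk3 f_A04pp_112_s1 t 1 1 1 = true :=
  ⟨(l 4), by decide +kernel⟩

theorem c_A04pp_112_s1 : CertF 536870912 536870912 536870912 536870912 335544320 67108864 true true true .dn 1 1 2
    ndF0q1 ndF4q1 pcF2 cut_A04pp_112_s1 Ext.none :=
  certF0 (fam := true) (s1 := true) (s2 := true) (a := 1) (b := 1) (c := 2) (cn := .dn) (n1 := ndF0q1) (n2 := ndF4q1) (pc := pcF2) (cut := cut_A04pp_112_s1) (xt := Ext.none) (P1 := 536870912) (W1 := 536870912) (P2 := 536870912) (W2 := 536870912) (P3 := 335544320) (W3 := 67108864)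
    rfl k0_A04pp_112_s1

theorem s_A04pp_112_s1 {κ x : ℝ} (hκ : κ * h0 = ken x) (hx : ((335544320 : ℕ) : ℝ) / S ≤ x)
    (hx' : x ≤ (((335544320 : ℕ) : ℝ) + (67108864 : ℕ)) / S) :
    AltA (VF κ) PP tKF tL pcF [⟨3, 0, 0, 1449551462⟩] 1 1 2 0 4 (sgb true) (sgb true) x :=
  strip_altA (m := 1449551462) true rfl hκ covF01 covF41 hx hx' c_A04pp_112_s1 cutA_nil (noExt_A)

noncomputable def cut_A04pp_113_s1 : Cut := Cut.of [[⟨4, 0, 0, 1449551462⟩]]

noncomputable def f_A04pp_113_s1 : ℕ → ℕ → ℕ → ℕ → Bool := onCell 536870912 536870912 536870912 536870912 335544320 67108864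
    (rowF 0 true true true .nn 1 1 3 (qsf 536870912 536870912 536870912 536870912 3) ndF0q1 ndF4q1 pcF3 cut_A04pp_113_s1 Ext.none)

def k0_A04pp_113_s1 : ∃ t, chk3 f_A04pp_113_s1 t 1 1 1 = true :=
  ⟨(l 4), by decide +kernel⟩

theorem c_A04pp_113_s1 : CertF 536870912 536870912 536870912 536870912 335544320 67108864 true true true .nn 1 1 3
    ndF0q1 ndF4q1 pcF3 cut_A04pp_113_s1 Ext.none :=
  certF0 (fam := true) (s1 := true) (s2 := true) (a := 1) (b := 1) (c := 3) (cn := .nn) (n1 := ndF0q1) (n2 := ndF4q1) (pc := pcF3) (cut := cut_A04pp_113_s1) (xt := Ext.none) (P1 := 536870912) (W1 := 536870912) (P2 := 536870912) (W2 := 536870912) (P3 := 335544320) (W3 := 67108864)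
    rfl k0_A04pp_113_s1

theorem s_A04pp_113_s1 {κ x : ℝ} (hκ : κ * h0 = ken x) (hx : ((335544320 : ℕ) : ℝ) / S ≤ x)
    (hx' : x ≤ (((335544320 : ℕ) : ℝ) + (67108864 : ℕ)) / S) :
    AltA (VF κ) PP tKF tL pcF [⟨3, 0, 0, 1449551462⟩] 1 1 3 0 4 (sgb true) (sgb true) x :=
  strip_altA (m := 1449551462) true rfl hκ covF01 covF41 hx hx' c_A04pp_113_s1 cutA_nil (noExt_A)

noncomputable def cut_A04pp_123_s1 : Cut := Cut.of [[⟨4, 0, 0, 1449551462⟩]]

noncomputable def f_A04pp_123_s1 : ℕ → ℕ → ℕ → ℕ → Bool := onCell 536870912 536870912 1073741824 536870912 335544320 67108864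
    (rowF 0 true true true .npn 1 2 3 (qsf 536870912 536870912 1073741824 536870912 3) ndF0q1 ndF4q2 pcF3 cut_A04pp_123_s1 Ext.none)

def k0_A04pp_123_s1 : ∃ t, chk3 f_A04pp_123_s1 t 1 1 1 = true :=
  ⟨(l 4), by decide +kernel⟩

theorem c_A04pp_123_s1 : CertF 536870912 536870912 1073741824 536870912 335544320 67108864 true true true .npn 1 2 3
    ndF0q1 ndF4q2 pcF3 cut_A04pp_123_s1 Ext.none :=
  certF0 (fam := true) (s1 := true) (s2 := true) (a := 1) (b := 2) (c := 3) (cn := .npn) (n1 := ndF0q1) (n2 := ndF4q2) (pc := pcF3) (cut := cut_A04pp_123_s1) (xt := Ext.none) (P1 := 536870912) (W1 := 536870912) (P2 := 1073741824) (W2 := 536870912) (P3 := 335544320) (W3 := 67108864)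
    rfl k0_A04pp_123_s1

theorem s_A04pp_123_s1 {κ x : ℝ} (hκ : κ * h0 = ken x) (hx : ((335544320 : ℕ) : ℝ) / S ≤ x)
    (hx' : x ≤ (((335544320 : ℕ) : ℝ) + (67108864 : ℕ)) / S) :
    AltA (VF κ) PP tKF tL pcF [⟨3, 0, 0, 1449551462⟩] 1 2 3 0 4 (sgb true) (sgb true) x :=
  strip_altA (m := 1449551462) true rfl hκ covF01 covF42 hx hx' c_A04pp_123_s1 cutA_nil (noExt_A)

noncomputable def cut_A04pp_133_s1 : Cut := Cut.of [[⟨4, 0, 0, 1449551462⟩]]

noncomputable def f_A04pp_133_s1 : ℕ → ℕ → ℕ → ℕ → Bool := onCell 536870912 536870912 0 1230186008 335544320 67108864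
    (rowF 0 true true true .dn 1 3 3 (qsf 536870912 536870912 0 1230186008 3) ndF0q1 ndF4q3 pcF3 cut_A04pp_133_s1 Ext.none)

def k0_A04pp_133_s1 : ∃ t, chk3 f_A04pp_133_s1 t 1 1 1 = true :=
  ⟨(l 4), by decide +kernel⟩

theorem c_A04pp_133_s1 : CertF 536870912 536870912 0 1230186008 335544320 67108864 true true true .dn 1 3 3
    ndF0q1 ndF4q3 pcF3 cut_A04pp_133_s1 Ext.none :=
  certF0 (fam := true) (s1 := true) (s2 := true) (a := 1) (b := 3) (c := 3) (cn := .dn) (n1 := ndF0q1) (n2 := ndF4q3) (pc := pcF3) (cut := cut_A04pp_133_s1) (xt := Ext.none) (P1 := 536870912) (W1 := 536870912) (P2 := 0) (W2 := 1230186008) (P3 := 335544320) (W3 := 67108864)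
    rfl k0_A04pp_133_s1

theorem s_A04pp_133_s1 {κ x : ℝ} (hκ : κ * h0 = ken x) (hx : ((335544320 : ℕ) : ℝ) / S ≤ x)
    (hx' : x ≤ (((335544320 : ℕ) : ℝ) + (67108864 : ℕ)) / S) :
    AltA (VF κ) PP tKF tL pcF [⟨3, 0, 0, 1449551462⟩] 1 3 3 0 4 (sgb true) (sgb true) x :=
  strip_altA (m := 1449551462) true rfl hκ covF01 covF43 hx hx' c_A04pp_133_s1 cutA_nil (noExt_A)

noncomputable def cut_A04pp_202_s1 : Cut := Cut.of [[⟨4, 0, 0, 1449551462⟩]]

noncomputable def f_A04pp_202_s1 : ℕ → ℕ → ℕ → ℕ → Bool := onCell 0 536870912 0 536870912 335544320 67108864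
    (rowF 0 true true true .pp 2 0 2 (qsf 0 536870912 0 536870912 2) ndF0q2 ndF4q0 pcF2 cut_A04pp_202_s1 Ext.none)

def k0_A04pp_202_s1 : ∃ t, chk3 f_A04pp_202_s1 t 1 1 1 = true :=
  ⟨(l 4), by decide +kernel⟩

theorem c_A04pp_202_s1 : CertF 0 536870912 0 536870912 335544320 67108864 true true true .pp 2 0 2
    ndF0q2 ndF4q0 pcF2 cut_A04pp_202_s1 Ext.none :=
  certF0 (fam := true) (s1 := true) (s2 := true) (a := 2) (b := 0) (c := 2) (cn := .pp) (n1 := ndF0q2) (n2 := ndF4q0) (pc := pcF2) (cut := cut_A04pp_202_s1) (xt := Ext.none) (P1 := 0) (W1 := 536870912) (P2 := 0) (W2 := 536870912) (P3 := 335544320) (W3 := 67108864)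
    rfl k0_A04pp_202_s1

theorem s_A04pp_202_s1 {κ x : ℝ} (hκ : κ * h0 = ken x) (hx : ((335544320 : ℕ) : ℝ) / S ≤ x)
    (hx' : x ≤ (((335544320 : ℕ) : ℝ) + (67108864 : ℕ)) / S) :
    AltA (VF κ) PP tKF tL pcF [⟨3, 0, 0, 1449551462⟩] 2 0 2 0 4 (sgb true) (sgb true) x :=
  strip_altA (m := 1449551462) true rfl hκ covF02 covF40 hx hx' c_A04pp_202_s1 cutA_nil (noExt_A)

noncomputable def cut_A04pp_203_s1 : Cut := Cut.of [[⟨4, 0, 0, 1449551462⟩]]

noncomputable def f_A04pp_203_s1 : ℕ → ℕ → ℕ → ℕ → Bool := onCell 0 536870912 0 536870912 335544320 67108864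
    (rowF 0 true true true .up 2 0 3 (qsf 0 536870912 0 536870912 3) ndF0q2 ndF4q0 pcF3 cut_A04pp_203_s1 Ext.none)

def k0_A04pp_203_s1 : ∃ t, chk3 f_A04pp_203_s1 t 1 1 1 = true :=
  ⟨(l 4), by decide +kernel⟩

theorem c_A04pp_203_s1 : CertF 0 536870912 0 536870912 335544320 67108864 true true true .up 2 0 3
    ndF0q2 ndF4q0 pcF3 cut_A04pp_203_s1 Ext.none :=
  certF0 (fam := true) (s1 := true) (s2 := true) (a := 2) (b := 0) (c := 3) (cn := .up) (n1 := ndF0q2) (n2 := ndF4q0) (pc := pcF3) (cut := cut_A04pp_203_s1) (xt := Ext.none) (P1 := 0) (W1 := 536870912) (P2 := 0) (W2 := 536870912) (P3 := 335544320) (W3 := 67108864)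
    rfl k0_A04pp_203_s1

theorem s_A04pp_203_s1 {κ x : ℝ} (hκ : κ * h0 = ken x) (hx : ((335544320 : ℕ) : ℝ) / S ≤ x)
    (hx' : x ≤ (((335544320 : ℕ) : ℝ) + (67108864 : ℕ)) / S) :
    AltA (VF κ) PP tKF tL pcF [⟨3, 0, 0, 1449551462⟩] 2 0 3 0 4 (sgb true) (sgb true) x :=
  strip_altA (m := 1449551462) true rfl hκ covF02 covF40 hx hx' c_A04pp_203_s1 cutA_nil (noExt_A)

noncomputable def cut_A04pp_213_s1 : Cut := Cut.of [[⟨4, 0, 0, 1449551462⟩]]

noncomputable def f_A04pp_213_s1 : ℕ → ℕ → ℕ → ℕ → Bool := onCell 0 536870912 536870912 536870912 335544320 67108864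
    (rowF 0 true true true .pnn 2 1 3 (qsf 0 536870912 536870912 536870912 3) ndF0q2 ndF4q1 pcF3 cut_A04pp_213_s1 Ext.none)

def k0_A04pp_213_s1 : ∃ t, chk3 f_A04pp_213_s1 t 1 1 1 = true :=
  ⟨(l 4), by decide +kernel⟩

theorem c_A04pp_213_s1 : CertF 0 536870912 536870912 536870912 335544320 67108864 true true true .pnn 2 1 3
    ndF0q2 ndF4q1 pcF3 cut_A04pp_213_s1 Ext.none :=
  certF0 (fam := true) (s1 := true) (s2 := true) (a := 2) (b := 1) (c := 3) (cn := .pnn) (n1 := ndF0q2) (n2 := ndF4q1) (pc := pcF3) (cut := cut_A04pp_213_s1) (xt := Ext.none) (P1 := 0) (W1 := 536870912) (P2 := 536870912) (W2 := 536870912) (P3 := 335544320) (W3 := 67108864)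
    rfl k0_A04pp_213_s1

theorem s_A04pp_213_s1 {κ x : ℝ} (hκ : κ * h0 = ken x) (hx : ((335544320 : ℕ) : ℝ) / S ≤ x)
    (hx' : x ≤ (((335544320 : ℕ) : ℝ) + (67108864 : ℕ)) / S) :
    AltA (VF κ) PP tKF tL pcF [⟨3, 0, 0, 1449551462⟩] 2 1 3 0 4 (sgb true) (sgb true) x :=
  strip_altA (m := 1449551462) true rfl hκ covF02 covF41 hx hx' c_A04pp_213_s1 cutA_nil (noExt_A)

noncomputable def cut_A04pm_001_s1 : Cut := Cut.of [[⟨4, 0, 0, 1449551462⟩]]

noncomputable def xt_A04pm_001_s1 : Ext := strExt dd true true false .u0 .s0m .u0m .up 0 0 1 rfl rfl gf1 vv ndF0q0 ndF4q0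

noncomputable def f_A04pm_001_s1 : ℕ → ℕ → ℕ → ℕ → Bool := onCell 0 536870912 0 536870912 335544320 67108864
    (rowF 0 true true false .up 0 0 1 (qsf 0 536870912 0 536870912 1) ndF0q0 ndF4q0 pcF1 cut_A04pm_001_s1 xt_A04pm_001_s1)

def k0_A04pm_001_s1 : ∃ t, chk3 f_A04pm_001_s1 t 1 1 1 = true :=
  ⟨(a (l 3) (b (a (l 3) (b (l 3) (a (l 3) (b (a (l 3) (b (l 544059663) (l 544160783))) (a (b (a (l 3) (l 544287759)) (l 544262927)) (b (l 544090127) (a (l 544063759) (l 16849120)))))))) (a (b (l 3) (a (b (l 3) (a (l 3) (b (l 3) (l 541078543)))) (b (a (l 3) (b (l 543370511) (l 542691087))) (a (b (l 542031119) (a (l 540904463) (l 540783119))) (b (a (l 541852687) (l 541731087)) (a (l 540653327) (l 540530447))))))) (b (a (b (a (l 3) (b (l 544340495) (l 544107279))) (a (b (l 544046095) (l 543649551)) (b (l 543805199) (l 543417615)))) (b (a (b (l 544095503) (l 543867663)) (b (l 543845903) (l 543639055))) (a (b (l 543579407) (l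 543192335)) (b (l 16925080) (l 16947536))))) (a (b (a (b (l 543134735) (l 542987791)) (b (l 542901775) (a (l 16868312) (l 16890632)))) (a (b (a (l 541607951) (l 16857080)) (b (l 16848800) (l 16843576))) (b (l 16884528) (l 16871720)))) (b (a (b (l 16913032) (l 16923296)) (b (l 16962336) (l 16964984))) (a (b (l 16918800) (l 16893336)) (b (l 16950512) (l 16911552))))))))), by decide +kernel⟩

theorem c_A04pm_001_s1 : CertF 0 536870912 0 536870912 335544320 67108864 true true false .up 0 0 1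
    ndF0q0 ndF4q0 pcF1 cut_A04pm_001_s1 xt_A04pm_001_s1 :=
  certF0 (fam := true) (s1 := true) (s2 := false) (a := 0) (b := 0) (c := 1) (cn := .up) (n1 := ndF0q0) (n2 := ndF4q0) (pc := pcF1) (cut := cut_A04pm_001_s1) (xt := xt_A04pm_001_s1) (P1 := 0) (W1 := 536870912) (P2 := 0) (W2 := 536870912) (P3 := 335544320) (W3 := 67108864)
    rfl k0_A04pm_001_s1

theorem s_A04pm_001_s1 {κ x : ℝ} (hκ : κ * h0 = ken x) (hx : ((335544320 : ℕ) : ℝ) / S ≤ x)
    (hx' : x ≤ (((335544320 : ℕ) : ℝ) + (67108864 : ℕ)) / S) :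
    AltA (VF κ) PP tKF tL pcF [⟨3, 0, 0, 1449551462⟩] 0 0 1 0 4 (sgb true) (sgb false) x :=
  strip_altA (m := 1449551462) true rfl hκ covF00 covF40 hx hx' c_A04pm_001_s1 cutA_nil ((okx hx hx').extA (T := tt) (sideF hx hx') hκ rfl rfl (.O 0 true) (.N 0 false) (Or.inr rfl))

noncomputable def cut_A04pm_011_s1 : Cut := Cut.of [[⟨4, 0, 0, 1449551462⟩], [⟨0, 0, 0, 67108864⟩, ⟨1, 1, 0, 67108864⟩, ⟨2, 1, 0, 67108864⟩]]

noncomputable def xt_A04pm_011_s1 : Ext := strExt dd true true false .u0 .s0m .u0m .pnn 0 1 1 rfl rfl gf1 vv ndF0q0 ndF4q1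

noncomputable def f_A04pm_011_s1 : ℕ → ℕ → ℕ → ℕ → Bool := onCell 0 536870912 536870912 536870912 335544320 67108864
    (rowF 1 true true false .pnn 0 1 1 (qsf 0 536870912 536870912 536870912 1) ndF0q0 ndF4q1 pcF1 cut_A04pm_011_s1 xt_A04pm_011_s1)

def k0_A04pm_011_s1 : ∃ t, chk3 f_A04pm_011_s1 t 1 2 1 = true :=
  ⟨(a (l 3) (a (b (l 1) (l 3)) (l 1))), by decide +kernel⟩

def k1_A04pm_011_s1 : ∃ t, chk3 f_A04pm_011_s1 t 1 6 1 = true :=
  ⟨(b (a (l 3) (a (a (a (l 3) (b (l 3) (l 540350735))) (a (b (l 1) (l 541480207)) (l 1))) (l 1))) (b (a (l 3) (a (a (a (a (l 535702543) (l 536974095)) (b (l 539046671) (l 538004239))) (a (l 540114191) (l 541239311))) (l 1))) (a (a (l 3) (a (l 3) (a (b (l 3) (l 526833423)) (l 529036047)))) (a (a (a (l 533149967) (b (l 536795151) (l 535390735))) (a (l 538284815) (l 539851023))) (a (a (l 16849488) (l 1)) (l 1)))))), by decide +kernel⟩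

def k2_A04pm_011_s1 : ∃ t, chk3 f_A04pm_011_s1 t 2 7 1 = true :=
  ⟨(b (a (b (l 3) (a (l 3) (a (l 3) (a (l 3) (b (l 3) (l 524089615)))))) (a (a (b (l 3) (a (l 525037071) (l 524616719))) (b (a (l 524731151) (l 524881423)) (a (l 524203023) (l 524601871)))) (a (b (a (l 525038863) (l 526606607)) (a (l 524740111) (l 524887055))) (a (b (a (l 525416207) (l 525525007)) (l 525057807)) (b (l 525973775) (l 525296911)))))) (a (b (a (b (l 3) (a (l 3) (a (l 3) (a (l 3) (a (l 3) (l 524219407)))))) (a (a (b (l 3) (a (l 525263887) (l 524444687))) (a (b (l 3) (l 524160271)) (l 525362191))) (a (b (l 524710927) (l 525158927)) (b (l 523992335) (l 524047631))))) (a (b (a (b (l 3) (l 14)) (a (a (b (l 3) (a (l 14) (l 524570127))) (a (b (l 3) (l 524566799)) (l 524910351))) (a (a (l 524501519) (l 524494863)) (a (l 524487695) (l 524480271))))) (a (l 14) (b (a (a (l 14) (a (l 14) (l 524686607))) (a (a (l 524681487) (l 524675855)) (l 524643855)))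 (a (l 14) (a (b (l 16746840) (l 14)) (l 526108431)))))) (a (a (a (b (b (l 524381711) (l 524509711)) (b (l 524635151) (l 524757775))) (b (l 524707087) (b (l 16732688) (l 16717408)))) (b (a (l 524423183) (l 524406031)) (b (c (l 16719680) (l 16719240)) (l 16714720)))) (a (b (l 525559055) (b (l 16711904) (l 16696760))) (b (l 524315407) (l 525377551)))))) (a (a (b (a (l 525355535) (l 524642831)) (a (b (l 524271631) (l 16666808)) (l 525568271))) (b (a (l 524207631) (l 524316943)) (b (l 16667520) (l 16637592)))) (a (b (a (l 524434447) (l 524560911)) (b (l 524795919) (l 16594400))) (b (b (l 525427471) (l 16626432)) (b (l 16632728) (l 16553720))))))), by decide +kernel⟩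

def k3_A04pm_011_s1 : ∃ t, chk3 f_A04pm_011_s1 t 3 7 1 = true :=
  ⟨(a (a (b (a (b (b (l 530034447) (l 527526415)) (b (l 525865743) (l 16702832))) (b (b (l 533776399) (l 16715176)) (b (l 16670176) (l 16607736)))) (a (b (b (l 16669816) (l 16635032)) (b (l 16598840) (l 16561128))) (b (b (l 16641320) (l 16606496)) (b (l 16569936) (l 16531512))))) (b (b (a (l 535845647) (l 16798488)) (a (l 532634383) (l 16746392))) (b (a (b (l 16600872) (l 16514976)) (l 16645728)) (a (b (l 16460704) (l 16506016)) (b (l 16524704) (l 16414832)))))) (b (a (a (b (l 16838744) (l 16801600)) (b (l 16880632) (l 16856120))) (a (b (l 1) (l 16909016)) (l 1))) (a (b (a (l 16725792) (l 16800464)) (a (l 16593208) (l 16699704))) (b (a (l 16869912) (l 16934536)) (a (l 16794432) (l 16879592)))))), by decide +kernel⟩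

theorem t4_A04pm_011_s1 : ∃ t, chk3 f_A04pm_011_s1 t 1 7 1 = true := ex3_a k2_A04pm_011_s1 k3_A04pm_011_s1

theorem t5_A04pm_011_s1 : ∃ t, chk3 f_A04pm_011_s1 t 1 3 1 = true := ex3_b k1_A04pm_011_s1 t4_A04pm_011_s1

theorem t6_A04pm_011_s1 : ∃ t, chk3 f_A04pm_011_s1 t 1 1 1 = true := ex3_b k0_A04pm_011_s1 t5_A04pm_011_s1

theorem c_A04pm_011_s1 : CertF 0 536870912 536870912 536870912 335544320 67108864 true true false .pnn 0 1 1
    ndF0q0 ndF4q1 pcF1 cut_A04pm_011_s1 xt_A04pm_011_s1 :=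
  certF1 (fam := true) (s1 := true) (s2 := false) (a := 0) (b := 1) (c := 1) (cn := .pnn) (n1 := ndF0q0) (n2 := ndF4q1) (pc := pcF1) (cut := cut_A04pm_011_s1) (xt := xt_A04pm_011_s1) (P1 := 0) (W1 := 536870912) (P2 := 536870912) (W2 := 536870912) (P3 := 335544320) (W3 := 67108864)
    rfl (fun _ => rfl) t6_A04pm_011_s1

theorem s_A04pm_011_s1 {κ x : ℝ} (hκ : κ * h0 = ken x) (hx : ((335544320 : ℕ) : ℝ) / S ≤ x)
    (hx' : x ≤ (((335544320 : ℕ) : ℝ) + (67108864 : ℕ)) / S)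
    (H : CutA (VF κ) PP tKF tL pcF (Cut.of [[⟨0, 0, 0, 67108864⟩, ⟨1, 1, 0, 67108864⟩, ⟨2, 1, 0, 67108864⟩]]) 0 1 1 0 4 (sgb true) (sgb false) x) :
    AltA (VF κ) PP tKF tL pcF [⟨3, 0, 0, 1449551462⟩] 0 1 1 0 4 (sgb true) (sgb false) x :=
  strip_altA (m := 1449551462) true rfl hκ covF00 covF41 hx hx' c_A04pm_011_s1 H ((okx hx hx').extA (T := tt) (sideF hx hx') hκ rfl rfl (.O 0 true) (.N 1 false) (Or.inr rfl))

noncomputable def cut_A04pm_012_s1 : Cut := Cut.of [[⟨4, 0, 0, 1449551462⟩], [⟨0, 0, 0, 67108864⟩, ⟨1, 1, 0, 67108864⟩, ⟨2, 1, 0, 67108864⟩]]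

noncomputable def f_A04pm_012_s1 : ℕ → ℕ → ℕ → ℕ → Bool := onCell 1073741824 536870912 536870912 536870912 335544320 67108864
    (rowF 2 true true false .pnp 0 1 2 (qsf 0 536870912 536870912 536870912 2) ndF0q0 ndF4q1 pcF2 cut_A04pm_012_s1 Ext.none)

def k0_A04pm_012_s1 : ∃ t, chk3 f_A04pm_012_s1 t 4 2 1 = true :=
  ⟨(b (a (b (a (b (l 16882496) (l 16787224)) (l 6)) (a (b (l 16679064) (l 16554432)) (b (l 16790568) (l 16673472)))) (l 6)) (a (b (a (b (a (l 16381040) (l 16438048)) (a (l 16375960) (l 16376872))) (b (l 16536232) (l 16378264))) (a (b (l 16436368) (a (l 16508664) (l 16417552))) (b (l 16392080) (l 16451744)))) (b (a (b (l 16678120) (l 16530536)) (l 6)) (a (b (l 16390744) (l 16404152)) (b (l 16536240) (l 16400672)))))), by decide +kernel⟩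

def k1_A04pm_012_s1 : ∃ t, chk3 f_A04pm_012_s1 t 8 3 1 = true :=
  ⟨(b (a (b (a (b (l 16549208) (l 16575608)) (b (l 16447424) (l 16565896))) (a (b (l 16618440) (a (l 16653088) (l 16663456))) (b (l 16603072) (l 16598928)))) (b (b (a (l 16435968) (l 16427520)) (a (l 16464456) (l 16450240))) (b (a (l 16580944) (l 16477216)) (a (l 16614912) (l 16506976))))) (a (b (a (a (b (c (l 16690704) (l 16689560)) (b (l 16695536) (c (l 16723328) (l 16722712)))) (b (l 16659368) (b (l 16688448) (l 16686456)))) (b (a (l 16643768) (l 16628648)) (b (l 16632080) (a (l 16648104) (l 16631168))))) (a (b (a (b (a (b (l 16732352) (l 14)) (l 16711232)) (l 14)) (b (b (l 16700488) (l 16709728)) (b (l 16708400) (l 14)))) (l 14)) (b (b (a (a (l 16691560) (l 16661680)) (l 16669496)) (b (a (l 16700392) (l 16661368)) (a (a (l 14) (l 16683560)) (l 16669832)))) (b (b (a (l 14) (b (l 16676136) (l 14))) (l 14)) (l 14))))) (b (a (b (b (l 16556504) (l 16573352))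 (b (l 16590072) (a (l 16614704) (l 16598712)))) (b (l 16579600) (b (l 16560528) (l 16575632)))) (b (b (a (a (l 16631392) (l 16614728)) (b (l 16586896) (l 16594352))) (a (a (b (l 16643760) (l 16651920)) (b (l 16626608) (l 16634456))) (b (l 16601760) (l 16609120)))) (b (a (b (a (l 16660008) (l 16642240)) (a (b (l 16666032) (l 14)) (l 16660440))) (b (a (l 16624920) (l 16608072)) (a (l 16632336) (l 16615168)))) (a (b (a (l 14) (b (l 16655704) (l 14))) (l 14)) (b (a (b (l 16637856) (l 16641512)) (l 16643184)) (b (c (l 16650032) (l 16643480)) (a (l 14) (l 16641432)))))))))), by decide +kernel⟩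

def k2_A04pm_012_s1 : ∃ t, chk3 f_A04pm_012_s1 t 9 3 1 = true :=
  ⟨(b (b (a (b (l 16419424) (l 16517768)) (b (l 16412920) (l 16422992))) (b (a (l 16536760) (l 16430592)) (a (a (l 16485424) (l 16466288)) (l 16527160)))) (b (b (a (b (l 16494248) (l 16591104)) (b (l 16455208) (l 16464320))) (a (b (a (l 16533040) (l 16507696)) (a (l 16546656) (l 16519784))) (b (l 16473792) (l 16567600)))) (b (a (b (a (l 16560208) (l 16531872)) (a (b (l 16570328) (l 16577024)) (l 16585864))) (b (a (l 16505712) (l 16481856)) (a (l 16516312) (l 16490984)))) (a (b (a (b (l 16583688) (l 16611280)) (b (l 16552928) (l 16558880))) (a (b (c (l 16622072) (l 16592672)) (b (c (l 16606048) (l 16597552)) (c (l 16630288) (l 16600784)))) (b (l 16585776) (c (l 16596896) (l 16586440))))) (b (a (b (l 16524272) (l 16529544)) (b (l 16497872) (l 16502440))) (a (b (l 16534792) (c (l 16546200) (l 16533816))) (b (l 16507000) (c (l 16518656) (l 16504368))))))))),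 by decide +kernel⟩

def k3_A04pm_012_s1 : ∃ t, chk3 f_A04pm_012_s1 t 5 1 1 = true :=
  ⟨(b (b (l 6) (l 6)) (b (a (b (a (a (l 16413904) (l 6)) (l 6)) (a (b (a (l 16422688) (l 16501752)) (a (l 16426920) (a (l 16421888) (l 16419488)))) (b (l 6) (l 16415400)))) (l 6)) (a (b (a (b (a (l 16435912) (a (l 16427072) (l 16423232))) (a (l 16449248) (a (l 16437120) (l 16514920)))) (b (l 16411856) (b (l 16412584) (l 16414064)))) (a (b (b (a (l 16460584) (a (l 16446560) (l 16439160))) (a (l 16468224) (a (l 16453096) (l 16487024)))) (a (b (b (l 16474016) (l 16477880)) (b (l 16523680) (c (l 16493616) (l 16477440)))) (b (a (l 16459720) (a (l 16452656) (l 16448904))) (a (b (l 16464728) (l 16468064)) (a (b (l 16457280) (l 16460360)) (b (l 16453296) (c (l 16465488) (l 16446728)))))))) (b (b (l 16417040) (c (l 16430272) (l 16410512))) (b (a (l 16435696) (l 16414200)) (a (c (l 16450328) (l 16430608)) (c (l 16428072) (l 16406728)))))))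 (a (a (b (l 6) (b (b (l 6) (l 16394112)) (b (l 16395048) (b (l 16396152) (c (l 16408376) (l 16385304)))))) (b (l 6) (l 6))) (l 6))))), by decide +kernel⟩

def k4_A04pm_012_s1 : ∃ t, chk3 f_A04pm_012_s1 t 3 1 1 = true :=
  ⟨(b (l 6) (l 6)), by decide +kernel⟩

theorem t5_A04pm_012_s1 : ∃ t, chk3 f_A04pm_012_s1 t 4 3 1 = true := ex3_a k1_A04pm_012_s1 k2_A04pm_012_s1

theorem t6_A04pm_012_s1 : ∃ t, chk3 f_A04pm_012_s1 t 4 1 1 = true := ex3_b k0_A04pm_012_s1 t5_A04pm_012_s1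

theorem t7_A04pm_012_s1 : ∃ t, chk3 f_A04pm_012_s1 t 2 1 1 = true := ex3_a t6_A04pm_012_s1 k3_A04pm_012_s1

theorem t8_A04pm_012_s1 : ∃ t, chk3 f_A04pm_012_s1 t 1 1 1 = true := ex3_a t7_A04pm_012_s1 k4_A04pm_012_s1

theorem c_A04pm_012_s1 : CertF 0 536870912 536870912 536870912 335544320 67108864 true true false .pnp 0 1 2
    ndF0q0 ndF4q1 pcF2 cut_A04pm_012_s1 Ext.none :=
  certF2 (fam := true) (s1 := true) (s2 := false) (a := 0) (b := 1) (c := 2) (cn := .pnp) (n1 := ndF0q0) (n2 := ndF4q1) (pc := pcF2) (cut := cut_A04pm_012_s1) (xt := Ext.none) (P1 := 0) (W1 := 536870912) (P2 := 536870912) (W2 := 536870912) (P3 := 335544320) (W3 := 67108864)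
    rfl (fun _ => rfl) t8_A04pm_012_s1

theorem s_A04pm_012_s1 {κ x : ℝ} (hκ : κ * h0 = ken x) (hx : ((335544320 : ℕ) : ℝ) / S ≤ x)
    (hx' : x ≤ (((335544320 : ℕ) : ℝ) + (67108864 : ℕ)) / S)
    (H : CutA (VF κ) PP tKF tL pcF (Cut.of [[⟨0, 0, 0, 67108864⟩, ⟨1, 1, 0, 67108864⟩, ⟨2, 1, 0, 67108864⟩]]) 0 1 2 0 4 (sgb true) (sgb false) x) :
    AltA (VF κ) PP tKF tL pcF [⟨3, 0, 0, 1449551462⟩] 0 1 2 0 4 (sgb true) (sgb false) x :=
  strip_altA (m := 1449551462) true rfl hκ covF00 covF41 hx hx' c_A04pm_012_s1 H (noExt_A)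

noncomputable def cut_A04pm_022_s1 : Cut := Cut.of [[⟨4, 0, 0, 1449551462⟩], [⟨0, 0, 0, 67108864⟩, ⟨1, 1, 0, 67108864⟩, ⟨2, 1, 0, 67108864⟩]]

noncomputable def f_A04pm_022_s1 : ℕ → ℕ → ℕ → ℕ → Bool := onCell 0 536870912 1073741824 536870912 335544320 67108864
    (rowF 0 true true false .pp 0 2 2 (qsf 0 536870912 1073741824 536870912 2) ndF0q0 ndF4q2 pcF2 cut_A04pm_022_s1 Ext.none)

def k0_A04pm_022_s1 : ∃ t, chk3 f_A04pm_022_s1 t 4 2 1 = true :=
  ⟨(b (a (b (a (b (a (l 14) (b (l 14) (a (l 14) (a (l 14) (l 16683816))))) (a (b (a (l 14) (l 16681232)) (a (l 16701576) (l 16672896))) (b (a (l 16683160) (l 16665416)) (l 16640408)))) (b (b (b (a (l 14) (b (a (l 14) (l 16649872)) (c (l 16633360) (l 16626840)))) (a (a (l 14) (l 16645072)) (b (l 16643384) (l 16614736)))) (a (b (a (l 16646976) (l 16629136)) (l 16663824)) (a (l 16645976) (l 16587320)))) (b (a (l 16639704) (l 16607064)) (a (l 16649520) (l 16534896))))) (a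 (b (a (a (l 16678456) (l 16670624)) (l 16611296)) (a (l 16624992) (b (l 16498568) (l 16553448)))) (b (b (l 16593344) (a (l 16502744) (l 16605048))) (b (a (l 16580032) (l 16531456)) (l 16531888))))) (b (b (a (b (b (a (b (c (l 16607320) (l 16598784)) (l 16616736)) (b (l 16591200) (l 16563384))) (a (l 16605856) (l 16553160))) (a (b (l 16570392) (l 16555952)) (l 16574896))) (b (a (b (c (l 16542464) (l 16530104)) (l 16523584)) (b (c (l 16515152) (l 16500880)) (l 16496480))) (a (l 16547056) (b (l 16485408) (a (l 16479976) (b (l 16471400) (l 16467112))))))) (b (a (a (l 16534584) (l 16506512)) (b (a (l 16486936) (a (l 16554280) (l 16457920))) (a (b (l 16478480) (l 16557560)) (l 16451264)))) (b (a (l 16584688) (a (l 16547392) (l 16440496))) (a (a (l 16499456) (l 16560304)) (l 16436920))))) (a (b (b (a (a (l 16485808) (l 16559248)) (l 16538632)) (l 16563344)) (l 16394856)) (b (l 16404608) (l 16345616))))) (b (a (a (b (a (b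 (l 16597336) (l 16548688)) (l 16507168)) (l 16479584)) (b (l 16379288) (l 16304368))) (b (a (l 16328200) (l 16366616)) (a (l 16257056) (l 16219792)))) (a (a (a (l 16439728) (l 16389288)) (l 16405240)) (b (a (l 16184456) (l 6)) (l 6))))), by decide +kernel⟩

def k1_A04pm_022_s1 : ∃ t, chk3 f_A04pm_022_s1 t 5 2 1 = true :=
  ⟨(b (b (a (b (a (b (b (a (c (l 16511688) (l 16516496)) (a (b (l 16509744) (a (l 16465736) (b (l 16462176) (l 16502128)))) (b (a (b (l 16461392) (c (l 16468488) (l 16450176))) (c (l 16464112) (l 16445344))) (l 16494272)))) (a (a (l 16477936) (b (l 16469280) (a (l 16467064) (l 16462584)))) (a (c (l 16506136) (l 16488816)) (l 16445088)))) (a (b (a (b (l 16470480) (l 16550224)) (l 16498616)) (l 16534624)) (l 16433784))) (b (b (c (l 16435736) (l 16415192)) (l 16456808)) (l 16398536))) (b (a (l 16421752) (l 16376240)) (a (l 16396520) (l 16353368)))) (a (a (b (b (c (l 16398976) (l 16376184)) (l 16367856))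 (l 6)) (b (l 6) (l 6))) (l 6))) (a (a (b (l 16357608) (l 16302416)) (b (l 16401040) (l 6))) (l 6))) (b (l 6) (l 6))), by decide +kernel⟩

def k2_A04pm_022_s1 : ∃ t, chk3 f_A04pm_022_s1 t 2 3 1 = true :=
  ⟨(a (b (b (a (a (b (l 16279232) (a (l 16274840) (l 6))) (l 6)) (l 6)) (l 6)) (l 6)) (l 6)), by decide +kernel⟩

def k3_A04pm_022_s1 : ∃ t, chk3 f_A04pm_022_s1 t 3 1 1 = true :=
  ⟨(b (l 6) (l 6)), by decide +kernel⟩

theorem t4_A04pm_022_s1 : ∃ t, chk3 f_A04pm_022_s1 t 2 2 1 = true := ex3_a k0_A04pm_022_s1 k1_A04pm_022_s1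

theorem t5_A04pm_022_s1 : ∃ t, chk3 f_A04pm_022_s1 t 2 1 1 = true := ex3_b t4_A04pm_022_s1 k2_A04pm_022_s1

theorem t6_A04pm_022_s1 : ∃ t, chk3 f_A04pm_022_s1 t 1 1 1 = true := ex3_a t5_A04pm_022_s1 k3_A04pm_022_s1

theorem c_A04pm_022_s1 : CertF 0 536870912 1073741824 536870912 335544320 67108864 true true false .pp 0 2 2
    ndF0q0 ndF4q2 pcF2 cut_A04pm_022_s1 Ext.none :=
  certF0 (fam := true) (s1 := true) (s2 := false) (a := 0) (b := 2) (c := 2) (cn := .pp) (n1 := ndF0q0) (n2 := ndF4q2) (pc := pcF2) (cut := cut_A04pm_022_s1) (xt := Ext.none) (P1 := 0) (W1 := 536870912) (P2 := 1073741824) (W2 := 536870912) (P3 := 335544320) (W3 := 67108864)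
    rfl t6_A04pm_022_s1

theorem s_A04pm_022_s1 {κ x : ℝ} (hκ : κ * h0 = ken x) (hx : ((335544320 : ℕ) : ℝ) / S ≤ x)
    (hx' : x ≤ (((335544320 : ℕ) : ℝ) + (67108864 : ℕ)) / S)
    (H : CutA (VF κ) PP tKF tL pcF (Cut.of [[⟨0, 0, 0, 67108864⟩, ⟨1, 1, 0, 67108864⟩, ⟨2, 1, 0, 67108864⟩]]) 0 2 2 0 4 (sgb true) (sgb false) x) :
    AltA (VF κ) PP tKF tL pcF [⟨3, 0, 0, 1449551462⟩] 0 2 2 0 4 (sgb true) (sgb false) x :=
  strip_altA (m := 1449551462) true rfl hκ covF00 covF42 hx hx' c_A04pm_022_s1 H (noExt_A)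

noncomputable def cut_A04pm_023_s1 : Cut := Cut.of [[⟨4, 0, 0, 1449551462⟩]]

noncomputable def f_A04pm_023_s1 : ℕ → ℕ → ℕ → ℕ → Bool := onCell 1610612736 536870912 1073741824 536870912 335544320 67108864
    (rowF 2 true true false .up 0 2 3 (qsf 0 536870912 1073741824 536870912 3) ndF0q0 ndF4q2 pcF3 cut_A04pm_023_s1 Ext.none)

def k0_A04pm_023_s1 : ∃ t, chk3 f_A04pm_023_s1 t 1 1 1 = true :=
  ⟨(a (l 6) (l 6)), by decide +kernel⟩

theorem c_A04pm_023_s1 : CertF 0 536870912 1073741824 536870912 335544320 67108864 true true false .up 0 2 3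
    ndF0q0 ndF4q2 pcF3 cut_A04pm_023_s1 Ext.none :=
  certF2 (fam := true) (s1 := true) (s2 := false) (a := 0) (b := 2) (c := 3) (cn := .up) (n1 := ndF0q0) (n2 := ndF4q2) (pc := pcF3) (cut := cut_A04pm_023_s1) (xt := Ext.none) (P1 := 0) (W1 := 536870912) (P2 := 1073741824) (W2 := 536870912) (P3 := 335544320) (W3 := 67108864)
    rfl (fun _ => rfl) k0_A04pm_023_s1

theorem s_A04pm_023_s1 {κ x : ℝ} (hκ : κ * h0 = ken x) (hx : ((335544320 : ℕ) : ℝ) / S ≤ x)
    (hx' : x ≤ (((335544320 : ℕ) : ℝ) + (67108864 : ℕ)) / S) :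
    AltA (VF κ) PP tKF tL pcF [⟨3, 0, 0, 1449551462⟩] 0 2 3 0 4 (sgb true) (sgb false) x :=
  strip_altA (m := 1449551462) true rfl hκ covF00 covF42 hx hx' c_A04pm_023_s1 cutA_nil (noExt_A)

noncomputable def cut_A04pm_033_s1 : Cut := Cut.of [[⟨4, 0, 0, 1449551462⟩]]

noncomputable def f_A04pm_033_s1 : ℕ → ℕ → ℕ → ℕ → Bool := onCell 1610612736 536870912 0 1230186008 335544320 67108864
    (rowF 2 true true false .pnn 0 3 3 (qsf 0 536870912 0 1230186008 3) ndF0q0 ndF4q3 pcF3 cut_A04pm_033_s1 Ext.none)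

def k0_A04pm_033_s1 : ∃ t, chk3 f_A04pm_033_s1 t 1 1 1 = true :=
  ⟨(b (l 6) (l 6)), by decide +kernel⟩

theorem c_A04pm_033_s1 : CertF 0 536870912 0 1230186008 335544320 67108864 true true false .pnn 0 3 3
    ndF0q0 ndF4q3 pcF3 cut_A04pm_033_s1 Ext.none :=
  certF2 (fam := true) (s1 := true) (s2 := false) (a := 0) (b := 3) (c := 3) (cn := .pnn) (n1 := ndF0q0) (n2 := ndF4q3) (pc := pcF3) (cut := cut_A04pm_033_s1) (xt := Ext.none) (P1 := 0) (W1 := 536870912) (P2 := 0) (W2 := 1230186008) (P3 := 335544320) (W3 := 67108864)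
    rfl (fun _ => rfl) k0_A04pm_033_s1

theorem s_A04pm_033_s1 {κ x : ℝ} (hκ : κ * h0 = ken x) (hx : ((335544320 : ℕ) : ℝ) / S ≤ x)
    (hx' : x ≤ (((335544320 : ℕ) : ℝ) + (67108864 : ℕ)) / S) :
    AltA (VF κ) PP tKF tL pcF [⟨3, 0, 0, 1449551462⟩] 0 3 3 0 4 (sgb true) (sgb false) x :=
  strip_altA (m := 1449551462) true rfl hκ covF00 covF43 hx hx' c_A04pm_033_s1 cutA_nil (noExt_A)

noncomputable def cut_A04pm_101_s1 : Cut := Cut.of [[⟨4, 0, 0, 1449551462⟩]]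

noncomputable def xt_A04pm_101_s1 : Ext := strExt dd true true false .u0 .s0m .u0m .npn 1 0 1 rfl rfl gf1 vv ndF0q1 ndF4q0

noncomputable def f_A04pm_101_s1 : ℕ → ℕ → ℕ → ℕ → Bool := onCell 536870912 536870912 536870912 536870912 335544320 67108864
    (rowF 1 true true false .npn 1 0 1 (qsf 536870912 536870912 0 536870912 1) ndF0q1 ndF4q0 pcF1 cut_A04pm_101_s1 xt_A04pm_101_s1)

def k0_A04pm_101_s1 : ∃ t, chk3 f_A04pm_101_s1 t 1 1 1 = true :=
  ⟨(a (a (b (b (a (b (l 3) (a (l 543539727) (l 543232015))) (b (a (l 543202575) (l 1)) (l 542903823))) (b (a (a (b (l 543728655) (l 543835919)) (b (l 543233807) (l 543452175))) (b (l 542917903) (a (l 16867312) (l 16893760)))) (a (b (a (l 543838223) (l 16873440)) (a (l 16879048) (l 16906544))) (a (l 16917024) (l 16943536))))) (b (a (b (b (l 16925856) (l 16957264)) (b (l 16986136) (l 17010136))) (b (a (l 16984120) (l 17011800)) (l 17063208))) (b (a (a (l 17009544) (l 17052488))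 (l 17113104)) (a (a (b (l 16994688) (l 16956336)) (l 17042200)) (a (l 17100624) (l 6)))))) (a (b (b (b (l 1) (a (l 542582543) (l 1))) (b (b (l 16908984) (l 16936744)) (l 16985880))) (b (b (l 17055968) (l 17126896)) (b (l 17189832) (l 6)))) (b (b (l 1) (b (l 16999896) (l 17049040))) (b (b (l 17116096) (l 17193056)) (l 6))))) (b (a (b (l 1) (a (b (l 1) (l 17127632)) (l 1))) (l 1)) (a (b (a (l 6) (l 6)) (l 6)) (l 6)))), by decide +kernel⟩

theorem c_A04pm_101_s1 : CertF 536870912 536870912 0 536870912 335544320 67108864 true true false .npn 1 0 1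
    ndF0q1 ndF4q0 pcF1 cut_A04pm_101_s1 xt_A04pm_101_s1 :=
  certF1 (fam := true) (s1 := true) (s2 := false) (a := 1) (b := 0) (c := 1) (cn := .npn) (n1 := ndF0q1) (n2 := ndF4q0) (pc := pcF1) (cut := cut_A04pm_101_s1) (xt := xt_A04pm_101_s1) (P1 := 536870912) (W1 := 536870912) (P2 := 0) (W2 := 536870912) (P3 := 335544320) (W3 := 67108864)
    rfl (fun _ => rfl) k0_A04pm_101_s1

theorem s_A04pm_101_s1 {κ x : ℝ} (hκ : κ * h0 = ken x) (hx : ((335544320 : ℕ) : ℝ) / S ≤ x)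
    (hx' : x ≤ (((335544320 : ℕ) : ℝ) + (67108864 : ℕ)) / S) :
    AltA (VF κ) PP tKF tL pcF [⟨3, 0, 0, 1449551462⟩] 1 0 1 0 4 (sgb true) (sgb false) x :=
  strip_altA (m := 1449551462) true rfl hκ covF01 covF40 hx hx' c_A04pm_101_s1 cutA_nil ((okx hx hx').extA (T := tt) (sideF hx hx') hκ rfl rfl (.O 1 true) (.N 0 false) (Or.inr rfl))

noncomputable def cut_A04pm_102_s1 : Cut := Cut.of [[⟨4, 0, 0, 1449551462⟩]]

noncomputable def f_A04pm_102_s1 : ℕ → ℕ → ℕ → ℕ → Bool := onCell 536870912 536870912 1073741824 536870912 335544320 67108864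
    (rowF 1 true true false .npp 1 0 2 (qsf 536870912 536870912 0 536870912 2) ndF0q1 ndF4q0 pcF2 cut_A04pm_102_s1 Ext.none)

def k0_A04pm_102_s1 : ∃ t, chk3 f_A04pm_102_s1 t 1 1 1 = true :=
  ⟨(a (b (a (b (b (a (a (b (l 6) (l 6)) (l 6)) (l 6)) (l 6)) (l 6)) (l 6)) (l 6)) (l 6)), by decide +kernel⟩

theorem c_A04pm_102_s1 : CertF 536870912 536870912 0 536870912 335544320 67108864 true true false .npp 1 0 2
    ndF0q1 ndF4q0 pcF2 cut_A04pm_102_s1 Ext.none :=
  certF1 (fam := true) (s1 := true) (s2 := false) (a := 1) (b := 0) (c := 2) (cn := .npp) (n1 := ndF0q1) (n2 := ndF4q0) (pc := pcF2) (cut := cut_A04pm_102_s1) (xt := Ext.none) (P1 := 536870912) (W1 := 536870912) (P2 := 0) (W2 := 536870912) (P3 := 335544320) (W3 := 67108864)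
    rfl (fun _ => rfl) k0_A04pm_102_s1

theorem s_A04pm_102_s1 {κ x : ℝ} (hκ : κ * h0 = ken x) (hx : ((335544320 : ℕ) : ℝ) / S ≤ x)
    (hx' : x ≤ (((335544320 : ℕ) : ℝ) + (67108864 : ℕ)) / S) :
    AltA (VF κ) PP tKF tL pcF [⟨3, 0, 0, 1449551462⟩] 1 0 2 0 4 (sgb true) (sgb false) x :=
  strip_altA (m := 1449551462) true rfl hκ covF01 covF40 hx hx' c_A04pm_102_s1 cutA_nil (noExt_A)

noncomputable def cut_A04pm_112_s1 : Cut := Cut.of [[⟨4, 0, 0, 1449551462⟩]]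

noncomputable def f_A04pm_112_s1 : ℕ → ℕ → ℕ → ℕ → Bool := onCell 536870912 536870912 536870912 536870912 335544320 67108864
    (rowF 0 true true false .dn 1 1 2 (qsf 536870912 536870912 536870912 536870912 2) ndF0q1 ndF4q1 pcF2 cut_A04pm_112_s1 Ext.none)

def k0_A04pm_112_s1 : ∃ t, chk3 f_A04pm_112_s1 t 1 1 1 = true :=
  ⟨(a (b (a (b (a (b (l 16991280) (l 6)) (l 6)) (l 6)) (l 6)) (l 6)) (l 6)), by decide +kernel⟩

theorem c_A04pm_112_s1 : CertF 536870912 536870912 536870912 536870912 335544320 67108864 true true false .dn 1 1 2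
    ndF0q1 ndF4q1 pcF2 cut_A04pm_112_s1 Ext.none :=
  certF0 (fam := true) (s1 := true) (s2 := false) (a := 1) (b := 1) (c := 2) (cn := .dn) (n1 := ndF0q1) (n2 := ndF4q1) (pc := pcF2) (cut := cut_A04pm_112_s1) (xt := Ext.none) (P1 := 536870912) (W1 := 536870912) (P2 := 536870912) (W2 := 536870912) (P3 := 335544320) (W3 := 67108864)
    rfl k0_A04pm_112_s1

theorem s_A04pm_112_s1 {κ x : ℝ} (hκ : κ * h0 = ken x) (hx : ((335544320 : ℕ) : ℝ) / S ≤ x)
    (hx' : x ≤ (((335544320 : ℕ) : ℝ) + (67108864 : ℕ)) / S) :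
    AltA (VF κ) PP tKF tL pcF [⟨3, 0, 0, 1449551462⟩] 1 1 2 0 4 (sgb true) (sgb false) x :=
  strip_altA (m := 1449551462) true rfl hκ covF01 covF41 hx hx' c_A04pm_112_s1 cutA_nil (noExt_A)

noncomputable def cut_A04pm_113_s1 : Cut := Cut.of [[⟨4, 0, 0, 1449551462⟩]]

noncomputable def f_A04pm_113_s1 : ℕ → ℕ → ℕ → ℕ → Bool := onCell 536870912 536870912 1610612736 536870912 335544320 67108864
    (rowF 1 true true false .nn 1 1 3 (qsf 536870912 536870912 536870912 536870912 3) ndF0q1 ndF4q1 pcF3 cut_A04pm_113_s1 Ext.none)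

def k0_A04pm_113_s1 : ∃ t, chk3 f_A04pm_113_s1 t 1 1 1 = true :=
  ⟨(l 6), by decide +kernel⟩

theorem c_A04pm_113_s1 : CertF 536870912 536870912 536870912 536870912 335544320 67108864 true true false .nn 1 1 3
    ndF0q1 ndF4q1 pcF3 cut_A04pm_113_s1 Ext.none :=
  certF1 (fam := true) (s1 := true) (s2 := false) (a := 1) (b := 1) (c := 3) (cn := .nn) (n1 := ndF0q1) (n2 := ndF4q1) (pc := pcF3) (cut := cut_A04pm_113_s1) (xt := Ext.none) (P1 := 536870912) (W1 := 536870912) (P2 := 536870912) (W2 := 536870912) (P3 := 335544320) (W3 := 67108864)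
    rfl (fun _ => rfl) k0_A04pm_113_s1

theorem s_A04pm_113_s1 {κ x : ℝ} (hκ : κ * h0 = ken x) (hx : ((335544320 : ℕ) : ℝ) / S ≤ x)
    (hx' : x ≤ (((335544320 : ℕ) : ℝ) + (67108864 : ℕ)) / S) :
    AltA (VF κ) PP tKF tL pcF [⟨3, 0, 0, 1449551462⟩] 1 1 3 0 4 (sgb true) (sgb false) x :=
  strip_altA (m := 1449551462) true rfl hκ covF01 covF41 hx hx' c_A04pm_113_s1 cutA_nil (noExt_A)

noncomputable def cut_A04pm_123_s1 : Cut := Cut.of [[⟨4, 0, 0, 1449551462⟩]]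

noncomputable def f_A04pm_123_s1 : ℕ → ℕ → ℕ → ℕ → Bool := onCell 536870912 536870912 1073741824 536870912 335544320 67108864
    (rowF 0 true true false .npn 1 2 3 (qsf 536870912 536870912 1073741824 536870912 3) ndF0q1 ndF4q2 pcF3 cut_A04pm_123_s1 Ext.none)

def k0_A04pm_123_s1 : ∃ t, chk3 f_A04pm_123_s1 t 1 1 1 = true :=
  ⟨(l 6), by decide +kernel⟩

theorem c_A04pm_123_s1 : CertF 536870912 536870912 1073741824 536870912 335544320 67108864 true true false .npn 1 2 3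
    ndF0q1 ndF4q2 pcF3 cut_A04pm_123_s1 Ext.none :=
  certF0 (fam := true) (s1 := true) (s2 := false) (a := 1) (b := 2) (c := 3) (cn := .npn) (n1 := ndF0q1) (n2 := ndF4q2) (pc := pcF3) (cut := cut_A04pm_123_s1) (xt := Ext.none) (P1 := 536870912) (W1 := 536870912) (P2 := 1073741824) (W2 := 536870912) (P3 := 335544320) (W3 := 67108864)
    rfl k0_A04pm_123_s1

theorem s_A04pm_123_s1 {κ x : ℝ} (hκ : κ * h0 = ken x) (hx : ((335544320 : ℕ) : ℝ) / S ≤ x)
    (hx' : x ≤ (((335544320 : ℕ) : ℝ) + (67108864 : ℕ)) / S) :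
    AltA (VF κ) PP tKF tL pcF [⟨3, 0, 0, 1449551462⟩] 1 2 3 0 4 (sgb true) (sgb false) x :=
  strip_altA (m := 1449551462) true rfl hκ covF01 covF42 hx hx' c_A04pm_123_s1 cutA_nil (noExt_A)

noncomputable def cut_A04pm_133_s1 : Cut := Cut.of [[⟨4, 0, 0, 1449551462⟩]]

noncomputable def f_A04pm_133_s1 : ℕ → ℕ → ℕ → ℕ → Bool := onCell 536870912 536870912 0 1230186008 335544320 67108864
    (rowF 0 true true false .dn 1 3 3 (qsf 536870912 536870912 0 1230186008 3) ndF0q1 ndF4q3 pcF3 cut_A04pm_133_s1 Ext.none)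

def k0_A04pm_133_s1 : ∃ t, chk3 f_A04pm_133_s1 t 1 1 1 = true :=
  ⟨(l 6), by decide +kernel⟩

theorem c_A04pm_133_s1 : CertF 536870912 536870912 0 1230186008 335544320 67108864 true true false .dn 1 3 3
    ndF0q1 ndF4q3 pcF3 cut_A04pm_133_s1 Ext.none :=
  certF0 (fam := true) (s1 := true) (s2 := false) (a := 1) (b := 3) (c := 3) (cn := .dn) (n1 := ndF0q1) (n2 := ndF4q3) (pc := pcF3) (cut := cut_A04pm_133_s1) (xt := Ext.none) (P1 := 536870912) (W1 := 536870912) (P2 := 0) (W2 := 1230186008) (P3 := 335544320) (W3 := 67108864)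
    rfl k0_A04pm_133_s1

theorem s_A04pm_133_s1 {κ x : ℝ} (hκ : κ * h0 = ken x) (hx : ((335544320 : ℕ) : ℝ) / S ≤ x)
    (hx' : x ≤ (((335544320 : ℕ) : ℝ) + (67108864 : ℕ)) / S) :
    AltA (VF κ) PP tKF tL pcF [⟨3, 0, 0, 1449551462⟩] 1 3 3 0 4 (sgb true) (sgb false) x :=
  strip_altA (m := 1449551462) true rfl hκ covF01 covF43 hx hx' c_A04pm_133_s1 cutA_nil (noExt_A)

noncomputable def cut_A04pm_202_s1 : Cut := Cut.of [[⟨4, 0, 0, 1449551462⟩]]

noncomputable def f_A04pm_202_s1 : ℕ → ℕ → ℕ → ℕ → Bool := onCell 0 536870912 0 536870912 335544320 67108864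
    (rowF 0 true true false .pp 2 0 2 (qsf 0 536870912 0 536870912 2) ndF0q2 ndF4q0 pcF2 cut_A04pm_202_s1 Ext.none)

def k0_A04pm_202_s1 : ∃ t, chk3 f_A04pm_202_s1 t 1 1 1 = true :=
  ⟨(l 6), by decide +kernel⟩

theorem c_A04pm_202_s1 : CertF 0 536870912 0 536870912 335544320 67108864 true true false .pp 2 0 2
    ndF0q2 ndF4q0 pcF2 cut_A04pm_202_s1 Ext.none :=
  certF0 (fam := true) (s1 := true) (s2 := false) (a := 2) (b := 0) (c := 2) (cn := .pp) (n1 := ndF0q2) (n2 := ndF4q0) (pc := pcF2) (cut := cut_A04pm_202_s1) (xt := Ext.none) (P1 := 0) (W1 := 536870912) (P2 := 0) (W2 := 536870912) (P3 := 335544320) (W3 := 67108864)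
    rfl k0_A04pm_202_s1

theorem s_A04pm_202_s1 {κ x : ℝ} (hκ : κ * h0 = ken x) (hx : ((335544320 : ℕ) : ℝ) / S ≤ x)
    (hx' : x ≤ (((335544320 : ℕ) : ℝ) + (67108864 : ℕ)) / S) :
    AltA (VF κ) PP tKF tL pcF [⟨3, 0, 0, 1449551462⟩] 2 0 2 0 4 (sgb true) (sgb false) x :=
  strip_altA (m := 1449551462) true rfl hκ covF02 covF40 hx hx' c_A04pm_202_s1 cutA_nil (noExt_A)

noncomputable def cut_A04pm_203_s1 : Cut := Cut.of [[⟨4, 0, 0, 1449551462⟩]]

noncomputable def f_A04pm_203_s1 : ℕ → ℕ → ℕ → ℕ → Bool := onCell 0 536870912 0 536870912 335544320 67108864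
    (rowF 0 true true false .up 2 0 3 (qsf 0 536870912 0 536870912 3) ndF0q2 ndF4q0 pcF3 cut_A04pm_203_s1 Ext.none)

def k0_A04pm_203_s1 : ∃ t, chk3 f_A04pm_203_s1 t 1 1 1 = true :=
  ⟨(l 6), by decide +kernel⟩

theorem c_A04pm_203_s1 : CertF 0 536870912 0 536870912 335544320 67108864 true true false .up 2 0 3
    ndF0q2 ndF4q0 pcF3 cut_A04pm_203_s1 Ext.none :=
  certF0 (fam := true) (s1 := true) (s2 := false) (a := 2) (b := 0) (c := 3) (cn := .up) (n1 := ndF0q2) (n2 := ndF4q0) (pc := pcF3) (cut := cut_A04pm_203_s1) (xt := Ext.none) (P1 := 0) (W1 := 536870912) (P2 := 0) (W2 := 536870912) (P3 := 335544320) (W3 := 67108864)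
    rfl k0_A04pm_203_s1

theorem s_A04pm_203_s1 {κ x : ℝ} (hκ : κ * h0 = ken x) (hx : ((335544320 : ℕ) : ℝ) / S ≤ x)
    (hx' : x ≤ (((335544320 : ℕ) : ℝ) + (67108864 : ℕ)) / S) :
    AltA (VF κ) PP tKF tL pcF [⟨3, 0, 0, 1449551462⟩] 2 0 3 0 4 (sgb true) (sgb false) x :=
  strip_altA (m := 1449551462) true rfl hκ covF02 covF40 hx hx' c_A04pm_203_s1 cutA_nil (noExt_A)

noncomputable def cut_A04pm_213_s1 : Cut := Cut.of [[⟨4, 0, 0, 1449551462⟩]]

noncomputable def f_A04pm_213_s1 : ℕ → ℕ → ℕ → ℕ → Bool := onCell 0 536870912 536870912 536870912 335544320 67108864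
    (rowF 0 true true false .pnn 2 1 3 (qsf 0 536870912 536870912 536870912 3) ndF0q2 ndF4q1 pcF3 cut_A04pm_213_s1 Ext.none)

def k0_A04pm_213_s1 : ∃ t, chk3 f_A04pm_213_s1 t 1 1 1 = true :=
  ⟨(l 6), by decide +kernel⟩

theorem c_A04pm_213_s1 : CertF 0 536870912 536870912 536870912 335544320 67108864 true true false .pnn 2 1 3
    ndF0q2 ndF4q1 pcF3 cut_A04pm_213_s1 Ext.none :=
  certF0 (fam := true) (s1 := true) (s2 := false) (a := 2) (b := 1) (c := 3) (cn := .pnn) (n1 := ndF0q2) (n2 := ndF4q1) (pc := pcF3) (cut := cut_A04pm_213_s1) (xt := Ext.none) (P1 := 0) (W1 := 536870912) (P2 := 536870912) (W2 := 536870912) (P3 := 335544320) (W3 := 67108864)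
    rfl k0_A04pm_213_s1

theorem s_A04pm_213_s1 {κ x : ℝ} (hκ : κ * h0 = ken x) (hx : ((335544320 : ℕ) : ℝ) / S ≤ x)
    (hx' : x ≤ (((335544320 : ℕ) : ℝ) + (67108864 : ℕ)) / S) :
    AltA (VF κ) PP tKF tL pcF [⟨3, 0, 0, 1449551462⟩] 2 1 3 0 4 (sgb true) (sgb false) x :=
  strip_altA (m := 1449551462) true rfl hκ covF02 covF41 hx hx' c_A04pm_213_s1 cutA_nil (noExt_A)

noncomputable def cut_A04mm_001_s1 : Cut := Cut.of [[⟨4, 0, 0, 1449551462⟩]]

noncomputable def f_A04mm_001_s1 : ℕ → ℕ → ℕ → ℕ → Bool := onCell 0 536870912 0 536870912 335544320 67108864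
    (rowF 0 true false false .up 0 0 1 (qsf 0 536870912 0 536870912 1) ndF0q0 ndF4q0 pcF1 cut_A04mm_001_s1 Ext.none)

def k0_A04mm_001_s1 : ∃ t, chk3 f_A04mm_001_s1 t 1 1 1 = true :=
  ⟨(l 4), by decide +kernel⟩

theorem c_A04mm_001_s1 : CertF 0 536870912 0 536870912 335544320 67108864 true false false .up 0 0 1
    ndF0q0 ndF4q0 pcF1 cut_A04mm_001_s1 Ext.none :=
  certF0 (fam := true) (s1 := false) (s2 := false) (a := 0) (b := 0) (c := 1) (cn := .up) (n1 := ndF0q0) (n2 := ndF4q0) (pc := pcF1) (cut := cut_A04mm_001_s1) (xt := Ext.none) (P1 := 0) (W1 := 536870912) (P2 := 0) (W2 := 536870912) (P3 := 335544320) (W3 := 67108864)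
    rfl k0_A04mm_001_s1

theorem s_A04mm_001_s1 {κ x : ℝ} (hκ : κ * h0 = ken x) (hx : ((335544320 : ℕ) : ℝ) / S ≤ x)
    (hx' : x ≤ (((335544320 : ℕ) : ℝ) + (67108864 : ℕ)) / S) :
    AltA (VF κ) PP tKF tL pcF [⟨3, 0, 0, 1449551462⟩] 0 0 1 0 4 (sgb false) (sgb false) x :=
  strip_altA (m := 1449551462) true rfl hκ covF00 covF40 hx hx' c_A04mm_001_s1 cutA_nil (noExt_A)

noncomputable def cut_A04mm_011_s1 : Cut := Cut.of [[⟨4, 0, 0, 1449551462⟩]]

noncomputable def f_A04mm_011_s1 : ℕ → ℕ → ℕ → ℕ → Bool := onCell 0 536870912 536870912 536870912 335544320 67108864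
    (rowF 0 true false false .pnn 0 1 1 (qsf 0 536870912 536870912 536870912 1) ndF0q0 ndF4q1 pcF1 cut_A04mm_011_s1 Ext.none)

def k0_A04mm_011_s1 : ∃ t, chk3 f_A04mm_011_s1 t 1 1 1 = true :=
  ⟨(l 4), by decide +kernel⟩

theorem c_A04mm_011_s1 : CertF 0 536870912 536870912 536870912 335544320 67108864 true false false .pnn 0 1 1
    ndF0q0 ndF4q1 pcF1 cut_A04mm_011_s1 Ext.none :=
  certF0 (fam := true) (s1 := false) (s2 := false) (a := 0) (b := 1) (c := 1) (cn := .pnn) (n1 := ndF0q0) (n2 := ndF4q1) (pc := pcF1) (cut := cut_A04mm_011_s1) (xt := Ext.none) (P1 := 0) (W1 := 536870912) (P2 := 536870912) (W2 := 536870912) (P3 := 335544320) (W3 := 67108864)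
    rfl k0_A04mm_011_s1

theorem s_A04mm_011_s1 {κ x : ℝ} (hκ : κ * h0 = ken x) (hx : ((335544320 : ℕ) : ℝ) / S ≤ x)
    (hx' : x ≤ (((335544320 : ℕ) : ℝ) + (67108864 : ℕ)) / S) :
    AltA (VF κ) PP tKF tL pcF [⟨3, 0, 0, 1449551462⟩] 0 1 1 0 4 (sgb false) (sgb false) x :=
  strip_altA (m := 1449551462) true rfl hκ covF00 covF41 hx hx' c_A04mm_011_s1 cutA_nil (noExt_A)

noncomputable def cut_A04mm_012_s1 : Cut := Cut.of [[⟨4, 0, 0, 1449551462⟩]]

noncomputable def f_A04mm_012_s1 : ℕ → ℕ → ℕ → ℕ → Bool := onCell 0 536870912 536870912 536870912 335544320 67108864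
    (rowF 0 true false false .pnp 0 1 2 (qsf 0 536870912 536870912 536870912 2) ndF0q0 ndF4q1 pcF2 cut_A04mm_012_s1 Ext.none)

def k0_A04mm_012_s1 : ∃ t, chk3 f_A04mm_012_s1 t 1 1 1 = true :=
  ⟨(l 4), by decide +kernel⟩

theorem c_A04mm_012_s1 : CertF 0 536870912 536870912 536870912 335544320 67108864 true false false .pnp 0 1 2
    ndF0q0 ndF4q1 pcF2 cut_A04mm_012_s1 Ext.none :=
  certF0 (fam := true) (s1 := false) (s2 := false) (a := 0) (b := 1) (c := 2) (cn := .pnp) (n1 := ndF0q0) (n2 := ndF4q1) (pc := pcF2) (cut := cut_A04mm_012_s1) (xt := Ext.none) (P1 := 0) (W1 := 536870912) (P2 := 536870912) (W2 := 536870912) (P3 := 335544320) (W3 := 67108864)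
    rfl k0_A04mm_012_s1

theorem s_A04mm_012_s1 {κ x : ℝ} (hκ : κ * h0 = ken x) (hx : ((335544320 : ℕ) : ℝ) / S ≤ x)
    (hx' : x ≤ (((335544320 : ℕ) : ℝ) + (67108864 : ℕ)) / S) :
    AltA (VF κ) PP tKF tL pcF [⟨3, 0, 0, 1449551462⟩] 0 1 2 0 4 (sgb false) (sgb false) x :=
  strip_altA (m := 1449551462) true rfl hκ covF00 covF41 hx hx' c_A04mm_012_s1 cutA_nil (noExt_A)

noncomputable def cut_A04mm_022_s1 : Cut := Cut.of [[⟨4, 0, 0, 1449551462⟩]]

noncomputable def f_A04mm_022_s1 : ℕ → ℕ → ℕ → ℕ → Bool := onCell 0 536870912 1073741824 536870912 335544320 67108864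
    (rowF 0 true false false .pp 0 2 2 (qsf 0 536870912 1073741824 536870912 2) ndF0q0 ndF4q2 pcF2 cut_A04mm_022_s1 Ext.none)

def k0_A04mm_022_s1 : ∃ t, chk3 f_A04mm_022_s1 t 1 1 1 = true :=
  ⟨(l 4), by decide +kernel⟩

theorem c_A04mm_022_s1 : CertF 0 536870912 1073741824 536870912 335544320 67108864 true false false .pp 0 2 2
    ndF0q0 ndF4q2 pcF2 cut_A04mm_022_s1 Ext.none :=
  certF0 (fam := true) (s1 := false) (s2 := false) (a := 0) (b := 2) (c := 2) (cn := .pp) (n1 := ndF0q0) (n2 := ndF4q2) (pc := pcF2) (cut := cut_A04mm_022_s1) (xt := Ext.none) (P1 := 0) (W1 := 536870912) (P2 := 1073741824) (W2 := 536870912) (P3 := 335544320) (W3 := 67108864)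
    rfl k0_A04mm_022_s1

theorem s_A04mm_022_s1 {κ x : ℝ} (hκ : κ * h0 = ken x) (hx : ((335544320 : ℕ) : ℝ) / S ≤ x)
    (hx' : x ≤ (((335544320 : ℕ) : ℝ) + (67108864 : ℕ)) / S) :
    AltA (VF κ) PP tKF tL pcF [⟨3, 0, 0, 1449551462⟩] 0 2 2 0 4 (sgb false) (sgb false) x :=
  strip_altA (m := 1449551462) true rfl hκ covF00 covF42 hx hx' c_A04mm_022_s1 cutA_nil (noExt_A)

noncomputable def cut_A04mm_023_s1 : Cut := Cut.of [[⟨4, 0, 0, 1449551462⟩]]

noncomputable def f_A04mm_023_s1 : ℕ → ℕ → ℕ → ℕ → Bool := onCell 0 536870912 1073741824 536870912 335544320 67108864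
    (rowF 0 true false false .up 0 2 3 (qsf 0 536870912 1073741824 536870912 3) ndF0q0 ndF4q2 pcF3 cut_A04mm_023_s1 Ext.none)

def k0_A04mm_023_s1 : ∃ t, chk3 f_A04mm_023_s1 t 1 1 1 = true :=
  ⟨(l 4), by decide +kernel⟩

theorem c_A04mm_023_s1 : CertF 0 536870912 1073741824 536870912 335544320 67108864 true false false .up 0 2 3
    ndF0q0 ndF4q2 pcF3 cut_A04mm_023_s1 Ext.none :=
  certF0 (fam := true) (s1 := false) (s2 := false) (a := 0) (b := 2) (c := 3) (cn := .up) (n1 := ndF0q0) (n2 := ndF4q2) (pc := pcF3) (cut := cut_A04mm_023_s1) (xt := Ext.none) (P1 := 0) (W1 := 536870912) (P2 := 1073741824) (W2 := 536870912) (P3 := 335544320) (W3 := 67108864)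
    rfl k0_A04mm_023_s1

theorem s_A04mm_023_s1 {κ x : ℝ} (hκ : κ * h0 = ken x) (hx : ((335544320 : ℕ) : ℝ) / S ≤ x)
    (hx' : x ≤ (((335544320 : ℕ) : ℝ) + (67108864 : ℕ)) / S) :
    AltA (VF κ) PP tKF tL pcF [⟨3, 0, 0, 1449551462⟩] 0 2 3 0 4 (sgb false) (sgb false) x :=
  strip_altA (m := 1449551462) true rfl hκ covF00 covF42 hx hx' c_A04mm_023_s1 cutA_nil (noExt_A)

noncomputable def cut_A04mm_033_s1 : Cut := Cut.of [[⟨4, 0, 0, 1449551462⟩]]

noncomputable def f_A04mm_033_s1 : ℕ → ℕ → ℕ → ℕ → Bool := onCell 0 536870912 0 1230186008 335544320 67108864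
    (rowF 0 true false false .pnn 0 3 3 (qsf 0 536870912 0 1230186008 3) ndF0q0 ndF4q3 pcF3 cut_A04mm_033_s1 Ext.none)

def k0_A04mm_033_s1 : ∃ t, chk3 f_A04mm_033_s1 t 1 1 1 = true :=
  ⟨(l 4), by decide +kernel⟩

theorem c_A04mm_033_s1 : CertF 0 536870912 0 1230186008 335544320 67108864 true false false .pnn 0 3 3
    ndF0q0 ndF4q3 pcF3 cut_A04mm_033_s1 Ext.none :=
  certF0 (fam := true) (s1 := false) (s2 := false) (a := 0) (b := 3) (c := 3) (cn := .pnn) (n1 := ndF0q0) (n2 := ndF4q3) (pc := pcF3) (cut := cut_A04mm_033_s1) (xt := Ext.none) (P1 := 0) (W1 := 536870912) (P2 := 0) (W2 := 1230186008) (P3 := 335544320) (W3 := 67108864)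
    rfl k0_A04mm_033_s1

theorem s_A04mm_033_s1 {κ x : ℝ} (hκ : κ * h0 = ken x) (hx : ((335544320 : ℕ) : ℝ) / S ≤ x)
    (hx' : x ≤ (((335544320 : ℕ) : ℝ) + (67108864 : ℕ)) / S) :
    AltA (VF κ) PP tKF tL pcF [⟨3, 0, 0, 1449551462⟩] 0 3 3 0 4 (sgb false) (sgb false) x :=
  strip_altA (m := 1449551462) true rfl hκ covF00 covF43 hx hx' c_A04mm_033_s1 cutA_nil (noExt_A)

noncomputable def cut_A04mm_101_s1 : Cut := Cut.of [[⟨4, 0, 0, 1449551462⟩]]

noncomputable def f_A04mm_101_s1 : ℕ → ℕ → ℕ → ℕ → Bool := onCell 536870912 536870912 0 536870912 335544320 67108864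
    (rowF 0 true false false .npn 1 0 1 (qsf 536870912 536870912 0 536870912 1) ndF0q1 ndF4q0 pcF1 cut_A04mm_101_s1 Ext.none)

def k0_A04mm_101_s1 : ∃ t, chk3 f_A04mm_101_s1 t 1 1 1 = true :=
  ⟨(l 4), by decide +kernel⟩

theorem c_A04mm_101_s1 : CertF 536870912 536870912 0 536870912 335544320 67108864 true false false .npn 1 0 1
    ndF0q1 ndF4q0 pcF1 cut_A04mm_101_s1 Ext.none :=
  certF0 (fam := true) (s1 := false) (s2 := false) (a := 1) (b := 0) (c := 1) (cn := .npn) (n1 := ndF0q1) (n2 := ndF4q0) (pc := pcF1) (cut := cut_A04mm_101_s1) (xt := Ext.none) (P1 := 536870912) (W1 := 536870912) (P2 := 0) (W2 := 536870912) (P3 := 335544320) (W3 := 67108864)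
    rfl k0_A04mm_101_s1

theorem s_A04mm_101_s1 {κ x : ℝ} (hκ : κ * h0 = ken x) (hx : ((335544320 : ℕ) : ℝ) / S ≤ x)
    (hx' : x ≤ (((335544320 : ℕ) : ℝ) + (67108864 : ℕ)) / S) :
    AltA (VF κ) PP tKF tL pcF [⟨3, 0, 0, 1449551462⟩] 1 0 1 0 4 (sgb false) (sgb false) x :=
  strip_altA (m := 1449551462) true rfl hκ covF01 covF40 hx hx' c_A04mm_101_s1 cutA_nil (noExt_A)

noncomputable def cut_A04mm_102_s1 : Cut := Cut.of [[⟨4, 0, 0, 1449551462⟩]]

noncomputable def f_A04mm_102_s1 : ℕ → ℕ → ℕ → ℕ → Bool := onCell 536870912 536870912 0 536870912 335544320 67108864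
    (rowF 0 true false false .npp 1 0 2 (qsf 536870912 536870912 0 536870912 2) ndF0q1 ndF4q0 pcF2 cut_A04mm_102_s1 Ext.none)

def k0_A04mm_102_s1 : ∃ t, chk3 f_A04mm_102_s1 t 1 1 1 = true :=
  ⟨(l 4), by decide +kernel⟩

theorem c_A04mm_102_s1 : CertF 536870912 536870912 0 536870912 335544320 67108864 true false false .npp 1 0 2
    ndF0q1 ndF4q0 pcF2 cut_A04mm_102_s1 Ext.none :=
  certF0 (fam := true) (s1 := false) (s2 := false) (a := 1) (b := 0) (c := 2) (cn := .npp) (n1 := ndF0q1) (n2 := ndF4q0) (pc := pcF2) (cut := cut_A04mm_102_s1) (xt := Ext.none) (P1 := 536870912) (W1 := 536870912) (P2 := 0) (W2 := 536870912) (P3 := 335544320) (W3 := 67108864)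
    rfl k0_A04mm_102_s1

theorem s_A04mm_102_s1 {κ x : ℝ} (hκ : κ * h0 = ken x) (hx : ((335544320 : ℕ) : ℝ) / S ≤ x)
    (hx' : x ≤ (((335544320 : ℕ) : ℝ) + (67108864 : ℕ)) / S) :
    AltA (VF κ) PP tKF tL pcF [⟨3, 0, 0, 1449551462⟩] 1 0 2 0 4 (sgb false) (sgb false) x :=
  strip_altA (m := 1449551462) true rfl hκ covF01 covF40 hx hx' c_A04mm_102_s1 cutA_nil (noExt_A)

noncomputable def cut_A04mm_112_s1 : Cut := Cut.of [[⟨4, 0, 0, 1449551462⟩]]

noncomputable def f_A04mm_112_s1 : ℕ → ℕ → ℕ → ℕ → Bool := onCell 536870912 536870912 536870912 536870912 335544320 67108864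
    (rowF 0 true false false .dn 1 1 2 (qsf 536870912 536870912 536870912 536870912 2) ndF0q1 ndF4q1 pcF2 cut_A04mm_112_s1 Ext.none)

def k0_A04mm_112_s1 : ∃ t, chk3 f_A04mm_112_s1 t 1 1 1 = true :=
  ⟨(l 4), by decide +kernel⟩

theorem c_A04mm_112_s1 : CertF 536870912 536870912 536870912 536870912 335544320 67108864 true false false .dn 1 1 2
    ndF0q1 ndF4q1 pcF2 cut_A04mm_112_s1 Ext.none :=
  certF0 (fam := true) (s1 := false) (s2 := false) (a := 1) (b := 1) (c := 2) (cn := .dn) (n1 := ndF0q1) (n2 := ndF4q1) (pc := pcF2) (cut := cut_A04mm_112_s1) (xt := Ext.none) (P1 := 536870912) (W1 := 536870912) (P2 := 536870912) (W2 := 536870912) (P3 := 335544320) (W3 := 67108864)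
    rfl k0_A04mm_112_s1

theorem s_A04mm_112_s1 {κ x : ℝ} (hκ : κ * h0 = ken x) (hx : ((335544320 : ℕ) : ℝ) / S ≤ x)
    (hx' : x ≤ (((335544320 : ℕ) : ℝ) + (67108864 : ℕ)) / S) :
    AltA (VF κ) PP tKF tL pcF [⟨3, 0, 0, 1449551462⟩] 1 1 2 0 4 (sgb false) (sgb false) x :=
  strip_altA (m := 1449551462) true rfl hκ covF01 covF41 hx hx' c_A04mm_112_s1 cutA_nil (noExt_A)

noncomputable def cut_A04mm_113_s1 : Cut := Cut.of [[⟨4, 0, 0, 1449551462⟩]]

noncomputable def f_A04mm_113_s1 : ℕ → ℕ → ℕ → ℕ → Bool := onCell 536870912 536870912 536870912 536870912 335544320 67108864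
    (rowF 0 true false false .nn 1 1 3 (qsf 536870912 536870912 536870912 536870912 3) ndF0q1 ndF4q1 pcF3 cut_A04mm_113_s1 Ext.none)

def k0_A04mm_113_s1 : ∃ t, chk3 f_A04mm_113_s1 t 1 1 1 = true :=
  ⟨(l 4), by decide +kernel⟩

theorem c_A04mm_113_s1 : CertF 536870912 536870912 536870912 536870912 335544320 67108864 true false false .nn 1 1 3
    ndF0q1 ndF4q1 pcF3 cut_A04mm_113_s1 Ext.none :=
  certF0 (fam := true) (s1 := false) (s2 := false) (a := 1) (b := 1) (c := 3) (cn := .nn) (n1 := ndF0q1) (n2 := ndF4q1) (pc := pcF3) (cut := cut_A04mm_113_s1) (xt := Ext.none) (P1 := 536870912) (W1 := 536870912) (P2 := 536870912) (W2 := 536870912) (P3 := 335544320) (W3 := 67108864)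
    rfl k0_A04mm_113_s1

theorem s_A04mm_113_s1 {κ x : ℝ} (hκ : κ * h0 = ken x) (hx : ((335544320 : ℕ) : ℝ) / S ≤ x)
    (hx' : x ≤ (((335544320 : ℕ) : ℝ) + (67108864 : ℕ)) / S) :
    AltA (VF κ) PP tKF tL pcF [⟨3, 0, 0, 1449551462⟩] 1 1 3 0 4 (sgb false) (sgb false) x :=
  strip_altA (m := 1449551462) true rfl hκ covF01 covF41 hx hx' c_A04mm_113_s1 cutA_nil (noExt_A)

noncomputable def cut_A04mm_123_s1 : Cut := Cut.of [[⟨4, 0, 0, 1449551462⟩]]

noncomputable def f_A04mm_123_s1 : ℕ → ℕ → ℕ → ℕ → Bool := onCell 536870912 536870912 1073741824 536870912 335544320 67108864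
    (rowF 0 true false false .npn 1 2 3 (qsf 536870912 536870912 1073741824 536870912 3) ndF0q1 ndF4q2 pcF3 cut_A04mm_123_s1 Ext.none)

def k0_A04mm_123_s1 : ∃ t, chk3 f_A04mm_123_s1 t 1 1 1 = true :=
  ⟨(l 4), by decide +kernel⟩

theorem c_A04mm_123_s1 : CertF 536870912 536870912 1073741824 536870912 335544320 67108864 true false false .npn 1 2 3
    ndF0q1 ndF4q2 pcF3 cut_A04mm_123_s1 Ext.none :=
  certF0 (fam := true) (s1 := false) (s2 := false) (a := 1) (b := 2) (c := 3) (cn := .npn) (n1 := ndF0q1) (n2 := ndF4q2) (pc := pcF3) (cut := cut_A04mm_123_s1) (xt := Ext.none) (P1 := 536870912) (W1 := 536870912) (P2 := 1073741824) (W2 := 536870912) (P3 := 335544320) (W3 := 67108864)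
    rfl k0_A04mm_123_s1

theorem s_A04mm_123_s1 {κ x : ℝ} (hκ : κ * h0 = ken x) (hx : ((335544320 : ℕ) : ℝ) / S ≤ x)
    (hx' : x ≤ (((335544320 : ℕ) : ℝ) + (67108864 : ℕ)) / S) :
    AltA (VF κ) PP tKF tL pcF [⟨3, 0, 0, 1449551462⟩] 1 2 3 0 4 (sgb false) (sgb false) x :=
  strip_altA (m := 1449551462) true rfl hκ covF01 covF42 hx hx' c_A04mm_123_s1 cutA_nil (noExt_A)

noncomputable def cut_A04mm_133_s1 : Cut := Cut.of [[⟨4, 0, 0, 1449551462⟩]]

noncomputable def f_A04mm_133_s1 : ℕ → ℕ → ℕ → ℕ → Bool := onCell 536870912 536870912 0 1230186008 335544320 67108864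
    (rowF 0 true false false .dn 1 3 3 (qsf 536870912 536870912 0 1230186008 3) ndF0q1 ndF4q3 pcF3 cut_A04mm_133_s1 Ext.none)

def k0_A04mm_133_s1 : ∃ t, chk3 f_A04mm_133_s1 t 1 1 1 = true :=
  ⟨(l 4), by decide +kernel⟩

theorem c_A04mm_133_s1 : CertF 536870912 536870912 0 1230186008 335544320 67108864 true false false .dn 1 3 3
    ndF0q1 ndF4q3 pcF3 cut_A04mm_133_s1 Ext.none :=
  certF0 (fam := true) (s1 := false) (s2 := false) (a := 1) (b := 3) (c := 3) (cn := .dn) (n1 := ndF0q1) (n2 := ndF4q3) (pc := pcF3) (cut := cut_A04mm_133_s1) (xt := Ext.none) (P1 := 536870912) (W1 := 536870912) (P2 := 0) (W2 := 1230186008) (P3 := 335544320) (W3 := 67108864)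
    rfl k0_A04mm_133_s1

theorem s_A04mm_133_s1 {κ x : ℝ} (hκ : κ * h0 = ken x) (hx : ((335544320 : ℕ) : ℝ) / S ≤ x)
    (hx' : x ≤ (((335544320 : ℕ) : ℝ) + (67108864 : ℕ)) / S) :
    AltA (VF κ) PP tKF tL pcF [⟨3, 0, 0, 1449551462⟩] 1 3 3 0 4 (sgb false) (sgb false) x :=
  strip_altA (m := 1449551462) true rfl hκ covF01 covF43 hx hx' c_A04mm_133_s1 cutA_nil (noExt_A)

noncomputable def cut_A04mm_202_s1 : Cut := Cut.of [[⟨4, 0, 0, 1449551462⟩]]

noncomputable def f_A04mm_202_s1 : ℕ → ℕ → ℕ → ℕ → Bool := onCell 0 536870912 0 536870912 335544320 67108864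
    (rowF 0 true false false .pp 2 0 2 (qsf 0 536870912 0 536870912 2) ndF0q2 ndF4q0 pcF2 cut_A04mm_202_s1 Ext.none)

def k0_A04mm_202_s1 : ∃ t, chk3 f_A04mm_202_s1 t 1 1 1 = true :=
  ⟨(l 4), by decide +kernel⟩

theorem c_A04mm_202_s1 : CertF 0 536870912 0 536870912 335544320 67108864 true false false .pp 2 0 2
    ndF0q2 ndF4q0 pcF2 cut_A04mm_202_s1 Ext.none :=
  certF0 (fam := true) (s1 := false) (s2 := false) (a := 2) (b := 0) (c := 2) (cn := .pp) (n1 := ndF0q2) (n2 := ndF4q0) (pc := pcF2) (cut := cut_A04mm_202_s1) (xt := Ext.none) (P1 := 0) (W1 := 536870912) (P2 := 0) (W2 := 536870912) (P3 := 335544320) (W3 := 67108864)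
    rfl k0_A04mm_202_s1

theorem s_A04mm_202_s1 {κ x : ℝ} (hκ : κ * h0 = ken x) (hx : ((335544320 : ℕ) : ℝ) / S ≤ x)
    (hx' : x ≤ (((335544320 : ℕ) : ℝ) + (67108864 : ℕ)) / S) :
    AltA (VF κ) PP tKF tL pcF [⟨3, 0, 0, 1449551462⟩] 2 0 2 0 4 (sgb false) (sgb false) x :=
  strip_altA (m := 1449551462) true rfl hκ covF02 covF40 hx hx' c_A04mm_202_s1 cutA_nil (noExt_A)

noncomputable def cut_A04mm_203_s1 : Cut := Cut.of [[⟨4, 0, 0, 1449551462⟩]]

noncomputable def f_A04mm_203_s1 : ℕ → ℕ → ℕ → ℕ → Bool := onCell 0 536870912 0 536870912 335544320 67108864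
    (rowF 0 true false false .up 2 0 3 (qsf 0 536870912 0 536870912 3) ndF0q2 ndF4q0 pcF3 cut_A04mm_203_s1 Ext.none)

def k0_A04mm_203_s1 : ∃ t, chk3 f_A04mm_203_s1 t 1 1 1 = true :=
  ⟨(l 4), by decide +kernel⟩

theorem c_A04mm_203_s1 : CertF 0 536870912 0 536870912 335544320 67108864 true false false .up 2 0 3
    ndF0q2 ndF4q0 pcF3 cut_A04mm_203_s1 Ext.none :=
  certF0 (fam := true) (s1 := false) (s2 := false) (a := 2) (b := 0) (c := 3) (cn := .up) (n1 := ndF0q2) (n2 := ndF4q0) (pc := pcF3) (cut := cut_A04mm_203_s1) (xt := Ext.none) (P1 := 0) (W1 := 536870912) (P2 := 0) (W2 := 536870912) (P3 := 335544320) (W3 := 67108864)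
    rfl k0_A04mm_203_s1

theorem s_A04mm_203_s1 {κ x : ℝ} (hκ : κ * h0 = ken x) (hx : ((335544320 : ℕ) : ℝ) / S ≤ x)
    (hx' : x ≤ (((335544320 : ℕ) : ℝ) + (67108864 : ℕ)) / S) :
    AltA (VF κ) PP tKF tL pcF [⟨3, 0, 0, 1449551462⟩] 2 0 3 0 4 (sgb false) (sgb false) x :=
  strip_altA (m := 1449551462) true rfl hκ covF02 covF40 hx hx' c_A04mm_203_s1 cutA_nil (noExt_A)

noncomputable def cut_A04mm_213_s1 : Cut := Cut.of [[⟨4, 0, 0, 1449551462⟩]]

noncomputable def f_A04mm_213_s1 : ℕ → ℕ → ℕ → ℕ → Bool := onCell 0 536870912 536870912 536870912 335544320 67108864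
    (rowF 0 true false false .pnn 2 1 3 (qsf 0 536870912 536870912 536870912 3) ndF0q2 ndF4q1 pcF3 cut_A04mm_213_s1 Ext.none)

def k0_A04mm_213_s1 : ∃ t, chk3 f_A04mm_213_s1 t 1 1 1 = true :=
  ⟨(l 4), by decide +kernel⟩

theorem c_A04mm_213_s1 : CertF 0 536870912 536870912 536870912 335544320 67108864 true false false .pnn 2 1 3
    ndF0q2 ndF4q1 pcF3 cut_A04mm_213_s1 Ext.none :=
  certF0 (fam := true) (s1 := false) (s2 := false) (a := 2) (b := 1) (c := 3) (cn := .pnn) (n1 := ndF0q2) (n2 := ndF4q1) (pc := pcF3) (cut := cut_A04mm_213_s1) (xt := Ext.none) (P1 := 0) (W1 := 536870912) (P2 := 536870912) (W2 := 536870912) (P3 := 335544320) (W3 := 67108864)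
    rfl k0_A04mm_213_s1

theorem s_A04mm_213_s1 {κ x : ℝ} (hκ : κ * h0 = ken x) (hx : ((335544320 : ℕ) : ℝ) / S ≤ x)
    (hx' : x ≤ (((335544320 : ℕ) : ℝ) + (67108864 : ℕ)) / S) :
    AltA (VF κ) PP tKF tL pcF [⟨3, 0, 0, 1449551462⟩] 2 1 3 0 4 (sgb false) (sgb false) x :=
  strip_altA (m := 1449551462) true rfl hκ covF02 covF41 hx hx' c_A04mm_213_s1 cutA_nil (noExt_A)

noncomputable def cut_B00pp_001_s1 : Cut := Cut.of [[⟨4, 0, 0, 1449551462⟩]]

noncomputable def f_B00pp_001_s1 : ℕ → ℕ → ℕ → ℕ → Bool := onCell 0 536870912 0 536870912 335544320 67108864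
    (rowF 1 false true true .up 0 0 1 (qsf 0 536870912 536870912 536870912 0) ndF0q0 ndF0q1 pcF0 cut_B00pp_001_s1 Ext.none)

def k0_B00pp_001_s1 : ∃ t, chk3 f_B00pp_001_s1 t 1 1 1 = true :=
  ⟨(l 3), by decide +kernel⟩

theorem c_B00pp_001_s1 : CertF 0 536870912 536870912 536870912 335544320 67108864 false true true .up 0 0 1
    ndF0q0 ndF0q1 pcF0 cut_B00pp_001_s1 Ext.none :=
  certF1 (fam := false) (s1 := true) (s2 := true) (a := 0) (b := 0) (c := 1) (cn := .up) (n1 := ndF0q0) (n2 := ndF0q1) (pc := pcF0) (cut := cut_B00pp_001_s1) (xt := Ext.none) (P1 := 0) (W1 := 536870912) (P2 := 536870912) (W2 := 536870912) (P3 := 335544320) (W3 := 67108864)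
    rfl (fun _ => rfl) k0_B00pp_001_s1

theorem s_B00pp_001_s1 {κ x : ℝ} (hκ : κ * h0 = ken x) (hx : ((335544320 : ℕ) : ℝ) / S ≤ x)
    (hx' : x ≤ (((335544320 : ℕ) : ℝ) + (67108864 : ℕ)) / S) :
    AltB (VF κ) PP tKF tL pcF [⟨3, 0, 0, 1449551462⟩] 0 0 1 0 0 (sgb true) (sgb true) x :=
  strip_altB (m := 1449551462) true rfl hκ covF00 covF01 hx hx' c_B00pp_001_s1 cutB_nil (noExt_B)

noncomputable def cut_B00pp_001_s3 : Cut := Cut.of [[⟨3, 0, 0, 2845415833⟩]]

noncomputable def f_B00pp_001_s3 : ℕ → ℕ → ℕ → ℕ → Bool := onCell 0 536870912 536870912 536870912 335544320 67108864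
    (rowF 0 false true true .up 0 0 1 (qsf 0 536870912 536870912 536870912 0) ndF0q0 ndF0q1 pcF0 cut_B00pp_001_s3 Ext.none)

def k0_B00pp_001_s3 : ∃ t, chk3 f_B00pp_001_s3 t 1 1 1 = true :=
  ⟨(l 6), by decide +kernel⟩

theorem c_B00pp_001_s3 : CertF 0 536870912 536870912 536870912 335544320 67108864 false true true .up 0 0 1
    ndF0q0 ndF0q1 pcF0 cut_B00pp_001_s3 Ext.none :=
  certF0 (fam := false) (s1 := true) (s2 := true) (a := 0) (b := 0) (c := 1) (cn := .up) (n1 := ndF0q0) (n2 := ndF0q1) (pc := pcF0) (cut := cut_B00pp_001_s3) (xt := Ext.none) (P1 := 0) (W1 := 536870912) (P2 := 536870912) (W2 := 536870912) (P3 := 335544320) (W3 := 67108864)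
    rfl k0_B00pp_001_s3

theorem s_B00pp_001_s3 {κ x : ℝ} (hκ : κ * h0 = ken x) (hx : ((335544320 : ℕ) : ℝ) / S ≤ x)
    (hx' : x ≤ (((335544320 : ℕ) : ℝ) + (67108864 : ℕ)) / S) :
    AltB (VF κ) PP tKF tL pcF [⟨4, 0, 0, 2845415833⟩] 0 0 1 0 0 (sgb true) (sgb true) x :=
  strip_altB (m := 2845415833) false rfl hκ covF00 covF01 hx hx' c_B00pp_001_s3 cutB_nil (noExt_B)

noncomputable def cut_B00pp_011_s1 : Cut := Cut.of [[⟨4, 0, 0, 1449551462⟩], [⟨0, 0, 0, 67108864⟩, ⟨1, 1, 0, 67108864⟩, ⟨2, 1, 0, 67108864⟩]]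

noncomputable def f_B00pp_011_s1 : ℕ → ℕ → ℕ → ℕ → Bool := onCell 536870912 536870912 536870912 536870912 335544320 67108864
    (rowF 2 false true true .pnn 0 1 1 (qsf 0 536870912 536870912 536870912 1) ndF0q0 ndF0q1 pcF1 cut_B00pp_011_s1 Ext.none)

def k0_B00pp_011_s1 : ∃ t, chk3 f_B00pp_011_s1 t 1 1 1 = true :=
  ⟨(a (l 3) (b (l 3) (a (l 3) (b (l 3) (b (l 3) (a (l 3) (b (l 3) (a (l 3) (l 14))))))))), by decide +kernel⟩

theorem c_B00pp_011_s1 : CertF 0 536870912 536870912 536870912 335544320 67108864 false true true .pnn 0 1 1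
    ndF0q0 ndF0q1 pcF1 cut_B00pp_011_s1 Ext.none :=
  certF2 (fam := false) (s1 := true) (s2 := true) (a := 0) (b := 1) (c := 1) (cn := .pnn) (n1 := ndF0q0) (n2 := ndF0q1) (pc := pcF1) (cut := cut_B00pp_011_s1) (xt := Ext.none) (P1 := 0) (W1 := 536870912) (P2 := 536870912) (W2 := 536870912) (P3 := 335544320) (W3 := 67108864)
    rfl (fun _ => rfl) k0_B00pp_011_s1

theorem s_B00pp_011_s1 {κ x : ℝ} (hκ : κ * h0 = ken x) (hx : ((335544320 : ℕ) : ℝ) / S ≤ x)
    (hx' : x ≤ (((335544320 : ℕ) : ℝ) + (67108864 : ℕ)) / S)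
    (H : CutB (VF κ) PP tKF tL pcF (Cut.of [[⟨0, 0, 0, 67108864⟩, ⟨1, 1, 0, 67108864⟩, ⟨2, 1, 0, 67108864⟩]]) 0 1 1 0 0 (sgb true) (sgb true) x) :
    AltB (VF κ) PP tKF tL pcF [⟨3, 0, 0, 1449551462⟩] 0 1 1 0 0 (sgb true) (sgb true) x :=
  strip_altB (m := 1449551462) true rfl hκ covF00 covF01 hx hx' c_B00pp_011_s1 H (noExt_B)

noncomputable def cut_B00pp_011_s3 : Cut := Cut.of [[⟨3, 0, 0, 2845415833⟩], [⟨0, 0, 0, 67108864⟩, ⟨1, 1, 0, 67108864⟩, ⟨2, 1, 0, 67108864⟩]]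

noncomputable def f_B00pp_011_s3 : ℕ → ℕ → ℕ → ℕ → Bool := onCell 0 536870912 536870912 536870912 335544320 67108864
    (rowF 0 false true true .pnn 0 1 1 (qsf 0 536870912 536870912 536870912 1) ndF0q0 ndF0q1 pcF1 cut_B00pp_011_s3 Ext.none)

def k0_B00pp_011_s3 : ∃ t, chk3 f_B00pp_011_s3 t 1 1 1 = true :=
  ⟨(l 6), by decide +kernel⟩

theorem c_B00pp_011_s3 : CertF 0 536870912 536870912 536870912 335544320 67108864 false true true .pnn 0 1 1
    ndF0q0 ndF0q1 pcF1 cut_B00pp_011_s3 Ext.none :=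
  certF0 (fam := false) (s1 := true) (s2 := true) (a := 0) (b := 1) (c := 1) (cn := .pnn) (n1 := ndF0q0) (n2 := ndF0q1) (pc := pcF1) (cut := cut_B00pp_011_s3) (xt := Ext.none) (P1 := 0) (W1 := 536870912) (P2 := 536870912) (W2 := 536870912) (P3 := 335544320) (W3 := 67108864)
    rfl k0_B00pp_011_s3

theorem s_B00pp_011_s3 {κ x : ℝ} (hκ : κ * h0 = ken x) (hx : ((335544320 : ℕ) : ℝ) / S ≤ x)
    (hx' : x ≤ (((335544320 : ℕ) : ℝ) + (67108864 : ℕ)) / S)
    (H : CutB (VF κ) PP tKF tL pcF (Cut.of [[⟨0, 0, 0, 67108864⟩, ⟨1, 1, 0, 67108864⟩, ⟨2, 1, 0, 67108864⟩]]) 0 1 1 0 0 (sgb true) (sgb true) x) :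
    AltB (VF κ) PP tKF tL pcF [⟨4, 0, 0, 2845415833⟩] 0 1 1 0 0 (sgb true) (sgb true) x :=
  strip_altB (m := 2845415833) false rfl hκ covF00 covF01 hx hx' c_B00pp_011_s3 H (noExt_B)

noncomputable def cut_B00pp_012_s1 : Cut := Cut.of [[⟨4, 0, 0, 1449551462⟩], [⟨0, 0, 0, 67108864⟩, ⟨1, 1, 0, 67108864⟩, ⟨2, 1, 0, 67108864⟩]]

noncomputable def xt_B00pp_012_s1 : Ext := strExt dd false true true .u0 .u2 .u0m .pnp 0 1 2 rfl rfl gf1 vv ndF0q0 ndF0q2

noncomputable def f_B00pp_012_s1 : ℕ → ℕ → ℕ → ℕ → Bool := onCell 536870912 536870912 0 536870912 335544320 67108864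
    (rowF 2 false true true .pnp 0 1 2 (qsf 0 536870912 0 536870912 1) ndF0q0 ndF0q2 pcF1 cut_B00pp_012_s1 xt_B00pp_012_s1)

def k0_B00pp_012_s1 : ∃ t, chk3 f_B00pp_012_s1 t 2 1 1 = true :=
  ⟨(b (b (a (l 2) (a (b (a (b (l 539973135) (l 539912207)) (b (l 16845824) (l 539821583))) (a (b (l 539875855) (l 3)) (b (l 539765007) (l 539681295)))) (b (a (b (l 16863008) (l 16837000)) (l 16816376)) (a (b (l 539457551) (l 539354895)) (b (l 16782952) (a (l 16781608) (l 16807672))))))) (a (l 3) (a (l 3) (b (b (a (l 539222543) (l 538726159)) (a (l 3) (l 538560783))) (l 3))))) (l 3)), by decide +kernel⟩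

def k1_B00pp_012_s1 : ∃ t, chk3 f_B00pp_012_s1 t 3 2 1 = true :=
  ⟨(a (b (b (a (a (l 16857288) (l 16847008)) (a (l 16827400) (l 16799384))) (a (b (a (l 16828016) (l 16821960)) (a (l 16811040) (l 16807640))) (a (l 16801032) (l 16778672)))) (a (b (a (b (l 538204943) (l 538030095)) (b (l 16795720) (l 537485327))) (a (l 537729807) (l 537170959))) (b (a (b (l 16785560) (l 536938511)) (a (l 16770376) (l 16759792))) (a (a (l 536753167) (l 536477455)) (b (l 536210191) (a (l 16787336) (l 16758496))))))) (a (b (b (l 6) (a (l 16747344) (l 16704896))) (b (a (b (l 16739688) (l 16737848)) (b (l 16700872) (l 16701344))) (a (b (l 16780376) (a (l 16747992) (l 16734568))) (a (l 16758280) (l 16739264))))) (b (l 6) (a (b (a (l 16666856) (l 16641712)) (a (l 16718344) (l 16695688))) (b (b (l 6) (l 16666688)) (a (l 16629568) (l 16646040))))))), by decide +kernel⟩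

def k2_B00pp_012_s1 : ∃ t, chk3 f_B00pp_012_s1 t 6 3 1 = true :=
  ⟨(b (a (b (b (a (l 3) (l 536821007)) (l 3)) (l 3)) (b (a (b (a (l 536396559) (l 536118799)) (a (l 3) (l 535816719))) (b (a (l 535880463) (l 535623439)) (l 535442191))) (a (l 3) (b (a (l 3) (l 535020047)) (l 3))))) (l 3)), by decide +kernel⟩

def k3_B00pp_012_s1 : ∃ t, chk3 f_B00pp_012_s1 t 7 3 1 = true :=
  ⟨(b (a (b (a (b (a (l 16774024) (l 16740608)) (a (l 535034127) (l 534717455))) (b (b (l 16756864) (l 16761416)) (a (l 16756688) (l 16740776)))) (a (b (a (l 534745103) (l 534697999)) (a (l 534489359) (l 534202127))) (b (b (l 534746127) (l 535300367)) (a (l 533793807) (l 534740495))))) (b (a (b (a (l 16773320) (l 16668600)) (a (l 16743872) (l 16682264))) (a (c (l 16696760) (l 16696432)) (a (l 16691648) (l 16688536)))) (a (b (a (l 533903119) (l 534467087)) (a (b (l 533477903) (l 533371407)) (c (l 534862607) (l 534850831)))) (b (a (l 16708800) (l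 16700112)) (a (a (l 16721600) (l 16726888)) (a (l 16721912) (l 16717160))))))) (a (b (a (l 3) (b (b (a (l 533758479) (l 533505039)) (a (l 3) (l 533393935))) (a (l 3) (a (l 3) (l 534244111))))) (l 3)) (a (b (b (a (a (l 534076687) (l 534364687)) (b (l 534005775) (l 534499855))) (a (b (l 534128143) (c (l 534567951) (l 534282767))) (b (b (l 533940239) (l 534454287)) (a (l 533577743) (c (l 534487311) (l 533918479)))))) (b (a (l 3) (b (a (a (l 533249039) (l 533563407)) (b (l 533644559) (l 534157327))) (a (l 3) (b (l 534668559) (l 3))))) (l 3))) (b (b (a (b (a (l 16726664) (l 16721000)) (a (l 16747456) (l 16741488))) (b (a (l 16715576) (l 16710384)) (a (l 16735776) (l 16730304)))) (a (b (a (l 534603023) (c (l 16751784) (l 16751136))) (a (b (l 533507855) (l 534289935)) (b (l 534393615) (l 534905871)))) (b (a (c (l 16745952) (l 16744976)) (a (l 16730640) (l 14))) (a (a (l 16756664) (l 14)) (l 14))))) (a (b (b (a (b (l 534534159)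 (c (l 534802703) (l 534750223))) (l 14)) (l 14)) (l 14)) (l 14)))))), by decide +kernel⟩

theorem t4_B00pp_012_s1 : ∃ t, chk3 f_B00pp_012_s1 t 3 3 1 = true := ex3_a k2_B00pp_012_s1 k3_B00pp_012_s1

theorem t5_B00pp_012_s1 : ∃ t, chk3 f_B00pp_012_s1 t 3 1 1 = true := ex3_b k1_B00pp_012_s1 t4_B00pp_012_s1

theorem t6_B00pp_012_s1 : ∃ t, chk3 f_B00pp_012_s1 t 1 1 1 = true := ex3_a k0_B00pp_012_s1 t5_B00pp_012_s1

theorem c_B00pp_012_s1 : CertF 0 536870912 0 536870912 335544320 67108864 false true true .pnp 0 1 2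
    ndF0q0 ndF0q2 pcF1 cut_B00pp_012_s1 xt_B00pp_012_s1 :=
  certF2 (fam := false) (s1 := true) (s2 := true) (a := 0) (b := 1) (c := 2) (cn := .pnp) (n1 := ndF0q0) (n2 := ndF0q2) (pc := pcF1) (cut := cut_B00pp_012_s1) (xt := xt_B00pp_012_s1) (P1 := 0) (W1 := 536870912) (P2 := 0) (W2 := 536870912) (P3 := 335544320) (W3 := 67108864)
    rfl (fun _ => rfl) t6_B00pp_012_s1

theorem s_B00pp_012_s1 {κ x : ℝ} (hκ : κ * h0 = ken x) (hx : ((335544320 : ℕ) : ℝ) / S ≤ x)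
    (hx' : x ≤ (((335544320 : ℕ) : ℝ) + (67108864 : ℕ)) / S)
    (H : CutB (VF κ) PP tKF tL pcF (Cut.of [[⟨0, 0, 0, 67108864⟩, ⟨1, 1, 0, 67108864⟩, ⟨2, 1, 0, 67108864⟩]]) 0 1 2 0 0 (sgb true) (sgb true) x) :
    AltB (VF κ) PP tKF tL pcF [⟨3, 0, 0, 1449551462⟩] 0 1 2 0 0 (sgb true) (sgb true) x :=
  strip_altB (m := 1449551462) true rfl hκ covF00 covF02 hx hx' c_B00pp_012_s1 H ((okx hx hx').extB (T := tt) (sideF hx hx') hκ rfl rfl (.O 0 true) (.O 2 true) (Or.inr rfl))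

noncomputable def cut_B00pp_012_s3 : Cut := Cut.of [[⟨3, 0, 0, 2845415833⟩], [⟨0, 0, 0, 67108864⟩, ⟨1, 1, 0, 67108864⟩, ⟨2, 1, 0, 67108864⟩]]

noncomputable def f_B00pp_012_s3 : ℕ → ℕ → ℕ → ℕ → Bool := onCell 0 536870912 0 536870912 335544320 67108864
    (rowF 0 false true true .pnp 0 1 2 (qsf 0 536870912 0 536870912 1) ndF0q0 ndF0q2 pcF1 cut_B00pp_012_s3 Ext.none)

def k0_B00pp_012_s3 : ∃ t, chk3 f_B00pp_012_s3 t 1 1 1 = true :=
  ⟨(l 6), by decide +kernel⟩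

theorem c_B00pp_012_s3 : CertF 0 536870912 0 536870912 335544320 67108864 false true true .pnp 0 1 2
    ndF0q0 ndF0q2 pcF1 cut_B00pp_012_s3 Ext.none :=
  certF0 (fam := false) (s1 := true) (s2 := true) (a := 0) (b := 1) (c := 2) (cn := .pnp) (n1 := ndF0q0) (n2 := ndF0q2) (pc := pcF1) (cut := cut_B00pp_012_s3) (xt := Ext.none) (P1 := 0) (W1 := 536870912) (P2 := 0) (W2 := 536870912) (P3 := 335544320) (W3 := 67108864)
    rfl k0_B00pp_012_s3

theorem s_B00pp_012_s3 {κ x : ℝ} (hκ : κ * h0 = ken x) (hx : ((335544320 : ℕ) : ℝ) / S ≤ x)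
    (hx' : x ≤ (((335544320 : ℕ) : ℝ) + (67108864 : ℕ)) / S)
    (H : CutB (VF κ) PP tKF tL pcF (Cut.of [[⟨0, 0, 0, 67108864⟩, ⟨1, 1, 0, 67108864⟩, ⟨2, 1, 0, 67108864⟩]]) 0 1 2 0 0 (sgb true) (sgb true) x) :
    AltB (VF κ) PP tKF tL pcF [⟨4, 0, 0, 2845415833⟩] 0 1 2 0 0 (sgb true) (sgb true) x :=
  strip_altB (m := 2845415833) false rfl hκ covF00 covF02 hx hx' c_B00pp_012_s3 H (noExt_B)

noncomputable def cut_B00pp_022_s1 : Cut := Cut.of [[⟨4, 0, 0, 1449551462⟩], [⟨0, 0, 0, 67108864⟩, ⟨1, 1, 0, 67108864⟩, ⟨2, 1, 0, 67108864⟩]]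

noncomputable def f_B00pp_022_s1 : ℕ → ℕ → ℕ → ℕ → Bool := onCell 1073741824 536870912 0 536870912 335544320 67108864
    (rowF 2 false true true .pp 0 2 2 (qsf 0 536870912 0 536870912 2) ndF0q0 ndF0q2 pcF2 cut_B00pp_022_s1 Ext.none)

def k0_B00pp_022_s1 : ∃ t, chk3 f_B00pp_022_s1 t 1 1 1 = true :=
  ⟨(a (a (b (b (l 6) (a (b (l 6) (a (l 16648736) (l 6))) (l 6))) (a (b (a (b (a (b (l 16668360) (l 16692056)) (l 16669280)) (a (a (b (b (l 16672824) (l 16704800)) (b (b (l 16712824) (l 16717144)) (a (a (l 16717488) (l 16703896)) (l 16699216)))) (b (l 16708128) (l 16716816))) (b (l 16689616) (l 16707952)))) (b (b (l 16609208) (l 16665752)) (b (b (l 16678336) (l 16687520)) (a (l 16701592) (b (l 16655136) (l 16664264)))))) (a (b (b (a (a (a (a (b (c (l 16727352) (l 16713464)) (b (a (l 16727280) (l 16720496)) (l 14))) (b (l 16712072) (l 16720224))) (b (l 16707408) (l 16715568))) (b (l 16697976) (l 16727128))) (a (l 16710304)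 (l 16701328))) (l 14)) (l 14)) (a (b (b (b (l 16695392) (a (l 16685192) (l 16684224))) (l 14)) (l 14)) (b (a (b (b (l 16673592) (b (l 16680600) (l 14))) (l 14)) (b (b (l 16672712) (b (l 16679280) (l 16683736))) (a (l 14) (l 1)))) (l 1))))) (b (b (a (b (l 6) (a (l 16621688) (l 16618608))) (l 6)) (a (b (a (b (l 16635192) (l 16644832)) (b (l 16632648) (a (l 16643240) (l 16641760)))) (a (b (a (l 16654816) (l 16654160)) (a (l 16663480) (l 29024359751))) (b (a (l 60699729879) (l 1)) (l 1)))) (b (b (a (l 16628808) (l 1)) (l 1)) (l 1)))) (a (b (b (a (b (a (b (l 16669496) (l 16673584)) (l 16670168)) (a (l 16679824) (l 1))) (l 1)) (l 1)) (l 1)) (l 1))))) (b (l 6) (b (l 1) (l 1)))) (l 1)), by decide +kernel⟩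

theorem c_B00pp_022_s1 : CertF 0 536870912 0 536870912 335544320 67108864 false true true .pp 0 2 2
    ndF0q0 ndF0q2 pcF2 cut_B00pp_022_s1 Ext.none :=
  certF2 (fam := false) (s1 := true) (s2 := true) (a := 0) (b := 2) (c := 2) (cn := .pp) (n1 := ndF0q0) (n2 := ndF0q2) (pc := pcF2) (cut := cut_B00pp_022_s1) (xt := Ext.none) (P1 := 0) (W1 := 536870912) (P2 := 0) (W2 := 536870912) (P3 := 335544320) (W3 := 67108864)
    rfl (fun _ => rfl) k0_B00pp_022_s1

theorem s_B00pp_022_s1 {κ x : ℝ} (hκ : κ * h0 = ken x) (hx : ((335544320 : ℕ) : ℝ) / S ≤ x)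
    (hx' : x ≤ (((335544320 : ℕ) : ℝ) + (67108864 : ℕ)) / S)
    (H : CutB (VF κ) PP tKF tL pcF (Cut.of [[⟨0, 0, 0, 67108864⟩, ⟨1, 1, 0, 67108864⟩, ⟨2, 1, 0, 67108864⟩]]) 0 2 2 0 0 (sgb true) (sgb true) x) :
    AltB (VF κ) PP tKF tL pcF [⟨3, 0, 0, 1449551462⟩] 0 2 2 0 0 (sgb true) (sgb true) x :=
  strip_altB (m := 1449551462) true rfl hκ covF00 covF02 hx hx' c_B00pp_022_s1 H (noExt_B)

noncomputable def cut_B00pp_022_s3 : Cut := Cut.of [[⟨3, 0, 0, 2845415833⟩], [⟨0, 0, 0, 67108864⟩, ⟨1, 1, 0, 67108864⟩, ⟨2, 1, 0, 67108864⟩]]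

noncomputable def f_B00pp_022_s3 : ℕ → ℕ → ℕ → ℕ → Bool := onCell 0 536870912 0 536870912 335544320 67108864
    (rowF 0 false true true .pp 0 2 2 (qsf 0 536870912 0 536870912 2) ndF0q0 ndF0q2 pcF2 cut_B00pp_022_s3 Ext.none)

def k0_B00pp_022_s3 : ∃ t, chk3 f_B00pp_022_s3 t 1 1 1 = true :=
  ⟨(l 6), by decide +kernel⟩

theorem c_B00pp_022_s3 : CertF 0 536870912 0 536870912 335544320 67108864 false true true .pp 0 2 2
    ndF0q0 ndF0q2 pcF2 cut_B00pp_022_s3 Ext.none :=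
  certF0 (fam := false) (s1 := true) (s2 := true) (a := 0) (b := 2) (c := 2) (cn := .pp) (n1 := ndF0q0) (n2 := ndF0q2) (pc := pcF2) (cut := cut_B00pp_022_s3) (xt := Ext.none) (P1 := 0) (W1 := 536870912) (P2 := 0) (W2 := 536870912) (P3 := 335544320) (W3 := 67108864)
    rfl k0_B00pp_022_s3

theorem s_B00pp_022_s3 {κ x : ℝ} (hκ : κ * h0 = ken x) (hx : ((335544320 : ℕ) : ℝ) / S ≤ x)
    (hx' : x ≤ (((335544320 : ℕ) : ℝ) + (67108864 : ℕ)) / S)
    (H : CutB (VF κ) PP tKF tL pcF (Cut.of [[⟨0, 0, 0, 67108864⟩, ⟨1, 1, 0, 67108864⟩, ⟨2, 1, 0, 67108864⟩]]) 0 2 2 0 0 (sgb true) (sgb true) x) :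
    AltB (VF κ) PP tKF tL pcF [⟨4, 0, 0, 2845415833⟩] 0 2 2 0 0 (sgb true) (sgb true) x :=
  strip_altB (m := 2845415833) false rfl hκ covF00 covF02 hx hx' c_B00pp_022_s3 H (noExt_B)

noncomputable def cut_B00pp_101_s1 : Cut := Cut.of [[⟨4, 0, 0, 1449551462⟩]]

noncomputable def f_B00pp_101_s1 : ℕ → ℕ → ℕ → ℕ → Bool := onCell 536870912 536870912 536870912 536870912 335544320 67108864
    (rowF 0 false true true .npn 1 0 1 (qsf 536870912 536870912 536870912 536870912 0) ndF0q1 ndF0q1 pcF0 cut_B00pp_101_s1 Ext.none)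

def k0_B00pp_101_s1 : ∃ t, chk3 f_B00pp_101_s1 t 1 1 1 = true :=
  ⟨(l 3), by decide +kernel⟩

theorem c_B00pp_101_s1 : CertF 536870912 536870912 536870912 536870912 335544320 67108864 false true true .npn 1 0 1
    ndF0q1 ndF0q1 pcF0 cut_B00pp_101_s1 Ext.none :=
  certF0 (fam := false) (s1 := true) (s2 := true) (a := 1) (b := 0) (c := 1) (cn := .npn) (n1 := ndF0q1) (n2 := ndF0q1) (pc := pcF0) (cut := cut_B00pp_101_s1) (xt := Ext.none) (P1 := 536870912) (W1 := 536870912) (P2 := 536870912) (W2 := 536870912) (P3 := 335544320) (W3 := 67108864)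
    rfl k0_B00pp_101_s1

theorem s_B00pp_101_s1 {κ x : ℝ} (hκ : κ * h0 = ken x) (hx : ((335544320 : ℕ) : ℝ) / S ≤ x)
    (hx' : x ≤ (((335544320 : ℕ) : ℝ) + (67108864 : ℕ)) / S) :
    AltB (VF κ) PP tKF tL pcF [⟨3, 0, 0, 1449551462⟩] 1 0 1 0 0 (sgb true) (sgb true) x :=
  strip_altB (m := 1449551462) true rfl hκ covF01 covF01 hx hx' c_B00pp_101_s1 cutB_nil (noExt_B)

noncomputable def cut_B00pp_101_s3 : Cut := Cut.of [[⟨3, 0, 0, 2845415833⟩]]

noncomputable def f_B00pp_101_s3 : ℕ → ℕ → ℕ → ℕ → Bool := onCell 536870912 536870912 536870912 536870912 335544320 67108864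
    (rowF 0 false true true .npn 1 0 1 (qsf 536870912 536870912 536870912 536870912 0) ndF0q1 ndF0q1 pcF0 cut_B00pp_101_s3 Ext.none)

def k0_B00pp_101_s3 : ∃ t, chk3 f_B00pp_101_s3 t 1 1 1 = true :=
  ⟨(l 3), by decide +kernel⟩

theorem c_B00pp_101_s3 : CertF 536870912 536870912 536870912 536870912 335544320 67108864 false true true .npn 1 0 1
    ndF0q1 ndF0q1 pcF0 cut_B00pp_101_s3 Ext.none :=
  certF0 (fam := false) (s1 := true) (s2 := true) (a := 1) (b := 0) (c := 1) (cn := .npn) (n1 := ndF0q1) (n2 := ndF0q1) (pc := pcF0) (cut := cut_B00pp_101_s3) (xt := Ext.none) (P1 := 536870912) (W1 := 536870912) (P2 := 536870912) (W2 := 536870912) (P3 := 335544320) (W3 := 67108864)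
    rfl k0_B00pp_101_s3

theorem s_B00pp_101_s3 {κ x : ℝ} (hκ : κ * h0 = ken x) (hx : ((335544320 : ℕ) : ℝ) / S ≤ x)
    (hx' : x ≤ (((335544320 : ℕ) : ℝ) + (67108864 : ℕ)) / S) :
    AltB (VF κ) PP tKF tL pcF [⟨4, 0, 0, 2845415833⟩] 1 0 1 0 0 (sgb true) (sgb true) x :=
  strip_altB (m := 2845415833) false rfl hκ covF01 covF01 hx hx' c_B00pp_101_s3 cutB_nil (noExt_B)

noncomputable def cut_B00pp_102_s1 : Cut := Cut.of [[⟨4, 0, 0, 1449551462⟩]]

noncomputable def f_B00pp_102_s1 : ℕ → ℕ → ℕ → ℕ → Bool := onCell 0 536870912 0 536870912 335544320 67108864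
    (rowF 2 false true true .npp 1 0 2 (qsf 536870912 536870912 0 536870912 0) ndF0q1 ndF0q2 pcF0 cut_B00pp_102_s1 Ext.none)

def k0_B00pp_102_s1 : ∃ t, chk3 f_B00pp_102_s1 t 1 1 1 = true :=
  ⟨(a (b (l 3) (l 3)) (l 3)), by decide +kernel⟩

theorem c_B00pp_102_s1 : CertF 536870912 536870912 0 536870912 335544320 67108864 false true true .npp 1 0 2
    ndF0q1 ndF0q2 pcF0 cut_B00pp_102_s1 Ext.none :=
  certF2 (fam := false) (s1 := true) (s2 := true) (a := 1) (b := 0) (c := 2) (cn := .npp) (n1 := ndF0q1) (n2 := ndF0q2) (pc := pcF0) (cut := cut_B00pp_102_s1) (xt := Ext.none) (P1 := 536870912) (W1 := 536870912) (P2 := 0) (W2 := 536870912) (P3 := 335544320) (W3 := 67108864)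
    rfl (fun _ => rfl) k0_B00pp_102_s1

theorem s_B00pp_102_s1 {κ x : ℝ} (hκ : κ * h0 = ken x) (hx : ((335544320 : ℕ) : ℝ) / S ≤ x)
    (hx' : x ≤ (((335544320 : ℕ) : ℝ) + (67108864 : ℕ)) / S) :
    AltB (VF κ) PP tKF tL pcF [⟨3, 0, 0, 1449551462⟩] 1 0 2 0 0 (sgb true) (sgb true) x :=
  strip_altB (m := 1449551462) true rfl hκ covF01 covF02 hx hx' c_B00pp_102_s1 cutB_nil (noExt_B)

noncomputable def cut_B00pp_102_s3 : Cut := Cut.of [[⟨3, 0, 0, 2845415833⟩]]

noncomputable def f_B00pp_102_s3 : ℕ → ℕ → ℕ → ℕ → Bool := onCell 536870912 536870912 0 536870912 335544320 67108864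
    (rowF 0 false true true .npp 1 0 2 (qsf 536870912 536870912 0 536870912 0) ndF0q1 ndF0q2 pcF0 cut_B00pp_102_s3 Ext.none)

def k0_B00pp_102_s3 : ∃ t, chk3 f_B00pp_102_s3 t 1 1 1 = true :=
  ⟨(l 6), by decide +kernel⟩

theorem c_B00pp_102_s3 : CertF 536870912 536870912 0 536870912 335544320 67108864 false true true .npp 1 0 2
    ndF0q1 ndF0q2 pcF0 cut_B00pp_102_s3 Ext.none :=
  certF0 (fam := false) (s1 := true) (s2 := true) (a := 1) (b := 0) (c := 2) (cn := .npp) (n1 := ndF0q1) (n2 := ndF0q2) (pc := pcF0) (cut := cut_B00pp_102_s3) (xt := Ext.none) (P1 := 536870912) (W1 := 536870912) (P2 := 0) (W2 := 536870912) (P3 := 335544320) (W3 := 67108864)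
    rfl k0_B00pp_102_s3

theorem s_B00pp_102_s3 {κ x : ℝ} (hκ : κ * h0 = ken x) (hx : ((335544320 : ℕ) : ℝ) / S ≤ x)
    (hx' : x ≤ (((335544320 : ℕ) : ℝ) + (67108864 : ℕ)) / S) :
    AltB (VF κ) PP tKF tL pcF [⟨4, 0, 0, 2845415833⟩] 1 0 2 0 0 (sgb true) (sgb true) x :=
  strip_altB (m := 2845415833) false rfl hκ covF01 covF02 hx hx' c_B00pp_102_s3 cutB_nil (noExt_B)

noncomputable def cut_B00pp_112_s1 : Cut := Cut.of [[⟨4, 0, 0, 1449551462⟩]]

noncomputable def xt_B00pp_112_s1 : Ext := strExt dd false true true .u0 .u2 .u0m .dn 1 1 2 rfl rfl gf1 vv ndF0q1 ndF0q2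

noncomputable def f_B00pp_112_s1 : ℕ → ℕ → ℕ → ℕ → Bool := onCell 536870912 536870912 0 536870912 335544320 67108864
    (rowF 0 false true true .dn 1 1 2 (qsf 536870912 536870912 0 536870912 1) ndF0q1 ndF0q2 pcF1 cut_B00pp_112_s1 xt_B00pp_112_s1)

def k0_B00pp_112_s1 : ∃ t, chk3 f_B00pp_112_s1 t 1 1 1 = true :=
  ⟨(a (a (b (b (a (b (a (l 539925263) (l 539898127)) (a (b (l 539878671) (l 3)) (l 3))) (b (a (l 539769359) (l 3)) (l 3))) (l 3)) (l 3)) (l 3)) (l 1)), by decide +kernel⟩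

theorem c_B00pp_112_s1 : CertF 536870912 536870912 0 536870912 335544320 67108864 false true true .dn 1 1 2
    ndF0q1 ndF0q2 pcF1 cut_B00pp_112_s1 xt_B00pp_112_s1 :=
  certF0 (fam := false) (s1 := true) (s2 := true) (a := 1) (b := 1) (c := 2) (cn := .dn) (n1 := ndF0q1) (n2 := ndF0q2) (pc := pcF1) (cut := cut_B00pp_112_s1) (xt := xt_B00pp_112_s1) (P1 := 536870912) (W1 := 536870912) (P2 := 0) (W2 := 536870912) (P3 := 335544320) (W3 := 67108864)
    rfl k0_B00pp_112_s1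

theorem s_B00pp_112_s1 {κ x : ℝ} (hκ : κ * h0 = ken x) (hx : ((335544320 : ℕ) : ℝ) / S ≤ x)
    (hx' : x ≤ (((335544320 : ℕ) : ℝ) + (67108864 : ℕ)) / S) :
    AltB (VF κ) PP tKF tL pcF [⟨3, 0, 0, 1449551462⟩] 1 1 2 0 0 (sgb true) (sgb true) x :=
  strip_altB (m := 1449551462) true rfl hκ covF01 covF02 hx hx' c_B00pp_112_s1 cutB_nil ((okx hx hx').extB (T := tt) (sideF hx hx') hκ rfl rfl (.O 1 true) (.O 2 true) (Or.inr rfl))

noncomputable def cut_B00pp_112_s3 : Cut := Cut.of [[⟨3, 0, 0, 2845415833⟩]]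

noncomputable def f_B00pp_112_s3 : ℕ → ℕ → ℕ → ℕ → Bool := onCell 536870912 536870912 0 536870912 335544320 67108864
    (rowF 0 false true true .dn 1 1 2 (qsf 536870912 536870912 0 536870912 1) ndF0q1 ndF0q2 pcF1 cut_B00pp_112_s3 Ext.none)

def k0_B00pp_112_s3 : ∃ t, chk3 f_B00pp_112_s3 t 1 1 1 = true :=
  ⟨(l 6), by decide +kernel⟩

theorem c_B00pp_112_s3 : CertF 536870912 536870912 0 536870912 335544320 67108864 false true true .dn 1 1 2
    ndF0q1 ndF0q2 pcF1 cut_B00pp_112_s3 Ext.none :=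
  certF0 (fam := false) (s1 := true) (s2 := true) (a := 1) (b := 1) (c := 2) (cn := .dn) (n1 := ndF0q1) (n2 := ndF0q2) (pc := pcF1) (cut := cut_B00pp_112_s3) (xt := Ext.none) (P1 := 536870912) (W1 := 536870912) (P2 := 0) (W2 := 536870912) (P3 := 335544320) (W3 := 67108864)
    rfl k0_B00pp_112_s3

theorem s_B00pp_112_s3 {κ x : ℝ} (hκ : κ * h0 = ken x) (hx : ((335544320 : ℕ) : ℝ) / S ≤ x)
    (hx' : x ≤ (((335544320 : ℕ) : ℝ) + (67108864 : ℕ)) / S) :
    AltB (VF κ) PP tKF tL pcF [⟨4, 0, 0, 2845415833⟩] 1 1 2 0 0 (sgb true) (sgb true) x :=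
  strip_altB (m := 2845415833) false rfl hκ covF01 covF02 hx hx' c_B00pp_112_s3 cutB_nil (noExt_B)

noncomputable def cut_B00pp_202_s1 : Cut := Cut.of [[⟨4, 0, 0, 1449551462⟩]]

noncomputable def f_B00pp_202_s1 : ℕ → ℕ → ℕ → ℕ → Bool := onCell 0 536870912 0 536870912 335544320 67108864
    (rowF 0 false true true .pp 2 0 2 (qsf 0 536870912 0 536870912 0) ndF0q2 ndF0q2 pcF0 cut_B00pp_202_s1 Ext.none)

def k0_B00pp_202_s1 : ∃ t, chk3 f_B00pp_202_s1 t 1 1 1 = true :=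
  ⟨(l 3), by decide +kernel⟩

theorem c_B00pp_202_s1 : CertF 0 536870912 0 536870912 335544320 67108864 false true true .pp 2 0 2
    ndF0q2 ndF0q2 pcF0 cut_B00pp_202_s1 Ext.none :=
  certF0 (fam := false) (s1 := true) (s2 := true) (a := 2) (b := 0) (c := 2) (cn := .pp) (n1 := ndF0q2) (n2 := ndF0q2) (pc := pcF0) (cut := cut_B00pp_202_s1) (xt := Ext.none) (P1 := 0) (W1 := 536870912) (P2 := 0) (W2 := 536870912) (P3 := 335544320) (W3 := 67108864)
    rfl k0_B00pp_202_s1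

theorem s_B00pp_202_s1 {κ x : ℝ} (hκ : κ * h0 = ken x) (hx : ((335544320 : ℕ) : ℝ) / S ≤ x)
    (hx' : x ≤ (((335544320 : ℕ) : ℝ) + (67108864 : ℕ)) / S) :
    AltB (VF κ) PP tKF tL pcF [⟨3, 0, 0, 1449551462⟩] 2 0 2 0 0 (sgb true) (sgb true) x :=
  strip_altB (m := 1449551462) true rfl hκ covF02 covF02 hx hx' c_B00pp_202_s1 cutB_nil (noExt_B)

noncomputable def cut_B00pp_202_s3 : Cut := Cut.of [[⟨3, 0, 0, 2845415833⟩]]

noncomputable def f_B00pp_202_s3 : ℕ → ℕ → ℕ → ℕ → Bool := onCell 0 536870912 0 536870912 335544320 67108864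
    (rowF 0 false true true .pp 2 0 2 (qsf 0 536870912 0 536870912 0) ndF0q2 ndF0q2 pcF0 cut_B00pp_202_s3 Ext.none)

def k0_B00pp_202_s3 : ∃ t, chk3 f_B00pp_202_s3 t 1 1 1 = true :=
  ⟨(l 3), by decide +kernel⟩

theorem c_B00pp_202_s3 : CertF 0 536870912 0 536870912 335544320 67108864 false true true .pp 2 0 2
    ndF0q2 ndF0q2 pcF0 cut_B00pp_202_s3 Ext.none :=
  certF0 (fam := false) (s1 := true) (s2 := true) (a := 2) (b := 0) (c := 2) (cn := .pp) (n1 := ndF0q2) (n2 := ndF0q2) (pc := pcF0) (cut := cut_B00pp_202_s3) (xt := Ext.none) (P1 := 0) (W1 := 536870912) (P2 := 0) (W2 := 536870912) (P3 := 335544320) (W3 := 67108864)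
    rfl k0_B00pp_202_s3

theorem s_B00pp_202_s3 {κ x : ℝ} (hκ : κ * h0 = ken x) (hx : ((335544320 : ℕ) : ℝ) / S ≤ x)
    (hx' : x ≤ (((335544320 : ℕ) : ℝ) + (67108864 : ℕ)) / S) :
    AltB (VF κ) PP tKF tL pcF [⟨4, 0, 0, 2845415833⟩] 2 0 2 0 0 (sgb true) (sgb true) x :=
  strip_altB (m := 2845415833) false rfl hκ covF02 covF02 hx hx' c_B00pp_202_s3 cutB_nil (noExt_B)

noncomputable def cut_B00pm_001_s1 : Cut := Cut.of [[⟨4, 0, 0, 1449551462⟩]]

noncomputable def f_B00pm_001_s1 : ℕ → ℕ → ℕ → ℕ → Bool := onCell 0 536870912 536870912 536870912 335544320 67108864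
    (rowF 0 false true false .up 0 0 1 (qsf 0 536870912 536870912 536870912 0) ndF0q0 ndF0q1 pcF0 cut_B00pm_001_s1 Ext.none)

def k0_B00pm_001_s1 : ∃ t, chk3 f_B00pm_001_s1 t 1 1 1 = true :=
  ⟨(l 6), by decide +kernel⟩

theorem c_B00pm_001_s1 : CertF 0 536870912 536870912 536870912 335544320 67108864 false true false .up 0 0 1
    ndF0q0 ndF0q1 pcF0 cut_B00pm_001_s1 Ext.none :=
  certF0 (fam := false) (s1 := true) (s2 := false) (a := 0) (b := 0) (c := 1) (cn := .up) (n1 := ndF0q0) (n2 := ndF0q1) (pc := pcF0) (cut := cut_B00pm_001_s1) (xt := Ext.none) (P1 := 0) (W1 := 536870912) (P2 := 536870912) (W2 := 536870912) (P3 := 335544320) (W3 := 67108864)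
    rfl k0_B00pm_001_s1

theorem s_B00pm_001_s1 {κ x : ℝ} (hκ : κ * h0 = ken x) (hx : ((335544320 : ℕ) : ℝ) / S ≤ x)
    (hx' : x ≤ (((335544320 : ℕ) : ℝ) + (67108864 : ℕ)) / S) :
    AltB (VF κ) PP tKF tL pcF [⟨3, 0, 0, 1449551462⟩] 0 0 1 0 0 (sgb true) (sgb false) x :=
  strip_altB (m := 1449551462) true rfl hκ covF00 covF01 hx hx' c_B00pm_001_s1 cutB_nil (noExt_B)

noncomputable def cut_B00pm_001_s3 : Cut := Cut.of [[⟨3, 0, 0, 2845415833⟩]]

noncomputable def xt_B00pm_001_s3 : Ext := strExt dd false true false .u0 .u0m .s0m .up 0 0 1 rfl rfl gl0 vv ndF0q0 ndF0q1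

noncomputable def f_B00pm_001_s3 : ℕ → ℕ → ℕ → ℕ → Bool := onCell 0 536870912 536870912 536870912 335544320 67108864
    (rowF 0 false true false .up 0 0 1 (qsf 0 536870912 536870912 536870912 0) ndF0q0 ndF0q1 pcF0 cut_B00pm_001_s3 xt_B00pm_001_s3)

def k0_B00pm_001_s3 : ∃ t, chk3 f_B00pm_001_s3 t 2 1 1 = true :=
  ⟨(b (l 4) (b (b (l 4) (l 2)) (l 2))), by decide +kernel⟩

def k1_B00pm_001_s3 : ∃ t, chk3 f_B00pm_001_s3 t 6 2 1 = true :=
  ⟨(b (l 4) (l 4)), by decide +kernel⟩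

def k2_B00pm_001_s3 : ∃ t, chk3 f_B00pm_001_s3 t 6 3 1 = true :=
  ⟨(b (b (a (a (l 4) (b (l 4) (b (l 4) (b (l 4) (b (a (l 2) (c (l 540770063) (a (l 4) (l 539229967)))) (a (l 2) (c (l 540801807) (a (l 2) (a (a (l 2) (l 539536143)) (l 539527695)))))))))) (a (b (l 4) (a (b (c (l 540665615) (l 539438351)) (c (l 540684047) (a (l 539477263) (l 539471887)))) (b (l 540054799) (l 540046863)))) (b (c (l 540748815) (l 539642127)) (a (b (l 540063759) (l 540027663)) (a (l 540044303) (l 540045839)))))) (a (a (l 2) (b (b (b (b (a (l 2) (a (l 2) (a (l 2) (a (l 2) (c (l 540784911) (l 539563791)))))) (l 2)) (l 2)) (l 2)) (l 2))) (a (b (c (b (a (a (l 540802319) (l 540740367)) (l 540663311)) (a (b (a (l 2) (l 540850959)) (l 2)) (l 540772623))) (a (a (b (c (b (l 539865615) (l 539954959)) (a (b (l 539273999) (l 2)) (b (l 539262223) (a (l 2) (l 539350543))))) (l 2)) (b (b (l 539539215) (l 539614479)) (a (l 2) (a (l 2) (b (l 539693583)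 (l 2)))))) (b (a (l 539545615) (l 539521295)) (b (a (l 539659279) (l 539609871)) (a (c (l 26407457767) (l 21575548439)) (l 539698191)))))) (a (l 2) (a (l 2) (b (b (b (l 29628680231) (l 2)) (l 2)) (l 2))))) (b (a (b (l 540036367) (b (l 540080143) (l 539863311))) (b (l 539994639) (l 540017679))) (b (a (c (l 540750351) (a (b (l 12448828999) (l 36608044071)) (l 539710991))) (c (l 16893504) (l 539614223))) (b (c (a (l 44661214151) (l 16913920)) (a (l 40366113399) (l 539745039))) (a (l 2) (a (l 48419269911) (l 16913448))))))))) (b (a (l 2) (b (b (a (l 2) (a (l 2) (c (l 57009359415) (l 55935481703)))) (l 2)) (l 2))) (l 2))), by decide +kernel⟩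

def k3_B00pm_001_s3 : ∃ t, chk3 f_B00pm_001_s3 t 7 2 1 = true :=
  ⟨(b (l 4) (a (a (b (l 4) (b (l 4) (b (b (l 4) (b (l 4) (l 540454671))) (l 540390159)))) (a (b (l 4) (b (l 4) (c (b (l 540999439) (l 540897039)) (b (a (l 540033807) (l 540048655)) (a (l 539925519) (l 539941647)))))) (b (l 4) (b (c (l 541135631) (l 540230159)) (b (l 540524559) (b (l 540446479) (l 540394767))))))) (b (a (b (l 4) (a (l 4) (c (l 541242383) (l 540434703)))) (b (a (l 4) (a (l 4) (b (l 4) (a (a (l 4) (l 540863759)) (l 540851471))))) (a (l 540809487) (a (l 540784655) (b (c (l 541169423) (a (l 540444943) (l 540446479))) (l 540727567)))))) (b (a (c (a (l 541122575) (l 541086479)) (a (b (l 540299791) (l 540193039)) (b (c (l 540507663) (l 540097551)) (l 540207887)))) (b (c (a (l 541081871) (l 541033487)) (a (l 540296463) (l 540286223))) (a (l 540601615) (l 540576271)))) (a (a (b (l 540526095) (l 540424463)) (b (l 540520975) (l 540422159))) (a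 (b (l 540507663) (l 540412175)) (b (l 540486927) (l 540394767)))))))), by decide +kernel⟩

def k4_B00pm_001_s3 : ∃ t, chk3 f_B00pm_001_s3 t 7 3 1 = true :=
  ⟨(b (a (b (a (b (c (l 540751119) (l 539731983)) (b (l 539826703) (c (l 540522255) (l 539519247)))) (b (a (c (l 540742671) (b (l 539831055) (l 539729679))) (b (c (l 540783631) (l 539859215)) (l 540216335))) (a (a (l 540061967) (l 539528463)) (b (l 540116751) (l 540021775))))) (b (a (a (b (l 539967247) (l 539954447)) (b (l 539950351) (l 539910671))) (c (a (l 540375823) (l 540347407)) (a (a (l 539449359) (l 539449871)) (b (l 16873968) (l 16886760))))) (a (a (b (l 539983887) (l 540076303)) (b (l 539901455) (l 539939599))) (b (a (c (l 16929672) (l 16890016)) (c (l 16942456) (l 16900096))) (c (a (l 16950024) (l 16960888)) (a (l 16906728) (l 16914896))))))) (b (b (a (a (b (l 540323087) (l 540221967)) (c (l 540702223) (l 539851535))) (a (c (l 540677391) (l 539863311))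 (c (l 16888888) (l 539868687)))) (b (a (a (l 540121871) (l 540123151)) (a (l 16903872) (l 16918440))) (a (a (l 540024079) (l 16861976)) (a (l 16918232) (l 16932488))))) (a (b (b (a (l 539931407) (l 539660047)) (a (c (l 16939104) (l 16898424)) (c (l 16953472) (l 16910424)))) (a (b (c (l 16955576) (l 16910704)) (c (l 16972352) (l 16923864))) (b (c (l 16968960) (l 16921808)) (l 6)))) (a (c (b (l 16960312) (b (l 16982504) (l 6))) (b (b (l 16911680) (l 16922712)) (b (l 16933328) (l 6)))) (b (b (l 16945840) (l 16927096)) (l 6)))))) (b (a (b (b (a (a (b (l 16932880) (l 59156787751)) (l 16945104)) (a (l 16950456) (l 16957048))) (a (a (l 68283591751) (c (l 17000608) (l 16956672))) (l 6))) (b (a (a (l 2) (l 6)) (l 6)) (l 6))) (l 6)) (l 6))), by decide +kernel⟩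

theorem t5_B00pm_001_s3 : ∃ t, chk3 f_B00pm_001_s3 t 7 1 1 = true := ex3_b k3_B00pm_001_s3 k4_B00pm_001_s3

theorem t6_B00pm_001_s3 : ∃ t, chk3 f_B00pm_001_s3 t 6 1 1 = true := ex3_b k1_B00pm_001_s3 k2_B00pm_001_s3

theorem t7_B00pm_001_s3 : ∃ t, chk3 f_B00pm_001_s3 t 3 1 1 = true := ex3_a t6_B00pm_001_s3 t5_B00pm_001_s3

theorem t8_B00pm_001_s3 : ∃ t, chk3 f_B00pm_001_s3 t 1 1 1 = true := ex3_a k0_B00pm_001_s3 t7_B00pm_001_s3

theorem c_B00pm_001_s3 : CertF 0 536870912 536870912 536870912 335544320 67108864 false true false .up 0 0 1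
    ndF0q0 ndF0q1 pcF0 cut_B00pm_001_s3 xt_B00pm_001_s3 :=
  certF0 (fam := false) (s1 := true) (s2 := false) (a := 0) (b := 0) (c := 1) (cn := .up) (n1 := ndF0q0) (n2 := ndF0q1) (pc := pcF0) (cut := cut_B00pm_001_s3) (xt := xt_B00pm_001_s3) (P1 := 0) (W1 := 536870912) (P2 := 536870912) (W2 := 536870912) (P3 := 335544320) (W3 := 67108864)
    rfl t8_B00pm_001_s3

theorem s_B00pm_001_s3 {κ x : ℝ} (hκ : κ * h0 = ken x) (hx : ((335544320 : ℕ) : ℝ) / S ≤ x)
    (hx' : x ≤ (((335544320 : ℕ) : ℝ) + (67108864 : ℕ)) / S) :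
    AltB (VF κ) PP tKF tL pcF [⟨4, 0, 0, 2845415833⟩] 0 0 1 0 0 (sgb true) (sgb false) x :=
  strip_altB (m := 2845415833) false rfl hκ covF00 covF01 hx hx' c_B00pm_001_s3 cutB_nil ((okx hx hx').extB (T := tt) (sideF hx hx') hκ rfl rfl (.O 0 true) (.O 1 false) (Or.inl rfl))

noncomputable def cut_B00pm_011_s1 : Cut := Cut.of [[⟨4, 0, 0, 1449551462⟩], [⟨0, 0, 0, 67108864⟩, ⟨1, 1, 0, 67108864⟩, ⟨2, 1, 0, 67108864⟩], [⟨0, 0, 1, 33554432⟩, ⟨1, 1, 2, 33554432⟩, ⟨2, 1, 0, 33554432⟩]]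

noncomputable def f_B00pm_011_s1 : ℕ → ℕ → ℕ → ℕ → Bool := onCell 0 536870912 536870912 536870912 335544320 67108864
    (rowF 0 false true false .pnn 0 1 1 (qsf 0 536870912 536870912 536870912 1) ndF0q0 ndF0q1 pcF1 cut_B00pm_011_s1 Ext.none)

def k0_B00pm_011_s1 : ∃ t, chk3 f_B00pm_011_s1 t 1 1 1 = true :=
  ⟨(l 6), by decide +kernel⟩

theorem c_B00pm_011_s1 : CertF 0 536870912 536870912 536870912 335544320 67108864 false true false .pnn 0 1 1
    ndF0q0 ndF0q1 pcF1 cut_B00pm_011_s1 Ext.none :=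
  certF0 (fam := false) (s1 := true) (s2 := false) (a := 0) (b := 1) (c := 1) (cn := .pnn) (n1 := ndF0q0) (n2 := ndF0q1) (pc := pcF1) (cut := cut_B00pm_011_s1) (xt := Ext.none) (P1 := 0) (W1 := 536870912) (P2 := 536870912) (W2 := 536870912) (P3 := 335544320) (W3 := 67108864)
    rfl k0_B00pm_011_s1

theorem s_B00pm_011_s1 {κ x : ℝ} (hκ : κ * h0 = ken x) (hx : ((335544320 : ℕ) : ℝ) / S ≤ x)
    (hx' : x ≤ (((335544320 : ℕ) : ℝ) + (67108864 : ℕ)) / S)
    (H : CutB (VF κ) PP tKF tL pcF (Cut.of [[⟨0, 0, 0, 67108864⟩, ⟨1, 1, 0, 67108864⟩, ⟨2, 1, 0, 67108864⟩], [⟨0, 0, 1, 33554432⟩, ⟨1, 1, 2, 33554432⟩, ⟨2, 1, 0, 33554432⟩]]) 0 1 1 0 0 (sgb true) (sgb false) x) :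
    AltB (VF κ) PP tKF tL pcF [⟨3, 0, 0, 1449551462⟩] 0 1 1 0 0 (sgb true) (sgb false) x :=
  strip_altB (m := 1449551462) true rfl hκ covF00 covF01 hx hx' c_B00pm_011_s1 H (noExt_B)

end Pool.Agent.Strip051.G.I5_16_3_8.Tab.St.C
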