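import Pool.Agent.Strip051.G.I5_16_3_8.Tab

/-! # Certificates F0 (generated) -/

set_option linter.all false
set_option maxRecDepth 100000

namespace Pool.Agent.Strip051.G.I5_16_3_8.Tab.C.FA00

open Pool.Agent.Strip051.PB Pool.Agent.Strip051.PB.T
open Pool.Agent.Strip051.G.I5_16_3_8.Tab

noncomputable def cut_pp_001 : Cut := Cut.of [[⟨3, 0, 0, 1449551462⟩], [⟨4, 0, 0, 2845415833⟩]]

noncomputable def f_pp_001 : ℕ → ℕ → ℕ → ℕ → Bool := onCell 0 536870912 0 536870912 335544320 67108864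
    (rowF 0 true true true .up 0 0 1 (qsf 0 536870912 0 536870912 1) ndF0q0 ndF0q0 pcF1 cut_pp_001 Ext.none)

def k0_pp_001 : ∃ t, chk3 f_pp_001 t 1 1 1 = true :=
  ⟨(l 4), by decide +kernel⟩

theorem c_pp_001 : CertF 0 536870912 0 536870912 335544320 67108864 true true true .up 0 0 1
    ndF0q0 ndF0q0 pcF1 cut_pp_001 Ext.none :=
  certF0 (fam := true) (s1 := true) (s2 := true) (a := 0) (b := 0) (c := 1) (cn := .up) (n1 := ndF0q0) (n2 := ndF0q0) (pc := pcF1) (cut := cut_pp_001) (xt := Ext.none) (P1 := 0) (W1 := 536870912) (P2 := 0) (W2 := 536870912) (P3 := 335544320) (W3 := 67108864)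
    rfl k0_pp_001

noncomputable def cut_pp_011 : Cut := Cut.of [[⟨3, 0, 0, 1449551462⟩], [⟨4, 0, 0, 2845415833⟩], [⟨0, 0, 0, 67108864⟩, ⟨1, 1, 0, 67108864⟩, ⟨2, 1, 0, 67108864⟩]]

noncomputable def f_pp_011 : ℕ → ℕ → ℕ → ℕ → Bool := onCell 0 536870912 536870912 536870912 335544320 67108864
    (rowF 0 true true true .pnn 0 1 1 (qsf 0 536870912 536870912 536870912 1) ndF0q0 ndF0q1 pcF1 cut_pp_011 Ext.none)

def k0_pp_011 : ∃ t, chk3 f_pp_011 t 1 1 1 = true :=
  ⟨(l 14), by decide +kernel⟩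

theorem c_pp_011 : CertF 0 536870912 536870912 536870912 335544320 67108864 true true true .pnn 0 1 1
    ndF0q0 ndF0q1 pcF1 cut_pp_011 Ext.none :=
  certF0 (fam := true) (s1 := true) (s2 := true) (a := 0) (b := 1) (c := 1) (cn := .pnn) (n1 := ndF0q0) (n2 := ndF0q1) (pc := pcF1) (cut := cut_pp_011) (xt := Ext.none) (P1 := 0) (W1 := 536870912) (P2 := 536870912) (W2 := 536870912) (P3 := 335544320) (W3 := 67108864)
    rfl k0_pp_011

noncomputable def cut_pp_012 : Cut := Cut.of [[⟨3, 0, 0, 1449551462⟩], [⟨4, 0, 0, 2845415833⟩], [⟨0, 0, 0, 67108864⟩, ⟨1, 1, 0, 67108864⟩, ⟨2, 1, 0, 67108864⟩]]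

noncomputable def f_pp_012 : ℕ → ℕ → ℕ → ℕ → Bool := onCell 0 536870912 536870912 536870912 335544320 67108864
    (rowF 0 true true true .pnp 0 1 2 (qsf 0 536870912 536870912 536870912 2) ndF0q0 ndF0q1 pcF2 cut_pp_012 Ext.none)

def k0_pp_012 : ∃ t, chk3 f_pp_012 t 1 1 1 = true :=
  ⟨(l 14), by decide +kernel⟩

theorem c_pp_012 : CertF 0 536870912 536870912 536870912 335544320 67108864 true true true .pnp 0 1 2
    ndF0q0 ndF0q1 pcF2 cut_pp_012 Ext.none :=
  certF0 (fam := true) (s1 := true) (s2 := true) (a := 0) (b := 1) (c := 2) (cn := .pnp) (n1 := ndF0q0) (n2 := ndF0q1) (pc := pcF2) (cut := cut_pp_012) (xt := Ext.none) (P1 := 0) (W1 := 536870912) (P2 := 536870912) (W2 := 536870912) (P3 := 335544320) (W3 := 67108864)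
    rfl k0_pp_012

noncomputable def cut_pp_022 : Cut := Cut.of [[⟨3, 0, 0, 1449551462⟩], [⟨4, 0, 0, 2845415833⟩], [⟨0, 0, 0, 67108864⟩, ⟨1, 1, 0, 67108864⟩, ⟨2, 1, 0, 67108864⟩]]

noncomputable def f_pp_022 : ℕ → ℕ → ℕ → ℕ → Bool := onCell 0 536870912 0 536870912 335544320 67108864
    (rowF 0 true true true .pp 0 2 2 (qsf 0 536870912 0 536870912 2) ndF0q0 ndF0q2 pcF2 cut_pp_022 Ext.none)

def k0_pp_022 : ∃ t, chk3 f_pp_022 t 1 1 1 = true :=
  ⟨(a (b (a (b (a (b (a (l 16473584) (l 16550696)) (a (l 16515088) (a (l 16506208) (l 16532344)))) (b (a (l 16586056) (l 16641520)) (a (l 16592288) (l 16622152)))) (a (b (a (b (l 16503304) (l 16567600)) (l 16557800)) (a (a (l 16604208) (l 16602456)) (a (l 16600856) (l 16557552)))) (a (b (a (l 16551944) (l 16575688)) (l 16613496)) (b (l 16631496) (l 16677296))))) (b (a (b (a (l 16695208) (l 16746128)) (a (l 16670848) (l 16716224))) (b (a (l 16792864) (l 16834952)) (a (l 16756824) (l 16791696)))) (a (b (a (l 16654704) (l 16695432))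 (a (l 16717528) (b (l 16689808) (l 14)))) (b (a (l 16730912) (l 16801816)) (l 14))))) (a (b (a (b (a (b (a (l 16596376) (l 16598272)) (a (l 16640416) (l 16623464))) (b (l 16643472) (a (l 16627744) (l 16632400)))) (a (b (a (a (l 16661400) (l 16643296)) (l 14)) (l 14)) (l 14))) (b (a (b (l 16628304) (l 14)) (l 14)) (l 14))) (l 14)) (l 14))) (b (b (a (a (b (a (l 16874312) (l 16917576)) (a (l 16829952) (b (l 16876136) (l 14)))) (b (a (l 16936184) (l 15133264135)) (l 14))) (l 2)) (l 14)) (l 14))), by decide +kernel⟩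

theorem c_pp_022 : CertF 0 536870912 0 536870912 335544320 67108864 true true true .pp 0 2 2
    ndF0q0 ndF0q2 pcF2 cut_pp_022 Ext.none :=
  certF0 (fam := true) (s1 := true) (s2 := true) (a := 0) (b := 2) (c := 2) (cn := .pp) (n1 := ndF0q0) (n2 := ndF0q2) (pc := pcF2) (cut := cut_pp_022) (xt := Ext.none) (P1 := 0) (W1 := 536870912) (P2 := 0) (W2 := 536870912) (P3 := 335544320) (W3 := 67108864)
    rfl k0_pp_022

noncomputable def cut_pp_023 : Cut := Cut.of [[⟨3, 0, 0, 1449551462⟩], [⟨4, 0, 0, 2845415833⟩]]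

noncomputable def f_pp_023 : ℕ → ℕ → ℕ → ℕ → Bool := onCell 1610612736 536870912 0 536870912 335544320 67108864
    (rowF 2 true true true .up 0 2 3 (qsf 0 536870912 0 536870912 3) ndF0q0 ndF0q2 pcF3 cut_pp_023 Ext.none)

def k0_pp_023 : ∃ t, chk3 f_pp_023 t 1 1 1 = true :=
  ⟨(a (b (a (b (a (b (a (b (l 16825136) (l 14)) (l 14)) (l 14)) (l 14)) (l 14)) (l 14)) (l 4)) (l 2)), by decide +kernel⟩

theorem c_pp_023 : CertF 0 536870912 0 536870912 335544320 67108864 true true true .up 0 2 3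
    ndF0q0 ndF0q2 pcF3 cut_pp_023 Ext.none :=
  certF2 (fam := true) (s1 := true) (s2 := true) (a := 0) (b := 2) (c := 3) (cn := .up) (n1 := ndF0q0) (n2 := ndF0q2) (pc := pcF3) (cut := cut_pp_023) (xt := Ext.none) (P1 := 0) (W1 := 536870912) (P2 := 0) (W2 := 536870912) (P3 := 335544320) (W3 := 67108864)
    rfl (fun _ => rfl) k0_pp_023

noncomputable def cut_pp_101 : Cut := Cut.of [[⟨3, 0, 0, 1449551462⟩], [⟨4, 0, 0, 2845415833⟩]]

noncomputable def f_pp_101 : ℕ → ℕ → ℕ → ℕ → Bool := onCell 536870912 536870912 0 536870912 335544320 67108864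
    (rowF 0 true true true .npn 1 0 1 (qsf 536870912 536870912 0 536870912 1) ndF0q1 ndF0q0 pcF1 cut_pp_101 Ext.none)

def k0_pp_101 : ∃ t, chk3 f_pp_101 t 1 1 1 = true :=
  ⟨(l 14), by decide +kernel⟩

theorem c_pp_101 : CertF 536870912 536870912 0 536870912 335544320 67108864 true true true .npn 1 0 1
    ndF0q1 ndF0q0 pcF1 cut_pp_101 Ext.none :=
  certF0 (fam := true) (s1 := true) (s2 := true) (a := 1) (b := 0) (c := 1) (cn := .npn) (n1 := ndF0q1) (n2 := ndF0q0) (pc := pcF1) (cut := cut_pp_101) (xt := Ext.none) (P1 := 536870912) (W1 := 536870912) (P2 := 0) (W2 := 536870912) (P3 := 335544320) (W3 := 67108864)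
    rfl k0_pp_101

noncomputable def cut_pp_102 : Cut := Cut.of [[⟨3, 0, 0, 1449551462⟩], [⟨4, 0, 0, 2845415833⟩]]

noncomputable def f_pp_102 : ℕ → ℕ → ℕ → ℕ → Bool := onCell 536870912 536870912 0 536870912 335544320 67108864
    (rowF 0 true true true .npp 1 0 2 (qsf 536870912 536870912 0 536870912 2) ndF0q1 ndF0q0 pcF2 cut_pp_102 Ext.none)

def k0_pp_102 : ∃ t, chk3 f_pp_102 t 1 1 1 = true :=
  ⟨(l 14), by decide +kernel⟩

theorem c_pp_102 : CertF 536870912 536870912 0 536870912 335544320 67108864 true true true .npp 1 0 2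
    ndF0q1 ndF0q0 pcF2 cut_pp_102 Ext.none :=
  certF0 (fam := true) (s1 := true) (s2 := true) (a := 1) (b := 0) (c := 2) (cn := .npp) (n1 := ndF0q1) (n2 := ndF0q0) (pc := pcF2) (cut := cut_pp_102) (xt := Ext.none) (P1 := 536870912) (W1 := 536870912) (P2 := 0) (W2 := 536870912) (P3 := 335544320) (W3 := 67108864)
    rfl k0_pp_102

noncomputable def cut_pp_112 : Cut := Cut.of [[⟨3, 0, 0, 1449551462⟩], [⟨4, 0, 0, 2845415833⟩]]

noncomputable def f_pp_112 : ℕ → ℕ → ℕ → ℕ → Bool := onCell 536870912 536870912 536870912 536870912 335544320 67108864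
    (rowF 0 true true true .dn 1 1 2 (qsf 536870912 536870912 536870912 536870912 2) ndF0q1 ndF0q1 pcF2 cut_pp_112 Ext.none)

def k0_pp_112 : ∃ t, chk3 f_pp_112 t 1 1 1 = true :=
  ⟨(l 4), by decide +kernel⟩

theorem c_pp_112 : CertF 536870912 536870912 536870912 536870912 335544320 67108864 true true true .dn 1 1 2
    ndF0q1 ndF0q1 pcF2 cut_pp_112 Ext.none :=
  certF0 (fam := true) (s1 := true) (s2 := true) (a := 1) (b := 1) (c := 2) (cn := .dn) (n1 := ndF0q1) (n2 := ndF0q1) (pc := pcF2) (cut := cut_pp_112) (xt := Ext.none) (P1 := 536870912) (W1 := 536870912) (P2 := 536870912) (W2 := 536870912) (P3 := 335544320) (W3 := 67108864)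
    rfl k0_pp_112

noncomputable def cut_pp_113 : Cut := Cut.of [[⟨3, 0, 0, 1449551462⟩], [⟨4, 0, 0, 2845415833⟩]]

noncomputable def f_pp_113 : ℕ → ℕ → ℕ → ℕ → Bool := onCell 536870912 536870912 536870912 536870912 335544320 67108864
    (rowF 0 true true true .nn 1 1 3 (qsf 536870912 536870912 536870912 536870912 3) ndF0q1 ndF0q1 pcF3 cut_pp_113 Ext.none)

def k0_pp_113 : ∃ t, chk3 f_pp_113 t 1 1 1 = true :=
  ⟨(l 4), by decide +kernel⟩

theorem c_pp_113 : CertF 536870912 536870912 536870912 536870912 335544320 67108864 true true true .nn 1 1 3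
    ndF0q1 ndF0q1 pcF3 cut_pp_113 Ext.none :=
  certF0 (fam := true) (s1 := true) (s2 := true) (a := 1) (b := 1) (c := 3) (cn := .nn) (n1 := ndF0q1) (n2 := ndF0q1) (pc := pcF3) (cut := cut_pp_113) (xt := Ext.none) (P1 := 536870912) (W1 := 536870912) (P2 := 536870912) (W2 := 536870912) (P3 := 335544320) (W3 := 67108864)
    rfl k0_pp_113

noncomputable def cut_pp_123 : Cut := Cut.of [[⟨3, 0, 0, 1449551462⟩], [⟨4, 0, 0, 2845415833⟩]]

noncomputable def f_pp_123 : ℕ → ℕ → ℕ → ℕ → Bool := onCell 536870912 536870912 0 536870912 335544320 67108864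
    (rowF 0 true true true .npn 1 2 3 (qsf 536870912 536870912 0 536870912 3) ndF0q1 ndF0q2 pcF3 cut_pp_123 Ext.none)

def k0_pp_123 : ∃ t, chk3 f_pp_123 t 1 1 1 = true :=
  ⟨(a (l 14) (l 4)), by decide +kernel⟩

theorem c_pp_123 : CertF 536870912 536870912 0 536870912 335544320 67108864 true true true .npn 1 2 3
    ndF0q1 ndF0q2 pcF3 cut_pp_123 Ext.none :=
  certF0 (fam := true) (s1 := true) (s2 := true) (a := 1) (b := 2) (c := 3) (cn := .npn) (n1 := ndF0q1) (n2 := ndF0q2) (pc := pcF3) (cut := cut_pp_123) (xt := Ext.none) (P1 := 536870912) (W1 := 536870912) (P2 := 0) (W2 := 536870912) (P3 := 335544320) (W3 := 67108864)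
    rfl k0_pp_123

noncomputable def cut_pp_202 : Cut := Cut.of [[⟨3, 0, 0, 1449551462⟩], [⟨4, 0, 0, 2845415833⟩]]

noncomputable def f_pp_202 : ℕ → ℕ → ℕ → ℕ → Bool := onCell 0 536870912 0 536870912 335544320 67108864
    (rowF 0 true true true .pp 2 0 2 (qsf 0 536870912 0 536870912 2) ndF0q2 ndF0q0 pcF2 cut_pp_202 Ext.none)

def k0_pp_202 : ∃ t, chk3 f_pp_202 t 1 1 1 = true :=
  ⟨(l 5), by decide +kernel⟩

theorem c_pp_202 : CertF 0 536870912 0 536870912 335544320 67108864 true true true .pp 2 0 2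
    ndF0q2 ndF0q0 pcF2 cut_pp_202 Ext.none :=
  certF0 (fam := true) (s1 := true) (s2 := true) (a := 2) (b := 0) (c := 2) (cn := .pp) (n1 := ndF0q2) (n2 := ndF0q0) (pc := pcF2) (cut := cut_pp_202) (xt := Ext.none) (P1 := 0) (W1 := 536870912) (P2 := 0) (W2 := 536870912) (P3 := 335544320) (W3 := 67108864)
    rfl k0_pp_202

noncomputable def cut_pp_203 : Cut := Cut.of [[⟨3, 0, 0, 1449551462⟩], [⟨4, 0, 0, 2845415833⟩]]

noncomputable def f_pp_203 : ℕ → ℕ → ℕ → ℕ → Bool := onCell 0 536870912 0 536870912 335544320 67108864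
    (rowF 0 true true true .up 2 0 3 (qsf 0 536870912 0 536870912 3) ndF0q2 ndF0q0 pcF3 cut_pp_203 Ext.none)

def k0_pp_203 : ∃ t, chk3 f_pp_203 t 1 1 1 = true :=
  ⟨(l 5), by decide +kernel⟩

theorem c_pp_203 : CertF 0 536870912 0 536870912 335544320 67108864 true true true .up 2 0 3
    ndF0q2 ndF0q0 pcF3 cut_pp_203 Ext.none :=
  certF0 (fam := true) (s1 := true) (s2 := true) (a := 2) (b := 0) (c := 3) (cn := .up) (n1 := ndF0q2) (n2 := ndF0q0) (pc := pcF3) (cut := cut_pp_203) (xt := Ext.none) (P1 := 0) (W1 := 536870912) (P2 := 0) (W2 := 536870912) (P3 := 335544320) (W3 := 67108864)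
    rfl k0_pp_203

noncomputable def cut_pp_213 : Cut := Cut.of [[⟨3, 0, 0, 1449551462⟩], [⟨4, 0, 0, 2845415833⟩]]

noncomputable def f_pp_213 : ℕ → ℕ → ℕ → ℕ → Bool := onCell 0 536870912 536870912 536870912 335544320 67108864
    (rowF 0 true true true .pnn 2 1 3 (qsf 0 536870912 536870912 536870912 3) ndF0q2 ndF0q1 pcF3 cut_pp_213 Ext.none)

def k0_pp_213 : ∃ t, chk3 f_pp_213 t 1 1 1 = true :=
  ⟨(a (l 5) (l 4)), by decide +kernel⟩

theorem c_pp_213 : CertF 0 536870912 536870912 536870912 335544320 67108864 true true true .pnn 2 1 3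
    ndF0q2 ndF0q1 pcF3 cut_pp_213 Ext.none :=
  certF0 (fam := true) (s1 := true) (s2 := true) (a := 2) (b := 1) (c := 3) (cn := .pnn) (n1 := ndF0q2) (n2 := ndF0q1) (pc := pcF3) (cut := cut_pp_213) (xt := Ext.none) (P1 := 0) (W1 := 536870912) (P2 := 536870912) (W2 := 536870912) (P3 := 335544320) (W3 := 67108864)
    rfl k0_pp_213

noncomputable def cut_pm_001 : Cut := Cut.of [[⟨3, 0, 0, 1449551462⟩], [⟨4, 0, 0, 2845415833⟩]]

noncomputable def f_pm_001 : ℕ → ℕ → ℕ → ℕ → Bool := onCell 0 536870912 0 536870912 335544320 67108864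
    (rowF 0 true true false .up 0 0 1 (qsf 0 536870912 0 536870912 1) ndF0q0 ndF0q0 pcF1 cut_pm_001 Ext.none)

def k0_pm_001 : ∃ t, chk3 f_pm_001 t 1 1 1 = true :=
  ⟨(l 3), by decide +kernel⟩

theorem c_pm_001 : CertF 0 536870912 0 536870912 335544320 67108864 true true false .up 0 0 1
    ndF0q0 ndF0q0 pcF1 cut_pm_001 Ext.none :=
  certF0 (fam := true) (s1 := true) (s2 := false) (a := 0) (b := 0) (c := 1) (cn := .up) (n1 := ndF0q0) (n2 := ndF0q0) (pc := pcF1) (cut := cut_pm_001) (xt := Ext.none) (P1 := 0) (W1 := 536870912) (P2 := 0) (W2 := 536870912) (P3 := 335544320) (W3 := 67108864)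
    rfl k0_pm_001

noncomputable def cut_pm_011 : Cut := Cut.of [[⟨3, 0, 0, 1449551462⟩], [⟨4, 0, 0, 2845415833⟩], [⟨0, 0, 0, 67108864⟩, ⟨1, 1, 0, 67108864⟩, ⟨2, 1, 0, 67108864⟩]]

noncomputable def f_pm_011 : ℕ → ℕ → ℕ → ℕ → Bool := onCell 0 536870912 536870912 536870912 335544320 67108864
    (rowF 1 true true false .pnn 0 1 1 (qsf 0 536870912 536870912 536870912 1) ndF0q0 ndF0q1 pcF1 cut_pm_011 Ext.none)

def k0_pm_011 : ∃ t, chk3 f_pm_011 t 1 1 1 = true :=
  ⟨(l 6), by decide +kernel⟩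

theorem c_pm_011 : CertF 0 536870912 536870912 536870912 335544320 67108864 true true false .pnn 0 1 1
    ndF0q0 ndF0q1 pcF1 cut_pm_011 Ext.none :=
  certF1 (fam := true) (s1 := true) (s2 := false) (a := 0) (b := 1) (c := 1) (cn := .pnn) (n1 := ndF0q0) (n2 := ndF0q1) (pc := pcF1) (cut := cut_pm_011) (xt := Ext.none) (P1 := 0) (W1 := 536870912) (P2 := 536870912) (W2 := 536870912) (P3 := 335544320) (W3 := 67108864)
    rfl (fun _ => rfl) k0_pm_011

noncomputable def cut_pm_012 : Cut := Cut.of [[⟨3, 0, 0, 1449551462⟩], [⟨4, 0, 0, 2845415833⟩], [⟨0, 0, 0, 67108864⟩, ⟨1, 1, 0, 67108864⟩, ⟨2, 1, 0, 67108864⟩], [⟨0, 0, 1, 33554432⟩, ⟨1, 1, 0, 33554432⟩, ⟨2, 1, 1, 33554432⟩]]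

noncomputable def f_pm_012 : ℕ → ℕ → ℕ → ℕ → Bool := onCell 1073741824 536870912 536870912 536870912 335544320 67108864
    (rowF 2 true true false .pnp 0 1 2 (qsf 0 536870912 536870912 536870912 2) ndF0q0 ndF0q1 pcF2 cut_pm_012 Ext.none)

def k0_pm_012 : ∃ t, chk3 f_pm_012 t 4 1 1 = true :=
  ⟨(l 6), by decide +kernel⟩

def k1_pm_012 : ∃ t, chk3 f_pm_012 t 5 2 1 = true :=
  ⟨(l 6), by decide +kernel⟩

def k2_pm_012 : ∃ t, chk3 f_pm_012 t 10 3 1 = true :=
  ⟨(l 6), by decide +kernel⟩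

def k3_pm_012 : ∃ t, chk3 f_pm_012 t 11 6 1 = true :=
  ⟨(l 6), by decide +kernel⟩

def k4_pm_012 : ∃ t, chk3 f_pm_012 t 11 14 1 = true :=
  ⟨(l 6), by decide +kernel⟩

def k5_pm_012 : ∃ t, chk3 f_pm_012 t 11 30 1 = true :=
  ⟨(a (l 6) (b (l 6) (b (l 6) (b (l 6) (a (l 6) (a (l 6) (c (l 16699544) (l 16686080)))))))), by decide +kernel⟩

def k6_pm_012 : ∃ t, chk3 f_pm_012 t 11 62 1 = true :=
  ⟨(a (l 6) (a (l 6) (b (c (a (a (l 6) (b (l 6) (l 16684856))) (c (b (l 16696856) (l 16690936)) (b (l 16690272) (l 16684344)))) (a (c (l 16677552) (l 16671256)) (c (b (l 16683552) (l 16677640)) (l 16673776)))) (c (a (c (b (l 16681568) (c (l 16677688) (l 16674640))) (b (l 16675464) (l 16670024))) (c (a (b (l 16684152) (l 16678480)) (b (l 16686120) (c (l 16681936) (l 16678584)))) (b (l 16678496) (c (l 16674376) (l 16671032))))) (a (b (l 16666120) (l 16671120)) (c (b (l 16671784) (l 16665992)) (b (l 16664976) (l 16659184)))))))), by decide +kernel⟩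

def k7_pm_012 : ∃ t, chk3 f_pm_012 t 11 63 1 = true :=
  ⟨(a (l 6) (a (b (a (l 6) (c (c (b (l 16668736) (l 16663776)) (b (l 16662968) (l 16657936))) (c (l 16654584) (l 16648648)))) (c (a (b (l 16665768) (l 16650648)) (c (b (l 16658864) (l 16653992)) (b (l 16652944) (l 16647984)))) (a (c (l 16644528) (l 16638864)) (c (l 16654952) (l 16638448))))) (c (b (a (c (b (c (l 16672360) (l 16669280)) (c (l 16667096) (l 16663984))) (b (l 16664624) (l 16659288))) (a (c (b (c (l 16674496) (l 16671248)) (c (l 16668968) (l 16665688))) (b (l 16666328) (l 16660744))) (c (b (c (b (l 16677600) (l 16674728)) (l 16672784)) (c (b (l 16671872) (l 16669032)) (b (l 16668480) (l 16665632)))) (b (c (l 16669392) (l 16665976)) (c (l 16663640) (l 16660216)))))) (a (c (b (c (l 16661888) (l 16658736)) (a (l 16654800) (l 16655528))) (b (l 16653992) (l 16648744))) (a (c (b (c (l 16663504) (l 16660200)) (c (l 16658104) (l 16654760))) (b (l 16655208) (l 16649728))) (a (c (b (c (l 16664472) (l 16661080))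 (l 16667712)) (b (l 16655960) (l 16650360))) (c (b (c (l 16665168) (l 16661720)) (c (l 16659552) (l 16656072))) (b (l 16656520) (l 16650832))))))) (b (a (c (b (l 16658360) (l 16652976)) (l 16649312)) (c (b (l 16662864) (c (l 16656240) (l 16652848))) (b (l 16653432) (l 16647728)))) (a (b (l 16654920) (l 16649600)) (a (b (l 16655656) (l 16639632)) (c (b (l 16649320) (l 16643648)) (l 16644768)))))))), by decide +kernel⟩

def k8_pm_012 : ∃ t, chk3 f_pm_012 t 3 2 1 = true :=
  ⟨(a (a (l 6) (l 2)) (l 2)), by decide +kernel⟩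

def k9_pm_012 : ∃ t, chk3 f_pm_012 t 6 6 1 = true :=
  ⟨(a (b (l 6) (a (l 6) (a (l 6) (b (l 6) (a (l 16934720) (l 16928432)))))) (b (a (a (a (l 6) (l 2)) (l 2)) (l 2)) (a (b (b (a (l 16988032) (l 17010224)) (a (l 16982160) (l 17005872))) (b (a (l 16974624) (l 17000128)) (l 16958376))) (b (b (l 2) (a (l 17027088) (l 2))) (b (l 17033256) (l 17028608)))))), by decide +kernel⟩

def k10_pm_012 : ∃ t, chk3 f_pm_012 t 12 14 1 = true :=
  ⟨(b (a (l 6) (b (a (c (l 16911960) (l 16867616)) (l 16919176)) (a (c (l 16886824) (l 16840776)) (l 16892432)))) (a (a (l 6) (b (c (l 16814960) (b (l 6) (l 16787376))) (c (b (l 16794200) (l 16780216)) (b (l 16774064) (l 16739632))))) (b (a (c (l 16856240) (b (l 16819808) (l 16805488))) (c (l 16896448) (l 16833144))) (a (c (l 16818144) (b (l 16790936) (l 16776208))) (c (l 16821248) (l 16779992)))))), by decide +kernel⟩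

def k11_pm_012 : ∃ t, chk3 f_pm_012 t 12 30 1 = true :=
  ⟨(a (b (a (c (b (l 16749416) (l 16736472)) (b (l 16733336) (l 16720696))) (c (b (l 16766168) (l 16752072)) (b (c (l 16751872) (l 16742136)) (c (l 16738096) (l 16728584))))) (a (c (b (a (l 16720416) (l 16726912)) (a (c (l 16711392) (l 16704184)) (c (l 16717632) (l 16709784)))) (b (a (l 16705544) (l 16710704)) (a (c (l 16696840) (l 16689344)) (l 16697752)))) (c (b (a (l 16734096) (l 16742024)) (a (l 16720328) (l 16727656))) (b (a (l 16716496) (l 16722936)) (a (l 16703008) (l 16708912)))))) (b (a (c (b (l 16783536) (l 16767968)) (b (l 16740360) (a (l 16743448) (l 16749472)))) (c (b (l 16832808) (l 16788400)) (b (l 16776264) (l 16759616)))) (a (c (b (l 16752392) (a (l 16734144) (l 16739728))) (b (a (l 16728792) (l 16734016)) (a (l 16693128) (l 16718512)))) (c (b (l 16761952) (a (l 16745872) (l 16746576))) (b (c (l 16748856) (l 16736872)) (c (l 16731888) (l 16709768))))))), by decide +kernel⟩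

def k12_pm_012 : ∃ t, chk3 f_pm_012 t 24 62 1 = true :=
  ⟨(a (b (c (b (a (c (l 16701936) (l 16694760)) (l 16703872)) (c (a (l 16695680) (l 16701192)) (a (l 16688520) (l 16693424)))) (a (c (b (l 16687464) (l 16681248)) (l 16676952)) (c (l 16688792) (l 16680776)))) (c (a (c (b (c (l 16691248) (l 16687696)) (b (l 16684840) (a (l 16680744) (l 16682896)))) (b (c (l 16684112) (l 16680512)) (c (l 16677952) (l 16674352)))) (c (a (b (l 16693288) (l 16686864)) (b (l 16696072) (l 16689472))) (b (l 16686880) (c (l 16682344) (l 16678456))))) (a (c (b (l 16675064) (l 16668904)) (b (l 16667704) (l 16661576))) (c (b (l 16679040) (l 16672584)) (b (l 16671096) (l 16664680)))))) (b (c (a (c (b (l 16714248) (l 16707384)) (l 16702376)) (c (b (l 16721472) (l 16714304)) (l 16708760))) (a (c (l 16693832) (l 16685184)) (c (l 16699536) (l 16690208)))) (c (a (c (b (l 16700544) (c (l 16695808) (l 16691648))) (b (l 16692160) (l 16685376))) (c (b (l 16707152) (c (l 16702272) (l 16697784)))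 (b (l 16698104) (l 16691024)))) (a (c (b (l 16683688) (l 16676944)) (l 16671784)) (c (b (l 16688968) (l 16681944)) (l 16676272)))))), by decide +kernel⟩

def k13_pm_012 : ∃ t, chk3 f_pm_012 t 48 63 1 = true :=
  ⟨(c (b (a (c (b (a (c (b (l 16679504) (l 16676536)) (l 16674520)) (b (l 16679808) (l 16676744))) (c (a (b (l 16673592) (l 16670664)) (b (l 16675520) (l 16672496))) (a (b (l 16670080) (l 16667136)) (b (l 16671872) (l 16668840))))) (b (c (a (l 16671000) (l 16672800)) (l 16668264)) (c (a (l 16665072) (l 16666696)) (a (l 16661520) (l 16663016))))) (c (b (c (a (l 16682376) (l 16684880)) (a (l 16678600) (l 16680960))) (c (a (b (l 16677656) (l 16674528)) (b (l 16680008) (l 16676784))) (a (l 16672304) (l 16674472)))) (b (a (l 16672904) (l 16675048)) (c (a (l 16668512) (l 16670528)) (l 16665608))))) (a (c (b (c (a (b (l 16667752) (l 16664864)) (b (l 16669488) (l 16666504))) (a (b (l 16664216) (l 16661312)) (b (l 16665832) (l 16662832)))) (b (c (a (l 16661984) (l 16663536))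 (l 16659112)) (c (a (l 16659128) (l 16660592)) (l 16656192)))) (b (c (a (l 16659208) (l 16660656)) (a (l 16655648) (l 16656968))) (c (a (l 16653416) (l 16654680)) (a (l 16649832) (l 16650984))))) (c (b (b (c (a (l 16671432) (l 16673584)) (a (l 16667640) (l 16669656))) (c (a (l 16668352) (l 16670408)) (l 16665480))) (b (c (a (l 16665288) (l 16667248)) (l 16662360)) (c (a (l 16662248) (l 16664112)) (l 16664512)))) (b (c (a (l 16662288) (l 16664120)) (l 16659288)) (c (a (l 16656136) (l 16657784)) (a (l 16652312) (l 16653832))))))) (b (a (c (b (c (l 16664640) (l 16661000)) (c (l 16658616) (l 16654976))) (b (l 16655504) (l 16649488))) (c (b (l 16666152) (l 16659768)) (b (l 16658288) (l 16651928)))) (a (c (b (c (l 16652648) (l 16649000)) (c (l 16646736) (l 16643080))) (b (l 16643520) (l 16637592))) (c (b (l 16653448) (c (l 16649144) (l 16645248))) (b (l 16645632) (l 16639392)))))), by decide +kernel⟩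

def k14_pm_012 : ∃ t, chk3 f_pm_012 t 49 63 1 = true :=
  ⟨(c (b (a (c (b (b (l 16688640) (a (l 16683888) (l 16686664))) (b (a (l 16680544) (l 16683248)) (c (a (l 16679264) (l 16681944)) (l 16676424)))) (b (c (l 16680680) (l 16676496)) (c (a (l 16672768) (l 16675192)) (l 16669776)))) (a (c (b (l 16691368) (c (l 16686568) (l 16682192))) (b (l 16682560) (l 16675600))) (c (b (l 16694536) (c (l 16687040) (l 16685120))) (b (l 16685400) (l 16678288))))) (a (c (b (c (a (b (l 16675952) (l 16672672)) (b (l 16678544) (l 16675168))) (a (b (l 16671880) (l 16668600)) (b (l 16674328) (l 16670944)))) (b (c (a (l 16669416) (l 16671800)) (l 16666424)) (c (a (l 16666176) (l 16668464)) (a (l 16662096) (l 16664240))))) (b (c (a (l 16666160) (l 16668408)) (l 16663096)) (c (a (l 16659632) (l 16661680)) (l 16656464)))) (c (b (c (a (b (l 16681344) (l 16677872)) (b (l 16684328) (l 16680776))) (a (b (l 16676968) (l 16673496)) (b (l 16679792) (l 16676248)))) (c (a (b (l 16674416) (l 16670976))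 (b (c (l 16678368) (l 16676104)) (c (l 16674832) (l 16672568)))) (a (b (l 16670040) (l 16666608)) (b (l 16672712) (l 16669176))))) (b (c (a (l 16670848) (l 16673480)) (a (l 16666456) (l 16668928))) (c (a (l 16663944) (l 16666408)) (a (l 16659568) (l 16661872))))))) (b (a (c (b (l 16670192) (l 16663496)) (b (l 16661736) (l 16655080))) (c (b (l 16674936) (l 16667944)) (b (l 16665848) (l 16658912)))) (a (c (b (c (l 16658928) (l 16654744)) (l 16655456)) (b (l 16648456) (l 16641872))) (c (b (c (l 16663192) (l 16658712)) (c (l 16656248) (l 16651792))) (b (l 16651976) (l 16645088)))))), by decide +kernel⟩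

def k15_pm_012 : ∃ t, chk3 f_pm_012 t 25 62 1 = true :=
  ⟨(c (b (a (a (c (l 16723936) (l 16714192)) (c (l 16728872) (l 16718592))) (a (c (l 16735424) (l 16723488)) (c (l 16724480) (l 16728920)))) (a (a (c (b (l 16712624) (l 16710360)) (b (l 16702984) (l 16695544))) (c (b (l 16716856) (l 16708880)) (b (l 16706720) (l 16698832)))) (a (c (b (l 16721568) (l 16713104)) (b (l 16710912) (l 16702560))) (c (l 30) (b (l 16715608) (l 16706760)))))) (a (b (a (c (l 16704352) (l 16694416)) (c (l 16708216) (l 16697752))) (b (a (l 16688384) (l 16691368)) (a (c (l 16685896) (l 16676192)) (c (l 16688712) (l 16678536))))) (b (c (a (l 16712560) (l 16717408)) (a (l 16701544) (l 16705824))) (b (a (l 16705280) (c (l 16704344) (l 16693016))) (a (c (l 16691960) (l 16681296)) (c (l 16695656) (l 16684488))))))), by decide +kernel⟩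

def k16_pm_012 : ∃ t, chk3 f_pm_012 t 50 63 2 = true :=
  ⟨(b (a (a (c (b (l 16696904) (c (b (l 16693744) (l 16690080)) (l 16687232))) (b (l 16687488) (l 16680200))) (c (b (l 16698440) (c (b (l 16695160) (l 16691384)) (l 16688488))) (b (l 16688808) (l 16683920)))) (a (c (b (l 16700080) (c (b (l 16696680) (l 16692784)) (l 16689848))) (b (l 16690224) (c (l 16684952) (l 16680040)))) (c (b (l 16701832) (c (l 30) (l 16691304))) (b (l 16691744) (c (l 16686296) (l 16681288)))))) (a (c (b (c (a (b (l 16686424) (l 16682784)) (b (l 16687616) (c (l 16685048) (l 16682672)))) (a (b (l 16681760) (l 16678128)) (b (l 16682848) (l 16679104)))) (c (a (a (b (l 16678928) (l 16675328)) (b (l 16679384) (l 16675736))) (a (b (l 16679864) (l 16676160)) (b (l 16680368) (a (l 16676488) (l 16676720))))) (a (b (l 16674496) (l 16670872)) (b (l 16675368) (l 16671632))))) (b (c (a (l 16675272) (l 16676208)) (a (l 16670600) (l 16671440))) (c (a (l 16668032) (c (l 16669944) (l 16667568))) (a (l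 16663376) (l 16664008))))) (c (b (c (a (b (l 16688904) (c (l 30) (l 16683816))) (l 30)) (a (b (l 16684032) (l 16680176)) (b (l 16685312) (c (l 16682576) (l 16680096))))) (c (c (l 30) (a (a (b (l 16679688) (l 16675864)) (l 30)) (l 30))) (a (b (c (l 16677528) (l 16675112)) (c (l 16673688) (l 16671272))) (a (b (l 16677096) (l 16673168)) (b (l 16677648) (a (l 16673536) (l 16673784))))))) (b (c (a (b (l 16679160) (l 16675312)) (b (l 16680344) (l 16676376))) (a (l 16672368) (l 16673384))) (c (a (b (l 16671472) (l 16667648)) (b (l 16672424) (l 16668488))) (a (l 16664720) (c (l 16666752) (l 16664288)))))))), by decide +kernel⟩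

def k17_pm_012 : ∃ t, chk3 f_pm_012 t 50 63 3 = true :=
  ⟨(b (a (c (b (l 16678544) (c (l 16673592) (l 16668824))) (b (l 16668912) (l 16661656))) (c (b (l 16680944) (c (l 16675680) (l 16670704))) (b (l 16670872) (l 16663224)))) (a (a (c (b (l 16663576) (l 16656384)) (l 16650632)) (c (b (l 16664272) (l 16656880)) (l 16651032))) (c (a (b (l 16665048) (l 16657456)) (b (l 16665920) (a (l 16657944) (l 16658296)))) (b (l 16655592) (l 16653224))))), by decide +kernel⟩

def k18_pm_012 : ∃ t, chk3 f_pm_012 t 51 63 2 = true :=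
  ⟨(b (a (a (c (b (l 16703688) (c (l 30) (b (l 16694920) (l 16690808)))) (b (l 16693376) (c (l 16687752) (l 16682632)))) (c (l 30) (b (l 16695120) (c (l 16689312) (l 16684080))))) (c (l 30) (a (b (l 16696968) (c (l 16690976) (l 16685632))) (b (l 16698944) (c (l 30) (l 16687296)))))) (a (c (a (a (c (l 30) (c (l 30) (b (l 16683048) (b (l 16676960) (l 16672920))))) (l 30)) (l 30)) (b (c (a (b (l 16681616) (l 16677536)) (b (l 16683000) (l 16678800))) (a (b (l 16676536) (l 16672480)) (b (l 16677808) (l 16673632)))) (c (a (b (c (l 16674728) (l 16672208)) (c (l 16670664) (l 16668160))) (b (c (l 16675896) (l 16673328)) (c (a (l 16671440) (l 30)) (l 16669152)))) (a (b (l 16668432) (l 16664392)) (b (l 16669472) (l 16665320)))))) (c (l 30) (b (c (a (b (l 16684480) (c (l 30) (l 16678840))) (l 30)) (a (b (l 16679184) (l 16674888)) (b (l 16680656) (l 16676240)))) (c (a (a (a (b (l 16675368) (l 16671120)) (l 30)) (l 30)) (l 30)) (a (b (l 16670608) (c (l 16667640) (l 16665032)))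 (a (b (l 16671520) (l 16667160)) (b (l 16672160) (l 16667736))))))))), by decide +kernel⟩

def k19_pm_012 : ∃ t, chk3 f_pm_012 t 51 63 3 = true :=
  ⟨(b (a (c (a (b (l 16683008) (l 16674936)) (b (l 16684520) (l 16676216))) (b (l 16673216) (l 16665152))) (c (a (b (l 16686136) (l 16680224)) (b (l 16687864) (c (l 16681832) (l 16676360)))) (b (l 16675976) (c (l 16670200) (l 16664768))))) (a (c (b (c (a (l 16669424) (l 16670536)) (a (l 16664336) (l 16665344))) (a (c (l 16661376) (l 16656344)) (b (l 16661760) (l 16662888)))) (b (c (l 16659688) (l 16654544)) (c (l 16651648) (l 16646560)))) (a (c (b (c (l 16671744) (l 16666456)) (c (b (l 16665368) (l 16661120)) (l 16658016))) (b (l 16658504) (l 16650168))) (c (b (c (b (l 16675248) (l 16670864)) (l 16667656)) (c (b (l 16666496) (l 16662136)) (l 16658992))) (b (l 16659552) (l 16650992)))))), by decide +kernel⟩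

def k20_pm_012 : ∃ t, chk3 f_pm_012 t 13 14 1 = true :=
  ⟨(b (a (b (c (l 16991320) (l 16942816)) (a (l 16927856) (l 16960664))) (b (a (l 17008976) (l 17033456)) (a (l 16990832) (l 17018152)))) (a (b (a (l 16857136) (l 16871824)) (a (c (l 16904384) (l 16824568)) (l 16819920))) (b (a (l 16967352) (l 16996992)) (a (l 16855800) (c (l 17006224) (l 16938216)))))), by decide +kernel⟩

def k21_pm_012 : ∃ t, chk3 f_pm_012 t 13 30 1 = true :=
  ⟨(a (b (a (c (l 16805136) (b (l 16793840) (l 16775384))) (b (l 16813304) (c (l 16901000) (l 16809624)))) (a (c (b (l 16771712) (a (l 16753448) (l 16758816))) (b (l 16756800) (a (l 16734912) (l 16741520)))) (b (a (l 16746600) (l 16759384)) (c (a (l 16804680) (l 16870136)) (a (l 16748744) (l 16744688)))))) (b (a (b (l 16810320) (l 16791752)) (c (l 16981888) (l 16818872))) (a (b (c (l 16922608) (l 16766424)) (c (a (l 16892344) (l 16913304)) (c (l 16764800) (l 16756680)))) (b (c (l 16959688) (l 16808392)) (c (l 16942536) (l 16763616)))))),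 by decide +kernel⟩

def k22_pm_012 : ∃ t, chk3 f_pm_012 t 26 62 1 = true :=
  ⟨(b (b (a (c (c (l 16732888) (l 16736560)) (a (l 16721264) (l 16727136))) (c (l 16745416) (a (l 16733584) (l 16741608)))) (a (c (c (l 16728944) (l 16719872)) (a (l 16712160) (l 16717536))) (c (a (l 16729312) (l 16797016)) (a (l 16723472) (l 16729976))))) (b (a (c (c (a (l 16751120) (l 16801360)) (a (l 16720816) (l 30))) (a (c (l 16709000) (l 16697120)) (c (l 16714168) (l 16701728)))) (c (a (c (l 16828912) (l 16746744)) (l 16720208)) (a (l 16715984) (l 16714088)))) (a (c (c (a (l 30) (l 16712152)) (a (l 16711456) (l 30))) (a (c (l 16699824) (l 16688144)) (c (l 16704480) (l 16692264)))) (c (a (c (l 16772272) (l 30)) (c (l 16841152) (l 16716520))) (a (c (l 16709656) (l 16696880)) (c (l 30) (l 16702024))))))), by decide +kernel⟩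

def k23_pm_012 : ∃ t, chk3 f_pm_012 t 26 126 1 = true :=
  ⟨(a (c (a (a (c (l 30) (b (l 16701032) (c (l 30) (l 16689072)))) (l 30)) (c (b (b (l 16710096) (l 30)) (l 30)) (l 30))) (a (a (c (b (l 16689704) (c (l 16683488) (l 16677896))) (b (l 16678336) (l 16669504))) (c (b (l 16691656) (c (l 16685256) (l 16679552))) (b (l 16680040) (l 16670976)))) (a (c (b (l 16693736) (c (l 16687136) (l 16681312))) (b (l 16681864) (l 16672560))) (c (b (l 16695928) (c (l 30) (l 16683184))) (b (l 16683800) (c (l 16677232) (l 16671272))))))) (c (c (a (b (a (l 16749312) (l 16805720)) (c (a (l 16791472) (l 16806288)) (l 30))) (b (c (l 16842584) (l 16810560)) (a (c (l 16820632) (l 16787152)) (l 16818016)))) (a (l 30) (b (b (l 16703944) (l 30)) (l 30)))) (a (a (c (b (l 16698240) (c (l 30) (l 16685168))) (b (l 16685856) (c (l 16679096) (l 16673016)))) (c (l 30) (b (l 16688032) (c (l 16681072) (l 16674872))))) (c (l 30) (b (c (l 16694808) (l 16688272)) (c (a (l 16683176) (l 30)) (a (l 16676848)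 (l 16678944)))))))), by decide +kernel⟩

def k24_pm_012 : ∃ t, chk3 f_pm_012 t 52 127 1 = true :=
  ⟨(c (c (l 30) (c (l 30) (c (l 30) (a (a (a (a (b (l 16678024) (l 16669072)) (l 30)) (l 30)) (l 30)) (l 30))))) (a (a (c (b (c (b (l 16676720) (l 16672216)) (l 16668960)) (c (b (l 16667728) (c (l 16664592) (l 16661888))) (c (l 16661416) (l 16658696)))) (b (l 16660688) (c (l 16654624) (l 16649200)))) (c (b (c (b (l 16678296) (l 16673672)) (b (l 16672656) (l 16668080))) (c (a (b (l 16668712) (l 16664136)) (b (l 16669400) (l 16664760))) (b (l 16663504) (l 16658936)))) (b (c (l 16664744) (l 16659120)) (c (l 16655688) (l 16650160))))) (c (b (c (a (b (l 16679984) (c (l 30) (l 16673800))) (l 30)) (a (b (l 16674232) (l 16669528)) (b (l 16675912) (l 16671080)))) (c (a (a (a (b (l 16669936) (l 16665248)) (l 30)) (l 30)) (l 30)) (a (b (l 16664824) (c (l 16661536) (l 16658736))) (a (b (l 16665880) (l 16661096)) (b (l 16666624) (l 16661776)))))) (b (a (c (l 16666144) (l 16660408))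 (b (l 16667104) (l 16667592))) (c (a (c (l 16658256) (l 16655440)) (b (l 16660488) (l 16655720))) (a (l 16651216) (l 16652368))))))), by decide +kernel⟩

def k25_pm_012 : ∃ t, chk3 f_pm_012 t 53 127 1 = true :=
  ⟨(c (c (c (b (a (a (l 30) (l 16768448)) (a (l 16804360) (l 16818832))) (a (l 30) (a (a (l 30) (l 16790808)) (l 16802072)))) (b (a (l 30) (a (l 30) (l 16763624))) (l 30))) (l 30)) (a (a (c (a (a (c (l 30) (b (l 16674560) (c (l 30) (l 16663288)))) (l 30)) (l 30)) (b (c (b (l 16671720) (l 16666808)) (l 16663304)) (c (b (l 16661904) (c (l 16658472) (l 16655560))) (c (l 16655080) (l 16652160))))) (c (l 30) (b (c (b (l 16673504) (l 16668464)) (l 16664904)) (c (a (b (l 16663040) (l 16658048)) (b (l 16663832) (l 16658776))) (b (l 16657448) (l 16652488)))))) (c (l 30) (b (c (a (b (l 16675400) (l 16670224)) (l 30)) (a (b (l 16669176) (l 16664064)) (b (l 16671064) (l 16665824)))) (c (a (a (a (b (l 16664440) (l 16659336)) (l 30)) (l 30)) (l 30)) (a (b (l 16658968) (c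 (l 16655392) (l 16652376))) (a (b (l 16660176) (l 16654992)) (b (l 16661016) (l 16655768))))))))), by decide +kernel⟩

def k26_pm_012 : ∃ t, chk3 f_pm_012 t 27 62 1 = true :=
  ⟨(a (c (b (a (c (l 16896808) (l 16842040)) (l 16849928)) (a (c (l 16851952) (b (l 16821352) (l 16785504))) (c (l 16896264) (b (l 16845856) (l 16831920))))) (b (a (c (l 16745400) (l 16735344)) (l 16727784)) (b (a (l 16713736) (l 16719648)) (a (c (l 30) (l 16707704)) (c (l 16710736) (l 30)))))) (c (b (a (l 16913024) (l 16932936)) (a (c (l 16918192) (l 16862504)) (l 16869760))) (b (a (l 16746568) (l 16748296)) (a (b (l 16724064) (c (l 16778232) (l 30))) (b (l 16727040) (c (l 16823280) (l 16726256))))))), by decide +kernel⟩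

def k27_pm_012 : ∃ t, chk3 f_pm_012 t 27 63 1 = true :=
  ⟨(c (a (b (c (a (b (l 16852880) (l 16796440)) (b (l 16877576) (l 16864056))) (a (b (a (l 16762816) (l 16797416)) (c (a (l 16782944) (l 16796896)) (l 30))) (b (a (l 16810640) (l 16823464)) (a (l 16752688) (l 16807960))))) (c (a (a (b (l 16794992) (c (l 16816656) (b (l 16786120) (l 30)))) (b (l 16829752) (c (l 16830768) (l 16796288)))) (b (l 16828656) (a (l 16827432) (l 16840896)))) (c (b (a (a (l 30) (l 16758928)) (a (l 16793976) (l 16807608))) (a (l 30) (a (a (l 30) (l 16780064)) (l 16790672)))) (b (a (l 30) (a (l 30) (l 16754360))) (l 30))))) (b (a (c (l 16894552) (b (l 16841968) (l 16785256))) (c (l 16916704) (b (l 16865344) (l 16851472)))) (c (a (b (l 16874664) (l 16860272)) (l 16891504)) (a (a (b (l 16783936) (c (l 16804416) (b (l 16775920) (l 30)))) (b (l 16817928) (c (l 16817728) (l 16785208)))) (b (l 16815744) (a (l 16793616) (l 16827296))))))) (b (a (a (a (a (c (l 30) (b (l 16694672) (l 16686488)))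 (l 30)) (l 30)) (c (b (c (l 16708864) (l 30)) (l 30)) (l 30))) (c (a (b (c (l 16797904) (l 16705624)) (c (a (l 16774864) (l 16788032)) (l 30))) (b (l 16766272) (a (l 16764920) (l 16798488)))) (a (l 30) (b (l 16703928) (l 30))))) (c (a (l 30) (b (a (a (l 30) (c (l 16749920) (l 30))) (a (c (l 16784168) (l 30)) (c (l 16797040) (l 16745584)))) (a (l 30) (c (a (a (l 30) (l 16769888)) (l 16758920)) (l 30))))) (c (l 30) (c (l 30) (c (l 30) (a (a (a (a (b (l 16667488) (l 16656880)) (l 30)) (l 30)) (l 30)) (l 30)))))))), by decide +kernel⟩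

def k28_pm_012 : ∃ t, chk3 f_pm_012 t 7 6 1 = true :=
  ⟨(b (l 2) (a (b (l 2) (a (a (l 17059200) (l 2)) (l 2))) (l 2))), by decide +kernel⟩

def k29_pm_012 : ∃ t, chk3 f_pm_012 t 14 14 1 = true :=
  ⟨(b (a (b (a (l 17054656) (l 17072368)) (a (l 17042832) (l 17064168))) (b (l 2) (l 17090160))) (a (b (a (l 17023528) (l 17047288)) (a (l 17001312) (l 17027216))) (b (l 17080416) (a (l 17054016) (l 17079944))))), by decide +kernel⟩

def k30_pm_012 : ∃ t, chk3 f_pm_012 t 14 30 1 = true :=
  ⟨(a (b (a (a (l 16903936) (l 16982128)) (c (l 17038744) (l 16968312))) (a (c (b (l 16992616) (l 16977592)) (b (l 16908976) (a (l 16877992) (l 16896944)))) (c (l 17015328) (b (l 16942728) (l 16902496))))) (a (b (l 17034912) (b (l 17017992) (l 16921168))) (b (l 17067208) (l 17051256)))), by decide +kernel⟩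

def k31_pm_012 : ∃ t, chk3 f_pm_012 t 28 31 1 = true :=
  ⟨(b (a (c (b (l 16960608) (a (l 16931768) (l 16950608))) (b (a (c (l 16878104) (l 16829128)) (l 16852880)) (a (c (l 16852752) (b (l 16807672) (l 16792368))) (b (l 16854816) (l 16778312))))) (c (b (l 16993632) (l 16976688)) (b (a (l 16892944) (l 16910968)) (a (c (l 16893472) (l 16822664)) (l 16845864))))) (a (c (b (a (c (l 16937480) (l 16880888)) (l 16929416)) (a (c (l 16913904) (b (l 16860392) (l 16845616))) (c (l 16934864) (l 16854792)))) (b (c (a (b (l 16831736) (l 16774728)) (b (l 16853880) (l 16839648))) (a (b (c (l 16790080) (l 16699400)) (a (l 16695048) (c (l 16779656) (l 30)))) (b (l 16778864) (a (l 16756664) (l 16789536))))) (b (c (a (a (l 16773520) (l 16806792)) (l 16803584)) (a (a (l 30) (c (l 16741368) (l 30))) (a (c (l 16774880) (l 30)) (c (l 16787048) (l 16737256))))) (c (a (a (b (l 16760712) (a (l 16748560) (l 16776096))) (a (l 16765944) (l 16793216))) (a (l 16781504) (l 16814488))) (a (l 30)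 (c (a (a (l 30) (l 16760232)) (l 16748712)) (l 30))))))) (c (b (a (l 16948384) (l 16966144)) (a (l 16883792) (l 16944848))) (b (a (c (l 16868064) (b (l 16822112) (l 16764800))) (c (l 16887992) (b (l 16843104) (l 16828504)))) (c (a (b (l 16846968) (l 16831824)) (b (l 16868016) (l 16853672))) (b (a (a (l 16763656) (l 16796264)) (a (l 16807552) (l 16818504))) (a (a (b (l 16750688) (a (l 16738616) (l 16765784))) (a (l 16755336) (l 16761288))) (a (l 16770048) (l 16802384))))))))), by decide +kernel⟩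

def k32_pm_012 : ∃ t, chk3 f_pm_012 t 29 31 1 = true :=
  ⟨(b (b (a (c (l 17032392) (l 16927784)) (l 17036848)) (a (c (l 17019224) (a (l 16913552) (l 16944592))) (l 17004728))) (a (c (b (l 17004200) (a (l 16970888) (l 17002400))) (b (a (c (l 16915096) (l 16823392)) (l 16924680)) (c (a (l 16890792) (l 16927432)) (a (b (l 16844664) (a (l 16819040) (l 16840528))) (l 16877440))))) (c (l 17049896) (b (l 16970912) (a (l 16937472) (l 16969368)))))), by decide +kernel⟩

def k33_pm_012 : ∃ t, chk3 f_pm_012 t 15 7 1 = true :=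
  ⟨(b (b (l 2) (a (b (l 2) (l 17108936)) (l 2))) (b (a (b (l 17104184) (a (l 17083808) (l 17109648))) (b (l 2) (l 17137064))) (a (a (b (l 17071408) (a (l 17002320) (l 17066456))) (b (l 17103656) (l 17095312))) (b (l 17138624) (l 17139152))))), by decide +kernel⟩

theorem s34_pm_012 : ∃ t, chk3 f_pm_012 t 14 31 1 = true := ex3_a k31_pm_012 k32_pm_012

theorem s35_pm_012 : ∃ t, chk3 f_pm_012 t 14 15 1 = true := ex3_b k30_pm_012 s34_pm_012

theorem s36_pm_012 : ∃ t, chk3 f_pm_012 t 14 7 1 = true := ex3_b k29_pm_012 s35_pm_012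

theorem s37_pm_012 : ∃ t, chk3 f_pm_012 t 7 7 1 = true := ex3_a s36_pm_012 k33_pm_012

theorem s38_pm_012 : ∃ t, chk3 f_pm_012 t 7 3 1 = true := ex3_b k28_pm_012 s37_pm_012

theorem s39_pm_012 : ∃ t, chk3 f_pm_012 t 27 31 1 = true := ex3_b k26_pm_012 k27_pm_012

theorem s40_pm_012 : ∃ t, chk3 f_pm_012 t 26 127 1 = true := ex3_a k24_pm_012 k25_pm_012

theorem s41_pm_012 : ∃ t, chk3 f_pm_012 t 26 63 1 = true := ex3_b k23_pm_012 s40_pm_012

theorem s42_pm_012 : ∃ t, chk3 f_pm_012 t 26 31 1 = true := ex3_b k22_pm_012 s41_pm_012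

theorem s43_pm_012 : ∃ t, chk3 f_pm_012 t 13 31 1 = true := ex3_a s42_pm_012 s39_pm_012

theorem s44_pm_012 : ∃ t, chk3 f_pm_012 t 13 15 1 = true := ex3_b k21_pm_012 s43_pm_012

theorem s45_pm_012 : ∃ t, chk3 f_pm_012 t 13 7 1 = true := ex3_b k20_pm_012 s44_pm_012

theorem s46_pm_012 : ∃ t, chk3 f_pm_012 t 51 63 1 = true := ex3_c k18_pm_012 k19_pm_012

theorem s47_pm_012 : ∃ t, chk3 f_pm_012 t 50 63 1 = true := ex3_c k16_pm_012 k17_pm_012

theorem s48_pm_012 : ∃ t, chk3 f_pm_012 t 25 63 1 = true := ex3_a s47_pm_012 s46_pm_012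

theorem s49_pm_012 : ∃ t, chk3 f_pm_012 t 25 31 1 = true := ex3_b k15_pm_012 s48_pm_012

theorem s50_pm_012 : ∃ t, chk3 f_pm_012 t 24 63 1 = true := ex3_a k13_pm_012 k14_pm_012

theorem s51_pm_012 : ∃ t, chk3 f_pm_012 t 24 31 1 = true := ex3_b k12_pm_012 s50_pm_012

theorem s52_pm_012 : ∃ t, chk3 f_pm_012 t 12 31 1 = true := ex3_a s51_pm_012 s49_pm_012

theorem s53_pm_012 : ∃ t, chk3 f_pm_012 t 12 15 1 = true := ex3_b k11_pm_012 s52_pm_012

theorem s54_pm_012 : ∃ t, chk3 f_pm_012 t 12 7 1 = true := ex3_b k10_pm_012 s53_pm_012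

theorem s55_pm_012 : ∃ t, chk3 f_pm_012 t 6 7 1 = true := ex3_a s54_pm_012 s45_pm_012

theorem s56_pm_012 : ∃ t, chk3 f_pm_012 t 6 3 1 = true := ex3_b k9_pm_012 s55_pm_012

theorem s57_pm_012 : ∃ t, chk3 f_pm_012 t 3 3 1 = true := ex3_a s56_pm_012 s38_pm_012

theorem s58_pm_012 : ∃ t, chk3 f_pm_012 t 3 1 1 = true := ex3_b k8_pm_012 s57_pm_012

theorem s59_pm_012 : ∃ t, chk3 f_pm_012 t 11 31 1 = true := ex3_b k6_pm_012 k7_pm_012

theorem s60_pm_012 : ∃ t, chk3 f_pm_012 t 11 15 1 = true := ex3_b k5_pm_012 s59_pm_012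

theorem s61_pm_012 : ∃ t, chk3 f_pm_012 t 11 7 1 = true := ex3_b k4_pm_012 s60_pm_012

theorem s62_pm_012 : ∃ t, chk3 f_pm_012 t 11 3 1 = true := ex3_b k3_pm_012 s61_pm_012

theorem s63_pm_012 : ∃ t, chk3 f_pm_012 t 5 3 1 = true := ex3_a k2_pm_012 s62_pm_012

theorem s64_pm_012 : ∃ t, chk3 f_pm_012 t 5 1 1 = true := ex3_b k1_pm_012 s63_pm_012

theorem s65_pm_012 : ∃ t, chk3 f_pm_012 t 2 1 1 = true := ex3_a k0_pm_012 s64_pm_012

theorem s66_pm_012 : ∃ t, chk3 f_pm_012 t 1 1 1 = true := ex3_a s65_pm_012 s58_pm_012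

theorem c_pm_012 : CertF 0 536870912 536870912 536870912 335544320 67108864 true true false .pnp 0 1 2
    ndF0q0 ndF0q1 pcF2 cut_pm_012 Ext.none :=
  certF2 (fam := true) (s1 := true) (s2 := false) (a := 0) (b := 1) (c := 2) (cn := .pnp) (n1 := ndF0q0) (n2 := ndF0q1) (pc := pcF2) (cut := cut_pm_012) (xt := Ext.none) (P1 := 0) (W1 := 536870912) (P2 := 536870912) (W2 := 536870912) (P3 := 335544320) (W3 := 67108864)
    rfl (fun _ => rfl) s66_pm_012

noncomputable def cut_pm_022 : Cut := Cut.of [[⟨3, 0, 0, 1449551462⟩], [⟨4, 0, 0, 2845415833⟩], [⟨0, 0, 0, 67108864⟩, ⟨1, 1, 0, 67108864⟩, ⟨2, 1, 0, 67108864⟩], [⟨0, 0, 1, 33554432⟩, ⟨1, 1, 0, 33554432⟩, ⟨2, 1, 1, 33554432⟩]]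

noncomputable def f_pm_022 : ℕ → ℕ → ℕ → ℕ → Bool := onCell 1073741824 536870912 0 536870912 335544320 67108864
    (rowF 2 true true false .pp 0 2 2 (qsf 0 536870912 0 536870912 2) ndF0q0 ndF0q2 pcF2 cut_pm_022 Ext.none)

def k0_pm_022 : ∃ t, chk3 f_pm_022 t 4 1 1 = true :=
  ⟨(b (b (l 1) (a (l 1) (a (l 1) (b (l 1) (a (l 1) (b (l 1) (l 16575184))))))) (b (a (l 1) (b (a (l 1) (a (b (l 16602480) (b (l 16611528) (l 16617976))) (b (l 16608672) (l 16600928)))) (a (a (l 6) (b (b (a (l 1) (l 16633952)) (l 6)) (l 6))) (a (b (b (l 16624688) (l 16631568)) (b (l 16638368) (l 6))) (b (l 16615272) (b (l 16626088) (l 16631216))))))) (l 6))), by decide +kernel⟩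

def k1_pm_022 : ∃ t, chk3 f_pm_022 t 5 1 1 = true :=
  ⟨(b (b (a (b (a (b (l 16476328) (l 16478536)) (a (l 16490776) (l 16542200))) (a (a (l 1) (l 16502112)) (a (l 16473704) (l 16523752)))) (b (a (b (l 16542488) (l 16551744)) (l 16608472)) (a (b (l 16555704) (l 16544960)) (b (l 16623808) (l 16611400))))) (a (b (a (a (l 16589816) (l 16546896)) (l 16529688)) (a (a (b (l 16544920) (l 16558056)) (l 16574368)) (b (l 16492056) (l 16529200)))) (b (a (b (l 16537208) (l 16531304)) (l 16589424)) (a (a (l 16517328) (l 16534744)) (l 16648376))))) (b (a (b (a (b (a (l 16571648) (l 16554216)) (a (l 16585944) (l 16569744))) (a (l 16606920) (l 16587128))) (a (a (b (l 16601368) (l 16636896)) (b (l 16586432) (a (l 16605960) (a (l 16600800) (l 16617752))))) (a (b (l 16570344) (l 16588136)) (b (l 16553000) (l 16593560))))) (b (a (l 16573496) (b (l 16547944) (l 16537504))) (a (b (l 16545368) (l 16609864)) (c (l 16572400) (l 16580280))))) (a (b (a (a (b (l 16618584) (l 6)) (b (a (l 16608336)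 (l 16663760)) (a (l 6) (l 16638784)))) (b (l 16625008) (l 16617024))) (b (a (l 6) (a (l 6) (l 16645304))) (l 6))) (b (a (b (l 16571184) (l 16605216)) (b (l 16565048) (l 16597584))) (b (a (b (l 16608472) (l 16624760)) (b (l 16601872) (c (l 16603072) (l 16593344)))) (b (a (c (l 16645320) (l 16616056)) (a (l 16616280) (l 16647096))) (a (a (l 6) (b (l 16631136) (c (b (l 16642440) (l 16646808)) (l 16634432)))) (b (c (a (l 16634728) (l 16635408)) (l 16623208)) (b (a (l 16656824) (c (l 16642632) (l 16629848))) (c (a (c (l 16648952) (l 16643144)) (b (l 16656776) (c (a (l 16651336) (c (l 16654640) (l 16651240))) (a (l 16644944) (l 16646144))))) (a (l 16634432) (c (a (l 16637400) (l 16638144)) (l 16641592))))))))))))), by decide +kernel⟩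

def k2_pm_022 : ∃ t, chk3 f_pm_022 t 6 2 1 = true :=
  ⟨(a (b (b (a (l 16668824) (l 16727840)) (a (b (l 16691440) (l 16685048)) (b (l 16757792) (l 16763016)))) (a (b (l 16652136) (b (l 16620976) (l 16601520))) (b (l 16740736) (b (l 16675512) (l 16646672))))) (b (b (a (l 16784656) (l 16838200)) (a (b (l 16819392) (l 16836920)) (b (l 16878272) (l 16906400)))) (b (a (l 16876888) (b (l 16918584) (l 16849784))) (a (l 16735608) (l 16797792))))), by decide +kernel⟩

def k3_pm_022 : ∃ t, chk3 f_pm_022 t 6 6 1 = true :=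
  ⟨(a (b (a (b (l 16582536) (l 16563384)) (b (l 16617776) (l 16587896))) (a (b (l 16585232) (l 16585656)) (b (l 16556976) (l 16567040)))) (b (a (b (l 16653824) (l 16611856)) (b (l 16698760) (l 16644360))) (b (a (l 16567752) (l 16596016)) (a (a (l 16522632) (l 16523040)) (b (l 16575352) (l 16539680)))))), by decide +kernel⟩

def k4_pm_022 : ∃ t, chk3 f_pm_022 t 12 14 1 = true :=
  ⟨(a (b (b (l 16554504) (l 16568568)) (a (l 16574104) (l 16574480))) (b (a (l 16557440) (l 16547616)) (a (l 16570776) (l 16562816)))), by decide +kernel⟩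

def k5_pm_022 : ∃ t, chk3 f_pm_022 t 12 30 1 = true :=
  ⟨(a (a (b (l 16579792) (l 16598072)) (b (l 16581392) (l 16621816))) (a (b (l 16580048) (l 16643120)) (b (l 16575344) (c (l 16606496) (l 16591000))))), by decide +kernel⟩

def k6_pm_022 : ∃ t, chk3 f_pm_022 t 24 31 1 = true :=
  ⟨(b (a (c (l 16623496) (l 16610520)) (c (b (l 16623152) (l 16633800)) (l 16613648))) (a (b (c (l 16638592) (l 16624624)) (c (b (l 16646344) (c (b (l 16653968) (a (c (l 16657056) (l 16653432)) (c (l 16665472) (l 16656360)))) (b (l 16646576) (a (l 16648000) (l 16650560))))) (b (l 16631832) (a (c (l 16639512) (l 16632296)) (a (l 16647680) (l 16648744)))))) (b (c (a (l 16642848) (l 16646656)) (l 16649720)) (c (b (a (l 16651048) (c (l 16659504) (l 16650928))) (b (a (l 16655208) (c (l 16663904) (l 16655168))) (c (a (c (b (l 16663488) (l 16670176)) (l 16660080)) (a (c (l 16667768) (l 16663424)) (c (l 16670424) (l 16665920)))) (a (l 16653880) (c (l 16660240) (l 16655816)))))) (c (b (l 16640696)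 (a (l 16644288) (l 16647808))) (a (l 16633552) (l 16636408))))))), by decide +kernel⟩

def k7_pm_022 : ∃ t, chk3 f_pm_022 t 25 31 1 = true :=
  ⟨(b (a (c (b (l 16625624) (l 16637264)) (l 16636088)) (c (b (l 16625224) (l 16638136)) (b (l 16608344) (l 16620256)))) (b (a (c (a (l 16669976) (l 16670648)) (a (l 16631648) (l 16631704))) (a (c (l 16671608) (l 16632032)) (c (a (l 16651560) (l 16652264)) (l 16632656)))) (c (b (a (a (c (l 16662456) (l 16653416)) (c (l 16663720) (l 16654352))) (c (a (l 16665280) (l 30)) (a (l 16655568) (l 16657120)))) (a (a (c (b (l 16677568) (a (c (b (l 16671392) (l 16672936)) (l 16667544)) (c (c (l 16679344) (l 16671744)) (l 16668216)))) (b (l 16657872) (a (l 16660616) (l 16671640)))) (b (c (c (l 16670944) (l 16666160)) (l 16658992)) (c (c (a (c (l 30) (l 16677808)) (l 30)) (a (c (l 16670168) (l 16667768)) (c (l 16676264) (l 16668584)))) (c (a (l 16664168) (l 16664920)) (a (l 16659376) (l 16660032)))))) (a (a (c (c (l 30) (b (l 16667400)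 (c (l 30) (l 16669480)))) (c (b (l 16662488) (l 16670992)) (l 16659176))) (c (l 30) (b (l 16660840) (c (c (l 16667936) (l 16665408)) (l 16661608))))) (c (l 30) (c (b (l 16664776) (a (c (l 30) (l 16666392)) (l 30))) (b (l 16659640) (a (l 16667768) (c (l 16664848) (l 16662216))))))))) (b (a (a (l 16639896) (l 16640312)) (a (l 16641024) (l 16663024))) (a (a (c (b (l 16648672) (l 16651536)) (l 16640848)) (c (c (l 16663824) (l 16648536)) (l 16641328))) (c (b (a (l 16650528) (l 16651944)) (a (a (l 16653312) (l 16654008)) (c (a (l 16657360) (l 16658280)) (l 16657848)))) (a (l 16652600) (c (l 16645824) (l 16640656))))))))), by decide +kernel⟩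

def k8_pm_022 : ∃ t, chk3 f_pm_022 t 13 14 1 = true :=
  ⟨(a (b (b (a (l 16512408) (l 16507184)) (a (l 16498944) (l 16489024))) (a (l 16576616) (b (l 16514776) (l 16541416)))) (b (b (a (l 16508480) (l 16578800)) (a (l 16507592) (l 16678936))) (a (b (l 16528032) (l 16552752)) (b (l 16593088) (l 16638088))))), by decide +kernel⟩

def k9_pm_022 : ∃ t, chk3 f_pm_022 t 13 30 1 = true :=
  ⟨(a (a (b (l 16592520) (c (l 16605448) (l 16589184))) (b (l 16589600) (c (l 16622984) (l 16588200)))) (b (a (c (l 16659976) (l 16558776)) (c (l 16718976) (l 16570008))) (a (c (l 16689384) (l 16588096)) (c (l 16726568) (l 16603072))))), by decide +kernel⟩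

def k10_pm_022 : ∃ t, chk3 f_pm_022 t 26 31 1 = true :=
  ⟨(b (a (c (b (l 16625992) (l 16650536)) (b (l 16608120) (l 16621040))) (c (b (l 16627144) (a (l 30) (l 16682984))) (b (l 16608864) (l 16622976)))) (b (a (c (c (l 30) (a (l 16648504) (l 16650248))) (a (l 16633592) (l 16634848))) (c (c (a (l 30) (l 16739152)) (l 30)) (a (l 16657408) (l 16659336)))) (c (c (c (c (a (l 30) (a (l 30) (a (l 30) (l 16793040)))) (l 30)) (l 30)) (c (l 30) (a (a (b (l 16656416) (b (l 16661688) (a (c (l 30) (l 16663296)) (l 30)))) (l 30)) (l 30)))) (a (b (c (a (l 16648616) (l 16650504)) (a (l 16638224) (l 16639752))) (b (c (a (l 16653712) (l 16665016)) (a (l 16643080) (l 16644832))) (c (a (c (a (l 16659288) (c (l 16661744) (l 16659024))) (a (l 16653936) (l 16654944))) (c (a (c (l 30) (l 16660192)) (l 30)) (a (l 16656040) (c (l 16658640) (l 16655816))))) (a (c (l 16659520) (l 16643640)) (c (a (l 16650496) (l 16651592)) (l 16645448)))))) (b (c (a (l 16652752) (l 30)) (a (l 16641640) (l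 16643888))) (b (c (a (c (l 30) (l 16655496)) (l 30)) (a (l 16646952) (l 16659944))) (c (a (c (l 30) (a (c (l 30) (l 16657080)) (l 30))) (l 30)) (a (c (a (l 16652776) (c (l 16655528) (l 16652608))) (a (l 16647040) (l 16648224))) (c (a (c (l 30) (l 16653968)) (l 30)) (a (l 16649512) (c (l 16652408) (l 16649384)))))))))))), by decide +kernel⟩

def k11_pm_022 : ∃ t, chk3 f_pm_022 t 27 31 1 = true :=
  ⟨(b (a (c (b (l 16713608) (a (l 16715360) (l 16745688))) (b (l 16610696) (l 16647136))) (c (b (l 16771008) (a (l 16774096) (l 16800696))) (b (l 16609192) (a (l 30) (l 16664368))))) (b (a (c (a (c (l 16770048) (l 30)) (c (l 16798968) (l 16728128))) (c (l 30) (a (l 16635016) (l 16637488)))) (c (a (c (l 16826040) (l 16757240)) (c (l 16851376) (l 16784536))) (a (l 30) (c (l 16717672) (l 30))))) (c (c (a (a (a (c (l 16798888) (l 30)) (a (l 16771024) (l 16799256))) (b (l 16812344) (l 16779552))) (a (l 16843656) (l 16868696))) (c (a (a (l 30) (a (l 30) (l 16772064))) (a (b (l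 16788344) (l 16797856)) (l 16819568))) (a (l 30) (a (a (l 30) (l 16755912)) (a (l 16780112) (l 16793392)))))) (c (c (a (l 30) (a (l 30) (a (l 30) (a (l 30) (l 16764240))))) (l 30)) (c (l 30) (a (a (b (l 16643552) (b (l 16649304) (a (c (l 30) (l 16650848)) (l 30)))) (l 30)) (l 30))))))), by decide +kernel⟩

def k12_pm_022 : ∃ t, chk3 f_pm_022 t 7 2 1 = true :=
  ⟨(b (a (b (a (l 16888256) (l 16936240)) (a (b (l 16934728) (l 16971040)) (b (l 16990048) (l 17031608)))) (b (a (l 16982880) (l 17007904)) (a (b (l 17041864) (l 17088736)) (b (l 17071472) (l 17120304))))) (a (b (a (b (b (l 16991488) (l 16977360)) (l 16936376)) (b (b (l 17064704) (a (l 17052696) (l 17097656))) (a (l 17013184) (l 17070528)))) (a (b (l 16879616) (l 16819520)) (b (l 16991224) (l 16950472)))) (b (a (b (a (l 17103576) (l 17151856)) (b (a (l 17137152) (c (l 17193448) (l 17153752))) (l 17137144))) (b (b (l 17159664) (l 17187296)) (b (a (c (l 17215712) (l 17194728)) (l 17198664)) (a (l 17197008) (c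 (l 17233488) (b (l 17223736) (l 17214560))))))) (a (b (l 17105064) (l 17068152)) (b (a (l 17167616) (l 17199504)) (l 17151992)))))), by decide +kernel⟩

def k13_pm_022 : ∃ t, chk3 f_pm_022 t 7 6 1 = true :=
  ⟨(a (b (a (b (l 16784696) (l 16753720)) (b (l 16915160) (l 16883856))) (a (b (l 16723360) (a (l 16664792) (l 16719152))) (b (l 16834056) (a (l 16787064) (l 16866216))))) (b (a (l 17023288) (b (l 17125128) (l 17102712))) (a (b (l 16986832) (l 16966688)) (b (l 17083808) (l 17068576))))), by decide +kernel⟩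

def k14_pm_022 : ∃ t, chk3 f_pm_022 t 14 14 1 = true :=
  ⟨(a (b (b (a (l 16640520) (l 16694784)) (a (b (l 16650104) (l 16634504)) (b (l 16682312) (l 16684624)))) (a (b (l 16650048) (l 16673552)) (b (l 16699928) (l 16723032)))) (b (a (b (l 16765192) (b (l 16754184) (l 16754000))) (b (l 16848472) (b (l 16839832) (l 16838008)))) (a (a (b (l 16745944) (l 16768736)) (l 16801272)) (b (l 16851344) (l 16872656))))), by decide +kernel⟩

def k15_pm_022 : ∃ t, chk3 f_pm_022 t 14 15 1 = true :=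
  ⟨(a (b (a (b (c (l 16770648) (l 16629904)) (c (l 16798528) (l 16693472))) (b (c (l 16815880) (l 16682600)) (c (l 16843160) (a (l 16701568) (l 16725960))))) (b (a (c (a (l 16817432) (l 16840880)) (b (l 16688280) (a (l 16693104) (l 16720096)))) (b (c (l 16865448) (l 16697560)) (c (l 16881184) (a (l 16745456) (l 16769272))))) (a (a (b (c (l 16842608) (c (l 16745128) (l 30))) (c (c (l 16892128) (l 16828464)) (c (a (c (l 16774200) (l 30)) (b (l 16766320) (l 16755320))) (l 30)))) (b (c (l 16865688) (c (l 16770912) (l 16707720))) (c (l 16862128) (b (c (l 16785336) (a (l 30) (l 16729656))) (a (c (l 16788976) (l 30)) (c (l 16801272) (c (l 16755408) (l 30)))))))) (a (c (b (l 16887304) (l 16904456)) (c (b (l 16795120) (l 16793176)) (b (l 16733648) (a (c (l 16762832) (l 30)) (b (l 16754952) (l 16744264)))))) (c (l 16915944) (c (b (l 16817832) (l 16836576)) (b (l 16758024) (a (a (l 16769144) (l 16775072)) (l 16783784))))))))) (b (a (b (a (l 16773376) (l 16837400)) (c (l 16902936)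 (a (l 16761920) (l 16807696)))) (b (l 16895880) (c (l 16972160) (l 16869728)))) (b (a (c (a (l 16912600) (l 16948888)) (a (b (l 16786512) (l 16803808)) (l 16839080))) (c (l 16997304) (l 16898336))) (a (c (b (l 16953792) (l 16969528)) (b (a (l 16779816) (l 16864088)) (a (b (l 16793696) (c (l 16872896) (l 16817280))) (l 16881472)))) (c (l 17024000) (b (l 16920920) (l 16936536))))))), by decide +kernel⟩

def k16_pm_022 : ∃ t, chk3 f_pm_022 t 15 7 1 = true :=
  ⟨(b (a (b (b (l 16953696) (a (l 16912952) (l 16977000))) (a (l 16932680) (l 16992888))) (b (a (l 17033920) (l 17078560)) (a (l 17043568) (l 17085328)))) (a (b (a (c (l 17019208) (l 16929304)) (l 17029120)) (a (b (l 17008800) (c (l 17074664) (l 16992096))) (b (l 17058704) (l 17079544)))) (b (a (l 17073992) (l 17109816)) (a (l 17107344) (l 17137000))))), by decide +kernel⟩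

theorem s17_pm_022 : ∃ t, chk3 f_pm_022 t 14 7 1 = true := ex3_b k14_pm_022 k15_pm_022

theorem s18_pm_022 : ∃ t, chk3 f_pm_022 t 7 7 1 = true := ex3_a s17_pm_022 k16_pm_022

theorem s19_pm_022 : ∃ t, chk3 f_pm_022 t 7 3 1 = true := ex3_b k13_pm_022 s18_pm_022

theorem s20_pm_022 : ∃ t, chk3 f_pm_022 t 7 1 1 = true := ex3_b k12_pm_022 s19_pm_022

theorem s21_pm_022 : ∃ t, chk3 f_pm_022 t 13 31 1 = true := ex3_a k10_pm_022 k11_pm_022

theorem s22_pm_022 : ∃ t, chk3 f_pm_022 t 13 15 1 = true := ex3_b k9_pm_022 s21_pm_022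

theorem s23_pm_022 : ∃ t, chk3 f_pm_022 t 13 7 1 = true := ex3_b k8_pm_022 s22_pm_022

theorem s24_pm_022 : ∃ t, chk3 f_pm_022 t 12 31 1 = true := ex3_a k6_pm_022 k7_pm_022

theorem s25_pm_022 : ∃ t, chk3 f_pm_022 t 12 15 1 = true := ex3_b k5_pm_022 s24_pm_022

theorem s26_pm_022 : ∃ t, chk3 f_pm_022 t 12 7 1 = true := ex3_b k4_pm_022 s25_pm_022

theorem s27_pm_022 : ∃ t, chk3 f_pm_022 t 6 7 1 = true := ex3_a s26_pm_022 s23_pm_022

theorem s28_pm_022 : ∃ t, chk3 f_pm_022 t 6 3 1 = true := ex3_b k3_pm_022 s27_pm_022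

theorem s29_pm_022 : ∃ t, chk3 f_pm_022 t 6 1 1 = true := ex3_b k2_pm_022 s28_pm_022

theorem s30_pm_022 : ∃ t, chk3 f_pm_022 t 3 1 1 = true := ex3_a s29_pm_022 s20_pm_022

theorem s31_pm_022 : ∃ t, chk3 f_pm_022 t 2 1 1 = true := ex3_a k0_pm_022 k1_pm_022

theorem s32_pm_022 : ∃ t, chk3 f_pm_022 t 1 1 1 = true := ex3_a s31_pm_022 s30_pm_022

theorem c_pm_022 : CertF 0 536870912 0 536870912 335544320 67108864 true true false .pp 0 2 2
    ndF0q0 ndF0q2 pcF2 cut_pm_022 Ext.none :=
  certF2 (fam := true) (s1 := true) (s2 := false) (a := 0) (b := 2) (c := 2) (cn := .pp) (n1 := ndF0q0) (n2 := ndF0q2) (pc := pcF2) (cut := cut_pm_022) (xt := Ext.none) (P1 := 0) (W1 := 536870912) (P2 := 0) (W2 := 536870912) (P3 := 335544320) (W3 := 67108864)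
    rfl (fun _ => rfl) s32_pm_022

noncomputable def cut_pm_023 : Cut := Cut.of [[⟨3, 0, 0, 1449551462⟩], [⟨4, 0, 0, 2845415833⟩]]

noncomputable def f_pm_023 : ℕ → ℕ → ℕ → ℕ → Bool := onCell 0 536870912 0 536870912 335544320 67108864
    (rowF 0 true true false .up 0 2 3 (qsf 0 536870912 0 536870912 3) ndF0q0 ndF0q2 pcF3 cut_pm_023 Ext.none)

def k0_pm_023 : ∃ t, chk3 f_pm_023 t 1 1 1 = true :=
  ⟨(a (l 1) (b (a (a (l 1) (b (a (b (l 1) (l 1)) (b (l 16832808) (l 104723456807))) (a (l 1) (b (b (l 16840216) (l 133714451975)) (l 146062552343))))) (b (a (b (a (l 16843768) (l 16847040)) (a (l 16857744) (l 16867336))) (b (a (l 16843904) (l 14)) (a (l 16869584) (l 16865672)))) (a (a (b (l 16866352) (l 16872320)) (b (l 16884712) (l 16900208))) (a (b (l 16894304) (l 16917552)) (b (l 16896328) (l 16926008)))))) (a (b (l 1) (l 1)) (b (a (b (a (l 153041848327) (l 16921424)) (a (l 176127435127) (l 163779435511))) (b (a (l 16947744) (l 16962592)) (a (l 16979928) (l 17002720))))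 (a (b (a (l 1) (b (l 185791252295) (l 1))) (l 1)) (b (a (b (l 17005136) (l 162168934359)) (b (l 17034656) (l 17051600))) (a (b (l 175590800135) (l 1)) (b (l 17054832) (a (l 183107060343) (l 17064840)))))))))), by decide +kernel⟩

theorem c_pm_023 : CertF 0 536870912 0 536870912 335544320 67108864 true true false .up 0 2 3
    ndF0q0 ndF0q2 pcF3 cut_pm_023 Ext.none :=
  certF0 (fam := true) (s1 := true) (s2 := false) (a := 0) (b := 2) (c := 3) (cn := .up) (n1 := ndF0q0) (n2 := ndF0q2) (pc := pcF3) (cut := cut_pm_023) (xt := Ext.none) (P1 := 0) (W1 := 536870912) (P2 := 0) (W2 := 536870912) (P3 := 335544320) (W3 := 67108864)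
    rfl k0_pm_023

noncomputable def cut_pm_101 : Cut := Cut.of [[⟨3, 0, 0, 1449551462⟩], [⟨4, 0, 0, 2845415833⟩], [⟨0, 1, 0, 67108864⟩, ⟨1, 0, 0, 67108864⟩, ⟨2, 1, 0, 67108864⟩]]

noncomputable def f_pm_101 : ℕ → ℕ → ℕ → ℕ → Bool := onCell 536870912 536870912 536870912 536870912 335544320 67108864
    (rowF 1 true true false .npn 1 0 1 (qsf 536870912 536870912 0 536870912 1) ndF0q1 ndF0q0 pcF1 cut_pm_101 Ext.none)

def k0_pm_101 : ∃ t, chk3 f_pm_101 t 1 1 1 = true :=
  ⟨(l 6), by decide +kernel⟩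

theorem c_pm_101 : CertF 536870912 536870912 0 536870912 335544320 67108864 true true false .npn 1 0 1
    ndF0q1 ndF0q0 pcF1 cut_pm_101 Ext.none :=
  certF1 (fam := true) (s1 := true) (s2 := false) (a := 1) (b := 0) (c := 1) (cn := .npn) (n1 := ndF0q1) (n2 := ndF0q0) (pc := pcF1) (cut := cut_pm_101) (xt := Ext.none) (P1 := 536870912) (W1 := 536870912) (P2 := 0) (W2 := 536870912) (P3 := 335544320) (W3 := 67108864)
    rfl (fun _ => rfl) k0_pm_101

noncomputable def cut_pm_102 : Cut := Cut.of [[⟨3, 0, 0, 1449551462⟩], [⟨4, 0, 0, 2845415833⟩], [⟨0, 1, 0, 67108864⟩, ⟨1, 0, 0, 67108864⟩, ⟨2, 1, 0, 67108864⟩], [⟨0, 1, 0, 33554432⟩, ⟨1, 0, 1, 33554432⟩, ⟨2, 1, 1, 33554432⟩]]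

noncomputable def f_pm_102 : ℕ → ℕ → ℕ → ℕ → Bool := onCell 536870912 536870912 1073741824 536870912 335544320 67108864
    (rowF 1 true true false .npp 1 0 2 (qsf 536870912 536870912 0 536870912 2) ndF0q1 ndF0q0 pcF2 cut_pm_102 Ext.none)

def k0_pm_102 : ∃ t, chk3 f_pm_102 t 2 1 1 = true :=
  ⟨(b (l 6) (b (b (l 6) (l 2)) (l 2))), by decide +kernel⟩

def k1_pm_102 : ∃ t, chk3 f_pm_102 t 3 4 1 = true :=
  ⟨(l 6), by decide +kernel⟩

def k2_pm_102 : ∃ t, chk3 f_pm_102 t 3 10 1 = true :=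
  ⟨(l 6), by decide +kernel⟩

def k3_pm_102 : ∃ t, chk3 f_pm_102 t 6 11 1 = true :=
  ⟨(l 6), by decide +kernel⟩

def k4_pm_102 : ∃ t, chk3 f_pm_102 t 14 11 1 = true :=
  ⟨(l 6), by decide +kernel⟩

def k5_pm_102 : ∃ t, chk3 f_pm_102 t 30 11 1 = true :=
  ⟨(b (l 6) (a (l 6) (a (l 6) (a (l 6) (b (l 6) (b (l 6) (c (l 16699544) (l 16686080)))))))), by decide +kernel⟩

def k6_pm_102 : ∃ t, chk3 f_pm_102 t 31 22 1 = true :=
  ⟨(l 6), by decide +kernel⟩

def k7_pm_102 : ∃ t, chk3 f_pm_102 t 62 23 1 = true :=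
  ⟨(b (l 6) (a (c (b (a (l 6) (a (l 6) (l 16682640))) (c (a (l 16696856) (l 16690936)) (a (l 16690272) (l 16684344)))) (b (c (l 16677552) (l 16671256)) (c (a (l 16683552) (l 16677640)) (l 16673776)))) (c (b (c (a (l 16681568) (c (l 16677688) (l 16674640))) (a (l 16675464) (l 16670024))) (c (a (c (l 16686736) (l 16683464)) (a (l 16680776) (a (l 16678624) (l 16677192)))) (a (l 16678496) (c (l 16674376) (l 16671032))))) (b (a (l 16666120) (l 16671120)) (c (a (l 16671784) (l 16665992)) (a (l 16664976) (l 16659184))))))), by decide +kernel⟩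

def k8_pm_102 : ∃ t, chk3 f_pm_102 t 63 23 1 = true :=
  ⟨(b (a (b (l 6) (c (c (a (l 16668736) (l 16663776)) (a (l 16662968) (l 16657936))) (c (l 16654584) (l 16648648)))) (c (b (a (l 16665768) (l 16650648)) (c (a (l 16658864) (l 16653992)) (a (l 16652944) (l 16647984)))) (b (c (l 16644528) (l 16638864)) (c (l 16654952) (l 16638448))))) (c (a (b (c (a (c (l 16672360) (l 16669280)) (c (l 16667096) (l 16663984))) (a (l 16664624) (l 16659288))) (b (c (a (c (l 16674496) (l 16671248)) (c (l 16668968) (l 16665688))) (a (l 16666328) (l 16660744))) (c (a (c (a (l 16677600) (l 16674728)) (l 16672784)) (c (a (l 16671872) (l 16669032)) (a (l 16668480) (l 16665632)))) (a (c (l 16669392) (l 16665976)) (c (l 16663640) (l 16660216)))))) (b (c (a (c (l 16661888) (l 16658736)) (b (l 16654800) (l 16655528))) (a (l 16653992) (l 16648744))) (b (c (a (c (l 16663504) (l 16660200)) (c (l 16658104) (l 16654760))) (a (l 16655208) (l 16649728))) (b (c (a (c (l 16664472) (l 16661080)) (l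 16667712)) (a (l 16655960) (l 16650360))) (c (a (c (l 16665168) (l 16661720)) (c (l 16659552) (l 16656072))) (a (l 16656520) (l 16650832))))))) (a (b (c (a (l 16658360) (l 16652976)) (l 16649312)) (c (a (l 16662864) (c (l 16656240) (l 16652848))) (a (l 16653432) (l 16647728)))) (b (a (l 16654920) (l 16649600)) (b (a (l 16655656) (l 16639632)) (c (a (l 16649320) (l 16643648)) (l 16644768))))))), by decide +kernel⟩

def k9_pm_102 : ∃ t, chk3 f_pm_102 t 6 6 1 = true :=
  ⟨(b (a (l 6) (a (l 6) (b (l 6) (b (l 6) (a (l 16947168) (l 16936232)))))) (a (b (b (b (l 6) (l 2)) (l 2)) (l 2)) (b (a (a (b (l 16988032) (l 17010224)) (b (l 16982160) (l 17005872))) (a (b (l 16974624) (l 17000128)) (l 16958376))) (a (a (l 2) (b (l 17027088) (l 2))) (a (l 17033256) (l 17028608)))))), by decide +kernel⟩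

def k10_pm_102 : ∃ t, chk3 f_pm_102 t 14 12 1 = true :=
  ⟨(a (b (l 6) (a (b (c (l 16911960) (l 16867616)) (l 16919176)) (b (c (l 16886824) (l 16840776)) (l 16892432)))) (b (b (l 6) (a (c (l 16814960) (a (l 6) (l 16787376))) (c (a (l 16794200) (l 16780216)) (a (l 16774064) (l 16739632))))) (a (b (c (l 16856240) (a (l 16819808) (l 16805488))) (c (l 16896448) (l 16833144))) (b (c (l 16818144) (a (l 16790936) (l 16776208))) (c (l 16821248) (l 16779992)))))), by decide +kernel⟩

def k11_pm_102 : ∃ t, chk3 f_pm_102 t 30 12 1 = true :=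
  ⟨(b (a (b (c (a (l 16749416) (l 16736472)) (a (l 16733336) (l 16720696))) (c (a (l 16766168) (l 16752072)) (a (c (l 16751872) (l 16742136)) (c (l 16738096) (l 16728584))))) (b (c (a (b (l 16720416) (l 16726912)) (b (c (l 16711392) (l 16704184)) (c (l 16717632) (l 16709784)))) (a (b (l 16705544) (l 16710704)) (b (c (l 16696840) (l 16689344)) (l 16697752)))) (c (a (b (l 16734096) (l 16742024)) (b (l 16720328) (l 16727656))) (a (b (l 16716496) (l 16722936)) (b (l 16703008) (l 16708912)))))) (a (b (c (a (l 16783536) (l 16767968)) (a (l 16740360) (b (l 16743448) (l 16749472)))) (c (a (l 16832808) (l 16788400)) (a (l 16776264) (l 16759616)))) (b (c (a (l 16752392) (b (l 16734144) (l 16739728))) (a (b (l 16728792) (l 16734016)) (b (l 16693128) (l 16718512)))) (c (a (l 16761952) (b (l 16745872) (l 16746576))) (a (c (l 16748856) (l 16736872)) (c (l 16731888) (l 16709768))))))), by decide +kernel⟩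

def k12_pm_102 : ∃ t, chk3 f_pm_102 t 62 24 1 = true :=
  ⟨(b (a (c (a (b (c (l 16701936) (l 16694760)) (l 16703872)) (c (b (l 16695680) (l 16701192)) (b (l 16688520) (l 16693424)))) (b (c (a (l 16687464) (l 16681248)) (l 16676952)) (c (l 16688792) (l 16680776)))) (c (b (c (a (c (l 16691248) (l 16687696)) (a (l 16684840) (a (l 16682552) (l 16681024)))) (a (c (l 16684112) (l 16680512)) (c (l 16677952) (l 16674352)))) (c (a (c (l 16696552) (l 16692704)) (b (l 16686864) (l 16689472))) (a (l 16686880) (c (l 16682344) (l 16678456))))) (b (c (a (l 16675064) (l 16668904)) (a (l 16667704) (l 16661576))) (c (a (l 16679040) (l 16672584)) (a (l 16671096) (l 16664680)))))) (a (c (b (c (a (l 16714248) (l 16707384)) (l 16702376)) (c (a (l 16721472) (l 16714304)) (l 16708760))) (b (c (l 16693832) (l 16685184)) (c (l 16699536) (l 16690208)))) (c (b (c (a (l 16700544) (c (l 16695808) (l 16691648))) (a (l 16692160) (l 16685376))) (c (a (l 16707152) (c (l 16702272) (l 16697784)))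 (a (l 16698104) (l 16691024)))) (b (c (a (l 16683688) (l 16676944)) (l 16671784)) (c (a (l 16688968) (l 16681944)) (l 16676272)))))), by decide +kernel⟩

def k13_pm_102 : ∃ t, chk3 f_pm_102 t 63 48 1 = true :=
  ⟨(c (a (b (c (a (a (b (l 16677760) (l 16679808)) (b (a (l 16675528) (l 16674048)) (l 16676744))) (c (b (a (l 16673592) (l 16670664)) (a (l 16675520) (l 16672496))) (b (a (l 16670080) (l 16667136)) (a (l 16671872) (l 16668840))))) (a (c (b (l 16671000) (l 16672800)) (l 16668264)) (c (b (l 16665072) (l 16666696)) (b (l 16661520) (l 16663016))))) (c (a (c (b (l 16682376) (l 16684880)) (b (l 16678600) (l 16680960))) (c (b (a (l 16677656) (l 16674528)) (a (l 16680008) (l 16676784))) (b (l 16672304) (l 16674472)))) (a (b (l 16672904) (l 16675048)) (c (b (l 16668512) (l 16670528)) (l 16665608))))) (b (c (a (c (b (a (l 16667752) (l 16664864)) (a (l 16669488) (l 16666504))) (b (a (l 16664216) (l 16661312)) (a (l 16665832) (l 16662832)))) (a (c (b (l 16661984) (l 16663536))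 (l 16659112)) (c (b (l 16659128) (l 16660592)) (l 16656192)))) (a (c (b (l 16659208) (l 16660656)) (b (l 16655648) (l 16656968))) (c (b (l 16653416) (l 16654680)) (b (l 16649832) (l 16650984))))) (c (a (a (c (b (l 16671432) (l 16673584)) (b (l 16667640) (l 16669656))) (c (b (l 16668352) (l 16670408)) (l 16665480))) (a (c (b (l 16665288) (l 16667248)) (l 16662360)) (c (b (l 16662248) (l 16664112)) (l 16664512)))) (a (c (b (l 16662288) (l 16664120)) (l 16659288)) (c (b (l 16656136) (l 16657784)) (b (l 16652312) (l 16653832))))))) (a (b (c (a (c (l 16664640) (l 16661000)) (c (l 16658616) (l 16654976))) (a (l 16655504) (l 16649488))) (c (a (l 16666152) (l 16659768)) (a (l 16658288) (l 16651928)))) (b (c (a (c (l 16652648) (l 16649000)) (c (l 16646736) (l 16643080))) (a (l 16643520) (l 16637592))) (c (a (l 16653448) (c (l 16649144) (l 16645248))) (a (l 16645632) (l 16639392)))))), by decide +kernel⟩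

def k14_pm_102 : ∃ t, chk3 f_pm_102 t 63 49 1 = true :=
  ⟨(c (a (b (c (a (a (l 16688640) (b (l 16683888) (l 16686664))) (a (b (l 16680544) (l 16683248)) (c (a (l 16681408) (l 16679728)) (l 16676424)))) (a (c (l 16680680) (l 16676496)) (c (b (l 16672768) (l 16675192)) (l 16669776)))) (b (c (a (l 16691368) (c (l 16686568) (l 16682192))) (a (l 16682560) (l 16675600))) (c (a (l 16694536) (c (l 16687040) (l 16685120))) (a (l 16685400) (l 16678288))))) (b (c (a (c (b (a (l 16675952) (l 16672672)) (a (l 16678544) (l 16675168))) (b (a (l 16671880) (l 16668600)) (a (l 16674328) (l 16670944)))) (a (c (b (l 16669416) (l 16671800)) (l 16666424)) (c (b (l 16666176) (l 16668464)) (b (l 16662096) (l 16664240))))) (a (c (b (l 16666160) (l 16668408)) (l 16663096)) (c (b (l 16659632) (l 16661680)) (l 16656464)))) (c (a (c (b (a (l 16681344) (l 16677872)) (a (l 16684328) (l 16680776))) (b (a (l 16676968) (l 16673496)) (a (l 16679792) (l 16676248)))) (c (b (a (l 16674416) (l 16670976))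 (a (c (l 16678368) (l 16676104)) (c (l 16674832) (l 16672568)))) (b (a (l 16670040) (l 16666608)) (a (l 16672712) (l 16669176))))) (a (c (b (l 16670848) (l 16673480)) (b (l 16666456) (l 16668928))) (c (b (l 16663944) (l 16666408)) (b (l 16659568) (l 16661872))))))) (a (b (c (a (l 16670192) (l 16663496)) (a (l 16661736) (l 16655080))) (c (a (l 16674936) (l 16667944)) (a (l 16665848) (l 16658912)))) (b (c (a (c (l 16658928) (l 16654744)) (l 16655456)) (a (l 16648456) (l 16641872))) (c (a (c (l 16663192) (l 16658712)) (c (l 16656248) (l 16651792))) (a (l 16651976) (l 16645088)))))), by decide +kernel⟩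

def k15_pm_102 : ∃ t, chk3 f_pm_102 t 62 25 1 = true :=
  ⟨(c (a (b (b (c (l 16723936) (l 16714192)) (c (l 16728872) (l 16718592))) (b (c (l 16735424) (l 16723488)) (c (l 16724480) (l 16728920)))) (b (b (c (a (l 16712624) (l 16710360)) (a (l 16702984) (l 16695544))) (c (a (l 16716856) (l 16708880)) (a (l 16706720) (l 16698832)))) (b (c (a (l 16721568) (l 16713104)) (a (l 16710912) (l 16702560))) (c (l 30) (a (l 16715608) (l 16706760)))))) (b (a (b (c (l 16704352) (l 16694416)) (c (l 16708216) (l 16697752))) (a (b (l 16688384) (l 16691368)) (b (c (l 16685896) (l 16676192)) (c (l 16688712) (l 16678536))))) (a (c (b (l 16712560) (l 16717408)) (b (l 16701544) (l 16705824))) (a (b (l 16705280) (c (l 16704344) (l 16693016))) (b (c (l 16691960) (l 16681296)) (c (l 16695656) (l 16684488))))))), by decide +kernel⟩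

def k16_pm_102 : ∃ t, chk3 f_pm_102 t 63 50 2 = true :=
  ⟨(a (b (b (c (a (l 16696904) (c (a (l 16693744) (l 16690080)) (l 16687232))) (a (l 16687488) (l 16680200))) (c (a (l 16698440) (c (a (l 16695160) (l 16691384)) (l 16688488))) (a (l 16688808) (l 16683920)))) (b (c (a (l 16700080) (c (a (l 16696680) (l 16692784)) (l 16689848))) (a (l 16690224) (c (l 16684952) (l 16680040)))) (c (a (l 16701832) (c (l 30) (l 16691304))) (a (l 16691744) (c (l 16686296) (l 16681288)))))) (b (c (a (c (b (a (l 16686424) (l 16682784)) (a (l 16687616) (c (l 16685048) (l 16682672)))) (b (a (l 16681760) (l 16678128)) (a (l 16682848) (l 16679104)))) (c (b (a (c (l 16680312) (l 16677984)) (b (l 16675328) (l 16675736))) (a (b (l 16679864) (l 16680368)) (c (b (l 16677336) (l 30)) (l 16675192)))) (b (a (l 16674496) (l 16670872)) (a (l 16675368) (l 16671632))))) (a (c (b (l 16675272) (l 16676208)) (b (l 16670600) (l 16671440))) (c (b (l 16668032) (c (l 16669944) (l 16667568))) (b (l 16663376)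 (l 16664008))))) (c (a (c (b (a (l 16688904) (c (l 30) (l 16683816))) (l 30)) (b (a (l 16684032) (l 16680176)) (a (l 16685312) (c (l 16682576) (l 16680096))))) (c (c (l 30) (b (b (a (l 16679688) (l 16675864)) (l 30)) (l 30))) (b (a (c (l 16677528) (l 16675112)) (c (l 16673688) (l 16671272))) (a (a (l 16678360) (l 16676376)) (c (b (l 16674392) (l 30)) (l 16672176)))))) (a (c (b (a (l 16679160) (l 16675312)) (a (l 16680344) (l 16676376))) (b (l 16672368) (l 16673384))) (c (b (a (l 16671472) (l 16667648)) (a (l 16672424) (l 16668488))) (b (l 16664720) (c (l 16666752) (l 16664288)))))))), by decide +kernel⟩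

def k17_pm_102 : ∃ t, chk3 f_pm_102 t 63 50 3 = true :=
  ⟨(a (b (c (a (l 16678544) (c (l 16673592) (l 16668824))) (a (l 16668912) (l 16661656))) (c (a (l 16680944) (c (l 16675680) (l 16670704))) (a (l 16670872) (l 16663224)))) (b (b (c (a (l 16663576) (l 16656384)) (l 16650632)) (c (a (l 16664272) (l 16656880)) (l 16651032))) (c (a (b (l 16665048) (l 16665920)) (c (b (l 16659872) (l 16660584)) (l 16655328))) (a (l 16655592) (l 16653224))))), by decide +kernel⟩

def k18_pm_102 : ∃ t, chk3 f_pm_102 t 63 51 2 = true :=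
  ⟨(a (b (b (c (a (l 16703688) (c (l 30) (a (l 16694920) (l 16690808)))) (a (l 16693376) (c (l 16687752) (l 16682632)))) (c (l 30) (a (l 16695120) (c (l 16689312) (l 16684080))))) (c (l 30) (b (a (l 16696968) (c (l 16690976) (l 16685632))) (a (l 16698944) (c (l 30) (l 16687296)))))) (b (c (b (b (c (l 30) (c (l 30) (a (l 16683048) (a (l 16676960) (l 16672920))))) (l 30)) (l 30)) (a (c (b (a (l 16681616) (l 16677536)) (a (l 16683000) (l 16678800))) (b (a (l 16676536) (l 16672480)) (a (l 16677808) (l 16673632)))) (c (b (a (c (l 16674728) (l 16672208)) (c (l 16670664) (l 16668160))) (a (c (l 16675896) (l 16673328)) (c (b (l 16671440) (l 30)) (l 16669152)))) (b (a (l 16668432) (l 16664392)) (a (l 16669472) (l 16665320)))))) (c (l 30) (a (c (b (a (l 16684480) (c (l 30) (l 16678840))) (l 30)) (b (a (l 16679184) (l 16674888)) (a (l 16680656) (l 16676240)))) (c (b (b (a (l 16675528) (a (l 16672320) (l 16670192))) (l 30)) (l 30)) (b (a (l 16670608) (c (l 16667640) (l 16665032)))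 (a (c (l 16673176) (l 16670504)) (b (l 16667160) (l 16667736))))))))), by decide +kernel⟩

def k19_pm_102 : ∃ t, chk3 f_pm_102 t 63 51 3 = true :=
  ⟨(a (b (c (a (c (l 16686376) (l 16681120)) (b (l 16674936) (l 16676216))) (a (l 16673216) (l 16665152))) (c (a (c (l 16689728) (l 16684240)) (b (l 16680224) (c (l 16681832) (l 16676360)))) (a (l 16675976) (c (l 16670200) (l 16664768))))) (b (c (a (c (b (l 16669424) (l 16670536)) (b (l 16664336) (l 16665344))) (a (b (l 16660864) (l 16661760)) (b (l 16656864) (l 16662888)))) (a (c (l 16659688) (l 16654544)) (c (l 16651648) (l 16646560)))) (b (c (a (c (l 16671744) (l 16666456)) (c (a (l 16665368) (l 16661120)) (l 16658016))) (a (l 16658504) (l 16650168))) (c (a (c (a (l 16675248) (l 16670864)) (l 16667656)) (c (a (l 16666496) (l 16662136)) (l 16658992))) (a (l 16659552) (l 16650992)))))), by decide +kernel⟩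

def k20_pm_102 : ∃ t, chk3 f_pm_102 t 14 13 1 = true :=
  ⟨(a (b (a (c (l 16991320) (l 16942816)) (b (l 16927856) (l 16960664))) (a (b (l 17008976) (l 17033456)) (b (l 16990832) (l 17018152)))) (b (a (b (l 16857136) (l 16871824)) (b (c (l 16904384) (l 16824568)) (l 16819920))) (a (b (l 16967352) (l 16996992)) (b (l 16855800) (c (l 17006224) (l 16938216)))))), by decide +kernel⟩

def k21_pm_102 : ∃ t, chk3 f_pm_102 t 30 13 1 = true :=
  ⟨(b (a (b (c (l 16805136) (a (l 16793840) (l 16775384))) (a (l 16813304) (c (l 16901000) (l 16809624)))) (b (c (a (l 16771712) (b (l 16753448) (l 16758816))) (a (l 16756800) (b (l 16734912) (l 16741520)))) (a (b (l 16746600) (l 16759384)) (c (b (l 16804680) (l 16870136)) (b (l 16748744) (l 16744688)))))) (a (b (a (l 16810320) (l 16791752)) (c (l 16981888) (l 16818872))) (b (a (c (l 16922608) (l 16766424)) (c (b (l 16892344) (l 16913304)) (c (l 16764800) (l 16756680)))) (a (c (l 16959688) (l 16808392)) (c (l 16942536) (l 16763616)))))),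 by decide +kernel⟩

def k22_pm_102 : ∃ t, chk3 f_pm_102 t 62 26 1 = true :=
  ⟨(a (a (b (c (c (l 16732888) (l 16736560)) (b (l 16721264) (l 16727136))) (c (l 16745416) (b (l 16733584) (l 16741608)))) (b (c (c (l 16728944) (l 16719872)) (b (l 16712160) (l 16717536))) (c (b (l 16729312) (l 16797016)) (b (l 16723472) (l 16729976))))) (a (b (c (c (b (l 16751120) (l 16801360)) (b (l 16720816) (l 30))) (b (c (l 16709000) (l 16697120)) (c (l 16714168) (l 16701728)))) (c (b (c (l 16828912) (l 16746744)) (l 16720208)) (b (l 16715984) (l 16714088)))) (b (c (c (b (l 30) (l 16712152)) (b (l 16711456) (l 30))) (b (c (l 16699824) (l 16688144)) (c (l 16704480) (l 16692264)))) (c (b (c (l 16772272) (l 30)) (c (l 16841152) (l 16716520))) (b (c (l 16709656) (l 16696880)) (c (l 30) (l 16702024))))))), by decide +kernel⟩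

def k23_pm_102 : ∃ t, chk3 f_pm_102 t 126 26 1 = true :=
  ⟨(b (c (b (b (c (l 30) (a (l 16701032) (c (l 30) (l 16689072)))) (l 30)) (c (a (a (l 16710096) (l 30)) (l 30)) (l 30))) (b (b (c (a (l 16689704) (c (l 16683488) (l 16677896))) (a (l 16678336) (l 16669504))) (c (a (l 16691656) (c (l 16685256) (l 16679552))) (a (l 16680040) (l 16670976)))) (b (c (a (l 16693736) (c (l 16687136) (l 16681312))) (a (l 16681864) (l 16672560))) (c (a (l 16695928) (c (l 30) (l 16683184))) (a (l 16683800) (c (l 16677232) (l 16671272))))))) (c (c (b (a (b (l 16749312) (l 16805720)) (c (b (l 16791472) (l 16806288)) (l 30))) (a (c (l 16842584) (l 16810560)) (b (c (l 16820632) (l 16787152)) (l 16818016)))) (b (l 30) (a (a (l 16703944) (l 30)) (l 30)))) (b (b (c (a (l 16698240) (c (l 30) (l 16685168))) (a (l 16685856) (c (l 16679096) (l 16673016)))) (c (l 30) (a (l 16688032) (c (l 16681072) (l 16674872))))) (c (l 30) (a (c (l 16694808) (l 16688272)) (c (b (l 16683176) (l 30)) (b (l 16676848)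 (l 16678944)))))))), by decide +kernel⟩

def k24_pm_102 : ∃ t, chk3 f_pm_102 t 127 52 1 = true :=
  ⟨(c (c (l 30) (c (l 30) (c (l 30) (b (b (b (a (l 16678208) (a (l 16671472) (l 16666992))) (l 30)) (l 30)) (l 30))))) (b (b (c (a (c (a (l 16676720) (l 16672216)) (l 16668960)) (c (a (l 16667728) (c (l 16664592) (l 16661888))) (c (l 16661416) (l 16658696)))) (a (l 16660688) (c (l 16654624) (l 16649200)))) (c (a (c (a (l 16678296) (l 16673672)) (a (l 16672656) (l 16668080))) (c (a (c (l 16670440) (l 16667664)) (b (l 16664136) (l 16664760))) (a (l 16663504) (l 16658936)))) (a (c (l 16664744) (l 16659120)) (c (l 16655688) (l 16650160))))) (c (a (c (b (a (l 16679984) (c (l 30) (l 16673800))) (l 30)) (b (a (l 16674232) (l 16669528)) (a (l 16675912) (l 16671080)))) (c (b (b (a (l 16670112) (a (l 16666584) (l 16664232))) (l 30)) (l 30)) (b (a (l 16664824) (c (l 16661536) (l 16658736))) (a (c (l 16667688) (l 16664808)) (b (l 16661096) (l 16661776)))))) (a (a (b (l 16665600)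 (l 16667104)) (b (l 16660960) (l 16667592))) (c (b (c (l 16658256) (l 16655440)) (a (l 16660488) (l 16655720))) (b (l 16651216) (l 16652368))))))), by decide +kernel⟩

def k25_pm_102 : ∃ t, chk3 f_pm_102 t 127 53 1 = true :=
  ⟨(c (c (c (a (b (b (l 30) (l 16768448)) (b (l 16804360) (l 16818832))) (b (l 30) (b (a (l 16791440) (l 30)) (l 16802072)))) (a (b (l 30) (b (l 30) (l 16763624))) (l 30))) (l 30)) (b (b (c (b (b (c (l 30) (a (l 16674560) (c (l 30) (l 16663288)))) (l 30)) (l 30)) (a (c (a (l 16671720) (l 16666808)) (l 16663304)) (c (a (l 16661904) (c (l 16658472) (l 16655560))) (c (l 16655080) (l 16652160))))) (c (l 30) (a (c (a (l 16673504) (l 16668464)) (l 16664904)) (c (a (c (l 16664928) (l 16661936)) (b (l 16658048) (l 16658776))) (a (l 16657448) (l 16652488)))))) (c (l 30) (a (c (b (a (l 16675400) (l 16670224)) (l 30)) (b (a (l 16669176) (l 16664064)) (a (l 16671064) (l 16665824)))) (c (b (b (a (l 16664640) (a (l 16660800) (l 16658240))) (l 30)) (l 30))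 (b (a (l 16658968) (c (l 16655392) (l 16652376))) (a (c (l 16662144) (l 16659048)) (a (l 16656680) (l 16659312))))))))), by decide +kernel⟩

def k26_pm_102 : ∃ t, chk3 f_pm_102 t 62 27 1 = true :=
  ⟨(b (c (a (b (c (l 16896808) (l 16842040)) (l 16849928)) (b (c (l 16851952) (a (l 16821352) (l 16785504))) (c (l 16896264) (a (l 16845856) (l 16831920))))) (a (b (c (l 16745400) (l 16735344)) (l 16727784)) (a (b (l 16713736) (l 16719648)) (b (c (l 30) (l 16707704)) (c (l 16710736) (l 30)))))) (c (a (b (l 16913024) (l 16932936)) (b (c (l 16918192) (l 16862504)) (l 16869760))) (a (b (l 16746568) (l 16748296)) (b (a (l 16724064) (c (l 16778232) (l 30))) (a (l 16727040) (c (l 16823280) (l 16726256))))))), by decide +kernel⟩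

def k27_pm_102 : ∃ t, chk3 f_pm_102 t 63 27 1 = true :=
  ⟨(c (b (a (c (b (a (l 16852880) (l 16796440)) (a (l 16877576) (l 16864056))) (b (a (b (l 16762816) (l 16797416)) (c (b (l 16782944) (l 16796896)) (l 30))) (a (b (l 16810640) (l 16823464)) (b (l 16752688) (l 16807960))))) (c (b (b (a (l 16794992) (c (l 16816656) (a (l 16786120) (l 30)))) (a (l 16829752) (c (l 16830768) (l 16796288)))) (a (l 16828656) (a (l 16838176) (l 16809240)))) (c (a (b (b (l 30) (l 16758928)) (b (l 16793976) (l 16807608))) (b (l 30) (b (a (l 16780952) (l 30)) (l 16790672)))) (a (b (l 30) (b (l 30) (l 16754360))) (l 30))))) (a (b (c (l 16894552) (a (l 16841968) (l 16785256))) (c (l 16916704) (a (l 16865344) (l 16851472)))) (c (b (a (l 16874664) (l 16860272)) (l 16891504)) (b (b (a (l 16783936) (c (l 16804416) (a (l 16775920) (l 30)))) (a (l 16817928) (c (l 16817728) (l 16785208)))) (a (l 16815744) (a (l 16825024) (l 16774976))))))) (a (b (b (b (b (c (l 30) (a (l 16694672) (l 16686488)))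 (l 30)) (l 30)) (c (a (c (l 16708864) (l 30)) (l 30)) (l 30))) (c (b (a (c (l 16797904) (l 16705624)) (c (b (l 16774864) (l 16788032)) (l 30))) (a (l 16766272) (b (l 16764920) (l 16798488)))) (b (l 30) (a (l 16703928) (l 30))))) (c (b (l 30) (a (b (b (l 30) (c (l 16749920) (l 30))) (b (c (l 16784168) (l 30)) (c (l 16797040) (l 16745584)))) (b (l 30) (c (b (a (l 16771016) (l 30)) (l 16758920)) (l 30))))) (c (l 30) (c (l 30) (c (l 30) (b (b (b (a (l 16667976) (a (l 16659968) (l 16654632))) (l 30)) (l 30)) (l 30)))))))), by decide +kernel⟩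

def k28_pm_102 : ∃ t, chk3 f_pm_102 t 6 7 1 = true :=
  ⟨(a (l 2) (b (a (l 2) (b (b (l 17059200) (l 2)) (l 2))) (l 2))), by decide +kernel⟩

def k29_pm_102 : ∃ t, chk3 f_pm_102 t 14 14 1 = true :=
  ⟨(a (b (a (b (l 17054656) (l 17072368)) (b (l 17042832) (l 17064168))) (a (l 2) (l 17090160))) (b (a (b (l 17023528) (l 17047288)) (b (l 17001312) (l 17027216))) (a (l 17080416) (b (l 17054016) (l 17079944))))), by decide +kernel⟩

def k30_pm_102 : ∃ t, chk3 f_pm_102 t 30 14 1 = true :=
  ⟨(b (a (a (b (l 16981768) (l 17009848)) (b (l 16925120) (l 16996736))) (b (c (a (l 16992616) (l 16977592)) (a (l 16908976) (b (l 16877992) (l 16896944)))) (c (l 17015328) (a (l 16942728) (l 16902496))))) (a (b (l 17034912) (l 17067208)) (b (a (l 17017992) (l 16921168)) (l 17051256)))), by decide +kernel⟩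

def k31_pm_102 : ∃ t, chk3 f_pm_102 t 31 28 1 = true :=
  ⟨(a (b (c (a (l 16960608) (b (l 16931768) (l 16950608))) (a (b (c (l 16878104) (l 16829128)) (l 16852880)) (a (b (l 16791576) (l 16854816)) (b (a (l 16801848) (l 16752528)) (l 16778312))))) (c (a (l 16993632) (l 16976688)) (a (b (l 16892944) (l 16910968)) (b (c (l 16893472) (l 16822664)) (l 16845864))))) (b (c (a (b (c (l 16937480) (l 16880888)) (l 16929416)) (b (c (l 16913904) (a (l 16860392) (l 16845616))) (c (l 16934864) (l 16854792)))) (a (c (b (a (l 16831736) (l 16774728)) (a (l 16853880) (l 16839648))) (b (a (c (l 16790080) (l 16699400)) (b (l 16695048) (c (l 16779656) (l 30)))) (a (l 16778864) (b (l 16756664) (l 16789536))))) (a (c (b (b (l 16773520) (l 16806792)) (l 16803584)) (b (b (l 30) (c (l 16741368) (l 30))) (b (c (l 16774880) (l 30)) (c (l 16787048) (l 16737256))))) (c (b (a (b (l 16760712) (l 16794352)) (c (l 16794952) (b (l 30) (l 16770248)))) (b (l 16781504) (l 16814488))) (b (l 30) (c (b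 (a (l 16761600) (l 30)) (l 16748712)) (l 30))))))) (c (a (b (l 16948384) (l 16966144)) (b (l 16904768) (l 16944848))) (a (b (c (l 16868064) (a (l 16822112) (l 16764800))) (c (l 16887992) (a (l 16843104) (l 16828504)))) (c (b (a (l 16846968) (l 16831824)) (a (l 16868016) (l 16853672))) (a (b (b (l 16763656) (l 16796264)) (b (l 16807552) (l 16818504))) (b (a (b (l 16750688) (l 16783632)) (c (l 16783616) (b (l 30) (l 16760248)))) (b (l 16770048) (l 16802384))))))))), by decide +kernel⟩

def k32_pm_102 : ∃ t, chk3 f_pm_102 t 31 29 1 = true :=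
  ⟨(a (a (b (c (l 17032392) (l 16927784)) (l 17036848)) (b (c (l 17019224) (b (l 16913552) (l 16944592))) (l 17004728))) (b (c (a (l 17004200) (b (l 16970888) (l 17002400))) (a (b (c (l 16915096) (l 16823392)) (l 16924680)) (c (b (l 16890792) (l 16927432)) (b (a (l 16844664) (b (l 16819040) (l 16840528))) (l 16877440))))) (c (l 17049896) (a (l 16970912) (b (l 16937472) (l 16969368)))))), by decide +kernel⟩

def k33_pm_102 : ∃ t, chk3 f_pm_102 t 7 15 1 = true :=
  ⟨(a (a (l 2) (b (a (l 2) (l 17108936)) (l 2))) (a (b (a (l 17104184) (b (l 17083808) (l 17109648))) (a (l 2) (l 17137064))) (b (a (b (l 17071408) (l 17103656)) (b (a (l 17059976) (l 17051016)) (l 17095312))) (a (l 17138624) (l 17139152))))), by decide +kernel⟩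

theorem s34_pm_102 : ∃ t, chk3 f_pm_102 t 31 14 1 = true := ex3_b k31_pm_102 k32_pm_102

theorem s35_pm_102 : ∃ t, chk3 f_pm_102 t 15 14 1 = true := ex3_a k30_pm_102 s34_pm_102

theorem s36_pm_102 : ∃ t, chk3 f_pm_102 t 7 14 1 = true := ex3_a k29_pm_102 s35_pm_102

theorem s37_pm_102 : ∃ t, chk3 f_pm_102 t 7 7 1 = true := ex3_b s36_pm_102 k33_pm_102

theorem s38_pm_102 : ∃ t, chk3 f_pm_102 t 3 7 1 = true := ex3_a k28_pm_102 s37_pm_102

theorem s39_pm_102 : ∃ t, chk3 f_pm_102 t 31 27 1 = true := ex3_a k26_pm_102 k27_pm_102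

theorem s40_pm_102 : ∃ t, chk3 f_pm_102 t 127 26 1 = true := ex3_b k24_pm_102 k25_pm_102

theorem s41_pm_102 : ∃ t, chk3 f_pm_102 t 63 26 1 = true := ex3_a k23_pm_102 s40_pm_102

theorem s42_pm_102 : ∃ t, chk3 f_pm_102 t 31 26 1 = true := ex3_a k22_pm_102 s41_pm_102

theorem s43_pm_102 : ∃ t, chk3 f_pm_102 t 31 13 1 = true := ex3_b s42_pm_102 s39_pm_102

theorem s44_pm_102 : ∃ t, chk3 f_pm_102 t 15 13 1 = true := ex3_a k21_pm_102 s43_pm_102

theorem s45_pm_102 : ∃ t, chk3 f_pm_102 t 7 13 1 = true := ex3_a k20_pm_102 s44_pm_102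

theorem s46_pm_102 : ∃ t, chk3 f_pm_102 t 63 51 1 = true := ex3_c k18_pm_102 k19_pm_102

theorem s47_pm_102 : ∃ t, chk3 f_pm_102 t 63 50 1 = true := ex3_c k16_pm_102 k17_pm_102

theorem s48_pm_102 : ∃ t, chk3 f_pm_102 t 63 25 1 = true := ex3_b s47_pm_102 s46_pm_102

theorem s49_pm_102 : ∃ t, chk3 f_pm_102 t 31 25 1 = true := ex3_a k15_pm_102 s48_pm_102

theorem s50_pm_102 : ∃ t, chk3 f_pm_102 t 63 24 1 = true := ex3_b k13_pm_102 k14_pm_102

theorem s51_pm_102 : ∃ t, chk3 f_pm_102 t 31 24 1 = true := ex3_a k12_pm_102 s50_pm_102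

theorem s52_pm_102 : ∃ t, chk3 f_pm_102 t 31 12 1 = true := ex3_b s51_pm_102 s49_pm_102

theorem s53_pm_102 : ∃ t, chk3 f_pm_102 t 15 12 1 = true := ex3_a k11_pm_102 s52_pm_102

theorem s54_pm_102 : ∃ t, chk3 f_pm_102 t 7 12 1 = true := ex3_a k10_pm_102 s53_pm_102

theorem s55_pm_102 : ∃ t, chk3 f_pm_102 t 7 6 1 = true := ex3_b s54_pm_102 s45_pm_102

theorem s56_pm_102 : ∃ t, chk3 f_pm_102 t 3 6 1 = true := ex3_a k9_pm_102 s55_pm_102

theorem s57_pm_102 : ∃ t, chk3 f_pm_102 t 3 3 1 = true := ex3_b s56_pm_102 s38_pm_102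

theorem s58_pm_102 : ∃ t, chk3 f_pm_102 t 31 23 1 = true := ex3_a k7_pm_102 k8_pm_102

theorem s59_pm_102 : ∃ t, chk3 f_pm_102 t 31 11 1 = true := ex3_b k6_pm_102 s58_pm_102

theorem s60_pm_102 : ∃ t, chk3 f_pm_102 t 15 11 1 = true := ex3_a k5_pm_102 s59_pm_102

theorem s61_pm_102 : ∃ t, chk3 f_pm_102 t 7 11 1 = true := ex3_a k4_pm_102 s60_pm_102

theorem s62_pm_102 : ∃ t, chk3 f_pm_102 t 3 11 1 = true := ex3_a k3_pm_102 s61_pm_102

theorem s63_pm_102 : ∃ t, chk3 f_pm_102 t 3 5 1 = true := ex3_b k2_pm_102 s62_pm_102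

theorem s64_pm_102 : ∃ t, chk3 f_pm_102 t 3 2 1 = true := ex3_b k1_pm_102 s63_pm_102

theorem s65_pm_102 : ∃ t, chk3 f_pm_102 t 3 1 1 = true := ex3_b s64_pm_102 s57_pm_102

theorem s66_pm_102 : ∃ t, chk3 f_pm_102 t 1 1 1 = true := ex3_a k0_pm_102 s65_pm_102

theorem c_pm_102 : CertF 536870912 536870912 0 536870912 335544320 67108864 true true false .npp 1 0 2
    ndF0q1 ndF0q0 pcF2 cut_pm_102 Ext.none :=
  certF1 (fam := true) (s1 := true) (s2 := false) (a := 1) (b := 0) (c := 2) (cn := .npp) (n1 := ndF0q1) (n2 := ndF0q0) (pc := pcF2) (cut := cut_pm_102) (xt := Ext.none) (P1 := 536870912) (W1 := 536870912) (P2 := 0) (W2 := 536870912) (P3 := 335544320) (W3 := 67108864)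
    rfl (fun _ => rfl) s66_pm_102

noncomputable def cut_pm_112 : Cut := Cut.of [[⟨3, 0, 0, 1449551462⟩], [⟨4, 0, 0, 2845415833⟩]]

noncomputable def f_pm_112 : ℕ → ℕ → ℕ → ℕ → Bool := onCell 536870912 536870912 536870912 536870912 335544320 67108864
    (rowF 0 true true false .dn 1 1 2 (qsf 536870912 536870912 536870912 536870912 2) ndF0q1 ndF0q1 pcF2 cut_pm_112 Ext.none)

def k0_pm_112 : ∃ t, chk3 f_pm_112 t 2 1 1 = true :=
  ⟨(b (a (b (l 6) (b (l 6) (a (l 6) (a (b (l 6) (l 16996992)) (b (l 17007512) (l 17034264)))))) (b (b (l 6) (a (l 6) (b (a (l 6) (l 16996992)) (a (l 17007512) (l 17034264))))) (a (b (a (b (l 6) (l 17011568)) (l 16961016)) (a (l 17059608) (l 17096064))) (b (b (l 17059608) (l 17096064)) (l 17140872))))) (b (a (a (b (a (b (l 6) (a (b (l 6) (l 16981624)) (b (l 16985920) (l 17003368)))) (b (a (l 6) (l 17000208)) (a (l 16993504) (l 17031920)))) (b (a (b (l 16989240) (l 17027072)) (a (l 17046104) (l 17061160))) (a (b (l 17043120) (l 17058256)) (l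 17081216)))) (b (a (b (l 17006392) (l 17055224)) (l 17028544)) (b (a (l 17080568) (l 17100640)) (a (l 17102632) (l 17117216))))) (a (b (a (l 17073928) (l 17116144)) (a (l 17121720) (l 17130112))) (b (l 17137648) (l 17132456)))) (a (b (a (b (a (b (l 17093256) (l 17082896)) (b (l 17099144) (l 17109624))) (a (b (l 17089912) (l 17100688)) (l 17122944))) (b (a (l 17120672) (l 17130160)) (a (l 17137736) (l 17141864)))) (a (a (b (b (l 17113864) (l 17129496)) (b (l 17147240) (l 17166704))) (b (l 17146656) (l 17175480))) (a (b (l 17156560) (l 2)) (l 2)))) (a (b (b (l 17134592) (l 2)) (l 2)) (l 2))))), by decide +kernel⟩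

def k1_pm_112 : ∃ t, chk3 f_pm_112 t 3 1 1 = true :=
  ⟨(b (a (b (b (a (b (a (l 6) (b (a (l 6) (l 16981624)) (a (l 16985920) (l 17003368)))) (a (b (l 6) (l 17000208)) (b (l 16993504) (l 17031920)))) (a (b (a (l 16989240) (l 17027072)) (b (l 17046104) (l 17061160))) (b (a (l 17043120) (l 17058256)) (l 17081216)))) (a (b (a (l 17006392) (l 17055224)) (l 17028544)) (a (b (l 17080568) (l 17100640)) (b (l 17102632) (l 17117216))))) (b (a (b (l 17073928) (l 17116144)) (b (l 17121720) (l 17130112))) (a (l 17137648) (l 17132456)))) (b (a (b (a (b (a (l 17093256) (l 17082896)) (a (l 17099144) (l 17109624))) (b (a (l 17089912) (l 17100688)) (l 17122944))) (a (b (l 17120672) (l 17130160)) (b (l 17137736) (l 17141864)))) (b (b (a (a (l 17113864) (l 17129496)) (a (l 17147240) (l 17166704))) (a (l 17146656) (l 17175480))) (b (a (l 17156560) (l 2)) (l 2)))) (a (a (b (l 17134592) (l 2)) (l 2)) (l 2)))) (a (b (b (c (l 17278936) (l 17317232)) (l 2)) (l 2)) (l 2))), by decide +kernel⟩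

theorem s2_pm_112 : ∃ t, chk3 f_pm_112 t 1 1 1 = true := ex3_a k0_pm_112 k1_pm_112

theorem c_pm_112 : CertF 536870912 536870912 536870912 536870912 335544320 67108864 true true false .dn 1 1 2
    ndF0q1 ndF0q1 pcF2 cut_pm_112 Ext.none :=
  certF0 (fam := true) (s1 := true) (s2 := false) (a := 1) (b := 1) (c := 2) (cn := .dn) (n1 := ndF0q1) (n2 := ndF0q1) (pc := pcF2) (cut := cut_pm_112) (xt := Ext.none) (P1 := 536870912) (W1 := 536870912) (P2 := 536870912) (W2 := 536870912) (P3 := 335544320) (W3 := 67108864)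
    rfl s2_pm_112

noncomputable def cut_pm_113 : Cut := Cut.of [[⟨3, 0, 0, 1449551462⟩], [⟨4, 0, 0, 2845415833⟩], [⟨0, 1, 0, 67108864⟩, ⟨1, 1, 0, 67108864⟩, ⟨2, 2, 0, 16777216⟩]]

noncomputable def f_pm_113 : ℕ → ℕ → ℕ → ℕ → Bool := onCell 536870912 536870912 536870912 536870912 335544320 67108864
    (rowF 0 true true false .nn 1 1 3 (qsf 536870912 536870912 536870912 536870912 3) ndF0q1 ndF0q1 pcF3 cut_pm_113 Ext.none)

def k0_pm_113 : ∃ t, chk3 f_pm_113 t 2 1 1 = true :=
  ⟨(b (b (l 1) (a (l 1) (a (l 1) (b (l 1) (l 17015040))))) (b (a (a (l 1) (b (l 1) (a (l 1) (b (l 1) (l 17070008))))) (a (b (a (l 1) (l 17087472)) (a (b (l 17079912) (l 17093952)) (l 17106488))) (b (a (l 17113504) (l 17131576)) (a (l 17118200) (l 17121800))))) (a (b (a (b (l 1) (a (l 1) (a (l 1) (l 17055792)))) (b (a (l 170759056039) (l 17085600)) (a (b (l 17072584) (l 17085920)) (b (l 17096656) (l 17106040))))) (a (a (b (a (l 1) (b (l 1) (l 17059624))) (a (b (l 17056568) (l 17076624)) (b (l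 17077952) (l 17074584)))) (c (b (l 17111224) (b (l 17132256) (l 17145088))) (b (b (l 17037912) (l 17054792)) (b (a (l 17062672) (l 17078104)) (a (l 17078912) (l 17091864)))))) (b (a (b (l 17098512) (c (l 17137096) (l 17083344))) (b (l 17114800) (c (l 17144984) (l 17099896)))) (c (a (l 17151000) (l 17173608)) (a (b (a (l 17090096) (l 17098976)) (a (l 17101416) (l 17107928))) (b (a (l 17105016) (l 17108512)) (a (l 17111696) (l 17113016)))))))) (b (b (a (a (l 17104872) (l 17115864)) (l 17116632)) (a (a (b (l 17111680) (l 17116896)) (l 17140152)) (a (l 17115432) (l 17103712)))) (a (a (b (b (l 17121784) (l 17125408)) (a (b (l 17128624) (l 17130424)) (a (l 17127360) (l 17125184)))) (b (l 17120720) (b (l 17118912) (l 17116176)))) (b (a (l 17109784) (l 17091728)) (a (l 17100184) (l 17076640)))))))), by decide +kernel⟩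

def k1_pm_113 : ∃ t, chk3 f_pm_113 t 3 2 1 = true :=
  ⟨(a (b (b (l 1) (a (l 1) (b (l 1) (a (l 1) (l 17070008))))) (b (a (b (l 1) (l 17087472)) (b (a (l 17079912) (l 17093952)) (l 17106488))) (a (b (l 17113504) (l 17131576)) (b (l 17118200) (l 17121800))))) (b (a (b (a (l 1) (b (l 1) (b (l 1) (l 17055792)))) (a (b (l 63384873639) (l 17085600)) (b (a (l 17072584) (l 17085920)) (a (l 17096656) (l 17106040))))) (b (b (a (b (l 1) (a (l 1) (l 17059624))) (a (b (l 17056568) (l 17077952)) (b (l 17076624) (l 17074584)))) (c (a (l 17111224) (a (l 17132256) (l 17145088))) (a (a (l 17037912) (l 17054792)) (a (b (l 17062672) (l 17078104)) (b (l 17078912) (l 17091864)))))) (a (b (a (l 17098512) (c (l 17137096) (l 17083344))) (a (l 17114800) (c (l 17144984) (l 17099896)))) (c (b (l 17151000) (l 17173608)) (b (a (b (l 17090096) (l 17098976)) (b (l 17101416) (l 17107928))) (a (b (l 17105016) (l 17108512)) (b (l 17111696) (l 17113016)))))))) (a (a (b (b (l 17104872) (l 17115864))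 (l 17116632)) (b (b (a (l 17111680) (l 17116896)) (l 17140152)) (b (l 17115432) (l 17103712)))) (b (b (a (a (l 17121784) (l 17125408)) (a (c (l 17145560) (l 17109872)) (a (l 17128424) (l 17117984)))) (a (l 17120720) (a (l 17118912) (l 17116176)))) (a (b (l 17109784) (l 17091728)) (b (l 17100184) (l 17076640))))))), by decide +kernel⟩

def k2_pm_113 : ∃ t, chk3 f_pm_113 t 3 3 1 = true :=
  ⟨(a (b (a (b (l 17143200) (l 17113152)) (b (l 17113152) (l 17078616))) (b (a (b (l 17091208) (l 17073632)) (l 17031032)) (a (b (a (l 17067376) (l 17037872)) (a (l 17048160) (l 17015696))) (b (b (l 16994824) (l 17021440)) (a (l 16980080) (l 17026768)))))) (b (a (b (a (l 17091208) (l 17073632)) (l 17031032)) (b (a (b (l 17067376) (l 17037872)) (b (l 17048160) (l 17015696))) (a (a (l 16994824) (l 17021440)) (b (l 16980080) (l 17026768))))) (a (b (l 16970928) (b (a (l 16945264) (l 16913184)) (b (a (l 16924256) (a (l 16945280) (l 14))) (a (l 16900672) (l 14))))) (b (a (b (l 16945264)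 (l 16913184)) (a (b (l 16924256) (b (l 16945280) (l 14))) (b (l 16900672) (l 14)))) (b (a (l 16875856) (l 14)) (l 14)))))), by decide +kernel⟩

theorem s3_pm_113 : ∃ t, chk3 f_pm_113 t 3 1 1 = true := ex3_b k1_pm_113 k2_pm_113

theorem s4_pm_113 : ∃ t, chk3 f_pm_113 t 1 1 1 = true := ex3_a k0_pm_113 s3_pm_113

theorem c_pm_113 : CertF 536870912 536870912 536870912 536870912 335544320 67108864 true true false .nn 1 1 3
    ndF0q1 ndF0q1 pcF3 cut_pm_113 Ext.none :=
  certF0 (fam := true) (s1 := true) (s2 := false) (a := 1) (b := 1) (c := 3) (cn := .nn) (n1 := ndF0q1) (n2 := ndF0q1) (pc := pcF3) (cut := cut_pm_113) (xt := Ext.none) (P1 := 536870912) (W1 := 536870912) (P2 := 536870912) (W2 := 536870912) (P3 := 335544320) (W3 := 67108864)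
    rfl s4_pm_113

noncomputable def cut_pm_123 : Cut := Cut.of [[⟨3, 0, 0, 1449551462⟩], [⟨4, 0, 0, 2845415833⟩], [⟨0, 1, 0, 67108864⟩, ⟨1, 1, 0, 67108864⟩, ⟨2, 2, 0, 16777216⟩]]

noncomputable def f_pm_123 : ℕ → ℕ → ℕ → ℕ → Bool := onCell 536870912 536870912 0 536870912 335544320 67108864
    (rowF 0 true true false .npn 1 2 3 (qsf 536870912 536870912 0 536870912 3) ndF0q1 ndF0q2 pcF3 cut_pm_123 Ext.none)

def k0_pm_123 : ∃ t, chk3 f_pm_123 t 2 2 1 = true :=
  ⟨(a (b (a (b (l 14) (a (b (l 14) (l 16865768)) (l 14))) (l 14)) (a (b (a (l 16892104) (a (l 16885776) (l 16880368))) (a (b (l 16918008) (l 16935768)) (b (l 16912104) (l 16931640)))) (b (a (b (l 14) (l 16880848)) (l 14)) (a (b (l 16901576) (l 16922624)) (b (l 16887432) (a (l 16913192) (l 16905784))))))) (a (b (l 14) (b (l 14) (a (b (l 14) (a (l 16897504) (l 14))) (l 14)))) (l 14))), by decide +kernel⟩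

def k1_pm_123 : ∃ t, chk3 f_pm_123 t 2 3 1 = true :=
  ⟨(b (a (a (b (a (l 16967832) (b (l 16953464) (l 16977360))) (a (l 17013392) (l 17014264))) (b (a (b (a (l 16947464) (l 16942168)) (l 16969640)) (b (a (l 16935952) (b (l 16922904) (l 16934728))) (a (l 16960808) (l 16953720)))) (a (l 17008048) (b (l 16983176) (l 17010000))))) (a (b (a (b (a (l 16920952) (l 16912096)) (a (l 16945736) (b (l 16930464) (l 16943320)))) (b (a (l 16902392) (l 14)) (b (a (l 16920872) (l 16910552)) (l 16907528)))) (b (a (l 16967440) (l 16948176)) (a (l 16994536) (l 16975344)))) (b (a (b (l 14) (a (b (l 14) (l 16912216)) (l 14))) (l 14)) (a (b (a (l 16931768) (l 16920048)) (l 16952984)) (b (b (l 14) (l 16908040)) (l 16928200)))))) (a (b (a (a (l 17060976) (l 17066496)) (a (l 17063064) (l 17053120))) (a (b (a (l 17084408) (l 17098296)) (a (a (l 17084720) (a (l 17096392) (l 17102784))) (b (l 17110544) (a (l 17113744) (l 17121864))))) (b (a (l 17100872) (l 17095064)) (a (b (l 17117480) (c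 (l 17152096) (l 17104864))) (a (l 17101904) (l 17120160)))))) (b (a (b (a (l 17023120) (l 17004008)) (a (l 17053176) (l 17034224))) (a (b (l 16981504) (l 17011552)) (l 16971216))) (a (a (b (l 17082840) (a (l 17115696) (l 17109600))) (b (l 17065256) (l 17097520))) (b (a (l 17043056) (l 17017336)) (a (l 17076448) (l 17050720))))))), by decide +kernel⟩

def k2_pm_123 : ∃ t, chk3 f_pm_123 t 3 1 1 = true :=
  ⟨(b (l 14) (a (b (a (b (l 14) (a (b (l 14) (l 16901664)) (l 14))) (l 14)) (a (b (a (b (l 16929248) (l 16958392)) (b (l 16900672) (l 16929152))) (a (b (l 16989048) (l 17021448)) (b (l 16958912) (l 16989560)))) (b (b (l 14) (a (l 16898704) (l 14))) (b (a (b (l 16920320) (l 16934936)) (l 14)) (a (l 16955904) (l 16921680)))))) (b (l 14) (a (l 14) (l 14))))), by decide +kernel⟩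

theorem s3_pm_123 : ∃ t, chk3 f_pm_123 t 2 1 1 = true := ex3_b k0_pm_123 k1_pm_123

theorem s4_pm_123 : ∃ t, chk3 f_pm_123 t 1 1 1 = true := ex3_a s3_pm_123 k2_pm_123

theorem c_pm_123 : CertF 536870912 536870912 0 536870912 335544320 67108864 true true false .npn 1 2 3
    ndF0q1 ndF0q2 pcF3 cut_pm_123 Ext.none :=
  certF0 (fam := true) (s1 := true) (s2 := false) (a := 1) (b := 2) (c := 3) (cn := .npn) (n1 := ndF0q1) (n2 := ndF0q2) (pc := pcF3) (cut := cut_pm_123) (xt := Ext.none) (P1 := 536870912) (W1 := 536870912) (P2 := 0) (W2 := 536870912) (P3 := 335544320) (W3 := 67108864)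
    rfl s4_pm_123

noncomputable def cut_pm_202 : Cut := Cut.of [[⟨3, 0, 0, 1449551462⟩], [⟨4, 0, 0, 2845415833⟩], [⟨0, 1, 0, 67108864⟩, ⟨1, 0, 0, 67108864⟩, ⟨2, 1, 0, 67108864⟩], [⟨0, 1, 0, 33554432⟩, ⟨1, 0, 1, 33554432⟩, ⟨2, 1, 1, 33554432⟩]]

noncomputable def f_pm_202 : ℕ → ℕ → ℕ → ℕ → Bool := onCell 0 536870912 1073741824 536870912 335544320 67108864
    (rowF 1 true true false .pp 2 0 2 (qsf 0 536870912 0 536870912 2) ndF0q2 ndF0q0 pcF2 cut_pm_202 Ext.none)

def k0_pm_202 : ∃ t, chk3 f_pm_202 t 2 2 1 = true :=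
  ⟨(b (a (l 1) (b (l 1) (b (l 1) (a (l 1) (b (l 1) (a (l 1) (l 16575184))))))) (a (b (a (b (b (l 1) (l 16509208)) (b (l 16490776) (l 16542200))) (b (b (l 1) (l 16544056)) (a (l 16468064) (l 16486456)))) (a (b (a (l 16542488) (l 16551744)) (l 16608472)) (b (a (l 16555704) (l 16544960)) (a (l 16623808) (l 16611400))))) (b (a (b (b (a (l 16520904) (l 16532464)) (l 16546896)) (l 16529688)) (b (b (a (l 16544920) (l 16558056)) (l 16574368)) (a (l 16492056) (l 16529200)))) (a (b (a (l 16537208) (l 16531304)) (l 16589424)) (b (b (l 16517328) (l 16534744)) (l 16648376)))))), by decide +kernel⟩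

def k1_pm_202 : ∃ t, chk3 f_pm_202 t 2 3 1 = true :=
  ⟨(b (a (b (a (b (l 16668824) (l 16727840)) (b (a (l 16691440) (l 16685048)) (a (l 16757792) (l 16763016)))) (a (b (l 16784656) (l 16838200)) (b (a (l 16819392) (l 16836920)) (a (l 16878272) (l 16906400))))) (b (b (a (l 16652136) (a (l 16620976) (l 16601520))) (a (l 16740736) (a (l 16675512) (l 16646672)))) (a (b (l 16855920) (a (l 16918584) (l 16849784))) (b (l 16714632) (l 16776816))))) (a (b (a (b (l 16888256) (l 16936240)) (b (a (l 16934728) (l 16971040)) (a (l 16990048) (l 17031608)))) (a (b (l 16982880) (l 17007904)) (b (a (l 17041864) (l 17088736)) (a (l 17071472) (l 17120304))))) (b (a (b (a (a (l 16991488) (l 16977360)) (l 16936376)) (a (a (l 17064704) (b (l 17052696) (l 17097656))) (b (l 17013184) (l 17070528)))) (b (l 16892312) (a (l 16991224) (l 16950472)))) (a (b (a (b (l 17103576) (l 17151856)) (a (b (l 17137152) (c (l 17193448) (l 17153752))) (l 17137144))) (a (a (l 17159664) (l 17187296)) (a (b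 (c (l 17215712) (l 17194728)) (l 17198664)) (b (l 17197008) (c (l 17233488) (a (l 17223736) (l 17214560))))))) (a (b (l 17105064) (b (l 17167616) (l 17199504))) (b (l 17068152) (l 17151992))))))), by decide +kernel⟩

def k2_pm_202 : ∃ t, chk3 f_pm_202 t 3 2 1 = true :=
  ⟨(b (a (b (l 1) (a (b (l 1) (b (a (a (l 1) (l 16605408)) (a (l 16611528) (l 16617976))) (a (a (l 16584480) (l 16590856)) (l 16600928)))) (b (a (a (b (l 1) (b (l 1) (l 16633952))) (l 6)) (l 6)) (a (b (a (b (l 16627824) (l 16621472)) (l 16631568)) (l 16615272)) (b (a (l 16638368) (l 6)) (a (l 16626088) (l 16631216))))))) (l 6)) (a (b (a (b (a (b (l 16571648) (l 16554216)) (b (l 16585944) (l 16569744))) (a (l 16567224) (l 16584952))) (b (b (a (l 16601368) (l 16636896)) (a (l 16586432) (b (l 16605960) (b (l 16600800) (l 16617752))))) (b (a (l 16570344) (l 16588136)) (a (l 16553000) (l 16593560))))) (a (b (l 16573496) (a (l 16547944) (l 16537504))) (b (a (l 16545368) (l 16609864)) (c (l 16572400) (l 16580280)))))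 (b (a (b (b (a (l 16618584) (l 6)) (a (b (l 16608336) (l 16663760)) (b (l 6) (l 16638784)))) (a (l 16625008) (l 16617024))) (a (b (l 6) (b (l 6) (l 16645304))) (l 6))) (a (b (a (l 16571184) (l 16605216)) (a (l 16565048) (l 16597584))) (a (b (a (l 16608472) (l 16624760)) (a (l 16601872) (c (l 16603072) (l 16593344)))) (a (b (c (l 16645320) (l 16616056)) (b (l 16616280) (l 16647096))) (b (b (l 6) (a (l 16631136) (c (a (l 16642440) (l 16646808)) (l 16634432)))) (a (c (b (l 16634728) (l 16635408)) (l 16623208)) (a (b (l 16656824) (c (l 16642632) (l 16629848))) (c (b (c (l 16648952) (l 16643144)) (a (l 16656776) (c (b (l 16651336) (c (l 16654640) (l 16651240))) (b (l 16644944) (l 16646144))))) (b (l 16634432) (c (b (l 16637400) (l 16638144)) (l 16641592))))))))))))), by decide +kernel⟩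

def k3_pm_202 : ∃ t, chk3 f_pm_202 t 6 6 1 = true :=
  ⟨(b (a (b (a (l 16582536) (l 16563384)) (a (l 16617776) (l 16587896))) (b (a (l 16585232) (l 16585656)) (a (l 16556976) (l 16567040)))) (a (b (a (l 16653824) (l 16611856)) (a (l 16698760) (l 16644360))) (a (b (l 16567752) (l 16596016)) (b (b (l 16522632) (l 16523040)) (a (l 16575352) (l 16539680)))))), by decide +kernel⟩

def k4_pm_202 : ∃ t, chk3 f_pm_202 t 14 12 1 = true :=
  ⟨(b (a (b (l 16541104) (l 16562152)) (b (l 16574104) (l 16574480))) (a (b (l 16557440) (l 16547616)) (b (l 16570776) (l 16562816)))), by decide +kernel⟩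

def k5_pm_202 : ∃ t, chk3 f_pm_202 t 30 12 1 = true :=
  ⟨(b (b (a (l 16579792) (l 16598072)) (a (l 16581392) (l 16621816))) (b (a (l 16580048) (l 16643120)) (a (l 16575344) (c (l 16606496) (l 16591000))))), by decide +kernel⟩

def k6_pm_202 : ∃ t, chk3 f_pm_202 t 31 24 1 = true :=
  ⟨(a (b (c (l 16623496) (l 16610520)) (c (a (l 16623152) (l 16633800)) (l 16613648))) (b (a (c (l 16638592) (l 16624624)) (c (a (l 16646344) (c (a (l 16653968) (b (c (l 16657056) (l 16653432)) (c (l 16665472) (l 16656360)))) (a (l 16646576) (b (l 16648000) (l 16650560))))) (a (l 16631832) (a (l 16635480) (c (b (l 16640744) (l 16642816)) (l 16634168)))))) (c (a (b (l 16642848) (l 16646656)) (a (b (l 16651048) (c (l 16659504) (l 16650928))) (a (b (l 16655208) (c (l 16663904) (l 16655168))) (c (b (c (a (l 16663488) (l 16670176)) (l 16660080)) (b (c (l 16667768) (l 16663424)) (c (l 16670424) (l 16665920)))) (b (l 16653880) (c (l 16660240) (l 16655816))))))) (a (l 16649720) (c (a (l 16640696)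 (b (l 16644288) (l 16647808))) (b (l 16633552) (l 16636408))))))), by decide +kernel⟩

def k7_pm_202 : ∃ t, chk3 f_pm_202 t 31 25 1 = true :=
  ⟨(a (b (c (a (l 16625624) (l 16637264)) (l 16636088)) (c (a (l 16625224) (l 16638136)) (a (l 16608344) (l 16620256)))) (b (a (c (b (l 16669976) (l 16670648)) (b (l 16631648) (l 16631704))) (c (a (b (c (l 16662456) (l 16653416)) (c (l 16663720) (l 16654352))) (b (c (a (l 16677568) (b (c (a (l 16671392) (l 16672936)) (l 16667544)) (c (c (l 16679344) (l 16671744)) (l 16668216)))) (a (l 16657872) (b (l 16660616) (l 16671640)))) (a (c (c (l 16670944) (l 16666160)) (l 16658992)) (c (c (b (c (l 30) (l 16677808)) (l 30)) (b (c (l 16670168) (l 16667768)) (c (l 16676264) (l 16668584)))) (c (b (l 16664168) (l 16664920)) (b (l 16659376) (l 16660032))))))) (a (b (l 16639896) (l 16640312)) (b (c (a (l 16648672) (l 16651536)) (l 16640848)) (c (c (l 16663824) (l 16648536)) (l 16641328)))))) (a (a (c (l 16668904) (l 16629280)) (c (b (l 16653880)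 (l 16655296)) (l 16656336))) (c (b (b (c (a (l 16664864) (c (l 30) (a (l 16667400) (c (l 30) (l 16669480))))) (a (l 16655232) (c (a (l 16662488) (l 16670992)) (l 16659176)))) (c (a (l 16665720) (l 30)) (a (l 16655920) (a (l 16660840) (c (c (l 16667936) (l 16665408)) (l 16661608)))))) (c (l 30) (a (l 16657120) (c (a (l 16664776) (b (c (l 30) (l 16666392)) (l 30))) (a (l 16659640) (b (l 16667768) (c (l 16664848) (l 16662216)))))))) (a (b (l 16641024) (l 16663024)) (c (a (b (l 16650528) (l 16651944)) (b (b (l 16653312) (l 16654008)) (c (b (l 16657360) (l 16658280)) (l 16657848)))) (b (l 16652600) (c (l 16645824) (l 16640656))))))))), by decide +kernel⟩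

def k8_pm_202 : ∃ t, chk3 f_pm_202 t 14 13 1 = true :=
  ⟨(b (a (a (b (l 16512408) (l 16507184)) (b (l 16498944) (l 16489024))) (b (l 16576616) (a (l 16514776) (l 16541416)))) (a (a (b (l 16508480) (l 16578800)) (b (l 16507592) (l 16678936))) (b (a (l 16528032) (l 16552752)) (a (l 16593088) (l 16638088))))), by decide +kernel⟩

def k9_pm_202 : ∃ t, chk3 f_pm_202 t 30 13 1 = true :=
  ⟨(b (b (a (l 16592520) (c (l 16605448) (l 16589184))) (a (l 16589600) (c (l 16622984) (l 16588200)))) (a (b (c (l 16659976) (l 16558776)) (c (l 16718976) (l 16570008))) (b (c (l 16689384) (l 16588096)) (c (l 16726568) (l 16603072))))), by decide +kernel⟩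

def k10_pm_202 : ∃ t, chk3 f_pm_202 t 31 26 1 = true :=
  ⟨(a (b (c (a (l 16625992) (l 16650536)) (a (l 16608120) (l 16621040))) (c (a (l 16648120) (b (l 30) (l 16682984))) (a (l 16608864) (l 16622976)))) (a (b (c (c (l 30) (b (l 16648504) (l 16650248))) (b (l 16633592) (l 16634848))) (c (c (b (l 30) (l 16739152)) (l 30)) (b (l 16657408) (l 16659336)))) (c (c (c (c (b (l 30) (b (l 30) (a (l 16780824) (l 16790064)))) (l 30)) (l 30)) (c (l 30) (b (b (a (l 16656416) (a (l 16661688) (b (c (l 30) (l 16663296)) (l 30)))) (l 30)) (l 30)))) (b (a (c (b (l 16648616) (l 16650504)) (b (l 16638224) (l 16639752))) (a (c (b (l 16653712) (l 16666328)) (b (l 16643080) (l 16644832))) (c (b (c (b (l 16659288) (c (l 16661744) (l 16659024))) (b (l 16653936) (l 16654944))) (c (b (c (l 30) (l 16660192)) (l 30)) (b (l 16656040) (c (l 16658640) (l 16655816))))) (b (c (l 16659520) (l 16643640)) (c (b (l 16650496) (l 16651592)) (l 16645448)))))) (a (c (b (l 16652752) (l 30)) (b (l 16641640)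 (l 16643888))) (a (c (b (c (l 30) (l 16655496)) (l 30)) (b (l 16646952) (l 16659944))) (c (b (c (l 30) (b (c (l 30) (l 16657080)) (l 30))) (l 30)) (b (c (b (l 16652776) (c (l 16655528) (l 16652608))) (b (l 16647040) (l 16648224))) (c (b (c (l 30) (l 16653968)) (l 30)) (b (l 16649512) (c (l 16652408) (l 16649384)))))))))))), by decide +kernel⟩

def k11_pm_202 : ∃ t, chk3 f_pm_202 t 31 27 1 = true :=
  ⟨(a (b (c (a (l 16713608) (b (l 16715360) (l 16745688))) (a (l 16610696) (l 16647136))) (c (a (l 16771008) (b (l 16774096) (l 16800696))) (a (l 16609192) (b (l 30) (l 16664368))))) (a (b (c (b (c (l 16770048) (l 30)) (c (l 16798968) (l 16728128))) (c (l 30) (a (l 16632352) (l 16640136)))) (c (b (c (l 16826040) (l 16757240)) (c (l 16851376) (l 16784536))) (b (l 30) (c (l 16717672) (l 30))))) (c (c (b (b (a (l 16783672) (a (l 16748704) (b (l 16766976) (l 16802648)))) (a (l 16812344) (l 16779552))) (b (l 16843656) (l 16868696))) (c (b (b (l 30) (b (l 30) (l 16772064)))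 (b (a (l 16788344) (l 16797856)) (l 16819568))) (b (l 30) (b (b (l 30) (l 16766392)) (a (l 16781984) (l 16791664)))))) (c (c (b (l 30) (b (l 30) (b (l 30) (l 16750384)))) (l 30)) (c (l 30) (b (b (a (l 16643552) (a (l 16649304) (b (c (l 30) (l 16650848)) (l 30)))) (l 30)) (l 30))))))), by decide +kernel⟩

def k12_pm_202 : ∃ t, chk3 f_pm_202 t 6 7 1 = true :=
  ⟨(b (a (b (a (l 16784696) (l 16753720)) (a (l 16915160) (l 16883856))) (b (a (l 16723360) (b (l 16664792) (l 16719152))) (a (l 16855032) (b (l 16787064) (l 16866216))))) (a (b (l 17023288) (l 17155512)) (b (a (l 16986832) (l 16966688)) (a (l 17083808) (l 17068576))))), by decide +kernel⟩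

def k13_pm_202 : ∃ t, chk3 f_pm_202 t 14 14 1 = true :=
  ⟨(b (a (a (b (l 16640520) (l 16694784)) (b (a (l 16650104) (l 16634504)) (a (l 16682312) (l 16684624)))) (b (a (l 16650048) (l 16673552)) (a (l 16699928) (l 16723032)))) (a (b (a (l 16765192) (a (l 16754184) (l 16754000))) (a (l 16848472) (a (l 16839832) (l 16838008)))) (b (b (a (l 16745944) (l 16768736)) (l 16801272)) (a (l 16851344) (l 16872656))))), by decide +kernel⟩

def k14_pm_202 : ∃ t, chk3 f_pm_202 t 15 14 1 = true :=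
  ⟨(b (a (b (a (c (l 16770648) (l 16629904)) (c (l 16798528) (l 16693472))) (a (c (l 16815880) (l 16682600)) (c (l 16843160) (b (l 16701568) (l 16725960))))) (a (b (c (b (l 16817432) (l 16840880)) (a (l 16688280) (b (l 16693104) (l 16720096)))) (a (c (l 16865448) (l 16697560)) (c (l 16881184) (b (l 16745456) (l 16769272))))) (b (b (a (c (l 16842608) (c (l 16745128) (l 30))) (c (c (l 16892128) (l 16828464)) (c (a (l 16759792) (b (a (l 16760672) (l 16723800)) (l 16755320))) (l 30)))) (c (a (l 16865688) (l 16862128)) (a (c (l 16770912) (l 16707720)) (a (c (l 16785336) (b (l 30) (l 16729664))) (b (c (l 16788976) (l 30)) (c (l 16801272) (c (l 16755408) (l 30)))))))) (b (c (a (l 16887304) (l 16904456)) (c (a (l 16795120) (l 16814152)) (a (l 16733648) (a (l 16727816) (b (b (l 16728744) (l 16756000)) (l 16744264)))))) (c (l 16915944) (b (a (l 16782176) (a (l 16796672) (c (l 16835896) (l 16777232)))) (a (l 16793584) (a (l 16807976) (l 16765360))))))))) (a (b (a (b (l 16773376)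 (l 16837400)) (c (l 16902936) (b (l 16761920) (l 16807696)))) (a (l 16895880) (c (l 16972160) (l 16869728)))) (a (b (c (b (l 16912600) (l 16948888)) (b (a (l 16786512) (l 16803808)) (l 16839080))) (c (l 16997304) (l 16898336))) (b (c (a (l 16953792) (l 16969528)) (a (b (l 16779816) (l 16864088)) (b (a (l 16793696) (c (l 16872896) (l 16817280))) (l 16881472)))) (c (l 17024000) (a (l 16920920) (l 16936536))))))), by decide +kernel⟩

def k15_pm_202 : ∃ t, chk3 f_pm_202 t 7 15 1 = true :=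
  ⟨(a (b (a (a (l 16953696) (b (l 16912952) (l 16977000))) (b (l 16932680) (l 16992888))) (a (b (l 17033920) (l 17078560)) (b (l 17043568) (l 17085328)))) (b (a (b (c (l 17019208) (l 16929304)) (l 17029120)) (b (a (l 17008800) (l 16970488)) (a (l 17058704) (l 17079544)))) (a (b (l 17073992) (l 17109816)) (b (l 17107344) (l 17137000))))), by decide +kernel⟩

theorem s16_pm_202 : ∃ t, chk3 f_pm_202 t 7 14 1 = true := ex3_a k13_pm_202 k14_pm_202

theorem s17_pm_202 : ∃ t, chk3 f_pm_202 t 7 7 1 = true := ex3_b s16_pm_202 k15_pm_202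

theorem s18_pm_202 : ∃ t, chk3 f_pm_202 t 3 7 1 = true := ex3_a k12_pm_202 s17_pm_202

theorem s19_pm_202 : ∃ t, chk3 f_pm_202 t 31 13 1 = true := ex3_b k10_pm_202 k11_pm_202

theorem s20_pm_202 : ∃ t, chk3 f_pm_202 t 15 13 1 = true := ex3_a k9_pm_202 s19_pm_202

theorem s21_pm_202 : ∃ t, chk3 f_pm_202 t 7 13 1 = true := ex3_a k8_pm_202 s20_pm_202

theorem s22_pm_202 : ∃ t, chk3 f_pm_202 t 31 12 1 = true := ex3_b k6_pm_202 k7_pm_202

theorem s23_pm_202 : ∃ t, chk3 f_pm_202 t 15 12 1 = true := ex3_a k5_pm_202 s22_pm_202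

theorem s24_pm_202 : ∃ t, chk3 f_pm_202 t 7 12 1 = true := ex3_a k4_pm_202 s23_pm_202

theorem s25_pm_202 : ∃ t, chk3 f_pm_202 t 7 6 1 = true := ex3_b s24_pm_202 s21_pm_202

theorem s26_pm_202 : ∃ t, chk3 f_pm_202 t 3 6 1 = true := ex3_a k3_pm_202 s25_pm_202

theorem s27_pm_202 : ∃ t, chk3 f_pm_202 t 3 3 1 = true := ex3_b s26_pm_202 s18_pm_202

theorem s28_pm_202 : ∃ t, chk3 f_pm_202 t 3 1 1 = true := ex3_b k2_pm_202 s27_pm_202

theorem s29_pm_202 : ∃ t, chk3 f_pm_202 t 2 1 1 = true := ex3_b k0_pm_202 k1_pm_202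

theorem s30_pm_202 : ∃ t, chk3 f_pm_202 t 1 1 1 = true := ex3_a s29_pm_202 s28_pm_202

theorem c_pm_202 : CertF 0 536870912 0 536870912 335544320 67108864 true true false .pp 2 0 2
    ndF0q2 ndF0q0 pcF2 cut_pm_202 Ext.none :=
  certF1 (fam := true) (s1 := true) (s2 := false) (a := 2) (b := 0) (c := 2) (cn := .pp) (n1 := ndF0q2) (n2 := ndF0q0) (pc := pcF2) (cut := cut_pm_202) (xt := Ext.none) (P1 := 0) (W1 := 536870912) (P2 := 0) (W2 := 536870912) (P3 := 335544320) (W3 := 67108864)
    rfl (fun _ => rfl) s30_pm_202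

noncomputable def cut_pm_203 : Cut := Cut.of [[⟨3, 0, 0, 1449551462⟩], [⟨4, 0, 0, 2845415833⟩]]

noncomputable def f_pm_203 : ℕ → ℕ → ℕ → ℕ → Bool := onCell 0 536870912 0 536870912 335544320 67108864
    (rowF 0 true true false .up 2 0 3 (qsf 0 536870912 0 536870912 3) ndF0q2 ndF0q0 pcF3 cut_pm_203 Ext.none)

def k0_pm_203 : ∃ t, chk3 f_pm_203 t 1 1 1 = true :=
  ⟨(a (b (l 1) (b (b (l 1) (a (b (a (l 1) (l 1)) (a (l 16832808) (l 104723457127))) (b (l 1) (a (a (l 16840216) (l 133714451975)) (l 146062552343))))) (a (b (a (b (l 16843768) (l 16847040)) (b (l 16857744) (l 16867336))) (a (b (l 16843904) (l 14)) (b (l 16869584) (l 16865672)))) (b (b (a (l 16866352) (l 16872320)) (a (l 16884712) (l 16900208))) (b (a (l 16894304) (l 16917552)) (a (l 16896328) (l 16926008))))))) (b (l 1) (b (a (l 1) (l 1)) (a (b (a (b (l 153041848327) (l 16921424)) (b (l 176127435127) (l 163779435511))) (a (b (l 16947744) (l 16962592)) (b (l 16979928) (l 17002720)))) (b (a (b (l 1) (a (l 185791252295)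 (l 1))) (l 1)) (a (b (a (l 17005136) (l 162168934359)) (a (l 17034656) (l 17051600))) (b (a (l 175590800135) (l 1)) (a (l 17054832) (b (l 183107060343) (l 17064840)))))))))), by decide +kernel⟩

theorem c_pm_203 : CertF 0 536870912 0 536870912 335544320 67108864 true true false .up 2 0 3
    ndF0q2 ndF0q0 pcF3 cut_pm_203 Ext.none :=
  certF0 (fam := true) (s1 := true) (s2 := false) (a := 2) (b := 0) (c := 3) (cn := .up) (n1 := ndF0q2) (n2 := ndF0q0) (pc := pcF3) (cut := cut_pm_203) (xt := Ext.none) (P1 := 0) (W1 := 536870912) (P2 := 0) (W2 := 536870912) (P3 := 335544320) (W3 := 67108864)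
    rfl k0_pm_203

noncomputable def cut_pm_213 : Cut := Cut.of [[⟨3, 0, 0, 1449551462⟩], [⟨4, 0, 0, 2845415833⟩], [⟨0, 1, 0, 67108864⟩, ⟨1, 1, 0, 67108864⟩, ⟨2, 2, 0, 16777216⟩]]

noncomputable def f_pm_213 : ℕ → ℕ → ℕ → ℕ → Bool := onCell 0 536870912 536870912 536870912 335544320 67108864
    (rowF 0 true true false .pnn 2 1 3 (qsf 0 536870912 536870912 536870912 3) ndF0q2 ndF0q1 pcF3 cut_pm_213 Ext.none)

def k0_pm_213 : ∃ t, chk3 f_pm_213 t 2 1 1 = true :=
  ⟨(b (b (a (b (a (l 14) (b (a (l 14) (l 16865768)) (l 14))) (l 14)) (b (a (b (l 16892104) (b (l 16885776) (l 16880368))) (b (a (l 16918008) (l 16935768)) (a (l 16912104) (l 16931640)))) (a (b (a (l 14) (l 16880848)) (l 14)) (b (a (l 16901576) (l 16922624)) (a (l 16887432) (b (l 16913192) (l 16905784))))))) (b (a (l 14) (a (l 14) (b (a (l 14) (b (l 16897504) (l 14))) (l 14)))) (l 14))) (l 14)), by decide +kernel⟩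

def k1_pm_213 : ∃ t, chk3 f_pm_213 t 3 1 1 = true :=
  ⟨(b (a (b (b (a (b (l 16967832) (a (l 16953464) (l 16977360))) (b (l 17013392) (l 17014264))) (a (b (a (b (l 16947464) (l 16942168)) (l 16969640)) (a (b (l 16935952) (a (l 16922904) (l 16934728))) (b (l 16960808) (l 16953720)))) (b (l 17008048) (a (l 16983176) (l 17010000))))) (b (a (b (a (b (l 16920952) (l 16912096)) (b (l 16945736) (a (l 16930464) (l 16943320)))) (a (b (l 16902392) (l 14)) (a (b (l 16920872) (l 16910552)) (l 16907528)))) (a (b (l 16967440) (l 16948176)) (b (l 16994536) (l 16975344)))) (a (b (a (l 14) (b (a (l 14) (l 16912216)) (l 14))) (l 14)) (b (a (b (l 16931768) (l 16920048)) (l 16952984)) (a (a (l 14) (l 16908040)) (l 16928200)))))) (b (a (b (b (l 17060976) (l 17066496)) (b (l 17063064) (l 17053120))) (b (a (b (l 17084408) (l 17098296)) (b (a (l 17090976) (b (l 17085656) (l 17101920))) (a (l 17110544) (b (l 17113744) (l 17121864))))) (a (b (l 17100872) (l 17095064)) (b (a (l 17117480)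 (c (l 17152096) (l 17104864))) (b (l 17101904) (l 17120160)))))) (b (a (a (b (l 17023120) (l 17004008)) (b (l 17053176) (l 17034224))) (a (b (l 17082840) (l 17065256)) (b (b (l 17115696) (l 17109600)) (l 17097520)))) (a (b (a (l 16981504) (l 17011552)) (l 16971216)) (a (b (l 17043056) (l 17017336)) (b (l 17076448) (l 17050720))))))) (b (a (b (a (l 14) (b (a (l 14) (l 16901664)) (l 14))) (l 14)) (b (a (b (a (l 16929248) (l 16958392)) (a (l 16900672) (l 16929152))) (a (b (l 16989048) (l 16958912)) (b (l 17021448) (l 16989560)))) (a (a (l 14) (b (l 16898704) (l 14))) (a (b (a (l 16920320) (l 16934936)) (l 14)) (b (l 16955904) (l 16921680)))))) (a (l 14) (b (l 14) (l 14))))), by decide +kernel⟩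

theorem s2_pm_213 : ∃ t, chk3 f_pm_213 t 1 1 1 = true := ex3_a k0_pm_213 k1_pm_213

theorem c_pm_213 : CertF 0 536870912 536870912 536870912 335544320 67108864 true true false .pnn 2 1 3
    ndF0q2 ndF0q1 pcF3 cut_pm_213 Ext.none :=
  certF0 (fam := true) (s1 := true) (s2 := false) (a := 2) (b := 1) (c := 3) (cn := .pnn) (n1 := ndF0q2) (n2 := ndF0q1) (pc := pcF3) (cut := cut_pm_213) (xt := Ext.none) (P1 := 0) (W1 := 536870912) (P2 := 536870912) (W2 := 536870912) (P3 := 335544320) (W3 := 67108864)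
    rfl s2_pm_213

noncomputable def cut_mm_001 : Cut := Cut.of [[⟨3, 0, 0, 1449551462⟩], [⟨4, 0, 0, 2845415833⟩]]

noncomputable def f_mm_001 : ℕ → ℕ → ℕ → ℕ → Bool := onCell 0 536870912 0 536870912 335544320 67108864
    (rowF 0 true false false .up 0 0 1 (qsf 0 536870912 0 536870912 1) ndF0q0 ndF0q0 pcF1 cut_mm_001 Ext.none)

def k0_mm_001 : ∃ t, chk3 f_mm_001 t 1 1 1 = true :=
  ⟨(l 4), by decide +kernel⟩

theorem c_mm_001 : CertF 0 536870912 0 536870912 335544320 67108864 true false false .up 0 0 1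
    ndF0q0 ndF0q0 pcF1 cut_mm_001 Ext.none :=
  certF0 (fam := true) (s1 := false) (s2 := false) (a := 0) (b := 0) (c := 1) (cn := .up) (n1 := ndF0q0) (n2 := ndF0q0) (pc := pcF1) (cut := cut_mm_001) (xt := Ext.none) (P1 := 0) (W1 := 536870912) (P2 := 0) (W2 := 536870912) (P3 := 335544320) (W3 := 67108864)
    rfl k0_mm_001

noncomputable def cut_mm_011 : Cut := Cut.of [[⟨3, 0, 0, 1449551462⟩], [⟨4, 0, 0, 2845415833⟩]]

noncomputable def f_mm_011 : ℕ → ℕ → ℕ → ℕ → Bool := onCell 0 536870912 536870912 536870912 335544320 67108864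
    (rowF 0 true false false .pnn 0 1 1 (qsf 0 536870912 536870912 536870912 1) ndF0q0 ndF0q1 pcF1 cut_mm_011 Ext.none)

def k0_mm_011 : ∃ t, chk3 f_mm_011 t 1 1 1 = true :=
  ⟨(l 14), by decide +kernel⟩

theorem c_mm_011 : CertF 0 536870912 536870912 536870912 335544320 67108864 true false false .pnn 0 1 1
    ndF0q0 ndF0q1 pcF1 cut_mm_011 Ext.none :=
  certF0 (fam := true) (s1 := false) (s2 := false) (a := 0) (b := 1) (c := 1) (cn := .pnn) (n1 := ndF0q0) (n2 := ndF0q1) (pc := pcF1) (cut := cut_mm_011) (xt := Ext.none) (P1 := 0) (W1 := 536870912) (P2 := 536870912) (W2 := 536870912) (P3 := 335544320) (W3 := 67108864)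
    rfl k0_mm_011

noncomputable def cut_mm_012 : Cut := Cut.of [[⟨3, 0, 0, 1449551462⟩], [⟨4, 0, 0, 2845415833⟩]]

noncomputable def f_mm_012 : ℕ → ℕ → ℕ → ℕ → Bool := onCell 0 536870912 536870912 536870912 335544320 67108864
    (rowF 0 true false false .pnp 0 1 2 (qsf 0 536870912 536870912 536870912 2) ndF0q0 ndF0q1 pcF2 cut_mm_012 Ext.none)

def k0_mm_012 : ∃ t, chk3 f_mm_012 t 1 1 1 = true :=
  ⟨(l 14), by decide +kernel⟩

theorem c_mm_012 : CertF 0 536870912 536870912 536870912 335544320 67108864 true false false .pnp 0 1 2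
    ndF0q0 ndF0q1 pcF2 cut_mm_012 Ext.none :=
  certF0 (fam := true) (s1 := false) (s2 := false) (a := 0) (b := 1) (c := 2) (cn := .pnp) (n1 := ndF0q0) (n2 := ndF0q1) (pc := pcF2) (cut := cut_mm_012) (xt := Ext.none) (P1 := 0) (W1 := 536870912) (P2 := 536870912) (W2 := 536870912) (P3 := 335544320) (W3 := 67108864)
    rfl k0_mm_012

noncomputable def cut_mm_022 : Cut := Cut.of [[⟨3, 0, 0, 1449551462⟩], [⟨4, 0, 0, 2845415833⟩]]

noncomputable def f_mm_022 : ℕ → ℕ → ℕ → ℕ → Bool := onCell 0 536870912 0 536870912 335544320 67108864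
    (rowF 0 true false false .pp 0 2 2 (qsf 0 536870912 0 536870912 2) ndF0q0 ndF0q2 pcF2 cut_mm_022 Ext.none)

def k0_mm_022 : ∃ t, chk3 f_mm_022 t 1 1 1 = true :=
  ⟨(l 5), by decide +kernel⟩

theorem c_mm_022 : CertF 0 536870912 0 536870912 335544320 67108864 true false false .pp 0 2 2
    ndF0q0 ndF0q2 pcF2 cut_mm_022 Ext.none :=
  certF0 (fam := true) (s1 := false) (s2 := false) (a := 0) (b := 2) (c := 2) (cn := .pp) (n1 := ndF0q0) (n2 := ndF0q2) (pc := pcF2) (cut := cut_mm_022) (xt := Ext.none) (P1 := 0) (W1 := 536870912) (P2 := 0) (W2 := 536870912) (P3 := 335544320) (W3 := 67108864)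
    rfl k0_mm_022

noncomputable def cut_mm_023 : Cut := Cut.of [[⟨3, 0, 0, 1449551462⟩], [⟨4, 0, 0, 2845415833⟩]]

noncomputable def f_mm_023 : ℕ → ℕ → ℕ → ℕ → Bool := onCell 0 536870912 0 536870912 335544320 67108864
    (rowF 0 true false false .up 0 2 3 (qsf 0 536870912 0 536870912 3) ndF0q0 ndF0q2 pcF3 cut_mm_023 Ext.none)

def k0_mm_023 : ∃ t, chk3 f_mm_023 t 1 1 1 = true :=
  ⟨(l 5), by decide +kernel⟩

theorem c_mm_023 : CertF 0 536870912 0 536870912 335544320 67108864 true false false .up 0 2 3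
    ndF0q0 ndF0q2 pcF3 cut_mm_023 Ext.none :=
  certF0 (fam := true) (s1 := false) (s2 := false) (a := 0) (b := 2) (c := 3) (cn := .up) (n1 := ndF0q0) (n2 := ndF0q2) (pc := pcF3) (cut := cut_mm_023) (xt := Ext.none) (P1 := 0) (W1 := 536870912) (P2 := 0) (W2 := 536870912) (P3 := 335544320) (W3 := 67108864)
    rfl k0_mm_023

noncomputable def cut_mm_101 : Cut := Cut.of [[⟨3, 0, 0, 1449551462⟩], [⟨4, 0, 0, 2845415833⟩], [⟨0, 1, 0, 67108864⟩, ⟨1, 0, 0, 67108864⟩, ⟨2, 1, 0, 67108864⟩]]

noncomputable def f_mm_101 : ℕ → ℕ → ℕ → ℕ → Bool := onCell 536870912 536870912 0 536870912 335544320 67108864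
    (rowF 0 true false false .npn 1 0 1 (qsf 536870912 536870912 0 536870912 1) ndF0q1 ndF0q0 pcF1 cut_mm_101 Ext.none)

def k0_mm_101 : ∃ t, chk3 f_mm_101 t 1 1 1 = true :=
  ⟨(l 14), by decide +kernel⟩

theorem c_mm_101 : CertF 536870912 536870912 0 536870912 335544320 67108864 true false false .npn 1 0 1
    ndF0q1 ndF0q0 pcF1 cut_mm_101 Ext.none :=
  certF0 (fam := true) (s1 := false) (s2 := false) (a := 1) (b := 0) (c := 1) (cn := .npn) (n1 := ndF0q1) (n2 := ndF0q0) (pc := pcF1) (cut := cut_mm_101) (xt := Ext.none) (P1 := 536870912) (W1 := 536870912) (P2 := 0) (W2 := 536870912) (P3 := 335544320) (W3 := 67108864)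
    rfl k0_mm_101

noncomputable def cut_mm_102 : Cut := Cut.of [[⟨3, 0, 0, 1449551462⟩], [⟨4, 0, 0, 2845415833⟩], [⟨0, 1, 0, 67108864⟩, ⟨1, 0, 0, 67108864⟩, ⟨2, 1, 0, 67108864⟩]]

noncomputable def f_mm_102 : ℕ → ℕ → ℕ → ℕ → Bool := onCell 536870912 536870912 0 536870912 335544320 67108864
    (rowF 0 true false false .npp 1 0 2 (qsf 536870912 536870912 0 536870912 2) ndF0q1 ndF0q0 pcF2 cut_mm_102 Ext.none)

def k0_mm_102 : ∃ t, chk3 f_mm_102 t 1 1 1 = true :=
  ⟨(l 14), by decide +kernel⟩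

theorem c_mm_102 : CertF 536870912 536870912 0 536870912 335544320 67108864 true false false .npp 1 0 2
    ndF0q1 ndF0q0 pcF2 cut_mm_102 Ext.none :=
  certF0 (fam := true) (s1 := false) (s2 := false) (a := 1) (b := 0) (c := 2) (cn := .npp) (n1 := ndF0q1) (n2 := ndF0q0) (pc := pcF2) (cut := cut_mm_102) (xt := Ext.none) (P1 := 536870912) (W1 := 536870912) (P2 := 0) (W2 := 536870912) (P3 := 335544320) (W3 := 67108864)
    rfl k0_mm_102

noncomputable def cut_mm_112 : Cut := Cut.of [[⟨3, 0, 0, 1449551462⟩], [⟨4, 0, 0, 2845415833⟩]]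

noncomputable def f_mm_112 : ℕ → ℕ → ℕ → ℕ → Bool := onCell 536870912 536870912 536870912 536870912 335544320 67108864
    (rowF 0 true false false .dn 1 1 2 (qsf 536870912 536870912 536870912 536870912 2) ndF0q1 ndF0q1 pcF2 cut_mm_112 Ext.none)

def k0_mm_112 : ∃ t, chk3 f_mm_112 t 1 1 1 = true :=
  ⟨(l 4), by decide +kernel⟩

theorem c_mm_112 : CertF 536870912 536870912 536870912 536870912 335544320 67108864 true false false .dn 1 1 2
    ndF0q1 ndF0q1 pcF2 cut_mm_112 Ext.none :=
  certF0 (fam := true) (s1 := false) (s2 := false) (a := 1) (b := 1) (c := 2) (cn := .dn) (n1 := ndF0q1) (n2 := ndF0q1) (pc := pcF2) (cut := cut_mm_112) (xt := Ext.none) (P1 := 536870912) (W1 := 536870912) (P2 := 536870912) (W2 := 536870912) (P3 := 335544320) (W3 := 67108864)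
    rfl k0_mm_112

noncomputable def cut_mm_113 : Cut := Cut.of [[⟨3, 0, 0, 1449551462⟩], [⟨4, 0, 0, 2845415833⟩]]

noncomputable def f_mm_113 : ℕ → ℕ → ℕ → ℕ → Bool := onCell 536870912 536870912 536870912 536870912 335544320 67108864
    (rowF 0 true false false .nn 1 1 3 (qsf 536870912 536870912 536870912 536870912 3) ndF0q1 ndF0q1 pcF3 cut_mm_113 Ext.none)

def k0_mm_113 : ∃ t, chk3 f_mm_113 t 1 1 1 = true :=
  ⟨(l 4), by decide +kernel⟩

theorem c_mm_113 : CertF 536870912 536870912 536870912 536870912 335544320 67108864 true false false .nn 1 1 3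
    ndF0q1 ndF0q1 pcF3 cut_mm_113 Ext.none :=
  certF0 (fam := true) (s1 := false) (s2 := false) (a := 1) (b := 1) (c := 3) (cn := .nn) (n1 := ndF0q1) (n2 := ndF0q1) (pc := pcF3) (cut := cut_mm_113) (xt := Ext.none) (P1 := 536870912) (W1 := 536870912) (P2 := 536870912) (W2 := 536870912) (P3 := 335544320) (W3 := 67108864)
    rfl k0_mm_113

noncomputable def cut_mm_123 : Cut := Cut.of [[⟨3, 0, 0, 1449551462⟩], [⟨4, 0, 0, 2845415833⟩]]

noncomputable def f_mm_123 : ℕ → ℕ → ℕ → ℕ → Bool := onCell 536870912 536870912 0 536870912 335544320 67108864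
    (rowF 0 true false false .npn 1 2 3 (qsf 536870912 536870912 0 536870912 3) ndF0q1 ndF0q2 pcF3 cut_mm_123 Ext.none)

def k0_mm_123 : ∃ t, chk3 f_mm_123 t 1 1 1 = true :=
  ⟨(a (l 5) (l 4)), by decide +kernel⟩

theorem c_mm_123 : CertF 536870912 536870912 0 536870912 335544320 67108864 true false false .npn 1 2 3
    ndF0q1 ndF0q2 pcF3 cut_mm_123 Ext.none :=
  certF0 (fam := true) (s1 := false) (s2 := false) (a := 1) (b := 2) (c := 3) (cn := .npn) (n1 := ndF0q1) (n2 := ndF0q2) (pc := pcF3) (cut := cut_mm_123) (xt := Ext.none) (P1 := 536870912) (W1 := 536870912) (P2 := 0) (W2 := 536870912) (P3 := 335544320) (W3 := 67108864)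
    rfl k0_mm_123

noncomputable def cut_mm_202 : Cut := Cut.of [[⟨3, 0, 0, 1449551462⟩], [⟨4, 0, 0, 2845415833⟩], [⟨0, 1, 0, 67108864⟩, ⟨1, 0, 0, 67108864⟩, ⟨2, 1, 0, 67108864⟩]]

noncomputable def f_mm_202 : ℕ → ℕ → ℕ → ℕ → Bool := onCell 0 536870912 0 536870912 335544320 67108864
    (rowF 0 true false false .pp 2 0 2 (qsf 0 536870912 0 536870912 2) ndF0q2 ndF0q0 pcF2 cut_mm_202 Ext.none)

def k0_mm_202 : ∃ t, chk3 f_mm_202 t 1 1 1 = true :=
  ⟨(b (a (b (a (b (a (b (l 16494552) (l 16550696)) (b (l 16536064) (b (l 16506208) (l 16532344)))) (a (b (l 16586056) (l 16641520)) (b (l 16613256) (l 16622152)))) (b (a (b (a (l 16503304) (l 16567600)) (l 16557800)) (b (b (a (l 16550544) (l 16573208)) (l 16602456)) (a (l 16543104) (l 16614304)))) (b (a (b (l 16551944) (l 16575688)) (l 16613496)) (a (l 16631496) (l 16677296))))) (a (b (a (b (l 16695208) (l 16746128)) (b (l 16670848) (l 16716224))) (a (b (l 16792864) (l 16834952)) (b (l 16756824) (l 16791696)))) (b (a (b (l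 16654704) (l 16695432)) (b (l 16717528) (a (l 16689808) (l 14)))) (a (b (l 16730912) (l 16812296)) (l 14))))) (b (a (b (a (b (a (b (l 16596376) (l 16598272)) (b (b (l 16618504) (l 16620464)) (l 16623464))) (a (l 16643472) (b (l 16627744) (l 16632400)))) (a (a (b (b (l 16636200) (l 14)) (l 14)) (l 14)) (l 14))) (a (b (a (l 16628304) (l 14)) (l 14)) (l 14))) (l 14)) (l 14))) (a (a (b (b (a (b (l 16874312) (l 16917576)) (b (l 16850920) (a (l 16876136) (l 14)))) (a (b (l 16936184) (l 15133264135)) (l 14))) (l 2)) (l 14)) (l 14))), by decide +kernel⟩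

theorem c_mm_202 : CertF 0 536870912 0 536870912 335544320 67108864 true false false .pp 2 0 2
    ndF0q2 ndF0q0 pcF2 cut_mm_202 Ext.none :=
  certF0 (fam := true) (s1 := false) (s2 := false) (a := 2) (b := 0) (c := 2) (cn := .pp) (n1 := ndF0q2) (n2 := ndF0q0) (pc := pcF2) (cut := cut_mm_202) (xt := Ext.none) (P1 := 0) (W1 := 536870912) (P2 := 0) (W2 := 536870912) (P3 := 335544320) (W3 := 67108864)
    rfl k0_mm_202

noncomputable def cut_mm_203 : Cut := Cut.of [[⟨3, 0, 0, 1449551462⟩], [⟨4, 0, 0, 2845415833⟩]]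

noncomputable def f_mm_203 : ℕ → ℕ → ℕ → ℕ → Bool := onCell 0 536870912 1610612736 536870912 335544320 67108864
    (rowF 1 true false false .up 2 0 3 (qsf 0 536870912 0 536870912 3) ndF0q2 ndF0q0 pcF3 cut_mm_203 Ext.none)

def k0_mm_203 : ∃ t, chk3 f_mm_203 t 1 1 1 = true :=
  ⟨(a (b (b (a (b (a (b (a (l 16825136) (l 14)) (l 14)) (l 14)) (l 14)) (l 14)) (l 14)) (l 2)) (l 14)), by decide +kernel⟩

theorem c_mm_203 : CertF 0 536870912 0 536870912 335544320 67108864 true false false .up 2 0 3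
    ndF0q2 ndF0q0 pcF3 cut_mm_203 Ext.none :=
  certF1 (fam := true) (s1 := false) (s2 := false) (a := 2) (b := 0) (c := 3) (cn := .up) (n1 := ndF0q2) (n2 := ndF0q0) (pc := pcF3) (cut := cut_mm_203) (xt := Ext.none) (P1 := 0) (W1 := 536870912) (P2 := 0) (W2 := 536870912) (P3 := 335544320) (W3 := 67108864)
    rfl (fun _ => rfl) k0_mm_203

noncomputable def cut_mm_213 : Cut := Cut.of [[⟨3, 0, 0, 1449551462⟩], [⟨4, 0, 0, 2845415833⟩]]

noncomputable def f_mm_213 : ℕ → ℕ → ℕ → ℕ → Bool := onCell 0 536870912 536870912 536870912 335544320 67108864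
    (rowF 0 true false false .pnn 2 1 3 (qsf 0 536870912 536870912 536870912 3) ndF0q2 ndF0q1 pcF3 cut_mm_213 Ext.none)

def k0_mm_213 : ∃ t, chk3 f_mm_213 t 1 1 1 = true :=
  ⟨(a (l 14) (l 4)), by decide +kernel⟩

theorem c_mm_213 : CertF 0 536870912 536870912 536870912 335544320 67108864 true false false .pnn 2 1 3
    ndF0q2 ndF0q1 pcF3 cut_mm_213 Ext.none :=
  certF0 (fam := true) (s1 := false) (s2 := false) (a := 2) (b := 1) (c := 3) (cn := .pnn) (n1 := ndF0q2) (n2 := ndF0q1) (pc := pcF3) (cut := cut_mm_213) (xt := Ext.none) (P1 := 0) (W1 := 536870912) (P2 := 536870912) (W2 := 536870912) (P3 := 335544320) (W3 := 67108864)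
    rfl k0_mm_213

end Pool.Agent.Strip051.G.I5_16_3_8.Tab.C.FA00

namespace Pool.Agent.Strip051.G.I5_16_3_8.Tab.C.FA01

open Pool.Agent.Strip051.PB Pool.Agent.Strip051.PB.T
open Pool.Agent.Strip051.G.I5_16_3_8.Tab

noncomputable def f_pp_001 : ℕ → ℕ → ℕ → ℕ → Bool := onCell 0 536870912 0 536870912 335544320 67108864
    (rowF 0 true true true .up 0 0 1 (qsf 0 536870912 0 536870912 1) ndF0q0 ndF1q0 pcF1 Cut.none Ext.none)

def k0_pp_001 : ∃ t, chk3 f_pp_001 t 1 1 1 = true :=
  ⟨(l 4), by decide +kernel⟩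

theorem c_pp_001 : CertF 0 536870912 0 536870912 335544320 67108864 true true true .up 0 0 1
    ndF0q0 ndF1q0 pcF1 Cut.none Ext.none :=
  certF0 (fam := true) (s1 := true) (s2 := true) (a := 0) (b := 0) (c := 1) (cn := .up) (n1 := ndF0q0) (n2 := ndF1q0) (pc := pcF1) (cut := Cut.none) (xt := Ext.none) (P1 := 0) (W1 := 536870912) (P2 := 0) (W2 := 536870912) (P3 := 335544320) (W3 := 67108864)
    rfl k0_pp_001

noncomputable def f_pp_011 : ℕ → ℕ → ℕ → ℕ → Bool := onCell 0 536870912 536870912 536870912 335544320 67108864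
    (rowF 0 true true true .pnn 0 1 1 (qsf 0 536870912 536870912 536870912 1) ndF0q0 ndF1q1 pcF1 Cut.none Ext.none)

def k0_pp_011 : ∃ t, chk3 f_pp_011 t 1 1 1 = true :=
  ⟨(l 4), by decide +kernel⟩

theorem c_pp_011 : CertF 0 536870912 536870912 536870912 335544320 67108864 true true true .pnn 0 1 1
    ndF0q0 ndF1q1 pcF1 Cut.none Ext.none :=
  certF0 (fam := true) (s1 := true) (s2 := true) (a := 0) (b := 1) (c := 1) (cn := .pnn) (n1 := ndF0q0) (n2 := ndF1q1) (pc := pcF1) (cut := Cut.none) (xt := Ext.none) (P1 := 0) (W1 := 536870912) (P2 := 536870912) (W2 := 536870912) (P3 := 335544320) (W3 := 67108864)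
    rfl k0_pp_011

noncomputable def f_pp_012 : ℕ → ℕ → ℕ → ℕ → Bool := onCell 0 536870912 536870912 536870912 335544320 67108864
    (rowF 0 true true true .pnp 0 1 2 (qsf 0 536870912 536870912 536870912 2) ndF0q0 ndF1q1 pcF2 Cut.none Ext.none)

def k0_pp_012 : ∃ t, chk3 f_pp_012 t 1 1 1 = true :=
  ⟨(l 4), by decide +kernel⟩

theorem c_pp_012 : CertF 0 536870912 536870912 536870912 335544320 67108864 true true true .pnp 0 1 2
    ndF0q0 ndF1q1 pcF2 Cut.none Ext.none :=
  certF0 (fam := true) (s1 := true) (s2 := true) (a := 0) (b := 1) (c := 2) (cn := .pnp) (n1 := ndF0q0) (n2 := ndF1q1) (pc := pcF2) (cut := Cut.none) (xt := Ext.none) (P1 := 0) (W1 := 536870912) (P2 := 536870912) (W2 := 536870912) (P3 := 335544320) (W3 := 67108864)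
    rfl k0_pp_012

noncomputable def cut_pp_022_a : Cut := Cut.of [[⟨0, 0, 0, 67108864⟩, ⟨1, 1, 0, 67108864⟩, ⟨2, 1, 0, 67108864⟩]]

noncomputable def f_pp_022_a : ℕ → ℕ → ℕ → ℕ → Bool := onCell 0 536870912 0 536870912 335544320 67108864
    (rowF 0 true true true .pp 0 2 2 (qsf 0 536870912 0 536870912 2) ndF0q0 ndF1q2a pcF2 cut_pp_022_a Ext.none)

def k0_pp_022_a : ∃ t, chk3 f_pp_022_a t 1 1 1 = true :=
  ⟨(a (b (a (a (b (a (b (l 16503760) (l 16537992)) (a (l 16567360) (l 16578240))) (a (b (a (l 16531688) (l 16543160)) (a (l 16578896) (l 16591360))) (b (l 16624968) (a (l 16604728) (l 16619136))))) (b (a (b (l 16543392) (a (l 16558312) (l 16572928))) (c (l 16688184) (l 16669872))) (a (b (l 16654496) (a (l 16656424) (l 16676048))) (b (b (l 16641280) (l 16680024)) (l 4))))) (a (b (a (a (l 16675408) (l 16717480)) (b (l 16691416) (l 4))) (l 4)) (b (a (b (l 16742864) (l 4)) (l 4)) (l 4)))) (a (b (a (a (b (a (b (l 16581888) (l 16600456)) (l 16667104)) (a (b (l 16642080)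 (a (l 16640928) (l 16647272))) (b (l 16655120) (a (l 16653752) (l 16681832))))) (b (b (a (l 16608528) (l 16623696)) (a (l 16627352) (l 16665832))) (a (b (l 16691304) (a (l 16690760) (l 4))) (l 4)))) (b (a (b (a (l 16643176) (l 4)) (l 4)) (l 4)) (l 4))) (a (a (a (b (a (b (b (l 16659712) (l 16673144)) (b (l 16687304) (l 6))) (b (l 16704160) (b (l 16714544) (a (l 6) (l 16731744))))) (l 6)) (b (b (b (a (l 16672504) (l 16680904)) (a (l 16686472) (l 4))) (b (a (l 16722688) (l 4)) (l 4))) (l 4))) (l 4)) (l 4))) (l 4))) (l 4)), by decide +kernel⟩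

theorem c_pp_022_a : CertF 0 536870912 0 536870912 335544320 67108864 true true true .pp 0 2 2
    ndF0q0 ndF1q2a pcF2 cut_pp_022_a Ext.none :=
  certF0 (fam := true) (s1 := true) (s2 := true) (a := 0) (b := 2) (c := 2) (cn := .pp) (n1 := ndF0q0) (n2 := ndF1q2a) (pc := pcF2) (cut := cut_pp_022_a) (xt := Ext.none) (P1 := 0) (W1 := 536870912) (P2 := 0) (W2 := 536870912) (P3 := 335544320) (W3 := 67108864)
    rfl k0_pp_022_a

noncomputable def cut_pp_022_b : Cut := Cut.of [[⟨0, 0, 0, 67108864⟩, ⟨1, 1, 0, 67108864⟩, ⟨2, 1, 0, 67108864⟩]]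

noncomputable def f_pp_022_b : ℕ → ℕ → ℕ → ℕ → Bool := onCell 0 536870912 1239849684 370763052 335544320 67108864
    (rowF 0 true true true .pp 0 2 2 (qsf 0 536870912 1239849684 370763052 2) ndF0q0 ndF1q2b pcF2 cut_pp_022_b Ext.none)

def k0_pp_022_b : ∃ t, chk3 f_pp_022_b t 1 1 1 = true :=
  ⟨(a (b (a (b (a (a (b (b (l 16521184) (l 16462464)) (a (l 16405176) (l 16419480))) (b (b (l 16496696) (l 16485184)) (b (l 16435928) (l 16412440)))) (b (a (b (l 16519008) (l 16493088)) (b (l 16547464) (l 16529352))) (a (b (l 16472096) (l 16457184)) (l 16598304)))) (a (b (a (l 16401448) (l 16429032)) (a (l 16330344) (l 16409472))) (b (a (l 16490640) (l 16587696)) (a (l 16638040) (l 4))))) (b (a (b (a (b (l 16583384) (l 16575352)) (b (l 16650096) (l 16631520))) (a (l 16681352) (l 4))) (b (a (b (l 16747088) (l 4)) (l 4)) (l 4))) (l 4))) (a (b (a (b (a (b (l 16384904) (l 16566720)) (l 4)) (l 4)) (l 4)) (l 4)) (l 4))) (l 4)), by decide +kernel⟩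

theorem c_pp_022_b : CertF 0 536870912 1239849684 370763052 335544320 67108864 true true true .pp 0 2 2
    ndF0q0 ndF1q2b pcF2 cut_pp_022_b Ext.none :=
  certF0 (fam := true) (s1 := true) (s2 := true) (a := 0) (b := 2) (c := 2) (cn := .pp) (n1 := ndF0q0) (n2 := ndF1q2b) (pc := pcF2) (cut := cut_pp_022_b) (xt := Ext.none) (P1 := 0) (W1 := 536870912) (P2 := 1239849684) (W2 := 370763052) (P3 := 335544320) (W3 := 67108864)
    rfl k0_pp_022_b

noncomputable def f_pp_023_a : ℕ → ℕ → ℕ → ℕ → Bool := onCell 0 536870912 0 536870912 335544320 67108864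
    (rowF 0 true true true .up 0 2 3 (qsf 0 536870912 0 536870912 3) ndF0q0 ndF1q2a pcF3 Cut.none Ext.none)

def k0_pp_023_a : ∃ t, chk3 f_pp_023_a t 1 1 1 = true :=
  ⟨(a (l 1) (l 4)), by decide +kernel⟩

theorem c_pp_023_a : CertF 0 536870912 0 536870912 335544320 67108864 true true true .up 0 2 3
    ndF0q0 ndF1q2a pcF3 Cut.none Ext.none :=
  certF0 (fam := true) (s1 := true) (s2 := true) (a := 0) (b := 2) (c := 3) (cn := .up) (n1 := ndF0q0) (n2 := ndF1q2a) (pc := pcF3) (cut := Cut.none) (xt := Ext.none) (P1 := 0) (W1 := 536870912) (P2 := 0) (W2 := 536870912) (P3 := 335544320) (W3 := 67108864)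
    rfl k0_pp_023_a

noncomputable def f_pp_023_b : ℕ → ℕ → ℕ → ℕ → Bool := onCell 0 536870912 1610612736 536870912 335544320 67108864
    (rowF 1 true true true .up 0 2 3 (qsf 0 536870912 1239849684 370763052 3) ndF0q0 ndF1q2b pcF3 Cut.none Ext.none)

def k0_pp_023_b : ∃ t, chk3 f_pp_023_b t 1 1 1 = true :=
  ⟨(b (l 4) (l 4)), by decide +kernel⟩

theorem c_pp_023_b : CertF 0 536870912 1239849684 370763052 335544320 67108864 true true true .up 0 2 3
    ndF0q0 ndF1q2b pcF3 Cut.none Ext.none :=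
  certF1 (fam := true) (s1 := true) (s2 := true) (a := 0) (b := 2) (c := 3) (cn := .up) (n1 := ndF0q0) (n2 := ndF1q2b) (pc := pcF3) (cut := Cut.none) (xt := Ext.none) (P1 := 0) (W1 := 536870912) (P2 := 1239849684) (W2 := 370763052) (P3 := 335544320) (W3 := 67108864)
    rfl (fun _ => rfl) k0_pp_023_b

noncomputable def f_pp_033 : ℕ → ℕ → ℕ → ℕ → Bool := onCell 0 536870912 1610612736 536870912 335544320 67108864
    (rowF 0 true true true .pnn 0 3 3 (qsf 0 536870912 1610612736 536870912 3) ndF0q0 ndF1q3 pcF3 Cut.none Ext.none)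

def k0_pp_033 : ∃ t, chk3 f_pp_033 t 1 1 1 = true :=
  ⟨(a (l 4) (l 4)), by decide +kernel⟩

theorem c_pp_033 : CertF 0 536870912 1610612736 536870912 335544320 67108864 true true true .pnn 0 3 3
    ndF0q0 ndF1q3 pcF3 Cut.none Ext.none :=
  certF0 (fam := true) (s1 := true) (s2 := true) (a := 0) (b := 3) (c := 3) (cn := .pnn) (n1 := ndF0q0) (n2 := ndF1q3) (pc := pcF3) (cut := Cut.none) (xt := Ext.none) (P1 := 0) (W1 := 536870912) (P2 := 1610612736) (W2 := 536870912) (P3 := 335544320) (W3 := 67108864)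
    rfl k0_pp_033

noncomputable def f_pp_101 : ℕ → ℕ → ℕ → ℕ → Bool := onCell 536870912 536870912 0 536870912 335544320 67108864
    (rowF 0 true true true .npn 1 0 1 (qsf 536870912 536870912 0 536870912 1) ndF0q1 ndF1q0 pcF1 Cut.none Ext.none)

def k0_pp_101 : ∃ t, chk3 f_pp_101 t 1 1 1 = true :=
  ⟨(l 5), by decide +kernel⟩

theorem c_pp_101 : CertF 536870912 536870912 0 536870912 335544320 67108864 true true true .npn 1 0 1
    ndF0q1 ndF1q0 pcF1 Cut.none Ext.none :=
  certF0 (fam := true) (s1 := true) (s2 := true) (a := 1) (b := 0) (c := 1) (cn := .npn) (n1 := ndF0q1) (n2 := ndF1q0) (pc := pcF1) (cut := Cut.none) (xt := Ext.none) (P1 := 536870912) (W1 := 536870912) (P2 := 0) (W2 := 536870912) (P3 := 335544320) (W3 := 67108864)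
    rfl k0_pp_101

noncomputable def f_pp_102 : ℕ → ℕ → ℕ → ℕ → Bool := onCell 536870912 536870912 0 536870912 335544320 67108864
    (rowF 0 true true true .npp 1 0 2 (qsf 536870912 536870912 0 536870912 2) ndF0q1 ndF1q0 pcF2 Cut.none Ext.none)

def k0_pp_102 : ∃ t, chk3 f_pp_102 t 1 1 1 = true :=
  ⟨(l 5), by decide +kernel⟩

theorem c_pp_102 : CertF 536870912 536870912 0 536870912 335544320 67108864 true true true .npp 1 0 2
    ndF0q1 ndF1q0 pcF2 Cut.none Ext.none :=
  certF0 (fam := true) (s1 := true) (s2 := true) (a := 1) (b := 0) (c := 2) (cn := .npp) (n1 := ndF0q1) (n2 := ndF1q0) (pc := pcF2) (cut := Cut.none) (xt := Ext.none) (P1 := 536870912) (W1 := 536870912) (P2 := 0) (W2 := 536870912) (P3 := 335544320) (W3 := 67108864)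
    rfl k0_pp_102

noncomputable def f_pp_112 : ℕ → ℕ → ℕ → ℕ → Bool := onCell 536870912 536870912 536870912 536870912 335544320 67108864
    (rowF 0 true true true .dn 1 1 2 (qsf 536870912 536870912 536870912 536870912 2) ndF0q1 ndF1q1 pcF2 Cut.none Ext.none)

def k0_pp_112 : ∃ t, chk3 f_pp_112 t 1 1 1 = true :=
  ⟨(l 4), by decide +kernel⟩

theorem c_pp_112 : CertF 536870912 536870912 536870912 536870912 335544320 67108864 true true true .dn 1 1 2
    ndF0q1 ndF1q1 pcF2 Cut.none Ext.none :=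
  certF0 (fam := true) (s1 := true) (s2 := true) (a := 1) (b := 1) (c := 2) (cn := .dn) (n1 := ndF0q1) (n2 := ndF1q1) (pc := pcF2) (cut := Cut.none) (xt := Ext.none) (P1 := 536870912) (W1 := 536870912) (P2 := 536870912) (W2 := 536870912) (P3 := 335544320) (W3 := 67108864)
    rfl k0_pp_112

noncomputable def f_pp_113 : ℕ → ℕ → ℕ → ℕ → Bool := onCell 536870912 536870912 536870912 536870912 335544320 67108864
    (rowF 0 true true true .nn 1 1 3 (qsf 536870912 536870912 536870912 536870912 3) ndF0q1 ndF1q1 pcF3 Cut.none Ext.none)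

def k0_pp_113 : ∃ t, chk3 f_pp_113 t 1 1 1 = true :=
  ⟨(l 4), by decide +kernel⟩

theorem c_pp_113 : CertF 536870912 536870912 536870912 536870912 335544320 67108864 true true true .nn 1 1 3
    ndF0q1 ndF1q1 pcF3 Cut.none Ext.none :=
  certF0 (fam := true) (s1 := true) (s2 := true) (a := 1) (b := 1) (c := 3) (cn := .nn) (n1 := ndF0q1) (n2 := ndF1q1) (pc := pcF3) (cut := Cut.none) (xt := Ext.none) (P1 := 536870912) (W1 := 536870912) (P2 := 536870912) (W2 := 536870912) (P3 := 335544320) (W3 := 67108864)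
    rfl k0_pp_113

noncomputable def f_pp_123_a : ℕ → ℕ → ℕ → ℕ → Bool := onCell 536870912 536870912 0 536870912 335544320 67108864
    (rowF 0 true true true .npn 1 2 3 (qsf 536870912 536870912 0 536870912 3) ndF0q1 ndF1q2a pcF3 Cut.none Ext.none)

def k0_pp_123_a : ∃ t, chk3 f_pp_123_a t 1 1 1 = true :=
  ⟨(l 4), by decide +kernel⟩

theorem c_pp_123_a : CertF 536870912 536870912 0 536870912 335544320 67108864 true true true .npn 1 2 3
    ndF0q1 ndF1q2a pcF3 Cut.none Ext.none :=
  certF0 (fam := true) (s1 := true) (s2 := true) (a := 1) (b := 2) (c := 3) (cn := .npn) (n1 := ndF0q1) (n2 := ndF1q2a) (pc := pcF3) (cut := Cut.none) (xt := Ext.none) (P1 := 536870912) (W1 := 536870912) (P2 := 0) (W2 := 536870912) (P3 := 335544320) (W3 := 67108864)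
    rfl k0_pp_123_a

noncomputable def f_pp_123_b : ℕ → ℕ → ℕ → ℕ → Bool := onCell 536870912 536870912 1239849684 370763052 335544320 67108864
    (rowF 0 true true true .npn 1 2 3 (qsf 536870912 536870912 1239849684 370763052 3) ndF0q1 ndF1q2b pcF3 Cut.none Ext.none)

def k0_pp_123_b : ∃ t, chk3 f_pp_123_b t 1 1 1 = true :=
  ⟨(l 4), by decide +kernel⟩

theorem c_pp_123_b : CertF 536870912 536870912 1239849684 370763052 335544320 67108864 true true true .npn 1 2 3
    ndF0q1 ndF1q2b pcF3 Cut.none Ext.none :=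
  certF0 (fam := true) (s1 := true) (s2 := true) (a := 1) (b := 2) (c := 3) (cn := .npn) (n1 := ndF0q1) (n2 := ndF1q2b) (pc := pcF3) (cut := Cut.none) (xt := Ext.none) (P1 := 536870912) (W1 := 536870912) (P2 := 1239849684) (W2 := 370763052) (P3 := 335544320) (W3 := 67108864)
    rfl k0_pp_123_b

noncomputable def f_pp_133 : ℕ → ℕ → ℕ → ℕ → Bool := onCell 536870912 536870912 1610612736 536870912 335544320 67108864
    (rowF 0 true true true .dn 1 3 3 (qsf 536870912 536870912 1610612736 536870912 3) ndF0q1 ndF1q3 pcF3 Cut.none Ext.none)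

def k0_pp_133 : ∃ t, chk3 f_pp_133 t 1 1 1 = true :=
  ⟨(l 4), by decide +kernel⟩

theorem c_pp_133 : CertF 536870912 536870912 1610612736 536870912 335544320 67108864 true true true .dn 1 3 3
    ndF0q1 ndF1q3 pcF3 Cut.none Ext.none :=
  certF0 (fam := true) (s1 := true) (s2 := true) (a := 1) (b := 3) (c := 3) (cn := .dn) (n1 := ndF0q1) (n2 := ndF1q3) (pc := pcF3) (cut := Cut.none) (xt := Ext.none) (P1 := 536870912) (W1 := 536870912) (P2 := 1610612736) (W2 := 536870912) (P3 := 335544320) (W3 := 67108864)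
    rfl k0_pp_133

noncomputable def f_pp_202 : ℕ → ℕ → ℕ → ℕ → Bool := onCell 0 536870912 0 536870912 335544320 67108864
    (rowF 0 true true true .pp 2 0 2 (qsf 0 536870912 0 536870912 2) ndF0q2 ndF1q0 pcF2 Cut.none Ext.none)

def k0_pp_202 : ∃ t, chk3 f_pp_202 t 1 1 1 = true :=
  ⟨(l 5), by decide +kernel⟩

theorem c_pp_202 : CertF 0 536870912 0 536870912 335544320 67108864 true true true .pp 2 0 2
    ndF0q2 ndF1q0 pcF2 Cut.none Ext.none :=
  certF0 (fam := true) (s1 := true) (s2 := true) (a := 2) (b := 0) (c := 2) (cn := .pp) (n1 := ndF0q2) (n2 := ndF1q0) (pc := pcF2) (cut := Cut.none) (xt := Ext.none) (P1 := 0) (W1 := 536870912) (P2 := 0) (W2 := 536870912) (P3 := 335544320) (W3 := 67108864)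
    rfl k0_pp_202

noncomputable def f_pp_203 : ℕ → ℕ → ℕ → ℕ → Bool := onCell 0 536870912 0 536870912 335544320 67108864
    (rowF 0 true true true .up 2 0 3 (qsf 0 536870912 0 536870912 3) ndF0q2 ndF1q0 pcF3 Cut.none Ext.none)

def k0_pp_203 : ∃ t, chk3 f_pp_203 t 1 1 1 = true :=
  ⟨(l 5), by decide +kernel⟩

theorem c_pp_203 : CertF 0 536870912 0 536870912 335544320 67108864 true true true .up 2 0 3
    ndF0q2 ndF1q0 pcF3 Cut.none Ext.none :=
  certF0 (fam := true) (s1 := true) (s2 := true) (a := 2) (b := 0) (c := 3) (cn := .up) (n1 := ndF0q2) (n2 := ndF1q0) (pc := pcF3) (cut := Cut.none) (xt := Ext.none) (P1 := 0) (W1 := 536870912) (P2 := 0) (W2 := 536870912) (P3 := 335544320) (W3 := 67108864)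
    rfl k0_pp_203

noncomputable def f_pp_213 : ℕ → ℕ → ℕ → ℕ → Bool := onCell 0 536870912 536870912 536870912 335544320 67108864
    (rowF 0 true true true .pnn 2 1 3 (qsf 0 536870912 536870912 536870912 3) ndF0q2 ndF1q1 pcF3 Cut.none Ext.none)

def k0_pp_213 : ∃ t, chk3 f_pp_213 t 1 1 1 = true :=
  ⟨(l 4), by decide +kernel⟩

theorem c_pp_213 : CertF 0 536870912 536870912 536870912 335544320 67108864 true true true .pnn 2 1 3
    ndF0q2 ndF1q1 pcF3 Cut.none Ext.none :=
  certF0 (fam := true) (s1 := true) (s2 := true) (a := 2) (b := 1) (c := 3) (cn := .pnn) (n1 := ndF0q2) (n2 := ndF1q1) (pc := pcF3) (cut := Cut.none) (xt := Ext.none) (P1 := 0) (W1 := 536870912) (P2 := 536870912) (W2 := 536870912) (P3 := 335544320) (W3 := 67108864)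
    rfl k0_pp_213

noncomputable def f_pm_001 : ℕ → ℕ → ℕ → ℕ → Bool := onCell 0 536870912 0 536870912 335544320 67108864
    (rowF 0 true true false .up 0 0 1 (qsf 0 536870912 0 536870912 1) ndF0q0 ndF1q0 pcF1 Cut.none Ext.none)

def k0_pm_001 : ∃ t, chk3 f_pm_001 t 1 1 1 = true :=
  ⟨(l 3), by decide +kernel⟩

theorem c_pm_001 : CertF 0 536870912 0 536870912 335544320 67108864 true true false .up 0 0 1
    ndF0q0 ndF1q0 pcF1 Cut.none Ext.none :=
  certF0 (fam := true) (s1 := true) (s2 := false) (a := 0) (b := 0) (c := 1) (cn := .up) (n1 := ndF0q0) (n2 := ndF1q0) (pc := pcF1) (cut := Cut.none) (xt := Ext.none) (P1 := 0) (W1 := 536870912) (P2 := 0) (W2 := 536870912) (P3 := 335544320) (W3 := 67108864)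
    rfl k0_pm_001

noncomputable def f_pm_011 : ℕ → ℕ → ℕ → ℕ → Bool := onCell 0 536870912 536870912 536870912 335544320 67108864
    (rowF 1 true true false .pnn 0 1 1 (qsf 0 536870912 536870912 536870912 1) ndF0q0 ndF1q1 pcF1 Cut.none Ext.none)

def k0_pm_011 : ∃ t, chk3 f_pm_011 t 1 1 1 = true :=
  ⟨(l 3), by decide +kernel⟩

theorem c_pm_011 : CertF 0 536870912 536870912 536870912 335544320 67108864 true true false .pnn 0 1 1
    ndF0q0 ndF1q1 pcF1 Cut.none Ext.none :=
  certF1 (fam := true) (s1 := true) (s2 := false) (a := 0) (b := 1) (c := 1) (cn := .pnn) (n1 := ndF0q0) (n2 := ndF1q1) (pc := pcF1) (cut := Cut.none) (xt := Ext.none) (P1 := 0) (W1 := 536870912) (P2 := 536870912) (W2 := 536870912) (P3 := 335544320) (W3 := 67108864)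
    rfl (fun _ => rfl) k0_pm_011

end Pool.Agent.Strip051.G.I5_16_3_8.Tab.C.FA01

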