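import Pool.Agent.Strip051.G.I5_16_3_8.Tab

/-! # Certificates F1 (generated) -/

set_option linter.all false
set_option maxRecDepth 100000

namespace Pool.Agent.Strip051.G.I5_16_3_8.Tab.C.FA01

open Pool.Agent.Strip051.PB Pool.Agent.Strip051.PB.T
open Pool.Agent.Strip051.G.I5_16_3_8.Tab

noncomputable def f_pm_012 : ℕ → ℕ → ℕ → ℕ → Bool := onCell 1073741824 536870912 536870912 536870912 335544320 67108864
    (rowF 2 true true false .pnp 0 1 2 (qsf 0 536870912 536870912 536870912 2) ndF0q0 ndF1q1 pcF2 Cut.none Ext.none)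

def k0_pm_012 : ∃ t, chk3 f_pm_012 t 2 1 1 = true :=
  ⟨(a (a (l 3) (b (b (a (b (l 470467369623) (l 3)) (b (l 2) (a (l 155860726423) (l 17093352)))) (a (l 3) (a (b (l 230485875799) (l 3)) (b (l 17149120) (l 134923142167))))) (b (a (l 3) (b (a (l 3) (l 357187561847)) (l 3))) (l 3)))) (b (a (a (a (b (b (l 2) (l 17088432)) (b (l 17155904) (l 17166440))) (b (l 2) (a (b (l 17168528) (l 17135648)) (a (b (l 17177352) (l 17120848)) (a (b (l 17164872) (l 17113728)) (l 17327072)))))) (b (l 2) (b (l 17094848) (l 17069800)))) (b (l 2) (b (l 16964856) (l 16982448)))) (a (a (a (b (b (a (l 17090464) (l 17072016)) (a (l 251960563095) (l 229948833815))) (b (b (l 196125838759) (l 178945842791)) (l 3))) (b (a (b (l 17053592) (l 16949056)) (a (b (l 17039928) (l 16935384)) (b (a (l 17033368) (l 17029288)) (a (l 16928864) (l 16924216))))) (a (b (b (l 16855592) (l 16786480)) (b (l 16713872) (l 16640440))) (b (a (l 16806640) (a (l 16799192) (l 16795392))) (a (b (l 16697360) (l 16622592)) (a (b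 (l 16689600) (l 16613984)) (b (l 16685176) (l 16609240)))))))) (b (b (l 16994520) (l 16890048)) (b (b (l 16794856) (l 16723696)) (b (l 16647992) (b (l 16589160) (l 16549784)))))) (b (b (a (l 16923440) (l 16860160)) (b (l 16810728) (l 16750480))) (b (b (l 16683064) (l 16694104)) (b (l 16698736) (a (l 16532072) (l 16402256)))))))), by decide +kernel⟩

def k1_pm_012 : ∃ t, chk3 f_pm_012 t 3 1 1 = true :=
  ⟨(b (a (b (l 2) (a (a (b (l 2) (l 16906176)) (l 2)) (l 2))) (l 2)) (a (b (a (b (a (l 16861624) (l 16880160)) (b (l 16793200) (l 16704672))) (b (l 16943328) (b (l 16905816) (l 16873528)))) (b (a (a (l 16530792) (l 16570008)) (b (l 16818992) (l 16733376))) (a (b (l 16313976) (l 16347976)) (b (l 16605888) (l 16420680))))) (b (a (b (l 2) (b (l 2) (l 17006600))) (l 2)) (a (b (b (l 16996808) (l 16971776)) (b (l 16925288) (l 16848144))) (b (b (l 2) (l 17121976)) (b (l 17123096) (l 17108648))))))), by decide +kernel⟩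

theorem s2_pm_012 : ∃ t, chk3 f_pm_012 t 1 1 1 = true := ex3_a k0_pm_012 k1_pm_012

theorem c_pm_012 : CertF 0 536870912 536870912 536870912 335544320 67108864 true true false .pnp 0 1 2
    ndF0q0 ndF1q1 pcF2 Cut.none Ext.none :=
  certF2 (fam := true) (s1 := true) (s2 := false) (a := 0) (b := 1) (c := 2) (cn := .pnp) (n1 := ndF0q0) (n2 := ndF1q1) (pc := pcF2) (cut := Cut.none) (xt := Ext.none) (P1 := 0) (W1 := 536870912) (P2 := 536870912) (W2 := 536870912) (P3 := 335544320) (W3 := 67108864)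
    rfl (fun _ => rfl) s2_pm_012

noncomputable def cut_pm_022_a : Cut := Cut.of [[⟨0, 0, 0, 67108864⟩, ⟨1, 1, 0, 67108864⟩, ⟨2, 1, 0, 67108864⟩], [⟨0, 0, 1, 33554432⟩, ⟨1, 1, 0, 33554432⟩, ⟨2, 1, 1, 33554432⟩]]

noncomputable def f_pm_022_a : ℕ → ℕ → ℕ → ℕ → Bool := onCell 1073741824 536870912 0 536870912 335544320 67108864
    (rowF 2 true true false .pp 0 2 2 (qsf 0 536870912 0 536870912 2) ndF0q0 ndF1q2a pcF2 cut_pm_022_a Ext.none)

def k0_pm_022_a : ∃ t, chk3 f_pm_022_a t 4 2 1 = true :=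
  ⟨(b (l 1) (b (l 1) (b (l 1) (a (l 1) (a (l 1) (a (l 1) (a (l 1) (c (b (l 16599568) (l 16601120)) (b (l 16589152) (l 16591216)))))))))), by decide +kernel⟩

def k1_pm_022_a : ∃ t, chk3 f_pm_022_a t 8 3 1 = true :=
  ⟨(b (l 1) (b (c (c (a (l 1) (b (a (l 1) (a (l 1) (b (l 1) (b (a (l 1) (l 16677576)) (a (l 6) (l 16679280)))))) (a (l 6) (a (l 6) (a (l 6) (b (l 16681768) (l 16684856))))))) (a (l 1) (b (a (l 1) (a (l 1) (b (l 1) (b (a (l 1) (l 16674904)) (a (l 6) (l 16676848)))))) (a (l 6) (a (l 6) (a (l 6) (b (l 16679696) (l 16683288)))))))) (c (a (l 1) (a (b (l 1) (l 6)) (a (b (l 1) (l 6)) (b (b (l 1) (b (a (l 1) (l 16672336)) (l 16681704))) (b (b (l 16678648) (l 16680792)) (l 16683936)))))) (a (l 1) (a (b (l 1) (l 6)) (a (b (l 1) (l 6)) (b (b (l 1) (b (l 16671736) (l 16674184))) (b (b (l 16676600) (l 16678984)) (l 16682504)))))))) (a (l 6) (a (l 6) (a (l 6) (a (l 6) (b (b (l 16707104) (l 16691040)) (b (l 16728088) (b (l 16719296) (l 16730128)))))))))), by decide +kernel⟩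

def k2_pm_022_a : ∃ t, chk3 f_pm_022_a t 9 6 1 = true :=
  ⟨(a (b (l 1) (a (b (l 1) (a (l 1) (b (c (l 16653712) (l 16646664)) (c (b (l 16656192) (l 16657840)) (b (l 16649760) (l 16651816)))))) (b (a (b (l 1) (c (l 16643792) (l 16636232))) (b (c (l 16634456) (l 16626432)) (c (l 16637248) (l 16629968)))) (b (a (c (b (l 16646080) (l 16647592)) (l 16640072)) (l 16649808)) (a (c (l 16649840) (l 16643880)) (l 16639752)))))) (b (a (b (a (l 1) (b (l 1) (l 16621056))) (a (b (l 1) (c (l 16625696) (l 16617264))) (b (c (l 16617504) (l 16608712)) (l 16615664)))) (b (a (b (c (l 16607936) (l 16598256)) (c (l 16609864) (l 16600760))) (b (c (l 16602744) (l 16593392)) (l 16600032))) (b (a (l 16607568) (l 16602024)) (l 16627936)))) (a (b (a (b (l 17750015623) (l 16627168)) (b (l 16618224) (l 16620752))) (b (a (l 16629968) (l 16623224)) (l 16629160))) (b (b (l 16609088) (l 16611160)) (b (l 16613144) (l 16615000)))))), by decide +kernel⟩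

def k3_pm_022_a : ∃ t, chk3 f_pm_022_a t 9 7 1 = true :=
  ⟨(b (a (a (b (b (a (b (a (l 1) (c (l 16665032) (l 16659248))) (c (a (l 16670560) (l 16666744)) (l 16663248))) (c (b (l 16659448) (l 16661024)) (l 54257288279))) (a (b (c (a (l 16672328) (l 16668424)) (l 16665424)) (c (l 16672064) (l 16667568))) (c (l 16663328) (l 16658864)))) (b (a (c (l 16674504) (l 16670736)) (l 16664408)) (a (l 16697088) (l 16667536)))) (b (b (a (l 16650112) (l 16642688)) (a (l 16653264) (l 16645456))) (b (l 16673128) (l 16675632)))) (a (b (b (l 16631560) (l 16633768)) (b (l 16656712) (l 16637400))) (b (l 16638472) (l 16640800)))) (b (a (a (b (b (l 16695136) (l 16696584)) (c (l 16704456) (l 16704800))) (b (l 16677816) (l 16693088))) (a (c (l 16689544) (l 16694416)) (l 16683224))) (b (a (a (b (l 16716728) (l 16724864)) (c (l 16710032) (l 16708592))) (a (l 16698016) (l 16665784))) (b (a (a (c (l 16712904) (l 16711192)) (l 16700712)) (a (l 16689480) (l 16678304))) (a (b (a (l 16728744) (l 16706944))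 (b (a (l 16721360) (l 16710072)) (a (c (l 16724688) (l 16722120)) (c (l 16713728) (l 16710536))))) (a (a (c (l 16702384) (l 16698928)) (a (l 16707024) (l 16693760))) (c (l 16699384) (l 16695056)))))))), by decide +kernel⟩

def k4_pm_022_a : ∃ t, chk3 f_pm_022_a t 5 2 1 = true :=
  ⟨(a (b (a (a (l 1) (b (b (l 16538104) (l 16543016)) (b (l 16549024) (a (l 16558800) (l 16553104))))) (b (a (l 16527048) (l 16512152)) (a (b (l 16536456) (l 16544072)) (l 16526976)))) (a (a (a (b (l 1) (b (c (b (l 16592408) (l 16593560)) (b (l 16581416) (l 16583008))) (b (c (l 16594808) (l 16584736)) (c (l 16596136) (l 16586576))))) (b (b (c (l 16577272) (l 16565968)) (c (b (l 16583232) (l 16586736)) (b (l 16572056) (l 16575736)))) (b (c (b (l 16588000) (l 16588952)) (l 49425301431)) (c (l 16590600) (l 16581144))))) (a (b (b (c (l 16571832) (l 16561048)) (c (b (l 16577992) (l 16581944)) (l 16569344))) (b (c (l 16583944) (l 16573920)) (l 16581176))) (b (b (l 16561080) (a (l 16571000) (a (l 16569016)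 (l 16567536)))) (a (b (l 16575656) (l 16577632)) (b (a (l 16573992) (l 16572712)) (l 16596184)))))) (b (a (b (l 16552496) (l 16561608)) (l 16566064)) (b (a (l 16567384) (l 16557032)) (a (l 16568912) (l 16557888)))))) (b (b (a (l 16529160) (l 16469256)) (a (l 16567480) (l 16490560))) (b (a (a (l 16531888) (l 16517480)) (l 16535400)) (a (b (l 16581488) (l 16540712)) (b (l 16512040) (l 16515656)))))), by decide +kernel⟩

def k5_pm_022_a : ∃ t, chk3 f_pm_022_a t 5 3 1 = true :=
  ⟨(b (a (a (a (b (b (a (b (l 16593040) (l 16594744)) (l 16588760)) (b (l 16593752) (l 16595344))) (b (l 16597712) (l 16600416))) (b (a (b (l 16583624) (l 16586128)) (b (a (l 16579832) (l 16577512)) (l 16622920))) (a (b (l 16588440) (l 16590272)) (b (l 16603928) (l 16605352))))) (b (b (a (l 16570384) (l 16558048)) (l 16565040)) (b (l 16565368) (l 16585936)))) (b (a (b (l 16538808) (l 16536552)) (l 16550752)) (a (a (l 16582408) (l 16543992)) (l 16526320)))) (a (b (b (a (a (l 16623352) (b (l 16651368)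 (l 16640992))) (l 16584376)) (a (a (l 16624096) (a (l 16590856) (l 16625864))) (l 16591512))) (b (a (a (l 16671704) (a (b (l 16612672) (l 16628936)) (l 16665968))) (l 16649792)) (a (a (b (l 16654376) (b (l 16666960) (c (l 16677976) (l 16672920)))) (b (a (l 16645496) (l 16679984)) (a (b (l 16658104) (l 16666624)) (b (a (l 16653064) (l 16669768)) (a (l 16661576) (a (l 16658336) (c (l 16659056) (l 16652936)))))))) (b (l 16648448) (b (l 16661208) (c (a (l 16655168) (l 16650272)) (a (l 16648472) (l 16642480)))))))) (b (a (b (l 16547928) (l 16600640)) (b (l 16539088) (l 16572136))) (b (a (a (l 16615296) (l 16611088)) (a (l 16608096) (l 16606400))) (b (a (l 16659848) (c (l 16639528) (l 16608264))) (b (a (c (l 16635720) (l 16626872)) (c (l 16654432) (l 16622096))) (a (a (c (l 16646576) (l 16637640)) (c (l 16654632) (l 16634032))) (a (a (c (l 16643376) (l 16632304)) (c (l 16653912) (l 16631680))) (c (b (l 16641952) (a (c (l 16649864) (l 16643536)) (c (a (l 16650984) (l 16651928))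 (l 16655176)))) (a (l 16652560) (c (l 16645872) (l 16628736)))))))))))), by decide +kernel⟩

def k6_pm_022_a : ∃ t, chk3 f_pm_022_a t 6 2 1 = true :=
  ⟨(a (b (a (b (l 16436392) (l 16469352)) (b (l 16437328) (l 16424480))) (a (b (l 16518456) (a (l 16490936) (l 16494800))) (b (l 16465168) (a (l 16482200) (l 16474496))))) (b (a (b (l 16457600) (l 16412464)) (l 16528536)) (a (b (l 16418944) (l 16503776)) (b (l 16471464) (l 16463840))))), by decide +kernel⟩

def k7_pm_022_a : ∃ t, chk3 f_pm_022_a t 12 6 1 = true :=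
  ⟨(a (b (l 16539496) (b (l 16482008) (l 16502616))) (b (l 16507808) (b (l 16456864) (l 16511192)))), by decide +kernel⟩

def k8_pm_022_a : ∃ t, chk3 f_pm_022_a t 12 14 1 = true :=
  ⟨(a (b (l 16556160) (a (l 16548872) (l 16549440))) (b (l 16547184) (a (l 16547016) (l 16541576)))), by decide +kernel⟩

def k9_pm_022_a : ∃ t, chk3 f_pm_022_a t 12 30 1 = true :=
  ⟨(b (a (l 16618816) (l 16617440)) (a (a (l 16594928) (l 16597808)) (a (l 16598792) (l 16597584)))), by decide +kernel⟩

def k10_pm_022_a : ∃ t, chk3 f_pm_022_a t 24 31 1 = true :=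
  ⟨(b (a (l 16635816) (c (l 16626128) (l 16611792))) (a (b (c (l 16637296) (l 16623560)) (c (b (l 16645672) (b (l 16660416) (c (a (c (l 16656928) (l 16653312)) (c (l 16660104) (l 16656240))) (a (l 16647888) (l 16650456))))) (b (l 16631280) (c (a (l 16639312) (l 16641352)) (l 16632792))))) (b (c (l 16664408) (l 16627728)) (c (b (a (l 16650384) (l 16675536)) (b (a (l 16654880) (c (l 16663552) (l 16654856))) (c (a (c (b (l 16663304) (l 16664872)) (l 16659960)) (a (c (l 16667648) (l 16663304)) (c (l 16670304) (l 16665808)))) (a (l 16653776) (c (l 16660128) (l 16655712)))))) (a (c (l 16651760) (l 16633200)) (b (l 16637552) (c (l 16647624) (l 16638848)))))))), by decide +kernel⟩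

def k11_pm_022_a : ∃ t, chk3 f_pm_022_a t 25 31 1 = true :=
  ⟨(b (a (c (l 16629504) (l 16613648)) (c (l 16630472) (l 16613496))) (b (a (c (a (l 16647856) (l 16648720)) (l 16630728)) (c (c (l 16655280) (l 16645912)) (l 16631864))) (b (a (c (a (l 16678312) (l 16679504)) (a (l 16639416) (l 16639928))) (a (c (l 16681000) (l 16640728)) (c (a (l 16661368) (l 16662376)) (l 16641864)))) (c (a (a (c (b (l 16666760) (c (b (l 16671560) (a (l 16672880) (b (l 16673240) (l 16678016)))) (a (l 16667432) (l 16668112)))) (a (l 16669424) (a (l 16659328) (l 16659600)))) (c (b (l 16668272) (c (a (a (l 16678688) (l 14)) (l 14)) (a (l 16674112) (a (l 16669496) (l 16669944))))) (b (l 16658752) (c (a (l 16664080) (l 16664840)) (l 16664856))))) (a (c (c (l 14) (a (b (l 16667176) (a (l 16670408) (l 14))) (l 14))) (b (l 16660240) (c (a (l 16665680) (b (l 16665744) (l 16672720))) (a (l 16660712) (l 16661544))))) (c (l 14) (b (l 16662072) (c (a (a (l 16667368) (l 14)) (l 14)) (a (l 16662472) (b (l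 16662616) (l 16669616)))))))) (a (a (c (b (l 16648416) (l 16651448)) (l 16640696)) (c (a (l 16650552) (l 16651056)) (l 16641200))) (c (a (a (l 16651648) (l 16662808)) (b (l 16651832) (c (a (l 16657320) (l 16658248)) (l 16652568)))) (a (l 16642024) (b (l 16641592) (l 16655256))))))))), by decide +kernel⟩

def k12_pm_022_a : ∃ t, chk3 f_pm_022_a t 13 6 1 = true :=
  ⟨(a (b (b (l 16475832) (l 16437784)) (b (l 16436272) (l 16490632))) (b (b (l 16479264) (l 16466152)) (b (l 16482480) (l 16526960)))), by decide +kernel⟩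

def k13_pm_022_a : ∃ t, chk3 f_pm_022_a t 13 14 1 = true :=
  ⟨(a (b (l 16532504) (a (l 16537384) (l 16534216))) (b (l 16527664) (b (l 16548136) (l 16572136)))), by decide +kernel⟩

def k14_pm_022_a : ∃ t, chk3 f_pm_022_a t 13 30 1 = true :=
  ⟨(a (a (b (l 16572624) (l 16597664)) (b (l 16572120) (l 16598776))) (b (a (l 16585072) (l 16652496)) (a (l 16616096) (l 16681464)))), by decide +kernel⟩

def k15_pm_022_a : ∃ t, chk3 f_pm_022_a t 13 62 1 = true :=
  ⟨(a (a (c (l 16632864) (l 16614720)) (c (l 16637024) (l 16617056))) (a (c (b (l 16716920) (l 16733248)) (l 16620704)) (c (b (l 16776216) (l 16791456)) (l 16643024)))), by decide +kernel⟩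

def k16_pm_022_a : ∃ t, chk3 f_pm_022_a t 13 63 1 = true :=
  ⟨(a (b (a (c (c (l 14) (l 16649248)) (l 16655160)) (c (c (l 16660776) (l 14)) (l 16666720))) (c (c (c (a (l 14) (a (l 14) (a (l 14) (l 16784320)))) (l 14)) (c (l 14) (a (a (b (l 16656288) (a (b (l 16661048) (a (l 16664320) (l 14))) (l 14))) (l 14)) (l 14)))) (a (a (b (l 16643336) (c (b (l 16653656) (c (a (l 16659264) (b (l 16659488) (l 16661256))) (a (l 16653912) (l 16654928)))) (a (l 16644264) (l 16655592)))) (b (l 16645168) (c (b (l 16655848) (c (a (a (l 16661264) (l 14)) (l 14)) (a (l 16656032) (b (l 16656344) (l 16658136))))) (b (l 16644848) (c (a (l 16650496) (l 16651600)) (l 16645456)))))) (a (b (l 16668328) (c (a (b (l 16657736) (a (c (l 14) (l 16658200)) (l 14))) (l 14)) (b (l 16647032) (c (a (l 16652800) (l 16659344)) (a (l 16647064) (l 16648256)))))) (b (l 16670904) (c (l 14) (b (l 16649600) (a (c (a (l 16655136) (l 14)) (l 16649552)) (c (l 14) (l 16656192)))))))))) (b (a (c (a (l 16713864) (l 16744296))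 (a (l 16641576) (l 16644536))) (c (a (l 16793776) (l 16820480)) (a (l 14) (l 16686184)))) (c (a (a (c (a (c (l 16799384) (l 14)) (a (l 16792512) (l 16799816))) (l 14)) (b (c (l 16813304) (l 16743344)) (c (l 16800848) (a (l 14) (c (l 16777200) (l 14)))))) (b (a (c (l 16840344) (l 16772400)) (l 16811672)) (c (a (l 16848552) (l 16873576)) (a (a (a (l 16749888) (l 16777920)) (l 16788312)) (l 16766416))))) (c (c (a (l 14) (a (l 14) (a (l 14) (l 16761640)))) (l 14)) (c (l 14) (a (a (b (l 16643992) (a (a (l 16655464) (a (l 16661272) (l 14))) (l 14))) (l 14)) (l 14))))))), by decide +kernel⟩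

def k17_pm_022_a : ∃ t, chk3 f_pm_022_a t 7 2 1 = true :=
  ⟨(a (b (a (b (l 16649944) (l 16633664)) (b (l 16787200) (l 16769136))) (a (b (l 16621488) (l 16609936)) (b (l 16755952) (l 16745112)))) (b (a (l 16907640) (l 17011104)) (a (b (l 16887392) (l 16880216)) (b (l 16994344) (l 16990160))))), by decide +kernel⟩

def k18_pm_022_a : ∃ t, chk3 f_pm_022_a t 7 3 1 = true :=
  ⟨(b (a (a (b (b (l 16600072) (l 16603152)) (b (l 16616688) (l 16637616))) (b (b (l 16737424) (l 16739040)) (a (l 16723752) (l 16802320)))) (b (a (b (l 16877152) (l 16878672)) (l 16990752)) (a (b (l 16893528) (l 16915664)) (l 17012744)))) (a (b (a (b (a (l 16637424) (l 16693312)) (a (l 16676080) (l 16729928))) (a (b (l 16762512) (l 16798104)) (b (l 16841904) (l 16876336)))) (a (b (a (b (l 16711680) (l 16696960)) (b (l 16763616) (l 16726416))) (b (a (c (l 16835312) (b (l 16693944) (l 16710992))) (c (l 16880416) (b (l 16746784) (l 16762848)))) (b (c (a (a (l 16845480) (l 16868888)) (l 16901224)) (a (a (l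 16714984) (l 16742040)) (a (l 16767456) (l 16791312)))) (c (a (a (b (l 16857248) (l 16802384)) (l 16884184)) (c (l 16945568) (l 16886112))) (a (b (a (c (l 16761048) (l 14)) (c (l 16786768) (l 16724424))) (b (a (c (l 16767920) (l 14)) (c (l 16793424) (a (l 14) (l 16738168)))) (c (a (a (l 16744976) (l 16779032)) (l 16776936)) (a (l 14) (a (l 14) (c (l 16758240) (l 14))))))) (b (a (l 16738656) (l 16804080)) (c (a (l 16819536) (l 16841936)) (a (a (a (l 16729232) (l 16756496)) (l 16765760)) (b (l 16781368) (l 16764960)))))))))) (b (a (b (l 16830200) (l 16770504)) (l 16875536)) (b (a (c (l 16938040) (a (l 16801488) (l 16844432))) (l 16952560)) (a (c (b (l 16957272) (l 16970696)) (a (b (l 16825016) (a (l 16788688) (l 16852032))) (a (l 16864592) (l 16884376)))) (c (l 17025848) (b (l 16922952) (l 16937224)))))))) (b (a (b (l 16942072) (l 16973032)) (b (l 17043832) (l 17068352))) (b (a (a (l 16980952) (l 17033744)) (l 17095272)) (a (a (b (l 17012232) (l 17034576)) (l 17070800)) (a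 (l 17108544) (l 17137896))))))), by decide +kernel⟩

theorem s19_pm_022_a : ∃ t, chk3 f_pm_022_a t 7 1 1 = true := ex3_b k17_pm_022_a k18_pm_022_a

theorem s20_pm_022_a : ∃ t, chk3 f_pm_022_a t 13 31 1 = true := ex3_b k15_pm_022_a k16_pm_022_a

theorem s21_pm_022_a : ∃ t, chk3 f_pm_022_a t 13 15 1 = true := ex3_b k14_pm_022_a s20_pm_022_a

theorem s22_pm_022_a : ∃ t, chk3 f_pm_022_a t 13 7 1 = true := ex3_b k13_pm_022_a s21_pm_022_a

theorem s23_pm_022_a : ∃ t, chk3 f_pm_022_a t 13 3 1 = true := ex3_b k12_pm_022_a s22_pm_022_a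

theorem s24_pm_022_a : ∃ t, chk3 f_pm_022_a t 12 31 1 = true := ex3_a k10_pm_022_a k11_pm_022_a

theorem s25_pm_022_a : ∃ t, chk3 f_pm_022_a t 12 15 1 = true := ex3_b k9_pm_022_a s24_pm_022_a

theorem s26_pm_022_a : ∃ t, chk3 f_pm_022_a t 12 7 1 = true := ex3_b k8_pm_022_a s25_pm_022_a

theorem s27_pm_022_a : ∃ t, chk3 f_pm_022_a t 12 3 1 = true := ex3_b k7_pm_022_a s26_pm_022_a

theorem s28_pm_022_a : ∃ t, chk3 f_pm_022_a t 6 3 1 = true := ex3_a s27_pm_022_a s23_pm_022_a

theorem s29_pm_022_a : ∃ t, chk3 f_pm_022_a t 6 1 1 = true := ex3_b k6_pm_022_a s28_pm_022_a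

theorem s30_pm_022_a : ∃ t, chk3 f_pm_022_a t 3 1 1 = true := ex3_a s29_pm_022_a s19_pm_022_a

theorem s31_pm_022_a : ∃ t, chk3 f_pm_022_a t 5 1 1 = true := ex3_b k4_pm_022_a k5_pm_022_a

theorem s32_pm_022_a : ∃ t, chk3 f_pm_022_a t 9 3 1 = true := ex3_b k2_pm_022_a k3_pm_022_a

theorem s33_pm_022_a : ∃ t, chk3 f_pm_022_a t 4 3 1 = true := ex3_a k1_pm_022_a s32_pm_022_a

theorem s34_pm_022_a : ∃ t, chk3 f_pm_022_a t 4 1 1 = true := ex3_b k0_pm_022_a s33_pm_022_a

theorem s35_pm_022_a : ∃ t, chk3 f_pm_022_a t 2 1 1 = true := ex3_a s34_pm_022_a s31_pm_022_a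

theorem s36_pm_022_a : ∃ t, chk3 f_pm_022_a t 1 1 1 = true := ex3_a s35_pm_022_a s30_pm_022_a

theorem c_pm_022_a : CertF 0 536870912 0 536870912 335544320 67108864 true true false .pp 0 2 2
    ndF0q0 ndF1q2a pcF2 cut_pm_022_a Ext.none :=
  certF2 (fam := true) (s1 := true) (s2 := false) (a := 0) (b := 2) (c := 2) (cn := .pp) (n1 := ndF0q0) (n2 := ndF1q2a) (pc := pcF2) (cut := cut_pm_022_a) (xt := Ext.none) (P1 := 0) (W1 := 536870912) (P2 := 0) (W2 := 536870912) (P3 := 335544320) (W3 := 67108864)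
    rfl (fun _ => rfl) s36_pm_022_a

noncomputable def cut_pm_022_b : Cut := Cut.of [[⟨0, 0, 0, 67108864⟩, ⟨1, 1, 0, 67108864⟩, ⟨2, 1, 0, 67108864⟩], [⟨0, 0, 1, 33554432⟩, ⟨1, 1, 0, 33554432⟩, ⟨2, 1, 1, 33554432⟩]]

noncomputable def f_pm_022_b : ℕ → ℕ → ℕ → ℕ → Bool := onCell 0 536870912 1073741824 536870912 335544320 67108864
    (rowF 1 true true false .pp 0 2 2 (qsf 0 536870912 1239849684 370763052 2) ndF0q0 ndF1q2b pcF2 cut_pm_022_b Ext.none)

def k0_pm_022_b : ∃ t, chk3 f_pm_022_b t 1 1 1 = true :=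
  ⟨(a (b (a (b (l 1) (a (b (b (a (a (b (l 1) (l 16551224)) (l 1)) (l 1)) (a (a (b (l 16520008) (l 16487720)) (l 16562432)) (a (l 16536248) (l 1)))) (b (a (a (b (l 16454184) (l 16419192)) (l 16453896)) (a (l 16470200) (l 16485696))) (a (a (l 16384400) (l 16402184)) (l 16448440)))) (b (l 1) (b (a (l 75194956807) (l 1)) (a (l 16458120) (l 16513168)))))) (l 1)) (b (a (b (a (a (b (a (l 16344592) (l 16342312)) (l 16282232)) (b (l 16389896) (l 16288968))) (b (a (l 16401288) (l 16448136)) (a (l 16330056) (l 16371664)))) (a (b (a (l 16185976) (l 16232632)) (a (l 16204656) (l 16245624))) (b (a (l 16265024) (l 16358928)) (l 16375000)))) (b (a (b (a (l 82711121431) (l 1)) (a (l 16474560) (l 16544384))) (l 1)) (a (b (l 16549088) (l 16433208)) (b (l 75195315911) (l 32782423543))))) (b (a (a (b (a (l 16422160) (l 16449760)) (a (l 16580656) (l 16601208))) (b (l 16493976) (l 16634328))) (a (b (l 16559736) (l 16684128)) (b (l 16636664) (l 16743096)))) (a (a (b (l 16721080) (l 16847304))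 (b (l 16753232) (l 16864800))) (a (l 16842824) (b (l 16842024) (l 16926008))))))) (b (l 1) (b (l 1) (a (b (a (b (l 106333969383) (l 55331316711)) (l 1)) (a (b (l 16906000) (l 16976240)) (l 171832789879))) (l 1))))), by decide +kernel⟩

theorem c_pm_022_b : CertF 0 536870912 1239849684 370763052 335544320 67108864 true true false .pp 0 2 2
    ndF0q0 ndF1q2b pcF2 cut_pm_022_b Ext.none :=
  certF1 (fam := true) (s1 := true) (s2 := false) (a := 0) (b := 2) (c := 2) (cn := .pp) (n1 := ndF0q0) (n2 := ndF1q2b) (pc := pcF2) (cut := cut_pm_022_b) (xt := Ext.none) (P1 := 0) (W1 := 536870912) (P2 := 1239849684) (W2 := 370763052) (P3 := 335544320) (W3 := 67108864)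
    rfl (fun _ => rfl) k0_pm_022_b

noncomputable def f_pm_023_a : ℕ → ℕ → ℕ → ℕ → Bool := onCell 0 536870912 0 536870912 335544320 67108864
    (rowF 0 true true false .up 0 2 3 (qsf 0 536870912 0 536870912 3) ndF0q0 ndF1q2a pcF3 Cut.none Ext.none)

def k0_pm_023_a : ∃ t, chk3 f_pm_023_a t 1 1 1 = true :=
  ⟨(a (l 1) (b (a (a (l 1) (b (l 172369194119) (l 193307255703))) (a (b (l 16948680) (l 179885675175)) (l 17009048))) (a (b (l 1) (l 1)) (b (a (b (l 193844250311) (l 192233693447)) (b (l 17025240) (l 17038520))) (a (b (l 213708461751) (l 1)) (b (a (l 17017064) (l 17056648)) (a (l 236794065991) (b (l 17056256) (l 187938924967))))))))), by decide +kernel⟩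

theorem c_pm_023_a : CertF 0 536870912 0 536870912 335544320 67108864 true true false .up 0 2 3
    ndF0q0 ndF1q2a pcF3 Cut.none Ext.none :=
  certF0 (fam := true) (s1 := true) (s2 := false) (a := 0) (b := 2) (c := 3) (cn := .up) (n1 := ndF0q0) (n2 := ndF1q2a) (pc := pcF3) (cut := Cut.none) (xt := Ext.none) (P1 := 0) (W1 := 536870912) (P2 := 0) (W2 := 536870912) (P3 := 335544320) (W3 := 67108864)
    rfl k0_pm_023_a

noncomputable def f_pm_023_b : ℕ → ℕ → ℕ → ℕ → Bool := onCell 0 536870912 1610612736 536870912 335544320 67108864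
    (rowF 1 true true false .up 0 2 3 (qsf 0 536870912 1239849684 370763052 3) ndF0q0 ndF1q2b pcF3 Cut.none Ext.none)

def k0_pm_023_b : ∃ t, chk3 f_pm_023_b t 1 1 1 = true :=
  ⟨(b (a (b (a (b (a (l 17245984) (l 17170592)) (l 17295608)) (b (a (l 17096712) (l 17027080)) (a (l 17192648) (l 17125536)))) (a (b (l 17351976) (l 2)) (b (l 17220464) (l 17255952)))) (b (a (b (a (l 16965608) (l 48889055591)) (a (l 17060128) (l 17001824))) (a (b (l 252363259303) (l 16963224)) (l 259879429671))) (a (b (l 17091344) (l 17130680)) (b (a (l 17004824) (l 16968176)) (a (l 17037056) (l 16984448)))))) (a (b (b (a (l 2) (l 17266656)) (l 2)) (l 2)) (b (a (b (l 17152504) (l 17153472)) (b (l 17029344) (l 17082720))) (l 4)))), by decide +kernel⟩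

theorem c_pm_023_b : CertF 0 536870912 1239849684 370763052 335544320 67108864 true true false .up 0 2 3
    ndF0q0 ndF1q2b pcF3 Cut.none Ext.none :=
  certF1 (fam := true) (s1 := true) (s2 := false) (a := 0) (b := 2) (c := 3) (cn := .up) (n1 := ndF0q0) (n2 := ndF1q2b) (pc := pcF3) (cut := Cut.none) (xt := Ext.none) (P1 := 0) (W1 := 536870912) (P2 := 1239849684) (W2 := 370763052) (P3 := 335544320) (W3 := 67108864)
    rfl (fun _ => rfl) k0_pm_023_b

noncomputable def f_pm_033 : ℕ → ℕ → ℕ → ℕ → Bool := onCell 0 536870912 1610612736 536870912 335544320 67108864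
    (rowF 1 true true false .pnn 0 3 3 (qsf 0 536870912 1610612736 536870912 3) ndF0q0 ndF1q3 pcF3 Cut.none Ext.none)

def k0_pm_033 : ∃ t, chk3 f_pm_033 t 1 1 1 = true :=
  ⟨(a (b (b (a (b (l 383897546855) (l 17319712)) (b (l 1) (l 360275033191))) (a (b (l 17352488) (l 17369888)) (b (l 17205880) (l 17229696)))) (b (b (a (l 17367928) (l 17240008)) (l 4)) (l 4))) (b (b (l 1) (a (l 310345839943) (l 1))) (b (a (b (l 17102696) (l 17105688)) (b (l 1) (l 366180171447))) (l 4)))), by decide +kernel⟩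

theorem c_pm_033 : CertF 0 536870912 1610612736 536870912 335544320 67108864 true true false .pnn 0 3 3
    ndF0q0 ndF1q3 pcF3 Cut.none Ext.none :=
  certF1 (fam := true) (s1 := true) (s2 := false) (a := 0) (b := 3) (c := 3) (cn := .pnn) (n1 := ndF0q0) (n2 := ndF1q3) (pc := pcF3) (cut := Cut.none) (xt := Ext.none) (P1 := 0) (W1 := 536870912) (P2 := 1610612736) (W2 := 536870912) (P3 := 335544320) (W3 := 67108864)
    rfl (fun _ => rfl) k0_pm_033

noncomputable def cut_pm_101 : Cut := Cut.of [[⟨0, 1, 0, 67108864⟩, ⟨1, 0, 0, 67108864⟩, ⟨2, 1, 0, 67108864⟩]]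

noncomputable def f_pm_101 : ℕ → ℕ → ℕ → ℕ → Bool := onCell 536870912 536870912 0 536870912 335544320 67108864
    (rowF 2 true true false .npn 1 0 1 (qsf 536870912 536870912 0 536870912 1) ndF0q1 ndF1q0 pcF1 cut_pm_101 Ext.none)

def k0_pm_101 : ∃ t, chk3 f_pm_101 t 1 1 1 = true :=
  ⟨(a (l 3) (b (a (l 3) (b (a (l 3) (a (l 3) (a (l 3) (b (b (l 6) (l 3)) (l 3))))) (l 3))) (l 3))), by decide +kernel⟩

theorem c_pm_101 : CertF 536870912 536870912 0 536870912 335544320 67108864 true true false .npn 1 0 1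
    ndF0q1 ndF1q0 pcF1 cut_pm_101 Ext.none :=
  certF2 (fam := true) (s1 := true) (s2 := false) (a := 1) (b := 0) (c := 1) (cn := .npn) (n1 := ndF0q1) (n2 := ndF1q0) (pc := pcF1) (cut := cut_pm_101) (xt := Ext.none) (P1 := 536870912) (W1 := 536870912) (P2 := 0) (W2 := 536870912) (P3 := 335544320) (W3 := 67108864)
    rfl (fun _ => rfl) k0_pm_101

noncomputable def cut_pm_102 : Cut := Cut.of [[⟨0, 1, 0, 67108864⟩, ⟨1, 0, 0, 67108864⟩, ⟨2, 1, 0, 67108864⟩]]

noncomputable def f_pm_102 : ℕ → ℕ → ℕ → ℕ → Bool := onCell 536870912 536870912 1073741824 536870912 335544320 67108864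
    (rowF 1 true true false .npp 1 0 2 (qsf 536870912 536870912 0 536870912 2) ndF0q1 ndF1q0 pcF2 cut_pm_102 Ext.none)

def k0_pm_102 : ∃ t, chk3 f_pm_102 t 2 1 1 = true :=
  ⟨(b (b (b (a (l 3) (a (l 3) (b (l 3) (b (l 3) (b (l 3) (a (l 133849045175) (l 132238407879))))))) (a (b (b (l 3) (a (l 2) (a (l 16988320) (l 16981728)))) (a (l 2) (b (l 16973448) (l 16962456)))) (b (a (a (b (l 135459679479) (l 16977528)) (b (l 133849056871) (l 16974184))) (b (a (b (l 94120571559) (l 16977360)) (l 16974608)) (a (l 16971304) (l 16967888)))) (b (a (l 16966744) (l 16963792)) (a (l 16958984) (l 16959832)))))) (b (b (b (a (a (l 2) (l 16952832)) (a (l 16952712) (l 16955840))) (a (l 2) (a (l 16943792) (l 16951456)))) (a (l 2) (l 36071853671))) (a (l 2) (l 37145611655)))) (b (a (l 2) (b (l 17155496) (l 2))) (l 2))), by decide +kernel⟩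

def k1_pm_102 : ∃ t, chk3 f_pm_102 t 3 1 1 = true :=
  ⟨(b (b (b (a (a (b (l 3) (b (a (l 3) (b (l 3) (l 129554045751))) (a (b (l 136533373479) (l 16973152)) (b (l 16965856) (l 16962520))))) (b (b (l 3) (a (l 3) (b (l 3) (l 124185271143)))) (b (a (b (l 125795919607) (l 111300419719)) (b (l 112374149975) (l 16933664))) (a (l 16949528) (l 16930088))))) (a (b (a (b (l 3) (b (l 122574608967) (l 98415465479))) (b (b (l 3) (l 121500804231)) (b (a (l 120963967111) (l 16871488)) (l 16900128)))) (b (a (b (l 16910224) (l 16907672)) (l 16919784)) (a (l 16905704) (l 16876848)))) (b (a (b (a (l 121500738295) (a (l 121500719335) (l 6))) (b (a (l 16852512) (l 16832744)) (l 16842624))) (b (l 6) (a (b (l 6) (l 16818056)) (l 6)))) (a (b (l 16842552) (l 16862144)) (a (b (l 16823536) (l 16830344)) (a (l 16805344) (l 16790416))))))) (a (b (a (b (a (l 16967864) (l 16958456)) (l 16959048)) (b (l 17021048) (l 16936200))) (a (b (l 16956864) (l 16955648)) (l 16941080))) (a (b (a (l 16907512) (l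 16893768)) (l 16942432)) (a (b (l 16882608) (l 16908072)) (b (a (l 16842584) (l 16810632)) (l 16847176)))))) (a (b (b (a (l 16956656) (b (l 16955208) (l 16968368))) (l 17087144)) (l 17174688)) (b (a (b (l 17009520) (l 17030400)) (b (a (l 16936864) (b (l 16866608) (l 16881960))) (l 16944120))) (a (l 17103152) (l 17023656))))) (b (a (b (l 17081856) (l 17125776)) (b (a (l 17212344) (l 17171296)) (a (l 17308536) (l 17361896)))) (a (b (l 17149088) (l 2)) (b (a (l 17276832) (l 17308616)) (l 17223616))))), by decide +kernel⟩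

theorem s2_pm_102 : ∃ t, chk3 f_pm_102 t 1 1 1 = true := ex3_a k0_pm_102 k1_pm_102

theorem c_pm_102 : CertF 536870912 536870912 0 536870912 335544320 67108864 true true false .npp 1 0 2
    ndF0q1 ndF1q0 pcF2 cut_pm_102 Ext.none :=
  certF1 (fam := true) (s1 := true) (s2 := false) (a := 1) (b := 0) (c := 2) (cn := .npp) (n1 := ndF0q1) (n2 := ndF1q0) (pc := pcF2) (cut := cut_pm_102) (xt := Ext.none) (P1 := 536870912) (W1 := 536870912) (P2 := 0) (W2 := 536870912) (P3 := 335544320) (W3 := 67108864)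
    rfl (fun _ => rfl) s2_pm_102

noncomputable def f_pm_112 : ℕ → ℕ → ℕ → ℕ → Bool := onCell 536870912 536870912 1073741824 536870912 335544320 67108864
    (rowF 1 true true false .dn 1 1 2 (qsf 536870912 536870912 536870912 536870912 2) ndF0q1 ndF1q1 pcF2 Cut.none Ext.none)

def k0_pm_112 : ∃ t, chk3 f_pm_112 t 1 1 1 = true :=
  ⟨(a (b (b (b (a (l 3) (l 1)) (a (b (a (l 452213668647) (l 137607436327)) (a (b (l 17065144) (l 17087416)) (l 17071616))) (b (l 1) (a (l 17049648) (l 1))))) (b (b (b (a (a (l 17094712) (l 17050392)) (l 193844770039)) (a (b (l 17181840) (b (l 17102864) (b (l 17082776) (l 17082080)))) (l 17084784))) (a (l 17179176) (l 16960104))) (a (a (l 16969400) (l 16947824)) (l 16910224)))) (b (a (b (a (l 16892320) (l 16896120)) (a (l 16914968) (l 16918824))) (b (l 16858160) (l 16894504))) (a (a (b (l 17003416) (a (l 17123048) (l 17121848))) (b (l 16998176) (l 17102304))) (b (l 17069320) (l 17273792))))) (b (b (l 1) (a (b (l 1) (l 329136254295)) (l 1))) (b (a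 (b (l 17128904) (l 16968304)) (b (l 1) (a (l 16999728) (l 1)))) (a (b (l 16969536) (l 17075040)) (b (a (l 17017752) (l 17159056)) (l 17177240)))))), by decide +kernel⟩

theorem c_pm_112 : CertF 536870912 536870912 536870912 536870912 335544320 67108864 true true false .dn 1 1 2
    ndF0q1 ndF1q1 pcF2 Cut.none Ext.none :=
  certF1 (fam := true) (s1 := true) (s2 := false) (a := 1) (b := 1) (c := 2) (cn := .dn) (n1 := ndF0q1) (n2 := ndF1q1) (pc := pcF2) (cut := Cut.none) (xt := Ext.none) (P1 := 536870912) (W1 := 536870912) (P2 := 536870912) (W2 := 536870912) (P3 := 335544320) (W3 := 67108864)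
    rfl (fun _ => rfl) k0_pm_112

noncomputable def f_pm_113 : ℕ → ℕ → ℕ → ℕ → Bool := onCell 536870912 536870912 1610612736 536870912 335544320 67108864
    (rowF 1 true true false .nn 1 1 3 (qsf 536870912 536870912 536870912 536870912 3) ndF0q1 ndF1q1 pcF3 Cut.none Ext.none)

def k0_pm_113 : ∃ t, chk3 f_pm_113 t 1 1 1 = true :=
  ⟨(b (a (b (a (a (b (l 17320560) (l 333499331991)) (b (l 17247496) (l 17367208))) (a (l 17215376) (l 17139184))) (a (a (l 2) (b (l 17478592) (l 2))) (a (b (l 17373312) (l 17471512)) (l 17302072)))) (b (a (l 17352544) (l 17168032)) (a (a (l 17189552) (l 17102128)) (a (l 17074408) (l 17092032))))) (b (a (a (l 2) (b (a (l 2) (l 17428384)) (l 2))) (a (b (l 17211496) (a (l 17346712) (l 17184864))) (b (l 17017880) (l 16989024)))) (a (l 2) (a (b (a (l 2) (l 237935885991)) (l 2)) (b (l 17004992) (b (l 17049296) (l 4))))))), by decide +kernel⟩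

theorem c_pm_113 : CertF 536870912 536870912 536870912 536870912 335544320 67108864 true true false .nn 1 1 3
    ndF0q1 ndF1q1 pcF3 Cut.none Ext.none :=
  certF1 (fam := true) (s1 := true) (s2 := false) (a := 1) (b := 1) (c := 3) (cn := .nn) (n1 := ndF0q1) (n2 := ndF1q1) (pc := pcF3) (cut := Cut.none) (xt := Ext.none) (P1 := 536870912) (W1 := 536870912) (P2 := 536870912) (W2 := 536870912) (P3 := 335544320) (W3 := 67108864)
    rfl (fun _ => rfl) k0_pm_113

noncomputable def cut_pm_123_a : Cut := Cut.of [[⟨0, 1, 0, 67108864⟩, ⟨1, 1, 0, 67108864⟩, ⟨2, 2, 0, 16777216⟩]]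

noncomputable def f_pm_123_a : ℕ → ℕ → ℕ → ℕ → Bool := onCell 1610612736 536870912 0 536870912 335544320 67108864
    (rowF 2 true true false .npn 1 2 3 (qsf 536870912 536870912 0 536870912 3) ndF0q1 ndF1q2a pcF3 cut_pm_123_a Ext.none)

def k0_pm_123_a : ∃ t, chk3 f_pm_123_a t 2 1 1 = true :=
  ⟨(a (b (a (l 1) (b (l 1) (l 16999568))) (b (a (l 1) (b (l 17032680) (l 17186296))) (b (a (a (l 1) (l 17063616)) (a (l 17082656) (l 17089568))) (a (b (a (l 17058808) (l 17090312)) (b (a (l 17076472) (l 17105640)) (a (a (l 17079456) (l 17097664)) (c (l 17145752) (a (l 17080392) (l 17092528)))))) (b (a (l 17106472) (l 17110712)) (b (a (l 17119616) (l 17122528)) (a (a (l 17126968) (l 17130424)) (a (l 17131360) (l 17130024))))))))) (b (a (b (l 16974776) (l 17005888)) (b (l 16956568) (l 16986088))) (b (a (b (l 17035256) (l 17079848)) (b (l 17011808) (l 17031384))) (b (a (a (l 17086672) (l 17076864)) (a (l 17061320) (l 17041024))) (a (b (a (l 17106192) (l 17094808)) (a (a (l 17122888)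 (l 17118064)) (b (l 17104408) (l 17111008)))) (a (a (l 17088136) (l 17077656)) (l 17101616))))))), by decide +kernel⟩

def k1_pm_123_a : ∃ t, chk3 f_pm_123_a t 3 1 1 = true :=
  ⟨(a (b (a (b (a (l 16933464) (l 16914064)) (l 16991976)) (b (a (l 16891496) (l 16866808)) (a (l 16915440) (l 16889296)))) (b (a (a (l 16991504) (l 16967328)) (b (l 16920584) (l 16932944))) (a (a (b (l 17016808) (l 17032192)) (b (l 16989624) (l 17022664))) (b (a (l 16960288) (l 16971176)) (a (l 16968920) (l 16935520)))))) (a (b (a (b (l 16841336) (l 16861640)) (b (l 16881000) (l 16833648))) (b (a (l 16882248) (l 17019032)) (b (a (l 16897288) (l 16865224)) (b (a (l 16923344) (l 16869616)) (a (l 16900360) (l 16865672)))))) (a (b (a (b (l 16813424) (l 16814072)) (b (l 198877405703) (l 16836640))) (b (b (l 16816592) (l 16971112)) (b (a (l 16840664) (l 16845304)) (b (a (l 16865616) (l 16827024)) (a (l 16839856) (b (l 16825248) (l 16820208))))))) (b (a (b (l 4) (l 16939168)) (l 4)) (a (b (a (l 16947312)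 (l 16956800)) (b (b (l 16805048) (l 16808528)) (b (a (l 16813736) (l 16804568)) (b (a (l 16812736) (l 16803768)) (a (l 16807408) (l 16820000)))))) (b (a (b (l 16778976) (l 16825216)) (a (l 107072492935) (l 4))) (a (a (b (l 16794856) (b (l 16797392) (b (l 16796800) (l 16792864)))) (b (b (l 16790408) (l 16791360)) (l 6))) (b (a (l 16887128) (b (l 4) (l 6))) (l 6))))))))), by decide +kernel⟩

theorem s2_pm_123_a : ∃ t, chk3 f_pm_123_a t 1 1 1 = true := ex3_a k0_pm_123_a k1_pm_123_a

theorem c_pm_123_a : CertF 536870912 536870912 0 536870912 335544320 67108864 true true false .npn 1 2 3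
    ndF0q1 ndF1q2a pcF3 cut_pm_123_a Ext.none :=
  certF2 (fam := true) (s1 := true) (s2 := false) (a := 1) (b := 2) (c := 3) (cn := .npn) (n1 := ndF0q1) (n2 := ndF1q2a) (pc := pcF3) (cut := cut_pm_123_a) (xt := Ext.none) (P1 := 536870912) (W1 := 536870912) (P2 := 0) (W2 := 536870912) (P3 := 335544320) (W3 := 67108864)
    rfl (fun _ => rfl) s2_pm_123_a

noncomputable def cut_pm_123_b : Cut := Cut.of [[⟨0, 1, 0, 67108864⟩, ⟨1, 1, 0, 67108864⟩, ⟨2, 2, 0, 16777216⟩]]

noncomputable def f_pm_123_b : ℕ → ℕ → ℕ → ℕ → Bool := onCell 536870912 536870912 1610612736 536870912 335544320 67108864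
    (rowF 1 true true false .npn 1 2 3 (qsf 536870912 536870912 1239849684 370763052 3) ndF0q1 ndF1q2b pcF3 cut_pm_123_b Ext.none)

def k0_pm_123_b : ∃ t, chk3 f_pm_123_b t 1 1 1 = true :=
  ⟨(b (a (b (l 1) (a (a (b (l 253973863479) (l 258268992807)) (b (l 1) (l 265784984535))) (l 1))) (l 1)) (b (a (a (b (a (l 16951480) (l 295313054583)) (a (l 16965008) (l 16918504))) (b (a (b (l 229277714103) (l 263637479927)) (l 1)) (a (b (l 16884144) (l 16878552)) (b (l 253436816583) (l 215318996423))))) (l 1)) (a (b (a (a (l 16963520) (l 16921792)) (a (b (l 16886576) (l 16901832)) (b (l 275985395367) (l 17000184)))) (l 4)) (a (b (a (b (l 330746124535) (l 341483842487)) (l 1)) (b (b (a (l 256121044999) (l 1)) (a (l 4) (a (l 4) (l 1)))) (l 4))) (l 1))))), by decide +kernel⟩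

theorem c_pm_123_b : CertF 536870912 536870912 1239849684 370763052 335544320 67108864 true true false .npn 1 2 3
    ndF0q1 ndF1q2b pcF3 cut_pm_123_b Ext.none :=
  certF1 (fam := true) (s1 := true) (s2 := false) (a := 1) (b := 2) (c := 3) (cn := .npn) (n1 := ndF0q1) (n2 := ndF1q2b) (pc := pcF3) (cut := cut_pm_123_b) (xt := Ext.none) (P1 := 536870912) (W1 := 536870912) (P2 := 1239849684) (W2 := 370763052) (P3 := 335544320) (W3 := 67108864)
    rfl (fun _ => rfl) k0_pm_123_b

noncomputable def f_pm_133 : ℕ → ℕ → ℕ → ℕ → Bool := onCell 536870912 536870912 1610612736 536870912 335544320 67108864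
    (rowF 0 true true false .dn 1 3 3 (qsf 536870912 536870912 1610612736 536870912 3) ndF0q1 ndF1q3 pcF3 Cut.none Ext.none)

def k0_pm_133 : ∃ t, chk3 f_pm_133 t 1 1 1 = true :=
  ⟨(l 4), by decide +kernel⟩

theorem c_pm_133 : CertF 536870912 536870912 1610612736 536870912 335544320 67108864 true true false .dn 1 3 3
    ndF0q1 ndF1q3 pcF3 Cut.none Ext.none :=
  certF0 (fam := true) (s1 := true) (s2 := false) (a := 1) (b := 3) (c := 3) (cn := .dn) (n1 := ndF0q1) (n2 := ndF1q3) (pc := pcF3) (cut := Cut.none) (xt := Ext.none) (P1 := 536870912) (W1 := 536870912) (P2 := 1610612736) (W2 := 536870912) (P3 := 335544320) (W3 := 67108864)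
    rfl k0_pm_133

noncomputable def cut_pm_202 : Cut := Cut.of [[⟨0, 1, 0, 67108864⟩, ⟨1, 0, 0, 67108864⟩, ⟨2, 1, 0, 67108864⟩]]

noncomputable def f_pm_202 : ℕ → ℕ → ℕ → ℕ → Bool := onCell 0 536870912 0 536870912 335544320 67108864
    (rowF 0 true true false .pp 2 0 2 (qsf 0 536870912 0 536870912 2) ndF0q2 ndF1q0 pcF2 cut_pm_202 Ext.none)

def k0_pm_202 : ∃ t, chk3 f_pm_202 t 2 1 1 = true :=
  ⟨(b (b (b (a (b (a (b (l 16496496) (l 16529144)) (b (l 16518936) (a (l 16535944) (l 16529104)))) (a (l 16603872) (b (l 16588872) (l 16642232)))) (b (a (b (l 16578272) (l 16519976)) (b (b (l 16612432) (l 16529368)) (l 16518848))) (a (l 16601400) (l 16584776)))) (a (b (a (l 16699776) (l 16719056)) (l 16804080)) (b (a (l 16722136) (l 16687312)) (a (l 16832128) (l 16803240))))) (a (b (l 16927024) (l 17053648)) (b (b (l 17072152) (l 17023528)) (l 17146416)))) (b (a (b (l 17126608) (l 17085656)) (b (l 17280216) (l 17225152))) (b (a (l 2) (l 17113160)) (l 2)))), by decide +kernel⟩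

def k1_pm_202 : ∃ t, chk3 f_pm_202 t 3 1 1 = true :=
  ⟨(b (a (b (b (b (a (b (a (b (l 16583080) (l 16565104)) (b (l 16606064) (l 16589512))) (l 16570616)) (b (b (a (b (l 16654080) (l 16625800)) (b (a (l 16649904) (l 16659792)) (l 16648272))) (a (l 16614320) (l 16637872))) (l 16706128))) (a (l 16584192) (l 16624624))) (b (a (l 16664840) (l 16660272)) (a (l 16761208) (l 16733800)))) (b (b (l 16845336) (a (l 16990864) (l 16926856))) (a (l 17177712) (l 17101160)))) (b (b (a (b (b (b (b (a (a (l 16668456) (l 16678264)) (l 6)) (a (l 16667072) (l 16709424))) (a (l 16657496) (l 16699088))) (b (l 16707400) (l 16685728))) (a (l 16658120) (l 16662016))) (b (a (b (l 6) (a (l 16697712) (l 6))) (l 6)) (a (b (l 16713304) (l 16718960)) (a (l 16749000) (l 16771520))))) (a (a (l 16698640) (b (l 16695792) (a (l 16732136) (l 16887768)))) (a (b (l 16730792) (b (l 16747272) (l 16848728))) (b (l 16772384) (l 16791312))))) (b (a (l 16834712) (b (a (l 16798312) (b (l 16936672) (l 16828320))) (l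 16860856))) (a (b (l 16975752) (l 17085440)) (b (l 16935040) (l 17024744)))))) (b (a (b (a (l 17385912) (l 17377880)) (a (l 17304328) (l 17335624))) (b (a (l 17273832) (b (l 17130856) (l 17248072))) (a (l 17359072) (l 17454176)))) (a (b (l 17238464) (l 2)) (b (a (l 17298328) (l 17310784)) (l 17373360))))), by decide +kernel⟩

theorem s2_pm_202 : ∃ t, chk3 f_pm_202 t 1 1 1 = true := ex3_a k0_pm_202 k1_pm_202

theorem c_pm_202 : CertF 0 536870912 0 536870912 335544320 67108864 true true false .pp 2 0 2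
    ndF0q2 ndF1q0 pcF2 cut_pm_202 Ext.none :=
  certF0 (fam := true) (s1 := true) (s2 := false) (a := 2) (b := 0) (c := 2) (cn := .pp) (n1 := ndF0q2) (n2 := ndF1q0) (pc := pcF2) (cut := cut_pm_202) (xt := Ext.none) (P1 := 0) (W1 := 536870912) (P2 := 0) (W2 := 536870912) (P3 := 335544320) (W3 := 67108864)
    rfl s2_pm_202

noncomputable def f_pm_203 : ℕ → ℕ → ℕ → ℕ → Bool := onCell 0 536870912 1610612736 536870912 335544320 67108864
    (rowF 1 true true false .up 2 0 3 (qsf 0 536870912 0 536870912 3) ndF0q2 ndF1q0 pcF3 Cut.none Ext.none)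

def k0_pm_203 : ∃ t, chk3 f_pm_203 t 1 1 1 = true :=
  ⟨(b (b (a (b (l 17266616) (l 17154576)) (a (l 17089488) (l 17150896))) (a (a (l 4) (l 16972432)) (b (l 17172640) (l 2)))) (l 2)), by decide +kernel⟩

theorem c_pm_203 : CertF 0 536870912 0 536870912 335544320 67108864 true true false .up 2 0 3
    ndF0q2 ndF1q0 pcF3 Cut.none Ext.none :=
  certF1 (fam := true) (s1 := true) (s2 := false) (a := 2) (b := 0) (c := 3) (cn := .up) (n1 := ndF0q2) (n2 := ndF1q0) (pc := pcF3) (cut := Cut.none) (xt := Ext.none) (P1 := 0) (W1 := 536870912) (P2 := 0) (W2 := 536870912) (P3 := 335544320) (W3 := 67108864)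
    rfl (fun _ => rfl) k0_pm_203

noncomputable def f_pm_213 : ℕ → ℕ → ℕ → ℕ → Bool := onCell 0 536870912 1610612736 536870912 335544320 67108864
    (rowF 1 true true false .pnn 2 1 3 (qsf 0 536870912 536870912 536870912 3) ndF0q2 ndF1q1 pcF3 Cut.none Ext.none)

def k0_pm_213 : ∃ t, chk3 f_pm_213 t 1 1 1 = true :=
  ⟨(a (b (b (b (l 1) (l 306587578871)) (b (l 17090520) (l 4))) (l 4)) (b (b (a (l 16984808) (l 17045144)) (a (l 16990032) (b (l 17063808) (l 17051904)))) (b (b (l 31911184151) (l 67344550455)) (l 4)))), by decide +kernel⟩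

theorem c_pm_213 : CertF 0 536870912 536870912 536870912 335544320 67108864 true true false .pnn 2 1 3
    ndF0q2 ndF1q1 pcF3 Cut.none Ext.none :=
  certF1 (fam := true) (s1 := true) (s2 := false) (a := 2) (b := 1) (c := 3) (cn := .pnn) (n1 := ndF0q2) (n2 := ndF1q1) (pc := pcF3) (cut := Cut.none) (xt := Ext.none) (P1 := 0) (W1 := 536870912) (P2 := 536870912) (W2 := 536870912) (P3 := 335544320) (W3 := 67108864)
    rfl (fun _ => rfl) k0_pm_213

noncomputable def f_mm_001 : ℕ → ℕ → ℕ → ℕ → Bool := onCell 0 536870912 0 536870912 335544320 67108864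
    (rowF 0 true false false .up 0 0 1 (qsf 0 536870912 0 536870912 1) ndF0q0 ndF1q0 pcF1 Cut.none Ext.none)

def k0_mm_001 : ∃ t, chk3 f_mm_001 t 1 1 1 = true :=
  ⟨(l 4), by decide +kernel⟩

theorem c_mm_001 : CertF 0 536870912 0 536870912 335544320 67108864 true false false .up 0 0 1
    ndF0q0 ndF1q0 pcF1 Cut.none Ext.none :=
  certF0 (fam := true) (s1 := false) (s2 := false) (a := 0) (b := 0) (c := 1) (cn := .up) (n1 := ndF0q0) (n2 := ndF1q0) (pc := pcF1) (cut := Cut.none) (xt := Ext.none) (P1 := 0) (W1 := 536870912) (P2 := 0) (W2 := 536870912) (P3 := 335544320) (W3 := 67108864)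
    rfl k0_mm_001

noncomputable def f_mm_011 : ℕ → ℕ → ℕ → ℕ → Bool := onCell 0 536870912 536870912 536870912 335544320 67108864
    (rowF 0 true false false .pnn 0 1 1 (qsf 0 536870912 536870912 536870912 1) ndF0q0 ndF1q1 pcF1 Cut.none Ext.none)

def k0_mm_011 : ∃ t, chk3 f_mm_011 t 1 1 1 = true :=
  ⟨(l 4), by decide +kernel⟩

theorem c_mm_011 : CertF 0 536870912 536870912 536870912 335544320 67108864 true false false .pnn 0 1 1
    ndF0q0 ndF1q1 pcF1 Cut.none Ext.none :=
  certF0 (fam := true) (s1 := false) (s2 := false) (a := 0) (b := 1) (c := 1) (cn := .pnn) (n1 := ndF0q0) (n2 := ndF1q1) (pc := pcF1) (cut := Cut.none) (xt := Ext.none) (P1 := 0) (W1 := 536870912) (P2 := 536870912) (W2 := 536870912) (P3 := 335544320) (W3 := 67108864)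
    rfl k0_mm_011

noncomputable def f_mm_012 : ℕ → ℕ → ℕ → ℕ → Bool := onCell 0 536870912 536870912 536870912 335544320 67108864
    (rowF 0 true false false .pnp 0 1 2 (qsf 0 536870912 536870912 536870912 2) ndF0q0 ndF1q1 pcF2 Cut.none Ext.none)

def k0_mm_012 : ∃ t, chk3 f_mm_012 t 1 1 1 = true :=
  ⟨(l 4), by decide +kernel⟩

theorem c_mm_012 : CertF 0 536870912 536870912 536870912 335544320 67108864 true false false .pnp 0 1 2
    ndF0q0 ndF1q1 pcF2 Cut.none Ext.none :=
  certF0 (fam := true) (s1 := false) (s2 := false) (a := 0) (b := 1) (c := 2) (cn := .pnp) (n1 := ndF0q0) (n2 := ndF1q1) (pc := pcF2) (cut := Cut.none) (xt := Ext.none) (P1 := 0) (W1 := 536870912) (P2 := 536870912) (W2 := 536870912) (P3 := 335544320) (W3 := 67108864)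
    rfl k0_mm_012

noncomputable def f_mm_022_a : ℕ → ℕ → ℕ → ℕ → Bool := onCell 0 536870912 0 536870912 335544320 67108864
    (rowF 0 true false false .pp 0 2 2 (qsf 0 536870912 0 536870912 2) ndF0q0 ndF1q2a pcF2 Cut.none Ext.none)

def k0_mm_022_a : ∃ t, chk3 f_mm_022_a t 1 1 1 = true :=
  ⟨(l 5), by decide +kernel⟩

theorem c_mm_022_a : CertF 0 536870912 0 536870912 335544320 67108864 true false false .pp 0 2 2
    ndF0q0 ndF1q2a pcF2 Cut.none Ext.none :=
  certF0 (fam := true) (s1 := false) (s2 := false) (a := 0) (b := 2) (c := 2) (cn := .pp) (n1 := ndF0q0) (n2 := ndF1q2a) (pc := pcF2) (cut := Cut.none) (xt := Ext.none) (P1 := 0) (W1 := 536870912) (P2 := 0) (W2 := 536870912) (P3 := 335544320) (W3 := 67108864)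
    rfl k0_mm_022_a

noncomputable def f_mm_022_b : ℕ → ℕ → ℕ → ℕ → Bool := onCell 0 536870912 1239849684 370763052 335544320 67108864
    (rowF 0 true false false .pp 0 2 2 (qsf 0 536870912 1239849684 370763052 2) ndF0q0 ndF1q2b pcF2 Cut.none Ext.none)

def k0_mm_022_b : ∃ t, chk3 f_mm_022_b t 1 1 1 = true :=
  ⟨(l 5), by decide +kernel⟩

theorem c_mm_022_b : CertF 0 536870912 1239849684 370763052 335544320 67108864 true false false .pp 0 2 2
    ndF0q0 ndF1q2b pcF2 Cut.none Ext.none :=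
  certF0 (fam := true) (s1 := false) (s2 := false) (a := 0) (b := 2) (c := 2) (cn := .pp) (n1 := ndF0q0) (n2 := ndF1q2b) (pc := pcF2) (cut := Cut.none) (xt := Ext.none) (P1 := 0) (W1 := 536870912) (P2 := 1239849684) (W2 := 370763052) (P3 := 335544320) (W3 := 67108864)
    rfl k0_mm_022_b

noncomputable def f_mm_023_a : ℕ → ℕ → ℕ → ℕ → Bool := onCell 0 536870912 0 536870912 335544320 67108864
    (rowF 0 true false false .up 0 2 3 (qsf 0 536870912 0 536870912 3) ndF0q0 ndF1q2a pcF3 Cut.none Ext.none)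

def k0_mm_023_a : ∃ t, chk3 f_mm_023_a t 1 1 1 = true :=
  ⟨(l 5), by decide +kernel⟩

theorem c_mm_023_a : CertF 0 536870912 0 536870912 335544320 67108864 true false false .up 0 2 3
    ndF0q0 ndF1q2a pcF3 Cut.none Ext.none :=
  certF0 (fam := true) (s1 := false) (s2 := false) (a := 0) (b := 2) (c := 3) (cn := .up) (n1 := ndF0q0) (n2 := ndF1q2a) (pc := pcF3) (cut := Cut.none) (xt := Ext.none) (P1 := 0) (W1 := 536870912) (P2 := 0) (W2 := 536870912) (P3 := 335544320) (W3 := 67108864)
    rfl k0_mm_023_a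

noncomputable def f_mm_023_b : ℕ → ℕ → ℕ → ℕ → Bool := onCell 0 536870912 1239849684 370763052 335544320 67108864
    (rowF 0 true false false .up 0 2 3 (qsf 0 536870912 1239849684 370763052 3) ndF0q0 ndF1q2b pcF3 Cut.none Ext.none)

def k0_mm_023_b : ∃ t, chk3 f_mm_023_b t 1 1 1 = true :=
  ⟨(l 5), by decide +kernel⟩

theorem c_mm_023_b : CertF 0 536870912 1239849684 370763052 335544320 67108864 true false false .up 0 2 3
    ndF0q0 ndF1q2b pcF3 Cut.none Ext.none :=
  certF0 (fam := true) (s1 := false) (s2 := false) (a := 0) (b := 2) (c := 3) (cn := .up) (n1 := ndF0q0) (n2 := ndF1q2b) (pc := pcF3) (cut := Cut.none) (xt := Ext.none) (P1 := 0) (W1 := 536870912) (P2 := 1239849684) (W2 := 370763052) (P3 := 335544320) (W3 := 67108864)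
    rfl k0_mm_023_b

noncomputable def f_mm_033 : ℕ → ℕ → ℕ → ℕ → Bool := onCell 0 536870912 1610612736 536870912 335544320 67108864
    (rowF 0 true false false .pnn 0 3 3 (qsf 0 536870912 1610612736 536870912 3) ndF0q0 ndF1q3 pcF3 Cut.none Ext.none)

def k0_mm_033 : ∃ t, chk3 f_mm_033 t 1 1 1 = true :=
  ⟨(l 5), by decide +kernel⟩

theorem c_mm_033 : CertF 0 536870912 1610612736 536870912 335544320 67108864 true false false .pnn 0 3 3
    ndF0q0 ndF1q3 pcF3 Cut.none Ext.none :=
  certF0 (fam := true) (s1 := false) (s2 := false) (a := 0) (b := 3) (c := 3) (cn := .pnn) (n1 := ndF0q0) (n2 := ndF1q3) (pc := pcF3) (cut := Cut.none) (xt := Ext.none) (P1 := 0) (W1 := 536870912) (P2 := 1610612736) (W2 := 536870912) (P3 := 335544320) (W3 := 67108864)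
    rfl k0_mm_033

noncomputable def cut_mm_101 : Cut := Cut.of [[⟨0, 1, 0, 67108864⟩, ⟨1, 0, 0, 67108864⟩, ⟨2, 1, 0, 67108864⟩]]

noncomputable def f_mm_101 : ℕ → ℕ → ℕ → ℕ → Bool := onCell 536870912 536870912 0 536870912 335544320 67108864
    (rowF 0 true false false .npn 1 0 1 (qsf 536870912 536870912 0 536870912 1) ndF0q1 ndF1q0 pcF1 cut_mm_101 Ext.none)

def k0_mm_101 : ∃ t, chk3 f_mm_101 t 1 1 1 = true :=
  ⟨(a (l 4) (b (a (l 4) (b (a (l 4) (b (a (l 4) (b (l 6) (l 4))) (l 4))) (l 4))) (l 4))), by decide +kernel⟩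

theorem c_mm_101 : CertF 536870912 536870912 0 536870912 335544320 67108864 true false false .npn 1 0 1
    ndF0q1 ndF1q0 pcF1 cut_mm_101 Ext.none :=
  certF0 (fam := true) (s1 := false) (s2 := false) (a := 1) (b := 0) (c := 1) (cn := .npn) (n1 := ndF0q1) (n2 := ndF1q0) (pc := pcF1) (cut := cut_mm_101) (xt := Ext.none) (P1 := 536870912) (W1 := 536870912) (P2 := 0) (W2 := 536870912) (P3 := 335544320) (W3 := 67108864)
    rfl k0_mm_101

noncomputable def cut_mm_102 : Cut := Cut.of [[⟨0, 1, 0, 67108864⟩, ⟨1, 0, 0, 67108864⟩, ⟨2, 1, 0, 67108864⟩]]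

noncomputable def f_mm_102 : ℕ → ℕ → ℕ → ℕ → Bool := onCell 536870912 536870912 0 536870912 335544320 67108864
    (rowF 0 true false false .npp 1 0 2 (qsf 536870912 536870912 0 536870912 2) ndF0q1 ndF1q0 pcF2 cut_mm_102 Ext.none)

def k0_mm_102 : ∃ t, chk3 f_mm_102 t 1 1 1 = true :=
  ⟨(a (l 4) (b (a (l 4) (b (a (l 4) (a (l 4) (b (b (l 6) (l 4)) (l 4)))) (l 4))) (l 4))), by decide +kernel⟩

theorem c_mm_102 : CertF 536870912 536870912 0 536870912 335544320 67108864 true false false .npp 1 0 2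
    ndF0q1 ndF1q0 pcF2 cut_mm_102 Ext.none :=
  certF0 (fam := true) (s1 := false) (s2 := false) (a := 1) (b := 0) (c := 2) (cn := .npp) (n1 := ndF0q1) (n2 := ndF1q0) (pc := pcF2) (cut := cut_mm_102) (xt := Ext.none) (P1 := 536870912) (W1 := 536870912) (P2 := 0) (W2 := 536870912) (P3 := 335544320) (W3 := 67108864)
    rfl k0_mm_102

noncomputable def f_mm_112 : ℕ → ℕ → ℕ → ℕ → Bool := onCell 536870912 536870912 536870912 536870912 335544320 67108864
    (rowF 0 true false false .dn 1 1 2 (qsf 536870912 536870912 536870912 536870912 2) ndF0q1 ndF1q1 pcF2 Cut.none Ext.none)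

def k0_mm_112 : ∃ t, chk3 f_mm_112 t 1 1 1 = true :=
  ⟨(l 4), by decide +kernel⟩

theorem c_mm_112 : CertF 536870912 536870912 536870912 536870912 335544320 67108864 true false false .dn 1 1 2
    ndF0q1 ndF1q1 pcF2 Cut.none Ext.none :=
  certF0 (fam := true) (s1 := false) (s2 := false) (a := 1) (b := 1) (c := 2) (cn := .dn) (n1 := ndF0q1) (n2 := ndF1q1) (pc := pcF2) (cut := Cut.none) (xt := Ext.none) (P1 := 536870912) (W1 := 536870912) (P2 := 536870912) (W2 := 536870912) (P3 := 335544320) (W3 := 67108864)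
    rfl k0_mm_112

noncomputable def f_mm_113 : ℕ → ℕ → ℕ → ℕ → Bool := onCell 536870912 536870912 536870912 536870912 335544320 67108864
    (rowF 0 true false false .nn 1 1 3 (qsf 536870912 536870912 536870912 536870912 3) ndF0q1 ndF1q1 pcF3 Cut.none Ext.none)

def k0_mm_113 : ∃ t, chk3 f_mm_113 t 1 1 1 = true :=
  ⟨(l 4), by decide +kernel⟩

theorem c_mm_113 : CertF 536870912 536870912 536870912 536870912 335544320 67108864 true false false .nn 1 1 3
    ndF0q1 ndF1q1 pcF3 Cut.none Ext.none :=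
  certF0 (fam := true) (s1 := false) (s2 := false) (a := 1) (b := 1) (c := 3) (cn := .nn) (n1 := ndF0q1) (n2 := ndF1q1) (pc := pcF3) (cut := Cut.none) (xt := Ext.none) (P1 := 536870912) (W1 := 536870912) (P2 := 536870912) (W2 := 536870912) (P3 := 335544320) (W3 := 67108864)
    rfl k0_mm_113

noncomputable def f_mm_123_a : ℕ → ℕ → ℕ → ℕ → Bool := onCell 536870912 536870912 0 536870912 335544320 67108864
    (rowF 0 true false false .npn 1 2 3 (qsf 536870912 536870912 0 536870912 3) ndF0q1 ndF1q2a pcF3 Cut.none Ext.none)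

def k0_mm_123_a : ∃ t, chk3 f_mm_123_a t 1 1 1 = true :=
  ⟨(l 4), by decide +kernel⟩

theorem c_mm_123_a : CertF 536870912 536870912 0 536870912 335544320 67108864 true false false .npn 1 2 3
    ndF0q1 ndF1q2a pcF3 Cut.none Ext.none :=
  certF0 (fam := true) (s1 := false) (s2 := false) (a := 1) (b := 2) (c := 3) (cn := .npn) (n1 := ndF0q1) (n2 := ndF1q2a) (pc := pcF3) (cut := Cut.none) (xt := Ext.none) (P1 := 536870912) (W1 := 536870912) (P2 := 0) (W2 := 536870912) (P3 := 335544320) (W3 := 67108864)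
    rfl k0_mm_123_a

noncomputable def f_mm_123_b : ℕ → ℕ → ℕ → ℕ → Bool := onCell 536870912 536870912 1239849684 370763052 335544320 67108864
    (rowF 0 true false false .npn 1 2 3 (qsf 536870912 536870912 1239849684 370763052 3) ndF0q1 ndF1q2b pcF3 Cut.none Ext.none)

def k0_mm_123_b : ∃ t, chk3 f_mm_123_b t 1 1 1 = true :=
  ⟨(l 4), by decide +kernel⟩

theorem c_mm_123_b : CertF 536870912 536870912 1239849684 370763052 335544320 67108864 true false false .npn 1 2 3
    ndF0q1 ndF1q2b pcF3 Cut.none Ext.none :=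
  certF0 (fam := true) (s1 := false) (s2 := false) (a := 1) (b := 2) (c := 3) (cn := .npn) (n1 := ndF0q1) (n2 := ndF1q2b) (pc := pcF3) (cut := Cut.none) (xt := Ext.none) (P1 := 536870912) (W1 := 536870912) (P2 := 1239849684) (W2 := 370763052) (P3 := 335544320) (W3 := 67108864)
    rfl k0_mm_123_b

noncomputable def f_mm_133 : ℕ → ℕ → ℕ → ℕ → Bool := onCell 536870912 536870912 1610612736 536870912 335544320 67108864
    (rowF 0 true false false .dn 1 3 3 (qsf 536870912 536870912 1610612736 536870912 3) ndF0q1 ndF1q3 pcF3 Cut.none Ext.none)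

def k0_mm_133 : ∃ t, chk3 f_mm_133 t 1 1 1 = true :=
  ⟨(l 4), by decide +kernel⟩

theorem c_mm_133 : CertF 536870912 536870912 1610612736 536870912 335544320 67108864 true false false .dn 1 3 3
    ndF0q1 ndF1q3 pcF3 Cut.none Ext.none :=
  certF0 (fam := true) (s1 := false) (s2 := false) (a := 1) (b := 3) (c := 3) (cn := .dn) (n1 := ndF0q1) (n2 := ndF1q3) (pc := pcF3) (cut := Cut.none) (xt := Ext.none) (P1 := 536870912) (W1 := 536870912) (P2 := 1610612736) (W2 := 536870912) (P3 := 335544320) (W3 := 67108864)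
    rfl k0_mm_133

noncomputable def cut_mm_202 : Cut := Cut.of [[⟨0, 1, 0, 67108864⟩, ⟨1, 0, 0, 67108864⟩, ⟨2, 1, 0, 67108864⟩]]

noncomputable def f_mm_202 : ℕ → ℕ → ℕ → ℕ → Bool := onCell 0 536870912 0 536870912 335544320 67108864
    (rowF 0 true false false .pp 2 0 2 (qsf 0 536870912 0 536870912 2) ndF0q2 ndF1q0 pcF2 cut_mm_202 Ext.none)

def k0_mm_202 : ∃ t, chk3 f_mm_202 t 1 1 1 = true :=
  ⟨(b (a (b (a (b (b (a (l 16495008) (l 16551744)) (a (l 16591448) (l 16582256))) (a (l 16728016) (l 16714344))) (b (b (a (b (l 16551968) (l 16512232)) (b (b (l 16600360) (l 16527904)) (l 16534584))) (a (l 16580272) (l 16592664))) (b (a (l 16667096) (l 16677264)) (l 16750968)))) (a (b (l 16870776) (l 16972000)) (b (b (l 16819416) (l 16874168)) (a (l 16935192) (l 4))))) (b (a (b (b (a (b (b (a (l 16591560) (l 16614064)) (l 16637808)) (l 16605760)) (b (a (b (b (l 16637496) (l 16634448)) (l 16629856)) (b (b (a (l 16653760) (l 16664976)) (l 16656736)) (l 16652672))) (b (l 16677816)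 (l 16651072)))) (a (l 16623288) (b (l 16655576) (l 16738840)))) (b (a (l 16705840) (a (l 16739848) (l 16763576))) (a (l 16777992) (l 16828384)))) (b (a (b (b (a (b (b (a (l 16697448) (a (l 16685288) (l 16691288))) (l 16701032)) (l 16697408)) (b (b (l 6) (a (l 16698304) (l 6))) (b (l 16723544) (l 16700400)))) (a (l 16690056) (a (l 16699384) (l 16700848)))) (b (a (l 16709176) (b (l 16760360) (l 16754984))) (a (l 16745656) (l 16773344)))) (b (a (b (l 6) (a (b (l 6) (l 16752712)) (l 6))) (l 6)) (a (b (l 4) (l 4)) (l 4)))) (a (b (a (l 16785496) (l 4)) (l 4)) (l 4)))) (a (b (b (l 42111448535) (l 4)) (l 4)) (l 4)))) (a (b (a (b (l 17017456) (l 16926304)) (l 4)) (l 4)) (l 4))), by decide +kernel⟩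

theorem c_mm_202 : CertF 0 536870912 0 536870912 335544320 67108864 true false false .pp 2 0 2
    ndF0q2 ndF1q0 pcF2 cut_mm_202 Ext.none :=
  certF0 (fam := true) (s1 := false) (s2 := false) (a := 2) (b := 0) (c := 2) (cn := .pp) (n1 := ndF0q2) (n2 := ndF1q0) (pc := pcF2) (cut := cut_mm_202) (xt := Ext.none) (P1 := 0) (W1 := 536870912) (P2 := 0) (W2 := 536870912) (P3 := 335544320) (W3 := 67108864)
    rfl k0_mm_202

noncomputable def f_mm_203 : ℕ → ℕ → ℕ → ℕ → Bool := onCell 0 536870912 1610612736 536870912 335544320 67108864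
    (rowF 1 true false false .up 2 0 3 (qsf 0 536870912 0 536870912 3) ndF0q2 ndF1q0 pcF3 Cut.none Ext.none)

def k0_mm_203 : ∃ t, chk3 f_mm_203 t 1 1 1 = true :=
  ⟨(b (a (l 4) (l 4)) (l 2)), by decide +kernel⟩

theorem c_mm_203 : CertF 0 536870912 0 536870912 335544320 67108864 true false false .up 2 0 3
    ndF0q2 ndF1q0 pcF3 Cut.none Ext.none :=
  certF1 (fam := true) (s1 := false) (s2 := false) (a := 2) (b := 0) (c := 3) (cn := .up) (n1 := ndF0q2) (n2 := ndF1q0) (pc := pcF3) (cut := Cut.none) (xt := Ext.none) (P1 := 0) (W1 := 536870912) (P2 := 0) (W2 := 536870912) (P3 := 335544320) (W3 := 67108864)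
    rfl (fun _ => rfl) k0_mm_203

noncomputable def f_mm_213 : ℕ → ℕ → ℕ → ℕ → Bool := onCell 0 536870912 536870912 536870912 335544320 67108864
    (rowF 0 true false false .pnn 2 1 3 (qsf 0 536870912 536870912 536870912 3) ndF0q2 ndF1q1 pcF3 Cut.none Ext.none)

def k0_mm_213 : ∃ t, chk3 f_mm_213 t 1 1 1 = true :=
  ⟨(l 4), by decide +kernel⟩

theorem c_mm_213 : CertF 0 536870912 536870912 536870912 335544320 67108864 true false false .pnn 2 1 3
    ndF0q2 ndF1q1 pcF3 Cut.none Ext.none :=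
  certF0 (fam := true) (s1 := false) (s2 := false) (a := 2) (b := 1) (c := 3) (cn := .pnn) (n1 := ndF0q2) (n2 := ndF1q1) (pc := pcF3) (cut := Cut.none) (xt := Ext.none) (P1 := 0) (W1 := 536870912) (P2 := 536870912) (W2 := 536870912) (P3 := 335544320) (W3 := 67108864)
    rfl k0_mm_213

end Pool.Agent.Strip051.G.I5_16_3_8.Tab.C.FA01

namespace Pool.Agent.Strip051.G.I5_16_3_8.Tab.C.FA02

open Pool.Agent.Strip051.PB Pool.Agent.Strip051.PB.T
open Pool.Agent.Strip051.G.I5_16_3_8.Tab

noncomputable def f_pp_001 : ℕ → ℕ → ℕ → ℕ → Bool := onCell 0 536870912 0 536870912 335544320 67108864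
    (rowF 0 true true true .up 0 0 1 (qsf 0 536870912 0 536870912 1) ndF0q0 ndF2q0 pcF1 Cut.none Ext.none)

def k0_pp_001 : ∃ t, chk3 f_pp_001 t 1 1 1 = true :=
  ⟨(l 4), by decide +kernel⟩

theorem c_pp_001 : CertF 0 536870912 0 536870912 335544320 67108864 true true true .up 0 0 1
    ndF0q0 ndF2q0 pcF1 Cut.none Ext.none :=
  certF0 (fam := true) (s1 := true) (s2 := true) (a := 0) (b := 0) (c := 1) (cn := .up) (n1 := ndF0q0) (n2 := ndF2q0) (pc := pcF1) (cut := Cut.none) (xt := Ext.none) (P1 := 0) (W1 := 536870912) (P2 := 0) (W2 := 536870912) (P3 := 335544320) (W3 := 67108864)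
    rfl k0_pp_001

noncomputable def f_pp_011 : ℕ → ℕ → ℕ → ℕ → Bool := onCell 0 536870912 536870912 536870912 335544320 67108864
    (rowF 0 true true true .pnn 0 1 1 (qsf 0 536870912 536870912 536870912 1) ndF0q0 ndF2q1 pcF1 Cut.none Ext.none)

def k0_pp_011 : ∃ t, chk3 f_pp_011 t 1 1 1 = true :=
  ⟨(l 4), by decide +kernel⟩

theorem c_pp_011 : CertF 0 536870912 536870912 536870912 335544320 67108864 true true true .pnn 0 1 1
    ndF0q0 ndF2q1 pcF1 Cut.none Ext.none :=
  certF0 (fam := true) (s1 := true) (s2 := true) (a := 0) (b := 1) (c := 1) (cn := .pnn) (n1 := ndF0q0) (n2 := ndF2q1) (pc := pcF1) (cut := Cut.none) (xt := Ext.none) (P1 := 0) (W1 := 536870912) (P2 := 536870912) (W2 := 536870912) (P3 := 335544320) (W3 := 67108864)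
    rfl k0_pp_011

noncomputable def f_pp_012 : ℕ → ℕ → ℕ → ℕ → Bool := onCell 0 536870912 536870912 536870912 335544320 67108864
    (rowF 0 true true true .pnp 0 1 2 (qsf 0 536870912 536870912 536870912 2) ndF0q0 ndF2q1 pcF2 Cut.none Ext.none)

def k0_pp_012 : ∃ t, chk3 f_pp_012 t 1 1 1 = true :=
  ⟨(l 4), by decide +kernel⟩

theorem c_pp_012 : CertF 0 536870912 536870912 536870912 335544320 67108864 true true true .pnp 0 1 2
    ndF0q0 ndF2q1 pcF2 Cut.none Ext.none :=
  certF0 (fam := true) (s1 := true) (s2 := true) (a := 0) (b := 1) (c := 2) (cn := .pnp) (n1 := ndF0q0) (n2 := ndF2q1) (pc := pcF2) (cut := Cut.none) (xt := Ext.none) (P1 := 0) (W1 := 536870912) (P2 := 536870912) (W2 := 536870912) (P3 := 335544320) (W3 := 67108864)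
    rfl k0_pp_012

noncomputable def f_pp_022 : ℕ → ℕ → ℕ → ℕ → Bool := onCell 0 536870912 1073741824 536870912 335544320 67108864
    (rowF 0 true true true .pp 0 2 2 (qsf 0 536870912 1073741824 536870912 2) ndF0q0 ndF2q2 pcF2 Cut.none Ext.none)

def k0_pp_022 : ∃ t, chk3 f_pp_022 t 1 1 1 = true :=
  ⟨(l 4), by decide +kernel⟩

theorem c_pp_022 : CertF 0 536870912 1073741824 536870912 335544320 67108864 true true true .pp 0 2 2
    ndF0q0 ndF2q2 pcF2 Cut.none Ext.none :=
  certF0 (fam := true) (s1 := true) (s2 := true) (a := 0) (b := 2) (c := 2) (cn := .pp) (n1 := ndF0q0) (n2 := ndF2q2) (pc := pcF2) (cut := Cut.none) (xt := Ext.none) (P1 := 0) (W1 := 536870912) (P2 := 1073741824) (W2 := 536870912) (P3 := 335544320) (W3 := 67108864)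
    rfl k0_pp_022

noncomputable def f_pp_023 : ℕ → ℕ → ℕ → ℕ → Bool := onCell 0 536870912 1073741824 536870912 335544320 67108864
    (rowF 0 true true true .up 0 2 3 (qsf 0 536870912 1073741824 536870912 3) ndF0q0 ndF2q2 pcF3 Cut.none Ext.none)

def k0_pp_023 : ∃ t, chk3 f_pp_023 t 1 1 1 = true :=
  ⟨(l 4), by decide +kernel⟩

theorem c_pp_023 : CertF 0 536870912 1073741824 536870912 335544320 67108864 true true true .up 0 2 3
    ndF0q0 ndF2q2 pcF3 Cut.none Ext.none :=
  certF0 (fam := true) (s1 := true) (s2 := true) (a := 0) (b := 2) (c := 3) (cn := .up) (n1 := ndF0q0) (n2 := ndF2q2) (pc := pcF3) (cut := Cut.none) (xt := Ext.none) (P1 := 0) (W1 := 536870912) (P2 := 1073741824) (W2 := 536870912) (P3 := 335544320) (W3 := 67108864)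
    rfl k0_pp_023

noncomputable def f_pp_033 : ℕ → ℕ → ℕ → ℕ → Bool := onCell 0 536870912 0 1230186008 335544320 67108864
    (rowF 0 true true true .pnn 0 3 3 (qsf 0 536870912 0 1230186008 3) ndF0q0 ndF2q3 pcF3 Cut.none Ext.none)

def k0_pp_033 : ∃ t, chk3 f_pp_033 t 1 1 1 = true :=
  ⟨(b (l 4) (l 4)), by decide +kernel⟩

theorem c_pp_033 : CertF 0 536870912 0 1230186008 335544320 67108864 true true true .pnn 0 3 3
    ndF0q0 ndF2q3 pcF3 Cut.none Ext.none :=
  certF0 (fam := true) (s1 := true) (s2 := true) (a := 0) (b := 3) (c := 3) (cn := .pnn) (n1 := ndF0q0) (n2 := ndF2q3) (pc := pcF3) (cut := Cut.none) (xt := Ext.none) (P1 := 0) (W1 := 536870912) (P2 := 0) (W2 := 1230186008) (P3 := 335544320) (W3 := 67108864)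
    rfl k0_pp_033

noncomputable def f_pp_101 : ℕ → ℕ → ℕ → ℕ → Bool := onCell 536870912 536870912 0 536870912 335544320 67108864
    (rowF 0 true true true .npn 1 0 1 (qsf 536870912 536870912 0 536870912 1) ndF0q1 ndF2q0 pcF1 Cut.none Ext.none)

def k0_pp_101 : ∃ t, chk3 f_pp_101 t 1 1 1 = true :=
  ⟨(l 5), by decide +kernel⟩

theorem c_pp_101 : CertF 536870912 536870912 0 536870912 335544320 67108864 true true true .npn 1 0 1
    ndF0q1 ndF2q0 pcF1 Cut.none Ext.none :=
  certF0 (fam := true) (s1 := true) (s2 := true) (a := 1) (b := 0) (c := 1) (cn := .npn) (n1 := ndF0q1) (n2 := ndF2q0) (pc := pcF1) (cut := Cut.none) (xt := Ext.none) (P1 := 536870912) (W1 := 536870912) (P2 := 0) (W2 := 536870912) (P3 := 335544320) (W3 := 67108864)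
    rfl k0_pp_101

noncomputable def f_pp_102 : ℕ → ℕ → ℕ → ℕ → Bool := onCell 536870912 536870912 0 536870912 335544320 67108864
    (rowF 0 true true true .npp 1 0 2 (qsf 536870912 536870912 0 536870912 2) ndF0q1 ndF2q0 pcF2 Cut.none Ext.none)

def k0_pp_102 : ∃ t, chk3 f_pp_102 t 1 1 1 = true :=
  ⟨(l 5), by decide +kernel⟩

theorem c_pp_102 : CertF 536870912 536870912 0 536870912 335544320 67108864 true true true .npp 1 0 2
    ndF0q1 ndF2q0 pcF2 Cut.none Ext.none :=
  certF0 (fam := true) (s1 := true) (s2 := true) (a := 1) (b := 0) (c := 2) (cn := .npp) (n1 := ndF0q1) (n2 := ndF2q0) (pc := pcF2) (cut := Cut.none) (xt := Ext.none) (P1 := 536870912) (W1 := 536870912) (P2 := 0) (W2 := 536870912) (P3 := 335544320) (W3 := 67108864)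
    rfl k0_pp_102

noncomputable def f_pp_112 : ℕ → ℕ → ℕ → ℕ → Bool := onCell 536870912 536870912 536870912 536870912 335544320 67108864
    (rowF 0 true true true .dn 1 1 2 (qsf 536870912 536870912 536870912 536870912 2) ndF0q1 ndF2q1 pcF2 Cut.none Ext.none)

def k0_pp_112 : ∃ t, chk3 f_pp_112 t 1 1 1 = true :=
  ⟨(l 4), by decide +kernel⟩

theorem c_pp_112 : CertF 536870912 536870912 536870912 536870912 335544320 67108864 true true true .dn 1 1 2
    ndF0q1 ndF2q1 pcF2 Cut.none Ext.none :=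
  certF0 (fam := true) (s1 := true) (s2 := true) (a := 1) (b := 1) (c := 2) (cn := .dn) (n1 := ndF0q1) (n2 := ndF2q1) (pc := pcF2) (cut := Cut.none) (xt := Ext.none) (P1 := 536870912) (W1 := 536870912) (P2 := 536870912) (W2 := 536870912) (P3 := 335544320) (W3 := 67108864)
    rfl k0_pp_112

noncomputable def f_pp_113 : ℕ → ℕ → ℕ → ℕ → Bool := onCell 536870912 536870912 536870912 536870912 335544320 67108864
    (rowF 0 true true true .nn 1 1 3 (qsf 536870912 536870912 536870912 536870912 3) ndF0q1 ndF2q1 pcF3 Cut.none Ext.none)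

def k0_pp_113 : ∃ t, chk3 f_pp_113 t 1 1 1 = true :=
  ⟨(l 4), by decide +kernel⟩

theorem c_pp_113 : CertF 536870912 536870912 536870912 536870912 335544320 67108864 true true true .nn 1 1 3
    ndF0q1 ndF2q1 pcF3 Cut.none Ext.none :=
  certF0 (fam := true) (s1 := true) (s2 := true) (a := 1) (b := 1) (c := 3) (cn := .nn) (n1 := ndF0q1) (n2 := ndF2q1) (pc := pcF3) (cut := Cut.none) (xt := Ext.none) (P1 := 536870912) (W1 := 536870912) (P2 := 536870912) (W2 := 536870912) (P3 := 335544320) (W3 := 67108864)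
    rfl k0_pp_113

noncomputable def f_pp_123 : ℕ → ℕ → ℕ → ℕ → Bool := onCell 536870912 536870912 1073741824 536870912 335544320 67108864
    (rowF 0 true true true .npn 1 2 3 (qsf 536870912 536870912 1073741824 536870912 3) ndF0q1 ndF2q2 pcF3 Cut.none Ext.none)

def k0_pp_123 : ∃ t, chk3 f_pp_123 t 1 1 1 = true :=
  ⟨(l 4), by decide +kernel⟩

theorem c_pp_123 : CertF 536870912 536870912 1073741824 536870912 335544320 67108864 true true true .npn 1 2 3
    ndF0q1 ndF2q2 pcF3 Cut.none Ext.none :=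
  certF0 (fam := true) (s1 := true) (s2 := true) (a := 1) (b := 2) (c := 3) (cn := .npn) (n1 := ndF0q1) (n2 := ndF2q2) (pc := pcF3) (cut := Cut.none) (xt := Ext.none) (P1 := 536870912) (W1 := 536870912) (P2 := 1073741824) (W2 := 536870912) (P3 := 335544320) (W3 := 67108864)
    rfl k0_pp_123

noncomputable def f_pp_133 : ℕ → ℕ → ℕ → ℕ → Bool := onCell 536870912 536870912 0 1230186008 335544320 67108864
    (rowF 0 true true true .dn 1 3 3 (qsf 536870912 536870912 0 1230186008 3) ndF0q1 ndF2q3 pcF3 Cut.none Ext.none)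

def k0_pp_133 : ∃ t, chk3 f_pp_133 t 1 1 1 = true :=
  ⟨(b (l 2) (l 4)), by decide +kernel⟩

theorem c_pp_133 : CertF 536870912 536870912 0 1230186008 335544320 67108864 true true true .dn 1 3 3
    ndF0q1 ndF2q3 pcF3 Cut.none Ext.none :=
  certF0 (fam := true) (s1 := true) (s2 := true) (a := 1) (b := 3) (c := 3) (cn := .dn) (n1 := ndF0q1) (n2 := ndF2q3) (pc := pcF3) (cut := Cut.none) (xt := Ext.none) (P1 := 536870912) (W1 := 536870912) (P2 := 0) (W2 := 1230186008) (P3 := 335544320) (W3 := 67108864)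
    rfl k0_pp_133

noncomputable def f_pp_202 : ℕ → ℕ → ℕ → ℕ → Bool := onCell 0 536870912 0 536870912 335544320 67108864
    (rowF 0 true true true .pp 2 0 2 (qsf 0 536870912 0 536870912 2) ndF0q2 ndF2q0 pcF2 Cut.none Ext.none)

def k0_pp_202 : ∃ t, chk3 f_pp_202 t 1 1 1 = true :=
  ⟨(l 5), by decide +kernel⟩

theorem c_pp_202 : CertF 0 536870912 0 536870912 335544320 67108864 true true true .pp 2 0 2
    ndF0q2 ndF2q0 pcF2 Cut.none Ext.none :=
  certF0 (fam := true) (s1 := true) (s2 := true) (a := 2) (b := 0) (c := 2) (cn := .pp) (n1 := ndF0q2) (n2 := ndF2q0) (pc := pcF2) (cut := Cut.none) (xt := Ext.none) (P1 := 0) (W1 := 536870912) (P2 := 0) (W2 := 536870912) (P3 := 335544320) (W3 := 67108864)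
    rfl k0_pp_202

noncomputable def f_pp_203 : ℕ → ℕ → ℕ → ℕ → Bool := onCell 0 536870912 0 536870912 335544320 67108864
    (rowF 0 true true true .up 2 0 3 (qsf 0 536870912 0 536870912 3) ndF0q2 ndF2q0 pcF3 Cut.none Ext.none)

def k0_pp_203 : ∃ t, chk3 f_pp_203 t 1 1 1 = true :=
  ⟨(l 5), by decide +kernel⟩

theorem c_pp_203 : CertF 0 536870912 0 536870912 335544320 67108864 true true true .up 2 0 3
    ndF0q2 ndF2q0 pcF3 Cut.none Ext.none :=
  certF0 (fam := true) (s1 := true) (s2 := true) (a := 2) (b := 0) (c := 3) (cn := .up) (n1 := ndF0q2) (n2 := ndF2q0) (pc := pcF3) (cut := Cut.none) (xt := Ext.none) (P1 := 0) (W1 := 536870912) (P2 := 0) (W2 := 536870912) (P3 := 335544320) (W3 := 67108864)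
    rfl k0_pp_203

noncomputable def f_pp_213 : ℕ → ℕ → ℕ → ℕ → Bool := onCell 0 536870912 536870912 536870912 335544320 67108864
    (rowF 0 true true true .pnn 2 1 3 (qsf 0 536870912 536870912 536870912 3) ndF0q2 ndF2q1 pcF3 Cut.none Ext.none)

def k0_pp_213 : ∃ t, chk3 f_pp_213 t 1 1 1 = true :=
  ⟨(l 4), by decide +kernel⟩

theorem c_pp_213 : CertF 0 536870912 536870912 536870912 335544320 67108864 true true true .pnn 2 1 3
    ndF0q2 ndF2q1 pcF3 Cut.none Ext.none :=
  certF0 (fam := true) (s1 := true) (s2 := true) (a := 2) (b := 1) (c := 3) (cn := .pnn) (n1 := ndF0q2) (n2 := ndF2q1) (pc := pcF3) (cut := Cut.none) (xt := Ext.none) (P1 := 0) (W1 := 536870912) (P2 := 536870912) (W2 := 536870912) (P3 := 335544320) (W3 := 67108864)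
    rfl k0_pp_213

noncomputable def f_pm_001 : ℕ → ℕ → ℕ → ℕ → Bool := onCell 0 536870912 0 536870912 335544320 67108864
    (rowF 0 true true false .up 0 0 1 (qsf 0 536870912 0 536870912 1) ndF0q0 ndF2q0 pcF1 Cut.none Ext.none)

def k0_pm_001 : ∃ t, chk3 f_pm_001 t 1 1 1 = true :=
  ⟨(a (l 3) (b (l 3) (a (l 3) (b (l 3) (a (l 3) (b (l 3) (a (l 3) (b (l 3) (a (l 231023293031) (b (l 273436035271) (l 17192880))))))))))), by decide +kernel⟩

theorem c_pm_001 : CertF 0 536870912 0 536870912 335544320 67108864 true true false .up 0 0 1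
    ndF0q0 ndF2q0 pcF1 Cut.none Ext.none :=
  certF0 (fam := true) (s1 := true) (s2 := false) (a := 0) (b := 0) (c := 1) (cn := .up) (n1 := ndF0q0) (n2 := ndF2q0) (pc := pcF1) (cut := Cut.none) (xt := Ext.none) (P1 := 0) (W1 := 536870912) (P2 := 0) (W2 := 536870912) (P3 := 335544320) (W3 := 67108864)
    rfl k0_pm_001

noncomputable def cut_pm_011 : Cut := Cut.of [[⟨0, 0, 0, 67108864⟩, ⟨1, 1, 0, 67108864⟩, ⟨2, 1, 0, 67108864⟩]]

noncomputable def f_pm_011 : ℕ → ℕ → ℕ → ℕ → Bool := onCell 536870912 536870912 536870912 536870912 335544320 67108864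
    (rowF 2 true true false .pnn 0 1 1 (qsf 0 536870912 536870912 536870912 1) ndF0q0 ndF2q1 pcF1 cut_pm_011 Ext.none)

def k0_pm_011 : ∃ t, chk3 f_pm_011 t 2 1 1 = true :=
  ⟨(l 3), by decide +kernel⟩

def k1_pm_011 : ∃ t, chk3 f_pm_011 t 6 4 1 = true :=
  ⟨(l 3), by decide +kernel⟩

def k2_pm_011 : ∃ t, chk3 f_pm_011 t 14 4 1 = true :=
  ⟨(l 3), by decide +kernel⟩

def k3_pm_011 : ∃ t, chk3 f_pm_011 t 15 8 1 = true :=
  ⟨(a (l 3) (b (a (b (l 17157648) (l 55466130183)) (b (l 17152544) (l 17119080))) (a (a (l 3) (b (l 45802266391) (b (l 37212231191) (a (l 30232815239) (l 16982160))))) (b (c (l 17111304) (l 17036856)) (c (l 17059624) (a (l 16974920) (l 16968040))))))), by decide +kernel⟩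

def k4_pm_011 : ∃ t, chk3 f_pm_011 t 15 9 1 = true :=
  ⟨(b (a (l 3) (a (a (l 3) (b (c (l 16994520) (b (l 25937771127) (c (l 16903872) (l 21105831655)))) (a (l 3) (c (b (l 16935480) (l 16869800)) (b (l 16786552) (b (l 16788472) (c (l 16789888) (l 15736861031)))))))) (b (c (b (l 17011328) (l 16974064)) (a (b (l 16915544) (l 16849296)) (b (l 16907224) (l 16860648)))) (c (b (l 16911384) (a (l 16887800) (l 16883744))) (b (a (c (l 16848448) (l 16791712)) (l 16808792)) (a (b (l 16778992) (l 16728912)) (b (l 16766200) (l 16735936)))))))) (a (l 3) (a (a (l 3) (a (l 3) (a (b (c (b (l 16857608) (l 16795408)) (b (c (l 16766768) (l 57075892903)) (c (l 16723792) (l 16682944)))) (b (c (l 196662468839) (c (l 16700816) (l 16679760))) (l 3))) (b (c (b (l 16856304) (l 16835720)) (b (l 16690784) (l 16670400))) (c (b (l 16772232) (c (l 16824296) (l 16758840))) (b (c (l 16717840) (l 16653536)) (c (l 16672352) (l 16627752)))))))) (b (c (b (a (l 16852848) (l 16847176)) (a (c (l 16864392) (l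 16798296)) (l 16803232))) (a (b (a (l 16685088) (l 16719384)) (a (c (l 16735800) (l 16670872)) (l 16694776))) (b (c (l 16742640) (l 16672944)) (c (l 16717408) (l 16646200))))) (a (c (b (a (l 16748040) (l 16785648)) (c (l 16819544) (a (l 16753952) (l 16747376)))) (b (a (c (l 16711688) (l 16645448)) (l 16669016)) (a (c (l 16665440) (l 16618824)) (c (l 16677120) (l 16606840))))) (a (c (b (l 16802240) (l 16714320)) (b (l 16659384) (l 16652232))) (c (b (l 16797808) (l 16729968)) (b (l 16649656) (l 16641416))))))))), by decide +kernel⟩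

def k5_pm_011 : ∃ t, chk3 f_pm_011 t 6 5 1 = true :=
  ⟨(l 3), by decide +kernel⟩

def k6_pm_011 : ∃ t, chk3 f_pm_011 t 14 5 1 = true :=
  ⟨(l 3), by decide +kernel⟩

def k7_pm_011 : ∃ t, chk3 f_pm_011 t 30 10 1 = true :=
  ⟨(l 3), by decide +kernel⟩

def k8_pm_011 : ∃ t, chk3 f_pm_011 t 62 20 1 = true :=
  ⟨(a (l 3) (b (a (l 3) (c (b (c (l 16781304) (b (l 16742368) (l 8220677207))) (c (b (l 16784400) (l 16772112)) (b (l 8220651255) (l 8220633207)))) (b (c (b (l 16676584) (l 9294370375)) (l 12515475271)) (c (b (l 8757500535) (l 10904872231)) (l 16613112))))) (a (l 3) (a (l 3) (c (b (c (b (l 16758064) (l 16745024)) (b (l 16688904) (l 16675160))) (c (b (l 16710680) (l 16686480)) (b (l 16682048) (l 16667608)))) (c (b (c (l 16614176) (l 16606464)) (l 16620656)) (b (l 16600328) (l 16602304)))))))), by decide +kernel⟩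

def k9_pm_011 : ∃ t, chk3 f_pm_011 t 63 20 1 = true :=
  ⟨(b (c (a (b (c (a (l 16797728) (l 16792976)) (a (b (l 16735232) (l 16722360)) (l 16721248))) (c (a (b (l 16779144) (l 16766360)) (l 16767048)) (a (b (l 16709176) (l 16695664)) (l 16672792)))) (b (c (b (l 16792408) (l 16779056)) (a (l 16713592) (l 16705856))) (c (a (l 16761248) (l 16755392)) (a (l 16684992) (l 16676136))))) (a (b (c (a (b (l 16666648) (l 16653072)) (l 16649488)) (a (l 16590928) (l 16577712))) (c (a (b (l 16639168) (l 16624928)) (l 16641424)) (l 16599184))) (b (c (a (l 16638992) (l 16628408)) (l 16557712)) (c (a (l 16608728) (l 16596904)) (l 16545224))))) (c (a (b (c (a (b (l 16753256) (l 16739808)) (b (l 16746704) (l 16732688))) (a (b (l 16681816) (l 16667616)) (b (l 16672216) (l 16657376)))) (c (a (b (l 16705048) (c (l 16730288) (l 16693432))) (b (l 16718304) (l 16703520))) (b (a (l 16674024) (l 16642152)) (a (c (l 16656560) (l 16619680)) (l 16626528))))) (b (c (a (l 16711872) (l 16683936)) (a (l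 16675816) (l 16665744))) (c (a (b (l 16710512) (l 16695112)) (b (l 16702656) (l 16686616))) (a (b (l 16631176) (l 16614856)) (b (l 16620096) (l 16603080)))))) (a (b (c (a (c (l 16605136) (l 16594224)) (l 16589920)) (l 16601136)) (c (a (l 16608568) (l 16581752)) (l 16603384))) (b (c (c (l 16569208) (l 16552992)) (l 16547600)) (c (l 16578168) (l 16550248)))))), by decide +kernel⟩

def k10_pm_011 : ∃ t, chk3 f_pm_011 t 31 21 1 = true :=
  ⟨(a (a (l 3) (b (b (a (l 3) (a (l 3) (b (c (c (l 4462545095) (l 16652816)) (l 16607792)) (c (c (l 28621737271) (l 16641128)) (l 16608912))))) (l 3)) (l 3))) (b (c (a (c (b (a (b (c (l 16715960) (l 16678704)) (c (l 16680288) (l 16674088))) (b (l 16688344) (l 16672752))) (a (a (b (c (l 16688536) (l 16650896)) (c (l 16673224) (l 16635184))) (b (l 16664544) (l 16669632))) (b (l 16677712) (c (l 16660432) (l 16620160))))) (b (a (c (b (l 16641440) (l 16625936)) (l 16616256)) (c (l 16600912) (l 16589456))) (a (b (l 16619688) (l 16610336)) (l 16604080))))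 (a (c (b (b (l 16679280) (l 16663000)) (b (l 16646272) (l 16650040))) (b (b (l 16598080) (l 16580856)) (l 16577384))) (b (c (b (l 16670128) (l 16653160)) (c (l 16618872) (l 16556680))) (c (b (l 16656672) (l 16659688)) (l 16561144))))) (a (b (c (a (l 16600232) (l 16584112)) (l 16584944)) (c (a (l 16602648) (l 16586736)) (l 16587720))) (b (c (l 16580856) (l 16553168)) (l 16580544)))) (c (a (c (b (c (a (b (a (l 16657520) (l 16652040)) (c (l 7683669767) (l 16628632))) (b (l 16643768) (l 16626648))) (a (b (l 16621960) (l 16617872)) (l 16611648))) (a (c (b (l 16630280) (l 16623624)) (l 16630200)) (c (l 16618808) (l 16603832)))) (b (a (c (l 16624344) (l 16610432)) (l 16596208)) (a (l 16635744) (l 16599056)))) (c (a (b (b (l 16632352) (l 16593184)) (c (l 16601448) (l 16587896))) (b (b (l 16641200) (l 16580224)) (c (l 16585368) (l 16571928)))) (b (a (l 16580224) (l 16564208)) (l 16596376)))) (a (b (c (l 16618440) (l 16590728)) (c (l 16621416) (l 16593952))) (b (l 16583808) (l 16566312)))))),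 by decide +kernel⟩

def k11_pm_011 : ∃ t, chk3 f_pm_011 t 15 11 1 = true :=
  ⟨(a (l 3) (b (a (l 3) (b (c (a (b (a (c (a (l 3925594039) (l 16620072)) (l 16617616)) (c (l 16618752) (l 16602120))) (c (a (c (l 16638776) (l 16625240)) (l 16611312)) (a (l 16620664) (l 16605384)))) (a (c (b (l 16592496) (l 16595760)) (l 16609192)) (c (b (l 16576696) (l 16580184)) (l 16593704)))) (a (b (c (l 16603632) (l 16597360)) (c (l 16607008) (l 16600960))) (b (l 16569976) (l 16573816)))) (c (a (b (c (a (l 16650744) (l 16614584)) (l 16637368)) (c (a (l 16632904) (l 16617984)) (l 16640824))) (b (c (l 16612520) (l 16586072)) (c (l 16616304) (l 16590024)))) (a (b (l 16628632) (l 16632400)) (b (l 16577824) (l 16582024)))))) (a (l 3) (b (c (a (a (b (l 2314996951) (l 16638528)) (b (l 16619512) (l 16624344))) (b (c (l 16599944) (l 16594744)) (l 16623600))) (a (b (l 16636840) (l 16620760)) (b (l 16586912) (l 16592320)))) (c (a (a (l 16654864) (l 16630640)) (c (l 16630336) (l 16607032))) (a (l 15736752775)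 (l 16599584))))))), by decide +kernel⟩

def k12_pm_011 : ∃ t, chk3 f_pm_011 t 3 3 1 = true :=
  ⟨(a (l 3) (b (a (l 3) (a (l 3) (b (a (l 3) (b (a (b (c (b (l 16642640) (l 16645632)) (l 16634936)) (c (b (l 16648312) (l 16650808)) (l 16641528))) (b (c (b (l 16615344) (l 16618784)) (l 16607992)) (c (l 16644296) (l 16615240)))) (a (a (l 3) (b (l 16644720) (l 16651176))) (b (c (l 16628680) (l 16621840)) (c (l 16634792) (l 16629144)))))) (a (l 3) (a (a (l 3) (a (l 3) (b (l 16671408) (l 3)))) (b (b (l 16661760) (l 16670456)) (b (c (l 16659392) (l 16656688)) (c (l 16688408) (l 16665784))))))))) (a (l 3) (a (l 3) (a (l 3) (a (l 3) (b (b (b (c (l 11441918135) (l 16699136)) (a (c (l 16721424) (l 16699520)) (l 16709016))) (b (a (a (l 3) (l 16722528)) (c (l 16724544) (l 16702632))) (a (l 3) (a (a (l 16722416) (l 16719456)) (l 16725464))))) (b (a (l 3) (b (b (a (l 16731880) (l 16725976)) (l 6)) (l 6))) (l 6))))))))), by decide +kernel⟩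

theorem s13_pm_011 : ∃ t, chk3 f_pm_011 t 31 20 1 = true := ex3_a k8_pm_011 k9_pm_011

theorem s14_pm_011 : ∃ t, chk3 f_pm_011 t 31 10 1 = true := ex3_b s13_pm_011 k10_pm_011

theorem s15_pm_011 : ∃ t, chk3 f_pm_011 t 15 10 1 = true := ex3_a k7_pm_011 s14_pm_011

theorem s16_pm_011 : ∃ t, chk3 f_pm_011 t 15 5 1 = true := ex3_b s15_pm_011 k11_pm_011

theorem s17_pm_011 : ∃ t, chk3 f_pm_011 t 7 5 1 = true := ex3_a k6_pm_011 s16_pm_011

theorem s18_pm_011 : ∃ t, chk3 f_pm_011 t 3 5 1 = true := ex3_a k5_pm_011 s17_pm_011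

theorem s19_pm_011 : ∃ t, chk3 f_pm_011 t 15 4 1 = true := ex3_b k3_pm_011 k4_pm_011

theorem s20_pm_011 : ∃ t, chk3 f_pm_011 t 7 4 1 = true := ex3_a k2_pm_011 s19_pm_011

theorem s21_pm_011 : ∃ t, chk3 f_pm_011 t 3 4 1 = true := ex3_a k1_pm_011 s20_pm_011

theorem s22_pm_011 : ∃ t, chk3 f_pm_011 t 3 2 1 = true := ex3_b s21_pm_011 s18_pm_011

theorem s23_pm_011 : ∃ t, chk3 f_pm_011 t 3 1 1 = true := ex3_b s22_pm_011 k12_pm_011

theorem s24_pm_011 : ∃ t, chk3 f_pm_011 t 1 1 1 = true := ex3_a k0_pm_011 s23_pm_011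

theorem c_pm_011 : CertF 0 536870912 536870912 536870912 335544320 67108864 true true false .pnn 0 1 1
    ndF0q0 ndF2q1 pcF1 cut_pm_011 Ext.none :=
  certF2 (fam := true) (s1 := true) (s2 := false) (a := 0) (b := 1) (c := 1) (cn := .pnn) (n1 := ndF0q0) (n2 := ndF2q1) (pc := pcF1) (cut := cut_pm_011) (xt := Ext.none) (P1 := 0) (W1 := 536870912) (P2 := 536870912) (W2 := 536870912) (P3 := 335544320) (W3 := 67108864)
    rfl (fun _ => rfl) s24_pm_011

noncomputable def cut_pm_012 : Cut := Cut.of [[⟨0, 0, 0, 67108864⟩, ⟨1, 1, 0, 67108864⟩, ⟨2, 1, 0, 67108864⟩]]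

noncomputable def f_pm_012 : ℕ → ℕ → ℕ → ℕ → Bool := onCell 1073741824 536870912 536870912 536870912 335544320 67108864
    (rowF 2 true true false .pnp 0 1 2 (qsf 0 536870912 536870912 536870912 2) ndF0q0 ndF2q1 pcF2 cut_pm_012 Ext.none)

def k0_pm_012 : ∃ t, chk3 f_pm_012 t 4 4 1 = true :=
  ⟨(a (b (a (b (a (l 17126816) (l 17105144)) (a (b (l 17064424) (a (l 17010696) (l 17002728))) (l 17000768))) (b (l 17079424) (l 17008152))) (b (a (a (b (a (c (l 16993248) (l 16857416)) (l 16930792)) (a (b (c (l 16931880) (l 16802752)) (c (l 16884832) (l 16724296))) (b (l 16865368) (l 16815624)))) (b (l 16926536) (a (l 16842280) (l 16845392)))) (b (l 16928576) (a (l 16853184) (l 16868744)))) (a (a (b (a (c (b (l 16848040) (l 16803328)) (b (l 16701416) (l 16674416))) (c (l 16840360) (l 16688624))) (a (a (c (b (l 16777656) (l 16709312)) (b (l 16646384) (l 16637496))) (c (l 16745144) (l 16631112))) (c (l 16790496) (l 16631736)))) (b (a (l 16768824) (l 16775208)) (a (l 16715984) (l 16723192))))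 (a (b (l 16788176) (l 16737816)) (l 16788000))))) (b (a (b (l 2) (l 17006632)) (l 2)) (b (a (l 16926072) (l 16970784)) (a (a (l 16817064) (l 16849984)) (l 16904280))))), by decide +kernel⟩

def k1_pm_012 : ∃ t, chk3 f_pm_012 t 8 10 1 = true :=
  ⟨(a (a (b (a (b (c (b (a (c (l 16784184) (l 16704520)) (l 16745864)) (a (c (l 16755672) (l 16674144)) (l 16716416))) (a (c (b (l 16624880) (l 16592648)) (l 16528432)) (b (l 16584440) (l 16551184)))) (c (b (a (a (b (l 16691488) (l 16675504)) (l 16684080)) (l 16685272)) (a (a (c (b (l 16701400) (l 16685008)) (l 16608088)) (l 16651152)) (l 16652320))) (c (b (l 16537408) (l 16545808)) (l 16538024)))) (b (c (l 16734960) (l 16568648)) (c (l 16670168) (l 16498304)))) (a (c (b (b (a (a (c (b (l 16668136) (l 16650784)) (l 16553896)) (l 16658256)) (l 16617440)) (a (c (a (b (l 16632920) (l 16635504)) (l 16624512)) (l 16546072)) (l 16601456))) (a (c (b (a (b (l 16616568) (l 16597064)) (l 16586568)) (c (l 16572248) (l 16557000))) (b (l 16549296)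 (l 16552728))) (c (l 16552456) (l 16533040)))) (b (b (l 16545856) (l 16549240)) (c (l 16557472) (l 16530912)))) (b (c (b (l 16621264) (l 16584320)) (l 16491200)) (c (l 16535072) (l 16499128))))) (a (b (b (l 16657144) (l 16612280)) (b (l 16622312) (l 16498408))) (b (b (l 16665160) (l 16600136)) (b (l 16527104) (l 16444848))))) (b (a (b (l 16681504) (l 16618288)) (l 16680784)) (a (b (l 16547176) (l 16466992)) (l 16608232)))), by decide +kernel⟩

def k2_pm_012 : ∃ t, chk3 f_pm_012 t 8 11 1 = true :=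
  ⟨(a (a (b (a (c (a (b (c (b (l 16572368) (l 16565528)) (l 16558200)) (b (l 16566744) (l 16570832))) (b (l 16564128) (l 16551488))) (b (l 16562608) (l 16571312))) (b (c (l 16537072) (l 16507736)) (c (l 16525040) (l 16517088)))) (a (b (c (b (l 16588288) (l 16573048)) (l 16581536)) (c (l 16601648) (l 16571408))) (b (c (l 16535760) (l 16527992)) (l 16564400)))) (b (c (b (l 16481360) (l 16491592)) (l 16534256)) (b (l 16521992) (l 16534872)))) (a (b (b (l 16424176) (l 16436152)) (b (l 16449656) (l 16464072))) (b (l 16383064) (l 16414464)))), by decide +kernel⟩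

def k3_pm_012 : ∃ t, chk3 f_pm_012 t 9 5 1 = true :=
  ⟨(b (a (b (a (l 16716976) (l 16757640)) (a (l 16590088) (l 16640216))) (b (l 16824008) (l 16721408))) (a (b (a (l 16427952) (l 16489848)) (a (l 16396416) (l 16381344))) (b (l 16589616) (l 16419264)))), by decide +kernel⟩

def k4_pm_012 : ∃ t, chk3 f_pm_012 t 5 2 1 = true :=
  ⟨(b (a (b (l 2) (a (b (l 2) (a (l 16961624) (l 2))) (l 2))) (l 2)) (b (a (a (a (b (l 16893616) (l 16805752)) (b (l 16940120) (l 16861824))) (b (l 17008640) (l 16944248))) (b (l 2) (l 17094192))) (a (a (a (b (l 16692344) (l 16545488)) (b (l 16760304) (l 16628576))) (b (l 16859432) (l 16748576))) (b (l 17038856) (l 16964576))))), by decide +kernel⟩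

def k5_pm_012 : ∃ t, chk3 f_pm_012 t 8 6 1 = true :=
  ⟨(a (b (c (a (b (a (b (l 16589096) (l 16595976)) (l 16581768)) (a (b (l 16601672) (l 16607968)) (l 16595032))) (b (l 16552752) (l 16568288))) (a (b (b (l 16607064) (l 16615192)) (b (l 16622272) (l 16629928))) (b (l 16548160) (b (l 16540120) (l 16548376))))) (a (a (a (b (l 16647152) (l 16664464)) (b (l 16611312) (l 16649672))) (b (l 16609760) (l 16627272))) (b (l 16605912) (l 16602560)))) (b (a (b (l 16503512) (l 16501776)) (b (l 16422208) (l 16457448))) (b (c (l 16534832) (l 16522184)) (a (a (l 16582144) (l 16548672)) (l 16551776))))), by decide +kernel⟩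

def k6_pm_012 : ∃ t, chk3 f_pm_012 t 8 7 1 = true :=
  ⟨(a (b (a (a (b (b (l 16673528) (l 16699464)) (a (b (l 16711352) (c (l 16726488) (l 16725808))) (b (l 16696808) (l 16711704)))) (b (l 16672752) (b (l 16674792) (l 16679320)))) (b (c (l 16631400) (l 16639976)) (b (l 16644648) (a (l 16669888) (l 16652952))))) (a (b (a (b (a (b (l 16737144) (l 6)) (l 16726384)) (l 6)) (b (l 16702464) (b (l 16707984) (l 6)))) (l 6)) (b (b (a (a (l 16670552) (l 16682624)) (l 16669480)) (a (b (l 16679024) (c (l 16709600) (l 16707704))) (b (l 16660992) (l 16669320)))) (b (b (a (l 6) (a (l 6) (l 16673088))) (l 6)) (l 6))))) (b (b (a (b (l 16562352) (l 16598048)) (b (l 16535944) (l 16549112))) (a (b (l 16613112) (a (l 16615528) (l 16599568))) (b (l 16562680) (l 16576576)))) (b (a (b (a (l 16631400) (l 16614768)) (a (b (l 16643408) (l 16651432)) (b (l 16626296) (l 16634008)))) (b (a (l 16598632) (l 16583000)) (b (l 16601520) (l 16608736)))) (b (a (b (a (l 16659480) (l 16641744)) (a (b (l 16665536)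 (l 6)) (l 16649496))) (b (a (l 16624464) (l 16607656)) (a (l 16631904) (l 16614776)))) (a (b (a (l 6) (b (l 16655328) (l 6))) (l 6)) (b (a (c (l 16642400) (l 16636376)) (l 16621920)) (a (b (l 16644984) (l 6)) (b (l 16627296) (l 16641368))))))))), by decide +kernel⟩

def k7_pm_012 : ∃ t, chk3 f_pm_012 t 9 3 1 = true :=
  ⟨(b (b (a (b (a (l 16397792) (l 16397240)) (b (l 16436712) (l 16449936))) (b (l 16402440) (l 16436328))) (a (b (a (l 16455248) (l 16442360)) (a (l 16509544) (l 16470000))) (b (l 16471184) (a (l 16454392) (l 16442784))))) (b (b (a (a (l 16538448) (l 16494784)) (a (l 16474920) (l 16457888))) (a (b (a (l 16535408) (l 16510416)) (a (l 16547800) (l 16521232))) (a (l 16513232) (l 16492168)))) (b (a (b (a (l 16560512) (l 16532424)) (a (b (l 16570240) (l 16576768)) (l 16543912))) (b (a (l 16506600) (l 16483208)) (a (l 16516552) (l 16491552)))) (a (b (a (b (l 16583352) (l 16610944)) (b (l 16552728) (l 16558648))) (a (b (c (l 16600864) (l 16592408)) (a (c (l 16615816)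 (l 16607776)) (c (l 16599464) (l 16590448)))) (b (l 16585584) (c (l 16596816) (l 16586352))))) (b (a (b (l 16524240) (l 16529432)) (b (l 16498072) (l 16502488))) (a (b (l 16534672) (c (l 16546144) (l 16533752))) (b (l 16506976) (c (l 16518640) (l 16504336))))))))), by decide +kernel⟩

def k8_pm_012 : ∃ t, chk3 f_pm_012 t 5 3 1 = true :=
  ⟨(b (a (b (a (a (l 16458008) (b (l 16456440) (l 16428168))) (b (l 16603528) (l 16440816))) (a (a (b (l 16424776) (l 16434664)) (b (l 16428216) (a (l 16431600) (l 16432168)))) (b (l 16432408) (l 16428864)))) (b (a (b (l 16783168) (l 16633792)) (b (l 16942232) (l 16828296))) (b (a (l 16445120) (l 16675568)) (a (l 16430224) (l 16470784))))) (b (a (a (b (a (l 16444168) (a (l 16436744) (l 16434744))) (a (l 16453312) (a (l 16442160) (l 16479264)))) (b (l 16424280) (b (l 16420792) (l 16419960)))) (b (a (l 16415144) (l 16419408)) (a (b (l 16402976) (l 16396760)) (b (l 16399328) (l 16387560))))) (a (a (b (a (b (l 16462576) (l 16469240)) (a (l 16493696)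 (b (l 16442640) (l 16489072)))) (a (b (c (l 16484200) (l 16468264)) (b (l 16481840) (c (l 16493640) (l 16477456)))) (a (b (l 16460360) (c (l 16475192) (l 16457664))) (b (a (l 16453496) (l 16449960)) (a (c (l 16468016) (l 16449792)) (c (a (l 16465208) (l 16463536)) (l 16466512))))))) (b (b (l 16421008) (c (l 16432864) (l 16412784))) (b (a (l 16436872) (l 16415392)) (a (c (l 16450664) (l 16430896)) (c (l 16428416) (l 16407024)))))) (b (a (b (l 16392312) (l 16430936)) (b (l 16376992) (c (l 16381952) (l 16353848)))) (a (b (c (l 16420168) (l 16375536)) (c (b (l 16398848) (a (l 16408544) (l 16390088))) (b (l 16375072) (l 16395976)))) (a (b (l 16366240) (c (l 16375048) (l 16348616))) (b (l 16398448) (c (l 16363200) (l 16334808))))))))), by decide +kernel⟩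

def k9_pm_012 : ∃ t, chk3 f_pm_012 t 3 1 1 = true :=
  ⟨(b (a (b (l 2) (a (b (l 2) (a (l 17165568) (l 2))) (l 2))) (l 2)) (a (b (a (b (a (b (l 17079136) (l 16995456)) (b (l 17192864) (l 17136432))) (a (b (l 16880832) (l 16726672)) (b (l 17056360) (l 16945760)))) (b (a (l 17268848) (l 2)) (a (b (l 17196536) (l 17125056)) (l 17283400)))) (a (b (a (b (l 16515760) (a (l 16397680) (l 16405264))) (b (l 16790568) (a (l 16492680) (l 16654504)))) (b (a (b (l 16376000) (a (l 16362264) (l 16362648))) (a (l 16382696) (l 16406960))) (a (b (a (l 16350376) (l 16348024)) (a (c (l 16355248) (l 16324624)) (c (l 16350944) (l 16317872)))) (b (a (l 16355544) (l 16374352)) (a (c (l 16357152) (l 16320496)) (c (l 16374784) (l 16333296))))))) (b (a (b (l 16914672) (a (l 16800616) (l 16932264))) (b (l 17191040) (a (l 17046688) (l 17141192)))) (a (b (b (l 16715896) (l 16444936)) (a (b (l 16400392) (c (l 16399856) (l 16352728))) (c (l 16423232) (l 16392432)))) (b (a (l 16888872) (b (l 17055528) (l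 16980848))) (a (b (l 16727056) (l 16426104)) (c (l 16788568) (l 16444192)))))))) (b (a (b (l 2) (a (l 17377672) (l 2))) (l 2)) (a (b (a (b (l 17318864) (l 17254648)) (b (l 17401776) (l 17351632))) (a (b (a (l 17124232) (l 17209544)) (a (b (l 17027152) (c (l 17119424) (l 16762880))) (b (l 17133208) (c (l 17240120) (l 16900568))))) (b (l 17283456) (a (l 17150048) (l 17212432))))) (b (a (l 17447376) (l 2)) (a (b (l 17362504) (l 17237736)) (b (l 17443720) (l 17372880)))))))), by decide +kernel⟩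

theorem s10_pm_012 : ∃ t, chk3 f_pm_012 t 8 3 1 = true := ex3_b k5_pm_012 k6_pm_012

theorem s11_pm_012 : ∃ t, chk3 f_pm_012 t 4 3 1 = true := ex3_a s10_pm_012 k7_pm_012

theorem s12_pm_012 : ∃ t, chk3 f_pm_012 t 2 3 1 = true := ex3_a s11_pm_012 k8_pm_012

theorem s13_pm_012 : ∃ t, chk3 f_pm_012 t 8 5 1 = true := ex3_b k1_pm_012 k2_pm_012

theorem s14_pm_012 : ∃ t, chk3 f_pm_012 t 4 5 1 = true := ex3_a s13_pm_012 k3_pm_012

theorem s15_pm_012 : ∃ t, chk3 f_pm_012 t 4 2 1 = true := ex3_b k0_pm_012 s14_pm_012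

theorem s16_pm_012 : ∃ t, chk3 f_pm_012 t 2 2 1 = true := ex3_a s15_pm_012 k4_pm_012

theorem s17_pm_012 : ∃ t, chk3 f_pm_012 t 2 1 1 = true := ex3_b s16_pm_012 s12_pm_012

theorem s18_pm_012 : ∃ t, chk3 f_pm_012 t 1 1 1 = true := ex3_a s17_pm_012 k9_pm_012

theorem c_pm_012 : CertF 0 536870912 536870912 536870912 335544320 67108864 true true false .pnp 0 1 2
    ndF0q0 ndF2q1 pcF2 cut_pm_012 Ext.none :=
  certF2 (fam := true) (s1 := true) (s2 := false) (a := 0) (b := 1) (c := 2) (cn := .pnp) (n1 := ndF0q0) (n2 := ndF2q1) (pc := pcF2) (cut := cut_pm_012) (xt := Ext.none) (P1 := 0) (W1 := 536870912) (P2 := 536870912) (W2 := 536870912) (P3 := 335544320) (W3 := 67108864)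
    rfl (fun _ => rfl) s18_pm_012

noncomputable def f_pm_022 : ℕ → ℕ → ℕ → ℕ → Bool := onCell 0 536870912 1073741824 536870912 335544320 67108864
    (rowF 1 true true false .pp 0 2 2 (qsf 0 536870912 1073741824 536870912 2) ndF0q0 ndF2q2 pcF2 Cut.none Ext.none)

def k0_pm_022 : ∃ t, chk3 f_pm_022 t 2 4 1 = true :=
  ⟨(b (l 3) (a (b (b (a (a (a (b (l 3) (a (l 16665280) (l 3))) (l 3)) (l 3)) (l 3)) (a (a (a (b (a (l 16652920) (l 16653568)) (l 16642544)) (b (l 16653960) (l 16643184))) (a (l 16689832) (l 16698168))) (a (a (b (a (l 16694512) (l 38822360967)) (l 16702672)) (b (b (l 3) (a (a (l 16690960) (l 224982306327)) (l 273837577511))) (a (b (l 16684544) (l 16674968)) (b (a (l 235719718023) (l 287796208727)) (l 157336584871))))) (a (b (l 1) (a (l 288333088519) (l 1))) (l 1))))) (a (b (a (a (b (l 16632120) (a (l 16621696) (l 16622384))) (l 16638304)) (b (l 16673264) (l 16663384))) (b (a (a (a (l 16611888) (l 16612608)) (l 16613096)) (l 16632808)) (a (a (c (l 16606792) (l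 16598056)) (l 16603352)) (l 16602232)))) (b (a (b (a (l 16640936) (c (l 16710184) (l 16707160))) (l 16696872)) (a (b (a (b (l 252899580183) (l 163242150119)) (l 288869946343)) (a (l 16666288) (b (l 265784468711) (l 16684512)))) (b (l 1) (l 303365459863)))) (b (a (l 16655640) (a (l 16695072) (a (l 252899543783) (l 302828563447)))) (a (l 16616400) (a (l 16633672) (a (l 16653040) (l 234109070983)))))))) (b (l 1) (a (b (l 1) (a (a (b (l 1) (l 304976046711)) (l 1)) (l 1))) (l 1))))), by decide +kernel⟩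

def k1_pm_022 : ∃ t, chk3 f_pm_022 t 2 10 1 = true :=
  ⟨(b (b (a (a (a (b (a (c (a (l 16596984) (l 16597344)) (l 16587640)) (l 16593440)) (a (a (c (b (l 16589592) (l 16585624)) (l 16576960)) (l 16583064)) (l 16583632))) (b (l 16592464) (l 16582648))) (a (l 16633544) (a (l 16667632) (b (l 16640592) (l 16622040))))) (a (a (a (b (l 230887824215) (a (l 16641560) (l 202970536023))) (b (l 1) (l 301217928023))) (l 1)) (l 1))) (a (b (a (a (a (c (l 16592528) (l 16571224)) (l 16577088)) (l 16575176)) (a (l 16588888) (l 16652160))) (a (a (a (a (b (l 16573616) (b (l 16573720) (l 16574176))) (b (l 16574112) (l 16595184))) (b (l 16574304) (l 16574408))) (b (l 16572552) (l 16572704))) (a (l 16607960) (l 16605152)))) (a (a (b (a (l 16629776) (a (l 118144928759) (l 285111778439))) (a (l 16647192) (b (l 118144895831) (l 16646888)))) (b (l 1) (b (l 1) (a (l 270616244263) (l 1))))) (l 1)))) (a (a (b (a (a (c (l 16570736) (l 16558720)) (l 16565232)) (l 16563544)) (a (a (c (l 16552464) (l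 16539912)) (l 16546664)) (l 16544936))) (a (l 16568024) (l 16554504))) (a (a (a (b (l 16552640) (l 16537592)) (l 16626152)) (b (a (b (l 237330216727) (l 16620256)) (l 298533537207)) (a (l 16595184) (b (l 242162043287) (l 16614776))))) (a (b (l 1) (l 281890555783)) (l 1))))), by decide +kernel⟩

def k2_pm_022 : ∃ t, chk3 f_pm_022 t 2 11 1 = true :=
  ⟨(a (a (a (b (a (b (c (l 16534984) (l 16521952)) (c (l 16518320) (l 16504840))) (l 16520352)) (a (c (b (l 16502512) (l 16487576)) (b (l 16488632) (l 16473360))) (l 16509200))) (b (l 16539512) (l 16486232))) (a (b (l 16511408) (l 16479008)) (l 16565584))) (a (b (a (l 16539848) (l 16642768)) (a (l 16445368) (l 16552576))) (b (a (b (a (l 134787836199) (l 281353651207)) (a (l 16586664) (l 99354444487))) (b (l 1) (l 288332998999))) (a (l 16657992) (b (a (l 103112549015) (l 286722358183)) (a (l 16584304) (l 118681763911))))))), by decide +kernel⟩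

def k3_pm_022 : ∃ t, chk3 f_pm_022 t 2 3 1 = true :=
  ⟨(a (b (b (a (b (a (a (b (c (l 16473560) (l 16459048)) (a (c (l 16460168) (l 16445096)) (l 16453360))) (c (l 16465704) (l 16452752))) (a (l 16458232) (l 16455808))) (a (a (b (a (c (l 16456144) (l 16439816)) (l 16444880)) (c (l 16462520) (l 16444112))) (b (l 16442928) (l 16441424))) (a (b (l 16441840) (l 16435544)) (l 16435992)))) (a (b (l 16449840) (l 16429432)) (l 16509528))) (a (a (b (a (b (c (l 16478416) (l 16456440)) (l 16506488)) (b (l 16450680) (l 16467856))) (a (b (l 16541760) (l 16533320)) (l 16544416))) (b (b (l 16517432) (l 16462032)) (a (l 16522280) (l 16505200)))) (a (b (a (l 16422664) (l 16417400)) (a (l 16471672) (l 16445968))) (b (l 16405656) (l 16418384))))) (b (a (b (a (b (a (l 16824024) (l 16776928)) (a (l 16933768) (l 16886872))) (b (l 16711512) (l 16821192))) (a (b (a (b (l 16991224) (l 17001816)) (l 16964968)) (a (l 17001336) (l 17002720))) (b (l 16901656) (l 16958024)))) (b (a (b (l 16637872)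 (l 16744640)) (b (l 16583552) (l 16683528))) (a (l 16857408) (l 16798608)))) (a (a (b (a (l 17003056) (l 17013936)) (l 17030440)) (b (a (l 17016968) (l 17005424)) (l 17042216))) (a (b (l 16965856) (l 17035008)) (b (l 16912208) (l 17001240)))))) (b (b (a (b (l 16508624) (l 16403728)) (b (a (l 16528968) (b (l 16590664) (l 16538784))) (a (l 16435496) (l 16509544)))) (a (b (l 16371448) (l 16389032)) (b (l 16478856) (l 16406504)))) (a (b (b (a (l 16598032) (l 16575568)) (a (l 16753864) (l 16725440))) (b (a (l 16870656) (l 16841152)) (l 17094408))) (b (b (l 16567640) (l 16706344)) (b (a (l 16824056) (l 16816816)) (a (l 16916096) (l 16906664))))))), by decide +kernel⟩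

def k4_pm_022 : ∃ t, chk3 f_pm_022 t 3 1 1 = true :=
  ⟨(b (b (l 1) (b (l 1) (a (a (b (l 1) (a (b (l 1) (l 292091086583)) (l 1))) (l 1)) (l 1)))) (b (a (b (a (b (a (b (a (l 130492917335) (l 290480473879)) (a (l 16591248) (l 137472258423))) (b (l 1) (l 295312369303))) (a (b (l 16579408) (l 16547816)) (b (a (l 147135955383) (l 293701741879)) (a (l 16607472) (l 154652168615))))) (b (l 1) (a (b (l 1) (l 299607393239)) (l 1)))) (a (b (a (l 16497816) (l 16603728)) (l 16553880)) (b (a (b (l 180421996471) (l 114923801879)) (l 307660565271)) (a (l 16655416) (b (l 195454545303) (l 16740232)))))) (b (l 1) (a (b (l 1) (a (l 300681520583) (l 1))) (l 1)))) (a (b (a (b (l 16621368) (l 16729256)) (b (a (l 16718984) (l 16807888)) (l 16822256))) (a (l 16868568) (l 16915496))) (b (a (b (a (b (l 212634700471) (l 16914568)) (l 348463272807)) (a (l 16933712) (l 224983013303))) (b (l 1) (a (l 355442779927) (l 1)))) (a (l 17114112) (a (l 228204520119) (l 267396060391))))))), by decide +kernel⟩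

theorem s5_pm_022 : ∃ t, chk3 f_pm_022 t 2 5 1 = true := ex3_b k1_pm_022 k2_pm_022

theorem s6_pm_022 : ∃ t, chk3 f_pm_022 t 2 2 1 = true := ex3_b k0_pm_022 s5_pm_022

theorem s7_pm_022 : ∃ t, chk3 f_pm_022 t 2 1 1 = true := ex3_b s6_pm_022 k3_pm_022

theorem s8_pm_022 : ∃ t, chk3 f_pm_022 t 1 1 1 = true := ex3_a s7_pm_022 k4_pm_022

theorem c_pm_022 : CertF 0 536870912 1073741824 536870912 335544320 67108864 true true false .pp 0 2 2
    ndF0q0 ndF2q2 pcF2 Cut.none Ext.none :=
  certF1 (fam := true) (s1 := true) (s2 := false) (a := 0) (b := 2) (c := 2) (cn := .pp) (n1 := ndF0q0) (n2 := ndF2q2) (pc := pcF2) (cut := Cut.none) (xt := Ext.none) (P1 := 0) (W1 := 536870912) (P2 := 1073741824) (W2 := 536870912) (P3 := 335544320) (W3 := 67108864)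
    rfl (fun _ => rfl) s8_pm_022

noncomputable def f_pm_023 : ℕ → ℕ → ℕ → ℕ → Bool := onCell 0 536870912 1073741824 536870912 335544320 67108864
    (rowF 0 true true false .up 0 2 3 (qsf 0 536870912 1073741824 536870912 3) ndF0q0 ndF2q2 pcF3 Cut.none Ext.none)

def k0_pm_023 : ∃ t, chk3 f_pm_023 t 1 1 1 = true :=
  ⟨(a (b (a (l 1) (b (l 1) (a (l 1) (l 234109022871)))) (b (a (b (l 1) (l 285112262343)) (b (a (l 260416098087) (l 267395630663)) (a (l 271690651335) (l 17089848)))) (a (b (b (l 301755594471) (l 297997595863)) (a (a (l 181496273559) (l 17149024)) (l 17198784))) (b (a (l 17151360) (l 17160984)) (l 17365560))))) (b (a (b (a (l 1) (l 266321248775)) (a (l 253973643127) (l 270616840343))) (b (a (l 242699447927) (b (a (l 16988296) (l 17061848)) (l 17064296))) (a (l 17050336) (l 17077696)))) (b (a (b (a (l 17047544) (l 17082488)) (l 17111248)) (b (l 17138600) (a (l 17075536) (l 17031032)))) (a (b (a (l 17147776) (l 17113848)) (a (l 17213720) (l 17170776))) (b (a (l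 17260112) (b (l 17009232) (l 17019256))) (a (a (l 17130920) (l 17102336)) (b (l 17042408) (a (l 17082144) (b (l 17042288) (l 4)))))))))), by decide +kernel⟩

theorem c_pm_023 : CertF 0 536870912 1073741824 536870912 335544320 67108864 true true false .up 0 2 3
    ndF0q0 ndF2q2 pcF3 Cut.none Ext.none :=
  certF0 (fam := true) (s1 := true) (s2 := false) (a := 0) (b := 2) (c := 3) (cn := .up) (n1 := ndF0q0) (n2 := ndF2q2) (pc := pcF3) (cut := Cut.none) (xt := Ext.none) (P1 := 0) (W1 := 536870912) (P2 := 1073741824) (W2 := 536870912) (P3 := 335544320) (W3 := 67108864)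
    rfl k0_pm_023

noncomputable def f_pm_033 : ℕ → ℕ → ℕ → ℕ → Bool := onCell 1610612736 536870912 0 1230186008 335544320 67108864
    (rowF 2 true true false .pnn 0 3 3 (qsf 0 536870912 0 1230186008 3) ndF0q0 ndF2q3 pcF3 Cut.none Ext.none)

def k0_pm_033 : ∃ t, chk3 f_pm_033 t 1 1 1 = true :=
  ⟨(a (b (l 1) (b (a (l 1) (a (l 1) (l 17532824))) (a (b (l 1) (b (l 355443508823) (a (a (l 17248392) (l 17271912)) (l 17293384)))) (b (a (l 17452720) (l 17405232)) (a (l 17327296) (l 17300624)))))) (a (b (l 1) (b (a (l 17448168) (l 17362680)) (b (a (l 17345672) (l 17278568)) (a (l 17255624) (l 17198800))))) (b (l 4) (b (l 4) (a (b (l 17209152) (b (l 17158120) (l 17111008))) (a (b (l 4) (l 17079624)) (l 4))))))), by decide +kernel⟩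

theorem c_pm_033 : CertF 0 536870912 0 1230186008 335544320 67108864 true true false .pnn 0 3 3
    ndF0q0 ndF2q3 pcF3 Cut.none Ext.none :=
  certF2 (fam := true) (s1 := true) (s2 := false) (a := 0) (b := 3) (c := 3) (cn := .pnn) (n1 := ndF0q0) (n2 := ndF2q3) (pc := pcF3) (cut := Cut.none) (xt := Ext.none) (P1 := 0) (W1 := 536870912) (P2 := 0) (W2 := 1230186008) (P3 := 335544320) (W3 := 67108864)
    rfl (fun _ => rfl) k0_pm_033

noncomputable def f_pm_101 : ℕ → ℕ → ℕ → ℕ → Bool := onCell 536870912 536870912 0 536870912 335544320 67108864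
    (rowF 2 true true false .npn 1 0 1 (qsf 536870912 536870912 0 536870912 1) ndF0q1 ndF2q0 pcF1 Cut.none Ext.none)

def k0_pm_101 : ∃ t, chk3 f_pm_101 t 1 1 1 = true :=
  ⟨(a (l 3) (b (a (l 3) (a (l 3) (b (b (a (a (l 3) (b (b (l 77477417863) (l 16901328)) (l 16927816))) (b (a (l 16878288) (l 16866888)) (l 16910248))) (a (b (l 47949697719) (l 16995896)) (a (l 16988232) (l 16959752)))) (b (a (a (l 3) (l 91436650311)) (b (l 17008512) (l 17035160))) (a (l 42044452663) (l 17070312)))))) (a (l 3) (a (l 3) (b (b (a (l 164988096167) (l 17112400)) (a (l 3) (l 17156368))) (a (l 3) (b (l 102174367495) (b (l 124722617815) (a (l 422551966199) (l 17302896)))))))))), by decide +kernel⟩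

theorem c_pm_101 : CertF 536870912 536870912 0 536870912 335544320 67108864 true true false .npn 1 0 1
    ndF0q1 ndF2q0 pcF1 Cut.none Ext.none :=
  certF2 (fam := true) (s1 := true) (s2 := false) (a := 1) (b := 0) (c := 1) (cn := .npn) (n1 := ndF0q1) (n2 := ndF2q0) (pc := pcF1) (cut := Cut.none) (xt := Ext.none) (P1 := 536870912) (W1 := 536870912) (P2 := 0) (W2 := 536870912) (P3 := 335544320) (W3 := 67108864)
    rfl (fun _ => rfl) k0_pm_101

noncomputable def f_pm_102 : ℕ → ℕ → ℕ → ℕ → Bool := onCell 536870912 536870912 1073741824 536870912 335544320 67108864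
    (rowF 1 true true false .npp 1 0 2 (qsf 536870912 536870912 0 536870912 2) ndF0q1 ndF2q0 pcF2 Cut.none Ext.none)

def k0_pm_102 : ∃ t, chk3 f_pm_102 t 1 1 1 = true :=
  ⟨(a (b (b (a (b (a (l 17254488) (b (l 17195264) (l 17168048))) (l 17322008)) (b (a (l 17131048) (l 17089120)) (a (l 17071560) (l 17033984)))) (a (b (l 17302528) (l 2)) (b (a (l 17020296) (l 17002808)) (l 16989360)))) (b (a (l 2) (b (l 16991424) (l 2))) (l 2))) (b (a (b (b (a (l 17048760) (l 17002280)) (a (l 17001048) (l 16968032))) (a (b (l 16993152) (l 17006840)) (l 17005008))) (a (b (b (b (l 16954016) (l 16935232)) (l 16936408)) (l 17049152)) (b (b (b (a (b (l 16904736) (l 16896424)) (b (l 16867280) (l 16860976))) (a (l 16891616) (l 16853952))) (a (l 16947712) (l 16906456))) (b (l 17032712) (l 17209448))))) (b (a (a (l 17071824) (l 17144784)) (b (l 17193008) (l 17227376))) (a (b (l 17116752) (l 2)) (b (l 17239616) (l 17222904)))))), by decide +kernel⟩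

theorem c_pm_102 : CertF 536870912 536870912 0 536870912 335544320 67108864 true true false .npp 1 0 2
    ndF0q1 ndF2q0 pcF2 Cut.none Ext.none :=
  certF1 (fam := true) (s1 := true) (s2 := false) (a := 1) (b := 0) (c := 2) (cn := .npp) (n1 := ndF0q1) (n2 := ndF2q0) (pc := pcF2) (cut := Cut.none) (xt := Ext.none) (P1 := 536870912) (W1 := 536870912) (P2 := 0) (W2 := 536870912) (P3 := 335544320) (W3 := 67108864)
    rfl (fun _ => rfl) k0_pm_102

noncomputable def f_pm_112 : ℕ → ℕ → ℕ → ℕ → Bool := onCell 536870912 536870912 1073741824 536870912 335544320 67108864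
    (rowF 1 true true false .dn 1 1 2 (qsf 536870912 536870912 536870912 536870912 2) ndF0q1 ndF2q1 pcF2 Cut.none Ext.none)

def k0_pm_112 : ∃ t, chk3 f_pm_112 t 1 1 1 = true :=
  ⟨(a (b (b (a (b (a (a (b (l 17143168) (l 17048008)) (l 113314329959)) (a (l 17156952) (l 1))) (a (a (b (l 16969448) (a (l 16922424) (l 16955704))) (b (l 17035192) (l 16997672))) (a (l 17050416) (l 17068728)))) (b (l 1) (a (l 17066168) (l 1)))) (a (b (a (b (a (b (l 16946184) (l 16956648)) (b (l 16999368) (l 17011216))) (a (l 16978760) (l 17034016))) (b (b (l 17039696) (l 17173536)) (a (l 17068176) (l 17075560)))) (a (a (b (l 17016832) (l 17062640)) (l 17092984)) (a (l 17132216) (l 17280080)))) (b (a (b (l 17044040) (l 17059232)) (l 17084960)) (a (a (l 17152968) (l 17133928)) (l 17089016))))) (a (b (a (b (b (a (l 17113440) (l 17165440)) (a (l 17167048) (l 17216536))) (l 17275296)) (b (b (l 17217736) (l 17266528)) (b (l 17314720) (l 17364672)))) (b (a (b (l 17361104) (l 17400416)) (l 17432176)) (a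 (l 17433560) (l 17514384)))) (b (a (b (b (l 17249592) (l 17303088)) (b (l 17348472) (l 17394016))) (b (b (l 17204120) (l 17284632)) (a (l 17382944) (l 17378128)))) (b (a (b (l 17437912) (l 17486272)) (l 17475192)) (a (l 17551768) (l 17570728)))))) (b (a (b (l 1) (b (l 1) (l 17223352))) (l 1)) (b (a (b (a (l 17165688) (l 17124240)) (a (b (l 17290472) (l 17372544)) (l 17248944))) (b (l 1) (l 215320217847))) (a (b (a (l 17469680) (l 17665824)) (a (l 17568704) (l 17543136))) (b (a (l 17333160) (l 17297816)) (a (l 17549664) (l 17330920))))))), by decide +kernel⟩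

theorem c_pm_112 : CertF 536870912 536870912 536870912 536870912 335544320 67108864 true true false .dn 1 1 2
    ndF0q1 ndF2q1 pcF2 Cut.none Ext.none :=
  certF1 (fam := true) (s1 := true) (s2 := false) (a := 1) (b := 1) (c := 2) (cn := .dn) (n1 := ndF0q1) (n2 := ndF2q1) (pc := pcF2) (cut := Cut.none) (xt := Ext.none) (P1 := 536870912) (W1 := 536870912) (P2 := 536870912) (W2 := 536870912) (P3 := 335544320) (W3 := 67108864)
    rfl (fun _ => rfl) k0_pm_112

noncomputable def f_pm_113 : ℕ → ℕ → ℕ → ℕ → Bool := onCell 536870912 536870912 1610612736 536870912 335544320 67108864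
    (rowF 1 true true false .nn 1 1 3 (qsf 536870912 536870912 536870912 536870912 3) ndF0q1 ndF2q1 pcF3 Cut.none Ext.none)

def k0_pm_113 : ∃ t, chk3 f_pm_113 t 1 1 1 = true :=
  ⟨(a (b (b (a (a (b (l 17630656) (l 17750352)) (l 17688832)) (a (l 17652520) (l 17594752))) (a (a (l 2) (l 299677363335)) (b (l 17726616) (l 17792768)))) (b (a (l 2) (b (l 17861000) (l 2))) (l 2))) (b (a (b (b (a (l 17504896) (l 17440120)) (a (l 17554472) (l 17483592))) (b (l 17553152) (l 17581824))) (b (b (a (l 17374272) (l 17284272)) (a (l 17409320) (l 17332088))) (b (a (l 17425416) (l 17338736)) (a (l 17428816) (l 17331672))))) (b (a (b (l 17604576) (l 17634904)) (b (l 17378280) (l 4))) (l 4)))), by decide +kernel⟩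

theorem c_pm_113 : CertF 536870912 536870912 536870912 536870912 335544320 67108864 true true false .nn 1 1 3
    ndF0q1 ndF2q1 pcF3 Cut.none Ext.none :=
  certF1 (fam := true) (s1 := true) (s2 := false) (a := 1) (b := 1) (c := 3) (cn := .nn) (n1 := ndF0q1) (n2 := ndF2q1) (pc := pcF3) (cut := Cut.none) (xt := Ext.none) (P1 := 536870912) (W1 := 536870912) (P2 := 536870912) (W2 := 536870912) (P3 := 335544320) (W3 := 67108864)
    rfl (fun _ => rfl) k0_pm_113

noncomputable def f_pm_123 : ℕ → ℕ → ℕ → ℕ → Bool := onCell 536870912 536870912 1610612736 536870912 335544320 67108864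
    (rowF 1 true true false .npn 1 2 3 (qsf 536870912 536870912 1073741824 536870912 3) ndF0q1 ndF2q2 pcF3 Cut.none Ext.none)

def k0_pm_123 : ∃ t, chk3 f_pm_123 t 1 1 1 = true :=
  ⟨(a (b (a (b (a (b (a (l 260416615543) (l 270617263623)) (a (l 17109080) (l 17138456))) (b (a (l 360274813831) (l 1)) (b (l 279207306103) (l 217467281799)))) (a (l 17086240) (b (l 17142672) (l 17091832)))) (b (a (b (l 1) (l 351684989863)) (l 1)) (b (a (l 281354748839) (l 334505077095)) (a (l 17123504) (l 17243040))))) (a (b (b (a (a (l 17039592) (l 17037760)) (l 17040600)) (a (b (l 17011448) (l 16991648)) (b (l 17005712) (l 16984536)))) (b (a (l 16975896) (l 17021840)) (b (a (l 16970752) (l 16925400)) (b (l 17048800) (l 4))))) (b (a (b (l 17055176) (l 16991008)) (b (l 17074688) (l 16996736))) (b (a (l 16938064) (l 16948888)) (b (a (l 16918648) (l 16890464)) (b (l 17077480) (a (l 16870528) (l 17092000)))))))) (b (a (b (l 1) (a (l 311956483479) (l 1))) (l 1)) (b (a (a (b (l 17097336) (l 17006536))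 (l 275448927783)) (a (l 382823189975) (l 1))) (b (a (a (l 16925520) (l 17018392)) (a (a (l 16952160) (l 274375306407)) (a (b (l 1) (l 16958976)) (l 1)))) (b (a (l 17015736) (a (l 16883488) (l 299607962423))) (a (b (l 16970752) (b (l 16834800) (b (l 16832136) (l 17033032)))) (b (a (l 16848240) (l 16930200)) (b (a (l 16831496) (l 16825896)) (a (b (l 16823480) (l 17009488)) (b (l 16823128) (l 1089009694935))))))))))), by decide +kernel⟩

theorem c_pm_123 : CertF 536870912 536870912 1073741824 536870912 335544320 67108864 true true false .npn 1 2 3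
    ndF0q1 ndF2q2 pcF3 Cut.none Ext.none :=
  certF1 (fam := true) (s1 := true) (s2 := false) (a := 1) (b := 2) (c := 3) (cn := .npn) (n1 := ndF0q1) (n2 := ndF2q2) (pc := pcF3) (cut := Cut.none) (xt := Ext.none) (P1 := 536870912) (W1 := 536870912) (P2 := 1073741824) (W2 := 536870912) (P3 := 335544320) (W3 := 67108864)
    rfl (fun _ => rfl) k0_pm_123

noncomputable def f_pm_133 : ℕ → ℕ → ℕ → ℕ → Bool := onCell 536870912 536870912 0 1230186008 335544320 67108864
    (rowF 0 true true false .dn 1 3 3 (qsf 536870912 536870912 0 1230186008 3) ndF0q1 ndF2q3 pcF3 Cut.none Ext.none)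

def k0_pm_133 : ∃ t, chk3 f_pm_133 t 1 1 1 = true :=
  ⟨(b (l 2) (b (l 2) (a (l 4) (l 2)))), by decide +kernel⟩

theorem c_pm_133 : CertF 536870912 536870912 0 1230186008 335544320 67108864 true true false .dn 1 3 3
    ndF0q1 ndF2q3 pcF3 Cut.none Ext.none :=
  certF0 (fam := true) (s1 := true) (s2 := false) (a := 1) (b := 3) (c := 3) (cn := .dn) (n1 := ndF0q1) (n2 := ndF2q3) (pc := pcF3) (cut := Cut.none) (xt := Ext.none) (P1 := 536870912) (W1 := 536870912) (P2 := 0) (W2 := 1230186008) (P3 := 335544320) (W3 := 67108864)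
    rfl k0_pm_133

noncomputable def f_pm_202 : ℕ → ℕ → ℕ → ℕ → Bool := onCell 0 536870912 0 536870912 335544320 67108864
    (rowF 0 true true false .pp 2 0 2 (qsf 0 536870912 0 536870912 2) ndF0q2 ndF2q0 pcF2 Cut.none Ext.none)

def k0_pm_202 : ∃ t, chk3 f_pm_202 t 1 1 1 = true :=
  ⟨(a (b (b (a (b (b (l 16620224) (l 16691544)) (l 16788056)) (b (b (a (l 16640536) (l 16652200)) (l 16807576)) (l 16961136))) (a (b (l 16888352) (l 16945344)) (b (l 16972112) (l 17066232)))) (b (b (a (l 16966432) (l 17115952)) (a (l 4) (l 17096008))) (b (a (l 2) (l 17028608)) (l 2)))) (b (a (b (b (b (a (l 16656824) (l 16681208)) (a (l 16730176) (l 16732264))) (a (l 16863344) (l 16857728))) (b (a (l 17017968) (l 17038360)) (l 17190064))) (b (b (a (b (b (l 16724456) (l 16733736)) (l 16756768)) (a (b (b (l 16782064) (l 16782856)) (l 16793544)) (b (a (b (l 16814688) (l 16814304)) (b (l 16837928) (l 16836472))) (l 16830904)))) (a (l 16835848) (b (l 16835192) (l 16879088)))) (b (a (l 17017520) (l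 16983544)) (a (l 17234840) (l 17201032))))) (b (a (b (l 17306264) (l 17363472)) (a (l 17686528) (b (l 17438728) (l 17360832)))) (a (b (l 17228608) (l 2)) (b (l 17319104) (l 17272208)))))), by decide +kernel⟩

theorem c_pm_202 : CertF 0 536870912 0 536870912 335544320 67108864 true true false .pp 2 0 2
    ndF0q2 ndF2q0 pcF2 Cut.none Ext.none :=
  certF0 (fam := true) (s1 := true) (s2 := false) (a := 2) (b := 0) (c := 2) (cn := .pp) (n1 := ndF0q2) (n2 := ndF2q0) (pc := pcF2) (cut := Cut.none) (xt := Ext.none) (P1 := 0) (W1 := 536870912) (P2 := 0) (W2 := 536870912) (P3 := 335544320) (W3 := 67108864)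
    rfl k0_pm_202

noncomputable def f_pm_203 : ℕ → ℕ → ℕ → ℕ → Bool := onCell 0 536870912 1610612736 536870912 335544320 67108864
    (rowF 1 true true false .up 2 0 3 (qsf 0 536870912 0 536870912 3) ndF0q2 ndF2q0 pcF3 Cut.none Ext.none)

def k0_pm_203 : ∃ t, chk3 f_pm_203 t 1 1 1 = true :=
  ⟨(b (b (a (b (l 16991320) (l 4)) (b (l 17149144) (l 17092944))) (a (l 4) (l 17208016))) (l 2)), by decide +kernel⟩

theorem c_pm_203 : CertF 0 536870912 0 536870912 335544320 67108864 true true false .up 2 0 3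
    ndF0q2 ndF2q0 pcF3 Cut.none Ext.none :=
  certF1 (fam := true) (s1 := true) (s2 := false) (a := 2) (b := 0) (c := 3) (cn := .up) (n1 := ndF0q2) (n2 := ndF2q0) (pc := pcF3) (cut := Cut.none) (xt := Ext.none) (P1 := 0) (W1 := 536870912) (P2 := 0) (W2 := 536870912) (P3 := 335544320) (W3 := 67108864)
    rfl (fun _ => rfl) k0_pm_203

noncomputable def f_pm_213 : ℕ → ℕ → ℕ → ℕ → Bool := onCell 0 536870912 536870912 536870912 335544320 67108864
    (rowF 0 true true false .pnn 2 1 3 (qsf 0 536870912 536870912 536870912 3) ndF0q2 ndF2q1 pcF3 Cut.none Ext.none)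

def k0_pm_213 : ∃ t, chk3 f_pm_213 t 1 1 1 = true :=
  ⟨(a (l 4) (b (b (a (b (l 17053440) (l 4)) (b (l 17258728) (l 17333360))) (a (l 4) (b (a (l 4) (l 17258992)) (l 4)))) (l 4))), by decide +kernel⟩

theorem c_pm_213 : CertF 0 536870912 536870912 536870912 335544320 67108864 true true false .pnn 2 1 3
    ndF0q2 ndF2q1 pcF3 Cut.none Ext.none :=
  certF0 (fam := true) (s1 := true) (s2 := false) (a := 2) (b := 1) (c := 3) (cn := .pnn) (n1 := ndF0q2) (n2 := ndF2q1) (pc := pcF3) (cut := Cut.none) (xt := Ext.none) (P1 := 0) (W1 := 536870912) (P2 := 536870912) (W2 := 536870912) (P3 := 335544320) (W3 := 67108864)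
    rfl k0_pm_213

noncomputable def f_mm_001 : ℕ → ℕ → ℕ → ℕ → Bool := onCell 0 536870912 0 536870912 335544320 67108864
    (rowF 0 true false false .up 0 0 1 (qsf 0 536870912 0 536870912 1) ndF0q0 ndF2q0 pcF1 Cut.none Ext.none)

def k0_mm_001 : ∃ t, chk3 f_mm_001 t 1 1 1 = true :=
  ⟨(l 4), by decide +kernel⟩

theorem c_mm_001 : CertF 0 536870912 0 536870912 335544320 67108864 true false false .up 0 0 1
    ndF0q0 ndF2q0 pcF1 Cut.none Ext.none :=
  certF0 (fam := true) (s1 := false) (s2 := false) (a := 0) (b := 0) (c := 1) (cn := .up) (n1 := ndF0q0) (n2 := ndF2q0) (pc := pcF1) (cut := Cut.none) (xt := Ext.none) (P1 := 0) (W1 := 536870912) (P2 := 0) (W2 := 536870912) (P3 := 335544320) (W3 := 67108864)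
    rfl k0_mm_001

noncomputable def f_mm_011 : ℕ → ℕ → ℕ → ℕ → Bool := onCell 0 536870912 536870912 536870912 335544320 67108864
    (rowF 0 true false false .pnn 0 1 1 (qsf 0 536870912 536870912 536870912 1) ndF0q0 ndF2q1 pcF1 Cut.none Ext.none)

def k0_mm_011 : ∃ t, chk3 f_mm_011 t 1 1 1 = true :=
  ⟨(l 4), by decide +kernel⟩

theorem c_mm_011 : CertF 0 536870912 536870912 536870912 335544320 67108864 true false false .pnn 0 1 1
    ndF0q0 ndF2q1 pcF1 Cut.none Ext.none :=
  certF0 (fam := true) (s1 := false) (s2 := false) (a := 0) (b := 1) (c := 1) (cn := .pnn) (n1 := ndF0q0) (n2 := ndF2q1) (pc := pcF1) (cut := Cut.none) (xt := Ext.none) (P1 := 0) (W1 := 536870912) (P2 := 536870912) (W2 := 536870912) (P3 := 335544320) (W3 := 67108864)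
    rfl k0_mm_011

noncomputable def f_mm_012 : ℕ → ℕ → ℕ → ℕ → Bool := onCell 0 536870912 536870912 536870912 335544320 67108864
    (rowF 0 true false false .pnp 0 1 2 (qsf 0 536870912 536870912 536870912 2) ndF0q0 ndF2q1 pcF2 Cut.none Ext.none)

def k0_mm_012 : ∃ t, chk3 f_mm_012 t 1 1 1 = true :=
  ⟨(l 4), by decide +kernel⟩

theorem c_mm_012 : CertF 0 536870912 536870912 536870912 335544320 67108864 true false false .pnp 0 1 2
    ndF0q0 ndF2q1 pcF2 Cut.none Ext.none :=
  certF0 (fam := true) (s1 := false) (s2 := false) (a := 0) (b := 1) (c := 2) (cn := .pnp) (n1 := ndF0q0) (n2 := ndF2q1) (pc := pcF2) (cut := Cut.none) (xt := Ext.none) (P1 := 0) (W1 := 536870912) (P2 := 536870912) (W2 := 536870912) (P3 := 335544320) (W3 := 67108864)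
    rfl k0_mm_012

noncomputable def f_mm_022 : ℕ → ℕ → ℕ → ℕ → Bool := onCell 0 536870912 1073741824 536870912 335544320 67108864
    (rowF 0 true false false .pp 0 2 2 (qsf 0 536870912 1073741824 536870912 2) ndF0q0 ndF2q2 pcF2 Cut.none Ext.none)

def k0_mm_022 : ∃ t, chk3 f_mm_022 t 1 1 1 = true :=
  ⟨(l 4), by decide +kernel⟩

theorem c_mm_022 : CertF 0 536870912 1073741824 536870912 335544320 67108864 true false false .pp 0 2 2
    ndF0q0 ndF2q2 pcF2 Cut.none Ext.none :=
  certF0 (fam := true) (s1 := false) (s2 := false) (a := 0) (b := 2) (c := 2) (cn := .pp) (n1 := ndF0q0) (n2 := ndF2q2) (pc := pcF2) (cut := Cut.none) (xt := Ext.none) (P1 := 0) (W1 := 536870912) (P2 := 1073741824) (W2 := 536870912) (P3 := 335544320) (W3 := 67108864)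
    rfl k0_mm_022

noncomputable def f_mm_023 : ℕ → ℕ → ℕ → ℕ → Bool := onCell 0 536870912 1073741824 536870912 335544320 67108864
    (rowF 0 true false false .up 0 2 3 (qsf 0 536870912 1073741824 536870912 3) ndF0q0 ndF2q2 pcF3 Cut.none Ext.none)

def k0_mm_023 : ∃ t, chk3 f_mm_023 t 1 1 1 = true :=
  ⟨(l 4), by decide +kernel⟩

theorem c_mm_023 : CertF 0 536870912 1073741824 536870912 335544320 67108864 true false false .up 0 2 3
    ndF0q0 ndF2q2 pcF3 Cut.none Ext.none :=
  certF0 (fam := true) (s1 := false) (s2 := false) (a := 0) (b := 2) (c := 3) (cn := .up) (n1 := ndF0q0) (n2 := ndF2q2) (pc := pcF3) (cut := Cut.none) (xt := Ext.none) (P1 := 0) (W1 := 536870912) (P2 := 1073741824) (W2 := 536870912) (P3 := 335544320) (W3 := 67108864)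
    rfl k0_mm_023

noncomputable def f_mm_033 : ℕ → ℕ → ℕ → ℕ → Bool := onCell 0 536870912 0 1230186008 335544320 67108864
    (rowF 0 true false false .pnn 0 3 3 (qsf 0 536870912 0 1230186008 3) ndF0q0 ndF2q3 pcF3 Cut.none Ext.none)

def k0_mm_033 : ∃ t, chk3 f_mm_033 t 1 1 1 = true :=
  ⟨(l 5), by decide +kernel⟩

theorem c_mm_033 : CertF 0 536870912 0 1230186008 335544320 67108864 true false false .pnn 0 3 3
    ndF0q0 ndF2q3 pcF3 Cut.none Ext.none :=
  certF0 (fam := true) (s1 := false) (s2 := false) (a := 0) (b := 3) (c := 3) (cn := .pnn) (n1 := ndF0q0) (n2 := ndF2q3) (pc := pcF3) (cut := Cut.none) (xt := Ext.none) (P1 := 0) (W1 := 536870912) (P2 := 0) (W2 := 1230186008) (P3 := 335544320) (W3 := 67108864)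
    rfl k0_mm_033

noncomputable def f_mm_101 : ℕ → ℕ → ℕ → ℕ → Bool := onCell 536870912 536870912 0 536870912 335544320 67108864
    (rowF 0 true false false .npn 1 0 1 (qsf 536870912 536870912 0 536870912 1) ndF0q1 ndF2q0 pcF1 Cut.none Ext.none)

def k0_mm_101 : ∃ t, chk3 f_mm_101 t 1 1 1 = true :=
  ⟨(a (l 4) (l 4)), by decide +kernel⟩

theorem c_mm_101 : CertF 536870912 536870912 0 536870912 335544320 67108864 true false false .npn 1 0 1
    ndF0q1 ndF2q0 pcF1 Cut.none Ext.none :=
  certF0 (fam := true) (s1 := false) (s2 := false) (a := 1) (b := 0) (c := 1) (cn := .npn) (n1 := ndF0q1) (n2 := ndF2q0) (pc := pcF1) (cut := Cut.none) (xt := Ext.none) (P1 := 536870912) (W1 := 536870912) (P2 := 0) (W2 := 536870912) (P3 := 335544320) (W3 := 67108864)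
    rfl k0_mm_101

noncomputable def f_mm_102 : ℕ → ℕ → ℕ → ℕ → Bool := onCell 536870912 536870912 0 536870912 335544320 67108864
    (rowF 0 true false false .npp 1 0 2 (qsf 536870912 536870912 0 536870912 2) ndF0q1 ndF2q0 pcF2 Cut.none Ext.none)

def k0_mm_102 : ∃ t, chk3 f_mm_102 t 1 1 1 = true :=
  ⟨(a (l 4) (l 4)), by decide +kernel⟩

theorem c_mm_102 : CertF 536870912 536870912 0 536870912 335544320 67108864 true false false .npp 1 0 2
    ndF0q1 ndF2q0 pcF2 Cut.none Ext.none :=
  certF0 (fam := true) (s1 := false) (s2 := false) (a := 1) (b := 0) (c := 2) (cn := .npp) (n1 := ndF0q1) (n2 := ndF2q0) (pc := pcF2) (cut := Cut.none) (xt := Ext.none) (P1 := 536870912) (W1 := 536870912) (P2 := 0) (W2 := 536870912) (P3 := 335544320) (W3 := 67108864)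
    rfl k0_mm_102

noncomputable def f_mm_112 : ℕ → ℕ → ℕ → ℕ → Bool := onCell 536870912 536870912 536870912 536870912 335544320 67108864
    (rowF 0 true false false .dn 1 1 2 (qsf 536870912 536870912 536870912 536870912 2) ndF0q1 ndF2q1 pcF2 Cut.none Ext.none)

def k0_mm_112 : ∃ t, chk3 f_mm_112 t 1 1 1 = true :=
  ⟨(l 4), by decide +kernel⟩

theorem c_mm_112 : CertF 536870912 536870912 536870912 536870912 335544320 67108864 true false false .dn 1 1 2
    ndF0q1 ndF2q1 pcF2 Cut.none Ext.none :=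
  certF0 (fam := true) (s1 := false) (s2 := false) (a := 1) (b := 1) (c := 2) (cn := .dn) (n1 := ndF0q1) (n2 := ndF2q1) (pc := pcF2) (cut := Cut.none) (xt := Ext.none) (P1 := 536870912) (W1 := 536870912) (P2 := 536870912) (W2 := 536870912) (P3 := 335544320) (W3 := 67108864)
    rfl k0_mm_112

noncomputable def f_mm_113 : ℕ → ℕ → ℕ → ℕ → Bool := onCell 536870912 536870912 536870912 536870912 335544320 67108864
    (rowF 0 true false false .nn 1 1 3 (qsf 536870912 536870912 536870912 536870912 3) ndF0q1 ndF2q1 pcF3 Cut.none Ext.none)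

def k0_mm_113 : ∃ t, chk3 f_mm_113 t 1 1 1 = true :=
  ⟨(l 4), by decide +kernel⟩

theorem c_mm_113 : CertF 536870912 536870912 536870912 536870912 335544320 67108864 true false false .nn 1 1 3
    ndF0q1 ndF2q1 pcF3 Cut.none Ext.none :=
  certF0 (fam := true) (s1 := false) (s2 := false) (a := 1) (b := 1) (c := 3) (cn := .nn) (n1 := ndF0q1) (n2 := ndF2q1) (pc := pcF3) (cut := Cut.none) (xt := Ext.none) (P1 := 536870912) (W1 := 536870912) (P2 := 536870912) (W2 := 536870912) (P3 := 335544320) (W3 := 67108864)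
    rfl k0_mm_113

noncomputable def f_mm_123 : ℕ → ℕ → ℕ → ℕ → Bool := onCell 536870912 536870912 1073741824 536870912 335544320 67108864
    (rowF 0 true false false .npn 1 2 3 (qsf 536870912 536870912 1073741824 536870912 3) ndF0q1 ndF2q2 pcF3 Cut.none Ext.none)

def k0_mm_123 : ∃ t, chk3 f_mm_123 t 1 1 1 = true :=
  ⟨(l 4), by decide +kernel⟩

theorem c_mm_123 : CertF 536870912 536870912 1073741824 536870912 335544320 67108864 true false false .npn 1 2 3
    ndF0q1 ndF2q2 pcF3 Cut.none Ext.none :=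
  certF0 (fam := true) (s1 := false) (s2 := false) (a := 1) (b := 2) (c := 3) (cn := .npn) (n1 := ndF0q1) (n2 := ndF2q2) (pc := pcF3) (cut := Cut.none) (xt := Ext.none) (P1 := 536870912) (W1 := 536870912) (P2 := 1073741824) (W2 := 536870912) (P3 := 335544320) (W3 := 67108864)
    rfl k0_mm_123

noncomputable def f_mm_133 : ℕ → ℕ → ℕ → ℕ → Bool := onCell 1610612736 536870912 0 1230186008 335544320 67108864
    (rowF 2 true false false .dn 1 3 3 (qsf 536870912 536870912 0 1230186008 3) ndF0q1 ndF2q3 pcF3 Cut.none Ext.none)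

def k0_mm_133 : ∃ t, chk3 f_mm_133 t 1 1 1 = true :=
  ⟨(l 5), by decide +kernel⟩

theorem c_mm_133 : CertF 536870912 536870912 0 1230186008 335544320 67108864 true false false .dn 1 3 3
    ndF0q1 ndF2q3 pcF3 Cut.none Ext.none :=
  certF2 (fam := true) (s1 := false) (s2 := false) (a := 1) (b := 3) (c := 3) (cn := .dn) (n1 := ndF0q1) (n2 := ndF2q3) (pc := pcF3) (cut := Cut.none) (xt := Ext.none) (P1 := 536870912) (W1 := 536870912) (P2 := 0) (W2 := 1230186008) (P3 := 335544320) (W3 := 67108864)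
    rfl (fun _ => rfl) k0_mm_133

noncomputable def f_mm_202 : ℕ → ℕ → ℕ → ℕ → Bool := onCell 0 536870912 0 536870912 335544320 67108864
    (rowF 0 true false false .pp 2 0 2 (qsf 0 536870912 0 536870912 2) ndF0q2 ndF2q0 pcF2 Cut.none Ext.none)

def k0_mm_202 : ∃ t, chk3 f_mm_202 t 1 1 1 = true :=
  ⟨(b (a (b (b (a (b (l 16599528) (l 16664720)) (b (a (l 16602584) (l 16620952)) (l 16671312))) (a (l 16749088) (b (l 16715560) (l 16748256)))) (a (b (l 16822968) (l 16866080)) (l 4))) (b (a (b (b (a (l 16799608) (b (l 16723368) (l 4))) (l 13657053847)) (l 4)) (l 4)) (l 4))) (l 4)), by decide +kernel⟩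

theorem c_mm_202 : CertF 0 536870912 0 536870912 335544320 67108864 true false false .pp 2 0 2
    ndF0q2 ndF2q0 pcF2 Cut.none Ext.none :=
  certF0 (fam := true) (s1 := false) (s2 := false) (a := 2) (b := 0) (c := 2) (cn := .pp) (n1 := ndF0q2) (n2 := ndF2q0) (pc := pcF2) (cut := Cut.none) (xt := Ext.none) (P1 := 0) (W1 := 536870912) (P2 := 0) (W2 := 536870912) (P3 := 335544320) (W3 := 67108864)
    rfl k0_mm_202

noncomputable def f_mm_203 : ℕ → ℕ → ℕ → ℕ → Bool := onCell 0 536870912 1610612736 536870912 335544320 67108864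
    (rowF 1 true false false .up 2 0 3 (qsf 0 536870912 0 536870912 3) ndF0q2 ndF2q0 pcF3 Cut.none Ext.none)

def k0_mm_203 : ∃ t, chk3 f_mm_203 t 1 1 1 = true :=
  ⟨(l 4), by decide +kernel⟩

theorem c_mm_203 : CertF 0 536870912 0 536870912 335544320 67108864 true false false .up 2 0 3
    ndF0q2 ndF2q0 pcF3 Cut.none Ext.none :=
  certF1 (fam := true) (s1 := false) (s2 := false) (a := 2) (b := 0) (c := 3) (cn := .up) (n1 := ndF0q2) (n2 := ndF2q0) (pc := pcF3) (cut := Cut.none) (xt := Ext.none) (P1 := 0) (W1 := 536870912) (P2 := 0) (W2 := 536870912) (P3 := 335544320) (W3 := 67108864)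
    rfl (fun _ => rfl) k0_mm_203

noncomputable def f_mm_213 : ℕ → ℕ → ℕ → ℕ → Bool := onCell 0 536870912 536870912 536870912 335544320 67108864
    (rowF 0 true false false .pnn 2 1 3 (qsf 0 536870912 536870912 536870912 3) ndF0q2 ndF2q1 pcF3 Cut.none Ext.none)

def k0_mm_213 : ∃ t, chk3 f_mm_213 t 1 1 1 = true :=
  ⟨(l 4), by decide +kernel⟩

theorem c_mm_213 : CertF 0 536870912 536870912 536870912 335544320 67108864 true false false .pnn 2 1 3
    ndF0q2 ndF2q1 pcF3 Cut.none Ext.none :=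
  certF0 (fam := true) (s1 := false) (s2 := false) (a := 2) (b := 1) (c := 3) (cn := .pnn) (n1 := ndF0q2) (n2 := ndF2q1) (pc := pcF3) (cut := Cut.none) (xt := Ext.none) (P1 := 0) (W1 := 536870912) (P2 := 536870912) (W2 := 536870912) (P3 := 335544320) (W3 := 67108864)
    rfl k0_mm_213

end Pool.Agent.Strip051.G.I5_16_3_8.Tab.C.FA02

namespace Pool.Agent.Strip051.G.I5_16_3_8.Tab.C.FA03

open Pool.Agent.Strip051.PB Pool.Agent.Strip051.PB.T
open Pool.Agent.Strip051.G.I5_16_3_8.Tab

noncomputable def f_pp_001 : ℕ → ℕ → ℕ → ℕ → Bool := onCell 0 536870912 0 536870912 335544320 67108864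
    (rowF 0 true true true .up 0 0 1 (qsf 0 536870912 0 536870912 1) ndF0q0 ndF3q0 pcF1 Cut.none Ext.none)

def k0_pp_001 : ∃ t, chk3 f_pp_001 t 1 1 1 = true :=
  ⟨(l 4), by decide +kernel⟩

theorem c_pp_001 : CertF 0 536870912 0 536870912 335544320 67108864 true true true .up 0 0 1
    ndF0q0 ndF3q0 pcF1 Cut.none Ext.none :=
  certF0 (fam := true) (s1 := true) (s2 := true) (a := 0) (b := 0) (c := 1) (cn := .up) (n1 := ndF0q0) (n2 := ndF3q0) (pc := pcF1) (cut := Cut.none) (xt := Ext.none) (P1 := 0) (W1 := 536870912) (P2 := 0) (W2 := 536870912) (P3 := 335544320) (W3 := 67108864)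
    rfl k0_pp_001

noncomputable def f_pp_011 : ℕ → ℕ → ℕ → ℕ → Bool := onCell 0 536870912 536870912 536870912 335544320 67108864
    (rowF 0 true true true .pnn 0 1 1 (qsf 0 536870912 536870912 536870912 1) ndF0q0 ndF3q1 pcF1 Cut.none Ext.none)

def k0_pp_011 : ∃ t, chk3 f_pp_011 t 1 1 1 = true :=
  ⟨(l 4), by decide +kernel⟩

theorem c_pp_011 : CertF 0 536870912 536870912 536870912 335544320 67108864 true true true .pnn 0 1 1
    ndF0q0 ndF3q1 pcF1 Cut.none Ext.none :=
  certF0 (fam := true) (s1 := true) (s2 := true) (a := 0) (b := 1) (c := 1) (cn := .pnn) (n1 := ndF0q0) (n2 := ndF3q1) (pc := pcF1) (cut := Cut.none) (xt := Ext.none) (P1 := 0) (W1 := 536870912) (P2 := 536870912) (W2 := 536870912) (P3 := 335544320) (W3 := 67108864)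
    rfl k0_pp_011

noncomputable def f_pp_012 : ℕ → ℕ → ℕ → ℕ → Bool := onCell 0 536870912 536870912 536870912 335544320 67108864
    (rowF 0 true true true .pnp 0 1 2 (qsf 0 536870912 536870912 536870912 2) ndF0q0 ndF3q1 pcF2 Cut.none Ext.none)

def k0_pp_012 : ∃ t, chk3 f_pp_012 t 1 1 1 = true :=
  ⟨(l 4), by decide +kernel⟩

theorem c_pp_012 : CertF 0 536870912 536870912 536870912 335544320 67108864 true true true .pnp 0 1 2
    ndF0q0 ndF3q1 pcF2 Cut.none Ext.none :=
  certF0 (fam := true) (s1 := true) (s2 := true) (a := 0) (b := 1) (c := 2) (cn := .pnp) (n1 := ndF0q0) (n2 := ndF3q1) (pc := pcF2) (cut := Cut.none) (xt := Ext.none) (P1 := 0) (W1 := 536870912) (P2 := 536870912) (W2 := 536870912) (P3 := 335544320) (W3 := 67108864)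
    rfl k0_pp_012

noncomputable def f_pp_022 : ℕ → ℕ → ℕ → ℕ → Bool := onCell 0 536870912 1073741824 536870912 335544320 67108864
    (rowF 0 true true true .pp 0 2 2 (qsf 0 536870912 1073741824 536870912 2) ndF0q0 ndF3q2 pcF2 Cut.none Ext.none)

def k0_pp_022 : ∃ t, chk3 f_pp_022 t 1 1 1 = true :=
  ⟨(l 4), by decide +kernel⟩

theorem c_pp_022 : CertF 0 536870912 1073741824 536870912 335544320 67108864 true true true .pp 0 2 2
    ndF0q0 ndF3q2 pcF2 Cut.none Ext.none :=
  certF0 (fam := true) (s1 := true) (s2 := true) (a := 0) (b := 2) (c := 2) (cn := .pp) (n1 := ndF0q0) (n2 := ndF3q2) (pc := pcF2) (cut := Cut.none) (xt := Ext.none) (P1 := 0) (W1 := 536870912) (P2 := 1073741824) (W2 := 536870912) (P3 := 335544320) (W3 := 67108864)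
    rfl k0_pp_022

noncomputable def f_pp_023 : ℕ → ℕ → ℕ → ℕ → Bool := onCell 0 536870912 1073741824 536870912 335544320 67108864
    (rowF 0 true true true .up 0 2 3 (qsf 0 536870912 1073741824 536870912 3) ndF0q0 ndF3q2 pcF3 Cut.none Ext.none)

def k0_pp_023 : ∃ t, chk3 f_pp_023 t 1 1 1 = true :=
  ⟨(l 4), by decide +kernel⟩

theorem c_pp_023 : CertF 0 536870912 1073741824 536870912 335544320 67108864 true true true .up 0 2 3
    ndF0q0 ndF3q2 pcF3 Cut.none Ext.none :=
  certF0 (fam := true) (s1 := true) (s2 := true) (a := 0) (b := 2) (c := 3) (cn := .up) (n1 := ndF0q0) (n2 := ndF3q2) (pc := pcF3) (cut := Cut.none) (xt := Ext.none) (P1 := 0) (W1 := 536870912) (P2 := 1073741824) (W2 := 536870912) (P3 := 335544320) (W3 := 67108864)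
    rfl k0_pp_023

noncomputable def f_pp_033 : ℕ → ℕ → ℕ → ℕ → Bool := onCell 0 536870912 0 1230186008 335544320 67108864
    (rowF 0 true true true .pnn 0 3 3 (qsf 0 536870912 0 1230186008 3) ndF0q0 ndF3q3 pcF3 Cut.none Ext.none)

def k0_pp_033 : ∃ t, chk3 f_pp_033 t 1 1 1 = true :=
  ⟨(b (l 4) (l 4)), by decide +kernel⟩

theorem c_pp_033 : CertF 0 536870912 0 1230186008 335544320 67108864 true true true .pnn 0 3 3
    ndF0q0 ndF3q3 pcF3 Cut.none Ext.none :=
  certF0 (fam := true) (s1 := true) (s2 := true) (a := 0) (b := 3) (c := 3) (cn := .pnn) (n1 := ndF0q0) (n2 := ndF3q3) (pc := pcF3) (cut := Cut.none) (xt := Ext.none) (P1 := 0) (W1 := 536870912) (P2 := 0) (W2 := 1230186008) (P3 := 335544320) (W3 := 67108864)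
    rfl k0_pp_033

noncomputable def f_pp_101 : ℕ → ℕ → ℕ → ℕ → Bool := onCell 536870912 536870912 0 536870912 335544320 67108864
    (rowF 0 true true true .npn 1 0 1 (qsf 536870912 536870912 0 536870912 1) ndF0q1 ndF3q0 pcF1 Cut.none Ext.none)

def k0_pp_101 : ∃ t, chk3 f_pp_101 t 1 1 1 = true :=
  ⟨(l 4), by decide +kernel⟩

theorem c_pp_101 : CertF 536870912 536870912 0 536870912 335544320 67108864 true true true .npn 1 0 1
    ndF0q1 ndF3q0 pcF1 Cut.none Ext.none :=
  certF0 (fam := true) (s1 := true) (s2 := true) (a := 1) (b := 0) (c := 1) (cn := .npn) (n1 := ndF0q1) (n2 := ndF3q0) (pc := pcF1) (cut := Cut.none) (xt := Ext.none) (P1 := 536870912) (W1 := 536870912) (P2 := 0) (W2 := 536870912) (P3 := 335544320) (W3 := 67108864)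
    rfl k0_pp_101

noncomputable def f_pp_102 : ℕ → ℕ → ℕ → ℕ → Bool := onCell 536870912 536870912 0 536870912 335544320 67108864
    (rowF 0 true true true .npp 1 0 2 (qsf 536870912 536870912 0 536870912 2) ndF0q1 ndF3q0 pcF2 Cut.none Ext.none)

def k0_pp_102 : ∃ t, chk3 f_pp_102 t 1 1 1 = true :=
  ⟨(l 4), by decide +kernel⟩

theorem c_pp_102 : CertF 536870912 536870912 0 536870912 335544320 67108864 true true true .npp 1 0 2
    ndF0q1 ndF3q0 pcF2 Cut.none Ext.none :=
  certF0 (fam := true) (s1 := true) (s2 := true) (a := 1) (b := 0) (c := 2) (cn := .npp) (n1 := ndF0q1) (n2 := ndF3q0) (pc := pcF2) (cut := Cut.none) (xt := Ext.none) (P1 := 536870912) (W1 := 536870912) (P2 := 0) (W2 := 536870912) (P3 := 335544320) (W3 := 67108864)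
    rfl k0_pp_102

noncomputable def f_pp_112 : ℕ → ℕ → ℕ → ℕ → Bool := onCell 536870912 536870912 536870912 536870912 335544320 67108864
    (rowF 0 true true true .dn 1 1 2 (qsf 536870912 536870912 536870912 536870912 2) ndF0q1 ndF3q1 pcF2 Cut.none Ext.none)

def k0_pp_112 : ∃ t, chk3 f_pp_112 t 1 1 1 = true :=
  ⟨(l 4), by decide +kernel⟩

theorem c_pp_112 : CertF 536870912 536870912 536870912 536870912 335544320 67108864 true true true .dn 1 1 2
    ndF0q1 ndF3q1 pcF2 Cut.none Ext.none :=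
  certF0 (fam := true) (s1 := true) (s2 := true) (a := 1) (b := 1) (c := 2) (cn := .dn) (n1 := ndF0q1) (n2 := ndF3q1) (pc := pcF2) (cut := Cut.none) (xt := Ext.none) (P1 := 536870912) (W1 := 536870912) (P2 := 536870912) (W2 := 536870912) (P3 := 335544320) (W3 := 67108864)
    rfl k0_pp_112

noncomputable def f_pp_113 : ℕ → ℕ → ℕ → ℕ → Bool := onCell 536870912 536870912 536870912 536870912 335544320 67108864
    (rowF 0 true true true .nn 1 1 3 (qsf 536870912 536870912 536870912 536870912 3) ndF0q1 ndF3q1 pcF3 Cut.none Ext.none)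

def k0_pp_113 : ∃ t, chk3 f_pp_113 t 1 1 1 = true :=
  ⟨(l 4), by decide +kernel⟩

theorem c_pp_113 : CertF 536870912 536870912 536870912 536870912 335544320 67108864 true true true .nn 1 1 3
    ndF0q1 ndF3q1 pcF3 Cut.none Ext.none :=
  certF0 (fam := true) (s1 := true) (s2 := true) (a := 1) (b := 1) (c := 3) (cn := .nn) (n1 := ndF0q1) (n2 := ndF3q1) (pc := pcF3) (cut := Cut.none) (xt := Ext.none) (P1 := 536870912) (W1 := 536870912) (P2 := 536870912) (W2 := 536870912) (P3 := 335544320) (W3 := 67108864)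
    rfl k0_pp_113

noncomputable def f_pp_123 : ℕ → ℕ → ℕ → ℕ → Bool := onCell 536870912 536870912 1073741824 536870912 335544320 67108864
    (rowF 0 true true true .npn 1 2 3 (qsf 536870912 536870912 1073741824 536870912 3) ndF0q1 ndF3q2 pcF3 Cut.none Ext.none)

def k0_pp_123 : ∃ t, chk3 f_pp_123 t 1 1 1 = true :=
  ⟨(l 4), by decide +kernel⟩

theorem c_pp_123 : CertF 536870912 536870912 1073741824 536870912 335544320 67108864 true true true .npn 1 2 3
    ndF0q1 ndF3q2 pcF3 Cut.none Ext.none :=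
  certF0 (fam := true) (s1 := true) (s2 := true) (a := 1) (b := 2) (c := 3) (cn := .npn) (n1 := ndF0q1) (n2 := ndF3q2) (pc := pcF3) (cut := Cut.none) (xt := Ext.none) (P1 := 536870912) (W1 := 536870912) (P2 := 1073741824) (W2 := 536870912) (P3 := 335544320) (W3 := 67108864)
    rfl k0_pp_123

noncomputable def f_pp_133 : ℕ → ℕ → ℕ → ℕ → Bool := onCell 536870912 536870912 0 1230186008 335544320 67108864
    (rowF 0 true true true .dn 1 3 3 (qsf 536870912 536870912 0 1230186008 3) ndF0q1 ndF3q3 pcF3 Cut.none Ext.none)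

def k0_pp_133 : ∃ t, chk3 f_pp_133 t 1 1 1 = true :=
  ⟨(l 4), by decide +kernel⟩

theorem c_pp_133 : CertF 536870912 536870912 0 1230186008 335544320 67108864 true true true .dn 1 3 3
    ndF0q1 ndF3q3 pcF3 Cut.none Ext.none :=
  certF0 (fam := true) (s1 := true) (s2 := true) (a := 1) (b := 3) (c := 3) (cn := .dn) (n1 := ndF0q1) (n2 := ndF3q3) (pc := pcF3) (cut := Cut.none) (xt := Ext.none) (P1 := 536870912) (W1 := 536870912) (P2 := 0) (W2 := 1230186008) (P3 := 335544320) (W3 := 67108864)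
    rfl k0_pp_133

noncomputable def f_pp_202 : ℕ → ℕ → ℕ → ℕ → Bool := onCell 0 536870912 0 536870912 335544320 67108864
    (rowF 0 true true true .pp 2 0 2 (qsf 0 536870912 0 536870912 2) ndF0q2 ndF3q0 pcF2 Cut.none Ext.none)

def k0_pp_202 : ∃ t, chk3 f_pp_202 t 1 1 1 = true :=
  ⟨(l 5), by decide +kernel⟩

theorem c_pp_202 : CertF 0 536870912 0 536870912 335544320 67108864 true true true .pp 2 0 2
    ndF0q2 ndF3q0 pcF2 Cut.none Ext.none :=
  certF0 (fam := true) (s1 := true) (s2 := true) (a := 2) (b := 0) (c := 2) (cn := .pp) (n1 := ndF0q2) (n2 := ndF3q0) (pc := pcF2) (cut := Cut.none) (xt := Ext.none) (P1 := 0) (W1 := 536870912) (P2 := 0) (W2 := 536870912) (P3 := 335544320) (W3 := 67108864)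
    rfl k0_pp_202

noncomputable def f_pp_203 : ℕ → ℕ → ℕ → ℕ → Bool := onCell 0 536870912 0 536870912 335544320 67108864
    (rowF 0 true true true .up 2 0 3 (qsf 0 536870912 0 536870912 3) ndF0q2 ndF3q0 pcF3 Cut.none Ext.none)

def k0_pp_203 : ∃ t, chk3 f_pp_203 t 1 1 1 = true :=
  ⟨(l 5), by decide +kernel⟩

theorem c_pp_203 : CertF 0 536870912 0 536870912 335544320 67108864 true true true .up 2 0 3
    ndF0q2 ndF3q0 pcF3 Cut.none Ext.none :=
  certF0 (fam := true) (s1 := true) (s2 := true) (a := 2) (b := 0) (c := 3) (cn := .up) (n1 := ndF0q2) (n2 := ndF3q0) (pc := pcF3) (cut := Cut.none) (xt := Ext.none) (P1 := 0) (W1 := 536870912) (P2 := 0) (W2 := 536870912) (P3 := 335544320) (W3 := 67108864)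
    rfl k0_pp_203

noncomputable def f_pp_213 : ℕ → ℕ → ℕ → ℕ → Bool := onCell 0 536870912 536870912 536870912 335544320 67108864
    (rowF 0 true true true .pnn 2 1 3 (qsf 0 536870912 536870912 536870912 3) ndF0q2 ndF3q1 pcF3 Cut.none Ext.none)

def k0_pp_213 : ∃ t, chk3 f_pp_213 t 1 1 1 = true :=
  ⟨(l 4), by decide +kernel⟩

theorem c_pp_213 : CertF 0 536870912 536870912 536870912 335544320 67108864 true true true .pnn 2 1 3
    ndF0q2 ndF3q1 pcF3 Cut.none Ext.none :=
  certF0 (fam := true) (s1 := true) (s2 := true) (a := 2) (b := 1) (c := 3) (cn := .pnn) (n1 := ndF0q2) (n2 := ndF3q1) (pc := pcF3) (cut := Cut.none) (xt := Ext.none) (P1 := 0) (W1 := 536870912) (P2 := 536870912) (W2 := 536870912) (P3 := 335544320) (W3 := 67108864)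
    rfl k0_pp_213

noncomputable def f_pm_001 : ℕ → ℕ → ℕ → ℕ → Bool := onCell 0 536870912 536870912 536870912 335544320 67108864
    (rowF 1 true true false .up 0 0 1 (qsf 0 536870912 0 536870912 1) ndF0q0 ndF3q0 pcF1 Cut.none Ext.none)

def k0_pm_001 : ∃ t, chk3 f_pm_001 t 1 1 1 = true :=
  ⟨(b (l 3) (a (b (l 3) (l 2)) (b (l 3) (a (b (b (l 3) (l 2)) (l 2)) (b (a (b (l 3) (a (a (l 2) (b (l 343765690807) (l 2))) (b (l 78014535463) (l 17029392)))) (b (a (l 3) (b (l 3) (a (l 83383212759) (l 84456966039)))) (a (b (c (l 17035592) (l 16979088)) (l 17014952)) (b (c (l 17043616) (l 16979672)) (l 17017792))))) (a (a (l 2) (b (l 17045240) (l 2))) (b (a (l 17026904) (l 17027096)) (a (l 17043296) (l 17038424))))))))), by decide +kernel⟩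

theorem c_pm_001 : CertF 0 536870912 0 536870912 335544320 67108864 true true false .up 0 0 1
    ndF0q0 ndF3q0 pcF1 Cut.none Ext.none :=
  certF1 (fam := true) (s1 := true) (s2 := false) (a := 0) (b := 0) (c := 1) (cn := .up) (n1 := ndF0q0) (n2 := ndF3q0) (pc := pcF1) (cut := Cut.none) (xt := Ext.none) (P1 := 0) (W1 := 536870912) (P2 := 0) (W2 := 536870912) (P3 := 335544320) (W3 := 67108864)
    rfl (fun _ => rfl) k0_pm_001

noncomputable def cut_pm_011 : Cut := Cut.of [[⟨0, 0, 0, 67108864⟩, ⟨1, 1, 0, 67108864⟩, ⟨2, 1, 0, 67108864⟩]]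

noncomputable def f_pm_011 : ℕ → ℕ → ℕ → ℕ → Bool := onCell 0 536870912 536870912 536870912 335544320 67108864
    (rowF 1 true true false .pnn 0 1 1 (qsf 0 536870912 536870912 536870912 1) ndF0q0 ndF3q1 pcF1 cut_pm_011 Ext.none)

def k0_pm_011 : ∃ t, chk3 f_pm_011 t 1 2 1 = true :=
  ⟨(l 3), by decide +kernel⟩

def k1_pm_011 : ∃ t, chk3 f_pm_011 t 2 6 1 = true :=
  ⟨(l 3), by decide +kernel⟩

def k2_pm_011 : ∃ t, chk3 f_pm_011 t 4 14 1 = true :=
  ⟨(l 3), by decide +kernel⟩

def k3_pm_011 : ∃ t, chk3 f_pm_011 t 8 15 1 = true :=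
  ⟨(b (l 3) (a (b (l 3) (l 6)) (b (l 3) (b (a (b (l 3) (l 6)) (b (b (l 3) (a (l 3) (a (l 3) (c (c (l 33453723623) (l 36138078775)) (l 37748692551))))) (a (a (b (b (l 3) (l 6)) (l 6)) (c (b (c (l 33453722919) (l 36138083575)) (l 16749232)) (b (c (l 39896180183) (l 38285567991)) (l 16749400)))) (c (a (b (c (l 37748688999) (l 16755616)) (l 16745952)) (b (l 16746992) (l 16742664))) (b (a (l 37748690679) (l 16747176)) (l 16744464)))))) (a (l 6) (b (b (a (c (l 16751816) (l 16746712)) (c (l 16740000) (l 16740104))) (a (l 6) (l 16735816))) (a (l 6) (c (l 16729288) (l 16729288))))))))), by decide +kernel⟩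

def k4_pm_011 : ∃ t, chk3 f_pm_011 t 9 15 1 = true :=
  ⟨(b (l 3) (b (a (b (l 3) (a (l 3) (b (l 3) (b (a (l 3) (c (l 45264852439) (c (l 16745160) (l 39359286455)))) (c (a (c (l 33453703063) (l 39896160375)) (l 39359274263)) (a (a (l 40969902647) (l 42580509015)) (l 35601181479))))))) (b (b (l 3) (b (l 3) (a (l 3) (a (l 3) (c (l 16726856) (l 40433003447)))))) (a (b (c (a (b (l 3) (l 49559825367)) (c (l 26474372967) (l 29695600039))) (a (a (l 3) (l 60834107095)) (c (l 30232473431) (b (l 39896148295) (l 39359269191))))) (c (a (c (l 29158723207) (l 16741368)) (l 16723912)) (a (a (l 38285531095) (l 16729392)) (l 16734832)))) (c (b (a (l 35064293703) (l 16720024)) (a (l 16717336) (l 16710840))) (b (a (c (l 16726960) (l 37748647831)) (l 16731040)) (a (l 16717800) (l 16711328))))))) (a (b (a (b (b (c (a (a (l 3) (l 37748685431)) (a (l 38822421143) (l 16745112))) (b (a (l 3) (c (l 44728003559) (l 40433036759))) (a (c (l 36138077319) (l 38285558855)) (l 36674936199)))) (a (a (c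 (l 40433038391) (l 39359298967)) (c (l 16749992) (l 16744960))) (c (c (l 16739608) (l 16739928)) (l 16750488)))) (a (c (b (c (l 16741888) (l 16742168)) (l 16737712)) (b (l 16752712) (l 16737848))) (c (b (l 16735424) (l 16731080)) (l 16743896)))) (a (a (b (c (b (l 16739184) (l 16734800)) (l 16742472)) (l 16728440)) (b (c (l 16733648) (l 16733904)) (l 16725096))) (b (c (l 16733864) (l 16739376)) (l 16720072)))) (a (a (b (c (l 16731240) (l 16731312)) (l 16722736)) (b (l 16724720) (l 16716072))) (b (c (l 16725040) (l 16714624)) (c (l 16705936) (l 16705904))))) (b (b (a (a (a (l 16723824) (l 16720440)) (l 16715336)) (c (l 16705024) (l 16705432))) (a (c (l 16709680) (l 16709920)) (l 16696368))) (a (b (l 16701152) (l 16692448)) (c (l 16703832) (l 16683024))))))), by decide +kernel⟩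

def k5_pm_011 : ∃ t, chk3 f_pm_011 t 5 14 1 = true :=
  ⟨(l 3), by decide +kernel⟩

def k6_pm_011 : ∃ t, chk3 f_pm_011 t 5 30 1 = true :=
  ⟨(a (a (l 3) (b (l 3) (b (l 3) (b (a (l 3) (c (l 14126308135) (a (l 45801684487) (l 16714280)))) (a (c (a (l 16714264) (l 16707400)) (a (l 37748629767) (l 35601132887))) (c (l 16696720) (a (l 16701520) (l 16694384)))))))) (a (b (l 3) (b (b (a (l 3) (c (l 28621774871) (a (l 3) (l 16692784)))) (a (c (l 16713672) (a (l 3) (l 16698600))) (c (l 16685264) (a (l 16691136) (l 16683432))))) (a (c (b (l 16691320) (l 16681816)) (b (l 22716206823) (l 16683408))) (c (l 16670968) (l 16693952))))) (b (b (l 3) (a (l 3) (b (l 3) (c (c (l 25400531687) (l 24326791623)) (a (l 16677296) (l 16668168)))))) (b (a (c (b (l 16699144) (l 16668664)) (b (l 28621740951) (l 16671256))) (c (c (l 16674792) (l 16677072)) (a (l 16663000) (l 16653736)))) (a (c (l 16654288) (l 16656832)) (c (l 16635856) (l 16639192))))))), by decide +kernel⟩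

def k7_pm_011 : ∃ t, chk3 f_pm_011 t 5 31 1 = true :=
  ⟨(a (b (a (b (a (a (b (l 3) (c (l 32916802439) (c (l 16723248) (l 38822387495)))) (c (b (l 47949192103) (l 16716112)) (b (l 58149727959) (l 35064278247)))) (c (a (b (l 16718624) (l 16709424)) (l 39359217383)) (b (a (c (l 16719344) (l 39359250695)) (l 38285495735)) (a (l 16710136) (l 16703408))))) (b (a (a (a (l 16715560) (l 16712288)) (l 16707328)) (c (l 16696752) (l 16697456))) (a (c (l 16700984) (l 16701512)) (l 16688016)))) (b (c (a (a (l 16700384) (l 16693352)) (l 16682568)) (a (b (a (l 16706000) (l 16699072)) (l 16693144)) (b (l 16688488) (l 16679032)))) (a (c (l 16678264) (l 16679104)) (l 16685600)))) (a (b (a (c (l 16687312) (l 16687736)) (l 16697832)) (a (l 16690552) (l 16656072))) (b (a (l 16660416) (l 16646128)) (a (l 16642200) (l 16627880))))) (a (b (b (a (c (l 16667632) (l 16669152)) (l 16674168)) (a (l 16649840) (l 16634408))) (b (a (l 16631304) (l 16615864)) (a (l 16613024) (l 16597576)))) (b (a (c (l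 16667944) (l 16649312)) (c (l 16628624) (l 16631712))) (b (c (l 16610408) (l 16591760)) (c (l 16592320) (l 16573368)))))), by decide +kernel⟩

def k8_pm_011 : ∃ t, chk3 f_pm_011 t 3 6 1 = true :=
  ⟨(l 3), by decide +kernel⟩

def k9_pm_011 : ∃ t, chk3 f_pm_011 t 6 14 1 = true :=
  ⟨(a (l 3) (b (l 3) (b (l 3) (a (b (l 3) (b (a (l 3) (c (l 49022944695) (l 48486046967))) (a (c (l 47412332471) (l 50096611143)) (c (l 42043619287) (l 16713120))))) (b (b (l 3) (a (c (l 48486118327) (l 49559790951)) (c (l 54391739351) (a (l 54928498135) (l 16718960))))) (a (c (b (l 52244199111) (l 16786128)) (b (l 44191077559) (l 16693216))) (c (b (l 16816392) (l 16810144)) (b (l 16725560) (l 16715320))))))))), by decide +kernel⟩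

def k10_pm_011 : ∃ t, chk3 f_pm_011 t 6 15 1 = true :=
  ⟨(a (b (a (b (a (b (l 3) (b (c (l 54928422007) (l 56539043047)) (c (a (l 16675192) (l 16643272)) (l 15199964535)))) (b (c (l 52244058823) (l 53854688071)) (c (l 18958027783) (l 16667912)))) (a (b (c (c (l 16653832) (l 16656704)) (l 16659896)) (c (l 16636240) (l 16619720))) (c (b (l 16632048) (l 16613064)) (b (l 16617152) (l 16598040))))) (b (a (b (c (l 42043456679) (l 16652328)) (c (l 16631496) (l 16633232))) (b (c (b (l 16701248) (l 16687040)) (l 16626080)) (c (l 16663184) (l 16585920)))) (c (a (l 16617576) (l 16584920)) (a (l 16604528) (l 16578432))))) (a (b (a (c (l 16629144) (l 16612336)) (c (l 16606168) (l 16590816))) (a (c (l 16571696) (l 16554320)) (c (l 16549016) (l 16533032)))) (b (a (c (l 16559600) (l 16567056)) (l 16568320)) (b (l 16565448) (c (l 16522688) (l 16509264)))))) (b (b (a (a (b (c (l 35601167335) (l 16603680)) (l 16682144)) (b (c (l 16747424) (l 16649424)) (l 16670048))) (a (b (c (l 16773656)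 (l 16674080)) (l 16699152)) (b (l 16748504) (l 16727504)))) (a (c (a (l 16666184) (l 16682632)) (l 16578584)) (a (b (l 16671040) (l 16638536)) (l 16689488)))) (b (a (c (a (l 16559392) (l 16609104)) (a (l 16513536) (l 16483456))) (a (l 16643344) (l 16624352))) (a (c (b (l 16507904) (l 16467832)) (a (l 16477936) (l 16448424))) (c (a (l 16570960) (l 16626000)) (l 16445944)))))), by decide +kernel⟩

def k11_pm_011 : ∃ t, chk3 f_pm_011 t 7 7 1 = true :=
  ⟨(b (a (b (l 3) (a (b (a (l 3) (b (l 3) (c (l 53318163959) (a (l 65129169607) (l 54928619415))))) (b (a (a (c (l 55465529591) (l 58686595751)) (c (l 57613032375) (l 60834093879))) (c (a (l 16862416) (l 16873288)) (b (a (l 16776656) (l 16786192)) (l 16774632)))) (a (c (l 16836752) (l 16741992)) (c (l 16860056) (l 16763400))))) (a (b (b (l 3) (a (c (l 37212010007) (b (l 3) (l 39359319815))) (c (l 39359522535) (b (l 37748735047) (l 16810688))))) (b (c (l 16889608) (l 16776672)) (l 16770496))) (b (b (l 1) (c (l 95596767751) (l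 97207218023))) (b (c (l 16911392) (l 16817248)) (l 16813560)))))) (b (l 1) (a (b (l 1) (a (l 98817867255) (l 1))) (l 1)))) (a (b (a (b (a (c (l 16818496) (l 16711824)) (c (l 16844752) (l 16736840))) (a (l 16722072) (l 16753280))) (b (a (c (l 16870504) (l 16761320)) (c (l 16895784) (l 16785256))) (a (l 16783248) (l 16812096)))) (a (b (a (l 16665408) (l 16703944)) (a (l 16633192) (l 16639344))) (b (a (l 16740272) (l 16774640)) (a (l 16683912) (l 16725400))))) (b (a (b (a (c (l 16920624) (l 16808696)) (l 16866824)) (a (l 16839952) (l 16866936))) (b (l 1) (l 87006722359))) (a (b (a (l 16807288) (l 16838472)) (a (l 16764224) (l 16800768))) (b (l 16883000) (l 16852112)))))), by decide +kernel⟩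

theorem s12_pm_011 : ∃ t, chk3 f_pm_011 t 6 7 1 = true := ex3_b k9_pm_011 k10_pm_011

theorem s13_pm_011 : ∃ t, chk3 f_pm_011 t 3 7 1 = true := ex3_a s12_pm_011 k11_pm_011

theorem s14_pm_011 : ∃ t, chk3 f_pm_011 t 3 3 1 = true := ex3_b k8_pm_011 s13_pm_011

theorem s15_pm_011 : ∃ t, chk3 f_pm_011 t 5 15 1 = true := ex3_b k6_pm_011 k7_pm_011

theorem s16_pm_011 : ∃ t, chk3 f_pm_011 t 5 7 1 = true := ex3_b k5_pm_011 s15_pm_011

theorem s17_pm_011 : ∃ t, chk3 f_pm_011 t 4 15 1 = true := ex3_a k3_pm_011 k4_pm_011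

theorem s18_pm_011 : ∃ t, chk3 f_pm_011 t 4 7 1 = true := ex3_b k2_pm_011 s17_pm_011

theorem s19_pm_011 : ∃ t, chk3 f_pm_011 t 2 7 1 = true := ex3_a s18_pm_011 s16_pm_011

theorem s20_pm_011 : ∃ t, chk3 f_pm_011 t 2 3 1 = true := ex3_b k1_pm_011 s19_pm_011

theorem s21_pm_011 : ∃ t, chk3 f_pm_011 t 1 3 1 = true := ex3_a s20_pm_011 s14_pm_011

theorem s22_pm_011 : ∃ t, chk3 f_pm_011 t 1 1 1 = true := ex3_b k0_pm_011 s21_pm_011

theorem c_pm_011 : CertF 0 536870912 536870912 536870912 335544320 67108864 true true false .pnn 0 1 1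
    ndF0q0 ndF3q1 pcF1 cut_pm_011 Ext.none :=
  certF1 (fam := true) (s1 := true) (s2 := false) (a := 0) (b := 1) (c := 1) (cn := .pnn) (n1 := ndF0q0) (n2 := ndF3q1) (pc := pcF1) (cut := cut_pm_011) (xt := Ext.none) (P1 := 0) (W1 := 536870912) (P2 := 536870912) (W2 := 536870912) (P3 := 335544320) (W3 := 67108864)
    rfl (fun _ => rfl) s22_pm_011

noncomputable def cut_pm_012 : Cut := Cut.of [[⟨0, 0, 0, 67108864⟩, ⟨1, 1, 0, 67108864⟩, ⟨2, 1, 0, 67108864⟩]]

noncomputable def f_pm_012 : ℕ → ℕ → ℕ → ℕ → Bool := onCell 1073741824 536870912 536870912 536870912 335544320 67108864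
    (rowF 2 true true false .pnp 0 1 2 (qsf 0 536870912 536870912 536870912 2) ndF0q0 ndF3q1 pcF2 cut_pm_012 Ext.none)

def k0_pm_012 : ∃ t, chk3 f_pm_012 t 4 2 1 = true :=
  ⟨(b (a (b (a (b (a (a (l 16851344) (l 16867808)) (l 16893928)) (a (b (l 16803432) (l 16763152)) (l 16818736))) (b (l 16950872) (l 16877704))) (a (b (a (b (l 16720160) (l 16673832)) (l 16733200)) (a (b (l 16665608) (l 16684360)) (l 16633288))) (b (a (l 16773712) (l 16817552)) (a (l 16675960) (l 16723168))))) (b (a (b (l 2) (l 16964528)) (l 2)) (a (b (l 16887696) (l 16799168)) (b (l 16984776) (l 16905920))))) (a (b (a (a (c (b (a (l 16566840) (l 16584496)) (a (l 16448152) (l 16444048))) (b (l 16422344) (l 16456480))) (b (b (l 16545632) (l 16479696)) (l 16403624))) (b (a (l 16558800) (l 16610240)) (a (l 16415096) (l 16471800)))) (a (a (b (a (c (l 16501688) (l 16488144)) (b (l 16454424) (c (l 16456272) (l 16443912)))) (a (c (l 16551960) (l 16534904)) (l 16519224))) (b (l 16454632) (l 16507024))) (b (a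 (l 16414928) (l 16377688)) (l 16438920)))) (b (a (b (l 16694640) (l 16566848)) (b (l 16813088) (l 16701584))) (a (b (l 16407192) (l 16413024)) (b (l 16563480) (l 16406520)))))), by decide +kernel⟩

def k1_pm_012 : ∃ t, chk3 f_pm_012 t 8 6 1 = true :=
  ⟨(a (b (b (a (a (l 16615016) (l 16561240)) (a (l 16527568) (l 16471760))) (a (b (l 16624352) (l 16640016)) (l 16568368))) (b (a (b (l 16654840) (l 16669176)) (c (l 16598232) (a (l 16575056) (l 16523176)))) (a (a (b (l 16656064) (l 16690368)) (l 16653800)) (c (l 16627080) (l 16609344))))) (b (b (a (l 16455576) (l 16427264)) (a (l 16485656) (l 16430296))) (b (a (l 16521264) (l 16459984)) (l 16575472)))), by decide +kernel⟩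

def k2_pm_012 : ∃ t, chk3 f_pm_012 t 8 7 1 = true :=
  ⟨(a (b (a (a (b (a (b (l 16669240) (l 16682800)) (l 16703368)) (a (a (b (l 16699744) (l 16718120)) (b (l 16692488) (l 16705648))) (b (l 16681560) (l 16715736)))) (b (c (l 16680360) (l 16681664)) (b (l 16701456) (c (l 16693072) (l 16694336))))) (a (b (l 16630112) (l 16667992)) (b (l 16599552) (l 16641600)))) (a (b (b (a (a (a (b (l 16722616) (l 6)) (l 16739656)) (c (l 16728464) (l 16729016))) (a (l 16714256) (l 16699600))) (a (l 6) (a (l 6) (l 16707896)))) (l 6)) (b (b (a (l 16682864) (l 16675776)) (a (b (l 16697200) (c (l 16686680) (l 16684432))) (b (l 16658192) (l 16688136)))) (b (a (l 6) (b (a (l 6) (l 16671504)) (l 6))) (l 6))))) (b (b (a (l 16586128) (l 16569576)) (a (b (l 16603304) (a (l 16629672) (l 16592752))) (b (l 16552928) (l 16569760)))) (b (a (b (a (l 16648192) (l 16610584)) (a (b (l 16640608) (l 16649272)) (b (l 16623480) (l 16631832)))) (b (a (l 16594440) (l 16578792)) (b (l 16598688) (l 16606536))))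 (b (a (a (b (l 16657896) (b (l 16664344) (l 6))) (b (l 16640144) (l 16648424))) (b (a (l 16622848) (l 16606024)) (a (l 16630824) (l 16613680)))) (a (b (a (l 6) (b (l 16654616) (l 6))) (l 6)) (b (a (c (l 16641848) (l 16635728)) (l 16621304)) (b (c (l 16649600) (l 16642992)) (a (l 6) (l 16641272))))))))), by decide +kernel⟩

def k3_pm_012 : ∃ t, chk3 f_pm_012 t 9 3 1 = true :=
  ⟨(b (b (a (b (l 16421952) (l 16467952)) (b (l 16404120) (l 16407800))) (a (b (a (l 16443336) (l 16430376)) (a (l 16472336) (l 16453776))) (b (l 16416720) (l 16474016)))) (b (a (b (a (l 16523768) (l 16480088)) (b (l 16554768) (a (l 16540944) (l 16514296)))) (b (a (l 16460112) (l 16442848)) (b (l 16467336) (l 16499712)))) (b (a (b (a (l 16556256) (l 16528088)) (a (b (l 16567360) (l 16574528)) (l 16541288))) (b (a (l 16502152) (l 16478592)) (a (l 16513840) (l 16488712)))) (a (b (a (b (l 16581696) (l 16609824)) (b (l 16551016) (l 16557488))) (a (b (c (l 16600288) (l 16591736)) (a (c (l 16615640) (l 16607568))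 (c (l 16599280) (l 16590240)))) (b (l 16584928) (c (l 16596632) (l 16586136))))) (b (a (b (l 16522472) (l 16528224)) (b (l 16496208) (l 16501216))) (a (b (l 16533984) (c (l 16545944) (l 16533520))) (b (l 16506248) (c (l 16518424) (l 16504096))))))))), by decide +kernel⟩

def k4_pm_012 : ∃ t, chk3 f_pm_012 t 5 1 1 = true :=
  ⟨(b (a (b (b (l 2) (a (l 17047208) (l 2))) (a (b (a (l 16854952) (b (l 16960352) (l 16868880))) (a (l 16609136) (a (l 16671504) (l 16712288)))) (b (l 17005480) (b (l 16867064) (l 16747608))))) (b (l 2) (b (a (l 17114320) (l 2)) (a (l 16955360) (l 17082416))))) (b (a (b (a (a (l 16411232) (a (l 16417304) (l 16422544))) (l 16483240)) (a (a (b (l 16411288) (l 16417528)) (b (l 16412776) (l 16435088))) (b (l 16416416) (l 16409984)))) (b (a (b (l 16784184) (l 16628856)) (b (l 16947528) (l 16827752))) (b (a (l 16429968) (l 16671144)) (a (l 16412112) (l 16461808))))) (b (a (a (b (a (l 16428728) (a (l 16420840) (l 16418168))) (a (l 16444296) (a (l 16432792)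 (l 16448440)))) (b (l 16407520) (b (l 16409144) (l 16411448)))) (b (a (l 16398896) (l 16403760)) (a (b (l 16391608) (l 16388424)) (l 16383592)))) (a (a (b (a (b (l 16457712) (l 16466224)) (a (l 16489568) (b (l 16437200) (l 16464672)))) (a (b (c (l 16482632) (l 16466536)) (b (l 16481064) (c (l 16493408) (l 16477192)))) (a (b (l 16458584) (c (l 16474680) (l 16457104))) (b (a (l 16451640) (l 16448016)) (a (c (l 16467480) (l 16449200)) (c (b (l 16462080) (l 16465344)) (l 16465896))))))) (b (b (l 16415392) (l 16440392)) (b (a (l 16434880) (l 16413400)) (a (c (l 16450080) (l 16430264)) (c (l 16427824) (l 16406392)))))) (b (a (b (l 16386792) (l 16406448)) (b (l 16371608) (c (l 16378648) (l 16350320)))) (a (b (c (l 16397304) (l 16373496)) (c (b (l 16397952) (a (l 16408256) (l 16389800))) (b (l 16374104) (l 16395664)))) (a (b (l 16364288) (c (l 16395432) (l 16347984))) (b (l 16375544) (c (l 16383592) (l 16334192)))))))))), by decide +kernel⟩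

def k5_pm_012 : ∃ t, chk3 f_pm_012 t 3 1 1 = true :=
  ⟨(b (a (b (l 2) (a (b (l 2) (a (l 17192752) (l 2))) (l 2))) (l 2)) (a (b (a (b (a (l 17042792) (l 17170984)) (a (b (l 16876816) (l 16720288)) (b (l 17046832) (l 16934552)))) (b (a (l 17278640) (l 2)) (a (l 17086176) (l 17272704)))) (a (b (a (b (l 16507368) (l 16391096)) (b (a (l 16718560) (l 16844800)) (a (l 16486904) (l 16650152)))) (b (a (a (l 16364280) (l 16366168)) (b (l 16400656) (l 16381192))) (a (b (a (l 16348464) (l 16346152)) (a (c (l 16354672) (l 16324008)) (c (l 16371352) (l 16317264)))) (b (a (l 16353800) (l 16372856)) (a (c (l 16356632) (l 16319928)) (c (l 16374344) (l 16332800))))))) (b (a (b (l 17002376) (a (l 16796136) (l 16923336))) (b (l 17170352) (l 16927808))) (a (b (b (l 16714264) (l 16443664)) (b (c (l 16418952) (l 16388424)) (a (c (l 16399512) (l 16352328)) (c (l 16578680) (l 16379016))))) (b (a (b (l 16929296) (l 16839040)) (b (l 17040784) (l 16974664))) (b (a (l 16726888) (l 16888056)) (a (l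 16426016) (c (l 16968336) (l 16589808))))))))) (b (a (b (l 2) (a (l 17371832) (l 2))) (l 2)) (a (b (a (b (l 17300936) (l 17236848)) (b (l 17389928) (l 17338976))) (a (b (a (l 17109328) (l 17196056)) (a (b (l 17020928) (c (l 17118224) (l 16740128))) (b (l 17124784) (c (l 17237224) (l 16896600))))) (b (l 17273088) (a (l 17102808) (l 17208072))))) (b (a (l 17440616) (l 2)) (a (b (l 17356152) (l 17150680)) (b (l 17440296) (l 17370936)))))))), by decide +kernel⟩

theorem s6_pm_012 : ∃ t, chk3 f_pm_012 t 8 3 1 = true := ex3_b k1_pm_012 k2_pm_012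

theorem s7_pm_012 : ∃ t, chk3 f_pm_012 t 4 3 1 = true := ex3_a s6_pm_012 k3_pm_012

theorem s8_pm_012 : ∃ t, chk3 f_pm_012 t 4 1 1 = true := ex3_b k0_pm_012 s7_pm_012

theorem s9_pm_012 : ∃ t, chk3 f_pm_012 t 2 1 1 = true := ex3_a s8_pm_012 k4_pm_012

theorem s10_pm_012 : ∃ t, chk3 f_pm_012 t 1 1 1 = true := ex3_a s9_pm_012 k5_pm_012

theorem c_pm_012 : CertF 0 536870912 536870912 536870912 335544320 67108864 true true false .pnp 0 1 2
    ndF0q0 ndF3q1 pcF2 cut_pm_012 Ext.none :=
  certF2 (fam := true) (s1 := true) (s2 := false) (a := 0) (b := 1) (c := 2) (cn := .pnp) (n1 := ndF0q0) (n2 := ndF3q1) (pc := pcF2) (cut := cut_pm_012) (xt := Ext.none) (P1 := 0) (W1 := 536870912) (P2 := 536870912) (W2 := 536870912) (P3 := 335544320) (W3 := 67108864)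
    rfl (fun _ => rfl) s10_pm_012

noncomputable def f_pm_022 : ℕ → ℕ → ℕ → ℕ → Bool := onCell 0 536870912 1073741824 536870912 335544320 67108864
    (rowF 1 true true false .pp 0 2 2 (qsf 0 536870912 1073741824 536870912 2) ndF0q0 ndF3q2 pcF2 Cut.none Ext.none)

def k0_pm_022 : ∃ t, chk3 f_pm_022 t 1 1 1 = true :=
  ⟨(a (b (b (l 3) (b (b (b (l 3) (b (l 3) (b (l 3) (a (b (a (a (l 16471120) (l 16503776)) (l 3)) (a (l 16481056) (l 16548784))) (a (b (l 3) (l 16617992)) (l 1)))))) (a (a (l 16470192) (a (l 16474648) (l 16530592))) (a (l 16667520) (a (l 16613560) (l 1))))) (a (a (a (l 16400776) (l 16389256)) (l 16437440)) (a (b (l 16495384) (l 16351912)) (b (l 16607456) (l 16451576)))))) (a (b (a (b (l 16356080) (l 16320464)) (b (l 16338816) (l 16309752))) (a (b (l 16379032) (l 16768176)) (l 16475672))) (b (a (b (l 16326912) (l 16302576)) (b (l 16344416) (l 16302312))) (a (l 16726400) (l 16776952))))) (b (b (l 1) (b (l 1) (a (a (b (l 1) (l 144988089927)) (l 1)) (l 1)))) (a (b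 (a (b (l 16395704) (l 16320440)) (b (l 48888127031) (l 16362616))) (a (b (l 16673464) (l 16943472)) (b (l 16733816) (l 16977272)))) (b (a (b (l 1) (l 68215604055)) (l 1)) (a (b (l 117071396823) (l 17018128)) (b (l 127809142519) (l 157874184663))))))), by decide +kernel⟩

theorem c_pm_022 : CertF 0 536870912 1073741824 536870912 335544320 67108864 true true false .pp 0 2 2
    ndF0q0 ndF3q2 pcF2 Cut.none Ext.none :=
  certF1 (fam := true) (s1 := true) (s2 := false) (a := 0) (b := 2) (c := 2) (cn := .pp) (n1 := ndF0q0) (n2 := ndF3q2) (pc := pcF2) (cut := Cut.none) (xt := Ext.none) (P1 := 0) (W1 := 536870912) (P2 := 1073741824) (W2 := 536870912) (P3 := 335544320) (W3 := 67108864)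
    rfl (fun _ => rfl) k0_pm_022

noncomputable def f_pm_023 : ℕ → ℕ → ℕ → ℕ → Bool := onCell 0 536870912 1073741824 536870912 335544320 67108864
    (rowF 0 true true false .up 0 2 3 (qsf 0 536870912 1073741824 536870912 3) ndF0q0 ndF3q2 pcF3 Cut.none Ext.none)

def k0_pm_023 : ∃ t, chk3 f_pm_023 t 1 1 1 = true :=
  ⟨(a (b (a (l 1) (b (l 1) (l 160557262807))) (b (a (l 152504067143) (l 175053434839)) (a (b (l 214781575607) (l 263100641719)) (b (l 17260048) (l 17360208))))) (b (a (b (l 175589935015) (l 178811849255)) (b (a (l 16978536) (l 17205584)) (l 17333416))) (a (b (l 17301896) (a (l 17397712) (l 17395688))) (b (l 17353016) (b (l 17348264) (a (l 17349808) (a (l 17305760) (b (l 17282680) (a (l 17271784) (l 17506600)))))))))), by decide +kernel⟩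

theorem c_pm_023 : CertF 0 536870912 1073741824 536870912 335544320 67108864 true true false .up 0 2 3
    ndF0q0 ndF3q2 pcF3 Cut.none Ext.none :=
  certF0 (fam := true) (s1 := true) (s2 := false) (a := 0) (b := 2) (c := 3) (cn := .up) (n1 := ndF0q0) (n2 := ndF3q2) (pc := pcF3) (cut := Cut.none) (xt := Ext.none) (P1 := 0) (W1 := 536870912) (P2 := 1073741824) (W2 := 536870912) (P3 := 335544320) (W3 := 67108864)
    rfl k0_pm_023

noncomputable def f_pm_033 : ℕ → ℕ → ℕ → ℕ → Bool := onCell 1610612736 536870912 0 1230186008 335544320 67108864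
    (rowF 2 true true false .pnn 0 3 3 (qsf 0 536870912 0 1230186008 3) ndF0q0 ndF3q3 pcF3 Cut.none Ext.none)

def k0_pm_033 : ∃ t, chk3 f_pm_033 t 1 1 1 = true :=
  ⟨(a (b (l 1) (b (a (l 1) (a (l 1) (l 361886562679))) (b (a (l 1) (l 17640888)) (a (b (l 363496940343) (a (l 17355928) (l 17328632))) (a (l 17330216) (l 17292576)))))) (a (b (l 1) (b (a (l 17440752) (l 17348584)) (b (a (l 17337816) (l 17265928)) (a (l 17244400) (l 17185104))))) (b (a (l 17379104) (l 4)) (a (b (l 17258032) (b (l 17191384) (l 17119504))) (a (b (l 17205280) (b (l 17135240) (l 17064016))) (b (l 4) (b (l 17105912) (a (l 17035480) (l 17015184))))))))), by decide +kernel⟩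

theorem c_pm_033 : CertF 0 536870912 0 1230186008 335544320 67108864 true true false .pnn 0 3 3
    ndF0q0 ndF3q3 pcF3 Cut.none Ext.none :=
  certF2 (fam := true) (s1 := true) (s2 := false) (a := 0) (b := 3) (c := 3) (cn := .pnn) (n1 := ndF0q0) (n2 := ndF3q3) (pc := pcF3) (cut := Cut.none) (xt := Ext.none) (P1 := 0) (W1 := 536870912) (P2 := 0) (W2 := 1230186008) (P3 := 335544320) (W3 := 67108864)
    rfl (fun _ => rfl) k0_pm_033

noncomputable def f_pm_101 : ℕ → ℕ → ℕ → ℕ → Bool := onCell 536870912 536870912 536870912 536870912 335544320 67108864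
    (rowF 1 true true false .npn 1 0 1 (qsf 536870912 536870912 0 536870912 1) ndF0q1 ndF3q0 pcF1 Cut.none Ext.none)

def k0_pm_101 : ∃ t, chk3 f_pm_101 t 1 1 1 = true :=
  ⟨(a (b (a (l 3) (b (a (b (l 1) (l 3)) (l 1)) (l 3))) (b (a (l 3) (b (l 3) (b (l 3) (a (a (l 398526581383) (l 17088192)) (a (l 17099768) (l 17107264)))))) (a (b (a (b (a (b (l 3) (a (l 85530702215) (l 85530633751))) (b (l 211158548551) (a (l 86604389959) (l 17044216)))) (a (b (c (l 17060480) (l 16991424)) (l 17031720)) (b (l 17045552) (l 17051840)))) (b (a (b (l 90362634055) (l 17059472)) (l 87141397015)) (a (l 17070568) (l 17091936)))) (a (b (a (l 17039920) (l 17060480)) (a (l 17048560) (l 17068912))) (b (l 17096512) (l 17107872)))) (b (a (b (a (l 17092120) (l 17107112)) (l 17120840)) (b (l 17123296) (l 17149176))) (a (b (l 17142672) (l 17161064)) (b (l 17178616) (l 17206016))))))) (b (a (b (l 1) (a (b (l 1) (l 3)) (l 1))) (l 1)) (a (b (b (l 3) (a (b (l 3) (a (l 75867219575) (l 79625316679))) (b (a (l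 92510211415) (b (l 1) (l 296386908711))) (a (l 69424760711) (l 17084912))))) (b (a (b (l 17128440) (l 17158488)) (b (a (l 17117136) (l 17101216)) (l 17142312))) (a (b (l 17195712) (l 17233624)) (b (l 17186320) (l 17235112))))) (b (a (b (l 1) (b (l 1) (b (l 1) (l 318398659415)))) (l 1)) (b (a (b (a (l 17078288) (l 17051752)) (l 17099016)) (b (l 1) (l 17025432))) (a (l 17171920) (l 17103088))))))), by decide +kernel⟩

theorem c_pm_101 : CertF 536870912 536870912 0 536870912 335544320 67108864 true true false .npn 1 0 1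
    ndF0q1 ndF3q0 pcF1 Cut.none Ext.none :=
  certF1 (fam := true) (s1 := true) (s2 := false) (a := 1) (b := 0) (c := 1) (cn := .npn) (n1 := ndF0q1) (n2 := ndF3q0) (pc := pcF1) (cut := Cut.none) (xt := Ext.none) (P1 := 536870912) (W1 := 536870912) (P2 := 0) (W2 := 536870912) (P3 := 335544320) (W3 := 67108864)
    rfl (fun _ => rfl) k0_pm_101

noncomputable def f_pm_102 : ℕ → ℕ → ℕ → ℕ → Bool := onCell 536870912 536870912 1073741824 536870912 335544320 67108864
    (rowF 1 true true false .npp 1 0 2 (qsf 536870912 536870912 0 536870912 2) ndF0q1 ndF3q0 pcF2 Cut.none Ext.none)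

def k0_pm_102 : ∃ t, chk3 f_pm_102 t 1 1 1 = true :=
  ⟨(a (b (a (b (b (a (b (l 17060440) (l 17043224)) (l 17102896)) (a (l 17025720) (l 17087672))) (a (l 2) (l 17083440))) (b (a (b (l 17160096) (l 17155312)) (b (l 17210464) (l 17217248))) (a (l 17169200) (l 17251176)))) (b (a (l 2) (b (l 17221960) (l 2))) (l 2))) (b (a (b (b (a (l 17245224) (l 17255816)) (a (l 17265480) (l 17293328))) (a (l 17322080) (l 17376680))) (a (b (b (l 17411568) (l 17298512)) (l 17464424)) (b (b (b (l 17174328) (l 17205400)) (l 17264568)) (b (l 17401744) (l 17473784))))) (b (a (b (l 17403808) (l 17413568)) (b (l 17522352) (l 17507648))) (a (b (l 17393352) (l 2)) (l 49494664983))))), by decide +kernel⟩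

theorem c_pm_102 : CertF 536870912 536870912 0 536870912 335544320 67108864 true true false .npp 1 0 2
    ndF0q1 ndF3q0 pcF2 Cut.none Ext.none :=
  certF1 (fam := true) (s1 := true) (s2 := false) (a := 1) (b := 0) (c := 2) (cn := .npp) (n1 := ndF0q1) (n2 := ndF3q0) (pc := pcF2) (cut := Cut.none) (xt := Ext.none) (P1 := 536870912) (W1 := 536870912) (P2 := 0) (W2 := 536870912) (P3 := 335544320) (W3 := 67108864)
    rfl (fun _ => rfl) k0_pm_102

noncomputable def f_pm_112 : ℕ → ℕ → ℕ → ℕ → Bool := onCell 536870912 536870912 1073741824 536870912 335544320 67108864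
    (rowF 1 true true false .dn 1 1 2 (qsf 536870912 536870912 536870912 536870912 2) ndF0q1 ndF3q1 pcF2 Cut.none Ext.none)

def k0_pm_112 : ∃ t, chk3 f_pm_112 t 1 1 1 = true :=
  ⟨(a (b (a (b (a (b (a (b (l 16806320) (l 16915088)) (l 145525828823)) (a (l 16935912) (l 17008408))) (b (l 288333985623) (l 17100408))) (a (b (l 17026928) (l 17099032)) (b (l 17153304) (l 17218720)))) (b (b (l 1) (l 280818484391)) (a (l 17279520) (l 17360816)))) (b (a (b (a (l 17182256) (l 17290960)) (a (l 17275360) (l 17366024))) (b (l 17409280) (l 17466960))) (a (b (a (b (l 17350704) (l 17389792)) (l 17444336)) (a (l 17427560) (l 17516080))) (b (l 17528608) (l 17596832))))) (b (a (b (l 1) (l 253975385191)) (l 1)) (b (a (b (l 17536816) (l 17578792)) (b (l 1) (l 17624304))) (a (b (l 17609904) (l 17629728)) (l 17590720))))), by decide +kernel⟩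

theorem c_pm_112 : CertF 536870912 536870912 536870912 536870912 335544320 67108864 true true false .dn 1 1 2
    ndF0q1 ndF3q1 pcF2 Cut.none Ext.none :=
  certF1 (fam := true) (s1 := true) (s2 := false) (a := 1) (b := 1) (c := 2) (cn := .dn) (n1 := ndF0q1) (n2 := ndF3q1) (pc := pcF2) (cut := Cut.none) (xt := Ext.none) (P1 := 536870912) (W1 := 536870912) (P2 := 536870912) (W2 := 536870912) (P3 := 335544320) (W3 := 67108864)
    rfl (fun _ => rfl) k0_pm_112

noncomputable def f_pm_113 : ℕ → ℕ → ℕ → ℕ → Bool := onCell 536870912 536870912 1610612736 536870912 335544320 67108864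
    (rowF 1 true true false .nn 1 1 3 (qsf 536870912 536870912 536870912 536870912 3) ndF0q1 ndF3q1 pcF3 Cut.none Ext.none)

def k0_pm_113 : ∃ t, chk3 f_pm_113 t 1 1 1 = true :=
  ⟨(a (b (b (a (a (b (l 17630640) (l 17746168)) (l 17689000)) (a (l 17656056) (l 17606080))) (a (a (l 2) (l 18053664)) (b (l 17726656) (l 17791200)))) (b (a (l 2) (b (l 17855544) (l 2))) (l 2))) (b (b (a (b (l 17515768) (l 17543240)) (b (l 17446728) (l 17435632))) (a (b (l 17565656) (l 17585600)) (b (l 17416296) (l 17398120)))) (b (a (b (l 17604584) (l 17633320)) (l 4)) (l 4)))), by decide +kernel⟩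

theorem c_pm_113 : CertF 536870912 536870912 536870912 536870912 335544320 67108864 true true false .nn 1 1 3
    ndF0q1 ndF3q1 pcF3 Cut.none Ext.none :=
  certF1 (fam := true) (s1 := true) (s2 := false) (a := 1) (b := 1) (c := 3) (cn := .nn) (n1 := ndF0q1) (n2 := ndF3q1) (pc := pcF3) (cut := Cut.none) (xt := Ext.none) (P1 := 536870912) (W1 := 536870912) (P2 := 536870912) (W2 := 536870912) (P3 := 335544320) (W3 := 67108864)
    rfl (fun _ => rfl) k0_pm_113

noncomputable def f_pm_123 : ℕ → ℕ → ℕ → ℕ → Bool := onCell 536870912 536870912 1610612736 536870912 335544320 67108864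
    (rowF 1 true true false .npn 1 2 3 (qsf 536870912 536870912 1073741824 536870912 3) ndF0q1 ndF3q2 pcF3 Cut.none Ext.none)

def k0_pm_123 : ∃ t, chk3 f_pm_123 t 1 1 1 = true :=
  ⟨(b (a (a (a (b (l 17268048) (l 17311680)) (l 209951633447)) (b (a (l 17400776) (l 1)) (a (l 17296800) (l 17290128)))) (a (b (l 1) (a (l 17267880) (l 1))) (l 1))) (b (a (a (l 17294400) (a (l 17255328) (l 17226384))) (a (a (l 170759861447) (l 17153784)) (b (l 1) (l 17246816)))) (a (b (a (l 17261888) (l 17192232)) (b (a (l 17238072) (l 17166888)) (a (b (l 17225032) (b (l 17218160) (l 17212840))) (b (l 17153800) (b (l 17146808) (l 17146432)))))) (b (a (a (l 17123640) (l 17067360)) (l 17067552)) (b (a (l 17060208) (l 16959328)) (a (b (l 17051192) (b (l 17049176) (l 50164942343))) (b (l 16957568) (l 4)))))))), by decide +kernel⟩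

theorem c_pm_123 : CertF 536870912 536870912 1073741824 536870912 335544320 67108864 true true false .npn 1 2 3
    ndF0q1 ndF3q2 pcF3 Cut.none Ext.none :=
  certF1 (fam := true) (s1 := true) (s2 := false) (a := 1) (b := 2) (c := 3) (cn := .npn) (n1 := ndF0q1) (n2 := ndF3q2) (pc := pcF3) (cut := Cut.none) (xt := Ext.none) (P1 := 536870912) (W1 := 536870912) (P2 := 1073741824) (W2 := 536870912) (P3 := 335544320) (W3 := 67108864)
    rfl (fun _ => rfl) k0_pm_123

noncomputable def f_pm_133 : ℕ → ℕ → ℕ → ℕ → Bool := onCell 536870912 536870912 0 1230186008 335544320 67108864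
    (rowF 0 true true false .dn 1 3 3 (qsf 536870912 536870912 0 1230186008 3) ndF0q1 ndF3q3 pcF3 Cut.none Ext.none)

def k0_pm_133 : ∃ t, chk3 f_pm_133 t 1 1 1 = true :=
  ⟨(b (l 2) (b (l 2) (a (b (l 2) (a (b (l 2) (l 4)) (l 2))) (l 2)))), by decide +kernel⟩

theorem c_pm_133 : CertF 536870912 536870912 0 1230186008 335544320 67108864 true true false .dn 1 3 3
    ndF0q1 ndF3q3 pcF3 Cut.none Ext.none :=
  certF0 (fam := true) (s1 := true) (s2 := false) (a := 1) (b := 3) (c := 3) (cn := .dn) (n1 := ndF0q1) (n2 := ndF3q3) (pc := pcF3) (cut := Cut.none) (xt := Ext.none) (P1 := 536870912) (W1 := 536870912) (P2 := 0) (W2 := 1230186008) (P3 := 335544320) (W3 := 67108864)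
    rfl k0_pm_133

noncomputable def f_pm_202 : ℕ → ℕ → ℕ → ℕ → Bool := onCell 0 536870912 1073741824 536870912 335544320 67108864
    (rowF 1 true true false .pp 2 0 2 (qsf 0 536870912 0 536870912 2) ndF0q2 ndF3q0 pcF2 Cut.none Ext.none)

def k0_pm_202 : ∃ t, chk3 f_pm_202 t 1 1 1 = true :=
  ⟨(a (b (b (b (l 1) (a (l 1) (a (l 1) (l 16918272)))) (b (a (b (l 16995368) (l 17083232)) (b (l 17077208) (l 17161904))) (a (l 17178152) (l 17267336)))) (b (b (a (l 17261656) (l 17374016)) (l 17294944)) (b (l 17215296) (l 4)))) (b (b (a (b (l 1) (a (l 16991088) (l 17072368))) (b (a (a (l 16977560) (b (l 1) (l 17066696))) (a (l 17087152) (l 17152344))) (a (b (l 17140968) (l 17236000)) (l 17308768)))) (a (b (l 17249936) (l 17411920)) (b (a (l 17388608) (l 17448680)) (l 17485104)))) (b (a (l 17435592) (a (l 17470856) (l 17502688))) (b (l 17501992) (l 17334888))))), by decide +kernel⟩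

theorem c_pm_202 : CertF 0 536870912 0 536870912 335544320 67108864 true true false .pp 2 0 2
    ndF0q2 ndF3q0 pcF2 Cut.none Ext.none :=
  certF1 (fam := true) (s1 := true) (s2 := false) (a := 2) (b := 0) (c := 2) (cn := .pp) (n1 := ndF0q2) (n2 := ndF3q0) (pc := pcF2) (cut := Cut.none) (xt := Ext.none) (P1 := 0) (W1 := 536870912) (P2 := 0) (W2 := 536870912) (P3 := 335544320) (W3 := 67108864)
    rfl (fun _ => rfl) k0_pm_202

noncomputable def f_pm_203 : ℕ → ℕ → ℕ → ℕ → Bool := onCell 0 536870912 1610612736 536870912 335544320 67108864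
    (rowF 1 true true false .up 2 0 3 (qsf 0 536870912 0 536870912 3) ndF0q2 ndF3q0 pcF3 Cut.none Ext.none)

def k0_pm_203 : ∃ t, chk3 f_pm_203 t 1 1 1 = true :=
  ⟨(a (l 4) (b (b (b (l 17246680) (l 17144936)) (l 4)) (l 2))), by decide +kernel⟩

theorem c_pm_203 : CertF 0 536870912 0 536870912 335544320 67108864 true true false .up 2 0 3
    ndF0q2 ndF3q0 pcF3 Cut.none Ext.none :=
  certF1 (fam := true) (s1 := true) (s2 := false) (a := 2) (b := 0) (c := 3) (cn := .up) (n1 := ndF0q2) (n2 := ndF3q0) (pc := pcF3) (cut := Cut.none) (xt := Ext.none) (P1 := 0) (W1 := 536870912) (P2 := 0) (W2 := 536870912) (P3 := 335544320) (W3 := 67108864)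
    rfl (fun _ => rfl) k0_pm_203

noncomputable def f_pm_213 : ℕ → ℕ → ℕ → ℕ → Bool := onCell 0 536870912 1610612736 536870912 335544320 67108864
    (rowF 1 true true false .pnn 2 1 3 (qsf 0 536870912 536870912 536870912 3) ndF0q2 ndF3q1 pcF3 Cut.none Ext.none)

def k0_pm_213 : ∃ t, chk3 f_pm_213 t 1 1 1 = true :=
  ⟨(a (l 4) (b (b (b (l 17344160) (l 17300816)) (l 4)) (l 4))), by decide +kernel⟩

theorem c_pm_213 : CertF 0 536870912 536870912 536870912 335544320 67108864 true true false .pnn 2 1 3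
    ndF0q2 ndF3q1 pcF3 Cut.none Ext.none :=
  certF1 (fam := true) (s1 := true) (s2 := false) (a := 2) (b := 1) (c := 3) (cn := .pnn) (n1 := ndF0q2) (n2 := ndF3q1) (pc := pcF3) (cut := Cut.none) (xt := Ext.none) (P1 := 0) (W1 := 536870912) (P2 := 536870912) (W2 := 536870912) (P3 := 335544320) (W3 := 67108864)
    rfl (fun _ => rfl) k0_pm_213

noncomputable def f_mm_001 : ℕ → ℕ → ℕ → ℕ → Bool := onCell 0 536870912 0 536870912 335544320 67108864
    (rowF 0 true false false .up 0 0 1 (qsf 0 536870912 0 536870912 1) ndF0q0 ndF3q0 pcF1 Cut.none Ext.none)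

def k0_mm_001 : ∃ t, chk3 f_mm_001 t 1 1 1 = true :=
  ⟨(l 4), by decide +kernel⟩

theorem c_mm_001 : CertF 0 536870912 0 536870912 335544320 67108864 true false false .up 0 0 1
    ndF0q0 ndF3q0 pcF1 Cut.none Ext.none :=
  certF0 (fam := true) (s1 := false) (s2 := false) (a := 0) (b := 0) (c := 1) (cn := .up) (n1 := ndF0q0) (n2 := ndF3q0) (pc := pcF1) (cut := Cut.none) (xt := Ext.none) (P1 := 0) (W1 := 536870912) (P2 := 0) (W2 := 536870912) (P3 := 335544320) (W3 := 67108864)
    rfl k0_mm_001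

noncomputable def f_mm_011 : ℕ → ℕ → ℕ → ℕ → Bool := onCell 0 536870912 536870912 536870912 335544320 67108864
    (rowF 0 true false false .pnn 0 1 1 (qsf 0 536870912 536870912 536870912 1) ndF0q0 ndF3q1 pcF1 Cut.none Ext.none)

def k0_mm_011 : ∃ t, chk3 f_mm_011 t 1 1 1 = true :=
  ⟨(l 4), by decide +kernel⟩

theorem c_mm_011 : CertF 0 536870912 536870912 536870912 335544320 67108864 true false false .pnn 0 1 1
    ndF0q0 ndF3q1 pcF1 Cut.none Ext.none :=
  certF0 (fam := true) (s1 := false) (s2 := false) (a := 0) (b := 1) (c := 1) (cn := .pnn) (n1 := ndF0q0) (n2 := ndF3q1) (pc := pcF1) (cut := Cut.none) (xt := Ext.none) (P1 := 0) (W1 := 536870912) (P2 := 536870912) (W2 := 536870912) (P3 := 335544320) (W3 := 67108864)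
    rfl k0_mm_011

noncomputable def f_mm_012 : ℕ → ℕ → ℕ → ℕ → Bool := onCell 0 536870912 536870912 536870912 335544320 67108864
    (rowF 0 true false false .pnp 0 1 2 (qsf 0 536870912 536870912 536870912 2) ndF0q0 ndF3q1 pcF2 Cut.none Ext.none)

def k0_mm_012 : ∃ t, chk3 f_mm_012 t 1 1 1 = true :=
  ⟨(l 4), by decide +kernel⟩

theorem c_mm_012 : CertF 0 536870912 536870912 536870912 335544320 67108864 true false false .pnp 0 1 2
    ndF0q0 ndF3q1 pcF2 Cut.none Ext.none :=
  certF0 (fam := true) (s1 := false) (s2 := false) (a := 0) (b := 1) (c := 2) (cn := .pnp) (n1 := ndF0q0) (n2 := ndF3q1) (pc := pcF2) (cut := Cut.none) (xt := Ext.none) (P1 := 0) (W1 := 536870912) (P2 := 536870912) (W2 := 536870912) (P3 := 335544320) (W3 := 67108864)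
    rfl k0_mm_012

noncomputable def f_mm_022 : ℕ → ℕ → ℕ → ℕ → Bool := onCell 0 536870912 1073741824 536870912 335544320 67108864
    (rowF 0 true false false .pp 0 2 2 (qsf 0 536870912 1073741824 536870912 2) ndF0q0 ndF3q2 pcF2 Cut.none Ext.none)

def k0_mm_022 : ∃ t, chk3 f_mm_022 t 1 1 1 = true :=
  ⟨(l 4), by decide +kernel⟩

theorem c_mm_022 : CertF 0 536870912 1073741824 536870912 335544320 67108864 true false false .pp 0 2 2
    ndF0q0 ndF3q2 pcF2 Cut.none Ext.none :=
  certF0 (fam := true) (s1 := false) (s2 := false) (a := 0) (b := 2) (c := 2) (cn := .pp) (n1 := ndF0q0) (n2 := ndF3q2) (pc := pcF2) (cut := Cut.none) (xt := Ext.none) (P1 := 0) (W1 := 536870912) (P2 := 1073741824) (W2 := 536870912) (P3 := 335544320) (W3 := 67108864)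
    rfl k0_mm_022

noncomputable def f_mm_023 : ℕ → ℕ → ℕ → ℕ → Bool := onCell 0 536870912 1073741824 536870912 335544320 67108864
    (rowF 0 true false false .up 0 2 3 (qsf 0 536870912 1073741824 536870912 3) ndF0q0 ndF3q2 pcF3 Cut.none Ext.none)

def k0_mm_023 : ∃ t, chk3 f_mm_023 t 1 1 1 = true :=
  ⟨(l 4), by decide +kernel⟩

theorem c_mm_023 : CertF 0 536870912 1073741824 536870912 335544320 67108864 true false false .up 0 2 3
    ndF0q0 ndF3q2 pcF3 Cut.none Ext.none :=
  certF0 (fam := true) (s1 := false) (s2 := false) (a := 0) (b := 2) (c := 3) (cn := .up) (n1 := ndF0q0) (n2 := ndF3q2) (pc := pcF3) (cut := Cut.none) (xt := Ext.none) (P1 := 0) (W1 := 536870912) (P2 := 1073741824) (W2 := 536870912) (P3 := 335544320) (W3 := 67108864)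
    rfl k0_mm_023

noncomputable def f_mm_033 : ℕ → ℕ → ℕ → ℕ → Bool := onCell 0 536870912 0 1230186008 335544320 67108864
    (rowF 0 true false false .pnn 0 3 3 (qsf 0 536870912 0 1230186008 3) ndF0q0 ndF3q3 pcF3 Cut.none Ext.none)

def k0_mm_033 : ∃ t, chk3 f_mm_033 t 1 1 1 = true :=
  ⟨(l 5), by decide +kernel⟩

theorem c_mm_033 : CertF 0 536870912 0 1230186008 335544320 67108864 true false false .pnn 0 3 3
    ndF0q0 ndF3q3 pcF3 Cut.none Ext.none :=
  certF0 (fam := true) (s1 := false) (s2 := false) (a := 0) (b := 3) (c := 3) (cn := .pnn) (n1 := ndF0q0) (n2 := ndF3q3) (pc := pcF3) (cut := Cut.none) (xt := Ext.none) (P1 := 0) (W1 := 536870912) (P2 := 0) (W2 := 1230186008) (P3 := 335544320) (W3 := 67108864)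
    rfl k0_mm_033

noncomputable def f_mm_101 : ℕ → ℕ → ℕ → ℕ → Bool := onCell 536870912 536870912 0 536870912 335544320 67108864
    (rowF 0 true false false .npn 1 0 1 (qsf 536870912 536870912 0 536870912 1) ndF0q1 ndF3q0 pcF1 Cut.none Ext.none)

def k0_mm_101 : ∃ t, chk3 f_mm_101 t 1 1 1 = true :=
  ⟨(l 4), by decide +kernel⟩

theorem c_mm_101 : CertF 536870912 536870912 0 536870912 335544320 67108864 true false false .npn 1 0 1
    ndF0q1 ndF3q0 pcF1 Cut.none Ext.none :=
  certF0 (fam := true) (s1 := false) (s2 := false) (a := 1) (b := 0) (c := 1) (cn := .npn) (n1 := ndF0q1) (n2 := ndF3q0) (pc := pcF1) (cut := Cut.none) (xt := Ext.none) (P1 := 536870912) (W1 := 536870912) (P2 := 0) (W2 := 536870912) (P3 := 335544320) (W3 := 67108864)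
    rfl k0_mm_101

noncomputable def f_mm_102 : ℕ → ℕ → ℕ → ℕ → Bool := onCell 536870912 536870912 0 536870912 335544320 67108864
    (rowF 0 true false false .npp 1 0 2 (qsf 536870912 536870912 0 536870912 2) ndF0q1 ndF3q0 pcF2 Cut.none Ext.none)

def k0_mm_102 : ∃ t, chk3 f_mm_102 t 1 1 1 = true :=
  ⟨(l 4), by decide +kernel⟩

theorem c_mm_102 : CertF 536870912 536870912 0 536870912 335544320 67108864 true false false .npp 1 0 2
    ndF0q1 ndF3q0 pcF2 Cut.none Ext.none :=
  certF0 (fam := true) (s1 := false) (s2 := false) (a := 1) (b := 0) (c := 2) (cn := .npp) (n1 := ndF0q1) (n2 := ndF3q0) (pc := pcF2) (cut := Cut.none) (xt := Ext.none) (P1 := 536870912) (W1 := 536870912) (P2 := 0) (W2 := 536870912) (P3 := 335544320) (W3 := 67108864)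
    rfl k0_mm_102

noncomputable def f_mm_112 : ℕ → ℕ → ℕ → ℕ → Bool := onCell 536870912 536870912 536870912 536870912 335544320 67108864
    (rowF 0 true false false .dn 1 1 2 (qsf 536870912 536870912 536870912 536870912 2) ndF0q1 ndF3q1 pcF2 Cut.none Ext.none)

def k0_mm_112 : ∃ t, chk3 f_mm_112 t 1 1 1 = true :=
  ⟨(l 4), by decide +kernel⟩

theorem c_mm_112 : CertF 536870912 536870912 536870912 536870912 335544320 67108864 true false false .dn 1 1 2
    ndF0q1 ndF3q1 pcF2 Cut.none Ext.none :=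
  certF0 (fam := true) (s1 := false) (s2 := false) (a := 1) (b := 1) (c := 2) (cn := .dn) (n1 := ndF0q1) (n2 := ndF3q1) (pc := pcF2) (cut := Cut.none) (xt := Ext.none) (P1 := 536870912) (W1 := 536870912) (P2 := 536870912) (W2 := 536870912) (P3 := 335544320) (W3 := 67108864)
    rfl k0_mm_112

noncomputable def f_mm_113 : ℕ → ℕ → ℕ → ℕ → Bool := onCell 536870912 536870912 536870912 536870912 335544320 67108864
    (rowF 0 true false false .nn 1 1 3 (qsf 536870912 536870912 536870912 536870912 3) ndF0q1 ndF3q1 pcF3 Cut.none Ext.none)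

def k0_mm_113 : ∃ t, chk3 f_mm_113 t 1 1 1 = true :=
  ⟨(l 4), by decide +kernel⟩

theorem c_mm_113 : CertF 536870912 536870912 536870912 536870912 335544320 67108864 true false false .nn 1 1 3
    ndF0q1 ndF3q1 pcF3 Cut.none Ext.none :=
  certF0 (fam := true) (s1 := false) (s2 := false) (a := 1) (b := 1) (c := 3) (cn := .nn) (n1 := ndF0q1) (n2 := ndF3q1) (pc := pcF3) (cut := Cut.none) (xt := Ext.none) (P1 := 536870912) (W1 := 536870912) (P2 := 536870912) (W2 := 536870912) (P3 := 335544320) (W3 := 67108864)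
    rfl k0_mm_113

noncomputable def f_mm_123 : ℕ → ℕ → ℕ → ℕ → Bool := onCell 536870912 536870912 1073741824 536870912 335544320 67108864
    (rowF 0 true false false .npn 1 2 3 (qsf 536870912 536870912 1073741824 536870912 3) ndF0q1 ndF3q2 pcF3 Cut.none Ext.none)

def k0_mm_123 : ∃ t, chk3 f_mm_123 t 1 1 1 = true :=
  ⟨(l 4), by decide +kernel⟩

theorem c_mm_123 : CertF 536870912 536870912 1073741824 536870912 335544320 67108864 true false false .npn 1 2 3
    ndF0q1 ndF3q2 pcF3 Cut.none Ext.none :=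
  certF0 (fam := true) (s1 := false) (s2 := false) (a := 1) (b := 2) (c := 3) (cn := .npn) (n1 := ndF0q1) (n2 := ndF3q2) (pc := pcF3) (cut := Cut.none) (xt := Ext.none) (P1 := 536870912) (W1 := 536870912) (P2 := 1073741824) (W2 := 536870912) (P3 := 335544320) (W3 := 67108864)
    rfl k0_mm_123

noncomputable def f_mm_133 : ℕ → ℕ → ℕ → ℕ → Bool := onCell 536870912 536870912 0 1230186008 335544320 67108864
    (rowF 0 true false false .dn 1 3 3 (qsf 536870912 536870912 0 1230186008 3) ndF0q1 ndF3q3 pcF3 Cut.none Ext.none)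

def k0_mm_133 : ∃ t, chk3 f_mm_133 t 1 1 1 = true :=
  ⟨(l 4), by decide +kernel⟩

theorem c_mm_133 : CertF 536870912 536870912 0 1230186008 335544320 67108864 true false false .dn 1 3 3
    ndF0q1 ndF3q3 pcF3 Cut.none Ext.none :=
  certF0 (fam := true) (s1 := false) (s2 := false) (a := 1) (b := 3) (c := 3) (cn := .dn) (n1 := ndF0q1) (n2 := ndF3q3) (pc := pcF3) (cut := Cut.none) (xt := Ext.none) (P1 := 536870912) (W1 := 536870912) (P2 := 0) (W2 := 1230186008) (P3 := 335544320) (W3 := 67108864)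
    rfl k0_mm_133

noncomputable def f_mm_202 : ℕ → ℕ → ℕ → ℕ → Bool := onCell 0 536870912 0 536870912 335544320 67108864
    (rowF 0 true false false .pp 2 0 2 (qsf 0 536870912 0 536870912 2) ndF0q2 ndF3q0 pcF2 Cut.none Ext.none)

def k0_mm_202 : ∃ t, chk3 f_mm_202 t 1 1 1 = true :=
  ⟨(b (a (b (a (b (l 17060440) (l 4)) (l 4)) (l 4)) (l 4)) (l 4)), by decide +kernel⟩

theorem c_mm_202 : CertF 0 536870912 0 536870912 335544320 67108864 true false false .pp 2 0 2
    ndF0q2 ndF3q0 pcF2 Cut.none Ext.none :=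
  certF0 (fam := true) (s1 := false) (s2 := false) (a := 2) (b := 0) (c := 2) (cn := .pp) (n1 := ndF0q2) (n2 := ndF3q0) (pc := pcF2) (cut := Cut.none) (xt := Ext.none) (P1 := 0) (W1 := 536870912) (P2 := 0) (W2 := 536870912) (P3 := 335544320) (W3 := 67108864)
    rfl k0_mm_202

noncomputable def f_mm_203 : ℕ → ℕ → ℕ → ℕ → Bool := onCell 0 536870912 1610612736 536870912 335544320 67108864
    (rowF 1 true false false .up 2 0 3 (qsf 0 536870912 0 536870912 3) ndF0q2 ndF3q0 pcF3 Cut.none Ext.none)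

def k0_mm_203 : ∃ t, chk3 f_mm_203 t 1 1 1 = true :=
  ⟨(l 4), by decide +kernel⟩

theorem c_mm_203 : CertF 0 536870912 0 536870912 335544320 67108864 true false false .up 2 0 3
    ndF0q2 ndF3q0 pcF3 Cut.none Ext.none :=
  certF1 (fam := true) (s1 := false) (s2 := false) (a := 2) (b := 0) (c := 3) (cn := .up) (n1 := ndF0q2) (n2 := ndF3q0) (pc := pcF3) (cut := Cut.none) (xt := Ext.none) (P1 := 0) (W1 := 536870912) (P2 := 0) (W2 := 536870912) (P3 := 335544320) (W3 := 67108864)
    rfl (fun _ => rfl) k0_mm_203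

noncomputable def f_mm_213 : ℕ → ℕ → ℕ → ℕ → Bool := onCell 0 536870912 536870912 536870912 335544320 67108864
    (rowF 0 true false false .pnn 2 1 3 (qsf 0 536870912 536870912 536870912 3) ndF0q2 ndF3q1 pcF3 Cut.none Ext.none)

def k0_mm_213 : ∃ t, chk3 f_mm_213 t 1 1 1 = true :=
  ⟨(l 4), by decide +kernel⟩

theorem c_mm_213 : CertF 0 536870912 536870912 536870912 335544320 67108864 true false false .pnn 2 1 3
    ndF0q2 ndF3q1 pcF3 Cut.none Ext.none :=
  certF0 (fam := true) (s1 := false) (s2 := false) (a := 2) (b := 1) (c := 3) (cn := .pnn) (n1 := ndF0q2) (n2 := ndF3q1) (pc := pcF3) (cut := Cut.none) (xt := Ext.none) (P1 := 0) (W1 := 536870912) (P2 := 536870912) (W2 := 536870912) (P3 := 335544320) (W3 := 67108864)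
    rfl k0_mm_213

end Pool.Agent.Strip051.G.I5_16_3_8.Tab.C.FA03

namespace Pool.Agent.Strip051.G.I5_16_3_8.Tab.C.FA04

open Pool.Agent.Strip051.PB Pool.Agent.Strip051.PB.T
open Pool.Agent.Strip051.G.I5_16_3_8.Tab

noncomputable def cut_pp_001 : Cut := Cut.of [[⟨3, 0, 0, 1449551462⟩]]

noncomputable def f_pp_001 : ℕ → ℕ → ℕ → ℕ → Bool := onCell 0 536870912 0 536870912 335544320 67108864
    (rowF 0 true true true .up 0 0 1 (qsf 0 536870912 0 536870912 1) ndF0q0 ndF4q0 pcF1 cut_pp_001 Ext.none)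

def k0_pp_001 : ∃ t, chk3 f_pp_001 t 1 1 1 = true :=
  ⟨(l 4), by decide +kernel⟩

theorem c_pp_001 : CertF 0 536870912 0 536870912 335544320 67108864 true true true .up 0 0 1
    ndF0q0 ndF4q0 pcF1 cut_pp_001 Ext.none :=
  certF0 (fam := true) (s1 := true) (s2 := true) (a := 0) (b := 0) (c := 1) (cn := .up) (n1 := ndF0q0) (n2 := ndF4q0) (pc := pcF1) (cut := cut_pp_001) (xt := Ext.none) (P1 := 0) (W1 := 536870912) (P2 := 0) (W2 := 536870912) (P3 := 335544320) (W3 := 67108864)
    rfl k0_pp_001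

noncomputable def cut_pp_011 : Cut := Cut.of [[⟨3, 0, 0, 1449551462⟩]]

noncomputable def f_pp_011 : ℕ → ℕ → ℕ → ℕ → Bool := onCell 0 536870912 536870912 536870912 335544320 67108864
    (rowF 0 true true true .pnn 0 1 1 (qsf 0 536870912 536870912 536870912 1) ndF0q0 ndF4q1 pcF1 cut_pp_011 Ext.none)

def k0_pp_011 : ∃ t, chk3 f_pp_011 t 1 1 1 = true :=
  ⟨(l 4), by decide +kernel⟩

theorem c_pp_011 : CertF 0 536870912 536870912 536870912 335544320 67108864 true true true .pnn 0 1 1
    ndF0q0 ndF4q1 pcF1 cut_pp_011 Ext.none :=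
  certF0 (fam := true) (s1 := true) (s2 := true) (a := 0) (b := 1) (c := 1) (cn := .pnn) (n1 := ndF0q0) (n2 := ndF4q1) (pc := pcF1) (cut := cut_pp_011) (xt := Ext.none) (P1 := 0) (W1 := 536870912) (P2 := 536870912) (W2 := 536870912) (P3 := 335544320) (W3 := 67108864)
    rfl k0_pp_011

noncomputable def cut_pp_012 : Cut := Cut.of [[⟨3, 0, 0, 1449551462⟩]]

noncomputable def f_pp_012 : ℕ → ℕ → ℕ → ℕ → Bool := onCell 0 536870912 536870912 536870912 335544320 67108864
    (rowF 0 true true true .pnp 0 1 2 (qsf 0 536870912 536870912 536870912 2) ndF0q0 ndF4q1 pcF2 cut_pp_012 Ext.none)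

def k0_pp_012 : ∃ t, chk3 f_pp_012 t 1 1 1 = true :=
  ⟨(l 4), by decide +kernel⟩

theorem c_pp_012 : CertF 0 536870912 536870912 536870912 335544320 67108864 true true true .pnp 0 1 2
    ndF0q0 ndF4q1 pcF2 cut_pp_012 Ext.none :=
  certF0 (fam := true) (s1 := true) (s2 := true) (a := 0) (b := 1) (c := 2) (cn := .pnp) (n1 := ndF0q0) (n2 := ndF4q1) (pc := pcF2) (cut := cut_pp_012) (xt := Ext.none) (P1 := 0) (W1 := 536870912) (P2 := 536870912) (W2 := 536870912) (P3 := 335544320) (W3 := 67108864)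
    rfl k0_pp_012

noncomputable def cut_pp_022 : Cut := Cut.of [[⟨3, 0, 0, 1449551462⟩]]

noncomputable def f_pp_022 : ℕ → ℕ → ℕ → ℕ → Bool := onCell 0 536870912 1073741824 536870912 335544320 67108864
    (rowF 0 true true true .pp 0 2 2 (qsf 0 536870912 1073741824 536870912 2) ndF0q0 ndF4q2 pcF2 cut_pp_022 Ext.none)

def k0_pp_022 : ∃ t, chk3 f_pp_022 t 1 1 1 = true :=
  ⟨(l 4), by decide +kernel⟩

theorem c_pp_022 : CertF 0 536870912 1073741824 536870912 335544320 67108864 true true true .pp 0 2 2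
    ndF0q0 ndF4q2 pcF2 cut_pp_022 Ext.none :=
  certF0 (fam := true) (s1 := true) (s2 := true) (a := 0) (b := 2) (c := 2) (cn := .pp) (n1 := ndF0q0) (n2 := ndF4q2) (pc := pcF2) (cut := cut_pp_022) (xt := Ext.none) (P1 := 0) (W1 := 536870912) (P2 := 1073741824) (W2 := 536870912) (P3 := 335544320) (W3 := 67108864)
    rfl k0_pp_022

noncomputable def cut_pp_023 : Cut := Cut.of [[⟨3, 0, 0, 1449551462⟩]]

noncomputable def f_pp_023 : ℕ → ℕ → ℕ → ℕ → Bool := onCell 0 536870912 1073741824 536870912 335544320 67108864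
    (rowF 0 true true true .up 0 2 3 (qsf 0 536870912 1073741824 536870912 3) ndF0q0 ndF4q2 pcF3 cut_pp_023 Ext.none)

def k0_pp_023 : ∃ t, chk3 f_pp_023 t 1 1 1 = true :=
  ⟨(l 4), by decide +kernel⟩

theorem c_pp_023 : CertF 0 536870912 1073741824 536870912 335544320 67108864 true true true .up 0 2 3
    ndF0q0 ndF4q2 pcF3 cut_pp_023 Ext.none :=
  certF0 (fam := true) (s1 := true) (s2 := true) (a := 0) (b := 2) (c := 3) (cn := .up) (n1 := ndF0q0) (n2 := ndF4q2) (pc := pcF3) (cut := cut_pp_023) (xt := Ext.none) (P1 := 0) (W1 := 536870912) (P2 := 1073741824) (W2 := 536870912) (P3 := 335544320) (W3 := 67108864)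
    rfl k0_pp_023

noncomputable def cut_pp_033 : Cut := Cut.of [[⟨3, 0, 0, 1449551462⟩]]

noncomputable def f_pp_033 : ℕ → ℕ → ℕ → ℕ → Bool := onCell 0 536870912 0 1230186008 335544320 67108864
    (rowF 0 true true true .pnn 0 3 3 (qsf 0 536870912 0 1230186008 3) ndF0q0 ndF4q3 pcF3 cut_pp_033 Ext.none)

def k0_pp_033 : ∃ t, chk3 f_pp_033 t 1 1 1 = true :=
  ⟨(l 4), by decide +kernel⟩

theorem c_pp_033 : CertF 0 536870912 0 1230186008 335544320 67108864 true true true .pnn 0 3 3
    ndF0q0 ndF4q3 pcF3 cut_pp_033 Ext.none :=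
  certF0 (fam := true) (s1 := true) (s2 := true) (a := 0) (b := 3) (c := 3) (cn := .pnn) (n1 := ndF0q0) (n2 := ndF4q3) (pc := pcF3) (cut := cut_pp_033) (xt := Ext.none) (P1 := 0) (W1 := 536870912) (P2 := 0) (W2 := 1230186008) (P3 := 335544320) (W3 := 67108864)
    rfl k0_pp_033

noncomputable def cut_pp_101 : Cut := Cut.of [[⟨3, 0, 0, 1449551462⟩]]

noncomputable def f_pp_101 : ℕ → ℕ → ℕ → ℕ → Bool := onCell 536870912 536870912 0 536870912 335544320 67108864
    (rowF 0 true true true .npn 1 0 1 (qsf 536870912 536870912 0 536870912 1) ndF0q1 ndF4q0 pcF1 cut_pp_101 Ext.none)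

def k0_pp_101 : ∃ t, chk3 f_pp_101 t 1 1 1 = true :=
  ⟨(l 4), by decide +kernel⟩

theorem c_pp_101 : CertF 536870912 536870912 0 536870912 335544320 67108864 true true true .npn 1 0 1
    ndF0q1 ndF4q0 pcF1 cut_pp_101 Ext.none :=
  certF0 (fam := true) (s1 := true) (s2 := true) (a := 1) (b := 0) (c := 1) (cn := .npn) (n1 := ndF0q1) (n2 := ndF4q0) (pc := pcF1) (cut := cut_pp_101) (xt := Ext.none) (P1 := 536870912) (W1 := 536870912) (P2 := 0) (W2 := 536870912) (P3 := 335544320) (W3 := 67108864)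
    rfl k0_pp_101

noncomputable def cut_pp_102 : Cut := Cut.of [[⟨3, 0, 0, 1449551462⟩]]

noncomputable def f_pp_102 : ℕ → ℕ → ℕ → ℕ → Bool := onCell 536870912 536870912 0 536870912 335544320 67108864
    (rowF 0 true true true .npp 1 0 2 (qsf 536870912 536870912 0 536870912 2) ndF0q1 ndF4q0 pcF2 cut_pp_102 Ext.none)

def k0_pp_102 : ∃ t, chk3 f_pp_102 t 1 1 1 = true :=
  ⟨(l 4), by decide +kernel⟩

theorem c_pp_102 : CertF 536870912 536870912 0 536870912 335544320 67108864 true true true .npp 1 0 2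
    ndF0q1 ndF4q0 pcF2 cut_pp_102 Ext.none :=
  certF0 (fam := true) (s1 := true) (s2 := true) (a := 1) (b := 0) (c := 2) (cn := .npp) (n1 := ndF0q1) (n2 := ndF4q0) (pc := pcF2) (cut := cut_pp_102) (xt := Ext.none) (P1 := 536870912) (W1 := 536870912) (P2 := 0) (W2 := 536870912) (P3 := 335544320) (W3 := 67108864)
    rfl k0_pp_102

noncomputable def cut_pp_112 : Cut := Cut.of [[⟨3, 0, 0, 1449551462⟩]]

noncomputable def f_pp_112 : ℕ → ℕ → ℕ → ℕ → Bool := onCell 536870912 536870912 536870912 536870912 335544320 67108864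
    (rowF 0 true true true .dn 1 1 2 (qsf 536870912 536870912 536870912 536870912 2) ndF0q1 ndF4q1 pcF2 cut_pp_112 Ext.none)

def k0_pp_112 : ∃ t, chk3 f_pp_112 t 1 1 1 = true :=
  ⟨(l 4), by decide +kernel⟩

theorem c_pp_112 : CertF 536870912 536870912 536870912 536870912 335544320 67108864 true true true .dn 1 1 2
    ndF0q1 ndF4q1 pcF2 cut_pp_112 Ext.none :=
  certF0 (fam := true) (s1 := true) (s2 := true) (a := 1) (b := 1) (c := 2) (cn := .dn) (n1 := ndF0q1) (n2 := ndF4q1) (pc := pcF2) (cut := cut_pp_112) (xt := Ext.none) (P1 := 536870912) (W1 := 536870912) (P2 := 536870912) (W2 := 536870912) (P3 := 335544320) (W3 := 67108864)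
    rfl k0_pp_112

noncomputable def cut_pp_113 : Cut := Cut.of [[⟨3, 0, 0, 1449551462⟩]]

noncomputable def f_pp_113 : ℕ → ℕ → ℕ → ℕ → Bool := onCell 536870912 536870912 536870912 536870912 335544320 67108864
    (rowF 0 true true true .nn 1 1 3 (qsf 536870912 536870912 536870912 536870912 3) ndF0q1 ndF4q1 pcF3 cut_pp_113 Ext.none)

def k0_pp_113 : ∃ t, chk3 f_pp_113 t 1 1 1 = true :=
  ⟨(l 4), by decide +kernel⟩

theorem c_pp_113 : CertF 536870912 536870912 536870912 536870912 335544320 67108864 true true true .nn 1 1 3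
    ndF0q1 ndF4q1 pcF3 cut_pp_113 Ext.none :=
  certF0 (fam := true) (s1 := true) (s2 := true) (a := 1) (b := 1) (c := 3) (cn := .nn) (n1 := ndF0q1) (n2 := ndF4q1) (pc := pcF3) (cut := cut_pp_113) (xt := Ext.none) (P1 := 536870912) (W1 := 536870912) (P2 := 536870912) (W2 := 536870912) (P3 := 335544320) (W3 := 67108864)
    rfl k0_pp_113

noncomputable def cut_pp_123 : Cut := Cut.of [[⟨3, 0, 0, 1449551462⟩]]

noncomputable def f_pp_123 : ℕ → ℕ → ℕ → ℕ → Bool := onCell 536870912 536870912 1073741824 536870912 335544320 67108864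
    (rowF 0 true true true .npn 1 2 3 (qsf 536870912 536870912 1073741824 536870912 3) ndF0q1 ndF4q2 pcF3 cut_pp_123 Ext.none)

def k0_pp_123 : ∃ t, chk3 f_pp_123 t 1 1 1 = true :=
  ⟨(l 4), by decide +kernel⟩

theorem c_pp_123 : CertF 536870912 536870912 1073741824 536870912 335544320 67108864 true true true .npn 1 2 3
    ndF0q1 ndF4q2 pcF3 cut_pp_123 Ext.none :=
  certF0 (fam := true) (s1 := true) (s2 := true) (a := 1) (b := 2) (c := 3) (cn := .npn) (n1 := ndF0q1) (n2 := ndF4q2) (pc := pcF3) (cut := cut_pp_123) (xt := Ext.none) (P1 := 536870912) (W1 := 536870912) (P2 := 1073741824) (W2 := 536870912) (P3 := 335544320) (W3 := 67108864)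
    rfl k0_pp_123

noncomputable def cut_pp_133 : Cut := Cut.of [[⟨3, 0, 0, 1449551462⟩]]

noncomputable def f_pp_133 : ℕ → ℕ → ℕ → ℕ → Bool := onCell 536870912 536870912 0 1230186008 335544320 67108864
    (rowF 0 true true true .dn 1 3 3 (qsf 536870912 536870912 0 1230186008 3) ndF0q1 ndF4q3 pcF3 cut_pp_133 Ext.none)

def k0_pp_133 : ∃ t, chk3 f_pp_133 t 1 1 1 = true :=
  ⟨(l 4), by decide +kernel⟩

theorem c_pp_133 : CertF 536870912 536870912 0 1230186008 335544320 67108864 true true true .dn 1 3 3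
    ndF0q1 ndF4q3 pcF3 cut_pp_133 Ext.none :=
  certF0 (fam := true) (s1 := true) (s2 := true) (a := 1) (b := 3) (c := 3) (cn := .dn) (n1 := ndF0q1) (n2 := ndF4q3) (pc := pcF3) (cut := cut_pp_133) (xt := Ext.none) (P1 := 536870912) (W1 := 536870912) (P2 := 0) (W2 := 1230186008) (P3 := 335544320) (W3 := 67108864)
    rfl k0_pp_133

noncomputable def cut_pp_202 : Cut := Cut.of [[⟨3, 0, 0, 1449551462⟩]]

noncomputable def f_pp_202 : ℕ → ℕ → ℕ → ℕ → Bool := onCell 0 536870912 0 536870912 335544320 67108864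
    (rowF 0 true true true .pp 2 0 2 (qsf 0 536870912 0 536870912 2) ndF0q2 ndF4q0 pcF2 cut_pp_202 Ext.none)

def k0_pp_202 : ∃ t, chk3 f_pp_202 t 1 1 1 = true :=
  ⟨(l 4), by decide +kernel⟩

theorem c_pp_202 : CertF 0 536870912 0 536870912 335544320 67108864 true true true .pp 2 0 2
    ndF0q2 ndF4q0 pcF2 cut_pp_202 Ext.none :=
  certF0 (fam := true) (s1 := true) (s2 := true) (a := 2) (b := 0) (c := 2) (cn := .pp) (n1 := ndF0q2) (n2 := ndF4q0) (pc := pcF2) (cut := cut_pp_202) (xt := Ext.none) (P1 := 0) (W1 := 536870912) (P2 := 0) (W2 := 536870912) (P3 := 335544320) (W3 := 67108864)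
    rfl k0_pp_202

noncomputable def cut_pp_203 : Cut := Cut.of [[⟨3, 0, 0, 1449551462⟩]]

noncomputable def f_pp_203 : ℕ → ℕ → ℕ → ℕ → Bool := onCell 0 536870912 0 536870912 335544320 67108864
    (rowF 0 true true true .up 2 0 3 (qsf 0 536870912 0 536870912 3) ndF0q2 ndF4q0 pcF3 cut_pp_203 Ext.none)

def k0_pp_203 : ∃ t, chk3 f_pp_203 t 1 1 1 = true :=
  ⟨(l 4), by decide +kernel⟩

theorem c_pp_203 : CertF 0 536870912 0 536870912 335544320 67108864 true true true .up 2 0 3
    ndF0q2 ndF4q0 pcF3 cut_pp_203 Ext.none :=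
  certF0 (fam := true) (s1 := true) (s2 := true) (a := 2) (b := 0) (c := 3) (cn := .up) (n1 := ndF0q2) (n2 := ndF4q0) (pc := pcF3) (cut := cut_pp_203) (xt := Ext.none) (P1 := 0) (W1 := 536870912) (P2 := 0) (W2 := 536870912) (P3 := 335544320) (W3 := 67108864)
    rfl k0_pp_203

noncomputable def cut_pp_213 : Cut := Cut.of [[⟨3, 0, 0, 1449551462⟩]]

noncomputable def f_pp_213 : ℕ → ℕ → ℕ → ℕ → Bool := onCell 0 536870912 536870912 536870912 335544320 67108864
    (rowF 0 true true true .pnn 2 1 3 (qsf 0 536870912 536870912 536870912 3) ndF0q2 ndF4q1 pcF3 cut_pp_213 Ext.none)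

def k0_pp_213 : ∃ t, chk3 f_pp_213 t 1 1 1 = true :=
  ⟨(l 4), by decide +kernel⟩

theorem c_pp_213 : CertF 0 536870912 536870912 536870912 335544320 67108864 true true true .pnn 2 1 3
    ndF0q2 ndF4q1 pcF3 cut_pp_213 Ext.none :=
  certF0 (fam := true) (s1 := true) (s2 := true) (a := 2) (b := 1) (c := 3) (cn := .pnn) (n1 := ndF0q2) (n2 := ndF4q1) (pc := pcF3) (cut := cut_pp_213) (xt := Ext.none) (P1 := 0) (W1 := 536870912) (P2 := 536870912) (W2 := 536870912) (P3 := 335544320) (W3 := 67108864)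
    rfl k0_pp_213

noncomputable def cut_pm_001 : Cut := Cut.of [[⟨3, 0, 0, 1449551462⟩]]

noncomputable def f_pm_001 : ℕ → ℕ → ℕ → ℕ → Bool := onCell 0 536870912 0 536870912 335544320 67108864
    (rowF 0 true true false .up 0 0 1 (qsf 0 536870912 0 536870912 1) ndF0q0 ndF4q0 pcF1 cut_pm_001 Ext.none)

def k0_pm_001 : ∃ t, chk3 f_pm_001 t 1 1 1 = true :=
  ⟨(a (l 3) (b (l 6) (a (l 6) (b (l 6) (a (l 6) (b (l 6) (a (l 6) (b (l 6) (l 16911552))))))))), by decide +kernel⟩

theorem c_pm_001 : CertF 0 536870912 0 536870912 335544320 67108864 true true false .up 0 0 1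
    ndF0q0 ndF4q0 pcF1 cut_pm_001 Ext.none :=
  certF0 (fam := true) (s1 := true) (s2 := false) (a := 0) (b := 0) (c := 1) (cn := .up) (n1 := ndF0q0) (n2 := ndF4q0) (pc := pcF1) (cut := cut_pm_001) (xt := Ext.none) (P1 := 0) (W1 := 536870912) (P2 := 0) (W2 := 536870912) (P3 := 335544320) (W3 := 67108864)
    rfl k0_pm_001

noncomputable def cut_pm_011 : Cut := Cut.of [[⟨3, 0, 0, 1449551462⟩], [⟨0, 0, 0, 67108864⟩, ⟨1, 1, 0, 67108864⟩, ⟨2, 1, 0, 67108864⟩]]

noncomputable def f_pm_011 : ℕ → ℕ → ℕ → ℕ → Bool := onCell 0 536870912 536870912 536870912 335544320 67108864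
    (rowF 1 true true false .pnn 0 1 1 (qsf 0 536870912 536870912 536870912 1) ndF0q0 ndF4q1 pcF1 cut_pm_011 Ext.none)

def k0_pm_011 : ∃ t, chk3 f_pm_011 t 1 1 1 = true :=
  ⟨(b (l 6) (a (l 6) (b (l 6) (a (l 6) (b (l 6) (a (l 6) (b (l 6) (a (l 6) (l 16879592))))))))), by decide +kernel⟩

theorem c_pm_011 : CertF 0 536870912 536870912 536870912 335544320 67108864 true true false .pnn 0 1 1
    ndF0q0 ndF4q1 pcF1 cut_pm_011 Ext.none :=
  certF1 (fam := true) (s1 := true) (s2 := false) (a := 0) (b := 1) (c := 1) (cn := .pnn) (n1 := ndF0q0) (n2 := ndF4q1) (pc := pcF1) (cut := cut_pm_011) (xt := Ext.none) (P1 := 0) (W1 := 536870912) (P2 := 536870912) (W2 := 536870912) (P3 := 335544320) (W3 := 67108864)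
    rfl (fun _ => rfl) k0_pm_011

noncomputable def cut_pm_012 : Cut := Cut.of [[⟨3, 0, 0, 1449551462⟩], [⟨0, 0, 0, 67108864⟩, ⟨1, 1, 0, 67108864⟩, ⟨2, 1, 0, 67108864⟩]]

noncomputable def f_pm_012 : ℕ → ℕ → ℕ → ℕ → Bool := onCell 0 536870912 536870912 536870912 335544320 67108864
    (rowF 0 true true false .pnp 0 1 2 (qsf 0 536870912 536870912 536870912 2) ndF0q0 ndF4q1 pcF2 cut_pm_012 Ext.none)

def k0_pm_012 : ∃ t, chk3 f_pm_012 t 2 1 1 = true :=
  ⟨(b (l 6) (a (l 6) (b (l 6) (a (l 6) (b (b (l 6) (a (l 6) (b (l 6) (a (l 6) (l 16414248))))) (a (b (l 6) (b (c (l 16424512) (l 16403568)) (c (a (l 16417784) (l 16398648)) (a (l 16395616) (l 16374848))))) (b (b (l 16408664) (l 16394136)) (b (c (l 16390448) (l 16366080)) (c (a (l 16381976) (l 16368432)) (a (l 16356496) (l 16341096))))))))))), by decide +kernel⟩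

def k1_pm_012 : ∃ t, chk3 f_pm_012 t 3 2 1 = true :=
  ⟨(a (b (l 6) (a (l 6) (b (l 6) (a (l 6) (b (l 6) (l 16402680)))))) (b (a (b (l 6) (a (l 6) (b (l 6) (l 16611832)))) (b (a (b (l 6) (l 16742912)) (l 76806131495)) (a (l 16734096) (l 16857480)))) (a (b (a (b (l 6) (l 16450056)) (l 16607576)) (a (l 16445760) (l 16637160))) (b (a (l 16759440) (l 16905072)) (a (l 16813272) (l 16971264)))))), by decide +kernel⟩

def k2_pm_012 : ∃ t, chk3 f_pm_012 t 6 3 1 = true :=
  ⟨(b (a (b (l 6) (a (l 6) (b (a (l 6) (b (l 16423872) (a (l 16422688) (l 16481368)))) (a (b (a (l 6) (l 16503920)) (l 16459208)) (b (l 16437872) (l 16414512)))))) (b (a (b (l 16416280) (a (l 16422048) (b (l 16420768) (a (l 16422032) (l 16462152))))) (b (l 16411352) (b (l 16416552) (b (l 16418808) (l 16418192))))) (a (b (a (b (a (l 16422040) (l 16459552)) (l 16417232)) (b (l 16418320) (l 16420752))) (l 16415080)) (l 16420928)))) (a (b (a (b (b (a (l 6) (l 16502232)) (a (b (l 6) (l 16418864)) (l 16411976))) (l 16401496))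 (b (l 16406288) (l 16388448))) (a (b (b (l 16383336) (l 16390880)) (b (c (l 16369440) (l 16340896)) (a (c (l 16358416) (l 16329008)) (c (b (l 16355984) (l 16348360)) (l 16320176))))) (b (b (l 16372240) (a (l 16361312) (l 16359576))) (b (a (c (l 16363224) (l 16330952)) (c (l 16367880) (l 16332272))) (a (c (b (l 16354728) (l 16350768)) (b (l 16320728) (l 16315368))) (c (l 16365520) (l 16326496))))))) (b (a (b (l 16404288) (b (l 16393424) (l 16383824))) (b (a (l 16412240) (l 16428920)) (b (l 16410744) (l 16419504)))) (a (b (b (l 16398488) (a (l 16365720) (l 16383320))) (b (a (l 16364224) (l 16386560)) (a (c (l 16386328) (l 16342184)) (c (l 16492912) (l 16365272))))) (b (b (l 16458520) (l 16437072)) (b (a (l 16446056) (l 16640536)) (a (l 16430376) (l 16438224)))))))), by decide +kernel⟩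

def k3_pm_012 : ∃ t, chk3 f_pm_012 t 7 3 1 = true :=
  ⟨(b (a (b (a (l 16482544) (l 16700408)) (a (b (l 16537776) (a (l 16520776) (l 16647272))) (b (l 16765512) (l 16818648)))) (b (a (b (l 16868400) (l 16910704)) (b (l 17029904) (l 17073120))) (a (b (l 16958488) (l 17014272)) (b (l 17121232) (l 17173960))))) (a (b (a (a (b (l 16576472) (l 16650920)) (b (l 16707968) (l 16786224))) (b (l 16883984) (a (l 16905616) (l 17011320)))) (a (b (a (b (l 16717112) (l 16764136)) (l 16877888)) (a (b (l 16813344) (l 16696392)) (b (l 16954424) (c (l 17182064) (l 16833384))))) (b (a (l 16993456) (l 17094976)) (a (b (l 17066000) (c (l 17270792) (l 16932216))) (b (l 17149968) (l 17158200)))))) (b (a (b (l 17077088) (l 17147256)) (b (l 17231528) (l 17281368))) (a (b (a (l 17176624) (l 17238240)) (a (l 17203784) (l 17250568))) (b (l 17308656) (l 17322472)))))), by decide +kernel⟩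

theorem s4_pm_012 : ∃ t, chk3 f_pm_012 t 3 3 1 = true := ex3_a k2_pm_012 k3_pm_012

theorem s5_pm_012 : ∃ t, chk3 f_pm_012 t 3 1 1 = true := ex3_b k1_pm_012 s4_pm_012

theorem s6_pm_012 : ∃ t, chk3 f_pm_012 t 1 1 1 = true := ex3_a k0_pm_012 s5_pm_012

theorem c_pm_012 : CertF 0 536870912 536870912 536870912 335544320 67108864 true true false .pnp 0 1 2
    ndF0q0 ndF4q1 pcF2 cut_pm_012 Ext.none :=
  certF0 (fam := true) (s1 := true) (s2 := false) (a := 0) (b := 1) (c := 2) (cn := .pnp) (n1 := ndF0q0) (n2 := ndF4q1) (pc := pcF2) (cut := cut_pm_012) (xt := Ext.none) (P1 := 0) (W1 := 536870912) (P2 := 536870912) (W2 := 536870912) (P3 := 335544320) (W3 := 67108864)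
    rfl s6_pm_012

noncomputable def cut_pm_022 : Cut := Cut.of [[⟨3, 0, 0, 1449551462⟩], [⟨0, 0, 0, 67108864⟩, ⟨1, 1, 0, 67108864⟩, ⟨2, 1, 0, 67108864⟩]]

noncomputable def f_pm_022 : ℕ → ℕ → ℕ → ℕ → Bool := onCell 1073741824 536870912 1073741824 536870912 335544320 67108864
    (rowF 2 true true false .pp 0 2 2 (qsf 0 536870912 1073741824 536870912 2) ndF0q0 ndF4q2 pcF2 cut_pm_022 Ext.none)

def k0_pm_022 : ∃ t, chk3 f_pm_022 t 2 1 1 = true :=
  ⟨(a (l 6) (b (a (l 6) (b (b (b (b (b (a (c (a (l 16408896) (l 16389728)) (l 16375496)) (c (a (l 16373016) (l 16359208)) (l 16339024))) (a (l 16408704) (c (l 16364056) (l 16338616)))) (a (l 16387664) (c (l 16361432) (l 16337856)))) (a (l 16427864) (b (l 16347016) (l 16343696)))) (b (a (l 6) (l 16336536)) (l 16470784))) (b (a (l 6) (l 16356152)) (l 6)))) (l 6))), by decide +kernel⟩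

def k1_pm_022 : ∃ t, chk3 f_pm_022 t 3 1 1 = true :=
  ⟨(b (a (a (b (b (b (a (b (a (c (l 16347272) (l 16318368)) (c (l 16340240) (l 16309144))) (a (l 16328200) (l 16317656))) (b (a (c (l 16343064) (l 16308728)) (c (l 16357296) (l 16318448))) (a (l 16316240) (l 16324864)))) (a (b (l 16316408) (l 16310472)) (b (l 16309120) (l 16298192)))) (a (b (l 16300168) (l 16284120)) (b (l 16282896) (l 16260808)))) (b (b (l 16331544) (l 16261008)) (a (b (l 16202216) (l 16263632)) (l 16209896)))) (b (b (a (b (b (a (c (l 16378552) (l 16334464)) (l 16404976)) (l 16350160)) (l 16323368)) (b (b (a (l 16422816) (l 16515408)) (l 16419920)) (l 16417856))) (a (b (l 16290720) (l 16258952)) (b (l 16339592) (l 16278488)))) (b (a (l 16229632) (l 16213144)) (l 16226528)))) (b (a (b (a (b (b (a (l 16837208) (c (l 17182960) (l 16833920))) (l 16667432)) (a (l 16708464) (l 16864528))) (b (a (b (l 17097152) (l 17055384)) (b (l 17141888) (l 17113560))) (a (l 16975944) (l 17049744)))) (a (b (l 16684992)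 (l 16596112)) (b (l 16918264) (l 16835840)))) (b (a (b (l 17198568) (l 17139528)) (b (l 17297368) (l 17240968))) (a (l 17033848) (l 17157952)))) (a (b (a (l 16498120) (l 16739376)) (a (l 16435008) (l 16666832))) (b (a (l 16918728) (l 17061280)) (l 16929960))))) (a (b (a (b (b (a (l 16348408) (l 16230072)) (l 160557476279)) (a (l 1) (l 340945810359))) (b (a (l 16225928) (l 16219920)) (a (l 16478640) (l 16370224)))) (a (l 1) (b (l 351683427655) (l 1)))) (b (a (b (l 16560864) (b (l 16612040) (l 16667568))) (b (l 16907712) (l 16925064))) (b (a (b (l 16732096) (l 16802760)) (l 16981168)) (l 295850387655))))), by decide +kernel⟩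

theorem s2_pm_022 : ∃ t, chk3 f_pm_022 t 1 1 1 = true := ex3_a k0_pm_022 k1_pm_022

theorem c_pm_022 : CertF 0 536870912 1073741824 536870912 335544320 67108864 true true false .pp 0 2 2
    ndF0q0 ndF4q2 pcF2 cut_pm_022 Ext.none :=
  certF2 (fam := true) (s1 := true) (s2 := false) (a := 0) (b := 2) (c := 2) (cn := .pp) (n1 := ndF0q0) (n2 := ndF4q2) (pc := pcF2) (cut := cut_pm_022) (xt := Ext.none) (P1 := 0) (W1 := 536870912) (P2 := 1073741824) (W2 := 536870912) (P3 := 335544320) (W3 := 67108864)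
    rfl (fun _ => rfl) s2_pm_022

noncomputable def cut_pm_023 : Cut := Cut.of [[⟨3, 0, 0, 1449551462⟩]]

noncomputable def f_pm_023 : ℕ → ℕ → ℕ → ℕ → Bool := onCell 0 536870912 1073741824 536870912 335544320 67108864
    (rowF 0 true true false .up 0 2 3 (qsf 0 536870912 1073741824 536870912 3) ndF0q0 ndF4q2 pcF3 cut_pm_023 Ext.none)

def k0_pm_023 : ∃ t, chk3 f_pm_023 t 1 1 1 = true :=
  ⟨(a (b (b (l 1) (a (l 1) (b (l 1) (l 301217717863)))) (b (a (b (l 1) (l 303901901831)) (b (l 339335794919) (l 325377870919))) (a (b (l 323766531223) (l 17143736)) (b (l 17242416) (l 17311544))))) (b (a (a (b (l 1) (l 358126886535)) (b (l 354368541175) (l 383360302727))) (b (a (b (l 392486940951) (l 387118035927)) (b (l 417183593703) (l 17477632))) (a (b (l 17361024) (l 17393656)) (l 17467016)))) (b (a (b (l 17291336) (l 17336064)) (a (l 17384976) (l 17381760))) (a (b (l 17342392) (l 17320336)) (a (l 17295760) (b (l 17284696) (b (l 17226840) (a (l 17205576) (b (l 17176632) (l 17154088)))))))))),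 by decide +kernel⟩

theorem c_pm_023 : CertF 0 536870912 1073741824 536870912 335544320 67108864 true true false .up 0 2 3
    ndF0q0 ndF4q2 pcF3 cut_pm_023 Ext.none :=
  certF0 (fam := true) (s1 := true) (s2 := false) (a := 0) (b := 2) (c := 3) (cn := .up) (n1 := ndF0q0) (n2 := ndF4q2) (pc := pcF3) (cut := cut_pm_023) (xt := Ext.none) (P1 := 0) (W1 := 536870912) (P2 := 1073741824) (W2 := 536870912) (P3 := 335544320) (W3 := 67108864)
    rfl k0_pm_023

end Pool.Agent.Strip051.G.I5_16_3_8.Tab.C.FA04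

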