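import Pool.Agent.Strip051.G.I5_16_3_8.StF

/-! # Unit strips 5 (generated) -/

set_option linter.all false
set_option maxRecDepth 100000

namespace Pool.Agent.Strip051.G.I5_16_3_8.Tab.St.C

open Pool.Agent.Strip051.PB Pool.Agent.Strip051.PB.T Pool.Agent.StripNear Pool.Agent.Strip051.LC
open Pool.Agent.Strip051.G.I5_16_3_8.Tab Pool.Agent.Strip051.G.I5_16_3_8.Tab.St

noncomputable def cut_B00pm_011_s3 : Cut := Cut.of [[⟨3, 0, 0, 2845415833⟩], [⟨0, 0, 0, 67108864⟩, ⟨1, 1, 0, 67108864⟩, ⟨2, 1, 0, 67108864⟩], [⟨0, 0, 1, 33554432⟩, ⟨1, 1, 2, 33554432⟩, ⟨2, 1, 0, 33554432⟩]]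

noncomputable def xt_B00pm_011_s3 : Ext := strExt dd false true false .u0 .u0m .s0m .pnn 0 1 1 rfl rfl gl1 vv ndF0q0 ndF0q1

noncomputable def f_B00pm_011_s3 : ℕ → ℕ → ℕ → ℕ → Bool := onCell 0 536870912 536870912 536870912 335544320 67108864
    (rowF 0 false true false .pnn 0 1 1 (qsf 0 536870912 536870912 536870912 1) ndF0q0 ndF0q1 pcF1 cut_B00pm_011_s3 xt_B00pm_011_s3)

def k0_B00pm_011_s3 : ∃ t, chk3 f_B00pm_011_s3 t 2 2 1 = true :=
  ⟨(l 4), by decide +kernel⟩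

def k1_B00pm_011_s3 : ∃ t, chk3 f_B00pm_011_s3 t 4 6 1 = true :=
  ⟨(l 4), by decide +kernel⟩

def k2_B00pm_011_s3 : ∃ t, chk3 f_B00pm_011_s3 t 4 14 1 = true :=
  ⟨(b (l 4) (a (l 4) (a (l 4) (a (l 4) (b (l 4) (b (l 4) (a (l 534040847) (l 534061327)))))))), by decide +kernel⟩

def k3_B00pm_011_s3 : ∃ t, chk3 f_B00pm_011_s3 t 4 30 1 = true :=
  ⟨(a (b (l 4) (b (l 4) (b (l 4) (a (l 4) (a (l 4) (a (l 4) (a (l 4) (b (l 4) (a (l 533916175) (l 533925391)))))))))) (a (a (b (l 4) (a (b (l 4) (b (a (l 4) (c (l 533921295) (l 533938703))) (a (c (a (l 533914127) (l 533922575)) (l 534202639)) (c (a (l 533930767) (l 533938447)) (l 533951503))))) (a (b (c (b (l 4) (l 533921807)) (l 533934095)) (c (b (l 533935631) (c (l 533932559) (l 533960719))) (b (l 533954063) (l 533967887)))) (b (c (l 534196495) (l 533947663)) (c (b (l 533948943) (l 533963279)) (b (l 533968911) (l 533983247))))))) (b (a (l 4) (b (l 4) (a (a (l 4) (l 533992719))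 (l 534006799)))) (a (a (b (c (l 533941775) (l 533962255)) (c (b (l 533961743) (l 533976591)) (l 533991439))) (b (c (l 533959183) (l 533980175)) (c (b (l 533973263) (l 533989135)) (l 534004751)))) (b (c (a (l 533979919) (l 534001679)) (a (l 534000911) (l 534022671))) (c (a (l 533996047) (l 534013199)) (a (l 534019599) (l 534037263))))))) (a (a (a (b (b (l 4) (l 534025231)) (b (c (l 534022159) (l 534043151)) (c (l 534034191) (l 534058255)))) (b (b (l 4) (l 534042639)) (b (l 534061071) (c (l 534055695) (l 534079759))))) (a (b (b (l 534036495) (l 534059023)) (b (l 534079503) (c (l 534076431) (l 534100495)))) (b (b (l 534050575) (l 534074639)) (b (l 534096911) (a (l 534112015) (l 534121487)))))) (a (b (b (c (l 534050575) (l 534069775)) (c (l 534076175) (l 534097167))) (c (b (l 534100239) (a (l 534114063) (l 534131215))) (b (l 534123023) (a (l 534138639) (l 534156559))))) (c (b (b (l 534073103) (l 534102031)) (b (l 534129167)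 (l 534154767))) (b (b (l 534094351) (l 534124559)) (b (l 534153487) (c (l 534180879) (l 534176527))))))))), by decide +kernel⟩

def k4_B00pm_011_s3 : ∃ t, chk3 f_B00pm_011_s3 t 8 62 1 = true :=
  ⟨(a (b (l 4) (l 14)) (a (a (b (l 4) (b (b (l 4) (l 14)) (l 14))) (a (b (l 4) (a (b (c (a (l 533776911) (l 533785615)) (l 533802767)) (l 14)) (b (c (a (l 533794063) (l 533802255)) (l 533818895)) (c (a (l 14) (l 533796879)) (l 533816079))))) (a (b (l 4) (b (c (a (l 533810447) (l 533818127)) (l 533834255)) (c (l 534077967) (l 533832975)))) (c (b (b (l 4) (l 533829391)) (b (l 533829135) (l 533826575))) (b (b (l 4) (l 533847311)) (b (l 533849359) (l 533849103))))))) (a (b (c (a (b (l 4) (a (l 533842703) (l 533855759))) (a (b (l 533863439) (l 533868303)) (b (l 533874447) (l 533880335)))) (a (b (l 4) (a (l 533860623) (l 533873423))) (a (b (l 533879567) (l 533885711)) (b (l 533890831) (l 533897743))))) (a (c (b (a (l 533843727) (l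 533858063)) (a (l 533842703) (l 533858063))) (a (b (l 533863439) (l 533864719)) (b (l 533877263) (l 533879567)))) (c (b (a (l 533871375) (l 533884431)) (a (l 533872911) (l 533886991))) (b (a (l 533890575) (l 533903375)) (a (l 533893903) (l 533907727)))))) (c (a (b (a (b (l 533885199) (l 533891855)) (b (l 533895695) (l 533902863))) (b (a (l 533896975) (l 533909007)) (a (l 533900559) (l 533913615)))) (b (b (a (l 533905423) (l 533915151)) (a (l 533913615) (l 533923855))) (b (a (l 533920527) (l 533931535)) (a (l 533925903) (l 533937935))))) (b (a (b (a (l 533901583) (l 533912079)) (a (l 533909263) (l 533920527))) (b (l 534194447) (a (l 533931279) (l 533941775)))) (a (a (a (l 533917199) (l 533923343)) (a (l 533929487) (l 533935631))) (c (b (l 533946127) (l 533953295)) (b (l 533936399) (l 534212367))))))))), by decide +kernel⟩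

def k5_B00pm_011_s3 : ∃ t, chk3 f_B00pm_011_s3 t 8 63 1 = true :=
  ⟨(a (l 14) (b (a (b (a (l 14) (a (l 14) (a (l 14) (c (l 533821199) (l 533846543))))) (l 14)) (b (c (a (a (a (l 533838863) (l 533856015)) (a (l 533872143) (l 533887503))) (a (a (l 533902351) (l 533916431)) (b (a (l 533928719) (l 16752952)) (b (l 16751544) (a (l 16750784) (l 16749256)))))) (b (a (a (a (l 533863439) (l 533879311)) (a (l 533894671) (l 16761184))) (a (l 534197007) (l 533955087))) (b (a (a (a (l 16760584) (l 16759200)) (l 16759760)) (a (l 16754416) (l 16751728))) (a (a (a (l 14) (l 16757768)) (l 16755720)) (a (l 16753016) (a (l 16750976) (l 16749440))))))) (a (a (a (l 14) (b (b (l 533874959) (l 14)) (l 14))) (b (a (b (l 533891855) (c (l 16755760) (l 16753312))) (c (b (l 16753440) (l 16751504)) (b (l 16753624) (l 16751664)))) (c (b (l 16750048) (l 16747688)) (l 16754136)))) (b (a (a (b (c (l 16754600) (l 16757408)) (l 16749952)) (b (c (l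 16750384) (l 16750560)) (l 16748184))) (c (b (l 16747840) (l 16745440)) (b (l 16747960) (l 16745464)))) (c (a (l 16745368) (l 16741824)) (a (l 16745312) (l 16741704))))))) (a (l 14) (a (a (l 14) (b (b (c (l 16744184) (l 16744000)) (l 14)) (l 14))) (b (c (b (a (l 16740632) (l 16737048)) (l 16734144)) (b (l 16743800) (l 16733640))) (b (c (l 16730152) (l 16729392)) (l 16728096))))))), by decide +kernel⟩

def k6_B00pm_011_s3 : ∃ t, chk3 f_B00pm_011_s3 t 18 62 1 = true :=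
  ⟨(a (a (c (c (a (b (b (l 534179855) (l 533921039)) (b (l 533929487) (l 534205455))) (b (b (l 533928975) (l 533939727)) (b (l 533949711) (l 533958671)))) (b (a (a (l 533942031) (l 533951503)) (b (l 533956879) (l 533968143))) (a (b (l 533958415) (l 533966351)) (b (l 533978383) (l 533987855))))) (b (a (b (l 533945359) (l 533955855)) (b (l 533963535) (l 533975311))) (b (a (l 534233871) (l 533986063)) (a (c (l 533976335) (l 533967375)) (c (l 533998095) (l 533989391)))))) (a (a (b (c (b (l 533958415) (l 533970447)) (l 533984783)) (c (b (l 533981455) (l 533991695)) (c (l 534010383) (l 534001679)))) (b (c (b (l 533966351) (l 533978639)) (l 533993487)) (c (b (l 533990415) (l 534001167)) (c (l 534019855) (l 534011407))))) (b (b (a (l 533993231) (l 534000911)) (c (l 533990159) (l 534010639))) (b (c (l 534002447) (l 534023695)) (c (l 534014479) (a (l 534031887) (l 534041359))))))) (b (a (c (a (b (l 533991183) (l 534005263))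 (b (l 534004495) (l 534019599))) (a (c (l 534022671) (l 534014991)) (c (l 534037263) (l 534030095)))) (c (a (b (l 534017039) (l 534032911)) (l 534038287)) (a (c (l 534051087) (l 534044687)) (l 534264847)))) (b (a (a (c (l 534018831) (l 534040847)) (c (l 534034191) (l 534057231))) (a (a (l 534066703) (l 534073615)) (a (l 534080783) (l 534087439)))) (a (c (a (b (l 16745616) (b (l 16743648) (c (l 16741952) (l 16742312)))) (b (l 16742968) (b (l 16740936) (l 16738872)))) (c (b (l 16749816) (a (l 16748424) (l 16750600))) (a (b (l 16745792) (b (l 16743840) (l 16747584))) (b (l 16743176) (b (l 16741152) (l 16739040)))))) (c (b (a (c (l 16740104) (l 16740504)) (b (l 16738344) (l 16736592))) (a (l 16741712) (l 16732912))) (b (a (c (l 16740664) (l 16745816)) (b (l 16738696) (l 16736928))) (c (l 16745376) (a (l 16747120) (l 16733024))))))))), by decide +kernel⟩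

def k7_B00pm_011_s3 : ∃ t, chk3 f_B00pm_011_s3 t 19 62 1 = true :=
  ⟨(b (a (a (c (a (l 534051855) (l 534069007)) (c (a (l 534078479) (l 534096143)) (a (l 534073615) (l 534091535)))) (a (c (l 534089999) (l 534117135)) (c (l 534111759) (l 534138895)))) (c (a (a (l 534132239) (l 534151695)) (b (l 534171407) (b (l 16729000) (a (l 16727736) (l 16724944))))) (b (a (l 534162447) (l 534199055)) (a (c (l 16733064) (l 534168591)) (b (l 16729504) (c (l 16726760) (a (l 16728168) (l 16725376)))))))) (a (b (c (a (a (l 534074127) (b (l 16737472) (l 16734888))) (b (a (l 16734896) (l 16732472)) (c (l 16740296) (l 16740784)))) (a (a (l 534101007) (b (l 16737880) (a (l 16736048) (l 16739872)))) (a (b (l 16735344) (b (l 16733376) (l 16731272))) (b (l 16732944) (l 16739480))))) (a (c (b (a (l 16739416) (l 16730680)) (l 16727368)) (b (a (b (l 16741024) (l 16733424)) (l 16731000)) (l 16727520))) (c (b (l 16725200) (l 16719896)) (b (l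 16725456) (l 16719976))))) (b (c (a (b (c (l 16738416) (l 16728464)) (l 16723736)) (b (l 16722144) (l 16717408))) (a (b (c (l 16739176) (b (a (l 16731120) (l 16728464)) (l 16738208))) (l 16724024)) (b (l 16732968) (l 16717480)))) (c (a (l 16715888) (l 16709904)) (a (l 16715872) (l 16709616)))))), by decide +kernel⟩

def k8_B00pm_011_s3 : ∃ t, chk3 f_B00pm_011_s3 t 9 63 1 = true :=
  ⟨(a (b (a (c (b (a (a (b (l 533958415) (a (b (l 16749536) (l 16747616)) (b (l 16748088) (l 16745904)))) (a (b (l 16748928) (b (l 16746496) (l 16744128))) (b (b (l 16748272) (l 16746888)) (l 16743568)))) (b (a (b (l 16746288) (c (l 16744312) (l 16744616))) (b (c (l 16743144) (l 16743480)) (l 16741080))) (a (l 16740912) (l 16737320)))) (a (b (a (l 16743112) (l 16739544)) (l 16741704)) (b (l 16739384) (l 16729200)))) (b (a (b (a (l 533979663) (a (l 16749128) (b (l 16748480) (l 16747104)))) (a (b (a (l 16749744) (l 16748288)) (l 16746880))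 (c (l 16749792) (b (l 16745720) (l 16743240))))) (b (c (a (b (l 16746536) (l 16744720)) (l 16747600)) (b (a (l 16746448) (l 16748744)) (a (l 16749864) (l 16741152)))) (a (l 16740992) (l 16737344)))) (a (b (a (l 16743120) (l 16739496)) (l 16736240)) (b (l 16734008) (l 16728864))))) (b (a (b (a (c (l 16743952) (l 16749352)) (a (l 16736192) (l 16734352))) (c (l 16737112) (l 16731816))) (c (b (l 16729616) (l 16724504)) (b (l 16729664) (l 16724360)))) (a (b (a (l 16728640) (l 16724928)) (l 16726912)) (b (l 16719320) (l 16714144))))) (b (a (a (b (c (l 16731616) (l 16731200)) (l 16731792)) (b (l 16729312) (l 16719080))) (c (b (l 16723592) (l 16729512)) (a (l 16734704) (l 16706248)))) (a (b (a (l 16733344) (l 16716056)) (l 16723632)) (b (l 16706128) (l 16705616))))) (b (b (a (c (a (b (l 16722192) (l 16717024)) (l 16712040)) (a (l 16719472) (l 16711832))) (a (a (l 16706480) (l 16703352)) (l 16699136))) (a (c (a (l 16709328)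 (l 16701664)) (a (l 16708808) (l 16701072))) (a (l 16714816) (l 16687824)))) (a (b (a (a (l 16701080) (l 16697360)) (l 16712848)) (l 16698296)) (b (a (l 16705464) (l 16699256)) (l 16685784))))), by decide +kernel⟩

def k9_B00pm_011_s3 : ∃ t, chk3 f_B00pm_011_s3 t 5 6 1 = true :=
  ⟨(a (l 4) (b (l 4) (b (l 4) (a (a (l 4) (b (l 4) (a (l 4) (l 534271247)))) (a (b (l 4) (l 534042127)) (b (a (l 534958863) (l 535343119)) (a (l 534223631) (l 534660879)))))))), by decide +kernel⟩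

def k10_B00pm_011_s3 : ∃ t, chk3 f_B00pm_011_s3 t 5 14 1 = true :=
  ⟨(a (a (b (l 4) (a (b (l 4) (a (c (l 534045711) (l 534067215)) (c (l 534058511) (l 534082319)))) (b (a (c (l 533990927) (l 534015759)) (l 534015247)) (c (a (l 534068495) (l 534075663)) (a (l 534095119) (l 534105359)))))) (b (b (l 4) (a (a (l 4) (l 533921551)) (l 534444303))) (b (a (a (l 534016271) (l 534014991)) (a (l 534011151) (l 534004495))) (a (a (l 534238479) (l 534107407)) (a (l 534107919) (l 534105871)))))) (b (a (a (b (l 533772047) (l 533881103)) (b (a (l 533739279) (l 534515727)) (l 534111759))) (c (a (b (b (l 533997327) (l 533622543)) (l 534001167)) (b (b (l 534967055) (l 534575119)) (l 533945359))) (a (b (l 534471183) (l 533807887)) (b (l 534082063) (l 533701647))))) (a (b (a (l 534660879) (a (l 533969167) (l 533951759))) (a (a (l 534101263) (l 534093839)) (a (l 534083599) (l 534070799)))) (b (a (b (l 533876239) (l 534478095)) (b (l 534046223)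 (l 534121743))) (a (b (a (l 534019343) (l 533989135)) (a (l 534081295) (l 534054927))) (b (c (l 16714512) (l 16717048)) (c (l 533947919) (l 534037007)))))))), by decide +kernel⟩

def k11_B00pm_011_s3 : ∃ t, chk3 f_B00pm_011_s3 t 10 30 1 = true :=
  ⟨(a (a (c (b (a (b (l 534092559) (l 534124303)) (l 534129167)) (a (b (l 534154767) (l 534183695)) (b (l 534177039) (l 534209295)))) (b (a (b (l 534115855) (l 534148879)) (b (l 534134543) (l 534170383))) (a (b (l 534180623) (c (l 534210831) (l 534207503))) (b (l 534204943) (c (l 534237455) (l 534235151)))))) (b (a (b (l 534145295) (a (l 534179087) (l 534187023))) (b (l 534157583) (l 534465807))) (c (a (b (l 534196239) (l 534231567)) (b (l 534212367) (l 534250255))) (a (b (l 534226191) (c (l 534261263) (l 534259983))) (b (l 534244879) (c (l 16720544) (l 534281999))))))) (b (c (a (a (l 534165519) (l 534171919)) (a (l 534175247) (l 534176015))) (a (a (l 534468111) (l 534209551))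 (a (l 534216463) (l 534221071)))) (a (b (c (l 534498319) (a (l 534260751) (l 534274319))) (b (c (l 16719736) (a (l 16717840) (l 16712904))) (c (a (l 16712784) (l 16717648)) (a (c (l 16724048) (b (l 16714600) (l 16722784))) (b (c (l 16709712) (l 16709776)) (l 16716968)))))) (b (c (l 534245135) (a (l 534285071) (l 16709024))) (c (b (a (l 16707016) (l 16701656)) (a (l 16701416) (l 16696312))) (b (a (c (l 16708008) (l 16708128)) (b (l 16704000) (l 16701472))) (a (b (l 16704064) (l 16700752)) (l 16696752)))))))), by decide +kernel⟩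

def k12_B00pm_011_s3 : ∃ t, chk3 f_B00pm_011_s3 t 10 31 1 = true :=
  ⟨(b (a (c (b (a (b (a (l 16727744) (a (l 16724096) (l 16721776))) (a (b (l 16734608) (l 16720360)) (b (l 16718392) (l 16714432)))) (b (a (b (l 16719240) (l 16716264)) (b (l 16713968) (l 16710584))) (a (l 16710592) (l 16704832)))) (b (a (a (l 16713736) (l 16707888)) (l 16710048)) (a (a (l 16704224) (l 16698784)) (l 16691024)))) (b (a (b (a (l 534232079) (c (l 16723592) (a (l 16724632) (l 16732816)))) (a (b (c (l 16724664) (b (l 16725312) (l 16734392))) (c (l 16720800) (l 16731160))) (a (b (l 16720520) (l 16716160)) (l 16715200)))) (b (a (b (l 16719944) (a (l 16718448) (l 16715488))) (b (a (l 16716208) (l 16713328)) (l 16711000))) (a (l 16710680) (l 16704624)))) (b (a (a (l 16713680) (l 16707552)) (l 16698736)) (a (l 16700704) (l 16689480))))) (a (b (c (b (a (l 16706368) (l 16700840)) (l 16696512)) (b (a (l 16717232) (l 16700904)) (l 16695824)))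 (b (a (l 16691040) (l 16685704)) (l 16690592))) (b (c (a (l 16692096) (l 16687240)) (b (l 16713408) (l 16684840))) (c (a (l 16677848) (l 16673528)) (b (l 16676904) (l 16668672)))))) (b (b (a (a (c (l 16691688) (l 16690376)) (c (l 16682080) (l 16679864))) (a (l 16692480) (c (l 16664376) (l 16660192)))) (a (a (c (l 16681352) (l 16679584)) (c (l 16672672) (l 16669840))) (a (l 16684000) (c (l 16657664) (l 16652528))))) (a (a (b (c (l 16673760) (l 16671424)) (l 16672224)) (b (c (l 16667768) (l 16664144)) (c (l 16669600) (l 16664680)))) (a (b (l 16660408) (c (l 16665768) (l 16659400))) (b (l 16655200) (c (l 16662392) (l 16654584))))))), by decide +kernel⟩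

def k13_B00pm_011_s3 : ∃ t, chk3 f_B00pm_011_s3 t 11 30 1 = true :=
  ⟨(b (c (a (a (a (l 534173967) (l 534169103)) (a (l 534161423) (l 534150671))) (a (a (l 534134543) (l 534109967)) (b (b (l 16700512) (l 534574095)) (a (b (l 16675560) (l 16672296)) (b (l 16668088) (b (l 16665648) (l 16663768))))))) (a (a (a (l 534222863) (l 534222095)) (a (l 534218767) (l 534212879))) (a (a (l 534202127) (l 534184207)) (b (c (l 534091279) (l 534120719)) (b (l 534159375) (a (l 16675336) (b (l 16669232) (l 16667072)))))))) (a (b (a (a (a (l 534280975) (l 534281999)) (b (l 16699920) (c (l 16695240) (l 16696824)))) (b (a (l 16694392) (c (l 16687688) (l 16689752))) (c (a (l 16689304) (l 16683336)) (a (l 16701472) (l 16684960))))) (a (c (b (a (l 16695792) (l 16690360)) (l 16688496)) (b (a (b (l 16698680) (l 16695872)) (l 16691352)) (l 16688408))) (c (a (l 16683256) (l 16678280)) (b (l 16683216) (l 16677808))))) (a (b (b (a (c (l 16681744)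 (l 16683992)) (c (l 16675032) (l 16677416))) (c (l 16675456) (l 16676632))) (c (a (l 16673320) (l 16668256)) (b (l 16672168) (l 16667448)))) (b (a (c (b (l 16668696) (l 16666824)) (b (l 16671032) (l 16667616))) (c (b (l 16662896) (l 16661064)) (l 16663384))) (a (c (l 16662968) (l 16661528)) (c (b (l 16658848) (l 16656368)) (l 16655960))))))), by decide +kernel⟩

def k14_B00pm_011_s3 : ∃ t, chk3 f_B00pm_011_s3 t 11 31 1 = true :=
  ⟨(b (a (b (a (c (l 16680424) (b (l 16681960) (l 16675136))) (c (l 16671896) (l 16669136))) (a (c (l 16668112) (l 16664168)) (c (l 16666744) (l 16656352)))) (a (b (c (a (l 16665672) (l 16661424)) (l 16659872)) (c (a (l 16656664) (l 16653320)) (l 16648688))) (b (a (c (l 16657000) (l 16652656)) (c (l 16652248) (l 16647560))) (c (a (l 16649792) (l 16646024)) (l 16640584))))) (c (a (b (a (b (l 16657600) (b (l 16652240) (l 16650984))) (b (l 16652584) (b (l 16648600) (l 16649816)))) (a (b (l 16654864)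 (a (l 16660112) (l 16659200))) (b (l 16654200) (a (l 16659480) (l 16660088))))) (b (b (a (l 16647632) (a (l 16643760) (l 16641120))) (a (a (l 16647096) (l 16646112)) (a (l 16645256) (l 16644360)))) (a (b (c (l 16656920) (l 16651320)) (b (c (l 16662424) (l 16656216)) (a (l 16662312) (l 6)))) (a (b (l 16653776) (l 6)) (l 6))))) (a (b (a (b (l 16652192) (l 16645528)) (b (l 16645760) (l 16640992))) (a (b (l 16647064) (l 16650416)) (b (l 16644680) (a (l 16648904) (l 16648584))))) (b (b (a (l 16639424) (l 16633208)) (a (l 16658112) (l 16633680))) (a (b (l 16642896) (a (l 16648312) (l 16648016))) (b (l 16640848) (l 6))))))), by decide +kernel⟩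

def k15_B00pm_011_s3 : ∃ t, chk3 f_B00pm_011_s3 t 3 2 1 = true :=
  ⟨(a (b (l 1) (l 4)) (l 1)), by decide +kernel⟩

def k16_B00pm_011_s3 : ∃ t, chk3 f_B00pm_011_s3 t 6 12 1 = true :=
  ⟨(a (a (l 4) (b (l 4) (b (l 4) (a (l 4) (c (l 539192079) (l 537697807)))))) (a (a (b (l 1) (b (l 1) (l 537348879))) (l 1)) (l 1))), by decide +kernel⟩

def k17_B00pm_011_s3 : ∃ t, chk3 f_B00pm_011_s3 t 12 13 1 = true :=
  ⟨(b (a (b (l 4) (b (a (l 4) (a (c (l 537825039) (l 536050959)) (c (a (l 537983247) (b (l 538132495) (l 538027279))) (a (l 536246799) (b (l 536427023) (l 536311311)))))) (a (l 536012047) (a (l 536689679) (a (l 536875023) (c (l 537859343) (l 536129807))))))) (c (b (a (l 538590991) (l 538880271)) (a (b (a (l 537683727) (l 538393871)) (a (a (l 537961999) (l 538059023)) (l 538197519))) (b (l 538628111) (l 538447375)))) (b (a (l 536974863) (l 537352463)) (a (b (a (b (l 536604431) (l 536493071)) (l 536772111)) (a (a (l 536258575)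 (l 536381455)) (l 536557327))) (b (l 537074447) (l 536877327)))))) (a (a (b (a (l 535693071) (l 536012047)) (a (l 535057935) (l 535418639))) (b (a (l 535766287) (c (l 537459215) (l 535687695))) (a (l 535478799) (c (l 536958223) (l 535143951))))) (c (b (a (a (b (l 537791247) (l 537563151)) (b (l 537988879) (l 537772047))) (b (l 538255631) (l 537786895))) (a (a (l 537204495) (l 537432079)) (a (l 537641743) (l 537297679)))) (b (a (a (b (l 536082703) (l 535835919)) (b (l 536331535) (l 536097551))) (b (l 536670735) (a (l 536340495) (l 536564751)))) (a (a (l 535448335) (l 535730959)) (a (l 535724559) (b (l 536346895) (l 536121615)))))))), by decide +kernel⟩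

def k18_B00pm_011_s3 : ∃ t, chk3 f_B00pm_011_s3 t 13 13 1 = true :=
  ⟨(b (a (b (a (c (l 539123471) (l 537673743)) (c (l 539328783) (l 537947663))) (a (c (b (l 538895375) (l 538732559)) (b (l 537423631) (l 537246991))) (c (l 539047695) (b (l 537721359) (l 537561871))))) (b (l 1) (a (c (l 539244559) (b (l 1) (l 537830927))) (l 1)))) (a (b (a (c (b (l 538560015) (l 538379535)) (b (l 537061647) (l 536868623))) (c (l 538735119) (b (l 537394447) (l 537220111)))) (a (c (b (l 538191887) (l 537996815)) (b (l 536667919) (a (l 536351503) (l 536563727)))) (c (b (l 538481679) (l 538304527)) (b (l 537039119) (l 536851727))))) (b (a (c (l 538958607) (b (l 537678863) (l 537520143))) (c (l 539148303) (b (l 1) (l 537777679)))) (a (c (l 538377999) (b (l 537355791) (l 537185551))) (c (l 538860815) (b (l 537627151) (l 537471247))))))), by decide +kernel⟩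

def k19_B00pm_011_s3 : ∃ t, chk3 f_B00pm_011_s3 t 7 6 1 = true :=
  ⟨(a (b (l 1) (b (l 1) (a (b (l 1) (a (c (l 539043343) (b (l 1) (l 16793144))) (l 1))) (l 1)))) (l 1)), by decide +kernel⟩

def k20_B00pm_011_s3 : ∃ t, chk3 f_B00pm_011_s3 t 12 14 1 = true :=
  ⟨(a (b (b (a (c (a (l 535404047) (l 535774223)) (l 533820175)) (a (c (l 536109839) (l 534180623)) (c (l 536414223) (l 534553103)))) (a (a (l 534123535) (c (l 535095055) (l 533524495))) (c (a (l 535478543) (l 535825423)) (a (l 533490447) (l 533911567))))) (b (a (c (l 534103567) (l 533739279)) (c (a (l 534782991) (l 535180303)) (l 533859855))) (a (b (l 534351119) (c (l 16689952) (l 16693960))) (c (a (l 534009871) (l 534467343)) (l 534048015))))) (b (c (a (b (a (l 536692239) (b (l 537071887) (l 16775992))) (a (l 536140815) (l 536430095))) (b (b (c (l 537826575) (l 536992015)) (c (l 537601551) (l 536757775))) (a (a (l 536631055) (l 536758031)) (c (l 537361935)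 (l 536517903))))) (a (b (a (l 534894351) (b (l 535343119) (l 16742608))) (a (l 534564367) (l 535186447))) (b (a (b (l 535626767) (l 16746952)) (b (l 535888911) (l 16741376))) (a (a (l 534896143) (l 535052303)) (a (l 535202063) (l 535345679)))))) (b (a (c (a (l 535540239) (l 535868687)) (a (l 533645327) (l 534580751))) (a (c (l 536168975) (l 535214607)) (b (c (l 16765424) (l 16699144)) (c (l 16753440) (l 16680624))))) (a (c (b (l 535773711) (l 535440655)) (b (l 533574159) (l 16635968))) (a (c (l 535865871) (l 533797903)) (b (c (l 16739168) (l 16659584)) (c (l 16722408) (l 16635824)))))))), by decide +kernel⟩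

def k21_B00pm_011_s3 : ∃ t, chk3 f_B00pm_011_s3 t 13 28 1 = true :=
  ⟨(a (c (b (a (b (c (l 538189327) (l 537403151)) (l 537050895)) (b (l 538121743) (l 537665039))) (a (b (b (l 537428495) (l 537320463)) (c (l 16804208) (l 536751887))) (b (a (l 16807808) (l 16816448)) (a (l 16801800) (l 16810984))))) (b (a (b (a (l 536130831) (l 536354319)) (c (l 536410383) (l 535640335))) (b (c (l 537019663) (l 536299535)) (c (l 536823055) (l 536097807)))) (a (a (a (l 535483663) (l 535616015)) (c (l 536190479) (l 535422735))) (b (a (l 16748928) (l 16756040)) (a (l 16737368) (l 16745200)))))) (c (b (a (a (l 538245391) (l 538375951)) (b (l 16851824) (l 16850344))) (a (b (l 538049807) (a (l 16820288) (l 16829680))) (b (l 16805784) (l 537877519)))) (b (b (a (l 536472847) (l 537042191)) (a (a (l 16772040) (l 16778992)) (a (l 16786128) (l 16793416)))) (a (b (a (l 16763376) (l 16770880)) (a (l 16753192) (l 16761312))) (b (a (l 16778520)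 (l 16786288)) (a (l 16769536) (l 16777840))))))), by decide +kernel⟩

def k22_B00pm_011_s3 : ∃ t, chk3 f_B00pm_011_s3 t 13 29 1 = true :=
  ⟨(c (b (a (a (b (a (l 16774856) (l 16784456)) (a (l 16763816) (l 16774288))) (b (a (l 16794176) (l 16803992)) (a (l 16784816) (l 16795368)))) (a (b (a (l 16813880) (l 16823816)) (a (l 16805928) (l 16816480))) (b (c (l 16858072) (l 16819672)) (c (l 16852912) (l 16811856))))) (a (b (a (a (l 16750648) (l 16762128)) (a (l 16773576) (l 16784976))) (a (b (l 16745448) (a (l 16731288) (b (l 16746040) (l 16742624)))) (b (a (l 16763832) (b (l 16777520) (a (l 16771536) (l 16777872)))) (a (b (a (l 16755712) (l 16762328)) (l 16757440)) (a (l 16768952) (l 6)))))) (a (b (a (l 16796312) (b (l 16809944) (a (l 16802224) (l 6)))) (b (a (b (a (l 16786584) (l 6)) (l 6)) (l 6)) (l 6))) (l 6)))) (b (a (a (b (a (l 16707224) (l 16715528)) (a (l 16689872) (l 16699264))) (b (a (l 16724024) (l 16732664))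 (a (l 16708760) (l 16718320)))) (a (b (a (l 16741408) (l 16750224)) (a (l 16727920) (l 16737528))) (b (a (l 16759096) (l 16768000)) (a (l 16747128) (l 16756696))))) (a (b (a (a (l 16670176) (l 16680816)) (a (l 16691456) (l 16702064))) (b (a (l 16701560) (a (l 16677032) (b (l 16690864) (a (l 16683544) (l 16731528))))) (a (a (l 16642432) (b (l 16657456) (l 16736208))) (a (b (l 16711896) (l 16666744)) (a (l 16678712) (l 6)))))) (a (b (a (l 16712624) (b (l 16726880) (a (l 16716560) (l 6)))) (b (a (b (a (l 16699472) (l 6)) (l 6)) (l 6)) (l 6))) (l 6))))), by decide +kernel⟩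

def k23_B00pm_011_s3 : ∃ t, chk3 f_B00pm_011_s3 t 12 30 1 = true :=
  ⟨(a (b (b (a (c (l 534184207) (l 534025487)) (a (l 534423823) (c (l 16655032) (l 16644720)))) (a (c (b (a (l 16660328) (l 16673152)) (a (b (l 16678664) (l 16657360)) (l 16650656))) (b (a (l 16664464) (l 16656880)) (a (b (l 16661664) (l 16660568)) (l 16654216)))) (b (c (a (l 16664072) (l 16634584)) (a (l 16648328) (l 16640128))) (c (a (l 16643632) (l 16636448)) (l 16643552))))) (a (b (c (a (b (l 16656648) (l 16655304)) (b (l 16650304) (l 16649496))) (a (b (l 16658592) (l 16655624)) (l 16650920))) (c (a (b (l 16653544) (l 16651400)) (b (l 16648248) (l 16646568))) (a (l 16650528) (l 16650368)))) (a (b (c (c (l 16643312) (l 16644192)) (l 16644592)) (c (b (l 16642904) (l 16641752)) (l 16639752))) (b (c (l 16648024) (l 16638184)) (c (b (l 16637496) (l 16636896)) (l 16634344)))))) (b (b (a (b (c (l 16714808) (l 16631168)) (a (c (b (l 16655848) (l 16649336))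 (l 16633296)) (c (l 16626832) (l 16623640)))) (b (a (c (l 16694624) (l 16615880)) (c (b (l 16710976) (l 16707016)) (l 16616928))) (c (a (l 16685968) (l 16702872)) (l 16611528)))) (c (a (c (a (l 16662416) (l 16681640)) (l 16646864)) (a (l 16695448) (b (l 16696568) (l 16689600)))) (a (a (l 16632816) (l 16625360)) (a (l 16618000) (l 16610768))))) (a (b (c (a (l 16641728) (l 16634272)) (a (l 16631768) (l 16625480))) (c (a (b (l 16632104) (l 16632088)) (b (l 16626896) (l 6))) (a (l 16628968) (l 16623776)))) (b (c (a (c (l 16684800) (l 16627896)) (b (l 16681888) (l 6))) (a (l 16619344) (l 16613376))) (l 6))))), by decide +kernel⟩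

def k24_B00pm_011_s3 : ∃ t, chk3 f_B00pm_011_s3 t 12 31 1 = true :=
  ⟨(b (a (a (b (c (a (b (l 16648880) (l 16646192)) (b (l 16644480) (l 16642040))) (a (l 16642592) (l 16637928))) (c (a (b (l 16643328) (l 16640408)) (b (l 16639224) (l 16636320))) (a (l 16633840) (b (l 16631576) (l 16627208))))) (b (c (a (b (l 16640168) (l 16638160)) (b (l 16635848) (l 6))) (a (b (l 16635096) (l 16631536)) (b (l 16630400) (l 6)))) (l 6))) (l 6)) (a (b (a (b (a (c (c (l 16640656) (l 16635552)) (l 16627816)) (l 6)) (l 6)) (l 6)) (l 6)) (l 6))), by decide +kernel⟩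

def k25_B00pm_011_s3 : ∃ t, chk3 f_B00pm_011_s3 t 13 15 1 = true :=
  ⟨(b (a (b (a (a (b (b (c (a (l 16720152) (l 16728176)) (l 16715376)) (c (l 16719624) (l 16623392))) (c (b (l 16714408) (l 16708608)) (l 16609336))) (b (c (b (l 16739960) (l 16736184)) (b (l 16647152) (l 16639832))) (l 6))) (a (b (b (c (l 16755456) (l 16662384)) (l 6)) (l 6)) (l 6))) (l 6)) (l 6)) (l 6)), by decide +kernel⟩

def k26_B00pm_011_s3 : ∃ t, chk3 f_B00pm_011_s3 t 7 7 1 = true :=
  ⟨(b (b (a (a (c (b (a (b (l 16868976) (l 16868064)) (l 538934031)) (a (b (l 16866104) (l 16863016)) (c (l 16902288) (l 16865136)))) (b (a (b (l 537569295) (l 536880911)) (b (l 1) (l 16777936))) (a (b (a (l 16794152) (l 16802104)) (a (l 16786200) (l 16794608))) (b (a (l 16810120) (l 16818200)) (a (l 16803056) (l 6)))))) (b (l 1) (l 6))) (l 1)) (b (b (a (a (a (c (l 16816800) (a (l 16776920) (l 6))) (l 6)) (l 6)) (l 1)) (l 6)) (l 6))) (l 6)), by decide +kernel⟩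

theorem t27_B00pm_011_s3 : ∃ t, chk3 f_B00pm_011_s3 t 12 15 1 = true := ex3_b k23_B00pm_011_s3 k24_B00pm_011_s3

theorem t28_B00pm_011_s3 : ∃ t, chk3 f_B00pm_011_s3 t 6 15 1 = true := ex3_a t27_B00pm_011_s3 k25_B00pm_011_s3

theorem t29_B00pm_011_s3 : ∃ t, chk3 f_B00pm_011_s3 t 13 14 1 = true := ex3_b k21_B00pm_011_s3 k22_B00pm_011_s3

theorem t30_B00pm_011_s3 : ∃ t, chk3 f_B00pm_011_s3 t 6 14 1 = true := ex3_a k20_B00pm_011_s3 t29_B00pm_011_s3

theorem t31_B00pm_011_s3 : ∃ t, chk3 f_B00pm_011_s3 t 6 7 1 = true := ex3_b t30_B00pm_011_s3 t28_B00pm_011_s3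

theorem t32_B00pm_011_s3 : ∃ t, chk3 f_B00pm_011_s3 t 3 7 1 = true := ex3_a t31_B00pm_011_s3 k26_B00pm_011_s3

theorem t33_B00pm_011_s3 : ∃ t, chk3 f_B00pm_011_s3 t 6 13 1 = true := ex3_a k17_B00pm_011_s3 k18_B00pm_011_s3

theorem t34_B00pm_011_s3 : ∃ t, chk3 f_B00pm_011_s3 t 6 6 1 = true := ex3_b k16_B00pm_011_s3 t33_B00pm_011_s3

theorem t35_B00pm_011_s3 : ∃ t, chk3 f_B00pm_011_s3 t 3 6 1 = true := ex3_a t34_B00pm_011_s3 k19_B00pm_011_s3

theorem t36_B00pm_011_s3 : ∃ t, chk3 f_B00pm_011_s3 t 3 3 1 = true := ex3_b t35_B00pm_011_s3 t32_B00pm_011_s3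

theorem t37_B00pm_011_s3 : ∃ t, chk3 f_B00pm_011_s3 t 3 1 1 = true := ex3_b k15_B00pm_011_s3 t36_B00pm_011_s3

theorem t38_B00pm_011_s3 : ∃ t, chk3 f_B00pm_011_s3 t 11 15 1 = true := ex3_b k13_B00pm_011_s3 k14_B00pm_011_s3

theorem t39_B00pm_011_s3 : ∃ t, chk3 f_B00pm_011_s3 t 10 15 1 = true := ex3_b k11_B00pm_011_s3 k12_B00pm_011_s3

theorem t40_B00pm_011_s3 : ∃ t, chk3 f_B00pm_011_s3 t 5 15 1 = true := ex3_a t39_B00pm_011_s3 t38_B00pm_011_s3

theorem t41_B00pm_011_s3 : ∃ t, chk3 f_B00pm_011_s3 t 5 7 1 = true := ex3_b k10_B00pm_011_s3 t40_B00pm_011_s3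

theorem t42_B00pm_011_s3 : ∃ t, chk3 f_B00pm_011_s3 t 5 3 1 = true := ex3_b k9_B00pm_011_s3 t41_B00pm_011_s3

theorem t43_B00pm_011_s3 : ∃ t, chk3 f_B00pm_011_s3 t 9 62 1 = true := ex3_a k6_B00pm_011_s3 k7_B00pm_011_s3

theorem t44_B00pm_011_s3 : ∃ t, chk3 f_B00pm_011_s3 t 9 31 1 = true := ex3_b t43_B00pm_011_s3 k8_B00pm_011_s3

theorem t45_B00pm_011_s3 : ∃ t, chk3 f_B00pm_011_s3 t 8 31 1 = true := ex3_b k4_B00pm_011_s3 k5_B00pm_011_s3

theorem t46_B00pm_011_s3 : ∃ t, chk3 f_B00pm_011_s3 t 4 31 1 = true := ex3_a t45_B00pm_011_s3 t44_B00pm_011_s3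

theorem t47_B00pm_011_s3 : ∃ t, chk3 f_B00pm_011_s3 t 4 15 1 = true := ex3_b k3_B00pm_011_s3 t46_B00pm_011_s3

theorem t48_B00pm_011_s3 : ∃ t, chk3 f_B00pm_011_s3 t 4 7 1 = true := ex3_b k2_B00pm_011_s3 t47_B00pm_011_s3

theorem t49_B00pm_011_s3 : ∃ t, chk3 f_B00pm_011_s3 t 4 3 1 = true := ex3_b k1_B00pm_011_s3 t48_B00pm_011_s3

theorem t50_B00pm_011_s3 : ∃ t, chk3 f_B00pm_011_s3 t 2 3 1 = true := ex3_a t49_B00pm_011_s3 t42_B00pm_011_s3

theorem t51_B00pm_011_s3 : ∃ t, chk3 f_B00pm_011_s3 t 2 1 1 = true := ex3_b k0_B00pm_011_s3 t50_B00pm_011_s3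

theorem t52_B00pm_011_s3 : ∃ t, chk3 f_B00pm_011_s3 t 1 1 1 = true := ex3_a t51_B00pm_011_s3 t37_B00pm_011_s3

theorem c_B00pm_011_s3 : CertF 0 536870912 536870912 536870912 335544320 67108864 false true false .pnn 0 1 1
    ndF0q0 ndF0q1 pcF1 cut_B00pm_011_s3 xt_B00pm_011_s3 :=
  certF0 (fam := false) (s1 := true) (s2 := false) (a := 0) (b := 1) (c := 1) (cn := .pnn) (n1 := ndF0q0) (n2 := ndF0q1) (pc := pcF1) (cut := cut_B00pm_011_s3) (xt := xt_B00pm_011_s3) (P1 := 0) (W1 := 536870912) (P2 := 536870912) (W2 := 536870912) (P3 := 335544320) (W3 := 67108864)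
    rfl t52_B00pm_011_s3

theorem s_B00pm_011_s3 {κ x : ℝ} (hκ : κ * h0 = ken x) (hx : ((335544320 : ℕ) : ℝ) / S ≤ x)
    (hx' : x ≤ (((335544320 : ℕ) : ℝ) + (67108864 : ℕ)) / S)
    (H : CutB (VF κ) PP tKF tL pcF (Cut.of [[⟨0, 0, 0, 67108864⟩, ⟨1, 1, 0, 67108864⟩, ⟨2, 1, 0, 67108864⟩], [⟨0, 0, 1, 33554432⟩, ⟨1, 1, 2, 33554432⟩, ⟨2, 1, 0, 33554432⟩]]) 0 1 1 0 0 (sgb true) (sgb false) x) :
    AltB (VF κ) PP tKF tL pcF [⟨4, 0, 0, 2845415833⟩] 0 1 1 0 0 (sgb true) (sgb false) x :=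
  strip_altB (m := 2845415833) false rfl hκ covF00 covF01 hx hx' c_B00pm_011_s3 H ((okx hx hx').extB (T := tt) (sideF hx hx') hκ rfl rfl (.O 0 true) (.O 1 false) (Or.inr rfl))

noncomputable def cut_B00pm_012_s1 : Cut := Cut.of [[⟨4, 0, 0, 1449551462⟩], [⟨0, 0, 0, 67108864⟩, ⟨1, 1, 0, 67108864⟩, ⟨2, 1, 0, 67108864⟩], [⟨0, 0, 1, 33554432⟩, ⟨1, 1, 2, 33554432⟩, ⟨2, 1, 0, 33554432⟩]]

noncomputable def f_B00pm_012_s1 : ℕ → ℕ → ℕ → ℕ → Bool := onCell 0 536870912 0 536870912 335544320 67108864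
    (rowF 0 false true false .pnp 0 1 2 (qsf 0 536870912 0 536870912 1) ndF0q0 ndF0q2 pcF1 cut_B00pm_012_s1 Ext.none)

def k0_B00pm_012_s1 : ∃ t, chk3 f_B00pm_012_s1 t 1 1 1 = true :=
  ⟨(a (l 6) (b (a (b (a (l 6) (b (a (l 6) (l 16887960)) (l 6))) (l 6)) (b (b (a (a (l 16903448) (l 16909672)) (a (l 16906784) (l 16811400))) (a (l 6) (a (l 16977208) (l 16971208)))) (l 6))) (l 6))), by decide +kernel⟩

theorem c_B00pm_012_s1 : CertF 0 536870912 0 536870912 335544320 67108864 false true false .pnp 0 1 2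
    ndF0q0 ndF0q2 pcF1 cut_B00pm_012_s1 Ext.none :=
  certF0 (fam := false) (s1 := true) (s2 := false) (a := 0) (b := 1) (c := 2) (cn := .pnp) (n1 := ndF0q0) (n2 := ndF0q2) (pc := pcF1) (cut := cut_B00pm_012_s1) (xt := Ext.none) (P1 := 0) (W1 := 536870912) (P2 := 0) (W2 := 536870912) (P3 := 335544320) (W3 := 67108864)
    rfl k0_B00pm_012_s1

theorem s_B00pm_012_s1 {κ x : ℝ} (hκ : κ * h0 = ken x) (hx : ((335544320 : ℕ) : ℝ) / S ≤ x)
    (hx' : x ≤ (((335544320 : ℕ) : ℝ) + (67108864 : ℕ)) / S)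
    (H : CutB (VF κ) PP tKF tL pcF (Cut.of [[⟨0, 0, 0, 67108864⟩, ⟨1, 1, 0, 67108864⟩, ⟨2, 1, 0, 67108864⟩], [⟨0, 0, 1, 33554432⟩, ⟨1, 1, 2, 33554432⟩, ⟨2, 1, 0, 33554432⟩]]) 0 1 2 0 0 (sgb true) (sgb false) x) :
    AltB (VF κ) PP tKF tL pcF [⟨3, 0, 0, 1449551462⟩] 0 1 2 0 0 (sgb true) (sgb false) x :=
  strip_altB (m := 1449551462) true rfl hκ covF00 covF02 hx hx' c_B00pm_012_s1 H (noExt_B)

noncomputable def cut_B00pm_012_s3 : Cut := Cut.of [[⟨3, 0, 0, 2845415833⟩], [⟨0, 0, 0, 67108864⟩, ⟨1, 1, 0, 67108864⟩, ⟨2, 1, 0, 67108864⟩], [⟨0, 0, 1, 33554432⟩, ⟨1, 1, 2, 33554432⟩, ⟨2, 1, 0, 33554432⟩]]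

noncomputable def f_B00pm_012_s3 : ℕ → ℕ → ℕ → ℕ → Bool := onCell 536870912 536870912 0 536870912 335544320 67108864
    (rowF 2 false true false .pnp 0 1 2 (qsf 0 536870912 0 536870912 1) ndF0q0 ndF0q2 pcF1 cut_B00pm_012_s3 Ext.none)

def k0_B00pm_012_s3 : ∃ t, chk3 f_B00pm_012_s3 t 2 1 1 = true :=
  ⟨(b (l 6) (a (l 6) (l 6))), by decide +kernel⟩

def k1_B00pm_012_s3 : ∃ t, chk3 f_B00pm_012_s3 t 3 2 1 = true :=
  ⟨(l 6), by decide +kernel⟩

def k2_B00pm_012_s3 : ∃ t, chk3 f_B00pm_012_s3 t 6 3 1 = true :=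
  ⟨(b (l 6) (b (l 6) (a (b (l 6) (b (a (l 6) (a (l 6) (a (l 6) (l 16687664)))) (a (b (l 6) (b (l 6) (a (l 6) (a (l 6) (c (l 16665496) (l 16651824)))))) (b (a (c (l 16681328) (l 16656320)) (c (l 16667440) (l 16654872))) (a (c (b (l 16666392) (a (l 16664304) (l 16663136))) (b (l 16653232) (l 16651488))) (c (a (l 16663368) (l 16663816)) (l 16652744))))))) (a (b (b (l 6) (a (l 6) (l 16666968))) (b (b (a (l 16666352) (l 16663640)) (a (l 16663440) (l 16662528))) (b (a (l 16671896) (l 16683264)) (a (c (l 16670176) (l 16655632)) (c (l 16677304) (l 16659072)))))) (b (b (a (l 6) (l 16658976)) (a (l 16662408) (l 16658760))) (b (a (b (l 16661688) (l 16662312)) (b (l 16660544) (l 16662816))) (a (b (l 16663792) (c (l 16669248) (l 16663048))) (b (l 16665944) (c (l 16672256) (l 16667592)))))))))), by decide +kernel⟩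

def k3_B00pm_012_s3 : ∃ t, chk3 f_B00pm_012_s3 t 7 3 1 = true :=
  ⟨(b (l 6) (b (b (a (l 6) (a (a (l 6) (l 16628896)) (a (b (l 16619992) (l 16630800)) (a (l 16623592) (l 16664768))))) (a (a (b (l 6) (l 16675896)) (a (l 16692824) (b (l 16645880) (l 16652936)))) (a (a (b (l 16644016) (l 16653928)) (b (l 16643312) (l 16655912))) (a (b (l 16643720) (l 16679824)) (a (b (l 16644728) (l 16661656)) (b (l 16645752) (l 14))))))) (a (b (a (b (a (l 16656184) (l 16657456)) (a (l 16659280) (l 16663792))) (b (a (l 16659576) (l 16662528)) (a (l 16668960) (l 16695760)))) (b (a (a (l 16686432) (b (l 16670408) (l 16675840))) (a (b (l 16677808) (l 16684704)) (b (l 16685728) (l 16693984)))) (a (b (a (l 16672128) (l 16682088)) (a (l 16688192) (b (l 16687280) (l 16691024)))) (b (a (l 16692368) (a (l 16700280) (l 16705680))) (b (a (l 16698616) (l 16710216)) (a (l 16713536) (c (l 16716240) (l 16714304)))))))) (b (a (b (a (l 16666304) (l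 16691872)) (a (b (l 16677192) (l 16685336)) (a (l 16686528) (l 16690256)))) (a (b (a (l 16674856) (l 14)) (l 14)) (l 14))) (a (a (a (b (b (l 16691992) (l 16701216)) (b (l 16711160) (b (l 16719088) (l 16724616)))) (b (b (l 16696344) (l 16706176)) (b (l 16716728) (l 14)))) (b (b (a (l 16700824) (l 14)) (l 14)) (l 14))) (l 14)))))), by decide +kernel⟩

theorem t4_B00pm_012_s3 : ∃ t, chk3 f_B00pm_012_s3 t 3 3 1 = true := ex3_a k2_B00pm_012_s3 k3_B00pm_012_s3

theorem t5_B00pm_012_s3 : ∃ t, chk3 f_B00pm_012_s3 t 3 1 1 = true := ex3_b k1_B00pm_012_s3 t4_B00pm_012_s3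

theorem t6_B00pm_012_s3 : ∃ t, chk3 f_B00pm_012_s3 t 1 1 1 = true := ex3_a k0_B00pm_012_s3 t5_B00pm_012_s3

theorem c_B00pm_012_s3 : CertF 0 536870912 0 536870912 335544320 67108864 false true false .pnp 0 1 2
    ndF0q0 ndF0q2 pcF1 cut_B00pm_012_s3 Ext.none :=
  certF2 (fam := false) (s1 := true) (s2 := false) (a := 0) (b := 1) (c := 2) (cn := .pnp) (n1 := ndF0q0) (n2 := ndF0q2) (pc := pcF1) (cut := cut_B00pm_012_s3) (xt := Ext.none) (P1 := 0) (W1 := 536870912) (P2 := 0) (W2 := 536870912) (P3 := 335544320) (W3 := 67108864)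
    rfl (fun _ => rfl) t6_B00pm_012_s3

theorem s_B00pm_012_s3 {κ x : ℝ} (hκ : κ * h0 = ken x) (hx : ((335544320 : ℕ) : ℝ) / S ≤ x)
    (hx' : x ≤ (((335544320 : ℕ) : ℝ) + (67108864 : ℕ)) / S)
    (H : CutB (VF κ) PP tKF tL pcF (Cut.of [[⟨0, 0, 0, 67108864⟩, ⟨1, 1, 0, 67108864⟩, ⟨2, 1, 0, 67108864⟩], [⟨0, 0, 1, 33554432⟩, ⟨1, 1, 2, 33554432⟩, ⟨2, 1, 0, 33554432⟩]]) 0 1 2 0 0 (sgb true) (sgb false) x) :
    AltB (VF κ) PP tKF tL pcF [⟨4, 0, 0, 2845415833⟩] 0 1 2 0 0 (sgb true) (sgb false) x :=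
  strip_altB (m := 2845415833) false rfl hκ covF00 covF02 hx hx' c_B00pm_012_s3 H (noExt_B)

noncomputable def cut_B00pm_022_s1 : Cut := Cut.of [[⟨4, 0, 0, 1449551462⟩], [⟨0, 0, 0, 67108864⟩, ⟨1, 1, 0, 67108864⟩, ⟨2, 1, 0, 67108864⟩]]

noncomputable def f_B00pm_022_s1 : ℕ → ℕ → ℕ → ℕ → Bool := onCell 1073741824 536870912 0 536870912 335544320 67108864
    (rowF 2 false true false .pp 0 2 2 (qsf 0 536870912 0 536870912 2) ndF0q0 ndF0q2 pcF2 cut_B00pm_022_s1 Ext.none)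

def k0_B00pm_022_s1 : ∃ t, chk3 f_B00pm_022_s1 t 1 1 1 = true :=
  ⟨(l 6), by decide +kernel⟩

theorem c_B00pm_022_s1 : CertF 0 536870912 0 536870912 335544320 67108864 false true false .pp 0 2 2
    ndF0q0 ndF0q2 pcF2 cut_B00pm_022_s1 Ext.none :=
  certF2 (fam := false) (s1 := true) (s2 := false) (a := 0) (b := 2) (c := 2) (cn := .pp) (n1 := ndF0q0) (n2 := ndF0q2) (pc := pcF2) (cut := cut_B00pm_022_s1) (xt := Ext.none) (P1 := 0) (W1 := 536870912) (P2 := 0) (W2 := 536870912) (P3 := 335544320) (W3 := 67108864)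
    rfl (fun _ => rfl) k0_B00pm_022_s1

theorem s_B00pm_022_s1 {κ x : ℝ} (hκ : κ * h0 = ken x) (hx : ((335544320 : ℕ) : ℝ) / S ≤ x)
    (hx' : x ≤ (((335544320 : ℕ) : ℝ) + (67108864 : ℕ)) / S)
    (H : CutB (VF κ) PP tKF tL pcF (Cut.of [[⟨0, 0, 0, 67108864⟩, ⟨1, 1, 0, 67108864⟩, ⟨2, 1, 0, 67108864⟩]]) 0 2 2 0 0 (sgb true) (sgb false) x) :
    AltB (VF κ) PP tKF tL pcF [⟨3, 0, 0, 1449551462⟩] 0 2 2 0 0 (sgb true) (sgb false) x :=
  strip_altB (m := 1449551462) true rfl hκ covF00 covF02 hx hx' c_B00pm_022_s1 H (noExt_B)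

noncomputable def cut_B00pm_022_s3 : Cut := Cut.of [[⟨3, 0, 0, 2845415833⟩], [⟨0, 0, 0, 67108864⟩, ⟨1, 1, 0, 67108864⟩, ⟨2, 1, 0, 67108864⟩]]

noncomputable def f_B00pm_022_s3 : ℕ → ℕ → ℕ → ℕ → Bool := onCell 0 536870912 0 536870912 335544320 67108864
    (rowF 0 false true false .pp 0 2 2 (qsf 0 536870912 0 536870912 2) ndF0q0 ndF0q2 pcF2 cut_B00pm_022_s3 Ext.none)

def k0_B00pm_022_s3 : ∃ t, chk3 f_B00pm_022_s3 t 1 1 1 = true :=
  ⟨(a (b (l 6) (a (b (b (l 6) (a (a (a (b (a (l 16635536) (l 16628664)) (a (b (l 16651312) (l 16662216)) (l 16690936))) (b (l 16618504) (l 16679296))) (b (l 6) (a (l 16622144) (l 16607248)))) (a (b (l 6) (l 6)) (l 6)))) (a (a (b (b (a (a (b (a (l 16675560) (l 16671280)) (b (l 16702968) (l 14))) (b (l 16664880) (l 16675944))) (b (l 16652168) (l 16704464))) (l 14)) (l 14)) (a (b (b (b (l 16635432) (l 16644784)) (l 14)) (l 14)) (b (a (b (l 16669336) (l 14)) (b (b (l 16614872) (l 16622896))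 (b (l 16631320) (l 1)))) (l 1)))) (a (a (b (b (b (l 16602696) (l 16651816)) (l 1)) (l 1)) (l 1)) (l 1)))) (b (l 1) (l 1)))) (l 1)), by decide +kernel⟩

theorem c_B00pm_022_s3 : CertF 0 536870912 0 536870912 335544320 67108864 false true false .pp 0 2 2
    ndF0q0 ndF0q2 pcF2 cut_B00pm_022_s3 Ext.none :=
  certF0 (fam := false) (s1 := true) (s2 := false) (a := 0) (b := 2) (c := 2) (cn := .pp) (n1 := ndF0q0) (n2 := ndF0q2) (pc := pcF2) (cut := cut_B00pm_022_s3) (xt := Ext.none) (P1 := 0) (W1 := 536870912) (P2 := 0) (W2 := 536870912) (P3 := 335544320) (W3 := 67108864)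
    rfl k0_B00pm_022_s3

theorem s_B00pm_022_s3 {κ x : ℝ} (hκ : κ * h0 = ken x) (hx : ((335544320 : ℕ) : ℝ) / S ≤ x)
    (hx' : x ≤ (((335544320 : ℕ) : ℝ) + (67108864 : ℕ)) / S)
    (H : CutB (VF κ) PP tKF tL pcF (Cut.of [[⟨0, 0, 0, 67108864⟩, ⟨1, 1, 0, 67108864⟩, ⟨2, 1, 0, 67108864⟩]]) 0 2 2 0 0 (sgb true) (sgb false) x) :
    AltB (VF κ) PP tKF tL pcF [⟨4, 0, 0, 2845415833⟩] 0 2 2 0 0 (sgb true) (sgb false) x :=
  strip_altB (m := 2845415833) false rfl hκ covF00 covF02 hx hx' c_B00pm_022_s3 H (noExt_B)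

noncomputable def cut_B00pm_101_s1 : Cut := Cut.of [[⟨4, 0, 0, 1449551462⟩], [⟨0, 1, 0, 33554432⟩, ⟨1, 0, 0, 33554432⟩, ⟨2, 1, 0, 33554432⟩]]

noncomputable def f_B00pm_101_s1 : ℕ → ℕ → ℕ → ℕ → Bool := onCell 0 536870912 536870912 536870912 335544320 67108864
    (rowF 2 false true false .npn 1 0 1 (qsf 536870912 536870912 536870912 536870912 0) ndF0q1 ndF0q1 pcF0 cut_B00pm_101_s1 Ext.none)

def k0_B00pm_101_s1 : ∃ t, chk3 f_B00pm_101_s1 t 1 1 1 = true :=
  ⟨(a (b (l 6) (b (l 6) (a (b (a (l 6) (l 6)) (a (b (b (a (a (l 16930040) (l 16947752)) (l 6)) (b (a (a (l 16895168) (l 16913680)) (l 16940704)) (a (a (l 16875024) (l 16894376)) (l 16922560)))) (a (a (b (b (l 16857872) (a (l 16834176) (l 16845736))) (b (a (l 14) (l 16827696)) (l 14))) (b (l 16870680) (b (l 16846040) (a (l 16822336) (l 16835288))))) (b (a (l 16891400) (l 16911216)) (a (b (l 16869240) (l 16853968)) (l 16884384))))) (b (l 6) (a (b (l 16939440) (a (l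 16905752) (l 16925856))) (b (l 16973560) (l 16953944)))))) (a (a (b (l 6) (b (l 6) (l 17078936))) (l 6)) (l 6))))) (l 6)), by decide +kernel⟩

theorem c_B00pm_101_s1 : CertF 536870912 536870912 536870912 536870912 335544320 67108864 false true false .npn 1 0 1
    ndF0q1 ndF0q1 pcF0 cut_B00pm_101_s1 Ext.none :=
  certF2 (fam := false) (s1 := true) (s2 := false) (a := 1) (b := 0) (c := 1) (cn := .npn) (n1 := ndF0q1) (n2 := ndF0q1) (pc := pcF0) (cut := cut_B00pm_101_s1) (xt := Ext.none) (P1 := 536870912) (W1 := 536870912) (P2 := 536870912) (W2 := 536870912) (P3 := 335544320) (W3 := 67108864)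
    rfl (fun _ => rfl) k0_B00pm_101_s1

theorem s_B00pm_101_s1 {κ x : ℝ} (hκ : κ * h0 = ken x) (hx : ((335544320 : ℕ) : ℝ) / S ≤ x)
    (hx' : x ≤ (((335544320 : ℕ) : ℝ) + (67108864 : ℕ)) / S)
    (H : CutB (VF κ) PP tKF tL pcF (Cut.of [[⟨0, 1, 0, 33554432⟩, ⟨1, 0, 0, 33554432⟩, ⟨2, 1, 0, 33554432⟩]]) 1 0 1 0 0 (sgb true) (sgb false) x) :
    AltB (VF κ) PP tKF tL pcF [⟨3, 0, 0, 1449551462⟩] 1 0 1 0 0 (sgb true) (sgb false) x :=
  strip_altB (m := 1449551462) true rfl hκ covF01 covF01 hx hx' c_B00pm_101_s1 H (noExt_B)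

noncomputable def cut_B00pm_101_s3 : Cut := Cut.of [[⟨3, 0, 0, 2845415833⟩], [⟨0, 1, 0, 33554432⟩, ⟨1, 0, 0, 33554432⟩, ⟨2, 1, 0, 33554432⟩]]

noncomputable def xt_B00pm_101_s3 : Ext := strExt dd false true false .u0 .u0m .s0m .npn 1 0 1 rfl rfl gl0 vv ndF0q1 ndF0q1

noncomputable def f_B00pm_101_s3 : ℕ → ℕ → ℕ → ℕ → Bool := onCell 536870912 536870912 536870912 536870912 335544320 67108864
    (rowF 0 false true false .npn 1 0 1 (qsf 536870912 536870912 536870912 536870912 0) ndF0q1 ndF0q1 pcF0 cut_B00pm_101_s3 xt_B00pm_101_s3)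

def k0_B00pm_101_s3 : ∃ t, chk3 f_B00pm_101_s3 t 2 2 1 = true :=
  ⟨(a (b (a (b (l 4) (a (b (l 4) (b (l 4) (l 540841999))) (b (a (l 4) (l 540870159)) (a (b (l 540788495) (l 540712463)) (b (l 540745743) (l 540671759)))))) (b (b (l 1) (a (l 540950287) (l 1))) (a (b (l 540803343) (l 540651023)) (b (a (l 540725007) (l 1)) (l 540555279))))) (a (b (a (b (c (l 541116943) (l 540464655)) (a (a (b (b (l 540791567) (l 540759823)) (l 540706063)) (b (l 540742927) (l 540679695))) (b (l 540694031) (l 540635151)))) (b (a (l 540679951) (l 540586511)) (a (l 540597007) (l 540526863)))) (a (b (a (b (c (l 540974863) (l 540266511)) (l 540541967)) (b (l 540568591) (l 540495119))) (a (b (l 540457231) (l 540369167)) (c (l 540721679) (l 540030991)))) (b (a (b (l 16868144) (l 16884888)) (l 540413199)) (a (c (l 16921472) (l 540002063)) (l 16923080))))) (b (b (a (b (l 540548111) (l 540501519)) (l 540425231)) (a (b (l 540458511) (l 16888984))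 (l 540322319))) (a (b (b (l 16905192) (l 16920952)) (a (l 16936864) (l 16950328))) (b (l 16941120) (l 16969752)))))) (b (a (b (l 1) (a (b (l 1) (l 540471055)) (l 1))) (l 1)) (a (b (a (b (l 540336143) (l 16940168)) (b (l 16944080) (l 16970088))) (b (a (l 16968536) (l 6)) (l 6))) (b (a (b (l 1) (l 6)) (l 1)) (l 6))))), by decide +kernel⟩

def k1_B00pm_101_s3 : ∃ t, chk3 f_B00pm_101_s3 t 2 3 1 = true :=
  ⟨(b (a (a (b (a (c (b (a (l 16925704) (l 16940976)) (a (l 16958864) (l 16973408))) (b (a (l 539866639) (b (l 16903256) (l 16916032))) (a (b (l 16914944) (l 16926560)) (l 16944416)))) (b (a (c (l 16955560) (l 16922888)) (l 16952576)) (a (c (l 16987248) (l 16946664)) (l 16979656)))) (b (a (a (b (l 16959552) (l 6)) (l 6)) (l 6)) (l 6))) (b (a (b (l 16971912) (l 6)) (l 6)) (l 6))) (l 6)) (l 6)), by decide +kernel⟩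

def k2_B00pm_101_s3 : ∃ t, chk3 f_B00pm_101_s3 t 3 1 1 = true :=
  ⟨(b (a (b (l 1) (l 6)) (l 1)) (l 6)), by decide +kernel⟩

theorem t3_B00pm_101_s3 : ∃ t, chk3 f_B00pm_101_s3 t 2 1 1 = true := ex3_b k0_B00pm_101_s3 k1_B00pm_101_s3

theorem t4_B00pm_101_s3 : ∃ t, chk3 f_B00pm_101_s3 t 1 1 1 = true := ex3_a t3_B00pm_101_s3 k2_B00pm_101_s3

theorem c_B00pm_101_s3 : CertF 536870912 536870912 536870912 536870912 335544320 67108864 false true false .npn 1 0 1
    ndF0q1 ndF0q1 pcF0 cut_B00pm_101_s3 xt_B00pm_101_s3 :=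
  certF0 (fam := false) (s1 := true) (s2 := false) (a := 1) (b := 0) (c := 1) (cn := .npn) (n1 := ndF0q1) (n2 := ndF0q1) (pc := pcF0) (cut := cut_B00pm_101_s3) (xt := xt_B00pm_101_s3) (P1 := 536870912) (W1 := 536870912) (P2 := 536870912) (W2 := 536870912) (P3 := 335544320) (W3 := 67108864)
    rfl t4_B00pm_101_s3

theorem s_B00pm_101_s3 {κ x : ℝ} (hκ : κ * h0 = ken x) (hx : ((335544320 : ℕ) : ℝ) / S ≤ x)
    (hx' : x ≤ (((335544320 : ℕ) : ℝ) + (67108864 : ℕ)) / S)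
    (H : CutB (VF κ) PP tKF tL pcF (Cut.of [[⟨0, 1, 0, 33554432⟩, ⟨1, 0, 0, 33554432⟩, ⟨2, 1, 0, 33554432⟩]]) 1 0 1 0 0 (sgb true) (sgb false) x) :
    AltB (VF κ) PP tKF tL pcF [⟨4, 0, 0, 2845415833⟩] 1 0 1 0 0 (sgb true) (sgb false) x :=
  strip_altB (m := 2845415833) false rfl hκ covF01 covF01 hx hx' c_B00pm_101_s3 H ((okx hx hx').extB (T := tt) (sideF hx hx') hκ rfl rfl (.O 1 true) (.O 1 false) (Or.inl rfl))

noncomputable def cut_B00pm_102_s1 : Cut := Cut.of [[⟨4, 0, 0, 1449551462⟩], [⟨0, 1, 0, 67108864⟩, ⟨1, 0, 0, 67108864⟩, ⟨2, 1, 0, 67108864⟩]]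

noncomputable def xt_B00pm_102_s1 : Ext := strExt dd false true false .u0 .u2 .u0m .npp 1 0 2 rfl rfl gf0 vv ndF0q1 ndF0q2

noncomputable def f_B00pm_102_s1 : ℕ → ℕ → ℕ → ℕ → Bool := onCell 536870912 536870912 0 536870912 335544320 67108864
    (rowF 0 false true false .npp 1 0 2 (qsf 536870912 536870912 0 536870912 0) ndF0q1 ndF0q2 pcF0 cut_B00pm_102_s1 xt_B00pm_102_s1)

def k0_B00pm_102_s1 : ∃ t, chk3 f_B00pm_102_s1 t 2 1 1 = true :=
  ⟨(a (b (b (l 2) (a (l 2) (a (l 2) (b (l 2) (l 53251135527))))) (b (l 6) (l 6))) (a (b (b (b (a (b (l 3) (l 538913039)) (l 3)) (a (a (l 2) (b (l 539024399) (l 539038991))) (b (b (l 3) (l 539176207)) (l 539181327)))) (b (a (b (l 539010831) (a (l 16850288) (l 16842128))) (b (l 539185679) (a (l 16833248) (l 16823624)))) (a (a (l 16882280) (l 16874704)) (b (l 539183631) (l 16873688))))) (b (b (a (b (l 16912032) (l 6)) (b (l 16897288) (l 16921424))) (l 6)) (l 6))) (b (b (b (l 3) (a (b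 (l 3) (l 539389199)) (l 3))) (b (a (b (l 539377935) (a (l 539320335) (l 539418127))) (b (a (l 539534863) (l 3)) (a (l 539522575) (l 539631631)))) (a (b (l 539365135) (l 539365903)) (a (b (l 539516431) (l 16839312)) (l 539622415))))) (b (b (a (b (a (l 16884768) (l 16875488)) (l 16905696)) (b (a (l 16865312) (l 16854112)) (a (l 16891904) (l 16881472)))) (a (b (l 16931496) (l 6)) (b (l 16914160) (l 16942552)))) (l 6))))), by decide +kernel⟩

def k1_B00pm_102_s1 : ∃ t, chk3 f_B00pm_102_s1 t 3 2 1 = true :=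
  ⟨(b (l 3) (a (a (b (a (b (l 3) (l 539803407)) (l 3)) (a (b (l 539792911) (l 539787535)) (b (l 540025871) (l 540017167)))) (l 3)) (l 3))), by decide +kernel⟩

def k2_B00pm_102_s1 : ∃ t, chk3 f_B00pm_102_s1 t 6 3 1 = true :=
  ⟨(b (a (b (b (a (l 539786767) (a (l 539954191) (l 540068623))) (a (c (l 540083983) (l 539488783)) (a (l 539949327) (l 540060175)))) (b (a (a (l 16898472) (l 16886504)) (a (l 16873232) (l 540041231))) (a (a (l 16928104) (l 16916960)) (a (l 16904488) (l 16890640))))) (b (a (b (a (l 540201743) (c (l 540638223) (l 539971855))) (a (l 540162575) (l 540271375))) (b (l 3) (l 540432399))) (b (a (a (l 540143119) (l 540248847)) (a (l 540352015) (l 540446735))) (a (a (l 540145167) (l 540251407)) (a (l 540356111) (l 540462863)))))) (a (b (a (b (a (l 16959656) (l 16949232)) (l 6)) (a (b (l 16937608) (b (c (l 16980224) (l 16947384)) (l 6))) (b (l 16924576) (b (l 16951400) (b (l 16964424) (l 16970896))))))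 (l 6)) (b (b (a (a (l 16910096) (l 540276751)) (a (l 540383503) (l 540484623))) (a (b (a (l 16937472) (l 16922008)) (a (b (l 16951784) (l 16959648)) (c (l 16955000) (l 16928200)))) (a (l 540420111) (l 540519183)))) (b (a (b (a (l 16968752) (b (l 16953536) (l 16959568))) (l 16974792)) (a (b (b (c (l 16951800) (l 16926568)) (l 16945952)) (l 16954680)) (b (b (l 16920824) (a (l 16934544) (l 16925992))) (l 16939560)))) (a (l 16994192) (l 16965568)))))), by decide +kernel⟩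

def k3_B00pm_102_s1 : ∃ t, chk3 f_B00pm_102_s1 t 7 3 1 = true :=
  ⟨(b (b (l 3) (a (a (a (b (l 540541711) (l 540554255)) (b (l 3) (l 540643343))) (a (b (l 3) (l 540728591)) (l 3))) (l 3))) (b (a (a (b (a (l 540577807) (l 540665359)) (a (l 540610319) (l 540696079))) (a (b (l 540748559) (a (l 540746511) (l 540783887))) (b (a (l 540794895) (l 540830735)) (a (l 540819727) (l 540854543))))) (b (l 3) (a (a (a (l 540888079) (l 540920847)) (a (l 540953615) (l 3))) (l 3)))) (a (b (a (b (a (b (l 16900376) (l 16910952)) (l 16883424)) (a (b (a (l 16924032) (l 16914912)) (l 16925688)) (b (a (l 16904912) (l 16893352)) (l 16917256)))) (a (b (l 540794895) (b (l 16875416) (a (l 16891696) (l 16880144)))) (a (l 540853263) (l 540887055)))) (a (b (l 16925424) (l 16937608)) (b (b (a (l 16892784) (a (l 16876576) (b (l 16862184) (l 16867112)))) (l 16888632)) (l 16897744)))) (b (b (a (a (a (l 540896527) (l 540925967)) (a (l 540954895) (a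 (l 540959247) (l 540971023)))) (l 3)) (a (a (a (l 540910607) (l 540939279)) (a (l 540968207) (a (l 540969231) (l 540981007)))) (l 14))) (a (b (a (b (a (l 16851656) (l 16837624)) (a (b (l 16858552) (l 16862016)) (b (l 16845928) (l 16849616)))) (a (b (l 540966159) (l 14)) (l 14))) (a (l 16863896) (l 14))) (l 14)))))), by decide +kernel⟩

theorem t4_B00pm_102_s1 : ∃ t, chk3 f_B00pm_102_s1 t 3 3 1 = true := ex3_a k2_B00pm_102_s1 k3_B00pm_102_s1

theorem t5_B00pm_102_s1 : ∃ t, chk3 f_B00pm_102_s1 t 3 1 1 = true := ex3_b k1_B00pm_102_s1 t4_B00pm_102_s1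

theorem t6_B00pm_102_s1 : ∃ t, chk3 f_B00pm_102_s1 t 1 1 1 = true := ex3_a k0_B00pm_102_s1 t5_B00pm_102_s1

theorem c_B00pm_102_s1 : CertF 536870912 536870912 0 536870912 335544320 67108864 false true false .npp 1 0 2
    ndF0q1 ndF0q2 pcF0 cut_B00pm_102_s1 xt_B00pm_102_s1 :=
  certF0 (fam := false) (s1 := true) (s2 := false) (a := 1) (b := 0) (c := 2) (cn := .npp) (n1 := ndF0q1) (n2 := ndF0q2) (pc := pcF0) (cut := cut_B00pm_102_s1) (xt := xt_B00pm_102_s1) (P1 := 536870912) (W1 := 536870912) (P2 := 0) (W2 := 536870912) (P3 := 335544320) (W3 := 67108864)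
    rfl t6_B00pm_102_s1

theorem s_B00pm_102_s1 {κ x : ℝ} (hκ : κ * h0 = ken x) (hx : ((335544320 : ℕ) : ℝ) / S ≤ x)
    (hx' : x ≤ (((335544320 : ℕ) : ℝ) + (67108864 : ℕ)) / S)
    (H : CutB (VF κ) PP tKF tL pcF (Cut.of [[⟨0, 1, 0, 67108864⟩, ⟨1, 0, 0, 67108864⟩, ⟨2, 1, 0, 67108864⟩]]) 1 0 2 0 0 (sgb true) (sgb false) x) :
    AltB (VF κ) PP tKF tL pcF [⟨3, 0, 0, 1449551462⟩] 1 0 2 0 0 (sgb true) (sgb false) x :=
  strip_altB (m := 1449551462) true rfl hκ covF01 covF02 hx hx' c_B00pm_102_s1 H ((okx hx hx').extB (T := tt) (sideF hx hx') hκ rfl rfl (.O 1 true) (.O 2 false) (Or.inl rfl))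

noncomputable def cut_B00pm_102_s3 : Cut := Cut.of [[⟨3, 0, 0, 2845415833⟩], [⟨0, 1, 0, 67108864⟩, ⟨1, 0, 0, 67108864⟩, ⟨2, 1, 0, 67108864⟩]]

noncomputable def f_B00pm_102_s3 : ℕ → ℕ → ℕ → ℕ → Bool := onCell 536870912 536870912 0 536870912 335544320 67108864
    (rowF 0 false true false .npp 1 0 2 (qsf 536870912 536870912 0 536870912 0) ndF0q1 ndF0q2 pcF0 cut_B00pm_102_s3 Ext.none)

def k0_B00pm_102_s3 : ∃ t, chk3 f_B00pm_102_s3 t 1 1 1 = true :=
  ⟨(l 6), by decide +kernel⟩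

theorem c_B00pm_102_s3 : CertF 536870912 536870912 0 536870912 335544320 67108864 false true false .npp 1 0 2
    ndF0q1 ndF0q2 pcF0 cut_B00pm_102_s3 Ext.none :=
  certF0 (fam := false) (s1 := true) (s2 := false) (a := 1) (b := 0) (c := 2) (cn := .npp) (n1 := ndF0q1) (n2 := ndF0q2) (pc := pcF0) (cut := cut_B00pm_102_s3) (xt := Ext.none) (P1 := 536870912) (W1 := 536870912) (P2 := 0) (W2 := 536870912) (P3 := 335544320) (W3 := 67108864)
    rfl k0_B00pm_102_s3

theorem s_B00pm_102_s3 {κ x : ℝ} (hκ : κ * h0 = ken x) (hx : ((335544320 : ℕ) : ℝ) / S ≤ x)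
    (hx' : x ≤ (((335544320 : ℕ) : ℝ) + (67108864 : ℕ)) / S)
    (H : CutB (VF κ) PP tKF tL pcF (Cut.of [[⟨0, 1, 0, 67108864⟩, ⟨1, 0, 0, 67108864⟩, ⟨2, 1, 0, 67108864⟩]]) 1 0 2 0 0 (sgb true) (sgb false) x) :
    AltB (VF κ) PP tKF tL pcF [⟨4, 0, 0, 2845415833⟩] 1 0 2 0 0 (sgb true) (sgb false) x :=
  strip_altB (m := 2845415833) false rfl hκ covF01 covF02 hx hx' c_B00pm_102_s3 H (noExt_B)

noncomputable def cut_B00pm_112_s1 : Cut := Cut.of [[⟨4, 0, 0, 1449551462⟩]]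

noncomputable def xt_B00pm_112_s1 : Ext := strExt dd false true false .u0 .u2 .u0m .dn 1 1 2 rfl rfl gf1 vv ndF0q1 ndF0q2

noncomputable def f_B00pm_112_s1 : ℕ → ℕ → ℕ → ℕ → Bool := onCell 536870912 536870912 0 536870912 335544320 67108864
    (rowF 2 false true false .dn 1 1 2 (qsf 536870912 536870912 0 536870912 1) ndF0q1 ndF0q2 pcF1 cut_B00pm_112_s1 xt_B00pm_112_s1)

def k0_B00pm_112_s1 : ∃ t, chk3 f_B00pm_112_s1 t 1 1 1 = true :=
  ⟨(a (b (a (b (a (b (a (l 539490575) (l 539710479)) (a (l 539687695) (b (l 539768847) (l 16851016)))) (a (b (l 539760399) (b (l 16848576) (l 16879616))) (b (b (l 540038415) (l 16809544)) (l 16812984)))) (b (a (a (b (l 16855168) (l 16887512)) (l 16898240)) (a (l 16927232) (l 16960608))) (a (a (l 16936800) (l 16963424)) (a (l 6) (l 6))))) (a (b (b (a (a (l 16777600) (l 16792688)) (l 1)) (a (l 16855472) (l 1))) (b (a (l 17001976) (l 1)) (l 6))) (l 1))) (a (b (l 6) (l 6)) (l 6))) (l 1)),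 by decide +kernel⟩

theorem c_B00pm_112_s1 : CertF 536870912 536870912 0 536870912 335544320 67108864 false true false .dn 1 1 2
    ndF0q1 ndF0q2 pcF1 cut_B00pm_112_s1 xt_B00pm_112_s1 :=
  certF2 (fam := false) (s1 := true) (s2 := false) (a := 1) (b := 1) (c := 2) (cn := .dn) (n1 := ndF0q1) (n2 := ndF0q2) (pc := pcF1) (cut := cut_B00pm_112_s1) (xt := xt_B00pm_112_s1) (P1 := 536870912) (W1 := 536870912) (P2 := 0) (W2 := 536870912) (P3 := 335544320) (W3 := 67108864)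
    rfl (fun _ => rfl) k0_B00pm_112_s1

theorem s_B00pm_112_s1 {κ x : ℝ} (hκ : κ * h0 = ken x) (hx : ((335544320 : ℕ) : ℝ) / S ≤ x)
    (hx' : x ≤ (((335544320 : ℕ) : ℝ) + (67108864 : ℕ)) / S) :
    AltB (VF κ) PP tKF tL pcF [⟨3, 0, 0, 1449551462⟩] 1 1 2 0 0 (sgb true) (sgb false) x :=
  strip_altB (m := 1449551462) true rfl hκ covF01 covF02 hx hx' c_B00pm_112_s1 cutB_nil ((okx hx hx').extB (T := tt) (sideF hx hx') hκ rfl rfl (.O 1 true) (.O 2 false) (Or.inr rfl))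

noncomputable def cut_B00pm_112_s3 : Cut := Cut.of [[⟨3, 0, 0, 2845415833⟩]]

noncomputable def f_B00pm_112_s3 : ℕ → ℕ → ℕ → ℕ → Bool := onCell 536870912 536870912 0 536870912 335544320 67108864
    (rowF 0 false true false .dn 1 1 2 (qsf 536870912 536870912 0 536870912 1) ndF0q1 ndF0q2 pcF1 cut_B00pm_112_s3 Ext.none)

def k0_B00pm_112_s3 : ∃ t, chk3 f_B00pm_112_s3 t 1 1 1 = true :=
  ⟨(l 6), by decide +kernel⟩

theorem c_B00pm_112_s3 : CertF 536870912 536870912 0 536870912 335544320 67108864 false true false .dn 1 1 2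
    ndF0q1 ndF0q2 pcF1 cut_B00pm_112_s3 Ext.none :=
  certF0 (fam := false) (s1 := true) (s2 := false) (a := 1) (b := 1) (c := 2) (cn := .dn) (n1 := ndF0q1) (n2 := ndF0q2) (pc := pcF1) (cut := cut_B00pm_112_s3) (xt := Ext.none) (P1 := 536870912) (W1 := 536870912) (P2 := 0) (W2 := 536870912) (P3 := 335544320) (W3 := 67108864)
    rfl k0_B00pm_112_s3

theorem s_B00pm_112_s3 {κ x : ℝ} (hκ : κ * h0 = ken x) (hx : ((335544320 : ℕ) : ℝ) / S ≤ x)
    (hx' : x ≤ (((335544320 : ℕ) : ℝ) + (67108864 : ℕ)) / S) :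
    AltB (VF κ) PP tKF tL pcF [⟨4, 0, 0, 2845415833⟩] 1 1 2 0 0 (sgb true) (sgb false) x :=
  strip_altB (m := 2845415833) false rfl hκ covF01 covF02 hx hx' c_B00pm_112_s3 cutB_nil (noExt_B)

noncomputable def cut_B00pm_202_s1 : Cut := Cut.of [[⟨4, 0, 0, 1449551462⟩], [⟨0, 1, 0, 67108864⟩, ⟨1, 0, 0, 67108864⟩, ⟨2, 1, 0, 67108864⟩]]

noncomputable def f_B00pm_202_s1 : ℕ → ℕ → ℕ → ℕ → Bool := onCell 0 536870912 0 536870912 335544320 67108864
    (rowF 0 false true false .pp 2 0 2 (qsf 0 536870912 0 536870912 0) ndF0q2 ndF0q2 pcF0 cut_B00pm_202_s1 Ext.none)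

def k0_B00pm_202_s1 : ∃ t, chk3 f_B00pm_202_s1 t 1 1 1 = true :=
  ⟨(a (l 3) (b (l 3) (b (l 3) (a (l 3) (b (l 3) (a (l 3) (l 14))))))), by decide +kernel⟩

theorem c_B00pm_202_s1 : CertF 0 536870912 0 536870912 335544320 67108864 false true false .pp 2 0 2
    ndF0q2 ndF0q2 pcF0 cut_B00pm_202_s1 Ext.none :=
  certF0 (fam := false) (s1 := true) (s2 := false) (a := 2) (b := 0) (c := 2) (cn := .pp) (n1 := ndF0q2) (n2 := ndF0q2) (pc := pcF0) (cut := cut_B00pm_202_s1) (xt := Ext.none) (P1 := 0) (W1 := 536870912) (P2 := 0) (W2 := 536870912) (P3 := 335544320) (W3 := 67108864)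
    rfl k0_B00pm_202_s1

theorem s_B00pm_202_s1 {κ x : ℝ} (hκ : κ * h0 = ken x) (hx : ((335544320 : ℕ) : ℝ) / S ≤ x)
    (hx' : x ≤ (((335544320 : ℕ) : ℝ) + (67108864 : ℕ)) / S)
    (H : CutB (VF κ) PP tKF tL pcF (Cut.of [[⟨0, 1, 0, 67108864⟩, ⟨1, 0, 0, 67108864⟩, ⟨2, 1, 0, 67108864⟩]]) 2 0 2 0 0 (sgb true) (sgb false) x) :
    AltB (VF κ) PP tKF tL pcF [⟨3, 0, 0, 1449551462⟩] 2 0 2 0 0 (sgb true) (sgb false) x :=
  strip_altB (m := 1449551462) true rfl hκ covF02 covF02 hx hx' c_B00pm_202_s1 H (noExt_B)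

noncomputable def cut_B00pm_202_s3 : Cut := Cut.of [[⟨3, 0, 0, 2845415833⟩], [⟨0, 1, 0, 67108864⟩, ⟨1, 0, 0, 67108864⟩, ⟨2, 1, 0, 67108864⟩]]

noncomputable def f_B00pm_202_s3 : ℕ → ℕ → ℕ → ℕ → Bool := onCell 0 536870912 0 536870912 335544320 67108864
    (rowF 0 false true false .pp 2 0 2 (qsf 0 536870912 0 536870912 0) ndF0q2 ndF0q2 pcF0 cut_B00pm_202_s3 Ext.none)

def k0_B00pm_202_s3 : ∃ t, chk3 f_B00pm_202_s3 t 1 1 1 = true :=
  ⟨(l 6), by decide +kernel⟩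

theorem c_B00pm_202_s3 : CertF 0 536870912 0 536870912 335544320 67108864 false true false .pp 2 0 2
    ndF0q2 ndF0q2 pcF0 cut_B00pm_202_s3 Ext.none :=
  certF0 (fam := false) (s1 := true) (s2 := false) (a := 2) (b := 0) (c := 2) (cn := .pp) (n1 := ndF0q2) (n2 := ndF0q2) (pc := pcF0) (cut := cut_B00pm_202_s3) (xt := Ext.none) (P1 := 0) (W1 := 536870912) (P2 := 0) (W2 := 536870912) (P3 := 335544320) (W3 := 67108864)
    rfl k0_B00pm_202_s3

theorem s_B00pm_202_s3 {κ x : ℝ} (hκ : κ * h0 = ken x) (hx : ((335544320 : ℕ) : ℝ) / S ≤ x)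
    (hx' : x ≤ (((335544320 : ℕ) : ℝ) + (67108864 : ℕ)) / S)
    (H : CutB (VF κ) PP tKF tL pcF (Cut.of [[⟨0, 1, 0, 67108864⟩, ⟨1, 0, 0, 67108864⟩, ⟨2, 1, 0, 67108864⟩]]) 2 0 2 0 0 (sgb true) (sgb false) x) :
    AltB (VF κ) PP tKF tL pcF [⟨4, 0, 0, 2845415833⟩] 2 0 2 0 0 (sgb true) (sgb false) x :=
  strip_altB (m := 2845415833) false rfl hκ covF02 covF02 hx hx' c_B00pm_202_s3 H (noExt_B)

noncomputable def cut_B00mm_001_s1 : Cut := Cut.of [[⟨4, 0, 0, 1449551462⟩]]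

noncomputable def f_B00mm_001_s1 : ℕ → ℕ → ℕ → ℕ → Bool := onCell 0 536870912 0 536870912 335544320 67108864
    (rowF 1 false false false .up 0 0 1 (qsf 0 536870912 536870912 536870912 0) ndF0q0 ndF0q1 pcF0 cut_B00mm_001_s1 Ext.none)

def k0_B00mm_001_s1 : ∃ t, chk3 f_B00mm_001_s1 t 1 1 1 = true :=
  ⟨(l 3), by decide +kernel⟩

theorem c_B00mm_001_s1 : CertF 0 536870912 536870912 536870912 335544320 67108864 false false false .up 0 0 1
    ndF0q0 ndF0q1 pcF0 cut_B00mm_001_s1 Ext.none :=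
  certF1 (fam := false) (s1 := false) (s2 := false) (a := 0) (b := 0) (c := 1) (cn := .up) (n1 := ndF0q0) (n2 := ndF0q1) (pc := pcF0) (cut := cut_B00mm_001_s1) (xt := Ext.none) (P1 := 0) (W1 := 536870912) (P2 := 536870912) (W2 := 536870912) (P3 := 335544320) (W3 := 67108864)
    rfl (fun _ => rfl) k0_B00mm_001_s1

theorem s_B00mm_001_s1 {κ x : ℝ} (hκ : κ * h0 = ken x) (hx : ((335544320 : ℕ) : ℝ) / S ≤ x)
    (hx' : x ≤ (((335544320 : ℕ) : ℝ) + (67108864 : ℕ)) / S) :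
    AltB (VF κ) PP tKF tL pcF [⟨3, 0, 0, 1449551462⟩] 0 0 1 0 0 (sgb false) (sgb false) x :=
  strip_altB (m := 1449551462) true rfl hκ covF00 covF01 hx hx' c_B00mm_001_s1 cutB_nil (noExt_B)

noncomputable def cut_B00mm_001_s3 : Cut := Cut.of [[⟨3, 0, 0, 2845415833⟩]]

noncomputable def f_B00mm_001_s3 : ℕ → ℕ → ℕ → ℕ → Bool := onCell 0 536870912 536870912 536870912 335544320 67108864
    (rowF 0 false false false .up 0 0 1 (qsf 0 536870912 536870912 536870912 0) ndF0q0 ndF0q1 pcF0 cut_B00mm_001_s3 Ext.none)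

def k0_B00mm_001_s3 : ∃ t, chk3 f_B00mm_001_s3 t 1 1 1 = true :=
  ⟨(l 6), by decide +kernel⟩

theorem c_B00mm_001_s3 : CertF 0 536870912 536870912 536870912 335544320 67108864 false false false .up 0 0 1
    ndF0q0 ndF0q1 pcF0 cut_B00mm_001_s3 Ext.none :=
  certF0 (fam := false) (s1 := false) (s2 := false) (a := 0) (b := 0) (c := 1) (cn := .up) (n1 := ndF0q0) (n2 := ndF0q1) (pc := pcF0) (cut := cut_B00mm_001_s3) (xt := Ext.none) (P1 := 0) (W1 := 536870912) (P2 := 536870912) (W2 := 536870912) (P3 := 335544320) (W3 := 67108864)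
    rfl k0_B00mm_001_s3

theorem s_B00mm_001_s3 {κ x : ℝ} (hκ : κ * h0 = ken x) (hx : ((335544320 : ℕ) : ℝ) / S ≤ x)
    (hx' : x ≤ (((335544320 : ℕ) : ℝ) + (67108864 : ℕ)) / S) :
    AltB (VF κ) PP tKF tL pcF [⟨4, 0, 0, 2845415833⟩] 0 0 1 0 0 (sgb false) (sgb false) x :=
  strip_altB (m := 2845415833) false rfl hκ covF00 covF01 hx hx' c_B00mm_001_s3 cutB_nil (noExt_B)

noncomputable def cut_B00mm_011_s1 : Cut := Cut.of [[⟨4, 0, 0, 1449551462⟩]]

noncomputable def f_B00mm_011_s1 : ℕ → ℕ → ℕ → ℕ → Bool := onCell 0 536870912 536870912 536870912 335544320 67108864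
    (rowF 1 false false false .pnn 0 1 1 (qsf 0 536870912 536870912 536870912 1) ndF0q0 ndF0q1 pcF1 cut_B00mm_011_s1 Ext.none)

def k0_B00mm_011_s1 : ∃ t, chk3 f_B00mm_011_s1 t 1 1 1 = true :=
  ⟨(l 5), by decide +kernel⟩

theorem c_B00mm_011_s1 : CertF 0 536870912 536870912 536870912 335544320 67108864 false false false .pnn 0 1 1
    ndF0q0 ndF0q1 pcF1 cut_B00mm_011_s1 Ext.none :=
  certF1 (fam := false) (s1 := false) (s2 := false) (a := 0) (b := 1) (c := 1) (cn := .pnn) (n1 := ndF0q0) (n2 := ndF0q1) (pc := pcF1) (cut := cut_B00mm_011_s1) (xt := Ext.none) (P1 := 0) (W1 := 536870912) (P2 := 536870912) (W2 := 536870912) (P3 := 335544320) (W3 := 67108864)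
    rfl (fun _ => rfl) k0_B00mm_011_s1

theorem s_B00mm_011_s1 {κ x : ℝ} (hκ : κ * h0 = ken x) (hx : ((335544320 : ℕ) : ℝ) / S ≤ x)
    (hx' : x ≤ (((335544320 : ℕ) : ℝ) + (67108864 : ℕ)) / S) :
    AltB (VF κ) PP tKF tL pcF [⟨3, 0, 0, 1449551462⟩] 0 1 1 0 0 (sgb false) (sgb false) x :=
  strip_altB (m := 1449551462) true rfl hκ covF00 covF01 hx hx' c_B00mm_011_s1 cutB_nil (noExt_B)

noncomputable def cut_B00mm_011_s3 : Cut := Cut.of [[⟨3, 0, 0, 2845415833⟩]]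

noncomputable def f_B00mm_011_s3 : ℕ → ℕ → ℕ → ℕ → Bool := onCell 0 536870912 536870912 536870912 335544320 67108864
    (rowF 0 false false false .pnn 0 1 1 (qsf 0 536870912 536870912 536870912 1) ndF0q0 ndF0q1 pcF1 cut_B00mm_011_s3 Ext.none)

def k0_B00mm_011_s3 : ∃ t, chk3 f_B00mm_011_s3 t 1 1 1 = true :=
  ⟨(l 6), by decide +kernel⟩

theorem c_B00mm_011_s3 : CertF 0 536870912 536870912 536870912 335544320 67108864 false false false .pnn 0 1 1
    ndF0q0 ndF0q1 pcF1 cut_B00mm_011_s3 Ext.none :=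
  certF0 (fam := false) (s1 := false) (s2 := false) (a := 0) (b := 1) (c := 1) (cn := .pnn) (n1 := ndF0q0) (n2 := ndF0q1) (pc := pcF1) (cut := cut_B00mm_011_s3) (xt := Ext.none) (P1 := 0) (W1 := 536870912) (P2 := 536870912) (W2 := 536870912) (P3 := 335544320) (W3 := 67108864)
    rfl k0_B00mm_011_s3

theorem s_B00mm_011_s3 {κ x : ℝ} (hκ : κ * h0 = ken x) (hx : ((335544320 : ℕ) : ℝ) / S ≤ x)
    (hx' : x ≤ (((335544320 : ℕ) : ℝ) + (67108864 : ℕ)) / S) :
    AltB (VF κ) PP tKF tL pcF [⟨4, 0, 0, 2845415833⟩] 0 1 1 0 0 (sgb false) (sgb false) x :=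
  strip_altB (m := 2845415833) false rfl hκ covF00 covF01 hx hx' c_B00mm_011_s3 cutB_nil (noExt_B)

noncomputable def cut_B00mm_012_s1 : Cut := Cut.of [[⟨4, 0, 0, 1449551462⟩]]

noncomputable def f_B00mm_012_s1 : ℕ → ℕ → ℕ → ℕ → Bool := onCell 0 536870912 0 536870912 335544320 67108864
    (rowF 0 false false false .pnp 0 1 2 (qsf 0 536870912 0 536870912 1) ndF0q0 ndF0q2 pcF1 cut_B00mm_012_s1 Ext.none)

def k0_B00mm_012_s1 : ∃ t, chk3 f_B00mm_012_s1 t 1 1 1 = true :=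
  ⟨(l 5), by decide +kernel⟩

theorem c_B00mm_012_s1 : CertF 0 536870912 0 536870912 335544320 67108864 false false false .pnp 0 1 2
    ndF0q0 ndF0q2 pcF1 cut_B00mm_012_s1 Ext.none :=
  certF0 (fam := false) (s1 := false) (s2 := false) (a := 0) (b := 1) (c := 2) (cn := .pnp) (n1 := ndF0q0) (n2 := ndF0q2) (pc := pcF1) (cut := cut_B00mm_012_s1) (xt := Ext.none) (P1 := 0) (W1 := 536870912) (P2 := 0) (W2 := 536870912) (P3 := 335544320) (W3 := 67108864)
    rfl k0_B00mm_012_s1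

theorem s_B00mm_012_s1 {κ x : ℝ} (hκ : κ * h0 = ken x) (hx : ((335544320 : ℕ) : ℝ) / S ≤ x)
    (hx' : x ≤ (((335544320 : ℕ) : ℝ) + (67108864 : ℕ)) / S) :
    AltB (VF κ) PP tKF tL pcF [⟨3, 0, 0, 1449551462⟩] 0 1 2 0 0 (sgb false) (sgb false) x :=
  strip_altB (m := 1449551462) true rfl hκ covF00 covF02 hx hx' c_B00mm_012_s1 cutB_nil (noExt_B)

noncomputable def cut_B00mm_012_s3 : Cut := Cut.of [[⟨3, 0, 0, 2845415833⟩]]

noncomputable def f_B00mm_012_s3 : ℕ → ℕ → ℕ → ℕ → Bool := onCell 0 536870912 0 536870912 335544320 67108864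
    (rowF 0 false false false .pnp 0 1 2 (qsf 0 536870912 0 536870912 1) ndF0q0 ndF0q2 pcF1 cut_B00mm_012_s3 Ext.none)

def k0_B00mm_012_s3 : ∃ t, chk3 f_B00mm_012_s3 t 1 1 1 = true :=
  ⟨(l 5), by decide +kernel⟩

theorem c_B00mm_012_s3 : CertF 0 536870912 0 536870912 335544320 67108864 false false false .pnp 0 1 2
    ndF0q0 ndF0q2 pcF1 cut_B00mm_012_s3 Ext.none :=
  certF0 (fam := false) (s1 := false) (s2 := false) (a := 0) (b := 1) (c := 2) (cn := .pnp) (n1 := ndF0q0) (n2 := ndF0q2) (pc := pcF1) (cut := cut_B00mm_012_s3) (xt := Ext.none) (P1 := 0) (W1 := 536870912) (P2 := 0) (W2 := 536870912) (P3 := 335544320) (W3 := 67108864)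
    rfl k0_B00mm_012_s3

theorem s_B00mm_012_s3 {κ x : ℝ} (hκ : κ * h0 = ken x) (hx : ((335544320 : ℕ) : ℝ) / S ≤ x)
    (hx' : x ≤ (((335544320 : ℕ) : ℝ) + (67108864 : ℕ)) / S) :
    AltB (VF κ) PP tKF tL pcF [⟨4, 0, 0, 2845415833⟩] 0 1 2 0 0 (sgb false) (sgb false) x :=
  strip_altB (m := 2845415833) false rfl hκ covF00 covF02 hx hx' c_B00mm_012_s3 cutB_nil (noExt_B)

noncomputable def cut_B00mm_022_s1 : Cut := Cut.of [[⟨4, 0, 0, 1449551462⟩]]

noncomputable def f_B00mm_022_s1 : ℕ → ℕ → ℕ → ℕ → Bool := onCell 0 536870912 0 536870912 335544320 67108864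
    (rowF 0 false false false .pp 0 2 2 (qsf 0 536870912 0 536870912 2) ndF0q0 ndF0q2 pcF2 cut_B00mm_022_s1 Ext.none)

def k0_B00mm_022_s1 : ∃ t, chk3 f_B00mm_022_s1 t 1 1 1 = true :=
  ⟨(l 5), by decide +kernel⟩

theorem c_B00mm_022_s1 : CertF 0 536870912 0 536870912 335544320 67108864 false false false .pp 0 2 2
    ndF0q0 ndF0q2 pcF2 cut_B00mm_022_s1 Ext.none :=
  certF0 (fam := false) (s1 := false) (s2 := false) (a := 0) (b := 2) (c := 2) (cn := .pp) (n1 := ndF0q0) (n2 := ndF0q2) (pc := pcF2) (cut := cut_B00mm_022_s1) (xt := Ext.none) (P1 := 0) (W1 := 536870912) (P2 := 0) (W2 := 536870912) (P3 := 335544320) (W3 := 67108864)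
    rfl k0_B00mm_022_s1

theorem s_B00mm_022_s1 {κ x : ℝ} (hκ : κ * h0 = ken x) (hx : ((335544320 : ℕ) : ℝ) / S ≤ x)
    (hx' : x ≤ (((335544320 : ℕ) : ℝ) + (67108864 : ℕ)) / S) :
    AltB (VF κ) PP tKF tL pcF [⟨3, 0, 0, 1449551462⟩] 0 2 2 0 0 (sgb false) (sgb false) x :=
  strip_altB (m := 1449551462) true rfl hκ covF00 covF02 hx hx' c_B00mm_022_s1 cutB_nil (noExt_B)

noncomputable def cut_B00mm_022_s3 : Cut := Cut.of [[⟨3, 0, 0, 2845415833⟩]]

noncomputable def f_B00mm_022_s3 : ℕ → ℕ → ℕ → ℕ → Bool := onCell 0 536870912 0 536870912 335544320 67108864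
    (rowF 0 false false false .pp 0 2 2 (qsf 0 536870912 0 536870912 2) ndF0q0 ndF0q2 pcF2 cut_B00mm_022_s3 Ext.none)

def k0_B00mm_022_s3 : ∃ t, chk3 f_B00mm_022_s3 t 1 1 1 = true :=
  ⟨(l 5), by decide +kernel⟩

theorem c_B00mm_022_s3 : CertF 0 536870912 0 536870912 335544320 67108864 false false false .pp 0 2 2
    ndF0q0 ndF0q2 pcF2 cut_B00mm_022_s3 Ext.none :=
  certF0 (fam := false) (s1 := false) (s2 := false) (a := 0) (b := 2) (c := 2) (cn := .pp) (n1 := ndF0q0) (n2 := ndF0q2) (pc := pcF2) (cut := cut_B00mm_022_s3) (xt := Ext.none) (P1 := 0) (W1 := 536870912) (P2 := 0) (W2 := 536870912) (P3 := 335544320) (W3 := 67108864)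
    rfl k0_B00mm_022_s3

theorem s_B00mm_022_s3 {κ x : ℝ} (hκ : κ * h0 = ken x) (hx : ((335544320 : ℕ) : ℝ) / S ≤ x)
    (hx' : x ≤ (((335544320 : ℕ) : ℝ) + (67108864 : ℕ)) / S) :
    AltB (VF κ) PP tKF tL pcF [⟨4, 0, 0, 2845415833⟩] 0 2 2 0 0 (sgb false) (sgb false) x :=
  strip_altB (m := 2845415833) false rfl hκ covF00 covF02 hx hx' c_B00mm_022_s3 cutB_nil (noExt_B)

noncomputable def cut_B00mm_101_s1 : Cut := Cut.of [[⟨4, 0, 0, 1449551462⟩]]

noncomputable def f_B00mm_101_s1 : ℕ → ℕ → ℕ → ℕ → Bool := onCell 536870912 536870912 536870912 536870912 335544320 67108864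
    (rowF 0 false false false .npn 1 0 1 (qsf 536870912 536870912 536870912 536870912 0) ndF0q1 ndF0q1 pcF0 cut_B00mm_101_s1 Ext.none)

def k0_B00mm_101_s1 : ∃ t, chk3 f_B00mm_101_s1 t 1 1 1 = true :=
  ⟨(l 3), by decide +kernel⟩

theorem c_B00mm_101_s1 : CertF 536870912 536870912 536870912 536870912 335544320 67108864 false false false .npn 1 0 1
    ndF0q1 ndF0q1 pcF0 cut_B00mm_101_s1 Ext.none :=
  certF0 (fam := false) (s1 := false) (s2 := false) (a := 1) (b := 0) (c := 1) (cn := .npn) (n1 := ndF0q1) (n2 := ndF0q1) (pc := pcF0) (cut := cut_B00mm_101_s1) (xt := Ext.none) (P1 := 536870912) (W1 := 536870912) (P2 := 536870912) (W2 := 536870912) (P3 := 335544320) (W3 := 67108864)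
    rfl k0_B00mm_101_s1

theorem s_B00mm_101_s1 {κ x : ℝ} (hκ : κ * h0 = ken x) (hx : ((335544320 : ℕ) : ℝ) / S ≤ x)
    (hx' : x ≤ (((335544320 : ℕ) : ℝ) + (67108864 : ℕ)) / S) :
    AltB (VF κ) PP tKF tL pcF [⟨3, 0, 0, 1449551462⟩] 1 0 1 0 0 (sgb false) (sgb false) x :=
  strip_altB (m := 1449551462) true rfl hκ covF01 covF01 hx hx' c_B00mm_101_s1 cutB_nil (noExt_B)

noncomputable def cut_B00mm_101_s3 : Cut := Cut.of [[⟨3, 0, 0, 2845415833⟩]]

noncomputable def f_B00mm_101_s3 : ℕ → ℕ → ℕ → ℕ → Bool := onCell 536870912 536870912 536870912 536870912 335544320 67108864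
    (rowF 0 false false false .npn 1 0 1 (qsf 536870912 536870912 536870912 536870912 0) ndF0q1 ndF0q1 pcF0 cut_B00mm_101_s3 Ext.none)

def k0_B00mm_101_s3 : ∃ t, chk3 f_B00mm_101_s3 t 1 1 1 = true :=
  ⟨(l 3), by decide +kernel⟩

theorem c_B00mm_101_s3 : CertF 536870912 536870912 536870912 536870912 335544320 67108864 false false false .npn 1 0 1
    ndF0q1 ndF0q1 pcF0 cut_B00mm_101_s3 Ext.none :=
  certF0 (fam := false) (s1 := false) (s2 := false) (a := 1) (b := 0) (c := 1) (cn := .npn) (n1 := ndF0q1) (n2 := ndF0q1) (pc := pcF0) (cut := cut_B00mm_101_s3) (xt := Ext.none) (P1 := 536870912) (W1 := 536870912) (P2 := 536870912) (W2 := 536870912) (P3 := 335544320) (W3 := 67108864)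
    rfl k0_B00mm_101_s3

theorem s_B00mm_101_s3 {κ x : ℝ} (hκ : κ * h0 = ken x) (hx : ((335544320 : ℕ) : ℝ) / S ≤ x)
    (hx' : x ≤ (((335544320 : ℕ) : ℝ) + (67108864 : ℕ)) / S) :
    AltB (VF κ) PP tKF tL pcF [⟨4, 0, 0, 2845415833⟩] 1 0 1 0 0 (sgb false) (sgb false) x :=
  strip_altB (m := 2845415833) false rfl hκ covF01 covF01 hx hx' c_B00mm_101_s3 cutB_nil (noExt_B)

noncomputable def cut_B00mm_102_s1 : Cut := Cut.of [[⟨4, 0, 0, 1449551462⟩]]

noncomputable def f_B00mm_102_s1 : ℕ → ℕ → ℕ → ℕ → Bool := onCell 536870912 536870912 0 536870912 335544320 67108864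
    (rowF 0 false false false .npp 1 0 2 (qsf 536870912 536870912 0 536870912 0) ndF0q1 ndF0q2 pcF0 cut_B00mm_102_s1 Ext.none)

def k0_B00mm_102_s1 : ∃ t, chk3 f_B00mm_102_s1 t 1 1 1 = true :=
  ⟨(a (l 5) (l 3)), by decide +kernel⟩

theorem c_B00mm_102_s1 : CertF 536870912 536870912 0 536870912 335544320 67108864 false false false .npp 1 0 2
    ndF0q1 ndF0q2 pcF0 cut_B00mm_102_s1 Ext.none :=
  certF0 (fam := false) (s1 := false) (s2 := false) (a := 1) (b := 0) (c := 2) (cn := .npp) (n1 := ndF0q1) (n2 := ndF0q2) (pc := pcF0) (cut := cut_B00mm_102_s1) (xt := Ext.none) (P1 := 536870912) (W1 := 536870912) (P2 := 0) (W2 := 536870912) (P3 := 335544320) (W3 := 67108864)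
    rfl k0_B00mm_102_s1

theorem s_B00mm_102_s1 {κ x : ℝ} (hκ : κ * h0 = ken x) (hx : ((335544320 : ℕ) : ℝ) / S ≤ x)
    (hx' : x ≤ (((335544320 : ℕ) : ℝ) + (67108864 : ℕ)) / S) :
    AltB (VF κ) PP tKF tL pcF [⟨3, 0, 0, 1449551462⟩] 1 0 2 0 0 (sgb false) (sgb false) x :=
  strip_altB (m := 1449551462) true rfl hκ covF01 covF02 hx hx' c_B00mm_102_s1 cutB_nil (noExt_B)

noncomputable def cut_B00mm_102_s3 : Cut := Cut.of [[⟨3, 0, 0, 2845415833⟩]]

noncomputable def f_B00mm_102_s3 : ℕ → ℕ → ℕ → ℕ → Bool := onCell 536870912 536870912 0 536870912 335544320 67108864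
    (rowF 0 false false false .npp 1 0 2 (qsf 536870912 536870912 0 536870912 0) ndF0q1 ndF0q2 pcF0 cut_B00mm_102_s3 Ext.none)

def k0_B00mm_102_s3 : ∃ t, chk3 f_B00mm_102_s3 t 1 1 1 = true :=
  ⟨(l 6), by decide +kernel⟩

theorem c_B00mm_102_s3 : CertF 536870912 536870912 0 536870912 335544320 67108864 false false false .npp 1 0 2
    ndF0q1 ndF0q2 pcF0 cut_B00mm_102_s3 Ext.none :=
  certF0 (fam := false) (s1 := false) (s2 := false) (a := 1) (b := 0) (c := 2) (cn := .npp) (n1 := ndF0q1) (n2 := ndF0q2) (pc := pcF0) (cut := cut_B00mm_102_s3) (xt := Ext.none) (P1 := 536870912) (W1 := 536870912) (P2 := 0) (W2 := 536870912) (P3 := 335544320) (W3 := 67108864)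
    rfl k0_B00mm_102_s3

theorem s_B00mm_102_s3 {κ x : ℝ} (hκ : κ * h0 = ken x) (hx : ((335544320 : ℕ) : ℝ) / S ≤ x)
    (hx' : x ≤ (((335544320 : ℕ) : ℝ) + (67108864 : ℕ)) / S) :
    AltB (VF κ) PP tKF tL pcF [⟨4, 0, 0, 2845415833⟩] 1 0 2 0 0 (sgb false) (sgb false) x :=
  strip_altB (m := 2845415833) false rfl hκ covF01 covF02 hx hx' c_B00mm_102_s3 cutB_nil (noExt_B)

noncomputable def cut_B00mm_112_s1 : Cut := Cut.of [[⟨4, 0, 0, 1449551462⟩]]

noncomputable def f_B00mm_112_s1 : ℕ → ℕ → ℕ → ℕ → Bool := onCell 536870912 536870912 0 536870912 335544320 67108864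
    (rowF 2 false false false .dn 1 1 2 (qsf 536870912 536870912 0 536870912 1) ndF0q1 ndF0q2 pcF1 cut_B00mm_112_s1 Ext.none)

def k0_B00mm_112_s1 : ∃ t, chk3 f_B00mm_112_s1 t 1 1 1 = true :=
  ⟨(l 5), by decide +kernel⟩

theorem c_B00mm_112_s1 : CertF 536870912 536870912 0 536870912 335544320 67108864 false false false .dn 1 1 2
    ndF0q1 ndF0q2 pcF1 cut_B00mm_112_s1 Ext.none :=
  certF2 (fam := false) (s1 := false) (s2 := false) (a := 1) (b := 1) (c := 2) (cn := .dn) (n1 := ndF0q1) (n2 := ndF0q2) (pc := pcF1) (cut := cut_B00mm_112_s1) (xt := Ext.none) (P1 := 536870912) (W1 := 536870912) (P2 := 0) (W2 := 536870912) (P3 := 335544320) (W3 := 67108864)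
    rfl (fun _ => rfl) k0_B00mm_112_s1

theorem s_B00mm_112_s1 {κ x : ℝ} (hκ : κ * h0 = ken x) (hx : ((335544320 : ℕ) : ℝ) / S ≤ x)
    (hx' : x ≤ (((335544320 : ℕ) : ℝ) + (67108864 : ℕ)) / S) :
    AltB (VF κ) PP tKF tL pcF [⟨3, 0, 0, 1449551462⟩] 1 1 2 0 0 (sgb false) (sgb false) x :=
  strip_altB (m := 1449551462) true rfl hκ covF01 covF02 hx hx' c_B00mm_112_s1 cutB_nil (noExt_B)

noncomputable def cut_B00mm_112_s3 : Cut := Cut.of [[⟨3, 0, 0, 2845415833⟩]]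

noncomputable def f_B00mm_112_s3 : ℕ → ℕ → ℕ → ℕ → Bool := onCell 536870912 536870912 0 536870912 335544320 67108864
    (rowF 0 false false false .dn 1 1 2 (qsf 536870912 536870912 0 536870912 1) ndF0q1 ndF0q2 pcF1 cut_B00mm_112_s3 Ext.none)

def k0_B00mm_112_s3 : ∃ t, chk3 f_B00mm_112_s3 t 1 1 1 = true :=
  ⟨(l 6), by decide +kernel⟩

theorem c_B00mm_112_s3 : CertF 536870912 536870912 0 536870912 335544320 67108864 false false false .dn 1 1 2
    ndF0q1 ndF0q2 pcF1 cut_B00mm_112_s3 Ext.none :=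
  certF0 (fam := false) (s1 := false) (s2 := false) (a := 1) (b := 1) (c := 2) (cn := .dn) (n1 := ndF0q1) (n2 := ndF0q2) (pc := pcF1) (cut := cut_B00mm_112_s3) (xt := Ext.none) (P1 := 536870912) (W1 := 536870912) (P2 := 0) (W2 := 536870912) (P3 := 335544320) (W3 := 67108864)
    rfl k0_B00mm_112_s3

theorem s_B00mm_112_s3 {κ x : ℝ} (hκ : κ * h0 = ken x) (hx : ((335544320 : ℕ) : ℝ) / S ≤ x)
    (hx' : x ≤ (((335544320 : ℕ) : ℝ) + (67108864 : ℕ)) / S) :
    AltB (VF κ) PP tKF tL pcF [⟨4, 0, 0, 2845415833⟩] 1 1 2 0 0 (sgb false) (sgb false) x :=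
  strip_altB (m := 2845415833) false rfl hκ covF01 covF02 hx hx' c_B00mm_112_s3 cutB_nil (noExt_B)

noncomputable def cut_B00mm_202_s1 : Cut := Cut.of [[⟨4, 0, 0, 1449551462⟩]]

noncomputable def f_B00mm_202_s1 : ℕ → ℕ → ℕ → ℕ → Bool := onCell 0 536870912 0 536870912 335544320 67108864
    (rowF 0 false false false .pp 2 0 2 (qsf 0 536870912 0 536870912 0) ndF0q2 ndF0q2 pcF0 cut_B00mm_202_s1 Ext.none)

def k0_B00mm_202_s1 : ∃ t, chk3 f_B00mm_202_s1 t 1 1 1 = true :=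
  ⟨(l 3), by decide +kernel⟩

theorem c_B00mm_202_s1 : CertF 0 536870912 0 536870912 335544320 67108864 false false false .pp 2 0 2
    ndF0q2 ndF0q2 pcF0 cut_B00mm_202_s1 Ext.none :=
  certF0 (fam := false) (s1 := false) (s2 := false) (a := 2) (b := 0) (c := 2) (cn := .pp) (n1 := ndF0q2) (n2 := ndF0q2) (pc := pcF0) (cut := cut_B00mm_202_s1) (xt := Ext.none) (P1 := 0) (W1 := 536870912) (P2 := 0) (W2 := 536870912) (P3 := 335544320) (W3 := 67108864)
    rfl k0_B00mm_202_s1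

theorem s_B00mm_202_s1 {κ x : ℝ} (hκ : κ * h0 = ken x) (hx : ((335544320 : ℕ) : ℝ) / S ≤ x)
    (hx' : x ≤ (((335544320 : ℕ) : ℝ) + (67108864 : ℕ)) / S) :
    AltB (VF κ) PP tKF tL pcF [⟨3, 0, 0, 1449551462⟩] 2 0 2 0 0 (sgb false) (sgb false) x :=
  strip_altB (m := 1449551462) true rfl hκ covF02 covF02 hx hx' c_B00mm_202_s1 cutB_nil (noExt_B)

noncomputable def cut_B00mm_202_s3 : Cut := Cut.of [[⟨3, 0, 0, 2845415833⟩]]

noncomputable def f_B00mm_202_s3 : ℕ → ℕ → ℕ → ℕ → Bool := onCell 0 536870912 0 536870912 335544320 67108864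
    (rowF 0 false false false .pp 2 0 2 (qsf 0 536870912 0 536870912 0) ndF0q2 ndF0q2 pcF0 cut_B00mm_202_s3 Ext.none)

def k0_B00mm_202_s3 : ∃ t, chk3 f_B00mm_202_s3 t 1 1 1 = true :=
  ⟨(l 3), by decide +kernel⟩

theorem c_B00mm_202_s3 : CertF 0 536870912 0 536870912 335544320 67108864 false false false .pp 2 0 2
    ndF0q2 ndF0q2 pcF0 cut_B00mm_202_s3 Ext.none :=
  certF0 (fam := false) (s1 := false) (s2 := false) (a := 2) (b := 0) (c := 2) (cn := .pp) (n1 := ndF0q2) (n2 := ndF0q2) (pc := pcF0) (cut := cut_B00mm_202_s3) (xt := Ext.none) (P1 := 0) (W1 := 536870912) (P2 := 0) (W2 := 536870912) (P3 := 335544320) (W3 := 67108864)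
    rfl k0_B00mm_202_s3

theorem s_B00mm_202_s3 {κ x : ℝ} (hκ : κ * h0 = ken x) (hx : ((335544320 : ℕ) : ℝ) / S ≤ x)
    (hx' : x ≤ (((335544320 : ℕ) : ℝ) + (67108864 : ℕ)) / S) :
    AltB (VF κ) PP tKF tL pcF [⟨4, 0, 0, 2845415833⟩] 2 0 2 0 0 (sgb false) (sgb false) x :=
  strip_altB (m := 2845415833) false rfl hκ covF02 covF02 hx hx' c_B00mm_202_s3 cutB_nil (noExt_B)

noncomputable def cut_B04pp_001_s1 : Cut := Cut.of [[⟨4, 0, 0, 1449551462⟩]]

noncomputable def f_B04pp_001_s1 : ℕ → ℕ → ℕ → ℕ → Bool := onCell 0 536870912 0 536870912 335544320 67108864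
    (rowF 1 false true true .up 0 0 1 (qsf 0 536870912 536870912 536870912 0) ndF0q0 ndF4q1 pcF0 cut_B04pp_001_s1 Ext.none)

def k0_B04pp_001_s1 : ∃ t, chk3 f_B04pp_001_s1 t 1 1 1 = true :=
  ⟨(l 3), by decide +kernel⟩

theorem c_B04pp_001_s1 : CertF 0 536870912 536870912 536870912 335544320 67108864 false true true .up 0 0 1
    ndF0q0 ndF4q1 pcF0 cut_B04pp_001_s1 Ext.none :=
  certF1 (fam := false) (s1 := true) (s2 := true) (a := 0) (b := 0) (c := 1) (cn := .up) (n1 := ndF0q0) (n2 := ndF4q1) (pc := pcF0) (cut := cut_B04pp_001_s1) (xt := Ext.none) (P1 := 0) (W1 := 536870912) (P2 := 536870912) (W2 := 536870912) (P3 := 335544320) (W3 := 67108864)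
    rfl (fun _ => rfl) k0_B04pp_001_s1

theorem s_B04pp_001_s1 {κ x : ℝ} (hκ : κ * h0 = ken x) (hx : ((335544320 : ℕ) : ℝ) / S ≤ x)
    (hx' : x ≤ (((335544320 : ℕ) : ℝ) + (67108864 : ℕ)) / S) :
    AltB (VF κ) PP tKF tL pcF [⟨3, 0, 0, 1449551462⟩] 0 0 1 0 4 (sgb true) (sgb true) x :=
  strip_altB (m := 1449551462) true rfl hκ covF00 covF41 hx hx' c_B04pp_001_s1 cutB_nil (noExt_B)

noncomputable def cut_B04pp_011_s1 : Cut := Cut.of [[⟨4, 0, 0, 1449551462⟩], [⟨0, 0, 0, 67108864⟩, ⟨1, 1, 0, 67108864⟩, ⟨2, 1, 0, 67108864⟩]]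

noncomputable def f_B04pp_011_s1 : ℕ → ℕ → ℕ → ℕ → Bool := onCell 0 536870912 536870912 536870912 335544320 67108864
    (rowF 1 false true true .pnn 0 1 1 (qsf 0 536870912 536870912 536870912 1) ndF0q0 ndF4q1 pcF1 cut_B04pp_011_s1 Ext.none)

def k0_B04pp_011_s1 : ∃ t, chk3 f_B04pp_011_s1 t 1 1 1 = true :=
  ⟨(b (l 3) (a (b (l 3) (a (b (l 3) (a (b (l 3) (a (l 14) (l 3))) (l 3))) (l 3))) (l 3))), by decide +kernel⟩

theorem c_B04pp_011_s1 : CertF 0 536870912 536870912 536870912 335544320 67108864 false true true .pnn 0 1 1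
    ndF0q0 ndF4q1 pcF1 cut_B04pp_011_s1 Ext.none :=
  certF1 (fam := false) (s1 := true) (s2 := true) (a := 0) (b := 1) (c := 1) (cn := .pnn) (n1 := ndF0q0) (n2 := ndF4q1) (pc := pcF1) (cut := cut_B04pp_011_s1) (xt := Ext.none) (P1 := 0) (W1 := 536870912) (P2 := 536870912) (W2 := 536870912) (P3 := 335544320) (W3 := 67108864)
    rfl (fun _ => rfl) k0_B04pp_011_s1

theorem s_B04pp_011_s1 {κ x : ℝ} (hκ : κ * h0 = ken x) (hx : ((335544320 : ℕ) : ℝ) / S ≤ x)
    (hx' : x ≤ (((335544320 : ℕ) : ℝ) + (67108864 : ℕ)) / S)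
    (H : CutB (VF κ) PP tKF tL pcF (Cut.of [[⟨0, 0, 0, 67108864⟩, ⟨1, 1, 0, 67108864⟩, ⟨2, 1, 0, 67108864⟩]]) 0 1 1 0 4 (sgb true) (sgb true) x) :
    AltB (VF κ) PP tKF tL pcF [⟨3, 0, 0, 1449551462⟩] 0 1 1 0 4 (sgb true) (sgb true) x :=
  strip_altB (m := 1449551462) true rfl hκ covF00 covF41 hx hx' c_B04pp_011_s1 H (noExt_B)

noncomputable def cut_B04pp_012_s1 : Cut := Cut.of [[⟨4, 0, 0, 1449551462⟩], [⟨0, 0, 0, 67108864⟩, ⟨1, 1, 0, 67108864⟩, ⟨2, 1, 0, 67108864⟩]]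

noncomputable def f_B04pp_012_s1 : ℕ → ℕ → ℕ → ℕ → Bool := onCell 0 536870912 536870912 536870912 335544320 67108864
    (rowF 1 false true true .pnp 0 1 2 (qsf 0 536870912 1073741824 536870912 1) ndF0q0 ndF4q2 pcF1 cut_B04pp_012_s1 Ext.none)

def k0_B04pp_012_s1 : ∃ t, chk3 f_B04pp_012_s1 t 1 1 1 = true :=
  ⟨(b (l 3) (a (b (l 3) (a (a (a (b (l 1) (b (l 3) (l 14))) (l 3)) (l 3)) (l 3))) (l 3))), by decide +kernel⟩

theorem c_B04pp_012_s1 : CertF 0 536870912 1073741824 536870912 335544320 67108864 false true true .pnp 0 1 2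
    ndF0q0 ndF4q2 pcF1 cut_B04pp_012_s1 Ext.none :=
  certF1 (fam := false) (s1 := true) (s2 := true) (a := 0) (b := 1) (c := 2) (cn := .pnp) (n1 := ndF0q0) (n2 := ndF4q2) (pc := pcF1) (cut := cut_B04pp_012_s1) (xt := Ext.none) (P1 := 0) (W1 := 536870912) (P2 := 1073741824) (W2 := 536870912) (P3 := 335544320) (W3 := 67108864)
    rfl (fun _ => rfl) k0_B04pp_012_s1

theorem s_B04pp_012_s1 {κ x : ℝ} (hκ : κ * h0 = ken x) (hx : ((335544320 : ℕ) : ℝ) / S ≤ x)
    (hx' : x ≤ (((335544320 : ℕ) : ℝ) + (67108864 : ℕ)) / S)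
    (H : CutB (VF κ) PP tKF tL pcF (Cut.of [[⟨0, 0, 0, 67108864⟩, ⟨1, 1, 0, 67108864⟩, ⟨2, 1, 0, 67108864⟩]]) 0 1 2 0 4 (sgb true) (sgb true) x) :
    AltB (VF κ) PP tKF tL pcF [⟨3, 0, 0, 1449551462⟩] 0 1 2 0 4 (sgb true) (sgb true) x :=
  strip_altB (m := 1449551462) true rfl hκ covF00 covF42 hx hx' c_B04pp_012_s1 H (noExt_B)

noncomputable def cut_B04pp_022_s1 : Cut := Cut.of [[⟨4, 0, 0, 1449551462⟩], [⟨0, 0, 0, 67108864⟩, ⟨1, 1, 0, 67108864⟩, ⟨2, 1, 0, 67108864⟩]]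

noncomputable def xt_B04pp_022_s1 : Ext := strExt dd false true true .u0 .s2 .u2 .pp 0 2 2 rfl rfl gf2 vv ndF0q0 ndF4q2

noncomputable def f_B04pp_022_s1 : ℕ → ℕ → ℕ → ℕ → Bool := onCell 0 536870912 1073741824 536870912 335544320 67108864
    (rowF 1 false true true .pp 0 2 2 (qsf 0 536870912 1073741824 536870912 2) ndF0q0 ndF4q2 pcF2 cut_B04pp_022_s1 xt_B04pp_022_s1)

def k0_B04pp_022_s1 : ∃ t, chk3 f_B04pp_022_s1 t 8 8 1 = true :=
  ⟨(b (a (b (l 14) (a (l 14) (a (l 14) (a (l 14) (b (l 14) (a (l 14) (l 527029631))))))) (a (a (b (l 14) (a (b (l 14) (a (l 526243455) (l 525994111))) (b (a (l 14) (l 525923967)) (a (l 526013311) (l 526032511))))) (b (l 3) (a (b (b (l 527014271) (l 526795135)) (a (l 526051711) (l 526070911))) (b (c (l 527355775) (l 527009919)) (l 527700607))))) (b (l 3) (a (b (a (l 527631487) (l 3)) (a (l 526935935) (l 526171263))) (b (l 3) (a (l 526211967) (l 526252671))))))) (a (a (b (a (l 14) (b (l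 14) (a (l 14) (l 16709520)))) (a (a (l 16696816) (l 16700840)) (a (l 16704840) (l 16708856)))) (b (a (a (b (l 14) (l 16713280)) (b (l 16741832) (l 16716960))) (b (b (a (l 16738576) (l 16742152)) (l 16733168)) (a (l 16720608) (l 16724216)))) (b (a (l 16700744) (l 16708152)) (a (l 16686520) (l 16693984))))) (b (a (a (b (b (a (l 16745696) (l 16759680)) (l 16750760)) (c (l 16740176) (l 16750320))) (a (b (b (l 16763144) (l 16745512)) (l 16755792)) (b (l 527262847) (l 16748760)))) (a (b (a (l 526229887) (l 526270591)) (b (l 16757424) (l 16760840))) (a (b (l 526311551) (l 526407039)) (b (l 526352511) (l 526448255))))) (a (a (b (l 16736320) (l 16701240)) (b (l 16743368) (l 16708344))) (a (b (l 16750272) (l 16715304)) (a (l 527604095) (l 527108223))))))), by decide +kernel⟩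

def k1_B04pp_022_s1 : ∃ t, chk3 f_B04pp_022_s1 t 9 8 1 = true :=
  ⟨(a (b (b (l 3) (a (a (b (l 3) (a (l 526293887) (l 3))) (l 3)) (l 3))) (a (b (a (b (a (l 526393983) (l 526435711)) (l 527835519)) (b (l 526753919) (l 526581887))) (a (b (l 527660927) (l 16749744)) (b (l 526675839) (l 16756256)))) (b (a (b (l 526573951) (l 526670463)) (b (l 3) (l 526760319))) (a (l 527866239) (l 527150207))))) (b (l 3) (a (b (a (b (l 3) (l 526851455)) (l 528466559)) (a (l 526972031) (l 527064191))) (b (l 3) (a (l 527157887) (l 527253375)))))), by decide +kernel⟩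

def k2_B04pp_022_s1 : ∃ t, chk3 f_B04pp_022_s1 t 4 9 1 = true :=
  ⟨(a (b (a (a (a (b (l 16690664) (l 16619600)) (b (l 16698848) (l 16627960))) (b (a (l 16706984) (l 16714680)) (l 16682288))) (b (a (a (l 16701184) (l 16708360)) (b (l 16725800) (l 16712024))) (a (l 16697856) (l 16712408)))) (a (a (a (l 16617144) (l 16625696)) (a (l 16634160) (l 16642544))) (b (a (l 16669976) (l 16685048)) (a (l 16598832) (l 16699320))))) (b (a (a (b (b (l 16739240) (l 16725592)) (l 16726160)) (a (b (l 528055423) (l 16736160)) (b (l 527339391) (l 16742600)))) (a (a (b (l 527161471) (l 16748896)) (b (l 527254655) (l 16734080))) (b (a (l 527347583) (l 527442303)) (b (l 16749584) (l 16757504))))) (b (a (a (l 16699280) (l 16712640)) (a (l 16725432) (l 16737640))) (b (a (l 16685824) (l 16711624)) (a (l 16672456) (l 16740416)))))), by decide +kernel⟩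

def k3_B04pp_022_s1 : ∃ t, chk3 f_B04pp_022_s1 t 5 4 1 = true :=
  ⟨(a (b (b (l 3) (a (b (l 3) (a (l 528191871) (l 3))) (l 3))) (b (a (b (a (l 528916351) (l 528048767)) (a (l 529084543) (l 528482431))) (b (a (l 527993471) (l 528214911)) (a (l 528419967) (l 528369535)))) (b (a (a (l 16738792) (l 529668111)) (a (l 529568127) (l 529740927))) (a (a (l 16764624) (l 16733712)) (b (l 16745312) (l 16784264)))))) (b (l 3) (b (b (l 3) (a (a (l 528595583) (b (l 528783231) (l 528886399))) (b (l 3) (l 529533823)))) (b (a (a (l 530132095) (l 530292495)) (l 529541247)) (a (b (a (l 16812080) (l 16779152)) (a (l 16714880) (l 16807960))) (b (l 529904255) (l 529595263))))))), by decide +kernel⟩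

def k4_B04pp_022_s1 : ∃ t, chk3 f_B04pp_022_s1 t 2 5 1 = true :=
  ⟨(b (a (b (b (a (a (a (l 16534432) (l 16551664)) (l 16639688)) (a (b (l 16658928) (l 16686104)) (b (l 16643696) (l 16714504)))) (a (a (b (l 16518912) (l 16541544)) (b (l 16552744) (l 16574656))) (a (b (l 16585464) (l 16648624)) (b (l 16700408) (b (l 16602920) (l 16590520)))))) (a (a (l 16527792) (l 16541088)) (a (l 16574488) (l 16606784)))) (b (b (a (a (a (l 16738656) (l 16749504)) (b (l 16771192) (l 16758480))) (a (b (l 16790328) (l 16777920)) (b (l 529953919) (c (l 16739040) (l 16798784))))) (b (a (a (l 16725472) (l 16746320)) (a (l 16766040) (l 16801352))) (b (a (a (l 16631552) (l 16654224)) (a (l 16674128) (l 16718696))) (b (b (a (a (l 16625832) (l 16650720)) (a (l 16671272) (l 16719632))) (a (b (l 16698744) (l 16696952)) (a (l 16670256) (l 16720080)))) (a (a (l 16616168) (l 16644600)) (a (l 16668616) (l 16720832))))))) (a (a (l 16639488) (l 16668768))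 (a (l 16714480) (b (l 16726832) (l 16742792)))))) (a (a (a (b (l 16504728) (l 16382376)) (b (l 16542896) (l 16424888))) (b (a (l 16580448) (l 16534424)) (a (l 16468208) (l 16509552)))) (a (b (a (l 16569968) (l 16637056)) (a (l 16609008) (l 16716880))) (b (a (l 16722360) (l 16775792)) (l 16810184))))), by decide +kernel⟩

def k5_B04pp_022_s1 : ∃ t, chk3 f_B04pp_022_s1 t 2 3 1 = true :=
  ⟨(b (a (b (a (b (a (l 16349928) (l 16398416)) (a (l 16324576) (l 16379360))) (b (a (l 16446288) (l 16587552)) (a (l 16571240) (l 16720768)))) (a (l 6) (b (l 16789376) (l 6)))) (b (a (a (l 16767808) (l 16841208)) (b (l 16872824) (l 16934896))) (a (b (l 16936448) (l 6)) (l 17020624)))) (l 6)), by decide +kernel⟩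

def k6_B04pp_022_s1 : ∃ t, chk3 f_B04pp_022_s1 t 3 1 1 = true :=
  ⟨(b (b (b (l 3) (a (b (l 3) (a (b (a (a (l 529384319) (b (l 3) (a (l 529485951) (l 530315391)))) (l 3)) (a (b (a (l 529073279) (a (l 530516095) (l 531428479))) (a (l 530215295) (l 532024191))) (b (l 533457023) (l 534288255)))) (b (l 3) (b (l 3) (a (l 536578943) (l 3)))))) (l 3))) (b (b (a (b (a (a (b (a (l 16748992) (l 16781872)) (a (l 16746768) (l 16759616))) (b (l 535044479) (l 535732095))) (b (a (l 537135231) (l 538667903)) (a (b (l 537517183) (l 537758079)) (b (l 538949759) (l 539128703))))) (a (a (b (a (l 16746992) (l 16760528)) (b (l 16756080) (b (l 16757368) (l 16758368)))) (b (a (l 16770320) (l 16777088)) (b (l 16776608) (b (l 16778160) (l 16779264))))) (b (b (a (l 537988223) (l 539300991)) (a (l 539282815) (a (l 16786432) (l 2)))) (a (b (a (l 16784712) (l 16787712)) (b (a (l 16786520) (l 16789696)) (l 16789560))) (a (b (l 16789280) (b (l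 16791440) (l 16792792))) (l 2)))))) (b (b (b (l 3) (l 2)) (l 2)) (l 2))) (a (a (a (b (l 16764168) (l 16778832)) (b (l 16785272) (l 16799568))) (a (b (l 16796000) (l 16810432)) (b (l 16800224) (l 2)))) (l 2))) (a (b (a (a (l 16808408) (l 16827280)) (a (l 16837264) (l 2))) (a (l 16864712) (l 2))) (l 2)))) (a (b (b (a (b (l 16913720) (l 2)) (l 2)) (l 2)) (l 2)) (l 2))), by decide +kernel⟩

theorem t7_B04pp_022_s1 : ∃ t, chk3 f_B04pp_022_s1 t 4 8 1 = true := ex3_a k0_B04pp_022_s1 k1_B04pp_022_s1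

theorem t8_B04pp_022_s1 : ∃ t, chk3 f_B04pp_022_s1 t 4 4 1 = true := ex3_b t7_B04pp_022_s1 k2_B04pp_022_s1

theorem t9_B04pp_022_s1 : ∃ t, chk3 f_B04pp_022_s1 t 2 4 1 = true := ex3_a t8_B04pp_022_s1 k3_B04pp_022_s1

theorem t10_B04pp_022_s1 : ∃ t, chk3 f_B04pp_022_s1 t 2 2 1 = true := ex3_b t9_B04pp_022_s1 k4_B04pp_022_s1

theorem t11_B04pp_022_s1 : ∃ t, chk3 f_B04pp_022_s1 t 2 1 1 = true := ex3_b t10_B04pp_022_s1 k5_B04pp_022_s1

theorem t12_B04pp_022_s1 : ∃ t, chk3 f_B04pp_022_s1 t 1 1 1 = true := ex3_a t11_B04pp_022_s1 k6_B04pp_022_s1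

theorem c_B04pp_022_s1 : CertF 0 536870912 1073741824 536870912 335544320 67108864 false true true .pp 0 2 2
    ndF0q0 ndF4q2 pcF2 cut_B04pp_022_s1 xt_B04pp_022_s1 :=
  certF1 (fam := false) (s1 := true) (s2 := true) (a := 0) (b := 2) (c := 2) (cn := .pp) (n1 := ndF0q0) (n2 := ndF4q2) (pc := pcF2) (cut := cut_B04pp_022_s1) (xt := xt_B04pp_022_s1) (P1 := 0) (W1 := 536870912) (P2 := 1073741824) (W2 := 536870912) (P3 := 335544320) (W3 := 67108864)
    rfl (fun _ => rfl) t12_B04pp_022_s1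

theorem s_B04pp_022_s1 {κ x : ℝ} (hκ : κ * h0 = ken x) (hx : ((335544320 : ℕ) : ℝ) / S ≤ x)
    (hx' : x ≤ (((335544320 : ℕ) : ℝ) + (67108864 : ℕ)) / S)
    (H : CutB (VF κ) PP tKF tL pcF (Cut.of [[⟨0, 0, 0, 67108864⟩, ⟨1, 1, 0, 67108864⟩, ⟨2, 1, 0, 67108864⟩]]) 0 2 2 0 4 (sgb true) (sgb true) x) :
    AltB (VF κ) PP tKF tL pcF [⟨3, 0, 0, 1449551462⟩] 0 2 2 0 4 (sgb true) (sgb true) x :=
  strip_altB (m := 1449551462) true rfl hκ covF00 covF42 hx hx' c_B04pp_022_s1 H ((okx hx hx').extB (T := tt) (sideF hx hx') hκ rfl rfl (.O 0 true) (.N 2 true) rfl)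

noncomputable def cut_B04pp_023_s1 : Cut := Cut.of [[⟨4, 0, 0, 1449551462⟩]]

noncomputable def xt_B04pp_023_s1 : Ext := strExt dd false true true .u0 .s2 .u2 .up 0 2 3 rfl rfl gf2 vv ndF0q0 ndF4q3

noncomputable def f_B04pp_023_s1 : ℕ → ℕ → ℕ → ℕ → Bool := onCell 1073741824 536870912 0 1230186008 335544320 67108864
    (rowF 2 false true true .up 0 2 3 (qsf 0 536870912 0 1230186008 2) ndF0q0 ndF4q3 pcF2 cut_B04pp_023_s1 xt_B04pp_023_s1)

def k0_B04pp_023_s1 : ∃ t, chk3 f_B04pp_023_s1 t 1 2 1 = true :=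
  ⟨(a (l 2) (a (l 2) (l 6))), by decide +kernel⟩

def k1_B04pp_023_s1 : ∃ t, chk3 f_B04pp_023_s1 t 1 6 1 = true :=
  ⟨(a (a (l 2) (a (l 2) (b (l 2) (b (l 2) (l 215922871191))))) (a (a (b (l 2) (b (l 16918688) (l 16922616))) (b (l 16980984) (b (l 16988664) (l 16999696)))) (l 6))), by decide +kernel⟩

def k2_B04pp_023_s1 : ∃ t, chk3 f_B04pp_023_s1 t 4 7 1 = true :=
  ⟨(b (l 2) (l 3)), by decide +kernel⟩

def k3_B04pp_023_s1 : ∃ t, chk3 f_B04pp_023_s1 t 40 7 1 = true :=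
  ⟨(b (l 3) (b (l 3) (b (a (l 3) (a (l 3) (b (l 540911999) (b (l 540629631) (l 540420223))))) (a (b (l 3) (l 539453311)) (b (l 540059407) (l 539504911)))))), by decide +kernel⟩

def k4_B04pp_023_s1 : ∃ t, chk3 f_B04pp_023_s1 t 41 7 1 = true :=
  ⟨(b (a (l 3) (a (b (l 2) (b (l 2) (a (b (l 3) (l 542107775)) (b (a (l 542145151) (l 542020991)) (a (l 542145663) (l 542031487)))))) (b (l 2) (a (b (l 2) (b (a (l 541851775) (a (l 541690751) (a (l 541586303) (l 16206802887)))) (a (l 541878655) (a (l 541773951) (a (l 16782056) (l 16782320)))))) (b (l 2) (b (a (l 13522444407) (l 16782432)) (l 16783488))))))) (b (a (b (a (l 3) (a (l 541899903) (l 541898111))) (a (l 541415551) (b (l 541597055) (l 541329791)))) (b (a (a (b (l 541961599) (l 541791871)) (b (a (l 541946751) (l 541922687)) (a (l 541781119) (l 541760127)))) (b (a (a (l 541833343) (a (l 16783424) (l 16783952))) (l 16785224)) (a (a (l 16784456) (a (l 16785304) (l 16785816)))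 (l 16787056)))) (c (a (a (l 542680191) (b (l 542748031) (l 16789160))) (b (a (a (l 16788672) (l 16790000)) (l 16791800)) (a (a (l 16791272) (l 16792560)) (l 16794320)))) (a (a (l 540242815) (b (l 540402303) (l 16783984))) (b (a (a (l 16784120) (l 16784920)) (l 16786008)) (a (a (l 16785200) (l 16785936)) (l 16786936))))))) (b (a (a (b (l 540939391) (b (l 540655999) (l 540446591))) (b (a (l 540960639) (l 540975743)) (a (l 540573567) (l 16785688)))) (b (a (a (l 16786104) (l 16788272)) (a (a (l 16789824) (l 16790768)) (l 16792072))) (a (a (l 16787672) (l 16789648)) (a (a (l 16791056) (l 16791928)) (l 16793128))))) (a (a (b (b (l 540217983) (l 16782968)) (l 539544447)) (b (l 540124287) (l 16786640))) (b (a (a (l 16788688) (l 16790432)) (a (a (l 16791680) (l 16792456)) (l 16793536))) (a (a (l 16788840) (l 16790304)) (a (l 16791696) (l 16792944)))))))), by decide +kernel⟩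

def k5_B04pp_023_s1 : ∃ t, chk3 f_B04pp_023_s1 t 21 7 1 = true :=
  ⟨(b (b (a (l 2) (l 212164724423)) (b (a (b (l 2) (l 166530651463)) (l 16808120)) (a (a (b (l 16787336) (l 16788856)) (l 16796976)) (l 16810920)))) (b (b (a (b (l 16773864) (l 16796416)) (l 16813496)) (a (b (l 16797928) (l 16799240)) (l 16815480))) (b (a (b (l 16800232) (l 16800704)) (l 16815776)) (b (l 16806904) (l 16804584))))), by decide +kernel⟩

def k6_B04pp_023_s1 : ∃ t, chk3 f_B04pp_023_s1 t 11 7 1 = true :=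
  ⟨(a (b (b (b (l 16831840) (l 16833776)) (b (l 16836904) (l 16839768))) (b (b (l 16841808) (l 16842528)) (b (l 16840704) (l 16833872)))) (b (b (l 16871592) (l 16878808)) (b (l 16944704) (b (l 16876880) (l 16865944))))), by decide +kernel⟩

def k7_B04pp_023_s1 : ∃ t, chk3 f_B04pp_023_s1 t 3 7 1 = true :=
  ⟨(a (b (a (b (l 16932176) (a (l 16920392) (l 16962520))) (b (l 17013760) (l 17026768))) (b (a (a (l 16922880) (l 16965472)) (l 17029000)) (a (a (l 16909448) (l 16947512)) (l 17007416)))) (l 6)), by decide +kernel⟩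

theorem t8_B04pp_023_s1 : ∃ t, chk3 f_B04pp_023_s1 t 20 7 1 = true := ex3_a k3_B04pp_023_s1 k4_B04pp_023_s1

theorem t9_B04pp_023_s1 : ∃ t, chk3 f_B04pp_023_s1 t 10 7 1 = true := ex3_a t8_B04pp_023_s1 k5_B04pp_023_s1

theorem t10_B04pp_023_s1 : ∃ t, chk3 f_B04pp_023_s1 t 5 7 1 = true := ex3_a t9_B04pp_023_s1 k6_B04pp_023_s1

theorem t11_B04pp_023_s1 : ∃ t, chk3 f_B04pp_023_s1 t 2 7 1 = true := ex3_a k2_B04pp_023_s1 t10_B04pp_023_s1

theorem t12_B04pp_023_s1 : ∃ t, chk3 f_B04pp_023_s1 t 1 7 1 = true := ex3_a t11_B04pp_023_s1 k7_B04pp_023_s1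

theorem t13_B04pp_023_s1 : ∃ t, chk3 f_B04pp_023_s1 t 1 3 1 = true := ex3_b k1_B04pp_023_s1 t12_B04pp_023_s1

theorem t14_B04pp_023_s1 : ∃ t, chk3 f_B04pp_023_s1 t 1 1 1 = true := ex3_b k0_B04pp_023_s1 t13_B04pp_023_s1

theorem c_B04pp_023_s1 : CertF 0 536870912 0 1230186008 335544320 67108864 false true true .up 0 2 3
    ndF0q0 ndF4q3 pcF2 cut_B04pp_023_s1 xt_B04pp_023_s1 :=
  certF2 (fam := false) (s1 := true) (s2 := true) (a := 0) (b := 2) (c := 3) (cn := .up) (n1 := ndF0q0) (n2 := ndF4q3) (pc := pcF2) (cut := cut_B04pp_023_s1) (xt := xt_B04pp_023_s1) (P1 := 0) (W1 := 536870912) (P2 := 0) (W2 := 1230186008) (P3 := 335544320) (W3 := 67108864)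
    rfl (fun _ => rfl) t14_B04pp_023_s1

theorem s_B04pp_023_s1 {κ x : ℝ} (hκ : κ * h0 = ken x) (hx : ((335544320 : ℕ) : ℝ) / S ≤ x)
    (hx' : x ≤ (((335544320 : ℕ) : ℝ) + (67108864 : ℕ)) / S) :
    AltB (VF κ) PP tKF tL pcF [⟨3, 0, 0, 1449551462⟩] 0 2 3 0 4 (sgb true) (sgb true) x :=
  strip_altB (m := 1449551462) true rfl hκ covF00 covF43 hx hx' c_B04pp_023_s1 cutB_nil ((okx hx hx').extB (T := tt) (sideF hx hx') hκ rfl rfl (.O 0 true) (.N 3 true) rfl)

noncomputable def cut_B04pp_033_s1 : Cut := Cut.of [[⟨4, 0, 0, 1449551462⟩]]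

noncomputable def f_B04pp_033_s1 : ℕ → ℕ → ℕ → ℕ → Bool := onCell 1610612736 536870912 0 1230186008 335544320 67108864
    (rowF 2 false true true .pnn 0 3 3 (qsf 0 536870912 0 1230186008 3) ndF0q0 ndF4q3 pcF3 cut_B04pp_033_s1 Ext.none)

def k0_B04pp_033_s1 : ∃ t, chk3 f_B04pp_033_s1 t 1 1 1 = true :=
  ⟨(b (l 6) (l 6)), by decide +kernel⟩

theorem c_B04pp_033_s1 : CertF 0 536870912 0 1230186008 335544320 67108864 false true true .pnn 0 3 3
    ndF0q0 ndF4q3 pcF3 cut_B04pp_033_s1 Ext.none :=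
  certF2 (fam := false) (s1 := true) (s2 := true) (a := 0) (b := 3) (c := 3) (cn := .pnn) (n1 := ndF0q0) (n2 := ndF4q3) (pc := pcF3) (cut := cut_B04pp_033_s1) (xt := Ext.none) (P1 := 0) (W1 := 536870912) (P2 := 0) (W2 := 1230186008) (P3 := 335544320) (W3 := 67108864)
    rfl (fun _ => rfl) k0_B04pp_033_s1

theorem s_B04pp_033_s1 {κ x : ℝ} (hκ : κ * h0 = ken x) (hx : ((335544320 : ℕ) : ℝ) / S ≤ x)
    (hx' : x ≤ (((335544320 : ℕ) : ℝ) + (67108864 : ℕ)) / S) :
    AltB (VF κ) PP tKF tL pcF [⟨3, 0, 0, 1449551462⟩] 0 3 3 0 4 (sgb true) (sgb true) x :=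
  strip_altB (m := 1449551462) true rfl hκ covF00 covF43 hx hx' c_B04pp_033_s1 cutB_nil (noExt_B)

noncomputable def cut_B04pp_101_s1 : Cut := Cut.of [[⟨4, 0, 0, 1449551462⟩]]

noncomputable def f_B04pp_101_s1 : ℕ → ℕ → ℕ → ℕ → Bool := onCell 536870912 536870912 536870912 536870912 335544320 67108864
    (rowF 0 false true true .npn 1 0 1 (qsf 536870912 536870912 536870912 536870912 0) ndF0q1 ndF4q1 pcF0 cut_B04pp_101_s1 Ext.none)

def k0_B04pp_101_s1 : ∃ t, chk3 f_B04pp_101_s1 t 1 1 1 = true :=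
  ⟨(a (l 3) (l 5)), by decide +kernel⟩

theorem c_B04pp_101_s1 : CertF 536870912 536870912 536870912 536870912 335544320 67108864 false true true .npn 1 0 1
    ndF0q1 ndF4q1 pcF0 cut_B04pp_101_s1 Ext.none :=
  certF0 (fam := false) (s1 := true) (s2 := true) (a := 1) (b := 0) (c := 1) (cn := .npn) (n1 := ndF0q1) (n2 := ndF4q1) (pc := pcF0) (cut := cut_B04pp_101_s1) (xt := Ext.none) (P1 := 536870912) (W1 := 536870912) (P2 := 536870912) (W2 := 536870912) (P3 := 335544320) (W3 := 67108864)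
    rfl k0_B04pp_101_s1

theorem s_B04pp_101_s1 {κ x : ℝ} (hκ : κ * h0 = ken x) (hx : ((335544320 : ℕ) : ℝ) / S ≤ x)
    (hx' : x ≤ (((335544320 : ℕ) : ℝ) + (67108864 : ℕ)) / S) :
    AltB (VF κ) PP tKF tL pcF [⟨3, 0, 0, 1449551462⟩] 1 0 1 0 4 (sgb true) (sgb true) x :=
  strip_altB (m := 1449551462) true rfl hκ covF01 covF41 hx hx' c_B04pp_101_s1 cutB_nil (noExt_B)

noncomputable def cut_B04pp_102_s1 : Cut := Cut.of [[⟨4, 0, 0, 1449551462⟩]]

noncomputable def f_B04pp_102_s1 : ℕ → ℕ → ℕ → ℕ → Bool := onCell 536870912 536870912 1073741824 536870912 335544320 67108864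
    (rowF 0 false true true .npp 1 0 2 (qsf 536870912 536870912 1073741824 536870912 0) ndF0q1 ndF4q2 pcF0 cut_B04pp_102_s1 Ext.none)

def k0_B04pp_102_s1 : ∃ t, chk3 f_B04pp_102_s1 t 1 1 1 = true :=
  ⟨(a (l 3) (b (l 5) (l 3))), by decide +kernel⟩

theorem c_B04pp_102_s1 : CertF 536870912 536870912 1073741824 536870912 335544320 67108864 false true true .npp 1 0 2
    ndF0q1 ndF4q2 pcF0 cut_B04pp_102_s1 Ext.none :=
  certF0 (fam := false) (s1 := true) (s2 := true) (a := 1) (b := 0) (c := 2) (cn := .npp) (n1 := ndF0q1) (n2 := ndF4q2) (pc := pcF0) (cut := cut_B04pp_102_s1) (xt := Ext.none) (P1 := 536870912) (W1 := 536870912) (P2 := 1073741824) (W2 := 536870912) (P3 := 335544320) (W3 := 67108864)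
    rfl k0_B04pp_102_s1

theorem s_B04pp_102_s1 {κ x : ℝ} (hκ : κ * h0 = ken x) (hx : ((335544320 : ℕ) : ℝ) / S ≤ x)
    (hx' : x ≤ (((335544320 : ℕ) : ℝ) + (67108864 : ℕ)) / S) :
    AltB (VF κ) PP tKF tL pcF [⟨3, 0, 0, 1449551462⟩] 1 0 2 0 4 (sgb true) (sgb true) x :=
  strip_altB (m := 1449551462) true rfl hκ covF01 covF42 hx hx' c_B04pp_102_s1 cutB_nil (noExt_B)

noncomputable def cut_B04pp_112_s1 : Cut := Cut.of [[⟨4, 0, 0, 1449551462⟩]]

noncomputable def f_B04pp_112_s1 : ℕ → ℕ → ℕ → ℕ → Bool := onCell 536870912 536870912 1073741824 536870912 335544320 67108864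
    (rowF 0 false true true .dn 1 1 2 (qsf 536870912 536870912 1073741824 536870912 1) ndF0q1 ndF4q2 pcF1 cut_B04pp_112_s1 Ext.none)

def k0_B04pp_112_s1 : ∃ t, chk3 f_B04pp_112_s1 t 1 1 1 = true :=
  ⟨(a (l 3) (b (l 5) (l 3))), by decide +kernel⟩

theorem c_B04pp_112_s1 : CertF 536870912 536870912 1073741824 536870912 335544320 67108864 false true true .dn 1 1 2
    ndF0q1 ndF4q2 pcF1 cut_B04pp_112_s1 Ext.none :=
  certF0 (fam := false) (s1 := true) (s2 := true) (a := 1) (b := 1) (c := 2) (cn := .dn) (n1 := ndF0q1) (n2 := ndF4q2) (pc := pcF1) (cut := cut_B04pp_112_s1) (xt := Ext.none) (P1 := 536870912) (W1 := 536870912) (P2 := 1073741824) (W2 := 536870912) (P3 := 335544320) (W3 := 67108864)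
    rfl k0_B04pp_112_s1

theorem s_B04pp_112_s1 {κ x : ℝ} (hκ : κ * h0 = ken x) (hx : ((335544320 : ℕ) : ℝ) / S ≤ x)
    (hx' : x ≤ (((335544320 : ℕ) : ℝ) + (67108864 : ℕ)) / S) :
    AltB (VF κ) PP tKF tL pcF [⟨3, 0, 0, 1449551462⟩] 1 1 2 0 4 (sgb true) (sgb true) x :=
  strip_altB (m := 1449551462) true rfl hκ covF01 covF42 hx hx' c_B04pp_112_s1 cutB_nil (noExt_B)

noncomputable def cut_B04pp_113_s1 : Cut := Cut.of [[⟨4, 0, 0, 1449551462⟩], [⟨0, 1, 0, 67108864⟩, ⟨1, 1, 0, 67108864⟩, ⟨2, 2, 0, 16777216⟩]]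

noncomputable def f_B04pp_113_s1 : ℕ → ℕ → ℕ → ℕ → Bool := onCell 536870912 536870912 0 1230186008 335544320 67108864
    (rowF 2 false true true .nn 1 1 3 (qsf 536870912 536870912 0 1230186008 1) ndF0q1 ndF4q3 pcF1 cut_B04pp_113_s1 Ext.none)

def k0_B04pp_113_s1 : ∃ t, chk3 f_B04pp_113_s1 t 1 1 1 = true :=
  ⟨(b (a (l 2) (a (l 2) (b (a (l 2) (b (a (l 2) (l 14)) (l 3))) (l 3)))) (b (a (a (l 2) (b (l 2) (a (l 2) (l 3)))) (a (l 3) (l 3))) (a (a (b (l 2) (l 3)) (l 3)) (l 3)))), by decide +kernel⟩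

theorem c_B04pp_113_s1 : CertF 536870912 536870912 0 1230186008 335544320 67108864 false true true .nn 1 1 3
    ndF0q1 ndF4q3 pcF1 cut_B04pp_113_s1 Ext.none :=
  certF2 (fam := false) (s1 := true) (s2 := true) (a := 1) (b := 1) (c := 3) (cn := .nn) (n1 := ndF0q1) (n2 := ndF4q3) (pc := pcF1) (cut := cut_B04pp_113_s1) (xt := Ext.none) (P1 := 536870912) (W1 := 536870912) (P2 := 0) (W2 := 1230186008) (P3 := 335544320) (W3 := 67108864)
    rfl (fun _ => rfl) k0_B04pp_113_s1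

theorem s_B04pp_113_s1 {κ x : ℝ} (hκ : κ * h0 = ken x) (hx : ((335544320 : ℕ) : ℝ) / S ≤ x)
    (hx' : x ≤ (((335544320 : ℕ) : ℝ) + (67108864 : ℕ)) / S)
    (H : CutB (VF κ) PP tKF tL pcF (Cut.of [[⟨0, 1, 0, 67108864⟩, ⟨1, 1, 0, 67108864⟩, ⟨2, 2, 0, 16777216⟩]]) 1 1 3 0 4 (sgb true) (sgb true) x) :
    AltB (VF κ) PP tKF tL pcF [⟨3, 0, 0, 1449551462⟩] 1 1 3 0 4 (sgb true) (sgb true) x :=
  strip_altB (m := 1449551462) true rfl hκ covF01 covF43 hx hx' c_B04pp_113_s1 H (noExt_B)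

noncomputable def cut_B04pp_123_s1 : Cut := Cut.of [[⟨4, 0, 0, 1449551462⟩], [⟨0, 1, 0, 67108864⟩, ⟨1, 1, 0, 67108864⟩, ⟨2, 2, 0, 16777216⟩]]

noncomputable def xt_B04pp_123_s1 : Ext := strExt dd false true true .u0 .s2 .u2 .npn 1 2 3 rfl rfl gf2 vv ndF0q1 ndF4q3

noncomputable def f_B04pp_123_s1 : ℕ → ℕ → ℕ → ℕ → Bool := onCell 1073741824 536870912 0 1230186008 335544320 67108864
    (rowF 2 false true true .npn 1 2 3 (qsf 536870912 536870912 0 1230186008 2) ndF0q1 ndF4q3 pcF2 cut_B04pp_123_s1 xt_B04pp_123_s1)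

def k0_B04pp_123_s1 : ∃ t, chk3 f_B04pp_123_s1 t 1 2 1 = true :=
  ⟨(b (a (a (a (b (a (l 14) (a (l 14) (a (l 14) (b (l 16798040) (l 16866392))))) (a (l 3) (b (a (l 14) (b (l 538136975) (l 538139791))) (l 3)))) (b (a (b (l 16804344) (a (l 16799800) (l 16804696))) (l 16812200)) (a (b (a (b (a (l 16787080) (l 16792184)) (l 538254991)) (b (l 16798520) (l 16793520))) (a (l 538262159) (l 538371727))) (b (l 16980344) (a (b (l 16798456) (l 16793136)) (l 16806568)))))) (a (b (l 16922944) (a (l 16985792) (l 16845344))) (b (l 6) (l 16864008)))) (a (l 6) (l 6))) (a (a (a (l 3) (a (b (b (a (l 3) (l 538429839)) (l 3)) (l 3)) (b (b (a (l 538511759) (b (l 16799144) (l 16793320))) (a (l 538595359) (b (l 538669343) (l 538698271)))) (a (l 3) (b (l 538717215) (b (l 538932767) (l 3))))))) (a (a (a (b (b (l 16809360) (a (l 16795728) (l 16803656))) (b (a (l 539046031) (b (l 16794904) (l 16789800))) (a (l 539167119) (l 539570719)))) (b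 (a (l 16899304) (a (l 16820648) (a (l 16821632) (l 16821400)))) (b (a (l 16800336) (a (l 16807040) (a (l 16810752) (l 16813184)))) (a (a (l 539400479) (l 16792240)) (a (l 16796192) (a (l 16799696) (l 16802456))))))) (b (l 16840232) (b (l 16833536) (l 16823408)))) (b (l 16956600) (a (l 16940528) (l 16884952))))) (a (a (b (l 16910616) (l 17005360)) (l 6)) (l 6)))), by decide +kernel⟩

def k1_B04pp_123_s1 : ∃ t, chk3 f_B04pp_123_s1 t 4 6 1 = true :=
  ⟨(l 3), by decide +kernel⟩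

def k2_B04pp_123_s1 : ∃ t, chk3 f_B04pp_123_s1 t 40 6 1 = true :=
  ⟨(a (l 3) (b (b (b (l 539403807) (l 539467551)) (l 3)) (l 3))), by decide +kernel⟩

def k3_B04pp_123_s1 : ∃ t, chk3 f_B04pp_123_s1 t 41 12 1 = true :=
  ⟨(b (a (b (a (l 539484815) (l 16785568)) (a (l 539531151) (l 539564687))) (b (a (l 16831184) (a (l 16792600) (l 16795376))) (a (b (l 16807248) (l 16805472)) (a (l 16788712) (l 16791504))))) (a (a (b (l 539574927) (l 3)) (b (l 540125583) (a (l 539620751) (l 539615631)))) (b (a (a (l 539616911) (l 539732879)) (a (a (l 16784784) (l 16786048)) (l 16788168))) (a (a (l 539713935) (l 539790991)) (a (a (l 16781968) (a (l 16782880) (l 16783552))) (l 16785272)))))), by decide +kernel⟩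

def k4_B04pp_123_s1 : ∃ t, chk3 f_B04pp_123_s1 t 82 13 1 = true :=
  ⟨(l 3), by decide +kernel⟩

def k5_B04pp_123_s1 : ∃ t, chk3 f_B04pp_123_s1 t 166 13 1 = true :=
  ⟨(b (b (a (l 539763087) (b (l 539834255) (a (l 539828111) (l 539905167)))) (a (l 3) (a (l 3) (l 540159887)))) (l 3)), by decide +kernel⟩

def k6_B04pp_123_s1 : ∃ t, chk3 f_B04pp_123_s1 t 334 13 1 = true :=
  ⟨(a (b (b (b (l 16785368) (l 540175503)) (b (l 540300687) (l 540404623))) (b (b (l 540460687) (l 3)) (l 3))) (a (b (b (b (l 16781016) (l 16779952)) (b (l 540451983) (l 540519567))) (b (b (l 540442511) (l 540392335)) (l 3))) (a (a (b (b (b (l 16781424) (l 16780344)) (b (l 16779320) (l 540554383))) (b (b (l 540428687) (l 540477071)) (l 3))) (a (b (b (b (l 16781552) (l 16780464)) (b (l 16779432) (l 540530575))) (b (b (l 540435599) (l 540517775)) (l 3))) (a (b (b (b (l 16781616) (l 16780520)) (b (l 16779488) (l 540520335))) (b (b (l 540440463) (l 540538255))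 (l 3))) (b (b (b (l 16781656) (l 16780560)) (b (l 16779528) (l 16781184))) (b (b (l 540443023) (l 540549519)) (l 3)))))) (b (b (b (l 16781848) (l 16780744)) (b (l 16779696) (l 540497295))) (b (b (l 540456335) (l 540604303)) (l 540571471)))))), by decide +kernel⟩

def k7_B04pp_123_s1 : ∃ t, chk3 f_B04pp_123_s1 t 335 13 1 = true :=
  ⟨(a (a (b (b (b (l 16782344) (l 16781216)) (b (l 16780120) (l 16779104))) (b (b (b (l 16778512) (l 16778184)) (a (l 540523407) (b (l 16778032) (l 16777784)))) (l 540571695))) (a (a (b (b (l 16792688) (b (l 16780432) (l 16779440))) (b (b (l 540510111) (b (l 16778232) (l 16777976))) (b (l 540560175) (l 540582703)))) (a (b (b (l 16782320) (b (l 16780528) (l 16779536))) (b (b (l 16778784) (b (l 16778328) (l 16778080))) (b (b (l 16777872) (l 16777704)) (b (l 16777584) (l 540587823))))) (a (b (b (l 16782384) (b (l 16780584) (l 16779584))) (b (b (l 16778840) (b (l 16778376) (l 16778128))) (b (b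 (l 16777920) (l 16777760)) (b (l 16777632) (l 16777560))))) (b (b (l 16782424) (b (l 16780616) (l 16779624))) (b (b (l 16778872) (b (l 16778408) (l 16778160))) (b (b (l 16777952) (l 16777792)) (b (l 16777672) (l 16777592)))))))) (b (b (l 16782600) (b (l 16780760) (l 16779776))) (b (b (l 16779024) (b (l 16778560) (l 16778304))) (b (b (l 16778104) (l 16777936)) (b (l 16777816) (l 16777736))))))) (b (b (l 16783368) (b (l 16781424) (l 16780448))) (b (b (l 16779688) (b (l 16779224) (l 16778968))) (l 540571999)))), by decide +kernel⟩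

def k8_B04pp_123_s1 : ∃ t, chk3 f_B04pp_123_s1 t 21 6 1 = true :=
  ⟨(b (a (b (l 16805944) (b (l 16799472) (l 16795712))) (b (l 16822288) (l 16815040))) (a (b (b (b (l 16793328) (l 16791960)) (a (b (l 16786336) (l 16785336)) (l 16794472))) (b (a (a (b (l 16782344) (l 16781744)) (l 16786320)) (l 16792728)) (a (l 540572767) (l 16791832)))) (a (b (l 16804480) (l 16863696)) (b (l 16813160) (l 16809400))))), by decide +kernel⟩

def k9_B04pp_123_s1 : ∃ t, chk3 f_B04pp_123_s1 t 11 6 1 = true :=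
  ⟨(a (b (b (l 16847184) (l 16840368)) (b (l 16834360) (a (l 16822152) (l 16839672)))) (b (l 16876032) (b (l 16867440) (l 16866960)))), by decide +kernel⟩

def k10_B04pp_123_s1 : ∃ t, chk3 f_B04pp_123_s1 t 3 6 1 = true :=
  ⟨(a (b (a (b (l 16923576) (l 16919328)) (l 17232832)) (a (b (l 16918752) (a (l 16903704) (l 16942152))) (b (l 16989200) (l 1)))) (l 6)), by decide +kernel⟩

def k11_B04pp_123_s1 : ∃ t, chk3 f_B04pp_123_s1 t 4 7 1 = true :=
  ⟨(b (l 3) (l 3)), by decide +kernel⟩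

def k12_B04pp_123_s1 : ∃ t, chk3 f_B04pp_123_s1 t 20 14 1 = true :=
  ⟨(b (a (l 3) (a (l 3) (a (l 3) (a (b (l 3) (b (l 540626495) (a (l 3) (a (b (l 3) (l 541020287)) (a (a (l 540714111) (l 540689023)) (l 540686719)))))) (a (a (b (l 540610095) (b (l 540628527) (b (b (l 16777720) (l 16777856)) (c (l 16778216) (l 16777960))))) (a (a (b (b (l 540602159) (l 540617775)) (b (l 540629039) (b (l 16778112) (l 16778416)))) (a (b (b (b (l 540597551) (l 540606511)) (b (l 540614447) (l 540621359))) (b (b (l 16777784) (l 16777976)) (b (l 16778208) (l 16778512)))) (a (b (b (b (l 16777528) (b (l 16777528) (l 16777544))) (b (b (l 16777568) (l 16777608)) (l 16777688))) (b (b (l 16777832) (l 16778024)) (b (l 16778264) (l 16778560)))) (b (b (b (l 16777560) (l 16777568)) (b (l 16777624) (l 16777720))) (b (b (l 16777864) (l 16778056)) (b (l 16778296) (l 16778592))))))) (b (b (b (l 16777704) (l 540606815)) (b (l 16777768) (l 16777872)))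 (b (b (l 16778016) (l 16778208)) (b (l 16778440) (l 16778744)))))) (b (l 540611423) (b (l 540630623) (b (l 16779096) (l 16779400))))))))) (a (l 3) (a (l 3) (b (a (a (l 3) (a (l 3) (l 541837439))) (a (b (a (l 541495423) (a (l 541254271) (a (l 541101951) (l 540884095)))) (a (l 541703039) (a (l 541505151) (b (l 541529471) (l 541386879))))) (b (b (a (l 16778720) (l 16779784)) (l 16779704)) (b (l 16780232) (l 16780840))))) (b (a (a (l 3) (a (l 542145151) (l 542020991))) (a (a (l 541851775) (a (l 541690751) (a (l 541586303) (l 541548959)))) (b (l 16781520) (l 1)))) (l 1)))))), by decide +kernel⟩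

def k13_B04pp_123_s1 : ∃ t, chk3 f_B04pp_123_s1 t 21 14 1 = true :=
  ⟨(a (b (b (l 540618847) (b (l 540649567) (a (b (l 16783856) (l 16784192)) (l 16792688)))) (b (a (b (a (l 16777448) (l 16787040)) (a (l 16783784) (l 16788208))) (l 16783880)) (a (b (l 16776856) (l 1)) (l 1)))) (b (b (l 16804600) (l 16805672)) (b (l 16808152) (l 1)))), by decide +kernel⟩

def k14_B04pp_123_s1 : ∃ t, chk3 f_B04pp_123_s1 t 10 15 1 = true :=
  ⟨(a (b (a (l 3) (l 1)) (l 1)) (l 1)), by decide +kernel⟩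

def k15_B04pp_123_s1 : ∃ t, chk3 f_B04pp_123_s1 t 11 7 1 = true :=
  ⟨(b (b (a (b (l 16831856) (l 16833824)) (l 16787896)) (l 1)) (l 1)), by decide +kernel⟩

def k16_B04pp_123_s1 : ∃ t, chk3 f_B04pp_123_s1 t 3 7 1 = true :=
  ⟨(l 1), by decide +kernel⟩

theorem t17_B04pp_123_s1 : ∃ t, chk3 f_B04pp_123_s1 t 10 14 1 = true := ex3_a k12_B04pp_123_s1 k13_B04pp_123_s1

theorem t18_B04pp_123_s1 : ∃ t, chk3 f_B04pp_123_s1 t 10 7 1 = true := ex3_b t17_B04pp_123_s1 k14_B04pp_123_s1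

theorem t19_B04pp_123_s1 : ∃ t, chk3 f_B04pp_123_s1 t 5 7 1 = true := ex3_a t18_B04pp_123_s1 k15_B04pp_123_s1

theorem t20_B04pp_123_s1 : ∃ t, chk3 f_B04pp_123_s1 t 2 7 1 = true := ex3_a k11_B04pp_123_s1 t19_B04pp_123_s1

theorem t21_B04pp_123_s1 : ∃ t, chk3 f_B04pp_123_s1 t 1 7 1 = true := ex3_a t20_B04pp_123_s1 k16_B04pp_123_s1

theorem t22_B04pp_123_s1 : ∃ t, chk3 f_B04pp_123_s1 t 167 13 1 = true := ex3_a k6_B04pp_123_s1 k7_B04pp_123_s1

theorem t23_B04pp_123_s1 : ∃ t, chk3 f_B04pp_123_s1 t 83 13 1 = true := ex3_a k5_B04pp_123_s1 t22_B04pp_123_s1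

theorem t24_B04pp_123_s1 : ∃ t, chk3 f_B04pp_123_s1 t 41 13 1 = true := ex3_a k4_B04pp_123_s1 t23_B04pp_123_s1

theorem t25_B04pp_123_s1 : ∃ t, chk3 f_B04pp_123_s1 t 41 6 1 = true := ex3_b k3_B04pp_123_s1 t24_B04pp_123_s1

theorem t26_B04pp_123_s1 : ∃ t, chk3 f_B04pp_123_s1 t 20 6 1 = true := ex3_a k2_B04pp_123_s1 t25_B04pp_123_s1

theorem t27_B04pp_123_s1 : ∃ t, chk3 f_B04pp_123_s1 t 10 6 1 = true := ex3_a t26_B04pp_123_s1 k8_B04pp_123_s1

theorem t28_B04pp_123_s1 : ∃ t, chk3 f_B04pp_123_s1 t 5 6 1 = true := ex3_a t27_B04pp_123_s1 k9_B04pp_123_s1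

theorem t29_B04pp_123_s1 : ∃ t, chk3 f_B04pp_123_s1 t 2 6 1 = true := ex3_a k1_B04pp_123_s1 t28_B04pp_123_s1

theorem t30_B04pp_123_s1 : ∃ t, chk3 f_B04pp_123_s1 t 1 6 1 = true := ex3_a t29_B04pp_123_s1 k10_B04pp_123_s1

theorem t31_B04pp_123_s1 : ∃ t, chk3 f_B04pp_123_s1 t 1 3 1 = true := ex3_b t30_B04pp_123_s1 t21_B04pp_123_s1

theorem t32_B04pp_123_s1 : ∃ t, chk3 f_B04pp_123_s1 t 1 1 1 = true := ex3_b k0_B04pp_123_s1 t31_B04pp_123_s1

theorem c_B04pp_123_s1 : CertF 536870912 536870912 0 1230186008 335544320 67108864 false true true .npn 1 2 3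
    ndF0q1 ndF4q3 pcF2 cut_B04pp_123_s1 xt_B04pp_123_s1 :=
  certF2 (fam := false) (s1 := true) (s2 := true) (a := 1) (b := 2) (c := 3) (cn := .npn) (n1 := ndF0q1) (n2 := ndF4q3) (pc := pcF2) (cut := cut_B04pp_123_s1) (xt := xt_B04pp_123_s1) (P1 := 536870912) (W1 := 536870912) (P2 := 0) (W2 := 1230186008) (P3 := 335544320) (W3 := 67108864)
    rfl (fun _ => rfl) t32_B04pp_123_s1

theorem s_B04pp_123_s1 {κ x : ℝ} (hκ : κ * h0 = ken x) (hx : ((335544320 : ℕ) : ℝ) / S ≤ x)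
    (hx' : x ≤ (((335544320 : ℕ) : ℝ) + (67108864 : ℕ)) / S)
    (H : CutB (VF κ) PP tKF tL pcF (Cut.of [[⟨0, 1, 0, 67108864⟩, ⟨1, 1, 0, 67108864⟩, ⟨2, 2, 0, 16777216⟩]]) 1 2 3 0 4 (sgb true) (sgb true) x) :
    AltB (VF κ) PP tKF tL pcF [⟨3, 0, 0, 1449551462⟩] 1 2 3 0 4 (sgb true) (sgb true) x :=
  strip_altB (m := 1449551462) true rfl hκ covF01 covF43 hx hx' c_B04pp_123_s1 H ((okx hx hx').extB (T := tt) (sideF hx hx') hκ rfl rfl (.O 1 true) (.N 3 true) rfl)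

noncomputable def cut_B04pp_133_s1 : Cut := Cut.of [[⟨4, 0, 0, 1449551462⟩]]

noncomputable def f_B04pp_133_s1 : ℕ → ℕ → ℕ → ℕ → Bool := onCell 1610612736 536870912 0 1230186008 335544320 67108864
    (rowF 2 false true true .dn 1 3 3 (qsf 536870912 536870912 0 1230186008 3) ndF0q1 ndF4q3 pcF3 cut_B04pp_133_s1 Ext.none)

def k0_B04pp_133_s1 : ∃ t, chk3 f_B04pp_133_s1 t 1 1 1 = true :=
  ⟨(b (l 6) (l 1)), by decide +kernel⟩

theorem c_B04pp_133_s1 : CertF 536870912 536870912 0 1230186008 335544320 67108864 false true true .dn 1 3 3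
    ndF0q1 ndF4q3 pcF3 cut_B04pp_133_s1 Ext.none :=
  certF2 (fam := false) (s1 := true) (s2 := true) (a := 1) (b := 3) (c := 3) (cn := .dn) (n1 := ndF0q1) (n2 := ndF4q3) (pc := pcF3) (cut := cut_B04pp_133_s1) (xt := Ext.none) (P1 := 536870912) (W1 := 536870912) (P2 := 0) (W2 := 1230186008) (P3 := 335544320) (W3 := 67108864)
    rfl (fun _ => rfl) k0_B04pp_133_s1

theorem s_B04pp_133_s1 {κ x : ℝ} (hκ : κ * h0 = ken x) (hx : ((335544320 : ℕ) : ℝ) / S ≤ x)
    (hx' : x ≤ (((335544320 : ℕ) : ℝ) + (67108864 : ℕ)) / S) :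
    AltB (VF κ) PP tKF tL pcF [⟨3, 0, 0, 1449551462⟩] 1 3 3 0 4 (sgb true) (sgb true) x :=
  strip_altB (m := 1449551462) true rfl hκ covF01 covF43 hx hx' c_B04pp_133_s1 cutB_nil (noExt_B)

noncomputable def cut_B04pp_202_s1 : Cut := Cut.of [[⟨4, 0, 0, 1449551462⟩]]

noncomputable def f_B04pp_202_s1 : ℕ → ℕ → ℕ → ℕ → Bool := onCell 0 536870912 1073741824 536870912 335544320 67108864
    (rowF 0 false true true .pp 2 0 2 (qsf 0 536870912 1073741824 536870912 0) ndF0q2 ndF4q2 pcF0 cut_B04pp_202_s1 Ext.none)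

def k0_B04pp_202_s1 : ∃ t, chk3 f_B04pp_202_s1 t 1 1 1 = true :=
  ⟨(l 5), by decide +kernel⟩

theorem c_B04pp_202_s1 : CertF 0 536870912 1073741824 536870912 335544320 67108864 false true true .pp 2 0 2
    ndF0q2 ndF4q2 pcF0 cut_B04pp_202_s1 Ext.none :=
  certF0 (fam := false) (s1 := true) (s2 := true) (a := 2) (b := 0) (c := 2) (cn := .pp) (n1 := ndF0q2) (n2 := ndF4q2) (pc := pcF0) (cut := cut_B04pp_202_s1) (xt := Ext.none) (P1 := 0) (W1 := 536870912) (P2 := 1073741824) (W2 := 536870912) (P3 := 335544320) (W3 := 67108864)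
    rfl k0_B04pp_202_s1

theorem s_B04pp_202_s1 {κ x : ℝ} (hκ : κ * h0 = ken x) (hx : ((335544320 : ℕ) : ℝ) / S ≤ x)
    (hx' : x ≤ (((335544320 : ℕ) : ℝ) + (67108864 : ℕ)) / S) :
    AltB (VF κ) PP tKF tL pcF [⟨3, 0, 0, 1449551462⟩] 2 0 2 0 4 (sgb true) (sgb true) x :=
  strip_altB (m := 1449551462) true rfl hκ covF02 covF42 hx hx' c_B04pp_202_s1 cutB_nil (noExt_B)

noncomputable def cut_B04pp_203_s1 : Cut := Cut.of [[⟨4, 0, 0, 1449551462⟩]]

noncomputable def f_B04pp_203_s1 : ℕ → ℕ → ℕ → ℕ → Bool := onCell 0 536870912 0 1230186008 335544320 67108864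
    (rowF 0 false true true .up 2 0 3 (qsf 0 536870912 0 1230186008 0) ndF0q2 ndF4q3 pcF0 cut_B04pp_203_s1 Ext.none)

def k0_B04pp_203_s1 : ∃ t, chk3 f_B04pp_203_s1 t 1 1 1 = true :=
  ⟨(b (l 2) (b (l 2) (a (l 5) (l 3)))), by decide +kernel⟩

theorem c_B04pp_203_s1 : CertF 0 536870912 0 1230186008 335544320 67108864 false true true .up 2 0 3
    ndF0q2 ndF4q3 pcF0 cut_B04pp_203_s1 Ext.none :=
  certF0 (fam := false) (s1 := true) (s2 := true) (a := 2) (b := 0) (c := 3) (cn := .up) (n1 := ndF0q2) (n2 := ndF4q3) (pc := pcF0) (cut := cut_B04pp_203_s1) (xt := Ext.none) (P1 := 0) (W1 := 536870912) (P2 := 0) (W2 := 1230186008) (P3 := 335544320) (W3 := 67108864)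
    rfl k0_B04pp_203_s1

theorem s_B04pp_203_s1 {κ x : ℝ} (hκ : κ * h0 = ken x) (hx : ((335544320 : ℕ) : ℝ) / S ≤ x)
    (hx' : x ≤ (((335544320 : ℕ) : ℝ) + (67108864 : ℕ)) / S) :
    AltB (VF κ) PP tKF tL pcF [⟨3, 0, 0, 1449551462⟩] 2 0 3 0 4 (sgb true) (sgb true) x :=
  strip_altB (m := 1449551462) true rfl hκ covF02 covF43 hx hx' c_B04pp_203_s1 cutB_nil (noExt_B)

noncomputable def cut_B04pp_213_s1 : Cut := Cut.of [[⟨4, 0, 0, 1449551462⟩], [⟨0, 1, 0, 67108864⟩, ⟨1, 1, 0, 67108864⟩, ⟨2, 2, 0, 16777216⟩]]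

noncomputable def f_B04pp_213_s1 : ℕ → ℕ → ℕ → ℕ → Bool := onCell 0 536870912 0 1230186008 335544320 67108864
    (rowF 0 false true true .pnn 2 1 3 (qsf 0 536870912 0 1230186008 1) ndF0q2 ndF4q3 pcF1 cut_B04pp_213_s1 Ext.none)

def k0_B04pp_213_s1 : ∃ t, chk3 f_B04pp_213_s1 t 1 1 1 = true :=
  ⟨(a (b (l 3) (l 5)) (b (b (a (l 3) (b (a (l 3) (l 14)) (l 3))) (l 3)) (b (l 3) (l 3)))), by decide +kernel⟩

theorem c_B04pp_213_s1 : CertF 0 536870912 0 1230186008 335544320 67108864 false true true .pnn 2 1 3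
    ndF0q2 ndF4q3 pcF1 cut_B04pp_213_s1 Ext.none :=
  certF0 (fam := false) (s1 := true) (s2 := true) (a := 2) (b := 1) (c := 3) (cn := .pnn) (n1 := ndF0q2) (n2 := ndF4q3) (pc := pcF1) (cut := cut_B04pp_213_s1) (xt := Ext.none) (P1 := 0) (W1 := 536870912) (P2 := 0) (W2 := 1230186008) (P3 := 335544320) (W3 := 67108864)
    rfl k0_B04pp_213_s1

theorem s_B04pp_213_s1 {κ x : ℝ} (hκ : κ * h0 = ken x) (hx : ((335544320 : ℕ) : ℝ) / S ≤ x)
    (hx' : x ≤ (((335544320 : ℕ) : ℝ) + (67108864 : ℕ)) / S)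
    (H : CutB (VF κ) PP tKF tL pcF (Cut.of [[⟨0, 1, 0, 67108864⟩, ⟨1, 1, 0, 67108864⟩, ⟨2, 2, 0, 16777216⟩]]) 2 1 3 0 4 (sgb true) (sgb true) x) :
    AltB (VF κ) PP tKF tL pcF [⟨3, 0, 0, 1449551462⟩] 2 1 3 0 4 (sgb true) (sgb true) x :=
  strip_altB (m := 1449551462) true rfl hκ covF02 covF43 hx hx' c_B04pp_213_s1 H (noExt_B)

noncomputable def cut_B04pm_001_s1 : Cut := Cut.of [[⟨4, 0, 0, 1449551462⟩]]

noncomputable def f_B04pm_001_s1 : ℕ → ℕ → ℕ → ℕ → Bool := onCell 0 536870912 536870912 536870912 335544320 67108864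
    (rowF 0 false true false .up 0 0 1 (qsf 0 536870912 536870912 536870912 0) ndF0q0 ndF4q1 pcF0 cut_B04pm_001_s1 Ext.none)

def k0_B04pm_001_s1 : ∃ t, chk3 f_B04pm_001_s1 t 1 1 1 = true :=
  ⟨(l 4), by decide +kernel⟩

theorem c_B04pm_001_s1 : CertF 0 536870912 536870912 536870912 335544320 67108864 false true false .up 0 0 1
    ndF0q0 ndF4q1 pcF0 cut_B04pm_001_s1 Ext.none :=
  certF0 (fam := false) (s1 := true) (s2 := false) (a := 0) (b := 0) (c := 1) (cn := .up) (n1 := ndF0q0) (n2 := ndF4q1) (pc := pcF0) (cut := cut_B04pm_001_s1) (xt := Ext.none) (P1 := 0) (W1 := 536870912) (P2 := 536870912) (W2 := 536870912) (P3 := 335544320) (W3 := 67108864)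
    rfl k0_B04pm_001_s1

theorem s_B04pm_001_s1 {κ x : ℝ} (hκ : κ * h0 = ken x) (hx : ((335544320 : ℕ) : ℝ) / S ≤ x)
    (hx' : x ≤ (((335544320 : ℕ) : ℝ) + (67108864 : ℕ)) / S) :
    AltB (VF κ) PP tKF tL pcF [⟨3, 0, 0, 1449551462⟩] 0 0 1 0 4 (sgb true) (sgb false) x :=
  strip_altB (m := 1449551462) true rfl hκ covF00 covF41 hx hx' c_B04pm_001_s1 cutB_nil (noExt_B)

noncomputable def cut_B04pm_011_s1 : Cut := Cut.of [[⟨4, 0, 0, 1449551462⟩]]

noncomputable def f_B04pm_011_s1 : ℕ → ℕ → ℕ → ℕ → Bool := onCell 0 536870912 536870912 536870912 335544320 67108864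
    (rowF 0 false true false .pnn 0 1 1 (qsf 0 536870912 536870912 536870912 1) ndF0q0 ndF4q1 pcF1 cut_B04pm_011_s1 Ext.none)

def k0_B04pm_011_s1 : ∃ t, chk3 f_B04pm_011_s1 t 1 1 1 = true :=
  ⟨(l 4), by decide +kernel⟩

theorem c_B04pm_011_s1 : CertF 0 536870912 536870912 536870912 335544320 67108864 false true false .pnn 0 1 1
    ndF0q0 ndF4q1 pcF1 cut_B04pm_011_s1 Ext.none :=
  certF0 (fam := false) (s1 := true) (s2 := false) (a := 0) (b := 1) (c := 1) (cn := .pnn) (n1 := ndF0q0) (n2 := ndF4q1) (pc := pcF1) (cut := cut_B04pm_011_s1) (xt := Ext.none) (P1 := 0) (W1 := 536870912) (P2 := 536870912) (W2 := 536870912) (P3 := 335544320) (W3 := 67108864)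
    rfl k0_B04pm_011_s1

theorem s_B04pm_011_s1 {κ x : ℝ} (hκ : κ * h0 = ken x) (hx : ((335544320 : ℕ) : ℝ) / S ≤ x)
    (hx' : x ≤ (((335544320 : ℕ) : ℝ) + (67108864 : ℕ)) / S) :
    AltB (VF κ) PP tKF tL pcF [⟨3, 0, 0, 1449551462⟩] 0 1 1 0 4 (sgb true) (sgb false) x :=
  strip_altB (m := 1449551462) true rfl hκ covF00 covF41 hx hx' c_B04pm_011_s1 cutB_nil (noExt_B)

noncomputable def cut_B04pm_012_s1 : Cut := Cut.of [[⟨4, 0, 0, 1449551462⟩]]

noncomputable def f_B04pm_012_s1 : ℕ → ℕ → ℕ → ℕ → Bool := onCell 0 536870912 1073741824 536870912 335544320 67108864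
    (rowF 0 false true false .pnp 0 1 2 (qsf 0 536870912 1073741824 536870912 1) ndF0q0 ndF4q2 pcF1 cut_B04pm_012_s1 Ext.none)

def k0_B04pm_012_s1 : ∃ t, chk3 f_B04pm_012_s1 t 1 1 1 = true :=
  ⟨(l 4), by decide +kernel⟩

theorem c_B04pm_012_s1 : CertF 0 536870912 1073741824 536870912 335544320 67108864 false true false .pnp 0 1 2
    ndF0q0 ndF4q2 pcF1 cut_B04pm_012_s1 Ext.none :=
  certF0 (fam := false) (s1 := true) (s2 := false) (a := 0) (b := 1) (c := 2) (cn := .pnp) (n1 := ndF0q0) (n2 := ndF4q2) (pc := pcF1) (cut := cut_B04pm_012_s1) (xt := Ext.none) (P1 := 0) (W1 := 536870912) (P2 := 1073741824) (W2 := 536870912) (P3 := 335544320) (W3 := 67108864)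
    rfl k0_B04pm_012_s1

theorem s_B04pm_012_s1 {κ x : ℝ} (hκ : κ * h0 = ken x) (hx : ((335544320 : ℕ) : ℝ) / S ≤ x)
    (hx' : x ≤ (((335544320 : ℕ) : ℝ) + (67108864 : ℕ)) / S) :
    AltB (VF κ) PP tKF tL pcF [⟨3, 0, 0, 1449551462⟩] 0 1 2 0 4 (sgb true) (sgb false) x :=
  strip_altB (m := 1449551462) true rfl hκ covF00 covF42 hx hx' c_B04pm_012_s1 cutB_nil (noExt_B)

noncomputable def cut_B04pm_022_s1 : Cut := Cut.of [[⟨4, 0, 0, 1449551462⟩]]

noncomputable def f_B04pm_022_s1 : ℕ → ℕ → ℕ → ℕ → Bool := onCell 0 536870912 1073741824 536870912 335544320 67108864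
    (rowF 0 false true false .pp 0 2 2 (qsf 0 536870912 1073741824 536870912 2) ndF0q0 ndF4q2 pcF2 cut_B04pm_022_s1 Ext.none)

def k0_B04pm_022_s1 : ∃ t, chk3 f_B04pm_022_s1 t 1 1 1 = true :=
  ⟨(l 4), by decide +kernel⟩

theorem c_B04pm_022_s1 : CertF 0 536870912 1073741824 536870912 335544320 67108864 false true false .pp 0 2 2
    ndF0q0 ndF4q2 pcF2 cut_B04pm_022_s1 Ext.none :=
  certF0 (fam := false) (s1 := true) (s2 := false) (a := 0) (b := 2) (c := 2) (cn := .pp) (n1 := ndF0q0) (n2 := ndF4q2) (pc := pcF2) (cut := cut_B04pm_022_s1) (xt := Ext.none) (P1 := 0) (W1 := 536870912) (P2 := 1073741824) (W2 := 536870912) (P3 := 335544320) (W3 := 67108864)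
    rfl k0_B04pm_022_s1

theorem s_B04pm_022_s1 {κ x : ℝ} (hκ : κ * h0 = ken x) (hx : ((335544320 : ℕ) : ℝ) / S ≤ x)
    (hx' : x ≤ (((335544320 : ℕ) : ℝ) + (67108864 : ℕ)) / S) :
    AltB (VF κ) PP tKF tL pcF [⟨3, 0, 0, 1449551462⟩] 0 2 2 0 4 (sgb true) (sgb false) x :=
  strip_altB (m := 1449551462) true rfl hκ covF00 covF42 hx hx' c_B04pm_022_s1 cutB_nil (noExt_B)

noncomputable def cut_B04pm_023_s1 : Cut := Cut.of [[⟨4, 0, 0, 1449551462⟩]]

noncomputable def f_B04pm_023_s1 : ℕ → ℕ → ℕ → ℕ → Bool := onCell 0 536870912 0 1230186008 335544320 67108864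
    (rowF 0 false true false .up 0 2 3 (qsf 0 536870912 0 1230186008 2) ndF0q0 ndF4q3 pcF2 cut_B04pm_023_s1 Ext.none)

def k0_B04pm_023_s1 : ∃ t, chk3 f_B04pm_023_s1 t 1 1 1 = true :=
  ⟨(l 6), by decide +kernel⟩

theorem c_B04pm_023_s1 : CertF 0 536870912 0 1230186008 335544320 67108864 false true false .up 0 2 3
    ndF0q0 ndF4q3 pcF2 cut_B04pm_023_s1 Ext.none :=
  certF0 (fam := false) (s1 := true) (s2 := false) (a := 0) (b := 2) (c := 3) (cn := .up) (n1 := ndF0q0) (n2 := ndF4q3) (pc := pcF2) (cut := cut_B04pm_023_s1) (xt := Ext.none) (P1 := 0) (W1 := 536870912) (P2 := 0) (W2 := 1230186008) (P3 := 335544320) (W3 := 67108864)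
    rfl k0_B04pm_023_s1

theorem s_B04pm_023_s1 {κ x : ℝ} (hκ : κ * h0 = ken x) (hx : ((335544320 : ℕ) : ℝ) / S ≤ x)
    (hx' : x ≤ (((335544320 : ℕ) : ℝ) + (67108864 : ℕ)) / S) :
    AltB (VF κ) PP tKF tL pcF [⟨3, 0, 0, 1449551462⟩] 0 2 3 0 4 (sgb true) (sgb false) x :=
  strip_altB (m := 1449551462) true rfl hκ covF00 covF43 hx hx' c_B04pm_023_s1 cutB_nil (noExt_B)

noncomputable def cut_B04pm_033_s1 : Cut := Cut.of [[⟨4, 0, 0, 1449551462⟩]]

noncomputable def f_B04pm_033_s1 : ℕ → ℕ → ℕ → ℕ → Bool := onCell 0 536870912 0 1230186008 335544320 67108864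
    (rowF 0 false true false .pnn 0 3 3 (qsf 0 536870912 0 1230186008 3) ndF0q0 ndF4q3 pcF3 cut_B04pm_033_s1 Ext.none)

def k0_B04pm_033_s1 : ∃ t, chk3 f_B04pm_033_s1 t 1 1 1 = true :=
  ⟨(l 6), by decide +kernel⟩

theorem c_B04pm_033_s1 : CertF 0 536870912 0 1230186008 335544320 67108864 false true false .pnn 0 3 3
    ndF0q0 ndF4q3 pcF3 cut_B04pm_033_s1 Ext.none :=
  certF0 (fam := false) (s1 := true) (s2 := false) (a := 0) (b := 3) (c := 3) (cn := .pnn) (n1 := ndF0q0) (n2 := ndF4q3) (pc := pcF3) (cut := cut_B04pm_033_s1) (xt := Ext.none) (P1 := 0) (W1 := 536870912) (P2 := 0) (W2 := 1230186008) (P3 := 335544320) (W3 := 67108864)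
    rfl k0_B04pm_033_s1

theorem s_B04pm_033_s1 {κ x : ℝ} (hκ : κ * h0 = ken x) (hx : ((335544320 : ℕ) : ℝ) / S ≤ x)
    (hx' : x ≤ (((335544320 : ℕ) : ℝ) + (67108864 : ℕ)) / S) :
    AltB (VF κ) PP tKF tL pcF [⟨3, 0, 0, 1449551462⟩] 0 3 3 0 4 (sgb true) (sgb false) x :=
  strip_altB (m := 1449551462) true rfl hκ covF00 covF43 hx hx' c_B04pm_033_s1 cutB_nil (noExt_B)

noncomputable def cut_B04pm_101_s1 : Cut := Cut.of [[⟨4, 0, 0, 1449551462⟩]]

noncomputable def f_B04pm_101_s1 : ℕ → ℕ → ℕ → ℕ → Bool := onCell 536870912 536870912 536870912 536870912 335544320 67108864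
    (rowF 0 false true false .npn 1 0 1 (qsf 536870912 536870912 536870912 536870912 0) ndF0q1 ndF4q1 pcF0 cut_B04pm_101_s1 Ext.none)

def k0_B04pm_101_s1 : ∃ t, chk3 f_B04pm_101_s1 t 1 1 1 = true :=
  ⟨(l 4), by decide +kernel⟩

theorem c_B04pm_101_s1 : CertF 536870912 536870912 536870912 536870912 335544320 67108864 false true false .npn 1 0 1
    ndF0q1 ndF4q1 pcF0 cut_B04pm_101_s1 Ext.none :=
  certF0 (fam := false) (s1 := true) (s2 := false) (a := 1) (b := 0) (c := 1) (cn := .npn) (n1 := ndF0q1) (n2 := ndF4q1) (pc := pcF0) (cut := cut_B04pm_101_s1) (xt := Ext.none) (P1 := 536870912) (W1 := 536870912) (P2 := 536870912) (W2 := 536870912) (P3 := 335544320) (W3 := 67108864)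
    rfl k0_B04pm_101_s1

theorem s_B04pm_101_s1 {κ x : ℝ} (hκ : κ * h0 = ken x) (hx : ((335544320 : ℕ) : ℝ) / S ≤ x)
    (hx' : x ≤ (((335544320 : ℕ) : ℝ) + (67108864 : ℕ)) / S) :
    AltB (VF κ) PP tKF tL pcF [⟨3, 0, 0, 1449551462⟩] 1 0 1 0 4 (sgb true) (sgb false) x :=
  strip_altB (m := 1449551462) true rfl hκ covF01 covF41 hx hx' c_B04pm_101_s1 cutB_nil (noExt_B)

noncomputable def cut_B04pm_102_s1 : Cut := Cut.of [[⟨4, 0, 0, 1449551462⟩]]

noncomputable def f_B04pm_102_s1 : ℕ → ℕ → ℕ → ℕ → Bool := onCell 536870912 536870912 1073741824 536870912 335544320 67108864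
    (rowF 0 false true false .npp 1 0 2 (qsf 536870912 536870912 1073741824 536870912 0) ndF0q1 ndF4q2 pcF0 cut_B04pm_102_s1 Ext.none)

def k0_B04pm_102_s1 : ∃ t, chk3 f_B04pm_102_s1 t 1 1 1 = true :=
  ⟨(l 6), by decide +kernel⟩

theorem c_B04pm_102_s1 : CertF 536870912 536870912 1073741824 536870912 335544320 67108864 false true false .npp 1 0 2
    ndF0q1 ndF4q2 pcF0 cut_B04pm_102_s1 Ext.none :=
  certF0 (fam := false) (s1 := true) (s2 := false) (a := 1) (b := 0) (c := 2) (cn := .npp) (n1 := ndF0q1) (n2 := ndF4q2) (pc := pcF0) (cut := cut_B04pm_102_s1) (xt := Ext.none) (P1 := 536870912) (W1 := 536870912) (P2 := 1073741824) (W2 := 536870912) (P3 := 335544320) (W3 := 67108864)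
    rfl k0_B04pm_102_s1

theorem s_B04pm_102_s1 {κ x : ℝ} (hκ : κ * h0 = ken x) (hx : ((335544320 : ℕ) : ℝ) / S ≤ x)
    (hx' : x ≤ (((335544320 : ℕ) : ℝ) + (67108864 : ℕ)) / S) :
    AltB (VF κ) PP tKF tL pcF [⟨3, 0, 0, 1449551462⟩] 1 0 2 0 4 (sgb true) (sgb false) x :=
  strip_altB (m := 1449551462) true rfl hκ covF01 covF42 hx hx' c_B04pm_102_s1 cutB_nil (noExt_B)

noncomputable def cut_B04pm_112_s1 : Cut := Cut.of [[⟨4, 0, 0, 1449551462⟩]]

noncomputable def f_B04pm_112_s1 : ℕ → ℕ → ℕ → ℕ → Bool := onCell 536870912 536870912 1073741824 536870912 335544320 67108864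
    (rowF 0 false true false .dn 1 1 2 (qsf 536870912 536870912 1073741824 536870912 1) ndF0q1 ndF4q2 pcF1 cut_B04pm_112_s1 Ext.none)

def k0_B04pm_112_s1 : ∃ t, chk3 f_B04pm_112_s1 t 1 1 1 = true :=
  ⟨(l 6), by decide +kernel⟩

theorem c_B04pm_112_s1 : CertF 536870912 536870912 1073741824 536870912 335544320 67108864 false true false .dn 1 1 2
    ndF0q1 ndF4q2 pcF1 cut_B04pm_112_s1 Ext.none :=
  certF0 (fam := false) (s1 := true) (s2 := false) (a := 1) (b := 1) (c := 2) (cn := .dn) (n1 := ndF0q1) (n2 := ndF4q2) (pc := pcF1) (cut := cut_B04pm_112_s1) (xt := Ext.none) (P1 := 536870912) (W1 := 536870912) (P2 := 1073741824) (W2 := 536870912) (P3 := 335544320) (W3 := 67108864)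
    rfl k0_B04pm_112_s1

theorem s_B04pm_112_s1 {κ x : ℝ} (hκ : κ * h0 = ken x) (hx : ((335544320 : ℕ) : ℝ) / S ≤ x)
    (hx' : x ≤ (((335544320 : ℕ) : ℝ) + (67108864 : ℕ)) / S) :
    AltB (VF κ) PP tKF tL pcF [⟨3, 0, 0, 1449551462⟩] 1 1 2 0 4 (sgb true) (sgb false) x :=
  strip_altB (m := 1449551462) true rfl hκ covF01 covF42 hx hx' c_B04pm_112_s1 cutB_nil (noExt_B)

noncomputable def cut_B04pm_113_s1 : Cut := Cut.of [[⟨4, 0, 0, 1449551462⟩], [⟨0, 1, 0, 67108864⟩, ⟨1, 1, 0, 67108864⟩, ⟨2, 2, 0, 16777216⟩]]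

noncomputable def f_B04pm_113_s1 : ℕ → ℕ → ℕ → ℕ → Bool := onCell 536870912 536870912 0 1230186008 335544320 67108864
    (rowF 0 false true false .nn 1 1 3 (qsf 536870912 536870912 0 1230186008 1) ndF0q1 ndF4q3 pcF1 cut_B04pm_113_s1 Ext.none)

def k0_B04pm_113_s1 : ∃ t, chk3 f_B04pm_113_s1 t 1 1 1 = true :=
  ⟨(b (a (l 2) (a (l 2) (b (a (l 2) (b (a (l 2) (l 14)) (l 16867152))) (b (a (l 6) (l 16893376)) (l 6))))) (b (l 6) (l 6))), by decide +kernel⟩

theorem c_B04pm_113_s1 : CertF 536870912 536870912 0 1230186008 335544320 67108864 false true false .nn 1 1 3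
    ndF0q1 ndF4q3 pcF1 cut_B04pm_113_s1 Ext.none :=
  certF0 (fam := false) (s1 := true) (s2 := false) (a := 1) (b := 1) (c := 3) (cn := .nn) (n1 := ndF0q1) (n2 := ndF4q3) (pc := pcF1) (cut := cut_B04pm_113_s1) (xt := Ext.none) (P1 := 536870912) (W1 := 536870912) (P2 := 0) (W2 := 1230186008) (P3 := 335544320) (W3 := 67108864)
    rfl k0_B04pm_113_s1

theorem s_B04pm_113_s1 {κ x : ℝ} (hκ : κ * h0 = ken x) (hx : ((335544320 : ℕ) : ℝ) / S ≤ x)
    (hx' : x ≤ (((335544320 : ℕ) : ℝ) + (67108864 : ℕ)) / S)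
    (H : CutB (VF κ) PP tKF tL pcF (Cut.of [[⟨0, 1, 0, 67108864⟩, ⟨1, 1, 0, 67108864⟩, ⟨2, 2, 0, 16777216⟩]]) 1 1 3 0 4 (sgb true) (sgb false) x) :
    AltB (VF κ) PP tKF tL pcF [⟨3, 0, 0, 1449551462⟩] 1 1 3 0 4 (sgb true) (sgb false) x :=
  strip_altB (m := 1449551462) true rfl hκ covF01 covF43 hx hx' c_B04pm_113_s1 H (noExt_B)

noncomputable def cut_B04pm_123_s1 : Cut := Cut.of [[⟨4, 0, 0, 1449551462⟩], [⟨0, 1, 0, 67108864⟩, ⟨1, 1, 0, 67108864⟩, ⟨2, 2, 0, 16777216⟩]]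

noncomputable def f_B04pm_123_s1 : ℕ → ℕ → ℕ → ℕ → Bool := onCell 1073741824 536870912 0 1230186008 335544320 67108864
    (rowF 2 false true false .npn 1 2 3 (qsf 536870912 536870912 0 1230186008 2) ndF0q1 ndF4q3 pcF2 cut_B04pm_123_s1 Ext.none)

def k0_B04pm_123_s1 : ∃ t, chk3 f_B04pm_123_s1 t 1 1 1 = true :=
  ⟨(b (a (a (b (a (b (a (l 14) (l 16899232)) (l 16855936)) (b (l 16843232) (l 6))) (b (l 6) (l 6))) (b (b (l 6) (l 6)) (l 6))) (l 6)) (l 6)), by decide +kernel⟩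

theorem c_B04pm_123_s1 : CertF 536870912 536870912 0 1230186008 335544320 67108864 false true false .npn 1 2 3
    ndF0q1 ndF4q3 pcF2 cut_B04pm_123_s1 Ext.none :=
  certF2 (fam := false) (s1 := true) (s2 := false) (a := 1) (b := 2) (c := 3) (cn := .npn) (n1 := ndF0q1) (n2 := ndF4q3) (pc := pcF2) (cut := cut_B04pm_123_s1) (xt := Ext.none) (P1 := 536870912) (W1 := 536870912) (P2 := 0) (W2 := 1230186008) (P3 := 335544320) (W3 := 67108864)
    rfl (fun _ => rfl) k0_B04pm_123_s1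

theorem s_B04pm_123_s1 {κ x : ℝ} (hκ : κ * h0 = ken x) (hx : ((335544320 : ℕ) : ℝ) / S ≤ x)
    (hx' : x ≤ (((335544320 : ℕ) : ℝ) + (67108864 : ℕ)) / S)
    (H : CutB (VF κ) PP tKF tL pcF (Cut.of [[⟨0, 1, 0, 67108864⟩, ⟨1, 1, 0, 67108864⟩, ⟨2, 2, 0, 16777216⟩]]) 1 2 3 0 4 (sgb true) (sgb false) x) :
    AltB (VF κ) PP tKF tL pcF [⟨3, 0, 0, 1449551462⟩] 1 2 3 0 4 (sgb true) (sgb false) x :=
  strip_altB (m := 1449551462) true rfl hκ covF01 covF43 hx hx' c_B04pm_123_s1 H (noExt_B)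

noncomputable def cut_B04pm_133_s1 : Cut := Cut.of [[⟨4, 0, 0, 1449551462⟩]]

noncomputable def f_B04pm_133_s1 : ℕ → ℕ → ℕ → ℕ → Bool := onCell 1610612736 536870912 0 1230186008 335544320 67108864
    (rowF 2 false true false .dn 1 3 3 (qsf 536870912 536870912 0 1230186008 3) ndF0q1 ndF4q3 pcF3 cut_B04pm_133_s1 Ext.none)

def k0_B04pm_133_s1 : ∃ t, chk3 f_B04pm_133_s1 t 1 1 1 = true :=
  ⟨(l 6), by decide +kernel⟩

theorem c_B04pm_133_s1 : CertF 536870912 536870912 0 1230186008 335544320 67108864 false true false .dn 1 3 3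
    ndF0q1 ndF4q3 pcF3 cut_B04pm_133_s1 Ext.none :=
  certF2 (fam := false) (s1 := true) (s2 := false) (a := 1) (b := 3) (c := 3) (cn := .dn) (n1 := ndF0q1) (n2 := ndF4q3) (pc := pcF3) (cut := cut_B04pm_133_s1) (xt := Ext.none) (P1 := 536870912) (W1 := 536870912) (P2 := 0) (W2 := 1230186008) (P3 := 335544320) (W3 := 67108864)
    rfl (fun _ => rfl) k0_B04pm_133_s1

theorem s_B04pm_133_s1 {κ x : ℝ} (hκ : κ * h0 = ken x) (hx : ((335544320 : ℕ) : ℝ) / S ≤ x)
    (hx' : x ≤ (((335544320 : ℕ) : ℝ) + (67108864 : ℕ)) / S) :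
    AltB (VF κ) PP tKF tL pcF [⟨3, 0, 0, 1449551462⟩] 1 3 3 0 4 (sgb true) (sgb false) x :=
  strip_altB (m := 1449551462) true rfl hκ covF01 covF43 hx hx' c_B04pm_133_s1 cutB_nil (noExt_B)

noncomputable def cut_B04pm_202_s1 : Cut := Cut.of [[⟨4, 0, 0, 1449551462⟩]]

noncomputable def f_B04pm_202_s1 : ℕ → ℕ → ℕ → ℕ → Bool := onCell 0 536870912 1073741824 536870912 335544320 67108864
    (rowF 0 false true false .pp 2 0 2 (qsf 0 536870912 1073741824 536870912 0) ndF0q2 ndF4q2 pcF0 cut_B04pm_202_s1 Ext.none)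

def k0_B04pm_202_s1 : ∃ t, chk3 f_B04pm_202_s1 t 1 1 1 = true :=
  ⟨(a (b (l 6) (b (l 6) (l 6))) (l 6)), by decide +kernel⟩

theorem c_B04pm_202_s1 : CertF 0 536870912 1073741824 536870912 335544320 67108864 false true false .pp 2 0 2
    ndF0q2 ndF4q2 pcF0 cut_B04pm_202_s1 Ext.none :=
  certF0 (fam := false) (s1 := true) (s2 := false) (a := 2) (b := 0) (c := 2) (cn := .pp) (n1 := ndF0q2) (n2 := ndF4q2) (pc := pcF0) (cut := cut_B04pm_202_s1) (xt := Ext.none) (P1 := 0) (W1 := 536870912) (P2 := 1073741824) (W2 := 536870912) (P3 := 335544320) (W3 := 67108864)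
    rfl k0_B04pm_202_s1

theorem s_B04pm_202_s1 {κ x : ℝ} (hκ : κ * h0 = ken x) (hx : ((335544320 : ℕ) : ℝ) / S ≤ x)
    (hx' : x ≤ (((335544320 : ℕ) : ℝ) + (67108864 : ℕ)) / S) :
    AltB (VF κ) PP tKF tL pcF [⟨3, 0, 0, 1449551462⟩] 2 0 2 0 4 (sgb true) (sgb false) x :=
  strip_altB (m := 1449551462) true rfl hκ covF02 covF42 hx hx' c_B04pm_202_s1 cutB_nil (noExt_B)

noncomputable def cut_B04pm_203_s1 : Cut := Cut.of [[⟨4, 0, 0, 1449551462⟩]]

noncomputable def f_B04pm_203_s1 : ℕ → ℕ → ℕ → ℕ → Bool := onCell 0 536870912 0 1230186008 335544320 67108864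
    (rowF 0 false true false .up 2 0 3 (qsf 0 536870912 0 1230186008 0) ndF0q2 ndF4q3 pcF0 cut_B04pm_203_s1 Ext.none)

def k0_B04pm_203_s1 : ∃ t, chk3 f_B04pm_203_s1 t 1 1 1 = true :=
  ⟨(b (l 2) (b (l 2) (a (b (a (b (l 2) (l 358730914327)) (l 338330622407)) (a (b (l 17015192) (l 17095272)) (l 6))) (l 6)))), by decide +kernel⟩

theorem c_B04pm_203_s1 : CertF 0 536870912 0 1230186008 335544320 67108864 false true false .up 2 0 3
    ndF0q2 ndF4q3 pcF0 cut_B04pm_203_s1 Ext.none :=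
  certF0 (fam := false) (s1 := true) (s2 := false) (a := 2) (b := 0) (c := 3) (cn := .up) (n1 := ndF0q2) (n2 := ndF4q3) (pc := pcF0) (cut := cut_B04pm_203_s1) (xt := Ext.none) (P1 := 0) (W1 := 536870912) (P2 := 0) (W2 := 1230186008) (P3 := 335544320) (W3 := 67108864)
    rfl k0_B04pm_203_s1

theorem s_B04pm_203_s1 {κ x : ℝ} (hκ : κ * h0 = ken x) (hx : ((335544320 : ℕ) : ℝ) / S ≤ x)
    (hx' : x ≤ (((335544320 : ℕ) : ℝ) + (67108864 : ℕ)) / S) :
    AltB (VF κ) PP tKF tL pcF [⟨3, 0, 0, 1449551462⟩] 2 0 3 0 4 (sgb true) (sgb false) x :=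
  strip_altB (m := 1449551462) true rfl hκ covF02 covF43 hx hx' c_B04pm_203_s1 cutB_nil (noExt_B)

noncomputable def cut_B04pm_213_s1 : Cut := Cut.of [[⟨4, 0, 0, 1449551462⟩], [⟨0, 1, 0, 67108864⟩, ⟨1, 1, 0, 67108864⟩, ⟨2, 2, 0, 16777216⟩]]

noncomputable def xt_B04pm_213_s1 : Ext := strExt dd false true false .u2 .s2m .u0m .pnn 2 1 3 rfl rfl gf1 vv ndF0q2 ndF4q3

noncomputable def f_B04pm_213_s1 : ℕ → ℕ → ℕ → ℕ → Bool := onCell 0 536870912 0 1230186008 335544320 67108864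
    (rowF 0 false true false .pnn 2 1 3 (qsf 0 536870912 0 1230186008 1) ndF0q2 ndF4q3 pcF1 cut_B04pm_213_s1 xt_B04pm_213_s1)

def k0_B04pm_213_s1 : ∃ t, chk3 f_B04pm_213_s1 t 1 1 1 = true :=
  ⟨(b (a (b (l 3) (a (l 3) (b (l 3) (a (b (l 3) (l 539124751)) (l 538867471))))) (b (a (a (l 3) (b (l 3) (a (l 3) (l 537662479)))) (b (a (a (l 3) (l 14)) (l 14)) (a (a (b (l 537437199) (l 537624335)) (b (a (l 537308687) (l 14)) (l 16787840))) (b (a (l 16826464) (l 16795376)) (l 16798464))))) (a (b (a (b (l 538313999) (l 538453519)) (a (l 538142991) (l 538006799))) (a (b (l 538585359) (l 16820288)) (b (l 16822368) (l 16850416)))) (b (a (b (l 16799280) (l 16819040)) (l 16817320)) (a (l 16860504) (l 16876408)))))) (b (b (a (a (a (l 3) (b (l 3) (a (l 3) (l 539326223)))) (a (b (l 539172111) (a (l 539236623) (l 16792384))) (b (l 538969871) (l 16844168)))) (a (a (l 16866992) (l 16900592)) (l 6))) (b (a (a (a (b (l 3) (l 539330831))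 (l 539299599)) (a (l 16792960) (l 16876688))) (a (l 16933616) (l 6))) (a (a (a (l 539226895) (b (l 539714831) (l 16830048))) (l 16886312)) (l 6)))) (a (b (a (a (b (l 539050767) (l 16837544)) (b (l 16851120) (l 16874096))) (b (l 16953792) (l 16926840))) (a (l 1) (l 6))) (l 6)))), by decide +kernel⟩

theorem c_B04pm_213_s1 : CertF 0 536870912 0 1230186008 335544320 67108864 false true false .pnn 2 1 3
    ndF0q2 ndF4q3 pcF1 cut_B04pm_213_s1 xt_B04pm_213_s1 :=
  certF0 (fam := false) (s1 := true) (s2 := false) (a := 2) (b := 1) (c := 3) (cn := .pnn) (n1 := ndF0q2) (n2 := ndF4q3) (pc := pcF1) (cut := cut_B04pm_213_s1) (xt := xt_B04pm_213_s1) (P1 := 0) (W1 := 536870912) (P2 := 0) (W2 := 1230186008) (P3 := 335544320) (W3 := 67108864)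
    rfl k0_B04pm_213_s1

theorem s_B04pm_213_s1 {κ x : ℝ} (hκ : κ * h0 = ken x) (hx : ((335544320 : ℕ) : ℝ) / S ≤ x)
    (hx' : x ≤ (((335544320 : ℕ) : ℝ) + (67108864 : ℕ)) / S)
    (H : CutB (VF κ) PP tKF tL pcF (Cut.of [[⟨0, 1, 0, 67108864⟩, ⟨1, 1, 0, 67108864⟩, ⟨2, 2, 0, 16777216⟩]]) 2 1 3 0 4 (sgb true) (sgb false) x) :
    AltB (VF κ) PP tKF tL pcF [⟨3, 0, 0, 1449551462⟩] 2 1 3 0 4 (sgb true) (sgb false) x :=
  strip_altB (m := 1449551462) true rfl hκ covF02 covF43 hx hx' c_B04pm_213_s1 H ((okx hx hx').extB (T := tt) (sideF hx hx') hκ rfl rfl (.O 2 true) (.N 3 false) (Or.inr rfl))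

noncomputable def cut_B04mm_001_s1 : Cut := Cut.of [[⟨4, 0, 0, 1449551462⟩]]

noncomputable def f_B04mm_001_s1 : ℕ → ℕ → ℕ → ℕ → Bool := onCell 0 536870912 0 536870912 335544320 67108864
    (rowF 1 false false false .up 0 0 1 (qsf 0 536870912 536870912 536870912 0) ndF0q0 ndF4q1 pcF0 cut_B04mm_001_s1 Ext.none)

def k0_B04mm_001_s1 : ∃ t, chk3 f_B04mm_001_s1 t 1 1 1 = true :=
  ⟨(l 3), by decide +kernel⟩

theorem c_B04mm_001_s1 : CertF 0 536870912 536870912 536870912 335544320 67108864 false false false .up 0 0 1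
    ndF0q0 ndF4q1 pcF0 cut_B04mm_001_s1 Ext.none :=
  certF1 (fam := false) (s1 := false) (s2 := false) (a := 0) (b := 0) (c := 1) (cn := .up) (n1 := ndF0q0) (n2 := ndF4q1) (pc := pcF0) (cut := cut_B04mm_001_s1) (xt := Ext.none) (P1 := 0) (W1 := 536870912) (P2 := 536870912) (W2 := 536870912) (P3 := 335544320) (W3 := 67108864)
    rfl (fun _ => rfl) k0_B04mm_001_s1

theorem s_B04mm_001_s1 {κ x : ℝ} (hκ : κ * h0 = ken x) (hx : ((335544320 : ℕ) : ℝ) / S ≤ x)
    (hx' : x ≤ (((335544320 : ℕ) : ℝ) + (67108864 : ℕ)) / S) :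
    AltB (VF κ) PP tKF tL pcF [⟨3, 0, 0, 1449551462⟩] 0 0 1 0 4 (sgb false) (sgb false) x :=
  strip_altB (m := 1449551462) true rfl hκ covF00 covF41 hx hx' c_B04mm_001_s1 cutB_nil (noExt_B)

noncomputable def cut_B04mm_011_s1 : Cut := Cut.of [[⟨4, 0, 0, 1449551462⟩]]

noncomputable def f_B04mm_011_s1 : ℕ → ℕ → ℕ → ℕ → Bool := onCell 0 536870912 536870912 536870912 335544320 67108864
    (rowF 1 false false false .pnn 0 1 1 (qsf 0 536870912 536870912 536870912 1) ndF0q0 ndF4q1 pcF1 cut_B04mm_011_s1 Ext.none)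

def k0_B04mm_011_s1 : ∃ t, chk3 f_B04mm_011_s1 t 1 1 1 = true :=
  ⟨(l 5), by decide +kernel⟩

theorem c_B04mm_011_s1 : CertF 0 536870912 536870912 536870912 335544320 67108864 false false false .pnn 0 1 1
    ndF0q0 ndF4q1 pcF1 cut_B04mm_011_s1 Ext.none :=
  certF1 (fam := false) (s1 := false) (s2 := false) (a := 0) (b := 1) (c := 1) (cn := .pnn) (n1 := ndF0q0) (n2 := ndF4q1) (pc := pcF1) (cut := cut_B04mm_011_s1) (xt := Ext.none) (P1 := 0) (W1 := 536870912) (P2 := 536870912) (W2 := 536870912) (P3 := 335544320) (W3 := 67108864)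
    rfl (fun _ => rfl) k0_B04mm_011_s1

theorem s_B04mm_011_s1 {κ x : ℝ} (hκ : κ * h0 = ken x) (hx : ((335544320 : ℕ) : ℝ) / S ≤ x)
    (hx' : x ≤ (((335544320 : ℕ) : ℝ) + (67108864 : ℕ)) / S) :
    AltB (VF κ) PP tKF tL pcF [⟨3, 0, 0, 1449551462⟩] 0 1 1 0 4 (sgb false) (sgb false) x :=
  strip_altB (m := 1449551462) true rfl hκ covF00 covF41 hx hx' c_B04mm_011_s1 cutB_nil (noExt_B)

noncomputable def cut_B04mm_012_s1 : Cut := Cut.of [[⟨4, 0, 0, 1449551462⟩]]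

noncomputable def f_B04mm_012_s1 : ℕ → ℕ → ℕ → ℕ → Bool := onCell 0 536870912 1073741824 536870912 335544320 67108864
    (rowF 0 false false false .pnp 0 1 2 (qsf 0 536870912 1073741824 536870912 1) ndF0q0 ndF4q2 pcF1 cut_B04mm_012_s1 Ext.none)

def k0_B04mm_012_s1 : ∃ t, chk3 f_B04mm_012_s1 t 1 1 1 = true :=
  ⟨(l 5), by decide +kernel⟩

theorem c_B04mm_012_s1 : CertF 0 536870912 1073741824 536870912 335544320 67108864 false false false .pnp 0 1 2
    ndF0q0 ndF4q2 pcF1 cut_B04mm_012_s1 Ext.none :=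
  certF0 (fam := false) (s1 := false) (s2 := false) (a := 0) (b := 1) (c := 2) (cn := .pnp) (n1 := ndF0q0) (n2 := ndF4q2) (pc := pcF1) (cut := cut_B04mm_012_s1) (xt := Ext.none) (P1 := 0) (W1 := 536870912) (P2 := 1073741824) (W2 := 536870912) (P3 := 335544320) (W3 := 67108864)
    rfl k0_B04mm_012_s1

theorem s_B04mm_012_s1 {κ x : ℝ} (hκ : κ * h0 = ken x) (hx : ((335544320 : ℕ) : ℝ) / S ≤ x)
    (hx' : x ≤ (((335544320 : ℕ) : ℝ) + (67108864 : ℕ)) / S) :
    AltB (VF κ) PP tKF tL pcF [⟨3, 0, 0, 1449551462⟩] 0 1 2 0 4 (sgb false) (sgb false) x :=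
  strip_altB (m := 1449551462) true rfl hκ covF00 covF42 hx hx' c_B04mm_012_s1 cutB_nil (noExt_B)

noncomputable def cut_B04mm_022_s1 : Cut := Cut.of [[⟨4, 0, 0, 1449551462⟩]]

noncomputable def f_B04mm_022_s1 : ℕ → ℕ → ℕ → ℕ → Bool := onCell 0 536870912 1073741824 536870912 335544320 67108864
    (rowF 0 false false false .pp 0 2 2 (qsf 0 536870912 1073741824 536870912 2) ndF0q0 ndF4q2 pcF2 cut_B04mm_022_s1 Ext.none)

def k0_B04mm_022_s1 : ∃ t, chk3 f_B04mm_022_s1 t 1 1 1 = true :=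
  ⟨(l 5), by decide +kernel⟩

theorem c_B04mm_022_s1 : CertF 0 536870912 1073741824 536870912 335544320 67108864 false false false .pp 0 2 2
    ndF0q0 ndF4q2 pcF2 cut_B04mm_022_s1 Ext.none :=
  certF0 (fam := false) (s1 := false) (s2 := false) (a := 0) (b := 2) (c := 2) (cn := .pp) (n1 := ndF0q0) (n2 := ndF4q2) (pc := pcF2) (cut := cut_B04mm_022_s1) (xt := Ext.none) (P1 := 0) (W1 := 536870912) (P2 := 1073741824) (W2 := 536870912) (P3 := 335544320) (W3 := 67108864)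
    rfl k0_B04mm_022_s1

theorem s_B04mm_022_s1 {κ x : ℝ} (hκ : κ * h0 = ken x) (hx : ((335544320 : ℕ) : ℝ) / S ≤ x)
    (hx' : x ≤ (((335544320 : ℕ) : ℝ) + (67108864 : ℕ)) / S) :
    AltB (VF κ) PP tKF tL pcF [⟨3, 0, 0, 1449551462⟩] 0 2 2 0 4 (sgb false) (sgb false) x :=
  strip_altB (m := 1449551462) true rfl hκ covF00 covF42 hx hx' c_B04mm_022_s1 cutB_nil (noExt_B)

noncomputable def cut_B04mm_023_s1 : Cut := Cut.of [[⟨4, 0, 0, 1449551462⟩]]

noncomputable def f_B04mm_023_s1 : ℕ → ℕ → ℕ → ℕ → Bool := onCell 0 536870912 0 1230186008 335544320 67108864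
    (rowF 0 false false false .up 0 2 3 (qsf 0 536870912 0 1230186008 2) ndF0q0 ndF4q3 pcF2 cut_B04mm_023_s1 Ext.none)

def k0_B04mm_023_s1 : ∃ t, chk3 f_B04mm_023_s1 t 1 1 1 = true :=
  ⟨(l 5), by decide +kernel⟩

theorem c_B04mm_023_s1 : CertF 0 536870912 0 1230186008 335544320 67108864 false false false .up 0 2 3
    ndF0q0 ndF4q3 pcF2 cut_B04mm_023_s1 Ext.none :=
  certF0 (fam := false) (s1 := false) (s2 := false) (a := 0) (b := 2) (c := 3) (cn := .up) (n1 := ndF0q0) (n2 := ndF4q3) (pc := pcF2) (cut := cut_B04mm_023_s1) (xt := Ext.none) (P1 := 0) (W1 := 536870912) (P2 := 0) (W2 := 1230186008) (P3 := 335544320) (W3 := 67108864)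
    rfl k0_B04mm_023_s1

theorem s_B04mm_023_s1 {κ x : ℝ} (hκ : κ * h0 = ken x) (hx : ((335544320 : ℕ) : ℝ) / S ≤ x)
    (hx' : x ≤ (((335544320 : ℕ) : ℝ) + (67108864 : ℕ)) / S) :
    AltB (VF κ) PP tKF tL pcF [⟨3, 0, 0, 1449551462⟩] 0 2 3 0 4 (sgb false) (sgb false) x :=
  strip_altB (m := 1449551462) true rfl hκ covF00 covF43 hx hx' c_B04mm_023_s1 cutB_nil (noExt_B)

noncomputable def cut_B04mm_033_s1 : Cut := Cut.of [[⟨4, 0, 0, 1449551462⟩]]

noncomputable def f_B04mm_033_s1 : ℕ → ℕ → ℕ → ℕ → Bool := onCell 0 536870912 0 1230186008 335544320 67108864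
    (rowF 0 false false false .pnn 0 3 3 (qsf 0 536870912 0 1230186008 3) ndF0q0 ndF4q3 pcF3 cut_B04mm_033_s1 Ext.none)

def k0_B04mm_033_s1 : ∃ t, chk3 f_B04mm_033_s1 t 1 1 1 = true :=
  ⟨(l 5), by decide +kernel⟩

theorem c_B04mm_033_s1 : CertF 0 536870912 0 1230186008 335544320 67108864 false false false .pnn 0 3 3
    ndF0q0 ndF4q3 pcF3 cut_B04mm_033_s1 Ext.none :=
  certF0 (fam := false) (s1 := false) (s2 := false) (a := 0) (b := 3) (c := 3) (cn := .pnn) (n1 := ndF0q0) (n2 := ndF4q3) (pc := pcF3) (cut := cut_B04mm_033_s1) (xt := Ext.none) (P1 := 0) (W1 := 536870912) (P2 := 0) (W2 := 1230186008) (P3 := 335544320) (W3 := 67108864)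
    rfl k0_B04mm_033_s1

theorem s_B04mm_033_s1 {κ x : ℝ} (hκ : κ * h0 = ken x) (hx : ((335544320 : ℕ) : ℝ) / S ≤ x)
    (hx' : x ≤ (((335544320 : ℕ) : ℝ) + (67108864 : ℕ)) / S) :
    AltB (VF κ) PP tKF tL pcF [⟨3, 0, 0, 1449551462⟩] 0 3 3 0 4 (sgb false) (sgb false) x :=
  strip_altB (m := 1449551462) true rfl hκ covF00 covF43 hx hx' c_B04mm_033_s1 cutB_nil (noExt_B)

noncomputable def cut_B04mm_101_s1 : Cut := Cut.of [[⟨4, 0, 0, 1449551462⟩], [⟨0, 1, 0, 67108864⟩, ⟨1, 0, 0, 67108864⟩, ⟨2, 1, 0, 67108864⟩]]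

noncomputable def f_B04mm_101_s1 : ℕ → ℕ → ℕ → ℕ → Bool := onCell 536870912 536870912 0 536870912 335544320 67108864
    (rowF 1 false false false .npn 1 0 1 (qsf 536870912 536870912 536870912 536870912 0) ndF0q1 ndF4q1 pcF0 cut_B04mm_101_s1 Ext.none)

def k0_B04mm_101_s1 : ∃ t, chk3 f_B04mm_101_s1 t 1 1 1 = true :=
  ⟨(a (l 3) (b (b (a (l 3) (a (l 3) (b (a (l 3) (b (l 14) (l 3))) (l 3)))) (l 3)) (l 3))), by decide +kernel⟩

theorem c_B04mm_101_s1 : CertF 536870912 536870912 536870912 536870912 335544320 67108864 false false false .npn 1 0 1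
    ndF0q1 ndF4q1 pcF0 cut_B04mm_101_s1 Ext.none :=
  certF1 (fam := false) (s1 := false) (s2 := false) (a := 1) (b := 0) (c := 1) (cn := .npn) (n1 := ndF0q1) (n2 := ndF4q1) (pc := pcF0) (cut := cut_B04mm_101_s1) (xt := Ext.none) (P1 := 536870912) (W1 := 536870912) (P2 := 536870912) (W2 := 536870912) (P3 := 335544320) (W3 := 67108864)
    rfl (fun _ => rfl) k0_B04mm_101_s1

theorem s_B04mm_101_s1 {κ x : ℝ} (hκ : κ * h0 = ken x) (hx : ((335544320 : ℕ) : ℝ) / S ≤ x)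
    (hx' : x ≤ (((335544320 : ℕ) : ℝ) + (67108864 : ℕ)) / S)
    (H : CutB (VF κ) PP tKF tL pcF (Cut.of [[⟨0, 1, 0, 67108864⟩, ⟨1, 0, 0, 67108864⟩, ⟨2, 1, 0, 67108864⟩]]) 1 0 1 0 4 (sgb false) (sgb false) x) :
    AltB (VF κ) PP tKF tL pcF [⟨3, 0, 0, 1449551462⟩] 1 0 1 0 4 (sgb false) (sgb false) x :=
  strip_altB (m := 1449551462) true rfl hκ covF01 covF41 hx hx' c_B04mm_101_s1 H (noExt_B)

noncomputable def cut_B04mm_102_s1 : Cut := Cut.of [[⟨4, 0, 0, 1449551462⟩], [⟨0, 1, 0, 67108864⟩, ⟨1, 0, 0, 67108864⟩, ⟨2, 1, 0, 67108864⟩]]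

noncomputable def f_B04mm_102_s1 : ℕ → ℕ → ℕ → ℕ → Bool := onCell 536870912 536870912 0 536870912 335544320 67108864
    (rowF 1 false false false .npp 1 0 2 (qsf 536870912 536870912 1073741824 536870912 0) ndF0q1 ndF4q2 pcF0 cut_B04mm_102_s1 Ext.none)

def k0_B04mm_102_s1 : ∃ t, chk3 f_B04mm_102_s1 t 1 1 1 = true :=
  ⟨(b (a (l 3) (a (l 3) (b (a (l 3) (b (a (l 3) (b (l 14) (l 3))) (l 3))) (l 3)))) (l 3)), by decide +kernel⟩

theorem c_B04mm_102_s1 : CertF 536870912 536870912 1073741824 536870912 335544320 67108864 false false false .npp 1 0 2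
    ndF0q1 ndF4q2 pcF0 cut_B04mm_102_s1 Ext.none :=
  certF1 (fam := false) (s1 := false) (s2 := false) (a := 1) (b := 0) (c := 2) (cn := .npp) (n1 := ndF0q1) (n2 := ndF4q2) (pc := pcF0) (cut := cut_B04mm_102_s1) (xt := Ext.none) (P1 := 536870912) (W1 := 536870912) (P2 := 1073741824) (W2 := 536870912) (P3 := 335544320) (W3 := 67108864)
    rfl (fun _ => rfl) k0_B04mm_102_s1

theorem s_B04mm_102_s1 {κ x : ℝ} (hκ : κ * h0 = ken x) (hx : ((335544320 : ℕ) : ℝ) / S ≤ x)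
    (hx' : x ≤ (((335544320 : ℕ) : ℝ) + (67108864 : ℕ)) / S)
    (H : CutB (VF κ) PP tKF tL pcF (Cut.of [[⟨0, 1, 0, 67108864⟩, ⟨1, 0, 0, 67108864⟩, ⟨2, 1, 0, 67108864⟩]]) 1 0 2 0 4 (sgb false) (sgb false) x) :
    AltB (VF κ) PP tKF tL pcF [⟨3, 0, 0, 1449551462⟩] 1 0 2 0 4 (sgb false) (sgb false) x :=
  strip_altB (m := 1449551462) true rfl hκ covF01 covF42 hx hx' c_B04mm_102_s1 H (noExt_B)

noncomputable def cut_B04mm_112_s1 : Cut := Cut.of [[⟨4, 0, 0, 1449551462⟩]]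

noncomputable def f_B04mm_112_s1 : ℕ → ℕ → ℕ → ℕ → Bool := onCell 536870912 536870912 1073741824 536870912 335544320 67108864
    (rowF 2 false false false .dn 1 1 2 (qsf 536870912 536870912 1073741824 536870912 1) ndF0q1 ndF4q2 pcF1 cut_B04mm_112_s1 Ext.none)

def k0_B04mm_112_s1 : ∃ t, chk3 f_B04mm_112_s1 t 1 1 1 = true :=
  ⟨(a (l 3) (l 5)), by decide +kernel⟩

theorem c_B04mm_112_s1 : CertF 536870912 536870912 1073741824 536870912 335544320 67108864 false false false .dn 1 1 2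
    ndF0q1 ndF4q2 pcF1 cut_B04mm_112_s1 Ext.none :=
  certF2 (fam := false) (s1 := false) (s2 := false) (a := 1) (b := 1) (c := 2) (cn := .dn) (n1 := ndF0q1) (n2 := ndF4q2) (pc := pcF1) (cut := cut_B04mm_112_s1) (xt := Ext.none) (P1 := 536870912) (W1 := 536870912) (P2 := 1073741824) (W2 := 536870912) (P3 := 335544320) (W3 := 67108864)
    rfl (fun _ => rfl) k0_B04mm_112_s1

theorem s_B04mm_112_s1 {κ x : ℝ} (hκ : κ * h0 = ken x) (hx : ((335544320 : ℕ) : ℝ) / S ≤ x)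
    (hx' : x ≤ (((335544320 : ℕ) : ℝ) + (67108864 : ℕ)) / S) :
    AltB (VF κ) PP tKF tL pcF [⟨3, 0, 0, 1449551462⟩] 1 1 2 0 4 (sgb false) (sgb false) x :=
  strip_altB (m := 1449551462) true rfl hκ covF01 covF42 hx hx' c_B04mm_112_s1 cutB_nil (noExt_B)

noncomputable def cut_B04mm_113_s1 : Cut := Cut.of [[⟨4, 0, 0, 1449551462⟩]]

noncomputable def f_B04mm_113_s1 : ℕ → ℕ → ℕ → ℕ → Bool := onCell 536870912 536870912 0 1230186008 335544320 67108864
    (rowF 0 false false false .nn 1 1 3 (qsf 536870912 536870912 0 1230186008 1) ndF0q1 ndF4q3 pcF1 cut_B04mm_113_s1 Ext.none)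

def k0_B04mm_113_s1 : ∃ t, chk3 f_B04mm_113_s1 t 1 1 1 = true :=
  ⟨(b (l 5) (a (l 5) (b (a (l 5) (l 3)) (l 3)))), by decide +kernel⟩

theorem c_B04mm_113_s1 : CertF 536870912 536870912 0 1230186008 335544320 67108864 false false false .nn 1 1 3
    ndF0q1 ndF4q3 pcF1 cut_B04mm_113_s1 Ext.none :=
  certF0 (fam := false) (s1 := false) (s2 := false) (a := 1) (b := 1) (c := 3) (cn := .nn) (n1 := ndF0q1) (n2 := ndF4q3) (pc := pcF1) (cut := cut_B04mm_113_s1) (xt := Ext.none) (P1 := 536870912) (W1 := 536870912) (P2 := 0) (W2 := 1230186008) (P3 := 335544320) (W3 := 67108864)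
    rfl k0_B04mm_113_s1

theorem s_B04mm_113_s1 {κ x : ℝ} (hκ : κ * h0 = ken x) (hx : ((335544320 : ℕ) : ℝ) / S ≤ x)
    (hx' : x ≤ (((335544320 : ℕ) : ℝ) + (67108864 : ℕ)) / S) :
    AltB (VF κ) PP tKF tL pcF [⟨3, 0, 0, 1449551462⟩] 1 1 3 0 4 (sgb false) (sgb false) x :=
  strip_altB (m := 1449551462) true rfl hκ covF01 covF43 hx hx' c_B04mm_113_s1 cutB_nil (noExt_B)

noncomputable def cut_B04mm_123_s1 : Cut := Cut.of [[⟨4, 0, 0, 1449551462⟩]]

noncomputable def f_B04mm_123_s1 : ℕ → ℕ → ℕ → ℕ → Bool := onCell 1073741824 536870912 0 1230186008 335544320 67108864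
    (rowF 2 false false false .npn 1 2 3 (qsf 536870912 536870912 0 1230186008 2) ndF0q1 ndF4q3 pcF2 cut_B04mm_123_s1 Ext.none)

def k0_B04mm_123_s1 : ∃ t, chk3 f_B04mm_123_s1 t 1 1 1 = true :=
  ⟨(b (l 5) (l 5)), by decide +kernel⟩

theorem c_B04mm_123_s1 : CertF 536870912 536870912 0 1230186008 335544320 67108864 false false false .npn 1 2 3
    ndF0q1 ndF4q3 pcF2 cut_B04mm_123_s1 Ext.none :=
  certF2 (fam := false) (s1 := false) (s2 := false) (a := 1) (b := 2) (c := 3) (cn := .npn) (n1 := ndF0q1) (n2 := ndF4q3) (pc := pcF2) (cut := cut_B04mm_123_s1) (xt := Ext.none) (P1 := 536870912) (W1 := 536870912) (P2 := 0) (W2 := 1230186008) (P3 := 335544320) (W3 := 67108864)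
    rfl (fun _ => rfl) k0_B04mm_123_s1

theorem s_B04mm_123_s1 {κ x : ℝ} (hκ : κ * h0 = ken x) (hx : ((335544320 : ℕ) : ℝ) / S ≤ x)
    (hx' : x ≤ (((335544320 : ℕ) : ℝ) + (67108864 : ℕ)) / S) :
    AltB (VF κ) PP tKF tL pcF [⟨3, 0, 0, 1449551462⟩] 1 2 3 0 4 (sgb false) (sgb false) x :=
  strip_altB (m := 1449551462) true rfl hκ covF01 covF43 hx hx' c_B04mm_123_s1 cutB_nil (noExt_B)

noncomputable def cut_B04mm_133_s1 : Cut := Cut.of [[⟨4, 0, 0, 1449551462⟩]]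

noncomputable def f_B04mm_133_s1 : ℕ → ℕ → ℕ → ℕ → Bool := onCell 1610612736 536870912 0 1230186008 335544320 67108864
    (rowF 2 false false false .dn 1 3 3 (qsf 536870912 536870912 0 1230186008 3) ndF0q1 ndF4q3 pcF3 cut_B04mm_133_s1 Ext.none)

def k0_B04mm_133_s1 : ∃ t, chk3 f_B04mm_133_s1 t 1 1 1 = true :=
  ⟨(l 5), by decide +kernel⟩

theorem c_B04mm_133_s1 : CertF 536870912 536870912 0 1230186008 335544320 67108864 false false false .dn 1 3 3
    ndF0q1 ndF4q3 pcF3 cut_B04mm_133_s1 Ext.none :=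
  certF2 (fam := false) (s1 := false) (s2 := false) (a := 1) (b := 3) (c := 3) (cn := .dn) (n1 := ndF0q1) (n2 := ndF4q3) (pc := pcF3) (cut := cut_B04mm_133_s1) (xt := Ext.none) (P1 := 536870912) (W1 := 536870912) (P2 := 0) (W2 := 1230186008) (P3 := 335544320) (W3 := 67108864)
    rfl (fun _ => rfl) k0_B04mm_133_s1

theorem s_B04mm_133_s1 {κ x : ℝ} (hκ : κ * h0 = ken x) (hx : ((335544320 : ℕ) : ℝ) / S ≤ x)
    (hx' : x ≤ (((335544320 : ℕ) : ℝ) + (67108864 : ℕ)) / S) :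
    AltB (VF κ) PP tKF tL pcF [⟨3, 0, 0, 1449551462⟩] 1 3 3 0 4 (sgb false) (sgb false) x :=
  strip_altB (m := 1449551462) true rfl hκ covF01 covF43 hx hx' c_B04mm_133_s1 cutB_nil (noExt_B)

noncomputable def cut_B04mm_202_s1 : Cut := Cut.of [[⟨4, 0, 0, 1449551462⟩], [⟨0, 1, 0, 67108864⟩, ⟨1, 0, 0, 67108864⟩, ⟨2, 1, 0, 67108864⟩]]

noncomputable def xt_B04mm_202_s1 : Ext := strExt dd false false false .u2 .s2m .u0m .pp 2 0 2 rfl rfl gf0 vv ndF0q2 ndF4q2

noncomputable def f_B04mm_202_s1 : ℕ → ℕ → ℕ → ℕ → Bool := onCell 0 536870912 0 536870912 335544320 67108864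
    (rowF 1 false false false .pp 2 0 2 (qsf 0 536870912 1073741824 536870912 0) ndF0q2 ndF4q2 pcF0 cut_B04mm_202_s1 xt_B04mm_202_s1)

def k0_B04mm_202_s1 : ∃ t, chk3 f_B04mm_202_s1 t 2 2 1 = true :=
  ⟨(b (a (l 6) (b (a (l 6) (b (l 6) (l 16729152))) (a (b (l 6) (l 16779248)) (b (l 16736736) (l 16767368))))) (a (b (l 6) (a (l 6) (b (l 16909304) (l 16946312)))) (b (a (l 17191192) (b (a (l 16817288) (l 16816472)) (l 16853368))) (a (l 17134064) (b (l 16854456) (l 16844232)))))), by decide +kernel⟩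

def k1_B04mm_202_s1 : ∃ t, chk3 f_B04mm_202_s1 t 3 2 1 = true :=
  ⟨(b (a (b (b (a (a (l 16711224) (l 16775136)) (a (l 16775856) (b (l 16689696) (l 16697096)))) (a (l 16793840) (l 16798904))) (a (b (l 16733360) (a (l 16772224) (l 16863064))) (a (b (b (l 16738448) (l 16758488)) (l 16865192)) (b (b (l 16834088) (l 16767416)) (l 537656335))))) (b (a (b (a (b (l 16699824) (l 16712320)) (b (a (l 16712416) (l 16743560)) (a (l 16726624) (b (l 16733552) (l 16817992))))) (a (b (l 16729568) (a (l 16825704) (l 16836000))) (a (b (b (l 16740176) (l 16748688)) (l 16757488)) (b (b (l 16834304) (l 16756608)) (l 534660111))))) (b (a (b (l 14) (a (b (l 14) (a (l 16834032) (l 16798984))) (l 14))) (l 14)) (a (a (a (b (l 16801608) (l 534458639)) (b (l 535220751) (l 534309903))) (a (b (a (l 534042895) (l 533967375)) (l 534155535)) (a (b (l 533890575) (l 534051343)) (b (l 533812495) (l 3))))) (b (a (a (b (l 14) (a (l 533707535) (l 3)))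 (l 3)) (l 3)) (l 3))))) (a (a (b (b (l 16845056) (l 16807984)) (a (l 536235791) (l 535985167))) (a (b (b (l 16764392) (l 535349007)) (l 535987215)) (b (a (l 535132687) (l 534990607)) (a (l 535516175) (l 3))))) (b (a (a (a (l 535381007) (a (l 534736399) (l 534661135))) (l 3)) (l 3)) (l 3))))) (a (a (b (a (b (l 16816112) (l 16819112)) (b (l 16798336) (l 16799400))) (a (b (l 16814992) (l 539259663)) (l 540032015))) (b (a (b (l 16785328) (l 537820943)) (a (l 537424655) (l 537205775))) (a (b (l 538215695) (l 538553871)) (b (l 537809423) (l 3))))) (b (a (a (a (l 537509647) (b (l 536400399) (l 3))) (l 3)) (l 3)) (l 3)))), by decide +kernel⟩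

def k2_B04mm_202_s1 : ∃ t, chk3 f_B04mm_202_s1 t 1 3 1 = true :=
  ⟨(a (a (b (b (a (l 16997032) (l 16958720)) (a (l 16994704) (l 16901256))) (l 2)) (b (a (b (b (l 16892000) (l 16872232)) (a (l 292158706119) (l 540192527))) (b (b (l 539828239) (l 539973903)) (l 540080911))) (a (l 2) (a (l 2) (l 3))))) (b (a (a (b (a (b (l 539460623) (l 539586319)) (b (l 539115535) (l 3))) (l 3)) (l 3)) (l 3)) (l 3))), by decide +kernel⟩

theorem t3_B04mm_202_s1 : ∃ t, chk3 f_B04mm_202_s1 t 1 2 1 = true := ex3_a k0_B04mm_202_s1 k1_B04mm_202_s1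

theorem t4_B04mm_202_s1 : ∃ t, chk3 f_B04mm_202_s1 t 1 1 1 = true := ex3_b t3_B04mm_202_s1 k2_B04mm_202_s1

theorem c_B04mm_202_s1 : CertF 0 536870912 1073741824 536870912 335544320 67108864 false false false .pp 2 0 2
    ndF0q2 ndF4q2 pcF0 cut_B04mm_202_s1 xt_B04mm_202_s1 :=
  certF1 (fam := false) (s1 := false) (s2 := false) (a := 2) (b := 0) (c := 2) (cn := .pp) (n1 := ndF0q2) (n2 := ndF4q2) (pc := pcF0) (cut := cut_B04mm_202_s1) (xt := xt_B04mm_202_s1) (P1 := 0) (W1 := 536870912) (P2 := 1073741824) (W2 := 536870912) (P3 := 335544320) (W3 := 67108864)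
    rfl (fun _ => rfl) t4_B04mm_202_s1

theorem s_B04mm_202_s1 {κ x : ℝ} (hκ : κ * h0 = ken x) (hx : ((335544320 : ℕ) : ℝ) / S ≤ x)
    (hx' : x ≤ (((335544320 : ℕ) : ℝ) + (67108864 : ℕ)) / S)
    (H : CutB (VF κ) PP tKF tL pcF (Cut.of [[⟨0, 1, 0, 67108864⟩, ⟨1, 0, 0, 67108864⟩, ⟨2, 1, 0, 67108864⟩]]) 2 0 2 0 4 (sgb false) (sgb false) x) :
    AltB (VF κ) PP tKF tL pcF [⟨3, 0, 0, 1449551462⟩] 2 0 2 0 4 (sgb false) (sgb false) x :=
  strip_altB (m := 1449551462) true rfl hκ covF02 covF42 hx hx' c_B04mm_202_s1 H ((okx hx hx').extB (T := tt) (sideF hx hx') hκ rfl rfl (.O 2 false) (.N 2 false) (Or.inl rfl))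

noncomputable def cut_B04mm_203_s1 : Cut := Cut.of [[⟨4, 0, 0, 1449551462⟩]]

noncomputable def xt_B04mm_203_s1 : Ext := strExt dd false false false .u2 .s2m .u0m .up 2 0 3 rfl rfl gf0 vv ndF0q2 ndF4q3

noncomputable def f_B04mm_203_s1 : ℕ → ℕ → ℕ → ℕ → Bool := onCell 0 536870912 0 1230186008 335544320 67108864
    (rowF 0 false false false .up 2 0 3 (qsf 0 536870912 0 1230186008 0) ndF0q2 ndF4q3 pcF0 cut_B04mm_203_s1 xt_B04mm_203_s1)

def k0_B04mm_203_s1 : ∃ t, chk3 f_B04mm_203_s1 t 1 1 1 = true :=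
  ⟨(b (l 2) (b (l 2) (a (a (b (b (l 2) (a (l 540007951) (a (l 539087887) (l 539168783)))) (b (a (b (l 16832112) (l 16861832)) (a (l 539677967) (l 539460111))) (a (l 16926168) (a (l 16869808) (b (l 16820608) (l 16853008)))))) (b (l 3) (b (a (a (l 539482639) (l 3)) (l 3)) (a (b (l 539762703) (l 539995407)) (b (l 3) (l 539903503)))))) (l 3)))), by decide +kernel⟩

theorem c_B04mm_203_s1 : CertF 0 536870912 0 1230186008 335544320 67108864 false false false .up 2 0 3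
    ndF0q2 ndF4q3 pcF0 cut_B04mm_203_s1 xt_B04mm_203_s1 :=
  certF0 (fam := false) (s1 := false) (s2 := false) (a := 2) (b := 0) (c := 3) (cn := .up) (n1 := ndF0q2) (n2 := ndF4q3) (pc := pcF0) (cut := cut_B04mm_203_s1) (xt := xt_B04mm_203_s1) (P1 := 0) (W1 := 536870912) (P2 := 0) (W2 := 1230186008) (P3 := 335544320) (W3 := 67108864)
    rfl k0_B04mm_203_s1

theorem s_B04mm_203_s1 {κ x : ℝ} (hκ : κ * h0 = ken x) (hx : ((335544320 : ℕ) : ℝ) / S ≤ x)
    (hx' : x ≤ (((335544320 : ℕ) : ℝ) + (67108864 : ℕ)) / S) :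
    AltB (VF κ) PP tKF tL pcF [⟨3, 0, 0, 1449551462⟩] 2 0 3 0 4 (sgb false) (sgb false) x :=
  strip_altB (m := 1449551462) true rfl hκ covF02 covF43 hx hx' c_B04mm_203_s1 cutB_nil ((okx hx hx').extB (T := tt) (sideF hx hx') hκ rfl rfl (.O 2 false) (.N 3 false) (Or.inl rfl))

noncomputable def cut_B04mm_213_s1 : Cut := Cut.of [[⟨4, 0, 0, 1449551462⟩]]

noncomputable def xt_B04mm_213_s1 : Ext := strExt dd false false false .u2 .s2m .u0m .pnn 2 1 3 rfl rfl gf1 vv ndF0q2 ndF4q3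

noncomputable def f_B04mm_213_s1 : ℕ → ℕ → ℕ → ℕ → Bool := onCell 0 536870912 0 1230186008 335544320 67108864
    (rowF 0 false false false .pnn 2 1 3 (qsf 0 536870912 0 1230186008 1) ndF0q2 ndF4q3 pcF1 cut_B04mm_213_s1 xt_B04mm_213_s1)

def k0_B04mm_213_s1 : ∃ t, chk3 f_B04mm_213_s1 t 1 1 1 = true :=
  ⟨(a (b (l 3) (b (a (b (l 3) (l 3)) (l 3)) (a (b (a (b (a (l 539150095) (l 539292687)) (a (l 538949647) (l 539081743))) (b (l 3) (b (l 539383055) (l 539498511)))) (l 1)) (b (l 3) (b (a (l 1) (l 3)) (l 1)))))) (b (b (l 5) (l 3)) (b (l 3) (l 3)))), by decide +kernel⟩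

theorem c_B04mm_213_s1 : CertF 0 536870912 0 1230186008 335544320 67108864 false false false .pnn 2 1 3
    ndF0q2 ndF4q3 pcF1 cut_B04mm_213_s1 xt_B04mm_213_s1 :=
  certF0 (fam := false) (s1 := false) (s2 := false) (a := 2) (b := 1) (c := 3) (cn := .pnn) (n1 := ndF0q2) (n2 := ndF4q3) (pc := pcF1) (cut := cut_B04mm_213_s1) (xt := xt_B04mm_213_s1) (P1 := 0) (W1 := 536870912) (P2 := 0) (W2 := 1230186008) (P3 := 335544320) (W3 := 67108864)
    rfl k0_B04mm_213_s1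

theorem s_B04mm_213_s1 {κ x : ℝ} (hκ : κ * h0 = ken x) (hx : ((335544320 : ℕ) : ℝ) / S ≤ x)
    (hx' : x ≤ (((335544320 : ℕ) : ℝ) + (67108864 : ℕ)) / S) :
    AltB (VF κ) PP tKF tL pcF [⟨3, 0, 0, 1449551462⟩] 2 1 3 0 4 (sgb false) (sgb false) x :=
  strip_altB (m := 1449551462) true rfl hκ covF02 covF43 hx hx' c_B04mm_213_s1 cutB_nil ((okx hx hx').extB (T := tt) (sideF hx hx') hκ rfl rfl (.O 2 false) (.N 3 false) (Or.inr rfl))

noncomputable def cut_B40pp_001_s1 : Cut := Cut.of [[⟨4, 0, 0, 1449551462⟩]]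

noncomputable def xt_B40pp_001_s1 : Ext := strExt dd false true true .s0 .u0 .u0m .up 0 0 1 rfl rfl gf0 vv ndF4q0 ndF0q1

noncomputable def f_B40pp_001_s1 : ℕ → ℕ → ℕ → ℕ → Bool := onCell 0 536870912 536870912 536870912 335544320 67108864
    (rowF 2 false true true .up 0 0 1 (qsf 0 536870912 536870912 536870912 0) ndF4q0 ndF0q1 pcF0 cut_B40pp_001_s1 xt_B40pp_001_s1)

def k0_B40pp_001_s1 : ∃ t, chk3 f_B40pp_001_s1 t 1 1 1 = true :=
  ⟨(a (b (l 3) (b (b (l 3) (l 2)) (l 2))) (b (a (l 3) (b (l 3) (a (b (l 3) (b (l 544569359) (l 543944207))) (b (a (l 545187855) (l 544967951)) (a (l 544310799) (l 544244751)))))) (a (b (b (a (a (l 3) (l 540749583)) (l 541957903)) (a (a (l 2) (l 537138703)) (b (l 540016911) (l 538341647)))) (a (l 2) (b (b (l 536273935) (l 2)) (l 2)))) (b (a (b (b (l 543231759) (l 542405903)) (b (l 541431823) (l 540258575))) (b (a (b (l 16823120) (l 16895144)) (l 543202319)) (a (l 541562895) (l 16958688))))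 (b (a (b (l 16846712) (l 16785456)) (l 539392271)) (a (l 155257030023) (l 16866656))))))), by decide +kernel⟩

theorem c_B40pp_001_s1 : CertF 0 536870912 536870912 536870912 335544320 67108864 false true true .up 0 0 1
    ndF4q0 ndF0q1 pcF0 cut_B40pp_001_s1 xt_B40pp_001_s1 :=
  certF2 (fam := false) (s1 := true) (s2 := true) (a := 0) (b := 0) (c := 1) (cn := .up) (n1 := ndF4q0) (n2 := ndF0q1) (pc := pcF0) (cut := cut_B40pp_001_s1) (xt := xt_B40pp_001_s1) (P1 := 0) (W1 := 536870912) (P2 := 536870912) (W2 := 536870912) (P3 := 335544320) (W3 := 67108864)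
    rfl (fun _ => rfl) k0_B40pp_001_s1

theorem s_B40pp_001_s1 {κ x : ℝ} (hκ : κ * h0 = ken x) (hx : ((335544320 : ℕ) : ℝ) / S ≤ x)
    (hx' : x ≤ (((335544320 : ℕ) : ℝ) + (67108864 : ℕ)) / S) :
    AltB (VF κ) PP tKF tL pcF [⟨3, 0, 0, 1449551462⟩] 0 0 1 4 0 (sgb true) (sgb true) x :=
  strip_altB (m := 1449551462) true rfl hκ covF40 covF01 hx hx' c_B40pp_001_s1 cutB_nil ((okx hx hx').extB (T := tt) (sideF hx hx') hκ rfl rfl (.N 0 true) (.O 1 true) (Or.inl rfl))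

noncomputable def cut_B40pp_011_s1 : Cut := Cut.of [[⟨4, 0, 0, 1449551462⟩]]

noncomputable def xt_B40pp_011_s1 : Ext := strExt dd false true true .s0 .u0 .u0m .pnn 0 1 1 rfl rfl gf1 vv ndF4q0 ndF0q1

noncomputable def f_B40pp_011_s1 : ℕ → ℕ → ℕ → ℕ → Bool := onCell 536870912 536870912 536870912 536870912 335544320 67108864
    (rowF 2 false true true .pnn 0 1 1 (qsf 0 536870912 536870912 536870912 1) ndF4q0 ndF0q1 pcF1 cut_B40pp_011_s1 xt_B40pp_011_s1)

def k0_B40pp_011_s1 : ∃ t, chk3 f_B40pp_011_s1 t 1 1 1 = true :=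
  ⟨(a (a (b (b (b (a (l 3) (l 543792911)) (a (l 543145231) (l 542895375))) (b (a (a (l 543222287) (l 542872079)) (b (l 542644751) (l 542487055))) (a (a (l 542733583) (l 542510095)) (a (l 16909128) (l 16934568))))) (b (b (a (a (l 16915904) (l 16939800)) (l 16976016)) (a (l 16970304) (l 17019272))) (b (a (l 16985944) (l 17042728)) (l 6)))) (b (b (a (b (l 1) (a (l 543163919) (l 1))) (l 1)) (a (b (a (l 16905432) (l 16939472)) (l 16977640)) (b (l 17005648) (l 17047952)))) (b (b (a (l 17030008) (l 17095656)) (a (l 17072496) (l 6))) (l 6)))) (b (a (b (l 1) (a (b (l 1) (l 17146672)) (l 1))) (l 1)) (b (a (b (l 6) (l 6)) (l 6)) (l 6)))), by decide +kernel⟩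

theorem c_B40pp_011_s1 : CertF 0 536870912 536870912 536870912 335544320 67108864 false true true .pnn 0 1 1
    ndF4q0 ndF0q1 pcF1 cut_B40pp_011_s1 xt_B40pp_011_s1 :=
  certF2 (fam := false) (s1 := true) (s2 := true) (a := 0) (b := 1) (c := 1) (cn := .pnn) (n1 := ndF4q0) (n2 := ndF0q1) (pc := pcF1) (cut := cut_B40pp_011_s1) (xt := xt_B40pp_011_s1) (P1 := 0) (W1 := 536870912) (P2 := 536870912) (W2 := 536870912) (P3 := 335544320) (W3 := 67108864)
    rfl (fun _ => rfl) k0_B40pp_011_s1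

theorem s_B40pp_011_s1 {κ x : ℝ} (hκ : κ * h0 = ken x) (hx : ((335544320 : ℕ) : ℝ) / S ≤ x)
    (hx' : x ≤ (((335544320 : ℕ) : ℝ) + (67108864 : ℕ)) / S) :
    AltB (VF κ) PP tKF tL pcF [⟨3, 0, 0, 1449551462⟩] 0 1 1 4 0 (sgb true) (sgb true) x :=
  strip_altB (m := 1449551462) true rfl hκ covF40 covF01 hx hx' c_B40pp_011_s1 cutB_nil ((okx hx hx').extB (T := tt) (sideF hx hx') hκ rfl rfl (.N 0 true) (.O 1 true) (Or.inr rfl))

noncomputable def cut_B40pp_012_s1 : Cut := Cut.of [[⟨4, 0, 0, 1449551462⟩]]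

noncomputable def f_B40pp_012_s1 : ℕ → ℕ → ℕ → ℕ → Bool := onCell 0 536870912 0 536870912 335544320 67108864
    (rowF 0 false true true .pnp 0 1 2 (qsf 0 536870912 0 536870912 1) ndF4q0 ndF0q2 pcF1 cut_B40pp_012_s1 Ext.none)

def k0_B40pp_012_s1 : ∃ t, chk3 f_B40pp_012_s1 t 1 1 1 = true :=
  ⟨(a (l 6) (l 6)), by decide +kernel⟩

theorem c_B40pp_012_s1 : CertF 0 536870912 0 536870912 335544320 67108864 false true true .pnp 0 1 2
    ndF4q0 ndF0q2 pcF1 cut_B40pp_012_s1 Ext.none :=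
  certF0 (fam := false) (s1 := true) (s2 := true) (a := 0) (b := 1) (c := 2) (cn := .pnp) (n1 := ndF4q0) (n2 := ndF0q2) (pc := pcF1) (cut := cut_B40pp_012_s1) (xt := Ext.none) (P1 := 0) (W1 := 536870912) (P2 := 0) (W2 := 536870912) (P3 := 335544320) (W3 := 67108864)
    rfl k0_B40pp_012_s1

theorem s_B40pp_012_s1 {κ x : ℝ} (hκ : κ * h0 = ken x) (hx : ((335544320 : ℕ) : ℝ) / S ≤ x)
    (hx' : x ≤ (((335544320 : ℕ) : ℝ) + (67108864 : ℕ)) / S) :
    AltB (VF κ) PP tKF tL pcF [⟨3, 0, 0, 1449551462⟩] 0 1 2 4 0 (sgb true) (sgb true) x :=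
  strip_altB (m := 1449551462) true rfl hκ covF40 covF02 hx hx' c_B40pp_012_s1 cutB_nil (noExt_B)

noncomputable def cut_B40pp_022_s1 : Cut := Cut.of [[⟨4, 0, 0, 1449551462⟩]]

noncomputable def f_B40pp_022_s1 : ℕ → ℕ → ℕ → ℕ → Bool := onCell 1073741824 536870912 0 536870912 335544320 67108864
    (rowF 2 false true true .pp 0 2 2 (qsf 0 536870912 0 536870912 2) ndF4q0 ndF0q2 pcF2 cut_B40pp_022_s1 Ext.none)

def k0_B40pp_022_s1 : ∃ t, chk3 f_B40pp_022_s1 t 1 1 1 = true :=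
  ⟨(l 6), by decide +kernel⟩

theorem c_B40pp_022_s1 : CertF 0 536870912 0 536870912 335544320 67108864 false true true .pp 0 2 2
    ndF4q0 ndF0q2 pcF2 cut_B40pp_022_s1 Ext.none :=
  certF2 (fam := false) (s1 := true) (s2 := true) (a := 0) (b := 2) (c := 2) (cn := .pp) (n1 := ndF4q0) (n2 := ndF0q2) (pc := pcF2) (cut := cut_B40pp_022_s1) (xt := Ext.none) (P1 := 0) (W1 := 536870912) (P2 := 0) (W2 := 536870912) (P3 := 335544320) (W3 := 67108864)
    rfl (fun _ => rfl) k0_B40pp_022_s1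

theorem s_B40pp_022_s1 {κ x : ℝ} (hκ : κ * h0 = ken x) (hx : ((335544320 : ℕ) : ℝ) / S ≤ x)
    (hx' : x ≤ (((335544320 : ℕ) : ℝ) + (67108864 : ℕ)) / S) :
    AltB (VF κ) PP tKF tL pcF [⟨3, 0, 0, 1449551462⟩] 0 2 2 4 0 (sgb true) (sgb true) x :=
  strip_altB (m := 1449551462) true rfl hκ covF40 covF02 hx hx' c_B40pp_022_s1 cutB_nil (noExt_B)

noncomputable def cut_B40pp_101_s1 : Cut := Cut.of [[⟨4, 0, 0, 1449551462⟩], [⟨0, 1, 0, 67108864⟩, ⟨1, 0, 0, 67108864⟩, ⟨2, 1, 0, 67108864⟩]]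

noncomputable def xt_B40pp_101_s1 : Ext := strExt dd false true true .s0 .u0 .u0m .npn 1 0 1 rfl rfl gf0 vv ndF4q1 ndF0q1

noncomputable def f_B40pp_101_s1 : ℕ → ℕ → ℕ → ℕ → Bool := onCell 536870912 536870912 536870912 536870912 335544320 67108864
    (rowF 0 false true true .npn 1 0 1 (qsf 536870912 536870912 536870912 536870912 0) ndF4q1 ndF0q1 pcF0 cut_B40pp_101_s1 xt_B40pp_101_s1)

def k0_B40pp_101_s1 : ∃ t, chk3 f_B40pp_101_s1 t 1 1 1 = true :=
  ⟨(a (b (l 3) (b (a (a (b (b (l 3) (a (l 539372047) (l 3))) (a (l 538626063) (b (l 537382415) (l 536870927)))) (b (l 3) (b (a (l 535366927) (l 3)) (a (l 534916111) (l 533475087))))) (b (l 3) (a (b (l 3) (a (l 533084687) (l 532779791))) (l 3)))) (a (b (a (b (l 537053199) (l 16756864)) (b (a (l 534937615) (l 534643471)) (l 535683343))) (b (a (l 16757424) (l 16750992)) (a (l 6) (l 16778240)))) (b (a (a (b (l 534271247) (l 16780856)) (b (l 533869583) (l 534818063))) (b (a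 (l 533492751) (l 533091855)) (a (l 534478351) (l 534109711)))) (a (b (a (l 16743536) (l 16738776)) (l 16760824)) (b (a (l 16736184) (l 535044111)) (b (l 16738824) (l 16747464)))))))) (b (l 3) (a (b (l 3) (b (b (l 3) (a (a (l 533712399) (l 533318415)) (a (a (l 532938511) (l 3)) (l 3)))) (a (a (b (l 534683151) (l 16733736)) (b (l 534291983) (l 535228687))) (a (b (l 533900559) (l 534845199)) (b (a (l 533525775) (l 533336335)) (a (l 534502415) (l 534294031))))))) (b (l 3) (b (l 3) (a (b (b (l 3) (a (a (l 533253391) (l 533051663)) (a (a (l 532841487) (l 3)) (l 3)))) (a (a (l 534088975) (b (l 533532943) (l 534031375))) (a (b (l 533328911) (l 533806607)) (b (a (l 533122319) (l 533044239)) (a (l 533607183) (l 533497871)))))) (b (l 3) (a (a (a (a (b (l 532936719) (l 533392655)) (l 14)) (l 14)) (l 14)) (l 14))))))))), by decide +kernel⟩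

theorem c_B40pp_101_s1 : CertF 536870912 536870912 536870912 536870912 335544320 67108864 false true true .npn 1 0 1
    ndF4q1 ndF0q1 pcF0 cut_B40pp_101_s1 xt_B40pp_101_s1 :=
  certF0 (fam := false) (s1 := true) (s2 := true) (a := 1) (b := 0) (c := 1) (cn := .npn) (n1 := ndF4q1) (n2 := ndF0q1) (pc := pcF0) (cut := cut_B40pp_101_s1) (xt := xt_B40pp_101_s1) (P1 := 536870912) (W1 := 536870912) (P2 := 536870912) (W2 := 536870912) (P3 := 335544320) (W3 := 67108864)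
    rfl k0_B40pp_101_s1

theorem s_B40pp_101_s1 {κ x : ℝ} (hκ : κ * h0 = ken x) (hx : ((335544320 : ℕ) : ℝ) / S ≤ x)
    (hx' : x ≤ (((335544320 : ℕ) : ℝ) + (67108864 : ℕ)) / S)
    (H : CutB (VF κ) PP tKF tL pcF (Cut.of [[⟨0, 1, 0, 67108864⟩, ⟨1, 0, 0, 67108864⟩, ⟨2, 1, 0, 67108864⟩]]) 1 0 1 4 0 (sgb true) (sgb true) x) :
    AltB (VF κ) PP tKF tL pcF [⟨3, 0, 0, 1449551462⟩] 1 0 1 4 0 (sgb true) (sgb true) x :=
  strip_altB (m := 1449551462) true rfl hκ covF41 covF01 hx hx' c_B40pp_101_s1 H ((okx hx hx').extB (T := tt) (sideF hx hx') hκ rfl rfl (.N 1 true) (.O 1 true) (Or.inl rfl))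

noncomputable def cut_B40pp_102_s1 : Cut := Cut.of [[⟨4, 0, 0, 1449551462⟩], [⟨0, 1, 0, 67108864⟩, ⟨1, 0, 0, 67108864⟩, ⟨2, 1, 0, 67108864⟩]]

noncomputable def f_B40pp_102_s1 : ℕ → ℕ → ℕ → ℕ → Bool := onCell 536870912 536870912 0 536870912 335544320 67108864
    (rowF 0 false true true .npp 1 0 2 (qsf 536870912 536870912 0 536870912 0) ndF4q1 ndF0q2 pcF0 cut_B40pp_102_s1 Ext.none)

def k0_B40pp_102_s1 : ∃ t, chk3 f_B40pp_102_s1 t 1 1 1 = true :=
  ⟨(a (b (l 6) (b (l 6) (a (l 6) (b (l 6) (a (l 16829776) (b (l 16828248) (l 16779280))))))) (b (l 6) (b (a (l 6) (b (l 6) (a (l 16768584) (a (l 16735512) (l 16717376))))) (a (b (a (l 16828840) (l 16790544)) (a (b (l 16798880) (l 16756080)) (b (l 16769600) (b (l 16747560) (l 16733640))))) (b (a (b (l 16756160) (l 16751200)) (a (l 16731720) (a (l 16724272) (l 16721184)))) (a (b (a (l 16751440) (b (l 16743800) (l 16743264))) (a (b (l 16740072) (l 16732728)) (b (l 16740016)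 (b (l 16737792) (l 16737312))))) (a (a (b (l 16737784) (b (l 16743216) (l 16765064))) (b (l 16737600) (b (l 16787424) (l 14)))) (b (a (l 16737448) (l 14)) (l 14))))))))), by decide +kernel⟩

theorem c_B40pp_102_s1 : CertF 536870912 536870912 0 536870912 335544320 67108864 false true true .npp 1 0 2
    ndF4q1 ndF0q2 pcF0 cut_B40pp_102_s1 Ext.none :=
  certF0 (fam := false) (s1 := true) (s2 := true) (a := 1) (b := 0) (c := 2) (cn := .npp) (n1 := ndF4q1) (n2 := ndF0q2) (pc := pcF0) (cut := cut_B40pp_102_s1) (xt := Ext.none) (P1 := 536870912) (W1 := 536870912) (P2 := 0) (W2 := 536870912) (P3 := 335544320) (W3 := 67108864)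
    rfl k0_B40pp_102_s1

theorem s_B40pp_102_s1 {κ x : ℝ} (hκ : κ * h0 = ken x) (hx : ((335544320 : ℕ) : ℝ) / S ≤ x)
    (hx' : x ≤ (((335544320 : ℕ) : ℝ) + (67108864 : ℕ)) / S)
    (H : CutB (VF κ) PP tKF tL pcF (Cut.of [[⟨0, 1, 0, 67108864⟩, ⟨1, 0, 0, 67108864⟩, ⟨2, 1, 0, 67108864⟩]]) 1 0 2 4 0 (sgb true) (sgb true) x) :
    AltB (VF κ) PP tKF tL pcF [⟨3, 0, 0, 1449551462⟩] 1 0 2 4 0 (sgb true) (sgb true) x :=
  strip_altB (m := 1449551462) true rfl hκ covF41 covF02 hx hx' c_B40pp_102_s1 H (noExt_B)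

noncomputable def cut_B40pp_112_s1 : Cut := Cut.of [[⟨4, 0, 0, 1449551462⟩]]

noncomputable def f_B40pp_112_s1 : ℕ → ℕ → ℕ → ℕ → Bool := onCell 536870912 536870912 0 536870912 335544320 67108864
    (rowF 2 false true true .dn 1 1 2 (qsf 536870912 536870912 0 536870912 1) ndF4q1 ndF0q2 pcF1 cut_B40pp_112_s1 Ext.none)

def k0_B40pp_112_s1 : ∃ t, chk3 f_B40pp_112_s1 t 1 1 1 = true :=
  ⟨(a (l 6) (l 1)), by decide +kernel⟩

theorem c_B40pp_112_s1 : CertF 536870912 536870912 0 536870912 335544320 67108864 false true true .dn 1 1 2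
    ndF4q1 ndF0q2 pcF1 cut_B40pp_112_s1 Ext.none :=
  certF2 (fam := false) (s1 := true) (s2 := true) (a := 1) (b := 1) (c := 2) (cn := .dn) (n1 := ndF4q1) (n2 := ndF0q2) (pc := pcF1) (cut := cut_B40pp_112_s1) (xt := Ext.none) (P1 := 536870912) (W1 := 536870912) (P2 := 0) (W2 := 536870912) (P3 := 335544320) (W3 := 67108864)
    rfl (fun _ => rfl) k0_B40pp_112_s1

theorem s_B40pp_112_s1 {κ x : ℝ} (hκ : κ * h0 = ken x) (hx : ((335544320 : ℕ) : ℝ) / S ≤ x)
    (hx' : x ≤ (((335544320 : ℕ) : ℝ) + (67108864 : ℕ)) / S) :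
    AltB (VF κ) PP tKF tL pcF [⟨3, 0, 0, 1449551462⟩] 1 1 2 4 0 (sgb true) (sgb true) x :=
  strip_altB (m := 1449551462) true rfl hκ covF41 covF02 hx hx' c_B40pp_112_s1 cutB_nil (noExt_B)

noncomputable def cut_B40pp_202_s1 : Cut := Cut.of [[⟨4, 0, 0, 1449551462⟩], [⟨0, 1, 0, 67108864⟩, ⟨1, 0, 0, 67108864⟩, ⟨2, 1, 0, 67108864⟩]]

noncomputable def f_B40pp_202_s1 : ℕ → ℕ → ℕ → ℕ → Bool := onCell 0 536870912 0 536870912 335544320 67108864
    (rowF 2 false true true .pp 2 0 2 (qsf 1073741824 536870912 0 536870912 0) ndF4q2 ndF0q2 pcF0 cut_B40pp_202_s1 Ext.none)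

def k0_B40pp_202_s1 : ∃ t, chk3 f_B40pp_202_s1 t 1 1 1 = true :=
  ⟨(a (b (a (l 6) (l 6)) (b (a (a (b (b (l 16739488) (l 16867776)) (a (b (l 16686776) (l 16689520)) (l 16698552))) (b (l 6) (a (l 16707568) (l 16720360)))) (l 1)) (a (b (a (a (b (l 16699592) (l 14)) (b (l 16709856) (a (l 14) (l 16727304)))) (a (b (l 16720592) (l 1)) (l 1))) (a (a (l 14) (a (l 14) (l 1))) (l 1))) (l 1)))) (l 1)), by decide +kernel⟩

theorem c_B40pp_202_s1 : CertF 1073741824 536870912 0 536870912 335544320 67108864 false true true .pp 2 0 2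
    ndF4q2 ndF0q2 pcF0 cut_B40pp_202_s1 Ext.none :=
  certF2 (fam := false) (s1 := true) (s2 := true) (a := 2) (b := 0) (c := 2) (cn := .pp) (n1 := ndF4q2) (n2 := ndF0q2) (pc := pcF0) (cut := cut_B40pp_202_s1) (xt := Ext.none) (P1 := 1073741824) (W1 := 536870912) (P2 := 0) (W2 := 536870912) (P3 := 335544320) (W3 := 67108864)
    rfl (fun _ => rfl) k0_B40pp_202_s1

theorem s_B40pp_202_s1 {κ x : ℝ} (hκ : κ * h0 = ken x) (hx : ((335544320 : ℕ) : ℝ) / S ≤ x)
    (hx' : x ≤ (((335544320 : ℕ) : ℝ) + (67108864 : ℕ)) / S)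
    (H : CutB (VF κ) PP tKF tL pcF (Cut.of [[⟨0, 1, 0, 67108864⟩, ⟨1, 0, 0, 67108864⟩, ⟨2, 1, 0, 67108864⟩]]) 2 0 2 4 0 (sgb true) (sgb true) x) :
    AltB (VF κ) PP tKF tL pcF [⟨3, 0, 0, 1449551462⟩] 2 0 2 4 0 (sgb true) (sgb true) x :=
  strip_altB (m := 1449551462) true rfl hκ covF42 covF02 hx hx' c_B40pp_202_s1 H (noExt_B)

noncomputable def cut_B40pm_001_s1 : Cut := Cut.of [[⟨4, 0, 0, 1449551462⟩]]

noncomputable def f_B40pm_001_s1 : ℕ → ℕ → ℕ → ℕ → Bool := onCell 0 536870912 536870912 536870912 335544320 67108864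
    (rowF 0 false true false .up 0 0 1 (qsf 0 536870912 536870912 536870912 0) ndF4q0 ndF0q1 pcF0 cut_B40pm_001_s1 Ext.none)

def k0_B40pm_001_s1 : ∃ t, chk3 f_B40pm_001_s1 t 1 1 1 = true :=
  ⟨(l 4), by decide +kernel⟩

theorem c_B40pm_001_s1 : CertF 0 536870912 536870912 536870912 335544320 67108864 false true false .up 0 0 1
    ndF4q0 ndF0q1 pcF0 cut_B40pm_001_s1 Ext.none :=
  certF0 (fam := false) (s1 := true) (s2 := false) (a := 0) (b := 0) (c := 1) (cn := .up) (n1 := ndF4q0) (n2 := ndF0q1) (pc := pcF0) (cut := cut_B40pm_001_s1) (xt := Ext.none) (P1 := 0) (W1 := 536870912) (P2 := 536870912) (W2 := 536870912) (P3 := 335544320) (W3 := 67108864)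
    rfl k0_B40pm_001_s1

theorem s_B40pm_001_s1 {κ x : ℝ} (hκ : κ * h0 = ken x) (hx : ((335544320 : ℕ) : ℝ) / S ≤ x)
    (hx' : x ≤ (((335544320 : ℕ) : ℝ) + (67108864 : ℕ)) / S) :
    AltB (VF κ) PP tKF tL pcF [⟨3, 0, 0, 1449551462⟩] 0 0 1 4 0 (sgb true) (sgb false) x :=
  strip_altB (m := 1449551462) true rfl hκ covF40 covF01 hx hx' c_B40pm_001_s1 cutB_nil (noExt_B)

noncomputable def cut_B40pm_011_s1 : Cut := Cut.of [[⟨4, 0, 0, 1449551462⟩]]

noncomputable def f_B40pm_011_s1 : ℕ → ℕ → ℕ → ℕ → Bool := onCell 0 536870912 536870912 536870912 335544320 67108864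
    (rowF 0 false true false .pnn 0 1 1 (qsf 0 536870912 536870912 536870912 1) ndF4q0 ndF0q1 pcF1 cut_B40pm_011_s1 Ext.none)

def k0_B40pm_011_s1 : ∃ t, chk3 f_B40pm_011_s1 t 1 1 1 = true :=
  ⟨(l 4), by decide +kernel⟩

theorem c_B40pm_011_s1 : CertF 0 536870912 536870912 536870912 335544320 67108864 false true false .pnn 0 1 1
    ndF4q0 ndF0q1 pcF1 cut_B40pm_011_s1 Ext.none :=
  certF0 (fam := false) (s1 := true) (s2 := false) (a := 0) (b := 1) (c := 1) (cn := .pnn) (n1 := ndF4q0) (n2 := ndF0q1) (pc := pcF1) (cut := cut_B40pm_011_s1) (xt := Ext.none) (P1 := 0) (W1 := 536870912) (P2 := 536870912) (W2 := 536870912) (P3 := 335544320) (W3 := 67108864)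
    rfl k0_B40pm_011_s1

theorem s_B40pm_011_s1 {κ x : ℝ} (hκ : κ * h0 = ken x) (hx : ((335544320 : ℕ) : ℝ) / S ≤ x)
    (hx' : x ≤ (((335544320 : ℕ) : ℝ) + (67108864 : ℕ)) / S) :
    AltB (VF κ) PP tKF tL pcF [⟨3, 0, 0, 1449551462⟩] 0 1 1 4 0 (sgb true) (sgb false) x :=
  strip_altB (m := 1449551462) true rfl hκ covF40 covF01 hx hx' c_B40pm_011_s1 cutB_nil (noExt_B)

noncomputable def cut_B40pm_012_s1 : Cut := Cut.of [[⟨4, 0, 0, 1449551462⟩]]

noncomputable def f_B40pm_012_s1 : ℕ → ℕ → ℕ → ℕ → Bool := onCell 0 536870912 0 536870912 335544320 67108864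
    (rowF 0 false true false .pnp 0 1 2 (qsf 0 536870912 0 536870912 1) ndF4q0 ndF0q2 pcF1 cut_B40pm_012_s1 Ext.none)

def k0_B40pm_012_s1 : ∃ t, chk3 f_B40pm_012_s1 t 1 1 1 = true :=
  ⟨(l 6), by decide +kernel⟩

theorem c_B40pm_012_s1 : CertF 0 536870912 0 536870912 335544320 67108864 false true false .pnp 0 1 2
    ndF4q0 ndF0q2 pcF1 cut_B40pm_012_s1 Ext.none :=
  certF0 (fam := false) (s1 := true) (s2 := false) (a := 0) (b := 1) (c := 2) (cn := .pnp) (n1 := ndF4q0) (n2 := ndF0q2) (pc := pcF1) (cut := cut_B40pm_012_s1) (xt := Ext.none) (P1 := 0) (W1 := 536870912) (P2 := 0) (W2 := 536870912) (P3 := 335544320) (W3 := 67108864)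
    rfl k0_B40pm_012_s1

theorem s_B40pm_012_s1 {κ x : ℝ} (hκ : κ * h0 = ken x) (hx : ((335544320 : ℕ) : ℝ) / S ≤ x)
    (hx' : x ≤ (((335544320 : ℕ) : ℝ) + (67108864 : ℕ)) / S) :
    AltB (VF κ) PP tKF tL pcF [⟨3, 0, 0, 1449551462⟩] 0 1 2 4 0 (sgb true) (sgb false) x :=
  strip_altB (m := 1449551462) true rfl hκ covF40 covF02 hx hx' c_B40pm_012_s1 cutB_nil (noExt_B)

noncomputable def cut_B40pm_022_s1 : Cut := Cut.of [[⟨4, 0, 0, 1449551462⟩]]

noncomputable def f_B40pm_022_s1 : ℕ → ℕ → ℕ → ℕ → Bool := onCell 0 536870912 0 536870912 335544320 67108864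
    (rowF 0 false true false .pp 0 2 2 (qsf 0 536870912 0 536870912 2) ndF4q0 ndF0q2 pcF2 cut_B40pm_022_s1 Ext.none)

def k0_B40pm_022_s1 : ∃ t, chk3 f_B40pm_022_s1 t 1 1 1 = true :=
  ⟨(l 6), by decide +kernel⟩

theorem c_B40pm_022_s1 : CertF 0 536870912 0 536870912 335544320 67108864 false true false .pp 0 2 2
    ndF4q0 ndF0q2 pcF2 cut_B40pm_022_s1 Ext.none :=
  certF0 (fam := false) (s1 := true) (s2 := false) (a := 0) (b := 2) (c := 2) (cn := .pp) (n1 := ndF4q0) (n2 := ndF0q2) (pc := pcF2) (cut := cut_B40pm_022_s1) (xt := Ext.none) (P1 := 0) (W1 := 536870912) (P2 := 0) (W2 := 536870912) (P3 := 335544320) (W3 := 67108864)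
    rfl k0_B40pm_022_s1

theorem s_B40pm_022_s1 {κ x : ℝ} (hκ : κ * h0 = ken x) (hx : ((335544320 : ℕ) : ℝ) / S ≤ x)
    (hx' : x ≤ (((335544320 : ℕ) : ℝ) + (67108864 : ℕ)) / S) :
    AltB (VF κ) PP tKF tL pcF [⟨3, 0, 0, 1449551462⟩] 0 2 2 4 0 (sgb true) (sgb false) x :=
  strip_altB (m := 1449551462) true rfl hκ covF40 covF02 hx hx' c_B40pm_022_s1 cutB_nil (noExt_B)

noncomputable def cut_B40pm_101_s1 : Cut := Cut.of [[⟨4, 0, 0, 1449551462⟩]]

noncomputable def f_B40pm_101_s1 : ℕ → ℕ → ℕ → ℕ → Bool := onCell 536870912 536870912 536870912 536870912 335544320 67108864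
    (rowF 0 false true false .npn 1 0 1 (qsf 536870912 536870912 536870912 536870912 0) ndF4q1 ndF0q1 pcF0 cut_B40pm_101_s1 Ext.none)

def k0_B40pm_101_s1 : ∃ t, chk3 f_B40pm_101_s1 t 1 1 1 = true :=
  ⟨(l 4), by decide +kernel⟩

theorem c_B40pm_101_s1 : CertF 536870912 536870912 536870912 536870912 335544320 67108864 false true false .npn 1 0 1
    ndF4q1 ndF0q1 pcF0 cut_B40pm_101_s1 Ext.none :=
  certF0 (fam := false) (s1 := true) (s2 := false) (a := 1) (b := 0) (c := 1) (cn := .npn) (n1 := ndF4q1) (n2 := ndF0q1) (pc := pcF0) (cut := cut_B40pm_101_s1) (xt := Ext.none) (P1 := 536870912) (W1 := 536870912) (P2 := 536870912) (W2 := 536870912) (P3 := 335544320) (W3 := 67108864)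
    rfl k0_B40pm_101_s1

theorem s_B40pm_101_s1 {κ x : ℝ} (hκ : κ * h0 = ken x) (hx : ((335544320 : ℕ) : ℝ) / S ≤ x)
    (hx' : x ≤ (((335544320 : ℕ) : ℝ) + (67108864 : ℕ)) / S) :
    AltB (VF κ) PP tKF tL pcF [⟨3, 0, 0, 1449551462⟩] 1 0 1 4 0 (sgb true) (sgb false) x :=
  strip_altB (m := 1449551462) true rfl hκ covF41 covF01 hx hx' c_B40pm_101_s1 cutB_nil (noExt_B)

noncomputable def cut_B40pm_102_s1 : Cut := Cut.of [[⟨4, 0, 0, 1449551462⟩]]

noncomputable def f_B40pm_102_s1 : ℕ → ℕ → ℕ → ℕ → Bool := onCell 536870912 536870912 0 536870912 335544320 67108864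
    (rowF 0 false true false .npp 1 0 2 (qsf 536870912 536870912 0 536870912 0) ndF4q1 ndF0q2 pcF0 cut_B40pm_102_s1 Ext.none)

def k0_B40pm_102_s1 : ∃ t, chk3 f_B40pm_102_s1 t 1 1 1 = true :=
  ⟨(l 6), by decide +kernel⟩

theorem c_B40pm_102_s1 : CertF 536870912 536870912 0 536870912 335544320 67108864 false true false .npp 1 0 2
    ndF4q1 ndF0q2 pcF0 cut_B40pm_102_s1 Ext.none :=
  certF0 (fam := false) (s1 := true) (s2 := false) (a := 1) (b := 0) (c := 2) (cn := .npp) (n1 := ndF4q1) (n2 := ndF0q2) (pc := pcF0) (cut := cut_B40pm_102_s1) (xt := Ext.none) (P1 := 536870912) (W1 := 536870912) (P2 := 0) (W2 := 536870912) (P3 := 335544320) (W3 := 67108864)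
    rfl k0_B40pm_102_s1

theorem s_B40pm_102_s1 {κ x : ℝ} (hκ : κ * h0 = ken x) (hx : ((335544320 : ℕ) : ℝ) / S ≤ x)
    (hx' : x ≤ (((335544320 : ℕ) : ℝ) + (67108864 : ℕ)) / S) :
    AltB (VF κ) PP tKF tL pcF [⟨3, 0, 0, 1449551462⟩] 1 0 2 4 0 (sgb true) (sgb false) x :=
  strip_altB (m := 1449551462) true rfl hκ covF41 covF02 hx hx' c_B40pm_102_s1 cutB_nil (noExt_B)

noncomputable def cut_B40pm_112_s1 : Cut := Cut.of [[⟨4, 0, 0, 1449551462⟩]]

noncomputable def f_B40pm_112_s1 : ℕ → ℕ → ℕ → ℕ → Bool := onCell 536870912 536870912 0 536870912 335544320 67108864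
    (rowF 0 false true false .dn 1 1 2 (qsf 536870912 536870912 0 536870912 1) ndF4q1 ndF0q2 pcF1 cut_B40pm_112_s1 Ext.none)

def k0_B40pm_112_s1 : ∃ t, chk3 f_B40pm_112_s1 t 1 1 1 = true :=
  ⟨(l 6), by decide +kernel⟩

theorem c_B40pm_112_s1 : CertF 536870912 536870912 0 536870912 335544320 67108864 false true false .dn 1 1 2
    ndF4q1 ndF0q2 pcF1 cut_B40pm_112_s1 Ext.none :=
  certF0 (fam := false) (s1 := true) (s2 := false) (a := 1) (b := 1) (c := 2) (cn := .dn) (n1 := ndF4q1) (n2 := ndF0q2) (pc := pcF1) (cut := cut_B40pm_112_s1) (xt := Ext.none) (P1 := 536870912) (W1 := 536870912) (P2 := 0) (W2 := 536870912) (P3 := 335544320) (W3 := 67108864)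
    rfl k0_B40pm_112_s1

theorem s_B40pm_112_s1 {κ x : ℝ} (hκ : κ * h0 = ken x) (hx : ((335544320 : ℕ) : ℝ) / S ≤ x)
    (hx' : x ≤ (((335544320 : ℕ) : ℝ) + (67108864 : ℕ)) / S) :
    AltB (VF κ) PP tKF tL pcF [⟨3, 0, 0, 1449551462⟩] 1 1 2 4 0 (sgb true) (sgb false) x :=
  strip_altB (m := 1449551462) true rfl hκ covF41 covF02 hx hx' c_B40pm_112_s1 cutB_nil (noExt_B)

noncomputable def cut_B40pm_202_s1 : Cut := Cut.of [[⟨4, 0, 0, 1449551462⟩]]

noncomputable def f_B40pm_202_s1 : ℕ → ℕ → ℕ → ℕ → Bool := onCell 0 536870912 0 536870912 335544320 67108864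
    (rowF 2 false true false .pp 2 0 2 (qsf 1073741824 536870912 0 536870912 0) ndF4q2 ndF0q2 pcF0 cut_B40pm_202_s1 Ext.none)

def k0_B40pm_202_s1 : ∃ t, chk3 f_B40pm_202_s1 t 1 1 1 = true :=
  ⟨(l 6), by decide +kernel⟩

theorem c_B40pm_202_s1 : CertF 1073741824 536870912 0 536870912 335544320 67108864 false true false .pp 2 0 2
    ndF4q2 ndF0q2 pcF0 cut_B40pm_202_s1 Ext.none :=
  certF2 (fam := false) (s1 := true) (s2 := false) (a := 2) (b := 0) (c := 2) (cn := .pp) (n1 := ndF4q2) (n2 := ndF0q2) (pc := pcF0) (cut := cut_B40pm_202_s1) (xt := Ext.none) (P1 := 1073741824) (W1 := 536870912) (P2 := 0) (W2 := 536870912) (P3 := 335544320) (W3 := 67108864)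
    rfl (fun _ => rfl) k0_B40pm_202_s1

theorem s_B40pm_202_s1 {κ x : ℝ} (hκ : κ * h0 = ken x) (hx : ((335544320 : ℕ) : ℝ) / S ≤ x)
    (hx' : x ≤ (((335544320 : ℕ) : ℝ) + (67108864 : ℕ)) / S) :
    AltB (VF κ) PP tKF tL pcF [⟨3, 0, 0, 1449551462⟩] 2 0 2 4 0 (sgb true) (sgb false) x :=
  strip_altB (m := 1449551462) true rfl hκ covF42 covF02 hx hx' c_B40pm_202_s1 cutB_nil (noExt_B)

noncomputable def cut_B40mm_001_s1 : Cut := Cut.of [[⟨4, 0, 0, 1449551462⟩]]

noncomputable def f_B40mm_001_s1 : ℕ → ℕ → ℕ → ℕ → Bool := onCell 0 536870912 536870912 536870912 335544320 67108864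
    (rowF 0 false false false .up 0 0 1 (qsf 0 536870912 536870912 536870912 0) ndF4q0 ndF0q1 pcF0 cut_B40mm_001_s1 Ext.none)

def k0_B40mm_001_s1 : ∃ t, chk3 f_B40mm_001_s1 t 1 1 1 = true :=
  ⟨(l 5), by decide +kernel⟩

theorem c_B40mm_001_s1 : CertF 0 536870912 536870912 536870912 335544320 67108864 false false false .up 0 0 1
    ndF4q0 ndF0q1 pcF0 cut_B40mm_001_s1 Ext.none :=
  certF0 (fam := false) (s1 := false) (s2 := false) (a := 0) (b := 0) (c := 1) (cn := .up) (n1 := ndF4q0) (n2 := ndF0q1) (pc := pcF0) (cut := cut_B40mm_001_s1) (xt := Ext.none) (P1 := 0) (W1 := 536870912) (P2 := 536870912) (W2 := 536870912) (P3 := 335544320) (W3 := 67108864)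
    rfl k0_B40mm_001_s1

theorem s_B40mm_001_s1 {κ x : ℝ} (hκ : κ * h0 = ken x) (hx : ((335544320 : ℕ) : ℝ) / S ≤ x)
    (hx' : x ≤ (((335544320 : ℕ) : ℝ) + (67108864 : ℕ)) / S) :
    AltB (VF κ) PP tKF tL pcF [⟨3, 0, 0, 1449551462⟩] 0 0 1 4 0 (sgb false) (sgb false) x :=
  strip_altB (m := 1449551462) true rfl hκ covF40 covF01 hx hx' c_B40mm_001_s1 cutB_nil (noExt_B)

noncomputable def cut_B40mm_011_s1 : Cut := Cut.of [[⟨4, 0, 0, 1449551462⟩]]

noncomputable def f_B40mm_011_s1 : ℕ → ℕ → ℕ → ℕ → Bool := onCell 0 536870912 536870912 536870912 335544320 67108864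
    (rowF 0 false false false .pnn 0 1 1 (qsf 0 536870912 536870912 536870912 1) ndF4q0 ndF0q1 pcF1 cut_B40mm_011_s1 Ext.none)

def k0_B40mm_011_s1 : ∃ t, chk3 f_B40mm_011_s1 t 1 1 1 = true :=
  ⟨(l 5), by decide +kernel⟩

theorem c_B40mm_011_s1 : CertF 0 536870912 536870912 536870912 335544320 67108864 false false false .pnn 0 1 1
    ndF4q0 ndF0q1 pcF1 cut_B40mm_011_s1 Ext.none :=
  certF0 (fam := false) (s1 := false) (s2 := false) (a := 0) (b := 1) (c := 1) (cn := .pnn) (n1 := ndF4q0) (n2 := ndF0q1) (pc := pcF1) (cut := cut_B40mm_011_s1) (xt := Ext.none) (P1 := 0) (W1 := 536870912) (P2 := 536870912) (W2 := 536870912) (P3 := 335544320) (W3 := 67108864)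
    rfl k0_B40mm_011_s1

theorem s_B40mm_011_s1 {κ x : ℝ} (hκ : κ * h0 = ken x) (hx : ((335544320 : ℕ) : ℝ) / S ≤ x)
    (hx' : x ≤ (((335544320 : ℕ) : ℝ) + (67108864 : ℕ)) / S) :
    AltB (VF κ) PP tKF tL pcF [⟨3, 0, 0, 1449551462⟩] 0 1 1 4 0 (sgb false) (sgb false) x :=
  strip_altB (m := 1449551462) true rfl hκ covF40 covF01 hx hx' c_B40mm_011_s1 cutB_nil (noExt_B)

noncomputable def cut_B40mm_012_s1 : Cut := Cut.of [[⟨4, 0, 0, 1449551462⟩]]

noncomputable def f_B40mm_012_s1 : ℕ → ℕ → ℕ → ℕ → Bool := onCell 0 536870912 0 536870912 335544320 67108864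
    (rowF 0 false false false .pnp 0 1 2 (qsf 0 536870912 0 536870912 1) ndF4q0 ndF0q2 pcF1 cut_B40mm_012_s1 Ext.none)

def k0_B40mm_012_s1 : ∃ t, chk3 f_B40mm_012_s1 t 1 1 1 = true :=
  ⟨(l 5), by decide +kernel⟩

theorem c_B40mm_012_s1 : CertF 0 536870912 0 536870912 335544320 67108864 false false false .pnp 0 1 2
    ndF4q0 ndF0q2 pcF1 cut_B40mm_012_s1 Ext.none :=
  certF0 (fam := false) (s1 := false) (s2 := false) (a := 0) (b := 1) (c := 2) (cn := .pnp) (n1 := ndF4q0) (n2 := ndF0q2) (pc := pcF1) (cut := cut_B40mm_012_s1) (xt := Ext.none) (P1 := 0) (W1 := 536870912) (P2 := 0) (W2 := 536870912) (P3 := 335544320) (W3 := 67108864)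
    rfl k0_B40mm_012_s1

theorem s_B40mm_012_s1 {κ x : ℝ} (hκ : κ * h0 = ken x) (hx : ((335544320 : ℕ) : ℝ) / S ≤ x)
    (hx' : x ≤ (((335544320 : ℕ) : ℝ) + (67108864 : ℕ)) / S) :
    AltB (VF κ) PP tKF tL pcF [⟨3, 0, 0, 1449551462⟩] 0 1 2 4 0 (sgb false) (sgb false) x :=
  strip_altB (m := 1449551462) true rfl hκ covF40 covF02 hx hx' c_B40mm_012_s1 cutB_nil (noExt_B)

noncomputable def cut_B40mm_022_s1 : Cut := Cut.of [[⟨4, 0, 0, 1449551462⟩]]

noncomputable def f_B40mm_022_s1 : ℕ → ℕ → ℕ → ℕ → Bool := onCell 0 536870912 0 536870912 335544320 67108864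
    (rowF 0 false false false .pp 0 2 2 (qsf 0 536870912 0 536870912 2) ndF4q0 ndF0q2 pcF2 cut_B40mm_022_s1 Ext.none)

def k0_B40mm_022_s1 : ∃ t, chk3 f_B40mm_022_s1 t 1 1 1 = true :=
  ⟨(l 5), by decide +kernel⟩

theorem c_B40mm_022_s1 : CertF 0 536870912 0 536870912 335544320 67108864 false false false .pp 0 2 2
    ndF4q0 ndF0q2 pcF2 cut_B40mm_022_s1 Ext.none :=
  certF0 (fam := false) (s1 := false) (s2 := false) (a := 0) (b := 2) (c := 2) (cn := .pp) (n1 := ndF4q0) (n2 := ndF0q2) (pc := pcF2) (cut := cut_B40mm_022_s1) (xt := Ext.none) (P1 := 0) (W1 := 536870912) (P2 := 0) (W2 := 536870912) (P3 := 335544320) (W3 := 67108864)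
    rfl k0_B40mm_022_s1

theorem s_B40mm_022_s1 {κ x : ℝ} (hκ : κ * h0 = ken x) (hx : ((335544320 : ℕ) : ℝ) / S ≤ x)
    (hx' : x ≤ (((335544320 : ℕ) : ℝ) + (67108864 : ℕ)) / S) :
    AltB (VF κ) PP tKF tL pcF [⟨3, 0, 0, 1449551462⟩] 0 2 2 4 0 (sgb false) (sgb false) x :=
  strip_altB (m := 1449551462) true rfl hκ covF40 covF02 hx hx' c_B40mm_022_s1 cutB_nil (noExt_B)

noncomputable def cut_B40mm_101_s1 : Cut := Cut.of [[⟨4, 0, 0, 1449551462⟩]]

noncomputable def f_B40mm_101_s1 : ℕ → ℕ → ℕ → ℕ → Bool := onCell 0 536870912 536870912 536870912 335544320 67108864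
    (rowF 2 false false false .npn 1 0 1 (qsf 536870912 536870912 536870912 536870912 0) ndF4q1 ndF0q1 pcF0 cut_B40mm_101_s1 Ext.none)

def k0_B40mm_101_s1 : ∃ t, chk3 f_B40mm_101_s1 t 1 1 1 = true :=
  ⟨(l 5), by decide +kernel⟩

theorem c_B40mm_101_s1 : CertF 536870912 536870912 536870912 536870912 335544320 67108864 false false false .npn 1 0 1
    ndF4q1 ndF0q1 pcF0 cut_B40mm_101_s1 Ext.none :=
  certF2 (fam := false) (s1 := false) (s2 := false) (a := 1) (b := 0) (c := 1) (cn := .npn) (n1 := ndF4q1) (n2 := ndF0q1) (pc := pcF0) (cut := cut_B40mm_101_s1) (xt := Ext.none) (P1 := 536870912) (W1 := 536870912) (P2 := 536870912) (W2 := 536870912) (P3 := 335544320) (W3 := 67108864)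
    rfl (fun _ => rfl) k0_B40mm_101_s1

theorem s_B40mm_101_s1 {κ x : ℝ} (hκ : κ * h0 = ken x) (hx : ((335544320 : ℕ) : ℝ) / S ≤ x)
    (hx' : x ≤ (((335544320 : ℕ) : ℝ) + (67108864 : ℕ)) / S) :
    AltB (VF κ) PP tKF tL pcF [⟨3, 0, 0, 1449551462⟩] 1 0 1 4 0 (sgb false) (sgb false) x :=
  strip_altB (m := 1449551462) true rfl hκ covF41 covF01 hx hx' c_B40mm_101_s1 cutB_nil (noExt_B)

noncomputable def cut_B40mm_102_s1 : Cut := Cut.of [[⟨4, 0, 0, 1449551462⟩]]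

noncomputable def f_B40mm_102_s1 : ℕ → ℕ → ℕ → ℕ → Bool := onCell 536870912 536870912 0 536870912 335544320 67108864
    (rowF 0 false false false .npp 1 0 2 (qsf 536870912 536870912 0 536870912 0) ndF4q1 ndF0q2 pcF0 cut_B40mm_102_s1 Ext.none)

def k0_B40mm_102_s1 : ∃ t, chk3 f_B40mm_102_s1 t 1 1 1 = true :=
  ⟨(l 5), by decide +kernel⟩

theorem c_B40mm_102_s1 : CertF 536870912 536870912 0 536870912 335544320 67108864 false false false .npp 1 0 2
    ndF4q1 ndF0q2 pcF0 cut_B40mm_102_s1 Ext.none :=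
  certF0 (fam := false) (s1 := false) (s2 := false) (a := 1) (b := 0) (c := 2) (cn := .npp) (n1 := ndF4q1) (n2 := ndF0q2) (pc := pcF0) (cut := cut_B40mm_102_s1) (xt := Ext.none) (P1 := 536870912) (W1 := 536870912) (P2 := 0) (W2 := 536870912) (P3 := 335544320) (W3 := 67108864)
    rfl k0_B40mm_102_s1

theorem s_B40mm_102_s1 {κ x : ℝ} (hκ : κ * h0 = ken x) (hx : ((335544320 : ℕ) : ℝ) / S ≤ x)
    (hx' : x ≤ (((335544320 : ℕ) : ℝ) + (67108864 : ℕ)) / S) :
    AltB (VF κ) PP tKF tL pcF [⟨3, 0, 0, 1449551462⟩] 1 0 2 4 0 (sgb false) (sgb false) x :=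
  strip_altB (m := 1449551462) true rfl hκ covF41 covF02 hx hx' c_B40mm_102_s1 cutB_nil (noExt_B)

noncomputable def cut_B40mm_112_s1 : Cut := Cut.of [[⟨4, 0, 0, 1449551462⟩]]

noncomputable def f_B40mm_112_s1 : ℕ → ℕ → ℕ → ℕ → Bool := onCell 536870912 536870912 0 536870912 335544320 67108864
    (rowF 0 false false false .dn 1 1 2 (qsf 536870912 536870912 0 536870912 1) ndF4q1 ndF0q2 pcF1 cut_B40mm_112_s1 Ext.none)

def k0_B40mm_112_s1 : ∃ t, chk3 f_B40mm_112_s1 t 1 1 1 = true :=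
  ⟨(l 5), by decide +kernel⟩

theorem c_B40mm_112_s1 : CertF 536870912 536870912 0 536870912 335544320 67108864 false false false .dn 1 1 2
    ndF4q1 ndF0q2 pcF1 cut_B40mm_112_s1 Ext.none :=
  certF0 (fam := false) (s1 := false) (s2 := false) (a := 1) (b := 1) (c := 2) (cn := .dn) (n1 := ndF4q1) (n2 := ndF0q2) (pc := pcF1) (cut := cut_B40mm_112_s1) (xt := Ext.none) (P1 := 536870912) (W1 := 536870912) (P2 := 0) (W2 := 536870912) (P3 := 335544320) (W3 := 67108864)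
    rfl k0_B40mm_112_s1

theorem s_B40mm_112_s1 {κ x : ℝ} (hκ : κ * h0 = ken x) (hx : ((335544320 : ℕ) : ℝ) / S ≤ x)
    (hx' : x ≤ (((335544320 : ℕ) : ℝ) + (67108864 : ℕ)) / S) :
    AltB (VF κ) PP tKF tL pcF [⟨3, 0, 0, 1449551462⟩] 1 1 2 4 0 (sgb false) (sgb false) x :=
  strip_altB (m := 1449551462) true rfl hκ covF41 covF02 hx hx' c_B40mm_112_s1 cutB_nil (noExt_B)

noncomputable def cut_B40mm_202_s1 : Cut := Cut.of [[⟨4, 0, 0, 1449551462⟩]]

noncomputable def f_B40mm_202_s1 : ℕ → ℕ → ℕ → ℕ → Bool := onCell 1073741824 536870912 0 536870912 335544320 67108864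
    (rowF 0 false false false .pp 2 0 2 (qsf 1073741824 536870912 0 536870912 0) ndF4q2 ndF0q2 pcF0 cut_B40mm_202_s1 Ext.none)

def k0_B40mm_202_s1 : ∃ t, chk3 f_B40mm_202_s1 t 1 1 1 = true :=
  ⟨(l 5), by decide +kernel⟩

theorem c_B40mm_202_s1 : CertF 1073741824 536870912 0 536870912 335544320 67108864 false false false .pp 2 0 2
    ndF4q2 ndF0q2 pcF0 cut_B40mm_202_s1 Ext.none :=
  certF0 (fam := false) (s1 := false) (s2 := false) (a := 2) (b := 0) (c := 2) (cn := .pp) (n1 := ndF4q2) (n2 := ndF0q2) (pc := pcF0) (cut := cut_B40mm_202_s1) (xt := Ext.none) (P1 := 1073741824) (W1 := 536870912) (P2 := 0) (W2 := 536870912) (P3 := 335544320) (W3 := 67108864)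
    rfl k0_B40mm_202_s1

theorem s_B40mm_202_s1 {κ x : ℝ} (hκ : κ * h0 = ken x) (hx : ((335544320 : ℕ) : ℝ) / S ≤ x)
    (hx' : x ≤ (((335544320 : ℕ) : ℝ) + (67108864 : ℕ)) / S) :
    AltB (VF κ) PP tKF tL pcF [⟨3, 0, 0, 1449551462⟩] 2 0 2 4 0 (sgb false) (sgb false) x :=
  strip_altB (m := 1449551462) true rfl hκ covF42 covF02 hx hx' c_B40mm_202_s1 cutB_nil (noExt_B)

end Pool.Agent.Strip051.G.I5_16_3_8.Tab.St.C
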