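import Pool.Agent.Strip051.G.I5_16_3_8.Tab

/-! # Certificates F3 (generated) -/

set_option linter.all false
set_option maxRecDepth 100000

namespace Pool.Agent.Strip051.G.I5_16_3_8.Tab.C.FB00

open Pool.Agent.Strip051.PB Pool.Agent.Strip051.PB.T
open Pool.Agent.Strip051.G.I5_16_3_8.Tab

noncomputable def cut_pm_011 : Cut := Cut.of [[⟨3, 0, 0, 1449551462⟩], [⟨4, 0, 0, 2845415833⟩], [⟨0, 0, 0, 67108864⟩, ⟨1, 1, 0, 67108864⟩, ⟨2, 1, 0, 67108864⟩], [⟨0, 0, 1, 33554432⟩, ⟨1, 1, 2, 33554432⟩, ⟨2, 1, 0, 33554432⟩]]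

noncomputable def f_pm_011 : ℕ → ℕ → ℕ → ℕ → Bool := onCell 536870912 536870912 536870912 536870912 335544320 67108864
    (rowF 2 false true false .pnn 0 1 1 (qsf 0 536870912 536870912 536870912 1) ndF0q0 ndF0q1 pcF1 cut_pm_011 Ext.none)

def k0_pm_011 : ∃ t, chk3 f_pm_011 t 2 2 1 = true :=
  ⟨(l 4), by decide +kernel⟩

def k1_pm_011 : ∃ t, chk3 f_pm_011 t 2 6 1 = true :=
  ⟨(l 14), by decide +kernel⟩

def k2_pm_011 : ∃ t, chk3 f_pm_011 t 8 28 1 = true :=
  ⟨(a (b (l 14) (b (a (c (l 16870736) (a (l 16806112) (l 14))) (l 14)) (a (c (l 16877432) (a (l 16807296) (l 16798832))) (c (a (l 16863016) (l 16853448)) (a (l 16790408) (l 16761048)))))) (l 14)), by decide +kernel⟩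

def k3_pm_011 : ∃ t, chk3 f_pm_011 t 8 29 2 = true :=
  ⟨(a (b (b (a (a (l 16888632) (l 16878680)) (c (l 16883744) (l 16843944))) (a (b (a (a (l 16895808) (l 16890544)) (l 16882904)) (a (b (b (a (l 16898472) (l 16892632)) (l 16898296)) (l 16903128)) (b (b (l 16884576) (a (l 16888464) (l 16882832))) (l 16868440)))) (b (l 16867560) (a (b (l 16874560) (b (l 16875880) (a (l 16880856) (l 16874184)))) (l 16844040))))) (b (a (b (a (l 16913504) (l 16899712)) (l 16921576)) (a (b (l 16885704) (l 16900128)) (b (b (b (a (l 16870104) (l 16863904)) (l 16869880)) (l 16874896)) (l 16885496)))) (a (a (l 16953456) (l 16939064)) (a (l 16924168) (l 16908832))))) (b (a (b (a (l 16848760) (l 16838776)) (a (l 16853200) (l 16842760))) (b (l 14) (a (l 16832280) (l 16821760)))) (b (a (b (a (b (b (l 16855552) (a (l 16859472) (l 16853560))) (a (l 16864112) (l 16856800))) (b (l 16845024) (b (a (l 16848864) (l 16843040)) (a (l 16851304) (l 16844240))))) (a (l 16870688) (l 16855776))) (b (a (a (l 16837664)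 (l 16831896)) (l 16823704)) (a (b (b (a (l 16839832) (l 16833272)) (l 16839320)) (l 16844016)) (b (a (b (l 16827328) (l 16828424)) (l 16822120)) (a (l 16832736) (l 16825168)))))) (a (a (l 16893104) (b (l 16869672) (l 16884656))) (a (b (l 16853888) (l 16867944)) (b (l 16838088) (l 16851040))))))), by decide +kernel⟩

def k4_pm_011 : ∃ t, chk3 f_pm_011 t 16 29 3 = true :=
  ⟨(b (a (b (a (l 16808136) (l 16778256)) (b (a (a (b (l 16810752) (l 16790144)) (l 16806216)) (l 16799288)) (b (a (b (a (a (l 16814128) (l 16789840)) (b (l 16806384) (l 16775376))) (l 16812544)) (a (b (l 16801600) (b (l 16801976) (l 16802904))) (l 16776208))) (a (l 16817912) (a (l 16807360) (b (c (l 16819608) (l 16777656)) (l 16802064))))))) (b (a (l 16769336) (c (l 16800408) (l 16762584))) (b (a (l 16790024) (l 16780720)) (b (l 16743136) (a (b (a (c (l 16813696) (b (l 16771440) (l 16771840))) (l 16787320)) (a (l 16794960) (b (l 16766688) (l 16788656)))) (a (l 16740832) (l 16777624))))))) (a (b (a (b (l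 16829488) (l 16846320)) (b (l 16815008) (l 16831312))) (a (b (l 16864624) (l 16884248)) (b (l 16849104) (l 16868240)))) (b (a (b (b (l 16796704) (l 16804136)) (l 16816040)) (b (b (b (a (a (l 16785920) (l 16782304)) (c (l 16799064) (b (l 16756784) (l 16757160)))) (l 16783960)) (l 16789280)) (l 16800584))) (a (b (l 16833184) (l 16851672)) (b (l 16816928) (l 16834608)))))), by decide +kernel⟩

def k5_pm_011 : ∃ t, chk3 f_pm_011 t 17 29 3 = true :=
  ⟨(b (a (b (a (c (l 16791232) (l 16753912)) (c (l 16782064) (l 16745248))) (a (c (l 16791200) (l 16751040)) (c (l 16781456) (l 16741736)))) (b (l 14) (a (c (l 16771680) (l 16732392)) (c (l 16761872) (l 16723016))))) (b (a (b (a (b (b (l 16770120) (a (b (l 16751848) (l 16773864)) (l 16767688))) (a (l 16778144) (b (l 16727072) (l 16772432)))) (b (l 16760056) (b (a (a (l 16732584) (l 16761208)) (l 16757200)) (a (l 16765032) (b (l 16757384) (l 16758448)))))) (a (a (l 16788936) (l 16781176)) (a (l 16773432) (l 16765728)))) (b (a (a (b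 (l 16752600) (l 16726072)) (l 16747216)) (l 16739624)) (a (b (b (a (l 16753312) (c (l 16768080) (l 16725880))) (l 16752728)) (l 16757376)) (b (b (l 16738624) (a (b (l 16741256) (l 16742304)) (l 16735752))) (a (l 16745832) (l 16738128)))))) (a (a (b (l 16800440) (l 16817136)) (b (l 16783832) (l 16799352))) (a (b (l 16746248) (l 16781376)) (b (a (l 16754840) (l 16746672)) (l 16763328)))))), by decide +kernel⟩

def k6_pm_011 : ∃ t, chk3 f_pm_011 t 8 30 1 = true :=
  ⟨(a (b (a (b (c (l 16982904) (a (l 16915928) (l 16899232))) (c (l 17022568) (a (l 16961432) (l 16943920)))) (b (c (a (l 16959856) (l 16943584)) (a (l 16881720) (l 16842464))) (c (l 16990424) (a (l 16925224) (l 16905376))))) (a (a (b (l 17040456) (l 17087112)) (b (l 17002864) (l 17070336))) (b (c (l 17031432) (a (l 16971936) (l 16950616))) (c (l 17074000) (a (l 17020968) (l 16998344)))))) (b (a (b (c (a (l 16926616) (l 16909016)) (a (l 16802520) (l 16782920))) (a (c (l 16963504) (l 16863424)) (b (l 16830544) (l 16849560))))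 (b (a (c (l 16890840) (b (l 16796648) (l 16812952))) (c (l 16851208) (b (l 16776952) (l 16791552)))) (c (a (l 16924120) (l 16902992)) (a (b (l 16830200) (l 16848328)) (b (l 16807056) (l 16823400)))))) (a (b (c (l 16971840) (a (l 16927696) (b (l 16892608) (l 16913768)))) (c (l 17033440) (a (l 16973632) (c (l 16965424) (l 16928224))))) (b (c (a (l 16960016) (l 16936384)) (a (b (l 16867264) (l 16886920)) (b (l 16840528) (l 16858376)))) (c (a (l 16997944) (l 16971832)) (a (b (l 16907248) (l 16928168)) (b (l 16876896) (l 16896024)))))))), by decide +kernel⟩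

def k7_pm_011 : ∃ t, chk3 f_pm_011 t 8 31 1 = true :=
  ⟨(b (a (b (a (c (l 17150376) (l 17102368)) (a (l 17098712) (l 17056560))) (a (c (l 17178952) (l 17136136)) (b (b (l 17118120) (l 17124424)) (l 17129712)))) (b (a (c (l 17075240) (a (l 17021456) (l 16992440))) (c (a (l 17037336) (l 17008872)) (a (c (l 16979680) (l 16920600)) (b (l 16915704) (l 16935888))))) (a (b (b (l 17006344) (a (l 17091184) (l 17023080))) (l 17085680)) (b (c (a (l 17067936) (l 17038016)) (b (a (l 16988160) (l 16951296)) (a (l 16998936) (b (l 16959088) (l 16963928))))) (c (l 17066216) (l 16948152)))))) (a (a (l 17172064) (c (l 17170272) (l 17119784))) (a (b (l 17035240) (l 17114560)) (c (l 17071112) (b (a (l 17023240) (l 16988896)) (a (l 17044232) (l 17012512))))))), by decide +kernel⟩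

def k8_pm_011 : ∃ t, chk3 f_pm_011 t 9 14 1 = true :=
  ⟨(b (l 14) (a (b (b (l 14) (a (a (a (c (l 16813848) (l 16735136)) (l 14)) (l 14)) (l 14))) (b (a (b (c (a (l 16812704) (l 16801648)) (a (l 16729440) (l 16719192))) (b (c (l 16807752) (l 16722520)) (a (c (b (a (l 16817056) (l 16810984)) (a (l 16819248) (l 16811928))) (b (a (l 16730216) (l 16724424)) (a (l 16732072) (l 16724728)))) (a (c (l 16805544) (l 16719000)) (l 16729640))))) (a (c (l 16790664) (l 16728336)) (l 14))) (a (a (c (b (l 16780456) (l 16834064)) (b (a (l 16738584) (l 16730616)) (l 16724400))) (b (c (b (a (l 16808184) (b (l 16800112) (l 16802000))) (l 16809440)) (b (a (l 16720472) (b (l 16712720) (l 16714128))) (l 16721016))) (c (l 16796184) (l 16717176)))) (b (a (b (c (a (b (l 16793920) (l 16794632)) (l 16788216)) (a (b (l 16706808) (l 16706800)) (l 16701056))) (c (l 16773008) (l 16726384))) (c (b (l 16779016) (a (l 16761968) (l 16776336))) (b (l 16692280) (a (l 16715448) (l 16709096))))) (a (c (l 16758536)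 (l 16715664)) (c (c (l 16807392) (l 16761288)) (l 16714848))))))) (b (l 14) (a (b (l 14) (a (b (c (l 16767216) (l 16722272)) (a (c (l 16772640) (l 16682320)) (b (b (l 14) (l 16719408)) (l 16720784)))) (a (b (l 14) (b (l 14) (l 16734432))) (l 14)))) (l 14))))), by decide +kernel⟩

def k9_pm_011 : ∃ t, chk3 f_pm_011 t 18 30 1 = true :=
  ⟨(a (b (b (a (c (b (l 16846552) (l 16859792)) (b (l 16757104) (l 16769728))) (c (b (l 16828056) (l 16839640)) (b (l 16737248) (l 16747624)))) (a (c (l 16881008) (b (l 16783200) (l 16797456))) (c (b (l 16851848) (l 16864648)) (b (l 16758752) (l 16770600))))) (b (a (c (l 16911328) (b (l 16812456) (l 16828152))) (c (l 16863936) (b (l 16783128) (l 16796312)))) (c (a (l 16943704) (l 16913536)) (a (b (l 16844504) (l 16861464)) (b (l 16810104) (l 16824488)))))) (b (b (a (c (b (l 16788584) (l 16819216)) (b (l 16717560) (l 16704408))) (c (b (c (l 16815000) (l 16767648)) (c (l 16823048) (l 16774496))) (b (a (l 16703032) (l 16693528)) (a (l 16708720)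 (l 16697680))))) (a (c (b (l 16829416) (l 16840136)) (b (l 16712880) (l 16721968))) (c (a (c (l 16841816) (l 16791888)) (c (l 16830008) (l 16779416))) (b (a (l 16714960) (l 16702312)) (a (l 16721736) (l 16707424)))))) (a (b (c (b (l 16851336) (l 16862992)) (b (l 16710680) (l 16720952))) (c (b (l 16875080) (l 16887576)) (b (l 16710808) (a (l 16795160) (l 16774848))))) (b (c (a (c (l 16861504) (l 16809648)) (c (l 16847224) (l 16773344))) (a (b (l 16729032) (l 16736840)) (b (l 16712992) (l 16719024)))) (c (a (l 16813896) (b (l 16833664) (l 16842752))) (a (b (l 16745144) (l 16753936)) (b (l 16704520) (c (l 16759872) (l 16705024))))))))), by decide +kernel⟩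

def k10_pm_011 : ∃ t, chk3 f_pm_011 t 18 31 1 = true :=
  ⟨(b (a (b (b (c (l 16952888) (a (l 16879000) (l 16797496))) (c (l 16969376) (a (l 16876088) (c (l 16879008) (l 16830848))))) (c (b (a (l 17004568) (l 16967408)) (l 16937232)) (b (b (a (l 16910888) (l 16866824)) (a (a (l 16931416) (l 16909600)) (l 16853960))) (a (l 16930864) (c (l 16909240) (b (b (l 16835440) (l 16860176)) (l 16865360))))))) (b (a (c (a (l 16916536) (l 16897440)) (b (c (l 16822752) (l 16771264)) (c (l 16835392) (l 16762408)))) (c (a (l 16856648) (b (l 16852176) (l 16861912))) (a (b (l 16763200) (l 16772928)) (b (c (l 16767768) (l 16711792)) (c (l 16776072) (l 16719008)))))) (b (a (c (l 16927280) (a (l 16834776) (l 16788480))) (c (a (l 16894784) (l 16871952)) (a (l 16741168) (c (l 16784768) (l 16705696))))) (a (c (b (l 16937224) (l 16944496)) (b (b (c (l 16856912) (a (l 16817704) (l 16790408))) (l 16834104)) (l 16818592))) (c (b (a (l 16903672) (b (l 16836480) (l 16881512))) (l 16899144)) (b (b (a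 (c (l 16818080) (l 16761832)) (b (l 16739512) (c (l 16790984) (a (l 16739944) (l 16703536))))) (a (l 16793128) (l 16743096))) (a (l 16798816) (l 16748968)))))))) (a (c (b (l 17019600) (l 17044848)) (b (a (c (l 16971760) (l 16928624)) (a (l 16918064) (l 16853184))) (a (l 16976416) (a (l 16946232) (l 16903592))))) (a (c (b (l 16962072) (l 16990856)) (b (c (l 16884256) (b (l 16824616) (l 16840096))) (c (l 16914888) (b (l 16835080) (l 16851504))))) (c (b (a (l 16929400) (l 16906072)) (a (l 16959864) (l 16937616))) (b (b (a (l 16789472) (c (l 16811008) (l 16752712))) (a (l 16805448) (c (l 16827184) (l 16748464)))) (a (b (l 16821960) (l 16838992)) (c (l 16831608) (b (l 16765864) (l 16783920))))))))), by decide +kernel⟩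

def k11_pm_011 : ∃ t, chk3 f_pm_011 t 19 30 1 = true :=
  ⟨(b (a (b (c (a (c (l 16801800) (l 16753560)) (b (l 16759320) (l 16764648))) (a (b (l 16681328) (l 16684280)) (b (l 16666200) (l 16668280)))) (b (c (a (l 16786912) (l 16770368)) (a (l 16708656) (l 16670816))) (c (a (l 16793624) (l 16776472)) (a (l 16712504) (l 16694784))))) (b (b (a (c (l 16743864) (l 16650984)) (l 14)) (c (a (l 16748480) (l 16732080)) (a (l 16652096) (l 16635752)))) (c (a (b (l 16753504) (l 16758928)) (b (l 16736328) (l 16740984))) (a (b (l 16653680) (l 16655736)) (b (l 16636288) (l 16637304)))))) (a (b (b (c (a (l 16779728) (l 16782952)) (a (c (l 16721816) (l 16669976)) (l 16698224))) (c (a (l 16787152) (l 16768824)) (a (c (l 16727240) (l 16673968)) (l 16700808)))) (c (a (c (l 16848032) (b (l 16788168) (l 16795664))) (c (l 16829248) (b (l 16768952) (l 16775840)))) (a (b (c (l 16733072) (l 16678400)) (c (l 16739304) (l 16683272))) (b (c (l 16713192) (l 16657864)) (c (l 16718688) (l 16661880))))))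 (b (b (c (a (l 16764744) (l 16746048)) (a (l 16679224) (l 16638800))) (c (a (l 16770936) (l 16751504)) (a (l 16682200) (l 16661736)))) (b (c (a (l 16756528) (l 16757344)) (a (l 16696112) (l 16685136))) (c (a (l 16731992) (l 16721624)) (a (c (l 16697376) (l 16639792)) (l 16695904))))))), by decide +kernel⟩

def k12_pm_011 : ∃ t, chk3 f_pm_011 t 19 62 1 = true :=
  ⟨(b (a (c (a (c (l 16865952) (b (l 16803504) (l 16811680))) (c (l 16846240) (b (l 16783088) (l 16790696)))) (a (a (b (l 16701536) (a (l 16731792) (l 16726320))) (b (l 16711816) (l 16697056))) (b (c (l 16724592) (l 16666344)) (c (l 16730904) (l 16692232))))) (c (a (c (l 16783784) (b (l 16761896) (l 16768856))) (c (b (l 16800504) (l 16808192)) (b (l 16739880) (l 16746104)))) (a (b (c (l 16702480) (l 16643320)) (c (l 16708008) (l 16647320))) (b (c (l 16679528) (l 16619456)) (c (l 16684184) (l 30)))))) (a (b (c (a (c (l 16880072) (l 16820192)) (c (l 16859720) (l 16798656))) (a (c (l 16739368) (a (l 16706272) (l 16694584)))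 (a (l 16692048) (l 16680176)))) (c (b (a (b (l 16855904) (l 16795632)) (a (l 16799520) (l 16788600))) (a (l 16864344) (l 16842616))) (b (a (b (c (l 16765136) (l 16704560)) (c (a (l 16773288) (l 16761800)) (a (l 16712872) (l 16700712)))) (b (c (l 16742000) (l 16680184)) (c (a (l 16750048) (l 16738072)) (a (l 16688288) (l 16675640))))) (a (c (l 16773536) (l 16712920)) (c (l 16749656) (l 16687608)))))) (c (b (a (c (l 16838464) (l 16776192)) (c (l 16816224) (a (l 16758680) (l 16746688)))) (b (a (a (l 16777408) (l 16765928)) (c (l 16822448) (l 16736952))) (a (c (l 16851392) (l 16787992)) (c (a (l 16833960) (l 16822000)) (a (l 16769440) (b (b (l 16754072) (l 16755784)) (l 16758800))))))) (c (b (a (a (l 16719968) (l 16707888)) (a (l 16695544) (l 16682936))) (b (a (a (l 16704056) (l 16712552)) (a (l 16699808) (l 16686864))) (a (a (l 16730984) (l 16718088)) (b (a (l 16681928) (b (l 16688744) (l 16690432))) (l 16700272))))) (a (a (b (l 16658088) (b (l 16669968) (l 16667840))) (l 30))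 (l 30)))))), by decide +kernel⟩

def k13_pm_011 : ∃ t, chk3 f_pm_011 t 19 63 1 = true :=
  ⟨(a (c (b (a (a (l 16888904) (l 16878560)) (a (l 16846960) (l 16815056))) (a (c (l 16945720) (l 16886992)) (a (l 16880160) (l 16848672)))) (b (a (b (c (l 16785552) (a (l 16731272) (l 16719024))) (c (l 16781152) (a (l 16748288) (l 16736184)))) (b (c (l 16740880) (a (l 16706472) (l 16693592))) (c (l 16757752) (a (l 16723760) (l 16710992))))) (a (b (c (l 16819328) (a (l 16745088) (l 16733152))) (c (l 16837144) (a (l 16763560) (c (l 16787504) (l 16758120))))) (c (b (a (l 16802168) (l 16790344)) (a (l 16820320) (l 16808704))) (b (a (c (l 16756944) (l 16726784)) (c (l 16744520) (l 30))) (a (b (l 16755928) (l 16744592)) (c (l 16763416) (l 30)))))))) (c (b (a (c (l 16871512) (b (l 16800160) (l 16816872))) (a (b (l 16771984) (l 16809688)) (b (a (l 16783768) (l 16756568)) (l 16755568)))) (a (c (l 16905200) (b (l 16834240) (l 16852224))) (c (l 16882944) (b (l 16768152) (l 16786528))))) (b (a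 (b (c (a (l 16743280) (l 16730488)) (a (l 16680376) (l 30))) (c (a (l 16760344) (l 16747656)) (a (l 16676904) (l 30)))) (c (b (a (l 16717360) (l 16703880)) (a (l 16734624) (c (l 16737432) (l 30)))) (l 30))) (c (a (b (a (l 16778168) (l 16765632)) (a (l 16796728) (l 16763400))) (b (a (c (l 16768608) (l 16736832)) (c (l 16755536) (l 30))) (a (a (l 16774848) (l 16747408)) (c (l 16774448) (l 30))))) (c (a (a (a (b (l 16734968) (l 16754000)) (l 30)) (l 30)) (l 30)) (l 30)))))), by decide +kernel⟩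

def k14_pm_011 : ∃ t, chk3 f_pm_011 t 10 14 1 = true :=
  ⟨(l 14), by decide +kernel⟩

def k15_pm_011 : ∃ t, chk3 f_pm_011 t 10 30 1 = true :=
  ⟨(a (b (b (a (b (l 14) (c (a (l 16715464) (l 14)) (l 16621520))) (l 14)) (a (c (a (b (l 16718840) (l 16722640)) (b (l 16701072) (l 16703912))) (a (l 16608104) (l 16607264))) (c (a (l 16715368) (l 14)) (l 16644312)))) (a (c (b (a (b (l 16726864) (l 16731488)) (b (l 16707184) (l 16710880))) (a (b (l 16736520) (l 16741944)) (b (l 16715000) (l 16719528)))) (b (a (c (l 16667520) (l 16599080)) (l 16604880)) (a (b (l 16600104) (l 16604536)) (c (l 16607112) (l 16601840))))) (b (c (a (b (l 16687024) (l 16689680)) (b (l 16666392) (l 16667880))) (a (l 16610536) (l 16616400))) (c (a (b (l 16692768) (l 16696296)) (a (l 16687440) (l 16685976))) (a (l 16607408) (l 16611792)))))) (b (l 14) (a (b (c (a (l 16624416) (l 16638696)) (a (l 16622448) (l 16628664))) (b (c (a (l 16646144) (l 16625656)) (l 16620416)) (c (a (l 16647272) (l 16624216)) (l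 16617240)))) (b (l 14) (c (a (c (l 16630392) (l 16629056)) (c (l 16635336) (l 16634152))) (a (l 16626416) (l 16631712))))))), by decide +kernel⟩

def k16_pm_011 : ∃ t, chk3 f_pm_011 t 40 62 1 = true :=
  ⟨(b (c (a (b (l 16705816) (c (l 16785592) (l 16722392))) (b (c (l 16755776) (l 16693240)) (c (l 16762000) (l 16697688)))) (a (c (b (l 16655712) (l 16659384)) (l 16597816)) (b (l 16602664) (c (l 30) (l 16599664))))) (c (b (a (c (l 16792952) (a (l 16734424) (l 16721896))) (c (a (l 16774792) (l 16762336)) (a (l 16709080) (l 16695984)))) (a (b (c (l 16798688) (a (l 16739192) (l 16726336))) (b (c (a (l 16808040) (l 16795672)) (a (b (l 16741304) (l 16742672)) (b (l 16728264) (l 16708384)))) (c (l 16805504) (l 16718088)))) (b (c (l 16752808) (a (l 16713192) (l 16699736))) (b (c (a (l 16783008) (l 16770024)) (a (c (l 16732376) (l 16698608)) (l 16701768))) (c (a (l 16786184) (l 16772832)) (a (l 16718536) (l 16683392))))))) (c (a (a (b (l 16670056) (b (l 16673632) (b (b (l 16675264)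 (l 16676544)) (l 16679624)))) (l 30)) (l 30)) (a (b (l 16598920) (l 30)) (b (l 16599248) (b (l 16599088) (b (l 16599264) (l 16601128)))))))), by decide +kernel⟩

def k17_pm_011 : ∃ t, chk3 f_pm_011 t 41 62 1 = true :=
  ⟨(b (c (a (b (c (l 16732040) (l 16668536)) (c (l 16737376) (l 16671936))) (b (c (l 16707336) (l 16642864)) (c (l 16711672) (l 30)))) (a (c (l 16612808) (l 16602648)) (c (l 16610272) (l 16605624)))) (c (b (a (c (a (l 16749592) (l 16736552)) (a (l 16682600) (l 30))) (c (a (l 16723208) (l 16709552)) (l 30))) (c (a (b (a (l 16754312) (l 16740936)) (b (a (l 16756752) (l 16743208)) (b (a (l 16737304) (c (l 16762024) (l 16726992))) (l 16711296)))) (b (a (l 16727232) (l 16713192)) (b (a (l 16729328) (l 16715096)) (a (b (l 16709472) (c (l 16749464) (l 16713968))) (b (l 16716080) (c (l 16714024) (l 30))))))) (c (a (b (l 16675160) (b (l 16677016) (a (b (l 16706328) (l 16708248)) (l 30)))) (l 30)) (l 30)))) (b (a (c (l 16608576) (l 16600640)) (c (l 16608752) (l 16602464)))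 (a (c (l 30) (b (l 16599856) (b (l 16599520) (l 16600376)))) (c (b (l 16608200) (a (l 30) (l 16613632))) (b (l 16601088) (l 16600656))))))), by decide +kernel⟩

def k18_pm_011 : ∃ t, chk3 f_pm_011 t 40 63 1 = true :=
  ⟨(c (b (a (c (b (l 16815728) (l 16832600)) (b (a (l 16756024) (l 16742640)) (a (l 16773128) (l 16759808)))) (c (b (a (l 16796472) (l 16783184)) (a (l 16813488) (l 16800272))) (a (b (l 16707912) (l 16725136)) (c (b (l 16731864) (l 16749080)) (l 30))))) (c (a (b (l 16850144) (l 16868312)) (b (l 16782792) (l 16801296))) (a (b (a (l 16791008) (l 16756832)) (a (l 16809640) (l 16775616))) (b (a (c (l 16780960) (l 16747440)) (c (l 16767168) (l 30))) (a (a (l 16786520) (l 16758712)) (c (l 16786088) (l 30))))))) (c (c (a (a (b (b (l 16706544) (l 16723864)) (b (l 16742064) (b (l 16756256) (l 16765992)))) (l 30)) (l 30)) (l 30)) (b (a (l 30) (b (c (l 30) (l 16607984)) (l 30))) (l 30)))), by decide +kernel⟩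

def k19_pm_011 : ∃ t, chk3 f_pm_011 t 41 63 1 = true :=
  ⟨(b (c (c (a (b (a (l 16748552) (c (l 16773016) (l 16737944))) (a (l 16786672) (l 16751696))) (b (a (c (l 16758800) (l 16702320)) (c (l 16744176) (l 30))) (a (c (l 16775992) (l 16740496)) (c (l 16761384) (l 30))))) (c (a (a (b (l 16717560) (l 16734800)) (l 30)) (l 30)) (l 30))) (a (c (l 30) (b (l 16608904) (a (l 16623704) (l 16622752)))) (c (b (c (l 30) (l 16614320)) (l 30)) (b (l 16607936) (a (l 16621904) (l 16621168)))))) (c (a (a (c (b (l 16804624) (l 16823336)) (c (b (l 16752960) (l 16761504)) (l 30))) (c (b (l 16769720) (l 16788560)) (l 30))) (c (b (a (c (l 16794032) (l 16758632)) (c (l 16779472) (l 30))) (a (c (l 16812888) (l 16756680)) (c (l 16798416) (l 30)))) (l 30))) (c (l 30) (c (b (a (l 30) (a (l 30) (l 16637848))) (l 30)) (b (a (a (l 30) (l 16634736)) (a (l 16633568) (l 16632512))) (a (l 30) (b (a (l 16644552) (l 16643208)) (a (l 30) (b (l 16648696) (c (l 30) (l 16650888))))))))))), by decide +kernel⟩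

def k20_pm_011 : ∃ t, chk3 f_pm_011 t 21 62 1 = true :=
  ⟨(a (c (c (b (a (b (l 16681640) (l 16684832)) (b (l 16654920) (l 30))) (c (c (a (a (a (b (l 16725192) (b (l 16729096) (l 16731976))) (l 30)) (l 30)) (l 30)) (l 30)) (l 30))) (b (a (b (l 16617872) (l 16617104)) (l 16620616)) (a (b (l 16621456) (l 30)) (b (l 16618400) (c (l 30) (l 16615592)))))) (b (a (c (l 16613328) (l 16608944)) (c (l 16616696) (l 16612568))) (a (b (l 16607672) (c (a (l 16609008) (l 16609536)) (l 16602312))) (c (b (l 16612888) (l 16610640)) (l 16605664))))) (b (c (a (c (b (l 16628080) (l 16627640)) (l 16624032)) (b (l 16630600) (l 16638568))) (a (l 16618432) (l 16622472))) (b (c (a (c (c (l 30) (l 16624520)) (l 16620696)) (c (l 16628120) (l 16623328))) (a (l 16612848) (l 16615912))) (c (a (c (l 30) (c (l 16620312) (l 16617208))) (c (c (l 30) (l 16625056)) (l 16620664))) (a (l 16614632) (l 16611792)))))), by decide +kernel⟩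

def k21_pm_011 : ∃ t, chk3 f_pm_011 t 42 63 1 = true :=
  ⟨(b (a (c (a (a (a (c (b (l 16695728) (l 16712912)) (l 30)) (l 30)) (l 30)) (l 30)) (c (b (a (l 16615696) (l 16615240)) (a (l 16640352) (l 16629128))) (b (l 16607312) (l 16620264)))) (c (b (c (l 30) (b (a (l 30) (c (l 30) (l 16617216))) (l 30))) (l 30)) (b (c (b (a (l 16611712) (l 16611744)) (l 16618200)) (b (l 16604336) (l 16610232))) (c (a (l 16628504) (l 16627976)) (l 16619416))))) (c (c (c (a (a (b (l 16764448) (l 16762496)) (l 30)) (l 30)) (l 30)) (l 30)) (b (a (c (a (l 30) (c (l 30) (l 16640968))) (a (l 16655152) (l 16633280))) (c (a (c (l 30) (l 16640016)) (c (l 16644088) (l 16639168))) (a (l 16632480) (l 16631784)))) (a (c (l 30) (a (b (c (l 16647624) (l 16641968)) (c (l 30) (a (l 16659968) (l 16648792)))) (b (l 16654096) (c (b (l 16651808) (c (l 30) (l 16654000))) (b (l 16646040) (l 16649560)))))) (c (c (l 30) (b (a (l 16650704) (l 16649568)) (a (l 30) (b (l 16654912) (c (l 30) (l 16657104)))))) (a (b (l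 16642528) (c (a (l 16657880) (l 16662488)) (l 16657064))) (b (l 16641544) (c (b (l 16649344) (l 16652824)) (l 16645448))))))))), by decide +kernel⟩

def k22_pm_011 : ∃ t, chk3 f_pm_011 t 43 63 1 = true :=
  ⟨(b (a (c (c (l 30) (b (b (b (a (l 16617816) (l 16618232)) (l 16620432)) (l 16625472)) (c (l 30) (l 16644176)))) (b (b (b (a (l 16607328) (l 16608024)) (l 16609688)) (l 16614096)) (c (l 16648344) (l 16618944)))) (c (b (b (c (b (c (l 30) (l 16624088)) (l 30)) (b (l 16619200) (l 16620360))) (c (l 30) (l 16625160))) (c (l 30) (a (l 16635112) (l 16634776)))) (b (b (c (l 16613240) (l 16606568)) (l 16614352)) (c (l 16626896) (l 16618848))))) (c (c (l 30) (c (b (a (l 30) (a (l 30) (l 16660816))) (l 30)) (b (a (a (l 30) (l 16647208)) (a (l 16646456) (l 16645800))) (a (l 30) (b (a (l 16656856) (l 16655912)) (a (l 30) (b (l 16661104) (c (l 30) (l 16668536))))))))) (b (a (c (a (c (l 16643240) (l 16638416)) (l 16661096)) (a (l 16631176) (l 16630664))) (c (a (l 16639512) (l 16638992))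 (l 16630080))) (a (a (c (b (c (l 16653784) (l 16648528)) (c (l 30) (b (l 16653728) (c (l 16658656) (l 16655848))))) (b (l 16640656) (c (l 16660440) (l 16644416)))) (c (b (l 16660648) (c (b (l 16658008) (c (l 30) (l 16660200))) (b (l 16652640) (l 16656064)))) (b (l 16639856) (c (l 16648920) (l 16643480))))) (a (c (b (l 16649272) (c (b (l 16656920) (c (l 16666992) (l 16659040))) (l 16661184))) (b (l 16639160) (l 16655792))) (c (b (l 16648472) (c (b (l 16655928) (l 16664544)) (l 16652376))) (b (l 16638552) (l 16644504)))))))), by decide +kernel⟩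

def k23_pm_011 : ∃ t, chk3 f_pm_011 t 11 14 1 = true :=
  ⟨(l 14), by decide +kernel⟩

def k24_pm_011 : ∃ t, chk3 f_pm_011 t 11 30 1 = true :=
  ⟨(a (b (l 14) (a (a (a (b (l 14) (c (l 16638608) (l 16635736))) (l 14)) (l 14)) (l 14))) (l 14)), by decide +kernel⟩

def k25_pm_011 : ∃ t, chk3 f_pm_011 t 11 62 1 = true :=
  ⟨(a (a (b (c (a (c (l 16645208) (l 16631712)) (a (l 16636240) (l 16638280))) (a (l 16626768) (l 16631176))) (c (a (c (b (l 16630792) (c (l 16629816) (l 16627072))) (b (l 16626288) (l 16622928))) (c (b (l 16633776) (a (l 16630128) (l 16631360))) (b (l 16629528) (l 16625528)))) (a (c (l 16619520) (l 16614304)) (c (l 16622728) (l 16617776))))) (b (b (l 14) (a (c (l 16639152) (l 16632632)) (c (l 16643000) (l 16636928)))) (c (a (c (b (l 16636928) (l 16633296)) (l 16630672)) (b (l 16638312) (l 16633720))) (a (l 16623768) (l 16627432))))) (a (b (l 14) (c (a (c (l 16641784) (l 16637816)) (l 16644072)) (a (l 16631632) (l 16636256)))) (l 14))), by decide +kernel⟩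

def k26_pm_011 : ∃ t, chk3 f_pm_011 t 22 126 1 = true :=
  ⟨(a (c (b (b (a (c (b (l 16627056) (c (l 30) (l 16625864))) (b (l 16620896) (l 16621048))) (c (a (c (l 16629920) (l 16626896)) (l 16629240)) (l 16622896))) (c (a (c (l 30) (l 16630352)) (l 16632136)) (a (l 16625232) (l 16625656)))) (a (c (c (l 30) (a (l 16640360) (l 16640072))) (a (l 16634536) (l 16634392))) (c (a (l 16652216) (l 16641584)) (l 16634336)))) (b (b (a (c (l 16614832) (l 16608488)) (l 16613888)) (a (l 16614960) (l 16615904))) (a (c (l 16626776) (l 16619096)) (l 16644320)))) (c (b (a (b (c (l 16630728) (l 16625080)) (c (l 16643000) (l 16626376))) (b (l 16630320) (c (b (a (l 16631864) (l 16632640)) (l 16634680)) (l 16638032)))) (a (c (a (l 16641528) (l 16641560)) (l 16634576)) (c (l 16652240) (l 16635120)))) (b (a (b (l 16616544) (l 16617144)) (b (l 16619560) (l 16618800))) (a (l 16624104) (l 16625136))))), by decide +kernel⟩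

def k27_pm_011 : ∃ t, chk3 f_pm_011 t 44 127 1 = true :=
  ⟨(c (b (a (c (a (l 30) (c (l 30) (l 16663944))) (a (c (l 16649672) (l 16645232)) (l 16657416))) (c (a (c (l 30) (l 16652888)) (c (l 16667064) (l 16652416))) (a (l 16667480) (l 16646160)))) (c (c (l 30) (a (l 30) (b (a (l 16662992) (l 16662232)) (a (l 30) (b (l 16667264) (a (l 30) (l 16675688))))))) (a (b (c (a (l 16659920) (l 16659072)) (a (l 16655056) (l 16654304))) (c (a (l 30) (b (l 16664184) (c (l 30) (l 16671616)))) (a (b (l 16660104) (c (l 16670072) (l 16662224))) (b (l 16659208) (l 16667768))))) (a (b (l 16666456) (b (a (l 16661048) (l 16660640)) (c (a (l 16666896) (l 16666416)) (l 16661616)))) (b (l 16655352) (c (a (l 16674800) (l 16663904)) (l 16659240))))))) (a (b (c (a (l 16638568) (l 16638232)) (l 16629600)) (a (c (b (l 16647760) (c (b (l 16655032) (l 16658304)) (l 16651520))) (b (l 16638032) (l 16643800))) (c (b (l 16647144) (c (l 16655816) (l 16650760))) (l 16650880)))) (b (c (l 16658864) (l 16629464))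 (a (c (b (l 16646616) (c (l 16655048) (l 16650088))) (l 16639960)) (c (b (l 16646176) (l 16662424)) (l 16639608)))))), by decide +kernel⟩

def k28_pm_011 : ∃ t, chk3 f_pm_011 t 45 127 1 = true :=
  ⟨(c (b (a (c (a (c (l 16656104) (l 16652024)) (c (l 16655712) (l 16651728))) (a (l 16645912) (l 16645744))) (c (a (l 16663960) (l 16653296)) (a (l 16645664) (l 16645648)))) (a (c (b (c (a (l 16666048) (l 16665376)) (a (l 16661560) (l 16660976))) (c (a (l 30) (c (l 30) (a (l 16676296) (l 16670648)))) (a (b (l 16666448) (a (l 16669984) (l 16669552))) (a (l 16672760) (l 16667152))))) (b (c (l 16667280) (l 16652344)) (c (a (b (l 16661744) (l 16664920)) (l 16673136)) (a (l 16658560) (l 16657960))))) (a (c (b (c (l 16664792) (l 16660472)) (b (a (l 16677992) (l 16667184)) (c (a (l 16673064) (l 16672672)) (l 16668200)))) (b (l 16654000) (c (l 16662048) (l 16657448)))) (c (b (l 16672680) (c (a (l 16675960) (l 16680880)) (l 16671296))) (b (l 16653728) (c (l 16661544) (l 16657032)))))))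 (a (b (c (l 16637736) (l 16629656)) (b (a (l 16662288) (l 16641136)) (c (a (l 16651392) (l 16650928)) (l 16641680)))) (a (b (l 16633928) (c (l 16658448) (l 16639040))) (b (l 16634176) (c (l 16668744) (l 16639024)))))), by decide +kernel⟩

def k29_pm_011 : ∃ t, chk3 f_pm_011 t 23 63 1 = true :=
  ⟨(b (a (b (c (b (a (l 16633600) (l 16637504)) (a (c (b (l 16635024) (l 16636224)) (l 16640464)) (c (l 16638600) (l 16633248)))) (b (l 16625400) (a (l 16621608) (l 16625168)))) (c (a (c (l 16642920) (l 16636552)) (l 16641728)) (a (l 16626984) (l 16629424)))) (b (c (a (c (l 16642968) (l 16638040)) (l 16643264)) (l 16632488)) (c (a (l 16643360) (l 16644704)) (l 16632520)))) (a (c (b (a (c (a (l 16653584) (l 16654280)) (l 16646464)) (c (l 16655144) (l 16647928))) (a (c (b (a (l 16662224) (l 16662672)) (a (c (b (l 16668840) (l 16671912)) (l 16665944)) (c (b (l 16669136) (l 16672112)) (l 16666240)))) (b (l 16654144) (a (l 16669768) (l 16659664)))) (c (b (l 16663160) (c (a (l 16676008)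 (l 16670824)) (b (l 16665160) (l 16667880)))) (b (l 16655128) (c (l 16662232) (l 16657944)))))) (a (b (l 16656248) (c (b (l 16645872) (l 16661120)) (l 16639720))) (b (l 16637088) (c (b (l 16647096) (l 16651520)) (l 16641024))))) (c (b (c (a (l 16655992) (l 16656544)) (a (l 16649048) (l 16649920))) (a (c (b (l 16663512) (b (l 16667376) (a (l 16680512) (l 16669920)))) (b (l 16655760) (c (l 16662472) (l 16658328)))) (b (a (l 16659824) (l 16659872)) (c (a (l 16678984) (l 16668304)) (l 16670944))))) (b (a (l 16638632) (l 16639968)) (c (b (l 16648424) (a (l 16652112) (l 16652504))) (a (l 16642064) (l 16642936))))))), by decide +kernel⟩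

def k30_pm_011 : ∃ t, chk3 f_pm_011 t 3 1 1 = true :=
  ⟨(b (l 4) (b (l 4) (a (b (l 14) (a (b (l 14) (b (l 14) (b (a (a (a (b (l 14) (c (l 16666440) (l 16635040))) (l 14)) (l 14)) (l 14)) (a (b (a (c (a (l 16653720) (l 16654016)) (l 16641712)) (c (a (l 16654168) (l 14)) (l 16643600))) (a (b (c (a (l 16670352) (l 16659688)) (l 16646064)) (a (c (c (c (l 16669816) (l 16666016)) (l 16660312)) (l 16659408)) (c (c (l 16667216) (l 16660008)) (l 16649200)))) (c (a (c (l 16674936) (l 16657920)) (c (l 16663616) (l 16657536))) (a (l 16658600) (l 16648392))))) (l 14))))) (l 14))) (l 14)))), by decide +kernel⟩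

theorem s31_pm_011 : ∃ t, chk3 f_pm_011 t 22 127 1 = true := ex3_a k27_pm_011 k28_pm_011

theorem s32_pm_011 : ∃ t, chk3 f_pm_011 t 22 63 1 = true := ex3_b k26_pm_011 s31_pm_011

theorem s33_pm_011 : ∃ t, chk3 f_pm_011 t 11 63 1 = true := ex3_a s32_pm_011 k29_pm_011

theorem s34_pm_011 : ∃ t, chk3 f_pm_011 t 11 31 1 = true := ex3_b k25_pm_011 s33_pm_011

theorem s35_pm_011 : ∃ t, chk3 f_pm_011 t 11 15 1 = true := ex3_b k24_pm_011 s34_pm_011

theorem s36_pm_011 : ∃ t, chk3 f_pm_011 t 11 7 1 = true := ex3_b k23_pm_011 s35_pm_011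

theorem s37_pm_011 : ∃ t, chk3 f_pm_011 t 21 63 1 = true := ex3_a k21_pm_011 k22_pm_011

theorem s38_pm_011 : ∃ t, chk3 f_pm_011 t 21 31 1 = true := ex3_b k20_pm_011 s37_pm_011

theorem s39_pm_011 : ∃ t, chk3 f_pm_011 t 20 63 1 = true := ex3_a k18_pm_011 k19_pm_011

theorem s40_pm_011 : ∃ t, chk3 f_pm_011 t 20 62 1 = true := ex3_a k16_pm_011 k17_pm_011

theorem s41_pm_011 : ∃ t, chk3 f_pm_011 t 20 31 1 = true := ex3_b s40_pm_011 s39_pm_011

theorem s42_pm_011 : ∃ t, chk3 f_pm_011 t 10 31 1 = true := ex3_a s41_pm_011 s38_pm_011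

theorem s43_pm_011 : ∃ t, chk3 f_pm_011 t 10 15 1 = true := ex3_b k15_pm_011 s42_pm_011

theorem s44_pm_011 : ∃ t, chk3 f_pm_011 t 10 7 1 = true := ex3_b k14_pm_011 s43_pm_011

theorem s45_pm_011 : ∃ t, chk3 f_pm_011 t 5 7 1 = true := ex3_a s44_pm_011 s36_pm_011

theorem s46_pm_011 : ∃ t, chk3 f_pm_011 t 19 31 1 = true := ex3_b k12_pm_011 k13_pm_011

theorem s47_pm_011 : ∃ t, chk3 f_pm_011 t 19 15 1 = true := ex3_b k11_pm_011 s46_pm_011

theorem s48_pm_011 : ∃ t, chk3 f_pm_011 t 18 15 1 = true := ex3_b k9_pm_011 k10_pm_011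

theorem s49_pm_011 : ∃ t, chk3 f_pm_011 t 9 15 1 = true := ex3_a s48_pm_011 s47_pm_011

theorem s50_pm_011 : ∃ t, chk3 f_pm_011 t 9 7 1 = true := ex3_b k8_pm_011 s49_pm_011

theorem s51_pm_011 : ∃ t, chk3 f_pm_011 t 8 15 1 = true := ex3_b k6_pm_011 k7_pm_011

theorem s52_pm_011 : ∃ t, chk3 f_pm_011 t 8 29 3 = true := ex3_a k4_pm_011 k5_pm_011

theorem s53_pm_011 : ∃ t, chk3 f_pm_011 t 8 29 1 = true := ex3_c k3_pm_011 s52_pm_011

theorem s54_pm_011 : ∃ t, chk3 f_pm_011 t 8 14 1 = true := ex3_b k2_pm_011 s53_pm_011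

theorem s55_pm_011 : ∃ t, chk3 f_pm_011 t 8 7 1 = true := ex3_b s54_pm_011 s51_pm_011

theorem s56_pm_011 : ∃ t, chk3 f_pm_011 t 4 7 1 = true := ex3_a s55_pm_011 s50_pm_011

theorem s57_pm_011 : ∃ t, chk3 f_pm_011 t 2 7 1 = true := ex3_a s56_pm_011 s45_pm_011

theorem s58_pm_011 : ∃ t, chk3 f_pm_011 t 2 3 1 = true := ex3_b k1_pm_011 s57_pm_011

theorem s59_pm_011 : ∃ t, chk3 f_pm_011 t 2 1 1 = true := ex3_b k0_pm_011 s58_pm_011

theorem s60_pm_011 : ∃ t, chk3 f_pm_011 t 1 1 1 = true := ex3_a s59_pm_011 k30_pm_011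

theorem c_pm_011 : CertF 0 536870912 536870912 536870912 335544320 67108864 false true false .pnn 0 1 1
    ndF0q0 ndF0q1 pcF1 cut_pm_011 Ext.none :=
  certF2 (fam := false) (s1 := true) (s2 := false) (a := 0) (b := 1) (c := 1) (cn := .pnn) (n1 := ndF0q0) (n2 := ndF0q1) (pc := pcF1) (cut := cut_pm_011) (xt := Ext.none) (P1 := 0) (W1 := 536870912) (P2 := 536870912) (W2 := 536870912) (P3 := 335544320) (W3 := 67108864)
    rfl (fun _ => rfl) s60_pm_011

noncomputable def cut_pm_012 : Cut := Cut.of [[⟨3, 0, 0, 1449551462⟩], [⟨4, 0, 0, 2845415833⟩], [⟨0, 0, 0, 67108864⟩, ⟨1, 1, 0, 67108864⟩, ⟨2, 1, 0, 67108864⟩], [⟨0, 0, 1, 33554432⟩, ⟨1, 1, 2, 33554432⟩, ⟨2, 1, 0, 33554432⟩]]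

noncomputable def f_pm_012 : ℕ → ℕ → ℕ → ℕ → Bool := onCell 536870912 536870912 0 536870912 335544320 67108864
    (rowF 2 false true false .pnp 0 1 2 (qsf 0 536870912 0 536870912 1) ndF0q0 ndF0q2 pcF1 cut_pm_012 Ext.none)

def k0_pm_012 : ∃ t, chk3 f_pm_012 t 2 2 1 = true :=
  ⟨(a (b (l 2) (a (l 2) (b (l 2) (l 119286528247)))) (b (a (b (l 6) (a (l 16918400) (l 16973024))) (b (a (l 16907328) (l 16909536)) (a (l 16977416) (l 16973016)))) (a (b (a (l 17001984) (l 17058336)) (l 17045472)) (a (l 17027056) (a (a (l 17101288) (l 17095952)) (l 17042552)))))), by decide +kernel⟩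

def k1_pm_012 : ∃ t, chk3 f_pm_012 t 4 3 1 = true :=
  ⟨(b (a (l 2) (a (b (l 2) (b (l 17135120) (l 17161024))) (b (b (l 17075256) (c (l 17124336) (l 40366976199))) (b (l 17207448) (l 17150744))))) (a (b (a (l 2) (b (l 17144328) (l 17134296))) (a (b (l 17155840) (a (l 17172856) (l 17155200))) (b (a (l 17135296) (l 17111064)) (a (b (l 17130288) (l 17125592)) (b (l 17095728) (a (l 17095040) (l 17028512))))))) (b (a (b (l 17124192) (a (l 17105904) (l 17074552))) (b (l 17094240) (a (l 17046928) (l 17027048)))) (b (a (a (l 17076176) (b (l 17040816) (l 17015160))) (a (b (l 17003152) (l 16969856)) (b (l 16976192) (l 16895912)))) (a (b (a (l 17006488) (a (l 17003192) (l 16862888))) (a (c (l 17067896) (b (l 16991816) (a (l 16996256) (l 16958392)))) (c (a (l 17020248) (l 16940968)) (b (a (l 16934264) (l 16889624)) (a (c (l 16939896) (l 16870256)) (a (l 16816976) (b (l 16860296) (l 16806296)))))))) (b (a (c (l 16982928) (b (l 16892496) (l 16869696))) (c (l 16948864) (l 16735808)))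 (a (c (b (l 16954984) (a (l 16943688) (l 16924520))) (b (a (l 16855520) (l 16834584)) (b (a (l 16815880) (c (l 16843600) (l 16786040))) (c (a (l 16852544) (l 16830576)) (a (a (l 16800872) (l 16789456)) (a (c (l 16792320) (l 16763072)) (c (l 16780392) (l 30)))))))) (c (b (l 16874792) (a (c (l 16934016) (l 16874088)) (c (l 16912984) (b (l 16857840) (l 16844648))))) (b (a (l 16770288) (l 16704432)) (b (a (c (l 16820992) (l 16740776)) (c (l 16796840) (l 30))) (c (a (a (l 16813192) (l 16801136)) (a (c (l 16804160) (l 16773216)) (c (l 16791528) (l 30)))) (a (c (a (l 16768080) (l 30)) (l 30)) (l 30))))))))))))), by decide +kernel⟩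

def k2_pm_012 : ∃ t, chk3 f_pm_012 t 5 6 1 = true :=
  ⟨(a (a (b (b (l 17111896) (l 17166008)) (l 17086184)) (b (b (l 17139824) (l 17252112)) (l 17047888))) (b (b (a (l 17221064) (l 17158840)) (l 17052960)) (a (b (l 17101048) (l 17016784)) (b (l 17025688) (l 16949288))))), by decide +kernel⟩

def k3_pm_012 : ∃ t, chk3 f_pm_012 t 10 14 1 = true :=
  ⟨(a (b (l 17059976) (l 16923952)) (b (l 16999944) (b (l 16932024) (l 16883520)))), by decide +kernel⟩

def k4_pm_012 : ∃ t, chk3 f_pm_012 t 10 30 1 = true :=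
  ⟨(a (b (l 16841112) (a (l 16795264) (l 16792712))) (b (c (l 16846760) (l 16799104)) (a (l 16761408) (l 16721888)))), by decide +kernel⟩

def k5_pm_012 : ∃ t, chk3 f_pm_012 t 20 31 1 = true :=
  ⟨(b (b (a (l 16738312) (l 16752520)) (a (c (l 16897480) (l 16716416)) (c (l 16849856) (l 16723768)))) (c (a (b (a (l 16884376) (l 16860816)) (b (a (l 16865288) (l 16777688)) (c (a (l 16884080) (l 16859592)) (a (a (l 16826256) (l 16813480)) (a (l 16758344) (c (l 16803288) (l 30))))))) (b (a (l 16814568) (l 16724536)) (b (a (c (l 16847552) (l 16780832)) (c (l 16820320) (l 30))) (c (a (c (l 16850408) (l 16795416)) (a (l 16770624) (c (l 16815752) (l 30)))) (a (a (c (l 16789456) (l 30)) (l 30)) (l 30)))))) (c (a (b (l 16696288) (a (b (l 16771048) (c (a (l 16778480) (l 30)) (l 30))) (l 30))) (l 30)) (a (l 30) (a (l 30) (a (l 30) (a (l 30) (b (l 16686768) (b (l 16671616) (b (l 16664232) (c (l 30) (l 16656272)))))))))))), by decide +kernel⟩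

def k6_pm_012 : ∃ t, chk3 f_pm_012 t 21 31 1 = true :=
  ⟨(b (b (a (l 16716888) (l 16690240)) (a (c (l 16731760) (l 16708712)) (c (l 16730800) (l 16698296)))) (b (a (c (a (l 16695448) (l 16706200)) (a (l 16690736) (l 16686176))) (c (a (l 30) (l 16703280)) (a (l 16682016) (l 16678256)))) (a (b (c (a (c (l 16791168) (l 30)) (l 30)) (a (c (l 30) (l 16669184)) (c (l 16678136) (l 16665632)))) (c (c (a (a (c (l 16801056) (l 30)) (l 30)) (l 30)) (l 30)) (b (a (c (l 30) (l 16667296)) (c (l 16670984) (l 16658896))) (a (c (l 30) (c (a (l 30) (a (l 30) (l 16659264))) (a (c (l 16656624) (l 16653544)) (l 16653592)))) (c (a (l 30) (a (l 30) (c (l 30) (l 16662256)))) (a (c (a (l 16658520) (l 16657792)) (l 16652200)) (c (l 16656760) (l 16650904)))))))) (b (c (a (l 30) (c (l 30) (l 16683088))) (a (c (l 16674568) (l 16662472)) (c (l 16671400) (l 16659704)))) (c (a (l 30) (c (l 30) (a (l 30) (a (l 30) (b (l 16675248) (c (l 30) (l 16668208))))))) (a (c (b (l 16667816) (c (a (l 30) (a (l 30)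 (l 16665232))) (a (a (l 16661552) (l 16660880)) (l 16659912)))) (c (a (b (l 16659736) (l 16655464)) (l 16656336)) (a (l 16651776) (l 16650608)))) (c (b (l 16665048) (c (a (a (l 16664584) (l 16663952)) (c (l 16664424) (l 16661696))) (a (l 16658712) (l 16657600)))) (a (b (l 16654320) (l 16650376)) (l 16651320))))))))), by decide +kernel⟩

def k7_pm_012 : ∃ t, chk3 f_pm_012 t 11 14 1 = true :=
  ⟨(b (a (l 16928960) (l 16872872)) (a (b (l 16863336) (l 16821184)) (a (l 16810024) (l 16791136)))), by decide +kernel⟩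

def k8_pm_012 : ∃ t, chk3 f_pm_012 t 11 30 1 = true :=
  ⟨(a (b (a (l 16789216) (l 16771968)) (a (c (l 16764592) (l 16733384)) (c (l 16750528) (l 16720984)))) (a (b (l 16757024) (c (l 16738888) (l 16710856))) (b (l 16744008) (c (l 16729256) (l 16702640))))), by decide +kernel⟩

def k9_pm_012 : ∃ t, chk3 f_pm_012 t 22 31 1 = true :=
  ⟨(b (a (c (b (l 16734456) (l 16715384)) (b (l 16706384) (l 16689416))) (c (b (l 16723512) (l 16706536)) (b (l 16697040) (l 16682136)))) (b (a (c (a (l 16699096) (l 16695296)) (a (l 16674864) (l 16671848))) (c (a (l 16691864) (l 16688832)) (a (l 16669192) (l 16666904)))) (a (b (c (a (c (l 30) (l 16679912)) (c (l 16688024) (l 16677096))) (a (c (l 16668600) (l 16657304)) (l 16671208))) (c (b (c (a (l 30) (l 16681656)) (a (l 16673544) (l 16671136))) (a (c (l 30) (c (a (l 30) (b (l 16672488) (c (l 30) (l 16669112)))) (a (a (l 16667600) (l 16667016)) (b (l 16667192) (l 16665192))))) (c (c (l 30) (a (l 30) (b (l 16675384) (c (l 30) (l 16672128)))))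 (c (a (a (l 16670608) (l 16670072)) (b (l 16670272) (l 16668344))) (a (l 16665168) (l 16664232)))))) (a (c (c (b (l 16665376) (a (l 16661944) (l 16660928))) (a (l 16658528) (l 16657536))) (a (l 16650384) (l 16649536))) (b (c (l 16660624) (l 16650104)) (c (a (l 16657416) (l 16656616)) (l 16646752)))))) (c (b (a (c (l 16685200) (l 16674656)) (c (l 16682776) (l 16672592))) (b (a (c (l 16679232) (l 16669088)) (c (l 16677208) (l 16667424))) (a (c (c (a (l 30) (b (l 16678280) (c (l 30) (l 16675128)))) (a (a (l 16673608) (l 16673120)) (b (l 16673352) (l 16671488)))) (c (a (l 16668376) (l 16667528)) (a (l 16663392) (l 16662632)))) (c (c (a (a (l 16676600) (l 16676152)) (a (l 16675720) (l 16675320))) (a (l 16671568) (l 16670808))) (c (a (l 16666760) (l 16666096)) (l 16661680)))))) (b (a (l 16658840) (l 16657336)) (a (c (a (l 16657624) (l 16656936)) (l 16647256)) (c (a (l 16656336) (l 16655824)) (l 16646448)))))))), by decide +kernel⟩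

def k10_pm_012 : ∃ t, chk3 f_pm_012 t 23 31 1 = true :=
  ⟨(b (b (a (c (l 16715016) (l 16689976)) (l 16696568)) (a (c (l 16700224) (l 16677176)) (c (l 16695560) (l 16673792)))) (a (b (c (a (l 16686864) (l 16685688)) (a (l 16665568) (l 16664936))) (b (c (a (c (l 16681432) (l 16671552)) (l 16676112)) (a (l 16656744) (l 16656888))) (c (a (c (b (l 16676264) (c (a (b (l 16676048) (l 16674312)) (l 16675280)) (a (l 16670536) (l 16670688)))) (a (b (l 16666744) (l 16663576)) (l 16665328))) (c (b (l 16676128) (c (a (l 16675280) (l 16675184)) (l 16670760))) (a (l 16665424) (l 16665448)))) (a (c (b (l 16657288) (l 16654448)) (l 16646520)) (c (l 16656352) (l 16647264)))))) (b (c (c (l 16688512) (l 16678592)) (l 16674232)) (c (a (b (l 16675416) (c (b (l 16675624) (c (a (l 16675016) (l 16674768)) (l 16670560))) (b (l 16666680) (l 16664048)))) (b (l 16674448) (c (b (l 16674848) (c (l 16674280) (l 16670096))) (b (l 16666232) (l 16663824))))) (b (l 16667176) (c (a (l 16656560) (l 16656560))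 (a (l 16647760) (l 16648096)))))))), by decide +kernel⟩

def k11_pm_012 : ∃ t, chk3 f_pm_012 t 3 2 1 = true :=
  ⟨(a (b (a (b (a (l 16902608) (l 16886416)) (l 16949528)) (b (a (l 16860920) (l 16826912)) (a (l 16905656) (l 16865712)))) (a (b (l 17014744) (b (l 17066840) (a (l 17113248) (l 17051000)))) (b (a (l 16960968) (l 16913168)) (a (b (l 16995952) (l 16968760)) (b (l 16926376) (l 16883200)))))) (b (a (b (a (l 16783760) (l 16730704)) (a (l 16816920) (l 16758568))) (b (a (l 16669376) (l 16602880)) (a (l 16693112) (b (l 16616264) (l 16626488))))) (a (b (a (b (l 16848408) (l 16861792)) (b (l 16784120) (l 16781240))) (a (l 16818752) (b (l 16749712) (l 16720304)))) (a (b (b (l 16707664) (l 16689944)) (a (l 16676448) (l 16640072))) (b (a (l 16635752) (l 16593408)) (a (l 16606040) (l 16574528))))))), by decide +kernel⟩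

def k12_pm_012 : ∃ t, chk3 f_pm_012 t 6 3 1 = true :=
  ⟨(b (a (b (a (l 17051112) (l 16950256)) (a (b (l 16953224) (l 16886344)) (b (l 16883296) (l 16826344)))) (b (a (b (l 16918272) (l 16867456)) (b (l 16838632) (l 16795648))) (a (b (l 16817648) (l 16771456)) (b (l 16755208) (l 16719728))))) (a (b (b (a (l 16780520) (a (l 16785448) (l 16762344))) (a (b (l 16777360) (l 16749928)) (b (l 16738600) (l 16717688)))) (b (a (b (a (l 16731112) (l 16718152)) (a (c (l 16719088) (l 16694176)) (l 16697128))) (b (a (l 16705048) (l 16692976)) (a (l 16687392) (l 16699656)))) (a (b (b (a (l 16690064) (l 16683088)) (a (c (l 16690088) (l 16669888)) (c (l 16683960) (l 16665584)))) (b (a (c (c (l 16684416) (l 16675256)) (l 16661560)) (c (c (l 16679640) (l 16671368)) (l 16659000))) (a (c (b (c (l 16676856) (l 16668440)) (c (a (b (l 16673824) (l 16671400)) (l 16671520)) (a (l 16664496) (l 16663800)))) (b (l 16655840) (a (c (l 16656392) (l 16648296)) (l 16652240)))) (a (c (b (l 16670432) (c (l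 16670280) (l 16662984))) (c (l 16657240) (l 16649728))) (c (b (l 16668848) (l 16665496)) (l 16653032)))))) (b (a (c (b (l 16685024) (l 16677480)) (l 16663976)) (c (b (l 16677872) (l 16672240)) (l 16659920))) (b (a (c (l 16681328) (l 16656320)) (c (l 16667440) (l 16654872))) (a (c (a (b (l 16667192) (l 16664304)) (l 16664360)) (a (l 16652552) (l 16652144))) (l 14))))))) (b (b (a (a (l 16741024) (l 16720240)) (a (l 16700424) (l 16681712))) (a (b (l 16704648) (l 16690336)) (b (l 16674792) (l 16667264)))) (a (b (b (a (l 16683104) (l 16674032)) (a (l 16672456) (l 16666968))) (b (a (c (l 16671512) (l 16658264)) (c (l 16668760) (l 16657376))) (l 14))) (b (b (a (l 16665992) (l 16658976)) (a (l 16662408) (l 16658760))) (l 14)))))), by decide +kernel⟩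

def k13_pm_012 : ∃ t, chk3 f_pm_012 t 7 3 1 = true :=
  ⟨(b (a (b (a (b (l 16762816) (l 16729768)) (b (l 16694592) (l 16673296))) (a (b (l 16700752) (l 16677408)) (b (l 16656680) (a (l 16653368) (l 16639480))))) (a (b (b (l 16634312) (l 16624792)) (b (a (l 16628512) (l 16612144)) (a (l 16627256) (l 16616688)))) (b (a (l 16594400) (b (l 16571432) (l 16575856))) (a (b (l 16597680) (l 16607768)) (b (l 16585104) (a (l 16602120) (l 16598872))))))) (a (b (a (b (a (l 16667144) (l 16656688)) (a (l 16657184) (l 16653480))) (b (a (l 16647648) (l 16640016)) (a (l 16671856) (b (l 16645880) (l 16652936))))) (b (a (b (a (l 16656184) (l 16657456)) (l 14)) (l 14)) (l 14))) (b (b (a (a (l 16633760) (l 16628896)) (a (b (l 16619992) (l 16630800)) (a (l 16623592) (l 16643800)))) (a (b (a (l 16644016) (l 16643312)) (l 14)) (l 14))) (l 14)))), by decide +kernel⟩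

theorem s14_pm_012 : ∃ t, chk3 f_pm_012 t 3 3 1 = true := ex3_a k12_pm_012 k13_pm_012

theorem s15_pm_012 : ∃ t, chk3 f_pm_012 t 3 1 1 = true := ex3_b k11_pm_012 s14_pm_012

theorem s16_pm_012 : ∃ t, chk3 f_pm_012 t 11 31 1 = true := ex3_a k9_pm_012 k10_pm_012

theorem s17_pm_012 : ∃ t, chk3 f_pm_012 t 11 15 1 = true := ex3_b k8_pm_012 s16_pm_012

theorem s18_pm_012 : ∃ t, chk3 f_pm_012 t 11 7 1 = true := ex3_b k7_pm_012 s17_pm_012

theorem s19_pm_012 : ∃ t, chk3 f_pm_012 t 10 31 1 = true := ex3_a k5_pm_012 k6_pm_012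

theorem s20_pm_012 : ∃ t, chk3 f_pm_012 t 10 15 1 = true := ex3_b k4_pm_012 s19_pm_012

theorem s21_pm_012 : ∃ t, chk3 f_pm_012 t 10 7 1 = true := ex3_b k3_pm_012 s20_pm_012

theorem s22_pm_012 : ∃ t, chk3 f_pm_012 t 5 7 1 = true := ex3_a s21_pm_012 s18_pm_012

theorem s23_pm_012 : ∃ t, chk3 f_pm_012 t 5 3 1 = true := ex3_b k2_pm_012 s22_pm_012

theorem s24_pm_012 : ∃ t, chk3 f_pm_012 t 2 3 1 = true := ex3_a k1_pm_012 s23_pm_012

theorem s25_pm_012 : ∃ t, chk3 f_pm_012 t 2 1 1 = true := ex3_b k0_pm_012 s24_pm_012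

theorem s26_pm_012 : ∃ t, chk3 f_pm_012 t 1 1 1 = true := ex3_a s25_pm_012 s15_pm_012

theorem c_pm_012 : CertF 0 536870912 0 536870912 335544320 67108864 false true false .pnp 0 1 2
    ndF0q0 ndF0q2 pcF1 cut_pm_012 Ext.none :=
  certF2 (fam := false) (s1 := true) (s2 := false) (a := 0) (b := 1) (c := 2) (cn := .pnp) (n1 := ndF0q0) (n2 := ndF0q2) (pc := pcF1) (cut := cut_pm_012) (xt := Ext.none) (P1 := 0) (W1 := 536870912) (P2 := 0) (W2 := 536870912) (P3 := 335544320) (W3 := 67108864)
    rfl (fun _ => rfl) s26_pm_012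

noncomputable def cut_pm_022 : Cut := Cut.of [[⟨3, 0, 0, 1449551462⟩], [⟨4, 0, 0, 2845415833⟩], [⟨0, 0, 0, 67108864⟩, ⟨1, 1, 0, 67108864⟩, ⟨2, 1, 0, 67108864⟩]]

noncomputable def f_pm_022 : ℕ → ℕ → ℕ → ℕ → Bool := onCell 1073741824 536870912 0 536870912 335544320 67108864
    (rowF 2 false true false .pp 0 2 2 (qsf 0 536870912 0 536870912 2) ndF0q0 ndF0q2 pcF2 cut_pm_022 Ext.none)

def k0_pm_022 : ∃ t, chk3 f_pm_022 t 1 1 1 = true :=
  ⟨(a (b (a (b (a (b (a (l 16625440) (l 16546792)) (a (l 16549848) (l 16527800))) (b (a (l 16516288) (l 16490728)) (a (l 16510144) (l 16496960)))) (a (b (a (l 16534224) (l 16525472)) (a (l 16555200) (l 16538416))) (b (a (l 16520608) (l 16519592)) (a (l 16566800) (b (l 16545120) (l 16588144)))))) (a (b (b (l 53183287255) (a (l 16488232) (l 1))) (a (b (l 80563787527) (b (l 111702332375) (l 294238426039))) (l 1))) (l 1))) (a (b (a (a (b (b (l 16545168) (l 16558752)) (b (a (l 16570952) (l 16582848)) (a (l 16593432) (l 16607992)))) (b (b (l 16558592)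 (l 16577984)) (b (a (l 16595208) (l 16608008)) (a (l 16622896) (b (l 16629800) (l 14)))))) (b (a (b (l 16574640) (a (l 16593848) (l 16605088))) (b (a (l 16588312) (l 201359838455)) (a (l 117071153415) (l 1)))) (b (a (a (l 16642200) (b (l 16626840) (a (l 16639216) (l 195991223207)))) (a (b (l 262026285687) (l 1)) (l 1))) (l 14)))) (a (b (a (b (a (b (l 16614584) (l 14)) (l 14)) (l 14)) (l 14)) (l 14)) (l 14))) (b (l 1) (l 1)))) (l 1)), by decide +kernel⟩

theorem c_pm_022 : CertF 0 536870912 0 536870912 335544320 67108864 false true false .pp 0 2 2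
    ndF0q0 ndF0q2 pcF2 cut_pm_022 Ext.none :=
  certF2 (fam := false) (s1 := true) (s2 := false) (a := 0) (b := 2) (c := 2) (cn := .pp) (n1 := ndF0q0) (n2 := ndF0q2) (pc := pcF2) (cut := cut_pm_022) (xt := Ext.none) (P1 := 0) (W1 := 536870912) (P2 := 0) (W2 := 536870912) (P3 := 335544320) (W3 := 67108864)
    rfl (fun _ => rfl) k0_pm_022

noncomputable def cut_pm_101 : Cut := Cut.of [[⟨3, 0, 0, 1449551462⟩], [⟨4, 0, 0, 2845415833⟩], [⟨0, 1, 0, 33554432⟩, ⟨1, 0, 0, 33554432⟩, ⟨2, 1, 0, 33554432⟩]]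

noncomputable def f_pm_101 : ℕ → ℕ → ℕ → ℕ → Bool := onCell 536870912 536870912 536870912 536870912 335544320 67108864
    (rowF 0 false true false .npn 1 0 1 (qsf 536870912 536870912 536870912 536870912 0) ndF0q1 ndF0q1 pcF0 cut_pm_101 Ext.none)

def k0_pm_101 : ∃ t, chk3 f_pm_101 t 2 2 1 = true :=
  ⟨(a (b (l 14) (b (l 14) (a (l 14) (a (b (l 14) (a (l 14) (l 16950328))) (b (l 16941120) (l 16969752)))))) (b (a (l 14) (l 1)) (a (b (a (b (l 14) (l 16940168)) (b (l 16944080) (l 16970088))) (a (b (l 16968536) (l 16994952)) (b (l 16995552) (l 17019424)))) (b (a (b (l 1) (l 17000080)) (l 1)) (a (b (l 17021712) (l 17042184)) (b (l 17067736) (l 17062928))))))), by decide +kernel⟩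

def k1_pm_101 : ∃ t, chk3 f_pm_101 t 2 6 1 = true :=
  ⟨(a (b (a (a (b (l 14) (a (b (l 14) (l 16946536)) (b (l 16946760) (l 16960200)))) (b (a (l 14) (l 16952576)) (a (c (l 16987248) (l 16946664)) (l 16979656)))) (a (b (l 16971912) (l 16997928)) (b (l 16996248) (l 17020528)))) (a (a (b (a (b (l 16959552) (c (l 16996160) (l 16947712))) (b (l 16972912) (l 16984848))) (a (c (l 17015856) (b (l 16957184) (l 16966056))) (c (l 17028608) (b (l 16969216) (l 16977504))))) (b (a (b (l 16985776) (l 16997408)) (l 17003960)) (a (b (l 17007992) (l 17017528)) (c (l 17052520) (l 16996528))))) (a (b (a (l 17015648) (l 17026784)) (a (l 17035496) (l 17045960))) (b (l 17042296) (l 17060392))))) (b (a (b (a (l 17019232) (l 17041064)) (a (l 17041336) (l 17060512))) (a (b (l 17060816) (l 17077152)) (b (l 17077624) (l 17090400)))) (a (b (a (l 17061080) (l 17077680)) (a (a (l 17073304) (l 17081312)) (b (l 17088448) (l 17094408)))) (b (a (l 17091208) (l 17100792)) (a (b (l 17099744) (b (l 17103160)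 (l 17105008))) (b (a (l 17105288) (l 17107408)) (l 17109152))))))), by decide +kernel⟩

def k2_pm_101 : ∃ t, chk3 f_pm_101 t 2 7 1 = true :=
  ⟨(a (b (b (a (a (a (b (c (l 17033808) (l 16974880)) (b (l 17012320) (b (c (l 17048408) (a (l 16984528) (l 16989392))) (l 17024696)))) (b (c (l 17045320) (l 16985432)) (b (c (l 17054096) (b (l 16990488) (a (l 16990712) (l 16995832)))) (a (l 17029664) (l 17035784))))) (a (b (l 17026312) (b (c (l 17064864) (b (l 16990728) (a (l 17001480) (l 17008008)))) (l 17044448))) (b (a (l 17034424) (l 17039992)) (b (c (l 17075656) (b (l 17012032) (l 17017232))) (l 17055344))))) (b (a (b (l 17050624) (a (c (l 17080224) (l 17019448)) (l 17059712))) (b (a (l 17065096) (l 17073752)) (l 17073848))) (a (a (l 17060696) (l 17070336)) (l 17082776)))) (a (b (a (a (b (l 17037872) (l 17058000)) (l 17056632)) (a (l 17065480) (l 17073848))) (a (b (l 17083560) (l 17108088)) (l 17102976))) (a (b (l 17085016) (l 17109792)) (b (l 17096928) (l 17114400))))) (b (a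 (b (a (l 17150160) (l 17144504)) (a (l 17215232) (l 17193640))) (a (a (l 17181376) (l 17155184)) (l 17210136))) (b (a (a (l 17335552) (l 17232312)) (l 17184704)) (a (l 17245680) (l 17198608))))) (b (a (b (a (b (a (l 17083712) (l 17090880)) (l 17095680)) (l 17102208)) (a (l 17110440) (l 17112256))) (b (a (l 17108392) (l 17109760)) (a (l 17110624) (l 17105152)))) (b (a (a (l 17135864) (l 17123232)) (b (l 17103896) (l 17308160))) (a (b (l 17135288) (l 17128704)) (a (l 17100048) (l 17079192)))))), by decide +kernel⟩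

def k3_pm_101 : ∃ t, chk3 f_pm_101 t 3 1 1 = true :=
  ⟨(b (a (b (l 1) (a (a (b (l 1) (b (l 1) (l 62311296535))) (l 1)) (l 1))) (l 1)) (a (b (b (b (a (a (b (l 17089040) (l 17093544)) (a (l 17099880) (l 1))) (l 1)) (a (a (b (l 17097720) (l 17101400)) (b (l 17104424) (l 17105264))) (a (b (l 1) (l 17105016)) (l 1)))) (a (b (a (b (l 17104440) (l 17106824)) (b (l 17105680) (l 17105536))) (a (b (b (l 17108000) (l 17108616)) (l 17108664)) (b (b (a (l 17106024) (l 17103056)) (l 17104320)) (l 17102904)))) (b (a (b (l 17102144) (a (l 17100792) (l 17095856))) (a (b (l 1) (l 17089304)) (l 1))) (a (b (a (l 17098280) (l 17092088)) (l 17091672)) (b (a (l 17084184) (l 17074968)) (l 17074520)))))) (b (a (b (a (l 17106072) (b (l 17099528) (l 17094152))) (a (l 17095536) (l 17081624))) (b (a (b (l 17086472) (l 17079176)) (b (l 17067624) (l 17058696))) (a (l 17063328) (b (l 17047048) (l 17031984))))) (b (b (a (l 17072184) (a (l 17039376) (l 17012776))) (a (a (l 17067440) (l 17044256)) (a (l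 17039648) (l 17094856)))) (a (a (l 17057768) (l 17034728)) (a (l 17009248) (l 16980120)))))) (b (a (b (l 1) (b (l 1) (a (a (l 24730237399) (l 1)) (l 1)))) (l 1)) (b (a (a (b (b (l 17053656) (l 17032728)) (b (l 17019616) (l 17002992))) (b (a (l 56942416711) (l 1)) (b (l 65532244263) (l 73048398919)))) (b (l 1) (a (a (b (l 1) (l 16944456)) (l 1)) (l 1)))) (a (b (a (b (l 16981984) (a (l 16986768) (l 17011824))) (b (l 16948192) (b (l 16927376) (l 16918120)))) (a (b (l 16948296) (l 16944896)) (b (l 16911368) (l 6)))) (b (b (a (a (l 16921296) (l 6)) (l 1)) (l 6)) (l 6))))))), by decide +kernel⟩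

theorem s4_pm_101 : ∃ t, chk3 f_pm_101 t 2 3 1 = true := ex3_b k1_pm_101 k2_pm_101

theorem s5_pm_101 : ∃ t, chk3 f_pm_101 t 2 1 1 = true := ex3_b k0_pm_101 s4_pm_101

theorem s6_pm_101 : ∃ t, chk3 f_pm_101 t 1 1 1 = true := ex3_a s5_pm_101 k3_pm_101

theorem c_pm_101 : CertF 536870912 536870912 536870912 536870912 335544320 67108864 false true false .npn 1 0 1
    ndF0q1 ndF0q1 pcF0 cut_pm_101 Ext.none :=
  certF0 (fam := false) (s1 := true) (s2 := false) (a := 1) (b := 0) (c := 1) (cn := .npn) (n1 := ndF0q1) (n2 := ndF0q1) (pc := pcF0) (cut := cut_pm_101) (xt := Ext.none) (P1 := 536870912) (W1 := 536870912) (P2 := 536870912) (W2 := 536870912) (P3 := 335544320) (W3 := 67108864)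
    rfl s6_pm_101

noncomputable def cut_pm_102 : Cut := Cut.of [[⟨3, 0, 0, 1449551462⟩], [⟨4, 0, 0, 2845415833⟩], [⟨0, 1, 0, 67108864⟩, ⟨1, 0, 0, 67108864⟩, ⟨2, 1, 0, 67108864⟩]]

noncomputable def f_pm_102 : ℕ → ℕ → ℕ → ℕ → Bool := onCell 536870912 536870912 0 536870912 335544320 67108864
    (rowF 0 false true false .npp 1 0 2 (qsf 536870912 536870912 0 536870912 0) ndF0q1 ndF0q2 pcF0 cut_pm_102 Ext.none)

def k0_pm_102 : ∃ t, chk3 f_pm_102 t 2 1 1 = true :=
  ⟨(b (a (b (l 2) (a (l 2) (b (l 2) (a (l 2) (l 52714261671))))) (b (l 6) (a (b (l 6) (a (a (l 16882280) (l 6)) (l 6))) (l 6)))) (a (b (a (l 2) (b (a (l 2) (b (l 16925208) (l 16947480))) (a (b (l 16983136) (l 17012224)) (b (l 16969688) (a (l 16998760) (l 16991736)))))) (a (b (a (l 2) (l 17095568)) (a (l 17220856) (l 17178416))) (b (a (l 17066624) (l 17045024)) (a (l 17146352) (l 17120704))))) (b (a (b (a (b (l 16912032) (l 16935072)) (b (l 16897288) (l 16921424))) (a (b (l 16958240) (b (l 16975992) (l 16989008)))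 (b (l 16945792) (a (l 16973920) (l 16968056))))) (b (a (b (l 6) (l 16905696)) (l 6)) (a (b (l 16931496) (l 16958248)) (b (l 16914160) (l 16942552))))) (b (a (a (a (l 17031768) (l 17023720)) (b (a (l 17001024) (l 16994784)) (l 17028064))) (b (a (b (a (l 16982184) (l 16976032)) (a (l 16995568) (l 16989504))) (b (l 16964920) (c (l 17019568) (a (l 16963832) (l 16957456))))) (a (l 17013536) (l 16999480)))) (a (a (l 17098808) (l 17079224)) (a (l 17061216) (l 17043616))))))), by decide +kernel⟩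

def k1_pm_102 : ∃ t, chk3 f_pm_102 t 3 1 1 = true :=
  ⟨(b (l 6) (a (b (a (b (l 6) (a (b (l 6) (a (l 16928104) (l 6))) (l 6))) (l 6)) (a (b (b (a (a (l 16959656) (l 16949232)) (a (l 16937608) (l 6))) (a (b (a (l 16982000) (b (l 16970376) (l 16977312))) (l 16990680)) (b (a (b (l 16959336) (l 16967960)) (l 16951400)) (a (l 16977544) (b (l 16964424) (l 16970896)))))) (b (a (l 17010672) (l 16991288)) (l 17029640))) (b (b (l 6) (a (b (l 6) (a (b (l 6) (l 16959648)) (l 6))) (l 6))) (b (a (b (a (l 16968752) (b (l 6) (l 16959568))) (l 16974792)) (b (l 6) (l 16947360))) (a (l 16994192) (l 16965568)))))) (b (l 6) (a (l 6) (l 6))))), by decide +kernel⟩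

theorem s2_pm_102 : ∃ t, chk3 f_pm_102 t 1 1 1 = true := ex3_a k0_pm_102 k1_pm_102

theorem c_pm_102 : CertF 536870912 536870912 0 536870912 335544320 67108864 false true false .npp 1 0 2
    ndF0q1 ndF0q2 pcF0 cut_pm_102 Ext.none :=
  certF0 (fam := false) (s1 := true) (s2 := false) (a := 1) (b := 0) (c := 2) (cn := .npp) (n1 := ndF0q1) (n2 := ndF0q2) (pc := pcF0) (cut := cut_pm_102) (xt := Ext.none) (P1 := 536870912) (W1 := 536870912) (P2 := 0) (W2 := 536870912) (P3 := 335544320) (W3 := 67108864)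
    rfl s2_pm_102

noncomputable def cut_pm_112 : Cut := Cut.of [[⟨3, 0, 0, 1449551462⟩], [⟨4, 0, 0, 2845415833⟩]]

noncomputable def f_pm_112 : ℕ → ℕ → ℕ → ℕ → Bool := onCell 536870912 536870912 0 536870912 335544320 67108864
    (rowF 0 false true false .dn 1 1 2 (qsf 536870912 536870912 0 536870912 1) ndF0q1 ndF0q2 pcF1 cut_pm_112 Ext.none)

def k0_pm_112 : ∃ t, chk3 f_pm_112 t 1 1 1 = true :=
  ⟨(a (b (a (b (a (a (b (l 6) (l 16928664)) (l 6)) (l 6)) (a (b (a (l 16979472) (l 16942720)) (a (l 17026840) (l 16993832))) (a (b (l 16911984) (l 16964672)) (b (l 6) (l 16937872))))) (b (l 6) (a (b (l 6) (a (l 16910560) (l 1))) (l 1)))) (a (b (a (b (b (l 17047000) (a (l 17151552) (l 17057512))) (a (a (l 17181352) (l 17146928)) (l 17236712))) (a (b (l 17017352) (l 17077000)) (b (l 16991976) (l 17050408)))) (a (b (a (b (l 17143768) (l 17143040)) (l 17139408)) (b (a (l 17156472) (l 17160144)) (a (l 17181656) (l 1)))) (b (l 17209472) (l 1)))) (b (l 1) (l 1)))) (l 1)), by decide +kernel⟩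

theorem c_pm_112 : CertF 536870912 536870912 0 536870912 335544320 67108864 false true false .dn 1 1 2
    ndF0q1 ndF0q2 pcF1 cut_pm_112 Ext.none :=
  certF0 (fam := false) (s1 := true) (s2 := false) (a := 1) (b := 1) (c := 2) (cn := .dn) (n1 := ndF0q1) (n2 := ndF0q2) (pc := pcF1) (cut := cut_pm_112) (xt := Ext.none) (P1 := 536870912) (W1 := 536870912) (P2 := 0) (W2 := 536870912) (P3 := 335544320) (W3 := 67108864)
    rfl k0_pm_112

noncomputable def cut_pm_202 : Cut := Cut.of [[⟨3, 0, 0, 1449551462⟩], [⟨4, 0, 0, 2845415833⟩], [⟨0, 1, 0, 67108864⟩, ⟨1, 0, 0, 67108864⟩, ⟨2, 1, 0, 67108864⟩]]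

noncomputable def f_pm_202 : ℕ → ℕ → ℕ → ℕ → Bool := onCell 0 536870912 0 536870912 335544320 67108864
    (rowF 0 false true false .pp 2 0 2 (qsf 0 536870912 0 536870912 0) ndF0q2 ndF0q2 pcF0 cut_pm_202 Ext.none)

def k0_pm_202 : ∃ t, chk3 f_pm_202 t 1 1 1 = true :=
  ⟨(l 6), by decide +kernel⟩

theorem c_pm_202 : CertF 0 536870912 0 536870912 335544320 67108864 false true false .pp 2 0 2
    ndF0q2 ndF0q2 pcF0 cut_pm_202 Ext.none :=
  certF0 (fam := false) (s1 := true) (s2 := false) (a := 2) (b := 0) (c := 2) (cn := .pp) (n1 := ndF0q2) (n2 := ndF0q2) (pc := pcF0) (cut := cut_pm_202) (xt := Ext.none) (P1 := 0) (W1 := 536870912) (P2 := 0) (W2 := 536870912) (P3 := 335544320) (W3 := 67108864)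
    rfl k0_pm_202

noncomputable def cut_mm_001 : Cut := Cut.of [[⟨3, 0, 0, 1449551462⟩], [⟨4, 0, 0, 2845415833⟩]]

noncomputable def f_mm_001 : ℕ → ℕ → ℕ → ℕ → Bool := onCell 0 536870912 536870912 536870912 335544320 67108864
    (rowF 0 false false false .up 0 0 1 (qsf 0 536870912 536870912 536870912 0) ndF0q0 ndF0q1 pcF0 cut_mm_001 Ext.none)

def k0_mm_001 : ∃ t, chk3 f_mm_001 t 1 1 1 = true :=
  ⟨(l 6), by decide +kernel⟩

theorem c_mm_001 : CertF 0 536870912 536870912 536870912 335544320 67108864 false false false .up 0 0 1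
    ndF0q0 ndF0q1 pcF0 cut_mm_001 Ext.none :=
  certF0 (fam := false) (s1 := false) (s2 := false) (a := 0) (b := 0) (c := 1) (cn := .up) (n1 := ndF0q0) (n2 := ndF0q1) (pc := pcF0) (cut := cut_mm_001) (xt := Ext.none) (P1 := 0) (W1 := 536870912) (P2 := 536870912) (W2 := 536870912) (P3 := 335544320) (W3 := 67108864)
    rfl k0_mm_001

noncomputable def cut_mm_011 : Cut := Cut.of [[⟨3, 0, 0, 1449551462⟩], [⟨4, 0, 0, 2845415833⟩]]

noncomputable def f_mm_011 : ℕ → ℕ → ℕ → ℕ → Bool := onCell 0 536870912 536870912 536870912 335544320 67108864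
    (rowF 0 false false false .pnn 0 1 1 (qsf 0 536870912 536870912 536870912 1) ndF0q0 ndF0q1 pcF1 cut_mm_011 Ext.none)

def k0_mm_011 : ∃ t, chk3 f_mm_011 t 1 1 1 = true :=
  ⟨(l 6), by decide +kernel⟩

theorem c_mm_011 : CertF 0 536870912 536870912 536870912 335544320 67108864 false false false .pnn 0 1 1
    ndF0q0 ndF0q1 pcF1 cut_mm_011 Ext.none :=
  certF0 (fam := false) (s1 := false) (s2 := false) (a := 0) (b := 1) (c := 1) (cn := .pnn) (n1 := ndF0q0) (n2 := ndF0q1) (pc := pcF1) (cut := cut_mm_011) (xt := Ext.none) (P1 := 0) (W1 := 536870912) (P2 := 536870912) (W2 := 536870912) (P3 := 335544320) (W3 := 67108864)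
    rfl k0_mm_011

noncomputable def cut_mm_012 : Cut := Cut.of [[⟨3, 0, 0, 1449551462⟩], [⟨4, 0, 0, 2845415833⟩]]

noncomputable def f_mm_012 : ℕ → ℕ → ℕ → ℕ → Bool := onCell 0 536870912 0 536870912 335544320 67108864
    (rowF 0 false false false .pnp 0 1 2 (qsf 0 536870912 0 536870912 1) ndF0q0 ndF0q2 pcF1 cut_mm_012 Ext.none)

def k0_mm_012 : ∃ t, chk3 f_mm_012 t 1 1 1 = true :=
  ⟨(l 5), by decide +kernel⟩

theorem c_mm_012 : CertF 0 536870912 0 536870912 335544320 67108864 false false false .pnp 0 1 2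
    ndF0q0 ndF0q2 pcF1 cut_mm_012 Ext.none :=
  certF0 (fam := false) (s1 := false) (s2 := false) (a := 0) (b := 1) (c := 2) (cn := .pnp) (n1 := ndF0q0) (n2 := ndF0q2) (pc := pcF1) (cut := cut_mm_012) (xt := Ext.none) (P1 := 0) (W1 := 536870912) (P2 := 0) (W2 := 536870912) (P3 := 335544320) (W3 := 67108864)
    rfl k0_mm_012

noncomputable def cut_mm_022 : Cut := Cut.of [[⟨3, 0, 0, 1449551462⟩], [⟨4, 0, 0, 2845415833⟩]]

noncomputable def f_mm_022 : ℕ → ℕ → ℕ → ℕ → Bool := onCell 0 536870912 0 536870912 335544320 67108864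
    (rowF 0 false false false .pp 0 2 2 (qsf 0 536870912 0 536870912 2) ndF0q0 ndF0q2 pcF2 cut_mm_022 Ext.none)

def k0_mm_022 : ∃ t, chk3 f_mm_022 t 1 1 1 = true :=
  ⟨(l 5), by decide +kernel⟩

theorem c_mm_022 : CertF 0 536870912 0 536870912 335544320 67108864 false false false .pp 0 2 2
    ndF0q0 ndF0q2 pcF2 cut_mm_022 Ext.none :=
  certF0 (fam := false) (s1 := false) (s2 := false) (a := 0) (b := 2) (c := 2) (cn := .pp) (n1 := ndF0q0) (n2 := ndF0q2) (pc := pcF2) (cut := cut_mm_022) (xt := Ext.none) (P1 := 0) (W1 := 536870912) (P2 := 0) (W2 := 536870912) (P3 := 335544320) (W3 := 67108864)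
    rfl k0_mm_022

noncomputable def cut_mm_101 : Cut := Cut.of [[⟨3, 0, 0, 1449551462⟩], [⟨4, 0, 0, 2845415833⟩]]

noncomputable def f_mm_101 : ℕ → ℕ → ℕ → ℕ → Bool := onCell 536870912 536870912 536870912 536870912 335544320 67108864
    (rowF 0 false false false .npn 1 0 1 (qsf 536870912 536870912 536870912 536870912 0) ndF0q1 ndF0q1 pcF0 cut_mm_101 Ext.none)

def k0_mm_101 : ∃ t, chk3 f_mm_101 t 1 1 1 = true :=
  ⟨(l 3), by decide +kernel⟩

theorem c_mm_101 : CertF 536870912 536870912 536870912 536870912 335544320 67108864 false false false .npn 1 0 1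
    ndF0q1 ndF0q1 pcF0 cut_mm_101 Ext.none :=
  certF0 (fam := false) (s1 := false) (s2 := false) (a := 1) (b := 0) (c := 1) (cn := .npn) (n1 := ndF0q1) (n2 := ndF0q1) (pc := pcF0) (cut := cut_mm_101) (xt := Ext.none) (P1 := 536870912) (W1 := 536870912) (P2 := 536870912) (W2 := 536870912) (P3 := 335544320) (W3 := 67108864)
    rfl k0_mm_101

noncomputable def cut_mm_102 : Cut := Cut.of [[⟨3, 0, 0, 1449551462⟩], [⟨4, 0, 0, 2845415833⟩]]

noncomputable def f_mm_102 : ℕ → ℕ → ℕ → ℕ → Bool := onCell 536870912 536870912 0 536870912 335544320 67108864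
    (rowF 0 false false false .npp 1 0 2 (qsf 536870912 536870912 0 536870912 0) ndF0q1 ndF0q2 pcF0 cut_mm_102 Ext.none)

def k0_mm_102 : ∃ t, chk3 f_mm_102 t 1 1 1 = true :=
  ⟨(a (l 5) (l 3)), by decide +kernel⟩

theorem c_mm_102 : CertF 536870912 536870912 0 536870912 335544320 67108864 false false false .npp 1 0 2
    ndF0q1 ndF0q2 pcF0 cut_mm_102 Ext.none :=
  certF0 (fam := false) (s1 := false) (s2 := false) (a := 1) (b := 0) (c := 2) (cn := .npp) (n1 := ndF0q1) (n2 := ndF0q2) (pc := pcF0) (cut := cut_mm_102) (xt := Ext.none) (P1 := 536870912) (W1 := 536870912) (P2 := 0) (W2 := 536870912) (P3 := 335544320) (W3 := 67108864)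
    rfl k0_mm_102

noncomputable def cut_mm_112 : Cut := Cut.of [[⟨3, 0, 0, 1449551462⟩], [⟨4, 0, 0, 2845415833⟩]]

noncomputable def f_mm_112 : ℕ → ℕ → ℕ → ℕ → Bool := onCell 536870912 536870912 0 536870912 335544320 67108864
    (rowF 2 false false false .dn 1 1 2 (qsf 536870912 536870912 0 536870912 1) ndF0q1 ndF0q2 pcF1 cut_mm_112 Ext.none)

def k0_mm_112 : ∃ t, chk3 f_mm_112 t 1 1 1 = true :=
  ⟨(l 5), by decide +kernel⟩

theorem c_mm_112 : CertF 536870912 536870912 0 536870912 335544320 67108864 false false false .dn 1 1 2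
    ndF0q1 ndF0q2 pcF1 cut_mm_112 Ext.none :=
  certF2 (fam := false) (s1 := false) (s2 := false) (a := 1) (b := 1) (c := 2) (cn := .dn) (n1 := ndF0q1) (n2 := ndF0q2) (pc := pcF1) (cut := cut_mm_112) (xt := Ext.none) (P1 := 536870912) (W1 := 536870912) (P2 := 0) (W2 := 536870912) (P3 := 335544320) (W3 := 67108864)
    rfl (fun _ => rfl) k0_mm_112

noncomputable def cut_mm_202 : Cut := Cut.of [[⟨3, 0, 0, 1449551462⟩], [⟨4, 0, 0, 2845415833⟩]]

noncomputable def f_mm_202 : ℕ → ℕ → ℕ → ℕ → Bool := onCell 0 536870912 0 536870912 335544320 67108864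
    (rowF 0 false false false .pp 2 0 2 (qsf 0 536870912 0 536870912 0) ndF0q2 ndF0q2 pcF0 cut_mm_202 Ext.none)

def k0_mm_202 : ∃ t, chk3 f_mm_202 t 1 1 1 = true :=
  ⟨(l 3), by decide +kernel⟩

theorem c_mm_202 : CertF 0 536870912 0 536870912 335544320 67108864 false false false .pp 2 0 2
    ndF0q2 ndF0q2 pcF0 cut_mm_202 Ext.none :=
  certF0 (fam := false) (s1 := false) (s2 := false) (a := 2) (b := 0) (c := 2) (cn := .pp) (n1 := ndF0q2) (n2 := ndF0q2) (pc := pcF0) (cut := cut_mm_202) (xt := Ext.none) (P1 := 0) (W1 := 536870912) (P2 := 0) (W2 := 536870912) (P3 := 335544320) (W3 := 67108864)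
    rfl k0_mm_202

end Pool.Agent.Strip051.G.I5_16_3_8.Tab.C.FB00

namespace Pool.Agent.Strip051.G.I5_16_3_8.Tab.C.FB01

open Pool.Agent.Strip051.PB Pool.Agent.Strip051.PB.T
open Pool.Agent.Strip051.G.I5_16_3_8.Tab

noncomputable def f_pp_001 : ℕ → ℕ → ℕ → ℕ → Bool := onCell 0 536870912 536870912 536870912 335544320 67108864
    (rowF 0 false true true .up 0 0 1 (qsf 0 536870912 536870912 536870912 0) ndF0q0 ndF1q1 pcF0 Cut.none Ext.none)

def k0_pp_001 : ∃ t, chk3 f_pp_001 t 1 1 1 = true :=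
  ⟨(l 3), by decide +kernel⟩

theorem c_pp_001 : CertF 0 536870912 536870912 536870912 335544320 67108864 false true true .up 0 0 1
    ndF0q0 ndF1q1 pcF0 Cut.none Ext.none :=
  certF0 (fam := false) (s1 := true) (s2 := true) (a := 0) (b := 0) (c := 1) (cn := .up) (n1 := ndF0q0) (n2 := ndF1q1) (pc := pcF0) (cut := Cut.none) (xt := Ext.none) (P1 := 0) (W1 := 536870912) (P2 := 536870912) (W2 := 536870912) (P3 := 335544320) (W3 := 67108864)
    rfl k0_pp_001

noncomputable def f_pp_011 : ℕ → ℕ → ℕ → ℕ → Bool := onCell 0 536870912 536870912 536870912 335544320 67108864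
    (rowF 0 false true true .pnn 0 1 1 (qsf 0 536870912 536870912 536870912 1) ndF0q0 ndF1q1 pcF1 Cut.none Ext.none)

def k0_pp_011 : ∃ t, chk3 f_pp_011 t 1 1 1 = true :=
  ⟨(l 3), by decide +kernel⟩

theorem c_pp_011 : CertF 0 536870912 536870912 536870912 335544320 67108864 false true true .pnn 0 1 1
    ndF0q0 ndF1q1 pcF1 Cut.none Ext.none :=
  certF0 (fam := false) (s1 := true) (s2 := true) (a := 0) (b := 1) (c := 1) (cn := .pnn) (n1 := ndF0q0) (n2 := ndF1q1) (pc := pcF1) (cut := Cut.none) (xt := Ext.none) (P1 := 0) (W1 := 536870912) (P2 := 536870912) (W2 := 536870912) (P3 := 335544320) (W3 := 67108864)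
    rfl k0_pp_011

noncomputable def cut_pp_012_a : Cut := Cut.of [[⟨0, 0, 0, 67108864⟩, ⟨1, 1, 0, 67108864⟩, ⟨2, 1, 0, 67108864⟩]]

noncomputable def f_pp_012_a : ℕ → ℕ → ℕ → ℕ → Bool := onCell 536870912 536870912 0 536870912 335544320 67108864
    (rowF 2 false true true .pnp 0 1 2 (qsf 0 536870912 0 536870912 1) ndF0q0 ndF1q2a pcF1 cut_pp_012_a Ext.none)

def k0_pp_012_a : ∃ t, chk3 f_pp_012_a t 2 1 1 = true :=
  ⟨(l 3), by decide +kernel⟩

def k1_pp_012_a : ∃ t, chk3 f_pp_012_a t 6 1 1 = true :=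
  ⟨(b (a (l 3) (b (a (l 3) (b (a (b (a (l 3) (b (a (l 3) (l 44728045655)) (l 3))) (l 3)) (b (a (b (c (l 16781048) (l 16759568)) (a (l 45801784023) (l 47412388407))) (c (l 16771416) (l 16750600))) (a (b (l 43654305735) (l 3)) (b (c (l 35064383911) (l 45264906983)) (a (l 3) (l 43654296823)))))) (l 3))) (l 3))) (l 3)), by decide +kernel⟩

def k2_pp_012_a : ∃ t, chk3 f_pp_012_a t 14 4 1 = true :=
  ⟨(a (b (a (b (l 16752824) (a (a (b (l 16751168) (l 46875507495)) (l 16748048)) (l 16738808))) (b (l 16708576) (l 16742216))) (a (b (a (b (a (l 41506814503) (l 44191154311)) (a (l 3) (l 42580544919))) (b (l 16748112) (c (l 30769399719) (l 39359319303)))) (a (l 3) (b (a (l 40969930935) (l 42043672263)) (l 3)))) (b (a (l 16760072) (l 16727640)) (a (b (c (l 16747680) (l 16747680)) (a (l 40433058247) (l 38822433591))) (c (l 16759736) (l 16739128)))))) (b (a (l 16714984) (l 16696768)) (a (b (l 16711536) (a (l 16728064) (l 16717576))) (l 16739520)))), by decide +kernel⟩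

def k3_pp_012_a : ∃ t, chk3 f_pp_012_a t 14 5 1 = true :=
  ⟨(a (b (a (l 3) (b (a (b (a (l 3) (l 39359315111)) (l 3)) (b (c (l 35064328135) (l 34527468855)) (a (l 39896175415) (c (l 32379983223) (l 35064338807))))) (a (l 3) (b (c (l 36674953911) (l 39359307687)) (l 3))))) (l 3)) (b (a (b (a (a (b (l 16739072) (l 16744496)) (l 16736360)) (l 16749440)) (c (a (b (a (l 30232499159) (l 16744352)) (a (l 34527464839) (l 35064326631))) (b (l 16736352) (a (l 16749672) (l 16739192)))) (a (b (a (l 33453724583) (l 16744232)) (a (l 37211818663) (l 37748691527))) (b (l 16736416) (a (l 16744216) (l 16739080)))))) (b (l 16747664) (a (b (l 16726400) (l 16731696)) (l 16719320)))) (a (b (a (l 3) (b (c (a (b (l 28621880711) (l 33990586759)) (b (l 16743264) (l 29695617351))) (a (l 38822421719) (l 30769360071))) (a (l 3) (b (c (l 27011268007) (l 29695622999)) (c (l 30769361367) (l 33453714983)))))) (l 3)) (b (a (b (c (l 16747432) (l 16736736)) (c (a (b (l 16743512) (c (l 27548134631) (l 28621876871)))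 (l 16739776)) (a (b (l 16743128) (l 30769359943)) (l 16739424)))) (b (l 16727144) (c (l 16732360) (l 16732072)))) (a (b (a (b (c (a (l 28085009159) (l 30769359815)) (l 31306234711)) (c (l 28085006967) (l 29695618663))) (c (b (l 16743784) (c (l 26474393319) (l 27548135463))) (b (l 16743312) (l 29695618759)))) (a (l 3) (b (c (a (l 3) (l 27011263959)) (l 30232485287)) (l 3)))) (a (b (c (l 16740128) (l 16739672)) (c (b (l 28621871847) (c (l 25937523047) (l 27011265095))) (b (l 16743560) (l 29158746823)))) (b (l 16735152) (c (l 16745784) (l 16739992))))))))), by decide +kernel⟩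

def k4_pp_012_a : ∃ t, chk3 f_pp_012_a t 15 2 1 = true :=
  ⟨(b (a (b (a (l 16680800) (l 16645696)) (a (l 16701064) (l 16685392))) (b (a (l 16632976) (l 16621480)) (a (l 16650176) (l 16637232)))) (a (b (a (b (l 16695344) (l 16736936)) (b (l 16678720) (l 16688416))) (a (b (a (b (l 16717680) (l 16722832)) (l 16711160)) (a (b (l 16728008) (c (l 16733352) (l 16732832))) (b (l 16718816) (l 16723976)))) (b (a (l 16702456) (l 16694128)) (a (l 16712560) (l 16704096))))) (b (a (b (l 16663600) (l 16672848)) (b (l 16649808) (l 16658616))) (a (b (l 16682328) (a (l 16696000) (l 16688256))) (b (l 16667744) (a (l 16680824) (l 16673696))))))), by decide +kernel⟩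

def k5_pp_012_a : ∃ t, chk3 f_pp_012_a t 14 3 1 = true :=
  ⟨(b (a (l 3) (b (a (l 3) (b (a (l 3) (b (a (b (c (l 27548132375) (l 29158743895)) (l 3)) (c (b (l 23790034775) (l 25400652743)) (b (l 16749144) (l 28085005495)))) (a (l 3) (a (l 3) (c (l 23253163575) (l 25400645415)))))) (l 3))) (l 3))) (l 3)), by decide +kernel⟩

def k6_pp_012_a : ∃ t, chk3 f_pp_012_a t 30 6 1 = true :=
  ⟨(b (a (b (a (a (b (c (l 16741040) (l 16740416)) (c (b (l 16750280) (l 24326911911)) (b (l 16744344) (l 27011264583)))) (b (l 16736120) (c (l 16741656) (l 16740968)))) (b (l 16729200) (c (l 16734720) (l 16734024)))) (a (a (a (l 3) (b (b (l 25400651095) (l 3)) (l 3))) (b (c (b (l 16745664) (l 16748184)) (b (l 16744928) (l 25937523959))) (b (l 37748687639) (l 3)))) (a (b (c (l 16742416) (l 16741664)) (c (b (l 16746448) (l 16748984)) (b (l 25400649655) (l 21105687303)))) (b (l 16737576) (c (l 16753816) (b (l 16741160) (l 16743912))))))) (b (a (b (l 16720296) (l 16725544)) (l 16714360)) (a (b (l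 16730888) (c (l 16736656) (a (l 16738032) (l 16733608)))) (b (l 16722288) (l 16727712))))) (a (b (a (l 3) (b (a (l 3) (c (b (l 16747400) (l 22179432759)) (b (l 22716297111) (l 18421334375)))) (l 3))) (l 3)) (b (a (a (b (c (l 16754904) (b (l 16742192) (l 16745000))) (b (c (l 22179430423) (l 20568815751)) (c (l 25937531367) (l 22179433143)))) (b (l 16744944) (b (l 16743952) (a (l 22716295943) (l 16745744))))) (a (b (l 16735384) (a (l 16742144) (l 16740000))) (b (l 16731152) (l 16736832)))) (a (b (a (l 3) (b (c (l 20568820423) (l 22179431383)) (c (l 22716308727) (l 23790048759)))) (l 3)) (b (c (a (b (l 16745784) (l 21105688887)) (l 16743040)) (a (b (l 16744920) (l 22179428711)) (l 16742136))) (a (b (c (l 22179431111) (c (l 20031951815) (l 23790047127))) (c (l 19495083655) (l 25400657703))) (c (b (l 16747512) (c (l 18421338487) (l 18958208871))) (b (l 16746656) (a (l 24326915623) (l 16748672)))))))))), by decide +kernel⟩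

def k7_pp_012_a : ∃ t, chk3 f_pp_012_a t 31 6 1 = true :=
  ⟨(a (b (b (a (l 16706168) (l 16698312)) (a (l 16728528) (l 16708808))) (b (a (b (l 16724968) (l 16741128)) (b (l 16717016) (l 16722680))) (a (a (b (l 16738520) (b (l 16743008) (a (l 16747080) (l 16745032)))) (b (l 16734448) (c (l 16740880) (l 16739896)))) (b (l 16738992) (c (l 16744192) (l 16744368)))))) (b (b (a (l 16690784) (l 16683560)) (a (l 16701216) (l 16693920))) (b (a (b (l 16709384) (l 16715032)) (b (l 16702048) (l 16707688))) (a (b (l 16720856) (c (l 16727496) (l 16726104))) (b (l 16713504) (a (l 16721320) (l 16717720))))))), by decide +kernel⟩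

def k8_pp_012_a : ∃ t, chk3 f_pp_012_a t 30 7 1 = true :=
  ⟨(b (a (l 3) (b (a (l 3) (b (a (l 3) (a (b (c (l 19495084119) (l 20568824359)) (l 3)) (c (b (l 21105694039) (l 17347602519)) (b (l 22716304887) (l 18421342727))))) (l 3))) (l 3))) (l 3)), by decide +kernel⟩

def k9_pp_012_a : ∃ t, chk3 f_pp_012_a t 62 14 1 = true :=
  ⟨(b (a (b (c (a (b (l 16754752) (a (l 19495083415) (l 16751616))) (b (l 16745480) (l 16748608))) (a (a (b (l 16749704) (l 20568823559)) (b (l 16747640) (l 16750816))) (b (l 16744568) (l 16747752)))) (a (a (l 3) (b (c (l 17347602199) (c (l 17884472103) (l 18421342055))) (l 3))) (a (c (b (l 16752784) (c (l 14663250263) (l 15200120695))) (b (l 16754624) (a (l 16810731623) (l 18421342663)))) (c (b (l 16750792) (l 15736987815)) (b (l 16749976) (c (l 16753504) (l 16758264))))))) (a (b (c (l 16753592) (l 16752624)) (c (b (l 16747856) (l 16755024)) (b (l 16746976) (c (l 16750520) (l 16750008))))) (b (l 16745336) (b (l 16743576) (l 16752088))))) (a (b (a (l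 3) (a (l 3) (b (b (c (l 16759056) (l 16810731095)) (c (l 13589510071) (l 15200121207))) (l 3)))) (l 3)) (b (a (a (c (b (c (l 16755472) (l 16760448)) (b (l 13589509879) (l 11978899767))) (b (c (l 15200118855) (l 16273859767)) (b (l 15736992055) (l 13052640423)))) (c (b (l 16753408) (c (l 11442026855) (l 12515768167))) (b (l 16752648) (b (l 16755216) (l 16759560))))) (a (b (l 16751136) (b (l 16753672) (l 16755376))) (b (l 16749208) (a (l 16753080) (l 16752120))))) (a (a (l 3) (b (b (c (l 11978900023) (l 13589511383)) (c (l 10368289975) (l 11442030711))) (l 3))) (b (a (b (c (l 16757400) (l 16756736)) (c (l 16761720) (l 14126382023))) (b (l 16755184) (l 6))) (l 6)))))), by decide +kernel⟩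

def k10_pp_012_a : ∃ t, chk3 f_pp_012_a t 63 14 1 = true :=
  ⟨(b (a (a (b (l 16734960) (c (l 16752352) (l 16740808))) (b (l 16731216) (c (l 16738184) (l 16737000)))) (b (a (l 16727536) (l 16723936)) (a (c (l 16734592) (l 16733264)) (c (l 16731080) (l 16729576))))) (a (b (b (a (l 16751600) (l 16742624)) (a (c (l 16750136) (l 16749288)) (c (l 16746464) (l 16745496)))) (a (a (a (b (l 16754632) (l 6)) (l 6)) (l 6)) (l 6))) (a (b (b (l 16738960) (l 6)) (l 6)) (l 6)))), by decide +kernel⟩

def k11_pp_012_a : ∃ t, chk3 f_pp_012_a t 31 15 1 = true :=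
  ⟨(a (b (a (l 3) (l 6)) (l 3)) (l 6)), by decide +kernel⟩

theorem s12_pp_012_a : ∃ t, chk3 f_pp_012_a t 31 14 1 = true := ex3_a k9_pp_012_a k10_pp_012_a

theorem s13_pp_012_a : ∃ t, chk3 f_pp_012_a t 31 7 1 = true := ex3_b s12_pp_012_a k11_pp_012_a

theorem s14_pp_012_a : ∃ t, chk3 f_pp_012_a t 15 7 1 = true := ex3_a k8_pp_012_a s13_pp_012_a

theorem s15_pp_012_a : ∃ t, chk3 f_pp_012_a t 15 6 1 = true := ex3_a k6_pp_012_a k7_pp_012_a

theorem s16_pp_012_a : ∃ t, chk3 f_pp_012_a t 15 3 1 = true := ex3_b s15_pp_012_a s14_pp_012_a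

theorem s17_pp_012_a : ∃ t, chk3 f_pp_012_a t 7 3 1 = true := ex3_a k5_pp_012_a s16_pp_012_a

theorem s18_pp_012_a : ∃ t, chk3 f_pp_012_a t 14 2 1 = true := ex3_b k2_pp_012_a k3_pp_012_a

theorem s19_pp_012_a : ∃ t, chk3 f_pp_012_a t 7 2 1 = true := ex3_a s18_pp_012_a k4_pp_012_a

theorem s20_pp_012_a : ∃ t, chk3 f_pp_012_a t 7 1 1 = true := ex3_b s19_pp_012_a s17_pp_012_a

theorem s21_pp_012_a : ∃ t, chk3 f_pp_012_a t 3 1 1 = true := ex3_a k1_pp_012_a s20_pp_012_a

theorem s22_pp_012_a : ∃ t, chk3 f_pp_012_a t 1 1 1 = true := ex3_a k0_pp_012_a s21_pp_012_a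

theorem c_pp_012_a : CertF 0 536870912 0 536870912 335544320 67108864 false true true .pnp 0 1 2
    ndF0q0 ndF1q2a pcF1 cut_pp_012_a Ext.none :=
  certF2 (fam := false) (s1 := true) (s2 := true) (a := 0) (b := 1) (c := 2) (cn := .pnp) (n1 := ndF0q0) (n2 := ndF1q2a) (pc := pcF1) (cut := cut_pp_012_a) (xt := Ext.none) (P1 := 0) (W1 := 536870912) (P2 := 0) (W2 := 536870912) (P3 := 335544320) (W3 := 67108864)
    rfl (fun _ => rfl) s22_pp_012_a

noncomputable def cut_pp_012_b : Cut := Cut.of [[⟨0, 0, 0, 67108864⟩, ⟨1, 1, 0, 67108864⟩, ⟨2, 1, 0, 67108864⟩]]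

noncomputable def f_pp_012_b : ℕ → ℕ → ℕ → ℕ → Bool := onCell 536870912 536870912 1239849684 370763052 335544320 67108864
    (rowF 2 false true true .pnp 0 1 2 (qsf 0 536870912 1239849684 370763052 1) ndF0q0 ndF1q2b pcF1 cut_pp_012_b Ext.none)

def k0_pp_012_b : ∃ t, chk3 f_pp_012_b t 2 1 1 = true :=
  ⟨(l 3), by decide +kernel⟩

def k1_pp_012_b : ∃ t, chk3 f_pp_012_b t 3 2 1 = true :=
  ⟨(a (a (l 3) (b (a (l 3) (b (a (a (l 3) (a (l 3) (b (b (c (l 16770400) (l 16768512)) (c (l 16779240) (l 46338678103))) (b (b (l 41506846055) (l 3)) (l 3))))) (b (a (c (b (l 16760400) (l 16769136)) (b (l 16759280) (l 16766072))) (l 16781960)) (a (c (b (l 16778800) (l 16789416)) (b (a (l 16777000) (l 16770424)) (a (l 44728084679) (l 16778888)))) (c (l 16769336) (l 16764376))))) (a (l 3) (a (b (c (b (l 16801024) (l 16813672)) (b (a (l 41506876711) (l 16788296)) (a (l 3) (l 16798656)))) (c (l 39896309447) (b (l 42043767031) (l 40433175527)))) (b (c (l 16791928) (l 16793112)) (c (l 16819008)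 (b (l 16799000) (l 16811216)))))))) (a (l 3) (a (l 3) (a (b (l 3) (l 3)) (b (b (b (l 45265011271) (l 16828256)) (l 40970103095)) (b (l 16917752) (l 3)))))))) (a (b (b (a (b (a (a (l 16737312) (l 16724544)) (l 16727416)) (a (a (l 16752888) (l 16738952)) (l 16718528))) (a (b (l 16684448) (l 16693240)) (l 16709016))) (a (a (b (a (l 16772344) (l 16757328)) (a (l 16796112) (l 16780072))) (b (l 16735208) (l 16756192))) (a (a (l 16722632) (l 16707768)) (l 16729216)))) (a (b (a (b (c (l 16824424) (l 16807400)) (c (l 16870384) (l 16837568))) (b (l 16781928) (l 16812744))) (a (b (l 16894576) (l 16943360)) (b (l 16859208) (l 16914520)))) (b (b (a (l 16748392) (l 16716136)) (l 16779936)) (b (l 16793808) (l 16862768))))) (b (a (b (a (l 16690992) (l 16674960)) (a (l 16661816) (l 16639008))) (a (b (l 16660792) (l 16618808)) (b (l 16648280) (l 16621456)))) (b (a (a (l 16695952) (l 16665336)) (a (l 16637776) (b (l 16607328) (l 16619088)))) (a (a (l 16751760) (l 16715016)) (a (l 16680192)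 (l 16647464))))))), by decide +kernel⟩

def k2_pp_012_b : ∃ t, chk3 f_pp_012_b t 3 3 1 = true :=
  ⟨(b (a (l 3) (a (b (a (b (a (l 16986712) (l 16963536)) (l 46339112647)) (b (l 16922976) (l 16974976))) (a (a (l 54929265351) (l 17057760)) (b (l 17018984) (l 17055728)))) (a (b (a (l 16903936) (l 16863920)) (b (l 16979312) (l 17028848))) (b (a (l 16771240) (l 16727560)) (a (l 16968624) (l 16935184)))))) (a (l 2) (a (a (l 2) (b (l 86537589927) (l 2))) (a (b (l 17086216) (l 17133472)) (b (l 17067496) (l 17139040)))))), by decide +kernel⟩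

theorem s3_pp_012_b : ∃ t, chk3 f_pp_012_b t 3 1 1 = true := ex3_b k1_pp_012_b k2_pp_012_b

theorem s4_pp_012_b : ∃ t, chk3 f_pp_012_b t 1 1 1 = true := ex3_a k0_pp_012_b s3_pp_012_b

theorem c_pp_012_b : CertF 0 536870912 1239849684 370763052 335544320 67108864 false true true .pnp 0 1 2
    ndF0q0 ndF1q2b pcF1 cut_pp_012_b Ext.none :=
  certF2 (fam := false) (s1 := true) (s2 := true) (a := 0) (b := 1) (c := 2) (cn := .pnp) (n1 := ndF0q0) (n2 := ndF1q2b) (pc := pcF1) (cut := cut_pp_012_b) (xt := Ext.none) (P1 := 0) (W1 := 536870912) (P2 := 1239849684) (W2 := 370763052) (P3 := 335544320) (W3 := 67108864)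
    rfl (fun _ => rfl) s4_pp_012_b

noncomputable def cut_pp_022_a : Cut := Cut.of [[⟨0, 0, 0, 67108864⟩, ⟨1, 1, 0, 67108864⟩, ⟨2, 1, 0, 67108864⟩]]

noncomputable def f_pp_022_a : ℕ → ℕ → ℕ → ℕ → Bool := onCell 1073741824 536870912 0 536870912 335544320 67108864
    (rowF 2 false true true .pp 0 2 2 (qsf 0 536870912 0 536870912 2) ndF0q0 ndF1q2a pcF2 cut_pp_022_a Ext.none)

def k0_pp_022_a : ∃ t, chk3 f_pp_022_a t 8 1 1 = true :=
  ⟨(b (b (a (b (l 16640416) (a (l 16649312) (l 16601264))) (a (l 16630264) (l 16572208))) (a (a (b (b (l 16640672) (l 16648384)) (b (l 16656480) (l 16685968))) (b (l 16638072) (l 16675672))) (b (l 16637440) (c (l 16632424) (l 16655184))))) (b (a (a (b (b (a (l 16680560) (l 16667392)) (a (b (l 16687576) (l 16692448)) (l 16676952))) (a (a (b (c (l 16704624) (l 16701768)) (b (l 16711240) (l 16716800))) (b (l 16696872) (l 16707664))) (b (l 16687136) (b (l 16695208) (l 16700848))))) (b (a (l 16700800) (l 16687256)) (b (l 16709216) (a (l 16705944) (l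 16671672))))) (b (a (l 16666440) (b (l 16607120) (l 16642680))) (b (a (l 16660936) (l 16669088)) (a (a (l 16679088) (l 16677880)) (b (l 16671240) (a (l 16659976) (l 16658192))))))) (a (b (b (a (b (a (a (l 16722568) (l 16716264)) (l 16706696)) (b (a (a (l 16727032) (l 16720760)) (l 16711224)) (l 6))) (a (b (l 16714704) (l 16720832)) (l 16699320))) (l 6)) (l 6)) (b (b (a (b (c (l 16694464) (l 16694680)) (a (l 16704464) (c (l 16682880) (l 16679792)))) (b (a (l 16674552) (a (l 16667680) (b (l 16664280) (l 16668760)))) (a (b (l 16686928) (l 6)) (b (c (a (l 16676944) (l 16675880)) (l 33319351831)) (c (a (l 6) (l 16680544)) (l 16681408)))))) (a (l 6) (a (l 6) (a (l 6) (l 1))))) (a (l 6) (l 1)))))), by decide +kernel⟩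

def k1_pp_022_a : ∃ t, chk3 f_pp_022_a t 9 2 1 = true :=
  ⟨(b (a (b (l 16550416) (l 16580584)) (b (l 16548712) (a (l 16560656) (l 16559328)))) (a (b (a (l 16594088) (l 16575864)) (b (l 16628768) (a (l 16595976) (l 16596784)))) (b (a (l 16618992) (b (l 16572016) (a (l 16581496) (l 16581112)))) (a (b (l 16588304) (a (l 16596648) (l 16596248))) (b (a (l 16588112) (c (l 16592448) (l 16582824))) (a (c (l 16600112) (l 16591056)) (c (b (l 16597640) (l 16601552)) (l 37614167495)))))))), by decide +kernel⟩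

def k2_pp_022_a : ∃ t, chk3 f_pp_022_a t 9 3 1 = true :=
  ⟨(b (b (a (a (b (l 16607808) (l 16621024)) (b (l 16607416) (b (l 16616152) (l 16632920)))) (a (b (a (l 16606432) (b (l 16602976) (l 52109721159))) (a (b (l 16614504) (l 32245522231)) (b (l 31708637623) (l 16618656)))) (b (a (c (b (l 16606600) (l 16611360)) (l 17749965543)) (c (l 16608072) (l 16597768))) (l 1)))) (a (b (a (b (l 16631672) (a (l 16639896) (l 16638432))) (b (a (l 16629728) (l 47277922183)) (a (c (l 16640152) (l 16633432)) (c (l 16638712) (l 16631088))))) (a (b (a (l 16647912) (c (l 16649144) (l 16643104))) (a (c (b (l 16656768) (l 16661032)) (l 16653568)) (c (b (l 16655112) (l 16659192)) (l 13991964391)))) (b (a (c (l 16647560) (l 16640616)) (l 1)) (l 1)))) (b (a (b (a (l 16626416) (l 1)) (l 1)) (l 1)) (l 1)))) (c (c (a (b (b (a (b (a (b (l 16666800) (l 16671216)) (l 16667128)) (b (l 16674656) (l 1))) (l 1)) (l 1)) (l 1)) (l 1)) (a (b (b (a (b (a (b (l 16663944) (l 16668312)) (l 16663800)) (a (l 16674992)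 (l 1))) (l 1)) (l 1)) (l 1)) (l 1))) (c (a (b (b (a (b (a (b (l 16661184) (l 16665488)) (l 16660560)) (a (l 16672088) (l 1))) (l 1)) (l 1)) (l 1)) (l 1)) (a (b (b (a (b (a (l 16676334663) (l 16657400)) (a (l 16669264) (l 1))) (l 1)) (l 1)) (l 1)) (l 1))))), by decide +kernel⟩

def k3_pp_022_a : ∃ t, chk3 f_pp_022_a t 5 1 1 = true :=
  ⟨(b (b (a (a (b (a (l 16543392) (l 16538176)) (a (b (l 16552312) (l 16560360)) (b (l 16547856) (l 30634793287)))) (b (l 1) (l 1))) (l 1)) (a (a (a (b (b (c (l 16574648) (l 16564752)) (a (c (l 16585376) (l 16575240)) (c (b (l 16582072) (l 29561096087)) (l 47814690599)))) (a (b (c (b (l 16590592) (l 16593664)) (l 49962181079)) (c (l 16598944) (l 16588112))) (b (c (l 16591640) (l 16580248)) (l 1)))) (b (b (c (l 56941489159) (l 16560280)) (b (l 1) (l 1))) (l 1))) (l 1)) (l 1))) (b (l 1) (l 1))), by decide +kernel⟩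

def k4_pp_022_a : ∃ t, chk3 f_pp_022_a t 3 1 1 = true :=
  ⟨(l 1), by decide +kernel⟩

theorem s5_pp_022_a : ∃ t, chk3 f_pp_022_a t 9 1 1 = true := ex3_b k1_pp_022_a k2_pp_022_a

theorem s6_pp_022_a : ∃ t, chk3 f_pp_022_a t 4 1 1 = true := ex3_a k0_pp_022_a s5_pp_022_a

theorem s7_pp_022_a : ∃ t, chk3 f_pp_022_a t 2 1 1 = true := ex3_a s6_pp_022_a k3_pp_022_a

theorem s8_pp_022_a : ∃ t, chk3 f_pp_022_a t 1 1 1 = true := ex3_a s7_pp_022_a k4_pp_022_a

theorem c_pp_022_a : CertF 0 536870912 0 536870912 335544320 67108864 false true true .pp 0 2 2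
    ndF0q0 ndF1q2a pcF2 cut_pp_022_a Ext.none :=
  certF2 (fam := false) (s1 := true) (s2 := true) (a := 0) (b := 2) (c := 2) (cn := .pp) (n1 := ndF0q0) (n2 := ndF1q2a) (pc := pcF2) (cut := cut_pp_022_a) (xt := Ext.none) (P1 := 0) (W1 := 536870912) (P2 := 0) (W2 := 536870912) (P3 := 335544320) (W3 := 67108864)
    rfl (fun _ => rfl) s8_pp_022_a

noncomputable def cut_pp_022_b : Cut := Cut.of [[⟨0, 0, 0, 67108864⟩, ⟨1, 1, 0, 67108864⟩, ⟨2, 1, 0, 67108864⟩]]

noncomputable def f_pp_022_b : ℕ → ℕ → ℕ → ℕ → Bool := onCell 0 536870912 1073741824 536870912 335544320 67108864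
    (rowF 1 false true true .pp 0 2 2 (qsf 0 536870912 1239849684 370763052 2) ndF0q0 ndF1q2b pcF2 cut_pp_022_b Ext.none)

def k0_pp_022_b : ∃ t, chk3 f_pp_022_b t 2 1 1 = true :=
  ⟨(b (a (b (b (a (l 1) (b (a (l 1) (l 16659984)) (a (l 19897578407) (l 16583344)))) (a (a (b (l 1) (a (l 1) (l 61773392439))) (a (b (l 1) (l 16576360)) (b (l 16607200) (l 16529256)))) (a (b (l 16608312) (l 16530504)) (l 16564560)))) (b (b (a (a (a (b (l 16582096) (l 16530632)) (l 16542088)) (l 16524448)) (a (l 16449136) (l 16370144))) (a (a (b (l 16549648) (l 16495928)) (l 16460152)) (a (l 16383632) (l 16303320)))) (a (a (b (c (l 16468184) (l 16440888)) (l 16410904)) (b (l 16389896) (l 16311856))) (b (l 16365112) (l 16275472))))) (b (b (a (b (b (a (l 16606096) (l 16593088)) (l 16609352)) (l 16583448)) (b (a (l 16571112) (l 16571608)) (l 16555120))) (a (b (l 16479680) (l 16419416)) (b (l 16457232) (l 16403064)))) (a (b (l 16397512) (a (l 16306896) (l 16524648))) (b (l 16482480) (l 16766888)))))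 (b (a (b (a (b (a (b (l 16286152) (l 16262616)) (b (l 16205152) (l 16158288))) (b (c (l 16229808) (l 16230120)) (l 16198592))) (b (a (l 16174288) (l 16385048)) (l 16474920))) (a (b (a (l 16160160) (l 16342424)) (a (l 16318056) (l 16543176))) (b (l 16652368) (l 16800152)))) (b (a (b (l 16675408) (l 16813248)) (l 16980272)) (a (l 16984200) (l 17143704)))) (a (b (a (b (a (l 16519312) (l 16707816)) (l 16694616)) (b (l 16925024) (l 17030480))) (a (b (l 16878376) (l 16995048)) (l 17171376))) (b (a (l 17165352) (l 2)) (l 2))))), by decide +kernel⟩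

def k1_pp_022_b : ∃ t, chk3 f_pp_022_b t 3 1 1 = true :=
  ⟨(b (a (b (b (a (b (a (l 16582608) (l 16605976)) (l 16541464)) (b (a (l 16641656) (l 16797360)) (l 16777528))) (a (l 16560584) (l 16873280))) (a (b (l 16801472) (l 16978360)) (b (l 16993992) (l 17101160)))) (b (a (b (a (l 16943576) (l 17034960)) (l 17042264)) (b (l 17126640) (l 17128864))) (a (l 17131432) (l 2)))) (b (a (b (a (l 17120504) (l 2)) (l 2)) (l 2)) (l 2))), by decide +kernel⟩

theorem s2_pp_022_b : ∃ t, chk3 f_pp_022_b t 1 1 1 = true := ex3_a k0_pp_022_b k1_pp_022_b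

theorem c_pp_022_b : CertF 0 536870912 1239849684 370763052 335544320 67108864 false true true .pp 0 2 2
    ndF0q0 ndF1q2b pcF2 cut_pp_022_b Ext.none :=
  certF1 (fam := false) (s1 := true) (s2 := true) (a := 0) (b := 2) (c := 2) (cn := .pp) (n1 := ndF0q0) (n2 := ndF1q2b) (pc := pcF2) (cut := cut_pp_022_b) (xt := Ext.none) (P1 := 0) (W1 := 536870912) (P2 := 1239849684) (W2 := 370763052) (P3 := 335544320) (W3 := 67108864)
    rfl (fun _ => rfl) s2_pp_022_b

noncomputable def f_pp_023 : ℕ → ℕ → ℕ → ℕ → Bool := onCell 0 536870912 1073741824 536870912 335544320 67108864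
    (rowF 1 false true true .up 0 2 3 (qsf 0 536870912 1610612736 536870912 2) ndF0q0 ndF1q3 pcF2 Cut.none Ext.none)

def k0_pp_023 : ∃ t, chk3 f_pp_023 t 1 1 1 = true :=
  ⟨(a (b (a (l 1) (b (l 1) (a (l 1) (l 243235782711)))) (b (a (b (l 1) (l 266321444551)) (b (l 276522335831) (l 296387018103))) (a (b (l 283501742311) (l 295313377255)) (b (l 17232608) (l 17351448))))) (b (a (b (a (l 1) (l 275984888023)) (a (l 258268336103) (l 177201288247))) (a (b (l 248605020455) (l 17108008)) (b (b (l 241625837511) (l 17080800)) (l 17148320)))) (b (a (b (l 17154848) (l 17255480)) (b (l 17218440) (l 17271024))) (a (b (l 17351344) (l 17399528)) (b (l 17325464) (l 17304960)))))), by decide +kernel⟩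

theorem c_pp_023 : CertF 0 536870912 1610612736 536870912 335544320 67108864 false true true .up 0 2 3
    ndF0q0 ndF1q3 pcF2 Cut.none Ext.none :=
  certF1 (fam := false) (s1 := true) (s2 := true) (a := 0) (b := 2) (c := 3) (cn := .up) (n1 := ndF0q0) (n2 := ndF1q3) (pc := pcF2) (cut := Cut.none) (xt := Ext.none) (P1 := 0) (W1 := 536870912) (P2 := 1610612736) (W2 := 536870912) (P3 := 335544320) (W3 := 67108864)
    rfl (fun _ => rfl) k0_pp_023

noncomputable def f_pp_033 : ℕ → ℕ → ℕ → ℕ → Bool := onCell 1610612736 536870912 1610612736 536870912 335544320 67108864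
    (rowF 2 false true true .pnn 0 3 3 (qsf 0 536870912 1610612736 536870912 3) ndF0q0 ndF1q3 pcF3 Cut.none Ext.none)

def k0_pp_033 : ∃ t, chk3 f_pp_033 t 1 1 1 = true :=
  ⟨(a (b (a (b (a (l 17339712) (l 17408328)) (a (l 17287032) (l 17344768))) (a (l 369939460103) (l 380677033767))) (a (b (a (l 17215192) (l 17268656)) (a (l 17105896) (l 17159248))) (b (a (l 17310256) (l 17347248)) (a (l 17191136) (l 17214048))))) (a (a (b (l 404299008359) (b (l 17390352) (l 4))) (b (l 1) (l 4))) (l 4))), by decide +kernel⟩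

theorem c_pp_033 : CertF 0 536870912 1610612736 536870912 335544320 67108864 false true true .pnn 0 3 3
    ndF0q0 ndF1q3 pcF3 Cut.none Ext.none :=
  certF2 (fam := false) (s1 := true) (s2 := true) (a := 0) (b := 3) (c := 3) (cn := .pnn) (n1 := ndF0q0) (n2 := ndF1q3) (pc := pcF3) (cut := Cut.none) (xt := Ext.none) (P1 := 0) (W1 := 536870912) (P2 := 1610612736) (W2 := 536870912) (P3 := 335544320) (W3 := 67108864)
    rfl (fun _ => rfl) k0_pp_033

noncomputable def f_pp_101 : ℕ → ℕ → ℕ → ℕ → Bool := onCell 536870912 536870912 536870912 536870912 335544320 67108864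
    (rowF 0 false true true .npn 1 0 1 (qsf 536870912 536870912 536870912 536870912 0) ndF0q1 ndF1q1 pcF0 Cut.none Ext.none)

def k0_pp_101 : ∃ t, chk3 f_pp_101 t 1 1 1 = true :=
  ⟨(l 3), by decide +kernel⟩

theorem c_pp_101 : CertF 536870912 536870912 536870912 536870912 335544320 67108864 false true true .npn 1 0 1
    ndF0q1 ndF1q1 pcF0 Cut.none Ext.none :=
  certF0 (fam := false) (s1 := true) (s2 := true) (a := 1) (b := 0) (c := 1) (cn := .npn) (n1 := ndF0q1) (n2 := ndF1q1) (pc := pcF0) (cut := Cut.none) (xt := Ext.none) (P1 := 536870912) (W1 := 536870912) (P2 := 536870912) (W2 := 536870912) (P3 := 335544320) (W3 := 67108864)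
    rfl k0_pp_101

noncomputable def f_pp_102_a : ℕ → ℕ → ℕ → ℕ → Bool := onCell 536870912 536870912 0 536870912 335544320 67108864
    (rowF 0 false true true .npp 1 0 2 (qsf 536870912 536870912 0 536870912 0) ndF0q1 ndF1q2a pcF0 Cut.none Ext.none)

def k0_pp_102_a : ∃ t, chk3 f_pp_102_a t 1 1 1 = true :=
  ⟨(l 3), by decide +kernel⟩

theorem c_pp_102_a : CertF 536870912 536870912 0 536870912 335544320 67108864 false true true .npp 1 0 2
    ndF0q1 ndF1q2a pcF0 Cut.none Ext.none :=
  certF0 (fam := false) (s1 := true) (s2 := true) (a := 1) (b := 0) (c := 2) (cn := .npp) (n1 := ndF0q1) (n2 := ndF1q2a) (pc := pcF0) (cut := Cut.none) (xt := Ext.none) (P1 := 536870912) (W1 := 536870912) (P2 := 0) (W2 := 536870912) (P3 := 335544320) (W3 := 67108864)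
    rfl k0_pp_102_a

noncomputable def f_pp_102_b : ℕ → ℕ → ℕ → ℕ → Bool := onCell 536870912 536870912 0 536870912 335544320 67108864
    (rowF 1 false true true .npp 1 0 2 (qsf 536870912 536870912 1239849684 370763052 0) ndF0q1 ndF1q2b pcF0 Cut.none Ext.none)

def k0_pp_102_b : ∃ t, chk3 f_pp_102_b t 1 1 1 = true :=
  ⟨(l 3), by decide +kernel⟩

theorem c_pp_102_b : CertF 536870912 536870912 1239849684 370763052 335544320 67108864 false true true .npp 1 0 2
    ndF0q1 ndF1q2b pcF0 Cut.none Ext.none :=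
  certF1 (fam := false) (s1 := true) (s2 := true) (a := 1) (b := 0) (c := 2) (cn := .npp) (n1 := ndF0q1) (n2 := ndF1q2b) (pc := pcF0) (cut := Cut.none) (xt := Ext.none) (P1 := 536870912) (W1 := 536870912) (P2 := 1239849684) (W2 := 370763052) (P3 := 335544320) (W3 := 67108864)
    rfl (fun _ => rfl) k0_pp_102_b

noncomputable def f_pp_112_a : ℕ → ℕ → ℕ → ℕ → Bool := onCell 536870912 536870912 0 536870912 335544320 67108864
    (rowF 0 false true true .dn 1 1 2 (qsf 536870912 536870912 0 536870912 1) ndF0q1 ndF1q2a pcF1 Cut.none Ext.none)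

def k0_pp_112_a : ∃ t, chk3 f_pp_112_a t 1 1 1 = true :=
  ⟨(l 3), by decide +kernel⟩

theorem c_pp_112_a : CertF 536870912 536870912 0 536870912 335544320 67108864 false true true .dn 1 1 2
    ndF0q1 ndF1q2a pcF1 Cut.none Ext.none :=
  certF0 (fam := false) (s1 := true) (s2 := true) (a := 1) (b := 1) (c := 2) (cn := .dn) (n1 := ndF0q1) (n2 := ndF1q2a) (pc := pcF1) (cut := Cut.none) (xt := Ext.none) (P1 := 536870912) (W1 := 536870912) (P2 := 0) (W2 := 536870912) (P3 := 335544320) (W3 := 67108864)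
    rfl k0_pp_112_a

noncomputable def f_pp_112_b : ℕ → ℕ → ℕ → ℕ → Bool := onCell 536870912 536870912 1239849684 370763052 335544320 67108864
    (rowF 0 false true true .dn 1 1 2 (qsf 536870912 536870912 1239849684 370763052 1) ndF0q1 ndF1q2b pcF1 Cut.none Ext.none)

def k0_pp_112_b : ∃ t, chk3 f_pp_112_b t 1 1 1 = true :=
  ⟨(a (b (l 3) (a (b (a (b (l 3) (a (b (l 95731377575) (l 65129836919)) (l 3))) (l 3)) (a (b (a (b (l 17090232) (l 17105880)) (b (l 99489585815) (l 81235978983))) (a (l 17136872) (b (l 17122448) (l 17138280)))) (b (l 3) (a (l 84457118839) (l 3))))) (l 3))) (l 3)), by decide +kernel⟩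

theorem c_pp_112_b : CertF 536870912 536870912 1239849684 370763052 335544320 67108864 false true true .dn 1 1 2
    ndF0q1 ndF1q2b pcF1 Cut.none Ext.none :=
  certF0 (fam := false) (s1 := true) (s2 := true) (a := 1) (b := 1) (c := 2) (cn := .dn) (n1 := ndF0q1) (n2 := ndF1q2b) (pc := pcF1) (cut := Cut.none) (xt := Ext.none) (P1 := 536870912) (W1 := 536870912) (P2 := 1239849684) (W2 := 370763052) (P3 := 335544320) (W3 := 67108864)
    rfl k0_pp_112_b

noncomputable def cut_pp_113 : Cut := Cut.of [[⟨0, 1, 0, 67108864⟩, ⟨1, 1, 0, 67108864⟩, ⟨2, 2, 0, 16777216⟩]]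

noncomputable def f_pp_113 : ℕ → ℕ → ℕ → ℕ → Bool := onCell 536870912 536870912 536870912 536870912 335544320 67108864
    (rowF 1 false true true .nn 1 1 3 (qsf 536870912 536870912 1610612736 536870912 1) ndF0q1 ndF1q3 pcF1 cut_pp_113 Ext.none)

def k0_pp_113 : ∃ t, chk3 f_pp_113 t 1 1 1 = true :=
  ⟨(b (l 3) (a (b (a (l 3) (l 3)) (a (b (a (b (l 1) (a (l 1) (l 134251678711))) (a (b (l 120293185015) (l 17079944)) (b (l 3) (l 17102480)))) (a (b (a (l 17031568) (l 17080120)) (l 17100856)) (b (a (l 17111920) (l 17129984)) (l 17158136)))) (b (b (l 3) (a (a (l 62982305239) (l 17117008)) (a (l 17110488) (l 17095520)))) (a (b (a (l 17136632) (l 17133312)) (l 17160832)) (b (a (l 17120640) (l 17099656)) (l 17122808)))))) (b (l 3) (a (b (a (l 3) (l 3)) (a (b (l 87678290967) (l 17055344)) (b (l 126869997239) (l 16992536)))) (b (l 3) (a (b (l 455971509191) (a (l 16958864) (b (l 218674480343) (l 16877136)))) (b (l 3) (a (b (l 442012727527) (a (l 16896280) (a (l 264845284999) (l 288467566759))))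 (b (l 3) (b (a (l 459192508775) (l 3)) (a (b (l 250349699015) (l 16788936)) (b (l 480667285927) (a (b (l 260013336055) (l 16794032)) (l 6)))))))))))))), by decide +kernel⟩

theorem c_pp_113 : CertF 536870912 536870912 1610612736 536870912 335544320 67108864 false true true .nn 1 1 3
    ndF0q1 ndF1q3 pcF1 cut_pp_113 Ext.none :=
  certF1 (fam := false) (s1 := true) (s2 := true) (a := 1) (b := 1) (c := 3) (cn := .nn) (n1 := ndF0q1) (n2 := ndF1q3) (pc := pcF1) (cut := cut_pp_113) (xt := Ext.none) (P1 := 536870912) (W1 := 536870912) (P2 := 1610612736) (W2 := 536870912) (P3 := 335544320) (W3 := 67108864)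
    rfl (fun _ => rfl) k0_pp_113

noncomputable def cut_pp_123 : Cut := Cut.of [[⟨0, 1, 0, 67108864⟩, ⟨1, 1, 0, 67108864⟩, ⟨2, 2, 0, 16777216⟩]]

noncomputable def f_pp_123 : ℕ → ℕ → ℕ → ℕ → Bool := onCell 536870912 536870912 1073741824 536870912 335544320 67108864
    (rowF 1 false true true .npn 1 2 3 (qsf 536870912 536870912 1610612736 536870912 2) ndF0q1 ndF1q3 pcF2 cut_pp_123 Ext.none)

def k0_pp_123 : ∃ t, chk3 f_pp_123 t 1 1 1 = true :=
  ⟨(a (b (a (b (b (b (a (l 17135432) (l 17179256)) (a (l 17133624) (l 17161072))) (a (l 17134200) (l 17137944))) (a (l 17148856) (l 17119848))) (b (b (a (b (l 17170376) (l 17142352)) (l 17105968)) (a (l 17105464) (l 17046432))) (a (l 17066672) (l 16995792)))) (a (b (b (l 17161880) (l 17194344)) (b (l 17463400) (l 17162880))) (b (b (l 17048784) (a (l 17123256) (l 17188456))) (a (b (l 17125680) (l 2)) (l 2))))) (b (a (b (b (a (l 17032608) (l 16946376)) (a (l 16968272) (l 16884768))) (b (l 16943896) (l 17110672))) (b (b (a (l 16967208)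 (b (a (l 16817016) (a (l 16813496) (b (a (l 16784888) (b (l 6) (l 16776536))) (l 16775080)))) (l 219681128823))) (a (l 16809304) (b (l 16912832) (l 2)))) (a (b (l 16788056) (l 2)) (l 2)))) (a (b (a (b (l 16996520) (l 2)) (l 2)) (l 2)) (l 2)))), by decide +kernel⟩

theorem c_pp_123 : CertF 536870912 536870912 1610612736 536870912 335544320 67108864 false true true .npn 1 2 3
    ndF0q1 ndF1q3 pcF2 cut_pp_123 Ext.none :=
  certF1 (fam := false) (s1 := true) (s2 := true) (a := 1) (b := 2) (c := 3) (cn := .npn) (n1 := ndF0q1) (n2 := ndF1q3) (pc := pcF2) (cut := cut_pp_123) (xt := Ext.none) (P1 := 536870912) (W1 := 536870912) (P2 := 1610612736) (W2 := 536870912) (P3 := 335544320) (W3 := 67108864)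
    rfl (fun _ => rfl) k0_pp_123

noncomputable def f_pp_133 : ℕ → ℕ → ℕ → ℕ → Bool := onCell 536870912 536870912 1610612736 536870912 335544320 67108864
    (rowF 0 false true true .dn 1 3 3 (qsf 536870912 536870912 1610612736 536870912 3) ndF0q1 ndF1q3 pcF3 Cut.none Ext.none)

def k0_pp_133 : ∃ t, chk3 f_pp_133 t 1 1 1 = true :=
  ⟨(a (b (l 1) (a (b (l 1) (a (l 363496037975) (l 1))) (l 1))) (l 1)), by decide +kernel⟩

theorem c_pp_133 : CertF 536870912 536870912 1610612736 536870912 335544320 67108864 false true true .dn 1 3 3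
    ndF0q1 ndF1q3 pcF3 Cut.none Ext.none :=
  certF0 (fam := false) (s1 := true) (s2 := true) (a := 1) (b := 3) (c := 3) (cn := .dn) (n1 := ndF0q1) (n2 := ndF1q3) (pc := pcF3) (cut := Cut.none) (xt := Ext.none) (P1 := 536870912) (W1 := 536870912) (P2 := 1610612736) (W2 := 536870912) (P3 := 335544320) (W3 := 67108864)
    rfl k0_pp_133

noncomputable def f_pp_202_a : ℕ → ℕ → ℕ → ℕ → Bool := onCell 0 536870912 0 536870912 335544320 67108864
    (rowF 0 false true true .pp 2 0 2 (qsf 0 536870912 0 536870912 0) ndF0q2 ndF1q2a pcF0 Cut.none Ext.none)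

def k0_pp_202_a : ∃ t, chk3 f_pp_202_a t 1 1 1 = true :=
  ⟨(l 3), by decide +kernel⟩

theorem c_pp_202_a : CertF 0 536870912 0 536870912 335544320 67108864 false true true .pp 2 0 2
    ndF0q2 ndF1q2a pcF0 Cut.none Ext.none :=
  certF0 (fam := false) (s1 := true) (s2 := true) (a := 2) (b := 0) (c := 2) (cn := .pp) (n1 := ndF0q2) (n2 := ndF1q2a) (pc := pcF0) (cut := Cut.none) (xt := Ext.none) (P1 := 0) (W1 := 536870912) (P2 := 0) (W2 := 536870912) (P3 := 335544320) (W3 := 67108864)
    rfl k0_pp_202_a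

noncomputable def f_pp_202_b : ℕ → ℕ → ℕ → ℕ → Bool := onCell 0 536870912 1239849684 370763052 335544320 67108864
    (rowF 0 false true true .pp 2 0 2 (qsf 0 536870912 1239849684 370763052 0) ndF0q2 ndF1q2b pcF0 Cut.none Ext.none)

def k0_pp_202_b : ∃ t, chk3 f_pp_202_b t 1 1 1 = true :=
  ⟨(l 3), by decide +kernel⟩

theorem c_pp_202_b : CertF 0 536870912 1239849684 370763052 335544320 67108864 false true true .pp 2 0 2
    ndF0q2 ndF1q2b pcF0 Cut.none Ext.none :=
  certF0 (fam := false) (s1 := true) (s2 := true) (a := 2) (b := 0) (c := 2) (cn := .pp) (n1 := ndF0q2) (n2 := ndF1q2b) (pc := pcF0) (cut := Cut.none) (xt := Ext.none) (P1 := 0) (W1 := 536870912) (P2 := 1239849684) (W2 := 370763052) (P3 := 335544320) (W3 := 67108864)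
    rfl k0_pp_202_b

noncomputable def f_pp_203 : ℕ → ℕ → ℕ → ℕ → Bool := onCell 0 536870912 0 536870912 335544320 67108864
    (rowF 1 false true true .up 2 0 3 (qsf 0 536870912 1610612736 536870912 0) ndF0q2 ndF1q3 pcF0 Cut.none Ext.none)

def k0_pp_203 : ∃ t, chk3 f_pp_203 t 1 1 1 = true :=
  ⟨(l 3), by decide +kernel⟩

theorem c_pp_203 : CertF 0 536870912 1610612736 536870912 335544320 67108864 false true true .up 2 0 3
    ndF0q2 ndF1q3 pcF0 Cut.none Ext.none :=
  certF1 (fam := false) (s1 := true) (s2 := true) (a := 2) (b := 0) (c := 3) (cn := .up) (n1 := ndF0q2) (n2 := ndF1q3) (pc := pcF0) (cut := Cut.none) (xt := Ext.none) (P1 := 0) (W1 := 536870912) (P2 := 1610612736) (W2 := 536870912) (P3 := 335544320) (W3 := 67108864)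
    rfl (fun _ => rfl) k0_pp_203

noncomputable def cut_pp_213 : Cut := Cut.of [[⟨0, 1, 0, 67108864⟩, ⟨1, 1, 0, 67108864⟩, ⟨2, 2, 0, 16777216⟩]]

noncomputable def f_pp_213 : ℕ → ℕ → ℕ → ℕ → Bool := onCell 0 536870912 1610612736 536870912 335544320 67108864
    (rowF 0 false true true .pnn 2 1 3 (qsf 0 536870912 1610612736 536870912 1) ndF0q2 ndF1q3 pcF1 cut_pp_213 Ext.none)

def k0_pp_213 : ∃ t, chk3 f_pp_213 t 1 1 1 = true :=
  ⟨(b (l 3) (a (l 3) (b (l 3) (a (l 3) (b (l 3) (a (l 3) (b (l 3) (b (l 3) (b (l 3) (l 6)))))))))), by decide +kernel⟩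

theorem c_pp_213 : CertF 0 536870912 1610612736 536870912 335544320 67108864 false true true .pnn 2 1 3
    ndF0q2 ndF1q3 pcF1 cut_pp_213 Ext.none :=
  certF0 (fam := false) (s1 := true) (s2 := true) (a := 2) (b := 1) (c := 3) (cn := .pnn) (n1 := ndF0q2) (n2 := ndF1q3) (pc := pcF1) (cut := cut_pp_213) (xt := Ext.none) (P1 := 0) (W1 := 536870912) (P2 := 1610612736) (W2 := 536870912) (P3 := 335544320) (W3 := 67108864)
    rfl k0_pp_213

noncomputable def f_pm_001 : ℕ → ℕ → ℕ → ℕ → Bool := onCell 0 536870912 536870912 536870912 335544320 67108864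
    (rowF 0 false true false .up 0 0 1 (qsf 0 536870912 536870912 536870912 0) ndF0q0 ndF1q1 pcF0 Cut.none Ext.none)

def k0_pm_001 : ∃ t, chk3 f_pm_001 t 1 1 1 = true :=
  ⟨(l 4), by decide +kernel⟩

theorem c_pm_001 : CertF 0 536870912 536870912 536870912 335544320 67108864 false true false .up 0 0 1
    ndF0q0 ndF1q1 pcF0 Cut.none Ext.none :=
  certF0 (fam := false) (s1 := true) (s2 := false) (a := 0) (b := 0) (c := 1) (cn := .up) (n1 := ndF0q0) (n2 := ndF1q1) (pc := pcF0) (cut := Cut.none) (xt := Ext.none) (P1 := 0) (W1 := 536870912) (P2 := 536870912) (W2 := 536870912) (P3 := 335544320) (W3 := 67108864)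
    rfl k0_pm_001

noncomputable def f_pm_011 : ℕ → ℕ → ℕ → ℕ → Bool := onCell 0 536870912 536870912 536870912 335544320 67108864
    (rowF 0 false true false .pnn 0 1 1 (qsf 0 536870912 536870912 536870912 1) ndF0q0 ndF1q1 pcF1 Cut.none Ext.none)

def k0_pm_011 : ∃ t, chk3 f_pm_011 t 1 1 1 = true :=
  ⟨(l 4), by decide +kernel⟩

theorem c_pm_011 : CertF 0 536870912 536870912 536870912 335544320 67108864 false true false .pnn 0 1 1
    ndF0q0 ndF1q1 pcF1 Cut.none Ext.none :=
  certF0 (fam := false) (s1 := true) (s2 := false) (a := 0) (b := 1) (c := 1) (cn := .pnn) (n1 := ndF0q0) (n2 := ndF1q1) (pc := pcF1) (cut := Cut.none) (xt := Ext.none) (P1 := 0) (W1 := 536870912) (P2 := 536870912) (W2 := 536870912) (P3 := 335544320) (W3 := 67108864)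
    rfl k0_pm_011

noncomputable def cut_pm_012_a : Cut := Cut.of [[⟨0, 0, 0, 67108864⟩, ⟨1, 1, 0, 67108864⟩, ⟨2, 1, 0, 67108864⟩], [⟨0, 0, 1, 33554432⟩, ⟨1, 1, 2, 33554432⟩, ⟨2, 1, 0, 33554432⟩]]

noncomputable def f_pm_012_a : ℕ → ℕ → ℕ → ℕ → Bool := onCell 536870912 536870912 0 536870912 335544320 67108864
    (rowF 2 false true false .pnp 0 1 2 (qsf 0 536870912 0 536870912 1) ndF0q0 ndF1q2a pcF1 cut_pm_012_a Ext.none)

def k0_pm_012_a : ∃ t, chk3 f_pm_012_a t 4 1 1 = true :=
  ⟨(b (a (l 2) (b (l 2) (a (l 2) (l 17035600)))) (b (a (l 2) (b (a (l 2) (l 17006752)) (a (l 17030816) (l 16983584)))) (a (b (a (l 2) (b (l 17078448) (l 17085136))) (a (b (l 17138800) (a (l 17167576) (l 17147288))) (b (a (l 17106792) (l 17073632)) (a (b (l 17114448) (l 17119888)) (b (l 17074848) (c (l 17111608) (l 17039872))))))) (b (a (b (l 17022256) (a (l 17035672) (l 16988648))) (b (l 16956240) (a (l 16946464) (l 16913816)))) (a (b (a (l 17028720) (b (l 16974928) (l 16964416))) (a (b (l 17021808)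 (c (l 17059912) (b (l 16975096) (a (l 16990768) (l 16952272))))) (b (c (l 17003328) (l 16860296)) (c (a (l 17010616) (l 16972080)) (b (a (l 16914704) (l 16868016)) (a (c (l 16933560) (l 16883960)) (c (l 16886896) (b (l 16834704) (l 16788424))))))))) (b (a (b (l 16925832) (l 16910200)) (b (l 16889072) (l 16870688))) (b (a (a (l 16860544) (l 16819968)) (c (l 16911136) (b (l 16795992) (l 16785016)))) (b (c (a (l 16937080) (l 16896368)) (a (a (l 16832200) (l 16809952)) (a (l 16786248) (l 16760952)))) (a (c (a (l 16937592) (l 16918008)) (b (a (l 16824792) (l 16781104)) (c (a (l 16848688) (l 16826496)) (a (a (l 16796552) (l 16785024)) (a (l 16752176) (a (l 16743016) (l 16715824))))))) (c (a (l 16855168) (c (l 16906144) (l 16801448))) (b (a (c (l 16808344) (l 16747512)) (l 16657816)) (c (a (a (l 16808936) (l 16796760)) (a (l 16763224) (c (l 16787048) (l 14)))) (a (a (c (l 16763424) (l 14)) (l 14)) (l 14)))))))))))))), by decide +kernel⟩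

def k1_pm_012_a : ∃ t, chk3 f_pm_012_a t 5 2 1 = true :=
  ⟨(a (b (l 17161208) (a (l 17014192) (l 16974944))) (b (a (l 17013960) (l 16934280)) (a (l 16908768) (l 16807584)))), by decide +kernel⟩

def k2_pm_012_a : ∃ t, chk3 f_pm_012_a t 10 6 1 = true :=
  ⟨(b (a (l 16970816) (l 16912064)) (a (l 16931440) (l 16853720))), by decide +kernel⟩

def k3_pm_012_a : ∃ t, chk3 f_pm_012_a t 10 14 1 = true :=
  ⟨(a (b (l 16889200) (a (l 16875240) (l 16829752))) (b (l 16794368) (l 16683456))), by decide +kernel⟩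

def k4_pm_012_a : ∃ t, chk3 f_pm_012_a t 10 30 1 = true :=
  ⟨(a (b (l 16675472) (a (l 16804096) (l 16751296))) (b (l 16663944) (a (l 16711256) (l 16659824)))), by decide +kernel⟩

def k5_pm_012_a : ∃ t, chk3 f_pm_012_a t 20 31 1 = true :=
  ⟨(b (a (c (l 16845664) (l 16654536)) (a (l 16656696) (l 16668896))) (b (a (c (a (l 16862072) (l 16837168)) (c (l 16668408) (l 14))) (c (a (l 16810512) (l 16760992)) (b (l 16665696) (l 16665680)))) (c (a (c (a (l 16883176) (l 16837640)) (a (b (l 16821448) (c (l 16831856) (l 16778528))) (b (l 16795104) (a (l 16774888) (c (l 16798880) (l 14)))))) (b (a (c (l 16835392) (l 16766968)) (l 16672560)) (c (a (c (l 16846384) (l 16812080)) (a (l 16787248) (c (l 16811424) (l 14)))) (a (a (c (l 16784920) (l 14)) (l 14)) (l 14))))) (a (a (b (l 16661840) (a (c (c (l 16773880) (l 14)) (l 14)) (l 14))) (l 14)) (a (l 14) (b (l 16663792) (c (l 14) (a (l 14) (a (l 14) (a (l 14) (c (l 14) (l 16653368)))))))))))), by decide +kernel⟩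

def k6_pm_012_a : ∃ t, chk3 f_pm_012_a t 21 31 1 = true :=
  ⟨(b (a (c (l 16672232) (l 16656904)) (c (l 16667000) (l 16648816))) (b (a (c (a (l 16730440) (l 16697736)) (l 16662720)) (c (b (l 16672976) (l 16673808)) (l 16661344))) (a (a (b (c (l 16673016) (l 16660048)) (c (c (a (c (l 16796600) (l 14)) (l 14)) (l 14)) (c (l 14) (b (l 16654456) (c (a (l 14) (a (l 14) (l 16656736))) (a (b (l 16652472) (l 16652664)) (l 16651112))))))) (c (l 14) (b (l 16656712) (c (a (l 14) (a (l 14) (a (l 14) (c (l 14) (l 16659288))))) (b (l 16651512) (c (a (b (l 16655520) (l 16661016)) (l 16654288)) (a (l 16649752) (l 16648496)))))))) (b (c (a (l 14) (l 16673200)) (a (l 16653776) (l 16651232))) (c (a (l 14) (a (l 14) (a (l 14) (a (l 14) (c (l 14) (c (l 14) (l 16670432))))))) (a (c (b (l 16660288) (c (a (l 14) (a (l 14) (l 16662728))) (a (b (l 16658568) (l 16664112)) (l 16657456)))) (a (c (l 16652728) (l 16647024)) (a (l 16649008) (l 16648456)))) (a (b (l 16673800) (c (c (a (l 16662096) (l 16661488))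 (l 16656288)) (l 16648048))) (c (b (l 16657160) (c (l 16660616) (l 16655216))) (l 16646720))))))))), by decide +kernel⟩

def k7_pm_012_a : ∃ t, chk3 f_pm_012_a t 11 6 1 = true :=
  ⟨(b (a (l 16822672) (l 16692536)) (a (l 16720640) (l 16647432))), by decide +kernel⟩

def k8_pm_012_a : ∃ t, chk3 f_pm_012_a t 11 14 1 = true :=
  ⟨(a (b (l 16662360) (l 16648688)) (b (l 16629856) (l 16627616))), by decide +kernel⟩

def k9_pm_012_a : ∃ t, chk3 f_pm_012_a t 11 30 1 = true :=
  ⟨(b (a (l 16645872) (l 16630648)) (a (a (l 16650584) (l 16642952)) (a (l 16637704) (l 16634392)))), by decide +kernel⟩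

def k10_pm_012_a : ∃ t, chk3 f_pm_012_a t 22 31 1 = true :=
  ⟨(b (a (c (l 16663776) (l 16642248)) (c (l 16657384) (l 16637256))) (b (a (c (a (l 16668352) (l 16665440)) (l 16666744)) (c (a (l 16662896) (l 16660736)) (l 16663216))) (b (a (c (a (l 16670272) (l 16667712)) (a (l 16649064) (l 16647256))) (c (a (l 16665528) (l 16663728)) (a (l 16645792) (l 16644704)))) (a (c (a (c (l 14) (b (l 16666096) (c (a (l 14) (a (l 14) (l 16668688))) (a (a (l 16665128) (l 16664560)) (l 16663760))))) (c (a (l 14) (a (l 14) (b (l 16673224) (c (l 14) (l 16676904))))) (b (l 16663912) (a (c (a (l 16668152) (l 16667632)) (l 16662776)) (c (l 16670832) (l 16661880)))))) (a (c (b (l 16655552) (c (a (l 16659536) (l 16658552)) (a (l 16654240) (l 16653352)))) (a (l 16645856) (l 16645080))) (c (a (a (l 16654848) (l 16654432)) (l 16653848)) (l 16651944)))) (c (c (b (a (l 16671880) (l 16670080)) (b (a (c (l 16675072) (l 16670192)) (c (l 16673272) (l 16668568))) (a (c (a (l 14) (c (l 14) (l 16673912)))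 (a (c (l 16672408) (l 16669944)) (l 16670288))) (c (a (c (l 16675416) (l 16673040)) (l 16678680)) (a (l 16669488) (l 16668784)))))) (a (b (l 16662080) (c (a (l 16666000) (l 16665184)) (a (l 16661072) (l 16660344)))) (b (l 16660632) (a (l 16672568) (l 16661496))))) (a (c (a (l 16653152) (l 16652536)) (l 16643040)) (c (b (l 16651184) (l 16662880)) (l 16642368)))))))), by decide +kernel⟩

def k11_pm_012_a : ∃ t, chk3 f_pm_012_a t 23 31 1 = true :=
  ⟨(b (a (c (l 16653584) (l 16634632)) (c (l 16651416) (l 16633544))) (b (a (c (a (l 16659664) (l 16659392)) (l 16661960)) (c (l 16658568) (l 16641224))) (a (c (b (a (l 16662976) (l 16663056)) (a (a (c (b (l 16669336) (c (l 16672840) (l 16668256))) (l 16671232)) (c (b (l 16669440) (c (l 16672976) (l 16668440))) (l 16660992))) (c (a (c (l 16677608) (l 16667888)) (c (l 16672296) (l 16667880))) (b (l 16660544) (l 16661912))))) (b (a (l 16644536) (l 16645096)) (a (c (b (l 16651048) (l 16652368)) (l 16642584)) (c (l 16652344) (l 16643456)))))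 (c (b (c (l 16666864) (l 16658320)) (c (a (b (l 16669184) (a (l 16670664) (l 16670488))) (a (l 16680000) (l 16669192))) (b (l 16660488) (a (l 16662008) (l 16661856))))) (b (l 16645520) (a (c (l 16652688) (l 16644096)) (a (l 16648624) (l 16648728)))))))), by decide +kernel⟩

def k12_pm_012_a : ∃ t, chk3 f_pm_012_a t 3 2 1 = true :=
  ⟨(a (a (b (a (l 16853824) (l 16772536)) (a (l 16717840) (l 16652632))) (b (a (l 16694136) (l 16619296)) (a (l 16677736) (b (l 16550720) (l 16523968))))) (a (b (a (l 16572776) (l 16598176)) (a (b (l 16498680) (l 16483016)) (b (l 16456032) (l 16473552)))) (b (a (b (l 16452432) (l 16428712)) (b (l 16404192) (l 16389848))) (a (a (l 16431416) (l 16460064)) (b (l 16427616) (b (l 16426392) (l 16485392))))))), by decide +kernel⟩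

def k13_pm_012_a : ∃ t, chk3 f_pm_012_a t 6 3 1 = true :=
  ⟨(b (a (b (a (l 16640192) (l 16593032)) (a (l 16612600) (l 16600392))) (b (a (l 16552472) (l 16514840)) (a (l 16593280) (b (l 16519816) (l 16531072))))) (b (a (a (b (l 16606640) (l 16611704)) (b (l 16583312) (l 16616096))) (a (b (l 16564768) (l 16603728)) (b (l 16548696) (l 16594272)))) (a (b (a (b (l 16620072) (a (l 16630432) (l 16626072))) (b (l 16608096) (a (l 16621232) (l 16617296)))) (a (b (b (l 16667360) (a (l 16642728) (l 16640104))) (b (c (a (l 16656536) (l 16653816)) (a (l 16640608) (l 16639560))) (a (c (b (l 16682056) (c (a (b (l 16667816) (l 16669400)) (l 16667664)) (a (l 16660696) (l 16660136)))) (b (l 16645456) (a (l 16659320) (l 16648864)))) (a (c (c (l 16675320) (l 16657680)) (l 16657448)) (c (b (l 16658296) (l 16662000)) (l 16646760)))))) (b (a (l 16665192) (l 16652488)) (b (a (c (l 16650696) (l 16638312)) (l 16664504)) (a (a (c (l 16658992) (l 16646520)) (c (l 16657856) (l 16646344))) (c (a (l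 16657112) (l 16657808)) (l 16647288))))))) (b (a (b (l 16600664) (l 16636464)) (b (l 16596528) (l 16635800))) (b (a (a (l 16631776) (l 16632680)) (a (l 16634184) (l 16636320))) (a (b (a (l 16645208) (l 16647456)) (a (c (l 16680264) (l 16650640)) (c (l 16661656) (l 16654512)))) (b (a (l 16650240) (l 16653616)) (a (c (l 16664520) (l 16658904)) (c (l 16667952) (l 16663840)))))))))), by decide +kernel⟩

def k14_pm_012_a : ∃ t, chk3 f_pm_012_a t 7 3 1 = true :=
  ⟨(b (a (b (a (l 16485832) (b (l 16461192) (l 16474048))) (a (b (l 16500600) (l 16518392)) (b (l 16492528) (l 16537976)))) (a (b (l 16497544) (b (l 16510248) (l 16561568))) (b (b (l 16526688) (a (l 16478872) (l 16496448))) (a (c (l 16586776) (l 16584456)) (b (l 16545368) (l 16598640)))))) (a (b (a (b (l 16542880) (l 16616360)) (b (a (l 16546192) (l 16570488)) (a (l 16603360) (l 16609568)))) (b (a (a (l 16630424) (l 16659384)) (b (l 16660072) (a (l 16637624) (l 16668160)))) (b (a (a (l 16642592) (l 16652752)) (a (l 16684208)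 (b (l 16667056) (l 16680968)))) (b (a (a (l 16661040) (l 16672232)) (a (l 16683672) (l 16695376))) (a (a (l 16684576) (c (l 16687232) (l 16684600))) (b (a (l 16694344) (l 16706488)) (a (l 16712128) (c (l 16725400) (l 16713176))))))))) (b (a (b (l 16595480) (a (l 16616416) (l 16634400))) (a (b (l 16617584) (b (l 16606504) (l 16660336))) (a (b (l 16610288) (b (l 16620320) (l 16663768))) (b (l 16640184) (b (l 16629360) (l 6)))))) (b (a (a (b (l 16631008) (l 16678136)) (b (l 16661256) (l 16681344))) (a (b (a (l 16668960) (l 6)) (l 6)) (l 6))) (a (a (b (a (l 16703312) (l 16714216)) (b (a (l 16704320) (l 16710376)) (a (b (l 16715736) (l 16723520)) (l 6)))) (b (b (l 16710120) (l 6)) (l 6))) (l 6)))))), by decide +kernel⟩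

theorem s15_pm_012_a : ∃ t, chk3 f_pm_012_a t 3 3 1 = true := ex3_a k13_pm_012_a k14_pm_012_a

theorem s16_pm_012_a : ∃ t, chk3 f_pm_012_a t 3 1 1 = true := ex3_b k12_pm_012_a s15_pm_012_a

theorem s17_pm_012_a : ∃ t, chk3 f_pm_012_a t 11 31 1 = true := ex3_a k10_pm_012_a k11_pm_012_a

theorem s18_pm_012_a : ∃ t, chk3 f_pm_012_a t 11 15 1 = true := ex3_b k9_pm_012_a s17_pm_012_a

theorem s19_pm_012_a : ∃ t, chk3 f_pm_012_a t 11 7 1 = true := ex3_b k8_pm_012_a s18_pm_012_a

theorem s20_pm_012_a : ∃ t, chk3 f_pm_012_a t 11 3 1 = true := ex3_b k7_pm_012_a s19_pm_012_a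

theorem s21_pm_012_a : ∃ t, chk3 f_pm_012_a t 10 31 1 = true := ex3_a k5_pm_012_a k6_pm_012_a

theorem s22_pm_012_a : ∃ t, chk3 f_pm_012_a t 10 15 1 = true := ex3_b k4_pm_012_a s21_pm_012_a

theorem s23_pm_012_a : ∃ t, chk3 f_pm_012_a t 10 7 1 = true := ex3_b k3_pm_012_a s22_pm_012_a

theorem s24_pm_012_a : ∃ t, chk3 f_pm_012_a t 10 3 1 = true := ex3_b k2_pm_012_a s23_pm_012_a

theorem s25_pm_012_a : ∃ t, chk3 f_pm_012_a t 5 3 1 = true := ex3_a s24_pm_012_a s20_pm_012_a

theorem s26_pm_012_a : ∃ t, chk3 f_pm_012_a t 5 1 1 = true := ex3_b k1_pm_012_a s25_pm_012_a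

theorem s27_pm_012_a : ∃ t, chk3 f_pm_012_a t 2 1 1 = true := ex3_a k0_pm_012_a s26_pm_012_a

theorem s28_pm_012_a : ∃ t, chk3 f_pm_012_a t 1 1 1 = true := ex3_a s27_pm_012_a s16_pm_012_a

theorem c_pm_012_a : CertF 0 536870912 0 536870912 335544320 67108864 false true false .pnp 0 1 2
    ndF0q0 ndF1q2a pcF1 cut_pm_012_a Ext.none :=
  certF2 (fam := false) (s1 := true) (s2 := false) (a := 0) (b := 1) (c := 2) (cn := .pnp) (n1 := ndF0q0) (n2 := ndF1q2a) (pc := pcF1) (cut := cut_pm_012_a) (xt := Ext.none) (P1 := 0) (W1 := 536870912) (P2 := 0) (W2 := 536870912) (P3 := 335544320) (W3 := 67108864)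
    rfl (fun _ => rfl) s28_pm_012_a

noncomputable def cut_pm_012_b : Cut := Cut.of [[⟨0, 0, 0, 67108864⟩, ⟨1, 1, 0, 67108864⟩, ⟨2, 1, 0, 67108864⟩], [⟨0, 0, 1, 33554432⟩, ⟨1, 1, 2, 33554432⟩, ⟨2, 1, 0, 33554432⟩]]

noncomputable def f_pm_012_b : ℕ → ℕ → ℕ → ℕ → Bool := onCell 0 536870912 536870912 536870912 335544320 67108864
    (rowF 1 false true false .pnp 0 1 2 (qsf 0 536870912 1239849684 370763052 1) ndF0q0 ndF1q2b pcF1 cut_pm_012_b Ext.none)

def k0_pm_012_b : ∃ t, chk3 f_pm_012_b t 1 1 1 = true :=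
  ⟨(a (b (l 1) (b (l 1) (a (l 1) (b (a (l 1) (a (b (l 1) (l 16708392)) (b (l 16707672) (l 16547416)))) (a (b (a (l 1) (b (l 1) (l 16515400))) (a (b (l 1) (l 127808251991)) (b (l 118681344199) (l 16375904)))) (b (a (l 16569280) (l 16408672)) (b (l 16362344) (l 16369080)))))))) (b (b (l 1) (a (l 1) (b (a (l 1) (l 182570862647)) (a (l 148210694967) (l 17170448))))) (a (b (a (b (l 1) (a (l 222298060567) (b (l 16811816) (l 16670968)))) (b (a (l 246994530855) (l 62311182455)) (a (l 16743608) (l 16617832)))) (a (b (a (b (l 16594760) (l 16466400)) (b (l 16520128) (l 16358992))) (b (a (l 16284576) (l 16245600)) (a (l 16284248) (l 16249128)))) (b (b (a (l 16442184) (l 16374016)) (l 16277696)) (b (l 16244704) (b (l 16251744) (l 16253608)))))) (b (b (a (l 31172686727) (l 16849720)) (a (l 16676784) (l 16835280))) (a (b (b (l 16645072) (l 16671312)) (b (l 16716632) (a (l 16666760) (l 16871312)))) (b (l 16916656) (a (l 16988672) (l 17098832)))))))), by decide +kernel⟩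

theorem c_pm_012_b : CertF 0 536870912 1239849684 370763052 335544320 67108864 false true false .pnp 0 1 2
    ndF0q0 ndF1q2b pcF1 cut_pm_012_b Ext.none :=
  certF1 (fam := false) (s1 := true) (s2 := false) (a := 0) (b := 1) (c := 2) (cn := .pnp) (n1 := ndF0q0) (n2 := ndF1q2b) (pc := pcF1) (cut := cut_pm_012_b) (xt := Ext.none) (P1 := 0) (W1 := 536870912) (P2 := 1239849684) (W2 := 370763052) (P3 := 335544320) (W3 := 67108864)
    rfl (fun _ => rfl) k0_pm_012_b

noncomputable def cut_pm_022_a : Cut := Cut.of [[⟨0, 0, 0, 67108864⟩, ⟨1, 1, 0, 67108864⟩, ⟨2, 1, 0, 67108864⟩]]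

noncomputable def f_pm_022_a : ℕ → ℕ → ℕ → ℕ → Bool := onCell 0 536870912 0 536870912 335544320 67108864
    (rowF 0 false true false .pp 0 2 2 (qsf 0 536870912 0 536870912 2) ndF0q0 ndF1q2a pcF2 cut_pm_022_a Ext.none)

def k0_pm_022_a : ∃ t, chk3 f_pm_022_a t 1 1 1 = true :=
  ⟨(a (b (a (a (b (a (l 16569240) (l 16515528)) (b (a (a (l 16516416) (l 16496968)) (l 16468384)) (a (c (l 16594512) (l 16593136)) (l 16532072)))) (b (b (l 16462376) (a (l 16429448) (l 16425256))) (b (a (l 16446088) (l 16461416)) (a (l 16503840) (b (l 16457088) (l 16492256)))))) (a (a (b (b (l 16411968) (l 16439112)) (b (l 16473656) (b (l 16446648) (l 16459432)))) (b (b (l 1) (l 1)) (l 1))) (l 1))) (a (b (a (a (a (b (l 16637032) (b (l 16624608) (l 16668376))) (b (l 16573392) (a (l 16661216) (l 16629024)))) (b (a (l 16551864) (l 16535600)) (b (l 16594816) (a (l 16604808) (l 16620400))))) (b (a (a (l 16552896) (l 16548160)) (b (l 14528568247) (a (l 16510048) (l 1)))) (a (b (a (l 16566296) (l 16560024))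 (a (b (l 16564896) (l 16578904)) (b (l 16557760) (l 1)))) (b (a (l 16531872) (l 1)) (l 1))))) (a (a (b (b (a (b (l 16666120) (l 16700480)) (l 16651160)) (l 6)) (l 6)) (a (b (b (a (l 16638360) (l 16645752)) (l 6)) (l 6)) (b (a (b (l 16642376) (l 6)) (b (b (l 16599256) (l 16615136)) (b (l 16631720) (l 1)))) (l 1)))) (b (b (a (a (b (l 16593592) (l 16608960)) (l 1)) (l 1)) (l 1)) (l 1)))) (b (l 1) (l 1)))) (l 1)), by decide +kernel⟩

theorem c_pm_022_a : CertF 0 536870912 0 536870912 335544320 67108864 false true false .pp 0 2 2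
    ndF0q0 ndF1q2a pcF2 cut_pm_022_a Ext.none :=
  certF0 (fam := false) (s1 := true) (s2 := false) (a := 0) (b := 2) (c := 2) (cn := .pp) (n1 := ndF0q0) (n2 := ndF1q2a) (pc := pcF2) (cut := cut_pm_022_a) (xt := Ext.none) (P1 := 0) (W1 := 536870912) (P2 := 0) (W2 := 536870912) (P3 := 335544320) (W3 := 67108864)
    rfl k0_pm_022_a

noncomputable def cut_pm_022_b : Cut := Cut.of [[⟨0, 0, 0, 67108864⟩, ⟨1, 1, 0, 67108864⟩, ⟨2, 1, 0, 67108864⟩]]

noncomputable def f_pm_022_b : ℕ → ℕ → ℕ → ℕ → Bool := onCell 0 536870912 1073741824 536870912 335544320 67108864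
    (rowF 1 false true false .pp 0 2 2 (qsf 0 536870912 1239849684 370763052 2) ndF0q0 ndF1q2b pcF2 cut_pm_022_b Ext.none)

def k0_pm_022_b : ∃ t, chk3 f_pm_022_b t 1 1 1 = true :=
  ⟨(a (b (a (b (a (b (l 1) (a (b (l 1) (a (l 1) (l 16538000))) (b (l 124050201175) (l 64994310871)))) (b (a (b (l 1) (l 83248011703)) (b (l 60699422359) (l 16456568))) (a (a (l 16533736) (l 16461608)) (l 16423488)))) (a (b (a (b (l 16537760) (l 16455624)) (l 16474000)) (a (b (l 16400184) (l 16330992)) (l 16301048))) (b (l 16399632) (l 16271632)))) (b (b (a (b (a (l 16450760) (l 16359448)) (a (l 16363224) (l 16317856))) (b (a (l 16337560) (l 16323824)) (a (l 16279296) (l 16249280)))) (a (a (l 16398776) (l 16338624)) (b (l 16269488) (l 16191304)))) (b (a (b (l 16223552) (l 16173200)) (b (l 16212512) (l 16470176))) (a (l 16320704) (l 16762744))))) (b (a (b (a (b (a (l 16270712) (l 16177912)) (l 16217976)) (l 16350168)) (a (b (l 16323184) (l 16590320)) (l 16787808))) (b (a (l 16750768) (l 17028808))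 (l 17120680))) (a (b (a (l 16892824) (l 17069744)) (l 4)) (b (l 17250912) (l 2))))) (b (a (b (b (a (b (a (c (l 16267304) (l 16250496)) (b (l 16255024) (l 16244240))) (a (l 16231560) (l 16228240))) (b (a (b (l 16289656) (l 16304752)) (b (c (l 16667288) (l 16325048)) (l 16604568))) (a (l 16493072) (l 16743904)))) (a (b (a (l 16204072) (l 16441056)) (l 16532400)) (b (l 16591736) (l 16940248)))) (b (a (b (l 16725504) (l 16879584)) (l 17097080)) (a (l 17054816) (l 17235728)))) (b (b (a (b (a (b (c (l 16907256) (l 16605040)) (l 16835312)) (b (l 16828232) (l 17010744))) (a (l 16937320) (l 17083984))) (a (b (l 17122024) (l 17192112)) (l 17246280))) (a (b (l 17109776) (l 17183896)) (l 17295824))) (a (b (l 17265672) (l 2)) (l 2)))) (b (a (b (l 17271960) (l 2)) (l 2)) (l 2)))), by decide +kernel⟩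

theorem c_pm_022_b : CertF 0 536870912 1239849684 370763052 335544320 67108864 false true false .pp 0 2 2
    ndF0q0 ndF1q2b pcF2 cut_pm_022_b Ext.none :=
  certF1 (fam := false) (s1 := true) (s2 := false) (a := 0) (b := 2) (c := 2) (cn := .pp) (n1 := ndF0q0) (n2 := ndF1q2b) (pc := pcF2) (cut := cut_pm_022_b) (xt := Ext.none) (P1 := 0) (W1 := 536870912) (P2 := 1239849684) (W2 := 370763052) (P3 := 335544320) (W3 := 67108864)
    rfl (fun _ => rfl) k0_pm_022_b

noncomputable def f_pm_023 : ℕ → ℕ → ℕ → ℕ → Bool := onCell 0 536870912 1073741824 536870912 335544320 67108864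
    (rowF 1 false true false .up 0 2 3 (qsf 0 536870912 1610612736 536870912 2) ndF0q0 ndF1q3 pcF2 Cut.none Ext.none)

def k0_pm_023 : ∃ t, chk3 f_pm_023 t 1 1 1 = true :=
  ⟨(a (b (b (l 1) (a (l 1) (b (l 1) (l 287259113367)))) (b (a (b (l 1) (l 297996288231)) (b (l 330745777383) (l 17110872))) (a (b (l 350073093943) (l 4)) (b (l 17243328) (l 17312888))))) (b (a (a (b (l 1) (l 324840923559)) (b (l 283501702423) (l 336652429127))) (b (a (l 301755840039) (l 299608808311)) (a (l 17331872) (l 17369704)))) (b (a (b (l 17287272) (l 17338440)) (l 17363464)) (a (l 17348208) (l 17299144))))), by decide +kernel⟩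

theorem c_pm_023 : CertF 0 536870912 1610612736 536870912 335544320 67108864 false true false .up 0 2 3
    ndF0q0 ndF1q3 pcF2 Cut.none Ext.none :=
  certF1 (fam := false) (s1 := true) (s2 := false) (a := 0) (b := 2) (c := 3) (cn := .up) (n1 := ndF0q0) (n2 := ndF1q3) (pc := pcF2) (cut := Cut.none) (xt := Ext.none) (P1 := 0) (W1 := 536870912) (P2 := 1610612736) (W2 := 536870912) (P3 := 335544320) (W3 := 67108864)
    rfl (fun _ => rfl) k0_pm_023

noncomputable def f_pm_033 : ℕ → ℕ → ℕ → ℕ → Bool := onCell 1610612736 536870912 1610612736 536870912 335544320 67108864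
    (rowF 2 false true false .pnn 0 3 3 (qsf 0 536870912 1610612736 536870912 3) ndF0q0 ndF1q3 pcF3 Cut.none Ext.none)

def k0_pm_033 : ∃ t, chk3 f_pm_033 t 1 1 1 = true :=
  ⟨(a (b (a (a (b (l 4) (l 17335120)) (l 4)) (l 4)) (a (b (a (l 17285952) (l 17298392)) (a (l 17137680) (l 17173008))) (b (l 4) (a (l 17186816) (l 4))))) (l 4)), by decide +kernel⟩

theorem c_pm_033 : CertF 0 536870912 1610612736 536870912 335544320 67108864 false true false .pnn 0 3 3
    ndF0q0 ndF1q3 pcF3 Cut.none Ext.none :=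
  certF2 (fam := false) (s1 := true) (s2 := false) (a := 0) (b := 3) (c := 3) (cn := .pnn) (n1 := ndF0q0) (n2 := ndF1q3) (pc := pcF3) (cut := Cut.none) (xt := Ext.none) (P1 := 0) (W1 := 536870912) (P2 := 1610612736) (W2 := 536870912) (P3 := 335544320) (W3 := 67108864)
    rfl (fun _ => rfl) k0_pm_033

noncomputable def f_pm_101 : ℕ → ℕ → ℕ → ℕ → Bool := onCell 0 536870912 536870912 536870912 335544320 67108864
    (rowF 2 false true false .npn 1 0 1 (qsf 536870912 536870912 536870912 536870912 0) ndF0q1 ndF1q1 pcF0 Cut.none Ext.none)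

def k0_pm_101 : ∃ t, chk3 f_pm_101 t 1 1 1 = true :=
  ⟨(a (b (l 4) (a (b (l 4) (a (b (a (l 17464664) (l 4)) (b (l 17552576) (l 17569632))) (b (l 4) (b (l 4) (l 17572816))))) (l 4))) (l 4)), by decide +kernel⟩

theorem c_pm_101 : CertF 536870912 536870912 536870912 536870912 335544320 67108864 false true false .npn 1 0 1
    ndF0q1 ndF1q1 pcF0 Cut.none Ext.none :=
  certF2 (fam := false) (s1 := true) (s2 := false) (a := 1) (b := 0) (c := 1) (cn := .npn) (n1 := ndF0q1) (n2 := ndF1q1) (pc := pcF0) (cut := Cut.none) (xt := Ext.none) (P1 := 536870912) (W1 := 536870912) (P2 := 536870912) (W2 := 536870912) (P3 := 335544320) (W3 := 67108864)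
    rfl (fun _ => rfl) k0_pm_101

end Pool.Agent.Strip051.G.I5_16_3_8.Tab.C.FB01

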