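import Pool.Agent.Strip051.G.I5_16_3_8.Gn
import Pool.Agent.Strip051.PB.Corns

/-! # Certificates of the aligned corners (generated) -/

set_option linter.all false

namespace Pool.Agent.Strip051.G.I5_16_3_8.Tab.CN

open Pool.Agent.Strip051.PB

def A011E_000 :
    ∃ t, chk3 (onCell 0 67108864 0 1073741824 335544320 67108864 (corT false 3 c0N cA011E gN0q0 gN0q1 gN0q1 gN1q1 true false)) t 1 1 1 = true :=
  ⟨(T.l 1), by decide +kernel⟩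

def A011L_001 :
    ∃ t, chk3 (onCell 0 67108864 0 1073741824 335544320 67108864 (corT false 3 c0N cA011L gN0q0 gN0q1 gN1q1 gN2q1 false true)) t 1 1 1 = true :=
  ⟨(T.l 2), by decide +kernel⟩

def A011L_002 :
    ∃ t, chk3 (onCell 0 67108864 0 1073741824 335544320 67108864 (corT false 3 c0N cA011L gN0q0 gN0q1 gN2q1 gN3q1 true true)) t 1 1 1 = true :=
  ⟨(T.l 2), by decide +kernel⟩

def A011L_003 :
    ∃ t, chk3 (onCell 0 67108864 0 1073741824 335544320 67108864 (corT false 3 c0N cA011L gN0q0 gN0q1 gN3q1 gN4q1 true true)) t 1 1 1 = true :=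
  ⟨(T.l 2), by decide +kernel⟩

def A011R_020 :
    ∃ t, chk3 (onCell 0 67108864 0 1073741824 335544320 67108864 (corT false 3 c0N cA011R gN0q0 gN2q1 gN0q1 gN1q1 true false)) t 1 1 1 = true :=
  ⟨(T.b (T.b (T.b (T.b (T.a (T.c (T.l 204) (T.l 204)) (T.a (T.l 204) (T.c (T.l 204) (T.l 204)))) (T.l 1)) (T.l 1)) (T.l 1)) (T.l 1)), by decide +kernel⟩

def A011R_030 :
    ∃ t, chk3 (onCell 0 67108864 0 1073741824 335544320 67108864 (corT false 3 c0N cA011R gN0q0 gN3q1 gN0q1 gN1q1 true false)) t 1 1 1 = true :=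
  ⟨(T.b (T.b (T.a (T.b (T.b (T.l 204) (T.l 204)) (T.b (T.c (T.a (T.l 220) (T.l 204)) (T.b (T.l 204) (T.b (T.l 204) (T.l 1)))) (T.l 1))) (T.a (T.b (T.l 204) (T.b (T.c (T.l 204) (T.l 204)) (T.l 1))) (T.b (T.c (T.l 204) (T.l 204)) (T.b (T.c (T.b (T.l 204) (T.l 220)) (T.a (T.l 204) (T.l 204))) (T.l 1))))) (T.l 1)) (T.l 1)), by decide +kernel⟩

def A011R_040 :
    ∃ t, chk3 (onCell 0 67108864 0 1073741824 335544320 67108864 (corT false 3 c0N cA011R gN0q0 gN4q1 gN0q1 gN1q1 true false)) t 1 1 1 = true :=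
  ⟨(T.b (T.b (T.b (T.l 0) (T.b (T.l 204) (T.a (T.l 204) (T.l 204)))) (T.b (T.b (T.b (T.l 0) (T.a (T.l 0) (T.l 0))) (T.b (T.b (T.a (T.l 0) (T.l 0)) (T.b (T.a (T.c (T.a (T.l 0) (T.l 0)) (T.l 0)) (T.l 0)) (T.a (T.a (T.l 1) (T.b (T.b (T.c (T.l 816) (T.l 816)) (T.l 1)) (T.l 1))) (T.b (T.c (T.a (T.a (T.l 816) (T.l 816)) (T.l 816)) (T.l 0)) (T.a (T.l 1) (T.a (T.l 1) (T.b (T.l 816) (T.l 1)))))))) (T.l 1))) (T.l 1))) (T.l 1)), by decide +kernel⟩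

def A011R_120 :
    ∃ t, chk3 (onCell 0 67108864 0 1073741824 335544320 67108864 (corT false 3 c0N cA011R gN1q0 gN2q1 gN0q1 gN1q1 true false)) t 1 1 1 = true :=
  ⟨(T.l 1), by decide +kernel⟩

def A011R_130 :
    ∃ t, chk3 (onCell 0 67108864 0 1073741824 335544320 67108864 (corT false 3 c0N cA011R gN1q0 gN3q1 gN0q1 gN1q1 true false)) t 1 1 1 = true :=
  ⟨(T.l 1), by decide +kernel⟩

def A011R_140 :
    ∃ t, chk3 (onCell 0 67108864 0 1073741824 335544320 67108864 (corT false 3 c0N cA011R gN1q0 gN4q1 gN0q1 gN1q1 true false)) t 1 1 1 = true :=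
  ⟨(T.l 1), by decide +kernel⟩

def A012E_000_1_2_1 :
    ∃ t, chk3 (onCell 0 67108864 0 1073741824 335544320 67108864 (corT false 3 c0N cA012E gN0q0 gN0q1 gN0q2 gN1q2 true true)) t 1 2 1 = true :=
  ⟨(T.b (T.l 1) (T.b (T.l 1) (T.b (T.l 1) (T.b (T.l 1) (T.a (T.b (T.l 1) (T.a (T.b (T.l 1) (T.a (T.b (T.l 1) (T.l 0)) (T.l 0))) (T.b (T.b (T.a (T.l 1) (T.c (T.l 0) (T.l 0))) (T.c (T.l 0) (T.l 0))) (T.l 0)))) (T.a (T.b (T.b (T.l 1) (T.a (T.l 1) (T.b (T.l 1) (T.l 0)))) (T.l 0)) (T.a (T.b (T.b (T.l 1) (T.l 0)) (T.l 816)) (T.b (T.b (T.b (T.l 1) (T.l 0)) (T.l 0)) (T.c (T.l 0) (T.l 0)))))))))), by decide +kernel⟩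

def A012E_000_2_6_1 :
    ∃ t, chk3 (onCell 0 67108864 0 1073741824 335544320 67108864 (corT false 3 c0N cA012E gN0q0 gN0q1 gN0q2 gN1q2 true true)) t 2 6 1 = true :=
  ⟨(T.b (T.b (T.a (T.b (T.l 0) (T.l 816)) (T.c (T.b (T.l 0) (T.l 816)) (T.l 0))) (T.a (T.c (T.b (T.l 816) (T.l 816)) (T.l 816)) (T.c (T.b (T.l 816) (T.l 816)) (T.b (T.l 816) (T.l 816))))) (T.a (T.b (T.c (T.b (T.l 816) (T.l 820)) (T.b (T.l 816) (T.l 816))) (T.b (T.c (T.a (T.l 816) (T.l 816)) (T.a (T.l 816) (T.l 816))) (T.l 2))) (T.b (T.c (T.b (T.l 820) (T.a (T.l 816) (T.l 816))) (T.b (T.l 816) (T.a (T.l 816) (T.l 816)))) (T.b (T.c (T.a (T.l 816) (T.l 820)) (T.a (T.l 816) (T.l 820))) (T.l 2))))), by decide +kernel⟩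

def A012E_000_3_12_1 :
    ∃ t, chk3 (onCell 0 67108864 0 1073741824 335544320 67108864 (corT false 3 c0N cA012E gN0q0 gN0q1 gN0q2 gN1q2 true true)) t 3 12 1 = true :=
  ⟨(T.a (T.b (T.b (T.l 880) (T.c (T.l 816) (T.l 816))) (T.c (T.b (T.l 816) (T.l 884)) (T.b (T.l 816) (T.l 816)))) (T.b (T.a (T.b (T.l 816) (T.c (T.l 816) (T.l 816))) (T.b (T.a (T.l 816) (T.c (T.l 816) (T.l 816))) (T.a (T.c (T.b (T.l 816) (T.l 816)) (T.l 880)) (T.c (T.b (T.l 816) (T.l 816)) (T.l 880))))) (T.a (T.b (T.a (T.c (T.l 816) (T.l 816)) (T.c (T.b (T.l 816) (T.l 816)) (T.b (T.l 816) (T.l 816)))) (T.a (T.b (T.l 884) (T.c (T.l 884) (T.l 884))) (T.c (T.b (T.l 884) (T.l 884)) (T.b (T.l 816) (T.l 884))))) (T.b (T.a (T.c (T.b (T.l 816) (T.l 816)) (T.b (T.l 816) (T.l 816))) (T.c (T.b (T.l 816) (T.l 816)) (T.l 884))) (T.a (T.c (T.b (T.l 816) (T.l 884)) (T.b (T.l 816) (T.l 884)))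 (T.c (T.b (T.l 816) (T.l 884)) (T.b (T.l 816) (T.l 884)))))))), by decide +kernel⟩

def A012E_000_3_26_1 :
    ∃ t, chk3 (onCell 0 67108864 0 1073741824 335544320 67108864 (corT false 3 c0N cA012E gN0q0 gN0q1 gN0q2 gN1q2 true true)) t 3 26 1 = true :=
  ⟨(T.a (T.a (T.c (T.b (T.l 816) (T.l 820)) (T.b (T.l 816) (T.l 816))) (T.a (T.c (T.l 820) (T.l 820)) (T.b (T.c (T.l 816) (T.l 816)) (T.a (T.c (T.l 816) (T.l 816)) (T.c (T.b (T.l 820) (T.l 820)) (T.b (T.l 820) (T.l 820))))))) (T.a (T.a (T.b (T.c (T.b (T.c (T.l 816) (T.l 816)) (T.c (T.l 820) (T.l 820))) (T.b (T.l 884) (T.c (T.l 820) (T.l 820)))) (T.c (T.a (T.b (T.l 820) (T.l 820)) (T.b (T.l 820) (T.l 820))) (T.b (T.c (T.l 884) (T.l 884)) (T.a (T.l 820) (T.l 820))))) (T.b (T.c (T.b (T.l 884) (T.c (T.l 820) (T.l 820))) (T.a (T.l 884) (T.l 884))) (T.c (T.b (T.c (T.l 820) (T.l 884)) (T.a (T.l 820) (T.l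 820))) (T.b (T.c (T.l 884) (T.l 884)) (T.a (T.l 884) (T.l 884)))))) (T.b (T.a (T.c (T.b (T.l 884) (T.c (T.l 820) (T.l 820))) (T.a (T.l 884) (T.l 884))) (T.c (T.b (T.l 884) (T.c (T.l 820) (T.l 820))) (T.b (T.l 884) (T.c (T.l 820) (T.l 884))))) (T.a (T.c (T.b (T.c (T.l 820) (T.l 884)) (T.a (T.l 820) (T.l 820))) (T.b (T.c (T.l 884) (T.l 884)) (T.a (T.l 884) (T.l 884)))) (T.c (T.b (T.c (T.l 884) (T.l 884)) (T.a (T.l 884) (T.l 884))) (T.b (T.c (T.l 884) (T.l 884)) (T.a (T.l 884) (T.l 884)))))))), by decide +kernel⟩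

def A012E_000_3_27_1 :
    ∃ t, chk3 (onCell 0 67108864 0 1073741824 335544320 67108864 (corT false 3 c0N cA012E gN0q0 gN0q1 gN0q2 gN1q2 true true)) t 3 27 1 = true :=
  ⟨(T.b (T.b (T.b (T.a (T.a (T.c (T.l 816) (T.l 816)) (T.a (T.c (T.l 816) (T.l 816)) (T.c (T.c (T.l 820) (T.l 820)) (T.c (T.l 820) (T.l 884))))) (T.a (T.a (T.c (T.c (T.l 820) (T.l 820)) (T.c (T.l 820) (T.l 820))) (T.c (T.c (T.l 820) (T.l 820)) (T.c (T.l 820) (T.l 884)))) (T.a (T.c (T.c (T.l 820) (T.l 820)) (T.c (T.l 884) (T.l 884))) (T.c (T.c (T.l 820) (T.l 820)) (T.c (T.l 884) (T.l 884)))))) (T.a (T.a (T.c (T.l 816) (T.l 816)) (T.a (T.c (T.l 816) (T.l 816)) (T.c (T.a (T.l 820) (T.l 820)) (T.a (T.l 820) (T.l 820))))) (T.b (T.a (T.a (T.c (T.c (T.l 820) (T.l 820)) (T.c (T.l 820) (T.l 820))) (T.c (T.c (T.l 820) (T.l 820)) (T.c (T.l 820) (T.l 820)))) (T.b (T.a (T.c (T.l 884) (T.l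 884)) (T.c (T.l 884) (T.c (T.l 820) (T.l 820)))) (T.l 2))) (T.a (T.a (T.a (T.c (T.l 820) (T.l 820)) (T.l 2)) (T.l 2)) (T.l 2))))) (T.a (T.a (T.c (T.l 820) (T.l 820)) (T.l 2)) (T.l 2))) (T.l 2)), by decide +kernel⟩

def A012E_000_1_7_1 :
    ∃ t, chk3 (onCell 0 67108864 0 1073741824 335544320 67108864 (corT false 3 c0N cA012E gN0q0 gN0q1 gN0q2 gN1q2 true true)) t 1 7 1 = true :=
  ⟨(T.l 2), by decide +kernel⟩

theorem A012E_000_3_13_1 :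
    ∃ t, chk3 (onCell 0 67108864 0 1073741824 335544320 67108864 (corT false 3 c0N cA012E gN0q0 gN0q1 gN0q2 gN1q2 true true)) t 3 13 1 = true :=
  ex3_b A012E_000_3_26_1 A012E_000_3_27_1
theorem A012E_000_3_6_1 :
    ∃ t, chk3 (onCell 0 67108864 0 1073741824 335544320 67108864 (corT false 3 c0N cA012E gN0q0 gN0q1 gN0q2 gN1q2 true true)) t 3 6 1 = true :=
  ex3_b A012E_000_3_12_1 A012E_000_3_13_1
theorem A012E_000_1_6_1 :
    ∃ t, chk3 (onCell 0 67108864 0 1073741824 335544320 67108864 (corT false 3 c0N cA012E gN0q0 gN0q1 gN0q2 gN1q2 true true)) t 1 6 1 = true :=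
  ex3_a A012E_000_2_6_1 A012E_000_3_6_1
theorem A012E_000_1_3_1 :
    ∃ t, chk3 (onCell 0 67108864 0 1073741824 335544320 67108864 (corT false 3 c0N cA012E gN0q0 gN0q1 gN0q2 gN1q2 true true)) t 1 3 1 = true :=
  ex3_b A012E_000_1_6_1 A012E_000_1_7_1
theorem A012E_000 :
    ∃ t, chk3 (onCell 0 67108864 0 1073741824 335544320 67108864 (corT false 3 c0N cA012E gN0q0 gN0q1 gN0q2 gN1q2 true true)) t 1 1 1 = true :=
  ex3_b A012E_000_1_2_1 A012E_000_1_3_1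

def A012E_001 :
    ∃ t, chk3 (onCell 0 67108864 0 1073741824 335544320 67108864 (corT false 3 c0N cA012E gN0q0 gN0q1 gN1q2 gN2q2 true false)) t 1 1 1 = true :=
  ⟨(T.b (T.l 1) (T.b (T.b (T.l 1) (T.b (T.l 1) (T.a (T.c (T.b (T.a (T.l 816) (T.l 820)) (T.l 820)) (T.b (T.a (T.l 816) (T.l 820)) (T.l 816))) (T.a (T.a (T.c (T.b (T.l 820) (T.l 816)) (T.l 820)) (T.c (T.b (T.b (T.c (T.l 820) (T.l 820)) (T.l 820)) (T.b (T.l 820) (T.l 816))) (T.b (T.b (T.c (T.l 820) (T.l 820)) (T.l 820)) (T.b (T.l 820) (T.l 816))))) (T.a (T.c (T.b (T.b (T.c (T.l 820) (T.l 820)) (T.l 820)) (T.l 820)) (T.b (T.b (T.c (T.l 820) (T.l 820)) (T.l 884)) (T.l 884))) (T.c (T.b (T.b (T.c (T.l 820) (T.l 820)) (T.l 820)) (T.l 884)) (T.b (T.b (T.c (T.l 820) (T.l 884)) (T.l 884)) (T.l 884)))))))) (T.a (T.a (T.b (T.c (T.b (T.l 816) (T.l 816)) (T.l 816)) (T.b (T.l 816) (T.l 816))) (T.a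 (T.b (T.c (T.l 816) (T.l 816)) (T.l 816)) (T.b (T.c (T.l 816) (T.l 816)) (T.b (T.l 816) (T.b (T.l 816) (T.l 816)))))) (T.a (T.b (T.a (T.b (T.a (T.l 820) (T.c (T.l 816) (T.l 816))) (T.c (T.l 816) (T.l 816))) (T.b (T.c (T.b (T.l 816) (T.l 816)) (T.b (T.l 816) (T.l 816))) (T.c (T.l 816) (T.l 816)))) (T.a (T.b (T.b (T.l 816) (T.l 816)) (T.b (T.l 816) (T.l 816))) (T.b (T.b (T.l 816) (T.l 816)) (T.l 816)))) (T.b (T.b (T.a (T.c (T.b (T.l 816) (T.l 816)) (T.l 884)) (T.c (T.b (T.l 816) (T.l 816)) (T.l 884))) (T.a (T.b (T.l 820) (T.l 816)) (T.b (T.l 816) (T.l 816)))) (T.b (T.a (T.l 884) (T.l 884)) (T.c (T.l 816) (T.l 816)))))))), by decide +kernel⟩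

def A012L_003 :
    ∃ t, chk3 (onCell 0 67108864 0 1073741824 335544320 67108864 (corT false 3 c0N cA012L gN0q0 gN0q1 gN3q2 gN4q2 false true)) t 1 1 1 = true :=
  ⟨(T.l 2), by decide +kernel⟩

def A012R_020 :
    ∃ t, chk3 (onCell 0 67108864 0 1073741824 335544320 67108864 (corT false 3 c0N cA012R gN0q0 gN2q1 gN0q2 gN1q2 true true)) t 1 1 1 = true :=
  ⟨(T.b (T.l 2) (T.l 2)), by decide +kernel⟩

def A012R_021 :
    ∃ t, chk3 (onCell 0 67108864 0 1073741824 335544320 67108864 (corT false 3 c0N cA012R gN0q0 gN2q1 gN1q2 gN2q2 true false)) t 1 1 1 = true :=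
  ⟨(T.b (T.a (T.b (T.b (T.l 204) (T.l 204)) (T.l 0)) (T.a (T.b (T.l 220) (T.l 0)) (T.b (T.b (T.b (T.b (T.l 204) (T.l 204)) (T.l 204)) (T.l 204)) (T.b (T.l 204) (T.l 0))))) (T.b (T.a (T.l 0) (T.a (T.b (T.l 0) (T.l 0)) (T.b (T.l 0) (T.l 0)))) (T.a (T.a (T.l 0) (T.a (T.l 816) (T.l 0))) (T.a (T.b (T.l 0) (T.l 816)) (T.b (T.l 816) (T.l 816)))))), by decide +kernel⟩

def A012R_030 :
    ∃ t, chk3 (onCell 0 67108864 0 1073741824 335544320 67108864 (corT false 3 c0N cA012R gN0q0 gN3q1 gN0q2 gN1q2 true true)) t 1 1 1 = true :=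
  ⟨(T.l 2), by decide +kernel⟩

def A012R_031 :
    ∃ t, chk3 (onCell 0 67108864 0 1073741824 335544320 67108864 (corT false 3 c0N cA012R gN0q0 gN3q1 gN1q2 gN2q2 true false)) t 1 1 1 = true :=
  ⟨(T.b (T.a (T.b (T.l 204) (T.l 0)) (T.a (T.b (T.l 0) (T.l 0)) (T.b (T.b (T.b (T.l 204) (T.l 0)) (T.l 0)) (T.b (T.l 0) (T.l 0))))) (T.b (T.a (T.l 0) (T.a (T.b (T.l 0) (T.l 0)) (T.b (T.l 0) (T.l 0)))) (T.a (T.a (T.l 0) (T.a (T.l 816) (T.l 0))) (T.a (T.b (T.l 0) (T.l 816)) (T.b (T.l 816) (T.l 816)))))), by decide +kernel⟩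

def A012R_040 :
    ∃ t, chk3 (onCell 0 67108864 0 1073741824 335544320 67108864 (corT false 3 c0N cA012R gN0q0 gN4q1 gN0q2 gN1q2 true true)) t 1 1 1 = true :=
  ⟨(T.l 2), by decide +kernel⟩

def A012R_041 :
    ∃ t, chk3 (onCell 0 67108864 0 1073741824 335544320 67108864 (corT false 3 c0N cA012R gN0q0 gN4q1 gN1q2 gN2q2 true false)) t 1 1 1 = true :=
  ⟨(T.b (T.b (T.l 0) (T.a (T.l 0) (T.b (T.l 816) (T.b (T.l 816) (T.l 64))))) (T.b (T.a (T.l 0) (T.a (T.b (T.l 816) (T.l 0)) (T.b (T.l 816) (T.l 816)))) (T.a (T.a (T.l 816) (T.a (T.l 816) (T.l 0))) (T.a (T.b (T.l 816) (T.l 816)) (T.b (T.l 816) (T.l 816)))))), by decide +kernel⟩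

def A012R_120 :
    ∃ t, chk3 (onCell 0 67108864 0 1073741824 335544320 67108864 (corT false 3 c0N cA012R gN1q0 gN2q1 gN0q2 gN1q2 true true)) t 1 1 1 = true :=
  ⟨(T.b (T.b (T.l 1) (T.a (T.l 1) (T.b (T.l 1) (T.b (T.l 1) (T.l 0))))) (T.b (T.a (T.l 0) (T.a (T.b (T.l 816) (T.l 0)) (T.b (T.l 0) (T.l 0)))) (T.a (T.b (T.l 816) (T.a (T.l 816) (T.b (T.l 816) (T.l 0)))) (T.a (T.b (T.l 0) (T.l 0)) (T.b (T.l 0) (T.l 0)))))), by decide +kernel⟩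

def A012R_121 :
    ∃ t, chk3 (onCell 0 67108864 0 1073741824 335544320 67108864 (corT false 3 c0N cA012R gN1q0 gN2q1 gN1q2 gN2q2 true false)) t 1 1 1 = true :=
  ⟨(T.l 1), by decide +kernel⟩

def A012R_130 :
    ∃ t, chk3 (onCell 0 67108864 0 1073741824 335544320 67108864 (corT false 3 c0N cA012R gN1q0 gN3q1 gN0q2 gN1q2 true true)) t 1 1 1 = true :=
  ⟨(T.b (T.b (T.l 1) (T.a (T.l 0) (T.b (T.l 1) (T.b (T.l 816) (T.l 0))))) (T.b (T.a (T.l 0) (T.a (T.b (T.l 816) (T.l 0)) (T.b (T.l 0) (T.l 0)))) (T.a (T.b (T.l 816) (T.a (T.l 816) (T.b (T.l 816) (T.l 0)))) (T.a (T.b (T.l 0) (T.l 0)) (T.b (T.l 0) (T.l 0)))))), by decide +kernel⟩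

def A012R_131 :
    ∃ t, chk3 (onCell 0 67108864 0 1073741824 335544320 67108864 (corT false 3 c0N cA012R gN1q0 gN3q1 gN1q2 gN2q2 true false)) t 1 1 1 = true :=
  ⟨(T.l 1), by decide +kernel⟩

def A012R_140 :
    ∃ t, chk3 (onCell 0 67108864 0 1073741824 335544320 67108864 (corT false 3 c0N cA012R gN1q0 gN4q1 gN0q2 gN1q2 true true)) t 1 1 1 = true :=
  ⟨(T.b (T.b (T.l 1) (T.a (T.l 816) (T.b (T.l 816) (T.b (T.l 816) (T.l 0))))) (T.a (T.a (T.l 816) (T.b (T.l 816) (T.a (T.l 816) (T.l 0)))) (T.b (T.a (T.b (T.l 816) (T.l 0)) (T.b (T.l 0) (T.l 0))) (T.a (T.b (T.l 0) (T.l 0)) (T.l 64))))), by decide +kernel⟩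

def A012R_141 :
    ∃ t, chk3 (onCell 0 67108864 0 1073741824 335544320 67108864 (corT false 3 c0N cA012R gN1q0 gN4q1 gN1q2 gN2q2 true false)) t 1 1 1 = true :=
  ⟨(T.l 1), by decide +kernel⟩

def A022E_000 :
    ∃ t, chk3 (onCell 0 67108864 0 1073741824 335544320 67108864 (corT false 3 c0N cA022E gN0q0 gN0q2 gN0q2 gN1q2 true true)) t 1 1 1 = true :=
  ⟨(T.l 2), by decide +kernel⟩

def A022E_001 :
    ∃ t, chk3 (onCell 0 67108864 0 1073741824 335544320 67108864 (corT false 3 c0N cA022E gN0q0 gN0q2 gN1q2 gN2q2 true false)) t 1 1 1 = true :=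
  ⟨(T.b (T.b (T.a (T.a (T.l 0) (T.a (T.l 0) (T.b (T.a (T.l 204) (T.l 204)) (T.l 204)))) (T.a (T.a (T.b (T.a (T.l 204) (T.l 204)) (T.b (T.l 204) (T.l 204))) (T.b (T.b (T.l 204) (T.l 204)) (T.b (T.l 204) (T.l 204)))) (T.b (T.a (T.b (T.l 204) (T.l 204)) (T.b (T.l 204) (T.l 204))) (T.a (T.b (T.l 204) (T.l 204)) (T.b (T.l 204) (T.l 204)))))) (T.a (T.a (T.l 0) (T.c (T.l 0) (T.l 0))) (T.a (T.b (T.a (T.l 204) (T.b (T.l 204) (T.l 204))) (T.l 0)) (T.b (T.a (T.b (T.l 204) (T.l 204)) (T.b (T.l 204) (T.l 204))) (T.a (T.l 16) (T.l 16)))))) (T.b (T.b (T.a (T.a (T.l 816) (T.l 4)) (T.a (T.l 0) (T.b (T.l 16) (T.l 0)))) (T.a (T.a (T.l 816) (T.c (T.l 0) (T.l 0))) (T.a (T.l 0) (T.l 0)))) (T.a (T.a (T.b (T.l 816) (T.l 816)) (T.a (T.l 816) (T.b (T.l 816) (T.l 816)))) (T.a (T.c (T.l 0) (T.l 816)) (T.b (T.l 0) (T.l 816)))))), by decide +kernel⟩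

def A022E_010 :
    ∃ t, chk3 (onCell 0 67108864 0 1073741824 335544320 67108864 (corT false 3 c0N cA022E gN0q0 gN1q2 gN0q2 gN1q2 true true)) t 1 1 1 = true :=
  ⟨(T.l 2), by decide +kernel⟩

def A022E_011 :
    ∃ t, chk3 (onCell 0 67108864 0 1073741824 335544320 67108864 (corT false 3 c0N cA022E gN0q0 gN1q2 gN1q2 gN2q2 true false)) t 1 1 1 = true :=
  ⟨(T.b (T.a (T.a (T.l 816) (T.a (T.l 0) (T.b (T.b (T.l 0) (T.l 0)) (T.l 0)))) (T.b (T.a (T.a (T.l 0) (T.l 0)) (T.b (T.l 0) (T.l 0))) (T.a (T.b (T.l 4) (T.l 0)) (T.b (T.l 0) (T.l 0))))) (T.b (T.a (T.a (T.l 816) (T.c (T.l 0) (T.l 0))) (T.a (T.l 0) (T.b (T.l 0) (T.l 816)))) (T.a (T.a (T.l 816) (T.a (T.l 816) (T.l 816))) (T.a (T.b (T.l 816) (T.l 820)) (T.b (T.l 816) (T.l 816)))))), by decide +kernel⟩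

def A022E_110 :
    ∃ t, chk3 (onCell 0 67108864 0 1073741824 335544320 67108864 (corT false 3 c0N cA022E gN1q0 gN1q2 gN0q2 gN1q2 true true)) t 1 1 1 = true :=
  ⟨(T.l 2), by decide +kernel⟩

def A022E_111 :
    ∃ t, chk3 (onCell 0 67108864 0 1073741824 335544320 67108864 (corT false 3 c0N cA022E gN1q0 gN1q2 gN1q2 gN2q2 true false)) t 1 1 1 = true :=
  ⟨(T.b (T.a (T.a (T.l 816) (T.a (T.l 0) (T.b (T.l 16) (T.l 0)))) (T.b (T.a (T.a (T.l 0) (T.l 0)) (T.b (T.l 0) (T.l 0))) (T.b (T.l 0) (T.l 0)))) (T.b (T.a (T.a (T.l 816) (T.l 0)) (T.b (T.l 0) (T.l 0))) (T.a (T.a (T.l 816) (T.l 0)) (T.l 0)))), by decide +kernel⟩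

def A022L_003 :
    ∃ t, chk3 (onCell 0 67108864 0 1073741824 335544320 67108864 (corT false 3 c0N cA022L gN0q0 gN0q2 gN3q2 gN4q2 false true)) t 1 1 1 = true :=
  ⟨(T.b (T.b (T.a (T.a (T.b (T.l 204) (T.l 204)) (T.a (T.b (T.l 204) (T.l 204)) (T.b (T.a (T.l 204) (T.b (T.l 204) (T.l 204))) (T.l 204)))) (T.a (T.b (T.a (T.c (T.b (T.l 204) (T.l 204)) (T.l 220)) (T.b (T.l 204) (T.l 204))) (T.a (T.a (T.l 204) (T.b (T.l 204) (T.l 204))) (T.b (T.l 204) (T.l 220)))) (T.b (T.a (T.b (T.l 204) (T.l 204)) (T.b (T.l 204) (T.l 204))) (T.a (T.b (T.l 204) (T.l 204)) (T.b (T.l 204) (T.l 204)))))) (T.a (T.b (T.b (T.l 204) (T.l 204)) (T.b (T.l 204) (T.a (T.l 204) (T.l 204)))) (T.a (T.b (T.a (T.l 204) (T.b (T.l 220) (T.b (T.l 204) (T.l 204)))) (T.b (T.l 204) (T.l 204))) (T.b (T.b (T.b (T.l 220) (T.l 220)) (T.a (T.l 220) (T.l 204))) (T.b (T.a (T.b (T.l 204) (T.l 204))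 (T.l 220)) (T.a (T.l 204) (T.b (T.l 204) (T.l 204)))))))) (T.b (T.b (T.a (T.b (T.a (T.l 204) (T.l 204)) (T.c (T.l 204) (T.l 204))) (T.a (T.b (T.l 204) (T.l 220)) (T.b (T.a (T.l 204) (T.b (T.l 204) (T.l 204))) (T.l 204)))) (T.b (T.b (T.a (T.a (T.l 204) (T.l 204)) (T.a (T.l 204) (T.l 204))) (T.b (T.a (T.b (T.l 0) (T.b (T.a (T.l 0) (T.l 0)) (T.a (T.a (T.l 2) (T.b (T.l 0) (T.l 2))) (T.c (T.a (T.b (T.l 0) (T.l 2)) (T.l 0)) (T.l 0))))) (T.a (T.c (T.l 0) (T.l 0)) (T.l 0))) (T.a (T.l 2) (T.b (T.b (T.b (T.a (T.a (T.l 2) (T.l 0)) (T.l 0)) (T.l 2)) (T.l 2)) (T.l 2))))) (T.l 2))) (T.l 2))), by decide +kernel⟩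

def A022L_013 :
    ∃ t, chk3 (onCell 0 67108864 0 1073741824 335544320 67108864 (corT false 3 c0N cA022L gN0q0 gN1q2 gN3q2 gN4q2 false true)) t 1 1 1 = true :=
  ⟨(T.b (T.b (T.b (T.a (T.a (T.l 204) (T.b (T.l 256) (T.l 204))) (T.a (T.l 204) (T.l 204))) (T.a (T.l 204) (T.a (T.l 204) (T.l 204)))) (T.l 2)) (T.l 2)), by decide +kernel⟩

def A022L_113 :
    ∃ t, chk3 (onCell 0 67108864 0 1073741824 335544320 67108864 (corT false 3 c0N cA022L gN1q0 gN1q2 gN3q2 gN4q2 false true)) t 1 1 1 = true :=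
  ⟨(T.b (T.b (T.b (T.a (T.a (T.l 204) (T.b (T.l 0) (T.l 204))) (T.a (T.l 204) (T.l 204))) (T.l 2)) (T.l 2)) (T.l 2)), by decide +kernel⟩

def A022R_040 :
    ∃ t, chk3 (onCell 0 67108864 0 1073741824 335544320 67108864 (corT false 3 c0N cA022R gN0q0 gN4q2 gN0q2 gN1q2 true true)) t 1 1 1 = true :=
  ⟨(T.l 2), by decide +kernel⟩

def A022R_041 :
    ∃ t, chk3 (onCell 0 67108864 0 1073741824 335544320 67108864 (corT false 3 c0N cA022R gN0q0 gN4q2 gN1q2 gN2q2 true false)) t 1 1 1 = true :=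
  ⟨(T.a (T.a (T.l 0) (T.b (T.l 0) (T.l 0))) (T.b (T.b (T.l 0) (T.l 0)) (T.b (T.l 0) (T.l 64)))), by decide +kernel⟩

def A022R_140 :
    ∃ t, chk3 (onCell 0 67108864 0 1073741824 335544320 67108864 (corT false 3 c0N cA022R gN1q0 gN4q2 gN0q2 gN1q2 true true)) t 1 1 1 = true :=
  ⟨(T.b (T.b (T.a (T.a (T.l 204) (T.l 2)) (T.l 2)) (T.a (T.a (T.l 0) (T.c (T.l 0) (T.l 0))) (T.a (T.l 0) (T.l 0)))) (T.a (T.a (T.l 0) (T.l 0)) (T.a (T.l 0) (T.l 0)))), by decide +kernel⟩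

def A022R_141 :
    ∃ t, chk3 (onCell 0 67108864 0 1073741824 335544320 67108864 (corT false 3 c0N cA022R gN1q0 gN4q2 gN1q2 gN2q2 true false)) t 1 1 1 = true :=
  ⟨(T.a (T.a (T.l 0) (T.b (T.l 0) (T.l 1))) (T.b (T.b (T.l 0) (T.l 0)) (T.l 0))), by decide +kernel⟩

def A101E_000 :
    ∃ t, chk3 (onCell 0 67108864 0 1073741824 335544320 67108864 (corT false 3 c0N cA101E gN0q1 gN0q0 gN0q1 gN1q1 true false)) t 1 1 1 = true :=
  ⟨(T.l 1), by decide +kernel⟩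

def A101E_010 :
    ∃ t, chk3 (onCell 0 67108864 0 1073741824 335544320 67108864 (corT false 3 c0N cA101E gN0q1 gN1q0 gN0q1 gN1q1 true false)) t 1 1 1 = true :=
  ⟨(T.l 1), by decide +kernel⟩

def A101R_001 :
    ∃ t, chk3 (onCell 0 67108864 0 1073741824 335544320 67108864 (corT false 3 c0N cA101R gN0q1 gN0q0 gN1q1 gN2q1 false true)) t 1 1 1 = true :=
  ⟨(T.l 2), by decide +kernel⟩

def A101R_002 :
    ∃ t, chk3 (onCell 0 67108864 0 1073741824 335544320 67108864 (corT false 3 c0N cA101R gN0q1 gN0q0 gN2q1 gN3q1 true true)) t 1 1 1 = true :=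
  ⟨(T.l 2), by decide +kernel⟩

def A101R_003 :
    ∃ t, chk3 (onCell 0 67108864 0 1073741824 335544320 67108864 (corT false 3 c0N cA101R gN0q1 gN0q0 gN3q1 gN4q1 true true)) t 1 1 1 = true :=
  ⟨(T.l 2), by decide +kernel⟩

def A101R_011 :
    ∃ t, chk3 (onCell 0 67108864 0 1073741824 335544320 67108864 (corT false 3 c0N cA101R gN0q1 gN1q0 gN1q1 gN2q1 false true)) t 1 1 1 = true :=
  ⟨(T.l 2), by decide +kernel⟩

def A101R_012 :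
    ∃ t, chk3 (onCell 0 67108864 0 1073741824 335544320 67108864 (corT false 3 c0N cA101R gN0q1 gN1q0 gN2q1 gN3q1 true true)) t 1 1 1 = true :=
  ⟨(T.l 2), by decide +kernel⟩

def A101R_013 :
    ∃ t, chk3 (onCell 0 67108864 0 1073741824 335544320 67108864 (corT false 3 c0N cA101R gN0q1 gN1q0 gN3q1 gN4q1 true true)) t 1 1 1 = true :=
  ⟨(T.l 2), by decide +kernel⟩

def A102E_000_1_4_1 :
    ∃ t, chk3 (onCell 0 67108864 0 1073741824 335544320 67108864 (corT false 3 c0N cA102E gN0q1 gN0q0 gN0q2 gN1q2 true true)) t 1 4 1 = true :=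
  ⟨(T.l 2), by decide +kernel⟩

def A102E_000_2_5_1 :
    ∃ t, chk3 (onCell 0 67108864 0 1073741824 335544320 67108864 (corT false 3 c0N cA102E gN0q1 gN0q0 gN0q2 gN1q2 true true)) t 2 5 1 = true :=
  ⟨(T.b (T.a (T.b (T.b (T.l 2) (T.c (T.a (T.l 204) (T.l 204)) (T.a (T.l 204) (T.l 204)))) (T.c (T.b (T.l 460) (T.l 204)) (T.b (T.l 204) (T.l 204)))) (T.b (T.b (T.l 2) (T.c (T.a (T.l 204) (T.l 460)) (T.a (T.l 204) (T.l 460)))) (T.c (T.b (T.a (T.l 204) (T.l 204)) (T.l 460)) (T.b (T.a (T.l 204) (T.l 204)) (T.l 460))))) (T.b (T.a (T.c (T.b (T.l 204) (T.l 204)) (T.b (T.l 204) (T.l 204))) (T.c (T.b (T.l 204) (T.l 204)) (T.b (T.l 204) (T.l 204)))) (T.a (T.b (T.c (T.l 204) (T.l 204)) (T.l 0)) (T.b (T.c (T.l 204) (T.l 204)) (T.l 0))))), by decide +kernel⟩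

def A102E_000_3_20_1 :
    ∃ t, chk3 (onCell 0 67108864 0 1073741824 335544320 67108864 (corT false 3 c0N cA102E gN0q1 gN0q0 gN0q2 gN1q2 true true)) t 3 20 1 = true :=
  ⟨(T.b (T.l 2) (T.b (T.a (T.a (T.c (T.l 460) (T.l 460)) (T.l 2)) (T.l 2)) (T.b (T.a (T.a (T.c (T.l 204) (T.l 204)) (T.a (T.c (T.l 204) (T.l 204)) (T.c (T.c (T.l 460) (T.l 460)) (T.c (T.l 460) (T.l 460))))) (T.b (T.a (T.a (T.a (T.c (T.l 460) (T.l 460)) (T.l 2)) (T.l 2)) (T.l 2)) (T.a (T.a (T.c (T.l 460) (T.l 476)) (T.c (T.l 460) (T.l 476))) (T.b (T.l 2) (T.a (T.c (T.l 460) (T.l 476)) (T.c (T.l 460) (T.l 476))))))) (T.a (T.a (T.c (T.l 204) (T.l 204)) (T.a (T.c (T.l 204) (T.l 204)) (T.c (T.c (T.l 460) (T.l 460)) (T.c (T.l 460) (T.l 460))))) (T.a (T.a (T.c (T.c (T.l 460) (T.l 460)) (T.c (T.l 460) (T.l 460))) (T.c (T.c (T.l 460) (T.l 460)) (T.c (T.l 460) (T.l 460)))) (T.c (T.a (T.c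 (T.l 460) (T.l 460)) (T.c (T.l 460) (T.l 460))) (T.a (T.c (T.l 460) (T.l 476)) (T.c (T.l 460) (T.l 476))))))))), by decide +kernel⟩

def A102E_000_3_21_1 :
    ∃ t, chk3 (onCell 0 67108864 0 1073741824 335544320 67108864 (corT false 3 c0N cA102E gN0q1 gN0q0 gN0q2 gN1q2 true true)) t 3 21 1 = true :=
  ⟨(T.a (T.a (T.c (T.b (T.l 460) (T.l 204)) (T.b (T.l 204) (T.l 204))) (T.a (T.c (T.l 460) (T.l 460)) (T.b (T.a (T.c (T.l 204) (T.l 204)) (T.c (T.b (T.l 460) (T.l 460)) (T.b (T.l 460) (T.l 460)))) (T.c (T.l 204) (T.l 204))))) (T.a (T.a (T.b (T.c (T.b (T.c (T.l 460) (T.l 460)) (T.c (T.l 460) (T.l 460))) (T.b (T.c (T.l 476) (T.l 476)) (T.c (T.l 460) (T.l 476)))) (T.c (T.b (T.c (T.l 460) (T.l 460)) (T.l 476)) (T.a (T.l 476) (T.l 476)))) (T.b (T.c (T.b (T.c (T.l 460) (T.l 460)) (T.c (T.l 460) (T.l 460))) (T.b (T.c (T.l 476) (T.l 476)) (T.c (T.l 460)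 (T.l 460)))) (T.c (T.b (T.l 476) (T.l 476)) (T.b (T.l 476) (T.l 476))))) (T.b (T.a (T.c (T.b (T.c (T.l 460) (T.l 476)) (T.c (T.l 460) (T.l 460))) (T.b (T.c (T.l 476) (T.l 476)) (T.c (T.l 460) (T.l 476)))) (T.c (T.b (T.c (T.l 460) (T.l 476)) (T.c (T.l 460) (T.l 460))) (T.b (T.c (T.l 476) (T.l 476)) (T.c (T.l 476) (T.l 476))))) (T.a (T.c (T.b (T.l 476) (T.l 476)) (T.b (T.l 476) (T.l 476))) (T.c (T.b (T.l 476) (T.l 476)) (T.b (T.l 476) (T.l 476))))))), by decide +kernel⟩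

def A102E_000_3_11_1 :
    ∃ t, chk3 (onCell 0 67108864 0 1073741824 335544320 67108864 (corT false 3 c0N cA102E gN0q1 gN0q0 gN0q2 gN1q2 true true)) t 3 11 1 = true :=
  ⟨(T.a (T.b (T.c (T.b (T.l 476) (T.l 204)) (T.b (T.l 460) (T.l 204))) (T.b (T.c (T.l 204) (T.l 204)) (T.c (T.l 204) (T.l 204)))) (T.b (T.a (T.b (T.a (T.b (T.c (T.l 476) (T.l 476)) (T.l 220)) (T.c (T.b (T.l 476) (T.l 204)) (T.b (T.l 476) (T.l 204)))) (T.a (T.l 476) (T.c (T.b (T.l 204) (T.l 204)) (T.b (T.l 204) (T.l 204))))) (T.b (T.a (T.c (T.b (T.l 204) (T.l 204)) (T.b (T.l 204) (T.l 204))) (T.c (T.b (T.l 204) (T.l 204)) (T.b (T.l 204) (T.l 204)))) (T.a (T.c (T.b (T.l 204) (T.l 204)) (T.b (T.l 204) (T.l 204))) (T.c (T.l 476) (T.l 476))))) (T.a (T.b (T.c (T.l 204) (T.l 204)) (T.l 204)) (T.b (T.a (T.c (T.l 476) (T.l 220)) (T.c (T.l 476) (T.l 220))) (T.a (T.l 204) (T.c (T.l 204)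 (T.l 204))))))), by decide +kernel⟩

def A102E_000_1_3_1 :
    ∃ t, chk3 (onCell 0 67108864 0 1073741824 335544320 67108864 (corT false 3 c0N cA102E gN0q1 gN0q0 gN0q2 gN1q2 true true)) t 1 3 1 = true :=
  ⟨(T.b (T.b (T.b (T.b (T.a (T.b (T.a (T.b (T.a (T.b (T.l 0) (T.l 1)) (T.l 0)) (T.l 1)) (T.b (T.l 0) (T.b (T.c (T.l 0) (T.l 0)) (T.a (T.l 1) (T.c (T.l 0) (T.l 0)))))) (T.l 1)) (T.a (T.b (T.c (T.l 0) (T.l 0)) (T.b (T.a (T.l 1) (T.b (T.l 0) (T.l 1))) (T.l 1))) (T.b (T.a (T.l 204) (T.c (T.l 0) (T.l 0))) (T.b (T.c (T.l 0) (T.l 0)) (T.a (T.l 1) (T.b (T.l 0) (T.l 1))))))) (T.l 1)) (T.l 1)) (T.l 1)) (T.l 1)), by decide +kernel⟩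

theorem A102E_000_3_10_1 :
    ∃ t, chk3 (onCell 0 67108864 0 1073741824 335544320 67108864 (corT false 3 c0N cA102E gN0q1 gN0q0 gN0q2 gN1q2 true true)) t 3 10 1 = true :=
  ex3_b A102E_000_3_20_1 A102E_000_3_21_1
theorem A102E_000_3_5_1 :
    ∃ t, chk3 (onCell 0 67108864 0 1073741824 335544320 67108864 (corT false 3 c0N cA102E gN0q1 gN0q0 gN0q2 gN1q2 true true)) t 3 5 1 = true :=
  ex3_b A102E_000_3_10_1 A102E_000_3_11_1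
theorem A102E_000_1_5_1 :
    ∃ t, chk3 (onCell 0 67108864 0 1073741824 335544320 67108864 (corT false 3 c0N cA102E gN0q1 gN0q0 gN0q2 gN1q2 true true)) t 1 5 1 = true :=
  ex3_a A102E_000_2_5_1 A102E_000_3_5_1
theorem A102E_000_1_2_1 :
    ∃ t, chk3 (onCell 0 67108864 0 1073741824 335544320 67108864 (corT false 3 c0N cA102E gN0q1 gN0q0 gN0q2 gN1q2 true true)) t 1 2 1 = true :=
  ex3_b A102E_000_1_4_1 A102E_000_1_5_1
theorem A102E_000 :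
    ∃ t, chk3 (onCell 0 67108864 0 1073741824 335544320 67108864 (corT false 3 c0N cA102E gN0q1 gN0q0 gN0q2 gN1q2 true true)) t 1 1 1 = true :=
  ex3_b A102E_000_1_2_1 A102E_000_1_3_1

def A102E_001 :
    ∃ t, chk3 (onCell 0 67108864 0 1073741824 335544320 67108864 (corT false 3 c0N cA102E gN0q1 gN0q0 gN1q2 gN2q2 true false)) t 1 1 1 = true :=
  ⟨(T.b (T.b (T.a (T.a (T.b (T.b (T.l 204) (T.l 204)) (T.b (T.l 204) (T.b (T.l 204) (T.l 204)))) (T.a (T.b (T.l 204) (T.c (T.l 204) (T.l 204))) (T.b (T.b (T.b (T.l 204) (T.l 204)) (T.l 204)) (T.c (T.l 204) (T.l 204))))) (T.a (T.b (T.a (T.b (T.l 204) (T.b (T.l 204) (T.l 204))) (T.b (T.l 204) (T.l 460))) (T.a (T.b (T.c (T.l 204) (T.l 204)) (T.a (T.l 460) (T.c (T.l 204) (T.l 204)))) (T.b (T.b (T.l 204) (T.l 460)) (T.c (T.b (T.l 204) (T.l 204)) (T.b (T.l 204) (T.l 204)))))) (T.b (T.b (T.b (T.l 204) (T.l 204))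 (T.c (T.l 204) (T.l 204))) (T.b (T.c (T.b (T.l 204) (T.l 204)) (T.b (T.l 204) (T.l 204))) (T.a (T.c (T.b (T.l 204) (T.l 204)) (T.l 476)) (T.c (T.l 476) (T.l 476))))))) (T.b (T.b (T.a (T.c (T.b (T.l 460) (T.a (T.l 204) (T.l 460))) (T.b (T.l 460) (T.a (T.l 204) (T.l 460)))) (T.a (T.a (T.c (T.b (T.l 204) (T.l 460)) (T.b (T.l 204) (T.l 460))) (T.c (T.b (T.l 460) (T.b (T.l 460) (T.c (T.l 460) (T.l 460)))) (T.b (T.l 460) (T.b (T.l 460) (T.c (T.l 460) (T.l 460)))))) (T.a (T.c (T.b (T.l 460) (T.a (T.l 460) (T.l 460))) (T.b (T.l 460) (T.b (T.l 460) (T.c (T.l 460) (T.l 460))))) (T.c (T.b (T.l 460) (T.c (T.l 460) (T.l 476))) (T.b (T.l 476) (T.b (T.l 476) (T.c (T.l 460) (T.l 476)))))))) (T.l 1)) (T.l 1))) (T.l 1)), by decide +kernel⟩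

def A102E_010 :
    ∃ t, chk3 (onCell 0 67108864 0 1073741824 335544320 67108864 (corT false 3 c0N cA102E gN0q1 gN1q0 gN0q2 gN1q2 true true)) t 1 1 1 = true :=
  ⟨(T.b (T.l 2) (T.b (T.b (T.l 2) (T.a (T.l 0) (T.l 0))) (T.b (T.a (T.l 0) (T.b (T.l 0) (T.l 1))) (T.l 1)))), by decide +kernel⟩

def A102E_011 :
    ∃ t, chk3 (onCell 0 67108864 0 1073741824 335544320 67108864 (corT false 3 c0N cA102E gN0q1 gN1q0 gN1q2 gN2q2 true false)) t 1 1 1 = true :=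
  ⟨(T.b (T.a (T.a (T.l 0) (T.b (T.l 0) (T.l 204))) (T.b (T.l 0) (T.l 0))) (T.b (T.a (T.l 0) (T.b (T.l 0) (T.l 0))) (T.l 1))), by decide +kernel⟩

def A102R_003 :
    ∃ t, chk3 (onCell 0 67108864 0 1073741824 335544320 67108864 (corT false 3 c0N cA102R gN0q1 gN0q0 gN3q2 gN4q2 false true)) t 1 1 1 = true :=
  ⟨(T.l 2), by decide +kernel⟩

def A102R_013 :
    ∃ t, chk3 (onCell 0 67108864 0 1073741824 335544320 67108864 (corT false 3 c0N cA102R gN0q1 gN1q0 gN3q2 gN4q2 false true)) t 1 1 1 = true :=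
  ⟨(T.l 2), by decide +kernel⟩

def A202E_000 :
    ∃ t, chk3 (onCell 0 67108864 0 1073741824 335544320 67108864 (corT false 3 c0N cA202E gN0q2 gN0q0 gN0q2 gN1q2 true true)) t 1 1 1 = true :=
  ⟨(T.l 2), by decide +kernel⟩

def A202E_001 :
    ∃ t, chk3 (onCell 0 67108864 0 1073741824 335544320 67108864 (corT false 3 c0N cA202E gN0q2 gN0q0 gN1q2 gN2q2 true false)) t 1 1 1 = true :=
  ⟨(T.b (T.b (T.a (T.a (T.b (T.l 204) (T.l 204)) (T.a (T.l 204) (T.b (T.l 204) (T.l 204)))) (T.a (T.b (T.b (T.l 204) (T.l 204)) (T.l 0)) (T.b (T.l 204) (T.l 0)))) (T.b (T.a (T.a (T.l 204) (T.c (T.l 0) (T.l 0))) (T.a (T.l 0) (T.l 0))) (T.a (T.a (T.l 204) (T.b (T.l 0) (T.l 0))) (T.a (T.l 0) (T.a (T.l 0) (T.b (T.l 0) (T.l 816))))))) (T.b (T.a (T.a (T.l 0) (T.a (T.l 0) (T.l 0))) (T.a (T.b (T.l 0) (T.a (T.l 816) (T.b (T.l 816) (T.l 816)))) (T.b (T.a (T.b (T.l 816) (T.l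 816)) (T.b (T.l 816) (T.l 816))) (T.a (T.b (T.l 816) (T.l 816)) (T.b (T.l 816) (T.l 816)))))) (T.a (T.a (T.l 0) (T.a (T.l 0) (T.b (T.l 816) (T.a (T.l 816) (T.l 816))))) (T.a (T.a (T.b (T.b (T.l 816) (T.l 816)) (T.a (T.l 816) (T.l 816))) (T.b (T.b (T.l 816) (T.l 816)) (T.a (T.l 816) (T.l 816)))) (T.b (T.a (T.b (T.l 816) (T.l 816)) (T.b (T.l 816) (T.l 816))) (T.a (T.b (T.l 816) (T.b (T.l 816) (T.l 816))) (T.b (T.b (T.l 816) (T.l 816)) (T.b (T.l 816) (T.l 816))))))))), by decide +kernel⟩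

def A202E_010 :
    ∃ t, chk3 (onCell 0 67108864 0 1073741824 335544320 67108864 (corT false 3 c0N cA202E gN0q2 gN1q0 gN0q2 gN1q2 true true)) t 1 1 1 = true :=
  ⟨(T.l 2), by decide +kernel⟩

def A202E_011 :
    ∃ t, chk3 (onCell 0 67108864 0 1073741824 335544320 67108864 (corT false 3 c0N cA202E gN0q2 gN1q0 gN1q2 gN2q2 true false)) t 1 1 1 = true :=
  ⟨(T.b (T.b (T.a (T.a (T.l 204) (T.l 0)) (T.l 0)) (T.a (T.a (T.l 204) (T.l 0)) (T.a (T.l 0) (T.b (T.l 0) (T.l 0))))) (T.b (T.a (T.a (T.l 0) (T.l 0)) (T.a (T.b (T.l 0) (T.l 0)) (T.b (T.l 0) (T.l 0)))) (T.a (T.a (T.l 0) (T.a (T.l 0) (T.b (T.l 816) (T.a (T.l 816) (T.l 816))))) (T.a (T.b (T.b (T.l 0) (T.l 64)) (T.a (T.a (T.l 816) (T.l 816)) (T.a (T.l 816) (T.l 816)))) (T.b (T.b (T.l 816) (T.l 816)) (T.a (T.a (T.l 816) (T.b (T.l 816) (T.l 816))) (T.b (T.l 816) (T.b (T.l 816) (T.l 816))))))))), by decide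 +kernel⟩

def A202E_110 :
    ∃ t, chk3 (onCell 0 67108864 0 1073741824 335544320 67108864 (corT false 3 c0N cA202E gN1q2 gN1q0 gN0q2 gN1q2 true true)) t 1 1 1 = true :=
  ⟨(T.l 2), by decide +kernel⟩

def A202E_111 :
    ∃ t, chk3 (onCell 0 67108864 0 1073741824 335544320 67108864 (corT false 3 c0N cA202E gN1q2 gN1q0 gN1q2 gN2q2 true false)) t 1 1 1 = true :=
  ⟨(T.b (T.b (T.a (T.a (T.l 204) (T.l 0)) (T.l 0)) (T.a (T.a (T.l 204) (T.l 0)) (T.b (T.l 0) (T.l 0)))) (T.a (T.a (T.l 204) (T.a (T.l 0) (T.b (T.l 0) (T.b (T.l 0) (T.l 0))))) (T.b (T.b (T.l 0) (T.l 64)) (T.a (T.a (T.l 0) (T.l 0)) (T.b (T.l 0) (T.l 0)))))), by decide +kernel⟩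

def A202R_003 :
    ∃ t, chk3 (onCell 0 67108864 0 1073741824 335544320 67108864 (corT false 3 c0N cA202R gN0q2 gN0q0 gN3q2 gN4q2 false true)) t 1 1 1 = true :=
  ⟨(T.b (T.b (T.l 2) (T.b (T.b (T.l 2) (T.b (T.b (T.a (T.l 2) (T.b (T.l 2) (T.b (T.l 2) (T.b (T.l 2) (T.a (T.a (T.l 2) (T.l 0)) (T.l 0)))))) (T.a (T.b (T.b (T.a (T.a (T.l 2) (T.b (T.l 2) (T.l 0))) (T.c (T.a (T.b (T.l 2) (T.l 0)) (T.l 0)) (T.l 0))) (T.a (T.l 0) (T.l 0))) (T.l 0)) (T.a (T.c (T.l 0) (T.l 0)) (T.l 0)))) (T.a (T.a (T.l 816) (T.l 816)) (T.a (T.l 816) (T.l 816))))) (T.a (T.b (T.b (T.a (T.l 816) (T.l 816)) (T.a (T.l 816) (T.l 816))) (T.a (T.l 816) (T.l 816))) (T.a (T.b (T.b (T.l 816) (T.l 816)) (T.l 816)) (T.b (T.b (T.l 816) (T.l 816)) (T.a (T.l 816) (T.b (T.l 816) (T.l 816)))))))) (T.b (T.a (T.b (T.b (T.a (T.l 816) (T.l 816)) (T.a (T.l 816) (T.l 816))) (T.b (T.a (T.l 816)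 (T.l 816)) (T.a (T.l 816) (T.l 816)))) (T.a (T.b (T.b (T.l 816) (T.l 816)) (T.a (T.l 816) (T.b (T.b (T.l 816) (T.l 816)) (T.b (T.l 816) (T.l 816))))) (T.b (T.b (T.a (T.l 816) (T.b (T.l 816) (T.l 816))) (T.a (T.b (T.l 816) (T.l 816)) (T.b (T.l 816) (T.l 816)))) (T.b (T.a (T.b (T.l 816) (T.l 816)) (T.l 880)) (T.a (T.l 880) (T.l 816)))))) (T.a (T.a (T.b (T.b (T.l 816) (T.l 816)) (T.l 816)) (T.a (T.b (T.l 816) (T.l 816)) (T.b (T.l 816) (T.a (T.l 816) (T.b (T.l 816) (T.l 816)))))) (T.a (T.b (T.a (T.a (T.l 816) (T.b (T.l 816) (T.l 816))) (T.b (T.b (T.l 816) (T.l 816)) (T.l 880))) (T.a (T.b (T.b (T.l 816) (T.l 816)) (T.b (T.l 816) (T.l 816))) (T.b (T.l 880) (T.l 816)))) (T.b (T.a (T.b (T.l 816) (T.l 816)) (T.b (T.l 816) (T.l 816))) (T.a (T.b (T.l 816) (T.l 816)) (T.b (T.l 816) (T.l 816)))))))), by decide +kernel⟩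

def A202R_013 :
    ∃ t, chk3 (onCell 0 67108864 0 1073741824 335544320 67108864 (corT false 3 c0N cA202R gN0q2 gN1q0 gN3q2 gN4q2 false true)) t 1 1 1 = true :=
  ⟨(T.b (T.l 2) (T.b (T.a (T.l 0) (T.a (T.b (T.l 0) (T.l 0)) (T.b (T.l 0) (T.l 0)))) (T.a (T.a (T.b (T.l 816) (T.l 816)) (T.a (T.l 816) (T.b (T.l 816) (T.a (T.l 816) (T.b (T.l 816) (T.l 816)))))) (T.a (T.b (T.b (T.l 0) (T.l 816)) (T.a (T.b (T.l 816) (T.b (T.l 816) (T.l 816))) (T.b (T.l 816) (T.l 816)))) (T.b (T.l 0) (T.b (T.l 816) (T.a (T.l 816) (T.l 816)))))))), by decide +kernel⟩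

def A202R_113 :
    ∃ t, chk3 (onCell 0 67108864 0 1073741824 335544320 67108864 (corT false 3 c0N cA202R gN1q2 gN1q0 gN3q2 gN4q2 false true)) t 1 1 1 = true :=
  ⟨(T.b (T.l 2) (T.b (T.l 2) (T.b (T.l 2) (T.a (T.a (T.l 816) (T.a (T.l 816) (T.l 816))) (T.a (T.l 816) (T.l 816)))))), by decide +kernel⟩

def B011E_000 :
    ∃ t, chk3 (onCell 0 67108864 0 1073741824 335544320 67108864 (corT false 3 c0N cB011E gN0q0 gN0q1 gN0q1 gN1q1 true false)) t 1 1 1 = true :=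
  ⟨(T.l 1), by decide +kernel⟩

def B011E_100 :
    ∃ t, chk3 (onCell 0 67108864 0 1073741824 335544320 67108864 (corT false 3 c0N cB011E gN1q0 gN0q1 gN0q1 gN1q1 true false)) t 1 1 1 = true :=
  ⟨(T.l 1), by decide +kernel⟩

def B011L_020 :
    ∃ t, chk3 (onCell 0 67108864 0 1073741824 335544320 67108864 (corT false 3 c0N cB011L gN0q0 gN2q1 gN0q1 gN1q1 true false)) t 1 1 1 = true :=
  ⟨(T.l 1), by decide +kernel⟩

def B011L_030 :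
    ∃ t, chk3 (onCell 0 67108864 0 1073741824 335544320 67108864 (corT false 3 c0N cB011L gN0q0 gN3q1 gN0q1 gN1q1 true false)) t 1 1 1 = true :=
  ⟨(T.l 1), by decide +kernel⟩

def B011L_040 :
    ∃ t, chk3 (onCell 0 67108864 0 1073741824 335544320 67108864 (corT false 3 c0N cB011L gN0q0 gN4q1 gN0q1 gN1q1 true false)) t 1 1 1 = true :=
  ⟨(T.l 1), by decide +kernel⟩

def B011L_120 :
    ∃ t, chk3 (onCell 0 67108864 0 1073741824 335544320 67108864 (corT false 3 c0N cB011L gN1q0 gN2q1 gN0q1 gN1q1 true false)) t 1 1 1 = true :=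
  ⟨(T.l 1), by decide +kernel⟩

def B011L_130 :
    ∃ t, chk3 (onCell 0 67108864 0 1073741824 335544320 67108864 (corT false 3 c0N cB011L gN1q0 gN3q1 gN0q1 gN1q1 true false)) t 1 1 1 = true :=
  ⟨(T.l 1), by decide +kernel⟩

def B011L_140 :
    ∃ t, chk3 (onCell 0 67108864 0 1073741824 335544320 67108864 (corT false 3 c0N cB011L gN1q0 gN4q1 gN0q1 gN1q1 true false)) t 1 1 1 = true :=
  ⟨(T.l 1), by decide +kernel⟩

def B011R_001 :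
    ∃ t, chk3 (onCell 0 67108864 0 1073741824 335544320 67108864 (corT false 3 c0N cB011R gN0q0 gN0q1 gN1q1 gN2q1 false true)) t 1 1 1 = true :=
  ⟨(T.b (T.b (T.b (T.b (T.a (T.c (T.b (T.a (T.l 204) (T.l 204)) (T.l 204)) (T.l 204)) (T.a (T.c (T.l 204) (T.l 204)) (T.c (T.a (T.l 204) (T.l 204)) (T.l 220)))) (T.l 2)) (T.l 2)) (T.l 2)) (T.l 2)), by decide +kernel⟩

def B011R_002 :
    ∃ t, chk3 (onCell 0 67108864 0 1073741824 335544320 67108864 (corT false 3 c0N cB011R gN0q0 gN0q1 gN2q1 gN3q1 true true)) t 1 1 1 = true :=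
  ⟨(T.b (T.b (T.b (T.a (T.c (T.b (T.l 220) (T.l 204)) (T.b (T.l 204) (T.l 204))) (T.a (T.c (T.l 204) (T.l 204)) (T.c (T.a (T.b (T.l 204) (T.l 204)) (T.l 220)) (T.a (T.b (T.l 204) (T.l 204)) (T.l 220))))) (T.b (T.a (T.c (T.l 204) (T.b (T.l 204) (T.b (T.l 204) (T.l 2)))) (T.a (T.b (T.l 204) (T.l 220)) (T.a (T.c (T.l 204) (T.c (T.l 204) (T.l 204))) (T.c (T.l 204) (T.b (T.l 204) (T.l 460)))))) (T.l 2))) (T.l 2)) (T.l 2)), by decide +kernel⟩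

def B011R_003 :
    ∃ t, chk3 (onCell 0 67108864 0 1073741824 335544320 67108864 (corT false 3 c0N cB011R gN0q0 gN0q1 gN3q1 gN4q1 true true)) t 1 1 1 = true :=
  ⟨(T.b (T.b (T.b (T.l 1) (T.a (T.c (T.b (T.a (T.l 204) (T.l 204)) (T.a (T.l 204) (T.l 204))) (T.b (T.b (T.l 1) (T.a (T.l 204) (T.l 204))) (T.b (T.l 204) (T.l 204)))) (T.a (T.c (T.b (T.l 204) (T.l 204)) (T.b (T.l 204) (T.l 204))) (T.c (T.a (T.b (T.l 204) (T.l 204)) (T.b (T.l 204) (T.l 204))) (T.a (T.b (T.l 204) (T.l 204)) (T.b (T.l 204) (T.l 204))))))) (T.b (T.b (T.a (T.c (T.a (T.l 204) (T.l 204)) (T.a (T.l 204) (T.l 204))) (T.a (T.b (T.l 204) (T.l 204)) (T.a (T.c (T.b (T.l 204) (T.l 0)) (T.b (T.l 204) (T.l 0))) (T.c (T.l 0) (T.l 0))))) (T.b (T.a (T.b (T.l 0) (T.b (T.c (T.a (T.a (T.l 0) (T.l 0)) (T.l 0)) (T.l 0)) (T.a (T.l 2) (T.b (T.b (T.a (T.l 2) (T.l 0)) (T.l 2)) (T.l 2))))) (T.a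 (T.b (T.l 0) (T.b (T.l 0) (T.b (T.c (T.c (T.a (T.c (T.l 816) (T.l 816)) (T.l 816)) (T.l 0)) (T.l 0)) (T.l 2)))) (T.a (T.c (T.b (T.l 0) (T.b (T.c (T.l 0) (T.l 0)) (T.b (T.a (T.c (T.l 0) (T.l 0)) (T.l 0)) (T.l 2)))) (T.b (T.l 0) (T.b (T.l 0) (T.b (T.a (T.l 0) (T.l 0)) (T.l 2))))) (T.c (T.b (T.l 0) (T.b (T.l 0) (T.b (T.c (T.l 0) (T.l 0)) (T.a (T.l 2) (T.b (T.c (T.l 816) (T.l 0)) (T.l 2)))))) (T.b (T.l 0) (T.b (T.l 0) (T.b (T.l 0) (T.a (T.l 2) (T.b (T.l 0) (T.l 2)))))))))) (T.l 2))) (T.l 2))) (T.l 2)), by decide +kernel⟩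

def B011R_101 :
    ∃ t, chk3 (onCell 0 67108864 0 1073741824 335544320 67108864 (corT false 3 c0N cB011R gN1q0 gN0q1 gN1q1 gN2q1 false true)) t 1 1 1 = true :=
  ⟨(T.l 2), by decide +kernel⟩

def B011R_102 :
    ∃ t, chk3 (onCell 0 67108864 0 1073741824 335544320 67108864 (corT false 3 c0N cB011R gN1q0 gN0q1 gN2q1 gN3q1 true true)) t 1 1 1 = true :=
  ⟨(T.l 2), by decide +kernel⟩

def B011R_103 :
    ∃ t, chk3 (onCell 0 67108864 0 1073741824 335544320 67108864 (corT false 3 c0N cB011R gN1q0 gN0q1 gN3q1 gN4q1 true true)) t 1 1 1 = true :=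
  ⟨(T.l 2), by decide +kernel⟩

def B012E_000_1_2_1 :
    ∃ t, chk3 (onCell 0 67108864 0 1073741824 335544320 67108864 (corT false 3 c0N cB012E gN0q0 gN0q2 gN0q1 gN1q1 true false)) t 1 2 1 = true :=
  ⟨(T.b (T.l 1) (T.b (T.l 1) (T.b (T.l 1) (T.b (T.l 1) (T.a (T.b (T.l 1) (T.a (T.b (T.l 1) (T.a (T.b (T.l 1) (T.l 0)) (T.l 0))) (T.b (T.b (T.a (T.l 1) (T.c (T.l 0) (T.l 0))) (T.c (T.l 0) (T.l 0))) (T.l 0)))) (T.a (T.b (T.b (T.l 1) (T.a (T.l 1) (T.b (T.l 1) (T.l 0)))) (T.l 0)) (T.b (T.b (T.a (T.l 1) (T.b (T.l 1) (T.l 0))) (T.c (T.l 0) (T.l 0))) (T.a (T.l 816) (T.l 0))))))))), by decide +kernel⟩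

def B012E_000_1_3_1 :
    ∃ t, chk3 (onCell 0 67108864 0 1073741824 335544320 67108864 (corT false 3 c0N cB012E gN0q0 gN0q2 gN0q1 gN1q1 true false)) t 1 3 1 = true :=
  ⟨(T.b (T.a (T.b (T.b (T.a (T.b (T.l 0) (T.l 816)) (T.b (T.l 0) (T.l 816))) (T.a (T.b (T.l 816) (T.l 816)) (T.b (T.l 816) (T.l 816)))) (T.a (T.c (T.b (T.l 816) (T.b (T.l 816) (T.l 816))) (T.b (T.l 816) (T.l 816))) (T.c (T.b (T.l 816) (T.l 816)) (T.l 820)))) (T.a (T.b (T.b (T.b (T.l 816) (T.l 816)) (T.l 816)) (T.a (T.l 820) (T.b (T.b (T.l 816) (T.l 816)) (T.b (T.l 816) (T.l 816))))) (T.b (T.b (T.a (T.l 816) (T.b (T.c (T.l 0) (T.l 0)) (T.l 0))) (T.a (T.b (T.l 0) (T.l 816)) (T.b (T.l 0) (T.l 816)))) (T.b (T.a (T.b (T.l 816) (T.l 816)) (T.l 64)) (T.a (T.l 880) (T.l 816)))))) (T.a (T.a (T.b (T.c (T.a (T.b (T.l 816) (T.l 816)) (T.l 816)) (T.b (T.l 816) (T.l 816))) (T.c (T.a (T.b (T.l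 816) (T.b (T.l 816) (T.l 816))) (T.l 816)) (T.b (T.l 816) (T.l 816)))) (T.a (T.b (T.b (T.l 816) (T.l 816)) (T.b (T.l 816) (T.l 816))) (T.b (T.l 816) (T.a (T.l 816) (T.b (T.l 816) (T.l 816)))))) (T.a (T.b (T.a (T.a (T.l 816) (T.b (T.l 816) (T.l 816))) (T.b (T.b (T.l 816) (T.l 816)) (T.l 820))) (T.a (T.a (T.b (T.l 816) (T.l 816)) (T.b (T.l 816) (T.l 816))) (T.b (T.l 816) (T.l 816)))) (T.b (T.a (T.b (T.l 816) (T.l 816)) (T.b (T.l 816) (T.l 816))) (T.a (T.b (T.l 816) (T.l 816)) (T.b (T.l 816) (T.l 816))))))), by decide +kernel⟩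

theorem B012E_000 :
    ∃ t, chk3 (onCell 0 67108864 0 1073741824 335544320 67108864 (corT false 3 c0N cB012E gN0q0 gN0q2 gN0q1 gN1q1 true false)) t 1 1 1 = true :=
  ex3_b B012E_000_1_2_1 B012E_000_1_3_1

def B012E_010_1_2_1 :
    ∃ t, chk3 (onCell 0 67108864 0 1073741824 335544320 67108864 (corT false 3 c0N cB012E gN0q0 gN1q2 gN0q1 gN1q1 true false)) t 1 2 1 = true :=
  ⟨(T.l 1), by decide +kernel⟩

def B012E_010_1_6_1 :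
    ∃ t, chk3 (onCell 0 67108864 0 1073741824 335544320 67108864 (corT false 3 c0N cB012E gN0q0 gN1q2 gN0q1 gN1q1 true false)) t 1 6 1 = true :=
  ⟨(T.b (T.l 1) (T.b (T.l 1) (T.a (T.c (T.a (T.l 816) (T.l 820)) (T.a (T.l 816) (T.l 820))) (T.a (T.a (T.c (T.l 820) (T.l 820)) (T.c (T.b (T.a (T.l 820) (T.l 820)) (T.b (T.l 820) (T.l 820))) (T.b (T.a (T.l 820) (T.l 884)) (T.b (T.l 820) (T.l 820))))) (T.a (T.c (T.b (T.a (T.l 820) (T.l 884)) (T.b (T.l 820) (T.l 820))) (T.b (T.a (T.l 884) (T.l 884)) (T.b (T.l 820) (T.l 820)))) (T.c (T.b (T.c (T.l 884) (T.l 884)) (T.b (T.l 820) (T.l 820))) (T.b (T.a (T.l 884) (T.l 884)) (T.l 884)))))))), by decide +kernel⟩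

def B012E_010_1_7_1 :
    ∃ t, chk3 (onCell 0 67108864 0 1073741824 335544320 67108864 (corT false 3 c0N cB012E gN0q0 gN1q2 gN0q1 gN1q1 true false)) t 1 7 1 = true :=
  ⟨(T.a (T.a (T.b (T.c (T.b (T.l 816) (T.l 816)) (T.b (T.l 816) (T.l 816))) (T.c (T.b (T.l 816) (T.b (T.l 816) (T.l 816))) (T.b (T.l 816) (T.l 816)))) (T.a (T.c (T.b (T.b (T.l 816) (T.l 816)) (T.l 820)) (T.b (T.l 816) (T.l 816))) (T.b (T.c (T.b (T.l 816) (T.l 816)) (T.l 820)) (T.b (T.c (T.l 816) (T.l 816)) (T.a (T.c (T.l 816) (T.l 816)) (T.c (T.l 816) (T.l 816))))))) (T.a (T.b (T.a (T.b (T.a (T.c (T.l 816) (T.l 816)) (T.c (T.b (T.l 816) (T.l 816)) (T.l 820))) (T.c (T.a (T.l 820) (T.l 820)) (T.b (T.l 820) (T.l 820)))) (T.b (T.c (T.a (T.l 820) (T.l 820)) (T.b (T.l 820) (T.l 820))) (T.c (T.b (T.l 820) (T.l 816)) (T.b (T.l 816) (T.l 816))))) (T.a (T.c (T.b (T.a (T.l 816) (T.l 816))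 (T.a (T.l 816) (T.l 816))) (T.b (T.b (T.l 816) (T.l 816)) (T.b (T.l 816) (T.l 816)))) (T.c (T.b (T.b (T.l 816) (T.l 816)) (T.b (T.l 816) (T.l 816))) (T.b (T.b (T.l 816) (T.l 816)) (T.b (T.l 816) (T.l 816)))))) (T.b (T.b (T.a (T.c (T.b (T.l 820) (T.l 820)) (T.b (T.l 820) (T.l 816))) (T.c (T.b (T.l 820) (T.l 816)) (T.b (T.l 820) (T.l 816)))) (T.a (T.c (T.b (T.l 816) (T.l 816)) (T.b (T.l 816) (T.l 816))) (T.c (T.l 820) (T.l 820)))) (T.a (T.c (T.b (T.l 820) (T.l 820)) (T.b (T.l 820) (T.l 816))) (T.c (T.b (T.l 816) (T.l 816)) (T.b (T.l 816) (T.l 816))))))), by decide +kernel⟩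

theorem B012E_010_1_3_1 :
    ∃ t, chk3 (onCell 0 67108864 0 1073741824 335544320 67108864 (corT false 3 c0N cB012E gN0q0 gN1q2 gN0q1 gN1q1 true false)) t 1 3 1 = true :=
  ex3_b B012E_010_1_6_1 B012E_010_1_7_1
theorem B012E_010 :
    ∃ t, chk3 (onCell 0 67108864 0 1073741824 335544320 67108864 (corT false 3 c0N cB012E gN0q0 gN1q2 gN0q1 gN1q1 true false)) t 1 1 1 = true :=
  ex3_b B012E_010_1_2_1 B012E_010_1_3_1

def B012E_100 :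
    ∃ t, chk3 (onCell 0 67108864 0 1073741824 335544320 67108864 (corT false 3 c0N cB012E gN1q0 gN0q2 gN0q1 gN1q1 true false)) t 1 1 1 = true :=
  ⟨(T.b (T.a (T.b (T.l 0) (T.l 0)) (T.b (T.b (T.l 1) (T.b (T.l 1) (T.l 0))) (T.b (T.l 0) (T.b (T.l 0) (T.l 0))))) (T.b (T.a (T.l 0) (T.b (T.l 0) (T.l 0))) (T.a (T.a (T.l 816) (T.b (T.l 816) (T.l 0))) (T.b (T.l 0) (T.l 0))))), by decide +kernel⟩

def B012E_110 :
    ∃ t, chk3 (onCell 0 67108864 0 1073741824 335544320 67108864 (corT false 3 c0N cB012E gN1q0 gN1q2 gN0q1 gN1q1 true false)) t 1 1 1 = true :=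
  ⟨(T.b (T.b (T.l 1) (T.a (T.l 0) (T.b (T.l 0) (T.l 0)))) (T.b (T.a (T.l 816) (T.l 0)) (T.a (T.a (T.l 816) (T.l 0)) (T.l 0)))), by decide +kernel⟩

def B012L_040 :
    ∃ t, chk3 (onCell 0 67108864 0 1073741824 335544320 67108864 (corT false 3 c0N cB012L gN0q0 gN4q2 gN0q1 gN1q1 true false)) t 1 1 1 = true :=
  ⟨(T.l 1), by decide +kernel⟩

def B012L_140 :
    ∃ t, chk3 (onCell 0 67108864 0 1073741824 335544320 67108864 (corT false 3 c0N cB012L gN1q0 gN4q2 gN0q1 gN1q1 true false)) t 1 1 1 = true :=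
  ⟨(T.l 1), by decide +kernel⟩

def B012R_001_1_2_1 :
    ∃ t, chk3 (onCell 0 67108864 0 1073741824 335544320 67108864 (corT false 3 c0N cB012R gN0q0 gN0q2 gN1q1 gN2q1 false true)) t 1 2 1 = true :=
  ⟨(T.a (T.b (T.b (T.c (T.b (T.a (T.l 204) (T.l 204)) (T.l 220)) (T.b (T.l 204) (T.l 204))) (T.c (T.b (T.l 220) (T.l 220)) (T.b (T.l 204) (T.l 204)))) (T.b (T.c (T.b (T.l 476) (T.l 476)) (T.b (T.l 204) (T.l 204))) (T.c (T.b (T.l 460) (T.l 460)) (T.b (T.l 460) (T.l 460))))) (T.a (T.b (T.b (T.c (T.b (T.l 204) (T.l 204)) (T.l 204)) (T.c (T.b (T.l 204) (T.l 204)) (T.l 460))) (T.b (T.c (T.b (T.l 476) (T.l 476)) (T.l 476)) (T.c (T.b (T.l 460) (T.l 460)) (T.l 460)))) (T.b (T.b (T.a (T.c (T.b (T.b (T.l 204) (T.l 204)) (T.b (T.l 204) (T.l 204))) (T.b (T.l 204) (T.l 204))) (T.c (T.b (T.l 220) (T.b (T.l 204) (T.l 204))) (T.b (T.l 204) (T.l 204)))) (T.a (T.c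 (T.l 476) (T.l 204)) (T.c (T.b (T.b (T.l 220) (T.l 220)) (T.b (T.l 476) (T.l 204))) (T.b (T.l 220) (T.l 476))))) (T.b (T.c (T.b (T.l 476) (T.l 476)) (T.b (T.l 460) (T.l 460))) (T.b (T.c (T.l 476) (T.l 460)) (T.a (T.c (T.l 460) (T.l 204)) (T.c (T.b (T.l 460) (T.l 476)) (T.l 476)))))))), by decide +kernel⟩

def B012R_001_1_3_1 :
    ∃ t, chk3 (onCell 0 67108864 0 1073741824 335544320 67108864 (corT false 3 c0N cB012R gN0q0 gN0q2 gN1q1 gN2q1 false true)) t 1 3 1 = true :=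
  ⟨(T.b (T.a (T.b (T.c (T.a (T.l 460) (T.l 460)) (T.b (T.l 460) (T.l 460))) (T.c (T.a (T.b (T.l 204) (T.l 204)) (T.l 460)) (T.b (T.l 460) (T.l 204)))) (T.a (T.b (T.c (T.b (T.l 460) (T.l 460)) (T.l 460)) (T.a (T.b (T.l 476) (T.l 460)) (T.b (T.c (T.l 476) (T.l 460)) (T.c (T.l 476) (T.l 460))))) (T.b (T.b (T.a (T.b (T.l 476) (T.l 476)) (T.c (T.l 476) (T.l 476))) (T.a (T.c (T.l 476) (T.l 476)) (T.c (T.l 476) (T.l 476)))) (T.a (T.b (T.c (T.l 476) (T.l 460)) (T.b (T.l 476) (T.l 476))) (T.b (T.b (T.l 476) (T.l 476)) (T.b (T.l 476) (T.l 476))))))) (T.a (T.a (T.c (T.b (T.b (T.l 204) (T.l 204)) (T.b (T.l 204) (T.l 204))) (T.b (T.l 204) (T.l 204))) (T.a (T.c (T.b (T.l 204) (T.l 204)) (T.l 460)) (T.b (T.b (T.l 460) (T.l 460)) (T.a (T.l 460) (T.b (T.l 460) (T.l 460)))))) (T.a (T.b (T.a (T.a (T.l 460) (T.c (T.l 476) (T.l 460))) (T.b (T.c (T.l 476) (T.l 460))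 (T.b (T.l 476) (T.l 476)))) (T.a (T.a (T.b (T.l 476) (T.l 460)) (T.b (T.l 476) (T.l 460))) (T.b (T.b (T.l 476) (T.l 476)) (T.l 476)))) (T.b (T.a (T.b (T.b (T.l 476) (T.l 476)) (T.l 476)) (T.b (T.l 476) (T.l 476))) (T.a (T.b (T.l 476) (T.l 476)) (T.b (T.l 476) (T.l 476))))))), by decide +kernel⟩

theorem B012R_001 :
    ∃ t, chk3 (onCell 0 67108864 0 1073741824 335544320 67108864 (corT false 3 c0N cB012R gN0q0 gN0q2 gN1q1 gN2q1 false true)) t 1 1 1 = true :=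
  ex3_b B012R_001_1_2_1 B012R_001_1_3_1

def B012R_002 :
    ∃ t, chk3 (onCell 0 67108864 0 1073741824 335544320 67108864 (corT false 3 c0N cB012R gN0q0 gN0q2 gN2q1 gN3q1 true true)) t 1 1 1 = true :=
  ⟨(T.b (T.l 1) (T.l 1)), by decide +kernel⟩

def B012R_003 :
    ∃ t, chk3 (onCell 0 67108864 0 1073741824 335544320 67108864 (corT false 3 c0N cB012R gN0q0 gN0q2 gN3q1 gN4q1 true true)) t 1 1 1 = true :=
  ⟨(T.b (T.l 1) (T.l 1)), by decide +kernel⟩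

def B012R_011 :
    ∃ t, chk3 (onCell 0 67108864 0 1073741824 335544320 67108864 (corT false 3 c0N cB012R gN0q0 gN1q2 gN1q1 gN2q1 false true)) t 1 1 1 = true :=
  ⟨(T.b (T.a (T.b (T.b (T.c (T.b (T.l 204) (T.l 204)) (T.l 204)) (T.l 204)) (T.l 204)) (T.a (T.b (T.c (T.b (T.l 204) (T.l 204)) (T.l 204)) (T.l 204)) (T.b (T.b (T.b (T.c (T.a (T.l 204) (T.l 204)) (T.b (T.l 220) (T.l 204))) (T.c (T.l 220) (T.l 204))) (T.a (T.l 204) (T.l 476))) (T.b (T.l 204) (T.l 460))))) (T.b (T.a (T.l 204) (T.a (T.b (T.l 204) (T.l 204)) (T.b (T.l 204) (T.l 204)))) (T.a (T.a (T.l 204) (T.a (T.l 204) (T.l 460))) (T.a (T.b (T.l 204) (T.l 204)) (T.b (T.l 204) (T.l 204)))))), by decide +kernel⟩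

def B012R_012 :
    ∃ t, chk3 (onCell 0 67108864 0 1073741824 335544320 67108864 (corT false 3 c0N cB012R gN0q0 gN1q2 gN2q1 gN3q1 true true)) t 1 1 1 = true :=
  ⟨(T.b (T.l 1) (T.l 1)), by decide +kernel⟩

def B012R_013 :
    ∃ t, chk3 (onCell 0 67108864 0 1073741824 335544320 67108864 (corT false 3 c0N cB012R gN0q0 gN1q2 gN3q1 gN4q1 true true)) t 1 1 1 = true :=
  ⟨(T.l 1), by decide +kernel⟩

def B012R_101 :
    ∃ t, chk3 (onCell 0 67108864 0 1073741824 335544320 67108864 (corT false 3 c0N cB012R gN1q0 gN0q2 gN1q1 gN2q1 false true)) t 1 1 1 = true :=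
  ⟨(T.b (T.b (T.l 2) (T.a (T.l 2) (T.b (T.l 2) (T.l 0)))) (T.b (T.a (T.l 0) (T.b (T.l 0) (T.l 0))) (T.a (T.a (T.l 0) (T.b (T.l 204) (T.l 0))) (T.b (T.l 0) (T.l 0))))), by decide +kernel⟩

def B012R_102 :
    ∃ t, chk3 (onCell 0 67108864 0 1073741824 335544320 67108864 (corT false 3 c0N cB012R gN1q0 gN0q2 gN2q1 gN3q1 true true)) t 1 1 1 = true :=
  ⟨(T.b (T.b (T.l 2) (T.a (T.l 0) (T.b (T.l 2) (T.l 0)))) (T.b (T.a (T.l 0) (T.b (T.l 0) (T.l 1))) (T.l 1))), by decide +kernel⟩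

def B012R_103 :
    ∃ t, chk3 (onCell 0 67108864 0 1073741824 335544320 67108864 (corT false 3 c0N cB012R gN1q0 gN0q2 gN3q1 gN4q1 true true)) t 1 1 1 = true :=
  ⟨(T.b (T.b (T.l 2) (T.b (T.l 816) (T.a (T.l 816) (T.l 0)))) (T.b (T.a (T.l 0) (T.l 1)) (T.l 1))), by decide +kernel⟩

def B012R_111 :
    ∃ t, chk3 (onCell 0 67108864 0 1073741824 335544320 67108864 (corT false 3 c0N cB012R gN1q0 gN1q2 gN1q1 gN2q1 false true)) t 1 1 1 = true :=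
  ⟨(T.l 2), by decide +kernel⟩

def B012R_112 :
    ∃ t, chk3 (onCell 0 67108864 0 1073741824 335544320 67108864 (corT false 3 c0N cB012R gN1q0 gN1q2 gN2q1 gN3q1 true true)) t 1 1 1 = true :=
  ⟨(T.l 2), by decide +kernel⟩

def B012R_113 :
    ∃ t, chk3 (onCell 0 67108864 0 1073741824 335544320 67108864 (corT false 3 c0N cB012R gN1q0 gN1q2 gN3q1 gN4q1 true true)) t 1 1 1 = true :=
  ⟨(T.l 2), by decide +kernel⟩

def B022E_000 :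
    ∃ t, chk3 (onCell 0 67108864 0 1073741824 335544320 67108864 (corT false 3 c0N cB022E gN0q0 gN0q2 gN0q2 gN1q2 true true)) t 1 1 1 = true :=
  ⟨(T.l 2), by decide +kernel⟩

def B022E_001 :
    ∃ t, chk3 (onCell 0 67108864 0 1073741824 335544320 67108864 (corT false 3 c0N cB022E gN0q0 gN0q2 gN1q2 gN2q2 true false)) t 1 1 1 = true :=
  ⟨(T.b (T.a (T.a (T.l 0) (T.a (T.l 0) (T.b (T.a (T.l 204) (T.b (T.l 204) (T.l 204))) (T.l 0)))) (T.a (T.b (T.a (T.b (T.l 220) (T.l 204)) (T.b (T.l 204) (T.l 204))) (T.a (T.l 204) (T.b (T.l 204) (T.l 204)))) (T.b (T.a (T.b (T.l 220) (T.l 204)) (T.b (T.b (T.l 204) (T.l 204)) (T.l 204))) (T.b (T.b (T.l 220) (T.l 204)) (T.b (T.l 204) (T.l 204)))))) (T.b (T.a (T.a (T.l 0) (T.a (T.l 0) (T.l 0))) (T.a (T.l 16) (T.b (T.l 16) (T.l 0)))) (T.a (T.a (T.l 0) (T.a (T.l 0) (T.l 0))) (T.a (T.b (T.l 0) (T.l 0)) (T.l 0))))), by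 decide +kernel⟩

def B022E_010 :
    ∃ t, chk3 (onCell 0 67108864 0 1073741824 335544320 67108864 (corT false 3 c0N cB022E gN0q0 gN1q2 gN0q2 gN1q2 true true)) t 1 1 1 = true :=
  ⟨(T.l 2), by decide +kernel⟩

def B022E_011 :
    ∃ t, chk3 (onCell 0 67108864 0 1073741824 335544320 67108864 (corT false 3 c0N cB022E gN0q0 gN1q2 gN1q2 gN2q2 true false)) t 1 1 1 = true :=
  ⟨(T.b (T.a (T.a (T.b (T.l 816) (T.l 816)) (T.a (T.l 0) (T.b (T.b (T.l 0) (T.l 0)) (T.l 0)))) (T.b (T.a (T.a (T.l 0) (T.l 0)) (T.b (T.l 0) (T.l 0))) (T.a (T.b (T.l 4) (T.l 0)) (T.b (T.l 0) (T.l 0))))) (T.b (T.a (T.a (T.l 816) (T.a (T.l 816) (T.l 816))) (T.a (T.l 0) (T.b (T.l 0) (T.l 816)))) (T.a (T.a (T.l 816) (T.a (T.l 816) (T.l 816))) (T.a (T.c (T.l 816) (T.l 816)) (T.b (T.l 816) (T.l 816)))))), by decide +kernel⟩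

def B022E_100 :
    ∃ t, chk3 (onCell 0 53687091 0 1073741824 335544320 67108864 (corT false 3 c0N cB022E gN1q0 gN0q2 gN0q2 gN1q2 true true)) t 1 1 1 = true :=
  ⟨(T.l 2), by decide +kernel⟩

def B022E_101 :
    ∃ t, chk3 (onCell 0 53687091 0 1073741824 335544320 67108864 (corT false 3 c0N cB022E gN1q0 gN0q2 gN1q2 gN2q2 true false)) t 1 1 1 = true :=
  ⟨(T.a (T.b (T.a (T.l 0) (T.l 16)) (T.l 0)) (T.b (T.b (T.a (T.b (T.a (T.l 204) (T.l 204)) (T.l 0)) (T.b (T.a (T.l 204) (T.l 204)) (T.l 204))) (T.a (T.l 0) (T.l 0))) (T.l 0))), by decide +kernel⟩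

def B022E_110 :
    ∃ t, chk3 (onCell 0 67108864 0 1073741824 335544320 67108864 (corT false 3 c0N cB022E gN1q0 gN1q2 gN0q2 gN1q2 true true)) t 1 1 1 = true :=
  ⟨(T.l 2), by decide +kernel⟩

def B022E_111 :
    ∃ t, chk3 (onCell 0 67108864 0 1073741824 335544320 67108864 (corT false 3 c0N cB022E gN1q0 gN1q2 gN1q2 gN2q2 true false)) t 1 1 1 = true :=
  ⟨(T.b (T.a (T.a (T.l 0) (T.a (T.l 0) (T.b (T.b (T.l 0) (T.l 0)) (T.l 0)))) (T.b (T.a (T.a (T.l 0) (T.l 0)) (T.b (T.l 0) (T.l 0))) (T.b (T.l 0) (T.l 0)))) (T.b (T.a (T.a (T.l 816) (T.l 0)) (T.b (T.l 0) (T.l 0))) (T.a (T.a (T.l 816) (T.l 816)) (T.l 0)))), by decide +kernel⟩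

def B022L_040 :
    ∃ t, chk3 (onCell 0 67108864 0 1073741824 335544320 67108864 (corT false 3 c0N cB022L gN0q0 gN4q2 gN0q2 gN1q2 true true)) t 1 1 1 = true :=
  ⟨(T.b (T.b (T.b (T.l 2) (T.a (T.l 204) (T.b (T.l 2) (T.b (T.a (T.a (T.l 204) (T.l 204)) (T.c (T.l 0) (T.l 0))) (T.a (T.a (T.l 204) (T.l 204)) (T.c (T.l 0) (T.l 0))))))) (T.a (T.b (T.b (T.l 204) (T.l 204)) (T.b (T.l 204) (T.l 204))) (T.b (T.b (T.a (T.a (T.l 204) (T.b (T.l 204) (T.l 204))) (T.a (T.l 204) (T.l 204))) (T.a (T.a (T.l 204) (T.b (T.l 204) (T.l 204))) (T.a (T.b (T.l 204) (T.l 204)) (T.l 204)))) (T.a (T.l 204) (T.b (T.a (T.b (T.l 204) (T.l 204)) (T.b (T.l 204) (T.l 204))) (T.a (T.l 204) (T.b (T.l 204) (T.l 204)))))))) (T.b (T.b (T.b (T.a (T.l 204) (T.a (T.l 204) (T.a (T.l 204) (T.b (T.l 204) (T.l 204))))) (T.a (T.a (T.l 204) (T.l 204)) (T.a (T.l 204) (T.l 204)))) (T.b (T.b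 (T.a (T.a (T.l 0) (T.l 0)) (T.a (T.l 0) (T.l 0))) (T.b (T.a (T.b (T.l 0) (T.b (T.a (T.l 0) (T.l 0)) (T.a (T.a (T.l 1) (T.b (T.l 0) (T.l 1))) (T.c (T.a (T.b (T.l 0) (T.l 1)) (T.l 0)) (T.l 0))))) (T.c (T.a (T.l 0) (T.l 0)) (T.l 0))) (T.a (T.l 1) (T.b (T.b (T.b (T.a (T.a (T.l 1) (T.l 0)) (T.l 0)) (T.l 1)) (T.l 1)) (T.l 1))))) (T.l 1))) (T.l 1))), by decide +kernel⟩

def B022L_041 :
    ∃ t, chk3 (onCell 0 67108864 0 1073741824 335544320 67108864 (corT false 3 c0N cB022L gN0q0 gN4q2 gN1q2 gN2q2 true false)) t 1 1 1 = true :=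
  ⟨(T.b (T.b (T.b (T.a (T.a (T.l 204) (T.b (T.l 0) (T.l 204))) (T.a (T.l 204) (T.l 204))) (T.a (T.l 204) (T.a (T.l 204) (T.l 204)))) (T.l 1)) (T.l 1)), by decide +kernel⟩

def B022L_140 :
    ∃ t, chk3 (onCell 0 67108864 0 1073741824 335544320 67108864 (corT false 3 c0N cB022L gN1q0 gN4q2 gN0q2 gN1q2 true true)) t 1 1 1 = true :=
  ⟨(T.b (T.b (T.b (T.b (T.a (T.l 2) (T.l 2)) (T.a (T.l 204) (T.a (T.a (T.l 0) (T.l 0)) (T.b (T.l 2) (T.l 0))))) (T.a (T.l 204) (T.a (T.a (T.l 0) (T.l 0)) (T.b (T.l 0) (T.l 0))))) (T.a (T.l 0) (T.b (T.a (T.b (T.l 0) (T.l 0)) (T.l 0)) (T.a (T.l 0) (T.l 0))))) (T.l 1)), by decide +kernel⟩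

def B022L_141 :
    ∃ t, chk3 (onCell 0 67108864 0 1073741824 335544320 67108864 (corT false 3 c0N cB022L gN1q0 gN4q2 gN1q2 gN2q2 true false)) t 1 1 1 = true :=
  ⟨(T.b (T.b (T.b (T.a (T.a (T.l 204) (T.b (T.l 0) (T.l 204))) (T.b (T.l 0) (T.l 0))) (T.l 1)) (T.l 1)) (T.l 1)), by decide +kernel⟩

def B022R_003 :
    ∃ t, chk3 (onCell 0 67108864 0 1073741824 335544320 67108864 (corT false 3 c0N cB022R gN0q0 gN0q2 gN3q2 gN4q2 false true)) t 1 1 1 = true :=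
  ⟨(T.a (T.a (T.b (T.b (T.l 204) (T.l 204)) (T.l 204)) (T.a (T.b (T.l 204) (T.l 204)) (T.b (T.b (T.l 204) (T.l 204)) (T.l 204)))) (T.a (T.b (T.b (T.a (T.l 204) (T.l 204)) (T.l 220)) (T.b (T.l 204) (T.l 204))) (T.b (T.b (T.b (T.l 204) (T.l 204)) (T.l 204)) (T.l 0)))), by decide +kernel⟩

def B022R_013 :
    ∃ t, chk3 (onCell 0 67108864 0 1073741824 335544320 67108864 (corT false 3 c0N cB022R gN0q0 gN1q2 gN3q2 gN4q2 false true)) t 1 1 1 = true :=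
  ⟨(T.a (T.a (T.b (T.l 204) (T.l 204)) (T.b (T.l 0) (T.l 0))) (T.b (T.b (T.l 0) (T.l 0)) (T.b (T.l 0) (T.l 0)))), by decide +kernel⟩

def B022R_103 :
    ∃ t, chk3 (onCell 0 67108864 0 1073741824 335544320 67108864 (corT false 3 c0N cB022R gN1q0 gN0q2 gN3q2 gN4q2 false true)) t 1 1 1 = true :=
  ⟨(T.a (T.a (T.b (T.b (T.l 204) (T.l 204)) (T.l 0)) (T.b (T.a (T.l 220) (T.b (T.l 204) (T.l 204))) (T.l 0))) (T.b (T.a (T.b (T.a (T.l 204) (T.l 204)) (T.l 0)) (T.b (T.b (T.l 204) (T.l 204)) (T.l 204))) (T.l 0))), by decide +kernel⟩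

def B022R_113 :
    ∃ t, chk3 (onCell 0 67108864 0 1073741824 335544320 67108864 (corT false 3 c0N cB022R gN1q0 gN1q2 gN3q2 gN4q2 false true)) t 1 1 1 = true :=
  ⟨(T.b (T.a (T.a (T.l 0) (T.l 256)) (T.b (T.l 0) (T.l 0))) (T.a (T.l 2) (T.l 0))), by decide +kernel⟩

def B101E_000 :
    ∃ t, chk3 (onCell 0 33554432 0 1073741824 335544320 67108864 (corT false 3 c0N cB101E gN0q1 gN0q1 gN0q0 gN1q0 true true)) t 1 1 1 = true :=
  ⟨(T.l 2), by decide +kernel⟩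

def B101E_001 :
    ∃ t, chk3 (onCell 0 33554432 0 1073741824 335544320 67108864 (corT false 3 c0N cB101E gN0q1 gN0q1 gN1q0 gN2q0 true false)) t 1 1 1 = true :=
  ⟨(T.b (T.b (T.b (T.l 204) (T.l 204)) (T.b (T.l 204) (T.l 204))) (T.b (T.b (T.l 204) (T.l 204)) (T.l 204))), by decide +kernel⟩

def B101L_200 :
    ∃ t, chk3 (onCell 0 67108864 0 1073741824 335544320 67108864 (corT false 3 c0N cB101L gN2q1 gN0q1 gN0q0 gN1q0 true true)) t 1 1 1 = true :=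
  ⟨(T.b (T.l 1) (T.b (T.l 1) (T.b (T.l 1) (T.b (T.l 1) (T.a (T.b (T.b (T.b (T.l 1) (T.c (T.a (T.l 880) (T.l 816)) (T.l 816))) (T.l 816)) (T.l 816)) (T.a (T.b (T.b (T.b (T.l 1) (T.l 880)) (T.l 816)) (T.l 816)) (T.b (T.b (T.b (T.l 1) (T.c (T.l 880) (T.l 816))) (T.l 816)) (T.l 816)))))))), by decide +kernel⟩

def B101L_201 :
    ∃ t, chk3 (onCell 0 67108864 0 1073741824 335544320 67108864 (corT false 3 c0N cB101L gN2q1 gN0q1 gN1q0 gN2q0 true false)) t 1 1 1 = true :=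
  ⟨(T.l 1), by decide +kernel⟩

def B101L_300 :
    ∃ t, chk3 (onCell 0 67108864 0 1073741824 335544320 67108864 (corT false 3 c0N cB101L gN3q1 gN0q1 gN0q0 gN1q0 true true)) t 1 1 1 = true :=
  ⟨(T.b (T.l 1) (T.b (T.l 1) (T.a (T.b (T.b (T.l 1) (T.b (T.b (T.l 1) (T.b (T.b (T.l 1) (T.c (T.l 816) (T.l 816))) (T.l 816))) (T.l 816))) (T.l 816)) (T.b (T.b (T.l 1) (T.a (T.b (T.b (T.l 1) (T.c (T.l 816) (T.l 816))) (T.l 816)) (T.b (T.b (T.l 1) (T.c (T.a (T.l 816) (T.l 816)) (T.a (T.l 816) (T.l 816)))) (T.l 816)))) (T.a (T.l 816) (T.l 816)))))), by decide +kernel⟩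

def B101L_301 :
    ∃ t, chk3 (onCell 0 67108864 0 1073741824 335544320 67108864 (corT false 3 c0N cB101L gN3q1 gN0q1 gN1q0 gN2q0 true false)) t 1 1 1 = true :=
  ⟨(T.l 1), by decide +kernel⟩

def B101L_400 :
    ∃ t, chk3 (onCell 0 67108864 0 1073741824 335544320 67108864 (corT false 3 c0N cB101L gN4q1 gN0q1 gN0q0 gN1q0 true true)) t 1 1 1 = true :=
  ⟨(T.b (T.l 1) (T.b (T.b (T.l 1) (T.b (T.b (T.l 1) (T.b (T.b (T.a (T.a (T.l 1) (T.b (T.l 1) (T.b (T.l 1) (T.a (T.l 1) (T.b (T.l 1) (T.l 204)))))) (T.b (T.a (T.l 1) (T.a (T.l 1) (T.a (T.l 1) (T.b (T.l 1) (T.b (T.l 1) (T.l 204)))))) (T.a (T.b (T.a (T.l 1) (T.b (T.l 1) (T.l 204))) (T.l 204)) (T.l 204)))) (T.a (T.a (T.b (T.b (T.a (T.b (T.l 1) (T.l 0)) (T.l 0)) (T.l 0)) (T.l 0)) (T.l 0)) (T.l 0))) (T.l 0))) (T.l 0))) (T.l 0))), by decide +kernel⟩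

def B101L_401 :
    ∃ t, chk3 (onCell 0 67108864 0 1073741824 335544320 67108864 (corT false 3 c0N cB101L gN4q1 gN0q1 gN1q0 gN2q0 true false)) t 1 1 1 = true :=
  ⟨(T.l 1), by decide +kernel⟩

def B101R_020 :
    ∃ t, chk3 (onCell 0 67108864 0 1073741824 335544320 67108864 (corT false 3 c0N cB101R gN0q1 gN2q1 gN0q0 gN1q0 true true)) t 1 1 1 = true :=
  ⟨(T.l 1), by decide +kernel⟩

def B101R_021 :
    ∃ t, chk3 (onCell 0 67108864 0 1073741824 335544320 67108864 (corT false 3 c0N cB101R gN0q1 gN2q1 gN1q0 gN2q0 true false)) t 1 1 1 = true :=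
  ⟨(T.l 1), by decide +kernel⟩

def B101R_030 :
    ∃ t, chk3 (onCell 0 67108864 0 1073741824 335544320 67108864 (corT false 3 c0N cB101R gN0q1 gN3q1 gN0q0 gN1q0 true true)) t 1 1 1 = true :=
  ⟨(T.l 1), by decide +kernel⟩

def B101R_031 :
    ∃ t, chk3 (onCell 0 67108864 0 1073741824 335544320 67108864 (corT false 3 c0N cB101R gN0q1 gN3q1 gN1q0 gN2q0 true false)) t 1 1 1 = true :=
  ⟨(T.l 1), by decide +kernel⟩

def B101R_040 :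
    ∃ t, chk3 (onCell 0 67108864 0 1073741824 335544320 67108864 (corT false 3 c0N cB101R gN0q1 gN4q1 gN0q0 gN1q0 true true)) t 1 1 1 = true :=
  ⟨(T.l 1), by decide +kernel⟩

def B101R_041 :
    ∃ t, chk3 (onCell 0 67108864 0 1073741824 335544320 67108864 (corT false 3 c0N cB101R gN0q1 gN4q1 gN1q0 gN2q0 true false)) t 1 1 1 = true :=
  ⟨(T.l 1), by decide +kernel⟩

def B102E_000 :
    ∃ t, chk3 (onCell 0 67108864 0 1073741824 335544320 67108864 (corT false 3 c0N cB102E gN0q1 gN0q2 gN0q0 gN1q0 true true)) t 1 1 1 = true :=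
  ⟨(T.b (T.b (T.l 1) (T.b (T.l 1) (T.a (T.b (T.l 1) (T.a (T.b (T.l 1) (T.a (T.b (T.l 1) (T.a (T.b (T.l 1) (T.a (T.b (T.l 1) (T.b (T.l 1) (T.l 0))) (T.l 1))) (T.l 1))) (T.l 1))) (T.l 1))) (T.l 1)))) (T.b (T.a (T.b (T.b (T.b (T.b (T.a (T.b (T.a (T.l 0) (T.b (T.b (T.l 1) (T.a (T.l 0) (T.l 1))) (T.l 0))) (T.l 0)) (T.b (T.a (T.b (T.l 1) (T.b (T.a (T.l 204) (T.l 1)) (T.l 0))) (T.l 1)) (T.c (T.a (T.l 0) (T.c (T.a (T.l 204) (T.c (T.a (T.l 204) (T.b (T.b (T.l 1) (T.l 204)) (T.l 204))) (T.l 204))) (T.l 204))) (T.l 0)))) (T.l 0)) (T.l 0)) (T.l 0)) (T.l 0)) (T.b (T.a (T.b (T.b (T.b (T.b (T.l 1) (T.b (T.a (T.a (T.b (T.l 1) (T.l 204)) (T.l 1)) (T.l 1)) (T.a (T.l 0) (T.b (T.l 1) (T.a (T.l 204) (T.l 1)))))) (T.l 0)) (T.l 0)) (T.l 0)) (T.b (T.b (T.b (T.l 1) (T.b (T.b (T.a (T.b (T.a (T.l 204) (T.l 1)) (T.l 204)) (T.l 1)) (T.c (T.a (T.l 204) (T.c (T.a (T.l 204)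 (T.l 204)) (T.l 204))) (T.l 0))) (T.l 0))) (T.c (T.l 0) (T.l 0))) (T.l 0))) (T.a (T.l 0) (T.l 0)))) (T.a (T.l 0) (T.a (T.l 0) (T.l 0))))), by decide +kernel⟩

def B102E_001 :
    ∃ t, chk3 (onCell 0 67108864 0 1073741824 335544320 67108864 (corT false 3 c0N cB102E gN0q1 gN0q2 gN1q0 gN2q0 true false)) t 1 1 1 = true :=
  ⟨(T.b (T.l 1) (T.b (T.l 1) (T.a (T.l 0) (T.a (T.b (T.l 0) (T.l 204)) (T.b (T.l 0) (T.l 204)))))), by decide +kernel⟩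

def B102E_010 :
    ∃ t, chk3 (onCell 0 67108864 0 1073741824 335544320 67108864 (corT false 3 c0N cB102E gN0q1 gN1q2 gN0q0 gN1q0 true true)) t 1 1 1 = true :=
  ⟨(T.b (T.b (T.l 1) (T.a (T.b (T.b (T.b (T.l 1) (T.b (T.b (T.a (T.b (T.l 1) (T.a (T.c (T.l 204) (T.l 204)) (T.b (T.l 1) (T.c (T.c (T.l 204) (T.l 204)) (T.l 204))))) (T.l 1)) (T.a (T.c (T.l 204) (T.l 204)) (T.c (T.b (T.a (T.a (T.l 204) (T.b (T.l 1) (T.l 204))) (T.a (T.b (T.l 1) (T.c (T.l 460) (T.l 460))) (T.l 1))) (T.l 460)) (T.b (T.a (T.c (T.l 460) (T.l 460)) (T.a (T.b (T.l 1) (T.l 460)) (T.l 1))) (T.l 460))))) (T.a (T.l 204) (T.l 204)))) (T.l 204)) (T.l 204)) (T.b (T.b (T.b (T.l 1) (T.b (T.a (T.a (T.b (T.l 1) (T.b (T.l 1) (T.b (T.l 1) (T.c (T.c (T.l 460) (T.l 460)) (T.c (T.l 460) (T.l 460)))))) (T.l 1)) (T.l 1)) (T.a (T.a (T.c (T.l 204) (T.l 204)) (T.b (T.c (T.b (T.a (T.c (T.l 460)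 (T.l 460)) (T.b (T.l 1) (T.l 460))) (T.l 204)) (T.b (T.a (T.c (T.l 460) (T.l 460)) (T.b (T.l 1) (T.l 460))) (T.l 204))) (T.l 204))) (T.b (T.b (T.a (T.a (T.a (T.b (T.l 1) (T.c (T.c (T.l 460) (T.l 460)) (T.l 476))) (T.l 1)) (T.l 1)) (T.l 1)) (T.a (T.c (T.a (T.l 460) (T.c (T.l 460) (T.l 460))) (T.a (T.l 460) (T.c (T.l 476) (T.l 476)))) (T.b (T.l 1) (T.a (T.c (T.l 476) (T.l 476)) (T.a (T.b (T.l 1) (T.c (T.l 460) (T.l 476))) (T.l 1)))))) (T.a (T.c (T.l 204) (T.l 204)) (T.b (T.c (T.c (T.l 460) (T.l 460)) (T.c (T.l 460) (T.l 476))) (T.l 460))))))) (T.b (T.a (T.c (T.l 204) (T.l 204)) (T.c (T.l 204) (T.l 204))) (T.l 0))) (T.b (T.l 0) (T.l 0))))) (T.a (T.l 0) (T.b (T.a (T.b (T.l 204) (T.l 0)) (T.b (T.l 0) (T.l 0))) (T.l 2)))), by decide +kernel⟩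

def B102E_011 :
    ∃ t, chk3 (onCell 0 67108864 0 1073741824 335544320 67108864 (corT false 3 c0N cB102E gN0q1 gN1q2 gN1q0 gN2q0 true false)) t 1 1 1 = true :=
  ⟨(T.b (T.l 1) (T.a (T.b (T.l 0) (T.l 0)) (T.b (T.b (T.l 1) (T.l 0)) (T.a (T.l 0) (T.l 0))))), by decide +kernel⟩

def B102L_200 :
    ∃ t, chk3 (onCell 0 67108864 0 1073741824 335544320 67108864 (corT false 3 c0N cB102L gN2q1 gN0q2 gN0q0 gN1q0 true true)) t 1 1 1 = true :=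
  ⟨(T.b (T.b (T.l 2) (T.a (T.l 0) (T.b (T.l 2) (T.l 0)))) (T.a (T.b (T.l 0) (T.l 816)) (T.b (T.b (T.l 0) (T.l 0)) (T.a (T.l 816) (T.b (T.l 0) (T.l 816)))))), by decide +kernel⟩

def B102L_201 :
    ∃ t, chk3 (onCell 0 67108864 0 1073741824 335544320 67108864 (corT false 3 c0N cB102L gN2q1 gN0q2 gN1q0 gN2q0 true false)) t 1 1 1 = true :=
  ⟨(T.b (T.b (T.a (T.a (T.l 204) (T.l 0)) (T.b (T.l 204) (T.l 0))) (T.a (T.l 0) (T.b (T.l 0) (T.l 0)))) (T.b (T.a (T.l 1) (T.b (T.l 0) (T.l 1))) (T.l 1))), by decide +kernel⟩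

def B102L_210 :
    ∃ t, chk3 (onCell 0 67108864 0 1073741824 335544320 67108864 (corT false 3 c0N cB102L gN2q1 gN1q2 gN0q0 gN1q0 true true)) t 1 1 1 = true :=
  ⟨(T.b (T.b (T.a (T.a (T.l 0) (T.l 0)) (T.l 0)) (T.a (T.l 0) (T.l 0))) (T.a (T.l 0) (T.a (T.l 0) (T.b (T.l 0) (T.b (T.l 816) (T.l 816)))))), by decide +kernel⟩

def B102L_211 :
    ∃ t, chk3 (onCell 0 67108864 0 1073741824 335544320 67108864 (corT false 3 c0N cB102L gN2q1 gN1q2 gN1q0 gN2q0 true false)) t 1 1 1 = true :=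
  ⟨(T.l 1), by decide +kernel⟩

def B102L_300 :
    ∃ t, chk3 (onCell 0 67108864 0 1073741824 335544320 67108864 (corT false 3 c0N cB102L gN3q1 gN0q2 gN0q0 gN1q0 true true)) t 1 1 1 = true :=
  ⟨(T.b (T.b (T.l 2) (T.a (T.l 204) (T.l 2))) (T.a (T.l 0) (T.b (T.b (T.l 0) (T.l 0)) (T.b (T.l 0) (T.l 0))))), by decide +kernel⟩

def B102L_301 :
    ∃ t, chk3 (onCell 0 67108864 0 1073741824 335544320 67108864 (corT false 3 c0N cB102L gN3q1 gN0q2 gN1q0 gN2q0 true false)) t 1 1 1 = true :=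
  ⟨(T.b (T.b (T.a (T.a (T.l 204) (T.l 0)) (T.b (T.l 204) (T.l 0))) (T.a (T.l 0) (T.b (T.l 0) (T.l 0)))) (T.b (T.a (T.l 0) (T.b (T.l 0) (T.l 1))) (T.l 1))), by decide +kernel⟩

def B102L_310 :
    ∃ t, chk3 (onCell 0 67108864 0 1073741824 335544320 67108864 (corT false 3 c0N cB102L gN3q1 gN1q2 gN0q0 gN1q0 true true)) t 1 1 1 = true :=
  ⟨(T.b (T.b (T.a (T.a (T.l 204) (T.l 0)) (T.l 0)) (T.a (T.l 0) (T.l 0))) (T.a (T.l 0) (T.b (T.b (T.l 0) (T.l 0)) (T.b (T.l 0) (T.l 0))))), by decide +kernel⟩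

def B102L_311 :
    ∃ t, chk3 (onCell 0 67108864 0 1073741824 335544320 67108864 (corT false 3 c0N cB102L gN3q1 gN1q2 gN1q0 gN2q0 true false)) t 1 1 1 = true :=
  ⟨(T.l 1), by decide +kernel⟩

def B102L_400 :
    ∃ t, chk3 (onCell 0 67108864 0 1073741824 335544320 67108864 (corT false 3 c0N cB102L gN4q1 gN0q2 gN0q0 gN1q0 true true)) t 1 1 1 = true :=
  ⟨(T.b (T.b (T.l 2) (T.l 2)) (T.b (T.b (T.a (T.l 204) (T.l 2)) (T.l 204)) (T.l 0))), by decide +kernel⟩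

def B102L_401 :
    ∃ t, chk3 (onCell 0 67108864 0 1073741824 335544320 67108864 (corT false 3 c0N cB102L gN4q1 gN0q2 gN1q0 gN2q0 true false)) t 1 1 1 = true :=
  ⟨(T.b (T.b (T.a (T.a (T.l 204) (T.l 0)) (T.b (T.l 204) (T.l 0))) (T.a (T.l 204) (T.b (T.l 0) (T.l 0)))) (T.b (T.a (T.l 0) (T.b (T.l 0) (T.l 0))) (T.l 1))), by decide +kernel⟩

def B102L_410 :
    ∃ t, chk3 (onCell 0 67108864 0 1073741824 335544320 67108864 (corT false 3 c0N cB102L gN4q1 gN1q2 gN0q0 gN1q0 true true)) t 1 1 1 = true :=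
  ⟨(T.b (T.a (T.a (T.l 204) (T.b (T.l 0) (T.l 204))) (T.b (T.l 0) (T.l 0))) (T.a (T.l 0) (T.b (T.b (T.l 0) (T.l 204)) (T.l 0)))), by decide +kernel⟩

def B102L_411 :
    ∃ t, chk3 (onCell 0 67108864 0 1073741824 335544320 67108864 (corT false 3 c0N cB102L gN4q1 gN1q2 gN1q0 gN2q0 true false)) t 1 1 1 = true :=
  ⟨(T.l 1), by decide +kernel⟩

def B102R_040 :
    ∃ t, chk3 (onCell 0 67108864 0 1073741824 335544320 67108864 (corT false 3 c0N cB102R gN0q1 gN4q2 gN0q0 gN1q0 true true)) t 1 1 1 = true :=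
  ⟨(T.l 1), by decide +kernel⟩

def B102R_041 :
    ∃ t, chk3 (onCell 0 67108864 0 1073741824 335544320 67108864 (corT false 3 c0N cB102R gN0q1 gN4q2 gN1q0 gN2q0 true false)) t 1 1 1 = true :=
  ⟨(T.l 1), by decide +kernel⟩

def B202E_000 :
    ∃ t, chk3 (onCell 0 67108864 0 1073741824 335544320 67108864 (corT false 3 c0N cB202E gN0q2 gN0q2 gN0q0 gN1q0 true true)) t 1 1 1 = true :=
  ⟨(T.l 1), by decide +kernel⟩

def B202E_001 :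
    ∃ t, chk3 (onCell 0 67108864 0 1073741824 335544320 67108864 (corT false 3 c0N cB202E gN0q2 gN0q2 gN1q0 gN2q0 true false)) t 1 1 1 = true :=
  ⟨(T.l 1), by decide +kernel⟩

def B202E_010 :
    ∃ t, chk3 (onCell 0 67108864 0 1073741824 335544320 67108864 (corT false 3 c0N cB202E gN0q2 gN1q2 gN0q0 gN1q0 true true)) t 1 1 1 = true :=
  ⟨(T.l 1), by decide +kernel⟩

def B202E_011 :
    ∃ t, chk3 (onCell 0 67108864 0 1073741824 335544320 67108864 (corT false 3 c0N cB202E gN0q2 gN1q2 gN1q0 gN2q0 true false)) t 1 1 1 = true :=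
  ⟨(T.l 1), by decide +kernel⟩

def B202E_100 :
    ∃ t, chk3 (onCell 0 67108864 0 1073741824 335544320 67108864 (corT false 3 c0N cB202E gN1q2 gN0q2 gN0q0 gN1q0 true true)) t 1 1 1 = true :=
  ⟨(T.l 1), by decide +kernel⟩

def B202E_101 :
    ∃ t, chk3 (onCell 0 67108864 0 1073741824 335544320 67108864 (corT false 3 c0N cB202E gN1q2 gN0q2 gN1q0 gN2q0 true false)) t 1 1 1 = true :=
  ⟨(T.l 1), by decide +kernel⟩

def B202E_110 :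
    ∃ t, chk3 (onCell 0 67108864 0 1073741824 335544320 67108864 (corT false 3 c0N cB202E gN1q2 gN1q2 gN0q0 gN1q0 true true)) t 1 1 1 = true :=
  ⟨(T.l 1), by decide +kernel⟩

def B202E_111 :
    ∃ t, chk3 (onCell 0 67108864 0 1073741824 335544320 67108864 (corT false 3 c0N cB202E gN1q2 gN1q2 gN1q0 gN2q0 true false)) t 1 1 1 = true :=
  ⟨(T.l 1), by decide +kernel⟩

def B202L_400 :
    ∃ t, chk3 (onCell 0 67108864 0 1073741824 335544320 67108864 (corT false 3 c0N cB202L gN4q2 gN0q2 gN0q0 gN1q0 true true)) t 1 1 1 = true :=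
  ⟨(T.l 2), by decide +kernel⟩

def B202L_401 :
    ∃ t, chk3 (onCell 0 67108864 0 1073741824 335544320 67108864 (corT false 3 c0N cB202L gN4q2 gN0q2 gN1q0 gN2q0 true false)) t 1 1 1 = true :=
  ⟨(T.a (T.a (T.l 204) (T.l 0)) (T.b (T.l 204) (T.l 0))), by decide +kernel⟩

def B202L_410 :
    ∃ t, chk3 (onCell 0 67108864 0 1073741824 335544320 67108864 (corT false 3 c0N cB202L gN4q2 gN1q2 gN0q0 gN1q0 true true)) t 1 1 1 = true :=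
  ⟨(T.a (T.a (T.l 0) (T.l 0)) (T.b (T.l 0) (T.l 0))), by decide +kernel⟩

def B202L_411 :
    ∃ t, chk3 (onCell 0 67108864 0 1073741824 335544320 67108864 (corT false 3 c0N cB202L gN4q2 gN1q2 gN1q0 gN2q0 true false)) t 1 1 1 = true :=
  ⟨(T.b (T.a (T.l 1) (T.l 0)) (T.a (T.a (T.l 0) (T.l 0)) (T.l 0))), by decide +kernel⟩

def B202R_040 :
    ∃ t, chk3 (onCell 0 67108864 0 1073741824 335544320 67108864 (corT false 3 c0N cB202R gN0q2 gN4q2 gN0q0 gN1q0 true true)) t 1 1 1 = true :=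
  ⟨(T.b (T.b (T.l 1) (T.b (T.b (T.l 1) (T.b (T.b (T.a (T.l 1) (T.b (T.l 1) (T.b (T.l 1) (T.b (T.l 1) (T.a (T.a (T.l 1) (T.b (T.l 1) (T.l 0))) (T.c (T.a (T.l 204) (T.l 204)) (T.l 0))))))) (T.a (T.b (T.b (T.a (T.a (T.l 1) (T.b (T.l 1) (T.b (T.l 1) (T.l 0)))) (T.b (T.a (T.l 1) (T.b (T.l 1) (T.l 0))) (T.l 0))) (T.a (T.l 0) (T.l 0))) (T.l 0)) (T.a (T.c (T.a (T.c (T.l 0) (T.l 0)) (T.l 0)) (T.l 0)) (T.l 0)))) (T.l 0))) (T.a (T.l 0) (T.a (T.l 0) (T.b (T.l 0) (T.l 0)))))) (T.b (T.a (T.l 0) (T.b (T.b (T.l 0) (T.l 0)) (T.l 2))) (T.l 2))), by decide +kernel⟩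

def B202R_041 :
    ∃ t, chk3 (onCell 0 67108864 0 1073741824 335544320 67108864 (corT false 3 c0N cB202R gN0q2 gN4q2 gN1q0 gN2q0 true false)) t 1 1 1 = true :=
  ⟨(T.b (T.l 1) (T.b (T.a (T.b (T.l 0) (T.l 0)) (T.b (T.a (T.l 0) (T.l 0)) (T.b (T.l 0) (T.l 0)))) (T.a (T.a (T.l 204) (T.b (T.l 204) (T.l 204))) (T.a (T.b (T.l 204) (T.l 204)) (T.l 0))))), by decide +kernel⟩

def B202R_140 :
    ∃ t, chk3 (onCell 0 67108864 0 1073741824 335544320 67108864 (corT false 3 c0N cB202R gN1q2 gN4q2 gN0q0 gN1q0 true true)) t 1 1 1 = true :=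
  ⟨(T.b (T.l 1) (T.b (T.l 1) (T.b (T.a (T.b (T.l 816) (T.l 816)) (T.a (T.a (T.b (T.l 816) (T.l 816)) (T.l 816)) (T.b (T.l 816) (T.l 816)))) (T.b (T.a (T.l 816) (T.l 4)) (T.a (T.l 2) (T.l 2)))))), by decide +kernel⟩

def B202R_141 :
    ∃ t, chk3 (onCell 0 67108864 0 1073741824 335544320 67108864 (corT false 3 c0N cB202R gN1q2 gN4q2 gN1q0 gN2q0 true false)) t 1 1 1 = true :=
  ⟨(T.b (T.l 1) (T.b (T.l 1) (T.b (T.l 1) (T.a (T.a (T.l 816) (T.b (T.l 816) (T.l 0))) (T.a (T.l 0) (T.l 0)))))), by decide +kernel⟩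

end Pool.Agent.Strip051.G.I5_16_3_8.Tab.CN
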