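import Pool.Agent.Strip051.G.I5_16_3_8.Tab

/-! # Certificates N0 (generated) -/

set_option linter.all false
set_option maxRecDepth 100000

namespace Pool.Agent.Strip051.G.I5_16_3_8.Tab.C.NA00

open Pool.Agent.Strip051.PB Pool.Agent.Strip051.PB.T
open Pool.Agent.Strip051.G.I5_16_3_8.Tab

noncomputable def f_pp_001 : ℕ → ℕ → ℕ → ℕ → Bool := onCell 0 536870912 0 536870912 335544320 67108864
    (rowN 3 0 true true true .up 0 0 1 (qsf 0 536870912 0 536870912 1) ndN0q0 ndN0q0 pcN1 Cut.none Ext.none)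

def k0_pp_001 : ∃ t, chk3 f_pp_001 t 1 1 1 = true :=
  ⟨(l 4), by decide +kernel⟩

theorem c_pp_001 : CertN 0 536870912 0 536870912 335544320 67108864 3 true true true .up 0 0 1
    ndN0q0 ndN0q0 pcN1 Cut.none Ext.none :=
  certN0 (fam := true) (s1 := true) (s2 := true) (a := 0) (b := 0) (c := 1) (cn := .up) (n1 := ndN0q0) (n2 := ndN0q0) (pc := pcN1) (cut := Cut.none) (xt := Ext.none) (P1 := 0) (W1 := 536870912) (P2 := 0) (W2 := 536870912) (P3 := 335544320) (W3 := 67108864) (N0 := 3)
    rfl k0_pp_001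

noncomputable def cut_pp_011 : Cut := Cut.of [[⟨0, 0, 0, 67108864⟩, ⟨1, 1, 0, 67108864⟩, ⟨2, 1, 0, 67108864⟩]]

noncomputable def f_pp_011 : ℕ → ℕ → ℕ → ℕ → Bool := onCell 0 536870912 536870912 536870912 335544320 67108864
    (rowN 3 0 true true true .pnn 0 1 1 (qsf 0 536870912 536870912 536870912 1) ndN0q0 ndN0q1 pcN1 cut_pp_011 Ext.none)

def k0_pp_011 : ∃ t, chk3 f_pp_011 t 1 1 1 = true :=
  ⟨(a (b (l 4) (b (l 4) (a (b (l 4) (a (b (l 4) (a (l 6) (l 4))) (l 4))) (l 4)))) (l 4)), by decide +kernel⟩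

theorem c_pp_011 : CertN 0 536870912 536870912 536870912 335544320 67108864 3 true true true .pnn 0 1 1
    ndN0q0 ndN0q1 pcN1 cut_pp_011 Ext.none :=
  certN0 (fam := true) (s1 := true) (s2 := true) (a := 0) (b := 1) (c := 1) (cn := .pnn) (n1 := ndN0q0) (n2 := ndN0q1) (pc := pcN1) (cut := cut_pp_011) (xt := Ext.none) (P1 := 0) (W1 := 536870912) (P2 := 536870912) (W2 := 536870912) (P3 := 335544320) (W3 := 67108864) (N0 := 3)
    rfl k0_pp_011

noncomputable def cut_pp_012 : Cut := Cut.of [[⟨0, 0, 0, 67108864⟩, ⟨1, 1, 0, 67108864⟩, ⟨2, 1, 0, 67108864⟩]]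

noncomputable def f_pp_012 : ℕ → ℕ → ℕ → ℕ → Bool := onCell 0 536870912 536870912 536870912 335544320 67108864
    (rowN 3 0 true true true .pnp 0 1 2 (qsf 0 536870912 536870912 536870912 2) ndN0q0 ndN0q1 pcN2 cut_pp_012 Ext.none)

def k0_pp_012 : ∃ t, chk3 f_pp_012 t 1 1 1 = true :=
  ⟨(b (l 4) (a (b (l 4) (a (b (l 4) (a (b (l 4) (a (l 6) (l 4))) (l 4))) (l 4))) (l 4))), by decide +kernel⟩

theorem c_pp_012 : CertN 0 536870912 536870912 536870912 335544320 67108864 3 true true true .pnp 0 1 2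
    ndN0q0 ndN0q1 pcN2 cut_pp_012 Ext.none :=
  certN0 (fam := true) (s1 := true) (s2 := true) (a := 0) (b := 1) (c := 2) (cn := .pnp) (n1 := ndN0q0) (n2 := ndN0q1) (pc := pcN2) (cut := cut_pp_012) (xt := Ext.none) (P1 := 0) (W1 := 536870912) (P2 := 536870912) (W2 := 536870912) (P3 := 335544320) (W3 := 67108864) (N0 := 3)
    rfl k0_pp_012

noncomputable def cut_pp_022 : Cut := Cut.of [[⟨0, 0, 0, 67108864⟩, ⟨1, 1, 0, 67108864⟩, ⟨2, 1, 0, 67108864⟩]]

noncomputable def f_pp_022 : ℕ → ℕ → ℕ → ℕ → Bool := onCell 0 536870912 0 536870912 335544320 67108864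
    (rowN 3 0 true true true .pp 0 2 2 (qsf 0 536870912 0 536870912 2) ndN0q0 ndN0q2 pcN2 cut_pp_022 Ext.none)

def k0_pp_022 : ∃ t, chk3 f_pp_022 t 2 2 1 = true :=
  ⟨(a (b (a (a (b (l 16438056) (l 16505144)) (b (l 16447232) (l 16488656))) (a (b (l 16465352) (l 16491952)) (b (l 16487488) (l 16515112)))) (a (a (b (b (l 16510472) (l 16530224)) (a (l 16594816) (l 16588000))) (b (l 16573992) (a (l 16596760) (l 16605352)))) (b (a (l 16584720) (l 16573768)) (a (a (l 16613808) (l 16622136)) (c (l 16657408) (l 16653160)))))) (b (a (b (a (l 16513656) (l 16543520)) (a (l 16521384) (l 16572456))) (b (a (l 16575968) (l 16686848)) (a (l 16604256) (l 16686536)))) (a (b (a (l 16583240) (l 16612728)) (a (c (l 16683544) (l 16680480)) (b (l 16627576) (l 16663808)))) (b (a (l 16665952) (l 16687528)) (a (b (l 16671368) (l 16703760)) (b (l 16694608) (l 16768432))))))), by decide +kernel⟩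

def k1_pp_022 : ∃ t, chk3 f_pp_022 t 4 6 1 = true :=
  ⟨(a (b (a (a (b (l 16570312) (a (l 16590688) (l 16596632))) (b (l 16581096) (l 16626408))) (b (a (l 16591712) (l 16602176)) (a (l 16638016) (l 16628496)))) (a (b (a (a (l 16634976) (l 16641312)) (a (l 16647600) (l 16632864))) (a (a (b (l 16632136) (l 16644928)) (b (l 16638712) (l 16651632))) (a (b (l 16645232) (l 16658280)) (b (l 16651688) (l 16664872))))) (b (a (b (l 16635776) (l 16648352)) (b (l 16647800) (l 16660680))) (b (a (l 16682224) (l 16673840)) (a (a (l 16671400) (l 16677864)) (a (l 16684272) (l 16690624))))))) (b (a (b (a (l 16612496) (l 16622696)) (a (l 16639776) (l 16650928))) (a (b (l 16632808) (l 16682944)) (b (l 16642848) (l 16693904)))) (a (a (b (l 16708192) (a (l 16721520) (l 16727712))) (b (l 16720024) (b (l 16698432) (l 16733376)))) (b (a (l 16731712) (l 16743296)) (a (b (l 16731440) (l 16745576)) (b (l 16743336) (l 16757616))))))), by decide +kernel⟩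

def k2_pp_022 : ∃ t, chk3 f_pp_022 t 8 14 1 = true :=
  ⟨(a (a (a (b (b (a (l 16656568) (l 16660000)) (a (l 16691464) (l 16673976))) (b (a (l 6) (c (l 16690632) (l 16686560))) (l 6))) (b (b (l 16686072) (c (l 16691920) (l 16676880))) (b (a (c (l 16694072) (l 16690136)) (c (l 16697488) (l 16693688))) (a (l 6) (b (l 16707040) (l 6)))))) (b (a (b (l 16692840) (c (l 16688160) (l 16683872))) (b (l 16678560) (c (l 16694816) (l 16690792)))) (b (a (a (l 16712168) (l 16713000)) (a (l 16716432) (l 16719840))) (a (a (b (l 16710536) (l 6)) (b (l 16714008) (l 16721904))) (a (b (l 16717464) (l 16725368)) (b (l 16720896) (l 16728816))))))) (b (a (b (a (l 16685192) (l 16691760)) (a (c (l 16701392) (l 16697648)) (b (l 16702504) (l 16709840)))) (b (a (l 16698264) (l 16704704)) (a (l 16728472) (l 16740224)))) (b (b (a (a (l 16710632) (l 16717328)) (a (l 16723952) (l 16730504))) (a (a (l 16728720) (l 16735448)) (a (l 16742096) (l 16748664)))) (a (a (a (b (l 16724312) (l 16732240)) (b (l 16727704) (l 16746128)))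 (b (c (l 16733832) (l 16731672)) (a (l 16749512) (l 16752872)))) (a (b (c (l 16740344) (l 16738488)) (a (l 16756216) (l 16759536))) (a (b (l 16744376) (l 16762840)) (b (l 16747648) (l 16766120)))))))), by decide +kernel⟩

def k3_pp_022 : ∃ t, chk3 f_pp_022 t 16 15 1 = true :=
  ⟨(b (a (l 6) (b (a (l 6) (b (a (c (l 16734488) (l 16732416)) (c (l 16737864) (l 16735944))) (a (l 6) (c (l 16751184) (l 16749664))))) (l 6))) (l 6)), by decide +kernel⟩

def k4_pp_022 : ∃ t, chk3 f_pp_022 t 34 30 1 = true :=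
  ⟨(b (a (b (a (c (l 16741224) (l 16739456)) (c (l 16744552) (l 16742944))) (a (c (l 16753560) (l 16753184)) (b (l 16760432) (l 16758072)))) (b (a (c (l 16747864) (l 16746416)) (c (l 16751160) (l 16749864))) (b (a (l 16758584) (l 16761960)) (a (c (l 16758008) (l 16757064)) (c (l 16761296) (l 16760512)))))) (b (a (a (b (c (l 16755480) (l 16754424)) (l 6)) (c (b (l 16758824) (c (l 16763176) (l 16762832))) (b (l 16757920) (l 16764936)))) (a (c (b (l 16767384) (a (l 16765496) (l 16772392))) (b (l 16761400) (c (l 16767232) (l 16768280)))) (a (b (l 16769552) (b (l 16772760) (l 16774912))) (b (c (l 16766256) (l 16765720)) (c (l 16774368) (l 16774040)))))) (a (b (b (a (l 6) (a (l 6) (l 16772000))) (a (l 6) (a (l 6) (l 16772864)))) (l 6)) (b (a (c (a (c (l 16772432) (l 16772256)) (c (l 16775376) (l 16775240))) (a (c (l 16772072) (l 16774512)) (l 16773720))) (b (c (l 16774744) (l 16774536)) (a (c (l 16776704) (l 16776568)) (a (l 16777896) (a (l 16778528) (c (l 16778488) (l 16778952))))))) (a (b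 (c (a (l 16775544) (l 16777200)) (a (l 16772720) (l 16777080))) (a (l 6) (b (c (c (l 16778176) (l 16778160)) (l 16778784)) (b (a (l 16779200) (c (a (l 46942652791) (l 141431932135)) (l 60364427143))) (a (l 6) (l 4)))))) (b (a (a (c (l 16778432) (l 16778376)) (b (l 16778696) (a (b (l 16779312) (l 52848234215)) (b (l 39426461095) (l 4))))) (b (b (a (l 16779272) (a (l 57680072519) (l 4))) (a (c (l 45332040711) (l 44258298887)) (l 4))) (a (c (l 136600095047) (l 138210707751)) (l 4)))) (a (b (a (b (c (l 42647685911) (l 40500202423)) (c (l 132305126871) (l 133378868679))) (l 4)) (l 4)) (l 4)))))))), by decide +kernel⟩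

def k5_pp_022 : ∃ t, chk3 f_pp_022 t 35 60 1 = true :=
  ⟨(b (a (c (a (l 16764912) (l 16762912)) (a (l 16763776) (l 16767184))) (a (c (l 16768752) (l 16767944)) (b (l 16766960) (l 16772384)))) (a (a (c (b (l 16760472) (l 16769808)) (b (l 16759648) (l 16769192))) (b (c (l 16763720) (l 16763056)) (c (l 16773056) (l 16772600)))) (b (a (c (l 16772184) (l 16771688)) (c (l 16775384) (l 16775056))) (a (c (l 16774968) (l 16773368)) (b (l 16776400) (a (l 16777032) (b (l 16778144) (c (l 23857205095) (l 22783463255))))))))), by decide +kernel⟩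

def k6_pp_022 : ∃ t, chk3 f_pp_022 t 35 61 1 = true :=
  ⟨(b (a (b (a (c (c (l 16774048) (l 16773840)) (c (l 16773640) (l 16773432))) (c (a (l 16776384) (l 16775376)) (a (l 16776096) (l 16775176)))) (a (a (c (l 16774688) (l 16774448)) (c (c (l 16776352) (l 16776280)) (l 16776160))) (a (b (l 16776824) (b (l 16778440) (a (l 16779120) (b (l 37815849079) (a (l 74859942023) (l 4)))))) (a (b (l 16778072) (b (c (l 39963332023) (l 38352719447)) (l 4))) (b (c (c (l 16778624) (l 16778936)) (l 16778920)) (b (c (l 132841998359) (l 133915740167)) (l 4))))))) (b (a (b (c (l 16776752) (l 16776624)) (a (c (l 16778032) (l 16777960)) (b (c (c (l 19562237111) (l 16778504)) (l 16779152)) (a (c (l 45868912247) (l 44258299671)) (c (l 138210707719) (l 139284449527)))))) (b (a (b (l 16778624) (a (l 20099109111) (b (l 53921976759) (l 139821325063)))) (b (a (c (l 52311363415) (l 50700750935)) (l 143579422327)) (l 4))) (a (b (a (b (l 71638717783) (l 4)) (l 4)) (l 4)) (l 4)))) (a (b (a (a (b (l 16779208) (b (l 63585653863)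 (l 4))) (b (b (l 45332042071) (l 132842002951)) (l 4))) (l 4)) (l 4)) (l 4)))) (a (b (a (b (a (c (l 16777856) (l 16777776)) (b (c (c (l 16778328) (l 16778320)) (l 16778952)) (a (c (c (l 34594622391) (l 33520880567)) (l 33520880887)) (c (b (l 122641450039) (l 4)) (l 129083901751))))) (a (a (b (l 16779032) (b (c (l 48553266279) (l 47479524455)) (c (l 137673836183) (l 139284448903)))) (b (c (b (l 16778328) (l 117272743447)) (b (l 16778328) (l 70028103671))) (l 4))) (a (c (l 140358193191) (l 142505676775)) (l 4)))) (b (a (b (a (b (c (l 55532588327) (l 54995717415)) (l 144116289959)) (l 4)) (l 4)) (l 4)) (l 4))) (l 4)) (l 4))), by decide +kernel⟩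

def k7_pp_022 : ∃ t, chk3 f_pp_022 t 17 31 1 = true :=
  ⟨(b (a (b (a (l 6) (b (a (a (l 6) (a (l 6) (l 4))) (l 4)) (l 4))) (l 4)) (l 4)) (l 4)), by decide +kernel⟩

def k8_pp_022 : ∃ t, chk3 f_pp_022 t 18 14 1 = true :=
  ⟨(b (a (a (b (l 16711080) (l 16746672)) (b (l 16717408) (l 16753048))) (b (a (l 16744640) (l 16750856)) (a (l 16759368) (l 16760384)))) (a (b (b (a (l 16736984) (l 16753880)) (a (l 16755168) (l 16761592))) (a (a (b (l 16761392) (l 16768064)) (b (l 16764624) (a (l 16771808) (l 16773424)))) (b (c (l 16769880) (l 16768992)) (a (c (l 16770872) (l 16770312)) (c (l 16773992) (l 16773592)))))) (b (b (a (l 16760224) (l 16766504)) (c (a (l 16768424) (l 16774544)) (a (l 16767456) (l 16773912)))) (b (a (a (l 16774224) (l 16774760)) (b (a (l 16778552) (l 16781680)) (a (l 16777272) (b (l 16779400) (a (l 16780608) (b (l 16779240) (a (l 16780040) (l 140358191431)))))))) (a (b (a (l 16774960) (l 16778120)) (a (c (l 16779056) (l 16778928)) (b (a (l 16780352) (b (l 16781440) (l 56069463351)))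 (a (b (l 34057754775) (a (l 62511912807) (l 4))) (b (l 140358192343) (l 4)))))) (b (a (b (c (l 16780304) (l 16780256)) (a (c (l 16779928) (l 16780256)) (b (c (l 61438170919) (l 60364429191)) (l 141968805447)))) (b (a (b (l 45868915719) (l 129083907575)) (l 4)) (l 4))) (a (b (a (b (a (l 73249331239) (l 4)) (l 4)) (l 4)) (l 4)) (l 4)))))))), by decide +kernel⟩

def k9_pp_022 : ∃ t, chk3 f_pp_022 t 19 14 1 = true :=
  ⟨(b (b (a (a (l 16757016) (l 16763128)) (a (l 16769200) (l 16769984))) (a (a (c (l 16761992) (l 16765928)) (c (l 16773216) (l 16772240))) (b (a (l 16780312) (l 16775864)) (a (l 16777344) (b (l 16781504) (a (l 16783792) (b (l 16780744) (a (l 48016401479) (l 131768258183))))))))) (b (a (b (a (l 16772720) (c (l 16779056) (l 16778680))) (b (a (l 16778504) (a (l 16783136) (b (l 16779992) (a (l 16781296) (b (l 57680076407) (l 136600095719)))))) (a (c (l 16779872) (l 16777056)) (a (b (c (l 16780728) (l 16780888)) (a (l 48016400647) (l 134452623383))) (b (a (b (l 72712462295) (l 4))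 (l 4)) (l 4)))))) (b (a (b (a (l 16781544) (l 16781976)) (a (c (c (l 22246596455) (l 21709725527)) (l 20635984311)) (b (a (l 16781896) (l 121030849431)) (l 136063235479)))) (b (a (b (c (l 39963337831) (l 38352724903)) (a (l 106535331207) (l 4))) (b (l 140358195879) (l 4))) (l 4))) (a (b (a (b (a (l 58216948791) (l 140358193831)) (l 4)) (l 4)) (l 4)) (l 4)))) (a (b (a (b (a (c (l 7214209319) (l 16779536)) (b (a (l 16780896) (b (l 16781056) (l 120493977975))) (a (b (l 58753818359) (l 140895063175)) (l 4)))) (a (b (a (c (l 36742109223) (l 16779928)) (b (l 114588392295) (l 4))) (a (l 137136973079) (l 4))) (l 4))) (a (b (c (l 139284457447) (l 141431940967)) (l 4)) (l 4))) (l 4)) (l 4)))), by decide +kernel⟩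

def k10_pp_022 : ∃ t, chk3 f_pp_022 t 9 15 1 = true :=
  ⟨(b (a (b (a (b (b (a (a (l 16770224) (l 16773464)) (a (l 16776680) (b (l 16778856) (a (l 16780104) (c (c (l 29762786311) (l 29762786135)) (l 28689044967)))))) (a (a (c (l 16774520) (l 16774144)) (c (l 16777672) (l 16777464))) (a (b (l 16778448) (a (c (l 16778440) (l 16778408)) (b (c (l 38352720663) (l 37278978775)) (a (l 115125262631) (l 4))))) (b (a (b (l 19025368631) (a (l 47479526775) (l 137136970935))) (b (a (l 124252068455) (l 4)) (l 4))) (l 4))))) (a (b (a (c (c (l 16777296) (l 16775904)) (l 16777088)) (a (b (l 16779872) (b (l 16779488) (a (l 32984011607) (b (l 71101846503) (l 4))))) (a (b (l 16778464) (b (c (l 64659395127) (l 63585653447)) (l 4))) (b (c (l 30836527639) (l 29225914903)) (l 4))))) (a (b (a (c (l 16778224) (l 16778176)) (b (c (l 28152172695) (l 27078430855)) (a (c (l 59290685543) (l 56606331303)) (l 4)))) (a (b (a (l 26004689527) (b (l 61975040711) (l 4))) (c (l 134452612071) (l 135526353879))) (l 4))) (a (b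 (c (l 139284452071) (l 140358193847)) (l 4)) (l 4)))) (b (a (b (a (b (a (l 39963333815) (l 130157648759)) (a (l 143042546055) (l 4))) (l 4)) (l 4)) (l 4)) (l 4)))) (b (a (b (a (b (a (c (l 16778680) (l 16778664)) (b (c (l 49090139415) (l 48016397559)) (l 135526359031))) (a (b (a (l 54458848935) (l 142505675127)) (l 4)) (l 4))) (l 4)) (l 4)) (l 4)) (l 4))) (l 4)) (l 4)) (l 4)), by decide +kernel⟩

def k11_pp_022 : ∃ t, chk3 f_pp_022 t 5 6 1 = true :=
  ⟨(a (b (a (b (l 16699712) (b (l 16702528) (l 16738656))) (b (l 16730280) (b (l 16724160) (l 16755736)))) (a (b (a (l 16744328) (b (l 16738136) (l 16752512))) (b (a (l 16755128) (l 16766856)) (a (a (l 16766600) (l 16772536)) (a (l 16778448) (l 16784336))))) (b (a (b (l 16728584) (l 16764112)) (b (l 16761048) (l 16775752))) (b (a (l 16778568) (b (l 16786672) (a (l 16780552) (b (l 39963347783) (a (l 66270021623) (l 136063231239)))))) (a (b (a (l 16786584) (b (l 16790632) (l 24394087223))) (a (b (l 16781560) (a (l 16783736) (l 57143214311))) (b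 (a (l 46405794455) (l 127473314711)) (a (l 137673842743) (l 4))))) (b (a (b (a (l 16785768) (l 105461593511)) (a (l 118346497031) (l 4))) (l 4)) (l 4))))))) (b (a (b (a (l 16714736) (l 16725784)) (a (l 16770056) (l 16772544))) (b (a (l 16758624) (l 16780096)) (b (a (l 16764568) (l 16779632)) (a (l 16791592) (b (a (l 16768648) (l 49090161047)) (a (l 56069486327) (l 133915753303))))))) (a (b (b (a (l 16772680) (a (l 16781560) (c (l 16787880) (l 16787544)))) (a (b (l 16783840) (a (l 16788232) (b (l 16793472) (l 53385124567)))) (b (a (l 30836544103) (b (l 67343771495) (l 134989492023))) (a (b (a (l 16787408) (l 134452618647)) (l 136063236871)) (l 4))))) (b (a (b (a (b (l 16784608) (a (l 16787808) (l 125325809847))) (b (l 121030865863) (l 4))) (a (b (l 136600104471) (l 4)) (l 4))) (l 4)) (l 4))) (b (b (a (b (a (l 16791968) (b (l 16788112) (l 112977799991))) (a (b (l 57680092055) (l 123178329079)) (l 135526371495))) (b (a (l 134989497831) (l 4)) (l 4))) (l 4)) (l 4))))), by decide +kernel⟩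

def k12_pp_022 : ∃ t, chk3 f_pp_022 t 5 7 1 = true :=
  ⟨(a (b (b (a (b (a (a (l 16775968) (b (l 16783488) (l 16780384))) (b (a (l 16778928) (b (l 16783008) (a (l 16783120) (b (l 64659404775) (l 137673840807))))) (a (b (a (l 16782984) (c (l 39426469543) (l 38352727383))) (a (b (l 16781192) (a (l 16782808) (l 133378871271))) (l 133915756103))) (b (a (b (l 111904044487) (l 4)) (l 4)) (l 4))))) (a (b (a (b (l 16780000) (a (l 16782256) (c (l 16781384) (l 16780088)))) (b (a (l 16784488) (b (l 44795178615) (l 117272754215))) (a (b (a (l 16782176) (l 121567710055)) (l 136063227511)) (l 4)))) (a (b (b (a (l 16785064) (a (l 60364433543) (l 138747581095))) (a (c (l 48553273383) (l 47479531495)) (l 4))) (a (b (a (l 120493978567) (l 4)) (l 4)) (l 4))) (l 4))) (b (a (b (a (l 139284456807) (l 4)) (l 4)) (l 4)) (l 4)))) (b (a (b (a (b (a (b (l 16784088) (l 121030840791)) (l 138210715479)) (l 4)) (l 4)) (l 4)) (l 4)) (l 4))) (l 4)) (l 4)) (l 4)), by decide +kernel⟩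

def k13_pp_022 : ∃ t, chk3 f_pp_022 t 3 1 1 = true :=
  ⟨(b (a (b (a (b (a (l 16768504) (l 16817936)) (a (l 16758056) (l 16798424))) (b (a (l 16844128) (l 16855232)) (a (l 16817032) (b (l 16830504) (l 16814128))))) (a (b (a (l 16733784) (b (l 16784696) (l 16777512))) (a (b (l 16748960) (l 16785552)) (b (a (l 16769416) (l 16775456)) (a (l 16770200) (b (l 16773640) (b (l 16794888) (l 37279008647))))))) (b (a (b (l 16797680) (a (l 16785616) (l 16787176))) (b (l 39292320087) (a (l 16786896) (b (l 16788744) (l 16806152))))) (a (b (a (l 16778056) (b (l 16780416) (a (l 16777664) (l 16782592)))) (a (b (a (l 16775152) (l 16790360)) (a (b (l 44795170487) (b (l 85597400071) (l 134452619511))) (b (b (l 80765563815) (l 123178330647)) (l 4)))) (b (a (b (l 16784512) (b (l 16786888) (l 110830304839))) (b (b (l 16788624) (l 100092900263)) (l 4))) (l 4)))) (b (a (b (l 16802424) (a (b (l 16787296) (l 67880632823)) (b (l 64122542519) (l 113514668423)))) (b (a (b (l 16790160) (l 61975063223)) (b (l 113917328247)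 (l 96871682151))) (b (a (l 104924740295) (l 4)) (l 4)))) (b (a (b (a (l 122104596071) (l 4)) (l 4)) (l 4)) (l 4))))))) (b (l 2) (b (l 2) (b (l 2) (l 4))))) (a (b (b (a (a (b (a (l 16779624) (b (l 16768416) (b (l 16794776) (a (l 16775984) (l 82376167543))))) (b (a (b (l 16792176) (a (l 16787392) (l 119957125463))) (b (a (l 113514672183) (l 4)) (l 4))) (a (b (a (l 126936449815) (l 4)) (l 4)) (l 4)))) (b (b (a (a (l 16773736) (l 45868942551)) (a (b (l 16789976) (l 130694524567)) (l 130157658567))) (a (b (a (l 72712486007) (l 133378883223)) (l 134989518039)) (l 4))) (l 4))) (l 4)) (l 4)) (l 4)) (l 4))), by decide +kernel⟩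

theorem s14_pp_022 : ∃ t, chk3 f_pp_022 t 5 3 1 = true := ex3_b k11_pp_022 k12_pp_022

theorem s15_pp_022 : ∃ t, chk3 f_pp_022 t 9 14 1 = true := ex3_a k8_pp_022 k9_pp_022

theorem s16_pp_022 : ∃ t, chk3 f_pp_022 t 9 7 1 = true := ex3_b s15_pp_022 k10_pp_022

theorem s17_pp_022 : ∃ t, chk3 f_pp_022 t 35 30 1 = true := ex3_b k5_pp_022 k6_pp_022

theorem s18_pp_022 : ∃ t, chk3 f_pp_022 t 17 30 1 = true := ex3_a k4_pp_022 s17_pp_022

theorem s19_pp_022 : ∃ t, chk3 f_pp_022 t 17 15 1 = true := ex3_b s18_pp_022 k7_pp_022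

theorem s20_pp_022 : ∃ t, chk3 f_pp_022 t 8 15 1 = true := ex3_a k3_pp_022 s19_pp_022

theorem s21_pp_022 : ∃ t, chk3 f_pp_022 t 8 7 1 = true := ex3_b k2_pp_022 s20_pp_022

theorem s22_pp_022 : ∃ t, chk3 f_pp_022 t 4 7 1 = true := ex3_a s21_pp_022 s16_pp_022

theorem s23_pp_022 : ∃ t, chk3 f_pp_022 t 4 3 1 = true := ex3_b k1_pp_022 s22_pp_022

theorem s24_pp_022 : ∃ t, chk3 f_pp_022 t 2 3 1 = true := ex3_a s23_pp_022 s14_pp_022

theorem s25_pp_022 : ∃ t, chk3 f_pp_022 t 2 1 1 = true := ex3_b k0_pp_022 s24_pp_022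

theorem s26_pp_022 : ∃ t, chk3 f_pp_022 t 1 1 1 = true := ex3_a s25_pp_022 k13_pp_022

theorem c_pp_022 : CertN 0 536870912 0 536870912 335544320 67108864 3 true true true .pp 0 2 2
    ndN0q0 ndN0q2 pcN2 cut_pp_022 Ext.none :=
  certN0 (fam := true) (s1 := true) (s2 := true) (a := 0) (b := 2) (c := 2) (cn := .pp) (n1 := ndN0q0) (n2 := ndN0q2) (pc := pcN2) (cut := cut_pp_022) (xt := Ext.none) (P1 := 0) (W1 := 536870912) (P2 := 0) (W2 := 536870912) (P3 := 335544320) (W3 := 67108864) (N0 := 3)
    rfl s26_pp_022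

noncomputable def f_pp_023 : ℕ → ℕ → ℕ → ℕ → Bool := onCell 1610612736 536870912 0 536870912 335544320 67108864
    (rowN 3 2 true true true .up 0 2 3 (qsf 0 536870912 0 536870912 3) ndN0q0 ndN0q2 pcN3 Cut.none Ext.none)

def k0_pp_023 : ∃ t, chk3 f_pp_023 t 4 1 1 = true :=
  ⟨(b (a (b (b (a (l 16843272) (b (l 16856040) (l 16843880))) (a (b (l 16827280) (l 16816032)) (b (l 16809912) (a (l 16817728) (l 16817240))))) (b (a (b (a (l 16806896) (l 16808736)) (a (b (l 16805056) (a (l 16802376) (l 30299698839))) (b (a (l 16806224) (l 16806736)) (b (a (l 16803496) (b (l 16803688) (l 64659441159))) (a (b (l 53922022535) (l 79691821959)) (l 97408562487)))))) (b (a (a (l 16810424) (l 16811544)) (b (l 16812672) (b (a (l 16811536) (l 16809984)) (a (l 16809424) (b (l 35668417383) (l 60364482439)))))) (a (b (a (b (l 16807896) (a (l 16805480) (l 48553315463))) (a (b (l 16807848) (l 65196318151)) (b (l 42647736807) (l 79691832903)))) (b (a (b (l 79154958295) (l 4)) (l 4)) (l 4))) (b (a (b (a (a (l 49090187895)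 (l 54995773735)) (l 67880674615)) (l 4)) (l 4)) (l 4))))) (a (b (b (a (b (a (l 41037116151) (b (l 64122566903) (l 93650460263))) (a (b (l 82376169287) (l 4)) (l 4))) (l 4)) (l 4)) (l 4)) (l 4)))) (b (b (a (b (l 16855232) (l 16841248)) (b (l 16846792) (l 16831432))) (a (a (b (l 16828408) (l 16814024)) (b (l 16823952) (a (l 16811472) (l 16810776)))) (b (a (l 16818632) (l 16812952)) (a (b (l 16810136) (b (a (l 16809088) (l 16807472)) (a (l 57680125655) (l 80765573639)))) (a (b (l 16808616) (l 92576730871)) (b (l 58753870727) (l 4))))))) (b (b (a (a (b (a (l 16811160) (b (l 16810472) (l 38352772791))) (b (a (b (l 16808400) (l 48016448983)) (l 72712512167)) (a (l 78618090999) (l 4)))) (b (b (a (l 16808672) (l 61975095543)) (a (l 66806933063) (l 4))) (l 4))) (l 4)) (l 4)) (l 4)))) (l 4)), by decide +kernel⟩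

def k1_pp_023 : ∃ t, chk3 f_pp_023 t 5 1 1 = true :=
  ⟨(b (a (b (b (a (b (l 16834224) (a (l 16821784) (l 16814936))) (l 2)) (a (b (a (b (l 16810784) (a (l 16808368) (l 54458888423))) (a (b (l 16807928) (l 73786252423)) (b (l 16807168) (l 99019177191)))) (a (a (b (l 82376185831) (l 4)) (l 4)) (l 4))) (l 2))) (l 4)) (l 2)) (l 4)), by decide +kernel⟩

def k2_pp_023 : ∃ t, chk3 f_pp_023 t 3 1 1 = true :=
  ⟨(l 2), by decide +kernel⟩

theorem s3_pp_023 : ∃ t, chk3 f_pp_023 t 2 1 1 = true := ex3_a k0_pp_023 k1_pp_023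

theorem s4_pp_023 : ∃ t, chk3 f_pp_023 t 1 1 1 = true := ex3_a s3_pp_023 k2_pp_023

theorem c_pp_023 : CertN 0 536870912 0 536870912 335544320 67108864 3 true true true .up 0 2 3
    ndN0q0 ndN0q2 pcN3 Cut.none Ext.none :=
  certN2 (fam := true) (s1 := true) (s2 := true) (a := 0) (b := 2) (c := 3) (cn := .up) (n1 := ndN0q0) (n2 := ndN0q2) (pc := pcN3) (cut := Cut.none) (xt := Ext.none) (P1 := 0) (W1 := 536870912) (P2 := 0) (W2 := 536870912) (P3 := 335544320) (W3 := 67108864) (N0 := 3)
    rfl (fun _ => rfl) s4_pp_023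

noncomputable def f_pp_101 : ℕ → ℕ → ℕ → ℕ → Bool := onCell 536870912 536870912 0 536870912 335544320 67108864
    (rowN 3 0 true true true .npn 1 0 1 (qsf 536870912 536870912 0 536870912 1) ndN0q1 ndN0q0 pcN1 Cut.none Ext.none)

def k0_pp_101 : ∃ t, chk3 f_pp_101 t 1 1 1 = true :=
  ⟨(a (l 4) (l 5)), by decide +kernel⟩

theorem c_pp_101 : CertN 536870912 536870912 0 536870912 335544320 67108864 3 true true true .npn 1 0 1
    ndN0q1 ndN0q0 pcN1 Cut.none Ext.none :=
  certN0 (fam := true) (s1 := true) (s2 := true) (a := 1) (b := 0) (c := 1) (cn := .npn) (n1 := ndN0q1) (n2 := ndN0q0) (pc := pcN1) (cut := Cut.none) (xt := Ext.none) (P1 := 536870912) (W1 := 536870912) (P2 := 0) (W2 := 536870912) (P3 := 335544320) (W3 := 67108864) (N0 := 3)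
    rfl k0_pp_101

noncomputable def f_pp_102 : ℕ → ℕ → ℕ → ℕ → Bool := onCell 536870912 536870912 0 536870912 335544320 67108864
    (rowN 3 0 true true true .npp 1 0 2 (qsf 536870912 536870912 0 536870912 2) ndN0q1 ndN0q0 pcN2 Cut.none Ext.none)

def k0_pp_102 : ∃ t, chk3 f_pp_102 t 1 1 1 = true :=
  ⟨(a (l 4) (l 5)), by decide +kernel⟩

theorem c_pp_102 : CertN 536870912 536870912 0 536870912 335544320 67108864 3 true true true .npp 1 0 2
    ndN0q1 ndN0q0 pcN2 Cut.none Ext.none :=
  certN0 (fam := true) (s1 := true) (s2 := true) (a := 1) (b := 0) (c := 2) (cn := .npp) (n1 := ndN0q1) (n2 := ndN0q0) (pc := pcN2) (cut := Cut.none) (xt := Ext.none) (P1 := 536870912) (W1 := 536870912) (P2 := 0) (W2 := 536870912) (P3 := 335544320) (W3 := 67108864) (N0 := 3)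
    rfl k0_pp_102

noncomputable def f_pp_112 : ℕ → ℕ → ℕ → ℕ → Bool := onCell 536870912 536870912 536870912 536870912 335544320 67108864
    (rowN 3 0 true true true .dn 1 1 2 (qsf 536870912 536870912 536870912 536870912 2) ndN0q1 ndN0q1 pcN2 Cut.none Ext.none)

def k0_pp_112 : ∃ t, chk3 f_pp_112 t 1 1 1 = true :=
  ⟨(l 4), by decide +kernel⟩

theorem c_pp_112 : CertN 536870912 536870912 536870912 536870912 335544320 67108864 3 true true true .dn 1 1 2
    ndN0q1 ndN0q1 pcN2 Cut.none Ext.none :=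
  certN0 (fam := true) (s1 := true) (s2 := true) (a := 1) (b := 1) (c := 2) (cn := .dn) (n1 := ndN0q1) (n2 := ndN0q1) (pc := pcN2) (cut := Cut.none) (xt := Ext.none) (P1 := 536870912) (W1 := 536870912) (P2 := 536870912) (W2 := 536870912) (P3 := 335544320) (W3 := 67108864) (N0 := 3)
    rfl k0_pp_112

noncomputable def f_pp_113 : ℕ → ℕ → ℕ → ℕ → Bool := onCell 536870912 536870912 536870912 536870912 335544320 67108864
    (rowN 3 0 true true true .nn 1 1 3 (qsf 536870912 536870912 536870912 536870912 3) ndN0q1 ndN0q1 pcN3 Cut.none Ext.none)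

def k0_pp_113 : ∃ t, chk3 f_pp_113 t 1 1 1 = true :=
  ⟨(l 4), by decide +kernel⟩

theorem c_pp_113 : CertN 536870912 536870912 536870912 536870912 335544320 67108864 3 true true true .nn 1 1 3
    ndN0q1 ndN0q1 pcN3 Cut.none Ext.none :=
  certN0 (fam := true) (s1 := true) (s2 := true) (a := 1) (b := 1) (c := 3) (cn := .nn) (n1 := ndN0q1) (n2 := ndN0q1) (pc := pcN3) (cut := Cut.none) (xt := Ext.none) (P1 := 536870912) (W1 := 536870912) (P2 := 536870912) (W2 := 536870912) (P3 := 335544320) (W3 := 67108864) (N0 := 3)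
    rfl k0_pp_113

noncomputable def f_pp_123 : ℕ → ℕ → ℕ → ℕ → Bool := onCell 536870912 536870912 0 536870912 335544320 67108864
    (rowN 3 0 true true true .npn 1 2 3 (qsf 536870912 536870912 0 536870912 3) ndN0q1 ndN0q2 pcN3 Cut.none Ext.none)

def k0_pp_123 : ∃ t, chk3 f_pp_123 t 1 1 1 = true :=
  ⟨(a (b (b (a (a (b (a (b (a (l 16823960) (l 16816360)) (a (l 27615366455) (b (l 16807184) (a (l 16806144) (l 75933733335))))) (b (a (l 16809280) (b (l 16806136) (l 65196315847))) (a (b (a (l 16805584) (l 74859990567)) (l 4)) (l 4)))) (a (b (a (b (a (l 58216983735) (l 78081217671)) (l 4)) (l 4)) (l 4)) (l 4))) (b (a (b (a (b (l 62511951591) (l 4)) (l 4)) (l 4)) (l 4)) (l 4))) (l 4)) (l 4)) (l 4)) (l 4)), by decide +kernel⟩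

theorem c_pp_123 : CertN 536870912 536870912 0 536870912 335544320 67108864 3 true true true .npn 1 2 3
    ndN0q1 ndN0q2 pcN3 Cut.none Ext.none :=
  certN0 (fam := true) (s1 := true) (s2 := true) (a := 1) (b := 2) (c := 3) (cn := .npn) (n1 := ndN0q1) (n2 := ndN0q2) (pc := pcN3) (cut := Cut.none) (xt := Ext.none) (P1 := 536870912) (W1 := 536870912) (P2 := 0) (W2 := 536870912) (P3 := 335544320) (W3 := 67108864) (N0 := 3)
    rfl k0_pp_123

noncomputable def f_pp_202 : ℕ → ℕ → ℕ → ℕ → Bool := onCell 0 536870912 0 536870912 335544320 67108864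
    (rowN 3 0 true true true .pp 2 0 2 (qsf 0 536870912 0 536870912 2) ndN0q2 ndN0q0 pcN2 Cut.none Ext.none)

def k0_pp_202 : ∃ t, chk3 f_pp_202 t 1 1 1 = true :=
  ⟨(l 5), by decide +kernel⟩

theorem c_pp_202 : CertN 0 536870912 0 536870912 335544320 67108864 3 true true true .pp 2 0 2
    ndN0q2 ndN0q0 pcN2 Cut.none Ext.none :=
  certN0 (fam := true) (s1 := true) (s2 := true) (a := 2) (b := 0) (c := 2) (cn := .pp) (n1 := ndN0q2) (n2 := ndN0q0) (pc := pcN2) (cut := Cut.none) (xt := Ext.none) (P1 := 0) (W1 := 536870912) (P2 := 0) (W2 := 536870912) (P3 := 335544320) (W3 := 67108864) (N0 := 3)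
    rfl k0_pp_202

noncomputable def f_pp_203 : ℕ → ℕ → ℕ → ℕ → Bool := onCell 0 536870912 0 536870912 335544320 67108864
    (rowN 3 0 true true true .up 2 0 3 (qsf 0 536870912 0 536870912 3) ndN0q2 ndN0q0 pcN3 Cut.none Ext.none)

def k0_pp_203 : ∃ t, chk3 f_pp_203 t 1 1 1 = true :=
  ⟨(l 5), by decide +kernel⟩

theorem c_pp_203 : CertN 0 536870912 0 536870912 335544320 67108864 3 true true true .up 2 0 3
    ndN0q2 ndN0q0 pcN3 Cut.none Ext.none :=
  certN0 (fam := true) (s1 := true) (s2 := true) (a := 2) (b := 0) (c := 3) (cn := .up) (n1 := ndN0q2) (n2 := ndN0q0) (pc := pcN3) (cut := Cut.none) (xt := Ext.none) (P1 := 0) (W1 := 536870912) (P2 := 0) (W2 := 536870912) (P3 := 335544320) (W3 := 67108864) (N0 := 3)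
    rfl k0_pp_203

noncomputable def f_pp_213 : ℕ → ℕ → ℕ → ℕ → Bool := onCell 0 536870912 536870912 536870912 335544320 67108864
    (rowN 3 0 true true true .pnn 2 1 3 (qsf 0 536870912 536870912 536870912 3) ndN0q2 ndN0q1 pcN3 Cut.none Ext.none)

def k0_pp_213 : ∃ t, chk3 f_pp_213 t 1 1 1 = true :=
  ⟨(a (l 5) (l 4)), by decide +kernel⟩

theorem c_pp_213 : CertN 0 536870912 536870912 536870912 335544320 67108864 3 true true true .pnn 2 1 3
    ndN0q2 ndN0q1 pcN3 Cut.none Ext.none :=
  certN0 (fam := true) (s1 := true) (s2 := true) (a := 2) (b := 1) (c := 3) (cn := .pnn) (n1 := ndN0q2) (n2 := ndN0q1) (pc := pcN3) (cut := Cut.none) (xt := Ext.none) (P1 := 0) (W1 := 536870912) (P2 := 536870912) (W2 := 536870912) (P3 := 335544320) (W3 := 67108864) (N0 := 3)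
    rfl k0_pp_213

noncomputable def f_pm_001 : ℕ → ℕ → ℕ → ℕ → Bool := onCell 0 536870912 0 536870912 335544320 67108864
    (rowN 3 0 true true false .up 0 0 1 (qsf 0 536870912 0 536870912 1) ndN0q0 ndN0q0 pcN1 Cut.none Ext.none)

def k0_pm_001 : ∃ t, chk3 f_pm_001 t 1 1 1 = true :=
  ⟨(l 3), by decide +kernel⟩

theorem c_pm_001 : CertN 0 536870912 0 536870912 335544320 67108864 3 true true false .up 0 0 1
    ndN0q0 ndN0q0 pcN1 Cut.none Ext.none :=
  certN0 (fam := true) (s1 := true) (s2 := false) (a := 0) (b := 0) (c := 1) (cn := .up) (n1 := ndN0q0) (n2 := ndN0q0) (pc := pcN1) (cut := Cut.none) (xt := Ext.none) (P1 := 0) (W1 := 536870912) (P2 := 0) (W2 := 536870912) (P3 := 335544320) (W3 := 67108864) (N0 := 3)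
    rfl k0_pm_001

noncomputable def cut_pm_011 : Cut := Cut.of [[⟨0, 0, 0, 67108864⟩, ⟨1, 1, 0, 67108864⟩, ⟨2, 1, 0, 67108864⟩]]

noncomputable def f_pm_011 : ℕ → ℕ → ℕ → ℕ → Bool := onCell 536870912 536870912 536870912 536870912 335544320 67108864
    (rowN 3 2 true true false .pnn 0 1 1 (qsf 0 536870912 536870912 536870912 1) ndN0q0 ndN0q1 pcN1 cut_pm_011 Ext.none)

def k0_pm_011 : ∃ t, chk3 f_pm_011 t 1 1 1 = true :=
  ⟨(a (l 3) (b (l 3) (a (l 3) (b (l 3) (a (l 3) (b (l 3) (a (l 3) (b (l 3) (l 6))))))))), by decide +kernel⟩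

theorem c_pm_011 : CertN 0 536870912 536870912 536870912 335544320 67108864 3 true true false .pnn 0 1 1
    ndN0q0 ndN0q1 pcN1 cut_pm_011 Ext.none :=
  certN2 (fam := true) (s1 := true) (s2 := false) (a := 0) (b := 1) (c := 1) (cn := .pnn) (n1 := ndN0q0) (n2 := ndN0q1) (pc := pcN1) (cut := cut_pm_011) (xt := Ext.none) (P1 := 0) (W1 := 536870912) (P2 := 536870912) (W2 := 536870912) (P3 := 335544320) (W3 := 67108864) (N0 := 3)
    rfl (fun _ => rfl) k0_pm_011

noncomputable def cut_pm_012 : Cut := Cut.of [[⟨0, 0, 0, 67108864⟩, ⟨1, 1, 0, 67108864⟩, ⟨2, 1, 0, 67108864⟩], [⟨0, 0, 1, 33554432⟩, ⟨1, 1, 0, 33554432⟩, ⟨2, 1, 1, 33554432⟩]]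

noncomputable def f_pm_012 : ℕ → ℕ → ℕ → ℕ → Bool := onCell 1073741824 536870912 536870912 536870912 335544320 67108864
    (rowN 3 2 true true false .pnp 0 1 2 (qsf 0 536870912 536870912 536870912 2) ndN0q0 ndN0q1 pcN2 cut_pm_012 Ext.none)

def k0_pm_012 : ∃ t, chk3 f_pm_012 t 4 2 1 = true :=
  ⟨(b (l 3) (l 3)), by decide +kernel⟩

def k1_pm_012 : ∃ t, chk3 f_pm_012 t 10 4 1 = true :=
  ⟨(a (a (l 3) (l 2)) (l 2)), by decide +kernel⟩

def k2_pm_012 : ∃ t, chk3 f_pm_012 t 40 5 1 = true :=
  ⟨(b (l 3) (b (l 3) (a (l 3) (b (a (l 3) (a (l 3) (b (a (l 3) (c (l 170892792855) (b (l 3) (l 174113998263)))) (a (b (l 3) (c (b (l 161765984855) (l 148881077511)) (c (b (l 164987200167) (l 151028554887)) (c (b (a (l 3) (a (l 167671549543) (l 148344196375))) (l 152102291831)) (b (a (l 3) (b (l 174113997207) (c (a (l 185925157831) (l 160692224823)) (a (a (l 3) (b (b (l 3) (l 171429641095)) (l 156397255223))) (a (b (b (l 172503382679) (l 141364869767)) (l 16801272)) (l 16801256)))))) (a (l 217600540087)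 (l 149954804439))))))) (b (c (l 166060951735) (c (l 168745296199) (a (b (l 175187741207) (l 170892773191)) (l 126332486119)))) (c (l 153712918455) (b (a (b (c (l 16805752) (l 125258742695)) (l 16803920)) (l 16803648)) (l 16803288)))))))) (a (b (l 3) (a (l 3) (b (l 210621223463) (l 152639160967)))) (a (c (b (b (l 207400009543) (l 149417946711)) (l 16804584)) (b (b (a (l 3) (b (l 215989931463) (l 153712903943))) (l 152639160167)) (l 146733581079))) (b (b (c (l 143512368343) (a (c (l 16804120) (l 148344191991)) (l 16802120))) (l 16803632)) (l 16801104)))))))), by decide +kernel⟩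

def k3_pm_012 : ∃ t, chk3 f_pm_012 t 41 5 1 = true :=
  ⟨(a (b (b (l 3) (a (l 3) (b (l 3) (a (l 3) (b (l 173040271959) (l 170355912807)))))) (b (a (b (l 3) (a (b (l 3) (a (l 3) (c (l 168745308615) (l 173040261975)))) (b (a (l 172503399239) (l 126332494903)) (c (l 117205701607) (l 123111267831))))) (a (b (b (l 172503400055) (l 168745300871)) (b (l 119353174375) (l 16805792))) (b (b (l 16807808) (l 16806608)) (l 16804968)))) (b (a (a (b (b (c (l 166597823319) (l 170355906119)) (a (c (l 121500663271) (l 125795619767)) (l 16806816))) (b (c (l 16809704) (l 16803280)) (l 16805744))) (b (l 16806000) (l 16804816))) (c (l 16806648) (l 16822144))) (a (b (a (l 16803720) (l 16803272)) (l 16800896)) (a (l 16823656) (l 16804400)))))) (a (a (b (b (l 3) (b (l 168745314887) (l 109689511895))) (b (b (l 16805544) (l 16803888)) (b (l 16803656) (l 16807912)))) (b (b (b (l 2) (c (l 161766005991) (l 167671573207))) (b (b (l 16808240) (l 16807312)) (l 16805880))) (b (b (l 16804176) (l 16803272)) (c (l 16830304)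 (l 16847728))))) (b (b (b (l 2) (a (a (l 16807928) (l 16806816)) (l 16805064))) (b (a (a (l 16806256) (l 16805216)) (l 16803536)) (a (a (l 16804600) (l 16803680)) (l 16802168)))) (a (a (b (c (l 16826312) (l 16821408)) (l 16811336)) (b (b (l 16802576) (l 16802888)) (l 16831808))) (b (l 16801616) (l 16808432)))))), by decide +kernel⟩

def k4_pm_012 : ∃ t, chk3 f_pm_012 t 21 5 1 = true :=
  ⟨(b (a (a (b (a (l 12985669591) (l 2)) (c (l 16841792) (l 16858608))) (b (l 2) (l 16794040))) (b (l 2) (l 16782088))) (b (a (a (l 16822848) (l 16792408)) (l 16802488)) (a (a (l 16818800) (l 16781512)) (l 16777528)))), by decide +kernel⟩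

def k5_pm_012 : ∃ t, chk3 f_pm_012 t 11 2 1 = true :=
  ⟨(b (l 2) (b (a (a (b (l 2) (l 16795616)) (l 2)) (l 2)) (a (b (a (l 16794344) (l 16820128)) (a (l 16789960) (l 16814224))) (b (l 16860264) (l 16855880))))), by decide +kernel⟩

def k6_pm_012 : ∃ t, chk3 f_pm_012 t 4 6 1 = true :=
  ⟨(a (l 3) (b (a (l 3) (a (l 3) (b (l 3) (a (b (l 3) (b (l 3) (l 288467474535))) (b (a (l 3) (b (l 205789361607) (l 147270437895))) (a (b (l 198273157607) (l 16802784)) (l 56002411927))))))) (a (b (l 3) (a (l 3) (a (l 3) (b (l 3) (a (l 3) (b (l 3) (l 68887276887))))))) (a (b (a (l 3) (b (l 3) (a (l 174650853303) (b (l 102710155287) (l 16779400))))) (a (b (a (l 190220101831) (b (l 170355861703) (l 16789400))) (a (b (l 16790008) (l 16779320)) (l 16789688))) (a (b (l 22716376327) (l 16788880)) (b (l 16780032) (l 16777536))))) (b (a (b (b (a (l 3) (l 16801832)) (l 72108520679)) (a (l 16791080) (l 16801032))) (b (l 16794016) (l 16799184))) (a (b (c (l 16800824) (l 16799472)) (b (l 16777072) (l 16775416))) (b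 (l 16799568) (l 16796224)))))))), by decide +kernel⟩

def k7_pm_012 : ∃ t, chk3 f_pm_012 t 8 14 1 = true :=
  ⟨(a (l 3) (b (l 3) (a (l 3) (b (l 3) (a (b (l 3) (a (l 3) (b (l 3) (a (l 187535726791) (b (l 135996120535) (l 16780256)))))) (b (a (b (l 3) (a (l 3) (l 160155313831))) (a (b (l 3) (l 41506844743)) (b (l 59760458679) (l 16777096)))) (a (b (a (b (l 180019532279) (l 60297325751)) (l 16781448)) (l 16781784)) (a (l 16781728) (l 16780072))))))))), by decide +kernel⟩

def k8_pm_012 : ∃ t, chk3 f_pm_012 t 16 15 1 = true :=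
  ⟨(b (a (l 3) (b (l 3) (a (l 3) (b (l 3) (a (l 3) (b (l 3) (a (b (l 3) (b (l 3) (l 6))) (a (a (b (l 3) (b (l 65129158023) (l 6))) (b (l 181630143303) (l 16779568))) (b (b (l 154786597943) (l 32916902807)) (l 16779072)))))))))) (b (a (l 6) (a (l 6) (b (a (l 6) (b (b (a (l 6) (a (l 6) (l 16777896))) (l 6)) (l 6))) (l 6)))) (l 6))), by decide +kernel⟩

def k9_pm_012 : ∃ t, chk3 f_pm_012 t 34 30 1 = true :=
  ⟨(b (a (l 3) (b (l 3) (a (b (l 3) (a (l 3) (a (b (l 3) (l 60834194295)) (b (l 149417893191) (l 16779840))))) (a (b (b (l 3) (a (l 3) (l 62444806983))) (c (l 11978938087) (l 16780616))) (b (a (b (l 147270404215) (l 16782552)) (l 16780768)) (l 16779560)))))) (a (b (a (b (l 3) (a (l 3) (b (l 3) (a (l 3) (l 173577079863))))) (b (a (l 3) (b (l 3) (a (l 186461982167) (c (l 55465483383) (l 54928613047))))) (a (a (b (l 3) (b (l 83382771335) (l 16779896))) (b (b (l 3) (l 69960997687)) (l 16779544))) (a (b (l 29695678679) (l 16776288)) (l 16778808))))) (a (a (b (b (l 3) (c (a (l 160692177399)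 (a (l 50633643655) (l 16779840))) (a (l 164450273703) (l 36675000183)))) (c (b (l 16779248) (l 16778152)) (b (l 16779136) (l 16777968)))) (b (b (a (b (l 181630142951) (l 50096772951)) (l 22179484935)) (l 16779008)) (b (l 16778536) (a (l 16777064) (l 16773784))))) (a (b (c (l 16778680) (l 16778160)) (c (c (l 16773600) (l 16773456)) (c (l 16773304) (l 16773128)))) (b (c (l 16777104) (l 16776824)) (c (l 16773752) (l 16771880)))))) (b (a (a (b (b (a (l 146733535895) (l 35601258967)) (l 16779400)) (c (l 16777984) (l 16777736))) (b (l 16779992) (a (l 16779552) (l 16778928)))) (b (a (l 16778776) (l 16778888)) (c (c (l 16772472) (l 16772272)) (c (l 16772040) (l 16771792))))) (a (a (b (c (l 16773248) (l 16772888)) (c (l 16771040) (l 16770560))) (b (c (l 16772040) (l 16771592)) (c (l 16769824) (l 16769256)))) (a (b (c (l 16770840) (l 16770312)) (c (l 16768616) (l 16767968))) (c (b (l 16769664) (l 16767440)) (b (l 16769048) (l 16766704)))))))), by decide +kernel⟩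

def k10_pm_012 : ∃ t, chk3 f_pm_012 t 35 30 1 = true :=
  ⟨(b (a (b (a (b (a (l 3) (b (l 3) (a (l 174650821783) (l 16781640)))) (a (b (l 158544699895) (l 40969970663)) (l 16780896))) (a (b (c (l 31306294263) (l 30769423799)) (l 16781128)) (c (l 16781088) (l 16780728)))) (b (c (a (l 16781152) (l 16773728)) (a (l 16780856) (l 16773264))) (c (a (l 16779304) (l 16771864)) (a (l 16778896) (l 16771288))))) (b (b (a (l 16780152) (l 16778080)) (a (l 16778400) (l 16776312))) (b (a (a (l 16771864) (l 16770792)) (l 16774456)) (c (a (l 16769744) (l 16767696)) (a (l 16768992) (l 16766776)))))) (c (a (b (b (a (l 16777360) (l 16769904)) (a (l 16772696) (l 16767840))) (b (a (c (l 16768088) (l 16767768)) (c (l 16765880) (l 16765488))) (a (c (l 16765872) (l 16765496)) (c (l 16763648) (l 16763208))))) (b (b (a (l 16767760) (l 16765704)) (a (l 16765688) (l 16763608))) (b (a (c (l 16763744) (l 16763280)) (c (l 16761688) (l 16761152))) (a (c (l 16761496) (l 16760992)) (a (l 16759672) (l 16758640)))))) (b (a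 (b (a (l 16771600) (l 16769216)) (a (l 16769448) (l 16767048))) (b (a (l 16766912) (l 16764680)) (a (l 16764728) (l 16762480)))) (a (b (a (c (l 16767392) (l 16766976)) (c (l 16765032) (l 16764520))) (a (c (l 16765072) (l 16764584)) (c (l 16762696) (l 16762112)))) (b (a (c (l 16762744) (l 16762136)) (c (l 16760528) (l 16759824))) (b (a (l 16760672) (l 16758400)) (a (l 16759456) (l 16757184)))))))), by decide +kernel⟩

def k11_pm_012 : ∃ t, chk3 f_pm_012 t 34 124 1 = true :=
  ⟨(a (b (a (a (b (c (l 16774384) (l 16774144)) (c (l 16773208) (l 16772904))) (c (c (l 16773240) (l 16772424)) (c (l 16772248) (l 16772048)))) (c (c (a (l 16771320) (l 16770080)) (b (l 16771080) (l 16769888))) (c (b (l 16770856) (l 16769632)) (b (l 16770600) (l 16769344))))) (b (b (a (a (l 6) (l 16773432)) (a (l 16769496) (l 16768192))) (a (l 6) (a (l 16768872) (l 16767568)))) (a (l 6) (a (a (l 6) (l 16767600)) (a (l 16766944) (l 16766296)))))) (a (a (b (c (c (l 16768856) (l 16768592)) (l 16768120)) (c (c (l 16766464)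 (l 16766144)) (c (l 16765784) (l 16765368)))) (b (c (l 16767504) (l 16766816)) (c (c (l 16765248) (l 16764896)) (c (l 16764496) (l 16764032))))) (a (b (c (l 16766296) (l 16765528)) (c (c (l 16764056) (l 16763672)) (c (l 16763224) (l 16762712)))) (c (b (l 16765104) (c (l 16762880) (l 16762456))) (b (l 16764256) (c (l 16761968) (l 16761416))))))), by decide +kernel⟩

def k12_pm_012 : ∃ t, chk3 f_pm_012 t 34 125 1 = true :=
  ⟨(b (a (a (l 6) (b (a (l 6) (c (l 16765680) (l 16764936))) (l 6))) (c (a (c (b (a (l 16764600) (l 16763384)) (a (l 16763328) (l 16762104))) (b (a (l 16764248) (l 16762992)) (a (l 16762944) (l 16761688)))) (a (b (l 16761976) (c (l 16760848) (l 16760400))) (b (l 16760784) (b (l 16759768) (a (l 16759368) (l 16758624)))))) (a (c (b (a (l 16763832) (l 16762544)) (a (l 16762504) (l 16761208))) (b (a (l 16763368) (l 16762024)) (a (l 16761992) (l 16760656)))) (a (b (l 16760992) (a (l 16759960) (b (l 16759656) (l 16758936)))) (b (l 16759712) (c (b (l 16758960) (l 16759480)) (b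 (l 16758328) (c (l 16757688) (l 16757336))))))))) (a (l 6) (c (a (a (l 6) (a (l 6) (b (b (l 16760568) (l 6)) (l 6)))) (b (b (a (a (l 16759912) (l 16759160)) (l 16757904)) (c (l 16757848) (l 16757360))) (c (l 16756168) (l 16755672)))) (a (a (l 6) (a (l 6) (b (b (l 16759536) (l 6)) (l 6)))) (b (a (b (a (a (l 16759032) (l 16758664)) (l 16758056)) (l 16757344)) (l 16758808)) (c (l 16755104) (l 16754456))))))), by decide +kernel⟩

def k13_pm_012 : ∃ t, chk3 f_pm_012 t 35 124 1 = true :=
  ⟨(a (b (b (c (a (l 16763944) (l 16761680)) (a (l 16763000) (l 16760568))) (c (a (l 16762752) (l 16760480)) (a (l 16761744) (c (l 16759632) (l 16758968))))) (a (c (c (b (l 16761752) (l 16760520)) (b (l 16761296) (l 16760032))) (a (b (l 16761088) (l 16759784)) (b (l 16759848) (l 16758544)))) (c (b (c (l 16759512) (l 16758984)) (a (a (l 16758856) (l 16758232)) (b (l 16757704) (a (l 16757304) (l 16756560))))) (b (c (l 16758368) (l 16756352)) (c (a (l 16757608) (b (l 16756760) (l 16755960))) (a (c (l 16757088)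 (l 16756704)) (b (l 16756008) (c (l 16755392) (l 16754984))))))))) (b (b (c (a (l 16759488) (c (l 16757672) (l 16757056))) (a (c (l 16758568) (l 16757840)) (c (l 16756336) (l 16755512)))) (c (a (c (l 16758560) (l 16757984)) (a (a (l 16756944) (l 16756336)) (b (l 16755864) (l 16755032)))) (a (c (l 16757320) (l 16756560)) (c (a (l 16755552) (b (l 16754768) (l 16753912))) (a (a (l 16755088) (l 16754440)) (b (l 16753896) (l 16753032))))))) (c (b (a (a (a (l 16757872) (l 16757256)) (b (l 16756752) (a (l 16756336) (l 16755568)))) (a (c (l 16755264) (l 16757240)) (l 16753288))) (a (a (a (b (l 16756816) (l 16755728)) (l 16755496)) (l 16754256)) (l 16751792))) (b (b (a (a (l 16756568) (a (l 16755696) (l 16755056))) (a (a (l 16754392) (l 16753576)) (l 16752312))) (a (c (a (l 16756240) (l 16754920)) (a (l 16755456) (l 16756712))) (l 16754616))) (a (b (a (c (l 16755432) (l 16757256)) (l 16753376)) (c (l 16753464) (l 16752648))) (l 16753528)))))), by decide +kernel⟩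

def k14_pm_012 : ∃ t, chk3 f_pm_012 t 35 125 1 = true :=
  ⟨(a (b (c (a (a (a (b (l 16759896) (c (l 16761208) (l 16760696))) (b (l 16759256) (l 16760168))) (b (b (l 16758712) (a (l 16758312) (l 16757576))) (l 16756280))) (c (b (a (c (l 16759936) (l 16759672)) (l 16755528)) (l 16754080)) (b (a (a (l 16759640) (l 16756216)) (l 16754944)) (l 16753496)))) (a (a (b (c (l 16758720) (c (l 16758240) (l 16757888))) (b (a (a (l 16757848) (l 16757488)) (l 16756888)) (l 16756168))) (b (c (b (l 16757832) (l 16757040)) (b (l 16757144) (c (l 16756520) (l 16756136)))) (l 16755024))) (c (b (a (b (l 16756496) (l 16755384)) (l 16754272)) (l 16752824)) (b (a (b (c (l 16755952) (l 16755560)) (l 16754648)) (l 16753496)) (l 16752064))))) (c (a (b (c (l 16755104) (l 16754568)) (l 16752576)) (c (l 16755888) (l 16755296))) (a (b (c (l 16753944) (l 16753240)) (l 16751312)) (c (l 16754608) (l 16753840))))) (c (b (a (b (l 16755400) (l 16750472)) (c (l 16748640) (l 16747952))) (a (l 16752232) (l 16743608))) (b (a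 (a (a (l 16756712) (l 16750608)) (l 16754568)) (c (l 16747168) (l 16746280))) (a (l 16750744) (l 16742008))))), by decide +kernel⟩

def k15_pm_012 : ∃ t, chk3 f_pm_012 t 17 63 1 = true :=
  ⟨(a (b (b (b (a (l 6) (a (l 6) (c (l 16758920) (l 16752512)))) (l 6)) (l 6)) (l 6)) (b (a (b (c (a (c (l 16754656) (l 16748848)) (l 16750960)) (a (c (l 16748200) (l 16747480)) (l 16749568))) (c (a (l 16744504) (l 16741024)) (a (l 16743184) (l 16739600)))) (b (c (a (l 16742288) (l 16738840)) (a (l 16740776) (l 16737216))) (c (a (l 16737528) (l 16734024)) (l 16739424)))) (b (a (a (l 6) (l 16740816)) (c (l 16730920) (l 16729320))) (a (l 6) (c (l 16726024) (l 16724416)))))), by decide +kernel⟩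

def k16_pm_012 : ∃ t, chk3 f_pm_012 t 18 14 1 = true :=
  ⟨(b (a (b (l 3) (a (l 3) (b (a (l 3) (l 178945801143)) (a (b (l 3) (l 142975450167)) (b (l 60297334583) (l 16788560)))))) (b (a (b (l 3) (a (l 188072602551) (b (l 90898980199) (l 16789288)))) (b (a (l 65666051687) (l 16778936)) (l 16789088))) (a (a (b (b (l 81235302295) (l 16789016)) (l 16787736)) (b (l 16777904) (l 16775928))) (b (l 16786640) (l 16784536))))) (a (b (a (b (a (l 3) (b (l 3) (a (l 173040211239) (l 16783192)))) (a (b (a (l 3) (l 148344147847)) (a (l 113984418487) (l 16783112))) (b (l 21642622247) (l 16787120)))) (a (b (b (l 45264945175) (l 16777448)) (l 16783464)) (b (l 16786976) (l 16784464)))) (a (b (a (c (l 16781856) (l 16781400)) (c (l 16774880) (l 16774240))) (c (b (l 16778768) (l 16777192)) (b (l 16778080) (l 16776408)))) (a (b (l 16783296) (c (l 16770160) (l 16769160))) (b (l 16781624) (c (l 16768512) (l 16767352)))))) (b (b (a (c (l 16785224) (l 16784288)) (c (l 16772264) (l 16770976))) (a (c (l 16772208)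 (l 16781600)) (c (l 16769616) (l 16768184)))) (a (a (b (l 16769552) (c (l 16766952) (l 16765624))) (b (l 16768040) (c (l 16765480) (l 16763984)))) (a (b (l 16766616) (c (l 16764080) (l 16762424))) (b (l 16765272) (c (l 16762768) (l 16760944)))))))), by decide +kernel⟩

def k17_pm_012 : ∃ t, chk3 f_pm_012 t 19 14 1 = true :=
  ⟨(a (b (b (a (b (l 16787992) (l 16786304)) (c (l 16785784) (l 16784416))) (b (a (l 16773904) (l 16771632)) (a (l 16771704) (l 16769416)))) (b (a (b (c (l 16769960) (l 16768368)) (c (l 16767240) (l 16765504))) (b (l 16772144) (c (l 16765032) (l 16763040)))) (b (a (a (l 16763984) (l 16762752)) (c (l 16762016) (l 16759856))) (a (c (b (l 16761752) (l 16760016)) (b (l 16759744) (l 16757928))) (c (b (l 16759560) (l 16757840)) (b (l 16757264) (l 16755448))))))) (b (b (a (b (l 16773576) (l 16771616)) (b (l 16772328) (l 16770264))) (a (b (l 16769568) (l 16767344)) (b (l 16768120) (l 16765880)))) (b (b (a (c (l 16765832) (l 16763784)) (c (l 16764504) (l 16762216))) (a (c (l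 16763184) (l 16760944)) (c (l 16761984) (l 16759448)))) (a (b (c (l 16760256) (a (l 16758288) (l 16757400))) (c (b (l 16757776) (a (l 16756360) (c (l 16755464) (l 16754288)))) (a (b (l 16755720) (l 16753736)) (b (l 16754744) (b (l 16753056) (l 16751304)))))) (b (c (b (l 16759824) (a (l 16758528) (l 16757312))) (b (l 16757096) (a (l 16755768) (c (l 16755192) (l 16753472))))) (c (b (a (l 16756120) (l 16753096)) (l 16749984)) (a (b (a (l 16753888) (l 16752840)) (l 16748904)) (l 16747648)))))))), by decide +kernel⟩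

def k18_pm_012 : ∃ t, chk3 f_pm_012 t 36 30 2 = true :=
  ⟨(b (a (a (b (l 16775616) (b (l 16767648) (l 16765728))) (b (l 16768528) (b (l 16765776) (l 16763840)))) (b (a (l 16766768) (l 16765080)) (b (a (l 16763984) (l 16762280)) (a (l 16762032) (l 16760304))))) (a (b (b (a (l 16763720) (l 16761808)) (a (l 16761608) (l 16759688))) (b (a (c (l 16759704) (l 16759096)) (c (l 16757800) (l 16757128))) (b (a (l 16757704) (c (l 16756056) (l 16755352))) (a (l 16756528) (c (a (l 16755256) (l 16754104)) (a (l 16754552) (l 16755976))))))) (b (b (a (l 16759984) (l 16758240)) (a (l 16757848) (l 16756088))) (b (b (a (l 16756184) (c (l 16754640) (l 16753848))) (a (c (l 16755312) (l 16754568)) (a (a (l 16753776) (l 16753208)) (l 16752112)))) (a (b (c (a (l 16754528) (l 16753320)) (a (l 16753776) (l 16752528))) (l 16751368)) (c (l 16749720) (l 16748888))))))), by decide +kernel⟩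

def k19_pm_012 : ∃ t, chk3 f_pm_012 t 36 30 3 = true :=
  ⟨(b (a (a (b (b (l 16770432) (l 16768600)) (b (l 16766664) (l 16764640))) (b (l 16767520) (b (l 16764624) (l 16762584)))) (b (a (l 16765592) (l 16763736)) (b (a (l 16762664) (l 16760792)) (a (l 16760608) (l 16758720))))) (b (a (b (a (l 16762528) (l 16760456)) (a (l 16760312) (l 16758232))) (b (a (l 16758464) (l 16756552)) (a (c (l 16756672) (l 16755744)) (c (l 16754792) (l 16753768))))) (a (b (a (c (l 16758400) (l 16757592)) (a (l 16756424) (l 16755400))) (b (a (l 16756216) (c (l 16754528) (l 16753584))) (a (c (l 16755416) (l 16754528)) (c (a (b (l 16754160) (l 16753416)) (b (l 16752984) (l 16751944))) (a (b (l 16753216) (l 16752456)) (b (l 16751992) (l 16750944))))))) (b (b (a (l 16754480) (a (l 16753024) (c (l 16752480) (l 16751384)))) (a (c (l 16753696) (a (l 16753280) (l 16752192))) (a (b (l 16752032) (a (l 16751584) (l 16750776))) (a (l 16750576) (l 16749712))))) (a (b (c (a (b (l 16753320) (l 16752560)) (l 16751600)) (a (b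 (l 16752312) (l 16751536)) (b (l 16751088) (l 16749936)))) (c (l 16750048) (l 16749000))) (c (l 16753160) (b (l 16748008) (l 16745616)))))))), by decide +kernel⟩

def k20_pm_012 : ∃ t, chk3 f_pm_012 t 37 30 1 = true :=
  ⟨(b (a (b (a (c (l 16763480) (l 16761968)) (b (l 16762104) (l 16760224))) (c (b (a (l 16760648) (l 16759096)) (a (l 16758656) (l 16757088))) (b (a (l 16758992) (l 16757288)) (a (l 16756904) (l 16755184))))) (b (c (b (l 16760744) (l 16758872)) (b (l 16758872) (a (l 16757696) (l 16756176)))) (c (b (c (l 16757336) (l 16756472)) (a (l 16755608) (c (l 16754416) (l 16753488)))) (b (a (l 16755664) (l 16754128)) (a (l 16753544) (a (l 16752368) (b (l 16752160) (a (l 16751152) (l 16750664))))))))) (b (a (c (b (a (l 16756576) (l 16754992)) (b (a (l 16754960) (c (l 16753488) (l 16755232))) (a (c (l 16754032) (l 16754512)) (c (l 16751704) (l 16750800))))) (b (a (l 16754728) (c (l 16753544) (l 16752392))) (b (a (l 16753032) (a (l 16751608) (b (l 16751008) (l 16750104)))) (b (a (l 16752104)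 (c (l 16750320) (l 16749104))) (a (c (l 16751936) (a (l 16751440) (l 16750304))) (l 16748504)))))) (c (b (b (a (l 16753920) (c (l 16752408) (l 16751432))) (a (c (l 16752960) (l 16752032)) (l 16749592))) (a (l 16754472) (l 16745968))) (b (b (a (c (l 16752384) (l 16751152)) (a (a (l 16750704) (l 16750112)) (l 16748896))) (a (c (a (l 16751584) (l 16750408)) (a (l 16750344) (l 16749128))) (l 16747280))) (c (a (l 16747616) (l 16744272)) (a (l 16751584) (l 16742936)))))) (a (a (c (b (a (b (l 16754080) (l 16750464)) (l 16750048)) (l 16746072)) (a (b (b (a (a (l 16751320) (l 16751008)) (l 16750464)) (l 16748464)) (l 16744864)) (b (l 16748000) (l 16743176)))) (c (b (l 16747632) (l 16742800)) (b (c (l 16746080) (l 16744856)) (l 16740616)))) (a (c (b (l 16744376) (l 16739488)) (b (l 16747352) (l 16737184))) (c (b (l 16741080) (l 16736136)) (b (l 16738696) (l 16733720))))))), by decide +kernel⟩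

def k21_pm_012 : ∃ t, chk3 f_pm_012 t 18 62 1 = true :=
  ⟨(a (b (a (b (b (c (a (a (b (l 16756144) (l 16755432)) (b (l 16755024) (l 16754120))) (c (l 16752632) (l 16751888))) (a (c (a (b (l 16755024) (l 16754304)) (b (l 16753856) (l 16752928))) (a (b (l 16754136) (l 16753400)) (b (l 16752920) (l 16751992)))) (c (l 16756264) (a (l 16750888) (l 16749176))))) (c (a (a (a (l 16754416) (l 16753576)) (l 16752360)) (l 16749912)) (a (a (a (b (l 16753384) (l 16752216)) (l 16751960)) (l 16750704)) (l 16748168)))) (c (a (c (l 16755264) (l 16754544)) (l 16751624)) (a (b (l 16749192) (l 16746840)) (c (l 16745096) (l 16744088))))) (a (c (b (c (l 16748216) (l 16747416)) (l 16743064)) (b (c (l 16746488) (l 16745432)) (l 16741168))) (c (b (l 16744552) (l 16739720)) (b (l 16747816) (l 16737712))))) (a (a (c (b (l 16744968) (l 16740208)) (b (l 16748528) (l 16738488))) (c (b (l 16741608) (l 16736792)) (b (l 16739808) (l 16734960)))) (c (b (c (l 16736952) (l 16736072)) (l 16736864)) (b (c (l 16740328) (l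 16739232)) (l 16734864))))) (b (a (a (c (b (l 16741240) (l 16736360)) (b (l 16739152) (l 16734232))) (c (b (l 16737912) (l 16732968)) (b (l 16735696) (l 16730728)))) (c (b (l 16738072) (l 16733064)) (b (c (l 16731096) (l 16729760)) (l 16735888)))) (a (c (b (l 16734936) (l 16724680)) (b (l 16737968) (l 16722456))) (c (b (l 16722760) (l 16717656)) (b (l 16720320) (l 16715200)))))), by decide +kernel⟩

def k22_pm_012 : ∃ t, chk3 f_pm_012 t 18 63 1 = true :=
  ⟨(a (b (a (c (b (l 16738880) (l 16728736)) (b (l 16737088) (l 16726936))) (c (b (l 16726664) (l 16721656)) (b (l 16724648) (l 16719632)))) (b (a (c (l 16723784) (l 16721968)) (l 16720872)) (a (c (l 16718776) (l 16716960)) (l 16721008)))) (b (a (c (b (l 16719624) (l 16714520)) (b (l 16717384) (l 16712280))) (b (a (l 16713152) (l 16709520)) (l 16716616))) (a (b (l 16718776) (l 16703096)) (b (l 16700896) (l 16695624))))), by decide +kernel⟩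

def k23_pm_012 : ∃ t, chk3 f_pm_012 t 38 30 1 = true :=
  ⟨(b (b (a (a (c (l 16757896) (b (l 16756720) (l 16754736))) (c (l 16756704) (b (l 16755376) (l 16753392)))) (c (b (a (l 16756544) (l 16755304)) (a (c (l 16754768) (l 16753728)) (c (l 16752864) (l 16751736)))) (b (a (l 16754136) (c (l 16753472) (l 16753296))) (b (a (l 16752600) (c (l 16751504) (l 16749968))) (a (c (l 16751968) (l 16750496)) (l 16748448)))))) (a (c (b (a (l 16754904) (b (l 16754064) (l 16752632))) (a (b (l 16754376) (l 16751256)) (l 16749168))) (b (a (c (l 16753256) (l 16751936)) (c (b (l 16752336) (l 16750856)) (b (l 16750936) (a (l 16750112) (l 16748792))))) (a (a (b (l 16751304) (l 16749664)) (b (a (l 16750640) (l 16750008)) (l 16747976))) (c (l 16747368) (l 16745928))))) (a (c (b (l 16750856) (l 16745880)) (b (c (l 16748984) (a (l 16748328) (l 16746568))) (l 16743264))) (c (l 16745000) (c (l 16743032) (l 16741480)))))) (b (b (c (a (c (l 16746416) (l 16747976)) (l 16739224)) (a (a (a (l 16745992) (l 16744304))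 (l 16741744)) (c (l 16737256) (l 16740952)))) (c (a (c (l 16741520) (l 16740432)) (l 16734216)) (a (a (l 16740224) (l 16736768)) (c (l 16732216) (l 16730664))))) (a (a (c (b (l 16737744) (l 16732752)) (b (l 16735240) (l 16730216))) (c (b (l 16734368) (l 16729328)) (b (l 16731744) (l 16726672)))) (c (b (l 16729168) (l 16724072)) (b (l 16731616) (l 16721240)))))), by decide +kernel⟩

def k24_pm_012 : ∃ t, chk3 f_pm_012 t 39 30 1 = true :=
  ⟨(b (b (b (a (c (a (c (l 16754200) (l 16753048)) (l 16750448)) (a (a (a (l 16751952) (l 16751424)) (l 16750312)) (l 16747600))) (c (l 16745072) (l 16742048))) (a (c (l 16747232) (c (l 16745192) (l 16743560))) (c (l 16740112) (l 16737040)))) (a (c (b (l 16742296) (l 16737304)) (a (l 16743992) (l 16735128))) (c (l 16740440) (a (l 16731400) (l 16727552))))) (b (a (c (a (l 16731544) (l 16727968)) (a (l 16728624) (l 16724928))) (c (l 16732848) (l 16724400))) (a (c (b (l 16722048) (l 16716880)) (b (l 16719016) (l 16713824))) (c (l 16712000) (l 16708728))))),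 by decide +kernel⟩

def k25_pm_012 : ∃ t, chk3 f_pm_012 t 19 31 1 = true :=
  ⟨(b (a (b (a (c (b (l 16731208) (l 16720864)) (b (l 16733824) (l 16718216))) (c (b (l 16718928) (l 16713744)) (b (l 16716072) (l 16710864)))) (a (c (b (l 16715712) (l 16710528)) (b (l 16713048) (l 16707848))) (c (b (l 16708528) (l 16703264)) (l 16713488)))) (b (a (c (l 16716920) (l 16716448)) (c (l 16701488) (l 16698168))) (a (c (l 16708984) (l 16695376)) (c (l 16690848) (l 16687504))))) (a (b (a (c (b (l 16705296) (l 16700032)) (l 16710472)) (c (l 16705800) (l 16692408))) (a (c (l 16697304) (l 16699880)) (c (l 16684584) (l 16681696)))) (a (b (c (l 16687800) (l 16684672)) (c (l 16676976) (l 16673880))) (b (c (l 16680080) (l 16676736)) (l 16678056))))), by decide +kernel⟩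

def k26_pm_012 : ∃ t, chk3 f_pm_012 t 5 6 1 = true :=
  ⟨(a (a (a (b (b (a (b (a (l 3) (b (l 3) (l 197199439703))) (a (b (l 3) (l 190756977911)) (b (l 147807322551) (l 16811808)))) (a (b (b (a (l 199346927079) (l 145659838551)) (l 141364872663)) (b (l 16793264) (l 16793392))) (b (b (l 16798296) (l 16796216)) (l 16796272)))) (b (b (a (a (l 140291124007) (l 16789400)) (l 16808136)) (a (a (l 16786096) (l 16786568)) (l 16776936))) (a (l 16806696) (l 16778984)))) (a (b (b (l 16790752) (l 16796608)) (b (l 16798856) (l 16775128))) (b (b (l 16787992) (l 16794216)) (b (l 16797952) (b (l 16776984) (l 16774896)))))) (a (b (b (a (b (l 16800456) (l 16792064)) (b (l 16803168) (l 16785936))) (b (l 16798096) (l 16776344))) (b (b (l 16785744) (l 16792392)) (b (a (l 16776328) (l 16775880)) (a (l 16777072) (l 16777704))))) (a (b (a (b (l 16811968) (l 16790824)) (b (l 16829584) (l 16790440))) (b (b (l 16763888) (l 16770864)) (b (l 16775776) (l 16778432)))) (b (a (a (b (l 16805768) (l 16769728)) (b (l 16803648)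 (l 16770192))) (b (l 16800144) (l 16771264))) (a (b (b (l 16764168) (l 16771224)) (b (l 16776240) (a (l 16778720) (l 16777264)))) (b (l 16789824) (b (l 16797368) (b (a (l 16796984) (l 16773336)) (l 16771256))))))))) (b (b (b (l 16822176) (a (l 16762496) (l 16764416))) (b (l 16777456) (l 16786600))) (b (b (l 16793936) (a (l 16775456) (l 16783016))) (b (a (l 16779544) (l 16786752)) (a (b (l 16776864) (l 16770944)) (l 16781744)))))) (b (a (b (b (l 16794408) (l 16790576)) (b (l 16788000) (l 16788808))) (b (l 16846592) (b (l 16837144) (l 16830736)))) (b (a (b (l 16792672) (l 16796968)) (b (l 16825296) (l 16823000))) (a (b (a (l 16795344) (l 16805392)) (a (b (l 16794536) (l 16787456)) (l 16802064))) (b (l 16823416) (a (l 16814512) (l 16828560))))))), by decide +kernel⟩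

def k27_pm_012 : ∃ t, chk3 f_pm_012 t 20 14 1 = true :=
  ⟨(a (b (b (a (b (l 16771992) (l 16769808)) (b (l 16772656) (l 16770376))) (a (b (l 16767576) (l 16765264)) (b (l 16768056) (c (l 16766864) (l 16763960))))) (b (a (a (b (l 16762952) (c (l 16761440) (l 16758624))) (b (l 16762880) (c (l 16760488) (b (l 16759024) (l 16756408))))) (a (b (c (l 16763840) (l 16760848)) (c (l 16758096) (l 16754888))) (b (c (l 16762472) (l 16759224)) (l 16751968)))) (a (b (a (b (c (l 16758456) (l 16755432)) (l 16752776)) (a (l 16752256) (l 16750192))) (c (l 16744840) (a (l 16743760) (l 16739656)))) (b (c (l 16746016) (l 16742704)) (c (l 16736216) (l 16732824)))))) (a (b (b (a (l 16772872) (l 16773888)) (b (a (l 16769128) (l 16778760)) (a (c (l 16766336) (l 16762984)) (l 16760184)))) (b (b (c (l 16754768) (l 16751376)) (c (l 16745064) (l 16741672))) (b (c (l 16735344) (l 16731904)) (c (l 16725544) (l 16722032))))) (a (b (b (b (l 16776024) (a (l 16772600) (l 16769536))) (c (l 16758808) (l 16755200))) (b (b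 (l 16742576) (l 16732856)) (b (l 16723136) (l 16713432)))) (a (b (a (b (l 16769936) (l 16750672)) (b (l 16765384) (l 16746216))) (b (b (l 16733512) (l 16723960)) (b (l 16714448) (l 16704992)))) (b (b (b (l 16764160) (l 16754824)) (b (l 16745344) (l 16735880))) (b (b (c (l 16727968) (l 16724744)) (c (l 16718576) (l 16715392))) (b (c (l 16709272) (l 16706080)) (c (l 16700040) (l 16696800))))))))), by decide +kernel⟩

def k28_pm_012 : ∃ t, chk3 f_pm_012 t 21 14 1 = true :=
  ⟨(b (b (a (b (l 16764256) (c (l 16758720) (l 16753744))) (b (l 16771128) (l 16763608))) (a (b (c (l 16749488) (l 16744680)) (l 16726432)) (b (l 16744944) (c (l 16749488) (l 16742352))))) (b (a (b (c (l 16728848) (l 16724488)) (c (l 16718696) (l 16714472))) (b (c (l 16738752) (l 16731840)) (c (l 16726856) (l 16720256)))) (a (b (c (l 16708656) (l 16704504)) (c (l 16698728) (l 16694600))) (b (c (l 16715160) (l 16708808)) (c (l 16703600) (l 16697432)))))), by decide +kernel⟩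

def k29_pm_012 : ∃ t, chk3 f_pm_012 t 20 15 1 = true :=
  ⟨(b (a (b (a (b (c (l 16734904) (l 16742112)) (c (l 16724776) (l 16721416))) (b (c (l 16726224) (l 16722752)) (c (l 16716072) (l 16712520)))) (b (a (c (l 16714488) (l 16711056)) (c (l 16705784) (l 16702160))) (a (c (l 16704056) (l 16700568)) (c (l 16695368) (l 16691688))))) (a (b (b (c (l 16715656) (l 16712048)) (c (l 16705616) (l 16701936))) (b (c (l 16695456) (l 16691704)) (c (l 16685184) (l 16681384)))) (b (a (b (l 16703688) (l 16693840)) (b (a (l 16695520) (c (l 16690872) (l 16687552))) (a (l 16686000) (c (l 16681680) (l 16678272))))) (b (a (l 16689136) (a (l 16686872) (c (l 16693368) (l 16668904)))) (a (l 16684344) (a (l 16677184) (c (l 16663032) (l 16659472)))))))) (a (b (b (a (c (l 16693496) (l 16689968)) (c (l 16684840) (l 16681120))) (a (c (l 16682824) (l 16679272)) (c (l 16674208) (l 16670464)))) (b (a (l 16680792) (l 16672128)) (a (l 16680392) (l 16671800)))) (b (a (b (c (l 16674824) (l 16670976)) (c (l 16664368) (l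 16660496))) (b (a (l 16663744) (a (l 16656928) (c (l 16653584) (l 16649968)))) (a (l 16653552) (a (l 16647080) (l 16663216))))) (a (b (c (l 16653824) (l 16649960)) (l 16662264)) (a (b (l 16643296) (l 16632976)) (a (c (l 16655088) (l 16651304)) (b (l 16653592) (l 16643904)))))))), by decide +kernel⟩

def k30_pm_012 : ∃ t, chk3 f_pm_012 t 21 15 1 = true :=
  ⟨(b (b (b (a (c (l 16688944) (l 16684792)) (c (l 16692184) (l 16686152))) (a (c (l 16679160) (l 16674976)) (c (l 16680912) (l 16674968)))) (a (b (c (l 16669376) (l 16665152)) (c (l 16659624) (l 16655336))) (b (c (l 16669824) (l 16663928)) (c (l 16669256) (l 16652912))))) (b (a (b (c (l 16649752) (l 16645432)) (c (l 16639824) (l 16635488))) (b (c (l 16658248) (l 16641928)) (c (l 16636808) (l 16630992)))) (b (a (c (l 16629840) (l 16625504)) (c (l 16625784) (l 16620016))) (a (l 16638592) (c (l 16614736) (l 16609040)))))), by decide +kernel⟩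

def k31_pm_012 : ∃ t, chk3 f_pm_012 t 11 14 1 = true :=
  ⟨(b (a (b (a (c (l 16779992) (l 16770520)) (l 16774784)) (a (c (l 16762592) (l 16753176)) (c (l 16771872) (l 16760232)))) (b (a (l 16797184) (l 16811240)) (a (c (l 16783248) (l 16769208)) (c (l 16796792) (l 16780232))))) (a (b (b (a (c (l 16748376) (l 16739032)) (l 16751024)) (a (c (l 16737416) (l 16728240)) (c (l 16746144) (l 16734696)))) (a (b (c (l 16725176) (l 16716280)) (c (l 16711792) (l 16703272))) (b (c (l 16734952) (l 16723624)) (c (a (l 16720304) (l 16725440)) (a (l 16709784) (l 16713680)))))) (b (a (c (l 16760896) (b (l 16752824) (l 16741488))) (c (l 16772528) (b (l 16762504) (l 16750256)))) (a (c (b (l 16743368) (l 16731336)) (b (l 16729856) (l 16717960))) (c (b (l 16753496) (l 16740448)) (b (l 16737696) (l 16724848))))))), by decide +kernel⟩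

def k32_pm_012 : ∃ t, chk3 f_pm_012 t 11 30 1 = true :=
  ⟨(a (b (a (b (c (l 16698664) (l 16690440)) (c (l 16685712) (l 16677744))) (b (c (a (l 16705856) (l 16711768)) (a (l 16695776) (l 16700328))) (c (a (l 16691560) (l 16696584)) (a (l 16681856) (l 16685608))))) (b (a (c (a (l 16671904) (l 16674272)) (l 16665184)) (c (a (l 16677480) (l 16681576)) (a (l 16668096) (l 16671016)))) (a (c (a (l 16659736) (l 16661280)) (l 16652768)) (c (a (l 16663624) (l 16666816)) (a (l 16654512) (l 16656608)))))) (b (a (b (c (a (l 16716928) (l 16720936)) (a (l 16704248) (l 16707160))) (c (a (l 16702512) (l 16707704)) (a (l 16690184) (l 16694120)))) (c (b (l 16727152) (a (l 16711712) (l 16715760))) (b (l 16701264) (a (l 16697040) (l 16700008))))) (b (a (c (a (l 16686600) (l 16684688)) (a (l 16674776) (b (l 16683376) (l 16675360)))) (c (a (c (l 16701248) (l 16694208)) (l 16680784)) (a (b (l 16687024) (l 16679848)) (c (l 16690176) (l 16682224))))) (b (a (c (l 16677280) (l 16675648)) (c (a (l 16686208) (l 16691064))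 (a (l 16672056) (l 16675696)))) (a (c (c (l 16672136) (l 16666344)) (l 16667856)) (c (a (l 16677552) (c (l 16687080) (l 16679640))) (a (l 16663688) (c (l 16672040) (l 16664280))))))))), by decide +kernel⟩

def k33_pm_012 : ∃ t, chk3 f_pm_012 t 11 31 1 = true :=
  ⟨(a (b (a (b (c (a (l 16647744) (l 16648488)) (l 16640536)) (c (l 16646248) (l 16628376))) (c (b (a (l 16649992) (l 16652304)) (a (l 16636584) (l 16638048))) (b (a (l 16641120) (l 16642416)) (l 16649024)))) (b (a (c (l 16644552) (l 16616304)) (c (a (l 16623400) (l 16624032)) (l 16614704))) (a (c (l 16611496) (l 16604328)) (c (a (l 16610352) (l 16610280)) (l 16601480))))) (b (a (c (b (a (l 16658088) (c (l 16662480) (l 16656536))) (a (l 16650800) (c (l 16646304) (l 16640552)))) (b (a (l 16644480) (l 16657848)) (a (l 16629688) (l 16652688)))) (b (b (c (a (l 16668856) (c (l 16678656) (l 16671320))) (a (l 16655280) (c (l 16663840) (l 16656224)))) (c (a (l 16660232) (c (l 16669576) (l 16662384))) (a (l 16646936) (c (l 16655064) (l 16647608)))))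 (c (a (b (l 16651704) (l 16653736)) (c (b (l 16660456) (l 16651432)) (b (l 16653408) (l 16644520)))) (a (c (l 16637832) (l 16631272)) (b (c (l 16646248) (l 16638960)) (l 16644440)))))) (a (b (c (a (l 16635928) (c (l 16630448) (l 16624864))) (a (l 16615136) (l 16616336))) (b (c (l 16636096) (l 16604576)) (c (l 16628664) (l 16597296)))) (b (c (a (b (l 16645376) (l 16626608)) (c (b (l 16642504) (l 16633680)) (b (l 16635728) (l 16627016)))) (a (l 16636672) (b (l 16646352) (l 16616888)))) (c (c (a (l 16627808) (b (l 16624944) (l 16616312))) (b (l 16627264) (l 16629464))) (a (l 16623352) (c (l 16628568) (l 16601000)))))))), by decide +kernel⟩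

def k34_pm_012 : ∃ t, chk3 f_pm_012 t 3 2 1 = true :=
  ⟨(a (b (l 2) (b (l 2) (a (a (b (l 2) (l 16914272)) (l 2)) (l 2)))) (l 2)), by decide +kernel⟩

def k35_pm_012 : ∃ t, chk3 f_pm_012 t 6 6 1 = true :=
  ⟨(a (b (b (a (l 16906344) (l 16965360)) (a (l 16893848) (l 16957064))) (b (a (b (l 16880904) (l 16870528)) (l 16923304)) (a (b (l 16861120) (a (l 16844296) (l 16864576))) (b (l 16930304) (l 16877088))))) (b (a (b (l 2) (l 17012744)) (l 2)) (a (b (l 17005896) (l 16972496)) (b (l 17056816) (l 17030472))))), by decide +kernel⟩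

def k36_pm_012 : ∃ t, chk3 f_pm_012 t 12 14 1 = true :=
  ⟨(b (a (b (a (l 16827536) (l 16846184)) (a (l 16782184) (l 16820008))) (b (a (l 16876808) (l 16916672)) (a (l 16843800) (l 16883000)))) (a (b (a (c (l 16786416) (l 16767728)) (c (l 16802992) (l 16781280))) (a (c (l 16737848) (b (l 16747592) (l 16733768))) (c (l 16772992) (b (l 16759672) (l 16744840))))) (b (a (c (l 16847136) (l 16796168)) (l 16825928)) (a (c (l 16784432) (b (l 16772680) (l 16756576))) (c (l 16851048) (l 16777896)))))), by decide +kernel⟩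

def k37_pm_012 : ∃ t, chk3 f_pm_012 t 12 30 1 = true :=
  ⟨(a (b (a (c (b (l 16737392) (l 16701816)) (b (l 16719680) (a (l 16703472) (l 16707448)))) (c (b (l 16749936) (l 16734216)) (b (a (l 16727056) (l 16732624)) (a (l 16711944) (l 16716984))))) (a (a (c (b (l 16705800) (c (l 16695072) (l 16687048))) (b (c (l 16693408) (l 16684912)) (c (l 16668376) (l 16665264)))) (c (b (l 16710384) (c (l 16699368) (l 16690800))) (b (l 16671664) (c (l 16682072) (l 16673176))))) (c (b (a (l 16715528) (l 16721240)) (a (c (l 16704224) (l 16695088)) (c (l 16709656) (l 16699936)))) (b (a (l 16696608) (c (l 16706216) (l 16695968))) (a (c (l 16685792) (l 16676336)) (b (l 16689088) (l 16670520))))))) (b (a (c (b (l 16766392) (l 16745664)) (b (l 16740168) (a (l 16721560) (l 16725648)))) (c (a (l 16770784) (l 16774968)) (b (l 16751008) (l 16732696)))) (a (c (b (a (l 16726272) (l 16730584)) (a (l 16688160) (l 16712576))) (b (a (c (l 16710416) (l 16699608)) (l 16708328)) (a (c (l 16693576) (b (l 16687168) (l 16678816)))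 (c (l 16696312) (l 16685264))))) (c (b (l 16739816) (a (l 16716480) (l 16720856))) (b (a (l 16712104) (l 16716368)) (a (c (l 16699496) (l 16687968)) (l 16676184))))))), by decide +kernel⟩

def k38_pm_012 : ∃ t, chk3 f_pm_012 t 24 62 1 = true :=
  ⟨(a (b (b (c (a (c (l 16683800) (l 16675856)) (c (l 16687760) (l 16679288))) (a (c (l 16667776) (l 16659544)) (l 16663672))) (c (a (c (l 16670488) (l 16665248)) (c (l 16679976) (l 16671560))) (a (c (l 16662496) (l 16651752)) (c (l 16663008) (l 16654320))))) (c (a (c (b (a (l 16665328) (l 16668680)) (l 16657512)) (b (a (l 16657760) (l 16660760)) (l 16649928))) (c (b (a (l 16671216) (l 16673080)) (a (l 16662552) (l 16665080))) (b (a (l 16662992) (l 16664592)) (a (l 16654440) (l 16656656))))) (a (c (b (a (l 16650080) (l 16652728)) (l 16642232)) (b (l 16653848) (l 16634432))) (c (b (l 16655248) (a (l 16646216) (l 16648136))) (b (l 16646656) (a (l 16637888) (l 16639496))))))) (c (b (b (a (l 16666712) (l 16671416)) (a (c (l 16684112) (l 16675152)) (c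 (l 16688800) (l 16679280)))) (a (c (b (l 16676000) (c (l 16670048) (l 16665664))) (b (l 16667112) (c (l 16661256) (l 16656816)))) (c (b (l 16680400) (a (l 16670896) (l 16673080))) (b (l 16670952) (a (l 16661664) (l 16663576)))))) (b (b (a (l 16664096) (c (l 16677824) (l 16667920))) (a (c (l 16666056) (l 16656824)) (c (l 16669616) (l 16659824)))) (a (c (b (l 16658096) (l 16650112)) (b (l 16648968) (l 16641080))) (c (b (l 16661384) (a (l 16652328) (l 16653960))) (b (l 16651696) (a (l 16642888) (l 16644232)))))))), by decide +kernel⟩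

def k39_pm_012 : ∃ t, chk3 f_pm_012 t 48 63 1 = true :=
  ⟨(b (c (a (c (b (c (l 16649896) (l 16646200)) (c (l 16640496) (l 16636872))) (b (l 16640616) (l 16631400))) (a (c (b (l 16652904) (l 16643136)) (b (l 16644952) (l 16635344))) (c (b (c (l 16658312) (l 16654176)) (c (l 16648456) (l 16644400))) (b (c (l 16650024) (l 16645848)) (l 16638288))))) (a (c (b (l 16633088) (l 16624040)) (b (l 16625472) (l 16616600))) (c (b (a (l 16636904) (l 16650024)) (l 16639216)) (b (a (l 16628760) (l 16631048)) (l 16620608))))) (c (a (c (b (l 16639920) (l 16630776)) (b (l 16622288) (l 16613280))) (a (c (b (l 16633472) (l 16623928)) (b (l 16625840) (l 16616440))) (c (b (l 16641728) (l 16637152)) (b (l 16628512) (l 16618856))))) (a (b (l 16632424) (l 16602672)) (c (b (l 16619272) (l 16609920)) (b (l 16611352) (l 16602184)))))), by decide +kernel⟩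

def k40_pm_012 : ∃ t, chk3 f_pm_012 t 49 126 1 = true :=
  ⟨(c (a (c (b (a (c (l 16660904) (l 16656624)) (l 16660608)) (b (a (c (l 16654376) (l 16650128)) (l 16654416)) (a (l 16652664) (c (l 16652376) (l 16648000))))) (b (a (c (l 16652312) (l 16647984)) (l 16651728)) (a (c (l 16645688) (l 16639128)) (c (l 16645672) (l 16641256))))) (c (b (a (l 16662512) (l 16659304)) (a (c (l 16656360) (l 16651840)) (c (b (l 16660464) (l 16656168)) (l 16653664)))) (b (a (l 16653360) (l 16655120)) (a (c (l 16647304) (l 16642744)) (c (l 16648984) (l 16644296)))))) (a (c (b (a (l 16641448) (l 16642752)) (a (l 16641864) (l 16639832))) (b (a (l 16632648) (l 16633680)) (a (l 16624040) (l 16625624)))) (c (b (a (l 16644112) (l 16645600)) (a (l 16635872) (l 16637224))) (b (a (l 16634776) (l 16635992)) (a (l 16626648) (l 16627728)))))), by decide +kernel⟩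

def k41_pm_012 : ∃ t, chk3 f_pm_012 t 49 127 1 = true :=
  ⟨(c (a (a (c (b (c (l 16641848) (l 16637696)) (c (l 16642184) (l 16627632))) (b (l 16641928) (l 16621512))) (c (b (c (b (a (l 16647152) (l 16648608)) (l 16642872)) (b (l 16643456) (l 16638560))) (c (b (l 16637664) (l 16632472)) (l 16641304))) (b (c (b (l 16639096) (l 16634240)) (l 16640104)) (c (l 16626568) (l 16622304))))) (c (b (a (c (b (l 16650032) (a (l 16645256) (l 16646232))) (b (l 16645536) (l 16641240))) (c (b (l 16651872) (l 16647568)) (b (l 16647248) (l 16642960)))) (a (c (b (a (l 16640400) (l 16641856)) (c (l 16642384) (l 16634936))) (b (a (l 16636000) (l 16637368)) (l 16631632))) (c (b (c (l 16644408) (l 16642120)) (a (c (l 16639544) (l 16637280)) (l 16639384))) (b (l 16638680) (a (l 16633880) (l 16634784)))))) (b (a (c (b (l 16641024) (l 16636752)) (l 16639592)) (c (b (l 16642600) (l 16638344)) (l 16635824))) (b (a (c (l 16632152) (l 16627688)) (c (l 16634072) (l 16629464))) (a (l 16635496) (c (l 16634968) (l 16625136)))))))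 (a (c (b (a (l 16623056) (c (l 16627864) (l 16623480))) (c (l 16616664) (l 16612464))) (b (a (l 16614608) (l 16616872)) (l 16606144))) (c (b (a (c (l 16629824) (l 16625280)) (l 16634072)) (a (c (l 16631208) (l 16616256)) (c (l 16633144) (l 16618048)))) (b (a (l 16618440) (l 16619448)) (a (l 16609536) (l 16611096)))))), by decide +kernel⟩

def k42_pm_012 : ∃ t, chk3 f_pm_012 t 25 62 1 = true :=
  ⟨(a (c (b (a (c (l 16675864) (b (l 16691096) (l 16682448))) (c (l 16699632) (l 16678648))) (a (c (b (l 16683704) (c (l 16677352) (l 16672456))) (b (l 16673776) (a (l 16664816) (l 16665376)))) (c (b (l 16685832) (l 16666112)) (b (l 16675504) (c (l 16668936) (l 16663800)))))) (b (a (c (b (l 16680840) (l 16672296)) (b (l 16670432) (l 16662008))) (c (b (l 16682968) (l 16674024)) (b (l 16672120) (l 16663312)))) (a (c (b (l 16663720) (a (l 16654968) (l 16655336))) (b (l 16643064) (a (l 16645008) (l 16645184)))) (c (b (l 16665048) (a (l 16655792) (l 16656344))) (b (l 16654464) (c (l 16648224) (l 16642976)))))))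 (c (b (a (c (l 16707152) (l 16691912)) (c (l 16697720) (l 16695136))) (a (c (b (l 16688360) (l 16678656)) (b (l 16677616) (c (l 16670712) (l 16665376)))) (c (l 14) (b (l 16680144) (l 16670112))))) (b (a (b (l 16658912) (a (l 16670088) (l 16671144))) (c (l 16662632) (b (l 16676744) (l 16667104)))) (a (c (b (l 16666752) (a (l 16656984) (l 16657712))) (b (l 16655760) (a (l 16646248) (l 16646776)))) (c (b (l 16668856) (a (l 16658544) (l 16659472))) (b (l 16657440) (a (l 16647408) (l 16648136)))))))), by decide +kernel⟩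

def k43_pm_012 : ∃ t, chk3 f_pm_012 t 50 126 2 = true :=
  ⟨(a (c (b (a (l 16660608) (l 16666384)) (c (a (b (l 16661680) (l 16657304)) (l 16657240)) (a (l 16654728) (l 16655008)))) (b (a (l 16656192) (l 16656544)) (c (a (l 16649944) (l 16650136)) (a (l 16645136) (l 16645248))))) (a (c (b (l 16667008) (c (l 16655064) (l 16655368))) (b (l 16656984) (c (l 16650408) (l 16645432)))) (c (b (l 16667712) (c (l 14) (l 16650568))) (b (l 16657512) (c (l 16650768) (l 16645704)))))), by decide +kernel⟩

def k44_pm_012 : ∃ t, chk3 f_pm_012 t 50 127 2 = true :=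
  ⟨(a (c (b (c (a (b (l 16652912) (c (l 16649696) (l 16647344))) (b (l 16653120) (c (l 16649816) (l 16647424)))) (a (b (l 16648176) (l 16643808)) (b (l 16648296) (l 16643824)))) (c (a (b (a (l 16644144) (l 16644120)) (a (l 16639768) (a (l 16639720) (l 16639680)))) (a (b (l 16644120) (a (l 16639656) (l 16639632))) (c (l 14) (b (l 16642936) (l 16638408))))) (a (b (c (l 16640608) (l 16638256)) (c (l 16636224) (l 16633880))) (b (c (l 16640544) (l 16638152)) (c (l 16636056) (l 16633680)))))) (b (c (a (b (l 16643424) (l 16639080)) (b (l 16643464) (l 16639016))) (a (l 16636496) (b (l 16638616) (l 16634192)))) (a (c (b (l 16634728) (l 16630368)) (l 16634392)) (c (b (l 16634560) (l 16630104)) (b (l 16629768) (l 16625336)))))) (c (b (c (a (b (l 16653400) (c (l 14) (l 16647576))) (l 14)) (a (b (l 16648496) (c (l 16645136) (l 16642696))) (b (l 16648776) (c (l 16645328) (l 16642848))))) (c (c (l 14) (a (a (b (l 16642960) (l 16638376)) (l 14)) (l 14))) (a (a (b (l 16639336) (l 16634768)) (b (l 16639344)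 (a (l 16634736) (l 16634720)))) (b (a (l 16639376) (l 16639424)) (c (a (l 16635928) (l 14)) (a (l 16633480) (l 16633464))))))) (b (c (a (b (l 16643584) (l 16639024)) (b (l 16643776) (l 16639112))) (a (b (l 16638648) (l 16634120)) (b (l 16638760) (l 16634128)))) (c (a (b (l 16634472) (l 16633184)) (b (c (l 16635688) (l 16633216)) (c (l 16631016) (l 16628552)))) (a (b (l 16629592) (l 16625064)) (b (l 16629496) (l 16624864))))))), by decide +kernel⟩

def k45_pm_012 : ∃ t, chk3 f_pm_012 t 50 63 3 = true :=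
  ⟨(b (a (c (b (a (l 16646440) (l 16646616)) (a (c (l 16640312) (l 16635472)) (c (l 16640336) (l 16635408)))) (b (a (l 16636600) (l 16636592)) (a (l 16628176) (l 16627984)))) (a (c (b (l 16646872) (c (l 16640440) (l 16635424))) (b (l 16636664) (l 16627864))) (c (b (l 16647216) (c (l 16640616) (l 16635512))) (b (l 16636816) (l 16627824))))) (a (c (b (c (a (l 16631728) (l 16631552)) (a (l 16626944) (l 16626688))) (a (c (l 16623128) (l 16618400)) (c (l 16622760) (l 16617952)))) (b (a (l 16619736) (l 16619360)) (a (l 16611296) (l 16610728)))) (a (c (b (c (l 16631448) (l 16626504)) (c (l 16627704) (l 16617576))) (b (l 16619048) (l 16610232))) (c (b (c (l 16631424) (l 16626392)) (b (l 16627288) (l 16622704))) (b (l 16618816) (l 16620288)))))), by decide +kernel⟩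

def k46_pm_012 : ∃ t, chk3 f_pm_012 t 51 63 2 = true :=
  ⟨(b (a (a (c (b (l 16668520) (c (l 14) (l 16651096))) (b (l 16658128) (c (l 16651208) (l 16646056)))) (c (l 14) (b (l 16658832) (c (l 16651736) (l 16646496))))) (c (l 14) (b (a (l 16659632) (l 16660528)) (c (a (l 16652352) (l 14)) (a (l 16647024) (l 16647632)))))) (a (c (a (a (c (l 14) (c (l 14) (b (l 16640152) (b (l 16638240) (l 16633472))))) (l 14)) (l 14)) (b (c (a (b (l 16644056) (l 16639280)) (b (l 16644416) (c (l 16640816) (l 16638240)))) (a (b (l 16638952) (l 16634216)) (b (l 16639224) (l 16634376)))) (c (a (a (b (l 16634488) (l 16629744)) (b (l 16634536) (l 16629736))) (b (a (l 16634600) (l 16634688)) (c (a (l 16631008) (l 14)) (a (l 16628480) (l 16628504))))) (a (b (l 16629472) (l 16629976)) (b (c (l 16630808) (l 16628248)) (c (l 16625944) (l 16623408))))))) (c (l 14) (b (c (a (b (l 16644856) (c (l 14) (l 16638544))) (l 14)) (a (b (l 16639584) (l 16634624)) (b (l 16640024) (c (l 16636280) (l 16633616))))) (c (c (l 14)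 (a (a (b (l 16633504) (l 16628536)) (l 14)) (l 14))) (a (a (b (l 16629624) (l 16624688)) (b (l 16629704) (l 16624712))) (b (a (l 16629808) (l 16629936)) (c (a (l 16626064) (l 14)) (a (l 16623456) (l 16623512)))))))))), by decide +kernel⟩

def k47_pm_012 : ∃ t, chk3 f_pm_012 t 51 63 3 = true :=
  ⟨(b (a (a (c (b (l 16647640) (c (l 16640880) (l 16635688))) (b (l 16637064) (l 16627864))) (c (b (l 16648160) (c (l 16641232) (l 16635952))) (b (l 16637392) (c (l 16630648) (l 16625320))))) (c (b (a (l 16648776) (l 16649480)) (c (a (l 16641672) (l 16642192)) (a (l 16636296) (l 16636728)))) (b (a (l 16637808) (l 16638320)) (c (a (l 16630904) (l 16631248)) (a (l 16625488) (l 16625736)))))) (a (a (c (b (c (b (l 16633832) (l 16629128)) (l 16626368)) (c (b (l 16624424) (l 16619720)) (l 16617032))) (b (l 16623896) (l 16619936))) (c (b (c (b (l 16634024) (l 16629208)) (l 16626416)) (c (b (l 16624400) (l 16619592)) (l 16623424))) (b (c (l 16621192) (l 16615960)) (c (l 16611736) (l 16606592))))) (c (b (c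 (a (b (l 16634296) (l 16629376)) (b (l 16634648) (l 16629616))) (a (b (l 16628984) (l 16624104)) (b (l 16629256) (l 16624264)))) (c (a (b (l 16624448) (l 16619528)) (b (c (l 16625904) (l 16623256)) (c (l 16620856) (l 16618232)))) (a (b (l 16619232) (l 16614352)) (b (l 16619280) (l 16614288))))) (b (c (a (l 16621240) (l 16621368)) (a (l 16615920) (l 16615960))) (a (c (l 16611576) (l 16606344)) (c (l 16616728) (l 16606176))))))), by decide +kernel⟩

def k48_pm_012 : ∃ t, chk3 f_pm_012 t 13 14 1 = true :=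
  ⟨(b (a (b (l 16974632) (l 16923880)) (b (l 17041456) (l 17019344))) (a (b (a (l 16845552) (l 16929296)) (a (l 16763912) (l 16805888))) (b (l 16925888) (a (l 16848472) (l 16973080))))), by decide +kernel⟩

def k49_pm_012 : ∃ t, chk3 f_pm_012 t 13 30 1 = true :=
  ⟨(a (b (a (c (l 16768472) (b (l 16764136) (l 16744064))) (b (l 16773480) (l 16728920))) (c (a (b (l 16730608) (a (l 16728984) (l 16777512))) (b (l 16862816) (c (l 16866880) (l 16723264)))) (a (b (l 16702744) (a (l 16701040) (l 16705432))) (b (l 16730336) (a (l 16710336) (l 16709776)))))) (b (a (b (l 16774152) (l 16751424)) (c (l 16977080) (l 16804432))) (c (a (b (l 16906192) (l 16862792)) (b (l 16947312) (l 16925968))) (a (b (l 16737360) (c (l 16714544) (l 16720208))) (b (a (l 16834672) (l 16858768)) (a (l 16805968) (l 16829328))))))), by decide +kernel⟩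

def k50_pm_012 : ∃ t, chk3 f_pm_012 t 26 62 1 = true :=
  ⟨(b (a (c (a (c (l 16728424) (l 16701560)) (l 16682048)) (a (b (l 16685848) (l 16659944)) (c (l 16690496) (l 16656904)))) (c (a (l 16689352) (c (l 16852568) (l 16789160))) (a (c (l 16696056) (l 16681568)) (c (l 16704408) (l 16685752))))) (a (c (a (c (b (l 16743064) (l 14)) (b (l 16683096) (l 16672584))) (c (l 16686272) (l 14))) (a (c (b (l 16671376) (l 16650568)) (b (l 16659528) (a (l 16648960) (l 16649880)))) (c (b (l 16674336) (l 16663528)) (b (l 16662040) (l 16640968))))) (c (a (b (l 16684832) (c (l 16785976) (l 14))) (c (l 16801736) (l 16670592))) (a (c (b (l 16677744) (l 16666432)) (b (l 16665008) (l 16643448))) (c (l 14) (b (l 16668440) (l 16656864))))))), by decide +kernel⟩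

def k51_pm_012 : ∃ t, chk3 f_pm_012 t 52 63 2 = true :=
  ⟨(a (a (a (c (l 14) (c (l 14) (c (l 14) (b (b (l 16657080) (l 16646784)) (b (l 16636480) (b (l 16628744) (l 16623592))))))) (l 14)) (l 14)) (b (c (b (l 16662496) (l 14)) (l 14)) (l 14))), by decide +kernel⟩

def k52_pm_012 : ∃ t, chk3 f_pm_012 t 52 63 3 = true :=
  ⟨(b (a (c (b (a (l 16650280) (l 16651176)) (c (a (l 16642808) (l 16643520)) (a (l 16637256) (l 16637872)))) (b (a (l 16638928) (l 16639624)) (a (c (l 16631680) (l 16626080)) (c (l 16632200) (l 16626504))))) (c (b (a (l 16652168) (l 16653264)) (c (a (l 16644320) (l 14)) (a (l 16638576) (l 16639384)))) (b (a (l 16640424) (l 16641320)) (a (c (l 16632816) (l 16627032)) (c (l 16633528) (l 16627640)))))) (a (c (b (c (a (b (l 16635088) (l 16629944)) (b (l 16635616) (l 16630352))) (a (b (l 16629608) (l 16624504)) (b (l 16630048) (l 16624832)))) (c (a (a (b (l 16624736) (l 16619616)) (b (l 16624856) (l 16619680))) (b (a (l 16625008) (l 16625176)) (a (l 16619768) (a (l 16619848)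 (l 16619904))))) (a (b (l 16619408) (l 16614304)) (b (l 16619616) (c (l 16615760) (l 16613048)))))) (b (a (b (l 16621344) (l 16621568)) (c (b (l 16624456) (l 16619296)) (l 16616288))) (a (c (b (l 16614008) (l 16608952)) (l 16606088)) (c (b (l 16614136) (l 16608968)) (l 16611320))))) (c (b (c (a (b (l 16636240) (c (l 14) (l 16629448))) (l 14)) (a (b (l 16630576) (l 16625248)) (b (l 16631200) (l 16625744)))) (c (c (l 14) (a (a (b (l 16623984) (l 16618640)) (l 14)) (l 14))) (a (a (b (l 16619832) (l 16614528)) (b (l 16620000) (l 16614640))) (b (a (l 16620192) (l 16620400)) (a (l 16614768) (a (l 16614880) (l 16614960))))))) (b (c (a (b (l 16624896) (l 16619624)) (b (l 16625432) (l 16620032))) (a (l 16616584) (b (l 16619640) (l 16614304)))) (c (a (b (l 16614344) (l 16609064)) (b (l 16614640) (c (l 16610648) (l 16607848)))) (a (b (l 16608760) (l 16603544)) (b (l 16608968) (l 16603640)))))))), by decide +kernel⟩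

def k53_pm_012 : ∃ t, chk3 f_pm_012 t 53 63 1 = true :=
  ⟨(b (c (c (a (b (a (l 16759904) (l 16775304)) (a (l 16656088) (l 16714120))) (b (l 16797536) (a (l 16771664) (l 16786784)))) (a (l 14) (b (l 16662512) (l 14)))) (a (a (c (b (l 16654464) (c (l 14) (l 16640280))) (b (l 16642312) (c (l 16634328) (l 16628352)))) (c (l 14) (b (l 16643416) (c (l 16635232) (l 16629160))))) (c (l 14) (b (a (l 16644632) (l 16645952)) (a (c (l 16636240) (l 16630072)) (c (l 14) (l 16631088))))))) (c (c (c (a (b (a (l 14) (l 16755248)) (l 14)) (b (l 16737144) (a (b (l 16756024) (l 14)) (l 16766992)))) (b (a (l 14) (a (l 14) (l 16748376))) (l 14))) (l 14)) (b (a (c (c (l 14) (a (b (l 16631912) (c (l 14) (l 16624888))) (l 14))) (a (c (b (l 16626056) (l 16620536)) (b (l 16620176) (l 16614720))) (c (b (l 16626776) (l 16621136)) (b (l 16620800) (l 16615232))))) (c (l 14) (a (c (b (l 16627592) (l 16621824)) (b (l 16621528) (l 16615832))) (c (l 14) (b (l 16622352) (l 16616528)))))) (a (c (c (l 14) (c (l 14) (a (a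 (b (l 16619208) (l 16613680)) (l 14)) (l 14)))) (c (a (a (b (l 16614920) (l 16609440)) (b (l 16615136) (l 16609592))) (a (b (l 16615368) (l 16609768)) (b (l 16615632) (a (l 16609912) (l 16610016))))) (a (b (l 16609272) (l 16603824)) (b (l 16609656) (c (l 16605536) (l 16602640)))))) (c (l 14) (a (c (a (c (l 14) (b (l 16614432) (l 16608720))) (l 14)) (b (c (l 16611616) (l 16608648)) (c (l 16605904) (l 16602976)))) (c (l 14) (a (b (l 16610552) (l 16604768)) (b (l 16610864) (a (l 16604952) (l 16605080))))))))))), by decide +kernel⟩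

def k54_pm_012 : ∃ t, chk3 f_pm_012 t 27 62 1 = true :=
  ⟨(a (c (b (a (l 16825152) (l 16869936)) (a (c (l 16849112) (b (l 16791256) (l 16773968))) (c (l 16874000) (l 16809416)))) (b (a (l 16672160) (l 16686144)) (a (b (l 16671768) (a (l 16645032) (l 14))) (c (l 16660552) (l 14))))) (c (b (l 16861224) (a (l 16824120) (l 16888968))) (b (a (l 16690824) (l 16736072)) (a (b (l 16664880) (c (l 16762496) (l 14))) (c (l 16796776) (l 16671928)))))), by decide +kernel⟩

def k55_pm_012 : ∃ t, chk3 f_pm_012 t 27 63 1 = true :=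
  ⟨(c (a (b (c (a (b (l 16825640) (l 16808608)) (l 16844272)) (a (b (a (l 16748184) (l 16762800)) (a (l 16644328) (l 16722504))) (b (l 16783928) (a (l 16758280) (l 16772648))))) (c (a (c (b (l 16809168) (l 16769408)) (b (l 16729640) (a (b (l 16748696) (l 14)) (l 16759232)))) (b (l 16819176) (c (l 16819888) (l 16740080)))) (c (a (b (a (l 14) (l 16741648)) (l 14)) (b (a (l 16756840) (l 16771576)) (a (b (l 16741536) (l 14)) (l 16751648)))) (a (l 14) (b (a (l 14) (l 16735056)) (l 14)))))) (b (a (c (l 16869680) (b (l 16810680) (l 16793408))) (c (l 16893576) (l 16806936))) (c (a (b (l 16846224) (l 16829200)) (l 16863808)) (a (a (b (l 16767880) (c (l 16766576) (b (l 16734528) (l 14)))) (b (l 16781992) (c (l 16781040) (l 16744248)))) (b (l 16802376) (a (l 16776944) (l 16790800))))))) (a (b (a (a (a (c (l 14) (b (l 16647016) (l 16624608))) (l 14)) (l 14)) (c (b (l 16652392) (l 14)) (l 14))) (a (a (a (c (l 14) (c (l 14) (a (b (l 16619960) (b (l 16611112) (l 16605208))) (l 14)))) (l 14)) (l 14))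 (l 14))) (b (c (a (b (a (l 16736936) (l 16750840)) (c (l 16720584) (l 14))) (b (l 16770952) (a (l 16745488) (l 16759160)))) (a (l 14) (b (l 16642672) (l 14)))) (c (c (a (b (a (l 14) (l 16728616)) (l 14)) (b (a (l 16743056) (l 16757064)) (a (b (l 16727672) (l 14)) (l 16737008)))) (b (a (l 14) (a (l 14) (l 16722312))) (l 14))) (l 14))))), by decide +kernel⟩

def k56_pm_012 : ∃ t, chk3 f_pm_012 t 7 6 1 = true :=
  ⟨(b (l 2) (a (b (l 2) (a (l 17096528) (l 2))) (l 2))), by decide +kernel⟩

def k57_pm_012 : ∃ t, chk3 f_pm_012 t 14 14 1 = true :=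
  ⟨(a (b (b (a (l 17082576) (l 17104344)) (a (l 17066864) (l 17093600))) (b (a (l 17040224) (l 17070216)) (a (l 17009960) (l 17042880)))) (b (b (l 2) (l 17126832)) (a (b (l 17100112) (l 17079432)) (l 17122856)))), by decide +kernel⟩

def k58_pm_012 : ∃ t, chk3 f_pm_012 t 28 15 1 = true :=
  ⟨(b (b (a (c (l 17015160) (l 16932456)) (c (l 17049096) (l 16972440))) (a (c (l 16978608) (b (l 16894760) (a (l 16853824) (l 16878448)))) (c (l 17017064) (b (l 16938576) (l 16913104))))) (b (a (c (b (l 16945464) (a (l 16910544) (l 16931592))) (a (b (c (l 16850816) (l 16794744)) (b (l 16798856) (l 16704952))) (b (l 16847752) (b (l 16823016) (l 16732992))))) (b (c (l 16987456) (a (l 16872736) (l 16896424))) (c (l 16964456) (a (c (l 16868776) (l 16811952)) (l 16844848))))) (a (c (b (a (l 16842208) (l 16906128)) (a (c (l 16888192) (b (l 16828152) (l 16810808))) (c (l 16911096) (l 16844376)))) (b (c (a (b (l 16796448) (l 16778936)) (l 16791384)) (a (b (l 16690896) (c (l 16708568) (l 14))) (b (l 16758584)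 (a (l 16733272) (l 16746296))))) (c (a (b (a (l 16753544) (l 16766984)) (a (c (l 16751192) (b (l 16720976) (l 14))) (c (l 16764960) (l 16729936)))) (b (l 16786408) (a (l 16740096) (l 16774264)))) (b (a (a (l 14) (c (l 16716144) (l 14))) (a (c (l 16729880) (l 14)) (c (l 16743224) (l 16710104)))) (a (l 14) (c (a (b (l 16714416) (l 14)) (l 16702048)) (l 14))))))) (c (b (a (l 16927528) (l 16949624)) (a (l 16879224) (c (l 16953504) (l 16890368)))) (b (a (c (l 16794400) (b (l 16784120) (a (l 16758952) (l 16771552)))) (b (l 16840520) (c (l 16852680) (l 16792152)))) (a (c (b (l 16811000) (l 16793344)) (b (a (l 16739864) (l 16752680)) (a (c (l 16736528) (b (l 16708008) (l 14))) (c (l 16749656) (l 16695296))))) (b (c (l 16835312) (a (l 16765424) (l 16779048))) (c (l 16817672) (a (l 16724968) (b (l 16763720) (l 16753720))))))))))), by decide +kernel⟩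

def k59_pm_012 : ∃ t, chk3 f_pm_012 t 29 15 1 = true :=
  ⟨(b (a (b (l 17054896) (b (l 17033352) (l 16954048))) (b (l 17102784) (l 17085608))) (a (b (c (a (l 17016368) (l 17053488)) (a (b (l 16931184) (l 16904336)) (l 16964656))) (c (a (b (l 16984704) (l 16959912)) (l 17019952)) (a (a (b (l 16838752) (b (l 16833552) (c (l 16846144) (l 16762512)))) (b (l 16888712) (l 16794048))) (b (l 16929688) (l 16840104))))) (a (b (l 17047104) (b (l 17024624) (l 16944440))) (b (l 17081248) (l 16975240))))), by decide +kernel⟩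

def k60_pm_012 : ∃ t, chk3 f_pm_012 t 15 7 1 = true :=
  ⟨(b (b (l 2) (a (a (l 17148072) (l 2)) (l 2))) (a (b (a (b (l 17141136) (l 17134504)) (l 17171968)) (a (b (l 17125824) (c (l 17148840) (l 17080792))) (b (l 17174176) (l 17174968)))) (b (a (l 17196944) (l 2)) (b (l 17224880) (l 17259336))))), by decide +kernel⟩

theorem s61_pm_012 : ∃ t, chk3 f_pm_012 t 14 15 1 = true := ex3_a k58_pm_012 k59_pm_012

theorem s62_pm_012 : ∃ t, chk3 f_pm_012 t 14 7 1 = true := ex3_b k57_pm_012 s61_pm_012

theorem s63_pm_012 : ∃ t, chk3 f_pm_012 t 7 7 1 = true := ex3_a s62_pm_012 k60_pm_012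

theorem s64_pm_012 : ∃ t, chk3 f_pm_012 t 7 3 1 = true := ex3_b k56_pm_012 s63_pm_012

theorem s65_pm_012 : ∃ t, chk3 f_pm_012 t 27 31 1 = true := ex3_b k54_pm_012 k55_pm_012

theorem s66_pm_012 : ∃ t, chk3 f_pm_012 t 52 63 1 = true := ex3_c k51_pm_012 k52_pm_012

theorem s67_pm_012 : ∃ t, chk3 f_pm_012 t 26 63 1 = true := ex3_a s66_pm_012 k53_pm_012

theorem s68_pm_012 : ∃ t, chk3 f_pm_012 t 26 31 1 = true := ex3_b k50_pm_012 s67_pm_012

theorem s69_pm_012 : ∃ t, chk3 f_pm_012 t 13 31 1 = true := ex3_a s68_pm_012 s65_pm_012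

theorem s70_pm_012 : ∃ t, chk3 f_pm_012 t 13 15 1 = true := ex3_b k49_pm_012 s69_pm_012

theorem s71_pm_012 : ∃ t, chk3 f_pm_012 t 13 7 1 = true := ex3_b k48_pm_012 s70_pm_012

theorem s72_pm_012 : ∃ t, chk3 f_pm_012 t 51 63 1 = true := ex3_c k46_pm_012 k47_pm_012

theorem s73_pm_012 : ∃ t, chk3 f_pm_012 t 50 63 2 = true := ex3_b k43_pm_012 k44_pm_012

theorem s74_pm_012 : ∃ t, chk3 f_pm_012 t 50 63 1 = true := ex3_c s73_pm_012 k45_pm_012

theorem s75_pm_012 : ∃ t, chk3 f_pm_012 t 25 63 1 = true := ex3_a s74_pm_012 s72_pm_012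

theorem s76_pm_012 : ∃ t, chk3 f_pm_012 t 25 31 1 = true := ex3_b k42_pm_012 s75_pm_012

theorem s77_pm_012 : ∃ t, chk3 f_pm_012 t 49 63 1 = true := ex3_b k40_pm_012 k41_pm_012

theorem s78_pm_012 : ∃ t, chk3 f_pm_012 t 24 63 1 = true := ex3_a k39_pm_012 s77_pm_012

theorem s79_pm_012 : ∃ t, chk3 f_pm_012 t 24 31 1 = true := ex3_b k38_pm_012 s78_pm_012

theorem s80_pm_012 : ∃ t, chk3 f_pm_012 t 12 31 1 = true := ex3_a s79_pm_012 s76_pm_012

theorem s81_pm_012 : ∃ t, chk3 f_pm_012 t 12 15 1 = true := ex3_b k37_pm_012 s80_pm_012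

theorem s82_pm_012 : ∃ t, chk3 f_pm_012 t 12 7 1 = true := ex3_b k36_pm_012 s81_pm_012

theorem s83_pm_012 : ∃ t, chk3 f_pm_012 t 6 7 1 = true := ex3_a s82_pm_012 s71_pm_012

theorem s84_pm_012 : ∃ t, chk3 f_pm_012 t 6 3 1 = true := ex3_b k35_pm_012 s83_pm_012

theorem s85_pm_012 : ∃ t, chk3 f_pm_012 t 3 3 1 = true := ex3_a s84_pm_012 s64_pm_012

theorem s86_pm_012 : ∃ t, chk3 f_pm_012 t 3 1 1 = true := ex3_b k34_pm_012 s85_pm_012

theorem s87_pm_012 : ∃ t, chk3 f_pm_012 t 11 15 1 = true := ex3_b k32_pm_012 k33_pm_012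

theorem s88_pm_012 : ∃ t, chk3 f_pm_012 t 11 7 1 = true := ex3_b k31_pm_012 s87_pm_012

theorem s89_pm_012 : ∃ t, chk3 f_pm_012 t 10 15 1 = true := ex3_a k29_pm_012 k30_pm_012

theorem s90_pm_012 : ∃ t, chk3 f_pm_012 t 10 14 1 = true := ex3_a k27_pm_012 k28_pm_012

theorem s91_pm_012 : ∃ t, chk3 f_pm_012 t 10 7 1 = true := ex3_b s90_pm_012 s89_pm_012

theorem s92_pm_012 : ∃ t, chk3 f_pm_012 t 5 7 1 = true := ex3_a s91_pm_012 s88_pm_012

theorem s93_pm_012 : ∃ t, chk3 f_pm_012 t 5 3 1 = true := ex3_b k26_pm_012 s92_pm_012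

theorem s94_pm_012 : ∃ t, chk3 f_pm_012 t 19 30 1 = true := ex3_a k23_pm_012 k24_pm_012

theorem s95_pm_012 : ∃ t, chk3 f_pm_012 t 19 15 1 = true := ex3_b s94_pm_012 k25_pm_012

theorem s96_pm_012 : ∃ t, chk3 f_pm_012 t 18 31 1 = true := ex3_b k21_pm_012 k22_pm_012

theorem s97_pm_012 : ∃ t, chk3 f_pm_012 t 36 30 1 = true := ex3_c k18_pm_012 k19_pm_012

theorem s98_pm_012 : ∃ t, chk3 f_pm_012 t 18 30 1 = true := ex3_a s97_pm_012 k20_pm_012

theorem s99_pm_012 : ∃ t, chk3 f_pm_012 t 18 15 1 = true := ex3_b s98_pm_012 s96_pm_012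

theorem s100_pm_012 : ∃ t, chk3 f_pm_012 t 9 15 1 = true := ex3_a s99_pm_012 s95_pm_012

theorem s101_pm_012 : ∃ t, chk3 f_pm_012 t 9 14 1 = true := ex3_a k16_pm_012 k17_pm_012

theorem s102_pm_012 : ∃ t, chk3 f_pm_012 t 9 7 1 = true := ex3_b s101_pm_012 s100_pm_012

theorem s103_pm_012 : ∃ t, chk3 f_pm_012 t 35 62 1 = true := ex3_b k13_pm_012 k14_pm_012

theorem s104_pm_012 : ∃ t, chk3 f_pm_012 t 34 62 1 = true := ex3_b k11_pm_012 k12_pm_012

theorem s105_pm_012 : ∃ t, chk3 f_pm_012 t 17 62 1 = true := ex3_a s104_pm_012 s103_pm_012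

theorem s106_pm_012 : ∃ t, chk3 f_pm_012 t 17 31 1 = true := ex3_b s105_pm_012 k15_pm_012

theorem s107_pm_012 : ∃ t, chk3 f_pm_012 t 17 30 1 = true := ex3_a k9_pm_012 k10_pm_012

theorem s108_pm_012 : ∃ t, chk3 f_pm_012 t 17 15 1 = true := ex3_b s107_pm_012 s106_pm_012

theorem s109_pm_012 : ∃ t, chk3 f_pm_012 t 8 15 1 = true := ex3_a k8_pm_012 s108_pm_012

theorem s110_pm_012 : ∃ t, chk3 f_pm_012 t 8 7 1 = true := ex3_b k7_pm_012 s109_pm_012

theorem s111_pm_012 : ∃ t, chk3 f_pm_012 t 4 7 1 = true := ex3_a s110_pm_012 s102_pm_012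

theorem s112_pm_012 : ∃ t, chk3 f_pm_012 t 4 3 1 = true := ex3_b k6_pm_012 s111_pm_012

theorem s113_pm_012 : ∃ t, chk3 f_pm_012 t 2 3 1 = true := ex3_a s112_pm_012 s93_pm_012

theorem s114_pm_012 : ∃ t, chk3 f_pm_012 t 20 5 1 = true := ex3_a k2_pm_012 k3_pm_012

theorem s115_pm_012 : ∃ t, chk3 f_pm_012 t 10 5 1 = true := ex3_a s114_pm_012 k4_pm_012

theorem s116_pm_012 : ∃ t, chk3 f_pm_012 t 10 2 1 = true := ex3_b k1_pm_012 s115_pm_012

theorem s117_pm_012 : ∃ t, chk3 f_pm_012 t 5 2 1 = true := ex3_a s116_pm_012 k5_pm_012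

theorem s118_pm_012 : ∃ t, chk3 f_pm_012 t 2 2 1 = true := ex3_a k0_pm_012 s117_pm_012

theorem s119_pm_012 : ∃ t, chk3 f_pm_012 t 2 1 1 = true := ex3_b s118_pm_012 s113_pm_012

theorem s120_pm_012 : ∃ t, chk3 f_pm_012 t 1 1 1 = true := ex3_a s119_pm_012 s86_pm_012

theorem c_pm_012 : CertN 0 536870912 536870912 536870912 335544320 67108864 3 true true false .pnp 0 1 2
    ndN0q0 ndN0q1 pcN2 cut_pm_012 Ext.none :=
  certN2 (fam := true) (s1 := true) (s2 := false) (a := 0) (b := 1) (c := 2) (cn := .pnp) (n1 := ndN0q0) (n2 := ndN0q1) (pc := pcN2) (cut := cut_pm_012) (xt := Ext.none) (P1 := 0) (W1 := 536870912) (P2 := 536870912) (W2 := 536870912) (P3 := 335544320) (W3 := 67108864) (N0 := 3)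
    rfl (fun _ => rfl) s120_pm_012

end Pool.Agent.Strip051.G.I5_16_3_8.Tab.C.NA00

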