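import Pool.Agent.Strip051.G.I5_16_3_8.Tab

/-! # Certificates N1 (generated) -/

set_option linter.all false
set_option maxRecDepth 100000

namespace Pool.Agent.Strip051.G.I5_16_3_8.Tab.C.NA00

open Pool.Agent.Strip051.PB Pool.Agent.Strip051.PB.T
open Pool.Agent.Strip051.G.I5_16_3_8.Tab

noncomputable def cut_pm_022 : Cut := Cut.of [[⟨0, 0, 0, 67108864⟩, ⟨1, 1, 0, 67108864⟩, ⟨2, 1, 0, 67108864⟩], [⟨0, 0, 1, 33554432⟩, ⟨1, 1, 0, 33554432⟩, ⟨2, 1, 1, 33554432⟩]]

noncomputable def f_pm_022 : ℕ → ℕ → ℕ → ℕ → Bool := onCell 1073741824 536870912 0 536870912 335544320 67108864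
    (rowN 3 2 true true false .pp 0 2 2 (qsf 0 536870912 0 536870912 2) ndN0q0 ndN0q2 pcN2 cut_pm_022 Ext.none)

def k0_pm_022 : ∃ t, chk3 f_pm_022 t 4 2 1 = true :=
  ⟨(b (l 1) (a (l 1) (a (l 1) (b (l 1) (a (l 1) (b (l 1) (l 16531456))))))), by decide +kernel⟩

def k1_pm_022 : ∃ t, chk3 f_pm_022 t 8 3 1 = true :=
  ⟨(b (l 1) (b (b (b (l 1) (a (l 1) (a (l 1) (a (l 1) (b (a (l 1) (l 16668976)) (a (l 6) (l 16671088))))))) (a (l 1) (a (l 6) (a (l 6) (a (l 6) (b (l 16674336) (l 16678688))))))) (a (l 6) (a (l 6) (a (l 6) (a (l 6) (b (b (l 16683072) (l 16687464)) (b (l 16718368) (b (l 16709184) (l 16717024)))))))))), by decide +kernel⟩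

def k2_pm_022 : ∃ t, chk3 f_pm_022 t 9 6 1 = true :=
  ⟨(b (a (l 1) (b (a (l 16561144) (a (l 16553936) (l 16548944))) (a (a (l 16607080) (l 16591560)) (l 16594248)))) (a (b (a (l 1) (b (a (l 1) (l 16609600)) (a (l 16627824) (b (l 16619352) (l 16625968))))) (a (a (l 1) (a (b (l 1) (b (l 16653936) (l 16655480))) (b (b (l 1) (l 16648400)) (c (l 16655184) (l 16649320))))) (b (a (b (c (l 16640688) (l 16634880)) (c (l 16647512) (l 16641400))) (c (l 16638768) (l 16632992))) (a (c (l 16651536) (l 16645720)) (c (l 16646624) (l 16640904)))))) (b (a (b (l 16601872) (a (l 16617400) (l 16611984))) (b (l 16591040) (l 16603592))) (a (b (a (l 16630568) (l 16625000)) (a (l 16638840) (l 16633664))) (b (l 16616376) (a (l 16628320) (l 16622784))))))), by decide +kernel⟩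

def k3_pm_022 : ∃ t, chk3 f_pm_022 t 9 7 1 = true :=
  ⟨(b (a (b (a (b (a (b (a (l 1) (l 16659656)) (a (l 16664152) (l 16661416))) (c (l 16659032) (l 16653944))) (a (b (l 16664656) (l 16666544)) (l 16659696))) (b (a (l 16651176) (l 16645744)) (a (l 16653744) (l 16647768)))) (a (b (a (l 16679936) (l 16662936)) (a (l 16694320) (l 16666224))) (b (a (l 16656408) (l 16649864)) (a (l 16659104) (l 16651992))))) (b (a (b (a (l 16640256) (l 16634704)) (l 16659720)) (b (l 16626248) (l 16626536))) (a (b (l 16661016) (l 16662320)) (b (l 16626848) (l 16627128))))) (a (b (a (b (a (l 16698240) (l 16690504)) (a (l 16691664) (l 16693776))) (b (b (l 16678328) (l 16679520)) (l 16681304))) (b (a (b (l 16704688) (c (l 16713208) (l 16712144))) (c (l 16699128) (l 16703096))) (b (a (c (l 16721344) (l 16719944)) (l 16705472)) (b (a (c (l 16706472) (l 16704816)) (l 16711568)) (a (a (l 16713408) (l 16705952)) (a (l 16698464) (l 16690936))))))) (b (a (b (l 16663576) (l 16664720)) (b (l 16648296) (l 16648336))) (b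 (a (l 16688208) (l 16672456)) (a (b (l 16690112) (c (l 16699624) (l 16697064))) (a (l 16687920) (l 16674752))))))), by decide +kernel⟩

def k4_pm_022 : ∃ t, chk3 f_pm_022 t 5 2 1 = true :=
  ⟨(b (a (a (a (l 1) (b (l 16476696) (l 16447312))) (b (l 16484680) (l 16465176))) (b (a (l 16451232) (l 16468888)) (a (b (l 16458896) (l 16454312)) (b (l 16497000) (l 16471232))))) (a (b (a (a (l 16522416) (b (l 16464760) (l 16478776))) (l 16510144)) (a (a (b (l 16503992) (l 16521880)) (l 16545200)) (b (l 16478536) (l 16536560)))) (b (a (l 16474272) (l 16446264)) (a (b (l 16453976) (l 16468392)) (l 16480256))))), by decide +kernel⟩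

def k5_pm_022 : ∃ t, chk3 f_pm_022 t 5 3 1 = true :=
  ⟨(b (a (b (a (b (a (l 16541176) (l 16530144)) (a (l 16562272) (l 16550528))) (b (l 16554040) (l 16594336))) (a (b (a (b (l 16579552) (l 16591792)) (l 16594352)) (a (b (l 16604256) (l 16634936)) (a (l 16641736) (a (l 16595008) (a (l 16592504) (l 16632504)))))) (b (a (l 16560152) (l 16545984)) (a (l 16625128) (l 16610544))))) (b (a (b (l 16505392) (a (l 16488952) (l 16494208))) (b (l 16477600) (l 16489216))) (b (a (l 16585752) (l 16529344)) (a (b (l 16560008) (l 16591720)) (a (l 16538400) (l 16518480)))))) (a (a (b (a (b (b (l 16614648) (l 16614160)) (b (l 16613664) (l 16634072))) (b (a (l 16605352) (a (l 16600864) (c (l 16640888) (l 16658776)))) (a (l 16624480) (a (l 16598968) (c (l 16639512) (l 16637544)))))) (a (a (b (l 16636696) (b (l 16649968) (l 16666616))) (b (l 16629160) (b (l 16641552) (l 16658104)))) (b (a (l 16622112) (a (l 16617472) (c (l 16634264) (l 16636152)))) (a (b (l 16632480) (l 16648792)) (a (b (l 16603832) (l 16640784))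 (b (l 16628568) (c (l 16645816) (l 16642400)))))))) (a (b (b (l 16589408) (l 16628568)) (b (c (l 16604184) (l 16582872)) (b (l 16610152) (l 16625752)))) (b (b (l 16573920) (l 16609672)) (b (l 16591928) (b (l 16602720) (l 16629608)))))) (b (a (a (b (l 16578528) (l 16589664)) (b (l 16582080) (l 16547416))) (b (b (l 16557824) (l 16549080)) (l 16550904))) (b (a (a (l 16592160) (l 16586680)) (b (l 16571728) (c (l 16574736) (l 16565968)))) (a (b (c (l 16597840) (l 16591224)) (a (c (l 16596560) (l 16589872)) (c (l 16615080) (l 16585936)))) (b (c (a (l 16573968) (l 16574888)) (l 16606248)) (b (c (a (l 16588840) (l 16590872)) (l 16600016)) (a (c (l 16598952) (l 16588888)) (c (a (l 16600840) (l 16624112)) (l 16610864)))))))))), by decide +kernel⟩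

def k6_pm_022 : ∃ t, chk3 f_pm_022 t 6 2 1 = true :=
  ⟨(a (a (b (b (l 16489856) (l 16581760)) (b (l 16504504) (l 16534088))) (b (b (l 16515568) (b (l 16524880) (l 16528368))) (b (l 16508360) (b (l 16491064) (l 16481120))))) (b (b (a (l 16545872) (l 16580072)) (a (l 16598008) (l 16594912))) (a (b (l 16540704) (l 16547760)) (b (l 16606584) (l 16558552))))), by decide +kernel⟩

def k7_pm_022 : ∃ t, chk3 f_pm_022 t 12 6 1 = true :=
  ⟨(b (a (a (l 16480512) (l 16506272)) (b (l 16492856) (l 16504312))) (a (b (l 16505584) (a (l 16496848) (l 16473232))) (b (l 16505024) (c (l 16489960) (l 16479792))))), by decide +kernel⟩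

def k8_pm_022 : ∃ t, chk3 f_pm_022 t 12 14 1 = true :=
  ⟨(a (b (a (l 16500600) (l 16508912)) (a (l 16539448) (l 16550360))) (b (a (l 16512104) (a (l 16497824) (l 16494112))) (a (b (l 16504584) (l 16528608)) (b (l 16498440) (l 16525048))))), by decide +kernel⟩

def k9_pm_022 : ∃ t, chk3 f_pm_022 t 12 30 1 = true :=
  ⟨(b (a (a (l 16528824) (l 16552304)) (a (l 16553280) (c (l 16538976) (l 16523944)))) (a (a (l 16571208) (c (l 16561312) (l 16547872))) (a (c (l 16586464) (l 16550216)) (c (l 16597464) (l 16570376))))), by decide +kernel⟩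

def k10_pm_022 : ∃ t, chk3 f_pm_022 t 24 31 1 = true :=
  ⟨(b (a (c (l 16599592) (l 16566112)) (c (a (l 16583800) (l 16609392)) (a (l 16569600) (l 16572976)))) (a (c (b (l 16617144) (b (l 16626144) (a (l 16619768) (c (l 16617264) (l 16609792))))) (b (l 16582688) (a (l 16592696) (l 16616560)))) (c (b (a (l 16602568) (c (l 16612240) (l 16603912))) (b (a (l 16612224) (c (l 16622576) (l 16613928))) (a (c (a (l 16621344) (l 16634880)) (l 16614696)) (b (c (a (l 16625984) (l 16629464)) (l 16629392)) (c (a (c (l 16631632) (l 16627280)) (c (a (l 16634384) (l 16640992)) (a (l 16629888) (l 16631176)))) (a (l 16620736) (c (l 16625928) (l 16621384)))))))) (b (a (l 16587256) (l 16591416)) (a (c (l 16624376) (l 16595320)) (b (l 16621904) (c (a (l 16610352) (l 16623440)) (l 16613184)))))))), by decide +kernel⟩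

def k11_pm_022 : ∃ t, chk3 f_pm_022 t 25 62 1 = true :=
  ⟨(a (c (a (l 16613008) (b (l 16586728) (l 16599816))) (b (l 16569304) (l 16610472))) (c (b (l 16606600) (a (l 16598872) (l 16597624))) (b (l 16567856) (l 16600648)))), by decide +kernel⟩

def k12_pm_022 : ∃ t, chk3 f_pm_022 t 25 126 1 = true :=
  ⟨(a (c (a (c (l 16637424) (l 16607552)) (c (l 16616688) (l 16607456))) (a (l 16615184) (l 16593616))) (c (a (c (l 16615872) (l 16606384)) (c (l 16615304) (l 16605552))) (a (l 16592136) (l 16611872)))), by decide +kernel⟩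

def k13_pm_022 : ∃ t, chk3 f_pm_022 t 25 127 1 = true :=
  ⟨(a (c (b (a (c (a (l 16626288) (l 16626192)) (l 16616976)) (c (l 16636184) (l 16616232))) (a (c (b (c (l 16633024) (l 16628376)) (c (a (a (l 16636144) (l 16636024)) (c (b (l 16636312) (l 16640424)) (l 16639944))) (a (l 16631432) (c (l 16632344) (l 16629976))))) (a (a (l 16633656) (l 16633432)) (c (l 16630232) (l 16620280)))) (b (c (c (l 16637880) (l 16627848)) (c (l 16623048) (l 16618248))) (c (c (a (c (l 14) (b (l 16633792) (l 16637928))) (l 14)) (a (c (l 16632152) (l 16629752)) (c (b (l 16631272) (l 16632808)) (l 16629600)))) (c (a (l 16626152) (l 16631184)) (a (l 16621344) (l 16621056))))))) (a (b (c (l 16607792) (l 16598584)) (c (a (l 16613760) (l 16613192)) (l 16604056))) (c (b (l 16606744) (c (a (l 16615096) (l 16614704)) (l 16615280))) (a (l 16600336) (l 16610184))))) (c (b (c (a (c (l 14) (l 16622856)) (l 14)) (a (l 16615544) (l 16615128))) (b (c (a (c (l 14) (l 16627576)) (l 14)) (a (c (l 16622632) (l 16617688)) (c (l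 16622504) (l 16617400)))) (a (c (c (l 14) (a (c (l 14) (b (l 16628736) (l 16630296))) (l 14))) (c (a (c (l 16627040) (l 16624560)) (a (l 16625744) (l 16630968))) (a (l 16620840) (l 16625936)))) (c (l 14) (c (a (c (l 14) (b (l 16623656) (l 16625264))) (l 14)) (a (c (l 16621904) (l 16619344)) (a (l 16620624) (l 16625888)))))))) (b (a (c (l 16605768) (l 16595968)) (c (l 16605064) (l 16594976))) (a (c (c (a (l 16614376) (l 16614128)) (a (l 16609424) (l 16609096))) (c (l 16604240) (l 16599232))) (a (c (c (b (l 16612384) (l 16615504)) (l 16608840)) (l 16601160)) (c (c (b (l 16612240) (l 16615432)) (l 16608656)) (l 16611352))))))), by decide +kernel⟩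

def k14_pm_022 : ∃ t, chk3 f_pm_022 t 13 6 1 = true :=
  ⟨(b (a (b (l 16482000) (l 16487864)) (b (l 16528880) (l 16523632))) (a (b (l 16493304) (c (l 16484192) (l 16473520))) (b (l 16514856) (a (l 16467768) (l 16568552))))), by decide +kernel⟩

def k15_pm_022 : ∃ t, chk3 f_pm_022 t 13 14 1 = true :=
  ⟨(a (b (a (b (l 16449448) (l 16465600)) (b (l 16447240) (l 16480712))) (a (c (l 16535968) (l 16522480)) (b (l 16488184) (l 16526128)))) (b (b (a (l 16439312) (l 16537704)) (a (l 16464896) (l 16633424))) (a (b (l 16485552) (c (l 16602560) (l 16478936))) (c (b (l 16647744) (l 16668848)) (l 16501200))))), by decide +kernel⟩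

def k16_pm_022 : ∃ t, chk3 f_pm_022 t 13 30 1 = true :=
  ⟨(a (b (a (c (l 16536160) (l 16520280)) (c (l 16553296) (l 16513816))) (a (c (l 16583688) (l 16545288)) (c (a (l 16562944) (l 16601672)) (l 16561536)))) (b (a (c (l 16627464) (l 16507552)) (c (l 16692664) (l 16521928))) (a (c (a (l 16637968) (l 16672008)) (l 16557584)) (c (a (l 16703952) (l 16733952)) (a (l 16536256) (l 16570984)))))), by decide +kernel⟩

def k17_pm_022 : ∃ t, chk3 f_pm_022 t 26 31 1 = true :=
  ⟨(b (a (c (b (l 16603632) (a (l 16596608) (l 16595816))) (b (l 16564040) (l 16597680))) (c (b (l 16596088) (a (l 14) (l 16641992))) (a (l 16589360) (l 16588328)))) (a (c (c (l 14) (a (b (l 16604984) (c (l 14) (b (l 16612408) (a (b (l 16617392) (c (l 14) (b (l 16618560) (l 16620216)))) (l 14))))) (b (l 16604680) (l 14)))) (b (a (l 16610904) (c (l 16594392) (l 16584080))) (b (a (c (l 16604640) (l 16594264)) (c (l 16604512) (l 16593840))) (b (c (a (c (l 16612160) (l 16606896)) (c (l 16612328) (l 16606912))) (a (l 16598976) (l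 16598760))) (a (a (c (c (c (l 16616752) (l 16614112)) (l 16610152)) (l 16602200)) (c (c (a (l 16615488) (l 16620792)) (l 16610152)) (l 16609952))) (c (c (a (c (l 14) (b (l 16613464) (l 16615168))) (l 14)) (a (c (l 16611592) (l 16608872)) (a (l 16610344) (l 16610448)))) (c (a (l 16604784) (l 16604864)) (a (l 16599320) (l 16599320))))))))) (b (c (c (a (l 14) (b (l 16697600) (l 16706048))) (l 14)) (a (c (l 16594104) (l 16583528)) (c (l 16594112) (l 16583272)))) (c (a (l 14) (a (l 14) (c (c (l 16748016) (l 14)) (l 14)))) (b (a (c (l 16615168) (l 16593720)) (c (l 14) (l 16593920))) (b (a (c (c (l 14) (l 16607240)) (c (l 16601664) (l 16596064))) (c (l 14) (c (l 16602168) (l 16596424)))) (a (c (c (l 14) (a (c (l 14) (b (l 16608360) (l 16610112))) (l 14))) (c (a (c (l 16606432) (l 16603624)) (a (l 16605208) (l 16605352))) (a (l 16599408) (l 16599576)))) (c (l 14) (c (a (a (l 16610760) (l 14)) (l 14)) (a (c (l 16601280) (l 16598384)) (a (l 16600080) (l 16600272)))))))))))), by decide +kernel⟩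

def k18_pm_022 : ∃ t, chk3 f_pm_022 t 27 31 1 = true :=
  ⟨(b (a (c (a (b (l 16660960) (l 16635264)) (b (l 16694424) (l 16668312))) (b (l 16558792) (a (l 16573944) (l 16573776)))) (c (a (b (l 16725840) (l 16720320)) (c (l 16801712) (l 16723816))) (b (l 16569480) (a (l 14) (l 16614912))))) (c (a (a (c (b (l 16714320) (b (l 16705848) (c (l 16776288) (a (l 14) (l 16744392))))) (l 14)) (b (c (l 16766704) (b (l 16682264) (l 16691112))) (a (c (l 16775464) (l 14)) (c (l 16790456) (c (l 16732216) (l 14)))))) (b (a (c (l 16796184) (l 16697472)) (c (l 16823856) (l 16748296))) (c (a (l 16812088) (l 16839368)) (a (a (c (l 16747584) (l 14)) (a (l 16718832) (l 16747272))) (a (l 16758264) (l 16772528)))))) (c (c (a (l 14) (a (l 14) (a (l 14) (b (l 16698824) (l 16717120))))) (l 14)) (a (a (b (l 16583320) (c (l 14) (b (l 16591552) (a (b (l 16596912) (a (l 16605728) (l 14))) (l 14))))) (b (l 16583680) (l 14))) (l 14))))), by decide +kernel⟩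

def k19_pm_022 : ∃ t, chk3 f_pm_022 t 7 2 1 = true :=
  ⟨(b (a (b (a (l 16691192) (l 16781824)) (a (l 16698984) (l 16799152))) (b (a (l 16839080) (l 16872184)) (a (l 16864312) (l 16904496)))) (a (a (b (l 16704536) (b (l 16691472) (l 16684104))) (b (b (l 16817128) (l 16820392)) (b (l 16819488) (l 16819608)))) (b (a (b (l 16888840) (l 16905952)) (b (l 16933528) (l 16956616))) (a (b (l 16922512) (l 16940840)) (l 17025600))))), by decide +kernel⟩

def k20_pm_022 : ∃ t, chk3 f_pm_022 t 7 6 1 = true :=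
  ⟨(a (a (b (b (l 16676880) (l 16668832)) (b (a (l 16627728) (l 16688032)) (a (l 16615992) (l 16675968)))) (b (b (l 16820288) (l 16758528)) (b (a (l 16770128) (l 16872880)) (a (b (l 16766296) (l 16763664)) (l 16880560))))) (b (a (b (l 16961008) (l 16982696)) (l 17037032)) (a (b (a (l 16964344) (l 17043544)) (a (l 16983328) (l 17072312))) (b (l 17138848) (l 17118696))))), by decide +kernel⟩

def k21_pm_022 : ∃ t, chk3 f_pm_022 t 14 14 1 = true :=
  ⟨(a (b (b (a (l 16605640) (l 16665712)) (a (b (l 16601040) (l 16607248)) (b (l 16660504) (l 16664216)))) (a (b (l 16622192) (c (l 16727200) (l 16561184))) (b (l 16636752) (c (l 16778656) (l 16621368))))) (a (b (b (l 16719000) (a (b (l 16723736) (l 16726504)) (l 16794824))) (a (b (l 16740576) (l 16740608)) (b (l 16809840) (l 16829688)))) (b (b (l 16887120) (l 16850768)) (b (l 16906216) (l 16881280))))), by decide +kernel⟩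

def k22_pm_022 : ∃ t, chk3 f_pm_022 t 14 15 1 = true :=
  ⟨(a (b (a (b (c (l 16750112) (l 16588704)) (c (a (l 16762128) (l 16788600)) (a (l 16603672) (l 16634464)))) (b (c (l 16800808) (a (l 16633744) (l 16661616))) (c (a (l 16813464) (l 16836840)) (a (l 16663464) (l 16690800))))) (b (a (c (a (c (l 16828184) (l 16752448)) (l 16816280)) (a (b (l 16628864) (l 16625648)) (b (l 16659120) (l 16655512)))) (c (a (l 16840600) (l 16863464)) (a (b (l 16687624) (l 16683656)) (b (l 16714496) (l 16710192))))) (a (a (c (b (l 16792200) (c (l 16864984) (l 16793120))) (c (b (l 16681368) (a (c (l 16731728) (l 14)) (a (l 16695472) (l 16731416)))) (l 14))) (c (b (l 16838568) (l 16833176)) (a (c (b (l 16723816) (l 16720904)) (l 14)) (b (c (l 16737608) (l 16665560)) (c (l 16755464) (b (l 16680080) (c (l 16707544) (l 14)))))))) (c (a (c (l 16904328) (l 16835552)) (l 16892272)) (b (a (c (l 16757544) (l 16665984)) (a (l 16742072) (l 16754776))) (c (a (l 16775104) (l 16799952)) (a (a (c (l 16716592) (l 14)) (b (l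 16708088) (l 16696800))) (b (l 16728056) (a (l 16731072) (l 16743984)))))))))) (b (a (b (a (c (l 16855480) (l 16713608)) (l 16830200)) (a (c (l 16878664) (l 16699440)) (c (l 16936056) (l 16811936)))) (a (b (l 16912424) (l 16932808)) (a (l 16964568) (l 16991464)))) (a (c (b (a (l 16903768) (l 16958656)) (a (b (l 16923800) (l 16938528)) (l 16984944))) (b (a (b (l 16763744) (l 16737432)) (b (l 16831904) (l 16846136))) (a (b (a (l 16778488) (l 16812336)) (c (l 16844808) (a (b (l 16758760) (l 16768280)) (l 16799176)))) (b (l 16861976) (l 16879440))))) (a (c (l 17022104) (b (l 16902416) (l 16932336))) (b (l 17009664) (l 17033648)))))), by decide +kernel⟩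

def k23_pm_022 : ∃ t, chk3 f_pm_022 t 15 7 1 = true :=
  ⟨(a (b (b (b (l 16985640) (a (l 17009560) (l 17110456))) (a (c (l 17071040) (l 16982208)) (l 17125528))) (a (a (b (l 17030352) (l 17068432)) (b (l 17078792) (l 17110264))) (b (l 17143768) (l 17164432)))) (b (b (a (l 17188192) (l 17260896)) (a (l 17211120) (l 17282080))) (b (l 17078184) (a (l 17222000) (l 17264864))))), by decide +kernel⟩

theorem s24_pm_022 : ∃ t, chk3 f_pm_022 t 14 7 1 = true := ex3_b k21_pm_022 k22_pm_022

theorem s25_pm_022 : ∃ t, chk3 f_pm_022 t 7 7 1 = true := ex3_a s24_pm_022 k23_pm_022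

theorem s26_pm_022 : ∃ t, chk3 f_pm_022 t 7 3 1 = true := ex3_b k20_pm_022 s25_pm_022

theorem s27_pm_022 : ∃ t, chk3 f_pm_022 t 7 1 1 = true := ex3_b k19_pm_022 s26_pm_022

theorem s28_pm_022 : ∃ t, chk3 f_pm_022 t 13 31 1 = true := ex3_a k17_pm_022 k18_pm_022

theorem s29_pm_022 : ∃ t, chk3 f_pm_022 t 13 15 1 = true := ex3_b k16_pm_022 s28_pm_022

theorem s30_pm_022 : ∃ t, chk3 f_pm_022 t 13 7 1 = true := ex3_b k15_pm_022 s29_pm_022

theorem s31_pm_022 : ∃ t, chk3 f_pm_022 t 13 3 1 = true := ex3_b k14_pm_022 s30_pm_022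

theorem s32_pm_022 : ∃ t, chk3 f_pm_022 t 25 63 1 = true := ex3_b k12_pm_022 k13_pm_022

theorem s33_pm_022 : ∃ t, chk3 f_pm_022 t 25 31 1 = true := ex3_b k11_pm_022 s32_pm_022

theorem s34_pm_022 : ∃ t, chk3 f_pm_022 t 12 31 1 = true := ex3_a k10_pm_022 s33_pm_022

theorem s35_pm_022 : ∃ t, chk3 f_pm_022 t 12 15 1 = true := ex3_b k9_pm_022 s34_pm_022

theorem s36_pm_022 : ∃ t, chk3 f_pm_022 t 12 7 1 = true := ex3_b k8_pm_022 s35_pm_022

theorem s37_pm_022 : ∃ t, chk3 f_pm_022 t 12 3 1 = true := ex3_b k7_pm_022 s36_pm_022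

theorem s38_pm_022 : ∃ t, chk3 f_pm_022 t 6 3 1 = true := ex3_a s37_pm_022 s31_pm_022

theorem s39_pm_022 : ∃ t, chk3 f_pm_022 t 6 1 1 = true := ex3_b k6_pm_022 s38_pm_022

theorem s40_pm_022 : ∃ t, chk3 f_pm_022 t 3 1 1 = true := ex3_a s39_pm_022 s27_pm_022

theorem s41_pm_022 : ∃ t, chk3 f_pm_022 t 5 1 1 = true := ex3_b k4_pm_022 k5_pm_022

theorem s42_pm_022 : ∃ t, chk3 f_pm_022 t 9 3 1 = true := ex3_b k2_pm_022 k3_pm_022

theorem s43_pm_022 : ∃ t, chk3 f_pm_022 t 4 3 1 = true := ex3_a k1_pm_022 s42_pm_022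

theorem s44_pm_022 : ∃ t, chk3 f_pm_022 t 4 1 1 = true := ex3_b k0_pm_022 s43_pm_022

theorem s45_pm_022 : ∃ t, chk3 f_pm_022 t 2 1 1 = true := ex3_a s44_pm_022 s41_pm_022

theorem s46_pm_022 : ∃ t, chk3 f_pm_022 t 1 1 1 = true := ex3_a s45_pm_022 s40_pm_022

theorem c_pm_022 : CertN 0 536870912 0 536870912 335544320 67108864 3 true true false .pp 0 2 2
    ndN0q0 ndN0q2 pcN2 cut_pm_022 Ext.none :=
  certN2 (fam := true) (s1 := true) (s2 := false) (a := 0) (b := 2) (c := 2) (cn := .pp) (n1 := ndN0q0) (n2 := ndN0q2) (pc := pcN2) (cut := cut_pm_022) (xt := Ext.none) (P1 := 0) (W1 := 536870912) (P2 := 0) (W2 := 536870912) (P3 := 335544320) (W3 := 67108864) (N0 := 3)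
    rfl (fun _ => rfl) s46_pm_022

noncomputable def f_pm_023 : ℕ → ℕ → ℕ → ℕ → Bool := onCell 0 536870912 0 536870912 335544320 67108864
    (rowN 3 0 true true false .up 0 2 3 (qsf 0 536870912 0 536870912 3) ndN0q0 ndN0q2 pcN3 Cut.none Ext.none)

def k0_pm_023 : ∃ t, chk3 f_pm_023 t 1 1 1 = true :=
  ⟨(a (l 1) (b (a (a (l 1) (a (b (b (l 1) (l 1)) (l 1)) (b (b (l 16860992) (b (l 16870256) (l 16872872))) (b (b (l 78416886855) (b (l 84322479879) (l 73585053495))) (a (l 1) (l 72511187015)))))) (b (a (a (b (l 16871536) (l 16887344)) (b (l 16874008) (l 16895048))) (a (b (l 16868424) (l 16894520)) (b (l 16858088) (l 16888648)))) (a (b (a (b (l 16893584) (a (l 16887488) (l 16899168))) (l 16909200)) (a (a (l 16865776) (l 16884792)) (b (l 16910616) (l 16904952)))) (b (a (l 16916216) (l 16917040)) (a (l 16948480) (l 16980768)))))) (a (b (l 1) (l 1)) (b (a (b (a (b (l 16854840) (l 74121592759)) (b (l 16899504) (l 16893952))) (a (b (l 80563985863) (l 1)) (b (l 16887240) (l 92912158407)))) (b (a (l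 16932320) (l 16956248)) (a (l 16937032) (l 16975288)))) (a (b (a (l 1) (b (l 107407920327) (l 1))) (l 1)) (b (a (b (l 16939392) (a (l 105260264231) (l 16950696))) (b (l 16990064) (l 16995456))) (a (b (l 127272225943) (l 1)) (b (a (l 16886504) (l 17003024)) (a (l 134788499735) (c (l 17045752) (l 102039234935))))))))))), by decide +kernel⟩

theorem c_pm_023 : CertN 0 536870912 0 536870912 335544320 67108864 3 true true false .up 0 2 3
    ndN0q0 ndN0q2 pcN3 Cut.none Ext.none :=
  certN0 (fam := true) (s1 := true) (s2 := false) (a := 0) (b := 2) (c := 3) (cn := .up) (n1 := ndN0q0) (n2 := ndN0q2) (pc := pcN3) (cut := Cut.none) (xt := Ext.none) (P1 := 0) (W1 := 536870912) (P2 := 0) (W2 := 536870912) (P3 := 335544320) (W3 := 67108864) (N0 := 3)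
    rfl k0_pm_023

noncomputable def cut_pm_101 : Cut := Cut.of [[⟨0, 1, 0, 67108864⟩, ⟨1, 0, 0, 67108864⟩, ⟨2, 1, 0, 67108864⟩]]

noncomputable def f_pm_101 : ℕ → ℕ → ℕ → ℕ → Bool := onCell 536870912 536870912 536870912 536870912 335544320 67108864
    (rowN 3 1 true true false .npn 1 0 1 (qsf 536870912 536870912 0 536870912 1) ndN0q1 ndN0q0 pcN1 cut_pm_101 Ext.none)

def k0_pm_101 : ∃ t, chk3 f_pm_101 t 1 1 1 = true :=
  ⟨(b (l 3) (a (l 3) (b (l 3) (a (l 3) (b (l 3) (a (l 3) (b (l 3) (a (l 3) (l 6))))))))), by decide +kernel⟩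

theorem c_pm_101 : CertN 536870912 536870912 0 536870912 335544320 67108864 3 true true false .npn 1 0 1
    ndN0q1 ndN0q0 pcN1 cut_pm_101 Ext.none :=
  certN1 (fam := true) (s1 := true) (s2 := false) (a := 1) (b := 0) (c := 1) (cn := .npn) (n1 := ndN0q1) (n2 := ndN0q0) (pc := pcN1) (cut := cut_pm_101) (xt := Ext.none) (P1 := 536870912) (W1 := 536870912) (P2 := 0) (W2 := 536870912) (P3 := 335544320) (W3 := 67108864) (N0 := 3)
    rfl (fun _ => rfl) k0_pm_101

noncomputable def cut_pm_102 : Cut := Cut.of [[⟨0, 1, 0, 67108864⟩, ⟨1, 0, 0, 67108864⟩, ⟨2, 1, 0, 67108864⟩], [⟨0, 1, 0, 33554432⟩, ⟨1, 0, 1, 33554432⟩, ⟨2, 1, 1, 33554432⟩]]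

noncomputable def f_pm_102 : ℕ → ℕ → ℕ → ℕ → Bool := onCell 536870912 536870912 1073741824 536870912 335544320 67108864
    (rowN 3 1 true true false .npp 1 0 2 (qsf 536870912 536870912 0 536870912 2) ndN0q1 ndN0q0 pcN2 cut_pm_102 Ext.none)

def k0_pm_102 : ∃ t, chk3 f_pm_102 t 2 4 1 = true :=
  ⟨(a (l 3) (l 3)), by decide +kernel⟩

def k1_pm_102 : ∃ t, chk3 f_pm_102 t 4 10 1 = true :=
  ⟨(b (b (l 3) (l 2)) (l 2)), by decide +kernel⟩

def k2_pm_102 : ∃ t, chk3 f_pm_102 t 5 40 1 = true :=
  ⟨(a (l 3) (a (l 3) (b (l 3) (a (b (l 3) (b (l 3) (a (b (l 3) (c (l 170892792855) (a (l 3) (l 174113998263)))) (b (a (l 3) (c (a (l 161765984855) (l 148881077511)) (c (a (l 164987200167) (l 151028554887)) (c (a (b (l 3) (b (l 167671549543) (l 148344196375))) (l 152102291831)) (a (b (l 3) (a (l 174113997207) (c (b (l 185925157831) (l 160692224823)) (b (a (a (l 3) (a (l 3) (l 199346929047))) (l 156397255863)) (b (a (a (l 172503382679) (l 141364869687)) (l 16801272)) (l 16801256)))))) (b (l 217600540087)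 (l 149954804439))))))) (a (c (l 166060951735) (c (l 168745296199) (a (l 171966515351) (b (l 170892773191) (l 16802360))))) (c (l 153712918455) (a (a (b (c (l 16805752) (l 125258742695)) (l 16803736)) (l 16803736)) (l 16803288)))))))) (b (a (l 3) (b (l 3) (a (l 210621223463) (l 152639160967)))) (b (c (a (a (l 207400009543) (l 149417946711)) (l 16804584)) (a (a (b (l 3) (a (l 215989931463) (l 153712903943))) (l 152639160167)) (l 146733581079))) (a (a (c (l 143512368343) (b (c (l 16804120) (l 148344191991)) (l 16802120))) (l 16803632)) (l 16801104)))))))), by decide +kernel⟩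

def k3_pm_102 : ∃ t, chk3 f_pm_102 t 5 41 1 = true :=
  ⟨(b (a (a (l 3) (b (l 3) (a (l 3) (b (l 3) (a (l 173040271959) (l 170355912807)))))) (a (b (a (l 3) (b (a (l 3) (b (l 3) (c (l 168745308615) (l 173040261975)))) (a (b (l 172503399239) (l 126332494903)) (c (l 117205701607) (l 123111267831))))) (b (a (a (l 172503400055) (l 168745300887)) (a (l 119353174375) (l 16805792))) (a (a (l 16807808) (l 16806608)) (l 16804968)))) (a (b (b (a (a (c (l 166597823319) (l 170355906119)) (b (c (l 121500663271) (l 125795619767)) (l 16806816))) (a (c (l 16809704) (l 16803280)) (l 16805744))) (a (l 16806000) (l 16804816))) (c (l 16806648) (l 16822144))) (b (a (b (l 16803720) (l 16803272)) (l 16800896)) (b (l 16823656) (l 16804400)))))) (b (b (a (a (l 3) (a (l 168745314887) (l 109689511895))) (a (a (l 16805544) (l 16803888)) (a (l 16803656) (l 16807912)))) (a (a (a (l 2) (c (l 161766005991) (l 167671573207))) (a (a (l 16808240) (l 16807312)) (l 16805880))) (a (a (l 16804176) (l 16803272)) (c (l 16830304)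 (l 16847728))))) (a (a (a (l 2) (b (b (l 16807928) (l 16806816)) (l 16805064))) (a (b (b (l 16806256) (l 16805216)) (l 16803536)) (b (b (l 16804600) (l 16803680)) (l 16802168)))) (b (b (a (c (l 16826312) (l 16821408)) (l 16811336)) (a (a (l 16802576) (l 16802888)) (l 16831808))) (a (l 16801616) (l 16808432)))))), by decide +kernel⟩

def k4_pm_102 : ∃ t, chk3 f_pm_102 t 5 21 1 = true :=
  ⟨(a (b (b (a (a (l 2) (l 16799376)) (c (l 16841792) (l 16858608))) (a (l 2) (l 16794040))) (a (l 2) (l 16782088))) (a (b (b (l 16822848) (l 16792408)) (l 16802488)) (b (a (l 16812920) (l 16783712)) (l 16777528)))), by decide +kernel⟩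

def k5_pm_102 : ∃ t, chk3 f_pm_102 t 2 11 1 = true :=
  ⟨(a (l 2) (a (b (b (a (l 2) (l 16795616)) (l 2)) (l 2)) (b (a (b (l 16794344) (l 16820128)) (b (l 16789960) (l 16814224))) (a (l 16860264) (l 16855880))))), by decide +kernel⟩

def k6_pm_102 : ∃ t, chk3 f_pm_102 t 2 3 1 = true :=
  ⟨(a (l 2) (b (a (l 2) (b (b (a (l 2) (l 16914272)) (l 2)) (l 2))) (l 2))), by decide +kernel⟩

def k7_pm_102 : ∃ t, chk3 f_pm_102 t 6 4 1 = true :=
  ⟨(b (l 3) (a (b (l 3) (b (l 3) (a (l 3) (b (a (l 3) (a (l 3) (l 288467474535))) (a (b (l 3) (a (l 205789361607) (l 147270437895))) (b (a (l 198273157607) (l 16802784)) (l 56002411927))))))) (b (a (l 3) (b (l 3) (b (l 3) (a (l 3) (b (l 3) (a (l 3) (l 68887276887))))))) (b (a (b (l 3) (a (l 3) (b (l 174650853303) (a (l 102710155287) (l 16779400))))) (b (a (b (l 190220101831) (a (l 170355861703) (l 16789400))) (b (a (l 16790008) (l 16779320)) (l 16789688))) (a (a (l 19495149943) (l 16779768)) (c (l 16789016) (l 16787792))))) (a (b (a (a (a (l 195051928039) (l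 105931394631)) (l 72108520679)) (b (l 16791080) (l 16801032))) (a (l 16794016) (l 16799184))) (b (a (c (l 16800824) (l 16799472)) (a (l 16777072) (l 16775416))) (a (l 16799568) (l 16796224)))))))), by decide +kernel⟩

def k8_pm_102 : ∃ t, chk3 f_pm_102 t 14 8 1 = true :=
  ⟨(b (l 3) (a (l 3) (b (l 3) (a (l 3) (b (a (l 3) (b (l 3) (a (l 3) (b (l 187535726791) (a (l 135996120535) (l 16780256)))))) (a (b (a (l 3) (b (l 3) (l 160155313831))) (a (b (l 3) (l 59760458679)) (b (l 41506844743) (l 16777096)))) (b (a (b (a (l 180019532279) (l 60297325751)) (l 16781448)) (l 16781784)) (a (l 16781336) (l 16779752))))))))), by decide +kernel⟩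

def k9_pm_102 : ∃ t, chk3 f_pm_102 t 15 16 1 = true :=
  ⟨(a (b (l 3) (a (l 3) (b (l 3) (a (l 3) (b (l 3) (a (l 3) (b (a (l 3) (a (l 3) (l 6))) (b (a (a (l 3) (l 175724562759)) (a (a (l 66739770839) (l 16779864)) (l 16779456))) (a (a (l 155323468855) (l 32916902807)) (l 16779072)))))))))) (a (b (l 6) (b (l 6) (a (b (l 6) (a (a (a (b (l 6) (l 16778536)) (l 6)) (l 6)) (l 6))) (l 6)))) (l 6))), by decide +kernel⟩

def k10_pm_102 : ∃ t, chk3 f_pm_102 t 30 34 1 = true :=
  ⟨(a (b (l 3) (a (l 3) (b (a (l 3) (b (l 3) (a (b (l 3) (l 149417893191)) (b (l 60834194295) (l 16779840))))) (b (a (a (l 3) (b (l 3) (l 62444806983))) (c (l 11978938087) (l 16780616))) (a (a (a (l 132774894455) (l 45801807783)) (l 16779648)) (l 16779560)))))) (b (a (b (a (l 3) (b (l 3) (a (l 3) (b (l 3) (l 173577079863))))) (a (b (l 3) (a (l 3) (b (l 186461982167) (c (l 55465483383) (l 54928613047))))) (b (b (a (l 3) (a (l 83382771335) (l 16779896))) (a (a (l 3) (l 69960997687)) (l 16779544))) (a (c (l 16779664) (l 16779544))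 (l 16778592))))) (b (b (a (a (l 3) (c (b (l 160692177399) (a (l 61907932791) (l 16777128))) (b (l 164450273703) (l 36675000183)))) (c (a (l 16779248) (l 16778152)) (a (l 16779136) (l 16777968)))) (a (a (b (a (l 181630142951) (l 50096772951)) (l 22179484935)) (l 16779008)) (a (l 16778536) (a (l 16777024) (l 16776440))))) (b (a (c (l 16778680) (l 16778160)) (c (c (l 16773600) (l 16773456)) (c (l 16773304) (l 16773128)))) (a (c (l 16777104) (l 16776824)) (c (l 16773752) (l 16771880)))))) (a (b (b (a (a (b (l 146733535895) (l 35601258967)) (l 16779400)) (c (l 16777984) (l 16777736))) (a (l 16779992) (a (l 16779760) (l 16773464)))) (a (b (l 16778776) (l 16778888)) (c (c (l 16772472) (l 16772272)) (c (l 16772040) (l 16771792))))) (b (b (a (c (l 16773248) (l 16772888)) (c (l 16771040) (l 16770560))) (a (c (l 16772040) (l 16771592)) (c (l 16769824) (l 16769256)))) (b (a (c (l 16770840) (l 16770312)) (c (l 16768616) (l 16767968))) (c (a (l 16769664) (l 16767440)) (a (l 16769048) (l 16766704)))))))),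 by decide +kernel⟩

def k11_pm_102 : ∃ t, chk3 f_pm_102 t 30 35 1 = true :=
  ⟨(a (b (a (b (a (b (l 3) (a (l 3) (b (l 174650821783) (l 16781640)))) (b (a (l 158544699895) (l 40969970663)) (l 16780896))) (b (a (c (l 31306294263) (l 30769423799)) (l 16781128)) (c (l 16781088) (l 16780728)))) (a (c (b (l 16781152) (l 16773728)) (b (l 16780856) (l 16773264))) (c (b (l 16779304) (l 16771864)) (b (l 16778896) (l 16771288))))) (a (a (b (l 16780152) (l 16778080)) (b (l 16778400) (l 16776312))) (a (b (a (l 16771792) (l 16770848)) (l 16774456)) (c (b (l 16769744) (l 16767696)) (b (l 16768992) (l 16766776)))))) (c (b (a (a (b (l 16777360) (l 16769904)) (b (l 16772696) (l 16767840))) (a (b (c (l 16768088) (l 16767768)) (c (l 16765880) (l 16765488))) (b (c (l 16765872) (l 16765496)) (c (l 16763648) (l 16763208))))) (a (a (b (l 16767760) (l 16765704)) (b (l 16765688) (l 16763608))) (a (b (c (l 16763744) (l 16763280)) (c (l 16761688) (l 16761152))) (a (b (l 16761832) (l 16759728)) (b (l 16760672) (l 16758560))))))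 (a (b (a (b (l 16771600) (l 16769216)) (b (l 16769448) (l 16767048))) (a (b (l 16766912) (l 16764680)) (b (l 16764728) (l 16762480)))) (b (a (b (c (l 16767392) (l 16766976)) (c (l 16765032) (l 16764520))) (b (c (l 16765072) (l 16764584)) (c (l 16762696) (l 16762112)))) (a (b (c (l 16762744) (l 16762136)) (c (l 16760528) (l 16759824))) (a (b (l 16760672) (l 16758400)) (b (l 16759456) (l 16757184)))))))), by decide +kernel⟩

def k12_pm_102 : ∃ t, chk3 f_pm_102 t 124 34 1 = true :=
  ⟨(b (a (b (b (a (c (l 16774384) (l 16774144)) (c (l 16773208) (l 16772904))) (c (c (l 16773240) (l 16772424)) (c (l 16772248) (l 16772048)))) (c (c (b (l 16771320) (l 16770080)) (a (l 16771080) (l 16769888))) (c (a (l 16770856) (l 16769632)) (a (l 16770600) (l 16769344))))) (a (a (b (b (l 6) (l 16773432)) (b (l 16769496) (l 16768192))) (b (l 6) (b (l 16768872) (l 16767568)))) (b (l 6) (a (b (l 16768240) (l 16766936)) (b (l 6) (l 16766304)))))) (b (b (a (c (c (l 16768856) (l 16768592)) (l 16768120)) (c (c (l 16766464)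 (l 16766144)) (c (l 16765784) (l 16765368)))) (a (c (l 16767504) (l 16766816)) (c (c (l 16765248) (l 16764896)) (c (l 16764496) (l 16764032))))) (b (a (c (l 16766296) (l 16765528)) (c (c (l 16764056) (l 16763672)) (c (l 16763224) (l 16762712)))) (c (a (l 16765104) (c (l 16762880) (l 16762456))) (a (l 16764256) (c (l 16761968) (l 16761416))))))), by decide +kernel⟩

def k13_pm_102 : ∃ t, chk3 f_pm_102 t 125 34 1 = true :=
  ⟨(a (b (a (a (b (l 6) (c (l 16766624) (l 16765944))) (l 6)) (l 6)) (c (b (c (a (b (l 16764600) (l 16763384)) (b (l 16763328) (l 16762104))) (a (b (l 16764248) (l 16762992)) (b (l 16762944) (l 16761688)))) (b (a (l 16761976) (c (l 16760848) (l 16760400))) (a (l 16760784) (a (l 16759768) (b (l 16759368) (l 16758624)))))) (b (c (a (b (l 16763832) (l 16762544)) (b (l 16762504) (l 16761208))) (a (b (l 16763368) (l 16762024)) (b (l 16761992) (l 16760656)))) (b (a (l 16760992) (a (l 16759976) (a (l 16759464) (l 16759088)))) (a (l 16759712) (c (a (l 16758960) (l 16759480)) (a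 (l 16758328) (c (l 16757688) (l 16757336))))))))) (b (l 6) (c (b (b (l 6) (a (a (a (l 16761088) (l 6)) (l 6)) (l 6))) (a (a (b (b (l 16759912) (l 16759160)) (l 16757904)) (c (l 16757848) (l 16757360))) (c (l 16756168) (l 16755672)))) (b (b (l 6) (a (a (a (l 16760080) (l 6)) (l 6)) (l 6))) (a (b (a (a (b (l 16759064) (l 16758328)) (l 16758200)) (l 16757344)) (l 16758808)) (c (l 16755104) (l 16754456))))))), by decide +kernel⟩

def k14_pm_102 : ∃ t, chk3 f_pm_102 t 124 35 1 = true :=
  ⟨(b (a (a (c (b (l 16763944) (l 16761680)) (b (l 16763000) (l 16760568))) (c (b (l 16762752) (l 16760480)) (b (l 16761744) (c (l 16759632) (l 16758968))))) (b (c (c (a (l 16761752) (l 16760520)) (a (l 16761296) (l 16760032))) (a (c (l 16760760) (l 16760152)) (b (l 16759784) (l 16758544)))) (c (a (c (l 16759512) (l 16758984)) (a (b (l 16758888) (l 16757704)) (b (l 16758200) (a (l 16757176) (l 16756688))))) (a (c (l 16758368) (l 16756352)) (c (b (l 16757608) (a (l 16756760) (l 16755960))) (b (c (l 16757088) (l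 16756704)) (a (l 16756008) (c (l 16755392) (l 16754984))))))))) (a (a (c (b (l 16759488) (c (l 16757672) (l 16757056))) (b (c (l 16758568) (l 16757840)) (c (l 16756336) (l 16755512)))) (c (b (c (l 16758560) (l 16757984)) (a (b (l 16756992) (l 16755864)) (b (l 16756296) (l 16755032)))) (b (c (l 16757320) (l 16756560)) (c (b (l 16755552) (a (l 16754768) (l 16753912))) (a (b (l 16755120) (l 16753896)) (b (l 16754400) (l 16753032))))))) (c (a (b (a (b (l 16757904) (l 16756752)) (b (l 16757224) (a (l 16756216) (l 16755696)))) (b (c (l 16755264) (l 16757240)) (l 16753288))) (b (a (b (a (l 16756688) (l 16756184)) (l 16754824)) (l 16754496)) (l 16751792))) (a (a (b (b (l 16756568) (b (l 16755696) (l 16755056))) (b (b (l 16754392) (l 16753576)) (l 16752312))) (b (c (b (l 16756240) (l 16754920)) (b (l 16755456) (l 16756712))) (l 16754616))) (b (a (b (c (l 16755432) (l 16757256)) (l 16753376)) (c (l 16753464) (l 16752648))) (l 16753528)))))), by decide +kernel⟩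

def k15_pm_102 : ∃ t, chk3 f_pm_102 t 125 35 1 = true :=
  ⟨(b (a (c (b (b (b (a (l 16759896) (c (l 16761208) (l 16760696))) (a (l 16759256) (l 16760168))) (a (a (l 16758712) (a (l 16758176) (l 16757704))) (l 16756280))) (c (a (b (c (l 16759936) (l 16759672)) (l 16755528)) (l 16754080)) (a (a (b (l 16757144) (l 16755520)) (l 16755208)) (l 16753496)))) (b (b (a (c (l 16758720) (c (l 16758240) (l 16757888))) (a (a (b (l 16757888) (l 16757160)) (l 16757032)) (l 16756168))) (a (c (a (l 16757832) (l 16757040)) (a (l 16757144) (c (l 16756520) (l 16756136)))) (l 16755024))) (c (a (b (a (l 16756496) (l 16755384)) (l 16754272)) (l 16752824)) (a (b (a (c (l 16755952) (l 16755560)) (l 16754648)) (l 16753496)) (l 16752064))))) (c (a (b (c (l 16755104) (l 16754568)) (l 16751512)) (b (l 16752576) (l 16749208))) (a (b (c (l 16753944) (l 16753240)) (l 16750144)) (b (l 16751312) (l 16747824))))) (c (a (a (b (l 16755400) (l 16749472)) (b (l 16750472) (l 16747136))) (b (l 16752232) (l 16743608))) (a (a (b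 (a (l 16751912) (l 16750760)) (l 16747912)) (b (l 16749016) (l 16745560))) (b (l 16750744) (l 16742008))))), by decide +kernel⟩

def k16_pm_102 : ∃ t, chk3 f_pm_102 t 63 17 1 = true :=
  ⟨(b (a (a (a (b (l 6) (b (l 6) (c (l 16758920) (l 16752512)))) (l 6)) (l 6)) (l 6)) (a (b (a (c (b (c (l 16754656) (l 16748848)) (l 16750960)) (b (c (l 16748200) (l 16747480)) (l 16749568))) (c (b (l 16744504) (l 16741024)) (b (l 16743184) (l 16739600)))) (a (c (b (l 16742288) (l 16738840)) (b (l 16740776) (l 16737216))) (c (b (l 16737528) (l 16734024)) (l 16739424)))) (a (b (b (l 6) (l 16740816)) (c (l 16730920) (l 16729320))) (b (l 6) (c (l 16726024) (l 16724416)))))), by decide +kernel⟩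

def k17_pm_102 : ∃ t, chk3 f_pm_102 t 14 18 1 = true :=
  ⟨(a (b (a (l 3) (b (l 3) (a (b (l 3) (l 178945801143)) (b (a (l 3) (l 142975450167)) (a (l 60297334583) (l 16788560)))))) (a (b (a (l 3) (b (l 188072602551) (a (l 90898980199) (l 16789288)))) (a (b (l 65666051687) (l 16778936)) (l 16789088))) (b (a (b (a (l 81235302295) (l 16789016)) (l 16777904)) (a (l 16787560) (l 16786504))) (a (l 16786640) (l 16784536))))) (b (a (b (a (b (l 3) (a (l 3) (b (l 173040211239) (l 16783192)))) (b (a (b (l 3) (l 148344147847)) (b (l 113984418487) (l 16783112))) (a (l 21642622247) (l 16787120)))) (b (a (a (l 45264945175) (l 16777448)) (l 16783464)) (a (l 16786976) (l 16784464)))) (b (a (b (c (l 16781856) (l 16781400)) (c (l 16774880) (l 16774240))) (c (a (l 16778768) (l 16777192)) (a (l 16778080) (l 16776408)))) (b (a (l 16783296) (c (l 16770160) (l 16769160))) (a (l 16781624) (c (l 16768512) (l 16767352)))))) (a (a (b (c (l 16785224) (l 16784288)) (c (l 16772264) (l 16770976))) (b (c (l 16772208) (l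 16781600)) (c (l 16769616) (l 16768184)))) (b (b (a (l 16769552) (c (l 16766952) (l 16765624))) (a (l 16768040) (c (l 16765480) (l 16763984)))) (b (a (l 16766616) (c (l 16764080) (l 16762424))) (a (l 16765272) (c (l 16762768) (l 16760944)))))))), by decide +kernel⟩

def k18_pm_102 : ∃ t, chk3 f_pm_102 t 14 19 1 = true :=
  ⟨(b (a (a (b (a (l 16787992) (l 16786304)) (c (l 16785784) (l 16784416))) (a (b (l 16773904) (l 16771632)) (b (l 16771704) (l 16769416)))) (a (b (a (c (l 16769960) (l 16768368)) (c (l 16767240) (l 16765504))) (a (l 16772144) (c (l 16765032) (l 16763040)))) (a (b (b (l 16763984) (l 16762752)) (c (l 16762016) (l 16759856))) (b (c (a (l 16761752) (l 16760016)) (a (l 16759744) (l 16757928))) (c (a (l 16759560) (l 16757840)) (a (l 16757264) (l 16755448))))))) (a (a (b (a (l 16773576) (l 16771616)) (a (l 16772328) (l 16770264))) (a (b (l 16769568) (l 16768120)) (b (l 16767344) (l 16765880)))) (a (a (b (c (l 16765832) (l 16763784)) (c (l 16764504) (l 16762216))) (b (c (l 16763184)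 (l 16760944)) (c (l 16761984) (l 16759448)))) (b (a (c (l 16760256) (b (l 16758288) (l 16757400))) (c (a (l 16757776) (b (l 16756360) (c (l 16755464) (l 16754288)))) (a (b (l 16755720) (l 16754744)) (b (l 16753736) (a (l 16753056) (l 16751304)))))) (a (c (a (l 16759824) (b (l 16758528) (l 16757312))) (a (l 16757096) (b (l 16755768) (c (l 16755192) (l 16753472))))) (c (a (b (l 16756120) (l 16753096)) (l 16749984)) (a (b (a (l 16754168) (l 16752536)) (l 16750088)) (l 16752248)))))))), by decide +kernel⟩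

def k19_pm_102 : ∃ t, chk3 f_pm_102 t 30 36 2 = true :=
  ⟨(a (b (b (a (l 16775616) (a (l 16767648) (l 16765728))) (a (l 16768528) (a (l 16765776) (l 16763840)))) (a (b (l 16766768) (l 16765080)) (a (b (l 16763984) (l 16762280)) (b (l 16762032) (l 16760304))))) (b (a (a (b (l 16763720) (l 16761808)) (b (l 16761608) (l 16759688))) (a (b (c (l 16759704) (l 16759096)) (c (l 16757800) (l 16757128))) (a (b (l 16757704) (c (l 16756056) (l 16755352))) (b (l 16756528) (c (b (l 16755256) (l 16754104)) (b (l 16754552) (l 16755976))))))) (a (a (b (l 16759984) (l 16758240)) (b (l 16757848) (l 16756088))) (a (a (b (l 16756184) (c (l 16754640) (l 16753848))) (b (c (l 16755312) (l 16754568)) (b (a (l 16753896) (l 16753088)) (l 16752112)))) (b (a (c (b (l 16754528) (l 16753320)) (b (l 16753776) (l 16752528))) (l 16751368)) (c (l 16749720) (l 16748888))))))), by decide +kernel⟩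

def k20_pm_102 : ∃ t, chk3 f_pm_102 t 30 36 3 = true :=
  ⟨(a (b (b (a (a (l 16770432) (l 16768600)) (a (l 16766664) (l 16764640))) (a (l 16767520) (a (l 16764624) (l 16762584)))) (a (b (l 16765592) (l 16763736)) (a (b (l 16762664) (l 16760792)) (b (l 16760608) (l 16758720))))) (a (b (a (b (l 16762528) (l 16760456)) (b (l 16760312) (l 16758232))) (a (b (l 16758464) (l 16756552)) (b (c (l 16756672) (l 16755744)) (c (l 16754792) (l 16753768))))) (b (a (a (b (l 16758592) (l 16756496)) (b (l 16757416) (l 16755312))) (a (b (l 16756216) (c (l 16754528) (l 16753584))) (b (c (l 16755416) (l 16754528)) (c (b (a (l 16754160) (l 16753416)) (a (l 16752984) (l 16751944))) (b (a (l 16753216) (l 16752456)) (a (l 16751992) (l 16750944))))))) (a (a (b (l 16754480) (b (l 16753024) (c (l 16752480) (l 16751384)))) (b (c (l 16753696) (b (l 16753280) (l 16752192))) (a (b (l 16752032) (l 16750744)) (a (b (l 16751464) (l 16749832)) (l 16750064))))) (b (a (c (b (a (l 16753320) (l 16752560)) (l 16751600)) (b (a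 (l 16752312) (l 16751536)) (a (l 16751088) (l 16749936)))) (c (l 16750048) (l 16749000))) (c (l 16753160) (a (l 16748008) (l 16745616)))))))), by decide +kernel⟩

def k21_pm_102 : ∃ t, chk3 f_pm_102 t 30 37 1 = true :=
  ⟨(a (b (a (a (b (l 16763688) (l 16762104)) (b (l 16761824) (l 16760224))) (c (a (b (l 16760648) (l 16759096)) (b (l 16758656) (l 16757088))) (a (b (l 16758992) (l 16757288)) (b (l 16756904) (l 16755184))))) (a (c (a (l 16760744) (l 16758872)) (a (l 16758872) (b (l 16757696) (l 16756176)))) (c (a (c (l 16757336) (l 16756472)) (b (l 16755608) (c (l 16754416) (l 16753488)))) (a (b (l 16755664) (l 16754128)) (b (l 16753544) (a (l 16752528) (a (l 16751648) (b (l 16751544) (l 16750560))))))))) (a (b (c (a (b (l 16756576) (l 16754992)) (a (b (l 16754960) (c (l 16753488) (l 16755232))) (b (c (l 16754032) (l 16754512)) (c (l 16751704) (l 16750800))))) (a (b (l 16754728) (c (l 16753544) (l 16752392))) (a (b (l 16753032) (b (l 16751608) (a (l 16751008) (l 16750104)))) (a (b (l 16752104)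 (c (l 16750320) (l 16749104))) (b (c (l 16751936) (b (l 16751440) (l 16750304))) (l 16748504)))))) (c (a (a (b (l 16753920) (c (l 16752408) (l 16751432))) (b (c (l 16752960) (l 16752032)) (l 16749592))) (b (l 16754472) (l 16745968))) (a (a (b (c (l 16752384) (l 16751152)) (b (a (l 16750848) (l 16749952)) (l 16748896))) (b (c (b (l 16751584) (l 16750408)) (b (l 16750344) (l 16749128))) (l 16747280))) (c (b (l 16747616) (l 16744272)) (b (l 16751584) (l 16742936)))))) (b (b (c (a (a (b (l 16754080) (l 16751240)) (l 16749656)) (l 16746072)) (b (a (a (a (a (l 16751504) (l 16751104)) (l 16750272)) (l 16748464)) (l 16744864)) (a (l 16748000) (l 16743176)))) (c (a (l 16747632) (l 16742800)) (a (c (l 16746080) (l 16744856)) (l 16740616)))) (b (c (a (l 16744376) (l 16739488)) (a (l 16747352) (l 16737184))) (c (a (l 16741080) (l 16736136)) (a (l 16738696) (l 16733720))))))), by decide +kernel⟩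

def k22_pm_102 : ∃ t, chk3 f_pm_102 t 62 18 1 = true :=
  ⟨(b (a (b (a (a (c (b (a (b (l 16756144) (l 16755024)) (b (l 16755432) (l 16754120))) (c (l 16752632) (l 16751888))) (b (c (b (a (l 16755024) (l 16754304)) (a (l 16753856) (l 16752928))) (b (a (l 16754136) (l 16753400)) (a (l 16752920) (l 16751992)))) (c (l 16756264) (b (l 16750888) (l 16749176))))) (c (b (a (c (l 16754120) (l 16753416)) (l 16752584)) (l 16749912)) (b (a (a (b (l 16754568) (l 16751576)) (l 16751832)) (l 16750952)) (l 16748168)))) (c (b (c (l 16755264) (l 16754544)) (l 16751624)) (a (b (l 16749192) (l 16745792)) (b (l 16746840) (l 16743408))))) (b (c (a (c (l 16748216) (l 16747416)) (l 16743064)) (a (c (l 16746488) (l 16745432)) (l 16741168))) (c (a (l 16744552) (l 16739720)) (a (l 16747816) (l 16737712))))) (b (b (c (a (l 16744968) (l 16740208)) (a (l 16748528) (l 16738488))) (c (a (l 16741608) (l 16736792)) (a (l 16739808) (l 16734960)))) (c (a (c (l 16736952) (l 16736072)) (l 16736864)) (a (c (l 16740328) (l 16739232))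 (l 16734864))))) (a (b (b (c (a (l 16741240) (l 16736360)) (a (l 16739152) (l 16734232))) (c (a (l 16737912) (l 16732968)) (a (l 16735696) (l 16730728)))) (c (a (l 16738072) (l 16733064)) (a (c (l 16731096) (l 16729760)) (l 16735888)))) (b (c (a (l 16734936) (l 16724680)) (a (l 16737968) (l 16722456))) (c (a (l 16722760) (l 16717656)) (a (l 16720320) (l 16715200)))))), by decide +kernel⟩

def k23_pm_102 : ∃ t, chk3 f_pm_102 t 63 18 1 = true :=
  ⟨(b (a (b (c (a (l 16738880) (l 16728736)) (a (l 16737088) (l 16726936))) (c (a (l 16726664) (l 16721656)) (a (l 16724648) (l 16719632)))) (a (b (c (l 16723784) (l 16721968)) (l 16720872)) (b (c (l 16718776) (l 16716960)) (l 16721008)))) (a (b (c (a (l 16719624) (l 16714520)) (a (l 16717384) (l 16712280))) (a (a (l 16712616) (l 16710024)) (l 16716616))) (a (b (l 16718776) (l 16700896)) (b (l 16703096) (l 16695624))))), by decide +kernel⟩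

def k24_pm_102 : ∃ t, chk3 f_pm_102 t 30 38 1 = true :=
  ⟨(a (a (b (b (c (l 16757896) (a (l 16756720) (l 16754736))) (c (l 16756704) (a (l 16755376) (l 16753392)))) (c (a (b (l 16756544) (l 16755304)) (b (c (l 16754768) (l 16753728)) (c (l 16752864) (l 16751736)))) (a (b (l 16754136) (c (l 16753472) (l 16753296))) (a (b (l 16752600) (c (l 16751504) (l 16749968))) (b (c (l 16751968) (l 16750496)) (l 16748448)))))) (b (c (a (b (l 16754904) (a (l 16754064) (l 16752632))) (b (a (l 16754376) (l 16751256)) (l 16749168))) (a (b (c (l 16753256) (l 16751936)) (c (a (l 16752336) (l 16750856)) (a (l 16750936) (b (l 16750112) (l 16748792))))) (b (a (b (l 16751304) (a (l 16750792) (l 16749824))) (b (l 16749664) (l 16747976))) (c (l 16747368) (l 16745928))))) (b (c (a (l 16750856) (l 16745880)) (a (c (l 16748984) (b (l 16748328) (l 16746568))) (l 16743264))) (c (l 16745000) (c (l 16743032) (l 16741480)))))) (a (a (c (b (c (l 16746416) (l 16747976)) (l 16739224)) (b (b (a (l 16746368) (l 16743920)) (l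 16741744)) (c (l 16737256) (l 16740952)))) (c (b (c (l 16741520) (l 16740432)) (l 16734216)) (b (b (l 16740224) (l 16736768)) (c (l 16732216) (l 16730664))))) (b (b (c (a (l 16737744) (l 16732752)) (a (l 16735240) (l 16730216))) (c (a (l 16734368) (l 16729328)) (a (l 16731744) (l 16726672)))) (c (a (l 16729168) (l 16724072)) (a (l 16731616) (l 16721240)))))), by decide +kernel⟩

def k25_pm_102 : ∃ t, chk3 f_pm_102 t 30 39 1 = true :=
  ⟨(a (a (a (b (c (b (c (l 16754200) (l 16753048)) (l 16750448)) (b (a (c (l 16752696) (l 16751120)) (l 16749944)) (l 16747600))) (c (l 16745072) (l 16742048))) (b (c (l 16747232) (c (l 16745192) (l 16743560))) (c (l 16740112) (l 16737040)))) (b (c (a (l 16742296) (l 16737304)) (b (l 16743992) (l 16735128))) (c (l 16740440) (b (l 16731400) (l 16727552))))) (a (b (c (b (l 16731544) (l 16727968)) (b (l 16728624) (l 16724928))) (c (l 16732848) (l 16724400))) (b (c (a (l 16722048) (l 16716880)) (a (l 16719016) (l 16713824))) (c (l 16712000) (l 16708728))))), by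 decide +kernel⟩

def k26_pm_102 : ∃ t, chk3 f_pm_102 t 31 19 1 = true :=
  ⟨(a (b (a (b (c (a (l 16731208) (l 16720864)) (a (l 16733824) (l 16718216))) (c (a (l 16718928) (l 16713744)) (a (l 16716072) (l 16710864)))) (b (c (a (l 16715712) (l 16710528)) (a (l 16713048) (l 16707848))) (c (a (l 16708528) (l 16703264)) (l 16713488)))) (a (b (c (l 16716920) (l 16716448)) (c (l 16701488) (l 16698168))) (b (c (l 16708984) (l 16695376)) (c (l 16690848) (l 16687504))))) (b (a (b (c (a (l 16705296) (l 16700032)) (l 16710472)) (c (l 16705800) (l 16692408))) (b (c (l 16697304) (l 16689392)) (c (l 16684584) (l 16681696)))) (b (a (c (l 16687800) (l 16684672)) (c (l 16676976) (l 16673880))) (a (c (l 16680080) (l 16676736)) (l 16678056))))), by decide +kernel⟩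

def k27_pm_102 : ∃ t, chk3 f_pm_102 t 6 5 1 = true :=
  ⟨(b (b (b (a (a (b (a (b (l 3) (a (l 3) (l 197199439703))) (b (a (l 3) (l 190756977911)) (a (l 147807322551) (l 16811808)))) (b (a (a (b (l 199346927079) (l 145659838551)) (l 141364872839)) (a (l 16793264) (l 16793392))) (a (a (l 16798296) (l 16796216)) (l 16796272)))) (a (a (b (b (l 140291124007) (l 16789400)) (l 16808136)) (b (b (l 16786096) (l 16786568)) (l 16776936))) (b (l 16806696) (l 16778984)))) (b (a (a (l 16790752) (l 16796608)) (a (l 16798856) (l 16775128))) (a (a (l 16787992) (l 16794216)) (a (l 16797952) (a (l 16776984) (l 16774896)))))) (b (a (a (a (b (l 16800456) (l 16803168)) (a (l 16814880) (l 16805240))) (a (l 16798096) (l 16776344))) (a (a (l 16785744) (l 16792392)) (a (b (l 16776328) (l 16775880)) (b (l 16777072) (l 16777704))))) (b (a (a (a (l 16798992) (l 16778616)) (b (l 16790824) (l 16790440))) (a (a (l 16763888) (l 16770864)) (a (l 16775776) (l 16778432)))) (a (b (a (a (l 16794368) (l 16772104)) (a (l 16753984)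 (l 16775784))) (a (l 16800144) (l 16771264))) (b (a (a (l 16764168) (l 16771224)) (a (l 16776240) (b (l 16778720) (l 16777264)))) (a (l 16789824) (a (l 16797368) (a (b (l 16796984) (l 16773336)) (l 16771256))))))))) (a (a (a (l 16822176) (b (l 16762496) (l 16764416))) (a (l 16777456) (l 16786600))) (a (a (l 16793936) (b (l 16775456) (l 16783016))) (a (b (l 16779544) (l 16786752)) (b (a (l 16776864) (l 16770944)) (l 16781744)))))) (a (b (a (a (l 16794408) (l 16790576)) (a (l 16788000) (l 16788808))) (a (l 16846592) (a (l 16837144) (l 16830736)))) (a (b (a (l 16792672) (l 16796968)) (a (l 16825296) (l 16823000))) (b (a (b (l 16795344) (l 16805392)) (b (a (l 16794536) (l 16787456)) (l 16802064))) (a (l 16823416) (b (l 16814512) (l 16828560))))))), by decide +kernel⟩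

def k28_pm_102 : ∃ t, chk3 f_pm_102 t 14 20 1 = true :=
  ⟨(b (a (a (b (a (l 16771992) (l 16769808)) (a (l 16772656) (l 16770376))) (b (a (l 16767576) (l 16765264)) (a (l 16768056) (c (l 16766864) (l 16763960))))) (a (b (b (a (l 16762952) (c (l 16761440) (l 16758624))) (a (l 16762880) (c (l 16760488) (a (l 16759024) (l 16756408))))) (b (a (c (l 16763840) (l 16760848)) (c (l 16758096) (l 16754888))) (a (c (l 16762472) (l 16759224)) (l 16751968)))) (b (a (a (b (c (l 16758456) (l 16755432)) (l 16753624)) (b (l 16752776) (l 16748776))) (c (l 16744840) (b (l 16743760) (l 16739656)))) (a (c (l 16746016) (l 16742704)) (c (l 16736216) (l 16732824)))))) (b (a (a (b (l 16772872) (l 16773888)) (a (b (l 16769128) (l 16778760)) (b (c (l 16766336) (l 16762984)) (l 16760184)))) (a (a (c (l 16754768) (l 16751376)) (c (l 16745064) (l 16741672))) (a (c (l 16735344) (l 16731904)) (c (l 16725544) (l 16722032))))) (b (a (a (a (l 16776024) (b (l 16772600) (l 16769536))) (c (l 16758808) (l 16755200))) (a (a (l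 16742576) (l 16732856)) (a (l 16723136) (l 16713432)))) (b (a (a (b (l 16769936) (l 16765384)) (c (l 16749528) (l 16746032))) (a (a (l 16733512) (l 16723960)) (a (l 16714448) (l 16704992)))) (a (a (a (l 16764160) (l 16754824)) (a (l 16745344) (l 16735880))) (a (a (c (l 16727968) (l 16724744)) (c (l 16718576) (l 16715392))) (a (c (l 16709272) (l 16706080)) (c (l 16700040) (l 16696800))))))))), by decide +kernel⟩

def k29_pm_102 : ∃ t, chk3 f_pm_102 t 14 21 1 = true :=
  ⟨(a (a (b (a (l 16764256) (c (l 16758720) (l 16753744))) (a (l 16771128) (l 16763608))) (b (a (c (l 16749488) (l 16744680)) (l 16726432)) (a (l 16744944) (c (l 16749488) (l 16742352))))) (a (b (a (c (l 16728848) (l 16724488)) (c (l 16718696) (l 16714472))) (a (c (l 16738752) (l 16731840)) (c (l 16726856) (l 16720256)))) (b (a (c (l 16708656) (l 16704504)) (c (l 16698728) (l 16694600))) (a (c (l 16715160) (l 16708808)) (c (l 16703600) (l 16697432)))))), by decide +kernel⟩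

def k30_pm_102 : ∃ t, chk3 f_pm_102 t 15 20 1 = true :=
  ⟨(a (b (a (b (a (c (l 16734904) (l 16742112)) (c (l 16724776) (l 16721416))) (a (c (l 16726224) (l 16722752)) (c (l 16716072) (l 16712520)))) (a (b (c (l 16714488) (l 16711056)) (c (l 16705784) (l 16702160))) (b (c (l 16704056) (l 16700568)) (c (l 16695368) (l 16691688))))) (b (a (a (c (l 16715656) (l 16712048)) (c (l 16705616) (l 16701936))) (a (c (l 16695456) (l 16691704)) (c (l 16685184) (l 16681384)))) (a (b (a (l 16703688) (l 16693840)) (a (b (l 16695520) (c (l 16690872) (l 16687552))) (b (l 16686000) (c (l 16681680) (l 16678272))))) (a (b (l 16689136) (b (l 16686872) (c (l 16693368) (l 16668904)))) (b (l 16684344) (b (l 16677184) (c (l 16663032) (l 16659472)))))))) (b (b (a (a (c (l 16693496) (l 16689968)) (c (l 16682824) (l 16679272))) (a (l 16680792) (l 16680392))) (a (a (c (l 16684840) (l 16681120)) (c (l 16674208) (l 16670464))) (a (l 16672128) (l 16671800)))) (a (b (a (c (l 16674824) (l 16670976)) (c (l 16664368) (l 16660496)))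 (a (b (l 16663744) (b (l 16656928) (c (l 16653584) (l 16649968)))) (b (l 16653552) (b (l 16647080) (l 16663216))))) (b (a (c (l 16653824) (l 16649960)) (l 16662264)) (b (a (l 16643296) (l 16632976)) (b (c (l 16655088) (l 16651304)) (a (l 16653592) (l 16643904)))))))), by decide +kernel⟩

def k31_pm_102 : ∃ t, chk3 f_pm_102 t 15 21 1 = true :=
  ⟨(a (a (a (b (c (l 16688944) (l 16684792)) (c (l 16692184) (l 16686152))) (b (c (l 16679160) (l 16674976)) (c (l 16680912) (l 16674968)))) (b (a (c (l 16669376) (l 16665152)) (c (l 16659624) (l 16655336))) (a (c (l 16669824) (l 16663928)) (c (l 16669256) (l 16652912))))) (a (b (a (c (l 16649752) (l 16645432)) (c (l 16639824) (l 16635488))) (a (c (l 16658248) (l 16641928)) (c (l 16636808) (l 16630992)))) (a (b (c (l 16629840) (l 16625504)) (c (l 16625784) (l 16620016))) (b (l 16638592) (c (l 16614736) (l 16609040)))))), by decide +kernel⟩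

def k32_pm_102 : ∃ t, chk3 f_pm_102 t 14 11 1 = true :=
  ⟨(a (b (a (b (c (l 16779992) (l 16770520)) (l 16774784)) (b (c (l 16762592) (l 16753176)) (c (l 16771872) (l 16760232)))) (a (b (l 16797184) (l 16811240)) (b (c (l 16783248) (l 16769208)) (c (l 16796792) (l 16780232))))) (b (a (a (b (c (l 16748376) (l 16739032)) (l 16751024)) (b (c (l 16737416) (l 16728240)) (c (l 16746144) (l 16734696)))) (b (a (c (l 16725176) (l 16716280)) (c (l 16711792) (l 16703272))) (a (c (l 16734952) (l 16723624)) (c (b (l 16720304) (l 16725440)) (b (l 16709784) (l 16713680)))))) (a (b (c (l 16760896) (a (l 16752824) (l 16741488))) (c (l 16772528) (a (l 16762504) (l 16750256)))) (b (c (a (l 16743368) (l 16731336)) (a (l 16729856) (l 16717960))) (c (a (l 16753496) (l 16740448)) (a (l 16737696) (l 16724848))))))), by decide +kernel⟩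

def k33_pm_102 : ∃ t, chk3 f_pm_102 t 30 11 1 = true :=
  ⟨(b (a (b (a (c (l 16698664) (l 16690440)) (c (l 16685712) (l 16677744))) (a (c (b (l 16705856) (l 16711768)) (b (l 16695776) (l 16700328))) (c (b (l 16691560) (l 16696584)) (b (l 16681856) (l 16685608))))) (a (b (c (b (l 16671904) (l 16674272)) (l 16665184)) (c (b (l 16677480) (l 16681576)) (b (l 16668096) (l 16671016)))) (b (c (b (l 16659736) (l 16661280)) (l 16652768)) (c (b (l 16663624) (l 16666816)) (b (l 16654512) (l 16656608)))))) (a (b (a (c (b (l 16716928) (l 16720936)) (b (l 16704248) (l 16707160))) (c (b (l 16702512) (l 16707704)) (b (l 16690184) (l 16694120)))) (c (a (l 16727152) (b (l 16711712) (l 16715760))) (a (l 16701264) (b (l 16697040) (l 16700008))))) (a (b (c (b (l 16686600) (l 16684688)) (b (l 16674776) (a (l 16683376) (l 16675360)))) (c (b (c (l 16701248) (l 16694208)) (l 16680784)) (b (a (l 16687024) (l 16679848)) (c (l 16690176) (l 16682224))))) (a (b (c (l 16677280) (l 16675648)) (c (b (l 16686208) (l 16691064))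 (b (l 16672056) (l 16675696)))) (b (c (c (l 16672136) (l 16666344)) (l 16667856)) (c (b (l 16677552) (c (l 16687080) (l 16679640))) (b (l 16663688) (c (l 16672040) (l 16664280))))))))), by decide +kernel⟩

def k34_pm_102 : ∃ t, chk3 f_pm_102 t 31 11 1 = true :=
  ⟨(b (a (b (a (c (b (l 16647744) (l 16648488)) (l 16640536)) (c (l 16646248) (l 16628376))) (c (a (b (l 16649992) (l 16652304)) (b (l 16636584) (l 16638048))) (a (b (l 16641120) (l 16642416)) (l 16649024)))) (a (b (c (l 16644552) (l 16616304)) (c (b (l 16623400) (l 16624032)) (l 16614704))) (b (c (l 16611496) (l 16604328)) (c (b (l 16610352) (l 16610280)) (l 16601480))))) (a (b (c (a (b (l 16658088) (c (l 16662480) (l 16656536))) (b (l 16650800) (c (l 16646304) (l 16640552)))) (a (b (l 16644480) (l 16657848)) (b (l 16629688) (l 16652688)))) (a (a (c (b (l 16668856) (c (l 16678656) (l 16671320))) (b (l 16655280) (c (l 16663840) (l 16656224)))) (c (b (l 16660232) (c (l 16669576) (l 16662384))) (b (l 16646936) (c (l 16655064) (l 16647608)))))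 (c (b (a (l 16651704) (l 16653736)) (c (a (l 16660456) (l 16651432)) (a (l 16653408) (l 16644520)))) (a (b (l 16638672) (c (l 16646248) (l 16638960))) (b (l 16630472) (l 16644440)))))) (b (a (c (b (l 16635928) (c (l 16630448) (l 16624864))) (b (l 16615136) (l 16616336))) (a (c (l 16636096) (l 16604576)) (c (l 16607688) (l 16597296)))) (a (c (b (a (l 16645376) (l 16626608)) (c (a (l 16642504) (l 16633680)) (a (l 16635728) (l 16627016)))) (b (l 16636672) (a (l 16646352) (l 16616888)))) (c (c (b (l 16627808) (a (l 16624944) (l 16616312))) (a (l 16627264) (l 16629464))) (b (l 16623352) (c (l 16628568) (l 16601000)))))))), by decide +kernel⟩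

def k35_pm_102 : ∃ t, chk3 f_pm_102 t 6 6 1 = true :=
  ⟨(b (a (a (b (l 16906344) (l 16965360)) (b (l 16893848) (l 16957064))) (a (b (a (l 16880904) (l 16870528)) (l 16923304)) (b (a (l 16861120) (b (l 16844296) (l 16864576))) (a (l 16930304) (l 16877088))))) (a (b (a (l 2) (l 17012744)) (l 2)) (b (a (l 17005896) (l 16972496)) (a (l 17056816) (l 17030472))))), by decide +kernel⟩

def k36_pm_102 : ∃ t, chk3 f_pm_102 t 14 12 1 = true :=
  ⟨(a (b (a (b (l 16827536) (l 16846184)) (b (l 16782184) (l 16820008))) (a (b (l 16876808) (l 16916672)) (b (l 16843800) (l 16883000)))) (b (a (b (c (l 16786416) (l 16767728)) (c (l 16802992) (l 16781280))) (b (c (l 16737848) (a (l 16747592) (l 16733768))) (c (l 16772992) (a (l 16759672) (l 16744840))))) (a (b (c (l 16847136) (l 16796168)) (l 16825928)) (b (c (l 16784432) (a (l 16772680) (l 16756576))) (c (l 16851048) (l 16777896)))))), by decide +kernel⟩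

def k37_pm_102 : ∃ t, chk3 f_pm_102 t 30 12 1 = true :=
  ⟨(b (a (b (c (a (l 16737392) (l 16701816)) (a (l 16719680) (b (l 16703472) (l 16707448)))) (c (a (l 16749936) (l 16734216)) (a (b (l 16727056) (l 16732624)) (b (l 16711944) (l 16716984))))) (b (b (c (a (l 16705800) (c (l 16695072) (l 16687048))) (a (c (l 16693408) (l 16684912)) (c (l 16668376) (l 16665264)))) (c (a (l 16710384) (c (l 16699368) (l 16690800))) (a (l 16671664) (c (l 16682072) (l 16673176))))) (c (a (b (l 16715528) (l 16721240)) (b (c (l 16704224) (l 16695088)) (c (l 16709656) (l 16699936)))) (a (b (l 16696608) (c (l 16706216) (l 16695968))) (a (b (l 16684984) (l 16689088)) (b (l 16677184) (l 16670520))))))) (a (b (c (a (l 16766392) (l 16745664)) (a (l 16740168) (b (l 16721560) (l 16725648)))) (c (b (l 16770784) (l 16774968)) (a (l 16751008) (l 16732696)))) (b (c (a (b (l 16726272) (l 16730584)) (b (l 16688160) (l 16712576))) (a (b (c (l 16710416) (l 16699608)) (l 16708328)) (b (c (l 16693576) (a (l 16687168) (l 16678816)))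 (c (l 16696312) (l 16685264))))) (c (a (l 16739816) (b (l 16716480) (l 16720856))) (a (b (l 16712104) (l 16716368)) (b (c (l 16699496) (l 16687968)) (l 16676184))))))), by decide +kernel⟩

def k38_pm_102 : ∃ t, chk3 f_pm_102 t 62 24 1 = true :=
  ⟨(b (a (a (c (b (c (l 16683800) (l 16675856)) (c (l 16687760) (l 16679288))) (b (c (l 16667776) (l 16659544)) (l 16663672))) (c (b (c (l 16670488) (l 16665248)) (c (l 16679976) (l 16671560))) (b (c (l 16662496) (l 16651752)) (c (l 16663008) (l 16654320))))) (c (b (c (a (b (l 16665328) (l 16668680)) (l 16657512)) (a (b (l 16657760) (l 16660760)) (l 16649928))) (c (a (b (l 16671216) (l 16673080)) (b (l 16662552) (l 16665080))) (a (b (l 16662992) (l 16664592)) (b (l 16654440) (l 16656656))))) (b (c (a (b (l 16650080) (l 16652728)) (l 16642232)) (a (l 16653848) (l 16634432))) (c (a (l 16655248) (b (l 16646216) (l 16648136))) (a (l 16646656) (b (l 16637888) (l 16639496))))))) (c (a (a (b (l 16666712) (l 16671416)) (b (c (l 16684112) (l 16675152)) (c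 (l 16688800) (l 16679280)))) (b (c (a (l 16676000) (c (l 16670048) (l 16665664))) (a (l 16667112) (c (l 16661256) (l 16656816)))) (c (a (l 16680400) (b (l 16670896) (l 16673080))) (a (l 16670952) (b (l 16661664) (l 16663576)))))) (a (a (b (l 16664096) (c (l 16677824) (l 16667920))) (b (c (l 16666056) (l 16656824)) (c (l 16669616) (l 16659824)))) (b (c (a (l 16658096) (l 16650112)) (a (l 16648968) (l 16641080))) (c (a (l 16661384) (b (l 16652328) (l 16653960))) (a (l 16651696) (b (l 16642888) (l 16644232)))))))), by decide +kernel⟩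

def k39_pm_102 : ∃ t, chk3 f_pm_102 t 63 48 1 = true :=
  ⟨(a (c (b (c (a (c (l 16649896) (l 16646200)) (c (l 16640496) (l 16636872))) (a (l 16640616) (l 16631400))) (b (c (a (l 16652904) (l 16643136)) (a (l 16644952) (l 16635344))) (c (a (c (l 16658312) (l 16654176)) (c (l 16648456) (l 16644400))) (a (c (l 16650024) (l 16645848)) (l 16638288))))) (b (c (a (l 16633088) (l 16624040)) (a (l 16625472) (l 16616600))) (c (a (b (l 16636904) (l 16650024)) (l 16639216)) (a (b (l 16628760) (l 16631048)) (l 16620608))))) (c (b (c (a (l 16639920) (l 16630776)) (a (l 16622288) (l 16613280))) (b (c (a (l 16633472) (l 16623928)) (a (l 16625840) (l 16616440))) (c (a (l 16641728) (l 16637152)) (a (l 16628512) (l 16618856))))) (b (a (l 16632424) (l 16602672)) (c (a (l 16619272) (l 16609920)) (a (l 16611352) (l 16602184)))))), by decide +kernel⟩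

def k40_pm_102 : ∃ t, chk3 f_pm_102 t 63 49 2 = true :=
  ⟨(a (b (c (a (b (c (l 16660904) (l 16656624)) (l 16660608)) (a (b (c (l 16654376) (l 16650128)) (l 16654416)) (b (l 16652664) (c (l 16652376) (l 16648000))))) (a (b (c (l 16652312) (l 16647984)) (l 16651728)) (b (c (l 16645688) (l 16639128)) (c (l 16645672) (l 16641256))))) (c (a (b (l 16662512) (l 16659304)) (b (c (l 16656360) (l 16651840)) (c (a (l 16660464) (l 16656168)) (l 16653664)))) (a (b (l 16653360) (l 16655120)) (b (c (l 16647304) (l 16642744)) (c (l 16648984) (l 16644296)))))) (b (b (c (a (c (l 16641848) (l 16637696)) (c (l 16642184) (l 16627632))) (a (l 16641928) (l 16621512))) (c (a (c (a (b (l 16647152) (l 16648608)) (l 16642872)) (a (l 16643456) (l 16638560))) (c (a (l 16637664) (l 16632472)) (l 16641304))) (a (c (a (l 16639096) (l 16634240)) (l 16640104)) (c (l 16626568) (l 16622304))))) (c (a (b (c (a (l 16650032) (b (l 16645256) (l 16646232))) (a (l 16645536) (l 16641240))) (c (a (l 16651872) (l 16647568)) (a (l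 16647248) (l 16642960)))) (b (c (a (b (l 16640400) (l 16641856)) (c (l 16642384) (l 16634936))) (a (b (l 16636000) (l 16637368)) (l 16631632))) (c (a (c (l 16644408) (l 16642120)) (b (c (l 16639544) (l 16637280)) (l 16639384))) (a (l 16638680) (b (l 16633880) (l 16634784)))))) (a (b (c (a (l 16641024) (l 16636752)) (l 16639592)) (c (a (l 16642600) (l 16638344)) (l 16635824))) (a (b (c (l 16632152) (l 16627688)) (c (l 16634072) (l 16629464))) (b (l 16635496) (c (l 16634968) (l 16625136)))))))), by decide +kernel⟩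

def k41_pm_102 : ∃ t, chk3 f_pm_102 t 63 49 3 = true :=
  ⟨(a (b (c (a (b (l 16641448) (l 16642752)) (b (l 16641864) (l 16639832))) (a (b (l 16632648) (l 16633680)) (b (l 16624040) (l 16625624)))) (c (a (b (l 16644112) (l 16645600)) (b (l 16635872) (l 16637224))) (a (b (l 16634776) (l 16635992)) (b (l 16626648) (l 16627728))))) (b (c (a (b (l 16623056) (c (l 16627864) (l 16623480))) (c (l 16616664) (l 16612464))) (a (b (l 16614608) (l 16616872)) (l 16606144))) (c (a (b (c (l 16629824) (l 16625280)) (l 16634072)) (b (c (l 16631208) (l 16616256)) (c (l 16633144) (l 16618048)))) (a (b (l 16618440) (l 16619448)) (b (l 16609536) (l 16611096)))))), by decide +kernel⟩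

def k42_pm_102 : ∃ t, chk3 f_pm_102 t 62 25 1 = true :=
  ⟨(b (c (a (b (c (l 16675864) (a (l 16691096) (l 16682448))) (c (l 16699632) (l 16678648))) (b (c (a (l 16683704) (c (l 16677352) (l 16672456))) (a (l 16673776) (b (l 16664816) (l 16665376)))) (c (a (l 16685832) (l 16666112)) (a (l 16675504) (c (l 16668936) (l 16663800)))))) (a (b (c (a (l 16680840) (l 16672296)) (a (l 16670432) (l 16662008))) (c (a (l 16682968) (l 16674024)) (a (l 16672120) (l 16663312)))) (b (c (a (l 16663720) (b (l 16654968) (l 16655336))) (a (l 16643064) (b (l 16645008) (l 16645184)))) (c (a (l 16665048) (b (l 16655792) (l 16656344))) (a (l 16654464) (c (l 16648224) (l 16642976))))))) (c (a (b (c (l 16707152) (l 16691912)) (c (l 16697720) (l 16695136))) (b (c (a (l 16688360) (l 16678656)) (a (l 16677616) (c (l 16670712) (l 16665376)))) (c (l 14) (a (l 16680144) (l 16670112))))) (a (b (a (l 16658912) (a (l 16672920) (l 16657784))) (c (l 16662632) (a (l 16676744) (l 16667104)))) (b (c (a (l 16666752) (b (l 16656984)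 (l 16657712))) (a (l 16655760) (b (l 16646248) (l 16646776)))) (c (a (l 16668856) (b (l 16658544) (l 16659472))) (a (l 16657440) (b (l 16647408) (l 16648136)))))))), by decide +kernel⟩

def k43_pm_102 : ∃ t, chk3 f_pm_102 t 126 50 2 = true :=
  ⟨(b (c (a (b (l 16660608) (l 16666384)) (c (b (a (l 16661680) (l 16657304)) (l 16657240)) (b (l 16654728) (l 16655008)))) (a (b (l 16656192) (l 16656544)) (c (b (l 16649944) (l 16650136)) (b (l 16645136) (l 16645248))))) (b (c (a (l 16667008) (c (l 16655064) (l 16655368))) (a (l 16656984) (c (l 16650408) (l 16645432)))) (c (a (l 16667712) (c (l 14) (l 16650568))) (a (l 16657512) (c (l 16650768) (l 16645704)))))), by decide +kernel⟩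

def k44_pm_102 : ∃ t, chk3 f_pm_102 t 127 50 2 = true :=
  ⟨(b (c (a (c (b (a (l 16652912) (c (l 16649696) (l 16647344))) (a (l 16653120) (c (l 16649816) (l 16647424)))) (b (a (l 16648176) (l 16643808)) (a (l 16648296) (l 16643824)))) (c (b (a (b (l 16644144) (l 16644120)) (b (l 16639768) (a (l 16640808) (l 16638592)))) (b (a (l 16644120) (a (l 16640760) (l 16638520))) (c (l 14) (a (l 16642936) (l 16638408))))) (b (a (c (l 16640608) (l 16638256)) (c (l 16636224) (l 16633880))) (a (c (l 16640544) (l 16638152)) (c (l 16636056) (l 16633680)))))) (a (c (b (a (l 16643424) (l 16639080)) (a (l 16643464) (l 16639016))) (b (l 16636496) (a (l 16638616) (l 16634192)))) (b (c (a (l 16634728) (l 16630368)) (l 16634392)) (c (a (l 16634560) (l 16630104)) (a (l 16629768) (l 16625336)))))) (c (a (c (b (a (l 16653400) (c (l 14) (l 16647576))) (l 14)) (b (a (l 16648496) (c (l 16645136) (l 16642696))) (a (l 16648776) (c (l 16645328) (l 16642848))))) (c (c (l 14) (b (b (a (l 16642960) (l 16638376)) (l 14))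 (l 14))) (b (a (a (l 16640480) (l 16640808)) (c (b (l 16635976) (l 16635944)) (l 16633536))) (a (b (l 16639376) (l 16639424)) (c (b (l 16635928) (l 14)) (b (l 16633480) (l 16633464))))))) (a (c (b (a (l 16643584) (l 16639024)) (a (l 16643776) (l 16639112))) (b (a (l 16638648) (l 16634120)) (a (l 16638760) (l 16634128)))) (c (b (a (l 16634472) (l 16633184)) (a (c (l 16635688) (l 16633216)) (c (l 16631016) (l 16628552)))) (b (a (l 16629592) (l 16625064)) (a (l 16629496) (l 16624864))))))), by decide +kernel⟩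

def k45_pm_102 : ∃ t, chk3 f_pm_102 t 63 50 3 = true :=
  ⟨(a (b (c (a (b (l 16646440) (l 16646616)) (b (c (l 16640312) (l 16635472)) (c (l 16640336) (l 16635408)))) (a (b (l 16636600) (l 16636592)) (b (l 16628176) (l 16627984)))) (b (c (a (l 16646872) (c (l 16640440) (l 16635424))) (a (l 16636664) (l 16627864))) (c (a (l 16647216) (c (l 16640616) (l 16635512))) (a (l 16636816) (l 16627824))))) (b (c (a (c (b (l 16631728) (l 16631552)) (b (l 16626944) (l 16626688))) (b (c (l 16623128) (l 16618400)) (c (l 16622760) (l 16617952)))) (a (b (l 16619736) (l 16619360)) (b (l 16611296) (l 16610728)))) (b (c (a (c (l 16631448) (l 16626504)) (c (l 16627704) (l 16617576))) (a (l 16619048) (l 16610232))) (c (a (c (l 16631424) (l 16626392)) (a (l 16627288) (l 16622704))) (a (l 16618816) (l 16620288)))))), by decide +kernel⟩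

def k46_pm_102 : ∃ t, chk3 f_pm_102 t 63 51 2 = true :=
  ⟨(a (b (b (c (a (l 16668520) (c (l 14) (l 16651096))) (a (l 16658128) (c (l 16651208) (l 16646056)))) (c (l 14) (a (l 16658832) (c (l 16651736) (l 16646496))))) (c (l 14) (a (b (l 16659632) (l 16660528)) (c (b (l 16652352) (l 14)) (b (l 16647024) (l 16647632)))))) (b (c (b (b (c (l 14) (c (l 14) (a (l 16640152) (a (l 16638240) (l 16633472))))) (l 14)) (l 14)) (a (c (b (a (l 16644056) (l 16639280)) (a (l 16644416) (c (l 16640816) (l 16638240)))) (b (a (l 16638952) (l 16634216)) (a (l 16639224) (l 16634376)))) (c (b (a (c (l 16635768) (l 16633248)) (b (l 16629744) (l 16629736))) (a (b (l 16634600) (l 16634688)) (c (b (l 16631008) (l 14)) (b (l 16628480) (l 16628504))))) (b (a (l 16629472) (l 16629976)) (a (c (l 16630808) (l 16628248)) (c (l 16625944) (l 16623408))))))) (c (l 14) (a (c (b (a (l 16644856) (c (l 14) (l 16638544))) (l 14)) (b (a (l 16639584) (l 16634624)) (a (l 16640024) (c (l 16636280) (l 16633616))))) (c (c (l 14) (b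 (b (a (l 16633504) (l 16628536)) (l 14)) (l 14))) (b (a (c (l 16630960) (l 16628360)) (b (l 16624688) (l 16624712))) (a (b (l 16629808) (l 16629936)) (c (b (l 16626064) (l 14)) (b (l 16623456) (l 16623512)))))))))), by decide +kernel⟩

def k47_pm_102 : ∃ t, chk3 f_pm_102 t 63 51 3 = true :=
  ⟨(a (b (b (c (a (l 16647640) (c (l 16640880) (l 16635688))) (a (l 16637064) (l 16627864))) (c (a (l 16648160) (c (l 16641232) (l 16635952))) (a (l 16637392) (c (l 16630648) (l 16625320))))) (c (a (b (l 16648776) (l 16649480)) (c (b (l 16641672) (l 16642192)) (b (l 16636296) (l 16636728)))) (a (b (l 16637808) (l 16638320)) (c (b (l 16630904) (l 16631248)) (b (l 16625488) (l 16625736)))))) (b (b (c (a (c (a (l 16633832) (l 16629128)) (l 16626368)) (c (a (l 16624424) (l 16619720)) (l 16617032))) (a (l 16623896) (l 16619936))) (c (a (c (a (l 16634024) (l 16629208)) (l 16626416)) (c (a (l 16624400) (l 16619592)) (l 16623424))) (a (c (l 16621192) (l 16615960)) (c (l 16611736) (l 16606592))))) (c (a (c (b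 (a (l 16634296) (l 16629376)) (a (l 16634648) (l 16629616))) (b (a (l 16628984) (l 16624104)) (a (l 16629256) (l 16624264)))) (c (b (a (l 16624448) (l 16619528)) (a (c (l 16625904) (l 16623256)) (c (l 16620856) (l 16618232)))) (b (a (l 16619232) (l 16614352)) (a (l 16619280) (l 16614288))))) (a (c (b (l 16621240) (l 16621368)) (b (l 16615920) (l 16615960))) (b (c (l 16611576) (l 16606344)) (c (l 16616728) (l 16606176))))))), by decide +kernel⟩

def k48_pm_102 : ∃ t, chk3 f_pm_102 t 14 13 1 = true :=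
  ⟨(a (b (a (l 16974632) (l 16923880)) (a (l 17041456) (l 17019344))) (b (a (b (l 16845552) (l 16929296)) (b (l 16763912) (l 16805888))) (a (l 16925888) (b (l 16848472) (l 16973080))))), by decide +kernel⟩

def k49_pm_102 : ∃ t, chk3 f_pm_102 t 30 13 1 = true :=
  ⟨(b (a (b (c (l 16768472) (a (l 16764136) (l 16744064))) (a (l 16773480) (l 16728920))) (c (b (a (l 16730608) (a (l 16750704) (l 16713944))) (a (l 16862816) (c (l 16866880) (l 16723264)))) (b (a (l 16702744) (b (l 16701040) (l 16705432))) (a (l 16730336) (b (l 16710336) (l 16709776)))))) (a (b (a (l 16774152) (l 16751424)) (c (l 16977080) (l 16804432))) (c (b (a (l 16906192) (l 16862792)) (a (l 16947312) (l 16925968))) (b (a (l 16737360) (c (l 16714544) (l 16720208))) (a (b (l 16834672) (l 16858768)) (b (l 16805968) (l 16829328))))))), by decide +kernel⟩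

def k50_pm_102 : ∃ t, chk3 f_pm_102 t 62 26 1 = true :=
  ⟨(a (b (c (b (c (l 16728424) (l 16701560)) (l 16682048)) (a (b (l 16685848) (l 16689528)) (b (l 16659944) (l 16657912)))) (c (b (l 16689352) (c (l 16852568) (l 16789160))) (b (c (l 16696056) (l 16681568)) (c (l 16704408) (l 16685752))))) (b (c (b (c (a (l 16743064) (l 14)) (a (l 16683096) (l 16672584))) (c (l 16686272) (l 14))) (b (c (a (l 16671376) (l 16650568)) (a (l 16659528) (b (l 16648960) (l 16649880)))) (c (a (l 16674336) (l 16663528)) (a (l 16662040) (l 16640968))))) (c (b (a (l 16684832) (c (l 16785976) (l 14))) (c (l 16801736) (l 16670592))) (b (c (a (l 16677744) (l 16666432)) (a (l 16665008) (l 16643448))) (c (l 14) (a (l 16668440) (l 16656864))))))), by decide +kernel⟩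

def k51_pm_102 : ∃ t, chk3 f_pm_102 t 63 52 2 = true :=
  ⟨(b (b (b (c (l 14) (c (l 14) (c (l 14) (a (a (l 16657080) (l 16646784)) (a (l 16636480) (a (l 16628744) (l 16623592))))))) (l 14)) (l 14)) (a (c (a (l 16662496) (l 14)) (l 14)) (l 14))), by decide +kernel⟩

def k52_pm_102 : ∃ t, chk3 f_pm_102 t 63 52 3 = true :=
  ⟨(a (b (c (a (b (l 16650280) (l 16651176)) (c (b (l 16642808) (l 16643520)) (b (l 16637256) (l 16637872)))) (a (b (l 16638928) (l 16639624)) (b (c (l 16631680) (l 16626080)) (c (l 16632200) (l 16626504))))) (c (a (b (l 16652168) (l 16653264)) (c (b (l 16644320) (l 14)) (b (l 16638576) (l 16639384)))) (a (b (l 16640424) (l 16641320)) (b (c (l 16632816) (l 16627032)) (c (l 16633528) (l 16627640)))))) (b (c (a (c (b (a (l 16635088) (l 16629944)) (a (l 16635616) (l 16630352))) (b (a (l 16629608) (l 16624504)) (a (l 16630048) (l 16624832)))) (c (b (a (c (l 16626136) (l 16623448)) (b (l 16619616) (l 16619680))) (a (b (l 16625008) (l 16625176)) (b (l 16619768) (a (l 16621200)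 (l 16618552))))) (b (a (l 16619408) (l 16614304)) (a (l 16619616) (c (l 16615760) (l 16613048)))))) (a (a (b (l 16621344) (l 16626896)) (b (l 16621568) (a (l 16617800) (l 16615232)))) (b (c (a (l 16614008) (l 16608952)) (l 16606088)) (c (a (l 16614136) (l 16608968)) (l 16611320))))) (c (a (c (b (a (l 16636240) (c (l 14) (l 16629448))) (l 14)) (b (a (l 16630576) (l 16625248)) (a (l 16631200) (l 16625744)))) (c (c (l 14) (b (b (a (l 16623984) (l 16618640)) (l 14)) (l 14))) (b (a (c (l 16621304) (l 16618520)) (a (l 16615912) (l 16615872))) (a (b (l 16620192) (l 16620400)) (b (l 16614768) (a (l 16616288) (l 16613544))))))) (a (c (b (a (l 16624896) (l 16619624)) (a (l 16625432) (l 16620032))) (b (l 16616584) (a (l 16619640) (l 16614304)))) (c (b (a (l 16614344) (l 16609064)) (a (l 16614640) (c (l 16610648) (l 16607848)))) (b (a (l 16608760) (l 16603544)) (a (l 16608968) (l 16603640)))))))), by decide +kernel⟩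

def k53_pm_102 : ∃ t, chk3 f_pm_102 t 63 53 1 = true :=
  ⟨(a (c (c (b (a (b (l 16759904) (l 16775304)) (b (l 16656088) (l 16714120))) (a (l 16797536) (b (l 16771664) (l 16786784)))) (b (l 14) (a (l 16662512) (l 14)))) (b (b (c (a (l 16654464) (c (l 14) (l 16640280))) (a (l 16642312) (c (l 16634328) (l 16628352)))) (c (l 14) (a (l 16643416) (c (l 16635232) (l 16629160))))) (c (l 14) (a (b (l 16644632) (l 16645952)) (b (c (l 16636240) (l 16630072)) (c (l 14) (l 16631088))))))) (c (c (c (b (a (b (l 14) (l 16755248)) (l 14)) (a (l 16737144) (b (a (l 16756024) (l 14)) (l 16766992)))) (a (b (l 14) (b (l 14) (l 16748376))) (l 14))) (l 14)) (a (b (c (c (l 14) (b (a (l 16631912) (c (l 14) (l 16624888))) (l 14))) (b (c (a (l 16626056) (l 16620536)) (a (l 16620176) (l 16614720))) (c (a (l 16626776) (l 16621136)) (a (l 16620800) (l 16615232))))) (c (l 14) (b (c (a (l 16627592) (l 16621824)) (a (l 16621528) (l 16615832))) (c (l 14) (a (l 16622352) (l 16616528)))))) (b (c (c (l 14) (c (l 14) (b (b (a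 (l 16619208) (l 16613680)) (l 14)) (l 14)))) (c (b (a (c (l 16616456) (l 16613584)) (a (l 16610888) (l 16610752))) (a (a (l 16616904) (l 16616712)) (c (b (l 16611200) (l 14)) (l 16608416)))) (b (a (l 16609272) (l 16603824)) (a (l 16609656) (c (l 16605536) (l 16602640)))))) (c (l 14) (b (c (b (c (l 14) (a (l 16614432) (l 16608720))) (l 14)) (a (c (l 16611616) (l 16608648)) (c (l 16605904) (l 16602976)))) (c (l 14) (a (a (l 16612160) (l 16609248)) (c (b (l 16606248) (l 14)) (l 16603400)))))))))), by decide +kernel⟩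

def k54_pm_102 : ∃ t, chk3 f_pm_102 t 62 27 1 = true :=
  ⟨(b (c (a (b (l 16825152) (l 16869936)) (b (c (l 16849112) (a (l 16791256) (l 16773968))) (c (l 16874000) (l 16809416)))) (a (b (l 16672160) (l 16686144)) (b (a (l 16671768) (b (l 16645032) (l 14))) (c (l 16660552) (l 14))))) (c (a (l 16861224) (b (l 16824120) (l 16888968))) (a (b (l 16690824) (l 16736072)) (b (a (l 16664880) (c (l 16762496) (l 14))) (c (l 16796776) (l 16671928)))))), by decide +kernel⟩

def k55_pm_102 : ∃ t, chk3 f_pm_102 t 63 27 1 = true :=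
  ⟨(c (b (a (c (b (a (l 16825640) (l 16808608)) (l 16844272)) (b (a (b (l 16748184) (l 16762800)) (b (l 16644328) (l 16722504))) (a (l 16783928) (b (l 16758280) (l 16772648))))) (c (b (c (a (l 16809168) (l 16769408)) (a (l 16729640) (b (a (l 16748696) (l 14)) (l 16759232)))) (a (l 16819176) (c (l 16819888) (l 16740080)))) (c (b (a (b (l 14) (l 16741648)) (l 14)) (a (b (l 16756840) (l 16771576)) (b (a (l 16741536) (l 14)) (l 16751648)))) (b (l 14) (a (b (l 14) (l 16735056)) (l 14)))))) (a (b (c (l 16869680) (a (l 16810680) (l 16793408))) (c (l 16893576) (l 16806936))) (c (b (a (l 16846224) (l 16829200)) (l 16863808)) (b (b (a (l 16767880) (c (l 16766576) (a (l 16734528) (l 14)))) (a (l 16781992) (c (l 16781040) (l 16744248)))) (a (l 16802376) (a (l 16788656) (l 16737184))))))) (b (a (b (b (b (c (l 14) (a (l 16647016) (l 16624608))) (l 14)) (l 14)) (c (a (l 16652392) (l 14)) (l 14))) (b (b (b (c (l 14) (c (l 14) (b (a (l 16619960) (a (l 16611112) (l 16605208))) (l 14)))) (l 14)) (l 14)) (l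 14))) (a (c (b (a (b (l 16736936) (l 16750840)) (c (l 16720584) (l 14))) (a (l 16770952) (b (l 16745488) (l 16759160)))) (b (l 14) (a (l 16642672) (l 14)))) (c (c (b (a (b (l 14) (l 16728616)) (l 14)) (a (b (l 16743056) (l 16757064)) (b (a (l 16727672) (l 14)) (l 16737008)))) (a (b (l 14) (b (l 14) (l 16722312))) (l 14))) (l 14))))), by decide +kernel⟩

def k56_pm_102 : ∃ t, chk3 f_pm_102 t 6 7 1 = true :=
  ⟨(a (l 2) (b (a (l 2) (b (l 17096528) (l 2))) (l 2))), by decide +kernel⟩

def k57_pm_102 : ∃ t, chk3 f_pm_102 t 14 14 1 = true :=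
  ⟨(b (a (a (b (l 17082576) (l 17104344)) (b (l 17066864) (l 17093600))) (a (b (l 17040224) (l 17070216)) (b (l 17009960) (l 17042880)))) (a (a (l 2) (l 17126832)) (b (a (l 17100112) (l 17079432)) (l 17122856)))), by decide +kernel⟩

def k58_pm_102 : ∃ t, chk3 f_pm_102 t 15 28 1 = true :=
  ⟨(a (a (b (c (l 17015160) (l 16932456)) (c (l 17049096) (l 16972440))) (b (c (l 16978608) (a (l 16894760) (b (l 16853824) (l 16878448)))) (c (l 17017064) (a (l 16938576) (l 16913104))))) (a (b (c (a (l 16945464) (b (l 16910544) (l 16931592))) (b (a (c (l 16850816) (l 16794744)) (a (l 16798856) (l 16704952))) (a (l 16847752) (a (l 16823016) (l 16732992))))) (a (c (l 16987456) (b (l 16872736) (l 16896424))) (c (l 16964456) (b (c (l 16868776) (l 16811952)) (l 16844848))))) (b (c (a (b (l 16842208) (l 16906128)) (b (c (l 16888192) (a (l 16828152) (l 16810808))) (c (l 16911096) (l 16844376)))) (a (c (b (a (l 16796448) (l 16778936)) (l 16791384)) (b (a (l 16690896) (c (l 16708568) (l 14))) (a (l 16758584) (b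 (l 16733272) (l 16746296))))) (c (b (a (b (l 16753544) (l 16766984)) (b (c (l 16751192) (a (l 16720976) (l 14))) (c (l 16764960) (l 16729936)))) (a (l 16786408) (b (l 16740096) (l 16774264)))) (a (b (b (l 14) (c (l 16716144) (l 14))) (b (c (l 16729880) (l 14)) (c (l 16743224) (l 16710104)))) (b (l 14) (c (b (a (l 16714416) (l 14)) (l 16702048)) (l 14))))))) (c (a (b (l 16927528) (l 16949624)) (b (l 16879224) (c (l 16953504) (l 16890368)))) (a (b (c (l 16794400) (a (l 16784120) (b (l 16758952) (l 16771552)))) (a (l 16840520) (c (l 16852680) (l 16792152)))) (b (c (a (l 16811000) (l 16793344)) (a (b (l 16739864) (l 16752680)) (b (c (l 16736528) (a (l 16708008) (l 14))) (c (l 16749656) (l 16695296))))) (a (c (l 16835312) (b (l 16765424) (l 16779048))) (c (l 16817672) (b (l 16724968) (a (l 16763720) (l 16753720))))))))))), by decide +kernel⟩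

def k59_pm_102 : ∃ t, chk3 f_pm_102 t 15 29 1 = true :=
  ⟨(a (a (b (l 17054896) (l 17102784)) (b (a (l 17033352) (l 16954048)) (l 17085608))) (b (a (c (b (l 17016368) (l 17053488)) (b (a (l 16931184) (l 16904336)) (l 16964656))) (c (b (a (l 16984704) (l 16959912)) (l 17019952)) (b (b (a (l 16838752) (a (l 16833552) (c (l 16846144) (l 16762512)))) (a (l 16888712) (l 16794048))) (a (l 16929688) (l 16840104))))) (a (c (l 17102312) (l 17026680)) (b (a (l 17024624) (l 16944440)) (l 16975240))))), by decide +kernel⟩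

def k60_pm_102 : ∃ t, chk3 f_pm_102 t 7 15 1 = true :=
  ⟨(a (a (l 2) (b (b (l 17148072) (l 2)) (l 2))) (b (a (b (a (l 17141136) (l 17134504)) (l 17171968)) (b (a (l 17125824) (c (l 17148840) (l 17080792))) (a (l 17174176) (l 17174968)))) (a (b (l 17196944) (l 2)) (a (l 17224880) (l 17259336))))), by decide +kernel⟩

theorem s61_pm_102 : ∃ t, chk3 f_pm_102 t 15 14 1 = true := ex3_b k58_pm_102 k59_pm_102

theorem s62_pm_102 : ∃ t, chk3 f_pm_102 t 7 14 1 = true := ex3_a k57_pm_102 s61_pm_102

theorem s63_pm_102 : ∃ t, chk3 f_pm_102 t 7 7 1 = true := ex3_b s62_pm_102 k60_pm_102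

theorem s64_pm_102 : ∃ t, chk3 f_pm_102 t 3 7 1 = true := ex3_a k56_pm_102 s63_pm_102

theorem s65_pm_102 : ∃ t, chk3 f_pm_102 t 31 27 1 = true := ex3_a k54_pm_102 k55_pm_102

theorem s66_pm_102 : ∃ t, chk3 f_pm_102 t 63 52 1 = true := ex3_c k51_pm_102 k52_pm_102

theorem s67_pm_102 : ∃ t, chk3 f_pm_102 t 63 26 1 = true := ex3_b s66_pm_102 k53_pm_102

theorem s68_pm_102 : ∃ t, chk3 f_pm_102 t 31 26 1 = true := ex3_a k50_pm_102 s67_pm_102

theorem s69_pm_102 : ∃ t, chk3 f_pm_102 t 31 13 1 = true := ex3_b s68_pm_102 s65_pm_102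

theorem s70_pm_102 : ∃ t, chk3 f_pm_102 t 15 13 1 = true := ex3_a k49_pm_102 s69_pm_102

theorem s71_pm_102 : ∃ t, chk3 f_pm_102 t 7 13 1 = true := ex3_a k48_pm_102 s70_pm_102

theorem s72_pm_102 : ∃ t, chk3 f_pm_102 t 63 51 1 = true := ex3_c k46_pm_102 k47_pm_102

theorem s73_pm_102 : ∃ t, chk3 f_pm_102 t 63 50 2 = true := ex3_a k43_pm_102 k44_pm_102

theorem s74_pm_102 : ∃ t, chk3 f_pm_102 t 63 50 1 = true := ex3_c s73_pm_102 k45_pm_102

theorem s75_pm_102 : ∃ t, chk3 f_pm_102 t 63 25 1 = true := ex3_b s74_pm_102 s72_pm_102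

theorem s76_pm_102 : ∃ t, chk3 f_pm_102 t 31 25 1 = true := ex3_a k42_pm_102 s75_pm_102

theorem s77_pm_102 : ∃ t, chk3 f_pm_102 t 63 49 1 = true := ex3_c k40_pm_102 k41_pm_102

theorem s78_pm_102 : ∃ t, chk3 f_pm_102 t 63 24 1 = true := ex3_b k39_pm_102 s77_pm_102

theorem s79_pm_102 : ∃ t, chk3 f_pm_102 t 31 24 1 = true := ex3_a k38_pm_102 s78_pm_102

theorem s80_pm_102 : ∃ t, chk3 f_pm_102 t 31 12 1 = true := ex3_b s79_pm_102 s76_pm_102

theorem s81_pm_102 : ∃ t, chk3 f_pm_102 t 15 12 1 = true := ex3_a k37_pm_102 s80_pm_102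

theorem s82_pm_102 : ∃ t, chk3 f_pm_102 t 7 12 1 = true := ex3_a k36_pm_102 s81_pm_102

theorem s83_pm_102 : ∃ t, chk3 f_pm_102 t 7 6 1 = true := ex3_b s82_pm_102 s71_pm_102

theorem s84_pm_102 : ∃ t, chk3 f_pm_102 t 3 6 1 = true := ex3_a k35_pm_102 s83_pm_102

theorem s85_pm_102 : ∃ t, chk3 f_pm_102 t 3 3 1 = true := ex3_b s84_pm_102 s64_pm_102

theorem s86_pm_102 : ∃ t, chk3 f_pm_102 t 15 11 1 = true := ex3_a k33_pm_102 k34_pm_102

theorem s87_pm_102 : ∃ t, chk3 f_pm_102 t 7 11 1 = true := ex3_a k32_pm_102 s86_pm_102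

theorem s88_pm_102 : ∃ t, chk3 f_pm_102 t 15 10 1 = true := ex3_b k30_pm_102 k31_pm_102

theorem s89_pm_102 : ∃ t, chk3 f_pm_102 t 14 10 1 = true := ex3_b k28_pm_102 k29_pm_102

theorem s90_pm_102 : ∃ t, chk3 f_pm_102 t 7 10 1 = true := ex3_a s89_pm_102 s88_pm_102

theorem s91_pm_102 : ∃ t, chk3 f_pm_102 t 7 5 1 = true := ex3_b s90_pm_102 s87_pm_102

theorem s92_pm_102 : ∃ t, chk3 f_pm_102 t 3 5 1 = true := ex3_a k27_pm_102 s91_pm_102

theorem s93_pm_102 : ∃ t, chk3 f_pm_102 t 30 19 1 = true := ex3_b k24_pm_102 k25_pm_102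

theorem s94_pm_102 : ∃ t, chk3 f_pm_102 t 15 19 1 = true := ex3_a s93_pm_102 k26_pm_102

theorem s95_pm_102 : ∃ t, chk3 f_pm_102 t 31 18 1 = true := ex3_a k22_pm_102 k23_pm_102

theorem s96_pm_102 : ∃ t, chk3 f_pm_102 t 30 36 1 = true := ex3_c k19_pm_102 k20_pm_102

theorem s97_pm_102 : ∃ t, chk3 f_pm_102 t 30 18 1 = true := ex3_b s96_pm_102 k21_pm_102

theorem s98_pm_102 : ∃ t, chk3 f_pm_102 t 15 18 1 = true := ex3_a s97_pm_102 s95_pm_102

theorem s99_pm_102 : ∃ t, chk3 f_pm_102 t 15 9 1 = true := ex3_b s98_pm_102 s94_pm_102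

theorem s100_pm_102 : ∃ t, chk3 f_pm_102 t 14 9 1 = true := ex3_b k17_pm_102 k18_pm_102

theorem s101_pm_102 : ∃ t, chk3 f_pm_102 t 7 9 1 = true := ex3_a s100_pm_102 s99_pm_102

theorem s102_pm_102 : ∃ t, chk3 f_pm_102 t 62 35 1 = true := ex3_a k14_pm_102 k15_pm_102

theorem s103_pm_102 : ∃ t, chk3 f_pm_102 t 62 34 1 = true := ex3_a k12_pm_102 k13_pm_102

theorem s104_pm_102 : ∃ t, chk3 f_pm_102 t 62 17 1 = true := ex3_b s103_pm_102 s102_pm_102

theorem s105_pm_102 : ∃ t, chk3 f_pm_102 t 31 17 1 = true := ex3_a s104_pm_102 k16_pm_102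

theorem s106_pm_102 : ∃ t, chk3 f_pm_102 t 30 17 1 = true := ex3_b k10_pm_102 k11_pm_102

theorem s107_pm_102 : ∃ t, chk3 f_pm_102 t 15 17 1 = true := ex3_a s106_pm_102 s105_pm_102

theorem s108_pm_102 : ∃ t, chk3 f_pm_102 t 15 8 1 = true := ex3_b k9_pm_102 s107_pm_102

theorem s109_pm_102 : ∃ t, chk3 f_pm_102 t 7 8 1 = true := ex3_a k8_pm_102 s108_pm_102

theorem s110_pm_102 : ∃ t, chk3 f_pm_102 t 7 4 1 = true := ex3_b s109_pm_102 s101_pm_102

theorem s111_pm_102 : ∃ t, chk3 f_pm_102 t 3 4 1 = true := ex3_a k7_pm_102 s110_pm_102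

theorem s112_pm_102 : ∃ t, chk3 f_pm_102 t 3 2 1 = true := ex3_b s111_pm_102 s92_pm_102

theorem s113_pm_102 : ∃ t, chk3 f_pm_102 t 3 1 1 = true := ex3_b s112_pm_102 s85_pm_102

theorem s114_pm_102 : ∃ t, chk3 f_pm_102 t 5 20 1 = true := ex3_b k2_pm_102 k3_pm_102

theorem s115_pm_102 : ∃ t, chk3 f_pm_102 t 5 10 1 = true := ex3_b s114_pm_102 k4_pm_102

theorem s116_pm_102 : ∃ t, chk3 f_pm_102 t 2 10 1 = true := ex3_a k1_pm_102 s115_pm_102

theorem s117_pm_102 : ∃ t, chk3 f_pm_102 t 2 5 1 = true := ex3_b s116_pm_102 k5_pm_102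

theorem s118_pm_102 : ∃ t, chk3 f_pm_102 t 2 2 1 = true := ex3_b k0_pm_102 s117_pm_102

theorem s119_pm_102 : ∃ t, chk3 f_pm_102 t 2 1 1 = true := ex3_b s118_pm_102 k6_pm_102

theorem s120_pm_102 : ∃ t, chk3 f_pm_102 t 1 1 1 = true := ex3_a s119_pm_102 s113_pm_102

theorem c_pm_102 : CertN 536870912 536870912 0 536870912 335544320 67108864 3 true true false .npp 1 0 2
    ndN0q1 ndN0q0 pcN2 cut_pm_102 Ext.none :=
  certN1 (fam := true) (s1 := true) (s2 := false) (a := 1) (b := 0) (c := 2) (cn := .npp) (n1 := ndN0q1) (n2 := ndN0q0) (pc := pcN2) (cut := cut_pm_102) (xt := Ext.none) (P1 := 536870912) (W1 := 536870912) (P2 := 0) (W2 := 536870912) (P3 := 335544320) (W3 := 67108864) (N0 := 3)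
    rfl (fun _ => rfl) s120_pm_102

noncomputable def f_pm_112 : ℕ → ℕ → ℕ → ℕ → Bool := onCell 536870912 536870912 1073741824 536870912 335544320 67108864
    (rowN 3 1 true true false .dn 1 1 2 (qsf 536870912 536870912 536870912 536870912 2) ndN0q1 ndN0q1 pcN2 Cut.none Ext.none)

def k0_pm_112 : ∃ t, chk3 f_pm_112 t 2 2 1 = true :=
  ⟨(b (a (l 3) (l 3)) (b (a (b (b (l 3) (b (l 3) (b (a (a (a (b (l 3) (l 159081643239)) (l 3)) (l 3)) (l 3)) (a (b (b (a (a (l 16808288) (l 16809704)) (l 3)) (a (a (l 16807080) (l 16808496)) (a (l 163913480967) (l 16810312)))) (a (a (l 16805152) (l 16806608)) (a (l 16807744) (l 16808496)))) (b (b (a (l 3) (l 3)) (a (l 3) (a (l 16810224) (l 164450352407)))) (a (a (l 16808864) (l 16808856)) (a (l 16808464) (l 16807688)))))))) (a (a (b (b (a (l 16799016) (l 16800400)) (l 16812056)) (l 16781856)) (b (b (a (l 16801608) (l 16802512)) (l 16813488)) (l 16781560))) (a (b (a (l 16798120) (l 16798208)) (l 16779984)) (b (a (l 16797968) (a (l 16797552) (l 16797152))) (l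 16780832))))) (b (a (b (l 3) (a (a (b (l 3) (b (b (l 3) (l 174114028855)) (b (b (l 16809424) (l 16808296)) (l 16806536)))) (b (l 3) (b (b (l 3) (c (l 161229136711) (l 167134704103))) (b (b (l 16807928) (l 16806824)) (l 16805072))))) (b (l 1) (b (l 1) (b (l 1) (l 269005986119)))))) (l 1)) (a (b (a (a (b (l 16800752) (l 16792000)) (l 16858000)) (a (l 16857416) (l 16837624))) (a (l 16781776) (l 16782096))) (a (l 145525813159) (l 1))))) (a (a (b (a (b (l 16795896) (l 16821376)) (l 16851304)) (a (l 16859536) (l 16861336))) (b (b (l 16901872) (l 16926792)) (a (l 16860328) (l 16859848)))) (a (a (b (l 16809056) (l 16859312)) (b (l 16829792) (l 16860928))) (a (b (l 24192919175) (l 16860248)) (b (a (l 16801952) (l 1)) (l 16855752))))))), by decide +kernel⟩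

def k1_pm_112 : ∃ t, chk3 f_pm_112 t 2 3 1 = true :=
  ⟨(b (a (a (b (a (b (l 16912104) (l 16962792)) (b (l 16916656) (l 16969304))) (a (a (l 16969080) (l 17014992)) (b (l 17015760) (l 17058824)))) (b (b (a (l 16917680) (l 16916536)) (a (l 16976272) (l 16981392))) (a (l 17000056) (l 17048536)))) (b (a (b (a (l 16916712) (l 16916784)) (a (l 16981040) (l 16981968))) (b (a (l 16917416) (l 16914256)) (a (l 16980552) (l 16972240)))) (a (a (l 17022736) (l 17097800)) (b (a (l 17038248) (l 17023168)) (a (l 17090184) (l 17071568)))))) (a (b (a (b (a (a (b (l 17084664) (l 17100048)) (l 17096616)) (l 17096936)) (a (b (a (l 17109448) (l 17121624)) (l 17128776)) (b (l 17122816) (l 17137560)))) (a (b (l 17096928) (l 17128112)) (l 17114224))) (b (a (a (b (l 17146608) (l 17171368)) (b (l 17151232) (l 17165944))) (a (l 17154944) (l 17150824))) (a (a (b (l 17202096) (l 17237536)) (l 17259184)) (a (l 17283840) (l 17170280))))) (a (b (a (l 17119160) (l 17134208)) (a (l 17160248) (l 17164896))) (a (b (l 17159728)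 (l 17175056)) (b (l 17133864) (l 17192240)))))), by decide +kernel⟩

def k2_pm_112 : ∃ t, chk3 f_pm_112 t 3 1 1 = true :=
  ⟨(b (a (b (l 1) (b (l 1) (a (b (l 1) (a (l 36540947303) (l 1))) (l 1)))) (l 1)) (b (a (b (a (a (b (l 16906216) (l 16965344)) (b (l 45667793799) (l 16956936))) (a (b (l 1) (l 55868390679)) (l 1))) (a (b (a (l 17017616) (l 17012720)) (a (l 17061608) (l 17059192))) (b (a (l 17005776) (l 59089661143)) (a (l 17056792) (l 17030352))))) (b (l 1) (a (a (b (l 1) (a (l 17041328) (l 1))) (l 1)) (l 1)))) (a (a (a (b (l 17119864) (l 17174040)) (b (a (l 17114688) (l 17112000)) (l 17164072))) (b (a (b (l 17096880) (l 17126768)) (b (l 17096512) (l 17129720))) (b (l 17151880) (l 17168608)))) (b (a (b (a (a (l 71438211175) (l 91302420983)) (b (l 1) (l 102039704599))) (a (a (l 17130840) (l 17126816)) (b (l 99355434727) (l 17122816)))) (b (l 1) (a (b (l 1) (l 131030772711)) (l 1)))) (a (a (b (l 17156936) (l 17172568)) (b (b (l 17148056) (l 17167104)) (l 17206360))) (b (a (b (l 17159064)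 (l 17171928)) (b (l 1) (l 163243219399))) (a (b (l 17196928) (l 17214472)) (b (l 17215688) (l 17244984))))))))), by decide +kernel⟩

theorem s3_pm_112 : ∃ t, chk3 f_pm_112 t 2 1 1 = true := ex3_b k0_pm_112 k1_pm_112

theorem s4_pm_112 : ∃ t, chk3 f_pm_112 t 1 1 1 = true := ex3_a s3_pm_112 k2_pm_112

theorem c_pm_112 : CertN 536870912 536870912 536870912 536870912 335544320 67108864 3 true true false .dn 1 1 2
    ndN0q1 ndN0q1 pcN2 Cut.none Ext.none :=
  certN1 (fam := true) (s1 := true) (s2 := false) (a := 1) (b := 1) (c := 2) (cn := .dn) (n1 := ndN0q1) (n2 := ndN0q1) (pc := pcN2) (cut := Cut.none) (xt := Ext.none) (P1 := 536870912) (W1 := 536870912) (P2 := 536870912) (W2 := 536870912) (P3 := 335544320) (W3 := 67108864) (N0 := 3)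
    rfl (fun _ => rfl) s4_pm_112

noncomputable def cut_pm_113 : Cut := Cut.of [[⟨0, 1, 0, 67108864⟩, ⟨1, 1, 0, 67108864⟩, ⟨2, 2, 0, 16777216⟩]]

noncomputable def f_pm_113 : ℕ → ℕ → ℕ → ℕ → Bool := onCell 536870912 536870912 536870912 536870912 335544320 67108864
    (rowN 3 0 true true false .nn 1 1 3 (qsf 536870912 536870912 536870912 536870912 3) ndN0q1 ndN0q1 pcN3 cut_pm_113 Ext.none)

def k0_pm_113 : ∃ t, chk3 f_pm_113 t 2 1 1 = true :=
  ⟨(b (b (l 1) (a (l 1) (a (l 1) (b (l 1) (l 17075136))))) (b (a (a (l 1) (b (l 1) (a (l 1) (l 115998387431)))) (a (b (a (l 1) (l 17113080)) (b (l 17118928) (l 17131816))) (b (a (l 17146568) (l 17171384)) (b (l 17159528) (l 17158416))))) (a (b (a (a (l 1) (a (l 1) (b (l 1) (l 97207581831)))) (a (b (l 115461369399) (a (l 17073928) (l 17093024))) (b (l 17103584) (b (l 17112632) (l 17119568))))) (b (a (a (a (l 1) (b (l 1) (l 98281209559))) (c (l 17105328) (a (b (l 16996016) (l 17007368)) (l 17029608)))) (a (a (l 17071928) (l 17109584)) (l 17128288))) (a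 (a (c (a (l 17062264) (l 17090496)) (a (b (l 101502369255) (l 20434888599)) (b (l 16986832) (l 16997816)))) (c (l 17122984) (a (b (l 17018040) (l 17027816)) (l 17048496)))) (a (a (l 17107584) (l 17121144)) (l 17134904))))) (b (a (a (b (l 17130216) (l 17137640)) (b (l 17147200) (l 17148904))) (b (l 17154288) (a (l 17150024) (l 17141552)))) (a (a (b (l 17143008) (l 17142704)) (b (l 17147272) (l 17139848))) (b (a (l 17141616) (l 17127096)) (a (l 17127312) (l 17106456)))))))), by decide +kernel⟩

def k1_pm_113 : ∃ t, chk3 f_pm_113 t 3 2 1 = true :=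
  ⟨(a (b (b (l 1) (a (l 1) (b (l 1) (l 115998387431)))) (b (a (b (l 1) (l 17113080)) (a (l 17118928) (l 17131816))) (a (b (l 17146568) (l 17171384)) (a (l 17159528) (l 17158416))))) (b (a (b (a (l 1) (a (l 1) (b (l 1) (l 62310931303)))) (b (a (l 115461369399) (b (l 17073928) (l 17093024))) (a (l 17103584) (a (l 17112632) (l 17119568))))) (a (b (b (a (l 1) (b (l 1) (l 53184052951))) (c (l 17105328) (b (a (l 16996016) (l 17007368)) (l 17029608)))) (b (a (l 17097560) (l 17105392)) (l 17128288))) (b (b (c (b (l 17062264) (l 17090496)) (b (a (l 47278407143) (l 20434888599)) (a (l 16986832) (l 16997816)))) (c (l 17122984) (b (a (l 17018040) (l 17027816)) (l 17048496)))) (b (a (l 17111992) (l 17117160)) (l 17134904))))) (a (b (b (a (l 17130216) (l 17137640)) (a (l 17147200) (l 17148904))) (a (l 17154288) (b (l 17150024) (l 17141552)))) (b (b (a (l 17143008) (l 17142704)) (a (l 17147272) (l 17139848))) (a (b (l 17141616) (l 17127096)) (b (l 17127312) (l 17106456))))))), by decide +kernel⟩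

def k2_pm_113 : ∃ t, chk3 f_pm_113 t 3 3 1 = true :=
  ⟨(a (b (a (b (l 17191032) (l 17155584)) (b (l 17155584) (l 17118416))) (a (b (a (l 17133144) (l 17111288)) (a (b (l 17104720) (l 17078784)) (b (l 17075664) (l 17045688)))) (b (l 17066912) (b (l 17022592) (l 16989408))))) (b (b (a (b (l 17133144) (l 17111288)) (b (a (l 17104720) (l 17078784)) (a (l 17075664) (l 17045688)))) (a (l 17066912) (a (l 17022592) (l 16989408)))) (a (b (l 16993896) (b (a (l 16963712) (l 16923960)) (a (l 16928136) (l 16950384)))) (b (a (b (l 16963712) (l 16923960)) (b (l 16928136) (l 16950384))) (b (a (l 16885520) (a (l 16858440) (b (l 16848352) (l 16831304)))) (a (b (l 16858440) (a (l 16848352) (l 16831304))) (b (a (l 16830736) (a (l 16818648) (b (l 16813880) (l 16805144)))) (a (b (l 16818648) (a (l 16813880) (l 16805144))) (b (a (l 16803728) (a (l 16798184) (l 16793704))) (a (b (l 16798184) (l 16793704)) (b (a (l 16790400) (l 6)) (l 6)))))))))))), by decide +kernel⟩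

theorem s3_pm_113 : ∃ t, chk3 f_pm_113 t 3 1 1 = true := ex3_b k1_pm_113 k2_pm_113

theorem s4_pm_113 : ∃ t, chk3 f_pm_113 t 1 1 1 = true := ex3_a k0_pm_113 s3_pm_113

theorem c_pm_113 : CertN 536870912 536870912 536870912 536870912 335544320 67108864 3 true true false .nn 1 1 3
    ndN0q1 ndN0q1 pcN3 cut_pm_113 Ext.none :=
  certN0 (fam := true) (s1 := true) (s2 := false) (a := 1) (b := 1) (c := 3) (cn := .nn) (n1 := ndN0q1) (n2 := ndN0q1) (pc := pcN3) (cut := cut_pm_113) (xt := Ext.none) (P1 := 536870912) (W1 := 536870912) (P2 := 536870912) (W2 := 536870912) (P3 := 335544320) (W3 := 67108864) (N0 := 3)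
    rfl s4_pm_113

noncomputable def cut_pm_123 : Cut := Cut.of [[⟨0, 1, 0, 67108864⟩, ⟨1, 1, 0, 67108864⟩, ⟨2, 2, 0, 16777216⟩]]

noncomputable def f_pm_123 : ℕ → ℕ → ℕ → ℕ → Bool := onCell 1610612736 536870912 0 536870912 335544320 67108864
    (rowN 3 2 true true false .npn 1 2 3 (qsf 536870912 536870912 0 536870912 3) ndN0q1 ndN0q2 pcN3 cut_pm_123 Ext.none)

def k0_pm_123 : ∃ t, chk3 f_pm_123 t 2 1 1 = true :=
  ⟨(a (b (b (l 1) (a (l 1) (b (l 1) (a (l 1) (b (l 1) (l 16944000)))))) (b (a (l 1) (b (a (l 1) (l 16964936)) (a (l 16984328) (l 17004960)))) (a (b (a (l 1) (b (l 16989584) (l 17019080))) (b (a (a (l 1) (l 17006736)) (a (l 17033000) (l 17054104))) (a (b (c (l 17063728) (l 24729915447)) (c (l 17078784) (a (b (l 16954288) (l 16962768)) (l 16994552)))) (a (a (l 17013440) (l 17066864)) (l 17039904))))) (b (a (b (l 17023416) (l 17052472)) (b (l 17043064) (l 17070944))) (a (b (l 17077480) (c (l 17140472) (l 17068224))) (b (l 17095640) (l 17121656))))))) (b (b (a (a (b (l 16857152) (l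 16886752)) (b (b (l 16835328) (l 16851432)) (l 16875816))) (b (a (a (l 16831336) (l 16823056)) (b (a (l 16807600) (b (l 69491278983) (l 16804016))) (l 16818568))) (a (l 16861976) (b (l 16836224) (l 16854968))))) (a (b (a (l 16915368) (l 16908624)) (a (l 17005584) (l 16940608))) (a (b (l 16897784) (l 16933096)) (b (l 16883200) (l 16920528))))) (b (a (b (a (l 16973688) (l 16974760)) (a (l 17014800) (l 17015856))) (b (a (l 16969392) (l 16957992)) (a (l 17009496) (l 16996608)))) (b (a (a (l 17064312) (l 17062688)) (a (l 17053160) (l 17036696))) (a (a (b (l 17101792) (l 17126784)) (l 17109616)) (a (l 17096232) (l 17075184))))))), by decide +kernel⟩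

def k1_pm_123 : ∃ t, chk3 f_pm_123 t 6 1 1 = true :=
  ⟨(b (a (b (b (a (b (a (b (l 4) (l 71101889575)) (l 4)) (a (l 16805736) (b (a (l 16801080) (l 86134268055)) (l 16801664)))) (b (l 4) (a (b (l 4) (a (l 16799776) (l 94724198023))) (l 4)))) (a (b (a (l 16822168) (l 16812440)) (l 16836048)) (a (b (l 35131539575) (l 16820184)) (b (b (a (l 68417510599) (l 104924738919)) (l 48016436951)) (l 16809032))))) (a (b (l 16864832) (l 16903080)) (b (a (l 16848744) (l 16836944)) (a (l 16887024) (l 16875024))))) (b (b (l 4) (a (b (a (b (l 4) (a (l 75396823799) (l 4))) (l 4)) (a (b (l 51774527399) (l 16802344)) (b (a (l 95261062599) (l 4)) (a (l 16795784) (l 67343765255))))) (b (l 4) (l 4)))) (a (b (a (b (l 16815408) (l 16834136)) (b (l 16803328) (l 16821248))) (a (l 16862344) (l 16849048))) (b (a (b (b (a (l 16793904) (l 92576704919)) (l 37815884839)) (l 16808208)) (b (b (l 4) (a (l 66270019159) (l 4))) (a (l 16798736) (b (l 58753839975) (l 16796648))))) (a (l 16835320) (b (l 16812536) (l 16830352)))))))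 (b (a (b (a (l 16961936) (b (l 16909592) (l 16928168))) (a (l 16977848) (l 16954232))) (b (a (b (l 16883760) (l 16901920)) (b (l 16855392) (l 16872768))) (a (b (l 16918952) (l 16934760)) (a (l 16904400) (l 16930496))))) (a (b (a (l 17014328) (l 16987264)) (a (l 17047992) (l 17016136))) (a (b (l 16956624) (l 16980760)) (b (a (l 16931968) (l 16914736)) (l 16943920)))))), by decide +kernel⟩

def k2_pm_123 : ∃ t, chk3 f_pm_123 t 14 1 1 = true :=
  ⟨(b (b (l 4) (a (b (b (l 4) (a (b (a (b (l 4) (l 75396824471)) (l 4)) (a (l 16791400) (b (l 99556018647) (l 65196287911)))) (l 4))) (a (b (a (l 16802272) (l 35668393527)) (l 16815872)) (b (b (a (b (l 83986765559) (l 16789128)) (a (l 68954370839) (l 4))) (a (l 16793136) (a (l 16789056) (l 57143214375)))) (a (l 16805000) (l 16797840))))) (b (l 4) (a (b (a (b (l 4) (b (l 4) (a (l 72175604231) (l 4)))) (l 4)) (a (b (a (l 16789368) (l 53385123255)) (l 16794704)) (b (b (l 4) (a (l 16786944) (l 96334787159))) (b (l 50700770615) (l 16789728))))) (b (l 4) (a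 (b (l 4) (b (a (l 92039820279) (l 4)) (a (l 16785904) (l 88281723959)))) (l 4))))))) (b (a (b (a (b (l 16833088) (l 16849696)) (b (l 16817888) (l 16833904))) (b (a (l 16865144) (l 16848704)) (a (l 16879456) (l 16862360)))) (b (a (b (a (l 16806464) (l 16798896)) (l 16817976)) (b (a (b (a (l 16789776) (l 49090158935)) (l 16795136)) (b (a (b (a (l 16783776) (l 4)) (l 16785288)) (b (l 4) (l 84523658247))) (a (l 16789608) (l 48016415671)))) (a (l 16806016) (b (l 16794680) (l 16801576))))) (b (a (l 16832072) (a (l 16819648) (l 16811408))) (a (l 16845104) (l 16828048))))) (b (a (b (l 16883112) (l 16893736)) (b (b (l 16845600) (l 16935184)) (l 16900040))) (a (b (l 16944376) (l 16908816)) (a (l 16981976) (l 16946216)))))), by decide +kernel⟩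

def k3_pm_123 : ∃ t, chk3 f_pm_123 t 30 1 1 = true :=
  ⟨(b (l 4) (b (b (a (b (a (b (l 4) (a (b (a (l 66270015975) (l 93650428567)) (l 16784624)) (b (l 4) (b (a (l 16782880) (l 4)) (l 97945421255))))) (l 4)) (a (b (a (l 16789000) (b (l 16784184) (l 16786960))) (l 16793680)) (b (a (b (a (l 99019160983) (l 4)) (l 52311376999)) (b (l 4) (a (l 62511904311) (l 4)))) (a (l 16787936) (b (a (l 16783928) (l 16784256)) (l 16785776)))))) (b (l 4) (a (b (l 4) (a (b (a (b (l 4) (l 16782720)) (l 4)) (a (l 16783272) (l 83986775591))) (b (l 4) (a (b (l 4) (l 63048782871)) (l 4))))) (l 4)))) (a (b (a (l 16803280) (b (l 16792240) (l 16798336))) (a (l 16815432) (l 16807136))) (b (a (a (b (l 16786448) (l 16792336)) (b (b (a (l 16782512) (c (l 92039840007) (l 91502968103))) (l 16784168)) (l 16788392))) (b (a (b (l 104387859271) (a (l 54458852887) (b (l 4) (l 99019154103)))) (l 4)) (a (b (l 16783192) (l 16785896)) (b (a (b (c (l 105461604967) (l 107072216727)) (l 16781344)) (b (l 4) (b (l 4) (l 108145956727))))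 (a (l 16783032) (l 79154934695)))))) (b (a (l 16796120) (a (l 16790048) (l 16786016))) (a (l 16801688) (a (l 16795448) (l 16791288))))))) (b (b (a (a (l 16868544) (l 16838848)) (a (l 16809448) (b (l 16798440) (l 16803176)))) (a (l 16873904) (a (l 16818680) (b (l 16807368) (l 16832544))))) (b (a (l 16838672) (l 16820288)) (a (l 16842072) (l 16875616)))))), by decide +kernel⟩

def k4_pm_123 : ∃ t, chk3 f_pm_123 t 31 2 1 = true :=
  ⟨(l 4), by decide +kernel⟩

def k5_pm_123 : ∃ t, chk3 f_pm_123 t 31 6 1 = true :=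
  ⟨(a (b (l 4) (b (a (b (l 4) (a (b (l 4) (a (b (l 45868911543) (l 100629767255)) (l 4))) (l 4))) (l 4)) (a (b (a (b (a (l 16781832) (b (a (l 16785840) (l 4)) (l 16789504))) (l 16783352)) (b (a (l 99019148823) (l 4)) (a (b (c (l 98482282679) (l 16778392)) (l 16781096)) (b (l 4) (a (l 88281731511) (l 19025363687)))))) (a (l 16787144) (b (a (l 16782848) (c (l 77007447415) (l 78081188839))) (l 16784256)))) (b (l 4) (a (b (a (b (c (l 70028108471) (l 74323076423)) (b (a (l 16779952) (l 16778816)) (l 94187312935))) (l 4)) (a (l 16781208) (b (a (c (l 16779704) (l 16779248)) (l 4)) (a (l 16780328) (c (l 88281729159) (l 89355470647)))))) (a (b (l 4) (b (l 4) (l 118346500823))) (l 4))))))) (l 4)), by decide +kernel⟩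

def k6_pm_123 : ∃ t, chk3 f_pm_123 t 31 7 1 = true :=
  ⟨(a (b (b (a (b (a (l 16792048) (l 16787800)) (a (l 16796632) (l 16792272))) (a (b (a (l 16784624) (b (l 16781432) (l 16783640))) (l 16798416)) (b (a (b (b (a (l 85597375479) (c (l 42647687303) (l 46942654967))) (l 80228670007)) (l 16781536)) (b (a (c (l 105998470695) (l 110293437735)) (l 4)) (a (l 78618055079) (b (a (l 16777616) (l 45868912695)) (l 16779488))))) (a (l 16784680) (a (l 16783056) (l 16787224)))))) (a (b (a (l 16800848) (l 16796376)) (l 16802312)) (a (b (l 16791920) (l 16795328)) (b (a (l 16788584) (l 16786368)) (c (l 16812200) (l 16811616)))))) (b (a (l 16785568) (a (l 16800040) (b (l 16797272) (l 16796152)))) (a (l 16830104) (a (l 16823128) (l 16818472))))) (a (b (b (a (b (a (a (b (l 4) (a (b (l 4) (l 16777816)) (l 132305145495))) (l 4)) (l 4)) (a (b (a (l 76470569399) (b (c (a (l 16778840) (l 43721429127)) (l 45868913975)) (l 16779392))) (l 16786608)) (b (a (a (b (l 4) (a (l 16783992) (l 16778592))) (l 142505688231))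 (l 4)) (a (l 76470568375) (b (a (a (l 16778616) (l 16778424)) (l 79154912951)) (l 16784392)))))) (b (l 4) (a (b (l 4) (a (b (l 4) (a (a (l 16778448) (l 8824817767)) (l 104924718647))) (l 4))) (l 4)))) (a (a (b (l 16794640) (l 16787528)) (b (b (l 16786304) (l 16782824)) (l 6))) (b (a (b (b (a (l 80765533127) (a (c (l 28152172295) (l 31373398167)) (l 132842008775))) (a (l 16779872) (c (a (l 16779224) (l 16778576)) (l 16778584)))) (b (l 16785432) (l 6))) (b (a (b (l 4) (b (l 179549776615) (l 6))) (l 4)) (l 6))) (l 6)))) (a (a (b (b (l 16790280) (l 16792664)) (l 16815008)) (l 6)) (l 6))) (b (b (l 4) (b (b (l 4) (l 6)) (l 6))) (l 6)))), by decide +kernel⟩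

theorem s7_pm_123 : ∃ t, chk3 f_pm_123 t 31 3 1 = true := ex3_b k5_pm_123 k6_pm_123

theorem s8_pm_123 : ∃ t, chk3 f_pm_123 t 31 1 1 = true := ex3_b k4_pm_123 s7_pm_123

theorem s9_pm_123 : ∃ t, chk3 f_pm_123 t 15 1 1 = true := ex3_a k3_pm_123 s8_pm_123

theorem s10_pm_123 : ∃ t, chk3 f_pm_123 t 7 1 1 = true := ex3_a k2_pm_123 s9_pm_123

theorem s11_pm_123 : ∃ t, chk3 f_pm_123 t 3 1 1 = true := ex3_a k1_pm_123 s10_pm_123

theorem s12_pm_123 : ∃ t, chk3 f_pm_123 t 1 1 1 = true := ex3_a k0_pm_123 s11_pm_123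

theorem c_pm_123 : CertN 536870912 536870912 0 536870912 335544320 67108864 3 true true false .npn 1 2 3
    ndN0q1 ndN0q2 pcN3 cut_pm_123 Ext.none :=
  certN2 (fam := true) (s1 := true) (s2 := false) (a := 1) (b := 2) (c := 3) (cn := .npn) (n1 := ndN0q1) (n2 := ndN0q2) (pc := pcN3) (cut := cut_pm_123) (xt := Ext.none) (P1 := 536870912) (W1 := 536870912) (P2 := 0) (W2 := 536870912) (P3 := 335544320) (W3 := 67108864) (N0 := 3)
    rfl (fun _ => rfl) s12_pm_123

end Pool.Agent.Strip051.G.I5_16_3_8.Tab.C.NA00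

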