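import Pool.Agent.Strip051.G.I5_16_3_8.Tab

/-! # Certificates N2 (generated) -/

set_option linter.all false
set_option maxRecDepth 100000

namespace Pool.Agent.Strip051.G.I5_16_3_8.Tab.C.NA00

open Pool.Agent.Strip051.PB Pool.Agent.Strip051.PB.T
open Pool.Agent.Strip051.G.I5_16_3_8.Tab

noncomputable def cut_pm_202 : Cut := Cut.of [[⟨0, 1, 0, 67108864⟩, ⟨1, 0, 0, 67108864⟩, ⟨2, 1, 0, 67108864⟩], [⟨0, 1, 0, 33554432⟩, ⟨1, 0, 1, 33554432⟩, ⟨2, 1, 1, 33554432⟩]]

noncomputable def f_pm_202 : ℕ → ℕ → ℕ → ℕ → Bool := onCell 0 536870912 1073741824 536870912 335544320 67108864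
    (rowN 3 1 true true false .pp 2 0 2 (qsf 0 536870912 0 536870912 2) ndN0q2 ndN0q0 pcN2 cut_pm_202 Ext.none)

def k0_pm_202 : ∃ t, chk3 f_pm_202 t 2 1 1 = true :=
  ⟨(b (b (a (l 1) (b (l 1) (b (l 1) (a (l 1) (b (l 1) (a (l 1) (l 16562912))))))) (a (b (b (b (l 1) (a (l 16487176) (l 16468288))) (a (l 16484680) (l 16465176))) (a (b (l 16451232) (l 16468888)) (b (b (l 16453528) (l 16504128)) (a (l 16497000) (l 16471232))))) (b (a (b (a (b (l 16472880) (l 16464760)) (b (l 16487624) (l 16478776))) (l 16510144)) (b (b (a (l 16503992) (l 16521880)) (l 16545200)) (a (l 16478536) (l 16536560)))) (a (b (l 16474272) (l 16446264)) (b (a (l 16453976) (l 16468392)) (l 16480256)))))) (b (b (b (a (a (l 16489856) (l 16581760)) (a (l 16504504) (l 16534088))) (a (a (l 16515568) (a (l 16524880) (l 16528368))) (a (l 16508360) (a (l 16491064) (l 16481120))))) (a (a (b (l 16545872) (l 16580072)) (b (l 16598008) (l 16594912))) (b (a (l 16540704) (l 16547760)) (a (l 16606584) (l 16558552)))))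 (a (b (a (b (l 16691192) (l 16781824)) (b (l 16698984) (l 16799152))) (a (b (l 16839080) (l 16872184)) (b (l 16864312) (l 16904496)))) (b (b (a (l 16704536) (l 16645976)) (a (a (l 16817128) (l 16820392)) (a (l 16819488) (l 16819608)))) (a (b (a (l 16888840) (l 16905952)) (a (l 16933528) (l 16956616))) (b (l 16931680) (l 17004632))))))), by decide +kernel⟩

def k1_pm_202 : ∃ t, chk3 f_pm_202 t 3 8 1 = true :=
  ⟨(a (l 1) (a (a (a (l 1) (b (l 1) (b (l 1) (b (l 1) (a (b (l 1) (l 16668976)) (b (l 6) (l 16671088))))))) (b (l 1) (b (l 6) (b (l 6) (b (l 6) (a (l 16674336) (l 16678688))))))) (b (l 6) (b (l 6) (b (l 6) (b (l 6) (b (l 6) (a (a (l 16682104) (l 16686408)) (a (l 16717416) (a (l 16708248) (l 16716104))))))))))), by decide +kernel⟩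

def k2_pm_202 : ∃ t, chk3 f_pm_202 t 6 9 1 = true :=
  ⟨(a (b (l 1) (a (b (b (l 1) (l 16558768)) (b (l 16553936) (l 16548944))) (b (a (l 16577680) (a (l 16586448) (l 16592496))) (l 16594248)))) (b (a (b (l 1) (b (a (l 1) (a (l 1) (l 16631152))) (a (l 16609600) (a (l 16619352) (l 16625968))))) (b (b (l 1) (a (a (l 1) (b (l 1) (c (l 16651424) (l 16645200)))) (b (a (l 16653936) (l 16655480)) (a (l 16651608) (l 16653008))))) (a (b (a (b (l 16639176) (l 16636576)) (c (l 16647512) (b (l 16642696) (l 16640152)))) (c (l 16638768) (l 16632992))) (b (c (l 16651536) (l 16645720)) (c (l 16646624) (l 16640904)))))) (a (b (a (l 16612352) (b (l 16617400) (l 16611984))) (a (l 16591040) (l 16603592))) (b (a (b (l 16630568) (l 16625000)) (b (l 16638840) (l 16633664))) (a (l 16616376) (b (l 16628320) (l 16622784))))))), by decide +kernel⟩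

def k3_pm_202 : ∃ t, chk3 f_pm_202 t 7 9 1 = true :=
  ⟨(a (b (a (b (a (b (b (a (l 1) (l 16664152)) (a (l 16659656) (l 16661416))) (c (l 16659032) (l 16653944))) (b (a (l 16664656) (l 16666544)) (l 16670184))) (a (b (l 16651176) (l 16645744)) (b (l 16653744) (l 16647768)))) (b (a (b (l 16682560) (l 16662936)) (b (l 16694320) (l 16666224))) (a (b (l 16656408) (l 16649864)) (b (l 16659104) (l 16651992))))) (a (b (a (b (l 16640256) (l 16634704)) (l 16659720)) (a (l 16626248) (l 16626536))) (a (b (l 16661016) (l 16626848)) (b (l 16662320) (l 16627128))))) (b (a (b (a (b (l 16698240) (l 16690504)) (b (l 16691664) (l 16693776))) (a (a (l 16678328) (l 16679520)) (l 16681304))) (a (b (a (l 16704688) (c (l 16713208) (l 16712144))) (c (l 16699128) (l 16703096))) (a (b (c (l 16721344) (l 16719944)) (l 16705472)) (a (b (c (l 16706472) (l 16704816)) (l 16711568)) (b (b (l 16713408) (l 16705952)) (b (l 16698464) (l 16690936))))))) (a (b (a (l 16663576) (l 16664720)) (a (l 16648296)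 (l 16648336))) (a (b (l 16688208) (l 16672456)) (b (a (l 16690112) (c (l 16699624) (l 16697064))) (b (l 16682680) (l 16674752))))))), by decide +kernel⟩

def k4_pm_202 : ∃ t, chk3 f_pm_202 t 3 5 1 = true :=
  ⟨(a (b (a (b (a (b (l 16541176) (l 16530144)) (b (l 16562272) (l 16550528))) (a (l 16554040) (l 16594336))) (b (a (b (a (l 16579552) (l 16591792)) (l 16594352)) (b (a (l 16604256) (l 16634936)) (b (l 16641736) (b (l 16595008) (b (l 16592504) (l 16632504)))))) (a (b (l 16560152) (l 16545984)) (b (l 16625128) (l 16610544))))) (a (b (a (l 16505392) (b (l 16488952) (l 16494208))) (a (l 16477600) (l 16489216))) (a (b (l 16585752) (l 16529344)) (b (a (l 16560008) (l 16591720)) (b (l 16538400) (l 16518480)))))) (b (b (a (b (a (a (l 16614648) (l 16614160)) (a (l 16613664) (l 16634072))) (a (b (l 16605352) (b (l 16600864) (c (l 16640888) (l 16658776)))) (b (l 16624480) (b (l 16598968) (c (l 16639512) (l 16637544)))))) (b (b (a (l 16636696) (a (l 16649968) (l 16666616)))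 (a (l 16629160) (a (l 16641552) (l 16658104)))) (a (b (l 16622112) (b (l 16617472) (c (l 16631640) (l 16636152)))) (b (a (l 16632480) (l 16648792)) (a (b (l 16603832) (l 16628568)) (b (l 16640784) (c (l 16645816) (l 16642400)))))))) (b (a (a (l 16589408) (l 16628568)) (a (c (l 16604184) (l 16582872)) (a (l 16610152) (l 16625752)))) (a (a (l 16573920) (l 16609672)) (a (l 16591928) (a (l 16602720) (l 16619120)))))) (a (b (a (b (l 16578528) (l 16582080)) (b (l 16589664) (l 16547416))) (a (b (l 16563416) (l 16543312)) (l 16550904))) (a (b (b (l 16592160) (l 16586680)) (a (l 16571728) (c (l 16574736) (l 16565968)))) (b (a (c (l 16597840) (l 16591224)) (b (c (l 16596560) (l 16589872)) (c (l 16615080) (l 16585936)))) (a (c (b (l 16573968) (l 16574888)) (l 16606248)) (a (c (b (l 16588840) (l 16590872)) (l 16600016)) (b (c (l 16598952) (l 16588888)) (c (c (l 16620568) (l 16598880)) (l 16610864)))))))))), by decide +kernel⟩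

def k5_pm_202 : ∃ t, chk3 f_pm_202 t 6 12 1 = true :=
  ⟨(a (b (b (l 16480512) (l 16506272)) (a (l 16492856) (l 16504312))) (b (a (l 16505584) (b (l 16475880) (l 16473232))) (a (l 16505024) (c (l 16489960) (l 16479792))))), by decide +kernel⟩

def k6_pm_202 : ∃ t, chk3 f_pm_202 t 14 12 1 = true :=
  ⟨(b (a (b (l 16500600) (l 16508912)) (b (l 16539448) (l 16550360))) (a (b (l 16512104) (b (l 16497824) (l 16494112))) (b (a (l 16504584) (l 16528608)) (a (l 16498440) (l 16525048))))), by decide +kernel⟩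

def k7_pm_202 : ∃ t, chk3 f_pm_202 t 30 12 1 = true :=
  ⟨(a (b (b (l 16528824) (l 16552304)) (b (l 16553280) (c (l 16538976) (l 16523944)))) (b (b (l 16571208) (c (l 16561312) (l 16547872))) (b (c (l 16586464) (l 16550216)) (c (l 16597464) (l 16570376))))), by decide +kernel⟩

def k8_pm_202 : ∃ t, chk3 f_pm_202 t 31 24 1 = true :=
  ⟨(a (b (c (l 16599592) (l 16566112)) (c (b (l 16583800) (l 16609392)) (b (l 16569600) (l 16572976)))) (b (c (a (l 16617144) (a (l 16626144) (b (l 16619768) (c (l 16617264) (l 16609792))))) (a (l 16582688) (b (l 16592696) (l 16616560)))) (c (a (b (l 16602568) (c (l 16612240) (l 16603912))) (a (b (l 16612224) (c (l 16622576) (l 16613928))) (b (c (b (l 16621344) (l 16634880)) (l 16614696)) (a (c (b (l 16625984) (l 16629464)) (l 16629392)) (c (b (c (l 16631632) (l 16627280)) (c (b (l 16634384) (l 16640992)) (b (l 16629888) (l 16631176)))) (b (l 16620736) (c (l 16625928) (l 16621384)))))))) (a (b (l 16587256) (l 16591416)) (b (c (l 16624376)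 (l 16595320)) (a (l 16621904) (c (b (l 16610352) (l 16623440)) (l 16613184)))))))), by decide +kernel⟩

def k9_pm_202 : ∃ t, chk3 f_pm_202 t 62 25 1 = true :=
  ⟨(b (c (b (l 16613008) (a (l 16586728) (l 16599816))) (a (l 16569304) (l 16613096))) (c (a (l 16606600) (b (l 16598872) (l 16597624))) (a (l 16567856) (l 16600648)))), by decide +kernel⟩

def k10_pm_202 : ∃ t, chk3 f_pm_202 t 126 25 1 = true :=
  ⟨(b (c (b (c (l 16637424) (l 16607552)) (c (l 16616688) (l 16607456))) (b (l 16615184) (l 16593616))) (c (b (c (l 16615872) (l 16606384)) (c (l 16615304) (l 16605552))) (b (l 16592136) (l 16611872)))), by decide +kernel⟩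

def k11_pm_202 : ∃ t, chk3 f_pm_202 t 127 25 1 = true :=
  ⟨(b (c (a (b (c (b (l 16626288) (l 16626192)) (l 16616976)) (c (l 16636184) (l 16616232))) (b (c (a (c (l 16633024) (l 16628376)) (c (b (b (l 16636144) (l 16636024)) (c (a (l 16636312) (l 16640424)) (l 16634704))) (b (l 16631432) (c (l 16632344) (l 16629976))))) (b (b (l 16633656) (l 16633432)) (c (l 16630232) (l 16620280)))) (a (c (c (l 16637880) (l 16627848)) (c (l 16623048) (l 16618248))) (c (c (b (c (l 14) (a (l 16633792) (l 16637928))) (l 14)) (b (c (l 16632152) (l 16629752)) (c (a (l 16631272) (l 16632808)) (l 16629600)))) (c (b (l 16626152) (l 16631184)) (b (l 16621344) (l 16621056))))))) (b (a (c (l 16607792) (l 16598584)) (c (b (l 16613760) (l 16613192)) (l 16604056))) (c (a (l 16606744) (c (b (l 16615096) (l 16614704)) (l 16620528))) (b (l 16600336) (l 16610184))))) (c (a (c (b (c (l 14) (l 16622856)) (l 14)) (b (l 16615544) (l 16615128))) (a (c (b (c (l 14) (l 16627576)) (l 14)) (b (c (l 16622632)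 (l 16617688)) (c (l 16622504) (l 16617400)))) (b (c (c (l 14) (b (c (l 14) (a (l 16628736) (l 16630296))) (l 14))) (c (b (c (l 16627040) (l 16624560)) (b (l 16625744) (l 16630968))) (b (l 16620840) (l 16620696)))) (c (l 14) (c (b (c (l 14) (a (l 16623656) (l 16625264))) (l 14)) (b (c (l 16621904) (l 16619344)) (b (l 16620624) (l 16625888)))))))) (a (b (c (l 16605768) (l 16595968)) (c (l 16605064) (l 16594976))) (b (c (c (b (l 16614376) (l 16614128)) (b (l 16609424) (l 16609096))) (c (l 16604240) (l 16599232))) (a (c (l 16620224) (l 16599488)) (c (c (b (l 16615504) (l 16615432)) (b (l 16610376) (l 16610224))) (c (l 16605104) (l 16599912)))))))), by decide +kernel⟩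

def k12_pm_202 : ∃ t, chk3 f_pm_202 t 6 13 1 = true :=
  ⟨(a (b (a (l 16482000) (l 16487864)) (a (l 16528880) (l 16523632))) (b (a (l 16493304) (b (l 16458328) (l 16457936))) (a (l 16512240) (b (l 16467768) (l 16547576))))), by decide +kernel⟩

def k13_pm_202 : ∃ t, chk3 f_pm_202 t 14 13 1 = true :=
  ⟨(b (a (b (a (l 16449448) (l 16465600)) (a (l 16447240) (l 16480712))) (b (c (l 16535968) (l 16522480)) (a (l 16488184) (l 16526128)))) (a (a (b (l 16439312) (l 16537704)) (b (l 16464896) (l 16633424))) (b (a (l 16485552) (c (l 16602560) (l 16478936))) (c (a (l 16647744) (l 16668848)) (l 16501200))))), by decide +kernel⟩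

def k14_pm_202 : ∃ t, chk3 f_pm_202 t 30 13 1 = true :=
  ⟨(b (a (b (c (l 16536160) (l 16520280)) (c (l 16553296) (l 16513816))) (b (c (l 16583688) (l 16545288)) (c (l 16584904) (l 16561536)))) (a (b (c (l 16627464) (l 16507552)) (c (l 16692664) (l 16521928))) (b (c (b (l 16637968) (l 16672008)) (l 16557584)) (c (b (l 16703952) (l 16733952)) (b (l 16536256) (l 16570984)))))), by decide +kernel⟩

def k15_pm_202 : ∃ t, chk3 f_pm_202 t 31 26 1 = true :=
  ⟨(a (b (c (a (l 16582664) (b (l 16596608) (l 16595816))) (a (l 16564040) (l 16597680))) (c (a (l 16596088) (b (l 14) (l 16641992))) (b (l 16589360) (l 16588328)))) (b (c (c (l 14) (b (a (l 16604984) (c (l 14) (a (l 16612408) (b (a (l 16617392) (c (l 14) (a (l 16618560) (l 16620216)))) (l 14))))) (a (l 16604680) (l 14)))) (a (b (l 16610904) (c (l 16594392) (l 16584080))) (a (b (c (l 16604640) (l 16594264)) (c (l 16604512) (l 16593840))) (a (c (b (c (l 16612160) (l 16606896)) (c (l 16612328) (l 16606912))) (b (l 16598976)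 (l 16598760))) (b (b (c (c (c (l 16616752) (l 16614112)) (l 16610152)) (l 16602200)) (c (c (b (l 16615488) (l 16620792)) (l 16610152)) (l 16607328))) (c (c (b (c (l 14) (a (l 16613464) (l 16615168))) (l 14)) (b (c (l 16611592) (l 16608872)) (b (l 16610344) (l 16610448)))) (c (b (l 16604784) (l 16604864)) (b (l 16599320) (l 16599320))))))))) (a (c (c (b (l 14) (a (l 16697600) (l 16706048))) (l 14)) (b (c (l 16594104) (l 16583528)) (c (l 16594112) (l 16583272)))) (c (b (l 14) (b (l 14) (c (c (l 16748016) (l 14)) (l 14)))) (a (b (c (l 16615168) (l 16593720)) (c (l 14) (l 16593920))) (a (b (c (c (l 14) (l 16607240)) (c (l 16601664) (l 16596064))) (c (l 14) (c (l 16602168) (l 16596424)))) (b (c (c (l 14) (b (c (l 14) (a (l 16608360) (l 16610112))) (l 14))) (c (b (c (l 16606432) (l 16603624)) (b (l 16605208) (l 16605352))) (b (l 16599408) (l 16599576)))) (c (l 14) (c (b (b (l 16610760) (l 14)) (l 14)) (b (c (l 16601280) (l 16598384)) (b (l 16600080) (l 16600272)))))))))))),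 by decide +kernel⟩

def k16_pm_202 : ∃ t, chk3 f_pm_202 t 31 27 1 = true :=
  ⟨(a (b (c (b (a (l 16660960) (l 16635264)) (a (l 16694424) (l 16668312))) (a (l 16558792) (b (l 16573944) (l 16573776)))) (c (b (a (l 16725840) (l 16720320)) (c (l 16801712) (l 16723816))) (a (l 16569480) (b (l 14) (l 16614912))))) (c (b (b (c (a (l 16714320) (a (l 16705848) (c (l 16776288) (b (l 14) (l 16744392))))) (l 14)) (a (c (l 16766704) (a (l 16682264) (l 16691112))) (b (c (l 16775464) (l 14)) (c (l 16790456) (c (l 16732216) (l 14)))))) (a (b (c (l 16796184) (l 16697472)) (c (l 16823856) (l 16748296))) (c (b (l 16812088) (l 16839368)) (b (b (c (l 16747584) (l 14)) (a (l 16739112) (l 16748008))) (b (l 16758264) (l 16772528)))))) (c (c (b (l 14) (b (l 14) (a (l 16691240) (b (l 14) (l 16717120))))) (l 14)) (b (b (a (l 16583320) (c (l 14) (a (l 16591552) (b (a (l 16596912) (c (l 14) (l 16603048))) (l 14))))) (a (l 16583680) (l 14))) (l 14))))), by decide +kernel⟩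

def k17_pm_202 : ∃ t, chk3 f_pm_202 t 6 7 1 = true :=
  ⟨(b (b (a (a (l 16676880) (l 16668832)) (a (b (l 16627728) (l 16688032)) (b (l 16615992) (l 16675968)))) (a (a (l 16820288) (l 16758528)) (a (b (l 16770128) (l 16872880)) (b (a (l 16766296) (l 16763664)) (l 16880560))))) (a (b (a (l 16961008) (l 16982696)) (l 17058008)) (b (a (b (l 16964344) (l 17043544)) (b (l 16983328) (l 17072312))) (a (l 17138848) (l 17139672))))), by decide +kernel⟩

def k18_pm_202 : ∃ t, chk3 f_pm_202 t 14 14 1 = true :=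
  ⟨(b (a (a (b (l 16605640) (l 16665712)) (b (a (l 16601040) (l 16607248)) (a (l 16660504) (l 16664216)))) (b (a (l 16622192) (c (l 16727200) (l 16561184))) (a (l 16657728) (c (l 16778656) (l 16621368))))) (b (a (a (l 16719000) (b (a (l 16723736) (l 16726504)) (l 16794824))) (b (a (l 16740576) (l 16740608)) (a (l 16809840) (l 16829688)))) (a (a (l 16887120) (l 16850768)) (a (l 16906216) (l 16902248))))), by decide +kernel⟩

def k19_pm_202 : ∃ t, chk3 f_pm_202 t 15 14 1 = true :=
  ⟨(b (a (b (a (c (l 16750112) (l 16588704)) (c (b (l 16762128) (l 16788600)) (b (l 16603672) (l 16634464)))) (a (c (l 16800808) (b (l 16633744) (l 16661616))) (c (b (l 16813464) (l 16836840)) (b (l 16663464) (l 16690800))))) (a (b (c (b (l 16727480) (l 16816280)) (b (a (l 16628864) (l 16625648)) (a (l 16659120) (l 16655512)))) (c (b (l 16840600) (l 16863464)) (b (a (l 16687624) (l 16704632)) (a (l 16714496) (l 16710192))))) (b (b (c (a (l 16792200) (c (l 16864984) (l 16793120))) (c (a (l 16681368)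 (b (c (l 16731728) (l 14)) (a (l 16723240) (l 16732536)))) (l 14))) (c (c (l 16881592) (l 16810904)) (b (c (a (l 16723816) (l 16741880)) (l 14)) (a (c (l 16737608) (l 16665560)) (c (l 16755464) (c (l 16692200) (l 14))))))) (c (b (l 16828064) (l 16892272)) (a (b (c (l 16757544) (l 16665984)) (a (l 16744088) (l 16684752))) (c (b (l 16775104) (l 16799952)) (b (b (c (l 16716592) (l 14)) (a (l 16708088) (l 16696800))) (b (l 16705296) (l 16739232))))))))) (a (b (a (b (c (l 16855480) (l 16713608)) (l 16830200)) (b (c (l 16878664) (l 16699440)) (c (l 16936056) (l 16811936)))) (a (c (l 16995408) (l 16886296)) (b (l 16932808) (l 16987528)))) (b (c (b (a (l 16903768) (l 16910328)) (a (l 16958656) (l 16984944))) (a (b (a (l 16763744) (l 16737432)) (a (l 16831904) (l 16846136))) (b (a (b (l 16778488) (l 16812336)) (c (l 16844808) (b (a (l 16758760) (l 16768280)) (l 16799176)))) (a (l 16861976) (l 16879440))))) (b (c (l 17022104) (a (l 16902416) (l 16932336))) (a (l 17009664) (l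 17033648)))))), by decide +kernel⟩

def k20_pm_202 : ∃ t, chk3 f_pm_202 t 7 15 1 = true :=
  ⟨(b (a (a (b (a (l 16998656) (l 17009560)) (l 17102824)) (b (c (l 17071040) (l 16982208)) (l 17125528))) (b (a (a (l 17046976) (l 17063168)) (a (l 17080760) (l 17099024))) (a (l 17143768) (l 17164424)))) (a (a (b (l 17188192) (l 17260896)) (b (l 17211120) (l 17282080))) (b (a (l 17215880) (l 17222000)) (l 17121576)))), by decide +kernel⟩

theorem s21_pm_202 : ∃ t, chk3 f_pm_202 t 7 14 1 = true := ex3_a k18_pm_202 k19_pm_202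

theorem s22_pm_202 : ∃ t, chk3 f_pm_202 t 7 7 1 = true := ex3_b s21_pm_202 k20_pm_202

theorem s23_pm_202 : ∃ t, chk3 f_pm_202 t 3 7 1 = true := ex3_a k17_pm_202 s22_pm_202

theorem s24_pm_202 : ∃ t, chk3 f_pm_202 t 31 13 1 = true := ex3_b k15_pm_202 k16_pm_202

theorem s25_pm_202 : ∃ t, chk3 f_pm_202 t 15 13 1 = true := ex3_a k14_pm_202 s24_pm_202

theorem s26_pm_202 : ∃ t, chk3 f_pm_202 t 7 13 1 = true := ex3_a k13_pm_202 s25_pm_202

theorem s27_pm_202 : ∃ t, chk3 f_pm_202 t 3 13 1 = true := ex3_a k12_pm_202 s26_pm_202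

theorem s28_pm_202 : ∃ t, chk3 f_pm_202 t 63 25 1 = true := ex3_a k10_pm_202 k11_pm_202

theorem s29_pm_202 : ∃ t, chk3 f_pm_202 t 31 25 1 = true := ex3_a k9_pm_202 s28_pm_202

theorem s30_pm_202 : ∃ t, chk3 f_pm_202 t 31 12 1 = true := ex3_b k8_pm_202 s29_pm_202

theorem s31_pm_202 : ∃ t, chk3 f_pm_202 t 15 12 1 = true := ex3_a k7_pm_202 s30_pm_202

theorem s32_pm_202 : ∃ t, chk3 f_pm_202 t 7 12 1 = true := ex3_a k6_pm_202 s31_pm_202

theorem s33_pm_202 : ∃ t, chk3 f_pm_202 t 3 12 1 = true := ex3_a k5_pm_202 s32_pm_202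

theorem s34_pm_202 : ∃ t, chk3 f_pm_202 t 3 6 1 = true := ex3_b s33_pm_202 s27_pm_202

theorem s35_pm_202 : ∃ t, chk3 f_pm_202 t 3 3 1 = true := ex3_b s34_pm_202 s23_pm_202

theorem s36_pm_202 : ∃ t, chk3 f_pm_202 t 3 9 1 = true := ex3_a k2_pm_202 k3_pm_202

theorem s37_pm_202 : ∃ t, chk3 f_pm_202 t 3 4 1 = true := ex3_b k1_pm_202 s36_pm_202

theorem s38_pm_202 : ∃ t, chk3 f_pm_202 t 3 2 1 = true := ex3_b s37_pm_202 k4_pm_202

theorem s39_pm_202 : ∃ t, chk3 f_pm_202 t 3 1 1 = true := ex3_b s38_pm_202 s35_pm_202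

theorem s40_pm_202 : ∃ t, chk3 f_pm_202 t 1 1 1 = true := ex3_a k0_pm_202 s39_pm_202

theorem c_pm_202 : CertN 0 536870912 0 536870912 335544320 67108864 3 true true false .pp 2 0 2
    ndN0q2 ndN0q0 pcN2 cut_pm_202 Ext.none :=
  certN1 (fam := true) (s1 := true) (s2 := false) (a := 2) (b := 0) (c := 2) (cn := .pp) (n1 := ndN0q2) (n2 := ndN0q0) (pc := pcN2) (cut := cut_pm_202) (xt := Ext.none) (P1 := 0) (W1 := 536870912) (P2 := 0) (W2 := 536870912) (P3 := 335544320) (W3 := 67108864) (N0 := 3)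
    rfl (fun _ => rfl) s40_pm_202

noncomputable def f_pm_203 : ℕ → ℕ → ℕ → ℕ → Bool := onCell 0 536870912 0 536870912 335544320 67108864
    (rowN 3 0 true true false .up 2 0 3 (qsf 0 536870912 0 536870912 3) ndN0q2 ndN0q0 pcN3 Cut.none Ext.none)

def k0_pm_203 : ∃ t, chk3 f_pm_203 t 1 1 1 = true :=
  ⟨(a (b (l 1) (b (b (l 1) (b (a (a (l 1) (l 1)) (l 1)) (a (a (l 16860992) (a (l 16870256) (l 16872872))) (a (a (l 78416886855) (a (l 84322479879) (l 73585053495))) (b (l 1) (l 72511187015)))))) (a (b (b (a (l 16871536) (l 16887344)) (a (l 16874008) (l 16895048))) (b (a (l 16868424) (l 16894520)) (a (l 16858088) (l 16888648)))) (b (a (b (a (l 16893584) (b (l 16887488) (l 16899168))) (l 16909200)) (b (b (l 16865776) (l 16884792)) (a (l 16910616) (l 16904952)))) (a (b (l 16916216) (l 16917040)) (b (l 16948480) (l 16980768))))))) (b (l 1) (b (a (l 1) (l 1)) (a (b (a (b (a (l 16854840) (l 74121592759)) (a (l 16899504) (l 16893952))) (b (a (l 80563985863) (l 1)) (a (l 16887240)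 (l 92912158407)))) (a (b (l 16932320) (l 16956248)) (b (l 16937032) (l 16975288)))) (b (a (b (l 1) (a (l 107407920327) (l 1))) (l 1)) (a (b (a (l 16939392) (b (l 105260264231) (l 16950696))) (a (l 16990064) (l 16995456))) (b (a (l 127272225943) (l 1)) (a (b (l 16886504) (l 17003024)) (b (l 134788499735) (c (l 17045752) (l 102039234935))))))))))), by decide +kernel⟩

theorem c_pm_203 : CertN 0 536870912 0 536870912 335544320 67108864 3 true true false .up 2 0 3
    ndN0q2 ndN0q0 pcN3 Cut.none Ext.none :=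
  certN0 (fam := true) (s1 := true) (s2 := false) (a := 2) (b := 0) (c := 3) (cn := .up) (n1 := ndN0q2) (n2 := ndN0q0) (pc := pcN3) (cut := Cut.none) (xt := Ext.none) (P1 := 0) (W1 := 536870912) (P2 := 0) (W2 := 536870912) (P3 := 335544320) (W3 := 67108864) (N0 := 3)
    rfl k0_pm_203

noncomputable def cut_pm_213 : Cut := Cut.of [[⟨0, 1, 0, 67108864⟩, ⟨1, 1, 0, 67108864⟩, ⟨2, 2, 0, 16777216⟩]]

noncomputable def f_pm_213 : ℕ → ℕ → ℕ → ℕ → Bool := onCell 0 536870912 1610612736 536870912 335544320 67108864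
    (rowN 3 1 true true false .pnn 2 1 3 (qsf 0 536870912 536870912 536870912 3) ndN0q2 ndN0q1 pcN3 cut_pm_213 Ext.none)

def k0_pm_213 : ∃ t, chk3 f_pm_213 t 1 2 1 = true :=
  ⟨(b (a (a (l 1) (b (l 1) (a (l 1) (b (l 1) (a (l 1) (l 16944000)))))) (a (b (l 1) (a (b (l 1) (l 16964936)) (b (l 16984328) (l 17004960)))) (b (a (b (l 1) (a (l 16989584) (l 17019080))) (a (b (b (l 1) (l 17006736)) (b (l 17033000) (l 17054104))) (b (a (c (l 17063728) (l 24729915447)) (c (l 17078784) (b (a (l 16954288) (l 16962768)) (l 16994552)))) (a (l 17064760) (b (l 17068856) (l 17089256)))))) (a (b (a (l 17023416) (l 17052472)) (a (l 17043064) (l 17070944))) (b (a (l 17077480) (c (l 17140472) (l 17068224))) (a (l 17095640) (l 17121656))))))) (a (a (b (b (a (l 16857152) (l 16886752)) (a (a (l 16835328) (l 16851432)) (l 16875816))) (a (b (b (l 16831336) (l 16823056)) (a (b (l 16807600) (a (l 69491278983) (l 16804016))) (l 16818568))) (b (l 16861976) (a (l 16836224) (l 16854968))))) (b (a (b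 (l 16915368) (l 16908624)) (b (l 17005584) (l 16940608))) (b (a (l 16897784) (l 16933096)) (a (l 16883200) (l 16920528))))) (a (b (a (b (l 16973688) (l 16974760)) (b (l 17014800) (l 17015856))) (a (b (l 16969392) (l 16957992)) (b (l 17009496) (l 16996608)))) (a (b (b (l 17064312) (l 17062688)) (b (l 17053160) (l 17036696))) (b (b (a (l 17101792) (l 17126784)) (l 17109616)) (b (l 17096232) (l 17075184))))))), by decide +kernel⟩

def k1_pm_213 : ∃ t, chk3 f_pm_213 t 1 6 1 = true :=
  ⟨(a (b (a (a (b (a (b (a (l 4) (l 71101889575)) (l 4)) (b (l 16805736) (a (b (l 16801080) (l 86134268055)) (l 16801664)))) (a (l 4) (b (a (l 4) (b (l 16799776) (l 94724198023))) (l 4)))) (b (a (b (l 16822168) (l 16812440)) (l 16836048)) (b (a (l 35131539575) (l 16820184)) (a (a (b (l 68417510599) (l 104924738919)) (l 48016436951)) (l 16809032))))) (b (a (l 16864832) (l 16903080)) (a (b (l 16848744) (l 16836944)) (b (l 16887024) (l 16875024))))) (a (a (l 4) (b (a (b (a (l 4) (b (l 75396823799)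 (l 4))) (l 4)) (b (a (l 51774527399) (l 16802344)) (a (b (l 95261062599) (l 4)) (b (l 16795784) (l 67343765255))))) (a (l 4) (l 4)))) (b (a (b (a (l 16815408) (l 16834136)) (a (l 16803328) (l 16821248))) (b (l 16862344) (l 16849048))) (a (b (a (a (b (l 16793904) (l 92576704919)) (l 37815884839)) (l 16808208)) (a (a (l 4) (b (l 66270019159) (l 4))) (b (l 16798736) (a (l 58753839975) (l 16796648))))) (b (l 16835320) (a (l 16812536) (l 16830352))))))) (a (b (a (b (l 16961936) (a (l 16909592) (l 16928168))) (b (l 16977848) (l 16954232))) (a (b (a (l 16883760) (l 16901920)) (a (l 16855392) (l 16872768))) (b (a (l 16918952) (l 16934760)) (b (l 16904400) (l 16930496))))) (b (a (b (l 17014328) (l 16987264)) (b (l 17047992) (l 17016136))) (b (a (l 16956624) (l 16980760)) (a (b (l 16931968) (l 16914736)) (l 16943920)))))), by decide +kernel⟩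

def k2_pm_213 : ∃ t, chk3 f_pm_213 t 1 14 1 = true :=
  ⟨(a (a (l 4) (b (a (a (l 4) (b (a (b (a (l 4) (l 75396824471)) (l 4)) (b (l 16791400) (a (l 99556018647) (l 65196287911)))) (l 4))) (b (a (b (l 16802272) (l 35668393367)) (l 16815872)) (a (a (b (a (l 83986765559) (l 16789128)) (b (l 68954370839) (l 4))) (b (l 16793136) (b (l 16789056) (l 57143214375)))) (b (l 16805000) (l 16797840))))) (a (l 4) (b (a (b (a (l 4) (a (l 4) (b (l 72175604199) (l 4)))) (l 4)) (b (a (b (l 16789368) (l 53385123255)) (l 16794704)) (a (a (l 4) (b (l 16786944) (l 96334787159))) (b (l 16789664) (l 50700772087))))) (a (l 4) (b (a (l 4) (a (b (l 92039820279) (l 4)) (b (l 16785904) (l 88281723959)))) (l 4))))))) (a (b (a (b (a (l 16833088) (l 16849696)) (a (l 16817888) (l 16833904))) (a (b (l 16865144) (l 16848704)) (b (l 16879456) (l 16862360)))) (a (b (a (b (l 16806464) (l 16798896)) (l 16817976)) (a (b (a (b (l 16789776) (l 49090158935)) (l 16795136)) (b (a (a (b (l 16783776) (l 4)) (l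 16785288)) (l 16789608)) (a (a (l 4) (l 84523658247)) (l 48016415671)))) (b (l 16806016) (a (l 16794680) (l 16801576))))) (a (b (l 16832072) (b (l 16819648) (l 16811408))) (b (l 16845104) (l 16828048))))) (a (b (a (l 16883112) (l 16893736)) (a (a (l 16845600) (l 16935184)) (l 16900040))) (b (a (l 16944376) (l 16908816)) (b (l 16981976) (l 16946216)))))), by decide +kernel⟩

def k3_pm_213 : ∃ t, chk3 f_pm_213 t 1 30 1 = true :=
  ⟨(a (l 4) (a (a (b (a (b (a (l 4) (b (a (b (l 66270015975) (l 93650428567)) (l 16784624)) (a (l 4) (a (b (l 16782880) (l 4)) (l 97945421255))))) (l 4)) (b (a (b (l 16789000) (a (l 16784184) (l 16786960))) (l 16793680)) (a (b (a (b (l 99019160823) (l 4)) (l 51774506087)) (a (l 4) (b (l 62511903975) (l 4)))) (b (l 16787936) (a (b (l 16783928) (l 16783928)) (l 16785776)))))) (a (l 4) (b (a (l 4) (b (a (b (a (l 4) (l 16782720)) (l 4)) (b (l 16783272) (l 83986775591))) (a (l 4) (b (a (l 4) (l 63048782871)) (l 4))))) (l 4)))) (b (a (b (l 16803280)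 (a (l 16792240) (l 16798336))) (b (l 16815432) (l 16807136))) (a (b (b (a (l 16786448) (l 16792336)) (a (a (b (l 16782512) (c (l 92039840007) (l 91502968103))) (l 16784168)) (l 16788392))) (a (b (a (l 104387859271) (b (l 54458852887) (a (l 4) (l 99019154103)))) (l 4)) (b (a (l 16783192) (l 16785896)) (a (b (a (c (l 105461604967) (l 107072216727)) (l 16781344)) (a (l 4) (a (l 4) (l 108145956727)))) (b (l 16783032) (l 79154934695)))))) (a (b (l 16796120) (b (l 16790048) (l 16786016))) (b (l 16801688) (b (l 16795448) (l 16791288))))))) (a (a (b (b (l 16868544) (l 16838848)) (b (l 16809448) (a (l 16798440) (l 16803176)))) (b (l 16873904) (b (l 16818680) (a (l 16807368) (l 16832544))))) (a (b (l 16838672) (l 16820288)) (b (l 16842072) (l 16875616)))))), by decide +kernel⟩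

def k4_pm_213 : ∃ t, chk3 f_pm_213 t 2 31 1 = true :=
  ⟨(l 4), by decide +kernel⟩

def k5_pm_213 : ∃ t, chk3 f_pm_213 t 6 31 1 = true :=
  ⟨(b (a (l 4) (a (b (a (l 4) (b (a (l 4) (b (a (l 45868911543) (l 100629767255)) (l 4))) (l 4))) (l 4)) (b (a (b (a (b (l 16781832) (a (b (l 16785840) (l 4)) (l 16789504))) (l 16783352)) (a (b (l 99019148823) (l 4)) (b (a (c (l 98482282679) (l 16778392)) (l 16781096)) (a (l 4) (b (l 88281731511) (l 19025363687)))))) (b (l 16787144) (a (b (l 16782848) (c (l 77007447415) (l 78081188839))) (l 16784256)))) (a (l 4) (b (a (b (a (c (l 70028108471) (l 74323076423)) (a (b (l 16779952) (l 16778816)) (l 94187312935))) (l 4)) (b (l 16781208) (a (b (c (l 16779704) (l 16779248)) (l 4)) (b (l 16780328) (c (l 88281729159) (l 89355470647)))))) (b (a (l 4) (a (l 4) (l 118346500823))) (l 4))))))) (l 4)), by decide +kernel⟩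

def k6_pm_213 : ∃ t, chk3 f_pm_213 t 7 31 1 = true :=
  ⟨(b (a (a (b (a (b (l 16792048) (l 16787800)) (b (l 16796632) (l 16792272))) (b (a (b (l 16784624) (a (l 16781432) (l 16783640))) (l 16798416)) (a (b (a (a (b (l 85597375479) (c (l 42647687303) (l 46942654967))) (l 80228670007)) (l 16781536)) (a (b (c (l 105998470695) (l 110293437735)) (l 4)) (a (b (l 16784728) (b (l 16777616) (l 45868912695))) (l 77544313287)))) (a (b (l 16783656) (l 16781520)) (l 16795104))))) (b (a (b (l 16800848) (l 16796376)) (l 16802312)) (b (a (l 16791920) (l 16795328)) (a (b (l 16788584) (l 16786368)) (c (l 16812200) (l 16811616)))))) (a (b (l 16785568) (b (l 16800040) (a (l 16797272) (l 16796152)))) (b (l 16830104) (b (l 16823128) (l 16818472))))) (b (a (a (b (a (b (a (l 4) (a (l 4) (b (b (l 16777816) (l 46942655111)) (l 4)))) (l 4)) (b (a (b (l 76470569399) (a (c (b (l 16778840) (l 43721429127)) (l 45868913975)) (l 16779392))) (l 16786608)) (a (a (l 4) (b (a (l 63048784487) (b (l 16778912)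 (l 16778328))) (l 4))) (b (l 76470568375) (a (a (l 77544300567) (b (l 16778784) (l 16778112))) (l 16784392)))))) (a (l 4) (b (a (l 4) (a (l 4) (b (a (l 100629752023) (b (l 16778608) (l 16779096))) (l 4)))) (l 4)))) (b (a (b (l 16794640) (a (l 16786304) (l 16782824))) (b (l 16787528) (l 6))) (a (b (a (a (b (l 80228662215) (b (c (l 28152172295) (l 31373398167)) (l 133378879687))) (b (l 16779872) (c (b (l 16779224) (l 16778576)) (l 16778584)))) (a (l 16785432) (l 6))) (a (a (l 4) (a (a (l 4) (l 6)) (l 6))) (l 6))) (l 6)))) (b (b (a (a (l 16790280) (l 16792664)) (l 16815008)) (l 6)) (l 6))) (a (a (l 4) (a (a (l 4) (l 6)) (l 6))) (l 6)))), by decide +kernel⟩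

theorem s7_pm_213 : ∃ t, chk3 f_pm_213 t 3 31 1 = true := ex3_a k5_pm_213 k6_pm_213

theorem s8_pm_213 : ∃ t, chk3 f_pm_213 t 1 31 1 = true := ex3_a k4_pm_213 s7_pm_213

theorem s9_pm_213 : ∃ t, chk3 f_pm_213 t 1 15 1 = true := ex3_b k3_pm_213 s8_pm_213

theorem s10_pm_213 : ∃ t, chk3 f_pm_213 t 1 7 1 = true := ex3_b k2_pm_213 s9_pm_213

theorem s11_pm_213 : ∃ t, chk3 f_pm_213 t 1 3 1 = true := ex3_b k1_pm_213 s10_pm_213

theorem s12_pm_213 : ∃ t, chk3 f_pm_213 t 1 1 1 = true := ex3_b k0_pm_213 s11_pm_213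

theorem c_pm_213 : CertN 0 536870912 536870912 536870912 335544320 67108864 3 true true false .pnn 2 1 3
    ndN0q2 ndN0q1 pcN3 cut_pm_213 Ext.none :=
  certN1 (fam := true) (s1 := true) (s2 := false) (a := 2) (b := 1) (c := 3) (cn := .pnn) (n1 := ndN0q2) (n2 := ndN0q1) (pc := pcN3) (cut := cut_pm_213) (xt := Ext.none) (P1 := 0) (W1 := 536870912) (P2 := 536870912) (W2 := 536870912) (P3 := 335544320) (W3 := 67108864) (N0 := 3)
    rfl (fun _ => rfl) s12_pm_213

noncomputable def f_mm_001 : ℕ → ℕ → ℕ → ℕ → Bool := onCell 0 536870912 0 536870912 335544320 67108864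
    (rowN 3 0 true false false .up 0 0 1 (qsf 0 536870912 0 536870912 1) ndN0q0 ndN0q0 pcN1 Cut.none Ext.none)

def k0_mm_001 : ∃ t, chk3 f_mm_001 t 1 1 1 = true :=
  ⟨(l 4), by decide +kernel⟩

theorem c_mm_001 : CertN 0 536870912 0 536870912 335544320 67108864 3 true false false .up 0 0 1
    ndN0q0 ndN0q0 pcN1 Cut.none Ext.none :=
  certN0 (fam := true) (s1 := false) (s2 := false) (a := 0) (b := 0) (c := 1) (cn := .up) (n1 := ndN0q0) (n2 := ndN0q0) (pc := pcN1) (cut := Cut.none) (xt := Ext.none) (P1 := 0) (W1 := 536870912) (P2 := 0) (W2 := 536870912) (P3 := 335544320) (W3 := 67108864) (N0 := 3)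
    rfl k0_mm_001

noncomputable def f_mm_011 : ℕ → ℕ → ℕ → ℕ → Bool := onCell 0 536870912 536870912 536870912 335544320 67108864
    (rowN 3 0 true false false .pnn 0 1 1 (qsf 0 536870912 536870912 536870912 1) ndN0q0 ndN0q1 pcN1 Cut.none Ext.none)

def k0_mm_011 : ∃ t, chk3 f_mm_011 t 1 1 1 = true :=
  ⟨(a (l 5) (l 4)), by decide +kernel⟩

theorem c_mm_011 : CertN 0 536870912 536870912 536870912 335544320 67108864 3 true false false .pnn 0 1 1
    ndN0q0 ndN0q1 pcN1 Cut.none Ext.none :=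
  certN0 (fam := true) (s1 := false) (s2 := false) (a := 0) (b := 1) (c := 1) (cn := .pnn) (n1 := ndN0q0) (n2 := ndN0q1) (pc := pcN1) (cut := Cut.none) (xt := Ext.none) (P1 := 0) (W1 := 536870912) (P2 := 536870912) (W2 := 536870912) (P3 := 335544320) (W3 := 67108864) (N0 := 3)
    rfl k0_mm_011

noncomputable def f_mm_012 : ℕ → ℕ → ℕ → ℕ → Bool := onCell 0 536870912 536870912 536870912 335544320 67108864
    (rowN 3 0 true false false .pnp 0 1 2 (qsf 0 536870912 536870912 536870912 2) ndN0q0 ndN0q1 pcN2 Cut.none Ext.none)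

def k0_mm_012 : ∃ t, chk3 f_mm_012 t 1 1 1 = true :=
  ⟨(b (l 4) (l 5)), by decide +kernel⟩

theorem c_mm_012 : CertN 0 536870912 536870912 536870912 335544320 67108864 3 true false false .pnp 0 1 2
    ndN0q0 ndN0q1 pcN2 Cut.none Ext.none :=
  certN0 (fam := true) (s1 := false) (s2 := false) (a := 0) (b := 1) (c := 2) (cn := .pnp) (n1 := ndN0q0) (n2 := ndN0q1) (pc := pcN2) (cut := Cut.none) (xt := Ext.none) (P1 := 0) (W1 := 536870912) (P2 := 536870912) (W2 := 536870912) (P3 := 335544320) (W3 := 67108864) (N0 := 3)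
    rfl k0_mm_012

noncomputable def f_mm_022 : ℕ → ℕ → ℕ → ℕ → Bool := onCell 0 536870912 0 536870912 335544320 67108864
    (rowN 3 0 true false false .pp 0 2 2 (qsf 0 536870912 0 536870912 2) ndN0q0 ndN0q2 pcN2 Cut.none Ext.none)

def k0_mm_022 : ∃ t, chk3 f_mm_022 t 1 1 1 = true :=
  ⟨(l 5), by decide +kernel⟩

theorem c_mm_022 : CertN 0 536870912 0 536870912 335544320 67108864 3 true false false .pp 0 2 2
    ndN0q0 ndN0q2 pcN2 Cut.none Ext.none :=
  certN0 (fam := true) (s1 := false) (s2 := false) (a := 0) (b := 2) (c := 2) (cn := .pp) (n1 := ndN0q0) (n2 := ndN0q2) (pc := pcN2) (cut := Cut.none) (xt := Ext.none) (P1 := 0) (W1 := 536870912) (P2 := 0) (W2 := 536870912) (P3 := 335544320) (W3 := 67108864) (N0 := 3)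
    rfl k0_mm_022

noncomputable def f_mm_023 : ℕ → ℕ → ℕ → ℕ → Bool := onCell 0 536870912 0 536870912 335544320 67108864
    (rowN 3 0 true false false .up 0 2 3 (qsf 0 536870912 0 536870912 3) ndN0q0 ndN0q2 pcN3 Cut.none Ext.none)

def k0_mm_023 : ∃ t, chk3 f_mm_023 t 1 1 1 = true :=
  ⟨(l 5), by decide +kernel⟩

theorem c_mm_023 : CertN 0 536870912 0 536870912 335544320 67108864 3 true false false .up 0 2 3
    ndN0q0 ndN0q2 pcN3 Cut.none Ext.none :=
  certN0 (fam := true) (s1 := false) (s2 := false) (a := 0) (b := 2) (c := 3) (cn := .up) (n1 := ndN0q0) (n2 := ndN0q2) (pc := pcN3) (cut := Cut.none) (xt := Ext.none) (P1 := 0) (W1 := 536870912) (P2 := 0) (W2 := 536870912) (P3 := 335544320) (W3 := 67108864) (N0 := 3)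
    rfl k0_mm_023

noncomputable def cut_mm_101 : Cut := Cut.of [[⟨0, 1, 0, 67108864⟩, ⟨1, 0, 0, 67108864⟩, ⟨2, 1, 0, 67108864⟩]]

noncomputable def f_mm_101 : ℕ → ℕ → ℕ → ℕ → Bool := onCell 536870912 536870912 0 536870912 335544320 67108864
    (rowN 3 0 true false false .npn 1 0 1 (qsf 536870912 536870912 0 536870912 1) ndN0q1 ndN0q0 pcN1 cut_mm_101 Ext.none)

def k0_mm_101 : ∃ t, chk3 f_mm_101 t 1 1 1 = true :=
  ⟨(a (l 4) (b (a (l 4) (b (a (l 4) (b (a (l 4) (b (l 6) (l 4))) (l 4))) (l 4))) (l 4))), by decide +kernel⟩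

theorem c_mm_101 : CertN 536870912 536870912 0 536870912 335544320 67108864 3 true false false .npn 1 0 1
    ndN0q1 ndN0q0 pcN1 cut_mm_101 Ext.none :=
  certN0 (fam := true) (s1 := false) (s2 := false) (a := 1) (b := 0) (c := 1) (cn := .npn) (n1 := ndN0q1) (n2 := ndN0q0) (pc := pcN1) (cut := cut_mm_101) (xt := Ext.none) (P1 := 536870912) (W1 := 536870912) (P2 := 0) (W2 := 536870912) (P3 := 335544320) (W3 := 67108864) (N0 := 3)
    rfl k0_mm_101

noncomputable def cut_mm_102 : Cut := Cut.of [[⟨0, 1, 0, 67108864⟩, ⟨1, 0, 0, 67108864⟩, ⟨2, 1, 0, 67108864⟩]]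

noncomputable def f_mm_102 : ℕ → ℕ → ℕ → ℕ → Bool := onCell 536870912 536870912 0 536870912 335544320 67108864
    (rowN 3 0 true false false .npp 1 0 2 (qsf 536870912 536870912 0 536870912 2) ndN0q1 ndN0q0 pcN2 cut_mm_102 Ext.none)

def k0_mm_102 : ∃ t, chk3 f_mm_102 t 1 1 1 = true :=
  ⟨(a (l 4) (b (a (l 4) (b (a (l 4) (b (a (l 4) (b (l 6) (l 4))) (l 4))) (l 4))) (l 4))), by decide +kernel⟩

theorem c_mm_102 : CertN 536870912 536870912 0 536870912 335544320 67108864 3 true false false .npp 1 0 2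
    ndN0q1 ndN0q0 pcN2 cut_mm_102 Ext.none :=
  certN0 (fam := true) (s1 := false) (s2 := false) (a := 1) (b := 0) (c := 2) (cn := .npp) (n1 := ndN0q1) (n2 := ndN0q0) (pc := pcN2) (cut := cut_mm_102) (xt := Ext.none) (P1 := 536870912) (W1 := 536870912) (P2 := 0) (W2 := 536870912) (P3 := 335544320) (W3 := 67108864) (N0 := 3)
    rfl k0_mm_102

noncomputable def f_mm_112 : ℕ → ℕ → ℕ → ℕ → Bool := onCell 536870912 536870912 536870912 536870912 335544320 67108864
    (rowN 3 0 true false false .dn 1 1 2 (qsf 536870912 536870912 536870912 536870912 2) ndN0q1 ndN0q1 pcN2 Cut.none Ext.none)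

def k0_mm_112 : ∃ t, chk3 f_mm_112 t 1 1 1 = true :=
  ⟨(l 4), by decide +kernel⟩

theorem c_mm_112 : CertN 536870912 536870912 536870912 536870912 335544320 67108864 3 true false false .dn 1 1 2
    ndN0q1 ndN0q1 pcN2 Cut.none Ext.none :=
  certN0 (fam := true) (s1 := false) (s2 := false) (a := 1) (b := 1) (c := 2) (cn := .dn) (n1 := ndN0q1) (n2 := ndN0q1) (pc := pcN2) (cut := Cut.none) (xt := Ext.none) (P1 := 536870912) (W1 := 536870912) (P2 := 536870912) (W2 := 536870912) (P3 := 335544320) (W3 := 67108864) (N0 := 3)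
    rfl k0_mm_112

noncomputable def f_mm_113 : ℕ → ℕ → ℕ → ℕ → Bool := onCell 536870912 536870912 536870912 536870912 335544320 67108864
    (rowN 3 0 true false false .nn 1 1 3 (qsf 536870912 536870912 536870912 536870912 3) ndN0q1 ndN0q1 pcN3 Cut.none Ext.none)

def k0_mm_113 : ∃ t, chk3 f_mm_113 t 1 1 1 = true :=
  ⟨(l 4), by decide +kernel⟩

theorem c_mm_113 : CertN 536870912 536870912 536870912 536870912 335544320 67108864 3 true false false .nn 1 1 3
    ndN0q1 ndN0q1 pcN3 Cut.none Ext.none :=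
  certN0 (fam := true) (s1 := false) (s2 := false) (a := 1) (b := 1) (c := 3) (cn := .nn) (n1 := ndN0q1) (n2 := ndN0q1) (pc := pcN3) (cut := Cut.none) (xt := Ext.none) (P1 := 536870912) (W1 := 536870912) (P2 := 536870912) (W2 := 536870912) (P3 := 335544320) (W3 := 67108864) (N0 := 3)
    rfl k0_mm_113

noncomputable def f_mm_123 : ℕ → ℕ → ℕ → ℕ → Bool := onCell 536870912 536870912 0 536870912 335544320 67108864
    (rowN 3 0 true false false .npn 1 2 3 (qsf 536870912 536870912 0 536870912 3) ndN0q1 ndN0q2 pcN3 Cut.none Ext.none)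

def k0_mm_123 : ∃ t, chk3 f_mm_123 t 1 1 1 = true :=
  ⟨(a (l 5) (l 4)), by decide +kernel⟩

theorem c_mm_123 : CertN 536870912 536870912 0 536870912 335544320 67108864 3 true false false .npn 1 2 3
    ndN0q1 ndN0q2 pcN3 Cut.none Ext.none :=
  certN0 (fam := true) (s1 := false) (s2 := false) (a := 1) (b := 2) (c := 3) (cn := .npn) (n1 := ndN0q1) (n2 := ndN0q2) (pc := pcN3) (cut := Cut.none) (xt := Ext.none) (P1 := 536870912) (W1 := 536870912) (P2 := 0) (W2 := 536870912) (P3 := 335544320) (W3 := 67108864) (N0 := 3)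
    rfl k0_mm_123

noncomputable def cut_mm_202 : Cut := Cut.of [[⟨0, 1, 0, 67108864⟩, ⟨1, 0, 0, 67108864⟩, ⟨2, 1, 0, 67108864⟩]]

noncomputable def f_mm_202 : ℕ → ℕ → ℕ → ℕ → Bool := onCell 0 536870912 0 536870912 335544320 67108864
    (rowN 3 0 true false false .pp 2 0 2 (qsf 0 536870912 0 536870912 2) ndN0q2 ndN0q0 pcN2 cut_mm_202 Ext.none)

def k0_mm_202 : ∃ t, chk3 f_mm_202 t 2 2 1 = true :=
  ⟨(b (a (b (a (b (l 16438056) (l 16447232)) (b (l 16515632) (l 16488656))) (b (a (l 16465352) (l 16491952)) (a (l 16487488) (l 16515112)))) (b (a (b (a (l 16510472) (l 16530224)) (a (l 16499352) (l 16543360))) (b (b (a (l 16526176) (l 16547664)) (l 16608976)) (b (l 16596760) (l 16605352)))) (a (b (l 16584720) (l 16573768)) (b (a (l 16582904) (l 16631472)) (c (l 16667896) (l 16663648)))))) (a (b (a (b (l 16513656) (l 16543520)) (b (l 16542352) (l 16572456))) (a (b (l 16575968) (l 16686848)) (b (l 16604256) (l 16686536)))) (b (a (b (l 16583240) (l 16612728)) (b (c (l 16683544)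 (l 16680480)) (a (l 16627576) (l 16663808)))) (a (b (l 16665952) (l 16698016)) (b (a (l 16671368) (l 16703760)) (a (l 16694608) (l 16768432))))))), by decide +kernel⟩

def k1_mm_202 : ∃ t, chk3 f_mm_202 t 6 4 1 = true :=
  ⟨(b (a (b (b (a (l 16591280) (b (l 16590688) (l 16596632))) (a (l 16581096) (l 16647376))) (a (b (l 16591712) (l 16602176)) (b (l 16638016) (l 16649464)))) (b (a (b (b (a (l 16608048) (l 16619880)) (l 16641312)) (b (l 16647600) (l 16653832))) (b (b (a (l 16632136) (l 16665896)) (a (l 16638712) (l 16651632))) (b (a (l 16645232) (l 16658280)) (a (l 16651688) (l 16664872))))) (a (b (a (l 16635776) (l 16648352)) (a (l 16647800) (l 16660680))) (a (b (l 16682224) (l 16673840)) (b (b (l 16671400) (l 16677864)) (b (l 16684272) (l 16690624))))))) (a (b (a (b (l 16612496) (l 16622696)) (b (l 16639776) (l 16671904))) (b (a (l 16632808) (l 16682944)) (a (l 16642848) (l 16693904)))) (b (a (b (a (l 16659648) (l 16672816)) (l 16720024)) (a (b (l 16686232) (l 16698432))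 (b (l 16720992) (l 16733376)))) (a (b (l 16731712) (l 16743296)) (b (a (l 16731440) (l 16745576)) (a (l 16743336) (l 16757616))))))), by decide +kernel⟩

def k2_mm_202 : ∃ t, chk3 f_mm_202 t 14 8 1 = true :=
  ⟨(b (b (a (b (a (b (l 16656568) (l 16660000)) (b (l 16691464) (l 16673976))) (a (l 16686072) (c (l 16691920) (l 16676880)))) (b (a (b (l 6) (c (l 16690632) (l 16686560))) (l 6)) (a (b (c (l 16694072) (l 16690136)) (c (l 16697488) (l 16693688))) (b (l 6) (a (l 16707040) (l 6)))))) (a (b (a (l 16692840) (c (l 16688160) (l 16683872))) (a (l 16678560) (c (l 16694816) (l 16690792)))) (a (b (a (l 16707496) (a (l 16702656) (l 16706464))) (b (l 16718392) (l 16721152))) (b (a (b (l 16710536) (l 16714008)) (b (l 6) (l 16721904))) (a (c (l 16720552) (l 16717792)) (b (l 16725368) (l 16728816))))))) (a (b (a (b (l 16685192) (l 16691760)) (b (a (l 16695872) (l 16703176)) (a (l 16702504) (l 16709840)))) (a (b (l 16698264) (l 16704704)) (b (a (l 16709064) (l 16716440)) (l 16740224))))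 (a (a (b (b (l 16710632) (l 16717328)) (b (l 16723952) (l 16730504))) (b (b (l 16728720) (l 16735448)) (b (l 16742096) (l 16748664)))) (b (b (a (c (l 16727232) (l 16724768)) (b (l 16742728) (l 16746128))) (a (c (l 16733832) (l 16731672)) (b (l 16749512) (l 16752872)))) (b (a (c (l 16740344) (l 16738488)) (b (l 16756216) (l 16759536))) (a (c (l 16757264) (l 16755720)) (b (l 16762840) (l 16766120)))))))), by decide +kernel⟩

def k3_mm_202 : ∃ t, chk3 f_mm_202 t 15 16 1 = true :=
  ⟨(a (b (l 6) (a (b (l 6) (a (b (c (l 16734488) (l 16732416)) (c (l 16737864) (l 16735944))) (b (l 6) (c (l 16751184) (l 16749664))))) (l 6))) (l 6)), by decide +kernel⟩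

def k4_mm_202 : ∃ t, chk3 f_mm_202 t 30 34 1 = true :=
  ⟨(a (b (a (b (c (l 16741224) (l 16739456)) (c (l 16744552) (l 16742944))) (a (b (l 16746528) (l 16760432)) (b (l 16755960) (l 16758072)))) (a (b (c (l 16747864) (l 16746416)) (c (l 16761640) (l 16749864))) (a (b (l 16758584) (l 16761960)) (b (c (l 16758008) (l 16757064)) (c (l 16761296) (l 16760512)))))) (a (b (b (a (c (l 16755480) (l 16754424)) (l 6)) (c (a (l 16758824) (c (l 16763176) (l 16762832))) (a (l 16757920) (l 16764936)))) (b (c (a (l 16767384) (a (l 16765272) (l 16772616))) (a (l 16761400) (c (l 16767232) (l 16768280)))) (b (a (l 16769552) (a (l 16772760) (l 16774912))) (a (c (l 16766256) (l 16765720)) (c (l 16774368) (l 16774040)))))) (b (a (a (b (l 6) (b (l 6) (l 16772000))) (b (l 6) (b (l 6) (l 16772864)))) (l 6)) (a (b (b (a (l 16773696) (a (l 16772712) (l 16773800))) (c (c (l 16775376) (l 16775240)) (l 16773720))) (a (c (l 16774744) (l 16774536)) (b (c (l 16776704) (l 16776568)) (a (l 16777768)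 (a (l 16778592) (c (l 10435430951) (l 16778496))))))) (b (a (c (b (l 16775544) (l 16777200)) (b (l 16772720) (l 16777080))) (b (l 6) (a (c (c (l 16778176) (l 16778160)) (l 16778784)) (a (b (l 16779200) (c (b (l 46942652791) (l 141431932135)) (l 60364427143))) (b (l 6) (l 4)))))) (a (b (b (c (l 16778432) (l 16778376)) (a (l 16778696) (a (b (l 16779312) (l 39426461095)) (b (l 52848234215) (l 4))))) (a (a (b (l 16779272) (b (l 57680072519) (l 4))) (b (c (l 45332040711) (l 44258298887)) (l 4))) (b (c (l 136600095047) (l 138210707751)) (l 4)))) (b (a (b (a (c (l 42647685911) (l 40500202423)) (c (l 131768255959) (l 133378868679))) (l 4)) (l 4)) (l 4)))))))), by decide +kernel⟩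

def k5_mm_202 : ∃ t, chk3 f_mm_202 t 60 35 1 = true :=
  ⟨(a (a (b (c (l 16759288) (l 16758128)) (b (l 16768920) (l 16766960))) (b (b (l 16766400) (l 16764480)) (b (l 16767784) (l 16772384)))) (b (b (c (a (l 16760472) (l 16769808)) (a (l 16759648) (l 16769192))) (a (c (l 16763720) (l 16763056)) (c (l 16773056) (l 16772600)))) (a (b (c (l 16772184) (l 16771688)) (c (l 16775384) (l 16775056))) (b (c (l 16774968) (l 16773368)) (a (l 16776400) (b (l 16777032) (a (l 16778144) (c (l 23857205095) (l 22783463255))))))))), by decide +kernel⟩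

def k6_mm_202 : ∃ t, chk3 f_mm_202 t 61 35 1 = true :=
  ⟨(a (b (a (b (c (c (l 16774048) (l 16773840)) (c (l 16773640) (l 16773432))) (c (b (l 16776384) (l 16775376)) (b (l 16776096) (l 16775176)))) (b (a (c (l 16774456) (l 16774200)) (c (c (l 16776592) (l 16776520)) (l 16776080))) (b (a (l 16776824) (a (l 16778440) (b (l 16779120) (a (l 37815849079) (a (l 74323071943) (l 4)))))) (b (a (l 16778072) (a (c (l 39963332023) (l 38352719447)) (l 4))) (a (c (c (l 16778624) (l 16778936)) (l 16778920)) (a (c (l 132841998359) (l 133915740167)) (l 4))))))) (a (b (a (c (l 16776752) (l 16776624)) (b (c (l 16778032) (l 16777960)) (a (c (c (l 19562237111) (l 16778504)) (l 16779152)) (b (c (l 45868912247) (l 44258299671)) (c (l 138210707719) (l 139284449527)))))) (a (b (a (l 16778624) (b (l 20099109111) (a (l 53921976759) (l 139821325063)))) (a (b (c (l 52311363415) (l 50700750935)) (l 143579422327)) (l 4))) (b (a (b (a (l 71638717783) (l 4)) (l 4)) (l 4)) (l 4)))) (b (a (b (b (a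 (l 16779208) (a (l 63585653863) (l 4))) (a (a (l 45332042071) (l 132842002951)) (l 4))) (l 4)) (l 4)) (l 4)))) (b (a (b (a (b (c (l 16777856) (l 16777776)) (a (c (c (l 16778328) (l 16778320)) (l 16778952)) (b (c (c (l 34594622391) (l 33520880567)) (l 33520880887)) (c (a (l 122641450039) (l 4)) (l 129083901751))))) (b (b (a (l 16779032) (a (c (l 48553266279) (l 47479524455)) (c (l 137673836183) (l 139284448903)))) (a (c (a (l 16778328) (l 117272743447)) (a (l 16778328) (l 70028103671))) (l 4))) (a (c (l 140895063735) (l 143042547335)) (l 4)))) (a (b (a (b (a (c (l 55532588327) (l 54995717415)) (l 144116289959)) (l 4)) (l 4)) (l 4)) (l 4))) (l 4)) (l 4))), by decide +kernel⟩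

def k7_mm_202 : ∃ t, chk3 f_mm_202 t 31 17 1 = true :=
  ⟨(a (b (a (b (l 6) (a (b (b (l 6) (b (l 6) (l 4))) (l 4)) (l 4))) (l 4)) (l 4)) (l 4)), by decide +kernel⟩

def k8_mm_202 : ∃ t, chk3 f_mm_202 t 14 18 1 = true :=
  ⟨(a (b (a (a (l 16710632) (l 16738808)) (b (l 16746672) (l 16753048))) (a (b (l 16744640) (l 16750856)) (b (l 16759368) (l 16763000)))) (a (a (b (b (l 16736984) (l 16753880)) (b (l 16760224) (l 16766504))) (b (b (l 16755168) (l 16761592)) (c (b (l 16768424) (l 16774544)) (b (l 16767456) (l 16773912))))) (b (a (b (c (l 16763608) (l 16762392)) (c (l 16769880) (l 16768992))) (b (c (b (l 16769824) (l 16772976)) (b (l 16768928) (l 16772248))) (b (c (l 16770872) (l 16770312)) (c (l 16773992) (l 16773592))))) (a (b (b (l 16774224) (l 16774760)) (a (b (l 16778552) (l 16781680)) (b (l 16777272) (a (l 16779400) (b (l 16780608) (a (l 16779240) (b (l 16780040) (l 140358191431)))))))) (b (a (b (l 16774960) (l 16778120)) (b (c (l 16779056) (l 16778928)) (a (b (l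 16780352) (a (l 16781440) (l 56069463351))) (b (a (l 34057754775) (b (l 62511912807) (l 4))) (a (l 140358192343) (l 4)))))) (a (b (a (c (l 16780304) (l 16780256)) (b (c (l 16779928) (l 16780256)) (a (c (l 61438170919) (l 60364429191)) (l 141968805447)))) (a (b (a (l 45868915719) (l 129083907575)) (l 4)) (l 4))) (b (a (b (a (b (l 73249331239) (l 4)) (l 4)) (l 4)) (l 4)) (l 4)))))))), by decide +kernel⟩

def k9_mm_202 : ∃ t, chk3 f_mm_202 t 14 19 1 = true :=
  ⟨(a (a (b (b (l 16757016) (l 16763128)) (b (l 16769200) (l 16769984))) (b (b (c (l 16767232) (l 16765928)) (a (l 16774224) (l 16771248))) (a (b (l 16780312) (l 16775864)) (b (l 16777344) (a (l 16781504) (b (l 16783792) (a (l 16780744) (b (l 48016401479) (l 131768258183))))))))) (a (b (a (b (l 16772720) (c (l 16779056) (l 16778680))) (a (b (l 16778504) (b (l 16783136) (a (l 16779992) (b (l 16781296) (a (l 57680076407) (l 136600095719)))))) (b (c (l 16779872) (l 16777056)) (b (a (c (l 16780728) (l 16780888)) (b (l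 48016400647) (l 134452623383))) (a (b (a (l 72712462295) (l 4)) (l 4)) (l 4)))))) (a (b (a (b (l 16781544) (l 16781976)) (b (c (c (l 22246596455) (l 21709725527)) (l 20635984311)) (a (b (l 16781896) (l 121030849431)) (l 136063235479)))) (a (b (a (c (l 39963337831) (l 38352724903)) (b (l 106535331207) (l 4))) (a (l 140358195879) (l 4))) (l 4))) (b (a (b (a (b (l 58216948791) (l 140358193831)) (l 4)) (l 4)) (l 4)) (l 4)))) (b (a (b (a (b (c (l 7214209319) (l 16779536)) (a (b (l 16780896) (a (l 16781056) (l 120493977975))) (b (a (l 58753818359) (l 140895063175)) (l 4)))) (b (a (b (c (l 36742109223) (l 16779928)) (a (l 114588392295) (l 4))) (b (l 137136973079) (l 4))) (l 4))) (a (b (c (l 139284457447) (l 141431940967)) (l 4)) (l 4))) (l 4)) (l 4)))), by decide +kernel⟩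

def k10_mm_202 : ∃ t, chk3 f_mm_202 t 15 9 1 = true :=
  ⟨(a (b (a (b (a (a (b (b (l 16770224) (l 16773464)) (b (l 16776680) (a (l 16778856) (b (l 16780104) (c (c (l 29762786311) (l 29762786135)) (l 28689044967)))))) (b (b (c (l 16774520) (l 16774144)) (c (l 16777672) (l 16777464))) (b (a (l 16778448) (b (c (l 16778440) (l 16778408)) (a (c (l 38352720663) (l 37278978775)) (b (l 117809617191) (l 4))))) (a (b (a (l 19025368631) (b (l 47479526775) (l 137136970935))) (a (b (l 124252068455) (l 4)) (l 4))) (l 4))))) (b (a (b (c (c (l 16777296) (l 16775904)) (l 16777088)) (b (a (l 16779872) (a (l 16779488) (b (l 32984011607) (a (l 71101846503) (l 4))))) (b (a (l 16778464) (a (c (l 64659395127) (l 63585653447)) (l 4))) (a (c (l 30836527639) (l 29225914903)) (l 4))))) (b (a (b (c (l 16778224) (l 16778176)) (a (c (l 28152172695) (l 27078430855)) (b (c (l 59290685543) (l 56606331303)) (l 4)))) (b (a (b (l 26004689527) (a (l 61975040711) (l 4))) (c (l 134452612071) (l 135526353879)))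 (l 4))) (a (b (c (l 139284452071) (l 140358193847)) (l 4)) (l 4)))) (a (b (a (b (a (b (l 39963333815) (l 130157648759)) (b (l 143042546055) (l 4))) (l 4)) (l 4)) (l 4)) (l 4)))) (a (b (a (b (a (b (c (l 16778680) (l 16778664)) (a (c (l 49090139415) (l 48016397559)) (l 135526359031))) (b (a (b (l 54458848935) (l 142505675127)) (l 4)) (l 4))) (l 4)) (l 4)) (l 4)) (l 4))) (l 4)) (l 4)) (l 4)), by decide +kernel⟩

def k11_mm_202 : ∃ t, chk3 f_mm_202 t 6 5 1 = true :=
  ⟨(b (a (b (a (l 16699712) (a (l 16702528) (l 16738656))) (a (l 16730280) (a (l 16745128) (l 16755736)))) (b (a (b (l 16744328) (a (l 16738136) (l 16752512))) (a (b (l 16755128) (l 16766856)) (b (b (l 16766600) (l 16772536)) (b (l 16778448) (l 16784336))))) (a (b (a (l 16728584) (l 16764112)) (a (l 16761048) (l 16775752))) (a (b (l 16778568) (a (l 16786672) (b (l 16780552) (a (l 39963347783) (b (l 66270021623) (l 136063231239)))))) (b (a (b (l 16786584) (a (l 16790632) (l 24394087223))) (b (a (l 16781560) (b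 (l 16783736) (l 57143214311))) (a (b (l 46405794455) (l 127473314711)) (b (l 137673842743) (l 4))))) (a (b (a (b (l 16785768) (l 105461593511)) (b (l 118346497031) (l 4))) (l 4)) (l 4))))))) (a (b (a (b (l 16714736) (l 16725784)) (b (l 16770056) (l 16772544))) (a (b (l 16758624) (l 16780096)) (a (b (l 16764568) (l 16779632)) (b (l 16786352) (a (b (l 16768648) (l 49090161047)) (b (l 56069486327) (l 133915753303))))))) (b (a (a (b (l 16772680) (b (l 16781560) (c (l 16787880) (l 16787544)))) (b (a (l 16783840) (b (l 16788232) (a (l 16793472) (l 53385124567)))) (a (b (l 30836544103) (a (l 67343771495) (l 134989492023))) (b (a (b (l 16787408) (l 134452618647)) (l 136063236871)) (l 4))))) (a (b (a (b (a (l 16784608) (b (l 16787808) (l 125325809847))) (a (l 121030865863) (l 4))) (b (a (l 136600104471) (l 4)) (l 4))) (l 4)) (l 4))) (a (a (b (a (b (l 16791968) (a (l 16788112) (l 112977799991))) (b (a (l 57680092055) (l 123178329079)) (l 135526371495))) (a (b (l 134989497831)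 (l 4)) (l 4))) (l 4)) (l 4))))), by decide +kernel⟩

def k12_mm_202 : ∃ t, chk3 f_mm_202 t 7 5 1 = true :=
  ⟨(b (a (a (b (a (b (b (l 16775968) (a (l 16783488) (l 16780384))) (a (b (l 16778928) (a (l 16783008) (b (l 16783120) (a (l 64659404775) (l 137673840807))))) (b (a (b (l 16782984) (c (l 39426469543) (l 38352727383))) (b (a (l 16781192) (b (l 16782808) (l 133378871271))) (l 133915756103))) (a (b (a (l 111904044487) (l 4)) (l 4)) (l 4))))) (b (a (b (a (l 16780000) (b (l 16782256) (c (l 16781384) (l 16780088)))) (a (b (l 16784488) (a (l 44795178615) (l 117272754215))) (b (a (b (l 16782176) (l 121567710055)) (l 136063227511)) (l 4)))) (b (a (a (b (l 16785064) (b (l 60364433543) (l 138747581095))) (b (c (l 48553273383) (l 47479531495)) (l 4))) (b (a (b (l 117272753095) (l 4)) (l 4)) (l 4))) (l 4))) (a (b (a (b (l 139284456807) (l 4)) (l 4)) (l 4)) (l 4)))) (a (b (a (b (a (b (a (l 16784088) (l 121030840791)) (l 138210715479)) (l 4)) (l 4)) (l 4)) (l 4)) (l 4))) (l 4))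 (l 4)) (l 4)), by decide +kernel⟩

def k13_mm_202 : ∃ t, chk3 f_mm_202 t 1 3 1 = true :=
  ⟨(a (b (a (b (a (b (l 16768504) (l 16817936)) (b (l 16758056) (l 16798424))) (a (b (l 16844128) (l 16855232)) (b (l 16817032) (a (l 16830504) (l 16814128))))) (b (a (b (l 16737056) (a (l 16784696) (l 16777512))) (b (a (l 16748960) (l 16785552)) (a (b (l 16769416) (l 16775456)) (b (l 16770200) (a (l 16773640) (a (l 16794888) (l 37279008647))))))) (a (b (a (l 16797680) (b (l 16785616) (l 16787176))) (a (l 39292320423) (b (l 16786896) (a (l 16788744) (l 16806152))))) (b (a (b (l 16778056) (a (l 16780416) (b (l 16777664) (l 16782592)))) (b (a (b (l 16775152) (l 16790360)) (b (a (l 44795170487) (a (l 85597400071) (l 134452619511))) (a (a (l 80765563815) (l 123178330647)) (l 4)))) (a (b (a (l 16784512) (a (l 16786888) (l 110830304839))) (a (a (l 16788624) (l 100092900263)) (l 4))) (l 4)))) (a (b (a (l 16802424) (b (a (l 16787296) (l 67880632823)) (a (l 64122542519) (l 113514668423))))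 (a (b (a (l 16790160) (l 61975063223)) (a (l 113917328407) (l 96871682151))) (a (b (l 104924740295) (l 4)) (l 4)))) (a (b (a (b (l 122104596071) (l 4)) (l 4)) (l 4)) (l 4))))))) (a (l 2) (a (l 2) (a (l 2) (l 4))))) (b (a (a (b (b (a (b (l 16779624) (a (l 16768416) (a (l 16794776) (b (l 16775984) (l 82376167543))))) (a (b (a (l 16792176) (b (l 16787392) (l 119957125463))) (a (b (l 113514672183) (l 4)) (l 4))) (b (a (b (l 126936449815) (l 4)) (l 4)) (l 4)))) (a (a (b (b (l 16773736) (l 45868942551)) (b (a (l 16789976) (l 130694524567)) (l 130157658567))) (b (a (b (l 72712486007) (l 133378883223)) (l 134989518039)) (l 4))) (l 4))) (l 4)) (l 4)) (l 4)) (l 4))), by decide +kernel⟩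

theorem s14_mm_202 : ∃ t, chk3 f_mm_202 t 3 5 1 = true := ex3_a k11_mm_202 k12_mm_202

theorem s15_mm_202 : ∃ t, chk3 f_mm_202 t 14 9 1 = true := ex3_b k8_mm_202 k9_mm_202

theorem s16_mm_202 : ∃ t, chk3 f_mm_202 t 7 9 1 = true := ex3_a s15_mm_202 k10_mm_202

theorem s17_mm_202 : ∃ t, chk3 f_mm_202 t 30 35 1 = true := ex3_a k5_mm_202 k6_mm_202

theorem s18_mm_202 : ∃ t, chk3 f_mm_202 t 30 17 1 = true := ex3_b k4_mm_202 s17_mm_202

theorem s19_mm_202 : ∃ t, chk3 f_mm_202 t 15 17 1 = true := ex3_a s18_mm_202 k7_mm_202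

theorem s20_mm_202 : ∃ t, chk3 f_mm_202 t 15 8 1 = true := ex3_b k3_mm_202 s19_mm_202

theorem s21_mm_202 : ∃ t, chk3 f_mm_202 t 7 8 1 = true := ex3_a k2_mm_202 s20_mm_202

theorem s22_mm_202 : ∃ t, chk3 f_mm_202 t 7 4 1 = true := ex3_b s21_mm_202 s16_mm_202

theorem s23_mm_202 : ∃ t, chk3 f_mm_202 t 3 4 1 = true := ex3_a k1_mm_202 s22_mm_202

theorem s24_mm_202 : ∃ t, chk3 f_mm_202 t 3 2 1 = true := ex3_b s23_mm_202 s14_mm_202

theorem s25_mm_202 : ∃ t, chk3 f_mm_202 t 1 2 1 = true := ex3_a k0_mm_202 s24_mm_202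

theorem s26_mm_202 : ∃ t, chk3 f_mm_202 t 1 1 1 = true := ex3_b s25_mm_202 k13_mm_202

theorem c_mm_202 : CertN 0 536870912 0 536870912 335544320 67108864 3 true false false .pp 2 0 2
    ndN0q2 ndN0q0 pcN2 cut_mm_202 Ext.none :=
  certN0 (fam := true) (s1 := false) (s2 := false) (a := 2) (b := 0) (c := 2) (cn := .pp) (n1 := ndN0q2) (n2 := ndN0q0) (pc := pcN2) (cut := cut_mm_202) (xt := Ext.none) (P1 := 0) (W1 := 536870912) (P2 := 0) (W2 := 536870912) (P3 := 335544320) (W3 := 67108864) (N0 := 3)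
    rfl s26_mm_202

noncomputable def f_mm_203 : ℕ → ℕ → ℕ → ℕ → Bool := onCell 0 536870912 1610612736 536870912 335544320 67108864
    (rowN 3 1 true false false .up 2 0 3 (qsf 0 536870912 0 536870912 3) ndN0q2 ndN0q0 pcN3 Cut.none Ext.none)

def k0_mm_203 : ∃ t, chk3 f_mm_203 t 2 4 1 = true :=
  ⟨(b (a (a (b (l 16843272) (a (l 16856040) (l 16843880))) (b (a (l 16827280) (l 16816032)) (a (l 16809912) (b (l 16817728) (l 16817240))))) (a (b (a (b (l 16806896) (l 16808736)) (b (a (l 16805056) (b (l 16802376) (l 30299698839))) (a (b (l 16806224) (l 16806736)) (a (b (l 16803496) (a (l 16803688) (l 64659441159))) (b (a (l 53922022535) (l 79691821959)) (l 97408562487)))))) (a (b (b (l 16810424) (l 16811544)) (a (l 16812672) (a (b (l 16811536) (l 16809984)) (b (l 16809424) (a (l 35668417383) (l 60364482439)))))) (b (a (b (a (l 16807896) (b (l 16805480) (l 48553315463))) (a (b (l 16807848) (l 42647736807)) (b (l 65196318151) (l 79691832903)))) (a (b (a (l 79154958295) (l 4))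 (l 4)) (l 4))) (a (a (b (b (a (l 16807680) (l 65196320087)) (l 67880674615)) (l 4)) (l 4)) (l 4))))) (b (a (a (b (a (b (l 41037116151) (a (l 64122566903) (l 93650460263))) (b (a (l 82376169287) (l 4)) (l 4))) (l 4)) (l 4)) (l 4)) (l 4)))) (a (a (b (a (l 16855232) (l 16841248)) (a (l 16846792) (l 16831432))) (b (a (b (l 16828408) (l 16823952)) (b (l 16814024) (b (l 16811472) (l 16810776)))) (a (b (l 16818632) (l 16812952)) (b (a (l 16810136) (a (b (l 16809088) (l 16807472)) (b (l 57680125655) (l 80765573639)))) (a (b (l 16808616) (l 58753870727)) (b (l 92576730871) (l 4))))))) (a (a (b (b (a (b (l 16811160) (a (l 16810472) (l 38352772791))) (a (b (a (l 16808400) (l 48016448983)) (l 72712512167)) (b (l 78618090999) (l 4)))) (a (a (b (l 16808672) (l 61975095543)) (b (l 66806933063) (l 4))) (l 4))) (l 4)) (l 4)) (l 4)))), by decide +kernel⟩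

def k1_mm_203 : ∃ t, chk3 f_mm_203 t 2 5 1 = true :=
  ⟨(b (a (a (b (a (l 16834224) (b (l 16821784) (l 16814936))) (l 2)) (b (a (b (a (l 16810784) (b (l 16808368) (l 54458888423))) (a (b (l 16807928) (l 16807168)) (b (l 73786252423) (l 99019177191)))) (a (b (b (l 82376185831) (l 4)) (l 4)) (l 4))) (l 2))) (l 4)) (l 2)), by decide +kernel⟩

def k2_mm_203 : ∃ t, chk3 f_mm_203 t 2 3 1 = true :=
  ⟨(l 2), by decide +kernel⟩

def k3_mm_203 : ∃ t, chk3 f_mm_203 t 3 1 1 = true :=
  ⟨(b (l 4) (l 2)), by decide +kernel⟩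

theorem s4_mm_203 : ∃ t, chk3 f_mm_203 t 2 2 1 = true := ex3_b k0_mm_203 k1_mm_203

theorem s5_mm_203 : ∃ t, chk3 f_mm_203 t 2 1 1 = true := ex3_b s4_mm_203 k2_mm_203

theorem s6_mm_203 : ∃ t, chk3 f_mm_203 t 1 1 1 = true := ex3_a s5_mm_203 k3_mm_203

theorem c_mm_203 : CertN 0 536870912 0 536870912 335544320 67108864 3 true false false .up 2 0 3
    ndN0q2 ndN0q0 pcN3 Cut.none Ext.none :=
  certN1 (fam := true) (s1 := false) (s2 := false) (a := 2) (b := 0) (c := 3) (cn := .up) (n1 := ndN0q2) (n2 := ndN0q0) (pc := pcN3) (cut := Cut.none) (xt := Ext.none) (P1 := 0) (W1 := 536870912) (P2 := 0) (W2 := 536870912) (P3 := 335544320) (W3 := 67108864) (N0 := 3)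
    rfl (fun _ => rfl) s6_mm_203

noncomputable def f_mm_213 : ℕ → ℕ → ℕ → ℕ → Bool := onCell 0 536870912 536870912 536870912 335544320 67108864
    (rowN 3 0 true false false .pnn 2 1 3 (qsf 0 536870912 536870912 536870912 3) ndN0q2 ndN0q1 pcN3 Cut.none Ext.none)

def k0_mm_213 : ∃ t, chk3 f_mm_213 t 1 1 1 = true :=
  ⟨(a (b (a (b (b (a (b (a (b (l 16823960) (l 16816360)) (b (l 27615366615) (a (l 16807184) (b (l 16806144) (l 75933733335))))) (a (b (l 16809280) (a (l 16806136) (l 65196315847))) (b (a (b (l 16805584) (l 74859990567)) (l 4)) (l 4)))) (b (a (b (a (b (l 58216983735) (l 78081217671)) (l 4)) (l 4)) (l 4)) (l 4))) (a (b (a (b (a (l 62511951591) (l 4)) (l 4)) (l 4)) (l 4)) (l 4))) (l 4)) (l 4)) (l 4)) (l 4)), by decide +kernel⟩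

theorem c_mm_213 : CertN 0 536870912 536870912 536870912 335544320 67108864 3 true false false .pnn 2 1 3
    ndN0q2 ndN0q1 pcN3 Cut.none Ext.none :=
  certN0 (fam := true) (s1 := false) (s2 := false) (a := 2) (b := 1) (c := 3) (cn := .pnn) (n1 := ndN0q2) (n2 := ndN0q1) (pc := pcN3) (cut := Cut.none) (xt := Ext.none) (P1 := 0) (W1 := 536870912) (P2 := 536870912) (W2 := 536870912) (P3 := 335544320) (W3 := 67108864) (N0 := 3)
    rfl k0_mm_213

end Pool.Agent.Strip051.G.I5_16_3_8.Tab.C.NA00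

namespace Pool.Agent.Strip051.G.I5_16_3_8.Tab.C.NA01

open Pool.Agent.Strip051.PB Pool.Agent.Strip051.PB.T
open Pool.Agent.Strip051.G.I5_16_3_8.Tab

noncomputable def f_pp_001 : ℕ → ℕ → ℕ → ℕ → Bool := onCell 0 536870912 0 536870912 335544320 67108864
    (rowN 3 0 true true true .up 0 0 1 (qsf 0 536870912 0 536870912 1) ndN0q0 ndN1q0 pcN1 Cut.none Ext.none)

def k0_pp_001 : ∃ t, chk3 f_pp_001 t 1 1 1 = true :=
  ⟨(l 4), by decide +kernel⟩

theorem c_pp_001 : CertN 0 536870912 0 536870912 335544320 67108864 3 true true true .up 0 0 1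
    ndN0q0 ndN1q0 pcN1 Cut.none Ext.none :=
  certN0 (fam := true) (s1 := true) (s2 := true) (a := 0) (b := 0) (c := 1) (cn := .up) (n1 := ndN0q0) (n2 := ndN1q0) (pc := pcN1) (cut := Cut.none) (xt := Ext.none) (P1 := 0) (W1 := 536870912) (P2 := 0) (W2 := 536870912) (P3 := 335544320) (W3 := 67108864) (N0 := 3)
    rfl k0_pp_001

noncomputable def f_pp_011 : ℕ → ℕ → ℕ → ℕ → Bool := onCell 0 536870912 536870912 536870912 335544320 67108864
    (rowN 3 0 true true true .pnn 0 1 1 (qsf 0 536870912 536870912 536870912 1) ndN0q0 ndN1q1 pcN1 Cut.none Ext.none)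

def k0_pp_011 : ∃ t, chk3 f_pp_011 t 1 1 1 = true :=
  ⟨(l 4), by decide +kernel⟩

theorem c_pp_011 : CertN 0 536870912 536870912 536870912 335544320 67108864 3 true true true .pnn 0 1 1
    ndN0q0 ndN1q1 pcN1 Cut.none Ext.none :=
  certN0 (fam := true) (s1 := true) (s2 := true) (a := 0) (b := 1) (c := 1) (cn := .pnn) (n1 := ndN0q0) (n2 := ndN1q1) (pc := pcN1) (cut := Cut.none) (xt := Ext.none) (P1 := 0) (W1 := 536870912) (P2 := 536870912) (W2 := 536870912) (P3 := 335544320) (W3 := 67108864) (N0 := 3)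
    rfl k0_pp_011

noncomputable def f_pp_012 : ℕ → ℕ → ℕ → ℕ → Bool := onCell 0 536870912 536870912 536870912 335544320 67108864
    (rowN 3 0 true true true .pnp 0 1 2 (qsf 0 536870912 536870912 536870912 2) ndN0q0 ndN1q1 pcN2 Cut.none Ext.none)

def k0_pp_012 : ∃ t, chk3 f_pp_012 t 1 1 1 = true :=
  ⟨(l 4), by decide +kernel⟩

theorem c_pp_012 : CertN 0 536870912 536870912 536870912 335544320 67108864 3 true true true .pnp 0 1 2
    ndN0q0 ndN1q1 pcN2 Cut.none Ext.none :=
  certN0 (fam := true) (s1 := true) (s2 := true) (a := 0) (b := 1) (c := 2) (cn := .pnp) (n1 := ndN0q0) (n2 := ndN1q1) (pc := pcN2) (cut := Cut.none) (xt := Ext.none) (P1 := 0) (W1 := 536870912) (P2 := 536870912) (W2 := 536870912) (P3 := 335544320) (W3 := 67108864) (N0 := 3)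
    rfl k0_pp_012

noncomputable def cut_pp_022_a : Cut := Cut.of [[⟨0, 0, 0, 67108864⟩, ⟨1, 1, 0, 67108864⟩, ⟨2, 1, 0, 67108864⟩]]

noncomputable def f_pp_022_a : ℕ → ℕ → ℕ → ℕ → Bool := onCell 0 536870912 0 536870912 335544320 67108864
    (rowN 3 0 true true true .pp 0 2 2 (qsf 0 536870912 0 536870912 2) ndN0q0 ndN1q2a pcN2 cut_pp_022_a Ext.none)

def k0_pp_022_a : ∃ t, chk3 f_pp_022_a t 1 1 1 = true :=
  ⟨(a (b (a (a (b (a (a (b (l 16484080) (l 16495808)) (l 16588800)) (b (l 16540280) (l 16575568))) (a (b (a (l 16514944) (l 16530680)) (a (l 16604616) (l 16599720))) (a (b (l 16546576) (l 16615912)) (b (l 16562672) (l 16632248))))) (b (a (b (l 16548608) (l 16607016)) (b (l 16579328) (l 16640032))) (a (b (c (l 16651080) (l 16648832)) (a (l 16670840) (l 16713048))) (b (a (l 16635848) (l 16658736)) (l 4))))) (a (b (a (b (l 16632984) (a (l 16626680) (l 16650144))) (b (a (l 16640536) (l 16664312)) (l 4))) (l 4)) (b (a (b (l 16748480) (l 4)) (l 4)) (l 4)))) (a (b (a (a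 (b (a (a (l 16635672) (l 16643720)) (a (l 16651768) (l 16659824))) (a (b (a (l 16604784) (l 16612768)) (a (l 16666320) (l 16679456))) (b (a (l 16620736) (l 16628688)) (a (l 16687320) (b (l 16646784) (l 16660304)))))) (b (b (a (l 16599160) (l 16636992)) (a (l 16639760) (l 16680256))) (a (b (a (l 16657912) (l 16667800)) (b (a (l 16656248) (l 4)) (l 4))) (l 4)))) (b (a (b (a (l 16658472) (l 4)) (l 4)) (l 4)) (l 4))) (a (a (a (b (a (b (b (l 16650032) (l 16685616)) (b (a (l 6) (l 16682000)) (l 6))) (b (b (l 16657848) (l 16693368)) (b (a (l 16685840) (l 16710704)) (a (l 6) (c (l 16722880) (l 16726824)))))) (l 6)) (b (b (b (a (l 16665680) (l 16696192)) (a (c (l 16702520) (l 16679840)) (l 4))) (b (a (a (l 16715320) (l 4)) (l 4)) (l 4))) (l 4))) (l 4)) (l 4))) (l 4))) (l 4)), by decide +kernel⟩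

theorem c_pp_022_a : CertN 0 536870912 0 536870912 335544320 67108864 3 true true true .pp 0 2 2
    ndN0q0 ndN1q2a pcN2 cut_pp_022_a Ext.none :=
  certN0 (fam := true) (s1 := true) (s2 := true) (a := 0) (b := 2) (c := 2) (cn := .pp) (n1 := ndN0q0) (n2 := ndN1q2a) (pc := pcN2) (cut := cut_pp_022_a) (xt := Ext.none) (P1 := 0) (W1 := 536870912) (P2 := 0) (W2 := 536870912) (P3 := 335544320) (W3 := 67108864) (N0 := 3)
    rfl k0_pp_022_a

noncomputable def cut_pp_022_b : Cut := Cut.of [[⟨0, 0, 0, 67108864⟩, ⟨1, 1, 0, 67108864⟩, ⟨2, 1, 0, 67108864⟩]]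

noncomputable def f_pp_022_b : ℕ → ℕ → ℕ → ℕ → Bool := onCell 0 536870912 1239849684 370763052 335544320 67108864
    (rowN 3 0 true true true .pp 0 2 2 (qsf 0 536870912 1239849684 370763052 2) ndN0q0 ndN1q2b pcN2 cut_pp_022_b Ext.none)

def k0_pp_022_b : ∃ t, chk3 f_pp_022_b t 1 1 1 = true :=
  ⟨(a (b (a (b (a (a (b (a (l 16506328) (l 16521104)) (b (l 16401080) (l 16371032))) (b (b (l 16539184) (l 16486720)) (b (l 16437032) (l 16411512)))) (b (a (b (l 16569008) (l 16499816)) (b (l 16579624) (l 16536448))) (a (b (l 16475760) (l 16455936)) (b (l 16518768) (l 16510048))))) (a (b (a (l 16435584) (l 16421528)) (a (l 16313648) (l 16393520))) (b (a (l 16525424) (l 16582384)) (a (b (l 16570536) (l 4)) (l 4))))) (b (a (b (a (a (l 16616256) (l 16657896)) (b (l 16675208) (l 16634928))) (a (b (l 16574792) (l 4)) (l 4))) (b (a (b (l 16731504) (l 4)) (l 4)) (l 4))) (l 4))) (a (b (a (b (a (l 16403160) (l 4)) (l 4)) (l 4)) (l 4)) (l 4))) (l 4)), by decide +kernel⟩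

theorem c_pp_022_b : CertN 0 536870912 1239849684 370763052 335544320 67108864 3 true true true .pp 0 2 2
    ndN0q0 ndN1q2b pcN2 cut_pp_022_b Ext.none :=
  certN0 (fam := true) (s1 := true) (s2 := true) (a := 0) (b := 2) (c := 2) (cn := .pp) (n1 := ndN0q0) (n2 := ndN1q2b) (pc := pcN2) (cut := cut_pp_022_b) (xt := Ext.none) (P1 := 0) (W1 := 536870912) (P2 := 1239849684) (W2 := 370763052) (P3 := 335544320) (W3 := 67108864) (N0 := 3)
    rfl k0_pp_022_b

noncomputable def f_pp_023_a : ℕ → ℕ → ℕ → ℕ → Bool := onCell 0 536870912 0 536870912 335544320 67108864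
    (rowN 3 0 true true true .up 0 2 3 (qsf 0 536870912 0 536870912 3) ndN0q0 ndN1q2a pcN3 Cut.none Ext.none)

def k0_pp_023_a : ∃ t, chk3 f_pp_023_a t 1 1 1 = true :=
  ⟨(a (l 1) (l 4)), by decide +kernel⟩

theorem c_pp_023_a : CertN 0 536870912 0 536870912 335544320 67108864 3 true true true .up 0 2 3
    ndN0q0 ndN1q2a pcN3 Cut.none Ext.none :=
  certN0 (fam := true) (s1 := true) (s2 := true) (a := 0) (b := 2) (c := 3) (cn := .up) (n1 := ndN0q0) (n2 := ndN1q2a) (pc := pcN3) (cut := Cut.none) (xt := Ext.none) (P1 := 0) (W1 := 536870912) (P2 := 0) (W2 := 536870912) (P3 := 335544320) (W3 := 67108864) (N0 := 3)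
    rfl k0_pp_023_a

noncomputable def f_pp_023_b : ℕ → ℕ → ℕ → ℕ → Bool := onCell 0 536870912 1610612736 536870912 335544320 67108864
    (rowN 3 1 true true true .up 0 2 3 (qsf 0 536870912 1239849684 370763052 3) ndN0q0 ndN1q2b pcN3 Cut.none Ext.none)

def k0_pp_023_b : ∃ t, chk3 f_pp_023_b t 1 1 1 = true :=
  ⟨(b (l 4) (l 4)), by decide +kernel⟩

theorem c_pp_023_b : CertN 0 536870912 1239849684 370763052 335544320 67108864 3 true true true .up 0 2 3
    ndN0q0 ndN1q2b pcN3 Cut.none Ext.none :=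
  certN1 (fam := true) (s1 := true) (s2 := true) (a := 0) (b := 2) (c := 3) (cn := .up) (n1 := ndN0q0) (n2 := ndN1q2b) (pc := pcN3) (cut := Cut.none) (xt := Ext.none) (P1 := 0) (W1 := 536870912) (P2 := 1239849684) (W2 := 370763052) (P3 := 335544320) (W3 := 67108864) (N0 := 3)
    rfl (fun _ => rfl) k0_pp_023_b

noncomputable def f_pp_033 : ℕ → ℕ → ℕ → ℕ → Bool := onCell 0 536870912 1610612736 536870912 335544320 67108864
    (rowN 3 0 true true true .pnn 0 3 3 (qsf 0 536870912 1610612736 536870912 3) ndN0q0 ndN1q3 pcN3 Cut.none Ext.none)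

def k0_pp_033 : ∃ t, chk3 f_pp_033 t 1 1 1 = true :=
  ⟨(a (l 4) (l 4)), by decide +kernel⟩

theorem c_pp_033 : CertN 0 536870912 1610612736 536870912 335544320 67108864 3 true true true .pnn 0 3 3
    ndN0q0 ndN1q3 pcN3 Cut.none Ext.none :=
  certN0 (fam := true) (s1 := true) (s2 := true) (a := 0) (b := 3) (c := 3) (cn := .pnn) (n1 := ndN0q0) (n2 := ndN1q3) (pc := pcN3) (cut := Cut.none) (xt := Ext.none) (P1 := 0) (W1 := 536870912) (P2 := 1610612736) (W2 := 536870912) (P3 := 335544320) (W3 := 67108864) (N0 := 3)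
    rfl k0_pp_033

noncomputable def f_pp_101 : ℕ → ℕ → ℕ → ℕ → Bool := onCell 536870912 536870912 0 536870912 335544320 67108864
    (rowN 3 0 true true true .npn 1 0 1 (qsf 536870912 536870912 0 536870912 1) ndN0q1 ndN1q0 pcN1 Cut.none Ext.none)

def k0_pp_101 : ∃ t, chk3 f_pp_101 t 1 1 1 = true :=
  ⟨(l 5), by decide +kernel⟩

theorem c_pp_101 : CertN 536870912 536870912 0 536870912 335544320 67108864 3 true true true .npn 1 0 1
    ndN0q1 ndN1q0 pcN1 Cut.none Ext.none :=
  certN0 (fam := true) (s1 := true) (s2 := true) (a := 1) (b := 0) (c := 1) (cn := .npn) (n1 := ndN0q1) (n2 := ndN1q0) (pc := pcN1) (cut := Cut.none) (xt := Ext.none) (P1 := 536870912) (W1 := 536870912) (P2 := 0) (W2 := 536870912) (P3 := 335544320) (W3 := 67108864) (N0 := 3)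
    rfl k0_pp_101

noncomputable def f_pp_102 : ℕ → ℕ → ℕ → ℕ → Bool := onCell 536870912 536870912 0 536870912 335544320 67108864
    (rowN 3 0 true true true .npp 1 0 2 (qsf 536870912 536870912 0 536870912 2) ndN0q1 ndN1q0 pcN2 Cut.none Ext.none)

def k0_pp_102 : ∃ t, chk3 f_pp_102 t 1 1 1 = true :=
  ⟨(l 5), by decide +kernel⟩

theorem c_pp_102 : CertN 536870912 536870912 0 536870912 335544320 67108864 3 true true true .npp 1 0 2
    ndN0q1 ndN1q0 pcN2 Cut.none Ext.none :=
  certN0 (fam := true) (s1 := true) (s2 := true) (a := 1) (b := 0) (c := 2) (cn := .npp) (n1 := ndN0q1) (n2 := ndN1q0) (pc := pcN2) (cut := Cut.none) (xt := Ext.none) (P1 := 536870912) (W1 := 536870912) (P2 := 0) (W2 := 536870912) (P3 := 335544320) (W3 := 67108864) (N0 := 3)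
    rfl k0_pp_102

noncomputable def f_pp_112 : ℕ → ℕ → ℕ → ℕ → Bool := onCell 536870912 536870912 536870912 536870912 335544320 67108864
    (rowN 3 0 true true true .dn 1 1 2 (qsf 536870912 536870912 536870912 536870912 2) ndN0q1 ndN1q1 pcN2 Cut.none Ext.none)

def k0_pp_112 : ∃ t, chk3 f_pp_112 t 1 1 1 = true :=
  ⟨(l 4), by decide +kernel⟩

theorem c_pp_112 : CertN 536870912 536870912 536870912 536870912 335544320 67108864 3 true true true .dn 1 1 2
    ndN0q1 ndN1q1 pcN2 Cut.none Ext.none :=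
  certN0 (fam := true) (s1 := true) (s2 := true) (a := 1) (b := 1) (c := 2) (cn := .dn) (n1 := ndN0q1) (n2 := ndN1q1) (pc := pcN2) (cut := Cut.none) (xt := Ext.none) (P1 := 536870912) (W1 := 536870912) (P2 := 536870912) (W2 := 536870912) (P3 := 335544320) (W3 := 67108864) (N0 := 3)
    rfl k0_pp_112

noncomputable def f_pp_113 : ℕ → ℕ → ℕ → ℕ → Bool := onCell 536870912 536870912 536870912 536870912 335544320 67108864
    (rowN 3 0 true true true .nn 1 1 3 (qsf 536870912 536870912 536870912 536870912 3) ndN0q1 ndN1q1 pcN3 Cut.none Ext.none)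

def k0_pp_113 : ∃ t, chk3 f_pp_113 t 1 1 1 = true :=
  ⟨(l 4), by decide +kernel⟩

theorem c_pp_113 : CertN 536870912 536870912 536870912 536870912 335544320 67108864 3 true true true .nn 1 1 3
    ndN0q1 ndN1q1 pcN3 Cut.none Ext.none :=
  certN0 (fam := true) (s1 := true) (s2 := true) (a := 1) (b := 1) (c := 3) (cn := .nn) (n1 := ndN0q1) (n2 := ndN1q1) (pc := pcN3) (cut := Cut.none) (xt := Ext.none) (P1 := 536870912) (W1 := 536870912) (P2 := 536870912) (W2 := 536870912) (P3 := 335544320) (W3 := 67108864) (N0 := 3)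
    rfl k0_pp_113

noncomputable def f_pp_123_a : ℕ → ℕ → ℕ → ℕ → Bool := onCell 536870912 536870912 0 536870912 335544320 67108864
    (rowN 3 0 true true true .npn 1 2 3 (qsf 536870912 536870912 0 536870912 3) ndN0q1 ndN1q2a pcN3 Cut.none Ext.none)

def k0_pp_123_a : ∃ t, chk3 f_pp_123_a t 1 1 1 = true :=
  ⟨(l 4), by decide +kernel⟩

theorem c_pp_123_a : CertN 536870912 536870912 0 536870912 335544320 67108864 3 true true true .npn 1 2 3
    ndN0q1 ndN1q2a pcN3 Cut.none Ext.none :=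
  certN0 (fam := true) (s1 := true) (s2 := true) (a := 1) (b := 2) (c := 3) (cn := .npn) (n1 := ndN0q1) (n2 := ndN1q2a) (pc := pcN3) (cut := Cut.none) (xt := Ext.none) (P1 := 536870912) (W1 := 536870912) (P2 := 0) (W2 := 536870912) (P3 := 335544320) (W3 := 67108864) (N0 := 3)
    rfl k0_pp_123_a

noncomputable def f_pp_123_b : ℕ → ℕ → ℕ → ℕ → Bool := onCell 536870912 536870912 1239849684 370763052 335544320 67108864
    (rowN 3 0 true true true .npn 1 2 3 (qsf 536870912 536870912 1239849684 370763052 3) ndN0q1 ndN1q2b pcN3 Cut.none Ext.none)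

def k0_pp_123_b : ∃ t, chk3 f_pp_123_b t 1 1 1 = true :=
  ⟨(l 4), by decide +kernel⟩

theorem c_pp_123_b : CertN 536870912 536870912 1239849684 370763052 335544320 67108864 3 true true true .npn 1 2 3
    ndN0q1 ndN1q2b pcN3 Cut.none Ext.none :=
  certN0 (fam := true) (s1 := true) (s2 := true) (a := 1) (b := 2) (c := 3) (cn := .npn) (n1 := ndN0q1) (n2 := ndN1q2b) (pc := pcN3) (cut := Cut.none) (xt := Ext.none) (P1 := 536870912) (W1 := 536870912) (P2 := 1239849684) (W2 := 370763052) (P3 := 335544320) (W3 := 67108864) (N0 := 3)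
    rfl k0_pp_123_b

noncomputable def f_pp_133 : ℕ → ℕ → ℕ → ℕ → Bool := onCell 536870912 536870912 1610612736 536870912 335544320 67108864
    (rowN 3 0 true true true .dn 1 3 3 (qsf 536870912 536870912 1610612736 536870912 3) ndN0q1 ndN1q3 pcN3 Cut.none Ext.none)

def k0_pp_133 : ∃ t, chk3 f_pp_133 t 1 1 1 = true :=
  ⟨(l 4), by decide +kernel⟩

theorem c_pp_133 : CertN 536870912 536870912 1610612736 536870912 335544320 67108864 3 true true true .dn 1 3 3
    ndN0q1 ndN1q3 pcN3 Cut.none Ext.none :=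
  certN0 (fam := true) (s1 := true) (s2 := true) (a := 1) (b := 3) (c := 3) (cn := .dn) (n1 := ndN0q1) (n2 := ndN1q3) (pc := pcN3) (cut := Cut.none) (xt := Ext.none) (P1 := 536870912) (W1 := 536870912) (P2 := 1610612736) (W2 := 536870912) (P3 := 335544320) (W3 := 67108864) (N0 := 3)
    rfl k0_pp_133

noncomputable def f_pp_202 : ℕ → ℕ → ℕ → ℕ → Bool := onCell 0 536870912 0 536870912 335544320 67108864
    (rowN 3 0 true true true .pp 2 0 2 (qsf 0 536870912 0 536870912 2) ndN0q2 ndN1q0 pcN2 Cut.none Ext.none)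

def k0_pp_202 : ∃ t, chk3 f_pp_202 t 1 1 1 = true :=
  ⟨(l 5), by decide +kernel⟩

theorem c_pp_202 : CertN 0 536870912 0 536870912 335544320 67108864 3 true true true .pp 2 0 2
    ndN0q2 ndN1q0 pcN2 Cut.none Ext.none :=
  certN0 (fam := true) (s1 := true) (s2 := true) (a := 2) (b := 0) (c := 2) (cn := .pp) (n1 := ndN0q2) (n2 := ndN1q0) (pc := pcN2) (cut := Cut.none) (xt := Ext.none) (P1 := 0) (W1 := 536870912) (P2 := 0) (W2 := 536870912) (P3 := 335544320) (W3 := 67108864) (N0 := 3)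
    rfl k0_pp_202

noncomputable def f_pp_203 : ℕ → ℕ → ℕ → ℕ → Bool := onCell 0 536870912 0 536870912 335544320 67108864
    (rowN 3 0 true true true .up 2 0 3 (qsf 0 536870912 0 536870912 3) ndN0q2 ndN1q0 pcN3 Cut.none Ext.none)

def k0_pp_203 : ∃ t, chk3 f_pp_203 t 1 1 1 = true :=
  ⟨(l 5), by decide +kernel⟩

theorem c_pp_203 : CertN 0 536870912 0 536870912 335544320 67108864 3 true true true .up 2 0 3
    ndN0q2 ndN1q0 pcN3 Cut.none Ext.none :=
  certN0 (fam := true) (s1 := true) (s2 := true) (a := 2) (b := 0) (c := 3) (cn := .up) (n1 := ndN0q2) (n2 := ndN1q0) (pc := pcN3) (cut := Cut.none) (xt := Ext.none) (P1 := 0) (W1 := 536870912) (P2 := 0) (W2 := 536870912) (P3 := 335544320) (W3 := 67108864) (N0 := 3)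
    rfl k0_pp_203

noncomputable def f_pp_213 : ℕ → ℕ → ℕ → ℕ → Bool := onCell 0 536870912 536870912 536870912 335544320 67108864
    (rowN 3 0 true true true .pnn 2 1 3 (qsf 0 536870912 536870912 536870912 3) ndN0q2 ndN1q1 pcN3 Cut.none Ext.none)

def k0_pp_213 : ∃ t, chk3 f_pp_213 t 1 1 1 = true :=
  ⟨(l 4), by decide +kernel⟩

theorem c_pp_213 : CertN 0 536870912 536870912 536870912 335544320 67108864 3 true true true .pnn 2 1 3
    ndN0q2 ndN1q1 pcN3 Cut.none Ext.none :=
  certN0 (fam := true) (s1 := true) (s2 := true) (a := 2) (b := 1) (c := 3) (cn := .pnn) (n1 := ndN0q2) (n2 := ndN1q1) (pc := pcN3) (cut := Cut.none) (xt := Ext.none) (P1 := 0) (W1 := 536870912) (P2 := 536870912) (W2 := 536870912) (P3 := 335544320) (W3 := 67108864) (N0 := 3)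
    rfl k0_pp_213

noncomputable def f_pm_001 : ℕ → ℕ → ℕ → ℕ → Bool := onCell 0 536870912 0 536870912 335544320 67108864
    (rowN 3 0 true true false .up 0 0 1 (qsf 0 536870912 0 536870912 1) ndN0q0 ndN1q0 pcN1 Cut.none Ext.none)

def k0_pm_001 : ∃ t, chk3 f_pm_001 t 1 1 1 = true :=
  ⟨(l 3), by decide +kernel⟩

theorem c_pm_001 : CertN 0 536870912 0 536870912 335544320 67108864 3 true true false .up 0 0 1
    ndN0q0 ndN1q0 pcN1 Cut.none Ext.none :=
  certN0 (fam := true) (s1 := true) (s2 := false) (a := 0) (b := 0) (c := 1) (cn := .up) (n1 := ndN0q0) (n2 := ndN1q0) (pc := pcN1) (cut := Cut.none) (xt := Ext.none) (P1 := 0) (W1 := 536870912) (P2 := 0) (W2 := 536870912) (P3 := 335544320) (W3 := 67108864) (N0 := 3)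
    rfl k0_pm_001

noncomputable def f_pm_011 : ℕ → ℕ → ℕ → ℕ → Bool := onCell 0 536870912 536870912 536870912 335544320 67108864
    (rowN 3 1 true true false .pnn 0 1 1 (qsf 0 536870912 536870912 536870912 1) ndN0q0 ndN1q1 pcN1 Cut.none Ext.none)

def k0_pm_011 : ∃ t, chk3 f_pm_011 t 1 1 1 = true :=
  ⟨(l 3), by decide +kernel⟩

theorem c_pm_011 : CertN 0 536870912 536870912 536870912 335544320 67108864 3 true true false .pnn 0 1 1
    ndN0q0 ndN1q1 pcN1 Cut.none Ext.none :=
  certN1 (fam := true) (s1 := true) (s2 := false) (a := 0) (b := 1) (c := 1) (cn := .pnn) (n1 := ndN0q0) (n2 := ndN1q1) (pc := pcN1) (cut := Cut.none) (xt := Ext.none) (P1 := 0) (W1 := 536870912) (P2 := 536870912) (W2 := 536870912) (P3 := 335544320) (W3 := 67108864) (N0 := 3)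
    rfl (fun _ => rfl) k0_pm_011

noncomputable def f_pm_012 : ℕ → ℕ → ℕ → ℕ → Bool := onCell 1073741824 536870912 536870912 536870912 335544320 67108864
    (rowN 3 2 true true false .pnp 0 1 2 (qsf 0 536870912 536870912 536870912 2) ndN0q0 ndN1q1 pcN2 Cut.none Ext.none)

def k0_pm_012 : ∃ t, chk3 f_pm_012 t 2 1 1 = true :=
  ⟨(a (a (l 3) (b (b (a (b (l 477446861351) (l 3)) (b (l 2) (a (l 181630590455) (l 17157800)))) (a (l 3) (b (a (l 374904217047) (b (l 17200944) (l 17237632))) (a (l 3) (b (l 17266072) (l 17282160)))))) (b (a (l 3) (b (a (l 3) (b (l 191294603911) (l 268067012487))) (l 3))) (l 3)))) (b (a (b (a (a (b (l 2) (l 17160864)) (l 2)) (l 2)) (a (a (b (l 17231400) (b (l 17290040) (l 17245224))) (a (b (l 17250712) (l 17236712)) (a (b (l 17265104) (l 17221192)) (a (b (l 17267752) (l 17213568)) (b (l 17257456) (l 17208632)))))) (b (l 17182008) (l 17165008)))) (b (l 2) (b (l 17022376) (l 17081168)))) (a (b (a (a (b (b (l 17186464) (l 142976074871)) (b (l 186999367383)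 (a (l 218137695415) (l 16977128)))) (a (b (l 17131176) (b (l 17030912) (l 16959328))) (a (b (l 17119328) (l 16984304)) (b (a (l 17113720) (l 17110312)) (a (l 16978608) (l 16974120)))))) (b (l 17079704) (l 16924752))) (a (a (a (l 3) (b (b (l 16908272) (l 161229079175)) (l 3))) (a (b (b (l 16888952) (l 16814240)) (b (a (l 16739728) (l 16728944)) (b (l 16672160) (l 16630376)))) (b (a (b (l 16874032) (l 16798800)) (a (b (l 16866592) (l 16791456)) (l 16825200))) (a (b (l 16717744) (l 16633712)) (a (b (l 16710056) (l 16625224)) (b (l 16705704) (l 16620616))))))) (b (b (l 16830064) (l 16750640)) (b (l 16669128) (b (l 16604048) (l 16559768)))))) (b (b (a (l 17013608) (l 16933544)) (b (l 16893416) (l 16818928))) (b (b (l 16734640) (a (l 16680448) (l 16607600))) (b (a (l 16593000) (l 16512624)) (a (l 16609304) (l 16480304)))))))), by decide +kernel⟩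

def k1_pm_012 : ∃ t, chk3 f_pm_012 t 3 1 1 = true :=
  ⟨(b (a (a (b (l 2) (b (l 2) (l 16944696))) (l 2)) (l 2)) (a (b (a (b (a (l 16907152) (l 16915008)) (b (l 16807648) (l 16689256))) (b (l 16948888) (b (l 16917632) (l 16866200)))) (b (a (b (l 16587272) (l 16491720)) (b (l 16784048) (l 16662072))) (a (b (l 16470416) (a (l 16325048) (l 16228120))) (b (l 16492448) (l 16263976))))) (b (a (b (l 2) (a (l 16992304) (l 2))) (l 2)) (b (a (b (l 16988728) (l 16941400)) (b (l 2) (l 17123480))) (a (b (l 16864328) (l 16750168)) (b (l 17108592) (l 17071288))))))), by decide +kernel⟩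

theorem s2_pm_012 : ∃ t, chk3 f_pm_012 t 1 1 1 = true := ex3_a k0_pm_012 k1_pm_012

theorem c_pm_012 : CertN 0 536870912 536870912 536870912 335544320 67108864 3 true true false .pnp 0 1 2
    ndN0q0 ndN1q1 pcN2 Cut.none Ext.none :=
  certN2 (fam := true) (s1 := true) (s2 := false) (a := 0) (b := 1) (c := 2) (cn := .pnp) (n1 := ndN0q0) (n2 := ndN1q1) (pc := pcN2) (cut := Cut.none) (xt := Ext.none) (P1 := 0) (W1 := 536870912) (P2 := 536870912) (W2 := 536870912) (P3 := 335544320) (W3 := 67108864) (N0 := 3)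
    rfl (fun _ => rfl) s2_pm_012

noncomputable def cut_pm_022_a : Cut := Cut.of [[⟨0, 0, 0, 67108864⟩, ⟨1, 1, 0, 67108864⟩, ⟨2, 1, 0, 67108864⟩], [⟨0, 0, 1, 33554432⟩, ⟨1, 1, 0, 33554432⟩, ⟨2, 1, 1, 33554432⟩]]

noncomputable def f_pm_022_a : ℕ → ℕ → ℕ → ℕ → Bool := onCell 1073741824 536870912 0 536870912 335544320 67108864
    (rowN 3 2 true true false .pp 0 2 2 (qsf 0 536870912 0 536870912 2) ndN0q0 ndN1q2a pcN2 cut_pm_022_a Ext.none)

def k0_pm_022_a : ∃ t, chk3 f_pm_022_a t 4 1 1 = true :=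
  ⟨(b (a (l 1) (a (l 1) (b (l 1) (b (l 1) (a (l 1) (b (l 1) (a (l 1) (l 16557048)))))))) (a (b (l 1) (b (a (l 1) (b (a (l 1) (a (l 1) (b (l 1) (a (l 16664288) (l 16660464))))) (a (l 6) (a (l 6) (b (l 16669480) (l 16676768)))))) (a (l 6) (a (l 6) (a (l 6) (b (a (l 6) (b (l 16674016) (l 16686968))) (b (b (l 16719800) (l 16726520)) (b (l 16722856) (c (l 16719992) (l 16718512)))))))))) (b (b (a (l 1) (a (b (l 16574136) (a (l 16583912) (l 16578496))) (b (a (l 16566744) (l 16561880)) (l 16570528)))) (a (a (b (l 1) (a (l 1) (b (l 16618656) (l 16624464)))) (b (a (l 16604392) (b (l 16595904) (l 16600648))) (b (a (l 16612112) (l 16605640)) (l 16635240)))) (a (b (a (l 16592344) (l 16586424)) (b (l 16596104) (l 16600888))) (b (l 16598696) (l 16606776))))) (b (a (a (b (b (a (l 16658696) (l 16630504)) (a (l 16665264) (l 16636752))) (b (b (l 16666424) (l 16669768)) (l 16669648))) (b (b (l 16640824) (l 16646592)) (b (l 16652528) (l 16658600)))) (b (a (a (l 16632976) (l 16625896)) (l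 16615544)) (a (l 16640008) (l 16624760)))) (a (b (b (a (c (l 16684832) (l 16684696)) (l 16668488)) (a (a (l 16702000) (l 16694064)) (l 16687296))) (b (a (a (a (l 16717400) (l 16713536)) (l 16707720)) (c (l 16696704) (l 16695224))) (a (b (c (l 16722680) (l 16721168)) (a (c (l 16712648) (l 16710960)) (l 16714840))) (b (l 16706704) (a (l 16696832) (l 16689272)))))) (b (a (b (l 16652024) (l 16665936)) (b (l 16635280) (l 16649512))) (a (b (l 16690736) (b (l 16691240) (c (l 16699984) (l 16676416)))) (b (l 16664152) (a (l 16683328) (l 16675336)))))))))), by decide +kernel⟩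

def k1_pm_022_a : ∃ t, chk3 f_pm_022_a t 5 2 1 = true :=
  ⟨(a (b (a (a (l 1) (b (l 16495320) (l 16529440))) (b (l 16501040) (a (l 16498040) (l 16486928)))) (b (a (a (b (l 16532304) (a (l 1) (l 16540504))) (b (l 16522120) (a (l 16535536) (a (l 16531720) (b (l 16526192) (l 16593912)))))) (a (l 16537920) (l 16505320))) (a (a (b (l 16568256) (l 16550416)) (a (l 16563488) (a (l 16539304) (a (l 16537784) (l 16536544))))) (a (l 16551992) (l 16519960))))) (b (b (a (l 16457032) (l 16430264)) (a (l 16468856) (l 16441408))) (b (a (l 16549408) (l 16478976)) (a (b (l 16500896) (l 16502864)) (l 16537232))))), by decide +kernel⟩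

def k2_pm_022_a : ∃ t, chk3 f_pm_022_a t 5 3 1 = true :=
  ⟨(b (a (a (a (b (b (l 16554736) (l 16560128)) (b (l 16566464) (l 16594552))) (a (b (l 16571320) (b (l 16558440) (l 16564992))) (a (b (l 16547048) (l 16579448)) (b (c (l 16591152) (l 16583400)) (b (l 16553544) (l 16581024)))))) (b (b (l 16529352) (l 16553960)) (b (l 16558328) (l 16584176)))) (b (a (b (l 16502560) (l 16502944)) (l 16534624)) (a (a (l 16555672) (l 16537024)) (a (l 16517344) (l 16475520))))) (a (a (b (a (b (l 16602256) (l 16610256)) (b (a (l 16572024) (b (l 16608176) (l 16611712))) (a (l 16579248) (c (l 16623728) (l 16626200))))) (a (b (l 16646088) (b (l 16647248) (c (l 16674696) (l 16671464)))) (b (a (l 16611256) (c (l 16627832) (l 16628504))) (b (a (l 16633544) (c (l 16648720) (l 16645976))) (a (l 16649024) (a (l 16640872) (c (l 16645704) (l 16642312)))))))) (b (b (l 16589304) (c (l 16595344) (l 16572232))) (b (c (l 16595056) (l 16581680)) (b (l 16616520) (c (b (l 16620168) (l 16628456)) (l 16630208))))))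 (b (a (b (l 16547608) (l 16558696)) (b (l 16495064) (l 16548704))) (b (a (a (l 16593352) (l 16588168)) (a (l 16584760) (l 16583248))) (a (b (c (l 16597920) (l 16591376)) (a (c (l 16596440) (l 16589776)) (c (l 16615016) (l 16585896)))) (b (c (l 16616352) (l 16585768)) (a (c (b (l 16588872) (l 16598936)) (l 16605080)) (b (l 16606312) (c (c (l 16625816) (l 16598904)) (l 16589928)))))))))), by decide +kernel⟩

def k3_pm_022_a : ∃ t, chk3 f_pm_022_a t 12 2 1 = true :=
  ⟨(b (a (b (l 16419784) (l 16451288)) (a (l 16423576) (l 16412728))) (a (a (b (l 16433616) (l 16451000)) (b (l 16415752) (l 16454656))) (b (a (l 16401704) (l 16391808)) (a (l 16441152) (l 16410936))))), by decide +kernel⟩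

def k4_pm_022_a : ∃ t, chk3 f_pm_022_a t 12 6 1 = true :=
  ⟨(a (b (b (l 16481984) (l 16474512)) (a (l 16474320) (l 16480640))) (b (b (l 16435912) (l 16423392)) (a (l 16473872) (l 16463568)))), by decide +kernel⟩

def k5_pm_022_a : ∃ t, chk3 f_pm_022_a t 12 14 1 = true :=
  ⟨(a (b (l 16531080) (a (l 16525128) (l 16526272))) (b (a (l 16485696) (l 16458824)) (a (l 16525728) (l 16523712)))), by decide +kernel⟩

def k6_pm_022_a : ∃ t, chk3 f_pm_022_a t 12 30 1 = true :=
  ⟨(a (a (b (l 16532272) (l 16552136)) (b (l 16535304) (l 16577792))) (a (b (l 16537496) (l 16581936)) (b (l 16538568) (l 16604208)))), by decide +kernel⟩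

def k7_pm_022_a : ∃ t, chk3 f_pm_022_a t 24 31 1 = true :=
  ⟨(b (a (c (l 16579368) (l 16566936)) (c (l 16607944) (l 16572240))) (a (c (b (l 16596416) (b (l 16605264) (c (a (l 16612728) (l 16617288)) (l 16628680)))) (b (l 16582976) (a (l 16592760) (l 16616640)))) (b (c (a (l 16602904) (l 16608472)) (l 16610608)) (b (c (a (l 16612360) (c (l 16622728) (l 16614112))) (a (l 16596464) (l 16601128))) (c (b (a (l 16638152) (c (a (l 16626048) (l 16629536)) (l 16618992))) (a (c (c (l 16626560) (l 16622480)) (l 16616336)) (c (a (c (l 16631648) (l 16627296)) (c (a (l 16634400) (l 16641016)) (a (l 16629912) (l 16631200)))) (a (l 16620760) (c (l 16625952) (l 16621408)))))) (a (l 16623448) (c (a (l 16610408) (l 16613016)) (l 16623728)))))))), by decide +kernel⟩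

def k8_pm_022_a : ∃ t, chk3 f_pm_022_a t 25 31 1 = true :=
  ⟨(b (a (c (b (l 16587688) (l 16600152)) (l 16613560)) (c (b (l 16588560) (l 16600160)) (l 16617976))) (b (a (c (a (l 16633512) (l 16612832)) (a (l 16594792) (l 16594392))) (c (c (l 16637584) (l 16607024)) (a (l 16593128) (l 16592128)))) (a (c (b (a (c (l 16626376) (l 16617232)) (c (l 16626040) (l 16616592))) (b (a (c (l 16630808) (l 16621520)) (c (l 16640888) (l 16620824))) (a (c (c (a (a (l 16636168) (l 16636056)) (b (l 16635192) (c (l 16637824) (l 16635456)))) (a (l 16631464) (l 16636440))) (c (a (l 16626808) (l 16626472)) (a (l 16622152) (l 16621744)))) (c (c (a (b (l 16635064) (c (l 14) (l 16635328))) (l 14)) (a (a (l 16631048) (l 16630968)) (a (l 16630904) (l 16636104)))) (c (a (l 16626200) (l 16626000)) (a (l 16621392) (l 16621120))))))) (a (b (l 16624416) (c (a (l 16613832) (l 16613280)) (l 16604136))) (b (l 16602352) (c (a (l 16612800) (l 16622872)) (l 16613360))))) (c (b (c (a (l 16625752) (l 14))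 (a (l 16616016) (l 16615720))) (b (c (a (c (l 14) (l 16627800)) (l 14)) (a (l 16620392) (l 16620240))) (c (c (l 14) (a (a (b (l 16630072) (c (l 14) (l 16630328))) (l 14)) (l 14))) (b (a (c (l 16625080) (l 16620096)) (c (l 16629672) (l 16619952))) (a (c (a (l 16631848) (c (l 16627824) (l 16625304))) (a (l 16621640) (l 16621512))) (c (a (c (l 14) (l 16625312)) (l 14)) (a (l 16621464) (c (l 16622792) (l 16620192))))))))) (a (b (l 16601344) (c (b (l 16610472) (c (a (l 16615944) (l 16615736)) (l 16610808))) (b (l 16600520) (l 16608504)))) (b (l 16621576) (c (b (l 16610032) (c (a (l 16615592) (l 16615528)) (a (l 16610464) (l 16610320)))) (a (l 16601344) (l 16601064))))))))), by decide +kernel⟩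

def k9_pm_022_a : ∃ t, chk3 f_pm_022_a t 13 2 1 = true :=
  ⟨(b (a (b (l 16345776) (l 16358856)) (l 16383736)) (a (b (l 16396656) (a (l 16400680) (l 16389664))) (b (l 16417904) (l 16416616)))), by decide +kernel⟩

def k10_pm_022_a : ∃ t, chk3 f_pm_022_a t 13 6 1 = true :=
  ⟨(a (b (b (l 16419656) (l 16401984)) (b (l 16408368) (l 16450336))) (b (b (l 16418224) (l 16430304)) (b (l 16471528) (l 16455872)))), by decide +kernel⟩

def k11_pm_022_a : ∃ t, chk3 f_pm_022_a t 13 14 1 = true :=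
  ⟨(a (b (a (l 16455136) (l 16453048)) (a (l 16523248) (l 16520336))) (b (a (l 16468320) (l 16549016)) (b (l 16518296) (l 16540504)))), by decide +kernel⟩

def k12_pm_022_a : ∃ t, chk3 f_pm_022_a t 13 30 1 = true :=
  ⟨(a (a (b (l 16537584) (l 16581168)) (b (l 16533856) (l 16578560))) (b (a (l 16548064) (l 16621600)) (a (l 16576272) (c (l 16730536) (l 16563728))))), by decide +kernel⟩

def k13_pm_022_a : ∃ t, chk3 f_pm_022_a t 26 31 1 = true :=
  ⟨(b (a (c (l 16613840) (l 16594712)) (c (l 16608728) (l 16593232))) (b (a (c (c (l 14) (l 16627376)) (a (l 16591400) (l 16590952))) (c (a (l 14) (l 16609400)) (a (l 16590800) (l 16590960)))) (a (c (a (a (b (l 16631304) (c (l 14) (c (l 14) (c (l 14) (a (l 16617944) (l 16623232)))))) (b (l 16631440) (l 14))) (l 14)) (b (a (l 16621128) (c (l 16605360) (l 16594656))) (b (c (a (l 16609880) (l 16610032)) (a (l 16599312) (l 16599168))) (c (b (a (c (l 16614808) (l 16609496)) (c (l 16620368) (l 16609656))) (a (c (a (l 16616304) (c (l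 16617752) (l 16615064))) (a (l 16611008) (l 16611032))) (c (a (c (l 14) (l 16615232)) (l 14)) (a (l 16611136) (c (l 16612712) (l 16609936)))))) (a (a (l 16602312) (l 16612688)) (c (a (l 16604912) (l 16605008)) (a (l 16599440) (l 16599456)))))))) (b (c (c (a (l 14) (l 16694984)) (l 14)) (a (c (l 16605672) (l 16594672)) (c (l 14) (l 16595008)))) (a (c (l 14) (c (a (b (l 16610368) (a (c (l 14) (l 16615960)) (l 14))) (l 14)) (b (l 16599336) (a (c (l 16610424) (l 16599552)) (c (a (l 16605368) (l 16605520)) (l 16599736)))))) (c (a (l 14) (c (c (l 16752736) (l 14)) (l 14))) (c (l 14) (b (l 16599840) (c (a (a (l 16610936) (l 14)) (l 14)) (a (l 16605240) (a (l 16600256) (l 16600456)))))))))))), by decide +kernel⟩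

def k14_pm_022_a : ∃ t, chk3 f_pm_022_a t 27 31 1 = true :=
  ⟨(b (a (c (a (l 16674440) (l 16708408)) (l 16592872)) (c (a (l 16740288) (l 16770216)) (l 16584848))) (b (a (c (a (l 16613064) (c (l 16769976) (l 16689696))) (a (l 16591440) (l 16592256))) (c (a (l 16718920) (l 16789928)) (a (l 14) (l 16595296)))) (c (a (b (a (c (l 16749272) (l 14)) (c (l 16780528) (l 16680696))) (c (a (a (a (l 16723752) (l 16752824)) (l 16764744)) (l 16766768)) (a (l 14) (a (l 14) (c (l 16737224) (l 14)))))) (c (a (l 16813296) (l 16840680)) (a (a (c (l 16748712) (l 14)) (a (l 16740952) (l 16748448))) (b (l 16762952) (l 16728512))))) (c (c (c (a (l 14) (a (l 14) (b (l 16716144) (l 16724216)))) (l 14)) (l 14)) (a (a (b (l 16595688) (a (b (l 16600440) (a (c (l 14) (l 16600680)) (l 14))) (l 14))) (l 14)) (l 14)))))), by decide +kernel⟩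

def k15_pm_022_a : ∃ t, chk3 f_pm_022_a t 7 2 1 = true :=
  ⟨(a (b (a (l 16575184) (b (l 16753872) (l 16751832))) (a (b (l 16587832) (l 16584672)) (b (l 16753408) (a (l 16705744) (l 16810680))))) (b (a (l 16914608) (l 17042440)) (a (b (l 16935752) (l 16958688)) (b (l 17085352) (l 17124208))))), by decide +kernel⟩

def k16_pm_022_a : ∃ t, chk3 f_pm_022_a t 14 3 1 = true :=
  ⟨(b (a (b (b (l 16582832) (l 16589496)) (b (l 16603912) (l 16603824))) (b (a (b (l 16706504) (l 16712664)) (l 16825832)) (b (l 16663704) (l 16685232)))) (b (a (b (a (l 16619568) (l 16681664)) (a (l 16654792) (l 16609472))) (b (a (l 16775112) (l 16894952)) (a (b (l 16798016) (l 16815168)) (l 16923520)))) (a (b (a (b (l 16686440) (c (l 16788752) (l 16631232))) (b (l 16743712) (c (l 16840072) (l 16691064)))) (b (a (c (a (l 16798320) (l 16824704)) (b (l 16652888) (l 16605184))) (c (l 16861336) (a (l 16704376) (l 16731560)))) (c (a (b (a (l 16817224) (l 16842864)) (a (c (l 16866384) (l 16794456)) (l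 16855600))) (a (l 16852064) (l 16895440))) (a (b (a (l 16584928) (l 16635640)) (b (a (c (l 16717968) (l 14)) (c (l 16746224) (l 16674808))) (c (a (a (a (l 16694152) (l 16722432)) (l 16733192)) (c (l 16771552) (l 16736408))) (a (l 14) (a (l 14) (c (l 16708232) (l 14))))))) (b (a (l 16705600) (l 16752976)) (c (a (l 16776560) (l 16801488)) (a (a (c (l 16718000) (l 14)) (a (l 16689984) (l 16717744))) (a (l 16706776) (l 16740752))))))))) (b (a (b (l 16770936) (c (l 16920040) (l 16787624))) (a (l 16929696) (l 16981776))) (a (b (c (l 16939224) (a (l 16779152) (l 16844112))) (c (a (l 16934144) (l 16987088)) (a (b (l 16778504) (a (a (l 16746856) (l 16805752)) (l 16831160))) (b (l 16864520) (l 16880296))))) (b (c (l 17037792) (l 16934512)) (c (l 17058424) (a (l 16933224) (l 16988352))))))))), by decide +kernel⟩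

def k17_pm_022_a : ∃ t, chk3 f_pm_022_a t 15 3 1 = true :=
  ⟨(b (a (b (a (l 16936840) (l 17039192)) (a (l 16970112) (l 17070048))) (b (l 17170952) (b (l 17195848) (l 17201960)))) (a (b (a (b (l 17000584) (l 17024112)) (b (l 17092320) (l 17111824))) (a (b (l 17053576) (c (l 17128456) (l 17050024))) (b (l 17136024) (l 17162176)))) (b (b (l 17210096) (l 17220328)) (b (l 17231016) (a (l 17218456) (l 17260432)))))), by decide +kernel⟩

theorem s18_pm_022_a : ∃ t, chk3 f_pm_022_a t 7 3 1 = true := ex3_a k16_pm_022_a k17_pm_022_a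

theorem s19_pm_022_a : ∃ t, chk3 f_pm_022_a t 7 1 1 = true := ex3_b k15_pm_022_a s18_pm_022_a

theorem s20_pm_022_a : ∃ t, chk3 f_pm_022_a t 13 31 1 = true := ex3_a k13_pm_022_a k14_pm_022_a

theorem s21_pm_022_a : ∃ t, chk3 f_pm_022_a t 13 15 1 = true := ex3_b k12_pm_022_a s20_pm_022_a

theorem s22_pm_022_a : ∃ t, chk3 f_pm_022_a t 13 7 1 = true := ex3_b k11_pm_022_a s21_pm_022_a

theorem s23_pm_022_a : ∃ t, chk3 f_pm_022_a t 13 3 1 = true := ex3_b k10_pm_022_a s22_pm_022_a

theorem s24_pm_022_a : ∃ t, chk3 f_pm_022_a t 13 1 1 = true := ex3_b k9_pm_022_a s23_pm_022_a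

theorem s25_pm_022_a : ∃ t, chk3 f_pm_022_a t 12 31 1 = true := ex3_a k7_pm_022_a k8_pm_022_a

theorem s26_pm_022_a : ∃ t, chk3 f_pm_022_a t 12 15 1 = true := ex3_b k6_pm_022_a s25_pm_022_a

theorem s27_pm_022_a : ∃ t, chk3 f_pm_022_a t 12 7 1 = true := ex3_b k5_pm_022_a s26_pm_022_a

theorem s28_pm_022_a : ∃ t, chk3 f_pm_022_a t 12 3 1 = true := ex3_b k4_pm_022_a s27_pm_022_a

theorem s29_pm_022_a : ∃ t, chk3 f_pm_022_a t 12 1 1 = true := ex3_b k3_pm_022_a s28_pm_022_a

theorem s30_pm_022_a : ∃ t, chk3 f_pm_022_a t 6 1 1 = true := ex3_a s29_pm_022_a s24_pm_022_a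

theorem s31_pm_022_a : ∃ t, chk3 f_pm_022_a t 3 1 1 = true := ex3_a s30_pm_022_a s19_pm_022_a

theorem s32_pm_022_a : ∃ t, chk3 f_pm_022_a t 5 1 1 = true := ex3_b k1_pm_022_a k2_pm_022_a

theorem s33_pm_022_a : ∃ t, chk3 f_pm_022_a t 2 1 1 = true := ex3_a k0_pm_022_a s32_pm_022_a

theorem s34_pm_022_a : ∃ t, chk3 f_pm_022_a t 1 1 1 = true := ex3_a s33_pm_022_a s31_pm_022_a

theorem c_pm_022_a : CertN 0 536870912 0 536870912 335544320 67108864 3 true true false .pp 0 2 2
    ndN0q0 ndN1q2a pcN2 cut_pm_022_a Ext.none :=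
  certN2 (fam := true) (s1 := true) (s2 := false) (a := 0) (b := 2) (c := 2) (cn := .pp) (n1 := ndN0q0) (n2 := ndN1q2a) (pc := pcN2) (cut := cut_pm_022_a) (xt := Ext.none) (P1 := 0) (W1 := 536870912) (P2 := 0) (W2 := 536870912) (P3 := 335544320) (W3 := 67108864) (N0 := 3)
    rfl (fun _ => rfl) s34_pm_022_a

noncomputable def cut_pm_022_b : Cut := Cut.of [[⟨0, 0, 0, 67108864⟩, ⟨1, 1, 0, 67108864⟩, ⟨2, 1, 0, 67108864⟩], [⟨0, 0, 1, 33554432⟩, ⟨1, 1, 0, 33554432⟩, ⟨2, 1, 1, 33554432⟩]]

noncomputable def f_pm_022_b : ℕ → ℕ → ℕ → ℕ → Bool := onCell 0 536870912 1073741824 536870912 335544320 67108864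
    (rowN 3 1 true true false .pp 0 2 2 (qsf 0 536870912 1239849684 370763052 2) ndN0q0 ndN1q2b pcN2 cut_pm_022_b Ext.none)

def k0_pm_022_b : ∃ t, chk3 f_pm_022_b t 1 1 1 = true :=
  ⟨(a (b (a (b (l 1) (a (b (a (b (a (b (l 1) (l 16513136)) (l 1)) (a (l 16482008) (l 16506472))) (b (l 1) (a (l 16530432) (l 1)))) (b (a (l 16444320) (l 16492664)) (a (l 16350024) (l 16398888)))) (b (l 1) (b (a (l 16559472) (l 1)) (a (l 16466248) (l 113312670631)))))) (l 1)) (b (a (b (a (b (a (l 16294768) (b (l 16321584) (l 16283008))) (l 16311456)) (b (b (l 16453968) (l 16415896)) (l 16412336))) (a (b (l 16222568) (l 16236760)) (b (l 16341736) (l 16303528)))) (b (a (b (a (l 16516952) (l 1)) (a (l 16406632) (l 16463504))) (l 1)) (a (b (l 16420800) (l 16351440)) (b (a (l 16480856) (l 1)) (l 45667050167))))) (b (a (b (a (l 16477176) (l 16511856)) (a (l 16640520) (l 16661216))) (a (b (l 16546280) (l 16683928)) (b (a (l 16576928) (l 16602472)) (a (l 16706864) (l 16727352))))) (a (a (b (l 16778088)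 (l 16923032)) (l 16849560)) (a (l 16856984) (b (l 16831104) (l 16925568))))))) (b (l 1) (b (l 1) (a (b (a (b (a (l 16635432) (l 1)) (a (l 16754672) (l 131566897175))) (l 1)) (a (b (l 56942250679) (l 16968360)) (b (l 173980375047) (l 121367107223)))) (l 1))))), by decide +kernel⟩

theorem c_pm_022_b : CertN 0 536870912 1239849684 370763052 335544320 67108864 3 true true false .pp 0 2 2
    ndN0q0 ndN1q2b pcN2 cut_pm_022_b Ext.none :=
  certN1 (fam := true) (s1 := true) (s2 := false) (a := 0) (b := 2) (c := 2) (cn := .pp) (n1 := ndN0q0) (n2 := ndN1q2b) (pc := pcN2) (cut := cut_pm_022_b) (xt := Ext.none) (P1 := 0) (W1 := 536870912) (P2 := 1239849684) (W2 := 370763052) (P3 := 335544320) (W3 := 67108864) (N0 := 3)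
    rfl (fun _ => rfl) k0_pm_022_b

noncomputable def f_pm_023_a : ℕ → ℕ → ℕ → ℕ → Bool := onCell 0 536870912 0 536870912 335544320 67108864
    (rowN 3 0 true true false .up 0 2 3 (qsf 0 536870912 0 536870912 3) ndN0q0 ndN1q2a pcN3 Cut.none Ext.none)

def k0_pm_023_a : ∃ t, chk3 f_pm_023_a t 1 1 1 = true :=
  ⟨(a (l 1) (b (a (a (l 1) (b (l 96670303639) (l 128882432247))) (a (b (l 16963544) (a (l 16930616) (l 16973624))) (b (l 17001208) (l 17013424)))) (a (b (l 1) (l 1)) (b (a (b (l 118145315671) (a (l 149283463223) (l 16926272))) (a (l 16992432) (l 17028320))) (a (b (a (l 1) (l 176127398471)) (l 1)) (b (a (l 107944671879) (l 17014696)) (a (l 189012351975) (b (l 16993864) (a (l 198676140791) (c (l 17048480) (l 103649796135))))))))))), by decide +kernel⟩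

theorem c_pm_023_a : CertN 0 536870912 0 536870912 335544320 67108864 3 true true false .up 0 2 3
    ndN0q0 ndN1q2a pcN3 Cut.none Ext.none :=
  certN0 (fam := true) (s1 := true) (s2 := false) (a := 0) (b := 2) (c := 3) (cn := .up) (n1 := ndN0q0) (n2 := ndN1q2a) (pc := pcN3) (cut := Cut.none) (xt := Ext.none) (P1 := 0) (W1 := 536870912) (P2 := 0) (W2 := 536870912) (P3 := 335544320) (W3 := 67108864) (N0 := 3)
    rfl k0_pm_023_a

noncomputable def f_pm_023_b : ℕ → ℕ → ℕ → ℕ → Bool := onCell 0 536870912 1610612736 536870912 335544320 67108864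
    (rowN 3 1 true true false .up 0 2 3 (qsf 0 536870912 1239849684 370763052 3) ndN0q0 ndN1q2b pcN3 Cut.none Ext.none)

def k0_pm_023_b : ∃ t, chk3 f_pm_023_b t 1 1 1 = true :=
  ⟨(b (a (b (a (b (a (l 17327240) (l 17263048)) (l 17364544)) (b (a (l 17190424) (l 17111560)) (a (l 17278912) (l 17212888)))) (a (b (l 17412336) (l 2)) (b (l 17299160) (l 17331664)))) (b (a (b (a (l 17029904) (l 103112979159)) (a (l 17140488) (l 17072696))) (a (b (l 211560954551) (l 17010648)) (l 220687804951))) (a (b (a (l 17203304) (l 17144520)) (l 17213320)) (a (b (l 17083992) (l 17126608)) (b (l 17019928) (l 17060696)))))) (b (a (a (l 2) (b (l 17341808) (l 2))) (a (b (l 17234144) (l 17235568)) (b (l 17159184) (l 17172584)))) (a (l 2) (l 4)))), by decide +kernel⟩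

theorem c_pm_023_b : CertN 0 536870912 1239849684 370763052 335544320 67108864 3 true true false .up 0 2 3
    ndN0q0 ndN1q2b pcN3 Cut.none Ext.none :=
  certN1 (fam := true) (s1 := true) (s2 := false) (a := 0) (b := 2) (c := 3) (cn := .up) (n1 := ndN0q0) (n2 := ndN1q2b) (pc := pcN3) (cut := Cut.none) (xt := Ext.none) (P1 := 0) (W1 := 536870912) (P2 := 1239849684) (W2 := 370763052) (P3 := 335544320) (W3 := 67108864) (N0 := 3)
    rfl (fun _ => rfl) k0_pm_023_b

noncomputable def f_pm_033 : ℕ → ℕ → ℕ → ℕ → Bool := onCell 0 536870912 1610612736 536870912 335544320 67108864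
    (rowN 3 1 true true false .pnn 0 3 3 (qsf 0 536870912 1610612736 536870912 3) ndN0q0 ndN1q3 pcN3 Cut.none Ext.none)

def k0_pm_033 : ∃ t, chk3 f_pm_033 t 1 1 1 = true :=
  ⟨(b (a (b (a (b (l 216931208551) (l 17419024)) (l 298535322983)) (a (b (l 17417368) (l 17414672)) (b (l 17291360) (l 17288248)))) (b (l 1) (a (l 284039539303) (l 1)))) (b (a (b (a (l 17399224) (l 17282576)) (l 4)) (a (b (l 17157664) (l 17148960)) (b (l 1) (l 17068392)))) (a (l 4) (l 4)))), by decide +kernel⟩

theorem c_pm_033 : CertN 0 536870912 1610612736 536870912 335544320 67108864 3 true true false .pnn 0 3 3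
    ndN0q0 ndN1q3 pcN3 Cut.none Ext.none :=
  certN1 (fam := true) (s1 := true) (s2 := false) (a := 0) (b := 3) (c := 3) (cn := .pnn) (n1 := ndN0q0) (n2 := ndN1q3) (pc := pcN3) (cut := Cut.none) (xt := Ext.none) (P1 := 0) (W1 := 536870912) (P2 := 1610612736) (W2 := 536870912) (P3 := 335544320) (W3 := 67108864) (N0 := 3)
    rfl (fun _ => rfl) k0_pm_033

noncomputable def cut_pm_101 : Cut := Cut.of [[⟨0, 1, 0, 67108864⟩, ⟨1, 0, 0, 67108864⟩, ⟨2, 1, 0, 67108864⟩]]

noncomputable def f_pm_101 : ℕ → ℕ → ℕ → ℕ → Bool := onCell 536870912 536870912 0 536870912 335544320 67108864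
    (rowN 3 2 true true false .npn 1 0 1 (qsf 536870912 536870912 0 536870912 1) ndN0q1 ndN1q0 pcN1 cut_pm_101 Ext.none)

def k0_pm_101 : ∃ t, chk3 f_pm_101 t 1 1 1 = true :=
  ⟨(a (l 3) (b (a (l 3) (b (a (l 3) (a (l 3) (a (l 3) (b (b (l 6) (l 3)) (l 3))))) (l 3))) (l 3))), by decide +kernel⟩

theorem c_pm_101 : CertN 536870912 536870912 0 536870912 335544320 67108864 3 true true false .npn 1 0 1
    ndN0q1 ndN1q0 pcN1 cut_pm_101 Ext.none :=
  certN2 (fam := true) (s1 := true) (s2 := false) (a := 1) (b := 0) (c := 1) (cn := .npn) (n1 := ndN0q1) (n2 := ndN1q0) (pc := pcN1) (cut := cut_pm_101) (xt := Ext.none) (P1 := 536870912) (W1 := 536870912) (P2 := 0) (W2 := 536870912) (P3 := 335544320) (W3 := 67108864) (N0 := 3)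
    rfl (fun _ => rfl) k0_pm_101

noncomputable def cut_pm_102 : Cut := Cut.of [[⟨0, 1, 0, 67108864⟩, ⟨1, 0, 0, 67108864⟩, ⟨2, 1, 0, 67108864⟩]]

noncomputable def f_pm_102 : ℕ → ℕ → ℕ → ℕ → Bool := onCell 536870912 536870912 1073741824 536870912 335544320 67108864
    (rowN 3 1 true true false .npp 1 0 2 (qsf 536870912 536870912 0 536870912 2) ndN0q1 ndN1q0 pcN2 cut_pm_102 Ext.none)

def k0_pm_102 : ∃ t, chk3 f_pm_102 t 1 1 1 = true :=
  ⟨(a (b (b (b (a (l 3) (a (l 3) (b (l 3) (b (l 3) (l 238539127751))))) (a (a (b (b (l 3) (l 2)) (l 2)) (b (b (l 3) (a (l 191294534887) (l 17107880))) (b (l 84927102439) (l 17099576)))) (b (a (a (l 194515802071) (l 191831409671)) (b (l 188073196039) (l 16994848))) (a (b (l 17048880) (l 17036024)) (l 16971928))))) (a (b (b (b (a (l 2) (l 17088216)) (l 2)) (l 2)) (l 2)) (b (a (b (b (l 17022296) (l 17000528)) (l 16976288)) (l 16960928)) (l 16941624)))) (b (b (a (l 2) (l 16854528)) (l 2)) (l 2))) (b (b (b (a (b (a (l 3) (a (l 3) (l 244981192967)))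 (a (a (l 200958009703) (l 222969643975)) (a (l 17040080) (l 16920320)))) (a (a (b (l 232096222247) (l 16884144)) (b (b (l 238538625575) (l 16858560)) (l 16854520))) (b (b (a (b (l 226190549015) (a (l 16826928) (l 16807864))) (l 6)) (a (l 16867048) (a (l 16781264) (l 6)))) (a (l 16826152) (a (l 16759520) (b (l 16749256) (l 16733280))))))) (a (b (a (l 17162752) (l 16922224)) (a (l 16897568) (l 16821064))) (a (b (l 16793944) (l 16769856)) (a (b (l 16754504) (l 16720696)) (b (l 16718064) (l 16683344)))))) (a (b (a (l 16882248) (l 16890216)) (l 16912248)) (b (a (b (l 16811936) (l 16696520)) (b (b (l 16676680) (l 16721376)) (l 16634368))) (a (l 16667384) (l 16605720))))) (b (b (a (l 16882568) (a (l 16681088) (l 16622560))) (a (l 16847032) (a (l 16792144) (l 16670824)))) (a (b (l 17021128) (l 2)) (b (a (l 16906232) (l 16882648)) (a (l 17055208) (l 17091584))))))), by decide +kernel⟩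

theorem c_pm_102 : CertN 536870912 536870912 0 536870912 335544320 67108864 3 true true false .npp 1 0 2
    ndN0q1 ndN1q0 pcN2 cut_pm_102 Ext.none :=
  certN1 (fam := true) (s1 := true) (s2 := false) (a := 1) (b := 0) (c := 2) (cn := .npp) (n1 := ndN0q1) (n2 := ndN1q0) (pc := pcN2) (cut := cut_pm_102) (xt := Ext.none) (P1 := 536870912) (W1 := 536870912) (P2 := 0) (W2 := 536870912) (P3 := 335544320) (W3 := 67108864) (N0 := 3)
    rfl (fun _ => rfl) k0_pm_102

noncomputable def f_pm_112 : ℕ → ℕ → ℕ → ℕ → Bool := onCell 536870912 536870912 1073741824 536870912 335544320 67108864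
    (rowN 3 1 true true false .dn 1 1 2 (qsf 536870912 536870912 536870912 536870912 2) ndN0q1 ndN1q1 pcN2 Cut.none Ext.none)

def k0_pm_112 : ∃ t, chk3 f_pm_112 t 1 1 1 = true :=
  ⟨(a (b (b (b (a (l 3) (l 1)) (a (a (b (l 539186890087) (b (l 17079912) (l 17151208))) (b (l 148881914103) (l 17108152))) (b (l 1) (a (l 17017592) (l 1))))) (b (b (b (a (a (l 17167480) (l 17116232)) (l 233036401895)) (a (b (l 17239072) (b (l 17177536) (a (l 17354256) (l 17085704)))) (l 17127960))) (a (l 17238824) (l 16958976))) (a (a (l 17038832) (l 16993592)) (l 16913144)))) (b (b (a (a (l 16937680) (l 16937152)) (l 16886016)) (a (a (l 16933376) (l 16948712)) (l 17067584))) (a (b (a (l 17004328) (l 17020776)) (a (l 17118072) (l 17123552))) (b (a (l 16999456) (l 16992912)) (a (l 17101808) (l 17078160)))))) (b (b (l 1) (a (b (l 1) (l 294239721687)) (l 1))) (b (b (a (l 197065805415) (l 1)) (a (l 17046312) (a (l 17058488) (l 1)))) (a (b (a (l 17082488) (l 17063176)) (l 17213744)) (b (a (l 17086360)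 (l 17167872)) (l 17421016)))))), by decide +kernel⟩

theorem c_pm_112 : CertN 536870912 536870912 536870912 536870912 335544320 67108864 3 true true false .dn 1 1 2
    ndN0q1 ndN1q1 pcN2 Cut.none Ext.none :=
  certN1 (fam := true) (s1 := true) (s2 := false) (a := 1) (b := 1) (c := 2) (cn := .dn) (n1 := ndN0q1) (n2 := ndN1q1) (pc := pcN2) (cut := Cut.none) (xt := Ext.none) (P1 := 536870912) (W1 := 536870912) (P2 := 536870912) (W2 := 536870912) (P3 := 335544320) (W3 := 67108864) (N0 := 3)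
    rfl (fun _ => rfl) k0_pm_112

noncomputable def f_pm_113 : ℕ → ℕ → ℕ → ℕ → Bool := onCell 536870912 536870912 1610612736 536870912 335544320 67108864
    (rowN 3 1 true true false .nn 1 1 3 (qsf 536870912 536870912 536870912 536870912 3) ndN0q1 ndN1q1 pcN3 Cut.none Ext.none)

def k0_pm_113 : ∃ t, chk3 f_pm_113 t 1 1 1 = true :=
  ⟨(b (a (a (b (a (b (l 17375984) (l 378596629495)) (b (l 17301240) (l 17435624))) (a (l 2) (b (l 17560240) (l 2)))) (b (a (l 17265936) (l 17186768)) (b (l 17304480) (l 503149682167)))) (b (a (l 17318288) (a (l 17109208) (l 17090512))) (a (a (l 17223064) (l 17136544)) (b (l 17130392) (l 17108376))))) (b (a (a (l 2) (b (a (l 2) (l 17482984)) (l 2))) (a (b (l 17234536) (l 316319154231)) (b (l 17055216) (l 16999176)))) (a (l 2) (a (b (a (l 2) (l 17255792)) (l 2)) (b (l 17018016) (b (l 17067920) (l 4))))))), by decide +kernel⟩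

theorem c_pm_113 : CertN 536870912 536870912 536870912 536870912 335544320 67108864 3 true true false .nn 1 1 3
    ndN0q1 ndN1q1 pcN3 Cut.none Ext.none :=
  certN1 (fam := true) (s1 := true) (s2 := false) (a := 1) (b := 1) (c := 3) (cn := .nn) (n1 := ndN0q1) (n2 := ndN1q1) (pc := pcN3) (cut := Cut.none) (xt := Ext.none) (P1 := 536870912) (W1 := 536870912) (P2 := 536870912) (W2 := 536870912) (P3 := 335544320) (W3 := 67108864) (N0 := 3)
    rfl (fun _ => rfl) k0_pm_113

noncomputable def cut_pm_123_a : Cut := Cut.of [[⟨0, 1, 0, 67108864⟩, ⟨1, 1, 0, 67108864⟩, ⟨2, 2, 0, 16777216⟩]]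

noncomputable def f_pm_123_a : ℕ → ℕ → ℕ → ℕ → Bool := onCell 1610612736 536870912 0 536870912 335544320 67108864
    (rowN 3 2 true true false .npn 1 2 3 (qsf 536870912 536870912 0 536870912 3) ndN0q1 ndN1q2a pcN3 cut_pm_123_a Ext.none)

def k0_pm_123_a : ∃ t, chk3 f_pm_123_a t 2 1 1 = true :=
  ⟨(a (b (a (l 1) (b (l 1) (l 119756733815))) (b (a (l 1) (b (l 17029936) (a (l 17038896) (l 17061312)))) (a (b (a (l 1) (l 17026640)) (b (a (l 31709276391) (l 17052872)) (a (b (l 27414271319) (c (l 17080328) (a (l 16958968) (l 16995264)))) (a (a (l 17058080) (l 17069760)) (l 17085024))))) (b (a (l 17063800) (l 17085784)) (b (a (l 17088352) (l 17108120)) (a (c (l 17144944) (l 17071088)) (l 17125896))))))) (b (a (b (l 17006144) (l 17029920)) (b (l 16994256) (l 17019624))) (b (a (b (l 17052624) (l 17072928)) (b (l 17041248) (l 17058160))) (a (b (a (l 17095032) (l 17094232)) (a (b (l 17115504) (l 17131448)) (l 17119440))) (b (l 17181856) (a (l 17106360) (l 17085360))))))), by decide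 +kernel⟩

def k1_pm_123_a : ∃ t, chk3 f_pm_123_a t 3 1 1 = true :=
  ⟨(a (b (a (b (l 16961616) (l 16985680)) (b (a (l 16924888) (l 16895688)) (l 17184560))) (b (a (b (l 17004176) (l 17017152)) (b (l 16948000) (l 16957296))) (a (b (a (l 17044120) (l 17015528)) (a (l 17057928) (l 17025560))) (b (l 16965256) (b (l 16969712) (l 16971336)))))) (a (b (a (b (l 16865432) (l 16885192)) (b (l 16838016) (l 16852248))) (b (a (l 16901304) (b (l 16862568) (l 16869208))) (a (b (l 16910976) (l 16912576)) (b (l 16873832) (b (l 16875232) (l 16873008)))))) (a (b (b (l 168276030887) (l 14194168295)) (b (b (l 16827840) (l 16832448)) (b (a (l 16846144) (l 16828192)) (b (l 16836464) (a (l 16844120) (l 16825104)))))) (b (a (b (l 4) (l 16887760)) (l 4)) (a (b (b (l 16818120) (l 16912800)) (b (b (l 16808512) (l 16810432)) (b (l 16808448) (b (l 16807880) (l 16805088))))) (b (a (l 16948336) (a (l 16889104) (l 4))) (a (a (b (l 16797160) (b (l 16797520) (b (l 16796216) (l 16793776)))) (b (l 16936800)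 (l 6))) (b (a (l 16868160) (b (l 4) (l 6))) (l 6))))))))), by decide +kernel⟩

theorem s2_pm_123_a : ∃ t, chk3 f_pm_123_a t 1 1 1 = true := ex3_a k0_pm_123_a k1_pm_123_a

theorem c_pm_123_a : CertN 536870912 536870912 0 536870912 335544320 67108864 3 true true false .npn 1 2 3
    ndN0q1 ndN1q2a pcN3 cut_pm_123_a Ext.none :=
  certN2 (fam := true) (s1 := true) (s2 := false) (a := 1) (b := 2) (c := 3) (cn := .npn) (n1 := ndN0q1) (n2 := ndN1q2a) (pc := pcN3) (cut := cut_pm_123_a) (xt := Ext.none) (P1 := 536870912) (W1 := 536870912) (P2 := 0) (W2 := 536870912) (P3 := 335544320) (W3 := 67108864) (N0 := 3)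
    rfl (fun _ => rfl) s2_pm_123_a

noncomputable def cut_pm_123_b : Cut := Cut.of [[⟨0, 1, 0, 67108864⟩, ⟨1, 1, 0, 67108864⟩, ⟨2, 2, 0, 16777216⟩]]

noncomputable def f_pm_123_b : ℕ → ℕ → ℕ → ℕ → Bool := onCell 536870912 536870912 1610612736 536870912 335544320 67108864
    (rowN 3 1 true true false .npn 1 2 3 (qsf 536870912 536870912 1239849684 370763052 3) ndN0q1 ndN1q2b pcN3 cut_pm_123_b Ext.none)

def k0_pm_123_b : ∃ t, chk3 f_pm_123_b t 1 1 1 = true :=
  ⟨(b (a (a (b (l 1) (a (b (l 215856168375) (l 17044200)) (b (l 1) (l 239478629799)))) (l 1)) (l 1)) (b (a (a (b (a (l 17019480) (l 17052248)) (a (l 17037352) (l 16976408))) (b (a (l 244310133351) (l 1)) (a (l 247531618855) (l 278133336615)))) (l 1)) (a (b (a (a (l 17034480) (l 16979328)) (a (b (l 16930824) (l 16942912)) (b (l 16887904) (l 16985488)))) (l 4)) (a (b (a (b (l 295849537383) (l 374233119463)) (l 1)) (b (a (b (l 233572420167) (l 4)) (a (b (l 1) (l 4)) (l 1))) (l 4))) (l 1))))), by decide +kernel⟩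

theorem c_pm_123_b : CertN 536870912 536870912 1239849684 370763052 335544320 67108864 3 true true false .npn 1 2 3
    ndN0q1 ndN1q2b pcN3 cut_pm_123_b Ext.none :=
  certN1 (fam := true) (s1 := true) (s2 := false) (a := 1) (b := 2) (c := 3) (cn := .npn) (n1 := ndN0q1) (n2 := ndN1q2b) (pc := pcN3) (cut := cut_pm_123_b) (xt := Ext.none) (P1 := 536870912) (W1 := 536870912) (P2 := 1239849684) (W2 := 370763052) (P3 := 335544320) (W3 := 67108864) (N0 := 3)
    rfl (fun _ => rfl) k0_pm_123_b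

noncomputable def f_pm_133 : ℕ → ℕ → ℕ → ℕ → Bool := onCell 536870912 536870912 1610612736 536870912 335544320 67108864
    (rowN 3 0 true true false .dn 1 3 3 (qsf 536870912 536870912 1610612736 536870912 3) ndN0q1 ndN1q3 pcN3 Cut.none Ext.none)

def k0_pm_133 : ∃ t, chk3 f_pm_133 t 1 1 1 = true :=
  ⟨(l 4), by decide +kernel⟩

theorem c_pm_133 : CertN 536870912 536870912 1610612736 536870912 335544320 67108864 3 true true false .dn 1 3 3
    ndN0q1 ndN1q3 pcN3 Cut.none Ext.none :=
  certN0 (fam := true) (s1 := true) (s2 := false) (a := 1) (b := 3) (c := 3) (cn := .dn) (n1 := ndN0q1) (n2 := ndN1q3) (pc := pcN3) (cut := Cut.none) (xt := Ext.none) (P1 := 536870912) (W1 := 536870912) (P2 := 1610612736) (W2 := 536870912) (P3 := 335544320) (W3 := 67108864) (N0 := 3)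
    rfl k0_pm_133

noncomputable def cut_pm_202 : Cut := Cut.of [[⟨0, 1, 0, 67108864⟩, ⟨1, 0, 0, 67108864⟩, ⟨2, 1, 0, 67108864⟩]]

noncomputable def f_pm_202 : ℕ → ℕ → ℕ → ℕ → Bool := onCell 0 536870912 0 536870912 335544320 67108864
    (rowN 3 0 true true false .pp 2 0 2 (qsf 0 536870912 0 536870912 2) ndN0q2 ndN1q0 pcN2 cut_pm_202 Ext.none)

def k0_pm_202 : ∃ t, chk3 f_pm_202 t 2 1 1 = true :=
  ⟨(b (a (b (b (b (a (b (l 16478392) (l 16448416)) (b (l 16467992) (l 16460808))) (a (l 16462528) (l 16468520))) (b (l 16488680) (l 16512176))) (b (l 16540880) (l 16585512))) (b (b (b (a (b (l 16486224) (l 16463400)) (b (l 16568640) (l 16482216))) (l 16547256)) (a (l 16667280) (l 16518632))) (b (a (l 16562648) (l 16599344)) (l 16603000)))) (b (b (a (l 16782544) (l 16779400)) (a (l 16865456) (l 16899712))) (b (a (l 2) (l 16950064)) (l 2)))), by decide +kernel⟩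

def k1_pm_202 : ∃ t, chk3 f_pm_202 t 3 1 1 = true :=
  ⟨(b (a (b (b (b (b (a (a (l 16584832) (b (l 16577488) (l 16566368))) (a (a (l 16617160) (b (l 16618872) (l 16608064))) (b (b (a (c (l 16642064) (l 16636288)) (c (l 16655248) (l 16649384))) (a (l 16634112) (l 16649272))) (l 16676256)))) (a (l 16555552) (a (l 16582600) (l 16660624)))) (a (l 16503840) (b (l 16577936) (l 16553568)))) (a (l 16519720) (l 16550936))) (b (b (l 16547568) (a (l 16578920) (l 16561600))) (a (l 16631560) (l 16594312)))) (b (b (a (a (b (b (b (b (a (l 16660328) (l 16669688)) (l 16662160)) (l 16657952)) (l 16711352)) (b (l 16653008) (l 16611672))) (b (b (b (b (l 6) (a (l 16677360) (l 6))) (l 16699400)) (l 16689464)) (b (l 16655472) (l 16642216)))) (b (a (b (l 6) (l 16725400)) (l 6)) (a (l 16713200) (b (l 16735208) (l 16697272))))) (a (a (l 16549288) (b (l 16676080) (b (l 16764920) (l 16557360)))) (b (a (l 16641272) (l 16670912)) (a (b (l 16617416) (l 16782576)) (l 16635672))))) (b (a (l 16553160)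 (b (b (a (l 16574056) (l 16820768)) (l 16753392)) (l 16573696))) (a (b (l 16567680) (l 16581568)) (b (l 16570160) (l 16572456)))))) (b (a (b (a (l 16743712) (l 16670904)) (a (l 16914712) (l 16903528))) (b (a (l 16607776) (b (l 16578296) (l 16582360))) (a (l 16957544) (l 16924864)))) (a (b (l 16993608) (l 2)) (b (a (l 17009248) (l 17101808)) (a (l 17067072) (l 17085368)))))), by decide +kernel⟩

theorem s2_pm_202 : ∃ t, chk3 f_pm_202 t 1 1 1 = true := ex3_a k0_pm_202 k1_pm_202

theorem c_pm_202 : CertN 0 536870912 0 536870912 335544320 67108864 3 true true false .pp 2 0 2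
    ndN0q2 ndN1q0 pcN2 cut_pm_202 Ext.none :=
  certN0 (fam := true) (s1 := true) (s2 := false) (a := 2) (b := 0) (c := 2) (cn := .pp) (n1 := ndN0q2) (n2 := ndN1q0) (pc := pcN2) (cut := cut_pm_202) (xt := Ext.none) (P1 := 0) (W1 := 536870912) (P2 := 0) (W2 := 536870912) (P3 := 335544320) (W3 := 67108864) (N0 := 3)
    rfl s2_pm_202

noncomputable def f_pm_203 : ℕ → ℕ → ℕ → ℕ → Bool := onCell 0 536870912 1610612736 536870912 335544320 67108864
    (rowN 3 1 true true false .up 2 0 3 (qsf 0 536870912 0 536870912 3) ndN0q2 ndN1q0 pcN3 Cut.none Ext.none)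

def k0_pm_203 : ∃ t, chk3 f_pm_203 t 1 1 1 = true :=
  ⟨(b (b (a (a (b (l 16888232) (l 16928176)) (b (l 16912904) (l 16969512))) (a (b (l 16917408) (l 17001000)) (b (l 16898936) (l 17013832)))) (a (b (a (l 4) (l 17004704)) (l 2)) (a (l 2) (l 2)))) (l 2)), by decide +kernel⟩

theorem c_pm_203 : CertN 0 536870912 0 536870912 335544320 67108864 3 true true false .up 2 0 3
    ndN0q2 ndN1q0 pcN3 Cut.none Ext.none :=
  certN1 (fam := true) (s1 := true) (s2 := false) (a := 2) (b := 0) (c := 3) (cn := .up) (n1 := ndN0q2) (n2 := ndN1q0) (pc := pcN3) (cut := Cut.none) (xt := Ext.none) (P1 := 0) (W1 := 536870912) (P2 := 0) (W2 := 536870912) (P3 := 335544320) (W3 := 67108864) (N0 := 3)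
    rfl (fun _ => rfl) k0_pm_203

noncomputable def f_pm_213 : ℕ → ℕ → ℕ → ℕ → Bool := onCell 0 536870912 1610612736 536870912 335544320 67108864
    (rowN 3 1 true true false .pnn 2 1 3 (qsf 0 536870912 536870912 536870912 3) ndN0q2 ndN1q1 pcN3 Cut.none Ext.none)

def k0_pm_213 : ∃ t, chk3 f_pm_213 t 1 1 1 = true :=
  ⟨(a (b (b (b (l 1) (l 296387045015)) (b (l 17084880) (l 4))) (l 4)) (b (b (a (l 17010160) (l 17029904)) (a (l 17160008) (b (l 17082880) (l 17076720)))) (b (b (l 17261560) (l 60902139543)) (l 4)))), by decide +kernel⟩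

theorem c_pm_213 : CertN 0 536870912 536870912 536870912 335544320 67108864 3 true true false .pnn 2 1 3
    ndN0q2 ndN1q1 pcN3 Cut.none Ext.none :=
  certN1 (fam := true) (s1 := true) (s2 := false) (a := 2) (b := 1) (c := 3) (cn := .pnn) (n1 := ndN0q2) (n2 := ndN1q1) (pc := pcN3) (cut := Cut.none) (xt := Ext.none) (P1 := 0) (W1 := 536870912) (P2 := 536870912) (W2 := 536870912) (P3 := 335544320) (W3 := 67108864) (N0 := 3)
    rfl (fun _ => rfl) k0_pm_213

noncomputable def f_mm_001 : ℕ → ℕ → ℕ → ℕ → Bool := onCell 0 536870912 0 536870912 335544320 67108864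
    (rowN 3 0 true false false .up 0 0 1 (qsf 0 536870912 0 536870912 1) ndN0q0 ndN1q0 pcN1 Cut.none Ext.none)

def k0_mm_001 : ∃ t, chk3 f_mm_001 t 1 1 1 = true :=
  ⟨(l 4), by decide +kernel⟩

theorem c_mm_001 : CertN 0 536870912 0 536870912 335544320 67108864 3 true false false .up 0 0 1
    ndN0q0 ndN1q0 pcN1 Cut.none Ext.none :=
  certN0 (fam := true) (s1 := false) (s2 := false) (a := 0) (b := 0) (c := 1) (cn := .up) (n1 := ndN0q0) (n2 := ndN1q0) (pc := pcN1) (cut := Cut.none) (xt := Ext.none) (P1 := 0) (W1 := 536870912) (P2 := 0) (W2 := 536870912) (P3 := 335544320) (W3 := 67108864) (N0 := 3)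
    rfl k0_mm_001

noncomputable def f_mm_011 : ℕ → ℕ → ℕ → ℕ → Bool := onCell 0 536870912 536870912 536870912 335544320 67108864
    (rowN 3 0 true false false .pnn 0 1 1 (qsf 0 536870912 536870912 536870912 1) ndN0q0 ndN1q1 pcN1 Cut.none Ext.none)

def k0_mm_011 : ∃ t, chk3 f_mm_011 t 1 1 1 = true :=
  ⟨(l 4), by decide +kernel⟩

theorem c_mm_011 : CertN 0 536870912 536870912 536870912 335544320 67108864 3 true false false .pnn 0 1 1
    ndN0q0 ndN1q1 pcN1 Cut.none Ext.none :=
  certN0 (fam := true) (s1 := false) (s2 := false) (a := 0) (b := 1) (c := 1) (cn := .pnn) (n1 := ndN0q0) (n2 := ndN1q1) (pc := pcN1) (cut := Cut.none) (xt := Ext.none) (P1 := 0) (W1 := 536870912) (P2 := 536870912) (W2 := 536870912) (P3 := 335544320) (W3 := 67108864) (N0 := 3)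
    rfl k0_mm_011

noncomputable def f_mm_012 : ℕ → ℕ → ℕ → ℕ → Bool := onCell 0 536870912 536870912 536870912 335544320 67108864
    (rowN 3 0 true false false .pnp 0 1 2 (qsf 0 536870912 536870912 536870912 2) ndN0q0 ndN1q1 pcN2 Cut.none Ext.none)

def k0_mm_012 : ∃ t, chk3 f_mm_012 t 1 1 1 = true :=
  ⟨(l 4), by decide +kernel⟩

theorem c_mm_012 : CertN 0 536870912 536870912 536870912 335544320 67108864 3 true false false .pnp 0 1 2
    ndN0q0 ndN1q1 pcN2 Cut.none Ext.none :=
  certN0 (fam := true) (s1 := false) (s2 := false) (a := 0) (b := 1) (c := 2) (cn := .pnp) (n1 := ndN0q0) (n2 := ndN1q1) (pc := pcN2) (cut := Cut.none) (xt := Ext.none) (P1 := 0) (W1 := 536870912) (P2 := 536870912) (W2 := 536870912) (P3 := 335544320) (W3 := 67108864) (N0 := 3)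
    rfl k0_mm_012

noncomputable def f_mm_022_a : ℕ → ℕ → ℕ → ℕ → Bool := onCell 0 536870912 0 536870912 335544320 67108864
    (rowN 3 0 true false false .pp 0 2 2 (qsf 0 536870912 0 536870912 2) ndN0q0 ndN1q2a pcN2 Cut.none Ext.none)

def k0_mm_022_a : ∃ t, chk3 f_mm_022_a t 1 1 1 = true :=
  ⟨(l 5), by decide +kernel⟩

theorem c_mm_022_a : CertN 0 536870912 0 536870912 335544320 67108864 3 true false false .pp 0 2 2
    ndN0q0 ndN1q2a pcN2 Cut.none Ext.none :=
  certN0 (fam := true) (s1 := false) (s2 := false) (a := 0) (b := 2) (c := 2) (cn := .pp) (n1 := ndN0q0) (n2 := ndN1q2a) (pc := pcN2) (cut := Cut.none) (xt := Ext.none) (P1 := 0) (W1 := 536870912) (P2 := 0) (W2 := 536870912) (P3 := 335544320) (W3 := 67108864) (N0 := 3)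
    rfl k0_mm_022_a

noncomputable def f_mm_022_b : ℕ → ℕ → ℕ → ℕ → Bool := onCell 0 536870912 1239849684 370763052 335544320 67108864
    (rowN 3 0 true false false .pp 0 2 2 (qsf 0 536870912 1239849684 370763052 2) ndN0q0 ndN1q2b pcN2 Cut.none Ext.none)

def k0_mm_022_b : ∃ t, chk3 f_mm_022_b t 1 1 1 = true :=
  ⟨(l 5), by decide +kernel⟩

theorem c_mm_022_b : CertN 0 536870912 1239849684 370763052 335544320 67108864 3 true false false .pp 0 2 2
    ndN0q0 ndN1q2b pcN2 Cut.none Ext.none :=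
  certN0 (fam := true) (s1 := false) (s2 := false) (a := 0) (b := 2) (c := 2) (cn := .pp) (n1 := ndN0q0) (n2 := ndN1q2b) (pc := pcN2) (cut := Cut.none) (xt := Ext.none) (P1 := 0) (W1 := 536870912) (P2 := 1239849684) (W2 := 370763052) (P3 := 335544320) (W3 := 67108864) (N0 := 3)
    rfl k0_mm_022_b

noncomputable def f_mm_023_a : ℕ → ℕ → ℕ → ℕ → Bool := onCell 0 536870912 0 536870912 335544320 67108864
    (rowN 3 0 true false false .up 0 2 3 (qsf 0 536870912 0 536870912 3) ndN0q0 ndN1q2a pcN3 Cut.none Ext.none)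

def k0_mm_023_a : ∃ t, chk3 f_mm_023_a t 1 1 1 = true :=
  ⟨(l 5), by decide +kernel⟩

theorem c_mm_023_a : CertN 0 536870912 0 536870912 335544320 67108864 3 true false false .up 0 2 3
    ndN0q0 ndN1q2a pcN3 Cut.none Ext.none :=
  certN0 (fam := true) (s1 := false) (s2 := false) (a := 0) (b := 2) (c := 3) (cn := .up) (n1 := ndN0q0) (n2 := ndN1q2a) (pc := pcN3) (cut := Cut.none) (xt := Ext.none) (P1 := 0) (W1 := 536870912) (P2 := 0) (W2 := 536870912) (P3 := 335544320) (W3 := 67108864) (N0 := 3)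
    rfl k0_mm_023_a

noncomputable def f_mm_023_b : ℕ → ℕ → ℕ → ℕ → Bool := onCell 0 536870912 1239849684 370763052 335544320 67108864
    (rowN 3 0 true false false .up 0 2 3 (qsf 0 536870912 1239849684 370763052 3) ndN0q0 ndN1q2b pcN3 Cut.none Ext.none)

def k0_mm_023_b : ∃ t, chk3 f_mm_023_b t 1 1 1 = true :=
  ⟨(l 5), by decide +kernel⟩

theorem c_mm_023_b : CertN 0 536870912 1239849684 370763052 335544320 67108864 3 true false false .up 0 2 3
    ndN0q0 ndN1q2b pcN3 Cut.none Ext.none :=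
  certN0 (fam := true) (s1 := false) (s2 := false) (a := 0) (b := 2) (c := 3) (cn := .up) (n1 := ndN0q0) (n2 := ndN1q2b) (pc := pcN3) (cut := Cut.none) (xt := Ext.none) (P1 := 0) (W1 := 536870912) (P2 := 1239849684) (W2 := 370763052) (P3 := 335544320) (W3 := 67108864) (N0 := 3)
    rfl k0_mm_023_b

noncomputable def f_mm_033 : ℕ → ℕ → ℕ → ℕ → Bool := onCell 0 536870912 1610612736 536870912 335544320 67108864
    (rowN 3 0 true false false .pnn 0 3 3 (qsf 0 536870912 1610612736 536870912 3) ndN0q0 ndN1q3 pcN3 Cut.none Ext.none)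

def k0_mm_033 : ∃ t, chk3 f_mm_033 t 1 1 1 = true :=
  ⟨(l 5), by decide +kernel⟩

theorem c_mm_033 : CertN 0 536870912 1610612736 536870912 335544320 67108864 3 true false false .pnn 0 3 3
    ndN0q0 ndN1q3 pcN3 Cut.none Ext.none :=
  certN0 (fam := true) (s1 := false) (s2 := false) (a := 0) (b := 3) (c := 3) (cn := .pnn) (n1 := ndN0q0) (n2 := ndN1q3) (pc := pcN3) (cut := Cut.none) (xt := Ext.none) (P1 := 0) (W1 := 536870912) (P2 := 1610612736) (W2 := 536870912) (P3 := 335544320) (W3 := 67108864) (N0 := 3)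
    rfl k0_mm_033

noncomputable def cut_mm_101 : Cut := Cut.of [[⟨0, 1, 0, 67108864⟩, ⟨1, 0, 0, 67108864⟩, ⟨2, 1, 0, 67108864⟩]]

noncomputable def f_mm_101 : ℕ → ℕ → ℕ → ℕ → Bool := onCell 536870912 536870912 0 536870912 335544320 67108864
    (rowN 3 0 true false false .npn 1 0 1 (qsf 536870912 536870912 0 536870912 1) ndN0q1 ndN1q0 pcN1 cut_mm_101 Ext.none)

def k0_mm_101 : ∃ t, chk3 f_mm_101 t 1 1 1 = true :=
  ⟨(a (l 4) (b (a (l 4) (b (a (l 4) (a (l 4) (b (b (l 6) (l 4)) (l 2)))) (l 4))) (l 4))), by decide +kernel⟩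

theorem c_mm_101 : CertN 536870912 536870912 0 536870912 335544320 67108864 3 true false false .npn 1 0 1
    ndN0q1 ndN1q0 pcN1 cut_mm_101 Ext.none :=
  certN0 (fam := true) (s1 := false) (s2 := false) (a := 1) (b := 0) (c := 1) (cn := .npn) (n1 := ndN0q1) (n2 := ndN1q0) (pc := pcN1) (cut := cut_mm_101) (xt := Ext.none) (P1 := 536870912) (W1 := 536870912) (P2 := 0) (W2 := 536870912) (P3 := 335544320) (W3 := 67108864) (N0 := 3)
    rfl k0_mm_101

noncomputable def cut_mm_102 : Cut := Cut.of [[⟨0, 1, 0, 67108864⟩, ⟨1, 0, 0, 67108864⟩, ⟨2, 1, 0, 67108864⟩]]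

noncomputable def f_mm_102 : ℕ → ℕ → ℕ → ℕ → Bool := onCell 536870912 536870912 0 536870912 335544320 67108864
    (rowN 3 0 true false false .npp 1 0 2 (qsf 536870912 536870912 0 536870912 2) ndN0q1 ndN1q0 pcN2 cut_mm_102 Ext.none)

def k0_mm_102 : ∃ t, chk3 f_mm_102 t 1 1 1 = true :=
  ⟨(a (l 4) (b (a (l 4) (b (a (l 4) (a (l 4) (b (b (l 6) (l 4)) (l 4)))) (l 4))) (l 4))), by decide +kernel⟩

theorem c_mm_102 : CertN 536870912 536870912 0 536870912 335544320 67108864 3 true false false .npp 1 0 2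
    ndN0q1 ndN1q0 pcN2 cut_mm_102 Ext.none :=
  certN0 (fam := true) (s1 := false) (s2 := false) (a := 1) (b := 0) (c := 2) (cn := .npp) (n1 := ndN0q1) (n2 := ndN1q0) (pc := pcN2) (cut := cut_mm_102) (xt := Ext.none) (P1 := 536870912) (W1 := 536870912) (P2 := 0) (W2 := 536870912) (P3 := 335544320) (W3 := 67108864) (N0 := 3)
    rfl k0_mm_102

noncomputable def f_mm_112 : ℕ → ℕ → ℕ → ℕ → Bool := onCell 536870912 536870912 536870912 536870912 335544320 67108864
    (rowN 3 0 true false false .dn 1 1 2 (qsf 536870912 536870912 536870912 536870912 2) ndN0q1 ndN1q1 pcN2 Cut.none Ext.none)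

def k0_mm_112 : ∃ t, chk3 f_mm_112 t 1 1 1 = true :=
  ⟨(l 4), by decide +kernel⟩

theorem c_mm_112 : CertN 536870912 536870912 536870912 536870912 335544320 67108864 3 true false false .dn 1 1 2
    ndN0q1 ndN1q1 pcN2 Cut.none Ext.none :=
  certN0 (fam := true) (s1 := false) (s2 := false) (a := 1) (b := 1) (c := 2) (cn := .dn) (n1 := ndN0q1) (n2 := ndN1q1) (pc := pcN2) (cut := Cut.none) (xt := Ext.none) (P1 := 536870912) (W1 := 536870912) (P2 := 536870912) (W2 := 536870912) (P3 := 335544320) (W3 := 67108864) (N0 := 3)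
    rfl k0_mm_112

noncomputable def f_mm_113 : ℕ → ℕ → ℕ → ℕ → Bool := onCell 536870912 536870912 536870912 536870912 335544320 67108864
    (rowN 3 0 true false false .nn 1 1 3 (qsf 536870912 536870912 536870912 536870912 3) ndN0q1 ndN1q1 pcN3 Cut.none Ext.none)

def k0_mm_113 : ∃ t, chk3 f_mm_113 t 1 1 1 = true :=
  ⟨(l 4), by decide +kernel⟩

theorem c_mm_113 : CertN 536870912 536870912 536870912 536870912 335544320 67108864 3 true false false .nn 1 1 3
    ndN0q1 ndN1q1 pcN3 Cut.none Ext.none :=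
  certN0 (fam := true) (s1 := false) (s2 := false) (a := 1) (b := 1) (c := 3) (cn := .nn) (n1 := ndN0q1) (n2 := ndN1q1) (pc := pcN3) (cut := Cut.none) (xt := Ext.none) (P1 := 536870912) (W1 := 536870912) (P2 := 536870912) (W2 := 536870912) (P3 := 335544320) (W3 := 67108864) (N0 := 3)
    rfl k0_mm_113

noncomputable def f_mm_123_a : ℕ → ℕ → ℕ → ℕ → Bool := onCell 536870912 536870912 0 536870912 335544320 67108864
    (rowN 3 0 true false false .npn 1 2 3 (qsf 536870912 536870912 0 536870912 3) ndN0q1 ndN1q2a pcN3 Cut.none Ext.none)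

def k0_mm_123_a : ∃ t, chk3 f_mm_123_a t 1 1 1 = true :=
  ⟨(l 4), by decide +kernel⟩

theorem c_mm_123_a : CertN 536870912 536870912 0 536870912 335544320 67108864 3 true false false .npn 1 2 3
    ndN0q1 ndN1q2a pcN3 Cut.none Ext.none :=
  certN0 (fam := true) (s1 := false) (s2 := false) (a := 1) (b := 2) (c := 3) (cn := .npn) (n1 := ndN0q1) (n2 := ndN1q2a) (pc := pcN3) (cut := Cut.none) (xt := Ext.none) (P1 := 536870912) (W1 := 536870912) (P2 := 0) (W2 := 536870912) (P3 := 335544320) (W3 := 67108864) (N0 := 3)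
    rfl k0_mm_123_a

noncomputable def f_mm_123_b : ℕ → ℕ → ℕ → ℕ → Bool := onCell 536870912 536870912 1239849684 370763052 335544320 67108864
    (rowN 3 0 true false false .npn 1 2 3 (qsf 536870912 536870912 1239849684 370763052 3) ndN0q1 ndN1q2b pcN3 Cut.none Ext.none)

def k0_mm_123_b : ∃ t, chk3 f_mm_123_b t 1 1 1 = true :=
  ⟨(l 4), by decide +kernel⟩

theorem c_mm_123_b : CertN 536870912 536870912 1239849684 370763052 335544320 67108864 3 true false false .npn 1 2 3
    ndN0q1 ndN1q2b pcN3 Cut.none Ext.none :=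
  certN0 (fam := true) (s1 := false) (s2 := false) (a := 1) (b := 2) (c := 3) (cn := .npn) (n1 := ndN0q1) (n2 := ndN1q2b) (pc := pcN3) (cut := Cut.none) (xt := Ext.none) (P1 := 536870912) (W1 := 536870912) (P2 := 1239849684) (W2 := 370763052) (P3 := 335544320) (W3 := 67108864) (N0 := 3)
    rfl k0_mm_123_b

noncomputable def f_mm_133 : ℕ → ℕ → ℕ → ℕ → Bool := onCell 536870912 536870912 1610612736 536870912 335544320 67108864
    (rowN 3 0 true false false .dn 1 3 3 (qsf 536870912 536870912 1610612736 536870912 3) ndN0q1 ndN1q3 pcN3 Cut.none Ext.none)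

def k0_mm_133 : ∃ t, chk3 f_mm_133 t 1 1 1 = true :=
  ⟨(l 4), by decide +kernel⟩

theorem c_mm_133 : CertN 536870912 536870912 1610612736 536870912 335544320 67108864 3 true false false .dn 1 3 3
    ndN0q1 ndN1q3 pcN3 Cut.none Ext.none :=
  certN0 (fam := true) (s1 := false) (s2 := false) (a := 1) (b := 3) (c := 3) (cn := .dn) (n1 := ndN0q1) (n2 := ndN1q3) (pc := pcN3) (cut := Cut.none) (xt := Ext.none) (P1 := 536870912) (W1 := 536870912) (P2 := 1610612736) (W2 := 536870912) (P3 := 335544320) (W3 := 67108864) (N0 := 3)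
    rfl k0_mm_133

noncomputable def cut_mm_202 : Cut := Cut.of [[⟨0, 1, 0, 67108864⟩, ⟨1, 0, 0, 67108864⟩, ⟨2, 1, 0, 67108864⟩]]

noncomputable def f_mm_202 : ℕ → ℕ → ℕ → ℕ → Bool := onCell 0 536870912 0 536870912 335544320 67108864
    (rowN 3 0 true false false .pp 2 0 2 (qsf 0 536870912 0 536870912 2) ndN0q2 ndN1q0 pcN2 cut_mm_202 Ext.none)

def k0_mm_202 : ∃ t, chk3 f_mm_202 t 1 1 1 = true :=
  ⟨(b (a (b (a (b (b (a (l 16458192) (l 16517248)) (l 16522080)) (l 16574744)) (b (b (a (b (l 16534192) (l 16489704)) (b (a (l 16521912) (l 16543504)) (l 16512664))) (a (l 16486176) (l 16534936))) (b (l 16603216) (l 16548592)))) (a (b (l 16537640) (l 16607848)) (b (a (l 16565688) (l 16612304)) (l 21173099719)))) (b (a (b (b (a (b (b (a (l 16565584) (l 16588728)) (l 16621104)) (a (l 16569128) (l 16593840))) (b (a (b (l 16643576) (l 16614720)) (b (a (l 16630320) (l 16643160)) (l 16639832))) (a (l 16618560) (l 16665312)))) (a (l 16628984) (b (l 16658168) (l 16642864)))) (a (b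 (l 16595320) (l 16614480)) (b (l 16744248) (l 16701256)))) (b (a (a (b (b (b (b (a (l 16655712) (l 16690632)) (l 16685440)) (l 16688048)) (l 16714128)) (l 16748096)) (a (b (b (b (b (l 6) (l 16686200)) (l 16689040)) (l 16694576)) (l 16734584)) (b (b (b (l 6) (l 16704576)) (l 16710384)) (l 16752088)))) (b (a (b (l 6) (b (l 6) (l 16785736))) (l 6)) (a (b (l 4) (l 4)) (l 4)))) (a (b (a (l 16723608) (l 4)) (l 4)) (l 4)))) (a (b (a (l 16762960) (l 4)) (l 4)) (l 4)))) (a (b (a (b (l 16760312) (l 16827312)) (l 4)) (l 4)) (l 4))), by decide +kernel⟩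

theorem c_mm_202 : CertN 0 536870912 0 536870912 335544320 67108864 3 true false false .pp 2 0 2
    ndN0q2 ndN1q0 pcN2 cut_mm_202 Ext.none :=
  certN0 (fam := true) (s1 := false) (s2 := false) (a := 2) (b := 0) (c := 2) (cn := .pp) (n1 := ndN0q2) (n2 := ndN1q0) (pc := pcN2) (cut := cut_mm_202) (xt := Ext.none) (P1 := 0) (W1 := 536870912) (P2 := 0) (W2 := 536870912) (P3 := 335544320) (W3 := 67108864) (N0 := 3)
    rfl k0_mm_202

noncomputable def f_mm_203 : ℕ → ℕ → ℕ → ℕ → Bool := onCell 0 536870912 1610612736 536870912 335544320 67108864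
    (rowN 3 1 true false false .up 2 0 3 (qsf 0 536870912 0 536870912 3) ndN0q2 ndN1q0 pcN3 Cut.none Ext.none)

def k0_mm_203 : ∃ t, chk3 f_mm_203 t 1 1 1 = true :=
  ⟨(b (a (l 4) (l 4)) (l 2)), by decide +kernel⟩

theorem c_mm_203 : CertN 0 536870912 0 536870912 335544320 67108864 3 true false false .up 2 0 3
    ndN0q2 ndN1q0 pcN3 Cut.none Ext.none :=
  certN1 (fam := true) (s1 := false) (s2 := false) (a := 2) (b := 0) (c := 3) (cn := .up) (n1 := ndN0q2) (n2 := ndN1q0) (pc := pcN3) (cut := Cut.none) (xt := Ext.none) (P1 := 0) (W1 := 536870912) (P2 := 0) (W2 := 536870912) (P3 := 335544320) (W3 := 67108864) (N0 := 3)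
    rfl (fun _ => rfl) k0_mm_203

noncomputable def f_mm_213 : ℕ → ℕ → ℕ → ℕ → Bool := onCell 0 536870912 536870912 536870912 335544320 67108864
    (rowN 3 0 true false false .pnn 2 1 3 (qsf 0 536870912 536870912 536870912 3) ndN0q2 ndN1q1 pcN3 Cut.none Ext.none)

def k0_mm_213 : ∃ t, chk3 f_mm_213 t 1 1 1 = true :=
  ⟨(l 4), by decide +kernel⟩

theorem c_mm_213 : CertN 0 536870912 536870912 536870912 335544320 67108864 3 true false false .pnn 2 1 3
    ndN0q2 ndN1q1 pcN3 Cut.none Ext.none :=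
  certN0 (fam := true) (s1 := false) (s2 := false) (a := 2) (b := 1) (c := 3) (cn := .pnn) (n1 := ndN0q2) (n2 := ndN1q1) (pc := pcN3) (cut := Cut.none) (xt := Ext.none) (P1 := 0) (W1 := 536870912) (P2 := 536870912) (W2 := 536870912) (P3 := 335544320) (W3 := 67108864) (N0 := 3)
    rfl k0_mm_213

end Pool.Agent.Strip051.G.I5_16_3_8.Tab.C.NA01

namespace Pool.Agent.Strip051.G.I5_16_3_8.Tab.C.NA02

open Pool.Agent.Strip051.PB Pool.Agent.Strip051.PB.T
open Pool.Agent.Strip051.G.I5_16_3_8.Tab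

noncomputable def f_pp_001 : ℕ → ℕ → ℕ → ℕ → Bool := onCell 0 536870912 0 536870912 335544320 67108864
    (rowN 3 0 true true true .up 0 0 1 (qsf 0 536870912 0 536870912 1) ndN0q0 ndN2q0 pcN1 Cut.none Ext.none)

def k0_pp_001 : ∃ t, chk3 f_pp_001 t 1 1 1 = true :=
  ⟨(l 4), by decide +kernel⟩

theorem c_pp_001 : CertN 0 536870912 0 536870912 335544320 67108864 3 true true true .up 0 0 1
    ndN0q0 ndN2q0 pcN1 Cut.none Ext.none :=
  certN0 (fam := true) (s1 := true) (s2 := true) (a := 0) (b := 0) (c := 1) (cn := .up) (n1 := ndN0q0) (n2 := ndN2q0) (pc := pcN1) (cut := Cut.none) (xt := Ext.none) (P1 := 0) (W1 := 536870912) (P2 := 0) (W2 := 536870912) (P3 := 335544320) (W3 := 67108864) (N0 := 3)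
    rfl k0_pp_001

noncomputable def f_pp_011 : ℕ → ℕ → ℕ → ℕ → Bool := onCell 0 536870912 536870912 536870912 335544320 67108864
    (rowN 3 0 true true true .pnn 0 1 1 (qsf 0 536870912 536870912 536870912 1) ndN0q0 ndN2q1 pcN1 Cut.none Ext.none)

def k0_pp_011 : ∃ t, chk3 f_pp_011 t 1 1 1 = true :=
  ⟨(l 4), by decide +kernel⟩

theorem c_pp_011 : CertN 0 536870912 536870912 536870912 335544320 67108864 3 true true true .pnn 0 1 1
    ndN0q0 ndN2q1 pcN1 Cut.none Ext.none :=
  certN0 (fam := true) (s1 := true) (s2 := true) (a := 0) (b := 1) (c := 1) (cn := .pnn) (n1 := ndN0q0) (n2 := ndN2q1) (pc := pcN1) (cut := Cut.none) (xt := Ext.none) (P1 := 0) (W1 := 536870912) (P2 := 536870912) (W2 := 536870912) (P3 := 335544320) (W3 := 67108864) (N0 := 3)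
    rfl k0_pp_011

noncomputable def f_pp_012 : ℕ → ℕ → ℕ → ℕ → Bool := onCell 0 536870912 536870912 536870912 335544320 67108864
    (rowN 3 0 true true true .pnp 0 1 2 (qsf 0 536870912 536870912 536870912 2) ndN0q0 ndN2q1 pcN2 Cut.none Ext.none)

def k0_pp_012 : ∃ t, chk3 f_pp_012 t 1 1 1 = true :=
  ⟨(l 4), by decide +kernel⟩

theorem c_pp_012 : CertN 0 536870912 536870912 536870912 335544320 67108864 3 true true true .pnp 0 1 2
    ndN0q0 ndN2q1 pcN2 Cut.none Ext.none :=
  certN0 (fam := true) (s1 := true) (s2 := true) (a := 0) (b := 1) (c := 2) (cn := .pnp) (n1 := ndN0q0) (n2 := ndN2q1) (pc := pcN2) (cut := Cut.none) (xt := Ext.none) (P1 := 0) (W1 := 536870912) (P2 := 536870912) (W2 := 536870912) (P3 := 335544320) (W3 := 67108864) (N0 := 3)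
    rfl k0_pp_012

noncomputable def f_pp_022 : ℕ → ℕ → ℕ → ℕ → Bool := onCell 0 536870912 1073741824 536870912 335544320 67108864
    (rowN 3 0 true true true .pp 0 2 2 (qsf 0 536870912 1073741824 536870912 2) ndN0q0 ndN2q2 pcN2 Cut.none Ext.none)

def k0_pp_022 : ∃ t, chk3 f_pp_022 t 1 1 1 = true :=
  ⟨(l 4), by decide +kernel⟩

theorem c_pp_022 : CertN 0 536870912 1073741824 536870912 335544320 67108864 3 true true true .pp 0 2 2
    ndN0q0 ndN2q2 pcN2 Cut.none Ext.none :=
  certN0 (fam := true) (s1 := true) (s2 := true) (a := 0) (b := 2) (c := 2) (cn := .pp) (n1 := ndN0q0) (n2 := ndN2q2) (pc := pcN2) (cut := Cut.none) (xt := Ext.none) (P1 := 0) (W1 := 536870912) (P2 := 1073741824) (W2 := 536870912) (P3 := 335544320) (W3 := 67108864) (N0 := 3)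
    rfl k0_pp_022

noncomputable def f_pp_023 : ℕ → ℕ → ℕ → ℕ → Bool := onCell 0 536870912 1073741824 536870912 335544320 67108864
    (rowN 3 0 true true true .up 0 2 3 (qsf 0 536870912 1073741824 536870912 3) ndN0q0 ndN2q2 pcN3 Cut.none Ext.none)

def k0_pp_023 : ∃ t, chk3 f_pp_023 t 1 1 1 = true :=
  ⟨(l 4), by decide +kernel⟩

theorem c_pp_023 : CertN 0 536870912 1073741824 536870912 335544320 67108864 3 true true true .up 0 2 3
    ndN0q0 ndN2q2 pcN3 Cut.none Ext.none :=
  certN0 (fam := true) (s1 := true) (s2 := true) (a := 0) (b := 2) (c := 3) (cn := .up) (n1 := ndN0q0) (n2 := ndN2q2) (pc := pcN3) (cut := Cut.none) (xt := Ext.none) (P1 := 0) (W1 := 536870912) (P2 := 1073741824) (W2 := 536870912) (P3 := 335544320) (W3 := 67108864) (N0 := 3)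
    rfl k0_pp_023

noncomputable def f_pp_033 : ℕ → ℕ → ℕ → ℕ → Bool := onCell 0 536870912 0 1230186008 335544320 67108864
    (rowN 3 0 true true true .pnn 0 3 3 (qsf 0 536870912 0 1230186008 3) ndN0q0 ndN2q3 pcN3 Cut.none Ext.none)

def k0_pp_033 : ∃ t, chk3 f_pp_033 t 1 1 1 = true :=
  ⟨(b (l 4) (l 4)), by decide +kernel⟩

theorem c_pp_033 : CertN 0 536870912 0 1230186008 335544320 67108864 3 true true true .pnn 0 3 3
    ndN0q0 ndN2q3 pcN3 Cut.none Ext.none :=
  certN0 (fam := true) (s1 := true) (s2 := true) (a := 0) (b := 3) (c := 3) (cn := .pnn) (n1 := ndN0q0) (n2 := ndN2q3) (pc := pcN3) (cut := Cut.none) (xt := Ext.none) (P1 := 0) (W1 := 536870912) (P2 := 0) (W2 := 1230186008) (P3 := 335544320) (W3 := 67108864) (N0 := 3)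
    rfl k0_pp_033

noncomputable def f_pp_101 : ℕ → ℕ → ℕ → ℕ → Bool := onCell 536870912 536870912 0 536870912 335544320 67108864
    (rowN 3 0 true true true .npn 1 0 1 (qsf 536870912 536870912 0 536870912 1) ndN0q1 ndN2q0 pcN1 Cut.none Ext.none)

def k0_pp_101 : ∃ t, chk3 f_pp_101 t 1 1 1 = true :=
  ⟨(l 5), by decide +kernel⟩

theorem c_pp_101 : CertN 536870912 536870912 0 536870912 335544320 67108864 3 true true true .npn 1 0 1
    ndN0q1 ndN2q0 pcN1 Cut.none Ext.none :=
  certN0 (fam := true) (s1 := true) (s2 := true) (a := 1) (b := 0) (c := 1) (cn := .npn) (n1 := ndN0q1) (n2 := ndN2q0) (pc := pcN1) (cut := Cut.none) (xt := Ext.none) (P1 := 536870912) (W1 := 536870912) (P2 := 0) (W2 := 536870912) (P3 := 335544320) (W3 := 67108864) (N0 := 3)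
    rfl k0_pp_101

noncomputable def f_pp_102 : ℕ → ℕ → ℕ → ℕ → Bool := onCell 536870912 536870912 0 536870912 335544320 67108864
    (rowN 3 0 true true true .npp 1 0 2 (qsf 536870912 536870912 0 536870912 2) ndN0q1 ndN2q0 pcN2 Cut.none Ext.none)

def k0_pp_102 : ∃ t, chk3 f_pp_102 t 1 1 1 = true :=
  ⟨(l 5), by decide +kernel⟩

theorem c_pp_102 : CertN 536870912 536870912 0 536870912 335544320 67108864 3 true true true .npp 1 0 2
    ndN0q1 ndN2q0 pcN2 Cut.none Ext.none :=
  certN0 (fam := true) (s1 := true) (s2 := true) (a := 1) (b := 0) (c := 2) (cn := .npp) (n1 := ndN0q1) (n2 := ndN2q0) (pc := pcN2) (cut := Cut.none) (xt := Ext.none) (P1 := 536870912) (W1 := 536870912) (P2 := 0) (W2 := 536870912) (P3 := 335544320) (W3 := 67108864) (N0 := 3)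
    rfl k0_pp_102

noncomputable def f_pp_112 : ℕ → ℕ → ℕ → ℕ → Bool := onCell 536870912 536870912 536870912 536870912 335544320 67108864
    (rowN 3 0 true true true .dn 1 1 2 (qsf 536870912 536870912 536870912 536870912 2) ndN0q1 ndN2q1 pcN2 Cut.none Ext.none)

def k0_pp_112 : ∃ t, chk3 f_pp_112 t 1 1 1 = true :=
  ⟨(l 4), by decide +kernel⟩

theorem c_pp_112 : CertN 536870912 536870912 536870912 536870912 335544320 67108864 3 true true true .dn 1 1 2
    ndN0q1 ndN2q1 pcN2 Cut.none Ext.none :=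
  certN0 (fam := true) (s1 := true) (s2 := true) (a := 1) (b := 1) (c := 2) (cn := .dn) (n1 := ndN0q1) (n2 := ndN2q1) (pc := pcN2) (cut := Cut.none) (xt := Ext.none) (P1 := 536870912) (W1 := 536870912) (P2 := 536870912) (W2 := 536870912) (P3 := 335544320) (W3 := 67108864) (N0 := 3)
    rfl k0_pp_112

noncomputable def f_pp_113 : ℕ → ℕ → ℕ → ℕ → Bool := onCell 536870912 536870912 536870912 536870912 335544320 67108864
    (rowN 3 0 true true true .nn 1 1 3 (qsf 536870912 536870912 536870912 536870912 3) ndN0q1 ndN2q1 pcN3 Cut.none Ext.none)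

def k0_pp_113 : ∃ t, chk3 f_pp_113 t 1 1 1 = true :=
  ⟨(l 4), by decide +kernel⟩

theorem c_pp_113 : CertN 536870912 536870912 536870912 536870912 335544320 67108864 3 true true true .nn 1 1 3
    ndN0q1 ndN2q1 pcN3 Cut.none Ext.none :=
  certN0 (fam := true) (s1 := true) (s2 := true) (a := 1) (b := 1) (c := 3) (cn := .nn) (n1 := ndN0q1) (n2 := ndN2q1) (pc := pcN3) (cut := Cut.none) (xt := Ext.none) (P1 := 536870912) (W1 := 536870912) (P2 := 536870912) (W2 := 536870912) (P3 := 335544320) (W3 := 67108864) (N0 := 3)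
    rfl k0_pp_113

noncomputable def f_pp_123 : ℕ → ℕ → ℕ → ℕ → Bool := onCell 536870912 536870912 1073741824 536870912 335544320 67108864
    (rowN 3 0 true true true .npn 1 2 3 (qsf 536870912 536870912 1073741824 536870912 3) ndN0q1 ndN2q2 pcN3 Cut.none Ext.none)

def k0_pp_123 : ∃ t, chk3 f_pp_123 t 1 1 1 = true :=
  ⟨(l 4), by decide +kernel⟩

theorem c_pp_123 : CertN 536870912 536870912 1073741824 536870912 335544320 67108864 3 true true true .npn 1 2 3
    ndN0q1 ndN2q2 pcN3 Cut.none Ext.none :=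
  certN0 (fam := true) (s1 := true) (s2 := true) (a := 1) (b := 2) (c := 3) (cn := .npn) (n1 := ndN0q1) (n2 := ndN2q2) (pc := pcN3) (cut := Cut.none) (xt := Ext.none) (P1 := 536870912) (W1 := 536870912) (P2 := 1073741824) (W2 := 536870912) (P3 := 335544320) (W3 := 67108864) (N0 := 3)
    rfl k0_pp_123

noncomputable def f_pp_133 : ℕ → ℕ → ℕ → ℕ → Bool := onCell 536870912 536870912 0 1230186008 335544320 67108864
    (rowN 3 0 true true true .dn 1 3 3 (qsf 536870912 536870912 0 1230186008 3) ndN0q1 ndN2q3 pcN3 Cut.none Ext.none)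

def k0_pp_133 : ∃ t, chk3 f_pp_133 t 1 1 1 = true :=
  ⟨(b (l 2) (l 4)), by decide +kernel⟩

theorem c_pp_133 : CertN 536870912 536870912 0 1230186008 335544320 67108864 3 true true true .dn 1 3 3
    ndN0q1 ndN2q3 pcN3 Cut.none Ext.none :=
  certN0 (fam := true) (s1 := true) (s2 := true) (a := 1) (b := 3) (c := 3) (cn := .dn) (n1 := ndN0q1) (n2 := ndN2q3) (pc := pcN3) (cut := Cut.none) (xt := Ext.none) (P1 := 536870912) (W1 := 536870912) (P2 := 0) (W2 := 1230186008) (P3 := 335544320) (W3 := 67108864) (N0 := 3)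
    rfl k0_pp_133

noncomputable def f_pp_202 : ℕ → ℕ → ℕ → ℕ → Bool := onCell 0 536870912 0 536870912 335544320 67108864
    (rowN 3 0 true true true .pp 2 0 2 (qsf 0 536870912 0 536870912 2) ndN0q2 ndN2q0 pcN2 Cut.none Ext.none)

def k0_pp_202 : ∃ t, chk3 f_pp_202 t 1 1 1 = true :=
  ⟨(l 5), by decide +kernel⟩

theorem c_pp_202 : CertN 0 536870912 0 536870912 335544320 67108864 3 true true true .pp 2 0 2
    ndN0q2 ndN2q0 pcN2 Cut.none Ext.none :=
  certN0 (fam := true) (s1 := true) (s2 := true) (a := 2) (b := 0) (c := 2) (cn := .pp) (n1 := ndN0q2) (n2 := ndN2q0) (pc := pcN2) (cut := Cut.none) (xt := Ext.none) (P1 := 0) (W1 := 536870912) (P2 := 0) (W2 := 536870912) (P3 := 335544320) (W3 := 67108864) (N0 := 3)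
    rfl k0_pp_202

noncomputable def f_pp_203 : ℕ → ℕ → ℕ → ℕ → Bool := onCell 0 536870912 0 536870912 335544320 67108864
    (rowN 3 0 true true true .up 2 0 3 (qsf 0 536870912 0 536870912 3) ndN0q2 ndN2q0 pcN3 Cut.none Ext.none)

def k0_pp_203 : ∃ t, chk3 f_pp_203 t 1 1 1 = true :=
  ⟨(l 5), by decide +kernel⟩

theorem c_pp_203 : CertN 0 536870912 0 536870912 335544320 67108864 3 true true true .up 2 0 3
    ndN0q2 ndN2q0 pcN3 Cut.none Ext.none :=
  certN0 (fam := true) (s1 := true) (s2 := true) (a := 2) (b := 0) (c := 3) (cn := .up) (n1 := ndN0q2) (n2 := ndN2q0) (pc := pcN3) (cut := Cut.none) (xt := Ext.none) (P1 := 0) (W1 := 536870912) (P2 := 0) (W2 := 536870912) (P3 := 335544320) (W3 := 67108864) (N0 := 3)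
    rfl k0_pp_203

noncomputable def f_pp_213 : ℕ → ℕ → ℕ → ℕ → Bool := onCell 0 536870912 536870912 536870912 335544320 67108864
    (rowN 3 0 true true true .pnn 2 1 3 (qsf 0 536870912 536870912 536870912 3) ndN0q2 ndN2q1 pcN3 Cut.none Ext.none)

def k0_pp_213 : ∃ t, chk3 f_pp_213 t 1 1 1 = true :=
  ⟨(l 4), by decide +kernel⟩

theorem c_pp_213 : CertN 0 536870912 536870912 536870912 335544320 67108864 3 true true true .pnn 2 1 3
    ndN0q2 ndN2q1 pcN3 Cut.none Ext.none :=
  certN0 (fam := true) (s1 := true) (s2 := true) (a := 2) (b := 1) (c := 3) (cn := .pnn) (n1 := ndN0q2) (n2 := ndN2q1) (pc := pcN3) (cut := Cut.none) (xt := Ext.none) (P1 := 0) (W1 := 536870912) (P2 := 536870912) (W2 := 536870912) (P3 := 335544320) (W3 := 67108864) (N0 := 3)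
    rfl k0_pp_213

noncomputable def f_pm_001 : ℕ → ℕ → ℕ → ℕ → Bool := onCell 0 536870912 0 536870912 335544320 67108864
    (rowN 3 0 true true false .up 0 0 1 (qsf 0 536870912 0 536870912 1) ndN0q0 ndN2q0 pcN1 Cut.none Ext.none)

def k0_pm_001 : ∃ t, chk3 f_pm_001 t 1 1 1 = true :=
  ⟨(a (l 3) (b (l 3) (a (l 3) (b (l 3) (a (l 3) (b (l 3) (a (l 3) (b (l 3) (a (c (l 72109205911) (l 68887902023)) (b (l 67277232775) (l 17104400))))))))))), by decide +kernel⟩

theorem c_pm_001 : CertN 0 536870912 0 536870912 335544320 67108864 3 true true false .up 0 0 1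
    ndN0q0 ndN2q0 pcN1 Cut.none Ext.none :=
  certN0 (fam := true) (s1 := true) (s2 := false) (a := 0) (b := 0) (c := 1) (cn := .up) (n1 := ndN0q0) (n2 := ndN2q0) (pc := pcN1) (cut := Cut.none) (xt := Ext.none) (P1 := 0) (W1 := 536870912) (P2 := 0) (W2 := 536870912) (P3 := 335544320) (W3 := 67108864) (N0 := 3)
    rfl k0_pm_001

noncomputable def cut_pm_011 : Cut := Cut.of [[⟨0, 0, 0, 67108864⟩, ⟨1, 1, 0, 67108864⟩, ⟨2, 1, 0, 67108864⟩]]

noncomputable def f_pm_011 : ℕ → ℕ → ℕ → ℕ → Bool := onCell 536870912 536870912 536870912 536870912 335544320 67108864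
    (rowN 3 2 true true false .pnn 0 1 1 (qsf 0 536870912 536870912 536870912 1) ndN0q0 ndN2q1 pcN1 cut_pm_011 Ext.none)

def k0_pm_011 : ∃ t, chk3 f_pm_011 t 2 1 1 = true :=
  ⟨(l 3), by decide +kernel⟩

def k1_pm_011 : ∃ t, chk3 f_pm_011 t 6 4 1 = true :=
  ⟨(l 3), by decide +kernel⟩

def k2_pm_011 : ∃ t, chk3 f_pm_011 t 7 8 1 = true :=
  ⟨(a (l 3) (a (l 3) (b (a (b (l 17121864) (l 47949839335)) (b (l 17117000) (l 17080408))) (a (a (l 3) (b (l 41507195255) (c (l 17027200) (b (l 16949840) (l 16913552))))) (b (c (l 17079696) (l 16985192)) (c (l 17025480) (a (l 16922288) (l 16912312)))))))), by decide +kernel⟩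

def k3_pm_011 : ∃ t, chk3 f_pm_011 t 14 9 1 = true :=
  ⟨(l 3), by decide +kernel⟩

def k4_pm_011 : ∃ t, chk3 f_pm_011 t 15 18 1 = true :=
  ⟨(a (l 3) (b (a (a (l 3) (c (l 24327209255) (b (l 26474532695) (c (l 16856016) (a (l 3) (l 16795552)))))) (c (a (l 16958416) (l 16955216)) (a (b (l 16861544) (c (l 16846448) (l 16784192))) (b (l 16849480) (l 16801624))))) (a (a (l 3) (a (l 3) (c (b (l 16897968) (c (l 16882848) (l 16773280))) (b (c (l 16803656) (l 25400526839)) (b (c (l 16761752) (l 16673496)) (c (a (l 41506654775) (l 16730760)) (a (b (l 16672448) (l 41506510807)) (l 16660160)))))))) (c (b (a (l 16896056) (l 16891704)) (a (c (l 16882064) (l 16810720)) (c (l 16880216) (l 16803768)))) (b (a (a (c (l 16799144) (l 16733360)) (l 16717888)) (a (l 16752496) (l 16744464))) (a (b (c (l 16753976) (l 16683000)) (a (c (l 16726384) (l 16653888)) (l 16683032))) (b (l 16662392) (a (l 16675800) (l 16668192))))))))), by decide +kernel⟩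

def k5_pm_011 : ∃ t, chk3 f_pm_011 t 30 19 1 = true :=
  ⟨(l 3), by decide +kernel⟩

def k6_pm_011 : ∃ t, chk3 f_pm_011 t 62 19 1 = true :=
  ⟨(b (a (l 3) (a (l 3) (c (b (c (l 16847640) (b (l 16782264) (l 16771120))) (c (l 16826112) (b (l 16759744) (l 16716656)))) (b (c (b (a (l 39359145687) (l 16709584)) (a (l 38285379863) (l 16697704))) (b (a (l 39359024327) (l 16637280)) (a (l 37748414839) (l 16624744)))) (c (a (b (l 36674742647) (l 33990362455)) (b (l 16685568) (l 16673176))) (a (b (l 36137804871) (l 33990324103)) (b (l 16611952) (l 16598888)))))))) (a (l 3) (c (a (l 3) (c (b (l 16803640) (b (l 16786128) (l 16774112))) (a (b (b (l 16737528) (l 16704520)) (l 3)) (b (b (l 16734912) (l 16722656)) (b (l 16710128) (l 17884271831)))))) (a (l 3) (a (b (c (b (l 33990336935) (l 50096465767)) (b (l 32379714039) (l 30232228247))) (l 3)) (b (c (b (l 16660512) (l 16626600)) (b (l 16585536) (l 16592872))) (b (c (l 19494811735) (l 16578936)) (c (c (l 16640000) (l 16601608)) (l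 16585672))))))))), by decide +kernel⟩

def k7_pm_011 : ∃ t, chk3 f_pm_011 t 63 19 1 = true :=
  ⟨(b (c (a (b (c (l 16845576) (l 16749800)) (c (l 16822952) (a (l 16749152) (l 16744232)))) (b (l 16760696) (c (l 16818480) (l 16736776)))) (a (b (c (b (l 16701576) (l 16668152)) (a (b (l 16630528) (l 16617616)) (l 16614816))) (a (c (b (l 16680072) (l 16667312)) (b (l 16604432) (l 16590960))) (c (l 16666080) (l 16587344)))) (b (a (l 16624432) (l 16637232)) (a (l 16617688) (l 16608504))))) (c (a (b (c (l 16799280) (a (b (l 16730760) (l 16718136)) (l 16718640))) (c (a (l 16776400) (l 16772488)) (a (b (l 16705232) (l 16692024)) (l 16670840)))) (a (b (l 16690864) (a (l 16686200) (l 16704432))) (b (l 16728272) (l 16658368)))) (a (b (a (c (b (l 16654264) (l 16640920)) (b (l 16577184) (l 16563104))) (c (l 16638944) (l 16558656))) (a (b (c (l 16627272) (l 16548712)) (c (l 16613320) (l 16554960))) (c (l 16610528) (l 16549600)))) (b (a (l 16605560) (l 16578408)) (a (c (l 16600648) (l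 16515768)) (l 16567792)))))), by decide +kernel⟩

def k8_pm_011 : ∃ t, chk3 f_pm_011 t 6 5 1 = true :=
  ⟨(l 3), by decide +kernel⟩

def k9_pm_011 : ∃ t, chk3 f_pm_011 t 14 5 1 = true :=
  ⟨(l 3), by decide +kernel⟩

def k10_pm_011 : ∃ t, chk3 f_pm_011 t 30 10 1 = true :=
  ⟨(l 3), by decide +kernel⟩

def k11_pm_011 : ∃ t, chk3 f_pm_011 t 62 20 1 = true :=
  ⟨(b (a (l 3) (c (a (l 3) (a (l 3) (c (b (b (l 16760808) (l 16748120)) (b (l 16714168) (l 14126221591))) (b (b (c (l 16703408) (l 16664952)) (c (l 16690176) (l 16273603175))) (b (c (l 15199911351) (l 15199859511)) (c (l 14663012743) (l 14126120375))))))) (a (l 3) (a (l 3) (c (b (b (c (l 16626352) (l 16587600)) (c (l 15736724535) (l 16573272))) (c (b (l 15199833591) (l 14126086823)) (b (l 16558624) (l 16543648)))) (b (b (l 16550144) (l 16514296)) (l 16528680))))))) (a (l 3) (c (a (l 3) (a (l 3) (a (l 3) (b (c (b (l 16273672183) (c (l 16713552) (l 16673328))) (b (c (l 16647528) (l 16607384)) (c (l 16632952) (l 16592408))))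 (c (b (c (l 16699416) (l 16637824)) (c (l 16663952) (l 16637360))) (b (c (l 16618024) (l 16577080)) (c (l 16623704) (l 16561392)))))))) (a (l 3) (a (l 3) (b (c (c (b (l 13589191943) (l 16574280)) (l 16529224)) (l 16524256)) (c (l 13052218055) (l 16530416)))))))), by decide +kernel⟩

def k12_pm_011 : ∃ t, chk3 f_pm_011 t 63 40 1 = true :=
  ⟨(c (a (b (c (a (b (l 16757376) (l 16744320)) (l 16745984)) (a (b (l 16641808) (c (l 16684648) (l 16644680))) (b (l 16670848) (l 16656440)))) (c (a (b (l 16730944) (c (l 16737456) (l 16697000))) (b (l 16725248) (l 16710992))) (a (b (c (l 16670688) (l 16630328)) (c (l 16656400) (l 16615632))) (b (l 16641680) (l 16626560))))) (b (c (a (l 16741032) (l 16736024)) (a (l 16655656) (l 16647552))) (c (a (l 16712128) (l 16706040)) (a (l 16624928) (l 16615616))))) (a (c (b (a (b (l 16620008) (c (l 16604552) (l 16564272))) (b (l 16588336) (l 16573088))) (a (c (b (l 16589800) (l 16574712)) (b (l 16549120) (l 16533624))) (b (l 16557480) (l 16541488))))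 (b (c (a (l 16513112) (l 16518136)) (l 16510400)) (a (l 16516128) (l 16488832)))) (b (c (a (l 16569640) (l 16558440)) (l 16475856)) (c (a (l 16537080) (l 16524536)) (l 16463616))))), by decide +kernel⟩

def k13_pm_011 : ∃ t, chk3 f_pm_011 t 63 41 1 = true :=
  ⟨(c (a (b (c (a (b (c (l 16723632) (l 16682776)) (c (l 16709464) (a (l 16670264) (l 16666128)))) (b (l 16696376) (l 16681392))) (a (a (b (l 16628952) (a (l 16631000) (l 16607344))) (b (l 16618664) (l 16603304))) (b (l 16611072) (l 16595192)))) (c (a (a (b (c (l 16696752) (l 16655496)) (c (l 16682032) (l 16640368))) (b (l 16672104) (l 16656848))) (b (l 16666032) (l 16650272))) (a (c (b (a (l 16614080) (l 16608760)) (a (l 16598528) (l 16592848))) (b (l 16611360) (l 16574232))) (b (l 16578912) (l 16562224))))) (b (c (a (l 16660744) (l 16674432)) (a (l 16592624) (l 16581992))) (c (a (l 16628712) (l 16641104)) (a (l 16579592) (l 16546544))))) (a (c (a (b (c (b (l 16559256) (l 16543440)) (l 16516728)) (c (l 16536648)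 (l 16522976))) (b (b (l 16525104) (l 16508320)) (l 16507920))) (b (l 16524528) (l 16530936))) (b (c (l 16498512) (l 16470272)) (c (l 16503952) (l 16477016))))), by decide +kernel⟩

def k14_pm_011 : ∃ t, chk3 f_pm_011 t 31 21 1 = true :=
  ⟨(a (b (b (a (l 3) (a (l 3) (a (l 3) (c (c (b (c (l 10368058679) (b (l 9831172679) (l 14663012247))) (c (l 18421114231) (l 8757430455))) (c (b (l 9831136359) (l 9294235207)) (l 11441622871))) (c (l 16543064) (l 16536680)))))) (l 3)) (l 3)) (b (c (a (b (a (a (c (b (c (l 16645984) (l 16624864)) (c (b (l 16655408) (l 16647584)) (l 16624712))) (c (b (l 16582608) (l 16566288)) (l 16539712))) (c (b (l 16641208) (l 16625176)) (b (l 16575872) (l 16537960)))) (c (b (l 16634096) (l 16617512)) (b (l 16545104) (l 16527544)))) (c (a (a (b (c (b (l 16639664) (l 16631648)) (l 14126114343)) (c (b (l 16623528) (l 16615304)) (l 16596984))) (b (l 16629704) (l 16633808))) (b (l 16621456) (l 16624952))) (a (b (l 16273454359) (l 16555496)) (l 16537456))))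 (b (c (a (b (l 16624544) (l 16607216)) (l 16605928)) (b (l 16509632) (l 16506568))) (c (a (b (l 16589416) (l 16571128)) (l 16589736)) (l 16523296)))) (a (b (c (a (l 16541368) (l 16514408)) (l 16516472)) (c (l 16550120) (l 16523048))) (b (l 16507760) (l 16514616)))) (c (a (c (b (a (c (b (a (b (l 16627952) (l 16619520)) (l 16596968)) (a (c (l 11978618807) (l 16574624)) (l 16579464))) (b (l 16560768) (l 16555864))) (b (c (l 16588208) (l 16541896)) (l 16546656))) (a (c (b (l 14126007367) (l 16575608)) (l 16571072)) (c (l 16557776) (l 16544408)))) (b (a (l 13589126439) (l 16533496)) (a (l 16556160) (l 16540072)))) (b (c (a (c (l 16587960) (l 16521528)) (l 16518968)) (l 16530088)) (c (a (l 16529616) (l 16513400)) (l 16515944)))) (a (b (c (l 16556664) (l 16529696)) (l 9294162855)) (b (l 16521520) (l 16507496)))))), by decide +kernel⟩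

def k15_pm_011 : ∃ t, chk3 f_pm_011 t 15 11 1 = true :=
  ⟨(a (l 3) (b (a (l 3) (b (c (a (b (c (a (c (l 11441678663) (l 16566944)) (l 16562848)) (l 16580880)) (c (a (l 16590472) (l 16558912)) (l 16582200))) (b (c (l 16549280) (l 16522800)) (c (l 16556080) (l 16529672)))) (a (b (l 16566992) (l 16573712)) (b (l 16514472) (l 16521480)))) (a (c (b (c (a (l 16602784) (l 16565568)) (l 6072992407)) (c (b (l 16601176) (l 16606376)) (l 16598232))) (b (l 16591416) (l 16610824))) (c (b (l 16570696) (c (l 16570264) (l 16544008))) (b (l 16528504) (l 16536032)))))) (a (l 3) (b (a (c (a (b (l 16619064) (l 16606184)) (b (l 16581048) (l 16589560))) (b (l 16599304) (l 16586656))) (c (b (l 16586576) (l 16585120)) (b (l 16544504) (l 16553448)))) (a (a (a (l 3) (c (l 16613056) (l 16602000))) (c (l 16600944) (l 16590008))) (c (b (l 16572424) (l 16579992)) (l 16565704))))))), by decide +kernel⟩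

def k16_pm_011 : ∃ t, chk3 f_pm_011 t 3 3 1 = true :=
  ⟨(a (l 3) (b (a (l 3) (a (l 3) (b (a (l 3) (b (a (a (b (c (l 16635720) (l 16618760)) (l 3)) (b (c (l 16613856) (l 16603496)) (c (l 16624608) (l 16615144)))) (b (c (b (l 16586920) (l 16593256)) (l 16580016)) (c (b (l 16599056) (l 16604360)) (l 16592368)))) (a (a (l 3) (b (c (l 16633864) (l 16625496)) (c (l 16643464) (l 16636160)))) (b (c (b (l 16609288) (l 16613920)) (l 16603328)) (c (b (l 16618704) (l 16624704)) (l 16614416)))))) (a (l 3) (a (a (l 3) (a (l 3) (b (b (l 16648088) (l 16659192)) (l 3)))) (a (b (b (l 16647912) (l 16669768)) (b (l 16670016) (l 16680240))) (b (b (l 16623112) (l 16634736)) (b (l 16645720) (l 16656192))))))))) (a (l 3) (a (l 3) (b (a (l 3) (a (l 3) (a (a (b (b (l 16697032) (l 3)) (l 3)) (b (b (l 16680008) (l 8220692023)) (b (c (l 16718944) (l 16721784)) (l 3)))) (b (b (c (l 16671432) (l 16668456)) (c (l 16698624) (l 16685344))) (b (b (l 16709368) (c (l 16707992) (l 16705528))) (b (c (l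 16720904) (l 16723848)) (c (a (l 16726352) (l 16720008)) (l 26474352247)))))))) (a (l 3) (b (a (l 3) (b (b (a (l 3) (b (a (l 16741432) (l 16724600)) (l 6))) (l 6)) (l 6))) (l 6)))))))), by decide +kernel⟩

theorem s17_pm_011 : ∃ t, chk3 f_pm_011 t 63 20 1 = true := ex3_b k12_pm_011 k13_pm_011

theorem s18_pm_011 : ∃ t, chk3 f_pm_011 t 31 20 1 = true := ex3_a k11_pm_011 s17_pm_011

theorem s19_pm_011 : ∃ t, chk3 f_pm_011 t 31 10 1 = true := ex3_b s18_pm_011 k14_pm_011

theorem s20_pm_011 : ∃ t, chk3 f_pm_011 t 15 10 1 = true := ex3_a k10_pm_011 s19_pm_011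

theorem s21_pm_011 : ∃ t, chk3 f_pm_011 t 15 5 1 = true := ex3_b s20_pm_011 k15_pm_011

theorem s22_pm_011 : ∃ t, chk3 f_pm_011 t 7 5 1 = true := ex3_a k9_pm_011 s21_pm_011

theorem s23_pm_011 : ∃ t, chk3 f_pm_011 t 3 5 1 = true := ex3_a k8_pm_011 s22_pm_011

theorem s24_pm_011 : ∃ t, chk3 f_pm_011 t 31 19 1 = true := ex3_a k6_pm_011 k7_pm_011

theorem s25_pm_011 : ∃ t, chk3 f_pm_011 t 15 19 1 = true := ex3_a k5_pm_011 s24_pm_011

theorem s26_pm_011 : ∃ t, chk3 f_pm_011 t 15 9 1 = true := ex3_b k4_pm_011 s25_pm_011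

theorem s27_pm_011 : ∃ t, chk3 f_pm_011 t 7 9 1 = true := ex3_a k3_pm_011 s26_pm_011

theorem s28_pm_011 : ∃ t, chk3 f_pm_011 t 7 4 1 = true := ex3_b k2_pm_011 s27_pm_011

theorem s29_pm_011 : ∃ t, chk3 f_pm_011 t 3 4 1 = true := ex3_a k1_pm_011 s28_pm_011

theorem s30_pm_011 : ∃ t, chk3 f_pm_011 t 3 2 1 = true := ex3_b s29_pm_011 s23_pm_011

theorem s31_pm_011 : ∃ t, chk3 f_pm_011 t 3 1 1 = true := ex3_b s30_pm_011 k16_pm_011

theorem s32_pm_011 : ∃ t, chk3 f_pm_011 t 1 1 1 = true := ex3_a k0_pm_011 s31_pm_011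

theorem c_pm_011 : CertN 0 536870912 536870912 536870912 335544320 67108864 3 true true false .pnn 0 1 1
    ndN0q0 ndN2q1 pcN1 cut_pm_011 Ext.none :=
  certN2 (fam := true) (s1 := true) (s2 := false) (a := 0) (b := 1) (c := 1) (cn := .pnn) (n1 := ndN0q0) (n2 := ndN2q1) (pc := pcN1) (cut := cut_pm_011) (xt := Ext.none) (P1 := 0) (W1 := 536870912) (P2 := 536870912) (W2 := 536870912) (P3 := 335544320) (W3 := 67108864) (N0 := 3)
    rfl (fun _ => rfl) s32_pm_011

end Pool.Agent.Strip051.G.I5_16_3_8.Tab.C.NA02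

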