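import Pool.Agent.Strip051.G.I5_16_3_8.Tab

/-! # Certificates N3 (generated) -/

set_option linter.all false
set_option maxRecDepth 100000

namespace Pool.Agent.Strip051.G.I5_16_3_8.Tab.C.NA02

open Pool.Agent.Strip051.PB Pool.Agent.Strip051.PB.T
open Pool.Agent.Strip051.G.I5_16_3_8.Tab

noncomputable def cut_pm_012 : Cut := Cut.of [[⟨0, 0, 0, 67108864⟩, ⟨1, 1, 0, 67108864⟩, ⟨2, 1, 0, 67108864⟩]]

noncomputable def f_pm_012 : ℕ → ℕ → ℕ → ℕ → Bool := onCell 1073741824 536870912 536870912 536870912 335544320 67108864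
    (rowN 3 2 true true false .pnp 0 1 2 (qsf 0 536870912 536870912 536870912 2) ndN0q0 ndN2q1 pcN2 cut_pm_012 Ext.none)

def k0_pm_012 : ∃ t, chk3 f_pm_012 t 4 4 1 = true :=
  ⟨(a (b (a (b (a (l 17085112) (l 17070392)) (a (b (l 17018168) (c (l 17018064) (l 16896800))) (l 16961160))) (b (l 17056912) (a (l 16980720) (l 16985064)))) (b (a (a (b (a (c (l 16949984) (l 16814288)) (l 16881536)) (a (b (l 16749144) (c (l 16838800) (l 16677952))) (b (l 16814528) (l 16763792)))) (b (l 16883960) (b (l 16822144) (l 16775512)))) (b (l 16900440) (a (l 16818632) (l 16844288)))) (a (a (b (a (c (b (l 16801264) (l 16776368)) (b (l 16633256) (l 16604960))) (c (l 16799736) (l 16626240))) (a (c (b (l 16749448) (l 16721112)) (b (l 16574352) (l 16542176))) (c (l 16748392) (l 16567720)))) (b (a (l 16722824) (l 16733728)) (a (l 16671056) (l 16684248)))) (a (b (l 16753536) (l 16705256)) (l 16762872))))) (b (a (b (l 2) (l 17000720)) (l 2)) (b (a (b (l 16941840) (l 16891720)) (l 16983128)) (a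 (a (l 16800904) (l 16842960)) (l 16911048))))), by decide +kernel⟩

def k1_pm_012 : ∃ t, chk3 f_pm_012 t 4 5 1 = true :=
  ⟨(b (a (a (a (b (b (a (c (b (l 16691256) (l 16659784)) (b (l 16508328) (l 16472688))) (c (l 16688984) (l 16500032))) (c (a (b (l 16626576) (l 16591520)) (l 16622760)) (a (l 16461200) (l 16424776)))) (c (a (b (b (l 16554472) (l 16557224)) (b (l 16496496) (l 16482744))) (b (l 16548704) (l 16465576))) (b (a (l 16475576) (l 16419928)) (l 16504744)))) (b (b (a (l 16608576) (l 16624416)) (a (l 16538344) (l 16555048))) (a (b (l 16501720) (l 16424840)) (b (l 16477328) (l 16389952))))) (b (a (b (l 16649896) (l 16583984)) (b (l 16686584) (l 16626752))) (a (b (l 16508232) (l 16422944)) (b (l 16555952) (l 16474560))))) (a (b (a (l 16700320) (l 16747672)) (a (l 16570896) (l 16627776))) (b (l 16824528) (l 16716456)))) (a (a (b (a (a (c (b (l 16524968) (l 16529104)) (b (l 16483800) (l 16498640))) (b (l 16496616) (l 16491008))) (b (l 16454536) (l 16460440))) (a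 (a (b (c (l 16564896) (l 16534608)) (l 16577336)) (b (l 16525992) (l 16520744))) (b (l 16474928) (a (l 16485200) (l 16449840))))) (b (a (c (l 16419752) (l 16398880)) (b (l 16382504) (l 16317024))) (b (a (l 16404272) (l 16331816)) (l 16439376)))) (b (a (a (l 16398120) (l 16468936)) (a (l 16541784) (l 16614776))) (a (b (l 16342112) (l 16354608)) (l 16372088))))), by decide +kernel⟩

def k2_pm_012 : ∃ t, chk3 f_pm_012 t 5 2 1 = true :=
  ⟨(b (b (l 2) (a (a (b (l 2) (a (l 16982128) (l 2))) (l 2)) (l 2))) (b (a (a (a (b (l 16905344) (l 16809336)) (b (l 16959408) (l 16871472))) (b (l 17039672) (l 16963992))) (b (l 2) (l 17134688))) (a (a (a (b (l 16687616) (l 16528632)) (b (l 16760192) (l 16616616))) (b (l 16867680) (l 16744168))) (b (l 17066048) (l 16978320))))), by decide +kernel⟩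

def k3_pm_012 : ∃ t, chk3 f_pm_012 t 8 6 1 = true :=
  ⟨(b (b (a (a (a (b (l 16592776) (l 16605952)) (l 16587072)) (b (a (l 16481248) (l 16465488)) (l 16521240))) (a (l 16472232) (l 16395440))) (a (a (a (b (l 16617272) (l 16628552)) (c (l 16594560) (l 16567128))) (a (l 16558600) (l 16524824))) (a (l 16493408) (l 16427368)))) (a (a (a (b (b (l 16620416) (l 16632496)) (b (l 16643888) (l 16654736))) (b (l 16616840) (c (l 16642008) (l 16638816)))) (a (b (a (l 16572304) (l 16556368)) (l 16609776)) (b (l 16529616) (l 16557440)))) (b (a (l 16524168) (l 16476440)) (b (l 16531808) (l 16546120))))), by decide +kernel⟩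

def k4_pm_012 : ∃ t, chk3 f_pm_012 t 8 7 1 = true :=
  ⟨(a (b (a (a (b (a (b (l 16676168) (l 16693288)) (c (l 16682128) (l 16690136))) (b (a (c (l 16710864) (l 16687488)) (l 16695528)) (a (b (l 16721560) (c (l 16709344) (l 16707312))) (c (l 16712440) (l 16689512))))) (b (b (l 16639456) (l 16678112)) (b (a (l 16681240) (l 16666808)) (a (l 16697368) (l 16683120))))) (b (b (l 16625568) (a (l 16627560) (l 16597344))) (a (b (l 16644896) (l 16671984)) (b (l 16615144) (l 16632168))))) (a (b (b (b (a (a (c (l 16727376) (l 16715032)) (l 16702104)) (c (l 16702744) (l 16701280))) (a (a (l 6) (l 16714944)) (a (l 16716744) (l 16702688)))) (a (l 6) (a (l 6) (b (l 16710312) (l 6))))) (l 6)) (b (a (b (a (l 16684632) (l 16670280)) (b (l 16694344) (l 16686232))) (b (l 16648504) (l 16664272))) (b (a (l 6) (b (l 16677368) (l 6))) (l 6))))) (b (a (b (l 16576600) (a (l 16607352) (l 16576816))) (b (b (l 16514432) (l 16506224)) (b (l 16520000) (l 16555640)))) (b (a (b (l 16627832) (a (l 16635448)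 (l 16603104))) (b (l 16592072) (a (l 16597592) (l 16556040)))) (b (a (b (a (l 16654448) (l 16632104)) (a (l 16663736) (l 16641088))) (b (l 16620696) (a (l 16598040) (l 16576568)))) (b (a (a (l 6) (l 16650168)) (c (l 16640000) (l 16635624))) (a (l 6) (a (l 16636648) (l 16593544)))))))), by decide +kernel⟩

def k5_pm_012 : ∃ t, chk3 f_pm_012 t 9 3 1 = true :=
  ⟨(b (b (a (b (a (l 16381656) (l 16349432)) (b (l 16419024) (l 16431824))) (b (l 16339888) (l 16402680))) (a (b (a (l 16434040) (l 16397352)) (b (l 16464672) (l 16499872))) (b (a (l 16383880) (l 16373088)) (a (l 16399696) (l 16386800))))) (b (a (a (b (l 16509896) (a (l 16521160) (l 16483200))) (b (l 16460616) (l 16501224))) (b (a (l 16415408) (l 16395328)) (b (l 16455896) (l 16463664)))) (b (a (a (b (l 16532912) (l 16568384)) (b (l 16476760) (l 16489480))) (b (a (l 16444800) (l 16416368)) (a (l 16455584) (l 16425080)))) (a (b (a (a (l 16551712) (l 16531696)) (l 16523960)) (a (b (l 16574408) (a (l 16572000) (l 16551056)))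 (b (l 16513600) (l 16520856)))) (b (a (l 16467256) (l 16434768)) (a (l 16500696) (l 16445344))))))), by decide +kernel⟩

def k6_pm_012 : ∃ t, chk3 f_pm_012 t 5 3 1 = true :=
  ⟨(b (a (b (a (a (l 16365248) (b (l 16426992) (l 16376344))) (b (l 16583128) (l 16370744))) (a (a (b (l 16364936) (l 16376744)) (b (l 16426504) (a (l 16372288) (l 16372536)))) (b (l 16353048) (l 16357568)))) (b (a (l 16528576) (l 16886400)) (b (a (l 16382360) (l 16638248)) (a (l 16334816) (l 16405912))))) (a (b (a (a (b (l 16380176) (l 16384448)) (b (a (l 16372984) (l 16373472)) (a (l 16372448) (l 16411072)))) (b (l 16356120) (l 16391056))) (a (a (b (l 16416072) (b (l 16406128) (l 16414664))) (b (a (l 16379296) (a (l 16373400) (l 16371424))) (a (b (l 16387744) (l 16394648)) (b (l 16421640) (a (l 16386512) (l 16383040)))))) (b (b (l 16344872) (l 16345128)) (b (l 16346832) (l 16371048))))) (b (b (a (l 16327672) (l 16308120)) (a (l 16315224) (l 16289816))) (b (a (b (l 16306800) (l 16300024)) (l 16293712))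 (a (b (l 16296440) (l 16294640)) (b (l 16260856) (l 16251792))))))), by decide +kernel⟩

def k7_pm_012 : ∃ t, chk3 f_pm_012 t 3 1 1 = true :=
  ⟨(b (a (b (l 2) (a (b (l 2) (a (l 17205968) (l 2))) (l 2))) (l 2)) (a (a (b (b (a (l 17052416) (l 17193792)) (a (b (l 16861672) (l 16679664)) (b (l 17055808) (l 16919288)))) (b (a (b (l 16437616) (l 16273608)) (b (l 16732152) (l 16482176))) (a (b (l 16250360) (a (l 16235680) (l 16224200))) (b (l 16250824) (l 16221072))))) (b (b (a (l 17311608) (l 2)) (a (l 17171144) (l 17312424))) (b (a (b (l 16984800) (l 16796104)) (b (l 17183928) (l 17051440))) (a (b (l 16544568) (l 16240512)) (b (l 16868288) (l 16410592)))))) (b (a (b (l 2) (a (l 17424768) (l 2))) (l 2)) (a (b (a (l 17295336) (l 17396552)) (a (b (l 17115808) (a (l 16874160) (l 17012720))) (b (l 17246608) (l 17097504)))) (b (a (l 17477280) (l 2)) (a (b (l 17334296) (l 17189376)) (l 17384304))))))), by decide +kernel⟩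

theorem s8_pm_012 : ∃ t, chk3 f_pm_012 t 8 3 1 = true := ex3_b k3_pm_012 k4_pm_012

theorem s9_pm_012 : ∃ t, chk3 f_pm_012 t 4 3 1 = true := ex3_a s8_pm_012 k5_pm_012

theorem s10_pm_012 : ∃ t, chk3 f_pm_012 t 2 3 1 = true := ex3_a s9_pm_012 k6_pm_012

theorem s11_pm_012 : ∃ t, chk3 f_pm_012 t 4 2 1 = true := ex3_b k0_pm_012 k1_pm_012

theorem s12_pm_012 : ∃ t, chk3 f_pm_012 t 2 2 1 = true := ex3_a s11_pm_012 k2_pm_012

theorem s13_pm_012 : ∃ t, chk3 f_pm_012 t 2 1 1 = true := ex3_b s12_pm_012 s10_pm_012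

theorem s14_pm_012 : ∃ t, chk3 f_pm_012 t 1 1 1 = true := ex3_a s13_pm_012 k7_pm_012

theorem c_pm_012 : CertN 0 536870912 536870912 536870912 335544320 67108864 3 true true false .pnp 0 1 2
    ndN0q0 ndN2q1 pcN2 cut_pm_012 Ext.none :=
  certN2 (fam := true) (s1 := true) (s2 := false) (a := 0) (b := 1) (c := 2) (cn := .pnp) (n1 := ndN0q0) (n2 := ndN2q1) (pc := pcN2) (cut := cut_pm_012) (xt := Ext.none) (P1 := 0) (W1 := 536870912) (P2 := 536870912) (W2 := 536870912) (P3 := 335544320) (W3 := 67108864) (N0 := 3)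
    rfl (fun _ => rfl) s14_pm_012

noncomputable def f_pm_022 : ℕ → ℕ → ℕ → ℕ → Bool := onCell 1073741824 536870912 1073741824 536870912 335544320 67108864
    (rowN 3 2 true true false .pp 0 2 2 (qsf 0 536870912 1073741824 536870912 2) ndN0q0 ndN2q2 pcN2 Cut.none Ext.none)

def k0_pm_022 : ∃ t, chk3 f_pm_022 t 4 2 1 = true :=
  ⟨(a (l 3) (b (a (a (a (l 3) (a (l 3) (b (l 3) (b (b (b (l 3) (l 49559647751)) (c (l 16651424) (l 16644488))) (l 1))))) (b (b (b (b (l 16707080) (l 16705864)) (b (l 16704256) (l 16702280))) (b (b (l 16699952) (l 16697280)) (a (l 42043486263) (l 16645144)))) (b (b (a (b (l 16650688) (c (l 16649616) (l 16643528))) (l 16648720)) (a (b (c (l 16645536) (l 16638976)) (l 16637784)) (b (l 16632256) (c (l 16631384) (l 16624304))))) (a (l 1) (b (l 16620952) (l 1)))))) (b (a (b (c (l 16673040) (l 16670728)) (b (l 16654384) (l 16670632))) (b (l 16664648) (b (l 16630936) (l 16627464)))) (a (b (b (a (l 16627752) (l 16617344)) (a (b (l 16622160) (l 16618080))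 (l 16610280))) (b (a (b (l 16613712) (l 16609088)) (l 14528741319)) (a (l 1) (l 16592688)))) (b (b (l 16622536) (a (l 16600336) (l 16590056))) (b (a (l 16592568) (l 16582768)) (a (l 16583648) (l 16574296))))))) (a (l 1) (b (a (l 1) (b (a (l 1) (l 16559592)) (l 1))) (l 1))))), by decide +kernel⟩

def k1_pm_022 : ∃ t, chk3 f_pm_022 t 5 2 1 = true :=
  ⟨(a (a (a (b (b (b (l 16667176) (c (l 16628608) (l 16623552))) (b (b (l 16599912) (l 16615872)) (a (b (l 16572488) (l 16564464)) (b (l 16562104) (l 16554944))))) (b (b (a (b (l 16555280) (l 1)) (b (l 16546768) (l 16537720))) (l 1)) (l 1))) (b (a (b (b (l 16632280) (l 16566640)) (b (l 16563264) (l 16555072))) (b (b (l 16655672) (l 16631528)) (b (l 16630448) (a (l 16556648) (l 16582536))))) (b (a (b (b (l 16545496) (l 16537728)) (l 1)) (b (a (l 29561023031) (b (l 16553048) (a (l 16544608) (l 16548200)))) (a (l 1) (a (l 1) (l 16535712))))) (l 1)))) (b (b (b (l 16615096) (a (l 16578688) (l 16528648))) (b (l 16609472) (a (l 16553944)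 (l 16531752)))) (b (b (a (b (l 16546584) (l 16540224)) (l 16524136)) (a (b (l 16532744) (l 16524240)) (b (l 16515080) (l 16507688)))) (b (a (l 1) (l 16494760)) (l 1))))) (b (b (b (a (l 16606256) (l 16606608)) (a (l 16524064) (l 16497240))) (b (a (l 16535448) (l 16434816)) (a (l 16496856) (l 16446440)))) (b (a (b (l 16493696) (a (l 16493976) (l 16475792))) (b (l 16450152) (l 16447432))) (a (b (a (l 16479400) (l 16463656)) (l 16454192)) (b (l 16439280) (l 44593247303)))))), by decide +kernel⟩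

def k2_pm_022 : ∃ t, chk3 f_pm_022 t 2 3 1 = true :=
  ⟨(a (l 1) (b (a (l 1) (b (b (a (l 1) (l 16430328)) (l 1)) (l 1))) (l 1))), by decide +kernel⟩

def k3_pm_022 : ∃ t, chk3 f_pm_022 t 3 1 1 = true :=
  ⟨(b (a (a (b (b (b (a (l 16619200) (l 16616224)) (b (l 16590336) (l 16527912))) (a (l 16487016) (b (l 16410816) (l 16331744)))) (b (a (l 16489928) (l 16403416)) (a (b (l 16404696) (l 16397152)) (l 16393000)))) (b (b (b (a (l 16596184) (l 16681224)) (a (l 16512520) (l 16579384))) (b (l 16515560) (a (l 16333560) (l 16422616)))) (b (a (l 16316760) (l 16360968)) (a (l 16344960) (l 16349488))))) (b (b (a (a (b (l 16829816) (l 16743160)) (b (l 16957808) (l 16883608))) (a (b (l 17066696) (l 17002576)) (b (l 17141976) (l 17091544)))) (a (a (b (l 16670104) (l 16611832)) (l 16795424)) (a (l 16929512) (l 17030056)))) (a (b (a (l 16558096) (l 16719856)) (a (l 16549696) (l 16698928))) (b (a (l 16861192) (l 16974760)) (a (l 16826104) (l 16939056)))))) (b (a (a (b (b (a (b (l 16388304)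 (l 16381096)) (l 16364024)) (a (l 16380520) (l 16366152))) (b (a (l 1) (l 16377968)) (l 1))) (b (b (a (l 16347984) (l 16376360)) (a (l 16357856) (l 16415696))) (a (b (l 16378048) (l 16398136)) (b (l 16476304) (l 16547992))))) (b (a (a (b (l 16578896) (l 16616800)) (b (l 16713464) (l 16737584))) (b (l 16874432) (l 16874984))) (a (a (b (l 16672384) (l 16738872)) (b (l 16775688) (l 16823776))) (b (l 16882944) (l 16898456))))) (a (a (l 1) (b (b (l 98280295623) (l 1)) (l 1))) (b (a (b (a (l 16811464) (l 16879944)) (a (l 16732296) (l 16824576))) (b (l 16920776) (a (l 16860088) (l 16922760)))) (a (a (l 1) (b (l 16623856) (l 1))) (b (a (l 16712112) (l 16830072)) (a (l 16503640) (l 16682840)))))))), by decide +kernel⟩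

theorem s4_pm_022 : ∃ t, chk3 f_pm_022 t 2 2 1 = true := ex3_a k0_pm_022 k1_pm_022

theorem s5_pm_022 : ∃ t, chk3 f_pm_022 t 2 1 1 = true := ex3_b s4_pm_022 k2_pm_022

theorem s6_pm_022 : ∃ t, chk3 f_pm_022 t 1 1 1 = true := ex3_a s5_pm_022 k3_pm_022

theorem c_pm_022 : CertN 0 536870912 1073741824 536870912 335544320 67108864 3 true true false .pp 0 2 2
    ndN0q0 ndN2q2 pcN2 Cut.none Ext.none :=
  certN2 (fam := true) (s1 := true) (s2 := false) (a := 0) (b := 2) (c := 2) (cn := .pp) (n1 := ndN0q0) (n2 := ndN2q2) (pc := pcN2) (cut := Cut.none) (xt := Ext.none) (P1 := 0) (W1 := 536870912) (P2 := 1073741824) (W2 := 536870912) (P3 := 335544320) (W3 := 67108864) (N0 := 3)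
    rfl (fun _ => rfl) s6_pm_022

noncomputable def f_pm_023 : ℕ → ℕ → ℕ → ℕ → Bool := onCell 0 536870912 1073741824 536870912 335544320 67108864
    (rowN 3 0 true true false .up 0 2 3 (qsf 0 536870912 1073741824 536870912 3) ndN0q0 ndN2q2 pcN3 Cut.none Ext.none)

def k0_pm_023 : ∃ t, chk3 f_pm_023 t 1 1 1 = true :=
  ⟨(a (b (a (l 1) (b (l 1) (a (l 1) (l 199212448487)))) (b (a (b (l 1) (l 229277864583)) (b (l 233573315687) (l 236257993047))) (a (b (b (l 247531744071) (l 237868346007)) (a (l 17104144) (l 17245048))) (b (b (l 17221320) (l 17256976)) (l 17348568))))) (b (a (b (a (l 1) (l 207802122567)) (a (l 220150562503) (l 16993728))) (b (a (l 212634523895) (b (l 244309885943) (l 17038344))) (a (l 17069768) (l 17097880)))) (b (a (b (a (l 17097656) (l 17132920)) (l 17176552)) (b (l 17316584) (l 17124080))) (a (b (a (l 17226304) (l 17200672)) (a (l 17353624) (l 17329392))) (b (a (l 17165584) (l 17206600)) (a (l 17288584) (b (l 17187480) (a (l 17269800) (b (l 17215744)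 (l 4)))))))))), by decide +kernel⟩

theorem c_pm_023 : CertN 0 536870912 1073741824 536870912 335544320 67108864 3 true true false .up 0 2 3
    ndN0q0 ndN2q2 pcN3 Cut.none Ext.none :=
  certN0 (fam := true) (s1 := true) (s2 := false) (a := 0) (b := 2) (c := 3) (cn := .up) (n1 := ndN0q0) (n2 := ndN2q2) (pc := pcN3) (cut := Cut.none) (xt := Ext.none) (P1 := 0) (W1 := 536870912) (P2 := 1073741824) (W2 := 536870912) (P3 := 335544320) (W3 := 67108864) (N0 := 3)
    rfl k0_pm_023

noncomputable def f_pm_033 : ℕ → ℕ → ℕ → ℕ → Bool := onCell 1610612736 536870912 0 1230186008 335544320 67108864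
    (rowN 3 2 true true false .pnn 0 3 3 (qsf 0 536870912 0 1230186008 3) ndN0q0 ndN2q3 pcN3 Cut.none Ext.none)

def k0_pm_033 : ∃ t, chk3 f_pm_033 t 1 1 1 = true :=
  ⟨(a (b (l 1) (b (a (l 1) (a (l 1) (l 17534808))) (a (b (l 1) (b (l 17475032) (l 17403424))) (b (a (l 17501848) (l 17445376)) (b (l 17405992) (l 17343520)))))) (b (a (l 1) (l 4)) (a (b (a (l 17463536) (l 17386728)) (b (a (l 17379600) (l 17306536)) (a (l 17286624) (b (l 17244080) (l 17193688))))) (b (l 4) (a (b (l 17227016) (l 17402848)) (a (b (l 4) (l 17086824)) (l 4))))))), by decide +kernel⟩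

theorem c_pm_033 : CertN 0 536870912 0 1230186008 335544320 67108864 3 true true false .pnn 0 3 3
    ndN0q0 ndN2q3 pcN3 Cut.none Ext.none :=
  certN2 (fam := true) (s1 := true) (s2 := false) (a := 0) (b := 3) (c := 3) (cn := .pnn) (n1 := ndN0q0) (n2 := ndN2q3) (pc := pcN3) (cut := Cut.none) (xt := Ext.none) (P1 := 0) (W1 := 536870912) (P2 := 0) (W2 := 1230186008) (P3 := 335544320) (W3 := 67108864) (N0 := 3)
    rfl (fun _ => rfl) k0_pm_033

noncomputable def f_pm_101 : ℕ → ℕ → ℕ → ℕ → Bool := onCell 536870912 536870912 0 536870912 335544320 67108864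
    (rowN 3 2 true true false .npn 1 0 1 (qsf 536870912 536870912 0 536870912 1) ndN0q1 ndN2q0 pcN1 Cut.none Ext.none)

def k0_pm_101 : ∃ t, chk3 f_pm_101 t 1 1 1 = true :=
  ⟨(a (l 3) (b (a (l 3) (a (l 3) (b (b (b (a (a (l 3) (a (l 94120508903) (l 16947480))) (a (l 16936640) (l 16924064))) (a (a (l 3) (l 91973148983)) (l 17029752))) (a (a (l 3) (b (l 85530831063) (l 78551589607))) (b (a (l 17039208) (l 17035328)) (a (l 17078016) (l 17077936))))) (b (a (a (l 3) (b (l 69961648503) (l 61908602631))) (b (a (l 17107648) (l 17111072)) (a (l 17128304) (l 17134744)))) (a (a (l 3) (b (l 54392412119) (l 47949968679))) (b (a (l 17141320) (l 17149736)) (a (l 17147528) (l 17157408)))))))) (a (l 3) (a (l 3) (a (b (b (a (l 3) (b (l 84994051991) (l 166061547943))) (l 3)) (l 3)) (b (b (b (a (l 17147888) (l 17158704)) (a (l 17143576) (l 17154768))) (b (a (l 17135888) (l 17146976)) (a (l 17125952) (l 17136536)))) (b (b (a (l 17114864) (l 17124656)) (a (l 17104696) (l 17112824))) (b (a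 (l 60297978807) (l 17103960)) (a (c (l 17135624) (l 95597277815)) (l 17102576)))))))))), by decide +kernel⟩

theorem c_pm_101 : CertN 536870912 536870912 0 536870912 335544320 67108864 3 true true false .npn 1 0 1
    ndN0q1 ndN2q0 pcN1 Cut.none Ext.none :=
  certN2 (fam := true) (s1 := true) (s2 := false) (a := 1) (b := 0) (c := 1) (cn := .npn) (n1 := ndN0q1) (n2 := ndN2q0) (pc := pcN1) (cut := Cut.none) (xt := Ext.none) (P1 := 536870912) (W1 := 536870912) (P2 := 0) (W2 := 536870912) (P3 := 335544320) (W3 := 67108864) (N0 := 3)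
    rfl (fun _ => rfl) k0_pm_101

noncomputable def f_pm_102 : ℕ → ℕ → ℕ → ℕ → Bool := onCell 536870912 536870912 1073741824 536870912 335544320 67108864
    (rowN 3 1 true true false .npp 1 0 2 (qsf 536870912 536870912 0 536870912 2) ndN0q1 ndN2q0 pcN2 Cut.none Ext.none)

def k0_pm_102 : ∃ t, chk3 f_pm_102 t 1 1 1 = true :=
  ⟨(a (b (b (a (b (a (b (a (l 17086600) (l 17090232)) (l 17064848)) (b (a (l 17100432) (l 17113152)) (l 17087056))) (a (l 17037336) (l 17067296))) (b (a (b (l 17215104) (l 17114576)) (a (l 17156896) (l 17182552))) (a (l 17102648) (l 17130296)))) (a (b (b (b (l 17037776) (l 2)) (l 2)) (l 2)) (b (b (b (l 17124560) (l 17277960)) (l 17140608)) (l 17162240)))) (b (b (a (l 2) (l 17180672)) (l 2)) (l 2))) (b (a (b (b (a (b (l 17248824) (l 17133936)) (a (l 17202384) (l 17158464))) (a (l 17141248) (l 17173432))) (b (a (b (l 17261344) (l 17205096)) (l 17205680)) (l 17266632))) (b (b (a (b (a (l 17065376) (l 17022160)) (l 17068488)) (b (a (b (l 16970360) (l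 16971000)) (b (l 16910624) (l 16915136))) (a (l 16990144) (l 16931880)))) (a (b (l 17077384) (l 17127568)) (a (l 17104184) (l 17066216)))) (a (l 17255640) (b (l 17270936) (l 17333672))))) (b (a (b (l 17312944) (l 17333448)) (b (l 17370704) (a (l 17393664) (l 17413704)))) (a (b (l 17336168) (l 2)) (b (a (l 17406640) (l 17417896)) (l 17396752)))))), by decide +kernel⟩

theorem c_pm_102 : CertN 536870912 536870912 0 536870912 335544320 67108864 3 true true false .npp 1 0 2
    ndN0q1 ndN2q0 pcN2 Cut.none Ext.none :=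
  certN1 (fam := true) (s1 := true) (s2 := false) (a := 1) (b := 0) (c := 2) (cn := .npp) (n1 := ndN0q1) (n2 := ndN2q0) (pc := pcN2) (cut := Cut.none) (xt := Ext.none) (P1 := 536870912) (W1 := 536870912) (P2 := 0) (W2 := 536870912) (P3 := 335544320) (W3 := 67108864) (N0 := 3)
    rfl (fun _ => rfl) k0_pm_102

noncomputable def f_pm_112 : ℕ → ℕ → ℕ → ℕ → Bool := onCell 1073741824 536870912 536870912 536870912 335544320 67108864
    (rowN 3 2 true true false .dn 1 1 2 (qsf 536870912 536870912 536870912 536870912 2) ndN0q1 ndN2q1 pcN2 Cut.none Ext.none)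

def k0_pm_112 : ∃ t, chk3 f_pm_112 t 1 1 1 = true :=
  ⟨(a (b (a (b (b (a (a (b (l 219077568183) (l 253437103703)) (b (l 17056920) (l 16982256))) (a (b (l 17053376) (l 17000720)) (l 17051400))) (a (b (a (l 1) (l 233035679031)) (l 1)) (b (a (l 194381003303) (l 16983136)) (a (l 215855581207) (l 16911072))))) (b (a (l 1) (a (l 1) (b (l 16824616) (l 1)))) (l 1))) (b (b (a (a (a (l 17074272) (l 17093248)) (l 17123784)) (l 17200968)) (a (a (b (a (l 17036672) (l 17073272)) (a (l 16982128) (l 17029448))) (b (l 17127728) (l 17099200))) (b (l 17236568) (l 17229472)))) (b (a (a (a (l 176664262615) (b (l 16959416) (l 16871480))) (l 102576424711)) (b (l 17187720) (l 17134688))) (a (a (l 1) (l 221761421831)) (b (l 17066016) (l 16978216)))))) (a (l 1) (b (a (l 1) (b (l 210486808327) (l 1))) (l 1)))) (b (a (b (b (a (l 17301312) (l 17379344)) (a (b (l 17363560) (l 17375600)) (l 17469920))) (a (b (l 17463472) (a (l 17205968) (l 17304840))) (b (l 17464480) (l 17425144)))) (b (a (b (l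 17433000) (l 17539896)) (b (l 17432384) (l 17564400))) (a (b (l 17556048) (l 17542408)) (b (l 17612032) (l 17625344))))) (a (a (b (b (a (l 17052240) (l 17193728)) (a (l 1) (l 254510408151))) (l 1)) (b (b (l 17361376) (a (l 17170888) (l 17312344))) (b (a (l 1) (l 281354298007)) (l 1)))) (a (b (b (l 17622688) (a (l 17424768) (l 17503312))) (b (a (l 17295040) (l 17396480)) (a (l 1) (l 202971397895)))) (b (b (l 17635080) (l 17609488)) (b (a (l 17477280) (l 17564824)) (a (l 17267392) (l 17384248)))))))), by decide +kernel⟩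

theorem c_pm_112 : CertN 536870912 536870912 536870912 536870912 335544320 67108864 3 true true false .dn 1 1 2
    ndN0q1 ndN2q1 pcN2 Cut.none Ext.none :=
  certN2 (fam := true) (s1 := true) (s2 := false) (a := 1) (b := 1) (c := 2) (cn := .dn) (n1 := ndN0q1) (n2 := ndN2q1) (pc := pcN2) (cut := Cut.none) (xt := Ext.none) (P1 := 536870912) (W1 := 536870912) (P2 := 536870912) (W2 := 536870912) (P3 := 335544320) (W3 := 67108864) (N0 := 3)
    rfl (fun _ => rfl) k0_pm_112

noncomputable def f_pm_113 : ℕ → ℕ → ℕ → ℕ → Bool := onCell 536870912 536870912 1610612736 536870912 335544320 67108864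
    (rowN 3 1 true true false .nn 1 1 3 (qsf 536870912 536870912 536870912 536870912 3) ndN0q1 ndN2q1 pcN3 Cut.none Ext.none)

def k0_pm_113 : ∃ t, chk3 f_pm_113 t 1 1 1 = true :=
  ⟨(a (b (b (a (a (l 17786744) (l 17777856)) (b (l 17665560) (l 17733008))) (a (a (l 2) (l 17974224)) (b (l 17794624) (l 17854664)))) (b (a (l 2) (b (l 17913304) (l 2))) (l 2))) (b (a (b (b (a (b (l 17559912) (l 17584808)) (l 17551504)) (a (l 17618304) (l 17549200))) (b (l 17615320) (l 17640184))) (b (b (a (l 17448776) (l 17354312)) (a (l 17479464) (l 17452032))) (b (a (l 17494504) (l 17413904)) (a (l 17491944) (l 17481008))))) (b (a (b (l 17653048) (l 17666872)) (b (l 17419616) (l 4))) (l 4)))), by decide +kernel⟩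

theorem c_pm_113 : CertN 536870912 536870912 536870912 536870912 335544320 67108864 3 true true false .nn 1 1 3
    ndN0q1 ndN2q1 pcN3 Cut.none Ext.none :=
  certN1 (fam := true) (s1 := true) (s2 := false) (a := 1) (b := 1) (c := 3) (cn := .nn) (n1 := ndN0q1) (n2 := ndN2q1) (pc := pcN3) (cut := Cut.none) (xt := Ext.none) (P1 := 536870912) (W1 := 536870912) (P2 := 536870912) (W2 := 536870912) (P3 := 335544320) (W3 := 67108864) (N0 := 3)
    rfl (fun _ => rfl) k0_pm_113

noncomputable def f_pm_123 : ℕ → ℕ → ℕ → ℕ → Bool := onCell 536870912 536870912 1610612736 536870912 335544320 67108864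
    (rowN 3 1 true true false .npn 1 2 3 (qsf 536870912 536870912 1073741824 536870912 3) ndN0q1 ndN2q2 pcN3 Cut.none Ext.none)

def k0_pm_123 : ∃ t, chk3 f_pm_123 t 1 1 1 = true :=
  ⟨(a (b (a (b (a (b (b (l 282965131127) (l 192234193399)) (l 17100592)) (b (l 327525678935) (l 290481899319))) (a (l 17096568) (l 17262712))) (a (b (l 330747089543) (l 270080891799)) (b (l 1) (l 299608389591)))) (a (b (a (b (a (l 17080152) (l 17067256)) (a (l 17057344) (l 17042944))) (b (l 17058824) (a (l 17029128) (l 17016312)))) (b (a (l 17039888) (l 17142160)) (b (a (l 17060560) (l 16965176)) (a (l 4) (b (l 16948688) (l 4)))))) (b (a (l 17031832) (l 17227600)) (a (b (l 17058872) (b (l 16938568) (b (l 16922576) (l 16889160)))) (b (l 16931920) (b (l 16894384) (b (l 16888248) (l 16989544)))))))) (b (a (b (l 1) (a (l 298534721015) (l 1))) (l 1)) (b (a (a (l 284575792615) (l 242700288839)) (a (l 314103641111) (l 1))) (b (a (a (l 16922000) (l 16923408)) (a (l 16930128) (l 339336621111))) (b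 (a (l 16858272) (l 295313303991)) (a (b (l 16958104) (b (l 16820832) (a (l 16828680) (l 16951600)))) (b (a (l 16823944) (l 16903760)) (b (a (l 16807048) (l 16802496)) (a (b (l 16798552) (l 16899904)) (b (l 16800768) (l 16994984))))))))))), by decide +kernel⟩

theorem c_pm_123 : CertN 536870912 536870912 1073741824 536870912 335544320 67108864 3 true true false .npn 1 2 3
    ndN0q1 ndN2q2 pcN3 Cut.none Ext.none :=
  certN1 (fam := true) (s1 := true) (s2 := false) (a := 1) (b := 2) (c := 3) (cn := .npn) (n1 := ndN0q1) (n2 := ndN2q2) (pc := pcN3) (cut := Cut.none) (xt := Ext.none) (P1 := 536870912) (W1 := 536870912) (P2 := 1073741824) (W2 := 536870912) (P3 := 335544320) (W3 := 67108864) (N0 := 3)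
    rfl (fun _ => rfl) k0_pm_123

noncomputable def f_pm_133 : ℕ → ℕ → ℕ → ℕ → Bool := onCell 536870912 536870912 0 1230186008 335544320 67108864
    (rowN 3 0 true true false .dn 1 3 3 (qsf 536870912 536870912 0 1230186008 3) ndN0q1 ndN2q3 pcN3 Cut.none Ext.none)

def k0_pm_133 : ∃ t, chk3 f_pm_133 t 1 1 1 = true :=
  ⟨(b (l 2) (b (l 2) (a (l 4) (l 2)))), by decide +kernel⟩

theorem c_pm_133 : CertN 536870912 536870912 0 1230186008 335544320 67108864 3 true true false .dn 1 3 3
    ndN0q1 ndN2q3 pcN3 Cut.none Ext.none :=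
  certN0 (fam := true) (s1 := true) (s2 := false) (a := 1) (b := 3) (c := 3) (cn := .dn) (n1 := ndN0q1) (n2 := ndN2q3) (pc := pcN3) (cut := Cut.none) (xt := Ext.none) (P1 := 536870912) (W1 := 536870912) (P2 := 0) (W2 := 1230186008) (P3 := 335544320) (W3 := 67108864) (N0 := 3)
    rfl k0_pm_133

noncomputable def f_pm_202 : ℕ → ℕ → ℕ → ℕ → Bool := onCell 0 536870912 0 536870912 335544320 67108864
    (rowN 3 0 true true false .pp 2 0 2 (qsf 0 536870912 0 536870912 2) ndN0q2 ndN2q0 pcN2 Cut.none Ext.none)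

def k0_pm_202 : ∃ t, chk3 f_pm_202 t 1 1 1 = true :=
  ⟨(a (b (b (a (b (b (l 16697864) (l 16799128)) (l 16952664)) (b (b (a (l 16723936) (l 16745984)) (l 16828088)) (l 16975280))) (a (b (l 17139040) (l 17266032)) (b (l 17172456) (l 17341872)))) (b (b (a (l 17162704) (l 17296288)) (l 17367648)) (b (l 17100536) (l 2)))) (b (a (b (b (b (a (l 16757792) (l 16777824)) (l 16854384)) (a (l 17001032) (l 17004376))) (b (a (l 17199680) (l 17215360)) (l 17418632))) (b (b (a (b (b (l 16792264) (l 16822360)) (l 16874128)) (a (b (b (l 16825136) (l 16849024)) (l 16892976)) (b (a (a (l 16852368) (l 16860248)) (l 16873952)) (l 16911200)))) (a (l 17000720) (l 17011872))) (b (a (l 17218552) (l 17217544)) (a (l 17468744) (l 17466872))))) (b (a (b (l 17398936) (l 17330792)) (b (a (l 17428600) (l 17420472)) (a (l 17393224) (l 17414624)))) (a (b (l 17272480) (l 2)) (b (l 17382376) (l 17338944)))))), by decide +kernel⟩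

theorem c_pm_202 : CertN 0 536870912 0 536870912 335544320 67108864 3 true true false .pp 2 0 2
    ndN0q2 ndN2q0 pcN2 Cut.none Ext.none :=
  certN0 (fam := true) (s1 := true) (s2 := false) (a := 2) (b := 0) (c := 2) (cn := .pp) (n1 := ndN0q2) (n2 := ndN2q0) (pc := pcN2) (cut := Cut.none) (xt := Ext.none) (P1 := 0) (W1 := 536870912) (P2 := 0) (W2 := 536870912) (P3 := 335544320) (W3 := 67108864) (N0 := 3)
    rfl k0_pm_202

noncomputable def f_pm_203 : ℕ → ℕ → ℕ → ℕ → Bool := onCell 0 536870912 1610612736 536870912 335544320 67108864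
    (rowN 3 1 true true false .up 2 0 3 (qsf 0 536870912 0 536870912 3) ndN0q2 ndN2q0 pcN3 Cut.none Ext.none)

def k0_pm_203 : ∃ t, chk3 f_pm_203 t 1 1 1 = true :=
  ⟨(b (b (a (b (l 17109632) (l 4)) (b (l 17244352) (l 17193464))) (a (l 4) (b (l 17089608) (l 2)))) (l 2)), by decide +kernel⟩

theorem c_pm_203 : CertN 0 536870912 0 536870912 335544320 67108864 3 true true false .up 2 0 3
    ndN0q2 ndN2q0 pcN3 Cut.none Ext.none :=
  certN1 (fam := true) (s1 := true) (s2 := false) (a := 2) (b := 0) (c := 3) (cn := .up) (n1 := ndN0q2) (n2 := ndN2q0) (pc := pcN3) (cut := Cut.none) (xt := Ext.none) (P1 := 0) (W1 := 536870912) (P2 := 0) (W2 := 536870912) (P3 := 335544320) (W3 := 67108864) (N0 := 3)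
    rfl (fun _ => rfl) k0_pm_203

noncomputable def f_pm_213 : ℕ → ℕ → ℕ → ℕ → Bool := onCell 0 536870912 536870912 536870912 335544320 67108864
    (rowN 3 0 true true false .pnn 2 1 3 (qsf 0 536870912 536870912 536870912 3) ndN0q2 ndN2q1 pcN3 Cut.none Ext.none)

def k0_pm_213 : ∃ t, chk3 f_pm_213 t 1 1 1 = true :=
  ⟨(a (l 4) (b (b (b (a (l 17093520) (a (l 17243656) (l 17288168))) (a (l 4) (a (l 17532120) (l 17451520)))) (a (l 4) (b (l 17389648) (l 4)))) (l 4))), by decide +kernel⟩

theorem c_pm_213 : CertN 0 536870912 536870912 536870912 335544320 67108864 3 true true false .pnn 2 1 3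
    ndN0q2 ndN2q1 pcN3 Cut.none Ext.none :=
  certN0 (fam := true) (s1 := true) (s2 := false) (a := 2) (b := 1) (c := 3) (cn := .pnn) (n1 := ndN0q2) (n2 := ndN2q1) (pc := pcN3) (cut := Cut.none) (xt := Ext.none) (P1 := 0) (W1 := 536870912) (P2 := 536870912) (W2 := 536870912) (P3 := 335544320) (W3 := 67108864) (N0 := 3)
    rfl k0_pm_213

noncomputable def f_mm_001 : ℕ → ℕ → ℕ → ℕ → Bool := onCell 0 536870912 0 536870912 335544320 67108864
    (rowN 3 0 true false false .up 0 0 1 (qsf 0 536870912 0 536870912 1) ndN0q0 ndN2q0 pcN1 Cut.none Ext.none)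

def k0_mm_001 : ∃ t, chk3 f_mm_001 t 1 1 1 = true :=
  ⟨(l 4), by decide +kernel⟩

theorem c_mm_001 : CertN 0 536870912 0 536870912 335544320 67108864 3 true false false .up 0 0 1
    ndN0q0 ndN2q0 pcN1 Cut.none Ext.none :=
  certN0 (fam := true) (s1 := false) (s2 := false) (a := 0) (b := 0) (c := 1) (cn := .up) (n1 := ndN0q0) (n2 := ndN2q0) (pc := pcN1) (cut := Cut.none) (xt := Ext.none) (P1 := 0) (W1 := 536870912) (P2 := 0) (W2 := 536870912) (P3 := 335544320) (W3 := 67108864) (N0 := 3)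
    rfl k0_mm_001

noncomputable def f_mm_011 : ℕ → ℕ → ℕ → ℕ → Bool := onCell 0 536870912 536870912 536870912 335544320 67108864
    (rowN 3 0 true false false .pnn 0 1 1 (qsf 0 536870912 536870912 536870912 1) ndN0q0 ndN2q1 pcN1 Cut.none Ext.none)

def k0_mm_011 : ∃ t, chk3 f_mm_011 t 1 1 1 = true :=
  ⟨(l 4), by decide +kernel⟩

theorem c_mm_011 : CertN 0 536870912 536870912 536870912 335544320 67108864 3 true false false .pnn 0 1 1
    ndN0q0 ndN2q1 pcN1 Cut.none Ext.none :=
  certN0 (fam := true) (s1 := false) (s2 := false) (a := 0) (b := 1) (c := 1) (cn := .pnn) (n1 := ndN0q0) (n2 := ndN2q1) (pc := pcN1) (cut := Cut.none) (xt := Ext.none) (P1 := 0) (W1 := 536870912) (P2 := 536870912) (W2 := 536870912) (P3 := 335544320) (W3 := 67108864) (N0 := 3)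
    rfl k0_mm_011

noncomputable def f_mm_012 : ℕ → ℕ → ℕ → ℕ → Bool := onCell 0 536870912 536870912 536870912 335544320 67108864
    (rowN 3 0 true false false .pnp 0 1 2 (qsf 0 536870912 536870912 536870912 2) ndN0q0 ndN2q1 pcN2 Cut.none Ext.none)

def k0_mm_012 : ∃ t, chk3 f_mm_012 t 1 1 1 = true :=
  ⟨(l 4), by decide +kernel⟩

theorem c_mm_012 : CertN 0 536870912 536870912 536870912 335544320 67108864 3 true false false .pnp 0 1 2
    ndN0q0 ndN2q1 pcN2 Cut.none Ext.none :=
  certN0 (fam := true) (s1 := false) (s2 := false) (a := 0) (b := 1) (c := 2) (cn := .pnp) (n1 := ndN0q0) (n2 := ndN2q1) (pc := pcN2) (cut := Cut.none) (xt := Ext.none) (P1 := 0) (W1 := 536870912) (P2 := 536870912) (W2 := 536870912) (P3 := 335544320) (W3 := 67108864) (N0 := 3)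
    rfl k0_mm_012

noncomputable def f_mm_022 : ℕ → ℕ → ℕ → ℕ → Bool := onCell 0 536870912 1073741824 536870912 335544320 67108864
    (rowN 3 0 true false false .pp 0 2 2 (qsf 0 536870912 1073741824 536870912 2) ndN0q0 ndN2q2 pcN2 Cut.none Ext.none)

def k0_mm_022 : ∃ t, chk3 f_mm_022 t 1 1 1 = true :=
  ⟨(l 4), by decide +kernel⟩

theorem c_mm_022 : CertN 0 536870912 1073741824 536870912 335544320 67108864 3 true false false .pp 0 2 2
    ndN0q0 ndN2q2 pcN2 Cut.none Ext.none :=
  certN0 (fam := true) (s1 := false) (s2 := false) (a := 0) (b := 2) (c := 2) (cn := .pp) (n1 := ndN0q0) (n2 := ndN2q2) (pc := pcN2) (cut := Cut.none) (xt := Ext.none) (P1 := 0) (W1 := 536870912) (P2 := 1073741824) (W2 := 536870912) (P3 := 335544320) (W3 := 67108864) (N0 := 3)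
    rfl k0_mm_022

noncomputable def f_mm_023 : ℕ → ℕ → ℕ → ℕ → Bool := onCell 0 536870912 1073741824 536870912 335544320 67108864
    (rowN 3 0 true false false .up 0 2 3 (qsf 0 536870912 1073741824 536870912 3) ndN0q0 ndN2q2 pcN3 Cut.none Ext.none)

def k0_mm_023 : ∃ t, chk3 f_mm_023 t 1 1 1 = true :=
  ⟨(l 4), by decide +kernel⟩

theorem c_mm_023 : CertN 0 536870912 1073741824 536870912 335544320 67108864 3 true false false .up 0 2 3
    ndN0q0 ndN2q2 pcN3 Cut.none Ext.none :=
  certN0 (fam := true) (s1 := false) (s2 := false) (a := 0) (b := 2) (c := 3) (cn := .up) (n1 := ndN0q0) (n2 := ndN2q2) (pc := pcN3) (cut := Cut.none) (xt := Ext.none) (P1 := 0) (W1 := 536870912) (P2 := 1073741824) (W2 := 536870912) (P3 := 335544320) (W3 := 67108864) (N0 := 3)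
    rfl k0_mm_023

noncomputable def f_mm_033 : ℕ → ℕ → ℕ → ℕ → Bool := onCell 0 536870912 0 1230186008 335544320 67108864
    (rowN 3 0 true false false .pnn 0 3 3 (qsf 0 536870912 0 1230186008 3) ndN0q0 ndN2q3 pcN3 Cut.none Ext.none)

def k0_mm_033 : ∃ t, chk3 f_mm_033 t 1 1 1 = true :=
  ⟨(l 5), by decide +kernel⟩

theorem c_mm_033 : CertN 0 536870912 0 1230186008 335544320 67108864 3 true false false .pnn 0 3 3
    ndN0q0 ndN2q3 pcN3 Cut.none Ext.none :=
  certN0 (fam := true) (s1 := false) (s2 := false) (a := 0) (b := 3) (c := 3) (cn := .pnn) (n1 := ndN0q0) (n2 := ndN2q3) (pc := pcN3) (cut := Cut.none) (xt := Ext.none) (P1 := 0) (W1 := 536870912) (P2 := 0) (W2 := 1230186008) (P3 := 335544320) (W3 := 67108864) (N0 := 3)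
    rfl k0_mm_033

noncomputable def f_mm_101 : ℕ → ℕ → ℕ → ℕ → Bool := onCell 536870912 536870912 0 536870912 335544320 67108864
    (rowN 3 0 true false false .npn 1 0 1 (qsf 536870912 536870912 0 536870912 1) ndN0q1 ndN2q0 pcN1 Cut.none Ext.none)

def k0_mm_101 : ∃ t, chk3 f_mm_101 t 1 1 1 = true :=
  ⟨(a (l 4) (l 4)), by decide +kernel⟩

theorem c_mm_101 : CertN 536870912 536870912 0 536870912 335544320 67108864 3 true false false .npn 1 0 1
    ndN0q1 ndN2q0 pcN1 Cut.none Ext.none :=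
  certN0 (fam := true) (s1 := false) (s2 := false) (a := 1) (b := 0) (c := 1) (cn := .npn) (n1 := ndN0q1) (n2 := ndN2q0) (pc := pcN1) (cut := Cut.none) (xt := Ext.none) (P1 := 536870912) (W1 := 536870912) (P2 := 0) (W2 := 536870912) (P3 := 335544320) (W3 := 67108864) (N0 := 3)
    rfl k0_mm_101

noncomputable def f_mm_102 : ℕ → ℕ → ℕ → ℕ → Bool := onCell 536870912 536870912 0 536870912 335544320 67108864
    (rowN 3 0 true false false .npp 1 0 2 (qsf 536870912 536870912 0 536870912 2) ndN0q1 ndN2q0 pcN2 Cut.none Ext.none)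

def k0_mm_102 : ∃ t, chk3 f_mm_102 t 1 1 1 = true :=
  ⟨(a (l 4) (l 4)), by decide +kernel⟩

theorem c_mm_102 : CertN 536870912 536870912 0 536870912 335544320 67108864 3 true false false .npp 1 0 2
    ndN0q1 ndN2q0 pcN2 Cut.none Ext.none :=
  certN0 (fam := true) (s1 := false) (s2 := false) (a := 1) (b := 0) (c := 2) (cn := .npp) (n1 := ndN0q1) (n2 := ndN2q0) (pc := pcN2) (cut := Cut.none) (xt := Ext.none) (P1 := 536870912) (W1 := 536870912) (P2 := 0) (W2 := 536870912) (P3 := 335544320) (W3 := 67108864) (N0 := 3)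
    rfl k0_mm_102

noncomputable def f_mm_112 : ℕ → ℕ → ℕ → ℕ → Bool := onCell 536870912 536870912 536870912 536870912 335544320 67108864
    (rowN 3 0 true false false .dn 1 1 2 (qsf 536870912 536870912 536870912 536870912 2) ndN0q1 ndN2q1 pcN2 Cut.none Ext.none)

def k0_mm_112 : ∃ t, chk3 f_mm_112 t 1 1 1 = true :=
  ⟨(l 4), by decide +kernel⟩

theorem c_mm_112 : CertN 536870912 536870912 536870912 536870912 335544320 67108864 3 true false false .dn 1 1 2
    ndN0q1 ndN2q1 pcN2 Cut.none Ext.none :=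
  certN0 (fam := true) (s1 := false) (s2 := false) (a := 1) (b := 1) (c := 2) (cn := .dn) (n1 := ndN0q1) (n2 := ndN2q1) (pc := pcN2) (cut := Cut.none) (xt := Ext.none) (P1 := 536870912) (W1 := 536870912) (P2 := 536870912) (W2 := 536870912) (P3 := 335544320) (W3 := 67108864) (N0 := 3)
    rfl k0_mm_112

noncomputable def f_mm_113 : ℕ → ℕ → ℕ → ℕ → Bool := onCell 536870912 536870912 536870912 536870912 335544320 67108864
    (rowN 3 0 true false false .nn 1 1 3 (qsf 536870912 536870912 536870912 536870912 3) ndN0q1 ndN2q1 pcN3 Cut.none Ext.none)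

def k0_mm_113 : ∃ t, chk3 f_mm_113 t 1 1 1 = true :=
  ⟨(l 4), by decide +kernel⟩

theorem c_mm_113 : CertN 536870912 536870912 536870912 536870912 335544320 67108864 3 true false false .nn 1 1 3
    ndN0q1 ndN2q1 pcN3 Cut.none Ext.none :=
  certN0 (fam := true) (s1 := false) (s2 := false) (a := 1) (b := 1) (c := 3) (cn := .nn) (n1 := ndN0q1) (n2 := ndN2q1) (pc := pcN3) (cut := Cut.none) (xt := Ext.none) (P1 := 536870912) (W1 := 536870912) (P2 := 536870912) (W2 := 536870912) (P3 := 335544320) (W3 := 67108864) (N0 := 3)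
    rfl k0_mm_113

noncomputable def f_mm_123 : ℕ → ℕ → ℕ → ℕ → Bool := onCell 536870912 536870912 1073741824 536870912 335544320 67108864
    (rowN 3 0 true false false .npn 1 2 3 (qsf 536870912 536870912 1073741824 536870912 3) ndN0q1 ndN2q2 pcN3 Cut.none Ext.none)

def k0_mm_123 : ∃ t, chk3 f_mm_123 t 1 1 1 = true :=
  ⟨(l 4), by decide +kernel⟩

theorem c_mm_123 : CertN 536870912 536870912 1073741824 536870912 335544320 67108864 3 true false false .npn 1 2 3
    ndN0q1 ndN2q2 pcN3 Cut.none Ext.none :=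
  certN0 (fam := true) (s1 := false) (s2 := false) (a := 1) (b := 2) (c := 3) (cn := .npn) (n1 := ndN0q1) (n2 := ndN2q2) (pc := pcN3) (cut := Cut.none) (xt := Ext.none) (P1 := 536870912) (W1 := 536870912) (P2 := 1073741824) (W2 := 536870912) (P3 := 335544320) (W3 := 67108864) (N0 := 3)
    rfl k0_mm_123

noncomputable def f_mm_133 : ℕ → ℕ → ℕ → ℕ → Bool := onCell 1610612736 536870912 0 1230186008 335544320 67108864
    (rowN 3 2 true false false .dn 1 3 3 (qsf 536870912 536870912 0 1230186008 3) ndN0q1 ndN2q3 pcN3 Cut.none Ext.none)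

def k0_mm_133 : ∃ t, chk3 f_mm_133 t 1 1 1 = true :=
  ⟨(l 5), by decide +kernel⟩

theorem c_mm_133 : CertN 536870912 536870912 0 1230186008 335544320 67108864 3 true false false .dn 1 3 3
    ndN0q1 ndN2q3 pcN3 Cut.none Ext.none :=
  certN2 (fam := true) (s1 := false) (s2 := false) (a := 1) (b := 3) (c := 3) (cn := .dn) (n1 := ndN0q1) (n2 := ndN2q3) (pc := pcN3) (cut := Cut.none) (xt := Ext.none) (P1 := 536870912) (W1 := 536870912) (P2 := 0) (W2 := 1230186008) (P3 := 335544320) (W3 := 67108864) (N0 := 3)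
    rfl (fun _ => rfl) k0_mm_133

noncomputable def f_mm_202 : ℕ → ℕ → ℕ → ℕ → Bool := onCell 0 536870912 0 536870912 335544320 67108864
    (rowN 3 0 true false false .pp 2 0 2 (qsf 0 536870912 0 536870912 2) ndN0q2 ndN2q0 pcN2 Cut.none Ext.none)

def k0_mm_202 : ∃ t, chk3 f_mm_202 t 1 1 1 = true :=
  ⟨(b (a (b (b (a (b (l 16681600) (l 16789488)) (b (a (l 16688680) (l 16706816)) (l 16807168))) (a (l 16946832) (b (l 16901864) (l 16979008)))) (a (b (l 17105248) (l 17150240)) (l 4))) (b (a (b (b (a (b (l 16709640) (l 16761424)) (b (l 16743320) (l 4))) (a (l 16824488) (l 4))) (l 4)) (l 4)) (l 4))) (l 4)), by decide +kernel⟩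

theorem c_mm_202 : CertN 0 536870912 0 536870912 335544320 67108864 3 true false false .pp 2 0 2
    ndN0q2 ndN2q0 pcN2 Cut.none Ext.none :=
  certN0 (fam := true) (s1 := false) (s2 := false) (a := 2) (b := 0) (c := 2) (cn := .pp) (n1 := ndN0q2) (n2 := ndN2q0) (pc := pcN2) (cut := Cut.none) (xt := Ext.none) (P1 := 0) (W1 := 536870912) (P2 := 0) (W2 := 536870912) (P3 := 335544320) (W3 := 67108864) (N0 := 3)
    rfl k0_mm_202

noncomputable def f_mm_203 : ℕ → ℕ → ℕ → ℕ → Bool := onCell 0 536870912 1610612736 536870912 335544320 67108864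
    (rowN 3 1 true false false .up 2 0 3 (qsf 0 536870912 0 536870912 3) ndN0q2 ndN2q0 pcN3 Cut.none Ext.none)

def k0_mm_203 : ∃ t, chk3 f_mm_203 t 1 1 1 = true :=
  ⟨(l 4), by decide +kernel⟩

theorem c_mm_203 : CertN 0 536870912 0 536870912 335544320 67108864 3 true false false .up 2 0 3
    ndN0q2 ndN2q0 pcN3 Cut.none Ext.none :=
  certN1 (fam := true) (s1 := false) (s2 := false) (a := 2) (b := 0) (c := 3) (cn := .up) (n1 := ndN0q2) (n2 := ndN2q0) (pc := pcN3) (cut := Cut.none) (xt := Ext.none) (P1 := 0) (W1 := 536870912) (P2 := 0) (W2 := 536870912) (P3 := 335544320) (W3 := 67108864) (N0 := 3)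
    rfl (fun _ => rfl) k0_mm_203

noncomputable def f_mm_213 : ℕ → ℕ → ℕ → ℕ → Bool := onCell 0 536870912 536870912 536870912 335544320 67108864
    (rowN 3 0 true false false .pnn 2 1 3 (qsf 0 536870912 536870912 536870912 3) ndN0q2 ndN2q1 pcN3 Cut.none Ext.none)

def k0_mm_213 : ∃ t, chk3 f_mm_213 t 1 1 1 = true :=
  ⟨(l 4), by decide +kernel⟩

theorem c_mm_213 : CertN 0 536870912 536870912 536870912 335544320 67108864 3 true false false .pnn 2 1 3
    ndN0q2 ndN2q1 pcN3 Cut.none Ext.none :=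
  certN0 (fam := true) (s1 := false) (s2 := false) (a := 2) (b := 1) (c := 3) (cn := .pnn) (n1 := ndN0q2) (n2 := ndN2q1) (pc := pcN3) (cut := Cut.none) (xt := Ext.none) (P1 := 0) (W1 := 536870912) (P2 := 536870912) (W2 := 536870912) (P3 := 335544320) (W3 := 67108864) (N0 := 3)
    rfl k0_mm_213

end Pool.Agent.Strip051.G.I5_16_3_8.Tab.C.NA02

namespace Pool.Agent.Strip051.G.I5_16_3_8.Tab.C.NA03

open Pool.Agent.Strip051.PB Pool.Agent.Strip051.PB.T
open Pool.Agent.Strip051.G.I5_16_3_8.Tab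

noncomputable def f_pp_001 : ℕ → ℕ → ℕ → ℕ → Bool := onCell 0 536870912 0 536870912 335544320 67108864
    (rowN 3 0 true true true .up 0 0 1 (qsf 0 536870912 0 536870912 1) ndN0q0 ndN3q0 pcN1 Cut.none Ext.none)

def k0_pp_001 : ∃ t, chk3 f_pp_001 t 1 1 1 = true :=
  ⟨(l 4), by decide +kernel⟩

theorem c_pp_001 : CertN 0 536870912 0 536870912 335544320 67108864 3 true true true .up 0 0 1
    ndN0q0 ndN3q0 pcN1 Cut.none Ext.none :=
  certN0 (fam := true) (s1 := true) (s2 := true) (a := 0) (b := 0) (c := 1) (cn := .up) (n1 := ndN0q0) (n2 := ndN3q0) (pc := pcN1) (cut := Cut.none) (xt := Ext.none) (P1 := 0) (W1 := 536870912) (P2 := 0) (W2 := 536870912) (P3 := 335544320) (W3 := 67108864) (N0 := 3)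
    rfl k0_pp_001

noncomputable def f_pp_011 : ℕ → ℕ → ℕ → ℕ → Bool := onCell 0 536870912 536870912 536870912 335544320 67108864
    (rowN 3 0 true true true .pnn 0 1 1 (qsf 0 536870912 536870912 536870912 1) ndN0q0 ndN3q1 pcN1 Cut.none Ext.none)

def k0_pp_011 : ∃ t, chk3 f_pp_011 t 1 1 1 = true :=
  ⟨(l 4), by decide +kernel⟩

theorem c_pp_011 : CertN 0 536870912 536870912 536870912 335544320 67108864 3 true true true .pnn 0 1 1
    ndN0q0 ndN3q1 pcN1 Cut.none Ext.none :=
  certN0 (fam := true) (s1 := true) (s2 := true) (a := 0) (b := 1) (c := 1) (cn := .pnn) (n1 := ndN0q0) (n2 := ndN3q1) (pc := pcN1) (cut := Cut.none) (xt := Ext.none) (P1 := 0) (W1 := 536870912) (P2 := 536870912) (W2 := 536870912) (P3 := 335544320) (W3 := 67108864) (N0 := 3)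
    rfl k0_pp_011

noncomputable def f_pp_012 : ℕ → ℕ → ℕ → ℕ → Bool := onCell 0 536870912 536870912 536870912 335544320 67108864
    (rowN 3 0 true true true .pnp 0 1 2 (qsf 0 536870912 536870912 536870912 2) ndN0q0 ndN3q1 pcN2 Cut.none Ext.none)

def k0_pp_012 : ∃ t, chk3 f_pp_012 t 1 1 1 = true :=
  ⟨(l 4), by decide +kernel⟩

theorem c_pp_012 : CertN 0 536870912 536870912 536870912 335544320 67108864 3 true true true .pnp 0 1 2
    ndN0q0 ndN3q1 pcN2 Cut.none Ext.none :=
  certN0 (fam := true) (s1 := true) (s2 := true) (a := 0) (b := 1) (c := 2) (cn := .pnp) (n1 := ndN0q0) (n2 := ndN3q1) (pc := pcN2) (cut := Cut.none) (xt := Ext.none) (P1 := 0) (W1 := 536870912) (P2 := 536870912) (W2 := 536870912) (P3 := 335544320) (W3 := 67108864) (N0 := 3)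
    rfl k0_pp_012

noncomputable def f_pp_022 : ℕ → ℕ → ℕ → ℕ → Bool := onCell 0 536870912 1073741824 536870912 335544320 67108864
    (rowN 3 0 true true true .pp 0 2 2 (qsf 0 536870912 1073741824 536870912 2) ndN0q0 ndN3q2 pcN2 Cut.none Ext.none)

def k0_pp_022 : ∃ t, chk3 f_pp_022 t 1 1 1 = true :=
  ⟨(l 4), by decide +kernel⟩

theorem c_pp_022 : CertN 0 536870912 1073741824 536870912 335544320 67108864 3 true true true .pp 0 2 2
    ndN0q0 ndN3q2 pcN2 Cut.none Ext.none :=
  certN0 (fam := true) (s1 := true) (s2 := true) (a := 0) (b := 2) (c := 2) (cn := .pp) (n1 := ndN0q0) (n2 := ndN3q2) (pc := pcN2) (cut := Cut.none) (xt := Ext.none) (P1 := 0) (W1 := 536870912) (P2 := 1073741824) (W2 := 536870912) (P3 := 335544320) (W3 := 67108864) (N0 := 3)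
    rfl k0_pp_022

noncomputable def f_pp_023 : ℕ → ℕ → ℕ → ℕ → Bool := onCell 0 536870912 1073741824 536870912 335544320 67108864
    (rowN 3 0 true true true .up 0 2 3 (qsf 0 536870912 1073741824 536870912 3) ndN0q0 ndN3q2 pcN3 Cut.none Ext.none)

def k0_pp_023 : ∃ t, chk3 f_pp_023 t 1 1 1 = true :=
  ⟨(l 4), by decide +kernel⟩

theorem c_pp_023 : CertN 0 536870912 1073741824 536870912 335544320 67108864 3 true true true .up 0 2 3
    ndN0q0 ndN3q2 pcN3 Cut.none Ext.none :=
  certN0 (fam := true) (s1 := true) (s2 := true) (a := 0) (b := 2) (c := 3) (cn := .up) (n1 := ndN0q0) (n2 := ndN3q2) (pc := pcN3) (cut := Cut.none) (xt := Ext.none) (P1 := 0) (W1 := 536870912) (P2 := 1073741824) (W2 := 536870912) (P3 := 335544320) (W3 := 67108864) (N0 := 3)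
    rfl k0_pp_023

noncomputable def f_pp_033 : ℕ → ℕ → ℕ → ℕ → Bool := onCell 0 536870912 0 1230186008 335544320 67108864
    (rowN 3 0 true true true .pnn 0 3 3 (qsf 0 536870912 0 1230186008 3) ndN0q0 ndN3q3 pcN3 Cut.none Ext.none)

def k0_pp_033 : ∃ t, chk3 f_pp_033 t 1 1 1 = true :=
  ⟨(b (l 4) (l 4)), by decide +kernel⟩

theorem c_pp_033 : CertN 0 536870912 0 1230186008 335544320 67108864 3 true true true .pnn 0 3 3
    ndN0q0 ndN3q3 pcN3 Cut.none Ext.none :=
  certN0 (fam := true) (s1 := true) (s2 := true) (a := 0) (b := 3) (c := 3) (cn := .pnn) (n1 := ndN0q0) (n2 := ndN3q3) (pc := pcN3) (cut := Cut.none) (xt := Ext.none) (P1 := 0) (W1 := 536870912) (P2 := 0) (W2 := 1230186008) (P3 := 335544320) (W3 := 67108864) (N0 := 3)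
    rfl k0_pp_033

noncomputable def f_pp_101 : ℕ → ℕ → ℕ → ℕ → Bool := onCell 536870912 536870912 0 536870912 335544320 67108864
    (rowN 3 0 true true true .npn 1 0 1 (qsf 536870912 536870912 0 536870912 1) ndN0q1 ndN3q0 pcN1 Cut.none Ext.none)

def k0_pp_101 : ∃ t, chk3 f_pp_101 t 1 1 1 = true :=
  ⟨(l 4), by decide +kernel⟩

theorem c_pp_101 : CertN 536870912 536870912 0 536870912 335544320 67108864 3 true true true .npn 1 0 1
    ndN0q1 ndN3q0 pcN1 Cut.none Ext.none :=
  certN0 (fam := true) (s1 := true) (s2 := true) (a := 1) (b := 0) (c := 1) (cn := .npn) (n1 := ndN0q1) (n2 := ndN3q0) (pc := pcN1) (cut := Cut.none) (xt := Ext.none) (P1 := 536870912) (W1 := 536870912) (P2 := 0) (W2 := 536870912) (P3 := 335544320) (W3 := 67108864) (N0 := 3)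
    rfl k0_pp_101

noncomputable def f_pp_102 : ℕ → ℕ → ℕ → ℕ → Bool := onCell 536870912 536870912 0 536870912 335544320 67108864
    (rowN 3 0 true true true .npp 1 0 2 (qsf 536870912 536870912 0 536870912 2) ndN0q1 ndN3q0 pcN2 Cut.none Ext.none)

def k0_pp_102 : ∃ t, chk3 f_pp_102 t 1 1 1 = true :=
  ⟨(l 4), by decide +kernel⟩

theorem c_pp_102 : CertN 536870912 536870912 0 536870912 335544320 67108864 3 true true true .npp 1 0 2
    ndN0q1 ndN3q0 pcN2 Cut.none Ext.none :=
  certN0 (fam := true) (s1 := true) (s2 := true) (a := 1) (b := 0) (c := 2) (cn := .npp) (n1 := ndN0q1) (n2 := ndN3q0) (pc := pcN2) (cut := Cut.none) (xt := Ext.none) (P1 := 536870912) (W1 := 536870912) (P2 := 0) (W2 := 536870912) (P3 := 335544320) (W3 := 67108864) (N0 := 3)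
    rfl k0_pp_102

noncomputable def f_pp_112 : ℕ → ℕ → ℕ → ℕ → Bool := onCell 536870912 536870912 536870912 536870912 335544320 67108864
    (rowN 3 0 true true true .dn 1 1 2 (qsf 536870912 536870912 536870912 536870912 2) ndN0q1 ndN3q1 pcN2 Cut.none Ext.none)

def k0_pp_112 : ∃ t, chk3 f_pp_112 t 1 1 1 = true :=
  ⟨(l 4), by decide +kernel⟩

theorem c_pp_112 : CertN 536870912 536870912 536870912 536870912 335544320 67108864 3 true true true .dn 1 1 2
    ndN0q1 ndN3q1 pcN2 Cut.none Ext.none :=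
  certN0 (fam := true) (s1 := true) (s2 := true) (a := 1) (b := 1) (c := 2) (cn := .dn) (n1 := ndN0q1) (n2 := ndN3q1) (pc := pcN2) (cut := Cut.none) (xt := Ext.none) (P1 := 536870912) (W1 := 536870912) (P2 := 536870912) (W2 := 536870912) (P3 := 335544320) (W3 := 67108864) (N0 := 3)
    rfl k0_pp_112

noncomputable def f_pp_113 : ℕ → ℕ → ℕ → ℕ → Bool := onCell 536870912 536870912 536870912 536870912 335544320 67108864
    (rowN 3 0 true true true .nn 1 1 3 (qsf 536870912 536870912 536870912 536870912 3) ndN0q1 ndN3q1 pcN3 Cut.none Ext.none)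

def k0_pp_113 : ∃ t, chk3 f_pp_113 t 1 1 1 = true :=
  ⟨(l 4), by decide +kernel⟩

theorem c_pp_113 : CertN 536870912 536870912 536870912 536870912 335544320 67108864 3 true true true .nn 1 1 3
    ndN0q1 ndN3q1 pcN3 Cut.none Ext.none :=
  certN0 (fam := true) (s1 := true) (s2 := true) (a := 1) (b := 1) (c := 3) (cn := .nn) (n1 := ndN0q1) (n2 := ndN3q1) (pc := pcN3) (cut := Cut.none) (xt := Ext.none) (P1 := 536870912) (W1 := 536870912) (P2 := 536870912) (W2 := 536870912) (P3 := 335544320) (W3 := 67108864) (N0 := 3)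
    rfl k0_pp_113

noncomputable def f_pp_123 : ℕ → ℕ → ℕ → ℕ → Bool := onCell 536870912 536870912 1073741824 536870912 335544320 67108864
    (rowN 3 0 true true true .npn 1 2 3 (qsf 536870912 536870912 1073741824 536870912 3) ndN0q1 ndN3q2 pcN3 Cut.none Ext.none)

def k0_pp_123 : ∃ t, chk3 f_pp_123 t 1 1 1 = true :=
  ⟨(l 4), by decide +kernel⟩

theorem c_pp_123 : CertN 536870912 536870912 1073741824 536870912 335544320 67108864 3 true true true .npn 1 2 3
    ndN0q1 ndN3q2 pcN3 Cut.none Ext.none :=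
  certN0 (fam := true) (s1 := true) (s2 := true) (a := 1) (b := 2) (c := 3) (cn := .npn) (n1 := ndN0q1) (n2 := ndN3q2) (pc := pcN3) (cut := Cut.none) (xt := Ext.none) (P1 := 536870912) (W1 := 536870912) (P2 := 1073741824) (W2 := 536870912) (P3 := 335544320) (W3 := 67108864) (N0 := 3)
    rfl k0_pp_123

noncomputable def f_pp_133 : ℕ → ℕ → ℕ → ℕ → Bool := onCell 536870912 536870912 0 1230186008 335544320 67108864
    (rowN 3 0 true true true .dn 1 3 3 (qsf 536870912 536870912 0 1230186008 3) ndN0q1 ndN3q3 pcN3 Cut.none Ext.none)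

def k0_pp_133 : ∃ t, chk3 f_pp_133 t 1 1 1 = true :=
  ⟨(l 4), by decide +kernel⟩

theorem c_pp_133 : CertN 536870912 536870912 0 1230186008 335544320 67108864 3 true true true .dn 1 3 3
    ndN0q1 ndN3q3 pcN3 Cut.none Ext.none :=
  certN0 (fam := true) (s1 := true) (s2 := true) (a := 1) (b := 3) (c := 3) (cn := .dn) (n1 := ndN0q1) (n2 := ndN3q3) (pc := pcN3) (cut := Cut.none) (xt := Ext.none) (P1 := 536870912) (W1 := 536870912) (P2 := 0) (W2 := 1230186008) (P3 := 335544320) (W3 := 67108864) (N0 := 3)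
    rfl k0_pp_133

noncomputable def f_pp_202 : ℕ → ℕ → ℕ → ℕ → Bool := onCell 0 536870912 0 536870912 335544320 67108864
    (rowN 3 0 true true true .pp 2 0 2 (qsf 0 536870912 0 536870912 2) ndN0q2 ndN3q0 pcN2 Cut.none Ext.none)

def k0_pp_202 : ∃ t, chk3 f_pp_202 t 1 1 1 = true :=
  ⟨(l 5), by decide +kernel⟩

theorem c_pp_202 : CertN 0 536870912 0 536870912 335544320 67108864 3 true true true .pp 2 0 2
    ndN0q2 ndN3q0 pcN2 Cut.none Ext.none :=
  certN0 (fam := true) (s1 := true) (s2 := true) (a := 2) (b := 0) (c := 2) (cn := .pp) (n1 := ndN0q2) (n2 := ndN3q0) (pc := pcN2) (cut := Cut.none) (xt := Ext.none) (P1 := 0) (W1 := 536870912) (P2 := 0) (W2 := 536870912) (P3 := 335544320) (W3 := 67108864) (N0 := 3)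
    rfl k0_pp_202

noncomputable def f_pp_203 : ℕ → ℕ → ℕ → ℕ → Bool := onCell 0 536870912 0 536870912 335544320 67108864
    (rowN 3 0 true true true .up 2 0 3 (qsf 0 536870912 0 536870912 3) ndN0q2 ndN3q0 pcN3 Cut.none Ext.none)

def k0_pp_203 : ∃ t, chk3 f_pp_203 t 1 1 1 = true :=
  ⟨(l 5), by decide +kernel⟩

theorem c_pp_203 : CertN 0 536870912 0 536870912 335544320 67108864 3 true true true .up 2 0 3
    ndN0q2 ndN3q0 pcN3 Cut.none Ext.none :=
  certN0 (fam := true) (s1 := true) (s2 := true) (a := 2) (b := 0) (c := 3) (cn := .up) (n1 := ndN0q2) (n2 := ndN3q0) (pc := pcN3) (cut := Cut.none) (xt := Ext.none) (P1 := 0) (W1 := 536870912) (P2 := 0) (W2 := 536870912) (P3 := 335544320) (W3 := 67108864) (N0 := 3)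
    rfl k0_pp_203

noncomputable def f_pp_213 : ℕ → ℕ → ℕ → ℕ → Bool := onCell 0 536870912 536870912 536870912 335544320 67108864
    (rowN 3 0 true true true .pnn 2 1 3 (qsf 0 536870912 536870912 536870912 3) ndN0q2 ndN3q1 pcN3 Cut.none Ext.none)

def k0_pp_213 : ∃ t, chk3 f_pp_213 t 1 1 1 = true :=
  ⟨(l 4), by decide +kernel⟩

theorem c_pp_213 : CertN 0 536870912 536870912 536870912 335544320 67108864 3 true true true .pnn 2 1 3
    ndN0q2 ndN3q1 pcN3 Cut.none Ext.none :=
  certN0 (fam := true) (s1 := true) (s2 := true) (a := 2) (b := 1) (c := 3) (cn := .pnn) (n1 := ndN0q2) (n2 := ndN3q1) (pc := pcN3) (cut := Cut.none) (xt := Ext.none) (P1 := 0) (W1 := 536870912) (P2 := 536870912) (W2 := 536870912) (P3 := 335544320) (W3 := 67108864) (N0 := 3)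
    rfl k0_pp_213

noncomputable def f_pm_001 : ℕ → ℕ → ℕ → ℕ → Bool := onCell 0 536870912 0 536870912 335544320 67108864
    (rowN 3 0 true true false .up 0 0 1 (qsf 0 536870912 0 536870912 1) ndN0q0 ndN3q0 pcN1 Cut.none Ext.none)

def k0_pm_001 : ∃ t, chk3 f_pm_001 t 1 1 1 = true :=
  ⟨(a (l 3) (b (l 3) (a (l 3) (b (l 3) (a (b (l 3) (a (l 3) (b (l 3) (a (b (l 3) (l 83920337079)) (l 72109144151))))) (b (a (l 3) (b (a (l 3) (l 80698921319)) (a (l 76940862599) (l 67277173127)))) (a (b (a (l 76940917703) (l 72109049447)) (a (l 66203519159) (l 17082936))) (b (a (l 17064952) (l 17072424)) (l 17088416))))))))), by decide +kernel⟩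

theorem c_pm_001 : CertN 0 536870912 0 536870912 335544320 67108864 3 true true false .up 0 0 1
    ndN0q0 ndN3q0 pcN1 Cut.none Ext.none :=
  certN0 (fam := true) (s1 := true) (s2 := false) (a := 0) (b := 0) (c := 1) (cn := .up) (n1 := ndN0q0) (n2 := ndN3q0) (pc := pcN1) (cut := Cut.none) (xt := Ext.none) (P1 := 0) (W1 := 536870912) (P2 := 0) (W2 := 536870912) (P3 := 335544320) (W3 := 67108864) (N0 := 3)
    rfl k0_pm_001

noncomputable def cut_pm_011 : Cut := Cut.of [[⟨0, 0, 0, 67108864⟩, ⟨1, 1, 0, 67108864⟩, ⟨2, 1, 0, 67108864⟩]]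

noncomputable def f_pm_011 : ℕ → ℕ → ℕ → ℕ → Bool := onCell 0 536870912 536870912 536870912 335544320 67108864
    (rowN 3 1 true true false .pnn 0 1 1 (qsf 0 536870912 536870912 536870912 1) ndN0q0 ndN3q1 pcN1 cut_pm_011 Ext.none)

def k0_pm_011 : ∃ t, chk3 f_pm_011 t 1 2 1 = true :=
  ⟨(l 3), by decide +kernel⟩

def k1_pm_011 : ∃ t, chk3 f_pm_011 t 2 6 1 = true :=
  ⟨(l 3), by decide +kernel⟩

def k2_pm_011 : ∃ t, chk3 f_pm_011 t 4 14 1 = true :=
  ⟨(l 3), by decide +kernel⟩

def k3_pm_011 : ∃ t, chk3 f_pm_011 t 8 15 1 = true :=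
  ⟨(b (l 3) (a (b (l 3) (l 6)) (b (l 3) (b (b (b (l 3) (b (l 3) (a (l 3) (a (l 3) (c (l 16749040) (l 16753840)))))) (a (l 6) (a (a (b (b (l 3) (l 6)) (l 6)) (b (c (l 16748912) (l 16749648)) (a (l 16748536) (l 16744000)))) (c (b (a (l 16745104) (l 16741232)) (l 16738760)) (b (c (l 16743832) (l 16749256)) (l 16739432)))))) (a (l 6) (a (a (l 6) (b (b (l 16743120) (l 6)) (l 6))) (b (c (b (l 16734352) (l 16729960)) (l 16737904)) (b (l 16725832) (l 16721400))))))))), by decide +kernel⟩

def k4_pm_011 : ∃ t, chk3 f_pm_011 t 9 15 1 = true :=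
  ⟨(b (l 3) (b (a (a (l 3) (b (l 3) (b (l 3) (a (b (l 3) (a (l 51707299991) (l 16731176))) (c (c (l 16725552) (l 16726704)) (l 16738344)))))) (b (b (l 3) (a (l 3) (a (l 3) (c (l 16709440) (l 16712456))))) (a (a (c (b (l 16732152) (l 16717616)) (b (l 16733656) (l 16719504))) (b (c (l 16717744) (l 16720096)) (c (l 16708840) (l 16710952)))) (b (c (c (l 16724952) (l 16726664)) (a (l 16711776) (l 16703240))) (c (l 16716720) (l 16698192)))))) (a (b (a (a (a (b (b (l 3) (a (l 20031934215) (l 16741320))) (c (l 16735088) (l 16735872))) (b (c (l 16741864) (l 8757648663)) (c (l 16731120) (l 16731944)))) (b (c (b (l 16736120) (l 16731728)) (c (l 16740112) (l 16745664))) (c (l 16725088) (l 16726000)))) (b (c (a (l 16725744) (l 16717336)) (a (l 16727024) (l 16718792))) (c (a (l 16716880) (l 16708488)) (a (l 16717928) (l 16709704))))) (c (a (b (a (l 16724296) (l 16716272)) (a (l 16715528) (l 16707512))) (b (a (l 16708072) (l 16699688)) (l 16716136))) (a (b (a (l 16724872) (l 16716952))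 (a (l 16715880) (l 16707952))) (b (l 16715288) (l 16695800))))) (b (a (b (c (a (l 16708736) (l 16699912)) (l 16713992)) (c (l 16716504) (l 16697048))) (b (c (l 16707640) (l 16688880)) (c (l 16677688) (l 16679664)))) (a (b (c (l 16686752) (l 16688008)) (c (l 16678024) (l 16679016))) (b (l 16701304) (l 16681904))))))), by decide +kernel⟩

def k5_pm_011 : ∃ t, chk3 f_pm_011 t 5 7 1 = true :=
  ⟨(b (l 3) (a (b (c (a (l 3) (b (l 3) (b (l 3) (a (l 16710360) (l 16678296))))) (a (l 3) (b (l 3) (b (l 3) (a (a (l 16710256) (l 16679288)) (l 16684592)))))) (b (a (c (a (b (a (a (l 16728128) (l 16723608)) (l 16716680)) (c (l 16702192) (l 16704136))) (b (a (l 16707184) (l 16697344)) (l 16684064))) (b (a (a (b (l 3) (l 16703784)) (l 16709872)) (b (l 16711112) (l 16680824))) (a (a (l 16689768) (l 16680744)) (l 16687744)))) (b (a (c (l 16681936) (l 16686840)) (c (l 16660152) (l 16665952))) (a (a (l 16671256) (l 16660968)) (c (l 16642056) (l 16626376))))) (a (a (b (c (l 16685056) (l 16687640))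 (c (l 16667128) (l 16648232))) (b (l 16688752) (l 16670632))) (a (b (a (l 16652976) (l 16642744)) (b (l 16634368) (l 16625408))) (c (l 16636408) (b (l 16607976) (l 16589792))))))) (b (a (b (l 3) (a (b (c (l 16683184) (l 16680600)) (l 16679960)) (b (c (l 16647840) (l 16656904)) (l 16655504)))) (a (b (l 3) (b (c (l 16641648) (l 16631120)) (l 16629008))) (b (b (l 3) (c (b (l 3) (l 16619144)) (l 16631032))) (b (c (l 16617328) (l 16602576)) (l 16593576))))) (b (a (a (a (l 16658232) (l 16646520)) (a (l 16634408) (l 16621864))) (a (l 16612552) (l 16583312))) (a (a (a (l 16622176) (l 16610624)) (l 16603096)) (b (l 16572280) (l 16544568))))))), by decide +kernel⟩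

def k6_pm_011 : ∃ t, chk3 f_pm_011 t 3 6 1 = true :=
  ⟨(l 3), by decide +kernel⟩

def k7_pm_011 : ∃ t, chk3 f_pm_011 t 6 14 1 = true :=
  ⟨(a (l 3) (b (l 3) (a (b (l 3) (b (l 3) (b (a (l 3) (a (l 3) (c (l 35601114775) (l 31306109079)))) (a (c (a (l 28084927351) (l 32379889815)) (c (l 35600966743) (l 16572648))) (c (a (l 36137981703) (l 16726688)) (a (l 16622168) (l 16616376))))))) (b (l 3) (b (b (l 3) (a (a (l 3) (c (l 46338571655) (l 33990479751))) (c (a (l 36138052759) (l 16782944)) (a (l 36137959367) (l 40432922855))))) (a (c (a (b (l 37211723095) (l 16742400)) (b (l 16746336) (l 16758008))) (a (b (l 35064216199) (l 16631496)) (b (l 16681568) (l 16646536)))) (c (a (l 16756904) (l 16792872)) (a (l 16689176) (l 16682632))))))))), by decide +kernel⟩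

def k8_pm_011 : ∃ t, chk3 f_pm_011 t 12 15 1 = true :=
  ⟨(b (a (b (a (b (l 3) (c (a (l 16616064) (l 16611888)) (l 16617240))) (c (a (b (l 3) (l 16608488)) (b (c (l 15736779143) (l 16617256)) (c (l 16611160) (l 16579360)))) (b (b (l 3) (l 16599496)) (l 16592384)))) (c (b (a (l 16600408) (a (l 16592736) (l 16590008))) (a (l 16581704) (l 16575160))) (b (a (l 16580448) (l 16571680)) (l 16570640)))) (b (c (b (a (c (a (l 22179246119) (l 29695472935)) (b (l 16612624) (l 16603784))) (b (a (l 28621760583) (l 30769277223)) (a (l 16611464) (l 16629864)))) (a (a (l 16600648) (l 16595032)) (a (l 16580600) (l 16601184)))) (b (a (c (l 16597120) (l 16586560)) (b (l 16584920) (l 16574368))) (a (l 16575744) (l 16563016)))) (c (b (a (l 16582064) (l 16571304)) (a (l 16565824) (l 16554968))) (a (b (l 16560304) (l 16544384)) (b (l 16547488) (l 16510496)))))) (a (b (a (b (l 16577504) (l 16560624)) (c (b (l 16558480) (l 16541272)) (l 16552104))) (b (a (l 16543240) (l 16535192)) (a (l 16525368)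 (l 16517176)))) (b (b (a (l 16559176) (l 16547160)) (a (l 16542064) (l 16529912))) (b (a (l 16524424) (l 16512120)) (a (l 16506248) (l 16493776)))))), by decide +kernel⟩

def k9_pm_011 : ∃ t, chk3 f_pm_011 t 13 15 1 = true :=
  ⟨(b (b (a (a (b (b (c (a (l 16685208) (l 16681224)) (l 16600432)) (c (l 16657240) (l 16562712))) (c (l 16652544) (l 16551304))) (b (c (a (l 16691304) (l 16708544)) (a (l 16573440) (l 16590296))) (c (l 16671032) (l 16541488)))) (a (b (c (a (l 16725600) (l 16742472)) (l 16657256)) (c (l 16709232) (l 16579696))) (b (c (l 16767400) (l 16648016)) (c (l 16746144) (l 16616640))))) (a (c (a (b (l 16592448) (l 16547104)) (b (l 16637320) (l 16598256))) (a (l 16543320) (b (l 16503968) (l 16487736)))) (a (c (l 16664064) (l 16558720)) (c (l 16707384) (l 16561248))))) (b (a (c (a (l 16582336) (l 16549216)) (a (l 16494288) (l 16483248))) (a (c (l 16586336) (l 16473352)) (c (l 16640536) (l 16469184)))) (a (c (b (l 16508712) (l 16489848)) (b (l 16462112) (l 16443768)))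 (a (c (l 16484184) (l 16437304)) (c (l 16552640) (l 16428320)))))), by decide +kernel⟩

def k10_pm_011 : ∃ t, chk3 f_pm_011 t 7 7 1 = true :=
  ⟨(b (a (b (l 3) (a (a (b (l 3) (b (c (a (l 37748739095) (l 39896245159)) (b (a (l 45264765495) (l 40969793639)) (a (l 16713496) (l 16726672)))) (c (l 16815120) (a (l 16696952) (l 16711152))))) (b (b (l 3) (c (l 84993458359) (a (l 62981635047) (l 37748651719)))) (c (b (l 42580633719) (l 16844256)) (b (a (l 44727913991) (l 16757008)) (l 16732216))))) (b (c (a (b (l 3) (c (l 16912808) (l 16841616))) (b (l 1) (l 67679508375))) (b (a (l 3) (l 1)) (a (a (b (l 3) (l 16780120)) (b (l 28621900439) (l 16790736))) (c (l 66605663623) (l 67142437463))))) (c (a (b (l 16880768) (l 16871888)) (b (l 16905976) (l 16898312))) (a (b (a (l 16769096) (l 16780216)) (l 16758232)) (b (c (l 16824024) (l 16770320)) (l 16782216))))))) (b (l 1) (a (a (b (l 1) (b (l 1) (l 70363649687))) (l 1)) (l 1)))) (a (b (a (b (a (c (l 16749272) (b (l 16679920) (l 16652280)))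 (c (l 16824136) (l 16699224))) (a (c (l 16748624) (l 16603512)) (c (l 16787912) (l 16643696)))) (b (c (a (l 16854768) (l 16883400)) (a (l 16728888) (l 16755632))) (a (c (l 16823624) (l 16679472)) (c (l 16856056) (l 16710896))))) (a (b (a (c (l 16691232) (l 16522536)) (l 16655136)) (a (c (l 16615624) (l 16419704)) (l 16619368))) (b (a (l 16698120) (l 16735608)) (a (l 16629760) (l 16674472))))) (b (a (b (a (c (l 16911944) (l 16782256)) (l 67142384455)) (c (l 16903680) (a (l 16741608) (l 16771792)))) (b (l 1) (c (l 16965768) (l 60699964487)))) (a (b (c (l 16872496) (l 16686224)) (a (l 16716856) (l 16757336))) (a (b (l 16840968) (l 16796304)) (b (l 16874440) (l 16834008))))))), by decide +kernel⟩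

theorem s11_pm_011 : ∃ t, chk3 f_pm_011 t 6 15 1 = true := ex3_a k8_pm_011 k9_pm_011

theorem s12_pm_011 : ∃ t, chk3 f_pm_011 t 6 7 1 = true := ex3_b k7_pm_011 s11_pm_011

theorem s13_pm_011 : ∃ t, chk3 f_pm_011 t 3 7 1 = true := ex3_a s12_pm_011 k10_pm_011

theorem s14_pm_011 : ∃ t, chk3 f_pm_011 t 3 3 1 = true := ex3_b k6_pm_011 s13_pm_011

theorem s15_pm_011 : ∃ t, chk3 f_pm_011 t 4 15 1 = true := ex3_a k3_pm_011 k4_pm_011

theorem s16_pm_011 : ∃ t, chk3 f_pm_011 t 4 7 1 = true := ex3_b k2_pm_011 s15_pm_011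

theorem s17_pm_011 : ∃ t, chk3 f_pm_011 t 2 7 1 = true := ex3_a s16_pm_011 k5_pm_011

theorem s18_pm_011 : ∃ t, chk3 f_pm_011 t 2 3 1 = true := ex3_b k1_pm_011 s17_pm_011

theorem s19_pm_011 : ∃ t, chk3 f_pm_011 t 1 3 1 = true := ex3_a s18_pm_011 s14_pm_011

theorem s20_pm_011 : ∃ t, chk3 f_pm_011 t 1 1 1 = true := ex3_b k0_pm_011 s19_pm_011

theorem c_pm_011 : CertN 0 536870912 536870912 536870912 335544320 67108864 3 true true false .pnn 0 1 1
    ndN0q0 ndN3q1 pcN1 cut_pm_011 Ext.none :=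
  certN1 (fam := true) (s1 := true) (s2 := false) (a := 0) (b := 1) (c := 1) (cn := .pnn) (n1 := ndN0q0) (n2 := ndN3q1) (pc := pcN1) (cut := cut_pm_011) (xt := Ext.none) (P1 := 0) (W1 := 536870912) (P2 := 536870912) (W2 := 536870912) (P3 := 335544320) (W3 := 67108864) (N0 := 3)
    rfl (fun _ => rfl) s20_pm_011

noncomputable def cut_pm_012 : Cut := Cut.of [[⟨0, 0, 0, 67108864⟩, ⟨1, 1, 0, 67108864⟩, ⟨2, 1, 0, 67108864⟩]]

noncomputable def f_pm_012 : ℕ → ℕ → ℕ → ℕ → Bool := onCell 1073741824 536870912 536870912 536870912 335544320 67108864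
    (rowN 3 2 true true false .pnp 0 1 2 (qsf 0 536870912 536870912 536870912 2) ndN0q0 ndN3q1 pcN2 cut_pm_012 Ext.none)

def k0_pm_012 : ∃ t, chk3 f_pm_012 t 2 2 1 = true :=
  ⟨(a (b (a (b (a (b (a (l 16801368) (l 16851656)) (a (l 16697136) (l 16768104))) (b (l 16933616) (l 16786592))) (a (b (a (a (l 16614056) (l 16637720)) (l 16675520)) (a (b (l 16545696) (l 16481296)) (l 16568144))) (b (a (l 16729880) (l 16787304)) (a (l 16624936) (l 16685088))))) (b (a (b (l 2) (l 16965920)) (l 2)) (a (b (l 16878112) (l 16779896)) (b (l 17001432) (l 16911280))))) (a (b (a (b (a (b (l 16446824) (l 16451800)) (l 16431136)) (a (a (l 16486448) (l 16457928)) (l 16469216))) (b (a (l 16496664) (l 16563680)) (a (l 16417672) (l 16411600)))) (a (b (a (b (l 16495320) (l 16505168)) (l 16502976)) (a (b (l 16514712) (l 16522568)) (b (l 16452888) (l 16482264)))) (b (a (l 16425720) (l 16414880)) (a (l 16459568) (l 16423184))))) (b (a (b (l 16666296) (l 16527448)) (b (l 16807824) (l 16685552)))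 (a (b (l 16404840) (l 16448184)) (b (l 16534552) (l 16395328)))))) (a (b (b (l 2) (a (l 17080840) (l 2))) (a (b (a (l 16860632) (a (l 16914872) (l 16950648))) (a (l 16588888) (a (l 16658976) (b (l 16775768) (l 16624928))))) (b (l 17036176) (b (l 16878688) (l 16744152))))) (b (l 2) (b (a (l 17162512) (l 2)) (a (l 16978320) (l 17122904)))))), by decide +kernel⟩

def k1_pm_012 : ∃ t, chk3 f_pm_012 t 8 3 1 = true :=
  ⟨(b (b (a (a (b (l 16542368) (c (l 16564440) (l 16574472))) (b (b (l 16489024) (l 16495288)) (c (l 16537200) (l 16503208)))) (b (a (l 16493920) (l 16455880)) (a (l 16506256) (l 16466456)))) (a (a (b (a (l 16632624) (l 16580368)) (a (a (l 16660184) (l 16623848)) (l 16621480))) (b (l 16566040) (l 16606752))) (b (a (c (l 16532296) (l 16478120)) (l 16500184)) (a (c (l 16556808) (l 16525944)) (b (l 16473328) (l 16485128)))))) (a (b (a (b (a (c (b (l 16658584) (l 16687736)) (b (a (l 16647184) (l 16632400)) (l 16678888))) (c (l 16658872) (l 16661368))) (b (a (c (l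 16708152) (b (l 16691936) (l 16700424))) (l 16666592)) (a (a (b (l 16715544) (l 16723736)) (l 16715920)) (a (l 16680584) (l 16676576))))) (b (b (l 16610320) (l 16626968)) (b (l 16644288) (a (l 16654584) (l 16630440))))) (a (b (a (b (b (a (a (l 16735288) (l 16728272)) (l 16717688)) (a (l 6) (l 16725728))) (l 6)) (b (a (l 16707568) (l 16693272)) (a (l 6) (b (l 16705848) (l 6))))) (l 6)) (b (b (a (l 16676824) (l 16648424)) (a (b (l 16684624) (l 16693712)) (c (l 16662560) (l 16664592)))) (b (a (l 6) (b (l 16668952) (l 6))) (l 6))))) (b (b (a (a (l 16568760) (l 16571520)) (b (l 16518440) (l 16531344))) (b (a (l 16582792) (l 16566120)) (a (l 16604360) (l 16580736)))) (b (b (a (a (l 16626648) (l 16605512)) (c (l 16599488) (l 16592728))) (a (a (a (l 16649248) (l 16638176)) (l 16632344)) (b (l 16607488) (l 16615080)))) (b (b (a (a (l 16656544) (l 16634216)) (l 16622816)) (a (a (l 16670464) (l 16642584)) (b (l 16628720) (l 16632688)))) (b (a (a (l 6) (l 16651064)) (b (l 16636688)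 (l 16640712))) (a (l 6) (a (l 16636944) (l 16593848))))))))), by decide +kernel⟩

def k2_pm_012 : ∃ t, chk3 f_pm_012 t 9 3 1 = true :=
  ⟨(b (b (a (b (a (l 16419608) (l 16406456)) (a (l 16428568) (l 16413840))) (b (l 16392792) (l 16395024))) (a (b (a (l 16436448) (l 16419992)) (a (l 16472688) (l 16428336))) (b (a (l 16405464) (l 16393192)) (a (l 16408992) (l 16395120))))) (b (b (a (a (l 16514016) (l 16464576)) (a (l 16418992) (l 16398296))) (a (b (a (l 16489568) (l 16458144)) (a (l 16502336) (l 16468936))) (b (l 16459424) (l 16467256)))) (b (a (a (b (l 16536864) (l 16571424)) (b (l 16480624) (l 16492464))) (b (a (l 16448504) (l 16419800)) (a (l 16458456) (l 16427760)))) (a (a (b (a (l 16553520) (l 16533496)) (b (l 16575312) (a (l 16572296) (l 16551352)))) (b (l 16525736) (b (l 16514480) (l 16521152)))) (b (a (l 16468968) (l 16436368)) (a (l 16501256) (l 16445872))))))), by decide +kernel⟩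

def k3_pm_012 : ∃ t, chk3 f_pm_012 t 5 3 1 = true :=
  ⟨(b (a (a (b (a (l 16383208) (a (l 16381512) (l 16423736))) (a (b (l 16382920) (l 16383592)) (a (l 16417224) (a (l 16373248) (l 16415288))))) (b (l 16451512) (b (l 16364624) (l 16359840)))) (b (a (b (l 16781632) (l 16604768)) (l 16898200)) (b (a (l 16376256) (l 16641192)) (l 16393992)))) (a (b (a (a (b (l 16382144) (l 16387168)) (b (a (l 16373840) (l 16372832)) (a (l 16374424) (l 16412048)))) (b (l 16354856) (l 16391592))) (a (a (b (b (l 16395072) (l 16400952)) (b (l 16407560) (l 16415144))) (b (a (l 16381576) (a (l 16375352) (l 16373024))) (a (b (l 16388992) (l 16395064)) (b (l 16422624) (a (l 16386880) (l 16383360)))))) (b (b (l 16346408) (l 16346512)) (b (l 16347704) (l 16392312))))) (b (b (a (l 16327064) (l 16308280)) (a (l 16316160) (l 16291240))) (b (a (b (l 16308576) (l 16301576)) (l 16316616)) (a (b (l 16297400) (l 16294968)) (b (l 16261936) (l 16252152))))))), by decide +kernel⟩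

def k4_pm_012 : ∃ t, chk3 f_pm_012 t 3 1 1 = true :=
  ⟨(b (a (b (l 2) (a (b (l 2) (a (l 17248816) (l 2))) (l 2))) (l 2)) (a (a (b (b (a (l 17069440) (l 17216016)) (a (b (l 16868936) (l 16682480)) (b (l 17061728) (l 16920616)))) (b (a (b (l 16436848) (l 16275584)) (b (l 16733600) (l 16484096))) (a (b (l 16252584) (a (l 16236472) (l 16225048))) (b (l 16253776) (l 16222120))))) (b (b (a (l 17339456) (l 2)) (a (l 17174408) (l 17319168))) (b (a (b (l 16980952) (l 16796864)) (b (l 17178632) (l 17045048))) (a (b (l 16548032) (l 16241952)) (b (a (l 16796024) (l 16937056)) (a (l 16526696) (l 16711960))))))) (b (a (b (l 2) (a (l 17435448) (l 2))) (l 2)) (a (b (a (l 17291400) (l 17398352)) (a (b (l 17114392) (a (l 16873056) (l 17010336))) (b (l 17246112) (l 17096704)))) (b (a (l 17484376) (l 2)) (a (b (l 17338184) (l 17190552)) (l 17388736))))))), by decide +kernel⟩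

theorem s5_pm_012 : ∃ t, chk3 f_pm_012 t 4 3 1 = true := ex3_a k1_pm_012 k2_pm_012

theorem s6_pm_012 : ∃ t, chk3 f_pm_012 t 2 3 1 = true := ex3_a s5_pm_012 k3_pm_012

theorem s7_pm_012 : ∃ t, chk3 f_pm_012 t 2 1 1 = true := ex3_b k0_pm_012 s6_pm_012

theorem s8_pm_012 : ∃ t, chk3 f_pm_012 t 1 1 1 = true := ex3_a s7_pm_012 k4_pm_012

theorem c_pm_012 : CertN 0 536870912 536870912 536870912 335544320 67108864 3 true true false .pnp 0 1 2
    ndN0q0 ndN3q1 pcN2 cut_pm_012 Ext.none :=
  certN2 (fam := true) (s1 := true) (s2 := false) (a := 0) (b := 1) (c := 2) (cn := .pnp) (n1 := ndN0q0) (n2 := ndN3q1) (pc := pcN2) (cut := cut_pm_012) (xt := Ext.none) (P1 := 0) (W1 := 536870912) (P2 := 536870912) (W2 := 536870912) (P3 := 335544320) (W3 := 67108864) (N0 := 3)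
    rfl (fun _ => rfl) s8_pm_012

noncomputable def f_pm_022 : ℕ → ℕ → ℕ → ℕ → Bool := onCell 0 536870912 1073741824 536870912 335544320 67108864
    (rowN 3 1 true true false .pp 0 2 2 (qsf 0 536870912 1073741824 536870912 2) ndN0q0 ndN3q2 pcN2 Cut.none Ext.none)

def k0_pm_022 : ∃ t, chk3 f_pm_022 t 1 1 1 = true :=
  ⟨(a (b (b (l 3) (b (b (b (l 3) (b (l 3) (b (l 3) (a (b (a (l 16512160) (l 3)) (a (l 16445000) (l 16488800))) (a (b (l 3) (l 52646465639)) (l 1)))))) (a (a (l 16431832) (a (l 16408304) (l 16442264))) (a (a (l 16476544) (l 59088881175)) (a (l 88616665047) (l 1))))) (a (a (b (l 16347392) (l 16285192)) (a (l 16380096) (a (l 16330376) (l 16379184)))) (a (b (a (l 16398712) (l 16414744)) (l 16393904)) (a (b (l 71436840087) (l 16380728)) (b (l 100964627655) (l 83247943111))))))) (a (b (a (b (l 16231448) (l 16080088)) (b (b (l 16279640) (l 16202520)) (l 16132184))) (a (b (l 16516472) (l 16881848)) (b (l 16535576) (l 16886248)))) (b (a (b (l 16377608) (l 16193088))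 (b (a (l 16307712) (b (l 16355320) (l 16310712))) (l 16272168))) (a (b (l 16557528) (l 16892152)) (b (l 16592016) (l 16905784)))))) (b (b (l 1) (b (l 1) (a (a (a (b (l 1) (l 112775741927)) (l 1)) (l 1)) (l 1)))) (a (b (a (b (a (b (l 102575273239) (l 16342472)) (b (l 116533799351) (l 121902578247))) (a (l 16283952) (l 16357192))) (b (a (b (l 1) (l 125660570087)) (l 1)) (a (l 148209222503) (l 148209151431)))) (a (b (l 16650752) (l 16934656)) (b (a (l 16709288) (l 16755320)) (l 16981360)))) (b (a (b (l 1) (a (l 156262357191) (l 1))) (l 1)) (a (a (b (a (l 195454097303) (l 199212249463)) (l 17029400)) (b (l 223372051383) (l 17073240))) (b (b (l 1) (l 242699763911)) (a (l 17088832) (l 265785231047)))))))), by decide +kernel⟩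

theorem c_pm_022 : CertN 0 536870912 1073741824 536870912 335544320 67108864 3 true true false .pp 0 2 2
    ndN0q0 ndN3q2 pcN2 Cut.none Ext.none :=
  certN1 (fam := true) (s1 := true) (s2 := false) (a := 0) (b := 2) (c := 2) (cn := .pp) (n1 := ndN0q0) (n2 := ndN3q2) (pc := pcN2) (cut := Cut.none) (xt := Ext.none) (P1 := 0) (W1 := 536870912) (P2 := 1073741824) (W2 := 536870912) (P3 := 335544320) (W3 := 67108864) (N0 := 3)
    rfl (fun _ => rfl) k0_pm_022

noncomputable def f_pm_023 : ℕ → ℕ → ℕ → ℕ → Bool := onCell 0 536870912 1073741824 536870912 335544320 67108864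
    (rowN 3 0 true true false .up 0 2 3 (qsf 0 536870912 1073741824 536870912 3) ndN0q0 ndN3q2 pcN3 Cut.none Ext.none)

def k0_pm_023 : ∃ t, chk3 f_pm_023 t 1 1 1 = true :=
  ⟨(a (b (a (l 1) (b (l 1) (l 127271069383))) (b (a (l 149282957751) (l 207802607255)) (a (l 262027666071) (b (l 17276256) (l 17360984))))) (b (a (a (l 182032527719) (l 232499074535)) (b (a (l 241625584471) (l 277059649815)) (a (l 17271152) (l 17332296)))) (a (b (l 17283512) (l 17360576)) (b (l 17328928) (a (l 17318880) (b (l 17273960) (a (l 17254816) (b (l 17226528) (a (l 17215128) (l 17193960)))))))))), by decide +kernel⟩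

theorem c_pm_023 : CertN 0 536870912 1073741824 536870912 335544320 67108864 3 true true false .up 0 2 3
    ndN0q0 ndN3q2 pcN3 Cut.none Ext.none :=
  certN0 (fam := true) (s1 := true) (s2 := false) (a := 0) (b := 2) (c := 3) (cn := .up) (n1 := ndN0q0) (n2 := ndN3q2) (pc := pcN3) (cut := Cut.none) (xt := Ext.none) (P1 := 0) (W1 := 536870912) (P2 := 1073741824) (W2 := 536870912) (P3 := 335544320) (W3 := 67108864) (N0 := 3)
    rfl k0_pm_023

noncomputable def f_pm_033 : ℕ → ℕ → ℕ → ℕ → Bool := onCell 1610612736 536870912 0 1230186008 335544320 67108864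
    (rowN 3 2 true true false .pnn 0 3 3 (qsf 0 536870912 0 1230186008 3) ndN0q0 ndN3q3 pcN3 Cut.none Ext.none)

def k0_pm_033 : ∃ t, chk3 f_pm_033 t 1 1 1 = true :=
  ⟨(a (b (l 1) (b (a (l 1) (b (l 1) (l 17541152))) (a (b (l 1) (b (l 17522464) (l 17466280))) (b (l 17475376) (b (l 17399128) (l 17338728)))))) (b (a (l 1) (a (l 110093903303) (l 4))) (a (b (a (l 17491600) (l 17365680)) (b (a (l 17363848) (l 17283456)) (b (l 17254208) (l 17196272)))) (b (a (l 17279160) (a (l 17227264) (l 4))) (a (b (l 17197400) (l 17115432)) (a (b (l 17135176) (l 17054208)) (b (l 17102728) (a (l 17021416) (l 16997336))))))))), by decide +kernel⟩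

theorem c_pm_033 : CertN 0 536870912 0 1230186008 335544320 67108864 3 true true false .pnn 0 3 3
    ndN0q0 ndN3q3 pcN3 Cut.none Ext.none :=
  certN2 (fam := true) (s1 := true) (s2 := false) (a := 0) (b := 3) (c := 3) (cn := .pnn) (n1 := ndN0q0) (n2 := ndN3q3) (pc := pcN3) (cut := Cut.none) (xt := Ext.none) (P1 := 0) (W1 := 536870912) (P2 := 0) (W2 := 1230186008) (P3 := 335544320) (W3 := 67108864) (N0 := 3)
    rfl (fun _ => rfl) k0_pm_033

noncomputable def f_pm_101 : ℕ → ℕ → ℕ → ℕ → Bool := onCell 536870912 536870912 536870912 536870912 335544320 67108864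
    (rowN 3 1 true true false .npn 1 0 1 (qsf 536870912 536870912 0 536870912 1) ndN0q1 ndN3q0 pcN1 Cut.none Ext.none)

def k0_pm_101 : ∃ t, chk3 f_pm_101 t 1 1 1 = true :=
  ⟨(a (b (a (l 3) (b (a (b (l 1) (l 3)) (l 1)) (l 3))) (b (a (l 3) (b (l 3) (b (l 3) (a (a (l 215990487671) (l 68351028695)) (a (l 71035426935) (l 73719814087)))))) (a (b (a (a (b (l 78551453287) (l 17063536)) (b (l 79088339799) (l 17078976))) (b (a (l 79088362695) (l 79088403607)) (a (l 17099776) (l 17122776)))) (a (b (a (l 17079440) (l 17093496)) (l 17098416)) (b (l 17126552) (l 17138064)))) (b (a (b (a (l 17126240) (l 17146456)) (l 17157712)) (b (a (l 17164120) (l 17177784)) (l 17198192))) (a (b (l 17177816) (l 17193104)) (b (l 17225464) (l 17248160))))))) (b (a (b (l 1) (a (b (l 1) (l 3)) (l 1))) (l 1)) (a (b (b (l 3) (a (b (l 3) (a (l 76941060503) (l 17164152))) (a (b (l 124185685399) (l 17159688)) (b (l 267932855127) (l 17148224))))) (b (a (b (a (l 17186280) (l 17188712)) (l 17220784)) (b (l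 17178776) (l 17215464))) (a (b (l 17256880) (l 17290296)) (b (l 17260552) (l 17306664))))) (b (a (b (l 1) (b (l 1) (l 309808975751))) (l 1)) (b (a (b (l 17144320) (l 17179448)) (b (l 1) (l 17104328))) (a (l 17254048) (l 17187272))))))), by decide +kernel⟩

theorem c_pm_101 : CertN 536870912 536870912 0 536870912 335544320 67108864 3 true true false .npn 1 0 1
    ndN0q1 ndN3q0 pcN1 Cut.none Ext.none :=
  certN1 (fam := true) (s1 := true) (s2 := false) (a := 1) (b := 0) (c := 1) (cn := .npn) (n1 := ndN0q1) (n2 := ndN3q0) (pc := pcN1) (cut := Cut.none) (xt := Ext.none) (P1 := 536870912) (W1 := 536870912) (P2 := 0) (W2 := 536870912) (P3 := 335544320) (W3 := 67108864) (N0 := 3)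
    rfl (fun _ => rfl) k0_pm_101

noncomputable def f_pm_102 : ℕ → ℕ → ℕ → ℕ → Bool := onCell 536870912 536870912 1073741824 536870912 335544320 67108864
    (rowN 3 1 true true false .npp 1 0 2 (qsf 536870912 536870912 0 536870912 2) ndN0q1 ndN3q0 pcN2 Cut.none Ext.none)

def k0_pm_102 : ∃ t, chk3 f_pm_102 t 1 1 1 = true :=
  ⟨(a (b (a (b (b (a (b (l 17082656) (l 17069248)) (l 17120896)) (a (l 17055376) (l 17109280))) (a (l 2) (l 17099648))) (b (a (b (l 17186312) (l 17182608)) (b (l 17254360) (l 17258968))) (a (l 17187080) (l 17278360)))) (b (a (l 2) (b (l 17226368) (l 2))) (l 2))) (b (a (b (b (a (l 17312608) (l 17348840)) (a (l 17326368) (l 17374400))) (a (l 17361536) (l 17427352))) (b (a (b (a (l 17355080) (l 17348344)) (l 17397064)) (b (l 17324776) (a (l 17401832) (l 17410008)))) (a (l 17474440) (l 17642568)))) (b (a (b (l 17417168) (l 17406688)) (b (l 17521680) (l 17514832))) (a (b (l 17373672) (l 2)) (l 17649720))))), by decide +kernel⟩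

theorem c_pm_102 : CertN 536870912 536870912 0 536870912 335544320 67108864 3 true true false .npp 1 0 2
    ndN0q1 ndN3q0 pcN2 Cut.none Ext.none :=
  certN1 (fam := true) (s1 := true) (s2 := false) (a := 1) (b := 0) (c := 2) (cn := .npp) (n1 := ndN0q1) (n2 := ndN3q0) (pc := pcN2) (cut := Cut.none) (xt := Ext.none) (P1 := 536870912) (W1 := 536870912) (P2 := 0) (W2 := 536870912) (P3 := 335544320) (W3 := 67108864) (N0 := 3)
    rfl (fun _ => rfl) k0_pm_102

noncomputable def f_pm_112 : ℕ → ℕ → ℕ → ℕ → Bool := onCell 536870912 536870912 1073741824 536870912 335544320 67108864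
    (rowN 3 1 true true false .dn 1 1 2 (qsf 536870912 536870912 536870912 536870912 2) ndN0q1 ndN3q1 pcN2 Cut.none Ext.none)

def k0_pm_112 : ∃ t, chk3 f_pm_112 t 1 1 1 = true :=
  ⟨(a (b (a (b (b (a (a (b (l 16844568) (l 16891624)) (l 137472688247)) (l 218540751751)) (a (b (l 16965680) (l 17001280)) (l 17134224))) (a (b (l 17059520) (l 17143944)) (l 17244976))) (a (b (l 230888948519) (l 17358224)) (b (l 1) (l 17455216)))) (b (a (b (a (l 17233552) (l 17362568)) (a (l 17329984) (l 17441728))) (b (l 17497432) (l 17552368))) (a (b (a (b (l 17406520) (l 17435984)) (l 17521536)) (a (l 17445392) (l 17587520))) (b (l 17610120) (l 17674512))))) (b (a (b (l 1) (l 248070022615)) (l 1)) (b (a (b (l 17627104) (l 17654328)) (b (l 1) (l 17691632))) (a (b (l 17675080) (l 17691664)) (l 17664744))))), by decide +kernel⟩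

theorem c_pm_112 : CertN 536870912 536870912 536870912 536870912 335544320 67108864 3 true true false .dn 1 1 2
    ndN0q1 ndN3q1 pcN2 Cut.none Ext.none :=
  certN1 (fam := true) (s1 := true) (s2 := false) (a := 1) (b := 1) (c := 2) (cn := .dn) (n1 := ndN0q1) (n2 := ndN3q1) (pc := pcN2) (cut := Cut.none) (xt := Ext.none) (P1 := 536870912) (W1 := 536870912) (P2 := 536870912) (W2 := 536870912) (P3 := 335544320) (W3 := 67108864) (N0 := 3)
    rfl (fun _ => rfl) k0_pm_112

noncomputable def f_pm_113 : ℕ → ℕ → ℕ → ℕ → Bool := onCell 536870912 536870912 1610612736 536870912 335544320 67108864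
    (rowN 3 1 true true false .nn 1 1 3 (qsf 536870912 536870912 536870912 536870912 3) ndN0q1 ndN3q1 pcN3 Cut.none Ext.none)

def k0_pm_113 : ∃ t, chk3 f_pm_113 t 1 1 1 = true :=
  ⟨(b (a (b (a (a (l 17781424) (l 17781064)) (a (l 17742952) (l 17689816))) (a (a (l 2) (l 17959912)) (b (l 17797496) (l 17850040)))) (b (a (b (l 17604520) (l 17627472)) (b (l 17543120) (l 17534264))) (a (b (l 17643384) (l 17653112)) (b (l 17509400) (l 17478872))))) (b (a (a (l 2) (b (l 17898232) (l 2))) (a (b (l 17655920) (l 17662208)) (l 4))) (a (l 2) (l 4)))), by decide +kernel⟩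

theorem c_pm_113 : CertN 536870912 536870912 536870912 536870912 335544320 67108864 3 true true false .nn 1 1 3
    ndN0q1 ndN3q1 pcN3 Cut.none Ext.none :=
  certN1 (fam := true) (s1 := true) (s2 := false) (a := 1) (b := 1) (c := 3) (cn := .nn) (n1 := ndN0q1) (n2 := ndN3q1) (pc := pcN3) (cut := Cut.none) (xt := Ext.none) (P1 := 536870912) (W1 := 536870912) (P2 := 536870912) (W2 := 536870912) (P3 := 335544320) (W3 := 67108864) (N0 := 3)
    rfl (fun _ => rfl) k0_pm_113

noncomputable def f_pm_123 : ℕ → ℕ → ℕ → ℕ → Bool := onCell 536870912 536870912 1610612736 536870912 335544320 67108864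
    (rowN 3 1 true true false .npn 1 2 3 (qsf 536870912 536870912 1073741824 536870912 3) ndN0q1 ndN3q2 pcN3 Cut.none Ext.none)

def k0_pm_123 : ∃ t, chk3 f_pm_123 t 1 1 1 = true :=
  ⟨(b (a (a (b (a (l 17404384) (l 297998798743)) (l 17372776)) (b (b (l 1) (l 284577313095)) (a (l 17444368) (l 17496328)))) (a (b (l 1) (a (l 17541000) (l 1))) (l 1))) (b (a (a (l 17281976) (l 17289024)) (a (a (l 17312712) (l 17329888)) (b (l 1) (a (l 17274056) (l 1))))) (a (b (a (l 17211192) (l 17171048)) (b (a (l 17175016) (l 17118936)) (a (l 17213368) (b (l 17095008) (l 17082744))))) (b (a (l 17148128) (l 217467540455)) (b (a (l 17135376) (l 17120448)) (a (b (l 17045520) (l 17038568)) (b (l 17053352) (l 4)))))))), by decide +kernel⟩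

theorem c_pm_123 : CertN 536870912 536870912 1073741824 536870912 335544320 67108864 3 true true false .npn 1 2 3
    ndN0q1 ndN3q2 pcN3 Cut.none Ext.none :=
  certN1 (fam := true) (s1 := true) (s2 := false) (a := 1) (b := 2) (c := 3) (cn := .npn) (n1 := ndN0q1) (n2 := ndN3q2) (pc := pcN3) (cut := Cut.none) (xt := Ext.none) (P1 := 536870912) (W1 := 536870912) (P2 := 1073741824) (W2 := 536870912) (P3 := 335544320) (W3 := 67108864) (N0 := 3)
    rfl (fun _ => rfl) k0_pm_123

noncomputable def f_pm_133 : ℕ → ℕ → ℕ → ℕ → Bool := onCell 536870912 536870912 0 1230186008 335544320 67108864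
    (rowN 3 0 true true false .dn 1 3 3 (qsf 536870912 536870912 0 1230186008 3) ndN0q1 ndN3q3 pcN3 Cut.none Ext.none)

def k0_pm_133 : ∃ t, chk3 f_pm_133 t 1 1 1 = true :=
  ⟨(b (l 2) (b (l 2) (a (b (l 2) (a (b (l 2) (l 4)) (l 2))) (l 2)))), by decide +kernel⟩

theorem c_pm_133 : CertN 536870912 536870912 0 1230186008 335544320 67108864 3 true true false .dn 1 3 3
    ndN0q1 ndN3q3 pcN3 Cut.none Ext.none :=
  certN0 (fam := true) (s1 := true) (s2 := false) (a := 1) (b := 3) (c := 3) (cn := .dn) (n1 := ndN0q1) (n2 := ndN3q3) (pc := pcN3) (cut := Cut.none) (xt := Ext.none) (P1 := 536870912) (W1 := 536870912) (P2 := 0) (W2 := 1230186008) (P3 := 335544320) (W3 := 67108864) (N0 := 3)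
    rfl k0_pm_133

noncomputable def f_pm_202 : ℕ → ℕ → ℕ → ℕ → Bool := onCell 0 536870912 0 536870912 335544320 67108864
    (rowN 3 0 true true false .pp 2 0 2 (qsf 0 536870912 0 536870912 2) ndN0q2 ndN3q0 pcN2 Cut.none Ext.none)

def k0_pm_202 : ∃ t, chk3 f_pm_202 t 1 1 1 = true :=
  ⟨(a (b (b (a (b (l 17219424) (l 17329488)) (b (l 17251344) (l 17383392))) (a (b (l 17385936) (l 4)) (b (l 17487896) (l 17404208)))) (b (b (l 17444440) (l 4)) (l 4))) (b (a (b (b (b (l 17253912) (l 17324160)) (l 17430136)) (b (l 17573992) (l 17499464))) (b (b (a (b (a (l 17275480) (l 17282960)) (l 17348184)) (a (b (l 17280288) (l 17362264)) (l 17339112))) (a (l 17467264) (l 17512472))) (b (l 17542776) (a (l 17530736) (l 17533312))))) (b (a (b (l 17449936) (l 17579200)) (b (l 17523296) (l 17495824))) (a (b (l 17316640) (l 2)) (b (l 17447760) (l 17376760)))))), by decide +kernel⟩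

theorem c_pm_202 : CertN 0 536870912 0 536870912 335544320 67108864 3 true true false .pp 2 0 2
    ndN0q2 ndN3q0 pcN2 Cut.none Ext.none :=
  certN0 (fam := true) (s1 := true) (s2 := false) (a := 2) (b := 0) (c := 2) (cn := .pp) (n1 := ndN0q2) (n2 := ndN3q0) (pc := pcN2) (cut := Cut.none) (xt := Ext.none) (P1 := 0) (W1 := 536870912) (P2 := 0) (W2 := 536870912) (P3 := 335544320) (W3 := 67108864) (N0 := 3)
    rfl k0_pm_202

noncomputable def f_pm_203 : ℕ → ℕ → ℕ → ℕ → Bool := onCell 0 536870912 1610612736 536870912 335544320 67108864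
    (rowN 3 1 true true false .up 2 0 3 (qsf 0 536870912 0 536870912 3) ndN0q2 ndN3q0 pcN3 Cut.none Ext.none)

def k0_pm_203 : ∃ t, chk3 f_pm_203 t 1 1 1 = true :=
  ⟨(a (l 4) (b (b (b (l 17300224) (l 17159576)) (l 4)) (l 2))), by decide +kernel⟩

theorem c_pm_203 : CertN 0 536870912 0 536870912 335544320 67108864 3 true true false .up 2 0 3
    ndN0q2 ndN3q0 pcN3 Cut.none Ext.none :=
  certN1 (fam := true) (s1 := true) (s2 := false) (a := 2) (b := 0) (c := 3) (cn := .up) (n1 := ndN0q2) (n2 := ndN3q0) (pc := pcN3) (cut := Cut.none) (xt := Ext.none) (P1 := 0) (W1 := 536870912) (P2 := 0) (W2 := 536870912) (P3 := 335544320) (W3 := 67108864) (N0 := 3)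
    rfl (fun _ => rfl) k0_pm_203

noncomputable def f_pm_213 : ℕ → ℕ → ℕ → ℕ → Bool := onCell 0 536870912 1610612736 536870912 335544320 67108864
    (rowN 3 1 true true false .pnn 2 1 3 (qsf 0 536870912 536870912 536870912 3) ndN0q2 ndN3q1 pcN3 Cut.none Ext.none)

def k0_pm_213 : ∃ t, chk3 f_pm_213 t 1 1 1 = true :=
  ⟨(a (l 4) (b (b (b (l 17625112) (a (l 4) (l 17445952))) (l 4)) (l 4))), by decide +kernel⟩

theorem c_pm_213 : CertN 0 536870912 536870912 536870912 335544320 67108864 3 true true false .pnn 2 1 3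
    ndN0q2 ndN3q1 pcN3 Cut.none Ext.none :=
  certN1 (fam := true) (s1 := true) (s2 := false) (a := 2) (b := 1) (c := 3) (cn := .pnn) (n1 := ndN0q2) (n2 := ndN3q1) (pc := pcN3) (cut := Cut.none) (xt := Ext.none) (P1 := 0) (W1 := 536870912) (P2 := 536870912) (W2 := 536870912) (P3 := 335544320) (W3 := 67108864) (N0 := 3)
    rfl (fun _ => rfl) k0_pm_213

noncomputable def f_mm_001 : ℕ → ℕ → ℕ → ℕ → Bool := onCell 0 536870912 0 536870912 335544320 67108864
    (rowN 3 0 true false false .up 0 0 1 (qsf 0 536870912 0 536870912 1) ndN0q0 ndN3q0 pcN1 Cut.none Ext.none)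

def k0_mm_001 : ∃ t, chk3 f_mm_001 t 1 1 1 = true :=
  ⟨(l 4), by decide +kernel⟩

theorem c_mm_001 : CertN 0 536870912 0 536870912 335544320 67108864 3 true false false .up 0 0 1
    ndN0q0 ndN3q0 pcN1 Cut.none Ext.none :=
  certN0 (fam := true) (s1 := false) (s2 := false) (a := 0) (b := 0) (c := 1) (cn := .up) (n1 := ndN0q0) (n2 := ndN3q0) (pc := pcN1) (cut := Cut.none) (xt := Ext.none) (P1 := 0) (W1 := 536870912) (P2 := 0) (W2 := 536870912) (P3 := 335544320) (W3 := 67108864) (N0 := 3)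
    rfl k0_mm_001

noncomputable def f_mm_011 : ℕ → ℕ → ℕ → ℕ → Bool := onCell 0 536870912 536870912 536870912 335544320 67108864
    (rowN 3 0 true false false .pnn 0 1 1 (qsf 0 536870912 536870912 536870912 1) ndN0q0 ndN3q1 pcN1 Cut.none Ext.none)

def k0_mm_011 : ∃ t, chk3 f_mm_011 t 1 1 1 = true :=
  ⟨(l 4), by decide +kernel⟩

theorem c_mm_011 : CertN 0 536870912 536870912 536870912 335544320 67108864 3 true false false .pnn 0 1 1
    ndN0q0 ndN3q1 pcN1 Cut.none Ext.none :=
  certN0 (fam := true) (s1 := false) (s2 := false) (a := 0) (b := 1) (c := 1) (cn := .pnn) (n1 := ndN0q0) (n2 := ndN3q1) (pc := pcN1) (cut := Cut.none) (xt := Ext.none) (P1 := 0) (W1 := 536870912) (P2 := 536870912) (W2 := 536870912) (P3 := 335544320) (W3 := 67108864) (N0 := 3)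
    rfl k0_mm_011

noncomputable def f_mm_012 : ℕ → ℕ → ℕ → ℕ → Bool := onCell 0 536870912 536870912 536870912 335544320 67108864
    (rowN 3 0 true false false .pnp 0 1 2 (qsf 0 536870912 536870912 536870912 2) ndN0q0 ndN3q1 pcN2 Cut.none Ext.none)

def k0_mm_012 : ∃ t, chk3 f_mm_012 t 1 1 1 = true :=
  ⟨(l 4), by decide +kernel⟩

theorem c_mm_012 : CertN 0 536870912 536870912 536870912 335544320 67108864 3 true false false .pnp 0 1 2
    ndN0q0 ndN3q1 pcN2 Cut.none Ext.none :=
  certN0 (fam := true) (s1 := false) (s2 := false) (a := 0) (b := 1) (c := 2) (cn := .pnp) (n1 := ndN0q0) (n2 := ndN3q1) (pc := pcN2) (cut := Cut.none) (xt := Ext.none) (P1 := 0) (W1 := 536870912) (P2 := 536870912) (W2 := 536870912) (P3 := 335544320) (W3 := 67108864) (N0 := 3)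
    rfl k0_mm_012

noncomputable def f_mm_022 : ℕ → ℕ → ℕ → ℕ → Bool := onCell 0 536870912 1073741824 536870912 335544320 67108864
    (rowN 3 0 true false false .pp 0 2 2 (qsf 0 536870912 1073741824 536870912 2) ndN0q0 ndN3q2 pcN2 Cut.none Ext.none)

def k0_mm_022 : ∃ t, chk3 f_mm_022 t 1 1 1 = true :=
  ⟨(l 4), by decide +kernel⟩

theorem c_mm_022 : CertN 0 536870912 1073741824 536870912 335544320 67108864 3 true false false .pp 0 2 2
    ndN0q0 ndN3q2 pcN2 Cut.none Ext.none :=
  certN0 (fam := true) (s1 := false) (s2 := false) (a := 0) (b := 2) (c := 2) (cn := .pp) (n1 := ndN0q0) (n2 := ndN3q2) (pc := pcN2) (cut := Cut.none) (xt := Ext.none) (P1 := 0) (W1 := 536870912) (P2 := 1073741824) (W2 := 536870912) (P3 := 335544320) (W3 := 67108864) (N0 := 3)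
    rfl k0_mm_022

noncomputable def f_mm_023 : ℕ → ℕ → ℕ → ℕ → Bool := onCell 0 536870912 1073741824 536870912 335544320 67108864
    (rowN 3 0 true false false .up 0 2 3 (qsf 0 536870912 1073741824 536870912 3) ndN0q0 ndN3q2 pcN3 Cut.none Ext.none)

def k0_mm_023 : ∃ t, chk3 f_mm_023 t 1 1 1 = true :=
  ⟨(l 4), by decide +kernel⟩

theorem c_mm_023 : CertN 0 536870912 1073741824 536870912 335544320 67108864 3 true false false .up 0 2 3
    ndN0q0 ndN3q2 pcN3 Cut.none Ext.none :=
  certN0 (fam := true) (s1 := false) (s2 := false) (a := 0) (b := 2) (c := 3) (cn := .up) (n1 := ndN0q0) (n2 := ndN3q2) (pc := pcN3) (cut := Cut.none) (xt := Ext.none) (P1 := 0) (W1 := 536870912) (P2 := 1073741824) (W2 := 536870912) (P3 := 335544320) (W3 := 67108864) (N0 := 3)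
    rfl k0_mm_023

noncomputable def f_mm_033 : ℕ → ℕ → ℕ → ℕ → Bool := onCell 0 536870912 0 1230186008 335544320 67108864
    (rowN 3 0 true false false .pnn 0 3 3 (qsf 0 536870912 0 1230186008 3) ndN0q0 ndN3q3 pcN3 Cut.none Ext.none)

def k0_mm_033 : ∃ t, chk3 f_mm_033 t 1 1 1 = true :=
  ⟨(l 5), by decide +kernel⟩

theorem c_mm_033 : CertN 0 536870912 0 1230186008 335544320 67108864 3 true false false .pnn 0 3 3
    ndN0q0 ndN3q3 pcN3 Cut.none Ext.none :=
  certN0 (fam := true) (s1 := false) (s2 := false) (a := 0) (b := 3) (c := 3) (cn := .pnn) (n1 := ndN0q0) (n2 := ndN3q3) (pc := pcN3) (cut := Cut.none) (xt := Ext.none) (P1 := 0) (W1 := 536870912) (P2 := 0) (W2 := 1230186008) (P3 := 335544320) (W3 := 67108864) (N0 := 3)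
    rfl k0_mm_033

noncomputable def f_mm_101 : ℕ → ℕ → ℕ → ℕ → Bool := onCell 536870912 536870912 0 536870912 335544320 67108864
    (rowN 3 0 true false false .npn 1 0 1 (qsf 536870912 536870912 0 536870912 1) ndN0q1 ndN3q0 pcN1 Cut.none Ext.none)

def k0_mm_101 : ∃ t, chk3 f_mm_101 t 1 1 1 = true :=
  ⟨(l 4), by decide +kernel⟩

theorem c_mm_101 : CertN 536870912 536870912 0 536870912 335544320 67108864 3 true false false .npn 1 0 1
    ndN0q1 ndN3q0 pcN1 Cut.none Ext.none :=
  certN0 (fam := true) (s1 := false) (s2 := false) (a := 1) (b := 0) (c := 1) (cn := .npn) (n1 := ndN0q1) (n2 := ndN3q0) (pc := pcN1) (cut := Cut.none) (xt := Ext.none) (P1 := 536870912) (W1 := 536870912) (P2 := 0) (W2 := 536870912) (P3 := 335544320) (W3 := 67108864) (N0 := 3)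
    rfl k0_mm_101

noncomputable def f_mm_102 : ℕ → ℕ → ℕ → ℕ → Bool := onCell 536870912 536870912 0 536870912 335544320 67108864
    (rowN 3 0 true false false .npp 1 0 2 (qsf 536870912 536870912 0 536870912 2) ndN0q1 ndN3q0 pcN2 Cut.none Ext.none)

def k0_mm_102 : ∃ t, chk3 f_mm_102 t 1 1 1 = true :=
  ⟨(l 4), by decide +kernel⟩

theorem c_mm_102 : CertN 536870912 536870912 0 536870912 335544320 67108864 3 true false false .npp 1 0 2
    ndN0q1 ndN3q0 pcN2 Cut.none Ext.none :=
  certN0 (fam := true) (s1 := false) (s2 := false) (a := 1) (b := 0) (c := 2) (cn := .npp) (n1 := ndN0q1) (n2 := ndN3q0) (pc := pcN2) (cut := Cut.none) (xt := Ext.none) (P1 := 536870912) (W1 := 536870912) (P2 := 0) (W2 := 536870912) (P3 := 335544320) (W3 := 67108864) (N0 := 3)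
    rfl k0_mm_102

noncomputable def f_mm_112 : ℕ → ℕ → ℕ → ℕ → Bool := onCell 536870912 536870912 536870912 536870912 335544320 67108864
    (rowN 3 0 true false false .dn 1 1 2 (qsf 536870912 536870912 536870912 536870912 2) ndN0q1 ndN3q1 pcN2 Cut.none Ext.none)

def k0_mm_112 : ∃ t, chk3 f_mm_112 t 1 1 1 = true :=
  ⟨(l 4), by decide +kernel⟩

theorem c_mm_112 : CertN 536870912 536870912 536870912 536870912 335544320 67108864 3 true false false .dn 1 1 2
    ndN0q1 ndN3q1 pcN2 Cut.none Ext.none :=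
  certN0 (fam := true) (s1 := false) (s2 := false) (a := 1) (b := 1) (c := 2) (cn := .dn) (n1 := ndN0q1) (n2 := ndN3q1) (pc := pcN2) (cut := Cut.none) (xt := Ext.none) (P1 := 536870912) (W1 := 536870912) (P2 := 536870912) (W2 := 536870912) (P3 := 335544320) (W3 := 67108864) (N0 := 3)
    rfl k0_mm_112

noncomputable def f_mm_113 : ℕ → ℕ → ℕ → ℕ → Bool := onCell 536870912 536870912 536870912 536870912 335544320 67108864
    (rowN 3 0 true false false .nn 1 1 3 (qsf 536870912 536870912 536870912 536870912 3) ndN0q1 ndN3q1 pcN3 Cut.none Ext.none)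

def k0_mm_113 : ∃ t, chk3 f_mm_113 t 1 1 1 = true :=
  ⟨(l 4), by decide +kernel⟩

theorem c_mm_113 : CertN 536870912 536870912 536870912 536870912 335544320 67108864 3 true false false .nn 1 1 3
    ndN0q1 ndN3q1 pcN3 Cut.none Ext.none :=
  certN0 (fam := true) (s1 := false) (s2 := false) (a := 1) (b := 1) (c := 3) (cn := .nn) (n1 := ndN0q1) (n2 := ndN3q1) (pc := pcN3) (cut := Cut.none) (xt := Ext.none) (P1 := 536870912) (W1 := 536870912) (P2 := 536870912) (W2 := 536870912) (P3 := 335544320) (W3 := 67108864) (N0 := 3)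
    rfl k0_mm_113

noncomputable def f_mm_123 : ℕ → ℕ → ℕ → ℕ → Bool := onCell 536870912 536870912 1073741824 536870912 335544320 67108864
    (rowN 3 0 true false false .npn 1 2 3 (qsf 536870912 536870912 1073741824 536870912 3) ndN0q1 ndN3q2 pcN3 Cut.none Ext.none)

def k0_mm_123 : ∃ t, chk3 f_mm_123 t 1 1 1 = true :=
  ⟨(l 4), by decide +kernel⟩

theorem c_mm_123 : CertN 536870912 536870912 1073741824 536870912 335544320 67108864 3 true false false .npn 1 2 3
    ndN0q1 ndN3q2 pcN3 Cut.none Ext.none :=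
  certN0 (fam := true) (s1 := false) (s2 := false) (a := 1) (b := 2) (c := 3) (cn := .npn) (n1 := ndN0q1) (n2 := ndN3q2) (pc := pcN3) (cut := Cut.none) (xt := Ext.none) (P1 := 536870912) (W1 := 536870912) (P2 := 1073741824) (W2 := 536870912) (P3 := 335544320) (W3 := 67108864) (N0 := 3)
    rfl k0_mm_123

noncomputable def f_mm_133 : ℕ → ℕ → ℕ → ℕ → Bool := onCell 536870912 536870912 0 1230186008 335544320 67108864
    (rowN 3 0 true false false .dn 1 3 3 (qsf 536870912 536870912 0 1230186008 3) ndN0q1 ndN3q3 pcN3 Cut.none Ext.none)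

def k0_mm_133 : ∃ t, chk3 f_mm_133 t 1 1 1 = true :=
  ⟨(l 4), by decide +kernel⟩

theorem c_mm_133 : CertN 536870912 536870912 0 1230186008 335544320 67108864 3 true false false .dn 1 3 3
    ndN0q1 ndN3q3 pcN3 Cut.none Ext.none :=
  certN0 (fam := true) (s1 := false) (s2 := false) (a := 1) (b := 3) (c := 3) (cn := .dn) (n1 := ndN0q1) (n2 := ndN3q3) (pc := pcN3) (cut := Cut.none) (xt := Ext.none) (P1 := 536870912) (W1 := 536870912) (P2 := 0) (W2 := 1230186008) (P3 := 335544320) (W3 := 67108864) (N0 := 3)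
    rfl k0_mm_133

noncomputable def f_mm_202 : ℕ → ℕ → ℕ → ℕ → Bool := onCell 0 536870912 0 536870912 335544320 67108864
    (rowN 3 0 true false false .pp 2 0 2 (qsf 0 536870912 0 536870912 2) ndN0q2 ndN3q0 pcN2 Cut.none Ext.none)

def k0_mm_202 : ∃ t, chk3 f_mm_202 t 1 1 1 = true :=
  ⟨(b (a (b (a (b (l 17171496) (l 4)) (l 4)) (l 4)) (l 4)) (l 4)), by decide +kernel⟩

theorem c_mm_202 : CertN 0 536870912 0 536870912 335544320 67108864 3 true false false .pp 2 0 2
    ndN0q2 ndN3q0 pcN2 Cut.none Ext.none :=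
  certN0 (fam := true) (s1 := false) (s2 := false) (a := 2) (b := 0) (c := 2) (cn := .pp) (n1 := ndN0q2) (n2 := ndN3q0) (pc := pcN2) (cut := Cut.none) (xt := Ext.none) (P1 := 0) (W1 := 536870912) (P2 := 0) (W2 := 536870912) (P3 := 335544320) (W3 := 67108864) (N0 := 3)
    rfl k0_mm_202

noncomputable def f_mm_203 : ℕ → ℕ → ℕ → ℕ → Bool := onCell 0 536870912 1610612736 536870912 335544320 67108864
    (rowN 3 1 true false false .up 2 0 3 (qsf 0 536870912 0 536870912 3) ndN0q2 ndN3q0 pcN3 Cut.none Ext.none)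

def k0_mm_203 : ∃ t, chk3 f_mm_203 t 1 1 1 = true :=
  ⟨(l 4), by decide +kernel⟩

theorem c_mm_203 : CertN 0 536870912 0 536870912 335544320 67108864 3 true false false .up 2 0 3
    ndN0q2 ndN3q0 pcN3 Cut.none Ext.none :=
  certN1 (fam := true) (s1 := false) (s2 := false) (a := 2) (b := 0) (c := 3) (cn := .up) (n1 := ndN0q2) (n2 := ndN3q0) (pc := pcN3) (cut := Cut.none) (xt := Ext.none) (P1 := 0) (W1 := 536870912) (P2 := 0) (W2 := 536870912) (P3 := 335544320) (W3 := 67108864) (N0 := 3)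
    rfl (fun _ => rfl) k0_mm_203

noncomputable def f_mm_213 : ℕ → ℕ → ℕ → ℕ → Bool := onCell 0 536870912 536870912 536870912 335544320 67108864
    (rowN 3 0 true false false .pnn 2 1 3 (qsf 0 536870912 536870912 536870912 3) ndN0q2 ndN3q1 pcN3 Cut.none Ext.none)

def k0_mm_213 : ∃ t, chk3 f_mm_213 t 1 1 1 = true :=
  ⟨(l 4), by decide +kernel⟩

theorem c_mm_213 : CertN 0 536870912 536870912 536870912 335544320 67108864 3 true false false .pnn 2 1 3
    ndN0q2 ndN3q1 pcN3 Cut.none Ext.none :=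
  certN0 (fam := true) (s1 := false) (s2 := false) (a := 2) (b := 1) (c := 3) (cn := .pnn) (n1 := ndN0q2) (n2 := ndN3q1) (pc := pcN3) (cut := Cut.none) (xt := Ext.none) (P1 := 0) (W1 := 536870912) (P2 := 536870912) (W2 := 536870912) (P3 := 335544320) (W3 := 67108864) (N0 := 3)
    rfl k0_mm_213

end Pool.Agent.Strip051.G.I5_16_3_8.Tab.C.NA03

namespace Pool.Agent.Strip051.G.I5_16_3_8.Tab.C.NA04

open Pool.Agent.Strip051.PB Pool.Agent.Strip051.PB.T
open Pool.Agent.Strip051.G.I5_16_3_8.Tab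

noncomputable def f_pp_001 : ℕ → ℕ → ℕ → ℕ → Bool := onCell 0 536870912 0 536870912 335544320 67108864
    (rowN 3 0 true true true .up 0 0 1 (qsf 0 536870912 0 536870912 1) ndN0q0 ndN4q0 pcN1 Cut.none Ext.none)

def k0_pp_001 : ∃ t, chk3 f_pp_001 t 1 1 1 = true :=
  ⟨(l 4), by decide +kernel⟩

theorem c_pp_001 : CertN 0 536870912 0 536870912 335544320 67108864 3 true true true .up 0 0 1
    ndN0q0 ndN4q0 pcN1 Cut.none Ext.none :=
  certN0 (fam := true) (s1 := true) (s2 := true) (a := 0) (b := 0) (c := 1) (cn := .up) (n1 := ndN0q0) (n2 := ndN4q0) (pc := pcN1) (cut := Cut.none) (xt := Ext.none) (P1 := 0) (W1 := 536870912) (P2 := 0) (W2 := 536870912) (P3 := 335544320) (W3 := 67108864) (N0 := 3)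
    rfl k0_pp_001

noncomputable def f_pp_011 : ℕ → ℕ → ℕ → ℕ → Bool := onCell 0 536870912 536870912 536870912 335544320 67108864
    (rowN 3 0 true true true .pnn 0 1 1 (qsf 0 536870912 536870912 536870912 1) ndN0q0 ndN4q1 pcN1 Cut.none Ext.none)

def k0_pp_011 : ∃ t, chk3 f_pp_011 t 1 1 1 = true :=
  ⟨(l 4), by decide +kernel⟩

theorem c_pp_011 : CertN 0 536870912 536870912 536870912 335544320 67108864 3 true true true .pnn 0 1 1
    ndN0q0 ndN4q1 pcN1 Cut.none Ext.none :=
  certN0 (fam := true) (s1 := true) (s2 := true) (a := 0) (b := 1) (c := 1) (cn := .pnn) (n1 := ndN0q0) (n2 := ndN4q1) (pc := pcN1) (cut := Cut.none) (xt := Ext.none) (P1 := 0) (W1 := 536870912) (P2 := 536870912) (W2 := 536870912) (P3 := 335544320) (W3 := 67108864) (N0 := 3)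
    rfl k0_pp_011

noncomputable def f_pp_012 : ℕ → ℕ → ℕ → ℕ → Bool := onCell 0 536870912 536870912 536870912 335544320 67108864
    (rowN 3 0 true true true .pnp 0 1 2 (qsf 0 536870912 536870912 536870912 2) ndN0q0 ndN4q1 pcN2 Cut.none Ext.none)

def k0_pp_012 : ∃ t, chk3 f_pp_012 t 1 1 1 = true :=
  ⟨(l 4), by decide +kernel⟩

theorem c_pp_012 : CertN 0 536870912 536870912 536870912 335544320 67108864 3 true true true .pnp 0 1 2
    ndN0q0 ndN4q1 pcN2 Cut.none Ext.none :=
  certN0 (fam := true) (s1 := true) (s2 := true) (a := 0) (b := 1) (c := 2) (cn := .pnp) (n1 := ndN0q0) (n2 := ndN4q1) (pc := pcN2) (cut := Cut.none) (xt := Ext.none) (P1 := 0) (W1 := 536870912) (P2 := 536870912) (W2 := 536870912) (P3 := 335544320) (W3 := 67108864) (N0 := 3)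
    rfl k0_pp_012

noncomputable def f_pp_022 : ℕ → ℕ → ℕ → ℕ → Bool := onCell 0 536870912 1073741824 536870912 335544320 67108864
    (rowN 3 0 true true true .pp 0 2 2 (qsf 0 536870912 1073741824 536870912 2) ndN0q0 ndN4q2 pcN2 Cut.none Ext.none)

def k0_pp_022 : ∃ t, chk3 f_pp_022 t 1 1 1 = true :=
  ⟨(l 4), by decide +kernel⟩

theorem c_pp_022 : CertN 0 536870912 1073741824 536870912 335544320 67108864 3 true true true .pp 0 2 2
    ndN0q0 ndN4q2 pcN2 Cut.none Ext.none :=
  certN0 (fam := true) (s1 := true) (s2 := true) (a := 0) (b := 2) (c := 2) (cn := .pp) (n1 := ndN0q0) (n2 := ndN4q2) (pc := pcN2) (cut := Cut.none) (xt := Ext.none) (P1 := 0) (W1 := 536870912) (P2 := 1073741824) (W2 := 536870912) (P3 := 335544320) (W3 := 67108864) (N0 := 3)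
    rfl k0_pp_022

noncomputable def f_pp_023 : ℕ → ℕ → ℕ → ℕ → Bool := onCell 0 536870912 1073741824 536870912 335544320 67108864
    (rowN 3 0 true true true .up 0 2 3 (qsf 0 536870912 1073741824 536870912 3) ndN0q0 ndN4q2 pcN3 Cut.none Ext.none)

def k0_pp_023 : ∃ t, chk3 f_pp_023 t 1 1 1 = true :=
  ⟨(l 4), by decide +kernel⟩

theorem c_pp_023 : CertN 0 536870912 1073741824 536870912 335544320 67108864 3 true true true .up 0 2 3
    ndN0q0 ndN4q2 pcN3 Cut.none Ext.none :=
  certN0 (fam := true) (s1 := true) (s2 := true) (a := 0) (b := 2) (c := 3) (cn := .up) (n1 := ndN0q0) (n2 := ndN4q2) (pc := pcN3) (cut := Cut.none) (xt := Ext.none) (P1 := 0) (W1 := 536870912) (P2 := 1073741824) (W2 := 536870912) (P3 := 335544320) (W3 := 67108864) (N0 := 3)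
    rfl k0_pp_023

noncomputable def f_pp_033 : ℕ → ℕ → ℕ → ℕ → Bool := onCell 0 536870912 0 1230186008 335544320 67108864
    (rowN 3 0 true true true .pnn 0 3 3 (qsf 0 536870912 0 1230186008 3) ndN0q0 ndN4q3 pcN3 Cut.none Ext.none)

def k0_pp_033 : ∃ t, chk3 f_pp_033 t 1 1 1 = true :=
  ⟨(l 4), by decide +kernel⟩

theorem c_pp_033 : CertN 0 536870912 0 1230186008 335544320 67108864 3 true true true .pnn 0 3 3
    ndN0q0 ndN4q3 pcN3 Cut.none Ext.none :=
  certN0 (fam := true) (s1 := true) (s2 := true) (a := 0) (b := 3) (c := 3) (cn := .pnn) (n1 := ndN0q0) (n2 := ndN4q3) (pc := pcN3) (cut := Cut.none) (xt := Ext.none) (P1 := 0) (W1 := 536870912) (P2 := 0) (W2 := 1230186008) (P3 := 335544320) (W3 := 67108864) (N0 := 3)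
    rfl k0_pp_033

noncomputable def f_pp_101 : ℕ → ℕ → ℕ → ℕ → Bool := onCell 536870912 536870912 0 536870912 335544320 67108864
    (rowN 3 0 true true true .npn 1 0 1 (qsf 536870912 536870912 0 536870912 1) ndN0q1 ndN4q0 pcN1 Cut.none Ext.none)

def k0_pp_101 : ∃ t, chk3 f_pp_101 t 1 1 1 = true :=
  ⟨(l 4), by decide +kernel⟩

theorem c_pp_101 : CertN 536870912 536870912 0 536870912 335544320 67108864 3 true true true .npn 1 0 1
    ndN0q1 ndN4q0 pcN1 Cut.none Ext.none :=
  certN0 (fam := true) (s1 := true) (s2 := true) (a := 1) (b := 0) (c := 1) (cn := .npn) (n1 := ndN0q1) (n2 := ndN4q0) (pc := pcN1) (cut := Cut.none) (xt := Ext.none) (P1 := 536870912) (W1 := 536870912) (P2 := 0) (W2 := 536870912) (P3 := 335544320) (W3 := 67108864) (N0 := 3)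
    rfl k0_pp_101

noncomputable def f_pp_102 : ℕ → ℕ → ℕ → ℕ → Bool := onCell 536870912 536870912 0 536870912 335544320 67108864
    (rowN 3 0 true true true .npp 1 0 2 (qsf 536870912 536870912 0 536870912 2) ndN0q1 ndN4q0 pcN2 Cut.none Ext.none)

def k0_pp_102 : ∃ t, chk3 f_pp_102 t 1 1 1 = true :=
  ⟨(l 4), by decide +kernel⟩

theorem c_pp_102 : CertN 536870912 536870912 0 536870912 335544320 67108864 3 true true true .npp 1 0 2
    ndN0q1 ndN4q0 pcN2 Cut.none Ext.none :=
  certN0 (fam := true) (s1 := true) (s2 := true) (a := 1) (b := 0) (c := 2) (cn := .npp) (n1 := ndN0q1) (n2 := ndN4q0) (pc := pcN2) (cut := Cut.none) (xt := Ext.none) (P1 := 536870912) (W1 := 536870912) (P2 := 0) (W2 := 536870912) (P3 := 335544320) (W3 := 67108864) (N0 := 3)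
    rfl k0_pp_102

noncomputable def f_pp_112 : ℕ → ℕ → ℕ → ℕ → Bool := onCell 536870912 536870912 536870912 536870912 335544320 67108864
    (rowN 3 0 true true true .dn 1 1 2 (qsf 536870912 536870912 536870912 536870912 2) ndN0q1 ndN4q1 pcN2 Cut.none Ext.none)

def k0_pp_112 : ∃ t, chk3 f_pp_112 t 1 1 1 = true :=
  ⟨(l 4), by decide +kernel⟩

theorem c_pp_112 : CertN 536870912 536870912 536870912 536870912 335544320 67108864 3 true true true .dn 1 1 2
    ndN0q1 ndN4q1 pcN2 Cut.none Ext.none :=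
  certN0 (fam := true) (s1 := true) (s2 := true) (a := 1) (b := 1) (c := 2) (cn := .dn) (n1 := ndN0q1) (n2 := ndN4q1) (pc := pcN2) (cut := Cut.none) (xt := Ext.none) (P1 := 536870912) (W1 := 536870912) (P2 := 536870912) (W2 := 536870912) (P3 := 335544320) (W3 := 67108864) (N0 := 3)
    rfl k0_pp_112

noncomputable def f_pp_113 : ℕ → ℕ → ℕ → ℕ → Bool := onCell 536870912 536870912 536870912 536870912 335544320 67108864
    (rowN 3 0 true true true .nn 1 1 3 (qsf 536870912 536870912 536870912 536870912 3) ndN0q1 ndN4q1 pcN3 Cut.none Ext.none)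

def k0_pp_113 : ∃ t, chk3 f_pp_113 t 1 1 1 = true :=
  ⟨(l 4), by decide +kernel⟩

theorem c_pp_113 : CertN 536870912 536870912 536870912 536870912 335544320 67108864 3 true true true .nn 1 1 3
    ndN0q1 ndN4q1 pcN3 Cut.none Ext.none :=
  certN0 (fam := true) (s1 := true) (s2 := true) (a := 1) (b := 1) (c := 3) (cn := .nn) (n1 := ndN0q1) (n2 := ndN4q1) (pc := pcN3) (cut := Cut.none) (xt := Ext.none) (P1 := 536870912) (W1 := 536870912) (P2 := 536870912) (W2 := 536870912) (P3 := 335544320) (W3 := 67108864) (N0 := 3)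
    rfl k0_pp_113

noncomputable def f_pp_123 : ℕ → ℕ → ℕ → ℕ → Bool := onCell 536870912 536870912 1073741824 536870912 335544320 67108864
    (rowN 3 0 true true true .npn 1 2 3 (qsf 536870912 536870912 1073741824 536870912 3) ndN0q1 ndN4q2 pcN3 Cut.none Ext.none)

def k0_pp_123 : ∃ t, chk3 f_pp_123 t 1 1 1 = true :=
  ⟨(l 4), by decide +kernel⟩

theorem c_pp_123 : CertN 536870912 536870912 1073741824 536870912 335544320 67108864 3 true true true .npn 1 2 3
    ndN0q1 ndN4q2 pcN3 Cut.none Ext.none :=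
  certN0 (fam := true) (s1 := true) (s2 := true) (a := 1) (b := 2) (c := 3) (cn := .npn) (n1 := ndN0q1) (n2 := ndN4q2) (pc := pcN3) (cut := Cut.none) (xt := Ext.none) (P1 := 536870912) (W1 := 536870912) (P2 := 1073741824) (W2 := 536870912) (P3 := 335544320) (W3 := 67108864) (N0 := 3)
    rfl k0_pp_123

noncomputable def f_pp_133 : ℕ → ℕ → ℕ → ℕ → Bool := onCell 536870912 536870912 0 1230186008 335544320 67108864
    (rowN 3 0 true true true .dn 1 3 3 (qsf 536870912 536870912 0 1230186008 3) ndN0q1 ndN4q3 pcN3 Cut.none Ext.none)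

def k0_pp_133 : ∃ t, chk3 f_pp_133 t 1 1 1 = true :=
  ⟨(l 4), by decide +kernel⟩

theorem c_pp_133 : CertN 536870912 536870912 0 1230186008 335544320 67108864 3 true true true .dn 1 3 3
    ndN0q1 ndN4q3 pcN3 Cut.none Ext.none :=
  certN0 (fam := true) (s1 := true) (s2 := true) (a := 1) (b := 3) (c := 3) (cn := .dn) (n1 := ndN0q1) (n2 := ndN4q3) (pc := pcN3) (cut := Cut.none) (xt := Ext.none) (P1 := 536870912) (W1 := 536870912) (P2 := 0) (W2 := 1230186008) (P3 := 335544320) (W3 := 67108864) (N0 := 3)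
    rfl k0_pp_133

noncomputable def f_pp_202 : ℕ → ℕ → ℕ → ℕ → Bool := onCell 0 536870912 0 536870912 335544320 67108864
    (rowN 3 0 true true true .pp 2 0 2 (qsf 0 536870912 0 536870912 2) ndN0q2 ndN4q0 pcN2 Cut.none Ext.none)

def k0_pp_202 : ∃ t, chk3 f_pp_202 t 1 1 1 = true :=
  ⟨(l 4), by decide +kernel⟩

theorem c_pp_202 : CertN 0 536870912 0 536870912 335544320 67108864 3 true true true .pp 2 0 2
    ndN0q2 ndN4q0 pcN2 Cut.none Ext.none :=
  certN0 (fam := true) (s1 := true) (s2 := true) (a := 2) (b := 0) (c := 2) (cn := .pp) (n1 := ndN0q2) (n2 := ndN4q0) (pc := pcN2) (cut := Cut.none) (xt := Ext.none) (P1 := 0) (W1 := 536870912) (P2 := 0) (W2 := 536870912) (P3 := 335544320) (W3 := 67108864) (N0 := 3)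
    rfl k0_pp_202

noncomputable def f_pp_203 : ℕ → ℕ → ℕ → ℕ → Bool := onCell 0 536870912 0 536870912 335544320 67108864
    (rowN 3 0 true true true .up 2 0 3 (qsf 0 536870912 0 536870912 3) ndN0q2 ndN4q0 pcN3 Cut.none Ext.none)

def k0_pp_203 : ∃ t, chk3 f_pp_203 t 1 1 1 = true :=
  ⟨(l 4), by decide +kernel⟩

theorem c_pp_203 : CertN 0 536870912 0 536870912 335544320 67108864 3 true true true .up 2 0 3
    ndN0q2 ndN4q0 pcN3 Cut.none Ext.none :=
  certN0 (fam := true) (s1 := true) (s2 := true) (a := 2) (b := 0) (c := 3) (cn := .up) (n1 := ndN0q2) (n2 := ndN4q0) (pc := pcN3) (cut := Cut.none) (xt := Ext.none) (P1 := 0) (W1 := 536870912) (P2 := 0) (W2 := 536870912) (P3 := 335544320) (W3 := 67108864) (N0 := 3)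
    rfl k0_pp_203

noncomputable def f_pp_213 : ℕ → ℕ → ℕ → ℕ → Bool := onCell 0 536870912 536870912 536870912 335544320 67108864
    (rowN 3 0 true true true .pnn 2 1 3 (qsf 0 536870912 536870912 536870912 3) ndN0q2 ndN4q1 pcN3 Cut.none Ext.none)

def k0_pp_213 : ∃ t, chk3 f_pp_213 t 1 1 1 = true :=
  ⟨(l 4), by decide +kernel⟩

theorem c_pp_213 : CertN 0 536870912 536870912 536870912 335544320 67108864 3 true true true .pnn 2 1 3
    ndN0q2 ndN4q1 pcN3 Cut.none Ext.none :=
  certN0 (fam := true) (s1 := true) (s2 := true) (a := 2) (b := 1) (c := 3) (cn := .pnn) (n1 := ndN0q2) (n2 := ndN4q1) (pc := pcN3) (cut := Cut.none) (xt := Ext.none) (P1 := 0) (W1 := 536870912) (P2 := 536870912) (W2 := 536870912) (P3 := 335544320) (W3 := 67108864) (N0 := 3)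
    rfl k0_pp_213

noncomputable def f_pm_001 : ℕ → ℕ → ℕ → ℕ → Bool := onCell 0 536870912 536870912 536870912 335544320 67108864
    (rowN 3 1 true true false .up 0 0 1 (qsf 0 536870912 0 536870912 1) ndN0q0 ndN4q0 pcN1 Cut.none Ext.none)

def k0_pm_001 : ∃ t, chk3 f_pm_001 t 2 1 1 = true :=
  ⟨(b (l 3) (b (b (l 3) (l 2)) (l 2))), by decide +kernel⟩

def k1_pm_001 : ∃ t, chk3 f_pm_001 t 3 4 1 = true :=
  ⟨(l 3), by decide +kernel⟩

def k2_pm_001 : ∃ t, chk3 f_pm_001 t 6 5 1 = true :=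
  ⟨(l 3), by decide +kernel⟩

def k3_pm_001 : ∃ t, chk3 f_pm_001 t 7 10 1 = true :=
  ⟨(a (l 3) (b (a (l 3) (b (l 3) (a (l 3) (b (l 3) (a (l 3) (l 452213163079)))))) (a (b (l 3) (a (l 3) (b (a (l 3) (l 458655636807)) (a (l 455971260023) (b (l 447918196487) (l 429664569511)))))) (b (a (b (l 3) (a (l 3) (l 447381322439))) (b (a (l 448991936567) (l 371682541639)) (a (l 370071923911) (l 16793352)))) (a (b (a (l 437717644215) (l 436643855287)) (a (l 16801648) (l 16789792))) (l 16803376)))))), by decide +kernel⟩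

def k4_pm_001 : ∃ t, chk3 f_pm_001 t 7 11 1 = true :=
  ⟨(a (b (a (l 3) (b (l 3) (a (l 3) (b (a (l 3) (b (l 455971271751) (l 445233835095))) (a (b (a (l 3) (l 445770709367)) (a (l 443086351207) (l 420000888647))) (b (l 420537756439) (l 16799872))))))) (a (b (a (l 3) (b (l 3) (a (l 3) (b (l 3) (a (l 3) (l 426980221223)))))) (a (b (l 3) (a (l 3) (b (l 429664576247) (l 399062916743)))) (b (a (b (l 3) (a (l 3) (l 421074629863))) (b (a (l 423758990071) (l 390472982951)) (l 368998154279))) (a (b (l 391009848199) (l 16796120)) (l 16791800))))) (a (b (b (a (b (l 3) (a (l 3) (l 446844454215))) (b (a (l 3) (l 440401993095)) (a (l 425369604055) (l 403357892983)))) (a (a (c (l 416779675991) (b (l 437717639351) (l 423222108471))) (b (l 420537762407) (l 16802736))) (b (l 16801384) (l 16794856)))) (b (a (l 16795424) (l 16787856)) (l 16788152))) (b (b (a (b (l 413558428551) (l 16797288)) (l 16790584)) (l 16786328)) (l 16793448))))) (b (a (b (a (b (a (l 3) (b (l 3) (l 452213171079)))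 (a (b (l 3) (l 449528809399)) (b (l 443086347303) (l 403894766327)))) (b (a (b (l 445770708327) (l 427517080023)) (l 16799184)) (a (l 16796816) (l 16786840)))) (a (b (a (b (l 432885793623) (l 16802552)) (l 16794568)) (l 16830024)) (l 16788424))) (b (l 16850592) (l 16806952))) (a (b (l 16795128) (l 16814024)) (l 16837136)))), by decide +kernel⟩

def k5_pm_001 : ∃ t, chk3 f_pm_001 t 3 6 1 = true :=
  ⟨(a (b (a (b (l 3) (a (l 3) (b (l 3) (a (l 3) (b (l 3) (a (l 444696927575) (b (l 433422624327) (l 250349659031)))))))) (b (a (l 3) (b (a (l 3) (b (l 3) (a (b (l 3) (l 428590816407)) (b (l 419464005127) (l 386714863399))))) (a (b (a (l 3) (b (l 3) (l 423758966039))) (a (l 417316512087) (b (l 388862340039) (l 16784336)))) (b (a (b (l 397452286071) (l 16789192)) (l 16806360)) (l 16810248))))) (a (b (a (b (l 3) (a (l 3) (l 401747256471))) (b (a (l 410874074535) (b (l 429127668855) (l 277730094919))) (a (b (l 393157305415) (l 16802728)) (l 16782104)))) (a (b (a (l 439328208071)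 (l 229411706343)) (l 16798488)) (l 16806984))) (b (a (b (a (l 16808760) (l 16785608)) (l 16786920)) (l 16793832)) (l 16801352))))) (a (b (a (l 2) (b (a (l 2) (b (l 124654778983) (l 2))) (l 2))) (l 2)) (a (b (b (a (l 16786472) (l 16795608)) (l 69357054055)) (b (l 16795504) (l 2))) (b (b (l 16812240) (l 16819784)) (a (l 16814640) (l 16830624)))))) (b (a (b (a (b (a (b (a (b (l 424832726071) (l 395304809063)) (l 381883035543)) (a (l 284709433703) (l 16785608))) (b (l 16807688) (l 16792816))) (a (l 16791224) (l 16801376))) (l 16832856)) (a (l 16818400) (l 16845952))) (b (a (l 16842664) (l 16876128)) (a (l 16878104) (l 16912440)))) (a (b (a (l 16843512) (l 16873976)) (a (l 16855848) (l 16891376))) (b (a (l 16908152) (l 16944280)) (l 16948680))))), by decide +kernel⟩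

def k6_pm_001 : ∃ t, chk3 f_pm_001 t 3 7 1 = true :=
  ⟨(a (b (a (l 2) (b (a (l 2) (l 83315789111)) (l 2))) (l 2)) (a (b (a (b (l 16848576) (l 16812632)) (b (l 16892688) (l 16870984))) (b (a (l 2) (l 16815472)) (l 2))) (b (a (b (l 16936784) (l 16925392)) (b (l 16981552) (l 16978800))) (b (a (l 16886472) (l 16953352)) (a (l 16807504) (l 16895192)))))), by decide +kernel⟩

theorem s7_pm_001 : ∃ t, chk3 f_pm_001 t 3 3 1 = true := ex3_b k5_pm_001 k6_pm_001

theorem s8_pm_001 : ∃ t, chk3 f_pm_001 t 7 5 1 = true := ex3_b k3_pm_001 k4_pm_001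

theorem s9_pm_001 : ∃ t, chk3 f_pm_001 t 3 5 1 = true := ex3_a k2_pm_001 s8_pm_001

theorem s10_pm_001 : ∃ t, chk3 f_pm_001 t 3 2 1 = true := ex3_b k1_pm_001 s9_pm_001

theorem s11_pm_001 : ∃ t, chk3 f_pm_001 t 3 1 1 = true := ex3_b s10_pm_001 s7_pm_001

theorem s12_pm_001 : ∃ t, chk3 f_pm_001 t 1 1 1 = true := ex3_a k0_pm_001 s11_pm_001

theorem c_pm_001 : CertN 0 536870912 0 536870912 335544320 67108864 3 true true false .up 0 0 1
    ndN0q0 ndN4q0 pcN1 Cut.none Ext.none :=
  certN1 (fam := true) (s1 := true) (s2 := false) (a := 0) (b := 0) (c := 1) (cn := .up) (n1 := ndN0q0) (n2 := ndN4q0) (pc := pcN1) (cut := Cut.none) (xt := Ext.none) (P1 := 0) (W1 := 536870912) (P2 := 0) (W2 := 536870912) (P3 := 335544320) (W3 := 67108864) (N0 := 3)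
    rfl (fun _ => rfl) s12_pm_001

noncomputable def cut_pm_011 : Cut := Cut.of [[⟨0, 0, 0, 67108864⟩, ⟨1, 1, 0, 67108864⟩, ⟨2, 1, 0, 67108864⟩]]

noncomputable def f_pm_011 : ℕ → ℕ → ℕ → ℕ → Bool := onCell 0 536870912 536870912 536870912 335544320 67108864
    (rowN 3 1 true true false .pnn 0 1 1 (qsf 0 536870912 536870912 536870912 1) ndN0q0 ndN4q1 pcN1 cut_pm_011 Ext.none)

def k0_pm_011 : ∃ t, chk3 f_pm_011 t 1 2 1 = true :=
  ⟨(a (l 3) (b (l 1) (a (l 3) (l 1)))), by decide +kernel⟩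

def k1_pm_011 : ∃ t, chk3 f_pm_011 t 2 6 1 = true :=
  ⟨(a (l 3) (b (l 3) (a (l 3) (b (l 3) (a (b (l 3) (a (l 3) (b (l 3) (a (l 3) (b (l 3) (a (l 3) (b (l 400136611527) (l 191830711495)))))))) (b (a (l 3) (b (a (l 3) (l 447918142311)) (a (b (l 3) (a (l 435570097767) (l 278266914167))) (b (a (l 361481906263) (l 151565395543)) (l 16790840))))) (a (b (a (l 3) (b (l 405505327063) (a (b (l 396378515063) (l 195588808503)) (l 16791672)))) (a (b (a (l 377051163607) (l 158007846167)) (l 58149854055)) (l 16784752))) (b (a (b (a (l 157470975255) (l 16780056)) (l 16775968)) (l 16770912)) (l 16782080))))))))), by decide +kernel⟩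

def k2_pm_011 : ∃ t, chk3 f_pm_011 t 4 14 1 = true :=
  ⟨(a (l 3) (b (l 3) (a (l 3) (b (l 3) (a (l 3) (b (l 3) (a (b (l 3) (a (l 3) (b (l 3) (a (l 418390220519) (b (l 373829942327) (l 124184963287)))))) (b (a (l 3) (b (l 428053900119) (a (b (l 3) (a (l 377588027271) (l 16782360))) (b (l 175187701847) (l 16777376))))) (a (b (a (b (l 3) (l 345375783271)) (b (a (l 417316475511) (l 194515053079)) (l 16783176))) (c (l 28621939015) (l 16781144))) (c (l 16781488) (l 16781008))))))))))), by decide +kernel⟩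

def k3_pm_011 : ∃ t, chk3 f_pm_011 t 8 30 1 = true :=
  ⟨(a (l 3) (b (l 3) (a (l 3) (b (l 3) (a (l 3) (b (l 3) (a (l 3) (b (l 3) (a (a (l 3) (b (l 3) (b (l 3) (a (l 248739010503) (l 126869312135))))) (a (a (b (l 3) (b (l 230485399303) (l 16779608))) (b (l 3) (c (l 16779624) (l 16779520)))) (b (b (l 429664504695) (c (l 142975439159) (l 141364826231))) (l 16778656)))))))))))), by decide +kernel⟩

def k4_pm_011 : ∃ t, chk3 f_pm_011 t 16 31 1 = true :=
  ⟨(b (b (l 3) (l 6)) (l 6)), by decide +kernel⟩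

def k5_pm_011 : ∃ t, chk3 f_pm_011 t 34 62 1 = true :=
  ⟨(b (a (l 3) (b (l 3) (a (l 3) (b (l 3) (a (l 3) (b (l 3) (a (b (l 3) (c (a (l 376514286055) (l 162839662007)) (a (l 411947763511) (l 155323469143)))) (b (c (a (l 360945029463) (l 143512309031)) (a (l 396378506919) (l 140827954375))) (c (l 16778056) (l 16779312)))))))))) (a (b (b (l 3) (l 6)) (l 6)) (b (a (b (a (l 3) (b (l 3) (a (b (l 3) (c (a (l 3) (l 345375769863)) (l 377588025095))) (b (c (a (l 3) (l 331953996919)) (l 366850606727)) (c (c (l 62444800343) (l 60297316647)) (l 58149833431)))))) (a (b (b (b (l 3) (l 6)) (l 6)) (l 6)) (a (a (b (b (c (l 111836924615) (l 108078828311)) (l 16778816)) (l 6)) (c (l 16777336) (l 16777624))) (c (l 16776760) (l 16776720))))) (a (a (b (b (b (l 3) (c (a (l 3) (l 190756949719)) (l 356113188343))) (b (c (l 52781124103) (l 16778856)) (l 16778392))) (c (l 16775560) (l 16775528))) (b (b (b (c (a (l 391009800823) (l 172503338567)) (l 345375769959)) (c (l 16778520) (l 16778136)))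 (l 16777760)) (l 16775072))) (b (b (c (c (l 16778272) (l 16778248)) (l 16778208)) (l 16775944)) (l 16774048)))) (a (a (l 6) (a (l 6) (b (l 16772512) (l 6)))) (b (c (l 16771088) (l 16770984)) (l 16766904)))))), by decide +kernel⟩

def k6_pm_011 : ∃ t, chk3 f_pm_011 t 35 124 1 = true :=
  ⟨(a (b (a (l 3) (b (l 3) (c (a (b (l 3) (a (l 3) (l 408189669015))) (b (a (l 3) (l 391009799479)) (a (b (a (l 3) (l 350744482087)) (l 100562636327)) (c (l 46875544631) (l 16778696))))) (a (b (l 3) (l 423758926551)) (b (a (l 3) (l 401747217559)) (a (b (l 395841636551) (l 96267668871)) (l 16778960))))))) (a (b (a (l 3) (b (l 3) (a (b (l 3) (c (a (l 314774130567) (l 16778680)) (l 152102244487))) (b (a (a (l 256792073463) (l 180556403271)) (l 86067122119)) (l 16779056))))) (a (b (b (a (l 3) (c (a (l 330343387175) (l 113984408567)) (c (l 163913404247) (l 162839662359)))) (a (c (a (l 346449514679) (l 129016794295)) (c (l 175187693543) (l 174113951671))) (l 16779200))) (c (l 16778128) (l 16778064)))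 (c (b (l 16777992) (l 16775712)) (l 16777112)))) (b (b (a (a (a (b (l 3) (a (l 235317236823) (l 161765921191))) (b (l 419463956471) (l 69960994615))) (b (c (c (l 116668763367) (l 115595021623)) (l 109152570903)) (l 16778904))) (l 16777656)) (c (l 16776968) (l 16776560))) (c (l 16774536) (l 16774456))))) (b (a (b (a (a (l 3) (a (l 3) (b (l 3) (b (l 3) (l 202568111415))))) (a (b (l 3) (b (a (l 427517020343) (l 184851371143)) (l 52244254839))) (b (b (l 3) (a (l 409263409143) (l 167134630871))) (l 11978936455)))) (a (b (a (a (b (l 3) (l 118816248311)) (b (l 222969206247) (l 16779504))) (c (l 16779208) (l 16779128))) (l 16777504)) (c (l 16776256) (l 16776160)))) (b (a (a (a (b (b (l 390472927031) (l 16779784)) (l 16778088)) (b (b (l 145122923319) (l 16776552)) (l 16780104))) (c (l 16777096) (l 16777656))) (c (l 16775936) (l 16775824))) (c (l 16775240) (l 16775128)))) (a (b (c (l 16774240) (l 16775456)) (l 16771192)) (c (l 16770016) (l 16768616))))), by decide +kernel⟩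

def k7_pm_011 : ∃ t, chk3 f_pm_011 t 35 125 1 = true :=
  ⟨(a (a (b (b (c (c (l 16774840) (l 16774832)) (l 16774808)) (c (l 16770728) (l 16769320))) (c (l 16765888) (l 16765696))) (b (b (l 16771608) (l 16767464)) (l 16762584))) (a (b (c (l 16765056) (l 16764888)) (l 16756712)) (b (l 16762992) (l 16752112)))), by decide +kernel⟩

def k8_pm_011 : ∃ t, chk3 f_pm_011 t 17 63 1 = true :=
  ⟨(b (a (a (l 6) (a (l 6) (a (l 6) (b (l 16760928) (l 6))))) (a (a (b (l 16757560) (l 16749360)) (b (l 16753040) (l 16744840))) (b (l 16748152) (l 16738000)))) (a (l 6) (b (a (c (l 16744520) (l 16743840)) (l 16735088)) (a (l 6) (l 16726968))))), by decide +kernel⟩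

def k9_pm_011 : ∃ t, chk3 f_pm_011 t 18 60 1 = true :=
  ⟨(a (l 3) (b (l 3) (a (l 3) (b (l 3) (a (b (l 3) (a (l 3) (b (l 412484637879) (a (b (l 400673486167) (l 152102247111)) (l 16780792))))) (a (a (b (l 3) (b (b (l 358260683559) (l 16780472)) (l 16781576))) (b (b (l 3) (l 356650069047)) (l 16781456))) (b (b (a (l 3) (b (l 3) (l 203104984919))) (c (l 93046446887) (l 88751479463))) (l 16779624)))))))), by decide +kernel⟩

def k10_pm_011 : ∃ t, chk3 f_pm_011 t 36 61 1 = true :=
  ⟨(b (a (l 3) (b (l 3) (a (a (l 3) (b (l 3) (c (l 414632123655) (l 424832670695)))) (b (a (l 3) (b (l 3) (b (l 3) (a (l 3) (c (l 200957499111) (l 200957498839)))))) (b (b (a (l 3) (a (l 312626650055) (l 16779872))) (a (a (l 3) (l 330880261303)) (l 16779392))) (b (a (a (l 348597001639) (l 139754215015)) (l 16780904)) (c (l 16779784) (l 16779616)))))))) (a (b (a (l 3) (b (l 3) (a (b (l 3) (a (b (l 3) (c (l 323364068439) (l 334101481223))) (c (b (l 307257938247) (l 16779848)) (l 125258700311))))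 (b (a (b (l 3) (l 196662532823)) (b (l 181093276167) (l 16779592))) (l 16779840))))) (a (b (a (b (l 3) (a (b (l 3) (l 414632118951)) (b (l 399599733207) (c (l 111300054935) (l 16778776))))) (b (a (b (l 3) (c (l 355576323575) (l 366850607271))) (b (c (l 339470196007) (l 350744479703)) (l 83919639463))) (c (c (l 16779008) (l 16778944)) (l 16778856)))) (a (b (a (c (c (l 72645349271) (l 70497865511)) (l 67813511287)) (l 16778480)) (l 16776832)) (l 16776184))) (a (b (c (c (l 16779008) (l 16778944)) (l 16778848)) (l 16775704)) (b (l 16777776) (l 16773264))))) (b (a (b (a (b (a (l 3) (l 427517022311)) (a (b (l 3) (l 165524019511)) (c (l 86067123047) (l 16779888)))) (b (a (b (l 383493611399) (l 133311764359)) (c (l 16779832) (l 16779680))) (l 16780752))) (c (c (l 16777424) (l 16778656)) (l 16777224))) (b (c (l 16775680) (l 16778128)) (l 16773720))) (a (c (l 16771944) (l 16771768)) (l 16768272))))), by decide +kernel⟩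

def k11_pm_011 : ∃ t, chk3 f_pm_011 t 37 61 1 = true :=
  ⟨(b (a (b (a (b (l 3) (a (l 3) (b (l 3) (b (l 410337153031) (a (l 398525997223) (l 127943055543)))))) (b (a (l 3) (b (l 3) (b (a (l 3) (l 295446780807)) (c (l 138143603159) (l 136532990247))))) (a (b (b (l 384567348727) (a (l 360408161943) (l 16780272))) (c (l 16779384) (l 16779192))) (l 16780248)))) (a (b (a (b (b (l 3) (a (l 3) (c (l 164987147495) (l 16780352)))) (c (b (l 108615702119) (l 16781880)) (l 67276641687))) (b (c (l 54391739543) (l 16779424)) (l 16779912))) (c (l 16777888) (l 16777696))) (b (l 16776040) (l 16772888)))) (a (b (b (a (b (c (a (l 314774134647) (l 102173251255)) (a (l 326585289127) (l 16780248))) (l 16781448)) (l 16780112)) (l 16776904)) (l 16772832)) (b (b (l 16776432) (l 16777232)) (l 16770536)))) (a (b (a (c (l 16771176) (l 16770960)) (l 16768776)) (l 16764192)) (b (l 16762720) (l 16755024)))), by decide +kernel⟩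

def k12_pm_011 : ∃ t, chk3 f_pm_011 t 19 30 1 = true :=
  ⟨(b (a (b (a (l 3) (b (a (l 3) (b (l 3) (a (l 3) (b (l 3) (a (l 416242733639) (l 279877530055)))))) (a (b (c (l 406579062407) (l 417853351063)) (a (b (l 392620424743) (c (l 142438572471) (l 140291088663))) (a (c (l 86603997191) (l 83382771479)) (l 16781808)))) (b (a (b (a (l 3) (l 315847881751)) (l 94120190951)) (c (l 16782032) (l 16781704))) (l 16778776))))) (a (b (a (b (l 3) (a (b (l 3) (a (l 3) (c (l 294373034423) (l 204715597607)))) (a (b (l 392083552567) (l 16780320)) (b (a (l 307257941367) (l 145659797159)) (l 16781784))))) (b (a (b (l 3) (a (l 360408168135) (l 144049185463))) (b (a (l 322290330167) (l 113447542759)) (l 16781872))) (c (l 16779992) (l 16779696)))) (a (b (a (c (l 33990646151) (l 16780136)) (l 16779128)) (l 16781192)) (l 16775856))) (b (a (b (l 16780624) (l 16780176)) (l 16777456)) (c (l 16771320) (l 16770888))))) (b (a (b (b (b (a (l 3) (a (a (l 301352366935) (l 16783400)) (l 16776528)))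 (a (a (l 3) (c (l 258402683335) (l 175724570023))) (l 16780872))) (a (a (b (a (l 380809263239) (l 161765926295)) (l 16782608)) (l 16781296)) (l 16782896))) (c (a (l 16778880) (l 16776616)) (l 16775992))) (b (a (l 16780152) (l 16775240)) (l 16768992))) (a (b (l 16770072) (l 16761256)) (c (l 16761400) (l 16765976))))) (a (b (a (b (c (l 16772256) (l 16771904)) (l 16763160)) (b (l 16762232) (l 16763800))) (a (l 16753944) (l 16742456))) (b (b (l 16750744) (l 16741168)) (l 16734240)))), by decide +kernel⟩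

def k13_pm_011 : ∃ t, chk3 f_pm_011 t 9 31 1 = true :=
  ⟨(b (a (a (b (a (b (a (b (l 16774184) (l 16770312)) (c (l 16767776) (l 16767632))) (c (l 16765032) (l 16764224))) (b (c (l 16763232) (l 16763112)) (l 16757480))) (a (b (c (l 16756152) (l 16758488)) (l 16750384)) (b (l 16749192) (l 16740952)))) (b (a (b (l 16756184) (l 16747864)) (l 16747480)) (b (l 16738656) (l 16731728)))) (a (b (c (l 16737912) (l 16737488)) (l 16718560)) (b (l 16717408) (l 16700520)))) (a (a (b (a (b (l 16742168) (l 16733984)) (b (l 16732736) (l 16735048))) (b (b (l 16723184) (l 16724368)) (b (l 16720312) (l 16716264)))) (b (c (l 16719232) (l 16719008)) (b (l 16712488) (l 16704408)))) (b (a (l 16704816) (l 16684192)) (a (l 16688608) (l 16668024))))), by decide +kernel⟩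

def k14_pm_011 : ∃ t, chk3 f_pm_011 t 10 28 1 = true :=
  ⟨(a (l 3) (b (l 3) (a (b (l 3) (a (l 3) (b (l 3) (a (b (l 3) (a (l 3) (l 332490872167))) (b (a (l 421074575591) (l 201494383047)) (l 84456521271)))))) (b (a (b (l 3) (a (l 3) (l 417316484855))) (b (a (l 3) (b (l 3) (a (l 403894705959) (l 193978190471)))) (a (b (l 358260699079) (l 120963746119)) (l 16785840)))) (a (b (a (b (l 3) (a (l 363092515079) (l 150491644055))) (b (c (l 164987160359) (l 162839676007)) (l 16777664))) (c (l 16785320) (l 16784344))) (b (l 16783312) (l 16785872))))))), by decide +kernel⟩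

def k15_pm_011 : ∃ t, chk3 f_pm_011 t 10 29 1 = true :=
  ⟨(a (b (a (l 3) (b (a (l 3) (b (l 3) (a (l 3) (b (l 3) (a (l 414632124327) (b (l 366313739271) (l 16784488))))))) (a (b (a (l 3) (b (l 3) (l 395841643623))) (b (a (l 425906416583) (a (b (l 388862317959) (l 153712865399)) (l 16783616))) (a (a (b (l 3) (l 214916151287)) (l 117205644887)) (l 16786224)))) (b (b (a (a (l 3) (b (l 3) (l 206326216887))) (c (l 16783760) (l 16783120))) (a (a (l 155323481831) (l 16777768)) (l 16774368))) (l 16782424))))) (a (b (a (b (l 3) (a (a (l 3) (c (l 403894709591) (l 416779610791))) (b (a (l 3) (b (l 3) (l 293299303799))) (a (b (l 331417139255) (l 16783576)) (l 16782408))))) (b (a (b (l 3) (a (l 3) (b (l 399599736327) (l 155860348903)))) (b (a (l 379735529591) (b (l 332490870711) (l 16783864))) (c (l 16782576) (l 16782032)))) (a (a (a (b (l 149417898839) (l 16775416)) (l 16782832)) (l 16784984)) (l 16781360)))) (a (b (a (b (a (b (l 393157285191) (l 147807284535)) (l 66202905431))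 (l 16785368)) (l 16782632)) (l 16776520)) (c (l 16776624) (l 16776048)))) (b (a (b (c (l 16782824) (l 16782128)) (l 16784520)) (l 16773752)) (a (l 16771696) (l 16761928))))) (b (a (b (a (b (a (l 3) (b (a (l 3) (l 394231028935)) (a (b (l 418390218919) (l 16784336)) (l 16784392)))) (b (a (a (l 363092514871) (l 143512321415)) (l 16776856)) (l 16783824))) (b (a (a (b (l 174113965335) (l 16777256)) (l 16787400)) (l 16783976)) (l 16788784))) (a (b (l 16779720) (l 16781904)) (l 16776376))) (b (a (l 16783264) (l 16773672)) (l 16761928))) (a (b (a (l 16769264) (l 16759568)) (l 16747360)) (b (l 16745136) (l 16728112))))), by decide +kernel⟩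

def k16_pm_011 : ∃ t, chk3 f_pm_011 t 11 14 1 = true :=
  ⟨(b (a (b (a (b (l 3) (a (b (l 3) (a (l 430201388119) (b (l 381882999447) (l 148881035719)))) (b (a (b (l 3) (l 328732777063)) (a (l 181630165735) (l 16785488))) (a (l 66202913479) (l 16774968))))) (b (a (b (b (l 3) (l 386714841175)) (a (b (l 395304773015) (l 178945808375)) (l 79624688023))) (b (a (b (l 235317256503) (l 16780520)) (l 16778640)) (l 16774000))) (a (l 16787664) (l 16783720)))) (a (b (b (a (a (a (b (l 335712098167) (l 16779672)) (l 16784680)) (l 16776504)) (l 16790704)) (l 16782352)) (l 16775640)) (b (l 16772752) (l 16756792)))) (b (a (b (a (l 16789712) (l 16780736)) (l 16770024)) (l 16770328)) (a (l 16756960) (a (l 16733272) (l 16724816))))) (a (b (a (b (l 16759384) (l 16742872)) (l 16742832)) (a (l 16733352) (l 16719904))) (b (b (l 16729384) (l 16718176)) (b (l 16701552) (l 16684656))))), by decide +kernel⟩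

def k17_pm_011 : ∃ t, chk3 f_pm_011 t 5 15 1 = true :=
  ⟨(a (b (a (b (a (b (a (c (l 16769120) (l 16768408)) (l 16764184)) (a (l 16756472) (l 16746656))) (b (c (l 16750096) (l 16748944)) (l 16734616))) (a (b (l 16729896) (l 16715880)) (b (l 16714256) (l 16696288)))) (b (a (b (l 16730080) (l 16712568)) (b (l 16710848) (l 16693344))) (a (b (l 16694816) (l 16676832)) (l 16682320)))) (a (b (a (b (l 16697712) (l 16679328)) (l 16676736)) (b (l 16667424) (l 16656568))) (a (b (l 16651992) (l 16622392)) (b (l 16640552) (l 16592480))))) (b (a (b (a (l 16704112) (l 16685464)) (a (l 16668600) (l 16649952))) (c (b (l 16660976) (a (l 16580112) (l 16575408))) (b (l 16656600) (l 16621080)))) (b (a (b (l 16631840) (l 16613240)) (c (l 16588632) (l 16584424))) (a (a (l 16594288) (l 16575448)) (b (l 16537184) (l 16517840)))))), by decide +kernel⟩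

def k18_pm_011 : ∃ t, chk3 f_pm_011 t 3 6 1 = true :=
  ⟨(a (b (a (b (l 3) (a (l 3) (b (l 3) (a (l 3) (b (l 3) (a (l 444696927687) (b (l 433422624407) (l 16796040)))))))) (b (l 1) (a (b (l 1) (a (b (l 1) (l 16795912)) (l 1))) (l 1)))) (a (b (a (b (l 3) (a (b (l 3) (a (l 3) (b (l 3) (a (l 417853355255) (l 201494393383))))) (b (a (l 443086300391) (b (l 355576329639) (a (l 181630168727) (l 16782560)))) (a (b (a (l 319069102439) (l 16783144)) (l 16781192)) (l 16776896))))) (b (a (b (a (l 3) (l 447381267111)) (a (b (l 458655552215) (l 251960273463)) (b (l 182167046455) (l 16778968)))) (b (a (l 200957541623) (l 16779472)) (l 16781040))) (a (b (a (l 16789648) (l 16779048)) (l 16777528)) (l 16782968)))) (a (b (a (b (a (b (l 388325455895) (a (l 215453038759) (l 16782064))) (b (l 95193950471) (l 16777296))) (l 16792712)) (b (l 16794056) (l 16767376))) (a (l 16776016) (l 16754408))) (b (a (l 16773088) (l 16780008)) (a (l 16759656) (l 16769240))))) (b (a (b (l 16790856) (l 16795992))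 (b (l 1) (l 16819952))) (a (b (l 16795736) (l 16788744)) (l 16822744))))) (b (l 1) (a (b (l 1) (a (l 16856192) (l 1))) (l 1)))), by decide +kernel⟩

def k19_pm_011 : ∃ t, chk3 f_pm_011 t 3 7 1 = true :=
  ⟨(a (b (a (b (a (b (a (l 16745104) (l 16726720)) (a (l 16712664) (l 16684192))) (b (l 16720848) (l 16707032))) (a (b (a (l 16680992) (l 16645304)) (a (l 16648048) (l 16612728))) (b (l 16656632) (l 16607736)))) (b (a (b (l 16773544) (l 16748320)) (l 16804552)) (a (b (l 16710712) (l 16657984)) (l 16750608)))) (a (b (a (b (a (l 16592816) (l 16578736)) (b (l 16580368) (l 16562320))) (b (l 16593000) (l 16557816))) (b (a (b (l 16543936) (l 16525208)) (l 16521080)) (a (b (l 16506120) (l 16486672)) (l 16482568)))) (b (a (b (l 16586584) (l 16492144)) (b (l 16676376) (l 16605432))) (a (b (l 16460056) (l 16442608)) (b (l 16512840) (l 16393728)))))) (a (b (b (a (l 16849152) (l 16893112)) (a (l 16813632) (l 16871720))) (b (a (l 16736256) (l 16816720)) (a (b (l 16639088) (l 16549784))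 (l 16712872)))) (b (b (l 1) (a (l 16925904) (l 1))) (b (a (l 16887368) (l 16953992)) (a (l 16808984) (l 16896256)))))), by decide +kernel⟩

theorem s20_pm_011 : ∃ t, chk3 f_pm_011 t 3 3 1 = true := ex3_b k18_pm_011 k19_pm_011

theorem s21_pm_011 : ∃ t, chk3 f_pm_011 t 10 14 1 = true := ex3_b k14_pm_011 k15_pm_011

theorem s22_pm_011 : ∃ t, chk3 f_pm_011 t 5 14 1 = true := ex3_a s21_pm_011 k16_pm_011

theorem s23_pm_011 : ∃ t, chk3 f_pm_011 t 5 7 1 = true := ex3_b s22_pm_011 k17_pm_011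

theorem s24_pm_011 : ∃ t, chk3 f_pm_011 t 18 61 1 = true := ex3_a k10_pm_011 k11_pm_011

theorem s25_pm_011 : ∃ t, chk3 f_pm_011 t 18 30 1 = true := ex3_b k9_pm_011 s24_pm_011

theorem s26_pm_011 : ∃ t, chk3 f_pm_011 t 9 30 1 = true := ex3_a s25_pm_011 k12_pm_011

theorem s27_pm_011 : ∃ t, chk3 f_pm_011 t 9 15 1 = true := ex3_b s26_pm_011 k13_pm_011

theorem s28_pm_011 : ∃ t, chk3 f_pm_011 t 35 62 1 = true := ex3_b k6_pm_011 k7_pm_011

theorem s29_pm_011 : ∃ t, chk3 f_pm_011 t 17 62 1 = true := ex3_a k5_pm_011 s28_pm_011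

theorem s30_pm_011 : ∃ t, chk3 f_pm_011 t 17 31 1 = true := ex3_b s29_pm_011 k8_pm_011

theorem s31_pm_011 : ∃ t, chk3 f_pm_011 t 8 31 1 = true := ex3_a k4_pm_011 s30_pm_011

theorem s32_pm_011 : ∃ t, chk3 f_pm_011 t 8 15 1 = true := ex3_b k3_pm_011 s31_pm_011

theorem s33_pm_011 : ∃ t, chk3 f_pm_011 t 4 15 1 = true := ex3_a s32_pm_011 s27_pm_011

theorem s34_pm_011 : ∃ t, chk3 f_pm_011 t 4 7 1 = true := ex3_b k2_pm_011 s33_pm_011

theorem s35_pm_011 : ∃ t, chk3 f_pm_011 t 2 7 1 = true := ex3_a s34_pm_011 s23_pm_011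

theorem s36_pm_011 : ∃ t, chk3 f_pm_011 t 2 3 1 = true := ex3_b k1_pm_011 s35_pm_011

theorem s37_pm_011 : ∃ t, chk3 f_pm_011 t 1 3 1 = true := ex3_a s36_pm_011 s20_pm_011

theorem s38_pm_011 : ∃ t, chk3 f_pm_011 t 1 1 1 = true := ex3_b k0_pm_011 s37_pm_011

theorem c_pm_011 : CertN 0 536870912 536870912 536870912 335544320 67108864 3 true true false .pnn 0 1 1
    ndN0q0 ndN4q1 pcN1 cut_pm_011 Ext.none :=
  certN1 (fam := true) (s1 := true) (s2 := false) (a := 0) (b := 1) (c := 1) (cn := .pnn) (n1 := ndN0q0) (n2 := ndN4q1) (pc := pcN1) (cut := cut_pm_011) (xt := Ext.none) (P1 := 0) (W1 := 536870912) (P2 := 536870912) (W2 := 536870912) (P3 := 335544320) (W3 := 67108864) (N0 := 3)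
    rfl (fun _ => rfl) s38_pm_011

noncomputable def cut_pm_012 : Cut := Cut.of [[⟨0, 0, 0, 67108864⟩, ⟨1, 1, 0, 67108864⟩, ⟨2, 1, 0, 67108864⟩]]

noncomputable def f_pm_012 : ℕ → ℕ → ℕ → ℕ → Bool := onCell 1073741824 536870912 536870912 536870912 335544320 67108864
    (rowN 3 2 true true false .pnp 0 1 2 (qsf 0 536870912 536870912 536870912 2) ndN0q0 ndN4q1 pcN2 cut_pm_012 Ext.none)

def k0_pm_012 : ∃ t, chk3 f_pm_012 t 2 2 1 = true :=
  ⟨(a (b (a (b (a (b (l 16919936) (l 16729824)) (b (l 17020320) (l 16919696))) (a (b (a (l 16670080) (l 16721880)) (a (l 16528968) (l 16587536))) (b (l 16807504) (l 16680152)))) (b (a (l 17080016) (l 2)) (a (b (l 16929896) (l 16813392)) (l 17003352)))) (a (b (a (b (a (l 16353008) (l 16421584)) (a (l 16390440) (l 16371688))) (b (l 16530152) (l 16345344))) (a (b (a (l 16463512) (l 16421456)) (a (l 16521552) (l 16482656))) (b (l 16390752) (l 16515632)))) (b (a (b (l 16679016) (l 16518920)) (b (l 16829664) (l 16689672))) (a (b (l 16354824)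 (l 16393664)) (b (l 16521088) (l 16358080)))))) (b (a (b (l 2) (a (l 17127760) (l 2))) (l 2)) (a (b (a (l 16917856) (l 17063216)) (a (b (l 16710128) (l 16534808)) (l 16816096))) (b (l 17255544) (a (l 16987952) (l 17140488)))))), by decide +kernel⟩

def k1_pm_012 : ∃ t, chk3 f_pm_012 t 4 6 1 = true :=
  ⟨(a (b (a (b (a (l 16544872) (l 16483600)) (a (b (l 16523480) (l 16559360)) (l 16525008))) (b (a (l 16465592) (l 16449192)) (a (l 16480808) (l 16462376)))) (a (a (b (a (l 16612384) (l 16574648)) (a (l 16625320) (l 16627352))) (b (l 16571648) (b (l 16572040) (l 16586736)))) (b (a (l 16521888) (l 16475448)) (a (l 16566760) (l 16515152))))) (b (a (b (l 16444592) (l 16522984)) (b (l 16389368) (l 16408312))) (a (b (a (l 16453552) (l 16436480)) (a (l 16467000) (l 16443192))) (b (l 16454688) (a (l 16423008) (l 16407776)))))), by decide +kernel⟩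

def k2_pm_012 : ∃ t, chk3 f_pm_012 t 8 7 1 = true :=
  ⟨(a (b (a (b (b (l 16649088) (c (l 16670024) (l 16667928))) (a (b (l 16687024) (c (l 16705472) (l 16704408))) (b (l 16664984) (l 16676928)))) (b (b (l 16622816) (a (l 16627368) (l 16586480))) (b (a (l 16643576) (l 16601824)) (a (l 16670480) (l 16638432))))) (a (b (a (b (a (l 16726216) (l 16711744)) (l 6)) (b (a (l 16694792) (l 16693704)) (b (l 16704624) (l 6)))) (l 6)) (b (b (a (a (l 16682264) (l 16670976)) (b (l 16629360) (l 16658320))) (a (a (b (l 16694936) (l 6)) (a (l 16690440) (l 16684672))) (b (l 16666360) (l 16674440)))) (b (a (l 6) (b (c (l 16683792) (l 16681344)) (l 6))) (l 6))))) (b (b (a (b (l 16544304) (l 16578856)) (b (l 16510656) (l 16522248))) (a (b (l 16613840) (c (l 16630560) (l 16625920))) (b (l 16534408) (l 16568032)))) (b (a (a (b (l 16632624) (a (l 16653552) (l 16621528))) (b (l 16590576) (b (l 16601552) (l 16608944)))) (b (a (l 16570144) (l 16550360)) (a (l 16605008) (l 16563472)))) (b (a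 (a (b (l 16659688) (a (l 6) (l 16640848))) (b (l 16616416) (l 16623936))) (a (a (l 16603688) (l 16592888)) (l 16597944))) (a (b (a (l 6) (l 16652488)) (l 6)) (a (b (l 16609136) (l 16616464)) (b (l 16587336) (l 16594336)))))))), by decide +kernel⟩

def k3_pm_012 : ∃ t, chk3 f_pm_012 t 9 7 1 = true :=
  ⟨(b (a (b (b (l 16507688) (l 16537344)) (b (a (l 16499776) (l 16468144)) (a (l 16510592) (l 16477032)))) (b (a (l 16430720) (l 16409056)) (b (l 16447640) (l 16474728)))) (b (a (b (a (l 16542936) (l 16486584)) (a (a (l 16543552) (l 16524304)) (l 16496752))) (b (a (l 16454224) (l 16425120)) (a (l 16462584) (l 16431616)))) (a (a (b (a (l 16556296) (l 16536264)) (b (l 16576736) (a (l 16572784) (l 16551832)))) (b (l 16528456) (b (l 16515880) (l 16521632)))) (b (a (l 16471592) (l 16438840)) (a (l 16502184) (l 16446752)))))), by decide +kernel⟩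

def k4_pm_012 : ∃ t, chk3 f_pm_012 t 5 3 1 = true :=
  ⟨(b (a (b (a (a (l 16374976) (b (l 16379912) (a (l 16377920) (l 16367528)))) (l 16452576)) (a (a (b (l 16393928) (l 16394184)) (a (l 16404936) (b (l 16376456) (l 16380168)))) (b (l 16363576) (l 16363944)))) (b (a (l 16687376) (l 16894584)) (b (l 16457184) (a (l 16341448) (l 16394192))))) (a (b (a (a (b (l 16391408) (l 16394328)) (b (a (l 16381464) (l 16378272)) (a (l 16380512) (l 16416688)))) (b (l 16359344) (l 16416544))) (a (a (b (b (l 16399768) (l 16404384)) (b (l 16409792) (l 16415944))) (b (a (l 16385128) (a (l 16378448) (l 16375600))) (a (b (l 16390952) (l 16395784)) (b (l 16424224) (a (l 16387528) (l 16383936)))))) (b (b (l 16349024) (l 16348536)) (b (l 16349120) (l 16392856))))) (b (b (a (l 16332360) (l 16314056)) (a (l 16320664) (l 16296384))) (b (a (b (l 16311536) (l 16303832)) (l 16319656)) (a (b (l 16298952) (l 16295552)) (b (l 16263648) (l 16252792))))))), by decide +kernel⟩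

def k5_pm_012 : ∃ t, chk3 f_pm_012 t 3 1 1 = true :=
  ⟨(b (a (b (l 2) (a (b (l 2) (a (l 17273552) (l 2))) (l 2))) (l 2)) (a (a (b (b (a (l 17074160) (l 17228264)) (a (b (l 16860000) (l 16671848)) (b (l 17060152) (l 16911864)))) (b (a (b (l 16433288) (l 16281464)) (b (l 16726176) (l 16442256))) (a (b (l 16256048) (a (l 16237816) (l 16226464))) (b (l 16258272) (l 16223824))))) (b (b (a (l 17358176) (l 2)) (a (l 17175304) (l 17326016))) (b (a (b (l 16972144) (l 16790944)) (b (l 17174552) (l 17037840))) (a (b (l 16318056) (l 16244232)) (b (a (l 16792816) (l 16929352)) (a (l 16529096) (l 16711816))))))) (b (a (b (l 2) (a (l 17447784) (l 2))) (l 2)) (a (b (a (l 17289536) (l 17404608)) (a (b (l 17108032) (a (l 16870944) (l 17007096))) (b (l 17245648) (l 17095752)))) (b (a (l 17498144) (l 2)) (a (b (l 17343984) (l 17192424)) (l 17395520))))))), by decide +kernel⟩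

theorem s6_pm_012 : ∃ t, chk3 f_pm_012 t 4 7 1 = true := ex3_a k2_pm_012 k3_pm_012

theorem s7_pm_012 : ∃ t, chk3 f_pm_012 t 4 3 1 = true := ex3_b k1_pm_012 s6_pm_012

theorem s8_pm_012 : ∃ t, chk3 f_pm_012 t 2 3 1 = true := ex3_a s7_pm_012 k4_pm_012

theorem s9_pm_012 : ∃ t, chk3 f_pm_012 t 2 1 1 = true := ex3_b k0_pm_012 s8_pm_012

theorem s10_pm_012 : ∃ t, chk3 f_pm_012 t 1 1 1 = true := ex3_a s9_pm_012 k5_pm_012

theorem c_pm_012 : CertN 0 536870912 536870912 536870912 335544320 67108864 3 true true false .pnp 0 1 2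
    ndN0q0 ndN4q1 pcN2 cut_pm_012 Ext.none :=
  certN2 (fam := true) (s1 := true) (s2 := false) (a := 0) (b := 1) (c := 2) (cn := .pnp) (n1 := ndN0q0) (n2 := ndN4q1) (pc := pcN2) (cut := cut_pm_012) (xt := Ext.none) (P1 := 0) (W1 := 536870912) (P2 := 536870912) (W2 := 536870912) (P3 := 335544320) (W3 := 67108864) (N0 := 3)
    rfl (fun _ => rfl) s10_pm_012

noncomputable def cut_pm_022 : Cut := Cut.of [[⟨0, 0, 0, 67108864⟩, ⟨1, 1, 0, 67108864⟩, ⟨2, 1, 0, 67108864⟩]]

noncomputable def f_pm_022 : ℕ → ℕ → ℕ → ℕ → Bool := onCell 1073741824 536870912 1073741824 536870912 335544320 67108864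
    (rowN 3 2 true true false .pp 0 2 2 (qsf 0 536870912 1073741824 536870912 2) ndN0q0 ndN4q2 pcN2 cut_pm_022 Ext.none)

def k0_pm_022 : ∃ t, chk3 f_pm_022 t 4 1 1 = true :=
  ⟨(b (a (b (b (a (b (l 6) (b (l 6) (l 1))) (b (a (l 6) (a (l 6) (a (l 6) (b (l 16597840) (l 16608312))))) (a (b (l 6) (b (l 6) (l 1))) (a (b (l 6) (b (l 6) (a (l 1) (l 279206229159)))) (b (l 16653480) (b (a (l 6) (l 16659128)) (a (l 81100884327) (l 16670856)))))))) (a (l 1) (b (b (a (l 1) (a (l 1) (b (l 262026341527) (l 1)))) (l 1)) (l 1)))) (l 1)) (b (b (a (b (b (a (b (l 16610112) (l 16615288)) (a (l 16539528) (l 16519520))) (a (a (l 16612680) (l 16591064)) (l 16580816))) (a (b (l 16621776) (a (a (l 16650944) (l 16615776)) (l 16615192))) (b (l 16568664) (l 16576896)))) (a (b (b (l 16490832) (l 16499592)) (b (l 16528744) (l 16515360))) (b (b (l 16455224) (l 16463352)) (b (l 16470912) (l 16477888))))) (a (b (a (b (a (b (l 51572956263) (l 264173792935)) (b (l 16633408) (l 16666216))) (a (l 1) (l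 260952525447))) (a (b (l 16595056) (b (l 16628784) (l 266858082311))) (b (l 16560656) (b (l 16600128) (l 16612160))))) (a (l 1) (b (a (l 1) (l 262026222647)) (l 1)))) (b (a (a (l 16606440) (l 16536624)) (l 16529192)) (a (b (a (l 97206888087) (l 140156402455)) (a (l 1) (l 272763573463))) (b (l 16526840) (a (l 16587736) (l 16515680))))))) (a (l 1) (b (b (a (l 1) (b (l 265784273655) (l 1))) (l 1)) (l 1))))) (l 1)), by decide +kernel⟩

def k1_pm_022 : ∃ t, chk3 f_pm_022 t 5 1 1 = true :=
  ⟨(b (b (a (b (a (a (b (b (l 16423264) (l 16430816)) (l 16483064)) (a (b (l 16405944) (l 16419296)) (b (b (a (l 16393656) (l 16389904)) (l 16441544)) (a (l 16410504) (l 16406944))))) (b (b (l 16355256) (l 16361344)) (l 16453440))) (a (a (b (l 16473808) (l 16503960)) (a (b (l 16430416) (l 16439072)) (b (l 16483568) (l 16492392)))) (b (l 16420712) (a (l 16405632) (l 16366384))))) (b (b (a (b (l 16296120) (l 16299776)) (l 16332352)) (a (l 16304184) (l 16247992))) (a (b (l 16308552) (l 16331768))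 (b (l 16247112) (l 16243976))))) (b (a (a (a (b (b (l 16556216) (l 266320986199)) (l 1)) (b (a (l 16519192) (l 16498528)) (a (l 1) (l 159483767575)))) (b (l 16431928) (b (l 16433160) (l 73047414039)))) (a (l 16424712) (l 16318632))) (a (a (l 1) (b (l 287258822231) (l 1))) (a (b (l 73047343351) (l 241087916487)) (b (l 16266216) (l 16387752)))))) (a (l 1) (b (b (a (l 1) (b (l 240014015719) (l 1))) (l 1)) (l 1)))), by decide +kernel⟩

def k2_pm_022 : ∃ t, chk3 f_pm_022 t 3 1 1 = true :=
  ⟨(b (a (a (b (b (a (b (a (l 16220344) (l 16207656)) (l 16203776)) (b (l 16221664) (l 16184632))) (a (b (l 16195280) (l 16186424)) (b (l 16164424) (l 16146376)))) (b (a (b (l 16175032) (l 16160840)) (b (l 16127912) (l 16106480))) (a (l 16341984) (l 16193424)))) (b (b (a (b (l 16211568) (l 16188952)) (b (l 16410136) (l 16314984))) (a (b (l 16161480) (l 16129760)) (l 16194224))) (b (a (l 16148168) (l 16099056)) (l 16197776)))) (b (a (b (a (b (a (l 16701744) (l 16866376)) (l 16690672)) (b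 (a (l 16951144) (l 16982744)) (l 16889600))) (a (b (l 16603448) (l 16527808)) (l 16791128))) (b (a (b (l 17056680) (l 16990480)) (l 17151760)) (a (l 16927376) (l 17054752)))) (a (b (a (l 16442808) (l 16694280)) (a (l 16396440) (l 16649344))) (b (a (l 16874208) (l 17023464)) (a (l 16850640) (l 17012104)))))) (a (b (a (b (a (b (l 16312704) (l 224981814951)) (b (l 16176096) (l 16245488))) (a (l 1) (l 258804588327))) (b (a (b (l 16072576) (l 16153648)) (l 16176512)) (a (l 180421474263) (l 16341296)))) (a (l 1) (b (l 269542066711) (l 1)))) (b (a (b (a (l 16431688) (l 16662024)) (a (l 16543000) (l 16727848))) (b (l 16941776) (l 16966680))) (b (a (b (a (l 16655848) (l 16806336)) (l 16797480)) (l 17013576)) (a (l 328062062743) (l 17091264)))))), by decide +kernel⟩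

theorem s3_pm_022 : ∃ t, chk3 f_pm_022 t 2 1 1 = true := ex3_a k0_pm_022 k1_pm_022

theorem s4_pm_022 : ∃ t, chk3 f_pm_022 t 1 1 1 = true := ex3_a s3_pm_022 k2_pm_022

theorem c_pm_022 : CertN 0 536870912 1073741824 536870912 335544320 67108864 3 true true false .pp 0 2 2
    ndN0q0 ndN4q2 pcN2 cut_pm_022 Ext.none :=
  certN2 (fam := true) (s1 := true) (s2 := false) (a := 0) (b := 2) (c := 2) (cn := .pp) (n1 := ndN0q0) (n2 := ndN4q2) (pc := pcN2) (cut := cut_pm_022) (xt := Ext.none) (P1 := 0) (W1 := 536870912) (P2 := 1073741824) (W2 := 536870912) (P3 := 335544320) (W3 := 67108864) (N0 := 3)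
    rfl (fun _ => rfl) s4_pm_022

noncomputable def f_pm_023 : ℕ → ℕ → ℕ → ℕ → Bool := onCell 0 536870912 1073741824 536870912 335544320 67108864
    (rowN 3 0 true true false .up 0 2 3 (qsf 0 536870912 1073741824 536870912 3) ndN0q0 ndN4q2 pcN3 Cut.none Ext.none)

def k0_pm_023 : ∃ t, chk3 f_pm_023 t 1 1 1 = true :=
  ⟨(a (b (b (l 1) (a (l 1) (b (l 1) (l 230350735639)))) (b (a (b (l 1) (l 225518575831)) (b (l 263636949127) (l 315714187159))) (a (b (l 267394916023) (l 17150456)) (b (l 17300840) (l 17379552))))) (b (a (b (b (l 1) (l 269006025319)) (a (l 284575292711) (l 323767725863))) (b (a (l 322694037063) (l 346316959063)) (a (l 17482520) (l 17572264)))) (a (b (a (l 17351656) (l 17449960)) (l 17532440)) (b (a (l 17493576) (l 17488048)) (a (l 17399360) (b (l 17382872) (a (l 17316648) (b (l 17296976) (a (l 17259296) (l 17234672)))))))))), by decide +kernel⟩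

theorem c_pm_023 : CertN 0 536870912 1073741824 536870912 335544320 67108864 3 true true false .up 0 2 3
    ndN0q0 ndN4q2 pcN3 Cut.none Ext.none :=
  certN0 (fam := true) (s1 := true) (s2 := false) (a := 0) (b := 2) (c := 3) (cn := .up) (n1 := ndN0q0) (n2 := ndN4q2) (pc := pcN3) (cut := Cut.none) (xt := Ext.none) (P1 := 0) (W1 := 536870912) (P2 := 1073741824) (W2 := 536870912) (P3 := 335544320) (W3 := 67108864) (N0 := 3)
    rfl k0_pm_023

noncomputable def f_pm_033 : ℕ → ℕ → ℕ → ℕ → Bool := onCell 1610612736 536870912 0 1230186008 335544320 67108864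
    (rowN 3 2 true true false .pnn 0 3 3 (qsf 0 536870912 0 1230186008 3) ndN0q0 ndN4q3 pcN3 Cut.none Ext.none)

def k0_pm_033 : ∃ t, chk3 f_pm_033 t 1 1 1 = true :=
  ⟨(a (b (l 1) (b (a (l 1) (b (l 1) (l 337727392311))) (b (a (l 1) (l 17475592)) (a (b (l 17382248) (l 17285760)) (b (l 17422080) (l 17401776)))))) (b (b (a (l 1) (l 4)) (a (l 1) (a (l 17325848) (a (l 17281072) (l 4))))) (a (b (a (l 17711600) (b (l 17387832) (l 17370872))) (b (l 17383168) (b (l 17370848) (l 17380976)))) (b (a (b (l 17293416) (l 17288752)) (a (b (l 17232400) (l 17230304)) (b (l 17220256) (l 17200088)))) (a (b (l 17284288) (l 17430688)) (a (b (l 17230776) (l 17254040)) (b (l 17196088) (l 17338424)))))))), by decide +kernel⟩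

theorem c_pm_033 : CertN 0 536870912 0 1230186008 335544320 67108864 3 true true false .pnn 0 3 3
    ndN0q0 ndN4q3 pcN3 Cut.none Ext.none :=
  certN2 (fam := true) (s1 := true) (s2 := false) (a := 0) (b := 3) (c := 3) (cn := .pnn) (n1 := ndN0q0) (n2 := ndN4q3) (pc := pcN3) (cut := Cut.none) (xt := Ext.none) (P1 := 0) (W1 := 536870912) (P2 := 0) (W2 := 1230186008) (P3 := 335544320) (W3 := 67108864) (N0 := 3)
    rfl (fun _ => rfl) k0_pm_033

noncomputable def f_pm_101 : ℕ → ℕ → ℕ → ℕ → Bool := onCell 536870912 536870912 536870912 536870912 335544320 67108864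
    (rowN 3 1 true true false .npn 1 0 1 (qsf 536870912 536870912 0 536870912 1) ndN0q1 ndN4q0 pcN1 Cut.none Ext.none)

def k0_pm_101 : ∃ t, chk3 f_pm_101 t 2 1 1 = true :=
  ⟨(b (b (a (b (a (l 3) (a (a (l 3) (l 1)) (l 1))) (a (b (a (l 3) (b (l 3) (a (l 3) (b (l 3) (l 440402013911))))) (a (b (l 3) (a (l 3) (b (l 3) (l 450065691431)))) (b (a (b (l 3) (l 442549497927)) (b (l 430201447415) (l 419464010231))) (a (b (a (l 441475746183) (l 423758986503)) (a (l 425906469687) (l 16799928))) (b (l 16837696) (l 16786160)))))) (b (a (b (a (a (l 3) (l 440402012519)) (b (l 1) (l 366716442471))) (a (b (l 429127705463) (l 418927139527)) (a (b (l 16800504) (l 16791608)) (l 16787000)))) (l 240552006231)) (a (a (b (b (l 16859000) (l 16786968)) (l 16781264)) (l 16789848)) (l 16816968))))) (a (b (l 1) (b (l 1) (l 41909832151))) (l 1))) (a (a (b (b (a (b (a (a (l 3) (l 454360638135)) (b (a (l 447381326231) (l 428590823591)) (a (l 431275177255) (l 16798568)))) (a (b (a (l 451676292871) (l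 425906466967)) (a (l 423758981815) (l 16796448))) (l 16849544))) (a (b (l 16862848) (l 16785320)) (l 16792392))) (a (b (a (l 16825568) (l 16788480)) (l 16800064)) (l 16823664))) (b (a (l 16830696) (l 16864040)) (a (l 16871104) (l 16904264)))) (b (b (a (l 16818264) (l 16852784)) (l 16874424)) (a (l 16917568) (l 16950776)))) (b (a (a (l 16908168) (l 16948992)) (l 17023952)) (a (l 17003736) (l 17081640))))) (b (a (a (b (a (l 16929680) (l 16963576)) (b (l 16999424) (l 17028136))) (b (l 17014392) (l 17088800))) (b (a (l 17084336) (l 17157280)) (a (l 17163824) (l 17241880)))) (a (b (a (a (l 17030648) (l 17077472)) (l 17144968)) (a (a (b (l 17016992) (l 16975912)) (l 17067272)) (a (l 17130088) (l 17188696)))) (b (a (l 17232376) (l 17320280)) (a (l 17271008) (l 17375616)))))), by decide +kernel⟩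

def k1_pm_101 : ∃ t, chk3 f_pm_101 t 3 1 1 = true :=
  ⟨(b (a (b (l 1) (a (b (l 1) (l 17176440)) (l 1))) (l 1)) (a (b (a (b (l 17234640) (l 17316464)) (b (l 17412904) (l 17442584))) (b (a (l 17406216) (l 17485032)) (a (l 17476416) (l 17573216)))) (b (a (b (l 1) (l 17546616)) (l 1)) (a (b (l 17591800) (l 17665240)) (b (l 17730656) (l 17801704)))))), by decide +kernel⟩

theorem s2_pm_101 : ∃ t, chk3 f_pm_101 t 1 1 1 = true := ex3_a k0_pm_101 k1_pm_101

theorem c_pm_101 : CertN 536870912 536870912 0 536870912 335544320 67108864 3 true true false .npn 1 0 1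
    ndN0q1 ndN4q0 pcN1 Cut.none Ext.none :=
  certN1 (fam := true) (s1 := true) (s2 := false) (a := 1) (b := 0) (c := 1) (cn := .npn) (n1 := ndN0q1) (n2 := ndN4q0) (pc := pcN1) (cut := Cut.none) (xt := Ext.none) (P1 := 536870912) (W1 := 536870912) (P2 := 0) (W2 := 536870912) (P3 := 335544320) (W3 := 67108864) (N0 := 3)
    rfl (fun _ => rfl) s2_pm_101

noncomputable def f_pm_102 : ℕ → ℕ → ℕ → ℕ → Bool := onCell 536870912 536870912 1073741824 536870912 335544320 67108864
    (rowN 3 1 true true false .npp 1 0 2 (qsf 536870912 536870912 0 536870912 2) ndN0q1 ndN4q0 pcN2 Cut.none Ext.none)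

def k0_pm_102 : ∃ t, chk3 f_pm_102 t 1 1 1 = true :=
  ⟨(a (b (a (b (b (a (a (b (l 16968152) (l 16970296)) (b (l 17061312) (l 17066232))) (a (l 17147960) (l 17226320))) (a (a (l 2) (l 17089048)) (a (l 17175848) (l 17253328)))) (b (a (l 2) (l 173511451863)) (l 2))) (b (a (b (b (l 17330256) (l 17336576)) (l 17357120)) (b (l 17462096) (l 17479384))) (a (b (l 17400416) (l 17455848)) (b (l 17512024) (l 17555368))))) (a (l 2) (b (b (a (l 2) (l 17603104)) (l 2)) (l 2)))) (b (b (a (b (a (l 17584312) (l 17694656)) (a (l 17589016) (l 17684040))) (a (b (l 17798360) (l 17769728)) (l 17881968))) (a (a (b (l 17606480) (l 17632368)) (l 17692408)) (a (l 17749128) (l 17799176)))) (b (a (b (l 172975533479) (l 186397246263)) (a (l 17732320) (l 17740240))) (a (b (l 259411728055) (l 2)) (b (l 17709120) (l 17682808)))))), by decide +kernel⟩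

theorem c_pm_102 : CertN 536870912 536870912 0 536870912 335544320 67108864 3 true true false .npp 1 0 2
    ndN0q1 ndN4q0 pcN2 Cut.none Ext.none :=
  certN1 (fam := true) (s1 := true) (s2 := false) (a := 1) (b := 0) (c := 2) (cn := .npp) (n1 := ndN0q1) (n2 := ndN4q0) (pc := pcN2) (cut := Cut.none) (xt := Ext.none) (P1 := 536870912) (W1 := 536870912) (P2 := 0) (W2 := 536870912) (P3 := 335544320) (W3 := 67108864) (N0 := 3)
    rfl (fun _ => rfl) k0_pm_102

noncomputable def f_pm_112 : ℕ → ℕ → ℕ → ℕ → Bool := onCell 536870912 536870912 1073741824 536870912 335544320 67108864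
    (rowN 3 1 true true false .dn 1 1 2 (qsf 536870912 536870912 536870912 536870912 2) ndN0q1 ndN4q1 pcN2 Cut.none Ext.none)

def k0_pm_112 : ∃ t, chk3 f_pm_112 t 1 1 1 = true :=
  ⟨(a (b (a (b (a (b (a (l 16968464) (l 17063064)) (l 17041968)) (b (l 17188552) (l 17215368))) (a (b (l 17096272) (l 17169112)) (b (l 17265184) (l 17329432)))) (b (a (l 192771843031) (l 1)) (a (l 17423928) (l 17530544)))) (b (a (b (a (l 17252192) (l 17400392)) (a (l 17343040) (l 17473272))) (b (a (l 17510504) (l 17598144)) (l 17609688))) (b (a (a (b (l 17414944) (l 17445544)) (l 17547064)) (a (l 17627248) (l 17683480))) (a (a (l 17457440) (l 17608936)) (l 17707824))))) (b (a (b (l 1) (a (l 17615144) (l 1))) (l 1)) (b (a (b (l 17682560) (l 17702704)) (l 17731840)) (a (l 17785872) (b (l 17700192) (l 17671976)))))), by decide +kernel⟩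

theorem c_pm_112 : CertN 536870912 536870912 536870912 536870912 335544320 67108864 3 true true false .dn 1 1 2
    ndN0q1 ndN4q1 pcN2 Cut.none Ext.none :=
  certN1 (fam := true) (s1 := true) (s2 := false) (a := 1) (b := 1) (c := 2) (cn := .dn) (n1 := ndN0q1) (n2 := ndN4q1) (pc := pcN2) (cut := Cut.none) (xt := Ext.none) (P1 := 536870912) (W1 := 536870912) (P2 := 536870912) (W2 := 536870912) (P3 := 335544320) (W3 := 67108864) (N0 := 3)
    rfl (fun _ => rfl) k0_pm_112

noncomputable def f_pm_113 : ℕ → ℕ → ℕ → ℕ → Bool := onCell 536870912 536870912 1610612736 536870912 335544320 67108864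
    (rowN 3 1 true true false .nn 1 1 3 (qsf 536870912 536870912 536870912 536870912 3) ndN0q1 ndN4q1 pcN3 Cut.none Ext.none)

def k0_pm_113 : ∃ t, chk3 f_pm_113 t 1 1 1 = true :=
  ⟨(b (a (b (a (a (l 17774744) (l 17791024)) (a (l 17762736) (l 17720088))) (a (a (l 2) (l 17934784)) (b (l 17806976) (l 17844368)))) (b (a (b (l 17656760) (l 17671000)) (b (l 17607744) (l 17581224))) (b (a (l 17676680) (l 17545856)) (a (l 17674192) (l 17486920))))) (b (a (a (l 2) (b (l 17873280) (l 2))) (a (b (l 17661856) (l 17656480)) (l 4))) (a (l 2) (b (l 4) (l 4))))), by decide +kernel⟩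

theorem c_pm_113 : CertN 536870912 536870912 536870912 536870912 335544320 67108864 3 true true false .nn 1 1 3
    ndN0q1 ndN4q1 pcN3 Cut.none Ext.none :=
  certN1 (fam := true) (s1 := true) (s2 := false) (a := 1) (b := 1) (c := 3) (cn := .nn) (n1 := ndN0q1) (n2 := ndN4q1) (pc := pcN3) (cut := Cut.none) (xt := Ext.none) (P1 := 536870912) (W1 := 536870912) (P2 := 536870912) (W2 := 536870912) (P3 := 335544320) (W3 := 67108864) (N0 := 3)
    rfl (fun _ => rfl) k0_pm_113

noncomputable def f_pm_123 : ℕ → ℕ → ℕ → ℕ → Bool := onCell 536870912 536870912 1610612736 536870912 335544320 67108864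
    (rowN 3 1 true true false .npn 1 2 3 (qsf 536870912 536870912 1073741824 536870912 3) ndN0q1 ndN4q2 pcN3 Cut.none Ext.none)

def k0_pm_123 : ∃ t, chk3 f_pm_123 t 1 1 1 = true :=
  ⟨(b (a (b (a (a (l 17719344) (l 17867112)) (a (l 354371329895) (l 1))) (a (a (l 17629440) (l 17706400)) (b (l 17893384) (l 17763504)))) (b (l 1) (a (b (l 1) (l 17943232)) (l 1)))) (b (a (a (b (l 17546096) (l 17456896)) (b (l 17634456) (l 17508800))) (a (b (l 17743888) (l 17581760)) (l 4))) (a (a (b (l 17360760) (b (l 17285984) (l 17234000))) (b (l 17388936) (l 4))) (b (l 4) (l 4))))), by decide +kernel⟩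

theorem c_pm_123 : CertN 536870912 536870912 1073741824 536870912 335544320 67108864 3 true true false .npn 1 2 3
    ndN0q1 ndN4q2 pcN3 Cut.none Ext.none :=
  certN1 (fam := true) (s1 := true) (s2 := false) (a := 1) (b := 2) (c := 3) (cn := .npn) (n1 := ndN0q1) (n2 := ndN4q2) (pc := pcN3) (cut := Cut.none) (xt := Ext.none) (P1 := 536870912) (W1 := 536870912) (P2 := 1073741824) (W2 := 536870912) (P3 := 335544320) (W3 := 67108864) (N0 := 3)
    rfl (fun _ => rfl) k0_pm_123

noncomputable def f_pm_133 : ℕ → ℕ → ℕ → ℕ → Bool := onCell 536870912 536870912 0 1230186008 335544320 67108864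
    (rowN 3 0 true true false .dn 1 3 3 (qsf 536870912 536870912 0 1230186008 3) ndN0q1 ndN4q3 pcN3 Cut.none Ext.none)

def k0_pm_133 : ∃ t, chk3 f_pm_133 t 1 1 1 = true :=
  ⟨(b (l 2) (b (l 2) (a (b (l 2) (l 4)) (l 2)))), by decide +kernel⟩

theorem c_pm_133 : CertN 536870912 536870912 0 1230186008 335544320 67108864 3 true true false .dn 1 3 3
    ndN0q1 ndN4q3 pcN3 Cut.none Ext.none :=
  certN0 (fam := true) (s1 := true) (s2 := false) (a := 1) (b := 3) (c := 3) (cn := .dn) (n1 := ndN0q1) (n2 := ndN4q3) (pc := pcN3) (cut := Cut.none) (xt := Ext.none) (P1 := 536870912) (W1 := 536870912) (P2 := 0) (W2 := 1230186008) (P3 := 335544320) (W3 := 67108864) (N0 := 3)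
    rfl k0_pm_133

noncomputable def f_pm_202 : ℕ → ℕ → ℕ → ℕ → Bool := onCell 0 536870912 0 536870912 335544320 67108864
    (rowN 3 0 true true false .pp 2 0 2 (qsf 0 536870912 0 536870912 2) ndN0q2 ndN4q0 pcN2 Cut.none Ext.none)

def k0_pm_202 : ∃ t, chk3 f_pm_202 t 1 1 1 = true :=
  ⟨(a (l 4) (a (b (b (b (a (l 17833304) (l 17883872)) (l 17809928)) (b (l 17723960) (l 17644512))) (l 4)) (b (b (b (a (l 17868488) (l 17993064)) (a (l 17872488) (l 17896056))) (a (l 17777384) (l 17815120))) (b (b (l 17710136) (a (l 17616200) (l 17687264))) (b (l 17742016) (l 17788832)))))), by decide +kernel⟩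

theorem c_pm_202 : CertN 0 536870912 0 536870912 335544320 67108864 3 true true false .pp 2 0 2
    ndN0q2 ndN4q0 pcN2 Cut.none Ext.none :=
  certN0 (fam := true) (s1 := true) (s2 := false) (a := 2) (b := 0) (c := 2) (cn := .pp) (n1 := ndN0q2) (n2 := ndN4q0) (pc := pcN2) (cut := Cut.none) (xt := Ext.none) (P1 := 0) (W1 := 536870912) (P2 := 0) (W2 := 536870912) (P3 := 335544320) (W3 := 67108864) (N0 := 3)
    rfl k0_pm_202

noncomputable def f_pm_203 : ℕ → ℕ → ℕ → ℕ → Bool := onCell 0 536870912 1610612736 536870912 335544320 67108864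
    (rowN 3 1 true true false .up 2 0 3 (qsf 0 536870912 0 536870912 3) ndN0q2 ndN4q0 pcN3 Cut.none Ext.none)

def k0_pm_203 : ∃ t, chk3 f_pm_203 t 1 1 1 = true :=
  ⟨(a (l 4) (b (l 4) (l 2))), by decide +kernel⟩

theorem c_pm_203 : CertN 0 536870912 0 536870912 335544320 67108864 3 true true false .up 2 0 3
    ndN0q2 ndN4q0 pcN3 Cut.none Ext.none :=
  certN1 (fam := true) (s1 := true) (s2 := false) (a := 2) (b := 0) (c := 3) (cn := .up) (n1 := ndN0q2) (n2 := ndN4q0) (pc := pcN3) (cut := Cut.none) (xt := Ext.none) (P1 := 0) (W1 := 536870912) (P2 := 0) (W2 := 536870912) (P3 := 335544320) (W3 := 67108864) (N0 := 3)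
    rfl (fun _ => rfl) k0_pm_203

noncomputable def f_pm_213 : ℕ → ℕ → ℕ → ℕ → Bool := onCell 0 536870912 536870912 536870912 335544320 67108864
    (rowN 3 0 true true false .pnn 2 1 3 (qsf 0 536870912 536870912 536870912 3) ndN0q2 ndN4q1 pcN3 Cut.none Ext.none)

def k0_pm_213 : ∃ t, chk3 f_pm_213 t 1 1 1 = true :=
  ⟨(a (l 4) (b (l 4) (l 4))), by decide +kernel⟩

theorem c_pm_213 : CertN 0 536870912 536870912 536870912 335544320 67108864 3 true true false .pnn 2 1 3
    ndN0q2 ndN4q1 pcN3 Cut.none Ext.none :=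
  certN0 (fam := true) (s1 := true) (s2 := false) (a := 2) (b := 1) (c := 3) (cn := .pnn) (n1 := ndN0q2) (n2 := ndN4q1) (pc := pcN3) (cut := Cut.none) (xt := Ext.none) (P1 := 0) (W1 := 536870912) (P2 := 536870912) (W2 := 536870912) (P3 := 335544320) (W3 := 67108864) (N0 := 3)
    rfl k0_pm_213

noncomputable def f_mm_001 : ℕ → ℕ → ℕ → ℕ → Bool := onCell 0 536870912 0 536870912 335544320 67108864
    (rowN 3 0 true false false .up 0 0 1 (qsf 0 536870912 0 536870912 1) ndN0q0 ndN4q0 pcN1 Cut.none Ext.none)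

def k0_mm_001 : ∃ t, chk3 f_mm_001 t 1 1 1 = true :=
  ⟨(l 4), by decide +kernel⟩

theorem c_mm_001 : CertN 0 536870912 0 536870912 335544320 67108864 3 true false false .up 0 0 1
    ndN0q0 ndN4q0 pcN1 Cut.none Ext.none :=
  certN0 (fam := true) (s1 := false) (s2 := false) (a := 0) (b := 0) (c := 1) (cn := .up) (n1 := ndN0q0) (n2 := ndN4q0) (pc := pcN1) (cut := Cut.none) (xt := Ext.none) (P1 := 0) (W1 := 536870912) (P2 := 0) (W2 := 536870912) (P3 := 335544320) (W3 := 67108864) (N0 := 3)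
    rfl k0_mm_001

noncomputable def f_mm_011 : ℕ → ℕ → ℕ → ℕ → Bool := onCell 0 536870912 536870912 536870912 335544320 67108864
    (rowN 3 0 true false false .pnn 0 1 1 (qsf 0 536870912 536870912 536870912 1) ndN0q0 ndN4q1 pcN1 Cut.none Ext.none)

def k0_mm_011 : ∃ t, chk3 f_mm_011 t 1 1 1 = true :=
  ⟨(l 4), by decide +kernel⟩

theorem c_mm_011 : CertN 0 536870912 536870912 536870912 335544320 67108864 3 true false false .pnn 0 1 1
    ndN0q0 ndN4q1 pcN1 Cut.none Ext.none :=
  certN0 (fam := true) (s1 := false) (s2 := false) (a := 0) (b := 1) (c := 1) (cn := .pnn) (n1 := ndN0q0) (n2 := ndN4q1) (pc := pcN1) (cut := Cut.none) (xt := Ext.none) (P1 := 0) (W1 := 536870912) (P2 := 536870912) (W2 := 536870912) (P3 := 335544320) (W3 := 67108864) (N0 := 3)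
    rfl k0_mm_011

noncomputable def f_mm_012 : ℕ → ℕ → ℕ → ℕ → Bool := onCell 0 536870912 536870912 536870912 335544320 67108864
    (rowN 3 0 true false false .pnp 0 1 2 (qsf 0 536870912 536870912 536870912 2) ndN0q0 ndN4q1 pcN2 Cut.none Ext.none)

def k0_mm_012 : ∃ t, chk3 f_mm_012 t 1 1 1 = true :=
  ⟨(l 4), by decide +kernel⟩

theorem c_mm_012 : CertN 0 536870912 536870912 536870912 335544320 67108864 3 true false false .pnp 0 1 2
    ndN0q0 ndN4q1 pcN2 Cut.none Ext.none :=
  certN0 (fam := true) (s1 := false) (s2 := false) (a := 0) (b := 1) (c := 2) (cn := .pnp) (n1 := ndN0q0) (n2 := ndN4q1) (pc := pcN2) (cut := Cut.none) (xt := Ext.none) (P1 := 0) (W1 := 536870912) (P2 := 536870912) (W2 := 536870912) (P3 := 335544320) (W3 := 67108864) (N0 := 3)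
    rfl k0_mm_012

noncomputable def f_mm_022 : ℕ → ℕ → ℕ → ℕ → Bool := onCell 0 536870912 1073741824 536870912 335544320 67108864
    (rowN 3 0 true false false .pp 0 2 2 (qsf 0 536870912 1073741824 536870912 2) ndN0q0 ndN4q2 pcN2 Cut.none Ext.none)

def k0_mm_022 : ∃ t, chk3 f_mm_022 t 1 1 1 = true :=
  ⟨(l 4), by decide +kernel⟩

theorem c_mm_022 : CertN 0 536870912 1073741824 536870912 335544320 67108864 3 true false false .pp 0 2 2
    ndN0q0 ndN4q2 pcN2 Cut.none Ext.none :=
  certN0 (fam := true) (s1 := false) (s2 := false) (a := 0) (b := 2) (c := 2) (cn := .pp) (n1 := ndN0q0) (n2 := ndN4q2) (pc := pcN2) (cut := Cut.none) (xt := Ext.none) (P1 := 0) (W1 := 536870912) (P2 := 1073741824) (W2 := 536870912) (P3 := 335544320) (W3 := 67108864) (N0 := 3)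
    rfl k0_mm_022

noncomputable def f_mm_023 : ℕ → ℕ → ℕ → ℕ → Bool := onCell 0 536870912 1073741824 536870912 335544320 67108864
    (rowN 3 0 true false false .up 0 2 3 (qsf 0 536870912 1073741824 536870912 3) ndN0q0 ndN4q2 pcN3 Cut.none Ext.none)

def k0_mm_023 : ∃ t, chk3 f_mm_023 t 1 1 1 = true :=
  ⟨(l 4), by decide +kernel⟩

theorem c_mm_023 : CertN 0 536870912 1073741824 536870912 335544320 67108864 3 true false false .up 0 2 3
    ndN0q0 ndN4q2 pcN3 Cut.none Ext.none :=
  certN0 (fam := true) (s1 := false) (s2 := false) (a := 0) (b := 2) (c := 3) (cn := .up) (n1 := ndN0q0) (n2 := ndN4q2) (pc := pcN3) (cut := Cut.none) (xt := Ext.none) (P1 := 0) (W1 := 536870912) (P2 := 1073741824) (W2 := 536870912) (P3 := 335544320) (W3 := 67108864) (N0 := 3)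
    rfl k0_mm_023

noncomputable def f_mm_033 : ℕ → ℕ → ℕ → ℕ → Bool := onCell 0 536870912 0 1230186008 335544320 67108864
    (rowN 3 0 true false false .pnn 0 3 3 (qsf 0 536870912 0 1230186008 3) ndN0q0 ndN4q3 pcN3 Cut.none Ext.none)

def k0_mm_033 : ∃ t, chk3 f_mm_033 t 1 1 1 = true :=
  ⟨(l 4), by decide +kernel⟩

theorem c_mm_033 : CertN 0 536870912 0 1230186008 335544320 67108864 3 true false false .pnn 0 3 3
    ndN0q0 ndN4q3 pcN3 Cut.none Ext.none :=
  certN0 (fam := true) (s1 := false) (s2 := false) (a := 0) (b := 3) (c := 3) (cn := .pnn) (n1 := ndN0q0) (n2 := ndN4q3) (pc := pcN3) (cut := Cut.none) (xt := Ext.none) (P1 := 0) (W1 := 536870912) (P2 := 0) (W2 := 1230186008) (P3 := 335544320) (W3 := 67108864) (N0 := 3)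
    rfl k0_mm_033

noncomputable def f_mm_101 : ℕ → ℕ → ℕ → ℕ → Bool := onCell 536870912 536870912 0 536870912 335544320 67108864
    (rowN 3 0 true false false .npn 1 0 1 (qsf 536870912 536870912 0 536870912 1) ndN0q1 ndN4q0 pcN1 Cut.none Ext.none)

def k0_mm_101 : ∃ t, chk3 f_mm_101 t 1 1 1 = true :=
  ⟨(l 4), by decide +kernel⟩

theorem c_mm_101 : CertN 536870912 536870912 0 536870912 335544320 67108864 3 true false false .npn 1 0 1
    ndN0q1 ndN4q0 pcN1 Cut.none Ext.none :=
  certN0 (fam := true) (s1 := false) (s2 := false) (a := 1) (b := 0) (c := 1) (cn := .npn) (n1 := ndN0q1) (n2 := ndN4q0) (pc := pcN1) (cut := Cut.none) (xt := Ext.none) (P1 := 536870912) (W1 := 536870912) (P2 := 0) (W2 := 536870912) (P3 := 335544320) (W3 := 67108864) (N0 := 3)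
    rfl k0_mm_101

noncomputable def f_mm_102 : ℕ → ℕ → ℕ → ℕ → Bool := onCell 536870912 536870912 0 536870912 335544320 67108864
    (rowN 3 0 true false false .npp 1 0 2 (qsf 536870912 536870912 0 536870912 2) ndN0q1 ndN4q0 pcN2 Cut.none Ext.none)

def k0_mm_102 : ∃ t, chk3 f_mm_102 t 1 1 1 = true :=
  ⟨(l 4), by decide +kernel⟩

theorem c_mm_102 : CertN 536870912 536870912 0 536870912 335544320 67108864 3 true false false .npp 1 0 2
    ndN0q1 ndN4q0 pcN2 Cut.none Ext.none :=
  certN0 (fam := true) (s1 := false) (s2 := false) (a := 1) (b := 0) (c := 2) (cn := .npp) (n1 := ndN0q1) (n2 := ndN4q0) (pc := pcN2) (cut := Cut.none) (xt := Ext.none) (P1 := 536870912) (W1 := 536870912) (P2 := 0) (W2 := 536870912) (P3 := 335544320) (W3 := 67108864) (N0 := 3)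
    rfl k0_mm_102

noncomputable def f_mm_112 : ℕ → ℕ → ℕ → ℕ → Bool := onCell 536870912 536870912 536870912 536870912 335544320 67108864
    (rowN 3 0 true false false .dn 1 1 2 (qsf 536870912 536870912 536870912 536870912 2) ndN0q1 ndN4q1 pcN2 Cut.none Ext.none)

def k0_mm_112 : ∃ t, chk3 f_mm_112 t 1 1 1 = true :=
  ⟨(l 4), by decide +kernel⟩

theorem c_mm_112 : CertN 536870912 536870912 536870912 536870912 335544320 67108864 3 true false false .dn 1 1 2
    ndN0q1 ndN4q1 pcN2 Cut.none Ext.none :=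
  certN0 (fam := true) (s1 := false) (s2 := false) (a := 1) (b := 1) (c := 2) (cn := .dn) (n1 := ndN0q1) (n2 := ndN4q1) (pc := pcN2) (cut := Cut.none) (xt := Ext.none) (P1 := 536870912) (W1 := 536870912) (P2 := 536870912) (W2 := 536870912) (P3 := 335544320) (W3 := 67108864) (N0 := 3)
    rfl k0_mm_112

noncomputable def f_mm_113 : ℕ → ℕ → ℕ → ℕ → Bool := onCell 536870912 536870912 536870912 536870912 335544320 67108864
    (rowN 3 0 true false false .nn 1 1 3 (qsf 536870912 536870912 536870912 536870912 3) ndN0q1 ndN4q1 pcN3 Cut.none Ext.none)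

def k0_mm_113 : ∃ t, chk3 f_mm_113 t 1 1 1 = true :=
  ⟨(l 4), by decide +kernel⟩

theorem c_mm_113 : CertN 536870912 536870912 536870912 536870912 335544320 67108864 3 true false false .nn 1 1 3
    ndN0q1 ndN4q1 pcN3 Cut.none Ext.none :=
  certN0 (fam := true) (s1 := false) (s2 := false) (a := 1) (b := 1) (c := 3) (cn := .nn) (n1 := ndN0q1) (n2 := ndN4q1) (pc := pcN3) (cut := Cut.none) (xt := Ext.none) (P1 := 536870912) (W1 := 536870912) (P2 := 536870912) (W2 := 536870912) (P3 := 335544320) (W3 := 67108864) (N0 := 3)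
    rfl k0_mm_113

noncomputable def f_mm_123 : ℕ → ℕ → ℕ → ℕ → Bool := onCell 536870912 536870912 1073741824 536870912 335544320 67108864
    (rowN 3 0 true false false .npn 1 2 3 (qsf 536870912 536870912 1073741824 536870912 3) ndN0q1 ndN4q2 pcN3 Cut.none Ext.none)

def k0_mm_123 : ∃ t, chk3 f_mm_123 t 1 1 1 = true :=
  ⟨(l 4), by decide +kernel⟩

theorem c_mm_123 : CertN 536870912 536870912 1073741824 536870912 335544320 67108864 3 true false false .npn 1 2 3
    ndN0q1 ndN4q2 pcN3 Cut.none Ext.none :=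
  certN0 (fam := true) (s1 := false) (s2 := false) (a := 1) (b := 2) (c := 3) (cn := .npn) (n1 := ndN0q1) (n2 := ndN4q2) (pc := pcN3) (cut := Cut.none) (xt := Ext.none) (P1 := 536870912) (W1 := 536870912) (P2 := 1073741824) (W2 := 536870912) (P3 := 335544320) (W3 := 67108864) (N0 := 3)
    rfl k0_mm_123

noncomputable def f_mm_133 : ℕ → ℕ → ℕ → ℕ → Bool := onCell 536870912 536870912 0 1230186008 335544320 67108864
    (rowN 3 0 true false false .dn 1 3 3 (qsf 536870912 536870912 0 1230186008 3) ndN0q1 ndN4q3 pcN3 Cut.none Ext.none)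

def k0_mm_133 : ∃ t, chk3 f_mm_133 t 1 1 1 = true :=
  ⟨(l 4), by decide +kernel⟩

theorem c_mm_133 : CertN 536870912 536870912 0 1230186008 335544320 67108864 3 true false false .dn 1 3 3
    ndN0q1 ndN4q3 pcN3 Cut.none Ext.none :=
  certN0 (fam := true) (s1 := false) (s2 := false) (a := 1) (b := 3) (c := 3) (cn := .dn) (n1 := ndN0q1) (n2 := ndN4q3) (pc := pcN3) (cut := Cut.none) (xt := Ext.none) (P1 := 536870912) (W1 := 536870912) (P2 := 0) (W2 := 1230186008) (P3 := 335544320) (W3 := 67108864) (N0 := 3)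
    rfl k0_mm_133

noncomputable def f_mm_202 : ℕ → ℕ → ℕ → ℕ → Bool := onCell 0 536870912 0 536870912 335544320 67108864
    (rowN 3 0 true false false .pp 2 0 2 (qsf 0 536870912 0 536870912 2) ndN0q2 ndN4q0 pcN2 Cut.none Ext.none)

def k0_mm_202 : ∃ t, chk3 f_mm_202 t 1 1 1 = true :=
  ⟨(l 4), by decide +kernel⟩

theorem c_mm_202 : CertN 0 536870912 0 536870912 335544320 67108864 3 true false false .pp 2 0 2
    ndN0q2 ndN4q0 pcN2 Cut.none Ext.none :=
  certN0 (fam := true) (s1 := false) (s2 := false) (a := 2) (b := 0) (c := 2) (cn := .pp) (n1 := ndN0q2) (n2 := ndN4q0) (pc := pcN2) (cut := Cut.none) (xt := Ext.none) (P1 := 0) (W1 := 536870912) (P2 := 0) (W2 := 536870912) (P3 := 335544320) (W3 := 67108864) (N0 := 3)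
    rfl k0_mm_202

noncomputable def f_mm_203 : ℕ → ℕ → ℕ → ℕ → Bool := onCell 0 536870912 0 536870912 335544320 67108864
    (rowN 3 0 true false false .up 2 0 3 (qsf 0 536870912 0 536870912 3) ndN0q2 ndN4q0 pcN3 Cut.none Ext.none)

def k0_mm_203 : ∃ t, chk3 f_mm_203 t 1 1 1 = true :=
  ⟨(l 4), by decide +kernel⟩

theorem c_mm_203 : CertN 0 536870912 0 536870912 335544320 67108864 3 true false false .up 2 0 3
    ndN0q2 ndN4q0 pcN3 Cut.none Ext.none :=
  certN0 (fam := true) (s1 := false) (s2 := false) (a := 2) (b := 0) (c := 3) (cn := .up) (n1 := ndN0q2) (n2 := ndN4q0) (pc := pcN3) (cut := Cut.none) (xt := Ext.none) (P1 := 0) (W1 := 536870912) (P2 := 0) (W2 := 536870912) (P3 := 335544320) (W3 := 67108864) (N0 := 3)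
    rfl k0_mm_203

noncomputable def f_mm_213 : ℕ → ℕ → ℕ → ℕ → Bool := onCell 0 536870912 536870912 536870912 335544320 67108864
    (rowN 3 0 true false false .pnn 2 1 3 (qsf 0 536870912 536870912 536870912 3) ndN0q2 ndN4q1 pcN3 Cut.none Ext.none)

def k0_mm_213 : ∃ t, chk3 f_mm_213 t 1 1 1 = true :=
  ⟨(l 4), by decide +kernel⟩

theorem c_mm_213 : CertN 0 536870912 536870912 536870912 335544320 67108864 3 true false false .pnn 2 1 3
    ndN0q2 ndN4q1 pcN3 Cut.none Ext.none :=
  certN0 (fam := true) (s1 := false) (s2 := false) (a := 2) (b := 1) (c := 3) (cn := .pnn) (n1 := ndN0q2) (n2 := ndN4q1) (pc := pcN3) (cut := Cut.none) (xt := Ext.none) (P1 := 0) (W1 := 536870912) (P2 := 536870912) (W2 := 536870912) (P3 := 335544320) (W3 := 67108864) (N0 := 3)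
    rfl k0_mm_213

end Pool.Agent.Strip051.G.I5_16_3_8.Tab.C.NA04

namespace Pool.Agent.Strip051.G.I5_16_3_8.Tab.C.NA11

open Pool.Agent.Strip051.PB Pool.Agent.Strip051.PB.T
open Pool.Agent.Strip051.G.I5_16_3_8.Tab

noncomputable def f_pp_001 : ℕ → ℕ → ℕ → ℕ → Bool := onCell 0 536870912 0 536870912 335544320 67108864
    (rowN 3 0 true true true .up 0 0 1 (qsf 0 536870912 0 536870912 1) ndN1q0 ndN1q0 pcN1 Cut.none Ext.none)

def k0_pp_001 : ∃ t, chk3 f_pp_001 t 1 1 1 = true :=
  ⟨(l 4), by decide +kernel⟩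

theorem c_pp_001 : CertN 0 536870912 0 536870912 335544320 67108864 3 true true true .up 0 0 1
    ndN1q0 ndN1q0 pcN1 Cut.none Ext.none :=
  certN0 (fam := true) (s1 := true) (s2 := true) (a := 0) (b := 0) (c := 1) (cn := .up) (n1 := ndN1q0) (n2 := ndN1q0) (pc := pcN1) (cut := Cut.none) (xt := Ext.none) (P1 := 0) (W1 := 536870912) (P2 := 0) (W2 := 536870912) (P3 := 335544320) (W3 := 67108864) (N0 := 3)
    rfl k0_pp_001

noncomputable def f_pp_011 : ℕ → ℕ → ℕ → ℕ → Bool := onCell 0 536870912 536870912 536870912 335544320 67108864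
    (rowN 3 0 true true true .pnn 0 1 1 (qsf 0 536870912 536870912 536870912 1) ndN1q0 ndN1q1 pcN1 Cut.none Ext.none)

def k0_pp_011 : ∃ t, chk3 f_pp_011 t 1 1 1 = true :=
  ⟨(l 4), by decide +kernel⟩

theorem c_pp_011 : CertN 0 536870912 536870912 536870912 335544320 67108864 3 true true true .pnn 0 1 1
    ndN1q0 ndN1q1 pcN1 Cut.none Ext.none :=
  certN0 (fam := true) (s1 := true) (s2 := true) (a := 0) (b := 1) (c := 1) (cn := .pnn) (n1 := ndN1q0) (n2 := ndN1q1) (pc := pcN1) (cut := Cut.none) (xt := Ext.none) (P1 := 0) (W1 := 536870912) (P2 := 536870912) (W2 := 536870912) (P3 := 335544320) (W3 := 67108864) (N0 := 3)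
    rfl k0_pp_011

noncomputable def f_pp_012 : ℕ → ℕ → ℕ → ℕ → Bool := onCell 0 536870912 536870912 536870912 335544320 67108864
    (rowN 3 0 true true true .pnp 0 1 2 (qsf 0 536870912 536870912 536870912 2) ndN1q0 ndN1q1 pcN2 Cut.none Ext.none)

def k0_pp_012 : ∃ t, chk3 f_pp_012 t 1 1 1 = true :=
  ⟨(l 4), by decide +kernel⟩

theorem c_pp_012 : CertN 0 536870912 536870912 536870912 335544320 67108864 3 true true true .pnp 0 1 2
    ndN1q0 ndN1q1 pcN2 Cut.none Ext.none :=
  certN0 (fam := true) (s1 := true) (s2 := true) (a := 0) (b := 1) (c := 2) (cn := .pnp) (n1 := ndN1q0) (n2 := ndN1q1) (pc := pcN2) (cut := Cut.none) (xt := Ext.none) (P1 := 0) (W1 := 536870912) (P2 := 536870912) (W2 := 536870912) (P3 := 335544320) (W3 := 67108864) (N0 := 3)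
    rfl k0_pp_012

noncomputable def cut_pp_022_a : Cut := Cut.of [[⟨0, 0, 0, 67108864⟩, ⟨1, 1, 0, 67108864⟩, ⟨2, 1, 0, 67108864⟩]]

noncomputable def f_pp_022_a : ℕ → ℕ → ℕ → ℕ → Bool := onCell 0 536870912 0 536870912 335544320 67108864
    (rowN 3 0 true true true .pp 0 2 2 (qsf 0 536870912 0 536870912 2) ndN1q0 ndN1q2a pcN2 cut_pp_022_a Ext.none)

def k0_pp_022_a : ∃ t, chk3 f_pp_022_a t 1 1 1 = true :=
  ⟨(a (b (a (a (b (a (b (l 16503008) (a (l 16491336) (l 16497720))) (l 16524392)) (b (a (a (l 16510576) (l 16517824)) (l 16539464)) (a (a (l 16579432) (l 16587888)) (l 38352403671)))) (b (a (l 16539512) (l 4)) (l 4))) (l 4)) (a (a (a (a (b (b (a (l 16633672) (l 16616792)) (a (b (l 16602896) (l 16669768)) (b (l 16607424) (l 16655016)))) (b (b (a (b (l 16648312) (l 16684048)) (l 16706472)) (a (b (a (l 6) (l 16680312)) (l 6)) (l 4))) (l 6))) (b (b (b (l 16573848) (l 16618328)) (b (l 16645048) (l 4))) (l 4))) (b (l 4) (l 4))) (l 4)) (l 4))) (l 4)), by decide +kernel⟩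

theorem c_pp_022_a : CertN 0 536870912 0 536870912 335544320 67108864 3 true true true .pp 0 2 2
    ndN1q0 ndN1q2a pcN2 cut_pp_022_a Ext.none :=
  certN0 (fam := true) (s1 := true) (s2 := true) (a := 0) (b := 2) (c := 2) (cn := .pp) (n1 := ndN1q0) (n2 := ndN1q2a) (pc := pcN2) (cut := cut_pp_022_a) (xt := Ext.none) (P1 := 0) (W1 := 536870912) (P2 := 0) (W2 := 536870912) (P3 := 335544320) (W3 := 67108864) (N0 := 3)
    rfl k0_pp_022_a

noncomputable def cut_pp_022_b : Cut := Cut.of [[⟨0, 0, 0, 67108864⟩, ⟨1, 1, 0, 67108864⟩, ⟨2, 1, 0, 67108864⟩]]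

noncomputable def f_pp_022_b : ℕ → ℕ → ℕ → ℕ → Bool := onCell 0 536870912 1239849684 370763052 335544320 67108864
    (rowN 3 0 true true true .pp 0 2 2 (qsf 0 536870912 1239849684 370763052 2) ndN1q0 ndN1q2b pcN2 cut_pp_022_b Ext.none)

def k0_pp_022_b : ∃ t, chk3 f_pp_022_b t 1 1 1 = true :=
  ⟨(a (a (b (b (a (a (b (a (l 16501584) (l 16444336)) (a (l 16392328) (l 16380096))) (b (l 16475192) (l 16379256))) (a (b (l 16484968) (l 16459000)) (l 4))) (a (b (a (a (l 16314896) (l 16328168)) (l 16372000)) (a (l 16415496) (l 4))) (l 4))) (b (a (a (b (l 16427496) (l 4)) (l 4)) (l 4)) (l 4))) (l 4)) (l 4)), by decide +kernel⟩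

theorem c_pp_022_b : CertN 0 536870912 1239849684 370763052 335544320 67108864 3 true true true .pp 0 2 2
    ndN1q0 ndN1q2b pcN2 cut_pp_022_b Ext.none :=
  certN0 (fam := true) (s1 := true) (s2 := true) (a := 0) (b := 2) (c := 2) (cn := .pp) (n1 := ndN1q0) (n2 := ndN1q2b) (pc := pcN2) (cut := cut_pp_022_b) (xt := Ext.none) (P1 := 0) (W1 := 536870912) (P2 := 1239849684) (W2 := 370763052) (P3 := 335544320) (W3 := 67108864) (N0 := 3)
    rfl k0_pp_022_b

noncomputable def f_pp_023_a : ℕ → ℕ → ℕ → ℕ → Bool := onCell 1610612736 536870912 0 536870912 335544320 67108864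
    (rowN 3 2 true true true .up 0 2 3 (qsf 0 536870912 0 536870912 3) ndN1q0 ndN1q2a pcN3 Cut.none Ext.none)

def k0_pp_023_a : ∃ t, chk3 f_pp_023_a t 1 1 1 = true :=
  ⟨(l 4), by decide +kernel⟩

theorem c_pp_023_a : CertN 0 536870912 0 536870912 335544320 67108864 3 true true true .up 0 2 3
    ndN1q0 ndN1q2a pcN3 Cut.none Ext.none :=
  certN2 (fam := true) (s1 := true) (s2 := true) (a := 0) (b := 2) (c := 3) (cn := .up) (n1 := ndN1q0) (n2 := ndN1q2a) (pc := pcN3) (cut := Cut.none) (xt := Ext.none) (P1 := 0) (W1 := 536870912) (P2 := 0) (W2 := 536870912) (P3 := 335544320) (W3 := 67108864) (N0 := 3)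
    rfl (fun _ => rfl) k0_pp_023_a

noncomputable def f_pp_023_b : ℕ → ℕ → ℕ → ℕ → Bool := onCell 1610612736 536870912 1239849684 370763052 335544320 67108864
    (rowN 3 2 true true true .up 0 2 3 (qsf 0 536870912 1239849684 370763052 3) ndN1q0 ndN1q2b pcN3 Cut.none Ext.none)

def k0_pp_023_b : ∃ t, chk3 f_pp_023_b t 1 1 1 = true :=
  ⟨(l 4), by decide +kernel⟩

theorem c_pp_023_b : CertN 0 536870912 1239849684 370763052 335544320 67108864 3 true true true .up 0 2 3
    ndN1q0 ndN1q2b pcN3 Cut.none Ext.none :=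
  certN2 (fam := true) (s1 := true) (s2 := true) (a := 0) (b := 2) (c := 3) (cn := .up) (n1 := ndN1q0) (n2 := ndN1q2b) (pc := pcN3) (cut := Cut.none) (xt := Ext.none) (P1 := 0) (W1 := 536870912) (P2 := 1239849684) (W2 := 370763052) (P3 := 335544320) (W3 := 67108864) (N0 := 3)
    rfl (fun _ => rfl) k0_pp_023_b

noncomputable def f_pp_033 : ℕ → ℕ → ℕ → ℕ → Bool := onCell 0 536870912 1610612736 536870912 335544320 67108864
    (rowN 3 0 true true true .pnn 0 3 3 (qsf 0 536870912 1610612736 536870912 3) ndN1q0 ndN1q3 pcN3 Cut.none Ext.none)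

def k0_pp_033 : ∃ t, chk3 f_pp_033 t 1 1 1 = true :=
  ⟨(a (l 4) (l 4)), by decide +kernel⟩

theorem c_pp_033 : CertN 0 536870912 1610612736 536870912 335544320 67108864 3 true true true .pnn 0 3 3
    ndN1q0 ndN1q3 pcN3 Cut.none Ext.none :=
  certN0 (fam := true) (s1 := true) (s2 := true) (a := 0) (b := 3) (c := 3) (cn := .pnn) (n1 := ndN1q0) (n2 := ndN1q3) (pc := pcN3) (cut := Cut.none) (xt := Ext.none) (P1 := 0) (W1 := 536870912) (P2 := 1610612736) (W2 := 536870912) (P3 := 335544320) (W3 := 67108864) (N0 := 3)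
    rfl k0_pp_033

noncomputable def f_pp_101 : ℕ → ℕ → ℕ → ℕ → Bool := onCell 536870912 536870912 0 536870912 335544320 67108864
    (rowN 3 0 true true true .npn 1 0 1 (qsf 536870912 536870912 0 536870912 1) ndN1q1 ndN1q0 pcN1 Cut.none Ext.none)

def k0_pp_101 : ∃ t, chk3 f_pp_101 t 1 1 1 = true :=
  ⟨(l 4), by decide +kernel⟩

theorem c_pp_101 : CertN 536870912 536870912 0 536870912 335544320 67108864 3 true true true .npn 1 0 1
    ndN1q1 ndN1q0 pcN1 Cut.none Ext.none :=
  certN0 (fam := true) (s1 := true) (s2 := true) (a := 1) (b := 0) (c := 1) (cn := .npn) (n1 := ndN1q1) (n2 := ndN1q0) (pc := pcN1) (cut := Cut.none) (xt := Ext.none) (P1 := 536870912) (W1 := 536870912) (P2 := 0) (W2 := 536870912) (P3 := 335544320) (W3 := 67108864) (N0 := 3)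
    rfl k0_pp_101

noncomputable def f_pp_102 : ℕ → ℕ → ℕ → ℕ → Bool := onCell 536870912 536870912 0 536870912 335544320 67108864
    (rowN 3 0 true true true .npp 1 0 2 (qsf 536870912 536870912 0 536870912 2) ndN1q1 ndN1q0 pcN2 Cut.none Ext.none)

def k0_pp_102 : ∃ t, chk3 f_pp_102 t 1 1 1 = true :=
  ⟨(l 4), by decide +kernel⟩

theorem c_pp_102 : CertN 536870912 536870912 0 536870912 335544320 67108864 3 true true true .npp 1 0 2
    ndN1q1 ndN1q0 pcN2 Cut.none Ext.none :=
  certN0 (fam := true) (s1 := true) (s2 := true) (a := 1) (b := 0) (c := 2) (cn := .npp) (n1 := ndN1q1) (n2 := ndN1q0) (pc := pcN2) (cut := Cut.none) (xt := Ext.none) (P1 := 536870912) (W1 := 536870912) (P2 := 0) (W2 := 536870912) (P3 := 335544320) (W3 := 67108864) (N0 := 3)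
    rfl k0_pp_102

noncomputable def f_pp_112 : ℕ → ℕ → ℕ → ℕ → Bool := onCell 536870912 536870912 536870912 536870912 335544320 67108864
    (rowN 3 0 true true true .dn 1 1 2 (qsf 536870912 536870912 536870912 536870912 2) ndN1q1 ndN1q1 pcN2 Cut.none Ext.none)

def k0_pp_112 : ∃ t, chk3 f_pp_112 t 1 1 1 = true :=
  ⟨(l 4), by decide +kernel⟩

theorem c_pp_112 : CertN 536870912 536870912 536870912 536870912 335544320 67108864 3 true true true .dn 1 1 2
    ndN1q1 ndN1q1 pcN2 Cut.none Ext.none :=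
  certN0 (fam := true) (s1 := true) (s2 := true) (a := 1) (b := 1) (c := 2) (cn := .dn) (n1 := ndN1q1) (n2 := ndN1q1) (pc := pcN2) (cut := Cut.none) (xt := Ext.none) (P1 := 536870912) (W1 := 536870912) (P2 := 536870912) (W2 := 536870912) (P3 := 335544320) (W3 := 67108864) (N0 := 3)
    rfl k0_pp_112

noncomputable def f_pp_113 : ℕ → ℕ → ℕ → ℕ → Bool := onCell 536870912 536870912 536870912 536870912 335544320 67108864
    (rowN 3 0 true true true .nn 1 1 3 (qsf 536870912 536870912 536870912 536870912 3) ndN1q1 ndN1q1 pcN3 Cut.none Ext.none)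

def k0_pp_113 : ∃ t, chk3 f_pp_113 t 1 1 1 = true :=
  ⟨(l 4), by decide +kernel⟩

theorem c_pp_113 : CertN 536870912 536870912 536870912 536870912 335544320 67108864 3 true true true .nn 1 1 3
    ndN1q1 ndN1q1 pcN3 Cut.none Ext.none :=
  certN0 (fam := true) (s1 := true) (s2 := true) (a := 1) (b := 1) (c := 3) (cn := .nn) (n1 := ndN1q1) (n2 := ndN1q1) (pc := pcN3) (cut := Cut.none) (xt := Ext.none) (P1 := 536870912) (W1 := 536870912) (P2 := 536870912) (W2 := 536870912) (P3 := 335544320) (W3 := 67108864) (N0 := 3)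
    rfl k0_pp_113

noncomputable def f_pp_123_a : ℕ → ℕ → ℕ → ℕ → Bool := onCell 536870912 536870912 0 536870912 335544320 67108864
    (rowN 3 0 true true true .npn 1 2 3 (qsf 536870912 536870912 0 536870912 3) ndN1q1 ndN1q2a pcN3 Cut.none Ext.none)

def k0_pp_123_a : ∃ t, chk3 f_pp_123_a t 1 1 1 = true :=
  ⟨(l 4), by decide +kernel⟩

theorem c_pp_123_a : CertN 536870912 536870912 0 536870912 335544320 67108864 3 true true true .npn 1 2 3
    ndN1q1 ndN1q2a pcN3 Cut.none Ext.none :=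
  certN0 (fam := true) (s1 := true) (s2 := true) (a := 1) (b := 2) (c := 3) (cn := .npn) (n1 := ndN1q1) (n2 := ndN1q2a) (pc := pcN3) (cut := Cut.none) (xt := Ext.none) (P1 := 536870912) (W1 := 536870912) (P2 := 0) (W2 := 536870912) (P3 := 335544320) (W3 := 67108864) (N0 := 3)
    rfl k0_pp_123_a

noncomputable def f_pp_123_b : ℕ → ℕ → ℕ → ℕ → Bool := onCell 536870912 536870912 1239849684 370763052 335544320 67108864
    (rowN 3 0 true true true .npn 1 2 3 (qsf 536870912 536870912 1239849684 370763052 3) ndN1q1 ndN1q2b pcN3 Cut.none Ext.none)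

def k0_pp_123_b : ∃ t, chk3 f_pp_123_b t 1 1 1 = true :=
  ⟨(l 4), by decide +kernel⟩

theorem c_pp_123_b : CertN 536870912 536870912 1239849684 370763052 335544320 67108864 3 true true true .npn 1 2 3
    ndN1q1 ndN1q2b pcN3 Cut.none Ext.none :=
  certN0 (fam := true) (s1 := true) (s2 := true) (a := 1) (b := 2) (c := 3) (cn := .npn) (n1 := ndN1q1) (n2 := ndN1q2b) (pc := pcN3) (cut := Cut.none) (xt := Ext.none) (P1 := 536870912) (W1 := 536870912) (P2 := 1239849684) (W2 := 370763052) (P3 := 335544320) (W3 := 67108864) (N0 := 3)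
    rfl k0_pp_123_b

noncomputable def f_pp_133 : ℕ → ℕ → ℕ → ℕ → Bool := onCell 536870912 536870912 1610612736 536870912 335544320 67108864
    (rowN 3 0 true true true .dn 1 3 3 (qsf 536870912 536870912 1610612736 536870912 3) ndN1q1 ndN1q3 pcN3 Cut.none Ext.none)

def k0_pp_133 : ∃ t, chk3 f_pp_133 t 1 1 1 = true :=
  ⟨(l 4), by decide +kernel⟩

theorem c_pp_133 : CertN 536870912 536870912 1610612736 536870912 335544320 67108864 3 true true true .dn 1 3 3
    ndN1q1 ndN1q3 pcN3 Cut.none Ext.none :=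
  certN0 (fam := true) (s1 := true) (s2 := true) (a := 1) (b := 3) (c := 3) (cn := .dn) (n1 := ndN1q1) (n2 := ndN1q3) (pc := pcN3) (cut := Cut.none) (xt := Ext.none) (P1 := 536870912) (W1 := 536870912) (P2 := 1610612736) (W2 := 536870912) (P3 := 335544320) (W3 := 67108864) (N0 := 3)
    rfl k0_pp_133

noncomputable def f_pp_202_a : ℕ → ℕ → ℕ → ℕ → Bool := onCell 0 536870912 0 536870912 335544320 67108864
    (rowN 3 0 true true true .pp 2 0 2 (qsf 0 536870912 0 536870912 2) ndN1q2a ndN1q0 pcN2 Cut.none Ext.none)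

def k0_pp_202_a : ∃ t, chk3 f_pp_202_a t 1 1 1 = true :=
  ⟨(l 5), by decide +kernel⟩

theorem c_pp_202_a : CertN 0 536870912 0 536870912 335544320 67108864 3 true true true .pp 2 0 2
    ndN1q2a ndN1q0 pcN2 Cut.none Ext.none :=
  certN0 (fam := true) (s1 := true) (s2 := true) (a := 2) (b := 0) (c := 2) (cn := .pp) (n1 := ndN1q2a) (n2 := ndN1q0) (pc := pcN2) (cut := Cut.none) (xt := Ext.none) (P1 := 0) (W1 := 536870912) (P2 := 0) (W2 := 536870912) (P3 := 335544320) (W3 := 67108864) (N0 := 3)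
    rfl k0_pp_202_a

noncomputable def f_pp_202_b : ℕ → ℕ → ℕ → ℕ → Bool := onCell 1239849684 370763052 0 536870912 335544320 67108864
    (rowN 3 0 true true true .pp 2 0 2 (qsf 1239849684 370763052 0 536870912 2) ndN1q2b ndN1q0 pcN2 Cut.none Ext.none)

def k0_pp_202_b : ∃ t, chk3 f_pp_202_b t 1 1 1 = true :=
  ⟨(l 5), by decide +kernel⟩

theorem c_pp_202_b : CertN 1239849684 370763052 0 536870912 335544320 67108864 3 true true true .pp 2 0 2
    ndN1q2b ndN1q0 pcN2 Cut.none Ext.none :=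
  certN0 (fam := true) (s1 := true) (s2 := true) (a := 2) (b := 0) (c := 2) (cn := .pp) (n1 := ndN1q2b) (n2 := ndN1q0) (pc := pcN2) (cut := Cut.none) (xt := Ext.none) (P1 := 1239849684) (W1 := 370763052) (P2 := 0) (W2 := 536870912) (P3 := 335544320) (W3 := 67108864) (N0 := 3)
    rfl k0_pp_202_b

noncomputable def f_pp_203_a : ℕ → ℕ → ℕ → ℕ → Bool := onCell 0 536870912 0 536870912 335544320 67108864
    (rowN 3 0 true true true .up 2 0 3 (qsf 0 536870912 0 536870912 3) ndN1q2a ndN1q0 pcN3 Cut.none Ext.none)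

def k0_pp_203_a : ∃ t, chk3 f_pp_203_a t 1 1 1 = true :=
  ⟨(l 5), by decide +kernel⟩

theorem c_pp_203_a : CertN 0 536870912 0 536870912 335544320 67108864 3 true true true .up 2 0 3
    ndN1q2a ndN1q0 pcN3 Cut.none Ext.none :=
  certN0 (fam := true) (s1 := true) (s2 := true) (a := 2) (b := 0) (c := 3) (cn := .up) (n1 := ndN1q2a) (n2 := ndN1q0) (pc := pcN3) (cut := Cut.none) (xt := Ext.none) (P1 := 0) (W1 := 536870912) (P2 := 0) (W2 := 536870912) (P3 := 335544320) (W3 := 67108864) (N0 := 3)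
    rfl k0_pp_203_a

noncomputable def f_pp_203_b : ℕ → ℕ → ℕ → ℕ → Bool := onCell 1239849684 370763052 0 536870912 335544320 67108864
    (rowN 3 0 true true true .up 2 0 3 (qsf 1239849684 370763052 0 536870912 3) ndN1q2b ndN1q0 pcN3 Cut.none Ext.none)

def k0_pp_203_b : ∃ t, chk3 f_pp_203_b t 1 1 1 = true :=
  ⟨(l 5), by decide +kernel⟩

theorem c_pp_203_b : CertN 1239849684 370763052 0 536870912 335544320 67108864 3 true true true .up 2 0 3
    ndN1q2b ndN1q0 pcN3 Cut.none Ext.none :=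
  certN0 (fam := true) (s1 := true) (s2 := true) (a := 2) (b := 0) (c := 3) (cn := .up) (n1 := ndN1q2b) (n2 := ndN1q0) (pc := pcN3) (cut := Cut.none) (xt := Ext.none) (P1 := 1239849684) (W1 := 370763052) (P2 := 0) (W2 := 536870912) (P3 := 335544320) (W3 := 67108864) (N0 := 3)
    rfl k0_pp_203_b

noncomputable def f_pp_213_a : ℕ → ℕ → ℕ → ℕ → Bool := onCell 0 536870912 536870912 536870912 335544320 67108864
    (rowN 3 0 true true true .pnn 2 1 3 (qsf 0 536870912 536870912 536870912 3) ndN1q2a ndN1q1 pcN3 Cut.none Ext.none)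

def k0_pp_213_a : ∃ t, chk3 f_pp_213_a t 1 1 1 = true :=
  ⟨(l 4), by decide +kernel⟩

theorem c_pp_213_a : CertN 0 536870912 536870912 536870912 335544320 67108864 3 true true true .pnn 2 1 3
    ndN1q2a ndN1q1 pcN3 Cut.none Ext.none :=
  certN0 (fam := true) (s1 := true) (s2 := true) (a := 2) (b := 1) (c := 3) (cn := .pnn) (n1 := ndN1q2a) (n2 := ndN1q1) (pc := pcN3) (cut := Cut.none) (xt := Ext.none) (P1 := 0) (W1 := 536870912) (P2 := 536870912) (W2 := 536870912) (P3 := 335544320) (W3 := 67108864) (N0 := 3)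
    rfl k0_pp_213_a

noncomputable def f_pp_213_b : ℕ → ℕ → ℕ → ℕ → Bool := onCell 1239849684 370763052 536870912 536870912 335544320 67108864
    (rowN 3 0 true true true .pnn 2 1 3 (qsf 1239849684 370763052 536870912 536870912 3) ndN1q2b ndN1q1 pcN3 Cut.none Ext.none)

def k0_pp_213_b : ∃ t, chk3 f_pp_213_b t 1 1 1 = true :=
  ⟨(l 4), by decide +kernel⟩

theorem c_pp_213_b : CertN 1239849684 370763052 536870912 536870912 335544320 67108864 3 true true true .pnn 2 1 3
    ndN1q2b ndN1q1 pcN3 Cut.none Ext.none :=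
  certN0 (fam := true) (s1 := true) (s2 := true) (a := 2) (b := 1) (c := 3) (cn := .pnn) (n1 := ndN1q2b) (n2 := ndN1q1) (pc := pcN3) (cut := Cut.none) (xt := Ext.none) (P1 := 1239849684) (W1 := 370763052) (P2 := 536870912) (W2 := 536870912) (P3 := 335544320) (W3 := 67108864) (N0 := 3)
    rfl k0_pp_213_b

noncomputable def f_pp_303 : ℕ → ℕ → ℕ → ℕ → Bool := onCell 1610612736 536870912 0 536870912 335544320 67108864
    (rowN 3 0 true true true .npn 3 0 3 (qsf 1610612736 536870912 0 536870912 3) ndN1q3 ndN1q0 pcN3 Cut.none Ext.none)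

def k0_pp_303 : ∃ t, chk3 f_pp_303 t 1 1 1 = true :=
  ⟨(l 5), by decide +kernel⟩

theorem c_pp_303 : CertN 1610612736 536870912 0 536870912 335544320 67108864 3 true true true .npn 3 0 3
    ndN1q3 ndN1q0 pcN3 Cut.none Ext.none :=
  certN0 (fam := true) (s1 := true) (s2 := true) (a := 3) (b := 0) (c := 3) (cn := .npn) (n1 := ndN1q3) (n2 := ndN1q0) (pc := pcN3) (cut := Cut.none) (xt := Ext.none) (P1 := 1610612736) (W1 := 536870912) (P2 := 0) (W2 := 536870912) (P3 := 335544320) (W3 := 67108864) (N0 := 3)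
    rfl k0_pp_303

noncomputable def f_pp_313 : ℕ → ℕ → ℕ → ℕ → Bool := onCell 1610612736 536870912 536870912 536870912 335544320 67108864
    (rowN 3 0 true true true .dn 3 1 3 (qsf 1610612736 536870912 536870912 536870912 3) ndN1q3 ndN1q1 pcN3 Cut.none Ext.none)

def k0_pp_313 : ∃ t, chk3 f_pp_313 t 1 1 1 = true :=
  ⟨(l 4), by decide +kernel⟩

theorem c_pp_313 : CertN 1610612736 536870912 536870912 536870912 335544320 67108864 3 true true true .dn 3 1 3
    ndN1q3 ndN1q1 pcN3 Cut.none Ext.none :=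
  certN0 (fam := true) (s1 := true) (s2 := true) (a := 3) (b := 1) (c := 3) (cn := .dn) (n1 := ndN1q3) (n2 := ndN1q1) (pc := pcN3) (cut := Cut.none) (xt := Ext.none) (P1 := 1610612736) (W1 := 536870912) (P2 := 536870912) (W2 := 536870912) (P3 := 335544320) (W3 := 67108864) (N0 := 3)
    rfl k0_pp_313

noncomputable def f_pm_001 : ℕ → ℕ → ℕ → ℕ → Bool := onCell 0 536870912 0 536870912 335544320 67108864
    (rowN 3 0 true true false .up 0 0 1 (qsf 0 536870912 0 536870912 1) ndN1q0 ndN1q0 pcN1 Cut.none Ext.none)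

def k0_pm_001 : ∃ t, chk3 f_pm_001 t 1 1 1 = true :=
  ⟨(l 3), by decide +kernel⟩

theorem c_pm_001 : CertN 0 536870912 0 536870912 335544320 67108864 3 true true false .up 0 0 1
    ndN1q0 ndN1q0 pcN1 Cut.none Ext.none :=
  certN0 (fam := true) (s1 := true) (s2 := false) (a := 0) (b := 0) (c := 1) (cn := .up) (n1 := ndN1q0) (n2 := ndN1q0) (pc := pcN1) (cut := Cut.none) (xt := Ext.none) (P1 := 0) (W1 := 536870912) (P2 := 0) (W2 := 536870912) (P3 := 335544320) (W3 := 67108864) (N0 := 3)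
    rfl k0_pm_001

noncomputable def f_pm_011 : ℕ → ℕ → ℕ → ℕ → Bool := onCell 0 536870912 536870912 536870912 335544320 67108864
    (rowN 3 1 true true false .pnn 0 1 1 (qsf 0 536870912 536870912 536870912 1) ndN1q0 ndN1q1 pcN1 Cut.none Ext.none)

def k0_pm_011 : ∃ t, chk3 f_pm_011 t 1 1 1 = true :=
  ⟨(l 3), by decide +kernel⟩

theorem c_pm_011 : CertN 0 536870912 536870912 536870912 335544320 67108864 3 true true false .pnn 0 1 1
    ndN1q0 ndN1q1 pcN1 Cut.none Ext.none :=
  certN1 (fam := true) (s1 := true) (s2 := false) (a := 0) (b := 1) (c := 1) (cn := .pnn) (n1 := ndN1q0) (n2 := ndN1q1) (pc := pcN1) (cut := Cut.none) (xt := Ext.none) (P1 := 0) (W1 := 536870912) (P2 := 536870912) (W2 := 536870912) (P3 := 335544320) (W3 := 67108864) (N0 := 3)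
    rfl (fun _ => rfl) k0_pm_011

noncomputable def f_pm_012 : ℕ → ℕ → ℕ → ℕ → Bool := onCell 1073741824 536870912 536870912 536870912 335544320 67108864
    (rowN 3 2 true true false .pnp 0 1 2 (qsf 0 536870912 536870912 536870912 2) ndN1q0 ndN1q1 pcN2 Cut.none Ext.none)

def k0_pm_012 : ∃ t, chk3 f_pm_012 t 1 1 1 = true :=
  ⟨(a (a (l 3) (b (a (a (a (l 3) (a (l 3) (b (l 2) (l 17058856)))) (l 17051528)) (l 17011048)) (a (a (a (l 3) (a (l 3) (a (l 3) (b (l 17190968) (b (l 16811384) (a (l 3) (l 16616392))))))) (b (l 17043752) (b (l 16778112) (l 16596496)))) (b (l 16986304) (b (l 16685256) (l 16453840)))))) (b (b (l 2) (l 16998200)) (b (a (l 16892968) (l 16973080)) (a (b (l 16604096) (l 16190840)) (l 17167312))))), by decide +kernel⟩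

theorem c_pm_012 : CertN 0 536870912 536870912 536870912 335544320 67108864 3 true true false .pnp 0 1 2
    ndN1q0 ndN1q1 pcN2 Cut.none Ext.none :=
  certN2 (fam := true) (s1 := true) (s2 := false) (a := 0) (b := 1) (c := 2) (cn := .pnp) (n1 := ndN1q0) (n2 := ndN1q1) (pc := pcN2) (cut := Cut.none) (xt := Ext.none) (P1 := 0) (W1 := 536870912) (P2 := 536870912) (W2 := 536870912) (P3 := 335544320) (W3 := 67108864) (N0 := 3)
    rfl (fun _ => rfl) k0_pm_012

noncomputable def cut_pm_022_a : Cut := Cut.of [[⟨0, 0, 0, 67108864⟩, ⟨1, 1, 0, 67108864⟩, ⟨2, 1, 0, 67108864⟩]]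

noncomputable def f_pm_022_a : ℕ → ℕ → ℕ → ℕ → Bool := onCell 1073741824 536870912 0 536870912 335544320 67108864
    (rowN 3 2 true true false .pp 0 2 2 (qsf 0 536870912 0 536870912 2) ndN1q0 ndN1q2a pcN2 cut_pm_022_a Ext.none)

def k0_pm_022_a : ∃ t, chk3 f_pm_022_a t 2 1 1 = true :=
  ⟨(b (a (a (l 1) (a (l 1) (b (l 1) (b (l 1) (a (l 1) (b (l 1) (l 197064743831))))))) (a (a (a (b (l 1) (b (a (l 1) (b (l 189011673959) (l 229813888279))) (b (a (l 213170889607) (l 16544384)) (l 266857996823)))) (b (b (l 179347975783) (l 219076442503)) (b (b (l 224445129335) (l 16523648)) (a (l 16538136) (a (l 16530832) (l 16524792)))))) (b (b (l 16505040) (l 16513648)) (b (l 16503664) (l 16516896)))) (b (l 16478608) (l 16507240)))) (a (a (b (l 1) (a (b (l 1) (l 6)) (a (b (b (l 1) (l 6)) (l 6)) (a (b (b (l 1) (l 6)) (l 6)) (b (b (b (l 1) (l 204581163159)) (b (l 16674680) (l 16666376))) (b (l 16680216) (l 16706024))))))) (b (a (b (l 1) (a (b (l 1) (a (l 1) (b (l 153578351783) (l 184716878647))))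 (b (a (l 156799515415) (l 202433562551)) (b (l 215318505047) (l 16635112))))) (a (b (b (l 170221228247) (a (l 187938025271) (l 220150268327))) (b (a (l 241625131095) (l 16586080)) (l 16598336))) (b (b (a (l 223908342055) (l 16561440)) (l 16569904)) (l 16623256)))) (a (b (b (a (a (b (l 211023580855) (l 16665216)) (b (l 16630440) (l 16636776))) (l 16622848)) (a (l 16671792) (l 16635520))) (b (l 16678784) (l 16684416))) (b (l 16657504) (l 16635160))))) (a (b (a (a (b (l 16577024) (l 16568712)) (b (a (l 16547336) (l 16601792)) (l 16624080))) (b (l 16510912) (l 16526976))) (a (b (a (l 16586216) (l 16610928)) (a (l 16608328) (l 16591984))) (l 16637880))) (b (l 16548592) (l 16631184))))), by decide +kernel⟩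

def k1_pm_022_a : ∃ t, chk3 f_pm_022_a t 3 1 1 = true :=
  ⟨(a (b (a (b (l 16415920) (l 16417632)) (b (l 16471816) (l 16454888))) (a (b (l 16456776) (l 16551152)) (b (l 16477568) (l 16536288)))) (b (a (b (l 16721200) (l 16726888)) (l 17046192)) (a (b (l 16767192) (l 16824640)) (b (l 16989920) (l 17064128))))), by decide +kernel⟩

theorem s2_pm_022_a : ∃ t, chk3 f_pm_022_a t 1 1 1 = true := ex3_a k0_pm_022_a k1_pm_022_a

theorem c_pm_022_a : CertN 0 536870912 0 536870912 335544320 67108864 3 true true false .pp 0 2 2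
    ndN1q0 ndN1q2a pcN2 cut_pm_022_a Ext.none :=
  certN2 (fam := true) (s1 := true) (s2 := false) (a := 0) (b := 2) (c := 2) (cn := .pp) (n1 := ndN1q0) (n2 := ndN1q2a) (pc := pcN2) (cut := cut_pm_022_a) (xt := Ext.none) (P1 := 0) (W1 := 536870912) (P2 := 0) (W2 := 536870912) (P3 := 335544320) (W3 := 67108864) (N0 := 3)
    rfl (fun _ => rfl) s2_pm_022_a

noncomputable def cut_pm_022_b : Cut := Cut.of [[⟨0, 0, 0, 67108864⟩, ⟨1, 1, 0, 67108864⟩, ⟨2, 1, 0, 67108864⟩]]

noncomputable def f_pm_022_b : ℕ → ℕ → ℕ → ℕ → Bool := onCell 0 536870912 1073741824 536870912 335544320 67108864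
    (rowN 3 1 true true false .pp 0 2 2 (qsf 0 536870912 1239849684 370763052 2) ndN1q0 ndN1q2b pcN2 cut_pm_022_b Ext.none)

def k0_pm_022_b : ∃ t, chk3 f_pm_022_b t 1 1 1 = true :=
  ⟨(a (b (a (b (l 1) (b (a (a (a (b (l 16576000) (l 16453432)) (l 95059138327)) (l 16580576)) (l 1)) (a (a (a (b (l 16381360) (l 16306920)) (l 16362584)) (l 16386456)) (l 16459976)))) (l 1)) (b (a (b (a (a (b (l 16253136) (l 16178552)) (l 16327336)) (l 16385144)) (a (a (l 16193784) (l 16119656)) (l 16229936))) (b (a (l 16484344) (l 1)) (a (l 16403728) (l 16580296)))) (a (b (a (b (l 16441392) (l 16620696)) (l 16541216)) (a (b (l 16776752) (l 16932904)) (l 16861112))) (b (a (l 16591160) (l 16671672)) (l 16872192))))) (b (l 1) (b (l 1) (a (b (l 16823576) (l 16913616)) (l 1))))), by decide +kernel⟩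

theorem c_pm_022_b : CertN 0 536870912 1239849684 370763052 335544320 67108864 3 true true false .pp 0 2 2
    ndN1q0 ndN1q2b pcN2 cut_pm_022_b Ext.none :=
  certN1 (fam := true) (s1 := true) (s2 := false) (a := 0) (b := 2) (c := 2) (cn := .pp) (n1 := ndN1q0) (n2 := ndN1q2b) (pc := pcN2) (cut := cut_pm_022_b) (xt := Ext.none) (P1 := 0) (W1 := 536870912) (P2 := 1239849684) (W2 := 370763052) (P3 := 335544320) (W3 := 67108864) (N0 := 3)
    rfl (fun _ => rfl) k0_pm_022_b

noncomputable def f_pm_023_a : ℕ → ℕ → ℕ → ℕ → Bool := onCell 1610612736 536870912 0 536870912 335544320 67108864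
    (rowN 3 2 true true false .up 0 2 3 (qsf 0 536870912 0 536870912 3) ndN1q0 ndN1q2a pcN3 Cut.none Ext.none)

def k0_pm_023_a : ∃ t, chk3 f_pm_023_a t 1 1 1 = true :=
  ⟨(a (a (b (a (l 16956880) (l 17041528)) (b (l 17100360) (a (l 16907520) (l 17026176)))) (b (a (l 17091432) (l 2)) (a (l 17101856) (l 2)))) (l 2)), by decide +kernel⟩

theorem c_pm_023_a : CertN 0 536870912 0 536870912 335544320 67108864 3 true true false .up 0 2 3
    ndN1q0 ndN1q2a pcN3 Cut.none Ext.none :=
  certN2 (fam := true) (s1 := true) (s2 := false) (a := 0) (b := 2) (c := 3) (cn := .up) (n1 := ndN1q0) (n2 := ndN1q2a) (pc := pcN3) (cut := Cut.none) (xt := Ext.none) (P1 := 0) (W1 := 536870912) (P2 := 0) (W2 := 536870912) (P3 := 335544320) (W3 := 67108864) (N0 := 3)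
    rfl (fun _ => rfl) k0_pm_023_a

noncomputable def f_pm_023_b : ℕ → ℕ → ℕ → ℕ → Bool := onCell 1610612736 536870912 1239849684 370763052 335544320 67108864
    (rowN 3 2 true true false .up 0 2 3 (qsf 0 536870912 1239849684 370763052 3) ndN1q0 ndN1q2b pcN3 Cut.none Ext.none)

def k0_pm_023_b : ∃ t, chk3 f_pm_023_b t 1 1 1 = true :=
  ⟨(a (a (b (a (l 17035048) (l 17100304)) (a (b (l 17175464) (l 17279136)) (l 17258736))) (a (b (l 17139256) (l 17282416)) (b (l 17162912) (l 17289920)))) (a (l 4) (l 4))), by decide +kernel⟩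

theorem c_pm_023_b : CertN 0 536870912 1239849684 370763052 335544320 67108864 3 true true false .up 0 2 3
    ndN1q0 ndN1q2b pcN3 Cut.none Ext.none :=
  certN2 (fam := true) (s1 := true) (s2 := false) (a := 0) (b := 2) (c := 3) (cn := .up) (n1 := ndN1q0) (n2 := ndN1q2b) (pc := pcN3) (cut := Cut.none) (xt := Ext.none) (P1 := 0) (W1 := 536870912) (P2 := 1239849684) (W2 := 370763052) (P3 := 335544320) (W3 := 67108864) (N0 := 3)
    rfl (fun _ => rfl) k0_pm_023_b

noncomputable def f_pm_033 : ℕ → ℕ → ℕ → ℕ → Bool := onCell 0 536870912 1610612736 536870912 335544320 67108864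
    (rowN 3 1 true true false .pnn 0 3 3 (qsf 0 536870912 1610612736 536870912 3) ndN1q0 ndN1q3 pcN3 Cut.none Ext.none)

def k0_pm_033 : ∃ t, chk3 f_pm_033 t 1 1 1 = true :=
  ⟨(b (b (a (a (b (l 17549080) (l 17417624)) (l 309808540311)) (l 1)) (a (b (a (l 17427504) (l 17307216)) (a (l 17430008) (l 17327104))) (b (l 1) (l 17159832)))) (a (a (b (l 4) (l 4)) (l 4)) (l 4))), by decide +kernel⟩

theorem c_pm_033 : CertN 0 536870912 1610612736 536870912 335544320 67108864 3 true true false .pnn 0 3 3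
    ndN1q0 ndN1q3 pcN3 Cut.none Ext.none :=
  certN1 (fam := true) (s1 := true) (s2 := false) (a := 0) (b := 3) (c := 3) (cn := .pnn) (n1 := ndN1q0) (n2 := ndN1q3) (pc := pcN3) (cut := Cut.none) (xt := Ext.none) (P1 := 0) (W1 := 536870912) (P2 := 1610612736) (W2 := 536870912) (P3 := 335544320) (W3 := 67108864) (N0 := 3)
    rfl (fun _ => rfl) k0_pm_033

noncomputable def f_pm_101 : ℕ → ℕ → ℕ → ℕ → Bool := onCell 536870912 536870912 0 536870912 335544320 67108864
    (rowN 3 2 true true false .npn 1 0 1 (qsf 536870912 536870912 0 536870912 1) ndN1q1 ndN1q0 pcN1 Cut.none Ext.none)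

def k0_pm_101 : ∃ t, chk3 f_pm_101 t 1 1 1 = true :=
  ⟨(l 3), by decide +kernel⟩

theorem c_pm_101 : CertN 536870912 536870912 0 536870912 335544320 67108864 3 true true false .npn 1 0 1
    ndN1q1 ndN1q0 pcN1 Cut.none Ext.none :=
  certN2 (fam := true) (s1 := true) (s2 := false) (a := 1) (b := 0) (c := 1) (cn := .npn) (n1 := ndN1q1) (n2 := ndN1q0) (pc := pcN1) (cut := Cut.none) (xt := Ext.none) (P1 := 536870912) (W1 := 536870912) (P2 := 0) (W2 := 536870912) (P3 := 335544320) (W3 := 67108864) (N0 := 3)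
    rfl (fun _ => rfl) k0_pm_101

noncomputable def f_pm_102 : ℕ → ℕ → ℕ → ℕ → Bool := onCell 536870912 536870912 1073741824 536870912 335544320 67108864
    (rowN 3 1 true true false .npp 1 0 2 (qsf 536870912 536870912 0 536870912 2) ndN1q1 ndN1q0 pcN2 Cut.none Ext.none)

def k0_pm_102 : ∃ t, chk3 f_pm_102 t 1 1 1 = true :=
  ⟨(b (b (l 3) (a (b (b (b (l 3) (b (l 3) (a (l 2) (l 17058856)))) (l 17051528)) (l 17011048)) (b (b (b (l 3) (b (l 3) (b (l 3) (a (l 17190968) (a (l 16811384) (b (l 3) (l 16616392))))))) (a (l 17043752) (a (l 16778112) (l 16575520)))) (a (l 16986304) (a (l 16685256) (l 16453840)))))) (a (a (l 2) (l 16998200)) (a (b (l 16892968) (l 16973080)) (b (a (l 16604096) (l 16190840)) (l 16978568))))), by decide +kernel⟩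

theorem c_pm_102 : CertN 536870912 536870912 0 536870912 335544320 67108864 3 true true false .npp 1 0 2
    ndN1q1 ndN1q0 pcN2 Cut.none Ext.none :=
  certN1 (fam := true) (s1 := true) (s2 := false) (a := 1) (b := 0) (c := 2) (cn := .npp) (n1 := ndN1q1) (n2 := ndN1q0) (pc := pcN2) (cut := Cut.none) (xt := Ext.none) (P1 := 536870912) (W1 := 536870912) (P2 := 0) (W2 := 536870912) (P3 := 335544320) (W3 := 67108864) (N0 := 3)
    rfl (fun _ => rfl) k0_pm_102

noncomputable def f_pm_112 : ℕ → ℕ → ℕ → ℕ → Bool := onCell 536870912 536870912 1073741824 536870912 335544320 67108864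
    (rowN 3 1 true true false .dn 1 1 2 (qsf 536870912 536870912 536870912 536870912 2) ndN1q1 ndN1q1 pcN2 Cut.none Ext.none)

def k0_pm_112 : ∃ t, chk3 f_pm_112 t 1 1 1 = true :=
  ⟨(b (b (l 3) (a (b (b (b (l 3) (b (l 3) (a (l 16943640) (l 16920880)))) (l 16919400)) (l 16954056)) (b (l 1) (a (l 16723832) (l 1))))) (a (a (b (l 16847640) (l 17069880)) (l 12382415047)) (a (l 17086472) (b (l 336652185639) (l 17123096))))), by decide +kernel⟩

theorem c_pm_112 : CertN 536870912 536870912 536870912 536870912 335544320 67108864 3 true true false .dn 1 1 2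
    ndN1q1 ndN1q1 pcN2 Cut.none Ext.none :=
  certN1 (fam := true) (s1 := true) (s2 := false) (a := 1) (b := 1) (c := 2) (cn := .dn) (n1 := ndN1q1) (n2 := ndN1q1) (pc := pcN2) (cut := Cut.none) (xt := Ext.none) (P1 := 536870912) (W1 := 536870912) (P2 := 536870912) (W2 := 536870912) (P3 := 335544320) (W3 := 67108864) (N0 := 3)
    rfl (fun _ => rfl) k0_pm_112

noncomputable def f_pm_113 : ℕ → ℕ → ℕ → ℕ → Bool := onCell 536870912 536870912 536870912 536870912 335544320 67108864
    (rowN 3 0 true true false .nn 1 1 3 (qsf 536870912 536870912 536870912 536870912 3) ndN1q1 ndN1q1 pcN3 Cut.none Ext.none)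

def k0_pm_113 : ∃ t, chk3 f_pm_113 t 1 1 1 = true :=
  ⟨(a (b (l 365106392247) (a (l 17057256) (l 17177896))) (b (b (l 17057256) (l 17177896)) (a (l 17173720) (b (l 17228552) (a (l 17067456) (b (l 17072328) (a (l 16943640) (b (l 16940688) (a (l 16865400) (b (l 16862608) (l 16809296))))))))))), by decide +kernel⟩

theorem c_pm_113 : CertN 536870912 536870912 536870912 536870912 335544320 67108864 3 true true false .nn 1 1 3
    ndN1q1 ndN1q1 pcN3 Cut.none Ext.none :=
  certN0 (fam := true) (s1 := true) (s2 := false) (a := 1) (b := 1) (c := 3) (cn := .nn) (n1 := ndN1q1) (n2 := ndN1q1) (pc := pcN3) (cut := Cut.none) (xt := Ext.none) (P1 := 536870912) (W1 := 536870912) (P2 := 536870912) (W2 := 536870912) (P3 := 335544320) (W3 := 67108864) (N0 := 3)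
    rfl k0_pm_113

noncomputable def f_pm_123_a : ℕ → ℕ → ℕ → ℕ → Bool := onCell 1610612736 536870912 0 536870912 335544320 67108864
    (rowN 3 2 true true false .npn 1 2 3 (qsf 536870912 536870912 0 536870912 3) ndN1q1 ndN1q2a pcN3 Cut.none Ext.none)

def k0_pm_123_a : ∃ t, chk3 f_pm_123_a t 1 1 1 = true :=
  ⟨(a (a (b (a (l 1) (l 17013648)) (a (b (l 1) (l 16992848)) (l 17070192))) (b (l 17040552) (a (l 17083592) (l 17082264)))) (a (b (l 17004976) (a (l 17050968) (l 16989768))) (a (l 4) (l 4)))), by decide +kernel⟩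

theorem c_pm_123_a : CertN 536870912 536870912 0 536870912 335544320 67108864 3 true true false .npn 1 2 3
    ndN1q1 ndN1q2a pcN3 Cut.none Ext.none :=
  certN2 (fam := true) (s1 := true) (s2 := false) (a := 1) (b := 2) (c := 3) (cn := .npn) (n1 := ndN1q1) (n2 := ndN1q2a) (pc := pcN3) (cut := Cut.none) (xt := Ext.none) (P1 := 536870912) (W1 := 536870912) (P2 := 0) (W2 := 536870912) (P3 := 335544320) (W3 := 67108864) (N0 := 3)
    rfl (fun _ => rfl) k0_pm_123_a

noncomputable def f_pm_123_b : ℕ → ℕ → ℕ → ℕ → Bool := onCell 536870912 536870912 1239849684 370763052 335544320 67108864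
    (rowN 3 0 true true false .npn 1 2 3 (qsf 536870912 536870912 1239849684 370763052 3) ndN1q1 ndN1q2b pcN3 Cut.none Ext.none)

def k0_pm_123_b : ∃ t, chk3 f_pm_123_b t 1 1 1 = true :=
  ⟨(a (b (a (b (a (l 17040792) (l 4)) (l 4)) (l 4)) (l 4)) (l 4)), by decide +kernel⟩

theorem c_pm_123_b : CertN 536870912 536870912 1239849684 370763052 335544320 67108864 3 true true false .npn 1 2 3
    ndN1q1 ndN1q2b pcN3 Cut.none Ext.none :=
  certN0 (fam := true) (s1 := true) (s2 := false) (a := 1) (b := 2) (c := 3) (cn := .npn) (n1 := ndN1q1) (n2 := ndN1q2b) (pc := pcN3) (cut := Cut.none) (xt := Ext.none) (P1 := 536870912) (W1 := 536870912) (P2 := 1239849684) (W2 := 370763052) (P3 := 335544320) (W3 := 67108864) (N0 := 3)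
    rfl k0_pm_123_b

noncomputable def f_pm_133 : ℕ → ℕ → ℕ → ℕ → Bool := onCell 536870912 536870912 1610612736 536870912 335544320 67108864
    (rowN 3 0 true true false .dn 1 3 3 (qsf 536870912 536870912 1610612736 536870912 3) ndN1q1 ndN1q3 pcN3 Cut.none Ext.none)

def k0_pm_133 : ∃ t, chk3 f_pm_133 t 1 1 1 = true :=
  ⟨(l 4), by decide +kernel⟩

theorem c_pm_133 : CertN 536870912 536870912 1610612736 536870912 335544320 67108864 3 true true false .dn 1 3 3
    ndN1q1 ndN1q3 pcN3 Cut.none Ext.none :=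
  certN0 (fam := true) (s1 := true) (s2 := false) (a := 1) (b := 3) (c := 3) (cn := .dn) (n1 := ndN1q1) (n2 := ndN1q3) (pc := pcN3) (cut := Cut.none) (xt := Ext.none) (P1 := 536870912) (W1 := 536870912) (P2 := 1610612736) (W2 := 536870912) (P3 := 335544320) (W3 := 67108864) (N0 := 3)
    rfl k0_pm_133

noncomputable def cut_pm_202_a : Cut := Cut.of [[⟨0, 1, 0, 67108864⟩, ⟨1, 0, 0, 67108864⟩, ⟨2, 1, 0, 67108864⟩]]

noncomputable def f_pm_202_a : ℕ → ℕ → ℕ → ℕ → Bool := onCell 0 536870912 1073741824 536870912 335544320 67108864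
    (rowN 3 1 true true false .pp 2 0 2 (qsf 0 536870912 0 536870912 2) ndN1q2a ndN1q0 pcN2 cut_pm_202_a Ext.none)

def k0_pm_202_a : ∃ t, chk3 f_pm_202_a t 2 1 1 = true :=
  ⟨(b (b (b (l 1) (b (l 1) (a (l 1) (a (l 1) (b (l 1) (a (l 1) (b (l 1) (l 214244647575)))))))) (b (b (b (a (l 1) (a (b (l 1) (a (l 190622286695) (l 230350759191))) (a (b (l 213707760519) (l 16544384)) (l 266321125911)))) (a (a (l 183106072167) (a (l 224981978791) (l 249141180647))) (a (a (l 223908258423) (l 16523648)) (b (l 16538136) (b (l 16530832) (l 16524792)))))) (a (a (l 16505040) (l 16513648)) (a (l 16524632) (l 16516896)))) (a (l 16478608) (b (l 16434336) (l 16399120))))) (b (b (a (l 16415920) (l 16417632)) (a (l 16471816) (l 16454888))) (b (a (l 16721200) (l 16726888)) (l 16941336)))), by decide +kernel⟩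

def k1_pm_202_a : ∃ t, chk3 f_pm_202_a t 3 1 1 = true :=
  ⟨(b (b (b (a (l 1) (b (a (l 1) (l 6)) (b (a (a (l 1) (l 6)) (l 6)) (b (a (a (l 1) (l 6)) (l 6)) (a (a (a (l 1) (b (l 185790672679) (l 231424692471))) (a (l 16674680) (l 16666376))) (a (l 16680216) (l 16706024))))))) (a (b (a (l 1) (b (a (l 1) (b (l 1) (a (l 153578351783) (l 184180007735)))) (a (b (l 159483890951) (l 202433562551)) (a (b (l 205654807367) (l 16605512)) (l 16635112))))) (b (a (a (b (l 1) (l 165926255703)) (b (l 188474896519) (l 220150268327))) (a (b (l 241088260183) (l 16586080)) (l 16598336))) (a (a (b (l 223908342055) (l 16561440)) (l 16569904)) (l 16623256)))) (a (b (a (b (b (a (l 210486709943) (l 16665216)) (a (l 16630440) (l 16636776))) (l 16622848)) (b (l 16671792) (l 16635520))) (l 16657504)) (b (a (l 16678784) (l 16684416)) (l 16635160))))) (b (a (b (b (a (l 16597992) (l 16568712)) (a (b (l 16547336) (l 16622768)) (l 16624080))) (a (l 16510912) (l 16526976))) (b (a (b (l 16586216) (l 16610928))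 (b (l 16608328) (l 16591984))) (l 16616912))) (a (l 16548592) (l 16610216)))) (b (b (a (l 16456776) (l 16530184)) (a (l 16477568) (l 16536280))) (b (a (l 16767192) (l 16824496)) (a (l 16989920) (l 17063904))))), by decide +kernel⟩

theorem s2_pm_202_a : ∃ t, chk3 f_pm_202_a t 1 1 1 = true := ex3_a k0_pm_202_a k1_pm_202_a

theorem c_pm_202_a : CertN 0 536870912 0 536870912 335544320 67108864 3 true true false .pp 2 0 2
    ndN1q2a ndN1q0 pcN2 cut_pm_202_a Ext.none :=
  certN1 (fam := true) (s1 := true) (s2 := false) (a := 2) (b := 0) (c := 2) (cn := .pp) (n1 := ndN1q2a) (n2 := ndN1q0) (pc := pcN2) (cut := cut_pm_202_a) (xt := Ext.none) (P1 := 0) (W1 := 536870912) (P2 := 0) (W2 := 536870912) (P3 := 335544320) (W3 := 67108864) (N0 := 3)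
    rfl (fun _ => rfl) s2_pm_202_a

noncomputable def cut_pm_202_b : Cut := Cut.of [[⟨0, 1, 0, 67108864⟩, ⟨1, 0, 0, 67108864⟩, ⟨2, 1, 0, 67108864⟩]]

noncomputable def f_pm_202_b : ℕ → ℕ → ℕ → ℕ → Bool := onCell 1073741824 536870912 0 536870912 335544320 67108864
    (rowN 3 2 true true false .pp 2 0 2 (qsf 1239849684 370763052 0 536870912 2) ndN1q2b ndN1q0 pcN2 cut_pm_202_b Ext.none)

def k0_pm_202_b : ∃ t, chk3 f_pm_202_b t 1 1 1 = true :=
  ⟨(a (b (b (a (l 1) (a (b (b (a (a (l 1) (l 16553888)) (b (l 16474400) (l 16463672))) (l 16580576)) (l 1)) (b (b (b (a (l 16381360) (l 16306920)) (l 16362584)) (l 16386456)) (l 16459976)))) (l 1)) (l 1)) (a (b (b (a (b (b (a (l 16253136) (l 16178552)) (l 16327336)) (l 16385144)) (b (b (l 16193784) (l 16119656)) (l 16229936))) (a (b (l 16484344) (l 1)) (b (l 16403728) (l 16580296)))) (l 1)) (b (b (a (b (a (l 16441392) (l 16620696)) (l 16541216)) (b (a (l 16776752) (l 16932904)) (l 16861112))) (a (b (l 16591160) (l 16671672)) (l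 16872192))) (b (a (l 16823576) (l 16913616)) (l 1))))), by decide +kernel⟩

theorem c_pm_202_b : CertN 1239849684 370763052 0 536870912 335544320 67108864 3 true true false .pp 2 0 2
    ndN1q2b ndN1q0 pcN2 cut_pm_202_b Ext.none :=
  certN2 (fam := true) (s1 := true) (s2 := false) (a := 2) (b := 0) (c := 2) (cn := .pp) (n1 := ndN1q2b) (n2 := ndN1q0) (pc := pcN2) (cut := cut_pm_202_b) (xt := Ext.none) (P1 := 1239849684) (W1 := 370763052) (P2 := 0) (W2 := 536870912) (P3 := 335544320) (W3 := 67108864) (N0 := 3)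
    rfl (fun _ => rfl) k0_pm_202_b

noncomputable def f_pm_203_a : ℕ → ℕ → ℕ → ℕ → Bool := onCell 0 536870912 1610612736 536870912 335544320 67108864
    (rowN 3 1 true true false .up 2 0 3 (qsf 0 536870912 0 536870912 3) ndN1q2a ndN1q0 pcN3 Cut.none Ext.none)

def k0_pm_203_a : ∃ t, chk3 f_pm_203_a t 1 1 1 = true :=
  ⟨(b (b (a (b (l 16956880) (l 17041528)) (a (l 17100360) (b (l 16907520) (l 17026176)))) (a (b (l 17091432) (l 2)) (b (l 17101856) (l 2)))) (l 2)), by decide +kernel⟩

theorem c_pm_203_a : CertN 0 536870912 0 536870912 335544320 67108864 3 true true false .up 2 0 3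
    ndN1q2a ndN1q0 pcN3 Cut.none Ext.none :=
  certN1 (fam := true) (s1 := true) (s2 := false) (a := 2) (b := 0) (c := 3) (cn := .up) (n1 := ndN1q2a) (n2 := ndN1q0) (pc := pcN3) (cut := Cut.none) (xt := Ext.none) (P1 := 0) (W1 := 536870912) (P2 := 0) (W2 := 536870912) (P3 := 335544320) (W3 := 67108864) (N0 := 3)
    rfl (fun _ => rfl) k0_pm_203_a

noncomputable def f_pm_203_b : ℕ → ℕ → ℕ → ℕ → Bool := onCell 1239849684 370763052 1610612736 536870912 335544320 67108864
    (rowN 3 1 true true false .up 2 0 3 (qsf 1239849684 370763052 0 536870912 3) ndN1q2b ndN1q0 pcN3 Cut.none Ext.none)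

def k0_pm_203_b : ∃ t, chk3 f_pm_203_b t 1 1 1 = true :=
  ⟨(b (b (a (b (l 17035048) (l 17100304)) (b (a (l 17175464) (l 17279136)) (l 17258736))) (b (a (l 17139256) (l 17282416)) (a (l 17162912) (l 17289920)))) (b (l 4) (l 4))), by decide +kernel⟩

theorem c_pm_203_b : CertN 1239849684 370763052 0 536870912 335544320 67108864 3 true true false .up 2 0 3
    ndN1q2b ndN1q0 pcN3 Cut.none Ext.none :=
  certN1 (fam := true) (s1 := true) (s2 := false) (a := 2) (b := 0) (c := 3) (cn := .up) (n1 := ndN1q2b) (n2 := ndN1q0) (pc := pcN3) (cut := Cut.none) (xt := Ext.none) (P1 := 1239849684) (W1 := 370763052) (P2 := 0) (W2 := 536870912) (P3 := 335544320) (W3 := 67108864) (N0 := 3)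
    rfl (fun _ => rfl) k0_pm_203_b

noncomputable def f_pm_213_a : ℕ → ℕ → ℕ → ℕ → Bool := onCell 0 536870912 1610612736 536870912 335544320 67108864
    (rowN 3 1 true true false .pnn 2 1 3 (qsf 0 536870912 536870912 536870912 3) ndN1q2a ndN1q1 pcN3 Cut.none Ext.none)

def k0_pm_213_a : ∃ t, chk3 f_pm_213_a t 1 1 1 = true :=
  ⟨(b (b (a (b (l 1) (l 17013648)) (b (a (l 1) (l 16992848)) (l 17070208))) (a (l 17040552) (b (l 17083600) (l 17082264)))) (b (a (l 17004976) (b (l 17050952) (l 16989704))) (b (l 4) (l 4)))), by decide +kernel⟩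

theorem c_pm_213_a : CertN 0 536870912 536870912 536870912 335544320 67108864 3 true true false .pnn 2 1 3
    ndN1q2a ndN1q1 pcN3 Cut.none Ext.none :=
  certN1 (fam := true) (s1 := true) (s2 := false) (a := 2) (b := 1) (c := 3) (cn := .pnn) (n1 := ndN1q2a) (n2 := ndN1q1) (pc := pcN3) (cut := Cut.none) (xt := Ext.none) (P1 := 0) (W1 := 536870912) (P2 := 536870912) (W2 := 536870912) (P3 := 335544320) (W3 := 67108864) (N0 := 3)
    rfl (fun _ => rfl) k0_pm_213_a

noncomputable def f_pm_213_b : ℕ → ℕ → ℕ → ℕ → Bool := onCell 1239849684 370763052 536870912 536870912 335544320 67108864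
    (rowN 3 0 true true false .pnn 2 1 3 (qsf 1239849684 370763052 536870912 536870912 3) ndN1q2b ndN1q1 pcN3 Cut.none Ext.none)

def k0_pm_213_b : ∃ t, chk3 f_pm_213_b t 1 1 1 = true :=
  ⟨(b (a (b (a (b (l 17040792) (l 4)) (l 4)) (l 4)) (l 4)) (l 4)), by decide +kernel⟩

theorem c_pm_213_b : CertN 1239849684 370763052 536870912 536870912 335544320 67108864 3 true true false .pnn 2 1 3
    ndN1q2b ndN1q1 pcN3 Cut.none Ext.none :=
  certN0 (fam := true) (s1 := true) (s2 := false) (a := 2) (b := 1) (c := 3) (cn := .pnn) (n1 := ndN1q2b) (n2 := ndN1q1) (pc := pcN3) (cut := Cut.none) (xt := Ext.none) (P1 := 1239849684) (W1 := 370763052) (P2 := 536870912) (W2 := 536870912) (P3 := 335544320) (W3 := 67108864) (N0 := 3)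
    rfl k0_pm_213_b

noncomputable def f_pm_303 : ℕ → ℕ → ℕ → ℕ → Bool := onCell 1610612736 536870912 0 536870912 335544320 67108864
    (rowN 3 2 true true false .npn 3 0 3 (qsf 1610612736 536870912 0 536870912 3) ndN1q3 ndN1q0 pcN3 Cut.none Ext.none)

def k0_pm_303 : ∃ t, chk3 f_pm_303 t 1 1 1 = true :=
  ⟨(a (a (b (b (a (l 17549080) (l 17417624)) (l 309808540311)) (l 1)) (b (a (b (l 17427504) (l 17307216)) (b (l 17430008) (l 17327104))) (a (l 1) (l 17159832)))) (a (b (b (l 4) (l 4)) (l 4)) (l 4))), by decide +kernel⟩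

theorem c_pm_303 : CertN 1610612736 536870912 0 536870912 335544320 67108864 3 true true false .npn 3 0 3
    ndN1q3 ndN1q0 pcN3 Cut.none Ext.none :=
  certN2 (fam := true) (s1 := true) (s2 := false) (a := 3) (b := 0) (c := 3) (cn := .npn) (n1 := ndN1q3) (n2 := ndN1q0) (pc := pcN3) (cut := Cut.none) (xt := Ext.none) (P1 := 1610612736) (W1 := 536870912) (P2 := 0) (W2 := 536870912) (P3 := 335544320) (W3 := 67108864) (N0 := 3)
    rfl (fun _ => rfl) k0_pm_303

noncomputable def f_pm_313 : ℕ → ℕ → ℕ → ℕ → Bool := onCell 1610612736 536870912 536870912 536870912 335544320 67108864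
    (rowN 3 0 true true false .dn 3 1 3 (qsf 1610612736 536870912 536870912 536870912 3) ndN1q3 ndN1q1 pcN3 Cut.none Ext.none)

def k0_pm_313 : ∃ t, chk3 f_pm_313 t 1 1 1 = true :=
  ⟨(l 4), by decide +kernel⟩

theorem c_pm_313 : CertN 1610612736 536870912 536870912 536870912 335544320 67108864 3 true true false .dn 3 1 3
    ndN1q3 ndN1q1 pcN3 Cut.none Ext.none :=
  certN0 (fam := true) (s1 := true) (s2 := false) (a := 3) (b := 1) (c := 3) (cn := .dn) (n1 := ndN1q3) (n2 := ndN1q1) (pc := pcN3) (cut := Cut.none) (xt := Ext.none) (P1 := 1610612736) (W1 := 536870912) (P2 := 536870912) (W2 := 536870912) (P3 := 335544320) (W3 := 67108864) (N0 := 3)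
    rfl k0_pm_313

noncomputable def f_mm_001 : ℕ → ℕ → ℕ → ℕ → Bool := onCell 0 536870912 0 536870912 335544320 67108864
    (rowN 3 0 true false false .up 0 0 1 (qsf 0 536870912 0 536870912 1) ndN1q0 ndN1q0 pcN1 Cut.none Ext.none)

def k0_mm_001 : ∃ t, chk3 f_mm_001 t 1 1 1 = true :=
  ⟨(l 4), by decide +kernel⟩

theorem c_mm_001 : CertN 0 536870912 0 536870912 335544320 67108864 3 true false false .up 0 0 1
    ndN1q0 ndN1q0 pcN1 Cut.none Ext.none :=
  certN0 (fam := true) (s1 := false) (s2 := false) (a := 0) (b := 0) (c := 1) (cn := .up) (n1 := ndN1q0) (n2 := ndN1q0) (pc := pcN1) (cut := Cut.none) (xt := Ext.none) (P1 := 0) (W1 := 536870912) (P2 := 0) (W2 := 536870912) (P3 := 335544320) (W3 := 67108864) (N0 := 3)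
    rfl k0_mm_001

noncomputable def f_mm_011 : ℕ → ℕ → ℕ → ℕ → Bool := onCell 0 536870912 536870912 536870912 335544320 67108864
    (rowN 3 0 true false false .pnn 0 1 1 (qsf 0 536870912 536870912 536870912 1) ndN1q0 ndN1q1 pcN1 Cut.none Ext.none)

def k0_mm_011 : ∃ t, chk3 f_mm_011 t 1 1 1 = true :=
  ⟨(l 4), by decide +kernel⟩

theorem c_mm_011 : CertN 0 536870912 536870912 536870912 335544320 67108864 3 true false false .pnn 0 1 1
    ndN1q0 ndN1q1 pcN1 Cut.none Ext.none :=
  certN0 (fam := true) (s1 := false) (s2 := false) (a := 0) (b := 1) (c := 1) (cn := .pnn) (n1 := ndN1q0) (n2 := ndN1q1) (pc := pcN1) (cut := Cut.none) (xt := Ext.none) (P1 := 0) (W1 := 536870912) (P2 := 536870912) (W2 := 536870912) (P3 := 335544320) (W3 := 67108864) (N0 := 3)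
    rfl k0_mm_011

noncomputable def f_mm_012 : ℕ → ℕ → ℕ → ℕ → Bool := onCell 0 536870912 536870912 536870912 335544320 67108864
    (rowN 3 0 true false false .pnp 0 1 2 (qsf 0 536870912 536870912 536870912 2) ndN1q0 ndN1q1 pcN2 Cut.none Ext.none)

def k0_mm_012 : ∃ t, chk3 f_mm_012 t 1 1 1 = true :=
  ⟨(l 4), by decide +kernel⟩

theorem c_mm_012 : CertN 0 536870912 536870912 536870912 335544320 67108864 3 true false false .pnp 0 1 2
    ndN1q0 ndN1q1 pcN2 Cut.none Ext.none :=
  certN0 (fam := true) (s1 := false) (s2 := false) (a := 0) (b := 1) (c := 2) (cn := .pnp) (n1 := ndN1q0) (n2 := ndN1q1) (pc := pcN2) (cut := Cut.none) (xt := Ext.none) (P1 := 0) (W1 := 536870912) (P2 := 536870912) (W2 := 536870912) (P3 := 335544320) (W3 := 67108864) (N0 := 3)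
    rfl k0_mm_012

noncomputable def f_mm_022_a : ℕ → ℕ → ℕ → ℕ → Bool := onCell 0 536870912 0 536870912 335544320 67108864
    (rowN 3 0 true false false .pp 0 2 2 (qsf 0 536870912 0 536870912 2) ndN1q0 ndN1q2a pcN2 Cut.none Ext.none)

def k0_mm_022_a : ∃ t, chk3 f_mm_022_a t 1 1 1 = true :=
  ⟨(l 5), by decide +kernel⟩

theorem c_mm_022_a : CertN 0 536870912 0 536870912 335544320 67108864 3 true false false .pp 0 2 2
    ndN1q0 ndN1q2a pcN2 Cut.none Ext.none :=
  certN0 (fam := true) (s1 := false) (s2 := false) (a := 0) (b := 2) (c := 2) (cn := .pp) (n1 := ndN1q0) (n2 := ndN1q2a) (pc := pcN2) (cut := Cut.none) (xt := Ext.none) (P1 := 0) (W1 := 536870912) (P2 := 0) (W2 := 536870912) (P3 := 335544320) (W3 := 67108864) (N0 := 3)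
    rfl k0_mm_022_a

noncomputable def f_mm_022_b : ℕ → ℕ → ℕ → ℕ → Bool := onCell 0 536870912 1239849684 370763052 335544320 67108864
    (rowN 3 0 true false false .pp 0 2 2 (qsf 0 536870912 1239849684 370763052 2) ndN1q0 ndN1q2b pcN2 Cut.none Ext.none)

def k0_mm_022_b : ∃ t, chk3 f_mm_022_b t 1 1 1 = true :=
  ⟨(l 5), by decide +kernel⟩

theorem c_mm_022_b : CertN 0 536870912 1239849684 370763052 335544320 67108864 3 true false false .pp 0 2 2
    ndN1q0 ndN1q2b pcN2 Cut.none Ext.none :=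
  certN0 (fam := true) (s1 := false) (s2 := false) (a := 0) (b := 2) (c := 2) (cn := .pp) (n1 := ndN1q0) (n2 := ndN1q2b) (pc := pcN2) (cut := Cut.none) (xt := Ext.none) (P1 := 0) (W1 := 536870912) (P2 := 1239849684) (W2 := 370763052) (P3 := 335544320) (W3 := 67108864) (N0 := 3)
    rfl k0_mm_022_b

noncomputable def f_mm_023_a : ℕ → ℕ → ℕ → ℕ → Bool := onCell 0 536870912 0 536870912 335544320 67108864
    (rowN 3 0 true false false .up 0 2 3 (qsf 0 536870912 0 536870912 3) ndN1q0 ndN1q2a pcN3 Cut.none Ext.none)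

def k0_mm_023_a : ∃ t, chk3 f_mm_023_a t 1 1 1 = true :=
  ⟨(l 5), by decide +kernel⟩

theorem c_mm_023_a : CertN 0 536870912 0 536870912 335544320 67108864 3 true false false .up 0 2 3
    ndN1q0 ndN1q2a pcN3 Cut.none Ext.none :=
  certN0 (fam := true) (s1 := false) (s2 := false) (a := 0) (b := 2) (c := 3) (cn := .up) (n1 := ndN1q0) (n2 := ndN1q2a) (pc := pcN3) (cut := Cut.none) (xt := Ext.none) (P1 := 0) (W1 := 536870912) (P2 := 0) (W2 := 536870912) (P3 := 335544320) (W3 := 67108864) (N0 := 3)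
    rfl k0_mm_023_a

noncomputable def f_mm_023_b : ℕ → ℕ → ℕ → ℕ → Bool := onCell 0 536870912 1239849684 370763052 335544320 67108864
    (rowN 3 0 true false false .up 0 2 3 (qsf 0 536870912 1239849684 370763052 3) ndN1q0 ndN1q2b pcN3 Cut.none Ext.none)

def k0_mm_023_b : ∃ t, chk3 f_mm_023_b t 1 1 1 = true :=
  ⟨(l 5), by decide +kernel⟩

theorem c_mm_023_b : CertN 0 536870912 1239849684 370763052 335544320 67108864 3 true false false .up 0 2 3
    ndN1q0 ndN1q2b pcN3 Cut.none Ext.none :=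
  certN0 (fam := true) (s1 := false) (s2 := false) (a := 0) (b := 2) (c := 3) (cn := .up) (n1 := ndN1q0) (n2 := ndN1q2b) (pc := pcN3) (cut := Cut.none) (xt := Ext.none) (P1 := 0) (W1 := 536870912) (P2 := 1239849684) (W2 := 370763052) (P3 := 335544320) (W3 := 67108864) (N0 := 3)
    rfl k0_mm_023_b

noncomputable def f_mm_033 : ℕ → ℕ → ℕ → ℕ → Bool := onCell 0 536870912 1610612736 536870912 335544320 67108864
    (rowN 3 0 true false false .pnn 0 3 3 (qsf 0 536870912 1610612736 536870912 3) ndN1q0 ndN1q3 pcN3 Cut.none Ext.none)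

def k0_mm_033 : ∃ t, chk3 f_mm_033 t 1 1 1 = true :=
  ⟨(l 5), by decide +kernel⟩

theorem c_mm_033 : CertN 0 536870912 1610612736 536870912 335544320 67108864 3 true false false .pnn 0 3 3
    ndN1q0 ndN1q3 pcN3 Cut.none Ext.none :=
  certN0 (fam := true) (s1 := false) (s2 := false) (a := 0) (b := 3) (c := 3) (cn := .pnn) (n1 := ndN1q0) (n2 := ndN1q3) (pc := pcN3) (cut := Cut.none) (xt := Ext.none) (P1 := 0) (W1 := 536870912) (P2 := 1610612736) (W2 := 536870912) (P3 := 335544320) (W3 := 67108864) (N0 := 3)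
    rfl k0_mm_033

noncomputable def f_mm_101 : ℕ → ℕ → ℕ → ℕ → Bool := onCell 536870912 536870912 0 536870912 335544320 67108864
    (rowN 3 0 true false false .npn 1 0 1 (qsf 536870912 536870912 0 536870912 1) ndN1q1 ndN1q0 pcN1 Cut.none Ext.none)

def k0_mm_101 : ∃ t, chk3 f_mm_101 t 1 1 1 = true :=
  ⟨(l 4), by decide +kernel⟩

theorem c_mm_101 : CertN 536870912 536870912 0 536870912 335544320 67108864 3 true false false .npn 1 0 1
    ndN1q1 ndN1q0 pcN1 Cut.none Ext.none :=
  certN0 (fam := true) (s1 := false) (s2 := false) (a := 1) (b := 0) (c := 1) (cn := .npn) (n1 := ndN1q1) (n2 := ndN1q0) (pc := pcN1) (cut := Cut.none) (xt := Ext.none) (P1 := 536870912) (W1 := 536870912) (P2 := 0) (W2 := 536870912) (P3 := 335544320) (W3 := 67108864) (N0 := 3)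
    rfl k0_mm_101

noncomputable def f_mm_102 : ℕ → ℕ → ℕ → ℕ → Bool := onCell 536870912 536870912 0 536870912 335544320 67108864
    (rowN 3 0 true false false .npp 1 0 2 (qsf 536870912 536870912 0 536870912 2) ndN1q1 ndN1q0 pcN2 Cut.none Ext.none)

def k0_mm_102 : ∃ t, chk3 f_mm_102 t 1 1 1 = true :=
  ⟨(l 4), by decide +kernel⟩

theorem c_mm_102 : CertN 536870912 536870912 0 536870912 335544320 67108864 3 true false false .npp 1 0 2
    ndN1q1 ndN1q0 pcN2 Cut.none Ext.none :=
  certN0 (fam := true) (s1 := false) (s2 := false) (a := 1) (b := 0) (c := 2) (cn := .npp) (n1 := ndN1q1) (n2 := ndN1q0) (pc := pcN2) (cut := Cut.none) (xt := Ext.none) (P1 := 536870912) (W1 := 536870912) (P2 := 0) (W2 := 536870912) (P3 := 335544320) (W3 := 67108864) (N0 := 3)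
    rfl k0_mm_102

noncomputable def f_mm_112 : ℕ → ℕ → ℕ → ℕ → Bool := onCell 536870912 536870912 536870912 536870912 335544320 67108864
    (rowN 3 0 true false false .dn 1 1 2 (qsf 536870912 536870912 536870912 536870912 2) ndN1q1 ndN1q1 pcN2 Cut.none Ext.none)

def k0_mm_112 : ∃ t, chk3 f_mm_112 t 1 1 1 = true :=
  ⟨(l 4), by decide +kernel⟩

theorem c_mm_112 : CertN 536870912 536870912 536870912 536870912 335544320 67108864 3 true false false .dn 1 1 2
    ndN1q1 ndN1q1 pcN2 Cut.none Ext.none :=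
  certN0 (fam := true) (s1 := false) (s2 := false) (a := 1) (b := 1) (c := 2) (cn := .dn) (n1 := ndN1q1) (n2 := ndN1q1) (pc := pcN2) (cut := Cut.none) (xt := Ext.none) (P1 := 536870912) (W1 := 536870912) (P2 := 536870912) (W2 := 536870912) (P3 := 335544320) (W3 := 67108864) (N0 := 3)
    rfl k0_mm_112

noncomputable def f_mm_113 : ℕ → ℕ → ℕ → ℕ → Bool := onCell 536870912 536870912 536870912 536870912 335544320 67108864
    (rowN 3 0 true false false .nn 1 1 3 (qsf 536870912 536870912 536870912 536870912 3) ndN1q1 ndN1q1 pcN3 Cut.none Ext.none)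

def k0_mm_113 : ∃ t, chk3 f_mm_113 t 1 1 1 = true :=
  ⟨(l 4), by decide +kernel⟩

theorem c_mm_113 : CertN 536870912 536870912 536870912 536870912 335544320 67108864 3 true false false .nn 1 1 3
    ndN1q1 ndN1q1 pcN3 Cut.none Ext.none :=
  certN0 (fam := true) (s1 := false) (s2 := false) (a := 1) (b := 1) (c := 3) (cn := .nn) (n1 := ndN1q1) (n2 := ndN1q1) (pc := pcN3) (cut := Cut.none) (xt := Ext.none) (P1 := 536870912) (W1 := 536870912) (P2 := 536870912) (W2 := 536870912) (P3 := 335544320) (W3 := 67108864) (N0 := 3)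
    rfl k0_mm_113

noncomputable def f_mm_123_a : ℕ → ℕ → ℕ → ℕ → Bool := onCell 536870912 536870912 0 536870912 335544320 67108864
    (rowN 3 0 true false false .npn 1 2 3 (qsf 536870912 536870912 0 536870912 3) ndN1q1 ndN1q2a pcN3 Cut.none Ext.none)

def k0_mm_123_a : ∃ t, chk3 f_mm_123_a t 1 1 1 = true :=
  ⟨(l 4), by decide +kernel⟩

theorem c_mm_123_a : CertN 536870912 536870912 0 536870912 335544320 67108864 3 true false false .npn 1 2 3
    ndN1q1 ndN1q2a pcN3 Cut.none Ext.none :=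
  certN0 (fam := true) (s1 := false) (s2 := false) (a := 1) (b := 2) (c := 3) (cn := .npn) (n1 := ndN1q1) (n2 := ndN1q2a) (pc := pcN3) (cut := Cut.none) (xt := Ext.none) (P1 := 536870912) (W1 := 536870912) (P2 := 0) (W2 := 536870912) (P3 := 335544320) (W3 := 67108864) (N0 := 3)
    rfl k0_mm_123_a

noncomputable def f_mm_123_b : ℕ → ℕ → ℕ → ℕ → Bool := onCell 536870912 536870912 1239849684 370763052 335544320 67108864
    (rowN 3 0 true false false .npn 1 2 3 (qsf 536870912 536870912 1239849684 370763052 3) ndN1q1 ndN1q2b pcN3 Cut.none Ext.none)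

def k0_mm_123_b : ∃ t, chk3 f_mm_123_b t 1 1 1 = true :=
  ⟨(l 4), by decide +kernel⟩

theorem c_mm_123_b : CertN 536870912 536870912 1239849684 370763052 335544320 67108864 3 true false false .npn 1 2 3
    ndN1q1 ndN1q2b pcN3 Cut.none Ext.none :=
  certN0 (fam := true) (s1 := false) (s2 := false) (a := 1) (b := 2) (c := 3) (cn := .npn) (n1 := ndN1q1) (n2 := ndN1q2b) (pc := pcN3) (cut := Cut.none) (xt := Ext.none) (P1 := 536870912) (W1 := 536870912) (P2 := 1239849684) (W2 := 370763052) (P3 := 335544320) (W3 := 67108864) (N0 := 3)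
    rfl k0_mm_123_b

noncomputable def f_mm_133 : ℕ → ℕ → ℕ → ℕ → Bool := onCell 536870912 536870912 1610612736 536870912 335544320 67108864
    (rowN 3 0 true false false .dn 1 3 3 (qsf 536870912 536870912 1610612736 536870912 3) ndN1q1 ndN1q3 pcN3 Cut.none Ext.none)

def k0_mm_133 : ∃ t, chk3 f_mm_133 t 1 1 1 = true :=
  ⟨(l 4), by decide +kernel⟩

theorem c_mm_133 : CertN 536870912 536870912 1610612736 536870912 335544320 67108864 3 true false false .dn 1 3 3
    ndN1q1 ndN1q3 pcN3 Cut.none Ext.none :=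
  certN0 (fam := true) (s1 := false) (s2 := false) (a := 1) (b := 3) (c := 3) (cn := .dn) (n1 := ndN1q1) (n2 := ndN1q3) (pc := pcN3) (cut := Cut.none) (xt := Ext.none) (P1 := 536870912) (W1 := 536870912) (P2 := 1610612736) (W2 := 536870912) (P3 := 335544320) (W3 := 67108864) (N0 := 3)
    rfl k0_mm_133

noncomputable def cut_mm_202_a : Cut := Cut.of [[⟨0, 1, 0, 67108864⟩, ⟨1, 0, 0, 67108864⟩, ⟨2, 1, 0, 67108864⟩]]

noncomputable def f_mm_202_a : ℕ → ℕ → ℕ → ℕ → Bool := onCell 0 536870912 0 536870912 335544320 67108864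
    (rowN 3 0 true false false .pp 2 0 2 (qsf 0 536870912 0 536870912 2) ndN1q2a ndN1q0 pcN2 cut_mm_202_a Ext.none)

def k0_mm_202_a : ∃ t, chk3 f_mm_202_a t 1 1 1 = true :=
  ⟨(b (a (b (b (a (b (a (l 16523984) (b (l 16491336) (l 16497720))) (a (l 16493880) (l 16510472))) (b (a (b (l 16531552) (l 16517824)) (b (a (l 16529696) (l 16545168)) (l 16587888))) (a (l 16539464) (b (l 16543288) (l 4))))) (a (b (l 16539512) (l 4)) (l 4))) (l 4)) (b (b (b (b (a (a (a (l 16562768) (l 16624592)) (b (a (l 16602896) (a (l 16621248) (l 16634416))) (a (l 16607424) (l 16655016)))) (a (a (b (b (a (l 16647224) (l 16661880)) (l 16677872)) (l 16706472)) (b (a (b (l 6) (l 16680312)) (l 6)) (l 4))) (l 6))) (a (a (a (l 16573848) (l 16618328)) (a (l 16645048) (l 4))) (l 4))) (a (l 4) (l 4))) (l 4)) (l 4))) (l 4)), by decide +kernel⟩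

theorem c_mm_202_a : CertN 0 536870912 0 536870912 335544320 67108864 3 true false false .pp 2 0 2
    ndN1q2a ndN1q0 pcN2 cut_mm_202_a Ext.none :=
  certN0 (fam := true) (s1 := false) (s2 := false) (a := 2) (b := 0) (c := 2) (cn := .pp) (n1 := ndN1q2a) (n2 := ndN1q0) (pc := pcN2) (cut := cut_mm_202_a) (xt := Ext.none) (P1 := 0) (W1 := 536870912) (P2 := 0) (W2 := 536870912) (P3 := 335544320) (W3 := 67108864) (N0 := 3)
    rfl k0_mm_202_a

noncomputable def cut_mm_202_b : Cut := Cut.of [[⟨0, 1, 0, 67108864⟩, ⟨1, 0, 0, 67108864⟩, ⟨2, 1, 0, 67108864⟩]]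

noncomputable def f_mm_202_b : ℕ → ℕ → ℕ → ℕ → Bool := onCell 1239849684 370763052 0 536870912 335544320 67108864
    (rowN 3 0 true false false .pp 2 0 2 (qsf 1239849684 370763052 0 536870912 2) ndN1q2b ndN1q0 pcN2 cut_mm_202_b Ext.none)

def k0_mm_202_b : ∃ t, chk3 f_mm_202_b t 1 1 1 = true :=
  ⟨(b (b (a (a (b (b (b (a (l 16501584) (l 16392328)) (a (l 16444336) (l 16380096))) (a (l 16475192) (l 16379256))) (b (a (l 16484968) (l 16459000)) (l 4))) (b (a (b (b (l 16314896) (l 16328168)) (l 16372000)) (b (b (l 16273400) (l 16303984)) (l 4))) (l 4))) (a (b (b (a (l 16427496) (l 4)) (l 4)) (l 4)) (l 4))) (l 4)) (l 4)), by decide +kernel⟩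

theorem c_mm_202_b : CertN 1239849684 370763052 0 536870912 335544320 67108864 3 true false false .pp 2 0 2
    ndN1q2b ndN1q0 pcN2 cut_mm_202_b Ext.none :=
  certN0 (fam := true) (s1 := false) (s2 := false) (a := 2) (b := 0) (c := 2) (cn := .pp) (n1 := ndN1q2b) (n2 := ndN1q0) (pc := pcN2) (cut := cut_mm_202_b) (xt := Ext.none) (P1 := 1239849684) (W1 := 370763052) (P2 := 0) (W2 := 536870912) (P3 := 335544320) (W3 := 67108864) (N0 := 3)
    rfl k0_mm_202_b

noncomputable def f_mm_203_a : ℕ → ℕ → ℕ → ℕ → Bool := onCell 0 536870912 1610612736 536870912 335544320 67108864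
    (rowN 3 1 true false false .up 2 0 3 (qsf 0 536870912 0 536870912 3) ndN1q2a ndN1q0 pcN3 Cut.none Ext.none)

def k0_mm_203_a : ∃ t, chk3 f_mm_203_a t 1 1 1 = true :=
  ⟨(l 4), by decide +kernel⟩

theorem c_mm_203_a : CertN 0 536870912 0 536870912 335544320 67108864 3 true false false .up 2 0 3
    ndN1q2a ndN1q0 pcN3 Cut.none Ext.none :=
  certN1 (fam := true) (s1 := false) (s2 := false) (a := 2) (b := 0) (c := 3) (cn := .up) (n1 := ndN1q2a) (n2 := ndN1q0) (pc := pcN3) (cut := Cut.none) (xt := Ext.none) (P1 := 0) (W1 := 536870912) (P2 := 0) (W2 := 536870912) (P3 := 335544320) (W3 := 67108864) (N0 := 3)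
    rfl (fun _ => rfl) k0_mm_203_a

noncomputable def f_mm_203_b : ℕ → ℕ → ℕ → ℕ → Bool := onCell 1239849684 370763052 1610612736 536870912 335544320 67108864
    (rowN 3 1 true false false .up 2 0 3 (qsf 1239849684 370763052 0 536870912 3) ndN1q2b ndN1q0 pcN3 Cut.none Ext.none)

def k0_mm_203_b : ∃ t, chk3 f_mm_203_b t 1 1 1 = true :=
  ⟨(l 4), by decide +kernel⟩

theorem c_mm_203_b : CertN 1239849684 370763052 0 536870912 335544320 67108864 3 true false false .up 2 0 3
    ndN1q2b ndN1q0 pcN3 Cut.none Ext.none :=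
  certN1 (fam := true) (s1 := false) (s2 := false) (a := 2) (b := 0) (c := 3) (cn := .up) (n1 := ndN1q2b) (n2 := ndN1q0) (pc := pcN3) (cut := Cut.none) (xt := Ext.none) (P1 := 1239849684) (W1 := 370763052) (P2 := 0) (W2 := 536870912) (P3 := 335544320) (W3 := 67108864) (N0 := 3)
    rfl (fun _ => rfl) k0_mm_203_b

noncomputable def f_mm_213_a : ℕ → ℕ → ℕ → ℕ → Bool := onCell 0 536870912 536870912 536870912 335544320 67108864
    (rowN 3 0 true false false .pnn 2 1 3 (qsf 0 536870912 536870912 536870912 3) ndN1q2a ndN1q1 pcN3 Cut.none Ext.none)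

def k0_mm_213_a : ∃ t, chk3 f_mm_213_a t 1 1 1 = true :=
  ⟨(l 4), by decide +kernel⟩

theorem c_mm_213_a : CertN 0 536870912 536870912 536870912 335544320 67108864 3 true false false .pnn 2 1 3
    ndN1q2a ndN1q1 pcN3 Cut.none Ext.none :=
  certN0 (fam := true) (s1 := false) (s2 := false) (a := 2) (b := 1) (c := 3) (cn := .pnn) (n1 := ndN1q2a) (n2 := ndN1q1) (pc := pcN3) (cut := Cut.none) (xt := Ext.none) (P1 := 0) (W1 := 536870912) (P2 := 536870912) (W2 := 536870912) (P3 := 335544320) (W3 := 67108864) (N0 := 3)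
    rfl k0_mm_213_a

noncomputable def f_mm_213_b : ℕ → ℕ → ℕ → ℕ → Bool := onCell 1239849684 370763052 536870912 536870912 335544320 67108864
    (rowN 3 0 true false false .pnn 2 1 3 (qsf 1239849684 370763052 536870912 536870912 3) ndN1q2b ndN1q1 pcN3 Cut.none Ext.none)

def k0_mm_213_b : ∃ t, chk3 f_mm_213_b t 1 1 1 = true :=
  ⟨(l 4), by decide +kernel⟩

theorem c_mm_213_b : CertN 1239849684 370763052 536870912 536870912 335544320 67108864 3 true false false .pnn 2 1 3
    ndN1q2b ndN1q1 pcN3 Cut.none Ext.none :=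
  certN0 (fam := true) (s1 := false) (s2 := false) (a := 2) (b := 1) (c := 3) (cn := .pnn) (n1 := ndN1q2b) (n2 := ndN1q1) (pc := pcN3) (cut := Cut.none) (xt := Ext.none) (P1 := 1239849684) (W1 := 370763052) (P2 := 536870912) (W2 := 536870912) (P3 := 335544320) (W3 := 67108864) (N0 := 3)
    rfl k0_mm_213_b

noncomputable def f_mm_303 : ℕ → ℕ → ℕ → ℕ → Bool := onCell 1610612736 536870912 0 536870912 335544320 67108864
    (rowN 3 0 true false false .npn 3 0 3 (qsf 1610612736 536870912 0 536870912 3) ndN1q3 ndN1q0 pcN3 Cut.none Ext.none)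

def k0_mm_303 : ∃ t, chk3 f_mm_303 t 1 1 1 = true :=
  ⟨(a (l 4) (l 4)), by decide +kernel⟩

theorem c_mm_303 : CertN 1610612736 536870912 0 536870912 335544320 67108864 3 true false false .npn 3 0 3
    ndN1q3 ndN1q0 pcN3 Cut.none Ext.none :=
  certN0 (fam := true) (s1 := false) (s2 := false) (a := 3) (b := 0) (c := 3) (cn := .npn) (n1 := ndN1q3) (n2 := ndN1q0) (pc := pcN3) (cut := Cut.none) (xt := Ext.none) (P1 := 1610612736) (W1 := 536870912) (P2 := 0) (W2 := 536870912) (P3 := 335544320) (W3 := 67108864) (N0 := 3)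
    rfl k0_mm_303

noncomputable def f_mm_313 : ℕ → ℕ → ℕ → ℕ → Bool := onCell 1610612736 536870912 536870912 536870912 335544320 67108864
    (rowN 3 0 true false false .dn 3 1 3 (qsf 1610612736 536870912 536870912 536870912 3) ndN1q3 ndN1q1 pcN3 Cut.none Ext.none)

def k0_mm_313 : ∃ t, chk3 f_mm_313 t 1 1 1 = true :=
  ⟨(l 4), by decide +kernel⟩

theorem c_mm_313 : CertN 1610612736 536870912 536870912 536870912 335544320 67108864 3 true false false .dn 3 1 3
    ndN1q3 ndN1q1 pcN3 Cut.none Ext.none :=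
  certN0 (fam := true) (s1 := false) (s2 := false) (a := 3) (b := 1) (c := 3) (cn := .dn) (n1 := ndN1q3) (n2 := ndN1q1) (pc := pcN3) (cut := Cut.none) (xt := Ext.none) (P1 := 1610612736) (W1 := 536870912) (P2 := 536870912) (W2 := 536870912) (P3 := 335544320) (W3 := 67108864) (N0 := 3)
    rfl k0_mm_313

end Pool.Agent.Strip051.G.I5_16_3_8.Tab.C.NA11

namespace Pool.Agent.Strip051.G.I5_16_3_8.Tab.C.NA12

open Pool.Agent.Strip051.PB Pool.Agent.Strip051.PB.T
open Pool.Agent.Strip051.G.I5_16_3_8.Tab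

noncomputable def f_pp_001 : ℕ → ℕ → ℕ → ℕ → Bool := onCell 0 536870912 0 536870912 335544320 67108864
    (rowN 3 0 true true true .up 0 0 1 (qsf 0 536870912 0 536870912 1) ndN1q0 ndN2q0 pcN1 Cut.none Ext.none)

def k0_pp_001 : ∃ t, chk3 f_pp_001 t 1 1 1 = true :=
  ⟨(l 4), by decide +kernel⟩

theorem c_pp_001 : CertN 0 536870912 0 536870912 335544320 67108864 3 true true true .up 0 0 1
    ndN1q0 ndN2q0 pcN1 Cut.none Ext.none :=
  certN0 (fam := true) (s1 := true) (s2 := true) (a := 0) (b := 0) (c := 1) (cn := .up) (n1 := ndN1q0) (n2 := ndN2q0) (pc := pcN1) (cut := Cut.none) (xt := Ext.none) (P1 := 0) (W1 := 536870912) (P2 := 0) (W2 := 536870912) (P3 := 335544320) (W3 := 67108864) (N0 := 3)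
    rfl k0_pp_001

noncomputable def f_pp_011 : ℕ → ℕ → ℕ → ℕ → Bool := onCell 0 536870912 536870912 536870912 335544320 67108864
    (rowN 3 0 true true true .pnn 0 1 1 (qsf 0 536870912 536870912 536870912 1) ndN1q0 ndN2q1 pcN1 Cut.none Ext.none)

def k0_pp_011 : ∃ t, chk3 f_pp_011 t 1 1 1 = true :=
  ⟨(l 4), by decide +kernel⟩

theorem c_pp_011 : CertN 0 536870912 536870912 536870912 335544320 67108864 3 true true true .pnn 0 1 1
    ndN1q0 ndN2q1 pcN1 Cut.none Ext.none :=
  certN0 (fam := true) (s1 := true) (s2 := true) (a := 0) (b := 1) (c := 1) (cn := .pnn) (n1 := ndN1q0) (n2 := ndN2q1) (pc := pcN1) (cut := Cut.none) (xt := Ext.none) (P1 := 0) (W1 := 536870912) (P2 := 536870912) (W2 := 536870912) (P3 := 335544320) (W3 := 67108864) (N0 := 3)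
    rfl k0_pp_011

noncomputable def f_pp_012 : ℕ → ℕ → ℕ → ℕ → Bool := onCell 0 536870912 536870912 536870912 335544320 67108864
    (rowN 3 0 true true true .pnp 0 1 2 (qsf 0 536870912 536870912 536870912 2) ndN1q0 ndN2q1 pcN2 Cut.none Ext.none)

def k0_pp_012 : ∃ t, chk3 f_pp_012 t 1 1 1 = true :=
  ⟨(l 4), by decide +kernel⟩

theorem c_pp_012 : CertN 0 536870912 536870912 536870912 335544320 67108864 3 true true true .pnp 0 1 2
    ndN1q0 ndN2q1 pcN2 Cut.none Ext.none :=
  certN0 (fam := true) (s1 := true) (s2 := true) (a := 0) (b := 1) (c := 2) (cn := .pnp) (n1 := ndN1q0) (n2 := ndN2q1) (pc := pcN2) (cut := Cut.none) (xt := Ext.none) (P1 := 0) (W1 := 536870912) (P2 := 536870912) (W2 := 536870912) (P3 := 335544320) (W3 := 67108864) (N0 := 3)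
    rfl k0_pp_012

noncomputable def f_pp_022 : ℕ → ℕ → ℕ → ℕ → Bool := onCell 0 536870912 1073741824 536870912 335544320 67108864
    (rowN 3 0 true true true .pp 0 2 2 (qsf 0 536870912 1073741824 536870912 2) ndN1q0 ndN2q2 pcN2 Cut.none Ext.none)

def k0_pp_022 : ∃ t, chk3 f_pp_022 t 1 1 1 = true :=
  ⟨(l 4), by decide +kernel⟩

theorem c_pp_022 : CertN 0 536870912 1073741824 536870912 335544320 67108864 3 true true true .pp 0 2 2
    ndN1q0 ndN2q2 pcN2 Cut.none Ext.none :=
  certN0 (fam := true) (s1 := true) (s2 := true) (a := 0) (b := 2) (c := 2) (cn := .pp) (n1 := ndN1q0) (n2 := ndN2q2) (pc := pcN2) (cut := Cut.none) (xt := Ext.none) (P1 := 0) (W1 := 536870912) (P2 := 1073741824) (W2 := 536870912) (P3 := 335544320) (W3 := 67108864) (N0 := 3)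
    rfl k0_pp_022

noncomputable def f_pp_023 : ℕ → ℕ → ℕ → ℕ → Bool := onCell 0 536870912 1073741824 536870912 335544320 67108864
    (rowN 3 0 true true true .up 0 2 3 (qsf 0 536870912 1073741824 536870912 3) ndN1q0 ndN2q2 pcN3 Cut.none Ext.none)

def k0_pp_023 : ∃ t, chk3 f_pp_023 t 1 1 1 = true :=
  ⟨(l 4), by decide +kernel⟩

theorem c_pp_023 : CertN 0 536870912 1073741824 536870912 335544320 67108864 3 true true true .up 0 2 3
    ndN1q0 ndN2q2 pcN3 Cut.none Ext.none :=
  certN0 (fam := true) (s1 := true) (s2 := true) (a := 0) (b := 2) (c := 3) (cn := .up) (n1 := ndN1q0) (n2 := ndN2q2) (pc := pcN3) (cut := Cut.none) (xt := Ext.none) (P1 := 0) (W1 := 536870912) (P2 := 1073741824) (W2 := 536870912) (P3 := 335544320) (W3 := 67108864) (N0 := 3)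
    rfl k0_pp_023

noncomputable def f_pp_033 : ℕ → ℕ → ℕ → ℕ → Bool := onCell 0 536870912 0 1230186008 335544320 67108864
    (rowN 3 0 true true true .pnn 0 3 3 (qsf 0 536870912 0 1230186008 3) ndN1q0 ndN2q3 pcN3 Cut.none Ext.none)

def k0_pp_033 : ∃ t, chk3 f_pp_033 t 1 1 1 = true :=
  ⟨(b (l 4) (l 4)), by decide +kernel⟩

theorem c_pp_033 : CertN 0 536870912 0 1230186008 335544320 67108864 3 true true true .pnn 0 3 3
    ndN1q0 ndN2q3 pcN3 Cut.none Ext.none :=
  certN0 (fam := true) (s1 := true) (s2 := true) (a := 0) (b := 3) (c := 3) (cn := .pnn) (n1 := ndN1q0) (n2 := ndN2q3) (pc := pcN3) (cut := Cut.none) (xt := Ext.none) (P1 := 0) (W1 := 536870912) (P2 := 0) (W2 := 1230186008) (P3 := 335544320) (W3 := 67108864) (N0 := 3)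
    rfl k0_pp_033

noncomputable def f_pp_101 : ℕ → ℕ → ℕ → ℕ → Bool := onCell 536870912 536870912 0 536870912 335544320 67108864
    (rowN 3 0 true true true .npn 1 0 1 (qsf 536870912 536870912 0 536870912 1) ndN1q1 ndN2q0 pcN1 Cut.none Ext.none)

def k0_pp_101 : ∃ t, chk3 f_pp_101 t 1 1 1 = true :=
  ⟨(l 4), by decide +kernel⟩

theorem c_pp_101 : CertN 536870912 536870912 0 536870912 335544320 67108864 3 true true true .npn 1 0 1
    ndN1q1 ndN2q0 pcN1 Cut.none Ext.none :=
  certN0 (fam := true) (s1 := true) (s2 := true) (a := 1) (b := 0) (c := 1) (cn := .npn) (n1 := ndN1q1) (n2 := ndN2q0) (pc := pcN1) (cut := Cut.none) (xt := Ext.none) (P1 := 536870912) (W1 := 536870912) (P2 := 0) (W2 := 536870912) (P3 := 335544320) (W3 := 67108864) (N0 := 3)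
    rfl k0_pp_101

noncomputable def f_pp_102 : ℕ → ℕ → ℕ → ℕ → Bool := onCell 536870912 536870912 0 536870912 335544320 67108864
    (rowN 3 0 true true true .npp 1 0 2 (qsf 536870912 536870912 0 536870912 2) ndN1q1 ndN2q0 pcN2 Cut.none Ext.none)

def k0_pp_102 : ∃ t, chk3 f_pp_102 t 1 1 1 = true :=
  ⟨(l 4), by decide +kernel⟩

theorem c_pp_102 : CertN 536870912 536870912 0 536870912 335544320 67108864 3 true true true .npp 1 0 2
    ndN1q1 ndN2q0 pcN2 Cut.none Ext.none :=
  certN0 (fam := true) (s1 := true) (s2 := true) (a := 1) (b := 0) (c := 2) (cn := .npp) (n1 := ndN1q1) (n2 := ndN2q0) (pc := pcN2) (cut := Cut.none) (xt := Ext.none) (P1 := 536870912) (W1 := 536870912) (P2 := 0) (W2 := 536870912) (P3 := 335544320) (W3 := 67108864) (N0 := 3)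
    rfl k0_pp_102

noncomputable def f_pp_112 : ℕ → ℕ → ℕ → ℕ → Bool := onCell 536870912 536870912 536870912 536870912 335544320 67108864
    (rowN 3 0 true true true .dn 1 1 2 (qsf 536870912 536870912 536870912 536870912 2) ndN1q1 ndN2q1 pcN2 Cut.none Ext.none)

def k0_pp_112 : ∃ t, chk3 f_pp_112 t 1 1 1 = true :=
  ⟨(l 4), by decide +kernel⟩

theorem c_pp_112 : CertN 536870912 536870912 536870912 536870912 335544320 67108864 3 true true true .dn 1 1 2
    ndN1q1 ndN2q1 pcN2 Cut.none Ext.none :=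
  certN0 (fam := true) (s1 := true) (s2 := true) (a := 1) (b := 1) (c := 2) (cn := .dn) (n1 := ndN1q1) (n2 := ndN2q1) (pc := pcN2) (cut := Cut.none) (xt := Ext.none) (P1 := 536870912) (W1 := 536870912) (P2 := 536870912) (W2 := 536870912) (P3 := 335544320) (W3 := 67108864) (N0 := 3)
    rfl k0_pp_112

noncomputable def f_pp_113 : ℕ → ℕ → ℕ → ℕ → Bool := onCell 536870912 536870912 536870912 536870912 335544320 67108864
    (rowN 3 0 true true true .nn 1 1 3 (qsf 536870912 536870912 536870912 536870912 3) ndN1q1 ndN2q1 pcN3 Cut.none Ext.none)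

def k0_pp_113 : ∃ t, chk3 f_pp_113 t 1 1 1 = true :=
  ⟨(l 4), by decide +kernel⟩

theorem c_pp_113 : CertN 536870912 536870912 536870912 536870912 335544320 67108864 3 true true true .nn 1 1 3
    ndN1q1 ndN2q1 pcN3 Cut.none Ext.none :=
  certN0 (fam := true) (s1 := true) (s2 := true) (a := 1) (b := 1) (c := 3) (cn := .nn) (n1 := ndN1q1) (n2 := ndN2q1) (pc := pcN3) (cut := Cut.none) (xt := Ext.none) (P1 := 536870912) (W1 := 536870912) (P2 := 536870912) (W2 := 536870912) (P3 := 335544320) (W3 := 67108864) (N0 := 3)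
    rfl k0_pp_113

noncomputable def f_pp_123 : ℕ → ℕ → ℕ → ℕ → Bool := onCell 536870912 536870912 1073741824 536870912 335544320 67108864
    (rowN 3 0 true true true .npn 1 2 3 (qsf 536870912 536870912 1073741824 536870912 3) ndN1q1 ndN2q2 pcN3 Cut.none Ext.none)

def k0_pp_123 : ∃ t, chk3 f_pp_123 t 1 1 1 = true :=
  ⟨(l 4), by decide +kernel⟩

theorem c_pp_123 : CertN 536870912 536870912 1073741824 536870912 335544320 67108864 3 true true true .npn 1 2 3
    ndN1q1 ndN2q2 pcN3 Cut.none Ext.none :=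
  certN0 (fam := true) (s1 := true) (s2 := true) (a := 1) (b := 2) (c := 3) (cn := .npn) (n1 := ndN1q1) (n2 := ndN2q2) (pc := pcN3) (cut := Cut.none) (xt := Ext.none) (P1 := 536870912) (W1 := 536870912) (P2 := 1073741824) (W2 := 536870912) (P3 := 335544320) (W3 := 67108864) (N0 := 3)
    rfl k0_pp_123

noncomputable def f_pp_133 : ℕ → ℕ → ℕ → ℕ → Bool := onCell 536870912 536870912 0 1230186008 335544320 67108864
    (rowN 3 0 true true true .dn 1 3 3 (qsf 536870912 536870912 0 1230186008 3) ndN1q1 ndN2q3 pcN3 Cut.none Ext.none)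

def k0_pp_133 : ∃ t, chk3 f_pp_133 t 1 1 1 = true :=
  ⟨(l 4), by decide +kernel⟩

theorem c_pp_133 : CertN 536870912 536870912 0 1230186008 335544320 67108864 3 true true true .dn 1 3 3
    ndN1q1 ndN2q3 pcN3 Cut.none Ext.none :=
  certN0 (fam := true) (s1 := true) (s2 := true) (a := 1) (b := 3) (c := 3) (cn := .dn) (n1 := ndN1q1) (n2 := ndN2q3) (pc := pcN3) (cut := Cut.none) (xt := Ext.none) (P1 := 536870912) (W1 := 536870912) (P2 := 0) (W2 := 1230186008) (P3 := 335544320) (W3 := 67108864) (N0 := 3)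
    rfl k0_pp_133

noncomputable def f_pp_202_a : ℕ → ℕ → ℕ → ℕ → Bool := onCell 0 536870912 0 536870912 335544320 67108864
    (rowN 3 0 true true true .pp 2 0 2 (qsf 0 536870912 0 536870912 2) ndN1q2a ndN2q0 pcN2 Cut.none Ext.none)

def k0_pp_202_a : ∃ t, chk3 f_pp_202_a t 1 1 1 = true :=
  ⟨(l 5), by decide +kernel⟩

theorem c_pp_202_a : CertN 0 536870912 0 536870912 335544320 67108864 3 true true true .pp 2 0 2
    ndN1q2a ndN2q0 pcN2 Cut.none Ext.none :=
  certN0 (fam := true) (s1 := true) (s2 := true) (a := 2) (b := 0) (c := 2) (cn := .pp) (n1 := ndN1q2a) (n2 := ndN2q0) (pc := pcN2) (cut := Cut.none) (xt := Ext.none) (P1 := 0) (W1 := 536870912) (P2 := 0) (W2 := 536870912) (P3 := 335544320) (W3 := 67108864) (N0 := 3)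
    rfl k0_pp_202_a

noncomputable def f_pp_202_b : ℕ → ℕ → ℕ → ℕ → Bool := onCell 1239849684 370763052 0 536870912 335544320 67108864
    (rowN 3 0 true true true .pp 2 0 2 (qsf 1239849684 370763052 0 536870912 2) ndN1q2b ndN2q0 pcN2 Cut.none Ext.none)

def k0_pp_202_b : ∃ t, chk3 f_pp_202_b t 1 1 1 = true :=
  ⟨(l 5), by decide +kernel⟩

theorem c_pp_202_b : CertN 1239849684 370763052 0 536870912 335544320 67108864 3 true true true .pp 2 0 2
    ndN1q2b ndN2q0 pcN2 Cut.none Ext.none :=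
  certN0 (fam := true) (s1 := true) (s2 := true) (a := 2) (b := 0) (c := 2) (cn := .pp) (n1 := ndN1q2b) (n2 := ndN2q0) (pc := pcN2) (cut := Cut.none) (xt := Ext.none) (P1 := 1239849684) (W1 := 370763052) (P2 := 0) (W2 := 536870912) (P3 := 335544320) (W3 := 67108864) (N0 := 3)
    rfl k0_pp_202_b

noncomputable def f_pp_203_a : ℕ → ℕ → ℕ → ℕ → Bool := onCell 0 536870912 0 536870912 335544320 67108864
    (rowN 3 0 true true true .up 2 0 3 (qsf 0 536870912 0 536870912 3) ndN1q2a ndN2q0 pcN3 Cut.none Ext.none)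

def k0_pp_203_a : ∃ t, chk3 f_pp_203_a t 1 1 1 = true :=
  ⟨(l 5), by decide +kernel⟩

theorem c_pp_203_a : CertN 0 536870912 0 536870912 335544320 67108864 3 true true true .up 2 0 3
    ndN1q2a ndN2q0 pcN3 Cut.none Ext.none :=
  certN0 (fam := true) (s1 := true) (s2 := true) (a := 2) (b := 0) (c := 3) (cn := .up) (n1 := ndN1q2a) (n2 := ndN2q0) (pc := pcN3) (cut := Cut.none) (xt := Ext.none) (P1 := 0) (W1 := 536870912) (P2 := 0) (W2 := 536870912) (P3 := 335544320) (W3 := 67108864) (N0 := 3)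
    rfl k0_pp_203_a

noncomputable def f_pp_203_b : ℕ → ℕ → ℕ → ℕ → Bool := onCell 1239849684 370763052 0 536870912 335544320 67108864
    (rowN 3 0 true true true .up 2 0 3 (qsf 1239849684 370763052 0 536870912 3) ndN1q2b ndN2q0 pcN3 Cut.none Ext.none)

def k0_pp_203_b : ∃ t, chk3 f_pp_203_b t 1 1 1 = true :=
  ⟨(l 5), by decide +kernel⟩

theorem c_pp_203_b : CertN 1239849684 370763052 0 536870912 335544320 67108864 3 true true true .up 2 0 3
    ndN1q2b ndN2q0 pcN3 Cut.none Ext.none :=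
  certN0 (fam := true) (s1 := true) (s2 := true) (a := 2) (b := 0) (c := 3) (cn := .up) (n1 := ndN1q2b) (n2 := ndN2q0) (pc := pcN3) (cut := Cut.none) (xt := Ext.none) (P1 := 1239849684) (W1 := 370763052) (P2 := 0) (W2 := 536870912) (P3 := 335544320) (W3 := 67108864) (N0 := 3)
    rfl k0_pp_203_b

noncomputable def f_pp_213_a : ℕ → ℕ → ℕ → ℕ → Bool := onCell 0 536870912 536870912 536870912 335544320 67108864
    (rowN 3 0 true true true .pnn 2 1 3 (qsf 0 536870912 536870912 536870912 3) ndN1q2a ndN2q1 pcN3 Cut.none Ext.none)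

def k0_pp_213_a : ∃ t, chk3 f_pp_213_a t 1 1 1 = true :=
  ⟨(l 4), by decide +kernel⟩

theorem c_pp_213_a : CertN 0 536870912 536870912 536870912 335544320 67108864 3 true true true .pnn 2 1 3
    ndN1q2a ndN2q1 pcN3 Cut.none Ext.none :=
  certN0 (fam := true) (s1 := true) (s2 := true) (a := 2) (b := 1) (c := 3) (cn := .pnn) (n1 := ndN1q2a) (n2 := ndN2q1) (pc := pcN3) (cut := Cut.none) (xt := Ext.none) (P1 := 0) (W1 := 536870912) (P2 := 536870912) (W2 := 536870912) (P3 := 335544320) (W3 := 67108864) (N0 := 3)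
    rfl k0_pp_213_a

noncomputable def f_pp_213_b : ℕ → ℕ → ℕ → ℕ → Bool := onCell 1239849684 370763052 536870912 536870912 335544320 67108864
    (rowN 3 0 true true true .pnn 2 1 3 (qsf 1239849684 370763052 536870912 536870912 3) ndN1q2b ndN2q1 pcN3 Cut.none Ext.none)

def k0_pp_213_b : ∃ t, chk3 f_pp_213_b t 1 1 1 = true :=
  ⟨(l 4), by decide +kernel⟩

theorem c_pp_213_b : CertN 1239849684 370763052 536870912 536870912 335544320 67108864 3 true true true .pnn 2 1 3
    ndN1q2b ndN2q1 pcN3 Cut.none Ext.none :=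
  certN0 (fam := true) (s1 := true) (s2 := true) (a := 2) (b := 1) (c := 3) (cn := .pnn) (n1 := ndN1q2b) (n2 := ndN2q1) (pc := pcN3) (cut := Cut.none) (xt := Ext.none) (P1 := 1239849684) (W1 := 370763052) (P2 := 536870912) (W2 := 536870912) (P3 := 335544320) (W3 := 67108864) (N0 := 3)
    rfl k0_pp_213_b

noncomputable def f_pp_303 : ℕ → ℕ → ℕ → ℕ → Bool := onCell 1610612736 536870912 0 536870912 335544320 67108864
    (rowN 3 0 true true true .npn 3 0 3 (qsf 1610612736 536870912 0 536870912 3) ndN1q3 ndN2q0 pcN3 Cut.none Ext.none)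

def k0_pp_303 : ∃ t, chk3 f_pp_303 t 1 1 1 = true :=
  ⟨(l 4), by decide +kernel⟩

theorem c_pp_303 : CertN 1610612736 536870912 0 536870912 335544320 67108864 3 true true true .npn 3 0 3
    ndN1q3 ndN2q0 pcN3 Cut.none Ext.none :=
  certN0 (fam := true) (s1 := true) (s2 := true) (a := 3) (b := 0) (c := 3) (cn := .npn) (n1 := ndN1q3) (n2 := ndN2q0) (pc := pcN3) (cut := Cut.none) (xt := Ext.none) (P1 := 1610612736) (W1 := 536870912) (P2 := 0) (W2 := 536870912) (P3 := 335544320) (W3 := 67108864) (N0 := 3)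
    rfl k0_pp_303

noncomputable def f_pp_313 : ℕ → ℕ → ℕ → ℕ → Bool := onCell 1610612736 536870912 536870912 536870912 335544320 67108864
    (rowN 3 0 true true true .dn 3 1 3 (qsf 1610612736 536870912 536870912 536870912 3) ndN1q3 ndN2q1 pcN3 Cut.none Ext.none)

def k0_pp_313 : ∃ t, chk3 f_pp_313 t 1 1 1 = true :=
  ⟨(l 4), by decide +kernel⟩

theorem c_pp_313 : CertN 1610612736 536870912 536870912 536870912 335544320 67108864 3 true true true .dn 3 1 3
    ndN1q3 ndN2q1 pcN3 Cut.none Ext.none :=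
  certN0 (fam := true) (s1 := true) (s2 := true) (a := 3) (b := 1) (c := 3) (cn := .dn) (n1 := ndN1q3) (n2 := ndN2q1) (pc := pcN3) (cut := Cut.none) (xt := Ext.none) (P1 := 1610612736) (W1 := 536870912) (P2 := 536870912) (W2 := 536870912) (P3 := 335544320) (W3 := 67108864) (N0 := 3)
    rfl k0_pp_313

noncomputable def f_pm_001 : ℕ → ℕ → ℕ → ℕ → Bool := onCell 0 536870912 0 536870912 335544320 67108864
    (rowN 3 0 true true false .up 0 0 1 (qsf 0 536870912 0 536870912 1) ndN1q0 ndN2q0 pcN1 Cut.none Ext.none)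

def k0_pm_001 : ∃ t, chk3 f_pm_001 t 1 1 1 = true :=
  ⟨(a (l 3) (l 3)), by decide +kernel⟩

theorem c_pm_001 : CertN 0 536870912 0 536870912 335544320 67108864 3 true true false .up 0 0 1
    ndN1q0 ndN2q0 pcN1 Cut.none Ext.none :=
  certN0 (fam := true) (s1 := true) (s2 := false) (a := 0) (b := 0) (c := 1) (cn := .up) (n1 := ndN1q0) (n2 := ndN2q0) (pc := pcN1) (cut := Cut.none) (xt := Ext.none) (P1 := 0) (W1 := 536870912) (P2 := 0) (W2 := 536870912) (P3 := 335544320) (W3 := 67108864) (N0 := 3)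
    rfl k0_pm_001

noncomputable def cut_pm_011 : Cut := Cut.of [[⟨0, 0, 0, 67108864⟩, ⟨1, 1, 0, 67108864⟩, ⟨2, 1, 0, 67108864⟩]]

noncomputable def f_pm_011 : ℕ → ℕ → ℕ → ℕ → Bool := onCell 0 536870912 536870912 536870912 335544320 67108864
    (rowN 3 1 true true false .pnn 0 1 1 (qsf 0 536870912 536870912 536870912 1) ndN1q0 ndN2q1 pcN1 cut_pm_011 Ext.none)

def k0_pm_011 : ∃ t, chk3 f_pm_011 t 1 1 1 = true :=
  ⟨(a (b (l 3) (a (b (l 3) (b (l 3) (a (b (l 3) (a (b (l 3) (l 6)) (l 3))) (l 3)))) (l 3))) (l 3)), by decide +kernel⟩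

theorem c_pm_011 : CertN 0 536870912 536870912 536870912 335544320 67108864 3 true true false .pnn 0 1 1
    ndN1q0 ndN2q1 pcN1 cut_pm_011 Ext.none :=
  certN1 (fam := true) (s1 := true) (s2 := false) (a := 0) (b := 1) (c := 1) (cn := .pnn) (n1 := ndN1q0) (n2 := ndN2q1) (pc := pcN1) (cut := cut_pm_011) (xt := Ext.none) (P1 := 0) (W1 := 536870912) (P2 := 536870912) (W2 := 536870912) (P3 := 335544320) (W3 := 67108864) (N0 := 3)
    rfl (fun _ => rfl) k0_pm_011

end Pool.Agent.Strip051.G.I5_16_3_8.Tab.C.NA12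

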