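import Pool.Agent.Strip051.G.I5_16_3_8.Tab

/-! # Certificates N5 (generated) -/

set_option linter.all false
set_option maxRecDepth 100000

namespace Pool.Agent.Strip051.G.I5_16_3_8.Tab.C.NB00

open Pool.Agent.Strip051.PB Pool.Agent.Strip051.PB.T
open Pool.Agent.Strip051.G.I5_16_3_8.Tab

noncomputable def cut_pm_011 : Cut := Cut.of [[⟨0, 0, 0, 67108864⟩, ⟨1, 1, 0, 67108864⟩, ⟨2, 1, 0, 67108864⟩], [⟨0, 0, 1, 33554432⟩, ⟨1, 1, 2, 33554432⟩, ⟨2, 1, 0, 33554432⟩]]

noncomputable def f_pm_011 : ℕ → ℕ → ℕ → ℕ → Bool := onCell 0 536870912 536870912 536870912 335544320 67108864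
    (rowN 3 0 false true false .pnn 0 1 1 (qsf 0 536870912 536870912 536870912 1) ndN0q0 ndN0q1 pcN1 cut_pm_011 Ext.none)

def k0_pm_011 : ∃ t, chk3 f_pm_011 t 2 2 1 = true :=
  ⟨(l 4), by decide +kernel⟩

def k1_pm_011 : ∃ t, chk3 f_pm_011 t 4 6 1 = true :=
  ⟨(l 4), by decide +kernel⟩

def k2_pm_011 : ∃ t, chk3 f_pm_011 t 4 14 1 = true :=
  ⟨(a (l 4) (b (l 4) (a (l 4) (b (l 4) (a (l 4) (b (l 4) (a (b (l 4) (a (l 4) (b (l 4) (a (b (l 4) (l 136600108183)) (b (l 128010172951) (c (l 39963338599) (l 16782264))))))) (b (a (l 4) (b (c (l 146263779063) (l 150021875111)) (b (a (l 4) (c (l 56069467463) (l 81302400983))) (a (a (l 97945400999) (l 54458855751)) (l 16782312))))) (a (b (a (b (l 4) (a (l 4) (l 79154918615))) (b (l 79691791879) (l 24394084183))) (b (c (l 15267277031) (l 16781752)) (l 16779560))) (b (c (l 16780360) (l 16785032)) (l 16780248))))))))))), by decide +kernel⟩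

def k3_pm_011 : ∃ t, chk3 f_pm_011 t 8 30 1 = true :=
  ⟨(a (l 4) (b (l 4) (a (l 4) (b (l 4) (a (l 4) (b (l 4) (a (l 4) (b (l 4) (a (b (l 4) (a (l 4) (b (l 4) (c (l 56606332135) (l 56069461399))))) (a (b (l 4) (b (c (l 51774493927) (l 51237623191)) (l 16780456))) (b (b (c (l 142505675255) (l 145726900631)) (c (l 47479526471) (l 46405784807))) (c (l 16778472) (l 16780944))))))))))))), by decide +kernel⟩

def k4_pm_011 : ∃ t, chk3 f_pm_011 t 16 31 1 = true :=
  ⟨(b (b (l 4) (l 6)) (l 6)), by decide +kernel⟩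

def k5_pm_011 : ∃ t, chk3 f_pm_011 t 34 124 1 = true :=
  ⟨(a (l 4) (b (l 4) (a (l 4) (b (l 4) (a (l 4) (b (l 4) (a (b (l 4) (c (a (l 139821319751) (c (l 52311362695) (l 52311362727))) (a (l 142505674279) (l 54458847223)))) (b (c (a (l 133915742231) (l 48553267143)) (a (l 136600094119) (l 48553267047))) (c (l 16778592) (l 16779168)))))))))), by decide +kernel⟩

def k6_pm_011 : ∃ t, chk3 f_pm_011 t 34 125 1 = true :=
  ⟨(a (b (b (l 4) (l 6)) (l 6)) (b (a (b (a (l 4) (b (l 4) (a (a (l 4) (b (l 4) (b (l 4) (c (l 59827555367) (l 59827555543))))) (a (b (l 4) (c (c (l 32447138407) (l 32447138439)) (l 32447139271))) (c (b (b (l 4) (l 53385104311)) (l 16779216)) (b (l 67880620087) (l 16779152))))))) (a (b (a (l 6) (a (l 6) (b (b (l 4) (l 6)) (l 6)))) (l 6)) (c (a (a (b (b (c (l 36742105735) (l 37278976759)) (l 16778760)) (l 6)) (b (l 16778728) (l 16777080))) (b (l 16778064) (l 16776416))) (b (a (b (c (l 23320333255) (l 22246591543)) (l 16778600)) (l 16778144)) (l 16776960))))) (b (a (b (a (a (l 4) (b (l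 4) (b (l 4) (a (l 71101846583) (l 31910269543))))) (b (c (a (l 145190028983) (c (l 57680071863) (l 57680072055))) (a (l 147874383511) (l 58753814647))) (c (c (l 16778752) (l 16778712)) (l 16778992)))) (a (b (c (c (l 17414753079) (l 16778776)) (l 16877882999)) (c (l 16778416) (l 16778488))) (c (l 16777944) (l 16778024)))) (b (a (c (c (l 16778704) (l 16778728)) (l 16779112)) (c (l 16777808) (l 16777904))) (c (l 16776616) (l 16776736)))) (a (b (c (l 16776744) (l 16776848)) (c (l 16775096) (l 16775240))) (b (c (l 16774976) (l 16773816)) (c (l 16774648) (l 16774832)))))) (a (a (l 6) (b (b (c (l 16773888) (l 16774024)) (l 6)) (l 6))) (a (a (b (c (c (l 16772984) (l 16773120)) (c (l 16770584) (l 16770632))) (l 6)) (b (c (c (l 16772096) (l 16769624)) (c (l 16769728) (l 16769776))) (c (c (l 16766120) (l 16766328)) (l 16766512)))) (b (b (c (l 16773000) (l 16769288)) (c (l 16767416) (l 16767664))) (c (c (l 16764800) (l 16765032)) (c (l 16765184) (l 16765256)))))))), by decide +kernel⟩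

def k7_pm_011 : ∃ t, chk3 f_pm_011 t 70 124 1 = true :=
  ⟨(b (a (l 4) (b (l 4) (a (b (l 4) (a (l 4) (b (l 4) (c (l 138747581063) (l 141431932951))))) (b (a (l 4) (b (l 4) (c (a (l 4) (l 77544296983)) (l 132305129767)))) (a (b (c (l 133915742727) (l 136600094599)) (c (c (l 32984010407) (l 32984010327)) (l 32984011191))) (b (c (c (l 28689042967) (l 16779136)) (l 28689043751)) (l 16778528))))))) (a (b (a (l 4) (b (l 4) (a (b (l 4) (a (c (l 72175587623) (l 71638716967)) (c (l 32984010087) (l 16779184)))) (c (b (a (l 66806878711) (l 16779184)) (l 16778936)) (b (c (l 44795170647) (l 44795170775)) (l 16778840)))))) (a (a (b (b (l 4) (c (a (l 128547032999) (l 43184557911)) (c (l 57143202055) (l 58216943847)))) (c (l 16778896) (l 16778648))) (b (c (b (a (l 121030840103) (l 38352719335)) (l 16779096)) (b (c (l 52848234775) (l 52848234903)) (l 16779008))) (c (l 16777680) (l 16777776)))) (b (c (c (l 16777944) (l 16777352)) (l 16778080)) (c (l 16776352) (l 16776488))))) (b (a (b (b (a (c (l 143579416775) (l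 146263771287)) (c (c (l 36742106935) (l 37278977767)) (l 37278978647))) (a (a (c (l 61438169127) (l 60901298439)) (c (l 16779112) (l 16779688))) (l 16779696))) (c (l 16777832) (l 16777936))) (b (c (l 16777680) (l 16777792)) (c (l 16776064) (l 16776216)))) (a (c (c (l 16775344) (l 16775448)) (c (l 16775528) (l 16775584))) (c (l 16772984) (l 16772528)))))), by decide +kernel⟩

def k8_pm_011 : ∃ t, chk3 f_pm_011 t 71 124 1 = true :=
  ⟨(b (a (b (a (b (l 4) (a (l 4) (b (l 4) (a (l 4) (c (l 65733136615) (l 65733136823)))))) (b (a (l 4) (b (l 4) (c (a (l 133378868999) (l 54458847479)) (l 67343750743)))) (a (c (b (a (l 139821320087) (l 60364427671)) (l 16779576)) (b (l 72712460023) (l 16779472))) (c (l 16778848) (l 16778728))))) (a (b (a (b (a (l 4) (c (l 71638716807) (l 71638717015))) (c (l 24930947047) (l 16779648))) (c (c (l 16779056) (l 16778992)) (l 16779568))) (c (l 16777520) (l 16777648))) (c (c (l 16776496) (l 16776592)) (c (l 16776672) (l 16776728))))) (b (a (a (b (c (b (l 60901299431) (l 16779400))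 (b (l 60364428711) (l 16779288))) (c (l 16777624) (l 16780384))) (c (b (l 16778664) (l 16779360)) (l 16778344))) (c (c (l 16776144) (l 16776256)) (l 16776376))) (c (c (l 16775112) (l 16773952)) (a (l 16774976) (l 16775864))))) (a (a (b (c (l 16775760) (l 16775280)) (c (l 16771872) (c (l 16769456) (l 16769528)))) (b (c (l 16773328) (l 16776176)) (c (c (l 16772608) (l 16767576)) (l 16773016)))) (a (b (c (l 16774176) (l 16774448)) (c (l 16770952) (l 16766056))) (b (c (l 16772400) (l 16772720)) (c (l 16769176) (l 16764336)))))), by decide +kernel⟩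

def k9_pm_011 : ∃ t, chk3 f_pm_011 t 35 125 1 = true :=
  ⟨(a (b (a (b (c (c (a (l 16775624) (l 16773840)) (a (l 16775720) (l 16773976))) (c (b (l 16775728) (l 16774128)) (a (l 16775832) (l 16775432)))) (b (a (c (l 16774528) (l 16773416)) (c (l 16771464) (l 16769080))) (a (c (l 16771576) (l 16769184)) (c (l 16767200) (l 16767472))))) (a (b (c (c (l 16769608) (l 16773536)) (c (l 16774960) (l 16769784))) (c (c (l 16766152) (l 16766368)) (c (l 16766520) (l 16766600)))) (b (c (c (l 16770288) (l 16767864)) (c (l 16768000) (l 16768072))) (c (c (l 16764376) (l 16764632)) (l 16764856))))) (a (a (b (c (c (l 16767032) (l 16766584)) (c (l 16766728) (l 16766800))) (c (c (l 16763040) (l 16763304)) (l 16763536))) (b (c (c (l 16764608) (l 16764856)) (l 16767688)) (c (l 16761440) (l 16761840)))) (a (c (b (l 16763648) (l 16759704)) (b (l 16763360) (l 16760144))) (b (c (l 16761248) (l 16761664)) (c (l 16757960) (l 16758456)))))) (b (b (a (c (c (c (l 16769504) (l 16770304)) (c (l 16770432) (l 16765288))) (c (l 16766728)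 (l 16768128))) (c (c (l 16761424) (l 16761744)) (c (l 16761968) (l 16762088)))) (c (a (a (l 16762760) (l 16761000)) (c (l 16758152) (l 16758536))) (a (c (l 16762232) (l 16762336)) (l 16761496)))) (a (c (b (c (l 16758424) (l 16758784)) (c (l 16755120) (l 16755544))) (b (c (l 16759032) (l 16759160)) (l 16758536))) (b (c (l 16756424) (l 16755704)) (c (l 16751856) (l 16752528)))))), by decide +kernel⟩

def k10_pm_011 : ∃ t, chk3 f_pm_011 t 17 63 1 = true :=
  ⟨(b (a (b (b (b (a (l 6) (a (l 6) (a (l 6) (c (l 16762424) (l 16762784))))) (l 6)) (l 6)) (l 6)) (b (a (b (c (c (a (l 16760112) (l 16755304)) (a (l 16759144) (l 16755712))) (a (c (l 16759368) (l 16759472)) (c (l 16755992) (l 16756120)))) (a (c (c (l 16755424) (l 16755824)) (c (l 16756088) (l 16756208))) (c (l 16754824) (l 16755448)))) (c (a (b (l 16752056) (l 16748760)) (b (l 16748584) (c (l 16745056) (l 16745656)))) (a (b (l 16752704) (l 16749480)) (b (l 16749336) (c (l 16746048) (l 16751480)))))) (b (b (a (c (a (l 16753112) (l 16749744)) (a (l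 16753704) (l 16750416))) (c (a (l 16746256) (l 16742808)) (a (l 16752200) (l 16743408)))) (a (a (l 6) (c (l 16753240) (l 16753840))) (c (l 16742944) (l 16743312)))) (a (a (l 6) (c (l 16745640) (l 16745808))) (c (c (l 16740448) (l 16740560)) (l 16745672)))))) (a (l 6) (a (a (l 6) (a (l 6) (b (b (l 16744064) (l 6)) (l 6)))) (b (c (b (l 16742576) (l 16739424)) (b (l 16741856) (l 16732840))) (b (c (c (l 16737072) (l 16730912)) (l 16734672)) (c (l 16733760) (l 16727376))))))), by decide +kernel⟩

def k11_pm_011 : ∃ t, chk3 f_pm_011 t 18 60 1 = true :=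
  ⟨(a (l 4) (b (l 4) (a (l 4) (b (l 4) (a (b (l 4) (a (l 4) (b (a (l 4) (l 135526359607)) (c (b (l 64659399175) (l 16780784)) (a (l 64659398999) (l 16779856)))))) (b (a (b (l 4) (c (l 131231393031) (l 134989483911))) (a (b (l 4) (c (l 45868916183) (l 45868916471))) (b (b (l 4) (l 68954367559)) (l 16782064)))) (b (a (a (a (l 72175593639) (l 48553272839)) (l 16781680)) (l 16780240)) (c (l 16779288) (l 16778920))))))))), by decide +kernel⟩

def k12_pm_011 : ∃ t, chk3 f_pm_011 t 36 122 1 = true :=
  ⟨(a (l 4) (b (l 4) (a (b (l 4) (a (l 4) (b (l 4) (a (l 4) (b (l 4) (l 130157651847)))))) (b (a (l 4) (b (l 4) (a (l 4) (b (l 4) (c (l 65733138583) (l 68417493063)))))) (a (b (a (l 4) (b (l 4) (l 82376139607))) (c (a (b (l 86134233351) (l 51237623527)) (l 16779448)) (a (l 52311366935) (l 16779264)))) (a (b (b (l 77007430599) (l 16780840)) (l 16780584)) (c (l 16780576) (l 16780336)))))))), by decide +kernel⟩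

def k13_pm_011 : ∃ t, chk3 f_pm_011 t 36 123 1 = true :=
  ⟨(a (b (a (l 4) (b (l 4) (a (b (l 4) (a (b (l 4) (c (l 77007427415) (l 77007427415))) (c (b (l 69491234455) (l 16779736)) (b (l 71638718263) (l 16779600))))) (b (b (a (l 4) (c (l 58753816183) (l 58216945399))) (a (c (l 64122525399) (l 66270009111)) (l 16780760))) (c (l 16779616) (l 16780744)))))) (a (b (a (b (l 4) (c (a (l 144116294007) (b (l 131768256695) (l 36742107799))) (a (l 146800643255) (b (l 135526352951) (l 16779648))))) (a (b (b (l 4) (c (l 126399547399) (l 130157643655))) (c (c (l 16779440) (l 16779368)) (l 16779920))) (b (c (b (l 121030838119) (l 16779920)) (b (l 82376136727) (l 16779800))) (l 16779272)))) (a (a (b (b (c (l 41573946279) (l 41573946423)) (l 16778944)) (l 16778664)) (c (l 16777168) (l 16777336))) (c (l 16775824) (l 16776032)))) (b (a (b (c (l 1845498999) (l 16779656)) (l 16777848)) (c (l 16778048) (l 16778280))) (c (a (l 16776656) (l 16774848)) (l 16774720))))) (b (a (b (a (b (c (l 147874391751) (l 150558740983))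 (a (b (l 4) (c (l 53921977943) (l 52848236087))) (c (c (l 27078431671) (l 27078431671)) (l 27078432935)))) (b (a (b (l 136063229447) (a (l 65196268983) (l 16780000))) (c (l 17951626663) (l 16780808))) (c (l 16780488) (l 16780264)))) (c (a (c (l 16776872) (l 16779496)) (l 16777616)) (a (l 16778328) (l 16777880)))) (b (a (c (l 16778992) (l 16779224)) (l 16777648)) (c (l 16774880) (l 16775224)))) (b (c (a (l 16775328) (l 16771688)) (a (l 16775640) (l 16772112))) (a (c (l 16772136) (l 16769904)) (c (l 16768488) (l 16769000)))))), by decide +kernel⟩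

def k14_pm_011 : ∃ t, chk3 f_pm_011 t 37 61 1 = true :=
  ⟨(b (a (b (a (b (l 4) (a (l 4) (b (l 4) (a (l 143042555159) (c (l 60364431335) (l 59827560487)))))) (b (a (l 4) (b (l 4) (a (b (l 4) (l 80228656423)) (c (l 42647690487) (l 41573948647))))) (a (b (a (b (l 4) (l 92039816455)) (c (l 51774496327) (l 51237625447))) (c (l 16780448) (l 16781528))) (c (l 16780248) (l 16779952))))) (a (b (b (a (a (l 4) (b (l 4) (c (l 53921978279) (l 16780272)))) (c (c (l 16877885047) (l 16780624)) (l 15804144311))) (a (a (c (l 36742109687) (l 35668368199)) (l 16781496)) (l 16779352))) (c (a (l 16778520) (l 16776672)) (l 16777888))) (c (b (l 16776440) (l 16773888)) (b (l 16777424) (l 16774304))))) (a (b (b (a (b (c (a (l 110293423031) (l 33520884375)) (a (l 76470559239) (l 16781400))) (l 16781112)) (c (l 16779712) (l 16779376))) (c (l 16776584) (l 16776944))) (c (l 16773096) (l 16772280))) (b (b (a (l 16777176) (l 16775344)) (l 16775752)) (c (l 16768056) (l 16768696))))) (a (a (b (c (c (l 16772664) (l 16772928)) (c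 (l 16773144) (l 16773296))) (b (c (l 16768008) (l 16768560)) (c (l 16764816) (l 16760216)))) (b (c (l 16768440) (b (l 16765952) (l 16773336))) (c (c (l 16765072) (l 16762936)) (c (l 16758056) (l 16758304))))) (b (a (c (a (l 16766288) (l 16767048)) (c (l 16765912) (l 16771400))) (c (l 16766880) (l 16767704))) (c (a (c (l 16763904) (l 16753992)) (l 16760448)) (a (c (l 16754432) (l 16754728)) (l 16761472)))))), by decide +kernel⟩

def k15_pm_011 : ∃ t, chk3 f_pm_011 t 19 60 1 = true :=
  ⟨(a (b (a (l 4) (b (a (l 4) (b (l 4) (a (l 4) (b (l 4) (a (l 137136967735) (l 67343757511)))))) (a (b (a (l 4) (b (l 4) (a (l 4) (l 121030849815)))) (b (a (a (l 4) (l 131768268631)) (a (l 59290693255) (l 16782640))) (a (a (l 69491240887) (l 28689049591)) (l 16780904)))) (b (a (a (b (l 4) (l 48016403719)) (b (l 77544305047) (l 16782344))) (c (l 16781656) (l 16781256))) (c (l 16780736) (l 16780208)))))) (a (b (a (b (l 4) (a (b (l 4) (a (l 4) (c (l 66806882839) (l 66806883143)))) (b (a (l 134989494087) (c (l 57143206279)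 (l 57143206231))) (c (l 16780968) (l 16781984))))) (b (a (b (l 4) (c (a (l 118346484983) (l 66270010103)) (l 60901304727))) (b (c (a (l 77007430775) (l 16780624)) (l 53385111703)) (l 16781544))) (c (c (l 16780792) (l 16781872)) (l 16781560)))) (a (b (a (b (c (l 23320338167) (l 16780952)) (l 16779936)) (l 16778336)) (l 16777352)) (c (l 16775912) (l 16773824)))) (b (a (b (c (l 16781376) (l 16780904)) (l 16777160)) (c (l 16777248) (l 16777872))) (c (l 16772160) (l 16770944))))) (b (a (a (b (b (a (l 4) (b (l 4) (a (l 88281723879) (l 44258307223)))) (a (b (c (l 65733143799) (l 65733143831)) (l 16782344)) (l 16783416))) (c (l 16776240) (l 16775064))) (b (c (a (a (b (b (l 70564980359) (l 16777344)) (l 16773680)) (l 16782592)) (l 16780496)) (a (a (b (l 37815855687) (l 16773136)) (l 16782080)) (l 16782504))) (l 16774912))) (a (b (b (l 16780976) (l 16777048)) (l 16772368)) (b (l 16774720) (l 16768464)))) (b (a (c (l 16771424) (l 16772288)) (c (l 16763528) (l 16764720))) (a (c (l 16765080) (l 16766144)) (c (l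 16757176) (l 16758592)))))), by decide +kernel⟩

def k16_pm_011 : ∃ t, chk3 f_pm_011 t 19 61 1 = true :=
  ⟨(a (b (a (b (c (c (l 16771232) (l 16771632)) (a (l 16771288) (l 16772896))) (a (b (l 16771568) (l 16768424)) (b (l 16767880) (l 16764744)))) (b (c (c (l 16766152) (l 16766744)) (c (l 16767216) (l 16767568))) (c (a (l 16762000) (l 16758176)) (c (l 16761016) (l 16761440))))) (b (a (c (a (l 16763152) (l 16759400)) (c (l 16762120) (l 16762488))) (c (c (l 16753256) (l 16754128)) (c (l 16744328) (l 16744816)))) (a (c (c (l 16754416) (l 16755232)) (c (l 16745376) (l 16745808))) (c (c (l 16746784) (l 16737320)) (c (l 16738112) (l 16738672)))))) (b (a (b (c (l 16758728) (l 16760008)) (c (l 16752376) (l 16753872))) (b (c (l 16750832) (l 16752472)) (c (l 16744504) (l 16735880)))) (b (a (c (l 16746024) (l 16737256)) (c (l 16738176) (l 16729784))) (a (c (l 16739672) (l 16731120)) (c (l 16721368) (l 16723696)))))), by decide +kernel⟩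

def k17_pm_011 : ∃ t, chk3 f_pm_011 t 18 124 1 = true :=
  ⟨(a (a (b (a (b (c (c (l 16773432) (l 16773600)) (b (l 16774552) (l 16775608))) (c (c (l 16772816) (l 16773040)) (c (l 16773200) (l 16773304)))) (b (c (c (l 16772424) (l 16772664)) (l 16771272)) (c (c (l 16769192) (l 16764248)) (c (l 16764464) (l 16764600))))) (b (a (c (c (l 16769576) (l 16769856)) (c (l 16764816) (l 16764936))) (c (c (l 16760712) (l 16761072)) (l 16764040))) (c (a (c (l 16761088) (l 16761424)) (c (l 16757472) (l 16757888))) (a (l 16763712) (l 16758288))))) (b (b (a (c (l 16770248) (l 16772032)) (c (l 16765296) (l 16760648))) (a (c (l 16768360) (l 16761048)) (c (l 16767344) (l 16757536)))) (c (b (a (l 16762544) (l 16753672)) (a (l 16754096) (l 16750472))) (c (a (l 16758880) (l 16752736)) (b (l 16758896) (l 16758408)))))) (b (b (a (c (c (l 16762120) (l 16762656)) (c (l 16760424) (l 16755440))) (c (c (l 16746672) (l 16747392)) (l 16753392))) (a (c (c (l 16761520) (l 16751632)) (c (l 16752072) (l 16752352))) (c (l 16755016)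 (l 16745064)))) (b (a (c (c (l 16747816) (l 16748472)) (l 16752416)) (c (l 16751184) (l 16741984))) (a (c (c (l 16744592) (l 16745320)) (l 16751280)) (c (l 16737528) (l 16738904)))))), by decide +kernel⟩

def k18_pm_011 : ∃ t, chk3 f_pm_011 t 18 125 1 = true :=
  ⟨(a (a (b (b (a (c (c (l 16757832) (l 16758232)) (l 16758600)) (c (l 16754480) (l 16755152))) (a (c (l 16754824) (l 16755456)) (c (l 16751264) (l 16752016)))) (c (a (b (l 16751584) (l 16748344)) (b (l 16748040) (l 16744816))) (b (c (l 16755704) (l 16754608)) (c (l 16747296) (l 16752768))))) (a (b (c (c (l 16748976) (l 16749568)) (c (l 16749992) (l 16750232))) (c (c (l 16742488) (l 16743208)) (c (l 16743704) (l 16743992)))) (b (c (c (l 16745320) (l 16746000)) (l 16751896)) (c (l 16739280) (l 16745672))))) (b (b (a (c (a (l 16743632) (l 16739952)) (l 16742944)) (c (l 16734360) (l 16735832))) (a (c (l 16738616) (l 16739848)) (c (l 16731192) (l 16732760)))) (b (a (c (l 16735432) (l 16736760)) (c (a (l 16729960) (l 16726160)) (a (l 16731520) (l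 16727824)))) (a (c (c (l 16735680) (l 16737912)) (c (l 16743800) (l 16744176))) (c (l 16724592) (l 16725880)))))), by decide +kernel⟩

def k19_pm_011 : ∃ t, chk3 f_pm_011 t 19 62 1 = true :=
  ⟨(b (a (b (a (c (c (l 16747904) (l 16738376)) (a (l 16741168) (l 16737592))) (c (c (l 16729808) (l 16730976)) (l 16732224))) (a (c (c (l 16730936) (l 16732040)) (c (l 16732880) (l 16733448))) (c (l 16739712) (l 16726016)))) (b (c (a (l 16743784) (l 16715040)) (a (l 16724984) (l 16717608))) (a (c (l 16716424) (l 16718840)) (c (l 16729952) (b (l 16713040) (l 16710000)))))) (a (a (a (b (c (l 16727096) (l 16728880)) (c (l 16720432) (l 16721872))) (b (c (l 16723376) (l 16725320)) (c (l 16716616) (l 16717968)))) (b (a (c (l 16729984) (l 16732056)) (b (l 16718648) (l 16715072))) (c (l 16710800) (l 16712000)))) (c (b (a (c (l 16730112) (l 16710568)) (l 16702768)) (a (l 16703592) (l 16697040))) (a (b (b (l 16714032) (l 16710424)) (l 16704496)) (b (l 16704720) (l 16697568)))))), by decide +kernel⟩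

def k20_pm_011 : ∃ t, chk3 f_pm_011 t 9 63 1 = true :=
  ⟨(a (b (a (c (b (a (a (b (l 16745088) (b (l 16742688) (l 16740936))) (b (l 16741656) (l 16738192))) (b (a (l 16743296) (l 16734336)) (l 16732920))) (a (c (l 16737688) (l 16740432)) (c (l 16727960) (l 16727928)))) (b (a (a (b (l 16745960) (c (l 16742472) (l 16753144))) (b (l 16742632) (l 16738944))) (b (a (l 16744344) (l 16735384)) (l 16733456))) (a (c (l 16740376) (l 16741472)) (c (l 16727728) (l 16727368))))) (c (a (b (a (l 16729016) (l 16725368)) (l 16720592)) (b (l 16719696) (l 16713032))) (a (b (c (l 16727648) (l 16738200)) (l 16719928)) (b (l 16720040) (l 16712120))))) (c (a (b (a (c (l 16734200) (l 16728376)) (c (l 16721864) (l 16721120))) (a (b (l 16734960) (l 16723336)) (b (l 16717640) (l 16716832)))) (b (a (l 16719464) (l 16706768)) (a (l 16715872) (l 16703936)))) (a (b (a (c (l 16727704) (l 16726936)) (l 16727696)) (a (b (l 16722248) (l 16720576)) (b (l 16715128) (l 16713760)))) (b (a (l 16722744) (l 16704552)) (a (l 16707536) (l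 16700576)))))) (b (b (a (c (a (l 16711952) (l 16704000)) (a (l 16712080) (l 16703928))) (c (a (l 16696568) (l 16690488)) (a (l 16696224) (l 16689688)))) (a (b (c (l 16703008) (l 16702080)) (c (l 16699688) (l 16698120))) (a (a (l 16690552) (l 16686736)) (l 16692768)))) (c (a (b (b (l 16696376) (l 16704432)) (a (l 16697208) (l 16690432))) (b (b (l 16702136) (l 16700424)) (a (l 16683600) (l 16677040)))) (a (b (b (l 16694176) (l 16691128)) (l 16699736)) (b (a (l 16680768) (l 16673800)) (l 16686560)))))), by decide +kernel⟩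

def k21_pm_011 : ∃ t, chk3 f_pm_011 t 5 6 1 = true :=
  ⟨(b (l 4) (a (l 4) (b (l 4) (a (b (l 4) (a (l 4) (b (l 4) (a (l 4) (b (l 4) (a (l 4) (b (l 133915768215) (l 61975061639)))))))) (b (a (l 4) (b (a (l 4) (b (l 4) (l 157001206535))) (b (a (l 4) (a (l 123178350391) (l 46405809479))) (a (a (b (l 4) (l 145726909255)) (l 77544328343)) (l 16790272))))) (a (b (a (l 4) (b (a (l 4) (l 129083909975)) (a (l 79154941607) (l 16791304)))) (a (b (a (l 130157662487) (b (l 79691803831) (l 16780808))) (c (l 16789640) (l 16788136))) (b (l 16787152) (l 16789784)))) (b (a (b (a (l 49627035575) (l 16779520)) (l 16795784)) (l 16790048)) (a (l 16783840) (l 16775160))))))))), by decide +kernel⟩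

def k22_pm_011 : ∃ t, chk3 f_pm_011 t 10 28 1 = true :=
  ⟨(a (l 4) (b (l 4) (a (b (l 4) (a (l 4) (b (l 4) (a (b (l 4) (a (l 4) (l 85597377735))) (b (b (l 130694519815) (l 75396832007)) (c (l 16784216) (l 16783440))))))) (b (a (b (l 4) (a (l 4) (b (l 4) (l 135526380711)))) (b (a (l 4) (b (l 4) (a (l 131231411815) (l 65196283783)))) (a (b (l 120493993223) (a (l 57680089911) (l 16778880))) (c (l 16788376) (l 16787296))))) (a (b (a (b (l 4) (a (l 117809616599) (l 49627025031))) (b (c (l 52311379847) (l 51774508263)) (l 16787560))) (c (l 16784232) (l 16785616))) (b (c (l 16782536) (l 16781080)) (l 16782936))))))), by decide +kernel⟩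

def k23_pm_011 : ∃ t, chk3 f_pm_011 t 20 29 1 = true :=
  ⟨(b (a (l 4) (b (a (l 4) (b (l 4) (a (l 4) (b (l 4) (a (l 137136970871) (b (l 116735894583) (l 16784336))))))) (a (b (a (l 4) (b (l 4) (a (l 4) (l 126399567095)))) (a (b (a (l 4) (l 142505690839)) (a (b (l 4) (l 72175600039)) (c (l 36205245719) (l 35131503543)))) (b (a (b (l 124252066695) (l 62511920567)) (l 21709733623)) (l 16785464)))) (b (b (a (a (l 4) (a (l 123715196327) (l 74859956711))) (c (l 20099119351) (l 16785288))) (a (a (c (l 49627020151) (l 49090149255)) (l 16787856)) (l 16783776))) (c (l 16777472) (a (l 16781720) (l 16786296))))))) (a (b (a (b (l 4) (a (b (l 4) (a (l 4) (b (l 4) (l 120493985223)))) (b (a (l 4) (b (l 4) (l 75396825351))) (a (b (l 84523630823) (l 16784024)) (l 16784616))))) (b (a (b (l 4) (a (l 4) (b (l 129083904967) (l 52848245639)))) (b (a (l 130157663639) (b (l 86134244343) (l 16783672))) (c (a (l 16783320) (l 16775576)) (l 16784096)))) (c (a (a (b (l 36205245319) (l 16784816)) (l 16784432)) (l 16780208)) (a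 (a (a (b (l 46942662791) (l 16784840)) (l 16783216)) (l 16783688)) (l 16779240))))) (a (b (a (b (a (b (l 130157657079) (c (l 46942661335) (l 16782176))) (b (l 39426471495) (l 16776344))) (l 16783248)) (c (l 16781696) (l 16780880))) (c (l 16777224) (l 16775480))) (b (c (l 16773184) (l 16773792)) (l 16769624)))) (b (a (a (b (b (l 16784960) (l 16781400)) (l 16784368)) (b (l 16778088) (l 16779792))) (b (l 16774656) (l 16773392))) (a (c (l 16763664) (l 16762592)) (c (l 16757520) (l 16754264)))))), by decide +kernel⟩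

def k24_pm_011 : ∃ t, chk3 f_pm_011 t 21 29 1 = true :=
  ⟨(b (a (b (a (b (a (l 4) (b (a (l 4) (l 129083906567)) (a (l 76470572615) (l 16786760)))) (a (b (a (l 119957120967) (a (l 75933703895) (l 16784248))) (l 16786200)) (l 16787032))) (b (a (b (c (l 36205249671) (l 35668378727)) (l 16785840)) (l 16782640)) (c (l 16787200) (l 16785664)))) (a (b (a (l 16780496) (l 16785248)) (l 16778304)) (b (l 16776696) (l 16768528)))) (b (a (c (l 16780912) (l 16778904)) (l 16771320)) (a (l 16761168) (l 16752792)))) (a (a (b (l 16766856) (a (l 16746776) (l 16752784))) (b (l 16758768) (l 16745920))) (b (a (l 16749376) (l 16739624)) (c (l 16729576) (l 16733424))))), by decide +kernel⟩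

def k25_pm_011 : ∃ t, chk3 f_pm_011 t 11 14 1 = true :=
  ⟨(b (a (b (a (b (a (l 4) (l 4)) (a (b (l 4) (a (b (l 4) (l 143579424711)) (b (l 127473295239) (l 51774513287)))) (b (a (b (l 4) (l 110830316055)) (b (l 86671123783) (l 16789928))) (b (c (l 16789248) (l 16788064)) (l 16784712))))) (b (a (b (a (l 4) (b (l 4) (l 114051521191))) (a (b (a (l 4) (l 122641455687)) (l 58216964935)) (l 22783484695))) (a (b (a (l 76470582023) (l 16791024)) (l 16785568)) (l 16789848))) (a (b (l 16790176) (l 16786744)) (l 16780488)))) (a (b (a (b (a (b (a (l 108145960839) (l 16790520)) (l 16788912)) (l 16786088)) (l 16785192)) (b (l 16788584) (l 16779464))) (a (l 16776520) (l 16765616))) (b (a (l 16773200) (l 16762632)) (b (l 16775312) (l 16766296))))) (b (a (b (a (b (l 16791648) (l 16783160)) (l 16777192)) (l 16774176)) (b (l 16772976) (c (l 16758432) (l 16743032)))) (a (b (a (l 16752456) (l 16742808)) (c (l 16733416) (l 16727112))) (b (a (l 16733688) (l 16725128)) (c (l 16717376) (l 16708656)))))) (a (b (a (b (a (l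 16757776) (l 16747160)) (l 16746704)) (b (a (l 16736856) (l 16726912)) (a (l 16721312) (l 16709920)))) (a (b (c (l 16721888) (l 16726384)) (c (l 16708552) (l 16713704))) (b (c (l 16700096) (l 16705136)) (c (l 16685760) (l 16692408))))) (c (b (a (b (l 16716680) (l 16700024)) (b (l 16701040) (l 16685128))) (a (b (l 16683472) (l 16667000)) (b (l 16669320) (l 16656216)))) (b (a (b (l 16709272) (l 16694944)) (l 16692136)) (a (b (l 16681840) (l 16669080)) (b (l 16657544) (l 16642936))))))), by decide +kernel⟩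

def k26_pm_011 : ∃ t, chk3 f_pm_011 t 10 30 1 = true :=
  ⟨(b (a (a (b (a (c (b (l 16768184) (l 16761800)) (b (l 16769296) (l 16763136))) (b (l 16765952) (l 16759688))) (a (b (c (l 16755432) (l 16757000)) (c (l 16759568) (l 16761368))) (c (l 16751832) (l 16753920)))) (b (a (c (l 16748168) (l 16750208)) (c (l 16749856) (l 16752352))) (c (b (l 16744704) (l 16738360)) (a (l 16748440) (l 16740120))))) (a (a (b (c (l 16740760) (l 16743760)) (c (l 16727992) (l 16731544))) (b (l 16738512) (l 16726056))) (b (b (l 16727344) (l 16726312)) (c (l 16709024) (l 16708848))))) (a (a (b (a (c (c (l 16744152) (l 16745488)) (a (l 16754176) (l 16750296))) (b (l 16746312) (c (l 16717672) (l 16720384)))) (c (a (c (l 16736624) (l 16738272)) (l 16729248)) (a (b (l 16722160) (l 16716112)) (b (l 16714352) (l 16708352))))) (b (c (a (l 16733280) (l 16724480)) (a (l 16736328) (l 16728040))) (c (a (l 16720760) (l 16712008)) (b (l 16723240) (l 16717296))))) (a (a (b (c (l 16715384) (l 16698536)) (b (l 16708528) (l 16713432)))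 (b (l 16719040) (b (l 16699464) (l 16707184)))) (b (c (l 16691224) (l 16707400)) (b (c (l 16693336) (l 16699240)) (a (l 16696024) (l 16678216))))))), by decide +kernel⟩

def k27_pm_011 : ∃ t, chk3 f_pm_011 t 10 31 1 = true :=
  ⟨(b (a (b (a (a (b (c (l 16707072) (l 16710080)) (c (l 16722032) (l 16711816))) (b (c (l 16699160) (l 16702584)) (c (l 16714352) (l 16696248)))) (b (a (c (l 16711888) (l 16694664)) (c (l 16703528) (l 16686464))) (c (l 16704080) (l 16685504)))) (a (c (b (a (l 16696064) (l 16689344)) (l 16690232)) (a (l 16699568) (l 16687472))) (b (c (l 16679512) (l 16680184)) (c (l 16675464) (l 16674464))))) (b (a (c (a (l 16694560) (l 16666928)) (b (l 16695816) (l 16670960))) (c (a (l 16660016) (l 16653416)) (a (l 16662136) (l 16655128)))) (a (c (a (l 16668216) (l 16662000)) (b (l 16666440) (l 16661584))) (c (a (l 16655792) (l 16650000)) (a (l 16654072) (l 16647776)))))) (a (b (a (b (c (l 16681968) (l 16680416)) (c (l 16675728) (l 16672792))) (b (c (l 16670952) (l 16668336)) (c (l 16666000)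 (l 16661808)))) (a (b (c (b (l 16671248) (l 16670792)) (l 16687656)) (c (a (l 16672736) (l 16669784)) (l 16665888))) (b (c (a (l 16665104) (l 16661568)) (l 16678784)) (c (a (l 16666864) (l 16663960)) (a (l 16660392) (l 16656768)))))) (b (a (c (b (l 16660056) (l 16667256)) (b (l 16656368) (l 16651288))) (c (b (l 16649072) (a (l 16649472) (l 16644544))) (b (l 16644304) (l 16640488)))) (b (a (c (l 16656568) (l 16649672)) (c (l 16649392) (l 16641232))) (a (b (c (l 16658896) (l 16650984)) (c (a (l 16661688) (l 16658952)) (l 16651752))) (c (b (l 16663224) (a (l 16656216) (l 16658704))) (a (l 16645992) (l 16642392)))))))), by decide +kernel⟩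

def k28_pm_011 : ∃ t, chk3 f_pm_011 t 11 30 1 = true :=
  ⟨(b (a (a (a (b (l 16703832) (l 16701872)) (b (l 16693240) (l 16691288))) (a (b (l 16682216) (l 16669784)) (b (l 16670728) (l 16658304)))) (a (b (c (l 16650624) (l 16656672)) (c (l 16634680) (l 16644624))) (b (c (a (l 16640872) (l 16635240)) (l 16630560)) (c (b (l 16626288) (a (l 16620392) (b (l 16617464) (l 16611704)))) (b (l 16621528) (l 16627536)))))) (a (b (a (a (l 16689696) (l 16685192)) (a (a (l 16672008) (l 16671928)) (b (l 16649520) (l 16645928)))) (a (b (c (l 16674224) (l 16680704)) (l 16677432)) (c (l 16649128) (l 16653960)))) (a (b (b (a (l 16638176) (l 16636992)) (l 16646192)) (c (l 16644072) (l 16637816))) (b (c (a (l 16617568) (l 16602904)) (a (l 16621480) (l 16611960))) (c (a (l 16621056) (l 16612128)) (c (l 16630136) (l 16621080))))))), by decide +kernel⟩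

def k29_pm_011 : ∃ t, chk3 f_pm_011 t 11 62 1 = true :=
  ⟨(a (b (a (c (l 16675192) (l 16644816)) (c (l 16657112) (l 16631088))) (c (a (a (l 16644728) (l 16639584)) (a (l 16634424) (l 16629208))) (a (l 16649584) (l 16627616)))) (b (a (c (a (l 16621024) (l 16614104)) (l 16616976)) (c (a (l 16606832) (l 16620000)) (a (l 16605680) (l 16597624)))) (a (c (a (l 16623832) (l 16618136)) (l 16615704)) (c (a (l 16612072) (l 16605576)) (a (l 16606040) (l 16599160)))))), by decide +kernel⟩

def k30_pm_011 : ∃ t, chk3 f_pm_011 t 22 63 1 = true :=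
  ⟨(b (a (c (b (l 16639544) (a (l 16660976) (l 16647048))) (b (l 16633520) (b (l 16630664) (l 16629944)))) (c (b (l 16631296) (b (l 16641752) (l 16633480))) (b (l 16623864) (b (l 16622272) (l 16623672))))) (a (c (b (a (l 16643968) (l 16641360)) (a (c (l 16652000) (l 16646736)) (c (b (l 16648144) (l 16651064)) (l 16644056)))) (b (l 16633296) (a (l 16638768) (c (l 16638408) (l 16632720))))) (c (b (a (l 16639464) (l 16637528)) (b (a (l 16644000) (l 16653112)) (a (c (l 16650024) (l 16643808)) (c (c (l 16656136) (l 16647584)) (l 16642600))))) (b (l 16648512) (a (c (l 16636408) (l 16630312)) (c (l 16642464) (l 16628096))))))), by decide +kernel⟩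

def k31_pm_011 : ∃ t, chk3 f_pm_011 t 23 63 1 = true :=
  ⟨(b (a (b (c (l 16622480) (l 16613728)) (b (c (a (l 16625576) (l 16621752)) (l 16613472)) (c (l 16628072) (l 16616856)))) (b (c (a (l 16615352) (l 16618136)) (a (l 16605696) (l 16600088))) (c (a (l 16630848) (l 16616840)) (a (l 16608760) (l 16604680))))) (b (a (a (c (l 16645920) (l 16623312)) (c (a (l 16633688) (l 16632424)) (l 16620264))) (c (c (a (l 16633728) (l 16630808)) (a (l 16627032) (l 16623840))) (a (l 16616952) (l 16613352)))) (c (a (a (c (b (l 16644440) (a (l 16653816) (a (l 16648192) (l 16658408)))) (b (l 16637800) (c (l 16643040) (l 16639512)))) (c (b (l 16642864) (c (a (l 16654552) (b (l 16647576) (l 16649808))) (a (l 16645648) (l 16644944)))) (b (l 16635856) (a (l 16640144) (l 16644552))))) (b (c (a (l 16640976) (l 16638728)) (a (l 16633632) (l 16631088))) (b (c (a (c (l 16646440) (l 16642616)) (c (l 16644600) (l 16640616))) (a (l 16636864) (l 16634640))) (c (a (c (a (l 16649176) (c (l 16649448) (l 16647464))) (a (l 16645280)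 (l 16644480))) (c (b (l 16646560) (a (l 16648288) (l 16650032))) (a (l 16643592) (l 16642616)))) (a (a (l 16639432) (l 16638512)) (a (l 16642752) (l 16641664))))))) (b (a (c (l 16630016) (l 16623144)) (a (l 16622584) (l 16619600))) (a (a (c (l 16634208) (l 16627112)) (c (l 16642776) (l 16624824))) (c (a (c (l 16632088) (l 16628192)) (c (l 16629744) (l 16625688))) (a (l 16622328) (l 16619600)))))))), by decide +kernel⟩

def k32_pm_011 : ∃ t, chk3 f_pm_011 t 3 2 1 = true :=
  ⟨(b (l 1) (a (l 4) (l 1))), by decide +kernel⟩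

def k33_pm_011 : ∃ t, chk3 f_pm_011 t 3 6 1 = true :=
  ⟨(a (b (a (b (l 4) (a (l 4) (b (l 4) (a (l 4) (b (l 4) (a (b (l 4) (l 144116314903)) (b (l 156464342279) (l 16801200)))))))) (b (l 1) (a (b (l 1) (a (b (l 1) (l 16799848)) (l 1))) (l 1)))) (a (b (a (b (l 4) (a (b (l 4) (a (l 4) (b (l 4) (a (l 147337544487) (l 65733166887))))) (b (a (b (l 4) (l 149485010631)) (b (a (l 4) (l 86134260711)) (a (l 56606359191) (l 16782328)))) (a (b (b (l 81839301239) (l 45332070135)) (l 16801728)) (l 16792480))))) (b (a (b (a (l 4) (b (l 4) (l 155927460711))) (a (b (l 163443658295) (l 82913048759)) (b (l 57680107559) (l 16778872)))) (b (a (a (l 86134277687) (l 16800224)) (l 16779464)) (l 16781016))) (a (b (a (l 16794464) (l 16778992)) (l 16777544)) (b (l 16782648) (l 16782856))))) (a (b (a (b (a (b (a (l 4) (l 115125285975)) (a (l 71638747927) (l 16781760))) (b (l 23857236151) (l 16776392))) (a (a (l 16797912) (l 16793424)) (l 16789944))) (b (a (l 16794480) (l 16773144)) (l 16788832))) (a (b (l 16782544) (l 16771656))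 (b (l 16760568) (a (l 16750360) (l 16751680))))) (b (a (b (l 16775256) (l 16771152)) (b (l 16781480) (l 16778360))) (a (b (l 16765008) (l 16756624)) (b (l 16773344) (l 16766256)))))) (a (b (b (a (b (l 16784608) (l 16787992)) (l 16795384)) (a (l 16790784) (l 16800680))) (b (a (l 16779016) (l 16800784)) (a (c (l 16803056) (l 16760048)) (c (l 16818272) (l 16771224))))) (b (b (l 1) (a (l 16812120) (l 1))) (b (a (l 16813512) (l 16827336)) (a (c (l 16834592) (l 16783880)) (l 16824544))))))) (b (l 1) (a (b (l 1) (a (b (l 1) (a (l 16840656) (l 1))) (l 1))) (l 1)))), by decide +kernel⟩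

def k34_pm_011 : ∃ t, chk3 f_pm_011 t 12 14 1 = true :=
  ⟨(b (a (b (b (a (l 16757872) (c (l 16757624) (l 16719472))) (a (c (l 16739424) (l 16725048)) (c (l 16746216) (l 16721168)))) (a (b (c (l 16723120) (l 16708784)) (c (l 16703016) (l 16692488))) (b (c (l 16731752) (l 16698408)) (c (l 16734864) (l 16678728))))) (b (a (c (b (l 16767800) (l 16758008)) (b (l 16723880) (l 16706608))) (b (l 16756912) (c (l 16773064) (l 16717392)))) (a (c (b (l 16745456) (l 16729856)) (b (l 16686200) (l 16662344))) (c (b (l 16762368) (l 16748928)) (b (l 16699248) (l 16678016)))))) (a (b (a (c (b (l 16699664) (l 16672992)) (b (l 16676192) (l 16659944))) (c (b (a (l 16688552) (l 16696192)) (a (l 16661976) (l 16671128))) (b (l 16663368) (l 16648016)))) (a (b (c (l 16657984) (l 16643760)) (c (a (l 16645408) (l 16640888)) (l 16627648))) (b (c (a (l 16651584) (l 16641568)) (l 16632672)) (c (a (l 16637152) (l 16634016)) (l 16622616))))) (b (a (b (c (l 16731872) (l 16655696)) (c (a (l 16682280) (l 16694256)) (l 16633952)))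 (c (b (l 16732488) (a (l 16706520) (l 16719000))) (b (l 16695360) (a (l 16619456) (l 16630856))))) (c (a (b (a (l 16654592) (l 16668384)) (a (l 16622232) (l 16680072))) (b (a (l 16682344) (l 16696400)) (a (c (l 16680816) (l 16627424)) (c (l 16696824) (l 16643168))))) (b (a (l 16624736) (a (l 16608832) (l 16599472))) (a (l 16610288) (a (l 16595040) (l 16588848)))))))), by decide +kernel⟩

def k35_pm_011 : ∃ t, chk3 f_pm_011 t 13 28 1 = true :=
  ⟨(a (b (a (b (l 16770304) (c (l 16789936) (l 16730520))) (c (l 16811080) (b (l 16757288) (l 16745336)))) (a (c (b (l 16780896) (l 16769384)) (b (l 16714408) (l 16695512))) (c (b (l 16800512) (l 16790704)) (b (l 16731048) (l 16714224))))) (b (a (c (l 16829440) (l 16766832)) (c (l 16848408) (l 16782920))) (a (c (b (l 16820816) (l 16812536)) (b (l 16748664) (l 16733712))) (c (b (l 16841528) (l 16834616)) (b (l 16766920) (l 16753640)))))), by decide +kernel⟩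

def k36_pm_011 : ∃ t, chk3 f_pm_011 t 13 58 1 = true :=
  ⟨(a (a (c (b (l 16734192) (a (l 16731616) (l 16744336))) (b (l 16694552) (a (l 16642480) (l 16654264)))) (c (b (l 16757472) (a (l 16757104) (l 16769888))) (b (l 16715640) (a (l 16666160) (l 16678112))))) (a (c (b (l 16802008) (a (l 16782664) (l 16795400))) (b (l 16716256) (a (l 16690104) (l 16702080)))) (c (b (l 16825632) (c (l 16838392) (l 16790576))) (b (l 16717080) (a (l 16714032) (l 16725928)))))), by decide +kernel⟩

def k37_pm_011 : ∃ t, chk3 f_pm_011 t 26 59 1 = true :=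
  ⟨(b (a (c (a (l 16710488) (l 16724584)) (a (l 16612848) (l 16647240))) (c (a (l 16717664) (c (l 16777888) (l 16727504))) (a (l 16681632) (c (l 16677728) (l 16628576))))) (a (b (c (a (l 16692256) (l 16707512)) (a (l 16588000) (l 16602792))) (c (a (a (l 16674840) (c (l 16710864) (l 16655792))) (b (l 16708840) (a (a (l 16707072) (l 16711440)) (l 16697304)))) (a (a (l 16566144) (l 16574440)) (b (l 16611376) (a (l 16599264) (l 16587208)))))) (b (a (c (l 16722648) (l 16617496)) (c (b (l 16740256) (a (l 16710448) (b (l 16740216) (l 16738312)))) (b (l 16635712) (a (l 16645944) (b (l 16634080) (l 16631272)))))) (a (c (b (c (a (l 16737912) (l 16746288)) (a (l 16683128) (l 16691456))) (l 16711360)) (b (c (a (l 16629040) (l 16637312)) (l 16600864)) (l 16601336))) (c (a (l 16705392) (c (l 16763224) (l 16708064))) (a (l 16638224) (l 16689480))))))), by decide +kernel⟩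

def k38_pm_011 : ∃ t, chk3 f_pm_011 t 27 59 1 = true :=
  ⟨(b (a (a (c (c (l 16791936) (l 16741240)) (c (l 16691184) (l 16641768))) (c (a (l 16755888) (b (l 16787688) (c (l 16805936) (l 16732984)))) (b (l 16685512) (a (l 16670152) (b (l 16679928) (c (l 16699800) (l 16648744))))))) (b (c (c (l 16829744) (l 16779224)) (a (l 16698336) (l 16711048))) (a (c (b (l 16792112) (a (b (l 16785696) (l 16763512)) (c (l 16819504) (l 16766984)))) (b (l 16690024) (a (b (l 16682368) (l 16701416)) (b (c (l 16715424) (l 16664440)) (l 16689472))))) (b (c (a (c (l 16828752) (l 16776864)) (b (l 16810328) (l 16809984))) (a (b (l 16701136) (c (l 16724496) (l 16673816))) (b (c (l 16733416) (l 16683032)) (l 16707352)))) (c (l 16806256) (l 16703128)))))) (a (b (a (c (b (a (l 16751384) (c (l 16785688) (b (l 16733376) (l 16731272)))) (a (c (l 16774792) (l 16720800)) (l 16756776))) (b (a (l 16646544) (b (l 16655200) (l 16694384))) (a (c (l 16667504) (l 16614912)) (l 16650368)))) (c (b (a (b (l 16725424) (l 16766504)) (l 16754480))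 (l 16749536)) (b (a (b (l 16694112) (l 16661152)) (l 16691504)) (l 16685456)))) (c (a (a (l 16703048) (l 16733688)) (c (l 16796672) (l 16742152))) (a (a (l 16657192) (l 16667224)) (c (l 16688280) (l 16635056))))) (a (c (b (c (l 16815656) (l 16762552)) (c (l 16816128) (l 16762168))) (b (c (l 16691776) (l 16679368)) (a (l 16677184) (l 16687688)))) (c (b (c (l 16833784) (l 16781136)) (l 16808856)) (b (a (l 16698584) (l 16708280)) (a (l 16698256) (l 16708848))))))), by decide +kernel⟩

def k39_pm_011 : ∃ t, chk3 f_pm_011 t 24 30 1 = true :=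
  ⟨(b (a (b (c (a (l 16630344) (l 16626224)) (l 16611624)) (c (b (b (l 16618944) (a (l 16617016) (l 16612128))) (a (b (l 16611704) (l 16602688)) (l 16598968))) (b (l 16603744) (l 16601496)))) (b (a (c (l 16622912) (l 16604288)) (c (b (l 16623672) (c (a (l 16601712) (l 16599872)) (l 16610704))) (l 16604544))) (b (c (a (b (l 16607808) (l 16605800)) (a (l 16605280) (l 16601040))) (a (l 16590568) (l 16583880))) (c (a (l 16590976) (c (l 16587920) (l 16578784))) (l 16580544))))) (a (b (c (a (l 16592280) (l 16583728)) (l 16608976)) (c (a (l 16602512) (l 16592168)) (b (l 16599800) (l 16602272)))) (a (c (b (b (l 16592416) (l 16572400)) (c (l 16580104) (l 16582440))) (b (l 16578672) (l 16585104))) (b (c (c (b (l 16567576) (l 16558088)) (l 16559760)) (l 16566728)) (c (c (l 16566256) (l 16571280)) (l 16574040)))))), by decide +kernel⟩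

def k40_pm_011 : ∃ t, chk3 f_pm_011 t 25 30 1 = true :=
  ⟨(b (b (c (a (a (b (l 16618720) (b (l 16613256) (c (l 16642976) (l 16602216)))) (b (l 16633336) (b (a (l 16615200) (l 16625256)) (l 16593200)))) (b (a (b (l 16634072) (c (a (l 16650456) (l 16659848)) (l 16597520))) (b (c (a (l 16675544) (l 16684432)) (l 16644464)) (c (l 16674800) (l 16617000)))) (a (l 16659856) (l 16702344)))) (a (b (l 16593976) (a (l 16588736) (l 16585496))) (a (b (l 16583552) (l 16569544)) (b (b (l 16579648) (l 16573064)) (l 16558720))))) (a (a (c (c (b (l 16592120) (l 16580080)) (l 16599056)) (l 16585344)) (c (b (l 16626520) (l 16635648)) (l 16574120))) (a (c (b (l 16670728) (l 16660296)) (l 16562840)) (b (c (l 16693480) (l 16539936)) (c (c (l 16653424) (l 16589552)) (l 16524408)))))) (a (b (c (a (c (b (l 16567592) (l 16554600)) (l 16550704)) (b (c (l 16594192) (l 16547800)) (c (l 16582824) (l 16546144)))) (a (l 16557616) (l 16549488))) (c (a (c (b (l 16541072) (l 16543528)) (l 16552640)) (c (b (l 16571008) (l 16548200))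 (l 16545560))) (a (l 16565768) (l 16558472)))) (b (c (a (c (b (l 16620056) (l 16610168)) (l 16531296)) (b (c (l 16645176) (l 16578904)) (c (l 16636632) (l 16567864)))) (a (l 16541384) (l 16533320))) (c (a (c (b (l 16599896) (a (l 16581712) (l 16596680))) (b (l 16527640) (l 16531424))) (c (b (l 16627776) (a (l 16611352) (l 16625752))) (b (l 16556392) (l 16523504)))) (a (l 16551240) (l 16544072)))))), by decide +kernel⟩

def k41_pm_011 : ∃ t, chk3 f_pm_011 t 12 62 1 = true :=
  ⟨(a (a (a (c (b (c (l 16611864) (l 16590408)) (b (l 16596680) (l 16600248))) (b (l 16589096) (l 16591728))) (b (c (c (l 16602672) (l 16581160)) (l 16579792)) (b (c (l 16588536) (l 16582912)) (c (a (l 16594840) (l 16590944)) (l 16584632))))) (b (c (a (c (l 16592616) (l 16571112)) (c (b (l 16558088) (l 16564616)) (l 16581824))) (a (l 16569752) (l 16580496))) (c (a (c (b (l 16580560) (l 16586384)) (l 16601152)) (c (b (l 16570952) (l 16587624)) (b (l 16568280) (l 16573032)))) (a (b (l 16573552) (l 16575984)) (b (l 16563928) (l 16566672))))))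 (a (b (c (a (c (b (l 16550712) (l 16557672)) (l 16574528)) (c (b (l 16551088) (l 16562344)) (l 16563064))) (a (l 16573008) (l 16566504))) (c (a (c (b (l 16564440) (a (l 16572344) (l 16569832))) (b (l 16561592) (l 16566744))) (a (c (b (l 16560424) (l 16567344)) (l 16560160)) (c (b (l 16557760) (l 16564896)) (l 16567976)))) (a (b (l 16557000) (l 16560120)) (c (l 16575800) (l 16550768))))) (b (c (a (c (b (a (l 16570176) (l 16585960)) (c (l 14) (l 16546184))) (b (l 16538000) (l 16544352))) (c (b (a (l 16601416) (l 16616544)) (l 14)) (b (l 16532072) (l 16538536)))) (a (c (l 16539888) (l 16538296)) (c (l 16544152) (l 16531896)))) (c (c (a (a (a (b (l 16555792) (l 16563096)) (l 14)) (l 14)) (l 14)) (a (b (l 16550488) (l 16566936)) (b (l 16555608) (a (l 16552768) (l 16550336))))) (a (b (l 16545248) (l 16549120)) (c (b (l 16541448) (l 16546400)) (l 16539416))))))), by decide +kernel⟩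

def k42_pm_011 : ∃ t, chk3 f_pm_011 t 24 126 1 = true :=
  ⟨(a (b (c (b (a (l 16602648) (l 16595824)) (a (l 16604816) (c (l 16601264) (l 16595592)))) (b (a (l 16592784) (l 16585656)) (l 16601056))) (c (a (l 16612464) (l 16628560)) (l 16597352))) (b (c (a (b (l 16598488) (c (b (l 16593096) (l 16596312)) (l 16588632))) (a (b (l 16581240) (l 16606648)) (b (l 16577120) (l 16603112)))) (a (b (l 16577648) (l 16579968)) (b (l 16568736) (l 16572216)))) (c (a (c (a (l 16606808) (l 16603832)) (l 16598736)) (c (a (l 16600400) (l 16597176)) (l 16592208))) (a (l 16588880) (l 16603240))))), by decide +kernel⟩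

def k43_pm_011 : ∃ t, chk3 f_pm_011 t 24 127 1 = true :=
  ⟨(a (c (b (c (a (l 16627464) (l 16634120)) (a (l 16620256) (l 16616240))) (a (c (b (l 16646560) (b (c (l 16642360) (l 16638240)) (c (b (l 16644488) (a (l 16649056) (l 16650592))) (a (l 16641544) (l 16640368))))) (b (l 16628176) (b (l 16632064) (a (l 16640488) (l 16639208))))) (c (b (c (l 16634984) (l 16630936)) (b (c (l 16639656) (l 16635424)) (c (b (l 16641968) (a (l 16644144) (l 16642824))) (a (l 16639080) (l 16637672))))) (b (l 16624856) (b (l 16629080) (a (l 16643080) (l 16631112))))))) (b (a (l 16609424) (l 16605112)) (b (a (l 16616304) (l 16612656)) (c (a (c (l 16627072) (l 16622880)) (c (l 16624032) (l 16619728))) (a (l 16616592) (l 16613264)))))) (c (b (a (c (a (l 16620416) (l 16639024)) (a (l 16612904) (l 16610488))) (c (a (c (l 16617328) (l 16613528)) (c (l 16614784) (l 16610960))) (a (l 16607816) (l 16605216)))) (a (c (b (c (l 16631400) (l 16627264)) (c (b (l 16636440) (a (l 16645800) (l 16638936))) (a (l 16639816) (l 16632856))))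 (b (l 16621056) (c (a (l 16630216) (l 16628456)) (l 16635456)))) (c (a (b (l 16636704) (c (b (l 16633656) (l 16637176)) (l 16631000))) (b (c (l 16626384) (l 16622176)) (c (b (l 16637296) (a (l 16635816) (l 16635688))) (a (l 16629568) (l 16629328))))) (a (b (l 16617856) (l 16634840)) (b (l 16615856) (a (l 16633368) (l 16630456))))))) (a (b (c (l 16604080) (l 16596504)) (c (b (l 16612768) (l 16628872)) (l 16617520))) (a (b (l 16596360) (c (b (l 16609464) (l 16615464)) (l 16603808))) (b (l 16614648) (c (b (l 16607400) (l 16624240)) (l 16612312))))))), by decide +kernel⟩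

def k44_pm_011 : ∃ t, chk3 f_pm_011 t 25 126 1 = true :=
  ⟨(a (c (b (b (a (c (a (l 16577328) (l 16575080)) (l 16570824)) (b (c (l 16570408) (l 16564952)) (c (a (l 16573704) (l 16576912)) (l 16566904)))) (a (c (l 16582384) (l 16576392)) (c (l 16589592) (l 16572880)))) (a (c (a (l 16595640) (l 16594280)) (l 16588112)) (c (a (l 16613960) (l 16607480)) (l 16606248)))) (b (b (a (l 16562656) (l 16578584)) (a (l 16567360) (l 16563496))) (a (l 16598856) (c (l 16578216) (l 16571120))))) (c (a (a (b (b (c (b (l 16567000) (c (l 14) (l 16568328))) (l 16562744)) (c (l 16576840) (l 16570440))) (c (c (l 14) (l 16588784)) (l 16583360))) (c (l 14) (b (b (b (l 16559088) (l 16562104)) (l 16568864)) (l 16582128)))) (c (l 14) (b (b (b (a (l 16556864) (l 16554720)) (l 16559608)) (l 16577064)) (a (l 16601928) (l 16590344))))) (b (b (a (c (l 16555784) (l 16549848)) (a (l 16570376) (l 16563024))) (a (l 16559864) (l 16556472))) (a (c (l 16575368) (l 16568024)) (c (l 16593752) (l 16565176)))))), by decide +kernel⟩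

def k45_pm_011 : ∃ t, chk3 f_pm_011 t 50 127 1 = true :=
  ⟨(c (b (a (c (a (c (l 16613696) (l 16609808)) (c (l 16633800) (l 16608880))) (a (l 16603968) (l 16602944))) (c (a (b (l 16605800) (l 16624704)) (c (l 14) (l 16628184))) (a (l 16622944) (l 16622040)))) (a (c (a (a (b (l 16623736) (c (b (l 16631752) (l 16635648)) (l 16629192))) (b (l 16623448) (c (b (l 16631560) (l 16640760)) (l 16639472)))) (b (c (l 16625200) (l 16620848)) (c (b (l 16631304) (c (a (l 16636568) (l 14)) (a (l 16634240) (l 16634136)))) (b (l 16626760) (c (l 16631840) (l 16629496)))))) (b (a (l 16615016) (l 16614320)) (a (c (b (l 16622696) (l 16626376)) (l 16620000)) (c (b (l 16622208) (l 16625992)) (l 16619472))))) (c (b (a (c (l 16635232) (l 16620328)) (c (l 14) (l 16619880))) (a (a (c (b (l 16631104) (c (l 14) (l 16634048))) (b (l 16626504) (l 16630496))) (c (l 14) (b (l 16626344) (l 16635640)))) (c (l 14) (b (l 16626136) (b (l 16634488) (a (l 16631344) (l 16636536))))))) (a (b (l 16613688) (c (b (l 16621792) (l 16630928))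 (l 16629520))) (b (l 16623616) (c (b (l 16621440) (c (l 16626656) (l 16624240))) (b (l 16616736) (l 16620608)))))))) (b (a (c (l 16616496) (l 16587624)) (c (a (l 16593896) (l 16592856)) (l 16585144))) (a (c (b (l 16605960) (a (l 16613160) (l 16623008))) (a (l 16600928) (l 16621000))) (c (b (a (l 16604808) (l 16604104)) (a (c (l 16614328) (l 16609616)) (c (l 16613888) (l 16609096)))) (b (l 16595432) (a (l 16602528) (l 16601896))))))), by decide +kernel⟩

def k46_pm_011 : ∃ t, chk3 f_pm_011 t 51 127 1 = true :=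
  ⟨(c (b (a (c (a (c (l 14) (l 16622200)) (l 14)) (a (c (l 16602312) (l 16598144)) (c (l 16622552) (l 16597344)))) (c (l 14) (a (c (l 16611392) (l 16596600)) (c (l 14) (l 16616912))))) (a (a (a (c (c (l 14) (b (l 16619592) (b (l 16625984) (c (l 14) (l 16628992))))) (b (l 16612768) (c (b (l 16621232) (l 16625328)) (l 16618448)))) (c (l 14) (b (l 16612536) (c (b (l 16621104) (l 16625256)) (l 16618320))))) (c (l 14) (a (b (l 16612328) (c (b (l 16621000) (l 16630456)) (l 16628688))) (b (l 16622616) (c (c (l 14) (l 16627056)) (l 16624664)))))) (c (l 14) (c (a (b (l 16624704) (b (l 16626048) (c (l 14) (a (l 16623912) (l 14))))) (l 14)) (a (b (l 16609504) (b (l 16615880) (a (l 16620128) (l 16620096)))) (b (l 16609184) (a (b (l 16615776) (l 16625328)) (c (l 14) (l 16621880))))))))) (b (a (c (a (l 16591880) (l 16590968)) (l 16582920)) (c (a (l 16590128) (l 16610328)) (a (l 16581464) (l 16580552)))) (a (c (b (a (l 16603464) (l 16602896)) (a (c (l 16624000) (l 16608648)) (c (b (l 16611224) (l 16615200)) (l 16608272))))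 (b (l 16593864) (a (l 16601328) (l 16600840)))) (c (a (b (l 16602400) (c (b (l 16610944) (l 16615024)) (l 16607968))) (b (l 16601976) (a (c (l 16623352) (l 16607792)) (c (l 16623296) (l 16607696))))) (b (l 16603056) (a (l 16610904) (c (l 16602624) (l 16597512)))))))), by decide +kernel⟩

def k47_pm_011 : ∃ t, chk3 f_pm_011 t 26 60 1 = true :=
  ⟨(a (c (b (a (b (a (b (c (l 16693584) (l 16636856)) (l 16661184)) (l 16673024)) (c (l 16690224) (l 16631032))) (b (c (l 16716448) (l 16659352)) (c (l 16710824) (l 16651840)))) (a (b (c (l 16683520) (l 16622248)) (c (l 16676640) (l 16613200))) (b (c (l 16705088) (l 16644144)) (c (l 16699224) (l 16636240))))) (b (a (b (a (l 16612800) (l 16559984)) (l 16564336)) (b (l 16616856) (l 16606392))) (a (a (l 16561272) (l 16593880)) (b (l 16595608) (l 16605448))))) (b (c (a (b (c (l 16735736) (l 16678768)) (c (l 16730968) (l 16672216))) (b (c (l 16754648) (l 16697832)) (c (l 16750648) (l 16692160)))) (a (b (l 16657400) (c (l 16614032) (l 16556400))) (b (c (l 16641632)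 (l 16586040)) (c (l 16634216) (l 16576808))))) (c (a (b (c (l 16726128) (l 16665528)) (c (l 16721184) (l 16658664))) (b (c (l 16746616) (l 16686384)) (c (l 16742520) (l 16680480)))) (a (b (c (l 16605416) (l 16545784)) (c (l 16596544) (l 16534816))) (b (c (l 16626624) (l 16567328)) (c (l 16618824) (l 16557552))))))), by decide +kernel⟩

def k48_pm_011 : ∃ t, chk3 f_pm_011 t 26 61 1 = true :=
  ⟨(a (c (b (a (b (c (l 16669560) (l 16603856)) (c (l 16662240) (l 16594184))) (b (c (l 16693208) (l 16628088)) (c (l 16687000) (l 16619664)))) (a (b (c (l 16654664) (l 16584152)) (c (a (l 16639864) (l 16653696)) (l 16615688))) (b (c (l 16680584) (l 16631920)) (c (a (l 16667264) (l 16680568)) (a (l 16594984) (l 16608792)))))) (c (b (a (b (l 16538496) (l 16526368)) (b (l 16563296) (l 16552560))) (a (l 16526008) (b (l 16541424) (l 16529872)))) (b (a (l 16527152) (l 16519168)) (a (l 16516416) (l 16509376))))) (b (c (a (b (c (l 16716128) (l 16651608)) (c (l 16710928) (l 16665296))) (b (c (l 16738336) (l 16674416))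 (c (l 16734048) (l 16668176)))) (a (c (b (l 16587392) (l 16577928)) (l 16507184)) (b (c (l 16631760) (l 16547456)) (c (l 16644448) (l 16537016))))) (c (a (b (c (l 16684592) (a (l 16630432) (l 16643128))) (c (a (l 16693608) (l 16706392)) (a (l 16622344) (l 16635640)))) (b (c (l 16687696) (a (l 16655600) (l 16667848))) (c (a (l 16718928) (l 16731224)) (a (l 16648680) (l 16661472))))) (a (c (b (l 16589104) (a (l 16551072) (l 16564864))) (l 16512936)) (c (b (a (l 16587576) (l 16600256)) (a (l 16578400) (l 16591688))) (b (l 16526200) (l 16494024))))))), by decide +kernel⟩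

def k49_pm_011 : ∃ t, chk3 f_pm_011 t 27 60 1 = true :=
  ⟨(a (b (a (c (b (a (c (l 16768888) (l 16712256)) (l 16708888)) (a (l 16735904) (b (l 16726176) (l 16723736)))) (b (a (c (l 16656232) (l 16600800)) (l 16681240)) (a (l 16620400) (b (l 16653928) (l 16649680))))) (c (b (c (l 16794952) (l 16739128)) (a (c (l 16786248) (l 16728616)) (l 16769256))) (b (a (l 16650744) (l 16662280)) (a (c (l 16671504) (l 16614912)) (l 16656096))))) (a (c (b (c (l 16766584) (l 16706736)) (c (l 16763240) (l 16701688))) (b (c (l 16647344) (l 16588408)) (c (l 16640512) (l 16579704)))) (b (c (a (c (l 16782000) (b (l 16723872) (l 16720872))) (c (l 16794024) (l 16735168))) (a (b (c (l 16665328) (l 16607256)) (c (l 16661384) (l 16602320))) (c (l 16676752) (l 16618784)))) (c (a (l 16726784) (c (b (l 16790256) (l 16788056)) (b (l 16729936) (l 16726784)))) (a (l 16647112) (b (c (l 16669992) (l 16610424)) (c (l 16665856) (l 16605264)))))))) (b (a (c (b (c (l 16816096) (l 16761096)) (c (l 16815208) (l 16758952))) (b (a (l 16673880)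 (l 16685512)) (a (l 16669056) (l 16682000)))) (c (b (l 16809992) (l 16810448)) (b (l 16682016) (l 16680368)))) (a (c (b (c (l 16813096) (l 16755320)) (a (c (l 16802376) (l 16742344)) (l 16786688))) (b (a (l 16662248) (l 16676704)) (a (c (l 16682680) (l 16623368)) (l 16669176)))) (c (b (l 16809864) (l 16786896)) (b (a (l 16691064) (l 16705296)) (a (l 16685192) (l 16701016))))))), by decide +kernel⟩

def k50_pm_011 : ∃ t, chk3 f_pm_011 t 54 61 1 = true :=
  ⟨(b (c (a (b (c (l 16759848) (l 16696536)) (c (l 16756392) (a (l 16685560) (l 16696904)))) (b (c (l 16780712) (l 16697040)) (c (l 16777976) (a (l 16708056) (l 16719032))))) (a (b (c (l 16654480) (l 16570760)) (c (a (l 16620424) (l 16632128)) (l 16582488))) (a (b (l 16655624) (c (l 16643640) (l 16579400))) (b (c (l 16660984) (l 16598968)) (c (l 16654968) (l 16591080)))))) (c (a (b (c (l 16731872) (a (l 16679880) (l 16691696))) (c (a (l 16743272) (l 16755088)) (a (l 16674016) (l 16686328)))) (b (c (l 16775208) (a (l 16703304) (l 16714704))) (c (l 16751408)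 (a (l 16698408) (l 16710256))))) (a (b (c (a (l 16612704) (l 16624952)) (a (l 16545616) (l 16558272))) (c (a (l 16604728) (l 16617536)) (a (l 16535408) (l 16548696)))) (b (c (a (l 16636976) (l 16648800)) (a (l 16570720) (l 16582952))) (c (a (l 16630096) (l 16642432)) (a (l 16561744) (l 16574552))))))), by decide +kernel⟩

def k51_pm_011 : ∃ t, chk3 f_pm_011 t 55 122 1 = true :=
  ⟨(a (b (c (a (c (b (l 16798160) (l 16795824)) (b (l 16715600) (a (l 16730088) (l 16736120)))) (c (l 16811272) (l 16750128))) (a (a (b (c (l 16671232) (l 16609984)) (l 16636456)) (b (l 16648560) (c (l 16673904) (l 16611920)))) (c (l 16668288) (l 16649624)))) (c (a (c (l 16793704) (l 16729832)) (c (b (l 16806544) (l 16804056)) (b (a (l 16739600) (l 16747552)) (a (l 16736896) (l 16743216))))) (a (c (l 16666136) (l 16602600)) (b (a (c (l 16676712) (l 16614008)) (l 16654064)) (a (l 16641152) (c (b (l 16680640) (l 16678272)) (b (l 16617488) (l 16614544)))))))) (c (b (c (l 16833872) (l 16774392)) (a (c (l 16820680) (l 16758480))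 (l 16806616))) (b (a (l 16652600) (l 16694480)) (a (a (b (l 16663824) (l 16657048)) (l 16649520)) (c (l 16715512) (l 16654992)))))), by decide +kernel⟩

def k52_pm_011 : ∃ t, chk3 f_pm_011 t 55 123 1 = true :=
  ⟨(a (c (b (c (l 16796808) (a (l 16725904) (l 16736920))) (c (l 16794672) (a (l 16721880) (l 16733288)))) (b (c (a (l 16660416) (l 16671848)) (a (l 16594984) (l 16606832))) (c (a (l 16654536) (l 16666416)) (a (l 16587136) (l 16620464))))) (c (b (a (c (b (l 16815400) (l 16812744)) (b (a (l 16746944) (l 16755536)) (a (l 16744208) (l 16750800)))) (c (l 16830568) (l 16767384))) (a (c (l 16810856) (l 16744504)) (c (b (l 16824688) (l 16821848)) (b (a (l 16733808) (l 16764016)) (a (l 16752000) (c (l 16775376) (l 16742368))))))) (b (a (b (a (c (b (l 16683744) (l 16681304)) (b (l 16619888) (l 16616872))) (l 16660184)) (a (l 16646424) (c (b (l 16686976) (l 16684480)) (b (l 16622440) (l 16619344))))) (b (l 16655232) (c (l 16700944) (l 16637200)))) (a (c (l 16657136) (l 16632632)) (b (a (c (b (l 16690352)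 (l 16687776)) (b (l 16625144) (l 16642928))) (l 16638696)) (a (l 16631280) (c (b (l 16651912) (a (l 16689240) (l 16692904))) (b (a (l 16625080) (l 16630592)) (a (l 16622632) (l 16626496)))))))))), by decide +kernel⟩

def k53_pm_011 : ∃ t, chk3 f_pm_011 t 26 124 1 = true :=
  ⟨(a (c (a (c (b (a (l 16631360) (l 16645872)) (c (a (l 16642192) (l 16657224)) (l 14))) (b (a (l 16555344) (l 16570456)) (c (l 14) (l 16532272)))) (b (c (a (l 16660072) (l 16673984)) (a (l 16585256) (l 16599760))) (c (a (b (l 16654504) (l 16650696)) (b (l 16668880) (l 16665400))) (l 14)))) (a (b (l 16524056) (l 16539608)) (c (b (l 16518440) (l 16524680)) (l 16519448)))) (c (a (b (c (a (l 16687600) (l 16700928)) (a (l 16613968) (l 16627880))) (b (c (a (l 16682944) (l 16696704)) (l 16635672)) (c (a (l 16679776) (l 16693824)) (a (l 14) (l 16617784))))) (b (c (a (l 16713984) (l 16726768)) (a (l 16641512) (l 16654872))) (c (a (l 16666928) (l 16701200)) (a (b (l 16635976) (l 16632200)) (b (l 16649776) (l 16646304)))))) (a (c (b (a (l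 16540192) (l 16554688)) (c (l 14) (l 16518360))) (b (l 16510792) (l 16516048))) (c (b (a (l 16568896) (l 16582824)) (l 14)) (b (l 16504728) (l 16510448)))))), by decide +kernel⟩

def k54_pm_011 : ∃ t, chk3 f_pm_011 t 52 125 1 = true :=
  ⟨(c (c (a (b (a (l 14) (b (l 16631424) (l 14))) (l 14)) (c (b (a (b (l 16666632) (l 16663016)) (b (l 16681480) (l 16678192))) (b (a (l 16638360) (l 16653872)) (a (l 14) (b (l 16672288) (b (l 16671000) (b (l 16670352) (a (l 14) (l 16653072)))))))) (b (a (l 14) (b (l 16642208) (l 14))) (l 14)))) (a (c (l 14) (b (l 16538928) (l 16555880))) (l 14))) (a (c (b (l 16535992) (l 16541368)) (l 16554912)) (b (c (l 16541184) (l 16526424)) (c (a (l 16537832) (c (l 14) (l 16534160))) (l 16531056))))), by decide +kernel⟩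

def k55_pm_011 : ∃ t, chk3 f_pm_011 t 53 125 1 = true :=
  ⟨(c (b (b (a (c (a (l 16676544) (l 16690896)) (a (l 14) (l 16613616))) (c (a (l 16704912) (l 16718616)) (a (l 16628360) (l 16642768)))) (a (c (a (c (l 16693008) (l 16653472)) (c (l 16707472) (l 16668320))) (l 14)) (c (a (l 16660280) (l 16695224)) (a (l 16634936) (l 16633936))))) (a (c (c (b (a (l 16689976) (l 16704736)) (b (a (l 16687664) (l 16702664)) (a (b (l 16686496) (b (a (l 16682112) (l 16689848)) (l 16686000))) (b (a (l 16697880) (l 16705400)) (a (l 16697632) (l 16705368)))))) (a (b (l 16639304) (l 14)) (b (l 16643992) (b (l 16662416) (a (l 14) (b (l 16644048) (l 16664896))))))) (l 14)) (b (c (a (c (l 16719144) (l 16679776)) (c (l 16733208) (l 16694232))) (c (a (l 16640272) (l 16634152)) (l 14))) (b (c (a (c (l 16717288) (l 16677456)) (c (l 16731552) (l 16692136))) (a (l 14) (c (l 16652576) (l 14)))) (c (b (a (c (b (l 16716528) (l 16716376)) (b (l 16676512) (a (l 16672464) (l 16680096)))) (c (l 16731024) (b (a (l 16687672) (l 16695040))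 (l 16691512)))) (a (c (l 16716736) (l 16676624)) (l 16690792))) (a (l 14) (b (c (b (a (l 14) (l 16655408)) (l 16651736)) (l 14)) (l 16630840)))))))) (a (b (c (c (l 14) (l 16524464)) (l 16521080)) (a (c (c (l 14) (l 16531928)) (l 16527496)) (c (l 14) (l 16535712)))) (c (l 14) (b (l 16515928) (b (l 16519912) (b (l 16521864) (a (l 16525176) (l 16523448)))))))), by decide +kernel⟩

def k56_pm_011 : ∃ t, chk3 f_pm_011 t 27 124 1 = true :=
  ⟨(a (c (a (b (c (a (l 16739288) (l 16751552)) (a (l 16667960) (l 16680784))) (c (a (l 16735176) (l 16747904)) (a (b (l 16663280) (l 16660104)) (b (l 16676512) (l 16673600))))) (b (c (a (l 16763568) (l 16775328)) (a (l 16693352) (l 16705672))) (c (a (l 16760360) (l 16772544)) (a (l 16646200) (l 16679976))))) (a (c (b (a (l 16596480) (l 16609864)) (c (a (l 16606400) (l 16620240)) (l 14))) (b (a (l 16524832) (l 16538776)) (c (l 14) (l 16504160)))) (b (c (a (l 16622992) (l 16635856)) (a (l 16552456) (l 16565872))) (c (a (b (l 16617504) (l 16613768)) (b (l 16630784) (l 16627336)))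 (l 14))))) (c (a (b (c (l 16792520) (a (l 16717744) (l 16729576))) (c (l 16769344) (a (l 16692512) (l 16725760)))) (b (c (l 16814696) (a (l 16741176) (l 16752568))) (c (l 16813152) (a (l 16737776) (l 16749544))))) (a (b (c (a (l 16648472) (l 16639872)) (a (l 16600000) (b (l 16593848) (l 16590008)))) (c (a (b (l 16643800) (l 16640624)) (b (l 16656552) (l 16653632))) (c (a (l 16588568) (l 16601904)) (l 14)))) (b (c (a (c (l 16690040) (l 16655904)) (b (l 16686064) (l 16683688))) (a (b (l 16606384) (l 16602816)) (b (l 16618696) (l 16615368)))) (c (a (b (l 16669048) (l 16666376)) (c (l 16697472) (l 16662664))) (a (b (l 16599184) (l 16595504)) (b (l 16612008) (l 16608592)))))))), by decide +kernel⟩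

def k57_pm_011 : ∃ t, chk3 f_pm_011 t 54 125 1 = true :=
  ⟨(b (c (a (c (a (c (l 16749792) (l 16712040)) (c (l 16762824) (l 16725432))) (a (b (l 16656864) (l 16632600)) (b (l 16670640) (l 16636176)))) (c (a (l 16736080) (l 16769672)) (a (b (l 16684120) (l 16639448)) (b (l 16697304) (l 16673864))))) (a (c (a (l 14) (b (l 16595800) (l 14))) (c (l 14) (l 16509744))) (c (a (b (l 16609968) (l 16627072)) (b (l 16623824) (l 16620256))) (l 14)))) (c (a (b (c (a (c (l 16746928) (l 16708344)) (l 16720264)) (a (c (l 16648656) (l 16630776)) (c (l 16683792) (l 16624360)))) (b (c (a (c (l 16745560) (a (l 16702952) (l 16710088))) (c (l 16759224) (b (l 16720728) (l 16699376)))) (a (c (a (l 16663704) (b (l 16671320) (l 16670648))) (l 14)) (b (l 16631192) (a (b (l 16658448) (a (l 16635400) (l 16639112))) (b (l 16644736) (l 16644696)))))) (c (a (c (l 16745672) (l 16706496)) (l 16740432)) (a (c (a (l 16663376) (l 16670992)) (l 14)) (c (l 16682176) (l 16643152)))))) (b (c (a (l 16754504) (l 16767464)) (a (c (l 16697632)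 (l 16638584)) (c (l 16711152) (l 16673448)))) (b (c (a (b (l 16753432) (l 16732384)) (b (l 16766632) (l 16766880))) (a (b (l 16634912) (b (a (a (l 16650120) (l 16653696)) (l 16638112)) (l 16655752))) (b (c (l 16709840) (a (l 16668264) (l 16675272))) (l 16669992)))) (c (l 16719264) (a (l 16635568) (l 16671008)))))) (a (a (c (l 14) (b (l 16516472) (b (l 16518664) (l 16522000)))) (l 14)) (c (c (a (b (l 16621336) (l 14)) (b (l 16635608) (b (b (a (l 16629976) (l 16637176)) (l 16633632)) (l 16634600)))) (l 14)) (l 14))))), by decide +kernel⟩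

def k58_pm_011 : ∃ t, chk3 f_pm_011 t 55 125 1 = true :=
  ⟨(b (c (a (c (a (l 16782008) (l 16794064)) (a (b (l 16710208) (l 16707976)) (c (l 16739928) (l 16703704)))) (c (l 16811632) (a (c (l 16752216) (l 16716320)) (l 16746464)))) (a (c (a (b (l 16637392) (l 16623624)) (b (l 16650664) (l 16626680))) (a (l 14) (b (l 16578104) (l 14)))) (c (a (b (l 16663664) (l 16639936)) (b (l 16676384) (l 16652904))) (a (b (l 16591752) (l 16608920)) (b (l 16605120) (l 16622568)))))) (c (c (b (a (a (l 16780120) (l 16792512)) (a (l 16804688) (l 16816552))) (a (a (c (l 16799056) (l 16761648)) (l 16793280)) (l 16812128))) (b (a (a (c (l 16724360) (l 16687032)) (c (l 16737304) (l 16700336))) (a (a (l 16728520) (l 16713920)) (b (l 16744496) (c (l 16762080) (l 16725728))))) (a (a (b (b (c (l 16723320) (b (l 16685664) (l 16685632))) (l 16705024)) (l 16706104)) (c (l 16737640) (b (l 16678704) (l 16701216)))) (a (l 16732536) (l 16745624))))) (b (a (c (a (c (l 16649560) (l 16611952)) (a (l 16620200) (a (l 16646312) (l 16628768))))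 (l 14)) (c (a (b (l 16658816) (b (l 16657760) (a (l 16632792) (a (l 16637880) (l 16641256))))) (b (l 16671968) (b (l 16671008) (c (l 16668016) (b (l 16652264) (l 16652312)))))) (a (b (l 16585056) (l 14)) (b (l 16598912) (b (l 16597568) (c (b (l 16615448) (l 16615472)) (l 14))))))) (a (c (a (b (b (c (b (l 16647888) (l 16647824)) (l 14)) (l 16629368)) (l 16630384)) (b (a (b (b (l 16618576) (l 16639808)) (l 16640336)) (l 16626160)) (l 16624048))) (l 14)) (c (a (c (l 16677096) (l 16639952)) (l 16630512)) (a (l 14) (l 16609200))))))), by decide +kernel⟩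

def k59_pm_011 : ∃ t, chk3 f_pm_011 t 52 63 1 = true :=
  ⟨(b (c (a (a (a (c (l 14) (b (c (l 14) (l 16568664)) (l 16589584))) (l 14)) (l 14)) (a (l 14) (c (b (b (c (a (l 14) (l 16674896)) (l 14)) (l 14)) (l 14)) (l 14)))) (a (b (c (b (a (l 16548496) (l 16546728)) (l 16556848)) (b (l 16541184) (l 16549840))) (c (a (l 16571056) (l 16569968)) (l 16562592))) (b (c (a (l 16570824) (l 16548624)) (l 16563088)) (c (a (l 16568944) (l 16588968)) (l 16581256))))) (c (a (a (a (a (c (l 14) (b (l 16613520) (c (l 14) (b (l 16609040) (c (l 14) (l 16616632)))))) (l 14)) (l 14)) (l 14)) (l 14)) (b (a (c (a (l 16609632) (c (l 16590296) (l 16585760))) (a (l 16579712) (l 16578944))) (c (a (c (l 16610752) (l 16585176)) (c (l 14) (l 16584664))) (a (l 16578248) (l 16598600)))) (a (c (a (b (l 16612104) (b (a (l 16608080) (l 16608016)) (c (a (l 16614912) (l 16614920)) (l 16609664)))) (a (b (l 16601416) (c (b (l 16610544) (l 16620192)) (l 16607520))) (b (l 16601296) (c (c (l 14) (l 16621936)) (l 16617984))))) (b (a (l 16591824)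 (l 16591400)) (a (c (l 16602392) (l 16597200)) (c (l 16610104) (l 16596960))))) (c (c (a (b (l 16603664) (b (l 16615784) (c (l 14) (a (l 16613728) (l 14))))) (l 14)) (a (b (l 16598624) (b (l 16605288) (a (l 16609688) (l 16609736)))) (b (l 16598472) (b (l 16605312) (a (l 16609808) (l 16615144)))))) (a (b (l 16591048) (c (b (l 16600024) (l 16604296)) (l 16596808))) (b (l 16590776) (c (a (l 16602160) (l 16612672)) (l 16607216))))))))), by decide +kernel⟩

def k60_pm_011 : ∃ t, chk3 f_pm_011 t 53 126 1 = true :=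
  ⟨(c (a (c (c (b (a (b (a (l 16682984) (l 16690976)) (a (l 16684792) (l 16692904))) (b (l 16702752) (l 16704864))) (a (b (a (l 14) (l 16695016)) (l 14)) (b (l 16707152) (l 16709616)))) (b (a (l 14) (b (a (l 14) (l 16666056)) (l 14))) (l 14))) (l 14)) (b (c (a (c (b (l 16718104) (l 16720448)) (b (a (l 16673976) (l 16681792)) (l 16659096))) (c (l 16713344) (b (l 16693320) (l 16695728)))) (a (l 14) (a (l 14) (b (l 16632152) (l 14))))) (c (a (a (c (l 16720368) (l 14)) (b (l 16685704) (l 16667416))) (c (l 16739776) (b (l 16698320) (l 16701104)))) (l 14)))) (c (a (a (b (l 16557768) (l 16582856)) (l 14)) (l 14)) (a (b (l 16560360) (a (l 16558792) (l 16557864))) (b (c (l 16559608) (l 16534896)) (a (l 16557008) (l 16577216)))))), by decide +kernel⟩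

def k61_pm_011 : ∃ t, chk3 f_pm_011 t 53 127 1 = true :=
  ⟨(c (c (c (a (b (a (l 14) (b (l 16691280) (l 14))) (l 14)) (b (a (b (l 16728536) (l 16731584)) (l 16745960)) (a (b (l 16734808) (l 14)) (b (l 16751064) (l 16754688))))) (a (l 14) (b (a (l 14) (b (l 16683104) (l 14))) (l 14)))) (l 14)) (b (a (c (a (c (l 14) (l 16605200)) (l 14)) (a (l 16598056) (c (l 16579040) (l 16574200)))) (c (l 14) (a (c (l 16599672) (l 16573776)) (c (l 14) (l 16573448))))) (a (a (c (a (c (l 14) (b (l 16598416) (c (l 14) (l 16612888)))) (l 14)) (b (l 16601072) (b (a (l 16597272) (l 16597288)) (c (a (l 16604464) (l 16604552)) (l 16598920))))) (c (l 14) (b (c (l 16593120) (l 16587824)) (b (a (l 16597320) (l 16597376)) (c (a (l 16604664) (l 16610048)) (l 16604304)))))) (c (l 14) (c (a (a (b (l 16593128) (c (l 14) (l 16606432))) (l 14)) (l 14)) (a (b (l 16587760) (b (l 16594696) (c (l 16605976) (l 16597856)))) (b (l 16587784) (b (l 16594896) (a (l 16599536) (l 16604960)))))))))), by decide +kernel⟩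

def k62_pm_011 : ∃ t, chk3 f_pm_011 t 54 63 1 = true :=
  ⟨(c (b (a (c (b (a (b (l 16680832) (l 16688752)) (c (l 16763272) (l 16703432))) (a (b (l 16691616) (l 16694664)) (c (l 16769472) (l 16730400)))) (c (b (a (b (l 16647968) (l 16650448)) (b (l 16684064) (l 16686752))) (a (b (l 16653136) (l 14)) (b (l 16689648) (l 16692752)))) (b (a (l 14) (b (l 16623976) (l 14))) (l 14)))) (c (b (a (l 16716064) (l 16771792)) (a (l 16743472) (l 16778528))) (b (a (c (b (l 16698808) (l 16701688)) (b (l 16660152) (l 16662936))) (c (l 16693720) (b (l 16674976) (l 16677952)))) (a (c (b (l 16704776) (l 16708072)) (b (l 16644968) (l 14))) (c (l 16721224) (b (l 16681152) (l 16684560))))))) (a (c (b (a (c (l 16761408) (b (l 16719968) (l 16723344))) (c (l 16776416) (l 16716200))) (a (c (l 16768720) (b (l 16726920) (l 14))) (b (l 16741480) (l 16745480)))) (b (a (l 14) (c (b (l 16675080) (l 14)) (l 14))) (l 14))) (c (b (a (l 16750672) (l 16786048)) (a (c (l 16799008) (l 16760192)) (l 16794344))) (c (b (a (b (l 16711576) (l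 16715280)) (b (l 16726656) (l 16730552))) (a (b (l 16719192) (l 14)) (b (l 16734648) (l 16738952)))) (b (a (l 14) (b (l 16667216) (l 14))) (l 14)))))) (a (a (c (l 14) (c (l 14) (a (b (l 16564544) (b (l 16573272) (b (l 16587872) (c (l 14) (l 16606552))))) (l 14)))) (l 14)) (b (c (b (a (l 14) (b (c (l 16636624) (l 14)) (l 14))) (l 14)) (l 14)) (l 14)))), by decide +kernel⟩

def k63_pm_011 : ∃ t, chk3 f_pm_011 t 55 63 1 = true :=
  ⟨(c (b (c (a (b (a (l 16785224) (l 16798312)) (a (l 16792240) (l 16805576))) (b (l 16817288) (l 16824880))) (a (b (a (b (l 16687376) (l 16690552)) (c (l 16742536) (l 16684208))) (a (b (l 16693952) (l 16697560)) (c (l 16749680) (l 16712240)))) (b (a (c (l 16755936) (l 16719016)) (l 16750768)) (a (l 16723896) (l 16758392))))) (c (a (b (a (l 16800032) (l 16813624)) (a (l 16808616) (l 16822464))) (b (l 16833248) (l 16842424))) (a (b (a (c (l 16743328) (b (l 16703360) (l 16707384))) (a (l 16714368) (l 16742528))) (a (c (l 16751864) (b (l 16711632) (l 14))) (b (l 16724504) (l 16708168))))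 (b (a (l 16711168) (l 16766880)) (a (c (l 16780688) (l 16743728)) (l 16776256)))))) (b (a (c (c (b (a (b (l 16651536) (l 16654616)) (b (l 16666080) (l 16669336))) (a (b (l 16657928) (l 14)) (b (l 16672824) (l 16676536)))) (b (a (l 14) (b (l 16628456) (l 14))) (l 14))) (l 14)) (b (b (c (a (c (l 16680272) (l 16643088)) (l 16633816)) (a (l 14) (l 16613584))) (c (a (c (l 16683688) (l 16646464)) (l 16637360)) (l 14))) (c (a (c (b (l 16687328) (l 16691208)) (b (l 16650080) (l 14))) (c (l 16703448) (b (l 16664664) (l 16668688)))) (l 14)))) (c (c (a (b (a (l 14) (b (l 16659520) (l 14))) (l 14)) (b (a (b (l 16695320) (l 16699664)) (b (l 16709744) (l 16714232))) (a (b (l 16704240) (l 14)) (b (l 16718960) (l 16723920))))) (a (l 14) (b (a (l 14) (b (l 16672944) (l 14))) (l 14)))) (l 14)))), by decide +kernel⟩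

def k64_pm_011 : ∃ t, chk3 f_pm_011 t 7 28 1 = true :=
  ⟨(a (a (b (a (c (l 16867760) (l 16799600)) (c (l 16887344) (l 16816688))) (a (c (l 16859848) (b (l 16785552) (l 16773768))) (c (l 16881376) (b (l 16804392) (l 16793952))))) (b (l 1) (a (c (l 16902760) (b (l 1) (l 16813328))) (l 1)))) (l 1)), by decide +kernel⟩

def k65_pm_011 : ∃ t, chk3 f_pm_011 t 14 29 2 = true :=
  ⟨(b (a (a (b (l 16849152) (c (l 16863824) (l 16815272))) (b (l 16872464) (b (l 16866416) (a (l 16855744) (b (l 16869112) (a (l 16864192) (l 16871152))))))) (b (a (l 16895224) (l 1)) (a (b (a (l 16884224) (b (l 16896624) (c (l 16920288) (l 19361093031)))) (a (b (a (l 16878520) (l 16884776)) (l 16882304)) (b (l 16895008) (l 16896896)))) (b (l 1) (l 113313508295))))) (a (b (a (b (a (b (l 16825792) (a (l 16819496) (c (l 16852320) (l 16800952)))) (b (a (l 16835560) (l 16842344)) (a (c (l 16859768) (l 16808424)) (l 16842216)))) (a (a (c (l 16844720) (l 16792808)) (l 16827480)) (l 16840400))) (a (b (b (a (b (l 16849352) (l 16849216))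 (l 16856840)) (l 16854568)) (l 16857512)) (b (l 16869848) (l 16874416)))) (a (a (b (l 16825752) (l 16828552)) (b (l 16844032) (l 16848040))) (a (l 16864624) (l 16882864)))) (b (a (a (l 16866944) (l 16902928)) (b (l 16922064) (l 16928120))) (a (a (l 16900168) (l 16916144)) (l 16918312))))), by decide +kernel⟩

def k66_pm_011 : ∃ t, chk3 f_pm_011 t 14 29 3 = true :=
  ⟨(b (a (a (b (l 16738880) (a (l 16737760) (l 16749520))) (b (l 16760560) (b (l 16770832) (a (a (l 16754128) (b (l 16762080) (l 16758248))) (b (l 16770832) (a (b (l 16765064) (c (l 16788672) (l 16739512))) (b (c (l 16796160) (l 16747192)) (l 16772064)))))))) (b (a (a (l 16797256) (l 16806944)) (l 1)) (a (b (a (l 16787328) (b (l 16799048) (b (l 27413935687) (a (l 16771480) (b (l 1) (l 16798144)))))) (a (b (a (b (l 16780288) (c (l 16803432) (l 16754616))) (b (l 16743784) (l 16785352))) (l 16762264)) (b (a (b (c (l 16816328) (l 16767344)) (l 16792704)) (l 16799432)) (l 16798080)))) (b (l 1) (a (l 98280930375) (l 1)))))) (a (b (a (b (a (b (l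 16726096) (b (l 16701640) (a (l 16696056) (c (l 16749496) (l 16699392))))) (b (a (l 16735440) (b (l 16742648) (c (l 16765904) (l 16716288)))) (a (b (c (l 16757752) (l 16707896)) (l 16732984)) (l 16741336)))) (a (a (b (c (l 16741296) (l 16690896)) (l 16716856)) (l 16725536)) (a (l 16734624) (l 16743720)))) (a (b (b (b (a (c (l 16773944) (l 16724568)) (l 16735392)) (l 16711080)) (l 16754352)) (l 16736400)) (b (c (l 16795096) (l 16746144)) (l 16775496)))) (a (a (b (a (l 16718024) (l 16727800)) (l 16724768)) (b (l 16742464) (l 16745928))) (a (b (l 16761952) (l 16766888)) (b (l 16781256) (l 16787544))))) (b (a (a (b (l 16786920) (l 16792760)) (b (l 16802136) (l 16808632))) (a (b (l 16817200) (l 16824256)) (l 89691033703))) (a (a (b (l 16799520) (l 16806944)) (b (l 16816144) (l 16824456))) (a (l 16794928) (l 16853072)))))), by decide +kernel⟩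

def k67_pm_011 : ∃ t, chk3 f_pm_011 t 15 29 1 = true :=
  ⟨(b (l 1) (a (a (a (b (l 1) (l 84322400183)) (l 1)) (l 1)) (l 1))), by decide +kernel⟩

def k68_pm_011 : ∃ t, chk3 f_pm_011 t 14 30 1 = true :=
  ⟨(a (b (a (b (c (a (b (l 16831232) (l 16833480)) (l 16854128)) (a (b (l 16726216) (l 16726880)) (b (l 16749224) (l 16752008)))) (c (a (b (l 16834968) (l 16835360)) (l 16860768)) (a (b (l 16726400) (l 16682424)) (b (l 16753952) (l 16754680))))) (b (c (a (l 16875264) (l 16895792)) (a (b (l 16771872) (l 16776592)) (b (l 16794056) (l 16800528)))) (c (a (l 16885288) (l 16908816)) (a (b (l 16780736) (l 16783968)) (b (l 16806656) (l 16812144)))))) (a (b (a (c (b (l 16834320) (l 16831488)) (b (a (l 16711824) (l 16728872)) (a (l 16683560) (l 16723448)))) (c (l 16821592) (b (l 16753840) (l 16688136)))) (a (c (b (c (l 16856944) (l 16796048)) (a (c (l 16840920) (l 16776808)) (l 16828784))) (b (a (c (l 16725048) (l 16663552)) (l 16673376)) (a (b (l 16642432) (c (l 16709016) (l 16644080))) (c (l 16735224) (l 16651840)))))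 (c (b (l 16861480) (l 16857528)) (b (c (l 16774760) (l 16717072)) (a (l 16663896) (l 16727992)))))) (b (c (a (l 16892456) (l 16919904)) (a (b (l 16785968) (l 16786384)) (b (l 16816696) (l 16819992)))) (c (a (l 16894448) (l 16926936)) (a (b (l 16742912) (c (l 16809200) (l 16752816))) (b (l 16821712) (l 16821512))))))) (b (a (b (c (a (l 16914968) (l 16932336)) (a (l 16797808) (l 16837896))) (c (l 16940272) (a (l 16834400) (l 16856320)))) (b (c (l 16957112) (a (l 16856320) (l 16874032))) (c (l 16976968) (a (l 16877168) (l 16896952))))) (a (b (c (l 16956080) (a (b (l 16844792) (l 16850600)) (l 16873504))) (c (l 16948336) (a (b (l 16855152) (l 16858152)) (l 16887368)))) (b (c (l 16997336) (a (l 16897576) (l 16920144))) (c (l 17016680) (a (l 16915648) (l 16941856))))))), by decide +kernel⟩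

def k69_pm_011 : ∃ t, chk3 f_pm_011 t 56 124 1 = true :=
  ⟨(a (c (b (a (c (b (l 16834400) (l 16831360)) (b (a (c (l 16779728) (l 16746440)) (l 16772992)) (a (l 16760256) (b (l 16768216) (l 16766040))))) (c (l 16851704) (l 16765768))) (a (c (l 16829680) (l 16761096)) (c (b (l 16844512) (l 16841256)) (b (a (b (l 16772672) (l 16770424)) (l 16782432)) (a (l 16768960) (b (l 16777240) (l 16774928))))))) (b (a (b (a (c (b (a (l 16694688) (l 16700016)) (a (l 16692752) (l 16696496))) (b (a (l 16627952) (l 16633680)) (a (l 16625472) (l 16629440)))) (c (l 16707136) (l 16641136))) (a (c (l 16692552) (l 16624640)) (c (b (a (l 16698344) (l 16703864)) (a (l 16696392) (l 16679248))) (b (a (l 16630960) (l 16636904)) (a (l 16628448) (c (l 16649464) (l 16615552))))))) (b (c (l 16725400) (l 16660880)) (c (l 16696664) (a (l 16644680) (l 16658440))))) (a (c (c (l 16709464) (l 16653984)) (b (l 16624600) (l 16621416))) (b (a (c (b (a (l 16681152) (l 16707848)) (a (l 16700152) (c (l 16721104) (l 16687008)))) (b (a (c (l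 16651136) (l 16617056)) (l 16640272)) (a (l 16631568) (a (l 16634240) (l 16636856))))) (c (l 16715536) (l 16648368))) (a (c (l 16700096) (l 16630888)) (c (b (a (c (l 16723144) (l 16688904)) (l 16711952)) (a (l 16704040) (c (l 16725216) (l 16690832)))) (b (a (b (l 16638104) (l 16636288)) (l 16643784)) (a (l 16634824) (b (l 16618832) (l 16627480)))))))))) (c (b (c (l 16882040) (l 16820032)) (a (c (l 16862912) (l 16776184)) (l 16852952))) (b (a (b (l 16717832) (l 16668744)) (c (l 16769600) (l 16708320))) (a (b (c (l 16735248) (l 16669752)) (c (a (l 16719928) (l 16733624)) (a (l 16631232) (l 16667080)))) (c (l 16757376) (b (l 16697456) (l 16688912))))))), by decide +kernel⟩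

def k70_pm_011 : ∃ t, chk3 f_pm_011 t 57 124 1 = true :=
  ⟨(c (a (b (l 16890984) (l 16885704)) (l 16927656)) (a (b (a (l 16720856) (l 16785856)) (c (l 16774040) (a (l 16699872) (l 16747440)))) (a (b (l 16808160) (l 16780944)) (b (l 16829720) (l 16825648))))), by decide +kernel⟩

def k71_pm_011 : ∃ t, chk3 f_pm_011 t 56 250 1 = true :=
  ⟨(a (b (c (c (l 16834424) (l 16743936)) (c (a (l 16688840) (l 16701048)) (a (l 16618216) (c (l 16648592) (l 16613496))))) (c (c (l 16833944) (l 16742624)) (c (a (l 16665592) (l 16698976)) (a (l 16620200) (c (l 16645816) (l 16610224)))))) (c (a (c (b (l 16855008) (l 16851528)) (b (a (b (l 16781912) (l 16779528)) (l 16792328)) (a (l 16778112) (b (l 16786696) (l 16784240))))) (c (l 16874504) (l 16808040))) (a (b (a (c (b (a (c (l 16727320) (l 16692784)) (l 16716184)) (a (l 16708048) (a (l 16710656) (l 16713232)))) (b (a (b (a (l 16639792) (l 16643096)) (a (l 16638496) (l 16640656))) (l 16647432)) (a (l 16638216) (b (a (l 16641528) (l 16644888)) (a (l 16640224) (l 16642408))))))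 (c (l 16724448) (l 16624720))) (a (c (l 16708128) (l 16637680)) (c (b (a (a (l 16712720) (l 16715336)) (l 16720544)) (a (l 16712184) (a (l 16714824) (l 16717472)))) (b (a (b (a (l 16622320) (l 16646720)) (a (l 16641992) (l 16623224))) (l 16651224)) (a (l 16641752) (b (a (l 16624128) (l 16648584)) (a (l 16643784) (c (l 16663632) (l 16628368))))))))) (b (c (l 16745648) (l 16658264)) (c (a (l 16729096) (l 16743808)) (a (b (l 16663256) (l 16657272)) (l 16676312))))))), by decide +kernel⟩

def k72_pm_011 : ∃ t, chk3 f_pm_011 t 112 251 1 = true :=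
  ⟨(c (b (c (l 16833856) (b (l 16762640) (a (b (l 16756200) (l 16756312)) (l 16768456)))) (c (l 16836080) (l 16764656))) (b (b (c (a (l 16684840) (l 16697424)) (a (l 16612480) (l 16625760))) (c (a (b (l 16663048) (c (l 16702120) (l 16665824))) (b (c (l 16714712) (l 16678848)) (l 16697208))) (a (b (l 16611288) (c (l 16629384) (l 14))) (b (a (l 16621408) (a (l 16626408) (l 16619256))) (l 16625120))))) (c (a (l 16665072) (l 16699312)) (a (l 16613120) (l 16627200))))), by decide +kernel⟩

def k73_pm_011 : ∃ t, chk3 f_pm_011 t 113 251 1 = true :=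
  ⟨(c (b (a (b (l 16815264) (c (l 16850640) (l 16780416))) (b (a (a (l 16802208) (a (l 16827216) (l 16830560))) (l 16838952)) (a (c (l 16859568) (l 16789976)) (l 16835872)))) (a (l 16818240) (c (l 16865688) (a (l 16791944) (l 16800008))))) (b (a (b (c (l 16709752) (l 16617800)) (c (c (l 16727400) (b (l 16691584) (l 16692328))) (b (b (a (l 16634696) (l 16641240)) (l 16638160)) (l 16638800)))) (b (a (a (a (c (l 16716952) (b (c (l 16664592) (l 16629248)) (l 16645616))) (c (l 16719640) (b (l 16650480) (c (l 16665560) (l 16630144))))) (a (c (l 16723104) (l 16653056)) (c (l 16726960) (l 16657256)))) (c (l 16736640) (l 16625864))) (a (b (a (c (l 16717096) (l 16625296)) (c (l 16700872) (a (b (c (l 16667176) (l 16631744)) (l 16649264)) (l 16653136)))) (c (l 16698856) (a (l 16647192) (a (l 16649680) (c (l 16669696) (l 16634296)))))) (c (l 16732512) (l 16662960))))) (a (c (l 16712272) (l 16619984)) (a (c (l 16721752) (l 16651024)) (c (a (b (c (l 16744288) (l 16709272)) (l 16727408)) (b (l 16733488) (l 16710768)))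 (b (a (c (a (l 16672440) (l 16675368)) (b (a (l 16636864) (l 16640584)) (a (l 16637072) (l 16639440)))) (l 16663776)) (b (a (l 16656528) (a (l 16628224) (l 16663320))) (a (l 16657464) (a (l 16659944) (l 16620328)))))))))), by decide +kernel⟩

def k74_pm_011 : ∃ t, chk3 f_pm_011 t 57 125 1 = true :=
  ⟨(b (c (a (l 16814640) (l 16922504)) (a (c (a (l 16769312) (l 16796352)) (a (b (l 16709024) (l 16699768)) (b (l 16737760) (l 16730040)))) (c (l 16835000) (a (l 16762448) (l 16789792))))) (c (a (b (b (l 16829144) (l 16868672)) (l 16823824)) (c (l 16945768) (l 16885536))) (a (b (b (b (c (l 16774472) (l 16667232)) (c (l 16730624) (a (c (l 16707688) (l 16674056)) (l 16722512)))) (c (l 16770480) (l 16662472))) (a (c (l 16751392) (a (l 16653904) (l 16691536))) (l 16706744))) (b (b (c (l 16828864) (a (l 16712008) (l 16782848))) (l 16754560)) (c (l 16823656) (l 16762240)))))), by decide +kernel⟩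

def k75_pm_011 : ∃ t, chk3 f_pm_011 t 56 63 1 = true :=
  ⟨(b (c (a (a (c (l 16839448) (b (l 16763712) (l 16771552))) (b (l 16749008) (l 16778000))) (b (c (l 16864600) (l 16752816)) (c (l 16872688) (l 16802944)))) (a (b (b (c (a (l 16668512) (l 16702872)) (a (l 16616520) (l 16609768))) (c (a (l 16672184) (l 16706672)) (a (c (l 16638472) (l 14)) (l 16613576)))) (b (c (a (l 16676104) (l 16710712)) (c (a (l 16642392) (l 16656688)) (l 14))) (c (a (l 16680264) (l 16714992)) (a (l 14) (c (l 16661000) (l 14)))))) (b (b (c (a (l 16715944) (l 16728728)) (a (l 16623664) (c (l 16675904) (l 16640520)))) (c (a (l 16719856) (l 16732704)) (a (l 16627592) (l 16620304)))) (c (a (c (l 16743888) (l 16708416)) (l 16739168)) (a (b (c (l 16670624) (l 16634864)) (c (l 16675056) (l 14))) (c (b (l 16684208) (l 16688760)) (b (l 16648880) (l 16653480)))))))) (c (a (a (c (l 16856744) (b (l 16780272) (l 16789864))) (b (l 16786856) (l 16796544))) (c (l 16886464) (b (l 16812104) (l 16822144)))) (a (c (b (a (c (l 16726064) (b (l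 16687448) (l 16692104))) (a (l 16697456) (l 16725304))) (a (c (l 16735776) (b (l 16697000) (l 14))) (c (l 16749728) (b (l 16711376) (l 16716656))))) (b (a (l 14) (b (c (l 16665568) (l 14)) (l 14))) (l 14))) (c (b (a (c (l 16753104) (l 16717720)) (l 16748624)) (a (c (l 16763264) (l 16728016)) (l 16738072))) (c (b (a (b (l 16679752) (l 16684712)) (b (l 16693568) (l 16698640))) (a (b (l 16689928) (l 14)) (b (l 16703968) (l 16709552)))) (b (a (l 14) (b (l 16658344) (l 14))) (l 14))))))), by decide +kernel⟩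

def k76_pm_011 : ∃ t, chk3 f_pm_011 t 57 63 2 = true :=
  ⟨(a (b (a (b (c (l 16884752) (a (b (l 16809600) (l 16811424)) (b (l 16821680) (l 16819392)))) (l 16854952)) (b (l 16873432) (c (l 16903736) (a (l 16830896) (l 16840776))))) (b (l 16828144) (l 16880088))) (b (a (l 16895832) (l 16919832)) (a (b (a (l 16885048) (l 16894288)) (l 16896448)) (b (l 16912240) (c (l 16943400) (l 16878632)))))), by decide +kernel⟩

def k77_pm_011 : ∃ t, chk3 f_pm_011 t 114 63 3 = true :=
  ⟨(b (a (b (b (a (c (a (b (l 16736744) (l 16737504)) (b (l 16743408) (l 16741808))) (b (b (a (a (l 16643912) (l 16668520)) (l 16674920)) (a (a (l 16665192) (l 16646536)) (l 16673272))) (b (a (l 16667016) (a (l 16649184) (l 16673784))) (a (l 16668032) (a (l 16670504) (l 16651848)))))) (c (l 16753720) (l 16685256))) (a (c (l 16742088) (l 16672240)) (c (a (b (l 16746936) (l 16747840)) (l 16732072)) (b (a (a (b (l 16654528) (l 16675888)) (b (l 16679120) (l 16657224))) (l 16684736)) (a (l 16678320) (c (l 16679312) (a (l 16653336) (l 16645872))))))))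 (c (l 16730648) (b (c (l 16697488) (l 16662584)) (l 16642752)))) (b (c (l 16774128) (b (l 16710024) (a (l 16695904) (l 16712408)))) (b (a (c (a (l 16758096) (l 16763520)) (a (b (c (l 16705720) (a (l 16669392) (l 16672400))) (l 16689408)) (b (l 16695624) (c (l 16711224) (a (l 16675032) (l 16678032)))))) (c (l 16774304) (l 16706816))) (a (c (l 16763408) (l 16694592)) (c (a (l 16768832) (l 16774216)) (a (b (c (l 16716784) (a (l 16680736) (l 16683728))) (l 16700768)) (b (l 16706784) (a (l 16682688) (l 16685608))))))))) (c (b (a (l 16761456) (l 16773712)) (a (l 16772040) (l 16784664))) (b (a (c (l 16709576) (b (l 16672232) (l 16677480))) (b (l 16661040) (l 16687280))) (a (c (l 16699464) (b (l 16662032) (l 14))) (c (l 16733744) (b (l 16696728) (l 16702616))))))), by decide +kernel⟩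

def k78_pm_011 : ∃ t, chk3 f_pm_011 t 115 63 3 = true :=
  ⟨(b (b (c (l 16817376) (a (l 16739184) (l 16769776))) (a (c (l 16794744) (b (l 16731304) (l 16705144))) (l 16729040))) (a (b (a (b (c (c (l 16799672) (l 16766016)) (a (b (a (l 16709432) (l 16712344)) (l 16712400)) (b (l 16718200) (a (l 16715264) (l 16718168))))) (c (l 16785632) (l 16718016))) (b (l 16689240) (c (l 16794016) (a (b (a (l 16721160) (l 16724056)) (l 16724280)) (b (l 16729864) (c (l 16745544) (l 16711976))))))) (c (l 16796704) (b (l 16726976) (l 16732856)))) (a (b (c (l 16808752) (l 16743416)) (b (c (l 16805368) (a (b (c (l 16751480) (l 16718080)) (l 16736408)) (b (l 16741776) (l 16719896)))) (l 16733696))) (b (l 16770296) (b (l 16764576) (c (l 16816928) (a (b (l 16747008) (l 16748784)) (b (l 16753920) (l 16753200))))))))), by decide +kernel⟩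

def k79_pm_011 : ∃ t, chk3 f_pm_011 t 29 31 1 = true :=
  ⟨(b (b (a (c (a (l 16962584) (l 16992840)) (a (b (l 16859272) (l 16816232)) (b (l 16894224) (l 16896600)))) (c (l 17033392) (a (l 16929376) (l 16960256)))) (a (c (b (a (l 16962800) (l 16997824)) (l 16977448)) (b (a (a (l 16843296) (l 16844728)) (b (l 16896984) (c (l 16922344) (l 16871608)))) (a (c (l 16875264) (a (l 16806616) (l 16831760))) (l 16892536)))) (b (c (l 17043728) (b (l 16952368) (a (l 16936152) (l 16971240)))) (c (l 17043144) (l 16951288))))) (a (c (b (l 16951344) (a (l 16903472) (l 16985080))) (a (a (b (c (l 16853816) (l 16773208)) (c (l 16841136) (b (l 16781848) (a (l 16766976) (l 16781456))))) (b (l 16827872) (c (l 16865808) (l 16784680)))) (a (b (l 16872248) (l 16818680)) (b (l 16894424) (l 16884104))))) (c (l 17038600) (b (a (l 16925464) (l 16962952)) (a (l 16916896) (l 16956352)))))), by decide +kernel⟩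

def k80_pm_011 : ∃ t, chk3 f_pm_011 t 15 15 1 = true :=
  ⟨(b (b (a (a (a (b (a (l 16931440) (l 16939320)) (l 16937584)) (b (l 16887872) (l 16975064))) (b (l 1) (l 86470099911))) (l 1)) (a (c (a (b (l 17033176) (l 17056768)) (b (l 17063840) (l 17090088))) (a (b (a (l 16941208) (l 16960784)) (a (l 16966024) (l 16988216))) (b (l 16987432) (l 17017952)))) (a (b (l 1) (l 17084240)) (l 1)))) (b (a (b (a (a (l 17028496) (l 17051592)) (l 17040008)) (a (b (c (l 17093608) (b (l 17014848) (l 17016896))) (l 17055056)) (c (l 17131288) (b (l 17065664) (l 17065824))))) (b (a (l 17115152) (l 1)) (a (l 17131456) (l 17156592)))) (a (a (c (l 17092784) (a (l 16993736) (l 17023824))) (l 17098056)) (a (l 17133120) (l 17158224))))), by decide +kernel⟩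

theorem s81_pm_011 : ∃ t, chk3 f_pm_011 t 57 63 3 = true := ex3_a k77_pm_011 k78_pm_011

theorem s82_pm_011 : ∃ t, chk3 f_pm_011 t 57 63 1 = true := ex3_c k76_pm_011 s81_pm_011

theorem s83_pm_011 : ∃ t, chk3 f_pm_011 t 28 63 1 = true := ex3_a k75_pm_011 s82_pm_011

theorem s84_pm_011 : ∃ t, chk3 f_pm_011 t 56 251 1 = true := ex3_a k72_pm_011 k73_pm_011

theorem s85_pm_011 : ∃ t, chk3 f_pm_011 t 56 125 1 = true := ex3_b k71_pm_011 s84_pm_011

theorem s86_pm_011 : ∃ t, chk3 f_pm_011 t 28 125 1 = true := ex3_a s85_pm_011 k74_pm_011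

theorem s87_pm_011 : ∃ t, chk3 f_pm_011 t 28 124 1 = true := ex3_a k69_pm_011 k70_pm_011

theorem s88_pm_011 : ∃ t, chk3 f_pm_011 t 28 62 1 = true := ex3_b s87_pm_011 s86_pm_011

theorem s89_pm_011 : ∃ t, chk3 f_pm_011 t 28 31 1 = true := ex3_b s88_pm_011 s83_pm_011

theorem s90_pm_011 : ∃ t, chk3 f_pm_011 t 14 31 1 = true := ex3_a s89_pm_011 k79_pm_011

theorem s91_pm_011 : ∃ t, chk3 f_pm_011 t 14 15 1 = true := ex3_b k68_pm_011 s90_pm_011

theorem s92_pm_011 : ∃ t, chk3 f_pm_011 t 7 15 1 = true := ex3_a s91_pm_011 k80_pm_011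

theorem s93_pm_011 : ∃ t, chk3 f_pm_011 t 14 29 1 = true := ex3_c k65_pm_011 k66_pm_011

theorem s94_pm_011 : ∃ t, chk3 f_pm_011 t 7 29 1 = true := ex3_a s93_pm_011 k67_pm_011

theorem s95_pm_011 : ∃ t, chk3 f_pm_011 t 7 14 1 = true := ex3_b k64_pm_011 s94_pm_011

theorem s96_pm_011 : ∃ t, chk3 f_pm_011 t 7 7 1 = true := ex3_b s95_pm_011 s92_pm_011

theorem s97_pm_011 : ∃ t, chk3 f_pm_011 t 27 63 1 = true := ex3_a k62_pm_011 k63_pm_011

theorem s98_pm_011 : ∃ t, chk3 f_pm_011 t 53 63 1 = true := ex3_b k60_pm_011 k61_pm_011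

theorem s99_pm_011 : ∃ t, chk3 f_pm_011 t 26 63 1 = true := ex3_a k59_pm_011 s98_pm_011

theorem s100_pm_011 : ∃ t, chk3 f_pm_011 t 13 63 1 = true := ex3_a s99_pm_011 s97_pm_011

theorem s101_pm_011 : ∃ t, chk3 f_pm_011 t 27 125 1 = true := ex3_a k57_pm_011 k58_pm_011

theorem s102_pm_011 : ∃ t, chk3 f_pm_011 t 27 62 1 = true := ex3_b k56_pm_011 s101_pm_011

theorem s103_pm_011 : ∃ t, chk3 f_pm_011 t 26 125 1 = true := ex3_a k54_pm_011 k55_pm_011

theorem s104_pm_011 : ∃ t, chk3 f_pm_011 t 26 62 1 = true := ex3_b k53_pm_011 s103_pm_011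

theorem s105_pm_011 : ∃ t, chk3 f_pm_011 t 13 62 1 = true := ex3_a s104_pm_011 s102_pm_011

theorem s106_pm_011 : ∃ t, chk3 f_pm_011 t 13 31 1 = true := ex3_b s105_pm_011 s100_pm_011

theorem s107_pm_011 : ∃ t, chk3 f_pm_011 t 55 61 1 = true := ex3_b k51_pm_011 k52_pm_011

theorem s108_pm_011 : ∃ t, chk3 f_pm_011 t 27 61 1 = true := ex3_a k50_pm_011 s107_pm_011

theorem s109_pm_011 : ∃ t, chk3 f_pm_011 t 27 30 1 = true := ex3_b k49_pm_011 s108_pm_011

theorem s110_pm_011 : ∃ t, chk3 f_pm_011 t 26 30 1 = true := ex3_b k47_pm_011 k48_pm_011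

theorem s111_pm_011 : ∃ t, chk3 f_pm_011 t 13 30 1 = true := ex3_a s110_pm_011 s109_pm_011

theorem s112_pm_011 : ∃ t, chk3 f_pm_011 t 13 15 1 = true := ex3_b s111_pm_011 s106_pm_011

theorem s113_pm_011 : ∃ t, chk3 f_pm_011 t 25 127 1 = true := ex3_a k45_pm_011 k46_pm_011

theorem s114_pm_011 : ∃ t, chk3 f_pm_011 t 25 63 1 = true := ex3_b k44_pm_011 s113_pm_011

theorem s115_pm_011 : ∃ t, chk3 f_pm_011 t 24 63 1 = true := ex3_b k42_pm_011 k43_pm_011

theorem s116_pm_011 : ∃ t, chk3 f_pm_011 t 12 63 1 = true := ex3_a s115_pm_011 s114_pm_011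

theorem s117_pm_011 : ∃ t, chk3 f_pm_011 t 12 31 1 = true := ex3_b k41_pm_011 s116_pm_011

theorem s118_pm_011 : ∃ t, chk3 f_pm_011 t 12 30 1 = true := ex3_a k39_pm_011 k40_pm_011

theorem s119_pm_011 : ∃ t, chk3 f_pm_011 t 12 15 1 = true := ex3_b s118_pm_011 s117_pm_011

theorem s120_pm_011 : ∃ t, chk3 f_pm_011 t 6 15 1 = true := ex3_a s119_pm_011 s112_pm_011

theorem s121_pm_011 : ∃ t, chk3 f_pm_011 t 13 59 1 = true := ex3_a k37_pm_011 k38_pm_011

theorem s122_pm_011 : ∃ t, chk3 f_pm_011 t 13 29 1 = true := ex3_b k36_pm_011 s121_pm_011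

theorem s123_pm_011 : ∃ t, chk3 f_pm_011 t 13 14 1 = true := ex3_b k35_pm_011 s122_pm_011

theorem s124_pm_011 : ∃ t, chk3 f_pm_011 t 6 14 1 = true := ex3_a k34_pm_011 s123_pm_011

theorem s125_pm_011 : ∃ t, chk3 f_pm_011 t 6 7 1 = true := ex3_b s124_pm_011 s120_pm_011

theorem s126_pm_011 : ∃ t, chk3 f_pm_011 t 3 7 1 = true := ex3_a s125_pm_011 s96_pm_011

theorem s127_pm_011 : ∃ t, chk3 f_pm_011 t 3 3 1 = true := ex3_b k33_pm_011 s126_pm_011

theorem s128_pm_011 : ∃ t, chk3 f_pm_011 t 3 1 1 = true := ex3_b k32_pm_011 s127_pm_011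

theorem s129_pm_011 : ∃ t, chk3 f_pm_011 t 11 63 1 = true := ex3_a k30_pm_011 k31_pm_011

theorem s130_pm_011 : ∃ t, chk3 f_pm_011 t 11 31 1 = true := ex3_b k29_pm_011 s129_pm_011

theorem s131_pm_011 : ∃ t, chk3 f_pm_011 t 11 15 1 = true := ex3_b k28_pm_011 s130_pm_011

theorem s132_pm_011 : ∃ t, chk3 f_pm_011 t 10 15 1 = true := ex3_b k26_pm_011 k27_pm_011

theorem s133_pm_011 : ∃ t, chk3 f_pm_011 t 5 15 1 = true := ex3_a s132_pm_011 s131_pm_011

theorem s134_pm_011 : ∃ t, chk3 f_pm_011 t 10 29 1 = true := ex3_a k23_pm_011 k24_pm_011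

theorem s135_pm_011 : ∃ t, chk3 f_pm_011 t 10 14 1 = true := ex3_b k22_pm_011 s134_pm_011

theorem s136_pm_011 : ∃ t, chk3 f_pm_011 t 5 14 1 = true := ex3_a s135_pm_011 k25_pm_011

theorem s137_pm_011 : ∃ t, chk3 f_pm_011 t 5 7 1 = true := ex3_b s136_pm_011 s133_pm_011

theorem s138_pm_011 : ∃ t, chk3 f_pm_011 t 5 3 1 = true := ex3_b k21_pm_011 s137_pm_011

theorem s139_pm_011 : ∃ t, chk3 f_pm_011 t 18 62 1 = true := ex3_b k17_pm_011 k18_pm_011

theorem s140_pm_011 : ∃ t, chk3 f_pm_011 t 9 62 1 = true := ex3_a s139_pm_011 k19_pm_011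

theorem s141_pm_011 : ∃ t, chk3 f_pm_011 t 9 31 1 = true := ex3_b s140_pm_011 k20_pm_011

theorem s142_pm_011 : ∃ t, chk3 f_pm_011 t 19 30 1 = true := ex3_b k15_pm_011 k16_pm_011

theorem s143_pm_011 : ∃ t, chk3 f_pm_011 t 36 61 1 = true := ex3_b k12_pm_011 k13_pm_011

theorem s144_pm_011 : ∃ t, chk3 f_pm_011 t 18 61 1 = true := ex3_a s143_pm_011 k14_pm_011

theorem s145_pm_011 : ∃ t, chk3 f_pm_011 t 18 30 1 = true := ex3_b k11_pm_011 s144_pm_011

theorem s146_pm_011 : ∃ t, chk3 f_pm_011 t 9 30 1 = true := ex3_a s145_pm_011 s142_pm_011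

theorem s147_pm_011 : ∃ t, chk3 f_pm_011 t 9 15 1 = true := ex3_b s146_pm_011 s141_pm_011

theorem s148_pm_011 : ∃ t, chk3 f_pm_011 t 35 124 1 = true := ex3_a k7_pm_011 k8_pm_011

theorem s149_pm_011 : ∃ t, chk3 f_pm_011 t 35 62 1 = true := ex3_b s148_pm_011 k9_pm_011

theorem s150_pm_011 : ∃ t, chk3 f_pm_011 t 34 62 1 = true := ex3_b k5_pm_011 k6_pm_011

theorem s151_pm_011 : ∃ t, chk3 f_pm_011 t 17 62 1 = true := ex3_a s150_pm_011 s149_pm_011

theorem s152_pm_011 : ∃ t, chk3 f_pm_011 t 17 31 1 = true := ex3_b s151_pm_011 k10_pm_011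

theorem s153_pm_011 : ∃ t, chk3 f_pm_011 t 8 31 1 = true := ex3_a k4_pm_011 s152_pm_011

theorem s154_pm_011 : ∃ t, chk3 f_pm_011 t 8 15 1 = true := ex3_b k3_pm_011 s153_pm_011

theorem s155_pm_011 : ∃ t, chk3 f_pm_011 t 4 15 1 = true := ex3_a s154_pm_011 s147_pm_011

theorem s156_pm_011 : ∃ t, chk3 f_pm_011 t 4 7 1 = true := ex3_b k2_pm_011 s155_pm_011

theorem s157_pm_011 : ∃ t, chk3 f_pm_011 t 4 3 1 = true := ex3_b k1_pm_011 s156_pm_011

theorem s158_pm_011 : ∃ t, chk3 f_pm_011 t 2 3 1 = true := ex3_a s157_pm_011 s138_pm_011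

theorem s159_pm_011 : ∃ t, chk3 f_pm_011 t 2 1 1 = true := ex3_b k0_pm_011 s158_pm_011

theorem s160_pm_011 : ∃ t, chk3 f_pm_011 t 1 1 1 = true := ex3_a s159_pm_011 s128_pm_011

theorem c_pm_011 : CertN 0 536870912 536870912 536870912 335544320 67108864 3 false true false .pnn 0 1 1
    ndN0q0 ndN0q1 pcN1 cut_pm_011 Ext.none :=
  certN0 (fam := false) (s1 := true) (s2 := false) (a := 0) (b := 1) (c := 1) (cn := .pnn) (n1 := ndN0q0) (n2 := ndN0q1) (pc := pcN1) (cut := cut_pm_011) (xt := Ext.none) (P1 := 0) (W1 := 536870912) (P2 := 536870912) (W2 := 536870912) (P3 := 335544320) (W3 := 67108864) (N0 := 3)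
    rfl s160_pm_011

end Pool.Agent.Strip051.G.I5_16_3_8.Tab.C.NB00

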