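import Pool.Agent.Strip051.G.I5_16_3_8.Tab

/-! # Certificates N6 (generated) -/

set_option linter.all false
set_option maxRecDepth 100000

namespace Pool.Agent.Strip051.G.I5_16_3_8.Tab.C.NB00

open Pool.Agent.Strip051.PB Pool.Agent.Strip051.PB.T
open Pool.Agent.Strip051.G.I5_16_3_8.Tab

noncomputable def cut_pm_012 : Cut := Cut.of [[⟨0, 0, 0, 67108864⟩, ⟨1, 1, 0, 67108864⟩, ⟨2, 1, 0, 67108864⟩], [⟨0, 0, 1, 33554432⟩, ⟨1, 1, 2, 33554432⟩, ⟨2, 1, 0, 33554432⟩]]

noncomputable def f_pm_012 : ℕ → ℕ → ℕ → ℕ → Bool := onCell 536870912 536870912 0 536870912 335544320 67108864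
    (rowN 3 2 false true false .pnp 0 1 2 (qsf 0 536870912 0 536870912 1) ndN0q0 ndN0q2 pcN1 cut_pm_012 Ext.none)

def k0_pm_012 : ∃ t, chk3 f_pm_012 t 4 2 1 = true :=
  ⟨(b (l 2) (a (l 2) (b (l 2) (l 129487146087)))), by decide +kernel⟩

def k1_pm_012 : ∃ t, chk3 f_pm_012 t 4 6 1 = true :=
  ⟨(a (l 2) (a (b (l 2) (a (l 17233928) (l 17254032))) (a (b (b (l 17122232) (l 17163464)) (l 17257296)) (b (b (l 17142000) (l 17185416)) (l 17261848))))), by decide +kernel⟩

def k2_pm_012 : ∃ t, chk3 f_pm_012 t 8 7 1 = true :=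
  ⟨(b (a (l 2) (b (l 17183024) (l 17159440))) (a (b (l 17164448) (a (l 17163872) (l 17144576))) (b (a (l 17143888) (l 17119888)) (a (b (l 17123984) (l 17107456)) (b (l 17088616) (c (l 17104728) (l 17021960))))))), by decide +kernel⟩

def k3_pm_012 : ∃ t, chk3 f_pm_012 t 9 7 1 = true :=
  ⟨(b (b (a (l 17168080) (l 17145456)) (a (a (l 17133280) (l 17103408)) (a (l 17078616) (l 17063488)))) (a (b (a (b (l 17098200) (l 17071368)) (b (l 17055624) (l 16956272))) (a (b (c (l 17084224) (l 16996904)) (c (l 17053528) (b (l 16967064) (a (l 16964232) (l 16925480))))) (b (c (l 17028824) (a (l 16945568) (l 16905632))) (c (a (l 17004936) (l 16904056)) (b (a (l 16908544) (l 16863280)) (a (c (l 16909952) (l 16853504)) (c (l 16863136) (b (l 16810152) (a (l 16807280) (l 16779400)))))))))) (b (b (a (l 17020352) (l 16998008)) (a (c (l 17026800) (l 16924992)) (a (l 16934808) (l 16792048)))) (b (a (c (l 16982136) (a (l 16876328) (b (l 16875072) (l 16843456)))) (b (a (l 16872184) (l 16830080)) (c (l 16933216)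 (l 16704168)))) (a (c (a (b (l 16951760) (l 16923104)) (b (l 16933776) (l 16902248))) (b (a (c (l 16860416) (l 16799016)) (c (l 16840008) (l 16755984))) (a (b (a (l 16809504) (l 16798448)) (c (l 16818088) (a (l 16737816) (l 16725240)))) (c (b (l 16812800) (l 16793840)) (b (l 16726216) (a (c (l 16749936) (l 16716392)) (c (l 16736744) (l 14)))))))) (a (c (b (l 16912832) (c (l 16913360) (l 16845952))) (a (b (l 16769192) (c (l 16742608) (b (l 16727200) (c (l 16723152) (l 14))))) (b (l 16714488) (c (b (l 16781368) (l 16761392)) (b (l 16713360) (l 14)))))) (c (b (l 16890392) (c (l 16890304) (b (l 16830288) (l 16811416)))) (b (c (l 16790888) (l 16661040)) (c (b (l 16740312) (a (c (l 16765304) (l 16730080)) (c (l 16751448) (l 14)))) (l 14)))))))))), by decide +kernel⟩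

def k4_pm_012 : ∃ t, chk3 f_pm_012 t 5 2 1 = true :=
  ⟨(b (a (b (a (l 16800200) (l 16935216)) (a (l 16959968) (l 17017896))) (b (a (l 16982584) (l 16985288)) (a (l 17060184) (l 17055120)))) (a (a (l 17016848) (l 17093240)) (b (a (l 17153648) (l 17137888)) (a (l 17243552) (a (a (l 17246272) (l 17236496)) (l 17216912)))))), by decide +kernel⟩

def k5_pm_012 : ∃ t, chk3 f_pm_012 t 10 6 1 = true :=
  ⟨(a (b (b (l 17173936) (l 17230344)) (l 17049648)) (b (b (l 17184656) (l 17324960)) (b (l 17281416) (l 17172776)))), by decide +kernel⟩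

def k6_pm_012 : ∃ t, chk3 f_pm_012 t 10 14 1 = true :=
  ⟨(a (b (l 17100336) (a (l 17000648) (l 16969480))) (b (a (l 17082280) (l 17039240)) (a (l 16842408) (b (l 16947320) (l 16881872))))), by decide +kernel⟩

def k7_pm_012 : ∃ t, chk3 f_pm_012 t 10 30 1 = true :=
  ⟨(a (b (a (l 16861976) (l 16860976)) (a (c (l 16964912) (l 16786456)) (c (l 16920440) (l 16754016)))) (b (a (l 16788472) (c (l 16877112) (l 16797280))) (a (c (l 16784264) (b (l 16771448) (l 16740376))) (c (l 16785864) (a (l 16743728) (l 16715152)))))), by decide +kernel⟩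

def k8_pm_012 : ∃ t, chk3 f_pm_012 t 20 31 1 = true :=
  ⟨(b (c (a (b (l 16920424) (l 16825320)) (b (l 16871544) (l 16710480))) (a (b (l 16731872) (c (l 16705256) (l 14))) (b (l 16715976) (a (l 14) (l 16666824))))) (c (a (b (a (l 16866368) (c (l 16875664) (l 16805528))) (c (a (l 16865696) (b (l 16848744) (l 16829928))) (a (b (l 16804056) (a (l 16791288) (l 16777344))) (b (l 16755112) (a (c (l 16781448) (l 16744408)) (c (l 16766872) (l 14))))))) (a (b (c (l 16849264) (l 16755936)) (c (b (l 16821128) (a (l 16808776) (l 16794104))) (c (b (l 16765024) (a (l 16751832) (l 14))) (l 14)))) (b (c (l 16820984) (l 16662416)) (c (b (l 16791632) (a (l 16737000) (c (l 16783064) (l 14)))) (l 14))))) (c (a (a (b (l 16721856) (c (b (l 16750816) (a (l 16737160) (l 14))) (l 14))) (b (l 16671968) (l 14))) (l 14)) (a (l 14) (a (l 14) (a (l 14) (a (l 14) (b (l 16648088) (b (l 16626384) (c (l 14) (b (l 16612632) (c (l 14) (l 16604224))))))))))))), by decide +kernel⟩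

def k9_pm_012 : ∃ t, chk3 f_pm_012 t 21 62 1 = true :=
  ⟨(a (c (b (l 16730872) (a (l 16750288) (l 16697200))) (b (a (l 16713128) (l 16706896)) (a (l 16651224) (c (l 16685592) (l 16670336))))) (c (b (l 16727888) (a (l 14) (l 16698600))) (b (a (l 16701088) (l 16695680)) (a (c (l 16681096) (l 16666224)) (c (l 16676992) (l 16662496)))))), by decide +kernel⟩

def k10_pm_012 : ∃ t, chk3 f_pm_012 t 42 63 1 = true :=
  ⟨(b (c (c (a (l 16769720) (l 16674368)) (l 14)) (a (c (l 14) (b (l 16653120) (l 16617984))) (c (b (l 16663856) (l 16649688)) (b (l 16649752) (l 16625872))))) (c (a (c (c (b (l 16779944) (a (l 16767200) (l 14))) (l 14)) (l 14)) (l 14)) (b (a (c (l 14) (a (l 16615088) (l 16624568))) (c (a (l 14) (l 16635296)) (a (l 16623656) (l 16622832)))) (a (c (l 14) (a (c (l 14) (b (l 16612064) (a (l 16605456) (l 16605200)))) (c (b (l 16617512) (c (l 14) (a (l 14) (l 16609168)))) (b (l 16611392) (a (l 16604960) (l 16604744)))))) (c (a (l 14) (c (l 14) (b (l 16622208) (c (l 14) (a (l 14)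 (l 16614120)))))) (b (a (c (l 16616848) (l 16610808)) (l 16613296)) (a (a (c (l 16610408) (l 16604544)) (c (l 16610192) (l 16604376))) (c (a (l 16610000) (l 16609832)) (l 16604152))))))))), by decide +kernel⟩

def k11_pm_012 : ∃ t, chk3 f_pm_012 t 43 63 1 = true :=
  ⟨(c (c (l 14) (c (l 14) (a (l 14) (a (l 14) (b (l 16660280) (b (l 16641016) (b (l 16631608) (c (l 14) (a (l 14) (l 16624032)))))))))) (b (a (c (b (l 16660512) (l 16647112)) (b (l 16646776) (l 16623648))) (c (b (l 16657544) (l 16644896)) (b (l 16644160) (l 16621784)))) (a (c (b (a (l 16634392) (l 16633576)) (a (c (l 14) (a (c (l 14) (l 16611880)) (b (l 16621512) (l 16615192)))) (c (b (l 16626912) (c (l 14) (a (l 14) (l 16619080)))) (b (l 16621152) (a (l 16615048) (l 16614920)))))) (b (a (l 16622096) (l 16621456)) (b (a (l 16612848) (l 16612488)) (a (c (c (l 16611024) (l 16608192)) (l 16603936)) (c (l 16609400) (l 16603800)))))) (c (b (a (l 16632856) (l 16632208)) (b (a (l 16626208) (l 16623232)) (c (a (a (a (l 16620352)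 (l 16620288)) (l 16620192)) (a (l 16620088) (l 16620000))) (a (c (l 16616136) (l 16613392)) (l 16614632))))) (b (a (l 16620896) (l 16620424)) (a (c (b (l 16615056) (l 16609264)) (l 16606552)) (c (l 16612016) (l 16606488)))))))), by decide +kernel⟩

def k12_pm_012 : ∃ t, chk3 f_pm_012 t 11 6 1 = true :=
  ⟨(b (a (b (b (l 17281992) (l 17329176)) (l 17278216)) (b (l 17250912) (l 17180216))) (a (b (l 17191664) (l 17068472)) (b (l 17095960) (a (l 17024936) (l 16983456))))), by decide +kernel⟩

def k13_pm_012 : ∃ t, chk3 f_pm_012 t 11 14 1 = true :=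
  ⟨(a (b (a (l 16998320) (l 16961968)) (a (b (l 16911240) (l 16832776)) (b (l 16881768) (c (l 16850880) (l 16807720))))) (b (a (l 16863824) (c (l 16917272) (l 16867792))) (b (a (l 16853232) (l 16804584)) (a (c (l 16826128) (l 16785192)) (c (l 16801968) (l 16763392)))))), by decide +kernel⟩

def k14_pm_012 : ∃ t, chk3 f_pm_012 t 22 30 1 = true :=
  ⟨(b (a (c (l 16817400) (l 16756328)) (c (l 16797400) (a (l 16763520) (l 16754912)))) (c (a (b (l 16774192) (l 16746176)) (b (l 16758440) (l 16712328))) (a (b (l 16738120) (a (l 16715952) (l 16709904))) (a (b (l 16727448) (l 16704264)) (b (l 16720856) (l 16678072)))))), by decide +kernel⟩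

def k15_pm_012 : ∃ t, chk3 f_pm_012 t 22 62 1 = true :=
  ⟨(a (c (b (a (l 16721632) (l 16716216)) (a (l 16673336) (c (l 16697184) (l 16683568)))) (a (b (l 16669704) (c (l 16673264) (l 16638176))) (b (c (l 16693624) (l 16678480)) (c (l 16669896) (b (l 16661632) (l 16650704)))))) (c (b (a (l 16711176) (l 16706536)) (a (c (l 16693432) (l 16680184)) (c (l 16690064) (l 16677184)))) (a (b (c (l 16689184) (l 16674456)) (c (l 16645920) (a (l 16654176) (l 16652952)))) (b (c (l 16685152) (l 16670824)) (c (b (l 16669376) (l 16659152)) (a (l 16651808) (l 16650760))))))), by decide +kernel⟩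

def k16_pm_012 : ∃ t, chk3 f_pm_012 t 44 63 1 = true :=
  ⟨(c (b (a (c (l 14) (b (l 16667888) (l 16655256))) (c (b (l 16677816) (l 16665216)) (b (l 16665264) (l 16653376)))) (b (a (c (l 14) (a (l 16643216) (l 16642576))) (c (a (l 14) (l 16652560)) (a (l 16642016) (l 16641528)))) (a (c (l 14) (a (c (l 14) (b (l 16631208) (a (a (l 16625296) (l 16625248)) (l 16625184)))) (c (b (l 16636304) (c (l 14) (a (l 14) (l 16628984)))) (b (l 16630888) (a (l 16625120) (l 16625072)))))) (a (c (l 14) (c (b (l 16635984) (b (l 16631624) (a (l 16628760) (l 16628736)))) (b (l 16630648) (c (l 16626320) (l 16623744))))) (c (c (l 14) (b (l 16640984) (c (l 14) (a (l 14) (l 16633912))))) (b (l 16633112) (c (a (l 16630136) (l 16630128)) (l 16625056)))))))) (b (a (c (b (l 16654928) (l 16632544)) (b (l 16641912) (l 16620264))) (c (b (l 16652664) (l 16631016)) (b (l 16640008) (l 16629568)))) (a (c (b (a (l 16631648) (l 16631168)) (a (b (l 16622952) (c (c (l 16621240) (l 16618576)) (l 16614576))) (c (b (l 16625464)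 (l 16619856)) (l 16617320)))) (b (a (l 16620032) (l 16619720)) (a (c (l 16611952) (l 16606504)) (l 16609280)))) (c (b (a (l 16630776) (l 16630456)) (a (c (b (l 16625304) (l 16619872)) (l 16617328)) (c (l 16622592) (l 16617408)))) (a (b (l 16619488) (l 16609408)) (b (l 16619336) (l 16609608))))))), by decide +kernel⟩

def k17_pm_012 : ∃ t, chk3 f_pm_012 t 45 63 1 = true :=
  ⟨(c (b (a (c (b (l 16675176) (l 16663328)) (b (l 16662984) (l 16651832))) (c (b (l 16672912) (l 16661792)) (b (l 16661064) (l 16640144)))) (b (a (c (a (l 16651992) (l 16651504)) (a (l 16641120) (l 16640792))) (c (a (l 16651088) (l 16650752)) (a (l 16640536) (l 16640368)))) (a (c (a (c (l 14) (b (l 16640736) (b (l 16636520) (a (l 16633736) (l 16633744))))) (c (b (l 16645640) (c (l 14) (a (l 14) (l 16638816)))) (b (l 16640560) (a (l 16635136) (l 16635160))))) (a (b (l 16632984) (c (c (l 16631392) (l 16628896)) (l 16625144))) (c (b (l 16635472) (l 16630224)) (l 16625216)))) (c (a (c (b (l 16645464) (b (l 16641392)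 (a (l 16640000) (l 16638728)))) (b (l 16640456) (c (l 16636424) (l 16634016)))) (a (c (b (l 16645376) (l 16640104)) (l 16637880)) (c (b (l 16645344) (l 16640160)) (l 16637928)))) (a (c (b (l 16635448) (l 16630384)) (l 16627984)) (c (b (l 16635504) (l 16630624)) (l 16628208))))))) (b (a (c (b (l 16650736) (l 16629808)) (a (l 16633848) (l 16633328))) (c (a (l 16634072) (l 16644024)) (a (l 16632880) (l 16632520)))) (a (c (b (a (l 16630216) (l 16630048)) (a (c (l 16622672) (l 16617568)) (c (l 16622824) (l 16617792)))) (a (b (l 16619256) (l 16609888)) (b (l 16619256) (l 16610232)))) (c (a (b (l 16629952) (l 16620568)) (b (l 16629944) (l 16620912))) (a (c (l 16617552) (l 16612408)) (l 16620552)))))), by decide +kernel⟩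

def k18_pm_012 : ∃ t, chk3 f_pm_012 t 23 30 1 = true :=
  ⟨(b (a (c (l 16777872) (a (l 16746224) (l 16737432))) (c (l 16737752) (b (l 16734128) (l 16715416)))) (a (c (a (l 16714520) (l 16707296)) (a (b (l 16714136) (l 16672680)) (b (l 16707248) (l 16688056)))) (c (b (l 16727984) (a (l 16711080) (l 16706360))) (b (a (l 16700576) (l 16694456)) (a (l 16661728) (c (l 16685728) (l 16671928))))))), by decide +kernel⟩

def k19_pm_012 : ∃ t, chk3 f_pm_012 t 23 62 1 = true :=
  ⟨(a (c (a (b (l 16701640) (c (l 16686368) (l 16673888))) (b (l 16696440) (c (l 16682536) (l 16649488)))) (a (b (c (l 16680880) (l 16666984)) (c (l 16650880) (a (l 16649528) (l 16648096)))) (a (b (l 16670688) (l 16642336)) (b (l 16668576) (a (l 16651744) (l 16640784)))))) (c (b (a (c (l 16698536) (l 16685600)) (c (l 16696408) (l 16683784))) (b (a (l 16657872) (l 16668080)) (c (a (l 16676552) (l 16676736)) (a (l 16665088) (l 16665520))))) (a (b (c (l 16672632) (l 16649136)) (c (b (l 16660752) (l 16653592)) (b (l 16648648)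 (l 16642064)))) (b (c (l 16671136) (l 16658448)) (c (b (l 16660864) (l 16654280)) (b (l 16649024) (l 16643008))))))), by decide +kernel⟩

def k20_pm_012 : ∃ t, chk3 f_pm_012 t 46 63 1 = true :=
  ⟨(b (c (a (c (b (l 16670288) (l 16649448)) (a (l 16654544) (l 16653416))) (c (b (l 16668056) (a (l 16658824) (l 16659512))) (b (l 16656936) (l 16647392)))) (a (c (a (l 16643272) (l 16642328)) (a (l 16631952) (l 16631208))) (c (b (l 16645784) (l 16638168)) (b (l 16634600) (l 16627600))))) (c (a (c (b (a (l 16650176) (l 16649640)) (a (c (b (l 16645024) (a (l 16640072) (l 16640000))) (b (l 16640176) (a (l 16635384) (l 16635352)))) (c (b (l 16645224) (c (l 16642144) (l 16639832))) (b (l 16640448) (l 16636368))))) (b (a (l 16639960) (l 16639592)) (a (c (b (l 16635328) (l 16630704)) (l 16628272)) (b (l 16633272) (l 16629416))))) (a (c (b (l 16650320) (b (l 16644280) (b (l 16641312) (c (l 16641624) (l 16637072))))) (b (l 16640376) (c (l 16635304) (l 16630624)))) (c (b (l 16651528) (b (l 16645672)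 (b (l 16648032) (c (l 16643152) (l 16638640))))) (b (l 16641664) (c (l 16636816) (l 16632184)))))) (a (c (b (a (l 16629704) (l 16629512)) (a (l 16621096) (l 16621920))) (a (b (l 16619424) (l 16611496)) (b (l 16619400) (l 16612448)))) (b (c (l 16631120) (l 16621152)) (c (a (l 16623600) (l 16625216)) (l 16615072)))))), by decide +kernel⟩

def k21_pm_012 : ∃ t, chk3 f_pm_012 t 47 63 1 = true :=
  ⟨(b (c (a (c (b (l 16668528) (l 16655464)) (b (l 16657640) (l 16650408))) (c (b (l 16669208) (c (l 16664392) (l 16659368))) (b (l 16658568) (c (l 16654336) (l 16649304))))) (a (c (b (l 16646728) (l 16640080)) (b (l 16635784) (l 16629720))) (c (b (l 16647896) (l 16641736)) (b (l 16637208) (l 16631632))))) (c (b (c (a (a (l 16652600) (a (l 16653320) (l 16653760))) (c (a (l 16656760) (l 16657448)) (a (l 16651992) (l 16652744)))) (a (c (l 16645816) (l 16640952)) (c (l 16648968) (l 16642912)))) (c (b (a (c (a (l 16649256) (l 16650360)) (l 16645208)) (c (a (l 16651352) (l 16652224)) (a (l 16646808)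 (l 16647744)))) (a (c (a (a (l 16645144) (l 16645792)) (a (l 16646408) (l 16646992))) (a (l 16640976) (l 16642256))) (c (a (a (l 16647544) (l 16648072)) (a (l 16648568) (l 16649040))) (a (l 16643424) (l 16644488))))) (b (a (c (l 16640576) (l 16635936)) (c (l 16642784) (l 16638264))) (a (c (a (l 16636464) (l 16637800)) (l 16632672)) (c (a (l 16639032) (l 16640152)) (l 16635240)))))) (a (b (c (l 16633648) (l 16623888)) (c (a (l 16626728) (l 16628136)) (l 16618296))) (b (c (l 16641040) (l 16626280)) (c (a (l 16629448) (l 16630672)) (l 16621168)))))), by decide +kernel⟩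

def k22_pm_012 : ∃ t, chk3 f_pm_012 t 3 2 1 = true :=
  ⟨(a (b (a (b (a (l 16969208) (l 16938008)) (l 17013600)) (b (a (l 16898392) (l 16851424)) (a (l 16948688) (l 16896312)))) (a (b (a (l 17103784) (l 17059904)) (a (b (l 17164120) (b (l 17193432) (l 17195784))) (b (l 17112056) (a (l 17136768) (l 17090216))))) (b (a (l 17008544) (b (l 16936224) (l 16963936))) (a (b (b (l 17047192) (l 17049536)) (l 17014800)) (b (a (l 16987656) (l 16943344)) (l 16898648)))))) (a (b (a (b (l 16801288) (l 16841712)) (b (l 16746280) (l 16780392))) (b (a (b (l 16878528) (a (l 16915616) (l 16877480))) (b (l 16810424) (a (l 16834048) (l 16785512)))) (a (b (l 16871696) (a (l 16853552) (l 16810928))) (b (a (l 16801464) (l 16756032)) (a (l 16769496) (l 16729648)))))) (b (a (b (l 16680920) (b (l 16700824) (l 16718560))) (b (a (l 16626840) (l 16589184)) (a (l 16651424) (b (l 16604952) (l 16616856))))) (a (b (b (a (l 16751656) (l 16707288)) (a (l 16736176) (l 16688928))) (a (b (l 16712360) (l 16691776)) (b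 (l 16670736) (l 16656016)))) (b (a (b (l 16659792) (l 16643880)) (l 16627520)) (a (b (l 16631400) (l 16622536)) (b (l 16594552) (l 16591456)))))))), by decide +kernel⟩

def k23_pm_012 : ∃ t, chk3 f_pm_012 t 6 6 1 = true :=
  ⟨(a (b (a (b (l 17153024) (l 17082624)) (b (l 17054120) (l 16946104))) (a (b (l 16962952) (a (l 16943360) (l 16904760))) (b (a (l 16939616) (l 16898880)) (a (l 16805152) (b (l 16850472) (l 16820456)))))) (b (a (b (a (l 16981320) (l 16935512)) (a (l 16921592) (l 16882232))) (b (a (l 16893560) (l 16852680)) (a (l 16845720) (l 16809456)))) (a (b (a (l 16863120) (l 16810048)) (a (b (l 16821736) (l 16795568)) (b (l 16794024) (l 16749920)))) (b (a (b (l 16810616) (l 16788168)) (b (l 16778288) (l 16758632))) (a (b (l 16766776) (c (l 16764296) (l 16729048))) (b (l 16740208) (c (l 16739392) (l 16707200)))))))), by decide +kernel⟩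

def k24_pm_012 : ∃ t, chk3 f_pm_012 t 12 14 1 = true :=
  ⟨(a (b (a (c (l 16883080) (l 16836440)) (b (l 16846984) (l 16768200))) (b (a (c (l 16819328) (l 16778896)) (c (l 16794680) (l 16735808))) (a (c (l 16779352) (b (l 16751656) (l 16734424))) (c (l 16740368) (b (l 16734184) (l 16720544)))))) (b (a (b (l 16816832) (c (l 16805344) (l 16766112))) (b (l 16771472) (c (l 16784152) (l 16747200)))) (b (a (c (l 16775136) (b (l 16745848) (l 16732920))) (c (l 16757272) (a (l 16727280) (l 16720232)))) (a (c (b (l 16753456) (l 16739656)) (b (l 16720488) (a (l 16711568) (l 16705512)))) (c (b (l 16738208) (l 16705216)) (a (b (l 16710280) (l 16699664)) (b (l 16704544) (l 16694824)))))))), by decide +kernel⟩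

def k25_pm_012 : ∃ t, chk3 f_pm_012 t 24 30 1 = true :=
  ⟨(b (a (c (b (l 16751128) (l 16733840)) (b (a (l 16721272) (l 16714776)) (a (l 16705136) (l 16700872)))) (c (b (l 16738560) (a (l 16726472) (l 16721480))) (b (a (l 16709896) (l 16704896)) (a (l 16696928) (l 16671856))))) (a (c (b (a (l 16719400) (l 16715904)) (a (l 16703792) (c (l 16707728) (l 16694664)))) (b (a (l 16669424) (c (l 16694696) (l 16680520))) (a (c (l 16683648) (l 16670176)) (c (l 16681576) (l 16668464))))) (c (b (a (l 16712080) (l 16687032)) (a (c (l 16704640) (l 16691968)) (c (l 16701288) (l 16689048)))) (b (a (c (l 16691472) (l 16677704)) (c (l 16688064) (l 16674736))) (a (c (l 16679280) (b (l 16669256) (l 16663864))) (c (b (l 16679520) (l 16674056)) (b (l 16666976) (l 16662040)))))))), by decide +kernel⟩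

def k26_pm_012 : ∃ t, chk3 f_pm_012 t 25 30 1 = true :=
  ⟨(b (a (c (b (a (l 16729456) (l 16723216)) (a (l 16716296) (l 16710960))) (b (a (l 16699792) (l 16694608)) (a (c (l 16695544) (l 16681680)) (c (l 16690984) (l 16677640))))) (c (b (a (l 16717160) (l 16712192)) (a (c (l 16712184) (l 16699416)) (l 16680800))) (b (a (c (l 16696520) (l 16682736)) (l 16664712)) (a (c (l 16686632) (l 16673816)) (c (l 16683344) (l 16671024)))))) (a (c (b (a (c (l 16710144) (l 16697336)) (c (l 16705464) (l 16693168))) (a (c (l 16697712) (b (l 16688704) (l 16683176))) (c (b (l 16696744) (l 16691168)) (b (l 16685216) (l 16680152))))) (b (a (c (l 16684504) (l 16661168)) (c (l 16680848) (b (l 16670696) (l 16666304)))) (a (c (b (l 16676648) (l 16671648)) (b (l 16664576) (l 16660096))) (c (b (l 16673664) (l 16669120)) (b (l 16662088) (l 16658064)))))) (c (b (a (c (l 16700960) (a (l 16689968) (l 16688368))) (c (l 16697608) (l 16686328))) (a (c (b (l 16692944) (l 16687824)) (a (l 16680184) (l 16679048)))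 (c (b (l 16690320) (l 16685696)) (b (l 16679784) (l 16675664))))) (a (b (c (a (l 16678056) (l 16676696)) (a (l 16666112) (l 16665000))) (c (a (l 16669280) (l 16668384)) (a (l 16658352) (l 16657688)))) (b (c (l 16675008) (l 16663664)) (c (b (l 16669208) (l 16665592)) (a (l 16657256) (l 16656832)))))))), by decide +kernel⟩

def k27_pm_012 : ∃ t, chk3 f_pm_012 t 24 62 1 = true :=
  ⟨(a (c (b (a (c (l 16694960) (l 16682640)) (c (l 16693144) (b (l 16684448) (l 16677872)))) (a (c (b (l 16683736) (l 16676496)) (b (l 16672248) (l 16665576))) (c (b (l 16682640) (l 16675888)) (b (l 16671496) (l 16665304))))) (b (a (c (l 16659800) (b (l 16660880) (l 16654944))) (c (b (l 16672168) (l 16666152)) (b (l 16659872) (l 16654400)))) (a (c (b (l 16660736) (l 16654632)) (b (l 16649200) (l 16643664))) (c (b (l 16660320) (l 16654696)) (b (l 16649128) (l 16644064)))))) (c (b (a (c (b (l 16694320) (l 16687680)) (b (l 16682456) (l 16676360))) (c (b (l 16691680) (l 16685512)) (b (l 16680240) (l 16674616))))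 (a (c (b (l 16681224) (c (l 16677504) (l 16672408))) (b (l 16670456) (c (l 16667296) (l 16662192)))) (c (b (c (l 16682120) (l 16676952)) (c (l 16670952) (l 16671296))) (b (l 16663936) (c (l 16666400) (l 16661488)))))) (b (a (c (b (l 16670576) (l 16665024)) (b (l 16658664) (l 16653664))) (c (b (l 16668784) (l 16663696)) (b (l 16657304) (l 16652752)))) (a (c (b (l 16659664) (l 16654512)) (b (l 16648856) (l 16644256))) (c (b (l 16658808) (l 16654120)) (b (l 16648408) (l 16644272))))))), by decide +kernel⟩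

def k28_pm_012 : ∃ t, chk3 f_pm_012 t 48 63 1 = true :=
  ⟨(c (b (a (a (c (b (l 16669424) (l 16662464)) (b (l 16658992) (l 16652616))) (c (b (l 16669448) (l 16662736)) (b (l 16659176) (l 16653040)))) (a (c (b (l 16669392) (l 16665536)) (b (l 16659280) (l 16653384))) (c (b (l 16669240) (c (l 16665344) (l 16660672))) (b (l 16659312) (l 16653656))))) (b (b (c (a (c (l 16659952) (l 16655288)) (a (l 16658192) (l 16663712))) (a (l 16648280) (l 16649336))) (c (a (c (a (l 16656328) (l 16656864)) (l 16652096)) (c (a (l 16657312) (l 16657664)) (l 16653152))) (a (l 16645312) (l 16651856)))) (c (a (c (a (b (l 16652984) (a (l 16649480) (l 16649904))) (b (l 16653648) (a (l 16650296) (l 16650664)))) (a (b (l 16648576) (l 16645440)) (b (l 16649312) (l 16646304)))) (c (a (b (l 16654216) (c (l 16652200) (l 16650152))) (b (l 16654696) (c (l 16652784) (l 16650768)))) (a (b (l 16649960) (l 16647072)) (b (l 16650528) (l 16647760))))) (a (b (c (l 16644592) (l 16640216)) (c (a (l 16641176) (l 16642112))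 (l 16637432))) (c (a (l 16644336) (l 16645048)) (a (l 16640152) (l 16640944))))))) (b (a (c (b (l 16648736) (l 16643056)) (b (l 16638336) (l 16633240))) (c (b (l 16649272) (l 16644072)) (b (l 16639216) (l 16634584)))) (a (a (c (b (l 16637160) (l 16631816)) (l 16625472)) (c (b (l 16637984) (l 16632872)) (l 16626568))) (b (c (l 16644336) (l 16630184)) (c (a (l 16633864) (l 16634784)) (l 16626016)))))), by decide +kernel⟩

def k29_pm_012 : ∃ t, chk3 f_pm_012 t 49 63 1 = true :=
  ⟨(b (c (a (c (a (b (l 16669016) (c (l 16665320) (l 16660736))) (b (l 16668720) (c (l 16665216) (l 16660728)))) (b (c (l 16661648) (l 16656824)) (c (l 16656208) (l 16651664)))) (c (a (b (l 16668352) (c (l 16665040) (l 16660648))) (b (c (l 16670200) (l 16665640)) (c (l 16664800) (l 16660512)))) (b (c (l 16661224) (l 16656592)) (c (l 16661504) (l 16651912))))) (a (c (b (l 16649568) (l 16655320)) (b (l 16639872) (l 16635712))) (c (b (l 16660128) (l 16655872)) (b (l 16640352) (l 16636656))))) (c (a (a (c (b (c (c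 (l 16660472) (l 16658320)) (l 16655104)) (c (b (l 16655088) (l 16652296)) (b (l 16651016) (l 16648360)))) (b (l 16648648) (c (l 16645680) (l 16641664)))) (c (b (c (c (l 16660584) (l 16658488)) (l 16655336)) (c (b (l 16655408) (l 16652736)) (l 16650160))) (b (l 16649024) (l 16646904)))) (a (c (b (c (l 16659600) (l 16655496)) (c (c (l 16655336) (l 16653432)) (l 16650568))) (b (l 16649336) (l 16644840))) (c (c (b (l 16659600) (l 16659872)) (b (l 16655600) (l 16650912))) (b (l 16649592) (l 16645336))))) (a (c (b (l 16640328) (c (l 16638040) (l 16634064))) (b (l 16631776) (l 16628080))) (c (b (l 16641344) (l 16637544)) (b (l 16633184) (l 16629952)))))), by decide +kernel⟩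

def k30_pm_012 : ∃ t, chk3 f_pm_012 t 25 62 1 = true :=
  ⟨(a (c (b (a (c (b (l 16688816) (l 16683120)) (b (l 16677832) (l 16672680))) (c (b (l 16685760) (l 16675296)) (b (l 16675272) (l 16670584)))) (a (a (c (b (l 16678104) (l 16672672)) (b (l 16668088) (l 16663200))) (c (b (l 16677096) (l 16671896)) (b (l 16667304) (l 16662656)))) (a (c (b (l 16676040) (l 16671080)) (c (l 16666600) (l 16661960))) (c (b (l 16674944) (l 16670216)) (c (l 16665800) (l 16661280)))))) (b (a (c (b (l 16666832) (l 16662208)) (b (l 16655808) (l 16651720))) (c (b (l 16664760) (l 16660600)) (a (l 16652744) (l 16652048)))) (a (c (b (l 16657784) (l 16664048)) (b (l 16647832) (l 16644152))) (c (b (l 16656632) (l 16663344)) (b (l 16647152) (l 16643920)))))) (c (b (a (c (a (b (l 16683384) (l 16678512)) (l 16675464)) (a (b (l 16673288) (l 16668936)) (l 16670448))) (c (b (l 16681272) (l 16677024)) (b (l 16671744) (l 16668008)))) (a (c (a (b (l 16673832) (l 16669360)) (b (l 16673312) (l 16669104))) (a (c (l 16665008)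 (l 16660608)) (l 16669200))) (c (b (l 16673000) (c (l 16671176) (l 16667192))) (a (l 16662768) (l 16662896))))) (a (b (c (a (l 16661240) (l 16660808)) (a (l 16651344) (l 16651144))) (c (a (l 16664488) (l 16654056)) (a (l 16645160) (l 16645424)))) (b (c (a (l 16660640) (l 16660472)) (a (l 16651192) (l 16651240))) (c (b (l 16655952) (l 16653168)) (l 16656720)))))), by decide +kernel⟩

def k31_pm_012 : ∃ t, chk3 f_pm_012 t 25 63 1 = true :=
  ⟨(a (c (b (a (c (b (c (a (l 16669664) (l 16669072)) (a (l 16665208) (l 16664736))) (c (a (l 16664496) (l 16664144)) (a (l 16660320) (l 16660080)))) (b (c (l 16660584) (l 16656176)) (c (l 16666584) (l 16651960)))) (c (b (a (a (l 16666464) (l 16666160)) (l 16670944)) (c (a (l 16663744) (l 16663320)) (a (l 16659800) (l 16659488)))) (b (c (l 16659768) (l 16655592)) (c (l 16655760) (l 16651856))))) (a (c (b (c (a (l 16659544) (l 16659432)) (a (l 16655648) (l 16655648))) (c (a (l 16654800) (l 16654944)) (a (l 16651192) (l 16651440)))) (b (c (l 16651816)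 (l 16647960)) (c (l 16647776) (l 16644208)))) (c (a (b (c (l 16659280) (l 16655616)) (l 16653352)) (b (l 16667824) (l 16653512))) (b (l 16660656) (l 16646760))))) (b (a (c (b (l 16660032) (l 16645752)) (b (l 16640696) (l 16637456))) (c (b (l 16649312) (l 16645992)) (b (l 16640920) (l 16638136)))) (a (c (b (l 16642176) (l 16638840)) (b (l 16634432) (l 16631664))) (c (a (l 16641224) (l 16641696)) (l 16634456))))) (c (b (b (a (c (a (c (l 16667080) (l 16663104)) (l 16665104)) (a (l 16657120) (l 16657344))) (c (c (l 16667448) (l 16663720)) (l 16658112))) (a (c (a (c (l 16662912) (l 16659200)) (l 16661336)) (a (l 16653624) (l 16654104))) (c (c (l 16663944) (l 16660480)) (l 16655256)))) (a (c (a (b (l 16667744) (l 16653696)) (b (l 16657800) (l 16654496))) (a (l 16648848) (l 16649712))) (c (b (l 16659064) (l 16656160)) (b (l 16652640) (l 16650256))))) (b (b (a (c (l 16649328) (l 16641392)) (l 16657320)) (a (c (l 16646504) (l 16639096)) (l 16644760))) (a (a (l 16649328) (l 16639992)) (c (l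 16645240) (l 16638992)))))), by decide +kernel⟩

def k32_pm_012 : ∃ t, chk3 f_pm_012 t 13 14 1 = true :=
  ⟨(a (b (a (b (c (l 16789560) (l 16751736)) (c (l 16764496) (l 16729920))) (b (c (l 16766736) (l 16731576)) (c (l 16744960) (a (l 16717176) (l 16708824))))) (b (a (c (a (l 16745088) (l 16737032)) (b (l 16714656) (l 16705152))) (c (a (l 16729000) (l 16721096)) (a (l 16699672) (l 16693040)))) (a (c (a (l 16722728) (b (l 16721312) (l 16711568))) (a (b (l 16698944) (l 16690096)) (b (l 16693360) (l 16685408)))) (c (b (a (l 16714648) (l 16708120)) (a (l 16705832) (l 16700264))) (a (b (l 16687896) (l 16680824)) (b (l 16682584) (l 16676424))))))) (b (a (b (c (l 16744280) (l 16711976)) (c (a (l 16730608) (l 16721296)) (a (l 16700672) (l 16692736)))) (b (c (l 16722688) (l 16693312)) (c (a (l 16712264) (l 16703512)) (a (l 16685088) (l 16677720))))) (a (b (c (b (l 16713424) (l 16705800)) (a (l 16686600) (l 16680408))) (c (b (a (l 16701800) (l 16695696)) (a (l 16694888) (l 16689704))) (b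 (a (l 16677480) (l 16672600)) (a (l 16672224) (l 16668216))))) (b (c (b (l 16698048) (l 16692224)) (a (l 16674464) (l 16668768))) (c (a (b (l 16689816) (l 16684728)) (b (l 16684152) (l 16679960))) (a (b (l 16667944) (l 16664424)) (b (l 16663520) (l 16660832)))))))), by decide +kernel⟩

def k33_pm_012 : ∃ t, chk3 f_pm_012 t 26 30 1 = true :=
  ⟨(b (a (c (b (a (l 16707288) (l 16702416)) (a (l 16676832) (c (l 16699496) (l 16688272)))) (b (a (l 16681840) (l 16678064)) (a (c (l 16680152) (l 16668344)) (c (l 16677024) (l 16665736))))) (c (b (a (l 16697640) (l 16693032)) (a (c (l 16695448) (l 16684760)) (c (l 16691544) (l 16681392)))) (b (a (l 16674400) (l 16670920)) (a (c (l 16674040) (l 16663280)) (c (l 16671200) (l 16660976)))))) (a (c (b (a (c (l 16694384) (l 16683592)) (c (l 16691208) (l 16680920))) (a (c (l 16685784) (l 16670720)) (c (l 16673152) (l 16669056)))) (b (a (c (l 16672768) (l 16661920)) (c (l 16670600) (l 16660248))) (a (c (l 16666120) (l 16656232)) (c (l 16664928) (l 16655512)))))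 (c (b (a (c (l 16688152) (l 16678376)) (c (l 16685224) (l 16675960))) (a (c (b (l 16683136) (l 16680040)) (b (l 16674048) (l 16671416))) (c (b (l 16680936) (l 16678328)) (l 16673888)))) (b (a (c (l 16668560) (l 16658712)) (c (l 16666656) (l 16657304))) (a (c (l 16663832) (l 16654896)) (c (l 16662848) (l 16654392))))))), by decide +kernel⟩

def k34_pm_012 : ∃ t, chk3 f_pm_012 t 27 30 1 = true :=
  ⟨(a (b (c (b (a (l 16688600) (l 16684352)) (a (c (l 16687784) (l 16678168)) (c (l 16684184) (l 16675112)))) (b (a (l 16667608) (l 16664480)) (a (c (l 16668520) (l 16658832)) (l 16671920)))) (c (b (a (c (l 16682424) (l 16673672)) (c (l 16679768) (l 16671528))) (a (c (b (l 16678856) (l 16676728)) (l 16669912)) (c (l 16676064) (l 16668672)))) (b (a (c (l 16664880) (l 16656040)) (c (l 16663248) (l 16654920))) (a (c (l 16661984) (l 16654008)) (c (l 16661232) (l 16653744)))))) (b (c (b (a (l 16680280) (l 16676400)) (a (l 16681736) (l 16673496))) (a (b (l 16661544) (l 16659352)) (b (l 16658800)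 (l 16657448)))) (c (b (a (c (l 16677248) (l 16669528)) (l 16681776)) (a (c (l 16674464) (l 16667568)) (c (l 16672992) (l 16666592)))) (a (b (l 16668352) (l 16667608)) (b (l 16656800) (l 16656896)))))), by decide +kernel⟩

def k35_pm_012 : ∃ t, chk3 f_pm_012 t 26 31 1 = true :=
  ⟨(b (a (c (b (a (c (b (l 16679816) (l 16676104)) (b (l 16670736) (l 16667520))) (c (b (l 16678440) (l 16675240)) (b (l 16669816) (l 16667096)))) (a (c (a (l 16670968) (l 16670904)) (b (l 16664512) (l 16661720))) (c (b (l 16672240) (l 16669448)) (b (l 16664584) (l 16662280))))) (b (a (c (a (l 16660320) (l 16660192)) (l 16651360)) (c (l 16665280) (l 16651576))) (a (c (b (l 16656392) (l 16654096)) (l 16647336)) (c (b (l 16656888) (l 16655072)) (l 16648480))))) (c (b (a (c (b (l 16677136) (l 16674432)) (b (l 16668976) (l 16666736))) (c (b (l 16675912) (l 16673696)) (b (l 16668224) (l 16666456)))) (a (c (b (l 16671928) (l 16669632)) (b (l 16664712) (l 16662888))) (c (b (l 16671680) (l 16669872)) (b (l 16664896)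 (l 16663544))))) (b (a (c (l 16665136) (l 16651880)) (c (l 16670312) (l 16652264))) (a (c (b (l 16657448) (l 16656096)) (l 16649696)) (c (l 16662864) (l 16650968)))))) (a (c (b (a (c (b (l 16666224) (l 16663360)) (b (l 16659144) (l 16656792))) (c (b (l 16666872) (l 16664520)) (b (l 16660192) (l 16658336)))) (a (c (b (l 16660728) (l 16658336)) (b (l 16654672) (l 16652784))) (c (b (l 16662392) (l 16660488)) (b (l 16656696) (l 16655296))))) (b (a (c (l 16651096) (l 16644192)) (c (l 16658032) (l 16646264))) (a (c (l 16647872) (l 16641984)) (c (l 16650512) (l 16644976))))) (c (b (a (c (b (l 16667552) (l 16665688)) (b (l 16661280) (l 16659896))) (c (b (l 16668272) (l 16666888)) (b (l 16662408) (l 16661496)))) (a (c (b (l 16664048) (l 16662640)) (b (l 16658736) (l 16657816))) (c (b (l 16665728) (l 16664792)) (l 16660560)))) (b (a (c (l 16654512) (l 16648384)) (c (l 16656272) (l 16650544))) (a (c (l 16653152) (l 16647984)) (c (l 16655816) (l 16651024))))))), by decide +kernel⟩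

def k36_pm_012 : ∃ t, chk3 f_pm_012 t 27 31 1 = true :=
  ⟨(a (b (c (b (a (c (b (l 16674792) (l 16673048)) (a (l 16667000) (l 16666808))) (c (l 16678368) (l 16666584))) (a (c (b (l 16671504) (l 16670168)) (b (l 16665160) (l 16664272))) (c (b (l 16671400) (l 16670528)) (l 16665288)))) (b (a (c (l 16659856) (l 16652752)) (c (l 16659992) (l 16653352))) (a (c (l 16658544) (l 16652328)) (c (l 16659552) (l 16653776))))) (c (b (a (c (b (l 16669040) (l 16668128)) (l 16663360)) (c (l 16669632) (l 16664824))) (a (c (l 16667192) (l 16662880)) (c (l 16669160) (l 16665232)))) (b (a (c (l 16658088) (l 16652760)) (l 16657512)) (a (l 16656304) (l 16659232))))) (b (c (b (a (c (l 16672432) (l 16666360)) (c (l 16671848) (l 16666248))) (a (c (l 16671176) (l 16665944)) (l 16676960))) (b (a (l 16667640) (l 16657752)) (a (l 16657984) (l 16659408)))) (b (c (a (c (l 16670744) (l 16666352)) (l 16669952)) (a (l 16659664) (l 16661896))) (c (a (l 16669400) (l 16671656)) (a (l 16662208) (l 16665248)))))), by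 decide +kernel⟩

def k37_pm_012 : ∃ t, chk3 f_pm_012 t 7 6 1 = true :=
  ⟨(a (b (a (b (a (l 16813376) (l 16776200)) (a (l 16775472) (l 16744464))) (b (a (l 16740536) (l 16706744)) (a (l 16715072) (l 16687600)))) (a (b (a (b (l 16748744) (l 16732296)) (b (l 16722600) (l 16709544))) (a (b (l 16717128) (c (l 16718296) (l 16688928))) (b (l 16697912) (c (l 16701352) (l 16674504))))) (b (a (b (l 16698208) (l 16688496)) (b (l 16675568) (l 16669112))) (a (b (l 16680248) (c (l 16685848) (l 16661480))) (b (l 16664136) (c (l 16671792) (l 16649856))))))) (b (a (b (a (l 16674944) (l 16645224)) (a (l 16662024) (l 16659384))) (a (b (l 16617672) (l 16648264)) (b (l 16634320) (a (l 16601920) (l 16592664))))) (a (b (a (b (l 16654712) (l 16651416)) (b (l 16635688) (l 16635432))) (a (b (l 16670560) (a (l 16652112) (l 16646768))) (b (a (l 16639704) (l 16633632)) (a (l 16641800) (l 16637184))))) (a (b (b (l 16618504) (l 16642144)) (b (a (l 16627944) (l 16622664)) (a (l 16632936) (l 16629040)))) (b (a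 (l 16609224) (b (l 16599632) (l 16605768))) (a (b (l 16617776) (l 16625512)) (b (l 16613280) (l 16622336)))))))), by decide +kernel⟩

def k38_pm_012 : ∃ t, chk3 f_pm_012 t 14 14 1 = true :=
  ⟨(a (b (a (b (c (l 16705216) (l 16678480)) (c (a (l 16696584) (l 16691488)) (a (l 16672016) (l 16667976)))) (b (c (l 16691928) (l 16667496)) (c (a (l 16686680) (l 16682152)) (a (l 16664216) (l 16660720))))) (a (b (c (a (l 16686544) (l 16683320)) (a (l 16664792) (l 16662512))) (c (a (b (l 16680424) (l 16677136)) (b (l 16678592) (l 16676232))) (a (b (l 16660832) (l 16659008)) (b (l 16659856) (l 16658896))))) (b (c (a (l 16680336) (l 16682824)) (a (l 16660456) (l 16658640))) (c (a (b (l 16676968) (l 16675512)) (b (l 16675544) (l 16674960))) (a (b (l 16659088) (l 16658968)) (b (l 16658504) (l 16659208))))))) (b (a (b (c (l 16679936) (l 16678744)) (c (a (l 16677904) (l 16673944)) (a (l 16657504) (l 16654568)))) (a (b (l 16682504) (c (l 16670264) (l 16651904))) (b (l 16678040) (c (l 16666880) (l 16649520)))))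 (a (b (c (a (b (l 16675520) (l 16674640)) (b (l 16672832) (l 16672792))) (a (l 16657056) (l 16655704))) (c (a (b (l 16674328) (l 16674600)) (b (l 16673320) (l 16674416))) (a (b (l 16658128) (l 16659624)) (b (l 16657952) (l 16660224))))) (b (a (c (b (l 16670392) (l 16671184)) (l 16654592)) (c (b (l 16668216) (l 16669800)) (l 16653712))) (a (c (b (l 16672520) (l 16674424)) (b (l 16657984) (l 16661008))) (c (b (l 16671928) (l 16674616)) (b (l 16658216) (l 16661968)))))))), by decide +kernel⟩

def k39_pm_012 : ∃ t, chk3 f_pm_012 t 14 30 1 = true :=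
  ⟨(a (a (b (c (b (a (l 16674480) (l 16674504)) (a (l 16672488) (l 16683896))) (a (b (l 16657824) (l 16657320)) (b (l 16658584) (l 16658928)))) (c (b (a (l 16671176) (l 16683488)) (a (l 16670576) (c (l 16676160) (l 16670424)))) (b (a (l 16657520) (l 16659968)) (a (l 16658440) (l 16661720))))) (b (c (b (a (l 16674664) (l 16685472)) (a (c (l 16677888) (l 16671032)) (c (l 16678904) (l 16672384)))) (a (b (l 16659480) (l 16660656)) (b (l 16660536) (l 16662512)))) (c (b (a (c (l 16678008) (l 16671848)) (c (l 16679888) (l 16674040))) (a (c (l 16678816) (l 16673360)) (c (l 16681552) (l 16676376)))) (b (a (l 16662512) (l 16665160)) (a (l 16665072) (l 16668504)))))) (a (b (c (a (b (c (l 16678872) (l 16672056)) (c (l 16680056) (l 16673872))) (b (c (l 16679336) (l 16672880)) (c (l 16681344) (l 16675488)))) (a (b (l 16661744) (l 16664496)) (b (l 16663112) (l 16666616)))) (b (c (a (c (l 16681880) (l 16676336)) (c (l 16689224) (l 16678744))) (a (l 16667920) (l 16670784))) (c (a (c (l 16684376)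 (l 16679472)) (a (l 16684200) (l 16685736))) (a (l 16672016) (l 16686104))))) (b (a (c (b (c (l 16679960) (l 16673864)) (c (l 16682768) (l 16677248))) (b (l 16664632) (l 16668872))) (c (b (c (l 16680744) (l 16675008)) (c (l 16684328) (l 16679144))) (b (l 16666312) (l 16671264)))) (b (b (c (a (l 16682720) (l 16685016)) (a (l 16672456) (l 16675376))) (c (a (l 16684744) (l 16687416)) (a (l 16675064) (l 16678328)))) (b (c (a (l 16686928) (l 16695216)) (a (l 16677832) (l 16681448))) (c (a (l 16694520) (c (l 16694648) (l 16690720))) (a (l 16680776) (l 16684728)))))))), by decide +kernel⟩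

def k40_pm_012 : ∃ t, chk3 f_pm_012 t 28 31 1 = true :=
  ⟨(b (a (c (b (a (l 16670712) (c (l 16676808) (l 16671816))) (a (l 16671624) (l 16686584))) (b (a (l 16660128) (l 16664224)) (a (l 16662600) (l 16667504)))) (b (c (a (c (l 16680336) (l 16675592)) (c (l 16683920) (l 16679424))) (a (l 16668376) (l 16672576))) (c (a (c (l 16682608) (l 16678576)) (c (l 16687016) (l 16683208))) (a (l 16672432) (l 16677392))))) (a (b (c (a (l 16673344) (l 16678672)) (a (l 16665896) (l 16671592))) (c (a (l 16675904) (l 16682072)) (a (l 16670040) (l 16676512)))) (b (c (a (l 16694480) (c (l 16690872) (l 16687752))) (a (l 16677280) (l 16682976))) (c (a (l 16688200) (l 16699552)) (a (l 16682952) (l 16689376)))))), by decide +kernel⟩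

def k41_pm_012 : ∃ t, chk3 f_pm_012 t 29 31 1 = true :=
  ⟨(b (a (b (b (c (a (l 16684472) (l 16688104)) (a (l 16675536) (l 16679680))) (c (a (l 16686408) (l 16690424)) (a (l 16678128) (l 16682624)))) (b (c (a (l 16688520) (l 16692920)) (a (l 16680896) (l 16685752))) (c (a (l 16690816) (l 16695592)) (a (l 16683856) (l 16689064))))) (b (b (c (a (l 16697040) (c (l 16697392) (l 16693744))) (a (l 16683888) (l 16688176))) (c (a (l 16699736) (c (l 16700296) (l 16696936))) (a (l 16687184) (l 16691800)))) (b (c (a (l 16702600) (c (l 16703376) (l 16700304))) (a (l 16690648) (l 16695600))) (c (a (l 16705640) (c (l 16706632) (l 16703848))) (a (l 16694296) (l 16699576)))))) (a (b (c (a (c (l 16701344) (l 16693176)) (a (l 16698632) (l 16706544))) (a (l 16688680) (b (l 16692560) (l 16696248)))) (c (a (b (l 16698856) (l 16701928)) (b (l 16704744) (l 16708176))) (a (l 16695776) (b (l 16700136) (l 16704216))))) (b (b (c (a (l 16703624) (c (l 16710056) (l 16707568))) (a (l 16698128) (l 16703736)))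 (c (a (l 16707032) (c (l 16713664) (l 16711464))) (a (l 16702152) (l 16708072)))) (a (c (b (l 16710624) (l 16714408)) (b (l 16706360) (l 16710768))) (c (b (c (l 16717448) (l 16715544)) (c (l 16721424) (l 16719816))) (b (l 16712600) (l 16717320))))))), by decide +kernel⟩

def k42_pm_012 : ∃ t, chk3 f_pm_012 t 15 14 1 = true :=
  ⟨(a (b (a (b (a (l 16673896) (l 16670072)) (a (c (l 16663776) (l 16647416)) (c (l 16660968) (l 16645584)))) (b (a (l 16666584) (l 16642448)) (a (c (l 16658448) (l 16644048)) (c (l 16656232) (l 16642784))))) (a (b (a (c (b (l 16666296) (l 16668656)) (l 16653072)) (c (b (l 16664632) (l 16667744)) (l 16652664))) (a (c (b (l 16671552) (l 16675000)) (b (l 16658656) (l 16663112))) (c (b (l 16671384) (l 16675568)) (b (l 16659296) (l 16664448))))) (b (a (c (b (l 16663232) (l 16667080)) (l 16652512)) (c (b (l 16662088) (l 16666648)) (l 16652592))) (a (c (b (l 16671448) (l 16676344)) (b (l 16660160) (l 16665976))) (c (b (l 16671720) (l 16677312)) (b (l 16661224) (l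 16667688))))))) (a (b (b (a (l 16639600) (l 16637080)) (a (c (l 16654288) (l 16641800)) (c (l 16652640) (l 16641088)))) (b (b (a (l 16655552) (l 16655360)) (a (c (l 16666456) (l 16655944)) (c (l 16666496) (l 16656808)))) (a (c (b (l 16672208) (l 16678472)) (b (l 16662504) (l 16669592))) (a (b (l 16668160) (l 16675304)) (b (l 16668760) (l 6)))))) (b (a (b (l 16634880) (c (l 16651280) (l 16640656))) (b (a (l 16633432) (l 16632568)) (a (l 16645472) (l 16645232)))) (a (b (a (l 16679728) (l 16679976)) (a (c (l 16687744) (l 16690272)) (l 6))) (b (a (l 16680280) (l 6)) (l 6)))))), by decide +kernel⟩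

def k43_pm_012 : ∃ t, chk3 f_pm_012 t 30 30 1 = true :=
  ⟨(a (b (a (c (b (c (l 16681696) (l 16676320)) (c (l 16696520) (l 16681176))) (b (l 16668160) (l 16673800))) (c (a (b (l 16679960) (l 16685104)) (b (l 16680656) (l 16686152))) (b (l 16670168) (l 16686960)))) (a (a (c (b (l 16688152) (c (l 16695728) (l 16691864))) (b (l 16679240) (l 16685976))) (c (b (l 16689480) (c (l 16697344) (l 16693616))) (b (l 16680880) (l 16687936)))) (a (c (b (l 16690840) (c (l 16698984) (l 16695392))) (b (l 16682544) (l 16689928))) (c (b (l 16692232) (c (l 16700648) (l 16697200))) (b (l 16684240) (l 16691936)))))) (b (a (c (b (a (l 16681400) (l 16682184)) (a (l 16687240) (l 16688368))) (b (l 16672352) (a (l 16678576) (l 16680032)))) (b (c (a (l 16683008) (l 16683872)) (l 16685184)) (c (a (l 16689528) (l 16690728)) (a (l 16681520) (l 16683040))))) (a (b (c (a (l 16693664) (l 16695128)) (a (l 16685968) (l 16687736))) (c (a (c (l 16702344) (l 16699032)) (c (l 16704064) (l 16700896))) (a (l 16693984) (l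 16706536)))) (a (b (c (l 16707104) (l 16689528)) (c (b (l 16702304) (l 6)) (l 16706008))) (b (c (l 16708632) (l 16691352)) (l 6)))))), by decide +kernel⟩

def k44_pm_012 : ∃ t, chk3 f_pm_012 t 30 31 1 = true :=
  ⟨(b (a (b (a (c (c (b (l 16701112) (l 16704376)) (b (l 16697720) (l 16701256))) (b (l 16692544) (l 16696488))) (c (a (c (l 16705704) (l 16702640)) (c (l 16707712) (l 16704776))) (a (l 16697960) (l 16705520)))) (a (c (b (c (l 16707808) (l 16704960)) (c (l 16711408) (l 16708840))) (b (l 16700608) (l 16704904))) (c (a (b (l 16709824) (l 16713816)) (b (l 16712144) (l 16716296))) (b (l 16705680) (l 16715520))))) (b (a (c (a (c (l 16714992) (l 16706936)) (a (l 16715168) (l 6))) (b (a (l 16700392) (l 16702680)) (a (l 16704872) (l 6)))) (l 6)) (l 6))) (a (a (b (c (b (c (l 16715176) (l 16712888)) (c (l 16719128) (l 16717120))) (b (l 16709368) (l 16714016))) (c (a (b (l 16720912) (l 16725280)) (b (l 16723864) (l 6))) (b (l 16718848) (l 16729112)))) (a (b (b (c (l 16717976) (l 16713616))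 (l 6)) (l 6)) (l 6))) (l 6))), by decide +kernel⟩

def k45_pm_012 : ∃ t, chk3 f_pm_012 t 31 15 1 = true :=
  ⟨(b (a (b (a (a (b (c (l 16684784) (l 16676568)) (c (l 16691960) (l 16684600))) (b (c (l 16685736) (l 16677872)) (l 6))) (l 6)) (l 6)) (l 6)) (l 6)), by decide +kernel⟩

theorem s46_pm_012 : ∃ t, chk3 f_pm_012 t 30 15 1 = true := ex3_b k43_pm_012 k44_pm_012

theorem s47_pm_012 : ∃ t, chk3 f_pm_012 t 15 15 1 = true := ex3_a s46_pm_012 k45_pm_012

theorem s48_pm_012 : ∃ t, chk3 f_pm_012 t 15 7 1 = true := ex3_b k42_pm_012 s47_pm_012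

theorem s49_pm_012 : ∃ t, chk3 f_pm_012 t 14 31 1 = true := ex3_a k40_pm_012 k41_pm_012

theorem s50_pm_012 : ∃ t, chk3 f_pm_012 t 14 15 1 = true := ex3_b k39_pm_012 s49_pm_012

theorem s51_pm_012 : ∃ t, chk3 f_pm_012 t 14 7 1 = true := ex3_b k38_pm_012 s50_pm_012

theorem s52_pm_012 : ∃ t, chk3 f_pm_012 t 7 7 1 = true := ex3_a s51_pm_012 s48_pm_012

theorem s53_pm_012 : ∃ t, chk3 f_pm_012 t 7 3 1 = true := ex3_b k37_pm_012 s52_pm_012

theorem s54_pm_012 : ∃ t, chk3 f_pm_012 t 13 31 1 = true := ex3_a k35_pm_012 k36_pm_012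

theorem s55_pm_012 : ∃ t, chk3 f_pm_012 t 13 30 1 = true := ex3_a k33_pm_012 k34_pm_012

theorem s56_pm_012 : ∃ t, chk3 f_pm_012 t 13 15 1 = true := ex3_b s55_pm_012 s54_pm_012

theorem s57_pm_012 : ∃ t, chk3 f_pm_012 t 13 7 1 = true := ex3_b k32_pm_012 s56_pm_012

theorem s58_pm_012 : ∃ t, chk3 f_pm_012 t 25 31 1 = true := ex3_b k30_pm_012 k31_pm_012

theorem s59_pm_012 : ∃ t, chk3 f_pm_012 t 24 63 1 = true := ex3_a k28_pm_012 k29_pm_012

theorem s60_pm_012 : ∃ t, chk3 f_pm_012 t 24 31 1 = true := ex3_b k27_pm_012 s59_pm_012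

theorem s61_pm_012 : ∃ t, chk3 f_pm_012 t 12 31 1 = true := ex3_a s60_pm_012 s58_pm_012

theorem s62_pm_012 : ∃ t, chk3 f_pm_012 t 12 30 1 = true := ex3_a k25_pm_012 k26_pm_012

theorem s63_pm_012 : ∃ t, chk3 f_pm_012 t 12 15 1 = true := ex3_b s62_pm_012 s61_pm_012

theorem s64_pm_012 : ∃ t, chk3 f_pm_012 t 12 7 1 = true := ex3_b k24_pm_012 s63_pm_012

theorem s65_pm_012 : ∃ t, chk3 f_pm_012 t 6 7 1 = true := ex3_a s64_pm_012 s57_pm_012

theorem s66_pm_012 : ∃ t, chk3 f_pm_012 t 6 3 1 = true := ex3_b k23_pm_012 s65_pm_012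

theorem s67_pm_012 : ∃ t, chk3 f_pm_012 t 3 3 1 = true := ex3_a s66_pm_012 s53_pm_012

theorem s68_pm_012 : ∃ t, chk3 f_pm_012 t 3 1 1 = true := ex3_b k22_pm_012 s67_pm_012

theorem s69_pm_012 : ∃ t, chk3 f_pm_012 t 23 63 1 = true := ex3_a k20_pm_012 k21_pm_012

theorem s70_pm_012 : ∃ t, chk3 f_pm_012 t 23 31 1 = true := ex3_b k19_pm_012 s69_pm_012

theorem s71_pm_012 : ∃ t, chk3 f_pm_012 t 23 15 1 = true := ex3_b k18_pm_012 s70_pm_012

theorem s72_pm_012 : ∃ t, chk3 f_pm_012 t 22 63 1 = true := ex3_a k16_pm_012 k17_pm_012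

theorem s73_pm_012 : ∃ t, chk3 f_pm_012 t 22 31 1 = true := ex3_b k15_pm_012 s72_pm_012

theorem s74_pm_012 : ∃ t, chk3 f_pm_012 t 22 15 1 = true := ex3_b k14_pm_012 s73_pm_012

theorem s75_pm_012 : ∃ t, chk3 f_pm_012 t 11 15 1 = true := ex3_a s74_pm_012 s71_pm_012

theorem s76_pm_012 : ∃ t, chk3 f_pm_012 t 11 7 1 = true := ex3_b k13_pm_012 s75_pm_012

theorem s77_pm_012 : ∃ t, chk3 f_pm_012 t 11 3 1 = true := ex3_b k12_pm_012 s76_pm_012

theorem s78_pm_012 : ∃ t, chk3 f_pm_012 t 21 63 1 = true := ex3_a k10_pm_012 k11_pm_012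

theorem s79_pm_012 : ∃ t, chk3 f_pm_012 t 21 31 1 = true := ex3_b k9_pm_012 s78_pm_012

theorem s80_pm_012 : ∃ t, chk3 f_pm_012 t 10 31 1 = true := ex3_a k8_pm_012 s79_pm_012

theorem s81_pm_012 : ∃ t, chk3 f_pm_012 t 10 15 1 = true := ex3_b k7_pm_012 s80_pm_012

theorem s82_pm_012 : ∃ t, chk3 f_pm_012 t 10 7 1 = true := ex3_b k6_pm_012 s81_pm_012

theorem s83_pm_012 : ∃ t, chk3 f_pm_012 t 10 3 1 = true := ex3_b k5_pm_012 s82_pm_012

theorem s84_pm_012 : ∃ t, chk3 f_pm_012 t 5 3 1 = true := ex3_a s83_pm_012 s77_pm_012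

theorem s85_pm_012 : ∃ t, chk3 f_pm_012 t 5 1 1 = true := ex3_b k4_pm_012 s84_pm_012

theorem s86_pm_012 : ∃ t, chk3 f_pm_012 t 4 7 1 = true := ex3_a k2_pm_012 k3_pm_012

theorem s87_pm_012 : ∃ t, chk3 f_pm_012 t 4 3 1 = true := ex3_b k1_pm_012 s86_pm_012

theorem s88_pm_012 : ∃ t, chk3 f_pm_012 t 4 1 1 = true := ex3_b k0_pm_012 s87_pm_012

theorem s89_pm_012 : ∃ t, chk3 f_pm_012 t 2 1 1 = true := ex3_a s88_pm_012 s85_pm_012

theorem s90_pm_012 : ∃ t, chk3 f_pm_012 t 1 1 1 = true := ex3_a s89_pm_012 s68_pm_012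

theorem c_pm_012 : CertN 0 536870912 0 536870912 335544320 67108864 3 false true false .pnp 0 1 2
    ndN0q0 ndN0q2 pcN1 cut_pm_012 Ext.none :=
  certN2 (fam := false) (s1 := true) (s2 := false) (a := 0) (b := 1) (c := 2) (cn := .pnp) (n1 := ndN0q0) (n2 := ndN0q2) (pc := pcN1) (cut := cut_pm_012) (xt := Ext.none) (P1 := 0) (W1 := 536870912) (P2 := 0) (W2 := 536870912) (P3 := 335544320) (W3 := 67108864) (N0 := 3)
    rfl (fun _ => rfl) s90_pm_012

noncomputable def cut_pm_022 : Cut := Cut.of [[⟨0, 0, 0, 67108864⟩, ⟨1, 1, 0, 67108864⟩, ⟨2, 1, 0, 67108864⟩]]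

noncomputable def f_pm_022 : ℕ → ℕ → ℕ → ℕ → Bool := onCell 0 536870912 0 536870912 335544320 67108864
    (rowN 3 0 false true false .pp 0 2 2 (qsf 0 536870912 0 536870912 2) ndN0q0 ndN0q2 pcN2 cut_pm_022 Ext.none)

def k0_pm_022 : ∃ t, chk3 f_pm_022 t 2 2 1 = true :=
  ⟨(a (b (a (b (l 16477272) (c (l 16527408) (l 16530288))) (b (b (l 16502296) (l 16515648)) (b (l 16508992) (l 16503576)))) (a (b (a (b (l 16476088) (l 16493032)) (l 16507896)) (a (a (l 16569048) (l 16557768)) (b (l 16510080) (l 16527560)))) (b (a (l 16465816) (l 16460872)) (a (b (l 16464600) (l 16490408)) (a (l 16472368) (l 16465472)))))) (a (a (b (b (b (l 16523624) (l 16471728)) (b (l 16461560) (l 16452464))) (b (b (l 16445768) (l 16463104)) (b (l 16441776) (l 16444904)))) (b (b (l 1) (l 1)) (l 1))) (l 1))), by decide +kernel⟩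

def k1_pm_022 : ∃ t, chk3 f_pm_022 t 2 3 1 = true :=
  ⟨(a (b (a (a (b (a (b (l 16558528) (l 16601808)) (b (l 16545616) (l 16566920))) (b (a (b (l 16597688) (l 16609200)) (l 16609568)) (a (b (l 16642120) (a (l 16637624) (l 16629704))) (b (l 16605584) (l 16617640))))) (b (b (l 16567376) (a (l 16552600) (l 16537808))) (b (a (l 16594288) (l 16578536)) (a (b (l 16589624) (l 16601224)) (a (l 16603976) (l 16595504)))))) (b (a (a (b (l 16504160) (l 16522440)) (b (l 16510088) (l 16527384))) (b (a (l 16473304) (l 16456608)) (a (l 16479128) (l 1)))) (a (b (a (l 16562208) (a (l 16549568) (l 16540888))) (a (b (l 16556152) (l 16598320)) (b (a (l 16542984) (l 1)) (l 1)))) (b (a (l 16506512) (l 1)) (l 1))))) (a (b (b (a (a (a (b (l 16650800) (l 16680320)) (b (l 16642672) (l 16656248))) (b (l 16651248) (a (l 16647816) (l 16639280)))) (a (b (l 16634400) (a (l 16630640) (l 16621888))) (b (l 16617056) (a (l 16613000) (l 16624952))))) (a (l 6) (a (l 6) (a (l 6) (a (l 6) (l 1)))))) (a (l 6) (a (l 6)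 (l 1)))) (b (a (b (a (b (a (l 16582736) (l 16573624)) (b (l 16608048) (l 1))) (l 1)) (l 1)) (l 1)) (l 1)))) (b (l 1) (l 1))), by decide +kernel⟩

def k2_pm_022 : ∃ t, chk3 f_pm_022 t 3 1 1 = true :=
  ⟨(l 1), by decide +kernel⟩

theorem s3_pm_022 : ∃ t, chk3 f_pm_022 t 2 1 1 = true := ex3_b k0_pm_022 k1_pm_022

theorem s4_pm_022 : ∃ t, chk3 f_pm_022 t 1 1 1 = true := ex3_a s3_pm_022 k2_pm_022

theorem c_pm_022 : CertN 0 536870912 0 536870912 335544320 67108864 3 false true false .pp 0 2 2
    ndN0q0 ndN0q2 pcN2 cut_pm_022 Ext.none :=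
  certN0 (fam := false) (s1 := true) (s2 := false) (a := 0) (b := 2) (c := 2) (cn := .pp) (n1 := ndN0q0) (n2 := ndN0q2) (pc := pcN2) (cut := cut_pm_022) (xt := Ext.none) (P1 := 0) (W1 := 536870912) (P2 := 0) (W2 := 536870912) (P3 := 335544320) (W3 := 67108864) (N0 := 3)
    rfl s4_pm_022

noncomputable def cut_pm_101 : Cut := Cut.of [[⟨0, 1, 0, 33554432⟩, ⟨1, 0, 0, 33554432⟩, ⟨2, 1, 0, 33554432⟩]]

noncomputable def f_pm_101 : ℕ → ℕ → ℕ → ℕ → Bool := onCell 536870912 536870912 536870912 536870912 335544320 67108864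
    (rowN 3 0 false true false .npn 1 0 1 (qsf 536870912 536870912 536870912 536870912 0) ndN0q1 ndN0q1 pcN0 cut_pm_101 Ext.none)

def k0_pm_101 : ∃ t, chk3 f_pm_101 t 4 2 1 = true :=
  ⟨(b (a (b (l 4) (a (b (l 4) (b (l 4) (a (l 4) (b (l 4) (a (l 4) (l 172570528343)))))) (b (b (l 4) (a (l 4) (b (l 4) (a (l 4) (l 173107399255))))) (b (a (b (l 4) (a (l 4) (l 172033657415))) (b (a (l 172570528359) (b (l 165591191639) (l 155390641079))) (a (b (l 165054320567) (l 16806808)) (l 16798280)))) (a (b (a (l 172033657415) (b (l 163980578455) (l 16806496))) (a (b (l 163980578023) (l 16806008)) (l 16796888))) (a (l 16852640) (l 16809424))))))) (b (a (a (l 4) (l 1)) (l 1)) (a (b (b (a (a (l 4) (b (l 4) (l 174718011463))) (b (l 1) (a (l 286722685575) (l 1)))) (a (b (a (l 173644270103) (b (l 166664933511) (l 156464384615))) (a (b (l 166128062615) (l 155927512919)) (l 16798944))) (a (b (l 16798984) (l 16782472)) (l 16806696)))) (a (b (b (a (l 16798672) (l 16783440)) (l 16808432)) (l 16800776)) (l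 16829344))) (b (a (l 160021367383) (l 1)) (a (l 16823640) (l 16842024)))))) (b (a (a (b (b (a (b (l 4) (a (l 4) (l 173107398775))) (b (a (l 173107399111) (b (l 163980577367) (l 16805352))) (a (b (l 163443705559) (l 16804512)) (l 16794248)))) (a (b (a (b (l 178476113399) (l 170959908471)) (b (l 161296220695) (l 16803424))) (a (b (l 161296214999) (l 16802032)) (l 16792776))) (b (l 16831680) (l 16791264)))) (b (a (a (l 16852944) (l 16792592)) (l 16806304)) (l 16813968))) (b (b (a (b (l 16830808) (l 16789968)) (l 16801904)) (l 16809824)) (a (l 16828992) (l 16846208)))) (a (b (b (l 16824072) (l 16842944)) (l 16872264)) (b (l 16869304) (l 16907048)))) (a (b (a (a (l 16834920) (l 16852088)) (l 16877576)) (a (l 16883496) (l 16916480))) (b (a (l 16911192) (l 16943984)) (a (l 16948328) (l 16979048)))))), by decide +kernel⟩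

def k1_pm_101 : ∃ t, chk3 f_pm_101 t 5 2 1 = true :=
  ⟨(b (a (b (l 1) (a (b (l 1) (l 16871704)) (l 1))) (l 1)) (a (b (b (a (l 16906496) (l 16945728)) (a (l 16941776) (l 16977208))) (a (b (l 16976360) (l 17008992)) (b (l 17008520) (l 17038384)))) (b (a (b (l 1) (l 17013376)) (l 1)) (a (b (l 17040056) (l 17066048)) (b (l 17071080) (l 17091784)))))), by decide +kernel⟩

def k2_pm_101 : ∃ t, chk3 f_pm_101 t 2 6 1 = true :=
  ⟨(a (a (b (a (b (l 16921624) (l 16956904)) (b (l 16952960) (l 16986488))) (b (a (l 16988984) (l 17016472)) (a (a (l 17011600) (l 17023632)) (l 17041928)))) (a (b (b (l 16983008) (l 17014736)) (b (l 17042864) (l 17066000))) (b (b (l 17011656) (l 17041408)) (b (l 17067632) (l 17088768))))) (b (b (a (a (l 17039208) (l 17065808)) (a (l 17090304) (l 17111584))) (a (a (l 17066640) (l 17090512)) (a (l 17111848) (l 17129536)))) (a (b (a (l 17090704) (l 17111992)) (a (b (l 17105536) (l 17113528)) (b (l 17125040) (l 17131824)))) (a (b (l 17130320) (b (l 17141272) (b (l 17145496)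 (l 17147808)))) (b (l 17144472) (b (l 17152712) (l 17157080))))))), by decide +kernel⟩

def k3_pm_101 : ∃ t, chk3 f_pm_101 t 2 7 1 = true :=
  ⟨(a (b (a (a (b (b (l 17037416) (c (l 17081624) (l 17020472))) (b (l 17063504) (l 17074488))) (b (b (l 17058400) (a (l 17063216) (l 17072680))) (b (l 17077640) (l 17085968)))) (a (b (b (l 17079880) (l 17087776)) (c (l 17132824) (l 17063688))) (b (b (c (l 17132824) (l 17068008)) (l 17107224)) (c (l 17149552) (l 17080464))))) (a (a (b (b (l 17084232) (l 17092472)) (b (b (l 17098504) (l 17110056)) (l 17143168))) (b (b (l 17093096) (l 17098840)) (b (b (l 17103352) (l 17113616)) (l 17137920)))) (b (a (b (l 17106184) (l 17109776)) (c (l 17156768) (l 17085272))) (b (a (b (l 17112640) (l 17120656)) (b (b (l 17122280) (l 17123640)) (l 17128048))) (a (l 17137352) (l 17137800)))))) (b (a (b (a (b (l 17119904) (l 17125120)) (l 17139160)) (a (l 17151512) (l 17143592))) (a (b (l 17151872) (l 17153072)) (b (c (l 17189832) (l 17129480)) (c (l 17188248) (l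 17126928))))) (a (b (a (c (l 17167592) (l 17097736)) (b (l 17142976) (l 17140568))) (b (a (b (b (l 17131584) (l 17132168)) (l 17133576)) (b (l 17137792) (l 17136120))) (a (l 17136920) (l 17133520)))) (a (b (b (l 17149640) (b (l 17146448) (l 17143600))) (b (a (l 17137744) (l 17136768)) (l 17126944))) (b (b (l 17151440) (b (l 17146688) (c (l 17172384) (l 17154384)))) (b (l 17132896) (l 17116184))))))), by decide +kernel⟩

def k4_pm_101 : ∃ t, chk3 f_pm_101 t 3 2 1 = true :=
  ⟨(a (b (l 1) (a (b (l 1) (a (b (l 1) (l 17115992)) (l 1))) (l 1))) (l 1)), by decide +kernel⟩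

def k5_pm_101 : ∃ t, chk3 f_pm_101 t 6 3 1 = true :=
  ⟨(b (b (b (a (a (l 17129912) (l 17145656)) (l 1)) (a (a (l 17142800) (l 17152040)) (a (l 17157336) (l 1)))) (a (b (a (l 17153600) (l 17157088)) (b (a (b (l 17158200) (l 17159840)) (b (l 17158648) (l 17159432))) (a (l 17161336) (l 17159680)))) (a (b (b (l 17155488) (l 17153728)) (b (b (l 17152992) (l 17152448)) (l 17151416))) (b (b (l 1) (b (l 1) (l 17141968))) (b (l 17139960) (l 17135808)))))) (b (a (b (a (b (l 17161992) (l 17161032)) (b (l 17158640) (l 17155952))) (a (a (l 17157256) (l 17155024)) (b (l 17151488) (l 17145024)))) (b (a (b (l 17148536) (l 17143968)) (b (l 17130736) (l 17124136))) (a (a (l 17137960) (l 17128592)) (a (l 17117088) (l 17103352))))) (b (b (a (a (l 17147288) (l 17136392)) (a (l 17118136) (l 17091536))) (a (a (b (l 17140928) (b (l 17137280) (l 17134312))) (b (l 17128344) (b (l 17123448) (l 17119864)))) (a (b (l 17108264) (a (l 17106400) (l 17093768))) (b (l 17079680) (a (l 17078904) (l 17061688))))))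 (a (b (a (l 17122496) (a (l 17110352) (l 17100152))) (a (l 17100344) (l 17078760))) (b (a (a (l 17088168) (l 17074368)) (a (l 17058544) (l 17040616))) (a (l 17051024) (a (l 17025688) (l 17006576)))))))), by decide +kernel⟩

def k6_pm_101 : ∃ t, chk3 f_pm_101 t 7 3 1 = true :=
  ⟨(b (a (b (l 1) (b (l 1) (a (b (l 1) (l 17113272)) (l 1)))) (l 1)) (b (a (b (a (b (l 17105544) (l 17096272)) (b (l 1) (l 17062168))) (a (b (l 17085264) (l 17072040)) (b (l 17048232) (l 17031960)))) (b (l 1) (a (b (l 1) (a (l 16997568) (l 1))) (l 1)))) (a (b (b (a (l 17056112) (l 17012984)) (a (b (l 17042088) (a (l 17042224) (l 17020752))) (b (a (l 17008416) (l 16983600)) (a (l 16997448) (l 16972400))))) (a (b (a (l 17020720) (l 16999096)) (a (l 16985744) (l 16963464))) (b (a (l 16975944) (l 16951376)) (a (l 16939944) (b (l 16925256) (l 16904640)))))) (b (b (a (a (l 16975992) (l 16950136)) (l 1)) (a (b (a (l 16957072) (l 16929120)) (a (l 16945784) (l 16917688))) (b (l 1) (a (l 16888760) (l 1))))) (a (b (a (b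 (l 16932760) (l 16917544)) (b (l 16905584) (l 16890896))) (b (a (l 16899728) (l 16873464)) (a (l 16879144) (a (l 16859608) (l 16846504))))) (b (a (b (l 68753216743) (a (l 16870368) (l 6))) (b (l 1) (l 6))) (a (a (b (l 16853392) (l 16833376)) (l 6)) (l 6)))))))), by decide +kernel⟩

theorem s7_pm_101 : ∃ t, chk3 f_pm_101 t 3 3 1 = true := ex3_a k5_pm_101 k6_pm_101

theorem s8_pm_101 : ∃ t, chk3 f_pm_101 t 3 1 1 = true := ex3_b k4_pm_101 s7_pm_101

theorem s9_pm_101 : ∃ t, chk3 f_pm_101 t 2 3 1 = true := ex3_b k2_pm_101 k3_pm_101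

theorem s10_pm_101 : ∃ t, chk3 f_pm_101 t 2 2 1 = true := ex3_a k0_pm_101 k1_pm_101

theorem s11_pm_101 : ∃ t, chk3 f_pm_101 t 2 1 1 = true := ex3_b s10_pm_101 s9_pm_101

theorem s12_pm_101 : ∃ t, chk3 f_pm_101 t 1 1 1 = true := ex3_a s11_pm_101 s8_pm_101

theorem c_pm_101 : CertN 536870912 536870912 536870912 536870912 335544320 67108864 3 false true false .npn 1 0 1
    ndN0q1 ndN0q1 pcN0 cut_pm_101 Ext.none :=
  certN0 (fam := false) (s1 := true) (s2 := false) (a := 1) (b := 0) (c := 1) (cn := .npn) (n1 := ndN0q1) (n2 := ndN0q1) (pc := pcN0) (cut := cut_pm_101) (xt := Ext.none) (P1 := 536870912) (W1 := 536870912) (P2 := 536870912) (W2 := 536870912) (P3 := 335544320) (W3 := 67108864) (N0 := 3)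
    rfl s12_pm_101

noncomputable def cut_pm_102 : Cut := Cut.of [[⟨0, 1, 0, 67108864⟩, ⟨1, 0, 0, 67108864⟩, ⟨2, 1, 0, 67108864⟩]]

noncomputable def f_pm_102 : ℕ → ℕ → ℕ → ℕ → Bool := onCell 536870912 536870912 0 536870912 335544320 67108864
    (rowN 3 0 false true false .npp 1 0 2 (qsf 536870912 536870912 0 536870912 0) ndN0q1 ndN0q2 pcN0 cut_pm_102 Ext.none)

def k0_pm_102 : ∃ t, chk3 f_pm_102 t 4 2 1 = true :=
  ⟨(b (l 2) (a (l 2) (b (l 2) (a (l 2) (l 16974800))))), by decide +kernel⟩

def k1_pm_102 : ∃ t, chk3 f_pm_102 t 10 2 1 = true :=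
  ⟨(b (b (a (a (l 2) (l 3)) (l 3)) (a (a (l 2) (b (a (l 2) (b (l 82309084871) (l 50096833031))) (l 16833408))) (b (a (b (l 3) (a (b (l 78550988839) (l 54391795879)) (b (l 3) (l 79087859367)))) (l 3)) (a (b (a (l 16818472) (b (l 56002408855) (l 16815472))) (l 16826160)) (b (a (b (l 80161600807) (l 57613021463)) (b (l 3) (l 81235342231))) (a (l 16817288) (b (a (l 16811360) (l 62981733511)) (l 16814344)))))))) (b (a (b (a (l 16874504) (l 16859160)) (l 16895032)) (b (a (l 16844296) (b (l 16824680) (l 16836224))) (a (l 16870856) (l 16855224)))) (a (b (l 16924600) (l 16955112)) (b (l 16890632) (l 16919664))))), by decide +kernel⟩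

def k2_pm_102 : ∃ t, chk3 f_pm_102 t 11 4 1 = true :=
  ⟨(b (l 3) (a (b (l 3) (a (b (l 3) (a (b (a (l 79624729527) (l 3)) (a (l 16810880) (l 70497925543))) (b (l 3) (a (l 81235341783) (l 3))))) (l 3))) (l 3))), by decide +kernel⟩

def k3_pm_102 : ∃ t, chk3 f_pm_102 t 22 10 1 = true :=
  ⟨(b (a (b (a (l 16815984) (b (a (l 56002402871) (b (l 79087858311) (l 59760497783))) (l 16813112))) (l 16823032)) (b (a (b (a (l 82845954039) (l 3)) (a (c (l 59223638919) (l 58149884103)) (b (l 81235341383) (a (l 16809264) (l 65666085991))))) (b (l 3) (a (b (l 3) (l 82309082935)) (l 3)))) (a (b (l 16812464) (l 16816800)) (b (a (b (a (l 16809016) (l 73182278375)) (l 16810152)) (b (l 84993437223) (a (l 60297365959) (b (l 80698470279) (l 63518590855))))) (a (l 16812960) (l 16810720)))))) (a (l 16840336) (b (a (l 16824336) (l 16818336)) (l 16832136)))), by decide +kernel⟩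

def k4_pm_102 : ∃ t, chk3 f_pm_102 t 23 20 1 = true :=
  ⟨(c (a (b (l 3) (a (b (l 89288410391) (a (b (l 73719156039) (l 16813168)) (b (l 86604055959) (l 75866639207)))) (l 3))) (l 3)) (a (b (l 3) (a (b (a (l 86604043143) (l 3)) (a (b (a (l 61907977207) (l 74256012695)) (l 16805984)) (b (l 85530301127) (a (b (l 72645400087) (l 16805136)) (b (l 84456559431) (a (l 64055459639) (l 78014108791))))))) (l 3))) (l 3))), by decide +kernel⟩

def k5_pm_102 : ∃ t, chk3 f_pm_102 t 46 21 1 = true :=
  ⟨(b (a (b (a (l 16812240) (c (l 16813736) (b (a (l 16806144) (l 16805336)) (l 16807232)))) (l 16815152)) (b (a (c (b (a (l 66202962903) (l 80698476295)) (l 59223635879)) (c (b (b (l 79624724583) (a (l 16806624) (l 77477241111))) (a (l 16807656) (l 59760498663))) (b (a (b (a (l 65666074743) (l 79087847143)) (l 59223620855)) (b (l 3) (b (l 80161588871) (a (l 61907975239) (l 78550976199))))) (a (l 16804104) (b (a (l 16803256) (b (a (l 16802896) (l 64592329575)) (l 16803072))) (l 16803664)))))) (b (l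 3) (a (b (c (l 75866638183) (c (a (l 73719144743) (l 76940369751)) (a (c (b (l 79624719591) (l 64055461847)) (b (a (b (l 83382812679) (l 74792876583)) (l 3)) (a (l 16802008) (b (a (l 65666071079) (l 79087845415)) (l 60297362103))))) (b (l 3) (a (b (l 3) (c (l 76940365095) (a (b (l 78014101975) (l 62444845607)) (a (b (l 3) (b (l 82309069239) (l 72645392871))) (l 82309070839))))) (l 3)))))) (c (l 64592344199) (a (l 16804848) (b (c (l 66739820087) (c (a (l 16803624) (l 69961041495)) (a (b (a (l 16801936) (b (c (l 67813556343) (a (l 16801448) (a (l 62444845559) (b (a (l 73719134663) (l 74792876471)) (l 16801416))))) (l 16801896))) (l 16802008)) (b (a (a (b (c (l 74256007175) (b (l 3) (l 71571650967))) (l 16801816)) (b (l 3) (l 69424167271))) (l 77477232439)) (l 54391781815))))) (l 16804576))))) (b (l 3) (c (l 75329766103) (c (l 74792885367) (a (a (b (c (l 76403493671) (l 75866619479)) (l 53854910711)) (b (l 3) (l 71034782711))) (l 79624716711)))))))) (a (l 16811504) (b (a (c (l 16812544)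 (l 16805496)) (c (l 54391794823) (a (l 16804632) (c (l 63518593175) (a (l 51707426759) (l 65129202647)))))) (l 16809760))))) (a (l 16822368) (l 16815968))), by decide +kernel⟩

def k6_pm_102 : ∃ t, chk3 f_pm_102 t 47 21 1 = true :=
  ⟨(b (c (a (b (l 3) (a (b (l 74792892935) (l 54391793655)) (l 78550985815))) (l 3)) (a (c (b (l 3) (a (b (b (l 78014108711) (l 66739820007)) (l 53318044775)) (l 78014106135))) (b (l 3) (a (b (a (b (l 75329748615) (l 55465522439)) (l 79624714695)) (l 52781167847)) (b (l 3) (l 74792874903))))) (l 3))) (a (a (l 16810856) (b (a (l 16806776) (c (l 64055466967) (l 62444843095))) (l 16809360))) (b (a (c (l 72108532839) (b (l 75866617191) (l 54928648567))) (l 81772199943)) (a (l 16806080) (b (l 56539261607) (l 16803792)))))), by decide +kernel⟩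

def k7_pm_102 : ∃ t, chk3 f_pm_102 t 11 11 1 = true :=
  ⟨(a (b (a (l 16866088) (l 16850440)) (l 16885096)) (b (a (b (l 16829352) (l 16840816)) (b (a (l 16817776) (l 16810248)) (l 16824192))) (a (l 16859448) (l 16841920)))), by decide +kernel⟩

def k8_pm_102 : ∃ t, chk3 f_pm_102 t 2 3 1 = true :=
  ⟨(a (b (a (l 2) (b (a (l 2) (l 17060504)) (b (a (a (l 2) (l 17157656)) (l 17088176)) (a (l 17133952) (b (a (l 17115600) (l 17100768)) (l 17108880)))))) (b (b (a (l 431209018551) (a (l 17149856) (l 17138352))) (a (l 17264264) (l 17177360))) (a (b (a (l 17233432) (l 17198104)) (a (l 17187040) (l 17168048))) (b (a (l 17169872) (l 17144688)) (a (l 17154760) (l 17143376)))))) (b (a (b (a (l 17002544) (b (l 16949728) (l 16980488))) (a (b (l 17050400) (b (l 17073608) (a (l 17090568) (l 17076360)))) (b (l 17011528) (l 17125120)))) (b (a (b (l 16913424) (l 16942672)) (b (l 16876920) (l 16904840))) (a (l 16988072) (b (l 16933800) (l 16964024))))) (b (a (b (a (l 17086520) (a (l 17064488) (l 17113632)))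 (l 17162472)) (b (b (a (l 17045520) (l 16987672)) (a (l 17030544) (l 17125560))) (l 17275168))) (a (b (a (l 17119848) (l 17094072)) (a (l 17131424) (l 17117688))) (b (a (l 17067048) (l 17038056)) (a (l 17101656) (l 17082456))))))), by decide +kernel⟩

def k9_pm_102 : ∃ t, chk3 f_pm_102 t 3 2 1 = true :=
  ⟨(a (b (l 3) (a (b (a (b (l 3) (a (b (l 3) (a (b (l 3) (a (l 73182263175) (l 83382807335))) (l 3))) (l 3))) (l 3)) (a (b (a (b (a (b (a (l 16803104) (l 64055452343)) (l 16805176)) (b (a (l 74792870247) (l 3)) (l 55465518743))) (a (l 16812152) (l 16804472))) (b (a (b (l 3) (l 80698464487)) (l 3)) (a (b (l 65129191831) (l 16799344)) (b (l 79624696855) (l 66739801879))))) (a (l 16824784) (b (a (l 16806664) (l 16798808)) (l 16813784)))) (b (a (b (l 3) (a (b (l 3) (l 87140885719)) (l 3))) (l 3)) (a (b (a (b (l 66202919799) (l 16793608)) (b (l 3) (l 66739795207))) (a (l 16801360) (l 16793312))) (b (l 3) (a (b (l 72645380551) (l 16788032)) (l 111836976215))))))) (l 3))) (l 3)), by decide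 +kernel⟩

def k10_pm_102 : ∃ t, chk3 f_pm_102 t 6 3 1 = true :=
  ⟨(b (a (b (a (b (a (l 16850008) (l 16832408)) (a (l 16877104) (l 16858904))) (b (a (b (l 16808880) (l 16821352)) (b (a (l 16796320) (l 16777600)) (l 16804240))) (a (l 16840984) (l 16823384)))) (a (l 16910720) (b (l 16858992) (l 16887376)))) (b (a (b (a (b (a (b (l 99488896839) (l 16782752)) (l 120963738535)) (a (l 16791680) (l 78014085687))) (b (l 3) (a (b (l 135996114631) (l 105931371063)) (l 3)))) (a (b (l 16799896) (l 16812576)) (b (a (l 16787880) (b (l 98952023639) (l 16783672))) (l 16796328)))) (b (l 3) (a (b (a (b (l 3) (l 109689442903)) (l 3)) (a (l 76940350279) (b (l 122574343783) (l 98415176567)))) (b (l 3) (a (l 133848649447) (l 3)))))) (a (b (a (l 16832360) (l 16815528)) (l 16851016)) (b (a (b (a (l 16796960) (l 16789168)) (l 16805504)) (b (a (b (l 89288369495) (l 16784784)) (b (l 140291080423) (a (l 99488912919) (l 118279376279)))) (a (l 16793600) (b (l 16791840) (l 16788856))))) (a (l 16825032) (b (l 16802032)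 (l 16814792))))))) (b (a (b (a (l 16955504) (l 16917536)) (a (a (l 16983952) (l 17010616)) (b (l 17023496) (l 16948576)))) (a (b (l 16879712) (l 16949080)) (b (l 16843464) (l 16872040)))) (a (b (a (l 17006344) (l 16971368)) (a (l 17059240) (b (l 17015656) (l 17047128)))) (b (a (l 17057656) (a (l 17006392) (l 17009816))) (a (b (l 16981448) (l 17015696)) (b (l 16942184) (l 16978376))))))), by decide +kernel⟩

def k11_pm_102 : ∃ t, chk3 f_pm_102 t 7 6 1 = true :=
  ⟨(a (b (l 3) (a (b (a (b (l 3) (a (b (a (l 96804560327) (l 135459243799)) (l 87140887895)) (b (l 3) (a (l 112373795975) (l 3))))) (l 3)) (a (b (a (l 16790224) (b (a (l 16782024) (l 93046453735)) (l 16785568))) (l 16798568)) (b (a (b (l 132774908167) (a (l 91972719783) (b (l 135996114567) (l 95193926343)))) (l 3)) (a (b (a (l 16785712) (l 16782288)) (l 16789760)) (b (a (b (l 105931344455) (l 16785432)) (l 126869318919)) (a (l 16784104) (l 90898977655))))))) (b (l 3) (a (b (l 3) (a (b (l 3) (a (b (l 132238017719) (l 91972711479))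 (l 144049175511))) (l 3))) (l 3))))) (l 3)), by decide +kernel⟩

def k12_pm_102 : ∃ t, chk3 f_pm_102 t 14 14 1 = true :=
  ⟨(a (b (a (l 16817840) (b (a (l 16799024) (l 16791008)) (l 16807568))) (a (l 16844976) (l 16827400))) (b (a (b (a (b (a (l 16782440) (b (l 102173257991) (l 16785528))) (l 16786080)) (b (a (b (l 3) (l 113984417735)) (l 3)) (a (b (l 98952035911) (l 16782032)) (b (l 129553673095) (a (l 16784656) (l 103246999431)))))) (a (l 16795264) (b (a (l 16786160) (l 16782472)) (l 16790216)))) (b (a (b (l 3) (a (l 142975443543) (l 3))) (l 3)) (a (b (a (b (a (l 103246999495) (l 120426857671)) (l 87677747559)) (b (l 3) (a (l 102710128423) (l 142438563943)))) (a (l 16784232) (b (l 100025777079) (l 16781976)))) (b (l 3) (a (b (a (l 120426867831) (l 3)) (a (l 90362098231) (b (l 127943050151) (l 104857609527)))) (l 142975442839)))))) (a (b (l 16803672) (l 16816616)) (b (a (b (l 16788216) (l 16794344)) (b (a (b (l 16781040) (l 16783712)) (b (a (l 105394482151) (l 120963733175)) (a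 (l 16780992) (l 91972710583)))) (a (l 16788200) (l 16784144)))) (a (l 16803792) (l 16795384)))))), by decide +kernel⟩

def k13_pm_102 : ∃ t, chk3 f_pm_102 t 15 14 1 = true :=
  ⟨(a (b (l 3) (a (b (a (b (a (b (l 3) (a (b (l 129553662551) (l 107005092599)) (l 144586046871))) (l 3)) (a (b (a (l 16780016) (b (l 102173251799) (l 16784104))) (l 16781776)) (b (a (l 125258702727) (l 3)) (a (l 97341419079) (b (l 131701145815) (l 109689446519)))))) (b (l 3) (a (b (l 3) (l 146196668775)) (l 3)))) (a (b (a (l 16786096) (b (a (l 16781704) (l 16779856)) (l 16783512))) (l 16790112)) (b (a (b (a (b (a (l 107005090839) (l 126869307863)) (l 95193933239)) (b (l 3) (l 120963733047))) (a (l 16780688) (b (l 104320737783) (l 16779496)))) (b (l 3) (a (b (l 135996123175) (a (l 100025769175) (l 112910669623))) (l 3)))) (a (l 16783928) (b (a (l 88214614471) (b (a (l 112910670151) (l 135996112935)) (l 99488899943))) (l 16786664)))))) (b (l 3) (a (b (l 3) (a (b (a (b (l 3) (l 125258699911)) (l 3)) (a (b (a (l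 16781008) (l 100025767767)) (l 16779264)) (b (l 141901702759) (a (l 105931348567) (l 119889991031))))) (l 3))) (l 3))))) (l 3)), by decide +kernel⟩

def k14_pm_102 : ∃ t, chk3 f_pm_102 t 7 15 1 = true :=
  ⟨(a (b (a (a (l 16972928) (l 16956320)) (a (b (l 16830056) (l 16842168)) (b (l 16812392) (l 16825752)))) (a (b (l 16897840) (a (l 16946248) (l 16923328))) (a (b (l 16861136) (l 16899432)) (b (l 16901624) (b (l 16865312) (l 16883984)))))) (b (a (a (b (a (l 16799464) (b (a (l 16789984) (l 16785824)) (l 16794040))) (l 16807904)) (b (a (b (a (b (a (l 16781296) (b (l 94657061927) (l 16780080))) (l 16783176)) (b (c (a (b (a (l 107541955383) (l 151028498231)) (l 104320735911)) (l 139217342743)) (a (b (l 115058151319) (l 103246994119)) (l 138143600391))) (a (l 16785456) (b (a (l 100025768807) (b (l 134922371079) (l 112910668599))) (l 16781600))))) (a (l 16787712) (b (l 16782024) (l 16785024)))) (b (a (b (l 3) (a (b (l 3) (a (b (l 109689443911) (l 99488896663)) (l 131701150615))) (l 3)))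 (l 3)) (a (b (a (b (a (l 16778904) (l 103246993847)) (l 16779784)) (b (a (b (l 142975434519) (l 102710122151)) (l 3)) (a (l 91435834375) (b (l 118816249159) (l 104857605303))))) (a (l 16781888) (b (l 16781840) (l 16780592)))) (b (a (c (l 145659793191) (l 145122921735)) (l 3)) (a (b (a (b (l 114521281239) (l 16780728)) (b (l 3) (l 109689442439))) (a (l 16779136) (l 98415155975))) (b (l 3) (a (b (l 126869312567) (l 110763184855)) (l 145122922903)))))))) (a (b (l 16791720) (l 16797968)) (b (a (l 16785352) (b (a (l 16780712) (b (a (l 16781176) (l 6)) (l 6))) (l 6))) (a (l 16791472) (l 6)))))) (b (l 3) (l 6))) (a (b (a (a (l 16844736) (l 16835920)) (a (l 16827432) (l 6))) (a (b (l 16840120) (l 16858584)) (l 6))) (l 6)))), by decide +kernel⟩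

theorem s15_pm_102 : ∃ t, chk3 f_pm_102 t 7 14 1 = true := ex3_a k12_pm_102 k13_pm_102

theorem s16_pm_102 : ∃ t, chk3 f_pm_102 t 7 7 1 = true := ex3_b s15_pm_102 k14_pm_102

theorem s17_pm_102 : ∃ t, chk3 f_pm_102 t 7 3 1 = true := ex3_b k11_pm_102 s16_pm_102

theorem s18_pm_102 : ∃ t, chk3 f_pm_102 t 3 3 1 = true := ex3_a k10_pm_102 s17_pm_102

theorem s19_pm_102 : ∃ t, chk3 f_pm_102 t 3 1 1 = true := ex3_b k9_pm_102 s18_pm_102

theorem s20_pm_102 : ∃ t, chk3 f_pm_102 t 23 21 1 = true := ex3_a k5_pm_102 k6_pm_102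

theorem s21_pm_102 : ∃ t, chk3 f_pm_102 t 23 10 1 = true := ex3_b k4_pm_102 s20_pm_102

theorem s22_pm_102 : ∃ t, chk3 f_pm_102 t 11 10 1 = true := ex3_a k3_pm_102 s21_pm_102

theorem s23_pm_102 : ∃ t, chk3 f_pm_102 t 11 5 1 = true := ex3_b s22_pm_102 k7_pm_102

theorem s24_pm_102 : ∃ t, chk3 f_pm_102 t 11 2 1 = true := ex3_b k2_pm_102 s23_pm_102

theorem s25_pm_102 : ∃ t, chk3 f_pm_102 t 5 2 1 = true := ex3_a k1_pm_102 s24_pm_102

theorem s26_pm_102 : ∃ t, chk3 f_pm_102 t 2 2 1 = true := ex3_a k0_pm_102 s25_pm_102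

theorem s27_pm_102 : ∃ t, chk3 f_pm_102 t 2 1 1 = true := ex3_b s26_pm_102 k8_pm_102

theorem s28_pm_102 : ∃ t, chk3 f_pm_102 t 1 1 1 = true := ex3_a s27_pm_102 s19_pm_102

theorem c_pm_102 : CertN 536870912 536870912 0 536870912 335544320 67108864 3 false true false .npp 1 0 2
    ndN0q1 ndN0q2 pcN0 cut_pm_102 Ext.none :=
  certN0 (fam := false) (s1 := true) (s2 := false) (a := 1) (b := 0) (c := 2) (cn := .npp) (n1 := ndN0q1) (n2 := ndN0q2) (pc := pcN0) (cut := cut_pm_102) (xt := Ext.none) (P1 := 536870912) (W1 := 536870912) (P2 := 0) (W2 := 536870912) (P3 := 335544320) (W3 := 67108864) (N0 := 3)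
    rfl s28_pm_102

noncomputable def f_pm_112 : ℕ → ℕ → ℕ → ℕ → Bool := onCell 536870912 536870912 0 536870912 335544320 67108864
    (rowN 3 0 false true false .dn 1 1 2 (qsf 536870912 536870912 0 536870912 1) ndN0q1 ndN0q2 pcN1 Cut.none Ext.none)

def k0_pm_112 : ∃ t, chk3 f_pm_112 t 1 1 1 = true :=
  ⟨(a (b (a (b (a (b (a (b (l 16844240) (l 16897704)) (a (l 16833080) (b (l 16828000) (l 16852744)))) (a (l 16907336) (l 16844856))) (b (a (b (a (b (l 16814352) (l 16822392)) (b (l 83919699991) (l 16814072))) (a (l 16838680) (l 16826664))) (b (a (b (l 3) (l 84993441559)) (l 3)) (a (b (l 16813664) (l 16821152)) (b (a (l 81772216647) (l 90899020791)) (l 73719169367))))) (b (a (l 16858256) (a (l 16837184) (l 16825304))) (a (l 16888824) (l 16835928))))) (a (b (a (l 17016336) (l 16953376)) (l 17055848)) (b (a (l 16937328) (l 16902784)) (a (l 17001080) (l 16967016))))) (a (a (b (b (b (l 3) (a (b (l 3) (a (l 83382828791) (l 94120246055))) (l 3))) (b (a (a (l 16817880) (l 75329776487)) (b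 (a (l 85530311735) (l 97341471335)) (l 151968110375))) (a (l 16835544) (l 16823104)))) (b (b (l 16791720) (l 16884728)) (l 16933456))) (b (b (l 1) (l 1)) (l 1))) (l 1))) (a (b (a (b (a (b (l 17117272) (a (l 17153880) (l 17134656))) (l 17094728)) (a (a (l 17247624) (l 17209512)) (l 17356400))) (b (l 17066800) (a (l 17170056) (l 17097920)))) (b (a (a (b (l 17182456) (l 17166776)) (l 17167040)) (l 99355667671)) (a (a (b (l 17165040) (l 17174184)) (b (l 17169616) (l 1))) (l 1)))) (b (l 1) (l 1)))) (l 1)), by decide +kernel⟩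

theorem c_pm_112 : CertN 536870912 536870912 0 536870912 335544320 67108864 3 false true false .dn 1 1 2
    ndN0q1 ndN0q2 pcN1 Cut.none Ext.none :=
  certN0 (fam := false) (s1 := true) (s2 := false) (a := 1) (b := 1) (c := 2) (cn := .dn) (n1 := ndN0q1) (n2 := ndN0q2) (pc := pcN1) (cut := Cut.none) (xt := Ext.none) (P1 := 536870912) (W1 := 536870912) (P2 := 0) (W2 := 536870912) (P3 := 335544320) (W3 := 67108864) (N0 := 3)
    rfl k0_pm_112

noncomputable def cut_pm_202 : Cut := Cut.of [[⟨0, 1, 0, 67108864⟩, ⟨1, 0, 0, 67108864⟩, ⟨2, 1, 0, 67108864⟩]]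

noncomputable def f_pm_202 : ℕ → ℕ → ℕ → ℕ → Bool := onCell 0 536870912 0 536870912 335544320 67108864
    (rowN 3 0 false true false .pp 2 0 2 (qsf 0 536870912 0 536870912 0) ndN0q2 ndN0q2 pcN0 cut_pm_202 Ext.none)

def k0_pm_202 : ∃ t, chk3 f_pm_202 t 1 1 1 = true :=
  ⟨(a (l 3) (b (l 3) (b (l 3) (a (l 3) (b (l 3) (a (l 3) (l 6))))))), by decide +kernel⟩

theorem c_pm_202 : CertN 0 536870912 0 536870912 335544320 67108864 3 false true false .pp 2 0 2
    ndN0q2 ndN0q2 pcN0 cut_pm_202 Ext.none :=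
  certN0 (fam := false) (s1 := true) (s2 := false) (a := 2) (b := 0) (c := 2) (cn := .pp) (n1 := ndN0q2) (n2 := ndN0q2) (pc := pcN0) (cut := cut_pm_202) (xt := Ext.none) (P1 := 0) (W1 := 536870912) (P2 := 0) (W2 := 536870912) (P3 := 335544320) (W3 := 67108864) (N0 := 3)
    rfl k0_pm_202

noncomputable def f_mm_001 : ℕ → ℕ → ℕ → ℕ → Bool := onCell 0 536870912 0 536870912 335544320 67108864
    (rowN 3 1 false false false .up 0 0 1 (qsf 0 536870912 536870912 536870912 0) ndN0q0 ndN0q1 pcN0 Cut.none Ext.none)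

def k0_mm_001 : ∃ t, chk3 f_mm_001 t 1 1 1 = true :=
  ⟨(l 3), by decide +kernel⟩

theorem c_mm_001 : CertN 0 536870912 536870912 536870912 335544320 67108864 3 false false false .up 0 0 1
    ndN0q0 ndN0q1 pcN0 Cut.none Ext.none :=
  certN1 (fam := false) (s1 := false) (s2 := false) (a := 0) (b := 0) (c := 1) (cn := .up) (n1 := ndN0q0) (n2 := ndN0q1) (pc := pcN0) (cut := Cut.none) (xt := Ext.none) (P1 := 0) (W1 := 536870912) (P2 := 536870912) (W2 := 536870912) (P3 := 335544320) (W3 := 67108864) (N0 := 3)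
    rfl (fun _ => rfl) k0_mm_001

noncomputable def f_mm_011 : ℕ → ℕ → ℕ → ℕ → Bool := onCell 0 536870912 536870912 536870912 335544320 67108864
    (rowN 3 1 false false false .pnn 0 1 1 (qsf 0 536870912 536870912 536870912 1) ndN0q0 ndN0q1 pcN1 Cut.none Ext.none)

def k0_mm_011 : ∃ t, chk3 f_mm_011 t 1 1 1 = true :=
  ⟨(l 5), by decide +kernel⟩

theorem c_mm_011 : CertN 0 536870912 536870912 536870912 335544320 67108864 3 false false false .pnn 0 1 1
    ndN0q0 ndN0q1 pcN1 Cut.none Ext.none :=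
  certN1 (fam := false) (s1 := false) (s2 := false) (a := 0) (b := 1) (c := 1) (cn := .pnn) (n1 := ndN0q0) (n2 := ndN0q1) (pc := pcN1) (cut := Cut.none) (xt := Ext.none) (P1 := 0) (W1 := 536870912) (P2 := 536870912) (W2 := 536870912) (P3 := 335544320) (W3 := 67108864) (N0 := 3)
    rfl (fun _ => rfl) k0_mm_011

noncomputable def f_mm_012 : ℕ → ℕ → ℕ → ℕ → Bool := onCell 0 536870912 0 536870912 335544320 67108864
    (rowN 3 0 false false false .pnp 0 1 2 (qsf 0 536870912 0 536870912 1) ndN0q0 ndN0q2 pcN1 Cut.none Ext.none)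

def k0_mm_012 : ∃ t, chk3 f_mm_012 t 1 1 1 = true :=
  ⟨(l 5), by decide +kernel⟩

theorem c_mm_012 : CertN 0 536870912 0 536870912 335544320 67108864 3 false false false .pnp 0 1 2
    ndN0q0 ndN0q2 pcN1 Cut.none Ext.none :=
  certN0 (fam := false) (s1 := false) (s2 := false) (a := 0) (b := 1) (c := 2) (cn := .pnp) (n1 := ndN0q0) (n2 := ndN0q2) (pc := pcN1) (cut := Cut.none) (xt := Ext.none) (P1 := 0) (W1 := 536870912) (P2 := 0) (W2 := 536870912) (P3 := 335544320) (W3 := 67108864) (N0 := 3)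
    rfl k0_mm_012

noncomputable def f_mm_022 : ℕ → ℕ → ℕ → ℕ → Bool := onCell 0 536870912 0 536870912 335544320 67108864
    (rowN 3 0 false false false .pp 0 2 2 (qsf 0 536870912 0 536870912 2) ndN0q0 ndN0q2 pcN2 Cut.none Ext.none)

def k0_mm_022 : ∃ t, chk3 f_mm_022 t 1 1 1 = true :=
  ⟨(l 5), by decide +kernel⟩

theorem c_mm_022 : CertN 0 536870912 0 536870912 335544320 67108864 3 false false false .pp 0 2 2
    ndN0q0 ndN0q2 pcN2 Cut.none Ext.none :=
  certN0 (fam := false) (s1 := false) (s2 := false) (a := 0) (b := 2) (c := 2) (cn := .pp) (n1 := ndN0q0) (n2 := ndN0q2) (pc := pcN2) (cut := Cut.none) (xt := Ext.none) (P1 := 0) (W1 := 536870912) (P2 := 0) (W2 := 536870912) (P3 := 335544320) (W3 := 67108864) (N0 := 3)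
    rfl k0_mm_022

noncomputable def f_mm_101 : ℕ → ℕ → ℕ → ℕ → Bool := onCell 536870912 536870912 536870912 536870912 335544320 67108864
    (rowN 3 0 false false false .npn 1 0 1 (qsf 536870912 536870912 536870912 536870912 0) ndN0q1 ndN0q1 pcN0 Cut.none Ext.none)

def k0_mm_101 : ∃ t, chk3 f_mm_101 t 1 1 1 = true :=
  ⟨(l 3), by decide +kernel⟩

theorem c_mm_101 : CertN 536870912 536870912 536870912 536870912 335544320 67108864 3 false false false .npn 1 0 1
    ndN0q1 ndN0q1 pcN0 Cut.none Ext.none :=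
  certN0 (fam := false) (s1 := false) (s2 := false) (a := 1) (b := 0) (c := 1) (cn := .npn) (n1 := ndN0q1) (n2 := ndN0q1) (pc := pcN0) (cut := Cut.none) (xt := Ext.none) (P1 := 536870912) (W1 := 536870912) (P2 := 536870912) (W2 := 536870912) (P3 := 335544320) (W3 := 67108864) (N0 := 3)
    rfl k0_mm_101

noncomputable def f_mm_102 : ℕ → ℕ → ℕ → ℕ → Bool := onCell 536870912 536870912 0 536870912 335544320 67108864
    (rowN 3 0 false false false .npp 1 0 2 (qsf 536870912 536870912 0 536870912 0) ndN0q1 ndN0q2 pcN0 Cut.none Ext.none)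

def k0_mm_102 : ∃ t, chk3 f_mm_102 t 1 1 1 = true :=
  ⟨(a (l 5) (l 3)), by decide +kernel⟩

theorem c_mm_102 : CertN 536870912 536870912 0 536870912 335544320 67108864 3 false false false .npp 1 0 2
    ndN0q1 ndN0q2 pcN0 Cut.none Ext.none :=
  certN0 (fam := false) (s1 := false) (s2 := false) (a := 1) (b := 0) (c := 2) (cn := .npp) (n1 := ndN0q1) (n2 := ndN0q2) (pc := pcN0) (cut := Cut.none) (xt := Ext.none) (P1 := 536870912) (W1 := 536870912) (P2 := 0) (W2 := 536870912) (P3 := 335544320) (W3 := 67108864) (N0 := 3)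
    rfl k0_mm_102

noncomputable def f_mm_112 : ℕ → ℕ → ℕ → ℕ → Bool := onCell 536870912 536870912 0 536870912 335544320 67108864
    (rowN 3 2 false false false .dn 1 1 2 (qsf 536870912 536870912 0 536870912 1) ndN0q1 ndN0q2 pcN1 Cut.none Ext.none)

def k0_mm_112 : ∃ t, chk3 f_mm_112 t 1 1 1 = true :=
  ⟨(l 5), by decide +kernel⟩

theorem c_mm_112 : CertN 536870912 536870912 0 536870912 335544320 67108864 3 false false false .dn 1 1 2
    ndN0q1 ndN0q2 pcN1 Cut.none Ext.none :=
  certN2 (fam := false) (s1 := false) (s2 := false) (a := 1) (b := 1) (c := 2) (cn := .dn) (n1 := ndN0q1) (n2 := ndN0q2) (pc := pcN1) (cut := Cut.none) (xt := Ext.none) (P1 := 536870912) (W1 := 536870912) (P2 := 0) (W2 := 536870912) (P3 := 335544320) (W3 := 67108864) (N0 := 3)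
    rfl (fun _ => rfl) k0_mm_112

noncomputable def f_mm_202 : ℕ → ℕ → ℕ → ℕ → Bool := onCell 0 536870912 0 536870912 335544320 67108864
    (rowN 3 0 false false false .pp 2 0 2 (qsf 0 536870912 0 536870912 0) ndN0q2 ndN0q2 pcN0 Cut.none Ext.none)

def k0_mm_202 : ∃ t, chk3 f_mm_202 t 1 1 1 = true :=
  ⟨(l 3), by decide +kernel⟩

theorem c_mm_202 : CertN 0 536870912 0 536870912 335544320 67108864 3 false false false .pp 2 0 2
    ndN0q2 ndN0q2 pcN0 Cut.none Ext.none :=
  certN0 (fam := false) (s1 := false) (s2 := false) (a := 2) (b := 0) (c := 2) (cn := .pp) (n1 := ndN0q2) (n2 := ndN0q2) (pc := pcN0) (cut := Cut.none) (xt := Ext.none) (P1 := 0) (W1 := 536870912) (P2 := 0) (W2 := 536870912) (P3 := 335544320) (W3 := 67108864) (N0 := 3)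
    rfl k0_mm_202

end Pool.Agent.Strip051.G.I5_16_3_8.Tab.C.NB00

namespace Pool.Agent.Strip051.G.I5_16_3_8.Tab.C.NB01

open Pool.Agent.Strip051.PB Pool.Agent.Strip051.PB.T
open Pool.Agent.Strip051.G.I5_16_3_8.Tab

noncomputable def f_pp_001 : ℕ → ℕ → ℕ → ℕ → Bool := onCell 0 536870912 536870912 536870912 335544320 67108864
    (rowN 3 0 false true true .up 0 0 1 (qsf 0 536870912 536870912 536870912 0) ndN0q0 ndN1q1 pcN0 Cut.none Ext.none)

def k0_pp_001 : ∃ t, chk3 f_pp_001 t 1 1 1 = true :=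
  ⟨(l 3), by decide +kernel⟩

theorem c_pp_001 : CertN 0 536870912 536870912 536870912 335544320 67108864 3 false true true .up 0 0 1
    ndN0q0 ndN1q1 pcN0 Cut.none Ext.none :=
  certN0 (fam := false) (s1 := true) (s2 := true) (a := 0) (b := 0) (c := 1) (cn := .up) (n1 := ndN0q0) (n2 := ndN1q1) (pc := pcN0) (cut := Cut.none) (xt := Ext.none) (P1 := 0) (W1 := 536870912) (P2 := 536870912) (W2 := 536870912) (P3 := 335544320) (W3 := 67108864) (N0 := 3)
    rfl k0_pp_001

noncomputable def f_pp_011 : ℕ → ℕ → ℕ → ℕ → Bool := onCell 0 536870912 536870912 536870912 335544320 67108864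
    (rowN 3 0 false true true .pnn 0 1 1 (qsf 0 536870912 536870912 536870912 1) ndN0q0 ndN1q1 pcN1 Cut.none Ext.none)

def k0_pp_011 : ∃ t, chk3 f_pp_011 t 1 1 1 = true :=
  ⟨(l 3), by decide +kernel⟩

theorem c_pp_011 : CertN 0 536870912 536870912 536870912 335544320 67108864 3 false true true .pnn 0 1 1
    ndN0q0 ndN1q1 pcN1 Cut.none Ext.none :=
  certN0 (fam := false) (s1 := true) (s2 := true) (a := 0) (b := 1) (c := 1) (cn := .pnn) (n1 := ndN0q0) (n2 := ndN1q1) (pc := pcN1) (cut := Cut.none) (xt := Ext.none) (P1 := 0) (W1 := 536870912) (P2 := 536870912) (W2 := 536870912) (P3 := 335544320) (W3 := 67108864) (N0 := 3)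
    rfl k0_pp_011

noncomputable def cut_pp_012_a : Cut := Cut.of [[⟨0, 0, 0, 67108864⟩, ⟨1, 1, 0, 67108864⟩, ⟨2, 1, 0, 67108864⟩]]

noncomputable def f_pp_012_a : ℕ → ℕ → ℕ → ℕ → Bool := onCell 536870912 536870912 0 536870912 335544320 67108864
    (rowN 3 2 false true true .pnp 0 1 2 (qsf 0 536870912 0 536870912 1) ndN0q0 ndN1q2a pcN1 cut_pp_012_a Ext.none)

def k0_pp_012_a : ∃ t, chk3 f_pp_012_a t 2 1 1 = true :=
  ⟨(l 3), by decide +kernel⟩

def k1_pp_012_a : ∃ t, chk3 f_pp_012_a t 6 1 1 = true :=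
  ⟨(b (a (l 3) (b (a (l 3) (b (a (b (l 34527577383) (l 3)) (b (l 16790776) (a (l 40969996967) (l 16779408)))) (l 3))) (l 3))) (l 3)), by decide +kernel⟩

def k2_pp_012_a : ∃ t, chk3 f_pp_012_a t 14 2 1 = true :=
  ⟨(b (a (b (a (b (l 16745024) (l 16802192)) (l 16746000)) (a (b (a (l 37748763639) (l 16766808)) (a (l 3) (l 37748754007))) (b (l 16746328) (a (l 21642613671) (l 16752464))))) (b (a (l 16720936) (l 16698736)) (a (b (l 16720520) (l 16733224)) (l 16745296)))) (a (b (a (l 3) (b (a (l 33990658071) (b (l 16761464) (l 23253217559))) (a (l 3) (b (l 32916901079) (l 3))))) (l 3)) (b (a (b (a (l 16751488) (l 16739032)) (a (b (l 21642591735) (l 32916869495)) (b (l 16747648) (l 16753216)))) (b (l 16742288) (a (l 16738480) (l 16726952)))) (a (b (a (l 3) (b (c (l 16759808) (l 18958232887)) (c (l 28085053207) (l 29695659239)))) (l 3)) (b (a (b (l 16746752) (c (l 16753416) (l 16760984))) (b (l 16735176) (l 16740544))) (a (b (c (l 15737010919) (a (l 28621903143) (l 16752816))) (c (l 22179447863)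 (a (l 3) (l 25400676151)))) (b (c (l 16747104) (l 16744304)) (c (a (l 16755112) (l 16749496)) (a (l 20031957479) (l 16746704)))))))))), by decide +kernel⟩

def k3_pp_012_a : ∃ t, chk3 f_pp_012_a t 15 2 1 = true :=
  ⟨(b (a (b (b (l 16685280) (l 16697008)) (a (l 16703104) (l 16684048))) (b (a (l 16625328) (l 16611536)) (a (l 16666816) (b (l 16625520) (l 16635120))))) (c (a (b (a (b (l 16700392) (l 16711584)) (b (l 16680560) (l 16691344))) (a (b (l 16746048) (a (b (l 16735872) (l 16741128)) (l 16727704))) (b (l 16701944) (a (l 16717392) (l 16707560))))) (b (a (b (l 16662752) (l 16673096)) (b (l 16646832) (l 16656728))) (a (b (l 16683400) (a (l 16698200) (l 16689304))) (b (l 16666712) (a (l 16680864) (l 16672848)))))) (a (b (a (b (l 16698168) (l 16709088)) (b (l 16677992) (l 16688568))) (a (b (a (l 16725216) (l 16714448)) (a (b (l 16733152) (l 16738400)) (l 16724984))) (b (l 16699064) (a (l 16714584) (l 16704576))))) (b (a (b (l 16659512) (l 16669712)) (b (l 16642616) (l 16652424)))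 (a (b (l 16679960) (l 16700808)) (b (l 16662416) (a (l 16676904) (l 16668416)))))))), by decide +kernel⟩

def k4_pp_012_a : ∃ t, chk3 f_pp_012_a t 14 3 1 = true :=
  ⟨(b (a (l 3) (b (a (l 3) (b (a (l 3) (a (b (c (l 20568842551) (l 21642578599)) (l 3)) (b (c (l 16759800) (l 19495083335)) (c (l 16810744775) (b (l 20031958743) (l 3)))))) (l 3))) (l 3))) (l 3)), by decide +kernel⟩

def k5_pp_012_a : ∃ t, chk3 f_pp_012_a t 30 12 1 = true :=
  ⟨(a (b (a (b (c (l 16756824) (a (l 16746360) (l 16740904))) (c (a (l 15200123927) (l 16748792)) (a (b (l 16750248) (l 20568825319)) (l 16746144)))) (b (l 16744816) (c (l 16740784) (l 16738144)))) (a (a (b (c (l 13052647415) (b (l 15736990391) (l 3))) (l 3)) (b (c (l 15736994183) (b (l 16750040) (l 16273857607))) (c (l 17884484823) (b (l 24326924599) (l 3))))) (b (c (a (l 16748632) (l 16743392)) (a (b (l 16744752) (l 16747400)) (l 16740824))) (c (a (b (l 16752472) (l 16760088)) (b (l 16747328) (l 16749968))) (a (b (l 17347594775) (l 16273849703))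 (b (l 16744848) (l 16752784))))))) (b (a (b (l 16723976) (l 16729232)) (b (l 16714040) (l 16719312))) (a (b (c (l 16735728) (l 16733120)) (c (b (l 16739696) (l 16742352)) (b (l 16737176) (l 16750384)))) (b (l 16724632) (c (l 16731224) (l 16728624)))))), by decide +kernel⟩

def k6_pp_012_a : ∃ t, chk3 f_pp_012_a t 30 13 1 = true :=
  ⟨(a (b (a (l 3) (a (l 3) (b (c (b (l 16752512) (l 19495088231)) (b (c (l 16750824) (l 15200111047)) (c (l 13052634423) (l 13589502743)))) (l 3)))) (l 3)) (b (a (b (c (a (b (l 16747528) (l 16750208)) (l 16743888)) (a (b (l 16745160) (c (l 16748552) (l 16747224))) (l 16746768))) (c (a (b (l 13052633687) (l 16273863367)) (b (l 16747968) (l 14126371175))) (a (a (b (l 14126369591) (l 3)) (b (l 16749432) (l 13052628343))) (b (l 16745720) (c (l 16754376) (l 15736978487)))))) (b (c (l 16747112) (a (l 16736600) (l 16731760))) (a (b (l 16747288) (c (l 16745872) (l 16743672))) (b (l 16737272) (l 16740088))))) (a (b (a (l 3) (a (b (c (l 16273858887) (l 16273854695))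 (l 3)) (c (b (l 16752224) (l 14663246919)) (b (l 15736979591) (c (l 14126373495) (l 14126371271)))))) (l 3)) (b (c (a (b (l 16748664) (c (l 11978890359) (l 12515759575))) (b (l 16743952) (l 16746784))) (a (a (b (l 16747768) (a (l 17884463911) (l 16750080))) (b (l 16745360) (l 16748288))) (b (l 16741784) (l 16744728)))) (a (a (a (l 3) (b (c (l 13589503575) (l 13589499543)) (l 3))) (c (b (l 13052631383) (l 10905152487)) (b (c (l 13052628983) (l 13052626823)) (c (l 10368279255) (l 10368277255))))) (a (c (b (l 16750824) (c (l 16754024) (l 11442019303))) (b (l 16748896) (c (l 14126372071) (l 14126369991)))) (c (b (l 16748512) (l 16751424)) (b (l 16746552) (c (l 16750096) (l 16749040)))))))))), by decide +kernel⟩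

def k7_pp_012_a : ∃ t, chk3 f_pp_012_a t 31 6 1 = true :=
  ⟨(a (b (b (a (l 16717656) (l 16719064)) (a (b (l 16715160) (l 16720576)) (b (l 16706088) (l 16711528)))) (b (a (b (c (l 16727312) (l 16724680)) (c (l 16742024) (a (l 16732720) (l 16728096)))) (b (l 16727568) (c (l 16724024) (l 16721328)))) (a (b (c (a (l 16740768) (l 16736272)) (a (l 16743816) (l 16733984))) (c (a (b (l 16745088) (l 16753264)) (b (l 16740624) (l 16743576))) (a (b (l 16743072) (c (l 16746648) (l 16745568))) (b (l 16738504) (l 16741584))))) (a (b (c (l 16731888) (l 16729480)) (c (l 16737736) (l 16746056))) (b (l 16736888) (c (l 16733488) (l 16731192))))))) (b (b (a (l 16689416) (b (l 16678488) (l 16683760))) (a (b (l 16697416) (l 16702888)) (b (l 16689128) (l 16694616)))) (b (a (b (l 16708464) (c (l 16715616) (l 16712600))) (b (c (l 16701968) (l 16698328)) (c (l 16707616) (l 16704200)))) (a (b (c (l 16726624) (l 16723840)) (c (a (l 16729344) (l 16725296)) (a (l 16726896) (l 16722672)))) (a (b (l 16713912)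 (c (l 16721344) (l 16718536))) (b (l 16720416) (c (l 16717496) (l 16714480)))))))), by decide +kernel⟩

def k8_pp_012_a : ∃ t, chk3 f_pp_012_a t 30 7 1 = true :=
  ⟨(b (a (l 3) (b (a (l 3) (b (a (l 3) (a (b (b (c (l 16756992) (l 10368275863)) (l 3)) (l 3)) (c (b (c (l 10368280263) (l 10368278807)) (c (l 7147059303) (l 7147058023))) (b (b (l 13589497559) (l 11978887783)) (b (l 8757664679) (l 3)))))) (l 3))) (l 3))) (l 3)), by decide +kernel⟩

def k9_pp_012_a : ∃ t, chk3 f_pp_012_a t 62 28 1 = true :=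
  ⟨(a (b (c (a (a (b (c (l 16752480) (l 16751728)) (c (l 10368281687) (l 10368280663))) (b (l 16749880) (c (l 16753248) (l 16752536)))) (b (l 16746568) (c (l 16749968) (l 16754472)))) (a (a (b (c (l 16750856) (l 16749856)) (b (l 12515757719) (a (l 3) (l 16753704)))) (b (l 16748088) (c (l 16751712) (l 16753384)))) (b (l 16749952) (a (l 16749000) (l 16746776))))) (a (a (l 3) (b (b (c (l 9831408423) (c (l 16754056) (l 16753168))) (c (l 8220798247) (c (l 16755560) (l 7683923719)))) (l 3))) (a (c (b (c (l 16754112) (l 16758688)) (b (l 8220797543) (l 6073316503))) (b (b (l 16751416) (l 12515758407)) (c (b (l 16755048) (l 16756584)) (b (l 16756848) (l 6073313159))))) (c (b (l 16751624) (b (l 16753984) (l 16755576))) (b (l 16752640) (b (l 16752488) (a (l 16754696) (l 16753608)))))))) (b (c (a (b (l 16742240) (l 16745304)) (b (l 16738016) (l 16741104))) (a (b (l 16740272) (l 16743472)) (b (l 16735920) (l 16739144)))) (c (a (a (b (l 16749480) (l 16755272)) (b (l 16747368) (l 16750544))) (b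 (l 16744240) (c (l 16747784) (l 16747056)))) (a (a (b (l 16747824) (a (l 16751680) (l 16750592))) (b (l 16745648) (l 16748976))) (b (l 16742424) (c (l 16746224) (l 16745288))))))), by decide +kernel⟩

def k10_pp_012_a : ∃ t, chk3 f_pp_012_a t 62 29 1 = true :=
  ⟨(a (b (a (l 3) (a (l 3) (b (c (c (b (l 16757392) (l 16758872)) (b (l 16756824) (l 16758344))) (c (b (l 16756152) (l 16757720)) (b (l 7683925367) (l 4462702983)))) (l 3)))) (l 3)) (b (a (c (b (a (b (l 16755064) (l 8220798791)) (c (l 16754072) (l 16753456))) (c (a (b (l 16758504) (l 16760008)) (b (l 16756512) (l 16758144))) (a (b (l 16757984) (l 16759536)) (b (l 16755952) (l 16757624))))) (b (a (b (l 16753664) (a (l 16755896) (l 16754824))) (c (l 16752752) (l 16751952))) (c (a (b (l 16759992) (l 16758968)) (b (l 16755304) (l 16757016))) (a (b (l 6073315351) (l 3388963783)) (b (l 16754568) (l 16756328)))))) (a (c (b (l 16751704) (c (l 16760528) (l 16759960))) (b (l 16750232) (b (l 16752824) (l 16754576)))) (c (b (l 16749656)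 (l 16755600)) (b (l 16748120) (c (l 16751984) (l 16751208)))))) (a (a (l 3) (b (c (c (b (l 16759728) (l 16761264)) (b (l 16761872) (l 16760840))) (c (b (l 3925835767) (l 16760336)) (b (l 4462705399) (l 16761064)))) (l 3))) (b (c (c (a (b (l 16757784) (l 16759448)) (b (l 16755776) (l 6))) (a (b (l 16757272) (l 16758976)) (b (l 16755232) (l 6)))) (c (a (b (l 16756680) (l 16758424)) (b (l 16754600) (l 6))) (a (b (l 16756000) (l 16760424)) (b (l 16753896) (l 6))))) (l 6))))), by decide +kernel⟩

def k11_pp_012_a : ∃ t, chk3 f_pp_012_a t 63 14 1 = true :=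
  ⟨(a (b (b (c (a (l 16740688) (l 16736672)) (a (l 16738512) (l 16739576))) (a (c (b (l 16740152) (l 16743360)) (b (l 16738192) (l 16741560))) (c (b (l 16736168) (l 16739400)) (b (l 16734048) (l 16737432))))) (b (a (a (c (b (l 16747640) (l 16750968)) (b (l 16746032) (l 16749528))) (c (b (l 16745640) (l 16748984)) (b (l 16743960) (l 16747464)))) (b (c (l 16747936) (l 16746128)) (a (b (l 16745400) (l 6)) (l 6)))) (b (b (a (a (c (l 16753512) (l 16752192)) (l 6)) (l 6)) (l 6)) (l 6)))) (b (b (a (c (l 16727512) (l 16724984)) (b (l 16731264) (a (l 16724968) (l 16723032)))) (a (c (b (l 16732272) (l 16735528)) (b (l 16729976) (l 16733384))) (c (b (l 16728480) (l 16731744)) (b (l 16725976) (l 16729408))))) (a (b (b (c (l 16738840) (l 16736864)) (l 6)) (l 6)) (l 6)))), by decide +kernel⟩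

def k12_pp_012_a : ∃ t, chk3 f_pp_012_a t 31 15 1 = true :=
  ⟨(a (b (a (l 3) (l 6)) (l 3)) (l 6)), by decide +kernel⟩

theorem s13_pp_012_a : ∃ t, chk3 f_pp_012_a t 62 14 1 = true := ex3_b k9_pp_012_a k10_pp_012_a

theorem s14_pp_012_a : ∃ t, chk3 f_pp_012_a t 31 14 1 = true := ex3_a s13_pp_012_a k11_pp_012_a

theorem s15_pp_012_a : ∃ t, chk3 f_pp_012_a t 31 7 1 = true := ex3_b s14_pp_012_a k12_pp_012_a

theorem s16_pp_012_a : ∃ t, chk3 f_pp_012_a t 15 7 1 = true := ex3_a k8_pp_012_a s15_pp_012_a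

theorem s17_pp_012_a : ∃ t, chk3 f_pp_012_a t 30 6 1 = true := ex3_b k5_pp_012_a k6_pp_012_a

theorem s18_pp_012_a : ∃ t, chk3 f_pp_012_a t 15 6 1 = true := ex3_a s17_pp_012_a k7_pp_012_a

theorem s19_pp_012_a : ∃ t, chk3 f_pp_012_a t 15 3 1 = true := ex3_b s18_pp_012_a s16_pp_012_a

theorem s20_pp_012_a : ∃ t, chk3 f_pp_012_a t 7 3 1 = true := ex3_a k4_pp_012_a s19_pp_012_a

theorem s21_pp_012_a : ∃ t, chk3 f_pp_012_a t 7 2 1 = true := ex3_a k2_pp_012_a k3_pp_012_a

theorem s22_pp_012_a : ∃ t, chk3 f_pp_012_a t 7 1 1 = true := ex3_b s21_pp_012_a s20_pp_012_a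

theorem s23_pp_012_a : ∃ t, chk3 f_pp_012_a t 3 1 1 = true := ex3_a k1_pp_012_a s22_pp_012_a

theorem s24_pp_012_a : ∃ t, chk3 f_pp_012_a t 1 1 1 = true := ex3_a k0_pp_012_a s23_pp_012_a

theorem c_pp_012_a : CertN 0 536870912 0 536870912 335544320 67108864 3 false true true .pnp 0 1 2
    ndN0q0 ndN1q2a pcN1 cut_pp_012_a Ext.none :=
  certN2 (fam := false) (s1 := true) (s2 := true) (a := 0) (b := 1) (c := 2) (cn := .pnp) (n1 := ndN0q0) (n2 := ndN1q2a) (pc := pcN1) (cut := cut_pp_012_a) (xt := Ext.none) (P1 := 0) (W1 := 536870912) (P2 := 0) (W2 := 536870912) (P3 := 335544320) (W3 := 67108864) (N0 := 3)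
    rfl (fun _ => rfl) s24_pp_012_a

noncomputable def cut_pp_012_b : Cut := Cut.of [[⟨0, 0, 0, 67108864⟩, ⟨1, 1, 0, 67108864⟩, ⟨2, 1, 0, 67108864⟩]]

noncomputable def f_pp_012_b : ℕ → ℕ → ℕ → ℕ → Bool := onCell 536870912 536870912 1239849684 370763052 335544320 67108864
    (rowN 3 2 false true true .pnp 0 1 2 (qsf 0 536870912 1239849684 370763052 1) ndN0q0 ndN1q2b pcN1 cut_pp_012_b Ext.none)

def k0_pp_012_b : ∃ t, chk3 f_pp_012_b t 1 1 1 = true :=
  ⟨(a (l 3) (b (a (a (l 3) (a (l 3) (a (b (b (b (a (l 3) (l 16783640)) (l 28085097015)) (l 3)) (l 3)) (b (b (b (l 16788392) (l 16781192)) (b (l 16798224) (l 16818760))) (b (b (l 16843040) (l 16874200)) (l 37748993591)))))) (a (b (b (a (a (b (l 16764072) (l 16756488)) (b (l 16717216) (l 16731376))) (a (b (l 16690832) (l 16705216)) (l 16734704))) (a (a (b (l 16771928) (l 16791024)) (b (l 16745416) (l 16762488))) (b (a (l 16719272) (l 16693080)) (l 16720800)))) (b (a (a (a (l 16834248) (l 16819048)) (l 16795296)) (b (l 16738360) (l 16760176)))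 (a (a (b (l 16890440) (l 16947352)) (l 16885032)) (b (l 16790424) (l 16859088))))) (b (b (a (a (l 16712224) (l 16671200)) (a (l 16653528) (b (l 16598832) (l 16594720)))) (a (a (b (l 16665984) (l 16680808)) (b (l 16639048) (l 16653248))) (a (l 16619904) (b (l 16594776) (l 16600056))))) (b (a (a (l 16703784) (l 16674552)) (a (b (l 16640648) (l 16655736)) (b (l 16611928) (l 16628120)))) (a (a (l 16748752) (l 16715128)) (a (l 16682968) (l 16652408))))))) (b (a (l 3) (a (b (a (a (l 17023920) (l 16998032)) (b (l 16923680) (l 16983824))) (a (a (l 17101672) (l 17086240)) (b (l 17036576) (l 17080960)))) (a (b (b (l 16802304) (l 16918608)) (b (l 16985936) (l 17044416))) (b (b (l 16726240) (l 16744280)) (a (l 16971544) (b (l 16891312) (l 16971848))))))) (a (l 2) (a (a (l 2) (b (l 17172392) (l 2))) (a (b (l 17113016) (l 17170248)) (b (l 17084936) (l 17170016)))))))), by decide +kernel⟩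

theorem c_pp_012_b : CertN 0 536870912 1239849684 370763052 335544320 67108864 3 false true true .pnp 0 1 2
    ndN0q0 ndN1q2b pcN1 cut_pp_012_b Ext.none :=
  certN2 (fam := false) (s1 := true) (s2 := true) (a := 0) (b := 1) (c := 2) (cn := .pnp) (n1 := ndN0q0) (n2 := ndN1q2b) (pc := pcN1) (cut := cut_pp_012_b) (xt := Ext.none) (P1 := 0) (W1 := 536870912) (P2 := 1239849684) (W2 := 370763052) (P3 := 335544320) (W3 := 67108864) (N0 := 3)
    rfl (fun _ => rfl) k0_pp_012_b

noncomputable def cut_pp_022_a : Cut := Cut.of [[⟨0, 0, 0, 67108864⟩, ⟨1, 1, 0, 67108864⟩, ⟨2, 1, 0, 67108864⟩]]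

noncomputable def f_pp_022_a : ℕ → ℕ → ℕ → ℕ → Bool := onCell 1073741824 536870912 0 536870912 335544320 67108864
    (rowN 3 2 false true true .pp 0 2 2 (qsf 0 536870912 0 536870912 2) ndN0q0 ndN1q2a pcN2 cut_pp_022_a Ext.none)

def k0_pp_022_a : ∃ t, chk3 f_pp_022_a t 8 1 1 = true :=
  ⟨(b (b (a (b (l 16619304) (l 16649512)) (l 16590984)) (a (b (b (l 16659960) (l 16671184)) (b (l 16682672) (a (l 16665320) (l 16613552)))) (b (l 16609120) (b (l 16597288) (l 16626664))))) (b (a (b (b (a (l 16698112) (l 16652208)) (a (c (l 16711256) (l 16709264)) (l 16686088))) (b (a (a (l 16713224) (l 16675352)) (a (l 16684544) (l 16672648))) (a (a (b (l 16696848) (l 16703656)) (b (l 16685464) (l 16692464))) (a (l 16698520) (l 16686992))))) (b (a (c (l 16654456) (l 16654672)) (l 16630048)) (a (b (l 16654552) (a (l 16675328) (l 16663536))) (b (l 16638792) (a (l 16656496) (l 16651736)))))) (a (b (b (b (a (a (c (l 16711456) (l 16709768)) (l 16699680)) (a (l 16709528) (l 16698272))) (a (b (a (l 16716088)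 (l 16705240)) (l 6)) (a (l 16717176) (l 16706104)))) (l 6)) (l 6)) (a (b (b (a (a (l 16693736) (l 16688056)) (l 16678144)) (l 6)) (l 6)) (b (a (b (a (l 16675264) (l 16672544)) (l 6)) (b (b (l 16663992) (l 16667512)) (b (l 16681904) (l 1)))) (l 1)))))), by decide +kernel⟩

def k1_pp_022_a : ∃ t, chk3 f_pp_022_a t 9 1 1 = true :=
  ⟨(b (b (a (b (l 16523960) (l 16562240)) (b (l 16513992) (l 16550528))) (a (b (a (l 16584712) (l 16580272)) (b (l 16590536) (l 16617616))) (b (a (l 16574344) (b (l 16541080) (l 16551136))) (a (b (l 16561520) (l 16566264)) (b (l 16554920) (l 16558960)))))) (b (b (a (b (a (l 16586752) (l 16580168)) (a (l 16618160) (l 16610440))) (b (a (l 16572808) (l 16564712)) (a (a (l 16583216) (l 16578872)) (l 1)))) (a (b (a (l 16640904) (b (l 16597496) (l 16603464))) (a (b (l 16640656) (a (l 16629632) (l 16624512))) (b (l 16630832) (l 1)))) (b (a (b (l 16588352) (l 1)) (l 1)) (l 1)))) (b (b (a (a (b (a (l 16637648) (l 16632200)) (l 16664192)) (l 1)) (l 1)) (l 1)) (l 1)))),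 by decide +kernel⟩

def k2_pp_022_a : ∃ t, chk3 f_pp_022_a t 5 1 1 = true :=
  ⟨(b (a (b (a (b (l 16499368) (a (l 16517632) (l 16508440))) (b (l 1) (l 1))) (a (a (b (b (l 16532112) (l 16563608)) (b (l 16547328) (l 16550856))) (a (b (l 16530216) (l 1)) (l 1))) (l 1))) (l 1)) (b (l 1) (l 1))), by decide +kernel⟩

def k3_pp_022_a : ∃ t, chk3 f_pp_022_a t 3 1 1 = true :=
  ⟨(l 1), by decide +kernel⟩

theorem s4_pp_022_a : ∃ t, chk3 f_pp_022_a t 4 1 1 = true := ex3_a k0_pp_022_a k1_pp_022_a

theorem s5_pp_022_a : ∃ t, chk3 f_pp_022_a t 2 1 1 = true := ex3_a s4_pp_022_a k2_pp_022_a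

theorem s6_pp_022_a : ∃ t, chk3 f_pp_022_a t 1 1 1 = true := ex3_a s5_pp_022_a k3_pp_022_a

theorem c_pp_022_a : CertN 0 536870912 0 536870912 335544320 67108864 3 false true true .pp 0 2 2
    ndN0q0 ndN1q2a pcN2 cut_pp_022_a Ext.none :=
  certN2 (fam := false) (s1 := true) (s2 := true) (a := 0) (b := 2) (c := 2) (cn := .pp) (n1 := ndN0q0) (n2 := ndN1q2a) (pc := pcN2) (cut := cut_pp_022_a) (xt := Ext.none) (P1 := 0) (W1 := 536870912) (P2 := 0) (W2 := 536870912) (P3 := 335544320) (W3 := 67108864) (N0 := 3)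
    rfl (fun _ => rfl) s6_pp_022_a

noncomputable def cut_pp_022_b : Cut := Cut.of [[⟨0, 0, 0, 67108864⟩, ⟨1, 1, 0, 67108864⟩, ⟨2, 1, 0, 67108864⟩]]

noncomputable def f_pp_022_b : ℕ → ℕ → ℕ → ℕ → Bool := onCell 0 536870912 1073741824 536870912 335544320 67108864
    (rowN 3 1 false true true .pp 0 2 2 (qsf 0 536870912 1239849684 370763052 2) ndN0q0 ndN1q2b pcN2 cut_pp_022_b Ext.none)

def k0_pp_022_b : ∃ t, chk3 f_pp_022_b t 1 1 1 = true :=
  ⟨(a (b (a (a (b (b (l 1) (b (a (l 1) (a (l 1) (l 16600592))) (a (a (l 1) (l 16588656)) (l 16589576)))) (b (a (b (a (l 16546960) (l 16499504)) (l 16485192)) (b (l 16479104) (l 16408744))) (a (b (l 16392544) (l 16297400)) (b (l 16336128) (l 16208312))))) (b (b (b (a (l 1) (l 28487442055)) (a (a (l 1) (l 16607616)) (l 16567152))) (a (a (b (l 16571584) (l 16441336)) (l 16549696)) (l 16531640))) (b (b (l 16452344) (l 16380928)) (l 16336712)))) (b (b (a (b (a (l 16635440) (l 16581616)) (l 16587616)) (b (a (l 16556640) (l 16562344)) (l 16544752)))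 (a (a (l 16457256) (l 16453224)) (b (l 16448064) (l 16393720)))) (a (b (l 16339376) (l 16392568)) (b (l 16461672) (l 16766472))))) (b (a (b (a (b (a (a (l 16234304) (l 16163712)) (l 16160992)) (l 16201640)) (b (l 16229592) (l 16466472))) (a (b (l 16207192) (l 16460840)) (b (l 16663864) (l 16826760)))) (b (a (b (l 16670456) (l 16820720)) (l 16992376)) (a (l 17003656) (l 17157816)))) (b (a (a (b (l 16665856) (l 16811960)) (b (l 16961824) (l 17069616))) (a (l 17187080) (l 2))) (a (a (b (l 16939384) (l 17070160)) (l 17210096)) (l 2))))) (b (a (b (b (a (b (a (l 16581688) (l 16605616)) (l 16543272)) (b (l 16663480) (l 16777080))) (a (l 16580296) (l 16884512))) (a (b (l 16810728) (l 16994288)) (l 17073496))) (b (a (b (a (l 16938680) (l 17035952)) (l 17059632)) (b (l 17141312) (l 17156616))) (a (l 17161544) (l 2)))) (b (a (b (a (l 17136136) (l 2)) (l 2)) (l 2)) (l 2)))), by decide +kernel⟩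

theorem c_pp_022_b : CertN 0 536870912 1239849684 370763052 335544320 67108864 3 false true true .pp 0 2 2
    ndN0q0 ndN1q2b pcN2 cut_pp_022_b Ext.none :=
  certN1 (fam := false) (s1 := true) (s2 := true) (a := 0) (b := 2) (c := 2) (cn := .pp) (n1 := ndN0q0) (n2 := ndN1q2b) (pc := pcN2) (cut := cut_pp_022_b) (xt := Ext.none) (P1 := 0) (W1 := 536870912) (P2 := 1239849684) (W2 := 370763052) (P3 := 335544320) (W3 := 67108864) (N0 := 3)
    rfl (fun _ => rfl) k0_pp_022_b

noncomputable def f_pp_023 : ℕ → ℕ → ℕ → ℕ → Bool := onCell 0 536870912 1073741824 536870912 335544320 67108864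
    (rowN 3 1 false true true .up 0 2 3 (qsf 0 536870912 1610612736 536870912 2) ndN0q0 ndN1q3 pcN2 Cut.none Ext.none)

def k0_pp_023 : ∃ t, chk3 f_pp_023 t 1 1 1 = true :=
  ⟨(a (b (a (l 1) (b (l 1) (a (l 1) (l 203507344247)))) (b (a (b (l 1) (l 226056386551)) (b (l 255584745303) (l 256121984199))) (b (a (l 252900865575) (l 17271184)) (a (l 267396673511) (l 17361136))))) (b (a (b (a (l 1) (l 213707699943)) (a (l 226055932951) (l 17027768))) (b (a (l 216929517591) (b (l 250752312615) (l 17067696))) (a (l 17123728) (l 17165112)))) (b (a (b (l 17219024) (l 17264504)) (b (l 17230544) (l 17262760))) (b (a (l 17329312) (l 17289568)) (a (l 17365696) (l 17277848)))))), by decide +kernel⟩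

theorem c_pp_023 : CertN 0 536870912 1610612736 536870912 335544320 67108864 3 false true true .up 0 2 3
    ndN0q0 ndN1q3 pcN2 Cut.none Ext.none :=
  certN1 (fam := false) (s1 := true) (s2 := true) (a := 0) (b := 2) (c := 3) (cn := .up) (n1 := ndN0q0) (n2 := ndN1q3) (pc := pcN2) (cut := Cut.none) (xt := Ext.none) (P1 := 0) (W1 := 536870912) (P2 := 1610612736) (W2 := 536870912) (P3 := 335544320) (W3 := 67108864) (N0 := 3)
    rfl (fun _ => rfl) k0_pp_023

noncomputable def f_pp_033 : ℕ → ℕ → ℕ → ℕ → Bool := onCell 1610612736 536870912 1610612736 536870912 335544320 67108864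
    (rowN 3 2 false true true .pnn 0 3 3 (qsf 0 536870912 1610612736 536870912 3) ndN0q0 ndN1q3 pcN3 Cut.none Ext.none)

def k0_pp_033 : ∃ t, chk3 f_pp_033 t 1 1 1 = true :=
  ⟨(a (b (a (b (a (l 17458192) (l 17501568)) (a (l 17343176) (l 17402144))) (a (l 309273156439) (l 313031347719))) (a (b (a (l 17232136) (l 17297512)) (a (l 17121816) (l 17193432))) (b (a (l 17350512) (l 17386688)) (a (l 17233856) (l 17254056))))) (a (b (a (l 314105173479) (l 1)) (a (b (l 17415848) (l 4)) (l 4))) (l 4))), by decide +kernel⟩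

theorem c_pp_033 : CertN 0 536870912 1610612736 536870912 335544320 67108864 3 false true true .pnn 0 3 3
    ndN0q0 ndN1q3 pcN3 Cut.none Ext.none :=
  certN2 (fam := false) (s1 := true) (s2 := true) (a := 0) (b := 3) (c := 3) (cn := .pnn) (n1 := ndN0q0) (n2 := ndN1q3) (pc := pcN3) (cut := Cut.none) (xt := Ext.none) (P1 := 0) (W1 := 536870912) (P2 := 1610612736) (W2 := 536870912) (P3 := 335544320) (W3 := 67108864) (N0 := 3)
    rfl (fun _ => rfl) k0_pp_033

noncomputable def f_pp_101 : ℕ → ℕ → ℕ → ℕ → Bool := onCell 536870912 536870912 536870912 536870912 335544320 67108864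
    (rowN 3 0 false true true .npn 1 0 1 (qsf 536870912 536870912 536870912 536870912 0) ndN0q1 ndN1q1 pcN0 Cut.none Ext.none)

def k0_pp_101 : ∃ t, chk3 f_pp_101 t 1 1 1 = true :=
  ⟨(l 3), by decide +kernel⟩

theorem c_pp_101 : CertN 536870912 536870912 536870912 536870912 335544320 67108864 3 false true true .npn 1 0 1
    ndN0q1 ndN1q1 pcN0 Cut.none Ext.none :=
  certN0 (fam := false) (s1 := true) (s2 := true) (a := 1) (b := 0) (c := 1) (cn := .npn) (n1 := ndN0q1) (n2 := ndN1q1) (pc := pcN0) (cut := Cut.none) (xt := Ext.none) (P1 := 536870912) (W1 := 536870912) (P2 := 536870912) (W2 := 536870912) (P3 := 335544320) (W3 := 67108864) (N0 := 3)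
    rfl k0_pp_101

noncomputable def f_pp_102_a : ℕ → ℕ → ℕ → ℕ → Bool := onCell 536870912 536870912 0 536870912 335544320 67108864
    (rowN 3 0 false true true .npp 1 0 2 (qsf 536870912 536870912 0 536870912 0) ndN0q1 ndN1q2a pcN0 Cut.none Ext.none)

def k0_pp_102_a : ∃ t, chk3 f_pp_102_a t 1 1 1 = true :=
  ⟨(l 3), by decide +kernel⟩

theorem c_pp_102_a : CertN 536870912 536870912 0 536870912 335544320 67108864 3 false true true .npp 1 0 2
    ndN0q1 ndN1q2a pcN0 Cut.none Ext.none :=
  certN0 (fam := false) (s1 := true) (s2 := true) (a := 1) (b := 0) (c := 2) (cn := .npp) (n1 := ndN0q1) (n2 := ndN1q2a) (pc := pcN0) (cut := Cut.none) (xt := Ext.none) (P1 := 536870912) (W1 := 536870912) (P2 := 0) (W2 := 536870912) (P3 := 335544320) (W3 := 67108864) (N0 := 3)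
    rfl k0_pp_102_a

noncomputable def f_pp_102_b : ℕ → ℕ → ℕ → ℕ → Bool := onCell 536870912 536870912 0 536870912 335544320 67108864
    (rowN 3 1 false true true .npp 1 0 2 (qsf 536870912 536870912 1239849684 370763052 0) ndN0q1 ndN1q2b pcN0 Cut.none Ext.none)

def k0_pp_102_b : ∃ t, chk3 f_pp_102_b t 1 1 1 = true :=
  ⟨(l 3), by decide +kernel⟩

theorem c_pp_102_b : CertN 536870912 536870912 1239849684 370763052 335544320 67108864 3 false true true .npp 1 0 2
    ndN0q1 ndN1q2b pcN0 Cut.none Ext.none :=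
  certN1 (fam := false) (s1 := true) (s2 := true) (a := 1) (b := 0) (c := 2) (cn := .npp) (n1 := ndN0q1) (n2 := ndN1q2b) (pc := pcN0) (cut := Cut.none) (xt := Ext.none) (P1 := 536870912) (W1 := 536870912) (P2 := 1239849684) (W2 := 370763052) (P3 := 335544320) (W3 := 67108864) (N0 := 3)
    rfl (fun _ => rfl) k0_pp_102_b

noncomputable def f_pp_112_a : ℕ → ℕ → ℕ → ℕ → Bool := onCell 536870912 536870912 0 536870912 335544320 67108864
    (rowN 3 0 false true true .dn 1 1 2 (qsf 536870912 536870912 0 536870912 1) ndN0q1 ndN1q2a pcN1 Cut.none Ext.none)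

def k0_pp_112_a : ∃ t, chk3 f_pp_112_a t 1 1 1 = true :=
  ⟨(l 3), by decide +kernel⟩

theorem c_pp_112_a : CertN 536870912 536870912 0 536870912 335544320 67108864 3 false true true .dn 1 1 2
    ndN0q1 ndN1q2a pcN1 Cut.none Ext.none :=
  certN0 (fam := false) (s1 := true) (s2 := true) (a := 1) (b := 1) (c := 2) (cn := .dn) (n1 := ndN0q1) (n2 := ndN1q2a) (pc := pcN1) (cut := Cut.none) (xt := Ext.none) (P1 := 536870912) (W1 := 536870912) (P2 := 0) (W2 := 536870912) (P3 := 335544320) (W3 := 67108864) (N0 := 3)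
    rfl k0_pp_112_a

noncomputable def f_pp_112_b : ℕ → ℕ → ℕ → ℕ → Bool := onCell 536870912 536870912 1239849684 370763052 335544320 67108864
    (rowN 3 0 false true true .dn 1 1 2 (qsf 536870912 536870912 1239849684 370763052 1) ndN0q1 ndN1q2b pcN1 Cut.none Ext.none)

def k0_pp_112_b : ∃ t, chk3 f_pp_112_b t 1 1 1 = true :=
  ⟨(a (b (l 3) (a (b (a (b (l 3) (a (b (l 66740474151) (l 17091744)) (l 3))) (l 3)) (a (b (a (b (l 17125184) (l 17140864)) (l 68351132343)) (a (l 17172048) (b (l 17163552) (l 17178536)))) (b (l 3) (a (l 75330480599) (l 3))))) (l 3))) (l 3)), by decide +kernel⟩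

theorem c_pp_112_b : CertN 536870912 536870912 1239849684 370763052 335544320 67108864 3 false true true .dn 1 1 2
    ndN0q1 ndN1q2b pcN1 Cut.none Ext.none :=
  certN0 (fam := false) (s1 := true) (s2 := true) (a := 1) (b := 1) (c := 2) (cn := .dn) (n1 := ndN0q1) (n2 := ndN1q2b) (pc := pcN1) (cut := Cut.none) (xt := Ext.none) (P1 := 536870912) (W1 := 536870912) (P2 := 1239849684) (W2 := 370763052) (P3 := 335544320) (W3 := 67108864) (N0 := 3)
    rfl k0_pp_112_b

noncomputable def cut_pp_113 : Cut := Cut.of [[⟨0, 1, 0, 67108864⟩, ⟨1, 1, 0, 67108864⟩, ⟨2, 2, 0, 16777216⟩]]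

noncomputable def f_pp_113 : ℕ → ℕ → ℕ → ℕ → Bool := onCell 536870912 536870912 536870912 536870912 335544320 67108864
    (rowN 3 1 false true true .nn 1 1 3 (qsf 536870912 536870912 1610612736 536870912 1) ndN0q1 ndN1q3 pcN1 cut_pp_113 Ext.none)

def k0_pp_113 : ∃ t, chk3 f_pp_113 t 1 1 1 = true :=
  ⟨(b (l 3) (a (b (a (l 3) (l 3)) (a (b (a (b (l 1) (a (l 1) (l 207266092039))) (a (b (l 215856223751) (l 140157354855)) (b (l 3) (l 90899551191)))) (a (b (a (l 17009208) (l 17072248)) (a (l 17044808) (l 17108552))) (b (a (l 17116328) (l 17144536)) (l 17165120)))) (b (b (l 3) (a (a (l 17137960) (l 17146416)) (l 118280204551))) (a (b (l 17162288) (l 17185328)) (b (l 17146264) (l 17156168)))))) (b (l 3) (a (b (a (l 3) (l 3)) (a (a (l 17130408) (l 140292133191)) (b (l 145123457319) (l 17003888)))) (b (l 3) (a (b (l 409263729495) (a (l 16933720) (l 16950192))) (b (l 3) (a (b (l 547776278663) (l 156934308279)) (b (l 3) (b (l 586967757207) (a (l 161229164919) (a (l 233706659719) (b (l 3)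 (l 6)))))))))))))), by decide +kernel⟩

theorem c_pp_113 : CertN 536870912 536870912 1610612736 536870912 335544320 67108864 3 false true true .nn 1 1 3
    ndN0q1 ndN1q3 pcN1 cut_pp_113 Ext.none :=
  certN1 (fam := false) (s1 := true) (s2 := true) (a := 1) (b := 1) (c := 3) (cn := .nn) (n1 := ndN0q1) (n2 := ndN1q3) (pc := pcN1) (cut := cut_pp_113) (xt := Ext.none) (P1 := 536870912) (W1 := 536870912) (P2 := 1610612736) (W2 := 536870912) (P3 := 335544320) (W3 := 67108864) (N0 := 3)
    rfl (fun _ => rfl) k0_pp_113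

noncomputable def cut_pp_123 : Cut := Cut.of [[⟨0, 1, 0, 67108864⟩, ⟨1, 1, 0, 67108864⟩, ⟨2, 2, 0, 16777216⟩]]

noncomputable def f_pp_123 : ℕ → ℕ → ℕ → ℕ → Bool := onCell 536870912 536870912 1073741824 536870912 335544320 67108864
    (rowN 3 1 false true true .npn 1 2 3 (qsf 536870912 536870912 1610612736 536870912 2) ndN0q1 ndN1q3 pcN2 cut_pp_123 Ext.none)

def k0_pp_123 : ∃ t, chk3 f_pp_123 t 1 1 1 = true :=
  ⟨(a (b (a (b (b (a (b (l 17097208) (l 17113504)) (l 17161000)) (a (l 17134272) (l 17146008))) (a (l 17165064) (l 17134552))) (b (b (a (l 17159624) (l 17115768)) (a (l 17116032) (l 17054368))) (a (l 17077408) (l 16999312)))) (a (b (b (l 17159096) (l 17163440)) (b (a (l 17196784) (l 17125200)) (l 17132344))) (b (b (l 17167528) (a (l 17063336) (l 16983744))) (a (b (l 17044256) (l 2)) (l 2))))) (b (a (b (b (a (l 17044016) (l 16955024)) (a (l 16971360) (l 16879496))) (a (l 16911552) (l 16940560))) (b (b (a (l 16989888) (b (a (l 16818088) (b (a (l 16796752) (b (a (l 16786728)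 (l 6)) (l 16775848))) (l 16773432))) (l 16871368))) (a (l 16832568) (a (l 16795432) (l 2)))) (a (b (l 16744408) (l 2)) (l 2)))) (a (b (a (b (l 16905832) (l 2)) (l 2)) (l 2)) (l 2)))), by decide +kernel⟩

theorem c_pp_123 : CertN 536870912 536870912 1610612736 536870912 335544320 67108864 3 false true true .npn 1 2 3
    ndN0q1 ndN1q3 pcN2 cut_pp_123 Ext.none :=
  certN1 (fam := false) (s1 := true) (s2 := true) (a := 1) (b := 2) (c := 3) (cn := .npn) (n1 := ndN0q1) (n2 := ndN1q3) (pc := pcN2) (cut := cut_pp_123) (xt := Ext.none) (P1 := 536870912) (W1 := 536870912) (P2 := 1610612736) (W2 := 536870912) (P3 := 335544320) (W3 := 67108864) (N0 := 3)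
    rfl (fun _ => rfl) k0_pp_123

noncomputable def f_pp_133 : ℕ → ℕ → ℕ → ℕ → Bool := onCell 1610612736 536870912 1610612736 536870912 335544320 67108864
    (rowN 3 2 false true true .dn 1 3 3 (qsf 536870912 536870912 1610612736 536870912 3) ndN0q1 ndN1q3 pcN3 Cut.none Ext.none)

def k0_pp_133 : ∃ t, chk3 f_pp_133 t 1 1 1 = true :=
  ⟨(a (b (l 1) (a (b (l 1) (a (l 17133440) (l 1))) (l 1))) (l 1)), by decide +kernel⟩

theorem c_pp_133 : CertN 536870912 536870912 1610612736 536870912 335544320 67108864 3 false true true .dn 1 3 3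
    ndN0q1 ndN1q3 pcN3 Cut.none Ext.none :=
  certN2 (fam := false) (s1 := true) (s2 := true) (a := 1) (b := 3) (c := 3) (cn := .dn) (n1 := ndN0q1) (n2 := ndN1q3) (pc := pcN3) (cut := Cut.none) (xt := Ext.none) (P1 := 536870912) (W1 := 536870912) (P2 := 1610612736) (W2 := 536870912) (P3 := 335544320) (W3 := 67108864) (N0 := 3)
    rfl (fun _ => rfl) k0_pp_133

noncomputable def f_pp_202_a : ℕ → ℕ → ℕ → ℕ → Bool := onCell 0 536870912 0 536870912 335544320 67108864
    (rowN 3 0 false true true .pp 2 0 2 (qsf 0 536870912 0 536870912 0) ndN0q2 ndN1q2a pcN0 Cut.none Ext.none)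

def k0_pp_202_a : ∃ t, chk3 f_pp_202_a t 1 1 1 = true :=
  ⟨(l 3), by decide +kernel⟩

theorem c_pp_202_a : CertN 0 536870912 0 536870912 335544320 67108864 3 false true true .pp 2 0 2
    ndN0q2 ndN1q2a pcN0 Cut.none Ext.none :=
  certN0 (fam := false) (s1 := true) (s2 := true) (a := 2) (b := 0) (c := 2) (cn := .pp) (n1 := ndN0q2) (n2 := ndN1q2a) (pc := pcN0) (cut := Cut.none) (xt := Ext.none) (P1 := 0) (W1 := 536870912) (P2 := 0) (W2 := 536870912) (P3 := 335544320) (W3 := 67108864) (N0 := 3)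
    rfl k0_pp_202_a

noncomputable def f_pp_202_b : ℕ → ℕ → ℕ → ℕ → Bool := onCell 0 536870912 1239849684 370763052 335544320 67108864
    (rowN 3 0 false true true .pp 2 0 2 (qsf 0 536870912 1239849684 370763052 0) ndN0q2 ndN1q2b pcN0 Cut.none Ext.none)

def k0_pp_202_b : ∃ t, chk3 f_pp_202_b t 1 1 1 = true :=
  ⟨(l 3), by decide +kernel⟩

theorem c_pp_202_b : CertN 0 536870912 1239849684 370763052 335544320 67108864 3 false true true .pp 2 0 2
    ndN0q2 ndN1q2b pcN0 Cut.none Ext.none :=
  certN0 (fam := false) (s1 := true) (s2 := true) (a := 2) (b := 0) (c := 2) (cn := .pp) (n1 := ndN0q2) (n2 := ndN1q2b) (pc := pcN0) (cut := Cut.none) (xt := Ext.none) (P1 := 0) (W1 := 536870912) (P2 := 1239849684) (W2 := 370763052) (P3 := 335544320) (W3 := 67108864) (N0 := 3)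
    rfl k0_pp_202_b

noncomputable def f_pp_203 : ℕ → ℕ → ℕ → ℕ → Bool := onCell 0 536870912 0 536870912 335544320 67108864
    (rowN 3 1 false true true .up 2 0 3 (qsf 0 536870912 1610612736 536870912 0) ndN0q2 ndN1q3 pcN0 Cut.none Ext.none)

def k0_pp_203 : ∃ t, chk3 f_pp_203 t 1 1 1 = true :=
  ⟨(l 3), by decide +kernel⟩

theorem c_pp_203 : CertN 0 536870912 1610612736 536870912 335544320 67108864 3 false true true .up 2 0 3
    ndN0q2 ndN1q3 pcN0 Cut.none Ext.none :=
  certN1 (fam := false) (s1 := true) (s2 := true) (a := 2) (b := 0) (c := 3) (cn := .up) (n1 := ndN0q2) (n2 := ndN1q3) (pc := pcN0) (cut := Cut.none) (xt := Ext.none) (P1 := 0) (W1 := 536870912) (P2 := 1610612736) (W2 := 536870912) (P3 := 335544320) (W3 := 67108864) (N0 := 3)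
    rfl (fun _ => rfl) k0_pp_203

noncomputable def cut_pp_213 : Cut := Cut.of [[⟨0, 1, 0, 67108864⟩, ⟨1, 1, 0, 67108864⟩, ⟨2, 2, 0, 16777216⟩]]

noncomputable def f_pp_213 : ℕ → ℕ → ℕ → ℕ → Bool := onCell 0 536870912 1610612736 536870912 335544320 67108864
    (rowN 3 0 false true true .pnn 2 1 3 (qsf 0 536870912 1610612736 536870912 1) ndN0q2 ndN1q3 pcN1 cut_pp_213 Ext.none)

def k0_pp_213 : ∃ t, chk3 f_pp_213 t 1 1 1 = true :=
  ⟨(b (l 3) (a (l 3) (b (l 3) (a (l 3) (b (l 3) (a (l 3) (b (l 3) (b (l 3) (b (l 3) (l 6)))))))))), by decide +kernel⟩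

theorem c_pp_213 : CertN 0 536870912 1610612736 536870912 335544320 67108864 3 false true true .pnn 2 1 3
    ndN0q2 ndN1q3 pcN1 cut_pp_213 Ext.none :=
  certN0 (fam := false) (s1 := true) (s2 := true) (a := 2) (b := 1) (c := 3) (cn := .pnn) (n1 := ndN0q2) (n2 := ndN1q3) (pc := pcN1) (cut := cut_pp_213) (xt := Ext.none) (P1 := 0) (W1 := 536870912) (P2 := 1610612736) (W2 := 536870912) (P3 := 335544320) (W3 := 67108864) (N0 := 3)
    rfl k0_pp_213

noncomputable def f_pm_001 : ℕ → ℕ → ℕ → ℕ → Bool := onCell 0 536870912 536870912 536870912 335544320 67108864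
    (rowN 3 0 false true false .up 0 0 1 (qsf 0 536870912 536870912 536870912 0) ndN0q0 ndN1q1 pcN0 Cut.none Ext.none)

def k0_pm_001 : ∃ t, chk3 f_pm_001 t 1 1 1 = true :=
  ⟨(l 4), by decide +kernel⟩

theorem c_pm_001 : CertN 0 536870912 536870912 536870912 335544320 67108864 3 false true false .up 0 0 1
    ndN0q0 ndN1q1 pcN0 Cut.none Ext.none :=
  certN0 (fam := false) (s1 := true) (s2 := false) (a := 0) (b := 0) (c := 1) (cn := .up) (n1 := ndN0q0) (n2 := ndN1q1) (pc := pcN0) (cut := Cut.none) (xt := Ext.none) (P1 := 0) (W1 := 536870912) (P2 := 536870912) (W2 := 536870912) (P3 := 335544320) (W3 := 67108864) (N0 := 3)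
    rfl k0_pm_001

noncomputable def f_pm_011 : ℕ → ℕ → ℕ → ℕ → Bool := onCell 0 536870912 536870912 536870912 335544320 67108864
    (rowN 3 0 false true false .pnn 0 1 1 (qsf 0 536870912 536870912 536870912 1) ndN0q0 ndN1q1 pcN1 Cut.none Ext.none)

def k0_pm_011 : ∃ t, chk3 f_pm_011 t 1 1 1 = true :=
  ⟨(l 4), by decide +kernel⟩

theorem c_pm_011 : CertN 0 536870912 536870912 536870912 335544320 67108864 3 false true false .pnn 0 1 1
    ndN0q0 ndN1q1 pcN1 Cut.none Ext.none :=
  certN0 (fam := false) (s1 := true) (s2 := false) (a := 0) (b := 1) (c := 1) (cn := .pnn) (n1 := ndN0q0) (n2 := ndN1q1) (pc := pcN1) (cut := Cut.none) (xt := Ext.none) (P1 := 0) (W1 := 536870912) (P2 := 536870912) (W2 := 536870912) (P3 := 335544320) (W3 := 67108864) (N0 := 3)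
    rfl k0_pm_011

end Pool.Agent.Strip051.G.I5_16_3_8.Tab.C.NB01

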