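import Pool.Agent.Strip051.G.I5_16_3_8.Tab

/-! # Certificates N7 (generated) -/

set_option linter.all false
set_option maxRecDepth 100000

namespace Pool.Agent.Strip051.G.I5_16_3_8.Tab.C.NB01

open Pool.Agent.Strip051.PB Pool.Agent.Strip051.PB.T
open Pool.Agent.Strip051.G.I5_16_3_8.Tab

noncomputable def cut_pm_012_a : Cut := Cut.of [[⟨0, 0, 0, 67108864⟩, ⟨1, 1, 0, 67108864⟩, ⟨2, 1, 0, 67108864⟩], [⟨0, 0, 1, 33554432⟩, ⟨1, 1, 2, 33554432⟩, ⟨2, 1, 0, 33554432⟩]]

noncomputable def f_pm_012_a : ℕ → ℕ → ℕ → ℕ → Bool := onCell 536870912 536870912 0 536870912 335544320 67108864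
    (rowN 3 2 false true false .pnp 0 1 2 (qsf 0 536870912 0 536870912 1) ndN0q0 ndN1q2a pcN1 cut_pm_012_a Ext.none)

def k0_pm_012_a : ∃ t, chk3 f_pm_012_a t 4 2 1 = true :=
  ⟨(a (l 2) (b (l 2) (a (l 2) (l 17092552)))), by decide +kernel⟩

def k1_pm_012_a : ∃ t, chk3 f_pm_012_a t 4 3 1 = true :=
  ⟨(a (b (l 2) (b (a (l 2) (b (l 17098024) (l 17095160))) (a (b (l 17138648) (a (l 17155104) (l 17132792))) (b (a (l 17105112) (l 17071144)) (a (b (l 17102096) (l 17099480)) (b (l 17061104) (c (l 17096584) (l 17010000)))))))) (b (a (b (l 2) (l 17062384)) (b (l 17051784) (b (l 17027312) (l 17005984)))) (b (a (b (l 17042312) (a (l 17045424) (l 16998112))) (b (l 16978360) (a (l 16956952) (l 16927352)))) (a (b (a (l 17025520) (b (l 16974680) (l 16935704))) (a (b (l 16985840) (c (l 17043240) (a (l 16960608) (l 16901168)))) (b (c (l 16994608) (a (l 16899792) (l 16855776))) (c (a (l 16992840) (l 16953576)) (b (a (l 16884136) (l 16836648)) (a (l 16831312) (a (l 16815384) (c (l 16841720)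 (l 16736016))))))))) (b (a (b (l 16926760) (c (l 16966168) (l 16840952))) (b (l 16893512) (c (l 16932448) (l 16800544)))) (b (a (c (l 16941944) (a (l 16823024) (l 16782400))) (c (b (l 16910912) (l 16894624)) (b (l 16776168) (a (l 16771280) (l 16744136))))) (a (c (b (l 16900120) (a (l 16915632) (l 16894336))) (b (a (l 16759328) (c (l 16811992) (l 16745176))) (b (a (c (l 16822000) (l 16756312)) (c (l 16798272) (l 16730752))) (c (a (l 16813360) (l 16788872)) (a (a (l 16753496) (l 16740792)) (a (c (l 16744552) (l 16710688)) (c (l 16731240) (l 14)))))))) (a (c (b (l 16889088) (c (l 16905632) (l 16836944))) (b (c (l 16786848) (l 16718072)) (c (b (l 16772600) (a (l 16769520) (l 16756120))) (c (b (l 16720560) (a (l 16717520) (l 14))) (l 14))))) (c (b (l 16865312) (c (l 16882120) (b (l 16816248) (l 16806608)))) (b (c (l 16760048) (l 16689224)) (c (b (l 16745296) (a (l 16700368) (c (l 16746088) (l 14)))) (l 14)))))))))))), by decide +kernel⟩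

def k2_pm_012_a : ∃ t, chk3 f_pm_012_a t 5 2 1 = true :=
  ⟨(a (b (l 17414992) (a (l 17076920) (l 17042208))) (b (a (l 17107744) (l 17029736)) (a (l 16977176) (l 16866368)))), by decide +kernel⟩

def k3_pm_012_a : ∃ t, chk3 f_pm_012_a t 10 6 1 = true :=
  ⟨(b (a (l 17020320) (l 16965464)) (a (b (l 16984176) (l 16953872)) (b (l 16915432) (l 16872640)))), by decide +kernel⟩

def k4_pm_012_a : ∃ t, chk3 f_pm_012_a t 10 14 1 = true :=
  ⟨(a (b (a (l 16934496) (l 16897344)) (a (l 16849640) (b (l 16860192) (l 16830272)))) (b (l 16714904) (a (l 16682592) (l 16677296)))), by decide +kernel⟩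

def k5_pm_012_a : ∃ t, chk3 f_pm_012_a t 10 30 1 = true :=
  ⟨(a (b (a (l 16830256) (l 16776056)) (a (c (l 16888448) (l 16748080)) (l 16635104))) (a (b (l 16670912) (c (l 16774680) (l 16633784))) (b (l 16660680) (c (l 16683288) (l 16625176))))), by decide +kernel⟩

def k6_pm_012_a : ∃ t, chk3 f_pm_012_a t 20 31 1 = true :=
  ⟨(b (a (c (b (l 16863128) (l 16824288)) (a (l 16620160) (l 16610600))) (a (c (l 16813216) (l 16619944)) (c (l 16720440) (l 16627496)))) (c (a (b (a (l 16839920) (l 16770856)) (c (a (l 16857048) (l 16788368)) (a (b (l 16789296) (a (l 16786296) (l 16772224))) (b (l 16760576) (a (l 16715760) (c (l 16761672) (l 14))))))) (a (b (c (l 16821952) (l 16745600)) (c (b (l 16806896) (c (l 16815840) (l 16756384))) (b (l 16688040) (a (c (l 16746496) (l 14)) (l 14))))) (b (l 16627096) (c (b (l 16776648) (a (l 16752896) (c (l 16778032) (l 14)))) (l 14))))) (c (a (a (b (l 16731496) (b (l 16674312) (a (c (l 16731672) (l 14)) (l 14)))) (b (l 16701080) (l 14))) (l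 14)) (a (l 14) (a (l 14) (a (l 14) (a (l 14) (b (l 16611448) (b (l 16608160) (b (l 16606672) (c (l 14) (l 16605376)))))))))))), by decide +kernel⟩

def k7_pm_012_a : ∃ t, chk3 f_pm_012_a t 21 31 1 = true :=
  ⟨(b (a (c (a (l 16625552) (l 16633240)) (b (l 16624792) (l 16619712))) (c (a (l 16638496) (l 16641112)) (b (l 16618472) (l 16614912)))) (a (b (c (a (l 16615040) (l 16621696)) (a (l 16616400) (l 16614408))) (c (c (a (b (l 16702416) (a (c (l 16762040) (l 14)) (l 14))) (l 14)) (l 14)) (b (a (c (l 14) (l 16607192)) (c (l 16617720) (l 16605936))) (a (c (l 14) (b (a (l 16606192) (l 16605624)) (a (c (l 14) (a (l 16602496) (l 16602256))) (b (l 16605048) (c (c (l 14) (l 16606144)) (l 16607008)))))) (a (c (l 14) (b (l 16605144) (c (a (l 16607472) (l 16607280)) (l 16601600)))) (c (a (l 14) (c (l 14) (c (l 14) (l 16611528)))) (a (c (l 16610048) (l 16601680)) (c (l 16607256) (l 16601552))))))))) (b (c (a (l 14) (l 16634440)) (a (l 16612776) (l 16611488))) (c (c (l 14) (a (l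 14) (a (l 14) (a (l 14) (b (l 16626352) (c (l 14) (c (l 14) (l 16621384)))))))) (a (b (c (l 16616504) (l 16605040)) (c (b (c (l 16618368) (l 16612760)) (c (a (l 14) (a (l 14) (a (l 14) (l 16617544)))) (a (a (l 16612456) (l 16612312)) (a (l 16612192) (l 16612088))))) (b (l 16614800) (c (a (l 16606784) (l 16606616)) (a (l 16601176) (l 16601088)))))) (b (c (l 16615624) (l 16604488)) (c (b (c (l 16617696) (l 16612240)) (c (c (a (a (l 14) (l 16618696)) (l 16618568)) (a (l 16616040) (l 16615896))) (a (l 16611968) (l 16611888)))) (a (a (l 16603968) (l 16603944)) (a (l 16603936) (l 16603952)))))))))), by decide +kernel⟩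

def k8_pm_012_a : ∃ t, chk3 f_pm_012_a t 11 6 1 = true :=
  ⟨(b (a (l 16873992) (l 16746080)) (a (b (l 16803056) (l 16743592)) (b (l 16693440) (l 16664400)))), by decide +kernel⟩

def k9_pm_012_a : ∃ t, chk3 f_pm_012_a t 11 14 1 = true :=
  ⟨(a (b (l 16678464) (a (l 16657736) (l 16644416))) (b (a (l 16650432) (l 16632312)) (a (l 16631320) (l 16618352)))), by decide +kernel⟩

def k10_pm_012_a : ∃ t, chk3 f_pm_012_a t 22 30 1 = true :=
  ⟨(a (b (l 16639808) (c (l 16643576) (l 16618104))) (b (l 16630776) (c (l 16636744) (l 16612640)))), by decide +kernel⟩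

def k11_pm_012_a : ∃ t, chk3 f_pm_012_a t 22 62 1 = true :=
  ⟨(a (c (b (l 16637616) (l 16634536)) (b (l 16613616) (l 16611536))) (c (b (l 16632960) (l 16631336)) (b (l 16610288) (l 16609624)))), by decide +kernel⟩

def k12_pm_012_a : ∃ t, chk3 f_pm_012_a t 22 126 1 = true :=
  ⟨(a (c (a (l 16632856) (l 16631592)) (a (l 16610544) (l 16609928))) (c (a (l 16630648) (l 16630048)) (a (l 16609616) (l 16609648)))), by decide +kernel⟩

def k13_pm_012_a : ∃ t, chk3 f_pm_012_a t 44 127 1 = true :=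
  ⟨(c (b (a (c (l 14) (l 16625832)) (c (l 16635680) (l 16625280))) (b (a (c (l 14) (c (l 16627888) (l 16622624))) (c (c (l 14) (l 16632640)) (c (l 16627536) (l 16622416)))) (a (c (l 14) (c (a (l 14) (a (l 14) (a (l 14) (l 16627448)))) (c (a (a (l 14) (l 16623688)) (l 16626232)) (a (l 16621088) (l 16621024))))) (a (c (l 14) (b (l 16624896) (c (a (l 16627368) (l 16627352)) (l 16622280)))) (c (a (l 14) (a (l 14) (c (l 14) (l 16632384)))) (c (a (l 16627392) (l 16627400)) (l 16622376))))))) (a (a (b (l 16609744) (c (b (l 16614744) (c (l 16619768) (l 16611880))) (l 16609248))) (b (l 16609632) (c (b (l 16614688) (c (l 16617144) (l 16611952))) (l 16604152)))) (b (c (l 16614832) (l 16604336)) (a (c (c (l 16617256) (l 16612112)) (l 16604368)) (c (b (l 16614792) (l 16620080)) (l 16604664)))))), by decide +kernel⟩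

def k14_pm_012_a : ∃ t, chk3 f_pm_012_a t 45 127 1 = true :=
  ⟨(c (b (a (c (l 16635128) (l 16625032)) (c (l 16634904) (l 16625112))) (b (a (c (c (l 16637376) (l 16632432)) (c (l 16627480) (l 16622520))) (c (c (l 16637344) (l 16632552)) (l 16635832))) (a (c (c (a (l 14) (a (l 14) (a (l 14) (l 16637304)))) (a (a (a (l 16632384) (l 16632384)) (l 16632392)) (a (l 16632424) (l 16632472)))) (c (a (b (l 16627456) (l 16627448)) (l 16627584)) (a (l 16622512) (l 16622728)))) (c (c (a (a (a (l 16637312) (l 16637328)) (l 16639984)) (a (l 16637424) (l 16637512))) (a (b (l 16632536) (l 16632592)) (l 16632776))) (c (a (l 16627792) (l 16628072)) (a (l 16623008) (l 16623360))))))) (a (a (c (b (l 16614864) (b (l 16614960) (l 16615088))) (l 16615304)) (c (b (l 16614976) (l 16615312)) (l 16605176))) (a (c (b (l 16615152) (l 16615664)) (l 16605592)) (c (b (l 16615408) (l 16616088)) (l 16606096))))), by decide +kernel⟩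

def k15_pm_012_a : ∃ t, chk3 f_pm_012_a t 23 15 1 = true :=
  ⟨(b (a (b (l 16621784) (c (l 16629768) (l 16607152))) (b (l 16612752) (c (l 16623432) (l 16602352)))) (b (a (a (c (l 16629288) (l 16608128)) (c (l 16627064) (l 16606648))) (c (b (l 16625160) (l 16627992)) (b (l 16605264) (l 16608808)))) (a (b (c (a (l 16639608) (l 16639424)) (a (l 16609392) (l 16609816))) (c (b (a (c (l 16644952) (l 16625000)) (c (l 16636016) (l 16626760))) (a (c (a (a (b (l 16634928) (c (l 16637448) (l 16632816))) (b (l 16634704) (c (l 16637400) (l 16632800)))) (b (l 16635192) (c (l 16638416) (l 16633848)))) (a (a (l 16625680) (l 16630912)) (b (l 16625960) (l 16626984)))) (c (b (l 16637560) (c (a (l 16645344) (b (l 16641360) (l 16641912))) (a (l 16635568) (l 16637144)))) (b (l 16628432) (a (l 16628752) (l 16630392)))))) (a (c (b (l 16615496) (a (l 16616360) (l 16617272))) (a (l 16606432) (l 16607128))) (b (l 16612824) (c (b (l 16619280) (l 16620528)) (l 16610768)))))) (b (a (c (l 16630944)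 (l 16612224)) (c (l 16633000) (l 16614712))) (c (b (c (a (l 16638680) (l 16640856)) (a (l 16629608) (l 16632008))) (c (b (a (l 16640336) (l 16642624)) (a (c (b (l 16643408) (a (l 16643320) (l 16649848))) (a (l 16638592) (l 16639920))) (c (a (a (l 16645184) (l 16645736)) (a (l 16646256) (l 16646744))) (a (l 16641128) (l 16642232))))) (a (b (l 16631392) (a (l 16642392) (l 16638552))) (b (l 16633912) (a (l 16639856) (l 16641048)))))) (b (c (l 16621896) (l 16612872)) (c (b (l 16634352) (a (l 16623752) (l 16626584))) (a (l 16614152) (l 16617176))))))))), by decide +kernel⟩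

def k16_pm_012_a : ∃ t, chk3 f_pm_012_a t 3 2 1 = true :=
  ⟨(a (a (b (a (l 16936936) (l 16837704)) (a (b (l 16818616) (l 16744768)) (b (l 16731064) (l 16669312)))) (b (a (l 16743632) (l 16656104)) (a (b (l 16651744) (l 16604040)) (b (l 16581744) (l 16550112))))) (a (b (a (b (l 16605896) (l 16562512)) (b (l 16544360) (l 16511576))) (a (b (l 16530880) (l 16513136)) (b (l 16491568) (l 16507232)))) (b (a (b (l 16488472) (l 16466344)) (b (l 16440408) (a (l 16436984) (l 16420040)))) (a (b (l 16457536) (a (l 16468944) (l 16459360))) (b (a (l 16436408) (l 16424536)) (a (l 16451216) (b (l 16437248) (l 16451296)))))))), by decide +kernel⟩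

def k17_pm_012_a : ∃ t, chk3 f_pm_012_a t 6 6 1 = true :=
  ⟨(a (b (a (l 16680200) (l 16619664)) (a (b (l 16640448) (l 16620736)) (b (l 16593224) (l 16584096)))) (b (a (l 16572016) (l 16557632)) (a (b (l 16560968) (l 16563360)) (b (l 16537784) (l 16545888))))), by decide +kernel⟩

def k18_pm_012_a : ∃ t, chk3 f_pm_012_a t 12 14 1 = true :=
  ⟨(b (a (a (l 16615056) (l 16599240)) (a (l 16586760) (l 16579072))) (a (a (l 16606576) (l 16597992)) (a (l 16592816) (l 16609720)))), by decide +kernel⟩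

def k19_pm_012_a : ∃ t, chk3 f_pm_012_a t 12 30 1 = true :=
  ⟨(a (b (a (l 16606472) (l 16604336)) (a (c (l 16621152) (l 16601344)) (c (l 16620936) (l 16602328)))) (b (a (l 16602056) (l 16600136)) (a (c (l 16619280) (l 16602216)) (c (l 16617928) (l 16602544))))), by decide +kernel⟩

def k20_pm_012_a : ∃ t, chk3 f_pm_012_a t 24 31 1 = true :=
  ⟨(b (b (a (l 16638112) (c (l 16627072) (l 16609496))) (a (c (l 16630696) (l 16612512)) (c (l 16631864) (l 16615008)))) (b (a (a (c (l 16634632) (l 16616872)) (c (l 16635872) (l 16618720))) (a (c (l 16636792) (l 16620320)) (c (l 16637424) (l 16621696)))) (c (b (a (c (a (l 16642592) (l 16643928)) (a (l 16634008) (l 16635656))) (c (a (l 16644928) (l 16645624)) (a (l 16637000) (l 16638080)))) (a (b (c (a (l 16644472) (l 16645936)) (a (l 16636032) (l 16637808))) (c (a (c (a (a (l 16647208) (l 16647648)) (b (l 16647928) (l 16651208))) (a (l 16643224) (l 16644128))) (c (a (b (l 16648648) (l 16649328)) (l 16652256)) (a (l 16644936) (l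 16645664)))) (a (a (l 16642152) (l 16643160)) (a (l 16638848) (l 16639696))))) (c (a (b (l 16647056) (c (a (l 16650192) (l 16650672)) (a (l 16646312) (l 16646880)))) (b (l 16647888) (a (l 16654480) (l 16649624)))) (a (b (l 16639280) (c (l 16642768) (l 16638928))) (b (l 16640488) (l 16647392)))))) (a (b (c (l 16626448) (l 16617968)) (c (b (l 16628672) (a (l 16629064) (l 16631240))) (a (l 16619888) (l 16622328)))) (b (c (l 16629832) (l 16622040)) (a (c (b (l 16631480) (l 16633144)) (l 16624544)) (c (l 16633952) (l 16626552)))))))), by decide +kernel⟩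

def k21_pm_012_a : ∃ t, chk3 f_pm_012_a t 25 31 1 = true :=
  ⟨(b (a (c (b (l 16626456) (l 16631888)) (b (l 16610456) (l 16616648))) (c (b (l 16626248) (l 16632544)) (b (l 16611928) (l 16618960)))) (a (b (c (a (l 16637808) (l 16637992)) (l 16644424)) (b (c (c (a (l 16646056) (l 16646344)) (l 16639328)) (l 16649856)) (c (a (c (a (l 16649144) (l 16649416)) (l 16647600)) (c (l 16655024) (l 16643272))) (a (c (l 16635400) (l 16628400)) (l 16633456))))) (c (b (a (l 16638432) (l 16640240)) (a (c (b (l 16646904) (l 16650584)) (l 16653064)) (b (l 16645928) (c (l 16652784) (l 16647056))))) (b (l 16626544) (a (b (l 16631152) (l 16635312)) (l 16657176)))))), by decide +kernel⟩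

def k22_pm_012_a : ∃ t, chk3 f_pm_012_a t 13 7 1 = true :=
  ⟨(b (a (b (a (l 16573784) (l 16568056)) (a (l 16607256) (l 16604728))) (b (a (l 16562408) (l 16557016)) (a (l 16602280) (l 16600304)))) (b (a (b (a (l 16599992) (l 16599872)) (a (c (l 16618696) (l 16604864)) (l 16634352))) (b (a (l 16600040) (l 16600552)) (a (l 16636200) (l 16638336)))) (a (b (a (c (b (l 16628240) (l 16635424)) (l 16619432)) (c (l 16655432) (l 16623552))) (b (a (c (l 16664160) (l 16631792)) (c (l 16647064) (l 16637144))) (c (a (b (l 16649360) (c (a (l 16655104) (l 16657400)) (a (l 16649720) (l 16652376)))) (b (l 16653872) (a (l 16657360) (l 16659832)))) (a (a (l 16660256) (l 16642360)) (a (l 16645432) (l 16648528)))))) (b (a (c (l 16658144) (l 16627840)) (c (l 16640080) (l 16632360))) (b (a (c (l 16651016) (l 16642616)) (c (l 16655120) (l 16648280))) (a (c (a (b (l 16657264) (l 16662312)) (l 16662200)) (a (l 16651656) (l 16654808))) (c (a (l 16664648) (l 16667136)) (a (l 16658008) (l 16661272))))))))),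 by decide +kernel⟩

def k23_pm_012_a : ∃ t, chk3 f_pm_012_a t 7 6 1 = true :=
  ⟨(a (b (a (b (l 16509936) (l 16513888)) (b (l 16492256) (l 16502656))) (a (b (l 16522920) (l 16579248)) (b (l 16539072) (a (l 16538176) (l 16539688))))) (a (b (a (l 16489632) (l 16527696)) (a (b (l 16516736) (l 16541896)) (b (l 16517008) (l 16544824)))) (b (a (b (l 16472560) (l 16492944)) (b (l 16469664) (l 16492544))) (a (b (l 16518160) (a (l 16547456) (l 16549456))) (b (a (l 16519560) (l 16520784)) (a (l 16551640) (l 16574960))))))), by decide +kernel⟩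

def k24_pm_012_a : ∃ t, chk3 f_pm_012_a t 14 7 1 = true :=
  ⟨(b (a (b (a (l 16556096) (l 16559504)) (a (b (l 16574320) (l 16588864)) (b (l 16580072) (l 16596128)))) (b (a (l 16563400) (l 16588768)) (a (b (l 16586176) (l 16603632)) (b (l 16592640) (l 16611432))))) (b (a (b (a (l 16605264) (l 16613976)) (a (l 16644568) (c (l 16637080) (l 16630264)))) (b (a (l 16643824) (a (l 16629608) (l 16634200))) (a (c (l 16667840) (l 16640848)) (a (l 16672552) (l 16677736))))) (a (b (a (c (l 16668176) (l 16640648)) (a (l 16673488) (l 16679208))) (b (a (c (l 16663352) (l 16657608)) (c (l 16675456) (l 16670336))) (a (c (b (l 16671904) (l 16677800)) (l 16680152)) (c (b (l 16684496) (l 16701192)) (b (l 16679752) (l 16686208)))))) (b (a (b (l 16681808) (c (l 16675232) (l 16670304))) (b (c (l 16674296) (l 16669680)) (c (l 16697120) (l 16682416)))) (c (b (a (l 16697960) (a (l 16696440) (l 16702424))) (a (b (l 16696968) (a (l 16700272) (l 16706632))) (b (a (l 16706248) (l 16712440)) (a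 (l 16712968) (c (l 16720040) (l 16718528)))))) (b (a (l 16703976) (a (l 16692464) (l 16698792))) (a (b (l 16692832) (l 16707760)) (b (l 16716360) (a (l 16709528) (l 16716168)))))))))), by decide +kernel⟩

def k25_pm_012_a : ∃ t, chk3 f_pm_012_a t 15 7 1 = true :=
  ⟨(b (a (b (a (b (l 16564192) (l 16581080)) (b (l 16569048) (l 16587168))) (a (b (l 16599504) (l 16640504)) (b (l 16627768) (a (l 16625808) (l 16630128))))) (a (b (b (l 16574488) (l 16614744)) (b (a (l 16612528) (l 16616496)) (a (l 16634536) (l 16660000)))) (a (b (b (l 16578936) (l 16599040)) (b (l 16620584) (b (l 16637648) (l 6)))) (b (b (l 16582104) (l 16602728)) (b (a (l 16623712) (l 6)) (l 6)))))) (b (a (a (b (a (l 16638848) (l 16643560)) (a (l 16677712) (b (l 16661088) (l 16673376)))) (b (a (l 16669320) (l 16663688)) (a (b (l 16666280) (l 16678824)) (b (l 16671528) (l 16684328))))) (a (b (a (b (l 16652008) (l 16664208)) (l 6)) (l 6)) (l 6))) (a (a (a (b (b (l 16680440) (l 16703864)) (b (c (l 16708408)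 (l 16705128)) (a (b (l 16715560) (b (l 16720824) (l 16729624))) (b (l 16718736) (l 6))))) (b (b (l 16686112) (l 16709792)) (b (c (l 16724896) (l 16721968)) (l 6)))) (b (b (a (l 16702304) (l 6)) (l 6)) (l 6))) (l 6)))), by decide +kernel⟩

theorem s26_pm_012_a : ∃ t, chk3 f_pm_012_a t 7 7 1 = true := ex3_a k24_pm_012_a k25_pm_012_a

theorem s27_pm_012_a : ∃ t, chk3 f_pm_012_a t 7 3 1 = true := ex3_b k23_pm_012_a s26_pm_012_a

theorem s28_pm_012_a : ∃ t, chk3 f_pm_012_a t 12 31 1 = true := ex3_a k20_pm_012_a k21_pm_012_a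

theorem s29_pm_012_a : ∃ t, chk3 f_pm_012_a t 12 15 1 = true := ex3_b k19_pm_012_a s28_pm_012_a

theorem s30_pm_012_a : ∃ t, chk3 f_pm_012_a t 12 7 1 = true := ex3_b k18_pm_012_a s29_pm_012_a

theorem s31_pm_012_a : ∃ t, chk3 f_pm_012_a t 6 7 1 = true := ex3_a s30_pm_012_a k22_pm_012_a

theorem s32_pm_012_a : ∃ t, chk3 f_pm_012_a t 6 3 1 = true := ex3_b k17_pm_012_a s31_pm_012_a

theorem s33_pm_012_a : ∃ t, chk3 f_pm_012_a t 3 3 1 = true := ex3_a s32_pm_012_a s27_pm_012_a

theorem s34_pm_012_a : ∃ t, chk3 f_pm_012_a t 3 1 1 = true := ex3_b k16_pm_012_a s33_pm_012_a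

theorem s35_pm_012_a : ∃ t, chk3 f_pm_012_a t 22 127 1 = true := ex3_a k13_pm_012_a k14_pm_012_a

theorem s36_pm_012_a : ∃ t, chk3 f_pm_012_a t 22 63 1 = true := ex3_b k12_pm_012_a s35_pm_012_a

theorem s37_pm_012_a : ∃ t, chk3 f_pm_012_a t 22 31 1 = true := ex3_b k11_pm_012_a s36_pm_012_a

theorem s38_pm_012_a : ∃ t, chk3 f_pm_012_a t 22 15 1 = true := ex3_b k10_pm_012_a s37_pm_012_a

theorem s39_pm_012_a : ∃ t, chk3 f_pm_012_a t 11 15 1 = true := ex3_a s38_pm_012_a k15_pm_012_a

theorem s40_pm_012_a : ∃ t, chk3 f_pm_012_a t 11 7 1 = true := ex3_b k9_pm_012_a s39_pm_012_a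

theorem s41_pm_012_a : ∃ t, chk3 f_pm_012_a t 11 3 1 = true := ex3_b k8_pm_012_a s40_pm_012_a

theorem s42_pm_012_a : ∃ t, chk3 f_pm_012_a t 10 31 1 = true := ex3_a k6_pm_012_a k7_pm_012_a

theorem s43_pm_012_a : ∃ t, chk3 f_pm_012_a t 10 15 1 = true := ex3_b k5_pm_012_a s42_pm_012_a

theorem s44_pm_012_a : ∃ t, chk3 f_pm_012_a t 10 7 1 = true := ex3_b k4_pm_012_a s43_pm_012_a

theorem s45_pm_012_a : ∃ t, chk3 f_pm_012_a t 10 3 1 = true := ex3_b k3_pm_012_a s44_pm_012_a

theorem s46_pm_012_a : ∃ t, chk3 f_pm_012_a t 5 3 1 = true := ex3_a s45_pm_012_a s41_pm_012_a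

theorem s47_pm_012_a : ∃ t, chk3 f_pm_012_a t 5 1 1 = true := ex3_b k2_pm_012_a s46_pm_012_a

theorem s48_pm_012_a : ∃ t, chk3 f_pm_012_a t 4 1 1 = true := ex3_b k0_pm_012_a k1_pm_012_a

theorem s49_pm_012_a : ∃ t, chk3 f_pm_012_a t 2 1 1 = true := ex3_a s48_pm_012_a s47_pm_012_a

theorem s50_pm_012_a : ∃ t, chk3 f_pm_012_a t 1 1 1 = true := ex3_a s49_pm_012_a s34_pm_012_a

theorem c_pm_012_a : CertN 0 536870912 0 536870912 335544320 67108864 3 false true false .pnp 0 1 2
    ndN0q0 ndN1q2a pcN1 cut_pm_012_a Ext.none :=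
  certN2 (fam := false) (s1 := true) (s2 := false) (a := 0) (b := 1) (c := 2) (cn := .pnp) (n1 := ndN0q0) (n2 := ndN1q2a) (pc := pcN1) (cut := cut_pm_012_a) (xt := Ext.none) (P1 := 0) (W1 := 536870912) (P2 := 0) (W2 := 536870912) (P3 := 335544320) (W3 := 67108864) (N0 := 3)
    rfl (fun _ => rfl) s50_pm_012_a

noncomputable def cut_pm_012_b : Cut := Cut.of [[⟨0, 0, 0, 67108864⟩, ⟨1, 1, 0, 67108864⟩, ⟨2, 1, 0, 67108864⟩], [⟨0, 0, 1, 33554432⟩, ⟨1, 1, 2, 33554432⟩, ⟨2, 1, 0, 33554432⟩]]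

noncomputable def f_pm_012_b : ℕ → ℕ → ℕ → ℕ → Bool := onCell 0 536870912 536870912 536870912 335544320 67108864
    (rowN 3 1 false true false .pnp 0 1 2 (qsf 0 536870912 1239849684 370763052 1) ndN0q0 ndN1q2b pcN1 cut_pm_012_b Ext.none)

def k0_pm_012_b : ∃ t, chk3 f_pm_012_b t 1 1 1 = true :=
  ⟨(a (b (l 1) (b (l 1) (a (l 1) (a (b (l 1) (b (a (l 1) (b (l 1) (l 16587688))) (a (b (l 1) (a (l 1) (l 16477616))) (b (l 16500816) (l 16454784))))) (b (a (b (l 1) (a (l 1) (l 16615784))) (b (l 101502245463) (l 16623904))) (b (a (b (l 16533784) (l 16465120)) (l 16459992)) (a (b (l 16395088) (l 16344800)) (b (l 16306632) (l 16209592))))))))) (b (b (l 1) (a (l 1) (b (a (l 1) (l 214246498071)) (a (a (l 202434721799) (l 17165800)) (l 60164057959))))) (a (b (a (b (l 1) (a (b (l 1) (l 131030265655)) (b (l 155726396855) (l 16710504)))) (b (a (l 190623198151) (l 92375974231)) (a (l 16902704) (l 16690832)))) (a (b (a (b (l 16627832) (l 16483240)) (l 16675592)) (b (a (l 16372400) (l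 16266024)) (a (b (l 16190048) (l 16129360)) (l 16072776)))) (b (b (l 16476568) (l 16368872)) (a (b (l 16163488) (l 16034984)) (l 16196960))))) (b (a (b (a (l 16944248) (l 16907120)) (l 16745208)) (b (l 16896088) (l 16831344))) (a (b (l 16572520) (a (l 16487952) (l 16723512))) (b (l 16877376) (l 16989408))))))), by decide +kernel⟩

theorem c_pm_012_b : CertN 0 536870912 1239849684 370763052 335544320 67108864 3 false true false .pnp 0 1 2
    ndN0q0 ndN1q2b pcN1 cut_pm_012_b Ext.none :=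
  certN1 (fam := false) (s1 := true) (s2 := false) (a := 0) (b := 1) (c := 2) (cn := .pnp) (n1 := ndN0q0) (n2 := ndN1q2b) (pc := pcN1) (cut := cut_pm_012_b) (xt := Ext.none) (P1 := 0) (W1 := 536870912) (P2 := 1239849684) (W2 := 370763052) (P3 := 335544320) (W3 := 67108864) (N0 := 3)
    rfl (fun _ => rfl) k0_pm_012_b

noncomputable def cut_pm_022_a : Cut := Cut.of [[⟨0, 0, 0, 67108864⟩, ⟨1, 1, 0, 67108864⟩, ⟨2, 1, 0, 67108864⟩]]

noncomputable def f_pm_022_a : ℕ → ℕ → ℕ → ℕ → Bool := onCell 0 536870912 0 536870912 335544320 67108864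
    (rowN 3 0 false true false .pp 0 2 2 (qsf 0 536870912 0 536870912 2) ndN0q0 ndN1q2a pcN2 cut_pm_022_a Ext.none)

def k0_pm_022_a : ∃ t, chk3 f_pm_022_a t 1 1 1 = true :=
  ⟨(a (b (a (a (b (a (b (l 16461480) (l 16492704)) (b (l 16429464) (a (l 16446552) (l 16429264)))) (a (b (l 16552640) (a (l 16566720) (l 16548704))) (a (b (l 16484384) (l 16530384)) (b (l 16466320) (l 16480224))))) (b (a (a (l 16471400) (l 16411592)) (a (l 16414024) (l 16409792))) (a (b (l 16459192) (c (l 16504160) (l 16502792))) (b (l 16424696) (c (l 16451808) (l 16446416)))))) (a (a (b (b (l 16383752) (l 16404472)) (b (l 16425192) (a (l 16399704) (l 1)))) (b (b (l 1) (l 1)) (l 1))) (l 1))) (a (b (a (a (a (b (c (l 16624280) (l 16620432)) (b (l 16612432) (c (l 16659560) (l 16656736)))) (b (b (l 16531280) (l 16550744)) (b (l 16593672) (c (l 16640392) (l 16638072))))) (b (a (b (l 16512576) (l 16552792)) (b (l 16514440) (l 16512488))) (a (b (l 16595536) (c (l 16620848) (l 16619056))) (b (l 16544544)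 (c (l 16579872) (l 16557680)))))) (b (a (b (l 16474272) (a (l 16492664) (l 16472248))) (b (l 16463808) (l 16491344))) (a (b (a (l 16534984) (l 16514344)) (a (a (l 16564240) (l 16553976)) (l 16552440))) (b (a (l 16482296) (l 1)) (l 1))))) (a (b (b (b (a (a (l 16668136) (l 16638632)) (a (l 16619232) (l 16578416))) (b (a (a (l 16668528) (l 16649456)) (a (l 16630008) (l 16589128))) (a (l 6) (a (l 6) (l 16601768))))) (a (l 6) (a (l 6) (a (l 6) (a (l 6) (l 1)))))) (a (l 6) (a (l 6) (l 1)))) (b (a (a (b (b (l 16568520) (l 16594472)) (l 1)) (l 1)) (l 1)) (l 1)))) (b (l 1) (l 1)))) (l 1)), by decide +kernel⟩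

theorem c_pm_022_a : CertN 0 536870912 0 536870912 335544320 67108864 3 false true false .pp 0 2 2
    ndN0q0 ndN1q2a pcN2 cut_pm_022_a Ext.none :=
  certN0 (fam := false) (s1 := true) (s2 := false) (a := 0) (b := 2) (c := 2) (cn := .pp) (n1 := ndN0q0) (n2 := ndN1q2a) (pc := pcN2) (cut := cut_pm_022_a) (xt := Ext.none) (P1 := 0) (W1 := 536870912) (P2 := 0) (W2 := 536870912) (P3 := 335544320) (W3 := 67108864) (N0 := 3)
    rfl k0_pm_022_a

noncomputable def cut_pm_022_b : Cut := Cut.of [[⟨0, 0, 0, 67108864⟩, ⟨1, 1, 0, 67108864⟩, ⟨2, 1, 0, 67108864⟩]]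

noncomputable def f_pm_022_b : ℕ → ℕ → ℕ → ℕ → Bool := onCell 1073741824 536870912 1239849684 370763052 335544320 67108864
    (rowN 3 2 false true false .pp 0 2 2 (qsf 0 536870912 1239849684 370763052 2) ndN0q0 ndN1q2b pcN2 cut_pm_022_b Ext.none)

def k0_pm_022_b : ∃ t, chk3 f_pm_022_b t 1 1 1 = true :=
  ⟨(a (b (a (b (b (a (a (a (l 16401120) (l 16359544)) (l 16402288)) (a (l 16395128) (b (l 16398456) (l 16335568)))) (a (a (a (l 16316552) (l 16292216)) (l 16288120)) (a (l 16283384) (l 16281104)))) (a (b (a (a (l 16253792) (l 16181304)) (l 16211288)) (a (b (l 16171440) (l 16129256)) (l 16157936))) (b (a (l 16177032) (l 16166072)) (a (l 16112040) (l 16069584))))) (b (a (b (b (a (l 16451448) (l 58015139207)) (a (l 16390928) (l 16423952))) (a (b (l 16329456) (l 16245888)) (l 16377104))) (b (a (b (l 1) (l 88616735063)) (l 1)) (a (l 29560835767) (l 102038485207)))) (a (b (a (l 16170728) (l 16199960)) (l 16140000)) (b (a (l 16253856) (l 16294152)) (l 16260448))))) (a (b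 (a (b (a (a (l 16149584) (l 16120400)) (l 16102272)) (a (b (l 16493400) (l 16687056)) (l 16541808))) (b (a (l 16040648) (l 16012600)) (a (l 16499328) (l 16467224)))) (a (b (a (b (l 16854344) (l 16998808)) (l 16873400)) (a (l 17173240) (l 17115912))) (b (a (l 16831728) (l 16798784)) (l 17054048)))) (b (a (b (l 16063872) (a (l 16444520) (l 16432184))) (b (a (l 16023848) (l 16056064)) (l 16436600))) (a (b (l 16762296) (l 17002048)) (b (l 16742712) (l 16974304)))))) (a (b (b (l 1) (a (b (a (l 115996991415) (l 162167980951)) (a (l 16203728) (l 16251136))) (b (l 1) (a (l 16364800) (l 1))))) (b (a (b (l 16171416) (l 16480000)) (b (l 53719925623) (l 16569456))) (a (b (l 16756848) (l 16971784)) (l 16905912)))) (b (l 1) (a (b (l 4) (a (l 16958368) (l 4))) (l 4))))), by decide +kernel⟩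

theorem c_pm_022_b : CertN 0 536870912 1239849684 370763052 335544320 67108864 3 false true false .pp 0 2 2
    ndN0q0 ndN1q2b pcN2 cut_pm_022_b Ext.none :=
  certN2 (fam := false) (s1 := true) (s2 := false) (a := 0) (b := 2) (c := 2) (cn := .pp) (n1 := ndN0q0) (n2 := ndN1q2b) (pc := pcN2) (cut := cut_pm_022_b) (xt := Ext.none) (P1 := 0) (W1 := 536870912) (P2 := 1239849684) (W2 := 370763052) (P3 := 335544320) (W3 := 67108864) (N0 := 3)
    rfl (fun _ => rfl) k0_pm_022_b

noncomputable def f_pm_023 : ℕ → ℕ → ℕ → ℕ → Bool := onCell 0 536870912 1073741824 536870912 335544320 67108864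
    (rowN 3 1 false true false .up 0 2 3 (qsf 0 536870912 1610612736 536870912 2) ndN0q0 ndN1q3 pcN2 Cut.none Ext.none)

def k0_pm_023 : ∃ t, chk3 f_pm_023 t 1 1 1 = true :=
  ⟨(a (b (b (l 1) (a (l 1) (b (l 1) (l 223371438183)))) (b (a (b (l 1) (l 219076123319)) (b (l 259878845303) (l 293165488503))) (a (b (l 273837360407) (l 4)) (b (l 17297416) (l 17378760))))) (b (a (b (a (l 1) (l 267395625511)) (a (l 277059225271) (l 308198411111))) (b (a (l 298534733895) (l 313567593047)) (a (l 17390768) (l 17429928)))) (b (a (a (l 17326024) (l 17403712)) (l 17405352)) (a (l 17433680) (l 17326384))))), by decide +kernel⟩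

theorem c_pm_023 : CertN 0 536870912 1610612736 536870912 335544320 67108864 3 false true false .up 0 2 3
    ndN0q0 ndN1q3 pcN2 Cut.none Ext.none :=
  certN1 (fam := false) (s1 := true) (s2 := false) (a := 0) (b := 2) (c := 3) (cn := .up) (n1 := ndN0q0) (n2 := ndN1q3) (pc := pcN2) (cut := Cut.none) (xt := Ext.none) (P1 := 0) (W1 := 536870912) (P2 := 1610612736) (W2 := 536870912) (P3 := 335544320) (W3 := 67108864) (N0 := 3)
    rfl (fun _ => rfl) k0_pm_023

noncomputable def f_pm_033 : ℕ → ℕ → ℕ → ℕ → Bool := onCell 1610612736 536870912 1610612736 536870912 335544320 67108864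
    (rowN 3 2 false true false .pnn 0 3 3 (qsf 0 536870912 1610612736 536870912 3) ndN0q0 ndN1q3 pcN3 Cut.none Ext.none)

def k0_pm_033 : ∃ t, chk3 f_pm_033 t 1 1 1 = true :=
  ⟨(a (b (a (a (b (l 4) (l 17400528)) (l 4)) (l 4)) (a (b (a (l 17360720) (l 17371336)) (a (l 17310528) (l 17466760))) (a (b (l 4) (l 17250072)) (l 4)))) (l 4)), by decide +kernel⟩

theorem c_pm_033 : CertN 0 536870912 1610612736 536870912 335544320 67108864 3 false true false .pnn 0 3 3
    ndN0q0 ndN1q3 pcN3 Cut.none Ext.none :=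
  certN2 (fam := false) (s1 := true) (s2 := false) (a := 0) (b := 3) (c := 3) (cn := .pnn) (n1 := ndN0q0) (n2 := ndN1q3) (pc := pcN3) (cut := Cut.none) (xt := Ext.none) (P1 := 0) (W1 := 536870912) (P2 := 1610612736) (W2 := 536870912) (P3 := 335544320) (W3 := 67108864) (N0 := 3)
    rfl (fun _ => rfl) k0_pm_033

noncomputable def f_pm_101 : ℕ → ℕ → ℕ → ℕ → Bool := onCell 0 536870912 536870912 536870912 335544320 67108864
    (rowN 3 2 false true false .npn 1 0 1 (qsf 536870912 536870912 536870912 536870912 0) ndN0q1 ndN1q1 pcN0 Cut.none Ext.none)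

def k0_pm_101 : ∃ t, chk3 f_pm_101 t 1 1 1 = true :=
  ⟨(a (b (l 4) (a (b (l 4) (a (b (l 17741360) (a (l 17642912) (l 17647384))) (b (l 4) (b (l 4) (l 17657360))))) (l 4))) (l 4)), by decide +kernel⟩

theorem c_pm_101 : CertN 536870912 536870912 536870912 536870912 335544320 67108864 3 false true false .npn 1 0 1
    ndN0q1 ndN1q1 pcN0 Cut.none Ext.none :=
  certN2 (fam := false) (s1 := true) (s2 := false) (a := 1) (b := 0) (c := 1) (cn := .npn) (n1 := ndN0q1) (n2 := ndN1q1) (pc := pcN0) (cut := Cut.none) (xt := Ext.none) (P1 := 536870912) (W1 := 536870912) (P2 := 536870912) (W2 := 536870912) (P3 := 335544320) (W3 := 67108864) (N0 := 3)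
    rfl (fun _ => rfl) k0_pm_101

noncomputable def cut_pm_102_a : Cut := Cut.of [[⟨0, 1, 0, 67108864⟩, ⟨1, 0, 0, 67108864⟩, ⟨2, 1, 0, 67108864⟩]]

noncomputable def f_pm_102_a : ℕ → ℕ → ℕ → ℕ → Bool := onCell 536870912 536870912 0 536870912 335544320 67108864
    (rowN 3 0 false true false .npp 1 0 2 (qsf 536870912 536870912 0 536870912 0) ndN0q1 ndN1q2a pcN0 cut_pm_102_a Ext.none)

def k0_pm_102_a : ∃ t, chk3 f_pm_102_a t 2 1 1 = true :=
  ⟨(b (a (a (l 2) (b (l 2) (a (l 2) (l 17075928)))) (a (b (l 16970616) (b (l 17215088) (l 17027992))) (b (l 16886216) (l 17036632)))) (a (b (a (l 2) (l 17393784)) (a (b (a (l 2) (l 17180144)) (a (b (l 17188536) (l 17173456)) (l 17224720))) (a (b (l 17153048) (l 17148744)) (b (l 17128816) (l 17137528))))) (b (a (b (l 17060328) (l 17078592)) (a (l 17179392) (l 17220320))) (a (b (a (l 17104560) (l 17078848)) (a (l 17167560) (l 17174680))) (b (b (l 17026552) (l 17047912)) (b (l 17114528) (a (l 17107880) (l 17090896)))))))), by decide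 +kernel⟩

def k1_pm_102_a : ∃ t, chk3 f_pm_102_a t 3 2 1 = true :=
  ⟨(a (b (a (l 16911704) (a (b (l 16770312) (l 16799336)) (b (a (l 131164333431) (b (l 145659785415) (l 130627412711))) (a (l 16795832) (b (l 16787192) (l 16791856)))))) (a (l 16849184) (b (a (l 16793200) (l 16821552)) (l 16921008)))) (a (b (a (b (a (b (l 3) (l 144049162183)) (l 3)) (a (b (a (l 131701148983) (l 141364810519)) (a (l 16783240) (l 130627401575))) (b (l 3) (a (l 141364805239) (l 3))))) (l 3)) (a (b (a (l 16806656) (b (a (l 129553653991) (b (l 142438539367) (l 140291059959))) (a (l 16777704) (b (l 129016767799) (l 16771776))))) (a (l 16793416) (l 16802344))) (b (a (b (l 3) (a (b (l 141901663079) (l 133848603799)) (b (l 3) (l 144049137847)))) (l 3)) (a (b (a (b (l 16766984) (l 16769680)) (b (a (l 132237985111) (l 143512267703)) (a (l 16764144) (l 132237983047)))) (a (l 16773840) (b (l 16765152) (l 16768128)))) (b (a (b (l 3) (a (l 142975394647) (l 3))) (l 3)) (c (a (b (l 140827915303) (l 132774856791))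 (b (l 3) (a (l 141364780775) (l 3)))) (a (b (a (l 132774848807) (l 141364776503)) (a (l 16760944) (l 132774847191))) (b (l 3) (a (l 140827903847) (l 3)))))))))) (l 3))), by decide +kernel⟩

def k2_pm_102_a : ∃ t, chk3 f_pm_102_a t 6 3 1 = true :=
  ⟨(b (a (a (l 17137816) (l 17097592)) (b (l 16858128) (l 17037816))) (a (b (b (l 16956784) (l 16986808)) (b (a (l 17035056) (l 17004664)) (a (l 17069528) (l 17043176)))) (a (b (l 16974800) (b (l 16969552) (l 17011464))) (b (l 16998832) (b (b (l 16918400) (l 16940024)) (l 16973872)))))), by decide +kernel⟩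

def k3_pm_102_a : ∃ t, chk3 f_pm_102_a t 14 6 1 = true :=
  ⟨(a (b (l 16796768) (l 16800872)) (b (c (a (l 16801464) (b (a (l 16766544) (b (a (l 133848593191) (l 140827908151)) (a (l 16762464) (l 134385459239)))) (a (l 16773344) (l 16765832)))) (a (l 16799312) (b (a (l 16763960) (b (a (l 132774845831) (b (l 142975384631) (l 138680419927))) (a (l 16759872) (b (l 133848584839) (l 16756800))))) (a (l 16771160) (l 16763504))))) (a (l 16792816) (b (l 16776520) (l 16785192))))), by decide +kernel⟩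

def k4_pm_102_a : ∃ t, chk3 f_pm_102_a t 30 12 1 = true :=
  ⟨(a (b (c (a (b (l 3) (a (l 139754164919) (l 3))) (l 3)) (a (b (l 3) (a (b (l 140827899671) (l 138143547959)) (l 3))) (l 3))) (a (c (b (a (l 134922328935) (b (l 140291033255) (l 138143552439))) (a (l 16761872) (l 16757880))) (b (a (b (l 133311707255) (l 16756552)) (b (l 139754156919) (l 137069805479))) (a (l 16759544) (b (l 16754464) (l 16756528))))) (c (b (a (l 3) (l 3)) (a (b (l 141364774295) (l 137069810151)) (b (l 3) (l 143512254887)))) (b (a (l 3) (l 3)) (a (b (a (l 132237965159) (l 143512251127)) (a (l 16753440) (l 137606674215))) (b (l 3) (a (l 143512251031) (l 3)))))))) (l 3)), by decide +kernel⟩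

def k5_pm_102_a : ∃ t, chk3 f_pm_102_a t 30 13 1 = true :=
  ⟨(a (c (b (a (l 16765992) (b (a (l 16757904) (b (l 140827903095) (l 135459197479))) (a (l 16762240) (l 16758192)))) (a (l 16775032) (l 16767288))) (b (a (l 16763968) (b (a (l 16755648) (b (a (l 137069803399) (l 142975380151)) (a (l 16753664) (l 137069803623)))) (a (l 16760208) (l 16756096)))) (a (l 16773496) (l 16765600)))) (b (a (b (a (a (b (l 3) (c (l 140291030535) (l 142438509415))) (l 3)) (l 3)) (a (c (b (a (l 132237970231) (l 140291030695)) (a (l 16756264) (l 132237970615))) (b (a (b (l 139217286535) (l 16752376)) (b (l 3) (l 141364768711))) (a (l 16754176) (b (l 137069803367) (l 16752688))))) (c (b (l 3) (a (l 139754160103) (l 3))) (b (l 3) (a (b (l 144049122039) (l 139754156503)) (l 3)))))) (l 3)) (a (c (b (a (l 16758792) (b (a (l 132237971143) (l 139217289671)) (a (l 16756928) (l 132237971863)))) (l 16761776)) (b (a (l 16756864) (b (a (b (l 134922320375) (l 16753080)) (b (l 143512251703) (l 139217286279)))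 (a (l 16755008) (b (l 131701095735) (l 16753552))))) (a (l 16762120) (l 16757968)))) (b (c (a (b (l 3) (a (b (l 141364772983) (l 138143549319)) (l 3))) (l 3)) (a (b (l 3) (a (b (l 141901639719) (a (l 132774837015) (l 139217286263))) (l 3))) (l 3))) (a (b (c (a (b (l 132237971463) (l 16755960)) (b (l 140827902823) (l 137069808375))) (a (b (l 131701096759) (l 16754120)) (b (l 141901640647) (a (l 132237967191) (l 138680416391))))) (c (a (l 16757936) (b (l 131164227879) (l 16756528))) (a (l 16756200) (b (l 130090481943) (l 16754784))))) (c (b (l 3) (a (b (l 139754161927) (l 136532938535)) (l 3))) (b (l 3) (a (b (a (l 138143546071) (l 3)) (a (l 130627352967) (l 137606675799))) (l 3))))))))), by decide +kernel⟩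

def k6_pm_102_a : ∃ t, chk3 f_pm_102_a t 31 6 1 = true :=
  ⟨(l 3), by decide +kernel⟩

def k7_pm_102_a : ∃ t, chk3 f_pm_102_a t 14 7 1 = true :=
  ⟨(b (a (l 16964056) (a (l 16812104) (l 16795544))) (a (b (l 16883920) (b (l 16918272) (l 16941896))) (a (b (l 16846824) (b (l 16882168) (l 16906144))) (b (l 16847496) (b (l 16857176) (l 16881288)))))), by decide +kernel⟩

def k8_pm_102_a : ∃ t, chk3 f_pm_102_a t 30 14 1 = true :=
  ⟨(a (b (l 16802032) (l 16788752)) (b (c (a (l 16769960) (b (a (l 16761016) (b (a (b (l 131164228935) (l 16757200)) (b (l 139754163063) (a (l 131164229063) (l 137606680663)))) (a (l 16759328) (b (l 16755208) (l 16757960))))) (a (l 16766816) (l 16762712)))) (a (l 16768656) (b (a (l 16759456) (b (c (a (l 129553614823) (b (l 138680418631) (l 135459195527))) (a (b (l 129553611415) (l 16755056)) (b (l 138680416567) (l 134922322663)))) (a (l 16757776) (b (a (l 16755432) (l 16753056)) (l 16756408))))) (a (l 16765528) (l 16761352))))) (b (a (l 16778528)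 (l 16770528)) (l 16802200)))), by decide +kernel⟩

def k9_pm_102_a : ∃ t, chk3 f_pm_102_a t 62 28 1 = true :=
  ⟨(a (b (c (a (b (l 3) (a (b (a (l 137606681367) (l 142975389127)) (a (l 16756392) (l 135996069383))) (b (l 3) (l 142975389303)))) (l 3)) (a (b (l 3) (a (b (a (b (l 138680419207) (l 134922324071)) (l 141901643847)) (a (l 16754816) (b (l 138143549127) (l 134385454039)))) (b (l 3) (a (l 143512257415) (l 3))))) (l 3))) (a (c (b (a (b (l 16757336) (l 16758832)) (b (a (l 137069812023) (l 141364777895)) (a (l 16757256) (l 135459200151)))) (a (l 16761120) (l 16759032))) (b (a (b (l 16755816) (l 16757376)) (b (a (b (l 137606679095) (l 133848584071)) (l 142975387383)) (a (l 16755784) (b (l 137069809127) (l 131701099447))))) (a (l 16759776) (l 16757648)))) (c (b (a (b (l 3) (l 142438520007)) (l 3)) (a (b (a (l 135996071975) (l 140827908695)) (a (l 16758232) (l 135459202695))) (b (l 3) (a (l 140827909639) (l 3))))) (b (a (b (l 3) (a (l 140827904679) (l 3))) (l 3)) (a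 (b (a (b (l 136532939223) (l 131164229511)) (b (l 3) (l 139754164423))) (a (l 16756864) (b (l 135996069367) (l 130090488711)))) (b (l 3) (c (l 142438519671) (l 140827905223)))))))) (l 3)), by decide +kernel⟩

def k10_pm_102_a : ∃ t, chk3 f_pm_102_a t 62 29 1 = true :=
  ⟨(a (c (b (a (l 16764840) (b (a (l 16760096) (b (a (b (l 136532944135) (l 16758112)) (l 140291039735)) (a (l 16759328) (b (l 135996074295) (l 16758680))))) (a (l 16763360) (l 16761264)))) (a (l 16771552) (l 16767432))) (b (a (l 16763688) (b (a (l 16758816) (b (a (b (l 135459199591) (l 129553618823)) (b (l 3) (l 138680424807))) (a (l 16758056) (b (l 134922329863) (l 16757408))))) (a (l 16762224) (l 16760096)))) (a (l 16770704) (l 16766504)))) (b (a (b (a (b (l 3) (a (b (l 3) (c (l 139217299543) (l 138143555095))) (l 3))) (l 3)) (c (a (b (a (b (l 135996075431) (l 16759272)) (b (l 142975395847) (l 138680429767))) (a (l 16760528) (b (l 134922334807) (l 16759896)))) (b (l 3) (a (b (l 142438526087) (l 138143560071))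 (l 3)))) (a (b (a (b (l 134385460183) (l 16758056)) (b (l 144049135031) (l 137606685431))) (a (l 16759368) (b (l 133848590583) (l 16758736)))) (b (l 3) (a (b (l 143512265383) (l 137606686759)) (l 3)))))) (l 3)) (a (c (b (a (l 16762560) (b (a (b (l 133848593095) (l 16760552)) (b (l 141901656391) (l 138143561335))) (a (l 16761848) (b (l 133311723431) (l 16761232))))) (l 16765024)) (b (a (l 16761504) (b (a (b (l 132237977751) (l 16759448)) (b (l 141364783079) (l 136532946311))) (a (l 16760800) (b (l 131701108279) (l 16760184))))) (a (l 16765160) (l 16763032)))) (b (a (b (l 3) (c (a (b (l 142438528583) (l 137606691751)) (l 3)) (a (b (l 140827913559) (a (l 132237979719) (l 139217301863))) (l 3)))) (l 3)) (l 6))))), by decide +kernel⟩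

def k11_pm_102_a : ∃ t, chk3 f_pm_102_a t 63 14 1 = true :=
  ⟨(l 3), by decide +kernel⟩

def k12_pm_102_a : ∃ t, chk3 f_pm_102_a t 15 15 1 = true :=
  ⟨(a (b (a (l 16829696) (a (l 16794368) (l 16786472))) (b (a (l 16830944) (l 16828752)) (a (l 16855784) (l 6)))) (b (a (a (b (l 16797392) (l 6)) (l 6)) (l 6)) (l 6))), by decide +kernel⟩

theorem s13_pm_102_a : ∃ t, chk3 f_pm_102_a t 62 14 1 = true := ex3_b k9_pm_102_a k10_pm_102_a

theorem s14_pm_102_a : ∃ t, chk3 f_pm_102_a t 31 14 1 = true := ex3_a s13_pm_102_a k11_pm_102_a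

theorem s15_pm_102_a : ∃ t, chk3 f_pm_102_a t 15 14 1 = true := ex3_a k8_pm_102_a s14_pm_102_a

theorem s16_pm_102_a : ∃ t, chk3 f_pm_102_a t 15 7 1 = true := ex3_b s15_pm_102_a k12_pm_102_a

theorem s17_pm_102_a : ∃ t, chk3 f_pm_102_a t 7 7 1 = true := ex3_a k7_pm_102_a s16_pm_102_a

theorem s18_pm_102_a : ∃ t, chk3 f_pm_102_a t 30 6 1 = true := ex3_b k4_pm_102_a k5_pm_102_a

theorem s19_pm_102_a : ∃ t, chk3 f_pm_102_a t 15 6 1 = true := ex3_a s18_pm_102_a k6_pm_102_a

theorem s20_pm_102_a : ∃ t, chk3 f_pm_102_a t 7 6 1 = true := ex3_a k3_pm_102_a s19_pm_102_a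

theorem s21_pm_102_a : ∃ t, chk3 f_pm_102_a t 7 3 1 = true := ex3_b s20_pm_102_a s17_pm_102_a

theorem s22_pm_102_a : ∃ t, chk3 f_pm_102_a t 3 3 1 = true := ex3_a k2_pm_102_a s21_pm_102_a

theorem s23_pm_102_a : ∃ t, chk3 f_pm_102_a t 3 1 1 = true := ex3_b k1_pm_102_a s22_pm_102_a

theorem s24_pm_102_a : ∃ t, chk3 f_pm_102_a t 1 1 1 = true := ex3_a k0_pm_102_a s23_pm_102_a

theorem c_pm_102_a : CertN 536870912 536870912 0 536870912 335544320 67108864 3 false true false .npp 1 0 2
    ndN0q1 ndN1q2a pcN0 cut_pm_102_a Ext.none :=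
  certN0 (fam := false) (s1 := true) (s2 := false) (a := 1) (b := 0) (c := 2) (cn := .npp) (n1 := ndN0q1) (n2 := ndN1q2a) (pc := pcN0) (cut := cut_pm_102_a) (xt := Ext.none) (P1 := 536870912) (W1 := 536870912) (P2 := 0) (W2 := 536870912) (P3 := 335544320) (W3 := 67108864) (N0 := 3)
    rfl s24_pm_102_a

noncomputable def cut_pm_102_b : Cut := Cut.of [[⟨0, 1, 0, 67108864⟩, ⟨1, 0, 0, 67108864⟩, ⟨2, 1, 0, 67108864⟩]]

noncomputable def f_pm_102_b : ℕ → ℕ → ℕ → ℕ → Bool := onCell 536870912 536870912 0 536870912 335544320 67108864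
    (rowN 3 1 false true false .npp 1 0 2 (qsf 536870912 536870912 1239849684 370763052 0) ndN0q1 ndN1q2b pcN0 cut_pm_102_b Ext.none)

def k0_pm_102_b : ∃ t, chk3 f_pm_102_b t 1 1 1 = true :=
  ⟨(b (a (l 1) (a (l 1) (l 3))) (a (b (l 1) (a (l 1) (a (b (l 1) (l 400002773623)) (b (l 361347913543) (l 16992656))))) (b (a (b (a (l 1) (b (a (l 1) (a (l 1) (l 3))) (a (a (l 1) (l 94522919063)) (a (a (l 76269281399) (b (l 134385493127) (l 137606728359))) (l 3))))) (a (a (l 352221030183) (l 191159940439)) (a (b (a (l 16783784) (l 16788272)) (l 16803416)) (a (b (a (l 16790784) (l 140827973303)) (l 16812216)) (b (a (l 192367589351) (l 3)) (l 144586125367)))))) (a (l 3) (l 3))) (a (a (b (b (l 16831256) (l 16818056)) (l 16915832)) (b (a (b (l 16825968) (l 16862040)) (b (a (l 16839184) (l 141901801175)) (l 135996302327))) (a (l 16943168) (b (l 16960800) (l 17019656))))) (a (a (b (b (l 3) (l 282025300919)) (a (b (l 142438868663) (l 17055904)) (l 313164047575))) (l 3)) (l 3)))))), by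 decide +kernel⟩

theorem c_pm_102_b : CertN 536870912 536870912 1239849684 370763052 335544320 67108864 3 false true false .npp 1 0 2
    ndN0q1 ndN1q2b pcN0 cut_pm_102_b Ext.none :=
  certN1 (fam := false) (s1 := true) (s2 := false) (a := 1) (b := 0) (c := 2) (cn := .npp) (n1 := ndN0q1) (n2 := ndN1q2b) (pc := pcN0) (cut := cut_pm_102_b) (xt := Ext.none) (P1 := 536870912) (W1 := 536870912) (P2 := 1239849684) (W2 := 370763052) (P3 := 335544320) (W3 := 67108864) (N0 := 3)
    rfl (fun _ => rfl) k0_pm_102_b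

noncomputable def f_pm_112_a : ℕ → ℕ → ℕ → ℕ → Bool := onCell 536870912 536870912 0 536870912 335544320 67108864
    (rowN 3 0 false true false .dn 1 1 2 (qsf 536870912 536870912 0 536870912 1) ndN0q1 ndN1q2a pcN1 Cut.none Ext.none)

def k0_pm_112_a : ∃ t, chk3 f_pm_112_a t 1 1 1 = true :=
  ⟨(a (b (a (b (a (a (l 17173808) (l 17191104)) (b (l 17064496) (l 17081640))) (a (b (l 17108592) (l 17085136)) (l 17249232))) (a (b (l 16956392) (l 17100528)) (l 1))) (a (b (b (a (a (l 17066840) (l 17087912)) (l 17208352)) (a (a (l 17075216) (l 17102736)) (l 17183488))) (a (b (a (l 17106704) (l 17130232)) (a (b (l 17140272) (l 17167680)) (l 17232520))) (b (l 17356488) (l 1)))) (b (l 1) (l 1)))) (l 1)), by decide +kernel⟩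

theorem c_pm_112_a : CertN 536870912 536870912 0 536870912 335544320 67108864 3 false true false .dn 1 1 2
    ndN0q1 ndN1q2a pcN1 Cut.none Ext.none :=
  certN0 (fam := false) (s1 := true) (s2 := false) (a := 1) (b := 1) (c := 2) (cn := .dn) (n1 := ndN0q1) (n2 := ndN1q2a) (pc := pcN1) (cut := Cut.none) (xt := Ext.none) (P1 := 536870912) (W1 := 536870912) (P2 := 0) (W2 := 536870912) (P3 := 335544320) (W3 := 67108864) (N0 := 3)
    rfl k0_pm_112_a

noncomputable def f_pm_112_b : ℕ → ℕ → ℕ → ℕ → Bool := onCell 536870912 536870912 536870912 536870912 335544320 67108864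
    (rowN 3 1 false true false .dn 1 1 2 (qsf 536870912 536870912 1239849684 370763052 1) ndN0q1 ndN1q2b pcN1 Cut.none Ext.none)

def k0_pm_112_b : ∃ t, chk3 f_pm_112_b t 1 1 1 = true :=
  ⟨(a (b (a (b (a (b (l 1) (l 239479137303)) (l 188476358503)) (b (a (l 17103176) (l 16940168)) (l 17146752))) (b (a (l 70364447271) (l 17068664)) (b (l 16984904) (l 17010808)))) (b (a (a (a (l 16933488) (l 16955704)) (l 17020704)) (a (l 17093304) (l 17142056))) (a (a (b (l 17061920) (l 17197592)) (l 17237088)) (a (l 17280632) (l 2))))) (b (b (a (a (l 17264552) (b (a (l 17109264) (l 17119176)) (l 17163320))) (a (b (a (b (l 138144346695) (l 17148912)) (l 3)) (a (l 17092512) (l 284710164103))) (l 3))) (a (b (l 17421736) (l 17284576)) (a (b (l 367858168759) (l 2)) (l 2)))) (a (b (a (l 17158960) (l 2)) (l 2)) (l 2)))), by decide +kernel⟩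

theorem c_pm_112_b : CertN 536870912 536870912 1239849684 370763052 335544320 67108864 3 false true false .dn 1 1 2
    ndN0q1 ndN1q2b pcN1 Cut.none Ext.none :=
  certN1 (fam := false) (s1 := true) (s2 := false) (a := 1) (b := 1) (c := 2) (cn := .dn) (n1 := ndN0q1) (n2 := ndN1q2b) (pc := pcN1) (cut := Cut.none) (xt := Ext.none) (P1 := 536870912) (W1 := 536870912) (P2 := 1239849684) (W2 := 370763052) (P3 := 335544320) (W3 := 67108864) (N0 := 3)
    rfl (fun _ => rfl) k0_pm_112_b

noncomputable def cut_pm_113 : Cut := Cut.of [[⟨0, 1, 0, 67108864⟩, ⟨1, 1, 0, 67108864⟩, ⟨2, 2, 0, 16777216⟩]]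

noncomputable def f_pm_113 : ℕ → ℕ → ℕ → ℕ → Bool := onCell 536870912 536870912 536870912 536870912 335544320 67108864
    (rowN 3 1 false true false .nn 1 1 3 (qsf 536870912 536870912 1610612736 536870912 1) ndN0q1 ndN1q3 pcN1 cut_pm_113 Ext.none)

def k0_pm_113 : ∃ t, chk3 f_pm_113 t 1 1 1 = true :=
  ⟨(a (b (a (l 1) (b (l 1) (l 191697468055))) (b (a (l 168612090663) (b (l 17160976) (l 17187448))) (a (b (l 17125088) (a (l 17321936) (l 17359320))) (a (l 17297512) (l 17258208))))) (b (b (a (a (l 1) (b (l 1) (l 184181129815))) (a (b (a (l 1) (l 3)) (a (b (l 169148396535) (l 17098088)) (a (b (l 260550765911) (l 161229715047)) (l 3)))) (l 3))) (a (a (l 222298913895) (b (l 17105240) (l 17140984))) (a (b (a (l 17133496) (b (l 165524731687) (l 165524766871))) (b (l 158545638327) (l 17145296))) (b (l 3) (a (l 292763135351) (l 3)))))) (b (a (a (l 17172288) (l 17349920)) (a (b (a (l 17131112) (l 17113976)) (l 17071232)) (a (b (a (l 198810757127) (l 258940167127)) (l 44192120183))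 (b (l 3) (l 266993043015))))) (a (a (l 17185992) (l 17176904)) (a (b (l 17008192) (l 16975352)) (a (b (l 16942296) (l 16891312)) (b (a (l 17062592) (l 303500125991)) (b (a (l 16864760) (l 305110594871)) (b (a (l 16843392) (a (l 16823096) (l 336785932679))) (b (a (l 16832608) (a (l 16811280) (l 312089819767))) (a (l 16825352) (a (l 16803288) (a (l 16792416) (l 6)))))))))))))), by decide +kernel⟩

theorem c_pm_113 : CertN 536870912 536870912 1610612736 536870912 335544320 67108864 3 false true false .nn 1 1 3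
    ndN0q1 ndN1q3 pcN1 cut_pm_113 Ext.none :=
  certN1 (fam := false) (s1 := true) (s2 := false) (a := 1) (b := 1) (c := 3) (cn := .nn) (n1 := ndN0q1) (n2 := ndN1q3) (pc := pcN1) (cut := cut_pm_113) (xt := Ext.none) (P1 := 536870912) (W1 := 536870912) (P2 := 1610612736) (W2 := 536870912) (P3 := 335544320) (W3 := 67108864) (N0 := 3)
    rfl (fun _ => rfl) k0_pm_113

noncomputable def cut_pm_123 : Cut := Cut.of [[⟨0, 1, 0, 67108864⟩, ⟨1, 1, 0, 67108864⟩, ⟨2, 2, 0, 16777216⟩]]

noncomputable def f_pm_123 : ℕ → ℕ → ℕ → ℕ → Bool := onCell 536870912 536870912 1610612736 536870912 335544320 67108864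
    (rowN 3 0 false true false .npn 1 2 3 (qsf 536870912 536870912 1610612736 536870912 2) ndN0q1 ndN1q3 pcN2 cut_pm_123 Ext.none)

def k0_pm_123 : ∃ t, chk3 f_pm_123 t 1 1 1 = true :=
  ⟨(a (b (a (b (a (l 309810023351) (l 301757101927)) (a (l 17430136) (l 17440912))) (b (a (l 286187970647) (l 1)) (a (l 17452344) (l 17460720)))) (a (a (b (l 17338048) (l 17226272)) (b (l 17311872) (b (l 17218608) (l 17155824)))) (b (a (l 17282128) (l 17246448)) (a (b (l 17168232) (l 17097232)) (b (l 17102576) (l 17016624)))))) (b (a (b (l 1) (a (l 17450400) (l 1))) (l 1)) (a (b (a (l 17215976) (l 333968050871)) (a (l 16992680) (l 16939040))) (a (b (a (l 17221104) (l 1)) (b (a (l 16971624) (l 16953632)) (a (l 16851624) (l 16838624)))) (b (l 1) (a (b (l 626025682487) (l 16832616)) (b (l 1) (b (l 697965882455) (b (l 730714939895) (b (l 753263516007) (l 6))))))))))), by decide +kernel⟩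

theorem c_pm_123 : CertN 536870912 536870912 1610612736 536870912 335544320 67108864 3 false true false .npn 1 2 3
    ndN0q1 ndN1q3 pcN2 cut_pm_123 Ext.none :=
  certN0 (fam := false) (s1 := true) (s2 := false) (a := 1) (b := 2) (c := 3) (cn := .npn) (n1 := ndN0q1) (n2 := ndN1q3) (pc := pcN2) (cut := cut_pm_123) (xt := Ext.none) (P1 := 536870912) (W1 := 536870912) (P2 := 1610612736) (W2 := 536870912) (P3 := 335544320) (W3 := 67108864) (N0 := 3)
    rfl k0_pm_123

noncomputable def f_pm_133 : ℕ → ℕ → ℕ → ℕ → Bool := onCell 536870912 536870912 1610612736 536870912 335544320 67108864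
    (rowN 3 0 false true false .dn 1 3 3 (qsf 536870912 536870912 1610612736 536870912 3) ndN0q1 ndN1q3 pcN3 Cut.none Ext.none)

def k0_pm_133 : ∃ t, chk3 f_pm_133 t 1 1 1 = true :=
  ⟨(a (b (l 1) (a (b (l 1) (a (l 17003192) (l 1))) (l 1))) (l 1)), by decide +kernel⟩

theorem c_pm_133 : CertN 536870912 536870912 1610612736 536870912 335544320 67108864 3 false true false .dn 1 3 3
    ndN0q1 ndN1q3 pcN3 Cut.none Ext.none :=
  certN0 (fam := false) (s1 := true) (s2 := false) (a := 1) (b := 3) (c := 3) (cn := .dn) (n1 := ndN0q1) (n2 := ndN1q3) (pc := pcN3) (cut := Cut.none) (xt := Ext.none) (P1 := 536870912) (W1 := 536870912) (P2 := 1610612736) (W2 := 536870912) (P3 := 335544320) (W3 := 67108864) (N0 := 3)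
    rfl k0_pm_133

noncomputable def cut_pm_202_a : Cut := Cut.of [[⟨0, 1, 0, 67108864⟩, ⟨1, 0, 0, 67108864⟩, ⟨2, 1, 0, 67108864⟩]]

noncomputable def f_pm_202_a : ℕ → ℕ → ℕ → ℕ → Bool := onCell 0 536870912 0 536870912 335544320 67108864
    (rowN 3 0 false true false .pp 2 0 2 (qsf 0 536870912 0 536870912 0) ndN0q2 ndN1q2a pcN0 cut_pm_202_a Ext.none)

def k0_pm_202_a : ∃ t, chk3 f_pm_202_a t 1 1 1 = true :=
  ⟨(a (l 3) (b (l 3) (a (l 3) (b (l 3) (a (l 3) (b (l 3) (l 6))))))), by decide +kernel⟩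

theorem c_pm_202_a : CertN 0 536870912 0 536870912 335544320 67108864 3 false true false .pp 2 0 2
    ndN0q2 ndN1q2a pcN0 cut_pm_202_a Ext.none :=
  certN0 (fam := false) (s1 := true) (s2 := false) (a := 2) (b := 0) (c := 2) (cn := .pp) (n1 := ndN0q2) (n2 := ndN1q2a) (pc := pcN0) (cut := cut_pm_202_a) (xt := Ext.none) (P1 := 0) (W1 := 536870912) (P2 := 0) (W2 := 536870912) (P3 := 335544320) (W3 := 67108864) (N0 := 3)
    rfl k0_pm_202_a

noncomputable def cut_pm_202_b : Cut := Cut.of [[⟨0, 1, 0, 67108864⟩, ⟨1, 0, 0, 67108864⟩, ⟨2, 1, 0, 67108864⟩]]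

noncomputable def f_pm_202_b : ℕ → ℕ → ℕ → ℕ → Bool := onCell 0 536870912 1239849684 370763052 335544320 67108864
    (rowN 3 0 false true false .pp 2 0 2 (qsf 0 536870912 1239849684 370763052 0) ndN0q2 ndN1q2b pcN0 cut_pm_202_b Ext.none)

def k0_pm_202_b : ∃ t, chk3 f_pm_202_b t 1 1 1 = true :=
  ⟨(l 3), by decide +kernel⟩

theorem c_pm_202_b : CertN 0 536870912 1239849684 370763052 335544320 67108864 3 false true false .pp 2 0 2
    ndN0q2 ndN1q2b pcN0 cut_pm_202_b Ext.none :=
  certN0 (fam := false) (s1 := true) (s2 := false) (a := 2) (b := 0) (c := 2) (cn := .pp) (n1 := ndN0q2) (n2 := ndN1q2b) (pc := pcN0) (cut := cut_pm_202_b) (xt := Ext.none) (P1 := 0) (W1 := 536870912) (P2 := 1239849684) (W2 := 370763052) (P3 := 335544320) (W3 := 67108864) (N0 := 3)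
    rfl k0_pm_202_b

noncomputable def f_pm_203 : ℕ → ℕ → ℕ → ℕ → Bool := onCell 0 536870912 0 536870912 335544320 67108864
    (rowN 3 1 false true false .up 2 0 3 (qsf 0 536870912 1610612736 536870912 0) ndN0q2 ndN1q3 pcN0 Cut.none Ext.none)

def k0_pm_203 : ∃ t, chk3 f_pm_203 t 1 1 1 = true :=
  ⟨(l 3), by decide +kernel⟩

theorem c_pm_203 : CertN 0 536870912 1610612736 536870912 335544320 67108864 3 false true false .up 2 0 3
    ndN0q2 ndN1q3 pcN0 Cut.none Ext.none :=
  certN1 (fam := false) (s1 := true) (s2 := false) (a := 2) (b := 0) (c := 3) (cn := .up) (n1 := ndN0q2) (n2 := ndN1q3) (pc := pcN0) (cut := Cut.none) (xt := Ext.none) (P1 := 0) (W1 := 536870912) (P2 := 1610612736) (W2 := 536870912) (P3 := 335544320) (W3 := 67108864) (N0 := 3)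
    rfl (fun _ => rfl) k0_pm_203

noncomputable def cut_pm_213 : Cut := Cut.of [[⟨0, 1, 0, 67108864⟩, ⟨1, 1, 0, 67108864⟩, ⟨2, 2, 0, 16777216⟩]]

noncomputable def f_pm_213 : ℕ → ℕ → ℕ → ℕ → Bool := onCell 0 536870912 1610612736 536870912 335544320 67108864
    (rowN 3 0 false true false .pnn 2 1 3 (qsf 0 536870912 1610612736 536870912 1) ndN0q2 ndN1q3 pcN1 cut_pm_213 Ext.none)

def k0_pm_213 : ∃ t, chk3 f_pm_213 t 1 1 1 = true :=
  ⟨(b (l 3) (a (l 3) (b (l 3) (a (l 3) (a (l 3) (b (l 3) (a (l 3) (a (l 3) (b (l 3) (a (l 3) (b (l 3) (b (l 3) (l 6))))))))))))), by decide +kernel⟩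

theorem c_pm_213 : CertN 0 536870912 1610612736 536870912 335544320 67108864 3 false true false .pnn 2 1 3
    ndN0q2 ndN1q3 pcN1 cut_pm_213 Ext.none :=
  certN0 (fam := false) (s1 := true) (s2 := false) (a := 2) (b := 1) (c := 3) (cn := .pnn) (n1 := ndN0q2) (n2 := ndN1q3) (pc := pcN1) (cut := cut_pm_213) (xt := Ext.none) (P1 := 0) (W1 := 536870912) (P2 := 1610612736) (W2 := 536870912) (P3 := 335544320) (W3 := 67108864) (N0 := 3)
    rfl k0_pm_213

noncomputable def f_mm_001 : ℕ → ℕ → ℕ → ℕ → Bool := onCell 0 536870912 536870912 536870912 335544320 67108864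
    (rowN 3 0 false false false .up 0 0 1 (qsf 0 536870912 536870912 536870912 0) ndN0q0 ndN1q1 pcN0 Cut.none Ext.none)

def k0_mm_001 : ∃ t, chk3 f_mm_001 t 1 1 1 = true :=
  ⟨(l 3), by decide +kernel⟩

theorem c_mm_001 : CertN 0 536870912 536870912 536870912 335544320 67108864 3 false false false .up 0 0 1
    ndN0q0 ndN1q1 pcN0 Cut.none Ext.none :=
  certN0 (fam := false) (s1 := false) (s2 := false) (a := 0) (b := 0) (c := 1) (cn := .up) (n1 := ndN0q0) (n2 := ndN1q1) (pc := pcN0) (cut := Cut.none) (xt := Ext.none) (P1 := 0) (W1 := 536870912) (P2 := 536870912) (W2 := 536870912) (P3 := 335544320) (W3 := 67108864) (N0 := 3)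
    rfl k0_mm_001

noncomputable def f_mm_011 : ℕ → ℕ → ℕ → ℕ → Bool := onCell 0 536870912 536870912 536870912 335544320 67108864
    (rowN 3 0 false false false .pnn 0 1 1 (qsf 0 536870912 536870912 536870912 1) ndN0q0 ndN1q1 pcN1 Cut.none Ext.none)

def k0_mm_011 : ∃ t, chk3 f_mm_011 t 1 1 1 = true :=
  ⟨(l 3), by decide +kernel⟩

theorem c_mm_011 : CertN 0 536870912 536870912 536870912 335544320 67108864 3 false false false .pnn 0 1 1
    ndN0q0 ndN1q1 pcN1 Cut.none Ext.none :=
  certN0 (fam := false) (s1 := false) (s2 := false) (a := 0) (b := 1) (c := 1) (cn := .pnn) (n1 := ndN0q0) (n2 := ndN1q1) (pc := pcN1) (cut := Cut.none) (xt := Ext.none) (P1 := 0) (W1 := 536870912) (P2 := 536870912) (W2 := 536870912) (P3 := 335544320) (W3 := 67108864) (N0 := 3)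
    rfl k0_mm_011

noncomputable def f_mm_012_a : ℕ → ℕ → ℕ → ℕ → Bool := onCell 0 536870912 0 536870912 335544320 67108864
    (rowN 3 0 false false false .pnp 0 1 2 (qsf 0 536870912 0 536870912 1) ndN0q0 ndN1q2a pcN1 Cut.none Ext.none)

def k0_mm_012_a : ∃ t, chk3 f_mm_012_a t 1 1 1 = true :=
  ⟨(l 5), by decide +kernel⟩

theorem c_mm_012_a : CertN 0 536870912 0 536870912 335544320 67108864 3 false false false .pnp 0 1 2
    ndN0q0 ndN1q2a pcN1 Cut.none Ext.none :=
  certN0 (fam := false) (s1 := false) (s2 := false) (a := 0) (b := 1) (c := 2) (cn := .pnp) (n1 := ndN0q0) (n2 := ndN1q2a) (pc := pcN1) (cut := Cut.none) (xt := Ext.none) (P1 := 0) (W1 := 536870912) (P2 := 0) (W2 := 536870912) (P3 := 335544320) (W3 := 67108864) (N0 := 3)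
    rfl k0_mm_012_a

noncomputable def f_mm_012_b : ℕ → ℕ → ℕ → ℕ → Bool := onCell 0 536870912 1239849684 370763052 335544320 67108864
    (rowN 3 0 false false false .pnp 0 1 2 (qsf 0 536870912 1239849684 370763052 1) ndN0q0 ndN1q2b pcN1 Cut.none Ext.none)

def k0_mm_012_b : ∃ t, chk3 f_mm_012_b t 1 1 1 = true :=
  ⟨(l 5), by decide +kernel⟩

theorem c_mm_012_b : CertN 0 536870912 1239849684 370763052 335544320 67108864 3 false false false .pnp 0 1 2
    ndN0q0 ndN1q2b pcN1 Cut.none Ext.none :=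
  certN0 (fam := false) (s1 := false) (s2 := false) (a := 0) (b := 1) (c := 2) (cn := .pnp) (n1 := ndN0q0) (n2 := ndN1q2b) (pc := pcN1) (cut := Cut.none) (xt := Ext.none) (P1 := 0) (W1 := 536870912) (P2 := 1239849684) (W2 := 370763052) (P3 := 335544320) (W3 := 67108864) (N0 := 3)
    rfl k0_mm_012_b

noncomputable def f_mm_022_a : ℕ → ℕ → ℕ → ℕ → Bool := onCell 0 536870912 0 536870912 335544320 67108864
    (rowN 3 0 false false false .pp 0 2 2 (qsf 0 536870912 0 536870912 2) ndN0q0 ndN1q2a pcN2 Cut.none Ext.none)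

def k0_mm_022_a : ∃ t, chk3 f_mm_022_a t 1 1 1 = true :=
  ⟨(l 5), by decide +kernel⟩

theorem c_mm_022_a : CertN 0 536870912 0 536870912 335544320 67108864 3 false false false .pp 0 2 2
    ndN0q0 ndN1q2a pcN2 Cut.none Ext.none :=
  certN0 (fam := false) (s1 := false) (s2 := false) (a := 0) (b := 2) (c := 2) (cn := .pp) (n1 := ndN0q0) (n2 := ndN1q2a) (pc := pcN2) (cut := Cut.none) (xt := Ext.none) (P1 := 0) (W1 := 536870912) (P2 := 0) (W2 := 536870912) (P3 := 335544320) (W3 := 67108864) (N0 := 3)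
    rfl k0_mm_022_a

noncomputable def f_mm_022_b : ℕ → ℕ → ℕ → ℕ → Bool := onCell 0 536870912 1239849684 370763052 335544320 67108864
    (rowN 3 0 false false false .pp 0 2 2 (qsf 0 536870912 1239849684 370763052 2) ndN0q0 ndN1q2b pcN2 Cut.none Ext.none)

def k0_mm_022_b : ∃ t, chk3 f_mm_022_b t 1 1 1 = true :=
  ⟨(l 5), by decide +kernel⟩

theorem c_mm_022_b : CertN 0 536870912 1239849684 370763052 335544320 67108864 3 false false false .pp 0 2 2
    ndN0q0 ndN1q2b pcN2 Cut.none Ext.none :=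
  certN0 (fam := false) (s1 := false) (s2 := false) (a := 0) (b := 2) (c := 2) (cn := .pp) (n1 := ndN0q0) (n2 := ndN1q2b) (pc := pcN2) (cut := Cut.none) (xt := Ext.none) (P1 := 0) (W1 := 536870912) (P2 := 1239849684) (W2 := 370763052) (P3 := 335544320) (W3 := 67108864) (N0 := 3)
    rfl k0_mm_022_b

noncomputable def f_mm_023 : ℕ → ℕ → ℕ → ℕ → Bool := onCell 0 536870912 1610612736 536870912 335544320 67108864
    (rowN 3 0 false false false .up 0 2 3 (qsf 0 536870912 1610612736 536870912 2) ndN0q0 ndN1q3 pcN2 Cut.none Ext.none)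

def k0_mm_023 : ∃ t, chk3 f_mm_023 t 1 1 1 = true :=
  ⟨(l 5), by decide +kernel⟩

theorem c_mm_023 : CertN 0 536870912 1610612736 536870912 335544320 67108864 3 false false false .up 0 2 3
    ndN0q0 ndN1q3 pcN2 Cut.none Ext.none :=
  certN0 (fam := false) (s1 := false) (s2 := false) (a := 0) (b := 2) (c := 3) (cn := .up) (n1 := ndN0q0) (n2 := ndN1q3) (pc := pcN2) (cut := Cut.none) (xt := Ext.none) (P1 := 0) (W1 := 536870912) (P2 := 1610612736) (W2 := 536870912) (P3 := 335544320) (W3 := 67108864) (N0 := 3)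
    rfl k0_mm_023

noncomputable def f_mm_033 : ℕ → ℕ → ℕ → ℕ → Bool := onCell 0 536870912 1610612736 536870912 335544320 67108864
    (rowN 3 0 false false false .pnn 0 3 3 (qsf 0 536870912 1610612736 536870912 3) ndN0q0 ndN1q3 pcN3 Cut.none Ext.none)

def k0_mm_033 : ∃ t, chk3 f_mm_033 t 1 1 1 = true :=
  ⟨(l 5), by decide +kernel⟩

theorem c_mm_033 : CertN 0 536870912 1610612736 536870912 335544320 67108864 3 false false false .pnn 0 3 3
    ndN0q0 ndN1q3 pcN3 Cut.none Ext.none :=
  certN0 (fam := false) (s1 := false) (s2 := false) (a := 0) (b := 3) (c := 3) (cn := .pnn) (n1 := ndN0q0) (n2 := ndN1q3) (pc := pcN3) (cut := Cut.none) (xt := Ext.none) (P1 := 0) (W1 := 536870912) (P2 := 1610612736) (W2 := 536870912) (P3 := 335544320) (W3 := 67108864) (N0 := 3)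
    rfl k0_mm_033

noncomputable def f_mm_101 : ℕ → ℕ → ℕ → ℕ → Bool := onCell 536870912 536870912 536870912 536870912 335544320 67108864
    (rowN 3 0 false false false .npn 1 0 1 (qsf 536870912 536870912 536870912 536870912 0) ndN0q1 ndN1q1 pcN0 Cut.none Ext.none)

def k0_mm_101 : ∃ t, chk3 f_mm_101 t 1 1 1 = true :=
  ⟨(l 3), by decide +kernel⟩

theorem c_mm_101 : CertN 536870912 536870912 536870912 536870912 335544320 67108864 3 false false false .npn 1 0 1
    ndN0q1 ndN1q1 pcN0 Cut.none Ext.none :=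
  certN0 (fam := false) (s1 := false) (s2 := false) (a := 1) (b := 0) (c := 1) (cn := .npn) (n1 := ndN0q1) (n2 := ndN1q1) (pc := pcN0) (cut := Cut.none) (xt := Ext.none) (P1 := 536870912) (W1 := 536870912) (P2 := 536870912) (W2 := 536870912) (P3 := 335544320) (W3 := 67108864) (N0 := 3)
    rfl k0_mm_101

noncomputable def f_mm_102_a : ℕ → ℕ → ℕ → ℕ → Bool := onCell 536870912 536870912 0 536870912 335544320 67108864
    (rowN 3 0 false false false .npp 1 0 2 (qsf 536870912 536870912 0 536870912 0) ndN0q1 ndN1q2a pcN0 Cut.none Ext.none)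

def k0_mm_102_a : ∃ t, chk3 f_mm_102_a t 1 1 1 = true :=
  ⟨(l 3), by decide +kernel⟩

theorem c_mm_102_a : CertN 536870912 536870912 0 536870912 335544320 67108864 3 false false false .npp 1 0 2
    ndN0q1 ndN1q2a pcN0 Cut.none Ext.none :=
  certN0 (fam := false) (s1 := false) (s2 := false) (a := 1) (b := 0) (c := 2) (cn := .npp) (n1 := ndN0q1) (n2 := ndN1q2a) (pc := pcN0) (cut := Cut.none) (xt := Ext.none) (P1 := 536870912) (W1 := 536870912) (P2 := 0) (W2 := 536870912) (P3 := 335544320) (W3 := 67108864) (N0 := 3)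
    rfl k0_mm_102_a

noncomputable def f_mm_102_b : ℕ → ℕ → ℕ → ℕ → Bool := onCell 536870912 536870912 1239849684 370763052 335544320 67108864
    (rowN 3 0 false false false .npp 1 0 2 (qsf 536870912 536870912 1239849684 370763052 0) ndN0q1 ndN1q2b pcN0 Cut.none Ext.none)

def k0_mm_102_b : ∃ t, chk3 f_mm_102_b t 1 1 1 = true :=
  ⟨(l 5), by decide +kernel⟩

theorem c_mm_102_b : CertN 536870912 536870912 1239849684 370763052 335544320 67108864 3 false false false .npp 1 0 2
    ndN0q1 ndN1q2b pcN0 Cut.none Ext.none :=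
  certN0 (fam := false) (s1 := false) (s2 := false) (a := 1) (b := 0) (c := 2) (cn := .npp) (n1 := ndN0q1) (n2 := ndN1q2b) (pc := pcN0) (cut := Cut.none) (xt := Ext.none) (P1 := 536870912) (W1 := 536870912) (P2 := 1239849684) (W2 := 370763052) (P3 := 335544320) (W3 := 67108864) (N0 := 3)
    rfl k0_mm_102_b

noncomputable def f_mm_112_a : ℕ → ℕ → ℕ → ℕ → Bool := onCell 536870912 536870912 0 536870912 335544320 67108864
    (rowN 3 0 false false false .dn 1 1 2 (qsf 536870912 536870912 0 536870912 1) ndN0q1 ndN1q2a pcN1 Cut.none Ext.none)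

def k0_mm_112_a : ∃ t, chk3 f_mm_112_a t 1 1 1 = true :=
  ⟨(l 3), by decide +kernel⟩

theorem c_mm_112_a : CertN 536870912 536870912 0 536870912 335544320 67108864 3 false false false .dn 1 1 2
    ndN0q1 ndN1q2a pcN1 Cut.none Ext.none :=
  certN0 (fam := false) (s1 := false) (s2 := false) (a := 1) (b := 1) (c := 2) (cn := .dn) (n1 := ndN0q1) (n2 := ndN1q2a) (pc := pcN1) (cut := Cut.none) (xt := Ext.none) (P1 := 536870912) (W1 := 536870912) (P2 := 0) (W2 := 536870912) (P3 := 335544320) (W3 := 67108864) (N0 := 3)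
    rfl k0_mm_112_a

noncomputable def f_mm_112_b : ℕ → ℕ → ℕ → ℕ → Bool := onCell 536870912 536870912 1239849684 370763052 335544320 67108864
    (rowN 3 0 false false false .dn 1 1 2 (qsf 536870912 536870912 1239849684 370763052 1) ndN0q1 ndN1q2b pcN1 Cut.none Ext.none)

def k0_mm_112_b : ∃ t, chk3 f_mm_112_b t 1 1 1 = true :=
  ⟨(l 5), by decide +kernel⟩

theorem c_mm_112_b : CertN 536870912 536870912 1239849684 370763052 335544320 67108864 3 false false false .dn 1 1 2
    ndN0q1 ndN1q2b pcN1 Cut.none Ext.none :=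
  certN0 (fam := false) (s1 := false) (s2 := false) (a := 1) (b := 1) (c := 2) (cn := .dn) (n1 := ndN0q1) (n2 := ndN1q2b) (pc := pcN1) (cut := Cut.none) (xt := Ext.none) (P1 := 536870912) (W1 := 536870912) (P2 := 1239849684) (W2 := 370763052) (P3 := 335544320) (W3 := 67108864) (N0 := 3)
    rfl k0_mm_112_b

noncomputable def f_mm_113 : ℕ → ℕ → ℕ → ℕ → Bool := onCell 536870912 536870912 1610612736 536870912 335544320 67108864
    (rowN 3 0 false false false .nn 1 1 3 (qsf 536870912 536870912 1610612736 536870912 1) ndN0q1 ndN1q3 pcN1 Cut.none Ext.none)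

def k0_mm_113 : ∃ t, chk3 f_mm_113 t 1 1 1 = true :=
  ⟨(l 5), by decide +kernel⟩

theorem c_mm_113 : CertN 536870912 536870912 1610612736 536870912 335544320 67108864 3 false false false .nn 1 1 3
    ndN0q1 ndN1q3 pcN1 Cut.none Ext.none :=
  certN0 (fam := false) (s1 := false) (s2 := false) (a := 1) (b := 1) (c := 3) (cn := .nn) (n1 := ndN0q1) (n2 := ndN1q3) (pc := pcN1) (cut := Cut.none) (xt := Ext.none) (P1 := 536870912) (W1 := 536870912) (P2 := 1610612736) (W2 := 536870912) (P3 := 335544320) (W3 := 67108864) (N0 := 3)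
    rfl k0_mm_113

noncomputable def f_mm_123 : ℕ → ℕ → ℕ → ℕ → Bool := onCell 536870912 536870912 1610612736 536870912 335544320 67108864
    (rowN 3 0 false false false .npn 1 2 3 (qsf 536870912 536870912 1610612736 536870912 2) ndN0q1 ndN1q3 pcN2 Cut.none Ext.none)

def k0_mm_123 : ∃ t, chk3 f_mm_123 t 1 1 1 = true :=
  ⟨(l 5), by decide +kernel⟩

theorem c_mm_123 : CertN 536870912 536870912 1610612736 536870912 335544320 67108864 3 false false false .npn 1 2 3
    ndN0q1 ndN1q3 pcN2 Cut.none Ext.none :=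
  certN0 (fam := false) (s1 := false) (s2 := false) (a := 1) (b := 2) (c := 3) (cn := .npn) (n1 := ndN0q1) (n2 := ndN1q3) (pc := pcN2) (cut := Cut.none) (xt := Ext.none) (P1 := 536870912) (W1 := 536870912) (P2 := 1610612736) (W2 := 536870912) (P3 := 335544320) (W3 := 67108864) (N0 := 3)
    rfl k0_mm_123

noncomputable def f_mm_133 : ℕ → ℕ → ℕ → ℕ → Bool := onCell 536870912 536870912 1610612736 536870912 335544320 67108864
    (rowN 3 0 false false false .dn 1 3 3 (qsf 536870912 536870912 1610612736 536870912 3) ndN0q1 ndN1q3 pcN3 Cut.none Ext.none)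

def k0_mm_133 : ∃ t, chk3 f_mm_133 t 1 1 1 = true :=
  ⟨(l 5), by decide +kernel⟩

theorem c_mm_133 : CertN 536870912 536870912 1610612736 536870912 335544320 67108864 3 false false false .dn 1 3 3
    ndN0q1 ndN1q3 pcN3 Cut.none Ext.none :=
  certN0 (fam := false) (s1 := false) (s2 := false) (a := 1) (b := 3) (c := 3) (cn := .dn) (n1 := ndN0q1) (n2 := ndN1q3) (pc := pcN3) (cut := Cut.none) (xt := Ext.none) (P1 := 536870912) (W1 := 536870912) (P2 := 1610612736) (W2 := 536870912) (P3 := 335544320) (W3 := 67108864) (N0 := 3)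
    rfl k0_mm_133

noncomputable def f_mm_202_a : ℕ → ℕ → ℕ → ℕ → Bool := onCell 0 536870912 0 536870912 335544320 67108864
    (rowN 3 0 false false false .pp 2 0 2 (qsf 0 536870912 0 536870912 0) ndN0q2 ndN1q2a pcN0 Cut.none Ext.none)

def k0_mm_202_a : ∃ t, chk3 f_mm_202_a t 1 1 1 = true :=
  ⟨(l 3), by decide +kernel⟩

theorem c_mm_202_a : CertN 0 536870912 0 536870912 335544320 67108864 3 false false false .pp 2 0 2
    ndN0q2 ndN1q2a pcN0 Cut.none Ext.none :=
  certN0 (fam := false) (s1 := false) (s2 := false) (a := 2) (b := 0) (c := 2) (cn := .pp) (n1 := ndN0q2) (n2 := ndN1q2a) (pc := pcN0) (cut := Cut.none) (xt := Ext.none) (P1 := 0) (W1 := 536870912) (P2 := 0) (W2 := 536870912) (P3 := 335544320) (W3 := 67108864) (N0 := 3)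
    rfl k0_mm_202_a

noncomputable def f_mm_202_b : ℕ → ℕ → ℕ → ℕ → Bool := onCell 0 536870912 1239849684 370763052 335544320 67108864
    (rowN 3 0 false false false .pp 2 0 2 (qsf 0 536870912 1239849684 370763052 0) ndN0q2 ndN1q2b pcN0 Cut.none Ext.none)

def k0_mm_202_b : ∃ t, chk3 f_mm_202_b t 1 1 1 = true :=
  ⟨(l 3), by decide +kernel⟩

theorem c_mm_202_b : CertN 0 536870912 1239849684 370763052 335544320 67108864 3 false false false .pp 2 0 2
    ndN0q2 ndN1q2b pcN0 Cut.none Ext.none :=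
  certN0 (fam := false) (s1 := false) (s2 := false) (a := 2) (b := 0) (c := 2) (cn := .pp) (n1 := ndN0q2) (n2 := ndN1q2b) (pc := pcN0) (cut := Cut.none) (xt := Ext.none) (P1 := 0) (W1 := 536870912) (P2 := 1239849684) (W2 := 370763052) (P3 := 335544320) (W3 := 67108864) (N0 := 3)
    rfl k0_mm_202_b

noncomputable def f_mm_203 : ℕ → ℕ → ℕ → ℕ → Bool := onCell 0 536870912 0 536870912 335544320 67108864
    (rowN 3 1 false false false .up 2 0 3 (qsf 0 536870912 1610612736 536870912 0) ndN0q2 ndN1q3 pcN0 Cut.none Ext.none)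

def k0_mm_203 : ∃ t, chk3 f_mm_203 t 1 1 1 = true :=
  ⟨(l 3), by decide +kernel⟩

theorem c_mm_203 : CertN 0 536870912 1610612736 536870912 335544320 67108864 3 false false false .up 2 0 3
    ndN0q2 ndN1q3 pcN0 Cut.none Ext.none :=
  certN1 (fam := false) (s1 := false) (s2 := false) (a := 2) (b := 0) (c := 3) (cn := .up) (n1 := ndN0q2) (n2 := ndN1q3) (pc := pcN0) (cut := Cut.none) (xt := Ext.none) (P1 := 0) (W1 := 536870912) (P2 := 1610612736) (W2 := 536870912) (P3 := 335544320) (W3 := 67108864) (N0 := 3)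
    rfl (fun _ => rfl) k0_mm_203

noncomputable def f_mm_213 : ℕ → ℕ → ℕ → ℕ → Bool := onCell 0 536870912 1610612736 536870912 335544320 67108864
    (rowN 3 0 false false false .pnn 2 1 3 (qsf 0 536870912 1610612736 536870912 1) ndN0q2 ndN1q3 pcN1 Cut.none Ext.none)

def k0_mm_213 : ∃ t, chk3 f_mm_213 t 1 1 1 = true :=
  ⟨(a (l 3) (l 5)), by decide +kernel⟩

theorem c_mm_213 : CertN 0 536870912 1610612736 536870912 335544320 67108864 3 false false false .pnn 2 1 3
    ndN0q2 ndN1q3 pcN1 Cut.none Ext.none :=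
  certN0 (fam := false) (s1 := false) (s2 := false) (a := 2) (b := 1) (c := 3) (cn := .pnn) (n1 := ndN0q2) (n2 := ndN1q3) (pc := pcN1) (cut := Cut.none) (xt := Ext.none) (P1 := 0) (W1 := 536870912) (P2 := 1610612736) (W2 := 536870912) (P3 := 335544320) (W3 := 67108864) (N0 := 3)
    rfl k0_mm_213

end Pool.Agent.Strip051.G.I5_16_3_8.Tab.C.NB01

namespace Pool.Agent.Strip051.G.I5_16_3_8.Tab.C.NB02

open Pool.Agent.Strip051.PB Pool.Agent.Strip051.PB.T
open Pool.Agent.Strip051.G.I5_16_3_8.Tab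

noncomputable def f_pp_001 : ℕ → ℕ → ℕ → ℕ → Bool := onCell 0 536870912 0 536870912 335544320 67108864
    (rowN 3 1 false true true .up 0 0 1 (qsf 0 536870912 536870912 536870912 0) ndN0q0 ndN2q1 pcN0 Cut.none Ext.none)

def k0_pp_001 : ∃ t, chk3 f_pp_001 t 1 1 1 = true :=
  ⟨(l 3), by decide +kernel⟩

theorem c_pp_001 : CertN 0 536870912 536870912 536870912 335544320 67108864 3 false true true .up 0 0 1
    ndN0q0 ndN2q1 pcN0 Cut.none Ext.none :=
  certN1 (fam := false) (s1 := true) (s2 := true) (a := 0) (b := 0) (c := 1) (cn := .up) (n1 := ndN0q0) (n2 := ndN2q1) (pc := pcN0) (cut := Cut.none) (xt := Ext.none) (P1 := 0) (W1 := 536870912) (P2 := 536870912) (W2 := 536870912) (P3 := 335544320) (W3 := 67108864) (N0 := 3)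
    rfl (fun _ => rfl) k0_pp_001

noncomputable def cut_pp_011 : Cut := Cut.of [[⟨0, 0, 0, 67108864⟩, ⟨1, 1, 0, 67108864⟩, ⟨2, 1, 0, 67108864⟩]]

noncomputable def f_pp_011 : ℕ → ℕ → ℕ → ℕ → Bool := onCell 0 536870912 536870912 536870912 335544320 67108864
    (rowN 3 1 false true true .pnn 0 1 1 (qsf 0 536870912 536870912 536870912 1) ndN0q0 ndN2q1 pcN1 cut_pp_011 Ext.none)

def k0_pp_011 : ∃ t, chk3 f_pp_011 t 1 1 1 = true :=
  ⟨(b (l 3) (a (b (l 3) (a (b (l 3) (a (b (l 3) (a (l 6) (l 3))) (l 3))) (l 3))) (l 3))), by decide +kernel⟩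

theorem c_pp_011 : CertN 0 536870912 536870912 536870912 335544320 67108864 3 false true true .pnn 0 1 1
    ndN0q0 ndN2q1 pcN1 cut_pp_011 Ext.none :=
  certN1 (fam := false) (s1 := true) (s2 := true) (a := 0) (b := 1) (c := 1) (cn := .pnn) (n1 := ndN0q0) (n2 := ndN2q1) (pc := pcN1) (cut := cut_pp_011) (xt := Ext.none) (P1 := 0) (W1 := 536870912) (P2 := 536870912) (W2 := 536870912) (P3 := 335544320) (W3 := 67108864) (N0 := 3)
    rfl (fun _ => rfl) k0_pp_011

noncomputable def f_pp_012 : ℕ → ℕ → ℕ → ℕ → Bool := onCell 0 536870912 536870912 536870912 335544320 67108864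
    (rowN 3 1 false true true .pnp 0 1 2 (qsf 0 536870912 1073741824 536870912 1) ndN0q0 ndN2q2 pcN1 Cut.none Ext.none)

def k0_pp_012 : ∃ t, chk3 f_pp_012 t 1 1 1 = true :=
  ⟨(a (l 3) (l 3)), by decide +kernel⟩

theorem c_pp_012 : CertN 0 536870912 1073741824 536870912 335544320 67108864 3 false true true .pnp 0 1 2
    ndN0q0 ndN2q2 pcN1 Cut.none Ext.none :=
  certN1 (fam := false) (s1 := true) (s2 := true) (a := 0) (b := 1) (c := 2) (cn := .pnp) (n1 := ndN0q0) (n2 := ndN2q2) (pc := pcN1) (cut := Cut.none) (xt := Ext.none) (P1 := 0) (W1 := 536870912) (P2 := 1073741824) (W2 := 536870912) (P3 := 335544320) (W3 := 67108864) (N0 := 3)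
    rfl (fun _ => rfl) k0_pp_012

noncomputable def f_pp_022 : ℕ → ℕ → ℕ → ℕ → Bool := onCell 1073741824 536870912 1073741824 536870912 335544320 67108864
    (rowN 3 2 false true true .pp 0 2 2 (qsf 0 536870912 1073741824 536870912 2) ndN0q0 ndN2q2 pcN2 Cut.none Ext.none)

def k0_pp_022 : ∃ t, chk3 f_pp_022 t 4 2 1 = true :=
  ⟨(a (l 3) (b (a (b (a (l 3) (l 1)) (b (a (a (l 3) (a (l 3) (a (l 3) (b (b (l 1) (l 124184696407)) (b (l 16648584) (l 16643432)))))) (b (a (b (l 1) (a (l 16649592) (l 1))) (l 1)) (a (b (a (c (l 16647840) (l 16641432)) (b (l 16641136) (l 16638720))) (c (l 16640552) (l 16634088))) (b (l 16632704) (a (l 16630304) (l 16625536)))))) (a (a (l 3) (a (l 3) (b (a (l 3) (l 16635528)) (l 16625784)))) (b (a (b (l 16632352) (l 16627144)) (b (l 16623032) (l 16618008))) (a (l 16619064) (l 16610208)))))) (b (l 1) (b (b (l 1) (a (a (b (l 1) (l 16618448)) (l 1)) (l 1))) (a (b (a (b (a (l 16616016) (l 16611384)) (l 16608856)) (b (l 16604480) (l 16599784))) (a (l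 16601328) (l 16592512))) (b (a (l 16592936) (l 1)) (a (b (l 16585968) (l 16581160)) (b (l 16576640) (l 16571984)))))))) (a (b (a (a (l 3) (b (b (l 16616672) (l 16603920)) (b (l 16590344) (l 16575856)))) (b (b (a (l 16607688) (l 16599224)) (a (l 16595568) (l 16587528))) (b (l 16599880) (l 16565328)))) (a (a (b (l 16602576) (l 16564936)) (b (l 16573320) (l 16537648))) (b (b (l 16550768) (l 16535128)) (l 16551464)))) (b (a (b (b (a (l 16590720) (l 16582272)) (l 16596464)) (b (l 16563656) (l 16551000))) (b (b (a (l 16573704) (l 16564744)) (a (l 16563160) (l 16554528))) (b (l 16547888) (l 16536040)))) (a (b (l 16572320) (l 16520000)) (b (l 16579640) (l 16508248))))))), by decide +kernel⟩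

def k1_pp_022 : ∃ t, chk3 f_pp_022 t 5 2 1 = true :=
  ⟨(a (a (a (a (b (b (l 1) (b (l 1) (b (l 1) (l 16564632)))) (b (b (b (l 16555296) (l 16545360)) (l 16550512)) (b (l 16506144) (l 16480032)))) (b (l 1) (b (b (b (b (l 16548784) (l 16544464)) (l 16537992)) (l 16566544)) (b (l 16505384) (l 16483128))))) (b (l 1) (b (b (b (a (l 16545112) (l 1)) (a (l 16537936) (a (l 16540192) (a (l 16544072) (l 16547328))))) (a (l 16547368) (a (l 16529792) (b (a (l 16537744) (l 16541368)) (l 16532408))))) (b (a (l 16508928) (a (l 16513880) (l 16542256))) (a (l 16488640) (l 16564144)))))) (a (b (l 1) (b (b (b (l 1) (l 16538160)) (b (a (l 16537648) (l 16527760)) (l 16526848))) (b (l 16516992) (l 16501392)))) (b (l 1) (b (b (l 1) (b (l 16512760) (l 16507688))) (b (l 16499216) (l 16485696)))))) (b (l 1) (b (b (l 1) (a (b (l 1) (l 16478200)) (l 1))) (b (a (a (b (l 16483368) (l 16478184)) (l 16462136)) (l 16433344)) (a (b (l 16463888) (l 16458016)) (a (l 16435168) (l 16417360))))))), by decide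 +kernel⟩

def k2_pp_022 : ∃ t, chk3 f_pp_022 t 4 3 1 = true :=
  ⟨(b (a (b (l 3) (a (l 3) (b (l 3) (a (l 3) (b (l 47411814023) (a (l 3) (l 16578488))))))) (b (a (b (a (b (l 16530536) (l 16507344)) (b (l 16480560) (l 16480232))) (a (c (l 16486520) (l 16478168)) (a (l 16479224) (l 16477440)))) (b (a (b (l 16472104) (l 16452344)) (b (l 16462552) (l 16444544))) (a (b (l 16436920) (l 16426544)) (b (l 16431048) (l 16422720))))) (a (b (a (b (l 16457200) (l 16451928)) (c (l 16451232) (l 16452208))) (a (b (a (l 16469216) (l 16432960)) (a (l 16524344) (l 16512504))) (b (l 16410728) (l 16495432)))) (b (a (l 16451832) (l 16452544)) (a (b (l 16391224) (l 16474568)) (l 16432712)))))) (a (a (l 3) (a (l 3) (a (b (l 3) (b (l 3) (l 17149592))) (b (b (b (l 16622560) (l 16638512)) (b (b (l 16722280) (l 16792560)) (l 16891272))) (b (b (l 17009728) (l 17112896)) (l 17245552)))))) (b (a (b (a (b (a (l 16591392) (l 16581568)) (a (l 16650944) (l 16642832))) (b (l 16568296) (l 16632032))) (a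 (b (a (l 16748080) (l 16738776)) (l 16873688)) (b (l 16725992) (l 16851488)))) (b (a (b (l 16552632) (l 16620080)) (l 16575080)) (a (b (l 16710984) (l 16830632)) (l 16752416)))) (a (b (a (b (l 16991768) (l 17096168)) (l 16959416)) (a (l 17188048) (l 17209224))) (b (a (l 16998392) (l 16970624)) (a (l 17187424) (l 17160072))))))), by decide +kernel⟩

def k3_pp_022 : ∃ t, chk3 f_pp_022 t 5 3 1 = true :=
  ⟨(b (a (b (a (a (b (l 16538336) (l 16456728)) (b (a (l 16464784) (l 16542736)) (a (l 16448888) (l 16487376)))) (b (l 16517944) (l 16466648))) (a (a (b (l 16426536) (l 16416744)) (b (a (l 16442848) (l 16462800)) (l 16536880))) (b (l 16467432) (l 16469120)))) (b (b (a (l 16489864) (b (l 16419888) (l 16414800))) (a (l 16443864) (l 16418368))) (b (a (l 16450720) (l 16431032)) (l 16452896)))) (b (a (b (a (a (l 16566176) (a (l 16563064) (l 16563904))) (l 16568504)) (a (a (l 16734832) (a (l 16723768) (l 16716760))) (l 16708176))) (b (a (l 16581840) (l 16602488)) (a (l 16704864)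 (l 16710504)))) (b (a (a (a (l 16942208) (l 16912408)) (l 16879936)) (l 16838000)) (a (a (l 17090240) (l 17058264)) (l 16996560))))), by decide +kernel⟩

def k4_pp_022 : ∃ t, chk3 f_pp_022 t 3 1 1 = true :=
  ⟨(b (a (a (b (l 1) (b (l 1) (a (b (l 1) (l 16389968)) (l 1)))) (l 1)) (l 1)) (b (a (a (b (b (a (b (l 16386264) (l 16383272)) (l 16355232)) (a (l 16390496) (l 16366152))) (b (a (l 16408760) (l 16390688)) (a (l 16433400) (l 16461904)))) (b (b (l 1) (a (l 16346408) (l 1))) (b (a (l 16378048) (l 16367280)) (a (l 16501472) (l 16547960))))) (b (l 1) (a (a (b (l 1) (l 16601248)) (l 1)) (l 1)))) (a (a (a (b (b (l 16628640) (l 16722904)) (l 16879016)) (b (b (l 16662784) (l 16743200)) (l 16863448))) (b (b (a (l 16706112) (l 16756152)) (a (l 16772496) (l 16809408))) (b (l 16817256) (l 16904264)))) (b (a (b (a (l 16811512) (l 16770280)) (a (l 16854584) (l 16824352))) (b (l 1) (a (l 16688392) (l 1)))) (a (a (l 16869288) (b (l 16821344) (l 16884976))) (b (a (l 16711304) (l 16537672))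 (a (l 16811832) (l 16681968)))))))), by decide +kernel⟩

theorem s5_pp_022 : ∃ t, chk3 f_pp_022 t 2 3 1 = true := ex3_a k2_pp_022 k3_pp_022

theorem s6_pp_022 : ∃ t, chk3 f_pp_022 t 2 2 1 = true := ex3_a k0_pp_022 k1_pp_022

theorem s7_pp_022 : ∃ t, chk3 f_pp_022 t 2 1 1 = true := ex3_b s6_pp_022 s5_pp_022

theorem s8_pp_022 : ∃ t, chk3 f_pp_022 t 1 1 1 = true := ex3_a s7_pp_022 k4_pp_022

theorem c_pp_022 : CertN 0 536870912 1073741824 536870912 335544320 67108864 3 false true true .pp 0 2 2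
    ndN0q0 ndN2q2 pcN2 Cut.none Ext.none :=
  certN2 (fam := false) (s1 := true) (s2 := true) (a := 0) (b := 2) (c := 2) (cn := .pp) (n1 := ndN0q0) (n2 := ndN2q2) (pc := pcN2) (cut := Cut.none) (xt := Ext.none) (P1 := 0) (W1 := 536870912) (P2 := 1073741824) (W2 := 536870912) (P3 := 335544320) (W3 := 67108864) (N0 := 3)
    rfl (fun _ => rfl) s8_pp_022

noncomputable def f_pp_023 : ℕ → ℕ → ℕ → ℕ → Bool := onCell 1073741824 536870912 0 1230186008 335544320 67108864
    (rowN 3 2 false true true .up 0 2 3 (qsf 0 536870912 0 1230186008 2) ndN0q0 ndN2q3 pcN2 Cut.none Ext.none)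

def k0_pp_023 : ∃ t, chk3 f_pp_023 t 1 1 1 = true :=
  ⟨(b (a (l 2) (a (l 2) (b (a (l 2) (l 17172872)) (a (b (l 17139120) (l 17159752)) (b (l 17211624) (l 17250480)))))) (b (a (a (l 2) (b (l 2) (a (l 2) (l 17134136)))) (a (a (b (l 2) (a (l 17079392) (l 17101776))) (b (l 17105840) (l 17181672))) (a (b (l 17188704) (l 17218536)) (b (l 17313152) (l 17353784))))) (a (a (b (l 2) (a (b (l 2) (a (l 3) (a (l 3) (b (l 17019312) (b (l 16979304) (l 75329884183)))))) (a (b (a (l 17102456) (l 17056104)) (b (a (l 17012152) (l 17006440)) (a (l 16953856) (l 16947824)))) (b (l 17045512) (b (l 16996184) (a (l 16942872) (l 16937928))))))) (b (a (b (l 275516504775) (a (l 17056792) (l 17059552))) (b (l 17079632) (l 17084888))) (a (b (a (a (l 17038200) (l 17033088)) (l 17037680)) (a (a (l 16964768) (b (l 16986392) (l 16934016))) (l 16969248))) (b (l 17064368) (b (l 17020920) (l 16974736)))))) (a (a (b (b (l 17123392) (l 17129656)) (b (l 17110608) (a (l 17040352) (l 17072072)))) (b (b (l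 17165056) (l 17172456)) (b (l 17164960) (l 17129088)))) (b (a (a (l 17207856) (l 17260144)) (b (l 17363016) (l 17350192))) (a (b (a (l 17215624) (l 17251160)) (a (l 17191912) (l 17211184))) (b (l 17299000) (a (l 17201464) (l 17178248))))))))), by decide +kernel⟩

theorem c_pp_023 : CertN 0 536870912 0 1230186008 335544320 67108864 3 false true true .up 0 2 3
    ndN0q0 ndN2q3 pcN2 Cut.none Ext.none :=
  certN2 (fam := false) (s1 := true) (s2 := true) (a := 0) (b := 2) (c := 3) (cn := .up) (n1 := ndN0q0) (n2 := ndN2q3) (pc := pcN2) (cut := Cut.none) (xt := Ext.none) (P1 := 0) (W1 := 536870912) (P2 := 0) (W2 := 1230186008) (P3 := 335544320) (W3 := 67108864) (N0 := 3)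
    rfl (fun _ => rfl) k0_pp_023

noncomputable def f_pp_033 : ℕ → ℕ → ℕ → ℕ → Bool := onCell 1610612736 536870912 0 1230186008 335544320 67108864
    (rowN 3 2 false true true .pnn 0 3 3 (qsf 0 536870912 0 1230186008 3) ndN0q0 ndN2q3 pcN3 Cut.none Ext.none)

def k0_pp_033 : ∃ t, chk3 f_pp_033 t 1 1 1 = true :=
  ⟨(a (b (a (b (l 17093096) (a (l 17074816) (l 17151936))) (b (l 17148088) (a (l 17202872) (l 17238328)))) (b (a (b (l 17181792) (a (l 17235432) (l 17293576))) (b (l 17298216) (l 17566200))) (a (b (l 17595552) (b (l 17420240) (l 17439048))) (b (a (l 17451352) (l 17506088)) (b (l 17553944) (l 1)))))) (b (a (b (l 4) (a (l 17255056) (l 4))) (l 4)) (b (a (a (l 17400456) (l 17436168)) (l 4)) (l 1)))), by decide +kernel⟩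

theorem c_pp_033 : CertN 0 536870912 0 1230186008 335544320 67108864 3 false true true .pnn 0 3 3
    ndN0q0 ndN2q3 pcN3 Cut.none Ext.none :=
  certN2 (fam := false) (s1 := true) (s2 := true) (a := 0) (b := 3) (c := 3) (cn := .pnn) (n1 := ndN0q0) (n2 := ndN2q3) (pc := pcN3) (cut := Cut.none) (xt := Ext.none) (P1 := 0) (W1 := 536870912) (P2 := 0) (W2 := 1230186008) (P3 := 335544320) (W3 := 67108864) (N0 := 3)
    rfl (fun _ => rfl) k0_pp_033

noncomputable def f_pp_101 : ℕ → ℕ → ℕ → ℕ → Bool := onCell 536870912 536870912 536870912 536870912 335544320 67108864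
    (rowN 3 0 false true true .npn 1 0 1 (qsf 536870912 536870912 536870912 536870912 0) ndN0q1 ndN2q1 pcN0 Cut.none Ext.none)

def k0_pp_101 : ∃ t, chk3 f_pp_101 t 1 1 1 = true :=
  ⟨(a (l 3) (l 5)), by decide +kernel⟩

theorem c_pp_101 : CertN 536870912 536870912 536870912 536870912 335544320 67108864 3 false true true .npn 1 0 1
    ndN0q1 ndN2q1 pcN0 Cut.none Ext.none :=
  certN0 (fam := false) (s1 := true) (s2 := true) (a := 1) (b := 0) (c := 1) (cn := .npn) (n1 := ndN0q1) (n2 := ndN2q1) (pc := pcN0) (cut := Cut.none) (xt := Ext.none) (P1 := 536870912) (W1 := 536870912) (P2 := 536870912) (W2 := 536870912) (P3 := 335544320) (W3 := 67108864) (N0 := 3)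
    rfl k0_pp_101

noncomputable def f_pp_102 : ℕ → ℕ → ℕ → ℕ → Bool := onCell 536870912 536870912 0 536870912 335544320 67108864
    (rowN 3 1 false true true .npp 1 0 2 (qsf 536870912 536870912 1073741824 536870912 0) ndN0q1 ndN2q2 pcN0 Cut.none Ext.none)

def k0_pp_102 : ∃ t, chk3 f_pp_102 t 1 1 1 = true :=
  ⟨(l 3), by decide +kernel⟩

theorem c_pp_102 : CertN 536870912 536870912 1073741824 536870912 335544320 67108864 3 false true true .npp 1 0 2
    ndN0q1 ndN2q2 pcN0 Cut.none Ext.none :=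
  certN1 (fam := false) (s1 := true) (s2 := true) (a := 1) (b := 0) (c := 2) (cn := .npp) (n1 := ndN0q1) (n2 := ndN2q2) (pc := pcN0) (cut := Cut.none) (xt := Ext.none) (P1 := 536870912) (W1 := 536870912) (P2 := 1073741824) (W2 := 536870912) (P3 := 335544320) (W3 := 67108864) (N0 := 3)
    rfl (fun _ => rfl) k0_pp_102

noncomputable def f_pp_112 : ℕ → ℕ → ℕ → ℕ → Bool := onCell 536870912 536870912 1073741824 536870912 335544320 67108864
    (rowN 3 0 false true true .dn 1 1 2 (qsf 536870912 536870912 1073741824 536870912 1) ndN0q1 ndN2q2 pcN1 Cut.none Ext.none)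

def k0_pp_112 : ∃ t, chk3 f_pp_112 t 1 1 1 = true :=
  ⟨(a (l 3) (l 3)), by decide +kernel⟩

theorem c_pp_112 : CertN 536870912 536870912 1073741824 536870912 335544320 67108864 3 false true true .dn 1 1 2
    ndN0q1 ndN2q2 pcN1 Cut.none Ext.none :=
  certN0 (fam := false) (s1 := true) (s2 := true) (a := 1) (b := 1) (c := 2) (cn := .dn) (n1 := ndN0q1) (n2 := ndN2q2) (pc := pcN1) (cut := Cut.none) (xt := Ext.none) (P1 := 536870912) (W1 := 536870912) (P2 := 1073741824) (W2 := 536870912) (P3 := 335544320) (W3 := 67108864) (N0 := 3)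
    rfl k0_pp_112

noncomputable def cut_pp_113 : Cut := Cut.of [[⟨0, 1, 0, 67108864⟩, ⟨1, 1, 0, 67108864⟩, ⟨2, 2, 0, 16777216⟩]]

noncomputable def f_pp_113 : ℕ → ℕ → ℕ → ℕ → Bool := onCell 536870912 536870912 0 1230186008 335544320 67108864
    (rowN 3 2 false true true .nn 1 1 3 (qsf 536870912 536870912 0 1230186008 1) ndN0q1 ndN2q3 pcN1 cut_pp_113 Ext.none)

def k0_pp_113 : ∃ t, chk3 f_pp_113 t 1 1 1 = true :=
  ⟨(b (a (l 2) (a (l 2) (a (l 3) (a (l 3) (b (b (l 6) (l 3)) (l 3)))))) (a (b (l 3) (a (l 3) (l 3))) (b (a (l 3) (l 3)) (l 3)))), by decide +kernel⟩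

theorem c_pp_113 : CertN 536870912 536870912 0 1230186008 335544320 67108864 3 false true true .nn 1 1 3
    ndN0q1 ndN2q3 pcN1 cut_pp_113 Ext.none :=
  certN2 (fam := false) (s1 := true) (s2 := true) (a := 1) (b := 1) (c := 3) (cn := .nn) (n1 := ndN0q1) (n2 := ndN2q3) (pc := pcN1) (cut := cut_pp_113) (xt := Ext.none) (P1 := 536870912) (W1 := 536870912) (P2 := 0) (W2 := 1230186008) (P3 := 335544320) (W3 := 67108864) (N0 := 3)
    rfl (fun _ => rfl) k0_pp_113

noncomputable def cut_pp_123 : Cut := Cut.of [[⟨0, 1, 0, 67108864⟩, ⟨1, 1, 0, 67108864⟩, ⟨2, 2, 0, 16777216⟩]]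

noncomputable def f_pp_123 : ℕ → ℕ → ℕ → ℕ → Bool := onCell 1073741824 536870912 0 1230186008 335544320 67108864
    (rowN 3 2 false true true .npn 1 2 3 (qsf 536870912 536870912 0 1230186008 2) ndN0q1 ndN2q3 pcN2 cut_pp_123 Ext.none)

def k0_pp_123 : ∃ t, chk3 f_pp_123 t 1 2 1 = true :=
  ⟨(b (a (a (b (a (a (l 6) (l 16787632)) (l 16792728)) (b (a (a (l 6) (l 16797904)) (l 16801912)) (a (a (a (a (l 3) (a (l 265918966183) (l 16803472))) (l 16807704)) (l 16810648)) (l 16814080)))) (a (l 17076688) (l 16900760))) (a (a (l 16977072) (l 17052848)) (a (l 17124616) (l 17173152)))) (a (a (a (a (b (a (a (l 3) (b (l 249812883431) (l 3))) (b (l 16844144) (l 16862752))) (a (l 3) (b (l 16863904) (l 16890744)))) (b (l 16942912) (a (l 16907568) (l 16889512)))) (b (l 16862856) (l 17144384))) (a (b (l 16951896) (l 17075488)) (l 17038224))) (a (a (l 16998664) (l 17319272)) (a (l 17152864) (b (l 17211880) (l 17252264)))))), by decide +kernel⟩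

def k1_pp_123 : ∃ t, chk3 f_pp_123 t 1 3 1 = true :=
  ⟨(b (a (a (a (b (a (b (l 191831094871) (l 161766342487)) (b (l 16935032) (a (l 16966632) (l 16973808)))) (a (b (l 177335581719) (l 3)) (b (a (l 17003816) (l 17010328)) (a (l 17038016) (l 17044168))))) (b (a (l 16958176) (l 16960056)) (a (b (l 17011776) (l 17045336)) (b (l 17010864) (l 17041224))))) (b (a (a (l 16961584) (l 16970600)) (l 16993968)) (a (a (b (l 17008352) (l 17035176)) (l 17027984)) (l 17155088)))) (a (a (b (l 17087704) (a (l 17079512) (l 17102144))) (b (l 17106032) (b (l 17131568) (l 1)))) (a (b (l 17190928) (l 1)) (l 1)))) (a (a (b (a (a (l 3) (b (a (l 127406931079) (l 17070896)) (b (l 119353856247) (l 116132627703)))) (a (b (a (l 17071728) (l 17068624)) (a (l 17080312) (l 17077096))) (b (l 17062784) (l 17068264)))) (a (a (l 3) (a (b (b (l 17072160) (l 3)) (l 3)) (b (b (l 17072816) (l 17053944)) (b (l 17019288) (l 1))))) (a (b (a (b (l 17069664) (l 17048776)) (l 17056096)) (b (a (l 17012120) (l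 1)) (l 1))) (b (l 17108416) (l 1))))) (b (a (b (a (l 17053520) (l 17056088)) (a (l 17056808) (l 17059632))) (b (l 17079816) (l 1))) (a (b (a (l 169148907287) (l 1)) (l 1)) (l 1)))) (l 1))), by decide +kernel⟩

theorem s2_pp_123 : ∃ t, chk3 f_pp_123 t 1 1 1 = true := ex3_b k0_pp_123 k1_pp_123

theorem c_pp_123 : CertN 536870912 536870912 0 1230186008 335544320 67108864 3 false true true .npn 1 2 3
    ndN0q1 ndN2q3 pcN2 cut_pp_123 Ext.none :=
  certN2 (fam := false) (s1 := true) (s2 := true) (a := 1) (b := 2) (c := 3) (cn := .npn) (n1 := ndN0q1) (n2 := ndN2q3) (pc := pcN2) (cut := cut_pp_123) (xt := Ext.none) (P1 := 536870912) (W1 := 536870912) (P2 := 0) (W2 := 1230186008) (P3 := 335544320) (W3 := 67108864) (N0 := 3)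
    rfl (fun _ => rfl) s2_pp_123

noncomputable def f_pp_133 : ℕ → ℕ → ℕ → ℕ → Bool := onCell 1610612736 536870912 0 1230186008 335544320 67108864
    (rowN 3 2 false true true .dn 1 3 3 (qsf 536870912 536870912 0 1230186008 3) ndN0q1 ndN2q3 pcN3 Cut.none Ext.none)

def k0_pp_133 : ∃ t, chk3 f_pp_133 t 1 1 1 = true :=
  ⟨(b (b (a (a (l 17098592) (l 1)) (l 1)) (l 1)) (l 1)), by decide +kernel⟩

theorem c_pp_133 : CertN 536870912 536870912 0 1230186008 335544320 67108864 3 false true true .dn 1 3 3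
    ndN0q1 ndN2q3 pcN3 Cut.none Ext.none :=
  certN2 (fam := false) (s1 := true) (s2 := true) (a := 1) (b := 3) (c := 3) (cn := .dn) (n1 := ndN0q1) (n2 := ndN2q3) (pc := pcN3) (cut := Cut.none) (xt := Ext.none) (P1 := 536870912) (W1 := 536870912) (P2 := 0) (W2 := 1230186008) (P3 := 335544320) (W3 := 67108864) (N0 := 3)
    rfl (fun _ => rfl) k0_pp_133

noncomputable def f_pp_202 : ℕ → ℕ → ℕ → ℕ → Bool := onCell 0 536870912 1073741824 536870912 335544320 67108864
    (rowN 3 0 false true true .pp 2 0 2 (qsf 0 536870912 1073741824 536870912 0) ndN0q2 ndN2q2 pcN0 Cut.none Ext.none)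

def k0_pp_202 : ∃ t, chk3 f_pp_202 t 1 1 1 = true :=
  ⟨(l 3), by decide +kernel⟩

theorem c_pp_202 : CertN 0 536870912 1073741824 536870912 335544320 67108864 3 false true true .pp 2 0 2
    ndN0q2 ndN2q2 pcN0 Cut.none Ext.none :=
  certN0 (fam := false) (s1 := true) (s2 := true) (a := 2) (b := 0) (c := 2) (cn := .pp) (n1 := ndN0q2) (n2 := ndN2q2) (pc := pcN0) (cut := Cut.none) (xt := Ext.none) (P1 := 0) (W1 := 536870912) (P2 := 1073741824) (W2 := 536870912) (P3 := 335544320) (W3 := 67108864) (N0 := 3)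
    rfl k0_pp_202

noncomputable def f_pp_203 : ℕ → ℕ → ℕ → ℕ → Bool := onCell 0 536870912 0 1230186008 335544320 67108864
    (rowN 3 0 false true true .up 2 0 3 (qsf 0 536870912 0 1230186008 0) ndN0q2 ndN2q3 pcN0 Cut.none Ext.none)

def k0_pp_203 : ∃ t, chk3 f_pp_203 t 1 1 1 = true :=
  ⟨(b (l 2) (l 3)), by decide +kernel⟩

theorem c_pp_203 : CertN 0 536870912 0 1230186008 335544320 67108864 3 false true true .up 2 0 3
    ndN0q2 ndN2q3 pcN0 Cut.none Ext.none :=
  certN0 (fam := false) (s1 := true) (s2 := true) (a := 2) (b := 0) (c := 3) (cn := .up) (n1 := ndN0q2) (n2 := ndN2q3) (pc := pcN0) (cut := Cut.none) (xt := Ext.none) (P1 := 0) (W1 := 536870912) (P2 := 0) (W2 := 1230186008) (P3 := 335544320) (W3 := 67108864) (N0 := 3)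
    rfl k0_pp_203

noncomputable def cut_pp_213 : Cut := Cut.of [[⟨0, 1, 0, 67108864⟩, ⟨1, 1, 0, 67108864⟩, ⟨2, 2, 0, 16777216⟩]]

noncomputable def f_pp_213 : ℕ → ℕ → ℕ → ℕ → Bool := onCell 0 536870912 0 1230186008 335544320 67108864
    (rowN 3 0 false true true .pnn 2 1 3 (qsf 0 536870912 0 1230186008 1) ndN0q2 ndN2q3 pcN1 cut_pp_213 Ext.none)

def k0_pp_213 : ∃ t, chk3 f_pp_213 t 1 1 1 = true :=
  ⟨(b (a (l 3) (b (a (l 3) (a (l 3) (b (l 6) (l 3)))) (l 3))) (l 3)), by decide +kernel⟩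

theorem c_pp_213 : CertN 0 536870912 0 1230186008 335544320 67108864 3 false true true .pnn 2 1 3
    ndN0q2 ndN2q3 pcN1 cut_pp_213 Ext.none :=
  certN0 (fam := false) (s1 := true) (s2 := true) (a := 2) (b := 1) (c := 3) (cn := .pnn) (n1 := ndN0q2) (n2 := ndN2q3) (pc := pcN1) (cut := cut_pp_213) (xt := Ext.none) (P1 := 0) (W1 := 536870912) (P2 := 0) (W2 := 1230186008) (P3 := 335544320) (W3 := 67108864) (N0 := 3)
    rfl k0_pp_213

noncomputable def f_pm_001 : ℕ → ℕ → ℕ → ℕ → Bool := onCell 0 536870912 536870912 536870912 335544320 67108864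
    (rowN 3 0 false true false .up 0 0 1 (qsf 0 536870912 536870912 536870912 0) ndN0q0 ndN2q1 pcN0 Cut.none Ext.none)

def k0_pm_001 : ∃ t, chk3 f_pm_001 t 1 1 1 = true :=
  ⟨(l 4), by decide +kernel⟩

theorem c_pm_001 : CertN 0 536870912 536870912 536870912 335544320 67108864 3 false true false .up 0 0 1
    ndN0q0 ndN2q1 pcN0 Cut.none Ext.none :=
  certN0 (fam := false) (s1 := true) (s2 := false) (a := 0) (b := 0) (c := 1) (cn := .up) (n1 := ndN0q0) (n2 := ndN2q1) (pc := pcN0) (cut := Cut.none) (xt := Ext.none) (P1 := 0) (W1 := 536870912) (P2 := 536870912) (W2 := 536870912) (P3 := 335544320) (W3 := 67108864) (N0 := 3)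
    rfl k0_pm_001

noncomputable def f_pm_011 : ℕ → ℕ → ℕ → ℕ → Bool := onCell 0 536870912 536870912 536870912 335544320 67108864
    (rowN 3 0 false true false .pnn 0 1 1 (qsf 0 536870912 536870912 536870912 1) ndN0q0 ndN2q1 pcN1 Cut.none Ext.none)

def k0_pm_011 : ∃ t, chk3 f_pm_011 t 1 1 1 = true :=
  ⟨(l 4), by decide +kernel⟩

theorem c_pm_011 : CertN 0 536870912 536870912 536870912 335544320 67108864 3 false true false .pnn 0 1 1
    ndN0q0 ndN2q1 pcN1 Cut.none Ext.none :=
  certN0 (fam := false) (s1 := true) (s2 := false) (a := 0) (b := 1) (c := 1) (cn := .pnn) (n1 := ndN0q0) (n2 := ndN2q1) (pc := pcN1) (cut := Cut.none) (xt := Ext.none) (P1 := 0) (W1 := 536870912) (P2 := 536870912) (W2 := 536870912) (P3 := 335544320) (W3 := 67108864) (N0 := 3)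
    rfl k0_pm_011

noncomputable def f_pm_012 : ℕ → ℕ → ℕ → ℕ → Bool := onCell 0 536870912 1073741824 536870912 335544320 67108864
    (rowN 3 0 false true false .pnp 0 1 2 (qsf 0 536870912 1073741824 536870912 1) ndN0q0 ndN2q2 pcN1 Cut.none Ext.none)

def k0_pm_012 : ∃ t, chk3 f_pm_012 t 1 1 1 = true :=
  ⟨(a (b (l 4) (l 4)) (b (a (b (b (a (a (l 4) (a (b (l 16483152) (l 4)) (b (l 16451816) (l 16441528)))) (a (b (b (l 16433256) (l 16432672)) (l 16429336)) (b (l 16455816) (l 16414280)))) (a (a (l 4) (l 4)) (a (b (l 16418840) (l 16423024)) (b (l 16409352) (l 16400208))))) (a (l 4) (b (a (b (l 16442744) (l 4)) (b (l 16387072) (l 16369112))) (a (l 4) (b (l 16346360) (l 16307440)))))) (b (a (b (a (b (l 16466032) (l 16442360)) (b (l 16599264) (l 16592944))) (a (l 16430928) (l 16603280))) (b (a (b (l 16701808) (l 16709240)) (b (l 16789248) (l 16806288))) (a (l 16736520) (b (a (l 16805952) (l 16854448)) (l 16860928))))) (a (b (a (l 16454192) (l 16647512)) (a (b (l 16494200)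 (l 16529248)) (b (l 16698328) (l 16738400)))) (b (a (b (l 16779648) (l 16815080)) (b (l 16895240) (l 16932376))) (a (b (l 16854768) (l 16897832)) (b (l 16972024) (l 17014504))))))) (b (a (a (l 4) (a (l 4) (b (b (l 16279392) (l 4)) (l 4)))) (a (b (b (a (l 16569456) (l 16782752)) (a (a (l 16557408) (l 16680064)) (l 16836328))) (a (b (l 32983569367) (a (l 16694256) (l 16817984))) (a (b (l 16851824) (l 16923576)) (l 16977888)))) (b (b (a (l 16943736) (l 17059728)) (a (l 16997736) (l 17110144))) (a (b (l 17058568) (l 17121136)) (b (l 17168000) (l 17221648)))))) (a (l 4) (b (a (a (a (l 4) (b (l 16896424) (l 16827152))) (b (l 17042760) (l 17002408))) (b (l 17238712) (a (l 17172840) (l 17282200)))) (a (a (l 2) (b (l 16825944) (l 2))) (a (b (l 17065080) (l 16932128)) (l 17186712)))))))), by decide +kernel⟩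

theorem c_pm_012 : CertN 0 536870912 1073741824 536870912 335544320 67108864 3 false true false .pnp 0 1 2
    ndN0q0 ndN2q2 pcN1 Cut.none Ext.none :=
  certN0 (fam := false) (s1 := true) (s2 := false) (a := 0) (b := 1) (c := 2) (cn := .pnp) (n1 := ndN0q0) (n2 := ndN2q2) (pc := pcN1) (cut := Cut.none) (xt := Ext.none) (P1 := 0) (W1 := 536870912) (P2 := 1073741824) (W2 := 536870912) (P3 := 335544320) (W3 := 67108864) (N0 := 3)
    rfl k0_pm_012

noncomputable def f_pm_022 : ℕ → ℕ → ℕ → ℕ → Bool := onCell 1073741824 536870912 1073741824 536870912 335544320 67108864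
    (rowN 3 2 false true false .pp 0 2 2 (qsf 0 536870912 1073741824 536870912 2) ndN0q0 ndN2q2 pcN2 Cut.none Ext.none)

def k0_pm_022 : ∃ t, chk3 f_pm_022 t 1 1 1 = true :=
  ⟨(a (b (l 4) (b (l 4) (a (b (a (b (a (l 16787816) (l 4)) (a (l 16970312) (l 16889176))) (l 4)) (a (b (a (l 17047928) (l 16985864)) (a (l 17144880) (l 17096056))) (a (l 16995352) (l 16961488)))) (l 4)))) (l 4)), by decide +kernel⟩

theorem c_pm_022 : CertN 0 536870912 1073741824 536870912 335544320 67108864 3 false true false .pp 0 2 2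
    ndN0q0 ndN2q2 pcN2 Cut.none Ext.none :=
  certN2 (fam := false) (s1 := true) (s2 := false) (a := 0) (b := 2) (c := 2) (cn := .pp) (n1 := ndN0q0) (n2 := ndN2q2) (pc := pcN2) (cut := Cut.none) (xt := Ext.none) (P1 := 0) (W1 := 536870912) (P2 := 1073741824) (W2 := 536870912) (P3 := 335544320) (W3 := 67108864) (N0 := 3)
    rfl (fun _ => rfl) k0_pm_022

noncomputable def f_pm_023 : ℕ → ℕ → ℕ → ℕ → Bool := onCell 0 536870912 0 1230186008 335544320 67108864
    (rowN 3 0 false true false .up 0 2 3 (qsf 0 536870912 0 1230186008 2) ndN0q0 ndN2q3 pcN2 Cut.none Ext.none)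

def k0_pm_023 : ∃ t, chk3 f_pm_023 t 1 1 1 = true :=
  ⟨(a (b (l 2) (l 4)) (b (a (l 2) (b (a (l 2) (l 17204112)) (a (b (l 17257712) (l 17312528)) (l 17277536)))) (b (b (a (l 4) (a (l 17382208) (l 17375912))) (a (l 4) (a (l 17452456) (l 17456440)))) (a (l 4) (b (a (b (l 17491680) (l 17499488)) (l 17525120)) (b (a (l 17480824) (l 17543640)) (a (l 17418528) (l 17522464)))))))), by decide +kernel⟩

theorem c_pm_023 : CertN 0 536870912 0 1230186008 335544320 67108864 3 false true false .up 0 2 3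
    ndN0q0 ndN2q3 pcN2 Cut.none Ext.none :=
  certN0 (fam := false) (s1 := true) (s2 := false) (a := 0) (b := 2) (c := 3) (cn := .up) (n1 := ndN0q0) (n2 := ndN2q3) (pc := pcN2) (cut := Cut.none) (xt := Ext.none) (P1 := 0) (W1 := 536870912) (P2 := 0) (W2 := 1230186008) (P3 := 335544320) (W3 := 67108864) (N0 := 3)
    rfl k0_pm_023

noncomputable def f_pm_033 : ℕ → ℕ → ℕ → ℕ → Bool := onCell 1610612736 536870912 0 1230186008 335544320 67108864
    (rowN 3 2 false true false .pnn 0 3 3 (qsf 0 536870912 0 1230186008 3) ndN0q0 ndN2q3 pcN3 Cut.none Ext.none)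

def k0_pm_033 : ∃ t, chk3 f_pm_033 t 1 1 1 = true :=
  ⟨(b (a (a (b (l 17134592) (a (b (l 17204224) (l 17292336)) (l 17372568))) (b (l 17156424) (l 4))) (l 4)) (a (b (a (b (a (l 17358080) (l 4)) (l 4)) (l 4)) (l 4)) (l 4))), by decide +kernel⟩

theorem c_pm_033 : CertN 0 536870912 0 1230186008 335544320 67108864 3 false true false .pnn 0 3 3
    ndN0q0 ndN2q3 pcN3 Cut.none Ext.none :=
  certN2 (fam := false) (s1 := true) (s2 := false) (a := 0) (b := 3) (c := 3) (cn := .pnn) (n1 := ndN0q0) (n2 := ndN2q3) (pc := pcN3) (cut := Cut.none) (xt := Ext.none) (P1 := 0) (W1 := 536870912) (P2 := 0) (W2 := 1230186008) (P3 := 335544320) (W3 := 67108864) (N0 := 3)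
    rfl (fun _ => rfl) k0_pm_033

noncomputable def f_pm_101 : ℕ → ℕ → ℕ → ℕ → Bool := onCell 536870912 536870912 536870912 536870912 335544320 67108864
    (rowN 3 0 false true false .npn 1 0 1 (qsf 536870912 536870912 536870912 536870912 0) ndN0q1 ndN2q1 pcN0 Cut.none Ext.none)

def k0_pm_101 : ∃ t, chk3 f_pm_101 t 1 1 1 = true :=
  ⟨(l 4), by decide +kernel⟩

theorem c_pm_101 : CertN 536870912 536870912 536870912 536870912 335544320 67108864 3 false true false .npn 1 0 1
    ndN0q1 ndN2q1 pcN0 Cut.none Ext.none :=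
  certN0 (fam := false) (s1 := true) (s2 := false) (a := 1) (b := 0) (c := 1) (cn := .npn) (n1 := ndN0q1) (n2 := ndN2q1) (pc := pcN0) (cut := Cut.none) (xt := Ext.none) (P1 := 536870912) (W1 := 536870912) (P2 := 536870912) (W2 := 536870912) (P3 := 335544320) (W3 := 67108864) (N0 := 3)
    rfl k0_pm_101

noncomputable def f_pm_102 : ℕ → ℕ → ℕ → ℕ → Bool := onCell 536870912 536870912 1073741824 536870912 335544320 67108864
    (rowN 3 0 false true false .npp 1 0 2 (qsf 536870912 536870912 1073741824 536870912 0) ndN0q1 ndN2q2 pcN0 Cut.none Ext.none)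

def k0_pm_102 : ∃ t, chk3 f_pm_102 t 1 1 1 = true :=
  ⟨(a (b (a (b (b (a (a (b (l 17072456) (l 17059576)) (l 17076696)) (b (l 17114440) (l 17097840))) (a (b (l 17049832) (l 2)) (l 17079928))) (b (a (l 2) (l 17064408)) (l 2))) (b (b (a (b (l 17156208) (l 17137664)) (b (l 17187160) (l 17165584))) (a (l 17120592) (l 17148200))) (b (a (l 17108328) (l 17344056)) (a (l 17090168) (l 17100896))))) (a (l 2) (b (b (a (l 2) (l 17059672)) (l 2)) (l 2)))) (b (a (b (b (a (b (l 17194144) (l 17168816)) (b (l 17165600) (l 17136736))) (a (b (l 17154008) (l 17143672)) (b (l 17263656) (l 17105520)))) (b (a (l 17187464) (l 17079384)) (a (l 17086736) (l 17068888)))) (b (a (b (b (l 17093408) (a (l 17083536) (l 17034184))) (b (a (l 17067888) (l 17022848)) (l 17035408))) (b (b (a (b (l 17018464) (l 16999176)) (a (l 16961216) (l 16920952))) (a (b (l 16985424) (l 16987464)) (a (l 16960832) (l 16913704)))) (a (b (l 16998664) (l 16977384)) (a (l 16916616) (l 17044520))))) (a (b (a (l 17056088)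 (l 17023504)) (a (l 17051488) (l 16925448))) (b (a (l 16993264) (b (l 16798240) (l 16718400))) (a (l 16740440) (b (l 16633040) (l 16583168))))))) (b (a (b (a (l 17056088) (l 17118352)) (a (l 17052536) (l 16994864))) (a (b (a (l 16939376) (l 16732088)) (l 16930552)) (b (a (l 16689672) (l 16539904)) (a (l 16679200) (l 16556304))))) (a (b (a (l 2) (l 17057976)) (l 2)) (a (b (b (l 16871320) (l 16945736)) (l 17096496)) (b (b (l 16765824) (a (l 16936936) (l 16909176))) (a (l 17159680) (l 17193416)))))))), by decide +kernel⟩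

theorem c_pm_102 : CertN 536870912 536870912 1073741824 536870912 335544320 67108864 3 false true false .npp 1 0 2
    ndN0q1 ndN2q2 pcN0 Cut.none Ext.none :=
  certN0 (fam := false) (s1 := true) (s2 := false) (a := 1) (b := 0) (c := 2) (cn := .npp) (n1 := ndN0q1) (n2 := ndN2q2) (pc := pcN0) (cut := Cut.none) (xt := Ext.none) (P1 := 536870912) (W1 := 536870912) (P2 := 1073741824) (W2 := 536870912) (P3 := 335544320) (W3 := 67108864) (N0 := 3)
    rfl k0_pm_102

noncomputable def f_pm_112 : ℕ → ℕ → ℕ → ℕ → Bool := onCell 536870912 536870912 536870912 536870912 335544320 67108864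
    (rowN 3 1 false true false .dn 1 1 2 (qsf 536870912 536870912 1073741824 536870912 1) ndN0q1 ndN2q2 pcN1 Cut.none Ext.none)

def k0_pm_112 : ∃ t, chk3 f_pm_112 t 2 1 1 = true :=
  ⟨(b (a (b (b (b (a (a (a (l 16853840) (b (l 16900472) (l 16914976))) (l 16989536)) (l 17091128)) (a (a (a (l 16878776) (l 16936808)) (l 17011888)) (l 17109856))) (a (b (a (b (l 16929760) (l 16944808)) (l 17039336)) (l 17023984)) (b (a (l 17117096) (l 17169184)) (a (l 17154448) (l 17214616))))) (b (a (b (l 17058360) (l 17094024)) (a (b (l 17186552) (l 17215376)) (b (l 17235344) (l 17255272)))) (a (b (a (l 17079240) (l 17178080)) (a (l 17119992) (l 17212680))) (b (a (l 17240864) (l 17275920)) (l 17287224))))) (b (a (b (b (l 17146808) (l 17163880)) (b (a (l 17204840) (l 17216904)) (l 17395144))) (b (a (l 17143432) (l 17138568)) (b (l 17204496) (l 17227768)))) (b (a (a (l 17264328) (l 17263392)) (a (l 17247080) (l 17221496))) (a (b (l 17286384) (l 17432520)) (b (l 17339752) (l 17288512))))))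 (a (b (b (a (a (b (l 17162408) (l 17210960)) (l 17268488)) (a (l 17320376) (l 17470136))) (a (a (b (l 17255408) (l 17308296)) (b (l 17334672) (l 17370912))) (b (a (l 17373888) (l 17389288)) (l 17406688)))) (a (b (b (a (l 17342832) (l 17380784)) (a (l 17335176) (l 17375008))) (a (l 17287016) (l 17354216))) (b (l 17434224) (l 17442800)))) (b (a (b (b (l 17397344) (l 17371248)) (l 17430400)) (b (l 17353544) (l 17426136))) (a (b (l 17486712) (l 2)) (l 2))))), by decide +kernel⟩

def k1_pm_112 : ∃ t, chk3 f_pm_112 t 3 1 1 = true :=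
  ⟨(b (b (a (b (a (a (l 17129696) (l 17131824)) (a (l 17193136) (l 17119584))) (a (a (l 17181056) (l 17165416)) (a (l 17153928) (l 17229080)))) (a (b (a (l 17172992) (l 17228368)) (l 17181664)) (b (l 65063510727) (l 549321057511)))) (a (b (a (a (l 17192904) (l 17166240)) (l 17160072)) (a (l 17238800) (a (l 17215664) (l 2)))) (b (l 458053003383) (l 2)))) (b (a (a (b (l 17305760) (l 2)) (l 2)) (l 2)) (l 2))), by decide +kernel⟩

theorem s2_pm_112 : ∃ t, chk3 f_pm_112 t 1 1 1 = true := ex3_a k0_pm_112 k1_pm_112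

theorem c_pm_112 : CertN 536870912 536870912 1073741824 536870912 335544320 67108864 3 false true false .dn 1 1 2
    ndN0q1 ndN2q2 pcN1 Cut.none Ext.none :=
  certN1 (fam := false) (s1 := true) (s2 := false) (a := 1) (b := 1) (c := 2) (cn := .dn) (n1 := ndN0q1) (n2 := ndN2q2) (pc := pcN1) (cut := Cut.none) (xt := Ext.none) (P1 := 536870912) (W1 := 536870912) (P2 := 1073741824) (W2 := 536870912) (P3 := 335544320) (W3 := 67108864) (N0 := 3)
    rfl (fun _ => rfl) s2_pm_112

noncomputable def cut_pm_113 : Cut := Cut.of [[⟨0, 1, 0, 67108864⟩, ⟨1, 1, 0, 67108864⟩, ⟨2, 2, 0, 16777216⟩]]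

noncomputable def f_pm_113 : ℕ → ℕ → ℕ → ℕ → Bool := onCell 536870912 536870912 0 1230186008 335544320 67108864
    (rowN 3 0 false true false .nn 1 1 3 (qsf 536870912 536870912 0 1230186008 1) ndN0q1 ndN2q3 pcN1 cut_pm_113 Ext.none)

def k0_pm_113 : ∃ t, chk3 f_pm_113 t 1 1 1 = true :=
  ⟨(b (a (l 2) (a (l 2) (b (a (l 2) (a (l 2) (b (l 6) (b (l 6) (l 16815888))))) (a (b (l 16971304) (l 16989304)) (b (a (l 16876760) (l 16942112)) (a (l 16907544) (l 16880560))))))) (b (a (a (l 2) (b (l 2) (a (l 2) (a (l 2) (l 17465880))))) (a (b (a (l 2) (l 17152520)) (a (l 17304160) (l 17138472))) (a (b (l 17010936) (l 17043928)) (b (a (l 16952560) (l 16959328)) (a (l 17046256) (l 17050584)))))) (a (a (b (l 2) (a (b (l 2) (l 17605016)) (b (l 17643088) (l 17548248)))) (b (a (l 17618872) (b (l 17448328) (l 17394568))) (a (b (l 17508992) (l 17437040)) (l 17320832)))) (b (a (a (l 17233784) (l 17134488)) (a (l 17139144) (b (l 17110176) (a (l 17134128) (l 17136912))))) (a (a (b (l 17190800)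 (l 17189616)) (b (a (l 17143048) (l 17132144)) (a (b (l 17123672) (l 17109528)) (l 17105032)))) (a (b (l 17133344) (l 17108848)) (b (a (l 17137560) (l 17136144)) (a (l 17105104) (l 17092944))))))))), by decide +kernel⟩

theorem c_pm_113 : CertN 536870912 536870912 0 1230186008 335544320 67108864 3 false true false .nn 1 1 3
    ndN0q1 ndN2q3 pcN1 cut_pm_113 Ext.none :=
  certN0 (fam := false) (s1 := true) (s2 := false) (a := 1) (b := 1) (c := 3) (cn := .nn) (n1 := ndN0q1) (n2 := ndN2q3) (pc := pcN1) (cut := cut_pm_113) (xt := Ext.none) (P1 := 536870912) (W1 := 536870912) (P2 := 0) (W2 := 1230186008) (P3 := 335544320) (W3 := 67108864) (N0 := 3)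
    rfl k0_pm_113

noncomputable def cut_pm_123 : Cut := Cut.of [[⟨0, 1, 0, 67108864⟩, ⟨1, 1, 0, 67108864⟩, ⟨2, 2, 0, 16777216⟩]]

noncomputable def f_pm_123 : ℕ → ℕ → ℕ → ℕ → Bool := onCell 536870912 536870912 0 1230186008 335544320 67108864
    (rowN 3 0 false true false .npn 1 2 3 (qsf 536870912 536870912 0 1230186008 2) ndN0q1 ndN2q3 pcN2 cut_pm_123 Ext.none)

def k0_pm_123 : ∃ t, chk3 f_pm_123 t 1 1 1 = true :=
  ⟨(b (b (a (a (a (l 17178624) (l 17306216)) (a (b (l 17072736) (l 17099240)) (l 17006896))) (a (a (l 16931088) (l 16863416)) (a (a (l 16826112) (l 16935496)) (a (l 16947184) (b (l 6) (l 762927367783)))))) (a (a (a (l 17252664) (l 17220080)) (b (a (l 17141184) (l 17081840)) (a (l 17209528) (l 17158176)))) (a (a (l 17058184) (l 16998984)) (a (l 16952320) (b (a (l 16867472) (l 701724111655)) (l 579854580487)))))) (b (a (a (b (a (l 17356920) (l 17334216)) (a (l 17450072) (l 17443496))) (b (l 17413192) (a (l 17434816) (l 17424448)))) (a (b (a (l 17235112) (l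 17197272)) (a (l 17411256) (l 17391568))) (b (l 476776133431) (l 1)))) (a (a (b (a (l 17548392) (l 17575128)) (b (a (l 17609144) (l 17679592)) (a (l 17633320) (l 17748488)))) (b (a (l 17603944) (l 17632192)) (b (l 307126244119) (l 1)))) (l 1)))), by decide +kernel⟩

theorem c_pm_123 : CertN 536870912 536870912 0 1230186008 335544320 67108864 3 false true false .npn 1 2 3
    ndN0q1 ndN2q3 pcN2 cut_pm_123 Ext.none :=
  certN0 (fam := false) (s1 := true) (s2 := false) (a := 1) (b := 2) (c := 3) (cn := .npn) (n1 := ndN0q1) (n2 := ndN2q3) (pc := pcN2) (cut := cut_pm_123) (xt := Ext.none) (P1 := 536870912) (W1 := 536870912) (P2 := 0) (W2 := 1230186008) (P3 := 335544320) (W3 := 67108864) (N0 := 3)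
    rfl k0_pm_123

noncomputable def f_pm_133 : ℕ → ℕ → ℕ → ℕ → Bool := onCell 1610612736 536870912 0 1230186008 335544320 67108864
    (rowN 3 2 false true false .dn 1 3 3 (qsf 536870912 536870912 0 1230186008 3) ndN0q1 ndN2q3 pcN3 Cut.none Ext.none)

def k0_pm_133 : ∃ t, chk3 f_pm_133 t 1 1 1 = true :=
  ⟨(b (b (a (a (l 17139912) (l 1)) (l 1)) (l 1)) (l 1)), by decide +kernel⟩

theorem c_pm_133 : CertN 536870912 536870912 0 1230186008 335544320 67108864 3 false true false .dn 1 3 3
    ndN0q1 ndN2q3 pcN3 Cut.none Ext.none :=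
  certN2 (fam := false) (s1 := true) (s2 := false) (a := 1) (b := 3) (c := 3) (cn := .dn) (n1 := ndN0q1) (n2 := ndN2q3) (pc := pcN3) (cut := Cut.none) (xt := Ext.none) (P1 := 536870912) (W1 := 536870912) (P2 := 0) (W2 := 1230186008) (P3 := 335544320) (W3 := 67108864) (N0 := 3)
    rfl (fun _ => rfl) k0_pm_133

noncomputable def f_pm_202 : ℕ → ℕ → ℕ → ℕ → Bool := onCell 0 536870912 1073741824 536870912 335544320 67108864
    (rowN 3 0 false true false .pp 2 0 2 (qsf 0 536870912 1073741824 536870912 0) ndN0q2 ndN2q2 pcN0 Cut.none Ext.none)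

def k0_pm_202 : ∃ t, chk3 f_pm_202 t 2 1 1 = true :=
  ⟨(l 3), by decide +kernel⟩

def k1_pm_202 : ∃ t, chk3 f_pm_202 t 3 2 1 = true :=
  ⟨(b (a (b (l 1) (a (l 3) (b (a (l 3) (a (a (l 3) (a (l 3) (b (b (l 1) (b (l 1) (b (l 1) (l 131164026679)))) (a (l 3) (b (c (l 140290835975) (b (l 16644792) (l 16642752))) (l 138680193479)))))) (b (b (l 1) (a (l 16646768) (l 16643856))) (b (a (a (c (l 16649720) (b (l 16645224) (l 16643216))) (l 16647352)) (l 16646664)) (a (a (l 31306021703) (l 16643528)) (l 16643784)))))) (a (l 3) (a (l 3) (a (b (b (l 146196389959) (l 145122632583)) (l 142975134775)) (b (l 16636592) (l 16626016)))))))) (b (a (b (l 1) (a (b (l 1) (l 16678184)) (b (a (l 1) (l 16747080)) (l 16713464)))) (b (b (a (l 1) (l 16884112)) (a (a (b (l 1) (l 16786912)) (b (l 16823712) (l 16818080))) (a (l 16851144) (l 16883448)))) (a (b (l 16792120) (l 16774416)) (a (l 16831872) (l 16865720))))) (a (a (b (b (l 16698304) (a (l 16726992) (l 16631768))) (b (a (l 16699280) (l 16634600))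 (a (l 16626328) (l 16626488)))) (b (l 16684864) (l 16770544))) (a (b (l 16739680) (l 16675936)) (b (l 16809904) (l 16754072)))))) (a (a (l 3) (a (l 3) (a (l 3) (b (b (b (l 144048878327) (l 142975104791)) (a (l 3) (l 143511960007))) (b (l 141364418967) (l 3)))))) (a (b (a (b (a (l 16608352) (l 16607648)) (a (l 16581928) (l 16579248))) (b (l 16602536) (l 16576224))) (a (b (b (l 16578688) (l 16583048)) (b (l 16565192) (l 136532532999))) (l 16542960))) (b (a (b (l 16620832) (l 16569264)) (b (l 16680448) (l 16602528))) (a (l 16519528) (l 16557056)))))), by decide +kernel⟩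

def k2_pm_202 : ∃ t, chk3 f_pm_202 t 3 3 1 = true :=
  ⟨(b (a (b (l 3) (l 3)) (b (a (a (b (b (l 136532489879) (l 135995583575)) (b (l 135995548375) (l 133848008903))) (b (l 16476152) (l 16463976))) (b (l 16515112) (l 16498136))) (a (a (b (b (l 132774273559) (a (l 152638433815) (l 16449344))) (a (l 3) (b (l 131700488007) (l 133311470199)))) (b (l 16487656) (l 16483672))) (b (l 16470744) (l 16525480))))) (a (l 3) (b (a (b (a (a (l 3) (b (l 134385215671) (l 135458966839))) (a (l 16634616) (l 16639096))) (b (a (a (l 3) (a (l 142438520215) (l 16759112))) (l 16767016)) (a (a (l 3) (l 142975661527)) (l 16904392)))) (b (l 16652616) (a (l 16854464) (l 16874248)))) (a (a (a (l 3) (a (l 3) (b (l 147807565767) (l 17142160)))) (b (a (l 17030904) (l 17082512)) (l 17109064))) (b (l 16982672) (l 17266240)))))), by decide +kernel⟩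

theorem s3_pm_202 : ∃ t, chk3 f_pm_202 t 3 1 1 = true := ex3_b k1_pm_202 k2_pm_202

theorem s4_pm_202 : ∃ t, chk3 f_pm_202 t 1 1 1 = true := ex3_a k0_pm_202 s3_pm_202

theorem c_pm_202 : CertN 0 536870912 1073741824 536870912 335544320 67108864 3 false true false .pp 2 0 2
    ndN0q2 ndN2q2 pcN0 Cut.none Ext.none :=
  certN0 (fam := false) (s1 := true) (s2 := false) (a := 2) (b := 0) (c := 2) (cn := .pp) (n1 := ndN0q2) (n2 := ndN2q2) (pc := pcN0) (cut := Cut.none) (xt := Ext.none) (P1 := 0) (W1 := 536870912) (P2 := 1073741824) (W2 := 536870912) (P3 := 335544320) (W3 := 67108864) (N0 := 3)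
    rfl s4_pm_202

noncomputable def f_pm_203 : ℕ → ℕ → ℕ → ℕ → Bool := onCell 0 536870912 0 1230186008 335544320 67108864
    (rowN 3 0 false true false .up 2 0 3 (qsf 0 536870912 0 1230186008 0) ndN0q2 ndN2q3 pcN0 Cut.none Ext.none)

def k0_pm_203 : ∃ t, chk3 f_pm_203 t 1 1 1 = true :=
  ⟨(b (l 2) (b (l 2) (a (l 3) (b (l 2) (a (l 3) (a (b (a (l 3) (l 2)) (a (l 3) (b (l 138680936551) (a (b (l 16982056) (l 16947472)) (l 16973896))))) (b (l 2) (b (l 17050800) (a (l 16985904) (l 17000984)))))))))), by decide +kernel⟩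

theorem c_pm_203 : CertN 0 536870912 0 1230186008 335544320 67108864 3 false true false .up 2 0 3
    ndN0q2 ndN2q3 pcN0 Cut.none Ext.none :=
  certN0 (fam := false) (s1 := true) (s2 := false) (a := 2) (b := 0) (c := 3) (cn := .up) (n1 := ndN0q2) (n2 := ndN2q3) (pc := pcN0) (cut := Cut.none) (xt := Ext.none) (P1 := 0) (W1 := 536870912) (P2 := 0) (W2 := 1230186008) (P3 := 335544320) (W3 := 67108864) (N0 := 3)
    rfl k0_pm_203

noncomputable def cut_pm_213 : Cut := Cut.of [[⟨0, 1, 0, 67108864⟩, ⟨1, 1, 0, 67108864⟩, ⟨2, 2, 0, 16777216⟩]]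

noncomputable def f_pm_213 : ℕ → ℕ → ℕ → ℕ → Bool := onCell 0 536870912 0 1230186008 335544320 67108864
    (rowN 3 0 false true false .pnn 2 1 3 (qsf 0 536870912 0 1230186008 1) ndN0q2 ndN2q3 pcN1 cut_pm_213 Ext.none)

def k0_pm_213 : ∃ t, chk3 f_pm_213 t 1 1 1 = true :=
  ⟨(b (a (l 3) (a (l 3) (b (a (l 3) (a (l 3) (b (l 6) (a (b (l 6) (a (l 3) (l 282025053415))) (b (l 6) (l 16822632)))))) (a (l 3) (b (a (a (l 3) (l 535428241735)) (b (a (l 271287667703) (l 16818656)) (l 249276038391))) (a (b (l 480667410855) (l 244981136647)) (b (l 16866840) (l 16898280)))))))) (b (a (l 3) (a (l 3) (b (a (l 3) (a (b (l 229411934167) (l 216527416119)) (b (l 16955840) (l 16976272)))) (a (a (l 3) (b (l 3) (l 200421125239))) (b (a (l 198810590231) (l 17020832)) (a (l 17046320) (l 17064672))))))) (a (l 3) (a (l 3) (b (a (a (l 3) (b (l 184315061479) (b (l 171430207719) (l 162840281255)))) (b (a (l 17081272) (l 17102264)) (a (l 17101096) (l 17124688)))) (a (b (a (l 3) (b (l 156397805431)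 (l 150492218759))) (a (l 3) (b (l 156397684599) (l 1)))) (b (a (l 17093344) (l 17119192)) (b (l 17071040) (l 500398026311))))))))), by decide +kernel⟩

theorem c_pm_213 : CertN 0 536870912 0 1230186008 335544320 67108864 3 false true false .pnn 2 1 3
    ndN0q2 ndN2q3 pcN1 cut_pm_213 Ext.none :=
  certN0 (fam := false) (s1 := true) (s2 := false) (a := 2) (b := 1) (c := 3) (cn := .pnn) (n1 := ndN0q2) (n2 := ndN2q3) (pc := pcN1) (cut := cut_pm_213) (xt := Ext.none) (P1 := 0) (W1 := 536870912) (P2 := 0) (W2 := 1230186008) (P3 := 335544320) (W3 := 67108864) (N0 := 3)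
    rfl k0_pm_213

noncomputable def f_mm_001 : ℕ → ℕ → ℕ → ℕ → Bool := onCell 0 536870912 0 536870912 335544320 67108864
    (rowN 3 1 false false false .up 0 0 1 (qsf 0 536870912 536870912 536870912 0) ndN0q0 ndN2q1 pcN0 Cut.none Ext.none)

def k0_mm_001 : ∃ t, chk3 f_mm_001 t 1 1 1 = true :=
  ⟨(l 3), by decide +kernel⟩

theorem c_mm_001 : CertN 0 536870912 536870912 536870912 335544320 67108864 3 false false false .up 0 0 1
    ndN0q0 ndN2q1 pcN0 Cut.none Ext.none :=
  certN1 (fam := false) (s1 := false) (s2 := false) (a := 0) (b := 0) (c := 1) (cn := .up) (n1 := ndN0q0) (n2 := ndN2q1) (pc := pcN0) (cut := Cut.none) (xt := Ext.none) (P1 := 0) (W1 := 536870912) (P2 := 536870912) (W2 := 536870912) (P3 := 335544320) (W3 := 67108864) (N0 := 3)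
    rfl (fun _ => rfl) k0_mm_001

noncomputable def f_mm_011 : ℕ → ℕ → ℕ → ℕ → Bool := onCell 0 536870912 536870912 536870912 335544320 67108864
    (rowN 3 1 false false false .pnn 0 1 1 (qsf 0 536870912 536870912 536870912 1) ndN0q0 ndN2q1 pcN1 Cut.none Ext.none)

def k0_mm_011 : ∃ t, chk3 f_mm_011 t 1 1 1 = true :=
  ⟨(l 5), by decide +kernel⟩

theorem c_mm_011 : CertN 0 536870912 536870912 536870912 335544320 67108864 3 false false false .pnn 0 1 1
    ndN0q0 ndN2q1 pcN1 Cut.none Ext.none :=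
  certN1 (fam := false) (s1 := false) (s2 := false) (a := 0) (b := 1) (c := 1) (cn := .pnn) (n1 := ndN0q0) (n2 := ndN2q1) (pc := pcN1) (cut := Cut.none) (xt := Ext.none) (P1 := 0) (W1 := 536870912) (P2 := 536870912) (W2 := 536870912) (P3 := 335544320) (W3 := 67108864) (N0 := 3)
    rfl (fun _ => rfl) k0_mm_011

noncomputable def f_mm_012 : ℕ → ℕ → ℕ → ℕ → Bool := onCell 0 536870912 1073741824 536870912 335544320 67108864
    (rowN 3 0 false false false .pnp 0 1 2 (qsf 0 536870912 1073741824 536870912 1) ndN0q0 ndN2q2 pcN1 Cut.none Ext.none)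

def k0_mm_012 : ∃ t, chk3 f_mm_012 t 1 1 1 = true :=
  ⟨(l 5), by decide +kernel⟩

theorem c_mm_012 : CertN 0 536870912 1073741824 536870912 335544320 67108864 3 false false false .pnp 0 1 2
    ndN0q0 ndN2q2 pcN1 Cut.none Ext.none :=
  certN0 (fam := false) (s1 := false) (s2 := false) (a := 0) (b := 1) (c := 2) (cn := .pnp) (n1 := ndN0q0) (n2 := ndN2q2) (pc := pcN1) (cut := Cut.none) (xt := Ext.none) (P1 := 0) (W1 := 536870912) (P2 := 1073741824) (W2 := 536870912) (P3 := 335544320) (W3 := 67108864) (N0 := 3)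
    rfl k0_mm_012

noncomputable def f_mm_022 : ℕ → ℕ → ℕ → ℕ → Bool := onCell 0 536870912 1073741824 536870912 335544320 67108864
    (rowN 3 0 false false false .pp 0 2 2 (qsf 0 536870912 1073741824 536870912 2) ndN0q0 ndN2q2 pcN2 Cut.none Ext.none)

def k0_mm_022 : ∃ t, chk3 f_mm_022 t 1 1 1 = true :=
  ⟨(l 5), by decide +kernel⟩

theorem c_mm_022 : CertN 0 536870912 1073741824 536870912 335544320 67108864 3 false false false .pp 0 2 2
    ndN0q0 ndN2q2 pcN2 Cut.none Ext.none :=
  certN0 (fam := false) (s1 := false) (s2 := false) (a := 0) (b := 2) (c := 2) (cn := .pp) (n1 := ndN0q0) (n2 := ndN2q2) (pc := pcN2) (cut := Cut.none) (xt := Ext.none) (P1 := 0) (W1 := 536870912) (P2 := 1073741824) (W2 := 536870912) (P3 := 335544320) (W3 := 67108864) (N0 := 3)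
    rfl k0_mm_022

noncomputable def f_mm_023 : ℕ → ℕ → ℕ → ℕ → Bool := onCell 0 536870912 0 1230186008 335544320 67108864
    (rowN 3 0 false false false .up 0 2 3 (qsf 0 536870912 0 1230186008 2) ndN0q0 ndN2q3 pcN2 Cut.none Ext.none)

def k0_mm_023 : ∃ t, chk3 f_mm_023 t 1 1 1 = true :=
  ⟨(l 5), by decide +kernel⟩

theorem c_mm_023 : CertN 0 536870912 0 1230186008 335544320 67108864 3 false false false .up 0 2 3
    ndN0q0 ndN2q3 pcN2 Cut.none Ext.none :=
  certN0 (fam := false) (s1 := false) (s2 := false) (a := 0) (b := 2) (c := 3) (cn := .up) (n1 := ndN0q0) (n2 := ndN2q3) (pc := pcN2) (cut := Cut.none) (xt := Ext.none) (P1 := 0) (W1 := 536870912) (P2 := 0) (W2 := 1230186008) (P3 := 335544320) (W3 := 67108864) (N0 := 3)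
    rfl k0_mm_023

noncomputable def f_mm_033 : ℕ → ℕ → ℕ → ℕ → Bool := onCell 0 536870912 0 1230186008 335544320 67108864
    (rowN 3 0 false false false .pnn 0 3 3 (qsf 0 536870912 0 1230186008 3) ndN0q0 ndN2q3 pcN3 Cut.none Ext.none)

def k0_mm_033 : ∃ t, chk3 f_mm_033 t 1 1 1 = true :=
  ⟨(l 5), by decide +kernel⟩

theorem c_mm_033 : CertN 0 536870912 0 1230186008 335544320 67108864 3 false false false .pnn 0 3 3
    ndN0q0 ndN2q3 pcN3 Cut.none Ext.none :=
  certN0 (fam := false) (s1 := false) (s2 := false) (a := 0) (b := 3) (c := 3) (cn := .pnn) (n1 := ndN0q0) (n2 := ndN2q3) (pc := pcN3) (cut := Cut.none) (xt := Ext.none) (P1 := 0) (W1 := 536870912) (P2 := 0) (W2 := 1230186008) (P3 := 335544320) (W3 := 67108864) (N0 := 3)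
    rfl k0_mm_033

noncomputable def cut_mm_101 : Cut := Cut.of [[⟨0, 1, 0, 67108864⟩, ⟨1, 0, 0, 67108864⟩, ⟨2, 1, 0, 67108864⟩]]

noncomputable def f_mm_101 : ℕ → ℕ → ℕ → ℕ → Bool := onCell 536870912 536870912 0 536870912 335544320 67108864
    (rowN 3 1 false false false .npn 1 0 1 (qsf 536870912 536870912 536870912 536870912 0) ndN0q1 ndN2q1 pcN0 cut_mm_101 Ext.none)

def k0_mm_101 : ∃ t, chk3 f_mm_101 t 1 1 1 = true :=
  ⟨(a (l 3) (a (l 3) (b (b (a (l 3) (a (l 3) (b (b (l 6) (l 3)) (l 2)))) (l 3)) (l 2)))), by decide +kernel⟩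

theorem c_mm_101 : CertN 536870912 536870912 536870912 536870912 335544320 67108864 3 false false false .npn 1 0 1
    ndN0q1 ndN2q1 pcN0 cut_mm_101 Ext.none :=
  certN1 (fam := false) (s1 := false) (s2 := false) (a := 1) (b := 0) (c := 1) (cn := .npn) (n1 := ndN0q1) (n2 := ndN2q1) (pc := pcN0) (cut := cut_mm_101) (xt := Ext.none) (P1 := 536870912) (W1 := 536870912) (P2 := 536870912) (W2 := 536870912) (P3 := 335544320) (W3 := 67108864) (N0 := 3)
    rfl (fun _ => rfl) k0_mm_101

noncomputable def f_mm_102 : ℕ → ℕ → ℕ → ℕ → Bool := onCell 536870912 536870912 0 536870912 335544320 67108864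
    (rowN 3 1 false false false .npp 1 0 2 (qsf 536870912 536870912 1073741824 536870912 0) ndN0q1 ndN2q2 pcN0 Cut.none Ext.none)

def k0_mm_102 : ∃ t, chk3 f_mm_102 t 1 1 1 = true :=
  ⟨(l 3), by decide +kernel⟩

theorem c_mm_102 : CertN 536870912 536870912 1073741824 536870912 335544320 67108864 3 false false false .npp 1 0 2
    ndN0q1 ndN2q2 pcN0 Cut.none Ext.none :=
  certN1 (fam := false) (s1 := false) (s2 := false) (a := 1) (b := 0) (c := 2) (cn := .npp) (n1 := ndN0q1) (n2 := ndN2q2) (pc := pcN0) (cut := Cut.none) (xt := Ext.none) (P1 := 536870912) (W1 := 536870912) (P2 := 1073741824) (W2 := 536870912) (P3 := 335544320) (W3 := 67108864) (N0 := 3)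
    rfl (fun _ => rfl) k0_mm_102

noncomputable def f_mm_112 : ℕ → ℕ → ℕ → ℕ → Bool := onCell 536870912 536870912 1073741824 536870912 335544320 67108864
    (rowN 3 2 false false false .dn 1 1 2 (qsf 536870912 536870912 1073741824 536870912 1) ndN0q1 ndN2q2 pcN1 Cut.none Ext.none)

def k0_mm_112 : ∃ t, chk3 f_mm_112 t 1 1 1 = true :=
  ⟨(l 5), by decide +kernel⟩

theorem c_mm_112 : CertN 536870912 536870912 1073741824 536870912 335544320 67108864 3 false false false .dn 1 1 2
    ndN0q1 ndN2q2 pcN1 Cut.none Ext.none :=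
  certN2 (fam := false) (s1 := false) (s2 := false) (a := 1) (b := 1) (c := 2) (cn := .dn) (n1 := ndN0q1) (n2 := ndN2q2) (pc := pcN1) (cut := Cut.none) (xt := Ext.none) (P1 := 536870912) (W1 := 536870912) (P2 := 1073741824) (W2 := 536870912) (P3 := 335544320) (W3 := 67108864) (N0 := 3)
    rfl (fun _ => rfl) k0_mm_112

noncomputable def f_mm_113 : ℕ → ℕ → ℕ → ℕ → Bool := onCell 536870912 536870912 0 1230186008 335544320 67108864
    (rowN 3 0 false false false .nn 1 1 3 (qsf 536870912 536870912 0 1230186008 1) ndN0q1 ndN2q3 pcN1 Cut.none Ext.none)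

def k0_mm_113 : ∃ t, chk3 f_mm_113 t 1 1 1 = true :=
  ⟨(b (l 5) (l 5)), by decide +kernel⟩

theorem c_mm_113 : CertN 536870912 536870912 0 1230186008 335544320 67108864 3 false false false .nn 1 1 3
    ndN0q1 ndN2q3 pcN1 Cut.none Ext.none :=
  certN0 (fam := false) (s1 := false) (s2 := false) (a := 1) (b := 1) (c := 3) (cn := .nn) (n1 := ndN0q1) (n2 := ndN2q3) (pc := pcN1) (cut := Cut.none) (xt := Ext.none) (P1 := 536870912) (W1 := 536870912) (P2 := 0) (W2 := 1230186008) (P3 := 335544320) (W3 := 67108864) (N0 := 3)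
    rfl k0_mm_113

noncomputable def f_mm_123 : ℕ → ℕ → ℕ → ℕ → Bool := onCell 536870912 536870912 0 1230186008 335544320 67108864
    (rowN 3 0 false false false .npn 1 2 3 (qsf 536870912 536870912 0 1230186008 2) ndN0q1 ndN2q3 pcN2 Cut.none Ext.none)

def k0_mm_123 : ∃ t, chk3 f_mm_123 t 1 1 1 = true :=
  ⟨(b (l 5) (l 5)), by decide +kernel⟩

theorem c_mm_123 : CertN 536870912 536870912 0 1230186008 335544320 67108864 3 false false false .npn 1 2 3
    ndN0q1 ndN2q3 pcN2 Cut.none Ext.none :=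
  certN0 (fam := false) (s1 := false) (s2 := false) (a := 1) (b := 2) (c := 3) (cn := .npn) (n1 := ndN0q1) (n2 := ndN2q3) (pc := pcN2) (cut := Cut.none) (xt := Ext.none) (P1 := 536870912) (W1 := 536870912) (P2 := 0) (W2 := 1230186008) (P3 := 335544320) (W3 := 67108864) (N0 := 3)
    rfl k0_mm_123

noncomputable def f_mm_133 : ℕ → ℕ → ℕ → ℕ → Bool := onCell 1610612736 536870912 0 1230186008 335544320 67108864
    (rowN 3 2 false false false .dn 1 3 3 (qsf 536870912 536870912 0 1230186008 3) ndN0q1 ndN2q3 pcN3 Cut.none Ext.none)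

def k0_mm_133 : ∃ t, chk3 f_mm_133 t 1 1 1 = true :=
  ⟨(l 5), by decide +kernel⟩

theorem c_mm_133 : CertN 536870912 536870912 0 1230186008 335544320 67108864 3 false false false .dn 1 3 3
    ndN0q1 ndN2q3 pcN3 Cut.none Ext.none :=
  certN2 (fam := false) (s1 := false) (s2 := false) (a := 1) (b := 3) (c := 3) (cn := .dn) (n1 := ndN0q1) (n2 := ndN2q3) (pc := pcN3) (cut := Cut.none) (xt := Ext.none) (P1 := 536870912) (W1 := 536870912) (P2 := 0) (W2 := 1230186008) (P3 := 335544320) (W3 := 67108864) (N0 := 3)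
    rfl (fun _ => rfl) k0_mm_133

noncomputable def f_mm_202 : ℕ → ℕ → ℕ → ℕ → Bool := onCell 0 536870912 1073741824 536870912 335544320 67108864
    (rowN 3 0 false false false .pp 2 0 2 (qsf 0 536870912 1073741824 536870912 0) ndN0q2 ndN2q2 pcN0 Cut.none Ext.none)

def k0_mm_202 : ∃ t, chk3 f_mm_202 t 1 1 1 = true :=
  ⟨(l 3), by decide +kernel⟩

theorem c_mm_202 : CertN 0 536870912 1073741824 536870912 335544320 67108864 3 false false false .pp 2 0 2
    ndN0q2 ndN2q2 pcN0 Cut.none Ext.none :=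
  certN0 (fam := false) (s1 := false) (s2 := false) (a := 2) (b := 0) (c := 2) (cn := .pp) (n1 := ndN0q2) (n2 := ndN2q2) (pc := pcN0) (cut := Cut.none) (xt := Ext.none) (P1 := 0) (W1 := 536870912) (P2 := 1073741824) (W2 := 536870912) (P3 := 335544320) (W3 := 67108864) (N0 := 3)
    rfl k0_mm_202

noncomputable def f_mm_203 : ℕ → ℕ → ℕ → ℕ → Bool := onCell 0 536870912 0 1230186008 335544320 67108864
    (rowN 3 0 false false false .up 2 0 3 (qsf 0 536870912 0 1230186008 0) ndN0q2 ndN2q3 pcN0 Cut.none Ext.none)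

def k0_mm_203 : ∃ t, chk3 f_mm_203 t 1 1 1 = true :=
  ⟨(b (l 2) (l 3)), by decide +kernel⟩

theorem c_mm_203 : CertN 0 536870912 0 1230186008 335544320 67108864 3 false false false .up 2 0 3
    ndN0q2 ndN2q3 pcN0 Cut.none Ext.none :=
  certN0 (fam := false) (s1 := false) (s2 := false) (a := 2) (b := 0) (c := 3) (cn := .up) (n1 := ndN0q2) (n2 := ndN2q3) (pc := pcN0) (cut := Cut.none) (xt := Ext.none) (P1 := 0) (W1 := 536870912) (P2 := 0) (W2 := 1230186008) (P3 := 335544320) (W3 := 67108864) (N0 := 3)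
    rfl k0_mm_203

noncomputable def f_mm_213 : ℕ → ℕ → ℕ → ℕ → Bool := onCell 0 536870912 0 1230186008 335544320 67108864
    (rowN 3 0 false false false .pnn 2 1 3 (qsf 0 536870912 0 1230186008 1) ndN0q2 ndN2q3 pcN1 Cut.none Ext.none)

def k0_mm_213 : ∃ t, chk3 f_mm_213 t 1 1 1 = true :=
  ⟨(b (a (l 3) (l 5)) (l 3)), by decide +kernel⟩

theorem c_mm_213 : CertN 0 536870912 0 1230186008 335544320 67108864 3 false false false .pnn 2 1 3
    ndN0q2 ndN2q3 pcN1 Cut.none Ext.none :=
  certN0 (fam := false) (s1 := false) (s2 := false) (a := 2) (b := 1) (c := 3) (cn := .pnn) (n1 := ndN0q2) (n2 := ndN2q3) (pc := pcN1) (cut := Cut.none) (xt := Ext.none) (P1 := 0) (W1 := 536870912) (P2 := 0) (W2 := 1230186008) (P3 := 335544320) (W3 := 67108864) (N0 := 3)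
    rfl k0_mm_213

end Pool.Agent.Strip051.G.I5_16_3_8.Tab.C.NB02

namespace Pool.Agent.Strip051.G.I5_16_3_8.Tab.C.NB03

open Pool.Agent.Strip051.PB Pool.Agent.Strip051.PB.T
open Pool.Agent.Strip051.G.I5_16_3_8.Tab

noncomputable def f_pp_001 : ℕ → ℕ → ℕ → ℕ → Bool := onCell 0 536870912 0 536870912 335544320 67108864
    (rowN 3 1 false true true .up 0 0 1 (qsf 0 536870912 536870912 536870912 0) ndN0q0 ndN3q1 pcN0 Cut.none Ext.none)

def k0_pp_001 : ∃ t, chk3 f_pp_001 t 1 1 1 = true :=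
  ⟨(l 3), by decide +kernel⟩

theorem c_pp_001 : CertN 0 536870912 536870912 536870912 335544320 67108864 3 false true true .up 0 0 1
    ndN0q0 ndN3q1 pcN0 Cut.none Ext.none :=
  certN1 (fam := false) (s1 := true) (s2 := true) (a := 0) (b := 0) (c := 1) (cn := .up) (n1 := ndN0q0) (n2 := ndN3q1) (pc := pcN0) (cut := Cut.none) (xt := Ext.none) (P1 := 0) (W1 := 536870912) (P2 := 536870912) (W2 := 536870912) (P3 := 335544320) (W3 := 67108864) (N0 := 3)
    rfl (fun _ => rfl) k0_pp_001

noncomputable def cut_pp_011 : Cut := Cut.of [[⟨0, 0, 0, 67108864⟩, ⟨1, 1, 0, 67108864⟩, ⟨2, 1, 0, 67108864⟩]]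

noncomputable def f_pp_011 : ℕ → ℕ → ℕ → ℕ → Bool := onCell 0 536870912 536870912 536870912 335544320 67108864
    (rowN 3 1 false true true .pnn 0 1 1 (qsf 0 536870912 536870912 536870912 1) ndN0q0 ndN3q1 pcN1 cut_pp_011 Ext.none)

def k0_pp_011 : ∃ t, chk3 f_pp_011 t 1 1 1 = true :=
  ⟨(b (l 3) (a (b (l 3) (a (b (l 3) (a (b (l 3) (a (l 6) (l 3))) (l 3))) (l 3))) (l 3))), by decide +kernel⟩

theorem c_pp_011 : CertN 0 536870912 536870912 536870912 335544320 67108864 3 false true true .pnn 0 1 1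
    ndN0q0 ndN3q1 pcN1 cut_pp_011 Ext.none :=
  certN1 (fam := false) (s1 := true) (s2 := true) (a := 0) (b := 1) (c := 1) (cn := .pnn) (n1 := ndN0q0) (n2 := ndN3q1) (pc := pcN1) (cut := cut_pp_011) (xt := Ext.none) (P1 := 0) (W1 := 536870912) (P2 := 536870912) (W2 := 536870912) (P3 := 335544320) (W3 := 67108864) (N0 := 3)
    rfl (fun _ => rfl) k0_pp_011

noncomputable def f_pp_012 : ℕ → ℕ → ℕ → ℕ → Bool := onCell 0 536870912 536870912 536870912 335544320 67108864
    (rowN 3 1 false true true .pnp 0 1 2 (qsf 0 536870912 1073741824 536870912 1) ndN0q0 ndN3q2 pcN1 Cut.none Ext.none)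

def k0_pp_012 : ∃ t, chk3 f_pp_012 t 1 1 1 = true :=
  ⟨(l 3), by decide +kernel⟩

theorem c_pp_012 : CertN 0 536870912 1073741824 536870912 335544320 67108864 3 false true true .pnp 0 1 2
    ndN0q0 ndN3q2 pcN1 Cut.none Ext.none :=
  certN1 (fam := false) (s1 := true) (s2 := true) (a := 0) (b := 1) (c := 2) (cn := .pnp) (n1 := ndN0q0) (n2 := ndN3q2) (pc := pcN1) (cut := Cut.none) (xt := Ext.none) (P1 := 0) (W1 := 536870912) (P2 := 1073741824) (W2 := 536870912) (P3 := 335544320) (W3 := 67108864) (N0 := 3)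
    rfl (fun _ => rfl) k0_pp_012

noncomputable def f_pp_022 : ℕ → ℕ → ℕ → ℕ → Bool := onCell 0 536870912 1073741824 536870912 335544320 67108864
    (rowN 3 1 false true true .pp 0 2 2 (qsf 0 536870912 1073741824 536870912 2) ndN0q0 ndN3q2 pcN2 Cut.none Ext.none)

def k0_pp_022 : ∃ t, chk3 f_pp_022 t 2 1 1 = true :=
  ⟨(b (b (l 3) (b (b (b (l 3) (a (b (l 3) (b (a (a (l 3) (l 16442640)) (a (l 16478624) (l 16497952))) (a (b (a (l 16443856) (l 16455208)) (a (l 16439560) (l 16450976))) (b (a (l 16470392) (l 16489944)) (l 16475152))))) (b (a (l 142438263159) (l 97341250471)) (b (a (l 16577744) (l 16606928)) (b (a (l 16570184) (l 16604704)) (a (l 16524344) (l 16609360))))))) (a (a (a (l 16425904) (l 16406312)) (a (l 16432624) (l 16452952))) (a (a (l 16478288) (l 16509144)) (l 16650984)))) (a (a (a (l 16365984) (b (l 16332360) (l 16291144))) (b (a (l 16370224) (l 16391816)) (l 16361408))) (a (b (l 16454648) (l 16552024)) (a (l 16720056) (l 16828384)))))) (b (a (a (b (a (l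 16206896) (l 16179712)) (a (l 16138984) (l 16431528))) (b (a (l 16249224) (l 16495184)) (a (l 16644112) (l 16800440)))) (b (a (a (l 16674696) (l 16807128)) (l 16944416)) (a (l 16962304) (l 17088688)))) (a (b (a (a (l 16618632) (l 16799232)) (a (l 16932568) (l 17031672))) (a (b (l 16944944) (l 17066360)) (l 17175472))) (b (a (b (l 17093768) (l 2)) (l 2)) (l 2))))), by decide +kernel⟩

def k1_pp_022 : ∃ t, chk3 f_pp_022 t 3 1 1 = true :=
  ⟨(b (b (b (l 3) (a (l 3) (b (l 3) (a (l 3) (l 2))))) (b (b (b (a (a (a (l 3) (l 161766042135)) (b (l 3) (l 129554002759))) (a (a (l 134386015031) (l 2)) (l 2))) (a (b (a (a (l 16781208) (l 16867392)) (a (l 16927744) (l 16970872))) (b (a (a (l 16787600) (l 16871408)) (l 16953160)) (a (b (a (l 16791288) (l 16873960)) (l 16837968)) (b (l 16954792) (l 16956408))))) (l 2))) (a (a (a (l 16821312) (l 16897288)) (l 16972152)) (l 2))) (a (a (a (l 16909048) (l 16967824)) (l 17026224)) (l 2)))) (b (b (a (a (l 17051776) (l 2)) (l 2)) (l 2)) (l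 2))), by decide +kernel⟩

theorem s2_pp_022 : ∃ t, chk3 f_pp_022 t 1 1 1 = true := ex3_a k0_pp_022 k1_pp_022

theorem c_pp_022 : CertN 0 536870912 1073741824 536870912 335544320 67108864 3 false true true .pp 0 2 2
    ndN0q0 ndN3q2 pcN2 Cut.none Ext.none :=
  certN1 (fam := false) (s1 := true) (s2 := true) (a := 0) (b := 2) (c := 2) (cn := .pp) (n1 := ndN0q0) (n2 := ndN3q2) (pc := pcN2) (cut := Cut.none) (xt := Ext.none) (P1 := 0) (W1 := 536870912) (P2 := 1073741824) (W2 := 536870912) (P3 := 335544320) (W3 := 67108864) (N0 := 3)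
    rfl (fun _ => rfl) s2_pp_022

noncomputable def f_pp_023 : ℕ → ℕ → ℕ → ℕ → Bool := onCell 1073741824 536870912 0 1230186008 335544320 67108864
    (rowN 3 2 false true true .up 0 2 3 (qsf 0 536870912 0 1230186008 2) ndN0q0 ndN3q3 pcN2 Cut.none Ext.none)

def k0_pp_023 : ∃ t, chk3 f_pp_023 t 1 1 1 = true :=
  ⟨(b (a (l 2) (a (l 2) (a (b (l 2) (b (l 17074568) (l 17081824))) (b (l 17172776) (b (l 17207824) (l 17253152)))))) (b (a (a (l 2) (a (l 2) (b (l 2) (b (l 2) (l 17020776))))) (a (a (b (l 2) (b (l 17055888) (l 17083336))) (b (l 17062416) (l 17170440))) (a (b (a (l 17092280) (l 17156272)) (l 17190384)) (b (l 17297552) (l 17315928))))) (a (a (b (l 2) (a (l 3) (a (l 3) (b (a (l 3) (b (l 174114254599) (l 3))) (l 3))))) (a (b (b (a (l 2) (l 16992560)) (a (a (b (l 2) (l 16955248)) (a (l 16966072) (a (l 16970424) (a (l 16973016) (l 16974984))))) (l 16992704))) (a (a (b (b (l 151565760471) (l 142975780711)) (b (a (l 16907992) (l 16916584)) (a (l 3) (b (l 16896120) (l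 16837376))))) (a (b (l 16949936) (b (l 16925368) (b (l 16905784) (l 16890152)))) (a (b (l 16955648) (b (l 16932256) (l 16906008))) (b (a (l 16958784) (l 16961072)) (a (b (l 16935776) (l 16909944)) (b (l 16938160) (l 16912488))))))) (b (b (l 16985552) (l 16975392)) (b (l 16958320) (l 16934224))))) (b (b (l 17039600) (a (l 17029208) (l 17067144))) (b (b (l 17042336) (l 17031856)) (b (l 17015600) (a (l 16975056) (l 17016640))))))) (a (a (b (b (l 17107784) (l 17119448)) (b (b (l 17113768) (l 17105256)) (b (l 17094112) (l 17079904)))) (b (b (l 17170240) (l 17183184)) (b (l 17182656) (l 17168032)))) (b (a (b (l 17228640) (l 17247488)) (l 17405208)) (a (b (l 17255832) (l 17241440)) (b (l 17318096) (l 17304952)))))))), by decide +kernel⟩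

theorem c_pp_023 : CertN 0 536870912 0 1230186008 335544320 67108864 3 false true true .up 0 2 3
    ndN0q0 ndN3q3 pcN2 Cut.none Ext.none :=
  certN2 (fam := false) (s1 := true) (s2 := true) (a := 0) (b := 2) (c := 3) (cn := .up) (n1 := ndN0q0) (n2 := ndN3q3) (pc := pcN2) (cut := Cut.none) (xt := Ext.none) (P1 := 0) (W1 := 536870912) (P2 := 0) (W2 := 1230186008) (P3 := 335544320) (W3 := 67108864) (N0 := 3)
    rfl (fun _ => rfl) k0_pp_023

noncomputable def f_pp_033 : ℕ → ℕ → ℕ → ℕ → Bool := onCell 1610612736 536870912 0 1230186008 335544320 67108864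
    (rowN 3 2 false true true .pnn 0 3 3 (qsf 0 536870912 0 1230186008 3) ndN0q0 ndN3q3 pcN3 Cut.none Ext.none)

def k0_pp_033 : ∃ t, chk3 f_pp_033 t 1 1 1 = true :=
  ⟨(a (b (a (b (l 17092016) (b (l 17067888) (l 17119064))) (b (l 17143224) (a (l 17168560) (l 17209704)))) (b (a (b (a (l 17171840) (l 17213864)) (a (l 17253512) (l 17310256))) (b (l 17279280) (l 17373896))) (b (a (b (l 17351928) (l 17401288)) (l 17479696)) (a (b (l 17455776) (l 17514176)) (l 191698566871))))) (a (b (b (a (l 17189344) (l 4)) (a (l 17240120) (l 17268656))) (b (a (l 17386008) (l 17415152)) (l 1))) (b (b (l 4) (l 4)) (a (b (l 17440096) (l 1)) (l 1))))), by decide +kernel⟩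

theorem c_pp_033 : CertN 0 536870912 0 1230186008 335544320 67108864 3 false true true .pnn 0 3 3
    ndN0q0 ndN3q3 pcN3 Cut.none Ext.none :=
  certN2 (fam := false) (s1 := true) (s2 := true) (a := 0) (b := 3) (c := 3) (cn := .pnn) (n1 := ndN0q0) (n2 := ndN3q3) (pc := pcN3) (cut := Cut.none) (xt := Ext.none) (P1 := 0) (W1 := 536870912) (P2 := 0) (W2 := 1230186008) (P3 := 335544320) (W3 := 67108864) (N0 := 3)
    rfl (fun _ => rfl) k0_pp_033

noncomputable def f_pp_101 : ℕ → ℕ → ℕ → ℕ → Bool := onCell 536870912 536870912 536870912 536870912 335544320 67108864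
    (rowN 3 0 false true true .npn 1 0 1 (qsf 536870912 536870912 536870912 536870912 0) ndN0q1 ndN3q1 pcN0 Cut.none Ext.none)

def k0_pp_101 : ∃ t, chk3 f_pp_101 t 1 1 1 = true :=
  ⟨(a (l 3) (l 5)), by decide +kernel⟩

theorem c_pp_101 : CertN 536870912 536870912 536870912 536870912 335544320 67108864 3 false true true .npn 1 0 1
    ndN0q1 ndN3q1 pcN0 Cut.none Ext.none :=
  certN0 (fam := false) (s1 := true) (s2 := true) (a := 1) (b := 0) (c := 1) (cn := .npn) (n1 := ndN0q1) (n2 := ndN3q1) (pc := pcN0) (cut := Cut.none) (xt := Ext.none) (P1 := 536870912) (W1 := 536870912) (P2 := 536870912) (W2 := 536870912) (P3 := 335544320) (W3 := 67108864) (N0 := 3)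
    rfl k0_pp_101

noncomputable def f_pp_102 : ℕ → ℕ → ℕ → ℕ → Bool := onCell 536870912 536870912 1073741824 536870912 335544320 67108864
    (rowN 3 0 false true true .npp 1 0 2 (qsf 536870912 536870912 1073741824 536870912 0) ndN0q1 ndN3q2 pcN0 Cut.none Ext.none)

def k0_pp_102 : ∃ t, chk3 f_pp_102 t 1 1 1 = true :=
  ⟨(l 3), by decide +kernel⟩

theorem c_pp_102 : CertN 536870912 536870912 1073741824 536870912 335544320 67108864 3 false true true .npp 1 0 2
    ndN0q1 ndN3q2 pcN0 Cut.none Ext.none :=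
  certN0 (fam := false) (s1 := true) (s2 := true) (a := 1) (b := 0) (c := 2) (cn := .npp) (n1 := ndN0q1) (n2 := ndN3q2) (pc := pcN0) (cut := Cut.none) (xt := Ext.none) (P1 := 536870912) (W1 := 536870912) (P2 := 1073741824) (W2 := 536870912) (P3 := 335544320) (W3 := 67108864) (N0 := 3)
    rfl k0_pp_102

noncomputable def f_pp_112 : ℕ → ℕ → ℕ → ℕ → Bool := onCell 536870912 536870912 1073741824 536870912 335544320 67108864
    (rowN 3 0 false true true .dn 1 1 2 (qsf 536870912 536870912 1073741824 536870912 1) ndN0q1 ndN3q2 pcN1 Cut.none Ext.none)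

def k0_pp_112 : ∃ t, chk3 f_pp_112 t 1 1 1 = true :=
  ⟨(l 3), by decide +kernel⟩

theorem c_pp_112 : CertN 536870912 536870912 1073741824 536870912 335544320 67108864 3 false true true .dn 1 1 2
    ndN0q1 ndN3q2 pcN1 Cut.none Ext.none :=
  certN0 (fam := false) (s1 := true) (s2 := true) (a := 1) (b := 1) (c := 2) (cn := .dn) (n1 := ndN0q1) (n2 := ndN3q2) (pc := pcN1) (cut := Cut.none) (xt := Ext.none) (P1 := 536870912) (W1 := 536870912) (P2 := 1073741824) (W2 := 536870912) (P3 := 335544320) (W3 := 67108864) (N0 := 3)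
    rfl k0_pp_112

noncomputable def cut_pp_113 : Cut := Cut.of [[⟨0, 1, 0, 67108864⟩, ⟨1, 1, 0, 67108864⟩, ⟨2, 2, 0, 16777216⟩]]

noncomputable def f_pp_113 : ℕ → ℕ → ℕ → ℕ → Bool := onCell 536870912 536870912 0 1230186008 335544320 67108864
    (rowN 3 2 false true true .nn 1 1 3 (qsf 536870912 536870912 0 1230186008 1) ndN0q1 ndN3q3 pcN1 cut_pp_113 Ext.none)

def k0_pp_113 : ∃ t, chk3 f_pp_113 t 1 1 1 = true :=
  ⟨(b (a (l 2) (a (l 2) (b (a (l 2) (a (l 2) (b (l 6) (l 3)))) (l 3)))) (a (b (l 3) (a (b (l 2) (l 3)) (l 3))) (b (l 3) (l 3)))), by decide +kernel⟩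

theorem c_pp_113 : CertN 536870912 536870912 0 1230186008 335544320 67108864 3 false true true .nn 1 1 3
    ndN0q1 ndN3q3 pcN1 cut_pp_113 Ext.none :=
  certN2 (fam := false) (s1 := true) (s2 := true) (a := 1) (b := 1) (c := 3) (cn := .nn) (n1 := ndN0q1) (n2 := ndN3q3) (pc := pcN1) (cut := cut_pp_113) (xt := Ext.none) (P1 := 536870912) (W1 := 536870912) (P2 := 0) (W2 := 1230186008) (P3 := 335544320) (W3 := 67108864) (N0 := 3)
    rfl (fun _ => rfl) k0_pp_113

noncomputable def cut_pp_123 : Cut := Cut.of [[⟨0, 1, 0, 67108864⟩, ⟨1, 1, 0, 67108864⟩, ⟨2, 2, 0, 16777216⟩]]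

noncomputable def f_pp_123 : ℕ → ℕ → ℕ → ℕ → Bool := onCell 1073741824 536870912 0 1230186008 335544320 67108864
    (rowN 3 2 false true true .npn 1 2 3 (qsf 536870912 536870912 0 1230186008 2) ndN0q1 ndN3q3 pcN2 cut_pp_123 Ext.none)

def k0_pp_123 : ∃ t, chk3 f_pp_123 t 1 2 1 = true :=
  ⟨(b (a (a (a (a (b (l 6) (b (l 6) (l 3))) (b (a (l 6) (l 16788024)) (a (b (l 6) (a (b (a (l 254107743847) (l 16795128)) (l 294909986103)) (b (l 16798272) (l 173040253463)))) (b (l 16797912) (a (l 16803184) (l 16806272)))))) (a (b (l 16790488) (l 16950888)) (l 16884752))) (a (a (l 17007528) (l 16833736)) (l 16878840))) (a (a (l 16950120) (l 17022992)) (a (l 17313632) (l 17173064)))) (a (a (a (a (l 3) (b (a (b (a (l 3) (a (l 285246323303) (l 169282169271))) (l 3)) (a (b (l 151028611143) (l 247665383607)) (b (l 16814896) (l 154249814679)))) (a (l 3) (b (l 248202344455) (l 3))))) (a (b (a (b (l 16819056) (l 16831224)) (l 16915200)) (b (a (a (l 16904608) (l 16845816)) (l 16851512)) (a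 (a (l 247128678119) (l 16861864)) (l 16867936)))) (b (l 17086776) (a (b (l 16858136) (l 16875984)) (l 16977096))))) (a (a (b (l 16832536) (a (l 16873368) (l 16871136))) (l 17052360)) (b (l 16880144) (l 16916944)))) (a (a (b (l 16934952) (l 16965712)) (l 17189800)) (a (b (l 17074560) (l 17082008)) (b (l 17208080) (l 17254944)))))), by decide +kernel⟩

def k1_pp_123 : ∃ t, chk3 f_pp_123 t 1 3 1 = true :=
  ⟨(b (a (a (a (l 3) (b (b (a (a (l 3) (l 137070152151)) (a (l 16894096) (l 16902144))) (a (a (l 3) (l 189683556263)) (a (l 16913144) (l 16920448)))) (a (l 3) (a (b (l 181630565847) (l 170356309111)) (b (l 16937744) (l 178409426455)))))) (a (a (a (b (l 17169984) (b (l 16946344) (l 16958352))) (a (b (l 16921856) (b (l 16953848) (l 16966040))) (b (l 16917760) (a (l 16983904) (a (l 16962792) (l 16961488)))))) (b (l 16926488) (b (l 16961272) (l 16981048)))) (b (b (l 16951008) (l 16975344)) (b (l 16998936) (l 17020784))))) (a (a (b (l 17057720) (b (l 17055952) (l 17083704)))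 (b (l 17062616) (b (l 17112992) (l 1)))) (a (b (l 220151938119) (l 1)) (l 1)))) (a (a (a (l 3) (a (l 3) (b (b (a (l 3) (b (l 16956648) (l 16956616))) (a (l 3) (b (l 16974360) (l 151028856567)))) (b (a (l 3) (b (l 175724888327) (l 1))) (l 1))))) (b (a (a (a (b (l 16984544) (b (l 16960736) (l 16955256))) (a (b (l 16970144) (l 16966088)) (a (b (l 16974312) (l 16970440)) (a (b (l 16976712) (l 16973040)) (b (l 16978208) (l 16975008)))))) (b (l 16992568) (l 16992824))) (b (a (l 17023496) (l 17056200)) (l 1))) (a (a (a (b (b (l 45667999671) (l 1)) (l 1)) (l 1)) (l 1)) (l 1)))) (l 1))), by decide +kernel⟩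

theorem s2_pp_123 : ∃ t, chk3 f_pp_123 t 1 1 1 = true := ex3_b k0_pp_123 k1_pp_123

theorem c_pp_123 : CertN 536870912 536870912 0 1230186008 335544320 67108864 3 false true true .npn 1 2 3
    ndN0q1 ndN3q3 pcN2 cut_pp_123 Ext.none :=
  certN2 (fam := false) (s1 := true) (s2 := true) (a := 1) (b := 2) (c := 3) (cn := .npn) (n1 := ndN0q1) (n2 := ndN3q3) (pc := pcN2) (cut := cut_pp_123) (xt := Ext.none) (P1 := 536870912) (W1 := 536870912) (P2 := 0) (W2 := 1230186008) (P3 := 335544320) (W3 := 67108864) (N0 := 3)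
    rfl (fun _ => rfl) s2_pp_123

noncomputable def f_pp_133 : ℕ → ℕ → ℕ → ℕ → Bool := onCell 1610612736 536870912 0 1230186008 335544320 67108864
    (rowN 3 2 false true true .dn 1 3 3 (qsf 536870912 536870912 0 1230186008 3) ndN0q1 ndN3q3 pcN3 Cut.none Ext.none)

def k0_pp_133 : ∃ t, chk3 f_pp_133 t 1 1 1 = true :=
  ⟨(b (b (a (a (l 17265360) (l 1)) (l 1)) (l 1)) (l 1)), by decide +kernel⟩

theorem c_pp_133 : CertN 536870912 536870912 0 1230186008 335544320 67108864 3 false true true .dn 1 3 3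
    ndN0q1 ndN3q3 pcN3 Cut.none Ext.none :=
  certN2 (fam := false) (s1 := true) (s2 := true) (a := 1) (b := 3) (c := 3) (cn := .dn) (n1 := ndN0q1) (n2 := ndN3q3) (pc := pcN3) (cut := Cut.none) (xt := Ext.none) (P1 := 536870912) (W1 := 536870912) (P2 := 0) (W2 := 1230186008) (P3 := 335544320) (W3 := 67108864) (N0 := 3)
    rfl (fun _ => rfl) k0_pp_133

noncomputable def f_pp_202 : ℕ → ℕ → ℕ → ℕ → Bool := onCell 0 536870912 1073741824 536870912 335544320 67108864
    (rowN 3 0 false true true .pp 2 0 2 (qsf 0 536870912 1073741824 536870912 0) ndN0q2 ndN3q2 pcN0 Cut.none Ext.none)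

def k0_pp_202 : ∃ t, chk3 f_pp_202 t 1 1 1 = true :=
  ⟨(a (l 5) (l 3)), by decide +kernel⟩

theorem c_pp_202 : CertN 0 536870912 1073741824 536870912 335544320 67108864 3 false true true .pp 2 0 2
    ndN0q2 ndN3q2 pcN0 Cut.none Ext.none :=
  certN0 (fam := false) (s1 := true) (s2 := true) (a := 2) (b := 0) (c := 2) (cn := .pp) (n1 := ndN0q2) (n2 := ndN3q2) (pc := pcN0) (cut := Cut.none) (xt := Ext.none) (P1 := 0) (W1 := 536870912) (P2 := 1073741824) (W2 := 536870912) (P3 := 335544320) (W3 := 67108864) (N0 := 3)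
    rfl k0_pp_202

noncomputable def f_pp_203 : ℕ → ℕ → ℕ → ℕ → Bool := onCell 0 536870912 0 1230186008 335544320 67108864
    (rowN 3 0 false true true .up 2 0 3 (qsf 0 536870912 0 1230186008 0) ndN0q2 ndN3q3 pcN0 Cut.none Ext.none)

def k0_pp_203 : ∃ t, chk3 f_pp_203 t 1 1 1 = true :=
  ⟨(b (l 2) (l 3)), by decide +kernel⟩

theorem c_pp_203 : CertN 0 536870912 0 1230186008 335544320 67108864 3 false true true .up 2 0 3
    ndN0q2 ndN3q3 pcN0 Cut.none Ext.none :=
  certN0 (fam := false) (s1 := true) (s2 := true) (a := 2) (b := 0) (c := 3) (cn := .up) (n1 := ndN0q2) (n2 := ndN3q3) (pc := pcN0) (cut := Cut.none) (xt := Ext.none) (P1 := 0) (W1 := 536870912) (P2 := 0) (W2 := 1230186008) (P3 := 335544320) (W3 := 67108864) (N0 := 3)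
    rfl k0_pp_203

noncomputable def cut_pp_213 : Cut := Cut.of [[⟨0, 1, 0, 67108864⟩, ⟨1, 1, 0, 67108864⟩, ⟨2, 2, 0, 16777216⟩]]

noncomputable def f_pp_213 : ℕ → ℕ → ℕ → ℕ → Bool := onCell 0 536870912 0 1230186008 335544320 67108864
    (rowN 3 0 false true true .pnn 2 1 3 (qsf 0 536870912 0 1230186008 1) ndN0q2 ndN3q3 pcN1 cut_pp_213 Ext.none)

def k0_pp_213 : ∃ t, chk3 f_pp_213 t 1 1 1 = true :=
  ⟨(b (a (l 3) (b (a (l 3) (a (l 3) (b (l 6) (l 3)))) (l 3))) (l 3)), by decide +kernel⟩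

theorem c_pp_213 : CertN 0 536870912 0 1230186008 335544320 67108864 3 false true true .pnn 2 1 3
    ndN0q2 ndN3q3 pcN1 cut_pp_213 Ext.none :=
  certN0 (fam := false) (s1 := true) (s2 := true) (a := 2) (b := 1) (c := 3) (cn := .pnn) (n1 := ndN0q2) (n2 := ndN3q3) (pc := pcN1) (cut := cut_pp_213) (xt := Ext.none) (P1 := 0) (W1 := 536870912) (P2 := 0) (W2 := 1230186008) (P3 := 335544320) (W3 := 67108864) (N0 := 3)
    rfl k0_pp_213

noncomputable def f_pm_001 : ℕ → ℕ → ℕ → ℕ → Bool := onCell 0 536870912 536870912 536870912 335544320 67108864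
    (rowN 3 0 false true false .up 0 0 1 (qsf 0 536870912 536870912 536870912 0) ndN0q0 ndN3q1 pcN0 Cut.none Ext.none)

def k0_pm_001 : ∃ t, chk3 f_pm_001 t 1 1 1 = true :=
  ⟨(l 4), by decide +kernel⟩

theorem c_pm_001 : CertN 0 536870912 536870912 536870912 335544320 67108864 3 false true false .up 0 0 1
    ndN0q0 ndN3q1 pcN0 Cut.none Ext.none :=
  certN0 (fam := false) (s1 := true) (s2 := false) (a := 0) (b := 0) (c := 1) (cn := .up) (n1 := ndN0q0) (n2 := ndN3q1) (pc := pcN0) (cut := Cut.none) (xt := Ext.none) (P1 := 0) (W1 := 536870912) (P2 := 536870912) (W2 := 536870912) (P3 := 335544320) (W3 := 67108864) (N0 := 3)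
    rfl k0_pm_001

noncomputable def f_pm_011 : ℕ → ℕ → ℕ → ℕ → Bool := onCell 0 536870912 536870912 536870912 335544320 67108864
    (rowN 3 0 false true false .pnn 0 1 1 (qsf 0 536870912 536870912 536870912 1) ndN0q0 ndN3q1 pcN1 Cut.none Ext.none)

def k0_pm_011 : ∃ t, chk3 f_pm_011 t 1 1 1 = true :=
  ⟨(l 4), by decide +kernel⟩

theorem c_pm_011 : CertN 0 536870912 536870912 536870912 335544320 67108864 3 false true false .pnn 0 1 1
    ndN0q0 ndN3q1 pcN1 Cut.none Ext.none :=
  certN0 (fam := false) (s1 := true) (s2 := false) (a := 0) (b := 1) (c := 1) (cn := .pnn) (n1 := ndN0q0) (n2 := ndN3q1) (pc := pcN1) (cut := Cut.none) (xt := Ext.none) (P1 := 0) (W1 := 536870912) (P2 := 536870912) (W2 := 536870912) (P3 := 335544320) (W3 := 67108864) (N0 := 3)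
    rfl k0_pm_011

noncomputable def f_pm_012 : ℕ → ℕ → ℕ → ℕ → Bool := onCell 0 536870912 1073741824 536870912 335544320 67108864
    (rowN 3 0 false true false .pnp 0 1 2 (qsf 0 536870912 1073741824 536870912 1) ndN0q0 ndN3q2 pcN1 Cut.none Ext.none)

def k0_pm_012 : ∃ t, chk3 f_pm_012 t 1 1 1 = true :=
  ⟨(l 4), by decide +kernel⟩

theorem c_pm_012 : CertN 0 536870912 1073741824 536870912 335544320 67108864 3 false true false .pnp 0 1 2
    ndN0q0 ndN3q2 pcN1 Cut.none Ext.none :=
  certN0 (fam := false) (s1 := true) (s2 := false) (a := 0) (b := 1) (c := 2) (cn := .pnp) (n1 := ndN0q0) (n2 := ndN3q2) (pc := pcN1) (cut := Cut.none) (xt := Ext.none) (P1 := 0) (W1 := 536870912) (P2 := 1073741824) (W2 := 536870912) (P3 := 335544320) (W3 := 67108864) (N0 := 3)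
    rfl k0_pm_012

noncomputable def f_pm_022 : ℕ → ℕ → ℕ → ℕ → Bool := onCell 0 536870912 1073741824 536870912 335544320 67108864
    (rowN 3 0 false true false .pp 0 2 2 (qsf 0 536870912 1073741824 536870912 2) ndN0q0 ndN3q2 pcN2 Cut.none Ext.none)

def k0_pm_022 : ∃ t, chk3 f_pm_022 t 1 1 1 = true :=
  ⟨(l 4), by decide +kernel⟩

theorem c_pm_022 : CertN 0 536870912 1073741824 536870912 335544320 67108864 3 false true false .pp 0 2 2
    ndN0q0 ndN3q2 pcN2 Cut.none Ext.none :=
  certN0 (fam := false) (s1 := true) (s2 := false) (a := 0) (b := 2) (c := 2) (cn := .pp) (n1 := ndN0q0) (n2 := ndN3q2) (pc := pcN2) (cut := Cut.none) (xt := Ext.none) (P1 := 0) (W1 := 536870912) (P2 := 1073741824) (W2 := 536870912) (P3 := 335544320) (W3 := 67108864) (N0 := 3)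
    rfl k0_pm_022

noncomputable def f_pm_023 : ℕ → ℕ → ℕ → ℕ → Bool := onCell 0 536870912 0 1230186008 335544320 67108864
    (rowN 3 0 false true false .up 0 2 3 (qsf 0 536870912 0 1230186008 2) ndN0q0 ndN3q3 pcN2 Cut.none Ext.none)

def k0_pm_023 : ∃ t, chk3 f_pm_023 t 1 1 1 = true :=
  ⟨(a (b (l 2) (l 4)) (b (a (l 2) (b (a (l 2) (l 17207056)) (a (b (l 17264640) (l 4)) (b (l 17262576) (l 17329552))))) (b (a (l 4) (b (l 4) (l 4))) (l 4)))), by decide +kernel⟩

theorem c_pm_023 : CertN 0 536870912 0 1230186008 335544320 67108864 3 false true false .up 0 2 3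
    ndN0q0 ndN3q3 pcN2 Cut.none Ext.none :=
  certN0 (fam := false) (s1 := true) (s2 := false) (a := 0) (b := 2) (c := 3) (cn := .up) (n1 := ndN0q0) (n2 := ndN3q3) (pc := pcN2) (cut := Cut.none) (xt := Ext.none) (P1 := 0) (W1 := 536870912) (P2 := 0) (W2 := 1230186008) (P3 := 335544320) (W3 := 67108864) (N0 := 3)
    rfl k0_pm_023

noncomputable def f_pm_033 : ℕ → ℕ → ℕ → ℕ → Bool := onCell 1610612736 536870912 0 1230186008 335544320 67108864
    (rowN 3 2 false true false .pnn 0 3 3 (qsf 0 536870912 0 1230186008 3) ndN0q0 ndN3q3 pcN3 Cut.none Ext.none)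

def k0_pm_033 : ∃ t, chk3 f_pm_033 t 1 1 1 = true :=
  ⟨(b (a (a (b (a (l 17132088) (l 17181952)) (b (a (l 17254664) (l 4)) (l 4))) (b (l 17162760) (l 4))) (l 4)) (l 4)), by decide +kernel⟩

theorem c_pm_033 : CertN 0 536870912 0 1230186008 335544320 67108864 3 false true false .pnn 0 3 3
    ndN0q0 ndN3q3 pcN3 Cut.none Ext.none :=
  certN2 (fam := false) (s1 := true) (s2 := false) (a := 0) (b := 3) (c := 3) (cn := .pnn) (n1 := ndN0q0) (n2 := ndN3q3) (pc := pcN3) (cut := Cut.none) (xt := Ext.none) (P1 := 0) (W1 := 536870912) (P2 := 0) (W2 := 1230186008) (P3 := 335544320) (W3 := 67108864) (N0 := 3)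
    rfl (fun _ => rfl) k0_pm_033

noncomputable def f_pm_101 : ℕ → ℕ → ℕ → ℕ → Bool := onCell 536870912 536870912 536870912 536870912 335544320 67108864
    (rowN 3 0 false true false .npn 1 0 1 (qsf 536870912 536870912 536870912 536870912 0) ndN0q1 ndN3q1 pcN0 Cut.none Ext.none)

def k0_pm_101 : ∃ t, chk3 f_pm_101 t 1 1 1 = true :=
  ⟨(l 4), by decide +kernel⟩

theorem c_pm_101 : CertN 536870912 536870912 536870912 536870912 335544320 67108864 3 false true false .npn 1 0 1
    ndN0q1 ndN3q1 pcN0 Cut.none Ext.none :=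
  certN0 (fam := false) (s1 := true) (s2 := false) (a := 1) (b := 0) (c := 1) (cn := .npn) (n1 := ndN0q1) (n2 := ndN3q1) (pc := pcN0) (cut := Cut.none) (xt := Ext.none) (P1 := 536870912) (W1 := 536870912) (P2 := 536870912) (W2 := 536870912) (P3 := 335544320) (W3 := 67108864) (N0 := 3)
    rfl k0_pm_101

noncomputable def f_pm_102 : ℕ → ℕ → ℕ → ℕ → Bool := onCell 536870912 536870912 0 536870912 335544320 67108864
    (rowN 3 1 false true false .npp 1 0 2 (qsf 536870912 536870912 1073741824 536870912 0) ndN0q1 ndN3q2 pcN0 Cut.none Ext.none)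

def k0_pm_102 : ∃ t, chk3 f_pm_102 t 1 1 1 = true :=
  ⟨(a (b (l 4) (b (l 4) (b (l 4) (a (l 4) (a (l 4) (l 17552376)))))) (b (b (a (a (l 1) (b (l 1) (l 313568024919))) (a (b (l 353833380119) (l 273839934343)) (b (l 245922573095) (l 17531576)))) (a (a (b (l 281892515863) (l 227668784279)) (b (l 277597864855) (l 17614808))) (a (b (l 17601896) (l 17574880)) (b (l 17511440) (a (l 17520152) (l 17490808)))))) (a (b (a (b (l 17582104) (l 17581456)) (l 17757136)) (b (a (l 17586344) (l 17558256)) (a (l 17585424) (l 17502040)))) (b (b (a (l 17551384) (a (l 17504656) (l 17462184))) (a (l 17509296) (l 17425968))) (b (a (l 17493416) (l 17561192)) (a (a (l 17464344) (l 17416488)) (l 17324304))))))), by decide +kernel⟩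

theorem c_pm_102 : CertN 536870912 536870912 1073741824 536870912 335544320 67108864 3 false true false .npp 1 0 2
    ndN0q1 ndN3q2 pcN0 Cut.none Ext.none :=
  certN1 (fam := false) (s1 := true) (s2 := false) (a := 1) (b := 0) (c := 2) (cn := .npp) (n1 := ndN0q1) (n2 := ndN3q2) (pc := pcN0) (cut := Cut.none) (xt := Ext.none) (P1 := 536870912) (W1 := 536870912) (P2 := 1073741824) (W2 := 536870912) (P3 := 335544320) (W3 := 67108864) (N0 := 3)
    rfl (fun _ => rfl) k0_pm_102

noncomputable def f_pm_112 : ℕ → ℕ → ℕ → ℕ → Bool := onCell 536870912 536870912 1073741824 536870912 335544320 67108864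
    (rowN 3 2 false true false .dn 1 1 2 (qsf 536870912 536870912 1073741824 536870912 1) ndN0q1 ndN3q2 pcN1 Cut.none Ext.none)

def k0_pm_112 : ∃ t, chk3 f_pm_112 t 1 1 1 = true :=
  ⟨(a (b (a (b (l 4) (a (l 65198154359) (l 4))) (l 4)) (a (b (a (b (l 17626872) (b (l 17668376) (a (l 17655288) (l 17672160)))) (l 17618560)) (a (b (b (a (l 17550160) (l 17635736)) (a (l 17426032) (l 17517784))) (a (l 17314512) (a (l 17358376) (l 17436640)))) (b (a (l 17650840) (l 17665824)) (a (l 17729168) (l 17568392))))) (b (a (l 17554368) (l 4)) (a (b (l 17662408) (b (l 17671480) (l 17605208))) (b (l 17650184) (l 17663072)))))) (b (l 4) (a (b (l 4) (a (l 43723649319) (l 53387185911))) (l 4)))), by decide +kernel⟩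

theorem c_pm_112 : CertN 536870912 536870912 1073741824 536870912 335544320 67108864 3 false true false .dn 1 1 2
    ndN0q1 ndN3q2 pcN1 Cut.none Ext.none :=
  certN2 (fam := false) (s1 := true) (s2 := false) (a := 1) (b := 1) (c := 2) (cn := .dn) (n1 := ndN0q1) (n2 := ndN3q2) (pc := pcN1) (cut := Cut.none) (xt := Ext.none) (P1 := 536870912) (W1 := 536870912) (P2 := 1073741824) (W2 := 536870912) (P3 := 335544320) (W3 := 67108864) (N0 := 3)
    rfl (fun _ => rfl) k0_pm_112

noncomputable def cut_pm_113 : Cut := Cut.of [[⟨0, 1, 0, 67108864⟩, ⟨1, 1, 0, 67108864⟩, ⟨2, 2, 0, 16777216⟩]]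

noncomputable def f_pm_113 : ℕ → ℕ → ℕ → ℕ → Bool := onCell 536870912 536870912 0 1230186008 335544320 67108864
    (rowN 3 0 false true false .nn 1 1 3 (qsf 536870912 536870912 0 1230186008 1) ndN0q1 ndN3q3 pcN1 cut_pm_113 Ext.none)

def k0_pm_113 : ∃ t, chk3 f_pm_113 t 1 1 1 = true :=
  ⟨(b (a (l 2) (a (l 2) (b (a (l 2) (a (l 2) (b (l 6) (l 16822416)))) (a (b (l 17013048) (l 17029160)) (b (l 16955760) (l 16898096)))))) (b (a (a (l 2) (b (l 2) (a (l 2) (l 17680984)))) (a (a (b (l 2) (l 17457056)) (b (l 17223968) (l 17217904))) (a (b (l 17035232) (l 17058472)) (b (l 16968480) (l 17066880))))) (a (a (b (l 2) (l 4)) (b (a (l 17937504) (l 17657320)) (a (b (l 17777712) (l 17727048)) (b (l 17673696) (l 17654440))))) (b (a (a (l 17472048) (l 17282048)) (a (b (l 17119952) (l 17172320)) (a (l 17191720) (b (l 17121120) (l 17129784))))) (a (b (a (l 17511896) (l 17354872)) (a (b (l 17541880) (a (l 17597048) (l 17537416))) (b (l 17397216) (l 17638752)))) (a (b (a (l 17258968)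 (l 17268264)) (b (l 17293032) (l 17298224))) (b (a (l 17161864) (b (l 17120624) (l 17118232))) (l 17167544)))))))), by decide +kernel⟩

theorem c_pm_113 : CertN 536870912 536870912 0 1230186008 335544320 67108864 3 false true false .nn 1 1 3
    ndN0q1 ndN3q3 pcN1 cut_pm_113 Ext.none :=
  certN0 (fam := false) (s1 := true) (s2 := false) (a := 1) (b := 1) (c := 3) (cn := .nn) (n1 := ndN0q1) (n2 := ndN3q3) (pc := pcN1) (cut := cut_pm_113) (xt := Ext.none) (P1 := 536870912) (W1 := 536870912) (P2 := 0) (W2 := 1230186008) (P3 := 335544320) (W3 := 67108864) (N0 := 3)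
    rfl k0_pm_113

noncomputable def cut_pm_123 : Cut := Cut.of [[⟨0, 1, 0, 67108864⟩, ⟨1, 1, 0, 67108864⟩, ⟨2, 2, 0, 16777216⟩]]

noncomputable def f_pm_123 : ℕ → ℕ → ℕ → ℕ → Bool := onCell 1073741824 536870912 0 1230186008 335544320 67108864
    (rowN 3 2 false true false .npn 1 2 3 (qsf 536870912 536870912 0 1230186008 2) ndN0q1 ndN3q3 pcN2 cut_pm_123 Ext.none)

def k0_pm_123 : ∃ t, chk3 f_pm_123 t 1 1 1 = true :=
  ⟨(b (b (a (a (a (b (a (l 6) (l 16790312)) (b (l 16896560) (l 16852920))) (b (l 16832504) (l 16878288))) (a (l 16900656) (l 16974864))) (a (a (l 17045632) (l 17104808)) (a (l 17155648) (l 17189728)))) (a (a (b (a (l 16940512) (l 16996264)) (a (l 17105896) (l 17147416))) (b (l 17076784) (l 17212936))) (a (a (l 17222952) (l 17261016)) (a (l 17285648) (l 17295720))))) (b (a (a (b (a (l 17302880) (l 17338200)) (a (l 17538432) (l 17547448))) (a (b (l 17370280) (l 17547736)) (b (l 17396040) (l 17534376)))) (a (a (b (l 17413856) (l 17509776)) (b (l 17415888)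 (l 4))) (a (b (l 17406088) (l 1)) (l 1)))) (a (a (a (b (l 17893120) (l 4)) (b (l 17694016) (l 4))) (b (a (l 17632632) (l 4)) (l 4))) (l 1)))), by decide +kernel⟩

theorem c_pm_123 : CertN 536870912 536870912 0 1230186008 335544320 67108864 3 false true false .npn 1 2 3
    ndN0q1 ndN3q3 pcN2 cut_pm_123 Ext.none :=
  certN2 (fam := false) (s1 := true) (s2 := false) (a := 1) (b := 2) (c := 3) (cn := .npn) (n1 := ndN0q1) (n2 := ndN3q3) (pc := pcN2) (cut := cut_pm_123) (xt := Ext.none) (P1 := 536870912) (W1 := 536870912) (P2 := 0) (W2 := 1230186008) (P3 := 335544320) (W3 := 67108864) (N0 := 3)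
    rfl (fun _ => rfl) k0_pm_123

noncomputable def f_pm_133 : ℕ → ℕ → ℕ → ℕ → Bool := onCell 536870912 536870912 0 1230186008 335544320 67108864
    (rowN 3 0 false true false .dn 1 3 3 (qsf 536870912 536870912 0 1230186008 3) ndN0q1 ndN3q3 pcN3 Cut.none Ext.none)

def k0_pm_133 : ∃ t, chk3 f_pm_133 t 1 1 1 = true :=
  ⟨(b (b (a (a (a (l 17029448) (l 1)) (l 1)) (l 1)) (l 1)) (l 1)), by decide +kernel⟩

theorem c_pm_133 : CertN 536870912 536870912 0 1230186008 335544320 67108864 3 false true false .dn 1 3 3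
    ndN0q1 ndN3q3 pcN3 Cut.none Ext.none :=
  certN0 (fam := false) (s1 := true) (s2 := false) (a := 1) (b := 3) (c := 3) (cn := .dn) (n1 := ndN0q1) (n2 := ndN3q3) (pc := pcN3) (cut := Cut.none) (xt := Ext.none) (P1 := 536870912) (W1 := 536870912) (P2 := 0) (W2 := 1230186008) (P3 := 335544320) (W3 := 67108864) (N0 := 3)
    rfl k0_pm_133

noncomputable def f_pm_202 : ℕ → ℕ → ℕ → ℕ → Bool := onCell 0 536870912 0 536870912 335544320 67108864
    (rowN 3 1 false true false .pp 2 0 2 (qsf 0 536870912 1073741824 536870912 0) ndN0q2 ndN3q2 pcN0 Cut.none Ext.none)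

def k0_pm_202 : ∃ t, chk3 f_pm_202 t 1 1 1 = true :=
  ⟨(b (a (b (a (b (a (a (l 3) (b (b (a (l 3) (l 16515928)) (l 136532421559)) (l 156396703687))) (b (a (b (l 16497016) (a (l 16463328) (l 16484744))) (l 16568712)) (a (b (l 16518200) (l 16496560)) (b (l 16521272) (l 16503464))))) (a (l 3) (a (b (l 141364343367) (l 141364269303)) (b (l 16550688) (l 16510416))))) (b (b (a (a (l 16648392) (l 16730984)) (b (l 16857856) (l 16845584))) (a (l 16787144) (l 16930208))) (a (b (a (b (l 16572432) (l 16538224)) (l 16658568)) (a (l 16536456) (l 16631360))) (b (l 16836216) (l 16777040))))) (a (a (l 3) (b (b (l 140827458599) (l 144048748295)) (a (l 3) (l 153712627559)))) (b (a (b (l 16565120) (l 16575272)) (b (a (l 16632224) (l 16773688)) (l 16783656))) (a (a (l 126869169255) (l 16625224)) (l 16789760))))) (b (a (b (a (l 17016256) (b (l 17160704) (l 17170120))) (a (b (l 17005216) (l 17017216)) (b (l 17181472) (l 17191928)))) (b (a (b (a (l 17268016) (l 17337528)) (l 17322632)) (b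 (l 17457904) (l 17494784))) (a (l 17357360) (l 17533728)))) (a (b (a (b (l 16982256) (l 16924328)) (b (l 17196648) (l 17213984))) (a (a (l 16812008) (l 16863944)) (l 17150552))) (a (b (b (l 17394144) (l 17421720)) (l 17454792)) (b (l 17491800) (l 17459272)))))) (a (b (a (l 3) (a (b (b (l 137069918359) (l 140828125415)) (b (l 146196954759) (l 152639485079))) (b (l 16800312) (a (l 16951440) (l 16950392))))) (a (l 2) (a (l 2) (b (l 1282685965863) (l 2))))) (b (a (b (a (l 16833464) (b (l 17037512) (l 16926504))) (a (l 16942176) (a (l 16939152) (l 16970880)))) (b (a (a (l 17316520) (l 17492280)) (l 17531016)) (a (l 17254688) (l 17450384)))) (a (b (a (l 17031016) (l 17031432)) (l 2)) (a (b (l 17097040) (l 17114784)) (b (l 17423232) (l 17212832))))))), by decide +kernel⟩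

theorem c_pm_202 : CertN 0 536870912 1073741824 536870912 335544320 67108864 3 false true false .pp 2 0 2
    ndN0q2 ndN3q2 pcN0 Cut.none Ext.none :=
  certN1 (fam := false) (s1 := true) (s2 := false) (a := 2) (b := 0) (c := 2) (cn := .pp) (n1 := ndN0q2) (n2 := ndN3q2) (pc := pcN0) (cut := Cut.none) (xt := Ext.none) (P1 := 0) (W1 := 536870912) (P2 := 1073741824) (W2 := 536870912) (P3 := 335544320) (W3 := 67108864) (N0 := 3)
    rfl (fun _ => rfl) k0_pm_202

noncomputable def f_pm_203 : ℕ → ℕ → ℕ → ℕ → Bool := onCell 0 536870912 0 1230186008 335544320 67108864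
    (rowN 3 0 false true false .up 2 0 3 (qsf 0 536870912 0 1230186008 0) ndN0q2 ndN3q3 pcN0 Cut.none Ext.none)

def k0_pm_203 : ∃ t, chk3 f_pm_203 t 1 1 1 = true :=
  ⟨(b (l 2) (b (l 2) (a (a (l 3) (b (a (l 3) (a (l 3) (l 2))) (b (a (l 3) (a (b (l 167671809591) (l 158544992375)) (b (l 16948512) (l 16938696)))) (a (a (l 3) (b (l 3) (b (l 163913635623) (l 159081767799)))) (b (a (a (l 158544910199) (l 16914032)) (l 16917928)) (a (l 16884168) (l 16881896))))))) (b (l 2) (a (b (a (b (l 16973728) (l 16956400)) (l 16992320)) (a (b (l 16926136) (l 16878848)) (l 16906960))) (a (b (l 17013304) (l 16906632)) (b (l 2) (l 16949424)))))))), by decide +kernel⟩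

theorem c_pm_203 : CertN 0 536870912 0 1230186008 335544320 67108864 3 false true false .up 2 0 3
    ndN0q2 ndN3q3 pcN0 Cut.none Ext.none :=
  certN0 (fam := false) (s1 := true) (s2 := false) (a := 2) (b := 0) (c := 3) (cn := .up) (n1 := ndN0q2) (n2 := ndN3q3) (pc := pcN0) (cut := Cut.none) (xt := Ext.none) (P1 := 0) (W1 := 536870912) (P2 := 0) (W2 := 1230186008) (P3 := 335544320) (W3 := 67108864) (N0 := 3)
    rfl k0_pm_203

noncomputable def cut_pm_213 : Cut := Cut.of [[⟨0, 1, 0, 67108864⟩, ⟨1, 1, 0, 67108864⟩, ⟨2, 2, 0, 16777216⟩]]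

noncomputable def f_pm_213 : ℕ → ℕ → ℕ → ℕ → Bool := onCell 0 536870912 0 1230186008 335544320 67108864
    (rowN 3 0 false true false .pnn 2 1 3 (qsf 0 536870912 0 1230186008 1) ndN0q2 ndN3q3 pcN1 cut_pm_213 Ext.none)

def k0_pm_213 : ∃ t, chk3 f_pm_213 t 1 1 1 = true :=
  ⟨(b (a (l 3) (b (a (l 3) (a (a (l 3) (b (l 3) (b (l 3) (b (l 3) (l 322827236663))))) (b (l 6) (a (b (a (l 6) (l 6)) (a (b (l 277193197959) (l 16800864)) (l 16798112))) (b (a (l 6) (l 6)) (l 16801960)))))) (a (b (l 3) (a (l 3) (a (l 3) (b (l 3) (a (l 284172646375) (l 262160950199)))))) (b (a (a (b (l 3) (a (l 3) (l 285783191223))) (b (a (l 306721127543) (l 257328986151)) (a (l 240686019511) (l 16831760)))) (a (b (l 16814040) (l 16836184)) (l 16825912))) (a (a (b (a (l 288467665575) (l 243370580231)) (b (l 16865760) (l 16882016))) (b (l 16897560) (l 16887296))) (l 16989520)))))) (b (a (l 3) (a (b (a (l 3) (a (b (l 268066558999) (l 211695177351)) (b (a (l 220821966775) (l 16896416)) (l 16928176))))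 (a (b (a (l 3) (l 213305820471)) (b (l 197736590711) (l 186999199607))) (b (a (l 184851750631) (l 16964632)) (l 17049880)))) (b (a (b (l 17063152) (l 16955352)) (l 16966264)) (a (b (l 16994208) (l 17028504)) (l 17053080))))) (a (a (l 3) (b (a (l 3) (b (l 3) (b (l 195052237767) (l 176798632231)))) (b (a (l 1) (b (a (l 175188004391) (l 16946232)) (l 1))) (l 1)))) (b (a (a (b (b (l 176261804103) (l 168208816727)) (b (l 16976192) (l 16975192))) (b (l 17009400) (l 17014056))) (b (a (l 17051496) (l 17096672)) (a (l 17054296) (l 17099824)))) (b (a (a (b (l 16967144) (l 16949896)) (l 16990232)) (a (l 17026240) (l 17257952))) (a (l 1) (a (l 16956816) (l 17123984)))))))), by decide +kernel⟩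

theorem c_pm_213 : CertN 0 536870912 0 1230186008 335544320 67108864 3 false true false .pnn 2 1 3
    ndN0q2 ndN3q3 pcN1 cut_pm_213 Ext.none :=
  certN0 (fam := false) (s1 := true) (s2 := false) (a := 2) (b := 1) (c := 3) (cn := .pnn) (n1 := ndN0q2) (n2 := ndN3q3) (pc := pcN1) (cut := cut_pm_213) (xt := Ext.none) (P1 := 0) (W1 := 536870912) (P2 := 0) (W2 := 1230186008) (P3 := 335544320) (W3 := 67108864) (N0 := 3)
    rfl k0_pm_213

noncomputable def f_mm_001 : ℕ → ℕ → ℕ → ℕ → Bool := onCell 0 536870912 0 536870912 335544320 67108864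
    (rowN 3 1 false false false .up 0 0 1 (qsf 0 536870912 536870912 536870912 0) ndN0q0 ndN3q1 pcN0 Cut.none Ext.none)

def k0_mm_001 : ∃ t, chk3 f_mm_001 t 1 1 1 = true :=
  ⟨(l 3), by decide +kernel⟩

theorem c_mm_001 : CertN 0 536870912 536870912 536870912 335544320 67108864 3 false false false .up 0 0 1
    ndN0q0 ndN3q1 pcN0 Cut.none Ext.none :=
  certN1 (fam := false) (s1 := false) (s2 := false) (a := 0) (b := 0) (c := 1) (cn := .up) (n1 := ndN0q0) (n2 := ndN3q1) (pc := pcN0) (cut := Cut.none) (xt := Ext.none) (P1 := 0) (W1 := 536870912) (P2 := 536870912) (W2 := 536870912) (P3 := 335544320) (W3 := 67108864) (N0 := 3)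
    rfl (fun _ => rfl) k0_mm_001

noncomputable def f_mm_011 : ℕ → ℕ → ℕ → ℕ → Bool := onCell 0 536870912 536870912 536870912 335544320 67108864
    (rowN 3 1 false false false .pnn 0 1 1 (qsf 0 536870912 536870912 536870912 1) ndN0q0 ndN3q1 pcN1 Cut.none Ext.none)

def k0_mm_011 : ∃ t, chk3 f_mm_011 t 1 1 1 = true :=
  ⟨(l 5), by decide +kernel⟩

theorem c_mm_011 : CertN 0 536870912 536870912 536870912 335544320 67108864 3 false false false .pnn 0 1 1
    ndN0q0 ndN3q1 pcN1 Cut.none Ext.none :=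
  certN1 (fam := false) (s1 := false) (s2 := false) (a := 0) (b := 1) (c := 1) (cn := .pnn) (n1 := ndN0q0) (n2 := ndN3q1) (pc := pcN1) (cut := Cut.none) (xt := Ext.none) (P1 := 0) (W1 := 536870912) (P2 := 536870912) (W2 := 536870912) (P3 := 335544320) (W3 := 67108864) (N0 := 3)
    rfl (fun _ => rfl) k0_mm_011

noncomputable def f_mm_012 : ℕ → ℕ → ℕ → ℕ → Bool := onCell 0 536870912 1073741824 536870912 335544320 67108864
    (rowN 3 0 false false false .pnp 0 1 2 (qsf 0 536870912 1073741824 536870912 1) ndN0q0 ndN3q2 pcN1 Cut.none Ext.none)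

def k0_mm_012 : ∃ t, chk3 f_mm_012 t 1 1 1 = true :=
  ⟨(l 5), by decide +kernel⟩

theorem c_mm_012 : CertN 0 536870912 1073741824 536870912 335544320 67108864 3 false false false .pnp 0 1 2
    ndN0q0 ndN3q2 pcN1 Cut.none Ext.none :=
  certN0 (fam := false) (s1 := false) (s2 := false) (a := 0) (b := 1) (c := 2) (cn := .pnp) (n1 := ndN0q0) (n2 := ndN3q2) (pc := pcN1) (cut := Cut.none) (xt := Ext.none) (P1 := 0) (W1 := 536870912) (P2 := 1073741824) (W2 := 536870912) (P3 := 335544320) (W3 := 67108864) (N0 := 3)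
    rfl k0_mm_012

noncomputable def f_mm_022 : ℕ → ℕ → ℕ → ℕ → Bool := onCell 0 536870912 1073741824 536870912 335544320 67108864
    (rowN 3 0 false false false .pp 0 2 2 (qsf 0 536870912 1073741824 536870912 2) ndN0q0 ndN3q2 pcN2 Cut.none Ext.none)

def k0_mm_022 : ∃ t, chk3 f_mm_022 t 1 1 1 = true :=
  ⟨(l 5), by decide +kernel⟩

theorem c_mm_022 : CertN 0 536870912 1073741824 536870912 335544320 67108864 3 false false false .pp 0 2 2
    ndN0q0 ndN3q2 pcN2 Cut.none Ext.none :=
  certN0 (fam := false) (s1 := false) (s2 := false) (a := 0) (b := 2) (c := 2) (cn := .pp) (n1 := ndN0q0) (n2 := ndN3q2) (pc := pcN2) (cut := Cut.none) (xt := Ext.none) (P1 := 0) (W1 := 536870912) (P2 := 1073741824) (W2 := 536870912) (P3 := 335544320) (W3 := 67108864) (N0 := 3)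
    rfl k0_mm_022

noncomputable def f_mm_023 : ℕ → ℕ → ℕ → ℕ → Bool := onCell 0 536870912 0 1230186008 335544320 67108864
    (rowN 3 0 false false false .up 0 2 3 (qsf 0 536870912 0 1230186008 2) ndN0q0 ndN3q3 pcN2 Cut.none Ext.none)

def k0_mm_023 : ∃ t, chk3 f_mm_023 t 1 1 1 = true :=
  ⟨(l 5), by decide +kernel⟩

theorem c_mm_023 : CertN 0 536870912 0 1230186008 335544320 67108864 3 false false false .up 0 2 3
    ndN0q0 ndN3q3 pcN2 Cut.none Ext.none :=
  certN0 (fam := false) (s1 := false) (s2 := false) (a := 0) (b := 2) (c := 3) (cn := .up) (n1 := ndN0q0) (n2 := ndN3q3) (pc := pcN2) (cut := Cut.none) (xt := Ext.none) (P1 := 0) (W1 := 536870912) (P2 := 0) (W2 := 1230186008) (P3 := 335544320) (W3 := 67108864) (N0 := 3)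
    rfl k0_mm_023

noncomputable def f_mm_033 : ℕ → ℕ → ℕ → ℕ → Bool := onCell 0 536870912 0 1230186008 335544320 67108864
    (rowN 3 0 false false false .pnn 0 3 3 (qsf 0 536870912 0 1230186008 3) ndN0q0 ndN3q3 pcN3 Cut.none Ext.none)

def k0_mm_033 : ∃ t, chk3 f_mm_033 t 1 1 1 = true :=
  ⟨(l 5), by decide +kernel⟩

theorem c_mm_033 : CertN 0 536870912 0 1230186008 335544320 67108864 3 false false false .pnn 0 3 3
    ndN0q0 ndN3q3 pcN3 Cut.none Ext.none :=
  certN0 (fam := false) (s1 := false) (s2 := false) (a := 0) (b := 3) (c := 3) (cn := .pnn) (n1 := ndN0q0) (n2 := ndN3q3) (pc := pcN3) (cut := Cut.none) (xt := Ext.none) (P1 := 0) (W1 := 536870912) (P2 := 0) (W2 := 1230186008) (P3 := 335544320) (W3 := 67108864) (N0 := 3)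
    rfl k0_mm_033

noncomputable def cut_mm_101 : Cut := Cut.of [[⟨0, 1, 0, 67108864⟩, ⟨1, 0, 0, 67108864⟩, ⟨2, 1, 0, 67108864⟩]]

noncomputable def f_mm_101 : ℕ → ℕ → ℕ → ℕ → Bool := onCell 536870912 536870912 0 536870912 335544320 67108864
    (rowN 3 1 false false false .npn 1 0 1 (qsf 536870912 536870912 536870912 536870912 0) ndN0q1 ndN3q1 pcN0 cut_mm_101 Ext.none)

def k0_mm_101 : ∃ t, chk3 f_mm_101 t 1 1 1 = true :=
  ⟨(a (l 3) (b (a (l 3) (b (a (l 3) (b (a (l 3) (b (l 6) (l 3))) (l 3))) (l 3))) (l 3))), by decide +kernel⟩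

theorem c_mm_101 : CertN 536870912 536870912 536870912 536870912 335544320 67108864 3 false false false .npn 1 0 1
    ndN0q1 ndN3q1 pcN0 cut_mm_101 Ext.none :=
  certN1 (fam := false) (s1 := false) (s2 := false) (a := 1) (b := 0) (c := 1) (cn := .npn) (n1 := ndN0q1) (n2 := ndN3q1) (pc := pcN0) (cut := cut_mm_101) (xt := Ext.none) (P1 := 536870912) (W1 := 536870912) (P2 := 536870912) (W2 := 536870912) (P3 := 335544320) (W3 := 67108864) (N0 := 3)
    rfl (fun _ => rfl) k0_mm_101

noncomputable def f_mm_102 : ℕ → ℕ → ℕ → ℕ → Bool := onCell 536870912 536870912 1073741824 536870912 335544320 67108864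
    (rowN 3 0 false false false .npp 1 0 2 (qsf 536870912 536870912 1073741824 536870912 0) ndN0q1 ndN3q2 pcN0 Cut.none Ext.none)

def k0_mm_102 : ∃ t, chk3 f_mm_102 t 1 1 1 = true :=
  ⟨(l 3), by decide +kernel⟩

theorem c_mm_102 : CertN 536870912 536870912 1073741824 536870912 335544320 67108864 3 false false false .npp 1 0 2
    ndN0q1 ndN3q2 pcN0 Cut.none Ext.none :=
  certN0 (fam := false) (s1 := false) (s2 := false) (a := 1) (b := 0) (c := 2) (cn := .npp) (n1 := ndN0q1) (n2 := ndN3q2) (pc := pcN0) (cut := Cut.none) (xt := Ext.none) (P1 := 536870912) (W1 := 536870912) (P2 := 1073741824) (W2 := 536870912) (P3 := 335544320) (W3 := 67108864) (N0 := 3)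
    rfl k0_mm_102

noncomputable def f_mm_112 : ℕ → ℕ → ℕ → ℕ → Bool := onCell 536870912 536870912 1073741824 536870912 335544320 67108864
    (rowN 3 0 false false false .dn 1 1 2 (qsf 536870912 536870912 1073741824 536870912 1) ndN0q1 ndN3q2 pcN1 Cut.none Ext.none)

def k0_mm_112 : ∃ t, chk3 f_mm_112 t 1 1 1 = true :=
  ⟨(l 3), by decide +kernel⟩

theorem c_mm_112 : CertN 536870912 536870912 1073741824 536870912 335544320 67108864 3 false false false .dn 1 1 2
    ndN0q1 ndN3q2 pcN1 Cut.none Ext.none :=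
  certN0 (fam := false) (s1 := false) (s2 := false) (a := 1) (b := 1) (c := 2) (cn := .dn) (n1 := ndN0q1) (n2 := ndN3q2) (pc := pcN1) (cut := Cut.none) (xt := Ext.none) (P1 := 536870912) (W1 := 536870912) (P2 := 1073741824) (W2 := 536870912) (P3 := 335544320) (W3 := 67108864) (N0 := 3)
    rfl k0_mm_112

noncomputable def f_mm_113 : ℕ → ℕ → ℕ → ℕ → Bool := onCell 536870912 536870912 0 1230186008 335544320 67108864
    (rowN 3 0 false false false .nn 1 1 3 (qsf 536870912 536870912 0 1230186008 1) ndN0q1 ndN3q3 pcN1 Cut.none Ext.none)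

def k0_mm_113 : ∃ t, chk3 f_mm_113 t 1 1 1 = true :=
  ⟨(b (l 5) (a (l 5) (b (l 5) (l 3)))), by decide +kernel⟩

theorem c_mm_113 : CertN 536870912 536870912 0 1230186008 335544320 67108864 3 false false false .nn 1 1 3
    ndN0q1 ndN3q3 pcN1 Cut.none Ext.none :=
  certN0 (fam := false) (s1 := false) (s2 := false) (a := 1) (b := 1) (c := 3) (cn := .nn) (n1 := ndN0q1) (n2 := ndN3q3) (pc := pcN1) (cut := Cut.none) (xt := Ext.none) (P1 := 536870912) (W1 := 536870912) (P2 := 0) (W2 := 1230186008) (P3 := 335544320) (W3 := 67108864) (N0 := 3)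
    rfl k0_mm_113

noncomputable def f_mm_123 : ℕ → ℕ → ℕ → ℕ → Bool := onCell 1073741824 536870912 0 1230186008 335544320 67108864
    (rowN 3 2 false false false .npn 1 2 3 (qsf 536870912 536870912 0 1230186008 2) ndN0q1 ndN3q3 pcN2 Cut.none Ext.none)

def k0_mm_123 : ∃ t, chk3 f_mm_123 t 1 1 1 = true :=
  ⟨(b (l 5) (l 5)), by decide +kernel⟩

theorem c_mm_123 : CertN 536870912 536870912 0 1230186008 335544320 67108864 3 false false false .npn 1 2 3
    ndN0q1 ndN3q3 pcN2 Cut.none Ext.none :=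
  certN2 (fam := false) (s1 := false) (s2 := false) (a := 1) (b := 2) (c := 3) (cn := .npn) (n1 := ndN0q1) (n2 := ndN3q3) (pc := pcN2) (cut := Cut.none) (xt := Ext.none) (P1 := 536870912) (W1 := 536870912) (P2 := 0) (W2 := 1230186008) (P3 := 335544320) (W3 := 67108864) (N0 := 3)
    rfl (fun _ => rfl) k0_mm_123

noncomputable def f_mm_133 : ℕ → ℕ → ℕ → ℕ → Bool := onCell 1610612736 536870912 0 1230186008 335544320 67108864
    (rowN 3 2 false false false .dn 1 3 3 (qsf 536870912 536870912 0 1230186008 3) ndN0q1 ndN3q3 pcN3 Cut.none Ext.none)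

def k0_mm_133 : ∃ t, chk3 f_mm_133 t 1 1 1 = true :=
  ⟨(l 5), by decide +kernel⟩

theorem c_mm_133 : CertN 536870912 536870912 0 1230186008 335544320 67108864 3 false false false .dn 1 3 3
    ndN0q1 ndN3q3 pcN3 Cut.none Ext.none :=
  certN2 (fam := false) (s1 := false) (s2 := false) (a := 1) (b := 3) (c := 3) (cn := .dn) (n1 := ndN0q1) (n2 := ndN3q3) (pc := pcN3) (cut := Cut.none) (xt := Ext.none) (P1 := 536870912) (W1 := 536870912) (P2 := 0) (W2 := 1230186008) (P3 := 335544320) (W3 := 67108864) (N0 := 3)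
    rfl (fun _ => rfl) k0_mm_133

noncomputable def f_mm_202 : ℕ → ℕ → ℕ → ℕ → Bool := onCell 0 536870912 0 536870912 335544320 67108864
    (rowN 3 1 false false false .pp 2 0 2 (qsf 0 536870912 1073741824 536870912 0) ndN0q2 ndN3q2 pcN0 Cut.none Ext.none)

def k0_mm_202 : ∃ t, chk3 f_mm_202 t 1 1 1 = true :=
  ⟨(b (l 3) (l 3)), by decide +kernel⟩

theorem c_mm_202 : CertN 0 536870912 1073741824 536870912 335544320 67108864 3 false false false .pp 2 0 2
    ndN0q2 ndN3q2 pcN0 Cut.none Ext.none :=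
  certN1 (fam := false) (s1 := false) (s2 := false) (a := 2) (b := 0) (c := 2) (cn := .pp) (n1 := ndN0q2) (n2 := ndN3q2) (pc := pcN0) (cut := Cut.none) (xt := Ext.none) (P1 := 0) (W1 := 536870912) (P2 := 1073741824) (W2 := 536870912) (P3 := 335544320) (W3 := 67108864) (N0 := 3)
    rfl (fun _ => rfl) k0_mm_202

noncomputable def f_mm_203 : ℕ → ℕ → ℕ → ℕ → Bool := onCell 0 536870912 0 1230186008 335544320 67108864
    (rowN 3 0 false false false .up 2 0 3 (qsf 0 536870912 0 1230186008 0) ndN0q2 ndN3q3 pcN0 Cut.none Ext.none)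

def k0_mm_203 : ∃ t, chk3 f_mm_203 t 1 1 1 = true :=
  ⟨(b (l 2) (l 3)), by decide +kernel⟩

theorem c_mm_203 : CertN 0 536870912 0 1230186008 335544320 67108864 3 false false false .up 2 0 3
    ndN0q2 ndN3q3 pcN0 Cut.none Ext.none :=
  certN0 (fam := false) (s1 := false) (s2 := false) (a := 2) (b := 0) (c := 3) (cn := .up) (n1 := ndN0q2) (n2 := ndN3q3) (pc := pcN0) (cut := Cut.none) (xt := Ext.none) (P1 := 0) (W1 := 536870912) (P2 := 0) (W2 := 1230186008) (P3 := 335544320) (W3 := 67108864) (N0 := 3)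
    rfl k0_mm_203

noncomputable def f_mm_213 : ℕ → ℕ → ℕ → ℕ → Bool := onCell 0 536870912 0 1230186008 335544320 67108864
    (rowN 3 0 false false false .pnn 2 1 3 (qsf 0 536870912 0 1230186008 1) ndN0q2 ndN3q3 pcN1 Cut.none Ext.none)

def k0_mm_213 : ∃ t, chk3 f_mm_213 t 1 1 1 = true :=
  ⟨(b (a (l 3) (l 5)) (l 3)), by decide +kernel⟩

theorem c_mm_213 : CertN 0 536870912 0 1230186008 335544320 67108864 3 false false false .pnn 2 1 3
    ndN0q2 ndN3q3 pcN1 Cut.none Ext.none :=
  certN0 (fam := false) (s1 := false) (s2 := false) (a := 2) (b := 1) (c := 3) (cn := .pnn) (n1 := ndN0q2) (n2 := ndN3q3) (pc := pcN1) (cut := Cut.none) (xt := Ext.none) (P1 := 0) (W1 := 536870912) (P2 := 0) (W2 := 1230186008) (P3 := 335544320) (W3 := 67108864) (N0 := 3)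
    rfl k0_mm_213

end Pool.Agent.Strip051.G.I5_16_3_8.Tab.C.NB03

namespace Pool.Agent.Strip051.G.I5_16_3_8.Tab.C.NB04

open Pool.Agent.Strip051.PB Pool.Agent.Strip051.PB.T
open Pool.Agent.Strip051.G.I5_16_3_8.Tab

noncomputable def f_pp_001 : ℕ → ℕ → ℕ → ℕ → Bool := onCell 0 536870912 0 536870912 335544320 67108864
    (rowN 3 1 false true true .up 0 0 1 (qsf 0 536870912 536870912 536870912 0) ndN0q0 ndN4q1 pcN0 Cut.none Ext.none)

def k0_pp_001 : ∃ t, chk3 f_pp_001 t 1 1 1 = true :=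
  ⟨(l 3), by decide +kernel⟩

theorem c_pp_001 : CertN 0 536870912 536870912 536870912 335544320 67108864 3 false true true .up 0 0 1
    ndN0q0 ndN4q1 pcN0 Cut.none Ext.none :=
  certN1 (fam := false) (s1 := true) (s2 := true) (a := 0) (b := 0) (c := 1) (cn := .up) (n1 := ndN0q0) (n2 := ndN4q1) (pc := pcN0) (cut := Cut.none) (xt := Ext.none) (P1 := 0) (W1 := 536870912) (P2 := 536870912) (W2 := 536870912) (P3 := 335544320) (W3 := 67108864) (N0 := 3)
    rfl (fun _ => rfl) k0_pp_001

noncomputable def cut_pp_011 : Cut := Cut.of [[⟨0, 0, 0, 67108864⟩, ⟨1, 1, 0, 67108864⟩, ⟨2, 1, 0, 67108864⟩]]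

noncomputable def f_pp_011 : ℕ → ℕ → ℕ → ℕ → Bool := onCell 0 536870912 536870912 536870912 335544320 67108864
    (rowN 3 1 false true true .pnn 0 1 1 (qsf 0 536870912 536870912 536870912 1) ndN0q0 ndN4q1 pcN1 cut_pp_011 Ext.none)

def k0_pp_011 : ∃ t, chk3 f_pp_011 t 1 1 1 = true :=
  ⟨(b (l 3) (a (b (l 3) (a (b (l 3) (a (b (l 3) (a (l 6) (l 3))) (l 3))) (l 3))) (l 3))), by decide +kernel⟩

theorem c_pp_011 : CertN 0 536870912 536870912 536870912 335544320 67108864 3 false true true .pnn 0 1 1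
    ndN0q0 ndN4q1 pcN1 cut_pp_011 Ext.none :=
  certN1 (fam := false) (s1 := true) (s2 := true) (a := 0) (b := 1) (c := 1) (cn := .pnn) (n1 := ndN0q0) (n2 := ndN4q1) (pc := pcN1) (cut := cut_pp_011) (xt := Ext.none) (P1 := 0) (W1 := 536870912) (P2 := 536870912) (W2 := 536870912) (P3 := 335544320) (W3 := 67108864) (N0 := 3)
    rfl (fun _ => rfl) k0_pp_011

noncomputable def cut_pp_012 : Cut := Cut.of [[⟨0, 0, 0, 67108864⟩, ⟨1, 1, 0, 67108864⟩, ⟨2, 1, 0, 67108864⟩]]

noncomputable def f_pp_012 : ℕ → ℕ → ℕ → ℕ → Bool := onCell 0 536870912 536870912 536870912 335544320 67108864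
    (rowN 3 1 false true true .pnp 0 1 2 (qsf 0 536870912 1073741824 536870912 1) ndN0q0 ndN4q2 pcN1 cut_pp_012 Ext.none)

def k0_pp_012 : ∃ t, chk3 f_pp_012 t 1 1 1 = true :=
  ⟨(b (l 3) (a (b (l 3) (a (a (a (b (l 1) (b (l 3) (l 6))) (l 3)) (l 3)) (l 3))) (l 3))), by decide +kernel⟩

theorem c_pp_012 : CertN 0 536870912 1073741824 536870912 335544320 67108864 3 false true true .pnp 0 1 2
    ndN0q0 ndN4q2 pcN1 cut_pp_012 Ext.none :=
  certN1 (fam := false) (s1 := true) (s2 := true) (a := 0) (b := 1) (c := 2) (cn := .pnp) (n1 := ndN0q0) (n2 := ndN4q2) (pc := pcN1) (cut := cut_pp_012) (xt := Ext.none) (P1 := 0) (W1 := 536870912) (P2 := 1073741824) (W2 := 536870912) (P3 := 335544320) (W3 := 67108864) (N0 := 3)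
    rfl (fun _ => rfl) k0_pp_012

noncomputable def cut_pp_022 : Cut := Cut.of [[⟨0, 0, 0, 67108864⟩, ⟨1, 1, 0, 67108864⟩, ⟨2, 1, 0, 67108864⟩]]

noncomputable def f_pp_022 : ℕ → ℕ → ℕ → ℕ → Bool := onCell 0 536870912 1073741824 536870912 335544320 67108864
    (rowN 3 1 false true true .pp 0 2 2 (qsf 0 536870912 1073741824 536870912 2) ndN0q0 ndN4q2 pcN2 cut_pp_022 Ext.none)

def k0_pp_022 : ∃ t, chk3 f_pp_022 t 16 16 1 = true :=
  ⟨(b (l 6) (a (l 6) (b (l 6) (a (l 6) (b (l 6) (a (l 6) (c (l 16758400) (l 16747400)))))))), by decide +kernel⟩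

def k1_pp_022 : ∃ t, chk3 f_pp_022 t 17 32 1 = true :=
  ⟨(a (a (l 6) (l 3)) (l 3)), by decide +kernel⟩

def k2_pp_022 : ∃ t, chk3 f_pp_022 t 34 33 1 = true :=
  ⟨(b (a (a (l 6) (b (l 6) (b (l 6) (c (a (l 6) (l 16772088)) (l 16770712))))) (b (a (a (l 6) (l 3)) (l 3)) (b (a (b (a (l 6) (b (a (l 6) (l 3)) (a (b (l 6) (l 16779248)) (c (b (l 3) (l 346986382343)) (l 375977412151))))) (a (l 16776704) (a (l 16778056) (c (c (l 29158803559) (l 16778288)) (l 16778448))))) (b (l 3) (a (b (a (c (b (l 3) (l 334101480295)) (l 366313735575)) (l 3)) (a (c (l 16778384) (l 16778048)) (c (b (l 3) (l 182703885751)) (l 355039446279)))) (l 3)))) (b (a (c (l 16775720) (l 16775664)) (a (c (c (l 16778384) (l 16778376)) (l 16778368)) (b (a (c (b (l 423222052615) (l 168208370967)) (l 344302027879)) (l 3)) (a (c (l 16777912) (l 16779232)) (c (b (l 405505312343) (l 153712856167)) (b (l 411410892311) (l 147270405191))))))) (a (c (l 16773832) (l 16773736)) (a (l 16776472) (c (l 16778256) (l 16778240))))))))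 (a (a (b (b (l 6) (l 16765024)) (c (l 16756880) (l 16761672))) (b (b (c (l 16770016) (l 16769800)) (c (l 16766232) (l 16760704))) (c (l 16763176) (l 16762792)))) (b (b (a (c (a (l 16767480) (l 16774512)) (l 16770848)) (a (a (l 16773176) (l 16774064)) (a (l 16774952) (l 16776168)))) (c (a (l 16769840) (l 16773400)) (a (l 16764384) (l 16773256)))) (b (a (l 16767248) (a (l 16768648) (l 16770440))) (a (l 16762144) (l 16765760)))))), by decide +kernel⟩

def k3_pp_022 : ∃ t, chk3 f_pp_022 t 35 33 1 = true :=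
  ⟨(b (b (l 3) (a (b (l 3) (a (b (l 3) (a (a (b (c (b (l 388862313911) (l 135996115831)) (l 174650822951)) (l 16779096)) (b (l 3) (c (b (l 373829928199) (l 120963730103)) (l 162839662727)))) (l 3))) (l 3))) (l 3))) (a (b (b (a (b (a (c (l 16778120) (l 16778104)) (b (a (c (c (l 154249727367) (l 153175985527)) (l 151565373399)) (l 3)) (a (l 16778960) (a (l 100562636423) (a (l 188072595703) (l 246591525671)))))) (c (a (l 16776240) (l 16777984)) (l 16777080))) (b (l 3) (c (a (a (b (l 130627407239) (l 16776192)) (b (l 427517020535) (l 118279376119))) (l 420000829959)) (a (b (a (l 127406181719) (l 431811987735)) (l 62444801527)) (l 424832668023))))) (a (c (l 16774952) (l 16774872)) (b (a (l 16777832) (b (a (c (l 103246990391) (l 16779072)) (c (l 396915378167) (l 401747216279))) (c (l 51170511879) (l 16779088)))) (c (l 16776824) (l 16776792))))) (b (c (a (l 16773168) (l 16775336)) (a (l 16773016) (l 16773944))) (a (l 16770640) (c (l 16772920) (l 16772768))))) (b (b (l 3) (a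 (b (a (a (c (l 396915379207) (l 401747217303)) (l 3)) (l 3)) (a (b (a (l 79624671303) (c (l 368998090343) (l 374366799383))) (c (l 16778928) (l 16778936))) (b (l 3) (c (l 377588025863) (l 383493605783))))) (l 3))) (b (a (b (b (a (l 16778000) (a (l 16779336) (a (l 186998854423) (l 423222052551)))) (c (l 16777920) (l 16777912))) (c (l 16776528) (l 16776488))) (b (a (b (l 3) (a (c (l 190756950551) (l 195588788679)) (l 3))) (l 3)) (b (a (a (l 16779128) (a (l 145122922887) (l 248739009991))) (l 3)) (a (l 16778608) (a (c (l 162302791783) (l 160155308071)) (l 3)))))) (a (c (l 16773736) (l 16776272)) (b (a (l 16777200) (a (l 16778480) (b (l 149954761879) (l 16778856)))) (l 16777656))))))), by decide +kernel⟩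

def k4_pp_022 : ∃ t, chk3 f_pp_022 t 8 17 1 = true :=
  ⟨(a (a (b (a (l 6) (b (l 6) (a (l 6) (l 16723520)))) (b (a (c (l 16699416) (l 16697904)) (a (l 16684888) (l 16689664))) (a (l 16682632) (l 16692320)))) (b (a (a (b (l 6) (l 16730240)) (b (b (l 6) (l 16724688)) (l 16723720))) (b (b (a (l 16736208) (l 16750512)) (a (l 16728576) (l 16732416))) (a (l 16732880) (l 16736752)))) (b (a (c (l 16717552) (l 16695232)) (b (l 16707760) (l 16700240))) (a (l 16701672) (l 16688976))))) (b (a (b (a (a (b (l 16754288) (l 16736208)) (b (l 16758016) (l 16739960))) (b (c (a (l 16761912) (l 16765512)) (a (l 16750976) (l 16765128))) (a (l 16754144) (l 16757800)))) (b (a (c (l 16730904) (l 16730096)) (c (l 16748776) (l 16737616))) (a (l 16733472) (l 16740968)))) (b (a (a (b (c (l 16766448) (l 16763504)) (l 16761408)) (b (c (l 16767328) (l 16769696)) (l 16764968))) (b (a (c (l 16772096) (l 16770600)) (c (l 16774192) (l 16774072))) (a (l 16768480) (c (l 16772064) (l 16771808))))) (b (a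 (c (l 16755976) (l 16755432)) (c (l 16762984) (l 16762568))) (a (l 16748272) (l 16755392))))) (a (a (b (c (l 16733208) (l 16711128)) (l 16717776)) (b (c (l 16740704) (l 16739728)) (l 16725416))) (b (a (c (l 16748024) (l 16747168)) (c (l 16749904) (l 16754424))) (a (l 16732888) (l 16740168)))))), by decide +kernel⟩

def k5_pp_022 : ∃ t, chk3 f_pp_022 t 9 16 1 = true :=
  ⟨(a (b (l 3) (b (l 3) (a (b (l 3) (a (b (l 3) (a (b (a (b (l 433959472711) (a (l 135996118039) (l 427517020423))) (l 3)) (a (c (l 43654319671) (l 16778720)) (b (a (l 411947763751) (l 3)) (a (l 102710120887) (l 395304770503))))) (l 3))) (l 3))) (l 3)))) (l 3)), by decide +kernel⟩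

def k6_pp_022 : ∃ t, chk3 f_pp_022 t 18 34 1 = true :=
  ⟨(a (b (b (a (a (b (a (l 16777240) (c (l 16779248) (l 16778912))) (l 16775680)) (b (b (a (a (b (l 379198642903) (l 16779480)) (b (l 3) (l 363092512679))) (l 3)) (a (l 16779656) (b (a (l 213842401367) (l 3)) (c (l 118279377575) (l 113447539271))))) (c (l 16779032) (l 16779008)))) (b (l 3) (a (b (a (b (a (l 173577082471) (l 3)) (c (l 95193927847) (l 16779536))) (l 432348861175)) (a (l 16780584) (b (a (l 140827956311) (l 427517020407)) (l 16779792)))) (a (c (l 424295799527) (l 428590766567)) (l 3))))) (a (c (c (l 16773536) (l 16773144)) (c (l 16773064) (l 16772976))) (a (b (c (l 16778648) (l 16778624)) (l 16774968)) (a (b (b (a (l 16779096) (a (l 134385505959) (l 197736274791))) (l 16780176)) (l 16777424)) (b (b (b (l 3) (l 391009799991)) (c (l 94120187175) (l 88751477943))) (l 16779048)))))) (b (a (c (l 16769800) (l 16769512)) (c (l 16772488) (l 16772328))) (a (l 16762320) (c (l 16769184) (l 16768896))))) (b (b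 (l 3) (a (b (a (a (b (l 3) (c (l 377051155719) (l 380809251927))) (l 3)) (l 3)) (a (c (b (a (l 75329704679) (l 356650060487)) (l 16779216)) (b (a (l 16779080) (l 361481898535)) (l 16780544))) (b (l 3) (a (b (l 426980150503) (l 173577084199)) (l 3))))) (l 3))) (b (a (b (a (l 16777816) (b (a (l 16778504) (b (l 398525991575) (l 146196667159))) (l 16780096))) (a (l 16779424) (l 16777376))) (b (a (b (l 3) (a (b (l 368998090807) (l 118279378999)) (l 3))) (l 3)) (a (b (a (l 16780648) (c (l 147270409079) (l 144049183479))) (l 16779624)) (b (l 429127637383) (a (c (l 121500604567) (l 117205637095)) (l 404968443623)))))) (a (a (l 16773976) (l 16777200)) (a (l 16777744) (a (l 16777464) (b (b (l 100562639703) (l 16779912)) (l 16782472)))))))), by decide +kernel⟩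

def k7_pp_022 : ∃ t, chk3 f_pp_022 t 18 35 1 = true :=
  ⟨(a (b (a (c (l 16756848) (l 16756240)) (c (l 16763592) (l 16763120))) (a (l 16747264) (l 16754176))) (b (b (a (l 16768368) (c (l 16774832) (l 16774664))) (a (l 16761176) (l 16767624))) (a (l 16760896) (l 16762184)))), by decide +kernel⟩

def k8_pp_022 : ∃ t, chk3 f_pp_022 t 19 17 1 = true :=
  ⟨(b (b (l 3) (a (b (l 3) (a (b (a (b (a (l 381882995063) (l 3)) (a (l 16780448) (b (l 437180698215) (l 200420630535)))) (l 3)) (a (l 16780672) (b (a (b (l 415168990135) (l 164987149367)) (l 3)) (a (l 16781032) (l 181093279175))))) (l 3))) (l 3))) (b (a (b (b (a (c (l 16777488) (l 16777472)) (a (b (a (l 157470958103) (l 432348860775)) (c (l 81235286423) (l 16781368))) (b (l 3) (l 413558380119)))) (a (l 16779184) (a (l 16783712) (b (a (l 16780824) (l 377051155367)) (l 16780616))))) (a (l 16773864) (c (l 16779928) (l 16779880)))) (b (a (b (l 3) (a (b (l 3) (a (l 349670738103) (l 3))) (l 3))) (l 3)) (a (a (a (l 16780976) (b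 (a (l 16781032) (l 149417896151)) (l 16772832))) (b (b (l 3) (a (l 170892731303) (l 437180699127))) (c (l 16781000) (l 16780224)))) (b (l 3) (a (b (l 417853347447) (a (l 16782264) (l 378661768103))) (l 3)))))) (a (a (b (l 16777296) (l 16770272)) (c (l 16772128) (l 16766648))) (b (a (l 16778816) (b (a (l 16779592) (b (a (l 234243500807) (l 3)) (l 129016801735))) (l 16782816))) (a (l 16782400) (l 16777672)))))), by decide +kernel⟩

def k9_pp_022 : ∃ t, chk3 f_pp_022 t 4 9 1 = true :=
  ⟨(a (b (a (a (b (a (a (l 16655824) (l 16660792)) (b (l 16655352) (l 16639232))) (a (l 16625472) (l 16635648))) (a (b (c (l 16699984) (l 16677144)) (l 16645800)) (b (c (l 16698488) (l 16696736)) (l 16655984)))) (b (a (b (a (l 16681992) (l 16689720)) (a (l 16667280) (l 16675096))) (b (a (l 16697280) (l 16704656)) (l 16717928))) (a (a (l 16686520) (l 16674008)) (a (l 16682040) (l 16689648))))) (a (a (a (l 16615856) (b (l 16581264) (l 16546440))) (b (l 16638720) (l 16583160))) (a (b (a (l 16612376)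 (l 16643712)) (l 16604240)) (b (l 16677592) (l 16646408))))) (b (b (a (a (b (a (l 16732824) (l 16739840)) (l 16722024)) (b (a (l 16746664) (l 16753304)) (l 16735888))) (a (b (a (l 16759752) (l 16766000)) (l 16749000)) (b (a (l 16772056) (l 16772672)) (l 16763976)))) (a (a (a (l 16697088) (l 16704352)) (b (l 16721904) (l 16687040))) (a (b (l 16735240) (l 16721568)) (b (l 16747832) (l 16734400))))) (a (b (a (l 16693528) (l 16708032)) (a (l 16664608) (l 16659496))) (a (b (l 16721832) (l 16673376)) (b (a (l 16710824) (l 16717192)) (l 16686584)))))), by decide +kernel⟩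

def k10_pp_022 : ∃ t, chk3 f_pp_022 t 5 8 1 = true :=
  ⟨(a (b (l 3) (b (l 3) (a (b (l 3) (a (b (a (b (a (l 436643833015) (l 3)) (a (b (a (l 16782800) (l 433959473335)) (l 16781528)) (l 416779607495))) (l 3)) (a (b (a (l 16783576) (c (l 114521287335) (l 110226319671))) (l 16781552)) (b (a (b (l 3) (l 351281352103)) (l 3)) (a (l 83382774151) (b (l 436643829895) (l 191293830327)))))) (l 3))) (l 3)))) (l 3)), by decide +kernel⟩

def k11_pp_022 : ∃ t, chk3 f_pp_022 t 5 18 1 = true :=
  ⟨(a (b (a (b (a (b (a (l 16776480) (c (l 16781856) (l 16781912))) (l 16773792)) (b (a (b (a (b (l 386177962263) (l 143512316999)) (l 439865058423)) (a (l 16784176) (c (l 153175995511) (l 158007833319)))) (b (l 3) (a (l 417316478119) (l 3)))) (a (l 16780520) (b (a (l 116668772871) (l 374903674039)) (l 16783952))))) (a (a (l 16770152) (l 16775744)) (a (l 16781128) (l 16786312)))) (b (a (b (l 3) (a (b (l 3) (a (b (l 426443281783) (l 16783040)) (l 3))) (l 3))) (l 3)) (a (b (a (b (a (l 16784768)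 (l 186461995351)) (l 16782448)) (b (l 432348867751) (a (l 16783888) (l 387788576407)))) (a (l 16788136) (l 16785056))) (b (l 3) (a (b (a (l 334101482983) (l 3)) (c (l 127406194759) (l 123111226935))) (l 431812001015)))))) (a (a (b (l 16759664) (l 16746480)) (b (l 16770712) (l 16757808))) (b (a (l 16780976) (b (a (l 16791328) (b (a (l 16787944) (l 385104221527)) (l 16784360))) (l 16787400))) (a (l 16768368) (l 16775520))))) (b (l 3) (a (b (a (b (a (b (l 3) (a (l 233706638375) (l 446307509447))) (l 3)) (a (c (l 16785744) (l 16784008)) (b (l 425369544487) (l 178945808327)))) (a (l 3) (l 3))) (a (b (l 16787512) (l 16784168)) (a (b (b (l 337322709735) (l 16786400)) (l 16769472)) (b (l 409263419591) (l 112373814695))))) (b (l 3) (a (b (l 3) (a (b (l 436643834903) (l 204715614103)) (l 3))) (l 3)))))), by decide +kernel⟩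

def k12_pp_022 : ∃ t, chk3 f_pp_022 t 5 19 1 = true :=
  ⟨(a (b (a (a (l 16747288) (l 16758928)) (b (a (l 16755592) (l 16765640)) (l 16763128))) (a (a (l 16699088) (l 16731848)) (a (l 16742904) (l 16753176)))) (b (a (b (a (l 16774904) (l 16783400)) (a (l 16741056) (l 16770936))) (b (a (b (a (l 16792488) (l 199883780903)) (l 16788384)) (b (a (l 416242741559) (l 3)) (a (l 16786304) (l 340007076455)))) (a (l 16779264) (l 16789560)))) (a (b (a (l 16727704) (l 16736856)) (l 16761136)) (b (l 16785072) (l 16771440))))), by decide +kernel⟩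

def k13_pp_022 : ∃ t, chk3 f_pp_022 t 2 5 1 = true :=
  ⟨(b (a (b (b (a (a (a (b (l 16513760) (l 16494208)) (l 16545768)) (a (l 16566928) (l 16588120))) (a (a (l 16630656) (l 16650144)) (a (l 16666576) (l 16660104)))) (a (a (a (l 16540584) (l 16560688)) (a (b (l 16514608) (l 16506752)) (c (l 16601712) (l 16600320)))) (b (a (l 16587920) (l 16649608)) (b (a (l 16567968) (l 16588216)) (a (l 16549392) (l 16610256)))))) (a (a (l 16485016) (l 16503048)) (a (a (l 16487808) (l 16509048)) (c (l 16603784) (l 16602632))))) (b (b (a (a (b (l 16685024) (l 16651208)) (b (l 16707112) (l 16694320))) (a (b (l 16727216) (l 16714920)) (b (l 16746448) (l 16735256)))) (b (a (a (l 16659008) (l 16682096)) (a (a (l 16677088) (l 16687656)) (l 16734080))) (b (a (a (l 16626000) (l 16652912)) (a (l 16674304) (l 16714360))) (b (a (a (l 16613376) (l 16646504)) (a (l 16670992) (l 16715592))) (a (a (l 16601136) (l 16639664)) (a (l 16668736) (l 16716656))))))) (a (a (a (l 16573184) (l 16585208)) (l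 16696400)) (a (l 16707024) (l 16731096))))) (a (a (a (a (l 16439752) (l 16465136)) (a (l 16490968) (b (l 16428944) (l 16400200)))) (a (b (l 16507464) (l 16443560)) (b (l 16558480) (l 16498024)))) (a (b (a (l 16584240) (l 16628400)) (a (l 16600128) (l 16715616))) (b (a (l 16719864) (l 16777272)) (a (l 16789928) (l 16837040)))))), by decide +kernel⟩

def k14_pp_022 : ∃ t, chk3 f_pp_022 t 2 3 1 = true :=
  ⟨(b (a (b (a (a (b (l 16321448) (l 16281144)) (b (l 16365152) (l 16353520))) (a (b (l 16428608) (l 16561888)) (b (l 16578880) (l 16722008)))) (a (a (b (l 16271712) (l 16535488)) (b (l 16547152) (l 16741096))) (a (b (l 16730408) (l 16875328)) (l 16907936)))) (b (a (a (b (l 16716744) (l 16827504)) (l 16851560)) (b (l 16885432) (l 16954536))) (a (a (l 16974376) (l 17016440)) (l 17281368)))) (a (a (b (a (b (l 16753360) (l 16927952)) (l 16969480)) (a (l 17125792) (l 17184088))) (b (a (l 17050032) (l 17100656)) (l 17229024))) (b (a (l 17140936) (l 2)) (l 2)))), by decide +kernel⟩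

def k15_pp_022 : ∃ t, chk3 f_pp_022 t 3 2 1 = true :=
  ⟨(b (a (b (l 3) (b (l 3) (a (b (a (b (a (b (l 3) (l 435033233703)) (l 3)) (a (b (a (l 171429622327) (l 399599741623)) (l 16793672)) (b (l 3) (a (l 241759717767) (l 432885741703))))) (l 3)) (a (b (a (l 16783880) (a (l 16791744) (l 97878309063))) (l 16791360)) (b (a (b (l 346986432887) (l 16786576)) (b (l 3) (l 300815511543))) (a (l 16771200) (b (l 130090566343) (l 16777224)))))) (b (l 3) (a (b (l 3) (a (b (a (l 222969235575) (l 299204879655)) (l 115595056183)) (b (l 3) (a (l 177335195959) (l 258939563975))))) (l 3)))))) (b (l 3) (l 3))) (a (b (b (b (a (a (b (a (l 16747576) (l 16760360)) (l 16773344)) (b (a (l 16768136) (l 16793920)) (a (l 16767600) (l 16773568)))) (a (b (a (b (l 16782464) (l 16778736)) (b (a (l 16787520) (l 16789360)) (l 16787224))) (a (l 16777904) (l 16803400))) (b (a (b (a (l 175187699191) (l 266992639175)) (a (l 16791600) (l 16793416))) (b (l 3) (a (l 164987176743) (l 224042977095)))) (a (b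 (l 16791792) (l 16789496)) (b (l 43587262759) (l 16796328)))))) (b (a (a (l 16752696) (l 16783544)) (a (a (l 16781408) (l 16785416)) (b (l 34460466743) (l 16791920)))) (b (a (a (l 16754488) (l 16775936)) (a (l 16787536) (l 16816008))) (a (b (a (l 16755840) (l 16777720)) (a (l 16756920) (l 16779024))) (b (a (l 16789848) (l 16797704)) (a (l 16791472) (l 16799600))))))) (a (a (l 16749632) (l 16772744)) (a (b (l 16799672) (l 16817440)) (b (l 16808840) (l 2))))) (a (b (a (l 16812344) (l 16834384)) (a (l 16865792) (l 16884616))) (b (a (l 16849584) (l 2)) (l 2)))) (b (b (b (b (b (l 3) (l 2)) (l 2)) (l 2)) (l 2)) (l 2)))), by decide +kernel⟩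

def k16_pp_022 : ∃ t, chk3 f_pp_022 t 3 3 1 = true :=
  ⟨(a (b (a (b (b (l 16932032) (l 2)) (l 2)) (l 2)) (l 2)) (l 2)), by decide +kernel⟩

theorem s17_pp_022 : ∃ t, chk3 f_pp_022 t 3 1 1 = true := ex3_b k15_pp_022 k16_pp_022

theorem s18_pp_022 : ∃ t, chk3 f_pp_022 t 5 9 1 = true := ex3_b k11_pp_022 k12_pp_022

theorem s19_pp_022 : ∃ t, chk3 f_pp_022 t 5 4 1 = true := ex3_b k10_pp_022 s18_pp_022

theorem s20_pp_022 : ∃ t, chk3 f_pp_022 t 18 17 1 = true := ex3_b k6_pp_022 k7_pp_022

theorem s21_pp_022 : ∃ t, chk3 f_pp_022 t 9 17 1 = true := ex3_a s20_pp_022 k8_pp_022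

theorem s22_pp_022 : ∃ t, chk3 f_pp_022 t 9 8 1 = true := ex3_b k5_pp_022 s21_pp_022

theorem s23_pp_022 : ∃ t, chk3 f_pp_022 t 17 33 1 = true := ex3_a k2_pp_022 k3_pp_022

theorem s24_pp_022 : ∃ t, chk3 f_pp_022 t 17 16 1 = true := ex3_b k1_pp_022 s23_pp_022

theorem s25_pp_022 : ∃ t, chk3 f_pp_022 t 8 16 1 = true := ex3_a k0_pp_022 s24_pp_022

theorem s26_pp_022 : ∃ t, chk3 f_pp_022 t 8 8 1 = true := ex3_b s25_pp_022 k4_pp_022

theorem s27_pp_022 : ∃ t, chk3 f_pp_022 t 4 8 1 = true := ex3_a s26_pp_022 s22_pp_022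

theorem s28_pp_022 : ∃ t, chk3 f_pp_022 t 4 4 1 = true := ex3_b s27_pp_022 k9_pp_022

theorem s29_pp_022 : ∃ t, chk3 f_pp_022 t 2 4 1 = true := ex3_a s28_pp_022 s19_pp_022

theorem s30_pp_022 : ∃ t, chk3 f_pp_022 t 2 2 1 = true := ex3_b s29_pp_022 k13_pp_022

theorem s31_pp_022 : ∃ t, chk3 f_pp_022 t 2 1 1 = true := ex3_b s30_pp_022 k14_pp_022

theorem s32_pp_022 : ∃ t, chk3 f_pp_022 t 1 1 1 = true := ex3_a s31_pp_022 s17_pp_022

theorem c_pp_022 : CertN 0 536870912 1073741824 536870912 335544320 67108864 3 false true true .pp 0 2 2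
    ndN0q0 ndN4q2 pcN2 cut_pp_022 Ext.none :=
  certN1 (fam := false) (s1 := true) (s2 := true) (a := 0) (b := 2) (c := 2) (cn := .pp) (n1 := ndN0q0) (n2 := ndN4q2) (pc := pcN2) (cut := cut_pp_022) (xt := Ext.none) (P1 := 0) (W1 := 536870912) (P2 := 1073741824) (W2 := 536870912) (P3 := 335544320) (W3 := 67108864) (N0 := 3)
    rfl (fun _ => rfl) s32_pp_022

end Pool.Agent.Strip051.G.I5_16_3_8.Tab.C.NB04

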