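import Pool.Agent.Strip051.PB.DgE
import Pool.Agent.Strip051.G.I5_16_3_8.Fact

/-! # The corner (1, 1, 2): parameters of the degenerate charts (generated) -/

set_option linter.all false

namespace Pool.Agent.Strip051.G.I5_16_3_8.Tab.DG

open Pool.Agent.Strip051.PB Pool.Agent.Strip051.PB.Dg Pool.Agent.StripNear Pool.Agent.Strip051.LC

noncomputable def pFma : Fn1 := ⟨_, _, fun h1 => (enc_norm (enc_add (enc_scale 1320659 2000000 (enc_subr 11 32 h1)) (enc_rat _ 1456 15625)))⟩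
noncomputable def pFmb : Fn1 := ⟨_, _, fun h1 => (enc_norm (enc_subr 478829 10000000 (enc_neg (enc_scale 277327 500000 (enc_subr 11 32 h1)))))⟩
noncomputable def pFmu : Fn1 := ⟨_, _, fun h1 => (mug3.enc h1)⟩
noncomputable def pFnx : Fn1 := ⟨_, _, fun h1 => (enc_norm (enc_add h1 (enc_pnc _ 3)))⟩
noncomputable def pFc0 : Fn1 := ⟨_, _, fun h1 => (enc_pnc _ 1)⟩
noncomputable def pFkc : Fn1 := ⟨_, _, fun h1 => (enc_norm (enc_subr 164687 1000000 (enc_neg (enc_scale 877 100000 (enc_subr 11 32 h1)))))⟩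
noncomputable def pFjc : Fn1 := ⟨_, _, fun h1 => (enc_norm (enc_subr 307099 10000000 (enc_scale 62393 25000 (enc_subr 11 32 h1))))⟩
noncomputable def pFca : Fn1 := ⟨_, _, fun h1 => (enc_norm (enc_sub (enc_rat _ 186 3125) (enc_scale 359859 100000 (enc_subr 11 32 h1))))⟩
noncomputable def pFcb : Fn1 := ⟨_, _, fun h1 => (enc_norm (enc_subr 247771 500000 (enc_scale 124027 25000 (enc_subr 11 32 h1))))⟩
noncomputable def pFcc : Fn1 := ⟨_, _, fun h1 => (enc_norm (enc_sub (enc_rat _ 1699 500000) (enc_scale 63 1250 (enc_subr 11 32 h1))))⟩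
noncomputable def pFsv : Fn1 := ⟨_, _, fun h1 => (enc_norm (enc_subr 1 16 h1))⟩
noncomputable def pFx11 : Fn1 := ⟨_, _, fun h1 => (cv1m.enc h1)⟩
noncomputable def pFx01 : Fn1 := ⟨_, _, fun h1 => (c1g.enc h1)⟩
noncomputable def pFK11 : Fn2 := ⟨_, _, fun h1 h2 => (kf1q1.enc h1 h2)⟩
noncomputable def pFK01 : Fn2 := ⟨_, _, fun h1 h2 => (kf0q1.enc h1 h2)⟩
noncomputable def pFL11 : Fn2 := ⟨_, _, fun h1 h2 => (l1q1.enc h1 h2)⟩
noncomputable def pFL01 : Fn2 := ⟨_, _, fun h1 h2 => (l0q1.enc h1 h2)⟩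
noncomputable def kFc0 : Fn1 := ⟨_, _, fun h1 => (enc_norm (enc_subr 207 50000000 (enc_scale 189 2500000 (enc_subr 11 32 h1))))⟩
noncomputable def kFc0g : Fn1 := ⟨_, _, fun h1 => (enc_norm (enc_subr 1497 500000 (enc_scale 8557 50000 (enc_subr 11 32 h1))))⟩
noncomputable def kFc1 : Fn1 := ⟨_, _, fun h1 => (enc_norm (enc_subr 23 75000000 (enc_scale 823 15000000 (enc_subr 11 32 h1))))⟩
noncomputable def kFc1g : Fn1 := ⟨_, _, fun h1 => (enc_norm (enc_sub (enc_rat _ 119043 500000) (enc_scale 101459 20000 (enc_subr 11 32 h1))))⟩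
noncomputable def kFa0 : Fn1 := ⟨_, _, fun h1 => (enc_norm (enc_sub (enc_rat _ 659 50000000) (enc_scale 9671 30000000 (enc_subr 11 32 h1))))⟩
noncomputable def kFa0g : Fn1 := ⟨_, _, fun h1 => (enc_norm (enc_add (enc_scale 153501 100000 (enc_subr 11 32 h1)) (enc_rat _ 131327 1000000)))⟩
noncomputable def kFa1 : Fn1 := ⟨_, _, fun h1 => (enc_norm (enc_subr 509 50000000 (enc_neg (enc_scale 113 1000000 (enc_subr 11 32 h1)))))⟩
noncomputable def kFa1g : Fn1 := ⟨_, _, fun h1 => (enc_norm (enc_add (enc_scale 9571 100000 (enc_subr 11 32 h1)) (enc_rat _ 246809 1000000)))⟩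
noncomputable def kFb0 : Fn1 := ⟨_, _, fun h1 => (enc_norm (enc_subr 67 4687500 (enc_neg (enc_scale 149 937500 (enc_subr 11 32 h1)))))⟩
noncomputable def kFb0g : Fn1 := ⟨_, _, fun h1 => (enc_norm (enc_sub (enc_rat _ 263343 1000000) (enc_scale 236911 50000 (enc_subr 11 32 h1))))⟩
noncomputable def kFb1 : Fn1 := ⟨_, _, fun h1 => (enc_norm (enc_add (enc_scale 7 3000000 (enc_subr 11 32 h1)) (enc_rat _ 63 2500000)))⟩
noncomputable def kFb1g : Fn1 := ⟨_, _, fun h1 => (enc_norm (enc_subr 25511 500000 (enc_neg (enc_scale 33187 100000 (enc_subr 11 32 h1)))))⟩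
noncomputable def kFd0 : Fn1 := ⟨_, _, fun h1 => (enc_norm (enc_subr 2311 150000000 (enc_neg (enc_scale 19207 30000000 (enc_subr 11 32 h1)))))⟩
noncomputable def kFd0g : Fn1 := ⟨_, _, fun h1 => (enc_norm (enc_sub (enc_rat _ 658013 1000000) (enc_scale 794143 100000 (enc_subr 11 32 h1))))⟩
noncomputable def kFd1 : Fn1 := ⟨_, _, fun h1 => (enc_norm (enc_sub (enc_rat _ 2011 50000000) (enc_scale 13 120000 (enc_subr 11 32 h1))))⟩
noncomputable def kFd1g : Fn1 := ⟨_, _, fun h1 => (enc_norm (enc_sub (enc_rat _ 28953 200000) (enc_scale 56803 100000 (enc_subr 11 32 h1))))⟩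
noncomputable def kFe0 : Fn1 := ⟨_, _, fun h1 => (enc_norm (enc_subr 167 150000000 (enc_neg (enc_scale 4813 10000000 (enc_subr 11 32 h1)))))⟩
noncomputable def kFe0g : Fn1 := ⟨_, _, fun h1 => (enc_norm (enc_sub (enc_rat _ 39467 100000) (enc_scale 320321 100000 (enc_subr 11 32 h1))))⟩
noncomputable def kFe1 : Fn1 := ⟨_, _, fun h1 => (enc_norm (enc_sub (enc_rat _ 751 50000000) (enc_scale 83 750000 (enc_subr 11 32 h1))))⟩
noncomputable def kFe1g : Fn1 := ⟨_, _, fun h1 => (enc_norm (enc_sub (enc_rat _ 195787 1000000) (enc_scale 738 3125 (enc_subr 11 32 h1))))⟩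
noncomputable def cFxs1 : Fn1 := ⟨_, _, fun h1 => (enc_norm (enc_add (enc_scale 2 5 (dgxi.enc h1)) (enc_scale 3 5 (dgws.enc h1))))⟩
noncomputable def cFsB1_5 : Fn2 := ⟨_, _, fun h1 h2 => (enc_subr 11 32 h2)⟩
noncomputable def cFsB1_22 : Fn2 := ⟨_, _, fun h1 h2 => (enc_inv h1)⟩
noncomputable def cFsB1 : Fn2 := ⟨_, _, fun h1 h2 => (enc_norm (enc_case (enc_subr 3 100 h1) (enc_subr 2053 30000 (enc_scale 4669 3000 (cFsB1_5.enc h1 h2))) (enc_case (enc_subr 3 50 h1) (enc_add (enc_subr 169 2500 (enc_scale 467 300 (cFsB1_5.enc h1 h2))) (enc_mul (enc_norm (enc_subr 1 40000 (enc_neg (enc_scale 1 100000 (cFsB1_5.enc h1 h2))))) (cFsB1_22.enc h1 h2))) (enc_add (enc_subr 167 2500 (enc_scale 1559 1000 (cFsB1_5.enc h1 h2))) (enc_mul (enc_norm (enc_subr 73 1000000 (enc_neg (enc_scale 3 20000 (cFsB1_5.enc h1 h2))))) (cFsB1_22.enc h1 h2))))))⟩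
noncomputable def cFBs1 : Fn2 := ⟨_, _, fun h1 h2 => (cFsB1.enc h1 h2)⟩
noncomputable def cFsX1_5 : Fn2 := ⟨_, _, fun h1 h2 => (enc_subr 11 32 h2)⟩
noncomputable def cFsX1_18 : Fn2 := ⟨_, _, fun h1 h2 => (enc_inv h1)⟩
noncomputable def cFsX1 : Fn2 := ⟨_, _, fun h1 h2 => (enc_norm (enc_case (enc_subr 3 100 h1) (enc_add (enc_scale 1691 3000 (cFsX1_5.enc h1 h2)) (enc_rat _ 2203 15000)) (enc_case (enc_subr 3 50 h1) (enc_add (enc_add (enc_scale 106 375 (cFsX1_5.enc h1 h2)) (enc_rat _ 2203 15000)) (enc_mul (enc_norm (enc_scale 843 100000 (cFsX1_5.enc h1 h2))) (cFsX1_18.enc h1 h2))) (enc_add (enc_add (enc_scale 131 500 (cFsX1_5.enc h1 h2)) (enc_rat _ 147 1000)) (enc_mul (enc_norm (enc_subr 1 125000 (enc_scale 967 100000 (cFsX1_5.enc h1 h2)))) (cFsX1_18.enc h1 h2))))))⟩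
noncomputable def nFsc1 : Fn1 := ⟨_, _, fun h1 => (enc_scale 3 5 h1)⟩
noncomputable def nFBv1 : Fn1 := ⟨_, _, fun h1 => (enc_norm (enc_subr 65703 100000 (enc_neg (enc_scale 1 5000 (enc_subr 11 32 h1)))))⟩
noncomputable def nFBm1 : Fn1 := ⟨_, _, fun h1 => (enc_norm (enc_subr 739331 500000 (enc_scale 9 5000 (enc_subr 11 32 h1))))⟩
noncomputable def nFXv1 : Fn1 := ⟨_, _, fun h1 => (enc_norm (enc_subr 256951 1000000 (enc_scale 27 12500 (enc_subr 11 32 h1))))⟩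
noncomputable def nFXm1 : Fn1 := ⟨_, _, fun h1 => (enc_norm (enc_subr 93251 100000 (enc_neg (enc_scale 513 50000 (enc_subr 11 32 h1)))))⟩
noncomputable def nFsc2 : Fn1 := ⟨_, _, fun h1 => (enc_norm (enc_add (enc_scale 17 20 h1) (enc_rat _ 3 20)))⟩
noncomputable def nFBv2 : Fn1 := ⟨_, _, fun h1 => (enc_rat _ 1 2)⟩
noncomputable def nFBm2 : Fn1 := ⟨_, _, fun h1 => (enc_norm (enc_add (enc_scale 141 25000 (enc_subr 11 32 h1)) (enc_rat _ 1117253 500000)))⟩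
noncomputable def nFXv2 : Fn1 := ⟨_, _, fun h1 => (enc_norm (enc_add (enc_scale 897957 4000000 (enc_subr 11 32 h1)) (enc_rat _ 12909 10000000)))⟩
noncomputable def nFXm2 : Fn1 := ⟨_, _, fun h1 => (enc_norm (enc_subr 1526751 5000000 (enc_scale 885477 2000000 (enc_subr 11 32 h1))))⟩
noncomputable def nFsc3 : Fn1 := ⟨_, _, fun h1 => (enc_norm (enc_add (enc_half h1) (enc_rat _ 1 2)))⟩
noncomputable def nFBv3 : Fn1 := ⟨_, _, fun h1 => (enc_rat _ 1 2)⟩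
noncomputable def nFBm3 : Fn1 := ⟨_, _, fun h1 => (enc_norm (enc_add (enc_scale 57 25000 (enc_subr 11 32 h1)) (enc_rat _ 434847 250000)))⟩
noncomputable def nFXv3 : Fn1 := ⟨_, _, fun h1 => (enc_norm (enc_add (enc_scale 897957 4000000 (enc_subr 11 32 h1)) (enc_rat _ 12909 10000000)))⟩
noncomputable def nFXm3 : Fn1 := ⟨_, _, fun h1 => (enc_norm (enc_subr 861761 5000000 (enc_scale 897917 2000000 (enc_subr 11 32 h1))))⟩
noncomputable def l12F : List Knk := [⟨1, 20, kFc0, kFc0g⟩, ⟨11, 100, kFc1, kFc1g⟩]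
noncomputable def laF : List Knk := [⟨1, 20, kFa0, kFa0g⟩, ⟨11, 100, kFa1, kFa1g⟩]
noncomputable def lbF : List Knk := [⟨1, 20, kFb0, kFb0g⟩, ⟨11, 100, kFb1, kFb1g⟩]
noncomputable def l1F : List Knk := [⟨1, 20, kFe0, kFe0g⟩, ⟨11, 100, kFe1, kFe1g⟩]
noncomputable def l2F : List Knk := [⟨1, 20, kFd0, kFd0g⟩, ⟨11, 100, kFd1, kFd1g⟩]
noncomputable def cvF1 : CvP := ⟨cFxs1, cFBs1, cFsX1⟩
noncomputable def ndFP1 : NdP := ⟨nFsc1, nFBv1, nFBm1, nFXv1, nFXm1⟩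
noncomputable def ndFP2 : NdP := ⟨nFsc2, nFBv2, nFBm2, nFXv2, nFXm2⟩
noncomputable def ndFP3 : NdP := ⟨nFsc3, nFBv3, nFBm3, nFXv3, nFXm3⟩
noncomputable def pF : Pm := ⟨pFma, pFmb, pFmu, pFnx, pFc0, pFkc, pFjc, pFkc, pFjc, pFkc, pFjc, pFca, pFcb, pFcc, pFcc, pFcc, pFsv, l12F, l12F, l12F, laF, lbF, l1F, l2F, cvF1, pFx11, pFx01, pFK11, pFK01, pFL11, pFL01⟩
noncomputable def pNc0 : Fn1 := ⟨_, _, fun h1 => (enc_norm (enc_add (enc_pnc _ 1) (enc_mul (mug3.enc h1) (gug.enc h1))))⟩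
noncomputable def pNk12_3 : Fn1 := ⟨_, _, fun h1 => (enc_subr 11 32 h1)⟩
noncomputable def pNk12 : Fn1 := ⟨_, _, fun h1 => (enc_norm (enc_add (enc_mul (pNc0.enc h1) (enc_norm (enc_subr 164687 1000000 (enc_neg (enc_scale 877 100000 (pNk12_3.enc h1)))))) (enc_mul (pFmu.enc h1) (enc_norm (enc_subr 31246 15625 (enc_neg (enc_scale 77279 100000 (pNk12_3.enc h1))))))))⟩
noncomputable def pNj12_3 : Fn1 := ⟨_, _, fun h1 => (enc_subr 11 32 h1)⟩
noncomputable def pNj12 : Fn1 := ⟨_, _, fun h1 => (enc_norm (enc_add (enc_mul (pNc0.enc h1) (enc_norm (enc_subr 307099 10000000 (enc_scale 62393 25000 (pNj12_3.enc h1))))) (enc_mul (pFmu.enc h1) (enc_norm (enc_add (enc_scale 179743268747 154375000000 (pNj12_3.enc h1)) (enc_rat _ 249528886131 49400000000))))))⟩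
noncomputable def pNk23_3 : Fn1 := ⟨_, _, fun h1 => (enc_subr 11 32 h1)⟩
noncomputable def pNk23 : Fn1 := ⟨_, _, fun h1 => (enc_norm (enc_add (enc_mul (pNc0.enc h1) (enc_norm (enc_subr 164687 1000000 (enc_neg (enc_scale 877 100000 (pNk23_3.enc h1)))))) (enc_mul (pFmu.enc h1) (enc_norm (enc_subr 31246 15625 (enc_neg (enc_scale 77279 100000 (pNk23_3.enc h1))))))))⟩
noncomputable def pNj23_3 : Fn1 := ⟨_, _, fun h1 => (enc_subr 11 32 h1)⟩
noncomputable def pNj23 : Fn1 := ⟨_, _, fun h1 => (enc_norm (enc_add (enc_mul (pNc0.enc h1) (enc_norm (enc_subr 307099 10000000 (enc_scale 62393 25000 (pNj23_3.enc h1))))) (enc_mul (pFmu.enc h1) (enc_norm (enc_add (enc_scale 71253 40000 (pNj23_3.enc h1)) (enc_rat _ 160047 40000))))))⟩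
noncomputable def pNk13_3 : Fn1 := ⟨_, _, fun h1 => (enc_subr 11 32 h1)⟩
noncomputable def pNk13 : Fn1 := ⟨_, _, fun h1 => (enc_norm (enc_add (enc_mul (pNc0.enc h1) (enc_norm (enc_subr 164687 1000000 (enc_neg (enc_scale 877 100000 (pNk13_3.enc h1)))))) (enc_mul (pFmu.enc h1) (enc_norm (enc_subr 2467451 1000000 (enc_neg (enc_scale 19 100000 (pNk13_3.enc h1))))))))⟩
noncomputable def pNj13_3 : Fn1 := ⟨_, _, fun h1 => (enc_subr 11 32 h1)⟩
noncomputable def pNj13 : Fn1 := ⟨_, _, fun h1 => (enc_norm (enc_add (enc_mul (pNc0.enc h1) (enc_norm (enc_subr 307099 10000000 (enc_scale 62393 25000 (pNj13_3.enc h1))))) (enc_mul (pFmu.enc h1) (enc_norm (enc_add (enc_scale 38649 50000 (pNj13_3.enc h1)) (enc_rat _ 893439 200000))))))⟩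
noncomputable def pNc12 : Fn1 := ⟨_, _, fun h1 => (enc_norm (enc_mul (pNc0.enc h1) (enc_norm (enc_sub (enc_rat _ 1699 500000) (enc_scale 63 1250 (enc_subr 11 32 h1))))))⟩
noncomputable def pNc23 : Fn1 := ⟨_, _, fun h1 => (enc_norm (enc_mul (pNc0.enc h1) (enc_norm (enc_sub (enc_rat _ 1699 500000) (enc_scale 63 1250 (enc_subr 11 32 h1))))))⟩
noncomputable def pNc13 : Fn1 := ⟨_, _, fun h1 => (enc_norm (enc_mul (pNc0.enc h1) (enc_norm (enc_sub (enc_rat _ 1699 500000) (enc_scale 63 1250 (enc_subr 11 32 h1))))))⟩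
noncomputable def pNK11 : Fn2 := ⟨_, _, fun h1 h2 => (kn1q1.enc h1 h2)⟩
noncomputable def pNK01 : Fn2 := ⟨_, _, fun h1 h2 => (kn0q1.enc h1 h2)⟩
noncomputable def kNc12_0 : Fn1 := ⟨_, _, fun h1 => (enc_norm (enc_mul (pNc0.enc h1) (enc_norm (enc_subr 207 50000000 (enc_scale 189 2500000 (enc_subr 11 32 h1))))))⟩
noncomputable def kNc12_0g : Fn1 := ⟨_, _, fun h1 => (enc_norm (enc_mul (pNc0.enc h1) (enc_norm (enc_subr 1497 500000 (enc_scale 8557 50000 (enc_subr 11 32 h1))))))⟩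
noncomputable def kNc12_1 : Fn1 := ⟨_, _, fun h1 => (enc_norm (enc_mul (pNc0.enc h1) (enc_norm (enc_subr 23 75000000 (enc_scale 823 15000000 (enc_subr 11 32 h1))))))⟩
noncomputable def kNc12_1g : Fn1 := ⟨_, _, fun h1 => (enc_norm (enc_mul (pNc0.enc h1) (enc_norm (enc_sub (enc_rat _ 119043 500000) (enc_scale 101459 20000 (enc_subr 11 32 h1))))))⟩
noncomputable def kNc23_0 : Fn1 := ⟨_, _, fun h1 => (enc_norm (enc_mul (pNc0.enc h1) (enc_norm (enc_subr 207 50000000 (enc_scale 189 2500000 (enc_subr 11 32 h1))))))⟩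
noncomputable def kNc23_0g : Fn1 := ⟨_, _, fun h1 => (enc_norm (enc_mul (pNc0.enc h1) (enc_norm (enc_subr 1497 500000 (enc_scale 8557 50000 (enc_subr 11 32 h1))))))⟩
noncomputable def kNc23_1 : Fn1 := ⟨_, _, fun h1 => (enc_norm (enc_mul (pNc0.enc h1) (enc_norm (enc_subr 23 75000000 (enc_scale 823 15000000 (enc_subr 11 32 h1))))))⟩
noncomputable def kNc23_1g : Fn1 := ⟨_, _, fun h1 => (enc_norm (enc_mul (pNc0.enc h1) (enc_norm (enc_sub (enc_rat _ 119043 500000) (enc_scale 101459 20000 (enc_subr 11 32 h1))))))⟩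
noncomputable def kNc13_0 : Fn1 := ⟨_, _, fun h1 => (enc_norm (enc_mul (pNc0.enc h1) (enc_norm (enc_subr 207 50000000 (enc_scale 189 2500000 (enc_subr 11 32 h1))))))⟩
noncomputable def kNc13_0g : Fn1 := ⟨_, _, fun h1 => (enc_norm (enc_mul (pNc0.enc h1) (enc_norm (enc_subr 1497 500000 (enc_scale 8557 50000 (enc_subr 11 32 h1))))))⟩
noncomputable def kNc13_1 : Fn1 := ⟨_, _, fun h1 => (enc_norm (enc_mul (pNc0.enc h1) (enc_norm (enc_subr 23 75000000 (enc_scale 823 15000000 (enc_subr 11 32 h1))))))⟩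
noncomputable def kNc13_1g : Fn1 := ⟨_, _, fun h1 => (enc_norm (enc_mul (pNc0.enc h1) (enc_norm (enc_sub (enc_rat _ 119043 500000) (enc_scale 101459 20000 (enc_subr 11 32 h1))))))⟩
noncomputable def cNsD1_5 : Fn2 := ⟨_, _, fun h1 h2 => (enc_subr 11 32 h2)⟩
noncomputable def cNsD1_20 : Fn2 := ⟨_, _, fun h1 h2 => (enc_inv h1)⟩
noncomputable def cNsD1 : Fn2 := ⟨_, _, fun h1 h2 => (enc_norm (enc_case (enc_subr 3 100 h1) (enc_add (enc_scale 153 250 (cNsD1_5.enc h1 h2)) (enc_rat _ 119747 30000)) (enc_case (enc_subr 3 50 h1) (enc_add (enc_add (enc_scale 361 600 (cNsD1_5.enc h1 h2)) (enc_rat _ 39923 10000)) (enc_mul (enc_norm (enc_subr 11 500000 (enc_scale 31 100000 (cNsD1_5.enc h1 h2)))) (cNsD1_20.enc h1 h2))) (enc_add (enc_add (enc_scale 3 5 (cNsD1_5.enc h1 h2)) (enc_rat _ 4991 1250)) (enc_mul (enc_norm (enc_subr 13 250000 (enc_scale 41 100000 (cNsD1_5.enc h1 h2)))) (cNsD1_20.enc h1 h2))))))⟩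
noncomputable def cNBs1 : Fn2 := ⟨_, _, fun h1 h2 => (enc_norm (enc_add (enc_mul (pNc0.enc h2) (cFsB1.enc h1 h2)) (enc_mul (pFmu.enc h2) (cNsD1.enc h1 h2))))⟩
noncomputable def nNBv1_3 : Fn1 := ⟨_, _, fun h1 => (enc_subr 11 32 h1)⟩
noncomputable def nNBv1 : Fn1 := ⟨_, _, fun h1 => (enc_norm (enc_add (enc_mul (pNc0.enc h1) (enc_norm (enc_subr 65703 100000 (enc_neg (enc_scale 1 5000 (nNBv1_3.enc h1)))))) (enc_mul (pFmu.enc h1) (enc_norm (enc_sub (enc_rat _ 792511 200000) (enc_scale 1 100000 (nNBv1_3.enc h1)))))))⟩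
noncomputable def nNBm1_3 : Fn1 := ⟨_, _, fun h1 => (enc_subr 11 32 h1)⟩
noncomputable def nNBm1 : Fn1 := ⟨_, _, fun h1 => (enc_norm (enc_add (enc_mul (pNc0.enc h1) (enc_norm (enc_subr 739331 500000 (enc_scale 9 5000 (nNBm1_3.enc h1))))) (enc_mul (pFmu.enc h1) (enc_norm (enc_add (enc_scale 3 50000 (nNBm1_3.enc h1)) (enc_rat _ 141361 31250))))))⟩
noncomputable def nNBv2 : Fn1 := ⟨_, _, fun h1 => (enc_half (pNc0.enc h1))⟩
noncomputable def nNBm2_3 : Fn1 := ⟨_, _, fun h1 => (enc_subr 11 32 h1)⟩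
noncomputable def nNBm2 : Fn1 := ⟨_, _, fun h1 => (enc_norm (enc_add (enc_mul (pNc0.enc h1) (enc_norm (enc_add (enc_scale 141 25000 (nNBm2_3.enc h1)) (enc_rat _ 1117253 500000)))) (enc_mul (pFmu.enc h1) (enc_norm (enc_subr 179953 50000 (enc_scale 13 50000 (nNBm2_3.enc h1)))))))⟩
noncomputable def nNBv3 : Fn1 := ⟨_, _, fun h1 => (enc_half (pNc0.enc h1))⟩
noncomputable def nNBm3_3 : Fn1 := ⟨_, _, fun h1 => (enc_subr 11 32 h1)⟩
noncomputable def nNBm3 : Fn1 := ⟨_, _, fun h1 => (enc_norm (enc_add (enc_mul (pNc0.enc h1) (enc_norm (enc_add (enc_scale 57 25000 (nNBm3_3.enc h1)) (enc_rat _ 434847 250000)))) (enc_mul (pFmu.enc h1) (enc_norm (enc_subr 382843 125000 (enc_scale 9 50000 (nNBm3_3.enc h1)))))))⟩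
noncomputable def l12N : List Knk := [⟨1, 20, kNc12_0, kNc12_0g⟩, ⟨11, 100, kNc12_1, kNc12_1g⟩]
noncomputable def l23N : List Knk := [⟨1, 20, kNc23_0, kNc23_0g⟩, ⟨11, 100, kNc23_1, kNc23_1g⟩]
noncomputable def l13N : List Knk := [⟨1, 20, kNc13_0, kNc13_0g⟩, ⟨11, 100, kNc13_1, kNc13_1g⟩]
noncomputable def cvN1 : CvP := ⟨cFxs1, cNBs1, cFsX1⟩
noncomputable def ndNP1 : NdP := ⟨nFsc1, nNBv1, nNBm1, nFXv1, nFXm1⟩
noncomputable def ndNP2 : NdP := ⟨nFsc2, nNBv2, nNBm2, nFXv2, nFXm2⟩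
noncomputable def ndNP3 : NdP := ⟨nFsc3, nNBv3, nNBm3, nFXv3, nFXm3⟩
noncomputable def pN : Pm := ⟨pFma, pFmb, pFmu, pFnx, pNc0, pNk12, pNj12, pNk23, pNj23, pNk13, pNj13, pFca, pFcb, pNc12, pNc23, pNc13, pFsv, l12N, l23N, l13N, laF, lbF, l1F, l2F, cvN1, pFx11, pFx01, pNK11, pNK01, pFL11, pFL01⟩

end Pool.Agent.Strip051.G.I5_16_3_8.Tab.DG
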