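import Pool.Agent.Strip051.PB.FlAsm
import Pool.Agent.Strip051.G.I5_16_3_8.Tab

/-! # Slopes (generated) -/

set_option linter.all false

namespace Pool.Agent.Strip051.G.I5_16_3_8.Tab

open Pool.Agent.Strip051.PB

attribute [local irreducible] padd psub pneg pmul psq pinv psqrt psqrtg pabs pps pmax pmin pphi
  plam pcase phf pnat prat pscale pnorm pdc pnc pone ppos pnn

noncomputable def c1g_fs : Sl1 c1g := ⟨_, fun h1 => (pr_sqrtg (pr_csub (enc_pnc _ 1) (pr_scale 3 4 (pr_sq h1))))⟩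
noncomputable def kcg_6_fs : Sl2 kcg_6 := ⟨_, fun h1 h2 => (pr_addc h1 (enc_rat _ 11 50))⟩
noncomputable def kcg_9_fs : Sl2 kcg_9 := ⟨_, fun h1 h2 => (pr_addc h1 (enc_rat _ 39 100))⟩
noncomputable def kcg_12_fs : Sl2 kcg_12 := ⟨_, fun h1 h2 => (pr_addc h1 (enc_rat _ 9 20))⟩
noncomputable def kcg_13_fs : Sl2 kcg_13 := ⟨_, fun h1 h2 => (pr_scale 1527 50000 h1)⟩
noncomputable def kcg_16_fs : Sl2 kcg_16 := ⟨_, fun h1 h2 => (pr_scale 6233 2500 h1)⟩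
noncomputable def kcg_36_fs : Sl2 kcg_36 := ⟨_, fun h1 h2 => (pr_scale 607 20000 h1)⟩
noncomputable def kcg_39_fs : Sl2 kcg_39 := ⟨_, fun h1 h2 => (pr_scale 1249 500 h1)⟩
noncomputable def kcg_57_fs : Sl2 kcg_57 := ⟨_, fun h1 h2 => (pr_addc h1 (enc_rat _ 33 100))⟩
noncomputable def kcg_58_fs : Sl2 kcg_58 := ⟨_, fun h1 h2 => (pr_scale 961 60000 h1)⟩
noncomputable def kcg_61_fs : Sl2 kcg_61 := ⟨_, fun h1 h2 => (pr_scale 13249 6000 h1)⟩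
noncomputable def kcg_80_fs : Sl2 kcg_80 := ⟨_, fun h1 h2 => (pr_addc h1 (enc_rat _ 229 829))⟩
noncomputable def kcg_81_fs : Sl2 kcg_81 := ⟨_, fun h1 h2 => (pr_scale 1029618 2785625 h1)⟩
noncomputable def kcg_85_fs : Sl2 kcg_85 := ⟨_, fun h1 h2 => (pr_scale 383827 4457000 h1)⟩
noncomputable def kcg_102_fs : Sl2 kcg_102 := ⟨_, fun h1 h2 => (pr_scale 17318639 23310000 h1)⟩
noncomputable def kcg_107_fs : Sl2 kcg_107 := ⟨_, fun h1 h2 => (pr_scale 1368679 466200 h1)⟩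
noncomputable def kcg_127_fs : Sl2 kcg_127 := ⟨_, fun h1 h2 => (pr_addc h1 (enc_rat _ 3 25))⟩
noncomputable def kcg_130_fs : Sl2 kcg_130 := ⟨_, fun h1 h2 => (pr_addc h1 (enc_rat _ 121 746))⟩
noncomputable def kcg_131_fs : Sl2 kcg_131 := ⟨_, fun h1 h2 => (pr_scale 633727 862400 h1)⟩
noncomputable def kcg_136_fs : Sl2 kcg_136 := ⟨_, fun h1 h2 => (pr_scale 8898661 2156000 h1)⟩
noncomputable def kcg_150_fs : Sl2 kcg_150 := ⟨_, fun h1 h2 => (pr_scale 11410443 15740000 h1)⟩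
noncomputable def kcg_155_fs : Sl2 kcg_155 := ⟨_, fun h1 h2 => (pr_scale 4277937 1574000 h1)⟩
noncomputable def kcg_171_fs : Sl2 kcg_171 := ⟨_, fun h1 h2 => (pr_addc h1 (enc_rat _ 2 25))⟩
noncomputable def kcg_172_fs : Sl2 kcg_172 := ⟨_, fun h1 h2 => (pr_scale 25621 40000 h1)⟩
noncomputable def kcg_177_fs : Sl2 kcg_177 := ⟨_, fun h1 h2 => (pr_scale 11 250 h1)⟩
noncomputable def kcg_194_fs : Sl2 kcg_194 := ⟨_, fun h1 h2 => (pr_scale 10999 45000 h1)⟩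
noncomputable def kcg_199_fs : Sl2 kcg_199 := ⟨_, fun h1 h2 => (pr_scale 3133 2250 h1)⟩
noncomputable def kcg_214_fs : Sl2 kcg_214 := ⟨_, fun h1 h2 => (pr_scale 293 4375 h1)⟩
noncomputable def kcg_218_fs : Sl2 kcg_218 := ⟨_, fun h1 h2 => (pr_cmul (enc_norm (kcg_3.enc h1.l h2)) (pr_nd (pr_scale 5457 3500 h1)))⟩
noncomputable def kcg_226_fs : Sl2 kcg_226 := ⟨_, fun h1 h2 => (pr_csub (enc_rat _ 11 50) h1)⟩
noncomputable def kcg_227_fs : Sl2 kcg_227 := ⟨_, fun h1 h2 => (pr_csub (enc_rat _ 39 100) h1)⟩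
noncomputable def kcg_228_fs : Sl2 kcg_228 := ⟨_, fun h1 h2 => (pr_csub (enc_rat _ 9 20) h1)⟩
noncomputable def kcg_249_fs : Sl2 kcg_249 := ⟨_, fun h1 h2 => (pr_csub (enc_rat _ 33 100) h1)⟩
noncomputable def kcg_259_fs : Sl2 kcg_259 := ⟨_, fun h1 h2 => (pr_csub (enc_rat _ 229 829) h1)⟩
noncomputable def kcg_280_fs : Sl2 kcg_280 := ⟨_, fun h1 h2 => (pr_csub (enc_rat _ 3 25) h1)⟩
noncomputable def kcg_281_fs : Sl2 kcg_281 := ⟨_, fun h1 h2 => (pr_csub (enc_rat _ 121 746) h1)⟩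
noncomputable def kcg_301_fs : Sl2 kcg_301 := ⟨_, fun h1 h2 => (pr_csub (enc_rat _ 2 25) h1)⟩
noncomputable def kcg_fs : Sl2 kcg := ⟨_, fun h1 h2 => (pr_norm (pr_case h1 (pr_case (kcg_6_fs.snd h1 h2) (pr_case (kcg_9_fs.snd h1 h2) (pr_case (kcg_12_fs.snd h1 h2) (pr_add (pr_add (pr_addc (kcg_13_fs.snd h1 h2) (enc_rat _ 179957 1000000)) (pr_cmul (enc_norm (kcg_3.enc h1.l h2)) (pr_norm (pr_subr 123783 100000 (pr_neg (kcg_16_fs.snd h1 h2)))))) (pr_cmul (enc_norm (kcg_28.enc h1.l h2)) (pr_norm (pr_mul (pr_norm (pr_addc h1 (enc_rat _ 1 2))) (pr_norm (pr_csub (enc_neg (enc_rat _ 9 20)) h1)))))) (pr_add (pr_add (pr_addc (kcg_36_fs.snd h1 h2) (enc_rat _ 359743 2000000)) (pr_cmul (enc_norm (kcg_3.enc h1.l h2)) (pr_norm (pr_subr 123999 100000 (pr_neg (kcg_39_fs.snd h1 h2)))))) (pr_cmul (enc_norm (kcg_49.enc h1.l h2)) (pr_norm (pr_mul (pr_norm (kcg_12_fs.snd h1 h2))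 (pr_norm (pr_csub (enc_neg (enc_rat _ 39 100)) h1))))))) (pr_case (kcg_57_fs.snd h1 h2) (pr_add (pr_add (pr_addc (kcg_58_fs.snd h1 h2) (enc_rat _ 348563 2000000)) (pr_cmul (enc_norm (kcg_3.enc h1.l h2)) (pr_norm (pr_subr 225391 200000 (pr_neg (kcg_61_fs.snd h1 h2)))))) (pr_cmul (enc_norm (kcg_73.enc h1.l h2)) (pr_norm (pr_mul (pr_norm (kcg_9_fs.snd h1 h2)) (pr_norm (pr_csub (enc_neg (enc_rat _ 33 100)) h1)))))) (pr_case (kcg_80_fs.snd h1 h2) (pr_add (pr_add (pr_csub (enc_rat _ 52394217 1114250000) (kcg_81_fs.snd h1 h2)) (pr_cmul (enc_norm (kcg_3.enc h1.l h2)) (pr_norm (pr_subr 190170773 445700000 (pr_neg (kcg_85_fs.snd h1 h2)))))) (pr_cmul (enc_norm (kcg_97.enc h1.l h2)) (pr_norm (pr_mul (pr_norm (kcg_57_fs.snd h1 h2)) (pr_norm (pr_csub (enc_neg (enc_rat _ 229 829)) h1)))))) (pr_add (pr_add (pr_subr 8174741 145687500 (pr_neg (kcg_102_fs.snd h1 h2))) (pr_cmul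 (enc_norm (kcg_3.enc h1.l h2)) (pr_norm (pr_addc (kcg_107_fs.snd h1 h2) (enc_rat _ 95125841 233100000))))) (pr_cmul (enc_norm (kcg_117.enc h1.l h2)) (pr_norm (pr_mul (pr_norm (kcg_80_fs.snd h1 h2)) (pr_norm (pr_csub (enc_neg (enc_rat _ 11 50)) h1))))))))) (pr_case (kcg_127_fs.snd h1 h2) (pr_case (kcg_130_fs.snd h1 h2) (pr_add (pr_add (pr_subr 5323659 98000000 (pr_neg (kcg_131_fs.snd h1 h2))) (pr_cmul (enc_norm (kcg_3.enc h1.l h2)) (pr_norm (pr_addc (kcg_136_fs.snd h1 h2) (enc_rat _ 6568319 9800000))))) (pr_cmul (enc_norm (kcg_145.enc h1.l h2)) (pr_norm (pr_mul (pr_norm (kcg_6_fs.snd h1 h2)) (pr_norm (pr_csub (enc_neg (enc_rat _ 121 746)) h1)))))) (pr_add (pr_add (pr_subr 20743723 393500000 (pr_neg (kcg_150_fs.snd h1 h2))) (pr_cmul (enc_norm (kcg_3.enc h1.l h2)) (pr_norm (pr_addc (kcg_155_fs.snd h1 h2) (enc_rat _ 34755111 78700000))))) (pr_cmul (enc_norm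 (kcg_163.enc h1.l h2)) (pr_norm (pr_mul (pr_norm (kcg_130_fs.snd h1 h2)) (pr_norm (pr_csub (enc_neg (enc_rat _ 3 25)) h1))))))) (pr_case (kcg_171_fs.snd h1 h2) (pr_add (pr_add (pr_subr 42587 1000000 (pr_neg (kcg_172_fs.snd h1 h2))) (pr_cmul (enc_norm (kcg_3.enc h1.l h2)) (pr_norm (pr_addc (kcg_177_fs.snd h1 h2) (enc_rat _ 483 4000))))) (pr_cmul (enc_norm (kcg_186.enc h1.l h2)) (pr_norm (pr_mul (pr_norm (kcg_127_fs.snd h1 h2)) (pr_norm (pr_csub (enc_neg (enc_rat _ 2 25)) h1)))))) (pr_case (pr_addc h1 (enc_rat _ 7 200)) (pr_add (pr_add (pr_subr 98089 9000000 (pr_neg (kcg_194_fs.snd h1 h2))) (pr_cmul (enc_norm (kcg_3.enc h1.l h2)) (pr_norm (pr_csub (enc_rat _ 5251 900000) (kcg_199_fs.snd h1 h2))))) (pr_cmul (enc_norm (kcg_209.enc h1.l h2)) (pr_norm (pr_mul (pr_norm (kcg_171_fs.snd h1 h2)) (pr_norm (pr_csub (enc_neg (enc_rat _ 7 200)) h1)))))) (pr_sub (kcg_214_fs.snd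 h1 h2) (kcg_218_fs.snd h1 h2)))))) (pr_neg (pr_case (kcg_226_fs.snd h1 h2) (pr_case (kcg_227_fs.snd h1 h2) (pr_case (kcg_228_fs.snd h1 h2) (pr_add (pr_add (pr_csub (enc_rat _ 179957 1000000) (kcg_13_fs.snd h1 h2)) (pr_cmul (enc_norm (kcg_3.enc h1.l h2)) (pr_norm (pr_subr 123783 100000 (kcg_16_fs.snd h1 h2))))) (pr_cmul (enc_norm (kcg_28.enc h1.l h2)) (pr_norm (pr_mul (pr_norm (pr_csub (enc_rat _ 1 2) h1)) (pr_norm (pr_subr 9 20 h1)))))) (pr_add (pr_add (pr_csub (enc_rat _ 359743 2000000) (kcg_36_fs.snd h1 h2)) (pr_cmul (enc_norm (kcg_3.enc h1.l h2)) (pr_norm (pr_subr 123999 100000 (kcg_39_fs.snd h1 h2))))) (pr_cmul (enc_norm (kcg_49.enc h1.l h2)) (pr_norm (pr_mul (pr_norm (kcg_228_fs.snd h1 h2)) (pr_norm (pr_subr 39 100 h1))))))) (pr_case (kcg_249_fs.snd h1 h2) (pr_add (pr_add (pr_csub (enc_rat _ 348563 2000000) (kcg_58_fs.snd h1 h2)) (pr_cmul (enc_norm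 (kcg_3.enc h1.l h2)) (pr_norm (pr_subr 225391 200000 (kcg_61_fs.snd h1 h2))))) (pr_cmul (enc_norm (kcg_73.enc h1.l h2)) (pr_norm (pr_mul (pr_norm (kcg_227_fs.snd h1 h2)) (pr_norm (pr_subr 33 100 h1)))))) (pr_case (kcg_259_fs.snd h1 h2) (pr_add (pr_add (pr_addc (kcg_81_fs.snd h1 h2) (enc_rat _ 52394217 1114250000)) (pr_cmul (enc_norm (kcg_3.enc h1.l h2)) (pr_norm (pr_subr 190170773 445700000 (kcg_85_fs.snd h1 h2))))) (pr_cmul (enc_norm (kcg_97.enc h1.l h2)) (pr_norm (pr_mul (pr_norm (kcg_249_fs.snd h1 h2)) (pr_norm (pr_subr 229 829 h1)))))) (pr_add (pr_add (pr_subr 8174741 145687500 (kcg_102_fs.snd h1 h2)) (pr_cmul (enc_norm (kcg_3.enc h1.l h2)) (pr_norm (pr_csub (enc_rat _ 95125841 233100000) (kcg_107_fs.snd h1 h2))))) (pr_cmul (enc_norm (kcg_117.enc h1.l h2)) (pr_norm (pr_mul (pr_norm (kcg_259_fs.snd h1 h2)) (pr_norm (pr_subr 11 50 h1))))))))) (pr_case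 (kcg_280_fs.snd h1 h2) (pr_case (kcg_281_fs.snd h1 h2) (pr_add (pr_add (pr_subr 5323659 98000000 (kcg_131_fs.snd h1 h2)) (pr_cmul (enc_norm (kcg_3.enc h1.l h2)) (pr_norm (pr_csub (enc_rat _ 6568319 9800000) (kcg_136_fs.snd h1 h2))))) (pr_cmul (enc_norm (kcg_145.enc h1.l h2)) (pr_norm (pr_mul (pr_norm (kcg_226_fs.snd h1 h2)) (pr_norm (pr_subr 121 746 h1)))))) (pr_add (pr_add (pr_subr 20743723 393500000 (kcg_150_fs.snd h1 h2)) (pr_cmul (enc_norm (kcg_3.enc h1.l h2)) (pr_norm (pr_csub (enc_rat _ 34755111 78700000) (kcg_155_fs.snd h1 h2))))) (pr_cmul (enc_norm (kcg_163.enc h1.l h2)) (pr_norm (pr_mul (pr_norm (kcg_281_fs.snd h1 h2)) (pr_norm (pr_subr 3 25 h1))))))) (pr_case (kcg_301_fs.snd h1 h2) (pr_add (pr_add (pr_subr 42587 1000000 (kcg_172_fs.snd h1 h2)) (pr_cmul (enc_norm (kcg_3.enc h1.l h2)) (pr_norm (pr_csub (enc_rat _ 483 4000) (kcg_177_fs.snd h1 h2)))))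 (pr_cmul (enc_norm (kcg_186.enc h1.l h2)) (pr_norm (pr_mul (pr_norm (kcg_280_fs.snd h1 h2)) (pr_norm (pr_subr 2 25 h1)))))) (pr_case (pr_csub (enc_rat _ 7 200) h1) (pr_add (pr_add (pr_subr 98089 9000000 (kcg_194_fs.snd h1 h2)) (pr_cmul (enc_norm (kcg_3.enc h1.l h2)) (pr_norm (pr_addc (kcg_199_fs.snd h1 h2) (enc_rat _ 5251 900000))))) (pr_cmul (enc_norm (kcg_209.enc h1.l h2)) (pr_norm (pr_mul (pr_norm (kcg_301_fs.snd h1 h2)) (pr_norm (pr_subr 7 200 h1)))))) (pr_sub (kcg_218_fs.snd h1 h2) (kcg_214_fs.snd h1 h2)))))))))⟩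
noncomputable def kf0q0_9_fs : Sl2 kf0q0_9 := ⟨_, fun h1 h2 => (pr_scale 3 2 h1)⟩
noncomputable def kf0q0_12_fs : Sl2 kf0q0_12 := ⟨_, fun h1 h2 => (pr_cadd (enc_pnc _ 1) (c1g_fs.snd h1))⟩
noncomputable def kf0q0_fs : Sl2 kf0q0 := ⟨_, fun h1 h2 => (pr_norm (pr_add (pr_mul (pr_norm (pr_mul (pr_norm (pr_sub (c1g_fs.snd h1) (kf0q0_9_fs.snd h1 h2))) (pr_norm (kf0q0_12_fs.snd h1 h2)))) (pr_nd (pr_inv (pr_sub (kf0q0_12_fs.snd h1 h2) (kf0q0_9_fs.snd h1 h2))))) (pr_mul h1 (kcg_fs.snd (pr_norm (pr_sub (pr_scale 3 4 h1) (pr_half (c1g_fs.snd h1)))) h2))))⟩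
noncomputable def txg_6_fs : Sl3 txg_6 := ⟨_, fun h1 h2 h3 => (pr_add h1 (pr_half h2))⟩
noncomputable def txg_27_fs : Sl3 txg_27 := ⟨_, fun h1 h2 h3 => (pr_addc h1 (enc_rat _ 39 100))⟩
noncomputable def txg_30_fs : Sl3 txg_30 := ⟨_, fun h1 h2 h3 => (pr_addc h1 (enc_rat _ 9 20))⟩
noncomputable def txg_71_fs : Sl3 txg_71 := ⟨_, fun h1 h2 h3 => (pr_addc h1 (enc_rat _ 33 100))⟩
noncomputable def txg_122_fs : Sl3 txg_122 := ⟨_, fun h1 h2 h3 => (pr_addc h1 (enc_rat _ 121 746))⟩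
noncomputable def txg_124_fs : Sl3 txg_124 := ⟨_, fun h1 h2 h3 => (pr_subr 3 25 h1)⟩
noncomputable def txg_127_fs : Sl3 txg_127 := ⟨_, fun h1 h2 h3 => (pr_addc h1 (enc_rat _ 7 200))⟩
noncomputable def txg_129_fs : Sl3 txg_129 := ⟨_, fun h1 h2 h3 => (pr_addc h1 (enc_rat _ 3 25))⟩
noncomputable def txg_157_fs : Sl3 txg_157 := ⟨_, fun h1 h2 h3 => (pr_addc h1 (enc_rat _ 2 25))⟩
noncomputable def txg_200_fs : Sl3 txg_200 := ⟨_, fun h1 h2 h3 => (pr_subr 7 200 h1)⟩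
noncomputable def txg_221_fs : Sl3 txg_221 := ⟨_, fun h1 h2 h3 => (pr_subr 2 25 h1)⟩
noncomputable def txg_266_fs : Sl3 txg_266 := ⟨_, fun h1 h2 h3 => (pr_subr 3453 12500 h1)⟩
noncomputable def txg_268_fs : Sl3 txg_268 := ⟨_, fun h1 h2 h3 => (pr_subr 811 5000 h1)⟩
noncomputable def txg_290_fs : Sl3 txg_290 := ⟨_, fun h1 h2 h3 => (pr_subr 11 50 h1)⟩
noncomputable def txg_331_fs : Sl3 txg_331 := ⟨_, fun h1 h2 h3 => (pr_subr 39 100 h1)⟩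
noncomputable def txg_332_fs : Sl3 txg_332 := ⟨_, fun h1 h2 h3 => (pr_subr 33 100 h1)⟩
noncomputable def txg_376_fs : Sl3 txg_376 := ⟨_, fun h1 h2 h3 => (pr_subr 9 20 h1)⟩
noncomputable def txg_fs : Sl3 txg := ⟨_, fun h1 h2 h3 => (pr_case (pr_addc h1 (enc_rat _ 229 829)) (pr_case (txg_27_fs.snd h1 h2 h3) (pr_case (txg_30_fs.snd h1 h2 h3) (pr_add (pr_add (pr_addc (pr_scale 601 6250 h1) (enc_rat _ 601 12500)) (pr_cmul (enc_norm (txg_4.enc h1.l h2.l h3)) (pr_norm (pr_addc (pr_scale 1201 2500 h1) (enc_rat _ 1201 5000))))) (pr_cmul (enc_norm (enc_subr 186 3125 (enc_scale 359859 100000 (txg_4.enc h1.l h2.l h3)))) (pr_norm (pr_mul (pr_norm (pr_addc h1 (enc_rat _ 1 2))) (pr_norm (pr_csub (enc_neg (enc_rat _ 9 20)) h1)))))) (pr_add (pr_add (pr_addc (pr_scale 553 5000 h1) (enc_rat _ 27289 500000)) (pr_cmul (enc_norm (txg_4.enc h1.l h2.l h3)) (pr_norm (pr_addc (pr_scale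 529 3000 h1) (enc_rat _ 10337 100000))))) (pr_cmul (enc_norm (enc_subr 190847 1000000 (enc_scale 103179 50000 (txg_4.enc h1.l h2.l h3)))) (pr_norm (pr_mul (pr_norm (txg_30_fs.snd h1 h2 h3)) (pr_norm (pr_csub (enc_neg (enc_rat _ 39 100)) h1))))))) (pr_case (txg_71_fs.snd h1 h2 h3) (pr_add (pr_add (pr_addc (pr_scale 1483 10000 h1) (enc_rat _ 69281 1000000)) (pr_cmul (enc_norm (txg_4.enc h1.l h2.l h3)) (pr_norm (pr_csub (enc_rat _ 899 100000) (pr_scale 197 3000 h1))))) (pr_cmul (enc_norm (enc_subr 54707 125000 (enc_scale 196787 100000 (txg_4.enc h1.l h2.l h3)))) (pr_norm (pr_mul (pr_norm (txg_27_fs.snd h1 h2 h3)) (pr_norm (pr_csub (enc_neg (enc_rat _ 33 100)) h1)))))) (pr_add (pr_add (pr_add (pr_addc (pr_scale 26379544429 147794120000 h1) (enc_rat _ 1171167765061 14779412000000)) (pr_cmul (enc_norm (txg_4.enc h1.l h2.l h3)) (pr_norm (pr_csub (enc_rat _ 238725870663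 29558824000000) (pr_scale 20228717369 295588240000 h1))))) (pr_cmul (txg_104.enc h1.l h2.l h3) (pr_norm (pr_subr 120987867 222850000 (pr_neg (pr_scale 3666299 2228500 h1)))))) (pr_cmul (enc_norm (enc_subr 4311 100000 (enc_neg (enc_scale 214341 100000 (txg_4.enc h1.l h2.l h3))))) (pr_norm (pr_mul (pr_norm (txg_71_fs.snd h1 h2 h3)) (pr_norm (pr_csub (enc_neg (enc_rat _ 229 829)) h1)))))))) (pr_case (txg_122_fs.snd h1 h2 h3) (pr_sub (pr_mul (pr_norm (pr_csub (enc_pnc _ 1) h2)) (pr_norm (pr_subn 1 (pr_nat 2 h2)))) (pr_mul (pr_norm (pr_nat 2 (pr_subc (pr_scale 4 3 (txg_6_fs.snd h1 h2 h3)) h3))) (pr_norm (pr_mul (pr_norm (pr_subn 1 (pr_add (pr_scale 2 3 (txg_6_fs.snd h1 h2 h3)) h2))) (kcg_fs.snd h1 h3))))) (pr_case (txg_124_fs.snd h1 h2 h3) (pr_case (txg_127_fs.snd h1 h2 h3) (pr_case (txg_129_fs.snd h1 h2 h3) (pr_add (pr_add (pr_add (pr_addc (pr_scale 211454731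 939363200 h1) (enc_rat _ 53673757543 587102000000)) (pr_cmul (enc_norm (txg_4.enc h1.l h2.l h3)) (pr_norm (pr_subr 1670081981 73387750000 (pr_neg (pr_scale 1477880479 5871020000 h1)))))) (pr_cmul (txg_104.enc h1.l h2.l h3) (pr_norm (pr_subr 1521 2459375 (pr_neg (pr_scale 507 98375 h1)))))) (pr_cmul (enc_norm (enc_add (enc_scale 753 50000 (txg_4.enc h1.l h2.l h3)) (enc_rat _ 785143 1000000))) (pr_norm (pr_mul (pr_norm (txg_122_fs.snd h1 h2 h3)) (pr_norm (pr_csub (enc_neg (enc_rat _ 3 25)) h1)))))) (pr_case (txg_157_fs.snd h1 h2 h3) (pr_add (pr_add (pr_addc (pr_scale 7507 40000 h1) (enc_rat _ 8693 100000)) (pr_cmul (enc_norm (txg_4.enc h1.l h2.l h3)) (pr_norm (pr_subr 307 20000 (pr_neg (pr_scale 19 100 h1)))))) (pr_cmul (enc_norm (enc_sub (enc_rat _ 53441 500000) (enc_scale 3101 2000 (txg_4.enc h1.l h2.l h3)))) (pr_norm (pr_mul (pr_norm (txg_129_fs.snd h1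 h2 h3)) (pr_norm (pr_csub (enc_neg (enc_rat _ 2 25)) h1)))))) (pr_add (pr_add (pr_addc (pr_scale 2233 22500 h1) (enc_rat _ 7187 90000)) (pr_cmul (enc_norm (txg_4.enc h1.l h2.l h3)) (pr_norm (pr_subr 1997 300000 (pr_neg (pr_scale 61 750 h1)))))) (pr_cmul (enc_norm (enc_sub (enc_rat _ 1870537 1000000) (enc_scale 104399 100000 (txg_4.enc h1.l h2.l h3)))) (pr_norm (pr_mul (pr_norm (txg_157_fs.snd h1 h2 h3)) (pr_norm (pr_csub (enc_neg (enc_rat _ 7 200)) h1)))))))) (pr_case (txg_200_fs.snd h1 h2 h3) (pr_add (pr_add (pr_csub (enc_rat _ 30297 400000) (pr_scale 1279 70000 h1)) (pr_cmul (enc_norm (txg_4.enc h1.l h2.l h3)) (pr_norm (pr_subr 147 40000 (pr_scale 27 7000 h1))))) (pr_cmul (enc_norm (enc_sub (enc_rat _ 95237 200000) (enc_scale 5449 10000 (txg_4.enc h1.l h2.l h3)))) (pr_norm (pr_mul (pr_norm (txg_127_fs.snd h1 h2 h3)) (pr_norm (pr_csub (enc_rat _ 7 200)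 h1)))))) (pr_case (txg_221_fs.snd h1 h2 h3) (pr_add (pr_add (pr_csub (enc_rat _ 715421 9000000) (pr_scale 2821 22500 h1)) (pr_cmul (enc_norm (txg_4.enc h1.l h2.l h3)) (pr_norm (pr_subr 179 30000 (pr_scale 26 375 h1))))) (pr_cmul (enc_norm (enc_sub (enc_rat _ 819769 500000) (enc_scale 12109 20000 (txg_4.enc h1.l h2.l h3)))) (pr_norm (pr_mul (pr_norm (txg_200_fs.snd h1 h2 h3)) (pr_norm (pr_csub (enc_rat _ 2 25) h1)))))) (pr_add (pr_add (pr_csub (enc_rat _ 85401 1000000) (pr_scale 797 4000 h1)) (pr_cmul (enc_norm (txg_4.enc h1.l h2.l h3)) (pr_norm (pr_subr 361 25000 (pr_scale 701 4000 h1))))) (pr_cmul (enc_norm (enc_sub (enc_rat _ 531 250000) (enc_scale 39213 20000 (txg_4.enc h1.l h2.l h3)))) (pr_norm (pr_mul (pr_norm (txg_221_fs.snd h1 h2 h3)) (pr_norm (pr_csub (enc_rat _ 3 25) h1))))))))) (pr_case (txg_266_fs.snd h1 h2 h3) (pr_case (txg_268_fs.snd h1 h2 h3)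 (pr_add (pr_add (pr_csub (enc_rat _ 18611601 211000000) (pr_scale 1879 8440 h1)) (pr_cmul (enc_norm (txg_4.enc h1.l h2.l h3)) (pr_norm (pr_subr 541951 21100000 (pr_scale 227 844 h1))))) (pr_cmul (enc_norm (enc_sub (enc_rat _ 552457 1000000) (enc_scale 9293 25000 (txg_4.enc h1.l h2.l h3)))) (pr_norm (pr_mul (pr_norm (txg_124_fs.snd h1 h2 h3)) (pr_norm (pr_csub (enc_rat _ 811 5000) h1)))))) (pr_case (txg_290_fs.snd h1 h2 h3) (pr_add (pr_add (pr_csub (enc_rat _ 25922333 289000000) (pr_scale 13399 57800 h1)) (pr_cmul (enc_norm (txg_4.enc h1.l h2.l h3)) (pr_norm (pr_subr 40837 14450000 (pr_scale 37 289 h1))))) (pr_cmul (enc_norm (enc_subr 244717 1000000 (enc_scale 6781 2500 (txg_4.enc h1.l h2.l h3)))) (pr_norm (pr_mul (pr_norm (txg_268_fs.snd h1 h2 h3)) (pr_norm (pr_csub (enc_rat _ 11 50) h1)))))) (pr_add (pr_add (pr_csub (enc_rat _ 57310991 703000000) (pr_scale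 2737 14060 h1)) (pr_cmul (enc_norm (txg_4.enc h1.l h2.l h3)) (pr_norm (pr_csub (enc_rat _ 1209701 35150000) (pr_scale 29 703 h1))))) (pr_cmul (enc_norm (enc_subr 204553 500000 (enc_scale 557 2500 (txg_4.enc h1.l h2.l h3)))) (pr_norm (pr_mul (pr_norm (txg_290_fs.snd h1 h2 h3)) (pr_norm (pr_csub (enc_rat _ 3453 12500) h1)))))))) (pr_case (txg_331_fs.snd h1 h2 h3) (pr_case (txg_332_fs.snd h1 h2 h3) (pr_add (pr_add (pr_csub (enc_rat _ 514221 7000000) (pr_scale 139 840 h1)) (pr_cmul (enc_norm (txg_4.enc h1.l h2.l h3)) (pr_norm (pr_csub (enc_rat _ 58701 1600000) (pr_scale 19 384 h1))))) (pr_cmul (enc_norm (enc_subr 114971 1000000 (enc_neg (enc_scale 8149 100000 (txg_4.enc h1.l h2.l h3))))) (pr_norm (pr_mul (pr_norm (txg_266_fs.snd h1 h2 h3)) (pr_norm (pr_csub (enc_rat _ 33 100) h1)))))) (pr_add (pr_add (pr_csub (enc_rat _ 131613 2000000) (pr_scale 8537 60000 h1))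 (pr_cmul (enc_norm (txg_4.enc h1.l h2.l h3)) (pr_norm (pr_csub (enc_rat _ 6613 200000) (pr_scale 77 2000 h1))))) (pr_cmul (enc_norm (enc_subr 283221 1000000 (enc_neg (enc_scale 10901 100000 (txg_4.enc h1.l h2.l h3))))) (pr_norm (pr_mul (pr_norm (txg_332_fs.snd h1 h2 h3)) (pr_norm (pr_csub (enc_rat _ 39 100) h1))))))) (pr_case (txg_376_fs.snd h1 h2 h3) (pr_add (pr_add (pr_csub (enc_rat _ 107511 2000000) (pr_scale 6683 60000 h1)) (pr_cmul (enc_norm (txg_4.enc h1.l h2.l h3)) (pr_norm (pr_csub (enc_rat _ 3573 100000) (pr_scale 17 375 h1))))) (pr_cmul (enc_norm (enc_subr 232199 1000000 (enc_scale 11143 50000 (txg_4.enc h1.l h2.l h3)))) (pr_norm (pr_mul (pr_norm (txg_331_fs.snd h1 h2 h3)) (pr_norm (pr_csub (enc_rat _ 9 20) h1)))))) (pr_add (pr_add (pr_csub (enc_rat _ 3633 100000) (pr_scale 3633 50000 h1)) (pr_cmul (enc_norm (txg_4.enc h1.l h2.l h3)) (pr_norm (pr_csub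 (enc_rat _ 1533 10000) (pr_scale 1533 5000 h1))))) (pr_cmul (enc_norm (enc_subr 247771 500000 (enc_scale 124027 25000 (txg_4.enc h1.l h2.l h3)))) (pr_norm (pr_mul (pr_norm (txg_376_fs.snd h1 h2 h3)) (pr_norm (pr_csub (enc_rat _ 1 2) h1))))))))))))⟩
noncomputable def l0q0_fs : Sl2 l0q0 := ⟨_, fun h1 h2 => (pr_norm (txg_fs.snd (pr_norm (pr_sub (pr_scale 3 4 h1) (pr_half (c1g_fs.snd h1)))) (pr_nd (c1g_fs.snd h1)) h2))⟩
noncomputable def swg_fs : Sl1 swg := ⟨_, fun h1 => (pr_sqrt (pr_csub (enc_pnc _ 1) (pr_scale 3 4 (pr_sq (pr_norm (pr_subn 1 h1))))))⟩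
noncomputable def cv1m_fs : Sl1 cv1m := ⟨_, fun h1 => (pr_norm (pr_add (pr_scale 2 5 (c1g_fs.snd h1)) (pr_scale 3 5 (pr_addc (swg_fs.snd h1) (enc_rat _ 1 2)))))⟩
noncomputable def bf1q0_fs : Sl2 bf1q0 := ⟨_, fun h1 h2 => (pr_norm (pr_add (pr_csub (enc_pnc _ 1) (pr_scale 974407 500000 h1)) (pr_cmul (enc_norm (enc_subr 11 32 h2)) (pr_nd (pr_scale 21 25000 h1)))))⟩
noncomputable def kf1q0_fs : Sl2 kf1q0 := ⟨_, fun h1 h2 => (pr_norm (pr_mul (cv1m_fs.snd h1) (bf1q0_fs.snd h1 h2)))⟩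
noncomputable def bx1q0_fs : Sl2 bx1q0 := ⟨_, fun h1 h2 => (pr_norm (pr_add (pr_scale 43949 500000 h1) (pr_cmul (enc_norm (enc_subr 11 32 h2)) (pr_nd (pr_scale 291 50000 h1)))))⟩
noncomputable def l1q0_fs : Sl2 l1q0 := ⟨_, fun h1 h2 => (pr_norm (pr_mul (cv1m_fs.snd h1) (bx1q0_fs.snd h1 h2)))⟩
noncomputable def kf0q1_10_fs : Sl2 kf0q1_10 := ⟨_, fun h1 h2 => (pr_scale 3 2 h1)⟩
noncomputable def kf0q1_fs : Sl2 kf0q1 := ⟨_, fun h1 h2 => (pr_norm (pr_add (pr_mul (pr_norm (pr_mul (pr_norm (pr_cadd (enc_pnc _ 1) (pr_nat 2 (c1g_fs.snd h1)))) (pr_norm (pr_sub (kf0q1_10_fs.snd h1 h2) (c1g_fs.snd h1))))) (pr_nd (pr_inv (pr_nat 2 (pr_sub (pr_cadd (enc_pnc _ 1) (kf0q1_10_fs.snd h1 h2)) (c1g_fs.snd h1)))))) (pr_mul (pr_norm (pr_subn 1 h1)) (kcg_fs.snd (pr_norm (pr_sub (pr_scale 3 4 h1) (pr_half (c1g_fs.snd h1)))) h2))))⟩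
noncomputable def l0q1_fs : Sl2 l0q1 := ⟨_, fun h1 h2 => (pr_norm (txg_fs.snd (pr_norm (pr_sub (pr_scale 3 4 h1) (pr_half (c1g_fs.snd h1)))) (pr_nd (c1g_fs.snd h1)) h2))⟩
noncomputable def cv1p_fs : Sl1 cv1p := ⟨_, fun h1 => (pr_norm (pr_add (pr_scale 2 5 (c1g_fs.snd h1)) (pr_scale 3 5 (pr_subr 1 2 (swg_fs.snd h1)))))⟩
noncomputable def bf1q2_fs : Sl2 bf1q2 := ⟨_, fun h1 h2 => (pr_norm (pr_case (pr_subr 11 10 h1) (pr_case (pr_subr 53 50 h1) (pr_case (pr_subr 103 100 h1) (pr_add (pr_csub (enc_rat _ 32053 30000) (pr_scale 2053 30000 h1)) (pr_cmul (enc_norm (bf1q2_3.enc h1.l h2)) (pr_norm (pr_subr 4669 3000 (pr_scale 4669 3000 h1))))) (pr_add (pr_csub (enc_rat _ 42703 40000) (pr_scale 169 2500 h1)) (pr_cmul (enc_norm (bf1q2_3.enc h1.l h2)) (pr_norm (pr_subr 467003 300000 (pr_scale 467 300 h1)))))) (pr_case (pr_subr 107 100 h1) (pr_add (pr_csub (enc_rat _ 1066727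 1000000) (pr_scale 167 2500 h1)) (pr_cmul (enc_norm (bf1q2_3.enc h1.l h2)) (pr_norm (pr_subr 31183 20000 (pr_scale 1559 1000 h1))))) (pr_add (pr_csub (enc_rat _ 66637 62500) (pr_scale 663 10000 h1)) (pr_cmul (enc_norm (bf1q2_3.enc h1.l h2)) (pr_norm (pr_subr 11707 7500 (pr_scale 2341 1500 h1))))))) (pr_case (pr_subr 231 200 h1) (pr_case (pr_subr 577 500 h1) (pr_add (pr_csub (enc_rat _ 14392327 13500000) (pr_scale 8939 135000 h1)) (pr_cmul (enc_norm (bf1q2_3.enc h1.l h2)) (pr_norm (pr_subr 105407 67500 (pr_scale 21077 13500 h1))))) (pr_add (pr_csub (enc_rat _ 4668 4375) (pr_scale 293 4375 h1)) (pr_cmul (enc_norm (bf1q2_3.enc h1.l h2)) (pr_norm (pr_subr 5457 3500 (pr_scale 5457 3500 h1)))))) (pr_case (pr_subr 5 4 h1) (pr_add (pr_csub (enc_rat _ 3548373 3325000) (pr_scale 5582 83125 h1)) (pr_cmul (enc_norm (bf1q2_3.enc h1.l h2)) (pr_norm (pr_subr 10388859 6650000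 (pr_scale 103861 66500 h1))))) (pr_case (pr_subr 27 20 h1) (pr_add (pr_csub (enc_rat _ 426911 400000) (pr_scale 6723 100000 h1)) (pr_cmul (enc_norm (bf1q2_3.enc h1.l h2)) (pr_norm (pr_subr 312417 200000 (pr_scale 15617 10000 h1))))) (pr_add (pr_csub (enc_rat _ 533641 500000) (pr_scale 2017 30000 h1)) (pr_cmul (enc_norm (bf1q2_3.enc h1.l h2)) (pr_norm (pr_subr 78057 50000 (pr_scale 1561 1000 h1))))))))))⟩
noncomputable def kf1q2_fs : Sl2 kf1q2 := ⟨_, fun h1 h2 => (pr_norm (pr_mul (cv1p_fs.snd h1) (bf1q2_fs.snd h1 h2)))⟩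
noncomputable def bx1q2_13_fs : Sl2 bx1q2_13 := ⟨_, fun h1 h2 => (pr_subr 2203 15000 (pr_scale 2203 15000 h1))⟩
noncomputable def bx1q2_fs : Sl2 bx1q2 := ⟨_, fun h1 h2 => (pr_norm (pr_case (pr_subr 11 10 h1) (pr_case (pr_subr 53 50 h1) (pr_case (pr_subr 103 100 h1) (pr_add (bx1q2_13_fs.snd h1 h2) (pr_cmul (enc_norm (bx1q2_3.enc h1.l h2)) (pr_norm (pr_subr 1691 3000 (pr_scale 1691 3000 h1))))) (pr_add (bx1q2_13_fs.snd h1 h2) (pr_cmul (enc_norm (bx1q2_3.enc h1.l h2)) (pr_norm (pr_subr 82271 300000 (pr_scale 106 375 h1)))))) (pr_case (pr_subr 107 100 h1) (pr_add (pr_subr 2297 15625 (pr_scale 147 1000 h1)) (pr_cmul (enc_norm (bx1q2_3.enc h1.l h2)) (pr_norm (pr_subr 25233 100000 (pr_scale 131 500 h1))))) (pr_add (pr_subr 73611 500000 (pr_scale 92 625 h1)) (pr_cmul (enc_norm (bx1q2_3.enc h1.l h2)) (pr_norm (pr_subr 34051 150000 (pr_scale 143 600 h1))))))) (pr_case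 (pr_subr 231 200 h1) (pr_casec (pr_subr 577 500 h1) (pr_add (pr_subr 40662389 94500000 (pr_scale 76457 189000 h1)) (pr_cmul (enc_norm (bx1q2_3.enc h1.l h2)) (pr_norm (pr_csub (enc_rat _ 1430927 1575000) (pr_scale 2501 3150 h1))))) (enc_sub (enc_rat _ 1279 35000) (enc_scale 27 3500 (bx1q2_3.enc h1.l h2)))) (pr_case (pr_subr 5 4 h1) (pr_add (pr_subr 111353821 133000000 (pr_scale 503091 665000 h1)) (pr_cmul (enc_norm (bx1q2_3.enc h1.l h2)) (pr_norm (pr_subr 18592071 13300000 (pr_scale 80041 66500 h1))))) (pr_case (pr_subr 27 20 h1) (pr_add (pr_subr 714437 1000000 (pr_scale 16457 25000 h1)) (pr_cmul (enc_norm (bx1q2_3.enc h1.l h2)) (pr_norm (pr_subr 288699 200000 (pr_scale 12401 10000 h1))))) (pr_add (pr_subr 178607 250000 (pr_scale 98741 150000 h1)) (pr_cmul (enc_norm (bx1q2_3.enc h1.l h2)) (pr_norm (pr_subr 144219 100000 (pr_scale 18587 15000 h1))))))))))⟩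
noncomputable def l1q2_fs : Sl2 l1q2 := ⟨_, fun h1 h2 => (pr_norm (pr_mul (cv1p_fs.snd h1) (bx1q2_fs.snd h1 h2)))⟩
noncomputable def gsg_fs : Sl1 gsg := ⟨_, fun h1 => (pr_sqrt (pr_csub (enc_pnc _ 1) (pr_scale 3 4 (pr_sq h1))))⟩
noncomputable def gug_fs : Sl1 gug := ⟨_, fun h1 => (pr_norm (pr_add (pr_scale 3 4 h1) (pr_scale 3 2 (pr_csub (enc_pnc _ 1) (gsg_fs.snd h1)))))⟩
noncomputable def kug_2_fs : Sl1 kug_2 := ⟨_, fun h1 => (pr_sq h1)⟩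
noncomputable def kug_fs : Sl1 kug := ⟨_, fun h1 => (pr_norm (pr_add (pr_add (pr_scale 3 4 h1) (pr_scale 3 2 (kug_2_fs.snd h1))) (pr_mul (pr_norm (pr_mul (pr_nd (pr_scale 3 4 (kug_2_fs.snd h1))) (pr_nd (pr_inv (gsg_fs.snd h1))))) (gug_fs.snd h1))))⟩
noncomputable def kp0q0_8_fs : Sl2 kp0q0_8 := ⟨_, fun h1 h2 => (pr_sub (pr_scale 3 4 h1) (pr_half (c1g_fs.snd h1)))⟩
noncomputable def kp0q0_fs : Sl2 kp0q0 := ⟨_, fun h1 h2 => (pr_norm (pr_case (pr_addc (kp0q0_8_fs.snd h1 h2) (enc_rat _ 229 829)) (pr_mul h1 (pr_norm (pr_add (pr_subr 1736655665741 3710000000000 (pr_neg (pr_scale 9155705905741 1855000000000 (kp0q0_8_fs.snd h1 h2)))) (pr_cmul (enc_norm (kp0q0_3.enc h1.l h2)) (pr_norm (pr_addc (pr_scale 115267500041 231875000000 (kp0q0_8_fs.snd h1 h2)) (enc_rat _ 473648862541 463750000000))))))) (pr_case (pr_addc (kp0q0_8_fs.snd h1 h2) (enc_rat _ 121 746)) (pr_sub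 (kug_fs.snd h1) (pr_mul h1 (pr_norm (pr_mul (kcg_fs.snd (pr_norm (kp0q0_8_fs.snd h1 h2)) h2) (pr_norm (pr_add (gug_fs.snd h1) (pr_nat 2 (c1g_fs.snd h1)))))))) (pr_mul h1 (pr_norm (pr_add (pr_csub (enc_rat _ 51954178931 98800000000) (pr_scale 249528886131 49400000000 (kp0q0_8_fs.snd h1 h2))) (pr_cmul (enc_norm (kp0q0_3.enc h1.l h2)) (pr_norm (pr_subr 58855643753 308750000000 (pr_neg (pr_scale 179743268747 154375000000 (kp0q0_8_fs.snd h1 h2))))))))))))⟩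
noncomputable def kn0q0_fs : Sl2 kn0q0 := ⟨_, fun h1 h2 => (pr_norm (pr_add (pr_cmul (enc_norm (enc_add (enc_pnc _ 1) (enc_mul (mug3.enc h2) (gug.enc h2)))) (kf0q0_fs.snd h1 h2)) (pr_cmul (mug3.enc h2) (kp0q0_fs.snd h1 h2))))⟩
noncomputable def bd1q0_fs : Sl2 bd1q0 := ⟨_, fun h1 h2 => (pr_norm (pr_sub (pr_scale 1725401 250000 h1) (pr_cmul (enc_norm (enc_subr 11 32 h2)) (pr_nd (pr_scale 1 25000 h1)))))⟩
noncomputable def kp1q0_fs : Sl2 kp1q0 := ⟨_, fun h1 h2 => (pr_norm (pr_mul (cv1m_fs.snd h1) (bd1q0_fs.snd h1 h2)))⟩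
noncomputable def kn1q0_fs : Sl2 kn1q0 := ⟨_, fun h1 h2 => (pr_norm (pr_add (pr_cmul (enc_norm (enc_add (enc_pnc _ 1) (enc_mul (mug3.enc h2) (gug.enc h2)))) (kf1q0_fs.snd h1 h2)) (pr_cmul (mug3.enc h2) (kp1q0_fs.snd h1 h2))))⟩
noncomputable def kp0q1_9_fs : Sl2 kp0q1_9 := ⟨_, fun h1 h2 => (pr_sub (pr_scale 3 4 h1) (pr_half (c1g_fs.snd h1)))⟩
noncomputable def kp0q1_fs : Sl2 kp0q1 := ⟨_, fun h1 h2 => (pr_norm (pr_mul (pr_norm (pr_subn 1 h1)) (pr_norm (pr_add (pr_csub (enc_rat _ 51954178931 98800000000) (pr_scale 249528886131 49400000000 (kp0q1_9_fs.snd h1 h2))) (pr_cmul (enc_norm (enc_subr 11 32 h2)) (pr_norm (pr_subr 58855643753 308750000000 (pr_neg (pr_scale 179743268747 154375000000 (kp0q1_9_fs.snd h1 h2))))))))))⟩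
noncomputable def kn0q1_fs : Sl2 kn0q1 := ⟨_, fun h1 h2 => (pr_norm (pr_add (pr_cmul (enc_norm (enc_add (enc_pnc _ 1) (enc_mul (mug3.enc h2) (gug.enc h2)))) (kf0q1_fs.snd h1 h2)) (pr_cmul (mug3.enc h2) (kp0q1_fs.snd h1 h2))))⟩
noncomputable def bd1q2_fs : Sl2 bd1q2 := ⟨_, fun h1 h2 => (pr_norm (pr_case (pr_subr 11 10 h1) (pr_case (pr_subr 53 50 h1) (pr_case (pr_subr 103 100 h1) (pr_add (pr_subr 119747 30000 (pr_scale 119747 30000 h1)) (pr_cmul (enc_norm (bd1q2_3.enc h1.l h2)) (pr_norm (pr_subr 153 250 (pr_scale 153 250 h1))))) (pr_add (pr_subr 1996161 500000 (pr_scale 39923 10000 h1)) (pr_cmul (enc_norm (bd1q2_3.enc h1.l h2)) (pr_norm (pr_subr 180407 300000 (pr_scale 361 600 h1)))))) (pr_case (pr_subr 107 100 h1) (pr_add (pr_subr 998213 250000 (pr_scale 4991 1250 h1)) (pr_cmul (enc_norm (bd1q2_3.enc h1.l h2)) (pr_norm (pr_subr 59959 100000 (pr_scale 3 5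 h1))))) (pr_add (pr_subr 5990027 1500000 (pr_scale 59899 15000 h1)) (pr_cmul (enc_norm (bd1q2_3.enc h1.l h2)) (pr_norm (pr_subr 179663 300000 (pr_scale 899 1500 h1))))))) (pr_case (pr_subr 231 200 h1) (pr_case (pr_subr 577 500 h1) (pr_add (pr_subr 26955611 6750000 (pr_scale 5390999 1350000 h1)) (pr_cmul (enc_norm (bd1q2_3.enc h1.l h2)) (pr_norm (pr_subr 1619519 2700000 (pr_scale 40513 67500 h1))))) (pr_add (pr_subr 199637 50000 (pr_scale 199637 50000 h1)) (pr_cmul (enc_norm (bd1q2_3.enc h1.l h2)) (pr_norm (pr_subr 3013 5000 (pr_scale 3013 5000 h1)))))) (pr_case (pr_subr 5 4 h1) (pr_add (pr_subr 75861829 19000000 (pr_scale 3793093 950000 h1)) (pr_cmul (enc_norm (bd1q2_3.enc h1.l h2)) (pr_norm (pr_subr 1074947 1900000 (pr_scale 54217 95000 h1))))) (pr_case (pr_subr 27 20 h1) (pr_add (pr_subr 7985457 2000000 (pr_scale 399273 100000 h1)) (pr_cmul (enc_norm (bd1q2_3.enc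 h1.l h2)) (pr_norm (pr_subr 109251 200000 (pr_scale 5551 10000 h1))))) (pr_add (pr_subr 998181 250000 (pr_scale 598909 150000 h1)) (pr_cmul (enc_norm (bd1q2_3.enc h1.l h2)) (pr_norm (pr_subr 13437 25000 (pr_scale 2743 5000 h1))))))))))⟩
noncomputable def kp1q2_fs : Sl2 kp1q2 := ⟨_, fun h1 h2 => (pr_norm (pr_mul (cv1p_fs.snd h1) (bd1q2_fs.snd h1 h2)))⟩
noncomputable def kn1q2_fs : Sl2 kn1q2 := ⟨_, fun h1 h2 => (pr_norm (pr_add (pr_cmul (enc_norm (enc_add (enc_pnc _ 1) (enc_mul (mug3.enc h2) (gug.enc h2)))) (kf1q2_fs.snd h1 h2)) (pr_cmul (mug3.enc h2) (kp1q2_fs.snd h1 h2))))⟩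
noncomputable def dlg : Fn2 := ⟨_, _, fun h1 h2 => (kcg.enc (enc_norm (enc_sub (enc_scale 3 4 h1) (enc_half (c1g.enc h1)))) h2)⟩

end Pool.Agent.Strip051.G.I5_16_3_8.Tab
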