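import Pool.Agent.Strip051.G.I5_16_3_8.Tab
import Pool.Agent.Strip051.PB.C12G

/-! # Slopes of the tables near the lattice heights (generated) -/

set_option linter.all false

namespace Pool.Agent.Strip051.G.I5_16_3_8.Tab

open Pool.Agent.Strip051.PB

attribute [local irreducible] padd psub pneg pmul psq pinv psqrt psqrtg pabs pps pmax pmin pphi plam
  pcase phf pnat prat pscale pnorm pdc pnc pone ppos pnn Enc pbad pzero

noncomputable def idf_s : Sl1 idf := ⟨fun _ _ D => D, fun h => h⟩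

noncomputable def c1g_s : Sl1 c1g := ⟨_, fun h1 => (pr_sqrtgz (pr_csub (enc_pnc _ 1) (pr_scale 3 4 (pr_sq h1))))⟩
noncomputable def kcg_6_s : Sl2 kcg_6 := ⟨_, fun h1 h2 => (pr_addc h1 (enc_rat _ 11 50))⟩
noncomputable def kcg_9_s : Sl2 kcg_9 := ⟨_, fun h1 h2 => (pr_addc h1 (enc_rat _ 39 100))⟩
noncomputable def kcg_12_s : Sl2 kcg_12 := ⟨_, fun h1 h2 => (pr_addc h1 (enc_rat _ 9 20))⟩
noncomputable def kcg_13_s : Sl2 kcg_13 := ⟨_, fun h1 h2 => (pr_scale 1527 50000 h1)⟩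
noncomputable def kcg_16_s : Sl2 kcg_16 := ⟨_, fun h1 h2 => (pr_scale 6233 2500 h1)⟩
noncomputable def kcg_36_s : Sl2 kcg_36 := ⟨_, fun h1 h2 => (pr_scale 607 20000 h1)⟩
noncomputable def kcg_39_s : Sl2 kcg_39 := ⟨_, fun h1 h2 => (pr_scale 1249 500 h1)⟩
noncomputable def kcg_57_s : Sl2 kcg_57 := ⟨_, fun h1 h2 => (pr_addc h1 (enc_rat _ 33 100))⟩
noncomputable def kcg_58_s : Sl2 kcg_58 := ⟨_, fun h1 h2 => (pr_scale 961 60000 h1)⟩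
noncomputable def kcg_61_s : Sl2 kcg_61 := ⟨_, fun h1 h2 => (pr_scale 13249 6000 h1)⟩
noncomputable def kcg_80_s : Sl2 kcg_80 := ⟨_, fun h1 h2 => (pr_addc h1 (enc_rat _ 229 829))⟩
noncomputable def kcg_81_s : Sl2 kcg_81 := ⟨_, fun h1 h2 => (pr_scale 1029618 2785625 h1)⟩
noncomputable def kcg_85_s : Sl2 kcg_85 := ⟨_, fun h1 h2 => (pr_scale 383827 4457000 h1)⟩
noncomputable def kcg_102_s : Sl2 kcg_102 := ⟨_, fun h1 h2 => (pr_scale 17318639 23310000 h1)⟩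
noncomputable def kcg_107_s : Sl2 kcg_107 := ⟨_, fun h1 h2 => (pr_scale 1368679 466200 h1)⟩
noncomputable def kcg_127_s : Sl2 kcg_127 := ⟨_, fun h1 h2 => (pr_addc h1 (enc_rat _ 3 25))⟩
noncomputable def kcg_130_s : Sl2 kcg_130 := ⟨_, fun h1 h2 => (pr_addc h1 (enc_rat _ 121 746))⟩
noncomputable def kcg_131_s : Sl2 kcg_131 := ⟨_, fun h1 h2 => (pr_scale 633727 862400 h1)⟩
noncomputable def kcg_136_s : Sl2 kcg_136 := ⟨_, fun h1 h2 => (pr_scale 8898661 2156000 h1)⟩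
noncomputable def kcg_150_s : Sl2 kcg_150 := ⟨_, fun h1 h2 => (pr_scale 11410443 15740000 h1)⟩
noncomputable def kcg_155_s : Sl2 kcg_155 := ⟨_, fun h1 h2 => (pr_scale 4277937 1574000 h1)⟩
noncomputable def kcg_171_s : Sl2 kcg_171 := ⟨_, fun h1 h2 => (pr_addc h1 (enc_rat _ 2 25))⟩
noncomputable def kcg_172_s : Sl2 kcg_172 := ⟨_, fun h1 h2 => (pr_scale 25621 40000 h1)⟩
noncomputable def kcg_177_s : Sl2 kcg_177 := ⟨_, fun h1 h2 => (pr_scale 11 250 h1)⟩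
noncomputable def kcg_194_s : Sl2 kcg_194 := ⟨_, fun h1 h2 => (pr_scale 10999 45000 h1)⟩
noncomputable def kcg_199_s : Sl2 kcg_199 := ⟨_, fun h1 h2 => (pr_scale 3133 2250 h1)⟩
noncomputable def kcg_214_s : Sl2 kcg_214 := ⟨_, fun h1 h2 => (pr_scale 293 4375 h1)⟩
noncomputable def kcg_218_s : Sl2 kcg_218 := ⟨_, fun h1 h2 => (pr_cmul (enc_norm (kcg_3.enc h1.l h2)) (pr_nd (pr_scale 5457 3500 h1)))⟩
noncomputable def kcg_226_s : Sl2 kcg_226 := ⟨_, fun h1 h2 => (pr_csub (enc_rat _ 11 50) h1)⟩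
noncomputable def kcg_227_s : Sl2 kcg_227 := ⟨_, fun h1 h2 => (pr_csub (enc_rat _ 39 100) h1)⟩
noncomputable def kcg_228_s : Sl2 kcg_228 := ⟨_, fun h1 h2 => (pr_csub (enc_rat _ 9 20) h1)⟩
noncomputable def kcg_249_s : Sl2 kcg_249 := ⟨_, fun h1 h2 => (pr_csub (enc_rat _ 33 100) h1)⟩
noncomputable def kcg_259_s : Sl2 kcg_259 := ⟨_, fun h1 h2 => (pr_csub (enc_rat _ 229 829) h1)⟩
noncomputable def kcg_280_s : Sl2 kcg_280 := ⟨_, fun h1 h2 => (pr_csub (enc_rat _ 3 25) h1)⟩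
noncomputable def kcg_281_s : Sl2 kcg_281 := ⟨_, fun h1 h2 => (pr_csub (enc_rat _ 121 746) h1)⟩
noncomputable def kcg_301_s : Sl2 kcg_301 := ⟨_, fun h1 h2 => (pr_csub (enc_rat _ 2 25) h1)⟩
noncomputable def kcg_s : Sl2 kcg := ⟨_, fun h1 h2 => (pr_norm (pr_case h1 (pr_case (kcg_6_s.snd h1 h2) (pr_case (kcg_9_s.snd h1 h2) (pr_case (kcg_12_s.snd h1 h2) (pr_add (pr_add (pr_addc (kcg_13_s.snd h1 h2) (enc_rat _ 179957 1000000)) (pr_cmul (enc_norm (kcg_3.enc h1.l h2)) (pr_norm (pr_subr 123783 100000 (pr_neg (kcg_16_s.snd h1 h2)))))) (pr_cmul (enc_norm (kcg_28.enc h1.l h2)) (pr_norm (pr_mul (pr_norm (pr_addc h1 (enc_rat _ 1 2))) (pr_norm (pr_csub (enc_neg (enc_rat _ 9 20)) h1)))))) (pr_add (pr_add (pr_addc (kcg_36_s.snd h1 h2) (enc_rat _ 359743 2000000)) (pr_cmul (enc_norm (kcg_3.enc h1.l h2)) (pr_norm (pr_subr 123999 100000 (pr_neg (kcg_39_s.snd h1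 h2)))))) (pr_cmul (enc_norm (kcg_49.enc h1.l h2)) (pr_norm (pr_mul (pr_norm (kcg_12_s.snd h1 h2)) (pr_norm (pr_csub (enc_neg (enc_rat _ 39 100)) h1))))))) (pr_case (kcg_57_s.snd h1 h2) (pr_add (pr_add (pr_addc (kcg_58_s.snd h1 h2) (enc_rat _ 348563 2000000)) (pr_cmul (enc_norm (kcg_3.enc h1.l h2)) (pr_norm (pr_subr 225391 200000 (pr_neg (kcg_61_s.snd h1 h2)))))) (pr_cmul (enc_norm (kcg_73.enc h1.l h2)) (pr_norm (pr_mul (pr_norm (kcg_9_s.snd h1 h2)) (pr_norm (pr_csub (enc_neg (enc_rat _ 33 100)) h1)))))) (pr_case (kcg_80_s.snd h1 h2) (pr_add (pr_add (pr_csub (enc_rat _ 52394217 1114250000) (kcg_81_s.snd h1 h2)) (pr_cmul (enc_norm (kcg_3.enc h1.l h2)) (pr_norm (pr_subr 190170773 445700000 (pr_neg (kcg_85_s.snd h1 h2)))))) (pr_cmul (enc_norm (kcg_97.enc h1.l h2)) (pr_norm (pr_mul (pr_norm (kcg_57_s.snd h1 h2)) (pr_norm (pr_csub (enc_neg (enc_rat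 _ 229 829)) h1)))))) (pr_add (pr_add (pr_subr 8174741 145687500 (pr_neg (kcg_102_s.snd h1 h2))) (pr_cmul (enc_norm (kcg_3.enc h1.l h2)) (pr_norm (pr_addc (kcg_107_s.snd h1 h2) (enc_rat _ 95125841 233100000))))) (pr_cmul (enc_norm (kcg_117.enc h1.l h2)) (pr_norm (pr_mul (pr_norm (kcg_80_s.snd h1 h2)) (pr_norm (pr_csub (enc_neg (enc_rat _ 11 50)) h1))))))))) (pr_case (kcg_127_s.snd h1 h2) (pr_case (kcg_130_s.snd h1 h2) (pr_add (pr_add (pr_subr 5323659 98000000 (pr_neg (kcg_131_s.snd h1 h2))) (pr_cmul (enc_norm (kcg_3.enc h1.l h2)) (pr_norm (pr_addc (kcg_136_s.snd h1 h2) (enc_rat _ 6568319 9800000))))) (pr_cmul (enc_norm (kcg_145.enc h1.l h2)) (pr_norm (pr_mul (pr_norm (kcg_6_s.snd h1 h2)) (pr_norm (pr_csub (enc_neg (enc_rat _ 121 746)) h1)))))) (pr_add (pr_add (pr_subr 20743723 393500000 (pr_neg (kcg_150_s.snd h1 h2))) (pr_cmul (enc_norm (kcg_3.enc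 h1.l h2)) (pr_norm (pr_addc (kcg_155_s.snd h1 h2) (enc_rat _ 34755111 78700000))))) (pr_cmul (enc_norm (kcg_163.enc h1.l h2)) (pr_norm (pr_mul (pr_norm (kcg_130_s.snd h1 h2)) (pr_norm (pr_csub (enc_neg (enc_rat _ 3 25)) h1))))))) (pr_case (kcg_171_s.snd h1 h2) (pr_add (pr_add (pr_subr 42587 1000000 (pr_neg (kcg_172_s.snd h1 h2))) (pr_cmul (enc_norm (kcg_3.enc h1.l h2)) (pr_norm (pr_addc (kcg_177_s.snd h1 h2) (enc_rat _ 483 4000))))) (pr_cmul (enc_norm (kcg_186.enc h1.l h2)) (pr_norm (pr_mul (pr_norm (kcg_127_s.snd h1 h2)) (pr_norm (pr_csub (enc_neg (enc_rat _ 2 25)) h1)))))) (pr_case (pr_addc h1 (enc_rat _ 7 200)) (pr_add (pr_add (pr_subr 98089 9000000 (pr_neg (kcg_194_s.snd h1 h2))) (pr_cmul (enc_norm (kcg_3.enc h1.l h2)) (pr_norm (pr_csub (enc_rat _ 5251 900000) (kcg_199_s.snd h1 h2))))) (pr_cmul (enc_norm (kcg_209.enc h1.l h2)) (pr_norm (pr_mul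 (pr_norm (kcg_171_s.snd h1 h2)) (pr_norm (pr_csub (enc_neg (enc_rat _ 7 200)) h1)))))) (pr_sub (kcg_214_s.snd h1 h2) (kcg_218_s.snd h1 h2)))))) (pr_neg (pr_case (kcg_226_s.snd h1 h2) (pr_case (kcg_227_s.snd h1 h2) (pr_case (kcg_228_s.snd h1 h2) (pr_add (pr_add (pr_csub (enc_rat _ 179957 1000000) (kcg_13_s.snd h1 h2)) (pr_cmul (enc_norm (kcg_3.enc h1.l h2)) (pr_norm (pr_subr 123783 100000 (kcg_16_s.snd h1 h2))))) (pr_cmul (enc_norm (kcg_28.enc h1.l h2)) (pr_norm (pr_mul (pr_norm (pr_csub (enc_rat _ 1 2) h1)) (pr_norm (pr_subr 9 20 h1)))))) (pr_add (pr_add (pr_csub (enc_rat _ 359743 2000000) (kcg_36_s.snd h1 h2)) (pr_cmul (enc_norm (kcg_3.enc h1.l h2)) (pr_norm (pr_subr 123999 100000 (kcg_39_s.snd h1 h2))))) (pr_cmul (enc_norm (kcg_49.enc h1.l h2)) (pr_norm (pr_mul (pr_norm (kcg_228_s.snd h1 h2)) (pr_norm (pr_subr 39 100 h1))))))) (pr_case (kcg_249_s.snd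 h1 h2) (pr_add (pr_add (pr_csub (enc_rat _ 348563 2000000) (kcg_58_s.snd h1 h2)) (pr_cmul (enc_norm (kcg_3.enc h1.l h2)) (pr_norm (pr_subr 225391 200000 (kcg_61_s.snd h1 h2))))) (pr_cmul (enc_norm (kcg_73.enc h1.l h2)) (pr_norm (pr_mul (pr_norm (kcg_227_s.snd h1 h2)) (pr_norm (pr_subr 33 100 h1)))))) (pr_case (kcg_259_s.snd h1 h2) (pr_add (pr_add (pr_addc (kcg_81_s.snd h1 h2) (enc_rat _ 52394217 1114250000)) (pr_cmul (enc_norm (kcg_3.enc h1.l h2)) (pr_norm (pr_subr 190170773 445700000 (kcg_85_s.snd h1 h2))))) (pr_cmul (enc_norm (kcg_97.enc h1.l h2)) (pr_norm (pr_mul (pr_norm (kcg_249_s.snd h1 h2)) (pr_norm (pr_subr 229 829 h1)))))) (pr_add (pr_add (pr_subr 8174741 145687500 (kcg_102_s.snd h1 h2)) (pr_cmul (enc_norm (kcg_3.enc h1.l h2)) (pr_norm (pr_csub (enc_rat _ 95125841 233100000) (kcg_107_s.snd h1 h2))))) (pr_cmul (enc_norm (kcg_117.enc h1.l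 h2)) (pr_norm (pr_mul (pr_norm (kcg_259_s.snd h1 h2)) (pr_norm (pr_subr 11 50 h1))))))))) (pr_case (kcg_280_s.snd h1 h2) (pr_case (kcg_281_s.snd h1 h2) (pr_add (pr_add (pr_subr 5323659 98000000 (kcg_131_s.snd h1 h2)) (pr_cmul (enc_norm (kcg_3.enc h1.l h2)) (pr_norm (pr_csub (enc_rat _ 6568319 9800000) (kcg_136_s.snd h1 h2))))) (pr_cmul (enc_norm (kcg_145.enc h1.l h2)) (pr_norm (pr_mul (pr_norm (kcg_226_s.snd h1 h2)) (pr_norm (pr_subr 121 746 h1)))))) (pr_add (pr_add (pr_subr 20743723 393500000 (kcg_150_s.snd h1 h2)) (pr_cmul (enc_norm (kcg_3.enc h1.l h2)) (pr_norm (pr_csub (enc_rat _ 34755111 78700000) (kcg_155_s.snd h1 h2))))) (pr_cmul (enc_norm (kcg_163.enc h1.l h2)) (pr_norm (pr_mul (pr_norm (kcg_281_s.snd h1 h2)) (pr_norm (pr_subr 3 25 h1))))))) (pr_case (kcg_301_s.snd h1 h2) (pr_add (pr_add (pr_subr 42587 1000000 (kcg_172_s.snd h1 h2)) (pr_cmul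 (enc_norm (kcg_3.enc h1.l h2)) (pr_norm (pr_csub (enc_rat _ 483 4000) (kcg_177_s.snd h1 h2))))) (pr_cmul (enc_norm (kcg_186.enc h1.l h2)) (pr_norm (pr_mul (pr_norm (kcg_280_s.snd h1 h2)) (pr_norm (pr_subr 2 25 h1)))))) (pr_case (pr_csub (enc_rat _ 7 200) h1) (pr_add (pr_add (pr_subr 98089 9000000 (kcg_194_s.snd h1 h2)) (pr_cmul (enc_norm (kcg_3.enc h1.l h2)) (pr_norm (pr_addc (kcg_199_s.snd h1 h2) (enc_rat _ 5251 900000))))) (pr_cmul (enc_norm (kcg_209.enc h1.l h2)) (pr_norm (pr_mul (pr_norm (kcg_301_s.snd h1 h2)) (pr_norm (pr_subr 7 200 h1)))))) (pr_sub (kcg_218_s.snd h1 h2) (kcg_214_s.snd h1 h2)))))))))⟩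
noncomputable def kf0q0_9_s : Sl2 kf0q0_9 := ⟨_, fun h1 h2 => (pr_scale 3 2 h1)⟩
noncomputable def kf0q0_12_s : Sl2 kf0q0_12 := ⟨_, fun h1 h2 => (pr_cadd (enc_pnc _ 1) (c1g_s.snd h1))⟩
noncomputable def kf0q0_s : Sl2 kf0q0 := ⟨_, fun h1 h2 => (pr_norm (pr_add (pr_mul (pr_norm (pr_mul (pr_norm (pr_sub (c1g_s.snd h1) (kf0q0_9_s.snd h1 h2))) (pr_norm (kf0q0_12_s.snd h1 h2)))) (pr_nd (pr_inv (pr_sub (kf0q0_12_s.snd h1 h2) (kf0q0_9_s.snd h1 h2))))) (pr_mul h1 (kcg_s.snd (pr_norm (pr_sub (pr_scale 3 4 h1) (pr_half (c1g_s.snd h1)))) h2))))⟩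
noncomputable def txg_6_s : Sl3 txg_6 := ⟨_, fun h1 h2 h3 => (pr_add h1 (pr_half h2))⟩
noncomputable def txg_27_s : Sl3 txg_27 := ⟨_, fun h1 h2 h3 => (pr_addc h1 (enc_rat _ 39 100))⟩
noncomputable def txg_30_s : Sl3 txg_30 := ⟨_, fun h1 h2 h3 => (pr_addc h1 (enc_rat _ 9 20))⟩
noncomputable def txg_71_s : Sl3 txg_71 := ⟨_, fun h1 h2 h3 => (pr_addc h1 (enc_rat _ 33 100))⟩
noncomputable def txg_122_s : Sl3 txg_122 := ⟨_, fun h1 h2 h3 => (pr_addc h1 (enc_rat _ 121 746))⟩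
noncomputable def txg_124_s : Sl3 txg_124 := ⟨_, fun h1 h2 h3 => (pr_subr 3 25 h1)⟩
noncomputable def txg_127_s : Sl3 txg_127 := ⟨_, fun h1 h2 h3 => (pr_addc h1 (enc_rat _ 7 200))⟩
noncomputable def txg_129_s : Sl3 txg_129 := ⟨_, fun h1 h2 h3 => (pr_addc h1 (enc_rat _ 3 25))⟩
noncomputable def txg_157_s : Sl3 txg_157 := ⟨_, fun h1 h2 h3 => (pr_addc h1 (enc_rat _ 2 25))⟩
noncomputable def txg_200_s : Sl3 txg_200 := ⟨_, fun h1 h2 h3 => (pr_subr 7 200 h1)⟩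
noncomputable def txg_221_s : Sl3 txg_221 := ⟨_, fun h1 h2 h3 => (pr_subr 2 25 h1)⟩
noncomputable def txg_266_s : Sl3 txg_266 := ⟨_, fun h1 h2 h3 => (pr_subr 3453 12500 h1)⟩
noncomputable def txg_268_s : Sl3 txg_268 := ⟨_, fun h1 h2 h3 => (pr_subr 811 5000 h1)⟩
noncomputable def txg_290_s : Sl3 txg_290 := ⟨_, fun h1 h2 h3 => (pr_subr 11 50 h1)⟩
noncomputable def txg_331_s : Sl3 txg_331 := ⟨_, fun h1 h2 h3 => (pr_subr 39 100 h1)⟩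
noncomputable def txg_332_s : Sl3 txg_332 := ⟨_, fun h1 h2 h3 => (pr_subr 33 100 h1)⟩
noncomputable def txg_376_s : Sl3 txg_376 := ⟨_, fun h1 h2 h3 => (pr_subr 9 20 h1)⟩
noncomputable def txg_s : Sl3 txg := ⟨_, fun h1 h2 h3 => (pr_case (pr_addc h1 (enc_rat _ 229 829)) (pr_case (txg_27_s.snd h1 h2 h3) (pr_case (txg_30_s.snd h1 h2 h3) (pr_add (pr_add (pr_addc (pr_scale 601 6250 h1) (enc_rat _ 601 12500)) (pr_cmul (enc_norm (txg_4.enc h1.l h2.l h3)) (pr_norm (pr_addc (pr_scale 1201 2500 h1) (enc_rat _ 1201 5000))))) (pr_cmul (enc_norm (enc_subr 186 3125 (enc_scale 359859 100000 (txg_4.enc h1.l h2.l h3)))) (pr_norm (pr_mul (pr_norm (pr_addc h1 (enc_rat _ 1 2))) (pr_norm (pr_csub (enc_neg (enc_rat _ 9 20)) h1)))))) (pr_add (pr_add (pr_addc (pr_scale 553 5000 h1) (enc_rat _ 27289 500000)) (pr_cmul (enc_norm (txg_4.enc h1.l h2.l h3)) (pr_norm (pr_addc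 (pr_scale 529 3000 h1) (enc_rat _ 10337 100000))))) (pr_cmul (enc_norm (enc_subr 190847 1000000 (enc_scale 103179 50000 (txg_4.enc h1.l h2.l h3)))) (pr_norm (pr_mul (pr_norm (txg_30_s.snd h1 h2 h3)) (pr_norm (pr_csub (enc_neg (enc_rat _ 39 100)) h1))))))) (pr_case (txg_71_s.snd h1 h2 h3) (pr_add (pr_add (pr_addc (pr_scale 1483 10000 h1) (enc_rat _ 69281 1000000)) (pr_cmul (enc_norm (txg_4.enc h1.l h2.l h3)) (pr_norm (pr_csub (enc_rat _ 899 100000) (pr_scale 197 3000 h1))))) (pr_cmul (enc_norm (enc_subr 54707 125000 (enc_scale 196787 100000 (txg_4.enc h1.l h2.l h3)))) (pr_norm (pr_mul (pr_norm (txg_27_s.snd h1 h2 h3)) (pr_norm (pr_csub (enc_neg (enc_rat _ 33 100)) h1)))))) (pr_add (pr_add (pr_add (pr_addc (pr_scale 26379544429 147794120000 h1) (enc_rat _ 1171167765061 14779412000000)) (pr_cmul (enc_norm (txg_4.enc h1.l h2.l h3)) (pr_norm (pr_csub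 (enc_rat _ 238725870663 29558824000000) (pr_scale 20228717369 295588240000 h1))))) (pr_cmul (txg_104.enc h1.l h2.l h3) (pr_norm (pr_subr 120987867 222850000 (pr_neg (pr_scale 3666299 2228500 h1)))))) (pr_cmul (enc_norm (enc_subr 4311 100000 (enc_neg (enc_scale 214341 100000 (txg_4.enc h1.l h2.l h3))))) (pr_norm (pr_mul (pr_norm (txg_71_s.snd h1 h2 h3)) (pr_norm (pr_csub (enc_neg (enc_rat _ 229 829)) h1)))))))) (pr_case (txg_122_s.snd h1 h2 h3) (pr_sub (pr_mul (pr_norm (pr_csub (enc_pnc _ 1) h2)) (pr_norm (pr_subn 1 (pr_nat 2 h2)))) (pr_mul (pr_norm (pr_nat 2 (pr_subc (pr_scale 4 3 (txg_6_s.snd h1 h2 h3)) h3))) (pr_norm (pr_mul (pr_norm (pr_subn 1 (pr_add (pr_scale 2 3 (txg_6_s.snd h1 h2 h3)) h2))) (kcg_s.snd h1 h3))))) (pr_case (txg_124_s.snd h1 h2 h3) (pr_case (txg_127_s.snd h1 h2 h3) (pr_case (txg_129_s.snd h1 h2 h3) (pr_add (pr_add (pr_add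 (pr_addc (pr_scale 211454731 939363200 h1) (enc_rat _ 53673757543 587102000000)) (pr_cmul (enc_norm (txg_4.enc h1.l h2.l h3)) (pr_norm (pr_subr 1670081981 73387750000 (pr_neg (pr_scale 1477880479 5871020000 h1)))))) (pr_cmul (txg_104.enc h1.l h2.l h3) (pr_norm (pr_subr 1521 2459375 (pr_neg (pr_scale 507 98375 h1)))))) (pr_cmul (enc_norm (enc_add (enc_scale 753 50000 (txg_4.enc h1.l h2.l h3)) (enc_rat _ 785143 1000000))) (pr_norm (pr_mul (pr_norm (txg_122_s.snd h1 h2 h3)) (pr_norm (pr_csub (enc_neg (enc_rat _ 3 25)) h1)))))) (pr_case (txg_157_s.snd h1 h2 h3) (pr_add (pr_add (pr_addc (pr_scale 7507 40000 h1) (enc_rat _ 8693 100000)) (pr_cmul (enc_norm (txg_4.enc h1.l h2.l h3)) (pr_norm (pr_subr 307 20000 (pr_neg (pr_scale 19 100 h1)))))) (pr_cmul (enc_norm (enc_sub (enc_rat _ 53441 500000) (enc_scale 3101 2000 (txg_4.enc h1.l h2.l h3)))) (pr_norm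 (pr_mul (pr_norm (txg_129_s.snd h1 h2 h3)) (pr_norm (pr_csub (enc_neg (enc_rat _ 2 25)) h1)))))) (pr_add (pr_add (pr_addc (pr_scale 2233 22500 h1) (enc_rat _ 7187 90000)) (pr_cmul (enc_norm (txg_4.enc h1.l h2.l h3)) (pr_norm (pr_subr 1997 300000 (pr_neg (pr_scale 61 750 h1)))))) (pr_cmul (enc_norm (enc_sub (enc_rat _ 1870537 1000000) (enc_scale 104399 100000 (txg_4.enc h1.l h2.l h3)))) (pr_norm (pr_mul (pr_norm (txg_157_s.snd h1 h2 h3)) (pr_norm (pr_csub (enc_neg (enc_rat _ 7 200)) h1)))))))) (pr_case (txg_200_s.snd h1 h2 h3) (pr_add (pr_add (pr_csub (enc_rat _ 30297 400000) (pr_scale 1279 70000 h1)) (pr_cmul (enc_norm (txg_4.enc h1.l h2.l h3)) (pr_norm (pr_subr 147 40000 (pr_scale 27 7000 h1))))) (pr_cmul (enc_norm (enc_sub (enc_rat _ 95237 200000) (enc_scale 5449 10000 (txg_4.enc h1.l h2.l h3)))) (pr_norm (pr_mul (pr_norm (txg_127_s.snd h1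 h2 h3)) (pr_norm (pr_csub (enc_rat _ 7 200) h1)))))) (pr_case (txg_221_s.snd h1 h2 h3) (pr_add (pr_add (pr_csub (enc_rat _ 715421 9000000) (pr_scale 2821 22500 h1)) (pr_cmul (enc_norm (txg_4.enc h1.l h2.l h3)) (pr_norm (pr_subr 179 30000 (pr_scale 26 375 h1))))) (pr_cmul (enc_norm (enc_sub (enc_rat _ 819769 500000) (enc_scale 12109 20000 (txg_4.enc h1.l h2.l h3)))) (pr_norm (pr_mul (pr_norm (txg_200_s.snd h1 h2 h3)) (pr_norm (pr_csub (enc_rat _ 2 25) h1)))))) (pr_add (pr_add (pr_csub (enc_rat _ 85401 1000000) (pr_scale 797 4000 h1)) (pr_cmul (enc_norm (txg_4.enc h1.l h2.l h3)) (pr_norm (pr_subr 361 25000 (pr_scale 701 4000 h1))))) (pr_cmul (enc_norm (enc_sub (enc_rat _ 531 250000) (enc_scale 39213 20000 (txg_4.enc h1.l h2.l h3)))) (pr_norm (pr_mul (pr_norm (txg_221_s.snd h1 h2 h3)) (pr_norm (pr_csub (enc_rat _ 3 25) h1))))))))) (pr_case (txg_266_s.snd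 h1 h2 h3) (pr_case (txg_268_s.snd h1 h2 h3) (pr_add (pr_add (pr_csub (enc_rat _ 18611601 211000000) (pr_scale 1879 8440 h1)) (pr_cmul (enc_norm (txg_4.enc h1.l h2.l h3)) (pr_norm (pr_subr 541951 21100000 (pr_scale 227 844 h1))))) (pr_cmul (enc_norm (enc_sub (enc_rat _ 552457 1000000) (enc_scale 9293 25000 (txg_4.enc h1.l h2.l h3)))) (pr_norm (pr_mul (pr_norm (txg_124_s.snd h1 h2 h3)) (pr_norm (pr_csub (enc_rat _ 811 5000) h1)))))) (pr_case (txg_290_s.snd h1 h2 h3) (pr_add (pr_add (pr_csub (enc_rat _ 25922333 289000000) (pr_scale 13399 57800 h1)) (pr_cmul (enc_norm (txg_4.enc h1.l h2.l h3)) (pr_norm (pr_subr 40837 14450000 (pr_scale 37 289 h1))))) (pr_cmul (enc_norm (enc_subr 244717 1000000 (enc_scale 6781 2500 (txg_4.enc h1.l h2.l h3)))) (pr_norm (pr_mul (pr_norm (txg_268_s.snd h1 h2 h3)) (pr_norm (pr_csub (enc_rat _ 11 50) h1)))))) (pr_add (pr_add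 (pr_csub (enc_rat _ 57310991 703000000) (pr_scale 2737 14060 h1)) (pr_cmul (enc_norm (txg_4.enc h1.l h2.l h3)) (pr_norm (pr_csub (enc_rat _ 1209701 35150000) (pr_scale 29 703 h1))))) (pr_cmul (enc_norm (enc_subr 204553 500000 (enc_scale 557 2500 (txg_4.enc h1.l h2.l h3)))) (pr_norm (pr_mul (pr_norm (txg_290_s.snd h1 h2 h3)) (pr_norm (pr_csub (enc_rat _ 3453 12500) h1)))))))) (pr_case (txg_331_s.snd h1 h2 h3) (pr_case (txg_332_s.snd h1 h2 h3) (pr_add (pr_add (pr_csub (enc_rat _ 514221 7000000) (pr_scale 139 840 h1)) (pr_cmul (enc_norm (txg_4.enc h1.l h2.l h3)) (pr_norm (pr_csub (enc_rat _ 58701 1600000) (pr_scale 19 384 h1))))) (pr_cmul (enc_norm (enc_subr 114971 1000000 (enc_neg (enc_scale 8149 100000 (txg_4.enc h1.l h2.l h3))))) (pr_norm (pr_mul (pr_norm (txg_266_s.snd h1 h2 h3)) (pr_norm (pr_csub (enc_rat _ 33 100) h1)))))) (pr_add (pr_add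 (pr_csub (enc_rat _ 131613 2000000) (pr_scale 8537 60000 h1)) (pr_cmul (enc_norm (txg_4.enc h1.l h2.l h3)) (pr_norm (pr_csub (enc_rat _ 6613 200000) (pr_scale 77 2000 h1))))) (pr_cmul (enc_norm (enc_subr 283221 1000000 (enc_neg (enc_scale 10901 100000 (txg_4.enc h1.l h2.l h3))))) (pr_norm (pr_mul (pr_norm (txg_332_s.snd h1 h2 h3)) (pr_norm (pr_csub (enc_rat _ 39 100) h1))))))) (pr_case (txg_376_s.snd h1 h2 h3) (pr_add (pr_add (pr_csub (enc_rat _ 107511 2000000) (pr_scale 6683 60000 h1)) (pr_cmul (enc_norm (txg_4.enc h1.l h2.l h3)) (pr_norm (pr_csub (enc_rat _ 3573 100000) (pr_scale 17 375 h1))))) (pr_cmul (enc_norm (enc_subr 232199 1000000 (enc_scale 11143 50000 (txg_4.enc h1.l h2.l h3)))) (pr_norm (pr_mul (pr_norm (txg_331_s.snd h1 h2 h3)) (pr_norm (pr_csub (enc_rat _ 9 20) h1)))))) (pr_add (pr_add (pr_csub (enc_rat _ 3633 100000) (pr_scale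 3633 50000 h1)) (pr_cmul (enc_norm (txg_4.enc h1.l h2.l h3)) (pr_norm (pr_csub (enc_rat _ 1533 10000) (pr_scale 1533 5000 h1))))) (pr_cmul (enc_norm (enc_subr 247771 500000 (enc_scale 124027 25000 (txg_4.enc h1.l h2.l h3)))) (pr_norm (pr_mul (pr_norm (txg_376_s.snd h1 h2 h3)) (pr_norm (pr_csub (enc_rat _ 1 2) h1))))))))))))⟩
noncomputable def l0q0_s : Sl2 l0q0 := ⟨_, fun h1 h2 => (pr_norm (txg_s.snd (pr_norm (pr_sub (pr_scale 3 4 h1) (pr_half (c1g_s.snd h1)))) (pr_nd (c1g_s.snd h1)) h2))⟩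
noncomputable def kf0q1_10_s : Sl2 kf0q1_10 := ⟨_, fun h1 h2 => (pr_scale 3 2 h1)⟩
noncomputable def kf0q1_s : Sl2 kf0q1 := ⟨_, fun h1 h2 => (pr_norm (pr_add (pr_mul (pr_norm (pr_mul (pr_norm (pr_cadd (enc_pnc _ 1) (pr_nat 2 (c1g_s.snd h1)))) (pr_norm (pr_sub (kf0q1_10_s.snd h1 h2) (c1g_s.snd h1))))) (pr_nd (pr_inv (pr_nat 2 (pr_sub (pr_cadd (enc_pnc _ 1) (kf0q1_10_s.snd h1 h2)) (c1g_s.snd h1)))))) (pr_mul (pr_norm (pr_subn 1 h1)) (kcg_s.snd (pr_norm (pr_sub (pr_scale 3 4 h1) (pr_half (c1g_s.snd h1)))) h2))))⟩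
noncomputable def l0q1_s : Sl2 l0q1 := ⟨_, fun h1 h2 => (pr_norm (txg_s.snd (pr_norm (pr_sub (pr_scale 3 4 h1) (pr_half (c1g_s.snd h1)))) (pr_nd (c1g_s.snd h1)) h2))⟩
noncomputable def yag_s : Sl1 yag := ⟨_, fun h1 => (pr_sqrt (pr_scale 4 3 (pr_csub (enc_pnc _ 1) (pr_sq h1))))⟩
noncomputable def kfc02_s : Sl2 kfc02 := ⟨_, fun h1 h2 => (pr_norm (pr_add h1 (pr_mul (pr_norm (pr_subn 1 (yag_s.snd h1))) (kcg_s.snd (pr_nd (pr_neg h1)) h2))))⟩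
noncomputable def lc02_7_s : Sl2 lc02_7 := ⟨_, fun h1 h2 => (pr_scale 3 4 (yag_s.snd h1))⟩
noncomputable def lc02_8_s : Sl2 lc02_8 := ⟨_, fun h1 h2 => (pr_half h1)⟩
noncomputable def lc02_s : Sl2 lc02 := ⟨_, fun h1 h2 => (pr_norm (pr_sub (txg_s.snd (pr_nd (pr_neg h1)) (pr_norm (pr_add (lc02_7_s.snd h1 h2) (lc02_8_s.snd h1 h2))) h2) (txg_s.snd h1 (pr_norm (pr_sub (lc02_7_s.snd h1 h2) (lc02_8_s.snd h1 h2))) h2)))⟩
noncomputable def swg_s : Sl1 swg := ⟨_, fun h1 => (pr_sqrt (pr_csub (enc_pnc _ 1) (pr_scale 3 4 (pr_sq (pr_norm (pr_subn 1 h1))))))⟩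
noncomputable def cv1m_s : Sl1 cv1m := ⟨_, fun h1 => (pr_norm (pr_add (pr_scale 2 5 (c1g_s.snd h1)) (pr_scale 3 5 (pr_addc (swg_s.snd h1) (enc_rat _ 1 2)))))⟩
noncomputable def bf1q0_s : Sl2 bf1q0 := ⟨_, fun h1 h2 => (pr_norm (pr_add (pr_csub (enc_pnc _ 1) (pr_scale 974407 500000 h1)) (pr_cmul (enc_norm (enc_subr 11 32 h2)) (pr_nd (pr_scale 21 25000 h1)))))⟩
noncomputable def kf1q0_s : Sl2 kf1q0 := ⟨_, fun h1 h2 => (pr_norm (pr_mul (cv1m_s.snd h1) (bf1q0_s.snd h1 h2)))⟩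
noncomputable def bx1q0_s : Sl2 bx1q0 := ⟨_, fun h1 h2 => (pr_norm (pr_add (pr_scale 43949 500000 h1) (pr_cmul (enc_norm (enc_subr 11 32 h2)) (pr_nd (pr_scale 291 50000 h1)))))⟩
noncomputable def l1q0_s : Sl2 l1q0 := ⟨_, fun h1 h2 => (pr_norm (pr_mul (cv1m_s.snd h1) (bx1q0_s.snd h1 h2)))⟩
noncomputable def bf1q1_s : Sl2 bf1q1 := ⟨_, fun h1 h2 => (pr_norm (pr_case (pr_subr 4 5 h1) (pr_case (pr_subr 7 10 h1) (pr_add (pr_subr 791729 500000 (pr_scale 48029 20000 h1)) (pr_cmul (enc_norm (bf1q1_3.enc h1.l h2)) (pr_norm (pr_subr 3413 200000 (pr_scale 163 4000 h1))))) (pr_add (pr_subr 1583451 1000000 (pr_scale 15009 6250 h1)) (pr_cmul (enc_norm (bf1q1_3.enc h1.l h2)) (pr_norm (pr_subr 1703 100000 (pr_scale 407 10000 h1)))))) (pr_case (pr_subr 7 8 h1) (pr_add (pr_subr 4750321 3000000 (pr_scale 180107 75000 h1)) (pr_cmul (enc_norm (bf1q1_3.enc h1.l h2))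 (pr_norm (pr_subr 1743 100000 (pr_scale 103 2500 h1))))) (pr_case (pr_subr 19 20 h1) (pr_add (pr_subr 4750181 3000000 (pr_scale 180103 75000 h1)) (pr_cmul (enc_norm (bf1q1_3.enc h1.l h2)) (pr_norm (pr_subr 5369 300000 (pr_scale 313 7500 h1))))) (pr_add (pr_subr 7917 5000 (pr_scale 120069 50000 h1)) (pr_cmul (enc_norm (bf1q1_3.enc h1.l h2)) (pr_norm (pr_subr 363 20000 (pr_scale 21 500 h1)))))))))⟩
noncomputable def kf1q1_s : Sl2 kf1q1 := ⟨_, fun h1 h2 => (pr_norm (pr_mul (cv1m_s.snd h1) (bf1q1_s.snd h1 h2)))⟩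
noncomputable def bx1q1_s : Sl2 bx1q1 := ⟨_, fun h1 h2 => (pr_norm (pr_case (pr_subr 4 5 h1) (pr_case (pr_subr 7 10 h1) (pr_add (pr_csub (enc_rat _ 24189 200000) (pr_scale 653 6250 h1)) (pr_cmul (enc_norm (bx1q1_3.enc h1.l h2)) (pr_norm (pr_subr 12653 50000 (pr_scale 3267 10000 h1))))) (pr_add (pr_csub (enc_rat _ 120973 1000000) (pr_scale 2613 25000 h1)) (pr_cmul (enc_norm (bx1q1_3.enc h1.l h2)) (pr_norm (pr_subr 2539 10000 (pr_scale 3279 10000 h1)))))) (pr_case (pr_subr 7 8 h1) (pr_add (pr_csub (enc_rat _ 24201 200000) (pr_scale 1307 12500 h1)) (pr_cmul (enc_norm (bx1q1_3.enc h1.l h2)) (pr_norm (pr_subr 12747 50000 (pr_scale 823 2500 h1))))) (pr_case (pr_subr 19 20 h1) (pr_add (pr_csub (enc_rat _ 72631 600000) (pr_scale 3923 37500 h1)) (pr_cmul (enc_norm (bx1q1_3.enc h1.l h2)) (pr_norm (pr_subr 38381 150000 (pr_scale 2477 7500 h1))))) (pr_add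 (pr_csub (enc_rat _ 60529 500000) (pr_scale 5231 50000 h1)) (pr_cmul (enc_norm (bx1q1_3.enc h1.l h2)) (pr_norm (pr_subr 25619 100000 (pr_scale 1653 5000 h1)))))))))⟩
noncomputable def l1q1_s : Sl2 l1q1 := ⟨_, fun h1 h2 => (pr_norm (pr_mul (cv1m_s.snd h1) (bx1q1_s.snd h1 h2)))⟩
noncomputable def cv1p_s : Sl1 cv1p := ⟨_, fun h1 => (pr_norm (pr_add (pr_scale 2 5 (c1g_s.snd h1)) (pr_scale 3 5 (pr_subr 1 2 (swg_s.snd h1)))))⟩
noncomputable def bf1q2_s : Sl2 bf1q2 := ⟨_, fun h1 h2 => (pr_norm (pr_case (pr_subr 11 10 h1) (pr_case (pr_subr 53 50 h1) (pr_case (pr_subr 103 100 h1) (pr_add (pr_csub (enc_rat _ 32053 30000) (pr_scale 2053 30000 h1)) (pr_cmul (enc_norm (bf1q2_3.enc h1.l h2)) (pr_norm (pr_subr 4669 3000 (pr_scale 4669 3000 h1))))) (pr_add (pr_csub (enc_rat _ 42703 40000) (pr_scale 169 2500 h1)) (pr_cmul (enc_norm (bf1q2_3.enc h1.l h2)) (pr_norm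 (pr_subr 467003 300000 (pr_scale 467 300 h1)))))) (pr_case (pr_subr 107 100 h1) (pr_add (pr_csub (enc_rat _ 1066727 1000000) (pr_scale 167 2500 h1)) (pr_cmul (enc_norm (bf1q2_3.enc h1.l h2)) (pr_norm (pr_subr 31183 20000 (pr_scale 1559 1000 h1))))) (pr_add (pr_csub (enc_rat _ 66637 62500) (pr_scale 663 10000 h1)) (pr_cmul (enc_norm (bf1q2_3.enc h1.l h2)) (pr_norm (pr_subr 11707 7500 (pr_scale 2341 1500 h1))))))) (pr_case (pr_subr 231 200 h1) (pr_case (pr_subr 577 500 h1) (pr_add (pr_csub (enc_rat _ 14392327 13500000) (pr_scale 8939 135000 h1)) (pr_cmul (enc_norm (bf1q2_3.enc h1.l h2)) (pr_norm (pr_subr 105407 67500 (pr_scale 21077 13500 h1))))) (pr_add (pr_csub (enc_rat _ 4668 4375) (pr_scale 293 4375 h1)) (pr_cmul (enc_norm (bf1q2_3.enc h1.l h2)) (pr_norm (pr_subr 5457 3500 (pr_scale 5457 3500 h1)))))) (pr_case (pr_subr 5 4 h1) (pr_add (pr_csub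 (enc_rat _ 3548373 3325000) (pr_scale 5582 83125 h1)) (pr_cmul (enc_norm (bf1q2_3.enc h1.l h2)) (pr_norm (pr_subr 10388859 6650000 (pr_scale 103861 66500 h1))))) (pr_case (pr_subr 27 20 h1) (pr_add (pr_csub (enc_rat _ 426911 400000) (pr_scale 6723 100000 h1)) (pr_cmul (enc_norm (bf1q2_3.enc h1.l h2)) (pr_norm (pr_subr 312417 200000 (pr_scale 15617 10000 h1))))) (pr_add (pr_csub (enc_rat _ 533641 500000) (pr_scale 2017 30000 h1)) (pr_cmul (enc_norm (bf1q2_3.enc h1.l h2)) (pr_norm (pr_subr 78057 50000 (pr_scale 1561 1000 h1))))))))))⟩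
noncomputable def kf1q2_s : Sl2 kf1q2 := ⟨_, fun h1 h2 => (pr_norm (pr_mul (cv1p_s.snd h1) (bf1q2_s.snd h1 h2)))⟩
noncomputable def bx1q2_13_s : Sl2 bx1q2_13 := ⟨_, fun h1 h2 => (pr_subr 2203 15000 (pr_scale 2203 15000 h1))⟩
noncomputable def bx1q2_s : Sl2 bx1q2 := ⟨_, fun h1 h2 => (pr_norm (pr_case (pr_subr 11 10 h1) (pr_case (pr_subr 53 50 h1) (pr_case (pr_subr 103 100 h1) (pr_add (bx1q2_13_s.snd h1 h2) (pr_cmul (enc_norm (bx1q2_3.enc h1.l h2)) (pr_norm (pr_subr 1691 3000 (pr_scale 1691 3000 h1))))) (pr_add (bx1q2_13_s.snd h1 h2) (pr_cmul (enc_norm (bx1q2_3.enc h1.l h2)) (pr_norm (pr_subr 82271 300000 (pr_scale 106 375 h1)))))) (pr_case (pr_subr 107 100 h1) (pr_add (pr_subr 2297 15625 (pr_scale 147 1000 h1)) (pr_cmul (enc_norm (bx1q2_3.enc h1.l h2)) (pr_norm (pr_subr 25233 100000 (pr_scale 131 500 h1))))) (pr_add (pr_subr 73611 500000 (pr_scale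 92 625 h1)) (pr_cmul (enc_norm (bx1q2_3.enc h1.l h2)) (pr_norm (pr_subr 34051 150000 (pr_scale 143 600 h1))))))) (pr_case (pr_subr 231 200 h1) (pr_casec (pr_subr 577 500 h1) (pr_add (pr_subr 40662389 94500000 (pr_scale 76457 189000 h1)) (pr_cmul (enc_norm (bx1q2_3.enc h1.l h2)) (pr_norm (pr_csub (enc_rat _ 1430927 1575000) (pr_scale 2501 3150 h1))))) (enc_sub (enc_rat _ 1279 35000) (enc_scale 27 3500 (bx1q2_3.enc h1.l h2)))) (pr_case (pr_subr 5 4 h1) (pr_add (pr_subr 111353821 133000000 (pr_scale 503091 665000 h1)) (pr_cmul (enc_norm (bx1q2_3.enc h1.l h2)) (pr_norm (pr_subr 18592071 13300000 (pr_scale 80041 66500 h1))))) (pr_case (pr_subr 27 20 h1) (pr_add (pr_subr 714437 1000000 (pr_scale 16457 25000 h1)) (pr_cmul (enc_norm (bx1q2_3.enc h1.l h2)) (pr_norm (pr_subr 288699 200000 (pr_scale 12401 10000 h1))))) (pr_add (pr_subr 178607 250000 (pr_scale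 98741 150000 h1)) (pr_cmul (enc_norm (bx1q2_3.enc h1.l h2)) (pr_norm (pr_subr 144219 100000 (pr_scale 18587 15000 h1))))))))))⟩
noncomputable def l1q2_s : Sl2 l1q2 := ⟨_, fun h1 h2 => (pr_norm (pr_mul (cv1p_s.snd h1) (bx1q2_s.snd h1 h2)))⟩
noncomputable def cv1r_s : Sl1 cv1r := ⟨_, fun h1 => (pr_norm (pr_scale 3 5 (pr_subr 1 2 (swg_s.snd h1))))⟩
noncomputable def bf1q3_s : Sl2 bf1q3 := ⟨_, fun h1 h2 => (pr_norm (pr_add (pr_csub (enc_rat _ 1150147 500000) (pr_scale 739331 500000 h1)) (pr_cmul (enc_norm (enc_subr 11 32 h2)) (pr_norm (pr_subr 19 5000 (pr_scale 9 5000 h1))))))⟩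
noncomputable def kf1q3_s : Sl2 kf1q3 := ⟨_, fun h1 h2 => (pr_norm (pr_mul (cv1r_s.snd h1) (bf1q3_s.snd h1 h2)))⟩
noncomputable def bx1q3_s : Sl2 bx1q3 := ⟨_, fun h1 h2 => (pr_norm (pr_add (pr_csub (enc_rat _ 1608069 1000000) (pr_scale 93251 100000 h1)) (pr_cmul (enc_norm (enc_subr 11 32 h2)) (pr_norm (pr_csub (enc_rat _ 567 25000) (pr_scale 513 50000 h1))))))⟩
noncomputable def l1q3_s : Sl2 l1q3 := ⟨_, fun h1 h2 => (pr_norm (pr_mul (cv1r_s.snd h1) (bx1q3_s.snd h1 h2)))⟩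
noncomputable def c3g_s : Sl1 c3g := ⟨_, fun h1 => (pr_sqrtg (pr_csub (enc_pnc _ 3) (pr_scale 3 4 (pr_sq h1))))⟩
noncomputable def cv2m_s : Sl1 cv2m := ⟨_, fun h1 => (pr_norm (pr_add (pr_scale 17 20 (pr_addc (swg_s.snd h1) (enc_rat _ 1 2))) (pr_scale 3 20 (c3g_s.snd h1))))⟩
noncomputable def bf2q0_s : Sl2 bf2q0 := ⟨_, fun h1 h2 => (pr_norm (pr_add (pr_csub (enc_rat _ 878139 1000000) (pr_scale 22048 15625 h1)) (pr_cmul (enc_norm (enc_subr 11 32 h2)) (pr_norm (pr_csub (enc_rat _ 71 12500) (pr_scale 273 25000 h1))))))⟩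
noncomputable def kf2q0_s : Sl2 kf2q0 := ⟨_, fun h1 h2 => (pr_norm (pr_mul (cv2m_s.snd h1) (bf2q0_s.snd h1 h2)))⟩
noncomputable def bx2q0_s : Sl2 bx2q0 := ⟨_, fun h1 h2 => (pr_norm (pr_add (pr_addc (pr_scale 29619 500000 h1) (enc_rat _ 16423 500000)) (pr_cmul (enc_norm (enc_subr 11 32 h2)) (pr_norm (pr_subr 17 6250 (pr_neg (pr_scale 17 12500 h1)))))))⟩
noncomputable def l2q0_s : Sl2 l2q0 := ⟨_, fun h1 h2 => (pr_norm (pr_mul (cv2m_s.snd h1) (bx2q0_s.snd h1 h2)))⟩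
noncomputable def gsg_s : Sl1 gsg := ⟨_, fun h1 => (pr_sqrt (pr_csub (enc_pnc _ 1) (pr_scale 3 4 (pr_sq h1))))⟩
noncomputable def esg_s : Sl1 esg := ⟨_, fun h1 => (pr_norm (pr_subn 1 (pr_add (pr_half h1) (gsg_s.snd h1))))⟩
noncomputable def kf2q1_65_s : Sl2 kf2q1_65 := ⟨_, fun h1 h2 => (pr_csub (enc_pnc _ 1) h1)⟩
noncomputable def kf2q1_66_s : Sl2 kf2q1_66 := ⟨_, fun h1 h2 => (gsg_s.snd (pr_norm (kf2q1_65_s.snd h1 h2)))⟩
noncomputable def kf2q1_72_s : Sl2 kf2q1_72 := ⟨_, fun h1 h2 => (pr_scale 3 2 (kf2q1_65_s.snd h1 h2))⟩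
noncomputable def kf2q1_74_s : Sl2 kf2q1_74 := ⟨_, fun h1 h2 => (pr_cadd (enc_pnc _ 1) (kf2q1_66_s.snd h1 h2))⟩
noncomputable def kf2q1_93_s : Sl2 kf2q1_93 := ⟨_, fun h1 h2 => (pr_mul (cv1m_s.snd h1) (bf1q1_s.snd h1 h2))⟩
noncomputable def kf2q1_s : Sl2 kf2q1 := ⟨_, fun h1 h2 => (pr_norm (pr_case (pr_subr 19 32 h1) (pr_mul (cv2m_s.snd h1) (pr_norm (pr_add (pr_subr 242923003 93750000 (pr_scale 1010054137 187500000 h1)) (pr_cmul (enc_norm (kf2q1_4.enc h1.l h2)) (pr_norm (pr_subr 58003 37500000 (pr_neg (pr_scale 8311 9375000 h1)))))))) (pr_case (pr_subr 23 32 h1) (pr_add (kf2q1_93_s.snd h1 h2) (pr_mul (pr_norm (pr_mul (pr_norm (pr_sub (pr_add (pr_add (pr_mul (pr_norm (pr_mul (pr_norm (pr_sub (kf2q1_66_s.snd h1 h2) (kf2q1_72_s.snd h1 h2))) (pr_norm (kf2q1_74_s.snd h1 h2)))) (pr_nd (pr_inv (pr_sub (kf2q1_74_s.snd h1 h2) (kf2q1_72_s.snd h1 h2)))))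 (pr_mul (pr_norm (pr_sub (pr_half (kf2q1_65_s.snd h1 h2)) (pr_mul (pr_nd (pr_scale 3 4 (pr_sq (pr_norm (kf2q1_65_s.snd h1 h2))))) (pr_nd (pr_inv (kf2q1_66_s.snd h1 h2)))))) (pr_nd (pr_inv (pr_nat 2 (esg_s.snd (pr_norm (kf2q1_65_s.snd h1 h2)))))))) (pr_mul (kcg_s.snd (pr_norm (pr_sub (pr_scale 3 4 (kf2q1_65_s.snd h1 h2)) (pr_half (kf2q1_66_s.snd h1 h2)))) h2) (pr_norm (kf2q1_65_s.snd h1 h2)))) (kf2q1_93_s.snd h1 h2))) (pr_norm (pr_sub (cv2m_s.snd h1) (cv1m_s.snd h1))))) (pr_nd (pr_inv (pr_sub (pr_addc (swg_s.snd h1) (enc_rat _ 1 2)) (cv1m_s.snd h1)))))) (pr_mul (cv2m_s.snd h1) (pr_norm (pr_case (pr_subr 7 8 h1) (pr_case (pr_subr 4 5 h1) (pr_add (pr_addc (pr_scale 20398621 20312500 h1) (enc_rat _ 104219631 1625000000)) (pr_cmul (enc_norm (kf2q1_4.enc h1.l h2)) (pr_norm (pr_subr 11192393 40625000 (pr_scale 4375009 16250000 h1))))) (pr_add (pr_addc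 (pr_scale 65003 75000 h1) (enc_rat _ 104497 600000)) (pr_cmul (enc_norm (kf2q1_4.enc h1.l h2)) (pr_norm (pr_subr 4369 15000 (pr_scale 2167 7500 h1)))))) (pr_case (pr_subr 19 20 h1) (pr_add (pr_addc (pr_scale 1013 1875 h1) (enc_rat _ 137939 300000)) (pr_cmul (enc_norm (kf2q1_4.enc h1.l h2)) (pr_norm (pr_subr 9109 30000 (pr_scale 2273 7500 h1))))) (pr_add (pr_addc (pr_scale 539 1000 h1) (enc_rat _ 461 1000)) (pr_cmul (enc_norm (kf2q1_4.enc h1.l h2)) (pr_norm (pr_subr 393 1250 (pr_scale 393 1250 h1))))))))))))⟩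
noncomputable def qsg_s : Sl1 qsg := ⟨_, fun h1 => (pr_norm (pr_mul (pr_norm (pr_csub (enc_pnc _ 1) (gsg_s.snd h1))) (pr_norm (pr_subn 1 (pr_nat 2 (gsg_s.snd h1))))))⟩
noncomputable def l2q1_81_s : Sl2 l2q1_81 := ⟨_, fun h1 h2 => (pr_csub (enc_pnc _ 1) h1)⟩
noncomputable def l2q1_96_s : Sl2 l2q1_96 := ⟨_, fun h1 h2 => (pr_mul (cv1m_s.snd h1) (bx1q1_s.snd h1 h2))⟩
noncomputable def l2q1_s : Sl2 l2q1 := ⟨_, fun h1 h2 => (pr_norm (pr_case (pr_subr 19 32 h1) (pr_mul (cv2m_s.snd h1) (pr_norm (pr_add (pr_add (pr_csub (enc_rat _ 165716237 1875000000) (pr_scale 83321237 937500000 h1)) (pr_cmul (enc_norm (l2q1_4.enc h1.l h2)) (pr_norm (pr_subr 860361 12500000 (pr_scale 59171 390625 h1))))) (pr_cmul (l2q1_19.enc h1.l h2) (pr_norm (pr_csub (enc_rat _ 427 93750) (pr_scale 427 46875 h1))))))) (pr_case (pr_subr 23 32 h1) (pr_add (l2q1_96_s.snd h1 h2) (pr_mul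 (pr_norm (pr_mul (pr_norm (pr_sub (pr_sub (qsg_s.snd (pr_norm (l2q1_81_s.snd h1 h2))) (pr_mul (pr_norm (pr_nat 2 (pr_subc (l2q1_81_s.snd h1 h2) h2))) (pr_norm (pr_mul (esg_s.snd (pr_norm (l2q1_81_s.snd h1 h2))) (kcg_s.snd (pr_norm (pr_sub (pr_scale 3 4 (l2q1_81_s.snd h1 h2)) (pr_half (gsg_s.snd (pr_norm (l2q1_81_s.snd h1 h2)))))) h2))))) (l2q1_96_s.snd h1 h2))) (pr_norm (pr_sub (cv2m_s.snd h1) (cv1m_s.snd h1))))) (pr_nd (pr_inv (pr_sub (pr_addc (swg_s.snd h1) (enc_rat _ 1 2)) (cv1m_s.snd h1)))))) (pr_mul (cv2m_s.snd h1) (pr_norm (pr_case (pr_subr 7 8 h1) (pr_case (pr_subr 4 5 h1) (pr_add (pr_add (pr_csub (enc_rat _ 696402229 8125000000) (pr_scale 75381763 812500000 h1)) (pr_cmul (enc_norm (l2q1_4.enc h1.l h2)) (pr_norm (pr_subr 59733229 812500000 (pr_scale 10658763 81250000 h1))))) (pr_cmul (l2q1_19.enc h1.l h2) (pr_norm (pr_subr 25528 40625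 (pr_scale 6382 8125 h1))))) (pr_add (pr_csub (enc_rat _ 60353 1000000) (pr_scale 1527 25000 h1)) (pr_cmul (enc_norm (l2q1_4.enc h1.l h2)) (pr_norm (pr_csub (enc_rat _ 30293 300000) (pr_scale 163 1875 h1)))))) (pr_case (pr_subr 19 20 h1) (pr_add (pr_csub (enc_rat _ 14117 250000) (pr_scale 177 3125 h1)) (pr_cmul (enc_norm (l2q1_4.enc h1.l h2)) (pr_norm (pr_csub (enc_rat _ 53813 300000) (pr_scale 331 1875 h1))))) (pr_add (pr_csub (enc_rat _ 133 2500) (pr_scale 133 2500 h1)) (pr_cmul (enc_norm (l2q1_4.enc h1.l h2)) (pr_norm (pr_csub (enc_rat _ 1167 5000) (pr_scale 1167 5000 h1))))))))))))⟩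
noncomputable def cv2p_s : Sl1 cv2p := ⟨_, fun h1 => (pr_norm (pr_add (pr_scale 17 20 (pr_subr 1 2 (swg_s.snd h1))) (pr_scale 3 20 (c3g_s.snd h1))))⟩
noncomputable def kf2q2_93_s : Sl2 kf2q2_93 := ⟨_, fun h1 h2 => (pr_subn 1 h1)⟩
noncomputable def kf2q2_94_s : Sl2 kf2q2_94 := ⟨_, fun h1 h2 => (gsg_s.snd (pr_norm (kf2q2_93_s.snd h1 h2)))⟩
noncomputable def kf2q2_100_s : Sl2 kf2q2_100 := ⟨_, fun h1 h2 => (pr_scale 3 2 (kf2q2_93_s.snd h1 h2))⟩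
noncomputable def kf2q2_102_s : Sl2 kf2q2_102 := ⟨_, fun h1 h2 => (pr_cadd (enc_pnc _ 1) (kf2q2_94_s.snd h1 h2))⟩
noncomputable def kf2q2_121_s : Sl2 kf2q2_121 := ⟨_, fun h1 h2 => (pr_mul (cv1p_s.snd h1) (bf1q2_s.snd h1 h2))⟩
noncomputable def kf2q2_s : Sl2 kf2q2 := ⟨_, fun h1 h2 => (pr_norm (pr_case (pr_subr 41 32 h1) (pr_mul (cv2p_s.snd h1) (pr_norm (pr_case (pr_subr 11 10 h1) (pr_case (pr_subr 103 100 h1) (pr_add (pr_csub (enc_rat _ 4969637 3000000) (pr_scale 21197 30000 h1)) (pr_cmul (enc_norm (kf2q2_4.enc h1.l h2)) (pr_norm (pr_csub (enc_rat _ 108959 60000) (pr_scale 1333 750 h1))))) (pr_case (pr_subr 53 50 h1) (pr_add (pr_csub (enc_rat _ 4969843 3000000) (pr_scale 21199 30000 h1)) (pr_cmul (enc_norm (kf2q2_4.enc h1.l h2)) (pr_norm (pr_csub (enc_rat _ 13607 7500) (pr_scale 5327 3000 h1))))) (pr_add (pr_csub (enc_rat _ 1656791 1000000) (pr_scale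 1767 2500 h1)) (pr_cmul (enc_norm (kf2q2_4.enc h1.l h2)) (pr_norm (pr_csub (enc_rat _ 362129 200000) (pr_scale 7089 4000 h1))))))) (pr_case (pr_subr 29 25 h1) (pr_add (pr_csub (enc_rat _ 4971253 3000000) (pr_scale 5303 7500 h1)) (pr_cmul (enc_norm (kf2q2_4.enc h1.l h2)) (pr_norm (pr_csub (enc_rat _ 180377 100000) (pr_scale 883 500 h1))))) (pr_case (pr_subr 5 4 h1) (pr_add (pr_csub (enc_rat _ 14918167 9000000) (pr_scale 31837 45000 h1)) (pr_cmul (enc_norm (kf2q2_4.enc h1.l h2)) (pr_norm (pr_csub (enc_rat _ 1613881 900000) (pr_scale 3953 2250 h1))))) (pr_add (pr_csub (enc_rat _ 414434927 250000000) (pr_scale 221131677 312500000 h1)) (pr_cmul (enc_norm (kf2q2_4.enc h1.l h2)) (pr_norm (pr_csub (enc_rat _ 44732761 25000000) (pr_scale 54805511 31250000 h1)))))))))) (pr_case (pr_subr 45 32 h1) (pr_add (kf2q2_121_s.snd h1 h2) (pr_mul (pr_norm (pr_mul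 (pr_norm (pr_sub (pr_add (pr_sub (pr_mul (pr_norm (pr_mul (pr_norm (pr_sub (kf2q2_94_s.snd h1 h2) (kf2q2_100_s.snd h1 h2))) (pr_norm (kf2q2_102_s.snd h1 h2)))) (pr_nd (pr_inv (pr_sub (kf2q2_102_s.snd h1 h2) (kf2q2_100_s.snd h1 h2))))) (pr_mul (pr_norm (pr_sub (pr_half (kf2q2_93_s.snd h1 h2)) (pr_mul (pr_nd (pr_scale 3 4 (pr_sq (pr_norm (kf2q2_93_s.snd h1 h2))))) (pr_nd (pr_inv (kf2q2_94_s.snd h1 h2)))))) (pr_nd (pr_inv (pr_nat 2 (esg_s.snd (pr_norm (kf2q2_93_s.snd h1 h2)))))))) (pr_mul (kcg_s.snd (pr_norm (pr_sub (pr_scale 3 4 (kf2q2_93_s.snd h1 h2)) (pr_half (kf2q2_94_s.snd h1 h2)))) h2) (pr_norm (kf2q2_93_s.snd h1 h2)))) (kf2q2_121_s.snd h1 h2))) (pr_norm (pr_sub (cv2p_s.snd h1) (cv1p_s.snd h1))))) (pr_nd (pr_inv (pr_sub (pr_subr 1 2 (swg_s.snd h1)) (cv1p_s.snd h1)))))) (pr_mul (cv2p_s.snd h1) (pr_norm (pr_add (pr_subr 4932944719 625000000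 (pr_scale 5555732219 937500000 h1)) (pr_cmul (enc_norm (kf2q2_4.enc h1.l h2)) (pr_norm (pr_subr 261417 78125 (pr_scale 8365169 3750000 h1))))))))))⟩
noncomputable def l2q2_106_s : Sl2 l2q2_106 := ⟨_, fun h1 h2 => (pr_subn 1 h1)⟩
noncomputable def l2q2_121_s : Sl2 l2q2_121 := ⟨_, fun h1 h2 => (pr_mul (cv1p_s.snd h1) (bx1q2_s.snd h1 h2))⟩
noncomputable def l2q2_s : Sl2 l2q2 := ⟨_, fun h1 h2 => (pr_norm (pr_case (pr_subr 41 32 h1) (pr_mul (cv2p_s.snd h1) (pr_norm (pr_case (pr_subr 11 10 h1) (pr_case (pr_subr 103 100 h1) (pr_add (pr_subr 18323 250000 (pr_scale 743 10000 h1)) (pr_cmul (enc_norm (l2q2_4.enc h1.l h2)) (pr_norm (pr_subr 11633 50000 (pr_scale 247 1000 h1))))) (pr_case (pr_subr 53 50 h1) (pr_add (pr_subr 73601 1000000 (pr_scale 373 5000 h1)) (pr_cmul (enc_norm (l2q2_4.enc h1.l h2)) (pr_norm (pr_subr 2831 12500 (pr_scale 241 1000 h1)))))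 (pr_add (pr_subr 148421 2000000 (pr_scale 3007 40000 h1)) (pr_cmul (enc_norm (l2q2_4.enc h1.l h2)) (pr_norm (pr_subr 10529 50000 (pr_scale 113 500 h1))))))) (pr_case (pr_subr 29 25 h1) (pr_add (pr_subr 29367 250000 (pr_scale 229 2000 h1)) (pr_cmul (enc_norm (l2q2_4.enc h1.l h2)) (pr_norm (pr_subr 14719 300000 (pr_scale 19 240 h1))))) (pr_case (pr_subr 5 4 h1) (pr_add (pr_subr 116369 562500 (pr_scale 8621 45000 h1)) (pr_cmul (enc_norm (l2q2_4.enc h1.l h2)) (pr_norm (pr_csub (enc_rat _ 540773 900000) (pr_scale 433 900 h1))))) (pr_add (pr_add (pr_subr 51726567 125000000 (pr_scale 55800817 156250000 h1)) (pr_cmul (enc_norm (l2q2_4.enc h1.l h2)) (pr_norm (pr_subr 14914223 12500000 (pr_scale 7453799 7812500 h1))))) (pr_cmul (l2q2_81.enc h1.l h2) (pr_norm (pr_csub (enc_rat _ 124129 12500) (pr_scale 124129 15625 h1)))))))))) (pr_case (pr_subr 45 32 h1)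 (pr_add (l2q2_121_s.snd h1 h2) (pr_mul (pr_norm (pr_mul (pr_norm (pr_sub (pr_sub (qsg_s.snd (pr_norm (l2q2_106_s.snd h1 h2))) (pr_mul (pr_norm (pr_nat 2 (pr_subc (l2q2_106_s.snd h1 h2) h2))) (pr_norm (pr_mul (esg_s.snd (pr_norm (l2q2_106_s.snd h1 h2))) (kcg_s.snd (pr_norm (pr_sub (pr_scale 3 4 (l2q2_106_s.snd h1 h2)) (pr_half (gsg_s.snd (pr_norm (l2q2_106_s.snd h1 h2)))))) h2))))) (l2q2_121_s.snd h1 h2))) (pr_norm (pr_sub (cv2p_s.snd h1) (cv1p_s.snd h1))))) (pr_nd (pr_inv (pr_sub (pr_subr 1 2 (swg_s.snd h1)) (cv1p_s.snd h1)))))) (pr_mul (cv2p_s.snd h1) (pr_norm (pr_add (pr_add (pr_subr 18201637 31250000 (pr_scale 90663173 187500000 h1)) (pr_cmul (enc_norm (l2q2_4.enc h1.l h2)) (pr_norm (pr_subr 17910793 31250000 (pr_scale 2955653 7812500 h1))))) (pr_cmul (l2q2_81.enc h1.l h2) (pr_norm (pr_subr 1667 31250 (pr_scale 1667 46875 h1))))))))))⟩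
noncomputable def ycg_s : Sl1 ycg := ⟨_, fun h1 => (pr_sqrtg (pr_scale 4 3 (pr_csub (enc_pnc _ 3) (pr_sq h1))))⟩
noncomputable def xc23_s : Sl1 xc23 := ⟨_, fun h1 => (pr_norm (pr_add (pr_scale 17 20 (pr_subr 1 2 (swg_s.snd (pr_nd (ycg_s.snd h1))))) (pr_scale 3 20 h1)))⟩
noncomputable def bf2q3_s : Sl2 bf2q3 := ⟨_, fun h1 h2 => (pr_norm (pr_add (pr_subr 992253 250000 (pr_scale 1117253 500000 h1)) (pr_cmul (enc_norm (enc_subr 11 32 h2)) (pr_norm (pr_subr 141 12500 (pr_scale 141 25000 h1))))))⟩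
noncomputable def kfc23_s : Sl2 kfc23 := ⟨_, fun h1 h2 => (pr_norm (pr_mul (pr_norm (pr_add (pr_scale 17 20 (pr_subr 1 2 (swg_s.snd (pr_nd (ycg_s.snd h1))))) (pr_scale 3 20 h1))) (bf2q3_s.snd (pr_nd (ycg_s.snd h1)) h2)))⟩
noncomputable def bx2q3_s : Sl2 bx2q3 := ⟨_, fun h1 h2 => (pr_norm (pr_add (pr_csub (enc_rat _ 6119913 10000000) (pr_scale 1526751 5000000 h1)) (pr_cmul (enc_norm (enc_subr 11 32 h2)) (pr_norm (pr_subr 2643951 4000000 (pr_scale 885477 2000000 h1))))))⟩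
noncomputable def lc23_s : Sl2 lc23 := ⟨_, fun h1 h2 => (pr_norm (pr_mul (pr_norm (pr_add (pr_scale 17 20 (pr_subr 1 2 (swg_s.snd (pr_nd (ycg_s.snd h1))))) (pr_scale 3 20 h1))) (bx2q3_s.snd (pr_nd (ycg_s.snd h1)) h2)))⟩
noncomputable def cv3m_s : Sl1 cv3m := ⟨_, fun h1 => (pr_norm (pr_add (pr_half (pr_addc (swg_s.snd h1) (enc_rat _ 1 2))) (pr_half (c3g_s.snd h1))))⟩
noncomputable def bf3q0_s : Sl2 bf3q0 := ⟨_, fun h1 h2 => (pr_norm (pr_add (pr_csub (enc_rat _ 518397 1000000) (pr_scale 220051 125000 h1)) (pr_cmul (enc_norm (enc_subr 11 32 h2)) (pr_norm (pr_csub (enc_rat _ 679 100000) (pr_scale 159 12500 h1))))))⟩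
noncomputable def kf3q0_s : Sl2 kf3q0 := ⟨_, fun h1 h2 => (pr_norm (pr_mul (cv3m_s.snd h1) (bf3q0_s.snd h1 h2)))⟩
noncomputable def bx3q0_s : Sl2 bx3q0 := ⟨_, fun h1 h2 => (pr_norm (pr_add (pr_csub (enc_rat _ 73231 1000000) (pr_scale 29803 500000 h1)) (pr_cmul (enc_norm (enc_subr 11 32 h2)) (pr_norm (pr_subr 119 100000 (pr_scale 3451 50000 h1))))))⟩
noncomputable def l3q0_s : Sl2 l3q0 := ⟨_, fun h1 h2 => (pr_norm (pr_mul (cv3m_s.snd h1) (bx3q0_s.snd h1 h2)))⟩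
noncomputable def bf3q1_s : Sl2 bf3q1 := ⟨_, fun h1 h2 => (pr_norm (pr_case (pr_subr 4 5 h1) (pr_case (pr_subr 7 10 h1) (pr_add (pr_addc (pr_scale 70539 100000 h1) (enc_rat _ 302693 1000000)) (pr_cmul (enc_norm (bf3q1_3.enc h1.l h2)) (pr_norm (pr_subr 176923 200000 (pr_scale 17789 20000 h1))))) (pr_add (pr_addc (pr_scale 70503 100000 h1) (enc_rat _ 60589 200000)) (pr_cmul (enc_norm (bf3q1_3.enc h1.l h2)) (pr_norm (pr_subr 88101 100000 (pr_scale 8843 10000 h1)))))) (pr_case (pr_subr 7 8 h1) (pr_add (pr_addc (pr_scale 4399 6250 h1) (enc_rat _ 303897 1000000)) (pr_cmul (enc_norm (bf3q1_3.enc h1.l h2)) (pr_norm (pr_subr 87469 100000 (pr_scale 2191 2500 h1))))) (pr_case (pr_subr 19 20 h1) (pr_add (pr_addc (pr_scale 2491 3750 h1) (enc_rat _ 1015571 3000000)) (pr_cmul (enc_norm (bf3q1_3.enc h1.l h2)) (pr_norm (pr_subr 43297 50000 (pr_scale 1083 1250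 h1))))) (pr_add (pr_addc (pr_scale 30423 50000 h1) (enc_rat _ 19577 50000)) (pr_cmul (enc_norm (bf3q1_3.enc h1.l h2)) (pr_norm (pr_subr 2143 2500 (pr_scale 2143 2500 h1)))))))))⟩
noncomputable def kf3q1_s : Sl2 kf3q1 := ⟨_, fun h1 h2 => (pr_norm (pr_mul (cv3m_s.snd h1) (bf3q1_s.snd h1 h2)))⟩
noncomputable def bx3q1_s : Sl2 bx3q1 := ⟨_, fun h1 h2 => (pr_norm (pr_case (pr_subr 4 5 h1) (pr_case (pr_subr 7 10 h1) (pr_add (pr_csub (enc_rat _ 107201 1000000) (pr_scale 6319 50000 h1)) (pr_cmul (enc_norm (bx3q1_3.enc h1.l h2)) (pr_norm (pr_csub (enc_rat _ 1279 25000) (pr_scale 207 5000 h1))))) (pr_add (pr_csub (enc_rat _ 72383 1000000) (pr_scale 479 6250 h1)) (pr_cmul (enc_norm (bx3q1_3.enc h1.l h2)) (pr_norm (pr_csub (enc_rat _ 4983 100000) (pr_scale 79 2000 h1)))))) (pr_case (pr_subr 7 8 h1) (pr_add (pr_csub (enc_rat _ 1409 24000) (pr_scale 2233 37500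 h1)) (pr_cmul (enc_norm (bx3q1_3.enc h1.l h2)) (pr_norm (pr_csub (enc_rat _ 16253 300000) (pr_scale 337 7500 h1))))) (pr_case (pr_subr 19 20 h1) (pr_add (pr_csub (enc_rat _ 5319 100000) (pr_scale 1331 25000 h1)) (pr_cmul (enc_norm (bx3q1_3.enc h1.l h2)) (pr_norm (pr_csub (enc_rat _ 10489 150000) (pr_scale 118 1875 h1))))) (pr_add (pr_csub (enc_rat _ 653 12500) (pr_scale 653 12500 h1)) (pr_cmul (enc_norm (bx3q1_3.enc h1.l h2)) (pr_norm (pr_csub (enc_rat _ 507 2500) (pr_scale 507 2500 h1)))))))))⟩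
noncomputable def l3q1_s : Sl2 l3q1 := ⟨_, fun h1 h2 => (pr_norm (pr_mul (cv3m_s.snd h1) (bx3q1_s.snd h1 h2)))⟩
noncomputable def cv3p_s : Sl1 cv3p := ⟨_, fun h1 => (pr_norm (pr_add (pr_half (pr_subr 1 2 (swg_s.snd h1))) (pr_half (c3g_s.snd h1))))⟩
noncomputable def bf3q2_28_s : Sl2 bf3q2_28 := ⟨_, fun h1 h2 => (pr_cmul (enc_norm (bf3q2_3.enc h1.l h2)) (pr_norm (pr_subr 2497 50000 (pr_scale 33 1000 h1))))⟩
noncomputable def bf3q2_67_s : Sl2 bf3q2_67 := ⟨_, fun h1 h2 => (pr_subr 292469 500000 (pr_scale 3437 2500 h1))⟩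
noncomputable def bf3q2_s : Sl2 bf3q2 := ⟨_, fun h1 h2 => (pr_norm (pr_case (pr_subr 11 10 h1) (pr_case (pr_subr 103 100 h1) (pr_add (pr_subr 73131 125000 (pr_scale 13749 10000 h1)) (pr_cmul (enc_norm (bf3q2_3.enc h1.l h2)) (pr_norm (pr_subr 14879 300000 (pr_scale 49 1500 h1))))) (pr_case (pr_subr 53 50 h1) (pr_add (pr_subr 1755041 3000000 (pr_scale 20623 15000 h1)) (bf3q2_28_s.snd h1 h2)) (pr_add (pr_subr 146249 250000 (pr_scale 27497 20000 h1)) (bf3q2_28_s.snd h1 h2)))) (pr_case (pr_subr 5 4 h1) (pr_case (pr_subr 29 25 h1) (pr_add (pr_subr 1754933 3000000 (pr_scale 8249 6000 h1)) (pr_cmul (enc_norm (bf3q2_3.enc h1.l h2)) (pr_norm (pr_subr 15037 300000 (pr_scale 199 6000 h1))))) (pr_add (pr_subr 5264567 9000000 (pr_scale 123733 90000 h1)) (pr_cmul (enc_norm (bf3q2_3.enc h1.l h2)) (pr_norm (pr_subr 45053 900000 (pr_scale 149 4500 h1)))))) (pr_case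 (pr_subr 27 20 h1) (pr_add (bf3q2_67_s.snd h1 h2) (pr_cmul (enc_norm (bf3q2_3.enc h1.l h2)) (pr_norm (pr_subr 9959 200000 (pr_scale 329 10000 h1))))) (pr_add (bf3q2_67_s.snd h1 h2) (pr_cmul (enc_norm (bf3q2_3.enc h1.l h2)) (pr_norm (pr_subr 623 12500 (pr_scale 247 7500 h1)))))))))⟩
noncomputable def kf3q2_s : Sl2 kf3q2 := ⟨_, fun h1 h2 => (pr_norm (pr_mul (cv3p_s.snd h1) (bf3q2_s.snd h1 h2)))⟩
noncomputable def bx3q2_s : Sl2 bx3q2 := ⟨_, fun h1 h2 => (pr_norm (pr_case (pr_subr 11 10 h1) (pr_case (pr_subr 103 100 h1) (pr_add (pr_csub (enc_rat _ 2759 500000) (pr_scale 1 2500 h1)) (pr_cmul (enc_norm (bx3q2_3.enc h1.l h2)) (pr_norm (pr_subr 165917 300000 (pr_scale 1649 3000 h1))))) (pr_case (pr_subr 53 50 h1) (pr_add (pr_csub (enc_rat _ 8071 1500000) (pr_scale 1 3750 h1)) (pr_cmul (enc_norm (bx3q2_3.enc h1.l h2)) (pr_norm (pr_subr 33101 60000 (pr_scale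 329 600 h1))))) (pr_add (pr_csub (enc_rat _ 10567 2000000) (pr_scale 7 40000 h1)) (pr_cmul (enc_norm (bx3q2_3.enc h1.l h2)) (pr_norm (pr_subr 55133 100000 (pr_scale 137 250 h1))))))) (pr_case (pr_subr 5 4 h1) (pr_case (pr_subr 29 25 h1) (pr_add (pr_csub (enc_rat _ 15493 3000000) (pr_scale 1 15000 h1)) (pr_cmul (enc_norm (bx3q2_3.enc h1.l h2)) (pr_norm (pr_subr 27539 50000 (pr_scale 219 400 h1))))) (pr_add (pr_addc (pr_scale 1 22500 h1) (enc_rat _ 45319 9000000)) (pr_cmul (enc_norm (bx3q2_3.enc h1.l h2)) (pr_norm (pr_subr 41323 75000 (pr_scale 1643 3000 h1)))))) (pr_case (pr_subr 27 20 h1) (pr_add (pr_addc (pr_scale 3 20000 h1) (enc_rat _ 9807 2000000)) (pr_cmul (enc_norm (bx3q2_3.enc h1.l h2)) (pr_norm (pr_subr 110353 200000 (pr_scale 5483 10000 h1))))) (pr_add (pr_addc (pr_scale 11 50000 h1) (enc_rat _ 4809 1000000)) (pr_cmul (enc_norm (bx3q2_3.enc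 h1.l h2)) (pr_norm (pr_subr 55253 100000 (pr_scale 8233 15000 h1)))))))))⟩
noncomputable def l3q2_s : Sl2 l3q2 := ⟨_, fun h1 h2 => (pr_norm (pr_mul (cv3p_s.snd h1) (bx3q2_s.snd h1 h2)))⟩
noncomputable def xc33_s : Sl1 xc33 := ⟨_, fun h1 => (pr_norm (pr_add (pr_half (pr_subr 1 2 (swg_s.snd (pr_nd (ycg_s.snd h1))))) (pr_half h1)))⟩
noncomputable def bf3q3_s : Sl2 bf3q3 := ⟨_, fun h1 h2 => (pr_norm (pr_add (pr_subr 372347 125000 (pr_scale 434847 250000 h1)) (pr_cmul (enc_norm (enc_subr 11 32 h2)) (pr_norm (pr_subr 57 12500 (pr_scale 57 25000 h1))))))⟩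
noncomputable def kfc33_s : Sl2 kfc33 := ⟨_, fun h1 h2 => (pr_norm (pr_mul (pr_norm (pr_add (pr_half (pr_subr 1 2 (swg_s.snd (pr_nd (ycg_s.snd h1))))) (pr_half h1))) (bf3q3_s.snd (pr_nd (ycg_s.snd h1)) h2)))⟩
noncomputable def bx3q3_s : Sl2 bx3q3 := ⟨_, fun h1 h2 => (pr_norm (pr_add (pr_csub (enc_rat _ 3459953 10000000) (pr_scale 861761 5000000 h1)) (pr_cmul (enc_norm (enc_subr 11 32 h2)) (pr_norm (pr_subr 2693711 4000000 (pr_scale 897917 2000000 h1))))))⟩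
noncomputable def lc33_s : Sl2 lc33 := ⟨_, fun h1 h2 => (pr_norm (pr_mul (pr_norm (pr_add (pr_half (pr_subr 1 2 (swg_s.snd (pr_nd (ycg_s.snd h1))))) (pr_half h1))) (bx3q3_s.snd (pr_nd (ycg_s.snd h1)) h2)))⟩
noncomputable def kf4q0_s : Sl2 kf4q0 := ⟨_, fun h1 h2 => (pr_norm (pr_sub (pr_mul h1 (kcg_s.snd (pr_nd (pr_half h1)) h2)) (pr_mul (pr_norm (pr_mul (pr_nd (pr_sq h1)) (pr_norm (pr_addc (c3g_s.snd h1) (enc_rat _ 3 2))))) (pr_nd (pr_inv (pr_mul (pr_norm (pr_csub (enc_pnc _ 1) h1)) (pr_norm (pr_cadd (enc_pnc _ 1) h1))))))))⟩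
noncomputable def l4q0_6_s : Sl2 l4q0_6 := ⟨_, fun h1 h2 => (pr_half h1)⟩
noncomputable def l4q0_7_s : Sl2 l4q0_7 := ⟨_, fun h1 h2 => (pr_half (c3g_s.snd h1))⟩
noncomputable def l4q0_8_s : Sl2 l4q0_8 := ⟨_, fun h1 h2 => (pr_scale 1 4 h1)⟩
noncomputable def l4q0_s : Sl2 l4q0 := ⟨_, fun h1 h2 => (pr_norm (pr_add (txg_s.snd (pr_nd (l4q0_6_s.snd h1 h2)) (pr_norm (pr_sub (l4q0_7_s.snd h1 h2) (l4q0_8_s.snd h1 h2))) h2) (txg_s.snd (pr_nd (pr_neg (l4q0_6_s.snd h1 h2))) (pr_norm (pr_add (l4q0_7_s.snd h1 h2) (l4q0_8_s.snd h1 h2))) h2)))⟩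
noncomputable def kf4q1_s : Sl2 kf4q1 := ⟨_, fun h1 h2 => (pr_norm (pr_add (pr_mul (pr_norm (pr_mul h1 (pr_norm (pr_addc (c3g_s.snd h1) (enc_rat _ 3 2))))) (pr_nd (pr_inv (pr_cadd (enc_pnc _ 1) h1)))) (pr_mul (pr_norm (pr_subn 1 h1)) (kcg_s.snd (pr_nd (pr_half h1)) h2))))⟩
noncomputable def l4q1_7_s : Sl2 l4q1_7 := ⟨_, fun h1 h2 => (pr_half h1)⟩
noncomputable def l4q1_8_s : Sl2 l4q1_8 := ⟨_, fun h1 h2 => (pr_half (c3g_s.snd h1))⟩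
noncomputable def l4q1_9_s : Sl2 l4q1_9 := ⟨_, fun h1 h2 => (pr_scale 1 4 h1)⟩
noncomputable def l4q1_s : Sl2 l4q1 := ⟨_, fun h1 h2 => (pr_norm (pr_add (txg_s.snd (pr_nd (l4q1_7_s.snd h1 h2)) (pr_norm (pr_sub (l4q1_8_s.snd h1 h2) (l4q1_9_s.snd h1 h2))) h2) (txg_s.snd (pr_nd (pr_neg (l4q1_7_s.snd h1 h2))) (pr_norm (pr_add (l4q1_8_s.snd h1 h2) (l4q1_9_s.snd h1 h2))) h2)))⟩
noncomputable def kf4q2_s : Sl2 kf4q2 := ⟨_, fun h1 h2 => (pr_norm (pr_add (pr_mul (pr_norm (pr_mul (pr_norm (pr_sub (pr_nat 2 (c3g_s.snd h1)) h1)) (pr_norm (pr_sub (pr_addc (c3g_s.snd h1) (enc_pnc _ 3)) (pr_scale 3 2 h1))))) (pr_nd (pr_inv (pr_nat 4 (pr_csub (enc_pnc _ 2) h1))))) (pr_mul (pr_norm (pr_subn 1 h1)) (kcg_s.snd (pr_norm (pr_sub (pr_scale 1 4 h1) (pr_half (c3g_s.snd h1)))) h2))))⟩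
noncomputable def l4q2_7_s : Sl2 l4q2_7 := ⟨_, fun h1 h2 => (pr_half (c3g_s.snd h1))⟩
noncomputable def l4q2_8_s : Sl2 l4q2_8 := ⟨_, fun h1 h2 => (pr_scale 1 4 h1)⟩
noncomputable def l4q2_9_s : Sl2 l4q2_9 := ⟨_, fun h1 h2 => (pr_sub (l4q2_7_s.snd h1 h2) (l4q2_8_s.snd h1 h2))⟩
noncomputable def l4q2_12_s : Sl2 l4q2_12 := ⟨_, fun h1 h2 => (pr_add (pr_scale 1 4 (c3g_s.snd h1)) (pr_scale 3 8 h1))⟩
noncomputable def l4q2_14_s : Sl2 l4q2_14 := ⟨_, fun h1 h2 => (pr_half (l4q2_9_s.snd h1 h2))⟩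
noncomputable def l4q2_s : Sl2 l4q2 := ⟨_, fun h1 h2 => (pr_norm (pr_sub (pr_nat 2 (txg_s.snd (pr_norm (pr_sub (l4q2_8_s.snd h1 h2) (l4q2_7_s.snd h1 h2))) (pr_norm (pr_add (l4q2_12_s.snd h1 h2) (l4q2_14_s.snd h1 h2))) h2)) (txg_s.snd (pr_norm (l4q2_9_s.snd h1 h2)) (pr_norm (pr_sub (l4q2_12_s.snd h1 h2) (l4q2_14_s.snd h1 h2))) h2)))⟩
noncomputable def kfc43_s : Sl2 kfc43 := ⟨_, fun h1 h2 => (pr_norm (pr_sub (pr_mul (pr_norm (pr_subn 2 (ycg_s.snd h1))) (kcg_s.snd (pr_norm (pr_sub (pr_scale 1 4 (ycg_s.snd h1)) (pr_half h1))) h2)) (pr_mul (pr_norm (pr_mul (pr_norm (pr_sub (pr_nat 2 h1) (ycg_s.snd h1))) (pr_norm (pr_sub (pr_addc h1 (enc_pnc _ 3)) (pr_scale 3 2 (ycg_s.snd h1)))))) (pr_nd (pr_inv (pr_nat 4 (pr_subn 1 (ycg_s.snd h1))))))))⟩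
noncomputable def lc43_7_s : Sl2 lc43_7 := ⟨_, fun h1 h2 => (pr_half h1)⟩
noncomputable def lc43_8_s : Sl2 lc43_8 := ⟨_, fun h1 h2 => (pr_scale 1 4 (ycg_s.snd h1))⟩
noncomputable def lc43_9_s : Sl2 lc43_9 := ⟨_, fun h1 h2 => (pr_sub (lc43_7_s.snd h1 h2) (lc43_8_s.snd h1 h2))⟩
noncomputable def lc43_12_s : Sl2 lc43_12 := ⟨_, fun h1 h2 => (pr_add (pr_scale 1 4 h1) (pr_scale 3 8 (ycg_s.snd h1)))⟩
noncomputable def lc43_14_s : Sl2 lc43_14 := ⟨_, fun h1 h2 => (pr_half (lc43_9_s.snd h1 h2))⟩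
noncomputable def lc43_s : Sl2 lc43 := ⟨_, fun h1 h2 => (pr_norm (pr_sub (pr_nat 2 (txg_s.snd (pr_norm (pr_sub (lc43_8_s.snd h1 h2) (lc43_7_s.snd h1 h2))) (pr_norm (pr_add (lc43_12_s.snd h1 h2) (lc43_14_s.snd h1 h2))) h2)) (txg_s.snd (pr_norm (lc43_9_s.snd h1 h2)) (pr_norm (pr_sub (lc43_12_s.snd h1 h2) (lc43_14_s.snd h1 h2))) h2)))⟩
noncomputable def gF0q0 : Gn := ⟨ndF0q0, c1g_s, kf0q0_s, l0q0_s, false⟩
noncomputable def gF0q1 : Gn := ⟨ndF0q1, c1g_s, kf0q1_s, l0q1_s, false⟩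
noncomputable def gF0q2 : Gn := ⟨ndF0q2, idf_s, kfc02_s, lc02_s, true⟩
noncomputable def gF1q0 : Gn := ⟨ndF1q0, cv1m_s, kf1q0_s, l1q0_s, false⟩
noncomputable def gF1q1 : Gn := ⟨ndF1q1, cv1m_s, kf1q1_s, l1q1_s, false⟩
noncomputable def gF1q2 : Gn := ⟨ndF1q2, cv1p_s, kf1q2_s, l1q2_s, false⟩
noncomputable def gF1q3 : Gn := ⟨ndF1q3, cv1r_s, kf1q3_s, l1q3_s, false⟩
noncomputable def gF2q0 : Gn := ⟨ndF2q0, cv2m_s, kf2q0_s, l2q0_s, false⟩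
noncomputable def gF2q1 : Gn := ⟨ndF2q1, cv2m_s, kf2q1_s, l2q1_s, false⟩
noncomputable def gF2q2 : Gn := ⟨ndF2q2, cv2p_s, kf2q2_s, l2q2_s, false⟩
noncomputable def gF2q3 : Gn := ⟨ndF2q3, xc23_s, kfc23_s, lc23_s, false⟩
noncomputable def gF3q0 : Gn := ⟨ndF3q0, cv3m_s, kf3q0_s, l3q0_s, false⟩
noncomputable def gF3q1 : Gn := ⟨ndF3q1, cv3m_s, kf3q1_s, l3q1_s, false⟩
noncomputable def gF3q2 : Gn := ⟨ndF3q2, cv3p_s, kf3q2_s, l3q2_s, false⟩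
noncomputable def gF3q3 : Gn := ⟨ndF3q3, xc33_s, kfc33_s, lc33_s, false⟩
noncomputable def gF4q0 : Gn := ⟨ndF4q0, c3g_s, kf4q0_s, l4q0_s, false⟩
noncomputable def gF4q1 : Gn := ⟨ndF4q1, c3g_s, kf4q1_s, l4q1_s, false⟩
noncomputable def gF4q2 : Gn := ⟨ndF4q2, c3g_s, kf4q2_s, l4q2_s, false⟩
noncomputable def gF4q3 : Gn := ⟨ndF4q3, idf_s, kfc43_s, lc43_s, false⟩
noncomputable def gF0q3 : Gn := gz
noncomputable def gF (j : Fin 5) (q : ℕ) : Gn :=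
  match j, q with
  | 0, 0 => gF0q0
  | 0, 1 => gF0q1
  | 0, 2 => gF0q2
  | 0, 3 => gF0q3
  | 1, 0 => gF1q0
  | 1, 1 => gF1q1
  | 1, 2 => gF1q2
  | 1, 3 => gF1q3
  | 2, 0 => gF2q0
  | 2, 1 => gF2q1
  | 2, 2 => gF2q2
  | 2, 3 => gF2q3
  | 3, 0 => gF3q0
  | 3, 1 => gF3q1
  | 3, 2 => gF3q2
  | 3, 3 => gF3q3
  | 4, 0 => gF4q0
  | 4, 1 => gF4q1
  | 4, 2 => gF4q2
  | 4, 3 => gF4q3
  | _, _ => gF0q0

noncomputable def c0n : Fn1 := ⟨_, _, fun h1 => (enc_norm (enc_add (enc_pnc _ 1) (enc_mul (mug3.enc h1) (gug.enc h1))))⟩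
noncomputable def gug_s : Sl1 gug := ⟨_, fun h1 => (pr_norm (pr_add (pr_scale 3 4 h1) (pr_scale 3 2 (pr_csub (enc_pnc _ 1) (gsg_s.snd h1)))))⟩
noncomputable def kug_2_s : Sl1 kug_2 := ⟨_, fun h1 => (pr_sq h1)⟩
noncomputable def kug_s : Sl1 kug := ⟨_, fun h1 => (pr_norm (pr_add (pr_add (pr_scale 3 4 h1) (pr_scale 3 2 (kug_2_s.snd h1))) (pr_mul (pr_norm (pr_mul (pr_nd (pr_scale 3 4 (kug_2_s.snd h1))) (pr_nd (pr_inv (gsg_s.snd h1))))) (gug_s.snd h1))))⟩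
noncomputable def kp0q0_8_s : Sl2 kp0q0_8 := ⟨_, fun h1 h2 => (pr_sub (pr_scale 3 4 h1) (pr_half (c1g_s.snd h1)))⟩
noncomputable def kp0q0_s : Sl2 kp0q0 := ⟨_, fun h1 h2 => (pr_norm (pr_case (pr_addc (kp0q0_8_s.snd h1 h2) (enc_rat _ 229 829)) (pr_mul h1 (pr_norm (pr_add (pr_subr 1736655665741 3710000000000 (pr_neg (pr_scale 9155705905741 1855000000000 (kp0q0_8_s.snd h1 h2)))) (pr_cmul (enc_norm (kp0q0_3.enc h1.l h2)) (pr_norm (pr_addc (pr_scale 115267500041 231875000000 (kp0q0_8_s.snd h1 h2)) (enc_rat _ 473648862541 463750000000))))))) (pr_case (pr_addc (kp0q0_8_s.snd h1 h2) (enc_rat _ 121 746)) (pr_sub (kug_s.snd h1) (pr_mul h1 (pr_norm (pr_mul (kcg_s.snd (pr_norm (kp0q0_8_s.snd h1 h2)) h2) (pr_norm (pr_add (gug_s.snd h1) (pr_nat 2 (c1g_s.snd h1)))))))) (pr_mul h1 (pr_norm (pr_add (pr_csub (enc_rat _ 51954178931 98800000000) (pr_scale 249528886131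 49400000000 (kp0q0_8_s.snd h1 h2))) (pr_cmul (enc_norm (kp0q0_3.enc h1.l h2)) (pr_norm (pr_subr 58855643753 308750000000 (pr_neg (pr_scale 179743268747 154375000000 (kp0q0_8_s.snd h1 h2))))))))))))⟩
noncomputable def kn0q0_s : Sl2 kn0q0 := ⟨_, fun h1 h2 => (pr_norm (pr_add (pr_cmul (enc_norm (enc_add (enc_pnc _ 1) (enc_mul (mug3.enc h2) (gug.enc h2)))) (kf0q0_s.snd h1 h2)) (pr_cmul (mug3.enc h2) (kp0q0_s.snd h1 h2))))⟩
noncomputable def kp0q1_9_s : Sl2 kp0q1_9 := ⟨_, fun h1 h2 => (pr_sub (pr_scale 3 4 h1) (pr_half (c1g_s.snd h1)))⟩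
noncomputable def kp0q1_s : Sl2 kp0q1 := ⟨_, fun h1 h2 => (pr_norm (pr_mul (pr_norm (pr_subn 1 h1)) (pr_norm (pr_add (pr_csub (enc_rat _ 51954178931 98800000000) (pr_scale 249528886131 49400000000 (kp0q1_9_s.snd h1 h2))) (pr_cmul (enc_norm (enc_subr 11 32 h2)) (pr_norm (pr_subr 58855643753 308750000000 (pr_neg (pr_scale 179743268747 154375000000 (kp0q1_9_s.snd h1 h2))))))))))⟩
noncomputable def kn0q1_s : Sl2 kn0q1 := ⟨_, fun h1 h2 => (pr_norm (pr_add (pr_cmul (enc_norm (enc_add (enc_pnc _ 1) (enc_mul (mug3.enc h2) (gug.enc h2)))) (kf0q1_s.snd h1 h2)) (pr_cmul (mug3.enc h2) (kp0q1_s.snd h1 h2))))⟩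
noncomputable def kpc02_s : Sl2 kpc02 := ⟨_, fun h1 h2 => (pr_norm (pr_mul (pr_norm (pr_subn 1 (yag_s.snd h1))) (pr_norm (pr_case (pr_subr 1 10 h1) (pr_add (pr_scale 199637 50000 h1) (pr_cmul (enc_norm (kpc02_4.enc h1.l h2)) (pr_nd (pr_scale 3013 5000 h1)))) (pr_add (pr_subr 1687 2000000 (pr_scale 160047 40000 h1)) (pr_cmul (enc_norm (kpc02_4.enc h1.l h2)) (pr_norm (pr_subr 47149 400000 (pr_scale 71253 40000 h1)))))))))⟩
noncomputable def knc02_s : Sl2 knc02 := ⟨_, fun h1 h2 => (pr_norm (pr_add (pr_cmul (enc_norm (enc_add (enc_pnc _ 1) (enc_mul (mug3.enc h2) (gug.enc h2)))) (kfc02_s.snd h1 h2)) (pr_cmul (mug3.enc h2) (kpc02_s.snd h1 h2))))⟩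
noncomputable def bd1q0_s : Sl2 bd1q0 := ⟨_, fun h1 h2 => (pr_norm (pr_sub (pr_scale 1725401 250000 h1) (pr_cmul (enc_norm (enc_subr 11 32 h2)) (pr_nd (pr_scale 1 25000 h1)))))⟩
noncomputable def kp1q0_s : Sl2 kp1q0 := ⟨_, fun h1 h2 => (pr_norm (pr_mul (cv1m_s.snd h1) (bd1q0_s.snd h1 h2)))⟩
noncomputable def kn1q0_s : Sl2 kn1q0 := ⟨_, fun h1 h2 => (pr_norm (pr_add (pr_cmul (enc_norm (enc_add (enc_pnc _ 1) (enc_mul (mug3.enc h2) (gug.enc h2)))) (kf1q0_s.snd h1 h2)) (pr_cmul (mug3.enc h2) (kp1q0_s.snd h1 h2))))⟩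
noncomputable def bd1q1_s : Sl2 bd1q1 := ⟨_, fun h1 h2 => (pr_norm (pr_case (pr_subr 4 5 h1) (pr_case (pr_subr 7 10 h1) (pr_add (pr_addc (pr_scale 11369 200000 h1) (enc_rat _ 123957 2000000)) (pr_cmul (enc_norm (bd1q1_3.enc h1.l h2)) (pr_norm (pr_addc (pr_scale 57 20000 h1) (enc_rat _ 63 200000))))) (pr_add (pr_addc (pr_scale 1137 20000 h1) (enc_rat _ 2479 40000)) (pr_cmul (enc_norm (bd1q1_3.enc h1.l h2)) (pr_norm (pr_addc (pr_scale 1 400 h1) (enc_rat _ 7 12500)))))) (pr_case (pr_subr 7 8 h1) (pr_add (pr_addc (pr_scale 71 1250 h1) (enc_rat _ 12403 200000)) (pr_cmul (enc_norm (bd1q1_3.enc h1.l h2)) (pr_nd (pr_scale 2 625 h1)))) (pr_case (pr_subr 19 20 h1) (pr_add (pr_addc (pr_scale 532 9375 h1) (enc_rat _ 37237 600000)) (pr_cmul (enc_norm (bd1q1_3.enc h1.l h2)) (pr_norm (pr_subr 7 15000 (pr_scale 7 1875 h1))))) (pr_add (pr_addc (pr_scale 709 12500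 h1) (enc_rat _ 62087 1000000)) (pr_cmul (enc_norm (bd1q1_3.enc h1.l h2)) (pr_norm (pr_subr 91 100000 (pr_scale 21 5000 h1)))))))))⟩
noncomputable def kp1q1_s : Sl2 kp1q1 := ⟨_, fun h1 h2 => (pr_norm (pr_mul (cv1m_s.snd h1) (bd1q1_s.snd h1 h2)))⟩
noncomputable def kn1q1_s : Sl2 kn1q1 := ⟨_, fun h1 h2 => (pr_norm (pr_add (pr_cmul (enc_norm (enc_add (enc_pnc _ 1) (enc_mul (mug3.enc h2) (gug.enc h2)))) (kf1q1_s.snd h1 h2)) (pr_cmul (mug3.enc h2) (kp1q1_s.snd h1 h2))))⟩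
noncomputable def bd1q2_s : Sl2 bd1q2 := ⟨_, fun h1 h2 => (pr_norm (pr_case (pr_subr 11 10 h1) (pr_case (pr_subr 53 50 h1) (pr_case (pr_subr 103 100 h1) (pr_add (pr_subr 119747 30000 (pr_scale 119747 30000 h1)) (pr_cmul (enc_norm (bd1q2_3.enc h1.l h2)) (pr_norm (pr_subr 153 250 (pr_scale 153 250 h1))))) (pr_add (pr_subr 1996161 500000 (pr_scale 39923 10000 h1)) (pr_cmul (enc_norm (bd1q2_3.enc h1.l h2)) (pr_norm (pr_subr 180407 300000 (pr_scale 361 600 h1)))))) (pr_case (pr_subr 107 100 h1) (pr_add (pr_subr 998213 250000 (pr_scale 4991 1250 h1)) (pr_cmul (enc_norm (bd1q2_3.enc h1.l h2)) (pr_norm (pr_subr 59959 100000 (pr_scale 3 5 h1))))) (pr_add (pr_subr 5990027 1500000 (pr_scale 59899 15000 h1)) (pr_cmul (enc_norm (bd1q2_3.enc h1.l h2)) (pr_norm (pr_subr 179663 300000 (pr_scale 899 1500 h1))))))) (pr_case (pr_subr 231 200 h1) (pr_case (pr_subr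 577 500 h1) (pr_add (pr_subr 26955611 6750000 (pr_scale 5390999 1350000 h1)) (pr_cmul (enc_norm (bd1q2_3.enc h1.l h2)) (pr_norm (pr_subr 1619519 2700000 (pr_scale 40513 67500 h1))))) (pr_add (pr_subr 199637 50000 (pr_scale 199637 50000 h1)) (pr_cmul (enc_norm (bd1q2_3.enc h1.l h2)) (pr_norm (pr_subr 3013 5000 (pr_scale 3013 5000 h1)))))) (pr_case (pr_subr 5 4 h1) (pr_add (pr_subr 75861829 19000000 (pr_scale 3793093 950000 h1)) (pr_cmul (enc_norm (bd1q2_3.enc h1.l h2)) (pr_norm (pr_subr 1074947 1900000 (pr_scale 54217 95000 h1))))) (pr_case (pr_subr 27 20 h1) (pr_add (pr_subr 7985457 2000000 (pr_scale 399273 100000 h1)) (pr_cmul (enc_norm (bd1q2_3.enc h1.l h2)) (pr_norm (pr_subr 109251 200000 (pr_scale 5551 10000 h1))))) (pr_add (pr_subr 998181 250000 (pr_scale 598909 150000 h1)) (pr_cmul (enc_norm (bd1q2_3.enc h1.l h2)) (pr_norm (pr_subr 13437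 25000 (pr_scale 2743 5000 h1))))))))))⟩
noncomputable def kp1q2_s : Sl2 kp1q2 := ⟨_, fun h1 h2 => (pr_norm (pr_mul (cv1p_s.snd h1) (bd1q2_s.snd h1 h2)))⟩
noncomputable def kn1q2_s : Sl2 kn1q2 := ⟨_, fun h1 h2 => (pr_norm (pr_add (pr_cmul (enc_norm (enc_add (enc_pnc _ 1) (enc_mul (mug3.enc h2) (gug.enc h2)))) (kf1q2_s.snd h1 h2)) (pr_cmul (mug3.enc h2) (kp1q2_s.snd h1 h2))))⟩
noncomputable def bd1q3_s : Sl2 bd1q3 := ⟨_, fun h1 h2 => (pr_norm (pr_add (pr_subr 5084549 1000000 (pr_scale 141361 31250 h1)) (pr_cmul (enc_norm (enc_subr 11 32 h2)) (pr_norm (pr_subr 13 100000 (pr_scale 3 50000 h1))))))⟩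
noncomputable def kp1q3_s : Sl2 kp1q3 := ⟨_, fun h1 h2 => (pr_norm (pr_mul (cv1r_s.snd h1) (bd1q3_s.snd h1 h2)))⟩
noncomputable def kn1q3_s : Sl2 kn1q3 := ⟨_, fun h1 h2 => (pr_norm (pr_add (pr_cmul (enc_norm (enc_add (enc_pnc _ 1) (enc_mul (mug3.enc h2) (gug.enc h2)))) (kf1q3_s.snd h1 h2)) (pr_cmul (mug3.enc h2) (kp1q3_s.snd h1 h2))))⟩
noncomputable def bd2q0_s : Sl2 bd2q0 := ⟨_, fun h1 h2 => (pr_norm (pr_add (pr_subr 117683 500000 (pr_neg (pr_scale 1130281 250000 h1))) (pr_cmul (enc_norm (enc_subr 11 32 h2)) (pr_norm (pr_csub (enc_rat _ 7 20000) (pr_scale 2 3125 h1))))))⟩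
noncomputable def kp2q0_s : Sl2 kp2q0 := ⟨_, fun h1 h2 => (pr_norm (pr_mul (cv2m_s.snd h1) (bd2q0_s.snd h1 h2)))⟩
noncomputable def kn2q0_s : Sl2 kn2q0 := ⟨_, fun h1 h2 => (pr_norm (pr_add (pr_cmul (enc_norm (enc_add (enc_pnc _ 1) (enc_mul (mug3.enc h2) (gug.enc h2)))) (kf2q0_s.snd h1 h2)) (pr_cmul (mug3.enc h2) (kp2q0_s.snd h1 h2))))⟩
noncomputable def kp2q1_68_s : Sl2 kp2q1_68 := ⟨_, fun h1 h2 => (pr_csub (enc_pnc _ 1) h1)⟩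
noncomputable def kp2q1_69_s : Sl2 kp2q1_69 := ⟨_, fun h1 h2 => (gsg_s.snd (pr_norm (kp2q1_68_s.snd h1 h2)))⟩
noncomputable def kp2q1_73_s : Sl2 kp2q1_73 := ⟨_, fun h1 h2 => (esg_s.snd (pr_norm (kp2q1_68_s.snd h1 h2)))⟩
noncomputable def kp2q1_81_s : Sl2 kp2q1_81 := ⟨_, fun h1 h2 => (pr_mul (pr_nd (pr_scale 3 4 (pr_sq (pr_norm (kp2q1_68_s.snd h1 h2))))) (pr_nd (pr_inv (kp2q1_69_s.snd h1 h2))))⟩
noncomputable def kp2q1_106_s : Sl2 kp2q1_106 := ⟨_, fun h1 h2 => (pr_mul (cv1m_s.snd h1) (bd1q1_s.snd h1 h2))⟩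
noncomputable def kp2q1_s : Sl2 kp2q1 := ⟨_, fun h1 h2 => (pr_norm (pr_case (pr_subr 19 32 h1) (pr_mul (cv2m_s.snd h1) (pr_norm (pr_add (pr_csub (enc_rat _ 1377093511 625000000) (pr_scale 425421443 156250000 h1)) (pr_cmul (enc_norm (kp2q1_4.enc h1.l h2)) (pr_norm (pr_subr 997657 46875000 (pr_scale 248008 5859375 h1))))))) (pr_case (pr_subr 23 32 h1) (pr_add (kp2q1_106_s.snd h1 h2) (pr_mul (pr_norm (pr_mul (pr_norm (pr_sub (pr_sub (pr_add (kug_s.snd (pr_norm (kp2q1_68_s.snd h1 h2))) (pr_mul (pr_norm (pr_sub (pr_mul (pr_norm (pr_mul (pr_norm (kp2q1_81_s.snd h1 h2)) (pr_norm (pr_subn 3 (pr_nat 4 (kp2q1_69_s.snd h1 h2)))))) (kp2q1_73_s.snd h1 h2)) (pr_mul (qsg_s.snd (pr_norm (kp2q1_68_s.snd h1 h2))) (pr_norm (pr_sub (pr_half (kp2q1_68_s.snd h1 h2)) (kp2q1_81_s.snd h1 h2)))))) (pr_nd (pr_inv (pr_mul (pr_nd (pr_nat 2 (kp2q1_73_s.snd h1 h2))) (kp2q1_73_s.snd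 h1 h2)))))) (pr_mul (pr_norm (pr_mul (pr_norm (kp2q1_68_s.snd h1 h2)) (kcg_s.snd (pr_norm (pr_sub (pr_scale 3 4 (kp2q1_68_s.snd h1 h2)) (pr_half (kp2q1_69_s.snd h1 h2)))) h2))) (pr_norm (pr_add (pr_cadd (enc_pnc _ 1) (gug_s.snd (pr_norm (kp2q1_68_s.snd h1 h2)))) (pr_nat 2 (kp2q1_69_s.snd h1 h2)))))) (kp2q1_106_s.snd h1 h2))) (pr_norm (pr_sub (cv2m_s.snd h1) (cv1m_s.snd h1))))) (pr_nd (pr_inv (pr_sub (pr_addc (swg_s.snd h1) (enc_rat _ 1 2)) (cv1m_s.snd h1)))))) (pr_mul (cv2m_s.snd h1) (pr_norm (pr_case (pr_subr 7 8 h1) (pr_case (pr_subr 4 5 h1) (pr_add (pr_csub (enc_rat _ 1482870217 1625000000) (pr_scale 18527603 20312500 h1)) (pr_cmul (enc_norm (kp2q1_4.enc h1.l h2)) (pr_norm (pr_csub (enc_rat _ 48083327 50781250) (pr_scale 77714779 81250000 h1))))) (pr_add (pr_csub (enc_rat _ 2740307 3000000) (pr_scale 34247 37500 h1)) (pr_cmul (enc_norm (kp2q1_4.enc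 h1.l h2)) (pr_norm (pr_csub (enc_rat _ 34673 37500) (pr_scale 1393 1500 h1)))))) (pr_case (pr_subr 19 20 h1) (pr_add (pr_csub (enc_rat _ 1371641 1500000) (pr_scale 68579 75000 h1)) (pr_cmul (enc_norm (kp2q1_4.enc h1.l h2)) (pr_norm (pr_csub (enc_rat _ 22567 25000) (pr_scale 2259 2500 h1))))) (pr_add (pr_csub (enc_rat _ 572 625) (pr_scale 572 625 h1)) (pr_cmul (enc_norm (kp2q1_4.enc h1.l h2)) (pr_norm (pr_csub (enc_rat _ 2213 2500) (pr_scale 2213 2500 h1))))))))))))⟩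
noncomputable def kn2q1_s : Sl2 kn2q1 := ⟨_, fun h1 h2 => (pr_norm (pr_add (pr_cmul (enc_norm (enc_add (enc_pnc _ 1) (enc_mul (mug3.enc h2) (gug.enc h2)))) (kf2q1_s.snd h1 h2)) (pr_cmul (mug3.enc h2) (kp2q1_s.snd h1 h2))))⟩
noncomputable def kp2q2_12_s : Sl2 kp2q2_12 := ⟨_, fun h1 h2 => (pr_subr 81611 62500 (pr_scale 10531 10000 h1))⟩
noncomputable def kp2q2_85_s : Sl2 kp2q2_85 := ⟨_, fun h1 h2 => (pr_subn 1 h1)⟩
noncomputable def kp2q2_86_s : Sl2 kp2q2_86 := ⟨_, fun h1 h2 => (gsg_s.snd (pr_norm (kp2q2_85_s.snd h1 h2)))⟩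
noncomputable def kp2q2_90_s : Sl2 kp2q2_90 := ⟨_, fun h1 h2 => (esg_s.snd (pr_norm (kp2q2_85_s.snd h1 h2)))⟩
noncomputable def kp2q2_98_s : Sl2 kp2q2_98 := ⟨_, fun h1 h2 => (pr_mul (pr_nd (pr_scale 3 4 (pr_sq (pr_norm (kp2q2_85_s.snd h1 h2))))) (pr_nd (pr_inv (kp2q2_86_s.snd h1 h2))))⟩
noncomputable def kp2q2_121_s : Sl2 kp2q2_121 := ⟨_, fun h1 h2 => (pr_mul (cv1p_s.snd h1) (bd1q2_s.snd h1 h2))⟩
noncomputable def kp2q2_s : Sl2 kp2q2 := ⟨_, fun h1 h2 => (pr_norm (pr_case (pr_subr 41 32 h1) (pr_mul (cv2p_s.snd h1) (pr_norm (pr_case (pr_subr 11 10 h1) (pr_case (pr_subr 103 100 h1) (pr_add (kp2q2_12_s.snd h1 h2) (pr_cmul (enc_norm (kp2q2_4.enc h1.l h2)) (pr_norm (pr_subr 436189 300000 (pr_scale 4159 3000 h1))))) (pr_case (pr_subr 53 50 h1) (pr_add (kp2q2_12_s.snd h1 h2) (pr_cmul (enc_norm (kp2q2_4.enc h1.l h2)) (pr_norm (pr_subr 29093 20000 (pr_scale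 1387 1000 h1))))) (pr_add (kp2q2_12_s.snd h1 h2) (pr_cmul (enc_norm (kp2q2_4.enc h1.l h2)) (pr_norm (pr_subr 291513 200000 (pr_scale 5559 4000 h1))))))) (pr_case (pr_subr 29 25 h1) (pr_add (pr_subr 3917273 3000000 (pr_scale 12637 12000 h1)) (pr_cmul (enc_norm (kp2q2_4.enc h1.l h2)) (pr_norm (pr_subr 9139 6250 (pr_scale 697 500 h1))))) (pr_case (pr_subr 5 4 h1) (pr_add (pr_subr 783443 600000 (pr_scale 3949 3750 h1)) (pr_cmul (enc_norm (kp2q2_4.enc h1.l h2)) (pr_norm (pr_subr 8257 5625 (pr_scale 1259 900 h1))))) (pr_add (pr_subr 20402137 15625000 (pr_scale 164541471 156250000 h1)) (pr_cmul (enc_norm (kp2q2_4.enc h1.l h2)) (pr_norm (pr_subr 36773337 25000000 (pr_scale 43790837 31250000 h1)))))))))) (pr_case (pr_subr 45 32 h1) (pr_add (kp2q2_121_s.snd h1 h2) (pr_mul (pr_norm (pr_mul (pr_norm (pr_sub (pr_add (pr_sub (kug_s.snd (pr_norm (kp2q2_85_s.snd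 h1 h2))) (pr_mul (pr_norm (pr_sub (pr_mul (pr_norm (pr_mul (pr_norm (kp2q2_98_s.snd h1 h2)) (pr_norm (pr_subn 3 (pr_nat 4 (kp2q2_86_s.snd h1 h2)))))) (kp2q2_90_s.snd h1 h2)) (pr_mul (qsg_s.snd (pr_norm (kp2q2_85_s.snd h1 h2))) (pr_norm (pr_sub (pr_half (kp2q2_85_s.snd h1 h2)) (kp2q2_98_s.snd h1 h2)))))) (pr_nd (pr_inv (pr_mul (pr_nd (pr_nat 2 (kp2q2_90_s.snd h1 h2))) (kp2q2_90_s.snd h1 h2)))))) (pr_mul (pr_norm (pr_mul (pr_norm (kp2q2_85_s.snd h1 h2)) (kcg_s.snd (pr_norm (pr_sub (pr_scale 3 4 (kp2q2_85_s.snd h1 h2)) (pr_half (kp2q2_86_s.snd h1 h2)))) h2))) (pr_norm (pr_sub (pr_csub (enc_pnc _ 1) (gug_s.snd (pr_norm (kp2q2_85_s.snd h1 h2)))) (pr_nat 2 (kp2q2_86_s.snd h1 h2)))))) (kp2q2_121_s.snd h1 h2))) (pr_norm (pr_sub (cv2p_s.snd h1) (cv1p_s.snd h1))))) (pr_nd (pr_inv (pr_sub (pr_subr 1 2 (swg_s.snd h1)) (cv1p_s.snd h1)))))) (pr_mul (cv2p_s.snd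 h1) (pr_norm (pr_add (pr_subr 9422625109 156250000 (pr_scale 6750172781 156250000 h1)) (pr_cmul (enc_norm (kp2q2_4.enc h1.l h2)) (pr_norm (pr_subr 8652251 7812500 (pr_scale 8652251 11718750 h1))))))))))⟩
noncomputable def kn2q2_s : Sl2 kn2q2 := ⟨_, fun h1 h2 => (pr_norm (pr_add (pr_cmul (enc_norm (enc_add (enc_pnc _ 1) (enc_mul (mug3.enc h2) (gug.enc h2)))) (kf2q2_s.snd h1 h2)) (pr_cmul (mug3.enc h2) (kp2q2_s.snd h1 h2))))⟩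
noncomputable def bd2q3_s : Sl2 bd2q3 := ⟨_, fun h1 h2 => (pr_norm (pr_add (pr_csub (enc_rat _ 179953 25000) (pr_scale 179953 50000 h1)) (pr_cmul (enc_norm (enc_subr 11 32 h2)) (pr_norm (pr_subr 13 25000 (pr_scale 13 50000 h1))))))⟩
noncomputable def kpc23_s : Sl2 kpc23 := ⟨_, fun h1 h2 => (pr_norm (pr_mul (pr_norm (pr_add (pr_scale 17 20 (pr_subr 1 2 (swg_s.snd (pr_nd (ycg_s.snd h1))))) (pr_scale 3 20 h1))) (bd2q3_s.snd (pr_nd (ycg_s.snd h1)) h2)))⟩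
noncomputable def knc23_s : Sl2 knc23 := ⟨_, fun h1 h2 => (pr_norm (pr_add (pr_cmul (enc_norm (enc_add (enc_pnc _ 1) (enc_mul (mug3.enc h2) (gug.enc h2)))) (kfc23_s.snd h1 h2)) (pr_cmul (mug3.enc h2) (kpc23_s.snd h1 h2))))⟩
noncomputable def bd3q0_s : Sl2 bd3q0 := ⟨_, fun h1 h2 => (pr_norm (pr_add (pr_subr 137493 500000 (pr_scale 129593 250000 h1)) (pr_cmul (enc_norm (enc_subr 11 32 h2)) (pr_norm (pr_csub (enc_rat _ 47 100000) (pr_scale 43 50000 h1))))))⟩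
noncomputable def kp3q0_s : Sl2 kp3q0 := ⟨_, fun h1 h2 => (pr_norm (pr_mul (cv3m_s.snd h1) (bd3q0_s.snd h1 h2)))⟩
noncomputable def kn3q0_s : Sl2 kn3q0 := ⟨_, fun h1 h2 => (pr_norm (pr_add (pr_cmul (enc_norm (enc_add (enc_pnc _ 1) (enc_mul (mug3.enc h2) (gug.enc h2)))) (kf3q0_s.snd h1 h2)) (pr_cmul (mug3.enc h2) (kp3q0_s.snd h1 h2))))⟩
noncomputable def bd3q1_s : Sl2 bd3q1 := ⟨_, fun h1 h2 => (pr_norm (pr_case (pr_subr 4 5 h1) (pr_case (pr_subr 7 10 h1) (pr_add (pr_csub (enc_rat _ 110223 80000) (pr_scale 275521 200000 h1)) (pr_cmul (enc_norm (bd3q1_3.enc h1.l h2)) (pr_norm (pr_subr 1097 200000 (pr_scale 181 20000 h1))))) (pr_add (pr_csub (enc_rat _ 1377917 1000000) (pr_scale 137779 100000 h1)) (pr_cmul (enc_norm (bd3q1_3.enc h1.l h2)) (pr_norm (pr_subr 143 50000 (pr_scale 53 10000 h1)))))) (pr_case (pr_subr 7 8 h1) (pr_add (pr_csub (enc_rat _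 1378149 1000000) (pr_scale 8613 6250 h1)) (pr_cmul (enc_norm (bd3q1_3.enc h1.l h2)) (pr_norm (pr_csub (enc_rat _ 239 150000) (pr_scale 1 3750 h1))))) (pr_case (pr_subr 19 20 h1) (pr_add (pr_csub (enc_rat _ 2067731 1500000) (pr_scale 20677 15000 h1)) (pr_cmul (enc_norm (bd3q1_3.enc h1.l h2)) (pr_norm (pr_csub (enc_rat _ 801 100000) (pr_scale 19 2500 h1))))) (pr_add (pr_csub (enc_rat _ 4309 3125) (pr_scale 4309 3125 h1)) (pr_cmul (enc_norm (bd3q1_3.enc h1.l h2)) (pr_norm (pr_csub (enc_rat _ 79 5000) (pr_scale 79 5000 h1)))))))))⟩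
noncomputable def kp3q1_s : Sl2 kp3q1 := ⟨_, fun h1 h2 => (pr_norm (pr_mul (cv3m_s.snd h1) (bd3q1_s.snd h1 h2)))⟩
noncomputable def kn3q1_s : Sl2 kn3q1 := ⟨_, fun h1 h2 => (pr_norm (pr_add (pr_cmul (enc_norm (enc_add (enc_pnc _ 1) (enc_mul (mug3.enc h2) (gug.enc h2)))) (kf3q1_s.snd h1 h2)) (pr_cmul (mug3.enc h2) (kp3q1_s.snd h1 h2))))⟩
noncomputable def bd3q2_8_s : Sl2 bd3q2_8 := ⟨_, fun h1 h2 => (pr_scale 20909 3000 h1)⟩
noncomputable def bd3q2_s : Sl2 bd3q2 := ⟨_, fun h1 h2 => (pr_norm (pr_case (pr_subr 11 10 h1) (pr_case (pr_subr 103 100 h1) (pr_subc (pr_csub (enc_rat _ 24101357 3000000) (bd3q2_8_s.snd h1 h2)) (bd3q2_15.enc h1.l h2)) (pr_case (pr_subr 53 50 h1) (pr_subc (pr_csub (enc_rat _ 12050627 1500000) (pr_scale 209089 30000 h1)) (bd3q2_15.enc h1.l h2)) (pr_subc (pr_csub (enc_rat _ 16067591 2000000) (pr_scale 278787 40000 h1)) (bd3q2_15.enc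 h1.l h2)))) (pr_case (pr_subr 5 4 h1) (pr_case (pr_subr 29 25 h1) (pr_subc (pr_csub (enc_rat _ 1004221 125000) (pr_scale 139393 20000 h1)) (bd3q2_15.enc h1.l h2)) (pr_subc (pr_csub (enc_rat _ 12050681 1500000) (bd3q2_8_s.snd h1 h2)) (bd3q2_15.enc h1.l h2))) (pr_case (pr_subr 27 20 h1) (pr_add (pr_csub (enc_rat _ 16067583 2000000) (pr_scale 696967 100000 h1)) (pr_cmul (enc_norm (bd3q2_3.enc h1.l h2)) (pr_norm (pr_csub (enc_rat _ 21 200000) (pr_scale 1 10000 h1))))) (pr_subc (pr_csub (enc_rat _ 8033787 1000000) (bd3q2_8_s.snd h1 h2)) (enc_scale 3 100000 (bd3q2_3.enc h1.l h2)))))))⟩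
noncomputable def kp3q2_s : Sl2 kp3q2 := ⟨_, fun h1 h2 => (pr_norm (pr_mul (cv3p_s.snd h1) (bd3q2_s.snd h1 h2)))⟩
noncomputable def kn3q2_s : Sl2 kn3q2 := ⟨_, fun h1 h2 => (pr_norm (pr_add (pr_cmul (enc_norm (enc_add (enc_pnc _ 1) (enc_mul (mug3.enc h2) (gug.enc h2)))) (kf3q2_s.snd h1 h2)) (pr_cmul (mug3.enc h2) (kp3q2_s.snd h1 h2))))⟩
noncomputable def bd3q3_s : Sl2 bd3q3 := ⟨_, fun h1 h2 => (pr_norm (pr_add (pr_csub (enc_rat _ 382843 62500) (pr_scale 382843 125000 h1)) (pr_cmul (enc_norm (enc_subr 11 32 h2)) (pr_norm (pr_subr 9 25000 (pr_scale 9 50000 h1))))))⟩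
noncomputable def kpc33_s : Sl2 kpc33 := ⟨_, fun h1 h2 => (pr_norm (pr_mul (pr_norm (pr_add (pr_half (pr_subr 1 2 (swg_s.snd (pr_nd (ycg_s.snd h1))))) (pr_half h1))) (bd3q3_s.snd (pr_nd (ycg_s.snd h1)) h2)))⟩
noncomputable def knc33_s : Sl2 knc33 := ⟨_, fun h1 h2 => (pr_norm (pr_add (pr_cmul (enc_norm (enc_add (enc_pnc _ 1) (enc_mul (mug3.enc h2) (gug.enc h2)))) (kfc33_s.snd h1 h2)) (pr_cmul (mug3.enc h2) (kpc33_s.snd h1 h2))))⟩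
noncomputable def kp4q0_s : Sl2 kp4q0 := ⟨_, fun h1 h2 => (pr_norm (pr_mul h1 (pr_norm (pr_add (pr_csub (enc_rat _ 187541 1000000) (pr_scale 437457 200000 h1)) (pr_cmul (enc_norm (enc_subr 11 32 h2)) (pr_norm (pr_subr 21 20000 (pr_neg (pr_scale 38587 50000 h1)))))))))⟩
noncomputable def kn4q0_s : Sl2 kn4q0 := ⟨_, fun h1 h2 => (pr_norm (pr_add (pr_cmul (enc_norm (enc_add (enc_pnc _ 1) (enc_mul (mug3.enc h2) (gug.enc h2)))) (kf4q0_s.snd h1 h2)) (pr_cmul (mug3.enc h2) (kp4q0_s.snd h1 h2))))⟩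
noncomputable def kp4q1_s : Sl2 kp4q1 := ⟨_, fun h1 h2 => (pr_norm (pr_mul (pr_norm (pr_subn 1 h1)) (pr_norm (pr_add (pr_csub (enc_rat _ 187541 1000000) (pr_scale 437457 200000 h1)) (pr_cmul (enc_norm (enc_subr 11 32 h2)) (pr_norm (pr_subr 21 20000 (pr_neg (pr_scale 38587 50000 h1)))))))))⟩
noncomputable def kn4q1_s : Sl2 kn4q1 := ⟨_, fun h1 h2 => (pr_norm (pr_add (pr_cmul (enc_norm (enc_add (enc_pnc _ 1) (enc_mul (mug3.enc h2) (gug.enc h2)))) (kf4q1_s.snd h1 h2)) (pr_cmul (mug3.enc h2) (kp4q1_s.snd h1 h2))))⟩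
noncomputable def kp4q2_9_s : Sl2 kp4q2_9 := ⟨_, fun h1 h2 => (pr_sub (pr_half (c3g_s.snd h1)) (pr_scale 1 4 h1))⟩
noncomputable def kp4q2_s : Sl2 kp4q2 := ⟨_, fun h1 h2 => (pr_norm (pr_mul (pr_norm (pr_subn 1 h1)) (pr_norm (pr_add (pr_subr 467707 2000000 (pr_scale 893439 200000 (kp4q2_9_s.snd h1 h2))) (pr_cmul (enc_norm (enc_subr 11 32 h2)) (pr_norm (pr_addc (pr_scale 38649 50000 (kp4q2_9_s.snd h1 h2)) (enc_rat _ 3863 10000))))))))⟩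
noncomputable def kn4q2_s : Sl2 kn4q2 := ⟨_, fun h1 h2 => (pr_norm (pr_add (pr_cmul (enc_norm (enc_add (enc_pnc _ 1) (enc_mul (mug3.enc h2) (gug.enc h2)))) (kf4q2_s.snd h1 h2)) (pr_cmul (mug3.enc h2) (kp4q2_s.snd h1 h2))))⟩
noncomputable def kpc43_9_s : Sl2 kpc43_9 := ⟨_, fun h1 h2 => (pr_sub (pr_half h1) (pr_scale 1 4 (ycg_s.snd h1)))⟩
noncomputable def kpc43_s : Sl2 kpc43 := ⟨_, fun h1 h2 => (pr_norm (pr_mul (pr_norm (pr_subn 2 (ycg_s.snd h1))) (pr_norm (pr_add (pr_subr 467707 2000000 (pr_scale 893439 200000 (kpc43_9_s.snd h1 h2))) (pr_cmul (enc_norm (enc_subr 11 32 h2)) (pr_norm (pr_addc (pr_scale 38649 50000 (kpc43_9_s.snd h1 h2)) (enc_rat _ 3863 10000))))))))⟩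
noncomputable def knc43_s : Sl2 knc43 := ⟨_, fun h1 h2 => (pr_norm (pr_add (pr_cmul (enc_norm (enc_add (enc_pnc _ 1) (enc_mul (mug3.enc h2) (gug.enc h2)))) (kfc43_s.snd h1 h2)) (pr_cmul (mug3.enc h2) (kpc43_s.snd h1 h2))))⟩
noncomputable def gN0q0 : Gn := ⟨ndN0q0, c1g_s, kn0q0_s, l0q0_s, false⟩
noncomputable def gN0q1 : Gn := ⟨ndN0q1, c1g_s, kn0q1_s, l0q1_s, false⟩
noncomputable def gN0q2 : Gn := ⟨ndN0q2, idf_s, knc02_s, lc02_s, true⟩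
noncomputable def gN1q0 : Gn := ⟨ndN1q0, cv1m_s, kn1q0_s, l1q0_s, false⟩
noncomputable def gN1q1 : Gn := ⟨ndN1q1, cv1m_s, kn1q1_s, l1q1_s, false⟩
noncomputable def gN1q2 : Gn := ⟨ndN1q2, cv1p_s, kn1q2_s, l1q2_s, false⟩
noncomputable def gN1q3 : Gn := ⟨ndN1q3, cv1r_s, kn1q3_s, l1q3_s, false⟩
noncomputable def gN2q0 : Gn := ⟨ndN2q0, cv2m_s, kn2q0_s, l2q0_s, false⟩
noncomputable def gN2q1 : Gn := ⟨ndN2q1, cv2m_s, kn2q1_s, l2q1_s, false⟩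
noncomputable def gN2q2 : Gn := ⟨ndN2q2, cv2p_s, kn2q2_s, l2q2_s, false⟩
noncomputable def gN2q3 : Gn := ⟨ndN2q3, xc23_s, knc23_s, lc23_s, false⟩
noncomputable def gN3q0 : Gn := ⟨ndN3q0, cv3m_s, kn3q0_s, l3q0_s, false⟩
noncomputable def gN3q1 : Gn := ⟨ndN3q1, cv3m_s, kn3q1_s, l3q1_s, false⟩
noncomputable def gN3q2 : Gn := ⟨ndN3q2, cv3p_s, kn3q2_s, l3q2_s, false⟩
noncomputable def gN3q3 : Gn := ⟨ndN3q3, xc33_s, knc33_s, lc33_s, false⟩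
noncomputable def gN4q0 : Gn := ⟨ndN4q0, c3g_s, kn4q0_s, l4q0_s, false⟩
noncomputable def gN4q1 : Gn := ⟨ndN4q1, c3g_s, kn4q1_s, l4q1_s, false⟩
noncomputable def gN4q2 : Gn := ⟨ndN4q2, c3g_s, kn4q2_s, l4q2_s, false⟩
noncomputable def gN4q3 : Gn := ⟨ndN4q3, idf_s, knc43_s, lc43_s, false⟩
noncomputable def gN0q3 : Gn := gz
noncomputable def gN (j : Fin 5) (q : ℕ) : Gn :=
  match j, q with
  | 0, 0 => gN0q0
  | 0, 1 => gN0q1
  | 0, 2 => gN0q2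
  | 0, 3 => gN0q3
  | 1, 0 => gN1q0
  | 1, 1 => gN1q1
  | 1, 2 => gN1q2
  | 1, 3 => gN1q3
  | 2, 0 => gN2q0
  | 2, 1 => gN2q1
  | 2, 2 => gN2q2
  | 2, 3 => gN2q3
  | 3, 0 => gN3q0
  | 3, 1 => gN3q1
  | 3, 2 => gN3q2
  | 3, 3 => gN3q3
  | 4, 0 => gN4q0
  | 4, 1 => gN4q1
  | 4, 2 => gN4q2
  | 4, 3 => gN4q3
  | _, _ => gN0q0

noncomputable def c0F : Fn1 := ⟨fun _ => pone, fun _ => 1, fun _ => enc_one _⟩
noncomputable def c0N : Fn1 := c0n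

end Pool.Agent.Strip051.G.I5_16_3_8.Tab
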