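import Pool.Agent.Strip051.PB.MolN
import Pool.Agent.Strip051.G.I5_16_3_8.Tab

/-! # The tight charts of a table: data (generated) -/

set_option linter.all false

namespace Pool.Agent.Strip051.G.I5_16_3_8.Tab.Mo

open Pool.Agent.Strip051.PB Pool.Agent.Strip051.PB.Mol
open Pool.Agent.Strip051.G.I5_16_3_8.Tab

noncomputable def dq : Fn3 :=
  dqK2 (dqQ (lnF true 73517436580663 96619950000000 false 32603091748243 2415498750000 11 32) (lnF true 36117 1000000 false 532087 25000 11 32)) (lnF true 35295826914079 2775021583950000000 true 756164072039 6937553959875000 11 32) (lnF false 53029 250000 true 427477 20000 11 32) true 11 50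

noncomputable def mL : Fn2 :=
  exH2 (exQ (exC (lnF false 1456 15625 false 1320659 2000000 11 32)) (lnF false 186 3125 true 359859 100000 11 32) false) (lnF false 659 50000000 true 9671 30000000 11 32) (lnF false 131327 1000000 false 153501 100000 11 32) false 1 20

noncomputable def mR : Fn2 :=
  exH2 (exQ (exC (lnF true 478829 10000000 true 277327 500000 11 32)) (lnF true 247771 500000 false 124027 25000 11 32) true) (lnF true 67 4687500 true 149 937500 11 32) (lnF false 263343 1000000 true 236911 50000 11 32) true 1 20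

noncomputable def kp : Fn2 :=
  plA (lnF false 31246 15625 false 77279 100000 11 32) (lnF false 160047 40000 false 71253 40000 11 32) false 1 2

noncomputable def kb : Fn2 :=
  plA (lnF true 31246 15625 true 77279 100000 11 32) (lnF true 249528886131 49400000000 true 179743268747 154375000000 11 32) false 1 2

noncomputable def rK1 : Fn2 :=
  scH (exC (lnF true 2053 30000 false 4669 3000 11 32)) (lnF false 1 1200 false 1 3000 11 32) 3 100

noncomputable def rX1 : Fn2 :=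
  scH (exC (lnF false 2203 15000 false 1691 3000 11 32)) (lnF false 0 1 true 281 1000 11 32) 3 100

noncomputable def rD1 : Fn2 :=
  scH (exC (lnF false 119747 30000 false 153 250 11 32)) (lnF false 11 15000 true 31 3000 11 32) 3 100

noncomputable def sk1 : MolS :=
  stK 2 3 5 rK1 rX1 rD1

noncomputable def sp : MolS :=
  stP kcg mL mR kp

noncomputable def sm : MolS :=
  stM kcg mR kb

noncomputable def sK_Ap : Fn3 :=
  sl0 (slF (w3W false) cv1p (w3K false 1 kcg) kf1q2)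

noncomputable def sX_Ap : Fn3 :=
  sl0 (slF (w3W false) cv1p (w3Q false kcg) l1q2)

noncomputable def sD_Ap : Fn3 :=
  sl0 (slF (w3W false) cv1p (w3D false 1 kcg) kp1q2)

noncomputable def T_Ap : MolT :=
  ⟨kcg, dq, sp, 2, sK_Ap, sX_Ap, sD_Ap, 0, 1, 0, 1⟩

noncomputable def sk_Ap : List Fn3 := [skP true 33554432, skM true 33554432]

noncomputable def cx_Ap : List Fn3 :=
  [f3A sp.xs (tCC (w3W false) cv1p),
    f3A sp.xs (tCC cv2p (w3W false)),
    f3A sp.xs (tCX cv2p)]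

noncomputable def c0_Ap : Cht := k0Ap (T_Ap.a true) sk_Ap cx_Ap

noncomputable def c1_Ap : Cht := k1Ap (T_Ap.a true) sk_Ap cx_Ap

noncomputable def sK_Apk1 : Fn3 :=
  sl0 (slF (w3W false) cv1p (w3K false 1 kcg) kf1q2)

noncomputable def sX_Apk1 : Fn3 :=
  sl0 (slF (w3W false) cv1p (w3Q false kcg) l1q2)

noncomputable def sD_Apk1 : Fn3 :=
  sl0 (slF (w3W false) cv1p (w3D false 1 kcg) kp1q2)

noncomputable def T_Apk1 : MolT :=
  ⟨kcg, dq, sk1, 2, sK_Apk1, sX_Apk1, sD_Apk1, 0, 1, 0, 1⟩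

noncomputable def sk_Apk1 : List Fn3 := [skP true 33554432, skM true 33554432]

noncomputable def cx_Apk1 : List Fn3 :=
  [f3A sk1.xs (tCC (w3W false) cv1p),
    f3A sk1.xs (tCC cv2p (w3W false)),
    f3A sk1.xs (tCX cv2p)]

noncomputable def c0_Apk1 : Cht := k0Ap (T_Apk1.a true) sk_Apk1 cx_Apk1

noncomputable def c1_Apk1 : Cht := k1Ap (T_Apk1.a true) sk_Apk1 cx_Apk1

noncomputable def sK_Am : Fn3 :=
  sl0 (slF (w3W false) cv1p (w3K false 1 kcg) kf1q2)

noncomputable def sX_Am : Fn3 :=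
  sl0 (slF (w3W false) cv1p (w3Q false kcg) l1q2)

noncomputable def sD_Am : Fn3 :=
  sl0 (slF (w3W false) cv1p (w3D false 1 kcg) kp1q2)

noncomputable def T_Am : MolT :=
  ⟨kcg, dq, sm, 2, sK_Am, sX_Am, sD_Am, 0, 1, 0, 1⟩

noncomputable def sk_Am : List Fn3 := [skP true 33554432, skM true 33554432]

noncomputable def cx_Am : List Fn3 :=
  [f3A sm.xs (tCC (w3W false) cv1p),
    f3A sm.xs (tCC cv2p (w3W false)),
    f3A sm.xs (tXC cv1p)]

noncomputable def c0_Am : Cht := k0Am (T_Am.a false) sk_Am cx_Am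

noncomputable def c1_Am : Cht := k1Am (T_Am.a false) sk_Am cx_Am

noncomputable def sK_Bp : Fn3 :=
  sl0 (slF (w3W true) cv1m (w3K true 1 kcg) kf1q1)

noncomputable def sX_Bp : Fn3 :=
  sl0 (slF (w3W true) cv1m (w3Q true kcg) l1q1)

noncomputable def sD_Bp : Fn3 :=
  sl0 (slF (w3W true) cv1m (w3D true 1 kcg) kp1q1)

noncomputable def T_Bp : MolT :=
  ⟨kcg, dq, sp, 1, sK_Bp, sX_Bp, sD_Bp, 0, 1, 0, 1⟩

noncomputable def sk_Bp : List Fn3 := [skP false 33554432, skM false 33554432]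

noncomputable def cx_Bp : List Fn3 :=
  [f3B sp.xs (tCC (w3W true) cv1m),
    f3B sp.xs (tCC cv2m (w3W true)),
    f3B sp.xs (tXC cv1m)]

noncomputable def c0_Bp : Cht := k0Bp (T_Bp.b true) sk_Bp cx_Bp

noncomputable def c1_Bp : Cht := k1Bp (T_Bp.b true) sk_Bp cx_Bp

noncomputable def sK_Bpk1 : Fn3 :=
  sl0 (slF (w3W true) cv1m (w3K true 1 kcg) kf1q1)

noncomputable def sX_Bpk1 : Fn3 :=
  sl0 (slF (w3W true) cv1m (w3Q true kcg) l1q1)

noncomputable def sD_Bpk1 : Fn3 :=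
  sl0 (slF (w3W true) cv1m (w3D true 1 kcg) kp1q1)

noncomputable def T_Bpk1 : MolT :=
  ⟨kcg, dq, sk1, 1, sK_Bpk1, sX_Bpk1, sD_Bpk1, 0, 1, 0, 1⟩

noncomputable def sk_Bpk1 : List Fn3 := [skP false 33554432, skM false 33554432]

noncomputable def cx_Bpk1 : List Fn3 :=
  [f3B sk1.xs (tCC (w3W true) cv1m),
    f3B sk1.xs (tCC cv2m (w3W true)),
    f3B sk1.xs (tXC cv1m)]

noncomputable def c0_Bpk1 : Cht := k0Bp (T_Bpk1.b true) sk_Bpk1 cx_Bpk1

noncomputable def c1_Bpk1 : Cht := k1Bp (T_Bpk1.b true) sk_Bpk1 cx_Bpk1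

noncomputable def sK_Bm : Fn3 :=
  sl1 (slF (w3W true) cv1m (w3K true 1 kcg) kf1q1) (sgF cv2m cv3m kf2q1 kf3q1) (hgR (w3W true) cv2m)

noncomputable def sX_Bm : Fn3 :=
  sl1 (slF (w3W true) cv1m (w3Q true kcg) l1q1) (sgF cv2m cv3m l2q1 l3q1) (hgR (w3W true) cv2m)

noncomputable def sD_Bm : Fn3 :=
  sl1 (slF (w3W true) cv1m (w3D true 1 kcg) kp1q1) (sgF cv2m cv3m kp2q1 kp3q1) (hgR (w3W true) cv2m)

noncomputable def T_Bm : MolT :=
  ⟨kcg, dq, sm, 1, sK_Bm, sX_Bm, sD_Bm, 0, 1, 0, 1⟩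

noncomputable def sk_Bm : List Fn3 := [skP false 33554432, skM false 33554432]

noncomputable def cx_Bm : List Fn3 :=
  [f3B sm.xs (tCC (w3W true) cv1m),
    f3B sm.xs (tCC cv2m (w3W true)),
    f3B sm.xs (tCX cv3m)]

noncomputable def c0_Bm : Cht := k0Bm (T_Bm.b false) sk_Bm cx_Bm

noncomputable def c1_Bm : Cht := k1Bm (T_Bm.b false) sk_Bm cx_Bm

end Pool.Agent.Strip051.G.I5_16_3_8.Tab.Mo
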